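import Pool.Agent.ZRM.P18

/-!
# Merged form of the modules ZR.JThree
-/

set_option autoImplicit false

section

/-!
# ZR/JThree : J3 (relocation of far coordinates)

`k = 0` trivial.  Let `k ≥ 1`, `n = N + 1 ≥ n0`, `t = n^(-δ)`, `s = e^{-t/2}`, `τ = (1 - e^{-t})(1/n)`,
`d = s a`, `d' = s a'`, so `At (1/n) t a X = Dw τ d X` etc. (`At_eq_Dw`), `θ = ∑|a_i - a'_i|`,
`∑|d'_i - d_i| ≤ θ` (`0 < s ≤ 1`).  `p = c0/4`, `ν' = min (ν/2) ((δ/2 - c)/2) > 0` (here `c < δ/2` is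
used), `Q = n^(c+ν'-δ/2) ≤ p` for `n` large because `c + ν' - δ/2 < 0`.
Far coordinates: if `x + c0 ≤ a_i` then `d_i ≥ a_i - (1-s)|a_i| ≥ x + c0 - (t/2) n^(δ/4) ≥ x + 3p` for `n`
large (`(t/2) n^(δ/4) = n^(-3δ/4)/2 → 0`); similarly on the other side and for `a'`.
`Y_j(X) = (1/n) Im tr Rz (Dw τ d X) z_j`, `Y'_j(X)` the same with `d'` (`gz_one`), measurable
(`measurable_trRz`), bounded by `n^3`.  Pointwise, `z = z_j`, `z.im ≥ n^(-1-c)`:
* always `|Y' - Y| ≤ (1/n) θ/z.im² ≤ θ n^(1+2c) ≤ θ n^3 =: B2` (`path_trace_triv`);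
* on the good event of `good_whp` (exponent `ν'`, `κ = p`): `path_trace`:
  `|Y' - Y| ≤ (1/n) θ (1 + Q/z.im)/p² ≤ θ (16/c0²)(n^(-1) + n^(2c+ν'-δ/2)) ≤ θ (32/c0²) n^(2c+ν'-δ/2)
  =: B1`.
`P(Gᶜ) ≤ n^(-D)`, `D = 10k + 1`; `moment_split`: `∫ (Y'-Y)^(2k) ≤ B1^(2k) + θ^(2k) n^(6k-10k-1)
≤ 2 B1^(2k) ≤ (2B1)^(2k)` for `n` large (`B1 ≥ θ (32/c0²) n^(-1)`).
`prod_diff` with `M = Mo`, `d = 2 B1 = θ (64/c0²) n^(2c+ν'-δ/2)`; for `n` large
`(k+1) d ≤ e = n^(2c+ν-δ/2) θ` (`ν' ≤ ν/2`), so `(Mo+d)^(2k) ≤ (Mo+e+1)^(2k)` and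
`k d (Mo + d)^(k-1) ≤ e (Mo + e + 1)^k`.  (`n0` depends on `k, δ, c, ν, c0` only.)
-/


open MeasureTheory ProbabilityTheory Matrix

namespace Pool.Agent.ZR

private lemma tr_bd91 {N : ℕ} (M : Matrix (Fin N) (Fin N) ℝ) (hM : M.IsSymm) (z : ℂ)
    (hz : 0 < z.im) : ‖(Rz M z).trace‖ ≤ N / z.im := by
  rw [tr_spec M hM z hz.ne']
  refine (norm_sum_le _ _).trans ?_
  have h1 : ∀ k ∈ (Finset.univ : Finset (Fin N)), ‖1 / ((evs M k : ℂ) - z)‖ ≤ 1 / z.im := by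
    intro k _
    rw [norm_div, norm_one]
    apply one_div_le_one_div_of_le hz
    have h2 := Complex.abs_im_le_norm ((evs M k : ℂ) - z)
    rw [Complex.sub_im, Complex.ofReal_im, zero_sub, abs_neg, abs_of_pos hz] at h2
    exact h2
  refine (Finset.sum_le_card_nsmul _ _ _ h1).trans ?_
  rw [Finset.card_univ, Fintype.card_fin, nsmul_eq_mul]
  exact le_of_eq (by ring)

private lemma j3_core91 (k : ℕ) (hk : 1 ≤ k) (δ c ν ν' c0 : ℝ) (hδ : 0 < δ) (hδ1 : δ < 1)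
    (hc : 0 ≤ c) (hcδ : c < δ / 2) (hν' : 0 < ν') (hνν : ν' ≤ ν / 2) (hc0 : 0 < c0) (N : ℕ)
    (hA1 : ((N + 1 : ℕ) : ℝ) ^ (c + ν' - δ / 2) ≤ c0 / 4)
    (hA2 : ((N + 1 : ℕ) : ℝ) ^ (-δ) / 2 * ((N + 1 : ℕ) : ℝ) ^ (δ / 4) ≤ c0 / 4)
    (hA3 : ((k : ℝ) + 1) * (64 / c0 ^ 2) ≤ ((N + 1 : ℕ) : ℝ) ^ (ν / 2))
    (hA4 : c0 ^ 2 ≤ 32 * ((N + 1 : ℕ) : ℝ))
    (hgood : ∀ (d d' : Fin (N + 1) → ℝ) (z : ℂ),
      ((N + 1 : ℕ) : ℝ) ^ (-1 - c) ≤ z.im →
      let n : ℝ := ((N + 1 : ℕ) : ℝ)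
      let τ : ℝ := (1 - Real.exp (-(n ^ (-δ)))) * (1 / n)
      (gm (N + 1)).real {X | ¬ ((∀ i : Fin (N + 1),
          ‖qf (mino i (Dw τ (mixV d d' i) X)) (rowv i (Dw τ (mixV d d' i) X)) z‖
            ≤ n ^ (c + ν' - δ / 2)) ∧ ∀ i, Real.sqrt (2 * τ) * |X (i, i)| ≤ c0 / 4)}
          ≤ n ^ (-((10 * k + 1 : ℕ) : ℝ)))
    (a a' : Fin (N + 1) → ℝ) (z : Fin k → ℂ) (Mo : ℝ) (hMo : 1 ≤ Mo)
    (ha : ∀ i, |a i| ≤ ((N + 1 : ℕ) : ℝ) ^ (δ / 4) ∧ |a' i| ≤ ((N + 1 : ℕ) : ℝ) ^ (δ / 4))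
    (hz : ∀ j, ((N + 1 : ℕ) : ℝ) ^ (-1 - c) ≤ (z j).im ∧
        ∀ i, a i = a' i ∨ ((z j).re + c0 ≤ a i ∧ (z j).re + c0 ≤ a' i) ∨
          (a i ≤ (z j).re - c0 ∧ a' i ≤ (z j).re - c0))
    (hm : ∀ j, ∫ X, ((1 / ((N + 1 : ℕ) : ℝ)) *
          ((Gz 1 (At (1 / ((N + 1 : ℕ) : ℝ)) (((N + 1 : ℕ) : ℝ) ^ (-δ)) a X) (z j)).trace).im)
            ^ (2 * k) ∂(gm (N + 1)) ≤ Mo ^ (2 * k)) :
      let e : ℝ := ((N + 1 : ℕ) : ℝ) ^ (2 * c + ν - δ / 2) * ∑ i, |a i - a' i|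
      (∀ j, ∫ X, ((1 / ((N + 1 : ℕ) : ℝ)) *
          ((Gz 1 (At (1 / ((N + 1 : ℕ) : ℝ)) (((N + 1 : ℕ) : ℝ) ^ (-δ)) a' X) (z j)).trace).im)
            ^ (2 * k) ∂(gm (N + 1)) ≤ (Mo + e + 1) ^ (2 * k)) ∧
      |(∫ X, ∏ j, ((1 / ((N + 1 : ℕ) : ℝ)) *
          ((Gz 1 (At (1 / ((N + 1 : ℕ) : ℝ)) (((N + 1 : ℕ) : ℝ) ^ (-δ)) a' X) (z j)).trace).im)
            ∂(gm (N + 1)))
        - ∫ X, ∏ j, ((1 / ((N + 1 : ℕ) : ℝ)) *
          ((Gz 1 (At (1 / ((N + 1 : ℕ) : ℝ)) (((N + 1 : ℕ) : ℝ) ^ (-δ)) a X) (z j)).trace).im)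
            ∂(gm (N + 1))|
        ≤ e * (Mo + e + 1) ^ k := by
  intro e
  have hτb := tau_bounds (N + 1) (by omega) δ hδ
  have hn0 : (0 : ℝ) < ((N + 1 : ℕ) : ℝ) := by exact_mod_cast Nat.succ_pos N
  have hn1 : (1 : ℝ) ≤ ((N + 1 : ℕ) : ℝ) := by exact_mod_cast Nat.succ_pos N
  have hMeq : (1 : ℝ) / ((N + 1 : ℕ) : ℝ) * ((N + 1 : ℕ) : ℝ) = 1 := by field_simp
  set n : ℝ := ((N + 1 : ℕ) : ℝ) with hndef
  obtain ⟨hτ0, -, -⟩ := hτb
  set t : ℝ := n ^ (-δ) with htdef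
  have ht0 : 0 < t := Real.rpow_pos_of_pos hn0 _
  set τ : ℝ := (1 - Real.exp (-t)) * (1 / n) with hτdef
  set s : ℝ := Real.exp (-t / 2) with hsdef
  have hs0 : 0 < s := Real.exp_pos _
  have hs1 : s ≤ 1 := Real.exp_le_one_iff.2 (by linarith)
  have hs2 : 1 - s ≤ t / 2 := by
    have := Real.add_one_le_exp (-t / 2)
    linarith
  have hG : ∀ (b : Fin (N + 1) → ℝ) (X : Fin (N + 1) × Fin (N + 1) → ℝ) (w : ℂ),
      Gz 1 (At (1 / n) t b X) w = Rz (Dw τ (fun i => s * b i) X) w := by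
    intro b X w
    rw [gz_one, At_eq_Dw _ _ ht0.le]
  simp only [hG] at hm ⊢
  set d : Fin (N + 1) → ℝ := fun i => s * a i with hddef
  set d' : Fin (N + 1) → ℝ := fun i => s * a' i with hd'def
  set θ : ℝ := ∑ i, |a i - a' i| with hθdef
  have hθ0 : 0 ≤ θ := Finset.sum_nonneg fun i _ => abs_nonneg _
  have hθd : ∑ i, |d' i - d i| ≤ θ := by
    refine Finset.sum_le_sum fun i _ => ?_
    have h1 : d' i - d i = s * (a' i - a i) := by simp only [hddef, hd'def]; ring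
    rw [h1, abs_mul, abs_of_pos hs0, abs_sub_comm (a' i)]
    exact mul_le_of_le_one_left (abs_nonneg _) hs1
  have hθd0 : 0 ≤ ∑ i, |d' i - d i| := Finset.sum_nonneg fun i _ => abs_nonneg _
  have hfar : ∀ j, ∀ i, d i = d' i ∨
      ((z j).re + 3 * (c0 / 4) ≤ d i ∧ (z j).re + 3 * (c0 / 4) ≤ d' i) ∨
      (d i ≤ (z j).re - 3 * (c0 / 4) ∧ d' i ≤ (z j).re - 3 * (c0 / 4)) := by
    intro j i
    have key : ∀ b : ℝ, |b| ≤ n ^ (δ / 4) → |s * b - b| ≤ c0 / 4 := by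
      intro b hb
      have h1 : s * b - b = -((1 - s) * b) := by ring
      rw [h1, abs_neg, abs_mul, abs_of_nonneg (by linarith : (0 : ℝ) ≤ 1 - s)]
      refine le_trans ?_ hA2
      exact mul_le_mul hs2 hb (abs_nonneg _) (by positivity)
    have k1 := abs_le.1 (key (a i) (ha i).1)
    have k2 := abs_le.1 (key (a' i) (ha i).2)
    rcases (hz j).2 i with h | ⟨h1, h2⟩ | ⟨h1, h2⟩
    · left
      simp only [hddef, hd'def, h]
    · right; left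
      constructor
      · change _ ≤ s * a i
        linarith [k1.1]
      · change _ ≤ s * a' i
        linarith [k2.1]
    · right; right
      constructor
      · change s * a i ≤ _
        linarith [k1.2]
      · change s * a' i ≤ _
        linarith [k2.2]
  have hzim : ∀ j, 0 < (z j).im := fun j => lt_of_lt_of_le (Real.rpow_pos_of_pos hn0 _) (hz j).1
  have hzim2 : ∀ j, 1 / (z j).im ≤ n ^ 2 := by
    intro j
    have h1 : (n ^ 2)⁻¹ ≤ (z j).im := by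
      refine le_trans ?_ (hz j).1
      have h2 : (n ^ 2)⁻¹ = n ^ (-2 : ℝ) := by
        rw [Real.rpow_neg hn0.le]
        norm_cast
      rw [h2]
      exact Real.rpow_le_rpow_of_exponent_le hn1 (by linarith)
    rw [div_le_iff₀ (hzim j)]
    have h3 : n ^ 2 * (n ^ 2)⁻¹ = 1 := mul_inv_cancel₀ (by positivity)
    calc (1 : ℝ) = n ^ 2 * (n ^ 2)⁻¹ := h3.symm
      _ ≤ n ^ 2 * (z j).im := mul_le_mul_of_nonneg_left h1 (by positivity)
  set E : ℝ := n ^ (2 * c + ν' - δ / 2) with hEdef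
  have hE0 : 0 < E := Real.rpow_pos_of_pos hn0 _
  set B1 : ℝ := θ * (2 * E) / (c0 / 4) ^ 2 with hB1def
  have hB10 : 0 ≤ B1 := by positivity
  -- Q / z.im
  have hQz : ∀ j, n ^ (c + ν' - δ / 2) / (z j).im ≤ n * E := by
    intro j
    rw [div_le_iff₀ (hzim j)]
    have h1 : n ^ (c + ν' - δ / 2) = n * E * n ^ (-1 - c) := by
      rw [hEdef]
      nth_rewrite 2 [← Real.rpow_one n]
      rw [← Real.rpow_add hn0, ← Real.rpow_add hn0]
      congr 1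
      ring
    rw [h1]
    exact mul_le_mul_of_nonneg_left (hz j).1 (by positivity)
  have hnE : 1 ≤ n * E := by
    rw [hEdef]
    nth_rewrite 1 [← Real.rpow_one n]
    rw [← Real.rpow_add hn0]
    exact Real.one_le_rpow hn1 (by linarith)
  have hnE' : n⁻¹ ≤ E := by
    rw [inv_le_iff_one_le_mul₀ hn0, mul_comm]
    exact hnE
  -- pointwise differences
  have hdiff : ∀ j (X : Fin (N + 1) × Fin (N + 1) → ℝ),
      |1 / n * ((Rz (Dw τ d' X) (z j)).trace).im - 1 / n * ((Rz (Dw τ d X) (z j)).trace).im|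
        ≤ 1 / n * ‖(Rz (Dw τ d' X) (z j)).trace - (Rz (Dw τ d X) (z j)).trace‖ := by
    intro j X
    rw [← mul_sub, abs_mul, abs_of_pos (by positivity : (0 : ℝ) < 1 / n), ← Complex.sub_im]
    exact mul_le_mul_of_nonneg_left (Complex.abs_im_le_norm _) (by positivity)
  have hB2 : ∀ j (X : Fin (N + 1) × Fin (N + 1) → ℝ),
      |1 / n * ((Rz (Dw τ d' X) (z j)).trace).im - 1 / n * ((Rz (Dw τ d X) (z j)).trace).im|
        ≤ θ * n ^ 3 := by
    intro j X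
    refine (hdiff j X).trans ?_
    have h1 := path_trace_triv τ hτ0 d d' X (z j) (hzim j)
    have h2 : (∑ i, |d' i - d i|) / (z j).im ^ 2 ≤ θ * n ^ 4 := by
      have h3 : (∑ i, |d' i - d i|) / (z j).im ^ 2
          = (∑ i, |d' i - d i|) * (1 / (z j).im * (1 / (z j).im)) := by
        have := (hzim j).ne'
        field_simp
      rw [h3]
      have h4 : 1 / (z j).im * (1 / (z j).im) ≤ n ^ 2 * n ^ 2 :=
        mul_le_mul (hzim2 j) (hzim2 j) (by have := hzim j; positivity) (by positivity)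
      calc (∑ i, |d' i - d i|) * (1 / (z j).im * (1 / (z j).im)) ≤ θ * (n ^ 2 * n ^ 2) :=
            mul_le_mul hθd h4 (by have := hzim j; positivity) hθ0
        _ = θ * n ^ 4 := by ring
    calc 1 / n * ‖(Rz (Dw τ d' X) (z j)).trace - (Rz (Dw τ d X) (z j)).trace‖
        ≤ 1 / n * (θ * n ^ 4) := mul_le_mul_of_nonneg_left (h1.trans h2) (by positivity)
      _ = θ * n ^ 3 := by field_simp
  set G : Fin k → Set (Fin (N + 1) × Fin (N + 1) → ℝ) := fun j =>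
    {X | (∀ i : Fin (N + 1),
          ‖qf (mino i (Dw τ (mixV d d' i) X)) (rowv i (Dw τ (mixV d d' i) X)) (z j)‖
            ≤ n ^ (c + ν' - δ / 2)) ∧ ∀ i, Real.sqrt (2 * τ) * |X (i, i)| ≤ c0 / 4} with hGdef
  have hB1 : ∀ j, ∀ X ∈ G j,
      |1 / n * ((Rz (Dw τ d' X) (z j)).trace).im - 1 / n * ((Rz (Dw τ d X) (z j)).trace).im|
        ≤ B1 := by
    intro j X hX
    refine (hdiff j X).trans ?_
    have h1 := path_trace τ hτ0 d d' X (z j) (hzim j) (c0 / 4) (n ^ (c + ν' - δ / 2))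
      (by positivity) hA1 hX.1 hX.2 (hfar j)
    have h2 : 1 + n ^ (c + ν' - δ / 2) / (z j).im ≤ 2 * (n * E) := by linarith [hQz j]
    have h20 : 0 ≤ 1 + n ^ (c + ν' - δ / 2) / (z j).im := by
      have := hzim j
      positivity
    have h3 : (∑ i, |d' i - d i|) * (1 + n ^ (c + ν' - δ / 2) / (z j).im) / (c0 / 4) ^ 2
        ≤ θ * (2 * (n * E)) / (c0 / 4) ^ 2 := by
      apply div_le_div_of_nonneg_right _ (by positivity)
      exact mul_le_mul hθd h2 h20 hθ0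
    calc 1 / n * ‖(Rz (Dw τ d' X) (z j)).trace - (Rz (Dw τ d X) (z j)).trace‖
        ≤ 1 / n * (θ * (2 * (n * E)) / (c0 / 4) ^ 2) :=
          mul_le_mul_of_nonneg_left (h1.trans h3) (by positivity)
      _ = B1 := by rw [hB1def]; field_simp
  have hGc : ∀ j, (gm (N + 1)).real (G j)ᶜ ≤ n ^ (-((10 * k + 1 : ℕ) : ℝ)) := by
    intro j
    exact hgood d d' (z j) (hz j).1
  -- measurability
  have hmeas : ∀ (b : Fin (N + 1) → ℝ) (w : ℂ),
      Measurable (fun X : Fin (N + 1) × Fin (N + 1) → ℝ =>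
        1 / n * ((Rz (Dw τ b X) w).trace).im) := by
    intro b w
    exact (Complex.measurable_im.comp
      (measurable_trRz (fun X => Dw τ b X) (fun k l => measurable_Dw τ b k l) w)).const_mul _
  have hbd : ∀ (b : Fin (N + 1) → ℝ) (j : Fin k) (X : Fin (N + 1) × Fin (N + 1) → ℝ),
      |1 / n * ((Rz (Dw τ b X) (z j)).trace).im| ≤ n ^ 2 := by
    intro b j X
    rw [abs_mul, abs_of_pos (by positivity : (0 : ℝ) < 1 / n)]
    have h1 := (Complex.abs_im_le_norm _).trans (tr_bd91 (Dw τ b X) (Dw_symm τ b X) (z j) (hzim j))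
    calc 1 / n * |((Rz (Dw τ b X) (z j)).trace).im| ≤ 1 / n * (n / (z j).im) :=
          mul_le_mul_of_nonneg_left h1 (by positivity)
      _ = 1 / (z j).im := by
          have := (hzim j).ne'
          field_simp
      _ ≤ n ^ 2 := hzim2 j
  -- moments of the difference
  have hθn : θ * n ^ 3 * (n⁻¹) ^ 5 ≤ B1 := by
    have h1 : θ * n ^ 3 * (n⁻¹) ^ 5 = θ * (n⁻¹ * n⁻¹) := by field_simp
    have h2 : B1 = θ * (32 / c0 ^ 2 * E) := by
      rw [hB1def]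
      field_simp
      ring
    rw [h1, h2]
    apply mul_le_mul_of_nonneg_left _ hθ0
    have h3 : n⁻¹ ≤ 32 / c0 ^ 2 := by
      rw [inv_le_iff_one_le_mul₀ hn0, div_mul_eq_mul_div, le_div_iff₀ (by positivity), one_mul]
      exact hA4
    exact mul_le_mul h3 hnE' (by positivity) (by positivity)
  have hmom : ∀ j, ∫ X, (1 / n * ((Rz (Dw τ d' X) (z j)).trace).im
      - 1 / n * ((Rz (Dw τ d X) (z j)).trace).im) ^ (2 * k) ∂(gm (N + 1)) ≤ (2 * B1) ^ (2 * k) := by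
    intro j
    have h1 := moment_split (gm (N + 1)) k
      (fun X => 1 / n * ((Rz (Dw τ d' X) (z j)).trace).im
        - 1 / n * ((Rz (Dw τ d X) (z j)).trace).im)
      ((hmeas d' (z j)).sub (hmeas d (z j))) (G j) B1 (θ * n ^ 3)
      (n ^ (-((10 * k + 1 : ℕ) : ℝ))) hB10 (by positivity) (hB1 j) (hB2 j) (hGc j)
    refine h1.trans ?_
    have h2 : n ^ (-((10 * k + 1 : ℕ) : ℝ)) ≤ ((n⁻¹) ^ 5) ^ (2 * k) := by
      rw [Real.rpow_neg hn0.le, Real.rpow_natCast, ← inv_pow, ← pow_mul]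
      apply pow_le_pow_of_le_one (by positivity) (inv_le_one_of_one_le₀ hn1)
      omega
    have h3 : (θ * n ^ 3) ^ (2 * k) * n ^ (-((10 * k + 1 : ℕ) : ℝ)) ≤ B1 ^ (2 * k) := by
      calc (θ * n ^ 3) ^ (2 * k) * n ^ (-((10 * k + 1 : ℕ) : ℝ))
          ≤ (θ * n ^ 3) ^ (2 * k) * ((n⁻¹) ^ 5) ^ (2 * k) :=
            mul_le_mul_of_nonneg_left h2 (by positivity)
        _ = (θ * n ^ 3 * (n⁻¹) ^ 5) ^ (2 * k) := (mul_pow _ _ _).symm
        _ ≤ B1 ^ (2 * k) := pow_le_pow_left₀ (by positivity) hθn _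
    have h4 : (2 : ℝ) ≤ 2 ^ (2 * k) := by
      calc (2 : ℝ) = 2 ^ 1 := by norm_num
        _ ≤ 2 ^ (2 * k) := pow_le_pow_right₀ (by norm_num) (by omega)
    calc B1 ^ (2 * k) + (θ * n ^ 3) ^ (2 * k) * n ^ (-((10 * k + 1 : ℕ) : ℝ))
        ≤ 2 * B1 ^ (2 * k) := by linarith
      _ ≤ 2 ^ (2 * k) * B1 ^ (2 * k) := mul_le_mul_of_nonneg_right h4 (by positivity)
      _ = (2 * B1) ^ (2 * k) := by rw [mul_pow]
  have hprob : IsProbabilityMeasure (gm (N + 1)) := by infer_instance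
  obtain ⟨hp1, hp2⟩ := prod_diff (gm (N + 1)) k
    (fun j X => 1 / n * ((Rz (Dw τ d X) (z j)).trace).im)
    (fun j X => 1 / n * ((Rz (Dw τ d' X) (z j)).trace).im)
    (fun j => hmeas d (z j)) (fun j => hmeas d' (z j)) (n ^ 2)
    (fun j X => hbd d j X) (fun j X => hbd d' j X) Mo (2 * B1) (by linarith) (by positivity)
    hm hmom
  have he : ((k : ℝ) + 1) * (2 * B1) ≤ e := by
    have h1 : ((k : ℝ) + 1) * (2 * B1) = ((k : ℝ) + 1) * (64 / c0 ^ 2) * E * θ := by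
      rw [hB1def]
      field_simp
      ring
    rw [h1]
    have h2 : ((k : ℝ) + 1) * (64 / c0 ^ 2) * E ≤ n ^ (2 * c + ν - δ / 2) := by
      calc ((k : ℝ) + 1) * (64 / c0 ^ 2) * E ≤ n ^ (ν / 2) * E :=
            mul_le_mul_of_nonneg_right hA3 hE0.le
        _ = n ^ (ν / 2 + (2 * c + ν' - δ / 2)) := by rw [hEdef, ← Real.rpow_add hn0]
        _ ≤ n ^ (2 * c + ν - δ / 2) := Real.rpow_le_rpow_of_exponent_le hn1 (by linarith)
    exact mul_le_mul_of_nonneg_right h2 hθ0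
  have he1 : 2 * B1 ≤ e := by
    have : 0 ≤ (k : ℝ) * (2 * B1) := by positivity
    linarith
  have hke : (k : ℝ) * (2 * B1) ≤ e := by linarith
  have he0 : 0 ≤ e := by
    have : 0 ≤ 2 * B1 := by positivity
    linarith
  constructor
  · intro j
    refine (hp1 j).trans ?_
    apply pow_le_pow_left₀ (by positivity)
    linarith
  · refine hp2.trans ?_
    have h1 : (Mo + 2 * B1) ^ (k - 1) ≤ (Mo + e + 1) ^ (k - 1) :=
      pow_le_pow_left₀ (by positivity) (by linarith) _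
    have h2 : (Mo + e + 1) ^ (k - 1) ≤ (Mo + e + 1) ^ k :=
      pow_le_pow_right₀ (by linarith) (by omega)
    exact mul_le_mul hke (h1.trans h2) (by positivity) he0

theorem j3 : J3 := by
  intro k δ c ν c0 hδ hδ1 hc hcδ hν hc0
  rcases Nat.eq_zero_or_pos k with hk | hk
  · subst hk
    refine ⟨0, ?_⟩
    intro n _ a a' z Mo hMo _ _ _
    intro e
    refine ⟨fun j => j.elim0, ?_⟩
    simp only [Finset.univ_eq_empty, Finset.prod_empty, sub_self, abs_zero]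
    have h1 : 0 ≤ e := mul_nonneg (Real.rpow_nonneg (Nat.cast_nonneg n) _)
      (Finset.sum_nonneg fun i _ => abs_nonneg _)
    have h2 : 0 ≤ (n : ℝ) ^ (-(5 : ℝ)) := Real.rpow_nonneg (Nat.cast_nonneg n) _
    positivity
  · set ν' : ℝ := min (ν / 2) ((δ / 2 - c) / 2) with hν'def
    have hν' : 0 < ν' := lt_min (by linarith) (by linarith)
    have hνν : ν' ≤ ν / 2 := min_le_left _ _
    have hνδ : ν' ≤ (δ / 2 - c) / 2 := min_le_right _ _
    obtain ⟨n1, hn1⟩ := good_whp δ c ν' ((10 * k + 1 : ℕ) : ℝ) (c0 / 4) hδ hδ1 hc hν' (by positivity)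
    have hcast : Filter.Tendsto (fun n : ℕ => (n : ℝ)) Filter.atTop Filter.atTop :=
      tendsto_natCast_atTop_atTop
    have hev : ∀ᶠ n : ℕ in Filter.atTop,
        (n : ℝ) ^ (c + ν' - δ / 2) ≤ c0 / 4 ∧
        (n : ℝ) ^ (-δ) / 2 * (n : ℝ) ^ (δ / 4) ≤ c0 / 4 ∧
        ((k : ℝ) + 1) * (64 / c0 ^ 2) ≤ (n : ℝ) ^ (ν / 2) ∧
        c0 ^ 2 ≤ 32 * (n : ℝ) := by
      have e1 : ∀ᶠ n : ℕ in Filter.atTop, (n : ℝ) ^ (c + ν' - δ / 2) ≤ c0 / 4 := by
        have h := (tendsto_rpow_neg_atTop (y := δ / 2 - c - ν') (by linarith)).comp hcast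
        have h2 := h.eventually (ge_mem_nhds (by positivity : (0 : ℝ) < c0 / 4))
        filter_upwards [h2] with n hn
        have : c + ν' - δ / 2 = -(δ / 2 - c - ν') := by ring
        rw [this]
        exact hn
      have e2 : ∀ᶠ n : ℕ in Filter.atTop, (n : ℝ) ^ (-δ) / 2 * (n : ℝ) ^ (δ / 4) ≤ c0 / 4 := by
        have h := (tendsto_rpow_neg_atTop (y := 3 * δ / 4) (by positivity)).comp hcast
        have h2 := h.eventually (ge_mem_nhds (by positivity : (0 : ℝ) < c0 / 2))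
        filter_upwards [h2, Filter.eventually_ge_atTop 1] with n hn hn1
        have hn0 : (0 : ℝ) < n := by exact_mod_cast hn1
        have h3 : (n : ℝ) ^ (-δ) / 2 * (n : ℝ) ^ (δ / 4) = (n : ℝ) ^ (-(3 * δ / 4)) / 2 := by
          rw [div_mul_eq_mul_div, ← Real.rpow_add hn0]
          congr 2
          ring
        rw [h3]
        have h4 : (n : ℝ) ^ (-(3 * δ / 4)) ≤ c0 / 2 := hn
        linarith
      have e3 : ∀ᶠ n : ℕ in Filter.atTop, ((k : ℝ) + 1) * (64 / c0 ^ 2) ≤ (n : ℝ) ^ (ν / 2) :=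
        ((tendsto_rpow_atTop (by linarith : (0 : ℝ) < ν / 2)).comp hcast).eventually
          (Filter.eventually_ge_atTop _)
      have e4 : ∀ᶠ n : ℕ in Filter.atTop, c0 ^ 2 ≤ 32 * (n : ℝ) := by
        filter_upwards [hcast.eventually (Filter.eventually_ge_atTop (c0 ^ 2 / 32))] with n hn
        linarith
      filter_upwards [e1, e2, e3, e4] with n h1 h2 h3 h4
      exact ⟨h1, h2, h3, h4⟩
    obtain ⟨n2, hn2⟩ := Filter.eventually_atTop.1 hev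
    refine ⟨max (max n1 n2) 1, ?_⟩
    intro n hn a a' z Mo hMo ha hz hm
    have hn1' : n1 ≤ n := le_trans (le_trans (le_max_left _ _) (le_max_left _ _)) hn
    have hn2' : n2 ≤ n := le_trans (le_trans (le_max_right _ _) (le_max_left _ _)) hn
    have hn3' : 1 ≤ n := le_trans (le_max_right _ _) hn
    obtain ⟨N, rfl⟩ : ∃ N, n = N + 1 := ⟨n - 1, by omega⟩
    obtain ⟨h1, h2, h3, h4⟩ := hn2 _ hn2'
    have h5 := j3_core91 k hk δ c ν ν' c0 hδ hδ1 hc hcδ hν' hνν hc0 N h1 h2 h3 h4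
      (hn1 N hn1') a a' z Mo hMo ha (fun j => ⟨(hz j).1, (hz j).2.2.2⟩) hm
    intro e
    refine ⟨h5.1, h5.2.trans ?_⟩
    have h6 : 0 ≤ ((N + 1 : ℕ) : ℝ) ^ (-(5 : ℝ)) := Real.rpow_nonneg (Nat.cast_nonneg _) _
    linarith

end Pool.Agent.ZR

end
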