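import Pool.Agent.ZRM.P24

/-!
# Merged form of the modules ZR.MCmp, ZR.JTwo, ZR.MMain
-/

set_option autoImplicit false

section

/-!
# ZR/MCmp : averaged full sums of the relocated ensemble and of the GOE

PROOF.  Let `mn = min ε (1-ε)`, `ν = δ` in `LFinal` (`(2k+6)δ ≤ mn/2`), `b = n^(-1+ε)`, `K = ⌈n^(2δ)⌉`.
(a) `LFinal` for `Ω = (Pat n × Arr n) × Arr n`, `P' = P3 n`, `A = AA n δ E κ c0 θ`: symmetric and entries
measurable (`AA_symm`, `AA_entry_meas`); local counts: `loc_A` with `ν = δ/2`, `D = 4k+12`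
(`n^(δ/2+δ/2) = n^δ`); counting function: `cnt_A` with `ν = δ/2` for `|x - E| ≤ 2 n^(-1+ε) ≤ c0/2`
(`n` large).
(b) `LFinal` for `Ω = Arr n`, `gm n`, `A = Wv (1/n)`: `loc_G` with `ν = δ`, `D = 4k+12`; `ICntG` and
Cauchy-Schwarz: `∫ |cnt - n Fsc| ≤ (n^δ/(2-|x|))^(1/2) ≤ n^δ`.
(c) With the same `G` for (a) and (b): the difference of the two labelled sums is at most
`|JJ|/(2 n^ε rho E) (2K+1)^k C/√|JJ| (1 + n^(δ+ν'))` by `k_app` (the index condition: `i ∈ JJ` gives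
`c n ≤ i ≤ (1-c) n` (`JJ_card`) and `|m q| ≤ K = ⌈n^(2δ)⌉ ≤ c n/2`, as `2δ < 1`), and
`√|JJ| ≤ C n^(ε/2)`, `(2K+1)^k ≤ 5^k n^(2kδ)`, `ν' = δ`: total `≤ C' n^(2kδ + 2δ - ε/2)
≤ n^(-mn/8)` since `(2k+2) δ ≤ mn/4 ≤ ε/4`.
(a), (b) errors: `2 n^((2k+6)δ - mn) ≤ 2 n^(-mn/2)`.  Take `e1 = mn/16`.
-/


open MeasureTheory ProbabilityTheory Matrix

namespace Pool.Agent.ZR

/-- `n ^ a → ∞` along the naturals -/
private lemma cmp_large (a c : ℝ) (ha : 0 < a) : ∃ n0 : ℕ, ∀ n : ℕ, n0 ≤ n → c ≤ (n : ℝ) ^ a := by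
  have h := (tendsto_rpow_atTop ha).comp (tendsto_natCast_atTop_atTop (R := ℝ))
  obtain ⟨n0, hn0⟩ := Filter.eventually_atTop.1 (h.eventually_ge_atTop c)
  exact ⟨n0, fun n hn => hn0 n hn⟩

private lemma cmp_L1 {Ω : Type*} [MeasurableSpace Ω] (P : Measure Ω) [IsProbabilityMeasure P]
    (f : Ω → ℝ) (hf : Measurable f) (M : ℝ) (hM : ∀ ω, |f ω| ≤ M) (s : ℝ) (hs : 0 < s)
    (h2 : ∫ ω, f ω ^ 2 ∂P ≤ s ^ 2) : ∫ ω, |f ω| ∂P ≤ s := by
  have hM0 : ∀ ω, f ω ^ 2 ≤ M ^ 2 := fun ω => by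
    rw [← sq_abs]
    exact pow_le_pow_left₀ (abs_nonneg _) (hM ω) 2
  have i1 : Integrable (fun ω => |f ω|) P :=
    Integrable.of_bound hf.abs.aestronglyMeasurable M
      (Filter.Eventually.of_forall fun ω => by simpa using hM ω)
  have i2 : Integrable (fun ω => f ω ^ 2) P :=
    Integrable.of_bound (hf.pow_const 2).aestronglyMeasurable (M ^ 2)
      (Filter.Eventually.of_forall fun ω => by
        rw [Real.norm_eq_abs, abs_of_nonneg (sq_nonneg _)]; exact hM0 ω)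
  have h3 : ∀ ω, |f ω| ≤ s / 2 + f ω ^ 2 / (2 * s) := fun ω => by
    have h4 : 0 ≤ (s - |f ω|) ^ 2 := sq_nonneg _
    have h5 : |f ω| ^ 2 = f ω ^ 2 := sq_abs _
    have h6 : s / 2 + f ω ^ 2 / (2 * s) - |f ω| = (s - |f ω|) ^ 2 / (2 * s) := by
      rw [← h5]; field_simp; ring
    have h7 : 0 ≤ (s - |f ω|) ^ 2 / (2 * s) := by positivity
    linarith
  calc ∫ ω, |f ω| ∂P ≤ ∫ ω, (s / 2 + f ω ^ 2 / (2 * s)) ∂P :=
        integral_mono i1 ((integrable_const _).add (i2.div_const _)) h3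
    _ = s / 2 + (∫ ω, f ω ^ 2 ∂P) / (2 * s) := by
        have e1 : ∫ ω, f ω ^ 2 / (2 * s) ∂P = (∫ ω, f ω ^ 2 ∂P) / (2 * s) := integral_div _ _
        rw [integral_add (integrable_const _) (i2.div_const _), e1]
        simp
    _ ≤ s / 2 + s ^ 2 / (2 * s) := by gcongr
    _ = s := by field_simp; ring

/-- the counting function of the GOE in `L¹` -/
private lemma cmp_cntG (hG : ICntG) (E δ c0 : ℝ) (hδ : 0 < δ) (hc0 : 0 < c0)
    (hE : |E| + c0 < 2) :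
    ∃ n0 : ℕ, ∀ n : ℕ, n0 ≤ n → ∀ x : ℝ, |x - E| ≤ c0 / 2 →
      ∫ X, |(cnt (Wv (N := n) (1 / (n : ℝ)) X) x : ℝ) - n * Fsc x| ∂(gm n) ≤ (n : ℝ) ^ δ := by
  obtain ⟨n1, h1⟩ := hG δ hδ
  obtain ⟨n2, h2⟩ := cmp_large δ (2 / c0) hδ
  refine ⟨max (max n1 n2) 1, fun n hn x hx => ?_⟩
  have hn1 : n1 ≤ n := le_trans (le_trans (le_max_left _ _) (le_max_left _ _)) hn
  have hn2 : n2 ≤ n := le_trans (le_trans (le_max_right _ _) (le_max_left _ _)) hn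
  have hn3 : 1 ≤ n := le_trans (le_max_right _ _) hn
  have hnp : (0 : ℝ) < n := by exact_mod_cast hn3
  have hx2 : |x| ≤ |E| + c0 / 2 := by
    have h := abs_add_le (x - E) E
    rw [sub_add_cancel] at h
    linarith
  have hx3 : |x| < 2 := by linarith
  have hx4 : c0 / 2 ≤ 2 - |x| := by linarith
  have hs : (0 : ℝ) < (n : ℝ) ^ δ := Real.rpow_pos_of_pos hnp _
  refine cmp_L1 (gm n) (fun X => (cnt (Wv (N := n) (1 / (n : ℝ)) X) x : ℝ) - n * Fsc x) ?_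
    ((n : ℝ) + |(n : ℝ) * Fsc x|) ?_ _ hs ?_
  · have hm := measurable_cnt (fun X : Arr n => Wv (N := n) (1 / (n : ℝ)) X)
      (fun k l => by unfold Wv; simp only [Matrix.of_apply]; fun_prop)
      (fun X => Wv_symm _ X) x
    exact (measurable_from_top.comp hm).sub_const _
  · intro X
    have h3 : ((cnt (Wv (N := n) (1 / (n : ℝ)) X) x : ℕ) : ℝ) ≤ n := by
      exact_mod_cast cnt_le (Wv (N := n) (1 / (n : ℝ)) X) x
    have h4 := abs_sub ((cnt (Wv (N := n) (1 / (n : ℝ)) X) x : ℝ)) ((n : ℝ) * Fsc x)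
    rw [abs_of_nonneg (Nat.cast_nonneg (cnt (Wv (N := n) (1 / (n : ℝ)) X) x) :
      (0 : ℝ) ≤ (cnt (Wv (N := n) (1 / (n : ℝ)) X) x : ℝ))] at h4
    linarith
  · refine (h1 n hn1 x hx3).trans ?_
    have h5 : (n : ℝ) ^ δ / (2 - |x|) ≤ (n : ℝ) ^ δ / (c0 / 2) := by gcongr
    have h6 : (n : ℝ) ^ δ / (c0 / 2) = (n : ℝ) ^ δ * (2 / c0) := by field_simp
    calc (n : ℝ) ^ δ / (2 - |x|) ≤ (n : ℝ) ^ δ * (2 / c0) := by rw [← h6]; exact h5
      _ ≤ (n : ℝ) ^ δ * (n : ℝ) ^ δ := by gcongr; exact h2 n hn2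
      _ = ((n : ℝ) ^ δ) ^ 2 := by ring

/-- the comparison of the two labelled sums -/
private lemma cmp_lab {Ω : Type*} [MeasurableSpace Ω] (P : Measure Ω) {N : ℕ} {k : ℕ}
    (A : Ω → Matrix (Fin N) (Fin N) ℝ) (P' : Measure (Arr N))
    (W : Arr N → Matrix (Fin N) (Fin N) ℝ) (J : Finset ℕ) (s a B : ℝ) (ha : 0 ≤ a)
    (G : (Fin k → ℝ) → ℝ) (K : ℕ)
    (h : ∀ m : Fin k → ℤ, (∀ q, |m q| ≤ K) →
      |(∫ ω, Lab J m s G (A ω) ∂P) - ∫ X, Lab J m s G (W X) ∂P'| ≤ B) :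
    |a * ∑ m ∈ Fintype.piFinset (fun _ : Fin k => Finset.Icc (-(K : ℤ)) (K : ℤ)),
        ∫ ω, Lab J m s G (A ω) ∂P
      - a * ∑ m ∈ Fintype.piFinset (fun _ : Fin k => Finset.Icc (-(K : ℤ)) (K : ℤ)),
        ∫ X, Lab J m s G (W X) ∂P'| ≤ a * ((2 * K + 1 : ℝ) ^ k * B) := by
  rw [← mul_sub, ← Finset.sum_sub_distrib, abs_mul, abs_of_nonneg ha]
  refine mul_le_mul_of_nonneg_left ?_ ha
  refine (Finset.abs_sum_le_sum_abs _ _).trans ?_
  refine (Finset.sum_le_sum (g := fun _ => B) fun m hm => ?_).trans ?_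
  · refine h m fun q => ?_
    have := Fintype.mem_piFinset.1 hm q
    rw [Finset.mem_Icc] at this
    exact abs_le.2 this
  · rw [Finset.sum_const, nsmul_eq_mul, Fintype.card_piFinset]
    apply le_of_eq
    congr 1
    simp only [Int.card_Icc, Finset.prod_const, Finset.card_univ, Fintype.card_fin]
    push_cast
    have : (((K : ℤ) + 1 - -(K : ℤ)).toNat : ℝ) = 2 * K + 1 := by
      have h2 : ((K : ℤ) + 1 - -(K : ℤ)) = ((2 * K + 1 : ℕ) : ℤ) := by push_cast; ring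
      rw [h2, Int.toNat_natCast]
      push_cast
      ring
    rw [this]

theorem cmp_U (h0 : J0) (h1 : J1) (h4 : J4) (h5 : J5) (hS : KStat) (hF : FMain) (hC : ICnt)
    (hG : ICntG) (hK : KFinal) (hL : LFinal) (hW : IW2) (k : ℕ) (F : (Fin (k + 1) → ℝ) → ℝ)
    (hFc : ContDiff ℝ 1 F) (hFs : HasCompactSupport F) (E ε δ κ c0 θ : ℝ) (hE1 : -2 < E)
    (hE2 : E < 2) (hε : 0 < ε) (hε1 : ε < 1) (hδ : 0 < δ)
    (hδs : (8 * (k : ℝ) + 24) * δ ≤ min ε (1 - ε)) (hc0 : 0 < c0) (hE : |E| + c0 < 2)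
    (hκ : 0 < κ) (hκ2 : κ ≤ 1 / 2) (hθ : 0 < θ) (hθ4 : θ < δ / 4) :
    ∃ e1 : ℝ, 0 < e1 ∧ ∃ n0 : ℕ, ∀ n : ℕ, n0 ≤ n → Even n →
      |(∫ ω, Ufull n F E ((n : ℝ) ^ (-1 + ε)) (AA n δ E κ c0 θ ω) ∂(P3 n))
        - ∫ X, Ufull n F E ((n : ℝ) ^ (-1 + ε)) (Wv (N := n) (1 / (n : ℝ)) X) ∂(gm n)|
        ≤ (n : ℝ) ^ (-e1) := by
  obtain ⟨mn, hmn⟩ : ∃ mn, mn = min ε (1 - ε) := ⟨_, rfl⟩
  rw [← hmn] at hδs
  have hmn0 : 0 < mn := by rw [hmn]; exact lt_min hε (by linarith)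
  have hmnε : mn ≤ ε := by rw [hmn]; exact min_le_left _ _
  have hmnε1 : mn ≤ 1 - ε := by rw [hmn]; exact min_le_right _ _
  have hk0 : (0 : ℝ) ≤ k := Nat.cast_nonneg k
  have hkδ : 0 ≤ (k : ℝ) * δ := by positivity
  have hd1 : (2 * (k : ℝ) + 6) * δ ≤ mn / 4 := by linarith
  have hδ24 : 24 * δ ≤ mn := by nlinarith
  have hδ1 : δ < 1 := by linarith
  have hδh : δ / 2 + δ / 2 = δ := by ring
  obtain ⟨G, hGd, hGs, hLF⟩ := hL k F E ε hFc hFs hE1 hE2 hε hε1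
  obtain ⟨nL, hnL⟩ := hLF δ hδ (by linarith) (by linarith)
  obtain ⟨nlA, hlA⟩ := loc_A h5 E δ (δ / 2) ((4 * k + 12 : ℕ) : ℝ) κ c0 θ hδ hδ1 (by linarith)
    (by positivity)
  obtain ⟨ncA, hcA⟩ := cnt_A h0 h1 h4 h5 hS hF hC hG E δ (δ / 2) κ c0 θ hδ hδ1 (by linarith) hc0 hE
    hκ hκ2 hθ hθ4
  obtain ⟨nlG, hlG⟩ := loc_G h1 δ ((4 * k + 12 : ℕ) : ℝ) hδ (by positivity)
  obtain ⟨ncG, hcG⟩ := cmp_cntG hG E δ c0 hδ hc0 hE
  obtain ⟨CK, hCK, hKa⟩ := k_app hK hW k G hGd hGs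
  obtain ⟨nK, hnK⟩ := hKa E δ δ κ c0 θ hδ hδ hκ
  obtain ⟨c, C, hc, hCp, nJ, hJ⟩ := JJ_card hE1 hE2 hε hε1
  have hrho : 0 < rho E := by
    obtain ⟨r, c1, hr, hc1, hr2⟩ := rho_lb hE1 hE2
    exact lt_of_lt_of_le hr (hr2 E (by simp [hc1.le]))
  obtain ⟨nW, hnW⟩ := cmp_large (1 - ε) (4 / c0) (by linarith)
  obtain ⟨nI, hnI⟩ := cmp_large (1 - 2 * δ) (3 / c) (by linarith)
  -- the constant of the labelled part
  obtain ⟨C1, hC1⟩ : ∃ C1, C1 = Real.sqrt C / (2 * rho E) * (5 ^ k * (CK * 2)) := ⟨_, rfl⟩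
  have hC1p : 0 ≤ C1 := by rw [hC1]; positivity
  obtain ⟨nE, hnE⟩ := cmp_large (mn / 8) (2 + C1) (by linarith)
  refine ⟨mn / 8, by linarith, nL + nlA + ncA + nlG + ncG + nK + nJ + nW + nI + nE + 2,
    fun n hn hev => ?_⟩
  have hn1 : 1 ≤ n := by omega
  have hnp : (0 : ℝ) < n := by exact_mod_cast hn1
  have hn1' : (1 : ℝ) ≤ n := by exact_mod_cast hn1
  have := P3_prob hev
  -- the window is small
  have hwin : 2 * (n : ℝ) ^ (-1 + ε) ≤ c0 / 2 := by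
    have h := hnW n (by omega)
    have e1 : (n : ℝ) ^ (-1 + ε) = ((n : ℝ) ^ (1 - ε))⁻¹ := by
      rw [← Real.rpow_neg hnp.le]; congr 1; ring
    rw [e1]
    have h2 : 0 < (n : ℝ) ^ (1 - ε) := Real.rpow_pos_of_pos hnp _
    rw [← div_eq_mul_inv, div_le_iff₀ h2]
    rw [div_le_iff₀ hc0] at h
    linarith
  -- the two applications of part L
  have hA := hnL n (by omega) ((Pat n × Arr n) × Arr n) (P3 n) (fun ω => AA n δ E κ c0 θ ω)
    (fun i j => AA_entry_meas n δ E κ c0 θ i j) (fun ω => AA_symm n δ E κ c0 θ ω)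
    (fun x r hr => by
      have h := hlA n (by omega) hev x r hr
      rw [hδh] at h
      exact h)
    (fun x hx => by
      have h := hcA n (by omega) hev x (hx.trans hwin)
      rw [hδh] at h
      exact h)
  have hB := hnL n (by omega) (Arr n) (gm n) (fun X => Wv (N := n) (1 / (n : ℝ)) X)
    (fun i j => by unfold Wv; simp only [Matrix.of_apply]; fun_prop) (fun X => Wv_symm _ X)
    (fun x r hr => hlG n (by omega) x r hr)
    (fun x hx => hcG n (by omega) x (hx.trans hwin))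
  rw [← hmn] at hA hB
  obtain ⟨hJ1, hJ2, hJ3⟩ := hJ n (by omega)
  set J := JJ n E ((n : ℝ) ^ (-1 + ε)) with hJdef
  set K := ⌈(n : ℝ) ^ (2 * δ)⌉₊ with hKdef
  have hpε : 0 < (n : ℝ) ^ ε := Real.rpow_pos_of_pos hnp _
  have hp2 : 1 ≤ (n : ℝ) ^ (2 * δ) := Real.one_le_rpow hn1' (by linarith)
  have hJpos : 0 < (J.card : ℝ) := lt_of_lt_of_le (by positivity) hJ1
  have hJne : J.Nonempty := Finset.card_pos.1 (by exact_mod_cast hJpos)
  have hKle : (K : ℝ) ≤ (n : ℝ) ^ (2 * δ) + 1 := (Nat.ceil_lt_add_one (by positivity)).le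
  have hK2 : (2 * K + 1 : ℝ) ≤ 5 * (n : ℝ) ^ (2 * δ) := by linarith
  have hKc : (K : ℝ) < c * n := by
    have h := hnI n (by omega)
    rw [div_le_iff₀ hc] at h
    have e2 : (n : ℝ) ^ (2 * δ) * (n : ℝ) ^ (1 - 2 * δ) = n := by
      rw [← Real.rpow_add hnp]
      have : 2 * δ + (1 - 2 * δ) = 1 := by ring
      rw [this, Real.rpow_one]
    have h2 : 3 * (n : ℝ) ^ (2 * δ) ≤ c * n := by
      calc 3 * (n : ℝ) ^ (2 * δ) ≤ ((n : ℝ) ^ (1 - 2 * δ) * c) * (n : ℝ) ^ (2 * δ) := by gcongr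
        _ = c * ((n : ℝ) ^ (2 * δ) * (n : ℝ) ^ (1 - 2 * δ)) := by ring
        _ = c * n := by rw [e2]
    linarith
  have hidx : ∀ m : Fin k → ℤ, (∀ q, |m q| ≤ K) →
      ∀ i ∈ J, i < n ∧ ∀ q, 0 ≤ (i : ℤ) + m q ∧ (i : ℤ) + m q < n := by
    intro m hm i hi
    obtain ⟨a1, a2⟩ := hJ3 i hi
    refine ⟨?_, fun q => ?_⟩
    · have h : (i : ℝ) < n := by nlinarith
      exact_mod_cast h
    · obtain ⟨b1, b2⟩ := abs_le.1 (hm q)
      have b1' : -(K : ℝ) ≤ (m q : ℝ) := by exact_mod_cast b1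
      have b2' : (m q : ℝ) ≤ (K : ℝ) := by exact_mod_cast b2
      have d1 : (0 : ℝ) ≤ (((i : ℤ) + m q : ℤ) : ℝ) := by push_cast; linarith
      have d2 : (((i : ℤ) + m q : ℤ) : ℝ) < ((n : ℤ) : ℝ) := by push_cast; nlinarith
      exact ⟨by exact_mod_cast d1, by exact_mod_cast d2⟩
  have ha0 : 0 ≤ (J.card : ℝ) / (2 * (n : ℝ) ^ ε * rho E) := by positivity
  have hlab := cmp_lab (P3 n) (fun ω => AA n δ E κ c0 θ ω) (gm n)
    (fun X => Wv (N := n) (1 / (n : ℝ)) X) J ((n : ℝ) * rho E)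
    ((J.card : ℝ) / (2 * (n : ℝ) ^ ε * rho E)) (CK / Real.sqrt (J.card : ℝ) * (1 + (n : ℝ) ^ (δ + δ)))
    ha0 G K (fun m hm => hnK n (by omega) hev J m ((n : ℝ) * rho E) hJne (hidx m hm))
  -- size of the labelled difference
  have hsq : (J.card : ℝ) / Real.sqrt (J.card : ℝ) ≤ Real.sqrt C * (n : ℝ) ^ (ε / 2) := by
    rw [Real.div_sqrt]
    calc Real.sqrt (J.card : ℝ) ≤ Real.sqrt (C * (n : ℝ) ^ ε) := Real.sqrt_le_sqrt hJ2
      _ = Real.sqrt C * (n : ℝ) ^ (ε / 2) := by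
        rw [Real.sqrt_mul hCp.le, Real.sqrt_eq_rpow ((n : ℝ) ^ ε), ← Real.rpow_mul hnp.le]
        congr 2
        ring
  have hlab2 : (J.card : ℝ) / (2 * (n : ℝ) ^ ε * rho E) *
      ((2 * K + 1 : ℝ) ^ k * (CK / Real.sqrt (J.card : ℝ) * (1 + (n : ℝ) ^ (δ + δ))))
      ≤ C1 * (n : ℝ) ^ (-(mn / 4)) := by
    have hdd : (n : ℝ) ^ (δ + δ) = (n : ℝ) ^ (2 * δ) := by congr 1; ring
    rw [hdd]
    have e3 : (J.card : ℝ) / (2 * (n : ℝ) ^ ε * rho E) *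
        ((2 * K + 1 : ℝ) ^ k * (CK / Real.sqrt (J.card : ℝ) * (1 + (n : ℝ) ^ (2 * δ))))
        = ((J.card : ℝ) / Real.sqrt (J.card : ℝ)) / (2 * (n : ℝ) ^ ε * rho E) *
          ((2 * K + 1 : ℝ) ^ k * (CK * (1 + (n : ℝ) ^ (2 * δ)))) := by ring
    rw [e3]
    have e4 : (2 * K + 1 : ℝ) ^ k ≤ 5 ^ k * ((n : ℝ) ^ (2 * δ)) ^ k := by
      rw [← mul_pow]
      exact pow_le_pow_left₀ (by positivity) hK2 k
    have e5 : 1 + (n : ℝ) ^ (2 * δ) ≤ 2 * (n : ℝ) ^ (2 * δ) := by linarith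
    calc ((J.card : ℝ) / Real.sqrt (J.card : ℝ)) / (2 * (n : ℝ) ^ ε * rho E) *
          ((2 * K + 1 : ℝ) ^ k * (CK * (1 + (n : ℝ) ^ (2 * δ))))
        ≤ (Real.sqrt C * (n : ℝ) ^ (ε / 2)) / (2 * (n : ℝ) ^ ε * rho E) *
          ((5 ^ k * ((n : ℝ) ^ (2 * δ)) ^ k) * (CK * (2 * (n : ℝ) ^ (2 * δ)))) := by gcongr
      _ = C1 * ((n : ℝ) ^ (ε / 2) * ((n : ℝ) ^ ε)⁻¹ * (((n : ℝ) ^ (2 * δ)) ^ k *
            (n : ℝ) ^ (2 * δ))) := by
          rw [hC1]; field_simp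
      _ = C1 * (n : ℝ) ^ (ε / 2 + -ε + (2 * δ * k + 2 * δ)) := by
          rw [← Real.rpow_neg hnp.le, ← Real.rpow_natCast ((n : ℝ) ^ (2 * δ)) k,
            ← Real.rpow_mul hnp.le, ← Real.rpow_add hnp, ← Real.rpow_add hnp, ← Real.rpow_add hnp]
      _ ≤ C1 * (n : ℝ) ^ (-(mn / 4)) := by
          refine mul_le_mul_of_nonneg_left ?_ hC1p
          refine Real.rpow_le_rpow_of_exponent_le hn1' ?_
          linarith
  have herr : (n : ℝ) ^ ((2 * (k : ℝ) + 6) * δ - mn) ≤ (n : ℝ) ^ (-(mn / 4)) :=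
    Real.rpow_le_rpow_of_exponent_le hn1' (by linarith)
  have hfin : (2 + C1) * (n : ℝ) ^ (-(mn / 4)) ≤ (n : ℝ) ^ (-(mn / 8)) := by
    have h := hnE n (by omega)
    calc (2 + C1) * (n : ℝ) ^ (-(mn / 4)) ≤ (n : ℝ) ^ (mn / 8) * (n : ℝ) ^ (-(mn / 4)) := by
          gcongr
      _ = (n : ℝ) ^ (-(mn / 8)) := by
          rw [← Real.rpow_add hnp]; congr 1; ring
  have tri : ∀ a b u v e f : ℝ, |a - u| ≤ e → |b - v| ≤ e → |u - v| ≤ f → |a - b| ≤ 2 * e + f := by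
    intro a b u v e f q1 q2 q3
    rw [abs_le] at q1 q2 q3 ⊢
    constructor <;> linarith [q1.1, q1.2, q2.1, q2.2, q3.1, q3.2]
  have hfinal := tri _ _ _ _ _ _ hA hB hlab
  refine hfinal.trans ?_
  calc 2 * (n : ℝ) ^ ((2 * (k : ℝ) + 6) * δ - mn) + _
      ≤ 2 * (n : ℝ) ^ (-(mn / 4)) + C1 * (n : ℝ) ^ (-(mn / 4)) :=
        add_le_add (by linarith) hlab2
    _ = (2 + C1) * (n : ℝ) ^ (-(mn / 4)) := by ring
    _ ≤ _ := hfin

end Pool.Agent.ZR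

end

section

/-!
# ZR/JTwo : J2 (bordering)

`k = 0`: everything is `1`, `e ≥ 0`; trivial (any `n0 ≥ 1`).  Let `k ≥ 1`, `n = N + 1 ≥ n0` (write
`n = N + 1`; `Fin (N + 1 - 1)` is `Fin N` by `rfl`), `i = Fin.last N`, `t = n^(-δ)`, `s = e^{-t/2}`,
`τ = (1 - e^{-t})(1/n)`.  `A = At (1/n) t (snocV a b) X = Dw τ (s snocV a b) X` (`At_eq_Dw`), symmetric;
`mino i A = At (1/n) t a (subX i X)` (`mino_At_snoc`).  `gz_one` rewrites `Gz 1` as `Rz`.  Put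
`Y_j(X) = (1/n) Im tr Rz (mino i A) z_j`, `Y'_j(X) = (1/n) Im tr Rz A z_j` on `gm n`.
`∫ f(Y_j) ∂(gm n)` is the integral over `gm (n-1)` of the statement (`gm_sub_integral`; measurability
`measurable_trRz`, `measurable_Dw`), also for the product `∏ Y_j`.  Both are non negative and bounded by
`B = n (1/z_j.im) ≤ n^3` (e.g. `tr_spec`: `|tr| ≤ N/z.im`).
Pointwise `|Y' - Y| ≤ (1/n)‖tr Rz A z - tr Rz (mino i A) z‖`:
* always `≤ 1/(n z.im) ≤ n^c ≤ n =: B2` (`bord_triv`);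
* on the good event `G = {‖q‖ ≤ n^(c+ν/2-δ/2)} ∩ {√(2τ)|X_ii| ≤ c0/4}`: `A_ii = s b + √(2τ)X_ii`
  (`diag_Dw`), `|A_ii - x| ≥ |b - x| - (1-s)|b| - c0/4 ≥ c0/2` for `n` large, since
  `(1 - s)|b| ≤ t/(2 c0) → 0`; so by `bord_le` with `p = c0/2`:
  `|Y' - Y| ≤ (1/n)(4/c0)(1 + n^(c+ν/2-δ/2) n^(1+c)) ≤ (8/c0) n^(2c+ν/2-δ/2) =: B1`
  (`n^(-1) ≤ n^(2c+ν/2-δ/2)` because `δ < 1`).
`P(Gᶜ) ≤ 2 n^(-D)` with `D` of our choice (`qf_whp` with `ν/2` for the vector `s snocV a b`,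
`diag_whp`), take `D = 4k + 2`: `moment_split`: `∫ (Y'-Y)^(2k) ≤ B1^(2k) + n^(2k) 2 n^(-4k-2)`
`≤ 2 B1^(2k) ≤ (2 B1)^(2k)` for `n` large (`B1 ≥ (8/c0) n^(-1)`, so `B1^(2k) ≥ (8/c0)^(2k) n^(-2k)`).
`prod_diff` with `M = Mo`, `d = 2 B1`; for `n` large `(k+1) d ≤ e = n^(2c+ν-δ/2)`, and
`(Mo + d)^(2k) ≤ (Mo + e + 1)^(2k)`, `k d (Mo+d)^(k-1) ≤ e (Mo+e+1)^k` (`Mo + e + 1 ≥ 1`).
-/


open MeasureTheory ProbabilityTheory Matrix

namespace Pool.Agent.ZR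

private lemma imt_meas94 {N : ℕ} (v t : ℝ) (ht : 0 ≤ t) (a : Fin N → ℝ) (u : ℝ) (z : ℂ) :
    Measurable (fun X : Fin N × Fin N → ℝ => u * ((Gz 1 (At v t a X) z).trace).im) := by
  simp only [gz_one, At_eq_Dw v t ht]
  have h := measurable_trRz (fun X : Fin N × Fin N → ℝ =>
    Dw ((1 - Real.exp (-t)) * v) (fun i => Real.exp (-t / 2) * a i) X)
    (fun k l => measurable_Dw _ _ k l) z
  exact (Complex.measurable_im.comp h).const_mul u

private lemma tr_bd94 {N : ℕ} (M : Matrix (Fin N) (Fin N) ℝ) (hM : M.IsSymm) (z : ℂ)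
    (hz : 0 < z.im) : ‖(Rz M z).trace‖ ≤ N / z.im := by
  rw [tr_spec M hM z hz.ne']
  refine (norm_sum_le _ _).trans ?_
  have h : ∀ k : Fin N, ‖1 / ((evs M k : ℂ) - z)‖ ≤ 1 / z.im := by
    intro k
    rw [norm_div, norm_one]
    refine one_div_le_one_div_of_le hz ?_
    have h1 := Complex.abs_im_le_norm ((evs M k : ℂ) - z)
    rw [Complex.sub_im, Complex.ofReal_im, zero_sub, abs_neg, abs_of_pos hz] at h1
    exact h1
  refine (Finset.sum_le_sum fun k _ => h k).trans ?_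
  rw [Finset.sum_const, Finset.card_univ, Fintype.card_fin, nsmul_eq_mul, mul_one_div]

private lemma asym2_94 (k : ℕ) (δ ν c0 : ℝ) (hδ : 0 < δ) (hν : 0 < ν) (hc0 : 0 < c0) :
    ∃ n0 : ℕ, ∀ n : ℕ, n0 ≤ n → 1 ≤ n ∧ (n : ℝ) ^ (-δ) ≤ c0 ^ 2 / 2 ∧
      2 * (n : ℝ) ^ (-2 : ℝ) ≤ (8 / c0) ^ (2 * k) ∧
      ((k : ℝ) + 1) * (16 / c0) ≤ (n : ℝ) ^ (ν / 2) := by
  have hc : Filter.Tendsto (fun n : ℕ => (n : ℝ)) Filter.atTop Filter.atTop :=
    tendsto_natCast_atTop_atTop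
  have t1 := ((tendsto_rpow_neg_atTop hδ).comp hc).eventually
    (Iio_mem_nhds (show (0 : ℝ) < c0 ^ 2 / 2 by positivity))
  have t2 := ((tendsto_rpow_neg_atTop (show (0 : ℝ) < 2 by norm_num)).comp hc).eventually
    (Iio_mem_nhds (show (0 : ℝ) < (8 / c0) ^ (2 * k) / 2 by positivity))
  have t3 : Filter.Tendsto (fun n : ℕ => (n : ℝ) ^ (ν / 2)) Filter.atTop Filter.atTop :=
    (tendsto_rpow_atTop (by linarith)).comp hc
  obtain ⟨n0, hn0⟩ := Filter.eventually_atTop.1 ((Filter.eventually_ge_atTop 1).and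
    (t1.and (t2.and (t3.eventually_ge_atTop (((k : ℝ) + 1) * (16 / c0))))))
  refine ⟨n0, fun n hn => ?_⟩
  obtain ⟨h1, h2, h3, h4⟩ := hn0 n hn
  simp only [Function.comp] at h2 h3
  exact ⟨h1, le_of_lt h2, by linarith [show (n : ℝ) ^ (-2 : ℝ) < (8 / c0) ^ (2 * k) / 2 from h3], h4⟩

/-- the moment inequality (numbers only) -/
private lemma num94 (k : ℕ) (hk : 1 ≤ k) (n c δ ν c0 : ℝ) (hn : 1 ≤ n) (hc : 0 ≤ c) (hc1 : c < 1)
    (hδ1 : δ < 1) (hν : 0 < ν) (hc0 : 0 < c0)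
    (h2 : 2 * n ^ (-2 : ℝ) ≤ (8 / c0) ^ (2 * k)) :
    (8 / c0 * n ^ (2 * c + ν / 2 - δ / 2)) ^ (2 * k) + (n ^ c) ^ (2 * k) *
      (2 * n ^ (-(4 * (k : ℝ) + 2))) ≤ (2 * (8 / c0 * n ^ (2 * c + ν / 2 - δ / 2))) ^ (2 * k) := by
  have hnpos : 0 < n := by linarith
  have e1 : (n ^ c) ^ (2 * k) ≤ n ^ (2 * (k : ℝ)) := by
    rw [← Real.rpow_natCast, ← Real.rpow_mul hnpos.le]
    refine Real.rpow_le_rpow_of_exponent_le hn ?_
    push_cast
    have : (0 : ℝ) ≤ k := Nat.cast_nonneg _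
    nlinarith
  have e2 : n ^ (-2 * (k : ℝ)) ≤ (n ^ (2 * c + ν / 2 - δ / 2)) ^ (2 * k) := by
    rw [← Real.rpow_natCast, ← Real.rpow_mul hnpos.le]
    refine Real.rpow_le_rpow_of_exponent_le hn ?_
    push_cast
    have : (0 : ℝ) ≤ k := Nat.cast_nonneg _
    nlinarith
  have e3 : (n ^ c) ^ (2 * k) * (2 * n ^ (-(4 * (k : ℝ) + 2)))
      ≤ (8 / c0 * n ^ (2 * c + ν / 2 - δ / 2)) ^ (2 * k) := by
    calc (n ^ c) ^ (2 * k) * (2 * n ^ (-(4 * (k : ℝ) + 2)))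
        ≤ n ^ (2 * (k : ℝ)) * (2 * n ^ (-(4 * (k : ℝ) + 2))) :=
          mul_le_mul_of_nonneg_right e1 (by positivity)
      _ = (2 * n ^ (-2 : ℝ)) * n ^ (-2 * (k : ℝ)) := by
          have : n ^ (2 * (k : ℝ)) * n ^ (-(4 * (k : ℝ) + 2)) = n ^ (-2 : ℝ) * n ^ (-2 * (k : ℝ)) := by
            rw [← Real.rpow_add hnpos, ← Real.rpow_add hnpos]
            congr 1
            ring
          linear_combination 2 * this
      _ ≤ (8 / c0) ^ (2 * k) * (n ^ (2 * c + ν / 2 - δ / 2)) ^ (2 * k) :=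
          mul_le_mul h2 e2 (by positivity) (by positivity)
      _ = (8 / c0 * n ^ (2 * c + ν / 2 - δ / 2)) ^ (2 * k) := (mul_pow _ _ _).symm
  rw [mul_pow 2 (8 / c0 * n ^ (2 * c + ν / 2 - δ / 2))]
  have h4 : (2 : ℝ) ≤ 2 ^ (2 * k) := by
    calc (2 : ℝ) = 2 ^ 1 := by norm_num
      _ ≤ 2 ^ (2 * k) := pow_le_pow_right₀ (by norm_num) (by omega)
  have h5 : 0 ≤ (8 / c0 * n ^ (2 * c + ν / 2 - δ / 2)) ^ (2 * k) := by positivity
  nlinarith

/-- the pointwise estimate on the good event -/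
private lemma good94 {N : ℕ} (τ s b c0 c ν δ : ℝ) (hτ : 0 ≤ τ) (hc0 : 0 < c0)
    (d : Fin (N + 1) → ℝ) (hd : d (Fin.last N) = s * b) (X : Fin (N + 1) × Fin (N + 1) → ℝ)
    (z : ℂ) (n : ℝ) (hn : 1 ≤ n) (hc : 0 ≤ c) (hδ1 : δ < 1) (hν : 0 < ν)
    (hz : n ^ (-1 - c) ≤ z.im) (hb : |b| ≤ 1 / c0) (hzb : c0 ≤ |z.re - b|) (hs1 : s ≤ 1)
    (hs : 1 - s ≤ c0 ^ 2 / 4)
    (hq : ‖qf (mino (Fin.last N) (Dw τ d X)) (rowv (Fin.last N) (Dw τ d X)) z‖
      ≤ n ^ (c + ν / 2 - δ / 2))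
    (hX : Real.sqrt (2 * τ) * |X (Fin.last N, Fin.last N)| ≤ c0 / 4) :
    (1 / n) * ‖(Rz (Dw τ d X) z).trace - (Rz (mino (Fin.last N) (Dw τ d X)) z).trace‖
      ≤ 8 / c0 * n ^ (2 * c + ν / 2 - δ / 2) := by
  have hnpos : 0 < n := by linarith
  have hzpos : 0 < z.im := lt_of_lt_of_le (Real.rpow_pos_of_pos hnpos _) hz
  have hp : c0 / 2 ≤ |Dw τ d X (Fin.last N) (Fin.last N) - z.re| := by
    rw [diag_Dw _ τ hτ, hd]
    have h1 : |Real.sqrt (2 * τ) * X (Fin.last N, Fin.last N)| ≤ c0 / 4 := by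
      rw [abs_mul, abs_of_nonneg (Real.sqrt_nonneg _)]
      exact hX
    have h2 : |(1 - s) * b| ≤ c0 / 4 := by
      rw [abs_mul, abs_of_nonneg (by linarith)]
      calc (1 - s) * |b| ≤ c0 ^ 2 / 4 * (1 / c0) :=
            mul_le_mul hs hb (abs_nonneg _) (by positivity)
        _ = c0 / 4 := by field_simp
    have h3 : z.re - b = -(s * b + Real.sqrt (2 * τ) * X (Fin.last N, Fin.last N) - z.re)
        + Real.sqrt (2 * τ) * X (Fin.last N, Fin.last N) - (1 - s) * b := by ring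
    have h4 : |z.re - b| ≤ |s * b + Real.sqrt (2 * τ) * X (Fin.last N, Fin.last N) - z.re|
        + |Real.sqrt (2 * τ) * X (Fin.last N, Fin.last N)| + |(1 - s) * b| := by
      rw [h3]
      refine (abs_sub _ _).trans ?_
      have := abs_add_le (-(s * b + Real.sqrt (2 * τ) * X (Fin.last N, Fin.last N) - z.re))
        (Real.sqrt (2 * τ) * X (Fin.last N, Fin.last N))
      rw [abs_neg] at this
      linarith
    linarith
  have hbl := bord_le (Fin.last N) (Dw τ d X) (Dw_symm τ d X) z hzpos (c0 / 2) (by positivity) hp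
  have hinv : 1 / z.im ≤ n ^ (1 + c) := by
    rw [div_le_iff₀ hzpos]
    calc (1 : ℝ) = n ^ (1 + c) * n ^ (-1 - c) := by
          rw [← Real.rpow_add hnpos]
          rw [show (1 : ℝ) + c + (-1 - c) = 0 by ring, Real.rpow_zero]
      _ ≤ n ^ (1 + c) * z.im := mul_le_mul_of_nonneg_left hz (by positivity)
  have hq2 : ‖qf (mino (Fin.last N) (Dw τ d X)) (rowv (Fin.last N) (Dw τ d X)) z‖ / z.im
      ≤ n * n ^ (2 * c + ν / 2 - δ / 2) := by
    rw [div_eq_mul_one_div]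
    refine (mul_le_mul hq hinv (by positivity) (by positivity)).trans (le_of_eq ?_)
    rw [← Real.rpow_add hnpos]
    nth_rewrite 2 [← Real.rpow_one n]
    rw [← Real.rpow_add hnpos]
    congr 1
    ring
  have h1n : (1 : ℝ) ≤ n * n ^ (2 * c + ν / 2 - δ / 2) := by
    nth_rewrite 1 [← Real.rpow_one n]
    rw [← Real.rpow_add hnpos]
    exact Real.one_le_rpow hn (by linarith)
  calc (1 / n) * ‖(Rz (Dw τ d X) z).trace - (Rz (mino (Fin.last N) (Dw τ d X)) z).trace‖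
      ≤ (1 / n) * ((2 / (c0 / 2)) * (1 + ‖qf (mino (Fin.last N) (Dw τ d X))
          (rowv (Fin.last N) (Dw τ d X)) z‖ / z.im)) :=
        mul_le_mul_of_nonneg_left hbl (by positivity)
    _ ≤ (1 / n) * ((2 / (c0 / 2)) * (n * n ^ (2 * c + ν / 2 - δ / 2)
          + n * n ^ (2 * c + ν / 2 - δ / 2))) := by
        refine mul_le_mul_of_nonneg_left (mul_le_mul_of_nonneg_left ?_ (by positivity))
          (by positivity)
        linarith
    _ = 8 / c0 * n ^ (2 * c + ν / 2 - δ / 2) := by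
        field_simp
        ring

theorem j2 : J2 := by
  intro k δ c ν c0 hδ hδ1 hc hc1 hν hc0
  obtain ⟨m1, hm1⟩ := qf_whp δ c (ν / 2) (4 * (k : ℝ) + 2) hδ hδ1 hc (by linarith)
  obtain ⟨m2, hm2⟩ := diag_whp δ (c0 / 4) (4 * (k : ℝ) + 2) hδ (by linarith)
  obtain ⟨m3, hm3⟩ := asym2_94 k δ ν c0 hδ hν hc0
  refine ⟨max (max m1 m2) m3, ?_⟩
  intro n hn a b z Mo hMo hb hz hmom e
  have hn1 : m1 ≤ n := le_trans (le_trans (le_max_left _ _) (le_max_left _ _)) hn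
  have hn2 : m2 ≤ n := le_trans (le_trans (le_max_right _ _) (le_max_left _ _)) hn
  have hn3 : m3 ≤ n := le_trans (le_max_right _ _) hn
  obtain ⟨hn1', hA1, hA2, hA3⟩ := hm3 n hn3
  obtain ⟨N, rfl⟩ : ∃ N, n = N + 1 := ⟨n - 1, by omega⟩
  change Fin N → ℝ at a
  have hdiag := hm2 (N + 1) hn2
  have hqf := hm1 N hn1 (Fin.last N)
  obtain ⟨nr, hnr⟩ : ∃ nr : ℝ, nr = ((N + 1 : ℕ) : ℝ) := ⟨_, rfl⟩
  have hnge : 1 ≤ nr := by rw [hnr]; exact_mod_cast hn1'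
  have hnpos : 0 < nr := by linarith
  rw [← hnr] at hA1 hA2 hA3
  have ht0 : 0 ≤ nr ^ (-δ) := by positivity
  obtain ⟨hτ0, hτ1, hτ2⟩ := tau_bounds (N + 1) (by omega) δ hδ
  simp only [← hnr] at hdiag hqf hτ0 hz hmom ⊢
  obtain ⟨τ, hτ⟩ : ∃ τ : ℝ, τ = (1 - Real.exp (-(nr ^ (-δ)))) * (1 / nr) := ⟨_, rfl⟩
  rw [← hτ] at hdiag hτ0
  have he : e = nr ^ (2 * c + ν - δ / 2) := by rw [hnr]
  have hmino : ∀ X : Fin (N + 1) × Fin (N + 1) → ℝ,
      At (1 / nr) (nr ^ (-δ)) a (subX (Fin.last N) X)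
        = mino (Fin.last N) (Dw τ (fun i => Real.exp (-(nr ^ (-δ)) / 2) *
          snocV (n := N + 1) a b i) X) := by
    intro X
    rw [hτ, ← At_eq_Dw (1 / nr) (nr ^ (-δ)) ht0, mino_At_snoc]
  have hAt : ∀ X : Fin (N + 1) × Fin (N + 1) → ℝ,
      At (1 / nr) (nr ^ (-δ)) (snocV (n := N + 1) a b) X
        = Dw τ (fun i => Real.exp (-(nr ^ (-δ)) / 2) * snocV (n := N + 1) a b i) X := by
    intro X
    rw [hτ, ← At_eq_Dw (1 / nr) (nr ^ (-δ)) ht0]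
  have hprob : IsProbabilityMeasure (gm (N + 1)) := by unfold gm; infer_instance
  -- the variables
  have hsm : Measurable (subX (N := N) (Fin.last N)) := measurable_subX (Fin.last N)
  have hzpos : ∀ j, 0 < (z j).im := fun j =>
    lt_of_lt_of_le (Real.rpow_pos_of_pos hnpos _) (hz j).1
  have hinv : ∀ j, 1 / (z j).im ≤ nr ^ (1 + c) := by
    intro j
    rw [div_le_iff₀ (hzpos j)]
    calc (1 : ℝ) = nr ^ (1 + c) * nr ^ (-1 - c) := by
          rw [← Real.rpow_add hnpos]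
          rw [show (1 : ℝ) + c + (-1 - c) = 0 by ring, Real.rpow_zero]
      _ ≤ nr ^ (1 + c) * (z j).im := mul_le_mul_of_nonneg_left (hz j).1 (by positivity)
  have hNn : (N : ℝ) ≤ nr := by rw [hnr]; push_cast; linarith
  have hN1n : ((N + 1 : ℕ) : ℝ) ≤ nr := by rw [hnr]
  have hbd : ∀ {M : ℕ} (hM : (M : ℝ) ≤ nr) (A : Matrix (Fin M) (Fin M) ℝ) (hA : A.IsSymm) (j : Fin k),
      |(1 / nr) * ((Gz 1 A (z j)).trace).im| ≤ nr ^ (1 + c) := by
    intro M hM A hA j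
    rw [gz_one, abs_mul, abs_of_pos (by positivity : 0 < 1 / nr)]
    have h1 := tr_bd94 A hA (z j) (hzpos j)
    have h2 := Complex.abs_im_le_norm (Rz A (z j)).trace
    calc 1 / nr * |(Rz A (z j)).trace.im| ≤ 1 / nr * (M / (z j).im) :=
          mul_le_mul_of_nonneg_left (h2.trans h1) (by positivity)
      _ = (M / nr) * (1 / (z j).im) := by ring
      _ ≤ 1 * nr ^ (1 + c) := by
          refine mul_le_mul ?_ (hinv j) (by have := hzpos j; positivity) zero_le_one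
          rw [div_le_one hnpos]
          exact hM
      _ = nr ^ (1 + c) := one_mul _
  have hY : ∀ j : Fin k, Measurable (fun X : Fin (N + 1) × Fin (N + 1) → ℝ =>
      (1 / nr) * ((Gz 1 (At (1 / nr) (nr ^ (-δ)) a (subX (Fin.last N) X)) (z j)).trace).im) :=
    fun j => (imt_meas94 (1 / nr) (nr ^ (-δ)) ht0 a (1 / nr) (z j)).comp hsm
  have hY' : ∀ j : Fin k, Measurable (fun X : Fin (N + 1) × Fin (N + 1) → ℝ =>
      (1 / nr) * ((Gz 1 (At (1 / nr) (nr ^ (-δ)) (snocV (n := N + 1) a b) X) (z j)).trace).im) :=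
    fun j => imt_meas94 (1 / nr) (nr ^ (-δ)) ht0 _ (1 / nr) (z j)
  have hsymA : ∀ X : Fin N × Fin N → ℝ, (At (1 / nr) (nr ^ (-δ)) a X).IsSymm := by
    intro X
    rw [At_eq_Dw (1 / nr) (nr ^ (-δ)) ht0]
    exact Dw_symm _ _ _
  have hsymA' : ∀ X : Fin (N + 1) × Fin (N + 1) → ℝ,
      (At (1 / nr) (nr ^ (-δ)) (snocV (n := N + 1) a b) X).IsSymm := by
    intro X
    rw [At_eq_Dw (1 / nr) (nr ^ (-δ)) ht0]
    exact Dw_symm _ _ _
  -- pointwise difference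
  have hdiff : ∀ (j : Fin k) (X : Fin (N + 1) × Fin (N + 1) → ℝ),
      |(1 / nr) * ((Gz 1 (At (1 / nr) (nr ^ (-δ)) (snocV (n := N + 1) a b) X) (z j)).trace).im
        - (1 / nr) * ((Gz 1 (At (1 / nr) (nr ^ (-δ)) a (subX (Fin.last N) X)) (z j)).trace).im|
      ≤ (1 / nr) * ‖(Rz (Dw τ (fun i => Real.exp (-(nr ^ (-δ)) / 2) *
          snocV (n := N + 1) a b i) X) (z j)).trace
        - (Rz (mino (Fin.last N) (Dw τ (fun i => Real.exp (-(nr ^ (-δ)) / 2) *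
          snocV (n := N + 1) a b i) X)) (z j)).trace‖ := by
    intro j X
    rw [gz_one, gz_one, hmino X, hAt X, ← mul_sub, abs_mul, abs_of_pos (by positivity : 0 < 1 / nr),
      ← Complex.sub_im]
    exact mul_le_mul_of_nonneg_left (Complex.abs_im_le_norm _) (by positivity)
  have hs1 : Real.exp (-(nr ^ (-δ)) / 2) ≤ 1 := Real.exp_le_one_iff.2 (by linarith)
  have hs2 : 1 - Real.exp (-(nr ^ (-δ)) / 2) ≤ c0 ^ 2 / 4 := by
    have := Real.add_one_le_exp (-(nr ^ (-δ)) / 2)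
    linarith
  have hmain := prod_diff (gm (N + 1)) k
    (fun j X => (1 / nr) * ((Gz 1 (At (1 / nr) (nr ^ (-δ)) a (subX (Fin.last N) X)) (z j)).trace).im)
    (fun j X => (1 / nr) *
      ((Gz 1 (At (1 / nr) (nr ^ (-δ)) (snocV (n := N + 1) a b) X) (z j)).trace).im)
    hY hY' (nr ^ (1 + c))
    (fun j X => hbd hNn _ (hsymA _) j) (fun j X => hbd hN1n _ (hsymA' _) j)
    Mo (2 * (8 / c0 * nr ^ (2 * c + ν / 2 - δ / 2))) (by linarith) (by positivity) ?_ ?_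
  · obtain ⟨r1, r2⟩ := hmain
    have hd0 : 0 ≤ 2 * (8 / c0 * nr ^ (2 * c + ν / 2 - δ / 2)) := by positivity
    have hde : ((k : ℝ) + 1) * (2 * (8 / c0 * nr ^ (2 * c + ν / 2 - δ / 2))) ≤ e := by
      rw [he]
      have h1 : nr ^ (2 * c + ν - δ / 2) = nr ^ (ν / 2) * nr ^ (2 * c + ν / 2 - δ / 2) := by
        rw [← Real.rpow_add hnpos]
        congr 1
        ring
      rw [h1]
      calc ((k : ℝ) + 1) * (2 * (8 / c0 * nr ^ (2 * c + ν / 2 - δ / 2)))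
          = ((k : ℝ) + 1) * (16 / c0) * nr ^ (2 * c + ν / 2 - δ / 2) := by ring
        _ ≤ nr ^ (ν / 2) * nr ^ (2 * c + ν / 2 - δ / 2) :=
            mul_le_mul_of_nonneg_right hA3 (by positivity)
    have hk0 : (0 : ℝ) ≤ k := Nat.cast_nonneg _
    have hde1 : 2 * (8 / c0 * nr ^ (2 * c + ν / 2 - δ / 2)) ≤ e := by nlinarith
    have hdek : (k : ℝ) * (2 * (8 / c0 * nr ^ (2 * c + ν / 2 - δ / 2))) ≤ e := by nlinarith
    have he0 : 0 ≤ e := le_trans hd0 hde1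
    constructor
    · intro j
      refine (r1 j).trans ?_
      exact pow_le_pow_left₀ (by linarith) (by linarith) _
    · have hint : ∫ X, ∏ j, ((1 / nr) *
          ((Gz 1 (At (1 / nr) (nr ^ (-δ)) a (subX (Fin.last N) X)) (z j)).trace).im) ∂(gm (N + 1))
          = ∫ X, ∏ j, ((1 / nr) *
          ((Gz 1 (At (1 / nr) (nr ^ (-δ)) a X) (z j)).trace).im) ∂(gm N) := by
        refine gm_sub_integral (Fin.last N) (fun X => ∏ j, ((1 / nr) *
          ((Gz 1 (At (1 / nr) (nr ^ (-δ)) a X) (z j)).trace).im)) ?_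
        exact Finset.measurable_fun_prod _ fun j _ =>
          imt_meas94 (1 / nr) (nr ^ (-δ)) ht0 a (1 / nr) (z j)
      rw [hint] at r2
      refine r2.trans ?_
      have hpow : (Mo + 2 * (8 / c0 * nr ^ (2 * c + ν / 2 - δ / 2))) ^ (k - 1)
          ≤ (Mo + e + 1) ^ k := by
        refine (pow_le_pow_left₀ (by linarith) (show _ ≤ Mo + e + 1 by linarith) _).trans ?_
        exact pow_le_pow_right₀ (by linarith) (by omega)
      have h5 : 0 ≤ nr ^ (-(5 : ℝ)) := by positivity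
      have h6 : (k : ℝ) * (2 * (8 / c0 * nr ^ (2 * c + ν / 2 - δ / 2))) *
          (Mo + 2 * (8 / c0 * nr ^ (2 * c + ν / 2 - δ / 2))) ^ (k - 1)
          ≤ e * (Mo + e + 1) ^ k :=
        mul_le_mul hdek hpow (by positivity) he0
      linarith
  · intro j
    refine le_trans (le_of_eq ?_) (hmom j)
    refine gm_sub_integral (Fin.last N) (fun X => ((1 / nr) *
      ((Gz 1 (At (1 / nr) (nr ^ (-δ)) a X) (z j)).trace).im) ^ (2 * k)) ?_
    exact (imt_meas94 (1 / nr) (nr ^ (-δ)) ht0 a (1 / nr) (z j)).pow_const _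
  · intro j
    have hk : 1 ≤ k := by
      have := j.2
      omega
    refine le_trans ?_ (num94 k hk nr c δ ν c0 hnge hc hc1 hδ1 hν hc0 hA2)
    refine moment_split (gm (N + 1)) k (fun X => (1 / nr) *
      ((Gz 1 (At (1 / nr) (nr ^ (-δ)) (snocV (n := N + 1) a b) X) (z j)).trace).im
      - (1 / nr) * ((Gz 1 (At (1 / nr) (nr ^ (-δ)) a (subX (Fin.last N) X)) (z j)).trace).im)
      ((hY' j).sub (hY j))
      ({X | nr ^ (c + ν / 2 - δ / 2) < ‖qf (mino (Fin.last N) (Dw τ (fun i =>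
          Real.exp (-(nr ^ (-δ)) / 2) * snocV (n := N + 1) a b i) X))
          (rowv (Fin.last N) (Dw τ (fun i => Real.exp (-(nr ^ (-δ)) / 2) *
            snocV (n := N + 1) a b i) X)) (z j)‖}
        ∪ {X | ¬ ∀ i, Real.sqrt (2 * τ) * |X (i, i)| ≤ c0 / 4})ᶜ
      (8 / c0 * nr ^ (2 * c + ν / 2 - δ / 2)) (nr ^ c) (2 * nr ^ (-(4 * (k : ℝ) + 2)))
      (by positivity) (by positivity) ?_ ?_ ?_
    · intro X hX
      rw [Set.mem_compl_iff, Set.mem_union, not_or] at hX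
      obtain ⟨hX1, hX2⟩ := hX
      simp only [Set.mem_setOf_eq, not_lt, not_not] at hX1 hX2
      refine (hdiff j X).trans ?_
      exact good94 τ (Real.exp (-(nr ^ (-δ)) / 2)) b c0 c ν δ hτ0.le hc0 _
        (by simp only [snoc_last]) X (z j) nr hnge hc hδ1 hν (hz j).1 hb (hz j).2.2.2 hs1 hs2 hX1
        (hX2 (Fin.last N))
    · intro X
      refine (hdiff j X).trans ?_
      have hbt := bord_triv (Fin.last N) (Dw τ (fun i => Real.exp (-(nr ^ (-δ)) / 2) *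
        snocV (n := N + 1) a b i) X) (Dw_symm _ _ _) (z j) (hzpos j)
      calc (1 / nr) * ‖(Rz (Dw τ (fun i => Real.exp (-(nr ^ (-δ)) / 2) *
          snocV (n := N + 1) a b i) X) (z j)).trace
        - (Rz (mino (Fin.last N) (Dw τ (fun i => Real.exp (-(nr ^ (-δ)) / 2) *
          snocV (n := N + 1) a b i) X)) (z j)).trace‖ ≤ (1 / nr) * nr ^ (1 + c) :=
            mul_le_mul_of_nonneg_left (hbt.trans (hinv j)) (by positivity)
        _ = nr ^ c := by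
            rw [Real.rpow_add hnpos, Real.rpow_one]
            field_simp
    · rw [compl_compl]
      refine (measureReal_union_le _ _).trans ?_
      have h1 := hqf (fun i => Real.exp (-(nr ^ (-δ)) / 2) * snocV (n := N + 1) a b i) (z j) (hz j).1
      rw [← hτ] at h1
      linarith

end Pool.Agent.ZR

end

section

/-!
# ZR/MMain : convergence for products of linear statistics

PROOF.  Given `k, φ, E, ε`: `δ = min ε (1-ε)/(8k+24)`, `κ, c0` from `pick`, then (with `k+1` points)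
`c, θ, e0` from `chain_H` (`θ < δ/8 < δ/4`), `e1` from `cmp_U` for `F v = ∏_j φ_j (v_j)` (it is `C¹` with
compact support).  Let `b = n^(-1+ε)`, `QA = (1/(2b)) ∫_x ∫_ω ∏_j linF(vecS (AA ω)) φ_j (n rho x) x ∂P3`.
* `|QH - QA| ≤ sup_{|x-E| ≤ b} |EU ∏ linF(vecP (H0 σ)) φ_j - ∫ ∏ linF(vecS (AA ω)) φ_j|`, and for each such
  `x` (`n` large) apply `smooth_compare` (MComp).
* `QA = ∫ Ufull n F E b (AA ω) ∂P3`, `QG = ∫ Ufull n F E b (Wv ..) ∂gm` (`Ufull_integral`), and `cmp_U`.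
Hence `|QH - QG| ≤ C (n^(-e0) + n^(-3c/8)) + n^(-e1) → 0` along `n = 2m`.
-/


open MeasureTheory ProbabilityTheory Matrix

namespace Pool.Agent.ZR

theorem mm_mom (hF : FMain) (p : ℕ) (ν : ℝ) (hν : 0 < ν) :
    ∃ n0 : ℕ, ∀ n : ℕ, n0 ≤ n → Even n → ∀ y : ℝ, |y| ≤ 2 →
      ∫ σ, (imF n (vecP (H0 σ)) y (1 / (n : ℝ))) ^ p ∂(PU n) ≤ (n : ℝ) ^ ν := by
  obtain ⟨n0, h⟩ := mom_B hF p 0 ν le_rfl hν
  refine ⟨max n0 1, fun n hn hev y hy => ?_⟩
  have hn1 : 1 ≤ n := le_trans (le_max_right _ _) hn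
  have hn0 : (1 : ℝ) ≤ n := by exact_mod_cast hn1
  have h1 := h n (le_trans (le_max_left _ _) hn) hev 1 0 zero_le_one le_rfl (by norm_num) y
    (1 / (n : ℝ)) hy (by rw [sub_zero, Real.rpow_neg_one, one_div])
    (by rw [div_le_one (by linarith)]; exact hn0)
  rw [integral_PU]
  unfold EJ at h1
  simp only [Bm_one_zero] at h1
  have h2 : (p : ℝ) * 0 + ν = ν := by ring
  rw [h2] at h1
  refine le_trans (le_of_eq ?_) h1
  congr 1
  funext σ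
  simp

theorem mm_contDiff {k : ℕ} {φ : Fin k → ℝ → ℝ} (hφ : ∀ j, Tst (φ j)) :
    ContDiff ℝ 1 (fun v : Fin k → ℝ => ∏ j, φ j (v j)) :=
  contDiff_prod fun j _ => (hφ j).1.comp (contDiff_apply ℝ ℝ j)

theorem mm_supp {k : ℕ} {φ : Fin k → ℝ → ℝ} (hφ : ∀ j, Tst (φ j)) :
    HasCompactSupport (fun v : Fin k → ℝ => ∏ j, φ j (v j)) := by
  refine HasCompactSupport.of_support_subset_isCompact
    (isCompact_univ_pi fun j => (hφ j).2.isCompact) ?_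
  intro v hv j _
  have h1 : φ j (v j) ≠ 0 := by
    intro h
    apply hv
    exact Finset.prod_eq_zero (Finset.mem_univ j) h
  exact subset_tsupport _ h1

theorem mm_large {R c0 c1 ε : ℝ} (hc0 : 0 < c0) (hc1 : 0 < c1) (hε1 : ε < 1) :
    ∃ n5 : ℕ, ∀ n : ℕ, n5 ≤ n → 1 ≤ n ∧ R / n + (n : ℝ) ^ (-1 + ε) ≤ c0 / 2 ∧
      (n : ℝ) ^ (-1 + ε) ≤ c1 := by
  have t1 : Filter.Tendsto (fun n : ℕ => R / (n : ℝ)) Filter.atTop (nhds 0) :=
    tendsto_const_div_atTop_nhds_zero_nat R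
  have t2 : Filter.Tendsto (fun n : ℕ => (n : ℝ) ^ (-1 + ε)) Filter.atTop (nhds 0) := by
    have h := (tendsto_rpow_neg_atTop (y := 1 - ε) (by linarith)).comp tendsto_natCast_atTop_atTop
    refine h.congr fun n => ?_
    simp only [Function.comp]
    congr 1
    ring
  have t3 := t1.add t2
  rw [add_zero] at t3
  have e1 := t3.eventually (ge_mem_nhds (show (0 : ℝ) < c0 / 2 by linarith))
  have e2 := t2.eventually (ge_mem_nhds hc1)
  have e3 := (Filter.eventually_ge_atTop 1).and (e1.and e2)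
  obtain ⟨n5, h5⟩ := Filter.eventually_atTop.mp e3
  exact ⟨n5, h5⟩

theorem main_full (h0 : J0) (h1 : J1) (h2 : J2) (h3 : J3) (h4 : J4) (h5 : J5) (hS : KStat)
    (hF : FMain) (hB : BNorm) (hW1 : IW1) (hW2 : IW2) (hC : ICnt) (hG : ICntG) (hH : HH2)
    (hK : KFinal) (hL : LFinal) : MainFull := by
  intro k φ hφ E ε hE1 hE2 hε hε1
  have hmn : 0 < min ε (1 - ε) := lt_min hε (by linarith)
  have hmn1 : min ε (1 - ε) < 1 := lt_of_le_of_lt (min_le_left _ _) hε1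
  have hk0 : (0 : ℝ) ≤ k := Nat.cast_nonneg k
  set δ : ℝ := min ε (1 - ε) / (8 * (k : ℝ) + 24) with hδdef
  have hδ : 0 < δ := by positivity
  have hδs : (8 * (k : ℝ) + 24) * δ ≤ min ε (1 - ε) := by
    rw [hδdef]
    apply le_of_eq
    field_simp
  have hδ1 : δ < 1 := by
    rw [hδdef, div_lt_one (by positivity)]
    linarith
  obtain ⟨κ, c0, hκ, hκ2, hc0, hEc, hk1, hk2⟩ := pick hE1 hE2
  obtain ⟨κ', c1, hκ', hc1, hrho⟩ := rho_lb hE1 hE2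
  obtain ⟨c, θ, e0, hc, hθ, hθ8, he0, n1, hH1⟩ := chain_H h0 h1 h2 h3 hS hF hB hW1 hC hG hH
    (k + 1) E δ κ c0 hδ hδ1 hc0 hEc hκ hκ2 hk1 hk2
  obtain ⟨e1, he1, n2, hcmp⟩ := cmp_U h0 h1 h4 h5 hS hF hC hG hK hL hW2 k
    (fun v => ∏ j, φ j (v j)) (mm_contDiff hφ) (mm_supp hφ) E ε δ κ c0 θ hE1 hE2 hε hε1 hδ hδs
    hc0 hEc hκ hκ2 hθ (by linarith)
  obtain ⟨C, R, hC0, hR, hsm⟩ := smooth_compare φ hφ κ' hκ'
  have hν : 0 < c / 8 := by positivity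
  obtain ⟨n3, hmA⟩ := mom_A h0 h1 h2 h3 hS hF hB hW1 hC hG (k + 1) E δ (c / 8) κ c0 θ hδ hδ1 hν
    hc0 hEc hκ hκ2 hk1 hk2 hθ (by linarith)
  obtain ⟨n4, hmH⟩ := mm_mom hF (k + 1) (c / 8) hν
  obtain ⟨n5, hn5⟩ := mm_large (R := R) hc0 hc1 hε1
  have hbound : ∀ n : ℕ, n1 ≤ n → n2 ≤ n → n3 ≤ n → n4 ≤ n → n5 ≤ n → Even n →
      |QH n φ E ((n : ℝ) ^ (-1 + ε)) - QG n φ E ((n : ℝ) ^ (-1 + ε))|
        ≤ C * ((n : ℝ) ^ (-e0) + (n : ℝ) ^ (-(3 * c / 8))) + (n : ℝ) ^ (-e1) := by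
    intro n hn1 hn2 hn3 hn4 hn5' hev
    obtain ⟨hone, hwin, hwin1⟩ := hn5 n hn5'
    have hn0 : 0 < n := hone
    have hnR : (1 : ℝ) ≤ n := by exact_mod_cast hone
    have hnp : (0 : ℝ) < n := by linarith
    have hb : 0 < (n : ℝ) ^ (-1 + ε) := Real.rpow_pos_of_pos hnp _
    haveI := PU_prob hev
    haveI := P3_prob hev
    set b : ℝ := (n : ℝ) ^ (-1 + ε) with hbdef
    have hx1 : Measurable (fun σ : Pat n => vecP (H0 σ)) := measurable_of_countable _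
    have hx2 := vecS_AA_meas n δ E κ c0 θ
    have hη : 0 < (n : ℝ) ^ (-1 - c) := Real.rpow_pos_of_pos hnp _
    have hnη : (n : ℝ) * (n : ℝ) ^ (-1 - c) = (n : ℝ) ^ (-c) := by
      rw [← Real.rpow_one_add' hnp.le (by linarith)]
      congr 1
      ring
    have hnη1 : (n : ℝ) * (n : ℝ) ^ (-1 - c) ≤ 1 := by
      rw [hnη]
      exact Real.rpow_le_one_of_one_le_of_nonpos hnR (by linarith)
    have hRn : 0 < R / n := by positivity
    have hpt : ∀ x : ℝ, |x - E| ≤ b →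
        |∫ σ, ∏ j, linF (vecP (H0 σ)) (φ j) ((n : ℝ) * rho x) x ∂(PU n)
          - ∫ ω, ∏ j, linF (vecS (AA n δ E κ c0 θ ω)) (φ j) ((n : ℝ) * rho x) x ∂(P3 n)|
        ≤ C * ((n : ℝ) ^ (-e0) + (n : ℝ) ^ (-(3 * c / 8))) := by
      intro x hx
      have hxE : |x - E| ≤ c0 / 2 := by linarith
      have hx2' : |x| ≤ 2 := by
        have := abs_sub_abs_le_abs_sub x E
        linarith
      have key := hsm n (n - 1) n hn0 (Pat n) ((Pat n × Arr n) × Arr n) (PU n) (P3 n)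
        (fun σ => vecP (H0 σ)) (fun ω => vecS (AA n δ E κ c0 θ ω)) hx1 hx2 x (rho x)
        ((n : ℝ) ^ (-1 - c)) ((n : ℝ) ^ (-e0)) ((n : ℝ) ^ (c / 8)) (hrho x (hx.trans hwin1))
        (rho_le_one x) hη hnη1 (Real.rpow_nonneg hnp.le _) ?_ (hmH n hn4 hev x hx2')
        (hmA n hn3 hev x hxE)
      · refine key.trans (le_of_eq ?_)
        rw [hnη, ← Real.rpow_mul hnp.le, ← Real.rpow_add hnp]
        congr 3
        ring
      · intro w hw
        have hwE : ∀ j, |w j - E| ≤ c0 / 2 := by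
          intro j
          have := abs_sub_le (w j) x E
          have := hw j
          linarith
        have := hH1 n hn1 hev w hwE
        rw [← integral_PU] at this
        exact this
    have hQA : ∫ ω, Ufull n (fun v : Fin (k + 1) → ℝ => ∏ j, φ j (v j)) E b
          (AA n δ E κ c0 θ ω) ∂(P3 n)
        = (1 / (2 * b)) * ∫ x in (E - b)..(E + b),
          ∫ ω, ∏ j, linF (vecS (AA n δ E κ c0 θ ω)) (φ j) ((n : ℝ) * rho x) x ∂(P3 n) :=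
      Ufull_integral φ hφ E b hb (P3 n) (fun ω => AA n δ E κ c0 θ ω)
        (fun i j => AA_entry_meas n δ E κ c0 θ i j) (fun ω => AA_symm n δ E κ c0 θ ω)
    have hQG : ∫ X, Ufull n (fun v : Fin (k + 1) → ℝ => ∏ j, φ j (v j)) E b
          (Wv (N := n) (1 / (n : ℝ)) X) ∂(gm n) = QG n φ E b := by
      refine Ufull_integral φ hφ E b hb (gm n) (fun X => Wv (N := n) (1 / (n : ℝ)) X)
        (fun i j => ?_) (fun X => Wv_symm _ X)
      unfold Wv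
      simp only [Matrix.of_apply]
      fun_prop
    have hc2 := hcmp n hn2 hev
    rw [hQG, hQA] at hc2
    have hQH : QH n φ E b = (1 / (2 * b)) * ∫ x in (E - b)..(E + b),
        ∫ σ, ∏ j, linF (vecP (H0 σ)) (φ j) ((n : ℝ) * rho x) x ∂(PU n) := by
      unfold QH
      simp only [integral_PU]
    have hi1 := window_meas (n := n) φ hφ (PU n) (fun σ : Pat n => vecP (H0 σ)) hx1 (E - b) (E + b)
    have hi2 := window_meas (n := n) φ hφ (P3 n) (fun ω => vecS (AA n δ E κ c0 θ ω)) hx2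
      (E - b) (E + b)
    have hd : |QH n φ E b - (1 / (2 * b)) * ∫ x in (E - b)..(E + b),
          ∫ ω, ∏ j, linF (vecS (AA n δ E κ c0 θ ω)) (φ j) ((n : ℝ) * rho x) x ∂(P3 n)|
        ≤ C * ((n : ℝ) ^ (-e0) + (n : ℝ) ^ (-(3 * c / 8))) := by
      rw [hQH, ← mul_sub, ← intervalIntegral.integral_sub hi1 hi2, abs_mul,
        abs_of_pos (show (0 : ℝ) < 1 / (2 * b) by positivity)]
      have hle := intervalIntegral.norm_integral_le_of_norm_le_const (a := E - b) (b := E + b)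
        (C := C * ((n : ℝ) ^ (-e0) + (n : ℝ) ^ (-(3 * c / 8))))
        (f := fun x => (∫ σ, ∏ j, linF (vecP (H0 σ)) (φ j) ((n : ℝ) * rho x) x ∂(PU n))
          - ∫ ω, ∏ j, linF (vecS (AA n δ E κ c0 θ ω)) (φ j) ((n : ℝ) * rho x) x ∂(P3 n))
        (fun x hx => by
          rw [Set.uIoc_of_le (by linarith)] at hx
          rw [Real.norm_eq_abs]
          apply hpt
          rw [abs_le]
          constructor <;> linarith [hx.1, hx.2])
      rw [Real.norm_eq_abs] at hle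
      have e : |E + b - (E - b)| = 2 * b := by
        rw [show E + b - (E - b) = 2 * b by ring, abs_of_pos (by positivity)]
      rw [e] at hle
      calc 1 / (2 * b) * |∫ x in (E - b)..(E + b),
            ((∫ σ, ∏ j, linF (vecP (H0 σ)) (φ j) ((n : ℝ) * rho x) x ∂(PU n))
            - ∫ ω, ∏ j, linF (vecS (AA n δ E κ c0 θ ω)) (φ j) ((n : ℝ) * rho x) x ∂(P3 n))|
          ≤ 1 / (2 * b) * (C * ((n : ℝ) ^ (-e0) + (n : ℝ) ^ (-(3 * c / 8))) * (2 * b)) :=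
            mul_le_mul_of_nonneg_left hle (by positivity)
        _ = C * ((n : ℝ) ^ (-e0) + (n : ℝ) ^ (-(3 * c / 8))) := by
            field_simp
    have := abs_sub_le (QH n φ E b) ((1 / (2 * b)) * ∫ x in (E - b)..(E + b),
          ∫ ω, ∏ j, linF (vecS (AA n δ E κ c0 θ ω)) (φ j) ((n : ℝ) * rho x) x ∂(P3 n))
      (QG n φ E b)
    linarith
  -- conclusion
  have tN : Filter.Tendsto (fun m : ℕ => ((2 * m : ℕ) : ℝ)) Filter.atTop Filter.atTop := by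
    refine tendsto_natCast_atTop_atTop.comp ?_
    exact Filter.tendsto_atTop_mono (fun m => by simp only [id]; omega) Filter.tendsto_id
  have lim : ∀ e : ℝ, 0 < e →
      Filter.Tendsto (fun m : ℕ => ((2 * m : ℕ) : ℝ) ^ (-e)) Filter.atTop (nhds 0) :=
    fun e he => (tendsto_rpow_neg_atTop he).comp tN
  have tA : Filter.Tendsto (fun m : ℕ => C * (((2 * m : ℕ) : ℝ) ^ (-e0)
      + ((2 * m : ℕ) : ℝ) ^ (-(3 * c / 8))) + ((2 * m : ℕ) : ℝ) ^ (-e1)) Filter.atTop (nhds 0) := by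
    have := (((lim e0 he0).add (lim (3 * c / 8) (by positivity))).const_mul C).add (lim e1 he1)
    simpa using this
  refine squeeze_zero_norm' ?_ tA
  filter_upwards [Filter.eventually_ge_atTop (n1 + n2 + n3 + n4 + n5)] with m hm
  rw [Real.norm_eq_abs]
  exact hbound (2 * m) (by omega) (by omega) (by omega) (by omega) (by omega) (even_two_mul m)

end Pool.Agent.ZR

end
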