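import Pool.Agent.ZRM.P21

/-!
# Merged form of the modules ZR.ICa
-/

set_option autoImplicit false

section

/-!
# ZR, part I (helper58): abstract counting theorem, asymptotic form
-/


open MeasureTheory ProbabilityTheory

namespace Pool.Agent.ZR.I

lemma ev_log (ν : ℝ) (hν : 0 < ν) : ∀ᶠ n : ℕ in Filter.atTop, 3 * Real.log n ≤ (n : ℝ) ^ (ν / 2) := by
  have h1 := (isLittleO_log_rpow_atTop (show 0 < ν / 2 by positivity)).def (show (0 : ℝ) < 1 / 3 by norm_num)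
  have h2 := tendsto_natCast_atTop_atTop (R := ℝ) |>.eventually h1
  filter_upwards [h2, Filter.eventually_ge_atTop 1] with n hn h1n
  have hn1 : (1 : ℝ) ≤ n := by exact_mod_cast h1n
  rw [Real.norm_of_nonneg (Real.log_nonneg hn1), Real.norm_of_nonneg (by positivity)] at hn
  linarith

lemma ev_const (ν C : ℝ) (hν : 0 < ν) : ∀ᶠ n : ℕ in Filter.atTop, C ≤ (n : ℝ) ^ ν :=
  ((tendsto_rpow_atTop hν).comp (tendsto_natCast_atTop_atTop (R := ℝ))).eventually_ge_atTop C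

lemma final_num {X L A κ c c0 : ℝ} (hX1 : 1 ≤ X) (hL0 : 0 ≤ L) (hL2 : L ^ 2 ≤ X) (hLX1 : L ≤ X)
    (hκ0 : 0 < κ) (hκ2 : κ ≤ 2) (hAX : A * κ = 10 * X) (hc : 0 ≤ c) (hcc : c ≤ c0)
    (hbig : 4 * (26 + 2 * c0) ≤ X) :
    4 * (L ^ 2 * A + (2 * X ^ 2 * L ^ 2 + L * A) + (X * L) ^ 2 + c) ≤ X ^ 4 / κ := by
  have hX0 : 0 < X := by linarith
  have hXX : X ≤ X ^ 2 := by nlinarith
  have hX23 : X ^ 2 ≤ X ^ 3 := pow_le_pow_right₀ hX1 (by norm_num)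
  have hX31 : 1 ≤ X ^ 3 := one_le_pow₀ hX1
  rw [le_div_iff₀ hκ0]
  have t1 : L ^ 2 * A * κ ≤ 10 * X ^ 3 := by
    calc L ^ 2 * A * κ = L ^ 2 * (10 * X) := by rw [mul_assoc, hAX]
      _ ≤ X * (10 * X) := mul_le_mul_of_nonneg_right hL2 (by positivity)
      _ = 10 * X ^ 2 := by ring
      _ ≤ 10 * X ^ 3 := by linarith
  have t2 : 2 * X ^ 2 * L ^ 2 * κ ≤ 4 * X ^ 3 := by
    calc 2 * X ^ 2 * L ^ 2 * κ ≤ 2 * X ^ 2 * X * 2 := by
          refine mul_le_mul (mul_le_mul_of_nonneg_left hL2 (by positivity)) hκ2 hκ0.le (by positivity)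
      _ = 4 * X ^ 3 := by ring
  have t3 : L * A * κ ≤ 10 * X ^ 3 := by
    calc L * A * κ = L * (10 * X) := by rw [mul_assoc, hAX]
      _ ≤ X * (10 * X) := mul_le_mul_of_nonneg_right hLX1 (by positivity)
      _ = 10 * X ^ 2 := by ring
      _ ≤ 10 * X ^ 3 := by linarith
  have t4 : (X * L) ^ 2 * κ ≤ 2 * X ^ 3 := by
    calc (X * L) ^ 2 * κ = X ^ 2 * L ^ 2 * κ := by ring
      _ ≤ X ^ 2 * X * 2 := by
          refine mul_le_mul (mul_le_mul_of_nonneg_left hL2 (by positivity)) hκ2 hκ0.le (by positivity)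
      _ = 2 * X ^ 3 := by ring
  have hc0 : 0 ≤ c0 := hc.trans hcc
  have t5 : c * κ ≤ 2 * c0 * X ^ 3 := by
    calc c * κ ≤ c0 * 2 := mul_le_mul hcc hκ2 hκ0.le hc0
      _ = 2 * c0 * 1 := by ring
      _ ≤ 2 * c0 * X ^ 3 := mul_le_mul_of_nonneg_left hX31 (by positivity)
  have hfin : 4 * (26 + 2 * c0) * X ^ 3 ≤ X ^ 4 := by
    have : X ^ 4 = X * X ^ 3 := by ring
    rw [this]
    exact mul_le_mul_of_nonneg_right hbig (by positivity)
  have e : 4 * (L ^ 2 * A + (2 * X ^ 2 * L ^ 2 + L * A) + (X * L) ^ 2 + c) * κ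
      = 4 * (L ^ 2 * A * κ + 2 * X ^ 2 * L ^ 2 * κ + L * A * κ + (X * L) ^ 2 * κ + c * κ) := by ring
  rw [e]
  linarith

theorem abs_count (ν : ℝ) (hν : 0 < ν) (hν1 : ν ≤ 1) (K : ℝ) (hK : 0 ≤ K) :
    ∃ n0 : ℕ, 0 < n0 ∧ ∀ n : ℕ, n0 ≤ n → ∀ M : ℕ, M ≤ n → n ≤ M + 1 →
      ∀ (Ω : Type) [MeasurableSpace Ω] (P : Measure Ω) [IsProbabilityMeasure P] (l : Ω → Fin M → ℝ),
        Measurable l →
        (∀ x u : ℝ, |x| ≤ 2 → (n : ℝ) ^ (-1 + ν) ≤ u → u ≤ (n : ℝ) ^ 2 →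
          ∫ ω, ‖(1 / (n : ℂ)) * ∑ i, (1 : ℂ) / ((l ω i : ℂ) - (⟨x, u⟩ : ℂ)) - msc ⟨x, u⟩‖ ^ 2 ∂P
            ≤ (n : ℝ) ^ ν / (n * u) ^ 2 * (1 + 1 / (u + (msc ⟨x, u⟩).im) ^ 2)) →
        Integrable (fun ω => ∑ i, l ω i ^ 2) P → ∫ ω, ∑ i, l ω i ^ 2 ∂P ≤ K * (n : ℝ) ^ 3 →
        ∀ x : ℝ, |x| < 2 →
          ∫ ω, (NN (l ω) x - n * Fsc x) ^ 2 ∂P ≤ (n : ℝ) ^ (4 * ν) / (2 - |x|) := by
  obtain ⟨n1, hn1⟩ := Filter.eventually_atTop.mp ((ev_log ν hν).and (ev_const ν (4 * (26 + 2 * (85 + 2 * (8 + 2 * K)))) hν))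
  refine ⟨max n1 1, by positivity, ?_⟩
  intro n hn M hM hM1 Ω _ P _ l hl hlaw hint hbd x hx
  obtain ⟨hlog, hconst⟩ := hn1 n (le_trans (le_max_left _ _) hn)
  have hnpos : 0 < n := lt_of_lt_of_le one_pos (le_trans (le_max_right _ _) hn)
  have hn1' : (1 : ℝ) ≤ n := by exact_mod_cast hnpos
  have hn0 : (0 : ℝ) < n := by linarith
  set κ : ℝ := 2 - |x| with hκ
  have hκ0 : 0 < κ := by rw [hκ]; linarith
  have hκ2 : κ ≤ 2 := by rw [hκ]; linarith [abs_nonneg x]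
  set η : ℝ := (n : ℝ) ^ (-1 + ν) with hη
  set R : ℝ := (n : ℝ) ^ 2 with hR
  have hηpos : 0 < η := Real.rpow_pos_of_pos hn0 _
  have hη1 : η ≤ 1 := by
    rw [hη]; exact Real.rpow_le_one_of_one_le_of_nonpos hn1' (by linarith)
  have hR1 : 1 ≤ R := one_le_pow₀ hn1'
  have hηR : η ≤ R := hη1.trans hR1
  have hRpos : 0 < R := by linarith
  set A : ℝ := 10 * (n : ℝ) ^ ν / κ with hA
  have hnν : 1 ≤ (n : ℝ) ^ ν := Real.one_le_rpow hn1' hν.le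
  have hA0 : 0 ≤ A := by positivity
  -- local law, normalised
  have hL : ∀ u, η ≤ u → u ≤ R →
      (n : ℝ) ^ 2 * ∫ ω, ‖(1 / (n : ℂ)) * ∑ i, (1 : ℂ) / ((l ω i : ℂ) - (⟨x, u⟩ : ℂ)) - msc ⟨x, u⟩‖ ^ 2 ∂P
        ≤ A / u ^ 2 := by
    intro u hu huR
    have hu0 : 0 < u := lt_of_lt_of_le hηpos hu
    have h1 := hlaw x u hx.le hu huR
    have h2 := sc_low x u hx.le hu0
    have h3 : κ / 8 ≤ (u + (msc (⟨x, u⟩ : ℂ)).im) ^ 2 := by
      refine le_trans ?_ h2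
      rw [hκ]; linarith
    have h4 : 1 / (u + (msc (⟨x, u⟩ : ℂ)).im) ^ 2 ≤ 8 / κ := by
      rw [div_le_div_iff₀ (by linarith [h3, (by positivity : 0 < κ / 8)]) hκ0]
      linarith
    have h5 : 1 + 1 / (u + (msc (⟨x, u⟩ : ℂ)).im) ^ 2 ≤ 10 / κ := by
      have h6 : 1 ≤ 2 / κ := by rw [le_div_iff₀ hκ0]; linarith
      have h7 : (10 : ℝ) / κ = 2 / κ + 8 / κ := by ring
      rw [h7]; linarith
    calc (n : ℝ) ^ 2 * ∫ ω, ‖(1 / (n : ℂ)) * ∑ i, (1 : ℂ) / ((l ω i : ℂ) - (⟨x, u⟩ : ℂ)) - msc ⟨x, u⟩‖ ^ 2 ∂P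
        ≤ (n : ℝ) ^ 2 * ((n : ℝ) ^ ν / (n * u) ^ 2 * (1 + 1 / (u + (msc ⟨x, u⟩).im) ^ 2)) :=
          mul_le_mul_of_nonneg_left h1 (by positivity)
      _ ≤ (n : ℝ) ^ 2 * ((n : ℝ) ^ ν / (n * u) ^ 2 * (10 / κ)) :=
          mul_le_mul_of_nonneg_left (mul_le_mul_of_nonneg_left h5 (by positivity)) (by positivity)
      _ = A / u ^ 2 := by rw [hA]; field_simp
  -- integrability of the squared norm
  have hmint : ∀ u, 0 < u → Integrable (fun ω =>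
      ‖(1 / (n : ℂ)) * ∑ i, (1 : ℂ) / ((l ω i : ℂ) - (⟨x, u⟩ : ℂ)) - msc ⟨x, u⟩‖ ^ 2) P := by
    intro u hu0
    have hms : Measurable (fun ω =>
        ‖(1 / (n : ℂ)) * ∑ i, (1 : ℂ) / ((l ω i : ℂ) - (⟨x, u⟩ : ℂ)) - msc ⟨x, u⟩‖ ^ 2) := by
      refine (Measurable.norm ?_).pow_const 2
      refine (Measurable.const_mul (Finset.measurable_sum _ fun i _ => ?_) _).sub_const _
      refine measurable_const.div ((Complex.measurable_ofReal.comp ((measurable_pi_apply i).comp hl)).sub_const _)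
    refine Integrable.of_bound hms.aestronglyMeasurable ((1 / n * (M / u) + 1) ^ 2)
      (Filter.Eventually.of_forall fun ω => ?_)
    rw [Real.norm_eq_abs, abs_pow, abs_norm]
    refine pow_le_pow_left₀ (norm_nonneg _) ?_ 2
    refine (norm_sub_le _ _).trans (add_le_add ?_ (msc_norm_lt _ (by simpa using hu0.ne')).le)
    rw [norm_mul, norm_div, norm_one, Complex.norm_natCast]
    refine mul_le_mul_of_nonneg_left ?_ (by positivity)
    refine (norm_sum_le _ _).trans ?_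
    have h1 : ∀ i : Fin M, ‖(1 : ℂ) / ((l ω i : ℂ) - (⟨x, u⟩ : ℂ))‖ ≤ 1 / u := by
      intro i
      rw [norm_div, norm_one]
      refine one_div_le_one_div_of_le hu0 ?_
      have h2 := Complex.abs_im_le_norm ((l ω i : ℂ) - (⟨x, u⟩ : ℂ))
      simp only [Complex.sub_im, Complex.ofReal_im, zero_sub, abs_neg] at h2
      rwa [abs_of_pos hu0] at h2
    refine (Finset.sum_le_sum fun i _ => h1 i).trans (le_of_eq ?_)
    simp [div_eq_mul_inv]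
  have h1 : ∀ u, η ≤ u → u ≤ R → ∫ ω, (f1 (l ω) x u + n * (msc ⟨x, u⟩).re) ^ 2 ∂P ≤ A / u ^ 2 := by
    intro u hu huR
    have hu0 : 0 < u := lt_of_lt_of_le hηpos hu
    refine le_trans ?_ (hL u hu huR)
    rw [← integral_const_mul]
    refine integral_mono_of_nonneg (Filter.Eventually.of_forall fun ω => sq_nonneg _)
      ((hmint u hu0).const_mul _) (Filter.Eventually.of_forall fun ω => ?_)
    exact (moments_of_law hnpos (l ω) x u hu0).1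
  have h2 : ∀ u, η ≤ u → u ≤ R → ∫ ω, (u * f2 (l ω) x u) ^ 2 ∂P ≤ 2 * (n : ℝ) ^ 2 + 2 * (A / u ^ 2) := by
    intro u hu huR
    have hu0 : 0 < u := lt_of_lt_of_le hηpos hu
    have h3 : ∫ ω, (u * f2 (l ω) x u) ^ 2 ∂P ≤ ∫ ω, (2 * (n : ℝ) ^ 2 *
        ‖(1 / (n : ℂ)) * ∑ i, (1 : ℂ) / ((l ω i : ℂ) - (⟨x, u⟩ : ℂ)) - msc ⟨x, u⟩‖ ^ 2
          + 2 * (n : ℝ) ^ 2) ∂P := by
      refine integral_mono_of_nonneg (Filter.Eventually.of_forall fun ω => sq_nonneg _)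
        (((hmint u hu0).const_mul _).add (integrable_const _)) (Filter.Eventually.of_forall fun ω => ?_)
      exact (moments_of_law hnpos (l ω) x u hu0).2
    rw [integral_add ((hmint u hu0).const_mul _) (integrable_const _), integral_const_mul] at h3
    have h4 := hL u hu huR
    simp only [integral_const, probReal_univ, smul_eq_mul, one_mul] at h3
    linarith
  -- sums
  have hSle : ∀ ω, (∑ i, |x - l ω i|) ^ 2 ≤ 8 * (n : ℝ) ^ 2 + 2 * n * ∑ i, l ω i ^ 2 := by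
    intro ω
    have h3 : (∑ i, |x - l ω i|) ^ 2 ≤ (Finset.univ : Finset (Fin M)).card * ∑ i, |x - l ω i| ^ 2 :=
      sq_sum_le_card_mul_sum_sq
    rw [Finset.card_univ, Fintype.card_fin] at h3
    have hMn : (M : ℝ) ≤ n := by exact_mod_cast hM
    have h4 : ∑ i, |x - l ω i| ^ 2 ≤ 8 * (M : ℝ) + 2 * ∑ i, l ω i ^ 2 := by
      have h5 : ∀ i : Fin M, |x - l ω i| ^ 2 ≤ 8 + 2 * l ω i ^ 2 := by
        intro i
        rw [sq_abs]
        have h6 : x ^ 2 ≤ 4 := by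
          rw [← sq_abs]; nlinarith [abs_nonneg x]
        nlinarith [sq_nonneg (x + l ω i)]
      refine (Finset.sum_le_sum fun i _ => h5 i).trans (le_of_eq ?_)
      rw [Finset.sum_add_distrib, Finset.mul_sum]
      simp; ring
    have hs0 : 0 ≤ ∑ i, l ω i ^ 2 := Finset.sum_nonneg fun i _ => sq_nonneg _
    have hM0 : (0 : ℝ) ≤ M := Nat.cast_nonneg M
    calc (∑ i, |x - l ω i|) ^ 2 ≤ M * (8 * (M : ℝ) + 2 * ∑ i, l ω i ^ 2) :=
          h3.trans (mul_le_mul_of_nonneg_left h4 hM0)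
      _ ≤ n * (8 * (n : ℝ) + 2 * ∑ i, l ω i ^ 2) := by
          refine mul_le_mul hMn ?_ (by positivity) (by positivity)
          linarith
      _ = _ := by ring
  have hSm : Measurable (fun ω => (∑ i, |x - l ω i|) ^ 2) := by
    refine Measurable.pow_const (Finset.measurable_sum _ fun i _ => ?_) 2
    exact (measurable_const.sub ((measurable_pi_apply i).comp hl)).abs
  have hGi : Integrable (fun ω => 8 * (n : ℝ) ^ 2 + 2 * n * ∑ i, l ω i ^ 2) P :=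
    (integrable_const _).add (hint.const_mul _)
  have hS : Integrable (fun ω => (∑ i, |x - l ω i|) ^ 2) P := by
    refine hGi.mono' hSm.aestronglyMeasurable (Filter.Eventually.of_forall fun ω => ?_)
    rw [Real.norm_eq_abs, abs_of_nonneg (sq_nonneg _)]
    exact hSle ω
  have hSb : ∫ ω, (∑ i, |x - l ω i|) ^ 2 ∂P ≤ (8 + 2 * K) * (n : ℝ) ^ 4 := by
    have h3 := integral_mono hS hGi hSle
    have h3' : ∫ ω, 2 * (n : ℝ) * ∑ i, l ω i ^ 2 ∂P = 2 * n * ∫ ω, ∑ i, l ω i ^ 2 ∂P := integral_const_mul _ _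
    rw [integral_add (integrable_const _) (hint.const_mul _), h3'] at h3
    simp only [integral_const, probReal_univ, smul_eq_mul, one_mul] at h3
    have h4 : (n : ℝ) ^ 2 ≤ (n : ℝ) ^ 4 := pow_le_pow_right₀ hn1' (by norm_num)
    have h5 : 2 * (n : ℝ) * ∫ ω, ∑ i, l ω i ^ 2 ∂P ≤ 2 * n * (K * (n : ℝ) ^ 3) :=
      mul_le_mul_of_nonneg_left hbd (by positivity)
    calc ∫ ω, (∑ i, |x - l ω i|) ^ 2 ∂P ≤ 8 * (n : ℝ) ^ 2 + 2 * n * ∫ ω, ∑ i, l ω i ^ 2 ∂P := h3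
      _ ≤ 8 * (n : ℝ) ^ 4 + 2 * n * (K * (n : ℝ) ^ 3) := by linarith
      _ = _ := by ring
  have key := count_fixed hM hM1 hl P hx.le hηpos hηR hA0 h1 h2 hS
  -- now numbers
  set X : ℝ := (n : ℝ) ^ ν with hX
  have hlogη : Real.log (R / η) ≤ 3 * Real.log n := by
    rw [Real.log_div hRpos.ne' hηpos.ne', hR, hη, Real.log_pow, Real.log_rpow hn0]
    have hln : 0 ≤ Real.log n := Real.log_nonneg hn1'
    push_cast
    nlinarith
  have hL0 : 0 ≤ Real.log (R / η) := Real.log_nonneg (by rw [le_div_iff₀ hηpos, one_mul]; exact hηR)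
  set L := Real.log (R / η) with hLdef
  have hLX : L ≤ (n : ℝ) ^ (ν / 2) := hlogη.trans hlog
  have hL2 : L ^ 2 ≤ X := by
    have h3 : (n : ℝ) ^ (ν / 2) * (n : ℝ) ^ (ν / 2) = X := by
      rw [← Real.rpow_add hn0, hX]; congr 1; ring
    rw [← h3, sq]
    exact mul_le_mul hLX hLX hL0 (by positivity)
  have hLX1 : L ≤ X := by
    refine hLX.trans ?_
    rw [hX]
    exact Real.rpow_le_rpow_of_exponent_le hn1' (by linarith)
  have hnη : (n : ℝ) * η = X := by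
    rw [hη, hX]
    nth_rewrite 1 [← Real.rpow_one (n : ℝ)]
    rw [← Real.rpow_add hn0]; congr 1; ring
  have hX0 : 0 < X := by linarith
  have hX3 : (n : ℝ) ^ (4 * ν) = X ^ 4 := by
    rw [hX, ← Real.rpow_natCast, ← Real.rpow_mul hn0.le]; congr 1; push_cast; ring
  have hc1 : ((M + n) * η / R + 4 * n / R + 1 / 2) ^ 2 ≤ 169 / 4 := by
    have hMn : (M : ℝ) ≤ n := by exact_mod_cast hM
    have h3 : (M + n) * η / R ≤ 2 := by
      rw [div_le_iff₀ hRpos, hR]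
      calc ((M : ℝ) + n) * η ≤ (n + n) * 1 := mul_le_mul (by linarith) hη1 hηpos.le (by positivity)
        _ ≤ 2 * (n : ℝ) ^ 2 := by nlinarith
    have h4 : 4 * n / R ≤ 4 := by
      rw [div_le_iff₀ hRpos, hR]; nlinarith
    have h5 : 0 ≤ (M + n) * η / R := by positivity
    have h6 : 0 ≤ 4 * n / R := by positivity
    nlinarith
  have hc2 : 2 * (∫ ω, (∑ i, |x - l ω i|) ^ 2 ∂P) / R ^ 2 ≤ 2 * (8 + 2 * K) := by
    rw [div_le_iff₀ (by positivity), hR]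
    calc 2 * (∫ ω, (∑ i, |x - l ω i|) ^ 2 ∂P) ≤ 2 * ((8 + 2 * K) * (n : ℝ) ^ 4) := by linarith
      _ = 2 * (8 + 2 * K) * ((n : ℝ) ^ 2) ^ 2 := by ring
  rw [hnη] at key
  have hAX : A * κ = 10 * X := by rw [hA]; field_simp
  have hI0 : 0 ≤ ∫ ω, (∑ i, |x - l ω i|) ^ 2 ∂P := integral_nonneg fun ω => sq_nonneg _
  rw [hX3]
  refine key.trans (final_num (c0 := 85 + 2 * (8 + 2 * K)) hnν hL0 hL2 hLX1 hκ0 hκ2 hAX ?_ ?_ ?_)
  · positivity
  · linarith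
  · linarith

end Pool.Agent.ZR.I

end
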