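import Pool.Agent.ZRM.P16
import Pool.Agent.ZRM.P25

/-!
# Merged form of the modules ZR.ICn, ZR.IWa, ZR.IWb, ZR.IWc
-/

set_option autoImplicit false

section

/-!
# ZR, part I (helper58): the families of eigenvalues on the probability spaces
-/


open MeasureTheory ProbabilityTheory Matrix

namespace Pool.Agent.ZR.I

/-- the spectrum of `Bm α β σ X` on `1^⊥` (0 if the pattern is not admissible) -/
noncomputable def lamP (n : ℕ) (α β : ℝ) (ω : Pat n × Arr n) : Fin (n - 1) → ℝ :=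
  fun i => if ω.1 ∈ Sn n then evp (Bm α β ω.1 ω.2) i else 0

/-- the spectrum of the GOE matrix -/
noncomputable def lamG (n : ℕ) (X : Arr n) : Fin n → ℝ := fun i => evs (Wv (1 / (n : ℝ)) X) i

lemma Bm_entry_meas {n : ℕ} (α β : ℝ) (σ : Pat n) (k l : Fin n) :
    Measurable (fun X : Arr n => Bm α β σ X k l) := by
  have h1 : ∀ i j : Fin n, Measurable (fun X : Arr n => Wv (1 / (n : ℝ)) X i j) := by
    intro i j
    simp only [Wv, Matrix.of_apply]
    fun_prop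
  simp only [Bm, Matrix.add_apply, Matrix.smul_apply, smul_eq_mul, Matrix.mul_apply]
  refine measurable_const.add (Measurable.const_mul (Finset.measurable_sum _ fun i _ => ?_) _)
  refine Measurable.mul_const (Finset.measurable_sum _ fun j _ => ?_) _
  exact (h1 j i).const_mul _

lemma Wv_entry_meas {n : ℕ} (v : ℝ) (k l : Fin n) : Measurable (fun X : Arr n => Wv v X k l) := by
  simp only [Wv, Matrix.of_apply]
  fun_prop

lemma zero_root {n : ℕ} (hn : 0 < n) (α β : ℝ) {σ : Pat n} (hσ : σ ∈ Sn n) (X : Arr n) :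
    (0 : ℝ) ∈ (Bm α β σ X).charpoly.roots :=
  zero_mem_roots hn _ (pb_mulVec_one hn (pb_Bm α β σ hσ X))

lemma Bm_symm' {n : ℕ} (α β : ℝ) {σ : Pat n} (hσ : σ ∈ Sn n) (X : Arr n) : (Bm α β σ X).IsSymm :=
  (pb_Bm α β σ hσ X).bs

lemma lamP_meas {n : ℕ} (hn : 0 < n) (α β : ℝ) : Measurable (lamP n α β) := by
  refine meas_Pat _ fun σ => ?_
  by_cases hσ : σ ∈ Sn n
  · have e : (fun X : Arr n => lamP n α β (σ, X)) = fun X i => evp (Bm α β σ X) (i : Fin (n - 1)) := by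
      funext X i
      exact if_pos hσ
    rw [e]
    exact measurable_pi_lambda _ fun i => measurable_evp (fun X => Bm α β σ X)
      (fun k l => Bm_entry_meas α β σ k l) (fun X => Bm_symm' α β hσ X) (fun X => zero_root hn α β hσ X) i
  · have e : (fun X : Arr n => lamP n α β (σ, X)) = fun _ _ => 0 := by
      funext X i
      exact if_neg hσ
    rw [e]
    exact measurable_const

lemma lamG_meas (n : ℕ) : Measurable (lamG n) :=
  measurable_pi_lambda _ fun i => measurable_evs (fun X => Wv (1 / (n : ℝ)) X)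
    (fun k l => Wv_entry_meas _ k l) (fun X => Wv_symm _ X) i

lemma lamP_of_mem {n : ℕ} {α β : ℝ} {σ : Pat n} (hσ : σ ∈ Sn n) (X : Arr n) (i : Fin (n - 1)) :
    lamP n α β (σ, X) i = evp (Bm α β σ X) i := by
  simp only [lamP, hσ, if_true]

lemma mz_lamP {n : ℕ} (hn : 0 < n) {α β : ℝ} {σ : Pat n} (hσ : σ ∈ Sn n) (X : Arr n) (z : ℂ)
    (hz : z.im ≠ 0) : mz (Pn n) (Bm α β σ X) z
      = (1 / (n : ℂ)) * ∑ i, (1 : ℂ) / ((lamP n α β (σ, X) i : ℂ) - z) := by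
  rw [mz_Pn_roots hn _ (pb_Bm α β σ hσ X) z hz, sum_erase _ (Bm_symm' α β hσ X) (zero_root hn α β hσ X),
    Finset.sum_range]
  congr 1
  exact Finset.sum_congr rfl fun i _ => by rw [lamP_of_mem hσ X i]

lemma mz_lamG {n : ℕ} (X : Arr n) (z : ℂ) (hz : z.im ≠ 0) :
    mz 1 (Wv (1 / (n : ℝ)) X) z = (1 / (n : ℂ)) * ∑ i, (1 : ℂ) / ((lamG n X i : ℂ) - z) := by
  rw [mz_one_roots _ (Wv_symm _ X) z hz, sum_roots _ (Wv_symm _ X)]
  rfl

lemma cntP_NN {n : ℕ} (hn : 0 < n) {α β : ℝ} {σ : Pat n} (hσ : σ ∈ Sn n) (X : Arr n) (x : ℝ) :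
    (cntP (Bm α β σ X) x : ℝ) = NN (lamP n α β (σ, X)) x := by
  have hs := Bm_symm' α β hσ X
  have h0 := zero_root hn α β hσ X
  have h1 : cntP (Bm α β σ X) x = ((Finset.range (n - 1)).filter (fun i => evp (Bm α β σ X) i ≤ x)).card := by
    unfold cntP
    rw [rootsP_eq _ hs h0, Multiset.countP_map]
    rfl
  rw [h1, Finset.card_filter]
  unfold NN
  push_cast
  rw [Finset.sum_range]
  exact Finset.sum_congr rfl fun i _ => by rw [lamP_of_mem hσ X i]

lemma cnt_NN {n : ℕ} (X : Arr n) (x : ℝ) :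
    (cnt (Wv (1 / (n : ℝ)) X) x : ℝ) = NN (lamG n X) x := by
  rw [cnt_eq _ (Wv_symm _ X), Finset.card_filter]
  unfold NN
  push_cast
  rfl

/-- boundedness and measurability of the normalised Stieltjes transform -/
lemma mint {Ω : Type*} [MeasurableSpace Ω] (P : Measure Ω) [IsFiniteMeasure P] {M n : ℕ}
    {l : Ω → Fin M → ℝ} (hl : Measurable l) (x u : ℝ) (hu0 : 0 < u) :
    Integrable (fun ω =>
      ‖(1 / (n : ℂ)) * ∑ i, (1 : ℂ) / ((l ω i : ℂ) - (⟨x, u⟩ : ℂ)) - msc ⟨x, u⟩‖ ^ 2) P := by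
  have hms : Measurable (fun ω =>
      ‖(1 / (n : ℂ)) * ∑ i, (1 : ℂ) / ((l ω i : ℂ) - (⟨x, u⟩ : ℂ)) - msc ⟨x, u⟩‖ ^ 2) := by
    refine (Measurable.norm ?_).pow_const 2
    refine (Measurable.const_mul (Finset.measurable_sum _ fun i _ => ?_) _).sub_const _
    refine measurable_const.div ((Complex.measurable_ofReal.comp ((measurable_pi_apply i).comp hl)).sub_const _)
  refine Integrable.of_bound hms.aestronglyMeasurable ((1 / n * (M / u) + 1) ^ 2)
    (Filter.Eventually.of_forall fun ω => ?_)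
  rw [Real.norm_eq_abs, abs_pow, abs_norm]
  refine pow_le_pow_left₀ (norm_nonneg _) ?_ 2
  refine (norm_sub_le _ _).trans (add_le_add ?_ (msc_norm_lt _ (by simpa using hu0.ne')).le)
  rw [norm_mul, norm_div, norm_one, Complex.norm_natCast]
  refine mul_le_mul_of_nonneg_left ?_ (by positivity)
  refine (norm_sum_le _ _).trans ?_
  have h1 : ∀ i : Fin M, ‖(1 : ℂ) / ((l ω i : ℂ) - (⟨x, u⟩ : ℂ))‖ ≤ 1 / u := by
    intro i
    rw [norm_div, norm_one]
    refine one_div_le_one_div_of_le hu0 ?_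
    have h2 := Complex.abs_im_le_norm ((l ω i : ℂ) - (⟨x, u⟩ : ℂ))
    simp only [Complex.sub_im, Complex.ofReal_im, zero_sub, abs_neg] at h2
    rwa [abs_of_pos hu0] at h2
  refine (Finset.sum_le_sum fun i _ => h1 i).trans (le_of_eq ?_)
  simp [div_eq_mul_inv]

lemma EJ_congr {n : ℕ} {V : Type*} [NormedAddCommGroup V] [NormedSpace ℝ V]
    {F G : Pat n → Arr n → V} (h : ∀ σ ∈ Sn n, ∀ X, F σ X = G σ X) : EJ F = EJ G := by
  unfold EJ EU
  congr 1
  refine Finset.sum_congr rfl fun σ hσ => ?_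
  exact integral_congr_ae (Filter.Eventually.of_forall fun X => h σ hσ X)

/-- second moment of the spectrum of `Bm` -/
lemma lamP_sq_int {n : ℕ} (hn : 0 < n) (he : Even n) (α β : ℝ) (hαβ : α ^ 2 + β ^ 2 = 1) :
    Integrable (fun ω : Pat n × Arr n => ∑ i, lamP n α β ω i ^ 2) (P2 n) ∧
      ∫ ω : Pat n × Arr n, ∑ i, lamP n α β ω i ^ 2 ∂(P2 n) ≤ 6 * (n : ℝ) ^ 3 := by
  have hn1 : (1 : ℝ) ≤ n := by exact_mod_cast hn
  have hα : α ^ 2 ≤ 1 := by nlinarith [sq_nonneg β]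
  have hβ : β ^ 2 ≤ 1 := by nlinarith [sq_nonneg α]
  have hsec : ∀ σ ∈ Sn n, ∀ X, ∑ i, lamP n α β (σ, X) i ^ 2
      ≤ 2 * n + 2 * ∑ i, ∑ j, (Wv (1 / (n : ℝ)) X i j) ^ 2 := by
    intro σ hσ X
    have h1 : ∑ i, lamP n α β (σ, X) i ^ 2 = ∑ i, ∑ j, (Bm α β σ X i j) ^ 2 := by
      rw [← evp_sq (Bm α β σ X) (Bm_symm' α β hσ X) (zero_root hn α β hσ X)]
      exact Finset.sum_congr rfl fun i _ => by rw [lamP_of_mem hσ X i]
    rw [h1]
    have h2 := Bm_sq hn α β σ X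
    have h3 : 0 ≤ ∑ i, ∑ j, (Wv (1 / (n : ℝ)) X i j) ^ 2 :=
      Finset.sum_nonneg fun i _ => Finset.sum_nonneg fun j _ => sq_nonneg _
    nlinarith
  have hGi : Integrable (fun X : Arr n => 2 * (n : ℝ) + 2 * ∑ i, ∑ j, (Wv (1 / (n : ℝ)) X i j) ^ 2) (gm n) :=
    (integrable_const _).add ((trW_int n).const_mul 2)
  have hsm : ∀ σ : Pat n, Measurable (fun X : Arr n => ∑ i, lamP n α β (σ, X) i ^ 2) := by
    intro σ
    refine Finset.measurable_sum _ fun i _ => Measurable.pow_const ?_ 2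
    exact (measurable_pi_apply i).comp ((lamP_meas hn α β).comp measurable_prodMk_left)
  have hsi : ∀ σ ∈ Sn n, Integrable (fun X : Arr n => ∑ i, lamP n α β (σ, X) i ^ 2) (gm n) := by
    intro σ hσ
    refine hGi.mono' (hsm σ).aestronglyMeasurable (Filter.Eventually.of_forall fun X => ?_)
    rw [Real.norm_eq_abs, abs_of_nonneg (Finset.sum_nonneg fun i _ => sq_nonneg _)]
    exact hsec σ hσ X
  constructor
  · exact integrable_P2 he (fun σ X => ∑ i, lamP n α β (σ, X) i ^ 2) hsi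
  · have h1 := integral_P2 he (fun σ X => ∑ i, lamP n α β (σ, X) i ^ 2) hsi
    have h2 : ∫ ω : Pat n × Arr n, ∑ i, lamP n α β ω i ^ 2 ∂(P2 n)
        = EJ (fun σ X => ∑ i, lamP n α β (σ, X) i ^ 2) := h1
    rw [h2]
    have hcard : (0 : ℝ) < (Sn n).card := by exact_mod_cast Finset.card_pos.mpr (Sn_nonempty he)
    have h3 : ∀ σ ∈ Sn n, ∫ X, ∑ i, lamP n α β (σ, X) i ^ 2 ∂(gm n) ≤ 6 * (n : ℝ) ^ 3 := by
      intro σ hσ
      have h4 := integral_mono (hsi σ hσ) hGi (hsec σ hσ)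
      have h4' : ∫ X : Arr n, (2 * (n : ℝ) + 2 * ∑ i, ∑ j, (Wv (1 / (n : ℝ)) X i j) ^ 2) ∂(gm n)
          = 2 * n + 2 * (n + 1) := by
        rw [integral_add (integrable_const _) ((trW_int n).const_mul 2), integral_const,
          integral_const_mul 2 (fun X : Arr n => ∑ i, ∑ j, (Wv (1 / (n : ℝ)) X i j) ^ 2), trW_mean n hn]
        simp
      have h4'' : ∫ X, ∑ i, lamP n α β (σ, X) i ^ 2 ∂(gm n) ≤ 2 * n + 2 * (n + 1) := by
        rw [← h4']; exact h4
      have h5 : (n : ℝ) ≤ (n : ℝ) ^ 3 := by nlinarith [sq_nonneg ((n : ℝ) - 1), mul_pos (by linarith : (0:ℝ) < n) (by linarith : (0:ℝ) < n)]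
      have h6 : (1 : ℝ) ≤ (n : ℝ) ^ 3 := one_le_pow₀ hn1
      linarith
    unfold EJ EU
    rw [smul_eq_mul, inv_mul_le_iff₀ hcard]
    calc ∑ σ ∈ Sn n, ∫ X, ∑ i, lamP n α β (σ, X) i ^ 2 ∂(gm n) ≤ ∑ σ ∈ Sn n, 6 * (n : ℝ) ^ 3 :=
          Finset.sum_le_sum h3
      _ = (Sn n).card * (6 * (n : ℝ) ^ 3) := by rw [Finset.sum_const, nsmul_eq_mul]

lemma lamG_sq_int {n : ℕ} (hn : 0 < n) :
    Integrable (fun X : Arr n => ∑ i, lamG n X i ^ 2) (gm n) ∧
      ∫ X : Arr n, ∑ i, lamG n X i ^ 2 ∂(gm n) ≤ 6 * (n : ℝ) ^ 3 := by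
  have hn1 : (1 : ℝ) ≤ n := by exact_mod_cast hn
  have h1 : ∀ X : Arr n, ∑ i, lamG n X i ^ 2 = ∑ i, ∑ j, (Wv (1 / (n : ℝ)) X i j) ^ 2 := fun X =>
    evs_sq _ (Wv_symm _ X)
  simp_rw [h1]
  refine ⟨trW_int n, ?_⟩
  rw [trW_mean n hn]
  have h6 : (1 : ℝ) ≤ (n : ℝ) ^ 3 := one_le_pow₀ hn1
  have h5 : (n : ℝ) ≤ (n : ℝ) ^ 3 := by nlinarith [sq_nonneg ((n : ℝ) - 1), mul_pos (by linarith : (0:ℝ) < n) (by linarith : (0:ℝ) < n)]
  linarith

/-- ICnt on the product space -/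
theorem icnt_P2 (hH : HH1) (ν : ℝ) (hν : 0 < ν) (hν1 : ν ≤ 1) :
    ∃ n0 : ℕ, 0 < n0 ∧ ∀ n : ℕ, n0 ≤ n → Even n → ∀ α β : ℝ, 0 ≤ α → 0 ≤ β → α ^ 2 + β ^ 2 = 1 →
      ∀ x : ℝ, |x| < 2 →
        ∫ ω, (NN (lamP n α β ω) x - n * Fsc x) ^ 2 ∂(P2 n) ≤ (n : ℝ) ^ (4 * ν) / (2 - |x|) := by
  obtain ⟨n1, hn1, habs⟩ := abs_count ν hν hν1 6 (by norm_num)
  obtain ⟨n2, hH⟩ := hH ν hν
  refine ⟨max n1 n2, lt_of_lt_of_le hn1 (le_max_left _ _), ?_⟩
  intro n hn he α β hα hβ hαβ x hx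
  have hnpos : 0 < n := lt_of_lt_of_le hn1 (le_trans (le_max_left _ _) hn)
  have hn0 : (0 : ℝ) < n := by exact_mod_cast hnpos
  have := P2_prob he
  refine habs n (le_trans (le_max_left _ _) hn) (n - 1) (Nat.sub_le _ _) (by omega)
    (Pat n × Arr n) (P2 n) (lamP n α β) (lamP_meas hnpos α β) ?_ (lamP_sq_int hnpos he α β hαβ).1
    (lamP_sq_int hnpos he α β hαβ).2 x hx
  intro x u hx hu huR
  have hu0 : 0 < u := lt_of_lt_of_le (Real.rpow_pos_of_pos hn0 _) hu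
  have h1 := hH n (le_trans (le_max_right _ _) hn) he α β hα hβ hαβ ⟨x, u⟩ hu huR hx
  have h2 := integral_P2 he (fun σ X =>
    ‖(1 / (n : ℂ)) * ∑ i, (1 : ℂ) / ((lamP n α β (σ, X) i : ℂ) - (⟨x, u⟩ : ℂ)) - msc ⟨x, u⟩‖ ^ 2)
    (fun σ _ => mint (gm n) (l := fun X => lamP n α β (σ, X))
      ((lamP_meas hnpos α β).comp measurable_prodMk_left) x u hu0)
  have h3 : EJ (fun σ X =>
      ‖(1 / (n : ℂ)) * ∑ i, (1 : ℂ) / ((lamP n α β (σ, X) i : ℂ) - (⟨x, u⟩ : ℂ)) - msc ⟨x, u⟩‖ ^ 2)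
      = EJ (n := n) (fun σ X => ‖mz (Pn n) (Bm α β σ X) ⟨x, u⟩ - msc ⟨x, u⟩‖ ^ 2) :=
    EJ_congr fun σ hσ X => by rw [mz_lamP hnpos hσ X _ (by simpa using hu0.ne')]
  rw [h3] at h2
  calc ∫ ω, ‖(1 / (n : ℂ)) * ∑ i, (1 : ℂ) / ((lamP n α β ω i : ℂ) - (⟨x, u⟩ : ℂ)) - msc ⟨x, u⟩‖ ^ 2 ∂(P2 n)
      = EJ (n := n) (fun σ X => ‖mz (Pn n) (Bm α β σ X) ⟨x, u⟩ - msc ⟨x, u⟩‖ ^ 2) := h2
    _ ≤ _ := h1

theorem iCnt (hH : HH1) : ICnt := by
  intro ν hν
  obtain ⟨n0, hn0, h⟩ := icnt_P2 hH (min ν 1 / 4) (by positivity) (by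
    have := min_le_right ν 1; linarith)
  refine ⟨n0, fun n hn he α β hα hβ hαβ x hx => ?_⟩
  have hnpos : 0 < n := lt_of_lt_of_le hn0 hn
  have hn1 : (1 : ℝ) ≤ n := by exact_mod_cast hnpos
  have h1 := h n hn he α β hα hβ hαβ x hx
  have hm : ∀ σ : Pat n, Measurable (fun X : Arr n => (NN (lamP n α β (σ, X)) x - n * Fsc x) ^ 2) := fun σ =>
    ((NN_meas ((lamP_meas hnpos α β).comp measurable_prodMk_left) x).sub_const _).pow_const 2
  have hsec : ∀ σ ∈ Sn n, Integrable (fun X : Arr n => (NN (lamP n α β (σ, X)) x - n * Fsc x) ^ 2) (gm n) := by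
    intro σ _
    refine Integrable.of_bound (hm σ).aestronglyMeasurable ((((n - 1 : ℕ) : ℝ) + |n * Fsc x|) ^ 2)
      (Filter.Eventually.of_forall fun X => ?_)
    rw [Real.norm_eq_abs, abs_pow]
    refine pow_le_pow_left₀ (abs_nonneg _) ((abs_sub _ _).trans (add_le_add ?_ le_rfl)) 2
    rw [abs_of_nonneg (NN_nonneg _ _)]
    exact NN_le _ _
  have h2 := integral_P2 he (fun σ X => (NN (lamP n α β (σ, X)) x - n * Fsc x) ^ 2) hsec
  have h3 : EJ (fun σ X => (NN (lamP n α β (σ, X)) x - n * Fsc x) ^ 2)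
      = EJ (n := n) (fun σ X => ((cntP (Bm α β σ X) x : ℝ) - n * Fsc x) ^ 2) :=
    EJ_congr fun σ hσ X => by rw [cntP_NN hnpos hσ X]
  rw [h3] at h2
  rw [← h2]
  refine h1.trans ?_
  refine div_le_div_of_nonneg_right ?_ (by linarith)
  refine Real.rpow_le_rpow_of_exponent_le hn1 ?_
  have := min_le_left ν 1
  linarith

theorem icntG' (hE : EMainG) (ν : ℝ) (hν : 0 < ν) (hν1 : ν ≤ 1) :
    ∃ n0 : ℕ, 0 < n0 ∧ ∀ n : ℕ, n0 ≤ n → ∀ x : ℝ, |x| < 2 →
        ∫ X, (NN (lamG n X) x - n * Fsc x) ^ 2 ∂(gm n) ≤ (n : ℝ) ^ (4 * ν) / (2 - |x|) := by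
  obtain ⟨n1, hn1, habs⟩ := abs_count ν hν hν1 6 (by norm_num)
  obtain ⟨C, hC0, hE⟩ := hE 1
  obtain ⟨n2, hn2⟩ := Filter.eventually_atTop.mp (ev_const ν C hν)
  refine ⟨max n1 n2, lt_of_lt_of_le hn1 (le_max_left _ _), ?_⟩
  intro n hn x hx
  have hnpos : 0 < n := lt_of_lt_of_le hn1 (le_trans (le_max_left _ _) hn)
  have hn0 : (0 : ℝ) < n := by exact_mod_cast hnpos
  have hn1' : (1 : ℝ) ≤ n := by exact_mod_cast hnpos
  have hCn : C ≤ (n : ℝ) ^ ν := hn2 n (le_trans (le_max_right _ _) hn)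
  have : IsProbabilityMeasure (gm n) := instProbGmM n
  refine habs n (le_trans (le_max_left _ _) hn) n le_rfl (by omega)
    (Arr n) (gm n) (lamG n) (lamG_meas n) ?_ (lamG_sq_int hnpos).1 (lamG_sq_int hnpos).2 x hx
  intro x u hx hu huR
  have hu0 : 0 < u := lt_of_lt_of_le (Real.rpow_pos_of_pos hn0 _) hu
  have hznz : (⟨x, u⟩ : ℂ).im ≠ 0 := by simpa using hu0.ne'
  have hnu : 1 ≤ n * u := by
    have h1 : (n : ℝ) * (n : ℝ) ^ (-1 + ν) = (n : ℝ) ^ ν := by
      nth_rewrite 1 [← Real.rpow_one (n : ℝ)]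
      rw [← Real.rpow_add hn0]; congr 1; ring
    calc (1 : ℝ) ≤ (n : ℝ) ^ ν := Real.one_le_rpow hn1' hν.le
      _ = (n : ℝ) * (n : ℝ) ^ (-1 + ν) := h1.symm
      _ ≤ n * u := mul_le_mul_of_nonneg_left hu hn0.le
  have h1 := hE n hnpos ⟨x, u⟩ hu0 (by simp only; linarith) hnu
  set z : ℂ := ⟨x, u⟩ with hz
  have hzi : z.im = u := rfl
  set a : ℝ := u + (msc z).im with ha
  have ha0 : 0 < a := by
    have := msc_im_pos z hu0
    rw [ha]; linarith
  set m : Arr n → ℂ := fun X => mz 1 (Wv (N := n) (1 / (n : ℝ)) X) z with hm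
  have hme : ∀ X, m X = (1 / (n : ℂ)) * ∑ i, (1 : ℂ) / ((lamG n X i : ℂ) - z) := fun X => mz_lamG X z hznz
  have hpt : ∀ X, ‖m X - msc z‖ ^ 2 ≤ (1 / a ^ 2) * ‖1 + z * m X + m X ^ 2‖ ^ (2 * 1) := by
    intro X
    have h2 := stab z (m X) hu0 (mz_im_nonneg (pb_one _ (Wv_symm _ X)) z hu0)
    rw [hzi] at h2
    have h3 := pow_le_pow_left₀ (norm_nonneg _) h2 2
    refine h3.trans (le_of_eq ?_)
    rw [div_pow, mul_one, ← ha]
    ring
  have hmm : Measurable m := by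
    have : m = fun X => (1 / (n : ℂ)) * ∑ i, (1 : ℂ) / ((lamG n X i : ℂ) - z) := funext hme
    rw [this]
    refine Measurable.const_mul (Finset.measurable_sum _ fun i _ => ?_) _
    exact measurable_const.div ((Complex.measurable_ofReal.comp
      ((measurable_pi_apply i).comp (lamG_meas n))).sub_const _)
  have hmb : ∀ X, ‖m X‖ ≤ 1 / u := by
    intro X
    have := mz_norm_le (pb_one _ (Wv_symm (1 / (n : ℝ)) X)) z hznz
    rwa [hzi, abs_of_pos hu0] at this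
  have hGi : Integrable (fun X => (1 / a ^ 2) * ‖1 + z * m X + m X ^ 2‖ ^ (2 * 1)) (gm n) := by
    refine Integrable.const_mul ?_ _
    refine Integrable.of_bound ?_ ((1 + ‖z‖ * (1 / u) + (1 / u) ^ 2) ^ (2 * 1))
      (Filter.Eventually.of_forall fun X => ?_)
    · exact (((measurable_const.add (measurable_const.mul hmm)).add (hmm.pow_const 2)).norm.pow_const _).aestronglyMeasurable
    · rw [Real.norm_eq_abs, abs_pow, abs_norm]
      refine pow_le_pow_left₀ (norm_nonneg _) ?_ _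
      refine (norm_add_le _ _).trans (add_le_add ((norm_add_le _ _).trans (add_le_add ?_ ?_)) ?_)
      · simp
      · rw [norm_mul]; exact mul_le_mul_of_nonneg_left (hmb X) (norm_nonneg _)
      · rw [norm_pow]; exact pow_le_pow_left₀ (norm_nonneg _) (hmb X) 2
  have h4 : ∫ X, ‖m X - msc z‖ ^ 2 ∂(gm n) ≤ (1 / a ^ 2) * (C / (n * u) ^ 2) := by
    calc ∫ X, ‖m X - msc z‖ ^ 2 ∂(gm n)
        ≤ ∫ X, (1 / a ^ 2) * ‖1 + z * m X + m X ^ 2‖ ^ (2 * 1) ∂(gm n) :=
          integral_mono_of_nonneg (Filter.Eventually.of_forall fun X => by positivity) hGi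
            (Filter.Eventually.of_forall hpt)
      _ = (1 / a ^ 2) * ∫ X, ‖1 + z * m X + m X ^ 2‖ ^ (2 * 1) ∂(gm n) := integral_const_mul _ _
      _ ≤ (1 / a ^ 2) * (C / (n * u) ^ 2) := by
          refine mul_le_mul_of_nonneg_left ?_ (by positivity)
          have h5 := h1
          rw [mul_one] at h5 ⊢
          exact h5
  have h5 : ∫ ω, ‖(1 / (n : ℂ)) * ∑ i, (1 : ℂ) / ((lamG n ω i : ℂ) - z) - msc z‖ ^ 2 ∂(gm n)
      = ∫ X, ‖m X - msc z‖ ^ 2 ∂(gm n) := by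
    refine integral_congr_ae (Filter.Eventually.of_forall fun X => ?_)
    simp only [hme]
  rw [h5]
  refine h4.trans ?_
  have h6 : 0 < (n * u) ^ 2 := by positivity
  calc (1 / a ^ 2) * (C / (n * u) ^ 2) ≤ (1 / a ^ 2) * ((n : ℝ) ^ ν / (n * u) ^ 2) :=
        mul_le_mul_of_nonneg_left (div_le_div_of_nonneg_right hCn h6.le) (by positivity)
    _ ≤ (n : ℝ) ^ ν / (n * u) ^ 2 * (1 + 1 / a ^ 2) := by
        have h7 : 0 ≤ (n : ℝ) ^ ν / (n * u) ^ 2 := by positivity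
        nlinarith

theorem iCntG (hE : EMainG) : ICntG := by
  intro ν hν
  obtain ⟨n0, hn0, h⟩ := icntG' hE (min ν 1 / 4) (by positivity) (by
    have := min_le_right ν 1; linarith)
  refine ⟨n0, fun n hn x hx => ?_⟩
  have hnpos : 0 < n := lt_of_lt_of_le hn0 hn
  have hn1 : (1 : ℝ) ≤ n := by exact_mod_cast hnpos
  have h1 := h n hn x hx
  have h2 : ∫ X, ((cnt (Wv (N := n) (1 / (n : ℝ)) X) x : ℝ) - n * Fsc x) ^ 2 ∂(gm n)
      = ∫ X, (NN (lamG n X) x - n * Fsc x) ^ 2 ∂(gm n) :=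
    integral_congr_ae (Filter.Eventually.of_forall fun X => by simp only [cnt_NN])
  rw [h2]
  refine h1.trans ?_
  refine div_le_div_of_nonneg_right ?_ (by linarith)
  refine Real.rpow_le_rpow_of_exponent_le hn1 ?_
  have := min_le_left ν 1
  linarith

end Pool.Agent.ZR.I

end

section

/-!
# ZR, part I (helper58): total transport distance (IW1)
-/


open MeasureTheory ProbabilityTheory Matrix

namespace Pool.Agent.ZR.I

/-! ### the weight -/

/-- the weight `(2-t)^{-1/2} + (2+t)^{-1/2}` -/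
noncomputable def wt (t : ℝ) : ℝ := (2 - t) ^ (-(1 / 2) : ℝ) + (2 + t) ^ (-(1 / 2) : ℝ)

lemma wt_int1 : IntervalIntegrable (fun t : ℝ => (2 - t) ^ (-(1 / 2) : ℝ)) volume (-2) 2 ∧
    ∫ t in (-2 : ℝ)..2, (2 - t) ^ (-(1 / 2) : ℝ) = 4 := by
  constructor
  · have h := (intervalIntegral.intervalIntegrable_rpow' (a := 4) (b := 0) (r := -(1 / 2)) (by norm_num)).comp_sub_left 2
    have e1 : (2 : ℝ) - 4 = -2 := by norm_num
    have e2 : (2 : ℝ) - 0 = 2 := by norm_num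
    rw [e1, e2] at h
    exact h
  · rw [intervalIntegral.integral_comp_sub_left (fun s => s ^ (-(1 / 2) : ℝ)) 2, integral_rpow (Or.inl (by norm_num))]
    norm_num

lemma wt_int2 : IntervalIntegrable (fun t : ℝ => (2 + t) ^ (-(1 / 2) : ℝ)) volume (-2) 2 ∧
    ∫ t in (-2 : ℝ)..2, (2 + t) ^ (-(1 / 2) : ℝ) = 4 := by
  constructor
  · have h := (intervalIntegral.intervalIntegrable_rpow' (a := 0) (b := 4) (r := -(1 / 2)) (by norm_num)).comp_add_left 2
    have e1 : (0 : ℝ) - 2 = -2 := by norm_num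
    have e2 : (4 : ℝ) - 2 = 2 := by norm_num
    rw [e1, e2] at h
    exact h
  · rw [intervalIntegral.integral_comp_add_left (fun s => s ^ (-(1 / 2) : ℝ)) 2, integral_rpow (Or.inl (by norm_num))]
    norm_num

lemma wt_ii : IntervalIntegrable wt volume (-2) 2 := wt_int1.1.add wt_int2.1

lemma wt_integral : ∫ t in (-2 : ℝ)..2, wt t = 8 := by
  unfold wt
  rw [intervalIntegral.integral_add wt_int1.1 wt_int2.1, wt_int1.2, wt_int2.2]
  norm_num

lemma wt_measurable : Measurable wt := by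
  unfold wt
  fun_prop

lemma wt_lower {t : ℝ} (ht : t ∈ Set.Ioo (-2 : ℝ) 2) : 1 ≤ wt t := by
  have h1 : (1 : ℝ) / 2 = (4 : ℝ) ^ (-(1 / 2) : ℝ) := by
    rw [Real.rpow_neg (by norm_num), ← Real.sqrt_eq_rpow, show (4 : ℝ) = 2 ^ 2 by norm_num,
      Real.sqrt_sq (by norm_num)]
    norm_num
  have h2 : (4 : ℝ) ^ (-(1 / 2) : ℝ) ≤ (2 - t) ^ (-(1 / 2) : ℝ) :=
    Real.rpow_le_rpow_of_nonpos (by linarith [ht.2]) (by linarith [ht.1]) (by norm_num)
  have h3 : (4 : ℝ) ^ (-(1 / 2) : ℝ) ≤ (2 + t) ^ (-(1 / 2) : ℝ) :=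
    Real.rpow_le_rpow_of_nonpos (by linarith [ht.1]) (by linarith [ht.2]) (by norm_num)
  unfold wt
  linarith

lemma wt_sq {t : ℝ} (ht : t ∈ Set.Ioo (-2 : ℝ) 2) : 1 / (2 - |t|) ≤ wt t ^ 2 := by
  have hp1 : 0 < 2 - t := by linarith [ht.2]
  have hp2 : 0 < 2 + t := by linarith [ht.1]
  have key : ∀ s : ℝ, 0 < s → (s ^ (-(1 / 2) : ℝ)) ^ 2 = 1 / s := by
    intro s hs
    rw [← Real.rpow_natCast, ← Real.rpow_mul hs.le, one_div s, ← Real.rpow_neg_one s]
    congr 1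
    norm_num
  have n1 : 0 ≤ (2 - t) ^ (-(1 / 2) : ℝ) := Real.rpow_nonneg hp1.le _
  have n2 : 0 ≤ (2 + t) ^ (-(1 / 2) : ℝ) := Real.rpow_nonneg hp2.le _
  have k1 := key _ hp1
  have k2 := key _ hp2
  rcases le_total 0 t with h | h
  · rw [abs_of_nonneg h, ← k1]
    unfold wt
    exact pow_le_pow_left₀ n1 (by linarith) 2
  · rw [abs_of_nonpos h, sub_neg_eq_add, ← k2]
    unfold wt
    exact pow_le_pow_left₀ n2 (by linarith) 2

/-! ### integrated deviation of the counting function -/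

/-- `∫_{-2}^{2} |NN l - n F|` -/
noncomputable def Idev {M : ℕ} (n : ℕ) (l : Fin M → ℝ) : ℝ := ∫ t in (-2 : ℝ)..2, |NN l t - n * Fsc t|

lemma NN_meas2 {Ω : Type*} [MeasurableSpace Ω] {M : ℕ} {l : Ω → Fin M → ℝ} (hl : Measurable l) :
    Measurable (fun p : ℝ × Ω => NN (l p.2) p.1) := by
  unfold NN
  refine Finset.measurable_sum _ fun i _ => ?_
  exact Measurable.ite (measurableSet_le ((measurable_pi_apply i).comp (hl.comp measurable_snd)) measurable_fst)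
    measurable_const measurable_const

lemma Fsc_nonneg (t : ℝ) : 0 ≤ Fsc t :=
  intervalIntegral.integral_nonneg (le_max_left _ _) fun y _ => rho_nonneg y

lemma Fsc_le_one (t : ℝ) : Fsc t ≤ 1 := by
  have h1 : Fsc t = Fsc (max (-2) (min t 2)) := by
    unfold Fsc
    congr 1
    rw [min_eq_left (max_le (by norm_num) (min_le_right t 2)), max_eq_right (le_max_left _ _)]
  rw [h1, ← Fsc_two]
  exact Fsc_mono (le_max_left _ _) (max_le (by norm_num) (min_le_right t 2)) le_rfl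

lemma dev_abs {M n : ℕ} (hM : M ≤ n) (l : Fin M → ℝ) (t : ℝ) : |NN l t - n * Fsc t| ≤ n := by
  have h1 := NN_nonneg l t
  have h2 : NN l t ≤ n := (NN_le l t).trans (by exact_mod_cast hM)
  have h3 : 0 ≤ n * Fsc t := mul_nonneg (Nat.cast_nonneg _) (Fsc_nonneg t)
  have h4 : n * Fsc t ≤ n := mul_le_of_le_one_right (Nat.cast_nonneg _) (Fsc_le_one t)
  rw [abs_le]
  constructor <;> linarith

lemma Idev_meas {Ω : Type*} [MeasurableSpace Ω] {M : ℕ} (n : ℕ) {l : Ω → Fin M → ℝ} (hl : Measurable l) :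
    Measurable (fun ω => Idev n (l ω)) := by
  unfold Idev
  simp_rw [intervalIntegral.integral_of_le (show (-2 : ℝ) ≤ 2 by norm_num)]
  have h1 : Measurable (fun p : ℝ × Ω => |NN (l p.2) p.1 - n * Fsc p.1|) :=
    ((NN_meas2 hl).sub ((Fsc_continuous.measurable.comp measurable_fst).const_mul _)).abs
  exact (h1.stronglyMeasurable.integral_prod_left' (μ := volume.restrict (Set.Ioc (-2 : ℝ) 2))).measurable

lemma Idev_abs {M n : ℕ} (hM : M ≤ n) (l : Fin M → ℝ) : |Idev n l| ≤ 4 * n := by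
  unfold Idev
  have h := intervalIntegral.norm_integral_le_of_norm_le_const (a := (-2 : ℝ)) (b := 2) (C := (n : ℝ))
    (f := fun t => |NN l t - n * Fsc t|) (fun t _ => by
      rw [Real.norm_eq_abs, abs_abs]; exact dev_abs hM l t)
  rw [Real.norm_eq_abs] at h
  refine h.trans (le_of_eq ?_)
  norm_num
  ring

theorem Idev_sq {Ω : Type*} [MeasurableSpace Ω] (P : Measure Ω) [IsProbabilityMeasure P] {M n : ℕ}
    (hM : M ≤ n) {l : Ω → Fin M → ℝ} (hl : Measurable l) (A : ℝ)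
    (h : ∀ x, |x| < 2 → ∫ ω, (NN (l ω) x - n * Fsc x) ^ 2 ∂P ≤ A / (2 - |x|)) :
    ∫ ω, (Idev n (l ω)) ^ 2 ∂P ≤ 64 * A := by
  have hA : 0 ≤ A := by
    have h1 := h 0 (by norm_num)
    have h2 : 0 ≤ ∫ ω, (NN (l ω) 0 - n * Fsc 0) ^ 2 ∂P := integral_nonneg fun _ => sq_nonneg _
    have h3 := h2.trans h1
    norm_num at h3
    linarith
  set μ : Measure ℝ := volume.restrict (Set.Ioo (-2 : ℝ) 2) with hμ
  have hmem : ∀ᵐ t ∂μ, t ∈ Set.Ioo (-2 : ℝ) 2 := ae_restrict_mem measurableSet_Ioo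
  have hwi : Integrable wt μ := by
    have := (intervalIntegrable_iff_integrableOn_Ioo_of_le (show (-2 : ℝ) ≤ 2 by norm_num)).mp wt_ii
    exact this
  have hwI : ∫ t, wt t ∂μ = 8 := by
    rw [hμ, ← integral_Ioc_eq_integral_Ioo, ← intervalIntegral.integral_of_le (by norm_num), wt_integral]
  have key := L2w P μ (fun t => 1 / wt t) (measurable_const.div wt_measurable) 1
    (by
      filter_upwards [hmem] with t ht
      have := wt_lower ht
      refine ⟨by positivity, ?_⟩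
      rw [div_le_one (by linarith)]; exact this)
    (by simpa only [one_div_one_div] using hwi)
    (fun t ω => |NN (l ω) t - n * Fsc t|)
    (((NN_meas2 hl).sub ((Fsc_continuous.measurable.comp measurable_fst).const_mul _)).abs) n
    (Filter.Eventually.of_forall fun t ω => by rw [abs_abs]; exact dev_abs hM _ t)
    (fun t => A * wt t ^ 2)
    (by
      filter_upwards [hmem] with t ht
      simp only [sq_abs]
      refine (h t (abs_lt.mpr ht)).trans ?_
      rw [div_eq_mul_one_div]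
      exact mul_le_mul_of_nonneg_left (wt_sq ht) hA)
    (by
      refine (hwi.const_mul A).congr ?_
      filter_upwards [hmem] with t ht
      have := wt_lower ht
      have : wt t ≠ 0 := by linarith
      field_simp)
  have e1 : ∫ t, 1 / (1 / wt t) ∂μ = 8 := by simp only [one_div_one_div]; exact hwI
  have e2 : ∫ t, 1 / wt t * (A * wt t ^ 2) ∂μ = 8 * A := by
    have : ∫ t, 1 / wt t * (A * wt t ^ 2) ∂μ = ∫ t, A * wt t ∂μ := by
      refine integral_congr_ae ?_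
      filter_upwards [hmem] with t ht
      have := wt_lower ht
      have : wt t ≠ 0 := by linarith
      field_simp
    rw [this, integral_const_mul, hwI]; ring
  have e3 : ∫ ω, (Idev n (l ω)) ^ 2 ∂P = ∫ ω, (∫ t, |NN (l ω) t - n * Fsc t| ∂μ) ^ 2 ∂P := by
    refine integral_congr_ae (Filter.Eventually.of_forall fun ω => ?_)
    simp only [Idev, hμ]
    rw [intervalIntegral.integral_of_le (by norm_num), integral_Ioc_eq_integral_Ioo]
  rw [e3]
  refine key.trans (le_of_eq ?_)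
  rw [e1, e2]; ring

/-! ### deterministic bound -/

lemma two_sub_le (s : ℝ) : |2 - s| ≤ 4 + out s := by
  have h1 : 2 - s = (2 - clip s) + -(s - clip s) := by ring
  have h2 : |2 - clip s| ≤ 4 := by
    have h3 : -2 ≤ clip s := le_max_left _ _
    have h4 : clip s ≤ 2 := max_le (by norm_num) (min_le_right _ _)
    rw [abs_le]; constructor <;> linarith
  rw [h1]
  refine (abs_add_le _ _).trans ?_
  rw [abs_neg, abs_sub_clip]
  linarith

lemma NN_castSucc {k : ℕ} (m : Fin (k + 1) → ℝ) (t : ℝ) :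
    |NN m t - NN (fun i : Fin k => m i.castSucc) t| ≤ 1 := by
  unfold NN
  rw [Fin.sum_univ_castSucc]
  simp only [add_sub_cancel_left]
  split_ifs <;> simp

theorem z_bound {k : ℕ} (l : Fin k → ℝ) (m : Fin (k + 1) → ℝ) (hl : Monotone l) (hm : Monotone m) :
    |2 - m (Fin.last k)| + ∑ i : Fin k, |l i - m i.castSucc|
      ≤ 10 + 2 * Idev (k + 1) l + 2 * Idev (k + 1) m + |∑ i, l i ^ 2 - (k + 1 : ℕ)| / 4
        + |∑ i, m i ^ 2 - (k + 1 : ℕ)| / 4 := by
  set m' : Fin k → ℝ := fun i => m i.castSucc with hm'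
  have hm'm : Monotone m' := fun i j hij => hm (Fin.castSucc_le_castSucc_iff.mpr hij)
  have h1 := two_sub_le (m (Fin.last k))
  have h2 : ∑ i : Fin k, |l i - m' i| ≤ ∑ i, |clip (l i) - clip (m' i)| + ∑ i, out (l i) + ∑ i, out (m' i) := by
    rw [← Finset.sum_add_distrib, ← Finset.sum_add_distrib]
    exact Finset.sum_le_sum fun i _ => abs_le_clip _ _
  have h3 := transport hl hm'm
  have hi : ∀ {M : ℕ} (l : Fin M → ℝ), IntervalIntegrable (fun t => NN l t - ((k + 1 : ℕ) : ℝ) * Fsc t) volume (-2) 2 :=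
    fun l => (NN_int l _ _).sub ((Fsc_continuous.const_mul _).intervalIntegrable _ _)
  have h4 : ∫ t in (-2 : ℝ)..2, |NN l t - NN m' t| ≤ Idev (k + 1) l + Idev (k + 1) m + 4 := by
    have h5 : ∫ t in (-2 : ℝ)..2, (|NN l t - ((k + 1 : ℕ) : ℝ) * Fsc t| + |NN m t - ((k + 1 : ℕ) : ℝ) * Fsc t| + 1)
        = Idev (k + 1) l + Idev (k + 1) m + 4 := by
      rw [intervalIntegral.integral_add ((hi l).abs.add (hi m).abs) (by simp),
        intervalIntegral.integral_add (hi l).abs (hi m).abs]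
      unfold Idev
      simp
      norm_num
    rw [← h5]
    refine intervalIntegral.integral_mono_on (by norm_num) ((NN_int l _ _).sub (NN_int m' _ _)).abs
      (((hi l).abs.add (hi m).abs).add (by simp)) fun t _ => ?_
    have h6 := NN_castSucc m t
    have h7 : NN l t - NN m' t = (NN l t - ((k + 1 : ℕ) : ℝ) * Fsc t) + -(NN m t - ((k + 1 : ℕ) : ℝ) * Fsc t)
        + (NN m t - NN m' t) := by ring
    rw [h7]
    refine (abs_add_le _ _).trans (add_le_add ((abs_add_le _ _).trans ?_) h6)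
    rw [abs_neg]
  have h8 := out_sum (M := k) (n := k + 1) (Nat.le_succ k) le_rfl l
  have h9 := out_sum (M := k + 1) (n := k + 1) le_rfl (Nat.le_succ _) m
  rw [Fin.sum_univ_castSucc] at h9
  have e1 : ∫ t in (-2 : ℝ)..2, |NN l t - ((k + 1 : ℕ) : ℝ) * Fsc t| = Idev (k + 1) l := rfl
  have e2 : ∫ t in (-2 : ℝ)..2, |NN m t - ((k + 1 : ℕ) : ℝ) * Fsc t| = Idev (k + 1) m := rfl
  rw [e1] at h8
  rw [e2] at h9
  have e3 : ∑ i : Fin k, out (m i.castSucc) = ∑ i, out (m' i) := rfl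
  rw [e3] at h9
  linarith

/-! ### calculus of `EJ` -/

lemma EJ_le {n : ℕ} {F G : Pat n → Arr n → ℝ} (h0 : ∀ σ ∈ Sn n, ∀ X, 0 ≤ F σ X)
    (h : ∀ σ ∈ Sn n, ∀ X, F σ X ≤ G σ X) (hG : ∀ σ ∈ Sn n, Integrable (G σ) (gm n)) : EJ F ≤ EJ G := by
  unfold EJ EU
  rw [smul_eq_mul, smul_eq_mul]
  refine mul_le_mul_of_nonneg_left (Finset.sum_le_sum fun σ hσ => ?_) (by positivity)
  exact integral_mono_of_nonneg (Filter.Eventually.of_forall (h0 σ hσ)) (hG σ hσ)
    (Filter.Eventually.of_forall (h σ hσ))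

lemma EJ_add {n : ℕ} {F G : Pat n → Arr n → ℝ} (hF : ∀ σ ∈ Sn n, Integrable (F σ) (gm n))
    (hG : ∀ σ ∈ Sn n, Integrable (G σ) (gm n)) :
    EJ (fun σ X => F σ X + G σ X) = EJ F + EJ G := by
  unfold EJ EU
  rw [← smul_add, ← Finset.sum_add_distrib]
  congr 1
  exact Finset.sum_congr rfl fun σ hσ => integral_add (hF σ hσ) (hG σ hσ)

lemma EJ_smul {n : ℕ} (c : ℝ) (F : Pat n → Arr n → ℝ) :
    EJ (fun σ X => c * F σ X) = c * EJ F := by
  unfold EJ EU
  rw [smul_eq_mul, smul_eq_mul, mul_left_comm]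
  congr 1
  rw [Finset.mul_sum]
  exact Finset.sum_congr rfl fun σ _ => integral_const_mul c (fun X => F σ X)

lemma EJ_fix {n : ℕ} (he : Even n) (g : Arr n → ℝ) : EJ (fun (_ : Pat n) X => g X) = ∫ X, g X ∂(gm n) := by
  have hcard : (0 : ℝ) < (Sn n).card := by exact_mod_cast Finset.card_pos.mpr (Sn_nonempty he)
  unfold EJ EU
  rw [Finset.sum_const, nsmul_eq_mul, smul_eq_mul, inv_mul_cancel_left₀ hcard.ne']

lemma Bm_one_zero {n : ℕ} (σ : Pat n) (X : Arr n) : Bm 1 0 σ X = H0 σ := by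
  unfold Bm
  rw [one_smul, zero_smul, add_zero]

lemma lamP_one_zero {n : ℕ} {σ : Pat n} (hσ : σ ∈ Sn n) (X : Arr n) (i : Fin (n - 1)) :
    lamP n 1 0 (σ, X) i = evp (H0 σ) i := by
  rw [lamP_of_mem hσ X i, Bm_one_zero]

lemma lamP_sq_eq {n : ℕ} (hn : 0 < n) {σ : Pat n} (hσ : σ ∈ Sn n) (X : Arr n) :
    ∑ i, lamP n 1 0 (σ, X) i ^ 2 = n := by
  have h1 : ∑ i, lamP n 1 0 (σ, X) i ^ 2 = ∑ i : Fin (n - 1), evp (Bm 1 0 σ X) i ^ 2 :=
    Finset.sum_congr rfl fun i _ => by rw [lamP_of_mem hσ X i]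
  rw [h1, evp_sq (Bm 1 0 σ X) (Bm_symm' 1 0 hσ X) (zero_root hn 1 0 hσ X), Bm_one_zero, H0_sq hn]

lemma lamP_mono {n : ℕ} (hn : 0 < n) (α β : ℝ) {σ : Pat n} (hσ : σ ∈ Sn n) (X : Arr n) :
    Monotone (lamP n α β (σ, X)) := by
  intro i j hij
  rw [lamP_of_mem hσ X i, lamP_of_mem hσ X j]
  exact evp_mono _ (Bm_symm' α β hσ X) (zero_root hn α β hσ X) hij (by have := j.2; omega)

/-- bound for the integrated deviations, sign matrices -/
lemma dev_P (hC : ICnt) (ν : ℝ) (hν : 0 < ν) : ∃ n0 : ℕ, 0 < n0 ∧ ∀ n : ℕ, n0 ≤ n → Even n →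
    ∀ x : ℝ, |x| < 2 →
      ∫ ω, (NN (lamP n 1 0 ω) x - n * Fsc x) ^ 2 ∂(P2 n) ≤ (n : ℝ) ^ ν / (2 - |x|) := by
  obtain ⟨n0, h⟩ := hC ν hν
  refine ⟨max n0 1, by positivity, fun n hn he x hx => ?_⟩
  have hnpos : 0 < n := lt_of_lt_of_le one_pos ((le_max_right _ _).trans hn)
  have h1 := h n ((le_max_left _ _).trans hn) he 1 0 (by norm_num) le_rfl (by norm_num) x hx
  have hm : ∀ σ : Pat n, Measurable (fun X : Arr n => (NN (lamP n 1 0 (σ, X)) x - n * Fsc x) ^ 2) := fun σ =>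
    ((NN_meas ((lamP_meas hnpos 1 0).comp measurable_prodMk_left) x).sub_const _).pow_const 2
  have hsec : ∀ σ ∈ Sn n, Integrable (fun X : Arr n => (NN (lamP n 1 0 (σ, X)) x - n * Fsc x) ^ 2) (gm n) := by
    intro σ _
    refine Integrable.of_bound (hm σ).aestronglyMeasurable ((n : ℝ) ^ 2)
      (Filter.Eventually.of_forall fun X => ?_)
    rw [Real.norm_eq_abs, abs_pow]
    exact pow_le_pow_left₀ (abs_nonneg _) (dev_abs (Nat.sub_le n 1) _ x) 2
  have h2 := integral_P2 he (fun σ X => (NN (lamP n 1 0 (σ, X)) x - n * Fsc x) ^ 2) hsec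
  have h3 : EJ (fun σ X => (NN (lamP n 1 0 (σ, X)) x - n * Fsc x) ^ 2)
      = EJ (n := n) (fun σ X => ((cntP (Bm 1 0 σ X) x : ℝ) - n * Fsc x) ^ 2) :=
    EJ_congr fun σ hσ X => by rw [cntP_NN hnpos hσ X]
  rw [h3] at h2
  rw [← h2] at h1
  exact h1

/-- bound for the integrated deviations, GOE -/
lemma dev_G (hC : ICntG) (ν : ℝ) (hν : 0 < ν) : ∃ n0 : ℕ, 0 < n0 ∧ ∀ n : ℕ, n0 ≤ n →
    ∀ x : ℝ, |x| < 2 →
      ∫ X, (NN (lamG n X) x - n * Fsc x) ^ 2 ∂(gm n) ≤ (n : ℝ) ^ ν / (2 - |x|) := by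
  obtain ⟨n0, h⟩ := hC ν hν
  refine ⟨max n0 1, by positivity, fun n hn x hx => ?_⟩
  have h1 := h n ((le_max_left _ _).trans hn) x hx
  have h2 : ∫ X, ((cnt (Wv (N := n) (1 / (n : ℝ)) X) x : ℝ) - n * Fsc x) ^ 2 ∂(gm n)
      = ∫ X, (NN (lamG n X) x - n * Fsc x) ^ 2 ∂(gm n) :=
    integral_congr_ae (Filter.Eventually.of_forall fun X => by simp only [cnt_NN])
  rw [h2] at h1
  exact h1

lemma lamG_mono (n : ℕ) (X : Arr n) : Monotone (lamG n X) := fun _ j hij =>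
  K1.evs_mono (Wv_symm _ X) hij j.2

lemma lamG_sq_eq {n : ℕ} (X : Arr n) :
    ∑ i, lamG n X i ^ 2 = ∑ i, ∑ j, (Wv (1 / (n : ℝ)) X i j) ^ 2 := evs_sq _ (Wv_symm _ X)

/-- pointwise bound of the transport distance -/
lemma zw_bound {n : ℕ} (hn : 0 < n) {σ : Pat n} (hσ : σ ∈ Sn n) (X : Arr n) :
    |2 - evs (Wv (N := n) (1 / (n : ℝ)) X) (n - 1)| +
        ∑ i ∈ Finset.range (n - 1), |evp (H0 σ) i - evs (Wv (N := n) (1 / (n : ℝ)) X) i|
      ≤ 10 + 2 * Idev n (lamP n 1 0 (σ, X)) + 2 * Idev n (lamG n X)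
        + |∑ i, ∑ j, (Wv (1 / (n : ℝ)) X i j) ^ 2 - n| / 4 := by
  have h3 := lamP_sq_eq hn hσ X
  have h4 := lamG_sq_eq X
  have h5 : ∀ i : Fin (n - 1), lamP n 1 0 (σ, X) i = evp (H0 σ) i := lamP_one_zero hσ X
  have h6 := lamP_mono hn 1 0 hσ X
  have h7 := lamG_mono n X
  generalize lamP n 1 0 (σ, X) = l at *
  rw [← h4]
  have h8 : ∀ i : Fin n, evs (Wv (N := n) (1 / (n : ℝ)) X) i = lamG n X i := fun _ => rfl
  generalize lamG n X = m at *
  obtain ⟨k, rfl⟩ : ∃ k, n = k + 1 := ⟨n - 1, by omega⟩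
  change Fin k → ℝ at l
  change ∑ i : Fin k, l i ^ 2 = ((k + 1 : ℕ) : ℝ) at h3
  have h9 := z_bound (k := k) l m h6 h7
  rw [h3, sub_self, abs_zero, zero_div, add_zero] at h9
  have h10 : evs (Wv (N := k + 1) (1 / ((k + 1 : ℕ) : ℝ)) X) (k + 1 - 1) = m (Fin.last k) := h8 (Fin.last k)
  rw [h10, Finset.sum_range]
  refine le_trans (le_of_eq ?_) h9
  congr 1
  refine Finset.sum_congr rfl fun i _ => ?_
  rw [← h5 i]
  congr 2
  exact h8 (Fin.castSucc i)

theorem iW1 (hC : ICnt) (hG : ICntG) : IW1 := by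
  intro ν hν
  obtain ⟨n1, hn1, h1⟩ := dev_P hC (ν / 2) (by positivity)
  obtain ⟨n2, hn2, h2⟩ := dev_G hG (ν / 2) (by positivity)
  obtain ⟨n3, hn3⟩ := Filter.eventually_atTop.mp (ev_const (ν / 2) 2500 (by positivity))
  refine ⟨max n1 (max n2 n3), fun n hn he => ?_⟩
  have hnn1 : n1 ≤ n := (le_max_left _ _).trans hn
  have hnn2 : n2 ≤ n := (le_max_left _ _).trans ((le_max_right _ _).trans hn)
  have hnn3 : n3 ≤ n := (le_max_right _ _).trans ((le_max_right _ _).trans hn)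
  have hnpos : 0 < n := lt_of_lt_of_le hn1 hnn1
  have hn0 : (0 : ℝ) < n := by exact_mod_cast hnpos
  have hn1' : (1 : ℝ) ≤ n := by exact_mod_cast hnpos
  have hCn : 2500 ≤ (n : ℝ) ^ (ν / 2) := hn3 n hnn3
  have := P2_prob he
  have : IsProbabilityMeasure (gm n) := instProbGmM n
  have hP := Idev_sq (P2 n) (Nat.sub_le n 1) (lamP_meas hnpos 1 0) _ (h1 n hnn1 he)
  have hQ := Idev_sq (gm n) (le_refl n) (lamG_meas n) _ (h2 n hnn2)
  have hbP : ∀ σ : Pat n, Integrable (fun X : Arr n => (Idev n (lamP n 1 0 (σ, X))) ^ 2) (gm n) := by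
    intro σ
    have hm : Measurable (fun X : Arr n => (Idev n (lamP n 1 0 (σ, X))) ^ 2) :=
      (Idev_meas n ((lamP_meas hnpos 1 0).comp measurable_prodMk_left)).pow_const 2
    refine Integrable.of_bound hm.aestronglyMeasurable ((4 * n : ℝ) ^ 2)
      (Filter.Eventually.of_forall fun X => ?_)
    rw [Real.norm_eq_abs, abs_pow]
    exact pow_le_pow_left₀ (abs_nonneg _) (Idev_abs (Nat.sub_le n 1) _) 2
  have hbG : Integrable (fun X : Arr n => (Idev n (lamG n X)) ^ 2) (gm n) := by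
    have hm : Measurable (fun X : Arr n => (Idev n (lamG n X)) ^ 2) :=
      (Idev_meas n (lamG_meas n)).pow_const 2
    refine Integrable.of_bound hm.aestronglyMeasurable ((4 * n : ℝ) ^ 2)
      (Filter.Eventually.of_forall fun X => ?_)
    rw [Real.norm_eq_abs, abs_pow]
    exact pow_le_pow_left₀ (abs_nonneg _) (Idev_abs le_rfl _) 2
  set T : Arr n → ℝ := fun X => ∑ i, ∑ j, (Wv (1 / (n : ℝ)) X i j) ^ 2 with hT
  set F1 : Pat n → Arr n → ℝ := fun σ X => (Idev n (lamP n 1 0 (σ, X))) ^ 2 with hF1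
  set F2 : Pat n → Arr n → ℝ := fun _ X => (Idev n (lamG n X)) ^ 2 with hF2
  set F3 : Pat n → Arr n → ℝ := fun _ X => (T X - n) ^ 2 with hF3
  have hi3 : Integrable (fun X => (T X - n) ^ 2) (gm n) := trW_int2 n
  have e1 : EJ F1 ≤ 64 * (n : ℝ) ^ (ν / 2) := by
    have h5 := integral_P2 he F1 (fun σ _ => hbP σ)
    rw [← h5]; exact hP
  have e2 : EJ F2 ≤ 64 * (n : ℝ) ^ (ν / 2) := by
    rw [hF2, EJ_fix he]; exact hQ
  have e3 : EJ F3 ≤ 10 := by
    rw [hF3, EJ_fix he]; exact trW_var n hnpos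
  have e4 : EJ (fun (_ : Pat n) (_ : Arr n) => (400 : ℝ)) = 400 := by
    rw [EJ_fix he]; simp
  have hi1 : ∀ σ ∈ Sn n, Integrable (F1 σ) (gm n) := fun σ _ => hbP σ
  have hi2 : ∀ σ ∈ Sn n, Integrable (F2 σ) (gm n) := fun σ _ => hbG
  have hi3' : ∀ σ ∈ Sn n, Integrable (F3 σ) (gm n) := fun σ _ => hi3
  have hsum : EJ (fun σ X => (400 : ℝ) + (16 * F1 σ X + (16 * F2 σ X + 1 * F3 σ X)))
      = 400 + (16 * EJ F1 + (16 * EJ F2 + 1 * EJ F3)) := by
    rw [EJ_add (F := fun _ _ => (400 : ℝ)) (G := fun σ X => 16 * F1 σ X + (16 * F2 σ X + 1 * F3 σ X))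
      (fun _ _ => integrable_const _) (fun σ hσ => ((hi1 σ hσ).const_mul _).add
        (((hi2 σ hσ).const_mul _).add ((hi3' σ hσ).const_mul _))),
      EJ_add (F := fun σ X => 16 * F1 σ X) (G := fun σ X => 16 * F2 σ X + 1 * F3 σ X)
      (fun σ hσ => (hi1 σ hσ).const_mul _) (fun σ hσ => ((hi2 σ hσ).const_mul _).add ((hi3' σ hσ).const_mul _)),
      EJ_add (F := fun σ X => 16 * F2 σ X) (G := fun σ X => 1 * F3 σ X)
      (fun σ hσ => (hi2 σ hσ).const_mul _) (fun σ hσ => (hi3' σ hσ).const_mul _),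
      EJ_smul, EJ_smul, EJ_smul, e4]
  have hmain : EJ (n := n) (fun σ X =>
      (|2 - evs (Wv (N := n) (1 / (n : ℝ)) X) (n - 1)| +
        ∑ i ∈ Finset.range (n - 1), |evp (H0 σ) i - evs (Wv (N := n) (1 / (n : ℝ)) X) i|) ^ 2)
      ≤ EJ (fun σ X => (400 : ℝ) + (16 * F1 σ X + (16 * F2 σ X + 1 * F3 σ X))) := by
    refine EJ_le (fun σ _ X => sq_nonneg _) (fun σ hσ X => ?_) (fun σ hσ => ?_)
    · have h5 := zw_bound hnpos hσ X
      set Z := |2 - evs (Wv (N := n) (1 / (n : ℝ)) X) (n - 1)| +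
        ∑ i ∈ Finset.range (n - 1), |evp (H0 σ) i - evs (Wv (N := n) (1 / (n : ℝ)) X) i| with hZ
      have hZ0 : 0 ≤ Z := by positivity
      have h6 : Z ^ 2 ≤ (10 + 2 * Idev n (lamP n 1 0 (σ, X)) + 2 * Idev n (lamG n X) + |T X - n| / 4) ^ 2 :=
        pow_le_pow_left₀ hZ0 h5 2
      refine h6.trans ?_
      simp only [hF1, hF2, hF3]
      rw [← sq_abs (T X - n)]
      set a := Idev n (lamP n 1 0 (σ, X))
      set b := Idev n (lamG n X)
      set c := |T X - n|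
      nlinarith [sq_nonneg (10 - 2 * a), sq_nonneg (10 - 2 * b), sq_nonneg (10 - c / 4), sq_nonneg (2 * a - 2 * b),
        sq_nonneg (2 * a - c / 4), sq_nonneg (2 * b - c / 4), sq_nonneg c]
    · exact (integrable_const _).add (((hi1 σ hσ).const_mul _).add
        (((hi2 σ hσ).const_mul _).add ((hi3' σ hσ).const_mul _)))
  refine hmain.trans ?_
  rw [hsum]
  have hpow : (n : ℝ) ^ ν = (n : ℝ) ^ (ν / 2) * (n : ℝ) ^ (ν / 2) := by
    rw [← Real.rpow_add hn0]; congr 1; ring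
  rw [hpow]
  nlinarith

end Pool.Agent.ZR.I

end

section

/-!
# ZR, part I (helper58): bulk transport distance, deterministic part
-/


open MeasureTheory ProbabilityTheory Matrix

namespace Pool.Agent.ZR.I

/-- clipping to `[-b, b]` -/
noncomputable def clb (b s : ℝ) : ℝ := max (-b) (min s b)

lemma clb_le {b : ℝ} (hb : 0 ≤ b) (s : ℝ) : clb b s ≤ b := max_le (by linarith) (min_le_right _ _)

lemma le_clb (b s : ℝ) : -b ≤ clb b s := le_max_left _ _

lemma clb_of_abs {b s : ℝ} (h : |s| ≤ b) : clb b s = s := by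
  have := abs_le.mp h
  unfold clb
  rw [min_eq_left this.2, max_eq_right this.1]

lemma abs_sub_clb {b : ℝ} (hb : 0 ≤ b) (s : ℝ) : |s - clb b s| ≤ |s| := by
  unfold clb
  rcases le_total s (-b) with h | h
  · rw [min_eq_left (by linarith), max_eq_left h, abs_of_nonpos (by linarith), abs_of_nonpos (by linarith)]
    linarith
  · rcases le_total s b with h2 | h2
    · rw [min_eq_left h2, max_eq_right h, sub_self, abs_zero]
      exact abs_nonneg _
    · rw [min_eq_right h2, max_eq_right (by linarith), abs_of_nonneg (by linarith : 0 ≤ s - b),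
        abs_of_nonneg (by linarith : 0 ≤ s)]
      linarith

lemma step_intb {b : ℝ} (hb : 0 ≤ b) (a : ℝ) (f : ℝ → ℝ) (hf : Continuous f) :
    ∫ t in (-b)..b, f t * (if a ≤ t then (1 : ℝ) else 0) = ∫ t in (clb b a)..b, f t := by
  have hi : ∀ c d : ℝ, IntervalIntegrable (fun t => f t * (if a ≤ t then (1 : ℝ) else 0)) volume c d := by
    intro c d
    exact (ind_int a c d).continuousOn_mul hf.continuousOn
  have hc1 : -b ≤ clb b a := le_clb _ _
  have hc2 : clb b a ≤ b := clb_le hb _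
  rw [← intervalIntegral.integral_add_adjacent_intervals (hi (-b) (clb b a)) (hi (clb b a) b)]
  have h1 : ∫ t in (-b)..(clb b a), f t * (if a ≤ t then (1 : ℝ) else 0) = 0 := by
    rw [intervalIntegral.integral_of_le hc1, integral_Ioc_eq_integral_Ioo]
    refine (setIntegral_congr_fun measurableSet_Ioo (g := fun _ => (0 : ℝ)) fun t ht => ?_).trans (by simp)
    have h2 : ¬ a ≤ t := by
      intro h
      have h3 := ht.2
      unfold clb at h3
      rw [lt_max_iff, lt_min_iff] at h3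
      rcases h3 with h3 | h3
      · have := ht.1; linarith
      · linarith [h3.1]
    change f t * (if a ≤ t then (1 : ℝ) else 0) = 0
    rw [if_neg h2, mul_zero]
  have h2 : ∫ t in (clb b a)..b, f t * (if a ≤ t then (1 : ℝ) else 0) = ∫ t in (clb b a)..b, f t := by
    rw [intervalIntegral.integral_of_le hc2, intervalIntegral.integral_of_le hc2,
      integral_Ioc_eq_integral_Ioo, integral_Ioc_eq_integral_Ioo]
    refine setIntegral_congr_fun measurableSet_Ioo fun t ht => ?_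
    have h2 : a ≤ t := by
      have h3 := ht.1
      have h4 := ht.2
      unfold clb at h3
      rw [max_lt_iff, min_lt_iff] at h3
      rcases h3.2 with h | h
      · exact h.le
      · linarith
    change f t * (if a ≤ t then (1 : ℝ) else 0) = f t
    rw [if_pos h2, mul_one]
  rw [h1, h2, zero_add]

/-- the integrand of the transport identity -/
noncomputable def Ai (g a t : ℝ) : ℝ :=
  2 * (t - g) * ((if g ≤ t then (1 : ℝ) else 0) - (if a ≤ t then (1 : ℝ) else 0))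

lemma Ai_ii (g a c d : ℝ) : IntervalIntegrable (Ai g a) volume c d := by
  unfold Ai
  exact ((ind_int g c d).sub (ind_int a c d)).continuousOn_mul (by fun_prop)

lemma sq_id {b : ℝ} (hb : 0 ≤ b) (g a : ℝ) (hg : |g| ≤ b) :
    (clb b a - g) ^ 2 = ∫ t in (-b)..b, Ai g a t := by
  have hf : Continuous (fun t : ℝ => 2 * (t - g)) := by fun_prop
  have h1 : ∫ t in (-b)..b, Ai g a t
      = (∫ t in (-b)..b, 2 * (t - g) * (if g ≤ t then (1 : ℝ) else 0))
        - ∫ t in (-b)..b, 2 * (t - g) * (if a ≤ t then (1 : ℝ) else 0) := by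
    rw [← intervalIntegral.integral_sub ((ind_int g _ _).continuousOn_mul hf.continuousOn)
      ((ind_int a _ _).continuousOn_mul hf.continuousOn)]
    refine intervalIntegral.integral_congr fun t _ => ?_
    simp only [Ai]
    ring
  have h2 : ∀ c : ℝ, ∫ t in c..b, 2 * (t - g) = (b - g) ^ 2 - (c - g) ^ 2 := by
    intro c
    rw [intervalIntegral.integral_const_mul, intervalIntegral.integral_sub (by simp) (by simp), integral_id,
      intervalIntegral.integral_const, smul_eq_mul]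
    ring
  rw [h1, step_intb hb g _ hf, step_intb hb a _ hf, h2, h2, clb_of_abs hg]
  ring

lemma card_between (s : Finset ℕ) (a b : ℝ) (h : ∀ i ∈ s, a ≤ (i : ℝ) ∧ (i : ℝ) ≤ b) :
    (s.card : ℝ) ≤ |b - a| + 1 := by
  rcases s.eq_empty_or_nonempty with h0 | h0
  · subst h0
    have := abs_nonneg (b - a)
    simp only [Finset.card_empty, Nat.cast_zero]
    linarith
  · have h1 : s ⊆ Finset.Icc (s.min' h0) (s.max' h0) := fun i hi =>
      Finset.mem_Icc.mpr ⟨Finset.min'_le _ _ hi, Finset.le_max' _ _ hi⟩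
    have h2 := Finset.card_le_card h1
    rw [Nat.card_Icc] at h2
    have h3 := (h _ (s.min'_mem h0)).1
    have h4 := (h _ (s.max'_mem h0)).2
    have h5 : s.min' h0 ≤ s.max' h0 := Finset.min'_le _ _ (s.max'_mem h0)
    have h6 : (s.card : ℝ) ≤ (s.max' h0 : ℝ) + 1 - (s.min' h0 : ℝ) := by
      have : ((s.max' h0 + 1 - s.min' h0 : ℕ) : ℝ) = (s.max' h0 : ℝ) + 1 - (s.min' h0 : ℝ) := by
        rw [Nat.cast_sub (by omega)]
        push_cast
        ring
      rw [← this]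
      exact_mod_cast h2
    have := le_abs_self (b - a)
    linarith

lemma NN_ge {M : ℕ} {l : Fin M → ℝ} (hl : Monotone l) {i : Fin M} {t : ℝ} (h : l i ≤ t) :
    (i : ℝ) + 1 ≤ NN l t := by
  have h1 : ∑ j : Fin M, (if j ∈ Finset.Iic i then (1 : ℝ) else 0) ≤ NN l t := by
    refine Finset.sum_le_sum fun j _ => ?_
    by_cases hj : j ∈ Finset.Iic i
    · rw [if_pos hj, if_pos ((hl (Finset.mem_Iic.mp hj)).trans h)]
    · rw [if_neg hj]; split_ifs <;> norm_num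
  rw [Finset.sum_ite_mem, Finset.univ_inter, Finset.sum_const, Fin.card_Iic, nsmul_eq_mul, mul_one] at h1
  push_cast at h1
  exact h1

lemma NN_lt {M : ℕ} {l : Fin M → ℝ} (hl : Monotone l) {i : Fin M} {t : ℝ} (h : t < l i) :
    NN l t ≤ (i : ℝ) := by
  have h1 : NN l t ≤ ∑ j : Fin M, (if j ∈ Finset.Iio i then (1 : ℝ) else 0) := by
    refine Finset.sum_le_sum fun j _ => ?_
    by_cases hj : j ∈ Finset.Iio i
    · rw [if_pos hj]; split_ifs <;> norm_num
    · rw [if_neg hj]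
      have h2 : i ≤ j := by
        rw [Finset.mem_Iio, not_lt] at hj; exact hj
      rw [if_neg (not_le.mpr (h.trans_le (hl h2)))]
  rw [Finset.sum_ite_mem, Finset.univ_inter, Finset.sum_const, Fin.card_Iio, nsmul_eq_mul, mul_one] at h1
  exact h1

lemma NN_measurable {M : ℕ} (l : Fin M → ℝ) : Measurable (NN l) := by
  unfold NN
  exact Finset.measurable_sum _ fun i _ => ind_meas (l i)

lemma bdd_ii {f : ℝ → ℝ} (hf : Measurable f) {K : ℝ} (hK : ∀ t, |f t| ≤ K) (a b : ℝ) :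
    IntervalIntegrable f volume a b := by
  refine (intervalIntegrable_const (c := K)).mono_fun hf.aestronglyMeasurable
    (Filter.Eventually.of_forall fun t => ?_)
  change ‖f t‖ ≤ ‖K‖
  rw [Real.norm_eq_abs, Real.norm_eq_abs]
  exact (hK t).trans (le_abs_self K)

lemma dev_measurable {M : ℕ} (n : ℕ) (l : Fin M → ℝ) : Measurable (fun t => NN l t - n * Fsc t) :=
  (NN_measurable l).sub (Fsc_continuous.measurable.const_mul _)

lemma F_incr {b' c : ℝ} (hb2 : b' ≤ 2) (hrho : ∀ t, |t| ≤ b' → c ≤ rho t) {s t : ℝ}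
    (hs : |s| ≤ b') (ht : |t| ≤ b') (hst : s ≤ t) : c * (t - s) ≤ Fsc t - Fsc s := by
  rw [Fsc_sub (hs.trans hb2) (ht.trans hb2)]
  have h1 : ∫ _ in s..t, c = c * (t - s) := by
    rw [intervalIntegral.integral_const, smul_eq_mul]; ring
  rw [← h1]
  refine intervalIntegral.integral_mono_on hst (by simp) (rho_continuous.intervalIntegrable _ _) fun y hy => ?_
  refine hrho y (abs_le.mpr ⟨?_, ?_⟩)
  · linarith [(abs_le.mp hs).1, hy.1]
  · linarith [(abs_le.mp ht).2, hy.2]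

/-- the pointwise bound of the sum of the transport integrands -/
lemma sum_Ai {M n : ℕ} (hn : 0 < n) {b b' c : ℝ} (hbb : b ≤ b') (hb2 : b' ≤ 2) (hc : 0 < c)
    (hrho : ∀ t, |t| ≤ b' → c ≤ rho t) {l : Fin M → ℝ} (hl : Monotone l) (L γ : ℕ → ℝ)
    (hL : ∀ i : Fin M, L i = l i) (S : Finset ℕ) (hSM : ∀ i ∈ S, i < M)
    (hγ : ∀ i ∈ S, |γ i| ≤ b ∧ n * Fsc (γ i) = i + 1) {t : ℝ} (ht : |t| ≤ b') :
    ∑ i ∈ S, Ai (γ i) (L i) t
      ≤ (2 / (n * c)) * (|NN l t - n * Fsc t| * (|NN l t - n * Fsc t| + 1)) := by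
  classical
  have hn0 : (0 : ℝ) < n := by exact_mod_cast hn
  set D : ℝ := NN l t - n * Fsc t with hD
  set P : ℕ → Prop := fun i => ¬ (L i ≤ t ↔ γ i ≤ t) with hP
  have hfacts : ∀ i ∈ S, P i → (n * c * |t - γ i| ≤ |D|) ∧
      ((0 ≤ D ∧ n * Fsc t - 1 ≤ (i : ℝ) ∧ (i : ℝ) ≤ NN l t - 1)
        ∨ (D < 0 ∧ NN l t ≤ (i : ℝ) ∧ (i : ℝ) ≤ n * Fsc t)) := by
    intro i hi hPi
    have hiM := hSM i hi
    obtain ⟨hg1, hg2⟩ := hγ i hi
    have hgb : |γ i| ≤ b' := hg1.trans hbb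
    have hLi : L i = l ⟨i, hiM⟩ := hL ⟨i, hiM⟩
    by_cases h1 : L i ≤ t
    · have h2 : t < γ i := by
        by_contra h3
        exact hPi ⟨fun _ => not_lt.mp h3, fun _ => h1⟩
      have h3 : (i : ℝ) + 1 ≤ NN l t := NN_ge hl (i := ⟨i, hiM⟩) (by rw [← hLi]; exact h1)
      have h4 := F_incr hb2 hrho ht hgb h2.le
      have h5 : n * (c * (γ i - t)) ≤ n * (Fsc (γ i) - Fsc t) := mul_le_mul_of_nonneg_left h4 hn0.le
      have h6 : 0 ≤ n * (c * (γ i - t)) := by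
        have : 0 ≤ γ i - t := by linarith
        positivity
      have hD1 : n * (c * (γ i - t)) ≤ D := by rw [hD]; nlinarith
      refine ⟨?_, Or.inl ⟨h6.trans hD1, ?_, by linarith⟩⟩
      · rw [abs_sub_comm, abs_of_nonneg (by linarith : 0 ≤ γ i - t), abs_of_nonneg (h6.trans hD1), mul_assoc]
        exact hD1
      · nlinarith
    · have h2 : γ i ≤ t := by
        by_contra h3
        exact hPi ⟨fun h => absurd h h1, fun h => absurd h h3⟩
      have h3 : NN l t ≤ (i : ℝ) := NN_lt hl (i := ⟨i, hiM⟩) (by rw [← hLi]; exact not_le.mp h1)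
      have h4 := F_incr hb2 hrho hgb ht h2
      have h5 : n * (c * (t - γ i)) ≤ n * (Fsc t - Fsc (γ i)) := mul_le_mul_of_nonneg_left h4 hn0.le
      have h6 : 0 ≤ n * (c * (t - γ i)) := by
        have : 0 ≤ t - γ i := by linarith
        positivity
      have hD1 : n * (c * (t - γ i)) + 1 ≤ -D := by rw [hD]; nlinarith
      refine ⟨?_, Or.inr ⟨by linarith, h3, ?_⟩⟩
      · rw [abs_of_nonneg (by linarith : 0 ≤ t - γ i), abs_of_neg (by linarith : D < 0), mul_assoc]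
        linarith
      · nlinarith
  have hcard : ((S.filter P).card : ℝ) ≤ |D| + 1 := by
    rcases le_or_gt 0 D with h0 | h0
    · have h1 := card_between (S.filter P) (n * Fsc t - 1) (NN l t - 1) (fun i hi => by
        rw [Finset.mem_filter] at hi
        rcases (hfacts i hi.1 hi.2).2 with h | h
        · exact h.2
        · exact absurd h.1 (not_lt.mpr h0))
      have h2 : NN l t - 1 - (n * Fsc t - 1) = D := by rw [hD]; ring
      rw [h2] at h1
      exact h1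
    · have h1 := card_between (S.filter P) (NN l t) (n * Fsc t) (fun i hi => by
        rw [Finset.mem_filter] at hi
        rcases (hfacts i hi.1 hi.2).2 with h | h
        · exact absurd h0 (not_lt.mpr h.1)
        · exact h.2)
      have h2 : n * Fsc t - NN l t = -D := by rw [hD]; ring
      rw [h2, abs_neg] at h1
      exact h1
  have hterm : ∀ i ∈ S, Ai (γ i) (L i) t ≤ if P i then (2 / (n * c)) * |D| else 0 := by
    intro i hi
    by_cases hPi : P i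
    · rw [if_pos hPi]
      have h1 := (hfacts i hi hPi).1
      have h2 : Ai (γ i) (L i) t ≤ 2 * |t - γ i| := by
        unfold Ai
        have h3 : |(if γ i ≤ t then (1 : ℝ) else 0) - (if L i ≤ t then (1 : ℝ) else 0)| ≤ 1 := by
          split_ifs <;> simp
        refine (le_abs_self _).trans ?_
        rw [abs_mul, abs_mul, abs_of_pos (by norm_num : (0 : ℝ) < 2)]
        exact mul_le_of_le_one_right (by positivity) h3
      refine h2.trans ?_
      rw [div_mul_eq_mul_div, le_div_iff₀ (by positivity)]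
      nlinarith
    · rw [if_neg hPi]
      have h1 : L i ≤ t ↔ γ i ≤ t := not_not.mp hPi
      unfold Ai
      by_cases h2 : γ i ≤ t
      · rw [if_pos h2, if_pos (h1.mpr h2)]; simp
      · rw [if_neg h2, if_neg (fun h => h2 (h1.mp h))]; simp
  refine (Finset.sum_le_sum hterm).trans ?_
  rw [← Finset.sum_filter, Finset.sum_const, nsmul_eq_mul]
  have h1 : 0 ≤ (2 / (n * c)) * |D| := by positivity
  calc ((S.filter P).card : ℝ) * ((2 / (n * c)) * |D|) ≤ (|D| + 1) * ((2 / (n * c)) * |D|) :=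
        mul_le_mul_of_nonneg_right hcard h1
    _ = _ := by ring

/-- the clipped part -/
lemma clip_part {M n : ℕ} (hM : M ≤ n) (hn : 0 < n) {b b' c : ℝ} (hb0 : 0 ≤ b) (hbb : b ≤ b')
    (hb2 : b' ≤ 2) (hc : 0 < c)
    (hrho : ∀ t, |t| ≤ b' → c ≤ rho t) {l : Fin M → ℝ} (hl : Monotone l) (L γ : ℕ → ℝ)
    (hL : ∀ i : Fin M, L i = l i) (S : Finset ℕ) (hSM : ∀ i ∈ S, i < M)
    (hγ : ∀ i ∈ S, |γ i| ≤ b ∧ n * Fsc (γ i) = i + 1) :
    ∑ i ∈ S, (clb b' (L i) - γ i) ^ 2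
      ≤ (1 / n) * ((3 / c) * (∫ t in (-b')..b', (NN l t - n * Fsc t) ^ 2) + 2 * b' / c) := by
  have hn0 : (0 : ℝ) < n := by exact_mod_cast hn
  have hb'0 : 0 ≤ b' := hb0.trans hbb
  have hDm := dev_measurable n l
  have hii : IntervalIntegrable (fun t => (NN l t - n * Fsc t) ^ 2) volume (-b') b' :=
    bdd_ii (hDm.pow_const 2) (K := (n : ℝ) ^ 2) (fun t => by
      rw [abs_pow]; exact pow_le_pow_left₀ (abs_nonneg _) (dev_abs hM l t) 2) _ _
  have h1 : ∑ i ∈ S, (clb b' (L i) - γ i) ^ 2 = ∫ t in (-b')..b', ∑ i ∈ S, Ai (γ i) (L i) t := by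
    rw [intervalIntegral.integral_finsetSum]
    · exact Finset.sum_congr rfl fun i hi => sq_id hb'0 _ _ ((hγ i hi).1.trans hbb)
    · intro i _; exact Ai_ii _ _ _ _
  rw [h1]
  have h2 : ∫ t in (-b')..b', ∑ i ∈ S, Ai (γ i) (L i) t
      ≤ ∫ t in (-b')..b', ((3 / (n * c)) * (NN l t - n * Fsc t) ^ 2 + 1 / (n * c)) := by
    refine intervalIntegral.integral_mono_on (by linarith) ?_ ((hii.const_mul _).add (by simp)) fun t ht => ?_
    · have e : (fun t => ∑ i ∈ S, Ai (γ i) (L i) t) = ∑ i ∈ S, Ai (γ i) (L i) := by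
        funext t; simp
      rw [e]
      exact IntervalIntegrable.sum _ fun i _ => Ai_ii _ _ _ _
    · refine (sum_Ai hn hbb hb2 hc hrho hl L γ hL S hSM hγ (abs_le.mpr ⟨ht.1, ht.2⟩)).trans ?_
      rw [← sq_abs (NN l t - n * Fsc t)]
      set d := |NN l t - n * Fsc t|
      have h3 : d * (d + 1) ≤ (3 * d ^ 2 + 1) / 2 := by nlinarith [sq_nonneg (d - 1)]
      calc (2 / (n * c)) * (d * (d + 1)) ≤ (2 / (n * c)) * ((3 * d ^ 2 + 1) / 2) :=
            mul_le_mul_of_nonneg_left h3 (by positivity)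
        _ = _ := by field_simp
  refine h2.trans (le_of_eq ?_)
  rw [intervalIntegral.integral_add (hii.const_mul _) (by simp), intervalIntegral.integral_const_mul,
    intervalIntegral.integral_const, smul_eq_mul]
  field_simp
  ring

/-- the outlier part -/
lemma out_part {M n : ℕ} (hM : M ≤ n) (hn : 0 < n) {κ b b' : ℝ} (hκ : 0 < κ) (hb0 : 0 ≤ b) (hbb : b < b')
    (hb2 : b' ≤ 2) (hF1 : Fsc (-b) ≤ κ / 2) (hF2 : 1 - κ / 2 ≤ Fsc b)
    {l : Fin M → ℝ} (hl : Monotone l) (L : ℕ → ℝ)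
    (hL : ∀ i : Fin M, L i = l i) (S : Finset ℕ) (hSM : ∀ i ∈ S, i < M)
    (hS : ∀ i ∈ S, κ * n ≤ (i : ℝ) ∧ (i : ℝ) ≤ (1 - κ) * n) :
    ∑ i ∈ S, (L i - clb b' (L i)) ^ 2
      ≤ (1 / n) * ((8 / (κ ^ 2 * (b' - b))) * (∫ t in (-b')..b', (NN l t - n * Fsc t) ^ 2)
          + (∑ i, l i ^ 2 - n) ^ 2) := by
  have hn0 : (0 : ℝ) < n := by exact_mod_cast hn
  have hb'0 : 0 ≤ b' := hb0.trans hbb.le
  have hd : 0 < b' - b := by linarith
  have hDm := dev_measurable n l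
  have hii : ∀ c d : ℝ, IntervalIntegrable (fun t => (NN l t - n * Fsc t) ^ 2) volume c d := fun c d =>
    bdd_ii (hDm.pow_const 2) (K := (n : ℝ) ^ 2) (fun t => by
      rw [abs_pow]; exact pow_le_pow_left₀ (abs_nonneg _) (dev_abs hM l t) 2) _ _
  set J : ℝ := ∫ t in (-b')..b', (NN l t - n * Fsc t) ^ 2 with hJ
  have hJ0 : 0 ≤ J := intervalIntegral.integral_nonneg (by linarith) fun _ _ => sq_nonneg _
  set T : ℝ := ∑ i, l i ^ 2 with hT
  have hR0 : 0 ≤ (1 / n) * ((8 / (κ ^ 2 * (b' - b))) * J + (T - n) ^ 2) := by positivity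
  by_cases hall : ∀ i ∈ S, |L i| ≤ b'
  · refine le_trans (le_of_eq ?_) hR0
    refine Finset.sum_eq_zero fun i hi => ?_
    rw [clb_of_abs (hall i hi), sub_self]
    norm_num
  · push Not at hall
    obtain ⟨i, hi, hLb⟩ := hall
    have hiM := hSM i hi
    have hLi : L i = l ⟨i, hiM⟩ := hL ⟨i, hiM⟩
    -- lower bound of J
    have hJlow : (b' - b) * (κ * n / 2) ^ 2 ≤ J := by
      rcases lt_abs.mp hLb with h | h
      · have h1 : ∫ t in b..b', (NN l t - n * Fsc t) ^ 2 ≤ J :=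
          intervalIntegral.integral_mono_interval (by linarith) hbb.le le_rfl
            (Filter.Eventually.of_forall fun t => sq_nonneg _) (hii _ _)
        refine le_trans ?_ h1
        have h2 : ∫ _ in b..b', (κ * n / 2) ^ 2 = (b' - b) * (κ * n / 2) ^ 2 := by
          rw [intervalIntegral.integral_const, smul_eq_mul]
        rw [← h2]
        refine intervalIntegral.integral_mono_on hbb.le (by simp) (hii _ _) fun t ht => ?_
        have h3 : NN l t ≤ (i : ℝ) := NN_lt hl (i := ⟨i, hiM⟩) (by rw [← hLi]; linarith [ht.2])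
        have h4 : Fsc b ≤ Fsc t := Fsc_mono (by linarith) ht.1 (by linarith [ht.2])
        have h5 := (hS i hi).2
        have h6 : κ * n / 2 ≤ -(NN l t - n * Fsc t) := by nlinarith
        rw [← neg_sq (NN l t - n * Fsc t)]
        exact pow_le_pow_left₀ (by positivity) h6 2
      · have h1 : ∫ t in (-b')..(-b), (NN l t - n * Fsc t) ^ 2 ≤ J :=
          intervalIntegral.integral_mono_interval le_rfl (by linarith) (by linarith)
            (Filter.Eventually.of_forall fun t => sq_nonneg _) (hii _ _)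
        refine le_trans ?_ h1
        have h2 : ∫ _ in (-b')..(-b), (κ * n / 2) ^ 2 = (b' - b) * (κ * n / 2) ^ 2 := by
          rw [intervalIntegral.integral_const, smul_eq_mul]; ring
        rw [← h2]
        refine intervalIntegral.integral_mono_on (by linarith) (by simp) (hii _ _) fun t ht => ?_
        have h3 : (i : ℝ) + 1 ≤ NN l t := NN_ge hl (i := ⟨i, hiM⟩) (by rw [← hLi]; linarith [ht.1])
        have h4 : Fsc t ≤ Fsc (-b) := Fsc_mono (by linarith [ht.1]) ht.2 (by linarith)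
        have h5 := (hS i hi).1
        have h6 : κ * n / 2 ≤ NN l t - n * Fsc t := by nlinarith
        exact pow_le_pow_left₀ (by positivity) h6 2
    -- the sum is at most T
    have hsum : ∑ i ∈ S, (L i - clb b' (L i)) ^ 2 ≤ T := by
      have h1 : ∑ i ∈ S, (L i - clb b' (L i)) ^ 2 ≤ ∑ i ∈ S, L i ^ 2 := by
        refine Finset.sum_le_sum fun i _ => ?_
        rw [← sq_abs, ← sq_abs (L i)]
        exact pow_le_pow_left₀ (abs_nonneg _) (abs_sub_clb hb'0 _) 2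
      have h2 : ∑ i ∈ S, L i ^ 2 ≤ ∑ i ∈ Finset.range M, L i ^ 2 :=
        Finset.sum_le_sum_of_subset_of_nonneg (fun i hi => Finset.mem_range.mpr (hSM i hi))
          fun _ _ _ => sq_nonneg _
      have h3 : ∑ i ∈ Finset.range M, L i ^ 2 = T := by
        rw [Finset.sum_range, hT]
        exact Finset.sum_congr rfl fun i _ => by rw [hL]
      rw [h3] at h2
      exact h1.trans h2
    refine hsum.trans ?_
    have h7 : (n : ℝ) * n ≤ 4 / (κ ^ 2 * (b' - b)) * J := by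
      rw [div_mul_eq_mul_div, le_div_iff₀ (by positivity)]
      nlinarith
    have h8 : (n : ℝ) * T ≤ 2 * (n * n) + (T - n) ^ 2 := by nlinarith [sq_nonneg (T - n - n / 2), sq_nonneg (n : ℝ)]
    rw [one_div, ← div_eq_inv_mul, le_div_iff₀ hn0]
    have h9 : 8 / (κ ^ 2 * (b' - b)) * J = 2 * (4 / (κ ^ 2 * (b' - b)) * J) := by ring
    rw [h9]
    nlinarith

/-- deterministic bulk transport bound -/
theorem bulk_det {M n : ℕ} (hM : M ≤ n) (hn : 0 < n) {κ b b' c : ℝ} (hκ : 0 < κ) (hb0 : 0 ≤ b) (hbb : b < b')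
    (hb2 : b' ≤ 2) (hc : 0 < c) (hrho : ∀ t, |t| ≤ b' → c ≤ rho t)
    (hF1 : Fsc (-b) ≤ κ / 2) (hF2 : 1 - κ / 2 ≤ Fsc b)
    {l : Fin M → ℝ} (hl : Monotone l) (L γ : ℕ → ℝ)
    (hL : ∀ i : Fin M, L i = l i) (S : Finset ℕ) (hSM : ∀ i ∈ S, i < M)
    (hS : ∀ i ∈ S, κ * n ≤ (i : ℝ) ∧ (i : ℝ) ≤ (1 - κ) * n)
    (hγ : ∀ i ∈ S, |γ i| ≤ b ∧ n * Fsc (γ i) = i + 1) :
    ∑ i ∈ S, (L i - γ i) ^ 2
      ≤ (1 / n) * ((6 / c + 16 / (κ ^ 2 * (b' - b))) * (∫ t in (-b')..b', (NN l t - n * Fsc t) ^ 2)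
          + 4 * b' / c + 2 * (∑ i, l i ^ 2 - n) ^ 2) := by
  have h1 := clip_part hM hn hb0 hbb.le hb2 hc hrho hl L γ hL S hSM hγ
  have h2 := out_part hM hn hκ hb0 hbb hb2 hF1 hF2 hl L hL S hSM hS
  have h3 : ∑ i ∈ S, (L i - γ i) ^ 2
      ≤ 2 * ∑ i ∈ S, (clb b' (L i) - γ i) ^ 2 + 2 * ∑ i ∈ S, (L i - clb b' (L i)) ^ 2 := by
    rw [Finset.mul_sum, Finset.mul_sum, ← Finset.sum_add_distrib]
    refine Finset.sum_le_sum fun i _ => ?_
    nlinarith [sq_nonneg ((clb b' (L i) - γ i) - (L i - clb b' (L i)))]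
  refine h3.trans ?_
  refine (add_le_add (mul_le_mul_of_nonneg_left h1 (by norm_num)) (mul_le_mul_of_nonneg_left h2 (by norm_num))).trans
    (le_of_eq ?_)
  ring

end Pool.Agent.ZR.I

end

section

/-!
# ZR, part I (helper58): bulk transport distance (IW2)
-/


open MeasureTheory ProbabilityTheory Matrix

namespace Pool.Agent.ZR.I

/-- choice of the bulk window -/
lemma exists_b {κ : ℝ} (hκ : 0 < κ) : ∃ b : ℝ, 0 ≤ b ∧ b < 2 ∧ Fsc (-b) ≤ κ / 2 ∧ 1 - κ / 2 ≤ Fsc b := by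
  have h1 : ∀ᶠ x in nhds (2 : ℝ), 1 - κ / 2 < Fsc x := by
    refine (Fsc_continuous.tendsto 2).eventually (lt_mem_nhds ?_)
    rw [Fsc_two]; linarith
  have h2 : ∀ᶠ x in nhds (2 : ℝ), Fsc (-x) < κ / 2 := by
    refine ((Fsc_continuous.comp continuous_neg).tendsto 2).eventually (gt_mem_nhds ?_)
    simp only [Function.comp]
    rw [Fsc_neg_two]; linarith
  obtain ⟨ε, hε, h⟩ := Metric.eventually_nhds_iff.mp (h1.and h2)
  refine ⟨max 1 (2 - ε / 2), le_trans zero_le_one (le_max_left _ _), max_lt (by norm_num) (by linarith), ?_⟩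
  have hd : dist (max 1 (2 - ε / 2)) (2 : ℝ) < ε := by
    rw [Real.dist_eq, abs_lt]
    constructor
    · have := le_max_right 1 (2 - ε / 2); linarith
    · have : max 1 (2 - ε / 2) < 2 := max_lt (by norm_num) (by linarith)
      linarith
  have := h hd
  exact ⟨this.2.le, this.1.le⟩

lemma rho_lower {b' : ℝ} (h0 : 0 ≤ b') (h2 : b' < 2) : 0 < rho b' ∧ ∀ t, |t| ≤ b' → rho b' ≤ rho t := by
  have hpi := Real.pi_pos
  constructor
  · unfold rho
    have : 0 < 4 - b' ^ 2 := by nlinarith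
    positivity
  · intro t ht
    unfold rho
    refine div_le_div_of_nonneg_right (Real.sqrt_le_sqrt ?_) (by positivity)
    have h1 : t ^ 2 ≤ b' ^ 2 := by
      rw [← sq_abs t]; exact pow_le_pow_left₀ (abs_nonneg _) ht 2
    linarith

/-- quantiles -/
lemma exists_gamma {κ b : ℝ} (hb0 : 0 ≤ b) (hF1 : Fsc (-b) ≤ κ / 2) (hF2 : 1 - κ / 2 ≤ Fsc b)
    {n : ℕ} (hn : 2 ≤ κ * n) (i : ℕ) (h1 : κ * n ≤ (i : ℝ)) (h2 : (i : ℝ) ≤ (1 - κ) * n) :
    ∃ g : ℝ, |g| ≤ b ∧ n * Fsc g = i + 1 := by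
  have hn0 : (0 : ℝ) ≤ n := Nat.cast_nonneg n
  have hiv := intermediate_value_Icc (by linarith : -b ≤ b)
    ((continuous_const.mul Fsc_continuous).continuousOn : ContinuousOn (fun x => (n : ℝ) * Fsc x) (Set.Icc (-b) b))
  have hmem : ((i : ℝ) + 1) ∈ Set.Icc ((n : ℝ) * Fsc (-b)) ((n : ℝ) * Fsc b) := by
    constructor
    · nlinarith
    · nlinarith
  obtain ⟨g, hg, hgi⟩ := hiv hmem
  exact ⟨g, abs_le.mpr hg, hgi⟩

/-- `∫_{-b'}^{b'} (NN l - n F)²` -/
noncomputable def Jdev {M : ℕ} (n : ℕ) (b' : ℝ) (l : Fin M → ℝ) : ℝ :=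
  ∫ t in (-b')..b', (NN l t - n * Fsc t) ^ 2

lemma Jdev_meas {Ω : Type*} [MeasurableSpace Ω] {M : ℕ} (n : ℕ) {b' : ℝ} (hb : 0 ≤ b') {l : Ω → Fin M → ℝ}
    (hl : Measurable l) : Measurable (fun ω => Jdev n b' (l ω)) := by
  unfold Jdev
  simp_rw [intervalIntegral.integral_of_le (show -b' ≤ b' by linarith)]
  have h1 : Measurable (fun p : ℝ × Ω => (NN (l p.2) p.1 - n * Fsc p.1) ^ 2) :=
    ((NN_meas2 hl).sub ((Fsc_continuous.measurable.comp measurable_fst).const_mul _)).pow_const 2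
  exact (h1.stronglyMeasurable.integral_prod_left' (μ := volume.restrict (Set.Ioc (-b') b'))).measurable

lemma Jdev_abs {M n : ℕ} (hM : M ≤ n) {b' : ℝ} (hb : 0 ≤ b') (l : Fin M → ℝ) :
    |Jdev n b' l| ≤ (n : ℝ) ^ 2 * (2 * b') := by
  unfold Jdev
  have h := intervalIntegral.norm_integral_le_of_norm_le_const (a := -b') (b := b') (C := (n : ℝ) ^ 2)
    (f := fun t => (NN l t - n * Fsc t) ^ 2) (fun t _ => by
      rw [Real.norm_eq_abs, abs_pow]; exact pow_le_pow_left₀ (abs_nonneg _) (dev_abs hM l t) 2)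
  rw [Real.norm_eq_abs] at h
  refine h.trans (le_of_eq ?_)
  rw [abs_of_nonneg (by linarith)]
  ring

theorem Jdev_int {Ω : Type*} [MeasurableSpace Ω] (P : Measure Ω) [IsProbabilityMeasure P] {M n : ℕ}
    (hM : M ≤ n) {b' : ℝ} (hb : 0 ≤ b') (hb2 : b' < 2) {l : Ω → Fin M → ℝ} (hl : Measurable l) (A : ℝ)
    (h : ∀ x, |x| < 2 → ∫ ω, (NN (l ω) x - n * Fsc x) ^ 2 ∂P ≤ A / (2 - |x|)) :
    ∫ ω, Jdev n b' (l ω) ∂P ≤ 4 * A / (2 - b') := by
  have hA : 0 ≤ A := by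
    have h1 := h 0 (by norm_num)
    have h2 : 0 ≤ ∫ ω, (NN (l ω) 0 - n * Fsc 0) ^ 2 ∂P := integral_nonneg fun _ => sq_nonneg _
    have h3 := h2.trans h1
    norm_num at h3
    linarith
  set μ : Measure ℝ := volume.restrict (Set.Ioc (-b') b') with hμ
  have hfin : IsFiniteMeasure μ := by rw [hμ]; infer_instance
  have hms : Measurable (fun p : Ω × ℝ => (NN (l p.1) p.2 - n * Fsc p.2) ^ 2) := by
    have h1 : Measurable (fun p : ℝ × Ω => (NN (l p.2) p.1 - n * Fsc p.1) ^ 2) :=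
      ((NN_meas2 hl).sub ((Fsc_continuous.measurable.comp measurable_fst).const_mul _)).pow_const 2
    exact h1.comp measurable_swap
  have hprod : Integrable (fun p : Ω × ℝ => (NN (l p.1) p.2 - n * Fsc p.2) ^ 2) (P.prod μ) := by
    refine Integrable.of_bound hms.aestronglyMeasurable ((n : ℝ) ^ 2) (Filter.Eventually.of_forall fun p => ?_)
    rw [Real.norm_eq_abs, abs_pow]; exact pow_le_pow_left₀ (abs_nonneg _) (dev_abs hM _ _) 2
  have hswap : ∫ ω, ∫ t, (NN (l ω) t - n * Fsc t) ^ 2 ∂μ ∂P = ∫ t, ∫ ω, (NN (l ω) t - n * Fsc t) ^ 2 ∂P ∂μ :=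
    integral_integral_swap hprod
  have e1 : ∫ ω, Jdev n b' (l ω) ∂P = ∫ ω, ∫ t, (NN (l ω) t - n * Fsc t) ^ 2 ∂μ ∂P := by
    refine integral_congr_ae (Filter.Eventually.of_forall fun ω => ?_)
    simp only [Jdev, hμ]
    rw [intervalIntegral.integral_of_le (by linarith)]
  rw [e1, hswap]
  have h2 : ∫ t, ∫ ω, (NN (l ω) t - n * Fsc t) ^ 2 ∂P ∂μ ≤ ∫ _, A / (2 - b') ∂μ := by
    refine integral_mono_ae hprod.integral_prod_right (integrable_const _) ?_
    filter_upwards [ae_restrict_mem (μ := volume) (measurableSet_Ioc (a := -b') (b := b'))] with t ht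
    have h3 : |t| ≤ b' := abs_le.mpr ⟨ht.1.le, ht.2⟩
    refine (h t (h3.trans_lt hb2)).trans ?_
    exact div_le_div_of_nonneg_left hA (by linarith) (by linarith)
  refine h2.trans ?_
  have h4 : 0 ≤ A / (2 - b') := div_nonneg hA (by linarith)
  have h5 : ∫ _, A / (2 - b') ∂μ = 2 * b' * (A / (2 - b')) := by
    rw [hμ, ← intervalIntegral.integral_of_le (by linarith), intervalIntegral.integral_const, smul_eq_mul]
    ring
  rw [h5, mul_div_assoc]
  nlinarith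

theorem iW2 (hC : ICnt) (hG : ICntG) : IW2 := by
  intro κ₀ ν hκ₀ hν
  -- reduce to small κ
  set κ : ℝ := min κ₀ 1 with hκd
  have hκ : 0 < κ := lt_min hκ₀ one_pos
  have hκκ : κ ≤ κ₀ := min_le_left _ _
  obtain ⟨b, hb0, hb2, hF1, hF2⟩ := exists_b hκ
  set b' : ℝ := (b + 2) / 2 with hb'
  have hbb : b < b' := by rw [hb']; linarith
  have hb'2 : b' < 2 := by rw [hb']; linarith
  have hb'0 : 0 ≤ b' := hb0.trans hbb.le
  obtain ⟨hc, hrho⟩ := rho_lower hb'0 hb'2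
  set c : ℝ := rho b' with hcd
  set C1 : ℝ := 6 / c + 16 / (κ ^ 2 * (b' - b)) with hC1
  have hC10 : 0 < C1 := by
    have : 0 < b' - b := by linarith
    positivity
  set C2 : ℝ := 4 * b' / c with hC2
  have hC20 : 0 ≤ C2 := by positivity
  obtain ⟨n1, hn1, h1⟩ := dev_P hC (ν / 2) (by positivity)
  obtain ⟨n2, hn2, h2⟩ := dev_G hG (ν / 2) (by positivity)
  obtain ⟨n3, hn3⟩ := Filter.eventually_atTop.mp (ev_const (ν / 2)
    (2 * C1 * (4 / (2 - b')) + 2 * C1 * (4 / (2 - b')) + 4 * C2 + 40) (by positivity))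
  obtain ⟨n4, hn4⟩ := exists_nat_ge (2 / κ)
  refine ⟨max (max n1 n2) (max n3 n4), fun n hn he => ?_⟩
  have hnn1 : n1 ≤ n := (le_max_left _ _).trans ((le_max_left _ _).trans hn)
  have hnn2 : n2 ≤ n := (le_max_right _ _).trans ((le_max_left _ _).trans hn)
  have hnn3 : n3 ≤ n := (le_max_left _ _).trans ((le_max_right _ _).trans hn)
  have hnn4 : n4 ≤ n := (le_max_right _ _).trans ((le_max_right _ _).trans hn)
  have hnpos : 0 < n := lt_of_lt_of_le hn1 hnn1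
  have hn0 : (0 : ℝ) < n := by exact_mod_cast hnpos
  have hn1' : (1 : ℝ) ≤ n := by exact_mod_cast hnpos
  have hCn := hn3 n hnn3
  have hκn : 2 ≤ κ * n := by
    have h3 : 2 / κ ≤ n := hn4.trans (by exact_mod_cast hnn4)
    rw [div_le_iff₀ hκ] at h3
    linarith
  have := P2_prob he
  have : IsProbabilityMeasure (gm n) := instProbGmM n
  have hP := Jdev_int (P2 n) (Nat.sub_le n 1) hb'0 hb'2 (lamP_meas hnpos 1 0) _ (h1 n hnn1 he)
  have hQ := Jdev_int (gm n) (le_refl n) hb'0 hb'2 (lamG_meas n) _ (h2 n hnn2)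
  have hbP : ∀ σ : Pat n, Integrable (fun X : Arr n => Jdev n b' (lamP n 1 0 (σ, X))) (gm n) := by
    intro σ
    refine Integrable.of_bound (Jdev_meas n hb'0
      ((lamP_meas hnpos 1 0).comp measurable_prodMk_left)).aestronglyMeasurable ((n : ℝ) ^ 2 * (2 * b'))
      (Filter.Eventually.of_forall fun X => ?_)
    rw [Real.norm_eq_abs]
    exact Jdev_abs (Nat.sub_le n 1) hb'0 _
  have hbG : Integrable (fun X : Arr n => Jdev n b' (lamG n X)) (gm n) := by
    refine Integrable.of_bound (Jdev_meas n hb'0 (lamG_meas n)).aestronglyMeasurable ((n : ℝ) ^ 2 * (2 * b'))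
      (Filter.Eventually.of_forall fun X => ?_)
    rw [Real.norm_eq_abs]
    exact Jdev_abs le_rfl hb'0 _
  -- quantiles
  set S : Finset ℕ := (Finset.range (n - 1)).filter (fun i : ℕ => κ * n ≤ i ∧ (i : ℝ) ≤ (1 - κ) * n) with hSd
  have hS : ∀ i ∈ S, κ * n ≤ (i : ℝ) ∧ (i : ℝ) ≤ (1 - κ) * n := fun i hi => (Finset.mem_filter.mp hi).2
  have hSM : ∀ i ∈ S, i < n - 1 := fun i hi => Finset.mem_range.mp (Finset.mem_filter.mp hi).1
  have hγex : ∀ i : ℕ, ∃ g : ℝ, i ∈ S → |g| ≤ b ∧ n * Fsc g = i + 1 := by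
    intro i
    by_cases hi : i ∈ S
    · obtain ⟨g, hg⟩ := exists_gamma hb0 hF1 hF2 hκn i (hS i hi).1 (hS i hi).2
      exact ⟨g, fun _ => hg⟩
    · exact ⟨0, fun h => absurd h hi⟩
  choose γ hγ using hγex
  set T : Arr n → ℝ := fun X => ∑ i, ∑ j, (Wv (1 / (n : ℝ)) X i j) ^ 2 with hT
  set F1 : Pat n → Arr n → ℝ := fun σ X => Jdev n b' (lamP n 1 0 (σ, X)) with hF1'
  set F2 : Pat n → Arr n → ℝ := fun _ X => Jdev n b' (lamG n X) with hF2'
  set F3 : Pat n → Arr n → ℝ := fun _ X => (T X - n) ^ 2 with hF3'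
  have hi3 : Integrable (fun X => (T X - n) ^ 2) (gm n) := trW_int2 n
  have e1 : EJ F1 ≤ 4 * (n : ℝ) ^ (ν / 2) / (2 - b') := by
    have h5 := integral_P2 he F1 (fun σ _ => hbP σ)
    rw [← h5]; exact hP
  have e2 : EJ F2 ≤ 4 * (n : ℝ) ^ (ν / 2) / (2 - b') := by
    rw [hF2', EJ_fix he]; exact hQ
  have e3 : EJ F3 ≤ 10 := by
    rw [hF3', EJ_fix he]; exact trW_var n hnpos
  have e4 : EJ (fun (_ : Pat n) (_ : Arr n) => (2 / n * (2 * C2) : ℝ)) = 2 / n * (2 * C2) := by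
    rw [EJ_fix he]; simp
  have hi1 : ∀ σ ∈ Sn n, Integrable (F1 σ) (gm n) := fun σ _ => hbP σ
  have hi2 : ∀ σ ∈ Sn n, Integrable (F2 σ) (gm n) := fun σ _ => hbG
  have hi3' : ∀ σ ∈ Sn n, Integrable (F3 σ) (gm n) := fun σ _ => hi3
  have hsum : EJ (fun σ X => (2 / n * (2 * C2) : ℝ) + (2 / n * C1 * F1 σ X + (2 / n * C1 * F2 σ X + 2 / n * 2 * F3 σ X)))
      = 2 / n * (2 * C2) + (2 / n * C1 * EJ F1 + (2 / n * C1 * EJ F2 + 2 / n * 2 * EJ F3)) := by
    rw [EJ_add (F := fun _ _ => (2 / n * (2 * C2) : ℝ))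
      (G := fun σ X => 2 / n * C1 * F1 σ X + (2 / n * C1 * F2 σ X + 2 / n * 2 * F3 σ X))
      (fun _ _ => integrable_const _) (fun σ hσ => ((hi1 σ hσ).const_mul _).add
        (((hi2 σ hσ).const_mul _).add ((hi3' σ hσ).const_mul _))),
      EJ_add (F := fun σ X => 2 / n * C1 * F1 σ X) (G := fun σ X => 2 / n * C1 * F2 σ X + 2 / n * 2 * F3 σ X)
      (fun σ hσ => (hi1 σ hσ).const_mul _) (fun σ hσ => ((hi2 σ hσ).const_mul _).add ((hi3' σ hσ).const_mul _)),
      EJ_add (F := fun σ X => 2 / n * C1 * F2 σ X) (G := fun σ X => 2 / n * 2 * F3 σ X)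
      (fun σ hσ => (hi2 σ hσ).const_mul _) (fun σ hσ => (hi3' σ hσ).const_mul _),
      EJ_smul _ F1, EJ_smul _ F2, EJ_smul _ F3, e4]
  have hmain : EJ (n := n) (fun σ X => ∑ i ∈ (Finset.range (n - 1)).filter
        (fun i : ℕ => κ₀ * n ≤ i ∧ (i : ℝ) ≤ (1 - κ₀) * n),
        (evp (H0 σ) i - evs (Wv (N := n) (1 / (n : ℝ)) X) i) ^ 2)
      ≤ EJ (fun σ X => (2 / n * (2 * C2) : ℝ) + (2 / n * C1 * F1 σ X + (2 / n * C1 * F2 σ X + 2 / n * 2 * F3 σ X))) := by
    refine EJ_le (fun σ _ X => Finset.sum_nonneg fun _ _ => sq_nonneg _) (fun σ hσ X => ?_) (fun σ hσ => ?_)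
    · have hsub : ∑ i ∈ (Finset.range (n - 1)).filter
          (fun i : ℕ => κ₀ * n ≤ i ∧ (i : ℝ) ≤ (1 - κ₀) * n),
          (evp (H0 σ) i - evs (Wv (N := n) (1 / (n : ℝ)) X) i) ^ 2
          ≤ ∑ i ∈ S, (evp (H0 σ) i - evs (Wv (N := n) (1 / (n : ℝ)) X) i) ^ 2 := by
        refine Finset.sum_le_sum_of_subset_of_nonneg (fun i hi => ?_) fun _ _ _ => sq_nonneg _
        rw [Finset.mem_filter] at hi ⊢
        refine ⟨hi.1, ?_, ?_⟩
        · exact le_trans (mul_le_mul_of_nonneg_right hκκ hn0.le) hi.2.1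
        · exact hi.2.2.trans (mul_le_mul_of_nonneg_right (by linarith) hn0.le)
      refine hsub.trans ?_
      have hA := bulk_det (Nat.sub_le n 1) hnpos hκ hb0 hbb hb'2.le hc hrho hF1 hF2
        (lamP_mono hnpos 1 0 hσ X) (evp (H0 σ)) γ (fun i => (lamP_one_zero hσ X i).symm) S hSM hS
        (fun i hi => hγ i hi)
      have hB := bulk_det (le_refl n) hnpos hκ hb0 hbb hb'2.le hc hrho hF1 hF2
        (lamG_mono n X) (evs (Wv (N := n) (1 / (n : ℝ)) X)) γ (fun i => rfl) S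
        (fun i hi => (hSM i hi).trans_le (Nat.sub_le n 1)) hS (fun i hi => hγ i hi)
      rw [lamP_sq_eq hnpos hσ X] at hA
      rw [lamG_sq_eq X] at hB
      have h3 : ∑ i ∈ S, (evp (H0 σ) i - evs (Wv (N := n) (1 / (n : ℝ)) X) i) ^ 2
          ≤ 2 * ∑ i ∈ S, (evp (H0 σ) i - γ i) ^ 2
            + 2 * ∑ i ∈ S, (evs (Wv (N := n) (1 / (n : ℝ)) X) i - γ i) ^ 2 := by
        rw [Finset.mul_sum, Finset.mul_sum, ← Finset.sum_add_distrib]
        refine Finset.sum_le_sum fun i _ => ?_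
        nlinarith [sq_nonneg ((evp (H0 σ) i - γ i) + (evs (Wv (N := n) (1 / (n : ℝ)) X) i - γ i))]
      refine h3.trans ((add_le_add (mul_le_mul_of_nonneg_left hA (by norm_num))
        (mul_le_mul_of_nonneg_left hB (by norm_num))).trans (le_of_eq ?_))
      simp only [hF1', hF2', hF3', Jdev, hT]
      rw [← hC1, ← hC2]
      ring
    · exact (integrable_const _).add (((hi1 σ hσ).const_mul _).add
        (((hi2 σ hσ).const_mul _).add ((hi3' σ hσ).const_mul _)))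
  refine hmain.trans ?_
  rw [hsum]
  set Y : ℝ := (n : ℝ) ^ (ν / 2) with hY
  have hY1 : 1 ≤ Y := Real.one_le_rpow hn1' (by positivity)
  have hpow : (n : ℝ) ^ (-1 + ν) = (1 / n) * (Y * Y) := by
    rw [hY, ← Real.rpow_add hn0, Real.rpow_add hn0, Real.rpow_neg_one, one_div]
    congr 2
    ring
  rw [hpow]
  have hd2 : 0 < 2 - b' := by linarith
  have k1 : C1 * EJ F1 ≤ C1 * (4 / (2 - b')) * Y := by
    calc C1 * EJ F1 ≤ C1 * (4 * Y / (2 - b')) := mul_le_mul_of_nonneg_left e1 hC10.le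
      _ = _ := by ring
  have k2 : C1 * EJ F2 ≤ C1 * (4 / (2 - b')) * Y := by
    calc C1 * EJ F2 ≤ C1 * (4 * Y / (2 - b')) := mul_le_mul_of_nonneg_left e2 hC10.le
      _ = _ := by ring
  have k3 : 2 * (2 * C2) + (2 * (C1 * EJ F1) + (2 * (C1 * EJ F2) + 4 * EJ F3)) ≤ Y * Y := by
    have k4 : 2 * (2 * C2) + (2 * (C1 * EJ F1) + (2 * (C1 * EJ F2) + 4 * EJ F3))
        ≤ 4 * C2 + 2 * (C1 * (4 / (2 - b')) * Y) + 2 * (C1 * (4 / (2 - b')) * Y) + 40 := by linarith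
    have k5 : 4 * C2 + 2 * (C1 * (4 / (2 - b')) * Y) + 2 * (C1 * (4 / (2 - b')) * Y) + 40
        ≤ (2 * C1 * (4 / (2 - b')) + 2 * C1 * (4 / (2 - b')) + 4 * C2 + 40) * Y := by nlinarith
    exact k4.trans (k5.trans (mul_le_mul_of_nonneg_right hCn (by linarith)))
  calc 2 / n * (2 * C2) + (2 / n * C1 * EJ F1 + (2 / n * C1 * EJ F2 + 2 / n * 2 * EJ F3))
      = (1 / n) * (2 * (2 * C2) + (2 * (C1 * EJ F1) + (2 * (C1 * EJ F2) + 4 * EJ F3))) := by ring
    _ ≤ (1 / n) * (Y * Y) := mul_le_mul_of_nonneg_left k3 (by positivity)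

end Pool.Agent.ZR.I

end
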