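import Pool.Agent.ZRM.P14

/-!
# Merged form of the modules ZR.E4
-/

set_option autoImplicit false

section

/-!
# ZR part E4 : `eMain : EMain` and `eMainG : EMainG`

`Φ = P^q conj(P)^(q+1)`, `P = 1 + z m + m²`; `D_ab P = (z + 2m)(-(2/n)(G²)_ab)`.
-/


open MeasureTheory ProbabilityTheory Matrix Filter Topology

namespace Pool.Agent.ZR.E

/-- `P_z` as a function of the matrix `W` -/
noncomputable def Pz {N : ℕ} (Q : Matrix (Fin N) (Fin N) ℝ) (z : ℂ)
    (W : Matrix (Fin N) (Fin N) ℝ) : ℂ :=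
  1 + z * mz Q (Q * W * Q) z + mz Q (Q * W * Q) z ^ 2

/-- derivative of `P_z` in the direction `E^ab` -/
noncomputable def Pz' {N : ℕ} (Q : Matrix (Fin N) (Fin N) ℝ) (z : ℂ)
    (W : Matrix (Fin N) (Fin N) ℝ) (a b : Fin N) : ℂ :=
  (z + 2 * mz Q (Q * W * Q) z) * (-((2 / (N : ℂ)) * (Gz Q (Q * W * Q) z ^ 2) a b))

variable {N : ℕ} {Q : Matrix (Fin N) (Fin N) ℝ}

theorem Pz_hasDerivAt (hQs : Qᵀ = Q) (hQQ : Q * Q = Q) {W : Matrix (Fin N) (Fin N) ℝ}
    (hW : Wᵀ = W) (z : ℂ) (hz : z.im ≠ 0) (a b : Fin N) :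
    HasDerivAt (fun s : ℝ => Pz Q z (W + s • Eab a b)) (Pz' Q z W a b) 0 := by
  have h1 := mQ_hasDerivAt hQs hQQ hW z hz a b
  have h2 := (((h1.const_mul z).const_add 1).fun_add (h1.fun_pow 2))
  refine h2.congr_deriv ?_
  simp only [Pz', zero_smul, add_zero]
  push_cast
  ring

/-- the test function -/
noncomputable def Phi {N : ℕ} (Q : Matrix (Fin N) (Fin N) ℝ) (z : ℂ) (q : ℕ)
    (W : Matrix (Fin N) (Fin N) ℝ) : ℂ :=
  Pz Q z W ^ q * star (Pz Q z W) ^ (q + 1)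

noncomputable def Phi' {N : ℕ} (Q : Matrix (Fin N) (Fin N) ℝ) (z : ℂ) (q : ℕ)
    (W : Matrix (Fin N) (Fin N) ℝ) (a b : Fin N) : ℂ :=
  (q : ℂ) * Pz Q z W ^ (q - 1) * Pz' Q z W a b * star (Pz Q z W) ^ (q + 1)
    + Pz Q z W ^ q * (((q + 1 : ℕ) : ℂ) * star (Pz Q z W) ^ q * star (Pz' Q z W a b))

theorem Phi_hasDerivAt (hQs : Qᵀ = Q) (hQQ : Q * Q = Q) {W : Matrix (Fin N) (Fin N) ℝ}
    (hW : Wᵀ = W) (z : ℂ) (hz : z.im ≠ 0) (q : ℕ) (a b : Fin N) :
    HasDerivAt (fun s : ℝ => Phi Q z q (W + s • Eab a b)) (Phi' Q z q W a b) 0 := by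
  have h1 := Pz_hasDerivAt hQs hQQ hW z hz a b
  have h2 := h1.fun_pow q
  have h3 := (h1.star).fun_pow (q + 1)
  have h4 := HasDerivAt.fun_mul h2 h3
  refine h4.congr_deriv ?_
  simp only [Phi', zero_smul, add_zero, Nat.add_sub_cancel]

theorem Phi'_norm_le (z : ℂ) (q : ℕ) (W : Matrix (Fin N) (Fin N) ℝ) (a b : Fin N) :
    ‖Phi' Q z q W a b‖ ≤ (2 * (q : ℝ) + 1) * ‖Pz Q z W‖ ^ (2 * q) * ‖Pz' Q z W a b‖ := by
  have h1 : ‖(q : ℂ) * Pz Q z W ^ (q - 1) * Pz' Q z W a b * star (Pz Q z W) ^ (q + 1)‖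
      ≤ (q : ℝ) * ‖Pz Q z W‖ ^ (2 * q) * ‖Pz' Q z W a b‖ := by
    rcases Nat.eq_zero_or_pos q with rfl | hq
    · simp
    · rw [norm_mul, norm_mul, norm_mul, norm_pow, norm_pow, norm_star, Complex.norm_natCast]
      have : ‖Pz Q z W‖ ^ (2 * q) = ‖Pz Q z W‖ ^ (q - 1) * ‖Pz Q z W‖ ^ (q + 1) := by
        rw [← pow_add]; congr 1; omega
      rw [this]
      exact le_of_eq (by ring)
  have h2 : ‖Pz Q z W ^ q * (((q + 1 : ℕ) : ℂ) * star (Pz Q z W) ^ q * star (Pz' Q z W a b))‖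
      ≤ ((q : ℝ) + 1) * ‖Pz Q z W‖ ^ (2 * q) * ‖Pz' Q z W a b‖ := by
    rw [norm_mul, norm_mul, norm_mul, norm_pow, norm_pow, norm_star, norm_star,
      Complex.norm_natCast]
    push_cast
    exact le_of_eq (by ring)
  refine (norm_add_le _ _).trans ((add_le_add h1 h2).trans (le_of_eq ?_))
  ring

/-- bounded continuous -/
def BC (F : (Fin N × Fin N → ℝ) → ℂ) : Prop := Continuous F ∧ ∃ K : ℝ, ∀ X, ‖F X‖ ≤ K

theorem BC.add {F G : (Fin N × Fin N → ℝ) → ℂ} (hF : BC F) (hG : BC G) :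
    BC (fun X => F X + G X) := by
  obtain ⟨hF, K, hK⟩ := hF
  obtain ⟨hG, L, hL⟩ := hG
  exact ⟨hF.add hG, K + L, fun X => (norm_add_le _ _).trans (add_le_add (hK X) (hL X))⟩

theorem BC.neg {F : (Fin N × Fin N → ℝ) → ℂ} (hF : BC F) : BC (fun X => -F X) := by
  obtain ⟨hF, K, hK⟩ := hF
  exact ⟨hF.neg, K, fun X => by rw [norm_neg]; exact hK X⟩

theorem BC.sub {F G : (Fin N × Fin N → ℝ) → ℂ} (hF : BC F) (hG : BC G) :
    BC (fun X => F X - G X) := by
  simpa only [sub_eq_add_neg] using hF.add hG.neg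

theorem BC.mul {F G : (Fin N × Fin N → ℝ) → ℂ} (hF : BC F) (hG : BC G) :
    BC (fun X => F X * G X) := by
  obtain ⟨hF, K, hK⟩ := hF
  obtain ⟨hG, L, hL⟩ := hG
  refine ⟨hF.mul hG, K * L, fun X => ?_⟩
  rw [norm_mul]
  exact mul_le_mul (hK X) (hL X) (norm_nonneg _) ((norm_nonneg _).trans (hK X))

theorem BC.const (k : ℂ) : BC (fun _ : Fin N × Fin N → ℝ => k) :=
  ⟨continuous_const, ‖k‖, fun _ => le_rfl⟩

theorem BC.sum {ι : Type*} (s : Finset ι) {F : ι → (Fin N × Fin N → ℝ) → ℂ}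
    (hF : ∀ i, BC (F i)) : BC (fun X => ∑ i ∈ s, F i X) := by
  classical
  induction s using Finset.induction_on with
  | empty => simpa using BC.const (N := N) 0
  | insert i s hi ih =>
    simp only [Finset.sum_insert hi]
    exact (hF i).add ih

theorem BC.integrable {F : (Fin N × Fin N → ℝ) → ℂ} (hF : BC F) : Integrable F (gm N) := by
  obtain ⟨hF, K, hK⟩ := hF
  refine gm_integrable_of_le hF.aestronglyMeasurable K 0 fun X => ?_
  simpa using hK X

/-- The general moment bound. -/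
theorem e_gen (q : ℕ) (hN : 0 < N) (hQs : Qᵀ = Q) (hQQ : Q * Q = Q) (c : ℝ) (hc : 0 ≤ c)
    (hcQ : c = 1 - Q.trace / N) (z : ℂ) (hz : 0 < z.im) (hr : |z.re| ≤ 2 + z.im)
    (hn : 1 ≤ N * z.im) :
    ∫ X, ‖Pz Q z (Wv (N := N) (1 / (N : ℝ)) X)‖ ^ (2 * (q + 1)) ∂(gm N)
      ≤ 4 * (8 * (19 + 38 * (2 * (q : ℝ) + 1))) ^ (2 * (q + 1))
          * (c + 1 / (N * z.im)) ^ (2 * (q + 1)) := by
  have hN' : (0 : ℝ) < N := Nat.cast_pos.mpr hN
  have hNC : (N : ℂ) ≠ 0 := by exact_mod_cast hN.ne'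
  set v : ℝ := 1 / (N : ℝ) with hv
  have hv0 : 0 ≤ v := by rw [hv]; positivity
  set W : (Fin N × Fin N → ℝ) → Matrix (Fin N) (Fin N) ℝ := fun X => Wv v X with hW
  have hWs : ∀ X, (W X)ᵀ = W X := fun X => wv_symm v X
  have hP : ∀ X, PB Q (Q * W X * Q) := fun X => pb_QWQ hQs hQQ (hWs X)
  have hBc : Continuous (fun X : Fin N × Fin N → ℝ => Q * W X * Q) :=
    (continuous_const.matrix_mul (wv_continuous v)).matrix_mul continuous_const
  have hz' : z.im ≠ 0 := hz.ne'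
  have hmc : Continuous (fun X => mz Q (Q * W X * Q) z) := mz_continuous hBc hP z hz'
  have hGc : Continuous (fun X => Gz Q (Q * W X * Q) z) := gz_continuous hBc hP z hz'
  have hPc : Continuous (fun X => Pz Q z (W X)) := by
    unfold Pz
    exact (continuous_const.add (continuous_const.mul hmc)).add (hmc.pow 2)
  have hP'c : ∀ a b, Continuous (fun X => Pz' Q z (W X) a b) := by
    intro a b
    unfold Pz'
    exact (continuous_const.add (continuous_const.mul hmc)).mul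
      ((continuous_const.mul ((hGc.pow 2).matrix_elem a b)).neg)
  have hm_le : ∀ X, ‖mz Q (Q * W X * Q) z‖ ≤ 1 / z.im := by
    intro X
    have := mz_norm_le (hP X) z hz'
    rwa [abs_of_pos hz] at this
  have hG_le : ∀ X i j, ‖Gz Q (Q * W X * Q) z i j‖ ≤ 1 / z.im := by
    intro X i j
    have := g_entry_le (hP X) z hz' i j
    rwa [abs_of_pos hz] at this
  -- crude bounds
  obtain ⟨Pb, hPb⟩ : ∃ Pb : ℝ, ∀ X, ‖Pz Q z (W X)‖ ≤ Pb := by
    refine ⟨1 + ‖z‖ * (1 / z.im) + (1 / z.im) ^ 2, fun X => ?_⟩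
    unfold Pz
    refine (norm_add_le _ _).trans (add_le_add ((norm_add_le _ _).trans
      (add_le_add (by simp) ?_)) ?_)
    · rw [norm_mul]
      exact mul_le_mul_of_nonneg_left (hm_le X) (norm_nonneg _)
    · rw [norm_pow]
      exact pow_le_pow_left₀ (norm_nonneg _) (hm_le X) 2
  have hPb0 : 0 ≤ Pb := (norm_nonneg _).trans (hPb 0)
  obtain ⟨Pb', hPb'⟩ : ∃ Pb' : ℝ, ∀ X a b, ‖Pz' Q z (W X) a b‖ ≤ Pb' := by
    refine ⟨(‖z‖ + 2 * (1 / z.im)) * (2 / N * (N * (1 / z.im * (1 / z.im)))), fun X a b => ?_⟩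
    unfold Pz'
    rw [norm_mul, norm_neg, norm_mul]
    have h1 : ‖z + 2 * mz Q (Q * W X * Q) z‖ ≤ ‖z‖ + 2 * (1 / z.im) := by
      refine (norm_add_le _ _).trans (add_le_add le_rfl ?_)
      rw [norm_mul]
      have := hm_le X
      simp only [Complex.norm_ofNat]
      linarith
    have h2 : ‖(2 / (N : ℂ))‖ = 2 / N := by
      rw [norm_div, Complex.norm_natCast, Complex.norm_ofNat]
    have h3 : ‖(Gz Q (Q * W X * Q) z ^ 2) a b‖ ≤ N * (1 / z.im * (1 / z.im)) := by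
      rw [pow_two, Matrix.mul_apply]
      refine (norm_sum_le _ _).trans ?_
      calc ∑ i, ‖Gz Q (Q * W X * Q) z a i * Gz Q (Q * W X * Q) z i b‖
          ≤ ∑ _i : Fin N, 1 / z.im * (1 / z.im) := by
            refine Finset.sum_le_sum fun i _ => ?_
            rw [norm_mul]
            exact mul_le_mul (hG_le X a i) (hG_le X i b) (norm_nonneg _) (by positivity)
        _ = N * (1 / z.im * (1 / z.im)) := by simp
    rw [h2]
    have hz0 : 0 ≤ z.im := hz.le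
    gcongr
  have hΦc : Continuous (fun X => Phi Q z q (W X)) := by
    unfold Phi
    exact (hPc.pow q).mul ((continuous_star.comp hPc).pow (q + 1))
  have hDc : ∀ a b, Continuous (fun X => Phi' Q z q (W X) a b) := by
    intro a b
    unfold Phi'
    have h1 := hP'c a b
    have h2 : Continuous fun X => star (Pz Q z (W X)) := continuous_star.comp hPc
    have h3 : Continuous fun X => star (Pz' Q z (W X) a b) := continuous_star.comp h1
    exact ((((continuous_const.mul (hPc.pow _)).mul h1).mul (h2.pow _))).add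
      ((hPc.pow _).mul ((continuous_const.mul (h2.pow _)).mul h3))
  have hΦn : ∀ X, ‖Phi Q z q (W X)‖ = ‖Pz Q z (W X)‖ ^ (2 * q + 1) := by
    intro X
    unfold Phi
    rw [norm_mul, norm_pow, norm_pow, norm_star, ← pow_add]
    congr 1
    ring
  have hPb'0 : 0 ≤ Pb' := (norm_nonneg _).trans (hPb' 0 ⟨0, hN⟩ ⟨0, hN⟩)
  set C : ℝ := max (Pb ^ (2 * q + 1)) ((2 * (q : ℝ) + 1) * Pb ^ (2 * q) * Pb') with hC
  have hΦb : ∀ X, ‖Phi Q z q (W X)‖ ≤ C := by
    intro X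
    rw [hΦn]
    exact (pow_le_pow_left₀ (norm_nonneg _) (hPb X) _).trans (le_max_left _ _)
  have hDb : ∀ X a b, ‖Phi' Q z q (W X) a b‖ ≤ C := by
    intro X a b
    refine (Phi'_norm_le z q (W X) a b).trans (le_trans ?_ (le_max_right _ _))
    have h1 := hPb X
    have h2 := hPb' X a b
    gcongr
  have hloop := loop_eq hQs hQQ hv0 z hz' (Φ := Phi Q z q)
    (D := fun a b X => Phi' Q z q (W X) a b)
    (fun X a b => Phi_hasDerivAt hQs hQQ (hWs X) z hz' q a b) hΦc hDc hΦb hDb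
  have hG_bc : ∀ i j, BC (fun X => Gz Q (Q * W X * Q) z i j) := fun i j =>
    ⟨hGc.matrix_elem i j, 1 / z.im, fun X => hG_le X i j⟩
  have hΦ_bc : BC (fun X => Phi Q z q (W X)) := ⟨hΦc, C, hΦb⟩
  have hD_bc : ∀ a b, BC (fun X => Phi' Q z q (W X) a b) := fun a b =>
    ⟨hDc a b, C, fun X => hDb X a b⟩
  have hP_bc : BC (fun X => Pz Q z (W X)) := ⟨hPc, Pb, hPb⟩
  have htr_bc : BC (fun X => (Gz Q (Q * W X * Q) z).trace) :=
    BC.sum Finset.univ fun i => hG_bc i i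
  have htr2_bc : BC (fun X => (Gz Q (Q * W X * Q) z ^ 2).trace) := by
    have h1 : BC (fun X => ∑ i, ∑ k, Gz Q (Q * W X * Q) z i k * Gz Q (Q * W X * Q) z k i) :=
      BC.sum Finset.univ fun i => BC.sum Finset.univ fun k => (hG_bc i k).mul (hG_bc k i)
    refine ⟨(hGc.pow 2).matrix_trace, h1.2.choose, fun X => ?_⟩
    have h2 := h1.2.choose_spec X
    have h3 : (Gz Q (Q * W X * Q) z ^ 2).trace
        = ∑ i, ∑ k, Gz Q (Q * W X * Q) z i k * Gz Q (Q * W X * Q) z k i := by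
      rw [pow_two, Matrix.trace]
      exact Finset.sum_congr rfl fun i _ => by rw [Matrix.diag_apply, Matrix.mul_apply]
    change ‖(Gz Q (Q * W X * Q) z ^ 2).trace‖ ≤ _
    rw [h3]
    exact h2
  have hsum_bc : BC (fun X => ∑ a, ∑ b, Gz Q (Q * W X * Q) z b a * Phi' Q z q (W X) a b) :=
    BC.sum Finset.univ fun a => BC.sum Finset.univ fun b => (hG_bc b a).mul (hD_bc a b)
  -- the remainder
  set R : (Fin N × Fin N → ℝ) → ℂ := fun X =>
    (c : ℂ) * Phi Q z q (W X)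
      - (v : ℂ) * ((v : ℂ) * (Gz Q (Q * W X * Q) z ^ 2).trace) * Phi Q z q (W X)
      + (v : ℂ) * ((v : ℂ) * ∑ a, ∑ b, Gz Q (Q * W X * Q) z b a * Phi' Q z q (W X) a b) with hR
  have hR_bc : BC R :=
    (((BC.const (c : ℂ)).mul hΦ_bc).sub
      (((BC.const (v : ℂ)).mul ((BC.const (v : ℂ)).mul htr2_bc)).mul hΦ_bc)).add
      ((BC.const (v : ℂ)).mul ((BC.const (v : ℂ)).mul hsum_bc))
  set A : (Fin N × Fin N → ℝ) → ℂ := fun X =>
    ((Q.trace : ℂ) + z * (Gz Q (Q * W X * Q) z).trace) * Phi Q z q (W X) with hA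
  have hA_bc : BC A := ((BC.const _).add ((BC.const z).mul htr_bc)).mul hΦ_bc
  set B : (Fin N × Fin N → ℝ) → ℂ := fun X =>
    (-((v : ℂ) * ((Gz Q (Q * W X * Q) z ^ 2).trace
            + (Gz Q (Q * W X * Q) z).trace ^ 2) * Phi Q z q (W X))
          + (v : ℂ) * ∑ a, ∑ b, Gz Q (Q * W X * Q) z b a * Phi' Q z q (W X) a b) with hB
  have hB_bc : BC B := by
    have h1 : BC (fun X => (Gz Q (Q * W X * Q) z).trace ^ 2) := by
      simpa only [pow_two] using htr_bc.mul htr_bc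
    exact ((((BC.const (v : ℂ)).mul (htr2_bc.add h1)).mul hΦ_bc).neg).add
      ((BC.const (v : ℂ)).mul hsum_bc)
  have hloop' : ∫ X, A X ∂(gm N) = ∫ X, B X ∂(gm N) := hloop
  have hm_eq : ∀ X, mz Q (Q * W X * Q) z = (v : ℂ) * (Gz Q (Q * W X * Q) z).trace := by
    intro X
    rw [mz, hv]
    push_cast
    rfl
  have hcC : (c : ℂ) = 1 - (v : ℂ) * (Q.trace : ℂ) := by
    rw [hcQ, hv]; push_cast; ring
  have hpt : ∀ X, Pz Q z (W X) * Phi Q z q (W X) = R X + ((v : ℂ) * A X - (v : ℂ) * B X) := by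
    intro X
    simp only [hR, hA, hB, Pz, hm_eq X, hcC]
    ring
  have hPR : ∫ X, Pz Q z (W X) * Phi Q z q (W X) ∂(gm N) = ∫ X, R X ∂(gm N) := by
    simp only [hpt]
    rw [integral_add hR_bc.integrable
      ((((BC.const (v : ℂ)).mul hA_bc).sub ((BC.const (v : ℂ)).mul hB_bc)).integrable),
      integral_sub ((BC.const (v : ℂ)).mul hA_bc).integrable
        ((BC.const (v : ℂ)).mul hB_bc).integrable,
      integral_const_mul, integral_const_mul, hloop', sub_self, add_zero]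
  -- the left side
  have hPP : ∀ X, Pz Q z (W X) * Phi Q z q (W X)
      = ((‖Pz Q z (W X)‖ ^ (2 * (q + 1)) : ℝ) : ℂ) := by
    intro X
    have h1 : Pz Q z (W X) * star (Pz Q z (W X)) = ((‖Pz Q z (W X)‖ ^ 2 : ℝ) : ℂ) := by
      rw [Complex.star_def, Complex.mul_conj, Complex.normSq_eq_norm_sq]
    calc Pz Q z (W X) * Phi Q z q (W X)
        = (Pz Q z (W X) * star (Pz Q z (W X))) ^ (q + 1) := by
          rw [Phi, mul_pow]; ring
      _ = _ := by rw [h1, pow_mul]; push_cast; rfl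
  simp only [hPP] at hPR
  rw [integral_complex_ofReal] at hPR
  set I : ℝ := ∫ X, ‖Pz Q z (W X)‖ ^ (2 * (q + 1)) ∂(gm N) with hI
  have hI0 : 0 ≤ I := integral_nonneg fun X => by positivity
  set ε : ℝ := 1 / (N * z.im) with hε
  have hε0 : 0 ≤ ε := by rw [hε]; positivity
  have hε1 : ε ≤ 1 := by
    rw [hε, div_le_one (by positivity)]; exact hn
  have hvε : v / z.im = ε := by rw [hv, hε]; field_simp
  set K : ℝ := (8 * (19 + 38 * (2 * (q : ℝ) + 1))) ^ (2 * (q + 1)) with hK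
  have hRb : ∀ X, ‖R X‖ ≤ (1 / 2) * ‖Pz Q z (W X)‖ ^ (2 * (q + 1))
      + 2 * K * (c + ε) ^ (2 * (q + 1)) := by
    intro X
    have hm := hm_le X
    have hPeq : Pz Q z (W X) = 1 + z * mz Q (Q * W X * Q) z + mz Q (Q * W X * Q) z ^ 2 := rfl
    have h1 := e3_m hz hr hPeq hm
    have h2 := e3_zm hz hr hPeq hm
    have htrim : (Gz Q (Q * W X * Q) z).trace.im = N * (mz Q (Q * W X * Q) z).im := by
      have h3 : (Gz Q (Q * W X * Q) z).trace = ((N : ℝ) : ℂ) * mz Q (Q * W X * Q) z := by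
        rw [hm_eq X, hv]; push_cast; field_simp
      rw [h3, Complex.im_ofReal_mul]
    have hmim : (mz Q (Q * W X * Q) z).im ≤ ‖mz Q (Q * W X * Q) z‖ :=
      (le_abs_self _).trans (Complex.abs_im_le_norm _)
    have hx0 := norm_nonneg (Pz Q z (W X))
    have hm0 := norm_nonneg (mz Q (Q * W X * Q) z)
    -- second term
    have ht2 : ‖(v : ℂ) * ((v : ℂ) * (Gz Q (Q * W X * Q) z ^ 2).trace) * Phi Q z q (W X)‖
        ≤ ε * ‖mz Q (Q * W X * Q) z‖ * ‖Pz Q z (W X)‖ ^ (2 * q + 1) := by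
      have h3 := tr_pow (hP X) z hz 1 le_rfl
      rw [htrim, pow_one] at h3
      have h4 : ‖(v : ℂ) * ((v : ℂ) * (Gz Q (Q * W X * Q) z ^ 2).trace)‖
          ≤ ε * ‖mz Q (Q * W X * Q) z‖ := by
        rw [norm_mul, norm_mul, Complex.norm_real, Real.norm_eq_abs, abs_of_nonneg hv0]
        calc v * (v * ‖(Gz Q (Q * W X * Q) z ^ 2).trace‖)
            ≤ v * (v * (N * (mz Q (Q * W X * Q) z).im / z.im)) := by
              refine mul_le_mul_of_nonneg_left (mul_le_mul_of_nonneg_left ?_ hv0) hv0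
              simpa using h3
          _ = (v / z.im) * (mz Q (Q * W X * Q) z).im := by
              rw [hv]; field_simp
          _ ≤ (v / z.im) * ‖mz Q (Q * W X * Q) z‖ :=
              mul_le_mul_of_nonneg_left hmim (by positivity)
          _ = _ := by rw [hvε]
      rw [norm_mul, hΦn]
      exact mul_le_mul_of_nonneg_right h4 (by positivity)
    -- third term
    have ht3 : ‖(v : ℂ) * ((v : ℂ) * ∑ a, ∑ b, Gz Q (Q * W X * Q) z b a *
        Phi' Q z q (W X) a b)‖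
        ≤ 2 * (2 * (q : ℝ) + 1) * ε ^ 2
          * (‖z + 2 * mz Q (Q * W X * Q) z‖ * ‖mz Q (Q * W X * Q) z‖)
          * ‖Pz Q z (W X)‖ ^ (2 * q) := by
      have h3 := e3_S (hP X) z hz
      rw [htrim] at h3
      set w := ‖z + 2 * mz Q (Q * W X * Q) z‖ with hw
      have hw0 : 0 ≤ w := norm_nonneg _
      have h4 : ‖∑ a, ∑ b, Gz Q (Q * W X * Q) z b a * Phi' Q z q (W X) a b‖
          ≤ (2 * (q : ℝ) + 1) * ‖Pz Q z (W X)‖ ^ (2 * q) * w * (2 / N) *
            ∑ a, ∑ b, ‖Gz Q (Q * W X * Q) z b a‖ * ‖(Gz Q (Q * W X * Q) z ^ 2) a b‖ := by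
        refine (norm_sum_le _ _).trans ?_
        rw [Finset.mul_sum]
        refine Finset.sum_le_sum fun a _ => ?_
        refine (norm_sum_le _ _).trans ?_
        rw [Finset.mul_sum]
        refine Finset.sum_le_sum fun b _ => ?_
        rw [norm_mul]
        have h5 := Phi'_norm_le z q (Q := Q) (W X) a b
        have h6 : ‖Pz' Q z (W X) a b‖ = w * (2 / N * ‖(Gz Q (Q * W X * Q) z ^ 2) a b‖) := by
          rw [Pz', norm_mul, norm_neg, norm_mul, norm_div, Complex.norm_natCast,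
            Complex.norm_ofNat]
        rw [h6] at h5
        calc ‖Gz Q (Q * W X * Q) z b a‖ * ‖Phi' Q z q (W X) a b‖
            ≤ ‖Gz Q (Q * W X * Q) z b a‖ * ((2 * (q : ℝ) + 1) * ‖Pz Q z (W X)‖ ^ (2 * q) *
                (w * (2 / N * ‖(Gz Q (Q * W X * Q) z ^ 2) a b‖))) :=
              mul_le_mul_of_nonneg_left h5 (norm_nonneg _)
          _ = _ := by ring
      rw [norm_mul, norm_mul, Complex.norm_real, Real.norm_eq_abs, abs_of_nonneg hv0]
      calc v * (v * ‖∑ a, ∑ b, Gz Q (Q * W X * Q) z b a * Phi' Q z q (W X) a b‖)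
          ≤ v * (v * ((2 * (q : ℝ) + 1) * ‖Pz Q z (W X)‖ ^ (2 * q) * w * (2 / N) *
              (N * (mz Q (Q * W X * Q) z).im / z.im ^ 2))) := by
            refine mul_le_mul_of_nonneg_left (mul_le_mul_of_nonneg_left ?_ hv0) hv0
            exact h4.trans (mul_le_mul_of_nonneg_left h3 (by positivity))
        _ = 2 * (2 * (q : ℝ) + 1) * (v / z.im) ^ 2 * (w * (mz Q (Q * W X * Q) z).im)
            * ‖Pz Q z (W X)‖ ^ (2 * q) := by
            field_simp
        _ ≤ 2 * (2 * (q : ℝ) + 1) * (v / z.im) ^ 2 * (w * ‖mz Q (Q * W X * Q) z‖)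
            * ‖Pz Q z (W X)‖ ^ (2 * q) := by
            gcongr
        _ = _ := by rw [hvε]
    have ht1 : ‖(c : ℂ) * Phi Q z q (W X)‖ = c * ‖Pz Q z (W X)‖ ^ (2 * q + 1) := by
      rw [norm_mul, hΦn, Complex.norm_real, Real.norm_eq_abs, abs_of_nonneg hc]
    have hsum : ‖R X‖ ≤ c * ‖Pz Q z (W X)‖ ^ (2 * q + 1)
        + ε * ‖mz Q (Q * W X * Q) z‖ * ‖Pz Q z (W X)‖ ^ (2 * q + 1)
        + 2 * (2 * (q : ℝ) + 1) * ε ^ 2
          * (‖z + 2 * mz Q (Q * W X * Q) z‖ * ‖mz Q (Q * W X * Q) z‖)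
          * ‖Pz Q z (W X)‖ ^ (2 * q) := by
      simp only [hR]
      refine (norm_add_le _ _).trans (add_le_add ?_ ht3)
      refine (norm_sub_le _ _).trans (add_le_add ht1.le ht2)
    exact hsum.trans (e3_pt q hc hε0 hε1 hx0 hm0 h1 h2)
  have hxint : Integrable (fun X => ‖Pz Q z (W X)‖ ^ (2 * (q + 1))) (gm N) := by
    have h1 : BC (fun X => Pz Q z (W X) * Phi Q z q (W X)) := hP_bc.mul hΦ_bc
    have h2 := h1.integrable.norm
    refine h2.congr (Filter.Eventually.of_forall fun X => ?_)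
    simp only [hPP]
    rw [Complex.norm_real, Real.norm_eq_abs, abs_of_nonneg (by positivity)]
  have hfin : I ≤ (1 / 2) * I + 2 * K * (c + ε) ^ (2 * (q + 1)) := by
    have h1 : ‖∫ X, R X ∂(gm N)‖ ≤ ∫ X, ((1 / 2) * ‖Pz Q z (W X)‖ ^ (2 * (q + 1))
      + 2 * K * (c + ε) ^ (2 * (q + 1))) ∂(gm N) :=
      norm_integral_le_of_norm_le ((hxint.const_mul _).add (integrable_const _))
        (Filter.Eventually.of_forall hRb)
    rw [integral_add (hxint.const_mul _) (integrable_const _), integral_const_mul,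
      integral_const, ← hPR, Complex.norm_real, Real.norm_eq_abs, abs_of_nonneg hI0] at h1
    simpa using h1
  linarith

theorem Pz_eq (Q : Matrix (Fin N) (Fin N) ℝ) (z : ℂ) (W : Matrix (Fin N) (Fin N) ℝ) :
    Pz Q z W = 1 + z * mz Q (Q * W * Q) z + mz Q (Q * W * Q) z ^ 2 := rfl

end Pool.Agent.ZR.E

namespace Pool.Agent.ZR

open Pool.Agent.ZR.E

/-- PART E, target 1 -/
theorem eMain : EMain := by
  intro p
  rcases p with _ | q
  · refine ⟨1, one_pos, fun n hn z hz hr h1 => ?_⟩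
    simp
  · refine ⟨4 * (8 * (19 + 38 * (2 * (q : ℝ) + 1))) ^ (2 * (q + 1)), by positivity,
      fun n hn z hz hr h1 => ?_⟩
    have hn' : (0 : ℝ) < n := Nat.cast_pos.mpr hn
    have hc : (1 / (n : ℝ)) = 1 - (Pn n).trace / n := by
      rw [Pn_trace n hn]; field_simp; ring
    exact e_gen q hn (Pn_symm n) (Pn_idem n) (1 / (n : ℝ)) (by positivity) hc z hz hr h1

/-- PART E, target 2 -/
theorem eMainG : EMainG := by
  intro p
  rcases p with _ | q
  · refine ⟨1, one_pos, fun n hn z hz hr h1 => ?_⟩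
    simp
  · refine ⟨4 * (8 * (19 + 38 * (2 * (q : ℝ) + 1))) ^ (2 * (q + 1)), by positivity,
      fun n hn z hz hr h1 => ?_⟩
    have hn' : (0 : ℝ) < n := Nat.cast_pos.mpr hn
    have hc : (0 : ℝ) = 1 - (1 : Matrix (Fin n) (Fin n) ℝ).trace / n := by
      rw [Matrix.trace_one, Fintype.card_fin, div_self hn'.ne', sub_self]
    have h := e_gen (Q := (1 : Matrix (Fin n) (Fin n) ℝ)) q hn (by simp) (by simp) 0 le_rfl hc
      z hz hr h1
    simp only [Pz_eq, Matrix.one_mul, Matrix.mul_one, zero_add] at h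
    refine h.trans (le_of_eq ?_)
    rw [div_pow, one_pow]
    ring

end Pool.Agent.ZR

end
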