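import Pool.Agent.ZRM.P28

/-!
# Merged form of the modules ZR.FR3
-/

set_option autoImplicit false

section

/-!
# ZR/FR3 : `fRes : BNorm → FMain → FRes`

`momR`.  `r_xy Ψ = ‖r_xy‖^{2p}` and `r_xy = (H0 G)_xy + α m G_xy`, so `EJ‖r_xy‖^{2p}` is the norm of the
left side of `switchR`, averaged over `X`.  With
`bd = κ' Z + 1_bad C(10n)^{20p+20}`, `κ' = CΛ⁴Γ^{8p+8}(τ+1/√n) ≤ 1/6`, and
`M = max_{x,y} EJ‖r_xy‖^{2p} < ∞`:
`M ≤ κ'(1 + 3M) + C(10n)^{20p+20} PJ(bad)`, hence `M ≤ 1 + 2C(10n)^{20p+20}PJ(bad)`.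
(Integrability: `r_xy` is continuous and bounded in `X`.)

`fRes`: given `ν, D` (`ν < 1` w.l.o.g. in the choice of `ν'`; for `ν ≥ 1` put `ν₁ = min ν (1/2)` and use
the result for `ν₁`: the event is smaller and `u ≥ n^{-1+ν} ≥ n^{-1+ν₁}`).  Choose `p ≥ 2` with
`2pν ≥ D + 4`, then `ν' > 0` with `(8p+9)ν' < ν/8`.  For `n^{-1+ν} ≤ u ≤ 1`, `FMain` with exponents
`ν'`, `D'` gives `GamLe (Pn n) B E n^{-1+ν'} n^{ν'}`, in particular `GamLe .. E u n^{ν'}`; for `u > 1`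
`GamLe .. E u 1` holds trivially.  With `BNorm` at `(1,0)`: `GoodF` holds outside probability
`n^{-D'} + e^{-n}` with `Λ = K log n`, `Γ = 1 + n^{ν'} log n`, `τ = √(n^{ν'}/(nu)) ≤ n^{(ν'-ν)/2}`
(as in F8: `entry_log`, `ward`), `κ' → 0`.  Markov: `PJ(‖r_xy‖ > n^ν) ≤ n^{-2pν}EJ‖r_xy‖^{2p} ≤
n^{-D-4}(1 + 2C(10n)^{20p+20}(n^{-D'}+e^{-n})) ≤ 2n^{-D-4}`, sum over `n²` pairs.
-/


open MeasureTheory ProbabilityTheory Matrix

namespace Pool.Agent.ZR.F

private theorem gmP (n : ℕ) : IsProbabilityMeasure (gm n) := by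
  unfold gm; infer_instance

private theorem EU_add' {n : ℕ} (f g : (Fin n → Fin n → Bool) → ℂ) (c : ℂ) :
    EU f + c * EU g = EU (fun σ => f σ + c * g σ) := by
  unfold EU
  rw [Finset.sum_add_distrib, ← Finset.mul_sum, smul_add, mul_smul_comm]

private theorem EU_real' {n : ℕ} (f : (Fin n → Fin n → Bool) → ℝ) :
    EU (fun σ => ((f σ : ℝ) : ℂ)) = ((EU f : ℝ) : ℂ) := by
  unfold EU
  rw [← Complex.ofReal_sum, Complex.real_smul, smul_eq_mul, Complex.ofReal_mul]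

private theorem EU_mono' {n : ℕ} {f g : (Fin n → Fin n → Bool) → ℝ}
    (h : ∀ σ ∈ Sn n, f σ ≤ g σ) : EU f ≤ EU g := by
  unfold EU
  simp only [smul_eq_mul]
  exact mul_le_mul_of_nonneg_left (Finset.sum_le_sum h) (by positivity)

private theorem EU_congr' {n : ℕ} {V : Type*} [AddCommGroup V] [Module ℝ V]
    {f g : (Fin n → Fin n → Bool) → V}
    (h : ∀ σ ∈ Sn n, f σ = g σ) : EU f = EU g := by
  unfold EU
  rw [Finset.sum_congr rfl h]

private theorem EU_nonneg' {n : ℕ} {f : (Fin n → Fin n → Bool) → ℝ}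
    (h : ∀ σ ∈ Sn n, 0 ≤ f σ) : 0 ≤ EU f := by
  unfold EU
  simp only [smul_eq_mul]
  exact mul_nonneg (by positivity) (Finset.sum_nonneg h)

private theorem EU_const_le' {n : ℕ} {c : ℝ} (hc : 0 ≤ c) :
    EU (fun _ : Fin n → Fin n → Bool => c) ≤ c := by
  unfold EU
  rw [Finset.sum_const, nsmul_eq_mul, smul_eq_mul, ← mul_assoc]
  rcases Nat.eq_zero_or_pos (Sn n).card with h | h
  · rw [h]; simpa using hc
  · have h' : ((Sn n).card : ℝ) ≠ 0 := by positivity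
    rw [inv_mul_cancel₀ h', one_mul]

private theorem EU_lin3 {n : ℕ} (f g h : (Fin n → Fin n → Bool) → ℝ)
    (k : Fin n → (Fin n → Fin n → Bool) → ℝ) (a b : ℝ)
    (ind : (Fin n → Fin n → Bool) → ℝ) (e : ℝ) :
    EU (fun σ => a * (f σ + g σ + h σ + b * ∑ i, k i σ) + e * ind σ)
      = a * (EU f + EU g + EU h + b * ∑ i, EU (k i)) + e * EU ind := by
  unfold EU
  simp only [smul_eq_mul, Finset.sum_add_distrib, ← Finset.mul_sum]
  rw [Finset.sum_comm]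
  ring

private theorem EU_int' {n : ℕ} (f : (Fin n → Fin n → Bool) → (Fin n × Fin n → ℝ) → ℝ)
    (hf : ∀ σ ∈ Sn n, Integrable (f σ) (gm n)) :
    ∫ X, EU (fun σ => f σ X) ∂(gm n) = EU (fun σ => ∫ X, f σ X ∂(gm n)) := by
  unfold EU
  simp only [smul_eq_mul]
  rw [integral_const_mul, integral_finsetSum _ hf]

private theorem EU_intb' {n : ℕ} (f : (Fin n → Fin n → Bool) → (Fin n × Fin n → ℝ) → ℝ)
    (hf : ∀ σ ∈ Sn n, Integrable (f σ) (gm n)) :
    Integrable (fun X => EU (fun σ => f σ X)) (gm n) := by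
  unfold EU
  simp only [smul_eq_mul]
  exact (integrable_finsetSum _ hf).const_mul _

private theorem Bm_cont' {n : ℕ} (α β : ℝ) (σ : Fin n → Fin n → Bool) :
    Continuous (fun X : Fin n × Fin n → ℝ => Bm α β σ X) := by
  unfold Bm
  exact continuous_const.add (((continuous_const.matrix_mul
    (wv_continuous (1 / (n : ℝ)))).matrix_mul continuous_const).const_smul β)

private theorem rf_cont' {n : ℕ} (α β : ℝ) {σ : Fin n → Fin n → Bool} (hσ : σ ∈ Sn n) (z : ℂ)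
    (hz : z.im ≠ 0) (x y : Fin n) :
    Continuous (fun X : Fin n × Fin n → ℝ => rf (H0 σ) (Pn n) (Bm α β σ X) α z x y) := by
  have hG : ∀ a b, Continuous (fun X : Fin n × Fin n → ℝ => Gz (Pn n) (Bm α β σ X) z a b) :=
    fun a b => continuous_gz (fun X : Fin n × Fin n → ℝ => Bm α β σ X)
      (fun k l => (Bm_cont' α β σ).matrix_elem k l) (fun X => pb_Bm α β σ hσ X) z hz a b
  have hm : Continuous (fun X : Fin n × Fin n → ℝ => mz (Pn n) (Bm α β σ X) z) := by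
    unfold mz
    refine continuous_const.mul ?_
    unfold Matrix.trace
    exact continuous_finsetSum _ fun i _ => hG i i
  unfold rf
  refine Continuous.add ?_ ((continuous_const.mul hm).mul (hG x y))
  simp only [Matrix.mul_apply]
  exact continuous_finsetSum _ fun j _ => continuous_const.mul (hG j y)

private theorem rf_bdd' {n : ℕ} (α β : ℝ) {σ : Fin n → Fin n → Bool} (hσ : σ ∈ Sn n) (z : ℂ)
    (hz : z.im ≠ 0) (x y : Fin n) :
    ∃ M : ℝ, ∀ X : Fin n × Fin n → ℝ, ‖rf (H0 σ) (Pn n) (Bm α β σ X) α z x y‖ ≤ M := by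
  refine ⟨∑ j, ‖toC (H0 σ) x j‖ * (1 / |z.im|) + ‖(α : ℂ)‖ * (1 / |z.im|) * (1 / |z.im|),
    fun X => ?_⟩
  have hG : ∀ a b, ‖Gz (Pn n) (Bm α β σ X) z a b‖ ≤ 1 / |z.im| :=
    fun a b => g_entry_le (pb_Bm α β σ hσ X) z hz a b
  have hm := mz_norm_le (pb_Bm α β σ hσ X) z hz
  unfold rf
  refine (norm_add_le _ _).trans (add_le_add ?_ ?_)
  · rw [Matrix.mul_apply]
    refine (norm_sum_le _ _).trans (Finset.sum_le_sum fun j _ => ?_)
    rw [norm_mul]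
    exact mul_le_mul_of_nonneg_left (hG _ _) (norm_nonneg _)
  · rw [norm_mul, norm_mul]
    refine mul_le_mul (mul_le_mul_of_nonneg_left hm (norm_nonneg _)) (hG _ _) (norm_nonneg _)
      (by positivity)

private theorem rp_int' {n : ℕ} (α β : ℝ) {σ : Fin n → Fin n → Bool} (hσ : σ ∈ Sn n) (z : ℂ)
    (hz : z.im ≠ 0) (x y : Fin n) (k : ℕ) :
    Integrable (fun X : Fin n × Fin n → ℝ =>
      ‖rf (H0 σ) (Pn n) (Bm α β σ X) α z x y‖ ^ k) (gm n) := by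
  have := gmP n
  obtain ⟨M, hM⟩ := rf_bdd' α β hσ z hz x y
  refine Integrable.of_bound ((rf_cont' α β hσ z hz x y).norm.pow k).aestronglyMeasurable
    (M ^ k) (Filter.Eventually.of_forall fun X => ?_)
  rw [norm_pow, norm_norm]
  exact pow_le_pow_left₀ (norm_nonneg _) (hM X) k


theorem momR (p : ℕ) (hp : 2 ≤ p) : ∃ C : ℝ, 0 < C ∧ ∀ n : ℕ, 3 ≤ n → Even n →
    ∀ α β : ℝ, 0 ≤ α → 0 ≤ β → α ^ 2 + β ^ 2 = 1 → ∀ z : ℂ, 0 < z.im → 1 ≤ n * z.im →
    ∀ Λ Γ τ : ℝ, 1 ≤ Λ → 1 ≤ Γ → 0 ≤ τ → τ ≤ 1 → 32 * Γ ≤ Real.sqrt n →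
      C * Λ ^ 4 * Γ ^ (8 * p + 8) * (τ + 1 / Real.sqrt n) ≤ 1 / 6 → ∀ x y : Fin n,
      EJ (n := n) (fun σ X => ‖rf (H0 σ) (Pn n) (Bm α β σ X) α z x y‖ ^ (2 * p))
        ≤ 1 + C * (10 * n) ^ (20 * p + 20) * PJ (n := n) (fun σ X => ¬ GoodF α β z Λ Γ τ σ X) := by
  classical
  obtain ⟨C0, hC0, hsw⟩ := switchR p hp
  refine ⟨2 * C0, by positivity, ?_⟩
  intro n hn hev α β hα hβ hαβ z hz hz1 Λ Γ τ hΛ hΓ hτ hτ1 h32 hκ x y
  have hprob := gmP n
  have hα1 : α ≤ 1 := by nlinarith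
  have hn0 : (0 : ℝ) < n := by
    have : 0 < n := by omega
    exact_mod_cast this
  set κ : ℝ := C0 * Λ ^ 4 * Γ ^ (8 * p + 8) * (τ + 1 / Real.sqrt n) with hκd
  have hκ0 : 0 ≤ κ := by
    have h1 : 0 ≤ Λ := zero_le_one.trans hΛ
    have h2 : 0 ≤ Γ := zero_le_one.trans hΓ
    have h3 : 0 ≤ 1 / Real.sqrt n := by positivity
    rw [hκd]
    positivity
  have hκ1 : κ ≤ 1 / 12 := by
    have : 2 * C0 * Λ ^ 4 * Γ ^ (8 * p + 8) * (τ + 1 / Real.sqrt n) = 2 * κ := by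
      rw [hκd]; ring
    rw [this] at hκ
    linarith
  set R : Fin n → Fin n → (Fin n → Fin n → Bool) → (Fin n × Fin n → ℝ) → ℝ := fun x y σ X =>
    ‖rf (H0 σ) (Pn n) (Bm α β σ X) α z x y‖ ^ (2 * p) with hR
  have hR0 : ∀ x y σ X, 0 ≤ R x y σ X := fun x y σ X => by positivity
  have hRi : ∀ x y, ∀ σ ∈ Sn n, Integrable (R x y σ) (gm n) :=
    fun x y σ hσ => rp_int' α β hσ z hz.ne' x y (2 * p)
  set I : (Fin n → Fin n → Bool) → (Fin n × Fin n → ℝ) → ℝ := fun σ =>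
    Set.indicator {X | ¬ GoodF α β z Λ Γ τ σ X} 1 with hI
  have hIm : ∀ σ ∈ Sn n, MeasurableSet {X : Fin n × Fin n → ℝ | ¬ GoodF α β z Λ Γ τ σ X} :=
    fun σ hσ => (meas_GoodF α β z hz.ne' Λ Γ τ hσ).compl
  have hIi : ∀ σ ∈ Sn n, Integrable (I σ) (gm n) := fun σ hσ => by
    rw [hI]
    exact (integrable_indicator_iff (hIm σ hσ)).2 (integrableOn_const (by finiteness))
  have hII : EU (fun σ => ∫ X, I σ X ∂(gm n))
      = PJ (n := n) (fun σ X => ¬ GoodF α β z Λ Γ τ σ X) := by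
    unfold PJ
    refine EU_congr' fun σ hσ => ?_
    rw [hI]
    exact integral_indicator_one (hIm σ hσ)
  set a : Fin n → Fin n → ℝ := fun x y => EU (fun σ => ∫ X, R x y σ X ∂(gm n)) with ha
  have ha0 : ∀ x y, 0 ≤ a x y := fun x y =>
    EU_nonneg' fun σ _ => integral_nonneg fun X => hR0 x y σ X
  set e : ℝ := C0 * (10 * n) ^ (20 * p + 20) with he
  have he0 : 0 ≤ e := by rw [he]; positivity
  set PB' : ℝ := PJ (n := n) (fun σ X => ¬ GoodF α β z Λ Γ τ σ X) with hPB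
  have hPB0 : 0 ≤ PB' := by
    rw [hPB]; unfold PJ
    exact EU_nonneg' fun σ _ => measureReal_nonneg
  have hpt : ∀ x y X, EU (fun σ => R x y σ X) ≤ EU (fun σ =>
      κ * (1 + R x y σ X + R x x σ X + (1 / (n : ℝ)) * ∑ b, R x b σ X) + e * I σ X) := by
    intro x y X
    have h1 := hsw n hn α β hα hα1 X z hz hz1 Λ Γ τ hΛ hΓ hτ hτ1 h32 x y
      (fun σ => κ * (1 + R x y σ X + R x x σ X + (1 / (n : ℝ)) * ∑ b, R x b σ X) + e * I σ X)
      (fun σ hσ => by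
        have hZ : 0 ≤ κ * (1 + R x y σ X + R x x σ X + (1 / (n : ℝ)) * ∑ b, R x b σ X) := by
          have h3 : 0 ≤ ∑ b, R x b σ X := Finset.sum_nonneg fun b _ => hR0 x b σ X
          have h4 := hR0 x y σ X
          have h5 := hR0 x x σ X
          have h6 : 0 ≤ (1 / (n : ℝ)) * ∑ b, R x b σ X := mul_nonneg (by positivity) h3
          exact mul_nonneg hκ0 (by linarith)
        by_cases hgood : GoodF α β z Λ Γ τ σ X
        · left
          refine ⟨hgood.1, hgood.2, ?_⟩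
          have h2 : I σ X = 0 := by
            rw [hI]
            exact Set.indicator_of_notMem (by simpa using hgood) _
          rw [h2, mul_zero, add_zero]
        · right
          have h2 : I σ X = 1 := by
            rw [hI]
            exact Set.indicator_of_mem (by simpa using hgood) _
          rw [h2, mul_one]
          linarith)
    rw [EU_add'] at h1
    have h6 : EU (fun σ => (toC (H0 σ) * Gz (Pn n) (Bm α β σ X) z) x y
          * PsiF p (rf (H0 σ) (Pn n) (Bm α β σ X) α z x y)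
        + (α : ℂ) * (mz (Pn n) (Bm α β σ X) z * Gz (Pn n) (Bm α β σ X) z x y
          * PsiF p (rf (H0 σ) (Pn n) (Bm α β σ X) α z x y)))
        = EU (fun σ => ((R x y σ X : ℝ) : ℂ)) := by
      refine EU_congr' fun σ _ => ?_
      rw [hR]
      beta_reduce
      rw [← q_psi p (by omega)]
      unfold rf
      ring
    rw [h6, EU_real', Complex.norm_real, Real.norm_eq_abs,
      abs_of_nonneg (EU_nonneg' fun σ _ => hR0 x y σ X)] at h1
    exact h1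
  have hbi : ∀ x y, ∀ σ ∈ Sn n, Integrable (fun X =>
      κ * (1 + R x y σ X + R x x σ X + (1 / (n : ℝ)) * ∑ b, R x b σ X) + e * I σ X) (gm n) := by
    intro x y σ hσ
    refine Integrable.add (Integrable.const_mul (Integrable.add (Integrable.add
      (Integrable.add (integrable_const _) (hRi x y σ hσ)) (hRi x x σ hσ))
      (Integrable.const_mul (integrable_finsetSum _ fun b _ => hRi x b σ hσ) _)) _)
      ((hIi σ hσ).const_mul _)
  have hmain : ∀ x y, a x y ≤ κ * (1 + a x y + a x x + (1 / (n : ℝ)) * ∑ b, a x b)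
      + e * PB' := by
    intro x y
    have h1 := integral_mono (μ := gm n) (EU_intb' (R x y) (hRi x y)) (EU_intb' _ (hbi x y))
      (fun X => hpt x y X)
    rw [EU_int' (R x y) (hRi x y), EU_int' _ (hbi x y)] at h1
    refine h1.trans ?_
    have h2 : EU (fun σ => ∫ X, κ * (1 + R x y σ X + R x x σ X
          + (1 / (n : ℝ)) * ∑ b, R x b σ X) + e * I σ X ∂(gm n))
        = EU (fun σ => κ * ((fun _ : Fin n → Fin n → Bool => (1 : ℝ)) σ
          + ∫ X, R x y σ X ∂(gm n) + ∫ X, R x x σ X ∂(gm n)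
          + (1 / (n : ℝ)) * ∑ b, ∫ X, R x b σ X ∂(gm n)) + e * ∫ X, I σ X ∂(gm n)) := by
      refine EU_congr' fun σ hσ => ?_
      beta_reduce
      have i1 := hRi x y σ hσ
      have i2 := hRi x x σ hσ
      have i3 : Integrable (fun X => ∑ b, R x b σ X) (gm n) :=
        integrable_finsetSum _ fun b _ => hRi x b σ hσ
      have i4 : Integrable (fun X => 1 + R x y σ X) (gm n) := (integrable_const _).add i1
      have i5 : Integrable (fun X => 1 + R x y σ X + R x x σ X) (gm n) := i4.add i2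
      have i6 : Integrable (fun X => (1 / (n : ℝ)) * ∑ b, R x b σ X) (gm n) := i3.const_mul _
      have i7 : Integrable (fun X => 1 + R x y σ X + R x x σ X
          + (1 / (n : ℝ)) * ∑ b, R x b σ X) (gm n) := i5.add i6
      rw [integral_add (i7.const_mul _) ((hIi σ hσ).const_mul _), integral_const_mul,
        integral_const_mul, integral_add i5 i6, integral_add i4 i2,
        integral_add (integrable_const _) i1, integral_const_mul,
        integral_finsetSum _ fun b _ => hRi x b σ hσ]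
      simp
    rw [h2, EU_lin3, hII]
    have h3 : EU (fun _ : Fin n → Fin n → Bool => (1 : ℝ)) ≤ 1 := EU_const_le' zero_le_one
    have h4 : κ * (EU (fun _ : Fin n → Fin n → Bool => (1 : ℝ))
          + EU (fun σ => ∫ X, R x y σ X ∂(gm n)) + EU (fun σ => ∫ X, R x x σ X ∂(gm n))
          + (1 / (n : ℝ)) * ∑ i, EU (fun σ => ∫ X, R x i σ X ∂(gm n)))
        ≤ κ * (1 + a x y + a x x + (1 / (n : ℝ)) * ∑ b, a x b) := by
      refine mul_le_mul_of_nonneg_left ?_ hκ0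
      rw [ha]
      beta_reduce
      linarith
    exact add_le_add h4 (le_refl _)
  obtain ⟨q0, _, hq0⟩ := Finset.exists_max_image (Finset.univ : Finset (Fin n × Fin n))
    (fun q => a q.1 q.2) ⟨(x, y), Finset.mem_univ _⟩
  set Mx' : ℝ := a q0.1 q0.2 with hMx
  have hM : ∀ x y, a x y ≤ Mx' := fun x y => hq0 (x, y) (Finset.mem_univ _)
  have hM0 : 0 ≤ Mx' := ha0 _ _
  have h7 := hmain q0.1 q0.2
  have h8 : (1 / (n : ℝ)) * ∑ b, a q0.1 b ≤ Mx' := by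
    have h9 : ∑ b, a q0.1 b ≤ n * Mx' := by
      calc ∑ b, a q0.1 b ≤ ∑ _b : Fin n, Mx' := Finset.sum_le_sum fun b _ => hM _ _
        _ = n * Mx' := by simp
    calc (1 / (n : ℝ)) * ∑ b, a q0.1 b ≤ (1 / (n : ℝ)) * (n * Mx') :=
          mul_le_mul_of_nonneg_left h9 (by positivity)
      _ = Mx' := by field_simp
  have h10 : Mx' ≤ κ * (1 + 3 * Mx') + e * PB' := by
    refine h7.trans ?_
    have : κ * (1 + a q0.1 q0.2 + a q0.1 q0.1 + (1 / (n : ℝ)) * ∑ b, a q0.1 b)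
        ≤ κ * (1 + 3 * Mx') := by
      refine mul_le_mul_of_nonneg_left ?_ hκ0
      have := hM q0.1 q0.1
      linarith
    linarith
  have h11 : κ * (1 + 3 * Mx') ≤ (1 / 12) * (1 + 3 * Mx') :=
    mul_le_mul_of_nonneg_right hκ1 (by linarith)
  have h12 : 0 ≤ e * PB' := mul_nonneg he0 hPB0
  have h13 : Mx' ≤ 1 + 2 * (e * PB') := by linarith
  have h14 : EJ (n := n) (fun σ X => ‖rf (H0 σ) (Pn n) (Bm α β σ X) α z x y‖ ^ (2 * p))
      = a x y := rfl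
  rw [h14]
  refine (hM x y).trans (h13.trans (le_of_eq ?_))
  rw [he]; ring

end Pool.Agent.ZR.F

namespace Pool.Agent.ZR

open F

private theorem markov' {n : ℕ} (α β : ℝ) (z : ℂ) (hz : z.im ≠ 0) (x y : Fin n) (T : ℝ)
    (hT : 0 < T) (k : ℕ) :
    PJ (n := n) (fun σ X => T < ‖rf (H0 σ) (Pn n) (Bm α β σ X) α z x y‖)
      ≤ (T ^ k)⁻¹ * EJ (n := n) (fun σ X => ‖rf (H0 σ) (Pn n) (Bm α β σ X) α z x y‖ ^ k) := by
  have hprob := F.gmP n
  have h0 : (T ^ k)⁻¹ * EJ (n := n) (fun σ X => ‖rf (H0 σ) (Pn n) (Bm α β σ X) α z x y‖ ^ k)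
      = EU (n := n) (fun σ => (T ^ k)⁻¹ *
        ∫ X, ‖rf (H0 σ) (Pn n) (Bm α β σ X) α z x y‖ ^ k ∂(gm n)) := by
    unfold EJ EU
    simp only [smul_eq_mul]
    rw [← Finset.mul_sum]
    ring
  rw [h0]
  unfold PJ
  refine F.EU_mono' fun σ hσ => ?_
  have h1 := mul_meas_ge_le_integral_of_nonneg (μ := gm n)
    (f := fun X => ‖rf (H0 σ) (Pn n) (Bm α β σ X) α z x y‖ ^ k)
    (Filter.Eventually.of_forall fun X => by positivity) (F.rp_int' α β hσ z hz x y k) (T ^ k)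
  have h2 : (gm n).real {X | T < ‖rf (H0 σ) (Pn n) (Bm α β σ X) α z x y‖}
      ≤ (gm n).real {X | T ^ k ≤ ‖rf (H0 σ) (Pn n) (Bm α β σ X) α z x y‖ ^ k} := by
    refine measureReal_mono (fun X hX => ?_) (by finiteness)
    exact pow_le_pow_left₀ hT.le (le_of_lt hX) k
  have hTk : 0 < T ^ k := by positivity
  rw [le_inv_mul_iff₀ hTk]
  exact (mul_le_mul_of_nonneg_left h2 hTk.le).trans h1

private theorem EU_sum' {n : ℕ} {ι : Type} [Fintype ι] (f : ι → (Fin n → Fin n → Bool) → ℝ) :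
    EU (fun σ => ∑ i, f i σ) = ∑ i, EU (f i) := by
  unfold EU
  simp only [smul_eq_mul]
  rw [Finset.sum_comm, Finset.mul_sum]

private theorem PJ_union' {n : ℕ} (A : Fin n → Fin n → (Fin n → Fin n → Bool) →
    (Fin n × Fin n → ℝ) → Prop) :
    PJ (n := n) (fun σ X => ∃ x y, A x y σ X) ≤ ∑ x, ∑ y, PJ (n := n) (A x y) := by
  have hprob := F.gmP n
  have h0 : ∑ x, ∑ y, PJ (n := n) (A x y)
      = EU (n := n) (fun σ => ∑ x, ∑ y, (gm n).real {X | A x y σ X}) := by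
    rw [EU_sum' (fun x σ => ∑ y, (gm n).real {X | A x y σ X})]
    refine Finset.sum_congr rfl fun x _ => ?_
    rw [EU_sum' (fun y σ => (gm n).real {X | A x y σ X})]
    rfl
  rw [h0]
  unfold PJ
  refine F.EU_mono' fun σ _ => ?_
  have h1 : {X | ∃ x y, A x y σ X} = ⋃ x : Fin n, {X | ∃ y, A x y σ X} := by
    ext X
    simp
  rw [h1]
  refine (measureReal_iUnion_fintype_le _).trans (Finset.sum_le_sum fun x _ => ?_)
  have h2 : {X | ∃ y, A x y σ X} = ⋃ y : Fin n, {X | A x y σ X} := by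
    ext X
    simp
  rw [h2]
  exact measureReal_iUnion_fintype_le _

private theorem OpLe_mono' {N : ℕ} {A : Matrix (Fin N) (Fin N) ℂ} {L L' : ℝ} (h : OpLe A L)
    (hL : L ≤ L') : OpLe A L' := by
  refine ⟨h.1.trans hL, fun u => (h.2 u).trans ?_⟩
  have h0 := h.1
  exact mul_le_mul_of_nonneg_right (pow_le_pow_left₀ h0 hL 2)
    (Finset.sum_nonneg fun i _ => by positivity)

private theorem good' {n : ℕ} (hn : 3 ≤ n) (α β : ℝ) {σ : Fin n → Fin n → Bool} (hσ : σ ∈ Sn n)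
    (X : Fin n × Fin n → ℝ) (E u Λ Γ τ L G0 η : ℝ) (hη : 0 < η) (hηu : η ≤ u)
    (hL : OpLe (toC (H0 σ)) L) (hLΛ : L ≤ Λ) (hΛ : 1 ≤ Λ)
    (hG : GamLe (Pn n) (Bm α β σ X) E η G0) (hG0 : 0 ≤ G0)
    (hGΓ : 1 + G0 * max 0 (Real.log (1 / u)) ≤ Γ) (hτ : 0 ≤ τ)
    (hτ2 : G0 / u ≤ n * τ ^ 2) : GoodF α β (⟨E, u⟩ : ℂ) Λ Γ τ σ X := by
  have hu : 0 < u := lt_of_lt_of_le hη hηu
  have hpb := pb_Bm α β σ hσ X
  have hzu : 0 < (⟨E, u⟩ : ℂ).im := hu
  have hsymm := gz_symm hpb (⟨E, u⟩ : ℂ) hzu.ne'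
  have hGu : GamLe (Pn n) (Bm α β σ X) E u G0 := fun u' hu' x => hG u' (hηu.trans hu') x
  refine ⟨⟨(pb_Mx σ hσ).bs, Mx_row hσ, Mx_sq σ, ?_, hΛ⟩, ⟨hsymm, ?_, ?_, ?_, hτ⟩⟩
  · have hL' := OpLe_mono' hL hLΛ
    refine ⟨by positivity, fun v => ?_⟩
    have hn0 : (0 : ℝ) < n := by
      have : 0 < n := by omega
      exact_mod_cast this
    have hs : Real.sqrt n ≠ 0 := by positivity
    have h1 : toC (Mx σ) = (Real.sqrt n : ℂ) • toC (H0 σ) := by
      ext i j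
      simp only [toC, Matrix.map_apply, Matrix.smul_apply, smul_eq_mul, H0]
      push_cast
      rw [← mul_assoc, mul_one_div_cancel, one_mul]
      exact_mod_cast hs
    have h2 : ∀ i, ‖(toC (Mx σ) *ᵥ v) i‖ ^ 2 = n * ‖(toC (H0 σ) *ᵥ v) i‖ ^ 2 := by
      intro i
      rw [h1, Matrix.smul_mulVec, Pi.smul_apply, smul_eq_mul, norm_mul, Complex.norm_real,
        Real.norm_eq_abs, abs_of_nonneg (Real.sqrt_nonneg _), mul_pow, Real.sq_sqrt hn0.le]
    simp only [h2]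
    rw [← Finset.mul_sum, mul_pow, Real.sq_sqrt hn0.le]
    have h3 := mul_le_mul_of_nonneg_left (hL'.2 v) hn0.le
    calc (n : ℝ) * ∑ i, ‖(toC (H0 σ) *ᵥ v) i‖ ^ 2 ≤ n * (Λ ^ 2 * ∑ i, ‖v i‖ ^ 2) := h3
      _ = Λ ^ 2 * n * ∑ i, ‖v i‖ ^ 2 := by ring
  · intro x y
    exact (entry_log hpb E u G0 hu hGu hG0 x y).trans hGΓ
  · intro y
    have h1 : ∀ j, Gz (Pn n) (Bm α β σ X) (⟨E, u⟩ : ℂ) j y
        = Gz (Pn n) (Bm α β σ X) (⟨E, u⟩ : ℂ) y j := by
      intro j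
      have := congrFun (congrFun hsymm y) j
      rw [Matrix.transpose_apply] at this
      exact this
    simp only [h1]
    rw [ward hpb (⟨E, u⟩ : ℂ) hzu y]
    refine le_trans ?_ hτ2
    exact div_le_div_of_nonneg_right (hGu u le_rfl y) hu.le
  · have : 0 ≤ G0 * max 0 (Real.log (1 / u)) := mul_nonneg hG0 (le_max_left _ _)
    linarith

private theorem fRes_aux (hB : BNorm) (hF : FMain) (ν D : ℝ) (hν : 0 < ν) (hν1 : ν ≤ 1 / 2)
    (hD : 0 < D) :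
    ∃ n0 : ℕ, ∀ n : ℕ, n0 ≤ n → Even n →
    ∀ α β : ℝ, 0 ≤ α → 0 ≤ β → α ^ 2 + β ^ 2 = 1 → ∀ E u : ℝ, |E| ≤ 2 →
      (n : ℝ) ^ (-1 + ν) ≤ u →
      PJ (n := n) (fun σ X => ∃ x y : Fin n,
        (n : ℝ) ^ ν < ‖rf (H0 σ) (Pn n) (Bm α β σ X) α (⟨E, u⟩ : ℂ) x y‖)
        ≤ (n : ℝ) ^ (-D) := by
  obtain ⟨K, hK, nB, hBn⟩ := hB
  obtain ⟨p, hp⟩ := exists_nat_ge (max 2 ((D + 4) / (2 * ν)))
  have hp2 : 2 ≤ p := by exact_mod_cast (le_max_left _ _).trans hp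
  have hpν : D + 4 ≤ 2 * p * ν := by
    have h1 := (le_max_right _ _).trans hp
    rw [div_le_iff₀ (by positivity)] at h1
    linarith
  obtain ⟨C, hC, hmom⟩ := momR p hp2
  have hp0 : (0 : ℝ) < 24 * p + 29 := by positivity
  obtain ⟨ν', hν'd⟩ : ∃ ν' : ℝ, ν' = ν / (8 * (24 * p + 29)) := ⟨_, rfl⟩
  have hν' : 0 < ν' := by rw [hν'd]; positivity
  have hν'm : ν' * (24 * p + 29) = ν / 8 := by rw [hν'd]; field_simp
  have hν's : ν' * 29 ≤ ν / 8 := by
    rw [← hν'm]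
    have : (0 : ℝ) ≤ p := Nat.cast_nonneg p
    nlinarith
  have hν'ν : ν' ≤ ν := by linarith
  obtain ⟨D', hD'd⟩ : ∃ D' : ℝ, D' = 20 * p + 21 := ⟨_, rfl⟩
  have hD' : 0 < D' := by rw [hD'd]; positivity
  obtain ⟨nF, hFn⟩ := hF ν' D' hν' hD'
  have hcast : Filter.Tendsto (fun n : ℕ => (n : ℝ)) Filter.atTop Filter.atTop :=
    tendsto_natCast_atTop_atTop
  have hlo := isLittleO_log_rpow_atTop hν'
  have e1 : ∀ᶠ n : ℕ in Filter.atTop, K * Real.log n ≤ (n : ℝ) ^ ν' := by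
    have h1 := (hlo.bound (c := 1 / K) (by positivity)).and (Filter.eventually_ge_atTop (1 : ℝ))
    filter_upwards [hcast.eventually h1] with n hn
    obtain ⟨h2, h3⟩ := hn
    rw [Real.norm_eq_abs, Real.norm_eq_abs, abs_of_nonneg (Real.log_nonneg h3),
      abs_of_nonneg (by positivity)] at h2
    calc K * Real.log n ≤ K * (1 / K * (n : ℝ) ^ ν') := mul_le_mul_of_nonneg_left h2 hK.le
      _ = (n : ℝ) ^ ν' := by field_simp
  have e2 : ∀ᶠ n : ℕ in Filter.atTop, Real.log n ≤ (n : ℝ) ^ ν' := by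
    have h1 := (hlo.bound (c := 1) one_pos).and (Filter.eventually_ge_atTop (1 : ℝ))
    filter_upwards [hcast.eventually h1] with n hn
    obtain ⟨h2, h3⟩ := hn
    rw [Real.norm_eq_abs, Real.norm_eq_abs, abs_of_nonneg (Real.log_nonneg h3),
      abs_of_nonneg (by positivity), one_mul] at h2
    exact h2
  have e3 : ∀ᶠ n : ℕ in Filter.atTop, (2 : ℝ) ≤ (n : ℝ) ^ ν' :=
    ((tendsto_rpow_atTop hν').comp hcast).eventually (Filter.eventually_ge_atTop 2)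
  have e4 : ∀ᶠ n : ℕ in Filter.atTop, (32 : ℝ) ≤ (n : ℝ) ^ (1 / 2 - 3 * ν') :=
    ((tendsto_rpow_atTop (by linarith)).comp hcast).eventually (Filter.eventually_ge_atTop 32)
  have e5 : ∀ᶠ n : ℕ in Filter.atTop, 2 * C * (n : ℝ) ^ (-(3 * ν / 8)) < 1 / 6 := by
    have h1 : Filter.Tendsto (fun n : ℕ => 2 * C * (n : ℝ) ^ (-(3 * ν / 8))) Filter.atTop
        (nhds (2 * C * 0)) :=
      ((tendsto_rpow_neg_atTop (by positivity)).comp hcast).const_mul _
    rw [mul_zero] at h1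
    exact h1.eventually (gt_mem_nhds (by norm_num))
  have e6 : ∀ᶠ n : ℕ in Filter.atTop,
      C * 10 ^ (20 * p + 20) * ((n : ℝ) ^ (20 * p + 20) * (n : ℝ) ^ (-D')
        + (n : ℝ) ^ (20 * p + 20) * Real.exp (-(n : ℝ))) < 1 := by
    have h1 : Filter.Tendsto (fun n : ℕ => (n : ℝ) ^ (20 * p + 20) * (n : ℝ) ^ (-D'))
        Filter.atTop (nhds 0) := by
      have h2 := (tendsto_rpow_neg_atTop (zero_lt_one' ℝ)).comp hcast
      refine h2.congr' ?_
      filter_upwards [Filter.eventually_gt_atTop 0] with n hn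
      have hn' : (0 : ℝ) < n := by exact_mod_cast hn
      simp only [Function.comp]
      rw [← Real.rpow_natCast (n : ℝ) (20 * p + 20), ← Real.rpow_add hn', hD'd]
      congr 1
      push_cast
      ring
    have h3 : Filter.Tendsto (fun n : ℕ => (n : ℝ) ^ (20 * p + 20) * Real.exp (-(n : ℝ)))
        Filter.atTop (nhds 0) :=
      (Real.tendsto_pow_mul_exp_neg_atTop_nhds_zero (20 * p + 20)).comp hcast
    have h4 := (h1.add h3).const_mul (C * 10 ^ (20 * p + 20))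
    rw [add_zero, mul_zero] at h4
    exact h4.eventually (gt_mem_nhds one_pos)
  have hev := (((((e1.and e2).and e3).and e4).and e5).and e6)
  obtain ⟨n1, hn1⟩ := Filter.eventually_atTop.1 hev
  refine ⟨max (max n1 3) (max nF nB), ?_⟩
  intro n hn hev α β hα hβ hαβ E u hE hu
  have hna : n1 ≤ n := le_trans (le_trans (le_max_left _ _) (le_max_left _ _)) hn
  have hn3 : 3 ≤ n := le_trans (le_trans (le_max_right _ _) (le_max_left _ _)) hn
  have hnF : nF ≤ n := le_trans (le_trans (le_max_left _ _) (le_max_right _ _)) hn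
  have hnB : nB ≤ n := le_trans (le_trans (le_max_right _ _) (le_max_right _ _)) hn
  obtain ⟨⟨⟨⟨⟨c1, c2⟩, c3⟩, c4⟩, c5⟩, c6⟩ := hn1 n hna
  have hn1' : (1 : ℝ) ≤ n := by
    have : 1 ≤ n := by omega
    exact_mod_cast this
  have hn0 : (0 : ℝ) < n := by linarith
  have hlog : 0 ≤ Real.log n := Real.log_nonneg hn1'
  have hη : 0 < (n : ℝ) ^ (-1 + ν') := Real.rpow_pos_of_pos hn0 _
  have hηu : (n : ℝ) ^ (-1 + ν') ≤ u :=
    (Real.rpow_le_rpow_of_exponent_le hn1' (by linarith)).trans hu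
  have hu0 : 0 < u := lt_of_lt_of_le hη hηu
  have hun : 1 / (n : ℝ) ≤ u := by
    refine le_trans ?_ hu
    rw [one_div, ← Real.rpow_neg_one]
    exact Real.rpow_le_rpow_of_exponent_le hn1' (by linarith)
  have hnu : 1 ≤ (n : ℝ) * u := by
    rw [div_le_iff₀ hn0] at hun
    linarith
  obtain ⟨Λ, hΛd⟩ : ∃ Λ : ℝ, Λ = (n : ℝ) ^ ν' := ⟨_, rfl⟩
  obtain ⟨Γ, hΓd⟩ : ∃ Γ : ℝ, Γ = (n : ℝ) ^ (3 * ν') := ⟨_, rfl⟩
  obtain ⟨τ, hτd⟩ : ∃ τ : ℝ, τ = (n : ℝ) ^ ((ν' - ν) / 2) := ⟨_, rfl⟩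
  have hΛ1 : 1 ≤ Λ := by rw [hΛd]; linarith
  have hΛ0 : 0 < Λ := by linarith
  have hΓΛ : Γ = Λ ^ 3 := by
    rw [hΓd, hΛd, ← Real.rpow_natCast, ← Real.rpow_mul hn0.le]
    congr 1
    push_cast
    ring
  have hΓ1 : 1 ≤ Γ := by rw [hΓΛ]; exact one_le_pow₀ hΛ1
  have hτ0 : 0 ≤ τ := by rw [hτd]; positivity
  have hτ1 : τ ≤ 1 := by
    rw [hτd]
    exact Real.rpow_le_one_of_one_le_of_nonpos hn1' (by linarith)
  have hsq : Real.sqrt n = (n : ℝ) ^ (1 / 2 : ℝ) := Real.sqrt_eq_rpow _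
  have h32 : 32 * Γ ≤ Real.sqrt n := by
    rw [hsq, hΓd]
    have h1 : (n : ℝ) ^ (1 / 2 : ℝ) = (n : ℝ) ^ (1 / 2 - 3 * ν') * (n : ℝ) ^ (3 * ν') := by
      rw [← Real.rpow_add hn0]
      congr 1
      ring
    rw [h1]
    exact mul_le_mul_of_nonneg_right c4 (by positivity)
  have hκ : C * Λ ^ 4 * Γ ^ (8 * p + 8) * (τ + 1 / Real.sqrt n) ≤ 1 / 6 := by
    have h1 : 1 / Real.sqrt n ≤ τ := by
      rw [hsq, hτd, one_div, ← Real.rpow_neg hn0.le]
      exact Real.rpow_le_rpow_of_exponent_le hn1' (by linarith)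
    have h2 : Λ ^ 4 * Γ ^ (8 * p + 8) * τ ≤ (n : ℝ) ^ (-(3 * ν / 8)) := by
      rw [hΛd, hΓd, hτd, ← Real.rpow_natCast, ← Real.rpow_natCast, ← Real.rpow_mul hn0.le,
        ← Real.rpow_mul hn0.le, ← Real.rpow_add hn0, ← Real.rpow_add hn0]
      refine Real.rpow_le_rpow_of_exponent_le hn1' ?_
      push_cast
      nlinarith
    calc C * Λ ^ 4 * Γ ^ (8 * p + 8) * (τ + 1 / Real.sqrt n)
        ≤ C * Λ ^ 4 * Γ ^ (8 * p + 8) * (τ + τ) := by
          refine mul_le_mul_of_nonneg_left (by linarith) ?_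
          have : 0 ≤ Γ := by linarith
          positivity
      _ = 2 * C * (Λ ^ 4 * Γ ^ (8 * p + 8) * τ) := by ring
      _ ≤ 2 * C * (n : ℝ) ^ (-(3 * ν / 8)) := mul_le_mul_of_nonneg_left h2 (by positivity)
      _ ≤ 1 / 6 := c5.le
  have hbad : PJ (n := n) (fun σ X => ¬ GoodF α β (⟨E, u⟩ : ℂ) Λ Γ τ σ X)
      ≤ (n : ℝ) ^ (-D') + Real.exp (-(n : ℝ)) := by
    have h1 : PJ (n := n) (fun σ X => ¬ GoodF α β (⟨E, u⟩ : ℂ) Λ Γ τ σ X)
        ≤ PJ (n := n) (fun σ X =>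
          ¬ GamLe (Pn n) (Bm α β σ X) E ((n : ℝ) ^ (-1 + ν')) ((n : ℝ) ^ ν') ∨
          ¬ OpLe (toC (Bm 1 0 σ X)) (K * Real.log n)) := by
      refine F.PJ_mono fun σ hσ X hX => ?_
      by_contra hcon
      push Not at hcon
      obtain ⟨hg, ho⟩ := hcon
      refine hX ?_
      have ho' : OpLe (toC (H0 σ)) (K * Real.log n) := by
        have h2 : Bm 1 0 σ X = H0 σ := by
          unfold Bm
          rw [one_smul, zero_smul, add_zero]
        rw [← h2]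
        exact ho
      refine good' hn3 α β hσ X E u Λ Γ τ (K * Real.log n) ((n : ℝ) ^ ν') ((n : ℝ) ^ (-1 + ν'))
        hη hηu ho' (by rw [hΛd]; exact c1) hΛ1 hg (by positivity) ?_ hτ0 ?_
      · have h3 : max 0 (Real.log (1 / u)) ≤ Real.log n := by
          refine max_le hlog ?_
          refine Real.log_le_log (by positivity) ?_
          rw [div_le_iff₀ hu0]
          exact hnu
        have h4 : (n : ℝ) ^ ν' * max 0 (Real.log (1 / u)) ≤ Λ * Λ := by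
          rw [← hΛd]
          rw [← hΛd] at c2
          exact mul_le_mul_of_nonneg_left (h3.trans c2) hΛ0.le
        rw [hΓΛ]
        rw [← hΛd] at c3
        have h5 : 1 ≤ Λ * Λ := by nlinarith
        have h6 : Λ ^ 3 = Λ * (Λ * Λ) := by ring
        rw [h6]
        nlinarith
      · rw [hτd, ← Real.rpow_natCast, ← Real.rpow_mul hn0.le]
        have h7 : (n : ℝ) * (n : ℝ) ^ ((ν' - ν) / 2 * ((2 : ℕ) : ℝ))
            = (n : ℝ) ^ ν' / (n : ℝ) ^ (-1 + ν) := by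
          rw [← Real.rpow_sub hn0]
          nth_rewrite 1 [← Real.rpow_one (n : ℝ)]
          rw [← Real.rpow_add hn0]
          congr 1
          push_cast
          ring
        rw [h7]
        exact div_le_div_of_nonneg_left (by positivity) (Real.rpow_pos_of_pos hn0 _) hu
    refine h1.trans ((F.PJ_or _ _).trans (add_le_add ?_ ?_))
    · exact hFn n hnF hev α β hα hβ hαβ E hE
    · exact hBn n hnB hev 1 0 zero_le_one le_rfl (by norm_num)
  have hEJ : ∀ x y : Fin n, EJ (n := n) (fun σ X =>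
      ‖rf (H0 σ) (Pn n) (Bm α β σ X) α (⟨E, u⟩ : ℂ) x y‖ ^ (2 * p)) ≤ 2 := by
    intro x y
    have h1 := hmom n hn3 hev α β hα hβ hαβ (⟨E, u⟩ : ℂ) hu0 hnu Λ Γ τ hΛ1 hΓ1 hτ0 hτ1 h32 hκ x y
    refine h1.trans ?_
    have h2 : C * (10 * (n : ℝ)) ^ (20 * p + 20)
        * PJ (n := n) (fun σ X => ¬ GoodF α β (⟨E, u⟩ : ℂ) Λ Γ τ σ X)
        ≤ C * (10 * (n : ℝ)) ^ (20 * p + 20) * ((n : ℝ) ^ (-D') + Real.exp (-(n : ℝ))) :=
      mul_le_mul_of_nonneg_left hbad (by positivity)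
    have h3 : C * (10 * (n : ℝ)) ^ (20 * p + 20) * ((n : ℝ) ^ (-D') + Real.exp (-(n : ℝ)))
        = C * 10 ^ (20 * p + 20) * ((n : ℝ) ^ (20 * p + 20) * (n : ℝ) ^ (-D')
        + (n : ℝ) ^ (20 * p + 20) * Real.exp (-(n : ℝ))) := by
      rw [mul_pow]
      ring
    rw [h3] at h2
    linarith
  have hxy : ∀ x y : Fin n, PJ (n := n) (fun σ X =>
      (n : ℝ) ^ ν < ‖rf (H0 σ) (Pn n) (Bm α β σ X) α (⟨E, u⟩ : ℂ) x y‖)
      ≤ 2 * (n : ℝ) ^ (-(D + 4)) := by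
    intro x y
    refine (markov' α β (⟨E, u⟩ : ℂ) hu0.ne' x y ((n : ℝ) ^ ν) (by positivity) (2 * p)).trans ?_
    have h1 : (((n : ℝ) ^ ν) ^ (2 * p))⁻¹ ≤ (n : ℝ) ^ (-(D + 4)) := by
      rw [← Real.rpow_natCast, ← Real.rpow_mul hn0.le, ← Real.rpow_neg hn0.le]
      refine Real.rpow_le_rpow_of_exponent_le hn1' ?_
      push_cast
      linarith
    calc (((n : ℝ) ^ ν) ^ (2 * p))⁻¹ * EJ (n := n) (fun σ X =>
          ‖rf (H0 σ) (Pn n) (Bm α β σ X) α (⟨E, u⟩ : ℂ) x y‖ ^ (2 * p))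
        ≤ (((n : ℝ) ^ ν) ^ (2 * p))⁻¹ * 2 := mul_le_mul_of_nonneg_left (hEJ x y) (by positivity)
      _ ≤ (n : ℝ) ^ (-(D + 4)) * 2 := mul_le_mul_of_nonneg_right h1 (by norm_num)
      _ = 2 * (n : ℝ) ^ (-(D + 4)) := by ring
  refine (PJ_union' (fun x y σ X =>
      (n : ℝ) ^ ν < ‖rf (H0 σ) (Pn n) (Bm α β σ X) α (⟨E, u⟩ : ℂ) x y‖)).trans ?_
  calc ∑ x : Fin n, ∑ y : Fin n, PJ (n := n) (fun σ X =>
          (n : ℝ) ^ ν < ‖rf (H0 σ) (Pn n) (Bm α β σ X) α (⟨E, u⟩ : ℂ) x y‖)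
      ≤ ∑ _x : Fin n, ∑ _y : Fin n, 2 * (n : ℝ) ^ (-(D + 4)) :=
        Finset.sum_le_sum fun x _ => Finset.sum_le_sum fun y _ => hxy x y
    _ = (n : ℝ) * ((n : ℝ) * (2 * (n : ℝ) ^ (-(D + 4)))) := by simp
    _ ≤ (n : ℝ) ^ (-D) := by
        have h1 : (n : ℝ) ^ (-D) = (n : ℝ) ^ 4 * (n : ℝ) ^ (-(D + 4)) := by
          rw [← Real.rpow_natCast, ← Real.rpow_add hn0]
          congr 1
          push_cast
          ring
        rw [h1]
        have h2 : (0 : ℝ) ≤ (n : ℝ) ^ (-(D + 4)) := by positivity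
        have h3 : (3 : ℝ) ≤ n := by exact_mod_cast hn3
        have h4 : (n : ℝ) * ((n : ℝ) * (2 * (n : ℝ) ^ (-(D + 4))))
            = 2 * (n : ℝ) ^ 2 * (n : ℝ) ^ (-(D + 4)) := by ring
        rw [h4]
        refine mul_le_mul_of_nonneg_right ?_ h2
        have h5 : (2 : ℝ) ≤ (n : ℝ) ^ 2 := by nlinarith
        calc 2 * (n : ℝ) ^ 2 ≤ (n : ℝ) ^ 2 * (n : ℝ) ^ 2 :=
              mul_le_mul_of_nonneg_right h5 (sq_nonneg _)
          _ = (n : ℝ) ^ 4 := by ring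

theorem fRes (hB : BNorm) (hF : FMain) : FRes := by
  intro ν D hν hD
  have hν1 : 0 < min ν (1 / 2) := lt_min hν (by norm_num)
  obtain ⟨n0, h⟩ := fRes_aux hB hF (min ν (1 / 2)) D hν1 (min_le_right _ _) hD
  refine ⟨max n0 1, ?_⟩
  intro n hn hev α β hα hβ hαβ E u hE hu _
  have hn0 : n0 ≤ n := (le_max_left _ _).trans hn
  have hn1 : (1 : ℝ) ≤ n := by
    have : 1 ≤ n := (le_max_right _ _).trans hn
    exact_mod_cast this
  have h1 := h n hn0 hev α β hα hβ hαβ E u hE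
    ((Real.rpow_le_rpow_of_exponent_le hn1 (by have := min_le_left ν (1 / 2); linarith)).trans hu)
  refine le_trans (F.PJ_mono fun σ _ X hX => ?_) h1
  obtain ⟨x, y, hxy⟩ := hX
  refine ⟨x, y, lt_of_le_of_lt ?_ hxy⟩
  exact Real.rpow_le_rpow_of_exponent_le hn1 (min_le_left _ _)

end Pool.Agent.ZR

end
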