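import Pool.Agent.ZRM.P22

/-!
# Merged form of the modules ZR.JZero, ZR.F8, ZR.F9, ZR.H6
-/

set_option autoImplicit false

section

/-!
# ZR/JZero : J0 (the spectrum of `B_{α,β}` on the complement of `1`)

Write `n = N + 1` (`Fin (N + 1 - 1) = Fin N` by `rfl`), `v = 1/n`, `H = H0 σ`, `O` from
`exists_orth_last`, `H' = mino (Fin.last N) (Oᵀ H O)`, symmetric.  `H 1 = 0` (`pb_mulVec_one (pb_H0 σ
hσ)`, C1), so the last row and column of `Oᵀ H O` vanish (`conj_last`) and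
`roots(H) = roots(Oᵀ H O) = 0 ::ₘ roots(H')` (`charpoly_conj` (Sp2) for the orthogonal matrix `Oᵀ`,
`roots_block`).  With the hypothesis, `roots(H') = map lam univ` (cancel `0 ::ₘ`)
`= roots(diagonal lam)` (`roots_diag`, Sp2), so `H' = U (diag lam) Uᵀ` (`conj_of_roots`).

(1) `gm n` is invariant under `X ↦ conjA O X` (`K1.gm_map_conjA`), `Wv v (conjA O X) = O (Wv v X) Oᵀ`
(`K1.Wv_conjA`; KRot is imported by JLaw).  `conjA O` is a measurable equivalence (inverse `conjA Oᵀ`),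
so `∫ F(X) = ∫ F(conjA O Z)` for EVERY function `F` (`MeasurableEmbedding.integral_map`, no
measurability needed).
`Bm α β σ (conjA O Z) = α H + β P O W(Z) Oᵀ P = O [α Oᵀ H O + β (Oᵀ P O) W(Z) (Oᵀ P O)] Oᵀ`; the matrix
`C` in brackets has vanishing last row and column (`conj_last`, `conj_Pn`) and
`mino last C = α H' + β mino last (W(Z)) = α H' + β Wv v (subX last Z)`.  So
`roots(Bm ..).erase 0 = (0 ::ₘ roots(mino last C)).erase 0 = roots(α H' + β Wv v (subX last Z))`.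
(2) `f(Y) := Φ(roots(α H' + β Wv v Y))`, `g(Y) := Φ(roots(α diag lam + β Wv v Y))` (measurable by
hypothesis).  `α H' + β Wv v Y = U (α diag lam + β Uᵀ (Wv v Y) U) Uᵀ`, so `f(Y) = g(conjA Uᵀ Y)`,
measurable; `∫ f(subX last Z) ∂(gm n) = ∫ f ∂(gm N)` (`gm_sub_integral`) and
`∫ f ∂(gm N) = ∫ g(conjA Uᵀ Y) = ∫ g ∂(gm N)` by invariance.
-/


open MeasureTheory ProbabilityTheory Matrix

namespace Pool.Agent.ZR

private theorem jz_conj_mul {N : ℕ} (A B : Matrix (Fin N) (Fin N) ℝ) (X : Fin N × Fin N → ℝ) :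
    K1.conjA A (K1.conjA B X) = K1.conjA (A * B) X := by
  ext p
  have h1 : (Matrix.of (fun i j => (K1.conjA B X) (i, j)) : Matrix (Fin N) (Fin N) ℝ)
      = B * Matrix.of (fun i j => X (i, j)) * Bᵀ := by ext; rfl
  have h2 : K1.conjA A (K1.conjA B X) p
      = (A * Matrix.of (fun i j => (K1.conjA B X) (i, j)) * Aᵀ) p.1 p.2 := rfl
  have h3 : K1.conjA (A * B) X p
      = (A * B * Matrix.of (fun i j => X (i, j)) * (A * B)ᵀ) p.1 p.2 := rfl
  rw [h2, h3, h1, Matrix.transpose_mul]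
  simp only [Matrix.mul_assoc]

private theorem jz_conj_one {N : ℕ} (X : Fin N × Fin N → ℝ) :
    K1.conjA (1 : Matrix (Fin N) (Fin N) ℝ) X = X := by
  ext p
  have h2 : K1.conjA (1 : Matrix (Fin N) (Fin N) ℝ) X p
      = ((1 : Matrix (Fin N) (Fin N) ℝ) * Matrix.of (fun i j => X (i, j)) *
          (1 : Matrix (Fin N) (Fin N) ℝ)ᵀ) p.1 p.2 := rfl
  rw [h2, Matrix.transpose_one, Matrix.one_mul, Matrix.mul_one]
  rfl

private theorem jz_conj_meas {N : ℕ} (O : Matrix (Fin N) (Fin N) ℝ) :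
    Measurable (K1.conjA O) :=
  (LinearMap.continuous_of_finiteDimensional (K1.conjA O)).measurable

/-- invariance of the Gaussian measure under conjugation, for all functions -/
private theorem jz_inv {N : ℕ} {O : Matrix (Fin N) (Fin N) ℝ} (h1 : O * Oᵀ = 1) (h2 : Oᵀ * O = 1)
    (F : (Fin N × Fin N → ℝ) → ℝ) :
    ∫ X, F X ∂(gm N) = ∫ X, F (K1.conjA O X) ∂(gm N) := by
  let e : (Fin N × Fin N → ℝ) ≃ᵐ (Fin N × Fin N → ℝ) :=
    { toFun := K1.conjA O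
      invFun := K1.conjA Oᵀ
      left_inv := fun X => by rw [jz_conj_mul, h2, jz_conj_one]
      right_inv := fun X => by rw [jz_conj_mul, h1, jz_conj_one]
      measurable_toFun := jz_conj_meas O
      measurable_invFun := jz_conj_meas Oᵀ }
  have h := integral_map_equiv (μ := gm N) e F
  have h3 : Measure.map e (gm N) = gm N := K1.gm_map_conjA h2
  rw [h3] at h
  exact h

private theorem j0_aux (N : ℕ) (σ : Fin (N + 1) → Fin (N + 1) → Bool) (hσ : σ ∈ Sn (N + 1))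
    (lam : Fin N → ℝ)
    (hr : (H0 σ).charpoly.roots = 0 ::ₘ (Finset.univ.val.map lam)) (α β : ℝ)
    (Φ : Multiset ℝ → ℝ)
    (hΦ : Measurable (fun X : Fin N × Fin N → ℝ =>
        Φ (α • Matrix.diagonal lam + β • Wv (1 / ((N + 1 : ℕ) : ℝ)) X).charpoly.roots)) :
    ∫ X, Φ ((Bm α β σ X).charpoly.roots.erase 0) ∂(gm (N + 1))
      = ∫ X, Φ (α • Matrix.diagonal lam + β • Wv (1 / ((N + 1 : ℕ) : ℝ)) X).charpoly.roots
          ∂(gm N) := by
  obtain ⟨O, hO1, hO2, hO3⟩ := exists_orth_last N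
  set v : ℝ := 1 / ((N + 1 : ℕ) : ℝ) with hv
  have hpb := pb_H0 σ hσ
  have hH0s : (H0 σ).IsSymm := hpb.bs
  have hH0z : H0 σ *ᵥ (fun _ => (1 : ℝ)) = 0 := pb_mulVec_one (Nat.succ_pos N) hpb
  have hD := conj_Pn N O hO1 hO2 hO3
  set D : Matrix (Fin (N + 1)) (Fin (N + 1)) ℝ :=
    Matrix.diagonal (fun i => if i = Fin.last N then 0 else 1) with hDd
  set C0 : Matrix (Fin (N + 1)) (Fin (N + 1)) ℝ := Oᵀ * H0 σ * O with hC0d
  have hC0 : ∀ j, C0 j (Fin.last N) = 0 ∧ C0 (Fin.last N) j = 0 :=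
    conj_last N O hO3 (H0 σ) hH0s hH0z
  have hC0s : C0.IsSymm := by
    unfold Matrix.IsSymm
    rw [hC0d, Matrix.transpose_mul, Matrix.transpose_mul, Matrix.transpose_transpose, hH0s.eq,
      Matrix.mul_assoc]
  set H' : Matrix (Fin N) (Fin N) ℝ := mino (Fin.last N) C0 with hH'd
  have hH's : H'.IsSymm := mino_symm _ _ hC0s
  have hroot1 : C0.charpoly.roots = 0 ::ₘ H'.charpoly.roots :=
    roots_block C0 (fun j => (hC0 j).1) (fun j => (hC0 j).2)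
  have hroot2 : C0.charpoly = (H0 σ).charpoly := by
    have h := charpoly_conj (H0 σ) Oᵀ (by rw [Matrix.transpose_transpose, hO2])
      (by rw [Matrix.transpose_transpose, hO1])
    rw [Matrix.transpose_transpose] at h
    exact h
  have hroot3 : H'.charpoly.roots = (Matrix.diagonal lam).charpoly.roots := by
    rw [hroot2, hr] at hroot1
    rw [roots_diag]
    exact ((Multiset.cons_inj_right 0).1 hroot1).symm
  obtain ⟨U, hU1, hU2, hU⟩ := conj_of_roots H' (Matrix.diagonal lam) hH's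
    (Matrix.isSymm_diagonal lam) hroot3
  -- step 1
  have step1 : ∀ Z : Fin (N + 1) × Fin (N + 1) → ℝ,
      (Bm α β σ (K1.conjA O Z)).charpoly.roots.erase 0
        = (α • H' + β • Wv v (subX (Fin.last N) Z)).charpoly.roots := by
    intro Z
    set C : Matrix (Fin (N + 1)) (Fin (N + 1)) ℝ := α • C0 + β • (D * Wv v Z * D) with hCd
    have e1 : O * C0 * Oᵀ = H0 σ := by
      calc O * C0 * Oᵀ = (O * Oᵀ) * H0 σ * (O * Oᵀ) := by
            rw [hC0d]; simp only [Matrix.mul_assoc]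
        _ = H0 σ := by rw [hO1, Matrix.one_mul, Matrix.mul_one]
    have e2 : O * (D * Wv v Z * D) * Oᵀ = Pn (N + 1) * (O * Wv v Z * Oᵀ) * Pn (N + 1) := by
      calc O * (D * Wv v Z * D) * Oᵀ
          = (O * Oᵀ) * Pn (N + 1) * O * Wv v Z * Oᵀ * Pn (N + 1) * (O * Oᵀ) := by
            rw [← hD]; simp only [Matrix.mul_assoc]
        _ = Pn (N + 1) * (O * Wv v Z * Oᵀ) * Pn (N + 1) := by
            rw [hO1, Matrix.one_mul, Matrix.mul_one]; simp only [Matrix.mul_assoc]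
    have e3 : Bm α β σ (K1.conjA O Z) = O * C * Oᵀ := by
      rw [Bm, K1.Wv_conjA, hCd, Matrix.mul_add, Matrix.add_mul, Matrix.mul_smul, Matrix.smul_mul,
        Matrix.mul_smul, Matrix.smul_mul, e1, e2]
    have hz : ∀ j, C j (Fin.last N) = 0 ∧ C (Fin.last N) j = 0 := by
      intro j
      constructor
      · rw [hCd, Matrix.add_apply, Matrix.smul_apply, Matrix.smul_apply, (hC0 j).1, hDd,
          Matrix.mul_diagonal]
        simp
      · rw [hCd, Matrix.add_apply, Matrix.smul_apply, Matrix.smul_apply, (hC0 j).2, hDd,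
          Matrix.mul_diagonal, Matrix.diagonal_mul]
        simp
    have hm : mino (Fin.last N) C = α • H' + β • Wv v (subX (Fin.last N) Z) := by
      ext i j
      have h1 : (Fin.last N).succAbove i ≠ Fin.last N := Fin.succAbove_ne _ _
      have h2 : (Fin.last N).succAbove j ≠ Fin.last N := Fin.succAbove_ne _ _
      rw [hCd, hDd]
      simp only [mino, Matrix.submatrix_apply, Matrix.add_apply, Matrix.smul_apply, hH'd,
        Matrix.mul_diagonal, Matrix.diagonal_mul, if_neg h1, if_neg h2, Wv, subX,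
        Matrix.of_apply]
      simp
    rw [e3, charpoly_conj C O hO1 hO2, roots_block C (fun j => (hz j).1) (fun j => (hz j).2), hm,
      Multiset.erase_cons_head]
  -- step 2
  set f : (Fin N × Fin N → ℝ) → ℝ := fun Y => Φ (α • H' + β • Wv v Y).charpoly.roots with hf
  set g : (Fin N × Fin N → ℝ) → ℝ := fun Y =>
    Φ (α • Matrix.diagonal lam + β • Wv v Y).charpoly.roots with hg
  have hfg : ∀ Y, f Y = g (K1.conjA Uᵀ Y) := by
    intro Y
    rw [hf, hg]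
    simp only
    have e1 : α • H' + β • Wv v Y
        = U * (α • Matrix.diagonal lam + β • Wv v (K1.conjA Uᵀ Y)) * Uᵀ := by
      rw [K1.Wv_conjA, Matrix.transpose_transpose, Matrix.mul_add, Matrix.add_mul,
        Matrix.mul_smul, Matrix.smul_mul, Matrix.mul_smul, Matrix.smul_mul, ← hU]
      congr 2
      calc Wv v Y = (U * Uᵀ) * Wv v Y * (U * Uᵀ) := by
            rw [hU1, Matrix.one_mul, Matrix.mul_one]
        _ = U * (Uᵀ * Wv v Y * U) * Uᵀ := by simp only [Matrix.mul_assoc]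
    rw [e1, charpoly_conj _ U hU1 hU2]
  have hfm : Measurable f := by
    have : f = g ∘ (K1.conjA Uᵀ) := funext hfg
    rw [this]
    exact hΦ.comp (jz_conj_meas _)
  calc ∫ X, Φ ((Bm α β σ X).charpoly.roots.erase 0) ∂(gm (N + 1))
      = ∫ Z, Φ ((Bm α β σ (K1.conjA O Z)).charpoly.roots.erase 0) ∂(gm (N + 1)) :=
        jz_inv hO1 hO2 (fun X => Φ ((Bm α β σ X).charpoly.roots.erase 0))
    _ = ∫ Z, f (subX (Fin.last N) Z) ∂(gm (N + 1)) := by
        simp only [step1, hf]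
    _ = ∫ Y, f Y ∂(gm N) := gm_sub_integral (Fin.last N) f hfm
    _ = ∫ Y, g (K1.conjA Uᵀ Y) ∂(gm N) := by simp only [hfg]
    _ = ∫ Y, g Y ∂(gm N) := (jz_inv (by rw [Matrix.transpose_transpose, hU2])
        (by rw [Matrix.transpose_transpose, hU1]) g).symm

theorem j0 : J0 := by
  intro n hn σ hσ lam hr α β Φ hΦ
  obtain ⟨N, rfl⟩ : ∃ N, n = N + 1 := ⟨n - 1, by omega⟩
  exact j0_aux N σ hσ lam hr α β Φ hΦ

end Pool.Agent.ZR

end

section

/-!
# ZR/F8 : one step of the bootstrap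

`good_of_gam`: from `GamLe (Pn n) B E η Γ₀` (`Γ₀ ≥ 1`, `1/n ≤ η ≤ 1`) and `OpLe (toC (H0 σ)) Λ`,
`Λ ≥ 1`: `GoodF` holds at `z = E + iη` with `Γ = 1 + Γ₀ log n` (`entry_log`, C4, `log(1/η) ≤ log n`),
`τ = √(Γ₀/(nη))` (Ward, C3: `∑_j‖G_jy‖² = Im G_yy/η ≤ Γ₀/η`), `Λ` (`Mx = √n H0`).

`small_q`: deterministic: if all `‖q_xy‖ ≤ 1/100`, `n ≥ 100`... then all `‖G_xy‖ ≤ 3`:
`(1/n)∑_x q_xx = (1/n) tr P + (z+m)m = 1 - 1/n + zm + m²`, so `‖1+zm+m²‖ ≤ 1/100 + 1/n`;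
`stab_sqrt` (SC2): `‖m - msc‖ ≤ 4√(1/100+1/n) ≤ 1/2` for `n ≥ 200` (`4√0.015 ≤ 0.49`), and
`‖z+msc‖ ≥ 1`, so `‖z+m‖ ≥ 1/2` and `‖G_xy‖ = ‖q_xy - P_xy‖/‖z+m‖ ≤ 2(1 + 1/100) ≤ 3`.

`stepF`.  `ν' = ν₀/100`.  Given `D`, choose `p ≥ 2` with `p ν₀/12 ≥ D + 4`.  Let `η ≥ n^{-1+ν₀}`,
`Γ₀ = 3n^{ν'}`, `Λ = K log n` (`BNorm` with `(α,β) = (1,0)`: `Bm 1 0 σ X = H0 σ`, failure probability
`e^{-n}`), `Γ = 1 + Γ₀ log n`, `τ = √(Γ₀/(nη)) ≤ √3 n^{(ν'-ν₀)/2}`.  Then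
`10^9Λ⁴Γ⁷(τ + n^{-1/2}) ≤ n^{-ν₀/4}` for large `n` (`7ν' + ν'/2 < ν₀/4`, logarithms are absorbed), so
`δ = n^{-ν₀/12}` is allowed in `momQ`.  Markov's inequality: `PJ(‖q_xy‖ > n^{-ν₀/24}) ≤
n^{2pν₀/24}(C n^{-2pν₀/12} + C(10n)^{4p+10} PJ(¬Good)) ≤ C n^{-pν₀/12} + n^{C_p}(e^{-n} + n^{-D'})`;
sum over the `n²` pairs; `D'` large (depending on `p`).  On the complement all `‖q_xy‖ ≤ n^{-ν₀/24} ≤
1/100` and `small_q` applies.
-/


open MeasureTheory ProbabilityTheory Matrix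

namespace Pool.Agent.ZR.F

theorem small_q {n : ℕ} (hn : 200 ≤ n) {B : Matrix (Fin n) (Fin n) ℝ} (hB : PB (Pn n) B) (z : ℂ)
    (hz : 0 < z.im) (hE : |z.re| ≤ 2) (h : ∀ x y, ‖qf (Pn n) B z x y‖ ≤ 1 / 100) :
    EnLe (Gz (Pn n) B z) 3 := by
  have hn0 : 0 < n := by omega
  have hnR : (200 : ℝ) ≤ n := by exact_mod_cast hn
  have hnC : (n : ℂ) ≠ 0 := by exact_mod_cast hn0.ne'
  set m : ℂ := mz (Pn n) B z with hm
  -- average of the diagonal entries of `q`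
  have hsum : (1 / (n : ℂ)) * ∑ x, qf (Pn n) B z x x = 1 + z * m + m ^ 2 - 1 / (n : ℂ) := by
    have h1 : ∑ x, qf (Pn n) B z x x
        = ((Pn n).trace : ℂ) + (z + m) * (Gz (Pn n) B z).trace := by
      unfold qf
      rw [Finset.sum_add_distrib, ← Finset.mul_sum, ← Complex.ofReal_sum]
      rfl
    have h2 : (Gz (Pn n) B z).trace = (n : ℂ) * m := by
      rw [hm]
      unfold mz
      field_simp
    rw [h1, h2, Pn_trace n hn0]
    push_cast
    field_simp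
    ring
  have hav : ‖1 + z * m + m ^ 2‖ ≤ 15 / 1000 := by
    have h1 : 1 + z * m + m ^ 2 = (1 / (n : ℂ)) * ∑ x, qf (Pn n) B z x x + 1 / (n : ℂ) := by
      rw [hsum]
      ring
    have h2 : ‖(1 / (n : ℂ)) * ∑ x, qf (Pn n) B z x x‖ ≤ 1 / 100 := by
      rw [norm_mul, norm_div, norm_one, Complex.norm_natCast]
      have h3 : ‖∑ x, qf (Pn n) B z x x‖ ≤ (n : ℝ) * (1 / 100) := by
        refine (norm_sum_le _ _).trans ?_
        calc ∑ x : Fin n, ‖qf (Pn n) B z x x‖ ≤ ∑ _x : Fin n, (1 / 100 : ℝ) :=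
              Finset.sum_le_sum fun x _ => h x x
          _ = (n : ℝ) * (1 / 100) := by simp
      calc 1 / (n : ℝ) * ‖∑ x, qf (Pn n) B z x x‖ ≤ 1 / (n : ℝ) * ((n : ℝ) * (1 / 100)) :=
            mul_le_mul_of_nonneg_left h3 (by positivity)
        _ = 1 / 100 := by field_simp
    have h4 : ‖1 / (n : ℂ)‖ ≤ 5 / 1000 := by
      rw [norm_div, norm_one, Complex.norm_natCast, div_le_iff₀ (by linarith)]
      linarith
    rw [h1]
    refine (norm_add_le _ _).trans ?_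
    linarith
  have hmim : 0 ≤ m.im := by
    rw [hm]
    unfold mz
    have h1 : (1 / (n : ℂ)) = ((1 / (n : ℝ) : ℝ) : ℂ) := by push_cast; rfl
    rw [h1, Complex.im_ofReal_mul, C3_tr_im]
    exact mul_nonneg (by positivity) (Finset.sum_nonneg fun x _ => im_diag_nonneg hB z hz x)
  have hst := stab_sqrt z m hz hmim hE
  have hsq : Real.sqrt ‖1 + z * m + m ^ 2‖ ≤ 1 / 8 := by
    rw [Real.sqrt_le_left (by norm_num)]
    refine hav.trans ?_
    norm_num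
  have h5 : 1 / 2 ≤ ‖z + m‖ := by
    have h6 := norm_z_add_msc z hz.ne'
    have h7 : ‖z + msc z‖ ≤ ‖z + m‖ + ‖m - msc z‖ := by
      have h8 : z + msc z = (z + m) - (m - msc z) := by ring
      rw [h8]
      exact norm_sub_le _ _
    linarith
  intro x y
  have h9 : (z + m) * Gz (Pn n) B z x y = qf (Pn n) B z x y - ((Pn n x y : ℝ) : ℂ) := by
    unfold qf
    ring
  have h10 : ‖((Pn n x y : ℝ) : ℂ)‖ ≤ 1 := by
    rw [Complex.norm_real, Pn_apply, Real.norm_eq_abs, abs_le]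
    have h11 : (0 : ℝ) ≤ 1 / n := by positivity
    have h12 : 1 / (n : ℝ) ≤ 1 := by
      rw [div_le_one (by linarith)]
      linarith
    split_ifs
    · constructor <;> linarith
    · constructor <;> linarith
  have h13 : ‖z + m‖ * ‖Gz (Pn n) B z x y‖ ≤ 1 / 100 + 1 := by
    rw [← norm_mul, h9]
    refine (norm_sub_le _ _).trans ?_
    exact add_le_add (h x y) h10
  have h14 : 0 ≤ ‖Gz (Pn n) B z x y‖ := norm_nonneg _
  nlinarith

private theorem f8_PJ_mono {n : ℕ} {A A' : (Fin n → Fin n → Bool) → (Fin n × Fin n → ℝ) → Prop}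
    (h : ∀ σ ∈ Sn n, ∀ X, A σ X → A' σ X) : PJ A ≤ PJ A' := by
  have : IsProbabilityMeasure (gm n) := by unfold gm; infer_instance
  unfold PJ
  exact EU_mono fun σ hσ => measureReal_mono (fun X hX => h σ hσ X hX)

private theorem f8_PJ_or {n : ℕ}
    (A A' : (Fin n → Fin n → Bool) → (Fin n × Fin n → ℝ) → Prop) :
    PJ (fun σ X => A σ X ∨ A' σ X) ≤ PJ A + PJ A' := by
  unfold PJ
  rw [← EU_add]
  exact EU_mono fun σ _ => measureReal_union_le {X | A σ X} {X | A' σ X}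

private theorem f8_PJ_nonneg {n : ℕ}
    (A : (Fin n → Fin n → Bool) → (Fin n × Fin n → ℝ) → Prop) : 0 ≤ PJ A := by
  unfold PJ
  exact EU_nonneg fun σ _ => measureReal_nonneg

private theorem f8_good {n : ℕ} (hn : 0 < n) {σ : Fin n → Fin n → Bool} (hσ : σ ∈ Sn n)
    (X : Fin n × Fin n → ℝ) (α β E η Γ₀ Λ : ℝ) (hη : 0 < η) (hηn : 1 / η ≤ n) (hΓ₀ : 0 ≤ Γ₀)
    (hlog : 0 ≤ Real.log n) (hΛ : 1 ≤ Λ) (hO : OpLe (toC (Bm 1 0 σ X)) Λ)
    (hG : GamLe (Pn n) (Bm α β σ X) E η Γ₀) :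
    GoodF α β (⟨E, η⟩ : ℂ) Λ (1 + Γ₀ * Real.log n) (Real.sqrt (Γ₀ / (n * η))) σ X := by
  have hnR : (0 : ℝ) < n := by exact_mod_cast hn
  have hB : Bm 1 0 σ X = H0 σ := by simp [Bm]
  rw [hB] at hO
  refine ⟨⟨?_, Mx_row hσ, Mx_sq σ, ?_, hΛ⟩, ?_⟩
  · ext i j
    exact Mx_symm hσ j i
  · obtain ⟨h1, h2⟩ := hO
    refine ⟨by positivity, fun u => ?_⟩
    have hsq : (Real.sqrt n : ℝ) ≠ 0 := (Real.sqrt_pos.2 hnR).ne'
    have hE : toC (Mx σ) = (Real.sqrt n : ℂ) • toC (H0 σ) := by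
      ext i j
      have h3 : Mx σ i j = Real.sqrt n * (H0 σ i j) := by
        simp only [H0, Matrix.smul_apply, smul_eq_mul]
        field_simp
      rw [Matrix.smul_apply, smul_eq_mul]
      change ((Mx σ i j : ℝ) : ℂ) = (Real.sqrt n : ℂ) * ((H0 σ i j : ℝ) : ℂ)
      rw [h3]
      push_cast
      rfl
    have h4 : ∀ i, ‖(toC (Mx σ) *ᵥ u) i‖ ^ 2 = n * ‖(toC (H0 σ) *ᵥ u) i‖ ^ 2 := by
      intro i
      rw [hE, Matrix.smul_mulVec, Pi.smul_apply, norm_smul, mul_pow, Complex.norm_real,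
        Real.norm_eq_abs, sq_abs, Real.sq_sqrt hnR.le]
    rw [Finset.sum_congr rfl fun i _ => h4 i, ← Finset.mul_sum, mul_pow, Real.sq_sqrt hnR.le]
    have h5 := mul_le_mul_of_nonneg_left (h2 u) hnR.le
    refine h5.trans (le_of_eq ?_)
    ring
  · have hPB := pb_Bm α β σ hσ X
    have hz : 0 < (⟨E, η⟩ : ℂ).im := hη
    have hsym := gz_symm hPB (⟨E, η⟩ : ℂ) hz.ne'
    refine ⟨hsym, ?_, ?_, ?_, Real.sqrt_nonneg _⟩
    · intro x y
      refine (entry_log hPB E η Γ₀ hη hG hΓ₀ x y).trans ?_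
      have h6 : max 0 (Real.log (1 / η)) ≤ Real.log n :=
        max_le hlog (Real.log_le_log (by positivity) hηn)
      have h7 := mul_le_mul_of_nonneg_left h6 hΓ₀
      linarith
    · intro y
      have hs : ∀ j, ‖Gz (Pn n) (Bm α β σ X) (⟨E, η⟩ : ℂ) j y‖
          = ‖Gz (Pn n) (Bm α β σ X) (⟨E, η⟩ : ℂ) y j‖ := by
        intro j
        have h8 := congrFun (congrFun hsym y) j
        rw [Matrix.transpose_apply] at h8
        rw [h8]
      rw [Finset.sum_congr rfl fun j _ => by rw [hs j], ward hPB (⟨E, η⟩ : ℂ) hz y,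
        Real.sq_sqrt (by positivity)]
      have h9 := hG η le_rfl y
      calc (Gz (Pn n) (Bm α β σ X) (⟨E, η⟩ : ℂ) y y).im / (⟨E, η⟩ : ℂ).im
          ≤ Γ₀ / η := div_le_div_of_nonneg_right h9 hη.le
        _ = n * (Γ₀ / (n * η)) := by field_simp
    · have := mul_nonneg hΓ₀ hlog
      linarith

private theorem f8_cont {n : ℕ} (α β : ℝ) (z : ℂ) (hz : z.im ≠ 0) {σ : Fin n → Fin n → Bool}
    (hσ : σ ∈ Sn n) (x y : Fin n) :
    Continuous (fun X : Fin n × Fin n → ℝ => qf (Pn n) (Bm α β σ X) z x y) := by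
  have hB : ∀ i j, Continuous (fun X : Fin n × Fin n → ℝ => Bm α β σ X i j) := by
    intro i j
    have h1 : Continuous (fun X : Fin n × Fin n → ℝ => Wv (1 / (n : ℝ)) X) := wv_continuous _
    have h2 : Continuous (fun X : Fin n × Fin n → ℝ => Pn n * Wv (1 / (n : ℝ)) X * Pn n) :=
      (continuous_const.matrix_mul h1).matrix_mul continuous_const
    have h3 : Continuous (fun X : Fin n × Fin n → ℝ => Bm α β σ X) := by
      unfold Bm
      exact continuous_const.add (h2.const_smul β)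
    exact h3.matrix_elem i j
  have hG := fun i j => gz_cont (B := fun X : Fin n × Fin n → ℝ => Bm α β σ X)
    (fun X => pb_Bm α β σ hσ X) hB hz i j
  have hm : Continuous (fun X : Fin n × Fin n → ℝ => mz (Pn n) (Bm α β σ X) z) := by
    unfold mz Matrix.trace
    exact continuous_const.mul (continuous_finsetSum _ fun i _ => hG i i)
  unfold qf
  exact continuous_const.add ((continuous_const.add hm).mul (hG x y))

/-- Markov's inequality, summed over all entries -/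
private theorem f8_markov {n : ℕ} (hn : 200 ≤ n) (α β E η : ℝ) (hE : |E| ≤ 2) (hη : 0 < η)
    (hη1 : 1 ≤ n * η) (hz3 : ‖(⟨E, η⟩ : ℂ)‖ ≤ 3) (p : ℕ) (M : ℝ)
    (hM : ∀ x y, EJ (n := n) (fun σ X => ‖qf (Pn n) (Bm α β σ X) (⟨E, η⟩ : ℂ) x y‖ ^ (2 * p))
      ≤ M) :
    PJ (n := n) (fun σ X => ¬ EnLe (Gz (Pn n) (Bm α β σ X) (⟨E, η⟩ : ℂ)) 3)
      ≤ (n : ℝ) ^ 2 * (100 ^ (2 * p) * M) := by
  have : IsProbabilityMeasure (gm n) := by unfold gm; infer_instance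
  have hz : 0 < (⟨E, η⟩ : ℂ).im := hη
  have key : ∀ σ ∈ Sn n, (gm n).real {X | ¬ EnLe (Gz (Pn n) (Bm α β σ X) (⟨E, η⟩ : ℂ)) 3}
      ≤ ∑ a : Fin n × Fin n, (100 : ℝ) ^ (2 * p) •
        ∫ X, ‖qf (Pn n) (Bm α β σ X) (⟨E, η⟩ : ℂ) a.1 a.2‖ ^ (2 * p) ∂(gm n) := by
    intro σ hσ
    have hsub : {X | ¬ EnLe (Gz (Pn n) (Bm α β σ X) (⟨E, η⟩ : ℂ)) 3}
        ⊆ ⋃ a : Fin n × Fin n, {X | (1 / 100 : ℝ) ^ (2 * p)
          ≤ ‖qf (Pn n) (Bm α β σ X) (⟨E, η⟩ : ℂ) a.1 a.2‖ ^ (2 * p)} := by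
      intro X hX
      by_contra hcon
      apply hX
      refine small_q hn (pb_Bm α β σ hσ X) _ hz hE fun x y => ?_
      by_contra hlt
      apply hcon
      rw [Set.mem_iUnion]
      refine ⟨(x, y), ?_⟩
      exact pow_le_pow_left₀ (by norm_num) (not_le.1 hlt).le _
    refine (measureReal_mono hsub).trans ((measureReal_iUnion_fintype_le _).trans ?_)
    refine Finset.sum_le_sum fun a _ => ?_
    have hint : Integrable (fun X => ‖qf (Pn n) (Bm α β σ X) (⟨E, η⟩ : ℂ) a.1 a.2‖ ^ (2 * p))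
        (gm n) := by
      refine Integrable.of_bound
        ((f8_cont α β _ hz.ne' hσ a.1 a.2).norm.pow _).aestronglyMeasurable
        ((5 * (n : ℝ) ^ 2) ^ (2 * p)) (Filter.Eventually.of_forall fun X => ?_)
      rw [Real.norm_of_nonneg (by positivity)]
      exact pow_le_pow_left₀ (norm_nonneg _)
        ((crude (by omega) α β hσ X _ hz hη1 hz3).2.2.1 a.1 a.2) _
    have h1 := mul_meas_ge_le_integral_of_nonneg
      (Filter.Eventually.of_forall fun X => by positivity) hint ((1 / 100 : ℝ) ^ (2 * p))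
    have h2 : (100 : ℝ) ^ (2 * p) * (1 / 100 : ℝ) ^ (2 * p) = 1 := by
      rw [← mul_pow]
      norm_num
    rw [smul_eq_mul]
    have h3 := mul_le_mul_of_nonneg_left h1 (by positivity : (0 : ℝ) ≤ 100 ^ (2 * p))
    rw [← mul_assoc, h2, one_mul] at h3
    exact h3
  have h4 : PJ (n := n) (fun σ X => ¬ EnLe (Gz (Pn n) (Bm α β σ X) (⟨E, η⟩ : ℂ)) 3)
      ≤ ∑ a : Fin n × Fin n, (100 : ℝ) ^ (2 * p) • EJ (n := n) (fun σ X =>
        ‖qf (Pn n) (Bm α β σ X) (⟨E, η⟩ : ℂ) a.1 a.2‖ ^ (2 * p)) := by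
    unfold PJ EJ
    refine (EU_mono key).trans (le_of_eq ?_)
    rw [EU_sum]
    refine Finset.sum_congr rfl fun a _ => ?_
    rw [EU_smul]
  refine h4.trans ?_
  calc ∑ a : Fin n × Fin n, (100 : ℝ) ^ (2 * p) • EJ (n := n) (fun σ X =>
        ‖qf (Pn n) (Bm α β σ X) (⟨E, η⟩ : ℂ) a.1 a.2‖ ^ (2 * p))
      ≤ ∑ _a : Fin n × Fin n, (100 : ℝ) ^ (2 * p) * M := by
        refine Finset.sum_le_sum fun a _ => ?_
        rw [smul_eq_mul]
        exact mul_le_mul_of_nonneg_left (hM a.1 a.2) (by positivity)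
    _ = (n : ℝ) ^ 2 * (100 ^ (2 * p) * M) := by
        rw [Finset.sum_const, Finset.card_univ, Fintype.card_prod, Fintype.card_fin,
          nsmul_eq_mul]
        push_cast
        ring

/-- the smallness condition of `momQ` in terms of `x = n^(ν₀/200)` -/
private theorem f8_small {K x L τ s A : ℝ} (hK : 0 < K) (hA : A = 10 ^ 9 * K ^ 4 * 4 ^ 7 * 3)
    (hx : 1 ≤ x) (hxA : A ≤ x) (hL0 : 0 ≤ L) (hL : L ≤ x) (hτ0 : 0 ≤ τ) (hτ : τ ≤ 2 / x ^ 99)
    (hs : x ^ 100 ≤ s) :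
    10 ^ 9 * (K * L) ^ 4 * (1 + 3 * x ^ 2 * L) ^ 7 * (τ + 1 / s) ≤ 1 / x ^ 50 := by
  have hx0 : 0 < x := by linarith
  have h1 : (K * L) ^ 4 ≤ (K * x) ^ 4 :=
    pow_le_pow_left₀ (by positivity) (mul_le_mul_of_nonneg_left hL hK.le) _
  have hx3 : 1 ≤ x ^ 3 := one_le_pow₀ hx
  have h2 : 1 + 3 * x ^ 2 * L ≤ 4 * x ^ 3 := by
    have h3 : 3 * x ^ 2 * L ≤ 3 * x ^ 2 * x := mul_le_mul_of_nonneg_left hL (by positivity)
    have h4 : 3 * x ^ 2 * x = 3 * x ^ 3 := by ring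
    linarith
  have h5 : (1 + 3 * x ^ 2 * L) ^ 7 ≤ (4 * x ^ 3) ^ 7 :=
    pow_le_pow_left₀ (by positivity) h2 _
  have h6 : τ + 1 / s ≤ 3 / x ^ 99 := by
    have h7 : 1 / s ≤ 1 / x ^ 99 := by
      apply one_div_le_one_div_of_le (by positivity)
      refine le_trans ?_ hs
      exact pow_le_pow_right₀ hx (by norm_num)
    have h8 : (3 : ℝ) / x ^ 99 = 2 / x ^ 99 + 1 / x ^ 99 := by ring
    linarith
  have hs0 : 0 < s := lt_of_lt_of_le (by positivity) hs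
  have h9 : 0 ≤ τ + 1 / s := by positivity
  calc 10 ^ 9 * (K * L) ^ 4 * (1 + 3 * x ^ 2 * L) ^ 7 * (τ + 1 / s)
      ≤ 10 ^ 9 * (K * x) ^ 4 * (4 * x ^ 3) ^ 7 * (3 / x ^ 99) := by gcongr
    _ = A / x ^ 74 := by
        rw [hA]
        field_simp
    _ ≤ x ^ 24 / x ^ 74 := by
        apply div_le_div_of_nonneg_right _ (by positivity)
        refine hxA.trans ?_
        calc x = x ^ 1 := (pow_one x).symm
          _ ≤ x ^ 24 := pow_le_pow_right₀ hx (by norm_num)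
    _ = 1 / x ^ 50 := by field_simp

/-- the final numerical inequality -/
private theorem f8_final {N D ν0 C ex : ℝ} {p : ℕ} (hC : 0 < C) (hN : 1 ≤ N)
    (hpD : D + 4 ≤ p * ν0 / 12) (hD : 0 < D)
    (hNbig : 8 * 100 ^ (2 * p) * C * 10 ^ (4 * p + 10) ≤ N)
    (hex : ex ≤ 2 * N ^ (-(D + 4 * p + 13))) :
    N ^ 2 * (100 ^ (2 * p) * (C * (N ^ (-(ν0 / 12))) ^ (2 * p) + C * (10 * N) ^ (4 * p + 10) * ex))
      ≤ N ^ (-D) := by
  have hN0 : 0 < N := by linarith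
  have e1 : (N ^ (-(ν0 / 12))) ^ (2 * p) ≤ N ^ (-D - 3) := by
    rw [← Real.rpow_natCast, ← Real.rpow_mul hN0.le]
    apply Real.rpow_le_rpow_of_exponent_le hN
    push_cast
    nlinarith
  have e2 : N ^ 2 * N ^ (-D - 3) = N ^ (-D) / N := by
    rw [← Real.rpow_natCast N 2, ← Real.rpow_add hN0, ← Real.rpow_sub_one hN0.ne']
    congr 1
    push_cast
    ring
  have e3 : N ^ 2 * (N ^ (4 * p + 10) * N ^ (-(D + 4 * p + 13))) = N ^ (-D) / N := by
    rw [← Real.rpow_natCast N 2, ← Real.rpow_natCast N (4 * p + 10), ← Real.rpow_add hN0,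
      ← Real.rpow_add hN0, ← Real.rpow_sub_one hN0.ne']
    congr 1
    push_cast
    ring
  set y : ℝ := N ^ (-D) with hy
  have hy0 : 0 < y := Real.rpow_pos_of_pos hN0 _
  have hyN : 0 < y / N := by positivity
  have h10 : (1 : ℝ) ≤ 10 ^ (4 * p + 10) := one_le_pow₀ (by norm_num)
  have hc0 : (0 : ℝ) < 100 ^ (2 * p) * C := by positivity
  calc N ^ 2 * (100 ^ (2 * p) * (C * (N ^ (-(ν0 / 12))) ^ (2 * p)
        + C * (10 * N) ^ (4 * p + 10) * ex))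
      ≤ N ^ 2 * (100 ^ (2 * p) * (C * N ^ (-D - 3)
        + C * (10 * N) ^ (4 * p + 10) * (2 * N ^ (-(D + 4 * p + 13))))) := by gcongr
    _ = 100 ^ (2 * p) * C * (N ^ 2 * N ^ (-D - 3))
        + 2 * (100 ^ (2 * p) * C) * 10 ^ (4 * p + 10)
          * (N ^ 2 * (N ^ (4 * p + 10) * N ^ (-(D + 4 * p + 13)))) := by
        rw [mul_pow]
        ring
    _ = 100 ^ (2 * p) * C * (y / N) + 2 * (100 ^ (2 * p) * C) * 10 ^ (4 * p + 10) * (y / N) := by
        rw [e2, e3]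
    _ ≤ 3 * (100 ^ (2 * p) * C) * 10 ^ (4 * p + 10) * (y / N) := by
        have h11 : 100 ^ (2 * p) * C * (y / N)
            ≤ (100 ^ (2 * p) * C) * 10 ^ (4 * p + 10) * (y / N) := by
          have h12 : (100 : ℝ) ^ (2 * p) * C * 1 ≤ (100 ^ (2 * p) * C) * 10 ^ (4 * p + 10) :=
            mul_le_mul_of_nonneg_left h10 hc0.le
          rw [mul_one] at h12
          exact mul_le_mul_of_nonneg_right h12 hyN.le
        linarith
    _ ≤ N * (y / N) := by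
        apply mul_le_mul_of_nonneg_right _ hyN.le
        have h13 : (0 : ℝ) < 100 ^ (2 * p) * C * 10 ^ (4 * p + 10) := by positivity
        linarith
    _ = y := by field_simp

theorem stepF (hB : BNorm) (ν0 : ℝ) (h0 : 0 < ν0) (h1 : ν0 < 1) :
    ∀ D : ℝ, 0 < D → ∃ D' : ℝ, 0 < D' ∧ ∃ n0 : ℕ, ∀ n : ℕ, n0 ≤ n → Even n →
      ∀ α β : ℝ, 0 ≤ α → 0 ≤ β → α ^ 2 + β ^ 2 = 1 → ∀ E η : ℝ, |E| ≤ 2 →
        (n : ℝ) ^ (-1 + ν0) ≤ η → η ≤ 1 →
        PJ (n := n) (fun σ X =>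
          ¬ GamLe (Pn n) (Bm α β σ X) E η (3 * (n : ℝ) ^ (ν0 / 100))) ≤ (n : ℝ) ^ (-D') →
        PJ (n := n) (fun σ X => ¬ EnLe (Gz (Pn n) (Bm α β σ X) (⟨E, η⟩ : ℂ)) 3)
          ≤ (n : ℝ) ^ (-D) := by
  intro D hD
  obtain ⟨K, hK, nB, hB⟩ := hB
  obtain ⟨p, hp⟩ := exists_nat_ge (max 2 ((D + 4) * 12 / ν0))
  have hp2 : 2 ≤ p := by exact_mod_cast (le_max_left _ _).trans hp
  have hpD : D + 4 ≤ p * ν0 / 12 := by
    have h2 := (le_max_right _ _).trans hp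
    rw [div_le_iff₀ h0] at h2
    linarith
  obtain ⟨C, hC, hmom⟩ := momQ p hp2
  refine ⟨D + 4 * p + 13, by positivity, ?_⟩
  set A : ℝ := 10 ^ 9 * K ^ 4 * 4 ^ 7 * 3 with hA
  have t1 : Filter.Tendsto (fun n : ℕ => (n : ℝ) ^ (ν0 / 200)) Filter.atTop Filter.atTop :=
    (tendsto_rpow_atTop (by positivity)).comp tendsto_natCast_atTop_atTop
  have e1 := t1.eventually_ge_atTop (max A 128)
  have e2 : ∀ᶠ n : ℕ in Filter.atTop, Real.log n ≤ (n : ℝ) ^ (ν0 / 200) := by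
    have h2 := (isLittleO_log_rpow_atTop (by positivity : 0 < ν0 / 200)).bound one_pos
    filter_upwards [tendsto_natCast_atTop_atTop.eventually h2] with n hn
    rw [one_mul, Real.norm_of_nonneg (by positivity : 0 ≤ (n : ℝ) ^ (ν0 / 200))] at hn
    exact (le_abs_self _).trans hn
  have e3 := (Real.tendsto_log_atTop.comp
    (tendsto_natCast_atTop_atTop (R := ℝ))).eventually_ge_atTop (max 1 (1 / K))
  have e4 : ∀ᶠ n : ℕ in Filter.atTop,
      Real.exp (-(n : ℝ)) ≤ (n : ℝ) ^ (-(D + 4 * p + 13)) := by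
    have h2 := (isLittleO_exp_neg_mul_rpow_atTop one_pos (-(D + 4 * p + 13))).bound one_pos
    filter_upwards [tendsto_natCast_atTop_atTop.eventually h2] with n hn
    rw [one_mul, Real.norm_of_nonneg (Real.exp_pos _).le,
      Real.norm_of_nonneg (by positivity : 0 ≤ (n : ℝ) ^ (-(D + 4 * p + 13)))] at hn
    simpa using hn
  have e5 := (tendsto_natCast_atTop_atTop (R := ℝ)).eventually_ge_atTop
    (8 * 100 ^ (2 * p) * C * 10 ^ (4 * p + 10))
  obtain ⟨n0, hn0⟩ := Filter.eventually_atTop.1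
    ((e1.and e2).and ((e3.and e4).and (e5.and (Filter.eventually_ge_atTop 200))))
  refine ⟨max n0 nB, fun n hn hev α β hα hβ hαβ E η hE hη1 hη2 hPJ => ?_⟩
  obtain ⟨⟨f1, f2⟩, ⟨f3, f4⟩, f5, f6⟩ := hn0 n ((le_max_left _ _).trans hn)
  have hnB : nB ≤ n := (le_max_right _ _).trans hn
  simp only [Function.comp] at f3
  have hnpos : 0 < n := by omega
  set N : ℝ := (n : ℝ) with hN
  have hN0 : 0 < N := by rw [hN]; exact_mod_cast hnpos
  have hN1 : 1 ≤ N := by rw [hN]; exact_mod_cast hnpos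
  set x : ℝ := N ^ (ν0 / 200) with hx
  have hxA : A ≤ x := (le_max_left _ _).trans f1
  have hx128 : 128 ≤ x := (le_max_right _ _).trans f1
  have hx1 : 1 ≤ x := by linarith
  have hx0 : 0 < x := by linarith
  have hlog1 : 1 ≤ Real.log N := (le_max_left _ _).trans f3
  have hΛ1 : 1 ≤ K * Real.log N := by
    have h2 := (le_max_right _ _).trans f3
    rw [div_le_iff₀ hK] at h2
    linarith
  have hpow : ∀ k : ℕ, x ^ k = N ^ (ν0 / 200 * k) := by
    intro k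
    rw [hx, ← Real.rpow_natCast, ← Real.rpow_mul hN0.le]
  have hx2 : N ^ (ν0 / 100) = x ^ 2 := by
    rw [hpow]
    congr 1
    push_cast
    ring
  have hx200 : N ^ ν0 = x ^ 200 := by
    rw [hpow]
    congr 1
    push_cast
    ring
  have hη0 : 0 < η := lt_of_lt_of_le (Real.rpow_pos_of_pos hN0 _) hη1
  have hNη : x ^ 200 ≤ N * η := by
    rw [← hx200]
    calc N ^ ν0 = N * N ^ (-1 + ν0) := by
          rw [Real.rpow_add hN0, Real.rpow_neg_one, ← mul_assoc, mul_inv_cancel₀ hN0.ne', one_mul]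
      _ ≤ N * η := mul_le_mul_of_nonneg_left hη1 hN0.le
  have hNη1 : 1 ≤ N * η := (one_le_pow₀ hx1).trans hNη
  have hinv : 1 / η ≤ N := by
    rw [div_le_iff₀ hη0]
    exact hNη1
  have hsN : x ^ 100 ≤ Real.sqrt N := by
    apply Real.le_sqrt_of_sq_le
    calc (x ^ 100) ^ 2 = N ^ ν0 := by rw [hx200]; ring
      _ ≤ N ^ (1 : ℝ) := Real.rpow_le_rpow_of_exponent_le hN1 h1.le
      _ = N := Real.rpow_one N
  have hz3 : ‖(⟨E, η⟩ : ℂ)‖ ≤ 3 := by
    refine (Complex.norm_le_abs_re_add_abs_im _).trans ?_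
    have h2 : |η| ≤ 1 := by rw [abs_of_pos hη0]; exact hη2
    change |E| + |η| ≤ 3
    linarith
  set τ : ℝ := Real.sqrt (3 * N ^ (ν0 / 100) / (N * η)) with hτdef
  have hτ0 : 0 ≤ τ := Real.sqrt_nonneg _
  have hτ : τ ≤ 2 / x ^ 99 := by
    rw [hτdef, Real.sqrt_le_left (by positivity), hx2]
    calc 3 * x ^ 2 / (N * η) ≤ 3 * x ^ 2 / x ^ 200 :=
          div_le_div_of_nonneg_left (by positivity) (by positivity) hNη
      _ = 3 / x ^ 198 := by field_simp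
      _ ≤ 4 / x ^ 198 := div_le_div_of_nonneg_right (by norm_num) (by positivity)
      _ = (2 / x ^ 99) ^ 2 := by
          rw [div_pow, ← pow_mul]
          norm_num
  have hτ1 : τ ≤ 1 := by
    refine hτ.trans ?_
    rw [div_le_one (by positivity)]
    calc (2 : ℝ) ≤ x ^ 1 := by rw [pow_one]; linarith
      _ ≤ x ^ 99 := pow_le_pow_right₀ hx1 (by norm_num)
  have hΓ₀ : 0 ≤ 3 * N ^ (ν0 / 100) := by positivity
  have hΓ1 : 1 ≤ 1 + 3 * N ^ (ν0 / 100) * Real.log N := by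
    have : 0 ≤ 3 * N ^ (ν0 / 100) * Real.log N := mul_nonneg hΓ₀ (by linarith)
    linarith
  have h32 : 32 * (1 + 3 * N ^ (ν0 / 100) * Real.log N) ≤ Real.sqrt N := by
    refine le_trans ?_ hsN
    rw [hx2]
    have hx3 : 1 ≤ x ^ 3 := one_le_pow₀ hx1
    have h3 : 3 * x ^ 2 * Real.log N ≤ 3 * x ^ 2 * x :=
      mul_le_mul_of_nonneg_left f2 (by positivity)
    have h4 : 3 * x ^ 2 * x = 3 * x ^ 3 := by ring
    have h5 : 32 * (1 + 3 * x ^ 2 * Real.log N) ≤ 128 * x ^ 3 := by linarith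
    refine h5.trans ?_
    calc 128 * x ^ 3 ≤ x * x ^ 3 := mul_le_mul_of_nonneg_right hx128 (by positivity)
      _ = x ^ 4 := by ring
      _ ≤ x ^ 100 := pow_le_pow_right₀ hx1 (by norm_num)
  have hδ0 : 0 < N ^ (-(ν0 / 12)) := Real.rpow_pos_of_pos hN0 _
  have hδ1 : N ^ (-(ν0 / 12)) ≤ 1 :=
    Real.rpow_le_one_of_one_le_of_nonpos hN1 (by linarith)
  have hδ3 : (N ^ (-(ν0 / 12))) ^ 3 = 1 / x ^ 50 := by
    rw [hpow, ← Real.rpow_natCast, ← Real.rpow_mul hN0.le, one_div, ← Real.rpow_neg hN0.le]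
    congr 1
    push_cast
    ring
  have hsmall : 10 ^ 9 * (K * Real.log N) ^ 4 * (1 + 3 * N ^ (ν0 / 100) * Real.log N) ^ 7
      * (τ + 1 / Real.sqrt N) ≤ (N ^ (-(ν0 / 12))) ^ 3 := by
    rw [hδ3, hx2]
    exact f8_small hK hA hx1 hxA (by linarith) f2 hτ0 hτ hsN
  have hbad : PJ (n := n) (fun σ X => ¬ GoodF α β (⟨E, η⟩ : ℂ) (K * Real.log N)
      (1 + 3 * N ^ (ν0 / 100) * Real.log N) τ σ X) ≤ 2 * N ^ (-(D + 4 * p + 13)) := by
    have g1 : PJ (n := n) (fun σ X => ¬ GoodF α β (⟨E, η⟩ : ℂ) (K * Real.log N)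
        (1 + 3 * N ^ (ν0 / 100) * Real.log N) τ σ X)
        ≤ PJ (n := n) (fun σ X => (¬ OpLe (toC (Bm 1 0 σ X)) (K * Real.log n))
          ∨ ¬ GamLe (Pn n) (Bm α β σ X) E η (3 * (n : ℝ) ^ (ν0 / 100))) := by
      refine f8_PJ_mono fun σ hσ X hX => ?_
      by_contra hcon
      push Not at hcon
      exact hX (f8_good hnpos hσ X α β E η _ _ hη0 hinv hΓ₀ (by linarith) hΛ1 hcon.1 hcon.2)
    have g2 := hB n hnB hev 1 0 (by norm_num) (by norm_num) (by norm_num)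
    have g3 := f8_PJ_or (n := n) (fun σ X => ¬ OpLe (toC (Bm 1 0 σ X)) (K * Real.log n))
      (fun σ X => ¬ GamLe (Pn n) (Bm α β σ X) E η (3 * (n : ℝ) ^ (ν0 / 100)))
    linarith
  have hM := hmom n (by omega) hev α β hα hβ hαβ (⟨E, η⟩ : ℂ) hη0 hNη1 hz3 (K * Real.log N)
    (1 + 3 * N ^ (ν0 / 100) * Real.log N) τ (N ^ (-(ν0 / 12))) hΛ1 hΓ1 hτ0 hτ1 h32 hδ0 hδ1 hsmall
  refine (f8_markov f6 α β E η hE hη0 hNη1 hz3 p _ hM).trans ?_
  exact f8_final hC hN1 hpD hD f5 hbad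

end Pool.Agent.ZR.F

end

section

/-!
# ZR/F9 : bootstrap, `fMain : BNorm → FMain`

It is enough to treat `ν < 1` (for `ν ≥ 1`: `η ≥ n^{-1+ν} ≥ 1` and `Im G_xx ≤ 1/u ≤ 1 ≤ n^ν` always).
Put `ν₀ = ν`, `ν' = ν₀/100`, `K = ⌈(1-ν₀)/ν'⌉`, scales `u_k = max(n^{-kν'}, n^{-1+ν₀})`, `k ≤ K`, so
`u_0 = 1`, `u_K = n^{-1+ν₀}`, `u_k/u_{k+1} ≤ n^{ν'}`.  Claim (induction on `k ≤ K`): for every `D` there
is `n0` with `PJ(¬ GamLe (Pn n) B E u_k (3n^{ν'})) ≤ n^{-D}` for `n ≥ n0` even, all `α, β, E`.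
`k = 0`: `Im G_xx(E+iu) ≤ 1/u ≤ 1`, the event is empty (`PJ = 0`; `0 ≤ n^{-D}`).
`k → k+1`: `stepF` with `η = u_k` and target exponent `D + 1` gives `D'`; the claim for `k` with exponent
`max D' (D+1)`.  If `GamLe .. E u_k (3n^{ν'})` and `EnLe (G(E+iu_k)) 3` both hold then
`GamLe .. E u_{k+1} (3n^{ν'})`: for `u ≥ u_k` by the first, for `u_{k+1} ≤ u ≤ u_k` by `im_mono` (C4):
`Im G_xx(E+iu) ≤ (u_k/u) Im G_xx(E+iu_k) ≤ n^{ν'}·3`.  Union bound: `2n^{-(D+1)} ≤ n^{-D}`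
(`PJ` of an implication: monotone and subadditive; measurability is not needed if one uses
`measureReal_mono` and `measureReal_union_le`, `PJ` is a finite average of `(gm n).real`).
Conclusion: `3n^{ν/100} ≤ n^ν` for large `n` and `u_K = n^{-1+ν}`.
-/


open MeasureTheory ProbabilityTheory Matrix

namespace Pool.Agent.ZR.F

theorem PJ_mono {n : ℕ} {A A' : (Fin n → Fin n → Bool) → (Fin n × Fin n → ℝ) → Prop}
    (h : ∀ σ ∈ Sn n, ∀ X, A σ X → A' σ X) : PJ A ≤ PJ A' := by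
  have : IsProbabilityMeasure (gm n) := by unfold gm; infer_instance
  unfold PJ
  exact EU_mono fun σ hσ => measureReal_mono (fun X hX => h σ hσ X hX)

theorem PJ_or {n : ℕ} (A A' : (Fin n → Fin n → Bool) → (Fin n × Fin n → ℝ) → Prop) :
    PJ (fun σ X => A σ X ∨ A' σ X) ≤ PJ A + PJ A' := by
  unfold PJ
  rw [← EU_add]
  exact EU_mono fun σ _ => measureReal_union_le {X | A σ X} {X | A' σ X}

private theorem f9_PJ_zero {n : ℕ} {A : (Fin n → Fin n → Bool) → (Fin n × Fin n → ℝ) → Prop}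
    (h : ∀ σ ∈ Sn n, ∀ X, ¬ A σ X) : PJ A ≤ 0 := by
  have h1 : PJ A ≤ PJ (n := n) (fun _ _ => False) := PJ_mono (fun σ hσ X hX => h σ hσ X hX)
  refine h1.trans (le_of_eq ?_)
  unfold PJ EU
  simp

/-- the trivial bound above height 1 -/
private theorem f9_triv {n : ℕ} (α β E η Γ : ℝ) {σ : Fin n → Fin n → Bool} (hσ : σ ∈ Sn n)
    (X : Fin n × Fin n → ℝ) (hη : 1 ≤ η) (hΓ : 1 ≤ Γ) :
    GamLe (Pn n) (Bm α β σ X) E η Γ := by
  intro u hu x
  have hu1 : 1 ≤ u := hη.trans hu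
  have hu0 : 0 < u := by linarith
  have h1 := g_entry_le (pb_Bm α β σ hσ X) (⟨E, u⟩ : ℂ) hu0.ne' x x
  have h2 : 1 / |(⟨E, u⟩ : ℂ).im| ≤ 1 := by
    change 1 / |u| ≤ 1
    rw [abs_of_pos hu0, div_le_one hu0]
    exact hu1
  exact (Complex.im_le_norm _).trans (h1.trans (h2.trans hΓ))

/-- the scales -/
private noncomputable def f9_u (ν : ℝ) (k n : ℕ) : ℝ :=
  max ((n : ℝ) ^ (-(k * (ν / 100)))) ((n : ℝ) ^ (-1 + ν))

private theorem f9_claim (hB : BNorm) (ν : ℝ) (h0 : 0 < ν) (h1 : ν < 1) (k : ℕ) :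
    ∀ D : ℝ, 0 < D → ∃ n0 : ℕ, ∀ n : ℕ, n0 ≤ n → Even n →
      ∀ α β : ℝ, 0 ≤ α → 0 ≤ β → α ^ 2 + β ^ 2 = 1 → ∀ E : ℝ, |E| ≤ 2 →
        PJ (n := n) (fun σ X =>
          ¬ GamLe (Pn n) (Bm α β σ X) E (f9_u ν k n) (3 * (n : ℝ) ^ (ν / 100)))
            ≤ (n : ℝ) ^ (-D) := by
  induction k with
  | zero =>
    intro D hD
    refine ⟨1, fun n hn _ α β _ _ _ E _ => ?_⟩
    have hn1 : (1 : ℝ) ≤ n := by exact_mod_cast hn
    refine (f9_PJ_zero ?_).trans (by positivity)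
    intro σ hσ X hX
    refine hX (f9_triv α β E _ _ hσ X ?_ ?_)
    · unfold f9_u
      refine le_max_of_le_left ?_
      simp
    · have := Real.one_le_rpow hn1 (by positivity : (0 : ℝ) ≤ ν / 100)
      linarith
  | succ k ih =>
    intro D hD
    obtain ⟨D', hD', n1, hstep⟩ := stepF hB ν h0 h1 (D + 1) (by linarith)
    obtain ⟨n2, hcl⟩ := ih (max D' (D + 1)) (lt_max_of_lt_left hD')
    refine ⟨max 2 (max n1 n2), fun n hn hev α β hα hβ hαβ E hE => ?_⟩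
    have hn2 : 2 ≤ n := (le_max_left _ _).trans hn
    have hnn1 : n1 ≤ n := ((le_max_left _ _).trans (le_max_right _ _)).trans hn
    have hnn2 : n2 ≤ n := ((le_max_right _ _).trans (le_max_right _ _)).trans hn
    have hnR : (2 : ℝ) ≤ n := by exact_mod_cast hn2
    have hn1 : (1 : ℝ) ≤ n := by linarith
    have hn0 : (0 : ℝ) < n := by linarith
    have hc := hcl n hnn2 hev α β hα hβ hαβ E hE
    have hp1 : PJ (n := n) (fun σ X =>
          ¬ GamLe (Pn n) (Bm α β σ X) E (f9_u ν k n) (3 * (n : ℝ) ^ (ν / 100)))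
            ≤ (n : ℝ) ^ (-D') :=
      hc.trans (Real.rpow_le_rpow_of_exponent_le hn1 (neg_le_neg (le_max_left _ _)))
    have hp2 : PJ (n := n) (fun σ X =>
          ¬ GamLe (Pn n) (Bm α β σ X) E (f9_u ν k n) (3 * (n : ℝ) ^ (ν / 100)))
            ≤ (n : ℝ) ^ (-(D + 1)) :=
      hc.trans (Real.rpow_le_rpow_of_exponent_le hn1 (neg_le_neg (le_max_right _ _)))
    have hu1 : f9_u ν k n ≤ 1 := by
      unfold f9_u
      refine max_le ?_ ?_
      · exact Real.rpow_le_one_of_one_le_of_nonpos hn1 (by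
          have : 0 ≤ (k : ℝ) * (ν / 100) := by positivity
          linarith)
      · exact Real.rpow_le_one_of_one_le_of_nonpos hn1 (by linarith)
    have huk : 0 < f9_u ν k n := lt_max_of_lt_left (Real.rpow_pos_of_pos hn0 _)
    have huk1 : 0 < f9_u ν (k + 1) n := lt_max_of_lt_left (Real.rpow_pos_of_pos hn0 _)
    have hs := hstep n hnn1 hev α β hα hβ hαβ E (f9_u ν k n) hE (le_max_right _ _) hu1 hp1
    have hν1 : 1 ≤ (n : ℝ) ^ (ν / 100) := Real.one_le_rpow hn1 (by positivity)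
    have hratio : f9_u ν k n ≤ (n : ℝ) ^ (ν / 100) * f9_u ν (k + 1) n := by
      have e1 : (n : ℝ) ^ (-(k * (ν / 100)))
          = (n : ℝ) ^ (ν / 100) * (n : ℝ) ^ (-(((k + 1 : ℕ) : ℝ) * (ν / 100))) := by
        rw [← Real.rpow_add hn0]
        congr 1
        push_cast
        ring
      have e2 : f9_u ν k n = max ((n : ℝ) ^ (-(k * (ν / 100)))) ((n : ℝ) ^ (-1 + ν)) := rfl
      have e3 : (n : ℝ) ^ (-(((k + 1 : ℕ) : ℝ) * (ν / 100))) ≤ f9_u ν (k + 1) n := le_max_left _ _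
      have e4 : (n : ℝ) ^ (-1 + ν) ≤ f9_u ν (k + 1) n := le_max_right _ _
      rw [e2]
      refine max_le ?_ ?_
      · rw [e1]
        exact mul_le_mul_of_nonneg_left e3 (by positivity)
      · refine e4.trans ?_
        nlinarith
    have himp : ∀ σ ∈ Sn n, ∀ X,
        ¬ GamLe (Pn n) (Bm α β σ X) E (f9_u ν (k + 1) n) (3 * (n : ℝ) ^ (ν / 100)) →
        (¬ GamLe (Pn n) (Bm α β σ X) E (f9_u ν k n) (3 * (n : ℝ) ^ (ν / 100))) ∨
          ¬ EnLe (Gz (Pn n) (Bm α β σ X) (⟨E, f9_u ν k n⟩ : ℂ)) 3 := by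
      intro σ hσ X hX
      by_contra hcon
      rw [not_or, not_not, not_not] at hcon
      obtain ⟨hg, he⟩ := hcon
      refine hX ?_
      intro u hu x
      rcases le_or_gt (f9_u ν k n) u with h2 | h2
      · exact hg u h2 x
      · have hu0 : 0 < u := lt_of_lt_of_le huk1 hu
        have h3 := im_mono (pb_Bm α β σ hσ X) E hu0 h2.le x
        have h4 : (Gz (Pn n) (Bm α β σ X) (⟨E, f9_u ν k n⟩ : ℂ) x x).im ≤ 3 :=
          (Complex.im_le_norm _).trans (he x x)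
        have h5 : u * (Gz (Pn n) (Bm α β σ X) (⟨E, u⟩ : ℂ) x x).im ≤ f9_u ν k n * 3 :=
          h3.trans (mul_le_mul_of_nonneg_left h4 huk.le)
        have h6 : f9_u ν k n * 3 ≤ u * (3 * (n : ℝ) ^ (ν / 100)) := by
          have h7 : (n : ℝ) ^ (ν / 100) * f9_u ν (k + 1) n ≤ (n : ℝ) ^ (ν / 100) * u :=
            mul_le_mul_of_nonneg_left hu (by positivity)
          nlinarith
        exact le_of_mul_le_mul_left (h5.trans h6) hu0
    refine (PJ_mono himp).trans ((PJ_or _ _).trans ((add_le_add hp2 hs).trans ?_))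
    have e5 : (n : ℝ) ^ (-D) = (n : ℝ) ^ (-(D + 1)) * n := by
      conv_rhs => rw [← Real.rpow_one (n : ℝ)]
      rw [← Real.rpow_mul hn0.le, one_mul, ← Real.rpow_add hn0]
      congr 1
      ring
    rw [e5]
    have e6 : 0 ≤ (n : ℝ) ^ (-(D + 1)) := by positivity
    nlinarith

end Pool.Agent.ZR.F

namespace Pool.Agent.ZR

theorem fMain (hB : BNorm) : FMain := by
  intro ν D hν hD
  rcases le_or_gt 1 ν with h1 | h1
  · refine ⟨1, fun n hn _ α β _ _ _ E _ => ?_⟩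
    have hn1 : (1 : ℝ) ≤ n := by exact_mod_cast hn
    refine (F.f9_PJ_zero ?_).trans (by positivity)
    intro σ hσ X hX
    refine hX (F.f9_triv α β E _ _ hσ X ?_ ?_)
    · exact Real.one_le_rpow hn1 (by linarith)
    · exact Real.one_le_rpow hn1 (by linarith)
  · obtain ⟨k, hk⟩ := exists_nat_ge ((1 - ν) / (ν / 100))
    have hk' : 1 - ν ≤ k * (ν / 100) := by
      rw [div_le_iff₀ (by positivity)] at hk
      exact hk
    obtain ⟨n1, hcl⟩ := F.f9_claim hB ν hν h1 k D hD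
    have t1 : Filter.Tendsto (fun n : ℕ => (n : ℝ) ^ (99 * ν / 100)) Filter.atTop Filter.atTop :=
      (tendsto_rpow_atTop (by positivity)).comp tendsto_natCast_atTop_atTop
    obtain ⟨n2, hn2⟩ := Filter.eventually_atTop.1 (t1.eventually_ge_atTop 3)
    refine ⟨max 1 (max n1 n2), fun n hn hev α β hα hβ hαβ E hE => ?_⟩
    have hn1 : 1 ≤ n := (le_max_left _ _).trans hn
    have hnn1 : n1 ≤ n := ((le_max_left _ _).trans (le_max_right _ _)).trans hn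
    have hnn2 : n2 ≤ n := ((le_max_right _ _).trans (le_max_right _ _)).trans hn
    have hnR : (1 : ℝ) ≤ n := by exact_mod_cast hn1
    have hn0 : (0 : ℝ) < n := by linarith
    have hu : F.f9_u ν k n = (n : ℝ) ^ (-1 + ν) := by
      unfold F.f9_u
      refine max_eq_right ?_
      exact Real.rpow_le_rpow_of_exponent_le hnR (by linarith)
    have hΓ : 3 * (n : ℝ) ^ (ν / 100) ≤ (n : ℝ) ^ ν := by
      have e1 : (n : ℝ) ^ ν = (n : ℝ) ^ (99 * ν / 100) * (n : ℝ) ^ (ν / 100) := by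
        rw [← Real.rpow_add hn0]
        congr 1
        ring
      rw [e1]
      exact mul_le_mul_of_nonneg_right (hn2 n hnn2) (by positivity)
    have hc := hcl n hnn1 hev α β hα hβ hαβ E hE
    rw [hu] at hc
    refine (F.PJ_mono ?_).trans hc
    intro σ _ X hX hG
    exact hX fun u hu' x => (hG u hu' x).trans hΓ

end Pool.Agent.ZR

end

section

/-!
# ZR/H6 : moments of `m` at scale `n^(-1-c)` from `FMain`

* `m_good`: let `E = w.re`, `η = |w.im| = n^(-1-c) ≤ n^(-1+ν)`.  By `gam_scale` (C4)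
  `GamLe (Pn n) B E η (n^(-1+ν)/η * n^ν)`, and `n^(-1+ν)/n^(-1-c) * n^ν = n^(2ν+c)`.  By `entry_log` (C4)
  `‖G_xx(E+iη)‖ ≤ 1 + n^(2ν+c) max 0 (log(1/η))`, `log(1/η) = (1+c) log n ≤ 2 log n`.
  `w = ⟨E, ±η⟩`; for the sign `-`, `w = conj ⟨E, η⟩` and `mz_conj` (C2) / `gz_conj`; then `avg_bd` (H3).
* `mom_bd`: for large `n`: `1 + 2 n^(2ν+c) log n + 2 n^(ν+c) ≤ n^(4ν+c)`, and on the complement of
  `bad = ∃ l, ¬ GamLe (Pn n) B (w l).re n^(-1+ν) n^ν` each factor is at most that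
  (`n^ν/(n * (n^(-1-c)/2)) = 2 n^(ν+c)`).  Always `‖m‖ ≤ 1/η = n^(1+c)` (`mz_norm_le`, C3), each factor is at
  most `n^(1+c) + 2 n^(ν+c) ≤ n^(3+2ν)` for large `n`.  `ej_bad` (H1) with `a = n^(2K(4ν+c))`,
  `b = n^(2K(3+2ν))`, `PJ bad ≤ K n^(-DF)` by `pj_union` and `FMain` with `DF = 2K(3+2ν) + 1`; then
  `b PJ bad ≤ K/n ≤ 1 ≤ a`.
-/


open MeasureTheory ProbabilityTheory Matrix

namespace Pool.Agent.ZR.H

variable {n : ℕ}

theorem m_good (hn : 1 < n) {B : Matrix (Fin n) (Fin n) ℝ} (hB : PB (Pn n) B) {w : ℂ} {c ν : ℝ}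
    (hc : 0 < c) (hc1 : c < 1) (hν : 0 < ν) (hw : |w.im| = (n : ℝ) ^ (-1 - c))
    (hG : GamLe (Pn n) B w.re ((n : ℝ) ^ (-1 + ν)) ((n : ℝ) ^ ν)) :
    ‖mz (Pn n) B w‖ ≤ 1 + (n : ℝ) ^ (2 * ν + c) * (2 * Real.log n) := by
  have hn0 : (0 : ℝ) < n := by
    have : (0 : ℕ) < n := by omega
    exact_mod_cast this
  have hn1 : (1 : ℝ) < n := by exact_mod_cast hn
  have hlog : 0 < Real.log n := Real.log_pos hn1
  set η : ℝ := (n : ℝ) ^ (-1 - c) with hη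
  have hη0 : 0 < η := Real.rpow_pos_of_pos hn0 _
  have hle : η ≤ (n : ℝ) ^ (-1 + ν) :=
    Real.rpow_le_rpow_of_exponent_le hn1.le (by linarith)
  have hG2 := gam_scale hB w.re ((n : ℝ) ^ (-1 + ν)) η ((n : ℝ) ^ ν) hη0 hle hG
  have hΓ : (n : ℝ) ^ (-1 + ν) / η * (n : ℝ) ^ ν = (n : ℝ) ^ (2 * ν + c) := by
    rw [hη, ← Real.rpow_sub hn0, ← Real.rpow_add hn0]
    congr 1
    ring
  rw [hΓ] at hG2
  have hΓ0 : 0 ≤ (n : ℝ) ^ (2 * ν + c) := (Real.rpow_pos_of_pos hn0 _).le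
  have hlog2 : max 0 (Real.log (1 / η)) ≤ 2 * Real.log n := by
    have h1 : Real.log (1 / η) = (1 + c) * Real.log n := by
      rw [one_div, Real.log_inv, hη, Real.log_rpow hn0]
      ring
    rw [h1]
    apply max_le
    · positivity
    · nlinarith
  have hmain : ‖mz (Pn n) B (⟨w.re, η⟩ : ℂ)‖ ≤ 1 + (n : ℝ) ^ (2 * ν + c) * (2 * Real.log n) := by
    apply avg_bd
    · positivity
    · intro x
      refine (entry_log hB w.re η _ hη0 hG2 hΓ0 x x).trans ?_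
      have := mul_le_mul_of_nonneg_left hlog2 hΓ0
      linarith
  rcases le_or_gt 0 w.im with h0 | h0
  · rw [abs_of_nonneg h0] at hw
    have e : w = (⟨w.re, η⟩ : ℂ) := Complex.ext rfl hw
    rw [e]
    exact hmain
  · rw [abs_of_neg h0] at hw
    have e : w = starRingEnd ℂ (⟨w.re, η⟩ : ℂ) := by
      apply Complex.ext
      · simp
      · simp only [Complex.conj_im]
        linarith
    rw [e, mz_conj hB (⟨w.re, η⟩ : ℂ) hη0.ne', RCLike.norm_conj]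
    exact hmain

theorem mom_bd (hF : FMain) (K : ℕ) (c ν : ℝ) (hc : 0 < c) (hc1 : c < 1) (hν : 0 < ν) :
    ∃ n0 : ℕ, ∀ n : ℕ, n0 ≤ n → Even n →
      ∀ α β : ℝ, 0 ≤ α → 0 ≤ β → α ^ 2 + β ^ 2 = 1 → ∀ w : Fin K → ℂ,
        (∀ l, |(w l).im| = (n : ℝ) ^ (-1 - c) ∧ |(w l).re| ≤ 2) →
        EJ (n := n) (fun σ X => (∏ l, (‖mz (Pn n) (Bm α β σ X) (w l) - 0‖
            + (n : ℝ) ^ ν / (n * ((n : ℝ) ^ (-1 - c) / 2)))) ^ 2)
          ≤ 2 * (n : ℝ) ^ (2 * K * (4 * ν + c)) := by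
  have hev : ∀ᶠ x : ℝ in Filter.atTop, 3 + 2 * Real.log x ≤ x ^ (2 * ν) := by
    have h1 := (isLittleO_log_rpow_atTop (r := 2 * ν) (by positivity)).bound
      (show (0 : ℝ) < 1 / 4 by norm_num)
    have h2 := (tendsto_rpow_atTop (y := 2 * ν) (by positivity)).eventually_ge_atTop (6 : ℝ)
    filter_upwards [h1, h2, Filter.eventually_ge_atTop (1 : ℝ)] with x h3 h4 h5
    have h6 : Real.log x ≤ 1 / 4 * x ^ (2 * ν) := by
      have h7 := h3
      rw [Real.norm_eq_abs, Real.norm_eq_abs, abs_of_nonneg (Real.log_nonneg h5),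
        abs_of_nonneg (Real.rpow_nonneg (by linarith) _)] at h7
      exact h7
    linarith
  obtain ⟨n1, hn1⟩ := Filter.eventually_atTop.1
    ((tendsto_natCast_atTop_atTop (R := ℝ)).eventually hev)
  obtain ⟨n2, hn2⟩ := hF ν (2 * K * (3 + 2 * ν) + 1) hν (by positivity)
  refine ⟨max (max n1 n2) (max K 3), ?_⟩
  intro n hn hev2 α β hα hβ hab w hw
  have hnn1 : n1 ≤ n := le_trans (le_trans (le_max_left _ _) (le_max_left _ _)) hn
  have hnn2 : n2 ≤ n := le_trans (le_trans (le_max_right _ _) (le_max_left _ _)) hn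
  have hnK : K ≤ n := le_trans (le_trans (le_max_left _ _) (le_max_right _ _)) hn
  have hn3 : 3 ≤ n := le_trans (le_trans (le_max_right _ _) (le_max_right _ _)) hn
  have hn3' : (3 : ℝ) ≤ n := by exact_mod_cast hn3
  have hn0 : (0 : ℝ) < n := by linarith
  have hn1' : (1 : ℝ) ≤ n := by linarith
  have hKn : (K : ℝ) ≤ n := by exact_mod_cast hnK
  have hK0 : (0 : ℝ) ≤ K := Nat.cast_nonneg K
  have hlog := hn1 n hnn1
  have hFn := hn2 n hnn2 hev2 α β hα hβ hab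
  -- the second summand
  have hsec : (n : ℝ) ^ ν / (n * ((n : ℝ) ^ (-1 - c) / 2)) = 2 * (n : ℝ) ^ (ν + c) := by
    have h1 : (n : ℝ) ^ (ν + c) = (n : ℝ) ^ ν / ((n : ℝ) * (n : ℝ) ^ (-1 - c)) := by
      rw [← Real.rpow_one_add' hn0.le (by linarith), ← Real.rpow_sub hn0]
      congr 1
      ring
    rw [h1]
    have h2 : (n : ℝ) ^ (-1 - c) ≠ 0 := (Real.rpow_pos_of_pos hn0 _).ne'
    field_simp
  have hpos1 : 0 ≤ (n : ℝ) ^ (4 * ν + c) := Real.rpow_nonneg hn0.le _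
  have hpos2 : 0 ≤ (n : ℝ) ^ (3 + 2 * ν) := Real.rpow_nonneg hn0.le _
  have hpowa : ((n : ℝ) ^ (4 * ν + c)) ^ K = (n : ℝ) ^ (K * (4 * ν + c)) := by
    rw [← Real.rpow_natCast, ← Real.rpow_mul hn0.le]
    congr 1
    ring
  have hpowb : ((n : ℝ) ^ (3 + 2 * ν)) ^ K = (n : ℝ) ^ (K * (3 + 2 * ν)) := by
    rw [← Real.rpow_natCast, ← Real.rpow_mul hn0.le]
    congr 1
    ring
  have hsqa : ((n : ℝ) ^ (K * (4 * ν + c))) ^ 2 = (n : ℝ) ^ (2 * K * (4 * ν + c)) := by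
    rw [← Real.rpow_natCast, ← Real.rpow_mul hn0.le]
    congr 1
    push_cast
    ring
  have hsqb : ((n : ℝ) ^ (K * (3 + 2 * ν))) ^ 2 = (n : ℝ) ^ (2 * K * (3 + 2 * ν)) := by
    rw [← Real.rpow_natCast, ← Real.rpow_mul hn0.le]
    congr 1
    push_cast
    ring
  have hprod : ∀ (g : Fin K → ℝ) (b : ℝ), (∀ l, 0 ≤ g l) → (∀ l, g l ≤ b) →
      (∏ l, g l) ^ 2 ≤ (b ^ K) ^ 2 := by
    intro g b h0 h1
    have h2 : ∏ l, g l ≤ ∏ _l : Fin K, b :=
      Finset.prod_le_prod (fun l _ => h0 l) (fun l _ => h1 l)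
    rw [Finset.prod_const, Finset.card_univ, Fintype.card_fin] at h2
    exact pow_le_pow_left₀ (Finset.prod_nonneg fun l _ => h0 l) h2 2
  have hwim : ∀ l, (w l).im ≠ 0 := by
    intro l h
    have h1 := (hw l).1
    rw [h, abs_zero] at h1
    exact (Real.rpow_pos_of_pos hn0 (-1 - c)).ne h1
  have hg0 : ∀ (σ : Fin n → Fin n → Bool) (X : Fin n × Fin n → ℝ) (l : Fin K),
      0 ≤ ‖mz (Pn n) (Bm α β σ X) (w l) - 0‖ + (n : ℝ) ^ ν / (n * ((n : ℝ) ^ (-1 - c) / 2)) := by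
    intro σ X l
    positivity
  have hgood : ∀ σ ∈ Sn n, ∀ X : Fin n × Fin n → ℝ,
      (¬ ∃ l, ¬ GamLe (Pn n) (Bm α β σ X) (w l).re ((n : ℝ) ^ (-1 + ν)) ((n : ℝ) ^ ν)) →
      (∏ l, (‖mz (Pn n) (Bm α β σ X) (w l) - 0‖
            + (n : ℝ) ^ ν / (n * ((n : ℝ) ^ (-1 - c) / 2)))) ^ 2
          ≤ (n : ℝ) ^ (2 * K * (4 * ν + c)) := by
    intro σ hσ X hX
    push Not at hX
    rw [← hsqa, ← hpowa]
    apply hprod _ _ (hg0 σ X)
    intro l
    rw [sub_zero, hsec]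
    have h1 := m_good (n := n) (by omega) (pb_Bm α β σ hσ X) hc hc1 hν (hw l).1 (hX l)
    have h2 : (n : ℝ) ^ (4 * ν + c) = (n : ℝ) ^ (2 * ν) * (n : ℝ) ^ (2 * ν + c) := by
      rw [← Real.rpow_add hn0]
      congr 1
      ring
    have h3 : (1 : ℝ) ≤ (n : ℝ) ^ (2 * ν + c) := Real.one_le_rpow hn1' (by positivity)
    have h4 : (n : ℝ) ^ (ν + c) ≤ (n : ℝ) ^ (2 * ν + c) :=
      Real.rpow_le_rpow_of_exponent_le hn1' (by linarith)
    have h5 : (3 + 2 * Real.log n) * (n : ℝ) ^ (2 * ν + c)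
        ≤ (n : ℝ) ^ (2 * ν) * (n : ℝ) ^ (2 * ν + c) :=
      mul_le_mul_of_nonneg_right hlog (by linarith)
    rw [h2]
    nlinarith
  have hall : ∀ σ ∈ Sn n, ∀ X : Fin n × Fin n → ℝ,
      (∏ l, (‖mz (Pn n) (Bm α β σ X) (w l) - 0‖
            + (n : ℝ) ^ ν / (n * ((n : ℝ) ^ (-1 - c) / 2)))) ^ 2
          ≤ (n : ℝ) ^ (2 * K * (3 + 2 * ν)) := by
    intro σ hσ X
    rw [← hsqb, ← hpowb]
    apply hprod _ _ (hg0 σ X)
    intro l
    rw [sub_zero, hsec]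
    have h1 := mz_norm_le (pb_Bm α β σ hσ X) (w l) (hwim l)
    have h2 : 1 / |(w l).im| = (n : ℝ) ^ (1 + c) := by
      rw [(hw l).1, one_div, ← Real.rpow_neg hn0.le]
      congr 1
      ring
    rw [h2] at h1
    have h3 : (n : ℝ) ^ (1 + c) ≤ (n : ℝ) ^ (2 + 2 * ν) :=
      Real.rpow_le_rpow_of_exponent_le hn1' (by linarith)
    have h4 : (n : ℝ) ^ (ν + c) ≤ (n : ℝ) ^ (2 + 2 * ν) :=
      Real.rpow_le_rpow_of_exponent_le hn1' (by linarith)
    have h5 : (n : ℝ) ^ (3 + 2 * ν) = (n : ℝ) * (n : ℝ) ^ (2 + 2 * ν) := by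
      rw [← Real.rpow_one_add' hn0.le (by positivity)]
      congr 1
      ring
    rw [h5]
    have h6 : 0 ≤ (n : ℝ) ^ (2 + 2 * ν) := Real.rpow_nonneg hn0.le _
    nlinarith
  have hPJ : PJ (n := n) (fun σ X => ∃ l, ¬ GamLe (Pn n) (Bm α β σ X) (w l).re
      ((n : ℝ) ^ (-1 + ν)) ((n : ℝ) ^ ν)) ≤ K * (n : ℝ) ^ (-(2 * K * (3 + 2 * ν) + 1)) := by
    refine (pj_union _).trans ?_
    calc ∑ l, PJ (n := n) (fun σ X => ¬ GamLe (Pn n) (Bm α β σ X) (w l).re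
          ((n : ℝ) ^ (-1 + ν)) ((n : ℝ) ^ ν))
        ≤ ∑ _l : Fin K, (n : ℝ) ^ (-(2 * K * (3 + 2 * ν) + 1)) :=
          Finset.sum_le_sum fun l _ => hFn (w l).re (hw l).2
      _ = K * (n : ℝ) ^ (-(2 * K * (3 + 2 * ν) + 1)) := by
          rw [Finset.sum_const, Finset.card_univ, Fintype.card_fin, nsmul_eq_mul]
  have hbad := ej_bad (n := n) hev2
    (F := fun σ X => (∏ l, (‖mz (Pn n) (Bm α β σ X) (w l) - 0‖
            + (n : ℝ) ^ ν / (n * ((n : ℝ) ^ (-1 - c) / 2)))) ^ 2)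
    (A := fun σ X => ∃ l, ¬ GamLe (Pn n) (Bm α β σ X) (w l).re
      ((n : ℝ) ^ (-1 + ν)) ((n : ℝ) ^ ν))
    (a := (n : ℝ) ^ (2 * K * (4 * ν + c))) (b := (n : ℝ) ^ (2 * K * (3 + 2 * ν)))
    (Real.rpow_nonneg hn0.le _) (Real.rpow_nonneg hn0.le _)
    (fun σ _ X => sq_nonneg _) hgood hall
  refine hbad.trans ?_
  have ha1 : (1 : ℝ) ≤ (n : ℝ) ^ (2 * K * (4 * ν + c)) :=
    Real.one_le_rpow hn1' (by positivity)
  have h7 : (n : ℝ) ^ (2 * K * (3 + 2 * ν)) *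
      PJ (n := n) (fun σ X => ∃ l, ¬ GamLe (Pn n) (Bm α β σ X) (w l).re
        ((n : ℝ) ^ (-1 + ν)) ((n : ℝ) ^ ν)) ≤ 1 := by
    calc (n : ℝ) ^ (2 * K * (3 + 2 * ν)) *
        PJ (n := n) (fun σ X => ∃ l, ¬ GamLe (Pn n) (Bm α β σ X) (w l).re
          ((n : ℝ) ^ (-1 + ν)) ((n : ℝ) ^ ν))
        ≤ (n : ℝ) ^ (2 * K * (3 + 2 * ν)) * (K * (n : ℝ) ^ (-(2 * K * (3 + 2 * ν) + 1))) :=
          mul_le_mul_of_nonneg_left hPJ (Real.rpow_nonneg hn0.le _)
      _ = K * ((n : ℝ) ^ (2 * K * (3 + 2 * ν)) * (n : ℝ) ^ (-(2 * K * (3 + 2 * ν) + 1))) := by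
          ring
      _ = K * (n : ℝ) ^ (-1 : ℝ) := by
          rw [← Real.rpow_add hn0]
          congr 2
          ring
      _ = K / n := by
          rw [Real.rpow_neg_one, div_eq_mul_inv]
      _ ≤ 1 := by
          rw [div_le_one hn0]
          exact hKn
  linarith

end Pool.Agent.ZR.H

end
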