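import Pool.Agent.ZRM.P27
import Pool.Agent.ZRM.P28

/-!
# Merged form of the modules ZR.GFc, ZR.H8
-/

set_option autoImplicit false

section

/-!
# ZR, part G: expectation, and the final statement.

`small`: case `ν + c ≤ 1/100`.  `p = (n^(ν+c))^25 = n^(25(ν+c)) ≤ n^(1/4)`, so `1 ≤ p`,
`32 p ≤ √n` (`n` large), `1/η ≤ n^(1+c) ≤ n p`.  `ρ = n^ν/(nη) ≥ 1/(nη)` (`Xw` is monotone in
`ρ`).  `ej_dom` with `F = Fm`, `r σ X = (n³√n)⁻¹ ·` (majorant of `pt_main`; `mainN_eq`,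
`EU_mul_left`), `g σ X = (n³√n)⁻¹ (C n²√n p⁴ + n² p |tr M|) Ξ_ρ`, `A = ¬ Gd`, `R = n^C`:
`‖Ecal‖ ≤ C n⁻¹ p⁴ EJ Ξ + (n √n)⁻¹ p EJ(|tr M| Ξ) + n^C PJ(¬ Gd)`.
`ej_cs` with `a = 1` and with `a = |tr M|`: `EU (tr M)² = n² EU ((1/n) tr M)² ≤ C' n (log n)²`
(`hE`), so the second term is at most `n⁻¹ √C' log n · p √(EJ Ξ²)`.  With `q = n^(ν+c)`:
`C n⁻¹ p⁴ = C n⁻¹ q^100 ≤ (1/2) n⁻¹ q^101` and `√C' log n p ≤ (1/2) q^101` for `n ≥ n0`
(`log n ≤ q` etc.).  `pj_bad` with `D + C`: third term `≤ n^(-D)`.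
Result: exponent `101 (ν + c)`.

`large`: case `ν + c ≥ 1/100`: `crude_f` and `ej_dom` (with `A = False`, `r = g = n^12 Ξ`), `ej_cs`
(`a = 1`): `‖Ecal‖ ≤ n^12 √(EJ Ξ²)`, and `-1 + 1400 (ν+c) ≥ 13`.

`gMain`: `C = 1400`; `Par` from the hypotheses for `n ≥ n0` (`1/η ≤ n^(1+c) ≤ n²`,
`η ≤ |z.im| ≤ n³`).
-/


open MeasureTheory ProbabilityTheory Matrix
open scoped Classical

namespace Pool.Agent.ZR.G

theorem xw_mono {N K : ℕ} (Q B : Matrix (Fin N) (Fin N) ℝ) (zl cl : Fin K → ℂ) (r s : ℝ)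
    (hr : 0 ≤ r) (h : r ≤ s) : Xw Q B zl cl r ≤ Xw Q B zl cl s := by
  unfold Xw
  refine Finset.prod_le_prod (fun l _ => ?_) (fun l _ => ?_)
  · positivity
  · linarith

theorem xw_nonneg {N K : ℕ} (Q B : Matrix (Fin N) (Fin N) ℝ) (zl cl : Fin K → ℂ) (r : ℝ)
    (hr : 0 ≤ r) : 0 ≤ Xw Q B zl cl r := by
  unfold Xw
  exact Finset.prod_nonneg (fun l _ => by positivity)

theorem eu_mul_left_real {n : ℕ} (c : ℝ) (f : (Fin n → Fin n → Bool) → ℝ) :
    EU (fun σ => c * f σ) = c * EU f := by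
  have := EU_smul (n := n) c f
  simpa [smul_eq_mul] using this

/-- `EJ (a Y)` is linear in the constant -/
theorem ej_const_mul {n : ℕ} (c : ℝ)
    (Y : (Fin n → Fin n → Bool) → (Fin n × Fin n → ℝ) → ℝ) :
    EJ (fun σ X => c * Y σ X) = c * EJ Y := by
  unfold EJ
  rw [← eu_mul_left_real]
  refine EU_congr fun σ _ => ?_
  exact integral_const_mul c _

/-- Cauchy-Schwarz with `a` constant. -/
theorem ej_cs_const {n : ℕ} (hn : Even n) (c : ℝ) (hc : 0 ≤ c)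
    (Y : (Fin n → Fin n → Bool) → (Fin n × Fin n → ℝ) → ℝ)
    (hY : ∀ σ ∈ Sn n, Integrable (Y σ) (gm n))
    (hY2 : ∀ σ ∈ Sn n, Integrable (fun X => Y σ X ^ 2) (gm n))
    (hY0 : ∀ σ ∈ Sn n, ∀ X, 0 ≤ Y σ X) :
    EJ (fun σ X => c * Y σ X) ≤ c * Real.sqrt (EJ (fun σ X => Y σ X ^ 2)) := by
  have h := ej_cs (n := n) (fun _ => c) Y (fun _ _ => hc) hY hY2 hY0
  rw [EU_const hn (c ^ 2), Real.sqrt_sq hc] at h
  exact h

/-- real threshold inequalities for large `n` -/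
theorem ev_small (s C C' : ℝ) (hs : 0 < s) (hs1 : s ≤ 1 / 100) :
    ∃ n0 : ℕ, ∀ n : ℕ, n0 ≤ n → 1 ≤ n ∧ 32 * ((n : ℝ) ^ s) ^ 25 ≤ Real.sqrt n ∧
      2 * C ≤ (n : ℝ) ^ s ∧ 2 * Real.sqrt C' ≤ (n : ℝ) ^ s ∧ Real.log n ≤ (n : ℝ) ^ s := by
  have t1 : Filter.Tendsto (fun n : ℕ => (n : ℝ) ^ s) Filter.atTop Filter.atTop :=
    (tendsto_rpow_atTop hs).comp tendsto_natCast_atTop_atTop
  have t2 : Filter.Tendsto (fun n : ℕ => (n : ℝ) ^ (1 / 4 : ℝ)) Filter.atTop Filter.atTop :=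
    (tendsto_rpow_atTop (by norm_num)).comp tendsto_natCast_atTop_atTop
  have e1 := t1.eventually_ge_atTop (2 * C)
  have e2 := t1.eventually_ge_atTop (2 * Real.sqrt C')
  have e3 := t2.eventually_ge_atTop 32
  have e4 : ∀ᶠ n : ℕ in Filter.atTop, Real.log n ≤ (n : ℝ) ^ s := by
    have h := (isLittleO_log_rpow_atTop hs).bound (c := 1) (by norm_num)
    have h2 := tendsto_natCast_atTop_atTop (R := ℝ) |>.eventually h
    filter_upwards [h2] with n hn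
    rw [one_mul] at hn
    have h3 : ‖(n : ℝ) ^ s‖ = (n : ℝ) ^ s := by
      rw [Real.norm_of_nonneg]
      positivity
    rw [h3] at hn
    exact (le_abs_self _).trans hn
  have e5 : ∀ᶠ n : ℕ in Filter.atTop, 1 ≤ n := Filter.eventually_ge_atTop 1
  have e := e1.and (e2.and (e3.and (e4.and e5)))
  rw [Filter.eventually_atTop] at e
  obtain ⟨n0, h⟩ := e
  refine ⟨n0, fun n hn => ?_⟩
  obtain ⟨h1, h2, h3, h4, h5⟩ := h n hn
  have hn1 : (1 : ℝ) ≤ n := by exact_mod_cast h5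
  refine ⟨h5, ?_, h1, h2, h4⟩
  have a1 : ((n : ℝ) ^ s) ^ 25 ≤ (n : ℝ) ^ (1 / 4 : ℝ) := by
    rw [← Real.rpow_natCast, ← Real.rpow_mul (by positivity)]
    refine Real.rpow_le_rpow_of_exponent_le hn1 ?_
    push_cast
    linarith
  have a2 : Real.sqrt n = (n : ℝ) ^ (1 / 4 : ℝ) * (n : ℝ) ^ (1 / 4 : ℝ) := by
    rw [Real.sqrt_eq_rpow, ← Real.rpow_add (by linarith)]
    norm_num
  rw [a2]
  exact mul_le_mul h3 a1 (by positivity) (by positivity)

theorem small (hB : BNorm) (hE : ET2) (hF : FMain) (hR : FRes) (K : ℕ) (c ν D : ℝ) (hc : 0 ≤ c)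
    (hν : 0 < ν) (hs : ν + c ≤ 1 / 100) (hD : 0 < D) :
    ∃ n0 : ℕ, ∀ n : ℕ, n0 ≤ n → Even n → ∀ (α β η : ℝ) (zl cl : Fin K → ℂ) (z : ℂ),
      Par n α β η zl cl z → (n : ℝ) ^ (-1 - c) ≤ η →
      ‖Ecal n α β zl cl z‖ ≤ (n : ℝ) ^ (-1 + 101 * (ν + c)) *
          Real.sqrt (EJ (n := n) (fun σ X =>
            (∏ l, (‖mz (Pn n) (Bm α β σ X) (zl l) - cl l‖ + (n : ℝ) ^ ν / (n * η))) ^ 2))
        + (n : ℝ) ^ (-D) := by
  obtain ⟨C, hC0, hpt⟩ := pt_main K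
  obtain ⟨C', hC'0, m0, hET⟩ := hE
  obtain ⟨n1, hbad⟩ := pj_bad hB hF hR K c ν (D + C) hc hν hs (by linarith)
  obtain ⟨n2, hev⟩ := ev_small (ν + c) C C' (by linarith) hs
  refine ⟨max m0 (max n1 n2), fun n hn hev2 α β η zl cl z hP hη => ?_⟩
  have hm0 : m0 ≤ n := le_trans (le_max_left _ _) hn
  have hn1 : n1 ≤ n := le_trans (le_trans (le_max_left _ _) (le_max_right _ _)) hn
  have hn2 : n2 ≤ n := le_trans (le_trans (le_max_right _ _) (le_max_right _ _)) hn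
  obtain ⟨g1, g32, gC, gC', glog⟩ := hev n hn2
  have hnR : (1 : ℝ) ≤ n := by exact_mod_cast g1
  have hn0 : (0 : ℝ) < n := by linarith
  have hη0 := hP.e0
  set q : ℝ := (n : ℝ) ^ (ν + c) with hq
  have hq1 : 1 ≤ q := Real.one_le_rpow hnR (by linarith)
  have hq0 : 0 < q := by linarith
  set p : ℝ := q ^ 25 with hp
  have hp1 : 1 ≤ p := one_le_pow₀ hq1
  have hp0 : 0 < p := by linarith
  have hxη : 1 / η ≤ n * p := by
    have b1 : 1 / η ≤ (n : ℝ) ^ (1 + c) := by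
      rw [div_le_iff₀ hη0]
      have : (n : ℝ) ^ (1 + c) * (n : ℝ) ^ (-1 - c) = 1 := by
        rw [← Real.rpow_add hn0]
        have : 1 + c + (-1 - c) = 0 := by ring
        rw [this, Real.rpow_zero]
      exact this.symm.le.trans (mul_le_mul_of_nonneg_left hη (by positivity))
    refine b1.trans ?_
    rw [Real.rpow_add hn0, Real.rpow_one]
    refine mul_le_mul_of_nonneg_left ?_ hn0.le
    have b2 : (n : ℝ) ^ c ≤ q := Real.rpow_le_rpow_of_exponent_le hnR (by linarith)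
    exact b2.trans (le_self_pow₀ hq1 (by norm_num))
  have hpt' := hpt n α β η zl cl z hP p hp1 g32 hxη
  have hbad' := hbad n hn1 hev2 α β η zl cl z hP hη
  set ρ : ℝ := (n : ℝ) ^ ν / (n * η) with hρ
  have hρ0 : (0 : ℝ) ≤ 1 / (n * η) := by positivity
  have hρ1 : 1 / (n * η) ≤ ρ := by
    rw [hρ]
    exact div_le_div_of_nonneg_right (Real.one_le_rpow hnR hν.le) (by positivity)
  have hρ2 : 0 ≤ ρ := hρ0.trans hρ1
  have hs0 : 0 < Real.sqrt n := Real.sqrt_pos.2 hn0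
  set b : ℝ := (n : ℝ) ^ 3 * Real.sqrt n with hb
  have hb0 : 0 < b := by positivity
  have hb1 : b⁻¹ ≤ 1 := by
    refine inv_le_one_of_one_le₀ ?_
    have s1 : 1 ≤ Real.sqrt n := by
      rw [show (1 : ℝ) = Real.sqrt 1 by simp]
      exact Real.sqrt_le_sqrt hnR
    have s2 : (1 : ℝ) ≤ (n : ℝ) ^ 3 := one_le_pow₀ hnR
    calc (1 : ℝ) = 1 * 1 := by ring
      _ ≤ (n : ℝ) ^ 3 * Real.sqrt n := mul_le_mul s2 s1 (by norm_num) (by positivity)
  have hX := int_X hP ρ hρ2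
  have hXY : ∀ σ ∈ Sn n, ∀ X : Fin n × Fin n → ℝ, 0 ≤ Xw (Pn n) (Bm α β σ X) zl cl ρ :=
    fun σ _ X => xw_nonneg _ _ _ _ _ hρ2
  set S : ℝ := Real.sqrt (EJ (n := n) (fun σ X => (Xw (Pn n) (Bm α β σ X) zl cl ρ) ^ 2)) with hS
  have hS0 : 0 ≤ S := Real.sqrt_nonneg _
  -- domination
  have hdom := ej_dom (n := n) (fun σ X => Fm α β zl cl z σ X)
    (fun σ X => b⁻¹ * ((C * ((n : ℝ) ^ 2 * Real.sqrt n * p ^ 4) + n ^ 2 * p * |(Mx σ).trace|)
            * Xw (Pn n) (Bm α β σ X) zl cl ρ))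
    (fun σ X => b⁻¹ * (if Gd α β η p zl z σ X then
        (C * ((n : ℝ) ^ 2 * Real.sqrt n * p ^ 4) + n ^ 2 * p * |(Mx σ).trace|)
            * Xw (Pn n) (Bm α β σ X) zl cl (1 / (n * η))
        else (n : ℝ) ^ C))
    (fun σ X => ¬ Gd α β η p zl z σ X) ((n : ℝ) ^ C) (by positivity) (int_F hP)
    (fun σ hσ => ((hX σ hσ).1.const_mul _).const_mul _)
    (fun σ hσ X => by
      have := hXY σ hσ X
      positivity)
    (fun X => by
      have h1 := hpt' X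
      have h2 : EU (fun σ => MainN α β zl cl z σ X)
          = ((b : ℝ) : ℂ) * EU (fun σ => Fm α β zl cl z σ X) := by
        rw [← EU_mul_left]
        exact EU_congr fun σ _ => mainN_eq (by omega) α β zl cl z σ X
      rw [h2, norm_mul, Complex.norm_real, Real.norm_of_nonneg hb0.le] at h1
      rw [eu_mul_left_real]
      rw [← div_eq_inv_mul, le_div_iff₀ hb0, mul_comm]
      exact h1)
    (fun σ hσ X hA => by
      have hA' : Gd α β η p zl z σ X := not_not.1 hA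
      rw [if_pos hA']
      refine mul_le_mul_of_nonneg_left ?_ (by positivity)
      refine mul_le_mul_of_nonneg_left ?_ (by positivity)
      exact xw_mono _ _ _ _ _ _ hρ0 hρ1)
    (fun σ hσ X hA => by
      rw [if_neg hA]
      calc b⁻¹ * (n : ℝ) ^ C ≤ 1 * (n : ℝ) ^ C :=
            mul_le_mul_of_nonneg_right hb1 (by positivity)
        _ = (n : ℝ) ^ C := one_mul _)
  rw [← ecal_eq] at hdom
  -- the main term
  have hsum : EJ (n := n) (fun σ X => b⁻¹ * ((C * ((n : ℝ) ^ 2 * Real.sqrt n * p ^ 4)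
        + n ^ 2 * p * |(Mx σ).trace|) * Xw (Pn n) (Bm α β σ X) zl cl ρ))
      = EJ (n := n) (fun σ X => (b⁻¹ * (C * ((n : ℝ) ^ 2 * Real.sqrt n * p ^ 4)))
            * Xw (Pn n) (Bm α β σ X) zl cl ρ)
        + (b⁻¹ * (n ^ 2 * p)) * EJ (n := n) (fun σ X => |(Mx σ).trace|
            * Xw (Pn n) (Bm α β σ X) zl cl ρ) := by
    unfold EJ
    rw [← eu_mul_left_real, ← EU_add]
    refine EU_congr fun σ _ => ?_
    simp only [integral_const_mul]
    ring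
  have t1 := ej_cs_const hev2 (b⁻¹ * (C * ((n : ℝ) ^ 2 * Real.sqrt n * p ^ 4))) (by positivity)
    (fun σ X => Xw (Pn n) (Bm α β σ X) zl cl ρ) (fun σ hσ => (hX σ hσ).1)
    (fun σ hσ => (hX σ hσ).2) hXY
  have t2 := ej_cs (n := n) (fun σ => |(Mx σ).trace|)
    (fun σ X => Xw (Pn n) (Bm α β σ X) zl cl ρ) (fun _ _ => abs_nonneg _)
    (fun σ hσ => (hX σ hσ).1) (fun σ hσ => (hX σ hσ).2) hXY
  have t3 : EU (n := n) (fun σ => |(Mx σ).trace| ^ 2) ≤ C' * n * (Real.log n) ^ 2 := by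
    have e1 := hET n hm0 hev2
    have e2 : EU (n := n) (fun σ => |(Mx σ).trace| ^ 2)
        = (n : ℝ) ^ 2 * EU (n := n) (fun σ => ((1 / (n : ℝ)) * (Mx σ).trace) ^ 2) := by
      rw [← eu_mul_left_real]
      refine EU_congr fun σ _ => ?_
      rw [sq_abs]
      field_simp
    rw [e2]
    calc (n : ℝ) ^ 2 * EU (n := n) (fun σ => ((1 / (n : ℝ)) * (Mx σ).trace) ^ 2)
        ≤ (n : ℝ) ^ 2 * (C' * (Real.log n) ^ 2 / n) := mul_le_mul_of_nonneg_left e1 (by positivity)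
      _ = C' * n * (Real.log n) ^ 2 := by
          field_simp
  have hlog0 : 0 ≤ Real.log n := Real.log_nonneg hnR
  have t4 : Real.sqrt (EU (n := n) (fun σ => |(Mx σ).trace| ^ 2))
      ≤ Real.sqrt C' * Real.sqrt n * Real.log n := by
    refine (Real.sqrt_le_sqrt t3).trans (le_of_eq ?_)
    rw [Real.sqrt_mul (by positivity), Real.sqrt_mul hC'0.le, Real.sqrt_sq hlog0]
  have hsn : Real.sqrt n * Real.sqrt n = n := Real.mul_self_sqrt hn0.le
  have key : EJ (n := n) (fun σ X => b⁻¹ * ((C * ((n : ℝ) ^ 2 * Real.sqrt n * p ^ 4)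
        + n ^ 2 * p * |(Mx σ).trace|) * Xw (Pn n) (Bm α β σ X) zl cl ρ))
      ≤ (n : ℝ) ^ (-1 + 101 * (ν + c)) * S := by
    rw [hsum]
    have u1 : b⁻¹ * (C * ((n : ℝ) ^ 2 * Real.sqrt n * p ^ 4)) = (C * p ^ 4) / n := by
      rw [hb]
      field_simp
    have u2 : b⁻¹ * (n ^ 2 * p) * (Real.sqrt C' * Real.sqrt n * Real.log n)
        = (Real.sqrt C' * Real.log n * p) / n := by
      rw [hb]
      field_simp
    have u3 : (n : ℝ) ^ (-1 + 101 * (ν + c)) = q ^ 101 / n := by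
      rw [Real.rpow_add hn0, hq, ← Real.rpow_natCast, ← Real.rpow_mul hn0.le, Real.rpow_neg_one]
      rw [div_eq_inv_mul]
      congr 2
      push_cast
      ring
    have v1 : C * p ^ 4 ≤ q ^ 101 / 2 := by
      have : q ^ 101 / 2 = (q / 2) * p ^ 4 := by
        rw [hp]; ring
      rw [this]
      exact mul_le_mul_of_nonneg_right (by linarith) (by positivity)
    have v2 : Real.sqrt C' * Real.log n * p ≤ q ^ 101 / 2 := by
      have w1 : Real.sqrt C' * Real.log n ≤ (q / 2) * q :=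
        mul_le_mul (by linarith) glog hlog0 (by positivity)
      have w2 : (q / 2) * q * p ≤ q ^ 101 / 2 := by
        have w3 : q ^ 27 ≤ q ^ 101 := pow_le_pow_right₀ hq1 (by norm_num)
        have w4 : (q / 2) * q * p = q ^ 27 / 2 := by rw [hp]; ring
        rw [w4]
        linarith
      exact (mul_le_mul_of_nonneg_right w1 hp0.le).trans w2
    have v3 : (C * p ^ 4) / n + (Real.sqrt C' * Real.log n * p) / n ≤ q ^ 101 / n := by
      rw [← add_div]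
      exact div_le_div_of_nonneg_right (by linarith) hn0.le
    calc EJ (n := n) (fun σ X => (b⁻¹ * (C * ((n : ℝ) ^ 2 * Real.sqrt n * p ^ 4)))
            * Xw (Pn n) (Bm α β σ X) zl cl ρ)
        + (b⁻¹ * (n ^ 2 * p)) * EJ (n := n) (fun σ X => |(Mx σ).trace|
            * Xw (Pn n) (Bm α β σ X) zl cl ρ)
        ≤ (b⁻¹ * (C * ((n : ℝ) ^ 2 * Real.sqrt n * p ^ 4))) * S
          + (b⁻¹ * (n ^ 2 * p)) * ((Real.sqrt C' * Real.sqrt n * Real.log n) * S) := by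
          refine add_le_add t1 (mul_le_mul_of_nonneg_left ?_ (by positivity))
          exact t2.trans (mul_le_mul_of_nonneg_right t4 hS0)
      _ = ((C * p ^ 4) / n + (Real.sqrt C' * Real.log n * p) / n) * S := by
          rw [u1, ← u2]; ring
      _ ≤ (q ^ 101 / n) * S := mul_le_mul_of_nonneg_right v3 hS0
      _ = (n : ℝ) ^ (-1 + 101 * (ν + c)) * S := by rw [u3]
  have third : (n : ℝ) ^ C * PJ (n := n) (fun σ X => ¬ Gd α β η p zl z σ X)
      ≤ (n : ℝ) ^ (-D) := by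
    calc (n : ℝ) ^ C * PJ (n := n) (fun σ X => ¬ Gd α β η p zl z σ X)
        ≤ (n : ℝ) ^ C * (n : ℝ) ^ (-(D + C)) :=
          mul_le_mul_of_nonneg_left hbad' (by positivity)
      _ = (n : ℝ) ^ (-D) := by
          rw [← Real.rpow_add hn0]
          congr 1
          ring
  exact hdom.trans (add_le_add key third)

theorem large (K : ℕ) (c ν : ℝ) (hν : 0 < ν) (hs : 1 / 100 ≤ ν + c) :
    ∃ n0 : ℕ, ∀ n : ℕ, n0 ≤ n → Even n → ∀ (α β η : ℝ) (zl cl : Fin K → ℂ) (z : ℂ),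
      Par n α β η zl cl z →
      ‖Ecal n α β zl cl z‖ ≤ (n : ℝ) ^ (-1 + 1400 * (ν + c)) *
          Real.sqrt (EJ (n := n) (fun σ X =>
            (∏ l, (‖mz (Pn n) (Bm α β σ X) (zl l) - cl l‖ + (n : ℝ) ^ ν / (n * η))) ^ 2)) := by
  refine ⟨2 * K + 3, fun n hn hev2 α β η zl cl z hP => ?_⟩
  have hnN : 1 ≤ n := by omega
  have hnR : (1 : ℝ) ≤ n := by exact_mod_cast hnN
  have hn0 : (0 : ℝ) < n := by linarith
  have hη0 := hP.e0
  set ρ : ℝ := (n : ℝ) ^ ν / (n * η) with hρ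
  have hρ0 : (0 : ℝ) ≤ 1 / (n * η) := by positivity
  have hρ1 : 1 / (n * η) ≤ ρ := by
    rw [hρ]
    exact div_le_div_of_nonneg_right (Real.one_le_rpow hnR hν.le) (by positivity)
  have hρ2 : 0 ≤ ρ := hρ0.trans hρ1
  have hX := int_X hP ρ hρ2
  have hXY : ∀ σ ∈ Sn n, ∀ X : Fin n × Fin n → ℝ, 0 ≤ Xw (Pn n) (Bm α β σ X) zl cl ρ :=
    fun σ _ X => xw_nonneg _ _ _ _ _ hρ2
  set S : ℝ := Real.sqrt (EJ (n := n) (fun σ X => (Xw (Pn n) (Bm α β σ X) zl cl ρ) ^ 2)) with hS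
  have hS0 : 0 ≤ S := Real.sqrt_nonneg _
  have hdom := ej_dom (n := n) (fun σ X => Fm α β zl cl z σ X)
    (fun σ X => (n : ℝ) ^ 12 * Xw (Pn n) (Bm α β σ X) zl cl ρ)
    (fun σ X => (n : ℝ) ^ 12 * Xw (Pn n) (Bm α β σ X) zl cl ρ)
    (fun _ _ => False) 0 le_rfl (int_F hP)
    (fun σ hσ => (hX σ hσ).1.const_mul _)
    (fun σ hσ X => by
      have := hXY σ hσ X
      positivity)
    (fun X => (EU_norm_le _).trans (EU_mono fun σ hσ => crude_f hP hn ρ hρ1 σ hσ X))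
    (fun σ hσ X _ => le_rfl)
    (fun σ hσ X hA => hA.elim)
  rw [← ecal_eq, zero_mul, add_zero] at hdom
  have t1 := ej_cs_const hev2 ((n : ℝ) ^ 12) (by positivity)
    (fun σ X => Xw (Pn n) (Bm α β σ X) zl cl ρ) (fun σ hσ => (hX σ hσ).1)
    (fun σ hσ => (hX σ hσ).2) hXY
  refine hdom.trans (t1.trans ?_)
  refine mul_le_mul_of_nonneg_right ?_ hS0
  rw [← Real.rpow_natCast]
  refine Real.rpow_le_rpow_of_exponent_le hnR ?_
  push_cast
  linarith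

theorem par_of {K n : ℕ} (hn : 2 ≤ n) (hev : Even n) {α β η c : ℝ} {zl cl : Fin K → ℂ} {z : ℂ}
    (hα : 0 ≤ α) (hβ : 0 ≤ β) (hab : α ^ 2 + β ^ 2 = 1) (hc : 0 ≤ c) (hc1 : c < 1)
    (hη : (n : ℝ) ^ (-1 - c) ≤ η) (hz : Adm n η z) (hzl : ∀ l, Adm n η (zl l))
    (hcl : ∀ l, ‖cl l‖ ≤ (n : ℝ) ^ 3) : Par n α β η zl cl z := by
  have hn2 : (2 : ℝ) ≤ n := by exact_mod_cast hn
  have hn0 : (0 : ℝ) < n := by linarith
  have hη0 : 0 < η := lt_of_lt_of_le (by positivity) hη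
  refine ⟨hn, hev, hα, hβ, hab, hη0, ?_, hz.1.trans hz.2.1, hz, hzl, hcl⟩
  have b1 : 1 / η ≤ (n : ℝ) ^ (1 + c) := by
    rw [div_le_iff₀ hη0]
    have : (n : ℝ) ^ (1 + c) * (n : ℝ) ^ (-1 - c) = 1 := by
      rw [← Real.rpow_add hn0]
      have : 1 + c + (-1 - c) = 0 := by ring
      rw [this, Real.rpow_zero]
    exact this.symm.le.trans (mul_le_mul_of_nonneg_left hη (by positivity))
  refine b1.trans ?_
  rw [← Real.rpow_natCast]
  refine Real.rpow_le_rpow_of_exponent_le (by linarith) ?_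
  push_cast
  linarith

end Pool.Agent.ZR.G

namespace Pool.Agent.ZR

theorem gMain (hB : BNorm) (hE : ET2) (hF : FMain) (hR : FRes) : GMain := by
  intro K
  refine ⟨1400, by norm_num, fun c ν D hc hc1 hν hD => ?_⟩
  by_cases hs : ν + c ≤ 1 / 100
  · obtain ⟨n0, h⟩ := G.small hB hE hF hR K c ν D hc hν hs hD
    refine ⟨max n0 2, fun n hn hev α β hα hβ hab η z zl cl hη hz hzl hcl => ?_⟩
    have hn0 : n0 ≤ n := le_trans (le_max_left _ _) hn
    have hn2 : 2 ≤ n := le_trans (le_max_right _ _) hn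
    have hP := G.par_of hn2 hev hα hβ hab hc hc1 hη hz hzl hcl
    have h1 := h n hn0 hev α β η zl cl z hP hη
    refine h1.trans (add_le_add ?_ le_rfl)
    refine mul_le_mul_of_nonneg_right ?_ (Real.sqrt_nonneg _)
    have hnR : (1 : ℝ) ≤ n := by
      have : (2 : ℝ) ≤ n := by exact_mod_cast hn2
      linarith
    refine Real.rpow_le_rpow_of_exponent_le hnR ?_
    linarith
  · obtain ⟨n0, h⟩ := G.large K c ν hν (le_of_lt (not_le.1 hs))
    refine ⟨max n0 2, fun n hn hev α β hα hβ hab η z zl cl hη hz hzl hcl => ?_⟩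
    have hn0 : n0 ≤ n := le_trans (le_max_left _ _) hn
    have hn2 : 2 ≤ n := le_trans (le_max_right _ _) hn
    have hP := G.par_of hn2 hev hα hβ hab hc hc1 hη hz hzl hcl
    have h1 := h n hn0 hev α β η zl cl z hP
    have h2 : (0 : ℝ) ≤ (n : ℝ) ^ (-D) := by positivity
    exact h1.trans (le_add_of_nonneg_right h2)

end Pool.Agent.ZR

end

section

/-!
# ZR/H8 : removal of a small Gaussian component, `HH2`
-/


open MeasureTheory ProbabilityTheory Matrix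

namespace Pool.Agent.ZR

/-- bound for `Ecal` on the circles -/
theorem H.ecal_circ (hG : GMain) (hF : FMain) (K : ℕ) : ∃ C : ℝ, 0 < C ∧ ∀ c ν : ℝ, 0 < c → c < 1 →
    0 < ν → ∃ n0 : ℕ, ∀ n : ℕ, n0 ≤ n → Even n → ∀ α β : ℝ, 0 ≤ α → 0 ≤ β → α ^ 2 + β ^ 2 = 1 →
      ∀ (z : ℂ) (w : Fin K → ℂ), |z.im| = (n : ℝ) ^ (-1 - c) → |z.re| ≤ 2 →
        (∀ l, |(w l).im| = (n : ℝ) ^ (-1 - c) ∧ |(w l).re| ≤ 2) →
        ∀ x : ℂ, ‖x - z‖ = (n : ℝ) ^ (-1 - c) / 2 →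
          ‖Ecal n α β w (fun _ => 0) x‖ ≤ 3 * (n : ℝ) ^ (-1 + C * (ν + c)) := by
  obtain ⟨C1, hC1, hG⟩ := hG K
  refine ⟨2 * C1 + 4 * K, by positivity, fun c ν hc hc1 hν => ?_⟩
  have hmin : 0 < min c (1 - c) := lt_min hc (by linarith)
  have hm1 : min c (1 - c) ≤ c := min_le_left _ _
  have hm2 : min c (1 - c) ≤ 1 - c := min_le_right _ _
  obtain ⟨n1, h1⟩ := hG (c + min c (1 - c) / 2) ν 1 (by positivity) (by linarith) hν one_pos
  obtain ⟨n2, h2⟩ := H.mom_bd hF K c ν hc hc1 hν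
  obtain ⟨n3, h3⟩ := H.large_rpow (min c (1 - c) / 2) 2 (by positivity)
  refine ⟨max (max n1 n2) (max n3 2), fun n hn hev α β hα hβ hab z w hz1 hz2 hw x hx => ?_⟩
  have hnn1 : n1 ≤ n := le_trans (le_trans (le_max_left _ _) (le_max_left _ _)) hn
  have hnn2 : n2 ≤ n := le_trans (le_trans (le_max_right _ _) (le_max_left _ _)) hn
  have hnn3 : n3 ≤ n := le_trans (le_trans (le_max_left _ _) (le_max_right _ _)) hn
  have hnn4 : 2 ≤ n := le_trans (le_trans (le_max_right _ _) (le_max_right _ _)) hn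
  have hn1 : (1 : ℝ) ≤ n := by exact_mod_cast (by omega : 1 ≤ n)
  have hn0 : (0 : ℝ) < n := by linarith
  have hη0 : 0 < (n : ℝ) ^ (-1 - c) := Real.rpow_pos_of_pos hn0 _
  have hη1 : (n : ℝ) ^ (-1 - c) ≤ (n : ℝ) ^ 2 := by
    rw [← Real.rpow_natCast]
    exact Real.rpow_le_rpow_of_exponent_le hn1 (by push_cast; linarith)
  have hlow : (n : ℝ) ^ (-1 - (c + min c (1 - c) / 2)) ≤ (n : ℝ) ^ (-1 - c) / 2 := by
    have e : (n : ℝ) ^ (-1 - c) = (n : ℝ) ^ (-1 - (c + min c (1 - c) / 2))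
        * (n : ℝ) ^ (min c (1 - c) / 2) := by
      rw [← Real.rpow_add hn0]
      congr 1
      ring
    rw [e]
    have := h3 n hnn3
    have h4 : 0 < (n : ℝ) ^ (-1 - (c + min c (1 - c) / 2)) := Real.rpow_pos_of_pos hn0 _
    nlinarith
  have hE := h1 n hnn1 hev α β hα hβ hab ((n : ℝ) ^ (-1 - c) / 2) x w (fun _ => 0) hlow
    (H.adm_circ hnn4 hη0 hz1 hη1 hz2 hx) (fun l => H.adm_self hnn4 hη0 (hw l).1 hη1 (hw l).2)
    (fun l => by simp)
  have hM := h2 n hnn2 hev α β hα hβ hab w hw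
  refine hE.trans ?_
  have hs : Real.sqrt (EJ (n := n) (fun σ X =>
      (∏ l, (‖mz (Pn n) (Bm α β σ X) (w l) - 0‖ + (n : ℝ) ^ ν / (n * ((n : ℝ) ^ (-1 - c) / 2)))) ^ 2))
      ≤ 2 * (n : ℝ) ^ (K * (4 * ν + c)) := by
    refine Real.sqrt_le_iff.2 ⟨by positivity, hM.trans ?_⟩
    have e : (n : ℝ) ^ (2 * K * (4 * ν + c)) = (n : ℝ) ^ (K * (4 * ν + c)) * (n : ℝ) ^ (K * (4 * ν + c)) := by
      rw [← Real.rpow_add hn0]
      congr 1
      ring
    rw [e]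
    have : 0 < (n : ℝ) ^ (K * (4 * ν + c)) := Real.rpow_pos_of_pos hn0 _
    nlinarith [mul_pos this this]
  have g1 : (n : ℝ) ^ (-1 + C1 * (ν + (c + min c (1 - c) / 2))) * (2 * (n : ℝ) ^ (K * (4 * ν + c)))
      ≤ 2 * (n : ℝ) ^ (-1 + (2 * C1 + 4 * K) * (ν + c)) := by
    have e : (n : ℝ) ^ (-1 + C1 * (ν + (c + min c (1 - c) / 2))) * (2 * (n : ℝ) ^ (K * (4 * ν + c)))
        = 2 * (n : ℝ) ^ ((-1 + C1 * (ν + (c + min c (1 - c) / 2))) + K * (4 * ν + c)) := by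
      rw [Real.rpow_add hn0 (-1 + C1 * (ν + (c + min c (1 - c) / 2)))]
      ring
    rw [e]
    have : (-1 + C1 * (ν + (c + min c (1 - c) / 2))) + K * (4 * ν + c)
        ≤ -1 + (2 * C1 + 4 * K) * (ν + c) := by
      have hK : (0 : ℝ) ≤ K := Nat.cast_nonneg K
      nlinarith [mul_nonneg hK hc.le, mul_nonneg hC1.le hν.le, mul_nonneg hC1.le hc.le,
        mul_le_mul_of_nonneg_left hm1 hC1.le]
    have := Real.rpow_le_rpow_of_exponent_le hn1 this
    linarith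
  have g2 : (n : ℝ) ^ (-(1 : ℝ)) ≤ (n : ℝ) ^ (-1 + (2 * C1 + 4 * K) * (ν + c)) := by
    refine Real.rpow_le_rpow_of_exponent_le hn1 ?_
    have : 0 ≤ (2 * C1 + 4 * K) * (ν + c) := by positivity
    linarith
  have g3 := mul_le_mul_of_nonneg_left hs
    (Real.rpow_pos_of_pos hn0 (-1 + C1 * (ν + (c + min c (1 - c) / 2)))).le
  linarith

theorem hh2 (hG : GMain) (hF : FMain) : HH2 := by
  intro k
  rcases k with _ | K
  · refine ⟨1, one_pos, fun κ δ c ν _ _ _ _ _ _ => ⟨2, fun n hn hev z _ => ?_⟩⟩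
    have h1 : ∀ α β : ℝ, EJ (n := n) (fun σ X => ∏ j : Fin 0, (mz (Pn n) (Bm α β σ X) (z j)).im)
        = EJ (n := n) (fun _ _ => (1 : ℝ)) := by
      intro α β
      simp
    rw [h1, h1, sub_self, abs_zero]
    positivity
  · obtain ⟨C1, hC1, hE⟩ := H.ecal_circ hG hF K
    refine ⟨C1 + 2, by positivity, fun κ δ c ν hκ hδ hδ1 hc hc1 hν => ?_⟩
    obtain ⟨n1, h1⟩ := hE c ν hc hc1 hν
    obtain ⟨n2, h2⟩ := H.large_rpow (ν + c) (3 * (K + 1)) (by positivity)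
    refine ⟨max (max n1 n2) 2, fun n hn hev z hz => ?_⟩
    have hnn1 : n1 ≤ n := le_trans (le_trans (le_max_left _ _) (le_max_left _ _)) hn
    have hnn2 : n2 ≤ n := le_trans (le_trans (le_max_right _ _) (le_max_left _ _)) hn
    have hnn3 : 2 ≤ n := le_trans (le_max_right _ _) hn
    have hn1 : (1 : ℝ) ≤ n := by exact_mod_cast (by omega : 1 ≤ n)
    have hn0 : (0 : ℝ) < n := by linarith
    have hη0 : 0 < (n : ℝ) ^ (-1 - c) := Real.rpow_pos_of_pos hn0 _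
    obtain ⟨θ1, hθ1, hcos, hsin, hle⟩ := H.theta_t ((n : ℝ) ^ (-δ)) (Real.rpow_nonneg hn0.le _)
    rw [← hcos, ← hsin]
    have hzim : ∀ j, (z j).im ≠ 0 := fun j => by rw [(hz j).1]; exact hη0.ne'
    set M : ℝ := (K + 1) * (3 * (n : ℝ) ^ (-1 + C1 * (ν + c)) / ((n : ℝ) ^ (-1 - c) / 2)) with hM
    have hM0 : 0 ≤ M := by positivity
    refine (H.prod_diff hzim 1 0 (Real.cos θ1) (Real.sin θ1) (M * (1 - Real.cos θ1)) ?_).trans ?_
    · intro S
      have hw : ∀ j, |(if j ∈ S then z j else starRingEnd ℂ (z j)).im| = (n : ℝ) ^ (-1 - c) ∧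
          |(if j ∈ S then z j else starRingEnd ℂ (z j)).re| ≤ 2 := by
        intro j
        have h3 := (hz j).2
        split_ifs
        · refine ⟨by rw [(hz j).1]; exact abs_of_pos hη0, by linarith⟩
        · refine ⟨?_, ?_⟩
          · rw [Complex.conj_im, abs_neg, (hz j).1]; exact abs_of_pos hη0
          · rw [Complex.conj_re]; linarith
      set w : Fin (K + 1) → ℂ := fun j => if j ∈ S then z j else starRingEnd ℂ (z j) with hwd
      have hder : ∀ θ ∈ Set.Icc (0 : ℝ) (Real.pi / 2), ∃ d : ℂ,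
          HasDerivAt (fun t : ℝ => EJ (n := n) (fun σ X =>
            ∏ l, (mz (Pn n) (Bm (Real.cos t) (Real.sin t) σ X) (w l) - (fun _ => (0 : ℂ)) l))) d θ ∧
          ‖d‖ ≤ Real.sin θ * M := by
        intro θ hθ
        have hs0 : 0 ≤ Real.sin θ :=
          Real.sin_nonneg_of_nonneg_of_le_pi hθ.1 (by linarith [hθ.2, Real.pi_pos])
        have hc0 : 0 ≤ Real.cos θ :=
          Real.cos_nonneg_of_neg_pi_div_two_le_of_le (by linarith [hθ.1, Real.pi_pos]) hθ.2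
        refine H.der_bd (by omega) w (fun _ => 0) hη0 (fun l => (hw l).1) θ hs0 ?_
        intro l x hx
        exact h1 n hnn1 hev (Real.cos θ) (Real.sin θ) hc0 hs0
          (by rw [add_comm]; exact Real.sin_sq_add_cos_sq θ) (w l) (fun j => w (l.succAbove j))
          (hw l).1 (hw l).2 (fun j => hw (l.succAbove j)) x hx
      choose! d hd using hder
      have hcb := H.cos_bd (f := fun t : ℝ => EJ (n := n) (fun σ X =>
            ∏ l, (mz (Pn n) (Bm (Real.cos t) (Real.sin t) σ X) (w l) - (fun _ => (0 : ℂ)) l)))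
        (f' := d) hM0 hθ1.1 hθ1.2 (fun θ hθ => (hd θ ⟨hθ.1, hθ.2.trans hθ1.2⟩).1)
        (fun θ hθ => by rw [mul_comm]; exact (hd θ ⟨hθ.1, hθ.2.trans hθ1.2⟩).2)
      rw [norm_sub_rev]
      simpa [hwd] using hcb
    · have e1 : M = 6 * (K + 1) * (n : ℝ) ^ (c + C1 * (ν + c)) := by
        have : (n : ℝ) ^ (-1 + C1 * (ν + c)) = (n : ℝ) ^ (c + C1 * (ν + c)) * (n : ℝ) ^ (-1 - c) := by
          rw [← Real.rpow_add hn0]
          congr 1
          ring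
        rw [hM, this]
        field_simp
        ring
      calc M * (1 - Real.cos θ1) ≤ M * ((n : ℝ) ^ (-δ) / 2) := by gcongr
        _ = (3 * (K + 1)) * ((n : ℝ) ^ (c + C1 * (ν + c)) * (n : ℝ) ^ (-δ)) := by rw [e1]; ring
        _ ≤ (n : ℝ) ^ (ν + c) * ((n : ℝ) ^ (c + C1 * (ν + c)) * (n : ℝ) ^ (-δ)) := by
          gcongr
          exact h2 n hnn2
        _ = (n : ℝ) ^ ((ν + c) + ((c + C1 * (ν + c)) + (-δ))) := by
          rw [Real.rpow_add hn0 (ν + c), Real.rpow_add hn0 (c + C1 * (ν + c))]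
        _ ≤ (n : ℝ) ^ (-δ + (C1 + 2) * (ν + c)) := by
          refine Real.rpow_le_rpow_of_exponent_le hn1 ?_
          nlinarith

end Pool.Agent.ZR

end
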