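import Pool.Agent.ZRM.P20
import Pool.Agent.ZRM.P23
import Pool.Agent.ZRM.P26
import Pool.Agent.ZRM.P29
import Pool.Agent.ZRM.P30
import Pool.Agent.ZRM.P31
import Pool.Agent.ZRM.P32

/-!
# Merged form of the modules ZR.Final
-/

set_option autoImplicit false

section

/-!
# ZR/Final : assembly of the proof of S19275
-/


open MeasureTheory ProbabilityTheory Matrix

namespace Pool.Agent.ZR

theorem fMainF : FMain := fMain bNorm

theorem fResF : FRes := fRes bNorm fMainF

theorem gMainF : GMain := gMain bNorm eT2 fMainF fResF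

theorem hh1F : HH1 := hh1 gMainF eMain

theorem hh2F : HH2 := hh2 gMainF fMainF

theorem iCntF : ICnt := I.iCnt hh1F

theorem iCntGF : ICntG := I.iCntG eMainG

theorem iW1F : IW1 := I.iW1 iCntF iCntGF

theorem iW2F : IW2 := I.iW2 iCntF iCntGF

theorem mainFullF : MainFull :=
  main_full j0 j1 j2 j3 j4 j5 kStatM fMainF bNorm iW1F iW2F iCntF iCntGF hh2F BL.kFinal lFinal

end Pool.Agent.ZR

end
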