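import Mathlib

/-!
# Merged form of the modules ZR.Defs, ZR.KHerbst, ZR.A1, ZR.C1, ZR.GDefs, ZR.IfJ, ZR.IfK, ZR.IfM, ZR.JSumInv, ZR.KSpec, ZR.PB1, ZR.SC1, ZR.Sp1, ZR.Sp2, ZR.A2, ZR.A4, ZR.C2, ZR.GFa, ZR.GNa, ZR.GSa, ZR.GSb, ZR.IfB, ZR.IfF, ZR.IfG, ZR.IfL, ZR.KWeyl, ZR.PB2, ZR.SC2, ZR.Sp3
-/

set_option autoImplicit false

section

/-!
# ZR : GOE bulk universality for symmetric ±1 matrices with zero row sums (MP_3b31ab_pr, S19275)

Definitions shared by all parts of the project.  DO NOT EDIT.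
-/


open MeasureTheory ProbabilityTheory Matrix

namespace Pool.Agent.ZR

/-! ### The discrete ensemble -/

/-- Symmetric sign patterns (`true` = +1) with all row sums 0. -/
def Sn (n : ℕ) : Finset (Fin n → Fin n → Bool) :=
  Finset.univ.filter (fun σ : Fin n → Fin n → Bool =>
    (∀ i j, σ i j = σ j i) ∧ ∀ i, ∑ j, (if σ i j then (1 : ℤ) else -1) = 0)

/-- The ±1 matrix of a pattern. -/
def Mx {n : ℕ} (σ : Fin n → Fin n → Bool) : Matrix (Fin n) (Fin n) ℝ :=
  Matrix.of fun i j => if σ i j then (1 : ℝ) else -1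

/-- `H_0 = M / √n`. -/
noncomputable def H0 {n : ℕ} (σ : Fin n → Fin n → Bool) : Matrix (Fin n) (Fin n) ℝ :=
  (1 / Real.sqrt (n : ℝ)) • Mx σ

/-- average over `Sn n` (of vectors of a real vector space) -/
noncomputable def EU {n : ℕ} {V : Type*} [AddCommGroup V] [Module ℝ V]
    (f : (Fin n → Fin n → Bool) → V) : V :=
  ((Sn n).card : ℝ)⁻¹ • ∑ σ ∈ Sn n, f σ

/-! ### Gaussian matrices -/

/-- standard Gaussian measure on `N × N` arrays -/
noncomputable def gm (N : ℕ) : Measure (Fin N × Fin N → ℝ) :=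
  Measure.pi (fun _ : Fin N × Fin N => gaussianReal 0 1)

/-- symmetric Gaussian matrix, entries of variance `v` off the diagonal and `2v` on it;
`v = 1/N` is the GOE with spectrum `[-2,2]`. -/
noncomputable def Wv {N : ℕ} (v : ℝ) (X : Fin N × Fin N → ℝ) : Matrix (Fin N) (Fin N) ℝ :=
  Matrix.of fun i j => Real.sqrt (v / 2) * (X (i, j) + X (j, i))

/-- orthogonal projection onto the complement of the all ones vector -/
noncomputable def Pn (n : ℕ) : Matrix (Fin n) (Fin n) ℝ :=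
  1 - (1 / (n : ℝ)) • Matrix.of (fun _ _ : Fin n => (1 : ℝ))

/-- `B = α H_0 + β P W P`, `W = GOE_n` -/
noncomputable def Bm {n : ℕ} (α β : ℝ) (σ : Fin n → Fin n → Bool) (X : Fin n × Fin n → ℝ) :
    Matrix (Fin n) (Fin n) ℝ :=
  α • H0 σ + β • (Pn n * Wv (1 / (n : ℝ)) X * Pn n)

/-- joint expectation over the pattern and the Gaussian array -/
noncomputable def EJ {n : ℕ} {V : Type*} [NormedAddCommGroup V] [NormedSpace ℝ V]
    (F : (Fin n → Fin n → Bool) → (Fin n × Fin n → ℝ) → V) : V :=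
  EU fun σ => ∫ X, F σ X ∂(gm n)

/-- joint probability of an event -/
noncomputable def PJ {n : ℕ}
    (A : (Fin n → Fin n → Bool) → (Fin n × Fin n → ℝ) → Prop) : ℝ :=
  EU fun σ => (gm n).real {X | A σ X}

/-- Gaussian divisible matrix `e^{-t/2} diag(a) + √(1-e^{-t}) W`, `W` with entry variance `v` -/
noncomputable def At {N : ℕ} (v t : ℝ) (a : Fin N → ℝ) (X : Fin N × Fin N → ℝ) :
    Matrix (Fin N) (Fin N) ℝ :=
  Real.exp (-t / 2) • Matrix.diagonal a + Real.sqrt (1 - Real.exp (-t)) • Wv v X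

/-! ### Resolvents, eigenvalues -/

/-- `(B - z)⁻¹` -/
noncomputable def Rz {N : ℕ} (B : Matrix (Fin N) (Fin N) ℝ) (z : ℂ) :
    Matrix (Fin N) (Fin N) ℂ :=
  (B.map (fun x : ℝ => (x : ℂ)) - z • (1 : Matrix (Fin N) (Fin N) ℂ))⁻¹

/-- `G = (B - z)⁻¹ Q` for a projection `Q` commuting with `B` (`Q = 1` or `Q = Pn n`) -/
noncomputable def Gz {N : ℕ} (Q B : Matrix (Fin N) (Fin N) ℝ) (z : ℂ) :
    Matrix (Fin N) (Fin N) ℂ :=
  Rz B z * Q.map (fun x : ℝ => (x : ℂ))

/-- normalised trace `m = (1/N) tr G` -/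
noncomputable def mz {N : ℕ} (Q B : Matrix (Fin N) (Fin N) ℝ) (z : ℂ) : ℂ :=
  (1 / (N : ℂ)) * (Gz Q B z).trace

/-- sorted (increasing) eigenvalues, `evs A i` for `i < N`, 0 otherwise -/
noncomputable def evs {N : ℕ} (A : Matrix (Fin N) (Fin N) ℝ) (i : ℕ) : ℝ :=
  (A.charpoly.roots.sort (· ≤ ·)).getD i 0

/-- number of eigenvalues `≤ x` -/
noncomputable def cnt {N : ℕ} (A : Matrix (Fin N) (Fin N) ℝ) (x : ℝ) : ℕ :=
  A.charpoly.roots.countP (fun l => l ≤ x)

/-- number of eigenvalues in `[x - r, x + r]` -/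
noncomputable def cntI {N : ℕ} (A : Matrix (Fin N) (Fin N) ℝ) (x r : ℝ) : ℕ :=
  A.charpoly.roots.countP (fun l => |l - x| ≤ r)

/-- smoothed counting function `∑ arctan((x - λ)/η)` -/
noncomputable def arcS {N : ℕ} (A : Matrix (Fin N) (Fin N) ℝ) (x η : ℝ) : ℝ :=
  (A.charpoly.roots.map (fun l => Real.arctan ((x - l) / η))).sum

/-! ### Semicircle law -/

/-- semicircle density -/
noncomputable def rho (x : ℝ) : ℝ := Real.sqrt (4 - x ^ 2) / (2 * Real.pi)

/-- distribution function of the semicircle law -/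
noncomputable def Fsc (x : ℝ) : ℝ := ∫ y in (-2 : ℝ)..(max (-2) (min x 2)), rho y

/-- Stieltjes transform of the semicircle law -/
noncomputable def msc (z : ℂ) : ℂ := ∫ y in (-2 : ℝ)..2, (rho y : ℂ) / ((y : ℂ) - z)

/-! ### Norm predicates for complex matrices -/

/-- operator norm at most `L` -/
def OpLe {N : ℕ} (A : Matrix (Fin N) (Fin N) ℂ) (L : ℝ) : Prop :=
  0 ≤ L ∧ ∀ u : Fin N → ℂ, ∑ i, ‖(A *ᵥ u) i‖ ^ 2 ≤ L ^ 2 * ∑ i, ‖u i‖ ^ 2

/-- square of the Hilbert-Schmidt norm -/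
noncomputable def hs2 {N : ℕ} (A : Matrix (Fin N) (Fin N) ℂ) : ℝ := ∑ i, ∑ j, ‖A i j‖ ^ 2

/-- nuclear (trace) norm at most `τ`, by an explicit decomposition into rank one matrices -/
def NuLe {N : ℕ} (A : Matrix (Fin N) (Fin N) ℂ) (τ : ℝ) : Prop :=
  ∃ (K : ℕ) (c : Fin K → ℝ) (u v : Fin K → Fin N → ℂ),
    (∀ k, 0 ≤ c k) ∧ (∀ k, ∑ i, ‖u k i‖ ^ 2 ≤ 1) ∧ (∀ k, ∑ i, ‖v k i‖ ^ 2 ≤ 1) ∧
    (∀ i j, A i j = ∑ k, (c k : ℂ) * u k i * v k j) ∧ ∑ k, c k ≤ τ

/-- entries at most `Γ` -/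
def EnLe {N : ℕ} (A : Matrix (Fin N) (Fin N) ℂ) (Γ : ℝ) : Prop := ∀ i j, ‖A i j‖ ≤ Γ

/-- complexification of a real matrix -/
def toC {N : ℕ} (A : Matrix (Fin N) (Fin N) ℝ) : Matrix (Fin N) (Fin N) ℂ :=
  A.map (fun x : ℝ => (x : ℂ))

/-- Control of the diagonal resolvent entries on the whole half line above `E + iη`:
`Im G_xx(E+iu) ≤ Γ` for all `u ≥ η` and all `x`. -/
def GamLe {N : ℕ} (Q B : Matrix (Fin N) (Fin N) ℝ) (E η Γ : ℝ) : Prop :=
  ∀ u : ℝ, η ≤ u → ∀ x, (Gz Q B (⟨E, u⟩ : ℂ) x x).im ≤ Γ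

end Pool.Agent.ZR

end

section

/-!
# ZR, part K3 (helper58): exponential moments from a variance bound (dyadic Herbst argument)
-/


open MeasureTheory ProbabilityTheory

namespace Pool.Agent.ZR.K1

lemma exp_le_quad {x : ℝ} (hx : |x| ≤ 1) : Real.exp x ≤ 1 + x + x ^ 2 := by
  have h := Real.abs_exp_sub_one_sub_id_le hx
  have := (abs_le.mp h).2
  linarith

lemma neg_log_le {x : ℝ} (h0 : 0 ≤ x) (h1 : x ≤ 1 / 4) : -Real.log (1 - x) ≤ 4 / 3 * x := by
  have hpos : 0 < 1 - x := by linarith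
  have h2 := Real.one_sub_inv_le_log_of_pos hpos
  have h3 : (1 - x)⁻¹ ≤ 1 + 4 / 3 * x := by
    rw [inv_le_comm₀ hpos (by linarith), ← sub_nonneg]
    have h4 : (1 - x) - (1 + 4 / 3 * x)⁻¹ = (x * (1 / 3 - 4 / 3 * x)) / (1 + 4 / 3 * x) := by
      field_simp; ring
    rw [h4]
    have : 0 ≤ 1 / 3 - 4 / 3 * x := by linarith
    positivity
  linarith

theorem herbst {α : Type*} [MeasurableSpace α] (μ : Measure α) [IsProbabilityMeasure μ]
    (f : α → ℝ) (hf : Measurable f) (B : ℝ) (hB0 : 0 ≤ B) (hB : ∀ x, |f x| ≤ B) (κ : ℝ) (hκ : 0 ≤ κ)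
    (hV : ∀ s : ℝ, ∫ x, Real.exp (s * f x) ∂μ - (∫ x, Real.exp (s / 2 * f x) ∂μ) ^ 2
      ≤ s ^ 2 / 4 * κ * ∫ x, Real.exp (s * f x) ∂μ)
    (s : ℝ) (hs : s ^ 2 * κ ≤ 1) :
    Real.log (∫ x, Real.exp (s * (f x - ∫ y, f y ∂μ)) ∂μ) ≤ s ^ 2 * κ := by
  set m : ℝ := ∫ y, f y ∂μ with hm
  have hfi : Integrable f μ := Integrable.of_bound hf.aestronglyMeasurable B
    (Filter.Eventually.of_forall fun x => by rw [Real.norm_eq_abs]; exact hB x)
  have hmB : |m| ≤ B := by
    have h1 : ‖∫ y, f y ∂μ‖ ≤ B * μ.real Set.univ :=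
      norm_integral_le_of_norm_le_const (Filter.Eventually.of_forall fun x => by
        rw [Real.norm_eq_abs]; exact hB x)
    simpa using h1
  have hf0B : ∀ x, |f x - m| ≤ 2 * B := fun x => (abs_sub _ _).trans (by linarith [hB x])
  set Z : ℝ → ℝ := fun u => ∫ x, Real.exp (u * (f x - m)) ∂μ with hZ
  have hZi : ∀ u, Integrable (fun x => Real.exp (u * (f x - m))) μ := by
    intro u
    refine Integrable.of_bound (Real.measurable_exp.comp ((hf.sub_const m).const_mul u)).aestronglyMeasurable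
      (Real.exp (|u| * (2 * B))) (Filter.Eventually.of_forall fun x => ?_)
    rw [Real.norm_eq_abs, abs_of_pos (Real.exp_pos _)]
    refine Real.exp_le_exp.mpr ((le_abs_self _).trans ?_)
    rw [abs_mul]
    exact mul_le_mul_of_nonneg_left (hf0B x) (abs_nonneg _)
  have hZpos : ∀ u, 0 < Z u := fun u => integral_exp_pos (hZi u)
  have hZ0 : ∀ u, Z u = Real.exp (-(u * m)) * ∫ x, Real.exp (u * f x) ∂μ := by
    intro u
    rw [hZ, ← integral_const_mul]
    refine integral_congr_ae (Filter.Eventually.of_forall fun x => ?_)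
    simp only
    rw [← Real.exp_add]
    congr 1; ring
  have hrec : ∀ u, Z u * (1 - u ^ 2 / 4 * κ) ≤ Z (u / 2) ^ 2 := by
    intro u
    have h1 := hV u
    have h2 := mul_le_mul_of_nonneg_left h1 (Real.exp_pos (-(u * m))).le
    have h3 : Z (u / 2) ^ 2 = Real.exp (-(u * m)) * (∫ x, Real.exp (u / 2 * f x) ∂μ) ^ 2 := by
      rw [hZ0, mul_pow, ← Real.exp_nat_mul]
      congr 2; push_cast; ring
    rw [h3, hZ0 u]
    nlinarith [h2]
  -- the function h
  have hstep : ∀ u, u ^ 2 * κ ≤ 1 → Real.log (Z u) - 2 / 3 * (u ^ 2 * κ)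
      ≤ 2 * (Real.log (Z (u / 2)) - 2 / 3 * ((u / 2) ^ 2 * κ)) := by
    intro u hu
    have hx0 : 0 ≤ u ^ 2 / 4 * κ := by positivity
    have hx1 : u ^ 2 / 4 * κ ≤ 1 / 4 := by linarith
    have h1 := Real.log_le_log (mul_pos (hZpos u) (by linarith)) (hrec u)
    rw [Real.log_mul (hZpos u).ne' (by linarith), Real.log_pow] at h1
    have h2 := neg_log_le hx0 hx1
    push_cast at h1
    nlinarith [h1, h2]
  have hiter : ∀ k : ℕ, Real.log (Z s) - 2 / 3 * (s ^ 2 * κ)
      ≤ 2 ^ k * (Real.log (Z (s / 2 ^ k)) - 2 / 3 * ((s / 2 ^ k) ^ 2 * κ)) := by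
    intro k
    induction k with
    | zero => simp
    | succ k ih =>
      refine ih.trans ?_
      have hk : (s / 2 ^ k) ^ 2 * κ ≤ 1 := by
        refine le_trans (mul_le_mul_of_nonneg_right ?_ hκ) hs
        rw [div_pow]
        exact div_le_self (sq_nonneg _) (one_le_pow₀ (one_le_pow₀ (by norm_num)))
      have h1 := hstep _ hk
      have h2 : s / 2 ^ k / 2 = s / 2 ^ (k + 1) := by rw [div_div, pow_succ]
      rw [h2] at h1
      calc 2 ^ k * (Real.log (Z (s / 2 ^ k)) - 2 / 3 * ((s / 2 ^ k) ^ 2 * κ))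
          ≤ 2 ^ k * (2 * (Real.log (Z (s / 2 ^ (k + 1))) - 2 / 3 * ((s / 2 ^ (k + 1)) ^ 2 * κ))) :=
            mul_le_mul_of_nonneg_left h1 (by positivity)
        _ = _ := by rw [pow_succ]; ring
  -- small parameter bound
  have hsmall : ∀ u, |u| * (2 * B) ≤ 1 → Real.log (Z u) ≤ u ^ 2 * (2 * B) ^ 2 := by
    intro u hu
    have h1 : Z u ≤ 1 + u ^ 2 * (2 * B) ^ 2 := by
      have h2 : Z u ≤ ∫ x, (1 + u * (f x - m) + u ^ 2 * (2 * B) ^ 2) ∂μ := by
        refine integral_mono (hZi u) ?_ fun x => ?_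
        · exact ((integrable_const _).add ((hfi.sub (integrable_const _)).const_mul _)).add (integrable_const _)
        · have h3 : |u * (f x - m)| ≤ |u| * (2 * B) := by
            rw [abs_mul]; exact mul_le_mul_of_nonneg_left (hf0B x) (abs_nonneg _)
          have h4 := exp_le_quad (h3.trans hu)
          have h5 : (u * (f x - m)) ^ 2 ≤ u ^ 2 * (2 * B) ^ 2 := by
            rw [mul_pow]
            refine mul_le_mul_of_nonneg_left ?_ (sq_nonneg _)
            rw [← sq_abs]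
            exact pow_le_pow_left₀ (abs_nonneg _) (hf0B x) 2
          simp only
          linarith
      have h6 : ∫ x, (1 + u * (f x - m) + u ^ 2 * (2 * B) ^ 2) ∂μ = 1 + u ^ 2 * (2 * B) ^ 2 := by
        rw [integral_add, integral_add, integral_const_mul, integral_sub hfi (integrable_const _)]
        · simp [← hm]
        · exact integrable_const _
        · exact (hfi.sub (integrable_const _)).const_mul _
        · exact (integrable_const _).add ((hfi.sub (integrable_const _)).const_mul _)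
        · exact integrable_const _
      rwa [h6] at h2
    calc Real.log (Z u) ≤ Z u - 1 := Real.log_le_sub_one_of_pos (hZpos u)
      _ ≤ _ := by linarith
  have hlim : Filter.Tendsto (fun k : ℕ => (s ^ 2 * (2 * B) ^ 2) * (1 / 2 : ℝ) ^ k) Filter.atTop (nhds 0) := by
    have := (tendsto_pow_atTop_nhds_zero_of_lt_one (r := (1 / 2 : ℝ)) (by norm_num) (by norm_num)).const_mul
      (s ^ 2 * (2 * B) ^ 2)
    simpa using this
  have hev : ∀ᶠ k : ℕ in Filter.atTop, Real.log (Z s) - 2 / 3 * (s ^ 2 * κ)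
      ≤ (s ^ 2 * (2 * B) ^ 2) * (1 / 2 : ℝ) ^ k := by
    have h1 : Filter.Tendsto (fun k : ℕ => (|s| * (2 * B)) * (1 / 2 : ℝ) ^ k) Filter.atTop (nhds 0) := by
      have := (tendsto_pow_atTop_nhds_zero_of_lt_one (r := (1 / 2 : ℝ)) (by norm_num) (by norm_num)).const_mul
        (|s| * (2 * B))
      simpa using this
    filter_upwards [h1.eventually_le_const (by norm_num : (0 : ℝ) < 1)] with k hk
    have h2 : |s / 2 ^ k| * (2 * B) ≤ 1 := by
      rw [abs_div, abs_of_pos (by positivity : (0 : ℝ) < 2 ^ k)]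
      calc |s| / 2 ^ k * (2 * B) = (|s| * (2 * B)) * (1 / 2 : ℝ) ^ k := by
            rw [one_div, inv_pow]; field_simp
        _ ≤ 1 := hk
    have h3 := hsmall _ h2
    have h4 := hiter k
    have h5 : (0 : ℝ) ≤ 2 / 3 * ((s / 2 ^ k) ^ 2 * κ) := by positivity
    calc Real.log (Z s) - 2 / 3 * (s ^ 2 * κ)
        ≤ 2 ^ k * (Real.log (Z (s / 2 ^ k)) - 2 / 3 * ((s / 2 ^ k) ^ 2 * κ)) := h4
      _ ≤ 2 ^ k * ((s / 2 ^ k) ^ 2 * (2 * B) ^ 2) :=
          mul_le_mul_of_nonneg_left (by linarith) (by positivity)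
      _ = (s ^ 2 * (2 * B) ^ 2) * (1 / 2 : ℝ) ^ k := by
          rw [one_div, inv_pow, div_pow]; field_simp
  have hfin : Real.log (Z s) - 2 / 3 * (s ^ 2 * κ) ≤ 0 := ge_of_tendsto hlim hev
  have h0 : 0 ≤ s ^ 2 * κ := by positivity
  show Real.log (Z s) ≤ s ^ 2 * κ
  linarith

end Pool.Agent.ZR.K1

end

section

/-!
# ZR/A1 : flipping a set of entries of a pattern

`flipP E σ` negates the entries of `σ` in the (symmetric) mask `E`.  If the signs of `σ` inside the
mask sum to zero in every row, then `flipP E σ` is again in `Sn n`: in row `i` the new sum is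
`∑_j s_ij - 2 ∑_{j ∈ E_i} s_ij = 0`.  The condition is invariant under the flip, and `flipP E` is an
involution, so `σ ↦ flipP E σ` is a bijection of `{σ ∈ Sn n | balanced E σ}`
(`Finset.sum_nbij'` / `Finset.sum_involution`-like; write the sum over `Sn n` of
`if balanced then .. else 0` as a sum over the filtered set).  `EU` is the normalised sum.
-/


open MeasureTheory ProbabilityTheory Matrix

namespace Pool.Agent.ZR

/-- negate the entries in the mask -/
def flipP {n : ℕ} (E : Fin n → Fin n → Bool) (σ : Fin n → Fin n → Bool) : Fin n → Fin n → Bool :=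
  fun i j => xor (E i j) (σ i j)

/-- the signs inside the mask sum to zero in every row -/
def Bal {n : ℕ} (E : Fin n → Fin n → Bool) (σ : Fin n → Fin n → Bool) : Prop :=
  ∀ i, ∑ j, (if E i j then (if σ i j then (1 : ℤ) else -1) else 0) = 0

instance {n : ℕ} (E σ : Fin n → Fin n → Bool) : Decidable (Bal E σ) := by
  unfold Bal; infer_instance

theorem flipP_flipP {n : ℕ} (E σ : Fin n → Fin n → Bool) : flipP E (flipP E σ) = σ := by
  funext i j
  simp only [flipP]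
  cases E i j <;> cases σ i j <;> rfl

theorem bal_flip {n : ℕ} (E σ : Fin n → Fin n → Bool) : Bal E (flipP E σ) ↔ Bal E σ := by
  have key : ∀ i, ∑ j, (if E i j then (if flipP E σ i j then (1 : ℤ) else -1) else 0)
      = - ∑ j, (if E i j then (if σ i j then (1 : ℤ) else -1) else 0) := by
    intro i
    rw [← Finset.sum_neg_distrib]
    refine Finset.sum_congr rfl fun j _ => ?_
    by_cases h1 : E i j = true <;> by_cases h2 : σ i j = true <;> simp [flipP, h1, h2]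
  unfold Bal
  constructor
  · intro h i
    have := h i
    rw [key i] at this
    linarith
  · intro h i
    rw [key i, h i, neg_zero]

theorem flipP_mem {n : ℕ} (E σ : Fin n → Fin n → Bool) (hE : ∀ i j, E i j = E j i)
    (hσ : σ ∈ Sn n) (hb : Bal E σ) : flipP E σ ∈ Sn n := by
  simp only [Sn, Finset.mem_filter, Finset.mem_univ, true_and] at hσ ⊢
  obtain ⟨hs, hr⟩ := hσ
  refine ⟨fun i j => ?_, fun i => ?_⟩
  · simp only [flipP]
    rw [hE i j, hs i j]
  · have key : ∑ j, (if flipP E σ i j then (1 : ℤ) else -1)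
        = ∑ j, (if σ i j then (1 : ℤ) else -1)
          - 2 * ∑ j, (if E i j then (if σ i j then (1 : ℤ) else -1) else 0) := by
      rw [Finset.mul_sum, ← Finset.sum_sub_distrib]
      refine Finset.sum_congr rfl fun j _ => ?_
      by_cases h1 : E i j = true <;> by_cases h2 : σ i j = true <;> simp [flipP, h1, h2]
    rw [key, hr i, hb i]
    simp

theorem Mx_flipP {n : ℕ} (E σ : Fin n → Fin n → Bool) (i j : Fin n) :
    Mx (flipP E σ) i j = if E i j then - Mx σ i j else Mx σ i j := by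
  by_cases h1 : E i j = true <;> by_cases h2 : σ i j = true <;>
    simp [Mx, Matrix.of_apply, flipP, h1, h2]

theorem EU_flip {n : ℕ} {V : Type*} [AddCommGroup V] [Module ℝ V] (E : Fin n → Fin n → Bool)
    (hE : ∀ i j, E i j = E j i) (g : (Fin n → Fin n → Bool) → V) :
    EU (fun σ => if Bal E σ then g (flipP E σ) else 0) = EU (fun σ => if Bal E σ then g σ else 0) := by
  unfold EU
  congr 1
  rw [← Finset.sum_filter, ← Finset.sum_filter]
  refine Finset.sum_nbij' (flipP E) (flipP E) ?_ ?_ ?_ ?_ ?_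
  · intro σ hσ
    rw [Finset.mem_filter] at hσ ⊢
    exact ⟨flipP_mem E σ hE hσ.1 hσ.2, (bal_flip E σ).2 hσ.2⟩
  · intro σ hσ
    rw [Finset.mem_filter] at hσ ⊢
    exact ⟨flipP_mem E σ hE hσ.1 hσ.2, (bal_flip E σ).2 hσ.2⟩
  · intro σ _
    exact flipP_flipP E σ
  · intro σ _
    exact flipP_flipP E σ
  · intro σ _
    rfl

/-! ### elementary properties of `EU` -/

theorem EU_congr {n : ℕ} {V : Type*} [AddCommGroup V] [Module ℝ V]
    {f g : (Fin n → Fin n → Bool) → V} (h : ∀ σ ∈ Sn n, f σ = g σ) : EU f = EU g := by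
  unfold EU
  rw [Finset.sum_congr rfl h]

theorem EU_add {n : ℕ} {V : Type*} [AddCommGroup V] [Module ℝ V]
    (f g : (Fin n → Fin n → Bool) → V) : EU (fun σ => f σ + g σ) = EU f + EU g := by
  unfold EU
  rw [Finset.sum_add_distrib, smul_add]

theorem EU_sub {n : ℕ} {V : Type*} [AddCommGroup V] [Module ℝ V]
    (f g : (Fin n → Fin n → Bool) → V) : EU (fun σ => f σ - g σ) = EU f - EU g := by
  unfold EU
  rw [Finset.sum_sub_distrib, smul_sub]

theorem EU_smul {n : ℕ} {V : Type*} [AddCommGroup V] [Module ℝ V]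
    (c : ℝ) (f : (Fin n → Fin n → Bool) → V) : EU (fun σ => c • f σ) = c • EU f := by
  unfold EU
  rw [← Finset.smul_sum, smul_comm]

theorem EU_mul_left {n : ℕ} (c : ℂ) (f : (Fin n → Fin n → Bool) → ℂ) :
    EU (fun σ => c * f σ) = c * EU f := by
  unfold EU
  rw [← Finset.mul_sum, mul_smul_comm]

theorem EU_sum {n : ℕ} {V : Type*} [AddCommGroup V] [Module ℝ V] {ι : Type*} (s : Finset ι)
    (f : ι → (Fin n → Fin n → Bool) → V) : EU (fun σ => ∑ i ∈ s, f i σ) = ∑ i ∈ s, EU (f i) := by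
  unfold EU
  rw [Finset.sum_comm, Finset.smul_sum]

theorem EU_norm_le {n : ℕ} {V : Type*} [NormedAddCommGroup V] [NormedSpace ℝ V]
    (f : (Fin n → Fin n → Bool) → V) : ‖EU f‖ ≤ EU (fun σ => ‖f σ‖) := by
  unfold EU
  rw [norm_smul, smul_eq_mul, Real.norm_of_nonneg (by positivity)]
  exact mul_le_mul_of_nonneg_left (norm_sum_le _ _) (by positivity)

theorem EU_mono {n : ℕ} {f g : (Fin n → Fin n → Bool) → ℝ} (h : ∀ σ ∈ Sn n, f σ ≤ g σ) :
    EU f ≤ EU g := by
  unfold EU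
  rw [smul_eq_mul, smul_eq_mul]
  exact mul_le_mul_of_nonneg_left (Finset.sum_le_sum h) (by positivity)

theorem EU_nonneg {n : ℕ} {f : (Fin n → Fin n → Bool) → ℝ} (h : ∀ σ ∈ Sn n, 0 ≤ f σ) :
    0 ≤ EU f := by
  unfold EU
  rw [smul_eq_mul]
  exact mul_nonneg (by positivity) (Finset.sum_nonneg h)

/-- upper bound for the mean of a bounded function (valid also if `Sn n` is empty, `0 ≤ c`) -/
theorem EU_le_const {n : ℕ} {f : (Fin n → Fin n → Bool) → ℝ} {c : ℝ} (hc : 0 ≤ c)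
    (h : ∀ σ ∈ Sn n, f σ ≤ c) : EU f ≤ c := by
  unfold EU
  rw [smul_eq_mul]
  rcases (Sn n).eq_empty_or_nonempty with h0 | h0
  · rw [h0]
    simpa using hc
  · have hpos : (0 : ℝ) < ((Sn n).card : ℝ) := by
      exact_mod_cast Finset.card_pos.2 h0
    have h1 : ∑ σ ∈ Sn n, f σ ≤ ((Sn n).card : ℝ) * c := by
      have := Finset.sum_le_card_nsmul (Sn n) f c h
      rwa [nsmul_eq_mul] at this
    calc ((Sn n).card : ℝ)⁻¹ * ∑ σ ∈ Sn n, f σ
        ≤ ((Sn n).card : ℝ)⁻¹ * (((Sn n).card : ℝ) * c) :=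
          mul_le_mul_of_nonneg_left h1 (by positivity)
      _ = c := by rw [← mul_assoc, inv_mul_cancel₀ hpos.ne', one_mul]

/-- for even `n` the ensemble is not empty (use `σ i j = decide ((i + j) % 2 = 0)`; for `n = 0` the
unique pattern) -/
theorem Sn_nonempty {n : ℕ} (hn : Even n) : (Sn n).Nonempty := by
  refine ⟨fun i j => decide ((i.1 + j.1) % 2 = 0), ?_⟩
  simp only [Sn, Finset.mem_filter, Finset.mem_univ, true_and]
  refine ⟨fun i j => by rw [Nat.add_comm], fun i => ?_⟩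
  have key : ∀ (m k : ℕ), ∑ j ∈ Finset.range (2 * m),
      (if decide ((k + j) % 2 = 0) = true then (1 : ℤ) else -1) = 0 := by
    intro m k
    induction m with
    | zero => simp
    | succ m ih =>
      rw [Nat.mul_succ, Finset.sum_range_succ, Finset.sum_range_succ, ih]
      rcases Nat.mod_two_eq_zero_or_one (k + 2 * m) with h | h
      · have h2 : (k + (2 * m + 1)) % 2 = 1 := by omega
        simp [h, h2]
      · have h2 : (k + (2 * m + 1)) % 2 = 0 := by omega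
        simp [h, h2]
  obtain ⟨m, hm⟩ := hn
  have h1 := Fin.sum_univ_eq_sum_range
    (fun j => if decide ((i.1 + j) % 2 = 0) = true then (1 : ℤ) else -1) n
  refine h1.trans ?_
  have h2 : n = 2 * m := by omega
  have h3 := key m i.1
  rw [← h2] at h3
  exact h3

theorem EU_const {n : ℕ} (hn : Even n) {V : Type*} [AddCommGroup V] [Module ℝ V] (v : V) :
    EU (n := n) (fun _ => v) = v := by
  unfold EU
  have hpos : ((Sn n).card : ℝ) ≠ 0 := by
    exact_mod_cast (Finset.card_pos.2 (Sn_nonempty hn)).ne'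
  rw [Finset.sum_const, ← Nat.cast_smul_eq_nsmul ℝ, smul_smul, inv_mul_cancel₀ hpos, one_smul]

end Pool.Agent.ZR

end

section

/-!
# ZR/C1 : projections commuting with a symmetric matrix; the matrices of the project

`PB Q B`: `Q` is an orthogonal projection with `Q B = B Q = B`.

Proofs.  `pb_one`: trivial.  `pb_Pn_*`: `Pn n = 1 - J/n` with `J` the all ones matrix, `J*J = n J`, so
`Pn n` is symmetric and idempotent (for `n = 0` everything is a `0 × 0` matrix).  `Pn n * (Pn n W Pn n)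
= Pn n W Pn n` etc.  `H0 σ` has zero row sums and is symmetric for `σ ∈ Sn n` (cast of the integer
identity `∑ j, (if σ i j then 1 else -1) = 0`), so `J * H0 = H0 * J = 0` and `Pn * H0 = H0 * Pn = H0`.
`Wv_symm`: the entries are symmetric in `i, j` by `add_comm`.
`pb_row`: from `B = B * Pn n`: `∑ y, B x y = (B *ᵥ 1) x` and `Pn n *ᵥ 1 = 0` for `0 < n`.
-/


open MeasureTheory ProbabilityTheory Matrix

namespace Pool.Agent.ZR

/-- `Q` is a real orthogonal projection, `B` real symmetric with `Q B = B Q = B`. -/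
structure PB {N : ℕ} (Q B : Matrix (Fin N) (Fin N) ℝ) : Prop where
  qs : Qᵀ = Q
  qq : Q * Q = Q
  bs : Bᵀ = B
  qb : Q * B = B
  bq : B * Q = B

theorem Wv_symm {N : ℕ} (v : ℝ) (X : Fin N × Fin N → ℝ) : (Wv v X).IsSymm := by
  ext i j
  simp only [Wv, Matrix.transpose_apply, Matrix.of_apply]
  rw [add_comm]

theorem pb_one {N : ℕ} (B : Matrix (Fin N) (Fin N) ℝ) (hB : B.IsSymm) : PB 1 B := by
  refine ⟨by simp, by simp, hB, by simp, by simp⟩

private theorem Pn_apply' (n : ℕ) (x y : Fin n) :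
    Pn n x y = (if x = y then 1 else 0) - 1 / (n : ℝ) := by
  simp only [Pn, Matrix.sub_apply, Matrix.smul_apply, Matrix.of_apply, Matrix.one_apply,
    smul_eq_mul, mul_one]

private theorem Mx_row' {n : ℕ} {σ : Fin n → Fin n → Bool} (hσ : σ ∈ Sn n) (i : Fin n) :
    ∑ j, Mx σ i j = 0 := by
  have h := (Finset.mem_filter.1 hσ).2.2 i
  have h2 : ((∑ j, (if σ i j then (1 : ℤ) else -1) : ℤ) : ℝ) = 0 := by rw [h]; simp
  rw [← h2]
  push_cast
  refine Finset.sum_congr rfl fun j _ => ?_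
  simp only [Mx, Matrix.of_apply]

theorem Pn_symm (n : ℕ) : (Pn n)ᵀ = Pn n := by
  ext i j
  simp only [Pn, Matrix.transpose_apply, Matrix.sub_apply, Matrix.smul_apply, Matrix.of_apply,
    Matrix.one_apply, eq_comm]

theorem Pn_idem (n : ℕ) : Pn n * Pn n = Pn n := by
  rcases Nat.eq_zero_or_pos n with h0 | hn
  · subst h0
    ext i j
    exact i.elim0
  · have hn' : (n : ℝ) ≠ 0 := by positivity
    ext x y
    rw [Matrix.mul_apply]
    simp only [Pn_apply']
    have h1 : ∀ j : Fin n, ((if x = j then (1 : ℝ) else 0) - 1 / (n : ℝ)) *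
        ((if j = y then (1 : ℝ) else 0) - 1 / (n : ℝ)) =
        (if x = j then (if j = y then (1 : ℝ) else 0) else 0) - (if x = j then 1 / (n : ℝ) else 0)
        - (if j = y then 1 / (n : ℝ) else 0) + 1 / (n : ℝ) * (1 / (n : ℝ)) := by
      intro j
      split_ifs <;> ring
    rw [Finset.sum_congr rfl fun j _ => h1 j]
    rw [Finset.sum_add_distrib, Finset.sum_sub_distrib, Finset.sum_sub_distrib]
    simp only [Finset.sum_ite_eq, Finset.sum_ite_eq', Finset.mem_univ, if_true, Finset.sum_const,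
      Finset.card_univ, Fintype.card_fin, nsmul_eq_mul]
    field_simp
    ring

theorem Pn_one (n : ℕ) (hn : 0 < n) : Pn n *ᵥ (fun _ => (1 : ℝ)) = 0 := by
  have hn' : (n : ℝ) ≠ 0 := by positivity
  ext x
  simp only [Matrix.mulVec, dotProduct, Pi.zero_apply, mul_one, Pn_apply']
  rw [Finset.sum_sub_distrib]
  simp only [Finset.sum_ite_eq, Finset.mem_univ, if_true, Finset.sum_const,
      Finset.card_univ, Fintype.card_fin, nsmul_eq_mul]
  field_simp
  ring

theorem Pn_apply (n : ℕ) (x y : Fin n) : Pn n x y = (if x = y then 1 else 0) - 1 / (n : ℝ) := by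
  exact Pn_apply' n x y

theorem Pn_trace (n : ℕ) (hn : 0 < n) : (Pn n).trace = (n : ℝ) - 1 := by
  have hn' : (n : ℝ) ≠ 0 := by positivity
  simp only [Matrix.trace, Matrix.diag_apply, Pn_apply', if_true, Finset.sum_const,
      Finset.card_univ, Fintype.card_fin, nsmul_eq_mul]
  field_simp

theorem pb_PWP (n : ℕ) (W : Matrix (Fin n) (Fin n) ℝ) (hW : W.IsSymm) :
    PB (Pn n) (Pn n * W * Pn n) := by
  have hp := Pn_symm n
  have hq := Pn_idem n
  refine ⟨hp, hq, ?_, ?_, ?_⟩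
  · rw [Matrix.transpose_mul, Matrix.transpose_mul, hp, hW.eq, ← Matrix.mul_assoc]
  · rw [← Matrix.mul_assoc, ← Matrix.mul_assoc, hq]
  · rw [Matrix.mul_assoc (Pn n * W), hq]

private theorem pb_Mx' {n : ℕ} (σ : Fin n → Fin n → Bool) (hσ : σ ∈ Sn n) : PB (Pn n) (Mx σ) := by
  have hs : ∀ i j, σ i j = σ j i := (Finset.mem_filter.1 hσ).2.1
  have hsy : (Mx σ)ᵀ = Mx σ := by
    ext i j
    simp only [Matrix.transpose_apply, Mx, Matrix.of_apply, hs i j]
  have hc : ∀ y, ∑ x, Mx σ x y = 0 := by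
    intro y
    rw [← Mx_row' hσ y]
    refine Finset.sum_congr rfl fun j _ => ?_
    have := congrFun (congrFun hsy y) j
    simpa [Matrix.transpose_apply] using this
  have h1 : Pn n * Mx σ = Mx σ := by
    ext x y
    rw [Matrix.mul_apply]
    simp only [Pn_apply', sub_mul, ite_mul, one_mul, zero_mul]
    rw [Finset.sum_sub_distrib, ← Finset.mul_sum, hc y]
    simp
  refine ⟨Pn_symm n, Pn_idem n, hsy, h1, ?_⟩
  have h2 := congrArg Matrix.transpose h1
  rw [Matrix.transpose_mul, hsy, Pn_symm] at h2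
  exact h2

theorem pb_H0 {n : ℕ} (σ : Fin n → Fin n → Bool) (hσ : σ ∈ Sn n) : PB (Pn n) (H0 σ) := by
  have h1 := pb_Mx' σ hσ
  refine ⟨h1.qs, h1.qq, ?_, ?_, ?_⟩
  · rw [H0, Matrix.transpose_smul, h1.bs]
  · rw [H0, Matrix.mul_smul, h1.qb]
  · rw [H0, Matrix.smul_mul, h1.bq]

theorem pb_Mx {n : ℕ} (σ : Fin n → Fin n → Bool) (hσ : σ ∈ Sn n) : PB (Pn n) (Mx σ) := by
  exact pb_Mx' σ hσ

theorem pb_Bm {n : ℕ} (α β : ℝ) (σ : Fin n → Fin n → Bool) (hσ : σ ∈ Sn n)
    (X : Fin n × Fin n → ℝ) : PB (Pn n) (Bm α β σ X) := by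
  have h1 := pb_H0 σ hσ
  have h2 := pb_PWP n (Wv (1 / (n : ℝ)) X) (Wv_symm _ X)
  refine ⟨h1.qs, h1.qq, ?_, ?_, ?_⟩
  · rw [Bm, Matrix.transpose_add, Matrix.transpose_smul, Matrix.transpose_smul, h1.bs, h2.bs]
  · rw [Bm, Matrix.mul_add, Matrix.mul_smul, Matrix.mul_smul, h1.qb, h2.qb]
  · rw [Bm, Matrix.add_mul, Matrix.smul_mul, Matrix.smul_mul, h1.bq, h2.bq]

/-- `PB` is stable under linear combinations -/
theorem pb_add {N : ℕ} {Q A B : Matrix (Fin N) (Fin N) ℝ} (hA : PB Q A) (hB : PB Q B) (s t : ℝ) :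
    PB Q (s • A + t • B) := by
  refine ⟨hA.qs, hA.qq, ?_, ?_, ?_⟩
  · rw [Matrix.transpose_add, Matrix.transpose_smul, Matrix.transpose_smul, hA.bs, hB.bs]
  · rw [Matrix.mul_add, Matrix.mul_smul, Matrix.mul_smul, hA.qb, hB.qb]
  · rw [Matrix.add_mul, Matrix.smul_mul, Matrix.smul_mul, hA.bq, hB.bq]

private theorem pb_mulVec_one' {n : ℕ} (hn : 0 < n) {B : Matrix (Fin n) (Fin n) ℝ} (hB : PB (Pn n) B) :
    B *ᵥ (fun _ => (1 : ℝ)) = 0 := by
  have h := hB.bq
  calc B *ᵥ (fun _ => (1 : ℝ)) = (B * Pn n) *ᵥ (fun _ => (1 : ℝ)) := by rw [h]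
    _ = 0 := by rw [← Matrix.mulVec_mulVec, Pn_one n hn, Matrix.mulVec_zero]

theorem pb_row {n : ℕ} (hn : 0 < n) {B : Matrix (Fin n) (Fin n) ℝ} (hB : PB (Pn n) B)
    (x : Fin n) : ∑ y, B x y = 0 := by
  have h1 := congrFun (pb_mulVec_one' hn hB) x
  simpa [Matrix.mulVec, dotProduct] using h1

theorem pb_mulVec_one {n : ℕ} (hn : 0 < n) {B : Matrix (Fin n) (Fin n) ℝ} (hB : PB (Pn n) B) :
    B *ᵥ (fun _ => (1 : ℝ)) = 0 := by
  exact pb_mulVec_one' hn hB

/-- entries of a pattern matrix -/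
theorem Mx_sq {n : ℕ} (σ : Fin n → Fin n → Bool) (i j : Fin n) : Mx σ i j ^ 2 = 1 := by
  simp only [Mx, Matrix.of_apply]
  split_ifs <;> norm_num

theorem Mx_symm {n : ℕ} {σ : Fin n → Fin n → Bool} (hσ : σ ∈ Sn n) (i j : Fin n) :
    Mx σ i j = Mx σ j i := by
  have h := (Finset.mem_filter.1 hσ).2.1 i j
  simp only [Mx, Matrix.of_apply, h]

theorem Mx_row {n : ℕ} {σ : Fin n → Fin n → Bool} (hσ : σ ∈ Sn n) (i : Fin n) :
    ∑ j, Mx σ i j = 0 := by
  exact Mx_row' hσ i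

end Pool.Agent.ZR

end

section

/-!
# ZR, part G: definitions.

`alt8 M i j k l` is eight times the indicator of the alternating pattern `(a,-a,a,-a)` of
`a = M i j, b = M j k, c = M k l, d = M l i`, and `s8 = a * alt8` (for signs).
-/


open MeasureTheory ProbabilityTheory Matrix

namespace Pool.Agent.ZR.G

/-- symmetric sign matrix with zero row sums -/
structure IsSg {n : ℕ} (M : Matrix (Fin n) (Fin n) ℂ) : Prop where
  sym : ∀ i j, M i j = M j i
  sgn : ∀ i j, M i j = 1 ∨ M i j = -1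
  row : ∀ i, ∑ j, M i j = 0

/-- symmetric matrix with zero row sums (resolvents) -/
structure IsRs {n : ℕ} (G : Matrix (Fin n) (Fin n) ℂ) : Prop where
  sym : ∀ i j, G i j = G j i
  row : ∀ i, ∑ j, G i j = 0

/-- eight times the indicator of an alternating 4-cycle -/
def alt8 {n : ℕ} (M : Matrix (Fin n) (Fin n) ℂ) (i j k l : Fin n) : ℂ :=
  1 - M i j * M j k + M i j * M k l - M i j * M l i - M j k * M k l + M j k * M l i
    - M k l * M l i + M i j * M j k * M k l * M l i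

/-- `a * alt8` -/
def s8 {n : ℕ} (M : Matrix (Fin n) (Fin n) ℂ) (i j k l : Fin n) : ℂ :=
  M i j - M j k + M k l - M l i - M i j * M j k * M k l + M i j * M j k * M l i
    - M i j * M k l * M l i + M j k * M k l * M l i

/-- `a * alt8` for the path `ii, ij, jk, kk` -/
def s8p {n : ℕ} (M : Matrix (Fin n) (Fin n) ℂ) (i j k : Fin n) : ℂ :=
  M i i - M i j + M j k - M k k - M i i * M i j * M j k + M i i * M i j * M k k
    - M i i * M j k * M k k + M i j * M j k * M k k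

/-- the entry `(G E^{pq} G)_{ji}` -/
def gq {n : ℕ} (G : Matrix (Fin n) (Fin n) ℂ) (j i p q : Fin n) : ℂ :=
  G j p * G q i + G j q * G p i

/-- `(G ξ G)_{ji}`, `ξ = E^{ij} - E^{jk} + E^{kl} - E^{li}` -/
def xiG {n : ℕ} (G : Matrix (Fin n) (Fin n) ℂ) (i j k l : Fin n) : ℂ :=
  gq G j i i j - gq G j i j k + gq G j i k l - gq G j i l i

/-- `tr(V ξ)` for symmetric `V` -/
def xiV {n : ℕ} (V : Matrix (Fin n) (Fin n) ℂ) (i j k l : Fin n) : ℂ :=
  2 * (V i j - V j k + V k l - V l i)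

/-- cyclically adjacent indices are different -/
def Adj4 {n : ℕ} (i j k l : Fin n) : Prop := i ≠ j ∧ j ≠ k ∧ k ≠ l ∧ l ≠ i

instance {n : ℕ} (i j k l : Fin n) : Decidable (Adj4 i j k l) := by
  unfold Adj4; infer_instance

end Pool.Agent.ZR.G

end

section

/-!
# ZR interface of part J (Wegner, bordering, relocation).  Target statements of part J.
Throughout `t = n^(-δ)`, `σ² = 1 - e^{-t} ≤ t`, energies `x` (or `Re z`) stay at distance `≥ c0`
from the coordinates which are changed.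
-/


open MeasureTheory ProbabilityTheory Matrix

namespace Pool.Agent.ZR

/-- J1: Wegner bound for the GOE, all moments, scale `1/n`. -/
def J1 : Prop :=
  ∀ (k : ℕ) (R : ℝ), 0 < R → ∃ C : ℝ, ∀ n : ℕ, 0 < n → ∀ x : ℝ,
    ∫ X, (cntI (Wv (N := n) (1 / (n : ℝ)) X) x (R / n) : ℝ) ^ k ∂(gm n) ≤ C

/-- J0: the spectrum of `B = α H_0 + β P W P` on `1^⊥` is that of `α diag(λ) + β W_{n-1}`
(entry variance `1/n`), `λ` = eigenvalues of `H_0` on `1^⊥`. -/
def J0 : Prop :=
  ∀ (n : ℕ), 1 < n → ∀ σ ∈ Sn n, ∀ lam : Fin (n - 1) → ℝ,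
    (H0 σ).charpoly.roots = 0 ::ₘ (Finset.univ.val.map lam) →
    ∀ (α β : ℝ) (Φ : Multiset ℝ → ℝ),
      Measurable (fun X : Fin (n - 1) × Fin (n - 1) → ℝ =>
        Φ (α • Matrix.diagonal lam + β • Wv (1 / (n : ℝ)) X).charpoly.roots) →
      ∫ X, Φ ((Bm α β σ X).charpoly.roots.erase 0) ∂(gm n)
        = ∫ X, Φ (α • Matrix.diagonal lam + β • Wv (1 / (n : ℝ)) X).charpoly.roots ∂(gm (n - 1))

/-- the vector `(a, b)` of length `n`, `a` of length `n-1` -/
def snocV {n : ℕ} (a : Fin (n - 1) → ℝ) (b : ℝ) : Fin n → ℝ :=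
  fun i => if h : (i : ℕ) < n - 1 then a ⟨i, h⟩ else b

/-- J2: bordering.  Adding the far coordinate `b` changes products of `Im` of normalised traces
by a small amount. -/
def J2 : Prop :=
  ∀ (k : ℕ) (δ c ν c0 : ℝ), 0 < δ → δ < 1 → 0 ≤ c → c < 1 → 0 < ν → 0 < c0 →
    ∃ n0 : ℕ, ∀ n : ℕ, n0 ≤ n → ∀ (a : Fin (n - 1) → ℝ) (b : ℝ) (z : Fin k → ℂ) (Mo : ℝ),
      1 ≤ Mo → |b| ≤ 1 / c0 →
      (∀ j, (n : ℝ) ^ (-1 - c) ≤ (z j).im ∧ (z j).im ≤ 1 ∧ |(z j).re| ≤ 1 / c0 ∧
        c0 ≤ |(z j).re - b|) →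
      (∀ j, ∫ X, ((1 / (n : ℝ)) *
          ((Gz 1 (At (1 / (n : ℝ)) ((n : ℝ) ^ (-δ)) a X) (z j)).trace).im) ^ (2 * k) ∂(gm (n - 1))
            ≤ Mo ^ (2 * k)) →
      let e : ℝ := (n : ℝ) ^ (2 * c + ν - δ / 2)
      (∀ j, ∫ X, ((1 / (n : ℝ)) *
          ((Gz 1 (At (1 / (n : ℝ)) ((n : ℝ) ^ (-δ)) (snocV a b) X) (z j)).trace).im) ^ (2 * k)
            ∂(gm n) ≤ (Mo + e + 1) ^ (2 * k)) ∧
      |(∫ X, ∏ j, ((1 / (n : ℝ)) *
          ((Gz 1 (At (1 / (n : ℝ)) ((n : ℝ) ^ (-δ)) (snocV a b) X) (z j)).trace).im) ∂(gm n))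
        - ∫ X, ∏ j, ((1 / (n : ℝ)) *
          ((Gz 1 (At (1 / (n : ℝ)) ((n : ℝ) ^ (-δ)) a X) (z j)).trace).im) ∂(gm (n - 1))|
        ≤ e * (Mo + e + 1) ^ k + (n : ℝ) ^ (-(5 : ℝ))

/-- J3: relocation of far coordinates. `θ = ∑ |a_i - a'_i|`; needs `c < δ/2`. -/
def J3 : Prop :=
  ∀ (k : ℕ) (δ c ν c0 : ℝ), 0 < δ → δ < 1 → 0 ≤ c → c < δ / 2 → 0 < ν → 0 < c0 →
    ∃ n0 : ℕ, ∀ n : ℕ, n0 ≤ n → ∀ (a a' : Fin n → ℝ) (z : Fin k → ℂ) (Mo : ℝ),
      1 ≤ Mo → (∀ i, |a i| ≤ (n : ℝ) ^ (δ / 4) ∧ |a' i| ≤ (n : ℝ) ^ (δ / 4)) →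
      (∀ j, (n : ℝ) ^ (-1 - c) ≤ (z j).im ∧ (z j).im ≤ 1 ∧ |(z j).re| ≤ 1 / c0 ∧
        ∀ i, a i = a' i ∨ ((z j).re + c0 ≤ a i ∧ (z j).re + c0 ≤ a' i) ∨
          (a i ≤ (z j).re - c0 ∧ a' i ≤ (z j).re - c0)) →
      (∀ j, ∫ X, ((1 / (n : ℝ)) *
          ((Gz 1 (At (1 / (n : ℝ)) ((n : ℝ) ^ (-δ)) a X) (z j)).trace).im) ^ (2 * k) ∂(gm n)
            ≤ Mo ^ (2 * k)) →
      let e : ℝ := (n : ℝ) ^ (2 * c + ν - δ / 2) * ∑ i, |a i - a' i|
      (∀ j, ∫ X, ((1 / (n : ℝ)) *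
          ((Gz 1 (At (1 / (n : ℝ)) ((n : ℝ) ^ (-δ)) a' X) (z j)).trace).im) ^ (2 * k)
            ∂(gm n) ≤ (Mo + e + 1) ^ (2 * k)) ∧
      |(∫ X, ∏ j, ((1 / (n : ℝ)) *
          ((Gz 1 (At (1 / (n : ℝ)) ((n : ℝ) ^ (-δ)) a' X) (z j)).trace).im) ∂(gm n))
        - ∫ X, ∏ j, ((1 / (n : ℝ)) *
          ((Gz 1 (At (1 / (n : ℝ)) ((n : ℝ) ^ (-δ)) a X) (z j)).trace).im) ∂(gm n)|
        ≤ e * (Mo + e + 1) ^ k + (n : ℝ) ^ (-(5 : ℝ))

/-- J4: the smoothed counting function under bordering and under relocation. -/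
def J4 : Prop :=
  ∀ (δ ν c0 : ℝ), 0 < δ → δ < 1 → 0 < ν → 0 < c0 →
    ∃ n0 : ℕ, ∀ n : ℕ, n0 ≤ n → ∀ (x η κ : ℝ), |x| ≤ 1 / c0 → 1 / (n : ℝ) ≤ η →
      η ≤ (n : ℝ) ^ (-(δ / 2)) →
      (∀ (a : Fin (n - 1) → ℝ) (b : ℝ),
        ∫ X, |arcS (At (1 / (n : ℝ)) ((n : ℝ) ^ (-δ)) (snocV a b) X) x η - κ| ∂(gm n)
          ≤ (∫ X, |arcS (At (1 / (n : ℝ)) ((n : ℝ) ^ (-δ)) a X) x η - κ| ∂(gm (n - 1)))
            + Real.pi) ∧
      (∀ (a a' : Fin n → ℝ),
        (∀ i, |a i| ≤ (n : ℝ) ^ (δ / 4) ∧ |a' i| ≤ (n : ℝ) ^ (δ / 4)) →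
        (∀ i, a i = a' i ∨ (x + c0 ≤ a i ∧ x + c0 ≤ a' i) ∨ (a i ≤ x - c0 ∧ a' i ≤ x - c0)) →
        ∫ X, |arcS (At (1 / (n : ℝ)) ((n : ℝ) ^ (-δ)) a' X) x η - κ| ∂(gm n)
          ≤ (∫ X, |arcS (At (1 / (n : ℝ)) ((n : ℝ) ^ (-δ)) a X) x η - κ| ∂(gm n))
            + (n : ℝ) ^ (ν - δ / 2) * ∑ i, |a i - a' i| + (n : ℝ) ^ (-(5 : ℝ)))

/-- J5: universal bound for the local eigenvalue counts of Gaussian divisible matrices
(arbitrary `a`), noise `t = n^(-δ)`; used on exceptional events. -/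
def J5 : Prop :=
  ∀ (δ ν D : ℝ), 0 < δ → δ < 1 → 0 < ν → 0 < D →
    ∃ n0 : ℕ, ∀ n : ℕ, n0 ≤ n → ∀ (a : Fin n → ℝ) (x r : ℝ), 1 / (n : ℝ) ≤ r →
      (gm n).real {X | (n : ℝ) ^ (ν + δ / 2) * (n * r) ≤
        (cntI (At (1 / (n : ℝ)) ((n : ℝ) ^ (-δ)) a X) x r : ℝ)} ≤ (n : ℝ) ^ (-D)

end Pool.Agent.ZR

end

section

/-!
# ZR interface of part K (entropic step).  Target statement of part K, to be proved there.
-/


open MeasureTheory ProbabilityTheory Matrix

namespace Pool.Agent.ZR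

/-- labelled gap statistic `|J|⁻¹ ∑_{i∈J} G((s (x_{i+m_q} - x_i))_q)` of the sorted eigenvalues -/
noncomputable def Lab {N : ℕ} (J : Finset ℕ) {r : ℕ} (m : Fin r → ℤ) (s : ℝ)
    (G : (Fin r → ℝ) → ℝ) (A : Matrix (Fin N) (Fin N) ℝ) : ℝ :=
  (1 / (J.card : ℝ)) * ∑ i ∈ J, G (fun q => s * (evs A ((i : ℤ) + m q).toNat - evs A i))

/-- PART K, final statement. -/
def KFinal : Prop :=
  ∀ (r : ℕ) (G : (Fin r → ℝ) → ℝ), ContDiff ℝ 1 G → HasCompactSupport G →
    ∃ C : ℝ, 0 < C ∧ ∀ (n : ℕ) (J : Finset ℕ) (m : Fin r → ℤ) (s t : ℝ), 0 < n →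
      J.Nonempty → 0 < t →
      (∀ i ∈ J, i < n ∧ ∀ q, 0 ≤ (i : ℤ) + m q ∧ (i : ℤ) + m q < n) →
      ∀ (Ω : Type) [MeasurableSpace Ω] (P' : Measure Ω) [IsProbabilityMeasure P']
        (a : Ω → Fin n → ℝ) (Y : Ω → Fin n × Fin n → ℝ), Measurable a → Measurable Y →
        P'.map Y = gm n →
        Integrable (fun ω => ∑ i : Fin n, (a ω i - evs (Wv (1 / (n : ℝ)) (Y ω)) i) ^ 2) P' →
        |(∫ ω, ∫ X, Lab J m s G (At (1 / (n : ℝ)) t (a ω) X) ∂(gm n) ∂P')
            - ∫ X, Lab J m s G (Wv (N := n) (1 / (n : ℝ)) X) ∂(gm n)|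
          ≤ C / Real.sqrt (J.card : ℝ) *
            (1 + (n : ℝ) / (4 * (Real.exp t - 1)) *
              ∫ ω, ∑ i : Fin n, (a ω i - evs (Wv (1 / (n : ℝ)) (Y ω)) i) ^ 2 ∂P')

end Pool.Agent.ZR

end

section

/-!
# ZR interface of parts F, H, I (inputs of the final assembly, part M).
The exponent parameters: `n` even, `t = n^(-δ)`, `c` = extra small scale, `ν` = losses.
-/


open MeasureTheory ProbabilityTheory Matrix

namespace Pool.Agent.ZR

/-- sorted roots of the characteristic polynomial with one zero erased (the spectrum on `1^⊥` of a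
matrix killing `1`): `evp A i`, `i < N - 1` -/
noncomputable def evp {N : ℕ} (A : Matrix (Fin N) (Fin N) ℝ) (i : ℕ) : ℝ :=
  ((A.charpoly.roots.erase 0).sort (· ≤ ·)).getD i 0

/-- counting function of `A.charpoly.roots.erase 0` -/
noncomputable def cntP {N : ℕ} (A : Matrix (Fin N) (Fin N) ℝ) (x : ℝ) : ℕ :=
  (A.charpoly.roots.erase 0).countP (fun l => l ≤ x)

/-- PART F: resolvent entries down to scale `n^(-1+ν)`, for `|E| ≤ 2`. -/
def FMain : Prop :=
  ∀ ν D : ℝ, 0 < ν → 0 < D → ∃ n0 : ℕ, ∀ n : ℕ, n0 ≤ n → Even n →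
    ∀ α β : ℝ, 0 ≤ α → 0 ≤ β → α ^ 2 + β ^ 2 = 1 → ∀ E : ℝ, |E| ≤ 2 →
      PJ (n := n) (fun σ X => ¬ GamLe (Pn n) (Bm α β σ X) E ((n : ℝ) ^ (-1 + ν)) ((n : ℝ) ^ ν))
        ≤ (n : ℝ) ^ (-D)

/-- PART B: norm bound. -/
def BNorm : Prop :=
  ∃ K : ℝ, 0 < K ∧ ∃ n0 : ℕ, ∀ n : ℕ, n0 ≤ n → Even n →
    ∀ α β : ℝ, 0 ≤ α → 0 ≤ β → α ^ 2 + β ^ 2 = 1 →
      PJ (n := n) (fun σ X => ¬ OpLe (toC (Bm α β σ X)) (K * Real.log n))
        ≤ Real.exp (-(n : ℝ))

/-- PART H, second statement: removal of a small Gaussian component, scale `n^(-1-c)`. -/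
def HH2 : Prop :=
  ∀ k : ℕ, ∃ C : ℝ, 0 < C ∧ ∀ κ δ c ν : ℝ, 0 < κ → 0 < δ → δ < 1 → 0 < c → c < 1 → 0 < ν →
    ∃ n0 : ℕ, ∀ n : ℕ, n0 ≤ n → Even n → ∀ z : Fin k → ℂ,
      (∀ j, (z j).im = (n : ℝ) ^ (-1 - c) ∧ |(z j).re| ≤ 2 - κ) →
      |EJ (n := n) (fun σ X => ∏ j, (mz (Pn n) (Bm 1 0 σ X) (z j)).im)
        - EJ (n := n) (fun σ X => ∏ j, (mz (Pn n)
            (Bm (Real.exp (-((n : ℝ) ^ (-δ)) / 2)) (Real.sqrt (1 - Real.exp (-((n : ℝ) ^ (-δ)))))
              σ X) (z j)).im)|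
        ≤ (n : ℝ) ^ (-δ + C * (ν + c))

/-- PART I: counting functions. -/
def ICnt : Prop :=
  ∀ ν : ℝ, 0 < ν → ∃ n0 : ℕ, ∀ n : ℕ, n0 ≤ n → Even n →
    ∀ α β : ℝ, 0 ≤ α → 0 ≤ β → α ^ 2 + β ^ 2 = 1 → ∀ x : ℝ, |x| < 2 →
      EJ (n := n) (fun σ X => ((cntP (Bm α β σ X) x : ℝ) - n * Fsc x) ^ 2)
        ≤ (n : ℝ) ^ ν / (2 - |x|)

/-- PART I: counting function of the GOE. -/
def ICntG : Prop :=
  ∀ ν : ℝ, 0 < ν → ∃ n0 : ℕ, ∀ n : ℕ, n0 ≤ n → ∀ x : ℝ, |x| < 2 →
      ∫ X, ((cnt (Wv (N := n) (1 / (n : ℝ)) X) x : ℝ) - n * Fsc x) ^ 2 ∂(gm n)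
        ≤ (n : ℝ) ^ ν / (2 - |x|)

/-- PART I: total transport distance to the (independent) GOE spectrum. -/
def IW1 : Prop :=
  ∀ ν : ℝ, 0 < ν → ∃ n0 : ℕ, ∀ n : ℕ, n0 ≤ n → Even n →
    EJ (n := n) (fun σ X =>
      (|2 - evs (Wv (N := n) (1 / (n : ℝ)) X) (n - 1)| +
        ∑ i ∈ Finset.range (n - 1), |evp (H0 σ) i - evs (Wv (N := n) (1 / (n : ℝ)) X) i|) ^ 2)
      ≤ (n : ℝ) ^ ν

/-- PART I: bulk transport distance. -/
def IW2 : Prop :=
  ∀ κ ν : ℝ, 0 < κ → 0 < ν → ∃ n0 : ℕ, ∀ n : ℕ, n0 ≤ n → Even n →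
    EJ (n := n) (fun σ X => ∑ i ∈ (Finset.range (n - 1)).filter
        (fun i : ℕ => κ * n ≤ i ∧ (i : ℝ) ≤ (1 - κ) * n),
        (evp (H0 σ) i - evs (Wv (N := n) (1 / (n : ℝ)) X) i) ^ 2)
      ≤ (n : ℝ) ^ (-1 + ν)

end Pool.Agent.ZR

end

section

/-!
# ZR/JSumInv : dyadic bound for `∑ 1/|l_k - z|`

`‖l_k - z‖ ≥ max(|l_k - x|, η)`, `z = x + iη`.  Split the indices:
* `|l_k - x| ≤ r0`: at most `K` of them (hypothesis `j = 0`), each term is at most `1/η`;
* `2^j r0 < |l_k - x| ≤ 2^(j+1) r0`, `0 ≤ j < L`: at most `K 2^(j+1)` of them (hypothesis `j + 1`), each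
  term is at most `1/(2^j r0)`: total at most `2K/r0` for each `j`;
* `|l_k - x| > 2^L r0`: at most `N` of them, each term at most `1/(2^L r0)`.
(Induction on `L` is convenient: for `S_L = ∑_{|l_k - x| ≤ 2^L r0} 1/‖l_k - z‖` show
`S_L ≤ K/η + 2 L K/r0`.)
-/


open MeasureTheory ProbabilityTheory Matrix

namespace Pool.Agent.ZR

private theorem jsi_eta {N : ℕ} (l : Fin N → ℝ) (x η : ℝ) (hη : 0 < η) (k : Fin N) :
    1 / ‖(l k : ℂ) - (⟨x, η⟩ : ℂ)‖ ≤ 1 / η := by
  have h1 : |((l k : ℂ) - (⟨x, η⟩ : ℂ)).im| ≤ ‖(l k : ℂ) - (⟨x, η⟩ : ℂ)‖ :=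
    Complex.abs_im_le_norm _
  have h2 : ((l k : ℂ) - (⟨x, η⟩ : ℂ)).im = -η := by simp
  rw [h2, abs_neg, abs_of_pos hη] at h1
  exact one_div_le_one_div_of_le hη h1

private theorem jsi_re {N : ℕ} (l : Fin N → ℝ) (x η : ℝ) (r : ℝ) (hr : 0 < r) (k : Fin N)
    (h : r ≤ |l k - x|) :
    1 / ‖(l k : ℂ) - (⟨x, η⟩ : ℂ)‖ ≤ 1 / r := by
  have h1 : |((l k : ℂ) - (⟨x, η⟩ : ℂ)).re| ≤ ‖(l k : ℂ) - (⟨x, η⟩ : ℂ)‖ :=
    Complex.abs_re_le_norm _
  have h2 : ((l k : ℂ) - (⟨x, η⟩ : ℂ)).re = l k - x := by simp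
  rw [h2] at h1
  exact one_div_le_one_div_of_le hr (h.trans h1)

theorem sum_inv_le {N : ℕ} (l : Fin N → ℝ) (x η : ℝ) (hη : 0 < η) (r0 K : ℝ) (hr0 : 0 < r0)
    (hK : 0 ≤ K) (L : ℕ)
    (h : ∀ j : ℕ, j ≤ L → ((Finset.univ.filter (fun k => |l k - x| ≤ 2 ^ j * r0)).card : ℝ)
      ≤ K * 2 ^ j) :
    ∑ k, 1 / ‖(l k : ℂ) - (⟨x, η⟩ : ℂ)‖ ≤ K / η + 2 * L * K / r0 + N / (2 ^ L * r0) := by
  have key : ∀ M : ℕ, M ≤ L →
      ∑ k ∈ Finset.univ.filter (fun k => |l k - x| ≤ 2 ^ M * r0),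
        1 / ‖(l k : ℂ) - (⟨x, η⟩ : ℂ)‖ ≤ K / η + 2 * M * K / r0 := by
    intro M
    induction M with
    | zero =>
      intro _
      have h0 := h 0 (Nat.zero_le _)
      calc ∑ k ∈ Finset.univ.filter (fun k => |l k - x| ≤ 2 ^ 0 * r0),
            1 / ‖(l k : ℂ) - (⟨x, η⟩ : ℂ)‖
          ≤ ∑ k ∈ Finset.univ.filter (fun k => |l k - x| ≤ 2 ^ 0 * r0), 1 / η :=
            Finset.sum_le_sum fun k _ => jsi_eta l x η hη k
        _ = ((Finset.univ.filter (fun k => |l k - x| ≤ 2 ^ 0 * r0)).card : ℝ) * (1 / η) := by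
            rw [Finset.sum_const, nsmul_eq_mul]
        _ ≤ K * 2 ^ 0 * (1 / η) := by gcongr
        _ = K / η + 2 * ((0 : ℕ) : ℝ) * K / r0 := by simp; ring
    | succ M ih =>
      intro hM
      have h1 := ih (by omega)
      have h2 := h (M + 1) hM
      have hp : (0 : ℝ) < 2 ^ M * r0 := by positivity
      have hsub : Finset.univ.filter (fun k => |l k - x| ≤ 2 ^ M * r0) ⊆
          Finset.univ.filter (fun k => |l k - x| ≤ 2 ^ (M + 1) * r0) := by
        intro k hk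
        simp only [Finset.mem_filter, Finset.mem_univ, true_and] at hk ⊢
        refine hk.trans ?_
        rw [pow_succ]
        nlinarith
      rw [← Finset.sum_sdiff hsub]
      have h3 : ∑ k ∈ Finset.univ.filter (fun k => |l k - x| ≤ 2 ^ (M + 1) * r0) \
            Finset.univ.filter (fun k => |l k - x| ≤ 2 ^ M * r0),
            1 / ‖(l k : ℂ) - (⟨x, η⟩ : ℂ)‖ ≤ 2 * K / r0 := by
        calc _ ≤ ∑ k ∈ Finset.univ.filter (fun k => |l k - x| ≤ 2 ^ (M + 1) * r0) \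
            Finset.univ.filter (fun k => |l k - x| ≤ 2 ^ M * r0), 1 / (2 ^ M * r0) := by
              refine Finset.sum_le_sum fun k hk => ?_
              simp only [Finset.mem_sdiff, Finset.mem_filter, Finset.mem_univ, true_and,
                not_le] at hk
              exact jsi_re l x η _ hp k hk.2.le
          _ = ((Finset.univ.filter (fun k => |l k - x| ≤ 2 ^ (M + 1) * r0) \
            Finset.univ.filter (fun k => |l k - x| ≤ 2 ^ M * r0)).card : ℝ)
              * (1 / (2 ^ M * r0)) := by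
              rw [Finset.sum_const, nsmul_eq_mul]
          _ ≤ ((Finset.univ.filter (fun k => |l k - x| ≤ 2 ^ (M + 1) * r0)).card : ℝ)
              * (1 / (2 ^ M * r0)) := by
              gcongr
              exact Finset.sdiff_subset
          _ ≤ K * 2 ^ (M + 1) * (1 / (2 ^ M * r0)) := by gcongr
          _ = 2 * K / r0 := by
              rw [pow_succ]
              field_simp
      have h4 : 2 * (((M + 1 : ℕ)) : ℝ) * K / r0 = 2 * (M : ℝ) * K / r0 + 2 * K / r0 := by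
        push_cast; ring
      rw [h4]
      linarith
  have hL := key L le_rfl
  have hp : (0 : ℝ) < 2 ^ L * r0 := by positivity
  rw [← Finset.sum_filter_add_sum_filter_not Finset.univ (fun k => |l k - x| ≤ 2 ^ L * r0)]
  have h5 : ∑ k ∈ Finset.univ.filter (fun k => ¬ |l k - x| ≤ 2 ^ L * r0),
      1 / ‖(l k : ℂ) - (⟨x, η⟩ : ℂ)‖ ≤ N / (2 ^ L * r0) := by
    calc _ ≤ ∑ k ∈ Finset.univ.filter (fun k => ¬ |l k - x| ≤ 2 ^ L * r0), 1 / (2 ^ L * r0) := by
          refine Finset.sum_le_sum fun k hk => ?_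
          simp only [Finset.mem_filter, Finset.mem_univ, true_and, not_le] at hk
          exact jsi_re l x η _ hp k hk.le
      _ = ((Finset.univ.filter (fun k => ¬ |l k - x| ≤ 2 ^ L * r0)).card : ℝ)
            * (1 / (2 ^ L * r0)) := by
          rw [Finset.sum_const, nsmul_eq_mul]
      _ ≤ (N : ℝ) * (1 / (2 ^ L * r0)) := by
          gcongr
          refine (Finset.card_filter_le _ _).trans ?_
          simp
      _ = N / (2 ^ L * r0) := by ring
  linarith

end Pool.Agent.ZR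

end

section

/-!
# ZR, part K1 (helper58): spectral decomposition with sorted eigenvalues `evs`
-/


open MeasureTheory ProbabilityTheory Matrix

namespace Pool.Agent.ZR.K1

lemma isHerm_of_isSymm {N : ℕ} {A : Matrix (Fin N) (Fin N) ℝ} (h : A.IsSymm) : A.IsHermitian := by
  ext i j
  simp only [Matrix.conjTranspose_apply, star_trivial]
  exact h.apply i j

lemma roots_sort_eq {N : ℕ} {A : Matrix (Fin N) (Fin N) ℝ} (hA : A.IsHermitian) :
    A.charpoly.roots.sort (· ≤ ·) = (List.ofFn hA.eigenvalues₀).reverse := by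
  rw [hA.roots_charpoly_eq_eigenvalues₀]
  have h1 : (Multiset.map (RCLike.ofReal ∘ hA.eigenvalues₀) Finset.univ.val : Multiset ℝ)
      = ((List.ofFn hA.eigenvalues₀).reverse : List ℝ) := by
    rw [Multiset.coe_reverse, Fin.univ_val_map]
    rfl
  rw [h1, Multiset.coe_sort]
  apply List.mergeSort_of_pairwise
  rw [List.pairwise_reverse]
  have h2 := (hA.eigenvalues₀_antitone).sortedGE_ofFn
  rw [List.sortedGE_iff_pairwise] at h2
  simpa using h2

/-- the sorted eigenvalues are a permutation of Mathlib's eigenvalues -/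
lemma evs_perm {N : ℕ} {A : Matrix (Fin N) (Fin N) ℝ} (hA : A.IsHermitian) :
    ∃ σ : Equiv.Perm (Fin N), ∀ i : Fin N, evs A i = hA.eigenvalues (σ i) := by
  have hc : Fintype.card (Fin N) = N := Fintype.card_fin N
  refine ⟨(Fin.revPerm.trans (finCongr hc.symm)).trans
    (Fintype.equivOfCardEq (Fintype.card_fin _)), fun i => ?_⟩
  have hlen : (List.ofFn hA.eigenvalues₀).reverse.length = N := by simp
  have hi : (i : ℕ) < (List.ofFn hA.eigenvalues₀).reverse.length := by rw [hlen]; exact i.2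
  rw [evs, roots_sort_eq hA, List.getD_eq_getElem _ _ hi, List.getElem_reverse, List.getElem_ofFn]
  simp only [Matrix.IsHermitian.eigenvalues, Equiv.trans_apply, Equiv.symm_apply_apply]
  congr 1
  ext
  simp [Fin.revPerm]
  omega

/-- orthogonal diagonalisation with sorted eigenvalues -/
lemma exists_orth_evs {N : ℕ} {A : Matrix (Fin N) (Fin N) ℝ} (hA : A.IsSymm) :
    ∃ O : Matrix (Fin N) (Fin N) ℝ, Oᵀ * O = 1 ∧ O * Oᵀ = 1 ∧
      A = O * Matrix.diagonal (fun i : Fin N => evs A i) * Oᵀ := by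
  have hH := isHerm_of_isSymm hA
  obtain ⟨σ, hσ⟩ := evs_perm hH
  set U : Matrix (Fin N) (Fin N) ℝ := (hH.eigenvectorUnitary : Matrix (Fin N) (Fin N) ℝ) with hU
  have hU1 : Uᵀ * U = 1 := by
    have := Unitary.star_mul_self_of_mem hH.eigenvectorUnitary.2
    rwa [Matrix.star_eq_conjTranspose, Matrix.conjTranspose_eq_transpose_of_trivial] at this
  have hU2 : U * Uᵀ = 1 := by
    have := Unitary.mul_star_self_of_mem hH.eigenvectorUnitary.2
    rwa [Matrix.star_eq_conjTranspose, Matrix.conjTranspose_eq_transpose_of_trivial] at this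
  have hs : A = U * Matrix.diagonal hH.eigenvalues * Uᵀ := by
    have := hH.spectral_theorem
    rw [Unitary.conjStarAlgAut_apply] at this
    rw [Matrix.star_eq_conjTranspose, Matrix.conjTranspose_eq_transpose_of_trivial] at this
    exact this
  refine ⟨U.submatrix id σ, ?_, ?_, ?_⟩
  · ext i j
    have h1 : ((U.submatrix id σ)ᵀ * U.submatrix id σ) i j = (Uᵀ * U) (σ i) (σ j) := by
      simp [Matrix.mul_apply]
    rw [h1, hU1, Matrix.one_apply, Matrix.one_apply]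
    simp
  · ext i j
    have h1 : (U.submatrix id σ * (U.submatrix id σ)ᵀ) i j = (U * Uᵀ) i j := by
      simp only [Matrix.mul_apply, Matrix.submatrix_apply, Matrix.transpose_apply, id]
      exact Equiv.sum_comp σ (fun k => U i k * U j k)
    rw [h1, hU2]
  · conv_lhs => rw [hs]
    ext i j
    rw [Matrix.mul_apply, Matrix.mul_apply]
    simp only [Matrix.mul_diagonal, Matrix.submatrix_apply, Matrix.transpose_apply, id, hσ]
    exact (Equiv.sum_comp σ (fun k => U i k * hH.eigenvalues k * U j k)).symm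

lemma conj_charpoly {N : ℕ} (A O : Matrix (Fin N) (Fin N) ℝ) (hO : Oᵀ * O = 1) :
    (O * A * Oᵀ).charpoly = A.charpoly := by
  rw [Matrix.mul_assoc, Matrix.charpoly_mul_comm, Matrix.mul_assoc, hO, Matrix.mul_one]

lemma conj_evs {N : ℕ} (A O : Matrix (Fin N) (Fin N) ℝ) (hO : Oᵀ * O = 1) (i : ℕ) :
    evs (O * A * Oᵀ) i = evs A i := by
  rw [evs, conj_charpoly A O hO, evs]

lemma evs_mono {N : ℕ} {A : Matrix (Fin N) (Fin N) ℝ} (hA : A.IsSymm) {i j : ℕ} (hij : i ≤ j)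
    (hj : j < N) : evs A i ≤ evs A j := by
  have hH := isHerm_of_isSymm hA
  have hlen : (A.charpoly.roots.sort (· ≤ ·)).length = N := by
    rw [roots_sort_eq hH]; simp
  have hp := Multiset.pairwise_sort A.charpoly.roots (· ≤ ·)
  rcases hij.eq_or_lt with rfl | hlt
  · exact le_rfl
  rw [evs, evs, List.getD_eq_getElem _ _ (by rw [hlen]; omega), List.getD_eq_getElem _ _ (by rw [hlen]; exact hj)]
  exact List.pairwise_iff_getElem.mp hp i j _ _ hlt

end Pool.Agent.ZR.K1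

end

section

/-!
# ZR/PB1 : lower bound for the number of symmetric ±1 matrices with zero row sums (helper2)

`sn_card_lower : Even n → n ≤ 2 ^ k → 1 ≤ k → 2 ^ (n (n+1) / 2) ≤ |S_n| * 2 ^ (n * (k (k+1) / 2))`.
-/


open MeasureTheory ProbabilityTheory Matrix

namespace Pool.Agent.ZR.PB

/-- sign -/
def sg (b : Bool) : ℤ := if b then 1 else -1

lemma sg_not (b : Bool) : sg (!b) = - sg b := by cases b <;> simp [sg]

/-- symmetric zero row sum patterns on a finite type -/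
def SS (ι : Type) [Fintype ι] [DecidableEq ι] : Finset (ι → ι → Bool) :=
  Finset.univ.filter (fun σ => (∀ i j, σ i j = σ j i) ∧ ∀ i, ∑ j, sg (σ i j) = 0)

/-- rectangular patterns with zero row and column sums -/
def GG (ι κ : Type) [Fintype ι] [DecidableEq ι] [Fintype κ] [DecidableEq κ] :
    Finset (ι → κ → Bool) :=
  Finset.univ.filter (fun B => (∀ i, ∑ j, sg (B i j) = 0) ∧ ∀ j, ∑ i, sg (B i j) = 0)

/-- balanced rows -/
def BR (κ : Type) [Fintype κ] [DecidableEq κ] : Finset (κ → Bool) :=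
  Finset.univ.filter (fun x => ∑ j, sg (x j) = 0)

lemma pig {X V : Type} [DecidableEq X] [AddCommGroup V] [DecidableEq V] (A : Finset X) (S : X → V)
    (neg : X → X) (hn : ∀ x ∈ A, neg x ∈ A) (hS : ∀ x ∈ A, S (neg x) = - S x)
    (hinv : ∀ x, neg (neg x) = x) :
    A.card ^ 2 ≤ (A.image S).card * ((A ×ˢ A).filter (fun q => S q.1 + S q.2 = 0)).card := by
  classical
  have h1 : A.card = ∑ s ∈ A.image S, (A.filter (fun x => S x = s)).card :=
    Finset.card_eq_sum_card_image S A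
  have h2 : ((A ×ˢ A).filter (fun q => S q.1 + S q.2 = 0)).card
      = ∑ s ∈ A.image S, (A.filter (fun x => S x = s)).card ^ 2 := by
    have h3 : ((A ×ˢ A).filter (fun q => S q.1 + S q.2 = 0)).card
        = ∑ s ∈ A.image S, (((A ×ˢ A).filter (fun q => S q.1 + S q.2 = 0)).filter
            (fun q => S q.1 = s)).card := by
      apply Finset.card_eq_sum_card_fiberwise
      intro q hq
      have hq' := (Finset.mem_filter.1 (Finset.mem_coe.1 hq)).1
      exact Finset.mem_coe.2 (Finset.mem_image_of_mem S (Finset.mem_product.1 hq').1)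
    rw [h3]
    apply Finset.sum_congr rfl
    intro s _
    rw [sq, ← Finset.card_product]
    refine Finset.card_bij' (fun q _ => (q.1, neg q.2)) (fun q _ => (q.1, neg q.2)) ?_ ?_ ?_ ?_
    · rintro ⟨x, y⟩ hq
      simp only [Finset.mem_filter, Finset.mem_product] at hq ⊢
      obtain ⟨⟨⟨hx, hy⟩, hxy⟩, hs⟩ := hq
      refine ⟨⟨hx, hs⟩, hn y hy, ?_⟩
      rw [hS y hy]
      rw [← hs]
      exact (eq_neg_of_add_eq_zero_left hxy).symm
    · rintro ⟨x, y⟩ hq
      simp only [Finset.mem_filter, Finset.mem_product] at hq ⊢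
      obtain ⟨⟨hx, hs⟩, hy, hs'⟩ := hq
      refine ⟨⟨⟨hx, hn y hy⟩, ?_⟩, hs⟩
      rw [hS y hy, hs, hs', add_neg_cancel]
    · rintro ⟨x, y⟩ _
      simp [hinv]
    · rintro ⟨x, y⟩ _
      simp [hinv]
  rw [h2, h1]
  exact sq_sum_le_card_mul_sum_sq

lemma sum_sg_range {ι : Type} [Fintype ι] (x : ι → Bool) :
    ∃ t ∈ Finset.range (Fintype.card ι + 1), ∑ i, sg (x i) = 2 * (t : ℤ) - Fintype.card ι := by
  classical
  refine ⟨(Finset.univ.filter (fun i => x i = true)).card, ?_, ?_⟩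
  · rw [Finset.mem_range]
    exact Nat.lt_succ_of_le (Finset.card_le_univ _)
  · have h : ∀ i, sg (x i) = 2 * (if x i = true then (1 : ℤ) else 0) - 1 := by
      intro i
      cases x i <;> simp [sg]
    rw [Finset.sum_congr rfl (fun i _ => h i), Finset.sum_sub_distrib, ← Finset.mul_sum]
    simp [Finset.sum_boole]

/-- the possible values of a sum of `a` signs -/
def vals (a : ℕ) : Finset ℤ := (Finset.range (a + 1)).image (fun t : ℕ => 2 * (t : ℤ) - a)

lemma vals_card (a : ℕ) : (vals a).card ≤ a + 1 := by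
  unfold vals
  exact Finset.card_image_le.trans (by simp)

lemma sum_mem_vals {ι : Type} [Fintype ι] (x : ι → Bool) :
    ∑ i, sg (x i) ∈ vals (Fintype.card ι) := by
  obtain ⟨t, ht, h⟩ := sum_sg_range x
  rw [h]
  exact Finset.mem_image_of_mem _ ht

lemma br_card (b : ℕ) : 4 ^ b ≤ (b + 1) * (BR (Fin b ⊕ Fin b)).card := by
  classical
  have h := pig (X := Fin b → Bool) (V := ℤ) Finset.univ (fun x => ∑ i, sg (x i))
    (fun x i => !x i) (fun _ _ => Finset.mem_univ _)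
    (fun x _ => by simp only [sg_not, Finset.sum_neg_distrib]) (fun x => by funext i; simp)
  have h1 : (Finset.univ : Finset (Fin b → Bool)).card ^ 2 = 4 ^ b := by
    rw [Finset.card_univ, Fintype.card_fun, Fintype.card_bool, Fintype.card_fin, ← pow_mul,
      mul_comm, pow_mul]
    norm_num
  have h2 : ((Finset.univ : Finset (Fin b → Bool)).image (fun x => ∑ i, sg (x i))).card ≤ b + 1 := by
    refine le_trans (Finset.card_le_card ?_) (vals_card b)
    intro s hs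
    obtain ⟨x, _, rfl⟩ := Finset.mem_image.1 hs
    simpa using sum_mem_vals x
  have h3 : ((Finset.univ ×ˢ Finset.univ : Finset ((Fin b → Bool) × (Fin b → Bool))).filter
      (fun q => ∑ i, sg (q.1 i) + ∑ i, sg (q.2 i) = 0)).card ≤ (BR (Fin b ⊕ Fin b)).card := by
    apply Finset.card_le_card_of_injOn (fun q => Sum.elim q.1 q.2)
    · rintro ⟨x, y⟩ hq
      simp only [Finset.coe_filter, Set.mem_ofPred_eq] at hq
      simp only [BR, Finset.coe_filter, Set.mem_ofPred_eq, Finset.mem_univ, true_and,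
        Fintype.sum_sum_type, Sum.elim_inl, Sum.elim_inr]
      exact hq.2
    · rintro ⟨x, y⟩ _ ⟨x', y'⟩ _ h
      have h' : Sum.elim x y = Sum.elim x' y' := h
      have hx : x = x' := by funext i; exact congrFun h' (Sum.inl i)
      have hy : y = y' := by funext i; exact congrFun h' (Sum.inr i)
      rw [hx, hy]
  rw [h1] at h
  exact h.trans (Nat.mul_le_mul h2 h3)

lemma gg_card (a b : ℕ) :
    2 ^ (2 * a * (2 * b)) ≤ (b + 1) ^ (2 * a) * (a + 1) ^ (2 * b)
      * (GG (Fin a ⊕ Fin a) (Fin b ⊕ Fin b)).card := by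
  classical
  set A : Finset (Fin a → (Fin b ⊕ Fin b) → Bool) :=
    Fintype.piFinset (fun _ : Fin a => BR (Fin b ⊕ Fin b)) with hA
  have hmemA : ∀ x, x ∈ A ↔ ∀ i, ∑ j, sg (x i j) = 0 := by
    intro x
    rw [hA, Fintype.mem_piFinset]
    simp [BR]
  have h := pig (X := Fin a → (Fin b ⊕ Fin b) → Bool) (V := (Fin b ⊕ Fin b) → ℤ) A
    (fun x j => ∑ i, sg (x i j)) (fun x i j => !x i j)
    (fun x hx => by
      rw [hmemA] at hx ⊢
      intro i
      simp only [sg_not, Finset.sum_neg_distrib, hx i, neg_zero])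
    (fun x _ => by funext j; simp only [sg_not, Finset.sum_neg_distrib, Pi.neg_apply])
    (fun x => by funext i j; simp)
  have h1 : A.card = (BR (Fin b ⊕ Fin b)).card ^ a := by
    rw [hA, Fintype.card_piFinset]
    simp
  have h2 : (A.image (fun x j => ∑ i, sg (x i j))).card ≤ (a + 1) ^ (2 * b) := by
    calc (A.image (fun x j => ∑ i, sg (x i j))).card
        ≤ (Fintype.piFinset (fun _ : Fin b ⊕ Fin b => vals a)).card := by
          apply Finset.card_le_card
          intro s hs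
          obtain ⟨x, _, rfl⟩ := Finset.mem_image.1 hs
          rw [Fintype.mem_piFinset]
          intro j
          simpa using sum_mem_vals (fun i => x i j)
      _ = (vals a).card ^ (2 * b) := by
          rw [Fintype.card_piFinset]
          simp [two_mul]
      _ ≤ (a + 1) ^ (2 * b) := Nat.pow_le_pow_left (vals_card a) _
  have h3 : ((A ×ˢ A).filter (fun q : (Fin a → (Fin b ⊕ Fin b) → Bool) ×
        (Fin a → (Fin b ⊕ Fin b) → Bool) =>
        (fun j => ∑ i, sg (q.1 i j)) + (fun j => ∑ i, sg (q.2 i j)) = 0)).card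
      ≤ (GG (Fin a ⊕ Fin a) (Fin b ⊕ Fin b)).card := by
    apply Finset.card_le_card_of_injOn (fun q => Sum.elim q.1 q.2)
    · rintro ⟨x, y⟩ hq
      simp only [Finset.coe_filter, Set.mem_ofPred_eq, Finset.mem_product, hmemA] at hq
      obtain ⟨⟨hx, hy⟩, hxy⟩ := hq
      simp only [GG, Finset.coe_filter, Set.mem_ofPred_eq, Finset.mem_univ, true_and]
      refine ⟨?_, ?_⟩
      · rintro (i | i)
        · exact hx i
        · exact hy i
      · intro j
        rw [Fintype.sum_sum_type]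
        exact congrFun hxy j
    · rintro ⟨x, y⟩ _ ⟨x', y'⟩ _ h
      have h' : Sum.elim x y = Sum.elim x' y' := h
      have hx : x = x' := by funext i; exact congrFun h' (Sum.inl i)
      have hy : y = y' := by funext i; exact congrFun h' (Sum.inr i)
      rw [hx, hy]
  rw [h1] at h
  have h4 := h.trans (Nat.mul_le_mul h2 h3)
  have h5 := Nat.pow_le_pow_left (br_card b) (2 * a)
  calc 2 ^ (2 * a * (2 * b)) = (4 ^ b) ^ (2 * a) := by
        rw [show (4 : ℕ) = 2 ^ 2 by norm_num, ← pow_mul, ← pow_mul]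
        congr 1
        ring
    _ ≤ ((b + 1) * (BR (Fin b ⊕ Fin b)).card) ^ (2 * a) := h5
    _ = (b + 1) ^ (2 * a) * ((BR (Fin b ⊕ Fin b)).card ^ a) ^ 2 := by
        rw [mul_pow, ← pow_mul, mul_comm a 2]
    _ ≤ (b + 1) ^ (2 * a) * ((a + 1) ^ (2 * b) * (GG (Fin a ⊕ Fin a) (Fin b ⊕ Fin b)).card) :=
        Nat.mul_le_mul_left _ h4
    _ = _ := by ring

lemma ss_congr {ι κ : Type} [Fintype ι] [DecidableEq ι] [Fintype κ] [DecidableEq κ] (e : ι ≃ κ) :
    (SS ι).card = (SS κ).card := by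
  refine Finset.card_bij' (fun σ _ => fun i j => σ (e.symm i) (e.symm j))
    (fun σ _ => fun i j => σ (e i) (e j)) ?_ ?_ ?_ ?_
  · intro σ hσ
    simp only [SS, Finset.mem_filter, Finset.mem_univ, true_and] at hσ ⊢
    refine ⟨fun i j => hσ.1 _ _, fun i => ?_⟩
    rw [← hσ.2 (e.symm i)]
    exact Fintype.sum_equiv e.symm _ _ (fun j => rfl)
  · intro σ hσ
    simp only [SS, Finset.mem_filter, Finset.mem_univ, true_and] at hσ ⊢
    refine ⟨fun i j => hσ.1 _ _, fun i => ?_⟩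
    rw [← hσ.2 (e i)]
    exact Fintype.sum_equiv e _ _ (fun j => rfl)
  · intro σ _
    funext i j
    simp
  · intro σ _
    funext i j
    simp

lemma ss_mul {ι κ : Type} [Fintype ι] [DecidableEq ι] [Fintype κ] [DecidableEq κ] :
    (SS ι).card * (SS κ).card * (GG ι κ).card ≤ (SS (ι ⊕ κ)).card := by
  rw [← Finset.card_product, ← Finset.card_product]
  apply Finset.card_le_card_of_injOn (fun q : ((ι → ι → Bool) × (κ → κ → Bool)) × (ι → κ → Bool) =>
    (fun x y : ι ⊕ κ => match x, y with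
      | Sum.inl i, Sum.inl j => q.1.1 i j
      | Sum.inl i, Sum.inr j => q.2 i j
      | Sum.inr i, Sum.inl j => q.2 j i
      | Sum.inr i, Sum.inr j => q.1.2 i j))
  · rintro ⟨⟨σ, τ⟩, B⟩ hq
    simp only [Finset.coe_product, Set.mem_prod, Finset.mem_coe, SS, GG, Finset.mem_filter,
      Finset.mem_univ, true_and] at hq
    obtain ⟨⟨⟨hσ1, hσ2⟩, ⟨hτ1, hτ2⟩⟩, ⟨hB1, hB2⟩⟩ := hq
    simp only [SS, Finset.coe_filter, Finset.mem_univ, true_and, Set.mem_ofPred_eq]
    refine ⟨?_, ?_⟩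
    · rintro (i | i) (j | j)
      · exact hσ1 i j
      · rfl
      · rfl
      · exact hτ1 i j
    · rintro (i | i)
      · rw [Fintype.sum_sum_type]
        simp only [hσ2 i, hB1 i, add_zero]
      · rw [Fintype.sum_sum_type]
        simp only [hτ2 i, hB2 i, add_zero]
  · rintro ⟨⟨σ, τ⟩, B⟩ _ ⟨⟨σ', τ'⟩, B'⟩ _ h
    have h1 : σ = σ' := by
      funext i j
      exact congrFun (congrFun h (Sum.inl i)) (Sum.inl j)
    have h2 : τ = τ' := by
      funext i j
      exact congrFun (congrFun h (Sum.inr i)) (Sum.inr j)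
    have h3 : B = B' := by
      funext i j
      exact congrFun (congrFun h (Sum.inl i)) (Sum.inr j)
    rw [h1, h2, h3]

/-- `|S_n|` -/
def F (n : ℕ) : ℕ := (SS (Fin n)).card

lemma mem_SS {ι : Type} [Fintype ι] [DecidableEq ι] (σ : ι → ι → Bool) :
    σ ∈ SS ι ↔ (∀ i j, σ i j = σ j i) ∧ ∀ i, ∑ j, sg (σ i j) = 0 := by
  simp [SS]

lemma mem_Sn {n : ℕ} (σ : Fin n → Fin n → Bool) :
    σ ∈ Sn n ↔ (∀ i j, σ i j = σ j i) ∧ ∀ i, ∑ j, sg (σ i j) = 0 := by
  unfold Sn sg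
  rw [Finset.mem_filter]
  simp

lemma F_eq (n : ℕ) : F n = (Sn n).card := by
  unfold F
  congr 1
  ext σ
  rw [mem_Sn, mem_SS]

lemma F_step (a b : ℕ) :
    F (2 * a) * F (2 * b) * 2 ^ (2 * a * (2 * b))
      ≤ (b + 1) ^ (2 * a) * (a + 1) ^ (2 * b) * F (2 * a + 2 * b) := by
  have ea : Fin a ⊕ Fin a ≃ Fin (2 * a) := finSumFinEquiv.trans (finCongr (two_mul a).symm)
  have eb : Fin b ⊕ Fin b ≃ Fin (2 * b) := finSumFinEquiv.trans (finCongr (two_mul b).symm)
  have e : (Fin a ⊕ Fin a) ⊕ (Fin b ⊕ Fin b) ≃ Fin (2 * a + 2 * b) :=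
    (Equiv.sumCongr ea eb).trans finSumFinEquiv
  have h1 := ss_mul (ι := Fin a ⊕ Fin a) (κ := Fin b ⊕ Fin b)
  rw [ss_congr ea, ss_congr eb, ss_congr e] at h1
  have h2 := gg_card a b
  calc F (2 * a) * F (2 * b) * 2 ^ (2 * a * (2 * b))
      ≤ F (2 * a) * F (2 * b) * ((b + 1) ^ (2 * a) * (a + 1) ^ (2 * b)
        * (GG (Fin a ⊕ Fin a) (Fin b ⊕ Fin b)).card) := Nat.mul_le_mul_left _ h2
    _ = (b + 1) ^ (2 * a) * (a + 1) ^ (2 * b) * (F (2 * a) * F (2 * b)
        * (GG (Fin a ⊕ Fin a) (Fin b ⊕ Fin b)).card) := by ring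
    _ ≤ _ := Nat.mul_le_mul_left _ h1

lemma F_zero : F 0 = 1 := by decide

lemma F_two : F 2 = 2 := by decide

/-- triangular numbers -/
def tri (n : ℕ) : ℕ := n * (n + 1) / 2

lemma tri_add (m n : ℕ) : tri (m + n) = tri m + tri n + m * n := by
  unfold tri
  have hm := Nat.even_mul_succ_self m
  have hn := Nat.even_mul_succ_self n
  have hmn := Nat.even_mul_succ_self (m + n)
  obtain ⟨x, hx⟩ := hm
  obtain ⟨y, hy⟩ := hn
  obtain ⟨z, hz⟩ := hmn
  have e1 : m * (m + 1) / 2 = x := by rw [hx]; omega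
  have e2 : n * (n + 1) / 2 = y := by rw [hy]; omega
  have e3 : (m + n) * (m + n + 1) / 2 = z := by rw [hz]; omega
  rw [e1, e2, e3]
  nlinarith

theorem F_lower (k : ℕ) (hk : 1 ≤ k) : ∀ n : ℕ, Even n → n ≤ 2 ^ k →
    2 ^ tri n ≤ F n * 2 ^ (n * tri k) := by
  induction k, hk using Nat.le_induction with
  | base =>
    intro n hn hn2
    have hn3 : n = 0 ∨ n = 2 := by
      obtain ⟨r, hr⟩ := hn
      have : n ≤ 2 := by simpa using hn2
      omega
    rcases hn3 with rfl | rfl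
    · simp [F_zero, tri]
    · simp [F_two, tri]
  | succ k hk ih =>
    intro n hn hn2
    obtain ⟨r, hr⟩ := hn
    set a := n / 4 with ha
    set b := r - a with hb
    have hpow : 2 ^ (k + 1) = 2 * 2 ^ k := by rw [pow_succ]; ring
    have hpk : 2 ^ k = 2 * 2 ^ (k - 1) := by
      conv_lhs => rw [show k = (k - 1) + 1 by omega]
      rw [pow_succ]; ring
    have hn4 : n = 2 * a + 2 * b := by omega
    have hma : 2 * a ≤ 2 ^ k := by omega
    have hmb : 2 * b ≤ 2 ^ k := by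
      have : 2 ^ (k + 1) = 4 * 2 ^ (k - 1) := by rw [hpow, hpk]; ring
      omega
    have ih1 := ih (2 * a) ⟨a, by ring⟩ hma
    have ih2 := ih (2 * b) ⟨b, by ring⟩ hmb
    have hstep := F_step a b
    have ha1 : a + 1 ≤ 2 ^ k := by
      have h1 : 1 ≤ 2 ^ (k - 1) := Nat.one_le_two_pow
      omega
    have hb1 : b + 1 ≤ 2 ^ k := by
      have h1 : 1 ≤ 2 ^ (k - 1) := Nat.one_le_two_pow
      omega
    have hpos : (b + 1) ^ (2 * a) * (a + 1) ^ (2 * b) ≤ 2 ^ (n * k) := by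
      calc (b + 1) ^ (2 * a) * (a + 1) ^ (2 * b)
          ≤ (2 ^ k) ^ (2 * a) * (2 ^ k) ^ (2 * b) :=
            Nat.mul_le_mul (Nat.pow_le_pow_left hb1 _) (Nat.pow_le_pow_left ha1 _)
        _ = 2 ^ (n * k) := by
            rw [← pow_add, ← hn4, ← pow_mul, mul_comm]
    have htk : tri (k + 1) = tri k + k + 1 := by
      rw [tri_add]
      simp [tri]
      ring
    calc 2 ^ tri n = 2 ^ tri (2 * a) * 2 ^ tri (2 * b) * 2 ^ (2 * a * (2 * b)) := by
          rw [← pow_add, ← pow_add, ← tri_add, ← hn4]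
      _ ≤ (F (2 * a) * 2 ^ (2 * a * tri k)) * (F (2 * b) * 2 ^ (2 * b * tri k))
          * 2 ^ (2 * a * (2 * b)) := by gcongr
      _ = 2 ^ (n * tri k) * (F (2 * a) * F (2 * b) * 2 ^ (2 * a * (2 * b))) := by
          conv_rhs => rw [hn4, add_mul, pow_add]
          ring
      _ ≤ 2 ^ (n * tri k) * ((b + 1) ^ (2 * a) * (a + 1) ^ (2 * b) * F (2 * a + 2 * b)) := by
          gcongr
      _ ≤ 2 ^ (n * tri k) * (2 ^ (n * k) * F (2 * a + 2 * b)) := by gcongr
      _ = F n * 2 ^ (n * (tri k + k)) := by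
          rw [← hn4, mul_add, pow_add]; ring
      _ ≤ F n * 2 ^ (n * tri (k + 1)) := by
          apply Nat.mul_le_mul_left
          apply Nat.pow_le_pow_right (by norm_num)
          apply Nat.mul_le_mul_left
          omega

end Pool.Agent.ZR.PB

namespace Pool.Agent.ZR

/-- lower bound for the number of patterns -/
theorem sn_card_lower (n k : ℕ) (hn : Even n) (hk : 1 ≤ k) (hnk : n ≤ 2 ^ k) :
    2 ^ (n * (n + 1) / 2) ≤ (Sn n).card * 2 ^ (n * (k * (k + 1) / 2)) := by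
  rw [← PB.F_eq]
  exact PB.F_lower k hk n hn hnk

end Pool.Agent.ZR

end

section

/-!
# ZR/SC1 : Stieltjes transform of the semicircle law
-/


open MeasureTheory ProbabilityTheory Matrix

namespace Pool.Agent.ZR

theorem exists_w (z : ℂ) (hz : z.im ≠ 0) : ∃ w : ℂ, w ^ 2 + z * w + 1 = 0 ∧ ‖w‖ < 1 := by
  obtain ⟨s, hs⟩ := IsAlgClosed.exists_pow_nat_eq (z ^ 2 - 4) (n := 2) (by norm_num)
  by_cases h1 : ‖(-z + s) / 2‖ < 1
  · refine ⟨(-z + s) / 2, ?_, h1⟩
    linear_combination (1 / 4 : ℂ) * hs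
  by_cases h2 : ‖(-z - s) / 2‖ < 1
  · refine ⟨(-z - s) / 2, ?_, h2⟩
    linear_combination (1 / 4 : ℂ) * hs
  exfalso
  push Not at h1 h2
  have hprod : ((-z + s) / 2) * ((-z - s) / 2) = 1 := by
    linear_combination (-1 / 4 : ℂ) * hs
  have hn : ‖(-z + s) / 2‖ * ‖(-z - s) / 2‖ = 1 := by
    rw [← norm_mul, hprod, norm_one]
  have h3 : ‖(-z + s) / 2‖ = 1 := by nlinarith [norm_nonneg ((-z + s) / 2)]
  have h4 : ((-z + s) / 2) * (starRingEnd ℂ) ((-z + s) / 2) = 1 := by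
    rw [Complex.mul_conj, Complex.normSq_eq_norm_sq, h3]
    norm_num
  have hne : (-z + s) / 2 ≠ 0 := by
    intro h
    rw [h] at h3
    simp at h3
  have h5 : (-z - s) / 2 = (starRingEnd ℂ) ((-z + s) / 2) :=
    mul_left_cancel₀ hne (hprod.trans h4.symm)
  have h6 : z = -(((-z + s) / 2) + (starRingEnd ℂ) ((-z + s) / 2)) := by
    rw [← h5]; ring
  apply hz
  rw [h6, Complex.neg_im, Complex.add_im, Complex.conj_im]
  ring

theorem rho_nonneg (x : ℝ) : 0 ≤ rho x := by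
  unfold rho
  positivity

theorem rho_le (x : ℝ) : rho x ≤ 1 / Real.pi := by
  unfold rho
  have h1 : Real.sqrt (4 - x ^ 2) ≤ 2 := by
    rw [Real.sqrt_le_left (by norm_num)]
    nlinarith [sq_nonneg x]
  rw [div_le_div_iff₀ (by positivity) Real.pi_pos]
  nlinarith [Real.pi_pos]

theorem rho_continuous : Continuous rho := by
  unfold rho
  fun_prop

lemma subst_cos {E : Type*} [NormedAddCommGroup E] [NormedSpace ℝ E] (g : ℝ → E)
    (hg : Continuous g) :
    ∫ y in (-2 : ℝ)..2, g y = ∫ θ in (0 : ℝ)..Real.pi, (2 * Real.sin θ) • g (2 * Real.cos θ) := by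
  have h := intervalIntegral.integral_deriv_smul_comp (a := 0) (b := Real.pi)
    (f := fun θ => 2 * Real.cos θ) (f' := fun θ => -(2 * Real.sin θ)) (g := g)
    (fun x _ => ((Real.hasDerivAt_cos x).const_mul 2).congr_deriv (by ring))
    (by fun_prop) hg
  simp only [Function.comp, Real.cos_zero, Real.cos_pi, mul_one, mul_neg, neg_smul] at h
  rw [intervalIntegral.integral_neg, intervalIntegral.integral_symm (-2) 2] at h
  exact (neg_injective h).symm

lemma rho_cos (θ : ℝ) (h0 : 0 ≤ θ) (h1 : θ ≤ Real.pi) :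
    rho (2 * Real.cos θ) = Real.sin θ / Real.pi := by
  unfold rho
  have hs : 0 ≤ Real.sin θ := Real.sin_nonneg_of_nonneg_of_le_pi h0 h1
  have h2 : 4 - (2 * Real.cos θ) ^ 2 = (2 * Real.sin θ) ^ 2 := by
    nlinarith [Real.sin_sq_add_cos_sq θ]
  rw [h2, Real.sqrt_sq (by linarith)]
  have := Real.pi_ne_zero
  field_simp

theorem rho_int : ∫ y in (-2 : ℝ)..2, rho y = 1 := by
  rw [subst_cos rho rho_continuous]
  have h : ∫ θ in (0 : ℝ)..Real.pi, (2 * Real.sin θ) • rho (2 * Real.cos θ)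
      = ∫ θ in (0 : ℝ)..Real.pi, (2 / Real.pi) * (Real.sin θ ^ 2) := by
    apply intervalIntegral.integral_congr
    intro θ hθ
    rw [Set.uIcc_of_le Real.pi_pos.le] at hθ
    simp only [smul_eq_mul]
    rw [rho_cos θ hθ.1 hθ.2]
    ring
  rw [h, intervalIntegral.integral_const_mul, integral_sin_sq]
  have := Real.pi_ne_zero
  simp

/-- the variance of the semicircle law is `1` -/
theorem rho_int_sq : ∫ y in (-2 : ℝ)..2, y ^ 2 * rho y = 1 := by
  rw [subst_cos (fun y => y ^ 2 * rho y) (by have := rho_continuous; fun_prop)]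
  have h : ∫ θ in (0 : ℝ)..Real.pi, (2 * Real.sin θ) • ((2 * Real.cos θ) ^ 2 * rho (2 * Real.cos θ))
      = ∫ θ in (0 : ℝ)..Real.pi, (8 / Real.pi) * (Real.sin θ ^ 2 * Real.cos θ ^ 2) := by
    apply intervalIntegral.integral_congr
    intro θ hθ
    rw [Set.uIcc_of_le Real.pi_pos.le] at hθ
    simp only [smul_eq_mul]
    rw [rho_cos θ hθ.1 hθ.2]
    ring
  rw [h, intervalIntegral.integral_const_mul, integral_sin_sq_mul_cos_sq]
  have h4 : Real.sin (4 * Real.pi) = 0 := by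
    have := Real.sin_nat_mul_pi 4
    simpa using this
  have := Real.pi_ne_zero
  simp [h4]

/-- the antiderivative used in `msc_eq_w` -/
noncomputable def antiH (w : ℂ) (θ : ℝ) : ℂ :=
  (θ : ℂ) + Complex.I * Complex.log (1 + w * Complex.exp ((θ : ℂ) * Complex.I))
    - Complex.I * Complex.log (1 + w * Complex.exp (-(θ : ℂ) * Complex.I))

lemma slit_of_norm_lt (u : ℂ) (hu : ‖u‖ < 1) : 1 + u ∈ Complex.slitPlane := by
  left
  have := Complex.abs_re_le_norm u
  have h2 := (abs_le.mp this).1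
  simp only [Complex.add_re, Complex.one_re]
  linarith

lemma hasDerivAt_antiH (w : ℂ) (hw : ‖w‖ < 1) (θ : ℝ) :
    HasDerivAt (antiH w) ((1 - w ^ 2) / (1 + 2 * w * (Real.cos θ : ℂ) + w ^ 2)) θ := by
  have hn1 : ‖w * Complex.exp ((θ : ℂ) * Complex.I)‖ < 1 := by
    rw [norm_mul, Complex.norm_exp_ofReal_mul_I, mul_one]; exact hw
  have hn2 : ‖w * Complex.exp (-(θ : ℂ) * Complex.I)‖ < 1 := by
    have : Complex.exp (-(θ : ℂ) * Complex.I) = Complex.exp (((-θ : ℝ) : ℂ) * Complex.I) := by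
      push_cast; rfl
    rw [norm_mul, this, Complex.norm_exp_ofReal_mul_I, mul_one]; exact hw
  have hs1 := slit_of_norm_lt _ hn1
  have hs2 := slit_of_norm_lt _ hn2
  have hne1 : 1 + w * Complex.exp ((θ : ℂ) * Complex.I) ≠ 0 := Complex.slitPlane_ne_zero hs1
  have hne2 : 1 + w * Complex.exp (-(θ : ℂ) * Complex.I) ≠ 0 := Complex.slitPlane_ne_zero hs2
  have hid : HasDerivAt (fun t : ℝ => (t : ℂ)) 1 θ := by
    simpa using (hasDerivAt_id θ).ofReal_comp
  have he1 : HasDerivAt (fun t : ℝ => Complex.exp ((t : ℂ) * Complex.I))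
      (Complex.exp ((θ : ℂ) * Complex.I) * (1 * Complex.I)) θ :=
    HasDerivAt.cexp (hid.mul_const Complex.I)
  have he2 : HasDerivAt (fun t : ℝ => Complex.exp (-(t : ℂ) * Complex.I))
      (Complex.exp (-(θ : ℂ) * Complex.I) * (-1 * Complex.I)) θ :=
    HasDerivAt.cexp (hid.neg.mul_const Complex.I)
  have hl1 := ((he1.const_mul w).const_add 1).clog_real hs1
  have hl2 := ((he2.const_mul w).const_add 1).clog_real hs2
  have hH := (hid.add (hl1.const_mul Complex.I)).sub (hl2.const_mul Complex.I)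
  have hmul : Complex.exp ((θ : ℂ) * Complex.I) * Complex.exp (-(θ : ℂ) * Complex.I) = 1 := by
    rw [← Complex.exp_add]; simp
  have hcos : (2 : ℂ) * (Real.cos θ : ℂ) = Complex.exp ((θ : ℂ) * Complex.I)
      + Complex.exp (-(θ : ℂ) * Complex.I) := by
    rw [Complex.ofReal_cos, Complex.cos]; ring
  have hD : 1 + 2 * w * (Real.cos θ : ℂ) + w ^ 2
      = (1 + w * Complex.exp ((θ : ℂ) * Complex.I)) * (1 + w * Complex.exp (-(θ : ℂ) * Complex.I)) := by
    have : 2 * w * (Real.cos θ : ℂ) = w * (2 * (Real.cos θ : ℂ)) := by ring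
    rw [this, hcos]
    linear_combination (-w ^ 2) * hmul
  refine (hH.congr_deriv ?_)
  rw [hD]
  generalize hA : Complex.exp ((θ : ℂ) * Complex.I) = A at *
  generalize hB : Complex.exp (-(θ : ℂ) * Complex.I) = B at *
  have hI : Complex.I * Complex.I = -1 := Complex.I_mul_I
  field_simp
  linear_combination (2 * w * w * A * B + w * A + w * B) * hI - (w ^ 2) * hmul
  
theorem msc_eq_w (z w : ℂ) (hz : z.im ≠ 0) (hw : w ^ 2 + z * w + 1 = 0) (hw1 : ‖w‖ < 1) :
    msc z = w := by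
  have hw0 : w ≠ 0 := by
    intro h
    rw [h] at hw
    simp at hw
  have hyz : ∀ y : ℝ, (y : ℂ) - z ≠ 0 := by
    intro y h
    apply hz
    have : z = (y : ℂ) := (sub_eq_zero.mp h).symm
    rw [this]; simp
  have hcont : Continuous (fun y : ℝ => (rho y : ℂ) / ((y : ℂ) - z)) := by
    have := rho_continuous
    exact Continuous.div (by fun_prop) (by fun_prop) hyz
  unfold msc
  rw [subst_cos _ hcont]
  have hDne : ∀ θ : ℝ, 1 + 2 * w * (Real.cos θ : ℂ) + w ^ 2 ≠ 0 := by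
    intro θ h
    apply hyz (2 * Real.cos θ)
    have h1 : w * (((2 * Real.cos θ : ℝ) : ℂ) - z) = 0 := by
      push_cast
      push_cast at h
      linear_combination h - hw
    rcases mul_eq_zero.mp h1 with h2 | h2
    · exact absurd h2 hw0
    · exact h2
  have hpi : (Real.pi : ℂ) ≠ 0 := by exact_mod_cast Real.pi_ne_zero
  have h : ∫ θ in (0 : ℝ)..Real.pi, (2 * Real.sin θ) •
        ((rho (2 * Real.cos θ) : ℂ) / (((2 * Real.cos θ : ℝ) : ℂ) - z))
      = ∫ θ in (0 : ℝ)..Real.pi, (2 * w / (Real.pi : ℂ)) * ((Real.sin θ : ℂ) ^ 2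
        / (1 + 2 * w * (Real.cos θ : ℂ) + w ^ 2)) := by
    apply intervalIntegral.integral_congr
    intro θ hθ
    rw [Set.uIcc_of_le Real.pi_pos.le] at hθ
    have h1 : ((2 * Real.cos θ : ℝ) : ℂ) - z
        = (1 + 2 * w * (Real.cos θ : ℂ) + w ^ 2) / w := by
      rw [eq_div_iff hw0]
      push_cast
      linear_combination -hw
    have h2 := hDne θ
    simp only [Complex.real_smul]
    rw [rho_cos θ hθ.1 hθ.2, h1]
    push_cast
    push_cast at h2
    field_simp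
  rw [h]
  have hder : ∀ θ : ℝ, HasDerivAt (fun t : ℝ => (1 / (2 * (Real.pi : ℂ) * w)) *
      (-(1 - w ^ 2) * antiH w t + (1 + w ^ 2) * (t : ℂ) - 2 * w * (Real.sin t : ℂ)))
      ((2 * w / (Real.pi : ℂ)) * ((Real.sin θ : ℂ) ^ 2
        / (1 + 2 * w * (Real.cos θ : ℂ) + w ^ 2))) θ := by
    intro θ
    have hid : HasDerivAt (fun t : ℝ => (t : ℂ)) 1 θ := by
      simpa using (hasDerivAt_id θ).ofReal_comp
    have hsin : HasDerivAt (fun t : ℝ => (Real.sin t : ℂ)) (Real.cos θ : ℂ) θ :=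
      (Real.hasDerivAt_sin θ).ofReal_comp
    have := ((((hasDerivAt_antiH w hw1 θ).const_mul (-(1 - w ^ 2))).add
      (hid.const_mul (1 + w ^ 2))).sub (hsin.const_mul (2 * w))).const_mul
      (1 / (2 * (Real.pi : ℂ) * w))
    refine this.congr_deriv ?_
    have h2 := hDne θ
    have h3 : (Real.sin θ : ℂ) ^ 2 = 1 - (Real.cos θ : ℂ) ^ 2 := by
      have := Real.sin_sq_add_cos_sq θ
      have h4 : ((Real.sin θ ^ 2 + Real.cos θ ^ 2 : ℝ) : ℂ) = 1 := by rw [this]; simp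
      push_cast at h4
      push_cast
      linear_combination h4
    rw [h3]
    generalize (Real.cos θ : ℂ) = c at *
    field_simp
    ring
  have hint : IntervalIntegrable (fun θ : ℝ => (2 * w / (Real.pi : ℂ)) * ((Real.sin θ : ℂ) ^ 2
        / (1 + 2 * w * (Real.cos θ : ℂ) + w ^ 2))) volume 0 Real.pi := by
    apply Continuous.intervalIntegrable
    refine continuous_const.mul (Continuous.div ?_ ?_ hDne)
    · exact (Complex.continuous_ofReal.comp Real.continuous_sin).pow 2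
    · exact ((continuous_const.mul (Complex.continuous_ofReal.comp Real.continuous_cos)).const_add
        1).add continuous_const
  rw [intervalIntegral.integral_eq_sub_of_hasDerivAt (fun θ _ => hder θ) hint]
  have e1 : antiH w Real.pi = Real.pi := by
    unfold antiH
    have h1 : Complex.exp ((Real.pi : ℂ) * Complex.I) = -1 := Complex.exp_pi_mul_I
    have h2 : Complex.exp (-(Real.pi : ℂ) * Complex.I) = -1 := by
      rw [neg_mul, Complex.exp_neg, h1]; norm_num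
    rw [h1, h2]; ring
  have e0 : antiH w 0 = 0 := by
    unfold antiH
    simp
  rw [e1, e0]
  simp only [Real.sin_pi, Real.sin_zero, Complex.ofReal_zero]
  field_simp
  ring

end Pool.Agent.ZR

end

section

/-!
# ZR/Sp1 : sorted eigenvalues of real symmetric matrices

Proof.  For a real symmetric matrix `A` (`Matrix.IsHermitian A` follows from `A.IsSymm` over `ℝ`)
Mathlib has `Matrix.IsHermitian.spectral_theorem` and the factorisation of the characteristic
polynomial (`Matrix.IsHermitian.charpoly_eq`, `Matrix.IsHermitian.roots_charpoly_eq_eigenvalues`):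
`A.charpoly.roots = Multiset.map hA.eigenvalues univ.val` (after the trivial coercion `RCLike.ofReal`
for `ℝ`).  Hence the number of roots is `N` (`roots_card`), `A.charpoly.roots.sort (· ≤ ·)` is a list
of length `N`, sorted, and `evs A i` is its `i`-th entry (`List.getD`): `evs_le_evs` by
`Multiset.sort_sorted` / `List.pairwise_iff_getElem`, `roots_eq` by `Multiset.sort_eq` and
`List.ofFn` / `List.map_getElem`-type lemmas, `evs_of_ge` because `getD` returns the default value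
past the end (the number of roots is at most the degree `N`, so symmetry is not needed).
`spec_dec`: the multisets `map eigenvalues univ` and `map (evs A) univ` agree, so there is a
permutation `e` of `Fin N` with `eigenvalues (e i) = evs A i`
(`Multiset.map_univ_eq_iff`-type lemma, or `Tuple.sort`: sort the function `eigenvalues`,
`eigenvalues ∘ Tuple.sort eigenvalues` is monotone and a sorted list with the given multiset is
unique, `List.eq_of_perm_of_sorted`).  Permute the columns of the eigenvector matrix accordingly.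
-/


open MeasureTheory ProbabilityTheory Matrix

namespace Pool.Agent.ZR

private theorem isHerm {N : ℕ} {A : Matrix (Fin N) (Fin N) ℝ} (hA : A.IsSymm) :
    A.IsHermitian := by
  rw [Matrix.IsHermitian, Matrix.conjTranspose_eq_transpose_of_trivial]
  exact hA

private theorem roots_map {N : ℕ} {A : Matrix (Fin N) (Fin N) ℝ} (hA : A.IsHermitian) :
    A.charpoly.roots = Multiset.map hA.eigenvalues (Finset.univ : Finset (Fin N)).val := by
  rw [hA.roots_charpoly_eq_eigenvalues]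
  rfl

theorem roots_card {N : ℕ} (A : Matrix (Fin N) (Fin N) ℝ) (hA : A.IsSymm) :
    A.charpoly.roots.card = N := by
  rw [roots_map (isHerm hA), Multiset.card_map]
  simp

private theorem sort_eq_ofFn {N : ℕ} {A : Matrix (Fin N) (Fin N) ℝ} (hA : A.IsHermitian) :
    A.charpoly.roots.sort (· ≤ ·) =
      List.ofFn (fun i : Fin N => hA.eigenvalues (Tuple.sort hA.eigenvalues i)) := by
  have h1 : (A.charpoly.roots.sort (· ≤ ·)).Pairwise (· ≤ ·) := Multiset.pairwise_sort _ _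
  have h2 : (List.ofFn (fun i : Fin N => hA.eigenvalues (Tuple.sort hA.eigenvalues i))).Pairwise
      (· ≤ ·) := by
    have h := Tuple.monotone_sort hA.eigenvalues
    rw [List.pairwise_ofFn]
    intro i j hij
    exact h hij.le
  have h3 : (A.charpoly.roots.sort (· ≤ ·)).Perm
      (List.ofFn (fun i : Fin N => hA.eigenvalues (Tuple.sort hA.eigenvalues i))) := by
    rw [← Multiset.coe_eq_coe, Multiset.sort_eq, roots_map hA, ← Multiset.coe_eq_coe.mpr
      (List.Perm.refl _)]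
    rw [← Fin.univ_val_map]
    conv_rhs => rw [show (fun i : Fin N => hA.eigenvalues (Tuple.sort hA.eigenvalues i)) =
      hA.eigenvalues ∘ (Tuple.sort hA.eigenvalues) from rfl, ← Multiset.map_map]
    congr 1
    exact (Multiset.map_univ_val_equiv (Tuple.sort hA.eigenvalues)).symm
  exact h3.eq_of_pairwise (fun a b _ _ hab hba => le_antisymm hab hba) h1 h2

private theorem evs_eq {N : ℕ} {A : Matrix (Fin N) (Fin N) ℝ} (hA : A.IsHermitian) (i : Fin N) :
    evs A i = hA.eigenvalues (Tuple.sort hA.eigenvalues i) := by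
  rw [evs, sort_eq_ofFn hA, List.getD_eq_getElem _ _ (by simp)]
  simp

theorem evs_le_evs {N : ℕ} (A : Matrix (Fin N) (Fin N) ℝ) (hA : A.IsSymm) {i j : ℕ}
    (hij : i ≤ j) (hj : j < N) : evs A i ≤ evs A j := by
  have hH := isHerm hA
  have h1 := evs_eq hH ⟨i, by omega⟩
  have h2 := evs_eq hH ⟨j, hj⟩
  simp only at h1 h2
  rw [h1, h2]
  exact Tuple.monotone_sort hH.eigenvalues (by simpa [Fin.le_def] using hij)

theorem roots_eq {N : ℕ} (A : Matrix (Fin N) (Fin N) ℝ) (hA : A.IsSymm) :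
    A.charpoly.roots = (Finset.univ : Finset (Fin N)).val.map (fun i => evs A i) := by
  have hH := isHerm hA
  have h : (fun i : Fin N => evs A i) =
      hH.eigenvalues ∘ (Tuple.sort hH.eigenvalues) := by
    funext i
    exact evs_eq hH i
  have h2 : (do let a ← (Finset.univ : Finset (Fin N)).val; pure (a : ℕ) : Multiset ℕ) =
      Multiset.map (fun a : Fin N => (a : ℕ)) (Finset.univ : Finset (Fin N)).val := by
    exact Multiset.bind_singleton _ _
  rw [h2, Multiset.map_map]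
  have h3 : ((fun i : ℕ => evs A i) ∘ fun a : Fin N => (a : ℕ)) =
      hH.eigenvalues ∘ (Tuple.sort hH.eigenvalues) := h
  rw [h3, ← Multiset.map_map, Multiset.map_univ_val_equiv, roots_map hH]

theorem evs_of_ge {N : ℕ} (A : Matrix (Fin N) (Fin N) ℝ) (i : ℕ) (h : N ≤ i) : evs A i = 0 := by
  rw [evs, List.getD_eq_default]
  rw [Multiset.length_sort]
  refine le_trans (Polynomial.card_roots' _) ?_
  rw [Matrix.charpoly_natDegree_eq_dim]
  simpa using h

theorem spec_dec {N : ℕ} (A : Matrix (Fin N) (Fin N) ℝ) (hA : A.IsSymm) :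
    ∃ U : Matrix (Fin N) (Fin N) ℝ, U * Uᵀ = 1 ∧ Uᵀ * U = 1 ∧
      A = U * Matrix.diagonal (fun i : Fin N => evs A i) * Uᵀ := by
  have hH := isHerm hA
  set σ := Tuple.sort hH.eigenvalues with hσ
  set E : Matrix (Fin N) (Fin N) ℝ := (hH.eigenvectorUnitary : Matrix (Fin N) (Fin N) ℝ) with hE
  have hE1 : E * Eᵀ = 1 := by
    have := Unitary.coe_mul_star_self hH.eigenvectorUnitary
    rw [Unitary.coe_star, Matrix.star_eq_conjTranspose, Matrix.conjTranspose_eq_transpose_of_trivial] at this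
    exact this
  have hE2 : Eᵀ * E = 1 := by
    have := Unitary.coe_star_mul_self hH.eigenvectorUnitary
    rw [Matrix.star_eq_conjTranspose, Matrix.conjTranspose_eq_transpose_of_trivial] at this
    exact this
  have hA1 : A = E * Matrix.diagonal hH.eigenvalues * Eᵀ := by
    have := hH.spectral_theorem
    rw [Unitary.conjStarAlgAut_apply] at this
    rw [Matrix.star_eq_conjTranspose, Matrix.conjTranspose_eq_transpose_of_trivial] at this
    exact this
  refine ⟨E.submatrix id σ, ?_, ?_, ?_⟩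
  · rw [Matrix.transpose_submatrix, Matrix.submatrix_mul_equiv, hE1]
    simp
  · rw [Matrix.transpose_submatrix]
    have := Matrix.submatrix_mul_equiv Eᵀ E σ (Equiv.refl (Fin N)) σ
    simp only [Equiv.coe_refl] at this
    rw [this, hE2]
    simp
  · have hd : Matrix.diagonal (fun i : Fin N => evs A i) =
        (Matrix.diagonal hH.eigenvalues).submatrix σ σ := by
      ext i j
      simp only [Matrix.diagonal_apply, Matrix.submatrix_apply, EmbeddingLike.apply_eq_iff_eq]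
      split_ifs with h
      · exact evs_eq hH i
      · rfl
    rw [hd, Matrix.transpose_submatrix, Matrix.submatrix_mul_equiv, Matrix.submatrix_mul_equiv,
      ← hA1]
    simp

end Pool.Agent.ZR

end

section

/-!
# ZR/Sp2 : conjugation invariance of the characteristic polynomial

Proof.  `charpoly_conj`: `O` is a unit with inverse `Oᵀ`, Mathlib has
`Matrix.charpoly_units_conj` (or: `charmatrix (O A Oᵀ) = O charmatrix(A) Oᵀ` and `det`).
`evs_conj`, `cnt_conj`, ... follow because the definitions only use `charpoly`.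
`roots_diag`: `Matrix.charpoly_diagonal`?  else `charpoly` of a diagonal matrix is
`∏ (X - C (d i))` (`Matrix.det_diagonal` after `charmatrix` of a diagonal matrix is diagonal),
`Polynomial.roots_prod_X_sub_C` / `roots_multiset_prod_X_sub_C`.
-/


open MeasureTheory ProbabilityTheory Matrix

namespace Pool.Agent.ZR

theorem charpoly_conj {N : ℕ} (A O : Matrix (Fin N) (Fin N) ℝ) (h1 : O * Oᵀ = 1)
    (h2 : Oᵀ * O = 1) : (O * A * Oᵀ).charpoly = A.charpoly := by
  have hinv : O⁻¹ = Oᵀ := Matrix.inv_eq_right_inv h1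
  have h := Matrix.charpoly_units_conj (⟨O, Oᵀ, h1, h2⟩ : (Matrix (Fin N) (Fin N) ℝ)ˣ) A
  have h' : (O * A * O⁻¹).charpoly = A.charpoly := h
  rwa [hinv] at h'

theorem evs_conj {N : ℕ} (A O : Matrix (Fin N) (Fin N) ℝ) (h1 : O * Oᵀ = 1)
    (h2 : Oᵀ * O = 1) (i : ℕ) : evs (O * A * Oᵀ) i = evs A i := by
  unfold evs
  rw [charpoly_conj A O h1 h2]

theorem roots_diag {N : ℕ} (d : Fin N → ℝ) :
    (Matrix.diagonal d).charpoly.roots = (Finset.univ : Finset (Fin N)).val.map d := by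
  rw [Matrix.charpoly_diagonal]
  have := Polynomial.roots_multiset_prod_X_sub_C ((Finset.univ : Finset (Fin N)).val.map d)
  rw [Multiset.map_map] at this
  exact this

/-- the sorted eigenvalues of a diagonal matrix with increasing entries are its entries -/
theorem evs_diag {N : ℕ} (d : Fin N → ℝ) (hd : Monotone d) (i : Fin N) :
    evs (Matrix.diagonal d) i = d i := by
  have h : (Matrix.diagonal d).charpoly.roots.sort (· ≤ ·) = List.ofFn d := by
    rw [roots_diag]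
    have h1 : (((Finset.univ : Finset (Fin N)).val.map d).sort (· ≤ ·)).Pairwise (· ≤ ·) :=
      Multiset.pairwise_sort _ _
    have h2 : (List.ofFn d).Pairwise (· ≤ ·) := by
      rw [List.pairwise_ofFn]
      intro i j hij
      exact hd hij.le
    have h3 : (((Finset.univ : Finset (Fin N)).val.map d).sort (· ≤ ·)).Perm (List.ofFn d) := by
      rw [← Multiset.coe_eq_coe, Multiset.sort_eq, Fin.univ_val_map]
    exact h3.eq_of_pairwise (fun a b _ _ hab hba => le_antisymm hab hba) h1 h2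
  unfold evs
  rw [h]
  simp [List.getD_eq_getElem?_getD]

end Pool.Agent.ZR

end

section

/-!
# ZR/A2 : the four-cycle switching identity (trapezoid form)

Let `i, j, k, l` be distinct, `a, b, c, d = M_ij, M_jk, M_kl, M_li`.  The pattern is alternating if
`a = -b = c = -d`; `alt8 a b c d = (1 - ab)(1 - bc)(1 - cd)` expanded with `a²=b²=c²=d²=1`, i.e.
`1 - ab + ac - ad - bc + bd - cd + abcd`, equal to `8` on alternating patterns and `0` otherwise
(for `a,b,c,d = ±1`; 16 cases).  `s8 = a - b + c - d - abc + abd - acd + bcd = a * alt8` for signs.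
On alternating patterns the mask `cyc i j k l` is balanced (row `i` has the entries `a, d`, row `j`
has `a, b`, ...), and conversely a pattern (symmetric) balanced on the mask is alternating.  The
switched matrix is `M - 2 a ξ`, `ξ = Xi i j k l = E^{ij} - E^{jk} + E^{kl} - E^{li}`
(`flip` changes `M_ij = a` into `a - 2a`, `M_jk = b = -a` into `a = b - 2a(-1)`, ...).

Identity.  With `sw` = flip on alternating patterns: `EU_flip` with `g σ = alt8 a f(σ)` (the value of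
`alt8 * a` changes sign under the flip, `alt8` is invariant) gives
`EU[alt8 a f] = - EU[alt8 a f∘sw]`, so `EU[s8 f] = -½ EU[alt8 a (f∘sw - f)]`.
Insert `f(sw σ) - f σ = - a (D σ + D (sw σ)) + R`, `‖R‖ ≤ r σ` on alternating patterns:
`EU[s8 f] = ½ EU[alt8 (D + D∘sw)] - ½ EU[alt8 a R] = EU[alt8 D] - ½ EU[alt8 a R]`
(`EU[alt8 D∘sw] = EU[alt8 D]` by `EU_flip`), and `|½ EU[alt8 a R]| ≤ 4 EU[r]` as `r ≥ 0`,
`alt8 ≤ 8`.
-/

set_option linter.unusedSimpArgs false

open MeasureTheory ProbabilityTheory Matrix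

namespace Pool.Agent.ZR

/-- mask of the four-cycle -/
def cyc {n : ℕ} (i j k l : Fin n) : Fin n → Fin n → Bool := fun x y => decide
  ((x = i ∧ y = j) ∨ (x = j ∧ y = i) ∨ (x = j ∧ y = k) ∨ (x = k ∧ y = j) ∨
   (x = k ∧ y = l) ∨ (x = l ∧ y = k) ∨ (x = l ∧ y = i) ∨ (x = i ∧ y = l))

/-- `8 * 1_alternating` -/
def alt8 (a b c d : ℝ) : ℝ :=
  1 - a * b + a * c - a * d - b * c + b * d - c * d + a * b * c * d

/-- `a * alt8` -/
def s8 (a b c d : ℝ) : ℝ :=
  a - b + c - d - a * b * c + a * b * d - a * c * d + b * c * d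

/-- alternating pattern -/
def Alt4 {n : ℕ} (i j k l : Fin n) (σ : Fin n → Fin n → Bool) : Prop :=
  σ i j ≠ σ j k ∧ σ j k ≠ σ k l ∧ σ k l ≠ σ l i

instance {n : ℕ} (i j k l : Fin n) (σ : Fin n → Fin n → Bool) : Decidable (Alt4 i j k l σ) := by
  unfold Alt4; infer_instance

/-- `E^{ij} = e_i e_jᵀ + e_j e_iᵀ` -/
def Es {n : ℕ} (i j : Fin n) : Matrix (Fin n) (Fin n) ℝ :=
  Matrix.of fun x y => (if x = i ∧ y = j then (1 : ℝ) else 0) + (if x = j ∧ y = i then 1 else 0)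

/-- direction of the four-cycle -/
def Xi {n : ℕ} (i j k l : Fin n) : Matrix (Fin n) (Fin n) ℝ :=
  Es i j - Es j k + Es k l - Es l i

theorem Es_symm {n : ℕ} (i j x y : Fin n) : Es i j y x = Es i j x y := by
  simp only [Es, Matrix.of_apply]
  have e1 : (y = i ∧ x = j) ↔ (x = j ∧ y = i) := and_comm
  have e2 : (y = j ∧ x = i) ↔ (x = i ∧ y = j) := and_comm
  simp only [e1, e2]
  ring

theorem Xi_symm {n : ℕ} (i j k l : Fin n) : (Xi i j k l)ᵀ = Xi i j k l := by
  ext x y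
  simp only [Xi, Matrix.transpose_apply, Matrix.sub_apply, Matrix.add_apply, Es_symm]

theorem Es_col {n : ℕ} (i j y : Fin n) :
    ∑ x, Es i j x y = (if y = j then (1 : ℝ) else 0) + (if y = i then 1 else 0) := by
  simp only [Es, Matrix.of_apply, Finset.sum_add_distrib, ite_and, Finset.sum_ite_eq',
    Finset.mem_univ, if_true]

theorem Xi_col {n : ℕ} (i j k l y : Fin n) : ∑ x, Xi i j k l x y = 0 := by
  simp only [Xi, Matrix.sub_apply, Matrix.add_apply, Finset.sum_add_distrib,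
    Finset.sum_sub_distrib, Es_col]
  ring

/-- `Xi` kills the constant vector, hence `P Xi = Xi P = Xi` -/
theorem Xi_Pn {n : ℕ} (i j k l : Fin n) :
    Pn n * Xi i j k l = Xi i j k l ∧ Xi i j k l * Pn n = Xi i j k l := by
  have h1 : Matrix.of (fun _ _ : Fin n => (1 : ℝ)) * Xi i j k l = 0 := by
    ext x y
    simp only [Matrix.mul_apply, Matrix.of_apply, one_mul, Xi_col, Matrix.zero_apply]
  have h2 : Pn n * Xi i j k l = Xi i j k l := by
    rw [Pn, Matrix.sub_mul, Matrix.one_mul, Matrix.smul_mul, h1, smul_zero, sub_zero]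
  have h3 : (Pn n)ᵀ = Pn n := by
    rw [Pn, Matrix.transpose_sub, Matrix.transpose_one, Matrix.transpose_smul]
    congr 2
  refine ⟨h2, ?_⟩
  have h4 := congrArg Matrix.transpose h2
  rwa [Matrix.transpose_mul, h3, Xi_symm] at h4

theorem s8_eq {a b c d : ℝ} (ha : a ^ 2 = 1) : s8 a b c d = a * alt8 a b c d := by
  unfold s8 alt8
  linear_combination (b - c + d - b * c * d) * ha

theorem alt8_cases {a b c d : ℝ} (ha : a ^ 2 = 1) (hb : b ^ 2 = 1) (hc : c ^ 2 = 1)
    (hd : d ^ 2 = 1) : alt8 a b c d = if (a = -b ∧ b = -c ∧ c = -d) then 8 else 0 := by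
  have key : ∀ x : ℝ, x ^ 2 = 1 → x = 1 ∨ x = -1 := fun x hx =>
    mul_self_eq_one_iff.1 (by rw [← pow_two]; exact hx)
  rcases key a ha with rfl | rfl <;>
  rcases key b hb with rfl | rfl <;>
  rcases key c hc with rfl | rfl <;>
  rcases key d hd with rfl | rfl <;>
  norm_num [alt8]

theorem Mx_apply {n : ℕ} (σ : Fin n → Fin n → Bool) (x y : Fin n) :
    Mx σ x y = if σ x y then (1 : ℝ) else -1 := rfl

theorem alt8_eq {n : ℕ} (i j k l : Fin n) (σ : Fin n → Fin n → Bool) :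
    alt8 (Mx σ i j) (Mx σ j k) (Mx σ k l) (Mx σ l i) = if Alt4 i j k l σ then 8 else 0 := by
  by_cases h : Alt4 i j k l σ
  · rw [if_pos h]
    unfold Alt4 at h
    simp only [Mx_apply]
    revert h
    generalize σ i j = a
    generalize σ j k = b
    generalize σ k l = c
    generalize σ l i = d
    cases a <;> cases b <;> cases c <;> cases d <;> norm_num [alt8]
  · rw [if_neg h]
    unfold Alt4 at h
    simp only [Mx_apply]
    revert h
    generalize σ i j = a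
    generalize σ j k = b
    generalize σ k l = c
    generalize σ l i = d
    cases a <;> cases b <;> cases c <;> cases d <;> norm_num [alt8]

theorem cyc_symm {n : ℕ} (i j k l x y : Fin n) : cyc i j k l x y = cyc i j k l y x := by
  unfold cyc
  congr 1
  apply propext
  tauto

theorem sum_two {n : ℕ} {p q : Fin n} (hpq : p ≠ q) (f : Fin n → ℤ) :
    ∑ y, (if (y = p ∨ y = q) then f y else 0) = f p + f q := by
  have h : ∀ y, (if (y = p ∨ y = q) then f y else 0) =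
      (if y = p then f y else 0) + (if y = q then f y else 0) := by
    intro y
    by_cases h1 : y = p
    · have h2 : y ≠ q := fun h => hpq (h1.symm.trans h)
      simp [h1, hpq]
    · simp [h1]
  simp only [h, Finset.sum_add_distrib, Finset.sum_ite_eq', Finset.mem_univ, if_true]

/-- the sign of an entry -/
def sg (b : Bool) : ℤ := if b then 1 else -1

theorem sg_add {a b : Bool} : sg a + sg b = 0 ↔ a ≠ b := by
  cases a <;> cases b <;> simp [sg]

theorem bal_rows {n : ℕ} {i j k l : Fin n} (h1 : i ≠ j) (h2 : i ≠ k) (h3 : i ≠ l) (h4 : j ≠ k)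
    (h5 : j ≠ l) (h6 : k ≠ l) (σ : Fin n → Fin n → Bool) :
    Bal (cyc i j k l) σ ↔ (sg (σ i j) + sg (σ i l) = 0 ∧ sg (σ j i) + sg (σ j k) = 0 ∧
      sg (σ k j) + sg (σ k l) = 0 ∧ sg (σ l k) + sg (σ l i) = 0) := by
  have key : ∀ x, ∑ y, (if cyc i j k l x y then (if σ x y then (1 : ℤ) else -1) else 0) =
      if x = i then sg (σ i j) + sg (σ i l) else if x = j then sg (σ j i) + sg (σ j k) else
      if x = k then sg (σ k j) + sg (σ k l) else if x = l then sg (σ l k) + sg (σ l i) else 0 := by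
    intro x
    by_cases hi : x = i
    · subst hi
      rw [if_pos rfl, ← sum_two h5 (fun y => sg (σ x y))]
      refine Finset.sum_congr rfl fun y _ => ?_
      have : (cyc x j k l x y = true) ↔ (y = j ∨ y = l) := by
        simp [cyc, h1, h2, h3]
      simp only [this, sg]
    rw [if_neg hi]
    by_cases hj : x = j
    · subst hj
      rw [if_pos rfl, ← sum_two h2 (fun y => sg (σ x y))]
      refine Finset.sum_congr rfl fun y _ => ?_
      have : (cyc i x k l x y = true) ↔ (y = i ∨ y = k) := by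
        simp [cyc, h1.symm, h4, h5]
      simp only [this, sg]
    rw [if_neg hj]
    by_cases hk : x = k
    · subst hk
      rw [if_pos rfl, ← sum_two h5 (fun y => sg (σ x y))]
      refine Finset.sum_congr rfl fun y _ => ?_
      have : (cyc i j x l x y = true) ↔ (y = j ∨ y = l) := by
        simp [cyc, h2.symm, h4.symm, h6]
      simp only [this, sg]
    rw [if_neg hk]
    by_cases hl : x = l
    · subst hl
      rw [if_pos rfl, ← sum_two h2.symm (fun y => sg (σ x y))]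
      refine Finset.sum_congr rfl fun y _ => ?_
      have : (cyc i j k x x y = true) ↔ (y = k ∨ y = i) := by
        simp [cyc, h3.symm, h5.symm, h6.symm]
      simp only [this, sg]
    rw [if_neg hl]
    refine Finset.sum_eq_zero fun y _ => ?_
    have : ¬ (cyc i j k l x y = true) := by
      simp [cyc, hi, hj, hk, hl]
    simp only [this, if_false]
    rfl
  unfold Bal
  constructor
  · intro h
    refine ⟨?_, ?_, ?_, ?_⟩
    · have := h i
      rw [key] at this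
      simpa using this
    · have := h j
      rw [key] at this
      simpa [h1.symm] using this
    · have := h k
      rw [key] at this
      simpa [h2.symm, h4.symm] using this
    · have := h l
      rw [key] at this
      simpa [h3.symm, h5.symm, h6.symm] using this
  · rintro ⟨e1, e2, e3, e4⟩ x
    rw [key, e1, e2, e3, e4]
    simp

theorem symm_of_mem {n : ℕ} {σ : Fin n → Fin n → Bool} (hσ : σ ∈ Sn n) (x y : Fin n) :
    σ x y = σ y x :=
  (Finset.mem_filter.1 hσ).2.1 x y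

theorem bal_iff {n : ℕ} {i j k l : Fin n} (h1 : i ≠ j) (h2 : i ≠ k) (h3 : i ≠ l) (h4 : j ≠ k)
    (h5 : j ≠ l) (h6 : k ≠ l) {σ : Fin n → Fin n → Bool} (hσ : σ ∈ Sn n) :
    Bal (cyc i j k l) σ ↔ Alt4 i j k l σ := by
  rw [bal_rows h1 h2 h3 h4 h5 h6]
  simp only [sg_add]
  have hs := symm_of_mem hσ
  rw [hs i l, hs j i, hs k j, hs l k]
  unfold Alt4
  generalize σ i j = a
  generalize σ j k = b
  generalize σ k l = c
  generalize σ l i = d
  cases a <;> cases b <;> cases c <;> cases d <;> simp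

theorem flip_mem {n : ℕ} {i j k l : Fin n} (h1 : i ≠ j) (h2 : i ≠ k) (h3 : i ≠ l) (h4 : j ≠ k)
    (h5 : j ≠ l) (h6 : k ≠ l) {σ : Fin n → Fin n → Bool} (hσ : σ ∈ Sn n)
    (ha : Alt4 i j k l σ) : flipP (cyc i j k l) σ ∈ Sn n ∧ Alt4 i j k l (flipP (cyc i j k l) σ) := by
  have hb := (bal_iff h1 h2 h3 h4 h5 h6 hσ).2 ha
  have hm := flipP_mem (cyc i j k l) σ (cyc_symm i j k l) hσ hb
  exact ⟨hm, (bal_iff h1 h2 h3 h4 h5 h6 hm).1 ((bal_flip _ _).2 hb)⟩

theorem Mx_switch {n : ℕ} {i j k l : Fin n} (h1 : i ≠ j) (h2 : i ≠ k) (h3 : i ≠ l) (h4 : j ≠ k)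
    (h5 : j ≠ l) (h6 : k ≠ l) {σ : Fin n → Fin n → Bool} (hσ : σ ∈ Sn n)
    (ha : Alt4 i j k l σ) :
    Mx (flipP (cyc i j k l) σ) = Mx σ - (2 * Mx σ i j) • Xi i j k l := by
  have hs := symm_of_mem hσ
  have hM : ∀ x y, Mx σ x y = Mx σ y x := by
    intro x y
    rw [Mx_apply, Mx_apply, hs x y]
  have hab : Mx σ j k = - Mx σ i j ∧ Mx σ k l = Mx σ i j ∧ Mx σ l i = - Mx σ i j := by
    simp only [Mx_apply]
    obtain ⟨e1, e2, e3⟩ := ha
    revert e1 e2 e3
    generalize σ i j = a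
    generalize σ j k = b
    generalize σ k l = c
    generalize σ l i = d
    cases a <;> cases b <;> cases c <;> cases d <;> simp
  obtain ⟨hb, hc, hd⟩ := hab
  ext x y
  rw [Mx_flipP, Matrix.sub_apply, Matrix.smul_apply, smul_eq_mul]
  by_cases hE : cyc i j k l x y = true
  · rw [if_pos hE]
    have hE' := hE
    simp only [cyc, decide_eq_true_eq] at hE'
    rcases hE' with ⟨rfl, rfl⟩ | ⟨rfl, rfl⟩ | ⟨rfl, rfl⟩ | ⟨rfl, rfl⟩ | ⟨rfl, rfl⟩ | ⟨rfl, rfl⟩ |
      ⟨rfl, rfl⟩ | ⟨rfl, rfl⟩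
    · simp [Xi, Es, h1, h2, h3, h4, h5, h6, h1.symm, h2.symm, h3.symm, h4.symm, h5.symm, h6.symm]
      ring
    · simp [Xi, Es, h1, h2, h3, h4, h5, h6, h1.symm, h2.symm, h3.symm, h4.symm, h5.symm, h6.symm]
      rw [hM x y]
      ring
    · rw [hb]
      simp [Xi, Es, h1, h2, h3, h4, h5, h6, h1.symm, h2.symm, h3.symm, h4.symm, h5.symm, h6.symm]
      ring
    · rw [hM x y, hb]
      simp [Xi, Es, h1, h2, h3, h4, h5, h6, h1.symm, h2.symm, h3.symm, h4.symm, h5.symm, h6.symm]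
      ring
    · rw [hc]
      simp [Xi, Es, h1, h2, h3, h4, h5, h6, h1.symm, h2.symm, h3.symm, h4.symm, h5.symm, h6.symm]
      ring
    · rw [hM x y, hc]
      simp [Xi, Es, h1, h2, h3, h4, h5, h6, h1.symm, h2.symm, h3.symm, h4.symm, h5.symm, h6.symm]
      ring
    · rw [hd]
      simp [Xi, Es, h1, h2, h3, h4, h5, h6, h1.symm, h2.symm, h3.symm, h4.symm, h5.symm, h6.symm]
      ring
    · rw [hM x y, hd]
      simp [Xi, Es, h1, h2, h3, h4, h5, h6, h1.symm, h2.symm, h3.symm, h4.symm, h5.symm, h6.symm]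
      ring
  · rw [if_neg hE]
    simp only [cyc, decide_eq_true_eq, not_or] at hE
    obtain ⟨e1, e2, e3, e4, e5, e6, e7, e8⟩ := hE
    simp [Xi, Es, e1, e2, e3, e4, e5, e6, e7, e8]

/-- The switching identity in trapezoid form. -/
theorem cyc_identity {n : ℕ} {i j k l : Fin n} (h1 : i ≠ j) (h2 : i ≠ k) (h3 : i ≠ l)
    (h4 : j ≠ k) (h5 : j ≠ l) (h6 : k ≠ l) (f D : (Fin n → Fin n → Bool) → ℂ)
    (r : (Fin n → Fin n → Bool) → ℝ) (hr0 : ∀ σ ∈ Sn n, 0 ≤ r σ)
    (hr : ∀ σ ∈ Sn n, Alt4 i j k l σ →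
      ‖f (flipP (cyc i j k l) σ) - f σ + (Mx σ i j : ℂ) * (D σ + D (flipP (cyc i j k l) σ))‖ ≤ r σ) :
    ‖EU (fun σ => (s8 (Mx σ i j) (Mx σ j k) (Mx σ k l) (Mx σ l i) : ℂ) * f σ)
      - EU (fun σ => (alt8 (Mx σ i j) (Mx σ j k) (Mx σ k l) (Mx σ l i) : ℂ) * D σ)‖
      ≤ 4 * EU r := by
  set E := cyc i j k l with hEdef
  have hsym : ∀ x y, E x y = E y x := cyc_symm i j k l
  have hbal : ∀ σ ∈ Sn n, (Bal E σ ↔ Alt4 i j k l σ) := fun σ hσ => bal_iff h1 h2 h3 h4 h5 h6 hσ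
  have hsq : ∀ σ : Fin n → Fin n → Bool, (Mx σ i j) ^ 2 = 1 := by
    intro σ
    rw [Mx_apply]
    split_ifs <;> norm_num
  have hsqC : ∀ σ : Fin n → Fin n → Bool, (Mx σ i j : ℂ) * (Mx σ i j : ℂ) = 1 := by
    intro σ
    have := hsq σ
    rw [pow_two] at this
    exact_mod_cast this
  have hflipij : ∀ σ : Fin n → Fin n → Bool, (Mx (flipP E σ) i j : ℂ) = - (Mx σ i j : ℂ) := by
    intro σ
    have hij : E i j = true := by simp [hEdef, cyc]
    rw [Mx_flipP, if_pos hij]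
    push_cast
    rfl
  -- the two averages, written with the indicator of balanced patterns
  have hS : EU (fun σ => (s8 (Mx σ i j) (Mx σ j k) (Mx σ k l) (Mx σ l i) : ℂ) * f σ) =
      EU (fun σ => if Bal E σ then 8 * (Mx σ i j : ℂ) * f σ else 0) := by
    refine EU_congr fun σ hσ => ?_
    rw [s8_eq (hsq σ), alt8_eq]
    by_cases hB : Bal E σ
    · rw [if_pos hB, if_pos ((hbal σ hσ).1 hB)]
      push_cast
      ring
    · rw [if_neg hB, if_neg (fun h => hB ((hbal σ hσ).2 h))]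
      simp
  have hT : EU (fun σ => (alt8 (Mx σ i j) (Mx σ j k) (Mx σ k l) (Mx σ l i) : ℂ) * D σ) =
      EU (fun σ => if Bal E σ then 8 * D σ else 0) := by
    refine EU_congr fun σ hσ => ?_
    rw [alt8_eq]
    by_cases hB : Bal E σ
    · rw [if_pos hB, if_pos ((hbal σ hσ).1 hB)]
      push_cast
      ring
    · rw [if_neg hB, if_neg (fun h => hB ((hbal σ hσ).2 h))]
      simp
  have hS2 : EU (fun σ => if Bal E σ then 8 * (Mx σ i j : ℂ) * f σ else 0) =
      EU (fun σ => if Bal E σ then - (8 * (Mx σ i j : ℂ) * f (flipP E σ)) else 0) := by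
    rw [← EU_flip E hsym (fun σ => 8 * (Mx σ i j : ℂ) * f σ)]
    refine EU_congr fun σ _ => ?_
    split_ifs
    · rw [hflipij]
      ring
    · rfl
  have hT2 : EU (fun σ => if Bal E σ then 8 * D σ else 0) =
      EU (fun σ => if Bal E σ then 8 * D (flipP E σ) else 0) := by
    rw [← EU_flip E hsym (fun σ => 8 * D σ)]
  rw [hS, hT]
  set S := EU (fun σ => if Bal E σ then 8 * (Mx σ i j : ℂ) * f σ else 0) with hSdef
  set T := EU (fun σ => if Bal E σ then 8 * D σ else 0) with hTdef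
  have hkey : S - T = EU (fun σ => if Bal E σ then (-4 * (Mx σ i j : ℂ)) *
      (f (flipP E σ) - f σ + (Mx σ i j : ℂ) * (D σ + D (flipP E σ))) else 0) := by
    have e1 : 2 * (S - T) = (S + S) - (T + T) := by ring
    have e2 : (S + S) - (T + T) = EU (fun σ =>
        ((if Bal E σ then 8 * (Mx σ i j : ℂ) * f σ else 0) +
          (if Bal E σ then - (8 * (Mx σ i j : ℂ) * f (flipP E σ)) else 0)) -
        ((if Bal E σ then 8 * D σ else 0) + (if Bal E σ then 8 * D (flipP E σ) else 0))) := by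
      rw [EU_sub, EU_add, EU_add, ← hS2, ← hT2]
    have e3 : EU (fun σ =>
        ((if Bal E σ then 8 * (Mx σ i j : ℂ) * f σ else 0) +
          (if Bal E σ then - (8 * (Mx σ i j : ℂ) * f (flipP E σ)) else 0)) -
        ((if Bal E σ then 8 * D σ else 0) + (if Bal E σ then 8 * D (flipP E σ) else 0))) =
        2 * EU (fun σ => if Bal E σ then (-4 * (Mx σ i j : ℂ)) *
          (f (flipP E σ) - f σ + (Mx σ i j : ℂ) * (D σ + D (flipP E σ))) else 0) := by
      rw [← EU_mul_left]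
      refine EU_congr fun σ _ => ?_
      by_cases hB : Bal E σ
      · simp only [if_pos hB]
        linear_combination (8 * (D σ + D (flipP E σ))) * (hsqC σ)
      · simp only [if_neg hB]
        ring
    have e4 := e1.trans (e2.trans e3)
    exact mul_left_cancel₀ two_ne_zero e4
  rw [hkey]
  refine (EU_norm_le _).trans ?_
  have h4r : 4 * EU r = EU (fun σ => (4 : ℝ) • r σ) := by
    rw [EU_smul, smul_eq_mul]
  rw [h4r]
  refine EU_mono fun σ hσ => ?_
  rw [smul_eq_mul]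
  by_cases hB : Bal E σ
  · rw [if_pos hB, norm_mul, norm_mul, norm_neg]
    have hn : ‖(Mx σ i j : ℂ)‖ = 1 := by
      have h := congrArg (fun z : ℂ => ‖z‖) (hsqC σ)
      simp only [norm_mul, norm_one] at h
      nlinarith [norm_nonneg (Mx σ i j : ℂ)]
    rw [hn]
    have := hr σ hσ ((hbal σ hσ).1 hB)
    simp only [Complex.norm_ofNat, mul_one]
    linarith
  · rw [if_neg hB, norm_zero]
    have := hr0 σ hσ
    linarith

end Pool.Agent.ZR

end

section

/-!
# ZR/A4 : switching of a principal `2 × 2` minor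

`i ≠ j`, `a, b, c = M_ii, M_ij, M_jj`.  The mask `{(i,i), (i,j), (j,i), (j,j)}` is balanced iff
`a = -b = c`.  `alt4 = 1 - ab + ac - bc = 4 * 1_{a=-b=c}` and `a * alt4 = a - b + c - abc = s4` for
signs.  Flipping negates the three values, so `EU[alt4 a f] = - EU[alt4 a f∘flip]`, hence
`EU[s4 f] = -½ EU[alt4 a (f∘flip - f)]` and `‖EU[s4 f]‖ ≤ 2 EU[1_alt ‖f∘flip - f‖]`.
The switched matrix is `M - 2a (E_ii - E^{ij} + E_jj)`.
-/


open MeasureTheory ProbabilityTheory Matrix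

namespace Pool.Agent.ZR

/-- mask of the principal minor -/
def mnr {n : ℕ} (i j : Fin n) : Fin n → Fin n → Bool := fun x y => decide
  ((x = i ∨ x = j) ∧ (y = i ∨ y = j))

/-- alternating minor -/
def AltM {n : ℕ} (i j : Fin n) (σ : Fin n → Fin n → Bool) : Prop :=
  σ i i ≠ σ i j ∧ σ i j ≠ σ j j

instance {n : ℕ} (i j : Fin n) (σ : Fin n → Fin n → Bool) : Decidable (AltM i j σ) := by
  unfold AltM; infer_instance

/-- row sums of the mask -/
theorem mnr_row {n : ℕ} {i j : Fin n} (h1 : i ≠ j) (σ : Fin n → Fin n → Bool) (x : Fin n) :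
    ∑ y, (if mnr i j x y then (if σ x y then (1 : ℤ) else -1) else 0)
      = if x = i ∨ x = j then
          (if σ x i then (1 : ℤ) else -1) + (if σ x j then (1 : ℤ) else -1) else 0 := by
  by_cases hx : x = i ∨ x = j
  · rw [if_pos hx, Fintype.sum_eq_add i j h1]
    · simp [mnr, hx]
    · intro y hy
      have : ¬ (y = i ∨ y = j) := by
        rintro (h | h)
        · exact hy.1 h
        · exact hy.2 h
      simp [mnr, this]
  · rw [if_neg hx]
    apply Finset.sum_eq_zero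
    intro y _
    simp [mnr, hx]

theorem bal_iff_alt {n : ℕ} {i j : Fin n} (h1 : i ≠ j) {σ : Fin n → Fin n → Bool}
    (hs : σ i j = σ j i) : Bal (mnr i j) σ ↔ AltM i j σ := by
  unfold Bal AltM
  constructor
  · intro h
    have hi := h i
    have hj := h j
    rw [mnr_row h1 σ i, if_pos (Or.inl rfl)] at hi
    rw [mnr_row h1 σ j, if_pos (Or.inr rfl), ← hs] at hj
    cases ha : σ i i <;> cases hb : σ i j <;> cases hc : σ j j <;> simp_all
  · rintro ⟨ha, hc⟩ x
    rw [mnr_row h1 σ x]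
    by_cases hx : x = i ∨ x = j
    · rw [if_pos hx]
      rcases hx with rfl | rfl
      · cases ha' : σ x x <;> cases hb : σ x j <;> simp_all
      · rw [← hs]
        cases hb : σ i x <;> cases hc' : σ x x <;> simp_all
    · rw [if_neg hx]

theorem mnr_symm {n : ℕ} (i j : Fin n) (x y : Fin n) : mnr i j x y = mnr i j y x := by
  unfold mnr
  congr 1
  exact propext And.comm

theorem alt_flip {n : ℕ} {i j : Fin n} {σ : Fin n → Fin n → Bool} (ha : AltM i j σ) :
    AltM i j (flipP (mnr i j) σ) := by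
  obtain ⟨h2, h3⟩ := ha
  unfold AltM flipP mnr
  constructor
  · simp only [true_or, or_true, and_self, decide_true, Bool.true_xor]
    intro h
    exact h2 (Bool.not_inj h)
  · simp only [true_or, or_true, and_self, decide_true, Bool.true_xor]
    intro h
    exact h3 (Bool.not_inj h)

theorem sn_symm {n : ℕ} {σ : Fin n → Fin n → Bool} (hσ : σ ∈ Sn n) (i j : Fin n) :
    σ i j = σ j i := by
  unfold Sn at hσ
  exact (Finset.mem_filter.1 hσ).2.1 i j

theorem flipP_mem_mnr {n : ℕ} {i j : Fin n} (h1 : i ≠ j) {σ : Fin n → Fin n → Bool}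
    (hσ : σ ∈ Sn n) (ha : AltM i j σ) :
    flipP (mnr i j) σ ∈ Sn n ∧ AltM i j (flipP (mnr i j) σ) := by
  refine ⟨?_, alt_flip ha⟩
  exact flipP_mem _ σ (mnr_symm i j) hσ ((bal_iff_alt h1 (sn_symm hσ i j)).2 ha)

/-- the switched matrix differs from the old one exactly on the minor, where it is negated -/
theorem Mx_switchM {n : ℕ} (i j : Fin n) (σ : Fin n → Fin n → Bool) (x y : Fin n) :
    Mx (flipP (mnr i j) σ) x y
      = if (x = i ∨ x = j) ∧ (y = i ∨ y = j) then - Mx σ x y else Mx σ x y := by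
  rw [Mx_flipP]
  by_cases h : (x = i ∨ x = j) ∧ (y = i ∨ y = j)
  · rw [if_pos h, if_pos (by simp [mnr, h])]
  · rw [if_neg h, if_neg (by simpa [mnr] using h)]

theorem Mx_sign {n : ℕ} (σ : Fin n → Fin n → Bool) (x y : Fin n) :
    Mx σ x y = if σ x y then (1 : ℝ) else -1 := rfl

theorem mnr_identity {n : ℕ} {i j : Fin n} (h1 : i ≠ j) (f : (Fin n → Fin n → Bool) → ℂ) :
    EU (fun σ => ((Mx σ i i - Mx σ i j + Mx σ j j - Mx σ i i * Mx σ i j * Mx σ j j : ℝ) : ℂ) * f σ)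
      = - 2 * EU (fun σ => if AltM i j σ then
          (Mx σ i i : ℂ) * (f (flipP (mnr i j) σ) - f σ) else 0) := by
  have hflip := EU_flip (V := ℂ) (mnr i j) (mnr_symm i j)
    (fun σ => (Mx σ i i : ℂ) * f (flipP (mnr i j) σ))
  have e1 : EU (fun σ => if Bal (mnr i j) σ then
      (Mx (flipP (mnr i j) σ) i i : ℂ) * f (flipP (mnr i j) (flipP (mnr i j) σ)) else 0)
      = - 1 * EU (fun σ => if AltM i j σ then (Mx σ i i : ℂ) * f σ else 0) := by
    rw [← EU_mul_left]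
    apply EU_congr
    intro σ hσ
    have hb := bal_iff_alt h1 (sn_symm hσ i j)
    by_cases h : AltM i j σ
    · rw [if_pos (hb.2 h), if_pos h, flipP_flipP, Mx_switchM, if_pos ⟨Or.inl rfl, Or.inl rfl⟩]
      push_cast
      ring
    · rw [if_neg (fun h' => h (hb.1 h')), if_neg h, mul_zero]
  have e2 : EU (fun σ => if Bal (mnr i j) σ then
      (Mx σ i i : ℂ) * f (flipP (mnr i j) σ) else 0)
      = EU (fun σ => if AltM i j σ then (Mx σ i i : ℂ) * f (flipP (mnr i j) σ) else 0) := by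
    apply EU_congr
    intro σ hσ
    have hb := bal_iff_alt h1 (sn_symm hσ i j)
    by_cases h : AltM i j σ
    · rw [if_pos (hb.2 h), if_pos h]
    · rw [if_neg (fun h' => h (hb.1 h')), if_neg h]
  have e3 : EU (fun σ => if AltM i j σ then (Mx σ i i : ℂ) * f (flipP (mnr i j) σ) else 0)
      = - 1 * EU (fun σ => if AltM i j σ then (Mx σ i i : ℂ) * f σ else 0) := by
    rw [← e2, ← e1]
    exact hflip.symm
  have e4 : EU (fun σ => if AltM i j σ then
          (Mx σ i i : ℂ) * (f (flipP (mnr i j) σ) - f σ) else 0)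
      = EU (fun σ => if AltM i j σ then (Mx σ i i : ℂ) * f (flipP (mnr i j) σ) else 0)
        - EU (fun σ => if AltM i j σ then (Mx σ i i : ℂ) * f σ else 0) := by
    rw [← EU_sub]
    apply EU_congr
    intro σ _
    by_cases h : AltM i j σ
    · simp only [if_pos h]
      ring
    · simp only [if_neg h, sub_zero]
  have e5 : EU (fun σ => ((Mx σ i i - Mx σ i j + Mx σ j j - Mx σ i i * Mx σ i j * Mx σ j j : ℝ) : ℂ)
        * f σ) = 4 * EU (fun σ => if AltM i j σ then (Mx σ i i : ℂ) * f σ else 0) := by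
    rw [← EU_mul_left]
    apply EU_congr
    intro σ _
    have key : (Mx σ i i - Mx σ i j + Mx σ j j - Mx σ i i * Mx σ i j * Mx σ j j : ℝ)
        = if AltM i j σ then 4 * Mx σ i i else 0 := by
      by_cases h : AltM i j σ
      · rw [if_pos h, Mx_sign, Mx_sign, Mx_sign]
        obtain ⟨h2, h3⟩ := h
        cases ha : σ i i <;> cases hb : σ i j <;> cases hc : σ j j <;>
          simp only [ha, hb, hc, ne_eq, not_true_eq_false] at h2 h3 <;> norm_num
      · rw [if_neg h, Mx_sign, Mx_sign, Mx_sign]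
        unfold AltM at h
        cases ha : σ i i <;> cases hb : σ i j <;> cases hc : σ j j <;>
          simp [ha, hb, hc] at h ⊢
    rw [key]
    by_cases h : AltM i j σ
    · simp only [if_pos h]
      push_cast
      ring
    · simp only [if_neg h]
      simp
  rw [e5, e4, e3]
  ring

end Pool.Agent.ZR

end

section

/-!
# ZR/C2 : spectral representation and algebra of the resolvent

`spec_pb` (simultaneous diagonalisation).  Let `κ` be larger than the absolute values of all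
eigenvalues of `B` and `A = B + κ (1 - Q)`, symmetric.  Let `U` orthogonal diagonalise `A`
(`Matrix.IsHermitian.spectral_theorem`), columns `u_k`, eigenvalues `a_k`.  Since `B (1-Q) = 0 =
(1-Q) B` and `(1-Q)` is a projection, `(1-Q) A = κ (1-Q)`; applied to `u_k`:
`(a_k - κ)(1-Q)u_k = 0`.  If `a_k ≠ κ` then `Q u_k = u_k`, `B u_k = a_k u_k`: put `q_k = 1`,
`lam_k = a_k`.  If `a_k = κ` then `κ u_k = A u_k = B u_k + κ(1-Q)u_k`, so `B u_k = κ Q u_k`,
`B (Q u_k) = κ (Q u_k)`, and `Q u_k = 0` because `κ` is not an eigenvalue of `B`; then `B u_k = 0`: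
put `q_k = 0`, `lam_k = 0`.  So `Q U = U diag(q)`, `B U = U diag(q lam)`.
For `z.im ≠ 0`: `(toC B - z) toC U = toC U diag(q_k lam_k - z)`, all diagonal entries non zero, so
`toC B - z` is invertible, `Rz B z = toC U diag(1/(q_k lam_k - z)) toC Uᵀ`, and
`Gz Q B z = Rz B z * toC Q = toC U diag(q_k/(q_k lam_k - z)) toC Uᵀ`, and
`q_k/(q_k lam_k - z) = q_k/(lam_k - z)` since `q_k ∈ {0,1}`.
The remaining identities follow from `spec_pb` (all the matrices are `toC U diag(..) toC Uᵀ`), or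
directly from `(toC B - z) Rz = 1`.  `gz_pert`: `(toC B - z) G(B') = ...`:
`G(B) - G(B') = Rz B [ (toC B' - z) - (toC B - z) ] G(B')` and `toC(B' - B) = toC Q toC(B' - B)`.
`gz_row`: `G = G * toC (Pn n)` and `Pn n *ᵥ 1 = 0`.
-/


open MeasureTheory ProbabilityTheory Matrix

namespace Pool.Agent.ZR

private theorem toC_mul' {N : ℕ} (A B : Matrix (Fin N) (Fin N) ℝ) :
    toC (A * B) = toC A * toC B := by
  ext i j
  simp [toC, Matrix.mul_apply]

private theorem toC_one' {N : ℕ} : toC (1 : Matrix (Fin N) (Fin N) ℝ) = 1 := by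
  ext i j
  simp only [toC, Matrix.map_apply, Matrix.one_apply]
  split_ifs <;> simp

private theorem toC_sub' {N : ℕ} (A B : Matrix (Fin N) (Fin N) ℝ) :
    toC (A - B) = toC A - toC B := by
  ext i j
  simp [toC]

private theorem toC_diag' {N : ℕ} (d : Fin N → ℝ) :
    toC (Matrix.diagonal d) = Matrix.diagonal (fun k => (d k : ℂ)) := by
  ext i j
  simp only [toC, Matrix.map_apply, Matrix.diagonal_apply]
  split_ifs <;> simp

private theorem toC_transpose' {N : ℕ} (A : Matrix (Fin N) (Fin N) ℝ) :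
    toC Aᵀ = (toC A)ᵀ := by
  ext i j
  simp [toC]

private theorem sub_z_ne {x : ℝ} {z : ℂ} (hz : z.im ≠ 0) : (x : ℂ) - z ≠ 0 := by
  intro h
  apply hz
  have := congrArg Complex.im h
  simpa using this

/-- real part of the spectral decomposition -/
private theorem spec_real {N : ℕ} {Q B : Matrix (Fin N) (Fin N) ℝ} (h : PB Q B) :
    ∃ (U : Matrix (Fin N) (Fin N) ℝ) (lam q : Fin N → ℝ),
      U * Uᵀ = 1 ∧ Uᵀ * U = 1 ∧ (∀ k, q k = 0 ∨ q k = 1) ∧
      Q = U * Matrix.diagonal q * Uᵀ ∧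
      B = U * Matrix.diagonal (fun k => q k * lam k) * Uᵀ := by
  classical
  -- choose κ not an eigenvalue
  obtain ⟨κ, hκ⟩ : ∃ κ : ℝ, κ ∉ (B.charpoly.roots.toFinset : Set ℝ) :=
    (B.charpoly.roots.toFinset.finite_toSet).infinite_compl.nonempty
  have hκ' : ∀ v : Fin N → ℝ, B *ᵥ v = κ • v → v = 0 := by
    intro v hv
    by_contra hne
    apply hκ
    have hdet : (κ • (1 : Matrix (Fin N) (Fin N) ℝ) - B).det = 0 := by
      rw [← Matrix.exists_mulVec_eq_zero_iff]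
      refine ⟨v, hne, ?_⟩
      rw [Matrix.sub_mulVec, hv, Matrix.smul_mulVec, Matrix.one_mulVec, sub_self]
    have hmon : B.charpoly ≠ 0 := (Matrix.charpoly_monic B).ne_zero
    simp only [Finset.mem_coe, Multiset.mem_toFinset]
    rw [Polynomial.mem_roots hmon, Polynomial.IsRoot.def, Matrix.eval_charpoly]
    rw [← hdet]
    congr 1
    ext i j
    simp [Matrix.scalar_apply, Matrix.diagonal_apply, Matrix.one_apply]
  set A : Matrix (Fin N) (Fin N) ℝ := B + κ • (1 - Q) with hA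
  have hAsymm : A.IsHermitian := by
    rw [Matrix.IsHermitian, Matrix.conjTranspose_eq_transpose_of_trivial, hA]
    rw [Matrix.transpose_add, Matrix.transpose_smul, Matrix.transpose_sub, h.bs, h.qs,
      Matrix.transpose_one]
  set U : Matrix (Fin N) (Fin N) ℝ := (hAsymm.eigenvectorUnitary : Matrix (Fin N) (Fin N) ℝ) with hU
  set a : Fin N → ℝ := hAsymm.eigenvalues with ha
  have hU1 : U * Uᵀ = 1 := by
    have := (Matrix.mem_unitaryGroup_iff).1 hAsymm.eigenvectorUnitary.2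
    rw [Matrix.star_eq_conjTranspose, Matrix.conjTranspose_eq_transpose_of_trivial] at this
    exact this
  have hU2 : Uᵀ * U = 1 := by
    have := (Matrix.mem_unitaryGroup_iff').1 hAsymm.eigenvectorUnitary.2
    rw [Matrix.star_eq_conjTranspose, Matrix.conjTranspose_eq_transpose_of_trivial] at this
    exact this
  have hcol : ∀ k, A *ᵥ (fun i => U i k) = a k • (fun i => U i k) := by
    intro k
    have h1 := hAsymm.mulVec_eigenvectorBasis k
    have h2 : (fun i => U i k) = (hAsymm.eigenvectorBasis k).ofLp := by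
      ext i
      simp [hU, Matrix.IsHermitian.eigenvectorUnitary_apply]
    rw [h2]
    exact h1
  -- columns
  set q : Fin N → ℝ := fun k => if a k = κ then 0 else 1 with hq
  have key : ∀ k, Q *ᵥ (fun i => U i k) = q k • (fun i => U i k) ∧
      B *ᵥ (fun i => U i k) = (q k * a k) • (fun i => U i k) := by
    intro k
    set u : Fin N → ℝ := fun i => U i k with hu
    have e1 : (1 - Q) * A = κ • (1 - Q) := by
      rw [hA, Matrix.mul_add, Matrix.mul_smul, Matrix.sub_mul, Matrix.one_mul, h.qb, sub_self,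
        zero_add, Matrix.sub_mul, Matrix.mul_sub, Matrix.mul_sub, h.qq]
      simp
    have e2 : (a k - κ) • ((1 - Q) *ᵥ u) = 0 := by
      have h3 : ((1 - Q) * A) *ᵥ u = a k • ((1 - Q) *ᵥ u) := by
        rw [← Matrix.mulVec_mulVec, hcol k, Matrix.mulVec_smul]
      have h4 : ((1 - Q) * A) *ᵥ u = κ • ((1 - Q) *ᵥ u) := by
        rw [e1, Matrix.smul_mulVec]
      rw [sub_smul, ← h3, ← h4, sub_self]
    have hAu : B *ᵥ u + κ • ((1 - Q) *ᵥ u) = a k • u := by
      have := hcol k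
      rw [hA, Matrix.add_mulVec, Matrix.smul_mulVec] at this
      exact this
    by_cases hak : a k = κ
    · have hq0 : q k = 0 := by simp [hq, hak]
      have h5 : B *ᵥ u = κ • (Q *ᵥ u) := by
        have h6 : (1 - Q) *ᵥ u = u - Q *ᵥ u := by
          rw [Matrix.sub_mulVec, Matrix.one_mulVec]
        rw [h6, hak, smul_sub] at hAu
        ext i
        have h7 := congrFun hAu i
        simp only [Pi.add_apply, Pi.sub_apply, Pi.smul_apply, smul_eq_mul] at h7 ⊢
        linarith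
      have h8 : B *ᵥ (Q *ᵥ u) = κ • (Q *ᵥ u) := by
        rw [Matrix.mulVec_mulVec, h.bq, h5]
      have h9 : Q *ᵥ u = 0 := hκ' _ h8
      refine ⟨?_, ?_⟩
      · rw [h9, hq0, zero_smul]
      · rw [h5, h9, hq0, zero_mul, zero_smul, smul_zero]
    · have hq1 : q k = 1 := by simp [hq, hak]
      have h6 : (1 - Q) *ᵥ u = 0 := by
        rcases smul_eq_zero.1 e2 with h7 | h7
        · exact absurd (sub_eq_zero.1 h7) hak
        · exact h7
      refine ⟨?_, ?_⟩
      · rw [Matrix.sub_mulVec, Matrix.one_mulVec, sub_eq_zero] at h6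
        rw [← h6, hq1, one_smul]
      · rw [h6, smul_zero, add_zero] at hAu
        rw [hAu, hq1, one_mul]
  have hmat : ∀ (M : Matrix (Fin N) (Fin N) ℝ) (d : Fin N → ℝ),
      (∀ k, M *ᵥ (fun i => U i k) = d k • (fun i => U i k)) →
      M = U * Matrix.diagonal d * Uᵀ := by
    intro M d hM
    have h1 : M * U = U * Matrix.diagonal d := by
      ext i k
      have := congrFun (hM k) i
      simp only [Pi.smul_apply, smul_eq_mul] at this
      rw [Matrix.mul_diagonal, mul_comm, ← this]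
      simp [Matrix.mul_apply, Matrix.mulVec, dotProduct]
    rw [← h1, Matrix.mul_assoc, hU1, Matrix.mul_one]
  refine ⟨U, a, q, hU1, hU2, ?_, ?_, ?_⟩
  · intro k
    by_cases hak : a k = κ
    · left; simp [hq, hak]
    · right; simp [hq, hak]
  · exact hmat Q q (fun k => (key k).1)
  · exact hmat B _ (fun k => (key k).2)

private theorem rz_formula {N : ℕ} {B U : Matrix (Fin N) (Fin N) ℝ} {d : Fin N → ℝ}
    (h1 : U * Uᵀ = 1) (h2 : Uᵀ * U = 1) (hB : B = U * Matrix.diagonal d * Uᵀ) (z : ℂ)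
    (hz : z.im ≠ 0) :
    (toC B - z • (1 : Matrix (Fin N) (Fin N) ℂ)) *
        (toC U * Matrix.diagonal (fun k => 1 / ((d k : ℂ) - z)) * toC Uᵀ) = 1 := by
  have c1 : toC U * toC Uᵀ = 1 := by rw [← toC_mul', h1, toC_one']
  have c2 : toC Uᵀ * toC U = 1 := by rw [← toC_mul', h2, toC_one']
  have hB' : toC B = toC U * Matrix.diagonal (fun k => (d k : ℂ)) * toC Uᵀ := by
    rw [hB, toC_mul', toC_mul', toC_diag']
  have e : toC B - z • (1 : Matrix (Fin N) (Fin N) ℂ)
      = toC U * Matrix.diagonal (fun k => (d k : ℂ) - z) * toC Uᵀ := by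
    have hd : Matrix.diagonal (fun k => (d k : ℂ) - z)
        = Matrix.diagonal (fun k => (d k : ℂ)) - z • (1 : Matrix (Fin N) (Fin N) ℂ) := by
      ext i j
      by_cases hij : i = j
      · subst hij; simp
      · simp [hij]
    rw [hd, Matrix.mul_sub, Matrix.sub_mul, ← hB', Matrix.mul_smul, Matrix.mul_one,
      Matrix.smul_mul, c1]
  rw [e]
  calc toC U * Matrix.diagonal (fun k => (d k : ℂ) - z) * toC Uᵀ *
        (toC U * Matrix.diagonal (fun k => 1 / ((d k : ℂ) - z)) * toC Uᵀ)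
      = toC U * Matrix.diagonal (fun k => (d k : ℂ) - z) * (toC Uᵀ * toC U) *
        Matrix.diagonal (fun k => 1 / ((d k : ℂ) - z)) * toC Uᵀ := by
          simp only [Matrix.mul_assoc]
    _ = toC U * (Matrix.diagonal (fun k => (d k : ℂ) - z) *
        Matrix.diagonal (fun k => 1 / ((d k : ℂ) - z))) * toC Uᵀ := by
          rw [c2, Matrix.mul_one]; simp only [Matrix.mul_assoc]
    _ = 1 := by
          rw [Matrix.diagonal_mul_diagonal]
          have : (fun k => ((d k : ℂ) - z) * (1 / ((d k : ℂ) - z))) = fun _ => (1 : ℂ) := by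
            ext k
            field_simp [sub_z_ne (x := d k) hz]
          rw [this, Matrix.diagonal_one, Matrix.mul_one, c1]

private theorem rz_eq {N : ℕ} {B U : Matrix (Fin N) (Fin N) ℝ} {d : Fin N → ℝ}
    (h1 : U * Uᵀ = 1) (h2 : Uᵀ * U = 1) (hB : B = U * Matrix.diagonal d * Uᵀ) (z : ℂ)
    (hz : z.im ≠ 0) :
    Rz B z = toC U * Matrix.diagonal (fun k => 1 / ((d k : ℂ) - z)) * toC Uᵀ := by
  have := rz_formula h1 h2 hB z hz
  unfold Rz
  exact Matrix.inv_eq_right_inv this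

theorem spec_pb {N : ℕ} {Q B : Matrix (Fin N) (Fin N) ℝ} (h : PB Q B) :
    ∃ (U : Matrix (Fin N) (Fin N) ℝ) (lam q : Fin N → ℝ),
      U * Uᵀ = 1 ∧ Uᵀ * U = 1 ∧ (∀ k, q k = 0 ∨ q k = 1) ∧
      Q = U * Matrix.diagonal q * Uᵀ ∧ B = U * Matrix.diagonal (fun k => q k * lam k) * Uᵀ ∧
      ∀ z : ℂ, z.im ≠ 0 → Gz Q B z
        = toC U * Matrix.diagonal (fun k => (q k : ℂ) / ((lam k : ℂ) - z)) * toC Uᵀ := by
  obtain ⟨U, lam, q, h1, h2, hq, hQ, hB⟩ := spec_real h
  refine ⟨U, lam, q, h1, h2, hq, hQ, hB, ?_⟩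
  intro z hz
  have c2 : toC Uᵀ * toC U = 1 := by rw [← toC_mul', h2, toC_one']
  have hr := rz_eq h1 h2 hB z hz
  have hG : Gz Q B z = Rz B z * toC Q := rfl
  rw [hG, hr]
  have hQ' : toC Q = toC U * Matrix.diagonal (fun k => (q k : ℂ)) * toC Uᵀ := by
    rw [hQ, toC_mul', toC_mul', toC_diag']
  rw [hQ']
  calc toC U * Matrix.diagonal (fun k => 1 / (((q k * lam k : ℝ) : ℂ) - z)) * toC Uᵀ *
        (toC U * Matrix.diagonal (fun k => (q k : ℂ)) * toC Uᵀ)
      = toC U * Matrix.diagonal (fun k => 1 / (((q k * lam k : ℝ) : ℂ) - z)) *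
        (toC Uᵀ * toC U) * Matrix.diagonal (fun k => (q k : ℂ)) * toC Uᵀ := by
          simp only [Matrix.mul_assoc]
    _ = toC U * (Matrix.diagonal (fun k => 1 / (((q k * lam k : ℝ) : ℂ) - z)) *
        Matrix.diagonal (fun k => (q k : ℂ))) * toC Uᵀ := by
          rw [c2, Matrix.mul_one]; simp only [Matrix.mul_assoc]
    _ = _ := by
          rw [Matrix.diagonal_mul_diagonal]
          congr 3
          ext k
          rcases hq k with hk | hk
          · simp [hk]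
          · simp [hk, div_eq_mul_inv, mul_comm]

theorem rz_left {N : ℕ} (B : Matrix (Fin N) (Fin N) ℝ) (hB : B.IsSymm) (z : ℂ) (hz : z.im ≠ 0) :
    (toC B - z • (1 : Matrix (Fin N) (Fin N) ℂ)) * Rz B z = 1 := by
  obtain ⟨U, lam, q, h1, h2, hq, hQ, hB'⟩ := spec_real (pb_one B hB)
  rw [rz_eq h1 h2 hB' z hz]
  exact rz_formula h1 h2 hB' z hz

theorem rz_right {N : ℕ} (B : Matrix (Fin N) (Fin N) ℝ) (hB : B.IsSymm) (z : ℂ) (hz : z.im ≠ 0) :
    Rz B z * (toC B - z • (1 : Matrix (Fin N) (Fin N) ℂ)) = 1 :=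
  mul_eq_one_comm.1 (rz_left B hB z hz)

private theorem gz_def' {N : ℕ} (Q B : Matrix (Fin N) (Fin N) ℝ) (z : ℂ) :
    Gz Q B z = Rz B z * toC Q := rfl

theorem gz_eq {N : ℕ} {Q B : Matrix (Fin N) (Fin N) ℝ} (h : PB Q B) (z : ℂ) (hz : z.im ≠ 0) :
    toC B * Gz Q B z = toC Q + z • Gz Q B z := by
  have h1 := rz_left B h.bs z hz
  rw [Matrix.sub_mul, Matrix.smul_mul, Matrix.one_mul, sub_eq_iff_eq_add] at h1
  rw [gz_def', ← Matrix.mul_assoc, h1, Matrix.add_mul, Matrix.one_mul, Matrix.smul_mul]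

theorem gz_eq' {N : ℕ} {Q B : Matrix (Fin N) (Fin N) ℝ} (h : PB Q B) (z : ℂ) (hz : z.im ≠ 0) :
    Gz Q B z * toC B = toC Q + z • Gz Q B z := by
  have h1 := rz_right B h.bs z hz
  rw [Matrix.mul_sub, Matrix.mul_smul, Matrix.mul_one, sub_eq_iff_eq_add] at h1
  have e1 : toC Q * toC B = toC B := by rw [← toC_mul', h.qb]
  have e2 : toC B * toC Q = toC B := by rw [← toC_mul', h.bq]
  calc Gz Q B z * toC B = Rz B z * (toC Q * toC B) := by rw [gz_def', Matrix.mul_assoc]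
    _ = Rz B z * toC B * toC Q := by rw [e1, Matrix.mul_assoc, e2]
    _ = toC Q + z • Gz Q B z := by
      rw [h1, Matrix.add_mul, Matrix.one_mul, Matrix.smul_mul, gz_def']

theorem gz_symm {N : ℕ} {Q B : Matrix (Fin N) (Fin N) ℝ} (h : PB Q B) (z : ℂ) (hz : z.im ≠ 0) :
    (Gz Q B z)ᵀ = Gz Q B z := by
  obtain ⟨U, lam, q, h1, h2, hq, hQ, hB, hG⟩ := spec_pb h
  rw [hG z hz, Matrix.transpose_mul, Matrix.transpose_mul, Matrix.diagonal_transpose,
    toC_transpose', Matrix.transpose_transpose, Matrix.mul_assoc]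

theorem gz_q {N : ℕ} {Q B : Matrix (Fin N) (Fin N) ℝ} (h : PB Q B) (z : ℂ) (hz : z.im ≠ 0) :
    Gz Q B z * toC Q = Gz Q B z ∧ toC Q * Gz Q B z = Gz Q B z := by
  have h1 : Gz Q B z * toC Q = Gz Q B z := by
    rw [gz_def', Matrix.mul_assoc, ← toC_mul', h.qq]
  refine ⟨h1, ?_⟩
  have h2 := congrArg Matrix.transpose h1
  rw [Matrix.transpose_mul, gz_symm h z hz, ← toC_transpose', h.qs] at h2
  exact h2

theorem gz_conj {N : ℕ} {Q B : Matrix (Fin N) (Fin N) ℝ} (h : PB Q B) (z : ℂ) (hz : z.im ≠ 0)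
    (x y : Fin N) : Gz Q B (starRingEnd ℂ z) x y = starRingEnd ℂ (Gz Q B z x y) := by
  obtain ⟨U, lam, q, h1, h2, hq, hQ, hB, hG⟩ := spec_pb h
  have hz' : (starRingEnd ℂ z).im ≠ 0 := by simpa using hz
  have entry : ∀ d : Fin N → ℂ, (toC U * Matrix.diagonal d * toC Uᵀ) x y
      = ∑ k, (U x k : ℂ) * d k * (U y k : ℂ) := by
    intro d
    rw [Matrix.mul_apply]
    simp only [Matrix.mul_diagonal, toC, Matrix.map_apply, Matrix.transpose_apply]
  rw [hG z hz, hG _ hz', entry, entry]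
  simp only [map_sum, map_mul, map_div₀, map_sub, Complex.conj_ofReal]

theorem mz_conj {N : ℕ} {Q B : Matrix (Fin N) (Fin N) ℝ} (h : PB Q B) (z : ℂ) (hz : z.im ≠ 0) :
    mz Q B (starRingEnd ℂ z) = starRingEnd ℂ (mz Q B z) := by
  unfold mz
  rw [map_mul, map_div₀, map_one, Complex.conj_natCast]
  congr 1
  simp only [Matrix.trace, Matrix.diag_apply, map_sum]
  exact Finset.sum_congr rfl (fun x _ => gz_conj h z hz x x)

theorem gz_comm {N : ℕ} {Q B : Matrix (Fin N) (Fin N) ℝ} (h : PB Q B) (z w : ℂ) (hz : z.im ≠ 0)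
    (hw : w.im ≠ 0) : Gz Q B z * Gz Q B w = Gz Q B w * Gz Q B z := by
  obtain ⟨U, lam, q, h1, h2, hq, hQ, hB, hG⟩ := spec_pb h
  have c2 : toC Uᵀ * toC U = 1 := by rw [← toC_mul', h2, toC_one']
  have key : ∀ d e : Fin N → ℂ, (toC U * Matrix.diagonal d * toC Uᵀ) *
      (toC U * Matrix.diagonal e * toC Uᵀ) = toC U * Matrix.diagonal (fun k => d k * e k) * toC Uᵀ := by
    intro d e
    calc (toC U * Matrix.diagonal d * toC Uᵀ) * (toC U * Matrix.diagonal e * toC Uᵀ)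
        = toC U * Matrix.diagonal d * (toC Uᵀ * toC U) * Matrix.diagonal e * toC Uᵀ := by
          simp only [Matrix.mul_assoc]
      _ = toC U * (Matrix.diagonal d * Matrix.diagonal e) * toC Uᵀ := by
          rw [c2, Matrix.mul_one]; simp only [Matrix.mul_assoc]
      _ = _ := by rw [Matrix.diagonal_mul_diagonal]
  rw [hG z hz, hG w hw, key, key]
  congr 3
  ext k
  ring

theorem gz_res {N : ℕ} {Q B : Matrix (Fin N) (Fin N) ℝ} (h : PB Q B) (z w : ℂ) (hz : z.im ≠ 0)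
    (hw : w.im ≠ 0) : Gz Q B z - Gz Q B w = (z - w) • (Gz Q B z * Gz Q B w) := by
  obtain ⟨U, lam, q, h1, h2, hq, hQ, hB, hG⟩ := spec_pb h
  have c2 : toC Uᵀ * toC U = 1 := by rw [← toC_mul', h2, toC_one']
  have key : ∀ d e : Fin N → ℂ, (toC U * Matrix.diagonal d * toC Uᵀ) *
      (toC U * Matrix.diagonal e * toC Uᵀ) = toC U * Matrix.diagonal (fun k => d k * e k) * toC Uᵀ := by
    intro d e
    calc (toC U * Matrix.diagonal d * toC Uᵀ) * (toC U * Matrix.diagonal e * toC Uᵀ)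
        = toC U * Matrix.diagonal d * (toC Uᵀ * toC U) * Matrix.diagonal e * toC Uᵀ := by
          simp only [Matrix.mul_assoc]
      _ = toC U * (Matrix.diagonal d * Matrix.diagonal e) * toC Uᵀ := by
          rw [c2, Matrix.mul_one]; simp only [Matrix.mul_assoc]
      _ = _ := by rw [Matrix.diagonal_mul_diagonal]
  rw [hG z hz, hG w hw, key, ← Matrix.sub_mul, ← Matrix.mul_sub, ← Matrix.smul_mul,
    ← Matrix.mul_smul]
  congr 2
  ext i j
  by_cases hij : i = j
  · subst hij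
    simp only [Matrix.sub_apply, Matrix.diagonal_apply_eq, Matrix.smul_apply, smul_eq_mul]
    have n1 := sub_z_ne (x := lam i) hz
    have n2 := sub_z_ne (x := lam i) hw
    rcases hq i with hk | hk
    · simp [hk]
    · rw [hk]
      field_simp
      push_cast
      ring
  · simp [hij]

theorem gz_pert {N : ℕ} {Q B B' : Matrix (Fin N) (Fin N) ℝ} (h : PB Q B) (h' : PB Q B') (z : ℂ)
    (hz : z.im ≠ 0) : Gz Q B z - Gz Q B' z = - (Gz Q B z * toC (B - B') * Gz Q B' z) := by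
  rw [toC_sub', Matrix.mul_sub, Matrix.sub_mul, gz_eq' h z hz, Matrix.mul_assoc, gz_eq h' z hz,
    Matrix.add_mul, Matrix.mul_add, (gz_q h' z hz).2, (gz_q h z hz).1, Matrix.smul_mul,
    Matrix.mul_smul]
  abel

theorem gz_row {n : ℕ} (hn : 0 < n) {B : Matrix (Fin n) (Fin n) ℝ} (h : PB (Pn n) B) (z : ℂ)
    (hz : z.im ≠ 0) (x : Fin n) : ∑ y, Gz (Pn n) B z x y = 0 := by
  have h1 := (gz_q h z hz).1
  have h2 : ∀ w : Fin n, ∑ y, toC (Pn n) w y = 0 := by
    intro w
    have := congrFun (Pn_one n hn) w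
    simp only [Matrix.mulVec, dotProduct, mul_one, Pi.zero_apply] at this
    simp only [toC, Matrix.map_apply]
    rw [← Complex.ofReal_sum, this, Complex.ofReal_zero]
  rw [← h1]
  simp only [Matrix.mul_apply]
  rw [Finset.sum_comm]
  apply Finset.sum_eq_zero
  intro w _
  rw [← Finset.mul_sum, h2 w, mul_zero]

end Pool.Agent.ZR

end

section

/-!
# ZR, part G: calculus of the joint probability `PJ` and of `EJ`.

`PJ A = EU (fun σ => (gm n).real {X | A σ X})`; `gm n` is a probability measure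
(`Measure.pi.instIsProbabilityMeasure` or ZR/E0).  `pj_mono`, `pj_or`, `pj_exists`:
`measureReal_mono`, `measureReal_union_le`, induction / `measureReal_iUnion_fintype_le`, and
`EU_mono`, `EU_add`, `EU_sum`.

`ej_dom`: `EJ F = ∫ X, EU (fun σ => F σ X)` (finite sum: `integral_finset_sum`, `integral_smul`),
`norm_integral_le_integral_norm`, then `integral_mono` with the pointwise hypothesis.  The majorant of
`r σ X` is `g σ X + R * 1_{X ∈ S σ}`, where `S σ = toMeasurable (gm n) {X | A σ X}` (the set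
`{X | A σ X}` need not be measurable); `(gm n).real (S σ) = (gm n).real {X | A σ X}`,
`subset_toMeasurable`, `∫ 1_S = (gm n).real S`.

`ej_cs`: for each `σ`: `∫ Y ≤ √(∫ Y²)` (probability measure, `Y ≥ 0`; e.g. `0 ≤ ∫ (Y - c)²` with
`c = ∫ Y`), then Cauchy-Schwarz for the finite average: `EU (a σ y σ) ≤ √(EU a²) √(EU y²)`
(`Finset.sum_mul_sq_le_sq_mul_sq`), `y σ = √(∫ Y²)`.
-/


open MeasureTheory ProbabilityTheory Matrix
open scoped Classical

namespace Pool.Agent.ZR.G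

private lemma gm_prob27 (n : ℕ) : IsProbabilityMeasure (gm n) := by
  unfold gm; infer_instance

private lemma integral_EU27 {n : ℕ} {V : Type*} [NormedAddCommGroup V] [NormedSpace ℝ V]
    (u : (Fin n → Fin n → Bool) → (Fin n × Fin n → ℝ) → V)
    (hu : ∀ σ ∈ Sn n, Integrable (u σ) (gm n)) :
    ∫ X, EU (fun σ => u σ X) ∂(gm n) = EU (fun σ => ∫ X, u σ X ∂(gm n)) := by
  unfold EU
  rw [integral_smul, integral_finsetSum _ hu]

private lemma integrable_EU27 {n : ℕ} {V : Type*} [NormedAddCommGroup V] [NormedSpace ℝ V]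
    (u : (Fin n → Fin n → Bool) → (Fin n × Fin n → ℝ) → V)
    (hu : ∀ σ ∈ Sn n, Integrable (u σ) (gm n)) :
    Integrable (fun X => EU (fun σ => u σ X)) (gm n) := by
  unfold EU
  exact (integrable_finsetSum _ hu).smul _

theorem pj_mono {n : ℕ} {A B : (Fin n → Fin n → Bool) → (Fin n × Fin n → ℝ) → Prop}
    (h : ∀ σ ∈ Sn n, ∀ X, A σ X → B σ X) : PJ A ≤ PJ B := by
  have := gm_prob27 n
  unfold PJ
  exact EU_mono fun σ hσ => measureReal_mono fun X hX => h σ hσ X hX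

theorem pj_or {n : ℕ} (A B : (Fin n → Fin n → Bool) → (Fin n × Fin n → ℝ) → Prop) :
    PJ (fun σ X => A σ X ∨ B σ X) ≤ PJ A + PJ B := by
  have := gm_prob27 n
  unfold PJ
  rw [← EU_add]
  exact EU_mono fun σ _ => measureReal_union_le {X | A σ X} {X | B σ X}

theorem pj_exists {n K : ℕ} (A : Fin K → (Fin n → Fin n → Bool) → (Fin n × Fin n → ℝ) → Prop) :
    PJ (fun σ X => ∃ l, A l σ X) ≤ ∑ l, PJ (A l) := by
  have := gm_prob27 n
  unfold PJ
  rw [← EU_sum Finset.univ (fun l σ => (gm n).real {X | A l σ X})]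
  refine EU_mono fun σ _ => ?_
  have e : {X | ∃ l, A l σ X} = ⋃ l, {X | A l σ X} := by
    ext X
    simp
  rw [e]
  exact measureReal_iUnion_fintype_le _

theorem ej_dom {n : ℕ} (F : (Fin n → Fin n → Bool) → (Fin n × Fin n → ℝ) → ℂ)
    (g r : (Fin n → Fin n → Bool) → (Fin n × Fin n → ℝ) → ℝ)
    (A : (Fin n → Fin n → Bool) → (Fin n × Fin n → ℝ) → Prop) (R : ℝ) (hR : 0 ≤ R)
    (hF : ∀ σ ∈ Sn n, Integrable (F σ) (gm n)) (hg : ∀ σ ∈ Sn n, Integrable (g σ) (gm n))
    (hg0 : ∀ σ ∈ Sn n, ∀ X, 0 ≤ g σ X)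
    (h : ∀ X, ‖EU (fun σ => F σ X)‖ ≤ EU (fun σ => r σ X))
    (hr1 : ∀ σ ∈ Sn n, ∀ X, ¬ A σ X → r σ X ≤ g σ X)
    (hr2 : ∀ σ ∈ Sn n, ∀ X, A σ X → r σ X ≤ R) :
    ‖EJ F‖ ≤ EJ g + R * PJ A := by
  have := gm_prob27 n
  set S : (Fin n → Fin n → Bool) → Set (Fin n × Fin n → ℝ) :=
    fun σ => toMeasurable (gm n) {X | A σ X} with hS
  have hSm : ∀ σ, MeasurableSet (S σ) := fun σ => measurableSet_toMeasurable _ _
  have hind : ∀ σ, Integrable ((S σ).indicator (fun _ => R)) (gm n) := fun σ =>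
    (integrable_const R).indicator (hSm σ)
  have hint : ∀ σ ∈ Sn n, Integrable (fun X => g σ X + (S σ).indicator (fun _ => R) X) (gm n) :=
    fun σ hσ => (hg σ hσ).add (hind σ)
  have hpt : ∀ X, ‖EU (fun σ => F σ X)‖ ≤
      EU (fun σ => g σ X + (S σ).indicator (fun _ => R) X) := by
    intro X
    refine (h X).trans (EU_mono fun σ hσ => ?_)
    by_cases hA : A σ X
    · have hX : X ∈ S σ := subset_toMeasurable _ _ hA
      rw [Set.indicator_of_mem hX]
      have := hr2 σ hσ X hA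
      have := hg0 σ hσ X
      linarith
    · have h1 := hr1 σ hσ X hA
      have h2 : 0 ≤ (S σ).indicator (fun _ => R) X := Set.indicator_nonneg (fun _ _ => hR) X
      linarith
  have hEJ : EJ F = ∫ X, EU (fun σ => F σ X) ∂(gm n) := by
    unfold EJ
    rw [integral_EU27 F hF]
  rw [hEJ]
  calc ‖∫ X, EU (fun σ => F σ X) ∂(gm n)‖
      ≤ ∫ X, ‖EU (fun σ => F σ X)‖ ∂(gm n) := norm_integral_le_integral_norm _
    _ ≤ ∫ X, EU (fun σ => g σ X + (S σ).indicator (fun _ => R) X) ∂(gm n) :=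
        integral_mono (integrable_EU27 F hF).norm (integrable_EU27 _ hint) hpt
    _ = EU (fun σ => ∫ X, (g σ X + (S σ).indicator (fun _ => R) X) ∂(gm n)) :=
        integral_EU27 _ hint
    _ = EU (fun σ => (∫ X, g σ X ∂(gm n)) + R • (gm n).real {X | A σ X}) := by
        refine EU_congr fun σ hσ => ?_
        rw [integral_add (hg σ hσ) (hind σ), integral_indicator_const _ (hSm σ)]
        congr 1
        rw [smul_eq_mul, smul_eq_mul, mul_comm]
        congr 1
        unfold Measure.real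
        rw [hS, measure_toMeasurable]
    _ = EJ g + R * PJ A := by
        rw [EU_add, EU_smul, smul_eq_mul]
        rfl

private lemma int_le_sqrt27 {Ω : Type*} [MeasurableSpace Ω] (μ : Measure Ω)
    [IsProbabilityMeasure μ] (Y : Ω → ℝ) (hY : Integrable Y μ)
    (hY2 : Integrable (fun X => Y X ^ 2) μ) :
    ∫ X, Y X ∂μ ≤ Real.sqrt (∫ X, Y X ^ 2 ∂μ) := by
  set c := ∫ X, Y X ∂μ with hc
  have h0 : 0 ≤ ∫ X, (Y X - c) ^ 2 ∂μ := integral_nonneg fun X => sq_nonneg _
  have h1 : ∫ X, (Y X - c) ^ 2 ∂μ = ∫ X, Y X ^ 2 ∂μ - c ^ 2 := by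
    have e : (fun X => (Y X - c) ^ 2) = fun X => (Y X ^ 2 - 2 * c * Y X) + c ^ 2 := by
      funext X; ring
    have hi : Integrable (fun X => Y X ^ 2 - 2 * c * Y X) μ := hY2.sub (hY.const_mul (2 * c))
    rw [e, integral_add hi (integrable_const _),
      integral_sub hY2 (hY.const_mul (2 * c)), integral_const_mul, integral_const]
    simp only [probReal_univ, one_smul]
    rw [← hc]
    ring
  apply Real.le_sqrt_of_sq_le
  linarith

theorem ej_cs {n : ℕ} (a : (Fin n → Fin n → Bool) → ℝ)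
    (Y : (Fin n → Fin n → Bool) → (Fin n × Fin n → ℝ) → ℝ) (ha : ∀ σ ∈ Sn n, 0 ≤ a σ)
    (hY : ∀ σ ∈ Sn n, Integrable (Y σ) (gm n))
    (hY2 : ∀ σ ∈ Sn n, Integrable (fun X => Y σ X ^ 2) (gm n))
    (hY0 : ∀ σ ∈ Sn n, ∀ X, 0 ≤ Y σ X) :
    EJ (fun σ X => a σ * Y σ X) ≤ Real.sqrt (EU (fun σ => a σ ^ 2)) *
      Real.sqrt (EJ (fun σ X => Y σ X ^ 2)) := by
  have := gm_prob27 n
  have h1 : EJ (fun σ X => a σ * Y σ X) ≤
      EU (fun σ => a σ * Real.sqrt (∫ X, Y σ X ^ 2 ∂(gm n))) := by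
    unfold EJ
    refine EU_mono fun σ hσ => ?_
    rw [integral_const_mul]
    exact mul_le_mul_of_nonneg_left (int_le_sqrt27 _ _ (hY σ hσ) (hY2 σ hσ)) (ha σ hσ)
  refine h1.trans ?_
  unfold EJ EU
  simp only [smul_eq_mul]
  have hc0 : (0 : ℝ) ≤ ((Sn n).card : ℝ)⁻¹ := by positivity
  have h2 := Real.sum_mul_le_sqrt_mul_sqrt (Sn n) a
    (fun σ => Real.sqrt (∫ X, Y σ X ^ 2 ∂(gm n)))
  have h3 : ∑ σ ∈ Sn n, Real.sqrt (∫ X, Y σ X ^ 2 ∂(gm n)) ^ 2 =
      ∑ σ ∈ Sn n, ∫ X, Y σ X ^ 2 ∂(gm n) :=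
    Finset.sum_congr rfl fun σ _ => Real.sq_sqrt (integral_nonneg fun X => sq_nonneg _)
  rw [h3] at h2
  rw [Real.sqrt_mul hc0, Real.sqrt_mul hc0]
  calc ((Sn n).card : ℝ)⁻¹ * ∑ σ ∈ Sn n, a σ * Real.sqrt (∫ X, Y σ X ^ 2 ∂(gm n))
      ≤ ((Sn n).card : ℝ)⁻¹ * (Real.sqrt (∑ σ ∈ Sn n, a σ ^ 2) *
          Real.sqrt (∑ σ ∈ Sn n, ∫ X, Y σ X ^ 2 ∂(gm n))) :=
        mul_le_mul_of_nonneg_left h2 hc0
    _ = (Real.sqrt ((Sn n).card : ℝ)⁻¹ * Real.sqrt ((Sn n).card : ℝ)⁻¹) *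
          (Real.sqrt (∑ σ ∈ Sn n, a σ ^ 2) *
          Real.sqrt (∑ σ ∈ Sn n, ∫ X, Y σ X ^ 2 ∂(gm n))) := by
        rw [Real.mul_self_sqrt hc0]
    _ = _ := by ring

end Pool.Agent.ZR.G

end

section

/-!
# ZR, part G, norm toolkit 1: Hilbert-Schmidt and operator norm.

All proofs are short.
* `cs2`: Cauchy-Schwarz for double sums (`Finset.sum_product'`, `inner_mul_le_norm_mul_norm` or
  `Finset.sum_mul_sq_le_sq_mul_sq` for the norms).
* `hs2_mul_le`: column by column: the `j`-th column of `A * B` is `A *ᵥ (column j of B)`; sum `OpLe`.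
* `hs2_mul_le'`: transpose, `(B * A)ᵀ = Aᵀ * Bᵀ`.
* `opLe_mul`: apply `OpLe` twice (`Matrix.mulVec_mulVec`).
* `opLe_entry`: `u` = basis vector: the column `j` of `A` has `∑ ‖A i j‖² ≤ L²`.
* `tr_mul_le`: `cs2` for `∑ i, ∑ j, A i j * B j i`, `hs2` of the transpose.
-/


open MeasureTheory ProbabilityTheory Matrix

namespace Pool.Agent.ZR.G

private theorem le_of_sq11 {x a : ℝ} (ha : 0 ≤ a) (h : x ^ 2 ≤ a ^ 2) : x ≤ a := by
  by_contra hc
  have hc' : a < x := not_le.1 hc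
  have : a ^ 2 < x ^ 2 := pow_lt_pow_left₀ hc' ha two_ne_zero
  exact absurd h (not_le.2 this)

private theorem cs0 {ι : Type} [Fintype ι] (x y : ι → ℂ) (a b : ℝ) (ha : 0 ≤ a) (hb : 0 ≤ b)
    (hx : ∑ i, ‖x i‖ ^ 2 ≤ a ^ 2) (hy : ∑ i, ‖y i‖ ^ 2 ≤ b ^ 2) :
    ∑ i, ‖x i‖ * ‖y i‖ ≤ a * b := by
  refine le_of_sq11 (mul_nonneg ha hb) ?_
  refine (Finset.sum_mul_sq_le_sq_mul_sq Finset.univ (fun i => ‖x i‖) (fun i => ‖y i‖)).trans ?_
  rw [mul_pow]
  exact mul_le_mul hx hy (Finset.sum_nonneg fun i _ => sq_nonneg _) (sq_nonneg _)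

theorem cs2 {n : ℕ} (x y : Fin n → Fin n → ℂ) (a b : ℝ) (ha : 0 ≤ a) (hb : 0 ≤ b)
    (hx : ∑ i, ∑ j, ‖x i j‖ ^ 2 ≤ a ^ 2) (hy : ∑ i, ∑ j, ‖y i j‖ ^ 2 ≤ b ^ 2) :
    ∑ i, ∑ j, ‖x i j‖ * ‖y i j‖ ≤ a * b := by
  have h := cs0 (ι := Fin n × Fin n) (fun p => x p.1 p.2) (fun p => y p.1 p.2) a b ha hb
    (by rw [Fintype.sum_prod_type]; exact hx) (by rw [Fintype.sum_prod_type]; exact hy)
  rw [Fintype.sum_prod_type] at h
  exact h

theorem cs1 {n : ℕ} (x y : Fin n → ℂ) (a b : ℝ) (ha : 0 ≤ a) (hb : 0 ≤ b)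
    (hx : ∑ i, ‖x i‖ ^ 2 ≤ a ^ 2) (hy : ∑ i, ‖y i‖ ^ 2 ≤ b ^ 2) :
    ∑ i, ‖x i‖ * ‖y i‖ ≤ a * b :=
  cs0 x y a b ha hb hx hy

theorem hs2_nonneg {n : ℕ} (A : Matrix (Fin n) (Fin n) ℂ) : 0 ≤ hs2 A := by
  unfold hs2
  exact Finset.sum_nonneg fun i _ => Finset.sum_nonneg fun j _ => sq_nonneg _

theorem hs2_transpose {n : ℕ} (A : Matrix (Fin n) (Fin n) ℂ) : hs2 Aᵀ = hs2 A := by
  unfold hs2
  simp only [Matrix.transpose_apply]
  exact Finset.sum_comm

theorem hs2_mul_le {n : ℕ} (A B : Matrix (Fin n) (Fin n) ℂ) (L : ℝ) (hA : OpLe A L) :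
    hs2 (A * B) ≤ L ^ 2 * hs2 B := by
  have h1 : hs2 (A * B) = ∑ j, ∑ i, ‖(A *ᵥ (fun k => B k j)) i‖ ^ 2 := by
    unfold hs2
    rw [Finset.sum_comm]
    rfl
  have h2 : hs2 B = ∑ j, ∑ i, ‖B i j‖ ^ 2 := by
    unfold hs2
    rw [Finset.sum_comm]
  rw [h1, h2, Finset.mul_sum]
  exact Finset.sum_le_sum fun j _ => hA.2 _

theorem hs2_mul_le' {n : ℕ} (A B : Matrix (Fin n) (Fin n) ℂ) (L : ℝ) (hA : OpLe Aᵀ L) :
    hs2 (B * A) ≤ L ^ 2 * hs2 B := by
  rw [← hs2_transpose (B * A), Matrix.transpose_mul, ← hs2_transpose B]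
  exact hs2_mul_le _ _ L hA

theorem opLe_mul {n : ℕ} (A B : Matrix (Fin n) (Fin n) ℂ) (L K : ℝ) (hA : OpLe A L)
    (hB : OpLe B K) : OpLe (A * B) (L * K) := by
  refine ⟨mul_nonneg hA.1 hB.1, fun u => ?_⟩
  rw [← Matrix.mulVec_mulVec]
  refine (hA.2 _).trans ?_
  rw [mul_pow, mul_assoc]
  exact mul_le_mul_of_nonneg_left (hB.2 u) (sq_nonneg _)

theorem opLe_col {n : ℕ} (A : Matrix (Fin n) (Fin n) ℂ) (L : ℝ) (hA : OpLe A L) (j : Fin n) :
    ∑ i, ‖A i j‖ ^ 2 ≤ L ^ 2 := by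
  have h := hA.2 (fun k => if k = j then 1 else 0)
  have h1 : ∀ i, (A *ᵥ (fun k => if k = j then (1 : ℂ) else 0)) i = A i j := by
    intro i
    simp [Matrix.mulVec, dotProduct]
  have h2 : ∑ i : Fin n, ‖(if i = j then (1 : ℂ) else 0)‖ ^ 2 = 1 := by
    rw [Finset.sum_eq_single j]
    · simp
    · intro b _ hb
      simp [hb]
    · intro hj
      exact absurd (Finset.mem_univ j) hj
  simp only [h1] at h
  rw [h2, mul_one] at h
  exact h

theorem opLe_entry {n : ℕ} (A : Matrix (Fin n) (Fin n) ℂ) (L : ℝ) (hA : OpLe A L) (i j : Fin n) :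
    ‖A i j‖ ≤ L := by
  refine le_of_sq11 hA.1 (le_trans ?_ (opLe_col A L hA j))
  exact Finset.single_le_sum (f := fun i => ‖A i j‖ ^ 2) (fun i _ => sq_nonneg _)
    (Finset.mem_univ i)

theorem tr_mul_le {n : ℕ} (A B : Matrix (Fin n) (Fin n) ℂ) (a b : ℝ) (ha : 0 ≤ a) (hb : 0 ≤ b)
    (hA : hs2 A ≤ a ^ 2) (hB : hs2 B ≤ b ^ 2) : ‖(A * B).trace‖ ≤ a * b := by
  have h1 : (A * B).trace = ∑ i, ∑ j, A i j * B j i := by
    unfold Matrix.trace
    refine Finset.sum_congr rfl fun i _ => ?_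
    rw [Matrix.diag_apply, Matrix.mul_apply]
  rw [h1]
  refine (norm_sum_le _ _).trans ?_
  refine le_trans ?_ (cs2 (fun i j => A i j) (fun i j => B j i) a b ha hb hA ?_)
  · refine Finset.sum_le_sum fun i _ => (norm_sum_le _ _).trans (le_of_eq ?_)
    refine Finset.sum_congr rfl fun j _ => ?_
    rw [norm_mul]
  · rw [Finset.sum_comm]
    exact hB

/-- signs: `‖M i j‖ = 1` -/
theorem sg_norm {n : ℕ} {M : Matrix (Fin n) (Fin n) ℂ} (hM : IsSg M) (i j : Fin n) :
    ‖M i j‖ = 1 := by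
  rcases hM.sgn i j with h | h
  · rw [h, norm_one]
  · rw [h, norm_neg, norm_one]

theorem sg_sq {n : ℕ} {M : Matrix (Fin n) (Fin n) ℂ} (hM : IsSg M) (i j : Fin n) :
    M i j * M i j = 1 := by
  rcases hM.sgn i j with h | h
  · rw [h, one_mul]
  · rw [h, neg_mul_neg, one_mul]

theorem sg_transpose {n : ℕ} {M : Matrix (Fin n) (Fin n) ℂ} (hM : IsSg M) : Mᵀ = M := by
  ext i j
  rw [Matrix.transpose_apply]
  exact hM.sym j i

theorem hs2_sg {n : ℕ} {M : Matrix (Fin n) (Fin n) ℂ} (hM : IsSg M) : hs2 M = (n : ℝ) ^ 2 := by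
  unfold hs2
  simp only [sg_norm hM]
  simp [sq]

/-- entrywise product with a sign matrix does not change the Hilbert-Schmidt norm -/
theorem hs2_had {n : ℕ} {M : Matrix (Fin n) (Fin n) ℂ} (hM : IsSg M)
    (A : Matrix (Fin n) (Fin n) ℂ) : hs2 (Matrix.of fun i j => M i j * A i j) = hs2 A := by
  unfold hs2
  refine Finset.sum_congr rfl fun i _ => Finset.sum_congr rfl fun j _ => ?_
  rw [Matrix.of_apply, norm_mul, sg_norm hM, one_mul]

end Pool.Agent.ZR.G

end

section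

/-!
# ZR, part G: partial sums of the switching polynomials.

`M` symmetric, signs, zero row sums (`IsSg`).  Every monomial in which a free index occurs in exactly
one factor `M` sums to `0` (`hM.row`, and `∑ k, M k l = 0` by symmetry).  Proofs: unfold, push the
sums through (`Finset.sum_add_distrib`, `Finset.sum_sub_distrib`), `Finset.mul_sum`, expand
`(M * M) k i = ∑ l, M k l * M l i` (`Matrix.mul_apply`), use `M * M = 1`-products only where stated
(`M i j * M i j = 1`).  The last four statements are pointwise: with `b = a` etc. and `a^2 = 1`.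
-/


open MeasureTheory ProbabilityTheory Matrix

namespace Pool.Agent.ZR.G

variable {n : ℕ}

theorem sg_col {M : Matrix (Fin n) (Fin n) ℂ} (hM : IsSg M) (j : Fin n) : ∑ i, M i j = 0 := by
  rw [← hM.row j]
  exact Finset.sum_congr rfl fun i _ => hM.sym i j

theorem sum_l_alt8 {M : Matrix (Fin n) (Fin n) ℂ} (hM : IsSg M) (i j k : Fin n) :
    ∑ l, alt8 M i j k l = (1 - M i j * M j k) * ((n : ℂ) - (M * M) k i) := by
  have e : ∀ l, alt8 M i j k l = (1 - M i j * M j k) + (M i j - M j k) * M k l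
      + (M j k - M i j) * M l i + (M i j * M j k - 1) * (M k l * M l i) := by
    intro l
    unfold alt8
    ring
  simp only [e, Finset.sum_add_distrib, ← Finset.mul_sum, hM.row, sg_col hM, Finset.sum_const,
    Finset.card_univ, Fintype.card_fin, nsmul_eq_mul, Matrix.mul_apply]
  ring

theorem sum_l_s8 {M : Matrix (Fin n) (Fin n) ℂ} (hM : IsSg M) (i j k : Fin n) :
    ∑ l, s8 M i j k l = (M i j - M j k) * ((n : ℂ) - (M * M) k i) := by
  have e : ∀ l, s8 M i j k l = (M i j - M j k) + (1 - M i j * M j k) * M k l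
      + (M i j * M j k - 1) * M l i + (M j k - M i j) * (M k l * M l i) := by
    intro l
    unfold s8
    ring
  simp only [e, Finset.sum_add_distrib, ← Finset.mul_sum, hM.row, sg_col hM, Finset.sum_const,
    Finset.card_univ, Fintype.card_fin, nsmul_eq_mul, Matrix.mul_apply]
  ring

theorem sq_col {M : Matrix (Fin n) (Fin n) ℂ} (hM : IsSg M) (i : Fin n) :
    ∑ k, (M * M) k i = 0 := by
  simp only [Matrix.mul_apply]
  rw [Finset.sum_comm]
  simp only [← Finset.sum_mul, sg_col hM, zero_mul, Finset.sum_const_zero]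

theorem sq_row {M : Matrix (Fin n) (Fin n) ℂ} (hM : IsSg M) (i : Fin n) :
    ∑ k, (M * M) i k = 0 := by
  simp only [Matrix.mul_apply]
  rw [Finset.sum_comm]
  simp only [← Finset.mul_sum, hM.row, mul_zero, Finset.sum_const_zero]

theorem cube_eq (M : Matrix (Fin n) (Fin n) ℂ) (i j : Fin n) :
    ∑ k, M j k * (M * M) k i = (M * M * M) j i := by
  rw [Matrix.mul_assoc, Matrix.mul_apply (M := M) (N := M * M)]

theorem sum_kl_alt8 {M : Matrix (Fin n) (Fin n) ℂ} (hM : IsSg M) (i j : Fin n) :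
    ∑ k, ∑ l, alt8 M i j k l = (n : ℂ) ^ 2 + M i j * (M * M * M) j i := by
  have e : ∀ k, ∑ l, alt8 M i j k l = (n : ℂ) + (-1) * (M * M) k i
      + (- (M i j * n)) * M j k + M i j * (M j k * (M * M) k i) := by
    intro k
    rw [sum_l_alt8 hM]
    ring
  simp only [e, Finset.sum_add_distrib, ← Finset.mul_sum, hM.row, sq_col hM, cube_eq,
    Finset.sum_const, Finset.card_univ, Fintype.card_fin, nsmul_eq_mul]
  ring

theorem sum_k_alt8 {M : Matrix (Fin n) (Fin n) ℂ} (hM : IsSg M) (i j l : Fin n) :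
    ∑ k, alt8 M i j k l = (1 - M i j * M l i) * ((n : ℂ) - (M * M) j l) := by
  have e : ∀ k, alt8 M i j k l = (1 - M i j * M l i) + (M l i - M i j) * M j k
      + (M i j - M l i) * M k l + (M i j * M l i - 1) * (M j k * M k l) := by
    intro k
    unfold alt8
    ring
  simp only [e, Finset.sum_add_distrib, ← Finset.mul_sum, hM.row, sg_col hM, Finset.sum_const,
    Finset.card_univ, Fintype.card_fin, nsmul_eq_mul, Matrix.mul_apply]
  ring

theorem sum_kl_s8 {M : Matrix (Fin n) (Fin n) ℂ} (hM : IsSg M) (i j : Fin n) :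
    ∑ k, ∑ l, s8 M i j k l = (n : ℂ) ^ 2 * M i j + (M * M * M) j i := by
  have e : ∀ k, ∑ l, s8 M i j k l = (n : ℂ) * M i j + (- M i j) * (M * M) k i
      + (- (n : ℂ)) * M j k + M j k * (M * M) k i := by
    intro k
    rw [sum_l_s8 hM]
    ring
  simp only [e, Finset.sum_add_distrib, ← Finset.mul_sum, hM.row, sq_col hM, cube_eq,
    Finset.sum_const, Finset.card_univ, Fintype.card_fin, nsmul_eq_mul]
  ring

theorem sum_l_s8_jj {M : Matrix (Fin n) (Fin n) ℂ} (hM : IsSg M) (i j : Fin n) :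
    ∑ l, s8 M i j j l = (M i j - M j j) * ((n : ℂ) - (M * M) j i) :=
  sum_l_s8 hM i j j

theorem sum_k_s8_kk {M : Matrix (Fin n) (Fin n) ℂ} (hM : IsSg M) (i j : Fin n) :
    ∑ k, s8 M i j k k = (n : ℂ) * M i j + M.trace - M i j * (∑ k, M j k * M k k)
      + M i j * (M * M) j i - M i j * (∑ k, M i k * M k k) + ∑ k, M j k * M k k * M k i := by
  have e : ∀ k, s8 M i j k k = M i j + (-1) * M j k + M k k + (-1) * M k i
      + (- M i j) * (M j k * M k k) + M i j * (M j k * M k i) + (- M i j) * (M i k * M k k)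
      + M j k * M k k * M k i := by
    intro k
    unfold s8
    rw [hM.sym k i]
    ring
  simp only [e, Finset.sum_add_distrib, ← Finset.mul_sum, hM.row, sg_col hM, Finset.sum_const,
    Finset.card_univ, Fintype.card_fin, nsmul_eq_mul, Matrix.mul_apply, Matrix.trace,
    Matrix.diag_apply]
  ring

theorem sum_k_s8_li {M : Matrix (Fin n) (Fin n) ℂ} (hM : IsSg M) (i j : Fin n) :
    ∑ k, s8 M i j k i = (M i j - M i i) * ((n : ℂ) - (M * M) j i) := by
  have e : ∀ k, s8 M i j k i = (M i j - M i i) + (M i j * M i i - 1) * M j k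
      + (1 - M i j * M i i) * M k i + (M i i - M i j) * (M j k * M k i) := by
    intro k
    unfold s8
    ring
  simp only [e, Finset.sum_add_distrib, ← Finset.mul_sum, hM.row, sg_col hM, Finset.sum_const,
    Finset.card_univ, Fintype.card_fin, nsmul_eq_mul, Matrix.mul_apply]
  ring

theorem sum_jk_s8p {M : Matrix (Fin n) (Fin n) ℂ} (hM : IsSg M) (i : Fin n) :
    ∑ j, ∑ k, s8p M i j k = (n : ℂ) ^ 2 * M i i - (n : ℂ) * M.trace
      + ∑ k, (M * M) i k * M k k := by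
  have e : ∀ j k, s8p M i j k = M i i + (-1) * M i j + M j k + (-1) * M k k
      + (- M i i) * (M i j * M j k) + M i i * (M i j * M k k) + (- M i i) * (M j k * M k k)
      + M i j * M j k * M k k := by
    intro j k
    unfold s8p
    ring
  simp only [e, Finset.sum_add_distrib, ← Finset.mul_sum, hM.row, mul_zero, add_zero,
    Finset.sum_const, Finset.card_univ, Fintype.card_fin, nsmul_eq_mul, ← Finset.sum_mul, zero_mul,
    Finset.sum_const_zero]
  have e1 : ∑ j, ∑ k, M j k * M k k = 0 := by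
    rw [Finset.sum_comm]
    simp only [← Finset.sum_mul, sg_col hM, zero_mul, Finset.sum_const_zero]
  have e2 : ∑ j, ∑ k, M i j * M j k * M k k = ∑ k, (M * M) i k * M k k := by
    rw [Finset.sum_comm]
    simp only [← Finset.sum_mul, Matrix.mul_apply]
  rw [e1, e2]
  simp only [Matrix.trace, Matrix.diag_apply]
  ring

theorem GSa_sq {M : Matrix (Fin n) (Fin n) ℂ} (hM : IsSg M) (i j : Fin n) : M i j ^ 2 = 1 := by
  rcases hM.sgn i j with h | h <;> rw [h] <;> norm_num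

theorem alt8_ki {M : Matrix (Fin n) (Fin n) ℂ} (hM : IsSg M) (i j l : Fin n) :
    alt8 M i j i l = 0 := by
  unfold alt8
  rw [hM.sym j i, hM.sym l i]
  linear_combination (M i l ^ 2 - 1) * GSa_sq hM i j

theorem alt8_lj {M : Matrix (Fin n) (Fin n) ℂ} (hM : IsSg M) (i j k : Fin n) :
    alt8 M i j k j = 0 := by
  unfold alt8
  rw [hM.sym j i, hM.sym k j]
  linear_combination (M j k ^ 2 - 1) * GSa_sq hM i j

theorem s8_ki {M : Matrix (Fin n) (Fin n) ℂ} (hM : IsSg M) (i j l : Fin n) :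
    s8 M i j i l = 0 := by
  unfold s8
  rw [hM.sym j i, hM.sym l i]
  ring

theorem s8_lj {M : Matrix (Fin n) (Fin n) ℂ} (hM : IsSg M) (i j k : Fin n) :
    s8 M i j k j = 0 := by
  unfold s8
  rw [hM.sym j i, hM.sym k j]
  ring

theorem alt8_norm {M : Matrix (Fin n) (Fin n) ℂ} (hM : IsSg M) (i j k l : Fin n) :
    ‖alt8 M i j k l‖ ≤ 8 := by
  unfold alt8
  rcases hM.sgn i j with h1 | h1 <;> rcases hM.sgn j k with h2 | h2 <;>
  rcases hM.sgn k l with h3 | h3 <;> rcases hM.sgn l i with h4 | h4 <;>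
  rw [h1, h2, h3, h4] <;> norm_num

theorem s8_norm {M : Matrix (Fin n) (Fin n) ℂ} (hM : IsSg M) (i j k l : Fin n) :
    ‖s8 M i j k l‖ ≤ 8 := by
  unfold s8
  rcases hM.sgn i j with h1 | h1 <;> rcases hM.sgn j k with h2 | h2 <;>
  rcases hM.sgn k l with h3 | h3 <;> rcases hM.sgn l i with h4 | h4 <;>
  rw [h1, h2, h3, h4] <;> norm_num

theorem s8p_norm {M : Matrix (Fin n) (Fin n) ℂ} (hM : IsSg M) (i j k : Fin n) :
    ‖s8p M i j k‖ ≤ 8 := by
  unfold s8p
  rcases hM.sgn i i with h1 | h1 <;> rcases hM.sgn i j with h2 | h2 <;>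
  rcases hM.sgn j k with h3 | h3 <;> rcases hM.sgn k k with h4 | h4 <;>
  rw [h1, h2, h3, h4] <;> norm_num

end Pool.Agent.ZR.G

end

section

/-!
# ZR, part G: removing coincidences of indices from four-fold sums.

* `sum4_adj_err`: the complement of `Adj4` is contained in the union of the four sets `i = j`,
  `j = k`, `k = l`, `l = i`, each with `n^3` elements.
* `sum4_incl_excl`: put `χ = 1` on `Adj4`, `0` else, and `ψ = 1 - [i=j] - [j=k] - [k=l] - [l=i]`.  With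
  `m` = number of the four equalities that hold, `χ - ψ = 0` for `m = 0` and `m = 1`, and
  `χ - ψ = m - 1 ∈ [1, 3]` for `m ≥ 2`; the tuples with `m ≥ 2` are contained in the union of 6 sets
  with (at most) `n^2` elements (two of the equalities hold).  `∑ ψ F` is the expression in brackets.
  (Possible bookkeeping: `χ - ψ ≤ ∑` over the 6 pairs of the product of the two indicators times 1:
  for `m = 2`: `1 ≤ 1`; `m = 3`: `2 ≤ 3`; `m = 4`: `3 ≤ 6`; so even `6 n^2 b` is true.)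
* `sum3_dist_err`: the complement is contained in `i = j`, `j = k`, `i = k`.
-/


open MeasureTheory ProbabilityTheory Matrix

namespace Pool.Agent.ZR.G

variable {n : ℕ}

private theorem s4_sum (c : Fin n → Fin n → Fin n → Fin n → ℝ)
    (A B : Fin n → Fin n → Fin n → Fin n → ℂ) (b : ℝ)
    (h : ∀ i j k l, ‖A i j k l - B i j k l‖ ≤ b * c i j k l) :
    ‖(∑ i, ∑ j, ∑ k, ∑ l, A i j k l) - ∑ i, ∑ j, ∑ k, ∑ l, B i j k l‖
      ≤ b * ∑ i, ∑ j, ∑ k, ∑ l, c i j k l := by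
  simp only [← Finset.sum_sub_distrib, Finset.mul_sum]
  refine (norm_sum_le _ _).trans (Finset.sum_le_sum fun i _ => ?_)
  refine (norm_sum_le _ _).trans (Finset.sum_le_sum fun j _ => ?_)
  refine (norm_sum_le _ _).trans (Finset.sum_le_sum fun k _ => ?_)
  exact (norm_sum_le _ _).trans (Finset.sum_le_sum fun l _ => h i j k l)

private theorem s3_sum (c : Fin n → Fin n → Fin n → ℝ)
    (A B : Fin n → Fin n → Fin n → ℂ) (b : ℝ)
    (h : ∀ i j k, ‖A i j k - B i j k‖ ≤ b * c i j k) :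
    ‖(∑ i, ∑ j, ∑ k, A i j k) - ∑ i, ∑ j, ∑ k, B i j k‖
      ≤ b * ∑ i, ∑ j, ∑ k, c i j k := by
  simp only [← Finset.sum_sub_distrib, Finset.mul_sum]
  refine (norm_sum_le _ _).trans (Finset.sum_le_sum fun i _ => ?_)
  refine (norm_sum_le _ _).trans (Finset.sum_le_sum fun j _ => ?_)
  exact (norm_sum_le _ _).trans (Finset.sum_le_sum fun k _ => h i j k)

private theorem d_ij : ∑ i : Fin n, ∑ j : Fin n, ∑ _k : Fin n, ∑ _l : Fin n,
    (if i = j then (1 : ℝ) else 0) = (n : ℝ) ^ 3 := by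
  simp
  try ring

private theorem d_jk : ∑ _i : Fin n, ∑ j : Fin n, ∑ k : Fin n, ∑ _l : Fin n,
    (if j = k then (1 : ℝ) else 0) = (n : ℝ) ^ 3 := by
  simp
  try ring

private theorem d_kl : ∑ _i : Fin n, ∑ _j : Fin n, ∑ k : Fin n, ∑ l : Fin n,
    (if k = l then (1 : ℝ) else 0) = (n : ℝ) ^ 3 := by
  simp
  try ring

private theorem d_li : ∑ i : Fin n, ∑ _j : Fin n, ∑ _k : Fin n, ∑ l : Fin n,
    (if l = i then (1 : ℝ) else 0) = (n : ℝ) ^ 3 := by
  simp
  try ring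

theorem sum4_adj_err (F : Fin n → Fin n → Fin n → Fin n → ℂ) (b : ℝ)
    (hF : ∀ i j k l, ‖F i j k l‖ ≤ b) :
    ‖(∑ i, ∑ j, ∑ k, ∑ l, if Adj4 i j k l then F i j k l else 0)
      - ∑ i, ∑ j, ∑ k, ∑ l, F i j k l‖ ≤ 4 * (n : ℝ) ^ 3 * b := by
  have h := s4_sum (fun i j k l : Fin n => (if i = j then (1 : ℝ) else 0)
      + (if j = k then 1 else 0) + (if k = l then 1 else 0) + (if l = i then 1 else 0))
    (fun i j k l => if Adj4 i j k l then F i j k l else 0) F b (by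
      intro i j k l
      have hb : 0 ≤ b := (norm_nonneg _).trans (hF i j k l)
      have h1 := hF i j k l
      by_cases hA : Adj4 i j k l
      · rw [if_pos hA, sub_self, norm_zero]
        refine mul_nonneg hb ?_
        refine add_nonneg (add_nonneg (add_nonneg ?_ ?_) ?_) ?_ <;> split_ifs <;> norm_num
      · rw [if_neg hA, zero_sub, norm_neg]
        refine h1.trans ?_
        have h2 : (1 : ℝ) ≤ (if i = j then (1 : ℝ) else 0)
            + (if j = k then 1 else 0) + (if k = l then 1 else 0) + (if l = i then 1 else 0) := by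
          unfold Adj4 at hA
          by_cases h1 : i = j
          · rw [if_pos h1]; split_ifs <;> norm_num
          · by_cases h2 : j = k
            · rw [if_pos h2]; split_ifs <;> norm_num
            · by_cases h3 : k = l
              · rw [if_pos h3]; split_ifs <;> norm_num
              · by_cases h4 : l = i
                · rw [if_pos h4]; split_ifs <;> norm_num
                · exact absurd ⟨h1, h2, h3, h4⟩ hA
        nlinarith [mul_le_mul_of_nonneg_left h2 hb])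
  refine h.trans (le_of_eq ?_)
  simp only [Finset.sum_add_distrib]
  rw [d_ij, d_jk, d_kl, d_li]
  ring

private theorem pt4 (p q r s : Prop) [Decidable p] [Decidable q] [Decidable r] [Decidable s]
    (z : ℂ) (b : ℝ) (hz : ‖z‖ ≤ b) :
    ‖(if (¬ p ∧ ¬ q ∧ ¬ r ∧ ¬ s) then z else 0)
      - (z - (if p then z else 0) - (if q then z else 0) - (if r then z else 0)
        - (if s then z else 0))‖
      ≤ b * ((if p then (1 : ℝ) else 0) * (if q then 1 else 0)
        + (if p then (1 : ℝ) else 0) * (if r then 1 else 0)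
        + (if p then (1 : ℝ) else 0) * (if s then 1 else 0)
        + (if q then (1 : ℝ) else 0) * (if r then 1 else 0)
        + (if q then (1 : ℝ) else 0) * (if s then 1 else 0)
        + (if r then (1 : ℝ) else 0) * (if s then 1 else 0)) := by
  have hb : 0 ≤ b := (norm_nonneg _).trans hz
  have e0 : ‖(0 : ℂ) - (z - z - z)‖ ≤ b := by
    rw [show (0 : ℂ) - (z - z - z) = z by ring]; exact hz
  have e1 : ‖(0 : ℂ) - (z - z - z - z)‖ ≤ b * 3 := by
    rw [show (0 : ℂ) - (z - z - z - z) = 2 * z by ring, norm_mul]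
    have : ‖(2 : ℂ)‖ = 2 := by simp
    rw [this]; linarith
  have e2 : ‖(0 : ℂ) - (z - z - z - z - z)‖ ≤ b * 6 := by
    rw [show (0 : ℂ) - (z - z - z - z - z) = 3 * z by ring, norm_mul]
    have : ‖(3 : ℂ)‖ = 3 := by simp
    rw [this]; linarith
  by_cases hp : p <;> by_cases hq : q <;> by_cases hr : r <;> by_cases hs : s <;>
    simp only [hp, hq, hr, hs, not_true_eq_false, not_false_eq_true, and_self, and_true, true_and,
      and_false, false_and, if_true, if_false, mul_one, mul_zero, add_zero, zero_add, sub_zero]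
  all_goals first
    | (norm_num; done)
    | (refine e0.trans ?_; linarith)
    | (refine e1.trans ?_; linarith)
    | (refine e2.trans ?_; linarith)
    | (rw [show (0 : ℂ) - (z - z) = 0 by ring, norm_zero]; nlinarith)
    | (rw [show z - z = 0 by ring, norm_zero]; nlinarith)

private theorem q1 : ∑ i : Fin n, ∑ j : Fin n, ∑ k : Fin n, ∑ _l : Fin n,
    (if i = j then (1 : ℝ) else 0) * (if j = k then 1 else 0) = (n : ℝ) ^ 2 := by
  simp
  try ring

private theorem q2 : ∑ i : Fin n, ∑ j : Fin n, ∑ k : Fin n, ∑ l : Fin n,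
    (if i = j then (1 : ℝ) else 0) * (if k = l then 1 else 0) = (n : ℝ) ^ 2 := by
  simp
  try ring

private theorem q3 : ∑ i : Fin n, ∑ j : Fin n, ∑ _k : Fin n, ∑ l : Fin n,
    (if i = j then (1 : ℝ) else 0) * (if l = i then 1 else 0) = (n : ℝ) ^ 2 := by
  simp
  try ring

private theorem q4 : ∑ _i : Fin n, ∑ j : Fin n, ∑ k : Fin n, ∑ l : Fin n,
    (if j = k then (1 : ℝ) else 0) * (if k = l then 1 else 0) = (n : ℝ) ^ 2 := by
  simp
  try ring

private theorem q5 : ∑ i : Fin n, ∑ j : Fin n, ∑ k : Fin n, ∑ l : Fin n,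
    (if j = k then (1 : ℝ) else 0) * (if l = i then 1 else 0) = (n : ℝ) ^ 2 := by
  simp
  try ring

private theorem q6 : ∑ i : Fin n, ∑ _j : Fin n, ∑ k : Fin n, ∑ l : Fin n,
    (if k = l then (1 : ℝ) else 0) * (if l = i then 1 else 0) = (n : ℝ) ^ 2 := by
  simp
  try ring

theorem sum4_incl_excl (F : Fin n → Fin n → Fin n → Fin n → ℂ) (b : ℝ)
    (hF : ∀ i j k l, ‖F i j k l‖ ≤ b) :
    ‖(∑ i, ∑ j, ∑ k, ∑ l, if Adj4 i j k l then F i j k l else 0)
      - ((∑ i, ∑ j, ∑ k, ∑ l, F i j k l) - (∑ i, ∑ k, ∑ l, F i i k l)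
        - (∑ i, ∑ j, ∑ l, F i j j l) - (∑ i, ∑ j, ∑ k, F i j k k)
        - ∑ i, ∑ j, ∑ k, F i j k i)‖ ≤ 18 * (n : ℝ) ^ 2 * b := by
  have e1 : ∑ i, ∑ k, ∑ l, F i i k l
      = ∑ i, ∑ j, ∑ k, ∑ l, (if i = j then F i j k l else 0) := by
    refine Finset.sum_congr rfl fun i _ => ?_
    symm
    refine (Finset.sum_eq_single i ?_ ?_).trans ?_
    · intro j _ hj
      simp [Ne.symm hj]
    · simp
    · simp
  have e2 : ∑ i, ∑ j, ∑ l, F i j j l
      = ∑ i, ∑ j, ∑ k, ∑ l, (if j = k then F i j k l else 0) := by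
    refine Finset.sum_congr rfl fun i _ => Finset.sum_congr rfl fun j _ => ?_
    symm
    refine (Finset.sum_eq_single j ?_ ?_).trans ?_
    · intro k _ hk
      simp [Ne.symm hk]
    · simp
    · simp
  have e3 : ∑ i, ∑ j, ∑ k, F i j k k
      = ∑ i, ∑ j, ∑ k, ∑ l, (if k = l then F i j k l else 0) := by
    simp
  have e4 : ∑ i, ∑ j, ∑ k, F i j k i
      = ∑ i, ∑ j, ∑ k, ∑ l, (if l = i then F i j k l else 0) := by
    simp
  rw [e1, e2, e3, e4]
  have h := s4_sum (fun i j k l : Fin n => (if i = j then (1 : ℝ) else 0) * (if j = k then 1 else 0)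
        + (if i = j then (1 : ℝ) else 0) * (if k = l then 1 else 0)
        + (if i = j then (1 : ℝ) else 0) * (if l = i then 1 else 0)
        + (if j = k then (1 : ℝ) else 0) * (if k = l then 1 else 0)
        + (if j = k then (1 : ℝ) else 0) * (if l = i then 1 else 0)
        + (if k = l then (1 : ℝ) else 0) * (if l = i then 1 else 0))
    (fun i j k l => if Adj4 i j k l then F i j k l else 0)
    (fun i j k l => F i j k l - (if i = j then F i j k l else 0) - (if j = k then F i j k l else 0)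
      - (if k = l then F i j k l else 0) - (if l = i then F i j k l else 0)) b (by
      intro i j k l
      exact pt4 (i = j) (j = k) (k = l) (l = i) (F i j k l) b (hF i j k l))
  simp only [Finset.sum_sub_distrib] at h
  refine h.trans ?_
  simp only [Finset.sum_add_distrib]
  rw [q1, q2, q3, q4, q5, q6]
  rcases Nat.eq_zero_or_pos n with hn | hn
  · subst hn; simp
  · have hb : 0 ≤ b := (norm_nonneg _).trans (hF ⟨0, hn⟩ ⟨0, hn⟩ ⟨0, hn⟩ ⟨0, hn⟩)
    have hn2 : (0 : ℝ) ≤ (n : ℝ) ^ 2 := by positivity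
    nlinarith [mul_nonneg hb hn2]

theorem sum3_dist_err (F : Fin n → Fin n → Fin n → ℂ) (b : ℝ)
    (hF : ∀ i j k, ‖F i j k‖ ≤ b) :
    ‖(∑ i, ∑ j, ∑ k, if i ≠ j ∧ j ≠ k ∧ i ≠ k then F i j k else 0)
      - ∑ i, ∑ j, ∑ k, F i j k‖ ≤ 3 * (n : ℝ) ^ 2 * b := by
  have h := s3_sum (fun i j k : Fin n => (if i = j then (1 : ℝ) else 0)
      + (if j = k then 1 else 0) + (if i = k then 1 else 0))
    (fun i j k => if i ≠ j ∧ j ≠ k ∧ i ≠ k then F i j k else 0) F b (by
      intro i j k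
      have hb : 0 ≤ b := (norm_nonneg _).trans (hF i j k)
      have h1 := hF i j k
      by_cases hA : i ≠ j ∧ j ≠ k ∧ i ≠ k
      · rw [if_pos hA, sub_self, norm_zero]
        refine mul_nonneg hb ?_
        refine add_nonneg (add_nonneg ?_ ?_) ?_ <;> split_ifs <;> norm_num
      · rw [if_neg hA, zero_sub, norm_neg]
        refine h1.trans ?_
        have h2 : (1 : ℝ) ≤ (if i = j then (1 : ℝ) else 0)
            + (if j = k then 1 else 0) + (if i = k then 1 else 0) := by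
          by_cases h1 : i = j
          · rw [if_pos h1]; split_ifs <;> norm_num
          · by_cases h2 : j = k
            · rw [if_pos h2]; split_ifs <;> norm_num
            · by_cases h3 : i = k
              · rw [if_pos h3]; split_ifs <;> norm_num
              · exact absurd ⟨h1, h2, h3⟩ hA
        nlinarith [mul_le_mul_of_nonneg_left h2 hb])
  refine h.trans (le_of_eq ?_)
  simp only [Finset.sum_add_distrib]
  have a1 : ∑ i : Fin n, ∑ j : Fin n, ∑ _k : Fin n, (if i = j then (1 : ℝ) else 0)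
      = (n : ℝ) ^ 2 := by
    simp
    try ring
  have a2 : ∑ _i : Fin n, ∑ j : Fin n, ∑ k : Fin n, (if j = k then (1 : ℝ) else 0)
      = (n : ℝ) ^ 2 := by
    simp
    try ring
  have a3 : ∑ i : Fin n, ∑ _j : Fin n, ∑ k : Fin n, (if i = k then (1 : ℝ) else 0)
      = (n : ℝ) ^ 2 := by
    simp
    try ring
  rw [a1, a2, a3]
  ring

end Pool.Agent.ZR.G

end

section

/-!
# ZR interface of part B (helper2): norm bounds for `H_0` and `W`, second moment of the trace of `M`.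

`BNorm` is in `IfM`.  Proofs: `ZR/PB1` ... `ZR/PB7` (theorems `bNorm : BNorm`, `bH0 : BH0`,
`bWv : BWv`, `eT2 : ET2`, `sn_card_lower`).
-/


open MeasureTheory ProbabilityTheory Matrix

namespace Pool.Agent.ZR

open Classical in
/-- norm bound for `H_0` alone: the proportion of patterns with `‖H_0‖ > K log n` is at most `e^{-n}` -/
def BH0 : Prop :=
  ∃ K : ℝ, 0 < K ∧ ∃ n0 : ℕ, ∀ n : ℕ, n0 ≤ n → Even n →
    (((Sn n).filter (fun σ => ¬ OpLe (toC (H0 σ)) (K * Real.log n))).card : ℝ)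
      ≤ Real.exp (-(n : ℝ)) * ((Sn n).card : ℝ)

/-- norm bound for the GOE alone -/
def BWv : Prop :=
  ∃ K : ℝ, 0 < K ∧ ∃ n0 : ℕ, ∀ n : ℕ, n0 ≤ n →
    (gm n).real {X | ¬ OpLe (toC (Wv (N := n) (1 / (n : ℝ)) X)) (K * Real.log n)}
      ≤ Real.exp (-(n : ℝ))

/-- second moment of `T = (1/n) tr M` -/
def ET2 : Prop :=
  ∃ C : ℝ, 0 < C ∧ ∃ n0 : ℕ, ∀ n : ℕ, n0 ≤ n → Even n →
    EU (n := n) (fun σ => ((1 / (n : ℝ)) * (Mx σ).trace) ^ 2) ≤ C * (Real.log n) ^ 2 / n

end Pool.Agent.ZR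

end

section

/-!
# ZR interface of part F, second statement: the residual of the local law for `H_0 G`.
-/


open MeasureTheory ProbabilityTheory Matrix

namespace Pool.Agent.ZR

/-- `R_xy = (H_0 G)_xy + α m G_xy` is at most `n^ν` outside an event of probability `n^(-D)`,
pointwise in the spectral parameter `E + iu`, `u ≥ n^(-1+ν)`. -/
def FRes : Prop :=
  ∀ ν D : ℝ, 0 < ν → 0 < D → ∃ n0 : ℕ, ∀ n : ℕ, n0 ≤ n → Even n →
    ∀ α β : ℝ, 0 ≤ α → 0 ≤ β → α ^ 2 + β ^ 2 = 1 → ∀ E u : ℝ, |E| ≤ 2 →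
      (n : ℝ) ^ (-1 + ν) ≤ u → u ≤ (n : ℝ) ^ 3 →
      PJ (n := n) (fun σ X => ∃ x y : Fin n,
        (n : ℝ) ^ ν < ‖(toC (H0 σ) * Gz (Pn n) (Bm α β σ X) (⟨E, u⟩ : ℂ)) x y
          + (α : ℂ) * mz (Pn n) (Bm α β σ X) (⟨E, u⟩ : ℂ)
            * Gz (Pn n) (Bm α β σ X) (⟨E, u⟩ : ℂ) x y‖)
        ≤ (n : ℝ) ^ (-D)

end Pool.Agent.ZR

end

section

/-!
# ZR interface of parts E (loop equation), G (switching estimate), H1.
-/


open MeasureTheory ProbabilityTheory Matrix

namespace Pool.Agent.ZR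

/-- admissible spectral parameters: `η ≤ |Im z| ≤ n³`, `|Re z| ≤ 2 + |Im z|` -/
def Adm (n : ℕ) (η : ℝ) (z : ℂ) : Prop :=
  η ≤ |z.im| ∧ |z.im| ≤ (n : ℝ) ^ 3 ∧ |z.re| ≤ 2 + |z.im|

/-- The functional `𝓔(z; Θ)`, `Θ = ∏ (m(z_l) - c_l)`:
`E[((1/n) tr(H_0 G) + α (m² + n⁻² tr G²)) Θ] + (2α/n³) ∑_l E[tr(G G_l²) ∏_{l'≠l} (m_l' - c_l')]`. -/
noncomputable def Ecal (n : ℕ) (α β : ℝ) {K : ℕ} (zl cl : Fin K → ℂ) (z : ℂ) : ℂ :=
  EJ (n := n) (fun σ X =>
    ((1 / (n : ℂ)) * (toC (H0 σ) * Gz (Pn n) (Bm α β σ X) z).trace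
      + (α : ℂ) * ((mz (Pn n) (Bm α β σ X) z) ^ 2
        + (1 / (n : ℂ) ^ 2) * (Gz (Pn n) (Bm α β σ X) z ^ 2).trace))
      * ∏ l, (mz (Pn n) (Bm α β σ X) (zl l) - cl l)
    + (2 * (α : ℂ) / (n : ℂ) ^ 3) * ∑ l,
        (Gz (Pn n) (Bm α β σ X) z * Gz (Pn n) (Bm α β σ X) (zl l) ^ 2).trace
          * ∏ l' ∈ Finset.univ.erase l, (mz (Pn n) (Bm α β σ X) (zl l') - cl l'))

/-- PART G, final statement. -/
def GMain : Prop :=
  ∀ K : ℕ, ∃ C : ℝ, 0 < C ∧ ∀ c ν D : ℝ, 0 ≤ c → c < 1 → 0 < ν → 0 < D →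
    ∃ n0 : ℕ, ∀ n : ℕ, n0 ≤ n → Even n →
      ∀ α β : ℝ, 0 ≤ α → 0 ≤ β → α ^ 2 + β ^ 2 = 1 →
      ∀ (η : ℝ) (z : ℂ) (zl cl : Fin K → ℂ), (n : ℝ) ^ (-1 - c) ≤ η → Adm n η z →
        (∀ l, Adm n η (zl l)) → (∀ l, ‖cl l‖ ≤ (n : ℝ) ^ 3) →
        ‖Ecal n α β zl cl z‖ ≤ (n : ℝ) ^ (-1 + C * (ν + c)) *
            Real.sqrt (EJ (n := n) (fun σ X =>
              (∏ l, (‖mz (Pn n) (Bm α β σ X) (zl l) - cl l‖ + (n : ℝ) ^ ν / (n * η))) ^ 2))
          + (n : ℝ) ^ (-D)

/-- PART E: loop equation for `P W P`. -/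
def EMain : Prop :=
  ∀ p : ℕ, ∃ C : ℝ, 0 < C ∧ ∀ n : ℕ, 0 < n → ∀ z : ℂ, 0 < z.im → |z.re| ≤ 2 + z.im →
    1 ≤ n * z.im →
    ∫ X, ‖1 + z * mz (Pn n) (Pn n * Wv (1 / (n : ℝ)) X * Pn n) z
        + mz (Pn n) (Pn n * Wv (1 / (n : ℝ)) X * Pn n) z ^ 2‖ ^ (2 * p) ∂(gm n)
      ≤ C * (1 / (n : ℝ) + 1 / (n * z.im)) ^ (2 * p)

/-- PART E: loop equation for the GOE. -/
def EMainG : Prop :=
  ∀ p : ℕ, ∃ C : ℝ, 0 < C ∧ ∀ n : ℕ, 0 < n → ∀ z : ℂ, 0 < z.im → |z.re| ≤ 2 + z.im →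
    1 ≤ n * z.im →
    ∫ X, ‖1 + z * mz 1 (Wv (N := n) (1 / (n : ℝ)) X) z
        + mz 1 (Wv (N := n) (1 / (n : ℝ)) X) z ^ 2‖ ^ (2 * p) ∂(gm n)
      ≤ C / (n * z.im) ^ (2 * p)

/-- PART H, first statement: the `L²` local law. -/
def HH1 : Prop :=
  ∀ ν : ℝ, 0 < ν → ∃ n0 : ℕ, ∀ n : ℕ, n0 ≤ n → Even n →
    ∀ α β : ℝ, 0 ≤ α → 0 ≤ β → α ^ 2 + β ^ 2 = 1 →
    ∀ z : ℂ, (n : ℝ) ^ (-1 + ν) ≤ z.im → z.im ≤ (n : ℝ) ^ 2 → |z.re| ≤ 2 →
      EJ (n := n) (fun σ X => ‖mz (Pn n) (Bm α β σ X) z - msc z‖ ^ 2)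
        ≤ (n : ℝ) ^ ν / (n * z.im) ^ 2 * (1 + 1 / (z.im + (msc z).im) ^ 2)

end Pool.Agent.ZR

end

section

/-!
# ZR interface of part L (energy averages of full sums = labelled gap statistics).
-/


open MeasureTheory ProbabilityTheory Matrix

namespace Pool.Agent.ZR

/-- energy average of the full (not nec. distinct) `k`-point sum -/
noncomputable def Ufull {N : ℕ} (n : ℕ) {k : ℕ} (F : (Fin k → ℝ) → ℝ) (E b : ℝ)
    (A : Matrix (Fin N) (Fin N) ℝ) : ℝ :=
  (1 / (2 * b)) * ∫ x in (E - b)..(E + b), ∑ f : Fin k → Fin N,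
    F (fun q => (n : ℝ) * rho x * (evs A (f q) - x))

/-- deterministic index set of the window `[E - b, E + b]` -/
noncomputable def JJ (n : ℕ) (E b : ℝ) : Finset ℕ := by
  classical
  exact (Finset.range n).filter (fun i => (n : ℝ) * Fsc (E - b) ≤ i ∧ (i : ℝ) < n * Fsc (E + b))

/-- PART L, final statement (`k + 1` points; `ν` is the exponent of all the local bounds). -/
def LFinal : Prop :=
  ∀ (k : ℕ) (F : (Fin (k + 1) → ℝ) → ℝ) (E ε : ℝ), ContDiff ℝ 1 F → HasCompactSupport F →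
    -2 < E → E < 2 → 0 < ε → ε < 1 →
    ∃ G : (Fin k → ℝ) → ℝ, ContDiff ℝ 1 G ∧ HasCompactSupport G ∧
      ∀ ν : ℝ, 0 < ν → (2 * k + 6) * ν < ε → (2 * k + 6) * ν < 1 - ε → ∃ n0 : ℕ, ∀ n : ℕ, n0 ≤ n →
        ∀ (Ω : Type) [MeasurableSpace Ω] (P' : Measure Ω) [IsProbabilityMeasure P']
          (A : Ω → Matrix (Fin n) (Fin n) ℝ), (∀ i j, Measurable (fun ω => A ω i j)) →
          (∀ ω, (A ω).IsSymm) →
          (∀ x r : ℝ, 1 / (n : ℝ) ≤ r →
            P'.real {ω | (n : ℝ) ^ ν * (n * r) ≤ (cntI (A ω) x r : ℝ)}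
              ≤ (n : ℝ) ^ (-((4 * k + 12 : ℕ) : ℝ))) →
          (∀ x : ℝ, |x - E| ≤ 2 * (n : ℝ) ^ (-1 + ε) →
            ∫ ω, |(cnt (A ω) x : ℝ) - n * Fsc x| ∂P' ≤ (n : ℝ) ^ ν) →
          |(∫ ω, Ufull n F E ((n : ℝ) ^ (-1 + ε)) (A ω) ∂P')
            - ((JJ n E ((n : ℝ) ^ (-1 + ε))).card : ℝ) / (2 * (n : ℝ) ^ ε * rho E) *
              ∑ m ∈ Fintype.piFinset (fun _ : Fin k =>
                  Finset.Icc (-(⌈(n : ℝ) ^ (2 * ν)⌉₊ : ℤ)) (⌈(n : ℝ) ^ (2 * ν)⌉₊ : ℤ)),
                ∫ ω, Lab (JJ n E ((n : ℝ) ^ (-1 + ε))) m ((n : ℝ) * rho E) G (A ω) ∂P'|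
            ≤ (n : ℝ) ^ ((2 * k + 6) * ν - min ε (1 - ε))

end Pool.Agent.ZR

end

section

/-!
# ZR (helper58): Weyl inequality, Lipschitz continuity and measurability of `evs`
-/


open MeasureTheory ProbabilityTheory Matrix

namespace Pool.Agent.ZR.K1

lemma quad_diag {N : ℕ} (O : Matrix (Fin N) (Fin N) ℝ) (d : Fin N → ℝ) (x : Fin N → ℝ) :
    x ⬝ᵥ ((O * Matrix.diagonal d * Oᵀ) *ᵥ x) = ∑ j, d j * (Oᵀ *ᵥ x) j ^ 2 := by
  rw [← Matrix.mulVec_mulVec, ← Matrix.mulVec_mulVec, Matrix.dotProduct_mulVec,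
    ← Matrix.mulVec_transpose]
  simp only [dotProduct, Matrix.mulVec_diagonal]
  exact Finset.sum_congr rfl fun j _ => by ring

lemma sq_orth {N : ℕ} {O : Matrix (Fin N) (Fin N) ℝ} (hO : O * Oᵀ = 1) (x : Fin N → ℝ) :
    ∑ j, (Oᵀ *ᵥ x) j ^ 2 = x ⬝ᵥ x := by
  have h1 := quad_diag O (fun _ => 1) x
  have h2 : Matrix.diagonal (fun _ : Fin N => (1 : ℝ)) = 1 := by
    ext i j; simp [Matrix.diagonal_apply, Matrix.one_apply]
  rw [h2, Matrix.mul_one, hO, Matrix.one_mulVec] at h1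
  rw [h1]; simp

/-- **Weyl inequality** -/
theorem weyl {N : ℕ} {A B : Matrix (Fin N) (Fin N) ℝ} (hA : A.IsSymm) (hB : B.IsSymm) (δ : ℝ)
    (h : ∀ x : Fin N → ℝ, x ⬝ᵥ (A *ᵥ x) ≤ x ⬝ᵥ (B *ᵥ x) + δ * (x ⬝ᵥ x)) (i : ℕ) (hi : i < N) :
    evs A i ≤ evs B i + δ := by
  obtain ⟨P, hP1, hP2, hPA⟩ := exists_orth_evs hA
  obtain ⟨Q, hQ1, hQ2, hQB⟩ := exists_orth_evs hB
  -- the map of coefficients
  let ex : (Fin (i + 1) → ℝ) →ₗ[ℝ] (Fin N → ℝ) :=
    { toFun := fun d k => if hk : (k : ℕ) ≤ i then d ⟨k, Nat.lt_succ_of_le hk⟩ else 0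
      map_add' := by
        intro d e; ext k
        by_cases hk : (k : ℕ) ≤ i <;> simp [hk]
      map_smul' := by
        intro c d; ext k
        by_cases hk : (k : ℕ) ≤ i <;> simp [hk] }
  let pr : (Fin N → ℝ) →ₗ[ℝ] (Fin i → ℝ) :=
    { toFun := fun y j => y ⟨j, by omega⟩
      map_add' := by intro d e; rfl
      map_smul' := by intro c d; rfl }
  let f : (Fin (i + 1) → ℝ) →ₗ[ℝ] (Fin i → ℝ) :=
    pr.comp ((Matrix.mulVecLin Pᵀ).comp ((Matrix.mulVecLin Q).comp ex))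
  have hk : LinearMap.ker f ≠ ⊥ := by
    apply LinearMap.ker_ne_bot_of_finrank_lt
    simp
  obtain ⟨d, hd, hd0⟩ := Submodule.exists_mem_ne_zero_of_ne_bot hk
  rw [LinearMap.mem_ker] at hd
  set e : Fin N → ℝ := ex d with he
  set x : Fin N → ℝ := Q *ᵥ e with hx
  have hQx : Qᵀ *ᵥ x = e := by
    rw [hx, Matrix.mulVec_mulVec, hQ1, Matrix.one_mulVec]
  have hPx : ∀ j : Fin N, (j : ℕ) < i → (Pᵀ *ᵥ x) j = 0 := by
    intro j hj
    have := congrFun hd ⟨j, hj⟩
    exact this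
  have hex : ∀ j : Fin N, ¬ (j : ℕ) ≤ i → e j = 0 := by
    intro j hj
    simp only [he, ex, LinearMap.coe_mk, AddHom.coe_mk, dif_neg hj]
  have hpos : 0 < x ⬝ᵥ x := by
    rw [← sq_orth hQ2 x, hQx]
    obtain ⟨k, hk⟩ := Function.ne_iff.mp hd0
    have hkN : (k : ℕ) < N := by have := k.2; omega
    have h1 : e ⟨k, hkN⟩ = d k := by
      have hki : (k : ℕ) ≤ i := Nat.lt_succ_iff.mp k.2
      simp only [he, ex, LinearMap.coe_mk, AddHom.coe_mk, dif_pos hki]
    refine Finset.sum_pos' (fun _ _ => sq_nonneg _) ⟨⟨k, hkN⟩, Finset.mem_univ _, ?_⟩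
    rw [h1]
    exact sq_pos_of_ne_zero hk
  have hxA : evs A i * (x ⬝ᵥ x) ≤ x ⬝ᵥ (A *ᵥ x) := by
    conv_rhs => rw [hPA]
    rw [quad_diag, ← sq_orth hP2 x, Finset.mul_sum]
    refine Finset.sum_le_sum fun j _ => ?_
    by_cases hj : (j : ℕ) < i
    · rw [hPx j hj]; simp
    · exact mul_le_mul_of_nonneg_right (evs_mono hA (not_lt.mp hj) j.2) (sq_nonneg _)
  have hxB : x ⬝ᵥ (B *ᵥ x) ≤ evs B i * (x ⬝ᵥ x) := by
    conv_lhs => rw [hQB]
    rw [quad_diag, ← sq_orth hQ2 x, Finset.mul_sum, hQx]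
    refine Finset.sum_le_sum fun j _ => ?_
    by_cases hj : (j : ℕ) ≤ i
    · exact mul_le_mul_of_nonneg_right (evs_mono hB hj hi) (sq_nonneg _)
    · rw [hex j hj]; simp
  have := h x
  have h3 : evs A i * (x ⬝ᵥ x) ≤ (evs B i + δ) * (x ⬝ᵥ x) := by
    rw [add_mul]; linarith
  exact le_of_mul_le_mul_right h3 hpos

lemma quad_le_hs {N : ℕ} (D : Matrix (Fin N) (Fin N) ℝ) (x : Fin N → ℝ) :
    x ⬝ᵥ (D *ᵥ x) ≤ Real.sqrt (∑ p : Fin N × Fin N, D p.1 p.2 ^ 2) * (x ⬝ᵥ x) := by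
  have h1 : x ⬝ᵥ (D *ᵥ x) = ∑ p : Fin N × Fin N, D p.1 p.2 * (x p.1 * x p.2) := by
    rw [Fintype.sum_prod_type]
    simp only [dotProduct, Matrix.mulVec, Finset.mul_sum]
    refine Finset.sum_congr rfl fun i _ => Finset.sum_congr rfl fun j _ => by ring
  have h2 : ∑ p : Fin N × Fin N, (x p.1 * x p.2) ^ 2 = (x ⬝ᵥ x) ^ 2 := by
    rw [Fintype.sum_prod_type]
    simp only [dotProduct, sq, Finset.sum_mul_sum]
    refine Finset.sum_congr rfl fun i _ => Finset.sum_congr rfl fun j _ => by ring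
  have h3 : 0 ≤ x ⬝ᵥ x := by
    simp only [dotProduct]; exact Finset.sum_nonneg fun i _ => mul_self_nonneg _
  rw [h1]
  calc ∑ p : Fin N × Fin N, D p.1 p.2 * (x p.1 * x p.2)
      ≤ Real.sqrt (∑ p : Fin N × Fin N, D p.1 p.2 ^ 2) *
        Real.sqrt (∑ p : Fin N × Fin N, (x p.1 * x p.2) ^ 2) :=
        Real.sum_mul_le_sqrt_mul_sqrt _ _ _
    _ = _ := by rw [h2, Real.sqrt_sq h3]

lemma evs_of_ge {N : ℕ} {A : Matrix (Fin N) (Fin N) ℝ} (hA : A.IsSymm) {i : ℕ} (hi : N ≤ i) :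
    evs A i = 0 := by
  have hlen : (A.charpoly.roots.sort (· ≤ ·)).length = N := by
    rw [roots_sort_eq (isHerm_of_isSymm hA)]; simp
  rw [evs, List.getD_eq_default _ _ (by rw [hlen]; exact hi)]

/-- eigenvalues are 1-Lipschitz in Hilbert-Schmidt norm -/
lemma evs_lip {N : ℕ} {A B : Matrix (Fin N) (Fin N) ℝ} (hA : A.IsSymm) (hB : B.IsSymm) (i : ℕ) :
    |evs A i - evs B i| ≤ Real.sqrt (∑ p : Fin N × Fin N, (A p.1 p.2 - B p.1 p.2) ^ 2) := by
  by_cases hi : i < N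
  · have key : ∀ A B : Matrix (Fin N) (Fin N) ℝ, A.IsSymm → B.IsSymm →
        evs A i ≤ evs B i + Real.sqrt (∑ p : Fin N × Fin N, (A p.1 p.2 - B p.1 p.2) ^ 2) := by
      intro A B hA hB
      refine weyl hA hB _ (fun x => ?_) i hi
      have h1 := quad_le_hs (A - B) x
      rw [Matrix.sub_mulVec, dotProduct_sub] at h1
      simp only [Matrix.sub_apply] at h1
      linarith
    have h1 := key A B hA hB
    have h2 := key B A hB hA
    have h3 : ∑ p : Fin N × Fin N, (B p.1 p.2 - A p.1 p.2) ^ 2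
        = ∑ p : Fin N × Fin N, (A p.1 p.2 - B p.1 p.2) ^ 2 :=
      Finset.sum_congr rfl fun p _ => by ring
    rw [h3] at h2
    rw [abs_le]; constructor <;> linarith
  · rw [evs_of_ge hA (not_lt.mp hi), evs_of_ge hB (not_lt.mp hi)]
    simp

lemma evs_continuous {N : ℕ} {α : Type*} [TopologicalSpace α] (A : α → Matrix (Fin N) (Fin N) ℝ)
    (hs : ∀ x, (A x).IsSymm) (hc : ∀ i j, Continuous (fun x => A x i j)) (i : ℕ) :
    Continuous (fun x => evs (A x) i) := by
  rw [continuous_iff_continuousAt]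
  intro x0
  rw [ContinuousAt, tendsto_iff_norm_sub_tendsto_zero]
  have h1 : Continuous (fun x => Real.sqrt (∑ p : Fin N × Fin N, (A x p.1 p.2 - A x0 p.1 p.2) ^ 2)) := by
    refine Real.continuous_sqrt.comp (continuous_finsetSum _ fun p _ => ?_)
    exact ((hc p.1 p.2).sub continuous_const).pow 2
  have h2 : Filter.Tendsto (fun x => Real.sqrt (∑ p : Fin N × Fin N, (A x p.1 p.2 - A x0 p.1 p.2) ^ 2))
      (nhds x0) (nhds 0) := by
    have := h1.tendsto x0
    simpa using this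
  exact squeeze_zero (fun _ => norm_nonneg _) (fun x => evs_lip (hs x) (hs x0) i) h2

/-- symmetrisation of an array -/
noncomputable def symA {N : ℕ} (X : Fin N × Fin N → ℝ) : Matrix (Fin N) (Fin N) ℝ :=
  Matrix.of fun i j => (X (i, j) + X (j, i)) / 2

lemma symA_isSymm {N : ℕ} (X : Fin N × Fin N → ℝ) : (symA X).IsSymm := by
  ext i j
  simp [symA, add_comm]

lemma symA_entries {N : ℕ} {A : Matrix (Fin N) (Fin N) ℝ} (hA : A.IsSymm) :
    symA (fun p => A p.1 p.2) = A := by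
  ext i j
  have := hA.apply i j
  simp only [symA, Matrix.of_apply]
  rw [this]; ring

lemma evs_symA_continuous {N : ℕ} (i : ℕ) :
    Continuous (fun X : Fin N × Fin N → ℝ => evs (symA X) i) := by
  refine evs_continuous _ (fun X => symA_isSymm X) (fun k l => ?_) i
  simp only [symA, Matrix.of_apply]
  fun_prop

lemma evs_measurable {N : ℕ} {Ω : Type*} [MeasurableSpace Ω] (A : Ω → Matrix (Fin N) (Fin N) ℝ)
    (hs : ∀ x, (A x).IsSymm) (hm : ∀ i j, Measurable (fun x => A x i j)) (i : ℕ) :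
    Measurable (fun x => evs (A x) i) := by
  have h1 : (fun x => evs (A x) i) = (fun X : Fin N × Fin N → ℝ => evs (symA X) i) ∘
      (fun x => (fun p => A x p.1 p.2)) := by
    funext x
    simp only [Function.comp]
    rw [symA_entries (hs x)]
  rw [h1]
  exact (evs_symA_continuous i).measurable.comp (measurable_pi_lambda _ fun p => hm p.1 p.2)

lemma measurable_of_symA {N : ℕ} {Ω : Type*} [MeasurableSpace Ω] {g : Matrix (Fin N) (Fin N) ℝ → ℝ}
    (hg : Measurable (fun X : Fin N × Fin N → ℝ => g (symA X))) (A : Ω → Matrix (Fin N) (Fin N) ℝ)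
    (hs : ∀ x, (A x).IsSymm) (hm : ∀ i j, Measurable (fun x => A x i j)) :
    Measurable (fun x => g (A x)) := by
  have h1 : (fun x => g (A x)) = (fun X : Fin N × Fin N → ℝ => g (symA X)) ∘
      (fun x => (fun p => A x p.1 p.2)) := by
    funext x
    simp only [Function.comp]
    rw [symA_entries (hs x)]
  rw [h1]
  exact hg.comp (measurable_pi_lambda _ fun p => hm p.1 p.2)

lemma Wv_eq_symA {N : ℕ} (v : ℝ) (X : Fin N × Fin N → ℝ) :
    Wv v X = Real.sqrt (2 * v) • symA X := by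
  ext i j
  simp only [Wv, symA, Matrix.of_apply, Matrix.smul_apply, smul_eq_mul]
  have h : Real.sqrt (2 * v) = 2 * Real.sqrt (v / 2) := by
    rw [show 2 * v = 2 ^ 2 * (v / 2) by ring, Real.sqrt_mul (by norm_num), Real.sqrt_sq (by norm_num)]
  rw [h]; ring

end Pool.Agent.ZR.K1

end

section

/-!
# ZR/PB2 : tail bound for quadratic forms of symmetric sign matrices (helper2)

All symmetric patterns (no condition on the row sums): for `∑ v_i² ≤ 1` and `t ≥ 0`,
`#{σ : |v^T M v| ≥ t} ≤ 2 * 2^(n(n+1)/2) * exp(-t²/4)`.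
-/


open MeasureTheory ProbabilityTheory Matrix

namespace Pool.Agent.ZR.PB

/-- quadratic form -/
def qf {n : ℕ} (A : Matrix (Fin n) (Fin n) ℝ) (v : Fin n → ℝ) : ℝ := ∑ i, ∑ j, v i * A i j * v j

/-- real sign -/
def sr (b : Bool) : ℝ := if b then 1 else -1

/-- weight of an unordered pair -/
noncomputable def wt {n : ℕ} (v : Fin n → ℝ) (z : Sym2 (Fin n)) : ℝ :=
  ∑ p ∈ Finset.univ.filter (fun p : Fin n × Fin n => s(p.1, p.2) = z), v p.1 * v p.2

lemma fib_card {n : ℕ} (z : Sym2 (Fin n)) :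
    (Finset.univ.filter (fun p : Fin n × Fin n => s(p.1, p.2) = z)).card ≤ 2 := by
  induction z using Sym2.ind with
  | _ a b =>
    calc (Finset.univ.filter (fun p : Fin n × Fin n => s(p.1, p.2) = s(a, b))).card
        ≤ ({(a, b), (b, a)} : Finset (Fin n × Fin n)).card := by
          apply Finset.card_le_card
          rintro ⟨x, y⟩ h
          simp only [Finset.mem_filter, Finset.mem_univ, true_and, Sym2.eq_iff] at h
          rcases h with ⟨rfl, rfl⟩ | ⟨rfl, rfl⟩ <;> simp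
      _ ≤ 2 := Finset.card_le_two

lemma wt_sq {n : ℕ} (v : Fin n → ℝ) (hv : ∑ i, v i ^ 2 ≤ 1) : ∑ z, wt v z ^ 2 ≤ 2 := by
  have h1 : ∀ z : Sym2 (Fin n), wt v z ^ 2 ≤
      2 * ∑ p ∈ Finset.univ.filter (fun p : Fin n × Fin n => s(p.1, p.2) = z),
        (v p.1 * v p.2) ^ 2 := by
    intro z
    unfold wt
    refine (sq_sum_le_card_mul_sum_sq (α := ℝ)).trans ?_
    apply mul_le_mul_of_nonneg_right
    · exact_mod_cast fib_card z
    · exact Finset.sum_nonneg fun p _ => sq_nonneg _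
  calc ∑ z, wt v z ^ 2 ≤ ∑ z : Sym2 (Fin n), 2 * ∑ p ∈ Finset.univ.filter
        (fun p : Fin n × Fin n => s(p.1, p.2) = z), (v p.1 * v p.2) ^ 2 :=
        Finset.sum_le_sum fun z _ => h1 z
    _ = 2 * ∑ p : Fin n × Fin n, (v p.1 * v p.2) ^ 2 := by
        rw [← Finset.mul_sum, Finset.sum_fiberwise]
    _ = 2 * ((∑ i, v i ^ 2) * ∑ j, v j ^ 2) := by
        rw [Fintype.sum_prod_type, Finset.sum_mul_sum]
        simp only [mul_pow]
    _ ≤ 2 := by
        have h0 : 0 ≤ ∑ i, v i ^ 2 := Finset.sum_nonneg fun i _ => sq_nonneg _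
        nlinarith

lemma qf_pat {n : ℕ} (τ : Sym2 (Fin n) → Bool) (v : Fin n → ℝ) :
    qf (Mx (fun i j => τ s(i, j))) v = ∑ z, wt v z * sr (τ z) := by
  have h1 : qf (Mx (fun i j => τ s(i, j))) v
      = ∑ p : Fin n × Fin n, v p.1 * v p.2 * sr (τ s(p.1, p.2)) := by
    unfold qf Mx sr
    rw [Fintype.sum_prod_type]
    apply Finset.sum_congr rfl
    intro i _
    apply Finset.sum_congr rfl
    intro j _
    simp only [Matrix.of_apply]
    ring
  rw [h1, ← Finset.sum_fiberwise (s := Finset.univ) (g := fun p : Fin n × Fin n => s(p.1, p.2))]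
  apply Finset.sum_congr rfl
  intro z _
  unfold wt
  rw [Finset.sum_mul]
  apply Finset.sum_congr rfl
  intro p hp
  rw [(Finset.mem_filter.1 hp).2]

lemma exp_moment {α : Type} [Fintype α] [DecidableEq α] (w : α → ℝ) :
    ∑ τ : α → Bool, Real.exp (∑ z, w z * sr (τ z))
      ≤ 2 ^ Fintype.card α * Real.exp ((∑ z, w z ^ 2) / 2) := by
  have h1 : ∑ τ : α → Bool, Real.exp (∑ z, w z * sr (τ z))
      = ∏ z, ∑ b : Bool, Real.exp (w z * sr b) := by
    rw [Finset.prod_univ_sum]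
    simp only [Real.exp_sum]
    rfl
  rw [h1]
  have h2 : ∀ z, ∑ b : Bool, Real.exp (w z * sr b) ≤ 2 * Real.exp (w z ^ 2 / 2) := by
    intro z
    rw [Fintype.sum_bool]
    have h3 := Real.cosh_le_exp_half_sq (w z)
    rw [Real.cosh_eq] at h3
    simp only [sr, if_true, Bool.false_eq_true, if_false, mul_one, mul_neg]
    linarith
  calc ∏ z, ∑ b : Bool, Real.exp (w z * sr b) ≤ ∏ z, (2 * Real.exp (w z ^ 2 / 2)) := by
        apply Finset.prod_le_prod
        · intro z _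
          exact Finset.sum_nonneg fun b _ => (Real.exp_pos _).le
        · intro z _
          exact h2 z
    _ = 2 ^ Fintype.card α * Real.exp ((∑ z, w z ^ 2) / 2) := by
        rw [Finset.prod_mul_distrib, Finset.prod_const, Finset.card_univ, ← Real.exp_sum,
          Finset.sum_div]

open Classical in
lemma tail_one {α : Type} [Fintype α] [DecidableEq α] (w : α → ℝ) (hw : ∑ z, w z ^ 2 ≤ 2) (t : ℝ) (ht : 0 ≤ t) :
    ((Finset.univ.filter (fun τ : α → Bool => t ≤ ∑ z, w z * sr (τ z))).card : ℝ)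
      ≤ 2 ^ Fintype.card α * Real.exp (-(t ^ 2) / 4) := by
  have h1 := exp_moment (fun z => t / 2 * w z)
  have h2 : ((Finset.univ.filter (fun τ : α → Bool => t ≤ ∑ z, w z * sr (τ z))).card : ℝ)
      * Real.exp (t ^ 2 / 2) ≤ ∑ τ : α → Bool, Real.exp (∑ z, t / 2 * w z * sr (τ z)) := by
    calc ((Finset.univ.filter (fun τ : α → Bool => t ≤ ∑ z, w z * sr (τ z))).card : ℝ)
        * Real.exp (t ^ 2 / 2)
        = ∑ τ ∈ Finset.univ.filter (fun τ : α → Bool => t ≤ ∑ z, w z * sr (τ z)),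
            Real.exp (t ^ 2 / 2) := by rw [Finset.sum_const, nsmul_eq_mul]
      _ ≤ ∑ τ ∈ Finset.univ.filter (fun τ : α → Bool => t ≤ ∑ z, w z * sr (τ z)),
            Real.exp (∑ z, t / 2 * w z * sr (τ z)) := by
          apply Finset.sum_le_sum
          intro τ hτ
          apply Real.exp_le_exp.2
          have h3 := (Finset.mem_filter.1 hτ).2
          have h4 : ∑ z, t / 2 * w z * sr (τ z) = t / 2 * ∑ z, w z * sr (τ z) := by
            rw [Finset.mul_sum]
            exact Finset.sum_congr rfl fun z _ => by ring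
          rw [h4]
          nlinarith
      _ ≤ ∑ τ : α → Bool, Real.exp (∑ z, t / 2 * w z * sr (τ z)) :=
          Finset.sum_le_sum_of_subset_of_nonneg (Finset.filter_subset _ _)
            fun _ _ _ => (Real.exp_pos _).le
  have h3 : Real.exp ((∑ z, (t / 2 * w z) ^ 2) / 2) ≤ Real.exp (t ^ 2 / 4) := by
    apply Real.exp_le_exp.2
    have h4 : ∑ z, (t / 2 * w z) ^ 2 = t ^ 2 / 4 * ∑ z, w z ^ 2 := by
      rw [Finset.mul_sum]
      exact Finset.sum_congr rfl fun z _ => by ring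
    rw [h4]
    nlinarith [sq_nonneg t]
  have h5 : ((Finset.univ.filter (fun τ : α → Bool => t ≤ ∑ z, w z * sr (τ z))).card : ℝ)
      * Real.exp (t ^ 2 / 2) ≤ 2 ^ Fintype.card α * Real.exp (t ^ 2 / 4) :=
    h2.trans (h1.trans (mul_le_mul_of_nonneg_left h3 (by positivity)))
  have h6 : Real.exp (-(t ^ 2) / 4) * Real.exp (t ^ 2 / 2) = Real.exp (t ^ 2 / 4) := by
    rw [← Real.exp_add]; congr 1; ring
  have h7 : 0 < Real.exp (t ^ 2 / 2) := Real.exp_pos _
  by_contra hcon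
  rw [not_le] at hcon
  have h8 := mul_lt_mul_of_pos_right hcon h7
  rw [mul_assoc, h6] at h8
  linarith

open Classical in
theorem count_tail {n : ℕ} (v : Fin n → ℝ) (hv : ∑ i, v i ^ 2 ≤ 1) (t : ℝ) (ht : 0 ≤ t) :
    ((Finset.univ.filter (fun σ : Fin n → Fin n → Bool => (∀ i j, σ i j = σ j i) ∧
        t ≤ |qf (Mx σ) v|)).card : ℝ)
      ≤ 2 * 2 ^ (n * (n + 1) / 2) * Real.exp (-(t ^ 2) / 4) := by
  have hw := wt_sq v hv
  have hw' : ∑ z, (fun z => - wt v z) z ^ 2 ≤ 2 := by simpa using hw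
  have h1 := tail_one (wt v) hw t ht
  have h2 := tail_one (fun z => - wt v z) hw' t ht
  have hcard : Fintype.card (Sym2 (Fin n)) = n * (n + 1) / 2 := by
    rw [Sym2.card, Fintype.card_fin, Nat.choose_two_right]
    simp [mul_comm]
  rw [hcard] at h1 h2
  have h3 : (Finset.univ.filter (fun σ : Fin n → Fin n → Bool => (∀ i j, σ i j = σ j i) ∧
        t ≤ |qf (Mx σ) v|)).card ≤
      (Finset.univ.filter (fun τ : Sym2 (Fin n) → Bool => t ≤ ∑ z, wt v z * sr (τ z))).card +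
      (Finset.univ.filter (fun τ : Sym2 (Fin n) → Bool =>
        t ≤ ∑ z, (fun z => - wt v z) z * sr (τ z))).card := by
    refine le_trans ?_ (Finset.card_union_le _ _)
    refine le_trans (Finset.card_le_card (t := (((Finset.univ.filter
        (fun τ : Sym2 (Fin n) → Bool => t ≤ ∑ z, wt v z * sr (τ z))) ∪
      (Finset.univ.filter (fun τ : Sym2 (Fin n) → Bool =>
        t ≤ ∑ z, (fun z => - wt v z) z * sr (τ z)))).image
        (fun (τ : Sym2 (Fin n) → Bool) => (fun i j => τ s(i, j) : Fin n → Fin n → Bool)))) ?_)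
        Finset.card_image_le
    intro σ hσ
    obtain ⟨hs, hq⟩ := (Finset.mem_filter.1 hσ).2
    rw [Finset.mem_image]
    refine ⟨Sym2.lift ⟨σ, hs⟩, ?_, by funext i j; rfl⟩
    have hq2 : qf (Mx σ) v = ∑ z, wt v z * sr (Sym2.lift ⟨σ, hs⟩ z) := by
      rw [← qf_pat]
      rfl
    rw [hq2] at hq
    rw [Finset.mem_union, Finset.mem_filter, Finset.mem_filter]
    rcases le_abs.1 hq with h | h
    · left
      exact ⟨Finset.mem_univ _, h⟩
    · right
      refine ⟨Finset.mem_univ _, ?_⟩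
      rw [← Finset.sum_neg_distrib] at h
      simpa only [neg_mul] using h
  have h3' : ((Finset.univ.filter (fun σ : Fin n → Fin n → Bool => (∀ i j, σ i j = σ j i) ∧
        t ≤ |qf (Mx σ) v|)).card : ℝ) ≤
      ((Finset.univ.filter (fun τ : Sym2 (Fin n) → Bool =>
        t ≤ ∑ z, wt v z * sr (τ z))).card : ℝ) +
      ((Finset.univ.filter (fun τ : Sym2 (Fin n) → Bool =>
        t ≤ ∑ z, (fun z => - wt v z) z * sr (τ z))).card : ℝ) := by exact_mod_cast h3
  refine h3'.trans ?_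
  have h4 := add_le_add h1 h2
  refine h4.trans (le_of_eq ?_)
  ring

end Pool.Agent.ZR.PB

end

section

/-!
# ZR/SC2 : algebra and stability of the semicircle equation
-/


open MeasureTheory ProbabilityTheory Matrix

namespace Pool.Agent.ZR

theorem msc_quad (z : ℂ) (hz : z.im ≠ 0) : msc z ^ 2 + z * msc z + 1 = 0 := by
  obtain ⟨w, hw, hw1⟩ := exists_w z hz
  rw [msc_eq_w z w hz hw hw1]
  exact hw

theorem msc_norm_lt (z : ℂ) (hz : z.im ≠ 0) : ‖msc z‖ < 1 := by
  obtain ⟨w, hw, hw1⟩ := exists_w z hz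
  rw [msc_eq_w z w hz hw hw1]
  exact hw1

theorem msc_im_pos (z : ℂ) (hz : 0 < z.im) : 0 < (msc z).im := by
  have h1 := msc_quad z hz.ne'
  have h2 := msc_norm_lt z hz.ne'
  set w := msc z with hw
  have hn : Complex.normSq w < 1 := by
    rw [Complex.normSq_eq_norm_sq]
    nlinarith [norm_nonneg w]
  have hw0 : w ≠ 0 := by
    intro h
    rw [h] at h1
    simp at h1
  have hpos : 0 < Complex.normSq w := Complex.normSq_pos.mpr hw0
  have h3 : z * (Complex.normSq w : ℂ) = -((starRingEnd ℂ) w + w * (Complex.normSq w : ℂ)) := by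
    rw [← Complex.mul_conj]
    linear_combination ((starRingEnd ℂ) w) * h1
  have h4 := congrArg Complex.im h3
  simp only [Complex.im_mul_ofReal, Complex.neg_im, Complex.add_im, Complex.conj_im] at h4
  by_contra hcon
  push Not at hcon
  nlinarith [mul_pos hz hpos]

theorem msc_conj (z : ℂ) (hz : z.im ≠ 0) : msc (starRingEnd ℂ z) = starRingEnd ℂ (msc z) := by
  apply msc_eq_w
  · simpa using hz
  · have h := congrArg (starRingEnd ℂ) (msc_quad z hz)
    simpa only [map_add, map_mul, map_pow, map_one, map_zero] using h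
  · rw [Complex.norm_conj]
    exact msc_norm_lt z hz

lemma factor (z m : ℂ) (hz : z.im ≠ 0) :
    1 + z * m + m ^ 2 = (m - msc z) * (m + z + msc z) := by
  linear_combination msc_quad z hz

lemma norm_other (z m : ℂ) (hm : 0 ≤ m.im) :
    z.im + (msc z).im ≤ ‖m + z + msc z‖ := by
  have h := Complex.abs_im_le_norm (m + z + msc z)
  have h1 := le_abs_self (m + z + msc z).im
  simp only [Complex.add_im] at h1 h
  linarith

theorem stab (z m : ℂ) (hz : 0 < z.im) (hm : 0 ≤ m.im) :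
    ‖m - msc z‖ ≤ ‖1 + z * m + m ^ 2‖ / (z.im + (msc z).im) := by
  have h1 := msc_im_pos z hz
  rw [le_div_iff₀ (by linarith), factor z m hz.ne', norm_mul]
  exact mul_le_mul_of_nonneg_left (norm_other z m hm) (norm_nonneg _)

lemma s_sq (z : ℂ) (hz : z.im ≠ 0) : (z + 2 * msc z) ^ 2 = z ^ 2 - 4 := by
  linear_combination 4 * msc_quad z hz

lemma re_sq_le (z : ℂ) (hz : z.im ≠ 0) (hE : |z.re| ≤ 2) :
    (z + 2 * msc z).re ^ 2 ≤ (z + 2 * msc z).im ^ 2 := by
  have h := congrArg Complex.re (s_sq z hz)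
  have h2 : z.re ^ 2 ≤ 4 := by
    have := abs_le.mp hE
    nlinarith
  rw [sq, sq] at h
  simp only [Complex.mul_re, Complex.sub_re] at h
  have h4 : (4 : ℂ).re = 4 := by norm_num
  rw [h4] at h
  nlinarith [sq_nonneg z.im]

lemma im_s (z : ℂ) : (z + 2 * msc z).im = z.im + 2 * (msc z).im := by
  simp

theorem stab_sqrt (z m : ℂ) (hz : 0 < z.im) (hm : 0 ≤ m.im) (hE : |z.re| ≤ 2) :
    ‖m - msc z‖ ≤ 4 * Real.sqrt ‖1 + z * m + m ^ 2‖ := by
  have h1 := msc_im_pos z hz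
  have hf := factor z m hz.ne'
  have hP : ‖m - msc z‖ * ‖m + z + msc z‖ = ‖1 + z * m + m ^ 2‖ := by
    rw [hf, norm_mul]
  set r := Real.sqrt ‖1 + z * m + m ^ 2‖ with hr
  have hr0 : 0 ≤ r := Real.sqrt_nonneg _
  have hr2 : r * r = ‖1 + z * m + m ^ 2‖ := Real.mul_self_sqrt (norm_nonneg _)
  by_cases hc : ‖m - msc z‖ ≤ r
  · linarith
  push Not at hc
  have h2 : ‖m + z + msc z‖ ≤ r := by
    by_contra hcon
    push Not at hcon
    have : r * r < ‖m - msc z‖ * ‖m + z + msc z‖ := by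
      apply mul_lt_mul'' hc hcon hr0 hr0
    linarith
  have h3 := norm_other z m hm
  have h4 := re_sq_le z hz.ne' hE
  have h5 : ‖z + 2 * msc z‖ ^ 2 ≤ 2 * (2 * r) ^ 2 := by
    rw [Complex.sq_norm, Complex.normSq_apply]
    have h6 : (z + 2 * msc z).im ^ 2 ≤ (2 * r) ^ 2 := by
      rw [im_s]
      apply pow_le_pow_left₀ (by linarith)
      linarith
    nlinarith
  have h6 : ‖z + 2 * msc z‖ ≤ 3 * r := by
    apply le_of_sq_le_sq _ (by linarith)
    nlinarith
  have h7 : m - msc z = (m + z + msc z) - (z + 2 * msc z) := by ring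
  calc ‖m - msc z‖ = ‖(m + z + msc z) - (z + 2 * msc z)‖ := by rw [h7]
    _ ≤ ‖m + z + msc z‖ + ‖z + 2 * msc z‖ := norm_sub_le _ _
    _ ≤ 4 * r := by linarith

lemma prod_low (x η : ℝ) (hx0 : 0 ≤ x) (hx : x ≤ 2) (hη : 0 < η) :
    (2 - x) + η ≤ ‖(⟨x, η⟩ : ℂ) - 2‖ * ‖(⟨x, η⟩ : ℂ) + 2‖ := by
  have h1 : 2 ≤ ‖(⟨x, η⟩ : ℂ) + 2‖ := by
    have := Complex.re_le_norm ((⟨x, η⟩ : ℂ) + 2)
    simp at this
    linarith
  have h2 : 2 - x ≤ ‖(⟨x, η⟩ : ℂ) - 2‖ := by
    have := Complex.abs_re_le_norm ((⟨x, η⟩ : ℂ) - 2)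
    simp at this
    have h3 := neg_abs_le (x - 2)
    linarith
  have h3 : η ≤ ‖(⟨x, η⟩ : ℂ) - 2‖ := by
    have := Complex.im_le_norm ((⟨x, η⟩ : ℂ) - 2)
    simp at this
    linarith
  nlinarith [norm_nonneg ((⟨x, η⟩ : ℂ) - 2)]

theorem sc_low (x η : ℝ) (hx : |x| ≤ 2) (hη : 0 < η) :
    ((2 - |x|) + η) / 8 ≤ (η + (msc (⟨x, η⟩ : ℂ)).im) ^ 2 := by
  have hz : (⟨x, η⟩ : ℂ).im ≠ 0 := hη.ne'
  have h1 := msc_im_pos (⟨x, η⟩ : ℂ) hη
  have h4 := re_sq_le (⟨x, η⟩ : ℂ) hz hx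
  have h5 := s_sq (⟨x, η⟩ : ℂ) hz
  have h6 : ‖(⟨x, η⟩ : ℂ) + 2 * msc (⟨x, η⟩ : ℂ)‖ ^ 2
      = ‖(⟨x, η⟩ : ℂ) - 2‖ * ‖(⟨x, η⟩ : ℂ) + 2‖ := by
    rw [← norm_pow, h5, ← norm_mul]
    congr 1
    ring
  have h7 : (2 - |x|) + η ≤ ‖(⟨x, η⟩ : ℂ) - 2‖ * ‖(⟨x, η⟩ : ℂ) + 2‖ := by
    rcases le_total 0 x with h0 | h0
    · rw [abs_of_nonneg h0] at hx ⊢
      exact prod_low x η h0 hx hη
    · rw [abs_of_nonpos h0] at hx ⊢
      have h := prod_low (-x) η (by linarith) hx hη
      have e1 : ‖(⟨-x, η⟩ : ℂ) - 2‖ = ‖(⟨x, η⟩ : ℂ) + 2‖ := by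
        rw [← sq_eq_sq₀ (norm_nonneg _) (norm_nonneg _), Complex.sq_norm, Complex.sq_norm,
          Complex.normSq_apply, Complex.normSq_apply]
        simp
        ring
      have e2 : ‖(⟨-x, η⟩ : ℂ) + 2‖ = ‖(⟨x, η⟩ : ℂ) - 2‖ := by
        rw [← sq_eq_sq₀ (norm_nonneg _) (norm_nonneg _), Complex.sq_norm, Complex.sq_norm,
          Complex.normSq_apply, Complex.normSq_apply]
        simp
        ring
      rw [e1, e2] at h
      linarith [mul_comm ‖(⟨x, η⟩ : ℂ) + 2‖ ‖(⟨x, η⟩ : ℂ) - 2‖]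
  rw [← h6, Complex.sq_norm, Complex.normSq_apply] at h7
  rw [im_s] at h4 h7
  have h8 : (⟨x, η⟩ : ℂ).im = η := rfl
  rw [h8] at h4 h7
  nlinarith [sq_nonneg η, mul_pos hη h1]

theorem msc_add_z (z : ℂ) (hz : z.im ≠ 0) : msc z * (z + msc z) = -1 := by
  linear_combination msc_quad z hz

theorem norm_z_add_msc (z : ℂ) (hz : z.im ≠ 0) : 1 ≤ ‖z + msc z‖ := by
  have h1 : ‖msc z‖ * ‖z + msc z‖ = 1 := by
    rw [← norm_mul, msc_add_z z hz]
    simp
  have h2 := msc_norm_lt z hz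
  nlinarith [norm_nonneg (z + msc z), norm_nonneg (msc z)]

theorem msc_large (z : ℂ) (hz : z.im ≠ 0) (h4 : 4 ≤ ‖z‖) : ‖msc z + 1 / z‖ ≤ 4 / ‖z‖ ^ 3 := by
  have hz0 : z ≠ 0 := by
    intro h
    rw [h] at hz
    simp at hz
  have h1 : ‖msc z‖ * ‖z + msc z‖ = 1 := by
    rw [← norm_mul, msc_add_z z hz]
    simp
  have h2 := msc_norm_lt z hz
  have h3 : ‖z‖ - ‖msc z‖ ≤ ‖z + msc z‖ := by
    have := norm_sub_norm_le z (-(msc z))
    simpa using this
  have h5 : ‖msc z‖ * ‖z‖ ≤ 2 := by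
    nlinarith [norm_nonneg (msc z)]
  have h6 : msc z + 1 / z = -(msc z ^ 2 / z) := by
    field_simp
    linear_combination msc_quad z hz
  rw [h6, norm_neg, norm_div, norm_pow, div_le_div_iff₀ (by linarith) (by positivity)]
  have h7 : (‖msc z‖ * ‖z‖) ^ 2 ≤ 4 := by
    have : 0 ≤ ‖msc z‖ * ‖z‖ := by positivity
    nlinarith
  have h8 : ‖msc z‖ ^ 2 * ‖z‖ ^ 3 = (‖msc z‖ * ‖z‖) ^ 2 * ‖z‖ := by ring
  rw [h8]
  exact mul_le_mul_of_nonneg_right h7 (norm_nonneg _)

/-- `msc` is differentiable in the upper half plane -/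
theorem msc_differentiableAt (z : ℂ) (hz : z.im ≠ 0) : DifferentiableAt ℂ msc z := by
  have hd : 0 < |z.im| / 2 := by positivity
  have him : ∀ x ∈ Metric.ball z (|z.im| / 2), ∀ y : ℝ, |z.im| / 2 ≤ ‖(y : ℂ) - x‖ := by
    intro x hx y
    rw [Metric.mem_ball, dist_eq_norm] at hx
    have h1 := Complex.abs_im_le_norm (x - z)
    have h2 := Complex.abs_im_le_norm ((y : ℂ) - x)
    simp only [Complex.sub_im, Complex.ofReal_im, zero_sub, abs_neg] at h1 h2
    have h3 : |z.im| ≤ |x.im| + |x.im - z.im| := by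
      have := abs_sub_abs_le_abs_sub z.im x.im
      rw [abs_sub_comm] at this
      linarith
    linarith
  have hne : ∀ x ∈ Metric.ball z (|z.im| / 2), ∀ y : ℝ, (y : ℂ) - x ≠ 0 := by
    intro x hx y h
    have := him x hx y
    rw [h, norm_zero] at this
    linarith
  have hcont : ∀ x ∈ Metric.ball z (|z.im| / 2),
      Continuous (fun y : ℝ => (rho y : ℂ) / ((y : ℂ) - x)) := by
    intro x hx
    have := rho_continuous
    exact Continuous.div (by fun_prop) (by fun_prop) (hne x hx)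
  have hcont' : Continuous (fun y : ℝ => (rho y : ℂ) / ((y : ℂ) - z) ^ 2) := by
    have := rho_continuous
    exact Continuous.div (by fun_prop) (by fun_prop)
      (fun y => pow_ne_zero 2 (hne z (Metric.mem_ball_self hd) y))
  have key := intervalIntegral.hasDerivAt_integral_of_dominated_loc_of_deriv_le
    (μ := volume) (a := (-2 : ℝ)) (b := 2) (F := fun (x : ℂ) (y : ℝ) => (rho y : ℂ) / ((y : ℂ) - x))
    (F' := fun (x : ℂ) (y : ℝ) => (rho y : ℂ) / ((y : ℂ) - x) ^ 2) (x₀ := z)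
    (s := Metric.ball z (|z.im| / 2))
    (bound := fun _ => (1 / Real.pi) / (|z.im| / 2) ^ 2)
    (Metric.ball_mem_nhds z hd)
    (Filter.eventually_of_mem (Metric.ball_mem_nhds z hd)
      (fun x hx => (hcont x hx).aestronglyMeasurable))
    ((hcont z (Metric.mem_ball_self hd)).intervalIntegrable _ _)
    hcont'.aestronglyMeasurable
    (Filter.Eventually.of_forall (fun y _ x hx => by
      rw [norm_div, norm_pow]
      have h1 : ‖(rho y : ℂ)‖ ≤ 1 / Real.pi := by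
        rw [Complex.norm_real, Real.norm_of_nonneg (rho_nonneg y)]
        exact rho_le y
      have h2 := him x hx y
      have hp := Real.pi_pos
      apply div_le_div₀ (by positivity) h1 (by positivity)
      exact pow_le_pow_left₀ hd.le h2 2))
    intervalIntegrable_const
    (Filter.Eventually.of_forall (fun y _ x hx => by
      have h1 := hne x hx y
      have h2 : HasDerivAt (fun t : ℂ => (y : ℂ) - t) (-1) x := by
        simpa using (hasDerivAt_id x).const_sub (y : ℂ)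
      have h3 := (hasDerivAt_const x (rho y : ℂ)).div h2 h1
      refine h3.congr_deriv ?_
      simp))
  exact key.2.differentiableAt

end Pool.Agent.ZR

end

section

/-!
# ZR/Sp3 : Weyl inequality and continuity of the sorted eigenvalues

Proof of `weyl`.  Let `U, V` be the orthogonal matrices of `spec_dec` for `A` and `B`, with columns
`u_k`, `v_k`.  Suppose `evs A i > evs B i + c`.  The span `S` of `u_k`, `k ≥ i`, has dimension
`N - i`, the span `T` of `v_k`, `k ≤ i`, has dimension `i + 1`; the sum is `N + 1 > N`, so there is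
`0 ≠ w ∈ S ∩ T` (`Submodule.finrank_add_finrank_le_add_finrank...`, or directly: the linear map
`(x, y) ↦ ∑_{k≥i} x_k u_k - ∑_{k≤i} y_k v_k` from a space of dimension `N + 1` to `ℝ^N` has a
non trivial kernel, and both families are linearly independent).  Then
`w·A w = ∑_{k≥i} (evs A k) x_k² ≥ (evs A i) |w|²`, `w·B w = ∑_{k≤i} (evs B k) y_k² ≤ (evs B i)|w|²`,
hence `c |w|² ≥ w·(A-B)w ≥ (evs A i - evs B i)|w|² > c |w|²`, a contradiction.
`weyl_abs`: apply `weyl` to `(A, B)` and `(B, A)`; for `i ≥ N` both values are `0`.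
`weyl_hs`: Cauchy-Schwarz: `|u·D u| ≤ (∑ D_ij²)^{1/2} |u|²`.
`continuous_evs`: by `weyl_hs`, `|evs (f τ) i - evs (f τ₀) i| ≤ (∑ (f τ - f τ₀)_ij²)^{1/2} → 0`.
`measurable_evs`: the function `a ↦ evs ((1/2)(a + aᵀ)) i` on `Fin N → Fin N → ℝ` is continuous, hence
measurable, and composed with the measurable map `ω ↦ (f ω i j)` it gives `evs (f ω) i` because
`f ω` is symmetric.
-/


open MeasureTheory ProbabilityTheory Matrix

namespace Pool.Agent.ZR

private lemma dot_orth {N : ℕ} {U : Matrix (Fin N) (Fin N) ℝ} (hU : Uᵀ * U = 1)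
    (x z : Fin N → ℝ) : (U *ᵥ x) ⬝ᵥ (U *ᵥ z) = x ⬝ᵥ z := by
  rw [dotProduct_mulVec, ← mulVec_transpose, mulVec_mulVec, hU, one_mulVec]

private lemma quad_orth {N : ℕ} {U : Matrix (Fin N) (Fin N) ℝ} (hU : Uᵀ * U = 1)
    (d x : Fin N → ℝ) :
    (U *ᵥ x) ⬝ᵥ ((U * Matrix.diagonal d * Uᵀ) *ᵥ (U *ᵥ x)) = ∑ k, d k * x k ^ 2 := by
  have h1 : (U * Matrix.diagonal d * Uᵀ) *ᵥ (U *ᵥ x) = U *ᵥ (Matrix.diagonal d *ᵥ x) := by
    rw [mulVec_mulVec, mulVec_mulVec, Matrix.mul_assoc (U * Matrix.diagonal d), hU,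
      Matrix.mul_one]
  rw [h1, dot_orth hU]
  unfold dotProduct
  refine Finset.sum_congr rfl fun k _ => ?_
  rw [mulVec_diagonal]
  ring

theorem weyl {N : ℕ} (A B : Matrix (Fin N) (Fin N) ℝ) (hA : A.IsSymm) (hB : B.IsSymm) (c : ℝ)
    (h : ∀ u : Fin N → ℝ, u ⬝ᵥ (A - B) *ᵥ u ≤ c * (u ⬝ᵥ u)) (i : ℕ) (hi : i < N) :
    evs A i ≤ evs B i + c := by
  obtain ⟨U, hU1, hU2, hAU⟩ := spec_dec A hA
  obtain ⟨V, hV1, hV2, hBV⟩ := spec_dec B hB
  -- a vector whose first coordinates vanish and whose image has vanishing last coordinates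
  let L : (Fin N → ℝ) →ₗ[ℝ] ({k : Fin N // k ≠ ⟨i, hi⟩} → ℝ) :=
    { toFun := fun x k => if (k : Fin N).1 < i then x k else ((Vᵀ * U) *ᵥ x) k
      map_add' := fun x y => by
        funext k
        by_cases hk : (k : Fin N).1 < i
        · simp [hk]
        · simp [hk, mulVec_add]
      map_smul' := fun a x => by
        funext k
        by_cases hk : (k : Fin N).1 < i
        · simp [hk]
        · simp [hk, mulVec_smul] }
  have hcard : Fintype.card {k : Fin N // k ≠ ⟨i, hi⟩} = N - 1 := by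
    rw [Fintype.card_subtype_compl, Fintype.card_subtype_eq, Fintype.card_fin]
  have hker : LinearMap.ker L ≠ ⊥ := by
    apply LinearMap.ker_ne_bot_of_finrank_lt
    rw [Module.finrank_fintype_fun_eq_card, Module.finrank_fintype_fun_eq_card, hcard,
      Fintype.card_fin]
    omega
  obtain ⟨x, hxL, hx0⟩ := (Submodule.ne_bot_iff _).1 hker
  have hx1 : ∀ k : Fin N, k.1 < i → x k = 0 := fun k hk => by
    have hne : k ≠ ⟨i, hi⟩ := fun h => by
      rw [h] at hk
      exact lt_irrefl _ hk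
    have := congrFun (LinearMap.mem_ker.1 hxL) ⟨k, hne⟩
    simpa [L, hk] using this
  set y : Fin N → ℝ := (Vᵀ * U) *ᵥ x with hy
  have hy1 : ∀ k : Fin N, i < k.1 → y k = 0 := fun k hk => by
    have hne : k ≠ ⟨i, hi⟩ := fun h => by
      rw [h] at hk
      exact lt_irrefl _ hk
    have := congrFun (LinearMap.mem_ker.1 hxL) ⟨k, hne⟩
    simpa [L, hk.le, hk.not_gt, hy] using this
  have hw : V *ᵥ y = U *ᵥ x := by
    rw [hy, mulVec_mulVec, ← Matrix.mul_assoc, hV1, Matrix.one_mul]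
  have hxx : 0 < x ⬝ᵥ x := by
    rcases lt_or_eq_of_le (Finset.sum_nonneg fun k (_ : k ∈ Finset.univ) =>
      mul_self_nonneg (x k) : 0 ≤ x ⬝ᵥ x) with h1 | h1
    · exact h1
    · exact absurd (dotProduct_self_eq_zero.1 h1.symm) hx0
  have hyx : y ⬝ᵥ y = x ⬝ᵥ x := by
    rw [← dot_orth hV2 y y, hw, dot_orth hU2]
  have hAx : evs A i * (x ⬝ᵥ x) ≤ (U *ᵥ x) ⬝ᵥ (A *ᵥ (U *ᵥ x)) := by
    conv_rhs => rw [hAU]
    rw [quad_orth hU2]
    unfold dotProduct
    rw [Finset.mul_sum]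
    refine Finset.sum_le_sum fun k _ => ?_
    by_cases hk : k.1 < i
    · rw [hx1 k hk]
      simp
    · have h1 := evs_le_evs A hA (not_lt.1 hk) k.2
      nlinarith [sq_nonneg (x k), mul_nonneg (sub_nonneg.2 h1) (sq_nonneg (x k))]
  have hBx : (U *ᵥ x) ⬝ᵥ (B *ᵥ (U *ᵥ x)) ≤ evs B i * (x ⬝ᵥ x) := by
    rw [← hw, ← hyx]
    conv_lhs => rw [hBV]
    rw [quad_orth hV2]
    unfold dotProduct
    rw [Finset.mul_sum]
    refine Finset.sum_le_sum fun k _ => ?_
    by_cases hk : i < k.1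
    · rw [hy1 k hk]
      simp
    · have h1 := evs_le_evs B hB (not_lt.1 hk) hi
      nlinarith [sq_nonneg (y k), mul_nonneg (sub_nonneg.2 h1) (sq_nonneg (y k))]
  have h2 := h (U *ᵥ x)
  rw [sub_mulVec, dotProduct_sub, dot_orth hU2] at h2
  by_contra hcon
  push Not at hcon
  nlinarith

theorem weyl_abs {N : ℕ} (A B : Matrix (Fin N) (Fin N) ℝ) (hA : A.IsSymm) (hB : B.IsSymm) (c : ℝ)
    (hc : 0 ≤ c) (h : ∀ u : Fin N → ℝ, |u ⬝ᵥ (A - B) *ᵥ u| ≤ c * (u ⬝ᵥ u)) (i : ℕ) :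
    |evs A i - evs B i| ≤ c := by
  by_cases hi : i < N
  · have h1 := weyl A B hA hB c (fun u => (le_abs_self _).trans (h u)) i hi
    have h2 := weyl B A hB hA c (fun u => by
      have h3 : u ⬝ᵥ (B - A) *ᵥ u = -(u ⬝ᵥ (A - B) *ᵥ u) := by
        rw [← neg_sub A B, neg_mulVec, dotProduct_neg]
      rw [h3]
      exact (neg_le_abs _).trans (h u)) i hi
    rw [abs_le]
    constructor <;> linarith
  · rw [evs_of_ge A i (not_lt.1 hi), evs_of_ge B i (not_lt.1 hi)]
    simpa using hc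

theorem weyl_hs {N : ℕ} (A B : Matrix (Fin N) (Fin N) ℝ) (hA : A.IsSymm) (hB : B.IsSymm)
    (i : ℕ) : |evs A i - evs B i| ≤ Real.sqrt (∑ k, ∑ l, (A k l - B k l) ^ 2) := by
  refine weyl_abs A B hA hB _ (Real.sqrt_nonneg _) (fun u => ?_) i
  have h1 : u ⬝ᵥ (A - B) *ᵥ u = ∑ p : Fin N × Fin N, (A p.1 p.2 - B p.1 p.2) * (u p.1 * u p.2) := by
    rw [Fintype.sum_prod_type]
    unfold dotProduct mulVec dotProduct
    refine Finset.sum_congr rfl fun k _ => ?_
    rw [Finset.mul_sum]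
    refine Finset.sum_congr rfl fun l _ => ?_
    show u k * ((A k l - B k l) * u l) = (A k l - B k l) * (u k * u l)
    ring
  have h2 : ∑ p : Fin N × Fin N, (u p.1 * u p.2) ^ 2 = (u ⬝ᵥ u) ^ 2 := by
    rw [Fintype.sum_prod_type, sq (u ⬝ᵥ u)]
    unfold dotProduct
    rw [Finset.sum_mul_sum]
    refine Finset.sum_congr rfl fun k _ => Finset.sum_congr rfl fun l _ => ?_
    ring
  have h3 : ∑ p : Fin N × Fin N, (A p.1 p.2 - B p.1 p.2) ^ 2 =
      ∑ k, ∑ l, (A k l - B k l) ^ 2 := Fintype.sum_prod_type _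
  have h4 := Finset.sum_mul_sq_le_sq_mul_sq Finset.univ
    (fun p : Fin N × Fin N => A p.1 p.2 - B p.1 p.2) (fun p => u p.1 * u p.2)
  rw [h2, h3, ← h1] at h4
  have huu : 0 ≤ u ⬝ᵥ u := Finset.sum_nonneg fun k _ => mul_self_nonneg (u k)
  have h5 := Real.abs_le_sqrt h4
  rwa [Real.sqrt_mul (Finset.sum_nonneg fun k _ => Finset.sum_nonneg fun l _ => sq_nonneg _),
    Real.sqrt_sq huu] at h5

theorem continuous_evs {T : Type*} [TopologicalSpace T] {N : ℕ}
    (f : T → Matrix (Fin N) (Fin N) ℝ) (hf : ∀ k l, Continuous (fun τ => f τ k l))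
    (hs : ∀ τ, (f τ).IsSymm) (i : ℕ) : Continuous (fun τ => evs (f τ) i) := by
  rw [continuous_iff_continuousAt]
  intro τ0
  rw [ContinuousAt, tendsto_iff_dist_tendsto_zero]
  refine squeeze_zero (fun _ => dist_nonneg) (fun τ => ?_)
    (g := fun τ => Real.sqrt (∑ k, ∑ l, (f τ k l - f τ0 k l) ^ 2)) ?_
  · rw [Real.dist_eq]
    exact weyl_hs (f τ) (f τ0) (hs τ) (hs τ0) i
  · have h1 : Continuous fun τ => Real.sqrt (∑ k, ∑ l, (f τ k l - f τ0 k l) ^ 2) := by
      refine Real.continuous_sqrt.comp ?_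
      refine continuous_finsetSum _ fun k _ => continuous_finsetSum _ fun l _ => ?_
      exact ((hf k l).sub continuous_const).pow 2
    have h2 := h1.tendsto τ0
    simpa using h2

theorem measurable_evs {Ω : Type*} [MeasurableSpace Ω] {N : ℕ}
    (f : Ω → Matrix (Fin N) (Fin N) ℝ) (hf : ∀ k l, Measurable (fun ω => f ω k l))
    (hs : ∀ ω, (f ω).IsSymm) (i : ℕ) : Measurable (fun ω => evs (f ω) i) := by
  let g : (Fin N → Fin N → ℝ) → Matrix (Fin N) (Fin N) ℝ :=
    fun a => Matrix.of fun k l => (a k l + a l k) / 2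
  have hg : Continuous fun a => evs (g a) i := by
    refine continuous_evs g (fun k l => ?_) (fun a => ?_) i
    · have h1 : Continuous fun a : Fin N → Fin N → ℝ => a k l := by fun_prop
      have h2 : Continuous fun a : Fin N → Fin N → ℝ => a l k := by fun_prop
      exact (h1.add h2).div_const 2
    · ext k l
      simp only [g, transpose_apply, of_apply]
      ring
  have hm : Measurable fun ω => (fun k l => f ω k l : Fin N → Fin N → ℝ) :=
    measurable_pi_iff.2 fun k => measurable_pi_iff.2 fun l => hf k l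
  have h3 : (fun ω => evs (f ω) i) = (fun a => evs (g a) i) ∘ fun ω => (fun k l => f ω k l) := by
    funext ω
    have h4 : g (fun k l => f ω k l) = f ω := by
      ext k l
      have h5 : f ω l k = f ω k l := (hs ω).apply k l
      simp only [g, of_apply]
      rw [h5]
      ring
    simp only [Function.comp]
    rw [h4]
  rw [h3]
  exact hg.measurable.comp hm

end Pool.Agent.ZR

end
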