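import Mathlib

/-!
# Merged form of the modules ZR.IAna
-/

set_option autoImplicit false

section

/-!
# ZR, part I (helper58): elementary analysis (arctan kernels, weighted Cauchy-Schwarz)
-/


open MeasureTheory ProbabilityTheory

namespace Pool.Agent.ZR.I

lemma arctan_int (y : ℝ) {η R : ℝ} (hη : 0 < η) (hR : η ≤ R) :
    ∫ u in η..R, y / (y ^ 2 + u ^ 2) = Real.arctan (y / η) - Real.arctan (y / R) := by
  have hpos : ∀ u ∈ Set.uIcc η R, 0 < u := by
    intro u hu
    rw [Set.uIcc_of_le hR] at hu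
    exact lt_of_lt_of_le hη hu.1
  have h1 : ∀ u ∈ Set.uIcc η R, HasDerivAt (fun u => -Real.arctan (y / u)) (y / (y ^ 2 + u ^ 2)) u := by
    intro u hu
    have hu0 : u ≠ 0 := (hpos u hu).ne'
    have h2 : HasDerivAt (fun u : ℝ => y / u) (-y / u ^ 2) u := by
      have h := (hasDerivAt_inv hu0).const_mul y
      refine (h.congr_deriv ?_).congr_of_eventuallyEq (Filter.Eventually.of_forall fun w => ?_)
      · rw [mul_neg, neg_div, div_eq_mul_inv]
      · simp only [div_eq_mul_inv]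
    have h3 := (h2.arctan).neg
    refine h3.congr_deriv ?_
    have h4 : u ^ 2 ≠ 0 := by positivity
    have h5 : y ^ 2 + u ^ 2 ≠ 0 := by
      have : 0 < u ^ 2 := by have := hpos u hu; positivity
      positivity
    have h6 : 1 + (y / u) ^ 2 = (y ^ 2 + u ^ 2) / u ^ 2 := by field_simp; ring
    rw [h6]
    field_simp
  have hcont : ContinuousOn (fun u => y / (y ^ 2 + u ^ 2)) (Set.uIcc η R) := by
    refine ContinuousOn.div continuousOn_const (by fun_prop) fun u hu => ?_
    have := hpos u hu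
    positivity
  rw [intervalIntegral.integral_eq_sub_of_hasDerivAt h1 (hcont.intervalIntegrable)]
  ring

lemma arctan_ge_half {t : ℝ} (h0 : 0 ≤ t) (h1 : t ≤ 1) : t / 2 ≤ Real.arctan t := by
  have h2 : Real.tan (t / 2) ≤ t := by
    rw [Real.tan_eq_sin_div_cos]
    have hs : Real.sin (t / 2) ≤ t / 2 := Real.sin_le (by linarith)
    have hc : 1 / 2 ≤ Real.cos (t / 2) := by
      have := Real.one_sub_sq_div_two_le_cos (x := t / 2)
      nlinarith
    rw [div_le_iff₀ (by linarith)]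
    nlinarith
  have hpi := Real.pi_gt_three
  calc t / 2 = Real.arctan (Real.tan (t / 2)) := (Real.arctan_tan (by linarith) (by linarith)).symm
    _ ≤ Real.arctan t := Real.arctan_mono h2

lemma arctan_key {t : ℝ} (ht : 0 < t) : Real.pi / 2 - Real.arctan t ≤ Real.pi / t * Real.arctan t := by
  have hpi := Real.pi_gt_three
  have hpos : 0 < Real.arctan t := Real.arctan_pos.mpr ht
  rcases le_or_gt t 1 with h1 | h1
  · have h2 := arctan_ge_half ht.le h1
    have h3 : Real.pi / 2 ≤ Real.pi / t * Real.arctan t := by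
      calc Real.pi / 2 = Real.pi / t * (t / 2) := by field_simp
        _ ≤ _ := mul_le_mul_of_nonneg_left h2 (by positivity)
    linarith
  · have h2 : Real.pi / 4 ≤ Real.arctan t := by
      rw [← Real.arctan_one]; exact Real.arctan_mono h1.le
    have h3 : Real.pi / 2 - Real.arctan t = Real.arctan t⁻¹ := by
      rw [Real.arctan_inv_of_pos ht]
    have h4 : Real.arctan t⁻¹ ≤ t⁻¹ := by
      have h5 : 0 < t⁻¹ := by positivity
      have h6 := Real.lt_tan (x := Real.arctan t⁻¹) (Real.arctan_pos.mpr h5) (Real.arctan_lt_pi_div_two _)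
      rw [Real.tan_arctan] at h6
      exact h6.le
    rw [h3]
    refine h4.trans ?_
    calc t⁻¹ ≤ Real.pi / t * (Real.pi / 4) := by
          rw [inv_eq_one_div, div_mul_eq_mul_div]
          exact div_le_div_of_nonneg_right (by nlinarith) ht.le
      _ ≤ _ := mul_le_mul_of_nonneg_left h2 (by positivity)

lemma arctan_le_self' {s : ℝ} (hs : 0 ≤ s) : Real.arctan s ≤ s := by
  rcases hs.eq_or_lt with rfl | hs
  · simp
  · have h6 := Real.lt_tan (x := Real.arctan s) (Real.arctan_pos.mpr hs) (Real.arctan_lt_pi_div_two _)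
    rw [Real.tan_arctan] at h6
    exact h6.le

lemma abs_arctan_le (s : ℝ) : |Real.arctan s| ≤ |s| := by
  rcases le_total 0 s with h | h
  · rw [abs_of_nonneg h, abs_of_nonneg (Real.arctan_nonneg.mpr h)]; exact arctan_le_self' h
  · have h1 : Real.arctan s ≤ 0 := by rw [← Real.arctan_zero]; exact Real.arctan_mono h
    rw [abs_of_nonpos h, abs_of_nonpos h1, ← Real.arctan_neg]
    exact arctan_le_self' (by linarith)

/-- positive case -/
lemma chi_pos {y η R : ℝ} (hy : 0 < y) (hη : 0 < η) (hR : η ≤ R) :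
    Real.pi / 2 - Real.arctan (y / η) ≤ Real.pi * η * ((∫ u in η..R, 1 / (y ^ 2 + u ^ 2)) + 1 / R) := by
  have hRpos : 0 < R := lt_of_lt_of_le hη hR
  have h1 : ∫ u in η..R, 1 / (y ^ 2 + u ^ 2) = (1 / y) * (Real.arctan (y / η) - Real.arctan (y / R)) := by
    rw [← arctan_int y hη hR, ← intervalIntegral.integral_const_mul]
    refine intervalIntegral.integral_congr fun u hu => ?_
    rw [Set.uIcc_of_le hR] at hu
    have hu0 : 0 < u := lt_of_lt_of_le hη hu.1
    have h5 : y ^ 2 + u ^ 2 ≠ 0 := by positivity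
    field_simp
  have h2 : (1 / y) * Real.arctan (y / R) ≤ 1 / R := by
    calc (1 / y) * Real.arctan (y / R) ≤ (1 / y) * (y / R) :=
          mul_le_mul_of_nonneg_left (arctan_le_self' (by positivity)) (by positivity)
      _ = 1 / R := by field_simp
  have h3 := arctan_key (t := y / η) (by positivity)
  have h4 : Real.pi / (y / η) * Real.arctan (y / η) = Real.pi * η * ((1 / y) * Real.arctan (y / η)) := by
    field_simp
  rw [h4] at h3
  refine h3.trans (mul_le_mul_of_nonneg_left ?_ (by positivity))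
  rw [h1, mul_sub]
  linarith

lemma chi_bound (y : ℝ) {η R : ℝ} (hη : 0 < η) (hR : η ≤ R) :
    |Real.arctan (y / η) - Real.pi / 2 * (if 0 ≤ y then 1 else -1)|
      ≤ Real.pi * η * ((∫ u in η..R, 1 / (y ^ 2 + u ^ 2)) + 1 / R) := by
  have hRpos : 0 < R := lt_of_lt_of_le hη hR
  have hpi := Real.pi_pos
  rcases lt_trichotomy y 0 with hy | hy | hy
  · rw [if_neg (not_le.mpr hy)]
    have h1 := chi_pos (y := -y) (by linarith) hη hR
    have h2 : Real.arctan (-y / η) = -Real.arctan (y / η) := by rw [neg_div, Real.arctan_neg]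
    rw [h2, neg_sq] at h1
    have h3 := Real.neg_pi_div_two_lt_arctan (y / η)
    rw [abs_of_nonneg (by linarith)]
    linarith
  · subst hy
    rw [if_pos le_rfl, zero_div, Real.arctan_zero]
    have h1 : ∫ u in η..R, 1 / ((0 : ℝ) ^ 2 + u ^ 2) = 1 / η - 1 / R := by
      have h2 : ∀ u ∈ Set.uIcc η R, HasDerivAt (fun u : ℝ => -u⁻¹) (1 / ((0 : ℝ) ^ 2 + u ^ 2)) u := by
        intro u hu
        rw [Set.uIcc_of_le hR] at hu
        have hu0 : u ≠ 0 := (lt_of_lt_of_le hη hu.1).ne'
        refine ((hasDerivAt_inv hu0).neg).congr_deriv ?_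
        rw [neg_neg, one_div]
        congr 1
        ring
      have hcont : ContinuousOn (fun u : ℝ => 1 / ((0 : ℝ) ^ 2 + u ^ 2)) (Set.uIcc η R) := by
        refine ContinuousOn.div continuousOn_const (by fun_prop) fun u hu => ?_
        rw [Set.uIcc_of_le hR] at hu
        have hu0 : 0 < u := (lt_of_lt_of_le hη hu.1)
        positivity
      rw [intervalIntegral.integral_eq_sub_of_hasDerivAt h2 hcont.intervalIntegrable]
      rw [one_div, one_div]; ring
    rw [h1]
    have h3 : Real.pi * η * (1 / η - 1 / R + 1 / R) = Real.pi := by field_simp; ring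
    rw [h3, mul_one, zero_sub, abs_neg, abs_of_pos (by positivity)]
    linarith
  · rw [if_pos hy.le]
    have h1 := chi_pos hy hη hR
    have h3 := Real.arctan_lt_pi_div_two (y / η)
    rw [mul_one, abs_sub_comm, abs_of_nonneg (by linarith)]
    exact h1

/-- weighted Cauchy-Schwarz for one function -/
lemma cs_weight {μ : Measure ℝ} (f v : ℝ → ℝ)
    (hv : ∀ᵐ u ∂μ, 0 < v u)
    (h1 : Integrable (fun u => 1 / v u) μ)
    (h2 : Integrable f μ) (h3 : Integrable (fun u => v u * f u ^ 2) μ) :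
    (∫ u, f u ∂μ) ^ 2 ≤ (∫ u, 1 / v u ∂μ) * ∫ u, v u * f u ^ 2 ∂μ := by
  set A := ∫ u, f u ∂μ with hA
  set L := ∫ u, 1 / v u ∂μ with hL
  set B := ∫ u, v u * f u ^ 2 ∂μ with hB
  have hL0 : 0 ≤ L := integral_nonneg_of_ae (by filter_upwards [hv] with u hu; simp only [Pi.zero_apply]; positivity)
  have hB0 : 0 ≤ B := integral_nonneg_of_ae (by filter_upwards [hv] with u hu; simp only [Pi.zero_apply]; positivity)
  have key : ∀ t : ℝ, 0 ≤ B - 2 * t * A + t ^ 2 * L := by
    intro t
    have h4 : 0 ≤ ∫ u, (v u * f u ^ 2 - 2 * t * f u + t ^ 2 * (1 / v u)) ∂μ := by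
      refine integral_nonneg_of_ae ?_
      filter_upwards [hv] with u hu
      simp only [Pi.zero_apply]
      have : v u * f u ^ 2 - 2 * t * f u + t ^ 2 * (1 / v u) = (v u * f u - t) ^ 2 / v u := by
        field_simp; ring
      rw [this]; positivity
    have h5 : ∫ u, (v u * f u ^ 2 - 2 * t * f u + t ^ 2 * (1 / v u)) ∂μ = B - 2 * t * A + t ^ 2 * L := by
      have e1 : Integrable (fun u => v u * f u ^ 2 - 2 * t * f u) μ := h3.sub (h2.const_mul _)
      have e2 : Integrable (fun u => t ^ 2 * (1 / v u)) μ := h1.const_mul _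
      have e3 : Integrable (fun u => 2 * t * f u) μ := h2.const_mul _
      rw [integral_add e1 e2, integral_sub h3 e3, integral_const_mul, integral_const_mul]
    rw [h5] at h4; exact h4
  rcases hL0.eq_or_lt with h0 | hpos
  · -- L = 0 : A must vanish
    rw [← h0]
    rw [← h0] at key
    have hA0 : A = 0 := by
      by_contra hne
      have := key ((B + 1) / (2 * A))
      have h6 : 2 * ((B + 1) / (2 * A)) * A = B + 1 := by field_simp
      rw [h6] at this
      linarith
    rw [hA0]; simp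
  · have := key (A / L)
    have h6 : B - 2 * (A / L) * A + (A / L) ^ 2 * L = B - A ^ 2 / L := by field_simp; ring
    rw [h6] at this
    have h7 : A ^ 2 / L ≤ B := by linarith
    rw [div_le_iff₀ hpos] at h7
    linarith

/-- second moment of a weighted integral -/
theorem L2w {Ω : Type*} [MeasurableSpace Ω] (P : Measure Ω) [IsProbabilityMeasure P]
    (μ : Measure ℝ) [IsFiniteMeasure μ] (v : ℝ → ℝ) (hvm : Measurable v) (Kv : ℝ)
    (hv : ∀ᵐ u ∂μ, 0 < v u ∧ v u ≤ Kv) (h1 : Integrable (fun u => 1 / v u) μ)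
    (f : ℝ → Ω → ℝ) (hfm : Measurable (Function.uncurry f)) (K : ℝ)
    (hfb : ∀ᵐ u ∂μ, ∀ ω, |f u ω| ≤ K) (G : ℝ → ℝ)
    (hG : ∀ᵐ u ∂μ, ∫ ω, f u ω ^ 2 ∂P ≤ G u) (hGi : Integrable (fun u => v u * G u) μ) :
    ∫ ω, (∫ u, f u ω ∂μ) ^ 2 ∂P ≤ (∫ u, 1 / v u ∂μ) * ∫ u, v u * G u ∂μ := by
  have hfu : ∀ ω, Measurable (fun u => f u ω) := fun ω =>
    hfm.comp (measurable_id.prodMk measurable_const)
  have hfi : ∀ ω, Integrable (fun u => f u ω) μ := fun ω =>
    Integrable.of_bound (hfu ω).aestronglyMeasurable K (by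
      filter_upwards [hfb] with u hu
      rw [Real.norm_eq_abs]; exact hu ω)
  have hbd : ∀ᵐ u ∂μ, ∀ ω, |v u * f u ω ^ 2| ≤ Kv * K ^ 2 := by
    filter_upwards [hfb, hv] with u hu hvu ω
    rw [abs_mul, abs_of_pos hvu.1, abs_of_nonneg (sq_nonneg _)]
    have h3 : f u ω ^ 2 ≤ K ^ 2 := by
      rw [← sq_abs]; exact pow_le_pow_left₀ (abs_nonneg _) (hu ω) 2
    exact mul_le_mul hvu.2 h3 (sq_nonneg _) (hvu.1.le.trans hvu.2)
  have hvfm : Measurable (fun p : Ω × ℝ => v p.2 * f p.2 p.1 ^ 2) := by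
    refine (hvm.comp measurable_snd).mul (Measurable.pow_const ?_ 2)
    exact hfm.comp (measurable_snd.prodMk measurable_fst)
  have hprod : Integrable (fun p : Ω × ℝ => v p.2 * f p.2 p.1 ^ 2) (P.prod μ) := by
    refine Integrable.of_bound hvfm.aestronglyMeasurable (Kv * K ^ 2) ?_
    have h2 : ∀ᵐ p ∂(P.prod μ), ∀ ω, |v p.2 * f p.2 ω ^ 2| ≤ Kv * K ^ 2 :=
      Measure.quasiMeasurePreserving_snd.ae hbd
    filter_upwards [h2] with p hp
    rw [Real.norm_eq_abs]; exact hp p.1
  have hvf : ∀ ω, Integrable (fun u => v u * f u ω ^ 2) μ := fun ω => by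
    refine Integrable.of_bound ?_ (Kv * K ^ 2) (by
      filter_upwards [hbd] with u hu
      rw [Real.norm_eq_abs]; exact hu ω)
    exact (hvm.mul ((hfu ω).pow_const 2)).aestronglyMeasurable
  have hL0 : 0 ≤ ∫ u, 1 / v u ∂μ := integral_nonneg_of_ae (by
    filter_upwards [hv] with u hu
    simp only [Pi.zero_apply]
    have := hu.1
    positivity)
  have hpt : ∀ ω, (∫ u, f u ω ∂μ) ^ 2 ≤ (∫ u, 1 / v u ∂μ) * ∫ u, v u * f u ω ^ 2 ∂μ := fun ω =>
    cs_weight _ v (hv.mono fun u hu => hu.1) h1 (hfi ω) (hvf ω)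
  have hswap : ∫ ω, ∫ u, v u * f u ω ^ 2 ∂μ ∂P = ∫ u, ∫ ω, v u * f u ω ^ 2 ∂P ∂μ :=
    integral_integral_swap hprod
  calc ∫ ω, (∫ u, f u ω ∂μ) ^ 2 ∂P
      ≤ ∫ ω, (∫ u, 1 / v u ∂μ) * ∫ u, v u * f u ω ^ 2 ∂μ ∂P := by
        refine integral_mono_of_nonneg (Filter.Eventually.of_forall fun ω => sq_nonneg _)
          (hprod.integral_prod_left.const_mul _) (Filter.Eventually.of_forall hpt)
    _ = (∫ u, 1 / v u ∂μ) * ∫ u, ∫ ω, v u * f u ω ^ 2 ∂P ∂μ := by
        rw [integral_const_mul, hswap]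
    _ ≤ (∫ u, 1 / v u ∂μ) * ∫ u, v u * G u ∂μ := by
        refine mul_le_mul_of_nonneg_left ?_ hL0
        refine integral_mono_ae hprod.integral_prod_right hGi ?_
        filter_upwards [hG, hv] with u hu hvu
        rw [integral_const_mul]
        exact mul_le_mul_of_nonneg_left hu hvu.1.le

end Pool.Agent.ZR.I

end
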