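import Mathlib

/-!
# Merged form of the modules ZR.H2, ZR.KShift
-/

set_option autoImplicit false

section

/-!
# ZR/H2 : three facts of real analysis

* `gron`: `φ` is continuous on `[0, π/2]`; let `M` be its maximum, attained at `θm`.  By the mean value
  inequality (`|φ'| ≤ A (√M + b)` everywhere) `M = φ(θm) ≤ φ(π/2) + (π/2) A (√M + b)`
  `≤ φ(π/2) + M/2 + π²A²/8 + (π/4)(A² + b²)`, so
  `M ≤ 2 φ(π/2) + (π²/4 + π/2) A² + (π/2) b² ≤ 2 φ(π/2) + 5 A² + 2 b²` (`π < 3.15`).
* `cos_bd`: `image_norm_le_of_norm_deriv_right_le_deriv_boundary'` (or the version of it for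
  `f - f 0`) with `B θ = M (1 - cos θ)`, `B' θ = M sin θ`.
* `theta_of`: `θ = arccos α`, `Real.cos_arccos`, `Real.sin_arccos`, `Real.arccos_le_pi_div_two`.
* `theta_t`: `theta_of` with `α = exp(-t/2)`, `β = √(1 - exp(-t))`; `1 - exp(-t/2) ≤ t/2`
  (`Real.add_one_le_exp`).
-/


namespace Pool.Agent.ZR.H

theorem gron (φ φ' : ℝ → ℝ) (A b : ℝ) (hA : 0 ≤ A) (hb : 0 ≤ b)
    (h0 : ∀ θ ∈ Set.Icc (0 : ℝ) (Real.pi / 2), 0 ≤ φ θ)
    (hd : ∀ θ ∈ Set.Icc (0 : ℝ) (Real.pi / 2), HasDerivAt φ (φ' θ) θ)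
    (hbd : ∀ θ ∈ Set.Icc (0 : ℝ) (Real.pi / 2), |φ' θ| ≤ A * (Real.sqrt (φ θ) + b)) :
    ∀ θ ∈ Set.Icc (0 : ℝ) (Real.pi / 2), φ θ ≤ 2 * φ (Real.pi / 2) + 5 * A ^ 2 + 2 * b ^ 2 := by
  have hpi : 0 < Real.pi := Real.pi_pos
  have hpi2 : Real.pi < 3.15 := Real.pi_lt_d2
  have hc : ContinuousOn φ (Set.Icc (0 : ℝ) (Real.pi / 2)) :=
    fun x hx => (hd x hx).continuousAt.continuousWithinAt
  obtain ⟨m, hm, hmax⟩ := isCompact_Icc.exists_isMaxOn
    (Set.nonempty_Icc.2 (by positivity : (0 : ℝ) ≤ Real.pi / 2)) hc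
  have hM0 : 0 ≤ φ m := h0 m hm
  have hend : Real.pi / 2 ∈ Set.Icc (0 : ℝ) (Real.pi / 2) := ⟨by positivity, le_rfl⟩
  have hC : ∀ x ∈ Set.Icc (0 : ℝ) (Real.pi / 2), ‖φ' x‖ ≤ A * (Real.sqrt (φ m) + b) := by
    intro x hx
    rw [Real.norm_eq_abs]
    refine (hbd x hx).trans ?_
    have h1 : Real.sqrt (φ x) ≤ Real.sqrt (φ m) := Real.sqrt_le_sqrt (hmax hx)
    gcongr
  have hmv := (convex_Icc (0 : ℝ) (Real.pi / 2)).norm_image_sub_le_of_norm_hasDerivWithin_le
    (f := φ) (f' := φ') (fun x hx => (hd x hx).hasDerivWithinAt) hC hend hm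
  rw [Real.norm_eq_abs, Real.norm_eq_abs] at hmv
  have h1 : |m - Real.pi / 2| ≤ Real.pi / 2 := by
    rw [abs_le]; constructor <;> linarith [hm.1, hm.2]
  set s := Real.sqrt (φ m) with hs
  have hs0 : 0 ≤ s := Real.sqrt_nonneg _
  have hss : s * s = φ m := Real.mul_self_sqrt hM0
  have h2 : φ m - φ (Real.pi / 2) ≤ A * (s + b) * (Real.pi / 2) := by
    refine (le_abs_self _).trans (hmv.trans ?_)
    gcongr
  have hM : φ m ≤ 2 * φ (Real.pi / 2) + 5 * A ^ 2 + 2 * b ^ 2 := by
    have h3 : A * s * (Real.pi / 2) ≤ s * s / 2 + (A * Real.pi / 2) ^ 2 / 2 := by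
      nlinarith [sq_nonneg (s - A * Real.pi / 2)]
    have h4 : A * b * (Real.pi / 2) ≤ Real.pi / 4 * (A ^ 2 + b ^ 2) := by
      nlinarith [mul_nonneg hpi.le (sq_nonneg (A - b))]
    have h5 : (A * Real.pi / 2) ^ 2 ≤ (3.15 / 2) ^ 2 * A ^ 2 := by
      have : (A * Real.pi / 2) ^ 2 = (Real.pi / 2) ^ 2 * A ^ 2 := by ring
      rw [this]
      gcongr
    have h6 : Real.pi / 4 * (A ^ 2 + b ^ 2) ≤ 3.15 / 4 * (A ^ 2 + b ^ 2) := by
      gcongr
    nlinarith [sq_nonneg A, sq_nonneg b]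
  intro θ hθ
  exact (hmax hθ).trans hM

theorem cos_bd {f f' : ℝ → ℂ} {M θ1 : ℝ} (hM : 0 ≤ M) (h1 : 0 ≤ θ1) (h2 : θ1 ≤ Real.pi / 2)
    (hd : ∀ θ ∈ Set.Icc (0 : ℝ) θ1, HasDerivAt f (f' θ) θ)
    (hbd : ∀ θ ∈ Set.Icc (0 : ℝ) θ1, ‖f' θ‖ ≤ M * Real.sin θ) :
    ‖f θ1 - f 0‖ ≤ M * (1 - Real.cos θ1) := by
  have key := image_norm_le_of_norm_deriv_right_le_deriv_boundary' (a := 0) (b := θ1)
    (f := fun θ => f θ - f 0) (f' := f') (B := fun θ => M * (1 - Real.cos θ))
    (B' := fun θ => M * Real.sin θ)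
    (fun x hx => ((hd x hx).sub_const (f 0)).continuousAt.continuousWithinAt)
    (fun x hx => ((hd x ⟨hx.1, hx.2.le⟩).sub_const (f 0)).hasDerivWithinAt)
    (by simp)
    (by fun_prop)
    (fun x _ => by
      have h := ((Real.hasDerivAt_cos x).const_sub 1).const_mul M
      simpa using h.hasDerivWithinAt)
    (fun x hx => hbd x ⟨hx.1, hx.2.le⟩)
  exact key ⟨h1, le_rfl⟩

theorem theta_of (α β : ℝ) (hα : 0 ≤ α) (hβ : 0 ≤ β) (h : α ^ 2 + β ^ 2 = 1) :
    ∃ θ ∈ Set.Icc (0 : ℝ) (Real.pi / 2), Real.cos θ = α ∧ Real.sin θ = β := by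
  have h1 : α ≤ 1 := by nlinarith [sq_nonneg β]
  refine ⟨Real.arccos α, ⟨Real.arccos_nonneg α, Real.arccos_le_pi_div_two.2 hα⟩,
    Real.cos_arccos (by linarith) h1, ?_⟩
  rw [Real.sin_arccos]
  have : 1 - α ^ 2 = β ^ 2 := by linarith
  rw [this, Real.sqrt_sq hβ]

theorem theta_t (t : ℝ) (ht : 0 ≤ t) :
    ∃ θ ∈ Set.Icc (0 : ℝ) (Real.pi / 2), Real.cos θ = Real.exp (-t / 2) ∧
      Real.sin θ = Real.sqrt (1 - Real.exp (-t)) ∧ 1 - Real.cos θ ≤ t / 2 := by
  have h1 : 0 ≤ 1 - Real.exp (-t) := by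
    have : Real.exp (-t) ≤ 1 := Real.exp_le_one_iff.2 (by linarith)
    linarith
  obtain ⟨θ, hθ, hc, hs⟩ := theta_of (Real.exp (-t / 2)) (Real.sqrt (1 - Real.exp (-t)))
    (Real.exp_pos _).le (Real.sqrt_nonneg _) (by
      rw [Real.sq_sqrt h1, ← Real.exp_nat_mul]
      have : ((2 : ℕ) : ℝ) * (-t / 2) = -t := by push_cast; ring
      rw [this]; ring)
  refine ⟨θ, hθ, hc, hs, ?_⟩
  rw [hc]
  have := Real.add_one_le_exp (-t / 2)
  linarith

end Pool.Agent.ZR.H

end

section

/-!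
# ZR, part K1 (helper58): Gaussian shift and log-Harnack inequality
-/


open MeasureTheory ProbabilityTheory

namespace Pool.Agent.ZR.K1

/-- standard Gaussian measure on `ι → ℝ` -/
noncomputable def gst (ι : Type*) [Fintype ι] : Measure (ι → ℝ) :=
  Measure.pi (fun _ : ι => gaussianReal 0 1)

instance {ι : Type*} [Fintype ι] : IsProbabilityMeasure (gst ι) := by
  unfold gst; infer_instance

lemma gst_eq_gm (N : ℕ) : gst (Fin N × Fin N) = Measure.pi (fun _ : Fin N × Fin N => gaussianReal 0 1) := rfl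

lemma gauss_shift_one (h : ℝ) :
    (gaussianReal 0 1).map (fun x => x + h) = (gaussianReal 0 1).withDensity
      (fun x => ENNReal.ofReal (Real.exp (h * x - h ^ 2 / 2))) := by
  rw [gaussianReal_map_add_const, zero_add, gaussianReal_of_var_ne_zero _ one_ne_zero,
    gaussianReal_of_var_ne_zero _ one_ne_zero, ← withDensity_mul _ (by fun_prop) (by fun_prop)]
  congr 1
  ext x
  simp only [Pi.mul_apply, gaussianPDF_def, gaussianPDFReal_def, NNReal.coe_one, mul_one, sub_zero]
  rw [← ENNReal.ofReal_mul (by positivity), mul_assoc, ← Real.exp_add]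
  congr 3
  ring

lemma gauss_shift {ι : Type*} [Fintype ι] (h : ι → ℝ) :
    (gst ι).map (fun x => x + h) = (gst ι).withDensity
      (fun x => ENNReal.ofReal (Real.exp (∑ i, (h i * x i - h i ^ 2 / 2)))) := by
  unfold gst
  have h1 : (Measure.pi (fun _ : ι => gaussianReal 0 1)).map (fun x => x + h)
      = Measure.pi (fun i : ι => (gaussianReal 0 1).map (fun x => x + h i)) := by
    have := Measure.pi_map_pi (μ := fun _ : ι => gaussianReal 0 1)
      (f := fun i (x : ℝ) => x + h i) (fun i => by fun_prop)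
    exact this
  rw [h1]
  apply Measure.pi_eq
  intro s hs
  rw [withDensity_apply _ (MeasurableSet.univ_pi hs), ← lintegral_indicator (MeasurableSet.univ_pi hs)]
  have h2 : ∀ x : ι → ℝ, (Set.univ.pi s).indicator
      (fun x => ENNReal.ofReal (Real.exp (∑ i, (h i * x i - h i ^ 2 / 2)))) x
      = ∏ i, (s i).indicator (fun y => ENNReal.ofReal (Real.exp (h i * y - h i ^ 2 / 2))) (x i) := by
    intro x
    by_cases hx : x ∈ Set.univ.pi s
    · rw [Set.indicator_of_mem hx, Real.exp_sum, ENNReal.ofReal_prod_of_nonneg (fun i _ => (Real.exp_pos _).le)]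
      refine Finset.prod_congr rfl fun i _ => ?_
      rw [Set.indicator_of_mem (hx i trivial)]
    · rw [Set.indicator_of_notMem hx]
      simp only [Set.mem_pi, Set.mem_univ, forall_const, not_forall] at hx
      obtain ⟨i, hi⟩ := hx
      symm
      exact Finset.prod_eq_zero (Finset.mem_univ i) (Set.indicator_of_notMem hi _)
  simp_rw [h2]
  have h3 : iIndepFun (fun i (x : ι → ℝ) => (s i).indicator
      (fun y => ENNReal.ofReal (Real.exp (h i * y - h i ^ 2 / 2))) (x i))
      (Measure.pi (fun _ : ι => gaussianReal 0 1)) :=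
    iIndepFun_pi (μ := fun _ : ι => gaussianReal 0 1)
      (X := fun i => (s i).indicator (fun y => ENNReal.ofReal (Real.exp (h i * y - h i ^ 2 / 2))))
      (fun i => (Measurable.indicator (by fun_prop) (hs i)).aemeasurable)
  rw [lintegral_prod_eq_prod_lintegral_of_indepFun Finset.univ _ h3
    (fun i => (Measurable.indicator (by fun_prop) (hs i)).comp (measurable_pi_apply i))]
  refine Finset.prod_congr rfl fun i _ => ?_
  have h4 := (measurePreserving_eval (fun _ : ι => gaussianReal 0 1) i).lintegral_comp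
    (f := (s i).indicator (fun y => ENNReal.ofReal (Real.exp (h i * y - h i ^ 2 / 2))))
    (Measurable.indicator (by fun_prop) (hs i))
  simp only [Function.eval] at h4
  rw [h4, lintegral_indicator (hs i), ← withDensity_apply _ (hs i), gauss_shift_one]

lemma gst_integrable_eval {ι : Type*} [Fintype ι] (i : ι) : Integrable (fun x : ι → ℝ => x i) (gst ι) :=
  (measurePreserving_eval (fun _ : ι => gaussianReal 0 1) i).integrable_comp_of_integrable
    ((memLp_id_gaussianReal 1).integrable le_rfl)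

lemma gst_integral_eval {ι : Type*} [Fintype ι] (i : ι) : ∫ x : ι → ℝ, x i ∂(gst ι) = 0 := by
  have h := integral_comp_eval (μ := fun _ : ι => gaussianReal 0 1) (i := i) (f := fun y : ℝ => y)
    (by fun_prop)
  unfold gst
  rw [h, integral_id_gaussianReal]

/-- log-Harnack inequality for a translate -/
theorem logHarnack {ι : Type*} [Fintype ι] (g : (ι → ℝ) → ℝ) (hg : Measurable g) (M : ℝ)
    (hM : ∀ x, |g x| ≤ M) (h : ι → ℝ) :
    ∫ x, g (x + h) ∂(gst ι) ≤ Real.log (∫ x, Real.exp (g x) ∂(gst ι)) + (∑ i, h i ^ 2) / 2 := by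
  set ℓ : (ι → ℝ) → ℝ := fun x => ∑ i, (h i * x i - h i ^ 2 / 2) with hℓ
  have hℓm : Measurable ℓ := by fun_prop
  set ν : Measure (ι → ℝ) := (gst ι).map (fun x => x + h) with hν
  have hsh : Measurable (fun x : ι → ℝ => x + h) := by fun_prop
  have : IsProbabilityMeasure ν := Measure.isProbabilityMeasure_map hsh.aemeasurable
  have hνd : ν = (gst ι).withDensity (fun x => ENNReal.ofReal (Real.exp (ℓ x))) := gauss_shift h
  have hgb : ∀ (μ : Measure (ι → ℝ)) [IsProbabilityMeasure μ], Integrable g μ := by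
    intro μ _
    exact Integrable.of_bound hg.aestronglyMeasurable M (Filter.Eventually.of_forall fun x => by
      rw [Real.norm_eq_abs]; exact hM x)
  -- integral of ℓ against ν
  have hℓi : Integrable ℓ ν := by
    rw [hν, integrable_map_measure hℓm.aestronglyMeasurable hsh.aemeasurable]
    refine integrable_finsetSum _ fun i _ => ?_
    refine Integrable.sub (Integrable.const_mul ?_ _) (integrable_const _)
    simp only [Pi.add_apply]
    exact (gst_integrable_eval i).add (integrable_const _)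
  have hℓv : ∫ x, ℓ x ∂ν = (∑ i, h i ^ 2) / 2 := by
    rw [hν, integral_map hsh.aemeasurable hℓm.aestronglyMeasurable]
    simp only [hℓ, Pi.add_apply]
    rw [integral_finsetSum]
    · rw [Finset.sum_div]
      refine Finset.sum_congr rfl fun i _ => ?_
      rw [integral_sub, integral_const_mul, integral_add, gst_integral_eval]
      · simp; ring
      · exact gst_integrable_eval i
      · exact integrable_const _
      · exact Integrable.const_mul ((gst_integrable_eval i).add (integrable_const _)) _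
      · exact integrable_const _
    · intro i _
      exact Integrable.sub (Integrable.const_mul ((gst_integrable_eval i).add (integrable_const _)) _)
        (integrable_const _)
  have hexp : ∫ x, Real.exp (g x) ∂(gst ι) = ∫ x, Real.exp (g x - ℓ x) ∂ν := by
    rw [hνd, integral_withDensity_eq_integral_toReal_smul (by fun_prop) (by simp)]
    refine integral_congr_ae (Filter.Eventually.of_forall fun x => ?_)
    simp only [smul_eq_mul]
    rw [ENNReal.toReal_ofReal (Real.exp_pos _).le, ← Real.exp_add]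
    congr 1; ring
  have hexpi : Integrable (fun x => Real.exp (g x - ℓ x)) ν := by
    rw [hνd, integrable_withDensity_iff_integrable_smul' (by fun_prop) (by simp)]
    refine (Integrable.of_bound (μ := gst ι) (f := fun x => Real.exp (g x))
      (by fun_prop) (Real.exp M) (Filter.Eventually.of_forall fun x => ?_)).congr
      (Filter.Eventually.of_forall fun x => ?_)
    · rw [Real.norm_eq_abs, abs_of_pos (Real.exp_pos _)]
      exact Real.exp_le_exp.mpr (abs_le.mp (hM x)).2
    · simp only [smul_eq_mul]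
      rw [ENNReal.toReal_ofReal (Real.exp_pos _).le, ← Real.exp_add]
      congr 1; ring
  have hJ : Real.exp (∫ x, (g x - ℓ x) ∂ν) ≤ ∫ x, Real.exp (g x - ℓ x) ∂ν :=
    convexOn_exp.map_integral_le Real.continuous_exp.continuousOn isClosed_univ
      (Filter.Eventually.of_forall fun _ => Set.mem_univ _) ((hgb ν).sub hℓi) hexpi
  have h1 : ∫ x, g (x + h) ∂(gst ι) = ∫ x, g x ∂ν := by
    rw [hν, integral_map hsh.aemeasurable hg.aestronglyMeasurable]
  rw [h1]
  have h2 : ∫ x, (g x - ℓ x) ∂ν = ∫ x, g x ∂ν - (∑ i, h i ^ 2) / 2 := by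
    rw [integral_sub (hgb ν) hℓi, hℓv]
  rw [h2, ← hexp] at hJ
  have h3 := Real.log_le_log (Real.exp_pos _) hJ
  rw [Real.log_exp] at h3
  linarith

end Pool.Agent.ZR.K1

namespace Pool.Agent.ZR

export K1 (gst)

end Pool.Agent.ZR

end
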