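import Mathlib

/-!
# Merged form of the modules ZR.C7, ZR.JProd
-/

set_option autoImplicit false

section

/-!
# ZR/C7 : trapezoid rule and a class of functions with controlled jets

A *jet* is a sequence `h : ℕ → ℝ → ℂ` with `h r' = h (r+1)`.  `Jt A e h`: moreover
`|h r s| ≤ A r! e^r` for `s ∈ [0,1]` and `r ≤ 3`.

`trap3`: `f 1 - f 0 - (f'(0) + f'(1))/2 = ∫_0^1 (f'(s) - (f'(0)+f'(1))/2) ds`; integrate by parts twice:
`= ½∫_0^1 (s² - s) f'''(s) ds` up to sign, of modulus `≤ M/12`.  Elementary alternative without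
integrals: apply the mean value inequality to `φ(x) = f(x) - f(0) - x (f'(0) + f'(x))/2`:
`φ'(x) = (f'(x) - f'(0))/2 - x f''(x)/2`, `(φ')'(x) = - x f'''(x)/2`, so `‖φ'(x)‖ ≤ M x²/4 ≤ M` and
`‖φ(1)‖ ≤ M`; the statement only claims the bound `M`.
`trap2`: same with `φ'(x)` bounded by `‖f''‖`: `‖(f'(x)-f'(0))/2‖ + ‖x f''(x)/2‖ ≤ M`.
(Use `norm_image_sub_le_of_norm_deriv_le_segment_01'`-type lemmas.)

`jt_mul`: Leibniz: `(hk)^{(r)} = ∑ C(r,i) h_i k_{r-i}`, `|.| ≤ A A' ∑_i C(r,i) i! (r-i)! e^i e'^{r-i}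
≤ A A' r! (r+1) max(e,e')^r ≤ A A' r! (2 e'')^r` with `e'' = max`; take both with the same `e`.
The product jet is `mulJ h k r s = ∑_{i ≤ r} C(r,i) h i s * k (r-i) s`; its derivative is
`mulJ h k (r+1)` (Pascal).
`jt_add`, `jt_const`, `jt_mono` are immediate.
`jt_conj`: complex conjugation.
`jt_trap`: for a jet in the class, `‖h 0 1 - h 0 0 - (h 1 0 + h 1 1)/2‖ ≤ 6 A e³` and also `≤ 2 A e²`.
-/


namespace Pool.Agent.ZR

private theorem trap_der (f f1 f2 : ℝ → ℂ) (h0 : ∀ s, HasDerivAt f (f1 s) s)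
    (h1 : ∀ s, HasDerivAt f1 (f2 s) s) (x : ℝ) :
    HasDerivAt (fun x : ℝ => f x - f 0 - (x : ℂ) * ((f1 0 + f1 x) / 2))
      ((f1 x - f1 0) / 2 - (x : ℂ) * f2 x / 2) x := by
  have hx : HasDerivAt (fun x : ℝ => (x : ℂ)) 1 x := Complex.ofRealCLM.hasDerivAt (x := x)
  have h2 : HasDerivAt (fun x : ℝ => (x : ℂ) * ((f1 0 + f1 x) / 2))
      (1 * ((f1 0 + f1 x) / 2) + (x : ℂ) * ((f2 x) / 2)) x := by
    refine hx.mul ?_
    exact ((h1 x).const_add (f1 0)).div_const 2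
  have h3 := ((h0 x).sub_const (f 0)).sub h2
  refine h3.congr_deriv ?_
  ring


theorem trap3 (f f1 f2 f3 : ℝ → ℂ) (h0 : ∀ s, HasDerivAt f (f1 s) s)
    (h1 : ∀ s, HasDerivAt f1 (f2 s) s) (h2 : ∀ s, HasDerivAt f2 (f3 s) s) (M : ℝ)
    (hM : ∀ s ∈ Set.Icc (0 : ℝ) 1, ‖f3 s‖ ≤ M) : ‖f 1 - f 0 - (f1 0 + f1 1) / 2‖ ≤ M := by
  have hM0 : 0 ≤ M := (norm_nonneg _).trans (hM 0 ⟨le_refl _, zero_le_one⟩)
  have hd1 := trap_der f f1 f2 h0 h1
  have hd2 : ∀ x : ℝ, HasDerivAt (fun x : ℝ => (f1 x - f1 0) / 2 - (x : ℂ) * f2 x / 2)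
      (-((x : ℂ) * f3 x / 2)) x := by
    intro x
    have hx : HasDerivAt (fun x : ℝ => (x : ℂ)) 1 x := Complex.ofRealCLM.hasDerivAt (x := x)
    have h3 := (((h1 x).sub_const (f1 0)).div_const 2).sub ((hx.mul (h2 x)).div_const 2)
    refine h3.congr_deriv ?_
    ring
  have b1 : ∀ x ∈ Set.Icc (0 : ℝ) 1,
      ‖(f1 x - f1 0) / 2 - (x : ℂ) * f2 x / 2‖ ≤ M := by
    intro x hx
    have key := norm_image_sub_le_of_norm_deriv_le_segment' (a := (0 : ℝ)) (b := 1)
      (f := fun x : ℝ => (f1 x - f1 0) / 2 - (x : ℂ) * f2 x / 2)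
      (f' := fun x : ℝ => (-((x : ℂ) * f3 x / 2))) (C := M)
      (fun y _ => (hd2 y).hasDerivWithinAt) (by
        intro y hy
        have hy' : y ∈ Set.Icc (0 : ℝ) 1 := ⟨hy.1, hy.2.le⟩
        have h3 := hM y hy'
        rw [norm_neg, norm_div, norm_mul, Complex.norm_real, Real.norm_eq_abs,
          abs_of_nonneg hy.1]
        have h4 : ‖(2 : ℂ)‖ = 2 := by simp
        rw [h4]
        have h5 : y * ‖f3 y‖ ≤ 1 * M := mul_le_mul hy.2.le h3 (norm_nonneg _) zero_le_one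
        linarith) x hx
    simp only [sub_self, zero_div, Complex.ofReal_zero, zero_mul, sub_zero] at key
    refine key.trans ?_
    nlinarith [hx.2, hx.1]
  have key := norm_image_sub_le_of_norm_deriv_le_segment' (a := (0 : ℝ)) (b := 1)
      (f := fun x : ℝ => f x - f 0 - (x : ℂ) * ((f1 0 + f1 x) / 2))
      (f' := fun x : ℝ => ((f1 x - f1 0) / 2 - (x : ℂ) * f2 x / 2)) (C := M)
      (fun y _ => (hd1 y).hasDerivWithinAt) (fun y hy => b1 y ⟨hy.1, hy.2.le⟩) 1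
      ⟨zero_le_one, le_refl _⟩
  simp only [sub_self, Complex.ofReal_zero, zero_mul, sub_zero, Complex.ofReal_one, one_mul,
    mul_one] at key
  exact key

theorem trap2 (f f1 f2 : ℝ → ℂ) (h0 : ∀ s, HasDerivAt f (f1 s) s)
    (h1 : ∀ s, HasDerivAt f1 (f2 s) s) (M : ℝ)
    (hM : ∀ s ∈ Set.Icc (0 : ℝ) 1, ‖f2 s‖ ≤ M) : ‖f 1 - f 0 - (f1 0 + f1 1) / 2‖ ≤ M := by
  have hM0 : 0 ≤ M := (norm_nonneg _).trans (hM 0 ⟨le_refl _, zero_le_one⟩)
  have hd1 := trap_der f f1 f2 h0 h1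
  have b0 : ∀ x ∈ Set.Icc (0 : ℝ) 1, ‖f1 x - f1 0‖ ≤ M := by
    intro x hx
    have key := norm_image_sub_le_of_norm_deriv_le_segment' (a := (0 : ℝ)) (b := 1)
      (f := f1) (f' := f2) (C := M)
      (fun y _ => (h1 y).hasDerivWithinAt) (fun y hy => hM y ⟨hy.1, hy.2.le⟩) x hx
    refine key.trans ?_
    nlinarith [hx.2, hx.1]
  have b1 : ∀ x ∈ Set.Icc (0 : ℝ) 1,
      ‖(f1 x - f1 0) / 2 - (x : ℂ) * f2 x / 2‖ ≤ M := by
    intro x hx
    have h4 : ‖(2 : ℂ)‖ = 2 := by simp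
    have h5 := b0 x hx
    have h6 := hM x hx
    have h7 : x * ‖f2 x‖ ≤ 1 * M := mul_le_mul hx.2 h6 (norm_nonneg _) zero_le_one
    refine (norm_sub_le _ _).trans ?_
    rw [norm_div, norm_div, norm_mul, Complex.norm_real, Real.norm_eq_abs,
          abs_of_nonneg hx.1, h4]
    linarith
  have key := norm_image_sub_le_of_norm_deriv_le_segment' (a := (0 : ℝ)) (b := 1)
      (f := fun x : ℝ => f x - f 0 - (x : ℂ) * ((f1 0 + f1 x) / 2))
      (f' := fun x : ℝ => ((f1 x - f1 0) / 2 - (x : ℂ) * f2 x / 2)) (C := M)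
      (fun y _ => (hd1 y).hasDerivWithinAt) (fun y hy => b1 y ⟨hy.1, hy.2.le⟩) 1
      ⟨zero_le_one, le_refl _⟩
  simp only [sub_self, Complex.ofReal_zero, zero_mul, sub_zero, Complex.ofReal_one, one_mul,
    mul_one] at key
  exact key

/-- jets with controlled derivatives up to order 3 on `[0,1]` -/
structure Jt (A e : ℝ) (h : ℕ → ℝ → ℂ) : Prop where
  der : ∀ r s, HasDerivAt (h r) (h (r + 1) s) s
  bd : ∀ r ≤ 3, ∀ s ∈ Set.Icc (0 : ℝ) 1, ‖h r s‖ ≤ A * r.factorial * e ^ r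

/-- product of two jets -/
noncomputable def mulJ (h k : ℕ → ℝ → ℂ) (r : ℕ) (s : ℝ) : ℂ :=
  ∑ i ∈ Finset.range (r + 1), (r.choose i : ℂ) * h i s * k (r - i) s

theorem mulJ_zero (h k : ℕ → ℝ → ℂ) (s : ℝ) : mulJ h k 0 s = h 0 s * k 0 s := by
  simp [mulJ]

theorem mulJ_one (h k : ℕ → ℝ → ℂ) (s : ℝ) : mulJ h k 1 s = h 0 s * k 1 s + h 1 s * k 0 s := by
  simp [mulJ, Finset.sum_range_succ]

private theorem mulJ_der {h k : ℕ → ℝ → ℂ} (hh : ∀ r s, HasDerivAt (h r) (h (r + 1) s) s)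
    (hk : ∀ r s, HasDerivAt (k r) (k (r + 1) s) s) (r : ℕ) (s : ℝ) :
    HasDerivAt (mulJ h k r) (mulJ h k (r + 1) s) s := by
  have h1 : ∀ i ∈ Finset.range (r + 1), HasDerivAt
      (fun s => (r.choose i : ℂ) * h i s * k (r - i) s)
      ((r.choose i : ℂ) * h (i + 1) s * k (r - i) s
        + (r.choose i : ℂ) * h i s * k (r - i + 1) s) s := by
    intro i _
    exact ((hh i s).const_mul _).mul (hk (r - i) s)
  have h2 := HasDerivAt.fun_sum h1
  have h3 : (fun s => mulJ h k r s) = fun s => ∑ i ∈ Finset.range (r + 1),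
      (r.choose i : ℂ) * h i s * k (r - i) s := rfl
  have h4 : HasDerivAt (fun s => mulJ h k r s) (∑ i ∈ Finset.range (r + 1),
      ((r.choose i : ℂ) * h (i + 1) s * k (r - i) s
        + (r.choose i : ℂ) * h i s * k (r - i + 1) s)) s := by
    rw [h3]; exact h2
  refine h4.congr_deriv ?_
  unfold mulJ
  rw [Finset.sum_add_distrib, Finset.sum_range_succ' (fun i => ((r + 1).choose i : ℂ) * h i s
    * k (r + 1 - i) s) (r + 1)]
  have h5 : ∑ i ∈ Finset.range (r + 1), (((r + 1).choose (i + 1) : ℕ) : ℂ) * h (i + 1) s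
      * k (r + 1 - (i + 1)) s
      = ∑ i ∈ Finset.range (r + 1), (r.choose i : ℂ) * h (i + 1) s * k (r - i) s
      + ∑ i ∈ Finset.range (r + 1), (r.choose (i + 1) : ℂ) * h (i + 1) s * k (r - i) s := by
    rw [← Finset.sum_add_distrib]
    refine Finset.sum_congr rfl fun i _ => ?_
    rw [Nat.choose_succ_succ, Nat.add_sub_add_right]
    push_cast
    ring
  rw [h5]
  have h6 : ∑ i ∈ Finset.range (r + 1), (r.choose i : ℂ) * h i s * k (r - i + 1) s
      = ∑ i ∈ Finset.range (r + 1), (r.choose (i + 1) : ℂ) * h (i + 1) s * k (r - i) s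
        + (r.choose 0 : ℂ) * h 0 s * k (r + 1) s := by
    rw [Finset.sum_range_succ (fun i => (r.choose (i + 1) : ℂ) * h (i + 1) s * k (r - i) s) r,
      Nat.choose_succ_self, Nat.cast_zero, zero_mul, zero_mul, add_zero,
      Finset.sum_range_succ' (fun i => (r.choose i : ℂ) * h i s * k (r - i + 1) s) r]
    congr 1
    refine Finset.sum_congr rfl fun i hi => ?_
    have : r - (i + 1) + 1 = r - i := by
      have := Finset.mem_range.1 hi
      omega
    rw [this]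
  rw [h6]
  simp only [Nat.choose_zero_right, Nat.sub_zero]
  ring

theorem jt_mul {A A' e : ℝ} {h k : ℕ → ℝ → ℂ} (hA : 0 ≤ A) (hA' : 0 ≤ A') (he : 0 ≤ e)
    (hh : Jt A e h) (hk : Jt A' e k) : Jt (A * A') (2 * e) (mulJ h k) := by
  refine ⟨fun r s => mulJ_der hh.der hk.der r s, ?_⟩
  intro r hr s hs
  unfold mulJ
  have h1 : ∀ i ∈ Finset.range (r + 1), ‖(r.choose i : ℂ) * h i s * k (r - i) s‖
      ≤ A * A' * r.factorial * e ^ r := by
    intro i hi
    have hi' : i ≤ r := Nat.lt_succ_iff.1 (Finset.mem_range.1 hi)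
    have h2 := hh.bd i (hi'.trans hr) s hs
    have h3 := hk.bd (r - i) ((Nat.sub_le _ _).trans hr) s hs
    rw [norm_mul, norm_mul, Complex.norm_natCast]
    have h4 : ((r.choose i : ℝ) * i.factorial * (r - i).factorial) = r.factorial := by
      have := Nat.choose_mul_factorial_mul_factorial hi'
      exact_mod_cast this
    have h5 : e ^ i * e ^ (r - i) = e ^ r := by
      rw [← pow_add]; congr 1; omega
    calc (r.choose i : ℝ) * ‖h i s‖ * ‖k (r - i) s‖
        ≤ (r.choose i : ℝ) * (A * i.factorial * e ^ i) * (A' * (r - i).factorial * e ^ (r - i)) := by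
          refine mul_le_mul (mul_le_mul_of_nonneg_left h2 (by positivity)) h3 (norm_nonneg _)
            (by positivity)
      _ = A * A' * ((r.choose i : ℝ) * i.factorial * (r - i).factorial)
            * (e ^ i * e ^ (r - i)) := by ring
      _ = A * A' * r.factorial * e ^ r := by rw [h4, h5]
  refine (norm_sum_le _ _).trans ((Finset.sum_le_sum h1).trans ?_)
  rw [Finset.sum_const, Finset.card_range, nsmul_eq_mul, mul_pow]
  have h6 : ((r + 1 : ℕ) : ℝ) ≤ 2 ^ r := by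
    have : r + 1 ≤ 2 ^ r := Nat.lt_two_pow_self
    exact_mod_cast this
  have h7 : 0 ≤ A * A' * r.factorial * e ^ r := by positivity
  calc ((r + 1 : ℕ) : ℝ) * (A * A' * r.factorial * e ^ r)
      ≤ 2 ^ r * (A * A' * r.factorial * e ^ r) := mul_le_mul_of_nonneg_right h6 h7
    _ = A * A' * r.factorial * (2 ^ r * e ^ r) := by ring

theorem jt_mono {A A' e e' : ℝ} {h : ℕ → ℝ → ℂ} (hA : 0 ≤ A) (hA' : A ≤ A') (he : 0 ≤ e)
    (he' : e ≤ e') (hh : Jt A e h) : Jt A' e' h := by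
  refine ⟨hh.der, fun r hr s hs => (hh.bd r hr s hs).trans ?_⟩
  have h1 : e ^ r ≤ e' ^ r := pow_le_pow_left₀ he he' r
  have h2 : (0 : ℝ) ≤ e ^ r := pow_nonneg he r
  have h3 : (0 : ℝ) ≤ (r.factorial : ℝ) := by positivity
  exact mul_le_mul (mul_le_mul_of_nonneg_right hA' h3) h1 h2
    (mul_nonneg (hA.trans hA') h3)

theorem jt_add {A A' e : ℝ} {h k : ℕ → ℝ → ℂ} (hh : Jt A e h) (hk : Jt A' e k) :
    Jt (A + A') e (fun r s => h r s + k r s) := by
  refine ⟨fun r s => (hh.der r s).add (hk.der r s), fun r hr s hs => ?_⟩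
  refine (norm_add_le _ _).trans ?_
  have h1 := hh.bd r hr s hs
  have h2 := hk.bd r hr s hs
  have h3 : (A + A') * r.factorial * e ^ r = A * r.factorial * e ^ r
    + A' * r.factorial * e ^ r := by ring
  rw [h3]
  exact add_le_add h1 h2

theorem jt_const (c : ℂ) {e : ℝ} (he : 0 ≤ e) :
    Jt ‖c‖ e (fun r _ => if r = 0 then c else 0) := by
  refine ⟨fun r s => ?_, fun r hr s hs => ?_⟩
  · simp only [Nat.succ_ne_zero, if_false]
    exact hasDerivAt_const s _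
  · by_cases h : r = 0
    · simp [h]
    · simp only [h, if_false, norm_zero]
      positivity

theorem jt_cmul (c : ℂ) {A e : ℝ} {h : ℕ → ℝ → ℂ} (hh : Jt A e h) :
    Jt (‖c‖ * A) e (fun r s => c * h r s) := by
  refine ⟨fun r s => (hh.der r s).const_mul c, fun r hr s hs => ?_⟩
  have h1 := hh.bd r hr s hs
  rw [norm_mul]
  calc ‖c‖ * ‖h r s‖ ≤ ‖c‖ * (A * r.factorial * e ^ r) :=
        mul_le_mul_of_nonneg_left h1 (norm_nonneg _)
    _ = ‖c‖ * A * r.factorial * e ^ r := by ring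

theorem jt_conj {A e : ℝ} {h : ℕ → ℝ → ℂ} (hh : Jt A e h) :
    Jt A e (fun r s => starRingEnd ℂ (h r s)) := by
  refine ⟨fun r s => ?_, fun r hr s hs => ?_⟩
  · exact (hh.der r s).star
  · have h1 := hh.bd r hr s hs
    simpa using h1

theorem jt_trap3 {A e : ℝ} {h : ℕ → ℝ → ℂ} (hh : Jt A e h) :
    ‖h 0 1 - h 0 0 - (h 1 0 + h 1 1) / 2‖ ≤ 6 * A * e ^ 3 := by
  have h1 := trap3 (h 0) (h 1) (h 2) (h 3) (hh.der 0) (hh.der 1) (hh.der 2)
    (A * (3 : ℕ).factorial * e ^ 3) (fun s hs => hh.bd 3 (le_refl _) s hs)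
  refine h1.trans (le_of_eq ?_)
  have : ((3 : ℕ).factorial : ℝ) = 6 := by norm_num [Nat.factorial]
  rw [this]; ring

theorem jt_trap2 {A e : ℝ} {h : ℕ → ℝ → ℂ} (hh : Jt A e h) :
    ‖h 0 1 - h 0 0 - (h 1 0 + h 1 1) / 2‖ ≤ 2 * A * e ^ 2 := by
  have h1 := trap2 (h 0) (h 1) (h 2) (hh.der 0) (hh.der 1)
    (A * (2 : ℕ).factorial * e ^ 2) (fun s hs => hh.bd 2 (by norm_num) s hs)
  refine h1.trans (le_of_eq ?_)
  have : ((2 : ℕ).factorial : ℝ) = 2 := by norm_num [Nat.factorial]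
  rw [this]; ring

/-- finite products of jets: `K` factors -/
theorem jt_prod {K : ℕ} (A : Fin K → ℝ) {e : ℝ} (h : Fin K → ℕ → ℝ → ℂ) (hA : ∀ l, 0 ≤ A l)
    (he : 0 ≤ e) (hh : ∀ l, Jt (A l) e (h l)) :
    ∃ H : ℕ → ℝ → ℂ, Jt (∏ l, A l) (2 ^ K * e) H ∧ (∀ s, H 0 s = ∏ l, h l 0 s) ∧
      ∀ s, H 1 s = ∑ l, h l 1 s * ∏ l' ∈ Finset.univ.erase l, h l' 0 s := by
  induction K with
  | zero =>
    refine ⟨fun r _ => if r = 0 then (1 : ℂ) else 0, ?_, ?_, ?_⟩
    · have h1 := jt_const (1 : ℂ) he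
      simpa using h1
    · intro s; simp
    · intro s; simp
  | succ K ih =>
    obtain ⟨H, hH, h0, h1⟩ := ih (fun l => A l.succ) (fun l => h l.succ) (fun l => hA _)
      (fun l => hh _)
    have hP : 0 ≤ ∏ l : Fin K, A l.succ := Finset.prod_nonneg fun l _ => hA _
    have h2K : e ≤ 2 ^ K * e := by
      have : (1 : ℝ) ≤ 2 ^ K := one_le_pow₀ (by norm_num)
      nlinarith
    have h3 : Jt (A 0) (2 ^ K * e) (h 0) := jt_mono (hA 0) (le_refl _) he h2K (hh 0)
    have h4 := jt_mul (hA 0) hP (by positivity) h3 hH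
    refine ⟨mulJ (h 0) H, ?_, ?_, ?_⟩
    · rw [Fin.prod_univ_succ]
      have h5 : (2 : ℝ) ^ (K + 1) * e = 2 * (2 ^ K * e) := by ring
      rw [h5]
      exact h4
    · intro s
      rw [mulJ_zero, h0 s, Fin.prod_univ_succ]
    · intro s
      rw [mulJ_one, h0 s, h1 s, Fin.sum_univ_succ]
      have h6 : (Finset.univ : Finset (Fin (K + 1))).erase 0
          = Finset.univ.map (Fin.succEmb K) := by
        ext x
        constructor
        · intro hx
          have hx' := (Finset.mem_erase.1 hx).1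
          obtain ⟨y, rfl⟩ := Fin.exists_succ_eq.2 hx'
          exact Finset.mem_map.2 ⟨y, Finset.mem_univ _, rfl⟩
        · intro hx
          obtain ⟨y, _, rfl⟩ := Finset.mem_map.1 hx
          exact Finset.mem_erase.2 ⟨Fin.succ_ne_zero y, Finset.mem_univ _⟩
      have h7 : ∀ l : Fin K, (Finset.univ : Finset (Fin (K + 1))).erase l.succ
          = insert 0 ((Finset.univ.erase l).map (Fin.succEmb K)) := by
        intro l
        ext x
        constructor
        · intro hx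
          have hx' := (Finset.mem_erase.1 hx).1
          by_cases h0 : x = 0
          · rw [h0]; exact Finset.mem_insert_self _ _
          · obtain ⟨y, rfl⟩ := Fin.exists_succ_eq.2 h0
            refine Finset.mem_insert_of_mem (Finset.mem_map.2 ⟨y, ?_, rfl⟩)
            refine Finset.mem_erase.2 ⟨fun h => hx' (by rw [h]), Finset.mem_univ _⟩
        · intro hx
          rcases Finset.mem_insert.1 hx with h0 | h0
          · rw [h0]
            exact Finset.mem_erase.2 ⟨(Fin.succ_ne_zero l).symm, Finset.mem_univ _⟩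
          · obtain ⟨y, hy, rfl⟩ := Finset.mem_map.1 h0
            refine Finset.mem_erase.2 ⟨fun h => (Finset.mem_erase.1 hy).1 ?_,
              Finset.mem_univ _⟩
            exact Fin.succ_injective _ h
      rw [h6, Finset.prod_map]
      have h8 : ∀ l : Fin K, ∏ l' ∈ (Finset.univ : Finset (Fin (K + 1))).erase l.succ, h l' 0 s
          = h 0 0 s * ∏ l' ∈ (Finset.univ : Finset (Fin K)).erase l, h l'.succ 0 s := by
        intro l
        rw [h7 l, Finset.prod_insert, Finset.prod_map]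
        · rfl
        · intro hx
          obtain ⟨y, _, hy⟩ := Finset.mem_map.1 hx
          exact Fin.succ_ne_zero y hy
      have h9 : ∑ i : Fin K, h i.succ 1 s * ∏ l' ∈ Finset.univ.erase i.succ, h l' 0 s
          = h 0 0 s * ∑ l : Fin K, h l.succ 1 s
            * ∏ l' ∈ Finset.univ.erase l, h l'.succ 0 s := by
        rw [Finset.mul_sum]
        refine Finset.sum_congr rfl fun l _ => ?_
        rw [h8 l]; ring
      rw [h9]
      have h10 : ∏ x : Fin K, h ((Fin.succEmb K) x) 0 s = ∏ l : Fin K, h l.succ 0 s := rfl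
      rw [h10]
      ring

end Pool.Agent.ZR

end

section

/-!
# ZR/JProd : products of `k` random variables which are close in `L^{2k}`

`prod_diff`.  `k = 0`: the first statement is void, the second is `|1 - 1| ≤ 0`.  Let `k ≥ 1`, and
`‖f‖ = (∫ |f|^(2k))^(1/2k)` the norm of `L^{2k}(μ)` (all functions are bounded and measurable).
Minkowski (`eLpNorm_add_le`, or `ENNReal.lintegral_Lp_add_le`): `‖Y' j‖ ≤ ‖Y j‖ + ‖Y' j - Y j‖ ≤ M + d`.
Telescoping: `∏ Y' - ∏ Y = ∑_j (∏_{i<j} Y i)(Y' j - Y j)(∏_{i>j} Y' i)` (`Finset.prod_sub_ordered`-type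
identity or induction on `k`).  Each of the `k` terms is a product of `k` functions; by Hölder
(`ENNReal.lintegral_prod_norm_pow_le` with exponents `1/k`) and `(∫|f|^k)^(1/k) ≤ ‖f‖` (the measure
is a probability; `2k ≥ k`) its integral is at most `d (M + d)^(k-1)` in absolute value.
(Alternative to Hölder: AM-GM, `∏ (|f_i|/m_i) ≤ (1/k) ∑ (|f_i|/m_i)^k` for positive `m_i`; replace
`M, d` by `M + ε, d + ε` and let `ε → 0`.)

`moment_split`: `∫ Δ^(2k) ≤ ∫_{G} B1^(2k) + ∫_{Gᶜ} B2^(2k) ≤ B1^(2k) + ε B2^(2k)`.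
`mean_split`: the same for the first moment.
-/


open MeasureTheory ProbabilityTheory Matrix

namespace Pool.Agent.ZR

private theorem JP_int {Ω : Type*} [MeasurableSpace Ω] (μ : Measure Ω) [IsProbabilityMeasure μ]
    (f : Ω → ℝ) (hf : Measurable f) (C : ℝ) (h : ∀ ω, |f ω| ≤ C) : Integrable f μ :=
  Integrable.of_bound hf.aestronglyMeasurable C (Filter.Eventually.of_forall h)

private theorem JP_pow_bd {x C : ℝ} (h : |x| ≤ C) (m : ℕ) : |x ^ m| ≤ C ^ m := by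
  rw [abs_pow]
  exact pow_le_pow_left₀ (abs_nonneg _) h m

private theorem JP_pow_int {Ω : Type*} [MeasurableSpace Ω] (μ : Measure Ω)
    [IsProbabilityMeasure μ] (f : Ω → ℝ) (hf : Measurable f) (C : ℝ) (h : ∀ ω, |f ω| ≤ C) (m : ℕ) :
    Integrable (fun ω => f ω ^ m) μ :=
  JP_int μ _ (hf.pow_const m) (C ^ m) (fun ω => JP_pow_bd (h ω) m)

private theorem integral_const_add_JP {Ω : Type*} [MeasurableSpace Ω] (μ : Measure Ω)
    [IsProbabilityMeasure μ] (f : Ω → ℝ) (hf : Integrable f μ) :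
    ∫ ω, (1 + f ω) ∂μ = 1 + ∫ ω, f ω ∂μ := by
  rw [integral_add (integrable_const 1) hf]
  simp

/-- Hölder for `k` functions, through the inequality between the means -/
private theorem JP_holder {Ω : Type*} [MeasurableSpace Ω] (μ : Measure Ω) [IsProbabilityMeasure μ]
    (k : ℕ) (hk : k ≠ 0) (f : Fin k → Ω → ℝ) (hf : ∀ j, Measurable (f j)) (C : ℝ)
    (hb : ∀ j ω, |f j ω| ≤ C) (m : Fin k → ℝ) (hm : ∀ j, 0 < m j)
    (h : ∀ j, ∫ ω, (f j ω) ^ (2 * k) ∂μ ≤ (m j) ^ (2 * k)) :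
    ∫ ω, ∏ j, |f j ω| ∂μ ≤ ∏ j, m j := by
  have hk0 : (0 : ℝ) < k := by
    have : 0 < k := Nat.pos_of_ne_zero hk
    exact_mod_cast this
  have hC : ∀ j : Fin k, ∀ ω : Ω, 0 ≤ C := fun j ω => (abs_nonneg _).trans (hb j ω)
  have hpm : 0 < ∏ j, m j := Finset.prod_pos fun j _ => hm j
  have hpt : ∀ ω, ∏ j, |f j ω| ≤ (∏ j, m j) *
      ∑ j, (1 / (k : ℝ)) * ((1 + (f j ω) ^ (2 * k) / (m j) ^ (2 * k)) / 2) := by
    intro ω
    have e1 : ∏ j, |f j ω| = (∏ j, m j) * ∏ j, (|f j ω| / m j) := by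
      rw [← Finset.prod_mul_distrib]
      refine Finset.prod_congr rfl fun j _ => ?_
      have := (hm j).ne'
      field_simp
    rw [e1]
    refine mul_le_mul_of_nonneg_left ?_ hpm.le
    have h1 := Real.geom_mean_le_arith_mean_weighted (Finset.univ : Finset (Fin k))
      (fun _ => ((k : ℝ))⁻¹) (fun j => (|f j ω| / m j) ^ k) (fun _ _ => by positivity)
      (by
        rw [Finset.sum_const, Finset.card_univ, Fintype.card_fin, nsmul_eq_mul]
        exact mul_inv_cancel₀ hk0.ne')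
      (fun j _ => by have := hm j; positivity)
    have h2 : ∀ j : Fin k, ((|f j ω| / m j) ^ k) ^ ((k : ℝ))⁻¹ = |f j ω| / m j := by
      intro j
      have := hm j
      exact Real.pow_rpow_inv_natCast (by positivity) hk
    have h3 : ∏ j : Fin k, ((|f j ω| / m j) ^ k) ^ ((k : ℝ))⁻¹ = ∏ j, (|f j ω| / m j) :=
      Finset.prod_congr rfl fun j _ => h2 j
    rw [h3] at h1
    refine h1.trans (Finset.sum_le_sum fun j _ => ?_)
    rw [one_div]
    refine mul_le_mul_of_nonneg_left ?_ (by positivity)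
    have h4 : (f j ω) ^ (2 * k) / (m j) ^ (2 * k) = ((|f j ω| / m j) ^ k) ^ 2 := by
      rw [← pow_mul, mul_comm k 2, div_pow]
      congr 1
      rw [pow_mul, pow_mul, sq_abs]
    rw [h4]
    nlinarith [sq_nonneg ((|f j ω| / m j) ^ k - 1)]
  have hi2 : ∀ j, Integrable (fun ω => (f j ω) ^ (2 * k)) μ := fun j =>
    JP_pow_int μ _ (hf j) C (hb j) (2 * k)
  have hi3 : ∀ j ∈ (Finset.univ : Finset (Fin k)), Integrable
      (fun ω => (1 / (k : ℝ)) * ((1 + (f j ω) ^ (2 * k) / (m j) ^ (2 * k)) / 2)) μ := by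
    intro j _
    exact ((((integrable_const (1 : ℝ)).add ((hi2 j).div_const _)).div_const 2).const_mul _)
  have hi4 : Integrable (fun ω => (∏ j, m j) *
      ∑ j, (1 / (k : ℝ)) * ((1 + (f j ω) ^ (2 * k) / (m j) ^ (2 * k)) / 2)) μ :=
    (integrable_finsetSum _ hi3).const_mul _
  have hi1 : Integrable (fun ω => ∏ j, |f j ω|) μ := by
    refine JP_int μ _ ?_ (C ^ k) ?_
    · exact Finset.measurable_fun_prod _ fun j _ => (hf j).abs
    · intro ω
      rw [Finset.abs_prod]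
      calc ∏ j, |(|f j ω|)| ≤ ∏ _j : Fin k, C :=
            Finset.prod_le_prod (fun j _ => abs_nonneg _) fun j _ => by
              rw [abs_abs]
              exact hb j ω
        _ = C ^ k := by simp
  refine (integral_mono hi1 hi4 hpt).trans ?_
  rw [integral_const_mul, integral_finsetSum _ hi3]
  have h5 : ∀ j ∈ (Finset.univ : Finset (Fin k)),
      ∫ ω, (1 / (k : ℝ)) * ((1 + (f j ω) ^ (2 * k) / (m j) ^ (2 * k)) / 2) ∂μ ≤ 1 / (k : ℝ) := by
    intro j _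
    rw [integral_const_mul, integral_div, integral_const_add_JP μ _ ((hi2 j).div_const _),
      integral_div]
    have h6 : (∫ ω, (f j ω) ^ (2 * k) ∂μ) / (m j) ^ (2 * k) ≤ 1 := by
      rw [div_le_one (pow_pos (hm j) _)]
      exact h j
    have h7 : (1 + (∫ ω, (f j ω) ^ (2 * k) ∂μ) / (m j) ^ (2 * k)) / 2 ≤ 1 := by linarith
    calc 1 / (k : ℝ) * ((1 + (∫ ω, (f j ω) ^ (2 * k) ∂μ) / (m j) ^ (2 * k)) / 2)
        ≤ 1 / (k : ℝ) * 1 := mul_le_mul_of_nonneg_left h7 (by positivity)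
      _ = 1 / (k : ℝ) := mul_one _
  calc (∏ j, m j) * ∑ j, ∫ ω, (1 / (k : ℝ)) * ((1 + (f j ω) ^ (2 * k) / (m j) ^ (2 * k)) / 2) ∂μ
      ≤ (∏ j, m j) * ∑ _j : Fin k, 1 / (k : ℝ) :=
        mul_le_mul_of_nonneg_left (Finset.sum_le_sum h5) hpm.le
    _ = ∏ j, m j := by
        rw [Finset.sum_const, Finset.card_univ, Fintype.card_fin, nsmul_eq_mul]
        field_simp

/-- Minkowski by convexity -/
private theorem JP_mink {Ω : Type*} [MeasurableSpace Ω] (μ : Measure Ω) [IsProbabilityMeasure μ]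
    (k : ℕ) (f g : Ω → ℝ) (hf : Measurable f) (hg : Measurable g) (C : ℝ)
    (hbf : ∀ ω, |f ω| ≤ C) (hbg : ∀ ω, |g ω| ≤ C) (M d : ℝ) (hM : 0 < M) (hd : 0 < d)
    (h1 : ∫ ω, (f ω) ^ (2 * k) ∂μ ≤ M ^ (2 * k))
    (h2 : ∫ ω, (g ω) ^ (2 * k) ∂μ ≤ d ^ (2 * k)) :
    ∫ ω, (f ω + g ω) ^ (2 * k) ∂μ ≤ (M + d) ^ (2 * k) := by
  have hs : 0 < M + d := by linarith
  have hpt : ∀ ω, (f ω + g ω) ^ (2 * k) ≤ (M + d) ^ (2 * k) *
      (M / (M + d) * ((f ω) ^ (2 * k) / M ^ (2 * k)) +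
        d / (M + d) * ((g ω) ^ (2 * k) / d ^ (2 * k))) := by
    intro ω
    have hc := (even_two_mul k).convexOn_pow (𝕜 := ℝ)
    have h3 := hc.2 (Set.mem_univ (f ω / M)) (Set.mem_univ (g ω / d))
      (show (0 : ℝ) ≤ M / (M + d) by positivity) (show (0 : ℝ) ≤ d / (M + d) by positivity)
      (by field_simp)
    simp only [smul_eq_mul] at h3
    have e1 : f ω + g ω = (M + d) * (M / (M + d) * (f ω / M) + d / (M + d) * (g ω / d)) := by
      field_simp
    rw [e1, mul_pow]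
    refine mul_le_mul_of_nonneg_left ?_ (by positivity)
    rw [← div_pow, ← div_pow]
    exact h3
  have hif : Integrable (fun ω => (f ω) ^ (2 * k)) μ := JP_pow_int μ _ hf C hbf (2 * k)
  have hig : Integrable (fun ω => (g ω) ^ (2 * k)) μ := JP_pow_int μ _ hg C hbg (2 * k)
  have hi0 : Integrable (fun ω => (f ω + g ω) ^ (2 * k)) μ :=
    JP_pow_int μ _ (hf.add hg) (C + C) (fun ω => (abs_add_le _ _).trans
      (add_le_add (hbf ω) (hbg ω))) (2 * k)
  have hi1 := (hif.div_const (M ^ (2 * k))).const_mul (M / (M + d))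
  have hi2 := (hig.div_const (d ^ (2 * k))).const_mul (d / (M + d))
  have hi12 : Integrable (fun ω => M / (M + d) * ((f ω) ^ (2 * k) / M ^ (2 * k)) +
        d / (M + d) * ((g ω) ^ (2 * k) / d ^ (2 * k))) μ := hi1.add hi2
  refine (integral_mono hi0 (hi12.const_mul _) hpt).trans ?_
  rw [integral_const_mul]
  have e2 : ∫ ω, (M / (M + d) * ((f ω) ^ (2 * k) / M ^ (2 * k)) +
        d / (M + d) * ((g ω) ^ (2 * k) / d ^ (2 * k))) ∂μ
      = M / (M + d) * ((∫ ω, (f ω) ^ (2 * k) ∂μ) / M ^ (2 * k)) +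
        d / (M + d) * ((∫ ω, (g ω) ^ (2 * k) ∂μ) / d ^ (2 * k)) := by
    rw [integral_add hi1 hi2, integral_const_mul, integral_const_mul, integral_div, integral_div]
  rw [e2]
  have h4 : (∫ ω, (f ω) ^ (2 * k) ∂μ) / M ^ (2 * k) ≤ 1 := by
    rw [div_le_one (by positivity)]
    exact h1
  have h5 : (∫ ω, (g ω) ^ (2 * k) ∂μ) / d ^ (2 * k) ≤ 1 := by
    rw [div_le_one (by positivity)]
    exact h2
  have h6 : M / (M + d) * ((∫ ω, (f ω) ^ (2 * k) ∂μ) / M ^ (2 * k)) +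
        d / (M + d) * ((∫ ω, (g ω) ^ (2 * k) ∂μ) / d ^ (2 * k))
      ≤ M / (M + d) * 1 + d / (M + d) * 1 :=
    add_le_add (mul_le_mul_of_nonneg_left h4 (by positivity))
      (mul_le_mul_of_nonneg_left h5 (by positivity))
  have h7 : M / (M + d) * 1 + d / (M + d) * 1 = 1 := by field_simp
  rw [h7] at h6
  calc _ ≤ (M + d) ^ (2 * k) * 1 := mul_le_mul_of_nonneg_left h6 (by positivity)
    _ = _ := mul_one _

private theorem JP_split {k : ℕ} (h : Fin k → ℝ) (i : Fin k) :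
    ∏ j, h j = h i * (∏ j with j < i, h j) * ∏ j with i < j, h j := by
  rw [← Finset.prod_filter_mul_prod_filter_not Finset.univ (fun j => j < i)]
  have e : (Finset.univ.filter fun j : Fin k => ¬ j < i)
      = insert i (Finset.univ.filter fun j : Fin k => i < j) := by
    ext j
    simp only [Finset.mem_filter, Finset.mem_univ, true_and, Finset.mem_insert, not_lt]
    rw [le_iff_eq_or_lt]
    exact or_congr_left eq_comm
  rw [e, Finset.prod_insert (by simp)]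
  ring

private theorem JP_pos {Ω : Type*} [MeasurableSpace Ω] (μ : Measure Ω) [IsProbabilityMeasure μ]
    (k : ℕ) (Y Y' : Fin k → Ω → ℝ) (hY : ∀ j, Measurable (Y j)) (hY' : ∀ j, Measurable (Y' j))
    (B : ℝ) (hb : ∀ j ω, |Y j ω| ≤ B) (hb' : ∀ j ω, |Y' j ω| ≤ B) (M d : ℝ) (hM : 0 < M)
    (hd : 0 < d) (h1 : ∀ j, ∫ ω, (Y j ω) ^ (2 * k) ∂μ ≤ M ^ (2 * k))
    (h2 : ∀ j, ∫ ω, (Y' j ω - Y j ω) ^ (2 * k) ∂μ ≤ d ^ (2 * k)) :
    (∀ j, ∫ ω, (Y' j ω) ^ (2 * k) ∂μ ≤ (M + d) ^ (2 * k)) ∧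
      |∫ ω, ∏ j, Y' j ω ∂μ - ∫ ω, ∏ j, Y j ω ∂μ| ≤ k * d * (M + d) ^ (k - 1) := by
  have hB' : ∀ j ω, |Y' j ω - Y j ω| ≤ B + B := fun j ω =>
    (abs_sub _ _).trans (add_le_add (hb' j ω) (hb j ω))
  have hBB : ∀ j ω, |Y j ω| ≤ B + B := fun j ω => by
    have := (abs_nonneg _).trans (hb j ω)
    exact (hb j ω).trans (by linarith)
  have hBB' : ∀ j ω, |Y' j ω| ≤ B + B := fun j ω => by
    have := (abs_nonneg _).trans (hb' j ω)
    exact (hb' j ω).trans (by linarith)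
  have hA : ∀ j, ∫ ω, (Y' j ω) ^ (2 * k) ∂μ ≤ (M + d) ^ (2 * k) := by
    intro j
    have := JP_mink μ k (Y j) (fun ω => Y' j ω - Y j ω) (hY j) ((hY' j).sub (hY j)) (B + B)
      (hBB j) (hB' j) M d hM hd (h1 j) (h2 j)
    simpa using this
  refine ⟨hA, ?_⟩
  rcases Nat.eq_zero_or_pos k with hk | hk
  · subst hk
    simp
  have hs : 0 < M + d := by linarith
  have hA0 : ∀ j, ∫ ω, (Y j ω) ^ (2 * k) ∂μ ≤ (M + d) ^ (2 * k) := fun j =>
    (h1 j).trans (pow_le_pow_left₀ hM.le (by linarith) _)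
  -- the terms of the telescoping sum
  set f : Fin k → Fin k → Ω → ℝ := fun i j ω =>
    if j < i then Y j ω else if j = i then Y' j ω - Y j ω else Y' j ω with hf
  have hfm : ∀ i j, Measurable (f i j) := by
    intro i j
    rcases lt_trichotomy j i with h | h | h
    · have : f i j = Y j := by
        funext ω
        simp [hf, h]
      rw [this]
      exact hY j
    · have : f i j = fun ω => Y' j ω - Y j ω := by
        funext ω
        simp [hf, h]
      rw [this]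
      exact (hY' j).sub (hY j)
    · have : f i j = Y' j := by
        funext ω
        simp [hf, h.not_gt, h.ne']
      rw [this]
      exact hY' j
  have hfb : ∀ i j ω, |f i j ω| ≤ B + B := by
    intro i j ω
    simp only [hf]
    split_ifs
    · exact hBB j ω
    · exact hB' j ω
    · exact hBB' j ω
  set m : Fin k → Fin k → ℝ := fun i j => if j = i then d else M + d with hmdef
  have hmpos : ∀ i j, 0 < m i j := by
    intro i j
    simp only [hmdef]
    split_ifs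
    · exact hd
    · exact hs
  have hmom : ∀ i j, ∫ ω, (f i j ω) ^ (2 * k) ∂μ ≤ (m i j) ^ (2 * k) := by
    intro i j
    rcases lt_trichotomy j i with h | h | h
    · have e : f i j = Y j := by
        funext ω
        simp [hf, h]
      have e' : m i j = M + d := by simp [hmdef, h.ne]
      rw [e, e']
      exact hA0 j
    · have e : f i j = fun ω => Y' j ω - Y j ω := by
        funext ω
        simp [hf, h]
      have e' : m i j = d := by simp [hmdef, h]
      rw [e, e']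
      exact h2 j
    · have e : f i j = Y' j := by
        funext ω
        simp [hf, h.not_gt, h.ne']
      have e' : m i j = M + d := by simp [hmdef, h.ne']
      rw [e, e']
      exact hA j
  have hprod : ∀ i, ∏ j, m i j = d * (M + d) ^ (k - 1) := by
    intro i
    rw [← Finset.mul_prod_erase Finset.univ (m i) (Finset.mem_univ i)]
    have e1 : m i i = d := by simp [hmdef]
    have e2 : ∏ j ∈ Finset.univ.erase i, m i j = ∏ _j ∈ Finset.univ.erase i, (M + d) := by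
      refine Finset.prod_congr rfl fun j hj => ?_
      have := Finset.ne_of_mem_erase hj
      simp [hmdef, this]
    rw [e1, e2, Finset.prod_const, Finset.card_erase_of_mem (Finset.mem_univ i),
      Finset.card_univ, Fintype.card_fin]
  have htel : ∀ ω, ∏ j, Y' j ω - ∏ j, Y j ω = ∑ i, ∏ j, f i j ω := by
    intro ω
    have h3 := Finset.prod_sub_ordered (Finset.univ : Finset (Fin k)) (fun j => Y' j ω)
      (fun j => Y' j ω - Y j ω)
    simp only [sub_sub_cancel] at h3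
    rw [h3, sub_sub_cancel]
    refine Finset.sum_congr rfl fun i _ => ?_
    rw [JP_split (fun j => f i j ω) i]
    have e1 : f i i ω = Y' i ω - Y i ω := by simp [hf]
    have e2 : ∏ j with j < i, f i j ω = ∏ j with j < i, Y j ω := by
      refine Finset.prod_congr rfl fun j hj => ?_
      have := (Finset.mem_filter.1 hj).2
      simp [hf, this]
    have e3 : ∏ j with i < j, f i j ω = ∏ j with i < j, Y' j ω := by
      refine Finset.prod_congr rfl fun j hj => ?_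
      have h := (Finset.mem_filter.1 hj).2
      simp [hf, h.not_gt, h.ne']
    rw [e1, e2, e3]
  have hpb : ∀ (F : Fin k → Ω → ℝ), (∀ j, Measurable (F j)) → (∀ j ω, |F j ω| ≤ B + B) →
      Integrable (fun ω => ∏ j, F j ω) μ := by
    intro F hF hFb
    refine JP_int μ _ (Finset.measurable_fun_prod _ fun j _ => hF j) ((B + B) ^ k) ?_
    intro ω
    rw [Finset.abs_prod]
    calc ∏ j, |F j ω| ≤ ∏ _j : Fin k, (B + B) :=
          Finset.prod_le_prod (fun j _ => abs_nonneg _) fun j _ => hFb j ω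
      _ = (B + B) ^ k := by simp
  rw [← integral_sub (hpb Y' hY' hBB') (hpb Y hY hBB)]
  have e4 : ∫ ω, (∏ j, Y' j ω - ∏ j, Y j ω) ∂μ = ∑ i, ∫ ω, ∏ j, f i j ω ∂μ := by
    rw [← integral_finsetSum _ fun i _ => hpb (f i) (hfm i) (hfb i)]
    exact integral_congr_ae (Filter.Eventually.of_forall htel)
  rw [e4]
  calc |∑ i, ∫ ω, ∏ j, f i j ω ∂μ| ≤ ∑ i, |∫ ω, ∏ j, f i j ω ∂μ| :=
        Finset.abs_sum_le_sum_abs _ _
    _ ≤ ∑ _i : Fin k, d * (M + d) ^ (k - 1) := by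
        refine Finset.sum_le_sum fun i _ => ?_
        have h3 := JP_holder μ k hk.ne' (f i) (hfm i) (B + B) (hfb i) (m i) (hmpos i) (hmom i)
        rw [hprod i] at h3
        refine le_trans ?_ h3
        have h4 := norm_integral_le_integral_norm (μ := μ) (fun ω => ∏ j, f i j ω)
        simp only [Real.norm_eq_abs, Finset.abs_prod] at h4
        exact h4
    _ = k * d * (M + d) ^ (k - 1) := by
        rw [Finset.sum_const, Finset.card_univ, Fintype.card_fin, nsmul_eq_mul]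
        ring

private theorem JP_ind {Ω : Type*} [MeasurableSpace Ω] (μ : Measure Ω) [IsProbabilityMeasure μ]
    (Δ : Ω → ℝ) (hΔ : Measurable Δ) (G : Set Ω) (B1 ε a b : ℝ) (h1 : ∀ ω ∈ G, |Δ ω| ≤ B1)
    (hG : μ.real Gᶜ ≤ ε) (hb : 0 ≤ b) (F : Ω → ℝ) (hF : Integrable F μ)
    (hF1 : ∀ ω, |Δ ω| ≤ B1 → F ω ≤ a) (hF2 : ∀ ω, F ω ≤ a + b) :
    ∫ ω, F ω ∂μ ≤ a + b * ε := by
  set A : Set Ω := {ω | B1 < |Δ ω|} with hA
  have hAm : MeasurableSet A := measurableSet_lt measurable_const hΔ.abs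
  have hsub : A ⊆ Gᶜ := by
    intro ω hω hωG
    exact absurd (h1 ω hωG) (not_le.mpr hω)
  have hAe : μ.real A ≤ ε := (measureReal_mono hsub).trans hG
  have hi : Integrable (fun ω => a + A.indicator (fun _ => b) ω) μ :=
    (integrable_const a).add ((integrable_const b).indicator hAm)
  have hpt : ∀ ω, F ω ≤ a + A.indicator (fun _ => b) ω := by
    intro ω
    by_cases hω : ω ∈ A
    · rw [Set.indicator_of_mem hω]
      exact hF2 ω
    · rw [Set.indicator_of_notMem hω, add_zero]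
      exact hF1 ω (not_lt.mp hω)
  refine (integral_mono hF hi hpt).trans ?_
  rw [integral_add (integrable_const a) ((integrable_const b).indicator hAm), integral_const,
    integral_indicator_const b hAm]
  simp only [smul_eq_mul, probReal_univ, one_mul]
  nlinarith

theorem prod_diff {Ω : Type*} [MeasurableSpace Ω] (μ : Measure Ω) [IsProbabilityMeasure μ] (k : ℕ)
    (Y Y' : Fin k → Ω → ℝ) (hY : ∀ j, Measurable (Y j)) (hY' : ∀ j, Measurable (Y' j)) (B : ℝ)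
    (hb : ∀ j ω, |Y j ω| ≤ B) (hb' : ∀ j ω, |Y' j ω| ≤ B) (M d : ℝ) (hM : 0 ≤ M) (hd : 0 ≤ d)
    (h1 : ∀ j, ∫ ω, (Y j ω) ^ (2 * k) ∂μ ≤ M ^ (2 * k))
    (h2 : ∀ j, ∫ ω, (Y' j ω - Y j ω) ^ (2 * k) ∂μ ≤ d ^ (2 * k)) :
    (∀ j, ∫ ω, (Y' j ω) ^ (2 * k) ∂μ ≤ (M + d) ^ (2 * k)) ∧
      |∫ ω, ∏ j, Y' j ω ∂μ - ∫ ω, ∏ j, Y j ω ∂μ| ≤ k * d * (M + d) ^ (k - 1) := by
  have hε : ∀ ε : ℝ, 0 < ε → (∀ j, ∫ ω, (Y' j ω) ^ (2 * k) ∂μ ≤ ((M + ε) + (d + ε)) ^ (2 * k)) ∧
      |∫ ω, ∏ j, Y' j ω ∂μ - ∫ ω, ∏ j, Y j ω ∂μ| ≤ k * (d + ε) * ((M + ε) + (d + ε)) ^ (k - 1) := by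
    intro ε hε
    exact JP_pos μ k Y Y' hY hY' B hb hb' (M + ε) (d + ε) (by linarith) (by linarith)
      (fun j => (h1 j).trans (pow_le_pow_left₀ hM (by linarith) _))
      (fun j => (h2 j).trans (pow_le_pow_left₀ hd (by linarith) _))
  have hlim1 : Filter.Tendsto (fun ε : ℝ => ((M + ε) + (d + ε)) ^ (2 * k)) (nhdsWithin 0 (Set.Ioi 0))
      (nhds ((M + d) ^ (2 * k))) := by
    have hc : Continuous (fun ε : ℝ => ((M + ε) + (d + ε)) ^ (2 * k)) := by fun_prop
    have := (hc.tendsto 0).mono_left (nhdsWithin_le_nhds (s := Set.Ioi (0 : ℝ)))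
    simpa using this
  have hlim2 : Filter.Tendsto (fun ε : ℝ => (k : ℝ) * (d + ε) * ((M + ε) + (d + ε)) ^ (k - 1))
      (nhdsWithin 0 (Set.Ioi 0)) (nhds ((k : ℝ) * d * (M + d) ^ (k - 1))) := by
    have hc : Continuous (fun ε : ℝ => (k : ℝ) * (d + ε) * ((M + ε) + (d + ε)) ^ (k - 1)) := by
      fun_prop
    have := (hc.tendsto 0).mono_left (nhdsWithin_le_nhds (s := Set.Ioi (0 : ℝ)))
    simpa using this
  refine ⟨fun j => ?_, ?_⟩
  · refine ge_of_tendsto hlim1 ?_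
    filter_upwards [self_mem_nhdsWithin] with ε h
    exact (hε ε h).1 j
  · refine ge_of_tendsto hlim2 ?_
    filter_upwards [self_mem_nhdsWithin] with ε h
    exact (hε ε h).2

theorem moment_split {Ω : Type*} [MeasurableSpace Ω] (μ : Measure Ω) [IsProbabilityMeasure μ]
    (k : ℕ) (Δ : Ω → ℝ) (hΔ : Measurable Δ) (G : Set Ω) (B1 B2 ε : ℝ) (hB1 : 0 ≤ B1)
    (hB2 : 0 ≤ B2) (h1 : ∀ ω ∈ G, |Δ ω| ≤ B1) (h2 : ∀ ω, |Δ ω| ≤ B2) (hG : μ.real Gᶜ ≤ ε) :
    ∫ ω, (Δ ω) ^ (2 * k) ∂μ ≤ B1 ^ (2 * k) + B2 ^ (2 * k) * ε := by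
  refine (JP_ind μ Δ hΔ G B1 ε (B1 ^ (2 * k)) (B2 ^ (2 * k)) h1 hG (by positivity)
    (fun ω => (Δ ω) ^ (2 * k)) (JP_pow_int μ _ hΔ B2 h2 (2 * k)) ?_ ?_)
  · intro ω h
    exact (le_abs_self _).trans (JP_pow_bd h (2 * k))
  · intro ω
    have := (le_abs_self _).trans (JP_pow_bd (h2 ω) (2 * k))
    have h3 : 0 ≤ B1 ^ (2 * k) := by positivity
    linarith

theorem mean_split {Ω : Type*} [MeasurableSpace Ω] (μ : Measure Ω) [IsProbabilityMeasure μ]
    (Δ : Ω → ℝ) (hΔ : Measurable Δ) (G : Set Ω) (B1 B2 ε : ℝ) (hB1 : 0 ≤ B1)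
    (hB2 : 0 ≤ B2) (h1 : ∀ ω ∈ G, |Δ ω| ≤ B1) (h2 : ∀ ω, |Δ ω| ≤ B2) (hG : μ.real Gᶜ ≤ ε) :
    ∫ ω, |Δ ω| ∂μ ≤ B1 + B2 * ε := by
  refine (JP_ind μ Δ hΔ G B1 ε B1 B2 h1 hG hB2
    (fun ω => |Δ ω|) (JP_int μ _ hΔ.abs B2 (fun ω => by rw [abs_abs]; exact h2 ω)) ?_ ?_)
  · intro ω h
    exact h
  · intro ω
    have := h2 ω
    linarith

end Pool.Agent.ZR

end
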