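import Pool.Agent.ZRM.P01
import Pool.Agent.ZRM.P02

/-!
# Merged form of the modules ZR.ISc
-/

set_option autoImplicit false

section

/-!
# ZR, part I (helper58): the semicircle law, arctan kernels
-/


open MeasureTheory ProbabilityTheory

namespace Pool.Agent.ZR.I

lemma inv_sub (y x u : ℝ) (hu : 0 < u) :
    (1 : ℂ) / ((y : ℂ) - (⟨x, u⟩ : ℂ)) =
      ⟨(y - x) / ((y - x) ^ 2 + u ^ 2), u / ((y - x) ^ 2 + u ^ 2)⟩ := by
  have h : (y - x) ^ 2 + u ^ 2 ≠ 0 := by positivity
  have hne : ((y : ℂ) - (⟨x, u⟩ : ℂ)) ≠ 0 := by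
    intro h0
    have := congrArg Complex.im h0
    simp at this
    exact hu.ne' this
  rw [div_eq_iff hne]
  apply Complex.ext
  · simp only [Complex.one_re, Complex.mul_re, Complex.sub_re, Complex.ofReal_re, Complex.sub_im,
      Complex.ofReal_im]
    field_simp
    ring
  · simp only [Complex.one_im, Complex.mul_im, Complex.sub_re, Complex.ofReal_re, Complex.sub_im,
      Complex.ofReal_im]
    field_simp
    ring

lemma rho_div (y x u : ℝ) (hu : 0 < u) :
    (rho y : ℂ) / ((y : ℂ) - (⟨x, u⟩ : ℂ)) =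
      ⟨rho y * ((y - x) / ((y - x) ^ 2 + u ^ 2)), rho y * (u / ((y - x) ^ 2 + u ^ 2))⟩ := by
  rw [div_eq_mul_one_div, inv_sub y x u hu]
  apply Complex.ext
  · simp
  · simp

lemma cont_re (x u : ℝ) (hu : 0 < u) :
    Continuous (fun y => rho y * ((y - x) / ((y - x) ^ 2 + u ^ 2))) := by
  refine rho_continuous.mul (Continuous.div (by fun_prop) (by fun_prop) fun y => ?_)
  positivity

lemma cont_im (x u : ℝ) (hu : 0 < u) :
    Continuous (fun y => rho y * (u / ((y - x) ^ 2 + u ^ 2))) := by
  refine rho_continuous.mul (Continuous.div (by fun_prop) (by fun_prop) fun y => ?_)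
  positivity

lemma msc_split (x u : ℝ) (hu : 0 < u) :
    msc ⟨x, u⟩ = ⟨∫ y in (-2 : ℝ)..2, rho y * ((y - x) / ((y - x) ^ 2 + u ^ 2)),
      ∫ y in (-2 : ℝ)..2, rho y * (u / ((y - x) ^ 2 + u ^ 2))⟩ := by
  unfold msc
  have h1 : ∀ y : ℝ, (rho y : ℂ) / ((y : ℂ) - (⟨x, u⟩ : ℂ))
      = ((rho y * ((y - x) / ((y - x) ^ 2 + u ^ 2)) : ℝ) : ℂ)
        + ((rho y * (u / ((y - x) ^ 2 + u ^ 2)) : ℝ) : ℂ) * Complex.I := by
    intro y
    rw [rho_div y x u hu]
    apply Complex.ext
    · simp only [Complex.add_re, Complex.mul_re, Complex.ofReal_re, Complex.I_re, Complex.ofReal_im,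
        Complex.I_im]
      ring
    · simp only [Complex.add_im, Complex.mul_im, Complex.ofReal_re, Complex.I_re, Complex.ofReal_im,
        Complex.I_im]
      ring
  simp_rw [h1]
  rw [intervalIntegral.integral_add, intervalIntegral.integral_mul_const,
    intervalIntegral.integral_ofReal, intervalIntegral.integral_ofReal]
  · apply Complex.ext <;> simp
  · exact (Complex.continuous_ofReal.comp (cont_re x u hu)).intervalIntegrable _ _
  · exact ((Complex.continuous_ofReal.comp (cont_im x u hu)).mul continuous_const).intervalIntegrable _ _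

lemma msc_re (x u : ℝ) (hu : 0 < u) : (msc ⟨x, u⟩).re
    = ∫ y in (-2 : ℝ)..2, rho y * ((y - x) / ((y - x) ^ 2 + u ^ 2)) := by
  rw [msc_split x u hu]

lemma msc_im (x u : ℝ) (hu : 0 < u) : (msc ⟨x, u⟩).im
    = ∫ y in (-2 : ℝ)..2, rho y * (u / ((y - x) ^ 2 + u ^ 2)) := by
  rw [msc_split x u hu]

lemma msc_contOn (x η R : ℝ) (hη : 0 < η) : ContinuousOn (fun u : ℝ => msc ⟨x, u⟩) (Set.Icc η R) := by
  intro u hu
  have hu0 : 0 < u := lt_of_lt_of_le hη hu.1
  have h1 : ContinuousAt msc (⟨x, u⟩ : ℂ) :=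
    (msc_differentiableAt _ (by simpa using hu0.ne')).continuousAt
  have h2 : Continuous (fun u : ℝ => (⟨x, u⟩ : ℂ)) := by
    have : (fun u : ℝ => (⟨x, u⟩ : ℂ)) = fun u : ℝ => (x : ℂ) + (u : ℂ) * Complex.I := by
      funext u; apply Complex.ext <;> simp
    rw [this]; fun_prop
  exact (ContinuousAt.comp (f := fun u : ℝ => (⟨x, u⟩ : ℂ)) h1 h2.continuousAt).continuousWithinAt

/-- Fubini for a continuous kernel on a rectangle -/
lemma fub (F : ℝ → ℝ → ℝ) (a b c d : ℝ) (hab : a ≤ b) (hcd : c ≤ d)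
    (hF : ContinuousOn (Function.uncurry F) (Set.Icc a b ×ˢ Set.Icc c d)) :
    ∫ y in a..b, ∫ u in c..d, F y u = ∫ u in c..d, ∫ y in a..b, F y u := by
  simp only [intervalIntegral.integral_of_le hab, intervalIntegral.integral_of_le hcd]
  apply integral_integral_swap
  rw [Measure.prod_restrict]
  have h1 : IntegrableOn (Function.uncurry F) (Set.Icc a b ×ˢ Set.Icc c d)
      ((volume : Measure ℝ).prod volume) :=
    hF.integrableOn_compact (isCompact_Icc.prod isCompact_Icc)
  exact h1.mono_set (Set.prod_mono Set.Ioc_subset_Icc_self Set.Ioc_subset_Icc_self)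

/-- smoothed counting function of the semicircle law -/
noncomputable def aSC (x η : ℝ) : ℝ := ∫ y in (-2 : ℝ)..2, Real.arctan ((x - y) / η) * rho y

lemma aSC_diff (x : ℝ) {η R : ℝ} (hη : 0 < η) (hR : η ≤ R) :
    aSC x η = aSC x R - ∫ u in η..R, (msc ⟨x, u⟩).re := by
  have hRpos : 0 < R := lt_of_lt_of_le hη hR
  have h1 : ∫ u in η..R, (msc ⟨x, u⟩).re
      = ∫ u in η..R, ∫ y in (-2 : ℝ)..2, rho y * ((y - x) / ((y - x) ^ 2 + u ^ 2)) := by
    refine intervalIntegral.integral_congr fun u hu => ?_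
    rw [Set.uIcc_of_le hR] at hu
    exact msc_re x u (lt_of_lt_of_le hη hu.1)
  have hcont : ContinuousOn (Function.uncurry (fun y u : ℝ => rho y * ((y - x) / ((y - x) ^ 2 + u ^ 2))))
      (Set.Icc (-2) 2 ×ˢ Set.Icc η R) := by
    have h2 : ContinuousOn (fun p : ℝ × ℝ => rho p.1 * ((p.1 - x) / ((p.1 - x) ^ 2 + p.2 ^ 2)))
        (Set.Icc (-2) 2 ×ˢ Set.Icc η R) := by
      refine (rho_continuous.comp continuous_fst).continuousOn.mul
        (ContinuousOn.div (by fun_prop) (by fun_prop) fun p hp => ?_)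
      have : 0 < p.2 := lt_of_lt_of_le hη hp.2.1
      positivity
    exact h2
  rw [h1, ← fub _ (-2) 2 η R (by norm_num) hR hcont]
  have h3 : ∀ y : ℝ, ∫ u in η..R, rho y * ((y - x) / ((y - x) ^ 2 + u ^ 2))
      = rho y * (Real.arctan ((x - y) / R) - Real.arctan ((x - y) / η)) := by
    intro y
    rw [intervalIntegral.integral_const_mul, arctan_int (y - x) hη hR]
    have e : ∀ c : ℝ, (y - x) / c = -((x - y) / c) := fun c => by ring
    rw [e η, e R, Real.arctan_neg, Real.arctan_neg]
    ring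
  simp_rw [h3]
  unfold aSC
  rw [← intervalIntegral.integral_sub]
  · refine intervalIntegral.integral_congr fun y _ => ?_
    ring
  · refine Continuous.intervalIntegrable ?_ _ _
    exact (Real.continuous_arctan.comp (by fun_prop)).mul rho_continuous
  · refine Continuous.intervalIntegrable ?_ _ _
    exact rho_continuous.mul ((Real.continuous_arctan.comp (by fun_prop)).sub
      (Real.continuous_arctan.comp (by fun_prop)))

lemma aSC_bound {x : ℝ} (hx : |x| ≤ 2) {R : ℝ} (hR : 0 < R) : |aSC x R| ≤ 4 / R := by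
  unfold aSC
  have h1 : ∀ y ∈ Set.uIoc (-2 : ℝ) 2, ‖Real.arctan ((x - y) / R) * rho y‖ ≤ 4 / R * rho y := by
    intro y hy
    rw [Set.uIoc_of_le (by norm_num)] at hy
    rw [norm_mul, Real.norm_eq_abs, Real.norm_eq_abs, abs_of_nonneg (rho_nonneg y)]
    refine mul_le_mul_of_nonneg_right ((abs_arctan_le _).trans ?_) (rho_nonneg y)
    rw [abs_div, abs_of_pos hR]
    refine div_le_div_of_nonneg_right ?_ hR.le
    rw [abs_le] at hx ⊢
    constructor <;> linarith [hx.1, hx.2, hy.1, hy.2]
  have h2 := intervalIntegral.norm_integral_le_of_norm_le (a := (-2 : ℝ)) (b := 2) (by norm_num)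
    (μ := volume) (f := fun y => Real.arctan ((x - y) / R) * rho y)
    (g := fun y => 4 / R * rho y) (Filter.Eventually.of_forall fun y hy => h1 y (by
      rw [Set.uIoc_of_le (by norm_num)]; exact hy)) ((rho_continuous.const_mul _).intervalIntegrable _ _)
  rw [intervalIntegral.integral_const_mul, rho_int, mul_one] at h2
  exact h2

lemma Fsc_eq {x : ℝ} (hx : |x| ≤ 2) : Fsc x = ∫ y in (-2 : ℝ)..x, rho y := by
  unfold Fsc
  rw [abs_le] at hx
  rw [min_eq_left hx.2, max_eq_right hx.1]

lemma sgn_int {x : ℝ} (hx : |x| ≤ 2) :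
    ∫ y in (-2 : ℝ)..2, Real.pi / 2 * (if 0 ≤ x - y then (1 : ℝ) else -1) * rho y
      = Real.pi * Fsc x - Real.pi / 2 := by
  have hx' := abs_le.mp hx
  have hi : ∀ a b : ℝ, IntervalIntegrable rho volume a b := fun a b =>
    rho_continuous.intervalIntegrable _ _
  have hmeas : Measurable (fun y : ℝ => Real.pi / 2 * (if 0 ≤ x - y then (1 : ℝ) else -1) * rho y) := by
    refine Measurable.mul (Measurable.const_mul (Measurable.ite ?_ measurable_const measurable_const) _)
      rho_continuous.measurable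
    exact measurableSet_le measurable_const (measurable_const.sub measurable_id)
  have hi2 : ∀ a b : ℝ, IntervalIntegrable
      (fun y : ℝ => Real.pi / 2 * (if 0 ≤ x - y then (1 : ℝ) else -1) * rho y) volume a b := by
    intro a b
    refine ((hi a b).const_mul (Real.pi / 2)).mono_fun hmeas.aestronglyMeasurable
      (Filter.Eventually.of_forall fun y => ?_)
    simp only [norm_mul]
    have : ‖(if 0 ≤ x - y then (1 : ℝ) else -1)‖ = 1 := by split_ifs <;> simp
    rw [this, mul_one]
  rw [← intervalIntegral.integral_add_adjacent_intervals (hi2 (-2) x) (hi2 x 2)]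
  have h1 : ∫ y in (-2 : ℝ)..x, Real.pi / 2 * (if 0 ≤ x - y then (1 : ℝ) else -1) * rho y
      = Real.pi / 2 * ∫ y in (-2 : ℝ)..x, rho y := by
    rw [← intervalIntegral.integral_const_mul]
    refine intervalIntegral.integral_congr fun y hy => ?_
    rw [Set.uIcc_of_le hx'.1] at hy
    rw [if_pos (by linarith [hy.2]), mul_one]
  have h2 : ∫ y in x..2, Real.pi / 2 * (if 0 ≤ x - y then (1 : ℝ) else -1) * rho y
      = -(Real.pi / 2) * ∫ y in x..2, rho y := by
    rw [← intervalIntegral.integral_const_mul]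
    rw [intervalIntegral.integral_of_le hx'.2, intervalIntegral.integral_of_le hx'.2]
    refine setIntegral_congr_fun measurableSet_Ioc fun y hy => ?_
    rw [if_neg (by have := hy.1; linarith)]
    ring
  have h3 : ∫ y in x..2, rho y = 1 - ∫ y in (-2 : ℝ)..x, rho y := by
    have := intervalIntegral.integral_add_adjacent_intervals (hi (-2) x) (hi x 2)
    rw [rho_int] at this
    linarith
  rw [h1, h2, h3, Fsc_eq hx]
  ring

lemma aSC_chi {x : ℝ} (hx : |x| ≤ 2) {η R : ℝ} (hη : 0 < η) (hR : η ≤ R) :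
    |aSC x η - (Real.pi * Fsc x - Real.pi / 2)|
      ≤ Real.pi * η * ((∫ u in η..R, (msc ⟨x, u⟩).im / u) + 1 / R) := by
  have hRpos : 0 < R := lt_of_lt_of_le hη hR
  have hmeas : Measurable (fun y : ℝ => Real.pi / 2 * (if 0 ≤ x - y then (1 : ℝ) else -1) * rho y) := by
    refine Measurable.mul (Measurable.const_mul (Measurable.ite ?_ measurable_const measurable_const) _)
      rho_continuous.measurable
    exact measurableSet_le measurable_const (measurable_const.sub measurable_id)
  have hi2 : IntervalIntegrable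
      (fun y : ℝ => Real.pi / 2 * (if 0 ≤ x - y then (1 : ℝ) else -1) * rho y) volume (-2) 2 := by
    refine ((rho_continuous.intervalIntegrable (-2) 2).const_mul (Real.pi / 2)).mono_fun
      hmeas.aestronglyMeasurable (Filter.Eventually.of_forall fun y => ?_)
    simp only [norm_mul]
    have : ‖(if 0 ≤ x - y then (1 : ℝ) else -1)‖ = 1 := by split_ifs <;> simp
    rw [this, mul_one]
  have hi1 : IntervalIntegrable (fun y => Real.arctan ((x - y) / η) * rho y) volume (-2) 2 :=
    ((Real.continuous_arctan.comp (by fun_prop)).mul rho_continuous).intervalIntegrable _ _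
  rw [← sgn_int hx, aSC, ← intervalIntegral.integral_sub hi1 hi2]
  have hcont : ContinuousOn (Function.uncurry (fun y u : ℝ => rho y * (1 / ((y - x) ^ 2 + u ^ 2))))
      (Set.Icc (-2) 2 ×ˢ Set.Icc η R) := by
    have h2 : ContinuousOn (fun p : ℝ × ℝ => rho p.1 * (1 / ((p.1 - x) ^ 2 + p.2 ^ 2)))
        (Set.Icc (-2) 2 ×ˢ Set.Icc η R) := by
      refine (rho_continuous.comp continuous_fst).continuousOn.mul
        (ContinuousOn.div (by fun_prop) (by fun_prop) fun p hp => ?_)
      have : 0 < p.2 := lt_of_lt_of_le hη hp.2.1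
      positivity
    exact h2
  have hcontu : ∀ y : ℝ, IntervalIntegrable (fun u => 1 / ((y - x) ^ 2 + u ^ 2)) volume η R := by
    intro y
    refine ContinuousOn.intervalIntegrable ?_
    refine ContinuousOn.div continuousOn_const (by fun_prop) fun u hu => ?_
    rw [Set.uIcc_of_le hR] at hu
    have : 0 < u := lt_of_lt_of_le hη hu.1
    positivity
  -- pointwise bound
  have hpt : ∀ y : ℝ, ‖Real.arctan ((x - y) / η) * rho y
      - Real.pi / 2 * (if 0 ≤ x - y then (1 : ℝ) else -1) * rho y‖
      ≤ Real.pi * η * ((∫ u in η..R, rho y * (1 / ((y - x) ^ 2 + u ^ 2))) + rho y * (1 / R)) := by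
    intro y
    rw [← sub_mul, norm_mul, Real.norm_eq_abs, Real.norm_eq_abs, abs_of_nonneg (rho_nonneg y)]
    have h1 := chi_bound (x - y) hη hR
    have h2 := mul_le_mul_of_nonneg_right h1 (rho_nonneg y)
    refine h2.trans (le_of_eq ?_)
    rw [intervalIntegral.integral_const_mul]
    have h3 : ∀ u : ℝ, 1 / ((x - y) ^ 2 + u ^ 2) = 1 / ((y - x) ^ 2 + u ^ 2) := fun u => by
      congr 2; ring
    simp_rw [h3]
    ring
  have hin : IntervalIntegrable (fun y => ∫ u in η..R, rho y * (1 / ((y - x) ^ 2 + u ^ 2))) volume (-2) 2 := by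
    rw [intervalIntegrable_iff_integrableOn_Ioc_of_le (by norm_num)]
    simp only [intervalIntegral.integral_of_le hR]
    have h1 : IntegrableOn (Function.uncurry (fun y u : ℝ => rho y * (1 / ((y - x) ^ 2 + u ^ 2))))
        (Set.Ioc (-2) 2 ×ˢ Set.Ioc η R) ((volume : Measure ℝ).prod volume) :=
      (hcont.integrableOn_compact (isCompact_Icc.prod isCompact_Icc)).mono_set
        (Set.prod_mono Set.Ioc_subset_Icc_self Set.Ioc_subset_Icc_self)
    rw [IntegrableOn, ← Measure.prod_restrict] at h1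
    exact h1.integral_prod_left
  have h2 := intervalIntegral.norm_integral_le_of_norm_le (a := (-2 : ℝ)) (b := 2) (by norm_num)
    (Filter.Eventually.of_forall fun y _ => hpt y)
    ((hin.add ((rho_continuous.mul continuous_const).intervalIntegrable _ _)).const_mul _)
  rw [Real.norm_eq_abs] at h2
  refine h2.trans (le_of_eq ?_)
  have hin2 : IntervalIntegrable (fun y => rho y * (1 / R)) volume (-2) 2 :=
    (rho_continuous.mul continuous_const).intervalIntegrable _ _
  rw [intervalIntegral.integral_const_mul, intervalIntegral.integral_add hin hin2,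
    intervalIntegral.integral_mul_const, rho_int, one_mul, fub _ (-2) 2 η R (by norm_num) hR hcont]
  congr 2
  refine intervalIntegral.integral_congr fun u hu => ?_
  rw [Set.uIcc_of_le hR] at hu
  have hu0 : 0 < u := lt_of_lt_of_le hη hu.1
  rw [msc_im x u hu0, ← intervalIntegral.integral_div]
  refine intervalIntegral.integral_congr fun y _ => ?_
  have : (y - x) ^ 2 + u ^ 2 ≠ 0 := by positivity
  field_simp

end Pool.Agent.ZR.I

end
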