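import Pool.Agent.ZR.E0

/-!
# Merged form of the modules ZR.C3, ZR.C5, ZR.MDefs, ZR.PB3, ZR.C4, ZR.E1, ZR.MArc, ZR.MJc, ZR.MLin, ZR.MPk, ZR.MPr, ZR.PB4, ZR.DDefs, ZR.D1, ZR.D2
-/

set_option autoImplicit false

section

/-!
# ZR/C3 : Ward identity and elementary bounds

Everything follows from `spec_pb`: with `v_k x = q_k U_xk` (`q_k² = q_k`):
`G_xy(z) = ∑_k q_k U_xk U_yk/(lam_k - z)`.  For `z.im > 0`, `Im 1/(lam - z) = z.im/|lam - z|²`.
* `im_diag_nonneg`, `ward`: `∑_y |G_xy|² = (G G*)_xx = ∑_k q_k U_xk²/|lam_k - z|² = Im G_xx/Im z`.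
* `g_pow_entry`: `|(G^(j+1))_xy| = |∑_k q_k U_xk U_yk/(lam_k - z)^(j+1)| ≤ ∑ q_k |U_xk||U_yk|
  |lam_k - z|^{-2} (Im z)^{-(j-1)} ≤ √(Im G_xx Im G_yy)/(Im z)^j` for `j ≥ 1` (Cauchy-Schwarz).
* `gg_entry` (two different spectral parameters, `G_1 = G(z)`, `G_2 = G(w)`, `z, w` in the upper half
  plane): `|(G_1 G_2)_xy| ≤ (∑_a |G_1 xa|²)^{1/2}(∑_a |G_2 ay|²)^{1/2} =
  √(Im G_1 xx/Im z)√(Im G_2 yy/Im w)`.
* `g_entry_le`: `|G_xy| ≤ 1/|Im z|`.  `op_gz`: the operator norm is at most `1/|Im z|`: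
  `‖G u‖² = ∑ q_k |(Uᵀu)_k|²/|lam_k - z|² ≤ ‖u‖²/(Im z)²`.
* `tr_pow`: `|tr G^(j+1)| ≤ Im tr G/(Im z)^j`, `j ≥ 1`.  `hs_gz`: `∑_{xy} |G_xy|² = Im tr G/Im z`.
* `mz_im_nonneg`, `mz_norm_le`.
* Lower half plane: use `gz_conj` when needed.
-/


open MeasureTheory ProbabilityTheory Matrix

namespace Pool.Agent.ZR

variable {N : ℕ} {Q B : Matrix (Fin N) (Fin N) ℝ}

theorem C3_toC_apply (A : Matrix (Fin N) (Fin N) ℝ) (i j : Fin N) : toC A i j = (A i j : ℂ) := rfl

theorem C3_toC_mul (A C : Matrix (Fin N) (Fin N) ℝ) : toC (A * C) = toC A * toC C := by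
  ext i j
  simp [toC, Matrix.mul_apply]

theorem C3_toC_one : toC (1 : Matrix (Fin N) (Fin N) ℝ) = 1 := by
  ext i j
  by_cases hij : i = j
  · subst hij
    simp [toC]
  · simp [toC, Matrix.one_apply_ne hij]

/-- the resolvent in an orthonormal basis -/
theorem C3_dec (h : PB Q B) (z : ℂ) (hz : z.im ≠ 0) :
    ∃ (U : Matrix (Fin N) (Fin N) ℝ) (d : Fin N → ℂ), U * Uᵀ = 1 ∧ Uᵀ * U = 1 ∧
      Gz Q B z = toC U * Matrix.diagonal d * toC Uᵀ ∧
      ∀ k, (d k).im = z.im * ‖d k‖ ^ 2 ∧ ‖d k‖ ≤ 1 / |z.im| := by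
  obtain ⟨U, lam, q, h1, h2, hq, -, -, hG⟩ := spec_pb h
  refine ⟨U, fun k => (q k : ℂ) / ((lam k : ℂ) - z), h1, h2, hG z hz, ?_⟩
  intro k
  have hne : ((lam k : ℂ) - z) ≠ 0 := by
    intro h0
    have := congrArg Complex.im h0
    simp at this
    exact hz this
  have hpos : 0 < ‖(lam k : ℂ) - z‖ := norm_pos_iff.mpr hne
  have him : |z.im| ≤ ‖(lam k : ℂ) - z‖ := by
    have := Complex.abs_im_le_norm ((lam k : ℂ) - z)
    simpa using this
  have hzp : 0 < |z.im| := abs_pos.mpr hz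
  rcases hq k with h0 | h0
  · simp only [h0]
    simp
  · simp only [h0]
    constructor
    · have e1 : ((1 : ℝ) : ℂ) / ((lam k : ℂ) - z) = ((lam k : ℂ) - z)⁻¹ := by
        simp
      rw [e1, Complex.inv_im, norm_inv, Complex.normSq_eq_norm_sq]
      simp only [Complex.sub_im, Complex.ofReal_im, zero_sub, neg_neg]
      rw [div_eq_mul_inv, inv_pow]
    · rw [norm_div]
      simp only [Complex.ofReal_one, norm_one]
      exact one_div_le_one_div_of_le hzp him

theorem C3_entry (U : Matrix (Fin N) (Fin N) ℝ) (d : Fin N → ℂ) (x y : Fin N) :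
    (toC U * Matrix.diagonal d * toC Uᵀ) x y = ∑ k, (U x k : ℂ) * d k * (U y k : ℂ) := by
  rw [Matrix.mul_apply]
  refine Finset.sum_congr rfl fun k _ => ?_
  rw [Matrix.mul_diagonal]
  rfl

theorem C3_pow (U : Matrix (Fin N) (Fin N) ℝ) (d : Fin N → ℂ) (h1 : U * Uᵀ = 1) (h2 : Uᵀ * U = 1)
    (m : ℕ) : (toC U * Matrix.diagonal d * toC Uᵀ) ^ m
      = toC U * Matrix.diagonal (fun k => d k ^ m) * toC Uᵀ := by
  have h1' : toC U * toC Uᵀ = 1 := by rw [← C3_toC_mul, h1, C3_toC_one]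
  have h2' : toC Uᵀ * toC U = 1 := by rw [← C3_toC_mul, h2, C3_toC_one]
  induction m with
  | zero =>
    simp only [pow_zero, Matrix.diagonal_one, Matrix.mul_one]
    rw [h1']
  | succ m ih =>
    rw [pow_succ, ih]
    have : toC U * Matrix.diagonal (fun k => d k ^ m) * toC Uᵀ *
        (toC U * Matrix.diagonal d * toC Uᵀ)
        = toC U * Matrix.diagonal (fun k => d k ^ m) * (toC Uᵀ * toC U) * Matrix.diagonal d *
          toC Uᵀ := by
      simp only [Matrix.mul_assoc]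
    rw [this, h2', Matrix.mul_one, Matrix.mul_assoc (toC U), Matrix.diagonal_mul_diagonal]
    simp only [pow_succ]

theorem C3_row (U : Matrix (Fin N) (Fin N) ℝ) (d : Fin N → ℂ) (h2 : Uᵀ * U = 1) (x : Fin N) :
    ∑ y, ‖(toC U * Matrix.diagonal d * toC Uᵀ) x y‖ ^ 2 = ∑ k, (U x k) ^ 2 * ‖d k‖ ^ 2 := by
  have hU : ∀ k l : Fin N, ∑ y, U y k * U y l = if k = l then 1 else 0 := by
    intro k l
    have := congrFun (congrFun h2 k) l
    rw [Matrix.mul_apply, Matrix.one_apply] at this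
    rw [← this]
    rfl
  have hc : ((∑ y, ‖(toC U * Matrix.diagonal d * toC Uᵀ) x y‖ ^ 2 : ℝ) : ℂ)
      = ((∑ k, (U x k) ^ 2 * ‖d k‖ ^ 2 : ℝ) : ℂ) := by
    rw [Complex.ofReal_sum]
    have e : ∀ y, ((‖(toC U * Matrix.diagonal d * toC Uᵀ) x y‖ ^ 2 : ℝ) : ℂ)
        = ∑ k, ∑ l, ((U x k : ℂ) * d k * (U x l : ℂ) * starRingEnd ℂ (d l)) *
          ((U y k * U y l : ℝ) : ℂ) := by
      intro y
      rw [C3_entry, Complex.ofReal_pow, ← Complex.mul_conj', map_sum, Finset.sum_mul_sum]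
      refine Finset.sum_congr rfl fun k _ => Finset.sum_congr rfl fun l _ => ?_
      simp only [map_mul, Complex.conj_ofReal, Complex.ofReal_mul]
      ring
    rw [Finset.sum_congr rfl fun y _ => e y, Finset.sum_comm, Complex.ofReal_sum]
    refine Finset.sum_congr rfl fun k _ => ?_
    rw [Finset.sum_comm]
    have e2 : ∀ l, ∑ y, ((U x k : ℂ) * d k * (U x l : ℂ) * starRingEnd ℂ (d l)) *
          ((U y k * U y l : ℝ) : ℂ)
        = if k = l then ((U x k : ℂ) * d k * (U x l : ℂ) * starRingEnd ℂ (d l)) else 0 := by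
      intro l
      rw [← Finset.mul_sum, ← Complex.ofReal_sum, hU k l]
      split_ifs <;> simp
    rw [Finset.sum_congr rfl fun l _ => e2 l, Finset.sum_ite_eq]
    simp only [Finset.mem_univ, if_true]
    have e3 : (U x k : ℂ) * d k * (U x k : ℂ) * starRingEnd ℂ (d k)
        = (U x k : ℂ) ^ 2 * (d k * starRingEnd ℂ (d k)) := by ring
    rw [e3, Complex.mul_conj']
    push_cast
    ring
  exact_mod_cast hc

theorem C3_im (U : Matrix (Fin N) (Fin N) ℝ) (d : Fin N → ℂ) (z : ℂ)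
    (hd : ∀ k, (d k).im = z.im * ‖d k‖ ^ 2) (x : Fin N) :
    ((toC U * Matrix.diagonal d * toC Uᵀ) x x).im = z.im * ∑ k, (U x k) ^ 2 * ‖d k‖ ^ 2 := by
  rw [C3_entry, Complex.im_sum, Finset.mul_sum]
  refine Finset.sum_congr rfl fun k _ => ?_
  have e3 : (U x k : ℂ) * d k * (U x k : ℂ) = ((U x k ^ 2 : ℝ) : ℂ) * d k := by
    push_cast
    ring
  rw [e3, Complex.im_ofReal_mul, hd k]
  ring

theorem C3_Urow (U : Matrix (Fin N) (Fin N) ℝ) (h1 : U * Uᵀ = 1) (x : Fin N) :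
    ∑ k, U x k ^ 2 = 1 := by
  have := congrFun (congrFun h1 x) x
  rw [Matrix.mul_apply, Matrix.one_apply_eq] at this
  rw [← this]
  refine Finset.sum_congr rfl fun k _ => ?_
  rw [Matrix.transpose_apply, sq]

theorem im_diag_nonneg (h : PB Q B) (z : ℂ) (hz : 0 < z.im) (x : Fin N) :
    0 ≤ (Gz Q B z x x).im := by
  obtain ⟨U, d, h1, h2, hG, hd⟩ := C3_dec h z hz.ne'
  rw [hG, C3_im U d z (fun k => (hd k).1) x]
  exact mul_nonneg hz.le (Finset.sum_nonneg fun k _ => by positivity)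

theorem ward (h : PB Q B) (z : ℂ) (hz : 0 < z.im) (x : Fin N) :
    ∑ y, ‖Gz Q B z x y‖ ^ 2 = (Gz Q B z x x).im / z.im := by
  obtain ⟨U, d, h1, h2, hG, hd⟩ := C3_dec h z hz.ne'
  rw [hG, C3_im U d z (fun k => (hd k).1) x, C3_row U d h2 x]
  field_simp

theorem g_pow_entry (h : PB Q B) (z : ℂ) (hz : 0 < z.im) (j : ℕ) (hj : 1 ≤ j) (x y : Fin N) :
    ‖(Gz Q B z ^ (j + 1)) x y‖ ≤
      Real.sqrt ((Gz Q B z x x).im * (Gz Q B z y y).im) / z.im ^ j := by
  obtain ⟨U, d, h1, h2, hG, hd⟩ := C3_dec h z hz.ne'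
  rw [hG, C3_im U d z (fun k => (hd k).1) x, C3_im U d z (fun k => (hd k).1) y, C3_pow U d h1 h2,
    C3_entry]
  set a : ℝ := ∑ k, (U x k) ^ 2 * ‖d k‖ ^ 2 with ha
  set b : ℝ := ∑ k, (U y k) ^ 2 * ‖d k‖ ^ 2 with hb
  have ha0 : 0 ≤ a := Finset.sum_nonneg fun k _ => by positivity
  have hb0 : 0 ≤ b := Finset.sum_nonneg fun k _ => by positivity
  obtain ⟨i, rfl⟩ : ∃ i, j = i + 1 := ⟨j - 1, by omega⟩
  have hab : |z.im| = z.im := abs_of_pos hz
  have hterm : ∀ k, ‖(U x k : ℂ) * d k ^ (i + 1 + 1) * (U y k : ℂ)‖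
      ≤ (1 / z.im ^ i) * ((|U x k| * ‖d k‖) * (|U y k| * ‖d k‖)) := by
    intro k
    rw [norm_mul, norm_mul, norm_pow, Complex.norm_real, Complex.norm_real, Real.norm_eq_abs,
      Real.norm_eq_abs]
    have hdk : ‖d k‖ ^ i ≤ 1 / z.im ^ i := by
      have := (hd k).2
      rw [hab] at this
      calc ‖d k‖ ^ i ≤ (1 / z.im) ^ i := pow_le_pow_left₀ (norm_nonneg _) this i
        _ = 1 / z.im ^ i := by rw [_root_.one_div_pow]
    have e : |U x k| * ‖d k‖ ^ (i + 1 + 1) * |U y k|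
        = ‖d k‖ ^ i * ((|U x k| * ‖d k‖) * (|U y k| * ‖d k‖)) := by ring
    rw [e]
    exact mul_le_mul_of_nonneg_right hdk (by positivity)
  have hcs : ∑ k, (|U x k| * ‖d k‖) * (|U y k| * ‖d k‖) ≤ Real.sqrt a * Real.sqrt b := by
    have := Real.sum_mul_le_sqrt_mul_sqrt Finset.univ (fun k => |U x k| * ‖d k‖)
      (fun k => |U y k| * ‖d k‖)
    refine this.trans (le_of_eq ?_)
    congr 2
    · refine Finset.sum_congr rfl fun k _ => ?_
      rw [mul_pow, sq_abs]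
    · refine Finset.sum_congr rfl fun k _ => ?_
      rw [mul_pow, sq_abs]
  calc ‖∑ k, (U x k : ℂ) * d k ^ (i + 1 + 1) * (U y k : ℂ)‖
      ≤ ∑ k, ‖(U x k : ℂ) * d k ^ (i + 1 + 1) * (U y k : ℂ)‖ := norm_sum_le _ _
    _ ≤ ∑ k, (1 / z.im ^ i) * ((|U x k| * ‖d k‖) * (|U y k| * ‖d k‖)) :=
        Finset.sum_le_sum fun k _ => hterm k
    _ = (1 / z.im ^ i) * ∑ k, (|U x k| * ‖d k‖) * (|U y k| * ‖d k‖) := by rw [Finset.mul_sum]
    _ ≤ (1 / z.im ^ i) * (Real.sqrt a * Real.sqrt b) :=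
        mul_le_mul_of_nonneg_left hcs (by positivity)
    _ = Real.sqrt (z.im * a * (z.im * b)) / z.im ^ (i + 1) := by
        have e : z.im * a * (z.im * b) = z.im ^ 2 * (a * b) := by ring
        rw [e, Real.sqrt_mul (by positivity), Real.sqrt_sq hz.le, Real.sqrt_mul ha0, pow_succ]
        field_simp

theorem gg_entry (h : PB Q B) (z w : ℂ) (hz : 0 < z.im) (hw : 0 < w.im) (x y : Fin N) :
    ‖(Gz Q B z * Gz Q B w) x y‖ ≤
      Real.sqrt ((Gz Q B z x x).im / z.im) * Real.sqrt ((Gz Q B w y y).im / w.im) := by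
  rw [← ward h z hz x, ← ward h w hw y, Matrix.mul_apply]
  have hsym : ∀ a, Gz Q B w a y = Gz Q B w y a := by
    intro a
    have := congrFun (congrFun (gz_symm h w hw.ne') y) a
    rw [Matrix.transpose_apply] at this
    exact this
  calc ‖∑ a, Gz Q B z x a * Gz Q B w a y‖ ≤ ∑ a, ‖Gz Q B z x a * Gz Q B w a y‖ :=
        norm_sum_le _ _
    _ = ∑ a, ‖Gz Q B z x a‖ * ‖Gz Q B w y a‖ := by
        refine Finset.sum_congr rfl fun a _ => ?_
        rw [norm_mul, hsym a]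
    _ ≤ _ := Real.sum_mul_le_sqrt_mul_sqrt Finset.univ (fun a => ‖Gz Q B z x a‖)
        (fun a => ‖Gz Q B w y a‖)

theorem g_entry_le (h : PB Q B) (z : ℂ) (hz : z.im ≠ 0) (x y : Fin N) :
    ‖Gz Q B z x y‖ ≤ 1 / |z.im| := by
  obtain ⟨U, d, h1, h2, hG, hd⟩ := C3_dec h z hz
  rw [hG, C3_entry]
  have hp : 0 < |z.im| := abs_pos.mpr hz
  have hcs : ∑ k, |U x k| * |U y k| ≤ 1 := by
    have := Real.sum_mul_le_sqrt_mul_sqrt Finset.univ (fun k => |U x k|) (fun k => |U y k|)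
    refine this.trans (le_of_eq ?_)
    simp only [sq_abs]
    rw [C3_Urow U h1 x, C3_Urow U h1 y]
    simp
  calc ‖∑ k, (U x k : ℂ) * d k * (U y k : ℂ)‖ ≤ ∑ k, ‖(U x k : ℂ) * d k * (U y k : ℂ)‖ :=
        norm_sum_le _ _
    _ ≤ ∑ k, (1 / |z.im|) * (|U x k| * |U y k|) := by
        refine Finset.sum_le_sum fun k _ => ?_
        rw [norm_mul, norm_mul, Complex.norm_real, Complex.norm_real, Real.norm_eq_abs,
          Real.norm_eq_abs]
        have e : |U x k| * ‖d k‖ * |U y k| = ‖d k‖ * (|U x k| * |U y k|) := by ring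
        rw [e]
        exact mul_le_mul_of_nonneg_right (hd k).2 (by positivity)
    _ = (1 / |z.im|) * ∑ k, |U x k| * |U y k| := by rw [Finset.mul_sum]
    _ ≤ (1 / |z.im|) * 1 := mul_le_mul_of_nonneg_left hcs (by positivity)
    _ = 1 / |z.im| := mul_one _

theorem C3_isom (A : Matrix (Fin N) (Fin N) ℝ) (hA : Aᵀ * A = 1) (u : Fin N → ℂ) :
    ∑ i, ‖(toC A *ᵥ u) i‖ ^ 2 = ∑ i, ‖u i‖ ^ 2 := by
  have hU : ∀ k l : Fin N, ∑ y, A y k * A y l = if k = l then 1 else 0 := by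
    intro k l
    have := congrFun (congrFun hA k) l
    rw [Matrix.mul_apply, Matrix.one_apply] at this
    rw [← this]
    rfl
  have hc : ((∑ i, ‖(toC A *ᵥ u) i‖ ^ 2 : ℝ) : ℂ) = ((∑ i, ‖u i‖ ^ 2 : ℝ) : ℂ) := by
    rw [Complex.ofReal_sum]
    have e : ∀ y, ((‖(toC A *ᵥ u) y‖ ^ 2 : ℝ) : ℂ)
        = ∑ k, ∑ l, (u k * starRingEnd ℂ (u l)) * ((A y k * A y l : ℝ) : ℂ) := by
      intro y
      have e0 : (toC A *ᵥ u) y = ∑ k, (A y k : ℂ) * u k := rfl
      rw [e0, Complex.ofReal_pow, ← Complex.mul_conj', map_sum, Finset.sum_mul_sum]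
      refine Finset.sum_congr rfl fun k _ => Finset.sum_congr rfl fun l _ => ?_
      simp only [map_mul, Complex.conj_ofReal, Complex.ofReal_mul]
      ring
    rw [Finset.sum_congr rfl fun y _ => e y, Finset.sum_comm, Complex.ofReal_sum]
    refine Finset.sum_congr rfl fun k _ => ?_
    rw [Finset.sum_comm]
    have e2 : ∀ l, ∑ y, (u k * starRingEnd ℂ (u l)) * ((A y k * A y l : ℝ) : ℂ)
        = if k = l then (u k * starRingEnd ℂ (u l)) else 0 := by
      intro l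
      rw [← Finset.mul_sum, ← Complex.ofReal_sum, hU k l]
      split_ifs <;> simp
    rw [Finset.sum_congr rfl fun l _ => e2 l, Finset.sum_ite_eq]
    simp only [Finset.mem_univ, if_true]
    rw [Complex.mul_conj']
    push_cast
    ring
  exact_mod_cast hc

theorem op_gz (h : PB Q B) (z : ℂ) (hz : z.im ≠ 0) : OpLe (Gz Q B z) (1 / |z.im|) := by
  obtain ⟨U, d, h1, h2, hG, hd⟩ := C3_dec h z hz
  have hp : 0 < |z.im| := abs_pos.mpr hz
  refine ⟨by positivity, fun u => ?_⟩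
  rw [hG]
  have e : (toC U * Matrix.diagonal d * toC Uᵀ) *ᵥ u
      = toC U *ᵥ (Matrix.diagonal d *ᵥ (toC Uᵀ *ᵥ u)) := by
    rw [Matrix.mulVec_mulVec, Matrix.mulVec_mulVec, Matrix.mul_assoc]
  rw [e, C3_isom U h2]
  have hu : ∑ i, ‖u i‖ ^ 2 = ∑ i, ‖(toC Uᵀ *ᵥ u) i‖ ^ 2 := by
    rw [C3_isom Uᵀ (by rw [Matrix.transpose_transpose]; exact h1)]
  rw [hu, Finset.mul_sum]
  refine Finset.sum_le_sum fun i _ => ?_
  rw [Matrix.mulVec_diagonal, norm_mul, mul_pow]
  exact mul_le_mul_of_nonneg_right (pow_le_pow_left₀ (norm_nonneg _) (hd i).2 2) (by positivity)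

theorem C3_sqrt_self (a : ℝ) (ha : 0 ≤ a) : Real.sqrt (a * a) = a := Real.sqrt_mul_self ha

theorem C3_tr_im (A : Matrix (Fin N) (Fin N) ℂ) : A.trace.im = ∑ x, (A x x).im := by
  rw [Matrix.trace, Complex.im_sum]
  rfl

theorem tr_pow (h : PB Q B) (z : ℂ) (hz : 0 < z.im) (j : ℕ) (hj : 1 ≤ j) :
    ‖(Gz Q B z ^ (j + 1)).trace‖ ≤ (Gz Q B z).trace.im / z.im ^ j := by
  rw [C3_tr_im, Finset.sum_div]
  refine (norm_sum_le _ _).trans (Finset.sum_le_sum fun x _ => ?_)
  have := g_pow_entry h z hz j hj x x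
  rw [C3_sqrt_self _ (im_diag_nonneg h z hz x)] at this
  exact this

theorem hs_gz (h : PB Q B) (z : ℂ) (hz : 0 < z.im) :
    hs2 (Gz Q B z) = (Gz Q B z).trace.im / z.im := by
  rw [C3_tr_im, Finset.sum_div, hs2]
  exact Finset.sum_congr rfl fun x _ => ward h z hz x

theorem mz_im_nonneg (h : PB Q B) (z : ℂ) (hz : 0 < z.im) : 0 ≤ (mz Q B z).im := by
  have e : mz Q B z = ((1 / (N : ℝ) : ℝ) : ℂ) * (Gz Q B z).trace := by
    rw [mz]
    push_cast
    rfl
  rw [e, Complex.im_ofReal_mul, C3_tr_im]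
  exact mul_nonneg (by positivity) (Finset.sum_nonneg fun x _ => im_diag_nonneg h z hz x)

theorem mz_norm_le (h : PB Q B) (z : ℂ) (hz : z.im ≠ 0) : ‖mz Q B z‖ ≤ 1 / |z.im| := by
  have hp : 0 < |z.im| := abs_pos.mpr hz
  rw [mz, norm_mul, norm_div, norm_one, Complex.norm_natCast]
  have htr : ‖(Gz Q B z).trace‖ ≤ (N : ℝ) * (1 / |z.im|) := by
    rw [Matrix.trace]
    refine (norm_sum_le _ _).trans ?_
    calc ∑ x, ‖(Gz Q B z).diag x‖ ≤ ∑ _x : Fin N, (1 / |z.im|) :=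
          Finset.sum_le_sum fun x _ => g_entry_le h z hz x x
      _ = (N : ℝ) * (1 / |z.im|) := by simp
  rcases Nat.eq_zero_or_pos N with hN | hN
  · subst hN
    simp
  · have hN' : (0 : ℝ) < N := by exact_mod_cast hN
    calc 1 / (N : ℝ) * ‖(Gz Q B z).trace‖ ≤ 1 / (N : ℝ) * ((N : ℝ) * (1 / |z.im|)) :=
          mul_le_mul_of_nonneg_left htr (by positivity)
      _ = 1 / |z.im| := by field_simp

/-- trace and roots in the spectral representation -/
theorem C3_trace (U : Matrix (Fin N) (Fin N) ℝ) (d : Fin N → ℂ) (h2 : Uᵀ * U = 1) :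
    (toC U * Matrix.diagonal d * toC Uᵀ).trace = ∑ k, d k := by
  rw [Matrix.trace_mul_comm, ← Matrix.mul_assoc, ← C3_toC_mul, h2, C3_toC_one, Matrix.one_mul,
    Matrix.trace_diagonal]

theorem C3_roots (U : Matrix (Fin N) (Fin N) ℝ) (e : Fin N → ℝ) (h2 : Uᵀ * U = 1) :
    (U * Matrix.diagonal e * Uᵀ).charpoly.roots = Finset.univ.val.map e := by
  have h : (U * Matrix.diagonal e * Uᵀ).charpoly = (Matrix.diagonal e).charpoly := by
    rw [Matrix.charpoly_mul_comm, ← Matrix.mul_assoc, h2, Matrix.one_mul]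
  rw [h, Matrix.charpoly_diagonal]
  have : (∏ i, (Polynomial.X - Polynomial.C (e i)))
      = ((Finset.univ.val.map e).map fun a => Polynomial.X - Polynomial.C a).prod := by
    rw [Multiset.map_map]
    rfl
  rw [this, Polynomial.roots_multiset_prod_X_sub_C]

/-- `m = (1/N) ∑_{l ∈ roots} 1/(l - z)` for `Q = 1` -/
theorem mz_one_roots (B : Matrix (Fin N) (Fin N) ℝ) (hB : B.IsSymm) (z : ℂ) (hz : z.im ≠ 0) :
    mz 1 B z = (1 / (N : ℂ)) * (B.charpoly.roots.map (fun l : ℝ => 1 / ((l : ℂ) - z))).sum := by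
  obtain ⟨U, lam, q, h1, h2, hq, hQ, hBe, hG⟩ := spec_pb (pb_one B hB)
  have hq1 : ∀ k, q k = 1 := by
    intro k
    have e : Uᵀ * 1 * U = Matrix.diagonal q := by
      calc Uᵀ * 1 * U = Uᵀ * (U * Matrix.diagonal q * Uᵀ) * U := by rw [← hQ]
        _ = (Uᵀ * U) * Matrix.diagonal q * (Uᵀ * U) := by simp only [Matrix.mul_assoc]
        _ = Matrix.diagonal q := by rw [h2, Matrix.one_mul, Matrix.mul_one]
    rw [Matrix.mul_one, h2] at e
    have := congrFun (congrFun e k) k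
    rw [Matrix.one_apply_eq, Matrix.diagonal_apply_eq] at this
    exact this.symm
  rw [mz, hG z hz, C3_trace U _ h2]
  congr 1
  have hr : B.charpoly.roots = Finset.univ.val.map lam := by
    rw [hBe, C3_roots U _ h2]
    congr 1
    funext k
    rw [hq1 k, one_mul]
  rw [hr, Multiset.map_map]
  refine Finset.sum_congr rfl fun k _ => ?_
  simp [hq1 k]

/-- the same for `Q = Pn n`, with the root `0` of `1` erased -/
theorem mz_Pn_roots {n : ℕ} (hn : 0 < n) (B : Matrix (Fin n) (Fin n) ℝ) (h : PB (Pn n) B) (z : ℂ)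
    (hz : z.im ≠ 0) : mz (Pn n) B z
      = (1 / (n : ℂ)) * ((B.charpoly.roots.erase 0).map (fun l : ℝ => 1 / ((l : ℂ) - z))).sum := by
  classical
  obtain ⟨U, lam, q, h1, h2, hq, hQ, hBe, hG⟩ := spec_pb h
  have htr : ∑ k, q k = (n : ℝ) - 1 := by
    rw [← Pn_trace n hn, hQ, Matrix.trace_mul_comm, ← Matrix.mul_assoc, h2, Matrix.one_mul,
      Matrix.trace_diagonal]
  have hex : ∃ k0, q k0 = 0 ∧ ∀ k, k ≠ k0 → q k = 1 := by
    have hs : ∑ k, (1 - q k) = 1 := by
      rw [Finset.sum_sub_distrib, htr]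
      simp
    have hne : ∃ k0, q k0 = 0 := by
      by_contra hcon
      push Not at hcon
      have : ∑ k, (1 - q k) = 0 := by
        refine Finset.sum_eq_zero fun k _ => ?_
        rcases hq k with h0 | h0
        · exact absurd h0 (hcon k)
        · rw [h0]
          norm_num
      rw [this] at hs
      norm_num at hs
    obtain ⟨k0, hk0⟩ := hne
    refine ⟨k0, hk0, fun k hk => ?_⟩
    rcases hq k with h0 | h0
    · exfalso
      have hle : ∑ i ∈ ({k0, k} : Finset (Fin n)), (1 - q i) ≤ ∑ i, (1 - q i) := by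
        refine Finset.sum_le_sum_of_subset_of_nonneg (Finset.subset_univ _) fun i _ _ => ?_
        rcases hq i with h3 | h3 <;> rw [h3] <;> norm_num
      rw [hs, Finset.sum_pair (Ne.symm hk), hk0, h0] at hle
      norm_num at hle
    · exact h0
  obtain ⟨k0, hk0, hk1⟩ := hex
  rw [mz, hG z hz, C3_trace U _ h2]
  congr 1
  have huniv : (Finset.univ : Finset (Fin n)).val = k0 ::ₘ (Finset.univ.erase k0).val := by
    rw [Finset.erase_val, Multiset.cons_erase (Finset.mem_univ k0)]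
  have hr : B.charpoly.roots.erase 0 = (Finset.univ.erase k0).val.map (fun k => q k * lam k) := by
    rw [hBe, C3_roots U _ h2, huniv, Multiset.map_cons, hk0, zero_mul, Multiset.erase_cons_head]
  rw [hr, Multiset.map_map]
  have e1 : ∑ k, (q k : ℂ) / ((lam k : ℂ) - z)
      = ∑ k ∈ Finset.univ.erase k0, (q k : ℂ) / ((lam k : ℂ) - z) := by
    rw [← Finset.add_sum_erase Finset.univ _ (Finset.mem_univ k0), hk0]
    simp
  rw [e1]
  refine Finset.sum_congr rfl fun k hk => ?_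
  have hk' : k ≠ k0 := Finset.ne_of_mem_erase hk
  simp [hk1 k hk']

end Pool.Agent.ZR

end

section

/-!
# ZR/C5 : derivatives of the resolvent

Let `PB Q B`, `PB Q Y`; then `PB Q (B + s Y)` for all real `s` (`pb_add`).  By `gz_pert`,
`G(B + s'Y) - G(B + sY) = -(s'-s) G(B+s'Y) Y G(B+sY)`; since all entries are bounded by `1/|Im z|`
(spectral representation `spec_pb`, or `g_entry_le` of C3 - here only `C2` is imported, prove the
bound `‖G_xy‖ ≤ 1/|Im z|` again from `spec_pb`: Cauchy-Schwarz with `∑_k U_xk² = 1`), the map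
`s ↦ G(B+sY)` is Lipschitz and the difference quotient converges to `-(G Y G)`.
For the derivative in `z` use `gz_res` in the same way: `(G(w) - G(z))/(w - z) = G(w) G(z) → G(z)²`.
`jet_entry`: `d/ds ((G Y)^r G) = -(r+1) (G Y)^(r+1) G` by the product rule for matrix products
(induction on `r`: `(GY)^(r+1) G = (G Y) ((G Y)^r G)`), so with
`h r s = (-1)^r r! ((G Y)^r G)_xy` we get `h r' = h (r+1)`.  `jet_mz`: take the trace.
Continuity: the entries of `Gz Q (f τ) z` depend continuously on `τ` if the entries of `f τ` do, by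
the same Lipschitz bound (`gz_pert`): `‖G(f τ') - G(f τ)‖_entries ≤ N² ‖f τ' - f τ‖/|Im z|²`.
-/


open MeasureTheory ProbabilityTheory Matrix

namespace Pool.Agent.ZR

variable {N : ℕ} {Q B Y : Matrix (Fin N) (Fin N) ℝ}

/-- entry bound, from the spectral representation -/
private theorem gz_entry_bd (h : PB Q B) (z : ℂ) (hz : z.im ≠ 0) (x y : Fin N) :
    ‖Gz Q B z x y‖ ≤ 1 / |z.im| := by
  obtain ⟨U, lam, q, hU, hU', hq, -, -, hG⟩ := spec_pb h
  have hzp : 0 < |z.im| := abs_pos.mpr hz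
  have hent : Gz Q B z x y = ∑ k, (U x k : ℂ) * ((q k : ℂ) / ((lam k : ℂ) - z)) * (U y k : ℂ) := by
    rw [hG z hz, Matrix.mul_apply]
    apply Finset.sum_congr rfl
    intro k _
    rw [Matrix.mul_diagonal]
    simp [toC]
  have hrow : ∀ a : Fin N, ∑ k, |U a k| ^ 2 = 1 := by
    intro a
    have := congrFun (congrFun hU a) a
    rw [Matrix.mul_apply, Matrix.one_apply_eq] at this
    rw [← this]
    apply Finset.sum_congr rfl
    intro k _
    rw [Matrix.transpose_apply, sq_abs]; ring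
  have hco : ∀ k, ‖(q k : ℂ) / ((lam k : ℂ) - z)‖ ≤ 1 / |z.im| := by
    intro k
    have h1 : |z.im| ≤ ‖(lam k : ℂ) - z‖ := by
      have := Complex.abs_im_le_norm ((lam k : ℂ) - z)
      simpa using this
    rw [norm_div]
    rcases hq k with h0 | h0
    · rw [h0]; simp
    · rw [h0]
      simp only [Complex.ofReal_one, norm_one]
      exact one_div_le_one_div_of_le hzp h1
  rw [hent]
  calc ‖∑ k, (U x k : ℂ) * ((q k : ℂ) / ((lam k : ℂ) - z)) * (U y k : ℂ)‖
      ≤ ∑ k, ‖(U x k : ℂ) * ((q k : ℂ) / ((lam k : ℂ) - z)) * (U y k : ℂ)‖ := norm_sum_le _ _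
    _ ≤ ∑ k, (1 / |z.im|) * ((|U x k| ^ 2 + |U y k| ^ 2) / 2) := by
        apply Finset.sum_le_sum
        intro k _
        rw [norm_mul, norm_mul, Complex.norm_real, Complex.norm_real, Real.norm_eq_abs,
          Real.norm_eq_abs]
        have h2 : |U x k| * |U y k| ≤ (|U x k| ^ 2 + |U y k| ^ 2) / 2 := by
          nlinarith [sq_nonneg (|U x k| - |U y k|)]
        have h3 : 0 ≤ |U x k| * |U y k| := by positivity
        calc |U x k| * ‖(q k : ℂ) / ((lam k : ℂ) - z)‖ * |U y k|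
            = ‖(q k : ℂ) / ((lam k : ℂ) - z)‖ * (|U x k| * |U y k|) := by ring
          _ ≤ (1 / |z.im|) * ((|U x k| ^ 2 + |U y k| ^ 2) / 2) :=
              mul_le_mul (hco k) h2 h3 (by positivity)
    _ = 1 / |z.im| := by
        rw [← Finset.mul_sum, ← Finset.sum_div, Finset.sum_add_distrib, hrow x, hrow y]
        norm_num

/-- entries of a triple product -/
private theorem triple_apply (A M C : Matrix (Fin N) (Fin N) ℂ) (x y : Fin N) :
    (A * M * C) x y = ∑ k, ∑ l, A x k * M k l * C l y := by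
  rw [Matrix.mul_apply]
  simp only [Matrix.mul_apply, Finset.sum_mul]
  rw [Finset.sum_comm]

theorem continuous_gz {T : Type*} [TopologicalSpace T] (f : T → Matrix (Fin N) (Fin N) ℝ)
    (hf : ∀ k l, Continuous (fun τ => f τ k l)) (hs : ∀ τ, PB Q (f τ)) (z : ℂ) (hz : z.im ≠ 0)
    (x y : Fin N) : Continuous (fun τ => Gz Q (f τ) z x y) := by
  rw [continuous_iff_continuousAt]
  intro τ0
  rw [ContinuousAt, tendsto_iff_norm_sub_tendsto_zero]
  have hb : ∀ τ, ‖Gz Q (f τ) z x y - Gz Q (f τ0) z x y‖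
      ≤ ∑ k, ∑ l, (1 / |z.im|) * |f τ k l - f τ0 k l| * (1 / |z.im|) := by
    intro τ
    have e1 : Gz Q (f τ) z x y - Gz Q (f τ0) z x y
        = - ∑ k, ∑ l, Gz Q (f τ) z x k * (toC (f τ - f τ0)) k l * Gz Q (f τ0) z l y := by
      rw [← triple_apply, ← Matrix.sub_apply, gz_pert (hs τ) (hs τ0) z hz, Matrix.neg_apply]
    rw [e1, norm_neg]
    refine (norm_sum_le _ _).trans (Finset.sum_le_sum fun k _ => ?_)
    refine (norm_sum_le _ _).trans (Finset.sum_le_sum fun l _ => ?_)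
    rw [norm_mul, norm_mul]
    have e2 : ‖(toC (f τ - f τ0)) k l‖ = |f τ k l - f τ0 k l| := by
      rw [toC, Matrix.map_apply, Matrix.sub_apply, Complex.norm_real, Real.norm_eq_abs]
    rw [e2]
    have g1 := gz_entry_bd (hs τ) z hz x k
    have g2 := gz_entry_bd (hs τ0) z hz l y
    gcongr
  refine squeeze_zero (fun _ => norm_nonneg _) hb ?_
  have hc : Continuous (fun τ => ∑ k, ∑ l, (1 / |z.im|) * |f τ k l - f τ0 k l| * (1 / |z.im|)) := by
    refine continuous_finsetSum _ fun k _ => continuous_finsetSum _ fun l _ => ?_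
    exact (continuous_const.mul ((hf k l).sub continuous_const).abs).mul continuous_const
  have := hc.tendsto τ0
  simpa using this

private theorem pb_line (hB : PB Q B) (hY : PB Q Y) (s : ℝ) : PB Q (B + s • Y) := by
  have := pb_add hB hY 1 s
  simpa using this

private theorem cont_line (hB : PB Q B) (hY : PB Q Y) (z : ℂ) (hz : z.im ≠ 0) (x y : Fin N) :
    Continuous (fun s : ℝ => Gz Q (B + s • Y) z x y) := by
  refine continuous_gz (fun s : ℝ => B + s • Y) (fun k l => ?_) (fun s => pb_line hB hY s) z hz x y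
  simp only [Matrix.add_apply, Matrix.smul_apply, smul_eq_mul]
  fun_prop

theorem hasDeriv_gz (hB : PB Q B) (hY : PB Q Y) (z : ℂ) (hz : z.im ≠ 0) (x y : Fin N) (s : ℝ) :
    HasDerivAt (fun s : ℝ => Gz Q (B + s • Y) z x y)
      (-((Gz Q (B + s • Y) z * toC Y * Gz Q (B + s • Y) z) x y)) s := by
  rw [hasDerivAt_iff_tendsto_slope]
  have hsl : ∀ t : ℝ, t ≠ s → slope (fun s : ℝ => Gz Q (B + s • Y) z x y) s t
      = - ∑ k, ∑ l, Gz Q (B + t • Y) z x k * toC Y k l * Gz Q (B + s • Y) z l y := by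
    intro t ht
    have hts : (t - s : ℝ) ≠ 0 := sub_ne_zero.mpr ht
    have e1 : Gz Q (B + t • Y) z - Gz Q (B + s • Y) z
        = -((t - s : ℝ) : ℂ) • (Gz Q (B + t • Y) z * toC Y * Gz Q (B + s • Y) z) := by
      rw [gz_pert (pb_line hB hY t) (pb_line hB hY s) z hz]
      have e2 : toC (B + t • Y - (B + s • Y)) = ((t - s : ℝ) : ℂ) • toC Y := by
        ext k l
        simp [toC]
        ring
      rw [e2, Matrix.mul_smul, Matrix.smul_mul, neg_smul]
    rw [slope_def_module, ← triple_apply]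
    have e3 : Gz Q (B + t • Y) z x y - Gz Q (B + s • Y) z x y
        = -((t - s : ℝ) : ℂ) * (Gz Q (B + t • Y) z * toC Y * Gz Q (B + s • Y) z) x y := by
      rw [← Matrix.sub_apply, e1, Matrix.smul_apply, smul_eq_mul]
    rw [e3]
    rw [Complex.real_smul]
    have : ((t - s : ℝ) : ℂ) ≠ 0 := by exact_mod_cast hts
    push_cast
    push_cast at this
    field_simp
  have hlim : Filter.Tendsto (fun t : ℝ => - ∑ k, ∑ l,
      Gz Q (B + t • Y) z x k * toC Y k l * Gz Q (B + s • Y) z l y) (nhdsWithin s {s}ᶜ)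
      (nhds (-((Gz Q (B + s • Y) z * toC Y * Gz Q (B + s • Y) z) x y))) := by
    rw [triple_apply]
    have hc : Continuous (fun t : ℝ => - ∑ k, ∑ l,
      Gz Q (B + t • Y) z x k * toC Y k l * Gz Q (B + s • Y) z l y) := by
      refine (continuous_finsetSum _ fun k _ => continuous_finsetSum _ fun l _ => ?_).neg
      exact ((cont_line hB hY z hz x k).mul continuous_const).mul continuous_const
    exact (hc.tendsto s).mono_left nhdsWithin_le_nhds
  refine hlim.congr' ?_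
  filter_upwards [self_mem_nhdsWithin] with t ht
  exact (hsl t ht).symm

/-- continuity in `z` -/
private theorem cont_gz_z (hB : PB Q B) (z : ℂ) (hz : z.im ≠ 0) (x y : Fin N) :
    ContinuousAt (fun w : ℂ => Gz Q B w x y) z := by
  have hzp : 0 < |z.im| := abs_pos.mpr hz
  rw [ContinuousAt, tendsto_iff_norm_sub_tendsto_zero]
  have hnear : ∀ᶠ w : ℂ in nhds z, |z.im| / 2 < |w.im| := by
    have hc : Continuous (fun w : ℂ => |w.im|) := Complex.continuous_im.abs
    exact hc.continuousAt.eventually (lt_mem_nhds (by linarith))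
  have hb : ∀ᶠ w : ℂ in nhds z, ‖Gz Q B w x y - Gz Q B z x y‖
      ≤ ‖w - z‖ * ∑ _k : Fin N, (1 / (|z.im| / 2)) * (1 / |z.im|) := by
    filter_upwards [hnear] with w hw
    have hw0 : w.im ≠ 0 := by
      intro h0
      rw [h0] at hw
      simp at hw
      linarith
    rw [← Matrix.sub_apply, gz_res hB w z hw0 hz, Matrix.smul_apply, smul_eq_mul, norm_mul,
      Matrix.mul_apply]
    refine mul_le_mul_of_nonneg_left ?_ (norm_nonneg _)
    refine (norm_sum_le _ _).trans (Finset.sum_le_sum fun k _ => ?_)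
    rw [norm_mul]
    have g1 := gz_entry_bd hB w hw0 x k
    have g2 := gz_entry_bd hB z hz k y
    have g3 : 1 / |w.im| ≤ 1 / (|z.im| / 2) := one_div_le_one_div_of_le (by linarith) hw.le
    exact mul_le_mul (g1.trans g3) g2 (norm_nonneg _) (by positivity)
  refine squeeze_zero' (Filter.Eventually.of_forall fun _ => norm_nonneg _) hb ?_
  have hc : Continuous (fun w : ℂ => ‖w - z‖ * ∑ _k : Fin N, (1 / (|z.im| / 2)) * (1 / |z.im|)) := by
    fun_prop
  have := hc.tendsto z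
  simpa using this

theorem hasDeriv_gz_z (hB : PB Q B) (z : ℂ) (hz : z.im ≠ 0) (x y : Fin N) :
    HasDerivAt (fun w : ℂ => Gz Q B w x y) ((Gz Q B z ^ 2) x y) z := by
  have hzp : 0 < |z.im| := abs_pos.mpr hz
  rw [hasDerivAt_iff_tendsto_slope]
  have hnear : ∀ᶠ w : ℂ in nhds z, w.im ≠ 0 := by
    exact Complex.continuous_im.continuousAt.eventually_ne hz
  have hlim : Filter.Tendsto (fun w : ℂ => ∑ k, Gz Q B w x k * Gz Q B z k y)
      (nhdsWithin z {z}ᶜ) (nhds ((Gz Q B z ^ 2) x y)) := by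
    rw [pow_two, Matrix.mul_apply]
    have hc : ContinuousAt (fun w : ℂ => ∑ k, Gz Q B w x k * Gz Q B z k y) z := by
      refine tendsto_finsetSum _ fun k _ => ?_
      exact (cont_gz_z hB z hz x k).mul continuousAt_const
    exact hc.mono_left nhdsWithin_le_nhds
  refine hlim.congr' ?_
  filter_upwards [self_mem_nhdsWithin, nhdsWithin_le_nhds hnear] with w hw hw0
  have hwz : w - z ≠ 0 := sub_ne_zero.mpr hw
  rw [slope_def_module, ← Matrix.mul_apply]
  have e3 : Gz Q B w x y - Gz Q B z x y = (w - z) * (Gz Q B w * Gz Q B z) x y := by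
    rw [← Matrix.sub_apply, gz_res hB w z hw0 hz, Matrix.smul_apply, smul_eq_mul]
  rw [e3, smul_eq_mul]
  field_simp

theorem hasDeriv_mz_z (hB : PB Q B) (z : ℂ) (hz : z.im ≠ 0) :
    HasDerivAt (fun w : ℂ => mz Q B w) ((1 / (N : ℂ)) * (Gz Q B z ^ 2).trace) z := by
  unfold mz
  simp only [Matrix.trace, Matrix.diag_apply]
  refine HasDerivAt.const_mul _ ?_
  exact HasDerivAt.fun_sum fun k _ => hasDeriv_gz_z hB z hz k k

/-- the jet of an entry along `B + s Y` -/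
noncomputable def jetE (Q B Y : Matrix (Fin N) (Fin N) ℝ) (z : ℂ) (x y : Fin N) (r : ℕ) (s : ℝ) : ℂ :=
  (-1) ^ r * (r.factorial : ℂ) *
    (((Gz Q (B + s • Y) z * toC Y) ^ r * Gz Q (B + s • Y) z) x y)

/-- the jet of the normalised trace along `B + s Y` -/
noncomputable def jetM (Q B Y : Matrix (Fin N) (Fin N) ℝ) (z : ℂ) (r : ℕ) (s : ℝ) : ℂ :=
  (-1) ^ r * (r.factorial : ℂ) * ((1 / (N : ℂ)) *
    ((Gz Q (B + s • Y) z * toC Y) ^ r * Gz Q (B + s • Y) z).trace)

/-- derivative of the matrix `(G Y)^r G` -/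
private theorem hasDeriv_word (hB : PB Q B) (hY : PB Q Y) (z : ℂ) (hz : z.im ≠ 0) (r : ℕ) :
    ∀ (x y : Fin N) (s : ℝ), HasDerivAt
      (fun s : ℝ => ((Gz Q (B + s • Y) z * toC Y) ^ r * Gz Q (B + s • Y) z) x y)
      (-((r : ℂ) + 1) * ((Gz Q (B + s • Y) z * toC Y) ^ (r + 1) * Gz Q (B + s • Y) z) x y) s := by
  induction r with
  | zero =>
    intro x y s
    have := hasDeriv_gz hB hY z hz x y s
    simpa using this
  | succ r ih =>
    intro x y s
    have hw : ∀ t : ℝ, (Gz Q (B + t • Y) z * toC Y) ^ (r + 1) * Gz Q (B + t • Y) z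
        = Gz Q (B + t • Y) z * toC Y * ((Gz Q (B + t • Y) z * toC Y) ^ r * Gz Q (B + t • Y) z) := by
      intro t
      rw [pow_succ', Matrix.mul_assoc]
    have hfun : (fun t : ℝ => ((Gz Q (B + t • Y) z * toC Y) ^ (r + 1) * Gz Q (B + t • Y) z) x y)
        = fun t : ℝ => ∑ k, ∑ l, Gz Q (B + t • Y) z x k * toC Y k l
          * ((Gz Q (B + t • Y) z * toC Y) ^ r * Gz Q (B + t • Y) z) l y := by
      funext t
      rw [hw t, triple_apply]
    rw [hfun]
    have hd : HasDerivAt (fun t : ℝ => ∑ k, ∑ l, Gz Q (B + t • Y) z x k * toC Y k l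
          * ((Gz Q (B + t • Y) z * toC Y) ^ r * Gz Q (B + t • Y) z) l y)
        (∑ k, ∑ l, ((-((Gz Q (B + s • Y) z * toC Y * Gz Q (B + s • Y) z) x k)) * toC Y k l
          * ((Gz Q (B + s • Y) z * toC Y) ^ r * Gz Q (B + s • Y) z) l y
          + Gz Q (B + s • Y) z x k * toC Y k l
          * (-((r : ℂ) + 1) * ((Gz Q (B + s • Y) z * toC Y) ^ (r + 1) * Gz Q (B + s • Y) z) l y))) s := by
      refine HasDerivAt.fun_sum fun k _ => HasDerivAt.fun_sum fun l _ => ?_
      exact ((hasDeriv_gz hB hY z hz x k s).mul_const _).mul (ih l y s)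
    convert hd using 1
    simp only [Finset.sum_add_distrib]
    have t1 : ∑ k, ∑ l, ((-((Gz Q (B + s • Y) z * toC Y * Gz Q (B + s • Y) z) x k)) * toC Y k l
          * ((Gz Q (B + s • Y) z * toC Y) ^ r * Gz Q (B + s • Y) z) l y)
        = -((Gz Q (B + s • Y) z * toC Y) ^ (r + 1 + 1) * Gz Q (B + s • Y) z) x y := by
      have : ((Gz Q (B + s • Y) z * toC Y) ^ (r + 1 + 1) * Gz Q (B + s • Y) z)
          = (Gz Q (B + s • Y) z * toC Y * Gz Q (B + s • Y) z) * toC Y
            * ((Gz Q (B + s • Y) z * toC Y) ^ r * Gz Q (B + s • Y) z) := by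
        rw [pow_succ', pow_succ']
        simp only [Matrix.mul_assoc]
      rw [this, triple_apply, ← Finset.sum_neg_distrib]
      refine Finset.sum_congr rfl fun k _ => ?_
      rw [← Finset.sum_neg_distrib]
      refine Finset.sum_congr rfl fun l _ => ?_
      ring
    have t2 : ∑ k, ∑ l, (Gz Q (B + s • Y) z x k * toC Y k l
          * (-((r : ℂ) + 1) * ((Gz Q (B + s • Y) z * toC Y) ^ (r + 1) * Gz Q (B + s • Y) z) l y))
        = -((r : ℂ) + 1) * ((Gz Q (B + s • Y) z * toC Y) ^ (r + 1 + 1) * Gz Q (B + s • Y) z) x y := by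
      have : ((Gz Q (B + s • Y) z * toC Y) ^ (r + 1 + 1) * Gz Q (B + s • Y) z)
          = Gz Q (B + s • Y) z * toC Y
            * ((Gz Q (B + s • Y) z * toC Y) ^ (r + 1) * Gz Q (B + s • Y) z) := by
        rw [pow_succ' _ (r + 1), Matrix.mul_assoc]
      rw [this, triple_apply, Finset.mul_sum]
      refine Finset.sum_congr rfl fun k _ => ?_
      rw [Finset.mul_sum]
      refine Finset.sum_congr rfl fun l _ => ?_
      ring
    rw [t1, t2]
    push_cast
    ring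

theorem jet_entry (hB : PB Q B) (hY : PB Q Y) (z : ℂ) (hz : z.im ≠ 0) (x y : Fin N) (r : ℕ)
    (s : ℝ) : HasDerivAt (jetE Q B Y z x y r) (jetE Q B Y z x y (r + 1) s) s := by
  have h := (hasDeriv_word hB hY z hz r x y s).const_mul ((-1) ^ r * (r.factorial : ℂ))
  have e : jetE Q B Y z x y (r + 1) s = (-1) ^ r * (r.factorial : ℂ) * (-((r : ℂ) + 1) *
      ((Gz Q (B + s • Y) z * toC Y) ^ (r + 1) * Gz Q (B + s • Y) z) x y) := by
    unfold jetE
    rw [Nat.factorial_succ]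
    push_cast
    ring
  rw [e]
  exact h

theorem jet_mz (hB : PB Q B) (hY : PB Q Y) (z : ℂ) (hz : z.im ≠ 0) (r : ℕ) (s : ℝ) :
    HasDerivAt (jetM Q B Y z r) (jetM Q B Y z (r + 1) s) s := by
  have h := ((HasDerivAt.fun_sum (u := Finset.univ) fun (k : Fin N) _ =>
    hasDeriv_word hB hY z hz r k k s).const_mul (1 / (N : ℂ))).const_mul
      ((-1) ^ r * (r.factorial : ℂ))
  have e : jetM Q B Y z (r + 1) s = (-1) ^ r * (r.factorial : ℂ) * ((1 / (N : ℂ)) *
      ∑ k : Fin N, -((r : ℂ) + 1) *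
        ((Gz Q (B + s • Y) z * toC Y) ^ (r + 1) * Gz Q (B + s • Y) z) k k) := by
    unfold jetM
    rw [Nat.factorial_succ, ← Finset.mul_sum]
    simp only [Matrix.trace, Matrix.diag_apply]
    push_cast
    ring
  rw [e]
  exact h

theorem jetE_zero (x y : Fin N) (z : ℂ) (s : ℝ) :
    jetE Q B Y z x y 0 s = Gz Q (B + s • Y) z x y := by
  simp [jetE]

theorem jetM_zero (z : ℂ) (s : ℝ) : jetM Q B Y z 0 s = mz Q (B + s • Y) z := by
  simp [jetM, mz]

end Pool.Agent.ZR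

end

section

/-!
# ZR part M : definitions and interface Props of the final assembly (helper41)

Families `x : Fin N → ℝ` instead of multisets.  `n` even, `t = n^(-δ)`.
-/


open MeasureTheory ProbabilityTheory Matrix
open scoped ENNReal

namespace Pool.Agent.ZR

/-- test functions -/
def Tst (φ : ℝ → ℝ) : Prop := ContDiff ℝ 1 φ ∧ HasCompactSupport φ

/-- linear statistic of a multiset -/
noncomputable def linS (s : Multiset ℝ) (φ : ℝ → ℝ) (c y : ℝ) : ℝ :=
  (s.map fun l => φ (c * (l - y))).sum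

/-- linear statistic of a family -/
noncomputable def linF {N : ℕ} (x : Fin N → ℝ) (φ : ℝ → ℝ) (c y : ℝ) : ℝ :=
  ∑ i, φ (c * (x i - y))

/-- sum over distinct tuples, exactly as in S19275 -/
noncomputable def distS {k : ℕ} (F : (Fin k → ℝ) → ℝ) (c y : ℝ) (s : Multiset ℝ) : ℝ :=
  ∑ f : Fin k ↪ Fin s.toList.length, F (fun t => c * (s.toList.get (f t) - y))

/-- `(1/n) ∑ η/((x_i - y)² + η²)` = imaginary part of the normalised trace at `y + i η` -/
noncomputable def imF (n : ℕ) {N : ℕ} (x : Fin N → ℝ) (y η : ℝ) : ℝ :=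
  (1 / (n : ℝ)) * ∑ i, η / ((x i - y) ^ 2 + η ^ 2)

/-- smoothed counting function of a family -/
noncomputable def arcF {N : ℕ} (x : Fin N → ℝ) (y η : ℝ) : ℝ := ∑ i, Real.arctan ((y - x i) / η)

open Classical in
/-- number of points `≤ y` -/
noncomputable def cntF {N : ℕ} (x : Fin N → ℝ) (y : ℝ) : ℕ :=
  (Finset.univ.filter fun i => x i ≤ y).card

open Classical in
/-- number of points in `[y - r, y + r]` -/
noncomputable def cntIF {N : ℕ} (x : Fin N → ℝ) (y r : ℝ) : ℕ :=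
  (Finset.univ.filter fun i => |x i - y| ≤ r).card

/-- sorted eigenvalues as a family -/
noncomputable def vecS {N : ℕ} (A : Matrix (Fin N) (Fin N) ℝ) : Fin N → ℝ := fun i => evs A i

/-- sorted eigenvalues with one zero erased, as a family of length `N - 1` -/
noncomputable def vecP {N : ℕ} (A : Matrix (Fin N) (Fin N) ℝ) : Fin (N - 1) → ℝ :=
  fun i => evp A i

/-- Poisson kernel -/
noncomputable def pk (h u : ℝ) : ℝ := h / (Real.pi * (u ^ 2 + h ^ 2))

/-- Poisson smoothing -/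
noncomputable def smo (φ : ℝ → ℝ) (h u : ℝ) : ℝ := ∫ v, φ v * pk h (u - v)

/-! ### The probability spaces -/

/-- the space of sign patterns -/
abbrev Pat (n : ℕ) : Type := Fin n → Fin n → Bool

/-- the space of Gaussian arrays -/
abbrev Arr (n : ℕ) : Type := Fin n × Fin n → ℝ

/-- uniform measure on `Sn n` -/
noncomputable def PU (n : ℕ) : Measure (Pat n) :=
  ((Sn n).card : ℝ≥0∞)⁻¹ • ∑ σ ∈ Sn n, Measure.dirac σ

/-- pattern and one array -/
noncomputable def P2 (n : ℕ) : Measure (Pat n × Arr n) := (PU n).prod (gm n)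

/-- pattern and two arrays -/
noncomputable def P3 (n : ℕ) : Measure ((Pat n × Arr n) × Arr n) := (P2 n).prod (gm n)

/-! ### The relocated ensemble -/

/-- bulk indices -/
def bulkI (n : ℕ) (κ : ℝ) (i : ℕ) : Prop := κ * n ≤ i ∧ (i : ℝ) ≤ (1 - κ) * n ∧ i < n - 1

/-- the good event for (pattern, array) -/
def goodE (n : ℕ) (E κ c0 θ : ℝ) (σ : Pat n) (Y : Arr n) : Prop :=
  (∀ i < n - 1, |evp (H0 σ) i| ≤ (n : ℝ) ^ θ) ∧
  (|2 - evs (Wv (N := n) (1 / (n : ℝ)) Y) (n - 1)| +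
    ∑ i ∈ Finset.range (n - 1), |evp (H0 σ) i - evs (Wv (N := n) (1 / (n : ℝ)) Y) i|
      ≤ (n : ℝ) ^ θ) ∧
  κ * n < (cntP (H0 σ) (E - c0) : ℝ) ∧
  κ * n < (cnt (Wv (N := n) (1 / (n : ℝ)) Y) (E - c0) : ℝ) ∧
  (cntP (H0 σ) (E + c0) : ℝ) < (1 - κ) * n ∧
  (cnt (Wv (N := n) (1 / (n : ℝ)) Y) (E + c0) : ℝ) < (1 - κ) * n

open Classical in
/-- the relocated vector: the eigenvalues of `H_0` for the bulk indices on the good event, the
eigenvalues of the independent GOE matrix otherwise -/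
noncomputable def asharp (n : ℕ) (E κ c0 θ : ℝ) (σ : Pat n) (Y : Arr n) : Fin n → ℝ := fun i =>
  if goodE n E κ c0 θ σ Y ∧ bulkI n κ i then evp (H0 σ) i
  else evs (Wv (N := n) (1 / (n : ℝ)) Y) i

/-- the Gaussian divisible matrix started from the relocated vector -/
noncomputable def AA (n : ℕ) (δ E κ c0 θ : ℝ) (ω : (Pat n × Arr n) × Arr n) :
    Matrix (Fin n) (Fin n) ℝ :=
  At (1 / (n : ℝ)) ((n : ℝ) ^ (-δ)) (asharp n E κ c0 θ ω.1.1 ω.1.2) ω.2

/-! ### Averages over the window -/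

/-- window average for the sign matrices -/
noncomputable def QH (n : ℕ) {k : ℕ} (φ : Fin k → ℝ → ℝ) (E b : ℝ) : ℝ :=
  (1 / (2 * b)) * ∫ x in (E - b)..(E + b),
    EU (fun σ : Pat n => ∏ j, linF (vecP (H0 σ)) (φ j) ((n : ℝ) * rho x) x)

/-- window average for the GOE -/
noncomputable def QG (n : ℕ) {k : ℕ} (φ : Fin k → ℝ → ℝ) (E b : ℝ) : ℝ :=
  (1 / (2 * b)) * ∫ x in (E - b)..(E + b),
    ∫ X, ∏ j, linF (vecS (Wv (N := n) (1 / (n : ℝ)) X)) (φ j) ((n : ℝ) * rho x) x ∂(gm n)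

/-- GOE stationarity (to be proved in part K): the matrix `At` started from the eigenvalues of an
independent GOE matrix has the spectrum of a GOE matrix. -/
def KStat : Prop :=
  ∀ (n : ℕ) (t : ℝ), 0 < n → 0 < t → ∀ Φ : (Fin n → ℝ) → ℝ≥0∞, Measurable Φ →
    ∫⁻ Y, ∫⁻ X, Φ (vecS (At (1 / (n : ℝ)) t (vecS (Wv (N := n) (1 / (n : ℝ)) Y)) X))
        ∂(gm n) ∂(gm n)
      = ∫⁻ X, Φ (vecS (Wv (N := n) (1 / (n : ℝ)) X)) ∂(gm n)

/-- The main convergence theorem for products of linear statistics. -/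
def MainFull : Prop :=
  ∀ (k : ℕ) (φ : Fin (k + 1) → ℝ → ℝ), (∀ j, Tst (φ j)) → ∀ E ε : ℝ, -2 < E → E < 2 →
    0 < ε → ε < 1 →
    Filter.Tendsto (fun m : ℕ => QH (2 * m) φ E (((2 * m : ℕ) : ℝ) ^ (-1 + ε))
      - QG (2 * m) φ E (((2 * m : ℕ) : ℝ) ^ (-1 + ε))) Filter.atTop (nhds 0)

end Pool.Agent.ZR

end

section

/-!
# ZR/PB3 : nets and operator norms (helper2)

The lattice net `y(k)_i = (k_i - n)/n`, `k : Fin n → Fin (2n+1)`; if `∑ A_ij² ≤ 16 n` and
`|y^T A y| ≤ s` for all net points of norm at most one, then `|v^T A v| ≤ (s+8) |v|²` for all `v`;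
for symmetric `A` this gives `OpLe (toC A) (s+8)`.
-/


open MeasureTheory ProbabilityTheory Matrix

namespace Pool.Agent.ZR.PB

/-- net points -/
noncomputable def ny {n : ℕ} (k : Fin n → Fin (2 * n + 1)) : Fin n → ℝ :=
  fun i => (((k i : ℕ) : ℝ) - n) / n

lemma bil_le {n : ℕ} (A : Matrix (Fin n) (Fin n) ℝ) (u w : Fin n → ℝ) :
    (∑ i, ∑ j, u i * A i j * w j) ^ 2
      ≤ (∑ i, ∑ j, A i j ^ 2) * ((∑ i, u i ^ 2) * ∑ j, w j ^ 2) := by
  have h := Finset.sum_mul_sq_le_sq_mul_sq (Finset.univ : Finset (Fin n × Fin n))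
    (fun p => A p.1 p.2) (fun p => u p.1 * w p.2)
  have e1 : ∑ p : Fin n × Fin n, A p.1 p.2 * (u p.1 * w p.2)
      = ∑ i, ∑ j, u i * A i j * w j := by
    rw [Fintype.sum_prod_type]
    exact Finset.sum_congr rfl fun i _ => Finset.sum_congr rfl fun j _ => by ring
  have e2 : ∑ p : Fin n × Fin n, A p.1 p.2 ^ 2 = ∑ i, ∑ j, A i j ^ 2 := by
    rw [Fintype.sum_prod_type]
  have e3 : ∑ p : Fin n × Fin n, (u p.1 * w p.2) ^ 2 = (∑ i, u i ^ 2) * ∑ j, w j ^ 2 := by
    rw [Fintype.sum_prod_type, Finset.sum_mul_sum]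
    simp only [mul_pow]
  rw [e1, e2, e3] at h
  exact h

lemma round_one (n : ℕ) (hn : 0 < n) (v : ℝ) (hv : |v| ≤ 1) :
    ∃ k : Fin (2 * n + 1), |(((k : ℕ) : ℝ) - n) / n| ≤ |v| ∧ |v - (((k : ℕ) : ℝ) - n) / n| ≤ 1 / n := by
  have hn' : (0 : ℝ) < n := Nat.cast_pos.2 hn
  rcases le_total 0 v with h0 | h0
  · set f := ⌊(n : ℝ) * v⌋₊ with hf
    have h1 : (f : ℝ) ≤ n * v := Nat.floor_le (by positivity)
    have h2 : (n : ℝ) * v < f + 1 := Nat.lt_floor_add_one _
    have h3 : v ≤ 1 := (le_abs_self v).trans hv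
    have h4 : f ≤ n := by
      have : (f : ℝ) ≤ n := h1.trans (by nlinarith)
      exact_mod_cast this
    refine ⟨⟨n + f, by omega⟩, ?_, ?_⟩
    · have e : ((((⟨n + f, by omega⟩ : Fin (2 * n + 1)) : ℕ) : ℝ) - n) / n = f / n := by
        push_cast; ring
      rw [e, abs_of_nonneg (by positivity), abs_of_nonneg h0, div_le_iff₀ hn']
      linarith
    · have e : ((((⟨n + f, by omega⟩ : Fin (2 * n + 1)) : ℕ) : ℝ) - n) / n = f / n := by
        push_cast; ring
      rw [e, abs_le]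
      constructor
      · rw [le_sub_iff_add_le, ← sub_nonneg]
        have : v - (-(1 / (n : ℝ)) + f / n) = (n * v - f + 1) / n := by field_simp; ring
        rw [this]
        apply div_nonneg _ hn'.le
        linarith
      · rw [sub_le_iff_le_add, ← sub_nonneg]
        have : (1 / (n : ℝ)) + f / n - v = (f + 1 - n * v) / n := by field_simp; ring
        rw [this]
        apply div_nonneg _ hn'.le
        linarith
  · set f := ⌊(n : ℝ) * (-v)⌋₊ with hf
    have h0' : 0 ≤ -v := by linarith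
    have h1 : (f : ℝ) ≤ n * (-v) := Nat.floor_le (by positivity)
    have h2 : (n : ℝ) * (-v) < f + 1 := Nat.lt_floor_add_one _
    have h3 : -v ≤ 1 := (neg_le_abs v).trans hv
    have h4 : f ≤ n := by
      have : (f : ℝ) ≤ n := h1.trans (by nlinarith)
      exact_mod_cast this
    refine ⟨⟨n - f, by omega⟩, ?_, ?_⟩
    · have e : ((((⟨n - f, by omega⟩ : Fin (2 * n + 1)) : ℕ) : ℝ) - n) / n = -(f / n) := by
        simp only [Nat.cast_sub h4]; ring
      rw [e, abs_neg, abs_of_nonneg (by positivity), abs_of_nonpos h0, div_le_iff₀ hn']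
      linarith
    · have e : ((((⟨n - f, by omega⟩ : Fin (2 * n + 1)) : ℕ) : ℝ) - n) / n = -(f / n) := by
        simp only [Nat.cast_sub h4]; ring
      rw [e, abs_le]
      constructor
      · rw [← sub_nonneg]
        have : v - -(f / (n : ℝ)) - -(1 / (n : ℝ)) = (n * v + f + 1) / n := by field_simp; ring
        rw [this]
        apply div_nonneg _ hn'.le
        linarith
      · rw [← sub_nonneg]
        have : (1 / (n : ℝ)) - (v - -(f / (n : ℝ))) = (1 - n * v - f) / n := by field_simp; ring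
        rw [this]
        apply div_nonneg _ hn'.le
        linarith

lemma exists_ny {n : ℕ} (hn : 0 < n) (v : Fin n → ℝ) (hv : ∑ i, v i ^ 2 ≤ 1) :
    ∃ k : Fin n → Fin (2 * n + 1), ∑ i, ny k i ^ 2 ≤ 1 ∧ ∑ i, (v i - ny k i) ^ 2 ≤ 1 / n := by
  have hn' : (0 : ℝ) < n := Nat.cast_pos.2 hn
  have h1 : ∀ i, |v i| ≤ 1 := by
    intro i
    have : v i ^ 2 ≤ 1 := (Finset.single_le_sum (f := fun i => v i ^ 2)
      (fun j _ => sq_nonneg _) (Finset.mem_univ i)).trans hv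
    exact abs_le_one_iff_mul_self_le_one.2 (by rw [← sq]; exact this)
  choose k hk1 hk2 using fun i => round_one n hn (v i) (h1 i)
  refine ⟨k, ?_, ?_⟩
  · refine le_trans (Finset.sum_le_sum fun i _ => ?_) hv
    exact sq_le_sq.2 (hk1 i)
  · calc ∑ i, (v i - ny k i) ^ 2 ≤ ∑ _i : Fin n, (1 / (n : ℝ)) ^ 2 := by
          refine Finset.sum_le_sum fun i _ => ?_
          rw [sq_le_sq, abs_of_pos (show (0 : ℝ) < 1 / n by positivity)]
          exact hk2 i
      _ = 1 / n := by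
          rw [Finset.sum_const, Finset.card_univ, Fintype.card_fin, nsmul_eq_mul]
          field_simp

lemma qf_net {n : ℕ} (hn : 0 < n) (A : Matrix (Fin n) (Fin n) ℝ) (s : ℝ)
    (hA : ∑ i, ∑ j, A i j ^ 2 ≤ 16 * n)
    (hs : ∀ k : Fin n → Fin (2 * n + 1), ∑ i, ny k i ^ 2 ≤ 1 → |qf A (ny k)| ≤ s)
    (v : Fin n → ℝ) (hv : ∑ i, v i ^ 2 ≤ 1) : |qf A v| ≤ s + 8 := by
  have hn' : (0 : ℝ) < n := Nat.cast_pos.2 hn
  obtain ⟨k, hk1, hk2⟩ := exists_ny hn v hv
  set y := ny k with hy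
  have hA0 : 0 ≤ ∑ i, ∑ j, A i j ^ 2 :=
    Finset.sum_nonneg fun i _ => Finset.sum_nonneg fun j _ => sq_nonneg _
  have e : qf A v = (∑ i, ∑ j, (v i - y i) * A i j * v j)
      + (∑ i, ∑ j, y i * A i j * (v j - y j)) + qf A y := by
    unfold qf
    rw [← Finset.sum_add_distrib, ← Finset.sum_add_distrib]
    refine Finset.sum_congr rfl fun i _ => ?_
    rw [← Finset.sum_add_distrib, ← Finset.sum_add_distrib]
    exact Finset.sum_congr rfl fun j _ => by ring
  have hd0 : 0 ≤ ∑ i, (v i - y i) ^ 2 := Finset.sum_nonneg fun i _ => sq_nonneg _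
  have hv0 : 0 ≤ ∑ i, v i ^ 2 := Finset.sum_nonneg fun i _ => sq_nonneg _
  have hy0 : 0 ≤ ∑ i, y i ^ 2 := Finset.sum_nonneg fun i _ => sq_nonneg _
  have key : ∀ a b c : ℝ, 0 ≤ a → 0 ≤ b → a ≤ 16 * n → b ≤ 1 / n → c ^ 2 ≤ a * b → |c| ≤ 4 := by
    intro a b c ha hb ha' hb' hc
    have : a * b ≤ 16 := by
      calc a * b ≤ 16 * n * (1 / n) := mul_le_mul ha' hb' hb (by positivity)
        _ = 16 := by field_simp
    exact abs_le_of_sq_le_sq (by nlinarith) (by norm_num)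
  have h1 : |∑ i, ∑ j, (v i - y i) * A i j * v j| ≤ 4 := by
    refine key _ ((∑ i, (v i - y i) ^ 2) * ∑ j, v j ^ 2) _ hA0 (by positivity) hA ?_
      (bil_le A (fun i => v i - y i) v)
    calc (∑ i, (v i - y i) ^ 2) * ∑ j, v j ^ 2 ≤ (1 / n) * 1 :=
          mul_le_mul hk2 hv hv0 (by positivity)
      _ = 1 / n := mul_one _
  have h2 : |∑ i, ∑ j, y i * A i j * (v j - y j)| ≤ 4 := by
    refine key _ ((∑ i, y i ^ 2) * ∑ j, (v j - y j) ^ 2) _ hA0 (by positivity) hA ?_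
      (bil_le A y (fun j => v j - y j))
    calc (∑ i, y i ^ 2) * ∑ j, (v j - y j) ^ 2 ≤ 1 * (1 / n) :=
          mul_le_mul hk1 hk2 hd0 (by norm_num)
      _ = 1 / n := one_mul _
  have h3 := hs k hk1
  rw [e]
  have a1 := abs_add_le ((∑ i, ∑ j, (v i - y i) * A i j * v j)
      + (∑ i, ∑ j, y i * A i j * (v j - y j))) (qf A y)
  have a2 := abs_add_le (∑ i, ∑ j, (v i - y i) * A i j * v j)
      (∑ i, ∑ j, y i * A i j * (v j - y j))
  linarith

lemma qf_smul {n : ℕ} (A : Matrix (Fin n) (Fin n) ℝ) (c : ℝ) (v : Fin n → ℝ) :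
    qf A (fun i => c * v i) = c ^ 2 * qf A v := by
  unfold qf
  rw [Finset.mul_sum]
  refine Finset.sum_congr rfl fun i _ => ?_
  rw [Finset.mul_sum]
  exact Finset.sum_congr rfl fun j _ => by ring

lemma qf_hom {n : ℕ} (A : Matrix (Fin n) (Fin n) ℝ) (L : ℝ)
    (h : ∀ v : Fin n → ℝ, ∑ i, v i ^ 2 ≤ 1 → |qf A v| ≤ L) (v : Fin n → ℝ) :
    |qf A v| ≤ L * ∑ i, v i ^ 2 := by
  have hv0 : 0 ≤ ∑ i, v i ^ 2 := Finset.sum_nonneg fun i _ => sq_nonneg _
  rcases hv0.eq_or_lt with h0 | h0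
  · have hz : ∀ i, v i = 0 := by
      intro i
      have := (Finset.sum_eq_zero_iff_of_nonneg (fun i _ => sq_nonneg (v i))).1 h0.symm i
        (Finset.mem_univ i)
      exact pow_eq_zero_iff (two_ne_zero) |>.1 this
    have : qf A v = 0 := by
      unfold qf
      simp [hz]
    rw [this, ← h0]
    simp
  · set r := Real.sqrt (∑ i, v i ^ 2) with hr
    have hr0 : 0 < r := Real.sqrt_pos.2 h0
    have hr2 : r ^ 2 = ∑ i, v i ^ 2 := Real.sq_sqrt hv0
    have h1 := h (fun i => r⁻¹ * v i) (by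
      simp only [mul_pow]
      rw [← Finset.mul_sum, ← hr2, inv_pow, inv_mul_cancel₀ (by positivity)])
    rw [qf_smul, abs_mul, abs_of_nonneg (by positivity)] at h1
    rw [← hr2]
    have h2 : |qf A v| = r ^ 2 * (r⁻¹ ^ 2 * |qf A v|) := by
      rw [inv_pow, ← mul_assoc, mul_inv_cancel₀ (by positivity), one_mul]
    rw [h2]
    calc r ^ 2 * (r⁻¹ ^ 2 * |qf A v|) ≤ r ^ 2 * L := mul_le_mul_of_nonneg_left h1 (by positivity)
      _ = L * r ^ 2 := mul_comm _ _

lemma real_op {n : ℕ} (A : Matrix (Fin n) (Fin n) ℝ) (hA : ∀ i j, A i j = A j i) (L : ℝ) (hL : 0 < L)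
    (h : ∀ v : Fin n → ℝ, |qf A v| ≤ L * ∑ i, v i ^ 2) (x : Fin n → ℝ) :
    ∑ i, (∑ j, A i j * x j) ^ 2 ≤ L ^ 2 * ∑ i, x i ^ 2 := by
  set u : Fin n → ℝ := fun i => ∑ j, A i j * x j with hu
  have h1 := (abs_le.1 (h (fun i => u i + L * x i))).2
  have h2 := (abs_le.1 (h (fun i => u i - L * x i))).1
  have e1 : qf A (fun i => u i + L * x i) - qf A (fun i => u i - L * x i)
      = 4 * L * ∑ i, u i ^ 2 := by
    have e2 : qf A (fun i => u i + L * x i) - qf A (fun i => u i - L * x i)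
        = 2 * L * (∑ i, ∑ j, u i * (A i j * x j)) + 2 * L * (∑ i, ∑ j, (A j i * x i) * u j) := by
      unfold qf
      rw [← Finset.sum_sub_distrib, Finset.mul_sum, Finset.mul_sum, ← Finset.sum_add_distrib]
      refine Finset.sum_congr rfl fun i _ => ?_
      rw [← Finset.sum_sub_distrib, Finset.mul_sum, Finset.mul_sum, ← Finset.sum_add_distrib]
      refine Finset.sum_congr rfl fun j _ => ?_
      rw [hA j i]
      ring
    rw [e2]
    have e3 : ∑ i, ∑ j, u i * (A i j * x j) = ∑ i, u i ^ 2 := by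
      refine Finset.sum_congr rfl fun i _ => ?_
      rw [← Finset.mul_sum, sq]
    have e4 : ∑ i, ∑ j, (A j i * x i) * u j = ∑ i, u i ^ 2 := by
      rw [Finset.sum_comm]
      refine Finset.sum_congr rfl fun i _ => ?_
      rw [← Finset.sum_mul, sq]
    rw [e3, e4]
    ring
  have e5 : (∑ i, (u i + L * x i) ^ 2) + (∑ i, (u i - L * x i) ^ 2)
      = 2 * (∑ i, u i ^ 2) + 2 * L ^ 2 * ∑ i, x i ^ 2 := by
    rw [← Finset.sum_add_distrib, Finset.mul_sum, Finset.mul_sum, ← Finset.sum_add_distrib]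
    exact Finset.sum_congr rfl fun i _ => by ring
  have h3 : 4 * L * ∑ i, u i ^ 2 ≤ L * (2 * (∑ i, u i ^ 2) + 2 * L ^ 2 * ∑ i, x i ^ 2) := by
    rw [← e5, ← e1, mul_add]
    linarith
  have h4 : 4 * ∑ i, u i ^ 2 ≤ 2 * (∑ i, u i ^ 2) + 2 * L ^ 2 * ∑ i, x i ^ 2 := by
    have := (mul_le_mul_iff_right₀ hL).1 (show L * (4 * ∑ i, u i ^ 2)
      ≤ L * (2 * (∑ i, u i ^ 2) + 2 * L ^ 2 * ∑ i, x i ^ 2) by linarith)
    exact this
  linarith

lemma opLe_of_qf {n : ℕ} (A : Matrix (Fin n) (Fin n) ℝ) (hA : ∀ i j, A i j = A j i) (L : ℝ)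
    (hL : 0 < L) (h : ∀ v : Fin n → ℝ, |qf A v| ≤ L * ∑ i, v i ^ 2) : OpLe (toC A) L := by
  refine ⟨hL.le, fun u => ?_⟩
  have h1 := real_op A hA L hL h (fun i => (u i).re)
  have h2 := real_op A hA L hL h (fun i => (u i).im)
  have e : ∀ i, ‖(toC A *ᵥ u) i‖ ^ 2
      = (∑ j, A i j * (u j).re) ^ 2 + (∑ j, A i j * (u j).im) ^ 2 := by
    intro i
    have hre : ((toC A *ᵥ u) i).re = ∑ j, A i j * (u j).re := by
      simp [toC, Matrix.mulVec, dotProduct, Complex.re_sum]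
    have him : ((toC A *ᵥ u) i).im = ∑ j, A i j * (u j).im := by
      simp [toC, Matrix.mulVec, dotProduct, Complex.im_sum]
    rw [← Complex.normSq_eq_norm_sq, Complex.normSq_apply, hre, him]
    ring
  have e2 : ∀ i, ‖u i‖ ^ 2 = (u i).re ^ 2 + (u i).im ^ 2 := by
    intro i
    rw [← Complex.normSq_eq_norm_sq, Complex.normSq_apply]
    ring
  simp only [e, e2, Finset.sum_add_distrib, mul_add]
  exact add_le_add h1 h2

lemma OpLe.mono {n : ℕ} {A : Matrix (Fin n) (Fin n) ℂ} {L L' : ℝ} (h : OpLe A L) (hL : L ≤ L') :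
    OpLe A L' := by
  refine ⟨h.1.trans hL, fun u => (h.2 u).trans ?_⟩
  apply mul_le_mul_of_nonneg_right _ (Finset.sum_nonneg fun i _ => sq_nonneg _)
  exact pow_le_pow_left₀ h.1 hL 2

end Pool.Agent.ZR.PB

end

section

/-!
# ZR/C4 : monotonicity in the imaginary part, logarithmic bounds, nuclear norm

Let `z = E + iu`.  By `spec_pb`, `Im G_xx(E+iu) = ∑_k q_k U_xk² u/((lam_k-E)²+u²)`.
* `im_mono`: `u ↦ u Im G_xx(E+iu)` is increasing (`u²/(a²+u²)` is) and `im_anti`: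
  `u ↦ Im G_xx(E+iu)/u` is decreasing.
* `gam_shift`: for `|E'-E| ≤ u`: `(lam-E)² + u² ≤ 2(lam-E')² + 2(E'-E)² + u² ≤ 3((lam-E')²+u²)`,
  hence `Im G_xx(E'+iu) ≤ 3 Im G_xx(E+iu)`.
* `gam_scale`: from `GamLe Q B E η Γ`, for `0 < η' ≤ η`: `GamLe Q B E η' ((η/η') Γ)`
  (for `u ≥ η` by `Γ ≤ (η/η')Γ` - here `0 ≤ Γ` because `Γ ≥ Im G_xx ≥ 0` if `N > 0` -, for
  `η' ≤ u < η` by `im_mono`: `u Im G_xx(E+iu) ≤ η Γ`).
* `entry_log`: `|G_xy(E+iη)| ≤ 1 + Γ log(1/η)` for `η ≤ 1`: `d/du G_xy(E+iu) = i (G²)_xy`, and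
  `|(G²)_xy| ≤ √(Im G_xx Im G_yy)/u ≤ Γ/u` (`g_pow_entry`), `|G_xy(E+i)| ≤ 1`; integrate over
  `u ∈ [η, 1]` (e.g. `norm_image_sub_le_of_norm_deriv_le_segment`-type bound with the primitive
  `Γ log u`, or `intervalIntegral`).  The derivative of `u ↦ 1/(lam - E - iu)` is
  `i/(lam - E - iu)²`.  For `η ≥ 1` simply `|G_xy| ≤ 1`.
* `nuc_gz`: `G = ∑_k (q_k/(lam_k - z)) u_k u_kᵀ`, so `NuLe G τ` for `τ ≥ ∑_k q_k/|lam_k - z|`
  (absorb the phase of `1/(lam_k - z)` in the vector `u_k`).  And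
  `1/|lam - z| ≤ 2 ∫_η^∞ du/((lam-E)²+u²)`: with `D = max(|lam-E|, η) ≤ |lam-z|` the integral is at
  least `∫_D^∞ du/(2u²) = 1/(2D) ≥ 1/(2|lam - z|)`.  Since `du/((lam-E)²+u²) = Im(1/(lam-E-iu)) du/u`,
  summing over `k`: `∑_k q_k/|lam_k - z| ≤ 2 ∫_η^∞ Im tr G(E+iu) du/u ≤ 2 N Γ log(1/η) + 2N` for
  `η ≤ 1` (`Im tr G ≤ N Γ` for `u ≤ 1`, `≤ N/u` for `u ≥ 1`).  To avoid improper integrals one may
  replace the integral by the dyadic sum over `u = 2^j η`, or integrate up to a finite `R` and use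
  `1/|lam - z| ≤ 2∫_η^R + 2/R`-type bounds; any proof is fine.
* `nuc_mul`: used to bound traces: if `NuLe A τ` and `OpLe M L` then `|tr(A M)| ≤ τ L`
  (`tr(u vᵀ M) = vᵀ M u`, Cauchy-Schwarz).
-/


open MeasureTheory ProbabilityTheory Matrix

namespace Pool.Agent.ZR

variable {N : ℕ} {Q B : Matrix (Fin N) (Fin N) ℝ}

/-- spectral representation together with the formula for `Im G_xx` -/
private theorem C4_spec (h : PB Q B) :
    ∃ (U : Matrix (Fin N) (Fin N) ℝ) (lam q : Fin N → ℝ),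
      U * Uᵀ = 1 ∧ Uᵀ * U = 1 ∧ (∀ k, q k = 0 ∨ q k = 1) ∧
      (∀ z : ℂ, z.im ≠ 0 → Gz Q B z
        = toC U * Matrix.diagonal (fun k => (q k : ℂ) / ((lam k : ℂ) - z)) * toC Uᵀ) ∧
      ∀ (E u : ℝ), 0 < u → ∀ x, (Gz Q B (⟨E, u⟩ : ℂ) x x).im
        = ∑ k, q k * U x k ^ 2 * (u / ((lam k - E) ^ 2 + u ^ 2)) := by
  obtain ⟨U, lam, q, h1, h2, hq, -, -, hG⟩ := spec_pb h
  refine ⟨U, lam, q, h1, h2, hq, hG, ?_⟩
  intro E u hu x
  have hz : (⟨E, u⟩ : ℂ).im ≠ 0 := hu.ne'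
  rw [hG _ hz, C3_entry, Complex.im_sum]
  refine Finset.sum_congr rfl fun k _ => ?_
  have e3 : (U x k : ℂ) * ((q k : ℂ) / ((lam k : ℂ) - (⟨E, u⟩ : ℂ))) * (U x k : ℂ)
      = ((q k * U x k ^ 2 : ℝ) : ℂ) * ((lam k : ℂ) - (⟨E, u⟩ : ℂ))⁻¹ := by
    push_cast
    ring
  rw [e3, Complex.im_ofReal_mul, Complex.inv_im, Complex.normSq_apply]
  simp only [Complex.sub_im, Complex.ofReal_im, Complex.sub_re, Complex.ofReal_re, zero_sub,
    neg_neg]
  congr 2
  ring

private theorem C4_q {q : ℝ} (hq : q = 0 ∨ q = 1) : 0 ≤ q := by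
  rcases hq with h | h <;> rw [h]
  exact zero_le_one

private theorem C4_s {a u : ℝ} (hu : 0 < u) : 0 < a ^ 2 + u ^ 2 := by positivity

private theorem C4_deriv (lam E q u : ℝ) (hq : q = 0 ∨ q = 1) (hu : 0 < u) :
    HasDerivAt (fun t : ℝ => (q : ℂ) / ((lam : ℂ) - (⟨E, t⟩ : ℂ)))
      (Complex.I * ((q : ℂ) / ((lam : ℂ) - (⟨E, u⟩ : ℂ))) ^ 2) u := by
  have hne : ((lam : ℂ) - (⟨E, u⟩ : ℂ)) ≠ 0 := by
    intro h0
    have := congrArg Complex.im h0
    simp at this
    exact hu.ne' this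
  have e0 : ∀ t : ℝ, (⟨E, t⟩ : ℂ) = (E : ℂ) + (t : ℂ) * Complex.I := fun t =>
    Complex.mk_eq_add_mul_I E t
  have hd1 : HasDerivAt (fun t : ℝ => (t : ℂ)) 1 u := (hasDerivAt_id u).ofReal_comp
  have hd2 : HasDerivAt (fun t : ℝ => ((lam : ℂ) - (⟨E, t⟩ : ℂ))) (-Complex.I) u := by
    have h3 := ((hd1.mul_const Complex.I).const_add (E : ℂ)).const_sub (lam : ℂ)
    rw [one_mul] at h3
    refine h3.congr_of_eventuallyEq (Filter.Eventually.of_forall fun t => ?_)
    simp only [e0 t]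
  have hd3 := (hasDerivAt_const u (q : ℂ)).div hd2 hne
  refine hd3.congr_deriv ?_
  have hq2 : ((q : ℂ)) ^ 2 = q := by
    rcases hq with h | h <;> rw [h] <;> simp
  rw [div_pow, hq2]
  field_simp
  ring

/-- `∑ q_k/|lam_k - z|` at height `η ≤ 1` -/
private theorem C4_sum (lam q : Fin N → ℝ) (hq : ∀ k, q k = 0 ∨ q k = 1) (E η Γ : ℝ) (hη : 0 < η)
    (hη1 : η ≤ 1)
    (hT : ∀ u : ℝ, η ≤ u → ∑ k, q k * (u / ((lam k - E) ^ 2 + u ^ 2)) ≤ N * Γ) :
    ∑ k, q k * (Real.sqrt ((lam k - E) ^ 2 + η ^ 2))⁻¹ ≤ N + N * Γ * Real.log (1 / η) := by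
  set S : ℝ → ℝ := fun u => ∑ k, q k * (Real.sqrt ((lam k - E) ^ 2 + u ^ 2))⁻¹ with hS
  set S' : ℝ → ℝ := fun u => ∑ k, q k * (-(2 * u / (2 * Real.sqrt ((lam k - E) ^ 2 + u ^ 2))) /
      (Real.sqrt ((lam k - E) ^ 2 + u ^ 2)) ^ 2) with hS'
  have hder : ∀ u : ℝ, 0 < u → HasDerivAt S (S' u) u := by
    intro u hu
    refine HasDerivAt.fun_sum fun k _ => ?_
    have hs := C4_s (a := lam k - E) hu
    have h1 : HasDerivAt (fun t : ℝ => (lam k - E) ^ 2 + t ^ 2) (2 * u) u := by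
      have := (hasDerivAt_pow 2 u).const_add ((lam k - E) ^ 2)
      simpa using this
    have h2 := (h1.sqrt hs.ne').inv (Real.sqrt_pos.mpr hs).ne'
    exact h2.const_mul (q k)
  have hbd : ∀ u : ℝ, η ≤ u → ‖S' u‖ ≤ N * Γ / u := by
    intro u hu
    have hu0 : 0 < u := lt_of_lt_of_le hη hu
    rw [hS', Real.norm_eq_abs]
    have h3 : |∑ k, q k * (-(2 * u / (2 * Real.sqrt ((lam k - E) ^ 2 + u ^ 2))) /
      (Real.sqrt ((lam k - E) ^ 2 + u ^ 2)) ^ 2)| ≤
        ∑ k, (q k * (u / ((lam k - E) ^ 2 + u ^ 2))) / u := by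
      refine (Finset.abs_sum_le_sum_abs _ _).trans (Finset.sum_le_sum fun k _ => ?_)
      have hs := C4_s (a := lam k - E) hu0
      have hsq := Real.sqrt_pos.mpr hs
      have h4 : u ≤ Real.sqrt ((lam k - E) ^ 2 + u ^ 2) := by
        refine Real.le_sqrt_of_sq_le ?_
        nlinarith [sq_nonneg (lam k - E)]
      rw [abs_mul, abs_of_nonneg (C4_q (hq k)), Real.sq_sqrt hs.le,
        mul_div_assoc (q k) (u / ((lam k - E) ^ 2 + u ^ 2)) u]
      refine mul_le_mul_of_nonneg_left ?_ (C4_q (hq k))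
      rw [abs_div, abs_neg, abs_of_pos hs, abs_of_pos (by positivity)]
      have h5 : 2 * u / (2 * Real.sqrt ((lam k - E) ^ 2 + u ^ 2)) ≤ 1 := by
        rw [div_le_one (by positivity)]
        linarith
      have h6 : u / ((lam k - E) ^ 2 + u ^ 2) / u = 1 / ((lam k - E) ^ 2 + u ^ 2) := by
        field_simp
      rw [h6]
      exact div_le_div_of_nonneg_right h5 hs.le
    refine h3.trans ?_
    rw [← Finset.sum_div]
    exact div_le_div_of_nonneg_right (hT u hu) hu0.le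
  have key : ‖S 1 - S η‖ ≤ N * Γ * Real.log 1 - N * Γ * Real.log η := by
    have := image_norm_le_of_norm_deriv_right_le_deriv_boundary' (a := η) (b := 1)
      (f := fun u => S u - S η) (f' := S')
      (B := fun u => N * Γ * Real.log u - N * Γ * Real.log η) (B' := fun u => N * Γ / u)
      (fun u hu => ((hder u (lt_of_lt_of_le hη hu.1)).sub_const
        (S η)).continuousAt.continuousWithinAt)
      (fun u hu => ((hder u (lt_of_lt_of_le hη hu.1)).sub_const
        (S η)).hasDerivWithinAt)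
      (by simp)
      (fun u hu => by
        have hu0 : u ≠ 0 := (lt_of_lt_of_le hη hu.1).ne'
        have := ((Real.hasDerivAt_log hu0).const_mul ((N : ℝ) * Γ)).sub_const
          ((N : ℝ) * Γ * Real.log η)
        exact this.continuousAt.continuousWithinAt)
      (fun u hu => by
        have hu0 : u ≠ 0 := (lt_of_lt_of_le hη hu.1).ne'
        have := ((Real.hasDerivAt_log hu0).const_mul ((N : ℝ) * Γ)).sub_const
          ((N : ℝ) * Γ * Real.log η)
        rw [← div_eq_mul_inv] at this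
        exact this.hasDerivWithinAt)
      (fun u hu => hbd u hu.1)
    exact this ⟨hη1, le_refl _⟩
  have hS1 : S 1 ≤ N := by
    have : ∀ k ∈ (Finset.univ : Finset (Fin N)),
        q k * (Real.sqrt ((lam k - E) ^ 2 + 1 ^ 2))⁻¹ ≤ 1 := by
      intro k _
      have h4 : (1 : ℝ) ≤ Real.sqrt ((lam k - E) ^ 2 + 1 ^ 2) := by
        refine Real.le_sqrt_of_sq_le ?_
        nlinarith [sq_nonneg (lam k - E)]
      have h5 : (Real.sqrt ((lam k - E) ^ 2 + 1 ^ 2))⁻¹ ≤ 1 := inv_le_one_of_one_le₀ h4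
      rcases hq k with h | h <;> rw [h]
      · simp
      · rw [one_mul]
        exact h5
    refine (Finset.sum_le_sum this).trans ?_
    simp
  have hle : S η - S 1 ≤ ‖S 1 - S η‖ := by
    rw [Real.norm_eq_abs]
    have := neg_abs_le (S 1 - S η)
    linarith
  have hlog : Real.log (1 / η) = - Real.log η := by
    rw [one_div, Real.log_inv]
  rw [Real.log_one] at key
  rw [hlog]
  change S η ≤ _
  linarith

theorem im_mono (h : PB Q B) (E : ℝ) {u u' : ℝ} (hu : 0 < u) (huu : u ≤ u') (x : Fin N) :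
    u * (Gz Q B (⟨E, u⟩ : ℂ) x x).im ≤ u' * (Gz Q B (⟨E, u'⟩ : ℂ) x x).im := by
  obtain ⟨U, lam, q, h1, h2, hq, hG, hI⟩ := C4_spec h
  have hu' : 0 < u' := lt_of_lt_of_le hu huu
  rw [hI E u hu x, hI E u' hu' x, Finset.mul_sum, Finset.mul_sum]
  refine Finset.sum_le_sum fun k _ => ?_
  have hc : 0 ≤ q k * U x k ^ 2 := mul_nonneg (C4_q (hq k)) (sq_nonneg _)
  have e : ∀ t : ℝ, t * (q k * U x k ^ 2 * (t / ((lam k - E) ^ 2 + t ^ 2)))
      = q k * U x k ^ 2 * (t ^ 2 / ((lam k - E) ^ 2 + t ^ 2)) := by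
    intro t
    ring
  rw [e u, e u']
  refine mul_le_mul_of_nonneg_left ?_ hc
  rw [div_le_div_iff₀ (C4_s hu) (C4_s hu')]
  have h3 : u ^ 2 ≤ u' ^ 2 := pow_le_pow_left₀ hu.le huu 2
  nlinarith [mul_le_mul_of_nonneg_right h3 (sq_nonneg (lam k - E))]

theorem im_anti (h : PB Q B) (E : ℝ) {u u' : ℝ} (hu : 0 < u) (huu : u ≤ u') (x : Fin N) :
    (Gz Q B (⟨E, u'⟩ : ℂ) x x).im / u' ≤ (Gz Q B (⟨E, u⟩ : ℂ) x x).im / u := by
  obtain ⟨U, lam, q, h1, h2, hq, hG, hI⟩ := C4_spec h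
  have hu' : 0 < u' := lt_of_lt_of_le hu huu
  rw [hI E u hu x, hI E u' hu' x, Finset.sum_div, Finset.sum_div]
  refine Finset.sum_le_sum fun k _ => ?_
  have hc : 0 ≤ q k * U x k ^ 2 := mul_nonneg (C4_q (hq k)) (sq_nonneg _)
  have e : ∀ t : ℝ, 0 < t → q k * U x k ^ 2 * (t / ((lam k - E) ^ 2 + t ^ 2)) / t
      = q k * U x k ^ 2 * (1 / ((lam k - E) ^ 2 + t ^ 2)) := by
    intro t ht
    have := C4_s (a := lam k - E) ht
    field_simp
  rw [e u hu, e u' hu']
  refine mul_le_mul_of_nonneg_left ?_ hc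
  refine one_div_le_one_div_of_le (C4_s hu) ?_
  have h3 : u ^ 2 ≤ u' ^ 2 := pow_le_pow_left₀ hu.le huu 2
  linarith

theorem gam_shift (h : PB Q B) (E E' η Γ : ℝ) (hη : 0 < η) (hE : |E' - E| ≤ η)
    (hG : GamLe Q B E η Γ) : GamLe Q B E' η (3 * Γ) := by
  obtain ⟨U, lam, q, h1, h2, hq, hG', hI⟩ := C4_spec h
  intro u hu x
  have hu0 : 0 < u := lt_of_lt_of_le hη hu
  have h3 : (Gz Q B (⟨E', u⟩ : ℂ) x x).im ≤ 3 * (Gz Q B (⟨E, u⟩ : ℂ) x x).im := by
    rw [hI E' u hu0 x, hI E u hu0 x, Finset.mul_sum]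
    refine Finset.sum_le_sum fun k _ => ?_
    have hc : 0 ≤ q k * U x k ^ 2 := mul_nonneg (C4_q (hq k)) (sq_nonneg _)
    have e : 3 * (q k * U x k ^ 2 * (u / ((lam k - E) ^ 2 + u ^ 2)))
        = q k * U x k ^ 2 * (3 * u / ((lam k - E) ^ 2 + u ^ 2)) := by ring
    rw [e]
    refine mul_le_mul_of_nonneg_left ?_ hc
    rw [div_le_div_iff₀ (C4_s hu0) (C4_s hu0)]
    have h4 : (E' - E) ^ 2 ≤ u ^ 2 := by
      have h5 : |E' - E| ≤ u := hE.trans hu
      calc (E' - E) ^ 2 = |E' - E| ^ 2 := (sq_abs _).symm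
        _ ≤ u ^ 2 := pow_le_pow_left₀ (abs_nonneg _) h5 2
    have h6 : (lam k - E) ^ 2 + u ^ 2 ≤ 3 * ((lam k - E') ^ 2 + u ^ 2) := by
      have h7 : lam k - E = (lam k - E') + (E' - E) := by ring
      rw [h7]
      nlinarith [sq_nonneg ((lam k - E') - (E' - E)), sq_nonneg (lam k - E')]
    nlinarith [mul_le_mul_of_nonneg_left h6 hu0.le]
  exact h3.trans (mul_le_mul_of_nonneg_left (hG u hu x) (by norm_num))

theorem gam_scale (h : PB Q B) (E η η' Γ : ℝ) (hη' : 0 < η') (hη : η' ≤ η)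
    (hG : GamLe Q B E η Γ) : GamLe Q B E η' (η / η' * Γ) := by
  intro u hu x
  have hη0 : 0 < η := lt_of_lt_of_le hη' hη
  have hu0 : 0 < u := lt_of_lt_of_le hη' hu
  have hΓ : 0 ≤ Γ := (im_diag_nonneg h (⟨E, η⟩ : ℂ) hη0 x).trans (hG η le_rfl x)
  rcases le_or_gt η u with h1 | h1
  · refine (hG u h1 x).trans ?_
    have h2 : 1 ≤ η / η' := (one_le_div hη').mpr hη
    nlinarith
  · have h2 := im_mono h E hu0 h1.le x
    have h3 : u * (Gz Q B (⟨E, u⟩ : ℂ) x x).im ≤ η * Γ :=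
      h2.trans (mul_le_mul_of_nonneg_left (hG η le_rfl x) hη0.le)
    have h4 : (Gz Q B (⟨E, u⟩ : ℂ) x x).im ≤ η * Γ / u := by
      rw [le_div_iff₀ hu0]
      linarith
    refine h4.trans ?_
    have h5 : η * Γ / u ≤ η * Γ / η' :=
      div_le_div_of_nonneg_left (mul_nonneg hη0.le hΓ) hη' hu
    refine h5.trans (le_of_eq ?_)
    ring

theorem entry_log (h : PB Q B) (E η Γ : ℝ) (hη : 0 < η) (hG : GamLe Q B E η Γ) (hΓ : 0 ≤ Γ)
    (x y : Fin N) : ‖Gz Q B (⟨E, η⟩ : ℂ) x y‖ ≤ 1 + Γ * max 0 (Real.log (1 / η)) := by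
  rcases le_or_gt 1 η with h1 | h1
  · have h2 := g_entry_le h (⟨E, η⟩ : ℂ) hη.ne' x y
    have h3 : 1 / |(⟨E, η⟩ : ℂ).im| ≤ 1 := by
      change 1 / |η| ≤ 1
      rw [abs_of_pos hη, div_le_one hη]
      exact h1
    have h4 : 0 ≤ Γ * max 0 (Real.log (1 / η)) := mul_nonneg hΓ (le_max_left _ _)
    linarith
  · obtain ⟨U, lam, q, hU1, hU2, hq, hGz, hI⟩ := C4_spec h
    set f : ℝ → ℂ := fun u => ∑ k, (U x k : ℂ) * ((q k : ℂ) / ((lam k : ℂ) - (⟨E, u⟩ : ℂ))) *
      (U y k : ℂ) with hf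
    set f' : ℝ → ℂ := fun u => ∑ k, (U x k : ℂ) *
      (Complex.I * ((q k : ℂ) / ((lam k : ℂ) - (⟨E, u⟩ : ℂ))) ^ 2) * (U y k : ℂ) with hf'
    have hfG : ∀ u : ℝ, 0 < u → Gz Q B (⟨E, u⟩ : ℂ) x y = f u := by
      intro u hu
      rw [hGz (⟨E, u⟩ : ℂ) hu.ne', C3_entry]
    have hder : ∀ u : ℝ, 0 < u → HasDerivAt f (f' u) u := by
      intro u hu
      refine HasDerivAt.fun_sum fun k _ => ?_
      exact ((C4_deriv (lam k) E (q k) u (hq k) hu).const_mul (U x k : ℂ)).mul_const (U y k : ℂ)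
    have hf'G : ∀ u : ℝ, 0 < u → f' u = Complex.I * (Gz Q B (⟨E, u⟩ : ℂ) ^ (1 + 1)) x y := by
      intro u hu
      rw [hGz (⟨E, u⟩ : ℂ) hu.ne', C3_pow U _ hU1 hU2, C3_entry, Finset.mul_sum]
      refine Finset.sum_congr rfl fun k _ => ?_
      ring
    have hbd : ∀ u : ℝ, η ≤ u → ‖f' u‖ ≤ Γ / u := by
      intro u hu
      have hu0 : 0 < u := lt_of_lt_of_le hη hu
      rw [hf'G u hu0, norm_mul, Complex.norm_I, one_mul]
      refine (g_pow_entry h (⟨E, u⟩ : ℂ) hu0 1 le_rfl x y).trans ?_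
      rw [pow_one]
      refine div_le_div_of_nonneg_right ?_ hu0.le
      rw [← Real.sqrt_mul_self hΓ]
      refine Real.sqrt_le_sqrt ?_
      exact mul_le_mul (hG u hu x) (hG u hu y) (im_diag_nonneg h (⟨E, u⟩ : ℂ) hu0 y) hΓ
    have key : ‖f 1 - f η‖ ≤ Γ * Real.log 1 - Γ * Real.log η := by
      have := image_norm_le_of_norm_deriv_right_le_deriv_boundary' (a := η) (b := 1)
        (f := fun u => f u - f η) (f' := f')
        (B := fun u => Γ * Real.log u - Γ * Real.log η) (B' := fun u => Γ / u)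
        (fun u hu => ((hder u (lt_of_lt_of_le hη hu.1)).sub_const
          (f η)).continuousAt.continuousWithinAt)
        (fun u hu => ((hder u (lt_of_lt_of_le hη hu.1)).sub_const
          (f η)).hasDerivWithinAt)
        (by simp)
        (fun u hu => by
          have hu0 : u ≠ 0 := (lt_of_lt_of_le hη hu.1).ne'
          have := ((Real.hasDerivAt_log hu0).const_mul Γ).sub_const (Γ * Real.log η)
          exact this.continuousAt.continuousWithinAt)
        (fun u hu => by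
          have hu0 : u ≠ 0 := (lt_of_lt_of_le hη hu.1).ne'
          have := ((Real.hasDerivAt_log hu0).const_mul Γ).sub_const (Γ * Real.log η)
          rw [← div_eq_mul_inv] at this
          exact this.hasDerivWithinAt)
        (fun u hu => hbd u hu.1)
      exact this ⟨h1.le, le_refl _⟩
    have hf1 : ‖f 1‖ ≤ 1 := by
      rw [← hfG 1 one_pos]
      refine (g_entry_le h (⟨E, 1⟩ : ℂ) one_ne_zero x y).trans ?_
      change 1 / |(1 : ℝ)| ≤ 1
      simp
    have hlog : Real.log (1 / η) = - Real.log η := by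
      rw [one_div, Real.log_inv]
    have hmax : Γ * Real.log (1 / η) ≤ Γ * max 0 (Real.log (1 / η)) :=
      mul_le_mul_of_nonneg_left (le_max_right _ _) hΓ
    rw [hfG η hη]
    rw [Real.log_one] at key
    have h5 : ‖f η‖ ≤ ‖f 1‖ + ‖f 1 - f η‖ := by
      have h6 := norm_sub_le (f 1) (f 1 - f η)
      rwa [sub_sub_cancel] at h6
    rw [hlog] at hmax ⊢
    linarith

theorem nuc_gz (h : PB Q B) (E η Γ : ℝ) (hη : 0 < η) (hG : GamLe Q B E η Γ) (hΓ : 0 ≤ Γ) :
    NuLe (Gz Q B (⟨E, η⟩ : ℂ)) (2 * N * (1 + Γ * max 0 (Real.log (1 / η)))) := by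
  obtain ⟨U, lam, q, hU1, hU2, hq, hGz, hI⟩ := C4_spec h
  have hcol : ∀ k, ∑ i, ‖(U i k : ℂ)‖ ^ 2 = 1 := by
    intro k
    have := congrFun (congrFun hU2 k) k
    rw [Matrix.mul_apply, Matrix.one_apply_eq] at this
    rw [← this]
    refine Finset.sum_congr rfl fun i _ => ?_
    rw [Matrix.transpose_apply, Complex.norm_real, Real.norm_eq_abs, sq_abs, sq]
  set g : Fin N → ℂ := fun k => (q k : ℂ) / ((lam k : ℂ) - (⟨E, η⟩ : ℂ)) with hg
  have hne : ∀ k, ((lam k : ℂ) - (⟨E, η⟩ : ℂ)) ≠ 0 := by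
    intro k h0
    have := congrArg Complex.im h0
    simp at this
    exact hη.ne' this
  have hnorm : ∀ k, ‖g k‖ = q k * (Real.sqrt ((lam k - E) ^ 2 + η ^ 2))⁻¹ := by
    intro k
    rw [hg]
    simp only
    rw [norm_div, Complex.norm_real, Real.norm_eq_abs, abs_of_nonneg (C4_q (hq k)),
      div_eq_mul_inv]
    congr 2
    rw [Complex.norm_def, Complex.normSq_apply]
    congr 1
    simp only [Complex.sub_im, Complex.ofReal_im, Complex.sub_re, Complex.ofReal_re, zero_sub]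
    ring
  refine ⟨N, fun k => ‖g k‖, fun k i => (U i k : ℂ) * (g k / (‖g k‖ : ℂ)), fun k j => (U j k : ℂ),
    fun k => norm_nonneg _, ?_, ?_, ?_, ?_⟩
  · intro k
    have hph : ‖g k / (‖g k‖ : ℂ)‖ ≤ 1 := by
      rw [norm_div, Complex.norm_real, norm_norm]
      exact div_self_le_one _
    calc ∑ i, ‖(U i k : ℂ) * (g k / (‖g k‖ : ℂ))‖ ^ 2 ≤ ∑ i, ‖(U i k : ℂ)‖ ^ 2 := by
          refine Finset.sum_le_sum fun i _ => ?_
          rw [norm_mul]
          refine pow_le_pow_left₀ (by positivity) ?_ 2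
          exact mul_le_of_le_one_right (norm_nonneg _) hph
      _ = 1 := hcol k
      _ ≤ 1 := le_rfl
  · intro k
    exact (hcol k).le
  · intro i j
    rw [hGz (⟨E, η⟩ : ℂ) hη.ne', C3_entry]
    refine Finset.sum_congr rfl fun k _ => ?_
    change (U i k : ℂ) * g k * (U j k : ℂ)
      = (‖g k‖ : ℂ) * ((U i k : ℂ) * (g k / (‖g k‖ : ℂ))) * (U j k : ℂ)
    rcases eq_or_ne (g k) 0 with h0 | h0
    · rw [h0]
      simp
    · have h1 : (‖g k‖ : ℂ) ≠ 0 := by
        exact_mod_cast (norm_pos_iff.mpr h0).ne'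
      field_simp
  · have hsum : ∑ k, ‖g k‖ = ∑ k, q k * (Real.sqrt ((lam k - E) ^ 2 + η ^ 2))⁻¹ :=
      Finset.sum_congr rfl fun k _ => hnorm k
    have hN : (0 : ℝ) ≤ N := Nat.cast_nonneg N
    have hL : 0 ≤ Γ * max 0 (Real.log (1 / η)) := mul_nonneg hΓ (le_max_left _ _)
    have hNL : 0 ≤ (N : ℝ) * (Γ * max 0 (Real.log (1 / η))) := mul_nonneg hN hL
    rw [hsum]
    rcases le_or_gt 1 η with h1 | h1
    · have h3 : ∑ k, q k * (Real.sqrt ((lam k - E) ^ 2 + η ^ 2))⁻¹ ≤ N := by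
        have : ∀ k ∈ (Finset.univ : Finset (Fin N)),
            q k * (Real.sqrt ((lam k - E) ^ 2 + η ^ 2))⁻¹ ≤ 1 := by
          intro k _
          have h4 : (1 : ℝ) ≤ Real.sqrt ((lam k - E) ^ 2 + η ^ 2) := by
            refine Real.le_sqrt_of_sq_le ?_
            nlinarith [sq_nonneg (lam k - E)]
          have h5 : (Real.sqrt ((lam k - E) ^ 2 + η ^ 2))⁻¹ ≤ 1 := inv_le_one_of_one_le₀ h4
          rcases hq k with h | h <;> rw [h]
          · simp
          · rw [one_mul]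
            exact h5
        refine (Finset.sum_le_sum this).trans ?_
        simp
      nlinarith
    · have hT : ∀ u : ℝ, η ≤ u → ∑ k, q k * (u / ((lam k - E) ^ 2 + u ^ 2)) ≤ N * Γ := by
        intro u hu
        have hu0 : 0 < u := lt_of_lt_of_le hη hu
        have h3 : ∑ x, (Gz Q B (⟨E, u⟩ : ℂ) x x).im
            = ∑ k, q k * (u / ((lam k - E) ^ 2 + u ^ 2)) := by
          rw [Finset.sum_congr rfl fun x _ => hI E u hu0 x, Finset.sum_comm]
          refine Finset.sum_congr rfl fun k _ => ?_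
          have h4 : ∑ x, U x k ^ 2 = 1 := by
            have := congrFun (congrFun hU2 k) k
            rw [Matrix.mul_apply, Matrix.one_apply_eq] at this
            rw [← this]
            refine Finset.sum_congr rfl fun i _ => ?_
            rw [Matrix.transpose_apply, sq]
          calc ∑ x, q k * U x k ^ 2 * (u / ((lam k - E) ^ 2 + u ^ 2))
              = (∑ x, U x k ^ 2) * (q k * (u / ((lam k - E) ^ 2 + u ^ 2))) := by
                rw [Finset.sum_mul]
                refine Finset.sum_congr rfl fun x _ => ?_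
                ring
            _ = _ := by rw [h4, one_mul]
        rw [← h3]
        calc ∑ x, (Gz Q B (⟨E, u⟩ : ℂ) x x).im ≤ ∑ _x : Fin N, Γ :=
              Finset.sum_le_sum fun x _ => hG u hu x
          _ = N * Γ := by simp
      have h3 := C4_sum lam q hq E η Γ hη h1.le hT
      have h4 : (N : ℝ) * Γ * Real.log (1 / η) ≤ N * (Γ * max 0 (Real.log (1 / η))) := by
        rw [mul_assoc]
        exact mul_le_mul_of_nonneg_left
          (mul_le_mul_of_nonneg_left (le_max_right _ _) hΓ) hN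
      nlinarith

theorem nuc_mul {A M : Matrix (Fin N) (Fin N) ℂ} {τ L : ℝ} (hA : NuLe A τ) (hM : OpLe M L) :
    ‖(A * M).trace‖ ≤ τ * L := by
  obtain ⟨K, c, u, v, hc, hu, hv, hd, hs⟩ := hA
  obtain ⟨hL, hM⟩ := hM
  have e : (A * M).trace = ∑ k, (c k : ℂ) * ∑ j, v k j * (M *ᵥ u k) j := by
    have e1 : (A * M).trace = ∑ i, ∑ j, A i j * M j i := by
      rw [Matrix.trace]
      rfl
    rw [e1]
    have e2 : ∀ i j, A i j * M j i = ∑ k, (c k : ℂ) * u k i * v k j * M j i := by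
      intro i j
      rw [hd i j, Finset.sum_mul]
    have e3 : ∀ k, (c k : ℂ) * ∑ j, v k j * (M *ᵥ u k) j
        = ∑ j, ∑ i, (c k : ℂ) * u k i * v k j * M j i := by
      intro k
      rw [Finset.mul_sum]
      refine Finset.sum_congr rfl fun j _ => ?_
      have : (M *ᵥ u k) j = ∑ i, M j i * u k i := rfl
      rw [this, Finset.mul_sum, Finset.mul_sum]
      refine Finset.sum_congr rfl fun i _ => ?_
      ring
    calc ∑ i, ∑ j, A i j * M j i
        = ∑ i, ∑ j, ∑ k, (c k : ℂ) * u k i * v k j * M j i :=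
          Finset.sum_congr rfl fun i _ => Finset.sum_congr rfl fun j _ => e2 i j
      _ = ∑ i, ∑ k, ∑ j, (c k : ℂ) * u k i * v k j * M j i :=
          Finset.sum_congr rfl fun i _ => Finset.sum_comm
      _ = ∑ k, ∑ i, ∑ j, (c k : ℂ) * u k i * v k j * M j i := Finset.sum_comm
      _ = ∑ k, ∑ j, ∑ i, (c k : ℂ) * u k i * v k j * M j i :=
          Finset.sum_congr rfl fun k _ => Finset.sum_comm
      _ = _ := Finset.sum_congr rfl fun k _ => (e3 k).symm
  have hk : ∀ k, ‖∑ j, v k j * (M *ᵥ u k) j‖ ≤ L := by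
    intro k
    calc ‖∑ j, v k j * (M *ᵥ u k) j‖ ≤ ∑ j, ‖v k j * (M *ᵥ u k) j‖ := norm_sum_le _ _
      _ = ∑ j, ‖v k j‖ * ‖(M *ᵥ u k) j‖ := Finset.sum_congr rfl fun j _ => norm_mul _ _
      _ ≤ Real.sqrt (∑ j, ‖v k j‖ ^ 2) * Real.sqrt (∑ j, ‖(M *ᵥ u k) j‖ ^ 2) :=
          Real.sum_mul_le_sqrt_mul_sqrt Finset.univ (fun j => ‖v k j‖)
            (fun j => ‖(M *ᵥ u k) j‖)
      _ ≤ 1 * L := by
          refine mul_le_mul ?_ ?_ (Real.sqrt_nonneg _) zero_le_one
          · rw [Real.sqrt_le_one]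
            exact hv k
          · rw [← Real.sqrt_sq hL]
            refine Real.sqrt_le_sqrt ((hM (u k)).trans ?_)
            exact mul_le_of_le_one_right (sq_nonneg _) (hu k)
      _ = L := one_mul _
  rw [e]
  calc ‖∑ k, (c k : ℂ) * ∑ j, v k j * (M *ᵥ u k) j‖
      ≤ ∑ k, ‖(c k : ℂ) * ∑ j, v k j * (M *ᵥ u k) j‖ := norm_sum_le _ _
    _ ≤ ∑ k, c k * L := by
        refine Finset.sum_le_sum fun k _ => ?_
        rw [norm_mul, Complex.norm_real, Real.norm_eq_abs, abs_of_nonneg (hc k)]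
        exact mul_le_mul_of_nonneg_left (hk k) (hc k)
    _ = (∑ k, c k) * L := by rw [Finset.sum_mul]
    _ ≤ τ * L := mul_le_mul_of_nonneg_right hs hL

end Pool.Agent.ZR

end

section

/-!
# ZR part E1 : continuity and derivative of `Gz Q B z` with respect to `B`

For `B(s)` symmetric with `Q B = B Q = B`: `G(s) - G(s0) = - G(s) (B(s) - B(s0)) G(s0)` (`gz_pert`)
and `|G_ij| ≤ 1/|Im z|`; hence `G` is continuous in `B` and `dG = - G dB G`.
-/


open MeasureTheory ProbabilityTheory Matrix Filter Topology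

namespace Pool.Agent.ZR

variable {N : ℕ} {Q : Matrix (Fin N) (Fin N) ℝ}

/-- entrywise formula of `gz_pert` -/
theorem gz_pert_entry {B B' : Matrix (Fin N) (Fin N) ℝ} (h : PB Q B) (h' : PB Q B') (z : ℂ)
    (hz : z.im ≠ 0) (i j : Fin N) :
    Gz Q B z i j - Gz Q B' z i j
      = - ∑ l, ∑ k, Gz Q B z i k * ((B k l - B' k l : ℝ) : ℂ) * Gz Q B' z l j := by
  have := congrFun (congrFun (gz_pert h h' z hz) i) j
  rw [Matrix.sub_apply] at this
  rw [this, Matrix.neg_apply, Matrix.mul_apply]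
  congr 1
  refine Finset.sum_congr rfl fun l _ => ?_
  rw [Matrix.mul_apply, Finset.sum_mul]
  refine Finset.sum_congr rfl fun k _ => ?_
  simp [toC]

theorem gz_tendsto {T : Type*} {l : Filter T} {B : T → Matrix (Fin N) (Fin N) ℝ}
    {B0 : Matrix (Fin N) (Fin N) ℝ} (hB : ∀ i j, Tendsto (fun t => B t i j) l (𝓝 (B0 i j)))
    (h : ∀ t, PB Q (B t)) (h0 : PB Q B0) (z : ℂ) (hz : z.im ≠ 0) (i j : Fin N) :
    Tendsto (fun t => Gz Q (B t) z i j) l (𝓝 (Gz Q B0 z i j)) := by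
  rw [tendsto_iff_norm_sub_tendsto_zero]
  have hb : Tendsto (fun t => ∑ l, ∑ k, (1 / |z.im|) * |B t k l - B0 k l| * (1 / |z.im|)) l
      (𝓝 (∑ l : Fin N, ∑ k : Fin N, (1 / |z.im|) * 0 * (1 / |z.im|))) := by
    refine tendsto_finsetSum _ fun l' _ => tendsto_finsetSum _ fun k _ => ?_
    refine Tendsto.mul_const _ (Tendsto.const_mul _ ?_)
    have := ((hB k l').sub_const (B0 k l')).abs
    simpa using this
  have hz0 : (∑ l : Fin N, ∑ k : Fin N, (1 / |z.im|) * 0 * (1 / |z.im|)) = 0 := by simp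
  rw [hz0] at hb
  refine squeeze_zero (fun t => norm_nonneg _) (fun t => ?_) hb
  rw [gz_pert_entry (h t) h0 z hz, norm_neg]
  refine (norm_sum_le _ _).trans (Finset.sum_le_sum fun l' _ => ?_)
  refine (norm_sum_le _ _).trans (Finset.sum_le_sum fun k _ => ?_)
  rw [norm_mul, norm_mul, Complex.norm_real, Real.norm_eq_abs]
  have h1 := g_entry_le (h t) z hz i k
  have h2 := g_entry_le h0 z hz l' j
  gcongr

theorem gz_entry_continuous {T : Type*} [TopologicalSpace T] {B : T → Matrix (Fin N) (Fin N) ℝ}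
    (hB : Continuous B) (h : ∀ t, PB Q (B t)) (z : ℂ) (hz : z.im ≠ 0) (i j : Fin N) :
    Continuous (fun t => Gz Q (B t) z i j) := by
  rw [continuous_iff_continuousAt]
  intro t0
  refine gz_tendsto (fun i j => ?_) h (h t0) z hz i j
  exact (hB.matrix_elem i j).continuousAt

theorem gz_continuous {T : Type*} [TopologicalSpace T] {B : T → Matrix (Fin N) (Fin N) ℝ}
    (hB : Continuous B) (h : ∀ t, PB Q (B t)) (z : ℂ) (hz : z.im ≠ 0) :
    Continuous (fun t => Gz Q (B t) z) :=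
  continuous_matrix fun i j => gz_entry_continuous hB h z hz i j

theorem mz_continuous {T : Type*} [TopologicalSpace T] {B : T → Matrix (Fin N) (Fin N) ℝ}
    (hB : Continuous B) (h : ∀ t, PB Q (B t)) (z : ℂ) (hz : z.im ≠ 0) :
    Continuous (fun t => mz Q (B t) z) := by
  unfold mz
  exact continuous_const.mul (gz_continuous hB h z hz).matrix_trace

/-- derivative of the resolvent along a differentiable curve: `dG = - G dB G` -/
theorem gz_hasDerivAt_curve {B : ℝ → Matrix (Fin N) (Fin N) ℝ} {B' : Matrix (Fin N) (Fin N) ℝ}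
    (s0 : ℝ) (h : ∀ s, PB Q (B s)) (hB : ∀ i j, HasDerivAt (fun s => B s i j) (B' i j) s0)
    (z : ℂ) (hz : z.im ≠ 0) (i j : Fin N) :
    HasDerivAt (fun s => Gz Q (B s) z i j)
      (-(Gz Q (B s0) z * toC B' * Gz Q (B s0) z) i j) s0 := by
  rw [hasDerivAt_iff_tendsto_slope]
  have hval : -(Gz Q (B s0) z * toC B' * Gz Q (B s0) z) i j
      = - ∑ l, ∑ k, Gz Q (B s0) z i k * ((B' k l : ℝ) : ℂ) * Gz Q (B s0) z l j := by
    rw [Matrix.mul_apply]
    congr 1
    refine Finset.sum_congr rfl fun l _ => ?_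
    rw [Matrix.mul_apply, Finset.sum_mul]
    refine Finset.sum_congr rfl fun k _ => ?_
    simp [toC]
  rw [hval]
  have hslope : ∀ s, slope (fun s => Gz Q (B s) z i j) s0 s
      = - ∑ l, ∑ k, Gz Q (B s) z i k * ((slope (fun s => B s k l) s0 s : ℝ) : ℂ)
          * Gz Q (B s0) z l j := by
    intro s
    rw [slope_def_module, gz_pert_entry (h s) (h s0) z hz, smul_neg]
    congr 1
    rw [Finset.smul_sum]
    refine Finset.sum_congr rfl fun l _ => ?_
    rw [Finset.smul_sum]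
    refine Finset.sum_congr rfl fun k _ => ?_
    rw [slope_def_module, Complex.real_smul, smul_eq_mul]
    push_cast
    ring
  refine Tendsto.congr (fun s => (hslope s).symm) ?_
  refine Tendsto.neg (tendsto_finsetSum _ fun l _ => tendsto_finsetSum _ fun k _ => ?_)
  refine Tendsto.mul_const _ (Tendsto.mul ?_ ?_)
  · refine gz_tendsto (fun i j => ?_) h (h s0) z hz i k
    exact ((hB i j).continuousAt.tendsto).mono_left nhdsWithin_le_nhds
  · have := (hasDerivAt_iff_tendsto_slope.1 (hB k l))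
    exact (Complex.continuous_ofReal.tendsto _).comp this

/-- the same for the normalised trace -/
theorem mz_hasDerivAt_curve {B : ℝ → Matrix (Fin N) (Fin N) ℝ} {B' : Matrix (Fin N) (Fin N) ℝ}
    (s0 : ℝ) (h : ∀ s, PB Q (B s)) (hB : ∀ i j, HasDerivAt (fun s => B s i j) (B' i j) s0)
    (z : ℂ) (hz : z.im ≠ 0) :
    HasDerivAt (fun s => mz Q (B s) z)
      (-((1 / (N : ℂ)) * (Gz Q (B s0) z ^ 2 * toC B').trace)) s0 := by
  have h1 : HasDerivAt (fun s => ∑ i, Gz Q (B s) z i i)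
      (∑ i, -(Gz Q (B s0) z * toC B' * Gz Q (B s0) z) i i) s0 := by
    have := HasDerivAt.fun_sum (u := Finset.univ)
      (fun i _ => gz_hasDerivAt_curve s0 h hB z hz i i)
    exact this
  have h2 := h1.const_mul (1 / (N : ℂ))
  have h3 : (1 / (N : ℂ)) * ∑ i, -(Gz Q (B s0) z * toC B' * Gz Q (B s0) z) i i
      = -((1 / (N : ℂ)) * (Gz Q (B s0) z ^ 2 * toC B').trace) := by
    rw [Finset.sum_neg_distrib]
    have : (∑ i, (Gz Q (B s0) z * toC B' * Gz Q (B s0) z) i i)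
        = (Gz Q (B s0) z * toC B' * Gz Q (B s0) z).trace := rfl
    rw [this, Matrix.trace_mul_cycle, ← pow_two]
    ring
  rw [h3] at h2
  exact h2

/-- derivative in a fixed direction `K`, `Q K = K Q = K` -/
theorem gz_hasDerivAt {B K : Matrix (Fin N) (Fin N) ℝ} (h : PB Q B) (hK : PB Q K)
    (z : ℂ) (hz : z.im ≠ 0) (i j : Fin N) :
    HasDerivAt (fun s : ℝ => Gz Q (B + s • K) z i j) (-(Gz Q B z * toC K * Gz Q B z) i j) 0 := by
  have hP : ∀ s : ℝ, PB Q (B + s • K) := by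
    intro s
    have := pb_add h hK 1 s
    rwa [one_smul] at this
  have := gz_hasDerivAt_curve (B := fun s => B + s • K) (B' := K) 0 hP (fun i j => ?_) z hz i j
  · simpa using this
  · simp only [Matrix.add_apply, Matrix.smul_apply, smul_eq_mul]
    have := ((hasDerivAt_id (0 : ℝ)).mul_const (K i j)).const_add (B i j)
    simpa using this

theorem mz_hasDerivAt {B K : Matrix (Fin N) (Fin N) ℝ} (h : PB Q B) (hK : PB Q K)
    (z : ℂ) (hz : z.im ≠ 0) :
    HasDerivAt (fun s : ℝ => mz Q (B + s • K) z)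
      (-((1 / (N : ℂ)) * (Gz Q B z ^ 2 * toC K).trace)) 0 := by
  have hP : ∀ s : ℝ, PB Q (B + s • K) := by
    intro s
    have := pb_add h hK 1 s
    rwa [one_smul] at this
  have := mz_hasDerivAt_curve (B := fun s => B + s • K) (B' := K) 0 hP (fun i j => ?_) z hz
  · simpa using this
  · simp only [Matrix.add_apply, Matrix.smul_apply, smul_eq_mul]
    have := ((hasDerivAt_id (0 : ℝ)).mul_const (K i j)).const_add (B i j)
    simpa using this

end Pool.Agent.ZR

end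

section

/-!
# ZR/MArc : smoothed and sharp counting functions of a finite family (deterministic)

PROOF.  For `u = y - x_i`: if `u ≥ 0`, `|arctan(u/η) - π/2| ≤ 2 min(1, η/u)`; if `u < 0`,
`|arctan(u/η) + π/2| ≤ 2 min(1, η/|u|)` (`arctan` is odd and `π/2 - arctan s = arctan(1/s) ≤ 1/s` for
`s > 0`; for `u = 0` the difference is `π/2 ≤ 2`).  So `arcF - π (cntF - N/2)`, a sum of these terms, is
at most `∑_i 2 min(1, η/|u_i|)`.  Dyadic: `min(1, η/|u|) ≤ 2 ∑_{l<L} 2^{-l} 1{|u| ≤ 2^l η} + 2 * 2^{-L}`: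
if `|u| ≤ η` take `l = 0`; if `2^{l-1} η < |u| ≤ 2^l η` with `1 ≤ l < L` then `η/|u| ≤ 2 * 2^{-l}`; if
`|u| > 2^{L-1} η` then `η/|u| ≤ 2 * 2^{-L}` (`L ≥ 1`).  For `L = 0` the bound is `min ≤ 2`.
-/


namespace Pool.Agent.ZR

theorem arc_pos {t : ℝ} (ht : 0 < t) : Real.pi / 2 - Real.arctan t ≤ 1 / t := by
  have h1 := Real.arctan_inv_of_pos ht
  have h2 : Real.arctan t⁻¹ ≤ t⁻¹ := by
    have h3 : 0 < Real.arctan t⁻¹ := Real.arctan_pos.2 (inv_pos.2 ht)
    have h4 := Real.le_tan h3.le (Real.arctan_lt_pi_div_two _)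
    rwa [Real.tan_arctan] at h4
  rw [one_div]
  linarith

theorem arc_term (u : ℝ) {η : ℝ} (hη : 0 < η) (L : ℕ) :
    |Real.arctan (u / η) - (if 0 ≤ u then Real.pi / 2 else -(Real.pi / 2))|
      ≤ 4 * ∑ l ∈ Finset.range L, (1 / 2 : ℝ) ^ l * (if |u| ≤ 2 ^ l * η then (1 : ℝ) else 0)
        + 4 * (1 / 2 : ℝ) ^ L := by
  have hpi : Real.pi ≤ 4 := Real.pi_le_four
  have ha : |Real.arctan (u / η) - (if 0 ≤ u then Real.pi / 2 else -(Real.pi / 2))| ≤ 2 := by
    by_cases hu : 0 ≤ u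
    · rw [if_pos hu]
      have h1 : 0 ≤ Real.arctan (u / η) := Real.arctan_nonneg.2 (by positivity)
      have h2 := Real.arctan_lt_pi_div_two (u / η)
      rw [abs_le]
      constructor <;> linarith
    · rw [if_neg hu]
      have h1 : Real.arctan (u / η) < 0 :=
        Real.arctan_lt_zero.2 (div_neg_of_neg_of_pos (not_le.1 hu) hη)
      have h2 := Real.neg_pi_div_two_lt_arctan (u / η)
      rw [abs_le]
      constructor <;> linarith
  have hb : 0 < |u| →
      |Real.arctan (u / η) - (if 0 ≤ u then Real.pi / 2 else -(Real.pi / 2))| ≤ η / |u| := by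
    intro hu0
    by_cases hu : 0 ≤ u
    · rw [if_pos hu]
      have hu1 : 0 < u := by
        rcases hu.eq_or_lt with h | h
        · rw [← h] at hu0; simp at hu0
        · exact h
      have h2 := Real.arctan_lt_pi_div_two (u / η)
      have h3 := arc_pos (t := u / η) (by positivity)
      rw [one_div_div] at h3
      rw [abs_of_pos hu1, abs_sub_comm, abs_of_nonneg (by linarith)]
      exact h3
    · rw [if_neg hu]
      have hu1 : 0 < -u := by linarith
      have h2 := Real.neg_pi_div_two_lt_arctan (u / η)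
      have h3 := arc_pos (t := -u / η) (by positivity)
      rw [one_div_div, neg_div, Real.arctan_neg] at h3
      rw [abs_of_neg (by linarith : u < 0), abs_of_nonneg (by linarith)]
      linarith
  set g := |Real.arctan (u / η) - (if 0 ≤ u then Real.pi / 2 else -(Real.pi / 2))| with hg
  induction L with
  | zero => simp; linarith
  | succ L ih =>
    rw [Finset.sum_range_succ, mul_add, pow_succ]
    have hp : (0 : ℝ) < (1 / 2) ^ L := by positivity
    by_cases hc : |u| ≤ 2 ^ L * η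
    · rw [if_pos hc]
      linarith
    · rw [if_neg hc]
      have hu0 : 0 < |u| := lt_of_lt_of_le (by positivity) (not_le.1 hc).le
      have h1 := hb hu0
      have h2 : η / |u| ≤ (1 / 2) ^ L := by
        rw [div_le_iff₀ hu0]
        have h3 : (1 / 2 : ℝ) ^ L * (2 ^ L * η) = η := by
          rw [← mul_assoc, ← mul_pow]
          norm_num
        have h4 := mul_le_mul_of_nonneg_left (not_le.1 hc).le hp.le
        linarith
      have h5 : 0 ≤ ∑ l ∈ Finset.range L, (1 / 2 : ℝ) ^ l * (if |u| ≤ 2 ^ l * η then (1 : ℝ) else 0) := by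
        refine Finset.sum_nonneg fun l _ => ?_
        split_ifs <;> positivity
      linarith

theorem arc_cnt {N : ℕ} (x : Fin N → ℝ) (y : ℝ) {η : ℝ} (hη : 0 < η) (L : ℕ) :
    |arcF x y η - Real.pi * ((cntF x y : ℝ) - N / 2)|
      ≤ 4 * ∑ l ∈ Finset.range L, (1 / 2 : ℝ) ^ l * (cntIF x y (2 ^ l * η) : ℝ)
        + 4 * N * (1 / 2 : ℝ) ^ L := by
  classical
  have h1 : arcF x y η - Real.pi * ((cntF x y : ℝ) - N / 2) =
      ∑ i, (Real.arctan ((y - x i) / η) - (if 0 ≤ y - x i then Real.pi / 2 else -(Real.pi / 2))) := by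
    rw [Finset.sum_sub_distrib]
    unfold arcF
    congr 1
    have h2 : (cntF x y : ℝ) = ∑ i : Fin N, (if 0 ≤ y - x i then (1 : ℝ) else 0) := by
      unfold cntF
      rw [Finset.card_filter]
      push_cast
      refine Finset.sum_congr rfl fun i _ => ?_
      by_cases h : x i ≤ y
      · rw [if_pos h, if_pos (by linarith)]
      · rw [if_neg h, if_neg (by linarith)]
    have h3 : ((N : ℕ) : ℝ) / 2 = ∑ i : Fin N, (1 / 2 : ℝ) := by
      simp; ring
    rw [h2, h3, ← Finset.sum_sub_distrib, Finset.mul_sum]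
    refine Finset.sum_congr rfl fun i _ => ?_
    split_ifs <;> ring
  rw [h1]
  refine (Finset.abs_sum_le_sum_abs _ _).trans ?_
  refine (Finset.sum_le_sum fun i _ => arc_term (y - x i) hη L).trans ?_
  rw [Finset.sum_add_distrib, ← Finset.mul_sum, Finset.sum_comm]
  have h4 : ∀ l ∈ Finset.range L, ∑ i : Fin N, (1 / 2 : ℝ) ^ l *
      (if |y - x i| ≤ 2 ^ l * η then (1 : ℝ) else 0) =
      (1 / 2 : ℝ) ^ l * (cntIF x y (2 ^ l * η) : ℝ) := by
    intro l _
    rw [← Finset.mul_sum]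
    congr 1
    unfold cntIF
    rw [Finset.card_filter]
    push_cast
    refine Finset.sum_congr rfl fun i _ => ?_
    rw [abs_sub_comm]
  rw [Finset.sum_congr rfl h4]
  simp only [Finset.sum_const, Finset.card_univ, Fintype.card_fin, nsmul_eq_mul]
  linarith

end Pool.Agent.ZR

end

section

/-!
# ZR/MJc : semicircle facts: the index set `JJ` and bounds for `rho`, `Fsc`

PROOF.  `Fsc x = ∫_{-2}^{x} rho` for `x ∈ [-2,2]`, `0 ≤ rho ≤ 1/π`, `rho` continuous and positive on `(-2,2)`,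
`∫_{-2}^2 rho = 1` (Mathlib: `integral_sqrt_one_sub_sq` after scaling; or cite a semicircle lemma).
* `rho_lb`: `rho` is continuous and positive on a compact interval.  `rho_le_one : rho x ≤ 1`:
  `√(4-x²)/(2π) ≤ 2/(2π) < 1`.
* `JJ_card`: for `b = n^(-1+ε)`, `|JJ| ` differs from `n (Fsc(E+b) - Fsc(E-b))` by at most 1 (number of
  integers in a half open interval `[u, v)` inside `[0, n]`), and `2 b inf rho ≤ Fsc(E+b) - Fsc(E-b)
  ≤ 2b`, where the infimum is over `[E-c1, E+c1]`, so `c n^ε ≤ |JJ| ≤ C n^ε` for large `n`; and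
  `c n ≤ n Fsc(E - b) ≤ i` because `Fsc (E-b) ≥ Fsc(E - c1) > 0`; `i < n Fsc(E+b) ≤ (1-c) n` because
  `Fsc(E+c1) < Fsc 2 = 1`.
* `pick`: `c0 = (2-|E|)/2`, `κ = min (1/2) (min (Fsc(E-c0)) (1-Fsc(E+c0)))/2`.
-/


open MeasureTheory ProbabilityTheory Matrix

namespace Pool.Agent.ZR

theorem rho_cont : Continuous rho := by
  unfold rho
  fun_prop

theorem rho_le_one (x : ℝ) : rho x ≤ 1 := by
  unfold rho
  rw [div_le_one (by positivity)]
  have h1 : Real.sqrt (4 - x ^ 2) ≤ 2 := by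
    rw [Real.sqrt_le_left (by norm_num)]
    nlinarith [sq_nonneg x]
  nlinarith [Real.pi_gt_three]

private theorem mjc_pos {x : ℝ} (h1 : -2 < x) (h2 : x < 2) : 0 < rho x := by
  unfold rho
  have h3 : 0 < 4 - x ^ 2 := by nlinarith
  have h4 := Real.sqrt_pos.2 h3
  positivity

private theorem mjc_lb {E : ℝ} (h1 : -2 < E) (h2 : E < 2) :
    ∃ κ : ℝ, 0 < κ ∧ ∀ x, |x - E| ≤ (2 - |E|) / 2 → κ ≤ rho x := by
  have hE : |E| < 2 := abs_lt.2 ⟨h1, h2⟩
  have hE0 : 0 ≤ |E| := abs_nonneg E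
  refine ⟨rho ((2 + |E|) / 2), mjc_pos (by linarith) (by linarith), ?_⟩
  intro x hx
  have hxa : |x| ≤ (2 + |E|) / 2 := by
    have := abs_add_le (x - E) E
    rw [sub_add_cancel] at this
    linarith
  have hsq : x ^ 2 ≤ ((2 + |E|) / 2) ^ 2 :=
    sq_le_sq' (by linarith [neg_abs_le x]) (by linarith [le_abs_self x])
  unfold rho
  apply div_le_div_of_nonneg_right _ (by positivity)
  exact Real.sqrt_le_sqrt (by linarith)

theorem rho_lb {E : ℝ} (h1 : -2 < E) (h2 : E < 2) :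
    ∃ κ c1 : ℝ, 0 < κ ∧ 0 < c1 ∧ ∀ x, |x - E| ≤ c1 → κ ≤ rho x := by
  obtain ⟨κ, hκ, h⟩ := mjc_lb h1 h2
  have hE : |E| < 2 := abs_lt.2 ⟨h1, h2⟩
  exact ⟨κ, (2 - |E|) / 2, hκ, by linarith, h⟩

private theorem mjc_int (a b : ℝ) : IntervalIntegrable rho volume a b :=
  rho_cont.intervalIntegrable a b

private theorem mjc_Fsc {x : ℝ} (h1 : -2 ≤ x) (h2 : x ≤ 2) :
    Fsc x = ∫ y in (-2 : ℝ)..x, rho y := by
  unfold Fsc
  rw [min_eq_left h2, max_eq_right h1]

private theorem mjc_sub {x y : ℝ} (h1 : -2 ≤ x) (h2 : x ≤ y) (h3 : y ≤ 2) :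
    Fsc y - Fsc x = ∫ t in x..y, rho t := by
  rw [mjc_Fsc (h1.trans h2) h3, mjc_Fsc h1 (h2.trans h3)]
  exact intervalIntegral.integral_interval_sub_left (mjc_int _ _) (mjc_int _ _)

private theorem mjc_two : Fsc 2 = 1 := by
  rw [mjc_Fsc (by norm_num) le_rfl]
  have h1 : ∫ y in (-2 : ℝ)..2, rho y
      = (2 * Real.pi)⁻¹ * ∫ y in (-2 : ℝ)..2, Real.sqrt (4 - y ^ 2) := by
    rw [← intervalIntegral.integral_const_mul]
    refine intervalIntegral.integral_congr fun y _ => ?_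
    simp only [rho]
    rw [div_eq_inv_mul]
  have h2 : ∫ y in (-2 : ℝ)..2, Real.sqrt (4 - y ^ 2) = 2 * Real.pi := by
    have h3 := intervalIntegral.smul_integral_comp_mul_left (a := -1) (b := 1)
      (fun y : ℝ => Real.sqrt (4 - y ^ 2)) 2
    have h4 : ∫ x in (-1 : ℝ)..1, Real.sqrt (4 - (2 * x) ^ 2)
        = 2 * ∫ x in (-1 : ℝ)..1, Real.sqrt (1 - x ^ 2) := by
      rw [← intervalIntegral.integral_const_mul]
      refine intervalIntegral.integral_congr fun y _ => ?_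
      have h5 : (4 : ℝ) - (2 * y) ^ 2 = 2 ^ 2 * (1 - y ^ 2) := by ring
      rw [h5, Real.sqrt_mul (by norm_num), Real.sqrt_sq (by norm_num)]
    rw [h4, integral_sqrt_one_sub_sq] at h3
    have e1 : (2 : ℝ) * -1 = -2 := by norm_num
    have e2 : (2 : ℝ) * 1 = 2 := by norm_num
    rw [e1, e2] at h3
    rw [← h3, smul_eq_mul]
    ring
  rw [h1, h2]
  exact inv_mul_cancel₀ (by positivity)

private theorem mjc_m2 : Fsc (-2) = 0 := by
  rw [mjc_Fsc le_rfl (by norm_num), intervalIntegral.integral_same]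

private theorem mjc_mono {x y : ℝ} (h1 : -2 ≤ x) (h2 : x ≤ y) (h3 : y ≤ 2) : Fsc x ≤ Fsc y := by
  have h := mjc_sub h1 h2 h3
  have h4 : 0 ≤ ∫ t in x..y, rho t :=
    intervalIntegral.integral_nonneg h2 fun t _ => rho_nonneg t
  linarith

private theorem mjc_strict {x y : ℝ} (h1 : -2 ≤ x) (h2 : x < y) (h3 : y ≤ 2) : Fsc x < Fsc y := by
  have h := mjc_sub h1 h2.le h3
  have h4 : 0 < ∫ t in x..y, rho t :=
    intervalIntegral.intervalIntegral_pos_of_pos_on (mjc_int _ _)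
      (fun t ht => mjc_pos (h1.trans_lt ht.1) (ht.2.trans_le h3)) h2
  linarith

private theorem mjc_up {x y : ℝ} (h1 : -2 ≤ x) (h2 : x ≤ y) (h3 : y ≤ 2) :
    Fsc y - Fsc x ≤ y - x := by
  rw [mjc_sub h1 h2 h3]
  have h4 : ∫ t in x..y, rho t ≤ ∫ _t in x..y, (1 : ℝ) :=
    intervalIntegral.integral_mono_on h2 (mjc_int _ _) (by simp) fun t _ => rho_le_one t
  simpa using h4

private theorem mjc_dn {x y κ : ℝ} (h1 : -2 ≤ x) (h2 : x ≤ y) (h3 : y ≤ 2)
    (hk : ∀ t ∈ Set.Icc x y, κ ≤ rho t) :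
    κ * (y - x) ≤ Fsc y - Fsc x := by
  rw [mjc_sub h1 h2 h3]
  have h4 : ∫ _t in x..y, κ ≤ ∫ t in x..y, rho t :=
    intervalIntegral.integral_mono_on h2 (by simp) (mjc_int _ _) hk
  rw [intervalIntegral.integral_const, smul_eq_mul] at h4
  linarith

private theorem mjc_card {n : ℕ} {u v : ℝ} (hu : 0 ≤ u) (huv : u ≤ v) (hv : v ≤ n)
    (s : Finset ℕ) (hs : ∀ i, i ∈ s ↔ i < n ∧ u ≤ i ∧ (i : ℝ) < v) :
    v - u - 1 ≤ (s.card : ℝ) ∧ (s.card : ℝ) ≤ v - u + 1 := by
  have h1 : s = Finset.Ico ⌈u⌉₊ ⌈v⌉₊ := by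
    ext i
    rw [hs, Finset.mem_Ico, Nat.ceil_le, Nat.lt_ceil]
    constructor
    · rintro ⟨-, h2, h3⟩
      exact ⟨h2, h3⟩
    · rintro ⟨h2, h3⟩
      refine ⟨?_, h2, h3⟩
      exact_mod_cast h3.trans_le hv
  have h2 : ⌈u⌉₊ ≤ ⌈v⌉₊ := Nat.ceil_mono huv
  have h3 := Nat.le_ceil u
  have h4 := Nat.ceil_lt_add_one hu
  have h5 := Nat.le_ceil v
  have h6 := Nat.ceil_lt_add_one (hu.trans huv)
  rw [h1, Nat.card_Ico, Nat.cast_sub h2]
  constructor <;> linarith

theorem JJ_card {E ε : ℝ} (h1 : -2 < E) (h2 : E < 2) (hε : 0 < ε) (hε1 : ε < 1) :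
    ∃ c C : ℝ, 0 < c ∧ 0 < C ∧ ∃ n0 : ℕ, ∀ n : ℕ, n0 ≤ n →
      c * (n : ℝ) ^ ε ≤ ((JJ n E ((n : ℝ) ^ (-1 + ε))).card : ℝ) ∧
      ((JJ n E ((n : ℝ) ^ (-1 + ε))).card : ℝ) ≤ C * (n : ℝ) ^ ε ∧
      ∀ i ∈ JJ n E ((n : ℝ) ^ (-1 + ε)), c * n ≤ i ∧ (i : ℝ) ≤ (1 - c) * n := by
  obtain ⟨κ, hκ, hlb⟩ := mjc_lb h1 h2
  have hE : |E| < 2 := abs_lt.2 ⟨h1, h2⟩
  have hE1 := neg_abs_le E
  have hE2 := le_abs_self E
  set c1 : ℝ := (2 - |E|) / 2 with hc1
  have hc1p : 0 < c1 := by rw [hc1]; linarith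
  have hlo : -2 < E - c1 := by rw [hc1]; linarith
  have hhi : E + c1 < 2 := by rw [hc1]; linarith
  have ha : 0 < Fsc (E - c1) := by
    have := mjc_strict le_rfl hlo (by linarith : E - c1 ≤ 2)
    rwa [mjc_m2] at this
  have hb : Fsc (E + c1) < 1 := by
    have := mjc_strict (by linarith : -2 ≤ E + c1) hhi le_rfl
    rwa [mjc_two] at this
  refine ⟨min κ (min (Fsc (E - c1)) (1 - Fsc (E + c1))), 3,
    lt_min hκ (lt_min ha (by linarith)), by norm_num, ?_⟩
  have t1 : Filter.Tendsto (fun n : ℕ => (n : ℝ) ^ (-(1 - ε))) Filter.atTop (nhds 0) :=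
    (tendsto_rpow_neg_atTop (by linarith : 0 < 1 - ε)).comp tendsto_natCast_atTop_atTop
  have t2 : Filter.Tendsto (fun n : ℕ => (n : ℝ) ^ ε) Filter.atTop Filter.atTop :=
    (tendsto_rpow_atTop hε).comp tendsto_natCast_atTop_atTop
  have e1 := t1.eventually_le_const hc1p
  have e2 := t2.eventually_ge_atTop (max 1 (1 / κ))
  obtain ⟨n0, hn0⟩ := Filter.eventually_atTop.1 ((e1.and e2).and (Filter.eventually_ge_atTop 1))
  refine ⟨n0, fun n hn => ?_⟩
  obtain ⟨⟨hb1, hb2⟩, hn1⟩ := hn0 n hn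
  have hnpos : (0 : ℝ) < n := by exact_mod_cast hn1
  have hexp : (-(1 - ε) : ℝ) = -1 + ε := by ring
  rw [hexp] at hb1
  set b : ℝ := (n : ℝ) ^ (-1 + ε) with hbdef
  have hbpos : 0 < b := Real.rpow_pos_of_pos hnpos _
  have hnb : (n : ℝ) * b = (n : ℝ) ^ ε := by
    rw [hbdef, Real.rpow_add hnpos, Real.rpow_neg_one, ← mul_assoc, mul_inv_cancel₀ hnpos.ne',
      one_mul]
  have hone : 1 ≤ (n : ℝ) ^ ε := (le_max_left _ _).trans hb2
  have hkone : 1 ≤ κ * (n : ℝ) ^ ε := by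
    have := (le_max_right _ _).trans hb2
    rw [div_le_iff₀ hκ] at this
    linarith
  have hx1 : -2 ≤ E - b := by linarith
  have hx2 : E + b ≤ 2 := by linarith
  have hu0 : 0 ≤ (n : ℝ) * Fsc (E - b) := by
    have := mjc_mono le_rfl hx1 (by linarith : E - b ≤ 2)
    rw [mjc_m2] at this
    positivity
  have huv : (n : ℝ) * Fsc (E - b) ≤ n * Fsc (E + b) :=
    mul_le_mul_of_nonneg_left (mjc_mono hx1 (by linarith) hx2) hnpos.le
  have hvn : (n : ℝ) * Fsc (E + b) ≤ n := by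
    have := mjc_mono (by linarith : -2 ≤ E + b) hx2 le_rfl
    rw [mjc_two] at this
    nlinarith
  have hmem : ∀ i, i ∈ JJ n E b ↔ i < n ∧ (n : ℝ) * Fsc (E - b) ≤ i ∧ (i : ℝ) < n * Fsc (E + b) := by
    intro i
    unfold JJ
    simp only [Finset.mem_filter, Finset.mem_range]
  obtain ⟨k1, k2⟩ := mjc_card hu0 huv hvn (JJ n E b) hmem
  have hup := mjc_up hx1 (by linarith) hx2
  have hdn := mjc_dn (κ := κ) hx1 (by linarith) hx2 (fun t ht => hlb t (by
    rw [abs_le]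
    constructor
    · linarith [ht.1]
    · linarith [ht.2]))
  have hup2 : (n : ℝ) * Fsc (E + b) - n * Fsc (E - b) ≤ 2 * (n : ℝ) ^ ε := by
    rw [← mul_sub, ← hnb]
    nlinarith
  have hdn2 : 2 * κ * (n : ℝ) ^ ε ≤ (n : ℝ) * Fsc (E + b) - n * Fsc (E - b) := by
    rw [← mul_sub, ← hnb]
    nlinarith
  have m1 : min κ (min (Fsc (E - c1)) (1 - Fsc (E + c1))) ≤ κ := min_le_left _ _
  have m2 : min κ (min (Fsc (E - c1)) (1 - Fsc (E + c1))) ≤ Fsc (E - c1) :=
    (min_le_right _ _).trans (min_le_left _ _)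
  have m3 : min κ (min (Fsc (E - c1)) (1 - Fsc (E + c1))) ≤ 1 - Fsc (E + c1) :=
    (min_le_right _ _).trans (min_le_right _ _)
  refine ⟨?_, ?_, ?_⟩
  · have := mul_le_mul_of_nonneg_right m1 (by linarith : 0 ≤ (n : ℝ) ^ ε)
    linarith
  · linarith
  · intro i hi
    obtain ⟨-, i1, i2⟩ := (hmem i).1 hi
    have j1 := mjc_mono hlo.le (by linarith : E - c1 ≤ E - b) (by linarith)
    have j2 := mjc_mono (by linarith : -2 ≤ E + b) (by linarith : E + b ≤ E + c1) hhi.le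
    constructor
    · nlinarith
    · nlinarith

theorem pick {E : ℝ} (h1 : -2 < E) (h2 : E < 2) :
    ∃ κ c0 : ℝ, 0 < κ ∧ κ ≤ 1 / 2 ∧ 0 < c0 ∧ |E| + c0 < 2 ∧ κ < Fsc (E - c0) ∧
      Fsc (E + c0) < 1 - κ := by
  have hE : |E| < 2 := abs_lt.2 ⟨h1, h2⟩
  have hE1 := neg_abs_le E
  have hE2 := le_abs_self E
  set c1 : ℝ := (2 - |E|) / 2 with hc1
  have hc1p : 0 < c1 := by rw [hc1]; linarith
  have hlo : -2 < E - c1 := by rw [hc1]; linarith
  have hhi : E + c1 < 2 := by rw [hc1]; linarith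
  have ha : 0 < Fsc (E - c1) := by
    have := mjc_strict le_rfl hlo (by linarith : E - c1 ≤ 2)
    rwa [mjc_m2] at this
  have hb : Fsc (E + c1) < 1 := by
    have := mjc_strict (by linarith : -2 ≤ E + c1) hhi le_rfl
    rwa [mjc_two] at this
  have hmin : 0 < min (Fsc (E - c1)) (1 - Fsc (E + c1)) := lt_min ha (by linarith)
  have g1 : min (Fsc (E - c1)) (1 - Fsc (E + c1)) ≤ Fsc (E - c1) := min_le_left _ _
  have g2 : min (Fsc (E - c1)) (1 - Fsc (E + c1)) ≤ 1 - Fsc (E + c1) := min_le_right _ _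
  have m1 : min (1 / 2 : ℝ) (min (Fsc (E - c1)) (1 - Fsc (E + c1)) / 2) ≤ 1 / 2 := min_le_left _ _
  have m2 : min (1 / 2 : ℝ) (min (Fsc (E - c1)) (1 - Fsc (E + c1)) / 2)
      ≤ min (Fsc (E - c1)) (1 - Fsc (E + c1)) / 2 := min_le_right _ _
  refine ⟨min (1 / 2) (min (Fsc (E - c1)) (1 - Fsc (E + c1)) / 2), c1,
    lt_min (by norm_num) (by linarith), m1, hc1p, ?_, ?_, ?_⟩
  · rw [hc1]; linarith
  · linarith
  · linarith

end Pool.Agent.ZR

end

section

/-!
# ZR/MLin : sums over distinct tuples of a product function = polynomial in linear statistics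

`distS` sums over embeddings `Fin k ↪ Fin s.toList.length`.

PROOF.
* `linS_eq_sum`: `s = ↑s.toList` (`Multiset.coe_toList`), so `(s.map g).sum = (s.toList.map g).sum
  = ∑ i : Fin s.toList.length, g (s.toList.get i)` (`List.sum_ofFn`, `Fin.sum_univ_def`, `List.ofFn_get`...).
* `distS_succ`: with `ι = Fin s.toList.length` and `x i = c*(s.toList.get i - y)` use
  `Equiv.embeddingFinSucc k ι : (Fin (k+1) ↪ ι) ≃ Σ e : Fin k ↪ ι, {i // i ∉ Set.range e}`
  (`Equiv.coe_embeddingFinSucc_symm`: the embedding is `Fin.cons i e`), `Fin.prod_univ_succ`, so the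
  left side is `∑_e (∏_t φ_{t+1}(x (e t))) * ∑_{i ∉ range e} φ_0 (x i)` and
  `∑_{i ∉ range e} φ_0 (x i) = ∑_i φ_0 (x i) - ∑_{j : Fin k} φ_0 (x (e j))` (`e` injective:
  `Finset.sum_map`/`Finset.sum_image`); finally `φ_0 (x (e j)) ∏_t φ_{t+1}(x (e t))
  = ∏_t (if t = j then φ_0 * φ_{t+1} else φ_{t+1})(x (e t))`.
* `dist_expand`: induction on `k`.  `k = 0` (one factor): `distS = linS s (φ 0) c y` (by `distS_succ`:
  the sum over `Fin 0` is empty and `distS` of the empty product is 1).  Step: `distS_succ`; the first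
  term multiplies every product of the expansion for `fun t => φ t.succ` by `linS s (φ 0)` (`r a + 1`
  becomes `r a + 2`, use `Fin.cons`), the other terms are expanded by the induction hypothesis; a
  finite sum of expansions is an expansion (concatenate the index sets; it is convenient to prove the
  statement with an arbitrary `Fintype` (or `Finset`/list) index first: e.g. define the predicate
  `Pol (Φ : Multiset ℝ → ℝ → ℝ → ℝ) : Prop := ∃ (A : Type) (_ : Fintype A) (coef : A → ℝ) (r : A → ℕ)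
  (ψ : ∀ a, Fin (r a + 1) → ℝ → ℝ), ...`, closed under sums, scalar multiples, multiplication by
  one linear statistic, and convert to `Fin N` at the end by `Fintype.equivFin`).
  Products of test functions are test functions (`ContDiff.mul`, `HasCompactSupport.mul_right`).
-/


namespace Pool.Agent.ZR

private theorem sum_not_range {ι : Type} [Fintype ι] [DecidableEq ι] {k : ℕ} (e : Fin k ↪ ι)
    (f : ι → ℝ) :
    ∑ i : {i // i ∉ Set.range e}, f i = ∑ i, f i - ∑ j, f (e j) := by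
  classical
  have hI : ∀ (p : ι → Prop) (I J : Fintype {i // p i}),
      (@Finset.univ _ I).sum (fun i : {i // p i} => f i)
        = (@Finset.univ _ J).sum (fun i : {i // p i} => f i) := by
    intro p I J
    rw [Subsingleton.elim I J]
  have h1 : ∑ i : {i // i ∈ Set.range e}, f i + ∑ i : {i // i ∉ Set.range e}, f i
      = ∑ i, f i := by
    refine Eq.trans ?_ (Fintype.sum_subtype_add_sum_subtype (fun i => i ∈ Set.range e) f)
    exact congrArg₂ (fun a b : ℝ => a + b) (hI (fun i => i ∈ Set.range e) _ _)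
      (hI (fun i => ¬ (i ∈ Set.range e)) _ _)
  have h2 : ∑ i : {i // i ∈ Set.range e}, f i = ∑ j, f (e j) := by
    have := (Equiv.ofInjective e e.injective).sum_comp (fun i : {i // i ∈ Set.range e} => f i)
    rw [← this]
    rfl
  rw [← h1, h2]
  ring

private theorem succ_aux {ι : Type} [Fintype ι] [DecidableEq ι] {k : ℕ}
    (φ : Fin (k + 1) → ℝ → ℝ) (x : ι → ℝ) :
    ∑ f : Fin (k + 1) ↪ ι, ∏ t, φ t (x (f t)) =
      (∑ i, φ 0 (x i)) * (∑ e : Fin k ↪ ι, ∏ t, φ t.succ (x (e t)))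
      - ∑ j : Fin k, ∑ e : Fin k ↪ ι,
          ∏ t, (if t = j then fun u => φ 0 u * φ t.succ u else φ t.succ) (x (e t)) := by
  classical
  rw [← (Equiv.embeddingFinSucc k ι).symm.sum_comp, Fintype.sum_sigma]
  have h1 : ∀ (e : Fin k ↪ ι),
      ∑ i : {i // i ∉ Set.range e},
        ∏ t, φ t (x ((Equiv.embeddingFinSucc k ι).symm ⟨e, i⟩ t))
      = (∑ i, φ 0 (x i)) * (∏ t, φ t.succ (x (e t)))
        - ∑ j : Fin k, ∏ t, (if t = j then fun u => φ 0 u * φ t.succ u else φ t.succ)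
            (x (e t)) := by
    intro e
    have h2 : ∀ i : {i // i ∉ Set.range e},
        ∏ t, φ t (x ((Equiv.embeddingFinSucc k ι).symm ⟨e, i⟩ t))
        = φ 0 (x i) * ∏ t, φ t.succ (x (e t)) := by
      intro i
      rw [Fin.prod_univ_succ, Equiv.coe_embeddingFinSucc_symm]
      simp
    rw [Finset.sum_congr rfl (fun i _ => h2 i), ← Finset.sum_mul,
      sum_not_range e (fun i => φ 0 (x i)), sub_mul]
    congr 1
    rw [Finset.sum_mul]
    refine Finset.sum_congr rfl fun j _ => ?_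
    rw [← Finset.mul_prod_erase Finset.univ (fun t => φ t.succ (x (e t))) (Finset.mem_univ j),
      ← Finset.mul_prod_erase Finset.univ
        (fun t => (if t = j then fun u => φ 0 u * φ t.succ u else φ t.succ) (x (e t)))
        (Finset.mem_univ j)]
    simp only [if_true]
    rw [← mul_assoc]
    congr 1
    refine Finset.prod_congr rfl fun t ht => ?_
    rw [if_neg (Finset.ne_of_mem_erase ht)]
  rw [Finset.sum_congr rfl (fun e _ => h1 e), Finset.sum_sub_distrib, ← Finset.mul_sum]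
  congr 1
  exact Finset.sum_comm

theorem linS_eq_sum (s : Multiset ℝ) (φ : ℝ → ℝ) (c y : ℝ) :
    linS s φ c y = ∑ i : Fin s.toList.length, φ (c * (s.toList.get i - y)) := by
  unfold linS
  conv_lhs => rw [← Multiset.coe_toList s]
  rw [Multiset.map_coe, Multiset.sum_coe]
  exact (Fin.sum_univ_fun_getElem s.toList (fun l => φ (c * (l - y)))).symm

theorem distS_succ {k : ℕ} (φ : Fin (k + 1) → ℝ → ℝ) (c y : ℝ) (s : Multiset ℝ) :
    distS (fun v : Fin (k + 1) → ℝ => ∏ t, φ t (v t)) c y s =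
      linS s (φ 0) c y * distS (fun v : Fin k → ℝ => ∏ t, φ t.succ (v t)) c y s
      - ∑ j : Fin k, distS (fun v : Fin k → ℝ =>
          ∏ t, (if t = j then fun u => φ 0 u * φ t.succ u else φ t.succ) (v t)) c y s := by
  rw [linS_eq_sum]
  unfold distS
  exact succ_aux φ (fun i => c * (s.toList.get i - y))

private def Pol (Φ : Multiset ℝ → ℝ → ℝ → ℝ) : Prop :=
  ∃ (A : Type) (_ : Fintype A) (coef : A → ℝ) (T : A → (Σ r : ℕ, (Fin (r + 1) → ℝ → ℝ))),
    (∀ a j, Tst ((T a).2 j)) ∧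
    ∀ (s : Multiset ℝ) (c y : ℝ), Φ s c y = ∑ a, coef a * ∏ j, linS s ((T a).2 j) c y

private theorem pol_lin {φ : ℝ → ℝ} (hφ : Tst φ) : Pol (fun s c y => linS s φ c y) := by
  refine ⟨Unit, inferInstance, fun _ => 1, fun _ => ⟨0, fun _ => φ⟩, fun _ _ => hφ, ?_⟩
  intro s c y
  simp

private theorem pol_mul {φ : ℝ → ℝ} (hφ : Tst φ) {Φ : Multiset ℝ → ℝ → ℝ → ℝ} (h : Pol Φ) :
    Pol (fun s c y => linS s φ c y * Φ s c y) := by
  obtain ⟨A, iA, coef, T, hT, h⟩ := h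
  refine ⟨A, iA, coef, fun a => ⟨(T a).1 + 1, Fin.cons φ (T a).2⟩, ?_, ?_⟩
  · intro a j
    refine Fin.cases ?_ (fun i => ?_) j
    · simpa using hφ
    · simpa using hT a i
  · intro s c y
    show linS s φ c y * Φ s c y = _
    rw [h, Finset.mul_sum]
    refine Finset.sum_congr rfl fun a _ => ?_
    show _ = coef a * ∏ j : Fin ((T a).1 + 1 + 1),
      linS s ((Fin.cons φ (T a).2 : Fin ((T a).1 + 1 + 1) → ℝ → ℝ) j) c y
    rw [Fin.prod_univ_succ (n := (T a).1 + 1)]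
    simp only [Fin.cons_zero, Fin.cons_succ]
    ring

private theorem pol_sub_sum {k : ℕ} {Φ : Multiset ℝ → ℝ → ℝ → ℝ} (h : Pol Φ)
    {Ψ : Fin k → Multiset ℝ → ℝ → ℝ → ℝ} (h' : ∀ j, Pol (Ψ j)) :
    Pol (fun s c y => Φ s c y - ∑ j, Ψ j s c y) := by
  obtain ⟨A, iA, coef, T, hT, h⟩ := h
  choose B iB coef' T' hT' h'' using h'
  refine ⟨A ⊕ (Σ j, B j), inferInstance, Sum.elim coef (fun q => - coef' q.1 q.2),
    Sum.elim T (fun q => T' q.1 q.2), ?_, ?_⟩
  · rintro (a | b) j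
    · exact hT a j
    · exact hT' b.1 b.2 j
  · intro s c y
    show Φ s c y - ∑ j, Ψ j s c y = _
    rw [Fintype.sum_sum_type, Fintype.sum_sigma, h]
    simp only [h'', Sum.elim_inl, Sum.elim_inr, neg_mul, Finset.sum_neg_distrib]
    rw [sub_eq_add_neg]
    rfl

private theorem tst_mul {φ ψ : ℝ → ℝ} (hφ : Tst φ) (hψ : Tst ψ) : Tst (fun u => φ u * ψ u) :=
  ⟨hφ.1.mul hψ.1, hφ.2.mul_right⟩

private theorem pol_dist : ∀ (k : ℕ) (φ : Fin (k + 1) → ℝ → ℝ), (∀ j, Tst (φ j)) →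
    Pol (fun s c y => distS (fun v : Fin (k + 1) → ℝ => ∏ t, φ t (v t)) c y s) := by
  intro k
  induction k with
  | zero =>
    intro φ hφ
    have h : (fun (s : Multiset ℝ) (c y : ℝ) =>
        distS (fun v : Fin (0 + 1) → ℝ => ∏ t, φ t (v t)) c y s)
        = fun s c y => linS s (φ 0) c y := by
      funext s c y
      rw [distS_succ]
      simp [distS]
    rw [h]
    exact pol_lin (hφ 0)
  | succ k ih =>
    intro φ hφ
    have h : (fun (s : Multiset ℝ) (c y : ℝ) =>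
        distS (fun v : Fin (k + 1 + 1) → ℝ => ∏ t, φ t (v t)) c y s)
        = fun s c y =>
          linS s (φ 0) c y * distS (fun v : Fin (k + 1) → ℝ => ∏ t, φ t.succ (v t)) c y s
          - ∑ j : Fin (k + 1), distS (fun v : Fin (k + 1) → ℝ =>
          ∏ t, (if t = j then fun u => φ 0 u * φ t.succ u else φ t.succ) (v t)) c y s := by
      funext s c y
      rw [distS_succ]
    rw [h]
    refine pol_sub_sum (pol_mul (hφ 0) (ih (fun t => φ t.succ) (fun t => hφ _))) ?_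
    intro j
    refine ih (fun t => if t = j then fun u => φ 0 u * φ t.succ u else φ t.succ) ?_
    intro t
    by_cases htj : t = j
    · simp only [htj, if_true]
      exact tst_mul (hφ 0) (hφ _)
    · simp only [htj, if_false]
      exact hφ _

/-- sums over distinct tuples of a product are polynomials without constant term in the linear
statistics of products of the factors -/
theorem dist_expand {k : ℕ} (φ : Fin (k + 1) → ℝ → ℝ) (hφ : ∀ j, Tst (φ j)) :
    ∃ (N : ℕ) (coef : Fin N → ℝ) (r : Fin N → ℕ) (ψ : ∀ a, Fin (r a + 1) → ℝ → ℝ),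
      (∀ a j, Tst (ψ a j)) ∧
      ∀ (s : Multiset ℝ) (c y : ℝ),
        distS (fun v : Fin (k + 1) → ℝ => ∏ t, φ t (v t)) c y s
          = ∑ a, coef a * ∏ j, linS s (ψ a j) c y := by
  obtain ⟨A, iA, coef, T, hT, h⟩ := pol_dist k φ hφ
  refine ⟨Fintype.card A, fun i => coef ((Fintype.equivFin A).symm i),
    fun i => (T ((Fintype.equivFin A).symm i)).1, fun i => (T ((Fintype.equivFin A).symm i)).2,
    fun a j => hT _ _, ?_⟩
  intro s c y
  have h1 := h s c y
  simp only at h1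
  rw [h1]
  exact ((Fintype.equivFin A).symm.sum_comp
    (fun a => coef a * ∏ j, linS s ((T a).2 j) c y)).symm

/-- monotonicity of `distS` in the function -/
theorem distS_mono {k : ℕ} {F G : (Fin k → ℝ) → ℝ} (h : ∀ v, F v ≤ G v) (c y : ℝ)
    (s : Multiset ℝ) : distS F c y s ≤ distS G c y s := by
  unfold distS
  exact Finset.sum_le_sum fun f _ => h _

/-- `distS` is linear -/
theorem distS_lin {k N : ℕ} (coef : Fin N → ℝ) (F : Fin N → (Fin k → ℝ) → ℝ) (c y : ℝ)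
    (s : Multiset ℝ) :
    distS (fun v => ∑ a, coef a * F a v) c y s = ∑ a, coef a * distS (F a) c y s := by
  unfold distS
  rw [Finset.sum_comm]
  refine Finset.sum_congr rfl fun a _ => ?_
  rw [Finset.mul_sum]

/-- full sums dominate distinct sums for nonnegative products -/
theorem distS_le_prod {k : ℕ} (χ : ℝ → ℝ) (hχ : ∀ u, 0 ≤ χ u) (c y : ℝ) (s : Multiset ℝ) :
    distS (fun v : Fin k → ℝ => ∏ t, χ (v t)) c y s ≤ (linS s χ c y) ^ k := by
  classical
  rw [linS_eq_sum, Fintype.sum_pow]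
  unfold distS
  have h1 : ∑ f : Fin k ↪ Fin s.toList.length, ∏ t, χ (c * (s.toList.get (f t) - y))
      = ∑ p ∈ Finset.image (fun f : Fin k ↪ Fin s.toList.length =>
          (f : Fin k → Fin s.toList.length)) Finset.univ,
        ∏ t, χ (c * (s.toList.get (p t) - y)) := by
    rw [Finset.sum_image]
    intro a _ b _ hab
    exact DFunLike.coe_injective hab
  calc _ = ∑ f : Fin k ↪ Fin s.toList.length, ∏ t, χ (c * (s.toList.get (f t) - y)) := rfl
    _ = _ := h1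
    _ ≤ _ := Finset.sum_le_sum_of_subset_of_nonneg (Finset.subset_univ _)
        (fun p _ _ => Finset.prod_nonneg fun t _ => hχ _)

end Pool.Agent.ZR

end

section

/-!
# ZR/MPk : one dimensional Poisson smoothing of a test function

PROOF.  `pk h` is nonnegative, integrable with integral 1 (`integral_univ_inv_one_add_sq` and the
substitution `u = h v`; or `integral_comp_mul_left`...).
* `tst_bd`: `φ` is bounded by `M` with support in `[-R,R]`: `|φ u| ≤ M (1+R²)/(1+u²)`.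
* `smo_sub`: `|u| ≤ 2R` (`R ≥ 1`): `|φ(u - w) - φ u| ≤ min (2M, L|w|) ≤ (2 M L |w|)^(1/2)` (φ is Lipschitz
  with constant `L`, bounded by `M`), hence `|smo φ h u - φ u| ≤ (2ML)^(1/2) ∫ |w|^(1/2) pk h w dw
  = C h^(1/2)` (`∫ |w|^(1/2)/(1+w²) < ∞`; a cheap way: `|w|^(1/2) ≤ (1+w²)^(1/4)` and
  `(1+w²)^(-3/4) ` is integrable, `integrable_rpow_neg_one_add_norm_sq`; after scaling `w = h w'`), and
  `1 ≤ (1+4R²)/(1+u²)`.  `|u| > 2R`: `φ u = 0` and for `|v| ≤ R`: `pk h (u - v) ≤ h/(π (u/2)²)`, so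
  `|smo φ h u| ≤ M 2R 4h/(π u²) ≤ C h/(1+u²) ≤ C h^(1/2)/(1+u²)`.
* `smo_bd`: triangle inequality.
* `smo_cont`: dominated convergence or `smo φ h = φ ⋆ pk h` with `pk h` bounded continuous;
  `HasCompactSupport.continuous_convolution_left` or `continuous_of_dominated`
  (`pk h ≤ 1/(π h)`).
-/


open MeasureTheory

namespace Pool.Agent.ZR

theorem pk_nonneg {h : ℝ} (hh : 0 < h) (u : ℝ) : 0 ≤ pk h u := by
  unfold pk
  have := Real.pi_pos
  positivity

theorem pk_cont {h : ℝ} (hh : 0 < h) : Continuous (pk h) := by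
  unfold pk
  have := Real.pi_pos
  refine Continuous.div continuous_const (by fun_prop) (fun u => ?_)
  positivity

theorem pk_eq_div {h : ℝ} (hh : 0 < h) (u : ℝ) :
    pk h u = (1 / (Real.pi * h)) * (1 + (u / h) ^ 2)⁻¹ := by
  unfold pk
  have := Real.pi_pos
  have h1 : (0 : ℝ) < 1 + (u / h) ^ 2 := by positivity
  have h2 : (0 : ℝ) < u ^ 2 + h ^ 2 := by positivity
  field_simp
  ring

theorem pk_integrable {h : ℝ} (hh : 0 < h) : Integrable (pk h) := by
  have h1 : Integrable (fun u : ℝ => (1 / (Real.pi * h)) * (1 + (u / h) ^ 2)⁻¹) :=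
    (integrable_inv_one_add_sq.comp_div hh.ne').const_mul _
  exact h1.congr (Filter.Eventually.of_forall fun u => (pk_eq_div hh u).symm)

theorem pk_integral {h : ℝ} (hh : 0 < h) : ∫ u, pk h u = 1 := by
  simp_rw [pk_eq_div hh]
  rw [integral_const_mul]
  have h1 := MeasureTheory.Measure.integral_comp_div (fun u : ℝ => (1 + u ^ 2)⁻¹) h
  rw [h1, integral_univ_inv_one_add_sq, abs_of_pos hh, smul_eq_mul]
  have := Real.pi_pos
  field_simp

theorem tst_data {φ : ℝ → ℝ} (hφ : Tst φ) : ∃ M R L : ℝ, 0 ≤ M ∧ 1 ≤ R ∧ 0 ≤ L ∧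
    (∀ u, |φ u| ≤ M) ∧ (∀ u, R < |u| → φ u = 0) ∧ (∀ u v, |φ u - φ v| ≤ L * |u - v|) := by
  obtain ⟨h1, h2⟩ := hφ
  obtain ⟨M, hM⟩ := h2.exists_bound_of_continuous h1.continuous
  obtain ⟨R, hR⟩ := h2.isCompact.isBounded.subset_closedBall (0 : ℝ)
  obtain ⟨K, hK⟩ := h1.lipschitzWith_of_hasCompactSupport h2 one_ne_zero
  refine ⟨M, max R 1, K, (norm_nonneg _).trans (hM 0), le_max_right _ _, K.2, fun u => ?_,
    fun u hu => ?_, fun u v => ?_⟩
  · simpa using hM u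
  · by_contra hne
    have h3 : u ∈ tsupport φ := subset_tsupport φ hne
    have h4 := hR h3
    rw [Metric.mem_closedBall, dist_zero_right, Real.norm_eq_abs] at h4
    exact absurd (lt_of_le_of_lt (le_max_left R 1) hu) (not_lt.2 h4)
  · have := hK.dist_le_mul u v
    simpa [Real.dist_eq] using this

theorem tst_integrable {φ : ℝ → ℝ} (hφ : Tst φ) : Integrable φ :=
  hφ.1.continuous.integrable_of_hasCompactSupport hφ.2

theorem tst_bd {φ : ℝ → ℝ} (hφ : Tst φ) : ∃ C : ℝ, 0 ≤ C ∧ ∀ u, |φ u| ≤ C / (1 + u ^ 2) := by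
  obtain ⟨M, R, L, hM0, hR1, hL0, hM, hR, hL⟩ := tst_data hφ
  refine ⟨M * (1 + R ^ 2), by positivity, fun u => ?_⟩
  have hpos : (0 : ℝ) < 1 + u ^ 2 := by positivity
  rw [le_div_iff₀ hpos]
  rcases le_or_gt |u| R with h | h
  · have h1 : u ^ 2 ≤ R ^ 2 := by
      rw [← sq_abs u]; gcongr
    gcongr
    exact hM u
  · rw [hR u h]
    simp
    positivity

/-- the half moment of the Poisson kernel -/
theorem pk_half {h : ℝ} (hh : 0 < h) :
    Integrable (fun w : ℝ => |w| ^ (1 / 2 : ℝ) * pk h w) ∧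
    ∫ w : ℝ, |w| ^ (1 / 2 : ℝ) * pk h w
      ≤ h ^ (1 / 2 : ℝ) * ∫ x : ℝ, ((1 : ℝ) + ‖x‖ ^ 2) ^ (-(3 / 2 : ℝ) / 2) := by
  have hpi := Real.pi_gt_three
  set g : ℝ → ℝ := fun x => ((1 : ℝ) + ‖x‖ ^ 2) ^ (-(3 / 2 : ℝ) / 2) with hg
  have hgi : Integrable g := by
    have : ((Module.finrank ℝ ℝ : ℕ) : ℝ) < 3 / 2 := by
      rw [Module.finrank_self]; norm_num
    exact integrable_rpow_neg_one_add_norm_sq this
  have hgi2 : Integrable (fun w : ℝ => h ^ (1 / 2 : ℝ) * (1 / h) * g (w / h)) :=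
    (hgi.comp_div hh.ne').const_mul _
  have hbd : ∀ w : ℝ, |w| ^ (1 / 2 : ℝ) * pk h w ≤ h ^ (1 / 2 : ℝ) * (1 / h) * g (w / h) := by
    intro w
    have e1 : |w| = h * |w / h| := by
      rw [abs_div, abs_of_pos hh]; field_simp
    rw [pk_eq_div hh, hg]
    simp only [Real.norm_eq_abs, sq_abs]
    set v := w / h with hv
    have hv1 : |v| ^ (1 / 2 : ℝ) ≤ (1 + v ^ 2) ^ (1 / 4 : ℝ) := by
      have h1 : |v| ^ (1 / 2 : ℝ) = (v ^ 2) ^ (1 / 4 : ℝ) := by
        rw [← sq_abs v, ← Real.rpow_natCast, ← Real.rpow_mul (abs_nonneg v)]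
        norm_num
      rw [h1]
      apply Real.rpow_le_rpow (sq_nonneg v) (by linarith) (by norm_num)
    have hpos : (0 : ℝ) < 1 + v ^ 2 := by positivity
    have e2 : (1 + v ^ 2) ^ (-(3 / 2 : ℝ) / 2) = (1 + v ^ 2) ^ (1 / 4 : ℝ) * (1 + v ^ 2)⁻¹ := by
      rw [← Real.rpow_neg_one, ← Real.rpow_add hpos]; norm_num
    rw [e1, Real.mul_rpow hh.le (abs_nonneg v), e2]
    have h3 : 1 / (Real.pi * h) ≤ 1 / h := by
      apply one_div_le_one_div_of_le hh
      nlinarith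
    have h4 : (0 : ℝ) ≤ h ^ (1 / 2 : ℝ) := by positivity
    have h5 : (0 : ℝ) ≤ (1 + v ^ 2)⁻¹ := by positivity
    calc h ^ (1 / 2 : ℝ) * |v| ^ (1 / 2 : ℝ) * (1 / (Real.pi * h) * (1 + v ^ 2)⁻¹)
        ≤ h ^ (1 / 2 : ℝ) * (1 + v ^ 2) ^ (1 / 4 : ℝ) * (1 / h * (1 + v ^ 2)⁻¹) := by
          gcongr
      _ = h ^ (1 / 2 : ℝ) * (1 / h) * ((1 + v ^ 2) ^ (1 / 4 : ℝ) * (1 + v ^ 2)⁻¹) := by ring
  have hnn : ∀ w : ℝ, 0 ≤ |w| ^ (1 / 2 : ℝ) * pk h w := fun w =>
    mul_nonneg (by positivity) (pk_nonneg hh w)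
  have hint : Integrable (fun w : ℝ => |w| ^ (1 / 2 : ℝ) * pk h w) := by
    refine hgi2.mono' ?_ (Filter.Eventually.of_forall fun w => ?_)
    · refine Continuous.aestronglyMeasurable ?_
      refine Continuous.mul ?_ (pk_cont hh)
      exact Continuous.rpow_const continuous_abs (fun x => Or.inr (by norm_num))
    · rw [Real.norm_of_nonneg (hnn w)]; exact hbd w
  refine ⟨hint, ?_⟩
  calc ∫ w : ℝ, |w| ^ (1 / 2 : ℝ) * pk h w
      ≤ ∫ w : ℝ, h ^ (1 / 2 : ℝ) * (1 / h) * g (w / h) := integral_mono hint hgi2 hbd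
    _ = h ^ (1 / 2 : ℝ) * ∫ x, g x := by
        rw [integral_const_mul, MeasureTheory.Measure.integral_comp_div, abs_of_pos hh,
          smul_eq_mul]
        field_simp

theorem smo_integrable {φ : ℝ → ℝ} (hφ : Tst φ) {h : ℝ} (hh : 0 < h) (u : ℝ) :
    Integrable (fun v => φ v * pk h (u - v)) := by
  obtain ⟨M, R, L, hM0, hR1, hL0, hM, hR, hL⟩ := tst_data hφ
  have hp := (pk_integrable hh).comp_sub_left u
  refine (hp.const_mul M).mono' ?_ (Filter.Eventually.of_forall fun v => ?_)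
  · refine Continuous.aestronglyMeasurable ?_
    exact hφ.1.continuous.mul ((pk_cont hh).comp (continuous_const.sub continuous_id))
  · rw [norm_mul, Real.norm_eq_abs, Real.norm_of_nonneg (pk_nonneg hh _)]
    exact mul_le_mul_of_nonneg_right (hM v) (pk_nonneg hh _)

theorem smo_sub {φ : ℝ → ℝ} (hφ : Tst φ) : ∃ C : ℝ, 0 ≤ C ∧ ∀ h u : ℝ, 0 < h → h ≤ 1 →
    |smo φ h u - φ u| ≤ C * h ^ (1 / 2 : ℝ) / (1 + u ^ 2) := by
  obtain ⟨M, R, L, hM0, hR1, hL0, hM, hR, hL⟩ := tst_data hφ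
  set K0 : ℝ := ∫ x : ℝ, ((1 : ℝ) + ‖x‖ ^ 2) ^ (-(3 / 2 : ℝ) / 2) with hK0
  have hK0' : 0 ≤ K0 := integral_nonneg fun x => by positivity
  set C1 : ℝ := (2 * M * L) ^ (1 / 2 : ℝ) * K0 with hC1
  have hC1' : 0 ≤ C1 := by positivity
  set I1 : ℝ := ∫ v, |φ v| with hI1
  have hI1' : 0 ≤ I1 := integral_nonneg fun v => abs_nonneg _
  refine ⟨C1 * (1 + 4 * R ^ 2) + 8 * I1, by positivity, fun h u hh hh1 => ?_⟩
  have hpi := Real.pi_gt_three
  have hpos : (0 : ℝ) < 1 + u ^ 2 := by positivity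
  have hhp : 0 < h ^ (1 / 2 : ℝ) := by positivity
  rw [le_div_iff₀ hpos]
  have hpint : Integrable (fun v => pk h (u - v)) := (pk_integrable hh).comp_sub_left u
  rcases le_or_gt |u| (2 * R) with hu | hu
  · have e1 : smo φ h u - φ u = ∫ v, (φ v - φ u) * pk h (u - v) := by
      have h1 : ∫ v, φ u * pk h (u - v) = φ u := by
        rw [integral_const_mul, integral_sub_left_eq_self (pk h), pk_integral hh, mul_one]
      have h2 : smo φ h u - φ u = (∫ v, φ v * pk h (u - v)) - ∫ v, φ u * pk h (u - v) := by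
        rw [h1]; rfl
      rw [h2, ← integral_sub (smo_integrable hφ hh u) (hpint.const_mul _)]
      refine integral_congr_ae (Filter.Eventually.of_forall fun v => ?_)
      simp only; ring
    have hb : ∀ v, ‖(φ v - φ u) * pk h (u - v)‖
        ≤ (2 * M * L) ^ (1 / 2 : ℝ) * (|u - v| ^ (1 / 2 : ℝ) * pk h (u - v)) := by
      intro v
      rw [norm_mul, Real.norm_eq_abs, Real.norm_of_nonneg (pk_nonneg hh _), ← mul_assoc]
      refine mul_le_mul_of_nonneg_right ?_ (pk_nonneg hh _)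
      rw [← Real.mul_rpow (by positivity) (abs_nonneg _)]
      have h1 : |φ v - φ u| ^ 2 ≤ 2 * M * L * |u - v| := by
        have a1 : |φ v - φ u| ≤ 2 * M := by
          calc |φ v - φ u| ≤ |φ v| + |φ u| := abs_sub _ _
            _ ≤ M + M := add_le_add (hM v) (hM u)
            _ = 2 * M := by ring
        have a2 : |φ v - φ u| ≤ L * |u - v| := by
          have := hL v u
          rwa [abs_sub_comm v u] at this
        calc |φ v - φ u| ^ 2 = |φ v - φ u| * |φ v - φ u| := by ring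
          _ ≤ (2 * M) * (L * |u - v|) := mul_le_mul a1 a2 (abs_nonneg _) (by positivity)
          _ = 2 * M * L * |u - v| := by ring
      calc |φ v - φ u| = (|φ v - φ u| ^ 2) ^ (1 / 2 : ℝ) := by
            rw [← Real.sqrt_eq_rpow, Real.sqrt_sq (abs_nonneg _)]
        _ ≤ (2 * M * L * |u - v|) ^ (1 / 2 : ℝ) :=
            Real.rpow_le_rpow (by positivity) h1 (by norm_num)
    obtain ⟨hi1, hi2⟩ := pk_half hh
    have hi3 : Integrable (fun v : ℝ => |u - v| ^ (1 / 2 : ℝ) * pk h (u - v)) :=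
      hi1.comp_sub_left u
    have e2 : |smo φ h u - φ u| ≤ C1 * h ^ (1 / 2 : ℝ) := by
      rw [e1, ← Real.norm_eq_abs]
      calc ‖∫ v, (φ v - φ u) * pk h (u - v)‖
          ≤ ∫ v, (2 * M * L) ^ (1 / 2 : ℝ) * (|u - v| ^ (1 / 2 : ℝ) * pk h (u - v)) :=
            norm_integral_le_of_norm_le (hi3.const_mul _) (Filter.Eventually.of_forall hb)
        _ = (2 * M * L) ^ (1 / 2 : ℝ) * ∫ w, |w| ^ (1 / 2 : ℝ) * pk h w := by
            rw [integral_const_mul,
              integral_sub_left_eq_self (fun w : ℝ => |w| ^ (1 / 2 : ℝ) * pk h w)]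
        _ ≤ (2 * M * L) ^ (1 / 2 : ℝ) * (h ^ (1 / 2 : ℝ) * K0) := by
            gcongr
        _ = C1 * h ^ (1 / 2 : ℝ) := by rw [hC1]; ring
    have e3 : 1 + u ^ 2 ≤ 1 + 4 * R ^ 2 := by
      have : u ^ 2 ≤ (2 * R) ^ 2 := by
        rw [← sq_abs u]; gcongr
      nlinarith
    calc |smo φ h u - φ u| * (1 + u ^ 2) ≤ (C1 * h ^ (1 / 2 : ℝ)) * (1 + 4 * R ^ 2) := by
          gcongr
      _ = C1 * (1 + 4 * R ^ 2) * h ^ (1 / 2 : ℝ) := by ring
      _ ≤ (C1 * (1 + 4 * R ^ 2) + 8 * I1) * h ^ (1 / 2 : ℝ) := by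
          gcongr
          linarith
  · have hu0 : φ u = 0 := hR u (by linarith)
    rw [hu0, sub_zero]
    have hu1 : 1 ≤ u ^ 2 := by
      rw [← sq_abs u]
      nlinarith
    have hu2 : 0 < u ^ 2 := by linarith
    have hb : ∀ v, ‖φ v * pk h (u - v)‖ ≤ |φ v| * (4 * h / (Real.pi * u ^ 2)) := by
      intro v
      rw [norm_mul, Real.norm_eq_abs, Real.norm_of_nonneg (pk_nonneg hh _)]
      rcases le_or_gt |v| R with hv | hv
      · refine mul_le_mul_of_nonneg_left ?_ (abs_nonneg _)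
        unfold pk
        have h1 : |u| / 2 ≤ |u - v| := by
          have := abs_sub_abs_le_abs_sub u v
          linarith
        have h2 : u ^ 2 / 4 ≤ (u - v) ^ 2 := by
          rw [← sq_abs (u - v), ← sq_abs u]
          nlinarith [abs_nonneg u, abs_nonneg (u - v)]
        rw [div_le_div_iff₀ (by positivity) (by positivity)]
        have h3 : 0 < h * Real.pi := by positivity
        nlinarith [mul_le_mul_of_nonneg_left h2 h3.le, mul_pos h3 (pow_pos hh 2)]
      · rw [hR v hv]; simp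
    have hI : |smo φ h u| ≤ I1 * (4 * h / (Real.pi * u ^ 2)) := by
      unfold smo
      rw [← Real.norm_eq_abs]
      calc ‖∫ v, φ v * pk h (u - v)‖ ≤ ∫ v, |φ v| * (4 * h / (Real.pi * u ^ 2)) :=
            norm_integral_le_of_norm_le ((tst_integrable hφ).abs.mul_const _)
              (Filter.Eventually.of_forall hb)
        _ = I1 * (4 * h / (Real.pi * u ^ 2)) := by rw [integral_mul_const]
    have hhh : h ≤ h ^ (1 / 2 : ℝ) := by
      calc h = h ^ (1 : ℝ) := (Real.rpow_one h).symm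
        _ ≤ h ^ (1 / 2 : ℝ) := Real.rpow_le_rpow_of_exponent_ge hh hh1 (by norm_num)
    have h5 : (4 * h / (Real.pi * u ^ 2)) * (1 + u ^ 2) ≤ 8 * h := by
      rw [div_mul_eq_mul_div, div_le_iff₀ (by positivity)]
      nlinarith [mul_pos hh hu2, mul_nonneg hh.le (sub_nonneg.2 hu1)]
    calc |smo φ h u| * (1 + u ^ 2) ≤ I1 * (4 * h / (Real.pi * u ^ 2)) * (1 + u ^ 2) := by
          gcongr
      _ = I1 * ((4 * h / (Real.pi * u ^ 2)) * (1 + u ^ 2)) := by ring
      _ ≤ I1 * (8 * h) := by gcongr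
      _ ≤ I1 * (8 * h ^ (1 / 2 : ℝ)) := by gcongr
      _ = 8 * I1 * h ^ (1 / 2 : ℝ) := by ring
      _ ≤ (C1 * (1 + 4 * R ^ 2) + 8 * I1) * h ^ (1 / 2 : ℝ) := by
          gcongr
          have : 0 ≤ C1 * (1 + 4 * R ^ 2) := by positivity
          linarith

theorem smo_bd {φ : ℝ → ℝ} (hφ : Tst φ) : ∃ C : ℝ, 0 ≤ C ∧ ∀ h u : ℝ, 0 < h → h ≤ 1 →
    |smo φ h u| ≤ C / (1 + u ^ 2) := by
  obtain ⟨C1, hC1, h1⟩ := smo_sub hφ
  obtain ⟨C2, hC2, h2⟩ := tst_bd hφ
  refine ⟨C1 + C2, by positivity, fun h u hh hh1 => ?_⟩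
  have hpos : (0 : ℝ) < 1 + u ^ 2 := by positivity
  have hh2 : h ^ (1 / 2 : ℝ) ≤ 1 := Real.rpow_le_one hh.le hh1 (by norm_num)
  have h3 : C1 * h ^ (1 / 2 : ℝ) / (1 + u ^ 2) ≤ C1 / (1 + u ^ 2) := by
    gcongr
    exact mul_le_of_le_one_right hC1 hh2
  calc |smo φ h u| = |(smo φ h u - φ u) + φ u| := by ring_nf
    _ ≤ |smo φ h u - φ u| + |φ u| := abs_add_le _ _
    _ ≤ C1 / (1 + u ^ 2) + C2 / (1 + u ^ 2) := add_le_add ((h1 h u hh hh1).trans h3) (h2 u)
    _ = (C1 + C2) / (1 + u ^ 2) := by ring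

theorem smo_cont {φ : ℝ → ℝ} (hφ : Tst φ) {h : ℝ} (hh : 0 < h) : Continuous (smo φ h) := by
  have hpi := Real.pi_gt_three
  unfold smo
  refine continuous_of_dominated (bound := fun v => |φ v| * (1 / (Real.pi * h))) ?_ ?_ ?_ ?_
  · intro u
    exact (smo_integrable hφ hh u).aestronglyMeasurable
  · intro u
    refine Filter.Eventually.of_forall fun v => ?_
    rw [norm_mul, Real.norm_eq_abs, Real.norm_of_nonneg (pk_nonneg hh _)]
    refine mul_le_mul_of_nonneg_left ?_ (abs_nonneg _)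
    rw [pk_eq_div hh]
    have h1 : (1 + ((u - v) / h) ^ 2)⁻¹ ≤ 1 := by
      apply inv_le_one_of_one_le₀
      nlinarith [sq_nonneg ((u - v) / h)]
    exact mul_le_of_le_one_right (by positivity) h1
  · exact (tst_integrable hφ).abs.mul_const _
  · refine Filter.Eventually.of_forall fun v => ?_
    exact continuous_const.mul ((pk_cont hh).comp (continuous_id.sub continuous_const))

end Pool.Agent.ZR

end

section

/-!
# ZR/MPr : the probability spaces of part M

PROOF.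
* `Sn_nonempty`: the pattern `σ i j = decide ((i + j) % 2 = 0)` (checkerboard): symmetric, and row `i`
  has exactly `n/2` indices `j` of the parity of `i` (`n` even): `∑ j, (if (i+j)%2 = 0 then 1 else -1) = 0`
  (pair `j = 2l, 2l+1`: write `n = m + m`, `Fin.sum_univ_eq_sum_range`, `Finset.sum_range_succ`
  induction on `m` for the function on `ℕ`).
* `integral_PU`: `integral_smul_measure`, `integral_finset_sum_measure`, `integral_dirac`; when `Sn n`
  is empty both sides are 0.  `(c : ℝ≥0∞)⁻¹.toReal = (c:ℝ)⁻¹`.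
* `PU_prob`: total mass `card⁻¹ * card = 1`.
* `EU` is monotone and linear on real functions (`EU_mono`, ...).
* `integral_P2`: `integral_prod` (all functions on the finite space `Pat n` are measurable, the
  function `ω ↦ F ω.1 ω.2` is integrable iff each section over `σ ∈ Sn n` is): it may be easier to write
  `(PU n).prod (gm n) = card⁻¹ • ∑ σ ∈ Sn n, (dirac σ).prod (gm n)` and `(dirac σ).prod (gm n) =
  (gm n).map (Prod.mk σ)` (`Measure.dirac_prod`).
* `P2_ae`, `P3_ae`: from the same formula.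
* `meas_P2`: `measurable_from_prod_countable_right`/`..._left` (countable discrete first factor).
-/


open MeasureTheory ProbabilityTheory Matrix
open scoped ENNReal

namespace Pool.Agent.ZR

private lemma checker_sum (i : ℕ) (m : ℕ) :
    ∑ j ∈ Finset.range (m + m), (if (i + j) % 2 = 0 then (1 : ℤ) else -1) = 0 := by
  induction m with
  | zero => simp
  | succ m ih =>
    have h1 : m + 1 + (m + 1) = (m + m) + 1 + 1 := by ring
    rw [h1, Finset.sum_range_succ, Finset.sum_range_succ, ih]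
    rcases Nat.mod_two_eq_zero_or_one (i + (m + m)) with h2 | h2
    · have h3 : ¬ (i + (m + m + 1)) % 2 = 0 := by omega
      rw [if_pos h2, if_neg h3]
      norm_num
    · have h3 : (i + (m + m + 1)) % 2 = 0 := by omega
      have h4 : ¬ (i + (m + m)) % 2 = 0 := by omega
      rw [if_pos h3, if_neg h4]
      norm_num

instance instProbGmM (n : ℕ) : IsProbabilityMeasure (gm n) := by
  unfold gm
  infer_instance

private lemma card_ne {n : ℕ} (hn : Even n) : ((Sn n).card : ℝ≥0∞) ≠ 0 := by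
  have := (Finset.card_pos.2 (Sn_nonempty hn)).ne'
  exact_mod_cast this

private lemma PU_apply (n : ℕ) (S : Set (Pat n)) :
    PU n S = ((Sn n).card : ℝ≥0∞)⁻¹ * ∑ σ ∈ Sn n, Set.indicator S 1 σ := by
  unfold PU
  rw [Measure.smul_apply, Measure.finsetSum_apply, smul_eq_mul]
  congr 1
  exact Finset.sum_congr rfl fun σ _ => Measure.dirac_apply _ _

theorem PU_prob {n : ℕ} (hn : Even n) : IsProbabilityMeasure (PU n) := by
  constructor
  rw [PU_apply]
  simp only [Set.indicator_univ, Pi.one_apply, Finset.sum_const, nsmul_eq_mul, mul_one]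
  exact ENNReal.inv_mul_cancel (card_ne hn) (ENNReal.natCast_ne_top _)

theorem P2_prob {n : ℕ} (hn : Even n) : IsProbabilityMeasure (P2 n) := by
  have := PU_prob hn
  unfold P2
  infer_instance

theorem P3_prob {n : ℕ} (hn : Even n) : IsProbabilityMeasure (P3 n) := by
  have := P2_prob hn
  unfold P3
  infer_instance

private lemma toReal_card (n : ℕ) :
    (((Sn n).card : ℝ≥0∞)⁻¹).toReal = ((Sn n).card : ℝ)⁻¹ := by
  rw [ENNReal.toReal_inv, ENNReal.toReal_natCast]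

theorem integral_PU {n : ℕ} (f : Pat n → ℝ) : ∫ σ, f σ ∂(PU n) = EU f := by
  unfold PU EU
  rw [integral_smul_measure, integral_finsetSum_measure, toReal_card]
  · congr 1
    exact Finset.sum_congr rfl fun σ _ => integral_dirac _ _
  · intro σ _
    exact integrable_dirac (by simp)

theorem PU_ae (n : ℕ) : ∀ᵐ σ ∂(PU n), σ ∈ Sn n := by
  rw [ae_iff, PU_apply]
  have : ∑ σ ∈ Sn n, Set.indicator {σ : Pat n | σ ∉ Sn n} (1 : Pat n → ℝ≥0∞) σ = 0 := by
    refine Finset.sum_eq_zero fun σ hσ => ?_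
    rw [Set.indicator_of_notMem]
    simpa using hσ
  rw [this, mul_zero]

theorem P2_ae {n : ℕ} (hn : Even n) : ∀ᵐ ω ∂(P2 n), ω.1 ∈ Sn n :=
  Measure.quasiMeasurePreserving_fst.ae (PU_ae n)

theorem P3_ae {n : ℕ} (hn : Even n) : ∀ᵐ ω ∂(P3 n), ω.1.1 ∈ Sn n :=
  Measure.quasiMeasurePreserving_fst.ae (P2_ae hn)

/-- Cauchy-Schwarz for `EU` -/
theorem EU_cs {n : ℕ} (f g : Pat n → ℝ) :
    EU (fun σ => f σ * g σ) ^ 2 ≤ EU (fun σ => f σ ^ 2) * EU (fun σ => g σ ^ 2) := by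
  unfold EU
  rw [smul_eq_mul, smul_eq_mul, smul_eq_mul]
  have h := Finset.sum_mul_sq_le_sq_mul_sq (Sn n) f g
  calc (((Sn n).card : ℝ)⁻¹ * ∑ σ ∈ Sn n, f σ * g σ) ^ 2
      = (((Sn n).card : ℝ)⁻¹) ^ 2 * (∑ σ ∈ Sn n, f σ * g σ) ^ 2 := by ring
    _ ≤ (((Sn n).card : ℝ)⁻¹) ^ 2 * ((∑ σ ∈ Sn n, f σ ^ 2) * ∑ σ ∈ Sn n, g σ ^ 2) :=
        mul_le_mul_of_nonneg_left h (sq_nonneg _)
    _ = _ := by ring

/-- a function on `Pat n × T` is measurable iff its sections are -/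
theorem meas_Pat {n : ℕ} {T V : Type*} [MeasurableSpace T] [MeasurableSpace V]
    (F : Pat n × T → V) (h : ∀ σ, Measurable (fun y => F (σ, y))) : Measurable F :=
  measurable_from_prod_countable_right h

private lemma P2_eq (n : ℕ) :
    P2 n = ((Sn n).card : ℝ≥0∞)⁻¹ • ∑ σ ∈ Sn n, (gm n).map (Prod.mk σ) := by
  refine Measure.ext fun S hS => ?_
  unfold P2
  rw [Measure.prod_apply hS, Measure.smul_apply, Measure.finsetSum_apply, smul_eq_mul]
  unfold PU
  rw [lintegral_smul_measure, lintegral_finsetSum_measure, smul_eq_mul]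
  congr 1
  refine Finset.sum_congr rfl fun σ _ => ?_
  rw [lintegral_dirac, Measure.map_apply measurable_prodMk_left hS]

private lemma emb {n : ℕ} (σ : Pat n) : MeasurableEmbedding (Prod.mk σ : Arr n → Pat n × Arr n) :=
  measurableEmbedding_prodMk_left σ

theorem integrable_P2 {n : ℕ} (hn : Even n) (F : Pat n → Arr n → ℝ)
    (hF : ∀ σ ∈ Sn n, Integrable (F σ) (gm n)) :
    Integrable (fun ω : Pat n × Arr n => F ω.1 ω.2) (P2 n) := by
  rw [P2_eq]
  refine Integrable.smul_measure ?_ (ENNReal.inv_ne_top.2 (card_ne hn))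
  rw [integrable_finsetSum_measure]
  intro σ hσ
  rw [(emb σ).integrable_map_iff]
  exact hF σ hσ

theorem integral_P2 {n : ℕ} (hn : Even n) (F : Pat n → Arr n → ℝ)
    (hF : ∀ σ ∈ Sn n, Integrable (F σ) (gm n)) :
    ∫ ω : Pat n × Arr n, F ω.1 ω.2 ∂(P2 n) = EJ F := by
  rw [P2_eq, integral_smul_measure, integral_finsetSum_measure, toReal_card]
  · unfold EJ EU
    congr 1
    exact Finset.sum_congr rfl fun σ _ => (emb σ).integral_map _
  · intro σ hσ
    rw [(emb σ).integrable_map_iff]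
    exact hF σ hσ

private lemma P2_apply (n : ℕ) (S : Set (Pat n × Arr n)) :
    P2 n S = ((Sn n).card : ℝ≥0∞)⁻¹ * ∑ σ ∈ Sn n, gm n {X | (σ, X) ∈ S} := by
  rw [P2_eq, Measure.smul_apply, Measure.finsetSum_apply, smul_eq_mul]
  congr 1
  exact Finset.sum_congr rfl fun σ _ => (emb σ).map_apply _ _

private lemma real_P2' (n : ℕ) (S : Set (Pat n × Arr n)) :
    (P2 n).real S = EU fun σ => (gm n).real {X | (σ, X) ∈ S} := by
  unfold EU
  rw [measureReal_def, P2_apply, ENNReal.toReal_mul, toReal_card, smul_eq_mul]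
  congr 1
  rw [ENNReal.toReal_sum fun σ _ => measure_ne_top _ _]
  rfl

/-- probability of an event depending on both coordinates -/
theorem real_P2 {n : ℕ} (hn : Even n) (A : Pat n → Arr n → Prop)
    (hA : ∀ σ ∈ Sn n, MeasurableSet {X | A σ X}) :
    (P2 n).real {ω | A ω.1 ω.2} = PJ A :=
  real_P2' n _

/-- an event whose sections have small outer measure -/
theorem real_P2_le {n : ℕ} (hn : Even n) (A : Pat n → Arr n → Prop) (S : Set (Pat n × Arr n))
    (hSm : MeasurableSet S) (hS : ∀ ω ∈ S, ω.1 ∈ Sn n → A ω.1 ω.2) :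
    (P2 n).real S ≤ PJ A := by
  rw [real_P2' n S]
  unfold PJ
  refine EU_mono fun σ hσ => ?_
  exact measureReal_mono (fun X hX => hS (σ, X) hX hσ) (measure_ne_top _ _)

end Pool.Agent.ZR

end

section

/-!
# ZR/PB4 : norm bound for `H_0` (helper2)
-/


open MeasureTheory ProbabilityTheory Matrix

namespace Pool.Agent.ZR.PB

lemma log_ge_one {n : ℕ} (hn : 3 ≤ n) : 1 ≤ Real.log n := by
  have h1 : Real.exp 1 ≤ (n : ℝ) := by
    have h2 : Real.exp 1 < 2.7182818286 := Real.exp_one_lt_d9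
    have h3 : (3 : ℝ) ≤ n := by exact_mod_cast hn
    linarith
  calc (1 : ℝ) = Real.log (Real.exp 1) := (Real.log_exp 1).symm
    _ ≤ Real.log n := Real.log_le_log (Real.exp_pos 1) h1

lemma log_two_n {n : ℕ} (hn : 3 ≤ n) : Real.log (2 * n + 1) ≤ 2 * Real.log n := by
  have h3 : (3 : ℝ) ≤ n := by exact_mod_cast hn
  have h : (2 * n + 1 : ℝ) ≤ (n : ℝ) ^ 2 := by nlinarith
  calc Real.log (2 * n + 1) ≤ Real.log ((n : ℝ) ^ 2) := Real.log_le_log (by positivity) h
    _ = 2 * Real.log n := by rw [Real.log_pow]; norm_num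

lemma clog_le {n : ℕ} (hn : 3 ≤ n) : ((Nat.clog 2 n : ℕ) : ℝ) ≤ 3 * Real.log n := by
  have hL := log_ge_one hn
  have h1 : 2 ^ (Nat.clog 2 n - 1) < n := by
    have := Nat.pow_pred_clog_lt_self (b := 2) (by norm_num) (show 1 < n by omega)
    simpa using this
  have hpos : 0 < Nat.clog 2 n := Nat.clog_pos (by norm_num) (by omega)
  have h2 : ((Nat.clog 2 n - 1 : ℕ) : ℝ) * Real.log 2 ≤ Real.log n := by
    rw [← Real.log_pow]
    apply Real.log_le_log (by positivity)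
    exact_mod_cast h1.le
  have h3 : ((Nat.clog 2 n - 1 : ℕ) : ℝ) = (Nat.clog 2 n : ℝ) - 1 := by
    rw [Nat.cast_sub hpos]; norm_num
  rw [h3] at h2
  have h4 : (0.6931471803 : ℝ) < Real.log 2 := Real.log_two_gt_d9
  by_contra hcon
  rw [not_le] at hcon
  have h5 : (0 : ℝ) ≤ (Nat.clog 2 n : ℝ) - 1 := by linarith
  have h6 : 0.69 * ((Nat.clog 2 n : ℝ) - 1) ≤ Real.log n := by
    refine le_trans ?_ h2
    rw [mul_comm]
    apply mul_le_mul_of_nonneg_left _ h5
    linarith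
  linarith

lemma num_bound {n k : ℕ} (hn : 3 ≤ n) (hk : (k : ℝ) ≤ 3 * Real.log n) :
    2 * (2 * (n : ℝ) + 1) ^ n * 2 ^ (n * (k * (k + 1) / 2))
      * Real.exp (-((6 * Real.log n * Real.sqrt n) ^ 2) / 4) ≤ Real.exp (-(2 * (n : ℝ))) := by
  have hL := log_ge_one hn
  set L := Real.log n with hLdef
  have hn3 : (3 : ℝ) ≤ n := by exact_mod_cast hn
  have hn0 : (0 : ℝ) < n := by linarith
  have e1 : (2 * (n : ℝ) + 1) ^ n = Real.exp (n * Real.log (2 * n + 1)) := by
    rw [← Real.log_pow, Real.exp_log (by positivity)]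
  have e2 : (2 : ℝ) ^ (n * (k * (k + 1) / 2))
      = Real.exp (((n * (k * (k + 1) / 2) : ℕ) : ℝ) * Real.log 2) := by
    rw [← Real.log_pow, Real.exp_log (by positivity)]
  have e3 : (2 : ℝ) = Real.exp (Real.log 2) := (Real.exp_log (by norm_num)).symm
  have e4 : (6 * L * Real.sqrt n) ^ 2 = 36 * L ^ 2 * n := by
    rw [mul_pow, Real.sq_sqrt hn0.le]; ring
  have h1 : 2 * (2 * (n : ℝ) + 1) ^ n * 2 ^ (n * (k * (k + 1) / 2))
      * Real.exp (-((6 * L * Real.sqrt n) ^ 2) / 4)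
      = Real.exp (Real.log 2 + n * Real.log (2 * n + 1)
        + ((n * (k * (k + 1) / 2) : ℕ) : ℝ) * Real.log 2 + -(36 * L ^ 2 * n) / 4) := by
    rw [Real.exp_add, Real.exp_add, Real.exp_add, ← e1, ← e2, ← e3, e4]
  rw [h1]
  apply Real.exp_le_exp.2
  have h2 : Real.log 2 ≤ 0.7 := by
    have := Real.log_two_lt_d9
    linarith
  have h20 : 0 ≤ Real.log 2 := Real.log_nonneg (by norm_num)
  have h3 : Real.log (2 * n + 1) ≤ 2 * L := log_two_n hn
  have h4 : ((n * (k * (k + 1) / 2) : ℕ) : ℝ) ≤ n * (6 * L ^ 2) := by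
    rw [Nat.cast_mul]
    apply mul_le_mul_of_nonneg_left _ hn0.le
    have h5 : ((k * (k + 1) / 2 : ℕ) : ℝ) ≤ (k * (k + 1) : ℝ) / 2 := by
      have := @Nat.cast_div_le ℝ _ _ _ (k * (k + 1)) 2
      push_cast at this
      exact this
    refine h5.trans ?_
    have hk0 : (0 : ℝ) ≤ k := Nat.cast_nonneg k
    nlinarith
  have h6 : ((n * (k * (k + 1) / 2) : ℕ) : ℝ) * Real.log 2 ≤ n * (6 * L ^ 2) * 0.7 :=
    mul_le_mul h4 h2 h20 (by positivity)
  have hL2 : L ≤ L ^ 2 := by nlinarith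
  have h7 : (n : ℝ) * Real.log (2 * n + 1) ≤ n * (2 * L ^ 2) :=
    mul_le_mul_of_nonneg_left (by linarith) hn0.le
  have h8 : (n : ℝ) ≤ n * L ^ 2 := by nlinarith
  have h9 : Real.log 2 ≤ n * L ^ 2 := by nlinarith
  nlinarith

lemma H0_apply {n : ℕ} (σ : Fin n → Fin n → Bool) (i j : Fin n) :
    H0 σ i j = (1 / Real.sqrt n) * Mx σ i j := rfl

lemma Mx_sq {n : ℕ} (σ : Fin n → Fin n → Bool) (i j : Fin n) : Mx σ i j ^ 2 = 1 := by
  unfold Mx
  rw [Matrix.of_apply]
  split_ifs <;> norm_num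

lemma H0_sq_sum {n : ℕ} (hn : 0 < n) (σ : Fin n → Fin n → Bool) :
    ∑ i, ∑ j, H0 σ i j ^ 2 = n := by
  have hn' : (0 : ℝ) < n := Nat.cast_pos.2 hn
  have h : ∀ i j, H0 σ i j ^ 2 = 1 / n := by
    intro i j
    rw [H0_apply, mul_pow, Mx_sq, div_pow, Real.sq_sqrt hn'.le]
    ring
  simp only [h, Finset.sum_const, Finset.card_univ, Fintype.card_fin, nsmul_eq_mul]
  field_simp

lemma qf_H0 {n : ℕ} (σ : Fin n → Fin n → Bool) (v : Fin n → ℝ) :
    qf (H0 σ) v = (1 / Real.sqrt n) * qf (Mx σ) v := by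
  unfold qf
  rw [Finset.mul_sum]
  refine Finset.sum_congr rfl fun i _ => ?_
  rw [Finset.mul_sum]
  refine Finset.sum_congr rfl fun j _ => ?_
  rw [H0_apply]
  ring

lemma Mx_symm {n : ℕ} {σ : Fin n → Fin n → Bool} (hσ : σ ∈ Sn n) (i j : Fin n) :
    Mx σ i j = Mx σ j i := by
  unfold Mx
  rw [Matrix.of_apply, Matrix.of_apply, ((mem_Sn σ).1 hσ).1 i j]

lemma H0_symm {n : ℕ} {σ : Fin n → Fin n → Bool} (hσ : σ ∈ Sn n) (i j : Fin n) :
    H0 σ i j = H0 σ j i := by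
  rw [H0_apply, H0_apply, Mx_symm hσ]

open Classical in
/-- the exceptional patterns: `|v^T H_0 v| > 14 log n |v|²` for some `v` -/
noncomputable def badS (n : ℕ) : Finset (Fin n → Fin n → Bool) :=
  (Sn n).filter (fun σ => ¬ ∀ v : Fin n → ℝ, |qf (H0 σ) v| ≤ 14 * Real.log n * ∑ i, v i ^ 2)

open Classical in
theorem badS_card {n : ℕ} (hn : 3 ≤ n) (he : Even n) :
    ((badS n).card : ℝ) ≤ Real.exp (-(2 * (n : ℝ))) * ((Sn n).card : ℝ) := by
  have hn0 : 0 < n := by omega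
  have hn' : (0 : ℝ) < n := Nat.cast_pos.2 hn0
  have hL := log_ge_one hn
  set L := Real.log n with hLdef
  set t := 6 * L * Real.sqrt n with ht
  have hsq : 0 < Real.sqrt n := Real.sqrt_pos.2 hn'
  have ht0 : 0 ≤ t := by positivity
  set k := Nat.clog 2 n with hk
  -- covering by the net events
  have hcov : badS n ⊆ (Finset.univ : Finset (Fin n → Fin (2 * n + 1))).biUnion (fun q =>
      if ∑ i, ny q i ^ 2 ≤ 1 then
        Finset.univ.filter (fun σ : Fin n → Fin n → Bool => (∀ i j, σ i j = σ j i) ∧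
          t ≤ |qf (Mx σ) (ny q)|)
      else ∅) := by
    intro σ hσ
    obtain ⟨hσ1, hσ2⟩ := Finset.mem_filter.1 hσ
    by_contra hcon
    apply hσ2
    have h1 : ∀ q : Fin n → Fin (2 * n + 1), ∑ i, ny q i ^ 2 ≤ 1 → |qf (H0 σ) (ny q)| ≤ 6 * L := by
      intro q hq
      have h2 : ¬ (t ≤ |qf (Mx σ) (ny q)|) := by
        intro h3
        apply hcon
        rw [Finset.mem_biUnion]
        refine ⟨q, Finset.mem_univ _, ?_⟩
        rw [if_pos hq]
        exact Finset.mem_filter.2 ⟨Finset.mem_univ _, ((mem_Sn σ).1 hσ1).1, h3⟩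
      rw [not_le] at h2
      rw [qf_H0, abs_mul, abs_of_nonneg (by positivity)]
      rw [one_div, inv_mul_le_iff₀ hsq]
      rw [mul_comm]
      exact h2.le
    have h3 := qf_net hn0 (H0 σ) (6 * L) (by rw [H0_sq_sum hn0]; linarith) h1
    intro v
    have h4 := qf_hom (H0 σ) (6 * L + 8) h3 v
    refine h4.trans ?_
    apply mul_le_mul_of_nonneg_right _ (Finset.sum_nonneg fun i _ => sq_nonneg _)
    linarith
  have hc1 : ((badS n).card : ℝ) ≤ ∑ q : Fin n → Fin (2 * n + 1),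
      2 * 2 ^ (n * (n + 1) / 2) * Real.exp (-(t ^ 2) / 4) := by
    calc ((badS n).card : ℝ) ≤ (((Finset.univ : Finset (Fin n → Fin (2 * n + 1))).biUnion (fun q =>
      if ∑ i, ny q i ^ 2 ≤ 1 then
        Finset.univ.filter (fun σ : Fin n → Fin n → Bool => (∀ i j, σ i j = σ j i) ∧
          t ≤ |qf (Mx σ) (ny q)|)
      else ∅)).card : ℝ) := by exact_mod_cast Finset.card_le_card hcov
      _ ≤ ((∑ q : Fin n → Fin (2 * n + 1), (if ∑ i, ny q i ^ 2 ≤ 1 then
        Finset.univ.filter (fun σ : Fin n → Fin n → Bool => (∀ i j, σ i j = σ j i) ∧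
          t ≤ |qf (Mx σ) (ny q)|)
      else ∅).card : ℕ) : ℝ) := by exact_mod_cast Finset.card_biUnion_le
      _ = ∑ q : Fin n → Fin (2 * n + 1), ((if ∑ i, ny q i ^ 2 ≤ 1 then
        Finset.univ.filter (fun σ : Fin n → Fin n → Bool => (∀ i j, σ i j = σ j i) ∧
          t ≤ |qf (Mx σ) (ny q)|)
      else ∅).card : ℝ) := by rw [Nat.cast_sum]
      _ ≤ _ := by
        apply Finset.sum_le_sum
        intro q _
        split_ifs with hq
        · exact count_tail (ny q) hq t ht0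
        · simp only [Finset.card_empty, Nat.cast_zero]
          positivity
  have hc2 : ∑ q : Fin n → Fin (2 * n + 1), 2 * 2 ^ (n * (n + 1) / 2) * Real.exp (-(t ^ 2) / 4)
      = 2 * (2 * (n : ℝ) + 1) ^ n * (2 ^ (n * (n + 1) / 2) * Real.exp (-(t ^ 2) / 4)) := by
    rw [Finset.sum_const, Finset.card_univ, Fintype.card_fun, Fintype.card_fin, Fintype.card_fin,
      nsmul_eq_mul]
    push_cast
    ring
  have hk1 : 1 ≤ k := Nat.clog_pos (by norm_num) (by omega)
  have hkn : n ≤ 2 ^ k := Nat.le_pow_clog (by norm_num) n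
  have hS := sn_card_lower n k he hk1 hkn
  have hS' : (2 : ℝ) ^ (n * (n + 1) / 2) ≤ ((Sn n).card : ℝ) * 2 ^ (n * (k * (k + 1) / 2)) := by
    exact_mod_cast hS
  have hnum := num_bound hn (clog_le hn)
  calc ((badS n).card : ℝ) ≤ 2 * (2 * (n : ℝ) + 1) ^ n
        * (2 ^ (n * (n + 1) / 2) * Real.exp (-(t ^ 2) / 4)) := hc1.trans (le_of_eq hc2)
    _ ≤ 2 * (2 * (n : ℝ) + 1) ^ n
        * ((((Sn n).card : ℝ) * 2 ^ (n * (k * (k + 1) / 2))) * Real.exp (-(t ^ 2) / 4)) := by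
        gcongr
    _ = (2 * (2 * (n : ℝ) + 1) ^ n * 2 ^ (n * (k * (k + 1) / 2)) * Real.exp (-(t ^ 2) / 4))
        * ((Sn n).card : ℝ) := by ring
    _ ≤ Real.exp (-(2 * (n : ℝ))) * ((Sn n).card : ℝ) :=
        mul_le_mul_of_nonneg_right hnum (Nat.cast_nonneg _)

end Pool.Agent.ZR.PB

namespace Pool.Agent.ZR

theorem bH0 : BH0 := by
  classical
  refine ⟨14, by norm_num, 3, fun n hn he => ?_⟩
  have hn0 : (0 : ℝ) ≤ n := Nat.cast_nonneg n
  refine le_trans ?_ ((PB.badS_card hn he).trans (mul_le_mul_of_nonneg_right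
    (Real.exp_le_exp.2 (by linarith : -(2 * (n : ℝ)) ≤ -(n : ℝ))) (Nat.cast_nonneg _)))
  have hL := PB.log_ge_one hn
  have hsub : (Sn n).filter (fun σ => ¬ OpLe (toC (H0 σ)) (14 * Real.log n)) ⊆ PB.badS n := by
    intro σ hσ
    obtain ⟨h1, h2⟩ := Finset.mem_filter.1 hσ
    refine Finset.mem_filter.2 ⟨h1, fun h3 => h2 ?_⟩
    exact PB.opLe_of_qf (H0 σ) (PB.H0_symm h1) _ (by positivity) h3
  exact_mod_cast Finset.card_le_card hsub

end Pool.Agent.ZR

end

section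

/-!
# ZR/DDefs : definitions of part D (derivative in `θ` of `E F(cos θ H_0 + sin θ P W P)`).  DO NOT EDIT.
-/


open MeasureTheory ProbabilityTheory Matrix

namespace Pool.Agent.ZR

/-- the direction `P W(e_p) P` of the coordinate `X_p` -/
noncomputable def wE (n : ℕ) (p : Fin n × Fin n) : Matrix (Fin n) (Fin n) ℝ :=
  Pn n * Wv (1 / (n : ℝ)) (Pi.single p 1) * Pn n

/-- sum of the absolute values of the entries -/
noncomputable def s1 {n : ℕ} (H : Matrix (Fin n) (Fin n) ℝ) : ℝ := ∑ i, ∑ j, |H i j|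

/-- `∏_l (m(z_l) - c_l)` -/
noncomputable def Phi (n : ℕ) {L : ℕ} (zl cl : Fin L → ℂ) (B : Matrix (Fin n) (Fin n) ℝ) : ℂ :=
  ∏ l, (mz (Pn n) B (zl l) - cl l)

/-- the product with the factor `j` left out -/
noncomputable def PhiE (n : ℕ) {L : ℕ} (zl cl : Fin L → ℂ) (j : Fin L)
    (B : Matrix (Fin n) (Fin n) ℝ) : ℂ :=
  ∏ l ∈ Finset.univ.erase j, (mz (Pn n) B (zl l) - cl l)

/-- derivative of `m(z)` in the direction `H`: `-(1/n) tr(G H G)` -/
noncomputable def dm (n : ℕ) (z : ℂ) (B H : Matrix (Fin n) (Fin n) ℝ) : ℂ :=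
  -(1 / (n : ℂ)) * (Gz (Pn n) B z * toC H * Gz (Pn n) B z).trace

/-- second derivative of `m(z)` in the direction `(H, H)`: `(2/n) tr(G H G H G)` -/
noncomputable def d2m (n : ℕ) (z : ℂ) (B H : Matrix (Fin n) (Fin n) ℝ) : ℂ :=
  (2 / (n : ℂ)) * (Gz (Pn n) B z * toC H * Gz (Pn n) B z * toC H * Gz (Pn n) B z).trace

/-- `z`-derivative of `m² + n⁻² tr G²` : `2 m (1/n) tr G² + (2/n²) tr G³` -/
noncomputable def lm (n : ℕ) (z : ℂ) (B : Matrix (Fin n) (Fin n) ℝ) : ℂ :=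
  2 * mz (Pn n) B z * ((1 / (n : ℂ)) * (Gz (Pn n) B z ^ 2).trace)
    + (2 / (n : ℂ) ^ 2) * (Gz (Pn n) B z ^ 3).trace

/-- first derivative of `Phi` in the direction `H` -/
noncomputable def DPhi (n : ℕ) {K : ℕ} (zl cl : Fin (K + 1) → ℂ)
    (B H : Matrix (Fin n) (Fin n) ℝ) : ℂ :=
  ∑ l, dm n (zl l) B H * Phi n (fun j : Fin K => zl (l.succAbove j))
    (fun j : Fin K => cl (l.succAbove j)) B

/-- second derivative of `Phi` in the direction `(H, H)` -/
noncomputable def D2Phi (n : ℕ) {K : ℕ} (zl cl : Fin (K + 1) → ℂ)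
    (B H : Matrix (Fin n) (Fin n) ℝ) : ℂ :=
  ∑ l, (d2m n (zl l) B H * Phi n (fun j : Fin K => zl (l.succAbove j))
      (fun j : Fin K => cl (l.succAbove j)) B
    + dm n (zl l) B H * ∑ j : Fin K, dm n (zl (l.succAbove j)) B H
        * PhiE n (fun j : Fin K => zl (l.succAbove j)) (fun j : Fin K => cl (l.succAbove j)) j B)

/-- the Laplacian of `Phi` for the covariance of `P W P` -/
noncomputable def Lap (n : ℕ) {K : ℕ} (zl cl : Fin (K + 1) → ℂ)
    (B : Matrix (Fin n) (Fin n) ℝ) : ℂ :=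
  ∑ l, (lm n (zl l) B * Phi n (fun j : Fin K => zl (l.succAbove j))
      (fun j : Fin K => cl (l.succAbove j)) B
    + (2 / (n : ℂ) ^ 3) * ∑ j : Fin K,
        (Gz (Pn n) B (zl l) ^ 2 * Gz (Pn n) B (zl (l.succAbove j)) ^ 2).trace
        * PhiE n (fun j : Fin K => zl (l.succAbove j)) (fun j : Fin K => cl (l.succAbove j)) j B)

/-- the integrand of `Ecal` -/
noncomputable def ecI (n : ℕ) (α : ℝ) {K : ℕ} (zl cl : Fin K → ℂ) (z : ℂ)
    (σ : Fin n → Fin n → Bool) (B : Matrix (Fin n) (Fin n) ℝ) : ℂ :=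
  ((1 / (n : ℂ)) * (toC (H0 σ) * Gz (Pn n) B z).trace
      + (α : ℂ) * ((mz (Pn n) B z) ^ 2 + (1 / (n : ℂ) ^ 2) * (Gz (Pn n) B z ^ 2).trace))
      * Phi n zl cl B
    + (2 * (α : ℂ) / (n : ℂ) ^ 3) * ∑ l,
        (Gz (Pn n) B z * Gz (Pn n) B (zl l) ^ 2).trace * PhiE n zl cl l B

/-- the `z`-derivative of the integrand of `Ecal` -/
noncomputable def ecD (n : ℕ) (α : ℝ) {K : ℕ} (zl cl : Fin K → ℂ) (z : ℂ)
    (σ : Fin n → Fin n → Bool) (B : Matrix (Fin n) (Fin n) ℝ) : ℂ :=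
  ((1 / (n : ℂ)) * (toC (H0 σ) * Gz (Pn n) B z ^ 2).trace + (α : ℂ) * lm n z B) * Phi n zl cl B
    + (2 * (α : ℂ) / (n : ℂ) ^ 3) * ∑ l,
        (Gz (Pn n) B z ^ 2 * Gz (Pn n) B (zl l) ^ 2).trace * PhiE n zl cl l B

/-- the `z`-derivative of `Ecal` -/
noncomputable def EcalD (n : ℕ) (α β : ℝ) {K : ℕ} (zl cl : Fin K → ℂ) (z : ℂ) : ℂ :=
  EJ (n := n) (fun σ X => ecD n α zl cl z σ (Bm α β σ X))

theorem Ecal_eq (n : ℕ) (α β : ℝ) {K : ℕ} (zl cl : Fin K → ℂ) (z : ℂ) :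
    Ecal n α β zl cl z = EJ (n := n) (fun σ X => ecI n α zl cl z σ (Bm α β σ X)) := rfl

end Pool.Agent.ZR

end

section

/-!
# ZR/D1 : differentiation of the resolvent along a path and in `z`

Proofs (all entrywise).
* `gz_cont`: fix `τ0`.  By `gz_pert` (C2), `G(B τ) - G(B τ0) = -(G(B τ) * toC (B τ - B τ0) * G(B τ0))`;
  expand the two matrix products (`Matrix.mul_apply`): a finite sum of terms
  `G(B τ) i k * (B τ k l - B τ0 k l) * G(B τ0) l j` of norm at most
  `(1/|z.im|) |B τ k l - B τ0 k l| (1/|z.im|)` by `g_entry_le` (C3), and each `|B τ k l - B τ0 k l| → 0`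
  as `τ → τ0`.  So the difference tends to `0` (squeeze).
* `gz_path`: `hasDerivAt_iff_tendsto_slope` (or `hasDerivAt_iff_tendsto_slope_zero`).  For `t ≠ t0`,
  again by `gz_pert`, `(t - t0)⁻¹ (G(B t) - G(B t0)) i j = -∑_k ∑_l G(B t) i k * ((t - t0)⁻¹ (B t k l -
  B t0 k l)) * G(B t0) l j`.  The entries `G(B t) i k → G(B t0) i k` as `t → t0`: proof as in `gz_cont`
  (only continuity of the entries of `B` at `t0` is used, which follows from `hB`); the slope of
  `t ↦ B t k l` tends to `B' k l`.  The limit is `-∑_k ∑_l G i k * B' k l * G l j =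
  (-(G * toC B' * G)) i j`.  (`toC A k l = (A k l : ℂ)` by definition.)
* `gz_z`: by `gz_res` (C2), for `w` with `w.im ≠ 0` (true near `z`): `G(w) - G(z) = (w - z) • (G(w) * G(z))`,
  so the slope is `(G(w) * G(z)) i j → (G(z) * G(z)) i j`, since the entries of `G(w)` converge:
  `|G(w) i k - G(z) i k| ≤ |w - z| ∑_l |G(w) i l||G(z) l k| ≤ |w - z| N (1/|w.im|)(1/|z.im|)` and
  `|w.im| ≥ |z.im|/2` near `z`.
* `gz2_z`, `gz3`: product rule: entries of `G(w)^2 = G(w) * G(w)` are finite sums of products;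
  derivative `∑_k ((G²) i k * G k j + G i k * (G²) k j) = 2 (G³) i j`.
* `tr_z`: trace of a constant matrix `A` times `G(w)` : finite sum of constants times entries.
-/


open MeasureTheory ProbabilityTheory Matrix

namespace Pool.Agent.ZR

variable {N : ℕ} {Q : Matrix (Fin N) (Fin N) ℝ}

open Filter Topology in
private theorem d1_ent_tendsto {T : Type*} {l : Filter T} {B : T → Matrix (Fin N) (Fin N) ℝ}
    {B0 : Matrix (Fin N) (Fin N) ℝ}
    (hPB : ∀ τ, PB Q (B τ)) (h0 : PB Q B0)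
    (hB : ∀ i j, Tendsto (fun τ => B τ i j) l (𝓝 (B0 i j))) {z : ℂ} (hz : z.im ≠ 0)
    (i j : Fin N) : Tendsto (fun τ => Gz Q (B τ) z i j) l (𝓝 (Gz Q B0 z i j)) := by
  have key : ∀ τ, Gz Q (B τ) z i j = Gz Q B0 z i j
      - ∑ m, (∑ k, Gz Q (B τ) z i k * ((B τ k m : ℂ) - (B0 k m : ℂ))) * Gz Q B0 z m j := by
    intro τ
    have h1 := gz_pert (hPB τ) h0 z hz
    have h2 := congrFun (congrFun h1 i) j
    rw [Matrix.sub_apply, Matrix.neg_apply, Matrix.mul_apply] at h2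
    simp only [Matrix.mul_apply, toC, Matrix.map_apply, Matrix.sub_apply, Complex.ofReal_sub] at h2
    linear_combination h2
  have hz0 : ∀ k m, Tendsto (fun τ => Gz Q (B τ) z i k * ((B τ k m : ℂ) - (B0 k m : ℂ))) l
      (𝓝 0) := by
    intro k m
    have h3 : Tendsto (fun τ => (B τ k m : ℂ) - (B0 k m : ℂ)) l (𝓝 0) := by
      have h4 : Tendsto (fun τ => (B τ k m : ℂ)) l (𝓝 (B0 k m : ℂ)) :=
        (Complex.continuous_ofReal.tendsto _).comp (hB k m)
      have h5 := h4.sub (tendsto_const_nhds (x := (B0 k m : ℂ)))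
      simpa using h5
    have h6 : Tendsto (fun τ => 1 / |z.im| * ‖(B τ k m : ℂ) - (B0 k m : ℂ)‖) l (𝓝 0) := by
      have h7 := h3.norm.const_mul (1 / |z.im|)
      simpa using h7
    refine squeeze_zero_norm (fun τ => ?_) h6
    rw [norm_mul]
    exact mul_le_mul_of_nonneg_right (g_entry_le (hPB τ) z hz i k) (norm_nonneg _)
  have h8 : Tendsto (fun τ => Gz Q B0 z i j
      - ∑ m, (∑ k, Gz Q (B τ) z i k * ((B τ k m : ℂ) - (B0 k m : ℂ))) * Gz Q B0 z m j) l
      (𝓝 (Gz Q B0 z i j - ∑ m : Fin N, (∑ k : Fin N, (0 : ℂ)) * Gz Q B0 z m j)) := by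
    refine Tendsto.sub tendsto_const_nhds ?_
    refine tendsto_finsetSum _ fun m _ => ?_
    refine Tendsto.mul_const _ ?_
    exact tendsto_finsetSum _ fun k _ => hz0 k m
  simp only [Finset.sum_const_zero, zero_mul, sub_zero] at h8
  exact h8.congr fun τ => (key τ).symm

theorem gz_cont {T : Type*} [TopologicalSpace T] {B : T → Matrix (Fin N) (Fin N) ℝ}
    (hPB : ∀ τ, PB Q (B τ)) (hB : ∀ i j, Continuous (fun τ => B τ i j)) {z : ℂ} (hz : z.im ≠ 0)
    (i j : Fin N) : Continuous (fun τ => Gz Q (B τ) z i j) := by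
  rw [continuous_iff_continuousAt]
  intro τ0
  exact d1_ent_tendsto hPB (hPB τ0) (fun a b => (hB a b).tendsto τ0) hz i j

open Filter Topology in
theorem gz_path {B : ℝ → Matrix (Fin N) (Fin N) ℝ} {B' : Matrix (Fin N) (Fin N) ℝ} {t0 : ℝ}
    (hPB : ∀ t, PB Q (B t)) (hB : ∀ i j, HasDerivAt (fun t => B t i j) (B' i j) t0) {z : ℂ}
    (hz : z.im ≠ 0) (i j : Fin N) :
    HasDerivAt (fun t => Gz Q (B t) z i j)
      ((-(Gz Q (B t0) z * toC B' * Gz Q (B t0) z)) i j) t0 := by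
  rw [hasDerivAt_iff_tendsto_slope]
  have key : ∀ t, slope (fun t => Gz Q (B t) z i j) t0 t
      = - ∑ m, (∑ k, Gz Q (B t) z i k * ((slope (fun t => B t k m) t0 t : ℝ) : ℂ))
          * Gz Q (B t0) z m j := by
    intro t
    have h1 := gz_pert (hPB t) (hPB t0) z hz
    have h2 := congrFun (congrFun h1 i) j
    rw [Matrix.sub_apply, Matrix.neg_apply, Matrix.mul_apply] at h2
    simp only [Matrix.mul_apply, toC, Matrix.map_apply, Matrix.sub_apply, Complex.ofReal_sub] at h2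
    rw [slope_def_module, h2, Complex.real_smul, mul_neg, Finset.mul_sum]
    congr 1
    refine Finset.sum_congr rfl fun m _ => ?_
    rw [← mul_assoc, Finset.mul_sum]
    congr 1
    refine Finset.sum_congr rfl fun k _ => ?_
    rw [slope_def_module, smul_eq_mul, Complex.ofReal_mul, Complex.ofReal_sub]
    ring
  have hcont : ∀ k, Tendsto (fun t => Gz Q (B t) z i k) (𝓝[≠] t0) (𝓝 (Gz Q (B t0) z i k)) := by
    intro k
    refine d1_ent_tendsto hPB (hPB t0) (fun a b => ?_) hz i k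
    exact ((hB a b).continuousAt.tendsto).mono_left nhdsWithin_le_nhds
  have hsl : ∀ k m, Tendsto (fun t => ((slope (fun t => B t k m) t0 t : ℝ) : ℂ)) (𝓝[≠] t0)
      (𝓝 (B' k m : ℂ)) := by
    intro k m
    exact (Complex.continuous_ofReal.tendsto _).comp (hasDerivAt_iff_tendsto_slope.1 (hB k m))
  have h8 : Tendsto (fun t => - ∑ m, (∑ k, Gz Q (B t) z i k
      * ((slope (fun t => B t k m) t0 t : ℝ) : ℂ)) * Gz Q (B t0) z m j) (𝓝[≠] t0)
      (𝓝 (- ∑ m, (∑ k, Gz Q (B t0) z i k * (B' k m : ℂ)) * Gz Q (B t0) z m j)) := by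
    refine Tendsto.neg ?_
    refine tendsto_finsetSum _ fun m _ => ?_
    refine Tendsto.mul_const _ ?_
    exact tendsto_finsetSum _ fun k _ => (hcont k).mul (hsl k m)
  have h9 : (-(Gz Q (B t0) z * toC B' * Gz Q (B t0) z)) i j
      = - ∑ m, (∑ k, Gz Q (B t0) z i k * (B' k m : ℂ)) * Gz Q (B t0) z m j := by
    simp only [Matrix.neg_apply, Matrix.mul_apply, toC, Matrix.map_apply]
  rw [h9]
  exact h8.congr fun t => (key t).symm

variable {B : Matrix (Fin N) (Fin N) ℝ}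

open Filter Topology in
private theorem d1_im_ne {z : ℂ} (hz : z.im ≠ 0) : ∀ᶠ w in 𝓝 z, w.im ≠ 0 :=
  (Complex.continuous_im.continuousAt (x := z)).eventually_ne hz

open Filter Topology in
private theorem d1_z_tendsto (h : PB Q B) {z : ℂ} (hz : z.im ≠ 0) (i j : Fin N) :
    Tendsto (fun w => Gz Q B w i j) (𝓝 z) (𝓝 (Gz Q B z i j)) := by
  have hpos : 0 < |z.im| := abs_pos.2 hz
  have hev : ∀ᶠ w in 𝓝 z, |z.im| / 2 < |w.im| := by
    have hc : ContinuousAt (fun w : ℂ => |w.im|) z :=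
      (Complex.continuous_im.abs).continuousAt
    exact hc.eventually_const_lt (by linarith : |z.im| / 2 < |z.im|)
  rw [tendsto_iff_norm_sub_tendsto_zero]
  have hb : ∀ᶠ w in 𝓝 z, ‖Gz Q B w i j - Gz Q B z i j‖
      ≤ ‖w - z‖ * (∑ _m : Fin N, (2 / |z.im|) * (1 / |z.im|)) := by
    filter_upwards [d1_im_ne hz, hev] with w hw hw2
    have h2 := congrFun (congrFun (gz_res h w z hw hz) i) j
    rw [Matrix.sub_apply, Matrix.smul_apply, Matrix.mul_apply] at h2
    rw [h2, smul_eq_mul, norm_mul]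
    refine mul_le_mul_of_nonneg_left ?_ (norm_nonneg _)
    refine (norm_sum_le _ _).trans (Finset.sum_le_sum fun m _ => ?_)
    rw [norm_mul]
    refine mul_le_mul ?_ (g_entry_le h z hz m j) (norm_nonneg _) (by positivity)
    refine (g_entry_le h w hw i m).trans ?_
    rw [div_le_div_iff₀ (by linarith) hpos]
    linarith
  have h6 : Tendsto (fun w : ℂ => ‖w - z‖ * (∑ _m : Fin N, (2 / |z.im|) * (1 / |z.im|))) (𝓝 z)
      (𝓝 0) := by
    have h7 : Tendsto (fun w : ℂ => ‖w - z‖) (𝓝 z) (𝓝 0) := by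
      have h8 : Continuous (fun w : ℂ => ‖w - z‖) := by fun_prop
      simpa using h8.tendsto z
    simpa using h7.mul_const (∑ _m : Fin N, (2 / |z.im|) * (1 / |z.im|))
  exact squeeze_zero' (Eventually.of_forall fun w => norm_nonneg _) hb h6

open Filter Topology in
theorem gz_z (h : PB Q B) {z : ℂ} (hz : z.im ≠ 0) (i j : Fin N) :
    HasDerivAt (fun w => Gz Q B w i j) ((Gz Q B z ^ 2) i j) z := by
  rw [hasDerivAt_iff_tendsto_slope]
  have key : ∀ᶠ w in 𝓝[≠] z, ∑ m, Gz Q B w i m * Gz Q B z m j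
      = slope (fun w => Gz Q B w i j) z w := by
    have h1 : ∀ᶠ w in 𝓝[≠] z, w.im ≠ 0 := nhdsWithin_le_nhds (d1_im_ne hz)
    filter_upwards [h1, self_mem_nhdsWithin] with w hw hne
    have h2 := congrFun (congrFun (gz_res h w z hw hz) i) j
    rw [Matrix.sub_apply, Matrix.smul_apply, Matrix.mul_apply] at h2
    rw [slope_def_module, h2, smul_eq_mul, smul_eq_mul, ← mul_assoc,
      inv_mul_cancel₀ (sub_ne_zero.2 hne), one_mul]
  refine Tendsto.congr' key ?_
  rw [pow_two, Matrix.mul_apply]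
  refine tendsto_finsetSum _ fun m _ => ?_
  exact ((d1_z_tendsto h hz i m).mono_left nhdsWithin_le_nhds).mul_const _

theorem gz2_z (h : PB Q B) {z : ℂ} (hz : z.im ≠ 0) (i j : Fin N) :
    HasDerivAt (fun w => (Gz Q B w ^ 2) i j) (2 * (Gz Q B z ^ 3) i j) z := by
  have h1 : ∀ m, HasDerivAt (fun w => Gz Q B w i m * Gz Q B w m j)
      ((Gz Q B z ^ 2) i m * Gz Q B z m j + Gz Q B z i m * (Gz Q B z ^ 2) m j) z := fun m =>
    (gz_z h hz i m).mul (gz_z h hz m j)
  have h2 := HasDerivAt.fun_sum (u := Finset.univ) (fun m _ => h1 m)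
  have h3 : ∑ m, ((Gz Q B z ^ 2) i m * Gz Q B z m j + Gz Q B z i m * (Gz Q B z ^ 2) m j)
      = 2 * (Gz Q B z ^ 3) i j := by
    rw [Finset.sum_add_distrib, ← Matrix.mul_apply, ← Matrix.mul_apply]
    have h4 : Gz Q B z ^ 2 * Gz Q B z = Gz Q B z ^ 3 := by rw [← pow_succ]
    have h5 : Gz Q B z * Gz Q B z ^ 2 = Gz Q B z ^ 3 := by rw [← pow_succ']
    rw [h4, h5]
    ring
  rw [h3] at h2
  have h6 : (fun w => (Gz Q B w ^ 2) i j) = fun w => ∑ m, Gz Q B w i m * Gz Q B w m j := by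
    funext w
    rw [pow_two, Matrix.mul_apply]
  rw [h6]
  exact h2

theorem tr_z (h : PB Q B) (A : Matrix (Fin N) (Fin N) ℂ) {z : ℂ} (hz : z.im ≠ 0) :
    HasDerivAt (fun w => (A * Gz Q B w).trace) ((A * Gz Q B z ^ 2).trace) z := by
  have h1 : ∀ x, HasDerivAt (fun w => ∑ m, A x m * Gz Q B w m x)
      (∑ m, A x m * (Gz Q B z ^ 2) m x) z := fun x =>
    HasDerivAt.fun_sum (fun m _ => (gz_z h hz m x).const_mul (A x m))
  have h2 := HasDerivAt.fun_sum (u := Finset.univ) (fun x _ => h1 x)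
  simpa only [Matrix.trace, Matrix.diag_apply, Matrix.mul_apply] using h2

theorem tr_z' (h : PB Q B) (A : Matrix (Fin N) (Fin N) ℂ) {z : ℂ} (hz : z.im ≠ 0) :
    HasDerivAt (fun w => (Gz Q B w * A).trace) ((Gz Q B z ^ 2 * A).trace) z := by
  have h1 := tr_z h A hz
  rw [Matrix.trace_mul_comm] at h1
  have h2 : (fun w => (Gz Q B w * A).trace) = fun w => (A * Gz Q B w).trace := by
    funext w
    rw [Matrix.trace_mul_comm]
  rw [h2]
  exact h1

theorem tr2_z (h : PB Q B) {z : ℂ} (hz : z.im ≠ 0) :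
    HasDerivAt (fun w => (Gz Q B w ^ 2).trace) (2 * (Gz Q B z ^ 3).trace) z := by
  have h2 := HasDerivAt.fun_sum (u := Finset.univ) (fun x _ => gz2_z h hz x x)
  rw [← Finset.mul_sum] at h2
  simpa only [Matrix.trace, Matrix.diag_apply] using h2

theorem mz_z (h : PB Q B) {z : ℂ} (hz : z.im ≠ 0) :
    HasDerivAt (fun w => mz Q B w) ((1 / (N : ℂ)) * (Gz Q B z ^ 2).trace) z := by
  have h1 := tr_z h (1 : Matrix (Fin N) (Fin N) ℂ) hz
  simp only [Matrix.one_mul] at h1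
  simpa only [mz] using h1.const_mul (1 / (N : ℂ))

end Pool.Agent.ZR

end

section

/-!
# ZR/D2 : first and second derivative of `Phi` along a path

Throughout `Q = Pn n`; write `G_l = Gz (Pn n) (B t) (zl l)`.
* `mz_path`: `mz (Pn n) (B t) z = (1/n) ∑_i G i i` (`Matrix.trace`), differentiate with `gz_path` (D1):
  `(1/n) ∑_i (-(G * toC B' * G)) i i = -(1/n) tr(G toC B' G) = dm n z (B t0) B'`.
* `dm_path`: `dm n z (B t) H = -(1/n) ∑_i ∑_a ∑_b G i a * H a b * G b i`; by `gz_path` with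
  `B' = β • H` (so `toC B' = β • toC H`) and the product rule the derivative is
  `-(1/n) [tr((-β G H G) H G) + tr(G H (-β G H G))] = (2β/n) tr(G H G H G) = β * d2m`.
* `phi_path'`: `HasDerivAt.fun_finsetProd` (product rule, over `Finset.univ : Finset (Fin L)`), with
  `mz_path`: the derivative is `∑_j (∏_{l ∈ univ.erase j} ..) • dm n (zl j) .. = ∑_j dm * PhiE`.
* `phi_path`: the same for `L = K + 1`; `PhiE n zl cl l B = Phi n (zl ∘ l.succAbove) (cl ∘ l.succAbove) B`: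
  this is `phiE_succAbove`, from `Fin.prod_univ_succAbove`-type reindexing: the image of
  `l.succAbove : Fin K → Fin (K+1)` is `univ.erase l` and it is injective
  (`Finset.prod_image`, `Fin.succAbove_right_injective`, `Fin.exists_succAbove_eq`).
* `dphi_path`: product rule for each summand `dm n (zl l) (B t) H * Phi n (..) (B t)`: derivative
  `β d2m * Phi + dm * (∑_j (β * dm n (zl (l.succAbove j)) .. H) * PhiE ..)`; here `phi_path'` is used
  with `B' = β • H` and `dm n z B (β • H) = β * dm n z B H` (`dm_smul`).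
-/


open MeasureTheory ProbabilityTheory Matrix

namespace Pool.Agent.ZR

variable {n : ℕ}

theorem dm_smul (z : ℂ) (B H : Matrix (Fin n) (Fin n) ℝ) (β : ℝ) :
    dm n z B (β • H) = (β : ℂ) * dm n z B H := by
  have h : toC (β • H) = (β : ℂ) • toC H := by
    ext i j
    simp [toC]
  rw [dm, dm, h, Matrix.mul_smul, Matrix.smul_mul, Matrix.trace_smul, smul_eq_mul]
  ring

theorem dm_add (z : ℂ) (B H H' : Matrix (Fin n) (Fin n) ℝ) :
    dm n z B (H + H') = dm n z B H + dm n z B H' := by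
  have h : toC (H + H') = toC H + toC H' := by
    ext i j
    simp [toC]
  rw [dm, dm, dm, h, Matrix.mul_add, Matrix.add_mul, Matrix.trace_add]
  ring

theorem phiE_succAbove {K : ℕ} (zl cl : Fin (K + 1) → ℂ) (l : Fin (K + 1))
    (B : Matrix (Fin n) (Fin n) ℝ) :
    PhiE n zl cl l B = Phi n (fun j : Fin K => zl (l.succAbove j))
      (fun j : Fin K => cl (l.succAbove j)) B := by
  have h : (Finset.univ.erase l : Finset (Fin (K + 1))) = Finset.univ.image l.succAbove := by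
    ext j
    simp only [Finset.mem_erase, Finset.mem_univ, and_true, Finset.mem_image, true_and,
      Fin.exists_succAbove_eq_iff]
  rw [PhiE, Phi, h, Finset.prod_image]
  intro a _ b _ hab
  exact Fin.succAbove_right_injective hab

theorem mz_path {B : ℝ → Matrix (Fin n) (Fin n) ℝ} {B' : Matrix (Fin n) (Fin n) ℝ} {t0 : ℝ}
    (hPB : ∀ t, PB (Pn n) (B t)) (hB : ∀ i j, HasDerivAt (fun t => B t i j) (B' i j) t0) {z : ℂ}
    (hz : z.im ≠ 0) :
    HasDerivAt (fun t => mz (Pn n) (B t) z) (dm n z (B t0) B') t0 := by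
  have h2 := HasDerivAt.fun_sum (u := Finset.univ) (fun x _ => gz_path hPB hB hz x x)
  have h3 := h2.const_mul (1 / (n : ℂ))
  have h4 : (1 / (n : ℂ)) * ∑ x, (-(Gz (Pn n) (B t0) z * toC B' * Gz (Pn n) (B t0) z)) x x
      = dm n z (B t0) B' := by
    simp only [dm, Matrix.trace, Matrix.diag_apply, Matrix.neg_apply, Finset.sum_neg_distrib]
    ring
  rw [h4] at h3
  simpa only [mz, Matrix.trace, Matrix.diag_apply] using h3

theorem dm_path {B : ℝ → Matrix (Fin n) (Fin n) ℝ} {H : Matrix (Fin n) (Fin n) ℝ} {β t0 : ℝ}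
    (hPB : ∀ t, PB (Pn n) (B t)) (hB : ∀ i j, HasDerivAt (fun t => B t i j) (β * H i j) t0) {z : ℂ}
    (hz : z.im ≠ 0) :
    HasDerivAt (fun t => dm n z (B t) H) ((β : ℂ) * d2m n z (B t0) H) t0 := by
  have hB' : ∀ i j, HasDerivAt (fun t => B t i j) ((β • H) i j) t0 := by
    intro i j
    simpa only [Matrix.smul_apply, smul_eq_mul] using hB i j
  have hG : ∀ i j, HasDerivAt (fun t => Gz (Pn n) (B t) z i j)
      ((-(Gz (Pn n) (B t0) z * toC (β • H) * Gz (Pn n) (B t0) z)) i j) t0 := fun i j =>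
    gz_path hPB hB' hz i j
  have h : toC (β • H) = (β : ℂ) • toC H := by
    ext i j
    simp [toC]
  set G := Gz (Pn n) (B t0) z with hGd
  set A := toC H with hA
  set D : Matrix (Fin n) (Fin n) ℂ := -(G * toC (β • H) * G) with hD
  have hD2 : D = -((β : ℂ) • (G * A * G)) := by
    rw [hD, h, Matrix.mul_smul, Matrix.smul_mul]
  have h1 : ∀ x, HasDerivAt (fun t => ∑ l, (∑ k, Gz (Pn n) (B t) z x k * A k l)
        * Gz (Pn n) (B t) z l x)
      (∑ l, ((∑ k, D x k * A k l) * G l x + (∑ k, G x k * A k l) * D l x)) t0 := by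
    intro x
    refine HasDerivAt.fun_sum fun l _ => ?_
    refine HasDerivAt.mul ?_ (hG l x)
    exact HasDerivAt.fun_sum fun k _ => (hG x k).mul_const (A k l)
  have h2 := HasDerivAt.fun_sum (u := Finset.univ) (fun x _ => h1 x)
  have h3 := h2.const_mul (-(1 / (n : ℂ)))
  have h4 : (∑ x, ∑ l, ((∑ k, D x k * A k l) * G l x + (∑ k, G x k * A k l) * D l x))
      = (D * A * G).trace + (G * A * D).trace := by
    simp only [Matrix.trace, Matrix.diag_apply, Matrix.mul_apply, Finset.sum_add_distrib]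
  have h5 : (D * A * G).trace + (G * A * D).trace
      = -(2 * (β : ℂ) * (G * A * G * A * G).trace) := by
    have e1 : D * A * G = -((β : ℂ) • (G * A * G * A * G)) := by
      rw [hD2, Matrix.neg_mul, Matrix.neg_mul, Matrix.smul_mul, Matrix.smul_mul]
    have e2 : G * A * D = -((β : ℂ) • (G * A * G * A * G)) := by
      rw [hD2, Matrix.mul_neg, Matrix.mul_smul]
      simp only [Matrix.mul_assoc]
    rw [e1, e2, Matrix.trace_neg, Matrix.trace_smul, smul_eq_mul]
    ring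
  rw [h4, h5] at h3
  have h6 : -(1 / (n : ℂ)) * -(2 * (β : ℂ) * (G * A * G * A * G).trace)
      = (β : ℂ) * d2m n z (B t0) H := by
    rw [d2m, ← hGd, ← hA]
    ring
  rw [h6] at h3
  have h7 : (fun t => dm n z (B t) H) = fun t => -(1 / (n : ℂ)) *
      ∑ x, ∑ l, (∑ k, Gz (Pn n) (B t) z x k * A k l) * Gz (Pn n) (B t) z l x := by
    funext t
    simp only [dm, Matrix.trace, Matrix.diag_apply, Matrix.mul_apply]
    rfl
  rw [h7]
  exact h3

theorem phi_path' {L : ℕ} (zl cl : Fin L → ℂ) (hz : ∀ l, (zl l).im ≠ 0)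
    {B : ℝ → Matrix (Fin n) (Fin n) ℝ} {B' : Matrix (Fin n) (Fin n) ℝ} {t0 : ℝ}
    (hPB : ∀ t, PB (Pn n) (B t)) (hB : ∀ i j, HasDerivAt (fun t => B t i j) (B' i j) t0) :
    HasDerivAt (fun t => Phi n zl cl (B t))
      (∑ j, dm n (zl j) (B t0) B' * PhiE n zl cl j (B t0)) t0 := by
  have h1 : ∀ l ∈ (Finset.univ : Finset (Fin L)),
      HasDerivAt (fun t => mz (Pn n) (B t) (zl l) - cl l) (dm n (zl l) (B t0) B') t0 :=
    fun l _ => (mz_path hPB hB (hz l)).sub_const (cl l)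
  have h2 := HasDerivAt.fun_finsetProd h1
  have h3 : (∑ i, (∏ j ∈ Finset.univ.erase i, (mz (Pn n) (B t0) (zl j) - cl j))
      • dm n (zl i) (B t0) B') = ∑ j, dm n (zl j) (B t0) B' * PhiE n zl cl j (B t0) := by
    refine Finset.sum_congr rfl fun j _ => ?_
    rw [PhiE, smul_eq_mul, mul_comm]
  rw [h3] at h2
  exact h2

theorem phi_path {K : ℕ} (zl cl : Fin (K + 1) → ℂ) (hz : ∀ l, (zl l).im ≠ 0)
    {B : ℝ → Matrix (Fin n) (Fin n) ℝ} {B' : Matrix (Fin n) (Fin n) ℝ} {t0 : ℝ}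
    (hPB : ∀ t, PB (Pn n) (B t)) (hB : ∀ i j, HasDerivAt (fun t => B t i j) (B' i j) t0) :
    HasDerivAt (fun t => Phi n zl cl (B t)) (DPhi n zl cl (B t0) B') t0 := by
  have h1 := phi_path' zl cl hz hPB hB
  have h2 : (∑ j, dm n (zl j) (B t0) B' * PhiE n zl cl j (B t0)) = DPhi n zl cl (B t0) B' := by
    rw [DPhi]
    refine Finset.sum_congr rfl fun l _ => ?_
    rw [phiE_succAbove]
  rw [h2] at h1
  exact h1

theorem dphi_path {K : ℕ} (zl cl : Fin (K + 1) → ℂ) (hz : ∀ l, (zl l).im ≠ 0)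
    {B : ℝ → Matrix (Fin n) (Fin n) ℝ} {H : Matrix (Fin n) (Fin n) ℝ} {β t0 : ℝ}
    (hPB : ∀ t, PB (Pn n) (B t)) (hB : ∀ i j, HasDerivAt (fun t => B t i j) (β * H i j) t0) :
    HasDerivAt (fun t => DPhi n zl cl (B t) H) ((β : ℂ) * D2Phi n zl cl (B t0) H) t0 := by
  have hB' : ∀ i j, HasDerivAt (fun t => B t i j) ((β • H) i j) t0 := by
    intro i j
    simpa only [Matrix.smul_apply, smul_eq_mul] using hB i j
  have h1 : ∀ l : Fin (K + 1), HasDerivAt (fun t => dm n (zl l) (B t) H * Phi n (fun j : Fin K => zl (l.succAbove j))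
      (fun j : Fin K => cl (l.succAbove j)) (B t))
      ((β : ℂ) * d2m n (zl l) (B t0) H * Phi n (fun j : Fin K => zl (l.succAbove j))
        (fun j : Fin K => cl (l.succAbove j)) (B t0)
        + dm n (zl l) (B t0) H * ∑ j : Fin K, dm n (zl (l.succAbove j)) (B t0) (β • H)
          * PhiE n (fun j : Fin K => zl (l.succAbove j)) (fun j : Fin K => cl (l.succAbove j)) j
            (B t0)) t0 := by
    intro l
    exact (dm_path hPB hB (hz l)).mul (phi_path' (fun j : Fin K => zl (l.succAbove j))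
      (fun j : Fin K => cl (l.succAbove j)) (fun j => hz _) hPB hB')
  have h2 := HasDerivAt.fun_sum (u := Finset.univ) (fun l _ => h1 l)
  have h3 : (∑ l : Fin (K + 1), ((β : ℂ) * d2m n (zl l) (B t0) H * Phi n (fun j : Fin K => zl (l.succAbove j))
        (fun j : Fin K => cl (l.succAbove j)) (B t0)
        + dm n (zl l) (B t0) H * ∑ j : Fin K, dm n (zl (l.succAbove j)) (B t0) (β • H)
          * PhiE n (fun j : Fin K => zl (l.succAbove j)) (fun j : Fin K => cl (l.succAbove j)) j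
            (B t0))) = (β : ℂ) * D2Phi n zl cl (B t0) H := by
    rw [D2Phi, Finset.mul_sum]
    refine Finset.sum_congr rfl fun l _ => ?_
    have e : (∑ j : Fin K, dm n (zl (l.succAbove j)) (B t0) (β • H)
          * PhiE n (fun j : Fin K => zl (l.succAbove j)) (fun j : Fin K => cl (l.succAbove j)) j
            (B t0)) = (β : ℂ) * ∑ j : Fin K, dm n (zl (l.succAbove j)) (B t0) H
          * PhiE n (fun j : Fin K => zl (l.succAbove j)) (fun j : Fin K => cl (l.succAbove j)) j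
            (B t0) := by
      rw [Finset.mul_sum]
      refine Finset.sum_congr rfl fun j _ => ?_
      rw [dm_smul, mul_assoc]
    rw [e]
    ring
  rw [h3] at h2
  exact h2

end Pool.Agent.ZR

end
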