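import Pool.Agent.ZRM.P01
import Pool.Agent.ZRM.P03

/-!
# Merged form of the modules ZR.JDefs, ZR.F1, ZR.GDef2, ZR.JBasic, ZR.JChi, ZR.Sp4, ZR.F2, ZR.JChi2, ZR.JInter, ZR.JMeas, ZR.JQf, ZR.JSchur, ZR.JZeroA, ZR.Sp5, ZR.F3, ZR.JCnt, ZR.JInter2, ZR.JArc, ZR.JDet, ZR.JPath
-/

set_option autoImplicit false

section

/-!
# ZR/JDefs : definitions for part J (helper99).  DO NOT EDIT.

All matrices of part J are `Dw τ d X = diag d + Wv τ X` (see `At_eq_Dw` in JBasic).  For an index `i`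
we remove the row and the column `i` (`mino i`), `rowv i A` is the row `i` without the diagonal entry.
The Gaussian array `X` of size `N + 1` splits into the independent parts `subX i X` (array of size
`N`), `rowX i X` (standard Gaussian vector of length `N`) and `X (i, i)`.
-/


open MeasureTheory ProbabilityTheory Matrix

namespace Pool.Agent.ZR

/-- `diag d + W`, entries of `W` of variance `τ` off the diagonal (`2τ` on it) -/
noncomputable def Dw {N : ℕ} (τ : ℝ) (d : Fin N → ℝ) (X : Fin N × Fin N → ℝ) :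
    Matrix (Fin N) (Fin N) ℝ := Matrix.diagonal d + Wv τ X

/-- principal minor: row and column `i` removed -/
def mino {N : ℕ} (i : Fin (N + 1)) (A : Matrix (Fin (N + 1)) (Fin (N + 1)) ℝ) :
    Matrix (Fin N) (Fin N) ℝ := A.submatrix i.succAbove i.succAbove

/-- row `i` without the diagonal entry -/
def rowv {N : ℕ} (i : Fin (N + 1)) (A : Matrix (Fin (N + 1)) (Fin (N + 1)) ℝ) : Fin N → ℝ :=
  fun j => A i (i.succAbove j)

/-- `rᵀ (M - z)⁻¹ r` -/
noncomputable def qf {N : ℕ} (M : Matrix (Fin N) (Fin N) ℝ) (r : Fin N → ℝ) (z : ℂ) : ℂ :=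
  ∑ j, ∑ k, (r j : ℂ) * Rz M z j k * (r k : ℂ)

/-- `rᵀ (M - z)⁻² r` -/
noncomputable def qf2 {N : ℕ} (M : Matrix (Fin N) (Fin N) ℝ) (r : Fin N → ℝ) (z : ℂ) : ℂ :=
  ∑ j, ∑ k, (r j : ℂ) * (Rz M z * Rz M z) j k * (r k : ℂ)

/-- Schur denominator `A_ii - z - rᵀ (A^{(i)} - z)⁻¹ r` -/
noncomputable def wd {N : ℕ} (i : Fin (N + 1)) (A : Matrix (Fin (N + 1)) (Fin (N + 1)) ℝ)
    (z : ℂ) : ℂ := (A i i : ℂ) - z - qf (mino i A) (rowv i A) z

/-- the array without row and column `i` -/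
def subX {N : ℕ} (i : Fin (N + 1)) (X : Fin (N + 1) × Fin (N + 1) → ℝ) : Fin N × Fin N → ℝ :=
  fun p => X (i.succAbove p.1, i.succAbove p.2)

/-- the (normalised) symmetrised row `i` of the array, a standard Gaussian vector -/
noncomputable def rowX {N : ℕ} (i : Fin (N + 1)) (X : Fin (N + 1) × Fin (N + 1) → ℝ) :
    Fin N → ℝ := fun j => (X (i, i.succAbove j) + X (i.succAbove j, i)) / Real.sqrt 2

end Pool.Agent.ZR

end

section

/-!
# ZR/F1 : sums of the switching polynomials over `j, k, l`, coincidences, entries of `G Xi G`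

`sum_s8`: expand `s8 a b c d = a - b + c - d - abc + abd - acd + bcd`, `a = M_xj`, `b = M_jk`,
`c = M_kl`, `d = M_lx`; the factor `g j` depends on `j` only.  Row sums vanish:
`∑_k b = 0`, `∑_l c = 0` (so `∑ abc`, `∑ c` vanish), `∑_l d = 0`; `abd`: sum over `k` of `b`; `acd`: sum
over `k` of `c = M_kl = M_lk`; left: `a`: `n² ∑_j M_xj g_j`, and `bcd`:
`∑_j g_j ∑_{k,l} M_jk M_kl M_lx = ∑_j (M³)_jx g_j = ∑_j (M³)_xj g_j` (symmetry).
`sum_alt8`: same: only `1` and `abcd` survive.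
`sum_coinc`: a triple which is not `Dst` satisfies one of `j = x, k = x, l = x, j = k, j = l, k = l`
(in this order); the sum of `w j` over the triples with `j = x` is `n² w x`, over each of the other
five classes `n ∑_j w j`.  (`w j ≥ 0` follows from the hypothesis.)
`xi_entry`: `(A E^{ab} C)_uv = A_ua C_bv + A_ub C_av`.
-/


open MeasureTheory ProbabilityTheory Matrix

namespace Pool.Agent.ZR.F

/-- `x, j, k, l` distinct -/
def Dst {n : ℕ} (x j k l : Fin n) : Prop :=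
  x ≠ j ∧ x ≠ k ∧ x ≠ l ∧ j ≠ k ∧ j ≠ l ∧ k ≠ l

instance {n : ℕ} (x j k l : Fin n) : Decidable (Dst x j k l) := by unfold Dst; infer_instance

private theorem F1_col {n : ℕ} {M : Matrix (Fin n) (Fin n) ℝ} (hs : Mᵀ = M)
    (hr : ∀ i, ∑ j, M i j = 0) (l : Fin n) : ∑ k, M k l = 0 := by
  rw [← hr l]
  refine Finset.sum_congr rfl fun k _ => ?_
  exact congrFun (congrFun hs l) k

private theorem F1_sumMM {n : ℕ} {M : Matrix (Fin n) (Fin n) ℝ} (hs : Mᵀ = M)
    (hr : ∀ i, ∑ j, M i j = 0) (x : Fin n) : ∑ k, (M * M) k x = 0 := by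
  simp only [Matrix.mul_apply]
  rw [Finset.sum_comm]
  refine Finset.sum_eq_zero fun l _ => ?_
  rw [← Finset.sum_mul, F1_col hs hr l, zero_mul]

private theorem F1_cube {n : ℕ} (M : Matrix (Fin n) (Fin n) ℝ) (j x : Fin n) :
    ∑ k, M j k * (M * M) k x = (M ^ 3) j x := by
  rw [← Matrix.mul_apply, pow_succ', pow_two]

private theorem F1_s8 {n : ℕ} (M : Matrix (Fin n) (Fin n) ℝ) (hs : Mᵀ = M)
    (hr : ∀ i, ∑ j, M i j = 0) (x j : Fin n) :
    ∑ k, ∑ l, s8 (M x j) (M j k) (M k l) (M l x) = (n : ℝ) ^ 2 * M x j + (M ^ 3) x j := by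
  have e1 : ∀ k, ∑ l, s8 (M x j) (M j k) (M k l) (M l x)
      = n * M x j - n * M j k - M x j * (M * M) k x + M j k * (M * M) k x := by
    intro k
    have e2 : ∀ l, s8 (M x j) (M j k) (M k l) (M l x)
        = (M x j - M j k) + (1 - M x j * M j k) * M k l + (M x j * M j k - 1) * M l x
          + (M j k - M x j) * (M k l * M l x) := by
      intro l
      unfold s8
      ring
    rw [Finset.sum_congr rfl fun l _ => e2 l, Finset.sum_add_distrib, Finset.sum_add_distrib,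
      Finset.sum_add_distrib, ← Finset.mul_sum, ← Finset.mul_sum, ← Finset.mul_sum, hr k,
      F1_col hs hr x, ← Matrix.mul_apply]
    simp only [Finset.sum_const, Finset.card_univ, Fintype.card_fin, nsmul_eq_mul]
    ring
  rw [Finset.sum_congr rfl fun k _ => e1 k]
  simp only [Finset.sum_add_distrib, Finset.sum_sub_distrib, ← Finset.mul_sum, hr j,
    F1_sumMM hs hr x, F1_cube, Finset.sum_const, Finset.card_univ, Fintype.card_fin, nsmul_eq_mul]
  have h3 : (M ^ 3) j x = (M ^ 3) x j := by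
    have h4 : (M ^ 3)ᵀ = M ^ 3 := by rw [Matrix.transpose_pow, hs]
    exact congrFun (congrFun h4 x) j
  rw [h3]
  ring

private theorem F1_alt8 {n : ℕ} (M : Matrix (Fin n) (Fin n) ℝ) (hs : Mᵀ = M)
    (hr : ∀ i, ∑ j, M i j = 0) (x j : Fin n) :
    ∑ k, ∑ l, alt8 (M x j) (M j k) (M k l) (M l x)
      = (n : ℝ) ^ 2 + M x j * (M ^ 3) j x := by
  have e1 : ∀ k, ∑ l, alt8 (M x j) (M j k) (M k l) (M l x)
      = n - n * M x j * M j k - (M * M) k x + M x j * (M j k * (M * M) k x) := by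
    intro k
    have e2 : ∀ l, alt8 (M x j) (M j k) (M k l) (M l x)
        = (1 - M x j * M j k) + (M x j - M j k) * M k l + (M j k - M x j) * M l x
          + (M x j * M j k - 1) * (M k l * M l x) := by
      intro l
      unfold alt8
      ring
    rw [Finset.sum_congr rfl fun l _ => e2 l, Finset.sum_add_distrib, Finset.sum_add_distrib,
      Finset.sum_add_distrib, ← Finset.mul_sum, ← Finset.mul_sum, ← Finset.mul_sum, hr k,
      F1_col hs hr x, ← Matrix.mul_apply]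
    simp only [Finset.sum_const, Finset.card_univ, Fintype.card_fin, nsmul_eq_mul]
    ring
  rw [Finset.sum_congr rfl fun k _ => e1 k]
  simp only [Finset.sum_add_distrib, Finset.sum_sub_distrib, ← Finset.mul_sum, hr j,
    F1_sumMM hs hr x, F1_cube, Finset.sum_const, Finset.card_univ, Fintype.card_fin, nsmul_eq_mul]
  ring

theorem sum_s8 {n : ℕ} (M : Matrix (Fin n) (Fin n) ℝ) (hs : Mᵀ = M) (hr : ∀ i, ∑ j, M i j = 0)
    (x : Fin n) (g : Fin n → ℂ) :
    ∑ j, ∑ k, ∑ l, (s8 (M x j) (M j k) (M k l) (M l x) : ℂ) * g j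
      = (n : ℂ) ^ 2 * ∑ j, (M x j : ℂ) * g j + ∑ j, (((M ^ 3) x j : ℝ) : ℂ) * g j := by
  have e1 : ∀ j, ∑ k, ∑ l, (s8 (M x j) (M j k) (M k l) (M l x) : ℂ) * g j
      = (n : ℂ) ^ 2 * ((M x j : ℂ) * g j) + (((M ^ 3) x j : ℝ) : ℂ) * g j := by
    intro j
    have h := congrArg (fun r : ℝ => (r : ℂ)) (F1_s8 M hs hr x j)
    simp only [Complex.ofReal_sum, Complex.ofReal_add, Complex.ofReal_mul, Complex.ofReal_pow,
      Complex.ofReal_natCast] at h
    have h2 : ∑ k, ∑ l, (s8 (M x j) (M j k) (M k l) (M l x) : ℂ) * g j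
        = (∑ k, ∑ l, (s8 (M x j) (M j k) (M k l) (M l x) : ℂ)) * g j := by
      rw [Finset.sum_mul]
      refine Finset.sum_congr rfl fun k _ => ?_
      rw [Finset.sum_mul]
    rw [h2, h]
    ring
  rw [Finset.sum_congr rfl fun j _ => e1 j, Finset.sum_add_distrib, ← Finset.mul_sum]

theorem sum_alt8 {n : ℕ} (M : Matrix (Fin n) (Fin n) ℝ) (hs : Mᵀ = M) (hr : ∀ i, ∑ j, M i j = 0)
    (x : Fin n) (g : Fin n → ℂ) :
    ∑ j, ∑ k, ∑ l, (alt8 (M x j) (M j k) (M k l) (M l x) : ℂ) * g j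
      = (n : ℂ) ^ 2 * ∑ j, g j + ∑ j, ((M x j * (M ^ 3) j x : ℝ) : ℂ) * g j := by
  have e1 : ∀ j, ∑ k, ∑ l, (alt8 (M x j) (M j k) (M k l) (M l x) : ℂ) * g j
      = (n : ℂ) ^ 2 * g j + ((M x j * (M ^ 3) j x : ℝ) : ℂ) * g j := by
    intro j
    have h := congrArg (fun r : ℝ => (r : ℂ)) (F1_alt8 M hs hr x j)
    simp only [Complex.ofReal_sum, Complex.ofReal_add, Complex.ofReal_mul, Complex.ofReal_pow,
      Complex.ofReal_natCast] at h
    have h2 : ∑ k, ∑ l, (alt8 (M x j) (M j k) (M k l) (M l x) : ℂ) * g j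
        = (∑ k, ∑ l, (alt8 (M x j) (M j k) (M k l) (M l x) : ℂ)) * g j := by
      rw [Finset.sum_mul]
      refine Finset.sum_congr rfl fun k _ => ?_
      rw [Finset.sum_mul]
    rw [h2, h, Complex.ofReal_mul]
    ring
  rw [Finset.sum_congr rfl fun j _ => e1 j, Finset.sum_add_distrib, ← Finset.mul_sum]

theorem sum_coinc {n : ℕ} (x : Fin n) (Fn : Fin n → Fin n → Fin n → ℂ) (w : Fin n → ℝ)
    (h : ∀ j k l, ‖Fn j k l‖ ≤ w j) :
    ‖∑ j, ∑ k, ∑ l, Fn j k l - ∑ j, ∑ k, ∑ l, (if Dst x j k l then Fn j k l else 0)‖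
      ≤ (n : ℝ) ^ 2 * w x + 5 * n * ∑ j, w j := by
  have hw : ∀ j, 0 ≤ w j := fun j => (norm_nonneg _).trans (h j j j)
  have e0 : ∑ j, ∑ k, ∑ l, Fn j k l - ∑ j, ∑ k, ∑ l, (if Dst x j k l then Fn j k l else 0)
      = ∑ j, ∑ k, ∑ l, (if Dst x j k l then 0 else Fn j k l) := by
    rw [← Finset.sum_sub_distrib]
    refine Finset.sum_congr rfl fun j _ => ?_
    rw [← Finset.sum_sub_distrib]
    refine Finset.sum_congr rfl fun k _ => ?_
    rw [← Finset.sum_sub_distrib]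
    refine Finset.sum_congr rfl fun l _ => ?_
    split_ifs <;> simp
  rw [e0]
  have e1 : ∀ j k l, ‖(if Dst x j k l then 0 else Fn j k l)‖
      ≤ w j * ((if j = x then 1 else 0) + (if k = x then 1 else 0) + (if l = x then 1 else 0)
        + (if k = j then 1 else 0) + (if l = j then 1 else 0) + (if l = k then 1 else 0)) := by
    intro j k l
    by_cases hD : Dst x j k l
    · rw [if_pos hD, norm_zero]
      refine mul_nonneg (hw j) ?_
      have h01 : ∀ p : Prop, [Decidable p] → (0 : ℝ) ≤ (if p then 1 else 0) := by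
        intro p _
        split_ifs <;> norm_num
      have := h01 (j = x)
      have := h01 (k = x)
      have := h01 (l = x)
      have := h01 (k = j)
      have := h01 (l = j)
      have := h01 (l = k)
      linarith
    · rw [if_neg hD]
      refine (h j k l).trans ?_
      have h1 : (1 : ℝ) ≤ (if j = x then 1 else 0) + (if k = x then 1 else 0)
          + (if l = x then 1 else 0)
          + (if k = j then 1 else 0) + (if l = j then 1 else 0) + (if l = k then 1 else 0) := by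
        have h01 : ∀ p : Prop, [Decidable p] → (0 : ℝ) ≤ (if p then 1 else 0) := by
          intro p _
          split_ifs <;> norm_num
        have g1 := h01 (j = x)
        have g2 := h01 (k = x)
        have g3 := h01 (l = x)
        have g4 := h01 (k = j)
        have g5 := h01 (l = j)
        have g6 := h01 (l = k)
        unfold Dst at hD
        by_cases c1 : j = x
        · rw [if_pos c1] at g1 ⊢; linarith
        by_cases c2 : k = x
        · rw [if_pos c2] at g2 ⊢; linarith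
        by_cases c3 : l = x
        · rw [if_pos c3] at g3 ⊢; linarith
        by_cases c4 : k = j
        · rw [if_pos c4] at g4 ⊢; linarith
        by_cases c5 : l = j
        · rw [if_pos c5] at g5 ⊢; linarith
        by_cases c6 : l = k
        · rw [if_pos c6] at g6 ⊢; linarith
        exact absurd ⟨Ne.symm c1, Ne.symm c2, Ne.symm c3, Ne.symm c4, Ne.symm c5, Ne.symm c6⟩ hD
      have h2 := mul_le_mul_of_nonneg_left h1 (hw j)
      linarith
  refine (norm_sum_le _ _).trans ?_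
  have e2 : ∀ j, ‖∑ k, ∑ l, (if Dst x j k l then 0 else Fn j k l)‖
      ≤ (n : ℝ) ^ 2 * (if j = x then w j else 0) + 5 * n * w j := by
    intro j
    refine (norm_sum_le _ _).trans ?_
    have e3 : ∀ k, ‖∑ l, (if Dst x j k l then 0 else Fn j k l)‖
        ≤ w j * (n * (if j = x then 1 else 0) + n * (if k = x then 1 else 0)
          + n * (if k = j then 1 else 0) + 3) := by
      intro k
      refine (norm_sum_le _ _).trans ?_
      refine (Finset.sum_le_sum fun l _ => e1 j k l).trans (le_of_eq ?_)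
      rw [← Finset.mul_sum]
      simp only [Finset.sum_add_distrib, Finset.sum_const, Finset.card_univ, Fintype.card_fin,
        nsmul_eq_mul, Finset.sum_ite_eq', Finset.mem_univ, if_true]
      ring
    refine (Finset.sum_le_sum fun k _ => e3 k).trans (le_of_eq ?_)
    rw [← Finset.mul_sum]
    simp only [Finset.sum_add_distrib, Finset.sum_const, Finset.card_univ, Fintype.card_fin,
      nsmul_eq_mul, ← Finset.mul_sum, Finset.sum_ite_eq', Finset.mem_univ, if_true]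
    split_ifs <;> ring
  refine (Finset.sum_le_sum fun j _ => e2 j).trans (le_of_eq ?_)
  rw [Finset.sum_add_distrib, ← Finset.mul_sum, ← Finset.mul_sum, Finset.sum_ite_eq',
    if_pos (Finset.mem_univ x)]

theorem es_entry {n : ℕ} (A C : Matrix (Fin n) (Fin n) ℂ) (a b u v : Fin n) :
    (A * toC (Es a b) * C) u v = A u a * C b v + A u b * C a v := by
  have e1 : ∀ q, (A * toC (Es a b)) u q
      = (if q = b then A u a else 0) + (if q = a then A u b else 0) := by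
    intro q
    rw [Matrix.mul_apply]
    have e2 : ∀ p, A u p * (toC (Es a b)) p q
        = (if p = a then (if q = b then A u p else 0) else 0)
          + (if p = b then (if q = a then A u p else 0) else 0) := by
      intro p
      simp only [toC, Es, Matrix.map_apply, Matrix.of_apply, ite_and, Complex.ofReal_add]
      split_ifs <;> simp [mul_add]
    rw [Finset.sum_congr rfl fun p _ => e2 p, Finset.sum_add_distrib]
    simp
  rw [Matrix.mul_apply]
  have e3 : ∀ q, (A * toC (Es a b)) u q * C q v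
      = (if q = b then A u a * C q v else 0) + (if q = a then A u b * C q v else 0) := by
    intro q
    rw [e1 q, add_mul, ite_mul, ite_mul, zero_mul]
  rw [Finset.sum_congr rfl fun q _ => e3 q, Finset.sum_add_distrib]
  simp

theorem xi_entry {n : ℕ} (A C : Matrix (Fin n) (Fin n) ℂ) (x j k l u v : Fin n) :
    (A * toC (Xi x j k l) * C) u v =
      (A u x * C j v + A u j * C x v) - (A u j * C k v + A u k * C j v)
        + (A u k * C l v + A u l * C k v) - (A u l * C x v + A u x * C l v) := by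
  have h1 : toC (Xi x j k l) = toC (Es x j) - toC (Es j k) + toC (Es k l) - toC (Es l x) := by
    ext p q
    simp only [toC, Xi, Matrix.map_apply, Matrix.sub_apply, Matrix.add_apply, Complex.ofReal_sub,
      Complex.ofReal_add]
  rw [h1, Matrix.mul_sub, Matrix.mul_add, Matrix.mul_sub, Matrix.sub_mul, Matrix.add_mul,
    Matrix.sub_mul, Matrix.sub_apply, Matrix.add_apply, Matrix.sub_apply, es_entry, es_entry,
    es_entry, es_entry]

theorem s8_abs {a b c d : ℝ} (ha : a ^ 2 = 1) (hb : b ^ 2 = 1) (hc : c ^ 2 = 1) (hd : d ^ 2 = 1) :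
    |s8 a b c d| ≤ 8 ∧ |alt8 a b c d| ≤ 8 := by
  have key : ∀ x : ℝ, x ^ 2 = 1 → x = 1 ∨ x = -1 := fun x hx =>
    mul_self_eq_one_iff.1 (by rw [← pow_two]; exact hx)
  rcases key a ha with rfl | rfl <;>
  rcases key b hb with rfl | rfl <;>
  rcases key c hc with rfl | rfl <;>
  rcases key d hd with rfl | rfl <;>
  norm_num [alt8, s8]

end Pool.Agent.ZR.F

end

section

/-!
# ZR, part G: definitions for the switching step and the good event.

`V_l = G(z_l)²`.  For a fixed Gaussian array `X` everything is a function of the pattern `σ`.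
-/


open MeasureTheory ProbabilityTheory Matrix

namespace Pool.Agent.ZR.G

/-- `Θ = ∏ (m(z_l) - c_l)` -/
noncomputable def Th {N K : ℕ} (Q B : Matrix (Fin N) (Fin N) ℝ) (zl cl : Fin K → ℂ) : ℂ :=
  ∏ l, (mz Q B (zl l) - cl l)

/-- `Θ_l`: the product without the factor `l` -/
noncomputable def ThE {N K : ℕ} (Q B : Matrix (Fin N) (Fin N) ℝ) (zl cl : Fin K → ℂ)
    (l : Fin K) : ℂ :=
  ∏ l' ∈ Finset.univ.erase l, (mz Q B (zl l') - cl l')

/-- the weight `Ξ = ∏ (|m(z_l) - c_l| + ρ)` -/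
noncomputable def Xw {N K : ℕ} (Q B : Matrix (Fin N) (Fin N) ℝ) (zl cl : Fin K → ℂ)
    (ρ : ℝ) : ℝ :=
  ∏ l, (‖mz Q B (zl l) - cl l‖ + ρ)

/-- the sum over cyclically adjacent different indices of `s8 G_ji` -/
noncomputable def SL {n : ℕ} (M G : Matrix (Fin n) (Fin n) ℂ) : ℂ :=
  ∑ i, ∑ j, ∑ k, ∑ l, if Adj4 i j k l then s8 M i j k l * G j i else 0

/-- the sum of `alt8 xiG` -/
noncomputable def SR {n : ℕ} (M G : Matrix (Fin n) (Fin n) ℂ) : ℂ :=
  ∑ i, ∑ j, ∑ k, ∑ l, if Adj4 i j k l then alt8 M i j k l * xiG G i j k l else 0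

/-- the sum of `alt8 G_ji xiV` -/
noncomputable def SV {n : ℕ} (M G V : Matrix (Fin n) (Fin n) ℂ) : ℂ :=
  ∑ i, ∑ j, ∑ k, ∑ l, if Adj4 i j k l then alt8 M i j k l * (G j i * xiV V i j k l) else 0

/-- the sum over distinct `i, j, k` of `s8p G_ii` -/
noncomputable def SP {n : ℕ} (M G : Matrix (Fin n) (Fin n) ℂ) : ℂ :=
  ∑ i, ∑ j, ∑ k, if i ≠ j ∧ j ≠ k ∧ i ≠ k then s8p M i j k * G i i else 0

/-- integrand of the summed four-cycle identity -/
noncomputable def CycI {n K : ℕ} (α β : ℝ) (zl cl : Fin K → ℂ) (z : ℂ)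
    (σ : Fin n → Fin n → Bool) (X : Fin n × Fin n → ℝ) : ℂ :=
  SL (toC (Mx σ)) (Gz (Pn n) (Bm α β σ X) z) * Th (Pn n) (Bm α β σ X) zl cl
    + ((α / Real.sqrt n : ℝ) : ℂ) *
      (SR (toC (Mx σ)) (Gz (Pn n) (Bm α β σ X) z) * Th (Pn n) (Bm α β σ X) zl cl
        + (1 / (n : ℂ)) * ∑ l, SV (toC (Mx σ)) (Gz (Pn n) (Bm α β σ X) z)
            (Gz (Pn n) (Bm α β σ X) (zl l) ^ 2) * ThE (Pn n) (Bm α β σ X) zl cl l)

/-- integrand of the summed path identity -/
noncomputable def PthI {n K : ℕ} (α β : ℝ) (zl cl : Fin K → ℂ) (z : ℂ)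
    (σ : Fin n → Fin n → Bool) (X : Fin n × Fin n → ℝ) : ℂ :=
  SP (toC (Mx σ)) (Gz (Pn n) (Bm α β σ X) z) * Th (Pn n) (Bm α β σ X) zl cl

/-- all entries of `G(z)` and of the `G(z_l)` are at most `Γ` -/
def EnAll {n K : ℕ} (α β Γ : ℝ) (zl : Fin K → ℂ) (z : ℂ)
    (σ : Fin n → Fin n → Bool) (X : Fin n × Fin n → ℝ) : Prop :=
  EnLe (Gz (Pn n) (Bm α β σ X) z) Γ ∧ ∀ l, EnLe (Gz (Pn n) (Bm α β σ X) (zl l)) Γ

/-- bundle of bounds for one resolvent `G = G(w)`, `|Im w| ≥ η`, `M` the sign matrix,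
`p = n^(C(ν+c))` -/
structure Bd {n : ℕ} (M G : Matrix (Fin n) (Fin n) ℂ) (η p : ℝ) : Prop where
  rs : IsRs G
  en : EnLe G p
  hs : hs2 G ≤ n * p / η
  nu : NuLe G (n * p)
  dd : ∑ j, ‖(M * G) j j‖ ^ 2 ≤ (n : ℝ) ^ 2 * p
  rv : IsRs (G ^ 2)
  ev : EnLe (G ^ 2) (p / η)
  hv : hs2 (G ^ 2) ≤ n * p / η ^ 3
  nv : NuLe (G ^ 2) (n * p / η)
  dv : ∑ j, ‖(M * G ^ 2) j j‖ ^ 2 ≤ (n : ℝ) ^ 2 * p / η ^ 2

/-- the good event -/
def Gd {n K : ℕ} (α β η p : ℝ) (zl : Fin K → ℂ) (z : ℂ)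
    (σ : Fin n → Fin n → Bool) (X : Fin n × Fin n → ℝ) : Prop :=
  OpLe (toC (Mx σ)) (Real.sqrt n * p) ∧
  Bd (toC (Mx σ)) (Gz (Pn n) (Bm α β σ X) z) η p ∧
  ∀ l, Bd (toC (Mx σ)) (Gz (Pn n) (Bm α β σ X) (zl l)) η p

/-- standing assumptions on the parameters (`x = 1/η ≤ n²`) -/
structure Par {K : ℕ} (n : ℕ) (α β η : ℝ) (zl cl : Fin K → ℂ) (z : ℂ) : Prop where
  n2 : 2 ≤ n
  ev : Even n
  a0 : 0 ≤ α
  b0 : 0 ≤ β
  ab : α ^ 2 + β ^ 2 = 1
  e0 : 0 < η
  e2 : 1 / η ≤ (n : ℝ) ^ 2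
  e3 : η ≤ (n : ℝ) ^ 3
  az : Adm n η z
  al : ∀ l, Adm n η (zl l)
  cb : ∀ l, ‖cl l‖ ≤ (n : ℝ) ^ 3

end Pool.Agent.ZR.G

end

section

/-!
# ZR/JBasic : trivial identities for `At`, `Dw`, `mino`, `rowv` (all by `ext` and algebra)

* `At_eq_Dw`: `√(1-e^{-t}) √(v/2) = √((1-e^{-t}) v/2)` (`Real.sqrt_mul`, `1 - e^{-t} ≥ 0`).
* `mino_Dw`: `succAbove` is injective, so the minor of a diagonal matrix is diagonal.
* `rowv_Dw`: off diagonal entries, `√(τ/2) = √τ/√2`.
* `diag_Dw`: `2√(τ/2) = √(2τ)` (square both sides; both are non negative).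
* `qf_smul`: `qf` is quadratic in `r`.
* `mino_snoc`, `snoc_last`: `(Fin.last N).succAbove j = j.castSucc`; unfold `snocV`.
* `gz_one`: `(1 : Matrix).map ofReal = 1`.
-/


open MeasureTheory ProbabilityTheory Matrix

namespace Pool.Agent.ZR

theorem At_eq_Dw {N : ℕ} (v t : ℝ) (ht : 0 ≤ t) (a : Fin N → ℝ)
    (X : Fin N × Fin N → ℝ) :
    At v t a X = Dw ((1 - Real.exp (-t)) * v) (fun i => Real.exp (-t / 2) * a i) X := by
  have h1 : 0 ≤ 1 - Real.exp (-t) := by
    have : Real.exp (-t) ≤ 1 := Real.exp_le_one_iff.2 (by linarith)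
    linarith
  have h2 : Real.sqrt ((1 - Real.exp (-t)) * v / 2) =
      Real.sqrt (1 - Real.exp (-t)) * Real.sqrt (v / 2) := by
    rw [mul_div_assoc, Real.sqrt_mul h1]
  ext i j
  simp only [At, Dw, Wv, Matrix.add_apply, Matrix.smul_apply, Matrix.diagonal_apply, smul_eq_mul,
    Matrix.of_apply, h2]
  split_ifs <;> ring

theorem Dw_symm {N : ℕ} (τ : ℝ) (d : Fin N → ℝ) (X : Fin N × Fin N → ℝ) : (Dw τ d X).IsSymm := by
  apply Matrix.IsSymm.ext
  intro i j
  simp only [Dw, Wv, Matrix.add_apply, Matrix.diagonal_apply, Matrix.of_apply]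
  by_cases h : i = j
  · subst h; rfl
  · rw [if_neg h, if_neg (Ne.symm h)]; ring

theorem measurable_Dw {N : ℕ} (τ : ℝ) (d : Fin N → ℝ) (k l : Fin N) :
    Measurable (fun X : Fin N × Fin N → ℝ => Dw τ d X k l) := by
  simp only [Dw, Wv, Matrix.add_apply, Matrix.of_apply]
  fun_prop

theorem mino_symm {N : ℕ} (i : Fin (N + 1)) (A : Matrix (Fin (N + 1)) (Fin (N + 1)) ℝ)
    (hA : A.IsSymm) : (mino i A).IsSymm := by
  exact hA.submatrix _

theorem mino_Dw {N : ℕ} (i : Fin (N + 1)) (τ : ℝ) (d : Fin (N + 1) → ℝ)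
    (X : Fin (N + 1) × Fin (N + 1) → ℝ) :
    mino i (Dw τ d X) = Dw τ (fun j => d (i.succAbove j)) (subX i X) := by
  ext j k
  simp only [mino, Dw, Wv, subX, Matrix.submatrix_apply, Matrix.add_apply, Matrix.diagonal_apply,
    Matrix.of_apply, Fin.succAbove_right_inj]

theorem rowv_Dw {N : ℕ} (i : Fin (N + 1)) (τ : ℝ) (hτ : 0 ≤ τ) (d : Fin (N + 1) → ℝ)
    (X : Fin (N + 1) × Fin (N + 1) → ℝ) :
    rowv i (Dw τ d X) = fun j => Real.sqrt τ * rowX i X j := by
  funext j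
  have h1 : i ≠ i.succAbove j := (Fin.succAbove_ne i j).symm
  simp only [rowv, rowX, Dw, Wv, Matrix.add_apply, Matrix.diagonal_apply, Matrix.of_apply, if_neg h1,
    Real.sqrt_div hτ]
  ring

theorem diag_Dw {N : ℕ} (i : Fin N) (τ : ℝ) (hτ : 0 ≤ τ) (d : Fin N → ℝ)
    (X : Fin N × Fin N → ℝ) : Dw τ d X i i = d i + Real.sqrt (2 * τ) * X (i, i) := by
  have h1 : Real.sqrt (2 * τ) = 2 * Real.sqrt (τ / 2) := by
    have h2 : 2 * τ = 2 ^ 2 * (τ / 2) := by ring
    rw [h2, Real.sqrt_mul (by positivity), Real.sqrt_sq (by norm_num)]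
  simp only [Dw, Wv, Matrix.add_apply, Matrix.diagonal_apply_eq, Matrix.of_apply, h1]
  ring

theorem qf_smul {N : ℕ} (M : Matrix (Fin N) (Fin N) ℝ) (r : Fin N → ℝ) (s : ℝ) (z : ℂ) :
    qf M (fun j => s * r j) z = ((s ^ 2 : ℝ) : ℂ) * qf M r z := by
  unfold qf
  rw [Finset.mul_sum]
  refine Finset.sum_congr rfl fun j _ => ?_
  rw [Finset.mul_sum]
  refine Finset.sum_congr rfl fun k _ => ?_
  push_cast
  ring

/-- the form of `q` used everywhere: `q_i = τ · qf(minor, standard Gaussian vector)` -/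
theorem qf_Dw {N : ℕ} (i : Fin (N + 1)) (τ : ℝ) (hτ : 0 ≤ τ) (d : Fin (N + 1) → ℝ)
    (X : Fin (N + 1) × Fin (N + 1) → ℝ) (z : ℂ) :
    qf (mino i (Dw τ d X)) (rowv i (Dw τ d X)) z
      = (τ : ℂ) * qf (Dw τ (fun j => d (i.succAbove j)) (subX i X)) (rowX i X) z := by
  rw [mino_Dw, rowv_Dw i τ hτ, qf_smul, Real.sq_sqrt hτ]

theorem snoc_last {N : ℕ} (a : Fin N → ℝ) (b : ℝ) :
    snocV (n := N + 1) a b (Fin.last N) = b := by
  simp [snocV]

theorem snoc_succAbove {N : ℕ} (a : Fin N → ℝ) (b : ℝ) (j : Fin N) :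
    snocV (n := N + 1) a b ((Fin.last N).succAbove j) = a j := by
  rw [Fin.succAbove_last]
  have h : (j.castSucc : ℕ) < N + 1 - 1 := j.2
  unfold snocV
  rw [dif_pos h]
  rfl

theorem mino_At_snoc {N : ℕ} (v t : ℝ) (a : Fin N → ℝ) (b : ℝ)
    (X : Fin (N + 1) × Fin (N + 1) → ℝ) :
    mino (Fin.last N) (At v t (snocV (n := N + 1) a b) X) = At v t a (subX (Fin.last N) X) := by
  ext j k
  simp only [mino, At, Wv, subX, Matrix.submatrix_apply, Matrix.add_apply, Matrix.smul_apply,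
    Matrix.diagonal_apply, Matrix.of_apply, Fin.succAbove_right_inj, snoc_succAbove]

theorem gz_one {N : ℕ} (A : Matrix (Fin N) (Fin N) ℝ) (z : ℂ) : Gz 1 A z = Rz A z := by
  unfold Gz
  rw [Matrix.map_one _ Complex.ofReal_zero Complex.ofReal_one, mul_one]

/-- `σ² = 1 - e^{-t}`, `t = n^{-δ}`: bounds for the entry variance `τ = σ²/n` -/
theorem tau_bounds (n : ℕ) (hn : 1 ≤ n) (δ : ℝ) (hδ : 0 < δ) :
    let τ : ℝ := (1 - Real.exp (-((n : ℝ) ^ (-δ)))) * (1 / (n : ℝ))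
    0 < τ ∧ τ ≤ (n : ℝ) ^ (-δ) / n ∧ (n : ℝ) ^ (-δ) / (2 * n) ≤ τ := by
  have hn0 : (0 : ℝ) < n := by exact_mod_cast hn
  have hn1 : (1 : ℝ) ≤ n := by exact_mod_cast hn
  have hs0 : 0 < (n : ℝ) ^ (-δ) := Real.rpow_pos_of_pos hn0 _
  have hs1 : (n : ℝ) ^ (-δ) ≤ 1 := Real.rpow_le_one_of_one_le_of_nonpos hn1 (by linarith)
  set s := (n : ℝ) ^ (-δ) with hs
  have h1 : 1 - Real.exp (-s) ≤ s := by
    have := Real.add_one_le_exp (-s)
    linarith
  have h2 : s / 2 ≤ 1 - Real.exp (-s) := by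
    have h3 : Real.exp (-s) ≤ 1 - s / 2 := by
      rw [Real.exp_neg, inv_le_comm₀ (Real.exp_pos _) (by linarith)]
      have h4 := Real.add_one_le_exp s
      refine le_trans ?_ h4
      rw [inv_le_comm₀ (by linarith) (by linarith), inv_eq_one_div, div_le_iff₀ (by linarith)]
      nlinarith
    linarith
  intro τ
  refine ⟨?_, ?_, ?_⟩
  · show 0 < (1 - Real.exp (-s)) * (1 / (n : ℝ))
    have : 0 < 1 - Real.exp (-s) := by linarith
    positivity
  · show (1 - Real.exp (-s)) * (1 / (n : ℝ)) ≤ s / n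
    rw [mul_one_div]
    gcongr
  · show s / (2 * n) ≤ (1 - Real.exp (-s)) * (1 / (n : ℝ))
    rw [mul_one_div]
    have : s / (2 * n) = (s / 2) / n := by field_simp
    rw [this]
    gcongr

end Pool.Agent.ZR

end

section

/-!
# ZR/JChi : chi-square type bounds for the standard Gaussian vector `gst ι`

* `gauss_exp_sq`: `∫ exp(-s x²) dγ = (1+2s)^{-1/2}`: the density is `(2π)^{-1/2} exp(-x²/2)`, so the
  integral is `(2π)^{-1/2} ∫ exp(-(s + 1/2)x²) dx = (2π)^{-1/2} (π/(s+1/2))^{1/2}`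
  (`integral_gaussian`; `gaussianReal` has density `gaussianPDF`).
* `chi_laplace`: `exp(-s ∑_{k∈K} g_k²) = ∏_k h_k(g_k)`, `h_k = exp(-s x²)` for `k ∈ K` and `1`
  otherwise; Fubini for the product measure (`lintegral_fintype_prod_eq_prod`-type lemma, or the real
  version `integral_fintype_prod_eq_prod` and `ofReal_integral_eq_lintegral_ofReal`).
* `chi_low`: `1{∑ < m/2} ≤ exp(m/4 - (1/2)∑)`, so by `chi_laplace` with `s = 1/2` the probability is at
  most `e^{m/4} 2^{-m/2} = exp(m (1/4 - (log 2)/2)) ≤ exp(-m/11)` because `log 2 ≥ 0.6931`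
  (`Real.log_two_gt_d9`), `1/4 - 0.34655 ≤ -1/11`.
* `gauss_tail`: `P(|x| > s) ≤ 2 exp(-s²/2)`: Chernoff with `E e^{sx} = e^{s²/2}` (`mgf_gaussianReal`),
  `P(x ≥ s) ≤ e^{-s²} e^{s²/2}`, and the same for `-x`.
* `gst_tail`: the `k`-th coordinate has law `gaussianReal 0 1` (`measurePreserving_eval`).
-/


open MeasureTheory ProbabilityTheory Matrix

namespace Pool.Agent.ZR

private lemma gauss_exp_sq_real85 (s : ℝ) (hs : 0 ≤ s) :
    ∫ x, Real.exp (-(s * x ^ 2)) ∂(gaussianReal 0 1) = (1 + 2 * s) ^ (-(1 / 2) : ℝ) := by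
  rw [integral_gaussianReal_eq_integral_smul one_ne_zero]
  have h1 : ∀ x : ℝ, gaussianPDFReal 0 1 x • Real.exp (-(s * x ^ 2))
      = (Real.sqrt (2 * Real.pi))⁻¹ * Real.exp (-(s + 1 / 2) * x ^ 2) := by
    intro x
    rw [gaussianPDFReal_def]
    simp only [NNReal.coe_one, mul_one, sub_zero, smul_eq_mul]
    rw [mul_assoc, ← Real.exp_add]
    congr 2
    ring
  simp_rw [h1]
  rw [integral_const_mul, integral_gaussian]
  have hpi := Real.pi_pos
  have h2 : (0 : ℝ) < 1 + 2 * s := by linarith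
  have h3 : Real.pi / (s + 1 / 2) = 2 * Real.pi * (1 + 2 * s)⁻¹ := by
    field_simp
    ring
  rw [h3, Real.sqrt_mul (by positivity : (0 : ℝ) ≤ 2 * Real.pi) ((1 + 2 * s)⁻¹), ← mul_assoc,
    inv_mul_cancel₀ (by positivity), one_mul,
    Real.sqrt_eq_rpow, ← Real.rpow_neg_one, ← Real.rpow_mul h2.le]
  norm_num

private lemma chi_laplace_real85 {ι : Type*} [Fintype ι] (K : Finset ι) (s : ℝ) (hs : 0 ≤ s) :
    ∫ g, Real.exp (-(s * ∑ k ∈ K, g k ^ 2)) ∂(gst ι) = (1 + 2 * s) ^ (-((K.card : ℝ) / 2)) := by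
  classical
  have h1 : ∀ g : ι → ℝ, Real.exp (-(s * ∑ k ∈ K, g k ^ 2))
      = ∏ k, (if k ∈ K then (fun x : ℝ => Real.exp (-(s * x ^ 2))) else fun _ => 1) (g k) := by
    intro g
    rw [Finset.mul_sum, ← Finset.sum_neg_distrib, Real.exp_sum]
    rw [← Finset.prod_subset (Finset.subset_univ K)]
    · refine Finset.prod_congr rfl fun k hk => ?_
      rw [if_pos hk]
    · intro k _ hk
      rw [if_neg hk]
  simp_rw [h1]
  unfold gst
  rw [integral_fintype_prod_eq_prod (𝕜 := ℝ) (μ := fun _ : ι => gaussianReal 0 1)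
    (fun k => if k ∈ K then (fun x : ℝ => Real.exp (-(s * x ^ 2))) else fun _ => 1)]
  have h2 : ∀ k : ι, ∫ x, (if k ∈ K then (fun x : ℝ => Real.exp (-(s * x ^ 2))) else fun _ => 1) x
      ∂(gaussianReal 0 1) = if k ∈ K then (1 + 2 * s) ^ (-(1 / 2) : ℝ) else 1 := by
    intro k
    by_cases hk : k ∈ K
    · simp only [if_pos hk]; exact gauss_exp_sq_real85 s hs
    · simp [if_neg hk]
  simp_rw [h2]
  rw [Finset.prod_ite_mem, Finset.univ_inter, Finset.prod_const, ← Real.rpow_natCast,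
    ← Real.rpow_mul (by linarith)]
  congr 1
  ring

private lemma chi_integrable85 {ι : Type*} [Fintype ι] (K : Finset ι) (s : ℝ) (hs : 0 ≤ s) :
    Integrable (fun g : ι → ℝ => Real.exp (-(s * ∑ k ∈ K, g k ^ 2))) (gst ι) := by
  refine (integrable_const (1 : ℝ)).mono' ?_ (Filter.Eventually.of_forall fun g => ?_)
  · exact Measurable.aestronglyMeasurable (by fun_prop)
  · rw [Real.norm_of_nonneg (Real.exp_pos _).le]
    apply Real.exp_le_one_iff.2
    have : 0 ≤ ∑ k ∈ K, g k ^ 2 := Finset.sum_nonneg fun k _ => sq_nonneg _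
    have := mul_nonneg hs this
    linarith

theorem gauss_exp_sq (s : ℝ) (hs : 0 ≤ s) :
    ∫⁻ x, ENNReal.ofReal (Real.exp (-(s * x ^ 2))) ∂(gaussianReal 0 1)
      = ENNReal.ofReal ((1 + 2 * s) ^ (-(1 / 2) : ℝ)) := by
  rw [← gauss_exp_sq_real85 s hs, ofReal_integral_eq_lintegral_ofReal]
  · refine (integrable_const (1 : ℝ)).mono' ?_ (Filter.Eventually.of_forall fun g => ?_)
    · exact Measurable.aestronglyMeasurable (by fun_prop)
    · rw [Real.norm_of_nonneg (Real.exp_pos _).le]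
      apply Real.exp_le_one_iff.2
      have := mul_nonneg hs (sq_nonneg g)
      linarith
  · exact Filter.Eventually.of_forall fun x => (Real.exp_pos _).le

theorem chi_laplace {ι : Type*} [Fintype ι] (K : Finset ι) (s : ℝ) (hs : 0 ≤ s) :
    ∫⁻ g, ENNReal.ofReal (Real.exp (-(s * ∑ k ∈ K, g k ^ 2))) ∂(gst ι)
      = ENNReal.ofReal ((1 + 2 * s) ^ (-((K.card : ℝ) / 2))) := by
  rw [← chi_laplace_real85 K s hs, ofReal_integral_eq_lintegral_ofReal (chi_integrable85 K s hs)]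
  exact Filter.Eventually.of_forall fun x => (Real.exp_pos _).le

theorem chi_low {ι : Type*} [Fintype ι] (K : Finset ι) :
    (gst ι).real {g | ∑ k ∈ K, g k ^ 2 < (K.card : ℝ) / 2} ≤ Real.exp (-(K.card : ℝ) / 11) := by
  set S : Set (ι → ℝ) := {g | ∑ k ∈ K, g k ^ 2 < (K.card : ℝ) / 2} with hS
  have hSm : MeasurableSet S := measurableSet_lt (by fun_prop) measurable_const
  have h1 : (gst ι).real S ≤ ∫ g, Real.exp ((K.card : ℝ) / 4)
      * Real.exp (-(1 / 2 * ∑ k ∈ K, g k ^ 2)) ∂(gst ι) := by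
    rw [← integral_indicator_one hSm]
    refine integral_mono ((integrable_const (1 : ℝ)).indicator hSm)
      ((chi_integrable85 K (1 / 2) (by norm_num)).const_mul _) fun g => ?_
    by_cases hg : g ∈ S
    · rw [Set.indicator_of_mem hg, Pi.one_apply]
      simp only
      rw [← Real.exp_add]
      apply Real.one_le_exp
      have : ∑ k ∈ K, g k ^ 2 < (K.card : ℝ) / 2 := hg
      linarith
    · rw [Set.indicator_of_notMem hg]
      simp only
      positivity
  refine h1.trans ?_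
  rw [integral_const_mul, chi_laplace_real85 K (1 / 2) (by norm_num)]
  have h2 : (1 + 2 * (1 / 2) : ℝ) = 2 := by norm_num
  rw [h2, Real.rpow_def_of_pos (by norm_num), ← Real.exp_add]
  apply Real.exp_le_exp.2
  have hl := Real.log_two_gt_d9
  have hK : (0 : ℝ) ≤ K.card := Nat.cast_nonneg _
  nlinarith

theorem gauss_tail (s : ℝ) (hs : 0 ≤ s) :
    (gaussianReal 0 1).real {x | s < |x|} ≤ 2 * Real.exp (-s ^ 2 / 2) := by
  have hsub : {x : ℝ | s < |x|} ⊆ {x | s ≤ id x} ∪ {x | id x ≤ -s} := by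
    intro x hx
    simp only [Set.mem_ofPred_eq, id_eq, Set.mem_union] at hx ⊢
    rcases lt_abs.1 hx with h | h
    · left; exact h.le
    · right; linarith
  have h1 : (gaussianReal 0 1).real {x | s ≤ id x} ≤ Real.exp (-s ^ 2 / 2) := by
    have h := measure_ge_le_exp_mul_mgf (μ := gaussianReal 0 1) (X := id) s hs
      (integrable_exp_mul_gaussianReal s)
    refine h.trans (le_of_eq ?_)
    rw [mgf_id_gaussianReal, ← Real.exp_add]
    congr 1
    simp
    ring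
  have h2 : (gaussianReal 0 1).real {x | id x ≤ -s} ≤ Real.exp (-s ^ 2 / 2) := by
    have h := measure_le_le_exp_mul_mgf (μ := gaussianReal 0 1) (X := id) (-s)
      (t := -s) (by linarith) (integrable_exp_mul_gaussianReal (-s))
    refine h.trans (le_of_eq ?_)
    rw [mgf_id_gaussianReal, ← Real.exp_add]
    congr 1
    simp
    ring
  calc (gaussianReal 0 1).real {x | s < |x|}
      ≤ (gaussianReal 0 1).real ({x | s ≤ id x} ∪ {x | id x ≤ -s}) := measureReal_mono hsub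
    _ ≤ (gaussianReal 0 1).real {x | s ≤ id x} + (gaussianReal 0 1).real {x | id x ≤ -s} :=
        measureReal_union_le _ _
    _ ≤ Real.exp (-s ^ 2 / 2) + Real.exp (-s ^ 2 / 2) := add_le_add h1 h2
    _ = 2 * Real.exp (-s ^ 2 / 2) := by ring

theorem gst_tail {ι : Type*} [Fintype ι] (k : ι) (s : ℝ) (hs : 0 ≤ s) :
    (gst ι).real {g | s < |g k|} ≤ 2 * Real.exp (-s ^ 2 / 2) := by
  have hm : MeasurableSet {x : ℝ | s < |x|} :=
    measurableSet_lt measurable_const (by fun_prop)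
  have h1 := (measurePreserving_eval (fun _ : ι => gaussianReal 0 1) k).measure_preimage
    hm.nullMeasurableSet
  have h2 : (gst ι).real {g | s < |g k|} = (gaussianReal 0 1).real {x | s < |x|} := by
    unfold Measure.real gst
    rw [← h1]
    rfl
  rw [h2]
  exact gauss_tail s hs

end Pool.Agent.ZR

end

section

/-!
# ZR/Sp4 : counting functions in terms of the sorted eigenvalues

Proof.  All statements rewrite `A.charpoly.roots` by `roots_eq` (Sp1):
`Multiset.countP_map`, `Multiset.card`, `Finset.card_filter`, `Multiset.map_map`, `Finset.sum`.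
`evs_le_iff`: the eigenvalues are increasing (`evs_le_evs`), so `{i : Fin N | evs A i ≤ x}` is an
initial segment of `Fin N`, of cardinality `cnt A x`; hence `i` belongs to it iff `i < cnt A x`.
Measurability: `cnt (f ω) x = ∑_{i : Fin N} if evs (f ω) i ≤ x then 1 else 0`, measurable because each
`ω ↦ evs (f ω) i` is (`measurable_evs`, Sp3); same for `cntI` and `arcS`.
`cnt_conj_eq` etc. are not needed here (they follow from `charpoly`).
-/


open MeasureTheory ProbabilityTheory Matrix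

namespace Pool.Agent.ZR

private theorem sp4_roots {N : ℕ} (A : Matrix (Fin N) (Fin N) ℝ) (hA : A.IsSymm) :
    A.charpoly.roots = (Finset.univ : Finset (Fin N)).val.map (fun i : Fin N => evs A (i : ℕ)) := by
  rw [roots_eq A hA]
  simp only [Multiset.bind_def, Multiset.pure_def, Multiset.bind_singleton, Multiset.map_map]
  rfl

theorem sum_roots {N : ℕ} (A : Matrix (Fin N) (Fin N) ℝ) (hA : A.IsSymm) {M : Type*}
    [AddCommMonoid M] (f : ℝ → M) : (A.charpoly.roots.map f).sum = ∑ i : Fin N, f (evs A i) := by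
  rw [sp4_roots A hA, Multiset.map_map]
  rfl

theorem cnt_eq {N : ℕ} (A : Matrix (Fin N) (Fin N) ℝ) (hA : A.IsSymm) (x : ℝ) :
    cnt A x = (Finset.univ.filter (fun i : Fin N => evs A i ≤ x)).card := by
  unfold cnt
  rw [sp4_roots A hA, Multiset.countP_map]
  rfl

theorem cntI_eq {N : ℕ} (A : Matrix (Fin N) (Fin N) ℝ) (hA : A.IsSymm) (x r : ℝ) :
    cntI A x r = (Finset.univ.filter (fun i : Fin N => |evs A i - x| ≤ r)).card := by
  unfold cntI
  rw [sp4_roots A hA, Multiset.countP_map]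
  rfl

theorem arcS_eq {N : ℕ} (A : Matrix (Fin N) (Fin N) ℝ) (hA : A.IsSymm) (x η : ℝ) :
    arcS A x η = ∑ i : Fin N, Real.arctan ((x - evs A i) / η) := by
  unfold arcS
  exact sum_roots A hA _

theorem evs_le_iff {N : ℕ} (A : Matrix (Fin N) (Fin N) ℝ) (hA : A.IsSymm) (x : ℝ) (i : ℕ)
    (hi : i < N) : evs A i ≤ x ↔ i < cnt A x := by
  rw [cnt_eq A hA]
  constructor
  · intro h
    have hsub : Finset.Iic (⟨i, hi⟩ : Fin N) ⊆
        Finset.univ.filter (fun j : Fin N => evs A j ≤ x) := by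
      intro j hj
      rw [Finset.mem_Iic] at hj
      rw [Finset.mem_filter]
      exact ⟨Finset.mem_univ _, (evs_le_evs A hA (Fin.le_def.1 hj) hi).trans h⟩
    have := Finset.card_le_card hsub
    rw [Fin.card_Iic] at this
    exact this
  · intro h
    by_contra hcon
    push Not at hcon
    have hsub : Finset.univ.filter (fun j : Fin N => evs A j ≤ x) ⊆
        Finset.Iio (⟨i, hi⟩ : Fin N) := by
      intro j hj
      rw [Finset.mem_filter] at hj
      rw [Finset.mem_Iio]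
      by_contra hlt
      rw [not_lt] at hlt
      have := evs_le_evs A hA (Fin.le_def.1 hlt) j.2
      have h2 := hj.2
      simp only at this
      linarith
    have := Finset.card_le_card hsub
    rw [Fin.card_Iio] at this
    simp only at this
    omega

theorem cnt_le {N : ℕ} (A : Matrix (Fin N) (Fin N) ℝ) (x : ℝ) : cnt A x ≤ N := by
  unfold cnt
  refine (Multiset.countP_le_card _ _).trans ?_
  refine (Polynomial.card_roots' _).trans ?_
  rw [Matrix.charpoly_natDegree_eq_dim, Fintype.card_fin]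

theorem cnt_mono {N : ℕ} (A : Matrix (Fin N) (Fin N) ℝ) {x y : ℝ} (h : x ≤ y) :
    cnt A x ≤ cnt A y := by
  unfold cnt
  rw [Multiset.countP_eq_card_filter, Multiset.countP_eq_card_filter]
  apply Multiset.card_le_card
  exact Multiset.monotone_filter_right _ (fun l hl => le_trans hl h)

theorem measurable_cnt {Ω : Type*} [MeasurableSpace Ω] {N : ℕ}
    (f : Ω → Matrix (Fin N) (Fin N) ℝ) (hf : ∀ k l, Measurable (fun ω => f ω k l))
    (hs : ∀ ω, (f ω).IsSymm) (x : ℝ) : Measurable (fun ω => cnt (f ω) x) := by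
  have e : (fun ω => cnt (f ω) x) = fun ω => ∑ i : Fin N, if evs (f ω) i ≤ x then 1 else 0 := by
    funext ω
    rw [cnt_eq _ (hs ω), Finset.card_filter]
  rw [e]
  apply Finset.measurable_fun_sum
  intro i _
  exact Measurable.ite (measurableSet_le (measurable_evs f hf hs i) measurable_const)
    measurable_const measurable_const

theorem measurable_cntI {Ω : Type*} [MeasurableSpace Ω] {N : ℕ}
    (f : Ω → Matrix (Fin N) (Fin N) ℝ) (hf : ∀ k l, Measurable (fun ω => f ω k l))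
    (hs : ∀ ω, (f ω).IsSymm) (x r : ℝ) : Measurable (fun ω => cntI (f ω) x r) := by
  have e : (fun ω => cntI (f ω) x r) =
      fun ω => ∑ i : Fin N, if |evs (f ω) i - x| ≤ r then 1 else 0 := by
    funext ω
    rw [cntI_eq _ (hs ω), Finset.card_filter]
  rw [e]
  apply Finset.measurable_fun_sum
  intro i _
  have h1 : Measurable (fun ω => |evs (f ω) i - x|) :=
    continuous_abs.measurable.comp ((measurable_evs f hf hs i).sub measurable_const)
  exact Measurable.ite (measurableSet_le h1 measurable_const)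
    measurable_const measurable_const

theorem measurable_arcS {Ω : Type*} [MeasurableSpace Ω] {N : ℕ}
    (f : Ω → Matrix (Fin N) (Fin N) ℝ) (hf : ∀ k l, Measurable (fun ω => f ω k l))
    (hs : ∀ ω, (f ω).IsSymm) (x η : ℝ) : Measurable (fun ω => arcS (f ω) x η) := by
  have e : (fun ω => arcS (f ω) x η) =
      fun ω => ∑ i : Fin N, Real.arctan ((x - evs (f ω) i) / η) := by
    funext ω
    rw [arcS_eq _ (hs ω)]
  rw [e]
  apply Finset.measurable_fun_sum
  intro i _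
  exact Real.continuous_arctan.measurable.comp
    ((measurable_const.sub (measurable_evs f hf hs i)).div_const η)

end Pool.Agent.ZR

end

section

/-!
# ZR/F2 : pointwise bounds for the sums of part F

`b1`: Cauchy-Schwarz.  `b2`: `∑_j (M³)_xj G_jy = (M³ G)_xy`, `‖M³‖ ≤ (Λ√n)³`, the column `G e_y` has norm
`≤ √n τ`; so the modulus is `≤ Λ³ n^{3/2} √n τ = Λ³ n² τ`.
`b3`: `∑_j M_xj (M³)_jx h_j`: Cauchy-Schwarz: `(∑_j M_xj²)^{1/2} = √n`-bound is not enough; use
`≤ γ (∑_j M_xj²)^{1/2} (∑_j (M³)_jx²)^{1/2} ≤ γ (Λ√n) (Λ√n)³ = γ Λ⁴ n²`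
(`∑_j M_xj² = ‖M e_x‖² ≤ Λ² n`, `‖M³ e_x‖ ≤ (Λ√n)³`).
`lhsF`: `sum_s8` with `g j = G j y` gives the all-tuple sum `n² ∑ M_xj G_jy + (M³G)_xy`;
`sum_coinc` with `w j = 8‖G j y‖` (`s8_abs`): `≤ 8 n² Γ + 40 n · nτ`.
`rhsF`: expand by `xi_entry` (`u = j`, `v = y`):
`(GξG)_jy = G_jx G_jy + G_jj G_xy - G_jj G_ky - G_jk G_jy + G_jk G_ly + G_jl G_ky - G_jl G_xy - G_jx G_ly`.
The second term is the main one: `sum_alt8` with `g j = G_jj G_xy`: all tuples give
`n² ∑_j G_jj G_xy + (∑_j M_xj(M³)_jx G_jj) G_xy = n³ m G_xy + O(Λ⁴ n² Γ · Γ)` and the coincidences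
(`w j = 8 Γ²`) cost `48 n² Γ²`.  All other terms by absolute values, `|alt8| ≤ 8`, dropping the
condition `Dst`: 
`∑_{jkl}|G_jx G_jy| ≤ n² · nτ²`, `∑|G_jj G_ky| ≤ Γ n² · nτ`, `∑|G_jk G_jy| ≤ n (∑_j|G_jy| · nτ) ≤ n³τ²`,
`∑|G_jk G_ly| ≤ n³τ²`, `∑|G_jl G_ky| ≤ n³τ²`, `∑|G_jl G_xy| ≤ n · n·nτ · Γ`, `∑|G_jx G_ly| ≤ n³τ²`;
total `8n³(5τ² + 2Γτ)`.
-/


open MeasureTheory ProbabilityTheory Matrix

namespace Pool.Agent.ZR.F

/-- hypotheses on a sign matrix -/
structure HypM {n : ℕ} (M : Matrix (Fin n) (Fin n) ℝ) (Λ : ℝ) : Prop where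
  sym : Mᵀ = M
  row : ∀ i, ∑ j, M i j = 0
  one : ∀ i j, M i j ^ 2 = 1
  op : OpLe (toC M) (Λ * Real.sqrt n)
  lam : 1 ≤ Λ

/-- hypotheses on a resolvent -/
structure HypG {n : ℕ} (G : Matrix (Fin n) (Fin n) ℂ) (Γ τ : ℝ) : Prop where
  sym : Gᵀ = G
  en : EnLe G Γ
  rw : ∀ y, ∑ j, ‖G j y‖ ^ 2 ≤ n * τ ^ 2
  gam : 1 ≤ Γ
  tau : 0 ≤ τ

variable {n : ℕ} {M : Matrix (Fin n) (Fin n) ℝ} {G : Matrix (Fin n) (Fin n) ℂ} {Λ Γ τ : ℝ}

theorem b1 (hG : HypG G Γ τ) (y : Fin n) : ∑ j, ‖G j y‖ ≤ n * τ := by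
  have h1 : (∑ j, ‖G j y‖) ^ 2 ≤ (n * τ) ^ 2 := by
    have h := sq_sum_le_card_mul_sum_sq (s := Finset.univ) (f := fun j => ‖G j y‖)
    simp only [Finset.card_univ, Fintype.card_fin] at h
    calc _ ≤ (n : ℝ) * ∑ j, ‖G j y‖ ^ 2 := h
      _ ≤ n * (n * τ ^ 2) := mul_le_mul_of_nonneg_left (hG.rw y) (Nat.cast_nonneg n)
      _ = (n * τ) ^ 2 := by ring
  have h2 : (0 : ℝ) ≤ n * τ := mul_nonneg (Nat.cast_nonneg n) hG.tau
  exact le_trans (le_abs_self _) (abs_le_of_sq_le_sq h1 h2)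

private theorem toC_mul' {n : ℕ} (A B : Matrix (Fin n) (Fin n) ℝ) :
    toC (A * B) = toC A * toC B := by
  ext i j
  simp only [toC, Matrix.map_apply, Matrix.mul_apply]
  push_cast
  rfl

private theorem op3' (hM : HypM M Λ) (u : Fin n → ℂ) :
    ∑ i, ‖(toC (M ^ 3) *ᵥ u) i‖ ^ 2 ≤ Λ ^ 6 * (n : ℝ) ^ 3 * ∑ i, ‖u i‖ ^ 2 := by
  have e : toC (M ^ 3) *ᵥ u = toC M *ᵥ (toC M *ᵥ (toC M *ᵥ u)) := by
    rw [Matrix.mulVec_mulVec, Matrix.mulVec_mulVec, ← toC_mul', ← toC_mul']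
    congr 2
    rw [pow_succ, pow_succ, pow_one]
  rw [e]
  have hL : (Λ * Real.sqrt n) ^ 2 = Λ ^ 2 * n := by
    rw [mul_pow, Real.sq_sqrt (Nat.cast_nonneg n)]
  have h1 := hM.op.2 u
  have h2 := hM.op.2 (toC M *ᵥ u)
  have h3 := hM.op.2 (toC M *ᵥ (toC M *ᵥ u))
  rw [hL] at h1 h2 h3
  have h0 : 0 ≤ Λ ^ 2 * (n : ℝ) := mul_nonneg (sq_nonneg _) (Nat.cast_nonneg n)
  calc _ ≤ Λ ^ 2 * n * ∑ i, ‖(toC M *ᵥ (toC M *ᵥ u)) i‖ ^ 2 := h3
    _ ≤ Λ ^ 2 * n * (Λ ^ 2 * n * ∑ i, ‖(toC M *ᵥ u) i‖ ^ 2) := mul_le_mul_of_nonneg_left h2 h0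
    _ ≤ Λ ^ 2 * n * (Λ ^ 2 * n * (Λ ^ 2 * n * ∑ i, ‖u i‖ ^ 2)) :=
        mul_le_mul_of_nonneg_left (mul_le_mul_of_nonneg_left h1 h0) h0
    _ = _ := by ring

theorem b2 (hM : HypM M Λ) (hG : HypG G Γ τ) (x y : Fin n) :
    ‖∑ j, (((M ^ 3) x j : ℝ) : ℂ) * G j y‖ ≤ Λ ^ 3 * (n : ℝ) ^ 2 * τ := by
  have hΛ : 0 ≤ Λ := le_trans zero_le_one hM.lam
  have h1 := op3' hM (fun j => G j y)
  have h2 : ‖∑ j, (((M ^ 3) x j : ℝ) : ℂ) * G j y‖ ^ 2 ≤ (Λ ^ 3 * (n : ℝ) ^ 2 * τ) ^ 2 := by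
    have e : ∑ j, (((M ^ 3) x j : ℝ) : ℂ) * G j y = (toC (M ^ 3) *ᵥ (fun j => G j y)) x := rfl
    rw [e]
    calc _ ≤ ∑ i, ‖(toC (M ^ 3) *ᵥ (fun j => G j y)) i‖ ^ 2 :=
          Finset.single_le_sum (f := fun i => ‖(toC (M ^ 3) *ᵥ (fun j => G j y)) i‖ ^ 2)
            (fun i _ => sq_nonneg _) (Finset.mem_univ x)
      _ ≤ Λ ^ 6 * (n : ℝ) ^ 3 * ∑ i, ‖G i y‖ ^ 2 := h1
      _ ≤ Λ ^ 6 * (n : ℝ) ^ 3 * (n * τ ^ 2) :=
          mul_le_mul_of_nonneg_left (hG.rw y) (by positivity)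
      _ = _ := by ring
  have h3 : 0 ≤ Λ ^ 3 * (n : ℝ) ^ 2 * τ := mul_nonneg (by positivity) hG.tau
  exact le_trans (le_abs_self _) (abs_le_of_sq_le_sq h2 h3)

theorem b3 (hM : HypM M Λ) (h : Fin n → ℂ) (γ : ℝ) (hh : ∀ j, ‖h j‖ ≤ γ) (x : Fin n) :
    ‖∑ j, ((M x j * (M ^ 3) j x : ℝ) : ℂ) * h j‖ ≤ Λ ^ 4 * (n : ℝ) ^ 2 * γ := by
  have hΛ : 0 ≤ Λ := le_trans zero_le_one hM.lam
  have hγ : 0 ≤ γ := le_trans (norm_nonneg _) (hh x)
  have h1 := op3' hM (Pi.single x 1)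
  have e1 : ∑ i, ‖(Pi.single x (1 : ℂ) : Fin n → ℂ) i‖ ^ 2 = 1 := by
    rw [Finset.sum_eq_single x]
    · simp
    · intro b _ hb
      simp [hb]
    · intro h
      exact absurd (Finset.mem_univ x) h
  have e2 : ∀ i, ‖(toC (M ^ 3) *ᵥ Pi.single x (1 : ℂ)) i‖ = |(M ^ 3) i x| := by
    intro i
    rw [Matrix.mulVec_single_one]
    simp [toC]
  rw [e1, mul_one] at h1
  simp only [e2] at h1
  have h2 : (∑ i, |(M ^ 3) i x|) ^ 2 ≤ (Λ ^ 3 * (n : ℝ) ^ 2) ^ 2 := by
    have h := sq_sum_le_card_mul_sum_sq (s := Finset.univ) (f := fun j => |(M ^ 3) j x|)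
    simp only [Finset.card_univ, Fintype.card_fin] at h
    calc _ ≤ (n : ℝ) * ∑ j, |(M ^ 3) j x| ^ 2 := h
      _ ≤ n * (Λ ^ 6 * (n : ℝ) ^ 3) := mul_le_mul_of_nonneg_left h1 (Nat.cast_nonneg n)
      _ = _ := by ring
  have h3 : ∑ i, |(M ^ 3) i x| ≤ Λ ^ 3 * (n : ℝ) ^ 2 :=
    le_trans (le_abs_self _) (abs_le_of_sq_le_sq h2 (by positivity))
  have h4 : ∀ j, ‖((M x j * (M ^ 3) j x : ℝ) : ℂ) * h j‖ ≤ |(M ^ 3) j x| * γ := by
    intro j
    rw [norm_mul, Complex.norm_real, Real.norm_eq_abs, abs_mul]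
    have h5 : |M x j| = 1 := by
      have := hM.one x j
      rw [← sq_abs] at this
      nlinarith [abs_nonneg (M x j)]
    rw [h5, one_mul]
    exact mul_le_mul_of_nonneg_left (hh j) (abs_nonneg _)
  calc _ ≤ ∑ j, ‖((M x j * (M ^ 3) j x : ℝ) : ℂ) * h j‖ := norm_sum_le _ _
    _ ≤ ∑ j, |(M ^ 3) j x| * γ := Finset.sum_le_sum fun j _ => h4 j
    _ = (∑ j, |(M ^ 3) j x|) * γ := by rw [Finset.sum_mul]
    _ ≤ (Λ ^ 3 * (n : ℝ) ^ 2) * γ := mul_le_mul_of_nonneg_right h3 hγ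
    _ ≤ Λ ^ 4 * (n : ℝ) ^ 2 * γ := by
        have h6 : Λ ^ 3 ≤ Λ ^ 4 := pow_le_pow_right₀ hM.lam (by norm_num)
        exact mul_le_mul_of_nonneg_right (mul_le_mul_of_nonneg_right h6 (by positivity)) hγ

private theorem trip_norm {n : ℕ} (F : Fin n → Fin n → Fin n → ℂ) (w : Fin n → Fin n → Fin n → ℝ)
    (h : ∀ j k l, ‖F j k l‖ ≤ w j k l) :
    ‖∑ j, ∑ k, ∑ l, F j k l‖ ≤ ∑ j, ∑ k, ∑ l, w j k l := by
  refine le_trans (norm_sum_le _ _) (Finset.sum_le_sum fun j _ => ?_)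
  refine le_trans (norm_sum_le _ _) (Finset.sum_le_sum fun k _ => ?_)
  exact le_trans (norm_sum_le _ _) (Finset.sum_le_sum fun l _ => h j k l)

theorem lhsF (hM : HypM M Λ) (hG : HypG G Γ τ) (x y : Fin n) :
    ‖∑ j, ∑ k, ∑ l, (if Dst x j k l then
        (s8 (M x j) (M j k) (M k l) (M l x) : ℂ) * G j y else 0)
      - (n : ℂ) ^ 2 * ∑ j, (M x j : ℂ) * G j y‖
      ≤ (n : ℝ) ^ 2 * (Λ ^ 3 * τ + 8 * Γ + 40 * τ) := by
  have hn0 : (0 : ℝ) ≤ n := Nat.cast_nonneg n
  have hc := sum_coinc x (fun j k l => (s8 (M x j) (M j k) (M k l) (M l x) : ℂ) * G j y)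
    (fun j => 8 * ‖G j y‖) (by
      intro j k l
      rw [norm_mul, Complex.norm_real, Real.norm_eq_abs]
      exact mul_le_mul_of_nonneg_right
        (s8_abs (hM.one _ _) (hM.one _ _) (hM.one _ _) (hM.one _ _)).1 (norm_nonneg _))
  have hs := sum_s8 M hM.sym hM.row x (fun j => G j y)
  rw [hs, ← Finset.mul_sum] at hc
  have h2 := b2 hM hG x y
  have h1 := b1 hG y
  have h3 := hG.en x y
  set T := ∑ j, ∑ k, ∑ l, (if Dst x j k l then
        (s8 (M x j) (M j k) (M k l) (M l x) : ℂ) * G j y else 0) with hT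
  set A := (n : ℂ) ^ 2 * ∑ j, (M x j : ℂ) * G j y with hA
  set B := ∑ j, (((M ^ 3) x j : ℝ) : ℂ) * G j y with hB
  have e : T - A = B - (A + B - T) := by ring
  rw [e]
  calc _ ≤ ‖B‖ + ‖A + B - T‖ := norm_sub_le _ _
    _ ≤ Λ ^ 3 * (n : ℝ) ^ 2 * τ + ((n : ℝ) ^ 2 * (8 * ‖G x y‖) + 5 * n * (8 * ∑ j, ‖G j y‖)) :=
        add_le_add h2 hc
    _ ≤ Λ ^ 3 * (n : ℝ) ^ 2 * τ + ((n : ℝ) ^ 2 * (8 * Γ) + 5 * n * (8 * (n * τ))) := by
        gcongr
    _ = _ := by ring

private theorem realSum {n : ℕ} (a b : Fin n → ℝ) (c : Fin n → Fin n → ℝ) (Γ τ : ℝ)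
    (ha0 : ∀ j, 0 ≤ a j) (hb0 : ∀ j, 0 ≤ b j) (hc0 : ∀ j k, 0 ≤ c j k) (hΓ : 0 ≤ Γ) (hτ : 0 ≤ τ)
    (hab : ∑ j, a j * b j ≤ n * τ ^ 2) (ha : ∑ j, a j ≤ n * τ) (hb : ∑ j, b j ≤ n * τ)
    (hc : ∀ j, ∑ k, c j k ≤ n * τ) :
    ∑ j, ∑ k, ∑ l, (a j * b j + Γ * b k + c j k * b j + c j k * b l + c j l * b k + c j l * Γ
      + a j * b l) ≤ (n : ℝ) ^ 3 * (5 * τ ^ 2 + 2 * Γ * τ) := by
  have hn0 : (0 : ℝ) ≤ n := Nat.cast_nonneg n
  have hnt : (0 : ℝ) ≤ n * τ := mul_nonneg hn0 hτ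
  have hb1 : 0 ≤ ∑ j, b j := Finset.sum_nonneg fun j _ => hb0 j
  have ha1 : 0 ≤ ∑ j, a j := Finset.sum_nonneg fun j _ => ha0 j
  have hcc : ∑ j, ∑ k, c j k ≤ n * (n * τ) := by
    calc _ ≤ ∑ j : Fin n, (n * τ : ℝ) := Finset.sum_le_sum fun j _ => hc j
      _ = _ := by simp
  have hcc0 : 0 ≤ ∑ j, ∑ k, c j k :=
    Finset.sum_nonneg fun j _ => Finset.sum_nonneg fun k _ => hc0 j k
  have t1 : ∑ j, ∑ _k : Fin n, ∑ _l : Fin n, a j * b j ≤ (n : ℝ) ^ 3 * τ ^ 2 := by
    have e : ∑ j, ∑ _k : Fin n, ∑ _l : Fin n, a j * b j = (n : ℝ) ^ 2 * ∑ j, a j * b j := by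
      simp only [Finset.sum_const, Finset.card_univ, Fintype.card_fin, nsmul_eq_mul, Finset.mul_sum]
      exact Finset.sum_congr rfl fun j _ => by ring
    rw [e]
    calc _ ≤ (n : ℝ) ^ 2 * (n * τ ^ 2) := mul_le_mul_of_nonneg_left hab (by positivity)
      _ = _ := by ring
  have t2 : ∑ _j : Fin n, ∑ k, ∑ _l : Fin n, Γ * b k ≤ (n : ℝ) ^ 3 * (Γ * τ) := by
    have e : ∑ _j : Fin n, ∑ k, ∑ _l : Fin n, Γ * b k = (n : ℝ) ^ 2 * Γ * ∑ j, b j := by
      simp only [Finset.sum_const, Finset.card_univ, Fintype.card_fin, nsmul_eq_mul, Finset.mul_sum]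
      exact Finset.sum_congr rfl fun j _ => by ring
    rw [e]
    calc _ ≤ (n : ℝ) ^ 2 * Γ * (n * τ) := mul_le_mul_of_nonneg_left hb (by positivity)
      _ = _ := by ring
  have t3 : ∑ j, ∑ k, ∑ _l : Fin n, c j k * b j ≤ (n : ℝ) ^ 3 * τ ^ 2 := by
    calc _ = ∑ j, (n * (∑ k, c j k) * b j) := by
          refine Finset.sum_congr rfl fun j _ => ?_
          simp only [Finset.sum_const, Finset.card_univ, Fintype.card_fin, nsmul_eq_mul]
          rw [Finset.mul_sum, Finset.sum_mul]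
          exact Finset.sum_congr rfl fun k _ => by ring
      _ ≤ ∑ j, (n * (n * τ) * b j) := Finset.sum_le_sum fun j _ =>
          mul_le_mul_of_nonneg_right (mul_le_mul_of_nonneg_left (hc j) hn0) (hb0 j)
      _ = n * (n * τ) * ∑ j, b j := by rw [Finset.mul_sum]
      _ ≤ n * (n * τ) * (n * τ) := mul_le_mul_of_nonneg_left hb (by positivity)
      _ = _ := by ring
  have t4 : ∑ j, ∑ k, ∑ l, c j k * b l ≤ (n : ℝ) ^ 3 * τ ^ 2 := by
    calc _ = (∑ j, ∑ k, c j k) * ∑ l, b l := by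
          rw [Finset.sum_mul]
          refine Finset.sum_congr rfl fun j _ => ?_
          rw [Finset.sum_mul]
          exact Finset.sum_congr rfl fun k _ => (Finset.mul_sum _ _ _).symm
      _ ≤ (n * (n * τ)) * (n * τ) := mul_le_mul hcc hb hb1 (by positivity)
      _ = _ := by ring
  have t5 : ∑ j, ∑ k, ∑ l, c j l * b k ≤ (n : ℝ) ^ 3 * τ ^ 2 := by
    calc _ = ∑ j, ∑ l, ∑ k, c j l * b k := by
          exact Finset.sum_congr rfl fun j _ => Finset.sum_comm
      _ ≤ _ := t4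
  have t6 : ∑ j, ∑ _k : Fin n, ∑ l, c j l * Γ ≤ (n : ℝ) ^ 3 * (Γ * τ) := by
    have e : ∑ j, ∑ _k : Fin n, ∑ l, c j l * Γ = (n : ℝ) * (∑ j, ∑ k, c j k) * Γ := by
      simp only [Finset.sum_const, Finset.card_univ, Fintype.card_fin, nsmul_eq_mul]
      rw [← Finset.mul_sum, mul_assoc, Finset.sum_mul]
      congr 1
      exact Finset.sum_congr rfl fun j _ => by rw [Finset.sum_mul]
    rw [e]
    calc _ ≤ (n : ℝ) * (n * (n * τ)) * Γ :=
          mul_le_mul_of_nonneg_right (mul_le_mul_of_nonneg_left hcc hn0) hΓ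
      _ = _ := by ring
  have t7 : ∑ j, ∑ _k : Fin n, ∑ l, a j * b l ≤ (n : ℝ) ^ 3 * τ ^ 2 := by
    have e : ∑ j, ∑ _k : Fin n, ∑ l, a j * b l = (n : ℝ) * ((∑ j, a j) * ∑ l, b l) := by
      simp only [Finset.sum_const, Finset.card_univ, Fintype.card_fin, nsmul_eq_mul]
      rw [← Finset.mul_sum, Finset.sum_mul]
      congr 1
      exact Finset.sum_congr rfl fun j _ => by rw [Finset.mul_sum]
    rw [e]
    calc _ ≤ (n : ℝ) * ((n * τ) * (n * τ)) :=
          mul_le_mul_of_nonneg_left (mul_le_mul ha hb hb1 hnt) hn0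
      _ = _ := by ring
  simp only [Finset.sum_add_distrib]
  calc _ ≤ (n : ℝ) ^ 3 * τ ^ 2 + (n : ℝ) ^ 3 * (Γ * τ) + (n : ℝ) ^ 3 * τ ^ 2 + (n : ℝ) ^ 3 * τ ^ 2
        + (n : ℝ) ^ 3 * τ ^ 2 + (n : ℝ) ^ 3 * (Γ * τ) + (n : ℝ) ^ 3 * τ ^ 2 := by
        gcongr
    _ = _ := by ring

theorem rhsF (hn : 0 < n) (hM : HypM M Λ) (hG : HypG G Γ τ) (x y : Fin n) :
    ‖∑ j, ∑ k, ∑ l, (if Dst x j k l then
        (alt8 (M x j) (M j k) (M k l) (M l x) : ℂ) * (G * toC (Xi x j k l) * G) j y else 0)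
      - (n : ℂ) ^ 3 * ((1 / (n : ℂ)) * G.trace * G x y)‖
      ≤ (n : ℝ) ^ 3 * (40 * τ ^ 2 + 16 * Γ * τ + 49 * Λ ^ 4 * Γ ^ 2 / n) := by
  have hΛ : 0 ≤ Λ := le_trans zero_le_one hM.lam
  have hn0 : (0 : ℝ) ≤ n := Nat.cast_nonneg n
  have hnR : (0 : ℝ) < n := Nat.cast_pos.2 hn
  have hnC : (n : ℂ) ≠ 0 := Nat.cast_ne_zero.2 hn.ne'
  have hΓ0 : 0 ≤ Γ := le_trans zero_le_one hG.gam
  have hsym : ∀ i j, G i j = G j i := fun i j => by
    have := congrFun (congrFun hG.sym j) i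
    rw [Matrix.transpose_apply] at this
    exact this
  have ha8 : ∀ j k l, ‖(alt8 (M x j) (M j k) (M k l) (M l x) : ℂ)‖ ≤ 8 := by
    intro j k l
    rw [Complex.norm_real, Real.norm_eq_abs]
    exact (s8_abs (hM.one _ _) (hM.one _ _) (hM.one _ _) (hM.one _ _)).2
  -- the main term
  have hc := sum_coinc x
    (fun j k l => (alt8 (M x j) (M j k) (M k l) (M l x) : ℂ) * (G j j * G x y))
    (fun _ => 8 * Γ ^ 2) (by
      intro j k l
      rw [norm_mul, norm_mul, sq]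
      exact mul_le_mul (ha8 j k l) (mul_le_mul (hG.en _ _) (hG.en _ _) (norm_nonneg _) hΓ0)
        (by positivity) (by norm_num))
  have hs := sum_alt8 M hM.sym hM.row x (fun j => G j j * G x y)
  have h3 := b3 hM (fun j => G j j * G x y) (Γ ^ 2) (by
      intro j
      rw [norm_mul, sq]
      exact mul_le_mul (hG.en _ _) (hG.en _ _) (norm_nonneg _) hΓ0) x
  rw [hs] at hc
  have hmain : (n : ℂ) ^ 2 * ∑ j, G j j * G x y = (n : ℂ) ^ 3 * ((1 / (n : ℂ)) * G.trace * G x y) := by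
    rw [← Finset.sum_mul]
    have : ∑ j, G j j = G.trace := rfl
    rw [this]
    field_simp
  -- the remainder
  set R : Fin n → Fin n → Fin n → ℂ := fun j k l =>
    G j x * G j y - G j j * G k y - G j k * G j y + G j k * G l y + G j l * G k y - G j l * G x y
      - G j x * G l y with hR
  have hRn : ∀ j k l, ‖R j k l‖ ≤ ‖G j x‖ * ‖G j y‖ + Γ * ‖G k y‖ + ‖G j k‖ * ‖G j y‖
      + ‖G j k‖ * ‖G l y‖ + ‖G j l‖ * ‖G k y‖ + ‖G j l‖ * Γ + ‖G j x‖ * ‖G l y‖ := by
    intro j k l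
    have e1 : ‖G j j * G k y‖ ≤ Γ * ‖G k y‖ := by
      rw [norm_mul]; exact mul_le_mul_of_nonneg_right (hG.en _ _) (norm_nonneg _)
    have e2 : ‖G j l * G x y‖ ≤ ‖G j l‖ * Γ := by
      rw [norm_mul]; exact mul_le_mul_of_nonneg_left (hG.en _ _) (norm_nonneg _)
    have f1 := norm_mul (G j x) (G j y)
    have f2 := norm_mul (G j k) (G j y)
    have f3 := norm_mul (G j k) (G l y)
    have f4 := norm_mul (G j l) (G k y)
    have f5 := norm_mul (G j x) (G l y)
    have g1 := norm_sub_le (G j x * G j y) (G j j * G k y)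
    have g2 := norm_sub_le (G j x * G j y - G j j * G k y) (G j k * G j y)
    have g3 := norm_add_le (G j x * G j y - G j j * G k y - G j k * G j y) (G j k * G l y)
    have g4 := norm_add_le (G j x * G j y - G j j * G k y - G j k * G j y + G j k * G l y)
      (G j l * G k y)
    have g5 := norm_sub_le (G j x * G j y - G j j * G k y - G j k * G j y + G j k * G l y
      + G j l * G k y) (G j l * G x y)
    have g6 := norm_sub_le (G j x * G j y - G j j * G k y - G j k * G j y + G j k * G l y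
      + G j l * G k y - G j l * G x y) (G j x * G l y)
    simp only [hR]
    linarith
  have hRs : ‖∑ j, ∑ k, ∑ l, (if Dst x j k l then
        (alt8 (M x j) (M j k) (M k l) (M l x) : ℂ) * R j k l else 0)‖
      ≤ 8 * ((n : ℝ) ^ 3 * (5 * τ ^ 2 + 2 * Γ * τ)) := by
    have hw0 : ∀ j k l, 0 ≤ ‖G j x‖ * ‖G j y‖ + Γ * ‖G k y‖ + ‖G j k‖ * ‖G j y‖
      + ‖G j k‖ * ‖G l y‖ + ‖G j l‖ * ‖G k y‖ + ‖G j l‖ * Γ + ‖G j x‖ * ‖G l y‖ := fun j k l =>
      le_trans (norm_nonneg _) (hRn j k l)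
    refine le_trans (trip_norm _ (fun j k l => 8 * (‖G j x‖ * ‖G j y‖ + Γ * ‖G k y‖
      + ‖G j k‖ * ‖G j y‖ + ‖G j k‖ * ‖G l y‖ + ‖G j l‖ * ‖G k y‖ + ‖G j l‖ * Γ
      + ‖G j x‖ * ‖G l y‖)) ?_) ?_
    · intro j k l
      split_ifs with h
      · rw [norm_mul]
        exact mul_le_mul (ha8 j k l) (hRn j k l) (norm_nonneg _) (by norm_num)
      · rw [norm_zero]
        exact mul_nonneg (by norm_num) (hw0 j k l)
    · simp only [← Finset.mul_sum]
      refine mul_le_mul_of_nonneg_left ?_ (by norm_num)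
      refine realSum (fun j => ‖G j x‖) (fun j => ‖G j y‖) (fun j k => ‖G j k‖) Γ τ
        (fun _ => norm_nonneg _) (fun _ => norm_nonneg _) (fun _ _ => norm_nonneg _) hΓ0 hG.tau
        ?_ (b1 hG x) (b1 hG y) ?_
      · have h5 := hG.rw x
        have h6 := hG.rw y
        calc _ ≤ ∑ j, (‖G j x‖ ^ 2 + ‖G j y‖ ^ 2) / 2 := Finset.sum_le_sum fun j _ => by
              nlinarith [sq_nonneg (‖G j x‖ - ‖G j y‖)]
          _ = (∑ j, ‖G j x‖ ^ 2 + ∑ j, ‖G j y‖ ^ 2) / 2 := by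
              rw [← Finset.sum_div, Finset.sum_add_distrib]
          _ ≤ _ := by linarith
      · intro j
        calc _ = ∑ k, ‖G k j‖ := Finset.sum_congr rfl fun k _ => by rw [hsym j k]
          _ ≤ _ := b1 hG j
  have hsplit : ∑ j, ∑ k, ∑ l, (if Dst x j k l then
        (alt8 (M x j) (M j k) (M k l) (M l x) : ℂ) * (G * toC (Xi x j k l) * G) j y else 0)
      = ∑ j, ∑ k, ∑ l, (if Dst x j k l then
        (alt8 (M x j) (M j k) (M k l) (M l x) : ℂ) * (G j j * G x y) else 0)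
        + ∑ j, ∑ k, ∑ l, (if Dst x j k l then
        (alt8 (M x j) (M j k) (M k l) (M l x) : ℂ) * R j k l else 0) := by
    rw [← Finset.sum_add_distrib]
    refine Finset.sum_congr rfl fun j _ => ?_
    rw [← Finset.sum_add_distrib]
    refine Finset.sum_congr rfl fun k _ => ?_
    rw [← Finset.sum_add_distrib]
    refine Finset.sum_congr rfl fun l _ => ?_
    split_ifs with h
    · rw [xi_entry]
      simp only [hR]
      ring
    · rw [add_zero]
  rw [hsplit]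
  rw [hmain] at hc
  set T := ∑ j, ∑ k, ∑ l, (if Dst x j k l then
        (alt8 (M x j) (M j k) (M k l) (M l x) : ℂ) * (G j j * G x y) else 0) with hT
  set U := ∑ j, ∑ k, ∑ l, (if Dst x j k l then
        (alt8 (M x j) (M j k) (M k l) (M l x) : ℂ) * R j k l else 0) with hU
  set A := (n : ℂ) ^ 3 * ((1 / (n : ℂ)) * G.trace * G x y) with hA
  set B := ∑ j, ((M x j * (M ^ 3) j x : ℝ) : ℂ) * (G j j * G x y) with hB
  have e : T + U - A = U + B - (A + B - T) := by ring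
  rw [e]
  have hL4 : 1 ≤ Λ ^ 4 := one_le_pow₀ hM.lam
  calc _ ≤ ‖U‖ + ‖B‖ + ‖A + B - T‖ :=
        le_trans (norm_sub_le _ _) (add_le_add (norm_add_le _ _) le_rfl)
    _ ≤ 8 * ((n : ℝ) ^ 3 * (5 * τ ^ 2 + 2 * Γ * τ)) + Λ ^ 4 * (n : ℝ) ^ 2 * Γ ^ 2
          + ((n : ℝ) ^ 2 * (8 * Γ ^ 2) + 5 * n * ∑ _j : Fin n, 8 * Γ ^ 2) :=
        add_le_add (add_le_add hRs h3) hc
    _ = 8 * ((n : ℝ) ^ 3 * (5 * τ ^ 2 + 2 * Γ * τ)) + (Λ ^ 4 + 48) * ((n : ℝ) ^ 2 * Γ ^ 2) := by
        rw [Finset.sum_const, Finset.card_univ, Fintype.card_fin, nsmul_eq_mul]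
        ring
    _ ≤ 8 * ((n : ℝ) ^ 3 * (5 * τ ^ 2 + 2 * Γ * τ)) + (49 * Λ ^ 4) * ((n : ℝ) ^ 2 * Γ ^ 2) := by
        have : Λ ^ 4 + 48 ≤ 49 * Λ ^ 4 := by linarith
        have h0 : 0 ≤ (n : ℝ) ^ 2 * Γ ^ 2 := by positivity
        linarith [mul_le_mul_of_nonneg_right this h0]
    _ = _ := by
        field_simp
        ring

end Pool.Agent.ZR.F

end

section

/-!
# ZR/JChi2 : negative moments of chi-square variables

`chi_inv`.  `p = 0`: the integrand is `1`, `C = 1`.  Let `p ≥ 1`, `S(g) = ∑_{k∈K} g_k²`,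
`m = |K| ≥ 2p+1`.  For `S > 0`: `∫_{s>0} s^{p-1} e^{-sS} ds = Γ(p) S^{-p} ≥ ` ..., i.e.
`S^{-p} = Γ(p)^{-1} ∫_{s>0} s^{p-1} e^{-sS} ds` (`Real.integral_rpow_mul_exp_neg_mul_Ioi`), and for
`S = 0` both sides are `∞` in `ℝ≥0∞` (or: `{S = 0}` has measure `0` since `K` is non empty).
By Tonelli and `chi_laplace`
`E S^{-p} = Γ(p)^{-1} ∫_{s>0} s^{p-1} (1+2s)^{-m/2} ds ≤ Γ(p)^{-1} ∫_{s>0} (1+2s)^{p-1-p-1/2} ds
= Γ(p)^{-1} ∫_{s>0} (1+2s)^{-3/2} ds = Γ(p)^{-1}`, because `s ≤ 1+2s` and `m/2 ≥ p + 1/2`.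
-/


open MeasureTheory ProbabilityTheory Matrix

namespace Pool.Agent.ZR

private lemma chi_inv_pt27 (p : ℕ) (hp : 1 ≤ p) (S : ℝ) (hS : 0 ≤ S) :
    ((ENNReal.ofReal S)⁻¹) ^ p ≤ ENNReal.ofReal ((Real.Gamma p)⁻¹) *
      ∫⁻ s in Set.Ioi (0 : ℝ), ENNReal.ofReal (s ^ (p - 1)) *
        ENNReal.ofReal (Real.exp (-(s * S))) := by
  have hpR : (0 : ℝ) < p := by exact_mod_cast hp
  have hG : 0 < Real.Gamma p := Real.Gamma_pos_of_pos hpR
  rcases hS.lt_or_eq with hS | hS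
  · have h1 := Real.integral_rpow_mul_exp_neg_mul_Ioi hpR hS
    have h2 : ∀ s : ℝ, s ^ ((p : ℝ) - 1) = s ^ (p - 1) := by
      intro s
      rw [← Real.rpow_natCast, Nat.cast_sub hp, Nat.cast_one]
    have h3 : ∫ s in Set.Ioi (0 : ℝ), s ^ (p - 1) * Real.exp (-(s * S))
        = (1 / S) ^ p * Real.Gamma p := by
      rw [← Real.rpow_natCast (1 / S) p, ← h1]
      refine integral_congr_ae (Filter.Eventually.of_forall fun s => ?_)
      simp only [h2, mul_comm]
    have hne : ∫ s in Set.Ioi (0 : ℝ), s ^ (p - 1) * Real.exp (-(s * S)) ≠ 0 := by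
      rw [h3]; positivity
    have hint : Integrable (fun s : ℝ => s ^ (p - 1) * Real.exp (-(s * S)))
        (volume.restrict (Set.Ioi (0 : ℝ))) := by
      by_contra h
      exact hne (integral_undef h)
    have h4 : ∫⁻ s in Set.Ioi (0 : ℝ), ENNReal.ofReal (s ^ (p - 1)) *
        ENNReal.ofReal (Real.exp (-(s * S))) = ENNReal.ofReal ((1 / S) ^ p * Real.Gamma p) := by
      rw [← h3, ofReal_integral_eq_lintegral_ofReal hint]
      · refine setLIntegral_congr_fun measurableSet_Ioi fun s hs => ?_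
        have hs0 : (0 : ℝ) < s := hs
        rw [ENNReal.ofReal_mul (by positivity)]
      · filter_upwards [ae_restrict_mem measurableSet_Ioi] with s hs
        have hs0 : (0 : ℝ) < s := hs
        simp only [Pi.zero_apply]
        positivity
    rw [h4, ← ENNReal.ofReal_mul (by positivity), ← ENNReal.ofReal_inv_of_pos hS,
      ← ENNReal.ofReal_pow (by positivity)]
    apply le_of_eq
    congr 1
    rw [one_div]
    field_simp
  · have h5 : ∫⁻ s in Set.Ioi (0 : ℝ), ENNReal.ofReal (s ^ (p - 1)) *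
        ENNReal.ofReal (Real.exp (-(s * S))) = ⊤ := by
      rw [eq_top_iff]
      calc (⊤ : ENNReal) = ∫⁻ s in Set.Ioi (1 : ℝ), 1 := by
            rw [setLIntegral_const, one_mul, Real.volume_Ioi]
        _ ≤ ∫⁻ s in Set.Ioi (1 : ℝ), ENNReal.ofReal (s ^ (p - 1)) *
            ENNReal.ofReal (Real.exp (-(s * S))) := by
            refine setLIntegral_mono' measurableSet_Ioi fun s hs => ?_
            have hs1 : (1 : ℝ) ≤ s := le_of_lt hs
            rw [← hS, mul_zero, neg_zero, Real.exp_zero, ENNReal.ofReal_one, mul_one]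
            rw [ENNReal.one_le_ofReal]
            exact one_le_pow₀ hs1
        _ ≤ _ := lintegral_mono_set (Set.Ioi_subset_Ioi zero_le_one)
    rw [h5, ENNReal.mul_top]
    · exact le_top
    · rw [Ne, ENNReal.ofReal_eq_zero, not_le]
      positivity

theorem chi_inv (p : ℕ) : ∃ C : ℝ, 0 ≤ C ∧ ∀ (N : ℕ) (K : Finset (Fin N)), 2 * p + 1 ≤ K.card →
    ∫⁻ g, ((ENNReal.ofReal (∑ k ∈ K, g k ^ 2))⁻¹) ^ p ∂(gst (Fin N)) ≤ ENNReal.ofReal C := by
  rcases Nat.eq_zero_or_pos p with hp | hp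
  · subst hp
    refine ⟨1, zero_le_one, fun N K _ => ?_⟩
    simp
  · have hpR : (0 : ℝ) < p := by exact_mod_cast hp
    have hG : 0 < Real.Gamma p := Real.Gamma_pos_of_pos hpR
    have hI : Integrable (fun s : ℝ => (1 + ‖s‖) ^ (-(3 / 2 : ℝ))) volume :=
      integrable_one_add_norm (by simp; norm_num)
    have hfin : ∫⁻ s : ℝ, ENNReal.ofReal ((1 + ‖s‖) ^ (-(3 / 2 : ℝ))) ≠ ⊤ :=
      hI.lintegral_lt_top.ne
    refine ⟨(Real.Gamma p)⁻¹ * (∫⁻ s : ℝ, ENNReal.ofReal ((1 + ‖s‖) ^ (-(3 / 2 : ℝ)))).toReal,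
      by positivity, fun N K hK => ?_⟩
    rw [ENNReal.ofReal_mul (by positivity), ENNReal.ofReal_toReal hfin]
    have hSnn : ∀ g : Fin N → ℝ, 0 ≤ ∑ k ∈ K, g k ^ 2 :=
      fun g => Finset.sum_nonneg fun k _ => sq_nonneg _
    calc ∫⁻ g, ((ENNReal.ofReal (∑ k ∈ K, g k ^ 2))⁻¹) ^ p ∂(gst (Fin N))
        ≤ ∫⁻ g, (ENNReal.ofReal ((Real.Gamma p)⁻¹) *
            ∫⁻ s in Set.Ioi (0 : ℝ), ENNReal.ofReal (s ^ (p - 1)) *
              ENNReal.ofReal (Real.exp (-(s * ∑ k ∈ K, g k ^ 2)))) ∂(gst (Fin N)) :=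
          lintegral_mono fun g => chi_inv_pt27 p hp _ (hSnn g)
      _ = ENNReal.ofReal ((Real.Gamma p)⁻¹) * ∫⁻ g,
            (∫⁻ s in Set.Ioi (0 : ℝ), ENNReal.ofReal (s ^ (p - 1)) *
              ENNReal.ofReal (Real.exp (-(s * ∑ k ∈ K, g k ^ 2)))) ∂(gst (Fin N)) := by
          rw [lintegral_const_mul' _ _ ENNReal.ofReal_ne_top]
      _ = ENNReal.ofReal ((Real.Gamma p)⁻¹) * ∫⁻ s in Set.Ioi (0 : ℝ), ∫⁻ g,
            ENNReal.ofReal (s ^ (p - 1)) *
              ENNReal.ofReal (Real.exp (-(s * ∑ k ∈ K, g k ^ 2))) ∂(gst (Fin N)) := by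
          rw [lintegral_lintegral_swap]
          apply Measurable.aemeasurable
          unfold Function.uncurry
          fun_prop
      _ ≤ ENNReal.ofReal ((Real.Gamma p)⁻¹) * ∫⁻ s in Set.Ioi (0 : ℝ),
            ENNReal.ofReal ((1 + ‖s‖) ^ (-(3 / 2 : ℝ))) := by
          refine mul_le_mul_right ?_ _
          refine setLIntegral_mono' measurableSet_Ioi fun s hs => ?_
          have hs0 : (0 : ℝ) < s := hs
          rw [lintegral_const_mul' _ _ ENNReal.ofReal_ne_top, chi_laplace K s hs0.le,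
            ← ENNReal.ofReal_mul (by positivity)]
          apply ENNReal.ofReal_le_ofReal
          rw [Real.norm_of_nonneg hs0.le]
          have hKR : (2 * (p : ℝ) + 1) ≤ (K.card : ℝ) := by exact_mod_cast hK
          have e1 : s ^ (p - 1) ≤ (1 + s) ^ ((p : ℝ) - 1) := by
            have hc : ((p : ℝ) - 1) = ((p - 1 : ℕ) : ℝ) := by
              rw [Nat.cast_sub (show 1 ≤ p from hp), Nat.cast_one]
            rw [hc, Real.rpow_natCast]
            exact pow_le_pow_left₀ hs0.le (by linarith) _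
          have e2 : (1 + 2 * s) ^ (-((K.card : ℝ) / 2)) ≤ (1 + s) ^ (-((K.card : ℝ) / 2)) :=
            Real.rpow_le_rpow_of_nonpos (by linarith) (by linarith) (by
              have : (0 : ℝ) ≤ K.card := Nat.cast_nonneg _
              linarith)
          have e3 : (1 + s) ^ (-((K.card : ℝ) / 2)) ≤ (1 + s) ^ (-((p : ℝ) + 1 / 2)) :=
            Real.rpow_le_rpow_of_exponent_le (by linarith) (by linarith)
          calc s ^ (p - 1) * (1 + 2 * s) ^ (-((K.card : ℝ) / 2))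
              ≤ (1 + s) ^ ((p : ℝ) - 1) * (1 + s) ^ (-((p : ℝ) + 1 / 2)) :=
                mul_le_mul e1 (e2.trans e3) (by positivity) (by positivity)
            _ = (1 + s) ^ (-(3 / 2 : ℝ)) := by
                rw [← Real.rpow_add (by linarith)]
                congr 1
                ring
      _ ≤ _ := by
          gcongr
          exact Measure.restrict_le_self

end Pool.Agent.ZR

end

section

/-!
# ZR/JInter : Cauchy interlacing for a principal minor

Let `A` be symmetric of size `N + 1`, `M = mino i A`, `k < N`.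

Proof by dimension count (as in the proof of `weyl`, Sp3).  Let `A = U diag(evs A) Uᵀ`,
`M = V diag(evs M) Vᵀ` (`spec_dec`), columns `u_l`, `v_l`; for `x ∈ ℝ^N` let `ι x ∈ ℝ^(N+1)` be the
vector with `(ι x)_i = 0`, `(ι x)_{succAbove j} = x_j`; then `(ι x)·A(ι x) = x·M x`, `|ι x| = |x|`.
* `evs A k ≤ evs M k`: the span of `ι v_0, ..., ι v_k` has dimension `k + 1`, the span of
  `u_k, ..., u_N` has dimension `N + 1 - k`; the sum of the dimensions is `N + 2 > N + 1`, so there is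
  a common non zero vector `y = ι x`: `evs A k |y|² ≤ y·A y = x·M x ≤ evs M k |x|²`.
* `evs M k ≤ evs A (k + 1)`: the span of `ι v_k, ..., ι v_{N-1}` has dimension `N - k`, the span of
  `u_0, ..., u_{k+1}` has dimension `k + 2`; again the sum is `N + 2`.

Alternative proof from `weyl` (Sp3): for `c > 0` large let `B_c` be the matrix `A` with row and
column `i` replaced by zeros and the diagonal entry `c`.  `x·(A - B_c)x ≤ δ |x|²` with
`δ = |r|²/(c - A_ii)`, `r = rowv i A` (the matrix `[[c - A_ii + δ, -r], [-r, δ]]` is positive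
semidefinite), so `evs A k ≤ evs B_c k + δ`; for `c` larger than all eigenvalues of `M` the sorted
roots of `B_c` are those of `M` followed by `c`, so `evs B_c k = evs M k`; let `c → ∞`.  The other
inequality with `c → -∞`.
-/


open MeasureTheory ProbabilityTheory Matrix

namespace Pool.Agent.ZR

private lemma ji_dot {m n : ℕ} {U : Matrix (Fin m) (Fin n) ℝ} (hU : Uᵀ * U = 1)
    (x z : Fin n → ℝ) : (U *ᵥ x) ⬝ᵥ (U *ᵥ z) = x ⬝ᵥ z := by
  rw [dotProduct_mulVec, ← mulVec_transpose, mulVec_mulVec, hU, one_mulVec]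

private lemma ji_quad {N : ℕ} {U : Matrix (Fin N) (Fin N) ℝ} (hU : Uᵀ * U = 1)
    (d x : Fin N → ℝ) :
    (U *ᵥ x) ⬝ᵥ ((U * Matrix.diagonal d * Uᵀ) *ᵥ (U *ᵥ x)) = ∑ k, d k * x k ^ 2 := by
  have h1 : (U * Matrix.diagonal d * Uᵀ) *ᵥ (U *ᵥ x) = U *ᵥ (Matrix.diagonal d *ᵥ x) := by
    rw [mulVec_mulVec, mulVec_mulVec, Matrix.mul_assoc (U * Matrix.diagonal d), hU,
      Matrix.mul_one]
  rw [h1, ji_dot hU]
  unfold dotProduct
  refine Finset.sum_congr rfl fun k _ => ?_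
  rw [mulVec_diagonal]
  ring

/-- the inclusion of the coordinates different from `i` -/
private def jiJ {N : ℕ} (i : Fin (N + 1)) : Matrix (Fin (N + 1)) (Fin N) ℝ :=
  Matrix.of fun j l => if j = i.succAbove l then 1 else 0

private lemma jiJ_orth {N : ℕ} (i : Fin (N + 1)) : (jiJ i)ᵀ * jiJ i = 1 := by
  ext a b
  simp only [jiJ, Matrix.mul_apply, Matrix.transpose_apply, Matrix.of_apply, Matrix.one_apply]
  rw [Finset.sum_eq_single (i.succAbove a)]
  · simp
  · intro b _ hb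
    simp [hb]
  · intro h
    exact absurd (Finset.mem_univ _) h

private lemma jiJ_mino {N : ℕ} (i : Fin (N + 1)) (A : Matrix (Fin (N + 1)) (Fin (N + 1)) ℝ) :
    (jiJ i)ᵀ * A * jiJ i = mino i A := by
  ext a b
  simp only [jiJ, mino, Matrix.mul_apply, Matrix.transpose_apply, Matrix.of_apply,
    Matrix.submatrix_apply]
  rw [Finset.sum_eq_single (i.succAbove b)]
  · rw [Finset.sum_eq_single (i.succAbove a)]
    · simp
    · intro b _ hb
      simp [hb]
    · intro h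
      exact absurd (Finset.mem_univ _) h
  · intro b _ hb
    simp [hb]
  · intro h
    exact absurd (Finset.mem_univ _) h

private lemma ji_ker {N : ℕ} (k : ℕ) (hk : k < N)
    (L : (Fin N → ℝ) →ₗ[ℝ] ({l : Fin N // l ≠ ⟨k, hk⟩} → ℝ)) : ∃ y, L y = 0 ∧ y ≠ 0 := by
  have hcard : Fintype.card {l : Fin N // l ≠ ⟨k, hk⟩} = N - 1 := by
    rw [Fintype.card_subtype_compl, Fintype.card_subtype_eq, Fintype.card_fin]
  have hker : LinearMap.ker L ≠ ⊥ := by
    apply LinearMap.ker_ne_bot_of_finrank_lt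
    rw [Module.finrank_fintype_fun_eq_card, Module.finrank_fintype_fun_eq_card, hcard,
      Fintype.card_fin]
    omega
  obtain ⟨y, hy, hy0⟩ := (Submodule.ne_bot_iff _).1 hker
  exact ⟨y, LinearMap.mem_ker.1 hy, hy0⟩

private lemma ji_pos {N : ℕ} (y : Fin N → ℝ) (hy : y ≠ 0) : 0 < y ⬝ᵥ y := by
  rcases lt_or_eq_of_le (Finset.sum_nonneg fun k (_ : k ∈ Finset.univ) =>
    mul_self_nonneg (y k) : 0 ≤ y ⬝ᵥ y) with h1 | h1
  · exact h1
  · exact absurd (dotProduct_self_eq_zero.1 h1.symm) hy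

private lemma ji_lower {N : ℕ} (d z : Fin N → ℝ) (c : ℝ)
    (h : ∀ l, z l = 0 ∨ c ≤ d l) : c * (z ⬝ᵥ z) ≤ ∑ l, d l * z l ^ 2 := by
  unfold dotProduct
  rw [Finset.mul_sum]
  refine Finset.sum_le_sum fun l _ => ?_
  rcases h l with h1 | h1
  · rw [h1]; simp
  · nlinarith [mul_nonneg (sub_nonneg.2 h1) (sq_nonneg (z l))]

private lemma ji_upper {N : ℕ} (d z : Fin N → ℝ) (c : ℝ)
    (h : ∀ l, z l = 0 ∨ d l ≤ c) : ∑ l, d l * z l ^ 2 ≤ c * (z ⬝ᵥ z) := by
  unfold dotProduct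
  rw [Finset.mul_sum]
  refine Finset.sum_le_sum fun l _ => ?_
  rcases h l with h1 | h1
  · rw [h1]; simp
  · nlinarith [mul_nonneg (sub_nonneg.2 h1) (sq_nonneg (z l))]

theorem interlace {N : ℕ} (i : Fin (N + 1)) (A : Matrix (Fin (N + 1)) (Fin (N + 1)) ℝ)
    (hA : A.IsSymm) (k : ℕ) (hk : k < N) :
    evs A k ≤ evs (mino i A) k ∧ evs (mino i A) k ≤ evs A (k + 1) := by
  have hM : (mino i A).IsSymm := mino_symm i A hA
  obtain ⟨U, hU1, hU2, hAU⟩ := spec_dec A hA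
  obtain ⟨V, hV1, hV2, hMV⟩ := spec_dec (mino i A) hM
  -- the two expressions of the quadratic form
  have key : ∀ y : Fin N → ℝ, ∀ z : Fin (N + 1) → ℝ, z = Uᵀ *ᵥ (jiJ i *ᵥ (V *ᵥ y)) →
      z ⬝ᵥ z = y ⬝ᵥ y ∧ ∑ l : Fin (N + 1), evs A l * z l ^ 2
        = ∑ l : Fin N, evs (mino i A) l * y l ^ 2 := by
    intro y z hz
    have hw : U *ᵥ z = jiJ i *ᵥ (V *ᵥ y) := by
      rw [hz, mulVec_mulVec, hU1, one_mulVec]
    constructor
    · rw [← ji_dot hU2 z z, hw, ji_dot (jiJ_orth i), ji_dot hV2]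
    · have h1 := ji_quad hU2 (fun l : Fin (N + 1) => evs A l) z
      have h2 := ji_quad hV2 (fun l : Fin N => evs (mino i A) l) y
      rw [← hAU] at h1
      rw [← hMV] at h2
      rw [← h1, ← h2, hw, ← jiJ_mino i A, ← mulVec_mulVec, ← mulVec_mulVec,
        dotProduct_mulVec (V *ᵥ y), vecMul_transpose]
  constructor
  · let L : (Fin N → ℝ) →ₗ[ℝ] ({l : Fin N // l ≠ ⟨k, hk⟩} → ℝ) :=
      { toFun := fun y l => if k < (l : Fin N).1 then y l
          else (Uᵀ *ᵥ (jiJ i *ᵥ (V *ᵥ y))) (l : Fin N).castSucc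
        map_add' := fun x y => by
          funext l
          by_cases hl : k < (l : Fin N).1
          · simp [hl]
          · simp only [hl, if_false, Pi.add_apply, mulVec_add]
        map_smul' := fun a x => by
          funext l
          by_cases hl : k < (l : Fin N).1
          · simp [hl]
          · simp only [hl, if_false, Pi.smul_apply, mulVec_smul, RingHom.id_apply] }
    obtain ⟨y, hy, hy0⟩ := ji_ker k hk L
    obtain ⟨h1, h2⟩ := key y _ rfl
    have h3 : evs A k * (y ⬝ᵥ y) ≤ evs (mino i A) k * (y ⬝ᵥ y) := by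
      rw [← h1]
      refine le_trans (ji_lower (fun l : Fin (N + 1) => evs A l) _ _ fun l => ?_) ?_
      · by_cases hl : l.1 < k
        · left
          have hne : (⟨l.1, by omega⟩ : Fin N) ≠ ⟨k, hk⟩ := fun h => by
            have := Fin.mk.inj_iff.1 h
            omega
          have := congrFun hy ⟨⟨l.1, by omega⟩, hne⟩
          simpa [L, hl.le, hl.not_gt] using this
        · right
          exact evs_le_evs A hA (not_lt.1 hl) l.2
      · rw [h2, h1]
        refine ji_upper (fun l : Fin N => evs (mino i A) l) _ _ fun l => ?_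
        by_cases hl : k < l.1
        · left
          have hne : l ≠ ⟨k, hk⟩ := fun h => by
            rw [h] at hl
            exact lt_irrefl _ hl
          have := congrFun hy ⟨l, hne⟩
          simpa [L, hl] using this
        · right
          exact evs_le_evs _ hM (not_lt.1 hl) hk
    exact le_of_mul_le_mul_right h3 (ji_pos y hy0)
  · let L : (Fin N → ℝ) →ₗ[ℝ] ({l : Fin N // l ≠ ⟨k, hk⟩} → ℝ) :=
      { toFun := fun y l => if (l : Fin N).1 < k then y l
          else (Uᵀ *ᵥ (jiJ i *ᵥ (V *ᵥ y))) (l : Fin N).succ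
        map_add' := fun x y => by
          funext l
          by_cases hl : (l : Fin N).1 < k
          · simp [hl]
          · simp only [hl, if_false, Pi.add_apply, mulVec_add]
        map_smul' := fun a x => by
          funext l
          by_cases hl : (l : Fin N).1 < k
          · simp [hl]
          · simp only [hl, if_false, Pi.smul_apply, mulVec_smul, RingHom.id_apply] }
    obtain ⟨y, hy, hy0⟩ := ji_ker k hk L
    obtain ⟨h1, h2⟩ := key y _ rfl
    have h3 : evs (mino i A) k * (y ⬝ᵥ y) ≤ evs A (k + 1) * (y ⬝ᵥ y) := by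
      refine le_trans (ji_lower (fun l : Fin N => evs (mino i A) l) _ _ fun l => ?_) ?_
      · by_cases hl : l.1 < k
        · left
          have hne : l ≠ ⟨k, hk⟩ := fun h => by
            rw [h] at hl
            exact lt_irrefl _ hl
          have := congrFun hy ⟨l, hne⟩
          simpa [L, hl] using this
        · right
          exact evs_le_evs _ hM (not_lt.1 hl) l.2
      · rw [← h2, ← h1]
        refine ji_upper (fun l : Fin (N + 1) => evs A l) _ _ fun l => ?_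
        by_cases hl : k + 1 < l.1
        · left
          have hne : (⟨l.1 - 1, by omega⟩ : Fin N) ≠ ⟨k, hk⟩ := fun h => by
            have := Fin.mk.inj_iff.1 h
            omega
          have := congrFun hy ⟨⟨l.1 - 1, by omega⟩, hne⟩
          have h4 : ¬ (l.1 - 1 < k) := by omega
          have h5 : (Fin.succ (⟨l.1 - 1, by omega⟩ : Fin N)) = l := by
            ext
            simp
            omega
          simp only [L, LinearMap.coe_mk, AddHom.coe_mk, h4, if_false, Pi.zero_apply] at this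
          rw [h5] at this
          exact this
        · right
          exact evs_le_evs A hA (not_lt.1 hl) (by omega)
    exact le_of_mul_le_mul_right h3 (ji_pos y hy0)

end Pool.Agent.ZR

end

section

/-!
# ZR/JMeas : measurability of resolvent entries

`Rz M z = (toC M - z)⁻¹ = Ring.inverse (det) • adjugate` (`Matrix.inv_def`, `Ring.inverse_eq_inv'`);
the determinant and the entries of the adjugate are polynomials of the entries, hence measurable
(`Matrix.det_apply`: finite sum of finite products; `Matrix.adjugate_apply`: determinant of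
`updateRow`), and `x ↦ x⁻¹` is measurable.  The others are finite sums/products of these.
Product measurability of `(M, r) ↦ qf M r z` is contained in the general form with `f`, `g`.
-/


open MeasureTheory ProbabilityTheory Matrix

namespace Pool.Agent.ZR

private theorem measurable_det_aux {Ω : Type*} [MeasurableSpace Ω] {N : ℕ}
    (f : Ω → Matrix (Fin N) (Fin N) ℂ) (hf : ∀ k l, Measurable (fun ω => f ω k l)) :
    Measurable (fun ω => (f ω).det) := by
  simp only [Matrix.det_apply]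
  refine Finset.measurable_fun_sum _ (fun σ _ => ?_)
  refine Measurable.const_smul ?_ _
  exact Finset.measurable_fun_prod _ (fun i _ => hf _ _)

private theorem measurable_adj_aux {Ω : Type*} [MeasurableSpace Ω] {N : ℕ}
    (f : Ω → Matrix (Fin N) (Fin N) ℂ) (hf : ∀ k l, Measurable (fun ω => f ω k l))
    (k l : Fin N) :
    Measurable (fun ω => (f ω).adjugate k l) := by
  simp only [Matrix.adjugate_apply]
  refine measurable_det_aux _ (fun i j => ?_)
  by_cases hi : i = l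
  · subst hi
    simp only [Matrix.updateRow_self]
    exact measurable_const
  · simp only [Matrix.updateRow_ne hi]
    exact hf i j

private theorem measurable_inv_aux {Ω : Type*} [MeasurableSpace Ω] {N : ℕ}
    (f : Ω → Matrix (Fin N) (Fin N) ℂ) (hf : ∀ k l, Measurable (fun ω => f ω k l))
    (k l : Fin N) :
    Measurable (fun ω => (f ω)⁻¹ k l) := by
  have h : ∀ ω, (f ω)⁻¹ k l = ((f ω).det)⁻¹ * (f ω).adjugate k l := by
    intro ω
    rw [Matrix.inv_def, Ring.inverse_eq_inv', Matrix.smul_apply, smul_eq_mul]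
  simp only [h]
  exact (measurable_det_aux f hf).inv.mul (measurable_adj_aux f hf k l)

theorem measurable_Rz {Ω : Type*} [MeasurableSpace Ω] {N : ℕ}
    (f : Ω → Matrix (Fin N) (Fin N) ℝ) (hf : ∀ k l, Measurable (fun ω => f ω k l)) (z : ℂ)
    (k l : Fin N) : Measurable (fun ω => Rz (f ω) z k l) := by
  unfold Rz
  refine measurable_inv_aux _ (fun i j => ?_) k l
  simp only [Matrix.sub_apply]
  refine Measurable.sub ?_ measurable_const
  have := Complex.measurable_ofReal.comp (hf i j)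
  simpa [Matrix.map_apply, Function.comp_def] using this

theorem measurable_trRz {Ω : Type*} [MeasurableSpace Ω] {N : ℕ}
    (f : Ω → Matrix (Fin N) (Fin N) ℝ) (hf : ∀ k l, Measurable (fun ω => f ω k l)) (z : ℂ) :
    Measurable (fun ω => (Rz (f ω) z).trace) := by
  simp only [Matrix.trace, Matrix.diag_apply]
  exact Finset.measurable_fun_sum _ (fun i _ => measurable_Rz f hf z i i)

theorem measurable_qf {Ω : Type*} [MeasurableSpace Ω] {N : ℕ}
    (f : Ω → Matrix (Fin N) (Fin N) ℝ) (hf : ∀ k l, Measurable (fun ω => f ω k l))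
    (g : Ω → Fin N → ℝ) (hg : ∀ k, Measurable (fun ω => g ω k)) (z : ℂ) :
    Measurable (fun ω => qf (f ω) (g ω) z) := by
  unfold qf
  refine Finset.measurable_fun_sum _ (fun j _ => Finset.measurable_fun_sum _ (fun k _ => ?_))
  refine Measurable.mul (Measurable.mul ?_ (measurable_Rz f hf z j k)) ?_
  · exact Complex.measurable_ofReal.comp (hg j)
  · exact Complex.measurable_ofReal.comp (hg k)

theorem measurable_subX {N : ℕ} (i : Fin (N + 1)) : Measurable (subX (N := N) i) := by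
  refine measurable_pi_lambda _ (fun p => ?_)
  exact measurable_pi_apply (i.succAbove p.1, i.succAbove p.2)

theorem measurable_rowX {N : ℕ} (i : Fin (N + 1)) : Measurable (rowX (N := N) i) := by
  refine measurable_pi_lambda _ (fun j => ?_)
  exact ((measurable_pi_apply (i, i.succAbove j)).add
    (measurable_pi_apply (i.succAbove j, i))).div_const _

end Pool.Agent.ZR

end

section

/-!
# ZR/JQf : the quadratic forms `qf`, `qf2` in an eigenbasis

`M` symmetric, `spec_dec` (Sp1): `M = U diag(evs M) Uᵀ`, `U` orthogonal.  Put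
`c_k = ∑_j U j k * r j`.  `toC M - z = toC U diag(evs M k - z) toC Uᵀ`, so for `z.im ≠ 0`
`Rz M z = toC U diag(1/(evs M k - z)) toC Uᵀ` (check that the product is `1`), hence
`qf_spec`: `qf M r z = ∑_k c_k²/(evs M k - z)`, `qf2_spec` with the square of the denominator.
The statements below are formulated with an existential `U` (orthogonal, `U` depends only on `M`).

* `qf_im_nonneg`, `qf2_le`: `Im 1/(l - z) = z.im/|l - z|²`, so `Im qf = z.im ∑ c_k²/|l_k - z|²` and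
  `|qf2| ≤ ∑ c_k²/|l_k - z|² = Im qf/z.im`.
* `wd_im`: `Im w = -(z.im + Im q)`.  `one_add_qf2_le`: `|1 + qf2| ≤ 1 + Im q/z.im`.
* `rz_diag_le`: from `Rz A z i i = 1/w` (`schur_diag`, JSchur) `Im (Rz A z i i) ≤ 1/|Im w|`
   - this one is in JCnt.
* `tr_spec`: `(Rz M z).trace = ∑_k 1/(evs M k - z)`, `(Rz M z i i) = ∑_k U i k ^2/(evs M k - z)`.
-/


open MeasureTheory ProbabilityTheory Matrix

namespace Pool.Agent.ZR

private lemma toC_mul94 {N : ℕ} (A B : Matrix (Fin N) (Fin N) ℝ) : toC (A * B) = toC A * toC B := by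
  unfold toC
  ext i j
  simp [Matrix.mul_apply, Matrix.map_apply]

private lemma toC_one94 {N : ℕ} : toC (1 : Matrix (Fin N) (Fin N) ℝ) = 1 := by
  unfold toC
  ext i j
  by_cases h : i = j
  · subst h; simp
  · simp [Matrix.one_apply, h]

private lemma toC_diag94 {N : ℕ} (d : Fin N → ℝ) :
    toC (Matrix.diagonal d) = Matrix.diagonal (fun i => (d i : ℂ)) := by
  unfold toC
  ext i j
  by_cases h : i = j
  · subst h; simp
  · simp [Matrix.diagonal_apply, h]

private lemma toC_tr94 {N : ℕ} (A : Matrix (Fin N) (Fin N) ℝ) : toC Aᵀ = (toC A)ᵀ := by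
  unfold toC
  ext i j
  simp

private lemma sub_ne94 (x : ℝ) (z : ℂ) (hz : z.im ≠ 0) : (x : ℂ) - z ≠ 0 := by
  intro h
  apply hz
  have := congrArg Complex.im h
  simp at this
  exact this

private lemma rz_spec94 {N : ℕ} (M U : Matrix (Fin N) (Fin N) ℝ) (l : Fin N → ℝ)
    (h1 : U * Uᵀ = 1) (h2 : Uᵀ * U = 1) (h3 : M = U * Matrix.diagonal l * Uᵀ)
    (z : ℂ) (hz : z.im ≠ 0) :
    Rz M z = toC U * Matrix.diagonal (fun k => 1 / ((l k : ℂ) - z)) * (toC U)ᵀ := by
  have e1 : toC U * (toC U)ᵀ = 1 := by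
    rw [← toC_tr94, ← toC_mul94, h1, toC_one94]
  have e2 : (toC U)ᵀ * toC U = 1 := by
    rw [← toC_tr94, ← toC_mul94, h2, toC_one94]
  have e3 : toC M - z • (1 : Matrix (Fin N) (Fin N) ℂ)
      = toC U * Matrix.diagonal (fun k => (l k : ℂ) - z) * (toC U)ᵀ := by
    have : Matrix.diagonal (fun k => (l k : ℂ) - z)
        = Matrix.diagonal (fun k => (l k : ℂ)) - z • (1 : Matrix (Fin N) (Fin N) ℂ) := by
      ext i j
      by_cases h : i = j
      · subst h; simp
      · simp [Matrix.diagonal_apply, Matrix.one_apply, h]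
    rw [this, Matrix.mul_sub, Matrix.sub_mul, Matrix.mul_smul, Matrix.smul_mul, Matrix.mul_one, e1,
      h3, toC_mul94, toC_mul94, toC_diag94, toC_tr94]
  unfold Rz
  change (toC M - z • (1 : Matrix (Fin N) (Fin N) ℂ))⁻¹ = _
  apply Matrix.inv_eq_right_inv
  rw [e3]
  have e4 : Matrix.diagonal (fun k => (l k : ℂ) - z) * Matrix.diagonal (fun k => 1 / ((l k : ℂ) - z))
      = (1 : Matrix (Fin N) (Fin N) ℂ) := by
    rw [Matrix.diagonal_mul_diagonal, ← Matrix.diagonal_one]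
    congr 1
    funext k
    exact mul_one_div_cancel (sub_ne94 (l k) z hz)
  calc toC U * Matrix.diagonal (fun k => (l k : ℂ) - z) * (toC U)ᵀ *
        (toC U * Matrix.diagonal (fun k => 1 / ((l k : ℂ) - z)) * (toC U)ᵀ)
      = toC U * Matrix.diagonal (fun k => (l k : ℂ) - z) * ((toC U)ᵀ * toC U) *
          Matrix.diagonal (fun k => 1 / ((l k : ℂ) - z)) * (toC U)ᵀ := by
        simp only [Matrix.mul_assoc]
    _ = toC U * (Matrix.diagonal (fun k => (l k : ℂ) - z) *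
          Matrix.diagonal (fun k => 1 / ((l k : ℂ) - z))) * (toC U)ᵀ := by
        rw [e2]
        simp only [Matrix.mul_assoc, Matrix.one_mul, Matrix.mul_one]
    _ = 1 := by rw [e4, Matrix.mul_one, e1]

private lemma entry94 {N : ℕ} (U : Matrix (Fin N) (Fin N) ℝ) (w : Fin N → ℂ) (i j : Fin N) :
    (toC U * Matrix.diagonal w * (toC U)ᵀ) i j = ∑ k, (U i k : ℂ) * w k * (U j k : ℂ) := by
  rw [Matrix.mul_apply]
  refine Finset.sum_congr rfl fun k _ => ?_
  rw [Matrix.mul_diagonal]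
  simp [toC]

private lemma quad94 {N : ℕ} (U : Matrix (Fin N) (Fin N) ℝ) (w : Fin N → ℂ) (r : Fin N → ℝ) :
    ∑ i, ∑ j, (r i : ℂ) * (toC U * Matrix.diagonal w * (toC U)ᵀ) i j * (r j : ℂ)
      = ∑ k, (((∑ j, U j k * r j) ^ 2 : ℝ) : ℂ) * w k := by
  have h1 : ∀ i j, (r i : ℂ) * (toC U * Matrix.diagonal w * (toC U)ᵀ) i j * (r j : ℂ)
      = ∑ k, ((U i k : ℂ) * (r i : ℂ)) * ((U j k : ℂ) * (r j : ℂ)) * w k := by
    intro i j
    rw [entry94, Finset.mul_sum, Finset.sum_mul]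
    refine Finset.sum_congr rfl fun k _ => ?_
    ring
  simp only [h1]
  have h2 : ∀ i, ∑ j, ∑ k, ((U i k : ℂ) * (r i : ℂ)) * ((U j k : ℂ) * (r j : ℂ)) * w k
      = ∑ k, ∑ j, ((U i k : ℂ) * (r i : ℂ)) * ((U j k : ℂ) * (r j : ℂ)) * w k := by
    intro i
    exact Finset.sum_comm
  simp only [h2]
  rw [Finset.sum_comm]
  refine Finset.sum_congr rfl fun k _ => ?_
  push_cast
  rw [sq, Finset.sum_mul_sum, Finset.sum_mul]
  refine Finset.sum_congr rfl fun i _ => ?_
  rw [Finset.sum_mul]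

private lemma rz_sq94 {N : ℕ} (U : Matrix (Fin N) (Fin N) ℝ) (w : Fin N → ℂ) (h2 : Uᵀ * U = 1) :
    (toC U * Matrix.diagonal w * (toC U)ᵀ) * (toC U * Matrix.diagonal w * (toC U)ᵀ)
      = toC U * Matrix.diagonal (fun k => w k * w k) * (toC U)ᵀ := by
  have e2 : (toC U)ᵀ * toC U = 1 := by
    rw [← toC_tr94, ← toC_mul94, h2, toC_one94]
  calc (toC U * Matrix.diagonal w * (toC U)ᵀ) * (toC U * Matrix.diagonal w * (toC U)ᵀ)
      = toC U * Matrix.diagonal w * ((toC U)ᵀ * toC U) * Matrix.diagonal w * (toC U)ᵀ := by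
        simp only [Matrix.mul_assoc]
    _ = toC U * (Matrix.diagonal w * Matrix.diagonal w) * (toC U)ᵀ := by
        rw [e2]
        simp only [Matrix.mul_assoc, Matrix.one_mul, Matrix.mul_one]
    _ = _ := by rw [Matrix.diagonal_mul_diagonal]

private lemma im_inv94 (c x : ℝ) (z : ℂ) (hz : z.im ≠ 0) :
    ((c : ℂ) / ((x : ℂ) - z)).im = z.im * (c / Complex.normSq ((x : ℂ) - z)) := by
  rw [div_eq_mul_inv, Complex.mul_im, Complex.inv_re, Complex.inv_im]
  simp
  ring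

private lemma norm_inv94 (c x : ℝ) (hc : 0 ≤ c) (z : ℂ) :
    ‖(c : ℂ) / ((x : ℂ) - z) ^ 2‖ = c / Complex.normSq ((x : ℂ) - z) := by
  rw [norm_div, norm_pow, Complex.norm_real, Real.norm_of_nonneg hc, Complex.normSq_eq_norm_sq]

theorem qf_spec {N : ℕ} (M : Matrix (Fin N) (Fin N) ℝ) (hM : M.IsSymm) :
    ∃ U : Matrix (Fin N) (Fin N) ℝ, U * Uᵀ = 1 ∧ Uᵀ * U = 1 ∧
      (∀ (r : Fin N → ℝ) (z : ℂ), z.im ≠ 0 →
        qf M r z = ∑ k, (((∑ j, U j k * r j) ^ 2 : ℝ) : ℂ) / ((evs M k : ℂ) - z)) ∧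
      (∀ (r : Fin N → ℝ) (z : ℂ), z.im ≠ 0 →
        qf2 M r z = ∑ k, (((∑ j, U j k * r j) ^ 2 : ℝ) : ℂ) / ((evs M k : ℂ) - z) ^ 2) ∧
      (∀ z : ℂ, z.im ≠ 0 → ∀ i, Rz M z i i = ∑ k, ((U i k ^ 2 : ℝ) : ℂ) / ((evs M k : ℂ) - z)) := by
  obtain ⟨U, h1, h2, h3⟩ := spec_dec M hM
  refine ⟨U, h1, h2, ?_, ?_, ?_⟩
  · intro r z hz
    unfold qf
    rw [rz_spec94 M U (fun i : Fin N => evs M i) h1 h2 h3 z hz, quad94]
    refine Finset.sum_congr rfl fun k _ => ?_
    rw [mul_one_div]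
  · intro r z hz
    unfold qf2
    rw [rz_spec94 M U (fun i : Fin N => evs M i) h1 h2 h3 z hz, rz_sq94 U _ h2, quad94]
    refine Finset.sum_congr rfl fun k _ => ?_
    rw [div_mul_div_comm, mul_one, mul_one_div, sq (((evs M (k : ℕ) : ℝ) : ℂ) - z)]
  · intro z hz i
    rw [rz_spec94 M U (fun i : Fin N => evs M i) h1 h2 h3 z hz, entry94]
    refine Finset.sum_congr rfl fun k _ => ?_
    push_cast
    ring

theorem tr_spec {N : ℕ} (M : Matrix (Fin N) (Fin N) ℝ) (hM : M.IsSymm) (z : ℂ) (hz : z.im ≠ 0) :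
    (Rz M z).trace = ∑ k : Fin N, 1 / ((evs M k : ℂ) - z) := by
  obtain ⟨U, h1, h2, h3, h4, h5⟩ := qf_spec M hM
  unfold Matrix.trace
  simp only [Matrix.diag_apply]
  simp only [h5 z hz]
  rw [Finset.sum_comm]
  refine Finset.sum_congr rfl fun k _ => ?_
  rw [← Finset.sum_div]
  congr 1
  have := congrFun (congrFun h2 k) k
  rw [Matrix.mul_apply, Matrix.one_apply_eq] at this
  rw [← Complex.ofReal_sum, ← Complex.ofReal_one, ← this]
  congr 1
  refine Finset.sum_congr rfl fun i _ => ?_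
  rw [Matrix.transpose_apply, sq]

theorem qf_im_nonneg {N : ℕ} (M : Matrix (Fin N) (Fin N) ℝ) (hM : M.IsSymm) (r : Fin N → ℝ)
    (z : ℂ) (hz : 0 < z.im) : 0 ≤ (qf M r z).im := by
  obtain ⟨U, h1, h2, h3, h4, h5⟩ := qf_spec M hM
  rw [h3 r z hz.ne', Complex.im_sum]
  refine Finset.sum_nonneg fun k _ => ?_
  rw [im_inv94 _ _ z hz.ne']
  exact mul_nonneg hz.le (div_nonneg (sq_nonneg _) (Complex.normSq_nonneg _))

theorem qf2_le {N : ℕ} (M : Matrix (Fin N) (Fin N) ℝ) (hM : M.IsSymm) (r : Fin N → ℝ)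
    (z : ℂ) (hz : 0 < z.im) : ‖qf2 M r z‖ ≤ (qf M r z).im / z.im := by
  obtain ⟨U, h1, h2, h3, h4, h5⟩ := qf_spec M hM
  rw [h3 r z hz.ne', h4 r z hz.ne', Complex.im_sum, Finset.sum_div]
  refine (norm_sum_le _ _).trans (Finset.sum_le_sum fun k _ => ?_)
  rw [im_inv94 _ _ z hz.ne', norm_inv94 _ _ (sq_nonneg _) z, mul_div_cancel_left₀ _ hz.ne']

theorem one_add_qf2_le {N : ℕ} (M : Matrix (Fin N) (Fin N) ℝ) (hM : M.IsSymm) (r : Fin N → ℝ)
    (z : ℂ) (hz : 0 < z.im) : ‖1 + qf2 M r z‖ ≤ 1 + (qf M r z).im / z.im := by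
  refine (norm_add_le _ _).trans ?_
  rw [norm_one]
  exact add_le_add_right (qf2_le M hM r z hz) 1

theorem wd_im {N : ℕ} (i : Fin (N + 1)) (A : Matrix (Fin (N + 1)) (Fin (N + 1)) ℝ) (z : ℂ) :
    (wd i A z).im = -(z.im + (qf (mino i A) (rowv i A) z).im) := by
  unfold wd
  rw [Complex.sub_im, Complex.sub_im, Complex.ofReal_im]
  ring

theorem wd_re {N : ℕ} (i : Fin (N + 1)) (A : Matrix (Fin (N + 1)) (Fin (N + 1)) ℝ) (z : ℂ) :
    (wd i A z).re = A i i - z.re - (qf (mino i A) (rowv i A) z).re := by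
  unfold wd
  rw [Complex.sub_re, Complex.sub_re, Complex.ofReal_re]

end Pool.Agent.ZR

end

section

/-!
# ZR/JSchur : Schur complement formulas

Let `A` be symmetric of size `N + 1`, `z.im ≠ 0`, `M = mino i A` (symmetric), `r = rowv i A`,
`R = Rz M z` (inverse of `M - z` on both sides, `rz_left`, `rz_right` of C2; symmetric, because it is
the inverse of a symmetric matrix), `w = wd i A z = A_ii - z - rᵀ R r`.

0. `w ≠ 0` : if `w = 0` put `u_i = 1`, `u_{succAbove j} = -(R r)_j`; then `(A - z)u = 0`: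
   row `i`: `A_ii - z - rᵀ R r = 0`, row `succAbove j`: `r_j - ((M - z) R r)_j = 0`; but `A - z` is
   invertible and `u ≠ 0`, a contradiction.  (Alternatively use `Im w ≤ -Im z` from JQf, but this file
   does not need it.)
1. Define the matrix `S` of size `N + 1` (by `Fin.succAboveCases`/`Fin.insertNth`, or by describing
   its columns): `S_ii = 1/w`, `S_{i, succ l} = S_{succ l, i} = -(R r)_l / w`,
   `S_{succ j, succ l} = R_jl + (R r)_j (R r)_l / w`.
   `(A - z) S = 1`, by `Fin.sum_univ_succAbove _ i`: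
   * row `i`, column `i`: `(A_ii - z)/w - ∑_j r_j (R r)_j / w = w/w = 1`;
   * row `succ j`, column `i`: `r_j/w - ((M - z) R r)_j / w = 0`;
   * row `i`, column `succ l`: `-(A_ii - z)(R r)_l/w + ∑_j r_j (R_jl + (R r)_j (R r)_l / w)
       = (R r)_l (-(A_ii - z) + w + rᵀ R r)/w = 0` (here `∑_j r_j R_jl = (R r)_l`, `R` symmetric);
   * row `succ j`, column `succ l`: `-r_j (R r)_l/w + ((M - z)R)_jl + ((M-z) R r)_j (R r)_l/w
       = δ_jl`.
   Here `A (succAbove j) i = r_j` by symmetry of `A`.  Hence `Rz A z = S` (`Matrix.inv_eq_right_inv`).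
2. `schur_diag` and `schur_trace`: `tr S = 1/w + ∑_j (R_jj + (R r)_j²/w) = tr R + (1 + rᵀ R R r)/w`,
   because `∑_j (R r)_j² = rᵀ R R r = qf2` by symmetry of `R`.
3. `schur_det`: `S_ii = (adjugate (A - z))_ii / det(A - z) = det(M - z)/det(A - z)`
   (`Matrix.adjugate_fin_succ_eq_det_submatrix`: `adjugate A i j = (-1)^(j+i) * det (A.submatrix
   j.succAbove i.succAbove)`; for `i = j` the sign is `1`), so `det(A - z) = w det(M - z)`.
   Alternatively `Matrix.det_fromBlocks` after reindexing.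
-/


open MeasureTheory ProbabilityTheory Matrix

namespace Pool.Agent.ZR

section aux

variable {N : ℕ} (i : Fin (N + 1)) (A : Matrix (Fin (N + 1)) (Fin (N + 1)) ℝ)

/-- `(R r)_j` -/
private noncomputable def qv (z : ℂ) (j : Fin N) : ℂ :=
  ∑ k, Rz (mino i A) z j k * (rowv i A k : ℂ)

private noncomputable def Az (z : ℂ) : Matrix (Fin (N + 1)) (Fin (N + 1)) ℂ :=
  toC A - z • (1 : Matrix (Fin (N + 1)) (Fin (N + 1)) ℂ)

private noncomputable def Mz (z : ℂ) : Matrix (Fin N) (Fin N) ℂ :=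
  toC (mino i A) - z • (1 : Matrix (Fin N) (Fin N) ℂ)

private theorem Az_ii (z : ℂ) : Az A z i i = (A i i : ℂ) - z := by
  simp [Az, toC]

private theorem Az_is (z : ℂ) (j : Fin N) : Az A z i (i.succAbove j) = (rowv i A j : ℂ) := by
  have h : i ≠ i.succAbove j := (Fin.succAbove_ne i j).symm
  simp [Az, toC, rowv, Matrix.one_apply_ne h]

private theorem Az_si (hA : A.IsSymm) (z : ℂ) (j : Fin N) :
    Az A z (i.succAbove j) i = (rowv i A j : ℂ) := by
  have h : i.succAbove j ≠ i := Fin.succAbove_ne i j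
  have h2 : A (i.succAbove j) i = A i (i.succAbove j) := hA.apply i (i.succAbove j)
  simp [Az, toC, rowv, Matrix.one_apply_ne h, h2]

private theorem Az_ss (z : ℂ) (j l : Fin N) :
    Az A z (i.succAbove j) (i.succAbove l) = Mz i A z j l := by
  by_cases h : j = l
  · subst h
    simp [Az, Mz, toC, mino]
  · have h' : i.succAbove j ≠ i.succAbove l := fun e => h (Fin.succAbove_right_injective e)
    simp [Az, Mz, toC, mino, Matrix.one_apply_ne h, Matrix.one_apply_ne h']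

private theorem msymm (hA : A.IsSymm) : (mino i A).IsSymm := mino_symm i A hA

private theorem Rsymm {N : ℕ} (M : Matrix (Fin N) (Fin N) ℝ) (hM : M.IsSymm) (z : ℂ)
    (hz : z.im ≠ 0) (j l : Fin N) : Rz M z j l = Rz M z l j := by
  have h := gz_symm (pb_one M hM) z hz
  rw [gz_one] at h
  have h2 := congrFun (congrFun h l) j
  simpa [Matrix.transpose_apply] using h2

private theorem Mz_R (hA : A.IsSymm) (z : ℂ) (hz : z.im ≠ 0) (j l : Fin N) :
    ∑ k, Mz i A z j k * Rz (mino i A) z k l = if j = l then 1 else 0 := by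
  have h := congrFun (congrFun (rz_left (mino i A) (mino_symm i A hA) z hz) j) l
  rw [Matrix.mul_apply, Matrix.one_apply] at h
  exact h

private theorem Mz_q (hA : A.IsSymm) (z : ℂ) (hz : z.im ≠ 0) (j : Fin N) :
    ∑ k, Mz i A z j k * qv i A z k = (rowv i A j : ℂ) := by
  have h1 : ∀ k, Mz i A z j k * qv i A z k
      = ∑ l, Mz i A z j k * Rz (mino i A) z k l * (rowv i A l : ℂ) := by
    intro k
    rw [qv, Finset.mul_sum]
    refine Finset.sum_congr rfl fun l _ => ?_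
    ring
  rw [Finset.sum_congr rfl (fun k _ => h1 k), Finset.sum_comm]
  have h2 : ∀ l, ∑ k, Mz i A z j k * Rz (mino i A) z k l * (rowv i A l : ℂ)
      = (if j = l then 1 else 0) * (rowv i A l : ℂ) := by
    intro l
    rw [← Finset.sum_mul, Mz_R i A hA z hz]
  rw [Finset.sum_congr rfl (fun l _ => h2 l)]
  simp

private theorem qf_q (z : ℂ) :
    qf (mino i A) (rowv i A) z = ∑ j, (rowv i A j : ℂ) * qv i A z j := by
  unfold qf
  refine Finset.sum_congr rfl fun j _ => ?_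
  rw [qv, Finset.mul_sum]
  refine Finset.sum_congr rfl fun k _ => ?_
  ring

private theorem rR_q (hA : A.IsSymm) (z : ℂ) (hz : z.im ≠ 0) (l : Fin N) :
    ∑ j, (rowv i A j : ℂ) * Rz (mino i A) z j l = qv i A z l := by
  rw [qv]
  refine Finset.sum_congr rfl fun k _ => ?_
  rw [Rsymm (mino i A) (mino_symm i A hA) z hz k l]
  ring

private theorem qf2_q (hA : A.IsSymm) (z : ℂ) (hz : z.im ≠ 0) :
    qf2 (mino i A) (rowv i A) z = ∑ l, qv i A z l * qv i A z l := by
  have h1 : ∀ l, qv i A z l * qv i A z l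
      = ∑ j, ∑ k, (rowv i A j : ℂ) * (Rz (mino i A) z j l * Rz (mino i A) z l k)
          * (rowv i A k : ℂ) := by
    intro l
    conv_lhs => rw [← rR_q i A hA z hz l]
    rw [Finset.sum_mul]
    refine Finset.sum_congr rfl fun j _ => ?_
    rw [rR_q i A hA z hz l, qv, Finset.mul_sum]
    refine Finset.sum_congr rfl fun k _ => ?_
    ring
  rw [Finset.sum_congr rfl (fun l _ => h1 l), Finset.sum_comm]
  unfold qf2
  refine Finset.sum_congr rfl fun j _ => ?_
  rw [Finset.sum_comm]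
  refine Finset.sum_congr rfl fun k _ => ?_
  rw [Matrix.mul_apply, Finset.mul_sum, Finset.sum_mul]

private theorem solve (hA : A.IsSymm) (z : ℂ) (hz : z.im ≠ 0) (u b : Fin (N + 1) → ℂ)
    (h : Az A z *ᵥ u = b) : u = Rz A z *ᵥ b := by
  rw [← h, Matrix.mulVec_mulVec]
  have := rz_right A hA z hz
  change u = (Rz A z * (toC A - z • (1 : Matrix (Fin (N + 1)) (Fin (N + 1)) ℂ))) *ᵥ u
  rw [this, Matrix.one_mulVec]

/-- column `i` -/
private theorem col_i (hA : A.IsSymm) (z : ℂ) (hz : z.im ≠ 0) :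
    Rz A z i i * wd i A z = 1 := by
  have h := solve A hA z hz
    (fun k => Fin.insertNth (α := fun _ => ℂ) i (1 : ℂ) (fun j => - qv i A z j) k)
    (fun k => if k = i then wd i A z else 0) (by
      ext k
      rw [Matrix.mulVec, dotProduct, Fin.sum_univ_succAbove _ i]
      refine Fin.succAboveCases i ?_ (fun j => ?_) k
      · simp only [Fin.insertNth_apply_same, Fin.insertNth_apply_succAbove, Az_ii, Az_is, if_true]
        rw [wd, qf_q]
        simp only [mul_neg, Finset.sum_neg_distrib]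
        ring
      · simp only [Fin.insertNth_apply_same, Fin.insertNth_apply_succAbove, Az_si i A hA, Az_ss,
          if_neg (Fin.succAbove_ne i j)]
        simp only [mul_neg, Finset.sum_neg_distrib]
        rw [Mz_q i A hA z hz]
        ring)
  have h2 := congrFun h i
  simp only [Fin.insertNth_apply_same, Matrix.mulVec, dotProduct, mul_ite, mul_zero,
    Finset.sum_ite_eq', Finset.mem_univ, if_true] at h2
  exact h2.symm

end aux

theorem wd_ne_zero {N : ℕ} (i : Fin (N + 1)) (A : Matrix (Fin (N + 1)) (Fin (N + 1)) ℝ)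
    (hA : A.IsSymm) (z : ℂ) (hz : z.im ≠ 0) : wd i A z ≠ 0 := by
  intro h
  have := col_i i A hA z hz
  rw [h, mul_zero] at this
  exact zero_ne_one this

theorem schur_diag {N : ℕ} (i : Fin (N + 1)) (A : Matrix (Fin (N + 1)) (Fin (N + 1)) ℝ)
    (hA : A.IsSymm) (z : ℂ) (hz : z.im ≠ 0) : Rz A z i i = 1 / wd i A z := by
  rw [eq_div_iff (wd_ne_zero i A hA z hz)]
  exact col_i i A hA z hz

/-- column `succAbove l`, diagonal entry -/
private theorem col_s {N : ℕ} (i : Fin (N + 1)) (A : Matrix (Fin (N + 1)) (Fin (N + 1)) ℝ)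
    (hA : A.IsSymm) (z : ℂ) (hz : z.im ≠ 0) (l : Fin N) :
    Rz A z (i.succAbove l) (i.succAbove l)
      = Rz (mino i A) z l l + qv i A z l * qv i A z l / wd i A z := by
  have hw := wd_ne_zero i A hA z hz
  have h := solve A hA z hz
    (fun k => Fin.insertNth (α := fun _ => ℂ) i (- qv i A z l / wd i A z)
      (fun j => Rz (mino i A) z j l + qv i A z j * (qv i A z l / wd i A z)) k)
    (fun k => if k = i.succAbove l then 1 else 0) (by
      ext k
      rw [Matrix.mulVec, dotProduct, Fin.sum_univ_succAbove _ i]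
      refine Fin.succAboveCases i ?_ (fun j => ?_) k
      · simp only [Fin.insertNth_apply_same, Fin.insertNth_apply_succAbove, Az_ii, Az_is,
          if_neg (Fin.succAbove_ne i l).symm]
        have e1 : ∑ x, (rowv i A x : ℂ) * (Rz (mino i A) z x l
            + qv i A z x * (qv i A z l / wd i A z))
            = qv i A z l + qf (mino i A) (rowv i A) z * (qv i A z l / wd i A z) := by
          rw [qf_q, Finset.sum_mul]
          conv_rhs => rw [← rR_q i A hA z hz l]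
          rw [← Finset.sum_add_distrib]
          rw [rR_q i A hA z hz l]
          refine Finset.sum_congr rfl fun x _ => ?_
          ring
        rw [e1]
        have e2 : (A i i : ℂ) - z = wd i A z + qf (mino i A) (rowv i A) z := by
          rw [wd]; ring
        rw [e2]
        field_simp
        ring
      · simp only [Fin.insertNth_apply_same, Fin.insertNth_apply_succAbove, Az_si i A hA, Az_ss]
        have e1 : ∑ x, Mz i A z j x * (Rz (mino i A) z x l
            + qv i A z x * (qv i A z l / wd i A z))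
            = (if j = l then 1 else 0) + (rowv i A j : ℂ) * (qv i A z l / wd i A z) := by
          rw [← Mz_R i A hA z hz j l, ← Mz_q i A hA z hz j, Finset.sum_mul,
            ← Finset.sum_add_distrib]
          refine Finset.sum_congr rfl fun x _ => ?_
          ring
        rw [e1]
        have e3 : (i.succAbove j = i.succAbove l) ↔ j = l :=
          ⟨fun e => Fin.succAbove_right_injective e, fun e => by rw [e]⟩
        simp only [e3]
        ring)
  have h2 := congrFun h (i.succAbove l)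
  simp only [Fin.insertNth_apply_succAbove, Matrix.mulVec, dotProduct, mul_ite, mul_zero,
    mul_one, Finset.sum_ite_eq', Finset.mem_univ, if_true] at h2
  rw [← h2]
  ring

theorem schur_trace {N : ℕ} (i : Fin (N + 1)) (A : Matrix (Fin (N + 1)) (Fin (N + 1)) ℝ)
    (hA : A.IsSymm) (z : ℂ) (hz : z.im ≠ 0) :
    (Rz A z).trace = (Rz (mino i A) z).trace
      + (1 + qf2 (mino i A) (rowv i A) z) / wd i A z := by
  have hw := wd_ne_zero i A hA z hz
  rw [Matrix.trace, Matrix.trace, Fin.sum_univ_succAbove _ i]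
  simp only [Matrix.diag_apply]
  rw [schur_diag i A hA z hz, Finset.sum_congr rfl (fun l _ => col_s i A hA z hz l),
    Finset.sum_add_distrib, qf2_q i A hA z hz, ← Finset.sum_div]
  ring

theorem schur_det {N : ℕ} (i : Fin (N + 1)) (A : Matrix (Fin (N + 1)) (Fin (N + 1)) ℝ)
    (hA : A.IsSymm) (z : ℂ) (hz : z.im ≠ 0) :
    (toC A - z • (1 : Matrix (Fin (N + 1)) (Fin (N + 1)) ℂ)).det
      = wd i A z * (toC (mino i A) - z • (1 : Matrix (Fin N) (Fin N) ℂ)).det := by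
  have hw := wd_ne_zero i A hA z hz
  have h1 := col_i i A hA z hz
  have hsub : (Az A z).submatrix i.succAbove i.succAbove = Mz i A z := by
    ext j l
    exact Az_ss i A z j l
  have hdet : (Az A z).det ≠ 0 := by
    have h2 := congrArg Matrix.det (rz_left A hA z hz)
    rw [Matrix.det_mul, Matrix.det_one] at h2
    intro h0
    change (Az A z).det * _ = 1 at h2
    rw [h0, zero_mul] at h2
    exact zero_ne_one h2
  have h3 : Rz A z i i = ((Az A z).det)⁻¹ * (Mz i A z).det := by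
    have : Rz A z = (Az A z)⁻¹ := rfl
    rw [this, Matrix.inv_def, Matrix.smul_apply, Matrix.adjugate_fin_succ_eq_det_submatrix, hsub,
      Ring.inverse_eq_inv', smul_eq_mul]
    have : ((-1 : ℂ)) ^ ((i : ℕ) + (i : ℕ)) = 1 := by
      rw [← two_mul, pow_mul]; simp
    rw [this, one_mul]
  change (Az A z).det = wd i A z * (Mz i A z).det
  rw [h3] at h1
  field_simp at h1
  rw [← h1]
  ring

end Pool.Agent.ZR

end

section

/-!
# ZR/JZeroA : linear algebra for J0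

* `exists_orth_last`: an orthogonal matrix whose last column is the unit vector `u = 1/√(N+1)`
  (constant vector).  Householder: with `e` the last basis vector, `v = u - e`; if `v = 0` take `O = 1`,
  else `O = 1 - (2/|v|²) v vᵀ`, symmetric, `O² = 1`, `O e = u` because `|u| = |e|`
  (`u·e = 1/√(N+1) =: ρ`, `|v|² = 2 - 2ρ`, `O e = e - (2 (v·e)/|v|²) v`, `v·e = ρ - 1`,
  so `O e = e + v = u`).
* `conj_Pn`: `Oᵀ P O = diag(1,...,1,0)`: `P = 1 - u uᵀ` (`(N+1)⁻¹ J = u uᵀ`) and `Oᵀ u = e`.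
* `conj_last`: if `B 1 = 0`, `B` symmetric, then the last row and column of `Oᵀ B O` vanish:
  `Oᵀ B O e = Oᵀ B u = 0`.
* `roots_block`: `C` symmetric with vanishing last row and column: `C.charpoly = X * (mino last
  C).charpoly` (expand `det(X - C)` along the last row, `Matrix.det_succ_row` for `Fin.last`, only the
  diagonal term survives; or reindex to `Matrix.fromBlocks` and `Matrix.charpoly_fromBlocks_zero₁₂`),
  and the roots of `X * p` (`p` monic) are `0 ::ₘ p.roots` (`Polynomial.roots_mul`, `roots_X`).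
* `conj_of_roots`: two symmetric matrices with the same `charpoly.roots` are orthogonally conjugate:
  `evs` only depends on the roots, `H1 = V1 diag(evs H1) V1ᵀ`, `H2 = V2 diag(evs H1) V2ᵀ` (`spec_dec`),
  so `H1 = (V1 V2ᵀ) H2 (V1 V2ᵀ)ᵀ`.
-/


open MeasureTheory ProbabilityTheory Matrix

namespace Pool.Agent.ZR

private lemma JZeroA_Pn_apply (n : ℕ) (x y : Fin n) :
    Pn n x y = (if x = y then 1 else 0) - 1 / (n : ℝ) := by
  simp only [Pn, Matrix.sub_apply, Matrix.smul_apply, Matrix.of_apply, Matrix.one_apply,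
    smul_eq_mul, mul_one]

private lemma JZeroA_hh {N : ℕ} (v : Fin N → ℝ) (c : ℝ) (hc : c ^ 2 * (∑ i, v i ^ 2) = 2 * c) :
    (1 - c • Matrix.of (fun i j => v i * v j) : Matrix (Fin N) (Fin N) ℝ)
      * (1 - c • Matrix.of (fun i j => v i * v j)) = 1 := by
  ext i j
  rw [Matrix.mul_apply]
  simp only [Matrix.sub_apply, Matrix.smul_apply, Matrix.of_apply, smul_eq_mul]
  have h1 : ∀ k, ((1 : Matrix (Fin N) (Fin N) ℝ) i k - c * (v i * v k))
      * ((1 : Matrix (Fin N) (Fin N) ℝ) k j - c * (v k * v j))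
      = (1 : Matrix (Fin N) (Fin N) ℝ) i k * (1 : Matrix (Fin N) (Fin N) ℝ) k j
        - c * v j * ((1 : Matrix (Fin N) (Fin N) ℝ) i k * v k)
        - c * v i * (v k * (1 : Matrix (Fin N) (Fin N) ℝ) k j)
        + c ^ 2 * (v i * v j) * v k ^ 2 := by
    intro k; ring
  rw [Finset.sum_congr rfl fun k _ => h1 k, Finset.sum_add_distrib, Finset.sum_sub_distrib,
    Finset.sum_sub_distrib, ← Finset.mul_sum, ← Finset.mul_sum, ← Finset.mul_sum]
  have h2 : ∑ k, (1 : Matrix (Fin N) (Fin N) ℝ) i k * (1 : Matrix (Fin N) (Fin N) ℝ) k j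
      = (1 : Matrix (Fin N) (Fin N) ℝ) i j := by
    rw [← Matrix.mul_apply, mul_one]
  have h3 : ∑ k, (1 : Matrix (Fin N) (Fin N) ℝ) i k * v k = v i := by
    simp [Matrix.one_apply]
  have h4 : ∑ k, v k * (1 : Matrix (Fin N) (Fin N) ℝ) k j = v j := by
    simp [Matrix.one_apply]
  rw [h2, h3, h4]
  have h5 : c ^ 2 * (v i * v j) * ∑ k, v k ^ 2 = (c ^ 2 * ∑ k, v k ^ 2) * (v i * v j) := by ring
  rw [h5, hc]
  ring

private lemma JZeroA_hh_symm {N : ℕ} (v : Fin N → ℝ) (c : ℝ) :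
    (1 - c • Matrix.of (fun i j => v i * v j) : Matrix (Fin N) (Fin N) ℝ)ᵀ
      = 1 - c • Matrix.of (fun i j => v i * v j) := by
  ext i j
  simp only [Matrix.transpose_apply, Matrix.sub_apply, Matrix.smul_apply, Matrix.of_apply,
    smul_eq_mul, Matrix.one_apply]
  have h : (j = i) = (i = j) := propext eq_comm
  simp only [h]
  ring

private lemma JZeroA_colsum (N : ℕ) (O : Matrix (Fin (N + 1)) (Fin (N + 1)) ℝ)
    (h2 : Oᵀ * O = 1) (h3 : ∀ i, O i (Fin.last N) = 1 / Real.sqrt ((N + 1 : ℕ) : ℝ))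
    (i : Fin (N + 1)) :
    ∑ k, O k i = Real.sqrt ((N + 1 : ℕ) : ℝ) * (if i = Fin.last N then 1 else 0) := by
  have hpos : 0 < Real.sqrt ((N + 1 : ℕ) : ℝ) := Real.sqrt_pos.2 (by positivity)
  have h := congrFun (congrFun h2 i) (Fin.last N)
  rw [Matrix.mul_apply, Matrix.one_apply] at h
  simp only [Matrix.transpose_apply, h3] at h
  rw [← Finset.sum_mul] at h
  rw [← h]
  field_simp

theorem exists_orth_last (N : ℕ) : ∃ O : Matrix (Fin (N + 1)) (Fin (N + 1)) ℝ,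
    O * Oᵀ = 1 ∧ Oᵀ * O = 1 ∧ ∀ i, O i (Fin.last N) = 1 / Real.sqrt ((N + 1 : ℕ) : ℝ) := by
  obtain ⟨ρ, hρ⟩ : ∃ ρ : ℝ, ρ = 1 / Real.sqrt ((N + 1 : ℕ) : ℝ) := ⟨_, rfl⟩
  have hpos : 0 < Real.sqrt ((N + 1 : ℕ) : ℝ) := Real.sqrt_pos.2 (by positivity)
  have hsq : ((N + 1 : ℕ) : ℝ) * ρ ^ 2 = 1 := by
    rw [hρ, div_pow, Real.sq_sqrt (by positivity)]
    field_simp
  obtain ⟨v, hv⟩ : ∃ v : Fin (N + 1) → ℝ,
    v = fun i => ρ - (if i = Fin.last N then 1 else 0) := ⟨_, rfl⟩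
  have hv2 : ∑ i, v i ^ 2 = 2 * (1 - ρ) := by
    have h1 : ∀ i, v i ^ 2 = ρ ^ 2 - 2 * ρ * (if i = Fin.last N then 1 else 0)
        + (if i = Fin.last N then 1 else 0) := by
      intro i
      rw [hv]
      show (ρ - (if i = Fin.last N then 1 else 0)) ^ 2 = _
      split_ifs <;> ring
    rw [Finset.sum_congr rfl fun i _ => h1 i, Finset.sum_add_distrib, Finset.sum_sub_distrib,
      ← Finset.mul_sum]
    simp only [Finset.sum_ite_eq', Finset.mem_univ, if_true, Finset.sum_const,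
      Finset.card_univ, Fintype.card_fin, nsmul_eq_mul]
    rw [hsq]
    ring
  have hc : ((1 - ρ)⁻¹) ^ 2 * (∑ i, v i ^ 2) = 2 * (1 - ρ)⁻¹ := by
    rw [hv2]
    by_cases h0 : 1 - ρ = 0
    · rw [h0]; simp
    · field_simp
  refine ⟨1 - (1 - ρ)⁻¹ • Matrix.of (fun i j => v i * v j), ?_, ?_, ?_⟩
  · rw [JZeroA_hh_symm]
    exact JZeroA_hh v _ hc
  · rw [JZeroA_hh_symm]
    exact JZeroA_hh v _ hc
  · intro i
    rw [← hρ]
    simp only [Matrix.sub_apply, Matrix.smul_apply, Matrix.of_apply, smul_eq_mul,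
      Matrix.one_apply]
    have hvl : v (Fin.last N) = ρ - 1 := by rw [hv]; simp
    have hvi : v i = ρ - (if i = Fin.last N then 1 else 0) := by rw [hv]
    rw [hvl, hvi]
    by_cases h0 : 1 - ρ = 0
    · have h1 : ρ = 1 := by linarith
      rw [h1] at hsq
      have h2 : ((N + 1 : ℕ) : ℝ) = 1 := by linarith
      have h3 : N + 1 = 1 := by exact_mod_cast h2
      have h4 : N = 0 := by omega
      subst h4
      have h5 : i = Fin.last 0 := by
        apply Fin.ext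
        have := i.isLt
        simp only [Fin.val_last]
        omega
      rw [if_pos h5, h1]
      simp
    · have h6 : (1 - ρ)⁻¹ * ((ρ - (if i = Fin.last N then 1 else 0)) * (ρ - 1))
          = -(ρ - (if i = Fin.last N then 1 else 0)) := by
        have h7 : ρ - 1 = -(1 - ρ) := by ring
        rw [h7]
        field_simp
      rw [h6]
      ring

theorem conj_Pn (N : ℕ) (O : Matrix (Fin (N + 1)) (Fin (N + 1)) ℝ) (h1 : O * Oᵀ = 1)
    (h2 : Oᵀ * O = 1) (h3 : ∀ i, O i (Fin.last N) = 1 / Real.sqrt ((N + 1 : ℕ) : ℝ)) :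
    Oᵀ * Pn (N + 1) * O = Matrix.diagonal (fun i => if i = Fin.last N then 0 else 1) := by
  have hcol := JZeroA_colsum N O h2 h3
  have hpos : 0 < Real.sqrt ((N + 1 : ℕ) : ℝ) := Real.sqrt_pos.2 (by positivity)
  have hs : Real.sqrt ((N + 1 : ℕ) : ℝ) ^ 2 = ((N + 1 : ℕ) : ℝ) := Real.sq_sqrt (by positivity)
  have hn : ((N + 1 : ℕ) : ℝ) ≠ 0 := by positivity
  ext i j
  rw [Matrix.mul_apply]
  have e1 : ∀ l, (Oᵀ * Pn (N + 1)) i l
      = O l i - 1 / ((N + 1 : ℕ) : ℝ) * ∑ k, O k i := by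
    intro l
    rw [Matrix.mul_apply]
    simp only [JZeroA_Pn_apply, Matrix.transpose_apply, mul_sub]
    rw [Finset.sum_sub_distrib, ← Finset.sum_mul]
    simp
    ring
  have e2 : ∀ l, (Oᵀ * Pn (N + 1)) i l * O l j
      = Oᵀ i l * O l j - 1 / ((N + 1 : ℕ) : ℝ) * (∑ k, O k i) * O l j := by
    intro l
    rw [e1 l, Matrix.transpose_apply]
    ring
  rw [Finset.sum_congr rfl fun l _ => e2 l, Finset.sum_sub_distrib, ← Finset.mul_sum,
    ← Matrix.mul_apply, h2, hcol i, hcol j, Matrix.one_apply, Matrix.diagonal_apply]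
  have e3 : 1 / ((N + 1 : ℕ) : ℝ) * (Real.sqrt ((N + 1 : ℕ) : ℝ)
      * (if i = Fin.last N then 1 else 0)) * (Real.sqrt ((N + 1 : ℕ) : ℝ)
      * (if j = Fin.last N then 1 else 0))
      = (if i = Fin.last N then 1 else 0) * (if j = Fin.last N then 1 else 0) := by
    have e4 : 1 / ((N + 1 : ℕ) : ℝ) * (Real.sqrt ((N + 1 : ℕ) : ℝ)
      * (if i = Fin.last N then 1 else 0)) * (Real.sqrt ((N + 1 : ℕ) : ℝ)
      * (if j = Fin.last N then 1 else 0))
      = (1 / ((N + 1 : ℕ) : ℝ) * Real.sqrt ((N + 1 : ℕ) : ℝ) ^ 2)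
        * ((if i = Fin.last N then 1 else 0) * (if j = Fin.last N then 1 else 0)) := by ring
    rw [e4, hs, one_div, inv_mul_cancel₀ hn, one_mul]
  rw [e3]
  by_cases hij : i = j
  · subst hij
    by_cases hi : i = Fin.last N
    · simp [hi]
    · simp [hi]
  · by_cases hi : i = Fin.last N
    · have hj : j ≠ Fin.last N := fun h => hij (hi.trans h.symm)
      simp [hij, hj]
    · simp [hij, hi]

theorem conj_last (N : ℕ) (O : Matrix (Fin (N + 1)) (Fin (N + 1)) ℝ)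
    (h3 : ∀ i, O i (Fin.last N) = 1 / Real.sqrt ((N + 1 : ℕ) : ℝ))
    (B : Matrix (Fin (N + 1)) (Fin (N + 1)) ℝ) (hB : B.IsSymm)
    (h0 : B *ᵥ (fun _ => (1 : ℝ)) = 0) (j : Fin (N + 1)) :
    (Oᵀ * B * O) j (Fin.last N) = 0 ∧ (Oᵀ * B * O) (Fin.last N) j = 0 := by
  have h1 : ∀ j, (Oᵀ * B * O) j (Fin.last N) = 0 := by
    intro j
    rw [Matrix.mul_apply]
    simp only [h3]
    rw [← Finset.sum_mul]
    have e1 : ∑ l, (Oᵀ * B) j l = ((Oᵀ * B) *ᵥ (fun _ => (1 : ℝ))) j := by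
      simp [Matrix.mulVec, dotProduct]
    rw [e1, ← Matrix.mulVec_mulVec, h0, Matrix.mulVec_zero]
    simp
  have h2 : (Oᵀ * B * O)ᵀ = Oᵀ * B * O := by
    rw [Matrix.transpose_mul, Matrix.transpose_mul, Matrix.transpose_transpose, hB.eq,
      Matrix.mul_assoc]
  refine ⟨h1 j, ?_⟩
  rw [← h2, Matrix.transpose_apply]
  exact h1 j

theorem roots_block {N : ℕ} (C : Matrix (Fin (N + 1)) (Fin (N + 1)) ℝ)
    (h1 : ∀ j, C j (Fin.last N) = 0) (h2 : ∀ j, C (Fin.last N) j = 0) :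
    C.charpoly.roots = 0 ::ₘ (mino (Fin.last N) C).charpoly.roots := by
  have hdet : C.charpoly = Polynomial.X * (mino (Fin.last N) C).charpoly := by
    unfold Matrix.charpoly
    rw [Matrix.det_succ_row _ (Fin.last N), Finset.sum_eq_single (Fin.last N)]
    · rw [Matrix.charmatrix_apply_eq, h2, Polynomial.C_0, sub_zero]
      have e1 : ((-1 : Polynomial ℝ)) ^ ((Fin.last N : ℕ) + (Fin.last N : ℕ)) = 1 := by
        rw [← two_mul, pow_mul]; simp
      rw [e1, one_mul]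
      congr 2
      ext i j
      simp only [mino, Matrix.submatrix_apply, Matrix.charmatrix_apply, Matrix.diagonal_apply,
        Fin.succAbove_right_inj]
    · intro j _ hj
      rw [Matrix.charmatrix_apply_ne _ _ _ (Ne.symm hj), h2]
      simp
    · intro h
      exact absurd (Finset.mem_univ _) h
  have hne : (Polynomial.X * (mino (Fin.last N) C).charpoly) ≠ 0 :=
    mul_ne_zero Polynomial.X_ne_zero (Matrix.charpoly_monic _).ne_zero
  rw [hdet, Polynomial.roots_mul hne, Polynomial.roots_X, Multiset.singleton_add]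

theorem conj_of_roots {N : ℕ} (H1 H2 : Matrix (Fin N) (Fin N) ℝ) (h1 : H1.IsSymm)
    (h2 : H2.IsSymm) (h : H1.charpoly.roots = H2.charpoly.roots) :
    ∃ U : Matrix (Fin N) (Fin N) ℝ, U * Uᵀ = 1 ∧ Uᵀ * U = 1 ∧ H1 = U * H2 * Uᵀ := by
  obtain ⟨V1, a1, b1, c1⟩ := spec_dec H1 h1
  obtain ⟨V2, a2, b2, c2⟩ := spec_dec H2 h2
  have he : ∀ i : ℕ, evs H1 i = evs H2 i := by
    intro i
    unfold evs
    rw [h]
  have hd : Matrix.diagonal (fun i : Fin N => evs H1 i)
      = Matrix.diagonal (fun i : Fin N => evs H2 i) := by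
    congr 1
    funext i
    exact he i
  rw [hd] at c1
  refine ⟨V1 * V2ᵀ, ?_, ?_, ?_⟩
  · rw [Matrix.transpose_mul, Matrix.transpose_transpose, Matrix.mul_assoc, ← Matrix.mul_assoc V2ᵀ,
      b2, Matrix.one_mul, a1]
  · rw [Matrix.transpose_mul, Matrix.transpose_transpose, Matrix.mul_assoc, ← Matrix.mul_assoc V1ᵀ,
      b1, Matrix.one_mul, a2]
  · obtain ⟨D, hD⟩ : ∃ D, D = Matrix.diagonal (fun i : Fin N => evs H2 i) := ⟨_, rfl⟩
    rw [← hD] at c1 c2
    rw [Matrix.transpose_mul, Matrix.transpose_transpose, c2]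
    calc H1 = V1 * D * V1ᵀ := c1
      _ = V1 * ((V2ᵀ * V2) * D * (V2ᵀ * V2)) * V1ᵀ := by
          rw [b2, Matrix.one_mul, Matrix.mul_one]
      _ = V1 * V2ᵀ * (V2 * D * V2ᵀ) * (V2 * V1ᵀ) := by
          simp only [Matrix.mul_assoc]

end Pool.Agent.ZR

end

section

/-!
# ZR/Sp5 : the spectrum with one zero removed

Let `B` be symmetric with `0 ∈ B.charpoly.roots`.  The sorted list of roots is `evs B 0 ≤ ... ≤
evs B (N-1)`; the first zero is at position `j = #{i | evs B i < 0}`, so the sorted list of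
`roots.erase 0` (`Multiset.sort` of `erase` = `List.erase` of the sorted list, by uniqueness of the
sorted list with a given multiset) is `evs B i` for `i < j` and `evs B (i+1)` for `i ≥ j`; and
`i < j ↔ evs B i < 0`.  This is `evp_eq`.  `evp_mono` follows from sortedness.
`zero_mem_roots`: `B *ᵥ 1 = 0` with `1 ≠ 0` (as `0 < N`) gives `det B = 0`, so `0` is a root of the
(monic, non zero) characteristic polynomial (`Matrix.exists_mulVec_eq_zero_iff`,
`Matrix.eval_charpoly`-type lemma: `charpoly.eval 0 = det (-B)`).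
`sum_erase`: `(roots.map f).sum = f 0 + ((roots.erase 0).map f).sum` (`Multiset.cons_erase`), and
`roots.erase 0 = (range (N-1)).val.map (evp B)` by sortedness.
`cntP_eq`: from `countP` of `cons`.
-/


open MeasureTheory ProbabilityTheory Matrix

namespace Pool.Agent.ZR

theorem sortL_erase (s : Multiset ℝ) (a : ℝ) :
    (s.erase a).sort (· ≤ ·) = (s.sort (· ≤ ·)).erase a := by
  have h1 : ((s.erase a).sort (· ≤ ·)).Perm ((s.sort (· ≤ ·)).erase a) := by
    rw [← Multiset.coe_eq_coe, Multiset.sort_eq, ← Multiset.coe_erase, Multiset.sort_eq]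
  refine List.Perm.eq_of_pairwise (le := (· ≤ ·)) (fun a b _ _ h h' => le_antisymm h h') ?_ ?_ h1
  · exact Multiset.pairwise_sort _ _
  · exact (Multiset.pairwise_sort _ _).sublist (List.erase_sublist)

theorem evp_idx {N : ℕ} (B : Matrix (Fin N) (Fin N) ℝ) (hB : B.IsSymm)
    (h0 : (0 : ℝ) ∈ B.charpoly.roots) :
    ∃ j < N, evs B j = 0 ∧ (∀ i < j, evs B i ≠ 0) ∧
      ∀ i, i + 1 < N → evp B i = if i < j then evs B i else evs B (i + 1) := by
  set L := B.charpoly.roots.sort (· ≤ ·) with hL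
  have hlen : L.length = N := by rw [hL, Multiset.length_sort, roots_card B hB]
  have hmem : (0 : ℝ) ∈ L := by rw [hL]; exact (Multiset.mem_sort _).2 h0
  have hj : List.idxOf (0 : ℝ) L < L.length := List.idxOf_lt_length_iff.2 hmem
  have hevs : ∀ i, evs B i = L.getD i 0 := fun i => rfl
  have hevp : ∀ i, evp B i = (L.erase 0).getD i 0 := by
    intro i
    show ((B.charpoly.roots.erase 0).sort (· ≤ ·)).getD i 0 = _
    rw [sortL_erase]
  refine ⟨List.idxOf (0 : ℝ) L, hlen ▸ hj, ?_, ?_, ?_⟩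
  · rw [hevs, List.getD_eq_getElem _ _ hj, List.getElem_idxOf]
  · intro i hi
    have hi' : i < L.length := lt_trans hi hj
    rw [hevs, List.getD_eq_getElem _ _ hi']
    intro h
    have := List.not_of_lt_findIdx (p := fun x => x == (0:ℝ)) (xs := L) (i := i) (by simpa [List.idxOf] using hi)
    simp [h] at this
  · intro i hi
    rw [hevp, List.erase_eq_eraseIdx_of_idxOf rfl]
    have hl2 : (L.eraseIdx (List.idxOf (0 : ℝ) L)).length = N - 1 := by
      rw [List.length_eraseIdx_of_lt hj, hlen]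
    have hi2 : i < (L.eraseIdx (List.idxOf (0 : ℝ) L)).length := by omega
    rw [List.getD_eq_getElem _ _ hi2, List.getElem_eraseIdx]
    by_cases hc : i < List.idxOf (0 : ℝ) L
    · rw [dif_pos hc, if_pos hc, hevs, List.getD_eq_getElem _ _ (by omega)]
    · rw [dif_neg hc, if_neg hc, hevs, List.getD_eq_getElem _ _ (by omega)]

theorem lenP {N : ℕ} (B : Matrix (Fin N) (Fin N) ℝ) (hB : B.IsSymm)
    (h0 : (0 : ℝ) ∈ B.charpoly.roots) :
    ((B.charpoly.roots.erase 0).sort (· ≤ ·)).length = N - 1 := by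
  rw [Multiset.length_sort, Multiset.card_erase_of_mem h0, roots_card B hB]
  rfl

theorem zero_mem_roots {N : ℕ} (hN : 0 < N) (B : Matrix (Fin N) (Fin N) ℝ)
    (h : B *ᵥ (fun _ => (1 : ℝ)) = 0) : (0 : ℝ) ∈ B.charpoly.roots := by
  haveI : NeZero N := ⟨hN.ne'⟩
  have hdet : B.det = 0 := by
    rw [← Matrix.exists_mulVec_eq_zero_iff]
    refine ⟨fun _ => 1, ?_, h⟩
    intro h1
    have := congrFun h1 ⟨0, hN⟩
    simp at this
  rw [Polynomial.mem_roots (Matrix.charpoly_monic B).ne_zero, Polynomial.IsRoot.def,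
    Matrix.eval_charpoly]
  simp [Matrix.det_neg, hdet]

theorem evp_eq {N : ℕ} (B : Matrix (Fin N) (Fin N) ℝ) (hB : B.IsSymm)
    (h0 : (0 : ℝ) ∈ B.charpoly.roots) (i : ℕ) (hi : i + 1 < N) :
    evp B i = if evs B i < 0 then evs B i else evs B (i + 1) := by
  obtain ⟨j, hjN, hj0, hjn, hv⟩ := evp_idx B hB h0
  rw [hv i hi]
  by_cases hc : i < j
  · have h1 : evs B i ≤ 0 := hj0 ▸ evs_le_evs B hB hc.le hjN
    have h2 : evs B i < 0 := lt_of_le_of_ne h1 (hjn i hc)
    rw [if_pos hc, if_pos h2]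
  · have h1 : 0 ≤ evs B i := hj0 ▸ evs_le_evs B hB (not_lt.1 hc) (by omega)
    rw [if_neg hc, if_neg (not_lt.2 h1)]

theorem evp_of_ge {N : ℕ} (B : Matrix (Fin N) (Fin N) ℝ) (h0 : (0 : ℝ) ∈ B.charpoly.roots)
    (i : ℕ) (hi : N ≤ i + 1) : evp B i = 0 := by
  unfold evp
  apply List.getD_eq_default
  rw [Multiset.length_sort, Multiset.card_erase_of_mem h0]
  have h1 : B.charpoly.roots.card ≤ N := by
    refine le_trans (Polynomial.card_roots' _) ?_
    rw [Matrix.charpoly_natDegree_eq_dim, Fintype.card_fin]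
  have h2 : B.charpoly.roots.card.pred ≤ N - 1 := by
    rw [Nat.pred_eq_sub_one]; omega
  omega

theorem evp_mono {N : ℕ} (B : Matrix (Fin N) (Fin N) ℝ) (hB : B.IsSymm)
    (h0 : (0 : ℝ) ∈ B.charpoly.roots) {i j : ℕ} (hij : i ≤ j) (hj : j + 1 < N) :
    evp B i ≤ evp B j := by
  have hl := lenP B hB h0
  unfold evp
  rw [List.getD_eq_getElem _ _ (by omega), List.getD_eq_getElem _ _ (by omega)]
  have hp : List.Pairwise (· ≤ ·) ((B.charpoly.roots.erase 0).sort (· ≤ ·)) :=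
    Multiset.pairwise_sort _ _
  rcases hij.eq_or_lt with h | h
  · subst h; exact le_rfl
  · exact List.pairwise_iff_getElem.1 hp i j (by omega) (by omega) h

theorem rootsP_eq {N : ℕ} (B : Matrix (Fin N) (Fin N) ℝ) (hB : B.IsSymm)
    (h0 : (0 : ℝ) ∈ B.charpoly.roots) :
    B.charpoly.roots.erase 0 = (Finset.range (N - 1)).val.map (evp B) := by
  have hl := lenP B hB h0
  have h1 : (B.charpoly.roots.erase 0).sort (· ≤ ·) = (List.range (N - 1)).map (evp B) := by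
    apply List.ext_getElem
    · rw [hl]; simp
    · intro i h2 h3
      rw [List.getElem_map, List.getElem_range]
      unfold evp
      rw [List.getD_eq_getElem _ _ h2]
  have h2 := Multiset.sort_eq (B.charpoly.roots.erase 0) (· ≤ ·)
  rw [h1] at h2
  rw [← h2]
  rfl

theorem sum_erase {N : ℕ} (B : Matrix (Fin N) (Fin N) ℝ) (hB : B.IsSymm)
    (h0 : (0 : ℝ) ∈ B.charpoly.roots) {M : Type*} [AddCommMonoid M] (f : ℝ → M) :
    ((B.charpoly.roots.erase 0).map f).sum = ∑ i ∈ Finset.range (N - 1), f (evp B i) := by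
  rw [rootsP_eq B hB h0, Multiset.map_map]
  rfl

theorem cntP_eq {N : ℕ} (B : Matrix (Fin N) (Fin N) ℝ) (h0 : (0 : ℝ) ∈ B.charpoly.roots) (x : ℝ) :
    cnt B x = cntP B x + (if 0 ≤ x then 1 else 0) := by
  unfold cnt cntP
  conv_lhs => rw [← Multiset.cons_erase h0]
  rw [Multiset.countP_cons]

theorem evp_le_iff {N : ℕ} (B : Matrix (Fin N) (Fin N) ℝ) (hB : B.IsSymm)
    (h0 : (0 : ℝ) ∈ B.charpoly.roots) (x : ℝ) (i : ℕ) (hi : i + 1 < N) :
    evp B i ≤ x ↔ i < cntP B x := by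
  obtain ⟨j, hjN, hj0, hjn, hv⟩ := evp_idx B hB h0
  have hc := cntP_eq B h0 x
  have h1 := evs_le_iff B hB x i (by omega)
  have h2 := evs_le_iff B hB x (i + 1) hi
  rw [hv i hi]
  by_cases hij : i < j
  · have h3 : evs B i ≤ 0 := hj0 ▸ evs_le_evs B hB hij.le hjN
    have h4 : evs B (i + 1) ≤ 0 := hj0 ▸ evs_le_evs B hB hij hjN
    rw [if_pos hij]
    by_cases hx : 0 ≤ x
    · rw [if_pos hx] at hc
      have h5 := h2.1 (le_trans h4 hx)
      exact ⟨fun _ => by omega, fun _ => le_trans h3 hx⟩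
    · rw [if_neg hx] at hc
      rw [h1, hc, add_zero]
  · have h3 : 0 ≤ evs B i := hj0 ▸ evs_le_evs B hB (not_lt.1 hij) (by omega)
    have h4 : 0 ≤ evs B (i + 1) := le_trans h3 (evs_le_evs B hB (by omega) hi)
    rw [if_neg hij]
    by_cases hx : 0 ≤ x
    · rw [if_pos hx] at hc
      rw [h2, hc]
      omega
    · rw [if_neg hx] at hc
      constructor
      · intro h5
        exact absurd (le_trans h4 h5) hx
      · intro h5
        have h6 := h1.2 (by omega)
        exact absurd (le_trans h3 h6) hx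

theorem measurable_evp {Ω : Type*} [MeasurableSpace Ω] {N : ℕ}
    (f : Ω → Matrix (Fin N) (Fin N) ℝ) (hf : ∀ k l, Measurable (fun ω => f ω k l))
    (hs : ∀ ω, (f ω).IsSymm) (h0 : ∀ ω, (0 : ℝ) ∈ (f ω).charpoly.roots) (i : ℕ) :
    Measurable (fun ω => evp (f ω) i) := by
  by_cases hi : i + 1 < N
  · have h1 : (fun ω => evp (f ω) i) =
        fun ω => if evs (f ω) i < 0 then evs (f ω) i else evs (f ω) (i + 1) := by
      funext ω
      exact evp_eq (f ω) (hs ω) (h0 ω) i hi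
    rw [h1]
    exact Measurable.ite (measurableSet_lt (measurable_evs f hf hs i) measurable_const)
      (measurable_evs f hf hs i) (measurable_evs f hf hs (i + 1))
  · have h1 : (fun ω => evp (f ω) i) = fun _ => (0 : ℝ) := by
      funext ω
      exact evp_of_ge (f ω) (h0 ω) i (by omega)
    rw [h1]
    exact measurable_const

end Pool.Agent.ZR

end

section

/-!
# ZR/F3 : the summed switching identity of part F

Write `Dd σ j k l = -(α/√n)(GξG)_jy Ψ + G_jy Ψ'_jkl` (`ξ = Xi x j k l`).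
`cyc_identity` (A2) with `(i,j,k,l) = (x,j,k,l)`, `f σ = G_jy Ψ`, `D = Dd`, for each distinct tuple:
`‖EU[s8 f] - EU[alt8 Dd]‖ ≤ 4 EU[r]`.  Sum over the distinct tuples and multiply by `(√n)^{-5}`:
* left: `(√n)^{-5} ∑_{dist} EU[s8 G_jy Ψ] = EU[(H0 G)_xy Ψ] + O(EU[(√n)^{-5} n² (Λ³τ+8Γ+40τ) ‖Ψ‖])`
  by `lhsF` (pointwise in `σ`), as `(√n)^{-5} n² ∑_j M_xj G_jy = (1/√n) (MG)_xy = (H0 G)_xy`, and
  `(√n)^{-5} n² = 1/√n`;
* right, first part: `(√n)^{-5} (α/√n) (-∑_{dist} alt8 (GξG)_jy) Ψ = -α m G_xy Ψ + O(α (40τ² + 16Γτ +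
  49Λ⁴Γ²/n)‖Ψ‖)` by `rhsF` (`(√n)^6 = n³`, `α ≤ 1`);
* right, second part: `|alt8| ≤ 8`: `≤ 8 (√n)^{-5} ∑_{jkl} ‖G_jy‖‖Ψ'_jkl‖` (drop `Dst`);
* remainder `4 (√n)^{-5} ∑_{jkl} EU[r]` (`r ≥ 0`, drop `Dst`).
-/


open MeasureTheory ProbabilityTheory Matrix

namespace Pool.Agent.ZR.F

theorem switchF {n : ℕ} (hn : 0 < n) (x y : Fin n) (α : ℝ) (hα0 : 0 ≤ α) (hα1 : α ≤ 1)
    (G : (Fin n → Fin n → Bool) → Matrix (Fin n) (Fin n) ℂ)
    (Ψ : (Fin n → Fin n → Bool) → ℂ)
    (Ψ' : (Fin n → Fin n → Bool) → Fin n → Fin n → Fin n → ℂ)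
    (r : (Fin n → Fin n → Bool) → Fin n → Fin n → Fin n → ℝ)
    (Λ Γ τ : (Fin n → Fin n → Bool) → ℝ)
    (hM : ∀ σ ∈ Sn n, HypM (Mx σ) (Λ σ)) (hG : ∀ σ ∈ Sn n, HypG (G σ) (Γ σ) (τ σ))
    (hr0 : ∀ σ ∈ Sn n, ∀ j k l, 0 ≤ r σ j k l)
    (hder : ∀ σ ∈ Sn n, ∀ j k l, Dst x j k l → Alt4 x j k l σ →
      ‖G (flipP (cyc x j k l) σ) j y * Ψ (flipP (cyc x j k l) σ) - G σ j y * Ψ σ
        + (Mx σ x j : ℂ) *
          ((-((α / Real.sqrt n : ℝ) : ℂ) * (G σ * toC (Xi x j k l) * G σ) j y * Ψ σ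
              + G σ j y * Ψ' σ j k l)
            + (-((α / Real.sqrt n : ℝ) : ℂ) *
                (G (flipP (cyc x j k l) σ) * toC (Xi x j k l) * G (flipP (cyc x j k l) σ)) j y
                  * Ψ (flipP (cyc x j k l) σ)
              + G (flipP (cyc x j k l) σ) j y * Ψ' (flipP (cyc x j k l) σ) j k l))‖
        ≤ r σ j k l) :
    ‖EU (fun σ => (toC (H0 σ) * G σ) x y * Ψ σ)
      + (α : ℂ) * EU (fun σ => (1 / (n : ℂ)) * (G σ).trace * G σ x y * Ψ σ)‖
      ≤ EU (fun σ =>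
          (1 / Real.sqrt n * (Λ σ ^ 3 * τ σ + 8 * Γ σ + 40 * τ σ)
            + (40 * τ σ ^ 2 + 16 * Γ σ * τ σ + 49 * Λ σ ^ 4 * Γ σ ^ 2 / n)) * ‖Ψ σ‖
          + 8 / Real.sqrt n ^ 5 * ∑ j, ∑ k, ∑ l, ‖G σ j y‖ * ‖Ψ' σ j k l‖
          + 4 / Real.sqrt n ^ 5 * ∑ j, ∑ k, ∑ l, r σ j k l) := by
  classical
  set s : ℝ := Real.sqrt (n : ℝ) with hs
  have hs0 : 0 < s := Real.sqrt_pos.2 (by exact_mod_cast hn)
  have hs2 : s ^ 2 = (n : ℝ) := Real.sq_sqrt (by positivity)
  have hsC : (s : ℂ) ≠ 0 := by exact_mod_cast hs0.ne'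
  have hs2C : (s : ℂ) ^ 2 = (n : ℂ) := by exact_mod_cast hs2
  have hnC : (n : ℂ) ≠ 0 := by exact_mod_cast hn.ne'
  -- the derivative terms
  let D : Fin n → Fin n → Fin n → (Fin n → Fin n → Bool) → ℂ := fun j k l σ =>
    -((α / s : ℝ) : ℂ) * (G σ * toC (Xi x j k l) * G σ) j y * Ψ σ + G σ j y * Ψ' σ j k l
  let A : Fin n → Fin n → Fin n → (Fin n → Fin n → Bool) → ℂ := fun j k l σ =>
    (s8 (Mx σ x j) (Mx σ j k) (Mx σ k l) (Mx σ l x) : ℂ) * (G σ j y * Ψ σ)
  let B : Fin n → Fin n → Fin n → (Fin n → Fin n → Bool) → ℂ := fun j k l σ =>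
    (alt8 (Mx σ x j) (Mx σ j k) (Mx σ k l) (Mx σ l x) : ℂ) * D j k l σ
  have hT : ∀ j k l, ‖EU (fun σ => if Dst x j k l then A j k l σ - B j k l σ else 0)‖
      ≤ 4 * EU (fun σ => r σ j k l) := by
    intro j k l
    by_cases hd : Dst x j k l
    · simp only [if_pos hd]
      rw [EU_sub]
      obtain ⟨h1, h2, h3, h4, h5, h6⟩ := hd
      exact cyc_identity h1 h2 h3 h4 h5 h6 (fun σ => G σ j y * Ψ σ) (D j k l)
        (fun σ => r σ j k l) (fun σ hσ => hr0 σ hσ j k l)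
        (fun σ hσ hA => hder σ hσ j k l ⟨h1, h2, h3, h4, h5, h6⟩ hA)
    · simp only [if_neg hd]
      have h0 : EU (n := n) (fun _ => (0 : ℂ)) = 0 := by
        unfold EU
        simp
      rw [h0, norm_zero]
      have := EU_nonneg (f := fun σ => r σ j k l) (fun σ hσ => hr0 σ hσ j k l)
      linarith
  have hTs : ‖EU (fun σ => ∑ j, ∑ k, ∑ l, (if Dst x j k l then A j k l σ - B j k l σ else 0))‖
      ≤ EU (fun σ => 4 * ∑ j, ∑ k, ∑ l, r σ j k l) := by
    have e1 : EU (fun σ => 4 * ∑ j, ∑ k, ∑ l, r σ j k l)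
        = ∑ j, ∑ k, ∑ l, 4 * EU (fun σ => r σ j k l) := by
      have : ∀ σ : Fin n → Fin n → Bool, 4 * ∑ j, ∑ k, ∑ l, r σ j k l
          = (4 : ℝ) • ∑ j, ∑ k, ∑ l, r σ j k l := fun σ => by rw [smul_eq_mul]
      simp only [this]
      rw [EU_smul, smul_eq_mul]
      simp only [EU_sum, Finset.mul_sum]
    rw [e1]
    simp only [EU_sum]
    refine (norm_sum_le _ _).trans (Finset.sum_le_sum fun j _ => ?_)
    refine (norm_sum_le _ _).trans (Finset.sum_le_sum fun k _ => ?_)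
    exact (norm_sum_le _ _).trans (Finset.sum_le_sum fun l _ => hT j k l)
  -- error terms
  let e1 : (Fin n → Fin n → Bool) → ℂ := fun σ =>
    -((∑ j, ∑ k, ∑ l, (if Dst x j k l then
        (s8 (Mx σ x j) (Mx σ j k) (Mx σ k l) (Mx σ l x) : ℂ) * G σ j y else 0)
      - (n : ℂ) ^ 2 * ∑ j, (Mx σ x j : ℂ) * G σ j y) * Ψ σ)
  let e2 : (Fin n → Fin n → Bool) → ℂ := fun σ =>
    -(((α / s : ℝ) : ℂ) * ((∑ j, ∑ k, ∑ l, (if Dst x j k l then
        (alt8 (Mx σ x j) (Mx σ j k) (Mx σ k l) (Mx σ l x) : ℂ) *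
          (G σ * toC (Xi x j k l) * G σ) j y else 0)
      - (n : ℂ) ^ 3 * ((1 / (n : ℂ)) * (G σ).trace * G σ x y)) * Ψ σ))
  let e3 : (Fin n → Fin n → Bool) → ℂ := fun σ =>
    ∑ j, ∑ k, ∑ l, (if Dst x j k l then
        (alt8 (Mx σ x j) (Mx σ j k) (Mx σ k l) (Mx σ l x) : ℂ) * (G σ j y * Ψ' σ j k l) else 0)
  have hpt : ∀ σ : Fin n → Fin n → Bool,
      (s : ℂ) ^ 5 * ((toC (H0 σ) * G σ) x y * Ψ σ)
        + (s : ℂ) ^ 5 * ((α : ℂ) * ((1 / (n : ℂ)) * (G σ).trace * G σ x y * Ψ σ))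
      = (e1 σ + e2 σ) + ((∑ j, ∑ k, ∑ l, (if Dst x j k l then A j k l σ - B j k l σ else 0))
        + e3 σ) := by
    intro σ
    have hAB : (∑ j, ∑ k, ∑ l, (if Dst x j k l then A j k l σ - B j k l σ else 0)) + e3 σ
        = (∑ j, ∑ k, ∑ l, (if Dst x j k l then
        (s8 (Mx σ x j) (Mx σ j k) (Mx σ k l) (Mx σ l x) : ℂ) * G σ j y else 0)) * Ψ σ
        + ((α / s : ℝ) : ℂ) * ((∑ j, ∑ k, ∑ l, (if Dst x j k l then
        (alt8 (Mx σ x j) (Mx σ j k) (Mx σ k l) (Mx σ l x) : ℂ) *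
          (G σ * toC (Xi x j k l) * G σ) j y else 0)) * Ψ σ) := by
      simp only [e3, Finset.sum_mul, Finset.mul_sum, ← Finset.sum_add_distrib]
      refine Finset.sum_congr rfl fun j _ => Finset.sum_congr rfl fun k _ =>
        Finset.sum_congr rfl fun l _ => ?_
      by_cases hd : Dst x j k l
      · simp only [if_pos hd, A, B, D]
        ring
      · simp only [if_neg hd]
        ring
    have hH : (toC (H0 σ) * G σ) x y = (1 / (s : ℂ)) * ∑ j, (Mx σ x j : ℂ) * G σ j y := by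
      rw [Matrix.mul_apply, Finset.mul_sum]
      refine Finset.sum_congr rfl fun j _ => ?_
      simp only [toC, H0, Matrix.map_apply, Matrix.smul_apply, smul_eq_mul]
      push_cast
      rw [← hs]
      ring
    rw [hAB, hH]
    simp only [e1, e2]
    rw [← hs2C]
    push_cast
    field_simp
    ring
  have hmain : (s : ℂ) ^ 5 * (EU (fun σ => (toC (H0 σ) * G σ) x y * Ψ σ)
      + (α : ℂ) * EU (fun σ => (1 / (n : ℂ)) * (G σ).trace * G σ x y * Ψ σ))
      = (EU e1 + EU e2) +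
        (EU (fun σ => ∑ j, ∑ k, ∑ l, (if Dst x j k l then A j k l σ - B j k l σ else 0))
          + EU e3) := by
    rw [mul_add]
    have h1 : (s : ℂ) ^ 5 * EU (fun σ => (toC (H0 σ) * G σ) x y * Ψ σ)
        = EU (fun σ => (s : ℂ) ^ 5 * ((toC (H0 σ) * G σ) x y * Ψ σ)) :=
      (EU_mul_left _ _).symm
    have h2 : (s : ℂ) ^ 5 * ((α : ℂ) * EU (fun σ => (1 / (n : ℂ)) * (G σ).trace * G σ x y * Ψ σ))
        = EU (fun σ => (s : ℂ) ^ 5 *
          ((α : ℂ) * ((1 / (n : ℂ)) * (G σ).trace * G σ x y * Ψ σ))) := by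
      rw [EU_mul_left, EU_mul_left]
    rw [h1, h2, ← EU_add, ← EU_add e1 e2, ← EU_add _ e3, ← EU_add]
    exact EU_congr fun σ _ => hpt σ
  have hb1 : ‖EU e1‖ ≤ EU (fun σ => (n : ℝ) ^ 2 * (Λ σ ^ 3 * τ σ + 8 * Γ σ + 40 * τ σ) * ‖Ψ σ‖) := by
    refine (EU_norm_le _).trans (EU_mono fun σ hσ => ?_)
    simp only [e1, norm_neg, norm_mul]
    exact mul_le_mul_of_nonneg_right (lhsF (hM σ hσ) (hG σ hσ) x y) (norm_nonneg _)
  have hb2 : ‖EU e2‖ ≤ EU (fun σ => s ^ 5 *
      ((40 * τ σ ^ 2 + 16 * Γ σ * τ σ + 49 * Λ σ ^ 4 * Γ σ ^ 2 / n) * ‖Ψ σ‖)) := by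
    refine (EU_norm_le _).trans (EU_mono fun σ hσ => ?_)
    simp only [e2, norm_neg]
    rw [norm_mul, norm_mul]
    have hα : ‖((α / s : ℝ) : ℂ)‖ ≤ 1 / s := by
      rw [Complex.norm_real, Real.norm_of_nonneg (by positivity)]
      exact div_le_div_of_nonneg_right hα1 hs0.le
    have hR := rhsF hn (hM σ hσ) (hG σ hσ) x y
    have hτ := (hG σ hσ).tau
    have hΓ := (hG σ hσ).gam
    have hc : 0 ≤ (40 * τ σ ^ 2 + 16 * Γ σ * τ σ + 49 * Λ σ ^ 4 * Γ σ ^ 2 / n) := by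
      have : 0 ≤ Γ σ := by linarith
      positivity
    have hR' := mul_le_mul_of_nonneg_right hR (norm_nonneg (Ψ σ))
    refine (mul_le_mul hα hR' (by positivity) (by positivity)).trans (le_of_eq ?_)
    rw [← hs2]
    field_simp
  have hb3 : ‖EU e3‖ ≤ EU (fun σ => 8 * ∑ j, ∑ k, ∑ l, ‖G σ j y‖ * ‖Ψ' σ j k l‖) := by
    refine (EU_norm_le _).trans (EU_mono fun σ hσ => ?_)
    simp only [e3, Finset.mul_sum]
    have hone := (hM σ hσ).one
    refine (norm_sum_le _ _).trans (Finset.sum_le_sum fun j _ => ?_)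
    refine (norm_sum_le _ _).trans (Finset.sum_le_sum fun k _ => ?_)
    refine (norm_sum_le _ _).trans (Finset.sum_le_sum fun l _ => ?_)
    by_cases hd : Dst x j k l
    · rw [if_pos hd, norm_mul, norm_mul, Complex.norm_real]
      exact mul_le_mul_of_nonneg_right
        (s8_abs (hone x j) (hone j k) (hone k l) (hone l x)).2 (by positivity)
    · rw [if_neg hd, norm_zero]
      positivity
  have hfin : s ^ 5 * ‖EU (fun σ => (toC (H0 σ) * G σ) x y * Ψ σ)
      + (α : ℂ) * EU (fun σ => (1 / (n : ℂ)) * (G σ).trace * G σ x y * Ψ σ)‖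
      ≤ s ^ 5 * EU (fun σ =>
          (1 / s * (Λ σ ^ 3 * τ σ + 8 * Γ σ + 40 * τ σ)
            + (40 * τ σ ^ 2 + 16 * Γ σ * τ σ + 49 * Λ σ ^ 4 * Γ σ ^ 2 / n)) * ‖Ψ σ‖
          + 8 / s ^ 5 * ∑ j, ∑ k, ∑ l, ‖G σ j y‖ * ‖Ψ' σ j k l‖
          + 4 / s ^ 5 * ∑ j, ∑ k, ∑ l, r σ j k l) := by
    have hl : s ^ 5 * ‖EU (fun σ => (toC (H0 σ) * G σ) x y * Ψ σ)
      + (α : ℂ) * EU (fun σ => (1 / (n : ℂ)) * (G σ).trace * G σ x y * Ψ σ)‖
      = ‖(s : ℂ) ^ 5 * (EU (fun σ => (toC (H0 σ) * G σ) x y * Ψ σ)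
      + (α : ℂ) * EU (fun σ => (1 / (n : ℂ)) * (G σ).trace * G σ x y * Ψ σ))‖ := by
      rw [norm_mul, norm_pow, Complex.norm_real, Real.norm_of_nonneg hs0.le]
    rw [hl, hmain, ← smul_eq_mul (s ^ 5) (EU _), ← EU_smul]
    have hsum : EU (fun σ => s ^ 5 • (
          (1 / s * (Λ σ ^ 3 * τ σ + 8 * Γ σ + 40 * τ σ)
            + (40 * τ σ ^ 2 + 16 * Γ σ * τ σ + 49 * Λ σ ^ 4 * Γ σ ^ 2 / n)) * ‖Ψ σ‖
          + 8 / s ^ 5 * ∑ j, ∑ k, ∑ l, ‖G σ j y‖ * ‖Ψ' σ j k l‖
          + 4 / s ^ 5 * ∑ j, ∑ k, ∑ l, r σ j k l))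
        = (EU (fun σ => (n : ℝ) ^ 2 * (Λ σ ^ 3 * τ σ + 8 * Γ σ + 40 * τ σ) * ‖Ψ σ‖)
          + EU (fun σ => s ^ 5 *
            ((40 * τ σ ^ 2 + 16 * Γ σ * τ σ + 49 * Λ σ ^ 4 * Γ σ ^ 2 / n) * ‖Ψ σ‖)))
          + (EU (fun σ => 4 * ∑ j, ∑ k, ∑ l, r σ j k l)
            + EU (fun σ => 8 * ∑ j, ∑ k, ∑ l, ‖G σ j y‖ * ‖Ψ' σ j k l‖)) := by
      rw [← EU_add, ← EU_add, ← EU_add]
      refine EU_congr fun σ _ => ?_
      rw [smul_eq_mul, ← hs2]
      field_simp
      ring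
    rw [hsum]
    exact (norm_add_le _ _).trans (add_le_add ((norm_add_le _ _).trans (add_le_add hb1 hb2))
      ((norm_add_le _ _).trans (add_le_add hTs hb3)))
  exact le_of_mul_le_mul_left hfin (by positivity)

end Pool.Agent.ZR.F

end

section

/-!
# ZR/JCnt : the number of eigenvalues in an interval by Schur complements

`A` symmetric of size `N + 1`, `r > 0`, `z = x + ir`.
`Im tr Rz A z = ∑_k r/((λ_k - x)² + r²)` (`tr_spec`); every `k` with `|λ_k - x| ≤ r` contributes at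
least `r/(2r²) = 1/(2r)` and all terms are non negative, so `cntI A x r ≤ 2r Im tr Rz A z`
`= 2r ∑_i Im (Rz A z i i)` (`cntI_eq`).  And `Im (Rz A z i i) ≤ |1/w_i| ≤ 1/|Im w_i|
= 1/(r + Im q_i)` (`schur_diag`, `wd_im`, `qf_im_nonneg`).
-/


open MeasureTheory ProbabilityTheory Matrix

namespace Pool.Agent.ZR

theorem cntI_le_trace {N : ℕ} (A : Matrix (Fin N) (Fin N) ℝ) (hA : A.IsSymm)
    (x r : ℝ) (hr : 0 < r) : (cntI A x r : ℝ) ≤ 2 * r * (Rz A (⟨x, r⟩ : ℂ)).trace.im := by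
  have hz : (⟨x, r⟩ : ℂ).im ≠ 0 := hr.ne'
  rw [tr_spec A hA _ hz, Complex.im_sum, cntI_eq A hA x r]
  have hterm : ∀ k : Fin N, (1 / ((evs A k : ℂ) - (⟨x, r⟩ : ℂ))).im
      = r / ((evs A k - x) ^ 2 + r ^ 2) := by
    intro k
    rw [one_div, Complex.inv_im]
    simp only [Complex.sub_im, Complex.ofReal_im, zero_sub, neg_neg, Complex.normSq_apply,
      Complex.sub_re, Complex.ofReal_re]
    congr 1
    ring
  rw [Finset.mul_sum]
  have h1 : ∀ k : Fin N, 0 ≤ 2 * r * (1 / ((evs A k : ℂ) - (⟨x, r⟩ : ℂ))).im := by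
    intro k
    rw [hterm k]
    positivity
  refine le_trans ?_ (Finset.sum_le_sum_of_subset_of_nonneg
    (Finset.filter_subset (fun i : Fin N => |evs A i - x| ≤ r) Finset.univ) (fun k _ _ => h1 k))
  rw [Finset.card_eq_sum_ones]
  push_cast
  refine Finset.sum_le_sum fun k hk => ?_
  rw [hterm k]
  have hk' : |evs A k - x| ≤ r := (Finset.mem_filter.1 hk).2
  have hsq : (evs A k - x) ^ 2 ≤ r ^ 2 := by
    rw [← sq_abs]
    exact pow_le_pow_left₀ (abs_nonneg _) hk' 2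
  have hpos : 0 < (evs A k - x) ^ 2 + r ^ 2 := by positivity
  rw [← mul_div_assoc, le_div_iff₀ hpos]
  nlinarith

theorem cntI_le_schur {N : ℕ} (A : Matrix (Fin (N + 1)) (Fin (N + 1)) ℝ) (hA : A.IsSymm)
    (x r : ℝ) (hr : 0 < r) :
    (cntI A x r : ℝ) ≤ 2 * r * ∑ i, 1 / (r + (qf (mino i A) (rowv i A) (⟨x, r⟩ : ℂ)).im) := by
  refine (cntI_le_trace A hA x r hr).trans ?_
  refine mul_le_mul_of_nonneg_left ?_ (by positivity)
  unfold Matrix.trace
  rw [Complex.im_sum]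
  refine Finset.sum_le_sum fun i _ => ?_
  rw [Matrix.diag_apply, schur_diag i A hA _ hr.ne']
  have hq := qf_im_nonneg (mino i A) (mino_symm i A hA) (rowv i A) (⟨x, r⟩ : ℂ) hr
  have him := wd_im i A (⟨x, r⟩ : ℂ)
  have him' : (wd i A (⟨x, r⟩ : ℂ)).im
      = -(r + (qf (mino i A) (rowv i A) (⟨x, r⟩ : ℂ)).im) := him
  have hpos : 0 < r + (qf (mino i A) (rowv i A) (⟨x, r⟩ : ℂ)).im := by linarith
  have h1 : (1 / wd i A (⟨x, r⟩ : ℂ)).im ≤ ‖1 / wd i A (⟨x, r⟩ : ℂ)‖ :=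
    (le_abs_self _).trans (Complex.abs_im_le_norm _)
  refine h1.trans ?_
  rw [norm_div, norm_one]
  have h2 : r + (qf (mino i A) (rowv i A) (⟨x, r⟩ : ℂ)).im ≤ ‖wd i A (⟨x, r⟩ : ℂ)‖ := by
    have h3 := Complex.abs_im_le_norm (wd i A (⟨x, r⟩ : ℂ))
    rw [him', abs_neg, abs_of_pos hpos] at h3
    exact h3
  exact one_div_le_one_div_of_le hpos h2

end Pool.Agent.ZR

end

section

/-!
# ZR/JInter2 : consequences of interlacing for `cntI` and `arcS`

Write `λ_k = evs A k` (`k < N + 1`), `μ_k = evs (mino i A) k` (`k < N`): `λ_k ≤ μ_k ≤ λ_{k+1}`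
(`interlace`), `λ` increasing (`evs_le_evs`).

`cntI_mino`: by `cntI_eq` the left side is the cardinality of `S = {k | |λ_k - x| ≤ r}` (a subset of
`Fin (N+1)` which is convex in the order because `λ` is increasing).  If `k, k + 1 ∈ S` then
`x - r ≤ λ_k ≤ μ_k ≤ λ_{k+1} ≤ x + r`, so `k` is counted in `cntI (mino i A) x r`.  All elements of `S`
except its maximum `K` have this property (if `k ∈ S`, `k < K` then `λ_k ≤ λ_{k+1} ≤ λ_K`).  Hence
`|S| - 1 ≤ cntI (mino i A) x r`.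

`arcS_mino`: `f(λ) = arctan((x - λ)/η)` is decreasing with values in `(-π/2, π/2)`.
`arcS A = ∑_{k ≤ N} f(λ_k)`, `arcS (mino i A) = ∑_{k<N} f(μ_k)` (`arcS_eq`), and
`f(λ_{k+1}) ≤ f(μ_k) ≤ f(λ_k)`; with `Fin.sum_univ_castSucc` and `Fin.sum_univ_succ`:
`arcS A - f(λ_0) ≤ arcS (mino i A) ≤ arcS A - f(λ_N)`.
-/


open MeasureTheory ProbabilityTheory Matrix

namespace Pool.Agent.ZR

theorem cntI_mino {N : ℕ} (i : Fin (N + 1)) (A : Matrix (Fin (N + 1)) (Fin (N + 1)) ℝ)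
    (hA : A.IsSymm) (x r : ℝ) : cntI A x r ≤ cntI (mino i A) x r + 1 := by
  rw [cntI_eq A hA, cntI_eq (mino i A) (mino_symm i A hA)]
  rcases (Finset.univ.filter (fun k : Fin (N + 1) => |evs A k - x| ≤ r)).eq_empty_or_nonempty
    with h0 | h0
  · rw [h0]
    simp
  · set S := Finset.univ.filter (fun k : Fin (N + 1) => |evs A k - x| ≤ r) with hS
    have hK : S.max' h0 ∈ S := Finset.max'_mem S h0
    have hsub : S.erase (S.max' h0) ⊆
        (Finset.univ.filter (fun k : Fin N => |evs (mino i A) k - x| ≤ r)).image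
          Fin.castSucc := by
      intro k hk
      rw [Finset.mem_erase] at hk
      have hlt : k < S.max' h0 := lt_of_le_of_ne (Finset.le_max' S k hk.2) hk.1
      have hltv : (k : ℕ) < ((S.max' h0 : Fin (N + 1)) : ℕ) := hlt
      have hKN : ((S.max' h0 : Fin (N + 1)) : ℕ) < N + 1 := (S.max' h0).2
      have hkN : (k : ℕ) < N := by omega
      rw [Finset.mem_image]
      refine ⟨⟨(k : ℕ), hkN⟩, ?_, ?_⟩
      · rw [Finset.mem_filter]
        refine ⟨Finset.mem_univ _, ?_⟩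
        have h1 := interlace i A hA k hkN
        have h2 := evs_le_evs A hA (i := (k : ℕ) + 1) (j := ((S.max' h0 : Fin (N + 1)) : ℕ))
          (by omega) hKN
        have h3 := (Finset.mem_filter.1 hk.2).2
        have h4 := (Finset.mem_filter.1 hK).2
        rw [abs_le] at h3 h4 ⊢
        simp only
        constructor
        · linarith [h1.1, h3.1]
        · linarith [h1.2, h2, h4.2]
      · exact Fin.ext rfl
    have h5 := (Finset.card_le_card hsub).trans Finset.card_image_le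
    rw [Finset.card_erase_of_mem hK] at h5
    omega

theorem arcS_mino {N : ℕ} (i : Fin (N + 1)) (A : Matrix (Fin (N + 1)) (Fin (N + 1)) ℝ)
    (hA : A.IsSymm) (x η : ℝ) (hη : 0 < η) :
    |arcS A x η - arcS (mino i A) x η| < Real.pi / 2 := by
  rw [arcS_eq A hA, arcS_eq (mino i A) (mino_symm i A hA)]
  have hmono : ∀ u v : ℝ, u ≤ v → Real.arctan ((x - v) / η) ≤ Real.arctan ((x - u) / η) := by
    intro u v huv
    apply Real.arctan_mono
    apply div_le_div_of_nonneg_right _ hη.le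
    linarith
  have h1 : ∑ k : Fin N, Real.arctan ((x - evs (mino i A) k) / η) ≤
      ∑ k : Fin N, Real.arctan ((x - evs A ((Fin.castSucc k : Fin (N + 1)) : ℕ)) / η) := by
    apply Finset.sum_le_sum
    intro k _
    exact hmono _ _ (interlace i A hA k k.2).1
  have h2 : ∑ k : Fin N, Real.arctan ((x - evs A ((Fin.succ k : Fin (N + 1)) : ℕ)) / η) ≤
      ∑ k : Fin N, Real.arctan ((x - evs (mino i A) k) / η) := by
    apply Finset.sum_le_sum
    intro k _
    rw [Fin.val_succ]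
    exact hmono _ _ (interlace i A hA k k.2).2
  have h3 := Fin.sum_univ_castSucc (fun k : Fin (N + 1) => Real.arctan ((x - evs A k) / η))
  have h4 := Fin.sum_univ_succ (fun k : Fin (N + 1) => Real.arctan ((x - evs A k) / η))
  have h5 := Real.arctan_lt_pi_div_two ((x - evs A ((0 : Fin (N + 1)) : ℕ)) / η)
  have h6 := Real.neg_pi_div_two_lt_arctan ((x - evs A ((Fin.last N : Fin (N + 1)) : ℕ)) / η)
  rw [abs_lt]
  constructor
  · rw [h3]
    linarith
  · rw [h4]
    linarith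

end Pool.Agent.ZR

end

section

/-!
# ZR/JArc : exact bordering formula for the smoothed counting function

Let `z = x + iη`, `η > 0`, `A` symmetric of size `N + 1`, `M = mino i A`, `w = wd i A z = p - iy`,
`y = -Im w = η + Im q > 0` (`wd_im`, `qf_im_nonneg`).  Then `arcS A x η = arcS M x η - arctan(p/y)`.

Proof.  `det(toC A - z) = ∏_{k ≤ N} (λ_k - z)` (eigenvalues `λ_k = evs A k`: `det(U (diag(λ) - z) Uᵀ)`,
or from the characteristic polynomial `A.charpoly = ∏ (X - C λ)` mapped to `ℂ` and evaluated at `z`;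
similarly for `M` with `μ_k`).  By `schur_det`: `∏_{k ≤ N}(λ_k - z) = (p - iy) ∏_{k<N}(μ_k - z)`.
Since `λ - z = (λ - x) - iη = -i (η + i(λ - x))` and `p - iy = -i (y + ip)`, dividing by `(-i)^{N+1}`:
`∏_{k ≤ N} (η + i(λ_k - x)) = (y + ip) ∏_{k<N} (η + i(μ_k - x))`.
For `η > 0`: `η + iu = √(η²+u²) exp(i arctan(u/η))`
(cos and sin of arctan: `Real.cos_arctan`, `Real.sin_arctan`, or `Complex.arg` of a number with
positive real part).  Hence, dividing by the (positive) moduli,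
`exp(i ∑ arctan((λ_k-x)/η)) = exp(i (arctan(p/y) + ∑ arctan((μ_k-x)/η)))`, i.e. by `arcS_eq` and
oddness of arctan: `exp(-i arcS A) = exp(i(arctan(p/y) - arcS M))`.  So
`arcS A - arcS M + arctan(p/y) = 2π m` with `m ∈ ℤ` (`Complex.exp_eq_exp_iff_exists_int`); the left side
has absolute value `< π/2 + π/2 = π` by `arcS_mino` and `|arctan| < π/2`, hence `m = 0`.
-/


open MeasureTheory ProbabilityTheory Matrix

namespace Pool.Agent.ZR

private lemma det_sub85 {N : ℕ} (A : Matrix (Fin N) (Fin N) ℝ) (hA : A.IsSymm) (z : ℂ) :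
    (toC A - z • (1 : Matrix (Fin N) (Fin N) ℂ)).det = ∏ k : Fin N, ((evs A k : ℂ) - z) := by
  obtain ⟨U, h1, h2, h3⟩ := spec_dec A hA
  have hmul : ∀ B C : Matrix (Fin N) (Fin N) ℝ, toC (B * C) = toC B * toC C := by
    intro B C
    unfold toC
    ext i j
    simp [Matrix.mul_apply, Matrix.map_apply]
  have hone : toC (1 : Matrix (Fin N) (Fin N) ℝ) = 1 := by
    unfold toC
    ext i j
    by_cases h : i = j
    · subst h; simp
    · simp [Matrix.one_apply, h]
  have hdiag : ∀ d : Fin N → ℝ, toC (Matrix.diagonal d) = Matrix.diagonal (fun i => (d i : ℂ)) := by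
    intro d
    unfold toC
    ext i j
    by_cases h : i = j
    · subst h; simp
    · simp [Matrix.diagonal_apply, h]
  have e1 : toC U * toC Uᵀ = 1 := by rw [← hmul, h1, hone]
  have e3 : toC A - z • (1 : Matrix (Fin N) (Fin N) ℂ)
      = toC U * Matrix.diagonal (fun k : Fin N => (evs A k : ℂ) - z) * toC Uᵀ := by
    have : Matrix.diagonal (fun k : Fin N => (evs A k : ℂ) - z)
        = Matrix.diagonal (fun k : Fin N => (evs A k : ℂ)) - z • (1 : Matrix (Fin N) (Fin N) ℂ) := by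
      ext i j
      by_cases h : i = j
      · subst h; simp
      · simp [Matrix.diagonal_apply, Matrix.one_apply, h]
    rw [this, Matrix.mul_sub, Matrix.sub_mul, Matrix.mul_smul, Matrix.smul_mul, Matrix.mul_one, e1]
    congr 1
    conv_lhs => rw [h3]
    rw [hmul, hmul, hdiag]
  rw [e3, Matrix.det_mul, Matrix.det_mul, Matrix.det_diagonal]
  have e4 : (toC U).det * (toC Uᵀ).det = 1 := by rw [← Matrix.det_mul, e1, Matrix.det_one]
  calc (toC U).det * (∏ k : Fin N, ((evs A k : ℂ) - z)) * (toC Uᵀ).det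
      = ((toC U).det * (toC Uᵀ).det) * ∏ k : Fin N, ((evs A k : ℂ) - z) := by ring
    _ = _ := by rw [e4, one_mul]

private lemma polar85 (y p : ℝ) (hy : 0 < y) :
    ((y : ℂ) + p * Complex.I)
      = (Real.sqrt (y ^ 2 + p ^ 2) : ℂ) * Complex.exp ((Real.arctan (p / y) : ℂ) * Complex.I) := by
  have h1 : Real.sqrt (y ^ 2 + p ^ 2) = y * Real.sqrt (1 + (p / y) ^ 2) := by
    have : y ^ 2 + p ^ 2 = y ^ 2 * (1 + (p / y) ^ 2) := by field_simp
    rw [this, Real.sqrt_mul (by positivity), Real.sqrt_sq hy.le]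
  have h2 : 0 < Real.sqrt (1 + (p / y) ^ 2) := Real.sqrt_pos.2 (by positivity)
  rw [Complex.exp_mul_I, ← Complex.ofReal_cos, ← Complex.ofReal_sin, Real.cos_arctan,
    Real.sin_arctan, h1]
  apply Complex.ext
  · simp
    field_simp
  · simp
    field_simp

private lemma exp_eq85 (r1 r2 t1 t2 : ℝ) (h1 : 0 < r1) (h2 : 0 < r2)
    (h : (r1 : ℂ) * Complex.exp ((t1 : ℂ) * Complex.I)
      = (r2 : ℂ) * Complex.exp ((t2 : ℂ) * Complex.I)) :
    ∃ m : ℤ, t1 = t2 + m * (2 * Real.pi) := by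
  have h3 : r1 = r2 := by
    have := congrArg norm h
    rw [norm_mul, norm_mul, Complex.norm_exp_ofReal_mul_I, Complex.norm_exp_ofReal_mul_I,
      Complex.norm_real, Complex.norm_real, Real.norm_of_nonneg h1.le,
      Real.norm_of_nonneg h2.le, mul_one, mul_one] at this
    exact this
  rw [h3] at h
  have h4 := mul_left_cancel₀ (Complex.ofReal_ne_zero.2 h2.ne') h
  obtain ⟨m, hm⟩ := Complex.exp_eq_exp_iff_exists_int.1 h4
  refine ⟨m, ?_⟩
  have h5 : ((t1 : ℂ)) * Complex.I = ((t2 + m * (2 * Real.pi) : ℝ) : ℂ) * Complex.I := by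
    rw [hm]; push_cast; ring
  have h6 := mul_right_cancel₀ Complex.I_ne_zero h5
  exact_mod_cast h6

private lemma prod_polar85 {N : ℕ} (f : Fin N → ℝ) (η : ℝ) (hη : 0 < η) :
    ∏ k, ((η : ℂ) + (f k : ℂ) * Complex.I)
      = ((∏ k, Real.sqrt (η ^ 2 + f k ^ 2) : ℝ) : ℂ)
        * Complex.exp (((∑ k, Real.arctan (f k / η) : ℝ) : ℂ) * Complex.I) := by
  rw [Complex.ofReal_prod, Complex.ofReal_sum, Finset.sum_mul, Complex.exp_sum,
    ← Finset.prod_mul_distrib]
  exact Finset.prod_congr rfl fun k _ => by rw [polar85 η (f k) hη]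

theorem arcS_schur {N : ℕ} (i : Fin (N + 1)) (A : Matrix (Fin (N + 1)) (Fin (N + 1)) ℝ)
    (hA : A.IsSymm) (x η : ℝ) (hη : 0 < η) :
    arcS A x η = arcS (mino i A) x η
      - Real.arctan ((wd i A (⟨x, η⟩ : ℂ)).re / (-(wd i A (⟨x, η⟩ : ℂ)).im)) := by
  have hM := mino_symm i A hA
  set z : ℂ := ⟨x, η⟩ with hz
  have hzim : z.im = η := rfl
  set p : ℝ := (wd i A z).re with hp
  set y : ℝ := -(wd i A z).im with hy
  have hy0 : 0 < y := by
    rw [hy, wd_im, neg_neg, hzim]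
    have := qf_im_nonneg (mino i A) hM (rowv i A) z (by rw [hzim]; exact hη)
    linarith
  have hw : wd i A z = (-Complex.I) * ((y : ℂ) + (p : ℂ) * Complex.I) := by
    apply Complex.ext
    · simp [hp]
    · simp [hy]
  have hfac : ∀ l : ℝ, ((l : ℂ) - z)
      = (-Complex.I) * ((η : ℂ) + ((l - x : ℝ) : ℂ) * Complex.I) := by
    intro l
    apply Complex.ext
    · simp [hz]
    · simp [hz]
  have hdet := schur_det i A hA z (by rw [hzim]; exact hη.ne')
  rw [det_sub85 A hA z, det_sub85 (mino i A) hM z, hw] at hdet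
  simp_rw [hfac, Finset.prod_mul_distrib, Finset.prod_const, Finset.card_univ, Fintype.card_fin]
    at hdet
  have hI : (-Complex.I) ^ (N + 1) ≠ 0 := pow_ne_zero _ (neg_ne_zero.2 Complex.I_ne_zero)
  have h1 : ∏ k : Fin (N + 1), ((η : ℂ) + ((evs A k - x : ℝ) : ℂ) * Complex.I)
      = ((y : ℂ) + (p : ℂ) * Complex.I)
        * ∏ k : Fin N, ((η : ℂ) + ((evs (mino i A) k - x : ℝ) : ℂ) * Complex.I) := by
    apply mul_left_cancel₀ hI
    rw [hdet]; ring
  rw [prod_polar85 (fun k : Fin (N + 1) => evs A k - x) η hη,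
    prod_polar85 (fun k : Fin N => evs (mino i A) k - x) η hη, polar85 y p hy0] at h1
  have h2 : ((∏ k : Fin (N + 1), Real.sqrt (η ^ 2 + (evs A k - x) ^ 2) : ℝ) : ℂ)
        * Complex.exp (((∑ k : Fin (N + 1), Real.arctan ((evs A k - x) / η) : ℝ) : ℂ) * Complex.I)
      = ((Real.sqrt (y ^ 2 + p ^ 2)
          * ∏ k : Fin N, Real.sqrt (η ^ 2 + (evs (mino i A) k - x) ^ 2) : ℝ) : ℂ)
        * Complex.exp (((Real.arctan (p / y)
          + ∑ k : Fin N, Real.arctan ((evs (mino i A) k - x) / η) : ℝ) : ℂ) * Complex.I) := by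
    rw [h1, Complex.ofReal_add, add_mul, Complex.exp_add, Complex.ofReal_mul]
    ring
  have hpos1 : 0 < ∏ k : Fin (N + 1), Real.sqrt (η ^ 2 + (evs A k - x) ^ 2) :=
    Finset.prod_pos fun k _ => Real.sqrt_pos.2 (by positivity)
  have hpos2 : 0 < Real.sqrt (y ^ 2 + p ^ 2)
      * ∏ k : Fin N, Real.sqrt (η ^ 2 + (evs (mino i A) k - x) ^ 2) :=
    mul_pos (Real.sqrt_pos.2 (by positivity))
      (Finset.prod_pos fun k _ => Real.sqrt_pos.2 (by positivity))
  obtain ⟨m, hm⟩ := exp_eq85 _ _ _ _ hpos1 hpos2 h2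
  have hneg : ∀ {K : ℕ} (B : Matrix (Fin K) (Fin K) ℝ), B.IsSymm →
      ∑ k : Fin K, Real.arctan ((evs B k - x) / η) = - arcS B x η := by
    intro K B hB
    rw [arcS_eq B hB, ← Finset.sum_neg_distrib]
    refine Finset.sum_congr rfl fun k _ => ?_
    rw [← Real.arctan_neg]
    congr 1
    ring
  rw [hneg A hA, hneg (mino i A) hM] at hm
  have hb := arcS_mino i A hA x η hη
  have ha1 := Real.arctan_lt_pi_div_two (p / y)
  have ha2 := Real.neg_pi_div_two_lt_arctan (p / y)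
  rw [abs_lt] at hb
  have hpi := Real.pi_pos
  have hm0 : m = 0 := by
    have h3 : |(m : ℝ)| < 1 := by
      rw [abs_lt]
      constructor
      · nlinarith
      · nlinarith
    have h4 : |m| < 1 := by exact_mod_cast h3
    exact Int.abs_lt_one_iff.1 h4
  rw [hm0] at hm
  push_cast at hm
  linarith

end Pool.Agent.ZR

end

section

/-!
# ZR/JDet : deterministic bounds from the Schur formulas

Notation: `A` symmetric of size `N + 1`, `M = mino i A`, `q = qf M (rowv i A) z`, `η = z.im > 0`,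
`w = wd i A z`, `Im w = -(η + Im q)`, `Im q ≥ 0` (`wd_im`, `qf_im_nonneg`), `|w| ≥ η + Im q ≥ η`,
`tr Rz A z - tr Rz M z = (1 + qf2)/w` (`schur_trace`), `|1 + qf2| ≤ 1 + Im q/η` (`one_add_qf2_le`),
`Im q ≤ ‖q‖`.
* `bord_triv`: `(1 + Im q/η)/(η + Im q) = 1/η`.
* `bord_le` (`|A_ii - z.re| ≥ p > 0`): if `‖q‖ ≤ p/2` then `|w| ≥ |Re w| = |A_ii - z.re - Re q| ≥ p/2`
  (`wd_re`), so the bound is `(2/p)(1 + ‖q‖/η)`; if `‖q‖ > p/2`, then by `bord_triv`
  `1/η ≤ (2/p)‖q‖/η`.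
* Two matrices `A, A'` which differ only in the entry `ii` (`mino i A' = mino i A`,
  `rowv i A' = rowv i A`): same `q`, `qf2`, `w' - w = A'_ii - A_ii =: h`, and
  `tr Rz A' - tr Rz A = (1 + qf2)(1/w' - 1/w) = -(1 + qf2) h/(w w')`.
  `step_trace` (`|Re w|, |Re w'| ≥ p`), `step_trace_triv` (`|w|, |w'| ≥ η + Im q`:
  `(η + Im q)/(η (η+Im q)²) ≤ 1/η²`).
* `arcS A' - arcS A = arctan(Re w/y) - arctan(Re w'/y)`, `y = η + Im q` the same for both
  (`arcS_schur`).  `step_arc_triv`: arctan is 1-Lipschitz, `|Re w - Re w'|/y ≤ |h|/η`.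
  `step_arc`: if both `Re w, Re w' ≥ p` (or both `≤ -p`): `arctan(u) = π/2 - arctan(1/u)` for `u > 0`
  (`Real.arctan_inv_of_pos`), so the difference is `|arctan(y/Re w) - arctan(y/Re w')|
  ≤ |y/Re w - y/Re w'| ≤ y |h|/p²`, and `y ≤ η + ‖q‖`.  The negative case by oddness.
-/


open MeasureTheory ProbabilityTheory Matrix

namespace Pool.Agent.ZR

private theorem jdet_arctan (u v : ℝ) : |Real.arctan u - Real.arctan v| ≤ |u - v| := by
  have h := Convex.norm_image_sub_le_of_norm_hasDerivWithin_le (f := Real.arctan)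
    (f' := fun x => 1 / (1 + x ^ 2)) (s := Set.univ) (C := 1) (x := v) (y := u)
    (fun x _ => (Real.hasDerivAt_arctan x).hasDerivWithinAt) (fun x _ => by
      rw [Real.norm_eq_abs, abs_of_nonneg (by positivity), div_le_one (by positivity)]
      nlinarith [sq_nonneg x]) convex_univ (Set.mem_univ _) (Set.mem_univ _)
  simpa [Real.norm_eq_abs] using h

private theorem jdet_low {N : ℕ} (i : Fin (N + 1)) (A : Matrix (Fin (N + 1)) (Fin (N + 1)) ℝ)
    (z : ℂ) : z.im + (qf (mino i A) (rowv i A) z).im ≤ ‖wd i A z‖ := by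
  have h := Complex.abs_im_le_norm (wd i A z)
  rw [wd_im, abs_neg] at h
  exact (le_abs_self _).trans h

private theorem jdet_num {N : ℕ} (i : Fin (N + 1)) (A : Matrix (Fin (N + 1)) (Fin (N + 1)) ℝ)
    (hA : A.IsSymm) (z : ℂ) (hz : 0 < z.im) :
    ‖1 + qf2 (mino i A) (rowv i A) z‖
      ≤ (z.im + (qf (mino i A) (rowv i A) z).im) / z.im := by
  have h := one_add_qf2_le (mino i A) (mino_symm i A hA) (rowv i A) z hz
  have h2 : (z.im + (qf (mino i A) (rowv i A) z).im) / z.im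
      = 1 + (qf (mino i A) (rowv i A) z).im / z.im := by
    rw [add_div, div_self hz.ne']
  rw [h2]
  exact h

private theorem jdet_diff {N : ℕ} (i : Fin (N + 1)) (A A' : Matrix (Fin (N + 1)) (Fin (N + 1)) ℝ)
    (hA : A.IsSymm) (hA' : A'.IsSymm) (h1 : mino i A' = mino i A) (h2 : rowv i A' = rowv i A)
    (z : ℂ) (hz : 0 < z.im) :
    ‖(Rz A' z).trace - (Rz A z).trace‖
      ≤ (z.im + (qf (mino i A) (rowv i A) z).im) / z.im * |A' i i - A i i|
        / (‖wd i A z‖ * ‖wd i A' z‖) := by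
  have hw := wd_ne_zero i A hA z hz.ne'
  have hw' := wd_ne_zero i A' hA' z hz.ne'
  have e : (Rz A' z).trace - (Rz A z).trace
      = (1 + qf2 (mino i A) (rowv i A) z) * (((A i i - A' i i : ℝ)) : ℂ)
        / (wd i A z * wd i A' z) := by
    rw [schur_trace i A' hA' z hz.ne', schur_trace i A hA z hz.ne', h1, h2]
    have e2 : wd i A z - wd i A' z = (((A i i - A' i i : ℝ)) : ℂ) := by
      unfold wd
      rw [h1, h2]
      push_cast
      ring
    rw [← e2]
    field_simp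
    ring
  rw [e, norm_div, norm_mul, norm_mul, Complex.norm_real, Real.norm_eq_abs, abs_sub_comm]
  refine div_le_div_of_nonneg_right ?_ (by positivity)
  exact mul_le_mul_of_nonneg_right (jdet_num i A hA z hz) (abs_nonneg _)

theorem bord_triv {N : ℕ} (i : Fin (N + 1)) (A : Matrix (Fin (N + 1)) (Fin (N + 1)) ℝ)
    (hA : A.IsSymm) (z : ℂ) (hz : 0 < z.im) :
    ‖(Rz A z).trace - (Rz (mino i A) z).trace‖ ≤ 1 / z.im := by
  have hq := qf_im_nonneg (mino i A) (mino_symm i A hA) (rowv i A) z hz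
  have hl := jdet_low i A z
  have hn := jdet_num i A hA z hz
  have hpos : 0 < z.im + (qf (mino i A) (rowv i A) z).im := by linarith
  rw [schur_trace i A hA z hz.ne', add_sub_cancel_left, norm_div]
  calc ‖1 + qf2 (mino i A) (rowv i A) z‖ / ‖wd i A z‖
      ≤ ((z.im + (qf (mino i A) (rowv i A) z).im) / z.im)
        / (z.im + (qf (mino i A) (rowv i A) z).im) := by
        refine div_le_div₀ (by positivity) hn hpos hl
    _ = 1 / z.im := by
        field_simp

theorem bord_le {N : ℕ} (i : Fin (N + 1)) (A : Matrix (Fin (N + 1)) (Fin (N + 1)) ℝ)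
    (hA : A.IsSymm) (z : ℂ) (hz : 0 < z.im) (p : ℝ) (hp : 0 < p) (h : p ≤ |A i i - z.re|) :
    ‖(Rz A z).trace - (Rz (mino i A) z).trace‖
      ≤ (2 / p) * (1 + ‖qf (mino i A) (rowv i A) z‖ / z.im) := by
  have hq := qf_im_nonneg (mino i A) (mino_symm i A hA) (rowv i A) z hz
  have hn := jdet_num i A hA z hz
  set q := qf (mino i A) (rowv i A) z with hqd
  have hqn : q.im ≤ ‖q‖ := (le_abs_self _).trans (Complex.abs_im_le_norm q)
  by_cases hc : ‖q‖ ≤ p / 2
  · have hre : |q.re| ≤ p / 2 := (Complex.abs_re_le_norm q).trans hc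
    have hw : p / 2 ≤ ‖wd i A z‖ := by
      refine le_trans ?_ (Complex.abs_re_le_norm (wd i A z))
      rw [wd_re, ← hqd]
      have h3 := abs_sub_abs_le_abs_sub (A i i - z.re) q.re
      linarith
    rw [schur_trace i A hA z hz.ne', add_sub_cancel_left, norm_div]
    calc ‖1 + qf2 (mino i A) (rowv i A) z‖ / ‖wd i A z‖
        ≤ ((z.im + q.im) / z.im) / (p / 2) := by
          refine div_le_div₀ (div_nonneg (by linarith) hz.le) hn (by positivity) hw
      _ = (2 / p) * (1 + q.im / z.im) := by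
          field_simp
      _ ≤ (2 / p) * (1 + ‖q‖ / z.im) := by
          refine mul_le_mul_of_nonneg_left ?_ (by positivity)
          have := div_le_div_of_nonneg_right hqn hz.le
          linarith
  · have hc' : p / 2 < ‖q‖ := not_le.1 hc
    refine (bord_triv i A hA z hz).trans ?_
    have h4 : 1 / z.im ≤ (2 / p) * (‖q‖ / z.im) := by
      rw [div_mul_div_comm, div_le_div_iff₀ hz (by positivity)]
      nlinarith
    have h5 : 0 ≤ 2 / p := by positivity
    nlinarith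

theorem step_trace {N : ℕ} (i : Fin (N + 1)) (A A' : Matrix (Fin (N + 1)) (Fin (N + 1)) ℝ)
    (hA : A.IsSymm) (hA' : A'.IsSymm) (h1 : mino i A' = mino i A) (h2 : rowv i A' = rowv i A)
    (z : ℂ) (hz : 0 < z.im) (p : ℝ) (hp : 0 < p) (h3 : p ≤ |(wd i A z).re|)
    (h4 : p ≤ |(wd i A' z).re|) :
    ‖(Rz A' z).trace - (Rz A z).trace‖
      ≤ |A' i i - A i i| * (1 + ‖qf (mino i A) (rowv i A) z‖ / z.im) / p ^ 2 := by
  have hq := qf_im_nonneg (mino i A) (mino_symm i A hA) (rowv i A) z hz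
  have hd := jdet_diff i A A' hA hA' h1 h2 z hz
  set q := qf (mino i A) (rowv i A) z with hqd
  have hqn : q.im ≤ ‖q‖ := (le_abs_self _).trans (Complex.abs_im_le_norm q)
  have hw : p ≤ ‖wd i A z‖ := h3.trans (Complex.abs_re_le_norm _)
  have hw' : p ≤ ‖wd i A' z‖ := h4.trans (Complex.abs_re_le_norm _)
  refine hd.trans ?_
  refine div_le_div₀ ?_ ?_ (by positivity) ?_
  · have : 0 ≤ 1 + ‖q‖ / z.im := by positivity
    exact mul_nonneg (abs_nonneg _) this
  · rw [mul_comm]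
    refine mul_le_mul_of_nonneg_left ?_ (abs_nonneg _)
    rw [add_div, div_self hz.ne']
    have := div_le_div_of_nonneg_right hqn hz.le
    linarith
  · rw [pow_two]
    exact mul_le_mul hw hw' hp.le (norm_nonneg _)

theorem step_trace_triv {N : ℕ} (i : Fin (N + 1)) (A A' : Matrix (Fin (N + 1)) (Fin (N + 1)) ℝ)
    (hA : A.IsSymm) (hA' : A'.IsSymm) (h1 : mino i A' = mino i A) (h2 : rowv i A' = rowv i A)
    (z : ℂ) (hz : 0 < z.im) :
    ‖(Rz A' z).trace - (Rz A z).trace‖ ≤ |A' i i - A i i| / z.im ^ 2 := by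
  have hq := qf_im_nonneg (mino i A) (mino_symm i A hA) (rowv i A) z hz
  have hd := jdet_diff i A A' hA hA' h1 h2 z hz
  have hl := jdet_low i A z
  have hl' := jdet_low i A' z
  rw [h1, h2] at hl'
  set q := qf (mino i A) (rowv i A) z with hqd
  have hpos : 0 < z.im + q.im := by linarith
  refine hd.trans ?_
  calc (z.im + q.im) / z.im * |A' i i - A i i| / (‖wd i A z‖ * ‖wd i A' z‖)
      ≤ (z.im + q.im) / z.im * |A' i i - A i i| / ((z.im + q.im) * z.im) := by
        refine div_le_div_of_nonneg_left (by positivity) (by positivity) ?_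
        refine mul_le_mul hl (by linarith) hz.le (norm_nonneg _)
    _ = |A' i i - A i i| / z.im ^ 2 := by
        field_simp

private theorem jdet_arc {N : ℕ} (i : Fin (N + 1)) (A A' : Matrix (Fin (N + 1)) (Fin (N + 1)) ℝ)
    (hA : A.IsSymm) (hA' : A'.IsSymm) (h1 : mino i A' = mino i A) (h2 : rowv i A' = rowv i A)
    (x η : ℝ) (hη : 0 < η) :
    ∃ y : ℝ, η ≤ y ∧ y ≤ η + ‖qf (mino i A) (rowv i A) (⟨x, η⟩ : ℂ)‖ ∧
      arcS A' x η - arcS A x η = Real.arctan ((wd i A (⟨x, η⟩ : ℂ)).re / y)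
        - Real.arctan ((wd i A' (⟨x, η⟩ : ℂ)).re / y) ∧
      (wd i A' (⟨x, η⟩ : ℂ)).re - (wd i A (⟨x, η⟩ : ℂ)).re = A' i i - A i i := by
  have hz : 0 < (⟨x, η⟩ : ℂ).im := hη
  have hq := qf_im_nonneg (mino i A) (mino_symm i A hA) (rowv i A) (⟨x, η⟩ : ℂ) hz
  have hqn : (qf (mino i A) (rowv i A) (⟨x, η⟩ : ℂ)).im ≤ ‖qf (mino i A) (rowv i A) (⟨x, η⟩ : ℂ)‖ :=
    (le_abs_self _).trans (Complex.abs_im_le_norm _)
  refine ⟨η + (qf (mino i A) (rowv i A) (⟨x, η⟩ : ℂ)).im, by linarith, by linarith, ?_, ?_⟩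
  · rw [arcS_schur i A' hA' x η hη, arcS_schur i A hA x η hη, h1, wd_im, wd_im, h1, h2]
    simp only [neg_neg]
    ring
  · rw [wd_re, wd_re, h1, h2]
    ring

theorem step_arc {N : ℕ} (i : Fin (N + 1)) (A A' : Matrix (Fin (N + 1)) (Fin (N + 1)) ℝ)
    (hA : A.IsSymm) (hA' : A'.IsSymm) (h1 : mino i A' = mino i A) (h2 : rowv i A' = rowv i A)
    (x η : ℝ) (hη : 0 < η) (p : ℝ) (hp : 0 < p)
    (h3 : (p ≤ (wd i A (⟨x, η⟩ : ℂ)).re ∧ p ≤ (wd i A' (⟨x, η⟩ : ℂ)).re) ∨
      ((wd i A (⟨x, η⟩ : ℂ)).re ≤ -p ∧ (wd i A' (⟨x, η⟩ : ℂ)).re ≤ -p)) :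
    |arcS A' x η - arcS A x η|
      ≤ |A' i i - A i i| * (η + ‖qf (mino i A) (rowv i A) (⟨x, η⟩ : ℂ)‖) / p ^ 2 := by
  obtain ⟨y, hy1, hy2, hy3, hy4⟩ := jdet_arc i A A' hA hA' h1 h2 x η hη
  set a := (wd i A (⟨x, η⟩ : ℂ)).re with ha
  set a' := (wd i A' (⟨x, η⟩ : ℂ)).re with ha'
  have hy0 : 0 < y := lt_of_lt_of_le hη hy1
  have key : ∀ b b' : ℝ, p ≤ b → p ≤ b' →
      |Real.arctan (b / y) - Real.arctan (b' / y)| ≤ |b' - b| * y / p ^ 2 := by
    intro b b' hb hb'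
    have hb0 : 0 < b := lt_of_lt_of_le hp hb
    have hb0' : 0 < b' := lt_of_lt_of_le hp hb'
    have e1 : Real.arctan (b / y) = Real.pi / 2 - Real.arctan (y / b) := by
      rw [← Real.arctan_inv_of_pos (div_pos hy0 hb0), inv_div]
    have e2 : Real.arctan (b' / y) = Real.pi / 2 - Real.arctan (y / b') := by
      rw [← Real.arctan_inv_of_pos (div_pos hy0 hb0'), inv_div]
    have e3 : Real.arctan (b / y) - Real.arctan (b' / y)
        = Real.arctan (y / b') - Real.arctan (y / b) := by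
      rw [e1, e2]
      ring
    rw [e3]
    refine (jdet_arctan _ _).trans ?_
    have e4 : y / b' - y / b = (b - b') * y / (b' * b) := by
      field_simp
    rw [e4, abs_div, abs_mul, abs_of_pos hy0, abs_of_pos (mul_pos hb0' hb0), abs_sub_comm]
    refine div_le_div_of_nonneg_left (by positivity) (by positivity) ?_
    rw [pow_two]
    exact mul_le_mul hb' hb hp.le hb0'.le
  have hfin : |Real.arctan (a / y) - Real.arctan (a' / y)| ≤ |a' - a| * y / p ^ 2 := by
    rcases h3 with ⟨hb, hb'⟩ | ⟨hb, hb'⟩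
    · exact key a a' hb hb'
    · have h5 := key (-a) (-a') (by linarith) (by linarith)
      rw [neg_div, neg_div, Real.arctan_neg, Real.arctan_neg] at h5
      have e5 : -Real.arctan (a / y) - -Real.arctan (a' / y)
          = -(Real.arctan (a / y) - Real.arctan (a' / y)) := by ring
      have e6 : -a' - -a = -(a' - a) := by ring
      rw [e5, e6, abs_neg, abs_neg] at h5
      exact h5
  rw [hy3]
  refine hfin.trans ?_
  rw [hy4]
  refine div_le_div_of_nonneg_right ?_ (by positivity)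
  exact mul_le_mul_of_nonneg_left hy2 (abs_nonneg _)

theorem step_arc_triv {N : ℕ} (i : Fin (N + 1)) (A A' : Matrix (Fin (N + 1)) (Fin (N + 1)) ℝ)
    (hA : A.IsSymm) (hA' : A'.IsSymm) (h1 : mino i A' = mino i A) (h2 : rowv i A' = rowv i A)
    (x η : ℝ) (hη : 0 < η) : |arcS A' x η - arcS A x η| ≤ |A' i i - A i i| / η := by
  obtain ⟨y, hy1, hy2, hy3, hy4⟩ := jdet_arc i A A' hA hA' h1 h2 x η hη
  have hy0 : 0 < y := lt_of_lt_of_le hη hy1
  rw [hy3]
  refine (jdet_arctan _ _).trans ?_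
  rw [← sub_div, abs_div, abs_of_pos hy0, abs_sub_comm, hy4]
  exact div_le_div_of_nonneg_left (abs_nonneg _) hη hy1

end Pool.Agent.ZR

end

section

/-!
# ZR/JPath : relocation of several coordinates, one at a time (deterministic)

`mixV d d' l` has the coordinates of `d'` for `i < l` and those of `d` for `i ≥ l`; `mixV d d' 0 = d`,
`mixV d d' (N+1) = d'`, and `mixV d d' (i+1)`, `mixV d d' i` differ at most at the coordinate `i`, where
the values are `d' i` and `d i`.  So for any function `Φ` of the vector,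
`|Φ d' - Φ d| ≤ ∑_i |Φ(mixV d d' (i+1)) - Φ(mixV d d' i)|` (telescoping).  For
`A = Dw τ (mixV d d' i) X`, `A' = Dw τ (mixV d d' (i+1)) X` the hypotheses of the `step_*` lemmas (JDet)
hold: `mino i A' = mino i A` (`mino_Dw`), `rowv i A' = rowv i A` (`rowv_Dw`), `A'_ii - A_ii = d' i - d i`
(`diag_Dw`).  If `d i = d' i` the two vectors are equal and the step contributes `0`.  Otherwise, in
`path_trace` and `path_arc`: `Re w = d i + √(2τ) X_ii - x - Re q` (`wd_re`, `diag_Dw`), where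
`|√(2τ) X_ii| ≤ p`, `|Re q| ≤ ‖q‖ ≤ Q ≤ p`, so `Re w ≥ 3p - p - p = p` if `x + 3p ≤ d i` and
`Re w ≤ -p` if `d i ≤ x - 3p`; the same for `w'` with `d' i` (`q` is the same for both).
-/


open MeasureTheory ProbabilityTheory Matrix

namespace Pool.Agent.ZR

/-- the first `l` coordinates from `d'`, the others from `d` -/
def mixV {N : ℕ} (d d' : Fin N → ℝ) (l : ℕ) : Fin N → ℝ := fun i => if (i : ℕ) < l then d' i else d i

private theorem mix_zero {N : ℕ} (d d' : Fin N → ℝ) : mixV d d' 0 = d := by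
  funext j
  simp [mixV]

private theorem mix_full {N : ℕ} (d d' : Fin N → ℝ) : mixV d d' N = d' := by
  funext j
  simp [mixV, j.2]

private theorem mix_ne {N : ℕ} (d d' : Fin N → ℝ) (i j : Fin N) (h : j ≠ i) :
    mixV d d' ((i : ℕ) + 1) j = mixV d d' i j := by
  unfold mixV
  have h1 : (j : ℕ) ≠ (i : ℕ) := fun h2 => h (Fin.ext h2)
  have h3 : ((j : ℕ) < (i : ℕ) + 1) ↔ ((j : ℕ) < (i : ℕ)) := by omega
  simp only [h3]

private theorem mix_at {N : ℕ} (d d' : Fin N → ℝ) (i : Fin N) : mixV d d' i i = d i := by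
  simp [mixV]

private theorem mix_at' {N : ℕ} (d d' : Fin N → ℝ) (i : Fin N) :
    mixV d d' ((i : ℕ) + 1) i = d' i := by
  simp [mixV]

private theorem telesc {N : ℕ} {E : Type*} [SeminormedAddCommGroup E] (d d' : Fin N → ℝ)
    (Φ : (Fin N → ℝ) → E) (K : ℝ)
    (h : ∀ i : Fin N, ‖Φ (mixV d d' ((i : ℕ) + 1)) - Φ (mixV d d' i)‖ ≤ |d' i - d i| * K) :
    ‖Φ d' - Φ d‖ ≤ (∑ i, |d' i - d i|) * K := by
  have h1 : Φ d' - Φ d = ∑ l ∈ Finset.range N, (Φ (mixV d d' (l + 1)) - Φ (mixV d d' l)) := by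
    rw [Finset.sum_range_sub (fun l => Φ (mixV d d' l)), mix_zero, mix_full]
  rw [h1, Finset.sum_range]
  refine (norm_sum_le _ _).trans ?_
  rw [Finset.sum_mul]
  exact Finset.sum_le_sum fun i _ => h i

private theorem mino_mix {N : ℕ} (τ : ℝ) (d d' : Fin (N + 1) → ℝ)
    (X : Fin (N + 1) × Fin (N + 1) → ℝ) (i : Fin (N + 1)) :
    mino i (Dw τ (mixV d d' ((i : ℕ) + 1)) X) = mino i (Dw τ (mixV d d' i) X) := by
  rw [mino_Dw, mino_Dw]
  congr 1
  funext j
  exact mix_ne d d' i _ (Fin.succAbove_ne i j)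

private theorem rowv_mix {N : ℕ} (τ : ℝ) (hτ : 0 < τ) (d d' : Fin (N + 1) → ℝ)
    (X : Fin (N + 1) × Fin (N + 1) → ℝ) (i : Fin (N + 1)) :
    rowv i (Dw τ (mixV d d' ((i : ℕ) + 1)) X) = rowv i (Dw τ (mixV d d' i) X) := by
  rw [rowv_Dw i τ hτ.le, rowv_Dw i τ hτ.le]

private theorem diag_mix {N : ℕ} (τ : ℝ) (hτ : 0 < τ) (d d' : Fin (N + 1) → ℝ)
    (X : Fin (N + 1) × Fin (N + 1) → ℝ) (i : Fin (N + 1)) :
    Dw τ (mixV d d' ((i : ℕ) + 1)) X i i - Dw τ (mixV d d' i) X i i = d' i - d i := by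
  rw [diag_Dw i τ hτ.le, diag_Dw i τ hτ.le, mix_at, mix_at']
  ring

private theorem mix_same {N : ℕ} (d d' : Fin N → ℝ) (i : Fin N) (h : d i = d' i) :
    mixV d d' ((i : ℕ) + 1) = mixV d d' i := by
  funext j
  by_cases hj : j = i
  · subst hj
    rw [mix_at, mix_at', h]
  · exact mix_ne d d' i j hj

/-- real part of the Schur denominators on both sides of a step -/
private theorem re_wd {N : ℕ} (τ : ℝ) (hτ : 0 < τ) (d d' : Fin (N + 1) → ℝ)
    (X : Fin (N + 1) × Fin (N + 1) → ℝ) (z : ℂ) (p Q : ℝ)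
    (hQ : Q ≤ p) (i : Fin (N + 1))
    (hq : ‖qf (mino i (Dw τ (mixV d d' i) X)) (rowv i (Dw τ (mixV d d' i) X)) z‖ ≤ Q)
    (hX : Real.sqrt (2 * τ) * |X (i, i)| ≤ p) :
    |(wd i (Dw τ (mixV d d' i) X) z).re - (d i - z.re)| ≤ 2 * p ∧
    |(wd i (Dw τ (mixV d d' ((i : ℕ) + 1)) X) z).re - (d' i - z.re)| ≤ 2 * p := by
  have h1 : |Real.sqrt (2 * τ) * X (i, i)| ≤ p := by
    rw [abs_mul, abs_of_nonneg (Real.sqrt_nonneg _)]
    exact hX
  have h2 : |(qf (mino i (Dw τ (mixV d d' i) X)) (rowv i (Dw τ (mixV d d' i) X)) z).re| ≤ p :=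
    (Complex.abs_re_le_norm _).trans (hq.trans hQ)
  rw [wd_re, wd_re, mino_mix, rowv_mix τ hτ, diag_Dw i τ hτ.le, diag_Dw i τ hτ.le, mix_at, mix_at']
  rw [abs_le] at h1 h2
  constructor
  · rw [abs_le]
    constructor <;> linarith [h1.1, h1.2, h2.1, h2.2]
  · rw [abs_le]
    constructor <;> linarith [h1.1, h1.2, h2.1, h2.2]

private theorem re_cases {N : ℕ} (τ : ℝ) (hτ : 0 < τ) (d d' : Fin (N + 1) → ℝ)
    (X : Fin (N + 1) × Fin (N + 1) → ℝ) (z : ℂ) (p Q : ℝ)
    (hQ : Q ≤ p) (i : Fin (N + 1))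
    (hq : ‖qf (mino i (Dw τ (mixV d d' i) X)) (rowv i (Dw τ (mixV d d' i) X)) z‖ ≤ Q)
    (hX : Real.sqrt (2 * τ) * |X (i, i)| ≤ p)
    (hd : (z.re + 3 * p ≤ d i ∧ z.re + 3 * p ≤ d' i) ∨
      (d i ≤ z.re - 3 * p ∧ d' i ≤ z.re - 3 * p)) :
    (p ≤ (wd i (Dw τ (mixV d d' i) X) z).re ∧
      p ≤ (wd i (Dw τ (mixV d d' ((i : ℕ) + 1)) X) z).re) ∨
    ((wd i (Dw τ (mixV d d' i) X) z).re ≤ -p ∧
      (wd i (Dw τ (mixV d d' ((i : ℕ) + 1)) X) z).re ≤ -p) := by
  obtain ⟨h1, h2⟩ := re_wd τ hτ d d' X z p Q hQ i hq hX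
  rw [abs_le] at h1 h2
  rcases hd with ⟨h3, h4⟩ | ⟨h3, h4⟩
  · left
    constructor
    · linarith [h1.1]
    · linarith [h2.1]
  · right
    constructor
    · linarith [h1.2]
    · linarith [h2.2]

theorem path_trace {N : ℕ} (τ : ℝ) (hτ : 0 < τ) (d d' : Fin (N + 1) → ℝ)
    (X : Fin (N + 1) × Fin (N + 1) → ℝ) (z : ℂ) (hz : 0 < z.im) (p Q : ℝ) (hp : 0 < p)
    (hQ : Q ≤ p)
    (hq : ∀ i : Fin (N + 1), ‖qf (mino i (Dw τ (mixV d d' i) X)) (rowv i (Dw τ (mixV d d' i) X)) z‖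
      ≤ Q)
    (hX : ∀ i, Real.sqrt (2 * τ) * |X (i, i)| ≤ p)
    (hd : ∀ i, d i = d' i ∨ (z.re + 3 * p ≤ d i ∧ z.re + 3 * p ≤ d' i) ∨
      (d i ≤ z.re - 3 * p ∧ d' i ≤ z.re - 3 * p)) :
    ‖(Rz (Dw τ d' X) z).trace - (Rz (Dw τ d X) z).trace‖
      ≤ (∑ i, |d' i - d i|) * (1 + Q / z.im) / p ^ 2 := by
  have h := telesc d d' (fun v => (Rz (Dw τ v X) z).trace) ((1 + Q / z.im) / p ^ 2) ?_
  · rw [mul_div_assoc]
    exact h
  · intro i
    have hQ0 : 0 ≤ Q := (norm_nonneg _).trans (hq i)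
    rcases hd i with h0 | hd
    · simp only [mix_same d d' i h0, sub_self, norm_zero]
      positivity
    · have h1 := step_trace i (Dw τ (mixV d d' i) X) (Dw τ (mixV d d' ((i : ℕ) + 1)) X)
        (Dw_symm _ _ _) (Dw_symm _ _ _) (mino_mix τ d d' X i) (rowv_mix τ hτ d d' X i) z hz p hp
        (by
          rcases re_cases τ hτ d d' X z p Q hQ i (hq i) (hX i) hd with h2 | h2
          · rw [abs_of_nonneg (hp.le.trans h2.1)]; exact h2.1
          · rw [abs_of_nonpos (by linarith [h2.1])]; linarith [h2.1])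
        (by
          rcases re_cases τ hτ d d' X z p Q hQ i (hq i) (hX i) hd with h2 | h2
          · rw [abs_of_nonneg (hp.le.trans h2.2)]; exact h2.2
          · rw [abs_of_nonpos (by linarith [h2.2])]; linarith [h2.2])
      refine h1.trans ?_
      rw [diag_mix τ hτ, mul_div_assoc]
      refine mul_le_mul_of_nonneg_left ?_ (abs_nonneg _)
      apply div_le_div_of_nonneg_right _ (by positivity)
      have := div_le_div_of_nonneg_right (hq i) hz.le
      linarith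

theorem path_trace_triv {N : ℕ} (τ : ℝ) (hτ : 0 < τ) (d d' : Fin (N + 1) → ℝ)
    (X : Fin (N + 1) × Fin (N + 1) → ℝ) (z : ℂ) (hz : 0 < z.im) :
    ‖(Rz (Dw τ d' X) z).trace - (Rz (Dw τ d X) z).trace‖ ≤ (∑ i, |d' i - d i|) / z.im ^ 2 := by
  have h := telesc d d' (fun v => (Rz (Dw τ v X) z).trace) (1 / z.im ^ 2) ?_
  · rw [mul_one_div] at h
    exact h
  · intro i
    have h1 := step_trace_triv i (Dw τ (mixV d d' i) X) (Dw τ (mixV d d' ((i : ℕ) + 1)) X)
        (Dw_symm _ _ _) (Dw_symm _ _ _) (mino_mix τ d d' X i) (rowv_mix τ hτ d d' X i) z hz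
    rw [diag_mix τ hτ] at h1
    rw [mul_one_div]
    exact h1

theorem path_arc {N : ℕ} (τ : ℝ) (hτ : 0 < τ) (d d' : Fin (N + 1) → ℝ)
    (X : Fin (N + 1) × Fin (N + 1) → ℝ) (x η : ℝ) (hη : 0 < η) (p Q : ℝ) (hp : 0 < p)
    (hQ : Q ≤ p)
    (hq : ∀ i : Fin (N + 1), ‖qf (mino i (Dw τ (mixV d d' i) X)) (rowv i (Dw τ (mixV d d' i) X))
      (⟨x, η⟩ : ℂ)‖ ≤ Q)
    (hX : ∀ i, Real.sqrt (2 * τ) * |X (i, i)| ≤ p)
    (hd : ∀ i, d i = d' i ∨ (x + 3 * p ≤ d i ∧ x + 3 * p ≤ d' i) ∨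
      (d i ≤ x - 3 * p ∧ d' i ≤ x - 3 * p)) :
    |arcS (Dw τ d' X) x η - arcS (Dw τ d X) x η| ≤ (∑ i, |d' i - d i|) * (η + Q) / p ^ 2 := by
  have h := telesc d d' (fun v => arcS (Dw τ v X) x η) ((η + Q) / p ^ 2) ?_
  · rw [mul_div_assoc]
    exact h
  · intro i
    have hQ0 : 0 ≤ Q := (norm_nonneg _).trans (hq i)
    rcases hd i with h0 | hd
    · simp only [mix_same d d' i h0, sub_self, norm_zero]
      positivity
    · have h1 := step_arc i (Dw τ (mixV d d' i) X) (Dw τ (mixV d d' ((i : ℕ) + 1)) X)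
        (Dw_symm _ _ _) (Dw_symm _ _ _) (mino_mix τ d d' X i) (rowv_mix τ hτ d d' X i) x η hη p hp
        (re_cases τ hτ d d' X (⟨x, η⟩ : ℂ) p Q hQ i (hq i) (hX i) hd)
      rw [Real.norm_eq_abs]
      refine h1.trans ?_
      rw [diag_mix τ hτ, mul_div_assoc]
      refine mul_le_mul_of_nonneg_left ?_ (abs_nonneg _)
      apply div_le_div_of_nonneg_right _ (by positivity)
      linarith [hq i]

theorem path_arc_triv {N : ℕ} (τ : ℝ) (hτ : 0 < τ) (d d' : Fin (N + 1) → ℝ)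
    (X : Fin (N + 1) × Fin (N + 1) → ℝ) (x η : ℝ) (hη : 0 < η) :
    |arcS (Dw τ d' X) x η - arcS (Dw τ d X) x η| ≤ (∑ i, |d' i - d i|) / η := by
  have h := telesc d d' (fun v => arcS (Dw τ v X) x η) (1 / η) ?_
  · rw [mul_one_div] at h
    exact h
  · intro i
    have h1 := step_arc_triv i (Dw τ (mixV d d' i) X) (Dw τ (mixV d d' ((i : ℕ) + 1)) X)
        (Dw_symm _ _ _) (Dw_symm _ _ _) (mino_mix τ d d' X i) (rowv_mix τ hτ d d' X i) x η hη
    rw [diag_mix τ hτ] at h1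
    rw [mul_one_div, Real.norm_eq_abs]
    exact h1

end Pool.Agent.ZR

end
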