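import Pool.Agent.ZRM.P01
import Pool.Agent.ZRM.P03

/-!
# Merged form of the modules ZR.KRot, ZBL.Defs, ZBL.E2, ZBL.G0, ZBL.G1, ZBL.G2, ZBL.M1, ZR.A3, ZR.GNb, ZR.KOne, ZR.LDefs, ZBL.B1, ZBL.E3, ZBL.G3, ZBL.G5, ZBL.G7, ZBL.M2, ZR.GLt, ZR.GPl, ZR.GRa, ZR.GRb, ZR.GVa, ZR.GVb, ZR.KTwo, ZR.LGst, ZR.LIdx, ZBL.M3, ZR.GRt, ZR.GVt, ZR.KThree, ZR.LFrz, ZR.LLab
-/

set_option autoImplicit false

section

/-!
# ZR, part K1 (helper58): rotation invariance of the Gaussian measure
-/


open MeasureTheory ProbabilityTheory Matrix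

namespace Pool.Agent.ZR.K1

lemma gst_charFun {ι : Type*} [Fintype ι] (t : EuclideanSpace ℝ ι) :
    ∫ x : ι → ℝ, Complex.exp ((inner ℝ (WithLp.toLp 2 x : EuclideanSpace ℝ ι) t : ℝ) * Complex.I) ∂(gst ι)
      = Complex.exp (-(‖t‖ ^ 2 : ℝ) / 2) := by
  have h := charFun_stdGaussian (E := EuclideanSpace ℝ ι) t
  rw [← map_pi_eq_stdGaussian, charFun_apply, integral_map (by fun_prop)
    (Measurable.aestronglyMeasurable (by fun_prop))] at h
  rw [gst, h]
  norm_cast

/-- sum of independent standard Gaussian vectors -/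
lemma gst_rot {ι : Type*} [Fintype ι] (c s : ℝ) (h : c ^ 2 + s ^ 2 = 1) :
    ((gst ι).prod (gst ι)).map (fun p : (ι → ℝ) × (ι → ℝ) => c • p.1 + s • p.2) = gst ι := by
  have hm : Measurable (fun p : (ι → ℝ) × (ι → ℝ) => c • p.1 + s • p.2) := by fun_prop
  have hL : Measurable (fun x : ι → ℝ => (WithLp.toLp 2 x : EuclideanSpace ℝ ι)) := by fun_prop
  have hU : Measurable (fun x : EuclideanSpace ℝ ι => (WithLp.ofLp x : ι → ℝ)) := by fun_prop
  have key : (((gst ι).prod (gst ι)).map (fun p : (ι → ℝ) × (ι → ℝ) => c • p.1 + s • p.2)).map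
      (fun x : ι → ℝ => (WithLp.toLp 2 x : EuclideanSpace ℝ ι))
      = (gst ι).map (fun x : ι → ℝ => (WithLp.toLp 2 x : EuclideanSpace ℝ ι)) := by
    have : IsProbabilityMeasure (((gst ι).prod (gst ι)).map
        (fun p : (ι → ℝ) × (ι → ℝ) => c • p.1 + s • p.2)) := Measure.isProbabilityMeasure_map hm.aemeasurable
    have : IsProbabilityMeasure ((((gst ι).prod (gst ι)).map
        (fun p : (ι → ℝ) × (ι → ℝ) => c • p.1 + s • p.2)).map
      (fun x : ι → ℝ => (WithLp.toLp 2 x : EuclideanSpace ℝ ι))) := Measure.isProbabilityMeasure_map hL.aemeasurable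
    have : IsProbabilityMeasure ((gst ι).map
      (fun x : ι → ℝ => (WithLp.toLp 2 x : EuclideanSpace ℝ ι))) := Measure.isProbabilityMeasure_map hL.aemeasurable
    apply Measure.ext_of_charFun (E := EuclideanSpace ℝ ι)
    ext t
    rw [charFun_apply, charFun_apply, integral_map hL.aemeasurable
      (Measurable.aestronglyMeasurable (by fun_prop)), integral_map hL.aemeasurable
      (Measurable.aestronglyMeasurable (by fun_prop)), integral_map hm.aemeasurable
      (Measurable.aestronglyMeasurable (by fun_prop)), gst_charFun]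
    have h1 : ∀ p : (ι → ℝ) × (ι → ℝ),
        Complex.exp ((inner ℝ (WithLp.toLp 2 (c • p.1 + s • p.2) : EuclideanSpace ℝ ι) t : ℝ) * Complex.I)
        = Complex.exp ((inner ℝ (WithLp.toLp 2 p.1 : EuclideanSpace ℝ ι) (c • t) : ℝ) * Complex.I)
          * Complex.exp ((inner ℝ (WithLp.toLp 2 p.2 : EuclideanSpace ℝ ι) (s • t) : ℝ) * Complex.I) := by
      intro p
      rw [← Complex.exp_add]
      congr 1
      rw [WithLp.toLp_add, WithLp.toLp_smul, WithLp.toLp_smul, inner_add_left, inner_smul_left,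
        inner_smul_left, inner_smul_right, inner_smul_right]
      push_cast
      simp
      ring
    simp_rw [h1]
    rw [integral_prod_mul (μ := gst ι) (ν := gst ι)
      (fun x : ι → ℝ => Complex.exp ((inner ℝ (WithLp.toLp 2 x : EuclideanSpace ℝ ι) (c • t) : ℝ) * Complex.I))
      (fun x : ι → ℝ => Complex.exp ((inner ℝ (WithLp.toLp 2 x : EuclideanSpace ℝ ι) (s • t) : ℝ) * Complex.I)),
      gst_charFun, gst_charFun, ← Complex.exp_add]
    congr 1
    rw [norm_smul, norm_smul, mul_pow, mul_pow, Real.norm_eq_abs, Real.norm_eq_abs, sq_abs, sq_abs]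
    rw [← add_div, ← neg_add]
    congr 2
    push_cast
    have : (c : ℂ) ^ 2 + (s : ℂ) ^ 2 = 1 := by exact_mod_cast h
    linear_combination (‖t‖ : ℂ) ^ 2 * this
  have h2 := congrArg (fun μ => μ.map (fun x : EuclideanSpace ℝ ι => (WithLp.ofLp x : ι → ℝ))) key
  simp only [Measure.map_map hU hL] at h2
  have h3 : (fun x : EuclideanSpace ℝ ι => (WithLp.ofLp x : ι → ℝ)) ∘
      (fun x : ι → ℝ => (WithLp.toLp 2 x : EuclideanSpace ℝ ι)) = id := rfl
  rw [h3, Measure.map_id, Measure.map_id] at h2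
  exact h2

/-- invariance under linear isometries -/
lemma gst_map_isom {ι κ : Type*} [Fintype ι] [Fintype κ] (T : (ι → ℝ) →ₗ[ℝ] (κ → ℝ))
    (hT : ∀ x, ∑ j, T x j ^ 2 = ∑ i, x i ^ 2) (hc : Fintype.card ι = Fintype.card κ) :
    (gst ι).map T = gst κ := by
  classical
  let e1 : EuclideanSpace ℝ ι ≃ₗ[ℝ] (ι → ℝ) := WithLp.linearEquiv 2 ℝ (ι → ℝ)
  let e2 : EuclideanSpace ℝ κ ≃ₗ[ℝ] (κ → ℝ) := WithLp.linearEquiv 2 ℝ (κ → ℝ)
  let L : EuclideanSpace ℝ ι →ₗ[ℝ] EuclideanSpace ℝ κ :=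
    (e2.symm.toLinearMap.comp T).comp e1.toLinearMap
  let LI : EuclideanSpace ℝ ι →ₗᵢ[ℝ] EuclideanSpace ℝ κ :=
    { toLinearMap := L
      norm_map' := by
        intro x
        rw [← sq_eq_sq₀ (norm_nonneg _) (norm_nonneg _), EuclideanSpace.real_norm_sq_eq,
          EuclideanSpace.real_norm_sq_eq]
        exact hT (e1 x) }
  have hfr : Module.finrank ℝ (EuclideanSpace ℝ ι) = Module.finrank ℝ (EuclideanSpace ℝ κ) := by
    simp [hc]
  let LE := LI.toLinearIsometryEquiv hfr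
  have h1 := stdGaussian_map LE
  rw [← map_pi_eq_stdGaussian, ← map_pi_eq_stdGaussian] at h1
  have hL1 : Measurable (fun x : ι → ℝ => (WithLp.toLp 2 x : EuclideanSpace ℝ ι)) := by fun_prop
  have hL2 : Measurable (fun x : κ → ℝ => (WithLp.toLp 2 x : EuclideanSpace ℝ κ)) := by fun_prop
  have hU : Measurable (fun x : EuclideanSpace ℝ κ => (WithLp.ofLp x : κ → ℝ)) := by fun_prop
  have hLE : Measurable LE := LE.continuous.measurable
  have h2 := congrArg (fun μ => μ.map (fun x : EuclideanSpace ℝ κ => (WithLp.ofLp x : κ → ℝ))) h1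
  simp only [Measure.map_map hU hL2, Measure.map_map hLE hL1, Measure.map_map hU (hLE.comp hL1)] at h2
  have h3 : (fun x : EuclideanSpace ℝ κ => (WithLp.ofLp x : κ → ℝ)) ∘
      (fun x : κ → ℝ => (WithLp.toLp 2 x : EuclideanSpace ℝ κ)) = id := rfl
  have h4 : (fun x : EuclideanSpace ℝ κ => (WithLp.ofLp x : κ → ℝ)) ∘ (⇑LE ∘
      (fun x : ι → ℝ => (WithLp.toLp 2 x : EuclideanSpace ℝ ι))) = ⇑T := by
    funext x; rfl
  rw [h3, Measure.map_id, h4] at h2
  exact h2

/-- conjugation `X ↦ O X Oᵀ` on arrays -/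
noncomputable def conjA {N : ℕ} (O : Matrix (Fin N) (Fin N) ℝ) :
    (Fin N × Fin N → ℝ) →ₗ[ℝ] (Fin N × Fin N → ℝ) where
  toFun X := fun p => (O * Matrix.of (fun i j => X (i, j)) * Oᵀ) p.1 p.2
  map_add' X Y := by
    ext p
    have : (Matrix.of (fun i j => (X + Y) (i, j)) : Matrix (Fin N) (Fin N) ℝ)
        = Matrix.of (fun i j => X (i, j)) + Matrix.of (fun i j => Y (i, j)) := by ext; rfl
    rw [this, Matrix.mul_add, Matrix.add_mul]
    rfl
  map_smul' c X := by
    ext p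
    have : (Matrix.of (fun i j => (c • X) (i, j)) : Matrix (Fin N) (Fin N) ℝ)
        = c • Matrix.of (fun i j => X (i, j)) := by ext; rfl
    rw [this, Matrix.mul_smul, Matrix.smul_mul]
    rfl

lemma sum_sq_eq_trace {N : ℕ} (A : Matrix (Fin N) (Fin N) ℝ) :
    ∑ p : Fin N × Fin N, A p.1 p.2 ^ 2 = (A * Aᵀ).trace := by
  rw [Fintype.sum_prod_type]
  simp only [Matrix.trace, Matrix.diag_apply, Matrix.mul_apply, Matrix.transpose_apply, sq]

lemma conjA_isom {N : ℕ} {O : Matrix (Fin N) (Fin N) ℝ} (hO : Oᵀ * O = 1) (X : Fin N × Fin N → ℝ) :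
    ∑ p, conjA O X p ^ 2 = ∑ p, X p ^ 2 := by
  have h1 : ∑ p, X p ^ 2 = ∑ p : Fin N × Fin N, (Matrix.of (fun i j => X (i, j)) :
    Matrix (Fin N) (Fin N) ℝ) p.1 p.2 ^ 2 := rfl
  have h2 : ∑ p, conjA O X p ^ 2 = ∑ p : Fin N × Fin N, (O * Matrix.of (fun i j => X (i, j)) * Oᵀ) p.1 p.2 ^ 2 := rfl
  rw [h1, h2, sum_sq_eq_trace, sum_sq_eq_trace]
  set A : Matrix (Fin N) (Fin N) ℝ := Matrix.of (fun i j => X (i, j))
  rw [Matrix.transpose_mul, Matrix.transpose_mul, Matrix.transpose_transpose]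
  calc (O * A * Oᵀ * (O * (Aᵀ * Oᵀ))).trace = (O * A * (Oᵀ * O) * Aᵀ * Oᵀ).trace := by
        simp only [Matrix.mul_assoc]
    _ = (O * (A * Aᵀ * Oᵀ)).trace := by rw [hO]; simp only [Matrix.mul_assoc, Matrix.mul_one]
    _ = (A * Aᵀ * (Oᵀ * O)).trace := by rw [Matrix.trace_mul_comm]; simp only [Matrix.mul_assoc]
    _ = (A * Aᵀ).trace := by rw [hO, Matrix.mul_one]

lemma gm_map_conjA {N : ℕ} {O : Matrix (Fin N) (Fin N) ℝ} (hO : Oᵀ * O = 1) :
    (gm N).map (conjA O) = gm N :=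
  gst_map_isom (conjA O) (conjA_isom hO) rfl

lemma Wv_conjA {N : ℕ} (v : ℝ) (O : Matrix (Fin N) (Fin N) ℝ) (X : Fin N × Fin N → ℝ) :
    Wv v (conjA O X) = O * Wv v X * Oᵀ := by
  set A : Matrix (Fin N) (Fin N) ℝ := Matrix.of (fun i j => X (i, j)) with hA
  have h1 : Wv v X = Real.sqrt (v / 2) • (A + Aᵀ) := by
    ext i j; simp [Wv, hA]
  have h2 : Wv v (conjA O X) = Real.sqrt (v / 2) • (O * A * Oᵀ + (O * A * Oᵀ)ᵀ) := by
    ext i j; rfl
  rw [h1, h2]
  simp only [Matrix.transpose_mul, Matrix.transpose_transpose, Matrix.mul_smul, Matrix.smul_mul,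
    Matrix.mul_add, Matrix.add_mul, Matrix.mul_assoc]

lemma Wv_isSymm {N : ℕ} (v : ℝ) (X : Fin N × Fin N → ℝ) : (Wv v X).IsSymm := by
  ext i j
  simp [Wv, add_comm]

lemma Wv_lin {N : ℕ} (v c s : ℝ) (X Y : Fin N × Fin N → ℝ) :
    Wv v (c • X + s • Y) = c • Wv v X + s • Wv v Y := by
  ext i j
  simp [Wv]
  ring

end Pool.Agent.ZR.K1

end

section

/-!
# ZBL : definitions for the matrix Brascamp-Lieb inequality (part K2, K3 of project ZR).  DO NOT EDIT.

`E = ι → ℝ`, `gst ι` = standard Gaussian measure (`ZR/KShift`); `gm n = gst (Fin n × Fin n)` by `rfl`.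
Namespace `Pool.Agent.ZR.BL`.
-/


open MeasureTheory ProbabilityTheory Matrix

namespace Pool.Agent.ZR.BL

theorem gm_eq_gst (n : ℕ) : gm n = gst (Fin n × Fin n) := rfl

instance gm_isProb (n : ℕ) : IsProbabilityMeasure (gm n) := by
  unfold gm; infer_instance

section calculus

variable {ι : Type} [Fintype ι] [DecidableEq ι]

/-- partial derivative in the coordinate `i` -/
noncomputable def pd (i : ι) (g : (ι → ℝ) → ℝ) (x : ι → ℝ) : ℝ :=
  fderiv ℝ g x (Pi.single i 1)

/-- `k` times differentiable, all partial derivatives of order `≤ k` bounded and continuous -/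
def CB : ℕ → ((ι → ℝ) → ℝ) → Prop
  | 0, g => Continuous g ∧ ∃ C : ℝ, ∀ x, |g x| ≤ C
  | (k + 1), g => (Continuous g ∧ ∃ C : ℝ, ∀ x, |g x| ≤ C) ∧ Differentiable ℝ g ∧
      ∀ i, CB k (pd i g)

/-- Gaussian smoothing `S_ε g(x) = ∫ g(x + ε z) dγ(z)` -/
noncomputable def SM (ε : ℝ) (g : (ι → ℝ) → ℝ) (x : ι → ℝ) : ℝ :=
  ∫ z, g (x + ε • z) ∂(gst ι)

/-- Mehler operator (Ornstein-Uhlenbeck semigroup with `e^{-s} = cos θ`) -/
noncomputable def PT (θ : ℝ) (g : (ι → ℝ) → ℝ) (x : ι → ℝ) : ℝ :=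
  ∫ z, g (Real.cos θ • x + Real.sin θ • z) ∂(gst ι)

/-- `∫_0^{θ₁} tan θ cos^k θ P_θ g dθ` -/
noncomputable def hop (k : ℕ) (θ₁ : ℝ) (g : (ι → ℝ) → ℝ) (x : ι → ℝ) : ℝ :=
  ∫ θ in (0 : ℝ)..θ₁, Real.tan θ * Real.cos θ ^ k * PT θ g x

/-- Ornstein-Uhlenbeck generator `L u = ∑ (∂_i ∂_i u - x_i ∂_i u)` -/
noncomputable def LO (u : (ι → ℝ) → ℝ) (x : ι → ℝ) : ℝ :=
  ∑ i, (pd i (pd i u) x - x i * pd i u x)

end calculus

section matrices

variable {n : ℕ}

/-- `X + Xᵀ` of an array; `Wv v X = √(v/2) • sya X` -/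
def sya (X : Fin n × Fin n → ℝ) : Matrix (Fin n) (Fin n) ℝ :=
  Matrix.of fun i j => X (i, j) + X (j, i)

/-- `u` depends only on the orthogonal conjugacy class of `X + Xᵀ` -/
def Inv (u : (Fin n × Fin n → ℝ) → ℝ) : Prop :=
  ∀ O : Matrix (Fin n) (Fin n) ℝ, Oᵀ * O = 1 → O * Oᵀ = 1 → ∀ X X' : Fin n × Fin n → ℝ,
    sya X' = O * sya X * Oᵀ → u X' = u X

/-- the diagonal array with `sya (dg d) = diagonal d` -/
noncomputable def dg (d : Fin n → ℝ) : Fin n × Fin n → ℝ :=
  fun p => if p.1 = p.2 then d p.1 / 2 else 0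

/-- sorted eigenvalues of `Wv v X` as a vector -/
noncomputable def evv (v : ℝ) (X : Fin n × Fin n → ℝ) : Fin n → ℝ :=
  fun i => evs (Wv v X) i

/-- the quadratic form `∑_{i<j} ((k_i - k_j)/(x_i - x_j))²` (terms with `x_i = x_j` are 0) -/
noncomputable def QF (x k : Fin n → ℝ) : ℝ :=
  ∑ p ∈ (Finset.univ : Finset (Fin n × Fin n)).filter (fun p => p.1 < p.2),
    ((k p.1 - k p.2) / (x p.1 - x p.2)) ^ 2

/-- squared Hilbert-Schmidt norm of the Hessian -/
noncomputable def HH {ι : Type} [Fintype ι] [DecidableEq ι] (u : (ι → ℝ) → ℝ) (x : ι → ℝ) : ℝ :=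
  ∑ i, ∑ j, (pd i (pd j u) x) ^ 2

/-- the labelled statistic as a function of the vector of eigenvalues -/
noncomputable def LabF (J : Finset ℕ) {r : ℕ} (m : Fin r → ℤ) (s : ℝ)
    (G : (Fin r → ℝ) → ℝ) (x : Fin n → ℝ) : ℝ :=
  (1 / (J.card : ℝ)) * ∑ i ∈ J, G (fun q => s *
    ((if h : ((i : ℤ) + m q).toNat < n then x ⟨((i : ℤ) + m q).toNat, h⟩ else 0)
      - (if h : i < n then x ⟨i, h⟩ else 0)))

end matrices

end Pool.Agent.ZR.BL

end

section

/-!
# ZBL/E2 : basic facts on the labelled statistic `LabF`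

Write `y_i(x) = fun q => s * (x ⟨(i + m q).toNat, _⟩ - x ⟨i, _⟩)` (the `if`s are true for `i ∈ J`
under the range hypothesis); `x ↦ y_i(x)` is a continuous linear map.
`LabF_eq`: unfold `Lab`, `LabF`, `evv`; `dif_pos` for `i ∈ J` (`i < n` and `(i + m q).toNat < n` since
`0 ≤ i + m q < n`).
`LabF_bdd`: `(1/|J|) ∑_{i∈J} |G| ≤ M` (as in `K1.Lab_bound`).
`LabF_diff`, `LabF_fderiv`: `G` is differentiable, chain rule with the linear map `y_i`, sum rule.
(The `if`s do not depend on `x`, so no case distinction is needed for differentiability; the formula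
is stated with the same `if`s.)
`LabF_lip`: `G` is Lipschitz: `fderiv G` is continuous with compact support
(`HasCompactSupport.fderiv`), hence bounded, `lipschitzWith_of_nnnorm_fderiv_le`
(or `ContDiff.lipschitzWith_of_hasCompactSupport`); `y_i` is Lipschitz with constant `2|s|`.
-/


open MeasureTheory ProbabilityTheory Matrix

namespace Pool.Agent.ZR.BL

variable {n : ℕ}

/-- coordinate functional (0 out of range) -/
private noncomputable def cf (j : ℕ) : (Fin n → ℝ) →L[ℝ] ℝ :=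
  if h : j < n then ContinuousLinearMap.proj (⟨j, h⟩ : Fin n) else 0

private lemma cf_apply (j : ℕ) (x : Fin n → ℝ) :
    cf j x = if h : j < n then x ⟨j, h⟩ else 0 := by
  unfold cf
  split_ifs with h
  · rfl
  · rfl

/-- the linear map of the rescaled differences -/
private noncomputable def yl {r : ℕ} (m : Fin r → ℤ) (s : ℝ) (i : ℕ) :
    (Fin n → ℝ) →L[ℝ] (Fin r → ℝ) :=
  ContinuousLinearMap.pi fun q => s • (cf ((i : ℤ) + m q).toNat - cf i)

private lemma yl_apply {r : ℕ} (m : Fin r → ℤ) (s : ℝ) (i : ℕ) (x : Fin n → ℝ) :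
    yl m s i x = fun q => s *
        ((if h : ((i : ℤ) + m q).toNat < n then x ⟨((i : ℤ) + m q).toNat, h⟩ else 0)
          - (if h : i < n then x ⟨i, h⟩ else 0)) := by
  funext q
  simp only [yl, ContinuousLinearMap.coe_pi', ContinuousLinearMap.coe_smul', Pi.smul_apply,
    ContinuousLinearMap.coe_sub', Pi.sub_apply, smul_eq_mul, cf_apply]

private lemma LabF_yl (J : Finset ℕ) {r : ℕ} (m : Fin r → ℤ) (s : ℝ) (G : (Fin r → ℝ) → ℝ) :
    LabF (n := n) J m s G = fun x => (1 / (J.card : ℝ)) * ∑ i ∈ J, G (yl m s i x) := by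
  funext x
  simp only [LabF, yl_apply]

theorem LabF_eq (J : Finset ℕ) {r : ℕ} (m : Fin r → ℤ) (s v : ℝ) (G : (Fin r → ℝ) → ℝ)
    (hJ : ∀ i ∈ J, i < n ∧ ∀ q, 0 ≤ (i : ℤ) + m q ∧ (i : ℤ) + m q < n)
    (X : Fin n × Fin n → ℝ) :
    Lab J m s G (Wv v X) = LabF J m s G (evv v X) := by
  unfold Lab LabF
  congr 1
  refine Finset.sum_congr rfl fun i hi => ?_
  obtain ⟨h1, h2⟩ := hJ i hi
  congr 1
  funext q
  obtain ⟨h3, h4⟩ := h2 q
  have h5 : ((i : ℤ) + m q).toNat < n := by omega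
  rw [dif_pos h1, dif_pos h5]
  rfl

theorem LabF_bdd (J : Finset ℕ) {r : ℕ} (m : Fin r → ℤ) (s : ℝ) {G : (Fin r → ℝ) → ℝ}
    {M : ℝ} (hM : ∀ y, |G y| ≤ M) (x : Fin n → ℝ) : |LabF J m s G x| ≤ M := by
  have hM0 : 0 ≤ M := le_trans (abs_nonneg _) (hM 0)
  rw [LabF_yl]
  change |(1 / (J.card : ℝ)) * ∑ i ∈ J, G (yl m s i x)| ≤ M
  rw [abs_mul, abs_of_nonneg (by positivity : (0 : ℝ) ≤ 1 / (J.card : ℝ))]
  have h1 : |∑ i ∈ J, G (yl m s i x)| ≤ (J.card : ℝ) * M := by
    refine (Finset.abs_sum_le_sum_abs _ _).trans ?_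
    calc ∑ i ∈ J, |G (yl m s i x)| ≤ ∑ i ∈ J, M := Finset.sum_le_sum fun i _ => hM _
      _ = (J.card : ℝ) * M := by rw [Finset.sum_const, nsmul_eq_mul]
  rcases J.eq_empty_or_nonempty with h | h
  · subst h
    simpa using hM0
  · have hc : (0 : ℝ) < J.card := by exact_mod_cast h.card_pos
    calc 1 / (J.card : ℝ) * |∑ i ∈ J, G (yl m s i x)|
        ≤ 1 / (J.card : ℝ) * ((J.card : ℝ) * M) :=
          mul_le_mul_of_nonneg_left h1 (by positivity)
      _ = M := by field_simp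

private lemma comp_diff {r : ℕ} (m : Fin r → ℤ) (s : ℝ) {G : (Fin r → ℝ) → ℝ}
    (hG : ContDiff ℝ 1 G) (i : ℕ) (x : Fin n → ℝ) :
    HasFDerivAt (fun x : Fin n → ℝ => G (yl m s i x))
      ((fderiv ℝ G (yl m s i x)).comp (yl m s i)) x := by
  have h1 : HasFDerivAt G (fderiv ℝ G (yl m s i x)) (yl m s i x) :=
    ((hG.differentiable one_ne_zero) _).hasFDerivAt
  exact h1.comp x (yl m s i).hasFDerivAt

private lemma LabF_has (J : Finset ℕ) {r : ℕ} (m : Fin r → ℤ) (s : ℝ) {G : (Fin r → ℝ) → ℝ}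
    (hG : ContDiff ℝ 1 G) (x : Fin n → ℝ) :
    HasFDerivAt (LabF (n := n) J m s G)
      ((1 / (J.card : ℝ)) • ∑ i ∈ J, (fderiv ℝ G (yl m s i x)).comp (yl m s i)) x := by
  rw [LabF_yl]
  have h1 : HasFDerivAt (fun x : Fin n → ℝ => ∑ i ∈ J, G (yl m s i x))
      (∑ i ∈ J, (fderiv ℝ G (yl m s i x)).comp (yl m s i)) x :=
    HasFDerivAt.fun_sum fun i _ => comp_diff m s hG i x
  exact h1.const_mul _

theorem LabF_diff (J : Finset ℕ) {r : ℕ} (m : Fin r → ℤ) (s : ℝ) {G : (Fin r → ℝ) → ℝ}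
    (hG : ContDiff ℝ 1 G) : Differentiable ℝ (LabF (n := n) J m s G) := fun x =>
  (LabF_has J m s hG x).differentiableAt

theorem LabF_fderiv (J : Finset ℕ) {r : ℕ} (m : Fin r → ℤ) (s : ℝ) {G : (Fin r → ℝ) → ℝ}
    (hG : ContDiff ℝ 1 G) (x k : Fin n → ℝ) :
    fderiv ℝ (LabF (n := n) J m s G) x k = (1 / (J.card : ℝ)) * ∑ i ∈ J,
      fderiv ℝ G (fun q => s *
        ((if h : ((i : ℤ) + m q).toNat < n then x ⟨((i : ℤ) + m q).toNat, h⟩ else 0)
          - (if h : i < n then x ⟨i, h⟩ else 0)))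
        (fun q => s *
        ((if h : ((i : ℤ) + m q).toNat < n then k ⟨((i : ℤ) + m q).toNat, h⟩ else 0)
          - (if h : i < n then k ⟨i, h⟩ else 0))) := by
  rw [(LabF_has J m s hG x).fderiv]
  simp only [ContinuousLinearMap.coe_smul', Pi.smul_apply, smul_eq_mul,
    ContinuousLinearMap.sum_apply, ContinuousLinearMap.comp_apply, yl_apply]

theorem LabF_lip (J : Finset ℕ) {r : ℕ} (m : Fin r → ℤ) (s : ℝ) {G : (Fin r → ℝ) → ℝ}
    (hG : ContDiff ℝ 1 G) (hGc : HasCompactSupport G) :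
    ∃ K : NNReal, LipschitzWith K (LabF (n := n) J m s G) := by
  obtain ⟨C, hC⟩ := hG.lipschitzWith_of_hasCompactSupport hGc one_ne_zero
  rw [LabF_yl]
  have h1 : ∀ i ∈ J, LipschitzWith (C * ‖(yl m s i : (Fin n → ℝ) →L[ℝ] (Fin r → ℝ))‖₊)
      (fun x : Fin n → ℝ => G (yl m s i x)) := fun i _ =>
    hC.comp (yl m s i : (Fin n → ℝ) →L[ℝ] (Fin r → ℝ)).lipschitz
  refine ⟨‖(1 / (J.card : ℝ))‖₊ *
    ∑ i ∈ J, C * ‖(yl m s i : (Fin n → ℝ) →L[ℝ] (Fin r → ℝ))‖₊, ?_⟩
  refine LipschitzWith.of_dist_le_mul fun x y => ?_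
  rw [Real.dist_eq, ← mul_sub, abs_mul, NNReal.coe_mul, mul_assoc]
  have e0 : ((‖(1 / (J.card : ℝ))‖₊ : NNReal) : ℝ) = |1 / (J.card : ℝ)| := by
    rw [coe_nnnorm, Real.norm_eq_abs]
  rw [e0]
  refine mul_le_mul_of_nonneg_left ?_ (abs_nonneg _)
  rw [← Finset.sum_sub_distrib, NNReal.coe_sum, Finset.sum_mul]
  refine (Finset.abs_sum_le_sum_abs _ _).trans (Finset.sum_le_sum fun i hi => ?_)
  have h2 := (h1 i hi).dist_le_mul x y
  rwa [Real.dist_eq] at h2

end Pool.Agent.ZR.BL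

end

section

/-!
# ZBL/G0 : density and integrability for the standard Gaussian measure `gst ι`

Proof.
`gst_density`: `Measure.pi_eq`: both sides agree on boxes `univ.pi s`.  As in `gauss_shift`
(`ZR/KShift.lean`, same proof pattern, one can copy it): `withDensity_apply`, write the indicator of
the box times the product density as a product of one dimensional functions, Tonelli for the
product measure `volume = Measure.pi (fun _ => volume)` (`volume_pi`;
`MeasureTheory.lintegral_fintype_prod_eq_prod`-type lemma, or induction with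
`measurePreserving_piFinSuccAbove`, or a version of `iIndepFun` is not available because `volume`
is infinite).  ALTERNATIVE for `gst_ac` only (which is what is used later): show `gst ι ≪ volume`
directly.  E.g. `Measure.pi (fun _ => μ) ≪ Measure.pi (fun _ => ν)` for σ-finite `μ ≪ ν` follows
from `μ = ν.withDensity f`; any proof is fine.
`gst_int_exp`: `(1+S)^p ≤ p! e^(1+S)` (`Real.pow_div_factorial_le_exp`), so the function is bounded by
`p! e · exp((|c|+1) S) = p! e · ∏_i exp((|c|+1)|z_i|)`, which is integrable by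
`Integrable.fintype_prod` (each factor: `exp(a|z|) ≤ exp(a z) + exp(-a z)`,
`integrable_exp_mul_gaussianReal`).
`gst_integral_sq`, `gst_int_abs` are special cases / one dimensional marginals
(`measurePreserving_eval`).
-/


open MeasureTheory ProbabilityTheory Matrix

namespace Pool.Agent.ZR.BL

open K1

variable {ι : Type} [Fintype ι]

theorem gst_density : gst ι = (volume : Measure (ι → ℝ)).withDensity
    (fun x => ENNReal.ofReal (∏ i, gaussianPDFReal 0 1 (x i))) := by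
  unfold gst
  apply Measure.pi_eq
  intro s hs
  rw [withDensity_apply _ (MeasurableSet.univ_pi hs)]
  have hint : Integrable (fun x : ι → ℝ => ∏ i, (s i).indicator (gaussianPDFReal 0 1) (x i))
      (volume : Measure (ι → ℝ)) := by
    rw [volume_pi]
    exact Integrable.fintype_prod (fun i =>
      (integrable_gaussianPDFReal 0 1).indicator (hs i))
  have h2 : ∀ x : ι → ℝ, (Set.univ.pi s).indicator
      (fun x : ι → ℝ => ENNReal.ofReal (∏ i, gaussianPDFReal 0 1 (x i))) x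
      = ENNReal.ofReal (∏ i, (s i).indicator (gaussianPDFReal 0 1) (x i)) := by
    intro x
    by_cases hx : x ∈ Set.univ.pi s
    · rw [Set.indicator_of_mem hx]
      congr 1
      refine Finset.prod_congr rfl fun i _ => ?_
      rw [Set.indicator_of_mem (hx i trivial)]
    · rw [Set.indicator_of_notMem hx]
      simp only [Set.mem_pi, Set.mem_univ, forall_const, not_forall] at hx
      obtain ⟨i, hi⟩ := hx
      rw [Finset.prod_eq_zero (Finset.mem_univ i) (Set.indicator_of_notMem hi _)]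
      simp
  rw [← lintegral_indicator (MeasurableSet.univ_pi hs)]
  simp_rw [h2]
  rw [← ofReal_integral_eq_lintegral_ofReal hint (Filter.Eventually.of_forall fun x =>
    Finset.prod_nonneg fun i _ => Set.indicator_nonneg (fun y _ => gaussianPDFReal_nonneg 0 1 y) _)]
  rw [integral_fintype_prod_volume_eq_prod (fun i => (s i).indicator (gaussianPDFReal 0 1)),
    ENNReal.ofReal_prod_of_nonneg (fun i _ => integral_nonneg fun y =>
      Set.indicator_nonneg (fun y _ => gaussianPDFReal_nonneg 0 1 y) _)]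
  refine Finset.prod_congr rfl fun i _ => ?_
  rw [integral_indicator (hs i), gaussianReal_apply_eq_integral 0 one_ne_zero]

theorem gst_ac : gst ι ≪ (volume : Measure (ι → ℝ)) := by
  rw [gst_density]
  exact withDensity_absolutelyContinuous _ _

theorem gst_int_exp (c : ℝ) (p : ℕ) :
    Integrable (fun z : ι → ℝ => (1 + ∑ i, |z i|) ^ p * Real.exp (c * ∑ i, |z i|)) (gst ι) := by
  have h1 : Integrable (fun z : ι → ℝ => ∏ i, Real.exp ((|c| + 1) * |z i|)) (gst ι) := by
    unfold gst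
    refine Integrable.fintype_prod (f := fun (_ : ι) (y : ℝ) => Real.exp ((|c| + 1) * |y|)) (fun i => ?_)
    refine Integrable.mono' ((integrable_exp_mul_gaussianReal (μ := 0) (v := 1) (|c| + 1)).add
      (integrable_exp_mul_gaussianReal (μ := 0) (v := 1) (-(|c| + 1)))) (by fun_prop)
      (Filter.Eventually.of_forall fun y => ?_)
    rw [Real.norm_eq_abs, abs_of_pos (Real.exp_pos _)]
    simp only [Pi.add_apply]
    rcases abs_cases y with ⟨h, _⟩ | ⟨h, _⟩
    · rw [h]; have := Real.exp_pos (-(|c| + 1) * y); linarith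
    · rw [h]
      have := Real.exp_pos ((|c| + 1) * y)
      have h3 : (|c| + 1) * -y = -(|c| + 1) * y := by ring
      rw [h3]; linarith
  refine Integrable.mono' (h1.const_mul ((p.factorial : ℝ) * Real.exp 1)) (by fun_prop)
    (Filter.Eventually.of_forall fun z => ?_)
  have hS : 0 ≤ ∑ i, |z i| := Finset.sum_nonneg fun i _ => abs_nonneg _
  rw [Real.norm_eq_abs, abs_of_nonneg (by positivity), ← Real.exp_sum, ← Finset.mul_sum]
  have h2 := Real.pow_div_factorial_le_exp (1 + ∑ i, |z i|) (by linarith) p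
  have hp : (0 : ℝ) < p.factorial := by exact_mod_cast p.factorial_pos
  rw [div_le_iff₀ hp] at h2
  calc (1 + ∑ i, |z i|) ^ p * Real.exp (c * ∑ i, |z i|)
      ≤ (Real.exp (1 + ∑ i, |z i|) * p.factorial) * Real.exp (|c| * ∑ i, |z i|) := by
        apply mul_le_mul h2 _ (Real.exp_pos _).le (by positivity)
        exact Real.exp_le_exp.mpr (mul_le_mul_of_nonneg_right (le_abs_self c) hS)
    _ = (p.factorial : ℝ) * Real.exp 1 * Real.exp ((|c| + 1) * ∑ i, |z i|) := by
        rw [Real.exp_add, add_mul, Real.exp_add, one_mul]; ring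

theorem gst_int_poly (p : ℕ) :
    Integrable (fun z : ι → ℝ => (1 + ∑ i, |z i|) ^ p) (gst ι) := by
  simpa using gst_int_exp (ι := ι) 0 p

end Pool.Agent.ZR.BL

end

section

/-!
# ZBL/G1 : Cameron-Martin formula in integral form

Proof.  `gauss_shift` (`ZR/KShift.lean`) says
`(gst ι).map (· + h) = (gst ι).withDensity (ofReal (exp (∑ (h_i x_i - h_i²/2))))`.
Integrate `F` against both sides: the left side is `∫ F(x+h)` by `integral_map_equiv` (the map
`x ↦ x + h` is a measurable equivalence / measurable embedding, e.g. `Homeomorph.addRight h` with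
`.toMeasurableEquiv`, so no measurability of `F` is needed), the right side by
`integral_withDensity_eq_integral_toReal_smul` (density measurable and finite).
`∑ (h_i x_i - h_i²/2) = ∑ h_i x_i - (∑ h_i²)/2`.
-/


open MeasureTheory ProbabilityTheory Matrix

namespace Pool.Agent.ZR.BL

open K1

variable {ι : Type} [Fintype ι]

theorem cameron_martin (h : ι → ℝ) (F : (ι → ℝ) → ℝ) :
    ∫ z, F (z + h) ∂(gst ι)
      = ∫ z, F z * Real.exp (∑ i, h i * z i - (∑ i, h i ^ 2) / 2) ∂(gst ι) := by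
  have hs := gauss_shift h
  have h1 : ∫ z, F (z + h) ∂(gst ι) = ∫ y, F y ∂((gst ι).map (fun x => x + h)) := by
    have := integral_map_equiv (μ := gst ι) (Homeomorph.addRight h).toMeasurableEquiv F
    exact this.symm
  rw [h1, hs]
  rw [integral_withDensity_eq_integral_toReal_smul (by fun_prop)
    (Filter.Eventually.of_forall fun x => ENNReal.ofReal_lt_top)]
  congr 1
  ext z
  rw [ENNReal.toReal_ofReal (Real.exp_pos _).le, smul_eq_mul, mul_comm]
  congr 2
  rw [Finset.sum_sub_distrib, Finset.sum_div]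

end Pool.Agent.ZR.BL

end

section

/-!
# ZBL/G2 : algebra of the classes `CB k`

Proofs.
`fderiv_eq_sum`: `w = ∑ i, w i • Pi.single i 1` (`pi_eq_sum_univ'` / `Finset.univ_sum_single`) and
linearity of `fderiv ℝ g x`; no differentiability needed.
`CB.mono1` by induction on `k` (for `k = 0` it is the first component).
`CB.hasFDerivAt`: `Differentiable.hasFDerivAt`, and `fderiv ℝ g x = ∑ i, pd i g x • proj i` by
`ContinuousLinearMap.ext` and `fderiv_eq_sum`.
`CB.intro`: from `HasFDerivAt`, `pd i g x = (∑ j, D j x • proj j) (Pi.single i 1) = D i x`,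
`g` is continuous since differentiable.
`CB.add/sub/const_mul/neg`: induction on `k`, `pd i (g + h) = pd i g + pd i h` as functions
(`fderiv_add` with the differentiability from `CB (k+1)`).
`CB.lip`: `‖fderiv ℝ g x‖ ≤ ∑ i, C_i` where `C_i` bounds `pd i g`
(`ContinuousLinearMap.opNorm_le_bound`, `|fderiv g x w| ≤ ∑ C_i |w i| ≤ (∑ C_i) ‖w‖`,
`norm_le_pi_norm`), then `lipschitzWith_of_nnnorm_fderiv_le`.
`measurable_pd`: `measurable_fderiv_apply_const ℝ g (Pi.single i 1)` (no hypothesis on `g`).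
`pd_le_of_lip`: if `g` is differentiable at `x`, `|fderiv g x (single i 1)| ≤ ‖fderiv g x‖ ‖single i 1‖ ≤ K`
(`norm_fderiv_le_of_lipschitz`, `Pi.norm_single`), otherwise `fderiv = 0`
(`norm_fderiv_le_of_lipschitz` covers both cases).
-/


open MeasureTheory ProbabilityTheory Matrix

namespace Pool.Agent.ZR.BL

variable {ι : Type} [Fintype ι] [DecidableEq ι]

theorem fderiv_eq_sum (g : (ι → ℝ) → ℝ) (x w : ι → ℝ) :
    fderiv ℝ g x w = ∑ i, pd i g x * w i := by
  have hw : w = ∑ i, w i • (Pi.single i (1 : ℝ) : ι → ℝ) := by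
    ext j
    simp [Finset.sum_apply, Pi.single_apply]
  conv_lhs => rw [hw]
  rw [map_sum]
  refine Finset.sum_congr rfl fun i _ => ?_
  rw [map_smul, smul_eq_mul, mul_comm]
  rfl

theorem CB.mono1 {k : ℕ} {g : (ι → ℝ) → ℝ} (hg : CB (k + 1) g) : CB k g := by
  induction k generalizing g with
  | zero => exact hg.1
  | succ k ih => exact ⟨hg.1, hg.2.1, fun i => ih (hg.2.2 i)⟩

theorem CB.zero {k : ℕ} {g : (ι → ℝ) → ℝ} (hg : CB k g) : CB 0 g := by
  cases k with
  | zero => exact hg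
  | succ k => exact hg.1

theorem CB.cont {k : ℕ} {g : (ι → ℝ) → ℝ} (hg : CB k g) : Continuous g := hg.zero.1

theorem CB.bdd {k : ℕ} {g : (ι → ℝ) → ℝ} (hg : CB k g) : ∃ C : ℝ, ∀ x, |g x| ≤ C := hg.zero.2

theorem CB.pd {k : ℕ} {g : (ι → ℝ) → ℝ} (hg : CB (k + 1) g) (i : ι) : CB k (pd i g) :=
  hg.2.2 i

theorem CB.hasFDerivAt {k : ℕ} {g : (ι → ℝ) → ℝ} (hg : CB (k + 1) g) (x : ι → ℝ) :
    HasFDerivAt g (∑ i, BL.pd i g x • (ContinuousLinearMap.proj i : (ι → ℝ) →L[ℝ] ℝ)) x := by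
  have h := (hg.2.1 x).hasFDerivAt
  have e : fderiv ℝ g x
      = ∑ i, BL.pd i g x • (ContinuousLinearMap.proj i : (ι → ℝ) →L[ℝ] ℝ) := by
    ext w
    rw [fderiv_eq_sum]
    simp [ContinuousLinearMap.sum_apply]
  rw [← e]
  exact h

theorem CB.intro {k : ℕ} {g : (ι → ℝ) → ℝ} {D : ι → (ι → ℝ) → ℝ}
    (hb : ∃ C : ℝ, ∀ x, |g x| ≤ C)
    (hd : ∀ x, HasFDerivAt g (∑ i, D i x • (ContinuousLinearMap.proj i : (ι → ℝ) →L[ℝ] ℝ)) x)
    (hD : ∀ i, CB k (D i)) : CB (k + 1) g ∧ ∀ i, BL.pd i g = D i := by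
  have e : ∀ i, BL.pd i g = D i := by
    intro i
    ext x
    unfold BL.pd
    rw [(hd x).fderiv]
    simp [ContinuousLinearMap.sum_apply, Pi.single_apply]
  have hdiff : Differentiable ℝ g := fun x => (hd x).differentiableAt
  refine ⟨⟨⟨hdiff.continuous, hb⟩, hdiff, fun i => ?_⟩, e⟩
  rw [e i]
  exact hD i

private theorem pd_add_aux {g h : (ι → ℝ) → ℝ} (hg : Differentiable ℝ g)
    (hh : Differentiable ℝ h) (i : ι) :
    BL.pd i (fun x => g x + h x) = fun x => BL.pd i g x + BL.pd i h x := by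
  ext x
  unfold BL.pd
  rw [fderiv_fun_add (hg x) (hh x)]
  rfl

private theorem pd_smul_aux {g : (ι → ℝ) → ℝ} (hg : Differentiable ℝ g) (c : ℝ) (i : ι) :
    BL.pd i (fun x => c * g x) = fun x => c * BL.pd i g x := by
  ext x
  unfold BL.pd
  rw [fderiv_const_mul (hg x) c]
  rfl

theorem CB.add {k : ℕ} {g h : (ι → ℝ) → ℝ} (hg : CB k g) (hh : CB k h) :
    CB k (fun x => g x + h x) := by
  induction k generalizing g h with
  | zero =>
    obtain ⟨hg1, C1, hC1⟩ := hg
    obtain ⟨hh1, C2, hC2⟩ := hh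
    exact ⟨hg1.add hh1, C1 + C2, fun x => (abs_add_le _ _).trans (add_le_add (hC1 x) (hC2 x))⟩
  | succ k ih =>
    obtain ⟨⟨hg1, C1, hC1⟩, hg2, hg3⟩ := hg
    obtain ⟨⟨hh1, C2, hC2⟩, hh2, hh3⟩ := hh
    refine ⟨⟨hg1.add hh1, C1 + C2, fun x => (abs_add_le _ _).trans (add_le_add (hC1 x) (hC2 x))⟩,
      hg2.add hh2, fun i => ?_⟩
    rw [pd_add_aux hg2 hh2]
    exact ih (hg3 i) (hh3 i)

theorem CB.const_mul {k : ℕ} {g : (ι → ℝ) → ℝ} (c : ℝ) (hg : CB k g) :
    CB k (fun x => c * g x) := by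
  induction k generalizing g with
  | zero =>
    obtain ⟨hg1, C1, hC1⟩ := hg
    refine ⟨continuous_const.mul hg1, |c| * C1, fun x => ?_⟩
    rw [abs_mul]
    exact mul_le_mul_of_nonneg_left (hC1 x) (abs_nonneg c)
  | succ k ih =>
    obtain ⟨⟨hg1, C1, hC1⟩, hg2, hg3⟩ := hg
    refine ⟨⟨continuous_const.mul hg1, |c| * C1, fun x => ?_⟩, hg2.const_mul c, fun i => ?_⟩
    · rw [abs_mul]
      exact mul_le_mul_of_nonneg_left (hC1 x) (abs_nonneg c)
    · rw [pd_smul_aux hg2]
      exact ih (hg3 i)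

theorem CB.sub {k : ℕ} {g h : (ι → ℝ) → ℝ} (hg : CB k g) (hh : CB k h) :
    CB k (fun x => g x - h x) := by
  have h1 := CB.add hg (CB.const_mul (-1) hh)
  have e : (fun x => g x + -1 * h x) = fun x => g x - h x := by
    ext x; ring
  rw [e] at h1
  exact h1

theorem pd_sub {g h : (ι → ℝ) → ℝ} (hg : CB 1 g) (hh : CB 1 h) (i : ι) :
    pd i (fun x => g x - h x) = fun x => pd i g x - pd i h x := by
  ext x
  unfold pd
  rw [fderiv_fun_sub (hg.2.1 x) (hh.2.1 x)]
  rfl

theorem pd_const_mul {g : (ι → ℝ) → ℝ} (hg : CB 1 g) (c : ℝ) (i : ι) :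
    pd i (fun x => c * g x) = fun x => c * pd i g x :=
  pd_smul_aux hg.2.1 c i

theorem CB.lip {g : (ι → ℝ) → ℝ} (hg : CB 1 g) : ∃ K : NNReal, LipschitzWith K g := by
  obtain ⟨-, hdiff, hpd⟩ := hg
  choose C hC using fun i => (hpd i).2
  have hC0 : ∀ i, 0 ≤ C i := fun i => (abs_nonneg _).trans (hC i 0)
  have hS : 0 ≤ ∑ i, C i := Finset.sum_nonneg fun i _ => hC0 i
  refine ⟨(∑ i, C i).toNNReal, lipschitzWith_of_nnnorm_fderiv_le (𝕜 := ℝ) hdiff fun x => ?_⟩
  rw [← NNReal.coe_le_coe, coe_nnnorm, Real.coe_toNNReal _ hS]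
  refine ContinuousLinearMap.opNorm_le_bound _ hS fun w => ?_
  rw [fderiv_eq_sum, Real.norm_eq_abs]
  refine (Finset.abs_sum_le_sum_abs _ _).trans ?_
  rw [Finset.sum_mul]
  refine Finset.sum_le_sum fun i _ => ?_
  rw [abs_mul]
  refine mul_le_mul (hC i x) ?_ (abs_nonneg _) (hC0 i)
  rw [← Real.norm_eq_abs]
  exact norm_le_pi_norm w i

theorem measurable_pd (g : (ι → ℝ) → ℝ) (i : ι) : Measurable (pd i g) := by
  unfold pd
  exact measurable_fderiv_apply_const ℝ g (Pi.single i 1)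

theorem pd_le_of_lip {K : NNReal} {g : (ι → ℝ) → ℝ} (hg : LipschitzWith K g) (i : ι)
    (x : ι → ℝ) : |pd i g x| ≤ K := by
  unfold pd
  rw [← Real.norm_eq_abs]
  refine (ContinuousLinearMap.le_opNorm _ _).trans ?_
  have h1 : ‖(Pi.single i (1 : ℝ) : ι → ℝ)‖ = 1 := by
    rw [Pi.norm_single]; simp
  rw [h1, mul_one]
  exact norm_fderiv_le_of_lipschitz ℝ hg

end Pool.Agent.ZR.BL

end

section

/-!
# ZBL/M1 : invariance under conjugation passes to the Gaussian operators

`conjA O X = O X Oᵀ` (linear map on arrays, `ZR/KRot.lean`, namespace `K1`), `K1.gm_map_conjA`.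
Proof.
`sya_lin`: entrywise.  `sya_conjA`: `sya X = A + Aᵀ` for the matrix `A` of `X`, and
`O (A + Aᵀ) Oᵀ = O A Oᵀ + (O A Oᵀ)ᵀ`.  `sya_dg`: entrywise.  `Wv_eq_sya`: by definition.
`Inv.SM`: let `sya X' = O sya X Oᵀ`.  By `K1.gm_map_conjA` (`integral_map`, `u` continuous),
  `SM ε u X' = ∫ u (X' + ε Z) dγ(Z) = ∫ u (X' + ε conjA O Z) dγ(Z)`, and for every `Z`
  `sya (X' + ε conjA O Z) = O sya X Oᵀ + ε O sya Z Oᵀ = O sya (X + ε Z) Oᵀ`, so the integrand is
  `u (X + ε Z)` by `Inv u`.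
`Inv.PT`: the same with `cos θ X' + sin θ conjA O Z`.  `Inv.hop`: the integrands in `θ` agree by
`Inv.PT`.
-/


open MeasureTheory ProbabilityTheory Matrix

namespace Pool.Agent.ZR.BL

variable {n : ℕ}

theorem sya_lin (a b : ℝ) (X Y : Fin n × Fin n → ℝ) :
    sya (a • X + b • Y) = a • sya X + b • sya Y := by
  ext i j
  simp [sya]
  ring

theorem sya_add (X Y : Fin n × Fin n → ℝ) : sya (X + Y) = sya X + sya Y := by
  ext i j
  simp [sya]
  ring

theorem sya_smul (a : ℝ) (X : Fin n × Fin n → ℝ) : sya (a • X) = a • sya X := by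
  ext i j
  simp [sya]
  ring

theorem sya_conjA (O : Matrix (Fin n) (Fin n) ℝ) (X : Fin n × Fin n → ℝ) :
    sya (K1.conjA O X) = O * sya X * Oᵀ := by
  set A : Matrix (Fin n) (Fin n) ℝ := Matrix.of (fun i j => X (i, j)) with hA
  have h1 : sya X = A + Aᵀ := by
    ext i j; rfl
  have h2 : sya (K1.conjA O X) = O * A * Oᵀ + (O * A * Oᵀ)ᵀ := by
    ext i j; rfl
  rw [h1, h2]
  simp only [Matrix.transpose_mul, Matrix.transpose_transpose,
    Matrix.mul_add, Matrix.add_mul, Matrix.mul_assoc]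

theorem sya_dg (d : Fin n → ℝ) : sya (dg d) = Matrix.diagonal d := by
  ext i j
  by_cases h : i = j
  · subst h
    simp [sya, dg]
  · have h' : ¬ j = i := fun e => h e.symm
    simp [sya, dg, h, h', Matrix.diagonal_apply]

theorem sya_symm (X : Fin n × Fin n → ℝ) : (sya X).IsSymm := by
  ext i j
  simp [sya, add_comm]

theorem Wv_eq_sya (v : ℝ) (X : Fin n × Fin n → ℝ) : Wv v X = Real.sqrt (v / 2) • sya X := by
  ext i j
  simp [Wv, sya]

/-- invariance of the Gaussian integral under conjugation -/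
theorem int_conjA {O : Matrix (Fin n) (Fin n) ℝ} (hO : Oᵀ * O = 1)
    {g : (Fin n × Fin n → ℝ) → ℝ} (hg : Continuous g) :
    ∫ z, g z ∂(gst (Fin n × Fin n)) = ∫ z, g (K1.conjA O z) ∂(gst (Fin n × Fin n)) := by
  have hm : Measurable (K1.conjA O) :=
    (LinearMap.continuous_of_finiteDimensional (K1.conjA O)).measurable
  have h1 : (gst (Fin n × Fin n)).map (K1.conjA O) = gst (Fin n × Fin n) := K1.gm_map_conjA hO
  calc ∫ z, g z ∂(gst (Fin n × Fin n))
      = ∫ z, g z ∂((gst (Fin n × Fin n)).map (K1.conjA O)) := by rw [h1]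
    _ = ∫ z, g (K1.conjA O z) ∂(gst (Fin n × Fin n)) :=
        integral_map hm.aemeasurable hg.aestronglyMeasurable

theorem Inv.SM {u : (Fin n × Fin n → ℝ) → ℝ} (hc : Continuous u) (hu : Inv u) (ε : ℝ) :
    Inv (BL.SM ε u) := by
  intro O hO hO' X X' hX
  unfold BL.SM
  rw [int_conjA hO (g := fun z => u (X' + ε • z)) (by fun_prop)]
  apply integral_congr_ae
  filter_upwards with z
  apply hu O hO hO' (X + ε • z) (X' + ε • K1.conjA O z)
  rw [sya_add, sya_add, sya_smul, sya_smul, sya_conjA, hX]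
  simp only [Matrix.mul_add, Matrix.add_mul, Matrix.mul_smul, Matrix.smul_mul]

theorem Inv.PT {u : (Fin n × Fin n → ℝ) → ℝ} (hc : Continuous u) (hu : Inv u) (θ : ℝ) :
    Inv (BL.PT θ u) := by
  intro O hO hO' X X' hX
  unfold BL.PT
  rw [int_conjA hO (g := fun z => u (Real.cos θ • X' + Real.sin θ • z)) (by fun_prop)]
  apply integral_congr_ae
  filter_upwards with z
  apply hu O hO hO' (Real.cos θ • X + Real.sin θ • z) (Real.cos θ • X' + Real.sin θ • K1.conjA O z)
  rw [sya_lin, sya_lin, sya_conjA, hX]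
  simp only [Matrix.mul_add, Matrix.add_mul, Matrix.mul_smul, Matrix.smul_mul]

theorem Inv.hop {u : (Fin n × Fin n → ℝ) → ℝ} (hc : Continuous u) (hu : Inv u) (k : ℕ)
    (θ₁ : ℝ) : Inv (BL.hop k θ₁ u) := by
  intro O hO hO' X X' hX
  unfold BL.hop
  apply intervalIntegral.integral_congr
  intro θ _
  change Real.tan θ * Real.cos θ ^ k * BL.PT θ u X' = Real.tan θ * Real.cos θ ^ k * BL.PT θ u X
  rw [Inv.PT hc hu θ O hO hO' X X' hX]

end Pool.Agent.ZR.BL

end

section

/-!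
# ZR/A3 : path switching `i-i, i-j, j-k, k-k`

Same as `ZR/A2` with `a, b, c, d = M_ii, M_ij, M_jk, M_kk`, `i, j, k` distinct.  The mask `pth i j k`
consists of the positions `(i,i), (i,j), (j,i), (j,k), (k,j), (k,k)`: row `i` contains `a, b`, row
`j` contains `b, c`, row `k` contains `c, d`; it is balanced iff the pattern is alternating.  The
switched matrix is `M - 2 a ξ'`, `ξ' = XiP i j k = E_ii - E^{ij} + E^{jk} - E_kk` (single entries
`E_ii`, `E_kk`).  The proof of the identity is word for word that of `ZR/A2`.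
-/


open MeasureTheory ProbabilityTheory Matrix

namespace Pool.Agent.ZR

/-- mask of the path -/
def pth {n : ℕ} (i j k : Fin n) : Fin n → Fin n → Bool := fun x y => decide
  ((x = i ∧ y = i) ∨ (x = i ∧ y = j) ∨ (x = j ∧ y = i) ∨ (x = j ∧ y = k) ∨ (x = k ∧ y = j) ∨
   (x = k ∧ y = k))

/-- alternating path pattern -/
def AltP {n : ℕ} (i j k : Fin n) (σ : Fin n → Fin n → Bool) : Prop :=
  σ i i ≠ σ i j ∧ σ i j ≠ σ j k ∧ σ j k ≠ σ k k

instance {n : ℕ} (i j k : Fin n) (σ : Fin n → Fin n → Bool) : Decidable (AltP i j k σ) := by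
  unfold AltP; infer_instance

/-- single entry `E_ii` -/
def Ed {n : ℕ} (i : Fin n) : Matrix (Fin n) (Fin n) ℝ :=
  Matrix.of fun x y => if x = i ∧ y = i then (1 : ℝ) else 0

/-- direction of the path -/
def XiP {n : ℕ} (i j k : Fin n) : Matrix (Fin n) (Fin n) ℝ :=
  Ed i - Es i j + Es j k - Ed k

theorem XiP_symm {n : ℕ} (i j k : Fin n) : (XiP i j k)ᵀ = XiP i j k := by
  ext x y
  simp only [XiP, Ed, Es, Matrix.transpose_apply, Matrix.add_apply, Matrix.sub_apply,
    Matrix.of_apply]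
  simp only [and_comm (a := y = _)]
  ring

theorem XiP_Pn {n : ℕ} (i j k : Fin n) :
    Pn n * XiP i j k = XiP i j k ∧ XiP i j k * Pn n = XiP i j k := by
  have hcol : ∀ y, ∑ z, XiP i j k z y = 0 := by
    intro y
    have hE : ∀ a : Fin n, ∑ z, Ed a z y = if y = a then (1 : ℝ) else 0 := by
      intro a
      simp only [Ed, Matrix.of_apply]
      by_cases h : y = a
      · simp [h]
      · simp [h]
    have hS : ∀ a b : Fin n, ∑ z, Es a b z y =
        (if y = b then (1 : ℝ) else 0) + (if y = a then (1 : ℝ) else 0) := by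
      intro a b
      simp only [Es, Matrix.of_apply, Finset.sum_add_distrib]
      congr 1
      · by_cases h : y = b
        · simp [h]
        · simp [h]
      · by_cases h : y = a
        · simp [h]
        · simp [h]
    simp only [XiP, Matrix.add_apply, Matrix.sub_apply, Finset.sum_add_distrib,
      Finset.sum_sub_distrib, hE, hS]
    ring
  have hsym : ∀ x y, XiP i j k x y = XiP i j k y x := by
    intro x y
    have := congrFun (congrFun (XiP_symm i j k) y) x
    exact this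
  have hrow : ∀ x, ∑ z, XiP i j k x z = 0 := by
    intro x
    rw [← hcol x]
    exact Finset.sum_congr rfl fun z _ => hsym x z
  constructor
  · unfold Pn
    rw [Matrix.sub_mul, Matrix.one_mul, Matrix.smul_mul]
    have : (Matrix.of (fun _ _ : Fin n => (1 : ℝ))) * XiP i j k = 0 := by
      ext x y
      rw [Matrix.mul_apply]
      simp only [Matrix.of_apply, one_mul, Matrix.zero_apply]
      exact hcol y
    rw [this]
    simp
  · unfold Pn
    rw [Matrix.mul_sub, Matrix.mul_one, Matrix.mul_smul]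
    have : XiP i j k * (Matrix.of (fun _ _ : Fin n => (1 : ℝ))) = 0 := by
      ext x y
      rw [Matrix.mul_apply]
      simp only [Matrix.of_apply, mul_one, Matrix.zero_apply]
      exact hrow x
    rw [this]
    simp

theorem altP_eq {n : ℕ} (i j k : Fin n) (σ : Fin n → Fin n → Bool) :
    alt8 (Mx σ i i) (Mx σ i j) (Mx σ j k) (Mx σ k k) = if AltP i j k σ then 8 else 0 := by
  rcases Bool.eq_false_or_eq_true (σ i i) with h1 | h1 <;>
  rcases Bool.eq_false_or_eq_true (σ i j) with h2 | h2 <;>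
  rcases Bool.eq_false_or_eq_true (σ j k) with h3 | h3 <;>
  rcases Bool.eq_false_or_eq_true (σ k k) with h4 | h4 <;>
  norm_num [alt8, Mx, AltP, h1, h2, h3, h4]

private theorem A3_Mx_sq {n : ℕ} (σ : Fin n → Fin n → Bool) (x y : Fin n) : Mx σ x y ^ 2 = 1 := by
  unfold Mx
  rw [Matrix.of_apply]
  split_ifs <;> norm_num

private theorem A3_pth_symm {n : ℕ} (i j k : Fin n) : ∀ x y, pth i j k x y = pth i j k y x := by
  intro x y
  unfold pth
  rw [decide_eq_decide]
  tauto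

private theorem A3_pth_ii {n : ℕ} (i j k : Fin n) : pth i j k i i = true := by
  unfold pth; rw [decide_eq_true_eq]; tauto

private theorem A3_pth_ij {n : ℕ} (i j k : Fin n) : pth i j k i j = true := by
  unfold pth; rw [decide_eq_true_eq]; tauto

private theorem A3_pth_jk {n : ℕ} (i j k : Fin n) : pth i j k j k = true := by
  unfold pth; rw [decide_eq_true_eq]; tauto

private theorem A3_pth_kk {n : ℕ} (i j k : Fin n) : pth i j k k k = true := by
  unfold pth; rw [decide_eq_true_eq]; tauto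

private theorem A3_flip_at {n : ℕ} (E σ : Fin n → Fin n → Bool) {x y : Fin n} (h : E x y = true) :
    flipP E σ x y = !(σ x y) := by
  unfold flipP; rw [h]; simp

private theorem A3_alt_flip {n : ℕ} (i j k : Fin n) (σ : Fin n → Fin n → Bool) :
    AltP i j k (flipP (pth i j k) σ) ↔ AltP i j k σ := by
  unfold AltP
  rw [A3_flip_at _ _ (A3_pth_ii i j k), A3_flip_at _ _ (A3_pth_ij i j k),
    A3_flip_at _ _ (A3_pth_jk i j k), A3_flip_at _ _ (A3_pth_kk i j k)]
  simp

private theorem A3_two {n : ℕ} {a b : Fin n} (hab : a ≠ b) (g : Fin n → ℤ) :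
    (∑ y, if (y = a ∨ y = b) then g y else 0) = g a + g b := by
  have h : ∀ y, (if (y = a ∨ y = b) then g y else 0) =
      (if y = a then g y else 0) + (if y = b then g y else 0) := by
    intro y
    by_cases h1 : y = a
    · subst h1
      simp [hab]
    · by_cases h2 : y = b
      · subst h2
        simp [h1]
      · simp [h1, h2]
  simp only [h, Finset.sum_add_distrib, Finset.sum_ite_eq', Finset.mem_univ, if_true]

private theorem A3_sgn {p q : Bool} (h : p ≠ q) :
    (if p then (1 : ℤ) else -1) + (if q then (1 : ℤ) else -1) = 0 := by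
  cases p <;> cases q <;> simp_all

private theorem A3_bal {n : ℕ} {i j k : Fin n} (h1 : i ≠ j) (h2 : i ≠ k) (h4 : j ≠ k)
    {σ : Fin n → Fin n → Bool} (hs : ∀ x y, σ x y = σ y x) (ha : AltP i j k σ) :
    Bal (pth i j k) σ := by
  obtain ⟨ha1, ha2, ha3⟩ := ha
  intro x
  by_cases hxi : x = i
  · subst hxi
    have : ∀ y, (if pth x j k x y then (if σ x y then (1 : ℤ) else -1) else 0) =
        (if (y = x ∨ y = j) then (if σ x y then (1 : ℤ) else -1) else 0) := by
      intro y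
      have e : pth x j k x y = decide (y = x ∨ y = j) := by
        unfold pth
        rw [decide_eq_decide]
        constructor
        · rintro (h | h | h | h | h | h)
          · exact Or.inl h.2
          · exact Or.inr h.2
          · exact absurd h.1 h1
          · exact absurd h.1 h1
          · exact absurd h.1 h2
          · exact absurd h.1 h2
        · rintro (h | h)
          · exact Or.inl ⟨rfl, h⟩
          · exact Or.inr (Or.inl ⟨rfl, h⟩)
      rw [e]
      simp only [decide_eq_true_eq]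
    simp only [this]
    rw [A3_two h1 (fun y => if σ x y then (1 : ℤ) else -1)]
    exact A3_sgn ha1
  by_cases hxj : x = j
  · subst hxj
    have : ∀ y, (if pth i x k x y then (if σ x y then (1 : ℤ) else -1) else 0) =
        (if (y = i ∨ y = k) then (if σ x y then (1 : ℤ) else -1) else 0) := by
      intro y
      have e : pth i x k x y = decide (y = i ∨ y = k) := by
        unfold pth
        rw [decide_eq_decide]
        constructor
        · rintro (h | h | h | h | h | h)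
          · exact absurd h.1 hxi
          · exact absurd h.1 hxi
          · exact Or.inl h.2
          · exact Or.inr h.2
          · exact absurd h.1 h4
          · exact absurd h.1 h4
        · rintro (h | h)
          · exact Or.inr (Or.inr (Or.inl ⟨rfl, h⟩))
          · exact Or.inr (Or.inr (Or.inr (Or.inl ⟨rfl, h⟩)))
      rw [e]
      simp only [decide_eq_true_eq]
    simp only [this]
    rw [A3_two h2 (fun y => if σ x y then (1 : ℤ) else -1), hs x i]
    exact A3_sgn ha2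
  by_cases hxk : x = k
  · subst hxk
    have : ∀ y, (if pth i j x x y then (if σ x y then (1 : ℤ) else -1) else 0) =
        (if (y = j ∨ y = x) then (if σ x y then (1 : ℤ) else -1) else 0) := by
      intro y
      have e : pth i j x x y = decide (y = j ∨ y = x) := by
        unfold pth
        rw [decide_eq_decide]
        constructor
        · rintro (h | h | h | h | h | h)
          · exact absurd h.1 hxi
          · exact absurd h.1 hxi
          · exact absurd h.1 hxj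
          · exact absurd h.1 hxj
          · exact Or.inl h.2
          · exact Or.inr h.2
        · rintro (h | h)
          · exact Or.inr (Or.inr (Or.inr (Or.inr (Or.inl ⟨rfl, h⟩))))
          · exact Or.inr (Or.inr (Or.inr (Or.inr (Or.inr ⟨rfl, h⟩))))
      rw [e]
      simp only [decide_eq_true_eq]
    simp only [this]
    rw [A3_two h4 (fun y => if σ x y then (1 : ℤ) else -1), hs x j]
    exact A3_sgn ha3
  · apply Finset.sum_eq_zero
    intro y _
    have e : pth i j k x y = false := by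
      unfold pth
      rw [decide_eq_false_iff_not]
      rintro (h | h | h | h | h | h)
      · exact hxi h.1
      · exact hxi h.1
      · exact hxj h.1
      · exact hxj h.1
      · exact hxk h.1
      · exact hxk h.1
    rw [e]
    simp

private theorem A3_mem {n : ℕ} {σ : Fin n → Fin n → Bool} (h : σ ∈ Sn n) :
    ∀ x y, σ x y = σ y x := by
  unfold Sn at h
  exact (Finset.mem_filter.1 h).2.1

private theorem A3_neg {n : ℕ} {σ : Fin n → Fin n → Bool} {x y z w : Fin n} (h : σ x y ≠ σ z w) :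
    Mx σ z w = - Mx σ x y := by
  unfold Mx
  rw [Matrix.of_apply, Matrix.of_apply]
  cases h1 : σ x y <;> cases h2 : σ z w <;> simp_all

private theorem A3_alt8_neg (a b c d : ℝ) : alt8 (-a) (-b) (-c) (-d) = alt8 a b c d := by
  unfold alt8; ring

private theorem A3_alt8_flip {n : ℕ} (i j k : Fin n) (σ : Fin n → Fin n → Bool) :
    alt8 (Mx (flipP (pth i j k) σ) i i) (Mx (flipP (pth i j k) σ) i j)
      (Mx (flipP (pth i j k) σ) j k) (Mx (flipP (pth i j k) σ) k k) =
    alt8 (Mx σ i i) (Mx σ i j) (Mx σ j k) (Mx σ k k) := by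
  rw [Mx_flipP, Mx_flipP, Mx_flipP, Mx_flipP, A3_pth_ii, A3_pth_ij, A3_pth_jk, A3_pth_kk]
  simp only [if_true]
  exact A3_alt8_neg _ _ _ _

private theorem A3_EU_swap {n : ℕ} {i j k : Fin n} (h1 : i ≠ j) (h2 : i ≠ k) (h4 : j ≠ k)
    (h : (Fin n → Fin n → Bool) → ℂ) :
    EU (fun σ => (alt8 (Mx σ i i) (Mx σ i j) (Mx σ j k) (Mx σ k k) : ℂ) *
      h (flipP (pth i j k) σ)) =
    EU (fun σ => (alt8 (Mx σ i i) (Mx σ i j) (Mx σ j k) (Mx σ k k) : ℂ) * h σ) := by
  have key : ∀ σ ∈ Sn n, ¬ Bal (pth i j k) σ →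
      alt8 (Mx σ i i) (Mx σ i j) (Mx σ j k) (Mx σ k k) = 0 := by
    intro σ hσ hb
    rw [altP_eq]
    rw [if_neg]
    intro ha
    exact hb (A3_bal h1 h2 h4 (A3_mem hσ) ha)
  have := EU_flip (pth i j k) (A3_pth_symm i j k)
    (fun σ => (alt8 (Mx σ i i) (Mx σ i j) (Mx σ j k) (Mx σ k k) : ℂ) * h σ)
  have e1 : EU (fun σ => (alt8 (Mx σ i i) (Mx σ i j) (Mx σ j k) (Mx σ k k) : ℂ) *
      h (flipP (pth i j k) σ)) =
      EU (fun σ => if Bal (pth i j k) σ then
        (fun σ => (alt8 (Mx σ i i) (Mx σ i j) (Mx σ j k) (Mx σ k k) : ℂ) * h σ)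
          (flipP (pth i j k) σ) else 0) := by
    apply EU_congr
    intro σ hσ
    by_cases hb : Bal (pth i j k) σ
    · rw [if_pos hb]
      simp only []
      rw [A3_alt8_flip]
    · rw [if_neg hb, key σ hσ hb]
      simp
  have e2 : EU (fun σ => (alt8 (Mx σ i i) (Mx σ i j) (Mx σ j k) (Mx σ k k) : ℂ) * h σ) =
      EU (fun σ => if Bal (pth i j k) σ then
        (alt8 (Mx σ i i) (Mx σ i j) (Mx σ j k) (Mx σ k k) : ℂ) * h σ else 0) := by
    apply EU_congr
    intro σ hσ
    by_cases hb : Bal (pth i j k) σ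
    · rw [if_pos hb]
    · rw [if_neg hb, key σ hσ hb]
      simp
  rw [e1, e2]
  exact this

theorem flipP_mem_pth {n : ℕ} {i j k : Fin n} (h1 : i ≠ j) (h2 : i ≠ k) (h4 : j ≠ k)
    {σ : Fin n → Fin n → Bool} (hσ : σ ∈ Sn n) (ha : AltP i j k σ) :
    flipP (pth i j k) σ ∈ Sn n ∧ AltP i j k (flipP (pth i j k) σ) := by
  refine ⟨flipP_mem _ _ (A3_pth_symm i j k) hσ (A3_bal h1 h2 h4 (A3_mem hσ) ha), ?_⟩
  exact (A3_alt_flip i j k σ).2 ha

theorem Mx_switchP {n : ℕ} {i j k : Fin n} (h1 : i ≠ j) (h2 : i ≠ k) (h4 : j ≠ k)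
    {σ : Fin n → Fin n → Bool} (hσ : σ ∈ Sn n) (ha : AltP i j k σ) :
    Mx (flipP (pth i j k) σ) = Mx σ - (2 * Mx σ i i) • XiP i j k := by
  have hs := A3_mem hσ
  obtain ⟨ha1, ha2, ha3⟩ := ha
  have e1 : Mx σ i j = - Mx σ i i := A3_neg ha1
  have e2 : Mx σ j k = Mx σ i i := by rw [A3_neg ha2, e1]; ring
  have e3 : Mx σ k k = - Mx σ i i := by rw [A3_neg ha3, e2]
  have e1' : Mx σ j i = - Mx σ i i := by
    rw [← e1]; unfold Mx; rw [Matrix.of_apply, Matrix.of_apply, hs j i]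
  have e2' : Mx σ k j = Mx σ i i := by
    rw [← e2]; unfold Mx; rw [Matrix.of_apply, Matrix.of_apply, hs k j]
  ext x y
  rw [Mx_flipP]
  simp only [Matrix.sub_apply, Matrix.smul_apply, smul_eq_mul, XiP, Ed, Es, Matrix.add_apply,
    Matrix.of_apply]
  generalize hA : Mx σ i i = A at *
  by_cases hxi : x = i
  · by_cases hyi : y = i
    · rw [hxi, hyi, A3_pth_ii, hA]
      simp [h1, h2, h1.symm, h2.symm]
      ring
    · by_cases hyj : y = j
      · rw [hxi, hyj, A3_pth_ij, e1]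
        simp [h1, h2, h4, h1.symm, h2.symm, h4.symm]
        ring
      · have e : pth i j k x y = false := by
          unfold pth
          rw [decide_eq_false_iff_not, hxi]
          rintro (h | h | h | h | h | h)
          · exact hyi h.2
          · exact hyj h.2
          · exact h1 h.1
          · exact h1 h.1
          · exact h2 h.1
          · exact h2 h.1
        rw [e, hxi]
        simp [hyi, hyj, h1, h2]
  · by_cases hxj : x = j
    · by_cases hyi : y = i
      · have e : pth i j k x y = true := by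
          rw [hxj, hyi, A3_pth_symm]; exact A3_pth_ij i j k
        rw [e, hxj, hyi, e1']
        simp [h1, h2, h4, h1.symm, h2.symm, h4.symm]
        ring
      · by_cases hyk : y = k
        · rw [hxj, hyk, A3_pth_jk, e2]
          simp [h1, h2, h4, h1.symm, h2.symm, h4.symm]
          ring
        · have e : pth i j k x y = false := by
            unfold pth
            rw [decide_eq_false_iff_not, hxj]
            rintro (h | h | h | h | h | h)
            · exact h1 h.1.symm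
            · exact h1 h.1.symm
            · exact hyi h.2
            · exact hyk h.2
            · exact h4 h.1
            · exact h4 h.1
          rw [e, hxj]
          simp [hyi, hyk, h1, h4, h1.symm]
    · by_cases hxk : x = k
      · by_cases hyj : y = j
        · have e : pth i j k x y = true := by
            rw [hxk, hyj, A3_pth_symm]; exact A3_pth_jk i j k
          rw [e, hxk, hyj, e2']
          simp [h1, h2, h4, h1.symm, h2.symm, h4.symm]
          ring
        · by_cases hyk : y = k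
          · rw [hxk, hyk, A3_pth_kk, e3]
            simp [h1, h2, h4, h1.symm, h2.symm, h4.symm]
            ring
          · have e : pth i j k x y = false := by
              unfold pth
              rw [decide_eq_false_iff_not, hxk]
              rintro (h | h | h | h | h | h)
              · exact h2 h.1.symm
              · exact h2 h.1.symm
              · exact h4 h.1.symm
              · exact h4 h.1.symm
              · exact hyj h.2
              · exact hyk h.2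
            rw [e, hxk]
            simp [hyj, hyk, h2.symm, h4.symm]
      · have e : pth i j k x y = false := by
          unfold pth
          rw [decide_eq_false_iff_not]
          rintro (h | h | h | h | h | h)
          · exact hxi h.1
          · exact hxi h.1
          · exact hxj h.1
          · exact hxj h.1
          · exact hxk h.1
          · exact hxk h.1
        rw [e]
        simp [hxi, hxj, hxk]

theorem pth_identity {n : ℕ} {i j k : Fin n} (h1 : i ≠ j) (h2 : i ≠ k) (h4 : j ≠ k)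
    (f D : (Fin n → Fin n → Bool) → ℂ)
    (r : (Fin n → Fin n → Bool) → ℝ) (hr0 : ∀ σ ∈ Sn n, 0 ≤ r σ)
    (hr : ∀ σ ∈ Sn n, AltP i j k σ →
      ‖f (flipP (pth i j k) σ) - f σ + (Mx σ i i : ℂ) * (D σ + D (flipP (pth i j k) σ))‖ ≤ r σ) :
    ‖EU (fun σ => (s8 (Mx σ i i) (Mx σ i j) (Mx σ j k) (Mx σ k k) : ℂ) * f σ)
      - EU (fun σ => (alt8 (Mx σ i i) (Mx σ i j) (Mx σ j k) (Mx σ k k) : ℂ) * D σ)‖
      ≤ 4 * EU r := by
  set A : (Fin n → Fin n → Bool) → ℂ :=
    fun σ => (alt8 (Mx σ i i) (Mx σ i j) (Mx σ j k) (Mx σ k k) : ℂ) with hAdef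
  set a : (Fin n → Fin n → Bool) → ℂ := fun σ => (Mx σ i i : ℂ) with hadef
  set fl : (Fin n → Fin n → Bool) → (Fin n → Fin n → Bool) := flipP (pth i j k) with hfl
  have ha_flip : ∀ σ, a (fl σ) = - a σ := by
    intro σ
    simp only [hadef, hfl]
    rw [Mx_flipP, A3_pth_ii]
    simp
  have ha_sq : ∀ σ, a σ * a σ = 1 := by
    intro σ
    simp only [hadef]
    have := A3_Mx_sq σ i i
    have h2 : ((Mx σ i i : ℝ) : ℂ) ^ 2 = 1 := by exact_mod_cast this
    rw [← sq]; exact h2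
  have hs8 : ∀ σ, ((s8 (Mx σ i i) (Mx σ i j) (Mx σ j k) (Mx σ k k) : ℝ) : ℂ) = a σ * A σ := by
    intro σ
    rw [s8_eq (A3_Mx_sq σ i i)]
    simp only [hadef, hAdef]
    push_cast
    ring
  have swap1 := A3_EU_swap h1 h2 h4 (fun σ => a σ * f σ)
  have swap2 := A3_EU_swap h1 h2 h4 D
  simp only [← hfl] at swap1 swap2
  change EU (fun σ => A σ * (a (fl σ) * f (fl σ))) = EU (fun σ => A σ * (a σ * f σ)) at swap1
  change EU (fun σ => A σ * D (fl σ)) = EU (fun σ => A σ * D σ) at swap2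
  have main : EU (fun σ => (s8 (Mx σ i i) (Mx σ i j) (Mx σ j k) (Mx σ k k) : ℂ) * f σ)
      - EU (fun σ => A σ * D σ) =
      (-(1/2) : ℂ) * EU (fun σ => A σ * a σ * (f (fl σ) - f σ + a σ * (D σ + D (fl σ)))) := by
    have e1 : EU (fun σ => (s8 (Mx σ i i) (Mx σ i j) (Mx σ j k) (Mx σ k k) : ℂ) * f σ) =
        EU (fun σ => A σ * (a σ * f σ)) := by
      apply EU_congr
      intro σ _
      rw [hs8]; ring
    have e2 : EU (fun σ => A σ * a σ * (f (fl σ) - f σ + a σ * (D σ + D (fl σ)))) =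
        - EU (fun σ => A σ * (a (fl σ) * f (fl σ))) - EU (fun σ => A σ * (a σ * f σ))
          + (EU (fun σ => A σ * D σ) + EU (fun σ => A σ * D (fl σ))) := by
      have e3 : EU (fun σ => A σ * a σ * (f (fl σ) - f σ + a σ * (D σ + D (fl σ)))) =
          EU (fun σ => ((-1 : ℂ) * (A σ * (a (fl σ) * f (fl σ))) - (A σ * (a σ * f σ)))
            + ((A σ * D σ) + (A σ * D (fl σ)))) := by
        apply EU_congr
        intro σ _
        rw [ha_flip]
        have := ha_sq σ
        linear_combination (A σ * (D σ + D (fl σ))) * this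
      rw [e3, EU_add, EU_sub, EU_add, EU_mul_left]
      ring
    rw [e1, e2, swap1, swap2]
    ring
  rw [main, norm_mul]
  have hn : ‖(-(1/2) : ℂ)‖ = 1/2 := by norm_num
  rw [hn]
  have hb : ‖EU (fun σ => A σ * a σ * (f (fl σ) - f σ + a σ * (D σ + D (fl σ))))‖ ≤
      8 * EU r := by
    refine (EU_norm_le _).trans ?_
    have : 8 * EU r = EU (fun σ => (8 : ℝ) • r σ) := by
      rw [EU_smul]; simp
    rw [this]
    apply EU_mono
    intro σ hσ
    have hna : ‖a σ‖ = 1 := by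
      have := congrArg norm (ha_sq σ)
      rw [norm_mul, norm_one] at this
      nlinarith [norm_nonneg (a σ)]
    rw [norm_mul, norm_mul, hna, mul_one, smul_eq_mul]
    by_cases hal : AltP i j k σ
    · have hA8 : A σ = 8 := by
        simp only [hAdef]
        rw [altP_eq, if_pos hal]
        norm_num
      rw [hA8]
      have h8 : ‖(8 : ℂ)‖ = 8 := by norm_num
      rw [h8]
      exact mul_le_mul_of_nonneg_left (hr σ hσ hal) (by norm_num)
    · have hA0 : A σ = 0 := by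
        simp only [hAdef]
        rw [altP_eq, if_neg hal]
        norm_num
      rw [hA0, norm_zero, zero_mul]
      exact mul_nonneg (by norm_num) (hr0 σ hσ)
  linarith

end Pool.Agent.ZR

end

section

/-!
# ZR, part G, norm toolkit 2: the nuclear norm predicate.

`NuLe C τ`: `C i j = ∑_k c_k u_k(i) v_k(j)`, `c_k ≥ 0`, `‖u_k‖, ‖v_k‖ ≤ 1`, `∑ c_k ≤ τ`.
* `nu_nonneg`: `0 ≤ ∑ c ≤ τ`.
* `nu_mul_left`: if `L = 0` then `A = 0` (`opLe_entry`) and `A * C = 0` (`K = 0`); if `L > 0` replace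
  `c_k` by `L c_k` and `u_k` by `(1/L) A u_k`.
* `nu_mul_right`: the same with `v_k` and `Aᵀ`.
* `nu_diag`: `∑_j ‖C j j‖ ≤ ∑_k c_k ∑_j ‖u_k j‖ ‖v_k j‖ ≤ ∑ c_k` (`cs1`).
* `nu_trace`: `nu_mul_left` + `nu_diag`.
* `nu_sandwich`: `(M²) ∘ C = ∑_a D_a C D_a`, `D_a = diag(M a ·)` unitary: index set `Fin n × Fin K`
  (transport to `Fin` by `finProdFinEquiv`), vectors `i ↦ M a i * u_k i`, `j ↦ M a j * v_k j`,
  weights `c_k`; the sum of the weights is `n τ`.
* `nu_four`: `∑ M_ij M_jk M_kl M_li A_jl C_ki = ∑_r c_r ∑_{jl} A_jl P_jl Q_jl`,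
  `P = M diag(u_r) M`, `Q = M diag(v_r) M`; `hs2 P ≤ L² hs2 (diag(u_r) M) ≤ L² n`, same for `Q`.
  So it is `≤ τ γ L² n`.
* `nu_conj`: take conjugates of `u, v`.
-/


open MeasureTheory ProbabilityTheory Matrix

namespace Pool.Agent.ZR.G

theorem nu_of_ft {n : ℕ} {ι : Type*} [Fintype ι] (C : Matrix (Fin n) (Fin n) ℂ) (τ : ℝ)
    (c : ι → ℝ) (u v : ι → Fin n → ℂ) (hc : ∀ k, 0 ≤ c k) (hu : ∀ k, ∑ i, ‖u k i‖ ^ 2 ≤ 1)
    (hv : ∀ k, ∑ i, ‖v k i‖ ^ 2 ≤ 1) (h : ∀ i j, C i j = ∑ k, (c k : ℂ) * u k i * v k j)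
    (hs : ∑ k, c k ≤ τ) : NuLe C τ := by
  classical
  let e := (Fintype.equivFin ι).symm
  refine ⟨Fintype.card ι, fun k => c (e k), fun k => u (e k), fun k => v (e k), fun k => hc _,
    fun k => hu _, fun k => hv _, ?_, ?_⟩
  · intro i j
    rw [h i j]
    exact (Equiv.sum_comp e (fun k => (c k : ℂ) * u k i * v k j)).symm
  · rw [Equiv.sum_comp e c]
    exact hs

theorem nu_transpose {n : ℕ} {C : Matrix (Fin n) (Fin n) ℂ} {τ : ℝ} (hC : NuLe C τ) :
    NuLe Cᵀ τ := by
  obtain ⟨K, c, u, v, hc, hu, hv, h, hs⟩ := hC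
  refine ⟨K, c, v, u, hc, hv, hu, ?_, hs⟩
  intro i j
  rw [Matrix.transpose_apply, h j i]
  refine Finset.sum_congr rfl fun k _ => ?_
  ring

theorem nu_nonneg {n : ℕ} {C : Matrix (Fin n) (Fin n) ℂ} {τ : ℝ} (hC : NuLe C τ) : 0 ≤ τ := by
  obtain ⟨K, c, u, v, hc, hu, hv, h, hs⟩ := hC
  exact le_trans (Finset.sum_nonneg fun k _ => hc k) hs

theorem nu_mono {n : ℕ} {C : Matrix (Fin n) (Fin n) ℂ} {τ τ' : ℝ} (hC : NuLe C τ)
    (h : τ ≤ τ') : NuLe C τ' := by
  obtain ⟨K, c, u, v, hc, hu, hv, h1, hs⟩ := hC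
  exact ⟨K, c, u, v, hc, hu, hv, h1, hs.trans h⟩

theorem nu_mul_left {n : ℕ} (A C : Matrix (Fin n) (Fin n) ℂ) (L τ : ℝ) (hA : OpLe A L)
    (hC : NuLe C τ) : NuLe (A * C) (L * τ) := by
  obtain ⟨K, c, u, v, hc, hu, hv, h1, hs⟩ := hC
  rcases hA.1.eq_or_lt with hL | hL
  · have hA0 : ∀ i j, A i j = 0 := by
      intro i j
      have h2 := opLe_entry A L hA i j
      rw [← hL] at h2
      exact norm_le_zero_iff.1 h2
    refine ⟨0, fun _ => 0, fun _ _ => 0, fun _ _ => 0, fun k => k.elim0, fun k => k.elim0,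
      fun k => k.elim0, ?_, ?_⟩
    · intro i j
      rw [Matrix.mul_apply]
      simp [hA0]
    · rw [← hL]; simp
  · have hLc : (L : ℂ) ≠ 0 := by exact_mod_cast hL.ne'
    refine ⟨K, fun k => L * c k, fun k i => (1 / (L : ℂ)) * (A *ᵥ u k) i, v,
      fun k => mul_nonneg hL.le (hc k), ?_, hv, ?_, ?_⟩
    · intro k
      have h2 := hA.2 (u k)
      have h3 : ∀ i, ‖(1 / (L : ℂ)) * (A *ᵥ u k) i‖ ^ 2 = (1 / L ^ 2) * ‖(A *ᵥ u k) i‖ ^ 2 := by
        intro i
        rw [norm_mul, norm_div, norm_one, Complex.norm_real, Real.norm_of_nonneg hL.le, mul_pow,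
          div_pow, one_pow]
      rw [Finset.sum_congr rfl fun i _ => h3 i, ← Finset.mul_sum]
      have h4 : ∑ i, ‖(A *ᵥ u k) i‖ ^ 2 ≤ L ^ 2 * 1 :=
        h2.trans (mul_le_mul_of_nonneg_left (hu k) (by positivity))
      rw [mul_one] at h4
      rw [one_div, inv_mul_le_iff₀ (by positivity), mul_one]
      exact h4
    · intro i j
      rw [Matrix.mul_apply]
      have h5 : ∀ k, ((L * c k : ℝ) : ℂ) * ((1 / (L : ℂ)) * (A *ᵥ u k) i) * v k j =
          ∑ m, A i m * ((c k : ℂ) * u k m * v k j) := by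
        intro k
        rw [Matrix.mulVec, dotProduct]
        push_cast
        have h6 : (L : ℂ) * (c k : ℂ) * (1 / (L : ℂ) * ∑ m, A i m * u k m) * v k j =
            ((c k : ℂ) * v k j) * ∑ m, A i m * u k m := by
          field_simp
        rw [h6, Finset.mul_sum]
        refine Finset.sum_congr rfl fun m _ => ?_
        ring
      rw [Finset.sum_congr rfl fun k _ => h5 k, Finset.sum_comm]
      refine Finset.sum_congr rfl fun m _ => ?_
      rw [h1 m j, Finset.mul_sum]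
    · rw [← Finset.mul_sum]
      exact mul_le_mul_of_nonneg_left hs hL.le

theorem nu_mul_right {n : ℕ} (A C : Matrix (Fin n) (Fin n) ℂ) (L τ : ℝ) (hA : OpLe Aᵀ L)
    (hC : NuLe C τ) : NuLe (C * A) (L * τ) := by
  have h1 := nu_transpose (nu_mul_left Aᵀ Cᵀ L τ hA (nu_transpose hC))
  rw [Matrix.transpose_mul, Matrix.transpose_transpose, Matrix.transpose_transpose] at h1
  exact h1

theorem nu_diag {n : ℕ} (C : Matrix (Fin n) (Fin n) ℂ) (τ : ℝ) (hC : NuLe C τ) :
    ∑ j, ‖C j j‖ ≤ τ := by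
  obtain ⟨K, c, u, v, hc, hu, hv, h1, hs⟩ := hC
  calc ∑ j, ‖C j j‖ ≤ ∑ j, ∑ k, c k * (‖u k j‖ * ‖v k j‖) := by
        refine Finset.sum_le_sum fun j _ => ?_
        rw [h1 j j]
        refine (norm_sum_le _ _).trans (Finset.sum_le_sum fun k _ => ?_)
        rw [norm_mul, norm_mul, Complex.norm_real, Real.norm_of_nonneg (hc k), mul_assoc]
    _ = ∑ k, c k * ∑ j, ‖u k j‖ * ‖v k j‖ := by
        rw [Finset.sum_comm]
        refine Finset.sum_congr rfl fun k _ => ?_
        rw [Finset.mul_sum]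
    _ ≤ ∑ k, c k * 1 := by
        refine Finset.sum_le_sum fun k _ => mul_le_mul_of_nonneg_left ?_ (hc k)
        have := cs1 (u k) (v k) 1 1 zero_le_one zero_le_one (by simpa using hu k)
          (by simpa using hv k)
        simpa using this
    _ ≤ τ := by simpa using hs

theorem nu_trace {n : ℕ} (A C : Matrix (Fin n) (Fin n) ℂ) (L τ : ℝ) (hA : OpLe A L)
    (hC : NuLe C τ) : ‖(A * C).trace‖ ≤ L * τ := by
  have h1 := nu_diag _ _ (nu_mul_left A C L τ hA hC)
  refine le_trans ?_ h1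
  exact norm_sum_le _ _

theorem nu_sandwich {n : ℕ} {M : Matrix (Fin n) (Fin n) ℂ} (hM : IsSg M)
    (C : Matrix (Fin n) (Fin n) ℂ) (τ : ℝ) (hC : NuLe C τ) :
    NuLe (Matrix.of fun i j => (M * M) i j * C i j) (n * τ) := by
  obtain ⟨K, c, u, v, hc, hu, hv, h1, hs⟩ := hC
  have hn : ∀ (a : Fin n) (w : Fin n → ℂ), ∑ i, ‖M a i * w i‖ ^ 2 = ∑ i, ‖w i‖ ^ 2 := by
    intro a w
    refine Finset.sum_congr rfl fun i _ => ?_
    rw [norm_mul, sg_norm hM, one_mul]
  refine nu_of_ft (ι := Fin n × Fin K) _ _ (fun p => c p.2) (fun p i => M p.1 i * u p.2 i)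
    (fun p i => M p.1 i * v p.2 i) (fun p => hc _) (fun p => ?_) (fun p => ?_) ?_ ?_
  · rw [hn]; exact hu _
  · rw [hn]; exact hv _
  · intro i j
    rw [Matrix.of_apply, Matrix.mul_apply, h1 i j, Finset.sum_mul, Fintype.sum_prod_type]
    refine Finset.sum_congr rfl fun a _ => ?_
    rw [Finset.mul_sum]
    refine Finset.sum_congr rfl fun k _ => ?_
    show M i a * M a j * ((c k : ℂ) * u k i * v k j) = (c k : ℂ) * (M a i * u k i) * (M a j * v k j)
    rw [hM.sym i a]
    ring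
  · rw [Fintype.sum_prod_type]
    simp only [Finset.sum_const, Finset.card_univ, Fintype.card_fin, nsmul_eq_mul]
    exact mul_le_mul_of_nonneg_left hs (Nat.cast_nonneg _)

theorem nu_four {n : ℕ} {M : Matrix (Fin n) (Fin n) ℂ} (hM : IsSg M) (L : ℝ) (hL : OpLe M L)
    (A C : Matrix (Fin n) (Fin n) ℂ) (γ τ : ℝ) (hA : EnLe A γ) (hC : NuLe C τ) :
    ‖∑ i, ∑ j, ∑ k, ∑ l, M i j * M j k * M k l * M l i * (A j l * C k i)‖
      ≤ τ * γ * (L ^ 2 * n) := by
  obtain ⟨K, c, u, v, hc, hu, hv, h1, hs⟩ := hC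
  rcases n.eq_zero_or_pos with hn | hn
  · subst hn
    simp
  have hγ : 0 ≤ γ := (norm_nonneg _).trans (hA ⟨0, hn⟩ ⟨0, hn⟩)
  have hL0 := hL.1
  set P : (Fin n → ℂ) → Matrix (Fin n) (Fin n) ℂ := fun w => M * (Matrix.diagonal w * M) with hP
  have hPa : ∀ (w : Fin n → ℂ) (j l : Fin n), P w j l = ∑ k, M j k * (w k * M k l) := by
    intro w j l
    show (M * (Matrix.diagonal w * M)) j l = _
    rw [Matrix.mul_apply]
    refine Finset.sum_congr rfl fun k _ => ?_
    rw [Matrix.diagonal_mul]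
  have hPh : ∀ (w : Fin n → ℂ), ∑ i, ‖w i‖ ^ 2 ≤ 1 → hs2 (P w) ≤ (L * Real.sqrt n) ^ 2 := by
    intro w hw
    refine (hs2_mul_le M _ L hL).trans ?_
    rw [mul_pow, Real.sq_sqrt (Nat.cast_nonneg _)]
    refine mul_le_mul_of_nonneg_left ?_ (by positivity)
    unfold hs2
    have h2 : ∀ i : Fin n, ∑ j, ‖(Matrix.diagonal w * M) i j‖ ^ 2 = ‖w i‖ ^ 2 * n := by
      intro i
      have h3 : ∀ j, ‖(Matrix.diagonal w * M) i j‖ ^ 2 = ‖w i‖ ^ 2 := by
        intro j
        rw [Matrix.diagonal_mul, norm_mul, sg_norm hM, mul_one]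
      rw [Finset.sum_congr rfl fun j _ => h3 j]
      simp only [Finset.sum_const, Finset.card_univ, Fintype.card_fin, nsmul_eq_mul]
      ring
    rw [Finset.sum_congr rfl fun i _ => h2 i, ← Finset.sum_mul]
    calc (∑ i, ‖w i‖ ^ 2) * (n : ℝ) ≤ 1 * n := mul_le_mul_of_nonneg_right hw (Nat.cast_nonneg _)
      _ = n := one_mul _
  have hmain : ∑ i, ∑ j, ∑ k, ∑ l, M i j * M j k * M k l * M l i * (A j l * C k i) =
      ∑ r, (c r : ℂ) * ∑ j, ∑ l, A j l * (P (u r) j l * P (v r) j l) := by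
    have h2 : ∀ r, (c r : ℂ) * ∑ j, ∑ l, A j l * (P (u r) j l * P (v r) j l) =
        ∑ j, ∑ l, ∑ k, ∑ i, M i j * M j k * M k l * M l i * (A j l * ((c r : ℂ) * u r k * v r i)) := by
      intro r
      rw [Finset.mul_sum]
      refine Finset.sum_congr rfl fun j _ => ?_
      rw [Finset.mul_sum]
      refine Finset.sum_congr rfl fun l _ => ?_
      rw [hPa, hPa, Finset.sum_mul, Finset.mul_sum, Finset.mul_sum]
      refine Finset.sum_congr rfl fun k _ => ?_
      rw [Finset.mul_sum, Finset.mul_sum, Finset.mul_sum]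
      refine Finset.sum_congr rfl fun i _ => ?_
      rw [hM.sym i j, hM.sym l i]
      ring
    rw [Finset.sum_congr rfl fun r _ => h2 r]
    have h3 : ∑ i, ∑ j, ∑ k, ∑ l, M i j * M j k * M k l * M l i * (A j l * C k i) =
        ∑ j, ∑ l, ∑ k, ∑ i, M i j * M j k * M k l * M l i * (A j l * C k i) := by
      rw [Finset.sum_comm]
      refine Finset.sum_congr rfl fun j _ => ?_
      rw [Finset.sum_comm]
      have h4 : ∀ k : Fin n, ∑ i, ∑ l, M i j * M j k * M k l * M l i * (A j l * C k i) =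
          ∑ l, ∑ i, M i j * M j k * M k l * M l i * (A j l * C k i) := fun k => Finset.sum_comm
      rw [Finset.sum_congr rfl fun k _ => h4 k, Finset.sum_comm]
    rw [h3, Finset.sum_comm]
    rw [Finset.sum_comm]
    have h5 : ∀ j : Fin n, ∑ l, ∑ k, ∑ i, M i j * M j k * M k l * M l i * (A j l * C k i) =
        ∑ l, ∑ k, ∑ i, ∑ r, M i j * M j k * M k l * M l i * (A j l * ((c r : ℂ) * u r k * v r i)) := by
      intro j
      refine Finset.sum_congr rfl fun l _ => Finset.sum_congr rfl fun k _ =>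
        Finset.sum_congr rfl fun i _ => ?_
      rw [h1 k i, Finset.mul_sum, Finset.mul_sum]
    rw [Finset.sum_congr rfl fun j _ => h5 j]
    symm
    rw [Finset.sum_comm]
    refine Finset.sum_congr rfl fun j _ => ?_
    rw [Finset.sum_comm]
    refine Finset.sum_congr rfl fun l _ => ?_
    rw [Finset.sum_comm]
    refine Finset.sum_congr rfl fun k _ => ?_
    rw [Finset.sum_comm]
  rw [hmain]
  have hB0 : 0 ≤ γ * (L ^ 2 * n) := by positivity
  calc ‖∑ r, (c r : ℂ) * ∑ j, ∑ l, A j l * (P (u r) j l * P (v r) j l)‖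
      ≤ ∑ r, c r * (γ * (L ^ 2 * n)) := by
        refine (norm_sum_le _ _).trans (Finset.sum_le_sum fun r _ => ?_)
        rw [norm_mul, Complex.norm_real, Real.norm_of_nonneg (hc r)]
        refine mul_le_mul_of_nonneg_left ?_ (hc r)
        have h6 := cs2 (fun j l => P (u r) j l) (fun j l => P (v r) j l) (L * Real.sqrt n)
          (L * Real.sqrt n) (by positivity) (by positivity) (hPh _ (hu r)) (hPh _ (hv r))
        have h7 : L * Real.sqrt n * (L * Real.sqrt n) = L ^ 2 * n := by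
          rw [mul_mul_mul_comm, Real.mul_self_sqrt (Nat.cast_nonneg _)]
          ring
        rw [h7] at h6
        calc ‖∑ j, ∑ l, A j l * (P (u r) j l * P (v r) j l)‖
            ≤ ∑ j, ∑ l, γ * (‖P (u r) j l‖ * ‖P (v r) j l‖) := by
              refine (norm_sum_le _ _).trans (Finset.sum_le_sum fun j _ => ?_)
              refine (norm_sum_le _ _).trans (Finset.sum_le_sum fun l _ => ?_)
              rw [norm_mul, norm_mul]
              exact mul_le_mul_of_nonneg_right (hA j l) (by positivity)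
          _ = γ * ∑ j, ∑ l, ‖P (u r) j l‖ * ‖P (v r) j l‖ := by
              simp only [Finset.mul_sum]
          _ ≤ γ * (L ^ 2 * n) := mul_le_mul_of_nonneg_left h6 hγ
    _ = (∑ r, c r) * (γ * (L ^ 2 * n)) := by rw [Finset.sum_mul]
    _ ≤ τ * (γ * (L ^ 2 * n)) := mul_le_mul_of_nonneg_right hs hB0
    _ = τ * γ * (L ^ 2 * n) := by ring

/-- product of two Hilbert-Schmidt matrices is nuclear: columns of `A` and rows of `B` -/
theorem nu_of_hs {n : ℕ} (A B : Matrix (Fin n) (Fin n) ℂ) (a b : ℝ) (ha : 0 ≤ a) (hb : 0 ≤ b)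
    (hA : hs2 A ≤ a ^ 2) (hB : hs2 B ≤ b ^ 2) : NuLe (A * B) (a * b) := by
  set α : Fin n → ℝ := fun m => Real.sqrt (∑ i, ‖A i m‖ ^ 2) with hα
  set β : Fin n → ℝ := fun m => Real.sqrt (∑ j, ‖B m j‖ ^ 2) with hβ
  have hα0 : ∀ m, 0 ≤ α m := fun m => Real.sqrt_nonneg _
  have hβ0 : ∀ m, 0 ≤ β m := fun m => Real.sqrt_nonneg _
  have hα2 : ∀ m, α m ^ 2 = ∑ i, ‖A i m‖ ^ 2 := fun m =>
    Real.sq_sqrt (Finset.sum_nonneg fun _ _ => by positivity)
  have hβ2 : ∀ m, β m ^ 2 = ∑ j, ‖B m j‖ ^ 2 := fun m =>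
    Real.sq_sqrt (Finset.sum_nonneg fun _ _ => by positivity)
  have hunit : ∀ (w : Fin n → ℂ) (t : ℝ), 0 ≤ t → t ^ 2 = ∑ i, ‖w i‖ ^ 2 →
      ∑ i, ‖w i / (t : ℂ)‖ ^ 2 ≤ 1 := by
    intro w t ht h2
    have h3 : ∀ i, ‖w i / (t : ℂ)‖ ^ 2 = ‖w i‖ ^ 2 / t ^ 2 := by
      intro i
      rw [norm_div, Complex.norm_real, Real.norm_of_nonneg ht, div_pow]
    rw [Finset.sum_congr rfl fun i _ => h3 i, ← Finset.sum_div, ← h2]
    exact div_self_le_one _
  have hzero : ∀ (w : Fin n → ℂ) (t : ℝ), t ^ 2 = ∑ i, ‖w i‖ ^ 2 → t = 0 → ∀ i, w i = 0 := by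
    intro w t h2 h3 i
    rw [h3] at h2
    have h4 : ∑ i, ‖w i‖ ^ 2 = 0 := by rw [← h2]; norm_num
    have h5 := (Finset.sum_eq_zero_iff_of_nonneg (fun i _ => by positivity)).1 h4 i
      (Finset.mem_univ i)
    have h6 : ‖w i‖ = 0 := by
      exact pow_eq_zero_iff (two_ne_zero) |>.1 h5
    exact norm_eq_zero.1 h6
  refine nu_of_ft (ι := Fin n) _ _ (fun m => α m * β m) (fun m i => A i m / (α m : ℂ))
    (fun m j => B m j / (β m : ℂ)) (fun m => mul_nonneg (hα0 m) (hβ0 m))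
    (fun m => hunit (fun i => A i m) (α m) (hα0 m) (hα2 m))
    (fun m => hunit (fun j => B m j) (β m) (hβ0 m) (hβ2 m)) ?_ ?_
  · intro i j
    rw [Matrix.mul_apply]
    refine Finset.sum_congr rfl fun m _ => ?_
    by_cases h1 : α m = 0
    · rw [hzero (fun i => A i m) (α m) (hα2 m) h1 i]
      simp
    · by_cases h2 : β m = 0
      · rw [hzero (fun j => B m j) (β m) (hβ2 m) h2 j]
        simp
      · have h3 : (α m : ℂ) ≠ 0 := by exact_mod_cast h1
        have h4 : (β m : ℂ) ≠ 0 := by exact_mod_cast h2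
        push_cast
        field_simp
  · have h1 := cs1 (fun m => (α m : ℂ)) (fun m => (β m : ℂ)) a b ha hb ?_ ?_
    · refine le_trans (le_of_eq ?_) h1
      refine Finset.sum_congr rfl fun m _ => ?_
      rw [Complex.norm_real, Complex.norm_real, Real.norm_of_nonneg (hα0 m),
        Real.norm_of_nonneg (hβ0 m)]
    · refine le_trans (le_of_eq ?_) hA
      unfold hs2
      rw [Finset.sum_comm]
      refine Finset.sum_congr rfl fun m _ => ?_
      rw [Complex.norm_real, Real.norm_of_nonneg (hα0 m), hα2]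
    · refine le_trans (le_of_eq ?_) hB
      unfold hs2
      refine Finset.sum_congr rfl fun m _ => ?_
      rw [Complex.norm_real, Real.norm_of_nonneg (hβ0 m), hβ2]

theorem nu_conj {n : ℕ} (C : Matrix (Fin n) (Fin n) ℂ) (τ : ℝ) (hC : NuLe C τ) :
    NuLe (C.map (starRingEnd ℂ)) τ := by
  obtain ⟨K, c, u, v, hc, hu, hv, h1, hs⟩ := hC
  refine ⟨K, c, fun k i => starRingEnd ℂ (u k i), fun k i => starRingEnd ℂ (v k i), hc, ?_, ?_,
    ?_, hs⟩
  · intro k
    simpa using hu k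
  · intro k
    simpa using hv k
  · intro i j
    rw [Matrix.map_apply, h1 i j, map_sum]
    refine Finset.sum_congr rfl fun k _ => ?_
    rw [map_mul, map_mul, Complex.conj_ofReal]

end Pool.Agent.ZR.G

end

section

/-!
# ZR, part K1 (helper58): the entropic comparison and GOE stationarity
-/


open MeasureTheory ProbabilityTheory Matrix

namespace Pool.Agent.ZR.K1

instance gmProb {N : ℕ} : IsProbabilityMeasure (gm N) := by unfold gm; infer_instance

lemma At_isSymm {N : ℕ} (v t : ℝ) (a : Fin N → ℝ) (X : Fin N × Fin N → ℝ) : (At v t a X).IsSymm := by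
  unfold At
  refine Matrix.IsSymm.add ?_ ?_
  · exact (Matrix.isSymm_diagonal a).smul _
  · exact (Wv_isSymm v X).smul _

/-- translation of the Gaussian array by a diagonal array -/
lemma At_shift {N : ℕ} {v t : ℝ} (hv : 0 < v) (ht : 0 < t) (a b : Fin N → ℝ)
    (X : Fin N × Fin N → ℝ) :
    At v t a X = At v t b (X + fun p => if p.1 = p.2 then
      Real.exp (-t / 2) * (a p.1 - b p.1) / (Real.sqrt (1 - Real.exp (-t)) * Real.sqrt (2 * v)) else 0) := by
  have h1 : 0 < 1 - Real.exp (-t) := by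
    have : Real.exp (-t) < 1 := by rw [Real.exp_lt_one_iff]; linarith
    linarith
  have h2 : 0 < Real.sqrt (1 - Real.exp (-t)) := Real.sqrt_pos.mpr h1
  have h3 : 0 < Real.sqrt (2 * v) := Real.sqrt_pos.mpr (by linarith)
  have h4 : Real.sqrt (2 * v) = 2 * Real.sqrt (v / 2) := by
    rw [show 2 * v = 2 ^ 2 * (v / 2) by ring, Real.sqrt_mul (by norm_num), Real.sqrt_sq (by norm_num)]
  have h5 : 0 < Real.sqrt (v / 2) := Real.sqrt_pos.mpr (by linarith)
  ext i j
  simp only [At, Matrix.add_apply, Matrix.smul_apply, smul_eq_mul, Wv, Matrix.of_apply, Pi.add_apply]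
  by_cases hij : i = j
  · subst hij
    simp only [Matrix.diagonal_apply_eq, if_true]
    rw [h4]
    field_simp
    ring
  · have hji : j ≠ i := fun h => hij h.symm
    simp [hij, hji]

lemma At_fixed {N : ℕ} {v t : ℝ} (hv : 0 < v) (ht : 0 < t) (g : Matrix (Fin N) (Fin N) ℝ → ℝ)
    (hg : Measurable (fun X : Fin N × Fin N → ℝ => g (symA X))) (M : ℝ) (hM : ∀ A, |g A| ≤ M)
    (a b : Fin N → ℝ) :
    ∫ X, g (At v t a X) ∂(gm N) ≤ Real.log (∫ X, Real.exp (g (At v t b X)) ∂(gm N))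
      + (1 / (4 * v * (Real.exp t - 1))) * ∑ i, (a i - b i) ^ 2 := by
  have h1 : 0 < 1 - Real.exp (-t) := by
    have : Real.exp (-t) < 1 := by rw [Real.exp_lt_one_iff]; linarith
    linarith
  set h : Fin N × Fin N → ℝ := fun p => if p.1 = p.2 then
      Real.exp (-t / 2) * (a p.1 - b p.1) / (Real.sqrt (1 - Real.exp (-t)) * Real.sqrt (2 * v)) else 0 with hh
  have hmeas : Measurable (fun X : Fin N × Fin N → ℝ => g (At v t b X)) := by
    refine measurable_of_symA hg _ (fun X => At_isSymm v t b X) fun i j => ?_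
    simp only [At, Matrix.add_apply, Matrix.smul_apply, smul_eq_mul, Wv, Matrix.of_apply]
    fun_prop
  have key := logHarnack (fun X : Fin N × Fin N → ℝ => g (At v t b X)) hmeas M (fun X => hM _) h
  have h2 : (∑ p, h p ^ 2) / 2 = (1 / (4 * v * (Real.exp t - 1))) * ∑ i, (a i - b i) ^ 2 := by
    have h3 : ∑ p, h p ^ 2 = ∑ i, (Real.exp (-t / 2) * (a i - b i) /
        (Real.sqrt (1 - Real.exp (-t)) * Real.sqrt (2 * v))) ^ 2 := by
      rw [Fintype.sum_prod_type]
      refine Finset.sum_congr rfl fun i _ => ?_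
      rw [Finset.sum_eq_single i]
      · simp [hh]
      · intro j _ hj
        have hij : i ≠ j := fun h => hj h.symm
        simp [hh, hij]
      · intro hi; exact absurd (Finset.mem_univ i) hi
    rw [h3]
    have h4 : ∀ i, (Real.exp (-t / 2) * (a i - b i) /
        (Real.sqrt (1 - Real.exp (-t)) * Real.sqrt (2 * v))) ^ 2
        = (1 / (2 * v * (Real.exp t - 1))) * (a i - b i) ^ 2 := by
      intro i
      rw [div_pow, mul_pow, mul_pow, Real.sq_sqrt h1.le, Real.sq_sqrt (by linarith), ← Real.exp_nat_mul]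
      have h5 : Real.exp (((2 : ℕ) : ℝ) * (-t / 2)) = Real.exp (-t) := by congr 1; push_cast; ring
      rw [h5]
      have h6 : 0 < Real.exp t - 1 := by
        have : 1 < Real.exp t := by rw [Real.one_lt_exp_iff]; exact ht
        linarith
      have h7 : 1 - Real.exp (-t) = Real.exp (-t) * (Real.exp t - 1) := by
        rw [mul_sub, ← Real.exp_add]; simp
      rw [h7]
      have h8 : Real.exp (-t) ≠ 0 := (Real.exp_pos _).ne'
      field_simp
    simp_rw [h4]
    rw [← Finset.mul_sum]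
    have h6 : 0 < Real.exp t - 1 := by
      have : 1 < Real.exp t := by rw [Real.one_lt_exp_iff]; exact ht
      linarith
    field_simp
    ring
  rw [h2] at key
  have h9 : ∀ X : Fin N × Fin N → ℝ, g (At v t b (X + h)) = g (At v t a X) := by
    intro X; rw [At_shift hv ht a b X]
  simp only [h9] at key
  exact key

/-- GOE stationarity, for an arbitrary function of the matrix which is conjugation invariant. -/
lemma stat_main {N : ℕ} {v t : ℝ} (ht : 0 < t) (g : Matrix (Fin N) (Fin N) ℝ → ℝ)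
    (hg : Measurable (fun X : Fin N × Fin N → ℝ => g (symA X)))
    (hconj : ∀ (O A : Matrix (Fin N) (Fin N) ℝ), Oᵀ * O = 1 → A.IsSymm → g (O * A * Oᵀ) = g A)
    (hi : Integrable (fun X : Fin N × Fin N → ℝ => g (Wv v X)) (gm N)) :
    ∫ Y, ∫ X, g (At v t (fun i => evs (Wv v Y) i) X) ∂(gm N) ∂(gm N) = ∫ X, g (Wv v X) ∂(gm N) := by
  have h1 : 0 < 1 - Real.exp (-t) := by
    have : Real.exp (-t) < 1 := by rw [Real.exp_lt_one_iff]; linarith
    linarith
  set c := Real.exp (-t / 2) with hc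
  set s := Real.sqrt (1 - Real.exp (-t)) with hs
  have hcs : c ^ 2 + s ^ 2 = 1 := by
    rw [hc, hs, Real.sq_sqrt h1.le, ← Real.exp_nat_mul]
    have h5 : Real.exp (((2 : ℕ) : ℝ) * (-t / 2)) = Real.exp (-t) := by congr 1; push_cast; ring
    rw [h5]; ring
  have hmW : Measurable (fun X : Fin N × Fin N → ℝ => g (Wv v X)) := by
    refine measurable_of_symA hg _ (fun X => Wv_isSymm v X) fun i j => ?_
    simp only [Wv, Matrix.of_apply]
    fun_prop
  -- inner integral
  have hin : ∀ Y : Fin N × Fin N → ℝ, ∫ X, g (At v t (fun i => evs (Wv v Y) i) X) ∂(gm N)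
      = ∫ X, g (Wv v (c • Y + s • X)) ∂(gm N) := by
    intro Y
    obtain ⟨O, hO1, hO2, hW⟩ := exists_orth_evs (Wv_isSymm v Y)
    have hO1' : (Oᵀ)ᵀ * Oᵀ = 1 := by rw [Matrix.transpose_transpose]; exact hO2
    have h2 := gm_map_conjA (O := Oᵀ) hO1'
    conv_lhs => rw [← h2]
    rw [integral_map]
    · refine integral_congr_ae (Filter.Eventually.of_forall fun X => ?_)
      simp only
      have h3 : Wv v (c • Y + s • X) = O * At v t (fun i => evs (Wv v Y) i) (conjA Oᵀ X) * Oᵀ := by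
        rw [Wv_lin, At, Wv_conjA, Matrix.transpose_transpose]
        conv_lhs => rw [hW]
        simp only [Matrix.mul_add, Matrix.add_mul, Matrix.mul_smul, Matrix.smul_mul]
        congr 1
        congr 1
        calc Wv v X = (O * Oᵀ) * Wv v X * (O * Oᵀ) := by rw [hO2]; simp
          _ = O * (Oᵀ * Wv v X * O) * Oᵀ := by simp only [Matrix.mul_assoc]
      rw [h3, hconj O _ hO1 (At_isSymm _ _ _ _)]
    · exact (LinearMap.continuous_of_finiteDimensional _).measurable.aemeasurable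
    · refine Measurable.aestronglyMeasurable ?_
      refine measurable_of_symA hg _ (fun X => At_isSymm v t _ X) fun i j => ?_
      simp only [At, Matrix.add_apply, Matrix.smul_apply, smul_eq_mul, Wv, Matrix.of_apply]
      fun_prop
  simp_rw [hin]
  have hrot := gst_rot (ι := Fin N × Fin N) c s hcs
  have hgm : gst (Fin N × Fin N) = gm N := rfl
  rw [hgm] at hrot
  have hmp : Measurable (fun p : (Fin N × Fin N → ℝ) × (Fin N × Fin N → ℝ) => c • p.1 + s • p.2) := by
    fun_prop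
  have h4 : ∫ X, g (Wv v X) ∂(gm N) = ∫ p : (Fin N × Fin N → ℝ) × (Fin N × Fin N → ℝ),
      g (Wv v (c • p.1 + s • p.2)) ∂((gm N).prod (gm N)) := by
    conv_lhs => rw [← hrot]
    rw [integral_map hmp.aemeasurable hmW.aestronglyMeasurable]
  rw [h4, integral_prod]
  rw [← hrot] at hi
  exact (integrable_map_measure hmW.aestronglyMeasurable hmp.aemeasurable).mp hi

end Pool.Agent.ZR.K1

end

section

/-!
# ZR part L : definitions (helper41).  Everything is stated for a sequence `x : ℕ → ℝ`, increasing on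
`{0, ..., n-1}`.
-/


open MeasureTheory

namespace Pool.Agent.ZR

/-- the gap function `G(g) = ∫ F(u, u + g_1, ..., u + g_k) du` -/
noncomputable def Gst {k : ℕ} (F : (Fin (k + 1) → ℝ) → ℝ) (g : Fin k → ℝ) : ℝ :=
  ∫ u : ℝ, F (Fin.cons u (fun q => u + g q))

open Classical in
/-- number of `i < n` with `|x i - y| ≤ r` -/
noncomputable def cI (n : ℕ) (x : ℕ → ℝ) (y r : ℝ) : ℕ :=
  ((Finset.range n).filter fun i => |x i - y| ≤ r).card

open Classical in
/-- number of `i < n` with `x i ≤ y` -/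
noncomputable def cN (n : ℕ) (x : ℕ → ℝ) (y : ℝ) : ℕ :=
  ((Finset.range n).filter fun i => x i ≤ y).card

/-- window average of the full sum at fixed scale `s` -/
noncomputable def Ufr (n : ℕ) {k : ℕ} (F : (Fin (k + 1) → ℝ) → ℝ) (E b s : ℝ) (x : ℕ → ℝ) : ℝ :=
  (1 / (2 * b)) * ∫ y in (E - b)..(E + b),
    ∑ f : Fin (k + 1) → Fin n, F (fun q => s * (x (f q) - y))

/-- the labelled sum -/
noncomputable def Psi {k : ℕ} (G : (Fin k → ℝ) → ℝ) (J : Finset ℕ) (K : ℕ) (s b : ℝ)
    (x : ℕ → ℝ) : ℝ :=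
  (1 / (2 * b * s)) * ∑ i ∈ J,
    ∑ m ∈ Fintype.piFinset (fun _ : Fin k => Finset.Icc (-(K : ℤ)) (K : ℤ)),
      G (fun q => s * (x ((i : ℤ) + m q).toNat - x i))

open Classical in
/-- the bad indices: `i ∈ J` without `x i` well inside the window, or `i ∉ J` with `x i` in the enlarged
window -/
noncomputable def badI (n : ℕ) (J : Finset ℕ) (E b r : ℝ) (x : ℕ → ℝ) : Finset ℕ :=
  (Finset.range n).filter fun i =>
    (i ∈ J ∧ (x i < E - b + r ∨ E + b - r < x i)) ∨
    (i ∉ J ∧ E - b - r ≤ x i ∧ x i ≤ E + b + r)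

end Pool.Agent.ZR

end

section

/-!
# ZBL/B1 : the vector of sorted eigenvalues `evv v X` (of `Wv v X = √(v/2) • sya X`)

All facts on `evs` are proved in `ZR/KSpec.lean`, `ZR/KWeyl.lean` (namespace `Pool.Agent.ZR.K1`):
`K1.exists_orth_evs`, `K1.conj_evs`, `K1.evs_mono`, `K1.evs_lip`, `K1.Wv_isSymm`.
Proof.
`evv_mono`: `K1.evs_mono`.  `evv_lip`: `K1.evs_lip` with `A = Wv v X`, `B = Wv v Y`; entries differ by at
most `√(v/2) * 2 * ‖X - Y‖` (sup norm), so `|evs A i - evs B i| ≤ √(n²) * √(v/2) * 2 * ‖X - Y‖`;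
`LipschitzWith` into the sup norm (`LipschitzWith.of_dist_le_mul`, `dist_pi_le_iff`).
`evv_conj`: `Wv v X' = O * Wv v X * Oᵀ` (`Wv_eq_sya`) and `K1.conj_evs`.
`spec_sya`: diagonalise `Wv v X = O diag(evv v X) Oᵀ` (`K1.exists_orth_evs`) and multiply by
`(√(v/2))⁻¹`.
`evv_dg`: `Wv v (dg e) = √(v/2) • diagonal e = diagonal (√(v/2) • e)`; the sorted eigenvalues of a
diagonal matrix with increasing entries are its entries: `charpoly` of a diagonal matrix is
`∏ (X - C (e i))` (`Matrix.charpoly_diagonal`-type or `Matrix.charpoly_of_upperTriangular`), its roots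
are the multiset of the `e i`, and sorting it gives `List.ofFn e` (`Sp2.evs_diag` of helper1 is the
same statement: `ZR/Sp2.lean`, may be imported once it is done).
-/


open MeasureTheory ProbabilityTheory Matrix

namespace Pool.Agent.ZR.BL

variable {n : ℕ}

theorem Wv_symm' (v : ℝ) (X : Fin n × Fin n → ℝ) : (Wv v X).IsSymm := by
  ext i j
  simp [Wv, add_comm]

theorem evv_mono (v : ℝ) (X : Fin n × Fin n → ℝ) : Monotone (evv v X) := by
  intro i j hij
  exact K1.evs_mono (Wv_symm' v X) (Fin.le_def.mp hij) j.2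

theorem evv_lip (v : ℝ) : ∃ K : NNReal,
    LipschitzWith K (evv v : (Fin n × Fin n → ℝ) → (Fin n → ℝ)) := by
  have hK : (0 : ℝ) ≤ (n : ℝ) * (Real.sqrt (v / 2) * 2) := by positivity
  refine ⟨⟨(n : ℝ) * (Real.sqrt (v / 2) * 2), hK⟩, ?_⟩
  refine LipschitzWith.of_dist_le_mul fun X Y => ?_
  have hd : (0 : ℝ) ≤ dist X Y := dist_nonneg
  have hR : (0 : ℝ) ≤ (n : ℝ) * (Real.sqrt (v / 2) * 2) * dist X Y := mul_nonneg hK hd
  change dist (evv v X) (evv v Y) ≤ (n : ℝ) * (Real.sqrt (v / 2) * 2) * dist X Y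
  rw [dist_pi_le_iff hR]
  intro i
  rw [Real.dist_eq]
  have h1 := K1.evs_lip (Wv_symm' v X) (Wv_symm' v Y) (i : ℕ)
  refine h1.trans ?_
  have hent : ∀ p : Fin n × Fin n, |X p - Y p| ≤ dist X Y := fun p => by
    have := dist_le_pi_dist X Y p
    rwa [Real.dist_eq] at this
  have h2 : ∀ p : Fin n × Fin n, (Wv v X p.1 p.2 - Wv v Y p.1 p.2) ^ 2
      ≤ (Real.sqrt (v / 2) * 2 * dist X Y) ^ 2 := by
    intro p
    have h3 : Wv v X p.1 p.2 - Wv v Y p.1 p.2
        = Real.sqrt (v / 2) * ((X (p.1, p.2) - Y (p.1, p.2)) + (X (p.2, p.1) - Y (p.2, p.1))) := by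
      simp only [Wv, Matrix.of_apply]; ring
    rw [h3]
    apply sq_le_sq'
    · have ha := hent (p.1, p.2)
      have hb := hent (p.2, p.1)
      have hs : (0 : ℝ) ≤ Real.sqrt (v / 2) := Real.sqrt_nonneg _
      rw [abs_le] at ha hb
      nlinarith [mul_nonneg hs (show (0 : ℝ) ≤ (X (p.1, p.2) - Y (p.1, p.2)) +
        (X (p.2, p.1) - Y (p.2, p.1)) + 2 * dist X Y by linarith)]
    · have ha := hent (p.1, p.2)
      have hb := hent (p.2, p.1)
      have hs : (0 : ℝ) ≤ Real.sqrt (v / 2) := Real.sqrt_nonneg _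
      rw [abs_le] at ha hb
      nlinarith [mul_nonneg hs (show (0 : ℝ) ≤ 2 * dist X Y - ((X (p.1, p.2) - Y (p.1, p.2)) +
        (X (p.2, p.1) - Y (p.2, p.1))) by linarith)]
  have h4 : ∑ p : Fin n × Fin n, (Wv v X p.1 p.2 - Wv v Y p.1 p.2) ^ 2
      ≤ ((n : ℝ) * (Real.sqrt (v / 2) * 2) * dist X Y) ^ 2 := by
    refine (Finset.sum_le_sum fun p _ => h2 p).trans (le_of_eq ?_)
    rw [Finset.sum_const, Finset.card_univ, Fintype.card_prod, Fintype.card_fin, nsmul_eq_mul]
    push_cast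
    ring
  calc Real.sqrt (∑ p : Fin n × Fin n, (Wv v X p.1 p.2 - Wv v Y p.1 p.2) ^ 2)
      ≤ Real.sqrt (((n : ℝ) * (Real.sqrt (v / 2) * 2) * dist X Y) ^ 2) := Real.sqrt_le_sqrt h4
    _ = (n : ℝ) * (Real.sqrt (v / 2) * 2) * dist X Y := Real.sqrt_sq hR

theorem evv_conj (v : ℝ) {O : Matrix (Fin n) (Fin n) ℝ} (h1 : Oᵀ * O = 1)
    {X X' : Fin n × Fin n → ℝ} (h : sya X' = O * sya X * Oᵀ) : evv v X' = evv v X := by
  have h2 : Wv v X' = O * Wv v X * Oᵀ := by
    rw [Wv_eq_sya, Wv_eq_sya, h]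
    rw [Matrix.mul_smul, Matrix.smul_mul]
  funext i
  change evs (Wv v X') i = evs (Wv v X) i
  rw [h2, K1.conj_evs _ _ h1]

theorem spec_sya {v : ℝ} (hv : 0 < v) (X : Fin n × Fin n → ℝ) :
    ∃ O : Matrix (Fin n) (Fin n) ℝ, Oᵀ * O = 1 ∧ O * Oᵀ = 1 ∧
      sya X = O * Matrix.diagonal (fun i => (Real.sqrt (v / 2))⁻¹ * evv v X i) * Oᵀ := by
  obtain ⟨O, h1, h2, h3⟩ := K1.exists_orth_evs (Wv_symm' v X)
  refine ⟨O, h1, h2, ?_⟩
  have hs : Real.sqrt (v / 2) ≠ 0 := (Real.sqrt_pos.mpr (by positivity)).ne'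
  have h4 : sya X = (Real.sqrt (v / 2))⁻¹ • Wv v X := by
    rw [Wv_eq_sya, smul_smul, inv_mul_cancel₀ hs, one_smul]
  have h5 : Matrix.diagonal (fun i => (Real.sqrt (v / 2))⁻¹ * evv v X i)
      = (Real.sqrt (v / 2))⁻¹ • Matrix.diagonal (fun i : Fin n => evs (Wv v X) i) := by
    rw [← Matrix.diagonal_smul]
    rfl
  rw [h4, h5, Matrix.mul_smul, Matrix.smul_mul, ← h3]

theorem evv_dg (v : ℝ) {e : Fin n → ℝ} (he : Monotone e) :
    evv v (dg e) = fun i => Real.sqrt (v / 2) * e i := by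
  have h1 : Wv v (dg e) = Matrix.diagonal (fun i : Fin n => Real.sqrt (v / 2) * e i) := by
    rw [Wv_eq_sya, sya_dg, ← Matrix.diagonal_smul]
    rfl
  funext i
  change evs (Wv v (dg e)) i = _
  rw [h1]
  exact evs_diag (fun i : Fin n => Real.sqrt (v / 2) * e i)
    (fun a b hab => mul_le_mul_of_nonneg_left (he hab) (Real.sqrt_nonneg _)) i

end Pool.Agent.ZR.BL

end

section

/-!
# ZBL/E3 : energy of the labelled statistic

Proof.  `fderiv G` is continuous with compact support; let `B ≥ 0` bound `‖fderiv G y‖` and let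
`R ≥ 0` be such that `fderiv G y = 0` unless `|y q| ≤ R` for all `q` (`HasCompactSupport.fderiv`,
bounded support).  Take `C0 = 2 r² B² R² + 1` (any constant depending only on `G` and `r` is fine).
Fix `x, k`.  For `i ∈ J` put `a_i q = ⟨(i + m q).toNat, _⟩`, `b_i = ⟨i, _⟩ : Fin n`, `y_i q = s (x (a_i q) - x b_i)`,
and for `a b : Fin n` let `ρ(a,b) = (k a - k b)/(x a - x b)` (symmetric: `ρ(a,b) = ρ(b,a)`; it is `0` if
`x a = x b`, in which case `k a = k b` too).  Always `s (k a - k b) = (s (x a - x b)) ρ(a,b)`.  So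
  `fderiv G y_i (fun q => s (k (a_i q) - k b_i)) = ∑_q fderiv G y_i (single q 1) * y_i q * ρ(a_i q, b_i)`,
in absolute value `≤ B R ∑_q |ρ(a_i q, b_i)|` (if `fderiv G y_i ≠ 0` then `|y_i q| ≤ R`).
By `LabF_fderiv` and Cauchy-Schwarz over the `r |J|` pairs `(i,q)`:
  `(fderiv LabF x k)² ≤ |J|⁻² B² R² (r |J|) ∑_{i∈J} ∑_q ρ(a_i q, b_i)²`.
Terms with `a_i q = b_i` vanish.  For fixed `q` the map `i ↦ (a_i q, b_i)` is injective, and each
unordered pair `{a,b}` arises at most twice for fixed `q` (once as `b_i = a`, once as `b_i = b`), so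
`∑_{i∈J} ρ(a_i q, b_i)² ≤ 2 QF x k` (e.g. `∑_{i∈J} ρ(a_i q, b_i)² ≤ ∑_{(a,b) : a ≠ b} ρ(a,b)² = 2 QF x k` by
injectivity of `i ↦ (a_i q, b_i)` on `J` and symmetry).  Total:
`(fderiv LabF x k)² ≤ |J|⁻¹ 2 r² B² R² QF x k`.
-/


open MeasureTheory ProbabilityTheory Matrix

namespace Pool.Agent.ZR.BL

theorem QF_nonneg {n : ℕ} (x k : Fin n → ℝ) : 0 ≤ QF x k := by
  unfold QF
  exact Finset.sum_nonneg fun _ _ => sq_nonneg _

/-- the quotient `ρ(a,b)` on naturals -/
noncomputable def rho' {n : ℕ} (x k : Fin n → ℝ) (a b : ℕ) : ℝ :=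
  ((if h : a < n then k ⟨a, h⟩ else 0) - (if h : b < n then k ⟨b, h⟩ else 0)) /
  ((if h : a < n then x ⟨a, h⟩ else 0) - (if h : b < n then x ⟨b, h⟩ else 0))

theorem sum_rho_sq {n : ℕ} (x k : Fin n → ℝ) :
    ∑ p ∈ Finset.range n ×ˢ Finset.range n, (rho' x k p.1 p.2) ^ 2 = 2 * QF x k := by
  classical
  have h1 : ∑ p ∈ Finset.range n ×ˢ Finset.range n, (rho' x k p.1 p.2) ^ 2
      = ∑ p : Fin n × Fin n, ((k p.1 - k p.2) / (x p.1 - x p.2)) ^ 2 := by
    rw [Finset.sum_product, Fintype.sum_prod_type, ← Fin.sum_univ_eq_sum_range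
      (fun a => ∑ b ∈ Finset.range n, (rho' x k a b) ^ 2) n]
    refine Finset.sum_congr rfl fun a _ => ?_
    rw [← Fin.sum_univ_eq_sum_range (fun b => (rho' x k a b) ^ 2) n]
    refine Finset.sum_congr rfl fun b _ => ?_
    simp [rho', a.isLt, b.isLt]
  rw [h1]
  set f : Fin n × Fin n → ℝ := fun p => ((k p.1 - k p.2) / (x p.1 - x p.2)) ^ 2 with hf
  have h2 : ∑ p : Fin n × Fin n, f p
      = ∑ p ∈ Finset.univ.filter (fun p : Fin n × Fin n => p.1 < p.2), f p
        + ∑ p ∈ Finset.univ.filter (fun p : Fin n × Fin n => ¬ p.1 < p.2), f p :=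
    (Finset.sum_filter_add_sum_filter_not _ _ _).symm
  have h3 : ∑ p ∈ Finset.univ.filter (fun p : Fin n × Fin n => ¬ p.1 < p.2), f p
      = ∑ p ∈ Finset.univ.filter (fun p : Fin n × Fin n => p.2 < p.1), f p := by
    symm
    apply Finset.sum_subset
    · intro p hp
      simp only [Finset.mem_filter, Finset.mem_univ, true_and] at hp ⊢
      exact not_lt.mpr hp.le
    · intro p hp hp2
      simp only [Finset.mem_filter, Finset.mem_univ, true_and, not_lt] at hp hp2
      have : p.1 = p.2 := le_antisymm hp2 hp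
      simp [hf, this]
  have h4 : ∑ p ∈ Finset.univ.filter (fun p : Fin n × Fin n => p.2 < p.1), f p
      = ∑ p ∈ Finset.univ.filter (fun p : Fin n × Fin n => p.1 < p.2), f p := by
    refine Finset.sum_nbij' Prod.swap Prod.swap ?_ ?_ ?_ ?_ ?_
    · intro p hp; simpa using hp
    · intro p hp; simpa using hp
    · intro p _; simp
    · intro p _; simp
    · intro p _
      simp only [hf, Prod.fst_swap, Prod.snd_swap]
      rw [← neg_sub (k p.2) (k p.1), ← neg_sub (x p.2) (x p.1), neg_div_neg_eq]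
  rw [h2, h3, h4]
  unfold QF
  ring

theorem LabF_energy {r : ℕ} (G : (Fin r → ℝ) → ℝ) (hG : ContDiff ℝ 1 G)
    (hGc : HasCompactSupport G) :
    ∃ C0 : ℝ, 0 < C0 ∧ ∀ (n : ℕ) (J : Finset ℕ) (m : Fin r → ℤ) (s : ℝ), J.Nonempty →
      (∀ i ∈ J, i < n ∧ ∀ q, 0 ≤ (i : ℤ) + m q ∧ (i : ℤ) + m q < n) →
      ∀ x k : Fin n → ℝ, (∀ i j, x i = x j → k i = k j) →
        (fderiv ℝ (LabF (n := n) J m s G) x k) ^ 2 ≤ C0 / (J.card : ℝ) * QF x k := by
  classical
  have hfc : Continuous (fderiv ℝ G) := hG.continuous_fderiv (by norm_num)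
  have hfs : HasCompactSupport (fderiv ℝ G) := hGc.fderiv (𝕜 := ℝ)
  obtain ⟨B, hB⟩ := hfc.bounded_above_of_compact_support hfs
  have hB0 : 0 ≤ B := le_trans (norm_nonneg _) (hB 0)
  obtain ⟨R, hR⟩ := hfs.isCompact.isBounded.subset_closedBall (0 : Fin r → ℝ)
  have hRR : ∀ y, fderiv ℝ G y ≠ 0 → ∀ q, |y q| ≤ |R| := by
    intro y hy q
    have h1 : y ∈ tsupport (fderiv ℝ G) := subset_tsupport _ hy
    have h2 := hR h1
    rw [mem_closedBall_zero_iff] at h2
    exact (norm_le_pi_norm y q).trans (h2.trans (le_abs_self R))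
  refine ⟨2 * r * B ^ 2 * R ^ 2 + 1, by positivity, ?_⟩
  intro n J m s hJ hJr x k hxk
  rw [LabF_fderiv J m s hG x k]
  set T : ℕ → ℝ := fun i => fderiv ℝ G (fun q => s *
        ((if h : ((i : ℤ) + m q).toNat < n then x ⟨((i : ℤ) + m q).toNat, h⟩ else 0)
          - (if h : i < n then x ⟨i, h⟩ else 0)))
        (fun q => s *
        ((if h : ((i : ℤ) + m q).toNat < n then k ⟨((i : ℤ) + m q).toNat, h⟩ else 0)
          - (if h : i < n then k ⟨i, h⟩ else 0))) with hT
  have hTi : ∀ i ∈ J, (T i) ^ 2 ≤ B ^ 2 * R ^ 2 * ∑ q, (rho' x k ((i : ℤ) + m q).toNat i) ^ 2 := by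
    intro i hi
    set y : Fin r → ℝ := fun q => s *
        ((if h : ((i : ℤ) + m q).toNat < n then x ⟨((i : ℤ) + m q).toNat, h⟩ else 0)
          - (if h : i < n then x ⟨i, h⟩ else 0)) with hy
    set z : Fin r → ℝ := fun q => s *
        ((if h : ((i : ℤ) + m q).toNat < n then k ⟨((i : ℤ) + m q).toNat, h⟩ else 0)
          - (if h : i < n then k ⟨i, h⟩ else 0)) with hz
    have hTe : T i = fderiv ℝ G y z := rfl
    rw [hTe]
    have hS0 : 0 ≤ ∑ q, (rho' x k ((i : ℤ) + m q).toNat i) ^ 2 :=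
      Finset.sum_nonneg fun _ _ => sq_nonneg _
    by_cases h0 : fderiv ℝ G y = 0
    · rw [h0]; simp only [_root_.zero_apply, ne_eq, OfNat.ofNat_ne_zero, not_false_eq_true, zero_pow]
      positivity
    · have hyb := hRR y h0
      have hzq : ∀ q, z q = y q * rho' x k ((i : ℤ) + m q).toNat i := by
        intro q
        obtain ⟨hin, hq⟩ := hJr i hi
        have ha : ((i : ℤ) + m q).toNat < n := by
          have := hq q; omega
        simp only [hy, hz, rho', dif_pos hin, dif_pos ha]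
        by_cases hx : x ⟨((i : ℤ) + m q).toNat, ha⟩ - x ⟨i, hin⟩ = 0
        · have h1 := hxk _ _ (sub_eq_zero.mp hx)
          rw [hx, h1]; simp
        · field_simp
      have hzn : ‖z‖ ≤ |R| * Real.sqrt (∑ q, (rho' x k ((i : ℤ) + m q).toNat i) ^ 2) := by
        rw [pi_norm_le_iff_of_nonneg (by positivity)]
        intro q
        rw [hzq q, norm_mul, Real.norm_eq_abs, Real.norm_eq_abs]
        refine mul_le_mul (hyb q) ?_ (abs_nonneg _) (abs_nonneg _)
        apply Real.abs_le_sqrt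
        exact Finset.single_le_sum (f := fun q => (rho' x k ((i : ℤ) + m q).toNat i) ^ 2)
          (fun _ _ => sq_nonneg _) (Finset.mem_univ q)
      have h1 : |fderiv ℝ G y z| ≤ B * (|R| * Real.sqrt (∑ q, (rho' x k ((i : ℤ) + m q).toNat i) ^ 2)) := by
        calc |fderiv ℝ G y z| = ‖fderiv ℝ G y z‖ := rfl
          _ ≤ ‖fderiv ℝ G y‖ * ‖z‖ := ContinuousLinearMap.le_opNorm _ _
          _ ≤ _ := mul_le_mul (hB y) hzn (norm_nonneg _) hB0
      calc (fderiv ℝ G y z) ^ 2 = |fderiv ℝ G y z| ^ 2 := (sq_abs _).symm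
        _ ≤ (B * (|R| * Real.sqrt (∑ q, (rho' x k ((i : ℤ) + m q).toNat i) ^ 2))) ^ 2 := by
            gcongr
        _ = _ := by
            rw [mul_pow, mul_pow, Real.sq_sqrt hS0, sq_abs]; ring
  have hcard : (0 : ℝ) < J.card := by exact_mod_cast hJ.card_pos
  have hinj : ∀ q, ∑ i ∈ J, (rho' x k ((i : ℤ) + m q).toNat i) ^ 2 ≤ 2 * QF x k := by
    intro q
    rw [← sum_rho_sq x k]
    have h1 : ∑ i ∈ J, (rho' x k ((i : ℤ) + m q).toNat i) ^ 2
        = ∑ p ∈ J.image (fun i : ℕ => (((i : ℤ) + m q).toNat, i)), (rho' x k p.1 p.2) ^ 2 := by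
      rw [Finset.sum_image]
      intro a _ b _ hab
      exact (Prod.ext_iff.mp hab).2
    rw [h1]
    apply Finset.sum_le_sum_of_subset_of_nonneg
    · intro p hp
      rw [Finset.mem_image] at hp
      obtain ⟨i, hi, rfl⟩ := hp
      obtain ⟨hin, hq⟩ := hJr i hi
      have := hq q
      simp only [Finset.mem_product, Finset.mem_range]
      constructor
      · omega
      · exact hin
    · intro _ _ _; exact sq_nonneg _
  have hsum : ∑ i ∈ J, (T i) ^ 2 ≤ B ^ 2 * R ^ 2 * (r * (2 * QF x k)) := by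
    calc ∑ i ∈ J, (T i) ^ 2 ≤ ∑ i ∈ J, B ^ 2 * R ^ 2 * ∑ q, (rho' x k ((i : ℤ) + m q).toNat i) ^ 2 :=
          Finset.sum_le_sum hTi
      _ = B ^ 2 * R ^ 2 * ∑ q, ∑ i ∈ J, (rho' x k ((i : ℤ) + m q).toNat i) ^ 2 := by
          rw [← Finset.mul_sum, Finset.sum_comm]
      _ ≤ B ^ 2 * R ^ 2 * ∑ _q : Fin r, 2 * QF x k := by
          gcongr with q _
          exact hinj q
      _ = _ := by simp
  have hCS : (∑ i ∈ J, T i) ^ 2 ≤ J.card * ∑ i ∈ J, (T i) ^ 2 := sq_sum_le_card_mul_sum_sq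
  have hQ := QF_nonneg x k
  calc (1 / (J.card : ℝ) * ∑ i ∈ J, T i) ^ 2 = (1 / (J.card : ℝ)) ^ 2 * (∑ i ∈ J, T i) ^ 2 := by ring
    _ ≤ (1 / (J.card : ℝ)) ^ 2 * (J.card * ∑ i ∈ J, (T i) ^ 2) := by gcongr
    _ = (1 / (J.card : ℝ)) * ∑ i ∈ J, (T i) ^ 2 := by field_simp
    _ ≤ (1 / (J.card : ℝ)) * (B ^ 2 * R ^ 2 * (r * (2 * QF x k))) := by gcongr
    _ = (2 * r * B ^ 2 * R ^ 2) / J.card * QF x k := by ring
    _ ≤ (2 * r * B ^ 2 * R ^ 2 + 1) / J.card * QF x k := by
        gcongr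
        linarith

end Pool.Agent.ZR.BL

end

section

/-!
# ZBL/G3 : Gaussian integration by parts for Lipschitz functions (Rademacher)

Proof.  `ae_diff`: Rademacher's theorem `LipschitzWith.ae_differentiableAt` for `volume` on
`ι → ℝ`, and `gst_ac.ae_le` / `gst_ac`.
`ibp_lip`.  Put `e = Pi.single i 1` and for `τ > 0`
  `I(τ) = ∫ τ⁻¹ (f (x + τ e) - f x) v x dγ`.
(1) As `τ → 0+` (take `τ = 1/(m+1)`), `I(τ) → ∫ pd i f x * v x`: pointwise at every point of
differentiability of `f` (a.e. by `ae_diff`; directional derivative,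
`HasFDerivAt.hasLineDerivAt` / `HasDerivAt.tendsto_slope` along `τ ↦ x + τ e`), dominated by
`K * sup|v|` since `|f (x+τ e) - f x| ≤ K τ ‖e‖ = K τ`.
(2) Cameron-Martin (`cameron_martin` with `h = τ e`, `F y = f y * v (y - τ e)`; note
`∑ j, h j * x j = τ x i`, `∑ j, h j ^ 2 = τ²`):
  `∫ f (x + τ e) v x dγ = ∫ f x * v (x - τ e) * exp(τ x i - τ²/2) dγ`, so
  `I(τ) = ∫ f x * τ⁻¹ (v (x - τ e) exp(τ x_i - τ²/2) - v x) dγ`.
The function `φ(s) = v (x - s e) exp(s x_i - s²/2)` has derivative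
`φ'(s) = (- pd i v (x - s e) + v (x - s e)(x_i - s)) exp(s x_i - s²/2)`, for `0 ≤ s ≤ 1` bounded by
`(C₁ + C₀ (|x_i| + 1)) exp(|x_i|)` (`C₀ = sup|v|`, `C₁ = sup|pd i v|`), hence (mean value inequality)
the integrand is dominated by `M (C₁ + C₀ (|x_i|+1)) exp(|x_i|)`, integrable by `gst_int_exp`
(`|x_i| ≤ ∑ |x_j|`), and it tends pointwise to `f x * φ'(0) = f x * (x i * v x - pd i v x)`.
Uniqueness of limits.
-/


open MeasureTheory ProbabilityTheory Matrix

namespace Pool.Agent.ZR.BL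

variable {ι : Type} [Fintype ι] [DecidableEq ι]

theorem ae_diff {K : NNReal} {f : (ι → ℝ) → ℝ} (hf : LipschitzWith K f) :
    ∀ᵐ x ∂(gst ι), DifferentiableAt ℝ f x := by
  have h : ∀ᵐ x ∂(volume : Measure (ι → ℝ)), DifferentiableAt ℝ f x :=
    hf.ae_differentiableAt
  exact gst_ac.ae_le h

/-- the step sizes `1/(m+1)` -/
noncomputable def stp (m : ℕ) : ℝ := 1 / ((m : ℝ) + 1)

theorem stp_pos (m : ℕ) : 0 < stp m := by
  unfold stp; positivity

theorem stp_le (m : ℕ) : stp m ≤ 1 := by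
  unfold stp
  rw [div_le_one (by positivity)]
  have : (0 : ℝ) ≤ m := Nat.cast_nonneg m
  linarith

theorem stp_tendsto : Filter.Tendsto stp Filter.atTop (nhdsWithin 0 {0}ᶜ) := by
  rw [tendsto_nhdsWithin_iff]
  refine ⟨tendsto_one_div_add_atTop_nhds_zero_nat, ?_⟩
  exact Filter.Eventually.of_forall (fun m => (stp_pos m).ne')

theorem abs_le_sum (x : ι → ℝ) (i : ι) : |x i| ≤ ∑ j, |x j| :=
  Finset.single_le_sum (f := fun j => |x j|) (fun j _ => abs_nonneg _) (Finset.mem_univ i)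

theorem ibp_phi {v : (ι → ℝ) → ℝ} (hv : CB 1 v) (i : ι) (x : ι → ℝ) (s : ℝ) :
    HasDerivAt (fun s : ℝ => v (x - s • (Pi.single i (1 : ℝ) : ι → ℝ))
        * Real.exp (s * x i - s ^ 2 / 2))
      ((- pd i v (x - s • (Pi.single i (1 : ℝ) : ι → ℝ))
        + v (x - s • (Pi.single i (1 : ℝ) : ι → ℝ)) * (x i - s))
        * Real.exp (s * x i - s ^ 2 / 2)) s := by
  have hd : Differentiable ℝ v := hv.2.1
  have h1 : HasDerivAt (fun s : ℝ => x - s • (Pi.single i (1 : ℝ) : ι → ℝ))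
      (- (Pi.single i (1 : ℝ) : ι → ℝ)) s := by
    have h := ((hasDerivAt_id s).smul_const (Pi.single i (1 : ℝ) : ι → ℝ)).const_sub x
    simpa using h
  have h2 := (hd (x - s • (Pi.single i (1 : ℝ) : ι → ℝ))).hasFDerivAt.comp_hasDerivAt s h1
  have h3 : HasDerivAt (fun s : ℝ => s * x i - s ^ 2 / 2) (x i - s) s := by
    have ha := (hasDerivAt_id s).mul_const (x i)
    have hb := ((hasDerivAt_id s).pow 2).div_const 2
    have h := ha.sub hb
    refine h.congr_deriv ?_
    simp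
  have h4 := h3.exp
  have h5 := h2.mul h4
  refine h5.congr_deriv ?_
  simp only [map_neg, Function.comp]
  unfold pd
  ring

theorem ibp_lip {K : NNReal} {f v : (ι → ℝ) → ℝ} (hf : LipschitzWith K f)
    (hb : ∃ M : ℝ, ∀ x, |f x| ≤ M) (hv : CB 1 v) (i : ι) :
    ∫ x, pd i f x * v x ∂(gst ι) = ∫ x, f x * (x i * v x - pd i v x) ∂(gst ι) := by
  obtain ⟨M, hM⟩ := hb
  obtain ⟨C0, hC0⟩ := hv.bdd
  obtain ⟨C1, hC1⟩ := (CB.pd hv i).bdd
  have hvc : Continuous v := hv.cont
  have hfc : Continuous f := hf.continuous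
  have hM0 : 0 ≤ M := (abs_nonneg _).trans (hM 0)
  have hC00 : 0 ≤ C0 := (abs_nonneg _).trans (hC0 0)
  have hC10 : 0 ≤ C1 := (abs_nonneg _).trans (hC1 0)
  set e : ι → ℝ := Pi.single i (1 : ℝ) with he
  have hen : ‖e‖ ≤ 1 := by
    rw [he, pi_norm_le_iff_of_nonneg zero_le_one]
    intro j
    by_cases hj : j = i
    · subst hj; simp
    · simp [hj]
  -- the two sides for finite steps
  set A : ℕ → (ι → ℝ) → ℝ := fun m x => (stp m)⁻¹ * (f (x + stp m • e) - f x) * v x with hA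
  set B : ℕ → (ι → ℝ) → ℝ := fun m x => f x * ((stp m)⁻¹ * (v (x - stp m • e)
      * Real.exp (stp m * x i - stp m ^ 2 / 2) - v x)) with hB
  -- integrability facts
  have hint_exp : Integrable (fun x : ι → ℝ => (1 + ∑ j, |x j|) ^ 1
      * Real.exp (1 * ∑ j, |x j|)) (gst ι) := gst_int_exp 1 1
  have hprob : IsProbabilityMeasure (gst ι) := inferInstance
  have hAB : ∀ m, ∫ x, A m x ∂(gst ι) = ∫ x, B m x ∂(gst ι) := by
    intro m
    have hτ := stp_pos m
    have i1 : Integrable (fun x => f (x + stp m • e) * v x) (gst ι) := by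
      refine Integrable.of_bound (by fun_prop) (M * C0) (Filter.Eventually.of_forall ?_)
      intro x
      rw [Real.norm_eq_abs, abs_mul]
      exact mul_le_mul (hM _) (hC0 _) (abs_nonneg _) hM0
    have i2 : Integrable (fun x => f x * v x) (gst ι) := by
      refine Integrable.of_bound (by fun_prop) (M * C0) (Filter.Eventually.of_forall ?_)
      intro x
      rw [Real.norm_eq_abs, abs_mul]
      exact mul_le_mul (hM _) (hC0 _) (abs_nonneg _) hM0
    have i3 : Integrable (fun x => f x * v (x - stp m • e)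
        * Real.exp (stp m * x i - stp m ^ 2 / 2)) (gst ι) := by
      refine Integrable.mono' (hint_exp.const_mul (M * C0)) (by fun_prop)
        (Filter.Eventually.of_forall ?_)
      intro x
      rw [Real.norm_eq_abs, abs_mul, abs_mul, Real.abs_exp]
      have hx := abs_le_sum x i
      have hs0 : 0 ≤ ∑ j, |x j| := Finset.sum_nonneg (fun j _ => abs_nonneg _)
      have e1 : Real.exp (stp m * x i - stp m ^ 2 / 2) ≤ Real.exp (1 * ∑ j, |x j|) := by
        apply Real.exp_le_exp.2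
        have h1 : stp m * x i ≤ |x i| := by
          have := le_abs_self (x i)
          have h2 := stp_le m
          have h3 := abs_nonneg (x i)
          nlinarith
        nlinarith [sq_nonneg (stp m)]
      have e2 : |f x| * |v (x - stp m • e)| ≤ M * C0 :=
        mul_le_mul (hM _) (hC0 _) (abs_nonneg _) hM0
      calc |f x| * |v (x - stp m • e)| * Real.exp (stp m * x i - stp m ^ 2 / 2)
          ≤ M * C0 * Real.exp (1 * ∑ j, |x j|) :=
            mul_le_mul e2 e1 (Real.exp_pos _).le (by positivity)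
        _ ≤ M * C0 * ((1 + ∑ j, |x j|) ^ 1 * Real.exp (1 * ∑ j, |x j|)) := by
            apply mul_le_mul_of_nonneg_left _ (by positivity)
            have := (Real.exp_pos (1 * ∑ j, |x j|)).le
            nlinarith
    have hcm := cameron_martin (stp m • e) (fun y => f y * v (y - stp m • e))
    have hs1 : ∀ z : ι → ℝ, ∑ j, (stp m • e) j * z j = stp m * z i := by
      intro z
      rw [Finset.sum_eq_single i]
      · simp [he]
      · intro j _ hj
        simp [he, hj]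
      · intro h; exact absurd (Finset.mem_univ i) h
    have hs2 : ∑ j, (stp m • e) j ^ 2 = stp m ^ 2 := by
      rw [Finset.sum_eq_single i]
      · simp [he]
      · intro j _ hj
        simp [he, hj]
      · intro h; exact absurd (Finset.mem_univ i) h
    simp only [add_sub_cancel_right, hs2] at hcm
    have hcm2 : ∫ z, f (z + stp m • e) * v z ∂(gst ι)
        = ∫ z, f z * v (z - stp m • e) * Real.exp (stp m * z i - stp m ^ 2 / 2) ∂(gst ι) := by
      rw [hcm]
      apply integral_congr_ae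
      refine Filter.Eventually.of_forall ?_
      intro z
      simp only
      rw [hs1 z]
    have eA : ∫ x, A m x ∂(gst ι) = (stp m)⁻¹ * (∫ x, f (x + stp m • e) * v x ∂(gst ι)
        - ∫ x, f x * v x ∂(gst ι)) := by
      rw [← integral_sub i1 i2, ← integral_const_mul]
      apply integral_congr_ae
      refine Filter.Eventually.of_forall ?_
      intro x
      simp only [hA]
      ring
    have eB : ∫ x, B m x ∂(gst ι) = (stp m)⁻¹ * (∫ x, f x * v (x - stp m • e)
        * Real.exp (stp m * x i - stp m ^ 2 / 2) ∂(gst ι) - ∫ x, f x * v x ∂(gst ι)) := by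
      rw [← integral_sub i3 i2, ← integral_const_mul]
      apply integral_congr_ae
      refine Filter.Eventually.of_forall ?_
      intro x
      simp only [hB]
      ring
    rw [eA, eB, hcm2]
  -- limit of A
  have limA : Filter.Tendsto (fun m => ∫ x, A m x ∂(gst ι)) Filter.atTop
      (nhds (∫ x, pd i f x * v x ∂(gst ι))) := by
    apply tendsto_integral_of_dominated_convergence (fun _ => (K : ℝ) * C0)
    · intro m
      simp only [hA]
      exact Continuous.aestronglyMeasurable (by fun_prop)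
    · exact integrable_const _
    · intro m
      refine Filter.Eventually.of_forall ?_
      intro x
      simp only [hA]
      rw [Real.norm_eq_abs, abs_mul, abs_mul]
      have hτ := stp_pos m
      have h1 : |f (x + stp m • e) - f x| ≤ K * stp m := by
        have h := hf.dist_le_mul (x + stp m • e) x
        rw [Real.dist_eq] at h
        refine h.trans ?_
        apply mul_le_mul_of_nonneg_left _ K.2
        rw [dist_eq_norm, add_sub_cancel_left, norm_smul, Real.norm_eq_abs, abs_of_pos hτ]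
        calc stp m * ‖e‖ ≤ stp m * 1 := mul_le_mul_of_nonneg_left hen hτ.le
          _ = stp m := mul_one _
      have h2 : |(stp m)⁻¹| * |f (x + stp m • e) - f x| ≤ K := by
        rw [abs_of_pos (inv_pos.2 hτ)]
        calc (stp m)⁻¹ * |f (x + stp m • e) - f x| ≤ (stp m)⁻¹ * (K * stp m) :=
              mul_le_mul_of_nonneg_left h1 (inv_pos.2 hτ).le
          _ = K := by field_simp
      exact mul_le_mul h2 (hC0 _) (abs_nonneg _) K.2
    · filter_upwards [ae_diff hf] with x hx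
      have h1 := (hx.hasFDerivAt.hasLineDerivAt e).tendsto_slope_zero
      have h2 := (h1.comp stp_tendsto).mul_const (v x)
      refine h2.congr ?_
      intro m
      simp only [hA, Function.comp, smul_eq_mul]
  -- limit of B
  have limB : Filter.Tendsto (fun m => ∫ x, B m x ∂(gst ι)) Filter.atTop
      (nhds (∫ x, f x * (x i * v x - pd i v x) ∂(gst ι))) := by
    apply tendsto_integral_of_dominated_convergence
      (fun x => M * (C1 + C0) * ((1 + ∑ j, |x j|) ^ 1 * Real.exp (1 * ∑ j, |x j|)))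
    · intro m
      simp only [hB]
      exact Continuous.aestronglyMeasurable (by fun_prop)
    · exact hint_exp.const_mul _
    · intro m
      refine Filter.Eventually.of_forall ?_
      intro x
      simp only [hB]
      rw [Real.norm_eq_abs, abs_mul]
      have hτ := stp_pos m
      have hx := abs_le_sum x i
      have hs0 : 0 ≤ ∑ j, |x j| := Finset.sum_nonneg (fun j _ => abs_nonneg _)
      set D : ℝ := (C1 + C0) * ((1 + ∑ j, |x j|) ^ 1 * Real.exp (1 * ∑ j, |x j|)) with hD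
      have hbd : ∀ s ∈ Set.Icc (0 : ℝ) 1, ‖((- pd i v (x - s • e) + v (x - s • e) * (x i - s))
        * Real.exp (s * x i - s ^ 2 / 2))‖ ≤ D := by
        intro s hs
        rw [Real.norm_eq_abs, abs_mul, Real.abs_exp]
        have e1 : Real.exp (s * x i - s ^ 2 / 2) ≤ Real.exp (1 * ∑ j, |x j|) := by
          apply Real.exp_le_exp.2
          have h1 : s * x i ≤ |x i| := by
            have h4 := le_abs_self (x i)
            have h3 := abs_nonneg (x i)
            nlinarith [hs.1, hs.2]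
          nlinarith [sq_nonneg s]
        have e2 : |(- pd i v (x - s • e) + v (x - s • e) * (x i - s))|
            ≤ (C1 + C0) * (1 + ∑ j, |x j|) := by
          have h5 : |x i - s| ≤ ∑ j, |x j| + 1 := by
            calc |x i - s| ≤ |x i| + |s| := abs_sub _ _
              _ ≤ ∑ j, |x j| + 1 := by
                have : |s| ≤ 1 := by rw [abs_of_nonneg hs.1]; exact hs.2
                linarith
          calc |(- pd i v (x - s • e) + v (x - s • e) * (x i - s))|
              ≤ |- pd i v (x - s • e)| + |v (x - s • e) * (x i - s)| := abs_add_le _ _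
            _ = |pd i v (x - s • e)| + |v (x - s • e)| * |x i - s| := by
                rw [abs_neg, abs_mul]
            _ ≤ C1 + C0 * (∑ j, |x j| + 1) := by
                apply add_le_add (hC1 _)
                exact mul_le_mul (hC0 _) h5 (abs_nonneg _) hC00
            _ ≤ (C1 + C0) * (1 + ∑ j, |x j|) := by nlinarith
        calc |(- pd i v (x - s • e) + v (x - s • e) * (x i - s))|
              * Real.exp (s * x i - s ^ 2 / 2)
            ≤ ((C1 + C0) * (1 + ∑ j, |x j|)) * Real.exp (1 * ∑ j, |x j|) :=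
              mul_le_mul e2 e1 (Real.exp_pos _).le (by positivity)
          _ = D := by rw [hD]; ring
      have hmv := Convex.norm_image_sub_le_of_norm_hasDerivWithin_le
        (f := fun s : ℝ => v (x - s • e) * Real.exp (s * x i - s ^ 2 / 2))
        (s := Set.Icc (0 : ℝ) 1) (x := 0) (y := stp m)
        (fun s _ => (ibp_phi hv i x s).hasDerivWithinAt) hbd (convex_Icc 0 1)
        ⟨le_refl _, zero_le_one⟩ ⟨hτ.le, stp_le m⟩
      simp only [zero_smul, sub_zero, zero_mul, ne_eq, OfNat.ofNat_ne_zero, not_false_eq_true,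
        zero_pow, zero_div, Real.exp_zero, mul_one, Real.norm_eq_abs, abs_of_pos hτ] at hmv
      have h6 : |(stp m)⁻¹ * (v (x - stp m • e) * Real.exp (stp m * x i - stp m ^ 2 / 2) - v x)|
          ≤ D := by
        rw [abs_mul, abs_of_pos (inv_pos.2 hτ)]
        calc (stp m)⁻¹ * |v (x - stp m • e) * Real.exp (stp m * x i - stp m ^ 2 / 2) - v x|
            ≤ (stp m)⁻¹ * (D * stp m) := mul_le_mul_of_nonneg_left hmv (inv_pos.2 hτ).le
          _ = D := by field_simp
      calc |f x| * |(stp m)⁻¹ * (v (x - stp m • e)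
            * Real.exp (stp m * x i - stp m ^ 2 / 2) - v x)| ≤ M * D :=
            mul_le_mul (hM _) h6 (abs_nonneg _) hM0
        _ = M * (C1 + C0) * ((1 + ∑ j, |x j|) ^ 1 * Real.exp (1 * ∑ j, |x j|)) := by
            rw [hD]; ring
    · refine Filter.Eventually.of_forall ?_
      intro x
      have h1 := (ibp_phi hv i x 0).tendsto_slope_zero
      have h2 := (h1.comp stp_tendsto).const_mul (f x)
      simp only [zero_smul, sub_zero, zero_mul, ne_eq, OfNat.ofNat_ne_zero, not_false_eq_true,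
        zero_pow, zero_div, Real.exp_zero, mul_one] at h2
      have e3 : f x * (x i * v x - pd i v x) = f x * (- pd i v x + v x * x i) := by ring
      rw [e3]
      refine h2.congr ?_
      intro m
      simp only [hB, Function.comp, smul_eq_mul, zero_add, he]
  have hfin : Filter.Tendsto (fun m => ∫ x, A m x ∂(gst ι)) Filter.atTop
      (nhds (∫ x, f x * (x i * v x - pd i v x) ∂(gst ι))) := by
    refine limB.congr ?_
    intro m
    exact (hAB m).symm
  exact tendsto_nhds_unique limA hfin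

end Pool.Agent.ZR.BL

end

section

/-!
# ZBL/G5 : Gaussian smoothing of a bounded continuous function is `CB 1`

Proof.  Let `g` be continuous with `|g| ≤ C`, `ε > 0`.  By `cameron_martin` with `h = ε⁻¹ x`,
`F z = g (ε z)` (`F (z + ε⁻¹ x) = g (x + ε z)`):
  `SM ε g x = ∫ g (ε z) exp(ε⁻¹ ∑ x_i z_i - ε⁻² |x|²/2) dγ(z)`  (`|x|² = ∑ x_i²`).
Differentiate under the integral (`hasFDerivAt_integral_of_dominated_of_fderiv_le`, at `x₀`, on the
unit ball of the sup norm): the derivative of the integrand in `x` is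
  `g (ε z) exp(..) ∑_i (ε⁻¹ z_i - ε⁻² x_i) proj i`,
of norm `≤ C exp(ε⁻¹ (‖x₀‖+1) ∑|z_i|) ∑_i (ε⁻¹ |z_i| + ε⁻² (‖x₀‖+1))`, integrable by
`gst_int_exp` with `p = 1`.  So `SM ε g` has derivative `∑_i D_i(x) proj i` with
  `D_i(x) = ∫ g (ε z) (ε⁻¹ z_i - ε⁻² x_i) exp(ε⁻¹ ∑ x_j z_j - ε⁻²|x|²/2) dγ(z)`
        `= ε⁻¹ ∫ g (x + ε z) z_i dγ(z)`
(`cameron_martin` backwards with `F z = g (ε z) (ε⁻¹ z_i - ε⁻² x_i)`, `F(z + ε⁻¹x) = g(x+εz) ε⁻¹ z_i`).
`D_i` is bounded by `ε⁻¹ C ∫|z_i|` and continuous (`continuous_of_dominated`).  Conclude by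
`CB.intro` with `k = 0`.
-/


open MeasureTheory ProbabilityTheory Matrix

namespace Pool.Agent.ZR.BL

open K1

variable {ι : Type} [Fintype ι] [DecidableEq ι]

private noncomputable def DD (ε : ℝ) (g : (ι → ℝ) → ℝ) (i : ι) (x : ι → ℝ) : ℝ :=
  ε⁻¹ * ∫ z, g (x + ε • z) * z i ∂(gst ι)

private theorem int_abs (i : ι) : Integrable (fun z : ι → ℝ => |z i|) (gst ι) := by
  have h := gst_int_poly (ι := ι) 1
  refine h.mono' ((continuous_abs.comp (continuous_apply i)).aestronglyMeasurable)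
    (Filter.Eventually.of_forall fun z => ?_)
  have h1 : |z i| ≤ ∑ j, |z j| :=
    Finset.single_le_sum (f := fun j => |z j|) (fun j _ => abs_nonneg _) (Finset.mem_univ i)
  rw [Real.norm_eq_abs, abs_abs, pow_one]
  linarith

private theorem DD_CB {ε : ℝ} {g : (ι → ℝ) → ℝ} (hg : CB 0 g) (i : ι) :
    CB 0 (DD ε g i) := by
  obtain ⟨hc, C, hC⟩ := hg
  have hC0 : 0 ≤ C := le_trans (abs_nonneg _) (hC 0)
  have hint : Integrable (fun z : ι → ℝ => C * |z i|) (gst ι) := (int_abs i).const_mul C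
  have hb : ∀ x z : ι → ℝ, ‖g (x + ε • z) * z i‖ ≤ C * |z i| := by
    intro x z
    rw [norm_mul, Real.norm_eq_abs, Real.norm_eq_abs]
    exact mul_le_mul_of_nonneg_right (hC _) (abs_nonneg _)
  refine ⟨?_, ?_⟩
  · refine continuous_const.mul ?_
    refine continuous_of_dominated (bound := fun z => C * |z i|) (fun x => ?_)
      (fun x => Filter.Eventually.of_forall fun z => hb x z) hint
      (Filter.Eventually.of_forall fun z => ?_)
    · exact Continuous.aestronglyMeasurable (by fun_prop)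
    · fun_prop
  · refine ⟨|ε⁻¹| * ∫ z, C * |z i| ∂(gst ι), fun x => ?_⟩
    rw [DD, abs_mul]
    refine mul_le_mul_of_nonneg_left ?_ (abs_nonneg _)
    rw [← Real.norm_eq_abs]
    exact norm_integral_le_of_norm_le hint (Filter.Eventually.of_forall fun z => hb x z)

/-- exponential weight -/
private noncomputable def Ex (ε : ℝ) (x z : ι → ℝ) : ℝ :=
  Real.exp (∑ i, (ε⁻¹ * x i) * z i - (∑ i, (ε⁻¹ * x i) ^ 2) / 2)

private theorem cm (ε : ℝ) (x : ι → ℝ) (F : (ι → ℝ) → ℝ) :
    ∫ z, F (z + ε⁻¹ • x) ∂(gst ι) = ∫ z, F z * Ex ε x z ∂(gst ι) := by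
  have h := cameron_martin (ε⁻¹ • x) F
  rw [h]
  rfl

private theorem Ex_fderiv (ε : ℝ) (x z : ι → ℝ) :
    HasFDerivAt (fun y => Ex ε y z)
      (∑ i, (Ex ε x z * (ε⁻¹ * z i - ε⁻¹ ^ 2 * x i)) •
        (ContinuousLinearMap.proj i : (ι → ℝ) →L[ℝ] ℝ)) x := by
  have hp : ∀ i : ι, HasFDerivAt (fun y : ι → ℝ => y i)
      (ContinuousLinearMap.proj i : (ι → ℝ) →L[ℝ] ℝ) x := fun i =>
    (ContinuousLinearMap.proj i : (ι → ℝ) →L[ℝ] ℝ).hasFDerivAt
  have h1 : HasFDerivAt (fun y : ι → ℝ => ∑ i, (ε⁻¹ * y i) * z i)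
      (∑ i, (ε⁻¹ * z i) • (ContinuousLinearMap.proj i : (ι → ℝ) →L[ℝ] ℝ)) x := by
    have h := HasFDerivAt.fun_sum (u := Finset.univ)
      (fun i _ => ((hp i).const_mul (ε⁻¹)).mul_const (z i))
    refine h.congr_fderiv (Finset.sum_congr rfl fun i _ => ?_)
    ext w
    simp only [_root_.smul_apply, smul_eq_mul, ContinuousLinearMap.proj_apply]
    ring
  have h2 : HasFDerivAt (fun y : ι → ℝ => (∑ i, (ε⁻¹ * y i) ^ 2) / 2)
      (∑ i, (ε⁻¹ ^ 2 * x i) • (ContinuousLinearMap.proj i : (ι → ℝ) →L[ℝ] ℝ)) x := by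
    have h := (HasFDerivAt.fun_sum (u := Finset.univ)
      (fun i _ => ((hp i).const_mul (ε⁻¹)).pow 2)).mul_const ((2 : ℝ)⁻¹)
    refine h.congr_fderiv ?_
    ext w
    simp only [_root_.sum_apply, _root_.smul_apply, smul_eq_mul,
      ContinuousLinearMap.proj_apply, Finset.mul_sum]
    refine Finset.sum_congr rfl fun i _ => ?_
    simp
    ring
  have h3 := (h1.sub h2).exp
  refine h3.congr_fderiv ?_
  ext w
  simp only [_root_.sum_apply, _root_.smul_apply, smul_eq_mul,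
    _root_.sub_apply, ContinuousLinearMap.proj_apply]
  rw [← Finset.sum_sub_distrib, Finset.mul_sum]
  refine Finset.sum_congr rfl fun i _ => ?_
  simp only [Ex, Pi.sub_apply]
  ring

private theorem Ex_le {ε R : ℝ} (hε : 0 < ε) {x : ι → ℝ} (hx : ∀ i, |x i| ≤ R) (z : ι → ℝ) :
    Ex ε x z ≤ Real.exp ((ε⁻¹ * R) * ∑ i, |z i|) := by
  unfold Ex
  apply Real.exp_le_exp.mpr
  have h1 : ∑ i, (ε⁻¹ * x i) * z i ≤ (ε⁻¹ * R) * ∑ i, |z i| := by
    rw [Finset.mul_sum]
    refine Finset.sum_le_sum fun i _ => ?_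
    calc (ε⁻¹ * x i) * z i ≤ |(ε⁻¹ * x i) * z i| := le_abs_self _
      _ = ε⁻¹ * |x i| * |z i| := by
          rw [abs_mul, abs_mul, abs_of_pos (inv_pos.mpr hε)]
      _ ≤ ε⁻¹ * R * |z i| := by
          refine mul_le_mul_of_nonneg_right ?_ (abs_nonneg _)
          exact mul_le_mul_of_nonneg_left (hx i) (inv_pos.mpr hε).le
  have h2 : 0 ≤ (∑ i, (ε⁻¹ * x i) ^ 2) / 2 := by positivity
  linarith

private theorem Ex_pos (ε : ℝ) (x z : ι → ℝ) : 0 < Ex ε x z := Real.exp_pos _

private theorem Ex_cont (ε : ℝ) (x : ι → ℝ) : Continuous (fun z => Ex ε x z) := by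
  unfold Ex
  fun_prop

private theorem SM_fderiv {ε : ℝ} (hε : 0 < ε) {g : (ι → ℝ) → ℝ} (hg : CB 0 g) (x₀ : ι → ℝ) :
    HasFDerivAt (SM ε g) (∑ i, DD ε g i x₀ •
      (ContinuousLinearMap.proj i : (ι → ℝ) →L[ℝ] ℝ)) x₀ := by
  obtain ⟨hc, C, hC⟩ := hg
  have hC0 : 0 ≤ C := le_trans (abs_nonneg _) (hC 0)
  set R : ℝ := ‖x₀‖ + 1 with hR
  have hR0 : 0 ≤ R := by positivity
  have hei : 0 < ε⁻¹ := inv_pos.mpr hε
  -- representation
  have hrep : ∀ (y : ι → ℝ) (F : (ι → ℝ) → ℝ), ∫ z, F z * Ex ε y z ∂(gst ι)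
      = ∫ z, F (z + ε⁻¹ • y) ∂(gst ι) := fun y F => (cm ε y F).symm
  have hshift : ∀ (y z : ι → ℝ), ε • (z + ε⁻¹ • y) = y + ε • z := by
    intro y z
    rw [smul_add, smul_smul, mul_inv_cancel₀ hε.ne', one_smul, add_comm]
  have hSM : SM ε g = fun y => ∫ z, g (ε • z) * Ex ε y z ∂(gst ι) := by
    funext y
    rw [hrep y (fun z => g (ε • z))]
    unfold SM
    refine integral_congr_ae (Filter.Eventually.of_forall fun z => ?_)
    simp only
    rw [hshift]
  have hball : ∀ y ∈ Metric.ball x₀ 1, ∀ i, |y i| ≤ R := by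
    intro y hy i
    have h1 : ‖y‖ ≤ R := by
      have : ‖y - x₀‖ < 1 := by simpa [dist_eq_norm] using hy
      calc ‖y‖ = ‖x₀ + (y - x₀)‖ := by congr 1; abel
        _ ≤ ‖x₀‖ + ‖y - x₀‖ := norm_add_le _ _
        _ ≤ R := by rw [hR]; linarith
    exact le_trans (norm_le_pi_norm y i) h1
  set S : (ι → ℝ) → ℝ := fun z => ∑ i, |z i| with hS
  have hS0 : ∀ z, 0 ≤ S z := fun z => Finset.sum_nonneg fun i _ => abs_nonneg _
  set M : ℝ := ε⁻¹ + ∑ _i : ι, ε⁻¹ ^ 2 * R with hM
  have hM0 : 0 ≤ M := by positivity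
  set bound : (ι → ℝ) → ℝ := fun z =>
    (C * M) * ((1 + S z) ^ 1 * Real.exp ((ε⁻¹ * R) * S z)) with hbound
  have hbi : Integrable bound (gst ι) := (gst_int_exp (ι := ι) (ε⁻¹ * R) 1).const_mul (C * M)
  -- pointwise bound of the coefficients
  have hcoef : ∀ y ∈ Metric.ball x₀ 1, ∀ z : ι → ℝ,
      ∑ i, |g (ε • z) * (Ex ε y z * (ε⁻¹ * z i - ε⁻¹ ^ 2 * y i))| ≤ bound z := by
    intro y hy z
    have hE := Ex_le hε (hball y hy) z
    have hE0 := (Ex_pos ε y z).le
    have h1 : ∑ i, |ε⁻¹ * z i - ε⁻¹ ^ 2 * y i| ≤ M * (1 + S z) := by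
      have h2 : ∀ i, |ε⁻¹ * z i - ε⁻¹ ^ 2 * y i| ≤ ε⁻¹ * |z i| + ε⁻¹ ^ 2 * R := by
        intro i
        calc |ε⁻¹ * z i - ε⁻¹ ^ 2 * y i| ≤ |ε⁻¹ * z i| + |ε⁻¹ ^ 2 * y i| := abs_sub _ _
          _ = ε⁻¹ * |z i| + ε⁻¹ ^ 2 * |y i| := by
              rw [abs_mul, abs_mul, abs_of_pos hei, abs_of_pos (pow_pos hei 2)]
          _ ≤ ε⁻¹ * |z i| + ε⁻¹ ^ 2 * R := by
              have := mul_le_mul_of_nonneg_left (hball y hy i) (pow_pos hei 2).le
              linarith
      calc ∑ i, |ε⁻¹ * z i - ε⁻¹ ^ 2 * y i| ≤ ∑ i, (ε⁻¹ * |z i| + ε⁻¹ ^ 2 * R) :=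
            Finset.sum_le_sum fun i _ => h2 i
        _ = ε⁻¹ * S z + ∑ _i : ι, ε⁻¹ ^ 2 * R := by
            rw [Finset.sum_add_distrib, ← Finset.mul_sum]
        _ ≤ M * (1 + S z) := by
            have hz := hS0 z
            have hq : 0 ≤ ∑ _i : ι, ε⁻¹ ^ 2 * R := by positivity
            rw [hM]
            nlinarith
    calc ∑ i, |g (ε • z) * (Ex ε y z * (ε⁻¹ * z i - ε⁻¹ ^ 2 * y i))|
        = |g (ε • z)| * (Ex ε y z * ∑ i, |ε⁻¹ * z i - ε⁻¹ ^ 2 * y i|) := by
          rw [Finset.mul_sum, Finset.mul_sum]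
          refine Finset.sum_congr rfl fun i _ => ?_
          rw [abs_mul, abs_mul, abs_of_nonneg hE0]
      _ ≤ C * (Real.exp ((ε⁻¹ * R) * S z) * (M * (1 + S z))) := by
          refine mul_le_mul (hC _) ?_ ?_ hC0
          · exact mul_le_mul hE h1 (Finset.sum_nonneg fun i _ => abs_nonneg _) (Real.exp_pos _).le
          · exact mul_nonneg hE0 (Finset.sum_nonneg fun i _ => abs_nonneg _)
      _ = bound z := by
          rw [hbound]
          ring
  have hx₀ : x₀ ∈ Metric.ball x₀ 1 := Metric.mem_ball_self one_pos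
  have hcont : ∀ (y : ι → ℝ), Continuous (fun z => Ex ε y z) := fun y => Ex_cont ε y
  have hgc : Continuous (fun z : ι → ℝ => g (ε • z)) := by fun_prop
  -- differentiate
  have key := hasFDerivAt_integral_of_dominated_of_fderiv_le (μ := gst ι) (𝕜 := ℝ)
    (F := fun y z => g (ε • z) * Ex ε y z)
    (F' := fun y z => ∑ i, (g (ε • z) * (Ex ε y z * (ε⁻¹ * z i - ε⁻¹ ^ 2 * y i))) •
        (ContinuousLinearMap.proj i : (ι → ℝ) →L[ℝ] ℝ))
    (bound := bound) (x₀ := x₀) (Metric.ball_mem_nhds x₀ one_pos)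
    (Filter.Eventually.of_forall fun y => (hgc.mul (hcont y)).aestronglyMeasurable)
    (by
      refine Integrable.mono' ((gst_int_exp (ι := ι) (ε⁻¹ * R) 0).const_mul C)
        (hgc.mul (hcont x₀)).aestronglyMeasurable (Filter.Eventually.of_forall fun z => ?_)
      rw [norm_mul, Real.norm_eq_abs, Real.norm_eq_abs, abs_of_pos (Ex_pos ε x₀ z), pow_zero,
        one_mul]
      exact mul_le_mul (hC _) (Ex_le hε (hball x₀ hx₀) z) (Ex_pos ε x₀ z).le hC0)
    (by
      refine Continuous.aestronglyMeasurable ?_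
      refine continuous_finsetSum _ fun i _ => ?_
      have hq : Continuous (fun z : ι → ℝ => ε⁻¹ * z i - ε⁻¹ ^ 2 * x₀ i) := by fun_prop
      exact (hgc.mul ((hcont x₀).mul hq)).smul continuous_const)
    (Filter.Eventually.of_forall fun z y hy => by
      refine ContinuousLinearMap.opNorm_le_bound _ (le_trans
        (Finset.sum_nonneg fun i _ => abs_nonneg _) (hcoef y hy z)) fun w => ?_
      simp only [_root_.sum_apply, _root_.smul_apply, smul_eq_mul,
        ContinuousLinearMap.proj_apply]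
      calc ‖∑ i, g (ε • z) * (Ex ε y z * (ε⁻¹ * z i - ε⁻¹ ^ 2 * y i)) * w i‖
          ≤ ∑ i, ‖g (ε • z) * (Ex ε y z * (ε⁻¹ * z i - ε⁻¹ ^ 2 * y i)) * w i‖ :=
            norm_sum_le _ _
        _ ≤ ∑ i, |g (ε • z) * (Ex ε y z * (ε⁻¹ * z i - ε⁻¹ ^ 2 * y i))| * ‖w‖ := by
            refine Finset.sum_le_sum fun i _ => ?_
            rw [norm_mul, Real.norm_eq_abs]
            exact mul_le_mul_of_nonneg_left (norm_le_pi_norm w i) (abs_nonneg _)
        _ = (∑ i, |g (ε • z) * (Ex ε y z * (ε⁻¹ * z i - ε⁻¹ ^ 2 * y i))|) * ‖w‖ := by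
            rw [Finset.sum_mul]
        _ ≤ bound z * ‖w‖ := mul_le_mul_of_nonneg_right (hcoef y hy z) (norm_nonneg _))
    hbi
    (Filter.Eventually.of_forall fun z y _ => by
      have h := (Ex_fderiv ε y z).const_mul (g (ε • z))
      refine h.congr_fderiv ?_
      rw [Finset.smul_sum]
      refine Finset.sum_congr rfl fun i _ => ?_
      rw [smul_smul])
  rw [hSM]
  refine key.congr_fderiv (Eq.symm ?_)
  -- the integral of the derivative
  have hint : ∀ i : ι, Integrable (fun z => g (ε • z) *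
      (Ex ε x₀ z * (ε⁻¹ * z i - ε⁻¹ ^ 2 * x₀ i))) (gst ι) := by
    intro i
    refine hbi.mono' ?_ (Filter.Eventually.of_forall fun z => ?_)
    · refine Continuous.aestronglyMeasurable ?_
      refine hgc.mul ((hcont x₀).mul ?_)
      fun_prop
    · rw [Real.norm_eq_abs]
      exact le_trans (Finset.single_le_sum (f := fun i => |g (ε • z) *
        (Ex ε x₀ z * (ε⁻¹ * z i - ε⁻¹ ^ 2 * x₀ i))|) (fun i _ => abs_nonneg _)
        (Finset.mem_univ i)) (hcoef x₀ hx₀ z)
  rw [integral_finsetSum _ (fun i _ => (hint i).smul_const _)]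
  refine Finset.sum_congr rfl fun i _ => ?_
  rw [integral_smul_const]
  congr 1
  have h1 : ∫ z, g (ε • z) * (Ex ε x₀ z * (ε⁻¹ * z i - ε⁻¹ ^ 2 * x₀ i)) ∂(gst ι)
      = ∫ z, (g (ε • z) * (ε⁻¹ * z i - ε⁻¹ ^ 2 * x₀ i)) * Ex ε x₀ z ∂(gst ι) := by
    refine integral_congr_ae (Filter.Eventually.of_forall fun z => ?_)
    simp only
    ring
  rw [h1, hrep x₀ (fun z => g (ε • z) * (ε⁻¹ * z i - ε⁻¹ ^ 2 * x₀ i)), DD, ← integral_const_mul]
  refine integral_congr_ae (Filter.Eventually.of_forall fun z => ?_)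
  simp only
  rw [hshift]
  simp only [Pi.add_apply, Pi.smul_apply, smul_eq_mul]
  ring

theorem SM_CB_one {ε : ℝ} (hε : 0 < ε) {g : (ι → ℝ) → ℝ} (hg : CB 0 g) :
    CB 1 (SM ε g) := by
  refine (CB.intro (k := 0) (D := DD ε g) ?_ (fun x => SM_fderiv hε hg x)
    (fun i => DD_CB hg i)).1
  obtain ⟨hc, C, hC⟩ := hg
  refine ⟨C, fun x => ?_⟩
  unfold SM
  have h := norm_integral_le_of_norm_le_const (μ := gst ι) (C := C)
    (f := fun z => g (x + ε • z)) (Filter.Eventually.of_forall fun z => by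
      rw [Real.norm_eq_abs]; exact hC _)
  simpa using h

end Pool.Agent.ZR.BL

end

section

/-!
# ZBL/G7 : Mehler operators `PT θ`

Proof.
`PT_bdd`: probability measure.  `PT_cont`: `continuous_of_dominated` with the constant bound.
`PT_hasFDerivAt`: for `g` in `CB 1`, differentiate `PT θ g x = ∫ g (cos θ x + sin θ z) dγ(z)` in `x`
under the integral with a CONSTANT bound (`hasFDerivAt_integral_of_dominated_of_fderiv_le`, chain
rule with `x ↦ cos θ • x + sin θ • z`, derivative `∑_i cos θ * pd i g (..) • proj i`).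
`pd_PT`, `PT_CB` (induction on `k`, `CB.intro` with `D i = fun x => cos θ * PT θ (pd i g) x`).
`PT_tendsto`: `PT (π/2) g x = ∫ g` (`cos (π/2) = 0`, `sin (π/2) = 1`) and continuity in `θ`.
`PT_close`: `|PT θ f - PT θ g| ≤ sup |f - g|`.
-/


open MeasureTheory ProbabilityTheory Matrix

namespace Pool.Agent.ZR.BL

variable {ι : Type} [Fintype ι] [DecidableEq ι]

private theorem PT_int {g : (ι → ℝ) → ℝ} (hg : CB 0 g) (θ : ℝ) (x : ι → ℝ) :
    Integrable (fun z => g (Real.cos θ • x + Real.sin θ • z)) (gst ι) := by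
  obtain ⟨hc, C, hC⟩ := hg
  refine Integrable.of_bound (C := C) ?_ (Filter.Eventually.of_forall fun z => ?_)
  · exact (hc.comp (by fun_prop)).aestronglyMeasurable
  · rw [Real.norm_eq_abs]; exact hC _

theorem PT_bdd (θ : ℝ) {g : (ι → ℝ) → ℝ} {M : ℝ} (hg : ∀ x, |g x| ≤ M) (x : ι → ℝ) :
    |PT θ g x| ≤ M := by
  unfold PT
  rw [← Real.norm_eq_abs]
  have h := norm_integral_le_of_norm_le_const (μ := gst ι) (C := M)
    (f := fun z => g (Real.cos θ • x + Real.sin θ • z))
    (Filter.Eventually.of_forall fun z => by rw [Real.norm_eq_abs]; exact hg _)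
  simpa using h

theorem PT_cont {g : (ι → ℝ) → ℝ} (hg : CB 0 g) :
    Continuous (fun p : ℝ × (ι → ℝ) => PT p.1 g p.2) := by
  obtain ⟨hc, C, hC⟩ := hg
  unfold PT
  refine continuous_of_dominated (bound := fun _ => C) (fun p => ?_) (fun p => ?_) ?_ ?_
  · exact (hc.comp (by fun_prop)).aestronglyMeasurable
  · exact Filter.Eventually.of_forall fun z => by rw [Real.norm_eq_abs]; exact hC _
  · exact integrable_const _
  · refine Filter.Eventually.of_forall fun z => ?_
    exact hc.comp (by fun_prop)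

theorem PT_hasFDerivAt (θ : ℝ) {g : (ι → ℝ) → ℝ} (hg : CB 1 g) (x : ι → ℝ) :
    HasFDerivAt (PT θ g)
      (∑ i, (Real.cos θ * PT θ (pd i g) x) • (ContinuousLinearMap.proj i : (ι → ℝ) →L[ℝ] ℝ)) x := by
  have hpd : ∀ i, CB 0 (pd i g) := fun i => hg.pd i
  choose C hC using fun i => (hpd i).2
  set F' : (ι → ℝ) → (ι → ℝ) → ((ι → ℝ) →L[ℝ] ℝ) := fun y z =>
    ∑ i, (Real.cos θ * pd i g (Real.cos θ • y + Real.sin θ • z)) •
      (ContinuousLinearMap.proj i : (ι → ℝ) →L[ℝ] ℝ) with hF'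
  have key : HasFDerivAt (fun y => ∫ z, g (Real.cos θ • y + Real.sin θ • z) ∂(gst ι))
      (∫ z, F' x z ∂(gst ι)) x := by
    refine hasFDerivAt_integral_of_dominated_of_fderiv_le (F' := F') (s := Set.univ)
      (bound := fun _ => ∑ i, |Real.cos θ| * C i * ‖(ContinuousLinearMap.proj i : (ι → ℝ) →L[ℝ] ℝ)‖)
      Filter.univ_mem ?_ ?_ ?_ ?_ ?_ ?_
    · exact Filter.Eventually.of_forall fun y =>
        (hg.cont.comp (by fun_prop)).aestronglyMeasurable
    · exact PT_int hg.zero θ x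
    · apply Continuous.aestronglyMeasurable
      rw [hF']
      refine continuous_finset_sum _ fun i _ => ?_
      have hci : Continuous (fun z : ι → ℝ =>
          Real.cos θ * pd i g (Real.cos θ • x + Real.sin θ • z)) :=
        continuous_const.mul ((hpd i).cont.comp (by fun_prop))
      exact hci.smul continuous_const
    · refine Filter.Eventually.of_forall fun z y _ => ?_
      rw [hF']
      refine (norm_sum_le _ _).trans (Finset.sum_le_sum fun i _ => ?_)
      rw [norm_smul, norm_mul, Real.norm_eq_abs, Real.norm_eq_abs]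
      exact mul_le_mul_of_nonneg_right (mul_le_mul_of_nonneg_left (hC i _) (abs_nonneg _))
        (norm_nonneg _)
    · exact integrable_const _
    · refine Filter.Eventually.of_forall fun z y _ => ?_
      have h1 := hg.hasFDerivAt (Real.cos θ • y + Real.sin θ • z)
      have h2 : HasFDerivAt (fun y : ι → ℝ => Real.cos θ • y + Real.sin θ • z)
          (Real.cos θ • ContinuousLinearMap.id ℝ (ι → ℝ)) y := by
        exact ((hasFDerivAt_id y).const_smul (Real.cos θ)).add_const _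
      have h3 := h1.comp y h2
      have e : (∑ i, pd i g (Real.cos θ • y + Real.sin θ • z) •
          (ContinuousLinearMap.proj i : (ι → ℝ) →L[ℝ] ℝ)).comp
            (Real.cos θ • ContinuousLinearMap.id ℝ (ι → ℝ)) = F' y z := by
        ext w
        simp only [hF', ContinuousLinearMap.comp_apply, ContinuousLinearMap.sum_apply,
          ContinuousLinearMap.smul_apply, ContinuousLinearMap.proj_apply,
          ContinuousLinearMap.id_apply, Pi.smul_apply, smul_eq_mul]
        refine Finset.sum_congr rfl fun i _ => ?_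
        ring
      rw [e] at h3
      exact h3
  have hI : ∫ z, F' x z ∂(gst ι) = ∑ i, (Real.cos θ * PT θ (pd i g) x) •
      (ContinuousLinearMap.proj i : (ι → ℝ) →L[ℝ] ℝ) := by
    rw [hF']
    rw [integral_finset_sum]
    · refine Finset.sum_congr rfl fun i _ => ?_
      rw [integral_smul_const, integral_const_mul]
      rfl
    · intro i _
      exact ((PT_int (hpd i) θ x).const_mul (Real.cos θ)).smul_const _
  rw [hI] at key
  exact key

private theorem CB_one {k : ℕ} {g : (ι → ℝ) → ℝ} (hg : CB (k + 1) g) : CB 1 g :=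
  ⟨hg.1, hg.2.1, fun i => (hg.2.2 i).zero⟩

theorem PT_CB (θ : ℝ) (k : ℕ) {g : (ι → ℝ) → ℝ} (hg : CB k g) : CB k (PT θ g) := by
  induction k generalizing g with
  | zero =>
    obtain ⟨C, hC⟩ := hg.2
    refine ⟨?_, C, fun x => PT_bdd θ hC x⟩
    exact (PT_cont hg).comp (Continuous.prodMk continuous_const continuous_id)
  | succ k ih =>
    obtain ⟨C, hC⟩ := hg.bdd
    exact (CB.intro (D := fun i x => Real.cos θ * PT θ (pd i g) x)
      ⟨C, fun x => PT_bdd θ hC x⟩ (fun x => PT_hasFDerivAt θ (CB_one hg) x)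
      (fun i => CB.const_mul _ (ih (hg.pd i)))).1

theorem pd_PT (θ : ℝ) {g : (ι → ℝ) → ℝ} (hg : CB 1 g) (i : ι) :
    pd i (PT θ g) = fun x => Real.cos θ * PT θ (pd i g) x := by
  obtain ⟨C, hC⟩ := hg.bdd
  exact (CB.intro (k := 0) (D := fun i x => Real.cos θ * PT θ (pd i g) x)
      ⟨C, fun x => PT_bdd θ hC x⟩ (fun x => PT_hasFDerivAt θ hg x)
      (fun i => CB.const_mul _ (PT_CB θ 0 (hg.pd i)))).2 i

theorem PT_tendsto {g : (ι → ℝ) → ℝ} (hg : CB 0 g) (x : ι → ℝ) :
    Filter.Tendsto (fun θ => PT θ g x) (nhds (Real.pi / 2)) (nhds (∫ z, g z ∂(gst ι))) := by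
  have h1 : Continuous (fun θ : ℝ => PT θ g x) :=
    (PT_cont hg).comp (Continuous.prodMk continuous_id continuous_const)
  have h2 : PT (Real.pi / 2) g x = ∫ z, g z ∂(gst ι) := by
    unfold PT
    rw [Real.cos_pi_div_two, Real.sin_pi_div_two]
    simp only [zero_smul, one_smul, zero_add]
  rw [← h2]
  exact h1.tendsto _

theorem PT_close (θ : ℝ) {f g : (ι → ℝ) → ℝ} (hf : CB 0 f) (hg : CB 0 g) {c : ℝ}
    (h : ∀ x, |f x - g x| ≤ c) (x : ι → ℝ) : |PT θ f x - PT θ g x| ≤ c := by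
  have h1 : PT θ f x - PT θ g x = PT θ (fun y => f y - g y) x := by
    unfold PT
    rw [integral_sub (PT_int hf θ x) (PT_int hg θ x)]
  rw [h1]
  exact PT_bdd θ h x

end Pool.Agent.ZR.BL

end

section

/-!
# ZBL/M2 : the gradient of an invariant function

`u` differentiable and `Inv`.
`fderiv_conj`: if `sya X' = O sya X Oᵀ`, then for all `V`, `u (X' + conjA O V) = u (X + V)` (by `Inv`:
`sya (X' + conjA O V) = O sya (X + V) Oᵀ`).  Differentiate at `V = 0` (chain rule; `conjA O` is a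
continuous linear map): `fderiv u X' (conjA O V) = fderiv u X V`.
`pd_swap`: `O = 1`, `X' = X`... more directly: for `A = single (i,j) 1 - single (j,i) 1` one has
`sya (X + s A) = sya X`, so `u (X + s A) = u X` for all `s`, `fderiv u X A = 0`.
`pd_congr`: if `sya X' = sya X` then all first derivatives agree (`fderiv_conj` with `O = 1`).
`pd_conj`: apply `fderiv_conj` to `V = conjA Oᵀ (single (i,j) 1)` (`conjA O (conjA Oᵀ V) = V`), whose
`(k,l)` entry is `O i k * O j l`; use `fderiv_eq_sum`: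
  `pd (i,j) u X' = ∑_{k,l} O i k * O j l * pd (k,l) u X`.
`grad_off`: at `dg d` (`sya (dg d) = diagonal d`) take `O = diagonal` with `O i i = -1`, other
diagonal entries `1`: `O diag(d) Oᵀ = diag d`, so `pd_conj` with `X' = X = dg d` gives
`pd (i,j) u (dg d) = - pd (i,j) u (dg d)` for `j ≠ i`.
`grad_eq`: if `d i = d j` take the permutation matrix `O` of `Equiv.swap i j`:
`O diag(d) Oᵀ = diag (d ∘ swap i j) = diag d`; `pd_conj` gives `pd (i,i) u (dg d) = pd (j,j) u (dg d)`.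
`grad_array`: if `sya X = O diag(d) Oᵀ` then the gradient array of `u` at `X` is
`conjA O (dg (2 k))`, `k i = pd (i,i) u (dg d)`: by `pd_conj` with `(X, dg d)` and `grad_off`,
`pd (i,j) u X = ∑_k O i k * O j k * k_k = (O diag(k) Oᵀ) i j`, and `dg (2k)` is the array of `diag k`.
-/


open MeasureTheory ProbabilityTheory Matrix

namespace Pool.Agent.ZR.BL

variable {n : ℕ}

theorem fderiv_conj {u : (Fin n × Fin n → ℝ) → ℝ} (hd : Differentiable ℝ u) (hu : Inv u)
    {O : Matrix (Fin n) (Fin n) ℝ} (h1 : Oᵀ * O = 1) (h2 : O * Oᵀ = 1)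
    {X X' : Fin n × Fin n → ℝ} (h : sya X' = O * sya X * Oᵀ) (V : Fin n × Fin n → ℝ) :
    fderiv ℝ u X' (K1.conjA O V) = fderiv ℝ u X V := by
  have key : ∀ s : ℝ, u (X' + s • K1.conjA O V) = u (X + s • V) := by
    intro s
    refine hu O h1 h2 _ _ ?_
    rw [sya_add, sya_smul, sya_conjA, h, sya_add, sya_smul, Matrix.mul_add, Matrix.add_mul,
      Matrix.mul_smul, Matrix.smul_mul]
  have line : ∀ (Y W : Fin n × Fin n → ℝ),
      HasDerivAt (fun s : ℝ => u (Y + s • W)) (fderiv ℝ u Y W) 0 := by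
    intro Y W
    have e1 : HasDerivAt (fun s : ℝ => Y + s • W) W 0 := by
      have := ((hasDerivAt_id (0 : ℝ)).smul_const W).const_add Y
      simpa using this
    have e2 : HasFDerivAt u (fderiv ℝ u Y) (Y + (0 : ℝ) • W) := by
      rw [zero_smul, add_zero]
      exact (hd Y).hasFDerivAt
    exact e2.comp_hasDerivAt (0 : ℝ) e1
  have a1 := line X' (K1.conjA O V)
  have a2 := line X V
  have e : (fun s : ℝ => u (X' + s • K1.conjA O V)) = fun s : ℝ => u (X + s • V) := funext key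
  rw [e] at a1
  exact a1.unique a2

theorem conjA_one (V : Fin n × Fin n → ℝ) : K1.conjA (1 : Matrix (Fin n) (Fin n) ℝ) V = V := by
  funext p
  show ((1 : Matrix (Fin n) (Fin n) ℝ) * Matrix.of (fun i j => V (i, j)) *
    (1 : Matrix (Fin n) (Fin n) ℝ)ᵀ) p.1 p.2 = V p
  rw [Matrix.one_mul, Matrix.transpose_one, Matrix.mul_one]
  rfl

theorem fderiv_of_sya_zero {u : (Fin n × Fin n → ℝ) → ℝ} (hd : Differentiable ℝ u) (hu : Inv u)
    (X A : Fin n × Fin n → ℝ) (hA : sya A = 0) : fderiv ℝ u X A = 0 := by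
  have key : ∀ s : ℝ, u (X + s • A) = u X := by
    intro s
    refine hu 1 (by simp) (by simp) _ _ ?_
    rw [sya_add, sya_smul, hA]
    simp
  have e1 : HasDerivAt (fun s : ℝ => X + s • A) A 0 := by
    have := ((hasDerivAt_id (0 : ℝ)).smul_const A).const_add X
    simpa using this
  have e2 : HasFDerivAt u (fderiv ℝ u X) (X + (0 : ℝ) • A) := by
    rw [zero_smul, add_zero]
    exact (hd X).hasFDerivAt
  have e3 : HasDerivAt (fun s : ℝ => u (X + s • A)) (fderiv ℝ u X A) 0 :=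
    e2.comp_hasDerivAt (0 : ℝ) e1
  have e4 : (fun s : ℝ => u (X + s • A)) = fun _ : ℝ => u X := funext key
  rw [e4] at e3
  exact e3.unique (hasDerivAt_const (0 : ℝ) (u X))

theorem pd_swap {u : (Fin n × Fin n → ℝ) → ℝ} (hd : Differentiable ℝ u) (hu : Inv u)
    (i j : Fin n) : pd (i, j) u = pd (j, i) u := by
  funext X
  have h0 : sya ((Pi.single (i, j) (1 : ℝ) : Fin n × Fin n → ℝ) - Pi.single (j, i) 1) = 0 := by
    ext k l
    simp only [sya, Matrix.of_apply, Pi.sub_apply, Pi.single_apply, Prod.mk.injEq, Matrix.zero_apply]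
    rw [if_congr (and_comm (a := l = i) (b := k = j)) (rfl : (1 : ℝ) = 1) (rfl : (0 : ℝ) = 0),
      if_congr (and_comm (a := l = j) (b := k = i)) (rfl : (1 : ℝ) = 1) (rfl : (0 : ℝ) = 0)]
    ring
  have h1 := fderiv_of_sya_zero hd hu X _ h0
  rw [map_sub, sub_eq_zero] at h1
  exact h1

theorem pd_congr {u : (Fin n × Fin n → ℝ) → ℝ} (hd : Differentiable ℝ u) (hu : Inv u)
    {X X' : Fin n × Fin n → ℝ} (h : sya X' = sya X) (p : Fin n × Fin n) :
    pd p u X' = pd p u X := by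
  have := fderiv_conj hd hu (O := 1) (by simp) (by simp) (X := X) (X' := X')
    (by rw [h]; simp) (Pi.single p 1)
  rw [conjA_one] at this
  exact this

theorem pd_conj {u : (Fin n × Fin n → ℝ) → ℝ} (hd : Differentiable ℝ u) (hu : Inv u)
    {O : Matrix (Fin n) (Fin n) ℝ} (h1 : Oᵀ * O = 1) (h2 : O * Oᵀ = 1)
    {X X' : Fin n × Fin n → ℝ} (h : sya X' = O * sya X * Oᵀ) (i j : Fin n) :
    pd (i, j) u X' = ∑ k, ∑ l, O i k * O j l * pd (k, l) u X := by
  have hV : K1.conjA O (K1.conjA Oᵀ (Pi.single (i, j) 1)) = Pi.single (i, j) (1 : ℝ) := by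
    funext p
    have e : (Matrix.of (fun a b => K1.conjA Oᵀ (Pi.single (i, j) (1 : ℝ)) (a, b)) :
        Matrix (Fin n) (Fin n) ℝ)
        = Oᵀ * Matrix.of (fun a b => (Pi.single (i, j) (1 : ℝ) : Fin n × Fin n → ℝ) (a, b)) * O := by
      ext a b
      show (Oᵀ * Matrix.of (fun a b => (Pi.single (i, j) (1 : ℝ) : Fin n × Fin n → ℝ) (a, b)) *
        (Oᵀ)ᵀ) a b = _
      rw [Matrix.transpose_transpose]
    show (O * Matrix.of (fun a b => K1.conjA Oᵀ (Pi.single (i, j) (1 : ℝ)) (a, b)) * Oᵀ) p.1 p.2 = _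
    rw [e]
    have e2 : O * (Oᵀ * Matrix.of (fun a b => (Pi.single (i, j) (1 : ℝ) :
        Fin n × Fin n → ℝ) (a, b)) * O) * Oᵀ
        = (O * Oᵀ) * Matrix.of (fun a b => (Pi.single (i, j) (1 : ℝ) :
        Fin n × Fin n → ℝ) (a, b)) * (O * Oᵀ) := by
      simp only [Matrix.mul_assoc]
    rw [e2, h2, Matrix.one_mul, Matrix.mul_one]
    rfl
  have hE : ∀ k l, K1.conjA Oᵀ (Pi.single (i, j) (1 : ℝ)) (k, l) = O i k * O j l := by
    intro k l
    show (Oᵀ * Matrix.of (fun a b => (Pi.single (i, j) (1 : ℝ) : Fin n × Fin n → ℝ) (a, b)) *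
      Oᵀᵀ) k l = _
    rw [Matrix.transpose_transpose, Matrix.mul_apply]
    simp only [Matrix.mul_apply, Matrix.transpose_apply, Matrix.of_apply, Pi.single_apply,
      Prod.mk.injEq, mul_ite, mul_one, mul_zero]
    rw [Finset.sum_eq_single j]
    · rw [Finset.sum_eq_single i]
      · simp
      · intro b _ hb
        simp [hb]
      · intro hh
        exact absurd (Finset.mem_univ _) hh
    · intro b _ hb
      simp [hb]
    · intro hh
      exact absurd (Finset.mem_univ _) hh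
  have key := fderiv_conj hd hu h1 h2 h (K1.conjA Oᵀ (Pi.single (i, j) (1 : ℝ)))
  rw [hV, fderiv_eq_sum u X, Fintype.sum_prod_type] at key
  show fderiv ℝ u X' (Pi.single (i, j) 1) = _
  rw [key]
  refine Finset.sum_congr rfl fun k _ => Finset.sum_congr rfl fun l _ => ?_
  rw [hE, mul_comm]

theorem grad_off {u : (Fin n × Fin n → ℝ) → ℝ} (hd : Differentiable ℝ u) (hu : Inv u)
    (d : Fin n → ℝ) {i j : Fin n} (hij : i ≠ j) : pd (i, j) u (dg d) = 0 := by
  set e : Fin n → ℝ := fun k => if k = i then -1 else 1 with he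
  set O : Matrix (Fin n) (Fin n) ℝ := Matrix.diagonal e with hO
  have hee : ∀ k, e k * e k = 1 := by
    intro k
    by_cases hk : k = i <;> simp [he, hk]
  have hOO : O * O = 1 := by
    rw [hO, Matrix.diagonal_mul_diagonal]
    simp only [hee]
    exact Matrix.diagonal_one
  have hT : Oᵀ = O := by rw [hO, Matrix.diagonal_transpose]
  have h1 : Oᵀ * O = 1 := by rw [hT, hOO]
  have h2 : O * Oᵀ = 1 := by rw [hT, hOO]
  have hs : sya (dg d) = O * sya (dg d) * Oᵀ := by
    rw [hT, sya_dg, hO, Matrix.diagonal_mul_diagonal, Matrix.diagonal_mul_diagonal]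
    congr 1
    funext k
    have := hee k
    calc d k = d k * (e k * e k) := by rw [this, mul_one]
      _ = e k * d k * e k := by ring
  have key := pd_conj hd hu h1 h2 hs i j
  have h3 : ∑ k, ∑ l, O i k * O j l * pd (k, l) u (dg d) = - pd (i, j) u (dg d) := by
    rw [Finset.sum_eq_single i]
    · rw [Finset.sum_eq_single j]
      · have a : O i i = -1 := by simp [hO, he]
        have b : O j j = 1 := by
          have : ¬ j = i := fun h => hij h.symm
          simp [hO, he, this]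
        rw [a, b]; ring
      · intro l _ hl
        have : O j l = 0 := by rw [hO, Matrix.diagonal_apply_ne _ (Ne.symm hl)]
        rw [this]; ring
      · intro hh
        exact absurd (Finset.mem_univ _) hh
    · intro k _ hk
      have : O i k = 0 := by rw [hO, Matrix.diagonal_apply_ne _ (Ne.symm hk)]
      simp [this]
    · intro hh
      exact absurd (Finset.mem_univ _) hh
  rw [h3] at key
  linarith

theorem grad_eq {u : (Fin n × Fin n → ℝ) → ℝ} (hd : Differentiable ℝ u) (hu : Inv u)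
    (d : Fin n → ℝ) {i j : Fin n} (hij : d i = d j) :
    pd (i, i) u (dg d) = pd (j, j) u (dg d) := by
  set σ : Equiv.Perm (Fin n) := Equiv.swap i j with hσ
  set O : Matrix (Fin n) (Fin n) ℝ := Matrix.of (fun a b => if σ a = b then (1 : ℝ) else 0) with hO
  have hσσ : ∀ a, σ (σ a) = a := fun a => by
    rw [hσ, ← Equiv.Perm.mul_apply, Equiv.swap_mul_self, Equiv.Perm.one_apply]
  have hT : Oᵀ = O := by
    ext a b
    simp only [Matrix.transpose_apply, hO, Matrix.of_apply]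
    by_cases h : σ b = a
    · have : σ a = b := by rw [← h, hσσ]
      simp [h, this]
    · have : ¬ σ a = b := fun h' => h (by rw [← h', hσσ])
      simp [h, this]
  have hmul : ∀ (A : Matrix (Fin n) (Fin n) ℝ) (a b : Fin n), (O * A) a b = A (σ a) b := by
    intro A a b
    rw [Matrix.mul_apply]
    simp only [hO, Matrix.of_apply, ite_mul, one_mul, zero_mul]
    rw [Finset.sum_ite_eq]
    simp
  have hOO : O * O = 1 := by
    ext a b
    rw [hmul]
    simp only [hO, Matrix.of_apply, hσσ, Matrix.one_apply]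
  have h1 : Oᵀ * O = 1 := by rw [hT, hOO]
  have h2 : O * Oᵀ = 1 := by rw [hT, hOO]
  have hdσ : ∀ a, d (σ a) = d a := by
    intro a
    by_cases ha : a = i
    · rw [ha, hσ, Equiv.swap_apply_left, hij]
    · by_cases hb : a = j
      · rw [hb, hσ, Equiv.swap_apply_right, hij]
      · rw [hσ, Equiv.swap_apply_of_ne_of_ne ha hb]
  have hs : sya (dg d) = O * sya (dg d) * Oᵀ := by
    rw [sya_dg]
    have hc : O * Matrix.diagonal d = Matrix.diagonal d * O := by
      ext a b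
      rw [hmul, Matrix.diagonal_mul]
      simp only [hO, Matrix.of_apply]
      by_cases h : σ a = b
      · rw [← h]
        simp [hdσ]
      · rw [Matrix.diagonal_apply_ne _ h]
        simp [h]
    rw [hc, Matrix.mul_assoc, h2, Matrix.mul_one]
  have key := pd_conj hd hu h1 h2 hs i i
  have h3 : ∑ k, ∑ l, O i k * O i l * pd (k, l) u (dg d) = pd (j, j) u (dg d) := by
    have hi : σ i = j := by rw [hσ, Equiv.swap_apply_left]
    rw [Finset.sum_eq_single j]
    · rw [Finset.sum_eq_single j]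
      · have a : O i j = 1 := by simp [hO, hi]
        rw [a]; ring
      · intro l _ hl
        have : O i l = 0 := by
          simp only [hO, Matrix.of_apply, hi]
          simp [Ne.symm hl]
        rw [this]; ring
      · intro hh
        exact absurd (Finset.mem_univ _) hh
    · intro k _ hk
      have : O i k = 0 := by
        simp only [hO, Matrix.of_apply, hi]
        simp [Ne.symm hk]
      simp [this]
    · intro hh
      exact absurd (Finset.mem_univ _) hh
  rw [h3] at key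
  exact key

theorem grad_array {u : (Fin n × Fin n → ℝ) → ℝ} (hd : Differentiable ℝ u) (hu : Inv u)
    {O : Matrix (Fin n) (Fin n) ℝ} (h1 : Oᵀ * O = 1) (h2 : O * Oᵀ = 1)
    {X : Fin n × Fin n → ℝ} {d : Fin n → ℝ} (h : sya X = O * Matrix.diagonal d * Oᵀ) :
    (fun p => pd p u X) = K1.conjA O (dg (fun i => 2 * pd (i, i) u (dg d))) := by
  funext p
  obtain ⟨i, j⟩ := p
  have h' : sya X = O * sya (dg d) * Oᵀ := by rw [sya_dg, h]
  have key := pd_conj hd hu h1 h2 h' i j
  show pd (i, j) u X = (O * Matrix.of (fun a b => dg (fun i => 2 * pd (i, i) u (dg d)) (a, b)) * Oᵀ)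
    i j
  rw [key, Matrix.mul_apply]
  have hD : ∀ k, (O * Matrix.of (fun a b => dg (fun i => 2 * pd (i, i) u (dg d)) (a, b))) i k
      = O i k * pd (k, k) u (dg d) := by
    intro k
    rw [Matrix.mul_apply, Finset.sum_eq_single k]
    · simp [dg]
    · intro b _ hb
      simp [dg, hb]
    · intro hh
      exact absurd (Finset.mem_univ _) hh
  refine Finset.sum_congr rfl fun k _ => ?_
  rw [hD, Finset.sum_eq_single k]
  · rw [Matrix.transpose_apply]; ring
  · intro l _ hl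
    rw [grad_off hd hu d (Ne.symm hl), mul_zero]
  · intro hh
    exact absurd (Finset.mem_univ _) hh

end Pool.Agent.ZR.BL

end

section

/-!
# ZR, part G: the left side.

`∑_Adj s8 G_ji = ∑_all - ∑_{i=j} - ∑_{j=k} - ∑_{k=l} - ∑_{l=i} + O(18 n² · 8 γ)` (`sum4_incl_excl`):
* all: `n² tr(M G) + ∑_ij (M³)_ji G_ji` (`sum_kl_s8`), second term `|tr(M³ G)| ≤ L³ τ`
  (`opLe_mul`, `nu_trace`, symmetry);
* `i = j`: `n² ∑_i M_ii G_ii + ∑_i (M³)_ii G_ii`, second term `≤ n L³ γ` (`opLe_entry`);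
* `j = k`: `∑_ij (M_ij - M_jj)(n - (M²)_ji) G_ji` (`sum_l_s8_jj`) =
  `n tr(M G) - ∑ M_ij (M²)_ji G_ji - 0 + ∑ M_jj (M²)_ji G_ji`: `≤ n L τ + 2 (L n) h`
  (`hs2 (M*M) ≤ L² n²`, `cs2`; `∑_i G_ji = 0`);
* `l = i`: the same with `M_ii`: `≤ n L τ + 2 (L n) h`;
* `k = l` (`sum_k_s8_kk`): `n tr(M G) + 0 - ∑_j (M G)_jj (Md)_j + ∑ M_ij (M²)_ji G_ji
  - ∑_i (G M)_ii (Md)_i + tr(M D M G)`, `D = diag(M_kk)`, `(Md)_j = ∑_k M_jk M_kk`,
  `∑_j |(Md)_j|² ≤ L² n`: `≤ n L τ + 2 d L √n + L n h + L² τ` (`M D M` has norm `≤ L²`).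
-/


open MeasureTheory ProbabilityTheory Matrix

namespace Pool.Agent.ZR.G

variable {n : ℕ}

private theorem bnd_had {A G : Matrix (Fin n) (Fin n) ℂ} (c : Fin n → Fin n → ℂ)
    (hc : ∀ i j, ‖c i j‖ = 1) (a h : ℝ) (ha : 0 ≤ a) (hh : 0 ≤ h) (hA : hs2 A ≤ a ^ 2)
    (hs : hs2 G ≤ h ^ 2) : ‖∑ i, ∑ j, c i j * (A j i * G j i)‖ ≤ a * h := by
  have h1 : ‖∑ i, ∑ j, c i j * (A j i * G j i)‖ ≤ ∑ i, ∑ j, ‖A j i‖ * ‖G j i‖ := by
    refine (norm_sum_le _ _).trans (Finset.sum_le_sum fun i _ =>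
      (norm_sum_le _ _).trans (Finset.sum_le_sum fun j _ => ?_))
    rw [norm_mul, norm_mul, hc, one_mul]
  refine h1.trans ?_
  rw [Finset.sum_comm]
  exact cs2 (fun j i => A j i) (fun j i => G j i) a h ha hh hA hs

private theorem tr_sym {A G : Matrix (Fin n) (Fin n) ℂ} (hG : IsRs G) :
    ∑ i, ∑ j, A j i * G j i = (A * G).trace := by
  rw [Finset.sum_comm]
  simp only [Matrix.trace, Matrix.diag_apply, Matrix.mul_apply]
  exact Finset.sum_congr rfl fun j _ => Finset.sum_congr rfl fun i _ => by rw [hG.sym j i]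

private theorem tr_MG (A G : Matrix (Fin n) (Fin n) ℂ) :
    ∑ i, ∑ j, A i j * G j i = (A * G).trace := by
  simp only [Matrix.trace, Matrix.diag_apply, Matrix.mul_apply]

private theorem col_zero {G : Matrix (Fin n) (Fin n) ℂ} (hG : IsRs G) (c : Fin n → ℂ) :
    ∑ i, ∑ j, c j * G j i = 0 := by
  rw [Finset.sum_comm]
  refine Finset.sum_eq_zero fun j _ => ?_
  rw [← Finset.mul_sum, hG.row, mul_zero]

private theorem row_zero {G : Matrix (Fin n) (Fin n) ℂ} (hG : IsRs G) (c : Fin n → ℂ) :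
    ∑ i, ∑ j, c i * G j i = 0 := by
  refine Finset.sum_eq_zero fun i _ => ?_
  rw [← Finset.mul_sum]
  have : ∑ j, G j i = 0 := by
    rw [← hG.row i]
    exact Finset.sum_congr rfl fun j _ => hG.sym j i
  rw [this, mul_zero]

private theorem opLe_diag {M : Matrix (Fin n) (Fin n) ℂ} (hM : IsSg M) :
    OpLe (Matrix.diagonal fun k => M k k) 1 := by
  refine ⟨zero_le_one, fun u => ?_⟩
  rw [one_pow, one_mul]
  refine Finset.sum_le_sum fun i _ => ?_
  rw [Matrix.mulVec_diagonal, norm_mul, sg_norm hM, one_mul]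

private theorem md_bound {M : Matrix (Fin n) (Fin n) ℂ} (hM : IsSg M) (L : ℝ) (hL : OpLe M L) :
    ∑ j, ‖∑ k, M j k * M k k‖ ^ 2 ≤ (L * Real.sqrt n) ^ 2 := by
  have h := hL.2 (fun k => M k k)
  have h2 : ∑ i, ‖M i i‖ ^ 2 = (n : ℝ) := by
    simp [sg_norm hM]
  rw [h2] at h
  rw [mul_pow, Real.sq_sqrt (Nat.cast_nonneg n)]
  exact h

private theorem cross_bound {M G : Matrix (Fin n) (Fin n) ℂ} (hM : IsSg M) (L d : ℝ)
    (hL : OpLe M L) (hd0 : 0 ≤ d) (hd : ∑ j, ‖(M * G) j j‖ ^ 2 ≤ d ^ 2) :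
    ‖∑ j, (∑ k, M j k * M k k) * (M * G) j j‖ ≤ d * (L * Real.sqrt n) := by
  have h1 : ‖∑ j, (∑ k, M j k * M k k) * (M * G) j j‖
      ≤ ∑ j, ‖(M * G) j j‖ * ‖∑ k, M j k * M k k‖ := by
    refine (norm_sum_le _ _).trans (Finset.sum_le_sum fun j _ => ?_)
    rw [norm_mul, mul_comm]
  exact h1.trans (cs1 _ _ d (L * Real.sqrt n) hd0 (mul_nonneg hL.1 (Real.sqrt_nonneg _)) hd
    (md_bound hM L hL))

private theorem part_all {M G : Matrix (Fin n) (Fin n) ℂ} (hM : IsSg M) (hG : IsRs G) (L τ : ℝ)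
    (hL : OpLe M L) (hτ : NuLe G τ) :
    ‖(∑ i, ∑ j, ∑ k, ∑ l, s8 M i j k l * G j i) - (n : ℂ) ^ 2 * (M * G).trace‖ ≤ L ^ 3 * τ := by
  have h1 : ∑ i, ∑ j, ∑ k, ∑ l, s8 M i j k l * G j i
      = (n : ℂ) ^ 2 * (M * G).trace + (M * M * M * G).trace := by
    rw [← tr_sym (A := M * M * M) hG, ← tr_MG M G, Finset.mul_sum, ← Finset.sum_add_distrib]
    refine Finset.sum_congr rfl fun i _ => ?_
    rw [Finset.mul_sum, ← Finset.sum_add_distrib]
    refine Finset.sum_congr rfl fun j _ => ?_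
    simp only [← Finset.sum_mul]
    rw [sum_kl_s8 hM]
    ring
  rw [h1, add_sub_cancel_left]
  have h2 := nu_trace (M * M * M) G (L * L * L) τ
    (opLe_mul _ _ _ _ (opLe_mul _ _ _ _ hL hL) hL) hτ
  refine h2.trans (le_of_eq ?_)
  ring

private theorem part_ii {M G : Matrix (Fin n) (Fin n) ℂ} (hM : IsSg M) (L γ : ℝ)
    (hL : OpLe M L) (hγ : EnLe G γ) :
    ‖(∑ i, ∑ k, ∑ l, s8 M i i k l * G i i) - (n : ℂ) ^ 2 * ∑ i, M i i * G i i‖
      ≤ n * L ^ 3 * γ := by
  have h1 : ∑ i, ∑ k, ∑ l, s8 M i i k l * G i i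
      = (n : ℂ) ^ 2 * (∑ i, M i i * G i i) + ∑ i, (M * M * M) i i * G i i := by
    rw [Finset.mul_sum, ← Finset.sum_add_distrib]
    refine Finset.sum_congr rfl fun i _ => ?_
    simp only [← Finset.sum_mul]
    rw [sum_kl_s8 hM]
    ring
  rw [h1, add_sub_cancel_left]
  have hL3 : OpLe (M * M * M) (L * L * L) := opLe_mul _ _ _ _ (opLe_mul _ _ _ _ hL hL) hL
  refine (norm_sum_le _ _).trans ?_
  have h2 : ∀ i ∈ (Finset.univ : Finset (Fin n)), ‖(M * M * M) i i * G i i‖ ≤ L ^ 3 * γ := by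
    intro i _
    rw [norm_mul]
    have e1 := opLe_entry _ _ hL3 i i
    have e2 := hγ i i
    have e3 : L * L * L = L ^ 3 := by ring
    rw [e3] at e1
    exact mul_le_mul e1 e2 (norm_nonneg _) (by have := hL.1; positivity)
  refine (Finset.sum_le_sum h2).trans (le_of_eq ?_)
  simp
  ring

private theorem hs2_MM {M : Matrix (Fin n) (Fin n) ℂ} (hM : IsSg M) (L : ℝ) (hL : OpLe M L) :
    hs2 (M * M) ≤ (L * n) ^ 2 := by
  have h := hs2_mul_le M M L hL
  rw [hs2_sg hM] at h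
  rw [mul_pow]
  exact h

private theorem tr_bd {M G : Matrix (Fin n) (Fin n) ℂ} (L τ : ℝ) (hL : OpLe M L)
    (hτ : NuLe G τ) : ‖(n : ℂ) * (M * G).trace‖ ≤ n * L * τ := by
  rw [norm_mul, Complex.norm_natCast, mul_assoc]
  exact mul_le_mul_of_nonneg_left (nu_trace M G L τ hL hτ) (Nat.cast_nonneg n)

private theorem part_jk {M G : Matrix (Fin n) (Fin n) ℂ} (hM : IsSg M) (hG : IsRs G) (L h τ : ℝ)
    (hL : OpLe M L) (hh : 0 ≤ h) (hs : hs2 G ≤ h ^ 2) (hτ : NuLe G τ) :
    ‖∑ i, ∑ j, ∑ l, s8 M i j j l * G j i‖ ≤ n * L * τ + 2 * (L * n * h) := by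
  have h1 : ∑ i, ∑ j, ∑ l, s8 M i j j l * G j i
      = (n : ℂ) * (M * G).trace - (∑ i, ∑ j, M i j * ((M * M) j i * G j i))
        + (∑ i, ∑ j, M j j * ((M * M) j i * G j i))
        - (n : ℂ) * ∑ i, ∑ j, M j j * G j i := by
    rw [← tr_MG M G, Finset.mul_sum, Finset.mul_sum, ← Finset.sum_sub_distrib,
      ← Finset.sum_add_distrib, ← Finset.sum_sub_distrib]
    refine Finset.sum_congr rfl fun i _ => ?_
    rw [Finset.mul_sum, Finset.mul_sum, ← Finset.sum_sub_distrib,
      ← Finset.sum_add_distrib, ← Finset.sum_sub_distrib]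
    refine Finset.sum_congr rfl fun j _ => ?_
    rw [← Finset.sum_mul, sum_l_s8_jj hM]
    ring
  have hLn : 0 ≤ L * n := mul_nonneg hL.1 (Nat.cast_nonneg n)
  rw [h1, col_zero hG (fun j => M j j), mul_zero, sub_zero]
  have b1 := tr_bd L τ hL hτ
  have b2 := bnd_had (A := M * M) (G := G) (fun i j => M i j) (fun i j => sg_norm hM i j)
    (L * n) h hLn hh (hs2_MM hM L hL) hs
  have b3 := bnd_had (A := M * M) (G := G) (fun _ j => M j j) (fun i j => sg_norm hM j j)
    (L * n) h hLn hh (hs2_MM hM L hL) hs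
  have c1 := norm_add_le ((n : ℂ) * (M * G).trace - (∑ i, ∑ j, M i j * ((M * M) j i * G j i)))
    (∑ i, ∑ j, M j j * ((M * M) j i * G j i))
  have c2 := norm_sub_le ((n : ℂ) * (M * G).trace) (∑ i, ∑ j, M i j * ((M * M) j i * G j i))
  linarith

private theorem part_li {M G : Matrix (Fin n) (Fin n) ℂ} (hM : IsSg M) (hG : IsRs G) (L h τ : ℝ)
    (hL : OpLe M L) (hh : 0 ≤ h) (hs : hs2 G ≤ h ^ 2) (hτ : NuLe G τ) :
    ‖∑ i, ∑ j, ∑ k, s8 M i j k i * G j i‖ ≤ n * L * τ + 2 * (L * n * h) := by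
  have h1 : ∑ i, ∑ j, ∑ k, s8 M i j k i * G j i
      = (n : ℂ) * (M * G).trace - (∑ i, ∑ j, M i j * ((M * M) j i * G j i))
        + (∑ i, ∑ j, M i i * ((M * M) j i * G j i))
        - (n : ℂ) * ∑ i, ∑ j, M i i * G j i := by
    rw [← tr_MG M G, Finset.mul_sum, Finset.mul_sum, ← Finset.sum_sub_distrib,
      ← Finset.sum_add_distrib, ← Finset.sum_sub_distrib]
    refine Finset.sum_congr rfl fun i _ => ?_
    rw [Finset.mul_sum, Finset.mul_sum, ← Finset.sum_sub_distrib,
      ← Finset.sum_add_distrib, ← Finset.sum_sub_distrib]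
    refine Finset.sum_congr rfl fun j _ => ?_
    rw [← Finset.sum_mul, sum_k_s8_li hM]
    ring
  have hLn : 0 ≤ L * n := mul_nonneg hL.1 (Nat.cast_nonneg n)
  rw [h1, row_zero hG (fun i => M i i), mul_zero, sub_zero]
  have b1 := tr_bd L τ hL hτ
  have b2 := bnd_had (A := M * M) (G := G) (fun i j => M i j) (fun i j => sg_norm hM i j)
    (L * n) h hLn hh (hs2_MM hM L hL) hs
  have b3 := bnd_had (A := M * M) (G := G) (fun i _ => M i i) (fun i j => sg_norm hM i i)
    (L * n) h hLn hh (hs2_MM hM L hL) hs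
  have c1 := norm_add_le ((n : ℂ) * (M * G).trace - (∑ i, ∑ j, M i j * ((M * M) j i * G j i)))
    (∑ i, ∑ j, M i i * ((M * M) j i * G j i))
  have c2 := norm_sub_le ((n : ℂ) * (M * G).trace) (∑ i, ∑ j, M i j * ((M * M) j i * G j i))
  linarith

private theorem part_kl {M G : Matrix (Fin n) (Fin n) ℂ} (hM : IsSg M) (hG : IsRs G)
    (L h τ d : ℝ) (hL : OpLe M L) (hh : 0 ≤ h) (hs : hs2 G ≤ h ^ 2) (hτ : NuLe G τ)
    (hd0 : 0 ≤ d) (hd : ∑ j, ‖(M * G) j j‖ ^ 2 ≤ d ^ 2) :
    ‖∑ i, ∑ j, ∑ k, s8 M i j k k * G j i‖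
      ≤ n * L * τ + 2 * (d * (L * Real.sqrt n)) + L * n * h + L ^ 2 * τ := by
  have h1 : ∑ i, ∑ j, ∑ k, s8 M i j k k * G j i
      = (n : ℂ) * (M * G).trace + (∑ i, ∑ j, M.trace * G j i)
        - (∑ i, ∑ j, (M i j * G j i) * (∑ k, M j k * M k k))
        + (∑ i, ∑ j, M i j * ((M * M) j i * G j i))
        - (∑ i, ∑ j, (∑ k, M i k * M k k) * (M i j * G j i))
        + ∑ i, ∑ j, (M * Matrix.diagonal (fun k => M k k) * M) j i * G j i := by
    rw [← tr_MG M G, Finset.mul_sum, ← Finset.sum_add_distrib, ← Finset.sum_sub_distrib,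
      ← Finset.sum_add_distrib, ← Finset.sum_sub_distrib, ← Finset.sum_add_distrib]
    refine Finset.sum_congr rfl fun i _ => ?_
    rw [Finset.mul_sum, ← Finset.sum_add_distrib, ← Finset.sum_sub_distrib,
      ← Finset.sum_add_distrib, ← Finset.sum_sub_distrib, ← Finset.sum_add_distrib]
    refine Finset.sum_congr rfl fun j _ => ?_
    have e1 : (M * Matrix.diagonal (fun k => M k k) * M) j i = ∑ k, M j k * M k k * M k i := by
      rw [Matrix.mul_apply]
      exact Finset.sum_congr rfl fun k _ => by rw [Matrix.mul_diagonal]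
    rw [← Finset.sum_mul, sum_k_s8_kk hM, e1]
    ring
  have e2 : ∑ i, ∑ j, (M i j * G j i) * (∑ k, M j k * M k k)
      = ∑ j, (∑ k, M j k * M k k) * (M * G) j j := by
    rw [Finset.sum_comm]
    refine Finset.sum_congr rfl fun j _ => ?_
    rw [← Finset.sum_mul, mul_comm, Matrix.mul_apply]
    congr 1
    exact Finset.sum_congr rfl fun i _ => by rw [hM.sym j i, hG.sym j i]
  have e3 : ∑ i, ∑ j, (∑ k, M i k * M k k) * (M i j * G j i)
      = ∑ j, (∑ k, M j k * M k k) * (M * G) j j := by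
    refine Finset.sum_congr rfl fun i _ => ?_
    rw [← Finset.mul_sum, Matrix.mul_apply]
  have hLn : 0 ≤ L * n := mul_nonneg hL.1 (Nat.cast_nonneg n)
  rw [h1, col_zero hG (fun _ => M.trace), add_zero, e2, e3,
    tr_sym (A := M * Matrix.diagonal (fun k => M k k) * M) hG]
  have b1 := tr_bd L τ hL hτ
  have b2 := cross_bound hM L d hL hd0 hd
  have b3 := bnd_had (A := M * M) (G := G) (fun i j => M i j) (fun i j => sg_norm hM i j)
    (L * n) h hLn hh (hs2_MM hM L hL) hs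
  have b4 := nu_trace (M * Matrix.diagonal (fun k => M k k) * M) G (L * 1 * L) τ
    (opLe_mul _ _ _ _ (opLe_mul _ _ _ _ hL (opLe_diag hM)) hL) hτ
  have e4 : L * 1 * L * τ = L ^ 2 * τ := by ring
  rw [e4] at b4
  set T1 := (n : ℂ) * (M * G).trace
  set T2 := ∑ j, (∑ k, M j k * M k k) * (M * G) j j
  set T3 := ∑ i, ∑ j, M i j * ((M * M) j i * G j i)
  set T4 := (M * Matrix.diagonal (fun k => M k k) * M * G).trace
  have c1 := norm_add_le (T1 - T2 + T3 - T2) T4
  have c2 := norm_sub_le (T1 - T2 + T3) T2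
  have c3 := norm_add_le (T1 - T2) T3
  have c4 := norm_sub_le T1 T2
  linarith

theorem llist {M G : Matrix (Fin n) (Fin n) ℂ} (hM : IsSg M) (hG : IsRs G) (L γ h τ d : ℝ)
    (hL : OpLe M L) (hγ : EnLe G γ) (hγ0 : 0 ≤ γ) (hh : 0 ≤ h) (hs : hs2 G ≤ h ^ 2)
    (hτ : NuLe G τ) (hd0 : 0 ≤ d) (hd : ∑ j, ‖(M * G) j j‖ ^ 2 ≤ d ^ 2) :
    ‖(∑ i, ∑ j, ∑ k, ∑ l, if Adj4 i j k l then s8 M i j k l * G j i else 0)
        - ((n : ℂ) ^ 2 * (M * G).trace - (n : ℂ) ^ 2 * ∑ i, M i i * G i i)‖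
      ≤ L ^ 3 * τ + n * L ^ 3 * γ + 3 * (n * L * τ) + 5 * (L * n * h)
        + 2 * (d * (L * Real.sqrt n)) + L ^ 2 * τ + 144 * ((n : ℝ) ^ 2 * γ) := by
  have hF : ∀ i j k l, ‖s8 M i j k l * G j i‖ ≤ 8 * γ := by
    intro i j k l
    rw [norm_mul]
    exact mul_le_mul (s8_norm hM i j k l) (hγ j i) (norm_nonneg _) (by norm_num)
  have h0 := sum4_incl_excl (fun i j k l => s8 M i j k l * G j i) (8 * γ) hF
  have h1 := part_all hM hG L τ hL hτ
  have h2 := part_ii hM L γ hL hγ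
  have h3 := part_jk hM hG L h τ hL hh hs hτ
  have h4 := part_li hM hG L h τ hL hh hs hτ
  have h5 := part_kl hM hG L h τ d hL hh hs hτ hd0 hd
  set S := ∑ i, ∑ j, ∑ k, ∑ l, if Adj4 i j k l then s8 M i j k l * G j i else 0
  set A0 := ∑ i, ∑ j, ∑ k, ∑ l, s8 M i j k l * G j i
  set A1 := ∑ i, ∑ k, ∑ l, s8 M i i k l * G i i
  set A2 := ∑ i, ∑ j, ∑ l, s8 M i j j l * G j i
  set A3 := ∑ i, ∑ j, ∑ k, s8 M i j k k * G j i
  set A4 := ∑ i, ∑ j, ∑ k, s8 M i j k i * G j i
  set B0 := (n : ℂ) ^ 2 * (M * G).trace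
  set B1 := (n : ℂ) ^ 2 * ∑ i, M i i * G i i
  have e : S - (B0 - B1) = (S - (A0 - A1 - A2 - A3 - A4)) + ((A0 - B0) - (A1 - B1) - A2 - A3 - A4) := by
    ring
  rw [e]
  have c0 := norm_add_le (S - (A0 - A1 - A2 - A3 - A4)) ((A0 - B0) - (A1 - B1) - A2 - A3 - A4)
  have c1 := norm_sub_le ((A0 - B0) - (A1 - B1) - A2 - A3) A4
  have c2 := norm_sub_le ((A0 - B0) - (A1 - B1) - A2) A3
  have c3 := norm_sub_le ((A0 - B0) - (A1 - B1)) A2
  have c4 := norm_sub_le (A0 - B0) (A1 - B1)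
  have e2 : 18 * (n : ℝ) ^ 2 * (8 * γ) = 144 * ((n : ℝ) ^ 2 * γ) := by ring
  rw [e2] at h0
  linarith

end Pool.Agent.ZR.G

end

section

/-!
# ZR, part G: the path switching, left side.

`∑_{i,j,k distinct} s8p g_i = ∑_i (n² M_ii - n tr M + ∑_k (M²)_ik M_kk) g_i + O(3 n² · 8 γ)`
(`sum_jk_s8p`, `sum3_dist_err`, `s8p_norm`), and `|∑_i (M² d)_i g_i| ≤ (γ √n)(L² √n)`
(`cs1`, `opLe_mul` applied to the vector `d = (M_kk)_k`).
-/


open MeasureTheory ProbabilityTheory Matrix

namespace Pool.Agent.ZR.G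

variable {n : ℕ}

theorem plist {M : Matrix (Fin n) (Fin n) ℂ} (hM : IsSg M) (g : Fin n → ℂ) (L γ : ℝ)
    (hL : OpLe M L) (hγ0 : 0 ≤ γ) (hg : ∀ i, ‖g i‖ ≤ γ) :
    ‖(∑ i, ∑ j, ∑ k, if i ≠ j ∧ j ≠ k ∧ i ≠ k then s8p M i j k * g i else 0)
        - ((n : ℂ) ^ 2 * (∑ i, M i i * g i) - (n : ℂ) * M.trace * ∑ i, g i)‖
      ≤ L ^ 2 * n * γ + 24 * ((n : ℝ) ^ 2 * γ) := by
  have h1 := sum3_dist_err (fun i j k => s8p M i j k * g i) (8 * γ) (fun i j k => by
    rw [norm_mul]
    exact mul_le_mul (s8p_norm hM i j k) (hg i) (norm_nonneg _) (by norm_num))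
  have h2 : ∑ i, ∑ j, ∑ k, s8p M i j k * g i
      = ((n : ℂ) ^ 2 * (∑ i, M i i * g i) - (n : ℂ) * M.trace * ∑ i, g i)
        + ∑ i, (∑ k, (M * M) i k * M k k) * g i := by
    rw [Finset.mul_sum, Finset.mul_sum, ← Finset.sum_sub_distrib, ← Finset.sum_add_distrib]
    refine Finset.sum_congr rfl fun i _ => ?_
    have h3 : ∑ j, ∑ k, s8p M i j k * g i = (∑ j, ∑ k, s8p M i j k) * g i := by
      rw [Finset.sum_mul]
      refine Finset.sum_congr rfl fun j _ => ?_
      rw [Finset.sum_mul]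
    rw [h3, sum_jk_s8p hM i]
    ring
  have hn0 : (0 : ℝ) ≤ (n : ℝ) := Nat.cast_nonneg n
  have hs : Real.sqrt (n : ℝ) ^ 2 = (n : ℝ) := Real.sq_sqrt hn0
  have hs0 : 0 ≤ Real.sqrt (n : ℝ) := Real.sqrt_nonneg _
  have h3 : ‖∑ i, (∑ k, (M * M) i k * M k k) * g i‖ ≤ L ^ 2 * n * γ := by
    have hMM := (opLe_mul M M L L hL hL).2 (fun k => M k k)
    have hd : ∑ i : Fin n, ‖M i i‖ ^ 2 = (n : ℝ) := by
      have : ∀ i : Fin n, ‖M i i‖ ^ 2 = (1 : ℝ) := fun i => by rw [sg_norm hM]; norm_num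
      simp [this]
    rw [hd] at hMM
    have hgg : ∑ i : Fin n, ‖g i‖ ^ 2 ≤ (γ * Real.sqrt n) ^ 2 := by
      have h5 : ∑ i : Fin n, ‖g i‖ ^ 2 ≤ ∑ _i : Fin n, γ ^ 2 :=
        Finset.sum_le_sum fun i _ => pow_le_pow_left₀ (norm_nonneg _) (hg i) 2
      rw [Finset.sum_const, Finset.card_univ, Fintype.card_fin, nsmul_eq_mul] at h5
      rw [mul_pow, hs]
      linarith
    have h6 := cs1 (fun i => ((M * M) *ᵥ (fun k => M k k)) i) g (L ^ 2 * Real.sqrt n)
      (γ * Real.sqrt n) (by positivity) (mul_nonneg hγ0 hs0)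
      (hMM.trans (le_of_eq (by rw [mul_pow (L ^ 2), hs]; ring))) hgg
    have h7 : ‖∑ i, (∑ k, (M * M) i k * M k k) * g i‖
        ≤ ∑ i, ‖((M * M) *ᵥ (fun k => M k k)) i‖ * ‖g i‖ := by
      refine (norm_sum_le _ _).trans (Finset.sum_le_sum fun i _ => ?_)
      rw [norm_mul]
      exact le_of_eq rfl
    refine h7.trans (h6.trans (le_of_eq ?_))
    calc L ^ 2 * Real.sqrt n * (γ * Real.sqrt n) = L ^ 2 * γ * (Real.sqrt n ^ 2) := by ring
      _ = L ^ 2 * n * γ := by rw [hs]; ring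
  have h4 : (∑ i, ∑ j, ∑ k, if i ≠ j ∧ j ≠ k ∧ i ≠ k then s8p M i j k * g i else 0)
        - ((n : ℂ) ^ 2 * (∑ i, M i i * g i) - (n : ℂ) * M.trace * ∑ i, g i)
      = ((∑ i, ∑ j, ∑ k, if i ≠ j ∧ j ≠ k ∧ i ≠ k then s8p M i j k * g i else 0)
        - ∑ i, ∑ j, ∑ k, s8p M i j k * g i) + ∑ i, (∑ k, (M * M) i k * M k k) * g i := by
    rw [h2]
    ring
  rw [h4]
  refine (norm_add_le _ _).trans ?_
  have h5 : 3 * (n : ℝ) ^ 2 * (8 * γ) = 24 * ((n : ℝ) ^ 2 * γ) := by ring
  rw [h5] at h1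
  linarith

end Pool.Agent.ZR.G

end

section

/-!
# ZR, part G: the edge `ij` and the edge `jk` of the `G`-list.

`r1_le`: `|∑ M_ij (M³)_ji G_ji²| ≤ γ ∑ |(M³)_ji| |G_ji| ≤ γ (L² n) h` (`hs2 (M*M*M) ≤ L⁴ hs2 M = (L² n)²`,
`cs2`) and `|∑ M_ij (M³)_ji G_jj G_ii| ≤ γ² ∑ |(M³)_ji| ≤ γ² n (L² n)` (`cs2` with `1`).

`r2_le`: expand `(1 - M_ij M_jk)(n - (M²)_ki) (G_jj G_ki + G_jk G_ji)`:
* `n (G_jj G_ki + G_jk G_ji)`: sum over `i` resp. `k` is `0`;
* `- n M_ij M_jk (..)`: `- n [∑_j G_jj (M G M)_jj + ∑_j (M G)_jj (M G)_jj]`, at most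
  `n γ L² τ + n d²` (`nu_mul_left`, `nu_mul_right`, `nu_diag`; by symmetry `∑_i M_ij G_ji = (M*G) j j`
  up to the symmetry of `M`, `G`);
* `- (M²)_ki (..)`: `- tr G tr(M² G) - tr(M² G G)`, at most `(n γ)(L² τ) + L² h²`;
* `+ M_ij M_jk (M²)_ki (..)`: `∑_j G_jj (M (M²∘G) M)_jj` at most `γ L² n τ` (`nu_sandwich`), and
  `∑_j ∑_{i,k} (M∘G)_ji (M²)_ik (M∘G)_kj`, at most `L² h²` (`hs2_had`, `hs2_mul_le`, `tr_mul_le`).
`r4_le` is the mirror image of `r2_le` (swap the roles of `i` and `j`).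
-/


open MeasureTheory ProbabilityTheory Matrix

namespace Pool.Agent.ZR.G

variable {n : ℕ}

private lemma a16 {G : Matrix (Fin n) (Fin n) ℂ} (hG : IsRs G) :
    ∑ i, ∑ j, ∑ k, (G j j * G k i) = 0 := by
  refine Finset.sum_eq_zero fun i _ => Finset.sum_eq_zero fun j _ => ?_
  rw [← Finset.mul_sum]
  have h : ∑ k, G k i = 0 := by
    rw [← hG.row i]
    exact Finset.sum_congr rfl fun k _ => hG.sym k i
  rw [h, mul_zero]

private lemma a26 {G : Matrix (Fin n) (Fin n) ℂ} (hG : IsRs G) :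
    ∑ i, ∑ j, ∑ k, (G j k * G j i) = 0 := by
  refine Finset.sum_eq_zero fun i _ => Finset.sum_eq_zero fun j _ => ?_
  rw [← Finset.sum_mul, hG.row j, zero_mul]

private lemma b16 (M Q G : Matrix (Fin n) (Fin n) ℂ) :
    ∑ i, ∑ j, ∑ k, M i j * M j k * (G j j * Q k i) = ∑ j, G j j * (M * Q * M) j j := by
  rw [Finset.sum_comm]
  refine Finset.sum_congr rfl fun j _ => ?_
  rw [Matrix.mul_apply, Finset.mul_sum]
  refine Finset.sum_congr rfl fun i _ => ?_
  rw [Matrix.mul_apply, Finset.sum_mul, Finset.mul_sum]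
  refine Finset.sum_congr rfl fun k _ => ?_
  ring

private lemma b26 {M G : Matrix (Fin n) (Fin n) ℂ} (hM : IsSg M) (hG : IsRs G) :
    ∑ i, ∑ j, ∑ k, M i j * M j k * (G j k * G j i) = ∑ j, (M * G) j j * (M * G) j j := by
  rw [Finset.sum_comm]
  refine Finset.sum_congr rfl fun j _ => ?_
  rw [Matrix.mul_apply, Finset.sum_mul_sum]
  refine Finset.sum_congr rfl fun i _ => Finset.sum_congr rfl fun k _ => ?_
  rw [hM.sym i j, hG.sym j k, hG.sym j i]
  ring

private lemma c16 {M G : Matrix (Fin n) (Fin n) ℂ} (hG : IsRs G) :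
    ∑ i, ∑ j, ∑ k, (M * M) k i * (G j j * G k i) = G.trace * (M * M * G).trace := by
  unfold Matrix.trace
  rw [Finset.sum_comm, Finset.sum_mul]
  refine Finset.sum_congr rfl fun j _ => ?_
  rw [Finset.sum_comm, Finset.mul_sum]
  refine Finset.sum_congr rfl fun k _ => ?_
  rw [Matrix.diag_apply, Matrix.diag_apply, Matrix.mul_apply (M := M * M), Finset.mul_sum]
  refine Finset.sum_congr rfl fun i _ => ?_
  rw [hG.sym k i]
  ring

private lemma c26 {M G : Matrix (Fin n) (Fin n) ℂ} (hG : IsRs G) :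
    ∑ i, ∑ j, ∑ k, (M * M) k i * (G j k * G j i) = (M * M * G * G).trace := by
  unfold Matrix.trace
  have h1 : ∑ i, ∑ j, ∑ k, (M * M) k i * (G j k * G j i) =
      ∑ k, ∑ j, ∑ i, (M * M) k i * (G j k * G j i) := by
    rw [Finset.sum_comm]
    rw [Finset.sum_congr rfl fun j _ => Finset.sum_comm]
    rw [Finset.sum_comm]
  rw [h1]
  refine Finset.sum_congr rfl fun k _ => ?_
  rw [Matrix.diag_apply, Matrix.mul_apply (M := M * M * G)]
  refine Finset.sum_congr rfl fun j _ => ?_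
  rw [Matrix.mul_apply (M := M * M), Finset.sum_mul]
  refine Finset.sum_congr rfl fun i _ => ?_
  rw [hG.sym i j]
  ring

private lemma d26 {M G : Matrix (Fin n) (Fin n) ℂ} (hG : IsRs G) :
    ∑ i, ∑ j, ∑ k, M i j * M j k * (M * M) k i * (G j k * G j i) =
      (Matrix.of (fun a b => M a b * G a b) * (M * M) *
        Matrix.of (fun a b => M a b * G a b)).trace := by
  unfold Matrix.trace
  rw [Finset.sum_comm]
  refine Finset.sum_congr rfl fun j _ => ?_
  rw [Matrix.diag_apply, Matrix.mul_apply]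
  refine Finset.sum_congr rfl fun i _ => ?_
  rw [Matrix.mul_apply, Finset.sum_mul]
  refine Finset.sum_congr rfl fun k _ => ?_
  rw [Matrix.of_apply, Matrix.of_apply, hG.sym j i]
  ring

private lemma opT {M : Matrix (Fin n) (Fin n) ℂ} (hM : IsSg M) {L : ℝ} (hL : OpLe M L) :
    OpLe Mᵀ L := by
  rw [sg_transpose hM]
  exact hL

private lemma opMM {M : Matrix (Fin n) (Fin n) ℂ} {L : ℝ} (hL : OpLe M L) :
    OpLe (M * M) (L ^ 2) := by
  rw [sq]
  exact opLe_mul M M L L hL hL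

private lemma sum_diag6 {A B : Matrix (Fin n) (Fin n) ℂ} {γ τ : ℝ} (hA : EnLe A γ)
    (hγ0 : 0 ≤ γ) (hB : NuLe B τ) : ‖∑ j, A j j * B j j‖ ≤ γ * τ := by
  refine (norm_sum_le _ _).trans ?_
  calc ∑ j, ‖A j j * B j j‖ ≤ ∑ j, γ * ‖B j j‖ := by
        refine Finset.sum_le_sum fun j _ => ?_
        rw [norm_mul]
        exact mul_le_mul_of_nonneg_right (hA j j) (norm_nonneg _)
    _ = γ * ∑ j, ‖B j j‖ := by rw [Finset.mul_sum]
    _ ≤ γ * τ := mul_le_mul_of_nonneg_left (nu_diag B τ hB) hγ0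

theorem r1_le {M G : Matrix (Fin n) (Fin n) ℂ} (hM : IsSg M) (hG : IsRs G) (L γ h : ℝ)
    (hL : OpLe M L) (hγ : EnLe G γ) (hγ0 : 0 ≤ γ) (hh : 0 ≤ h) (hs : hs2 G ≤ h ^ 2) :
    ‖∑ i, ∑ j, M i j * (M * M * M) j i * gq G j i i j‖
      ≤ γ * (L ^ 2 * n) * h + γ ^ 2 * n * (L ^ 2 * n) := by
  have h3 : hs2 (M * M * M) ≤ (L ^ 2 * n) ^ 2 := by
    refine (hs2_mul_le (M * M) M (L ^ 2) (opMM hL)).trans (le_of_eq ?_)
    rw [hs2_sg hM]
    ring
  have hLn : 0 ≤ L ^ 2 * (n : ℝ) := by positivity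
  have h4 : ∑ j, ∑ i, ‖(M * M * M) j i‖ * ‖G j i‖ ≤ (L ^ 2 * n) * h :=
    cs2 (fun j i => (M * M * M) j i) (fun j i => G j i) _ _ hLn hh h3 hs
  have h5 : ∑ j, ∑ i, ‖(M * M * M) j i‖ * ‖(1 : ℂ)‖ ≤ (L ^ 2 * n) * n :=
    cs2 (fun j i => (M * M * M) j i) (fun _ _ => (1 : ℂ)) _ _ hLn (Nat.cast_nonneg n) h3 (by
      simp [sq])
  have h6 : ∀ i j, ‖M i j * (M * M * M) j i * gq G j i i j‖ ≤
      γ * (‖(M * M * M) j i‖ * ‖G j i‖) + γ ^ 2 * (‖(M * M * M) j i‖ * ‖(1 : ℂ)‖) := by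
    intro i j
    have e1 : ‖gq G j i i j‖ ≤ γ * ‖G j i‖ + γ ^ 2 := by
      unfold gq
      refine (norm_add_le _ _).trans ?_
      rw [norm_mul, norm_mul]
      refine add_le_add (mul_le_mul_of_nonneg_right (hγ j i) (norm_nonneg _)) ?_
      rw [sq]
      exact mul_le_mul (hγ j j) (hγ i i) (norm_nonneg _) hγ0
    rw [norm_mul, norm_mul, sg_norm hM, one_mul, norm_one, mul_one]
    calc ‖(M * M * M) j i‖ * ‖gq G j i i j‖
        ≤ ‖(M * M * M) j i‖ * (γ * ‖G j i‖ + γ ^ 2) :=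
          mul_le_mul_of_nonneg_left e1 (norm_nonneg _)
      _ = _ := by ring
  calc ‖∑ i, ∑ j, M i j * (M * M * M) j i * gq G j i i j‖
      ≤ ∑ i, ∑ j, (γ * (‖(M * M * M) j i‖ * ‖G j i‖) +
          γ ^ 2 * (‖(M * M * M) j i‖ * ‖(1 : ℂ)‖)) := by
        refine (norm_sum_le _ _).trans (Finset.sum_le_sum fun i _ => ?_)
        exact (norm_sum_le _ _).trans (Finset.sum_le_sum fun j _ => h6 i j)
    _ = γ * (∑ j, ∑ i, ‖(M * M * M) j i‖ * ‖G j i‖) +
          γ ^ 2 * (∑ j, ∑ i, ‖(M * M * M) j i‖ * ‖(1 : ℂ)‖) := by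
        rw [Finset.sum_comm, Finset.mul_sum, Finset.mul_sum, ← Finset.sum_add_distrib]
        refine Finset.sum_congr rfl fun j _ => ?_
        rw [Finset.sum_add_distrib, Finset.mul_sum, Finset.mul_sum]
    _ ≤ γ * ((L ^ 2 * n) * h) + γ ^ 2 * ((L ^ 2 * n) * n) :=
        add_le_add (mul_le_mul_of_nonneg_left h4 hγ0) (mul_le_mul_of_nonneg_left h5 (sq_nonneg _))
    _ = _ := by ring

theorem r2_le {M G : Matrix (Fin n) (Fin n) ℂ} (hM : IsSg M) (hG : IsRs G) (L γ h τ d : ℝ)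
    (hL : OpLe M L) (hγ : EnLe G γ) (hγ0 : 0 ≤ γ) (hh : 0 ≤ h) (hs : hs2 G ≤ h ^ 2)
    (hτ : NuLe G τ) (hd : ∑ j, ‖(M * G) j j‖ ^ 2 ≤ d ^ 2) :
    ‖∑ i, ∑ j, ∑ k, (1 - M i j * M j k) * ((n : ℂ) - (M * M) k i) * gq G j i j k‖
      ≤ 3 * (n * γ * (L ^ 2 * τ)) + n * d ^ 2 + 2 * (L ^ 2 * h ^ 2) := by
  have hn0 : (0 : ℝ) ≤ n := Nat.cast_nonneg n
  set Q : Matrix (Fin n) (Fin n) ℂ := Matrix.of fun i j => (M * M) i j * G i j with hQ
  set P : Matrix (Fin n) (Fin n) ℂ := Matrix.of fun i j => M i j * G i j with hP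
  have hMMT : OpLe (M * M)ᵀ (L ^ 2) := by
    rw [Matrix.transpose_mul, sg_transpose hM]
    exact opMM hL
  -- the decomposition
  have e : ∑ i, ∑ j, ∑ k, (1 - M i j * M j k) * ((n : ℂ) - (M * M) k i) * gq G j i j k =
      -((n : ℂ) * (∑ j, G j j * (M * G * M) j j)) - (n : ℂ) * (∑ j, (M * G) j j * (M * G) j j)
      - G.trace * (M * M * G).trace - (M * M * G * G).trace
      + (∑ j, G j j * (M * Q * M) j j) + (P * (M * M) * P).trace := by
    rw [← b16 M G G, ← b26 hM hG, ← c16 hG, ← c26 hG, ← b16 M Q G, hP, ← d26 hG]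
    have z1 := a16 hG
    have z2 := a26 hG
    have h0 : ∑ i, ∑ j, ∑ k, (1 - M i j * M j k) * ((n : ℂ) - (M * M) k i) * gq G j i j k =
        (n : ℂ) * (∑ i, ∑ j, ∑ k, (G j j * G k i)) + (n : ℂ) * (∑ i, ∑ j, ∑ k, (G j k * G j i))
        - (n : ℂ) * (∑ i, ∑ j, ∑ k, M i j * M j k * (G j j * G k i))
        - (n : ℂ) * (∑ i, ∑ j, ∑ k, M i j * M j k * (G j k * G j i))
        - (∑ i, ∑ j, ∑ k, (M * M) k i * (G j j * G k i))
        - (∑ i, ∑ j, ∑ k, (M * M) k i * (G j k * G j i))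
        + (∑ i, ∑ j, ∑ k, M i j * M j k * (G j j * Q k i))
        + (∑ i, ∑ j, ∑ k, M i j * M j k * (M * M) k i * (G j k * G j i)) := by
      simp only [Finset.mul_sum, ← Finset.sum_add_distrib, ← Finset.sum_sub_distrib]
      refine Finset.sum_congr rfl fun i _ => Finset.sum_congr rfl fun j _ =>
        Finset.sum_congr rfl fun k _ => ?_
      unfold gq
      rw [hQ, Matrix.of_apply]
      ring
    rw [h0, z1, z2]
    ring
  -- the bounds
  have hMG : NuLe (M * G * M) (L * (L * τ)) :=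
    nu_mul_right M (M * G) L (L * τ) (opT hM hL) (nu_mul_left M G L τ hL hτ)
  have t1 : ‖∑ j, G j j * (M * G * M) j j‖ ≤ γ * (L * (L * τ)) := sum_diag6 hγ hγ0 hMG
  have t2 : ‖∑ j, (M * G) j j * (M * G) j j‖ ≤ d ^ 2 := by
    refine (norm_sum_le _ _).trans (le_trans (le_of_eq ?_) hd)
    refine Finset.sum_congr rfl fun j _ => ?_
    rw [norm_mul, sq]
  have t3 : ‖G.trace * (M * M * G).trace‖ ≤ (n * γ) * (L ^ 2 * τ) := by
    rw [norm_mul]
    refine mul_le_mul ?_ (nu_trace (M * M) G (L ^ 2) τ (opMM hL) hτ) (norm_nonneg _)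
      (by positivity)
    unfold Matrix.trace
    refine (norm_sum_le _ _).trans ?_
    calc ∑ j, ‖G.diag j‖ ≤ ∑ _j : Fin n, γ := Finset.sum_le_sum fun j _ => hγ j j
      _ = n * γ := by simp
  have t4 : ‖(M * M * G * G).trace‖ ≤ (L ^ 2 * h) * h := by
    refine tr_mul_le (M * M * G) G (L ^ 2 * h) h (by positivity) hh ?_ hs
    refine (hs2_mul_le (M * M) G (L ^ 2) (opMM hL)).trans ?_
    rw [mul_pow (L ^ 2) h 2]
    exact mul_le_mul_of_nonneg_left hs (by positivity)
  have hQn : NuLe Q (n * τ) := nu_sandwich hM G τ hτ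
  have hMQ : NuLe (M * Q * M) (L * (L * (n * τ))) :=
    nu_mul_right M (M * Q) L (L * (n * τ)) (opT hM hL) (nu_mul_left M Q L (n * τ) hL hQn)
  have t5 : ‖∑ j, G j j * (M * Q * M) j j‖ ≤ γ * (L * (L * (n * τ))) := sum_diag6 hγ hγ0 hMQ
  have hPs : hs2 P ≤ h ^ 2 := by
    rw [hP, hs2_had hM G]
    exact hs
  have t6 : ‖(P * (M * M) * P).trace‖ ≤ (L ^ 2 * h) * h := by
    refine tr_mul_le (P * (M * M)) P (L ^ 2 * h) h (by positivity) hh ?_ hPs
    refine (hs2_mul_le' (M * M) P (L ^ 2) hMMT).trans ?_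
    rw [mul_pow (L ^ 2) h 2]
    exact mul_le_mul_of_nonneg_left hPs (by positivity)
  have hnn : ‖(n : ℂ)‖ = n := by simp
  rw [e]
  refine (norm_add_le _ _).trans ?_
  refine (add_le_add (norm_add_le _ _) le_rfl).trans ?_
  refine (add_le_add (add_le_add (norm_sub_le _ _) le_rfl) le_rfl).trans ?_
  refine (add_le_add (add_le_add (add_le_add (norm_sub_le _ _) le_rfl) le_rfl) le_rfl).trans ?_
  refine (add_le_add (add_le_add (add_le_add (add_le_add (norm_sub_le _ _) le_rfl) le_rfl)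
    le_rfl) le_rfl).trans ?_
  rw [norm_neg, norm_mul (n : ℂ), norm_mul (n : ℂ), hnn]
  have t1' := mul_le_mul_of_nonneg_left t1 hn0
  have t2' := mul_le_mul_of_nonneg_left t2 hn0
  refine (add_le_add (add_le_add (add_le_add (add_le_add (add_le_add t1' t2') t3) t4) t5)
    t6).trans (le_of_eq ?_)
  ring

theorem r4_le {M G : Matrix (Fin n) (Fin n) ℂ} (hM : IsSg M) (hG : IsRs G) (L γ h τ d : ℝ)
    (hL : OpLe M L) (hγ : EnLe G γ) (hγ0 : 0 ≤ γ) (hh : 0 ≤ h) (hs : hs2 G ≤ h ^ 2)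
    (hτ : NuLe G τ) (hd : ∑ j, ‖(M * G) j j‖ ^ 2 ≤ d ^ 2) :
    ‖∑ i, ∑ j, ∑ l, (1 - M i j * M l i) * ((n : ℂ) - (M * M) j l) * gq G j i l i‖
      ≤ 3 * (n * γ * (L ^ 2 * τ)) + n * d ^ 2 + 2 * (L ^ 2 * h ^ 2) := by
  have hsym : ∀ a b, (M * M) a b = (M * M) b a := fun a b => by
    rw [Matrix.mul_apply, Matrix.mul_apply]
    refine Finset.sum_congr rfl fun c _ => ?_
    rw [hM.sym a c, hM.sym c b]
    ring
  refine le_trans (le_of_eq ?_) (r2_le hM hG L γ h τ d hL hγ hγ0 hh hs hτ hd)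
  congr 1
  rw [Finset.sum_comm]
  refine Finset.sum_congr rfl fun j _ => Finset.sum_congr rfl fun i _ =>
    Finset.sum_congr rfl fun l _ => ?_
  unfold gq
  rw [hM.sym j i, hM.sym l i, hsym l j, hG.sym j l, hG.sym l i, hG.sym j i]
  ring

end Pool.Agent.ZR.G

end

section

/-!
# ZR, part G: the edge `kl` of the `G`-list.

`∑ alt8 (G_jk G_li + G_jl G_ki)`, monomial by monomial (a = M_ij, b = M_jk, c = M_kl, d = M_li):
* `1`, `ab`, `ad`, `bc`, `cd`: zero (a free index occurs only in one factor `G`: `∑_k G_jk = 0`,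
  `∑_l G_li = 0`, ...);
* `ac`: `∑ M_ij M_kl G_jk G_li = tr(M G M G)` and `∑ M_ij M_kl G_jl G_ki = tr(M G M G)`;
* `bd`: `∑ M_jk M_li G_jk G_li = (tr (M G))²` and `∑ M_jk M_li G_jl G_ki = tr(M G M G)`;
* `abcd`: `∑ M_ij (M∘G)_jk M_kl (M∘G)_li = tr(M (M∘G) M (M∘G))` and `nu_four` (with `A = C = G`).
`|tr(M G M G)| ≤ L² h²` (`hs2_mul_le` for `M * G`, `tr_mul_le`), `|tr(M G)| ≤ L τ` (`nu_trace`).
-/


open MeasureTheory ProbabilityTheory Matrix

namespace Pool.Agent.ZR.G

variable {n : ℕ}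

theorem grb_tr4 (A B C D : Matrix (Fin n) (Fin n) ℂ) :
    (A * B * C * D).trace = ∑ i, ∑ j, ∑ k, ∑ l, A i j * B j k * C k l * D l i := by
  rw [Matrix.mul_assoc, Matrix.mul_assoc, Matrix.trace]
  refine Finset.sum_congr rfl fun i _ => ?_
  rw [Matrix.diag_apply, Matrix.mul_apply]
  refine Finset.sum_congr rfl fun j _ => ?_
  rw [Matrix.mul_apply, Finset.mul_sum]
  refine Finset.sum_congr rfl fun k _ => ?_
  rw [Matrix.mul_apply, Finset.mul_sum, Finset.mul_sum]
  refine Finset.sum_congr rfl fun l _ => ?_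
  ring

private theorem sl0 {F : Fin n → Fin n → Fin n → Fin n → ℂ} (h : ∀ i j k, ∑ l, F i j k l = 0) :
    ∑ i, ∑ j, ∑ k, ∑ l, F i j k l = 0 :=
  Finset.sum_eq_zero fun i _ => Finset.sum_eq_zero fun j _ => Finset.sum_eq_zero fun k _ => h i j k

private theorem sk0 {F : Fin n → Fin n → Fin n → Fin n → ℂ} (h : ∀ i j l, ∑ k, F i j k l = 0) :
    ∑ i, ∑ j, ∑ k, ∑ l, F i j k l = 0 := by
  refine Finset.sum_eq_zero fun i _ => Finset.sum_eq_zero fun j _ => ?_
  rw [Finset.sum_comm]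
  exact Finset.sum_eq_zero fun l _ => h i j l

private theorem sj0 {F : Fin n → Fin n → Fin n → Fin n → ℂ} (h : ∀ i k l, ∑ j, F i j k l = 0) :
    ∑ i, ∑ j, ∑ k, ∑ l, F i j k l = 0 := by
  refine Finset.sum_eq_zero fun i _ => ?_
  rw [Finset.sum_comm]
  refine Finset.sum_eq_zero fun k _ => ?_
  rw [Finset.sum_comm]
  exact Finset.sum_eq_zero fun l _ => h i k l

private theorem si0 {F : Fin n → Fin n → Fin n → Fin n → ℂ} (h : ∀ j k l, ∑ i, F i j k l = 0) :
    ∑ i, ∑ j, ∑ k, ∑ l, F i j k l = 0 := by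
  rw [Finset.sum_comm]
  refine Finset.sum_eq_zero fun j _ => ?_
  rw [Finset.sum_comm]
  refine Finset.sum_eq_zero fun k _ => ?_
  rw [Finset.sum_comm]
  exact Finset.sum_eq_zero fun l _ => h j k l

private theorem lin0 (c : ℂ) (g F : Fin n → ℂ) (hg : ∑ l, g l = 0) (hF : ∀ l, F l = c * g l) :
    ∑ l, F l = 0 := by
  rw [Finset.sum_congr rfl fun l _ => hF l, ← Finset.mul_sum, hg, mul_zero]

theorem r3_eq {M G : Matrix (Fin n) (Fin n) ℂ} (hM : IsSg M) (hG : IsRs G) :
    ∑ i, ∑ j, ∑ k, ∑ l, alt8 M i j k l * gq G j i k l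
      = 3 * (M * G * M * G).trace + (M * G).trace ^ 2
        + (∑ i, ∑ j, ∑ k, ∑ l, M i j * (M j k * G j k) * M k l * (M l i * G l i))
        + ∑ i, ∑ j, ∑ k, ∑ l, M i j * M j k * M k l * M l i * (G j l * G k i) := by
  have hr := hG.row
  have hc : ∀ i, ∑ l, G l i = 0 := fun i => by
    rw [← hr i]; exact Finset.sum_congr rfl fun l _ => hG.sym l i
  have z1 : ∑ i, ∑ j, ∑ k, ∑ l, G j k * G l i = 0 :=
    sk0 fun i j l => lin0 (G l i) (fun k => G j k) _ (hr j) fun k => by ring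
  have z2 : ∑ i, ∑ j, ∑ k, ∑ l, G j l * G k i = 0 :=
    sl0 fun i j k => lin0 (G k i) (fun l => G j l) _ (hr j) fun l => by ring
  have z3 : ∑ i, ∑ j, ∑ k, ∑ l, M i j * M j k * (G j k * G l i) = 0 :=
    sl0 fun i j k => lin0 (M i j * M j k * G j k) (fun l => G l i) _ (hc i) fun l => by ring
  have z4 : ∑ i, ∑ j, ∑ k, ∑ l, M i j * M j k * (G j l * G k i) = 0 :=
    sl0 fun i j k => lin0 (M i j * M j k * G k i) (fun l => G j l) _ (hr j) fun l => by ring
  have z5 : ∑ i, ∑ j, ∑ k, ∑ l, M i j * M l i * (G j k * G l i) = 0 :=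
    sk0 fun i j l => lin0 (M i j * M l i * G l i) (fun k => G j k) _ (hr j) fun k => by ring
  have z6 : ∑ i, ∑ j, ∑ k, ∑ l, M i j * M l i * (G j l * G k i) = 0 :=
    sk0 fun i j l => lin0 (M i j * M l i * G j l) (fun k => G k i) _ (hc i) fun k => by ring
  have z7 : ∑ i, ∑ j, ∑ k, ∑ l, M j k * M k l * (G j k * G l i) = 0 :=
    si0 fun j k l => lin0 (M j k * M k l * G j k) (fun i => G l i) _ (hr l) fun i => by ring
  have z8 : ∑ i, ∑ j, ∑ k, ∑ l, M j k * M k l * (G j l * G k i) = 0 :=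
    si0 fun j k l => lin0 (M j k * M k l * G j l) (fun i => G k i) _ (hr k) fun i => by ring
  have z9 : ∑ i, ∑ j, ∑ k, ∑ l, M k l * M l i * (G j k * G l i) = 0 :=
    sj0 fun i k l => lin0 (M k l * M l i * G l i) (fun j => G j k) _ (hc k) fun j => by ring
  have z10 : ∑ i, ∑ j, ∑ k, ∑ l, M k l * M l i * (G j l * G k i) = 0 :=
    sj0 fun i k l => lin0 (M k l * M l i * G k i) (fun j => G j l) _ (hc l) fun j => by ring
  have t0 := grb_tr4 M G M G
  have t1 : ∑ i, ∑ j, ∑ k, ∑ l, M i j * M k l * (G j k * G l i) = (M * G * M * G).trace := by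
    rw [t0]
    refine Finset.sum_congr rfl fun i _ => Finset.sum_congr rfl fun j _ =>
      Finset.sum_congr rfl fun k _ => Finset.sum_congr rfl fun l _ => ?_
    ring
  have t2 : ∑ i, ∑ j, ∑ k, ∑ l, M i j * M k l * (G j l * G k i) = (M * G * M * G).trace := by
    rw [t0]
    refine Finset.sum_congr rfl fun i _ => Finset.sum_congr rfl fun j _ => ?_
    rw [Finset.sum_comm]
    refine Finset.sum_congr rfl fun l _ => Finset.sum_congr rfl fun k _ => ?_
    rw [hM.sym k l]
    ring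
  have t3 : ∑ i, ∑ j, ∑ k, ∑ l, M j k * M l i * (G j l * G k i) = (M * G * M * G).trace := by
    rw [t0, Finset.sum_comm]
    refine Finset.sum_congr rfl fun j _ => ?_
    rw [Finset.sum_comm]
    refine Finset.sum_congr rfl fun k _ => Finset.sum_congr rfl fun i _ =>
      Finset.sum_congr rfl fun l _ => ?_
    rw [hM.sym l i, hG.sym j l]
    ring
  have t4 : ∑ i, ∑ j, ∑ k, ∑ l, M j k * M l i * (G j k * G l i) = (M * G).trace ^ 2 := by
    have e1 : (M * G).trace = ∑ j, ∑ k, M j k * G j k := by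
      rw [Matrix.trace]
      refine Finset.sum_congr rfl fun j _ => ?_
      rw [Matrix.diag_apply, Matrix.mul_apply]
      exact Finset.sum_congr rfl fun k _ => by rw [hG.sym k j]
    have e2 : (M * G).trace = ∑ i, ∑ l, M l i * G l i := by
      rw [e1]
      exact Finset.sum_congr rfl fun j _ => Finset.sum_congr rfl fun k _ => by
        rw [hM.sym j k, hG.sym j k]
    calc ∑ i, ∑ j, ∑ k, ∑ l, M j k * M l i * (G j k * G l i)
        = ∑ i, (∑ j, ∑ k, M j k * G j k) * ∑ l, M l i * G l i := by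
          refine Finset.sum_congr rfl fun i _ => ?_
          rw [Finset.sum_mul]
          refine Finset.sum_congr rfl fun j _ => ?_
          rw [Finset.sum_mul]
          refine Finset.sum_congr rfl fun k _ => ?_
          rw [Finset.mul_sum]
          exact Finset.sum_congr rfl fun l _ => by ring
      _ = (∑ j, ∑ k, M j k * G j k) * ∑ i, ∑ l, M l i * G l i := by rw [Finset.mul_sum]
      _ = (M * G).trace ^ 2 := by rw [← e1, ← e2, sq]
  have t5 : ∑ i, ∑ j, ∑ k, ∑ l, M i j * M j k * M k l * M l i * (G j k * G l i)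
      = ∑ i, ∑ j, ∑ k, ∑ l, M i j * (M j k * G j k) * M k l * (M l i * G l i) := by
    refine Finset.sum_congr rfl fun i _ => Finset.sum_congr rfl fun j _ =>
      Finset.sum_congr rfl fun k _ => Finset.sum_congr rfl fun l _ => ?_
    ring
  have key : ∀ i j k l, alt8 M i j k l * gq G j i k l
      = G j k * G l i + G j l * G k i
        - M i j * M j k * (G j k * G l i) - M i j * M j k * (G j l * G k i)
        + M i j * M k l * (G j k * G l i) + M i j * M k l * (G j l * G k i)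
        - M i j * M l i * (G j k * G l i) - M i j * M l i * (G j l * G k i)
        - M j k * M k l * (G j k * G l i) - M j k * M k l * (G j l * G k i)
        + M j k * M l i * (G j k * G l i) + M j k * M l i * (G j l * G k i)
        - M k l * M l i * (G j k * G l i) - M k l * M l i * (G j l * G k i)
        + M i j * M j k * M k l * M l i * (G j k * G l i)
        + M i j * M j k * M k l * M l i * (G j l * G k i) := by
    intro i j k l
    unfold alt8 gq
    ring
  have e0 : ∑ i, ∑ j, ∑ k, ∑ l, alt8 M i j k l * gq G j i k l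
      = (∑ i, ∑ j, ∑ k, ∑ l, G j k * G l i) + (∑ i, ∑ j, ∑ k, ∑ l, G j l * G k i)
        - (∑ i, ∑ j, ∑ k, ∑ l, M i j * M j k * (G j k * G l i))
        - (∑ i, ∑ j, ∑ k, ∑ l, M i j * M j k * (G j l * G k i))
        + (∑ i, ∑ j, ∑ k, ∑ l, M i j * M k l * (G j k * G l i))
        + (∑ i, ∑ j, ∑ k, ∑ l, M i j * M k l * (G j l * G k i))
        - (∑ i, ∑ j, ∑ k, ∑ l, M i j * M l i * (G j k * G l i))
        - (∑ i, ∑ j, ∑ k, ∑ l, M i j * M l i * (G j l * G k i))
        - (∑ i, ∑ j, ∑ k, ∑ l, M j k * M k l * (G j k * G l i))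
        - (∑ i, ∑ j, ∑ k, ∑ l, M j k * M k l * (G j l * G k i))
        + (∑ i, ∑ j, ∑ k, ∑ l, M j k * M l i * (G j k * G l i))
        + (∑ i, ∑ j, ∑ k, ∑ l, M j k * M l i * (G j l * G k i))
        - (∑ i, ∑ j, ∑ k, ∑ l, M k l * M l i * (G j k * G l i))
        - (∑ i, ∑ j, ∑ k, ∑ l, M k l * M l i * (G j l * G k i))
        + (∑ i, ∑ j, ∑ k, ∑ l, M i j * M j k * M k l * M l i * (G j k * G l i))
        + (∑ i, ∑ j, ∑ k, ∑ l, M i j * M j k * M k l * M l i * (G j l * G k i)) := by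
    simp only [← Finset.sum_add_distrib, ← Finset.sum_sub_distrib]
    exact Finset.sum_congr rfl fun i _ => Finset.sum_congr rfl fun j _ =>
      Finset.sum_congr rfl fun k _ => Finset.sum_congr rfl fun l _ => key i j k l
  rw [e0, z1, z2, z3, z4, z5, z6, z7, z8, z9, z10, t1, t2, t3, t4, t5]
  ring

theorem r3_le {M G : Matrix (Fin n) (Fin n) ℂ} (hM : IsSg M) (hG : IsRs G) (L γ h τ : ℝ)
    (hL : OpLe M L) (hγ : EnLe G γ) (hγ0 : 0 ≤ γ) (hh : 0 ≤ h) (hs : hs2 G ≤ h ^ 2)
    (hτ : NuLe G τ) :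
    ‖∑ i, ∑ j, ∑ k, ∑ l, alt8 M i j k l * gq G j i k l‖
      ≤ 4 * (L ^ 2 * h ^ 2) + L ^ 2 * τ ^ 2 + n * γ * (L ^ 2 * τ) := by
  rw [r3_eq hM hG]
  have hL0 := hL.1
  have a1 : ‖(M * G * M * G).trace‖ ≤ L ^ 2 * h ^ 2 := by
    have e : M * G * M * G = (M * G) * (M * G) := by simp only [Matrix.mul_assoc]
    have hb : hs2 (M * G) ≤ (L * h) ^ 2 := by
      refine (hs2_mul_le M G L hL).trans ?_
      rw [mul_pow]
      exact mul_le_mul_of_nonneg_left hs (sq_nonneg _)
    rw [e]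
    refine (tr_mul_le _ _ (L * h) (L * h) (mul_nonneg hL0 hh) (mul_nonneg hL0 hh) hb hb).trans ?_
    exact le_of_eq (by ring)
  have a2 : ‖(M * G).trace ^ 2‖ ≤ L ^ 2 * τ ^ 2 := by
    rw [norm_pow, ← mul_pow]
    exact pow_le_pow_left₀ (norm_nonneg _) (nu_trace M G L τ hL hτ) 2
  have a3 : ‖∑ i, ∑ j, ∑ k, ∑ l, M i j * (M j k * G j k) * M k l * (M l i * G l i)‖
      ≤ L ^ 2 * h ^ 2 := by
    set K : Matrix (Fin n) (Fin n) ℂ := Matrix.of fun i j => M i j * G i j with hK
    have e : ∑ i, ∑ j, ∑ k, ∑ l, M i j * (M j k * G j k) * M k l * (M l i * G l i)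
        = ((M * K) * (M * K)).trace := by
      have e' : (M * K) * (M * K) = M * K * M * K := by simp only [Matrix.mul_assoc]
      rw [e', grb_tr4]
      rfl
    have hb : hs2 (M * K) ≤ (L * h) ^ 2 := by
      refine (hs2_mul_le M K L hL).trans ?_
      rw [hK, hs2_had hM G, mul_pow]
      exact mul_le_mul_of_nonneg_left hs (sq_nonneg _)
    rw [e]
    refine (tr_mul_le _ _ (L * h) (L * h) (mul_nonneg hL0 hh) (mul_nonneg hL0 hh) hb hb).trans ?_
    exact le_of_eq (by ring)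
  have a4 := nu_four hM L hL G G γ τ hγ hτ
  have b1 := norm_add_le (3 * (M * G * M * G).trace + (M * G).trace ^ 2
        + (∑ i, ∑ j, ∑ k, ∑ l, M i j * (M j k * G j k) * M k l * (M l i * G l i)))
        (∑ i, ∑ j, ∑ k, ∑ l, M i j * M j k * M k l * M l i * (G j l * G k i))
  have b2 := norm_add_le (3 * (M * G * M * G).trace + (M * G).trace ^ 2)
        (∑ i, ∑ j, ∑ k, ∑ l, M i j * (M j k * G j k) * M k l * (M l i * G l i))
  have b3 := norm_add_le (3 * (M * G * M * G).trace) ((M * G).trace ^ 2)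
  have b4 : ‖3 * (M * G * M * G).trace‖ = 3 * ‖(M * G * M * G).trace‖ := by
    rw [norm_mul]; norm_num
  have b5 : τ * γ * (L ^ 2 * n) = n * γ * (L ^ 2 * τ) := by ring
  rw [b5] at a4
  linarith

end Pool.Agent.ZR.G

end

section

/-!
# ZR, part G: the `V`-list (`V = G_l²`), edges `ij`, `jk`, `li`.

`v1_le`: `|∑ M_ij (M³)_ji G_ji V_ij| ≤ γ ∑ |(M³)_ji| |V_ij| ≤ γ (L² n) hv`.

`v2_le`: `(1 - M_ij M_jk)(n - (M²)_ki) G_ji V_jk`:
* `n G_ji V_jk`: sum over `k` is 0;
* `- n M_ij M_jk G_ji V_jk`: `- n ∑_j (M G)_jj (M V)_jj` (symmetry), at most `n d dv` (`cs1`);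
* `- (M²)_ki G_ji V_jk`: `- tr(M² G V)` up to symmetry, at most `L² h hv`;
* `+ M_ij M_jk (M²)_ki G_ji V_jk = ∑_j ∑_{i,k} (M∘G)_ji (M²)_ik (M∘V)_kj`, at most `L² h hv`.
`v4_le` is the mirror image.
-/


open MeasureTheory ProbabilityTheory Matrix

namespace Pool.Agent.ZR.G

variable {n : ℕ}

theorem v1_le {M G V : Matrix (Fin n) (Fin n) ℂ} (hM : IsSg M) (L γ hv : ℝ)
    (hL : OpLe M L) (hγ : EnLe G γ) (hγ0 : 0 ≤ γ) (hhv : 0 ≤ hv) (hsv : hs2 V ≤ hv ^ 2) :
    ‖∑ i, ∑ j, M i j * (M * M * M) j i * (G j i * V i j)‖ ≤ γ * (L ^ 2 * n) * hv := by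
  have hL0 : 0 ≤ L := hL.1
  have h3 : hs2 (M * M * M)ᵀ ≤ (L ^ 2 * n) ^ 2 := by
    rw [hs2_transpose]
    refine (hs2_mul_le (M * M) M (L * L) (opLe_mul M M L L hL hL)).trans ?_
    rw [hs2_sg hM]
    apply le_of_eq
    ring
  have hb : ∑ i, ∑ j, ‖(M * M * M) j i‖ * ‖V i j‖ ≤ (L ^ 2 * n) * hv :=
    cs2 (fun i j => (M * M * M) j i) (fun i j => V i j) _ _ (by positivity) hhv h3 hsv
  calc ‖∑ i, ∑ j, M i j * (M * M * M) j i * (G j i * V i j)‖
      ≤ ∑ i, ∑ j, γ * (‖(M * M * M) j i‖ * ‖V i j‖) := by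
        refine (norm_sum_le _ _).trans (Finset.sum_le_sum fun i _ => ?_)
        refine (norm_sum_le _ _).trans (Finset.sum_le_sum fun j _ => ?_)
        rw [norm_mul, norm_mul, norm_mul, sg_norm hM, one_mul]
        have h1 : ‖G j i‖ ≤ γ := hγ j i
        have h2 : 0 ≤ ‖(M * M * M) j i‖ * ‖V i j‖ := by positivity
        calc ‖(M * M * M) j i‖ * (‖G j i‖ * ‖V i j‖)
            = ‖G j i‖ * (‖(M * M * M) j i‖ * ‖V i j‖) := by ring
          _ ≤ γ * (‖(M * M * M) j i‖ * ‖V i j‖) := mul_le_mul_of_nonneg_right h1 h2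
    _ = γ * ∑ i, ∑ j, ‖(M * M * M) j i‖ * ‖V i j‖ := by
        simp only [Finset.mul_sum]
    _ ≤ γ * ((L ^ 2 * n) * hv) := mul_le_mul_of_nonneg_left hb hγ0
    _ = γ * (L ^ 2 * n) * hv := by ring

/-- the trace of `(A B) (C D)` as a sum over three indices -/
theorem va_tr (A D : Matrix (Fin n) (Fin n) ℂ) {M : Matrix (Fin n) (Fin n) ℂ} (hM : IsSg M) :
    ∑ i, ∑ j, ∑ k, (M * M) k i * (A j i * D k j) = ((A * M) * (M * D)).trace := by
  calc ∑ i, ∑ j, ∑ k, (M * M) k i * (A j i * D k j)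
      = ∑ i, ∑ j, ∑ k, ∑ l, (A j i * M i l) * (M l k * D k j) := by
        refine Finset.sum_congr rfl fun i _ => Finset.sum_congr rfl fun j _ =>
          Finset.sum_congr rfl fun k _ => ?_
        rw [Matrix.mul_apply, Finset.sum_mul]
        refine Finset.sum_congr rfl fun l _ => ?_
        rw [hM.sym k l, hM.sym l i]
        ring
    _ = ∑ j, ∑ i, ∑ k, ∑ l, (A j i * M i l) * (M l k * D k j) := Finset.sum_comm
    _ = ∑ j, ∑ l, ∑ i, ∑ k, (A j i * M i l) * (M l k * D k j) := by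
        refine Finset.sum_congr rfl fun j _ => ?_
        refine (Finset.sum_congr rfl fun i _ => Finset.sum_comm).trans ?_
        rw [Finset.sum_comm]
    _ = ∑ j, ∑ l, (∑ i, A j i * M i l) * (∑ k, M l k * D k j) := by
        refine Finset.sum_congr rfl fun j _ => Finset.sum_congr rfl fun l _ => ?_
        rw [Finset.sum_mul_sum]
    _ = ((A * M) * (M * D)).trace := by
        simp only [Matrix.trace, Matrix.diag_apply, Matrix.mul_apply]

theorem v2_le {M G V : Matrix (Fin n) (Fin n) ℂ} (hM : IsSg M) (hG : IsRs G) (hV : IsRs V)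
    (L h hv d dv : ℝ) (hL : OpLe M L) (hh : 0 ≤ h) (hs : hs2 G ≤ h ^ 2) (hhv : 0 ≤ hv)
    (hsv : hs2 V ≤ hv ^ 2) (hd0 : 0 ≤ d) (hdv0 : 0 ≤ dv)
    (hd : ∑ j, ‖(M * G) j j‖ ^ 2 ≤ d ^ 2) (hdv : ∑ j, ‖(M * V) j j‖ ^ 2 ≤ dv ^ 2) :
    ‖∑ i, ∑ j, ∑ k, (1 - M i j * M j k) * ((n : ℂ) - (M * M) k i) * (G j i * V j k)‖
      ≤ n * (d * dv) + 2 * (L ^ 2 * (h * hv)) := by
  have hL0 : 0 ≤ L := hL.1
  have hLt : OpLe Mᵀ L := by rw [sg_transpose hM]; exact hL
  have kl : ∀ (A : Matrix (Fin n) (Fin n) ℂ) (a : ℝ), hs2 A ≤ a ^ 2 →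
      hs2 (A * M) ≤ (L * a) ^ 2 := fun A a hA => by
    refine (hs2_mul_le' M A L hLt).trans ?_
    rw [mul_pow]
    exact mul_le_mul_of_nonneg_left hA (sq_nonneg L)
  have kr : ∀ (A : Matrix (Fin n) (Fin n) ℂ) (a : ℝ), hs2 A ≤ a ^ 2 →
      hs2 (M * A) ≤ (L * a) ^ 2 := fun A a hA => by
    refine (hs2_mul_le M A L hL).trans ?_
    rw [mul_pow]
    exact mul_le_mul_of_nonneg_left hA (sq_nonneg L)
  have e1 : ∑ i, ∑ j, ∑ k, (n : ℂ) * G j i * V j k = 0 := by
    refine Finset.sum_eq_zero fun i _ => Finset.sum_eq_zero fun j _ => ?_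
    rw [← Finset.mul_sum, hV.row, mul_zero]
  have e2 : ∑ i, ∑ j, ∑ k, (n : ℂ) * ((M i j * G j i) * (M j k * V j k))
      = (n : ℂ) * ∑ j, (M * G) j j * (M * V) j j := by
    rw [Finset.sum_comm, Finset.mul_sum]
    refine Finset.sum_congr rfl fun j _ => ?_
    simp only [← Finset.mul_sum]
    rw [← Finset.sum_mul, Matrix.mul_apply, Matrix.mul_apply]
    congr 1
    congr 1
    · exact Finset.sum_congr rfl fun i _ => by rw [hM.sym i j, hG.sym j i]
    · exact Finset.sum_congr rfl fun k _ => by rw [hV.sym j k]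
  have e3 := va_tr G V hM
  have e4 := va_tr (Matrix.of fun i j => M i j * G i j) (Matrix.of fun i j => M i j * V i j) hM
  have hpt : ∀ i j k, (1 - M i j * M j k) * ((n : ℂ) - (M * M) k i) * (G j i * V j k)
      = (n : ℂ) * G j i * V j k - (n : ℂ) * ((M i j * G j i) * (M j k * V j k))
        - (M * M) k i * (G j i * V k j)
        + (M * M) k i * ((Matrix.of fun i j => M i j * G i j) j i
            * (Matrix.of fun i j => M i j * V i j) k j) := by
    intro i j k
    simp only [Matrix.of_apply]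
    rw [hV.sym k j, hM.sym j i, hM.sym k j]
    ring
  have heq : ∑ i, ∑ j, ∑ k, (1 - M i j * M j k) * ((n : ℂ) - (M * M) k i) * (G j i * V j k)
      = -((n : ℂ) * ∑ j, (M * G) j j * (M * V) j j) - ((G * M) * (M * V)).trace
        + (((Matrix.of fun i j => M i j * G i j) * M)
            * (M * (Matrix.of fun i j => M i j * V i j))).trace := by
    rw [← e2, ← e3, ← e4]
    simp only [hpt, Finset.sum_add_distrib, Finset.sum_sub_distrib, e1]
    ring
  rw [heq]
  have b1 : ‖(n : ℂ) * ∑ j, (M * G) j j * (M * V) j j‖ ≤ n * (d * dv) := by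
    rw [norm_mul, Complex.norm_natCast]
    refine mul_le_mul_of_nonneg_left ?_ (Nat.cast_nonneg n)
    refine (norm_sum_le _ _).trans ?_
    simp only [norm_mul]
    exact cs1 (fun j => (M * G) j j) (fun j => (M * V) j j) d dv hd0 hdv0 hd hdv
  have b3 : ‖((G * M) * (M * V)).trace‖ ≤ (L * h) * (L * hv) :=
    tr_mul_le _ _ _ _ (mul_nonneg hL0 hh) (mul_nonneg hL0 hhv) (kl G h hs) (kr V hv hsv)
  have b4 : ‖(((Matrix.of fun i j => M i j * G i j) * M)
            * (M * (Matrix.of fun i j => M i j * V i j))).trace‖ ≤ (L * h) * (L * hv) :=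
    tr_mul_le _ _ _ _ (mul_nonneg hL0 hh) (mul_nonneg hL0 hhv)
      (kl _ h (by rw [hs2_had hM]; exact hs)) (kr _ hv (by rw [hs2_had hM]; exact hsv))
  calc ‖-((n : ℂ) * ∑ j, (M * G) j j * (M * V) j j) - ((G * M) * (M * V)).trace
        + (((Matrix.of fun i j => M i j * G i j) * M)
            * (M * (Matrix.of fun i j => M i j * V i j))).trace‖
      ≤ n * (d * dv) + (L * h) * (L * hv) + (L * h) * (L * hv) := by
        refine (norm_add_le _ _).trans (add_le_add ?_ b4)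
        refine (norm_sub_le _ _).trans (add_le_add ?_ b3)
        rw [norm_neg]
        exact b1
    _ = n * (d * dv) + 2 * (L ^ 2 * (h * hv)) := by ring

theorem v4_le {M G V : Matrix (Fin n) (Fin n) ℂ} (hM : IsSg M) (hG : IsRs G) (hV : IsRs V)
    (L h hv d dv : ℝ) (hL : OpLe M L) (hh : 0 ≤ h) (hs : hs2 G ≤ h ^ 2) (hhv : 0 ≤ hv)
    (hsv : hs2 V ≤ hv ^ 2) (hd0 : 0 ≤ d) (hdv0 : 0 ≤ dv)
    (hd : ∑ j, ‖(M * G) j j‖ ^ 2 ≤ d ^ 2) (hdv : ∑ j, ‖(M * V) j j‖ ^ 2 ≤ dv ^ 2) :
    ‖∑ i, ∑ j, ∑ l, (1 - M i j * M l i) * ((n : ℂ) - (M * M) j l) * (G j i * V l i)‖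
      ≤ n * (d * dv) + 2 * (L ^ 2 * (h * hv)) := by
  have hMM : ∀ i j, (M * M) i j = (M * M) j i := fun i j => by
    rw [Matrix.mul_apply, Matrix.mul_apply]
    exact Finset.sum_congr rfl fun k _ => by rw [hM.sym i k, hM.sym k j, mul_comm]
  have h2 := v2_le hM hG hV L h hv d dv hL hh hs hhv hsv hd0 hdv0 hd hdv
  have e : ∑ i, ∑ j, ∑ l, (1 - M i j * M l i) * ((n : ℂ) - (M * M) j l) * (G j i * V l i)
      = ∑ i, ∑ j, ∑ k, (1 - M i j * M j k) * ((n : ℂ) - (M * M) k i) * (G j i * V j k) := by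
    rw [Finset.sum_comm]
    refine Finset.sum_congr rfl fun i _ => Finset.sum_congr rfl fun j _ =>
      Finset.sum_congr rfl fun k _ => ?_
    rw [hM.sym j i, hM.sym k j, hMM i k, hG.sym i j, hV.sym k j]
  rw [e]
  exact h2

end Pool.Agent.ZR.G

end

section

/-!
# ZR, part G: the `V`-list, edge `kl`.

`∑ alt8 G_ji V_kl`, monomial by monomial: `1, ab, ad, bc, cd` vanish; `ac`: `tr(M G) tr(M V)`;
`bd`: `∑ M_jk M_li G_ji V_kl = tr(M V M G)` (up to symmetry); `abcd`:
`∑ (M_ij G_ji) M_jk (M_kl V_kl) M_li = tr((M∘G) M (M∘V) M)`.  Bounds `(L τ)(L τv)`, `L² h hv`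
(twice).
-/


open MeasureTheory ProbabilityTheory Matrix

namespace Pool.Agent.ZR.G

variable {n : ℕ}

theorem v3_zi (f : Fin n → Fin n → Fin n → Fin n → ℂ)
    (h : ∀ j k l, ∑ i, f i j k l = 0) : ∑ i, ∑ j, ∑ k, ∑ l, f i j k l = 0 := by
  rw [Finset.sum_comm]
  refine Finset.sum_eq_zero fun j _ => ?_
  rw [Finset.sum_comm]
  refine Finset.sum_eq_zero fun k _ => ?_
  rw [Finset.sum_comm]
  exact Finset.sum_eq_zero fun l _ => h j k l

theorem v3_zj (f : Fin n → Fin n → Fin n → Fin n → ℂ)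
    (h : ∀ i k l, ∑ j, f i j k l = 0) : ∑ i, ∑ j, ∑ k, ∑ l, f i j k l = 0 := by
  refine Finset.sum_eq_zero fun i _ => ?_
  rw [Finset.sum_comm]
  refine Finset.sum_eq_zero fun k _ => ?_
  rw [Finset.sum_comm]
  exact Finset.sum_eq_zero fun l _ => h i k l

theorem v3_zk (f : Fin n → Fin n → Fin n → Fin n → ℂ)
    (h : ∀ i j l, ∑ k, f i j k l = 0) : ∑ i, ∑ j, ∑ k, ∑ l, f i j k l = 0 := by
  refine Finset.sum_eq_zero fun i _ => ?_
  refine Finset.sum_eq_zero fun j _ => ?_
  rw [Finset.sum_comm]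
  exact Finset.sum_eq_zero fun l _ => h i j l

theorem v3_zl (f : Fin n → Fin n → Fin n → Fin n → ℂ)
    (h : ∀ i j k, ∑ l, f i j k l = 0) : ∑ i, ∑ j, ∑ k, ∑ l, f i j k l = 0 :=
  Finset.sum_eq_zero fun i _ => Finset.sum_eq_zero fun j _ => Finset.sum_eq_zero fun k _ => h i j k

/-- the trace of `(A B) (C D)` as a fourfold sum -/
theorem v3_tr (A B C D : Matrix (Fin n) (Fin n) ℂ) :
    ((A * B) * (C * D)).trace
      = ∑ i, ∑ j, ∑ k, ∑ l, (A j i * B i l) * (C l k * D k j) := by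
  calc ((A * B) * (C * D)).trace
      = ∑ j, ∑ l, (∑ i, A j i * B i l) * (∑ k, C l k * D k j) := by
        simp only [Matrix.trace, Matrix.diag_apply, Matrix.mul_apply]
    _ = ∑ j, ∑ l, ∑ i, ∑ k, (A j i * B i l) * (C l k * D k j) := by
        refine Finset.sum_congr rfl fun j _ => Finset.sum_congr rfl fun l _ => ?_
        rw [Finset.sum_mul_sum]
    _ = ∑ j, ∑ i, ∑ k, ∑ l, (A j i * B i l) * (C l k * D k j) := by
        refine Finset.sum_congr rfl fun j _ => ?_
        rw [Finset.sum_comm]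
        refine Finset.sum_congr rfl fun i _ => ?_
        rw [Finset.sum_comm]
    _ = ∑ i, ∑ j, ∑ k, ∑ l, (A j i * B i l) * (C l k * D k j) := Finset.sum_comm

theorem v3_eq {M G V : Matrix (Fin n) (Fin n) ℂ} (hM : IsSg M) (hG : IsRs G) (hV : IsRs V) :
    ∑ i, ∑ j, ∑ k, ∑ l, alt8 M i j k l * (G j i * V k l)
      = (M * G).trace * (M * V).trace + ((G * M) * (V * M)).trace
        + (((Matrix.of fun i j => M i j * G i j) * M)
            * ((Matrix.of fun i j => M i j * V i j) * M)).trace := by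
  have hGc : ∀ i, ∑ j, G j i = 0 := fun i => by
    rw [← hG.row i]; exact Finset.sum_congr rfl fun j _ => hG.sym j i
  have hVc : ∀ l, ∑ k, V k l = 0 := fun l => by
    rw [← hV.row l]; exact Finset.sum_congr rfl fun k _ => hV.sym k l
  have e1 : ∑ i, ∑ j, ∑ k, ∑ l, (G j i * V k l) = 0 := v3_zl _ fun i j k => by
    rw [← Finset.mul_sum, hV.row, mul_zero]
  have e2 : ∑ i, ∑ j, ∑ k, ∑ l, (M i j * M j k * G j i) * V k l = 0 := v3_zl _ fun i j k => by
    rw [← Finset.mul_sum, hV.row, mul_zero]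
  have e4 : ∑ i, ∑ j, ∑ k, ∑ l, (M i j * M l i * G j i) * V k l = 0 := v3_zk _ fun i j l => by
    rw [← Finset.mul_sum, hVc, mul_zero]
  have e5 : ∑ i, ∑ j, ∑ k, ∑ l, (M j k * M k l * V k l) * G j i = 0 := v3_zi _ fun j k l => by
    rw [← Finset.mul_sum, hG.row, mul_zero]
  have e7 : ∑ i, ∑ j, ∑ k, ∑ l, (M k l * M l i * V k l) * G j i = 0 := v3_zj _ fun i k l => by
    rw [← Finset.mul_sum, hGc, mul_zero]
  have e3 : ∑ i, ∑ j, ∑ k, ∑ l, (M i j * G j i) * (M k l * V l k)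
      = (M * G).trace * (M * V).trace := by
    simp only [Matrix.trace, Matrix.diag_apply, Matrix.mul_apply]
    rw [Finset.sum_mul]
    refine Finset.sum_congr rfl fun i _ => ?_
    rw [Finset.sum_mul]
    refine Finset.sum_congr rfl fun j _ => ?_
    rw [Finset.mul_sum]
    refine Finset.sum_congr rfl fun k _ => ?_
    rw [Finset.mul_sum]
  have e6 := v3_tr G M V M
  have e8 := v3_tr (Matrix.of fun i j => M i j * G i j) M (Matrix.of fun i j => M i j * V i j) M
  rw [← e3, e6, e8]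
  have hpt : ∀ i j k l, alt8 M i j k l * (G j i * V k l)
      = (G j i * V k l) - (M i j * M j k * G j i) * V k l
        + (M i j * G j i) * (M k l * V l k)
        - (M i j * M l i * G j i) * V k l
        - (M j k * M k l * V k l) * G j i
        + (G j i * M i l) * (V l k * M k j)
        - (M k l * M l i * V k l) * G j i
        + ((Matrix.of fun i j => M i j * G i j) j i * M i l)
            * ((Matrix.of fun i j => M i j * V i j) l k * M k j) := by
    intro i j k l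
    simp only [alt8, Matrix.of_apply]
    rw [hV.sym k l, hM.sym j i, hM.sym k l, hM.sym k j, hM.sym l i]
    ring
  simp only [hpt, Finset.sum_add_distrib, Finset.sum_sub_distrib, e1, e2, e4, e5, e7]
  ring

theorem v3_le {M G V : Matrix (Fin n) (Fin n) ℂ} (hM : IsSg M) (hG : IsRs G) (hV : IsRs V)
    (L h hv τ τv : ℝ) (hL : OpLe M L) (hh : 0 ≤ h) (hs : hs2 G ≤ h ^ 2) (hhv : 0 ≤ hv)
    (hsv : hs2 V ≤ hv ^ 2) (hτ : NuLe G τ) (hτv : NuLe V τv) :
    ‖∑ i, ∑ j, ∑ k, ∑ l, alt8 M i j k l * (G j i * V k l)‖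
      ≤ L ^ 2 * (τ * τv) + 2 * (L ^ 2 * (h * hv)) := by
  have hL0 : 0 ≤ L := hL.1
  have hLt : OpLe Mᵀ L := by rw [sg_transpose hM]; exact hL
  have hτ0 : 0 ≤ τ := nu_nonneg hτ
  have b1 : ‖(M * G).trace‖ ≤ L * τ := nu_trace M G L τ hL hτ
  have b2 : ‖(M * V).trace‖ ≤ L * τv := nu_trace M V L τv hL hτv
  have key : ∀ (A : Matrix (Fin n) (Fin n) ℂ) (a : ℝ), hs2 A ≤ a ^ 2 →
      hs2 (A * M) ≤ (L * a) ^ 2 := fun A a hA => by
    refine (hs2_mul_le' M A L hLt).trans ?_
    rw [mul_pow]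
    exact mul_le_mul_of_nonneg_left hA (sq_nonneg L)
  have b3 : ‖((G * M) * (V * M)).trace‖ ≤ (L * h) * (L * hv) :=
    tr_mul_le _ _ _ _ (mul_nonneg hL0 hh) (mul_nonneg hL0 hhv) (key G h hs) (key V hv hsv)
  have b4 : ‖(((Matrix.of fun i j => M i j * G i j) * M)
            * ((Matrix.of fun i j => M i j * V i j) * M)).trace‖ ≤ (L * h) * (L * hv) :=
    tr_mul_le _ _ _ _ (mul_nonneg hL0 hh) (mul_nonneg hL0 hhv)
      (key _ h (by rw [hs2_had hM]; exact hs)) (key _ hv (by rw [hs2_had hM]; exact hsv))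
  rw [v3_eq hM hG hV]
  have b12 : ‖(M * G).trace * (M * V).trace‖ ≤ (L * τ) * (L * τv) := by
    rw [norm_mul]
    exact mul_le_mul b1 b2 (norm_nonneg _) (mul_nonneg hL0 hτ0)
  calc ‖(M * G).trace * (M * V).trace + ((G * M) * (V * M)).trace
        + (((Matrix.of fun i j => M i j * G i j) * M)
            * ((Matrix.of fun i j => M i j * V i j) * M)).trace‖
      ≤ (L * τ) * (L * τv) + (L * h) * (L * hv) + (L * h) * (L * hv) :=
        (norm_add_le _ _).trans (add_le_add ((norm_add_le _ _).trans (add_le_add b12 b3)) b4)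
    _ = L ^ 2 * (τ * τv) + 2 * (L ^ 2 * (h * hv)) := by ring

end Pool.Agent.ZR.G

end

section

/-!
# ZR, part K1 (helper58): the entropic comparison for conjugation invariant bounded functions
-/


open MeasureTheory ProbabilityTheory Matrix

namespace Pool.Agent.ZR.K1

/-- K1: entropic comparison of `A(a)` with the GOE. -/
theorem k1_main {N : ℕ} {v t : ℝ} (hv : 0 < v) (ht : 0 < t) (g : Matrix (Fin N) (Fin N) ℝ → ℝ)
    (hg : Measurable (fun X : Fin N × Fin N → ℝ => g (symA X))) (M : ℝ) (hM : ∀ A, |g A| ≤ M)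
    (hconj : ∀ (O A : Matrix (Fin N) (Fin N) ℝ), Oᵀ * O = 1 → A.IsSymm → g (O * A * Oᵀ) = g A)
    {Ω : Type*} [MeasurableSpace Ω] (P' : Measure Ω) [IsProbabilityMeasure P']
    (a : Ω → Fin N → ℝ) (Y : Ω → Fin N × Fin N → ℝ) (ha : Measurable a) (hY : Measurable Y)
    (hlaw : P'.map Y = gm N)
    (hint : Integrable (fun ω => ∑ i : Fin N, (a ω i - evs (Wv v (Y ω)) i) ^ 2) P') :
    ∫ ω, ∫ X, g (At v t (a ω) X) ∂(gm N) ∂P' ≤ Real.log (∫ X, Real.exp (g (Wv v X)) ∂(gm N))
      + (1 / (4 * v * (Real.exp t - 1))) *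
        ∫ ω, ∑ i : Fin N, (a ω i - evs (Wv v (Y ω)) i) ^ 2 ∂P' := by
  -- the function L(b) = ∫ exp g(A(b))
  have hAtm : Measurable (fun p : (Fin N → ℝ) × (Fin N × Fin N → ℝ) => g (At v t p.1 p.2)) := by
    refine measurable_of_symA hg (fun p : (Fin N → ℝ) × (Fin N × Fin N → ℝ) => At v t p.1 p.2)
      (fun p => At_isSymm v t p.1 p.2) fun i j => ?_
    simp only [At, Matrix.add_apply, Matrix.smul_apply, smul_eq_mul, Wv, Matrix.of_apply,
      Matrix.diagonal_apply]
    by_cases hij : i = j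
    · subst hij; simp only [if_true]; fun_prop
    · simp only [hij, if_false]; fun_prop
  have hAtI : ∀ b : Fin N → ℝ, Measurable (fun X => g (At v t b X)) := fun b =>
    hAtm.comp (measurable_const.prodMk measurable_id)
  have hgI : ∀ b : Fin N → ℝ, Integrable (fun X => g (At v t b X)) (gm N) := fun b =>
    Integrable.of_bound (hAtI b).aestronglyMeasurable M (Filter.Eventually.of_forall fun X => by
      rw [Real.norm_eq_abs]; exact hM _)
  set L : (Fin N → ℝ) → ℝ := fun b => ∫ X, Real.exp (g (At v t b X)) ∂(gm N) with hL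
  set φ : (Fin N → ℝ) → ℝ := fun b => ∫ X, g (At v t b X) ∂(gm N) with hφ
  have hLm : Measurable L := by
    have h1 : StronglyMeasurable (fun p : (Fin N → ℝ) × (Fin N × Fin N → ℝ) =>
        Real.exp (g (At v t p.1 p.2))) := (Real.measurable_exp.comp hAtm).stronglyMeasurable
    exact (h1.integral_prod_right (ν := gm N)).measurable
  have hφm : Measurable φ := by
    have h1 : StronglyMeasurable (fun p : (Fin N → ℝ) × (Fin N × Fin N → ℝ) =>
        g (At v t p.1 p.2)) := hAtm.stronglyMeasurable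
    exact (h1.integral_prod_right (ν := gm N)).measurable
  have hexpI : ∀ b : Fin N → ℝ, Integrable (fun X => Real.exp (g (At v t b X))) (gm N) := fun b =>
    Integrable.of_bound (Real.measurable_exp.comp (hAtI b)).aestronglyMeasurable (Real.exp M)
      (Filter.Eventually.of_forall fun X => by
        rw [Real.norm_eq_abs, abs_of_pos (Real.exp_pos _)]
        exact Real.exp_le_exp.mpr (abs_le.mp (hM _)).2)
  have hLlow : ∀ b, Real.exp (-M) ≤ L b := by
    intro b
    have h1 : ∫ X : Fin N × Fin N → ℝ, Real.exp (-M) ∂(gm N) ≤ L b := by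
      refine integral_mono (integrable_const _) (hexpI b) fun X => ?_
      exact Real.exp_le_exp.mpr (abs_le.mp (hM _)).1
    simpa using h1
  have hLup : ∀ b, L b ≤ Real.exp M := by
    intro b
    have h1 : L b ≤ ∫ X : Fin N × Fin N → ℝ, Real.exp M ∂(gm N) := by
      refine integral_mono (hexpI b) (integrable_const _) fun X => ?_
      exact Real.exp_le_exp.mpr (abs_le.mp (hM _)).2
    simpa using h1
  have hφb : ∀ b, |φ b| ≤ M := by
    intro b
    have h1 : ‖∫ X, g (At v t b X) ∂(gm N)‖ ≤ M * (gm N).real Set.univ :=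
      norm_integral_le_of_norm_le_const (Filter.Eventually.of_forall fun X => by
        rw [Real.norm_eq_abs]; exact hM _)
    simpa using h1
  set μ : Ω → Fin N → ℝ := fun ω i => evs (Wv v (Y ω)) i with hμ
  have hμm : Measurable μ := by
    refine measurable_pi_lambda _ fun i => ?_
    refine evs_measurable (fun ω => Wv v (Y ω)) (fun ω => Wv_isSymm v _) (fun k l => ?_) i
    simp only [Wv, Matrix.of_apply]
    fun_prop
  -- Jensen
  have hLμI : Integrable (fun ω => L (μ ω)) P' :=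
    Integrable.of_bound (hLm.comp hμm).aestronglyMeasurable (Real.exp M)
      (Filter.Eventually.of_forall fun ω => by
        rw [Real.norm_eq_abs, abs_of_pos (lt_of_lt_of_le (Real.exp_pos _) (hLlow _))]
        exact hLup _)
  have hlogI : Integrable (fun ω => Real.log (L (μ ω))) P' := by
    refine Integrable.of_bound (Real.measurable_log.comp (hLm.comp hμm)).aestronglyMeasurable M
      (Filter.Eventually.of_forall fun ω => ?_)
    rw [Real.norm_eq_abs, abs_le]
    constructor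
    · have := Real.log_le_log (Real.exp_pos _) (hLlow (μ ω))
      rwa [Real.log_exp] at this
    · have := Real.log_le_log (lt_of_lt_of_le (Real.exp_pos _) (hLlow (μ ω))) (hLup (μ ω))
      rwa [Real.log_exp] at this
  have hJ : Real.exp (∫ ω, Real.log (L (μ ω)) ∂P') ≤ ∫ ω, L (μ ω) ∂P' := by
    have h1 := convexOn_exp.map_integral_le (μ := P') (f := fun ω => Real.log (L (μ ω)))
      Real.continuous_exp.continuousOn isClosed_univ
      (Filter.Eventually.of_forall fun _ => Set.mem_univ _) hlogI ?_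
    · have h2 : ∀ ω, Real.exp (Real.log (L (μ ω))) = L (μ ω) := fun ω =>
        Real.exp_log (lt_of_lt_of_le (Real.exp_pos _) (hLlow _))
      simpa only [h2] using h1
    · have h2 : (Real.exp ∘ fun ω => Real.log (L (μ ω))) = fun ω => L (μ ω) := by
        funext ω
        exact Real.exp_log (lt_of_lt_of_le (Real.exp_pos _) (hLlow _))
      rw [h2]; exact hLμI
  -- stationarity for exp g
  have hstat : ∫ ω, L (μ ω) ∂P' = ∫ X, Real.exp (g (Wv v X)) ∂(gm N) := by
    have h1 : ∫ ω, L (μ ω) ∂P' = ∫ Z, L (fun i => evs (Wv v Z) i) ∂(gm N) := by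
      rw [← hlaw, integral_map hY.aemeasurable]
      refine Measurable.aestronglyMeasurable (hLm.comp ?_)
      refine measurable_pi_lambda _ fun i => ?_
      refine evs_measurable (fun Z => Wv v Z) (fun Z => Wv_isSymm v _) (fun k l => ?_) i
      simp only [Wv, Matrix.of_apply]
      fun_prop
    rw [h1]
    have hmW : Measurable (fun X : Fin N × Fin N → ℝ => Real.exp (g (Wv v X))) := by
      refine Real.measurable_exp.comp (measurable_of_symA hg _ (fun X => Wv_isSymm v X) fun i j => ?_)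
      simp only [Wv, Matrix.of_apply]
      fun_prop
    exact stat_main ht (fun A => Real.exp (g A)) (Real.measurable_exp.comp hg)
      (fun O A hO hA => by rw [hconj O A hO hA])
      (Integrable.of_bound hmW.aestronglyMeasurable (Real.exp M)
        (Filter.Eventually.of_forall fun X => by
          rw [Real.norm_eq_abs, abs_of_pos (Real.exp_pos _)]
          exact Real.exp_le_exp.mpr (abs_le.mp (hM _)).2))
  have hlog : ∫ ω, Real.log (L (μ ω)) ∂P' ≤ Real.log (∫ X, Real.exp (g (Wv v X)) ∂(gm N)) := by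
    rw [hstat] at hJ
    have := Real.log_le_log (Real.exp_pos _) hJ
    rwa [Real.log_exp] at this
  have hpt : ∀ ω, φ (a ω) ≤ Real.log (L (μ ω)) + (1 / (4 * v * (Real.exp t - 1))) *
      ∑ i : Fin N, (a ω i - evs (Wv v (Y ω)) i) ^ 2 := fun ω =>
    At_fixed hv ht g hg M hM (a ω) (μ ω)
  calc ∫ ω, φ (a ω) ∂P' ≤ ∫ ω, (Real.log (L (μ ω)) + (1 / (4 * v * (Real.exp t - 1))) *
      ∑ i : Fin N, (a ω i - evs (Wv v (Y ω)) i) ^ 2) ∂P' := by
        refine integral_mono ?_ (hlogI.add (hint.const_mul _)) hpt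
        exact Integrable.of_bound (hφm.comp ha).aestronglyMeasurable M
          (Filter.Eventually.of_forall fun ω => by rw [Real.norm_eq_abs]; exact hφb _)
    _ = ∫ ω, Real.log (L (μ ω)) ∂P' + (1 / (4 * v * (Real.exp t - 1))) *
        ∫ ω, ∑ i : Fin N, (a ω i - evs (Wv v (Y ω)) i) ^ 2 ∂P' := by
        rw [integral_add hlogI (hint.const_mul _), integral_const_mul]
    _ ≤ _ := by linarith

end Pool.Agent.ZR.K1

end

section

/-!
# ZR/LGst : the gap function

PROOF.  `F` is `C¹` with compact support; `R0` with `F v ≠ 0 → |v q| ≤ R0` for all `q`, `|F| ≤ M`.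
* `gst_cont_diff`: the integrand `F (Fin.cons u (fun q => u + g q))` vanishes for `|u| > R0`, whatever `g`,
  and so does its derivative in `g` (the support of `fderiv F` is contained in the support of `F`),
  which is bounded by `M1 = sup ‖fderiv F‖`; so `hasFDerivAt_integral_of_dominated_of_fderiv_le` applies
  with the bound `M1 1_{[-R0,R0]}(u)`, and the derivative is continuous in `g` by dominated convergence
  (`continuous_of_dominated`).  Use `contDiff_one_iff_fderiv`.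
* `gst_supp`: if `G g ≠ 0` there is `u` with `F(..) ≠ 0`: `|u| ≤ R0`, `|u + g q| ≤ R0`, so `|g q| ≤ 2 R0`;
  `gst_compact`: the support is contained in a bounded set (`HasCompactSupport` in a proper space:
  `HasCompactSupport.of_support_subset_isCompact` with `Metric.closedBall 0 (2 R0)`).
* `gst_bd`: `|G g| ≤ 2 R0 M`.
* `gst_scale`: substitution `u = s (a - y)`: `s (b q - y) = u + s (b q - a)`, `dy = du / s`
  (`integral_comp_mul_left`/`integral_comp_sub_left`, and `Fin.cons` by cases `Fin.cases`).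
-/


open MeasureTheory

namespace Pool.Agent.ZR

private theorem lgst_tsupp {k : ℕ} {F : (Fin k → ℝ) → ℝ} (hs : HasCompactSupport F) :
    ∃ R0 : ℝ, 0 < R0 ∧ ∀ v ∈ tsupport F, ∀ q, |v q| ≤ R0 := by
  obtain ⟨R, hR0, hR⟩ := hs.isCompact.isBounded.subset_closedBall_lt 0 (0 : Fin k → ℝ)
  refine ⟨R, hR0, fun v hv q => ?_⟩
  have h1 := hR hv
  rw [mem_closedBall_zero_iff] at h1
  exact (norm_le_pi_norm v q).trans h1

theorem supp_bd {k : ℕ} {F : (Fin k → ℝ) → ℝ} (hs : HasCompactSupport F) :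
    ∃ R0 : ℝ, 0 < R0 ∧ ∀ v, F v ≠ 0 → ∀ q, |v q| ≤ R0 := by
  obtain ⟨R, hR0, hR⟩ := lgst_tsupp hs
  exact ⟨R, hR0, fun v hv q => hR v (subset_tsupport F hv) q⟩

theorem f_bd {k : ℕ} {F : (Fin k → ℝ) → ℝ} (hF : Continuous F) (hs : HasCompactSupport F) :
    ∃ M : ℝ, 0 ≤ M ∧ ∀ v, |F v| ≤ M := by
  obtain ⟨C, hC⟩ := hs.exists_bound_of_continuous hF
  exact ⟨max C 0, le_max_right _ _, fun v => (hC v).trans (le_max_left _ _)⟩

private theorem lgst_fderiv_bd {k : ℕ} {F : (Fin k → ℝ) → ℝ} (hF : ContDiff ℝ 1 F)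
    (hs : HasCompactSupport F) : ∃ M1 : ℝ, 0 ≤ M1 ∧ ∀ v, ‖fderiv ℝ F v‖ ≤ M1 := by
  obtain ⟨C, hC⟩ := (hs.fderiv ℝ).exists_bound_of_continuous (hF.continuous_fderiv one_ne_zero)
  exact ⟨max C 0, le_max_right _ _, fun v => (hC v).trans (le_max_left _ _)⟩

theorem f_lip {k : ℕ} {F : (Fin k → ℝ) → ℝ} (hF : ContDiff ℝ 1 F) (hs : HasCompactSupport F) :
    ∃ L : ℝ, 0 ≤ L ∧ ∀ v w, |F v - F w| ≤ L * ∑ q, |v q - w q| := by
  obtain ⟨M1, hM0, hM1⟩ := lgst_fderiv_bd hF hs
  refine ⟨M1, hM0, fun v w => ?_⟩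
  have h1 := Convex.norm_image_sub_le_of_norm_fderiv_le (𝕜 := ℝ) (f := F) (C := M1)
    (s := Set.univ) (x := w) (y := v)
    (fun x _ => (hF.differentiable one_ne_zero) x) (fun x _ => hM1 x) convex_univ
    (Set.mem_univ _) (Set.mem_univ _)
  rw [Real.norm_eq_abs] at h1
  refine h1.trans (mul_le_mul_of_nonneg_left ?_ hM0)
  rw [pi_norm_le_iff_of_nonneg (Finset.sum_nonneg fun q _ => abs_nonneg _)]
  intro q
  exact Finset.single_le_sum (f := fun q => |v q - w q|) (fun q _ => abs_nonneg _)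
    (Finset.mem_univ q)

/-- the linear part `g ↦ (0, g)` -/
private noncomputable def lgstJ (k : ℕ) : (Fin k → ℝ) →L[ℝ] (Fin (k + 1) → ℝ) :=
  ContinuousLinearMap.pi
    (Fin.cons 0 (fun q => ContinuousLinearMap.proj q) : Fin (k + 1) → ((Fin k → ℝ) →L[ℝ] ℝ))

private theorem lgstJ_zero (k : ℕ) (g : Fin k → ℝ) : lgstJ k g 0 = 0 := by
  simp [lgstJ]

private theorem lgstJ_succ (k : ℕ) (g : Fin k → ℝ) (q : Fin k) : lgstJ k g q.succ = g q := by
  simp [lgstJ]

private theorem lgst_aff {k : ℕ} (u : ℝ) (g : Fin k → ℝ) :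
    (Fin.cons u (fun q => u + g q) : Fin (k + 1) → ℝ) = lgstJ k g + fun _ => u := by
  funext q
  refine Fin.cases ?_ (fun q => ?_) q
  · simp only [Fin.cons_zero, Pi.add_apply, lgstJ_zero, zero_add]
  · simp only [Fin.cons_succ, Pi.add_apply, lgstJ_succ]
    ring

private theorem lgst_hasFDeriv {k : ℕ} {F : (Fin (k + 1) → ℝ) → ℝ} (hF : ContDiff ℝ 1 F)
    (u : ℝ) (g : Fin k → ℝ) :
    HasFDerivAt (fun g : Fin k → ℝ => F (Fin.cons u (fun q => u + g q)))
      ((fderiv ℝ F (Fin.cons u (fun q => u + g q))).comp (lgstJ k)) g := by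
  have h1 : HasFDerivAt (fun g : Fin k → ℝ => lgstJ k g + fun _ => u) (lgstJ k) g :=
    (lgstJ k).hasFDerivAt.add_const _
  have h2 : HasFDerivAt F (fderiv ℝ F (lgstJ k g + fun _ => u)) (lgstJ k g + fun _ => u) :=
    ((hF.differentiable one_ne_zero) _).hasFDerivAt
  have h3 := h2.comp g h1
  have h4 : (fun g : Fin k → ℝ => F (Fin.cons u (fun q => u + g q)))
      = F ∘ (fun g : Fin k → ℝ => lgstJ k g + fun _ => u) := by
    funext g'
    simp only [Function.comp_apply, lgst_aff]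
  rw [h4, lgst_aff]
  exact h3

private theorem lgst_cont2 {k : ℕ} :
    Continuous (fun p : (Fin k → ℝ) × ℝ =>
      (Fin.cons p.2 (fun q => p.2 + p.1 q) : Fin (k + 1) → ℝ)) := by
  simp only [lgst_aff]
  fun_prop

theorem gst_cont_diff {k : ℕ} {F : (Fin (k + 1) → ℝ) → ℝ} (hF : ContDiff ℝ 1 F)
    (hs : HasCompactSupport F) : ContDiff ℝ 1 (Gst F) := by
  obtain ⟨M1, hM0, hM1⟩ := lgst_fderiv_bd hF hs
  obtain ⟨R0, hR0, hR⟩ := lgst_tsupp hs
  have hcu : ∀ g : Fin k → ℝ, Continuous (fun u : ℝ =>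
      (Fin.cons u (fun q => u + g q) : Fin (k + 1) → ℝ)) := fun g =>
    lgst_cont2.comp (by fun_prop : Continuous fun u : ℝ => (g, u))
  have hcg : ∀ u : ℝ, Continuous (fun g : Fin k → ℝ =>
      (Fin.cons u (fun q => u + g q) : Fin (k + 1) → ℝ)) := fun u =>
    lgst_cont2.comp (by fun_prop : Continuous fun g : Fin k → ℝ => (g, u))
  have hfd : Continuous (fderiv ℝ F) := hF.continuous_fderiv one_ne_zero
  have hz : ∀ (g : Fin k → ℝ) (u : ℝ), u ∉ Set.Icc (-R0) R0 →
      (Fin.cons u (fun q => u + g q) : Fin (k + 1) → ℝ) ∉ tsupport F := by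
    intro g u hu hmem
    have h1 := hR _ hmem 0
    rw [Fin.cons_zero, abs_le] at h1
    exact hu ⟨h1.1, h1.2⟩
  set bd : ℝ → ℝ := (Set.Icc (-R0) R0).indicator (fun _ => M1 * ‖lgstJ k‖) with hbd
  have hbi : Integrable bd volume := by
    rw [hbd, integrable_indicator_iff measurableSet_Icc]
    exact integrableOn_const (by simp)
  have hb : ∀ (g : Fin k → ℝ) (u : ℝ),
      ‖(fderiv ℝ F (Fin.cons u (fun q => u + g q))).comp (lgstJ k)‖ ≤ bd u := by
    intro g u
    by_cases hu : u ∈ Set.Icc (-R0) R0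
    · rw [hbd, Set.indicator_of_mem hu]
      exact (ContinuousLinearMap.opNorm_comp_le _ _).trans
        (mul_le_mul_of_nonneg_right (hM1 _) (norm_nonneg _))
    · have h0 : fderiv ℝ F (Fin.cons u (fun q => u + g q)) = 0 := by
        by_contra hne
        exact hz g u hu (support_fderiv_subset ℝ hne)
      rw [h0, ContinuousLinearMap.zero_comp, norm_zero, hbd, Set.indicator_of_notMem hu]
  have hint : ∀ g : Fin k → ℝ, Integrable
      (fun u : ℝ => F (Fin.cons u (fun q => u + g q))) volume := by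
    intro g
    have hc : Continuous (fun u : ℝ => F (Fin.cons u (fun q => u + g q))) :=
      hF.continuous.comp (hcu g)
    refine hc.integrable_of_hasCompactSupport ?_
    refine HasCompactSupport.of_support_subset_isCompact (isCompact_Icc (a := -R0) (b := R0)) ?_
    intro u hu
    by_contra hne
    exact hz g u hne (subset_tsupport F hu)
  have hmeas' : ∀ g : Fin k → ℝ, AEStronglyMeasurable
      (fun u : ℝ => (fderiv ℝ F (Fin.cons u (fun q => u + g q))).comp (lgstJ k)) volume := by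
    intro g
    have hc : Continuous (fun u : ℝ =>
        (fderiv ℝ F (Fin.cons u (fun q => u + g q))).comp (lgstJ k)) :=
      (hfd.comp (hcu g)).clm_comp continuous_const
    exact hc.aestronglyMeasurable
  have hD : ∀ g : Fin k → ℝ, HasFDerivAt (Gst F)
      (∫ u : ℝ, (fderiv ℝ F (Fin.cons u (fun q => u + g q))).comp (lgstJ k)) g := by
    intro g
    refine hasFDerivAt_integral_of_dominated_of_fderiv_le (𝕜 := ℝ) (μ := volume)
      (F := fun (g : Fin k → ℝ) (u : ℝ) => F (Fin.cons u (fun q => u + g q)))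
      (F' := fun (g : Fin k → ℝ) (u : ℝ) =>
        (fderiv ℝ F (Fin.cons u (fun q => u + g q))).comp (lgstJ k))
      (x₀ := g) (bound := bd) (s := Set.univ) Filter.univ_mem ?_ (hint g) (hmeas' g) ?_ hbi ?_
    · exact Filter.Eventually.of_forall fun g' => (hint g').aestronglyMeasurable
    · exact Filter.Eventually.of_forall fun u g' _ => hb g' u
    · exact Filter.Eventually.of_forall fun u g' _ => lgst_hasFDeriv hF u g'
  rw [contDiff_one_iff_fderiv]
  refine ⟨fun g => (hD g).differentiableAt, ?_⟩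
  have hfe : fderiv ℝ (Gst F) = fun g =>
      ∫ u : ℝ, (fderiv ℝ F (Fin.cons u (fun q => u + g q))).comp (lgstJ k) := by
    funext g
    exact (hD g).fderiv
  rw [hfe]
  refine continuous_of_dominated (bound := bd) hmeas' (fun g =>
    Filter.Eventually.of_forall fun u => hb g u) hbi ?_
  exact Filter.Eventually.of_forall fun u => (hfd.comp (hcg u)).clm_comp continuous_const

theorem gst_supp {k : ℕ} {F : (Fin (k + 1) → ℝ) → ℝ} {R0 : ℝ}
    (hR : ∀ v, F v ≠ 0 → ∀ q, |v q| ≤ R0) (g : Fin k → ℝ) (h : Gst F g ≠ 0) (q : Fin k) :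
    |g q| ≤ 2 * R0 := by
  have h1 : ∃ u : ℝ, F (Fin.cons u (fun q => u + g q)) ≠ 0 := by
    by_contra hne
    push Not at hne
    apply h
    rw [Gst]
    simp only [hne, integral_zero]
  obtain ⟨u, hu⟩ := h1
  have h2 := hR _ hu 0
  have h3 := hR _ hu q.succ
  rw [Fin.cons_zero] at h2
  rw [Fin.cons_succ] at h3
  rw [abs_le] at h2 h3 ⊢
  constructor <;> linarith [h2.1, h2.2, h3.1, h3.2]

theorem gst_compact {k : ℕ} {F : (Fin (k + 1) → ℝ) → ℝ} (hs : HasCompactSupport F) :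
    HasCompactSupport (Gst F) := by
  obtain ⟨R0, hR0, hR⟩ := supp_bd hs
  refine HasCompactSupport.of_support_subset_isCompact
    (isCompact_closedBall (0 : Fin k → ℝ) (2 * R0)) ?_
  intro g hg
  rw [mem_closedBall_zero_iff, pi_norm_le_iff_of_nonneg (by linarith)]
  exact fun q => gst_supp hR g hg q

theorem gst_bd {k : ℕ} {F : (Fin (k + 1) → ℝ) → ℝ} {R0 M : ℝ} (hR0 : 0 ≤ R0)
    (hR : ∀ v, F v ≠ 0 → ∀ q, |v q| ≤ R0) (hM : ∀ v, |F v| ≤ M) (g : Fin k → ℝ) :
    |Gst F g| ≤ 2 * R0 * M := by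
  have h1 : ∫ u in Set.Icc (-R0) R0, F (Fin.cons u (fun q => u + g q)) = Gst F g := by
    rw [Gst]
    refine setIntegral_eq_integral_of_forall_compl_eq_zero fun u hu => ?_
    by_contra hne
    have h2 := hR _ hne 0
    rw [Fin.cons_zero, abs_le] at h2
    exact hu ⟨h2.1, h2.2⟩
  have h3 := norm_setIntegral_le_of_norm_le_const (μ := volume) (s := Set.Icc (-R0) R0)
    (f := fun u : ℝ => F (Fin.cons u (fun q => u + g q))) (C := M)
    (by simp) (fun u _ => hM _)
  rw [h1, Real.norm_eq_abs, measureReal_def, Real.volume_Icc,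
    ENNReal.toReal_ofReal (by linarith)] at h3
  linarith

theorem gst_scale {k : ℕ} (F : (Fin (k + 1) → ℝ) → ℝ) {s : ℝ} (hs : 0 < s) (a : ℝ)
    (b : Fin k → ℝ) :
    ∫ y : ℝ, F (Fin.cons (s * (a - y)) (fun q => s * (b q - y)))
      = (1 / s) * Gst F (fun q => s * (b q - a)) := by
  have h1 : (fun y : ℝ => F (Fin.cons (s * (a - y)) (fun q => s * (b q - y))))
      = fun y : ℝ => (fun t : ℝ => F (Fin.cons (s * t) (fun q => s * t + s * (b q - a)))) (a - y) := by
    funext y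
    simp only
    congr 2
    funext q
    ring
  rw [h1, integral_sub_left_eq_self (fun t : ℝ =>
    F (Fin.cons (s * t) (fun q => s * t + s * (b q - a)))) volume a]
  have h2 := Measure.integral_comp_mul_left
    (fun u : ℝ => F (Fin.cons u (fun q => u + s * (b q - a)))) s
  rw [h2, Gst, abs_of_pos (inv_pos.2 hs), smul_eq_mul, one_div]

end Pool.Agent.ZR

end

section

/-!
# ZR/LIdx : index lemmas for increasing sequences; number of bad indices

PROOF.
* `le_iff_cN`: `{i < n | x i ≤ y}` is an initial segment of `{0,..,n-1}` because `x` is increasing, so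
  it is `{i | i < cN n x y}`.
* `near_idx`: suppose `i < j` and `|x j - x i| ≤ r`; all `l` with `i ≤ l ≤ j` satisfy `|x l - x i| ≤ r`,
  so `j - i + 1 ≤ cI n x (x i) r ≤ K`; same for `j < i`.
* `fsc_mono`, `fsc_lip`: `0 ≤ rho ≤ 1` (`√(4-x²)/(2π) ≤ 2/(2π)`), `Fsc x = ∫_{-2}^{max(-2, min x 2)} rho`, and
  `x ↦ max (-2) (min x 2)` is 1-Lipschitz and monotone.
* `bad_card`: with `r > 0`; split `badI` into four sets.
  (1) `i ∈ J`, `x i < E-b+r =: p1`: then `n Fsc(E-b) ≤ i < cN n x p1` (`le_iff_cN`); the number of such integers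
  `i` is at most `(cN p1 - n Fsc (E-b))_+ + 1 ≤ |cN p1 - n Fsc p1| + n r + 1`.
  (2) `i ∈ J`, `x i > E+b-r =: p2`: `cN p2 ≤ i < n Fsc (E+b)`: number `≤ |cN p2 - n Fsc p2| + n r + 1`.
  (3) `i ∉ J`, `i < n`, `E-b-r ≤ x i ≤ E+b+r`: by definition of `JJ` either `i < n Fsc(E-b)`: with
  `p3 = E-b-2r`, `x i > p3` so `cN p3 ≤ i < n Fsc(E-b)`: number `≤ |cN p3 - n Fsc p3| + 2 n r + 1`;
  (4) or `n Fsc(E+b) ≤ i`, `x i ≤ E+b+r =: p4`, `i < cN p4`: number `≤ |cN p4 - n Fsc p4| + n r + 1`.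
-/


open MeasureTheory

namespace Pool.Agent.ZR

theorem le_iff_cN {n : ℕ} {x : ℕ → ℝ} (hx : ∀ i j, i ≤ j → j < n → x i ≤ x j) (y : ℝ) {i : ℕ}
    (hi : i < n) : x i ≤ y ↔ i < cN n x y := by
  classical
  constructor
  · intro h
    have hsub : Finset.range (i + 1) ⊆ (Finset.range n).filter fun i => x i ≤ y := by
      intro j hj
      rw [Finset.mem_range] at hj
      rw [Finset.mem_filter, Finset.mem_range]
      exact ⟨by omega, (hx j i (by omega) hi).trans h⟩
    have := Finset.card_le_card hsub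
    rw [Finset.card_range] at this
    have h2 : cN n x y = ((Finset.range n).filter fun i => x i ≤ y).card := by
      unfold cN
      congr!
    omega
  · intro h
    by_contra hc
    push Not at hc
    have hsub : ((Finset.range n).filter fun i => x i ≤ y) ⊆ Finset.range i := by
      intro j hj
      rw [Finset.mem_filter, Finset.mem_range] at hj
      rw [Finset.mem_range]
      by_contra hji
      have := hx i j (by omega) hj.1
      linarith [hj.2]
    have := Finset.card_le_card hsub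
    rw [Finset.card_range] at this
    have h2 : cN n x y = ((Finset.range n).filter fun i => x i ≤ y).card := by
      unfold cN
      congr!
    omega

theorem near_idx {n : ℕ} {x : ℕ → ℝ} (hx : ∀ i j, i ≤ j → j < n → x i ≤ x j) {r : ℝ} {K : ℕ}
    {i j : ℕ} (hi : i < n) (hj : j < n) (hK : cI n x (x i) r ≤ K) (hr : |x j - x i| ≤ r) :
    |(j : ℤ) - i| ≤ K := by
  classical
  have h2 : cI n x (x i) r = ((Finset.range n).filter fun l => |x l - x i| ≤ r).card := by
    unfold cI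
    congr!
  rw [h2] at hK
  rw [abs_le] at hr
  rcases le_total i j with hij | hij
  · have hsub : Finset.Icc i j ⊆ (Finset.range n).filter fun l => |x l - x i| ≤ r := by
      intro l hl
      rw [Finset.mem_Icc] at hl
      rw [Finset.mem_filter, Finset.mem_range]
      have h3 := hx i l hl.1 (by omega)
      have h4 := hx l j hl.2 hj
      refine ⟨by omega, ?_⟩
      rw [abs_le]
      constructor <;> linarith
    have := Finset.card_le_card hsub
    rw [Nat.card_Icc] at this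
    rw [abs_le]
    omega
  · have hsub : Finset.Icc j i ⊆ (Finset.range n).filter fun l => |x l - x i| ≤ r := by
      intro l hl
      rw [Finset.mem_Icc] at hl
      rw [Finset.mem_filter, Finset.mem_range]
      have h3 := hx j l hl.1 (by omega)
      have h4 := hx l i hl.2 hi
      refine ⟨by omega, ?_⟩
      rw [abs_le]
      constructor <;> linarith
    have := Finset.card_le_card hsub
    rw [Nat.card_Icc] at this
    rw [abs_le]
    omega

theorem LIdx_rho_cont : Continuous rho := by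
  unfold rho
  fun_prop

theorem LIdx_rho_nonneg (x : ℝ) : 0 ≤ rho x := by
  unfold rho
  positivity

theorem LIdx_rho_le_one (x : ℝ) : rho x ≤ 1 := by
  unfold rho
  rw [div_le_one (by positivity)]
  have h1 : Real.sqrt (4 - x ^ 2) ≤ 2 := by
    rw [show (2 : ℝ) = Real.sqrt (2 ^ 2) by rw [Real.sqrt_sq (by norm_num)]]
    exact Real.sqrt_le_sqrt (by nlinarith [sq_nonneg x])
  nlinarith [Real.pi_gt_three]

theorem LIdx_fsc_sub (x y : ℝ) :
    Fsc x - Fsc y = ∫ z in (max (-2) (min y 2))..(max (-2) (min x 2)), rho z := by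
  unfold Fsc
  exact intervalIntegral.integral_interval_sub_left (LIdx_rho_cont.intervalIntegrable _ _)
    (LIdx_rho_cont.intervalIntegrable _ _)

theorem fsc_mono : Monotone Fsc := by
  intro x y hxy
  have h := LIdx_fsc_sub y x
  have h1 : max (-2) (min x 2) ≤ max (-2) (min y 2) := max_le_max le_rfl (min_le_min hxy le_rfl)
  have h2 : 0 ≤ ∫ z in (max (-2) (min x 2))..(max (-2) (min y 2)), rho z :=
    intervalIntegral.integral_nonneg h1 fun z _ => LIdx_rho_nonneg z
  linarith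

theorem fsc_lip (x y : ℝ) : |Fsc x - Fsc y| ≤ |x - y| := by
  rw [LIdx_fsc_sub]
  have h1 := intervalIntegral.norm_integral_le_of_norm_le_const (a := max (-2) (min y 2))
    (b := max (-2) (min x 2)) (f := rho) (C := 1) (fun z _ => by
      rw [Real.norm_eq_abs, abs_of_nonneg (LIdx_rho_nonneg z)]
      exact LIdx_rho_le_one z)
  rw [Real.norm_eq_abs, one_mul] at h1
  refine h1.trans ?_
  refine (abs_max_sub_max_le_max _ _ _ _).trans ?_
  rw [sub_self, abs_zero, max_eq_right (abs_nonneg _)]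
  refine (abs_min_sub_min_le_max _ _ _ _).trans ?_
  rw [sub_self, abs_zero, max_eq_left (abs_nonneg _)]

/-- number of integers in a real interval -/
theorem card_real_Ico (n : ℕ) (A B c : ℝ) (hc : 0 ≤ c) (h : B - A ≤ c) (S : Finset ℕ)
    (hS : ∀ i ∈ S, A ≤ i ∧ (i : ℝ) < B) : (S.card : ℝ) ≤ c + 1 := by
  have hsub : S ⊆ Finset.Ico ⌈A⌉₊ ⌈B⌉₊ := by
    intro i hi
    rw [Finset.mem_Ico, Nat.ceil_le, Nat.lt_ceil]
    exact hS i hi
  have h1 := Finset.card_le_card hsub
  rw [Nat.card_Ico] at h1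
  rcases le_or_gt B 0 with hB | hB
  · have h2 : ⌈B⌉₊ = 0 := Nat.ceil_eq_zero.2 hB
    rw [h2] at h1
    have h3 : S.card = 0 := by omega
    rw [h3]
    push_cast
    linarith
  · rcases le_total ⌈A⌉₊ ⌈B⌉₊ with hAB | hAB
    · have h2 : (S.card : ℝ) ≤ (⌈B⌉₊ : ℝ) - ⌈A⌉₊ := by
        rw [← Nat.cast_sub hAB]
        exact_mod_cast h1
      have h3 := Nat.ceil_lt_add_one hB.le
      have h4 := Nat.le_ceil A
      linarith
    · have h3 : S.card = 0 := by omega
      rw [h3]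
      push_cast
      linarith

theorem LIdx_mem_JJ {n : ℕ} {E b : ℝ} {i : ℕ} :
    i ∈ JJ n E b ↔ i < n ∧ (n : ℝ) * Fsc (E - b) ≤ i ∧ (i : ℝ) < n * Fsc (E + b) := by
  unfold JJ
  rw [Finset.mem_filter, Finset.mem_range]

theorem bad_card {n : ℕ} {x : ℕ → ℝ} (hx : ∀ i j, i ≤ j → j < n → x i ≤ x j) (E b r : ℝ)
    (hb : 0 < b) (hr : 0 < r) :
    ((badI n (JJ n E b) E b r x).card : ℝ) ≤
      |(cN n x (E - b + r) : ℝ) - n * Fsc (E - b + r)|
      + |(cN n x (E + b - r) : ℝ) - n * Fsc (E + b - r)|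
      + |(cN n x (E - b - 2 * r) : ℝ) - n * Fsc (E - b - 2 * r)|
      + |(cN n x (E + b + r) : ℝ) - n * Fsc (E + b + r)| + 5 * (n * r) + 4 := by
  classical
  have hn : (0 : ℝ) ≤ n := Nat.cast_nonneg n
  have hlip : ∀ u v c : ℝ, |u - v| ≤ c → (n : ℝ) * Fsc u ≤ n * Fsc v + n * c := by
    intro u v c h
    have h1 := (fsc_lip u v).trans h
    rw [abs_le] at h1
    nlinarith
  set S1 := (Finset.range n).filter fun i : ℕ =>
    (n : ℝ) * Fsc (E - b) ≤ i ∧ (i : ℝ) < (cN n x (E - b + r) : ℝ) with hS1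
  set S2 := (Finset.range n).filter fun i : ℕ =>
    (cN n x (E + b - r) : ℝ) ≤ i ∧ (i : ℝ) < n * Fsc (E + b) with hS2
  set S3 := (Finset.range n).filter fun i : ℕ =>
    (cN n x (E - b - 2 * r) : ℝ) ≤ i ∧ (i : ℝ) < n * Fsc (E - b) with hS3
  set S4 := (Finset.range n).filter fun i : ℕ =>
    (n : ℝ) * Fsc (E + b) ≤ i ∧ (i : ℝ) < (cN n x (E + b + r) : ℝ) with hS4
  have hsub : badI n (JJ n E b) E b r x ⊆ ((S1 ∪ S2) ∪ (S3 ∪ S4)) := by
    intro i hi
    unfold badI at hi
    rw [Finset.mem_filter, Finset.mem_range] at hi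
    obtain ⟨hin, hi⟩ := hi
    simp only [Finset.mem_union, hS1, hS2, hS3, hS4, Finset.mem_filter, Finset.mem_range]
    rcases hi with ⟨hJ, h | h⟩ | ⟨hJ, h1, h2⟩
    · left; left
      refine ⟨hin, (LIdx_mem_JJ.1 hJ).2.1, ?_⟩
      exact_mod_cast (le_iff_cN hx _ hin).1 h.le
    · left; right
      refine ⟨hin, ?_, (LIdx_mem_JJ.1 hJ).2.2⟩
      have : ¬ i < cN n x (E + b - r) := fun hc => absurd ((le_iff_cN hx _ hin).2 hc) (not_le.2 h)
      exact_mod_cast not_lt.1 this
    · right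
      rw [LIdx_mem_JJ] at hJ
      by_cases hc : (n : ℝ) * Fsc (E - b) ≤ i
      · right
        have h3 : (n : ℝ) * Fsc (E + b) ≤ i := by
          by_contra h4
          exact hJ ⟨hin, hc, not_le.1 h4⟩
        refine ⟨hin, h3, ?_⟩
        exact_mod_cast (le_iff_cN hx _ hin).1 h2
      · left
        refine ⟨hin, ?_, not_le.1 hc⟩
        have : ¬ i < cN n x (E - b - 2 * r) := fun hc =>
          absurd ((le_iff_cN hx _ hin).2 hc) (not_le.2 (by linarith))
        exact_mod_cast not_lt.1 this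
  have hcard := (Finset.card_le_card hsub).trans ((Finset.card_union_le _ _).trans
    (add_le_add (Finset.card_union_le _ _) (Finset.card_union_le _ _)))
  have hcard' : ((badI n (JJ n E b) E b r x).card : ℝ) ≤
      (S1.card : ℝ) + S2.card + (S3.card + S4.card) := by exact_mod_cast hcard
  have hnr : 0 ≤ (n : ℝ) * r := by positivity
  have b1 : (S1.card : ℝ) ≤ |(cN n x (E - b + r) : ℝ) - n * Fsc (E - b + r)| + n * r + 1 := by
    refine card_real_Ico n _ _ _ (by positivity) ?_ S1 (fun i hi => (Finset.mem_filter.1 hi).2)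
    have h1 := hlip (E - b + r) (E - b) r (by rw [show E - b + r - (E - b) = r by ring, abs_of_pos hr])
    have h2 := le_abs_self ((cN n x (E - b + r) : ℝ) - n * Fsc (E - b + r))
    linarith
  have b2 : (S2.card : ℝ) ≤ |(cN n x (E + b - r) : ℝ) - n * Fsc (E + b - r)| + n * r + 1 := by
    refine card_real_Ico n _ _ _ (by positivity) ?_ S2 (fun i hi => (Finset.mem_filter.1 hi).2)
    have h1 := hlip (E + b) (E + b - r) r
      (by rw [show E + b - (E + b - r) = r by ring, abs_of_pos hr])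
    have h2 := neg_abs_le ((cN n x (E + b - r) : ℝ) - n * Fsc (E + b - r))
    linarith
  have b3 : (S3.card : ℝ) ≤ |(cN n x (E - b - 2 * r) : ℝ) - n * Fsc (E - b - 2 * r)|
      + n * (2 * r) + 1 := by
    refine card_real_Ico n _ _ _ (by positivity) ?_ S3 (fun i hi => (Finset.mem_filter.1 hi).2)
    have h1 := hlip (E - b) (E - b - 2 * r) (2 * r)
      (by rw [show E - b - (E - b - 2 * r) = 2 * r by ring, abs_of_pos (by linarith)])
    have h2 := neg_abs_le ((cN n x (E - b - 2 * r) : ℝ) - n * Fsc (E - b - 2 * r))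
    linarith
  have b4 : (S4.card : ℝ) ≤ |(cN n x (E + b + r) : ℝ) - n * Fsc (E + b + r)| + n * r + 1 := by
    refine card_real_Ico n _ _ _ (by positivity) ?_ S4 (fun i hi => (Finset.mem_filter.1 hi).2)
    have h1 := hlip (E + b + r) (E + b) r
      (by rw [show E + b + r - (E + b) = r by ring, abs_of_pos hr])
    have h2 := le_abs_self ((cN n x (E + b + r) : ℝ) - n * Fsc (E + b + r))
    linarith
  linarith

end Pool.Agent.ZR

end

section

/-!
# ZBL/M3 : the Hessian of an invariant function at diagonal points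

`u` is `CB 2` and `Inv`, `i ≠ j`, `k i = pd (i,i) u (dg d)`.
`pdpd_swap`: `w = pd (i,j) u` is `CB 1`; as functions `pd (i,j) u = pd (j,i) u` (`pd_swap`), and
`w (X + s A) = w X` for `A = single (i,j) 1 - single (j,i) 1` (`pd_congr`, `sya (X + s A) = sya X`), so
`pd (j,i) w = pd (i,j) w`.
`hess_diag`: let `R_s` be the rotation by the angle `s` in the coordinate plane `(i,j)`:
`R i i = R j j = cos s`, `R i j = - sin s`, `R j i = sin s`, identity elsewhere (`R` orthogonal).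
Put `D_s = R_s diag(d) R_sᵀ` and `X_s` = half of the array of `D_s` (`sya X_s = D_s = R_s sya (dg d) R_sᵀ`).
By `pd_conj` with `(dg d, X_s)` and `grad_off`:
  `pd (i,j) u X_s = ∑_k R i k * R j k * k_k = cos s sin s (k_i - k_j)`
(terms `k = i`: `cos s * sin s`, `k = j`: `(-sin s) * cos s`, all others vanish).
Differentiate at `s = 0`: the right side has derivative `k_i - k_j`.  Left side: chain rule; `X_s` has
entries `(i,i): (d_i cos² + d_j sin²)/2`, `(j,j): (d_i sin² + d_j cos²)/2`,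
`(i,j)` and `(j,i)`: `(d_i - d_j) cos s sin s / 2`, all others constant, so `X_0 = dg d` and
`X'_0 = ((d_i - d_j)/2) (single (i,j) 1 + single (j,i) 1)`; hence the left derivative is
`((d_i - d_j)/2) (pd (i,j) w + pd (j,i) w)(dg d) = (d_i - d_j) pd (i,j) (pd (i,j) u) (dg d)`.
(One may avoid the matrix `R_s`: any explicit family with these entries is fine.)
`hess_lower`: keep in `HH u (dg d)` only the four pairs built from `(i,j)` and `(j,i)` for every
`i < j` (distinct pairs give disjoint families); each of the four terms equals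
`(pd (i,j) (pd (i,j) u) (dg d))² = ((k_i - k_j)/(d_i - d_j))²` if `d_i ≠ d_j`; if `d_i = d_j` the term
of `QF` is `0`.  Sum over `i < j`.
-/


open MeasureTheory ProbabilityTheory Matrix

namespace Pool.Agent.ZR.BL

variable {n : ℕ}

theorem pdpd_swap {u : (Fin n × Fin n → ℝ) → ℝ} (hd : CB 2 u) (hu : Inv u) (i j : Fin n)
    (X : Fin n × Fin n → ℝ) :
    pd (j, i) (pd (i, j) u) X = pd (i, j) (pd (i, j) u) X ∧
    pd (i, j) (pd (j, i) u) X = pd (i, j) (pd (i, j) u) X ∧
    pd (j, i) (pd (j, i) u) X = pd (i, j) (pd (i, j) u) X := by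
  have hdu : Differentiable ℝ u := hd.2.1
  have hw : Differentiable ℝ (pd (i, j) u) := (hd.2.2 (i, j)).2.1
  have key : pd (j, i) (pd (i, j) u) X = pd (i, j) (pd (i, j) u) X := by
    set A : Fin n × Fin n → ℝ := Pi.single (i, j) 1 - Pi.single (j, i) 1 with hA
    have hsy : ∀ s : ℝ, sya (X + s • A) = sya X := by
      intro s
      ext a b
      have hAs : A (a, b) + A (b, a) = 0 := by
        have e1 : (b = i ∧ a = j) = (a = j ∧ b = i) := propext and_comm
        have e2 : (b = j ∧ a = i) = (a = i ∧ b = j) := propext and_comm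
        simp only [hA, Pi.sub_apply, Pi.single_apply, Prod.mk.injEq, e1, e2]
        ring
      simp only [sya, Matrix.of_apply, Pi.add_apply, Pi.smul_apply, smul_eq_mul]
      linear_combination s * hAs
    have hconst : ∀ s : ℝ, pd (i, j) u (X + s • A) = pd (i, j) u X := fun s =>
      pd_congr hdu hu (hsy s) (i, j)
    have h1 : HasDerivAt (fun s : ℝ => X + s • A) A 0 := by
      have := ((hasDerivAt_id (0 : ℝ)).smul_const A).const_add X
      simpa using this
    have h2 : HasDerivAt (fun s : ℝ => pd (i, j) u (X + s • A))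
        (fderiv ℝ (pd (i, j) u) X A) 0 := by
      have h3 : HasFDerivAt (pd (i, j) u) (fderiv ℝ (pd (i, j) u) X) (X + (0 : ℝ) • A) := by
        rw [zero_smul, add_zero]
        exact (hw X).hasFDerivAt
      exact h3.comp_hasDerivAt (0 : ℝ) h1
    have h3 : (fun s : ℝ => pd (i, j) u (X + s • A)) = fun _ => pd (i, j) u X := funext hconst
    rw [h3] at h2
    have h4 := h2.unique (hasDerivAt_const (0 : ℝ) (pd (i, j) u X))
    rw [hA, map_sub, sub_eq_zero] at h4
    exact h4.symm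
  refine ⟨key, ?_, ?_⟩
  · rw [← pd_swap hdu hu i j]
  · rw [← pd_swap hdu hu i j]
    exact key

section rot

variable (i j : Fin n)

private noncomputable def rP : Matrix (Fin n) (Fin n) ℝ :=
  Matrix.single i i 1 + Matrix.single j j 1

private noncomputable def rQ : Matrix (Fin n) (Fin n) ℝ :=
  Matrix.single j i 1 - Matrix.single i j 1

private noncomputable def rR (s : ℝ) : Matrix (Fin n) (Fin n) ℝ :=
  1 + (Real.cos s - 1) • rP i j + Real.sin s • rQ i j

variable {i j}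

private theorem rPP (hij : i ≠ j) : rP i j * rP i j = rP i j := by
  simp [rP, Matrix.add_mul, Matrix.mul_add, Matrix.single_mul_single_of_ne, hij, hij.symm]

private theorem rPQ (hij : i ≠ j) : rP i j * rQ i j = rQ i j := by
  simp [rP, rQ, Matrix.add_mul, Matrix.mul_sub, Matrix.single_mul_single_of_ne, hij, hij.symm]

private theorem rQP (hij : i ≠ j) : rQ i j * rP i j = rQ i j := by
  simp [rP, rQ, Matrix.sub_mul, Matrix.mul_add, Matrix.single_mul_single_of_ne, hij, hij.symm]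
  abel

private theorem rQQ (hij : i ≠ j) : rQ i j * rQ i j = -rP i j := by
  simp [rP, rQ, Matrix.sub_mul, Matrix.mul_sub, Matrix.single_mul_single_of_ne, hij, hij.symm]
  abel

private theorem rRt (s : ℝ) :
    (rR i j s)ᵀ = 1 + (Real.cos s - 1) • rP i j - Real.sin s • rQ i j := by
  have h1 : (rP i j)ᵀ = rP i j := by simp [rP]
  have h2 : (rQ i j)ᵀ = -rQ i j := by simp [rQ]
  rw [rR, Matrix.transpose_add, Matrix.transpose_add, Matrix.transpose_smul,
    Matrix.transpose_smul, Matrix.transpose_one, h1, h2, smul_neg]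
  exact (sub_eq_add_neg _ _).symm

private theorem rR1 (hij : i ≠ j) (s : ℝ) : rR i j s * (rR i j s)ᵀ = 1 := by
  rw [rRt, rR]
  have h0 : (2 * (Real.cos s - 1) + (Real.cos s - 1) ^ 2 + Real.sin s ^ 2) = 0 := by
    have := Real.sin_sq_add_cos_sq s
    linear_combination this
  have h1 : (1 + (Real.cos s - 1) • rP i j + Real.sin s • rQ i j)
      * (1 + (Real.cos s - 1) • rP i j - Real.sin s • rQ i j)
      = 1 + (2 * (Real.cos s - 1) + (Real.cos s - 1) ^ 2 + Real.sin s ^ 2) • rP i j := by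
    simp only [Matrix.mul_add, Matrix.add_mul, Matrix.mul_sub, Matrix.one_mul, Matrix.mul_one,
      Matrix.smul_mul, Matrix.mul_smul, rPP hij, rPQ hij, rQP hij, rQQ hij]
    module
  rw [h1, h0, zero_smul, add_zero]

private theorem rR2 (hij : i ≠ j) (s : ℝ) : (rR i j s)ᵀ * rR i j s = 1 := by
  rw [rRt, rR]
  have h0 : (2 * (Real.cos s - 1) + (Real.cos s - 1) ^ 2 + Real.sin s ^ 2) = 0 := by
    have := Real.sin_sq_add_cos_sq s
    linear_combination this
  have h1 : (1 + (Real.cos s - 1) • rP i j - Real.sin s • rQ i j)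
      * (1 + (Real.cos s - 1) • rP i j + Real.sin s • rQ i j)
      = 1 + (2 * (Real.cos s - 1) + (Real.cos s - 1) ^ 2 + Real.sin s ^ 2) • rP i j := by
    simp only [Matrix.mul_add, Matrix.add_mul, Matrix.sub_mul, Matrix.one_mul, Matrix.mul_one,
      Matrix.smul_mul, Matrix.mul_smul, rPP hij, rPQ hij, rQP hij, rQQ hij]
    module
  rw [h1, h0, zero_smul, add_zero]

private theorem rR_entry (s : ℝ) (a b : Fin n) :
    rR i j s a b = (1 : Matrix (Fin n) (Fin n) ℝ) a b + (Real.cos s - 1) * rP i j a b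
      + Real.sin s * rQ i j a b := by
  simp [rR, Matrix.add_apply]

private theorem rR_zero (a b : Fin n) :
    rR i j 0 a b = (1 : Matrix (Fin n) (Fin n) ℝ) a b := by
  rw [rR_entry]; simp

private theorem rR_deriv (a b : Fin n) :
    HasDerivAt (fun s => rR i j s a b) (rQ i j a b) 0 := by
  have h1 := ((((Real.hasDerivAt_cos 0).sub_const 1).mul_const (rP i j a b)).const_add
    ((1 : Matrix (Fin n) (Fin n) ℝ) a b)).add ((Real.hasDerivAt_sin 0).mul_const (rQ i j a b))
  have h2 : (fun s => rR i j s a b) = fun s => (1 : Matrix (Fin n) (Fin n) ℝ) a b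
      + (Real.cos s - 1) * rP i j a b + Real.sin s * rQ i j a b := by
    funext s; exact rR_entry s a b
  rw [h2]
  refine h1.congr_deriv ?_
  simp

/-- half of the array of `R_s diag(d) R_sᵀ` -/
private noncomputable def rX (i j : Fin n) (d : Fin n → ℝ) (s : ℝ) : Fin n × Fin n → ℝ :=
  fun p => (∑ k, rR i j s p.1 k * d k * rR i j s p.2 k) / 2

private theorem rX_sya (d : Fin n → ℝ) (s : ℝ) :
    sya (rX i j d s) = rR i j s * Matrix.diagonal d * (rR i j s)ᵀ := by
  ext a b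
  simp only [sya, rX, Matrix.of_apply]
  rw [Matrix.mul_apply]
  simp only [Matrix.mul_diagonal, Matrix.transpose_apply]
  have h1 : ∑ k, rR i j s b k * d k * rR i j s a k = ∑ k, rR i j s a k * d k * rR i j s b k :=
    Finset.sum_congr rfl fun k _ => by ring
  rw [h1]
  ring

private theorem rX_zero (d : Fin n → ℝ) : rX i j d 0 = dg d := by
  ext p
  obtain ⟨a, b⟩ := p
  simp only [rX, dg, rR_zero, Matrix.one_apply]
  by_cases hab : a = b
  · subst hab
    simp
  · simp [hab, Finset.sum_ite_eq, eq_comm]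

private theorem rX_deriv (d : Fin n → ℝ) :
    HasDerivAt (fun s => rX i j d s) (fun p => rQ i j p.1 p.2 * (d p.2 - d p.1) / 2) 0 := by
  rw [hasDerivAt_pi]
  rintro ⟨a, b⟩
  have h1 : ∀ k, HasDerivAt (fun s => rR i j s a k * d k * rR i j s b k)
      (rQ i j a k * d k * rR i j 0 b k + rR i j 0 a k * d k * rQ i j b k) 0 := fun k =>
    ((rR_deriv (i := i) (j := j) a k).mul_const (d k)).mul (rR_deriv (i := i) (j := j) b k)
  have h2 := (HasDerivAt.fun_sum (u := Finset.univ) fun k _ => h1 k).div_const 2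
  refine h2.congr_deriv ?_
  simp only [rR_zero, Matrix.one_apply]
  have h3 : rQ i j b a = -rQ i j a b := by
    have e1 : (j = b ∧ i = a) = (i = a ∧ j = b) := propext and_comm
    have e2 : (i = b ∧ j = a) = (j = a ∧ i = b) := propext and_comm
    simp only [rQ, Matrix.sub_apply, Matrix.single_apply, e1, e2]
    ring
  have h4 : ∑ k, (rQ i j a k * d k * (if b = k then (1 : ℝ) else 0)
      + (if a = k then (1 : ℝ) else 0) * d k * rQ i j b k) = rQ i j a b * d b + d a * rQ i j b a := by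
    rw [Finset.sum_add_distrib]
    simp
  rw [h4, h3]
  ring

end rot

theorem hess_diag {u : (Fin n × Fin n → ℝ) → ℝ} (hd : CB 2 u) (hu : Inv u) (d : Fin n → ℝ)
    {i j : Fin n} (hij : i ≠ j) :
    (d i - d j) * pd (i, j) (pd (i, j) u) (dg d)
      = pd (i, i) u (dg d) - pd (j, j) u (dg d) := by
  have hdu : Differentiable ℝ u := hd.2.1
  have hw : Differentiable ℝ (pd (i, j) u) := (hd.2.2 (i, j)).2.1
  -- the value along the path
  have hval : ∀ s : ℝ, pd (i, j) u (rX i j d s)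
      = Real.cos s * Real.sin s * (pd (i, i) u (dg d) - pd (j, j) u (dg d)) := by
    intro s
    have h1 := pd_conj hdu hu (rR2 hij s) (rR1 hij s) (X := dg d) (X' := rX i j d s)
      (by rw [rX_sya, sya_dg]) i j
    rw [h1]
    have h2 : ∀ k, ∑ l, rR i j s i k * rR i j s j l * pd (k, l) u (dg d)
        = rR i j s i k * rR i j s j k * pd (k, k) u (dg d) := by
      intro k
      rw [Finset.sum_eq_single k]
      · intro l _ hl
        rw [grad_off hdu hu d (Ne.symm hl), mul_zero]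
      · intro h; exact absurd (Finset.mem_univ _) h
    simp only [h2]
    rw [Finset.sum_eq_add i j hij]
    · simp only [rR_entry, rP, rQ, Matrix.add_apply, Matrix.sub_apply, Matrix.single_apply,
        Matrix.one_apply]
      simp [hij, hij.symm]
      ring
    · intro k _ hk
      have h3 : rR i j s i k = 0 := by
        simp only [rR_entry, rP, rQ, Matrix.add_apply, Matrix.sub_apply, Matrix.single_apply,
          Matrix.one_apply]
        simp [hij, hij.symm, hk.1.symm, hk.2.symm, hk.1, hk.2]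
      rw [h3, zero_mul, zero_mul]
    · intro h; exact absurd (Finset.mem_univ _) h
    · intro h; exact absurd (Finset.mem_univ _) h
  -- derivative of the right side
  have hR : HasDerivAt (fun s : ℝ => pd (i, j) u (rX i j d s))
      (pd (i, i) u (dg d) - pd (j, j) u (dg d)) 0 := by
    have h1 := ((Real.hasDerivAt_cos 0).mul (Real.hasDerivAt_sin 0)).mul_const
      (pd (i, i) u (dg d) - pd (j, j) u (dg d))
    have h2 : (fun s : ℝ => pd (i, j) u (rX i j d s)) = fun s => Real.cos s * Real.sin s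
        * (pd (i, i) u (dg d) - pd (j, j) u (dg d)) := funext hval
    rw [h2]
    refine h1.congr_deriv ?_
    simp
  -- derivative of the left side
  have hL : HasDerivAt (fun s : ℝ => pd (i, j) u (rX i j d s))
      (fderiv ℝ (pd (i, j) u) (dg d) (fun p => rQ i j p.1 p.2 * (d p.2 - d p.1) / 2)) 0 := by
    have h3 : HasFDerivAt (pd (i, j) u) (fderiv ℝ (pd (i, j) u) (dg d)) (rX i j d 0) := by
      rw [rX_zero]
      exact (hw _).hasFDerivAt
    exact h3.comp_hasDerivAt (0 : ℝ) (rX_deriv d)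
  have heq := hL.unique hR
  rw [fderiv_eq_sum] at heq
  have hne : ((i, j) : Fin n × Fin n) ≠ (j, i) := by
    intro h; exact hij (congrArg Prod.fst h)
  rw [Finset.sum_eq_add (i, j) (j, i) hne] at heq
  · rw [← heq, (pdpd_swap hd hu i j (dg d)).1]
    simp only [rQ, Matrix.sub_apply, Matrix.single_apply]
    simp [hij, hij.symm]
    ring
  · rintro ⟨a, b⟩ _ ⟨h1, h2⟩
    have h3 : rQ i j a b = 0 := by
      simp only [rQ, Matrix.sub_apply, Matrix.single_apply]
      rw [if_neg, if_neg, sub_zero]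
      · rintro ⟨rfl, rfl⟩; exact h1 rfl
      · rintro ⟨rfl, rfl⟩; exact h2 rfl
    simp only [h3]
    ring
  · intro h; exact absurd (Finset.mem_univ _) h
  · intro h; exact absurd (Finset.mem_univ _) h

theorem hess_lower {u : (Fin n × Fin n → ℝ) → ℝ} (hd : CB 2 u) (hu : Inv u) (d : Fin n → ℝ) :
    4 * QF d (fun i => pd (i, i) u (dg d)) ≤ HH u (dg d) := by
  set X := dg d with hX
  set h : Fin n × Fin n → ℝ := fun p => (pd p (pd p u) X) ^ 2 with hh
  set T : Fin n × Fin n → ℝ := fun p => ∑ q, (pd p (pd q u) X) ^ 2 with hT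
  set F : Finset (Fin n × Fin n) :=
    (Finset.univ : Finset (Fin n × Fin n)).filter (fun p => p.1 < p.2) with hF
  have hT0 : ∀ p, 0 ≤ T p := fun p => Finset.sum_nonneg fun q _ => sq_nonneg _
  have hne : ∀ p ∈ F, p ≠ p.swap := by
    intro p hp heq
    rw [hF, Finset.mem_filter] at hp
    have : p.1 = p.2 := congrArg Prod.fst heq
    exact absurd this hp.2.ne
  -- each row
  have hrow : ∀ p ∈ F, 2 * h p ≤ T p ∧ 2 * h p ≤ T p.swap := by
    intro p hp
    obtain ⟨a, b⟩ := p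
    obtain ⟨e1, e2, e3⟩ := pdpd_swap hd hu a b X
    have hpn : ((a, b) : Fin n × Fin n) ≠ (b, a) := hne _ hp
    constructor
    · have := Finset.sum_le_univ_sum_of_nonneg (s := {((a, b) : Fin n × Fin n), (b, a)})
        (f := fun q => (pd (a, b) (pd q u) X) ^ 2) (fun q => sq_nonneg _)
      rw [Finset.sum_pair hpn, e2] at this
      simp only [hh, hT]
      linarith
    · have := Finset.sum_le_univ_sum_of_nonneg (s := {((a, b) : Fin n × Fin n), (b, a)})
        (f := fun q => (pd (b, a) (pd q u) X) ^ 2) (fun q => sq_nonneg _)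
      rw [Finset.sum_pair hpn, e1, e3] at this
      simp only [hh, hT, Prod.swap_prod_mk]
      linarith
  -- each term of QF
  have hq : ∀ p ∈ F, ((pd (p.1, p.1) u X - pd (p.2, p.2) u X) / (d p.1 - d p.2)) ^ 2 ≤ h p := by
    intro p hp
    obtain ⟨a, b⟩ := p
    have hab : a ≠ b := by
      rw [hF, Finset.mem_filter] at hp
      exact hp.2.ne
    have e := hess_diag hd hu d hab
    simp only [hh]
    by_cases h0 : d a - d b = 0
    · rw [h0, div_zero]
      simp only [ne_eq, OfNat.ofNat_ne_zero, not_false_eq_true, zero_pow]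
      exact sq_nonneg _
    · rw [← e, mul_div_cancel_left₀ _ h0]
  have hsw : ∑ p ∈ F, T p.swap
      = ∑ p ∈ (Finset.univ : Finset (Fin n × Fin n)).filter (fun p => p.2 < p.1), T p := by
    refine Finset.sum_nbij' Prod.swap Prod.swap ?_ ?_ ?_ ?_ ?_
    · intro p hp
      rw [hF, Finset.mem_filter] at hp
      rw [Finset.mem_filter]
      exact ⟨Finset.mem_univ _, hp.2⟩
    · intro p hp
      rw [Finset.mem_filter] at hp
      rw [hF, Finset.mem_filter]
      exact ⟨Finset.mem_univ _, hp.2⟩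
    · intro p _; exact Prod.swap_swap p
    · intro p _; exact Prod.swap_swap p
    · intro p _; rfl
  have hdis : Disjoint F ((Finset.univ : Finset (Fin n × Fin n)).filter (fun p => p.2 < p.1)) := by
    rw [Finset.disjoint_left]
    intro p hp hp2
    rw [hF, Finset.mem_filter] at hp
    rw [Finset.mem_filter] at hp2
    exact lt_asymm hp.2 hp2.2
  calc 4 * QF d (fun i => pd (i, i) u X)
      = ∑ p ∈ F, 4 * ((pd (p.1, p.1) u X - pd (p.2, p.2) u X) / (d p.1 - d p.2)) ^ 2 := by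
        rw [QF, Finset.mul_sum]
    _ ≤ ∑ p ∈ F, (T p + T p.swap) := by
        refine Finset.sum_le_sum fun p hp => ?_
        have h1 := hrow p hp
        have h2 := hq p hp
        linarith [h1.1, h1.2]
    _ = ∑ p ∈ F ∪ (Finset.univ : Finset (Fin n × Fin n)).filter (fun p => p.2 < p.1), T p := by
        rw [Finset.sum_add_distrib, hsw, Finset.sum_union hdis]
    _ ≤ ∑ p, T p := Finset.sum_le_univ_sum_of_nonneg hT0
    _ = HH u X := rfl

end Pool.Agent.ZR.BL

end

section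

/-!
# ZR, part G: the `G`-list, result.

`∑ alt8 * xiG = ∑_ij (∑_kl alt8) gq(ij) - ∑_ijk (∑_l alt8) gq(jk) + ∑ alt8 gq(kl)
  - ∑_ijl (∑_k alt8) gq(li)`; insert `sum_kl_alt8`, `sum_l_alt8`, `sum_k_alt8`; the main term is
`n² ∑_ij (G_ji² + G_jj G_ii) = n² (tr(G G) + (tr G)²)` (symmetry of `G`); then `r1_le .. r4_le`.
-/


open MeasureTheory ProbabilityTheory Matrix

namespace Pool.Agent.ZR.G

variable {n : ℕ}

theorem rlist {M G : Matrix (Fin n) (Fin n) ℂ} (hM : IsSg M) (hG : IsRs G) (L γ h τ d : ℝ)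
    (hL : OpLe M L) (hγ : EnLe G γ) (hγ0 : 0 ≤ γ) (hh : 0 ≤ h) (hs : hs2 G ≤ h ^ 2)
    (hτ : NuLe G τ) (hd : ∑ j, ‖(M * G) j j‖ ^ 2 ≤ d ^ 2) :
    ‖(∑ i, ∑ j, ∑ k, ∑ l, alt8 M i j k l * xiG G i j k l)
        - (n : ℂ) ^ 2 * ((G * G).trace + G.trace ^ 2)‖
      ≤ L ^ 2 * (γ * n * h + γ ^ 2 * (n : ℝ) ^ 2 + 7 * (n * γ * τ) + 8 * h ^ 2 + τ ^ 2)
        + 2 * (n * d ^ 2) := by
  have hexp : (∑ i, ∑ j, ∑ k, ∑ l, alt8 M i j k l * xiG G i j k l)
        - (n : ℂ) ^ 2 * ((G * G).trace + G.trace ^ 2)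
      = (∑ i, ∑ j, M i j * (M * M * M) j i * gq G j i i j)
        - (∑ i, ∑ j, ∑ k, (1 - M i j * M j k) * ((n : ℂ) - (M * M) k i) * gq G j i j k)
        + (∑ i, ∑ j, ∑ k, ∑ l, alt8 M i j k l * gq G j i k l)
        - ∑ i, ∑ j, ∑ l, (1 - M i j * M l i) * ((n : ℂ) - (M * M) j l) * gq G j i l i := by
    have e0 : ∀ i j k l, alt8 M i j k l * xiG G i j k l
        = alt8 M i j k l * gq G j i i j - alt8 M i j k l * gq G j i j k
          + alt8 M i j k l * gq G j i k l - alt8 M i j k l * gq G j i l i := by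
      intro i j k l
      unfold xiG
      ring
    have e1 : (∑ i, ∑ j, ∑ k, ∑ l, alt8 M i j k l * xiG G i j k l)
        = (∑ i, ∑ j, ∑ k, ∑ l, alt8 M i j k l * gq G j i i j)
          - (∑ i, ∑ j, ∑ k, ∑ l, alt8 M i j k l * gq G j i j k)
          + (∑ i, ∑ j, ∑ k, ∑ l, alt8 M i j k l * gq G j i k l)
          - (∑ i, ∑ j, ∑ k, ∑ l, alt8 M i j k l * gq G j i l i) := by
      simp only [e0, Finset.sum_add_distrib, Finset.sum_sub_distrib]
    have e2 : (∑ i, ∑ j, ∑ k, ∑ l, alt8 M i j k l * gq G j i i j)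
        = (n : ℂ) ^ 2 * ((G * G).trace + G.trace ^ 2)
          + ∑ i, ∑ j, M i j * (M * M * M) j i * gq G j i i j := by
      have f1 : ∀ i j, ∑ k, ∑ l, alt8 M i j k l * gq G j i i j
          = (n : ℂ) ^ 2 * gq G j i i j + M i j * (M * M * M) j i * gq G j i i j := by
        intro i j
        simp only [← Finset.sum_mul]
        rw [sum_kl_alt8 hM]
        ring
      have f2 : ∑ i, ∑ j, gq G j i i j = (G * G).trace + G.trace ^ 2 := by
        have f3 : (G * G).trace = ∑ i, ∑ j, G j i * G j i := by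
          rw [Matrix.trace]
          refine Finset.sum_congr rfl fun i _ => ?_
          rw [Matrix.diag_apply, Matrix.mul_apply]
          refine Finset.sum_congr rfl fun j _ => ?_
          rw [hG.sym i j]
        have f4 : G.trace ^ 2 = ∑ i, ∑ j, G j j * G i i := by
          rw [sq, Matrix.trace, Finset.sum_mul_sum]
          refine Finset.sum_congr rfl fun i _ => Finset.sum_congr rfl fun j _ => ?_
          rw [Matrix.diag_apply, Matrix.diag_apply, mul_comm]
        rw [f3, f4, ← Finset.sum_add_distrib]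
        refine Finset.sum_congr rfl fun i _ => ?_
        rw [← Finset.sum_add_distrib]
        rfl
      rw [← f2]
      simp only [f1, Finset.sum_add_distrib, Finset.mul_sum]
    have e3 : (∑ i, ∑ j, ∑ k, ∑ l, alt8 M i j k l * gq G j i j k)
        = ∑ i, ∑ j, ∑ k, (1 - M i j * M j k) * ((n : ℂ) - (M * M) k i) * gq G j i j k := by
      refine Finset.sum_congr rfl fun i _ => Finset.sum_congr rfl fun j _ =>
        Finset.sum_congr rfl fun k _ => ?_
      rw [← Finset.sum_mul, sum_l_alt8 hM]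
    have e4 : (∑ i, ∑ j, ∑ k, ∑ l, alt8 M i j k l * gq G j i l i)
        = ∑ i, ∑ j, ∑ l, (1 - M i j * M l i) * ((n : ℂ) - (M * M) j l) * gq G j i l i := by
      refine Finset.sum_congr rfl fun i _ => Finset.sum_congr rfl fun j _ => ?_
      rw [Finset.sum_comm]
      refine Finset.sum_congr rfl fun l _ => ?_
      rw [← Finset.sum_mul, sum_k_alt8 hM]
    rw [e1, e2, e3, e4]
    ring
  rw [hexp]
  have b1 := r1_le hM hG L γ h hL hγ hγ0 hh hs
  have b2 := r2_le hM hG L γ h τ d hL hγ hγ0 hh hs hτ hd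
  have b3 := r3_le hM hG L γ h τ hL hγ hγ0 hh hs hτ
  have b4 := r4_le hM hG L γ h τ d hL hγ hγ0 hh hs hτ hd
  refine (norm_sub_le _ _).trans ?_
  have c1 := norm_add_le ((∑ i, ∑ j, M i j * (M * M * M) j i * gq G j i i j)
        - (∑ i, ∑ j, ∑ k, (1 - M i j * M j k) * ((n : ℂ) - (M * M) k i) * gq G j i j k))
        (∑ i, ∑ j, ∑ k, ∑ l, alt8 M i j k l * gq G j i k l)
  have c2 := norm_sub_le (∑ i, ∑ j, M i j * (M * M * M) j i * gq G j i i j)
        (∑ i, ∑ j, ∑ k, (1 - M i j * M j k) * ((n : ℂ) - (M * M) k i) * gq G j i j k)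
  refine (add_le_add (c1.trans (add_le_add (c2.trans (add_le_add b1 b2)) b3)) b4).trans
    (le_of_eq ?_)
  ring

end Pool.Agent.ZR.G

end

section

/-!
# ZR, part G: the `V`-list, result.  Same assembly as `rlist`:
`∑ alt8 G_ji xiV = 2 [∑_ij (∑_kl alt8) G_ji V_ij - ∑_ijk (∑_l alt8) G_ji V_jk + ∑ alt8 G_ji V_kl
 - ∑_ijl (∑_k alt8) G_ji V_li]`, main term `2 n² ∑_ij G_ji V_ij = 2 n² tr(G V)`.
-/


open MeasureTheory ProbabilityTheory Matrix

namespace Pool.Agent.ZR.G

variable {n : ℕ}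

theorem vlist {M G V : Matrix (Fin n) (Fin n) ℂ} (hM : IsSg M) (hG : IsRs G) (hV : IsRs V)
    (L γ h hv τ τv d dv : ℝ) (hL : OpLe M L) (hγ : EnLe G γ) (hγ0 : 0 ≤ γ)
    (hh : 0 ≤ h) (hs : hs2 G ≤ h ^ 2) (hhv : 0 ≤ hv) (hsv : hs2 V ≤ hv ^ 2)
    (hτ : NuLe G τ) (hτv : NuLe V τv) (hd0 : 0 ≤ d) (hdv0 : 0 ≤ dv)
    (hd : ∑ j, ‖(M * G) j j‖ ^ 2 ≤ d ^ 2) (hdv : ∑ j, ‖(M * V) j j‖ ^ 2 ≤ dv ^ 2) :
    ‖(∑ i, ∑ j, ∑ k, ∑ l, alt8 M i j k l * (G j i * xiV V i j k l))
        - 2 * (n : ℂ) ^ 2 * (G * V).trace‖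
      ≤ 2 * (L ^ 2 * (γ * n * hv + 6 * (h * hv) + τ * τv) + 2 * (n * (d * dv))) := by
  set S1 : ℂ := ∑ i, ∑ j, ∑ k, ∑ l, alt8 M i j k l * (G j i * V i j) with hS1
  set S2 : ℂ := ∑ i, ∑ j, ∑ k, ∑ l, alt8 M i j k l * (G j i * V j k) with hS2
  set S3 : ℂ := ∑ i, ∑ j, ∑ k, ∑ l, alt8 M i j k l * (G j i * V k l) with hS3
  set S4 : ℂ := ∑ i, ∑ j, ∑ k, ∑ l, alt8 M i j k l * (G j i * V l i) with hS4
  have e0 : (∑ i, ∑ j, ∑ k, ∑ l, alt8 M i j k l * (G j i * xiV V i j k l))
      = 2 * (S1 - S2 + S3 - S4) := by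
    have : ∀ i j k l : Fin n, alt8 M i j k l * (G j i * xiV V i j k l)
        = 2 * (alt8 M i j k l * (G j i * V i j) - alt8 M i j k l * (G j i * V j k)
          + alt8 M i j k l * (G j i * V k l) - alt8 M i j k l * (G j i * V l i)) := by
      intro i j k l
      rw [xiV]
      ring
    simp only [this]
    simp only [← Finset.mul_sum, Finset.sum_sub_distrib, Finset.sum_add_distrib]
    rw [hS1, hS2, hS3, hS4]
  have e1 : S1 = (n : ℂ) ^ 2 * (G * V).trace
      + ∑ i, ∑ j, M i j * (M * M * M) j i * (G j i * V i j) := by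
    have h1 : ∀ i j : Fin n, ∑ k, ∑ l, alt8 M i j k l * (G j i * V i j)
        = (n : ℂ) ^ 2 * (G j i * V i j) + M i j * (M * M * M) j i * (G j i * V i j) := by
      intro i j
      rw [← add_mul, ← sum_kl_alt8 hM i j, Finset.sum_mul]
      refine Finset.sum_congr rfl fun k _ => ?_
      rw [Finset.sum_mul]
    rw [hS1]
    simp only [h1]
    simp only [Finset.sum_add_distrib, ← Finset.mul_sum]
    congr 2
    rw [Finset.sum_comm]
    rw [Matrix.trace]
    refine Finset.sum_congr rfl fun j _ => ?_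
    rw [Matrix.diag_apply, Matrix.mul_apply]
  have e2 : S2 = ∑ i, ∑ j, ∑ k, (1 - M i j * M j k) * ((n : ℂ) - (M * M) k i)
      * (G j i * V j k) := by
    rw [hS2]
    refine Finset.sum_congr rfl fun i _ => Finset.sum_congr rfl fun j _ =>
      Finset.sum_congr rfl fun k _ => ?_
    rw [← sum_l_alt8 hM i j k, Finset.sum_mul]
  have e4 : S4 = ∑ i, ∑ j, ∑ l, (1 - M i j * M l i) * ((n : ℂ) - (M * M) j l)
      * (G j i * V l i) := by
    rw [hS4]
    refine Finset.sum_congr rfl fun i _ => Finset.sum_congr rfl fun j _ => ?_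
    rw [Finset.sum_comm]
    refine Finset.sum_congr rfl fun l _ => ?_
    rw [← sum_k_alt8 hM i j l, Finset.sum_mul]
  have b1 := v1_le (G := G) (V := V) hM L γ hv hL hγ hγ0 hhv hsv
  have b2 := v2_le hM hG hV L h hv d dv hL hh hs hhv hsv hd0 hdv0 hd hdv
  have b3 := v3_le hM hG hV L h hv τ τv hL hh hs hhv hsv hτ hτv
  have b4 := v4_le hM hG hV L h hv d dv hL hh hs hhv hsv hd0 hdv0 hd hdv
  rw [← e2] at b2
  rw [← hS3] at b3
  rw [← e4] at b4
  set T1 : ℂ := ∑ i, ∑ j, M i j * (M * M * M) j i * (G j i * V i j) with hT1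
  have e5 : (∑ i, ∑ j, ∑ k, ∑ l, alt8 M i j k l * (G j i * xiV V i j k l))
        - 2 * (n : ℂ) ^ 2 * (G * V).trace = 2 * (T1 - S2 + S3 - S4) := by
    rw [e0, e1]
    ring
  rw [e5, norm_mul]
  have h2 : ‖(2 : ℂ)‖ = 2 := by simp
  rw [h2]
  have h3 : ‖T1 - S2 + S3 - S4‖ ≤ ‖T1‖ + ‖S2‖ + ‖S3‖ + ‖S4‖ := by
    refine (norm_sub_le _ _).trans ?_
    refine add_le_add ?_ le_rfl
    refine (norm_add_le _ _).trans ?_
    exact add_le_add (norm_sub_le _ _) le_rfl
  refine mul_le_mul_of_nonneg_left ?_ (by norm_num)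
  refine h3.trans ?_
  have h4 : ‖T1‖ + ‖S2‖ + ‖S3‖ + ‖S4‖ ≤ γ * (L ^ 2 * n) * hv
      + (n * (d * dv) + 2 * (L ^ 2 * (h * hv))) + (L ^ 2 * (τ * τv) + 2 * (L ^ 2 * (h * hv)))
      + (n * (d * dv) + 2 * (L ^ 2 * (h * hv))) :=
    add_le_add (add_le_add (add_le_add b1 b2) b3) b4
  refine h4.trans (le_of_eq ?_)
  ring

end Pool.Agent.ZR.G

end

section

/-!
# ZR, part K (helper58): GOE stationarity in terms of the roots; `KFinal` from the exponential
moment bound.
-/


open MeasureTheory ProbabilityTheory Matrix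

namespace Pool.Agent.ZR.K1

lemma symA_eq_Wv {N : ℕ} {v : ℝ} (hv : 0 < v) (X : Fin N × Fin N → ℝ) :
    symA X = Wv v ((Real.sqrt (2 * v))⁻¹ • X) := by
  have h : Real.sqrt (2 * v) ≠ 0 := (Real.sqrt_pos.mpr (by linarith)).ne'
  rw [Wv_eq_symA]
  ext i j
  simp only [symA, Matrix.of_apply, Matrix.smul_apply, Pi.smul_apply, smul_eq_mul]
  field_simp

/-- GOE stationarity for functions of the roots of the characteristic polynomial -/
theorem kStat {N : ℕ} {v t : ℝ} (hv : 0 < v) (ht : 0 < t) (Φ : Multiset ℝ → ℝ)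
    (hm : Measurable (fun X : Fin N × Fin N → ℝ => Φ ((Wv v X).charpoly.roots)))
    (hi : Integrable (fun X : Fin N × Fin N → ℝ => Φ ((Wv v X).charpoly.roots)) (gm N)) :
    ∫ Y, ∫ X, Φ ((At v t (fun i => evs (Wv v Y) i) X).charpoly.roots) ∂(gm N) ∂(gm N)
      = ∫ X, Φ ((Wv v X).charpoly.roots) ∂(gm N) := by
  refine stat_main ht (fun A : Matrix (Fin N) (Fin N) ℝ => Φ A.charpoly.roots) ?_ ?_ hi
  · simp_rw [symA_eq_Wv hv]
    have h1 : Measurable (fun X : Fin N × Fin N → ℝ => (Real.sqrt (2 * v))⁻¹ • X) := by fun_prop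
    exact hm.comp h1
  · intro O A hO _
    rw [conj_charpoly A O hO]

/-- exponential moment bound for the labelled statistics (target of K2, K3) -/
def KExp : Prop :=
  ∀ (r : ℕ) (G : (Fin r → ℝ) → ℝ), ContDiff ℝ 1 G → HasCompactSupport G →
    ∃ C0 : ℝ, 0 < C0 ∧ ∀ (n : ℕ) (J : Finset ℕ) (m : Fin r → ℤ) (s v θ : ℝ), 0 < n →
      J.Nonempty → 0 < v →
      (∀ i ∈ J, i < n ∧ ∀ q, 0 ≤ (i : ℤ) + m q ∧ (i : ℤ) + m q < n) →
      θ ^ 2 * (C0 / (J.card : ℝ)) ≤ 1 →
      Real.log (∫ X, Real.exp (θ * (Lab J m s G (Wv (N := n) v X)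
        - ∫ Z, Lab J m s G (Wv (N := n) v Z) ∂(gm n))) ∂(gm n)) ≤ θ ^ 2 * (C0 / (J.card : ℝ))

lemma Lab_measurable {N : ℕ} (J : Finset ℕ) {r : ℕ} (m : Fin r → ℤ) (s : ℝ)
    {G : (Fin r → ℝ) → ℝ} (hG : Continuous G) :
    Measurable (fun X : Fin N × Fin N → ℝ => Lab J m s G (symA X)) := by
  unfold Lab
  refine Measurable.const_mul (Finset.measurable_sum _ fun i _ => ?_) _
  refine hG.measurable.comp (measurable_pi_lambda _ fun q => ?_)
  exact (((evs_symA_continuous _).sub (evs_symA_continuous _)).measurable).const_mul s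

lemma Lab_bound {N : ℕ} (J : Finset ℕ) {r : ℕ} (m : Fin r → ℤ) (s : ℝ)
    {G : (Fin r → ℝ) → ℝ} {M : ℝ} (hM : ∀ x, |G x| ≤ M) (A : Matrix (Fin N) (Fin N) ℝ) :
    |Lab J m s G A| ≤ M := by
  have hM0 : 0 ≤ M := le_trans (abs_nonneg _) (hM 0)
  unfold Lab
  rw [abs_mul, abs_of_nonneg (by positivity : (0 : ℝ) ≤ 1 / (J.card : ℝ))]
  have h1 : |∑ i ∈ J, G (fun q => s * (evs A ((i : ℤ) + m q).toNat - evs A i))| ≤ J.card * M := by
    refine (Finset.abs_sum_le_sum_abs _ _).trans ?_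
    refine (Finset.sum_le_sum fun i _ => hM _).trans ?_
    rw [Finset.sum_const, nsmul_eq_mul]
  rcases Nat.eq_zero_or_pos J.card with h0 | hpos
  · rw [h0]; simpa using hM0
  · have hJ : (0 : ℝ) < J.card := by exact_mod_cast hpos
    calc 1 / (J.card : ℝ) * _ ≤ 1 / (J.card : ℝ) * (J.card * M) :=
          mul_le_mul_of_nonneg_left h1 (by positivity)
      _ = M := by field_simp

lemma Lab_conj {N : ℕ} (J : Finset ℕ) {r : ℕ} (m : Fin r → ℤ) (s : ℝ)
    (G : (Fin r → ℝ) → ℝ) (O A : Matrix (Fin N) (Fin N) ℝ) (hO : Oᵀ * O = 1) :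
    Lab J m s G (O * A * Oᵀ) = Lab J m s G A := by
  unfold Lab
  simp_rw [conj_evs A O hO]

theorem kFinal_of_exp (hK : KExp) : KFinal := by
  intro r G hG hGc
  obtain ⟨C0, hC0, hexp⟩ := hK r G hG hGc
  obtain ⟨M, hM⟩ : ∃ M, ∀ x, |G x| ≤ M := by
    obtain ⟨M, hM⟩ := hGc.exists_bound_of_continuous hG.continuous
    exact ⟨M, fun x => by simpa using hM x⟩
  refine ⟨Real.sqrt C0, Real.sqrt_pos.mpr hC0, ?_⟩
  intro n J m s t hn hJ ht hJm Ω _ P' _ a Y ha hY hlaw hint
  have hJc : (0 : ℝ) < J.card := by exact_mod_cast hJ.card_pos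
  have hn' : (0 : ℝ) < n := by exact_mod_cast hn
  have hv : (0 : ℝ) < 1 / (n : ℝ) := by positivity
  set κ : ℝ := C0 / (J.card : ℝ) with hκ
  have hκ0 : 0 < κ := by positivity
  set S : ℝ := (n : ℝ) / (4 * (Real.exp t - 1)) *
      ∫ ω, ∑ i : Fin n, (a ω i - evs (Wv (1 / (n : ℝ)) (Y ω)) i) ^ 2 ∂P' with hS
  set EG : ℝ := ∫ X, Lab J m s G (Wv (N := n) (1 / (n : ℝ)) X) ∂(gm n) with hEG
  set EA : ℝ := ∫ ω, ∫ X, Lab J m s G (At (1 / (n : ℝ)) t (a ω) X) ∂(gm n) ∂P' with hEA
  have hLW : Measurable (fun X : Fin n × Fin n → ℝ => Lab J m s G (Wv (N := n) (1 / (n : ℝ)) X)) := by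
    refine measurable_of_symA (Lab_measurable J m s hG.continuous) _ (fun X => Wv_isSymm _ X) fun i j => ?_
    simp only [Wv, Matrix.of_apply]
    fun_prop
  -- one sided bound
  have one : ∀ θ : ℝ, θ ^ 2 * κ ≤ 1 → θ * EA ≤ θ * EG + θ ^ 2 * κ + S := by
    intro θ hθ
    have h1 := k1_main (N := n) hv ht (fun A => θ * Lab J m s G A)
      ((Lab_measurable J m s hG.continuous).const_mul θ) (|θ| * M)
      (fun A => by rw [abs_mul]; exact mul_le_mul_of_nonneg_left (Lab_bound J m s hM A) (abs_nonneg _))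
      (fun O A hO _ => by rw [Lab_conj J m s G O A hO]) P' a Y ha hY hlaw hint
    have h2 : ∫ ω, ∫ X, θ * Lab J m s G (At (1 / (n : ℝ)) t (a ω) X) ∂(gm n) ∂P' = θ * EA := by
      simp_rw [integral_const_mul]; rfl
    rw [h2] at h1
    have h3 : (1 / (4 * (1 / (n : ℝ)) * (Real.exp t - 1))) *
        ∫ ω, ∑ i : Fin n, (a ω i - evs (Wv (1 / (n : ℝ)) (Y ω)) i) ^ 2 ∂P' = S := by
      rw [hS]
      congr 1
      have h6 : 0 < Real.exp t - 1 := by
        have : 1 < Real.exp t := by rw [Real.one_lt_exp_iff]; exact ht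
        linarith
      field_simp
    rw [h3] at h1
    have h4 := hexp n J m s (1 / (n : ℝ)) θ hn hJ hv hJm hθ
    have h5 : ∫ X, Real.exp (θ * Lab J m s G (Wv (N := n) (1 / (n : ℝ)) X)) ∂(gm n)
        = Real.exp (θ * EG) * ∫ X, Real.exp (θ * (Lab J m s G (Wv (N := n) (1 / (n : ℝ)) X) - EG)) ∂(gm n) := by
      rw [← integral_const_mul]
      refine integral_congr_ae (Filter.Eventually.of_forall fun X => ?_)
      simp only
      rw [← Real.exp_add]
      congr 1; ring
    have hpos : 0 < ∫ X, Real.exp (θ * (Lab J m s G (Wv (N := n) (1 / (n : ℝ)) X) - EG)) ∂(gm n) := by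
      refine integral_exp_pos ?_
      refine Integrable.of_bound (Real.measurable_exp.comp ((hLW.sub_const _).const_mul θ)).aestronglyMeasurable
        (Real.exp (|θ| * (M + |EG|))) (Filter.Eventually.of_forall fun X => ?_)
      rw [Real.norm_eq_abs, abs_of_pos (Real.exp_pos _)]
      refine Real.exp_le_exp.mpr ((le_abs_self _).trans ?_)
      rw [abs_mul]
      refine mul_le_mul_of_nonneg_left ?_ (abs_nonneg _)
      exact (abs_sub _ _).trans (add_le_add (Lab_bound J m s hM _) le_rfl)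
    rw [h5, Real.log_mul (Real.exp_pos _).ne' hpos.ne', Real.log_exp] at h1
    have h4' : Real.log (∫ X, Real.exp (θ * (Lab J m s G (Wv (N := n) (1 / (n : ℝ)) X) - EG)) ∂(gm n))
        ≤ θ ^ 2 * κ := h4
    linarith
  have hsq : 0 < Real.sqrt κ := Real.sqrt_pos.mpr hκ0
  have hθ1 : (1 / Real.sqrt κ) ^ 2 * κ = 1 := by
    rw [div_pow, one_pow, Real.sq_sqrt hκ0.le]; field_simp
  have hθ2 : (-(1 / Real.sqrt κ)) ^ 2 * κ = 1 := by rw [neg_sq, hθ1]
  have h1 := one _ hθ1.le
  have h2 := one _ hθ2.le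
  rw [hθ1] at h1
  rw [hθ2] at h2
  have hfin : Real.sqrt C0 / Real.sqrt (J.card : ℝ) = Real.sqrt κ := by
    rw [hκ, Real.sqrt_div hC0.le]
  rw [hfin, abs_le]
  constructor
  · have h3 : -(1 / Real.sqrt κ) * EA ≤ -(1 / Real.sqrt κ) * EG + 1 + S := h2
    have h4 := mul_le_mul_of_nonneg_left h3 hsq.le
    have h5 : Real.sqrt κ * (-(1 / Real.sqrt κ) * EA) = -EA := by field_simp
    have h6 : Real.sqrt κ * (-(1 / Real.sqrt κ) * EG + 1 + S) = -EG + Real.sqrt κ * (1 + S) := by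
      field_simp
      ring
    rw [h5, h6] at h4
    linarith
  · have h3 : (1 / Real.sqrt κ) * EA ≤ (1 / Real.sqrt κ) * EG + 1 + S := h1
    have h4 := mul_le_mul_of_nonneg_left h3 hsq.le
    have h5 : Real.sqrt κ * ((1 / Real.sqrt κ) * EA) = EA := by field_simp
    have h6 : Real.sqrt κ * ((1 / Real.sqrt κ) * EG + 1 + S) = EG + Real.sqrt κ * (1 + S) := by
      field_simp
      ring
    rw [h5, h6] at h4
    linarith

end Pool.Agent.ZR.K1

end

section

/-!
# ZR/LFrz : freezing the density (deterministic)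

PROOF.  For `y ∈ [E-b, E+b]` and `s, s' ≥ s0 > 0`: `|F(s'(x_f - y)) - F(s(x_f - y))|` vanishes unless
`|x_{f q} - y| ≤ R0/s0` for all `q`, and then it is at most `L ∑_q |s' - s||x_{f q} - y|
≤ L (k+1) |s'-s| R0/s0`; the number of such `f` is at most `cI n x y (R0/s0) ^ (k+1) ≤ K^(k+1)`
(`Fintype.card_piFinset`).  Integrate over the window (both integrands are continuous in `y`).
-/


open MeasureTheory Matrix

namespace Pool.Agent.ZR

private theorem lfrz_card (n : ℕ) (x : ℕ → ℝ) (y r : ℝ) :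
    (Finset.univ.filter fun i : Fin n => |x i - y| ≤ r).card = cI n x y r := by
  classical
  unfold cI
  rw [← Finset.card_map Fin.valEmbedding]
  congr 1
  ext i
  simp only [Finset.mem_map, Finset.mem_filter, Finset.mem_univ, true_and, Fin.valEmbedding_apply,
    Finset.mem_range]
  constructor
  · rintro ⟨j, hj, rfl⟩
    exact ⟨j.2, hj⟩
  · rintro ⟨h1, h2⟩
    exact ⟨⟨i, h1⟩, h2, rfl⟩

private theorem lfrz_cardf (n k : ℕ) (x : ℕ → ℝ) (y r : ℝ) :
    (Finset.univ.filter fun f : Fin (k + 1) → Fin n => ∀ q, |x (f q) - y| ≤ r).card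
      = cI n x y r ^ (k + 1) := by
  classical
  have h : (Finset.univ.filter fun f : Fin (k + 1) → Fin n => ∀ q, |x (f q) - y| ≤ r)
      = Fintype.piFinset (fun _ : Fin (k + 1) =>
          Finset.univ.filter fun i : Fin n => |x i - y| ≤ r) := by
    ext f
    simp only [Finset.mem_filter, Finset.mem_univ, true_and, Fintype.mem_piFinset]
  rw [h, Fintype.card_piFinset, Finset.prod_const, lfrz_card, Finset.card_univ, Fintype.card_fin]

theorem freeze {k : ℕ} {F : (Fin (k + 1) → ℝ) → ℝ} (hF : Continuous F) {R0 L : ℝ}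
    (hR0 : 0 < R0) (hR : ∀ v, F v ≠ 0 → ∀ q, |v q| ≤ R0)
    (hL : ∀ v w, |F v - F w| ≤ L * ∑ q, |v q - w q|) (hL0 : 0 ≤ L) {n : ℕ}
    (A : Matrix (Fin n) (Fin n) ℝ) (K : ℕ) {E b s s0 e : ℝ} (hb : 0 < b) (hs0 : 0 < s0)
    (hs : s0 ≤ s) (hsy : ∀ y, |y - E| ≤ b → s0 ≤ n * rho y ∧ |n * rho y - s| ≤ e)
    (hG : ∀ y, |y - E| ≤ b → cI n (evs A) y (R0 / s0) ≤ K) :
    |Ufull n F E b A - Ufr n F E b s (evs A)|
      ≤ L * (k + 1) * e * (R0 / s0) * (K : ℝ) ^ (k + 1) := by
  classical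
  set x := evs A with hx
  set D : ℝ := L * (k + 1) * e * (R0 / s0) with hD
  have he : 0 ≤ e := (abs_nonneg _).trans (hsy E (by simpa using hb.le)).2
  have hD0 : 0 ≤ D := by rw [hD]; positivity
  have key : ∀ y, |y - E| ≤ b →
      |(∑ f : Fin (k + 1) → Fin n, F (fun q => (n : ℝ) * rho y * (x (f q) - y)))
        - ∑ f : Fin (k + 1) → Fin n, F (fun q => s * (x (f q) - y))|
        ≤ D * (K : ℝ) ^ (k + 1) := by
    intro y hy
    obtain ⟨h1, h2⟩ := hsy y hy
    rw [← Finset.sum_sub_distrib]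
    have h3 : ∀ f : Fin (k + 1) → Fin n,
        |F (fun q => (n : ℝ) * rho y * (x (f q) - y)) - F (fun q => s * (x (f q) - y))|
          ≤ if (∀ q, |x (f q) - y| ≤ R0 / s0) then D else 0 := by
      intro f
      split_ifs with hf
      · refine (hL _ _).trans ?_
        have h4 : ∀ q : Fin (k + 1),
            |(n : ℝ) * rho y * (x (f q) - y) - s * (x (f q) - y)| ≤ e * (R0 / s0) := by
          intro q
          rw [← sub_mul, abs_mul]
          exact mul_le_mul h2 (hf q) (abs_nonneg _) he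
        calc L * ∑ q, |(n : ℝ) * rho y * (x (f q) - y) - s * (x (f q) - y)|
            ≤ L * ∑ _q : Fin (k + 1), e * (R0 / s0) :=
              mul_le_mul_of_nonneg_left (Finset.sum_le_sum fun q _ => h4 q) hL0
          _ = D := by
              rw [Finset.sum_const, Finset.card_univ, Fintype.card_fin, nsmul_eq_mul, hD]
              push_cast
              ring
      · push Not at hf
        obtain ⟨q, hq⟩ := hf
        have hz : ∀ t, s0 ≤ t → F (fun q => t * (x (f q) - y)) = 0 := by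
          intro t ht
          by_contra hne
          have h5 := hR _ hne q
          rw [abs_mul, abs_of_pos (hs0.trans_le ht)] at h5
          have h6 : s0 * |x (f q) - y| ≤ t * |x (f q) - y| :=
            mul_le_mul_of_nonneg_right ht (abs_nonneg _)
          have h7 : |x (f q) - y| ≤ R0 / s0 := by
            rw [le_div_iff₀ hs0]
            linarith
          exact absurd h7 (not_le.2 hq)
        rw [hz _ h1, hz _ hs]
        simp
    calc |∑ f : Fin (k + 1) → Fin n, (F (fun q => (n : ℝ) * rho y * (x (f q) - y))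
          - F (fun q => s * (x (f q) - y)))|
        ≤ ∑ f : Fin (k + 1) → Fin n, |F (fun q => (n : ℝ) * rho y * (x (f q) - y))
          - F (fun q => s * (x (f q) - y))| := Finset.abs_sum_le_sum_abs _ _
      _ ≤ ∑ f : Fin (k + 1) → Fin n, (if (∀ q, |x (f q) - y| ≤ R0 / s0) then D else 0) :=
          Finset.sum_le_sum fun f _ => h3 f
      _ = ((cI n x y (R0 / s0) ^ (k + 1) : ℕ) : ℝ) * D := by
          rw [← Finset.sum_filter, Finset.sum_const, lfrz_cardf, nsmul_eq_mul]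
      _ ≤ ((K ^ (k + 1) : ℕ) : ℝ) * D := by
          refine mul_le_mul_of_nonneg_right ?_ hD0
          exact_mod_cast Nat.pow_le_pow_left (hG y hy) (k + 1)
      _ = D * (K : ℝ) ^ (k + 1) := by push_cast; ring
  have hrho : Continuous rho := by
    unfold rho
    fun_prop
  have c1 : Continuous (fun y : ℝ => ∑ f : Fin (k + 1) → Fin n,
      F (fun q => (n : ℝ) * rho y * (x (f q) - y))) := by
    refine continuous_finsetSum _ fun f _ => hF.comp (continuous_pi fun q => ?_)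
    fun_prop
  have c2 : Continuous (fun y : ℝ => ∑ f : Fin (k + 1) → Fin n,
      F (fun q => s * (x (f q) - y))) := by
    refine continuous_finsetSum _ fun f _ => hF.comp (continuous_pi fun q => ?_)
    fun_prop
  have hI : |∫ y in (E - b)..(E + b),
      ((∑ f : Fin (k + 1) → Fin n, F (fun q => (n : ℝ) * rho y * (x (f q) - y)))
        - ∑ f : Fin (k + 1) → Fin n, F (fun q => s * (x (f q) - y)))|
      ≤ D * (K : ℝ) ^ (k + 1) * |(E + b) - (E - b)| := by
    rw [← Real.norm_eq_abs]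
    refine intervalIntegral.norm_integral_le_of_norm_le_const fun y hy => ?_
    rw [Real.norm_eq_abs]
    refine key y ?_
    rw [Set.uIoc_of_le (by linarith)] at hy
    rw [abs_le]
    constructor
    · linarith [hy.1]
    · linarith [hy.2]
  have hU : Ufull n F E b A - Ufr n F E b s x = (1 / (2 * b)) * ∫ y in (E - b)..(E + b),
      ((∑ f : Fin (k + 1) → Fin n, F (fun q => (n : ℝ) * rho y * (x (f q) - y)))
        - ∑ f : Fin (k + 1) → Fin n, F (fun q => s * (x (f q) - y))) := by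
    unfold Ufull Ufr
    rw [intervalIntegral.integral_sub (c1.intervalIntegrable _ _) (c2.intervalIntegrable _ _),
      mul_sub]
  rw [hU, abs_mul, abs_of_pos (by positivity : 0 < 1 / (2 * b))]
  calc 1 / (2 * b) * |∫ y in (E - b)..(E + b),
      ((∑ f : Fin (k + 1) → Fin n, F (fun q => (n : ℝ) * rho y * (x (f q) - y)))
        - ∑ f : Fin (k + 1) → Fin n, F (fun q => s * (x (f q) - y)))|
      ≤ 1 / (2 * b) * (D * (K : ℝ) ^ (k + 1) * |(E + b) - (E - b)|) :=
        mul_le_mul_of_nonneg_left hI (by positivity)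
    _ = D * (K : ℝ) ^ (k + 1) := by
        have h8 : (E + b) - (E - b) = 2 * b := by ring
        rw [h8, abs_of_pos (by positivity : 0 < 2 * b)]
        field_simp

end Pool.Agent.ZR

end

section

/-!
# ZR/LLab : frozen full sum = labelled sum up to the bad indices (deterministic)

PROOF.  Put `r = R0/s`.  Splitting `f = Fin.cons i f'` (`Fin.consEquiv`/`Fin.consPiProd`, `Fin.sum_univ...`:
`∑_{f : Fin (k+1) → Fin n} = ∑_{i : Fin n} ∑_{f' : Fin k → Fin n}`) gives `Ufr = (1/(2b)) ∑_{i<n} q_i`,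
`q_i = ∫_{E-b}^{E+b} ∑_{f'} F(cons (s(x_i-y)) (s(x_{f'}-y))) dy`, and `Psi = (1/(2b)) ∑_{i∈J} p_i`,
`p_i = (1/s) ∑_m G(s(x_{i+m} - x_i))`.  `J ⊆ range n` (from `hJ` with `j = 0`).
(a) `i ∈ J`, `E-b+r ≤ x_i ≤ E+b-r`: in `q_i` the integrand vanishes unless `|x_i - y| ≤ r`, which implies
`y ∈ [E-b, E+b]`, so `q_i` is the integral over all of `ℝ` and by `gst_scale`
`q_i = (1/s) ∑_{f'} G(s(x_{f'} - x_i))`.  `G(..) ≠ 0` implies `|x_{f' q} - x_i| ≤ 2 r` (`gst_supp`), and
`cI n x (x_i) (2r) ≤ K` (`hG`, since `|x_i - E| ≤ b`), so `|f' q - i| ≤ K` (`near_idx`): the map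
`m ↦ (q ↦ i + m q)` is a bijection from the `m ∈ [-K,K]^k` (all `i + m q ∈ [0,n)` by `hJ`) to a set of `f'`
containing all those with nonzero term (`Finset.sum_nbij'`/`sum_bij_ne_zero`): `q_i = p_i`.
(b) `i ∉ J`, `x_i ∉ [E-b-r, E+b+r]`: `q_i = 0` and there is no `p_i`.
(c) `i ∈ badI`: for `y ∈ [E-b,E+b]` the number of `f'` with a nonzero term is at most
`cI n x y r ^ k ≤ K^k` and the integrand vanishes for `|y - x_i| > r`, so `|q_i| ≤ 2 r M K^k`;
`|p_i| ≤ (1/s)(2K+1)^k 2 R0 M` (`gst_bd`).  So `|q_i - p_i| ≤ (4 R0 M/s)(2K+1)^k`.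
-/


open MeasureTheory

namespace Pool.Agent.ZR

section lab

variable {k : ℕ}

private noncomputable def lA (F : (Fin (k + 1) → ℝ) → ℝ) (n : ℕ) (s : ℝ) (x : ℕ → ℝ) (i : ℕ)
    (y : ℝ) : ℝ :=
  ∑ f : Fin k → Fin n, F (Fin.cons (s * (x i - y)) (fun q => s * (x (f q) - y)))

private lemma l_cont {F : (Fin (k + 1) → ℝ) → ℝ} (hF : Continuous F) {n : ℕ} (s : ℝ)
    (x : ℕ → ℝ) (i : ℕ) (f : Fin k → Fin n) :
    Continuous fun y : ℝ =>
      F (Fin.cons (s * (x i - y)) (fun q => s * (x (f q) - y)) : Fin (k + 1) → ℝ) := by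
  apply hF.comp
  refine continuous_pi fun q => ?_
  refine Fin.cases ?_ (fun q => ?_) q
  · simp only [Fin.cons_zero]; fun_prop
  · simp only [Fin.cons_succ]; fun_prop

private lemma lA_cont {F : (Fin (k + 1) → ℝ) → ℝ} (hF : Continuous F) (n : ℕ) (s : ℝ)
    (x : ℕ → ℝ) (i : ℕ) : Continuous (lA F n s x i) := by
  unfold lA
  exact continuous_finsetSum _ fun f _ => l_cont hF s x i f

private lemma l_sum (F : (Fin (k + 1) → ℝ) → ℝ) (n : ℕ) (s : ℝ) (x : ℕ → ℝ) (y : ℝ) :
    ∑ f : Fin (k + 1) → Fin n, F (fun q => s * (x (f q) - y))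
      = ∑ i ∈ Finset.range n, lA F n s x i y := by
  rw [← (Fin.consEquiv (fun _ : Fin (k + 1) => Fin n)).sum_comp, Fintype.sum_prod_type,
    Finset.sum_range]
  refine Finset.sum_congr rfl fun i _ => ?_
  unfold lA
  refine Finset.sum_congr rfl fun f _ => ?_
  congr 1
  funext q
  refine Fin.cases ?_ (fun q => ?_) q
  · simp [Fin.consEquiv]
  · simp [Fin.consEquiv]

private lemma l_ufr {F : (Fin (k + 1) → ℝ) → ℝ} (hF : Continuous F) (n : ℕ) (E b s : ℝ)
    (x : ℕ → ℝ) : Ufr n F E b s x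
      = (1 / (2 * b)) * ∑ i ∈ Finset.range n, ∫ y in (E - b)..(E + b), lA F n s x i y := by
  unfold Ufr
  congr 1
  rw [← intervalIntegral.integral_finsetSum
    (fun i _ => (lA_cont hF n s x i).intervalIntegrable _ _)]
  refine intervalIntegral.integral_congr fun y _ => ?_
  exact l_sum F n s x y

private lemma l_supp {F : (Fin (k + 1) → ℝ) → ℝ} {R0 s : ℝ} (hs : 0 < s)
    (hR : ∀ v, F v ≠ 0 → ∀ q, |v q| ≤ R0) {n : ℕ} {x : ℕ → ℝ} {i : ℕ} {f : Fin k → Fin n}
    {y : ℝ}
    (h : F (Fin.cons (s * (x i - y)) (fun q => s * (x (f q) - y)) : Fin (k + 1) → ℝ) ≠ 0) :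
    |x i - y| ≤ R0 / s ∧ ∀ q, |x (f q) - y| ≤ R0 / s := by
  have key := hR _ h
  constructor
  · have h0 := key 0
    simp only [Fin.cons_zero] at h0
    rw [abs_mul, abs_of_pos hs] at h0
    rw [le_div_iff₀ hs, mul_comm]; exact h0
  · intro q
    have h0 := key q.succ
    simp only [Fin.cons_succ] at h0
    rw [abs_mul, abs_of_pos hs] at h0
    rw [le_div_iff₀ hs, mul_comm]; exact h0

private lemma lA_zero {F : (Fin (k + 1) → ℝ) → ℝ} {R0 s : ℝ} (hs : 0 < s)
    (hR : ∀ v, F v ≠ 0 → ∀ q, |v q| ≤ R0) {n : ℕ} {x : ℕ → ℝ} {i : ℕ} {y : ℝ}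
    (h : R0 / s < |x i - y|) : lA F n s x i y = 0 := by
  unfold lA
  refine Finset.sum_eq_zero fun f _ => ?_
  by_contra hne
  exact absurd (l_supp hs hR hne).1 (not_le.mpr h)

/-- pointwise bound -/
private lemma lA_bd {F : (Fin (k + 1) → ℝ) → ℝ} {R0 M s : ℝ} (hR0 : 0 < R0) (hs : 0 < s)
    (hR : ∀ v, F v ≠ 0 → ∀ q, |v q| ≤ R0) (hM : ∀ v, |F v| ≤ M) {n : ℕ} {x : ℕ → ℝ} {i : ℕ}
    {y : ℝ} {K : ℕ} (hG : cI n x y (2 * (R0 / s)) ≤ K) :
    |lA F n s x i y| ≤ M * (K : ℝ) ^ k := by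
  classical
  have hM0 : 0 ≤ M := (abs_nonneg _).trans (hM 0)
  set T : Finset (Fin k → Fin n) :=
    Fintype.piFinset fun _ : Fin k => (Finset.univ.filter fun j : Fin n => |x j - y| ≤ R0 / s)
    with hT
  have hcard : T.card ≤ K ^ k := by
    rw [hT, Fintype.card_piFinset]
    simp only [Finset.prod_const, Finset.card_univ, Fintype.card_fin]
    apply Nat.pow_le_pow_left
    refine le_trans ?_ hG
    unfold cI
    refine Finset.card_le_card_of_injOn (fun j : Fin n => (j : ℕ)) ?_ ?_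
    · intro j hj
      simp only [Finset.coe_filter, Finset.mem_univ, true_and, Set.mem_ofPred_eq] at hj
      simp only [Finset.coe_filter, Finset.mem_range, Set.mem_ofPred_eq]
      refine ⟨j.isLt, hj.trans ?_⟩
      have : 0 < R0 / s := div_pos hR0 hs
      linarith
    · intro a _ c _ hac
      exact Fin.ext hac
  unfold lA
  calc |∑ f : Fin k → Fin n, F (Fin.cons (s * (x i - y)) (fun q => s * (x (f q) - y)))|
      = |∑ f ∈ T, F (Fin.cons (s * (x i - y)) (fun q => s * (x (f q) - y)))| := by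
        congr 1
        symm
        apply Finset.sum_subset (Finset.subset_univ _)
        intro f _ hf
        by_contra hne
        apply hf
        rw [hT, Fintype.mem_piFinset]
        intro q
        simp only [Finset.mem_filter, Finset.mem_univ, true_and]
        exact (l_supp hs hR hne).2 q
    _ ≤ ∑ f ∈ T, |F (Fin.cons (s * (x i - y)) (fun q => s * (x (f q) - y)))| :=
        Finset.abs_sum_le_sum_abs _ _
    _ ≤ ∑ f ∈ T, M := Finset.sum_le_sum fun f _ => hM _
    _ = T.card * M := by rw [Finset.sum_const, nsmul_eq_mul]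
    _ ≤ (K : ℝ) ^ k * M := by
        apply mul_le_mul_of_nonneg_right _ hM0
        exact_mod_cast hcard
    _ = M * (K : ℝ) ^ k := mul_comm _ _

/-- the bound for bad indices -/
private lemma l_int_bd {F : (Fin (k + 1) → ℝ) → ℝ} {R0 M s : ℝ}
    (hR0 : 0 < R0) (hs : 0 < s)
    (hR : ∀ v, F v ≠ 0 → ∀ q, |v q| ≤ R0) (hM : ∀ v, |F v| ≤ M) {n : ℕ} {x : ℕ → ℝ} {i : ℕ}
    {K : ℕ} {E b : ℝ} (hb : 0 < b) (hG : ∀ y, |y - E| ≤ b → cI n x y (2 * (R0 / s)) ≤ K) :
    |∫ y in (E - b)..(E + b), lA F n s x i y| ≤ 2 * (R0 / s) * (M * (K : ℝ) ^ k) := by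
  have hM0 : 0 ≤ M := (abs_nonneg _).trans (hM 0)
  have hr : 0 < R0 / s := div_pos hR0 hs
  set C : ℝ := M * (K : ℝ) ^ k with hC
  have hC0 : 0 ≤ C := by positivity
  rw [intervalIntegral.integral_of_le (by linarith)]
  have h1 : ∀ y ∈ Set.Ioc (E - b) (E + b), ‖lA F n s x i y‖
      ≤ Set.indicator (Set.Icc (x i - R0 / s) (x i + R0 / s)) (fun _ => C) y := by
    intro y hy
    by_cases hyi : y ∈ Set.Icc (x i - R0 / s) (x i + R0 / s)
    · rw [Set.indicator_of_mem hyi, Real.norm_eq_abs]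
      apply lA_bd hR0 hs hR hM
      apply hG
      rw [abs_le]; constructor <;> linarith [hy.1, hy.2]
    · rw [Set.indicator_of_notMem hyi, lA_zero hs hR, norm_zero]
      by_contra hcon
      apply hyi
      rw [not_lt, abs_le] at hcon
      constructor <;> linarith [hcon.1, hcon.2]
  have hint : IntegrableOn (Set.indicator (Set.Icc (x i - R0 / s) (x i + R0 / s))
      (fun _ => C)) Set.univ volume := by
    rw [integrableOn_univ, integrable_indicator_iff measurableSet_Icc]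
    exact integrableOn_const (by simp)
  calc |∫ y in Set.Ioc (E - b) (E + b), lA F n s x i y|
      ≤ ∫ y in Set.Ioc (E - b) (E + b),
          Set.indicator (Set.Icc (x i - R0 / s) (x i + R0 / s)) (fun _ => C) y := by
        rw [← Real.norm_eq_abs]
        refine norm_integral_le_of_norm_le (hint.mono_set (Set.subset_univ _)) ?_
        exact (ae_restrict_iff' measurableSet_Ioc).mpr (Filter.Eventually.of_forall h1)
    _ ≤ ∫ y, Set.indicator (Set.Icc (x i - R0 / s) (x i + R0 / s)) (fun _ => C) y := by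
        refine setIntegral_le_integral (by rw [← integrableOn_univ]; exact hint) ?_
        refine Filter.Eventually.of_forall fun y => ?_
        exact Set.indicator_nonneg (fun _ _ => hC0) y
    _ = 2 * (R0 / s) * C := by
        rw [integral_indicator measurableSet_Icc, setIntegral_const, smul_eq_mul]
        rw [Measure.real, Real.volume_Icc, ENNReal.toReal_ofReal (by linarith)]
        ring

/-- good indices -/
private lemma l_good {F : (Fin (k + 1) → ℝ) → ℝ} (hF : Continuous F) {R0 s : ℝ}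
    (hR0 : 0 < R0) (hs : 0 < s)
    (hR : ∀ v, F v ≠ 0 → ∀ q, |v q| ≤ R0) {n : ℕ} {x : ℕ → ℝ}
    (hx : ∀ i j, i ≤ j → j < n → x i ≤ x j) {i : ℕ} (hi : i < n)
    {K : ℕ} {E b : ℝ} (hb : 0 < b) (hG : ∀ y, |y - E| ≤ b → cI n x y (2 * (R0 / s)) ≤ K)
    (hJ : ∀ j : ℤ, |j| ≤ K → 0 ≤ (i : ℤ) + j ∧ (i : ℤ) + j < n)
    (h1 : E - b + R0 / s ≤ x i) (h2 : x i ≤ E + b - R0 / s) :
    ∫ y in (E - b)..(E + b), lA F n s x i y
      = (1 / s) * ∑ m ∈ Fintype.piFinset (fun _ : Fin k => Finset.Icc (-(K : ℤ)) (K : ℤ)),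
          Gst F (fun q => s * (x ((i : ℤ) + m q).toNat - x i)) := by
  classical
  have hr : 0 < R0 / s := div_pos hR0 hs
  rw [intervalIntegral.integral_of_le (by linarith), ← integral_Icc_eq_integral_Ioc,
    setIntegral_eq_integral_of_forall_compl_eq_zero]
  swap
  · intro y hy
    apply lA_zero hs hR
    by_contra hcon
    apply hy
    rw [not_lt, abs_le] at hcon
    constructor <;> linarith [hcon.1, hcon.2]
  unfold lA
  rw [integral_finsetSum]
  swap
  · intro f _
    apply (l_cont hF s x i f).integrable_of_hasCompactSupport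
    refine HasCompactSupport.of_support_subset_isCompact
      (K := Set.Icc (x i - R0 / s) (x i + R0 / s)) isCompact_Icc ?_
    intro y hy
    have h3 := (l_supp hs hR (Function.mem_support.mp hy)).1
    rw [abs_le] at h3
    constructor <;> linarith [h3.1, h3.2]
  rw [Finset.mul_sum]
  have h4 : ∀ f : Fin k → Fin n,
      ∫ y : ℝ, F (Fin.cons (s * (x i - y)) (fun q => s * (x (f q) - y)) : Fin (k + 1) → ℝ)
        = (1 / s) * Gst F (fun q => s * (x (f q) - x i)) := fun f =>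
    gst_scale F hs (x i) (fun q => x (f q))
  simp only [h4]
  refine Finset.sum_bij_ne_zero (fun (f : Fin k → Fin n) _ _ => fun q => ((f q : ℕ) : ℤ) - (i : ℤ))
    ?_ ?_ ?_ ?_
  · intro f _ hne
    rw [Fintype.mem_piFinset]
    intro q
    have h5 : Gst F (fun q => s * (x (f q) - x i)) ≠ 0 := right_ne_zero_of_mul hne
    have h6 := gst_supp hR _ h5 q
    rw [abs_mul, abs_of_pos hs] at h6
    have h7 : |x (f q) - x i| ≤ 2 * (R0 / s) := by
      rw [show 2 * (R0 / s) = (2 * R0) / s by ring, le_div_iff₀ hs, mul_comm]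
      exact h6
    have h8 : cI n x (x i) (2 * (R0 / s)) ≤ K := hG _ (by
      rw [abs_le]; constructor <;> linarith)
    have h9 := near_idx hx hi (f q).isLt h8 h7
    rw [abs_le] at h9
    rw [Finset.mem_Icc]
    exact h9
  · intro f _ _ g _ _ hfg
    funext q
    have := congrFun hfg q
    apply Fin.ext
    omega
  · intro m hm hne
    rw [Fintype.mem_piFinset] at hm
    have hm' : ∀ q, 0 ≤ (i : ℤ) + m q ∧ (i : ℤ) + m q < n := by
      intro q
      apply hJ
      have := hm q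
      rw [Finset.mem_Icc] at this
      rw [abs_le]; exact this
    refine ⟨fun q => ⟨((i : ℤ) + m q).toNat, by have := hm' q; omega⟩, Finset.mem_univ _, hne, ?_⟩
    funext q
    have := hm' q
    show ((((i : ℤ) + m q).toNat : ℕ) : ℤ) - (i : ℤ) = m q
    omega
  · intro f _ _
    congr 2
    funext q
    congr 3
    simp

end lab

theorem frozen_lab {k : ℕ} {F : (Fin (k + 1) → ℝ) → ℝ} (hF : Continuous F) {R0 M : ℝ}
    (hR0 : 0 < R0) (hR : ∀ v, F v ≠ 0 → ∀ q, |v q| ≤ R0) (hM : ∀ v, |F v| ≤ M) {n : ℕ} {x : ℕ → ℝ}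
    (hx : ∀ i j, i ≤ j → j < n → x i ≤ x j) (J : Finset ℕ) (K : ℕ) {E b s : ℝ} (hb : 0 < b)
    (hs : 0 < s) (hG : ∀ y, |y - E| ≤ b → cI n x y (2 * (R0 / s)) ≤ K)
    (hJ : ∀ i ∈ J, ∀ j : ℤ, |j| ≤ K → 0 ≤ (i : ℤ) + j ∧ (i : ℤ) + j < n) :
    |Ufr n F E b s x - Psi (Gst F) J K s b x|
      ≤ (1 / (2 * b * s)) * (4 * R0 * M) * (2 * (K : ℝ) + 1) ^ k
          * ((badI n J E b (R0 / s) x).card : ℝ) := by
  classical
  have hM0 : 0 ≤ M := (abs_nonneg _).trans (hM 0)
  have hr : 0 < R0 / s := div_pos hR0 hs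
  have hJn : J ⊆ Finset.range n := by
    intro i hi
    have := hJ i hi 0 (by simp)
    rw [Finset.mem_range]
    omega
  set P : ℕ → ℝ := fun i =>
    ∑ m ∈ Fintype.piFinset (fun _ : Fin k => Finset.Icc (-(K : ℤ)) (K : ℤ)),
      Gst F (fun q => s * (x ((i : ℤ) + m q).toNat - x i)) with hP
  have hPsi : Psi (Gst F) J K s b x
      = (1 / (2 * b)) * ∑ i ∈ Finset.range n, (if i ∈ J then (1 / s) * P i else 0) := by
    rw [← Finset.sum_filter, Finset.filter_mem_eq_inter, Finset.inter_eq_right.mpr hJn,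
      ← Finset.mul_sum]
    unfold Psi
    rw [hP]
    field_simp
  rw [l_ufr hF, hPsi, ← mul_sub, ← Finset.sum_sub_distrib, abs_mul,
    abs_of_pos (by positivity : (0:ℝ) < 1 / (2 * b))]
  have hPb : ∀ i, |P i| ≤ (2 * (K : ℝ) + 1) ^ k * (2 * R0 * M) := by
    intro i
    rw [hP]
    refine (Finset.abs_sum_le_sum_abs _ _).trans ?_
    refine (Finset.sum_le_sum fun m _ => gst_bd hR0.le hR hM _).trans ?_
    rw [Finset.sum_const, nsmul_eq_mul, Fintype.card_piFinset]
    simp only [Finset.prod_const, Finset.card_univ, Fintype.card_fin, Int.card_Icc]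
    apply le_of_eq
    congr 1
    rw [Nat.cast_pow]
    congr 1
    rw [show ((K : ℤ) + 1 - -(K : ℤ)).toNat = 2 * K + 1 by omega]
    push_cast; ring
  have hsum : |∑ i ∈ Finset.range n, ((∫ y in (E - b)..(E + b), lA F n s x i y)
      - (if i ∈ J then (1 / s) * P i else 0))|
      ≤ ((badI n J E b (R0 / s) x).card : ℝ)
        * ((4 * R0 * M / s) * (2 * (K : ℝ) + 1) ^ k) := by
    have hsub : badI n J E b (R0 / s) x ⊆ Finset.range n := by
      unfold badI; exact Finset.filter_subset _ _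
    rw [← Finset.sum_subset hsub]
    · refine (Finset.abs_sum_le_sum_abs _ _).trans ?_
      rw [← nsmul_eq_mul, ← Finset.sum_const]
      refine Finset.sum_le_sum fun i _ => ?_
      have hq := l_int_bd hR0 hs hR hM (i := i) hb hG
      have hKk : (K : ℝ) ^ k ≤ (2 * (K : ℝ) + 1) ^ k :=
        pow_le_pow_left₀ (by positivity) (by linarith [(Nat.cast_nonneg K : (0:ℝ) ≤ K)]) k
      have hq' : |∫ y in (E - b)..(E + b), lA F n s x i y|
          ≤ (2 * R0 * M / s) * (2 * (K : ℝ) + 1) ^ k := by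
        refine hq.trans ?_
        calc 2 * (R0 / s) * (M * (K : ℝ) ^ k) = (2 * R0 * M / s) * (K : ℝ) ^ k := by ring
          _ ≤ _ := mul_le_mul_of_nonneg_left hKk (by positivity)
      have hp' : |if i ∈ J then (1 / s) * P i else 0|
          ≤ (2 * R0 * M / s) * (2 * (K : ℝ) + 1) ^ k := by
        split_ifs
        · rw [abs_mul, abs_of_pos (by positivity : (0:ℝ) < 1 / s)]
          calc 1 / s * |P i| ≤ 1 / s * ((2 * (K : ℝ) + 1) ^ k * (2 * R0 * M)) :=
                mul_le_mul_of_nonneg_left (hPb i) (by positivity)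
            _ = _ := by ring
        · rw [abs_zero]; positivity
      calc |(∫ y in (E - b)..(E + b), lA F n s x i y) - (if i ∈ J then (1 / s) * P i else 0)|
          ≤ |∫ y in (E - b)..(E + b), lA F n s x i y| + |if i ∈ J then (1 / s) * P i else 0| :=
            abs_sub _ _
        _ ≤ _ := by
            refine (add_le_add hq' hp').trans (le_of_eq ?_)
            ring
    · intro i hi hnb
      have hin : i < n := Finset.mem_range.mp hi
      unfold badI at hnb
      rw [Finset.mem_filter, not_and] at hnb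
      have hnb' := hnb hi
      rw [not_or] at hnb'
      by_cases hiJ : i ∈ J
      · rw [if_pos hiJ, sub_eq_zero]
        have h1 := hnb'.1
        rw [not_and] at h1
        have h2 := h1 hiJ
        rw [not_or, not_lt, not_lt] at h2
        exact l_good hF hR0 hs hR hx hin hb hG (hJ i hiJ) h2.1 h2.2
      · rw [if_neg hiJ, sub_zero]
        have h1 := hnb'.2
        rw [not_and] at h1
        have h2 := h1 hiJ
        rw [intervalIntegral.integral_congr (g := fun _ => (0 : ℝ)), intervalIntegral.integral_zero]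
        intro y hy
        rw [Set.uIcc_of_le (by linarith)] at hy
        simp only
        apply lA_zero hs hR
        by_contra hcon
        rw [not_lt, abs_le] at hcon
        apply h2
        constructor <;> linarith [hcon.1, hcon.2, hy.1, hy.2]
  calc 1 / (2 * b) * |∑ i ∈ Finset.range n, ((∫ y in (E - b)..(E + b), lA F n s x i y)
        - (if i ∈ J then (1 / s) * P i else 0))|
      ≤ 1 / (2 * b) * (((badI n J E b (R0 / s) x).card : ℝ)
        * ((4 * R0 * M / s) * (2 * (K : ℝ) + 1) ^ k)) :=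
        mul_le_mul_of_nonneg_left hsum (by positivity)
    _ = _ := by
        field_simp

end Pool.Agent.ZR

end
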