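import Pool.Agent.ZRM.P05

/-!
# Merged form of the modules ZR.IDet
-/

set_option autoImplicit false

section

/-!
# ZR, part I (helper58): counting function of a finite family and its Stieltjes transform
-/


open MeasureTheory ProbabilityTheory

namespace Pool.Agent.ZR.I

/-- real valued counting function of a family -/
noncomputable def NN {M : ℕ} (l : Fin M → ℝ) (t : ℝ) : ℝ := ∑ i, if l i ≤ t then (1 : ℝ) else 0

lemma NN_nonneg {M : ℕ} (l : Fin M → ℝ) (t : ℝ) : 0 ≤ NN l t :=
  Finset.sum_nonneg fun i _ => by split_ifs <;> norm_num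

lemma NN_le {M : ℕ} (l : Fin M → ℝ) (t : ℝ) : NN l t ≤ M := by
  have : NN l t ≤ ∑ i : Fin M, (1 : ℝ) := Finset.sum_le_sum fun i _ => by split_ifs <;> norm_num
  simpa using this

lemma NN_mono {M : ℕ} (l : Fin M → ℝ) {s t : ℝ} (h : s ≤ t) : NN l s ≤ NN l t := by
  refine Finset.sum_le_sum fun i _ => ?_
  by_cases h1 : l i ≤ s
  · rw [if_pos h1, if_pos (h1.trans h)]
  · rw [if_neg h1]; split_ifs <;> norm_num

/-- `∑ (x - l_i)/((x-l_i)²+u²)` -/
noncomputable def f1 {M : ℕ} (l : Fin M → ℝ) (x u : ℝ) : ℝ := ∑ i, (x - l i) / ((x - l i) ^ 2 + u ^ 2)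

/-- `∑ 1/((x-l_i)²+u²)` -/
noncomputable def f2 {M : ℕ} (l : Fin M → ℝ) (x u : ℝ) : ℝ := ∑ i, 1 / ((x - l i) ^ 2 + u ^ 2)

lemma f1_cont {M : ℕ} (l : Fin M → ℝ) (x : ℝ) {η R : ℝ} (hη : 0 < η) :
    ContinuousOn (f1 l x) (Set.Icc η R) := by
  refine continuousOn_finsetSum _ fun i _ => ContinuousOn.div continuousOn_const (by fun_prop) fun u hu => ?_
  have : 0 < u := lt_of_lt_of_le hη hu.1
  positivity

lemma f2_cont {M : ℕ} (l : Fin M → ℝ) (x : ℝ) {η R : ℝ} (hη : 0 < η) :
    ContinuousOn (f2 l x) (Set.Icc η R) := by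
  refine continuousOn_finsetSum _ fun i _ => ContinuousOn.div continuousOn_const (by fun_prop) fun u hu => ?_
  have : 0 < u := lt_of_lt_of_le hη hu.1
  positivity

theorem det_bound {M n : ℕ} (hM : M ≤ n) (hn : n ≤ M + 1) (l : Fin M → ℝ) {x : ℝ} (hx : |x| ≤ 2)
    {η R : ℝ} (hη : 0 < η) (hR : η ≤ R) :
    |NN l x - n * Fsc x| ≤ |∫ u in η..R, (f1 l x u + n * (msc ⟨x, u⟩).re)|
      + η * (∫ u in η..R, f2 l x u) + n * η * (∫ u in η..R, (msc ⟨x, u⟩).im / u)
      + ((M + n) * η / R + (∑ i, |x - l i|) / R + 4 * n / R + 1 / 2) := by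
  have hRpos : 0 < R := lt_of_lt_of_le hη hR
  have hpi := Real.pi_pos
  have hpi3 := Real.pi_gt_three
  set A : ℝ := ∑ i, Real.arctan ((x - l i) / η) with hA
  set AR : ℝ := ∑ i, Real.arctan ((x - l i) / R) with hAR
  have huIcc : Set.uIcc η R = Set.Icc η R := Set.uIcc_of_le hR
  have hif1 : IntervalIntegrable (f1 l x) volume η R := by
    refine ContinuousOn.intervalIntegrable ?_
    rw [huIcc]; exact f1_cont l x hη
  have hif2 : IntervalIntegrable (f2 l x) volume η R := by
    refine ContinuousOn.intervalIntegrable ?_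
    rw [huIcc]; exact f2_cont l x hη
  have hire : IntervalIntegrable (fun u => (msc ⟨x, u⟩).re) volume η R := by
    refine ContinuousOn.intervalIntegrable ?_
    rw [huIcc]; exact Complex.continuous_re.comp_continuousOn (msc_contOn x η R hη)
  -- integral of f1
  have h1 : ∫ u in η..R, f1 l x u = A - AR := by
    unfold f1
    rw [intervalIntegral.integral_finsetSum]
    · rw [hA, hAR, ← Finset.sum_sub_distrib]
      exact Finset.sum_congr rfl fun i _ => arctan_int (x - l i) hη hR
    · intro i _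
      refine ContinuousOn.intervalIntegrable ?_
      rw [huIcc]
      refine ContinuousOn.div continuousOn_const (by fun_prop) fun u hu => ?_
      have : 0 < u := lt_of_lt_of_le hη hu.1
      positivity
  have h2 : ∫ u in η..R, (f1 l x u + n * (msc ⟨x, u⟩).re)
      = (A - AR) + n * (aSC x R - aSC x η) := by
    rw [intervalIntegral.integral_add hif1 (hire.const_mul _), intervalIntegral.integral_const_mul, h1,
      aSC_diff x hη hR]
    ring
  -- the sign sum
  have h3 : ∑ i, Real.pi / 2 * (if 0 ≤ x - l i then (1 : ℝ) else -1) = Real.pi * NN l x - Real.pi / 2 * M := by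
    unfold NN
    rw [Finset.mul_sum]
    have : Real.pi / 2 * (M : ℝ) = ∑ i : Fin M, Real.pi / 2 := by simp; ring
    rw [this, ← Finset.sum_sub_distrib]
    refine Finset.sum_congr rfl fun i _ => ?_
    by_cases h : l i ≤ x
    · rw [if_pos (by linarith), if_pos h]; ring
    · rw [if_neg (by linarith), if_neg h]; ring
  have h4 : |A - (Real.pi * NN l x - Real.pi / 2 * M)| ≤ Real.pi * η * ((∫ u in η..R, f2 l x u) + M / R) := by
    rw [← h3, hA, ← Finset.sum_sub_distrib]
    refine (Finset.abs_sum_le_sum_abs _ _).trans ?_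
    refine (Finset.sum_le_sum fun i _ => chi_bound (x - l i) hη hR).trans (le_of_eq ?_)
    rw [← Finset.mul_sum, Finset.sum_add_distrib]
    unfold f2
    rw [intervalIntegral.integral_finsetSum]
    · congr 2
      simp [div_eq_mul_inv]
    · intro i _
      refine ContinuousOn.intervalIntegrable ?_
      rw [huIcc]
      refine ContinuousOn.div continuousOn_const (by fun_prop) fun u hu => ?_
      have : 0 < u := lt_of_lt_of_le hη hu.1
      positivity
  have h5 : |AR| ≤ (∑ i, |x - l i|) / R := by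
    rw [hAR, Finset.sum_div]
    refine (Finset.abs_sum_le_sum_abs _ _).trans (Finset.sum_le_sum fun i _ => ?_)
    refine (abs_arctan_le _).trans ?_
    rw [abs_div, abs_of_pos hRpos]
  have h6 := aSC_bound hx hRpos
  have h7 := aSC_chi hx hη hR
  have hn0 : (0 : ℝ) ≤ n := Nat.cast_nonneg n
  have hMn : |(M : ℝ) - n| ≤ 1 := by
    rw [abs_le]
    have h8 : (M : ℝ) ≤ n := by exact_mod_cast hM
    have h9 : (n : ℝ) ≤ M + 1 := by exact_mod_cast hn
    constructor <;> linarith
  set F1 : ℝ := ∫ u in η..R, (f1 l x u + n * (msc ⟨x, u⟩).re) with hF1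
  set F2 : ℝ := ∫ u in η..R, f2 l x u with hF2
  set F3 : ℝ := ∫ u in η..R, (msc ⟨x, u⟩).im / u with hF3
  -- decomposition
  have h10 : Real.pi * (NN l x - n * Fsc x)
      = -(A - (Real.pi * NN l x - Real.pi / 2 * M)) + F1 + (AR - n * aSC x R)
        + n * (aSC x η - (Real.pi * Fsc x - Real.pi / 2)) + Real.pi / 2 * (M - n) := by
    rw [h2]; ring
  have h11 : Real.pi * |NN l x - n * Fsc x| ≤ Real.pi * η * (F2 + M / R) + |F1|
      + ((∑ i, |x - l i|) / R + n * (4 / R)) + n * (Real.pi * η * (F3 + 1 / R)) + Real.pi / 2 := by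
    have : Real.pi * |NN l x - n * Fsc x| = |Real.pi * (NN l x - n * Fsc x)| := by
      rw [abs_mul, abs_of_pos hpi]
    rw [this, h10]
    refine (abs_add_le _ _).trans (add_le_add ((abs_add_le _ _).trans (add_le_add ((abs_add_le _ _).trans
      (add_le_add ((abs_add_le _ _).trans (add_le_add ?_ le_rfl)) ?_)) ?_)) ?_)
    · rw [abs_neg]; exact h4
    · refine (abs_sub _ _).trans (add_le_add h5 ?_)
      rw [abs_mul, abs_of_nonneg hn0]
      exact mul_le_mul_of_nonneg_left h6 hn0
    · rw [abs_mul, abs_of_nonneg hn0]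
      exact mul_le_mul_of_nonneg_left h7 hn0
    · rw [abs_mul, abs_of_pos (by positivity)]
      nlinarith
  have hF1n := abs_nonneg F1
  have hS : 0 ≤ (∑ i, |x - l i|) / R := by positivity
  have h4n : 0 ≤ n * (4 / R) := by positivity
  have h12 : Real.pi * |NN l x - n * Fsc x| ≤ Real.pi * (|F1| + η * F2 + n * η * F3
      + ((M + n) * η / R + (∑ i, |x - l i|) / R + 4 * n / R + 1 / 2)) := by
    refine h11.trans ?_
    have e1 : Real.pi * (|F1| + η * F2 + n * η * F3
      + ((M + n) * η / R + (∑ i, |x - l i|) / R + 4 * n / R + 1 / 2))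
      = Real.pi * η * (F2 + M / R) + Real.pi * |F1| + Real.pi * ((∑ i, |x - l i|) / R + n * (4 / R))
        + n * (Real.pi * η * (F3 + 1 / R)) + Real.pi / 2 := by
      field_simp
      ring
    rw [e1]
    have e2 : |F1| ≤ Real.pi * |F1| := by nlinarith
    have e3 : (∑ i, |x - l i|) / R + n * (4 / R) ≤ Real.pi * ((∑ i, |x - l i|) / R + n * (4 / R)) := by
      nlinarith
    linarith
  exact le_of_mul_le_mul_left h12 hpi

end Pool.Agent.ZR.I

end
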