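import Pool.Agent.ZRM.P06
import Pool.Agent.ZRM.P07
import Pool.Agent.ZRM.P08

/-!
# Merged form of the modules ZR.LEv, ZR.E2, ZR.PB5, ZR.LFin, ZR.PB6, ZR.PB7
-/

set_option autoImplicit false

section

/-!
# ZR/LEv : the good event of part L

PROOF.  `cI_evs`, `cN_evs`: `cntI_eq`, `cnt_eq` (Sp4) and `Fin n` versus `Finset.range n`.
`good_prob`: grid `y_j = E - 2b + j/n`, `0 ≤ j ≤ ⌈4 b n⌉ =: T ≤ 4 n^ε + 1`.  If for all `j`
`cntI A y_j ((R+1)/n) < n^ν (R+1)` then for `|y - E| ≤ 2b` choose `j` with `|y - y_j| ≤ 1/n`: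
`cntI A y (R/n) ≤ cntI A y_j ((R+1)/n) ≤ n^ν (R+1) ≤ n^(2ν)` for large `n`.  So the complement of the event is
contained in a union of at most `4 n^ε + 2` events of probability `≤ n^(-D)` (hypothesis with `r = (R+1)/n`),
total `≤ 6 n n^(-D) ≤ n^(2-D)`.
The set in the conclusion is contained in a measurable set by the same union; `P'.real` of a possibly
non measurable set is monotone and subadditive (`measureReal_mono`, `measureReal_iUnion_fintype_le`).
-/


open MeasureTheory Matrix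

namespace Pool.Agent.ZR

theorem cI_evs {n : ℕ} (A : Matrix (Fin n) (Fin n) ℝ) (hA : A.IsSymm) (y r : ℝ) :
    cI n (evs A) y r = cntI A y r := by
  classical
  rw [cntI_eq A hA]
  unfold cI
  rw [Finset.card_filter, Finset.card_filter, Finset.sum_range]

theorem cN_evs {n : ℕ} (A : Matrix (Fin n) (Fin n) ℝ) (hA : A.IsSymm) (y : ℝ) :
    cN n (evs A) y = cnt A y := by
  classical
  rw [cnt_eq A hA]
  unfold cN
  rw [Finset.card_filter, Finset.card_filter, Finset.sum_range]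

private lemma cntI_mono27 {n : ℕ} (A : Matrix (Fin n) (Fin n) ℝ) {y z r s : ℝ}
    (h : ∀ l : ℝ, |l - y| ≤ r → |l - z| ≤ s) : cntI A y r ≤ cntI A z s := by
  unfold cntI
  rw [Multiset.countP_eq_card_filter, Multiset.countP_eq_card_filter]
  apply Multiset.card_le_card
  exact Multiset.monotone_filter_right _ (fun l hl => h l hl)

theorem good_prob (E ε ν R D : ℝ) (hε : 0 < ε) (hε1 : ε < 1) (hν : 0 < ν) (hR : 0 < R)
    (hD : 0 < D) :
    ∃ n0 : ℕ, ∀ n : ℕ, n0 ≤ n → ∀ (Ω : Type) [MeasurableSpace Ω] (P' : Measure Ω)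
      [IsProbabilityMeasure P'] (A : Ω → Matrix (Fin n) (Fin n) ℝ), (∀ ω, (A ω).IsSymm) →
      (∀ x r : ℝ, 1 / (n : ℝ) ≤ r →
        P'.real {ω | (n : ℝ) ^ ν * (n * r) ≤ (cntI (A ω) x r : ℝ)} ≤ (n : ℝ) ^ (-D)) →
      ∃ S : Set Ω, P'.real S ≤ (n : ℝ) ^ (2 - D) ∧ ∀ ω, ω ∉ S →
        ∀ y, |y - E| ≤ 2 * (n : ℝ) ^ (-1 + ε) →
          (cI n (evs (A ω)) y (R / n) : ℝ) ≤ (n : ℝ) ^ (2 * ν) := by
  -- large n
  have hlim : Filter.Tendsto (fun n : ℕ => (n : ℝ) ^ ν) Filter.atTop Filter.atTop :=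
    (tendsto_rpow_atTop hν).comp tendsto_natCast_atTop_atTop
  obtain ⟨n1, hn1⟩ := Filter.eventually_atTop.1 (hlim.eventually_ge_atTop (R + 1))
  refine ⟨max n1 6, fun n hn Ω _ P' _ A hA hP => ?_⟩
  have hnn1 : n1 ≤ n := le_trans (le_max_left _ _) hn
  have hn6 : 6 ≤ n := le_trans (le_max_right _ _) hn
  have hn6R : (6 : ℝ) ≤ n := by exact_mod_cast hn6
  have hn0 : (0 : ℝ) < n := by linarith
  have hnR := hn1 n hnn1
  set b : ℝ := (n : ℝ) ^ (-1 + ε) with hb
  have hb0 : 0 < b := Real.rpow_pos_of_pos hn0 _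
  have hbn : b * n = (n : ℝ) ^ ε := by
    rw [hb]
    nth_rewrite 2 [← Real.rpow_one (n : ℝ)]
    rw [← Real.rpow_add hn0]
    congr 1
    ring
  have hεn : (n : ℝ) ^ ε ≤ n := by
    calc (n : ℝ) ^ ε ≤ (n : ℝ) ^ (1 : ℝ) :=
          Real.rpow_le_rpow_of_exponent_le (by linarith) hε1.le
      _ = n := Real.rpow_one _
  set T : ℕ := ⌈4 * (b * n)⌉₊ with hT
  have hT1 : (T : ℝ) < 4 * (b * n) + 1 := Nat.ceil_lt_add_one (by positivity)
  set r : ℝ := (R + 1) / n with hr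
  have hnr : (n : ℝ) * r = R + 1 := by rw [hr]; field_simp
  refine ⟨⋃ j : Fin (T + 1), {ω | (n : ℝ) ^ ν * (n * r) ≤
    (cntI (A ω) (E - 2 * b + (j : ℕ) / n) r : ℝ)}, ?_, ?_⟩
  · refine (measureReal_iUnion_fintype_le _).trans ?_
    have hr1 : 1 / (n : ℝ) ≤ r := by
      rw [hr]
      gcongr
      linarith
    calc ∑ j : Fin (T + 1), P'.real {ω | (n : ℝ) ^ ν * (n * r) ≤
          (cntI (A ω) (E - 2 * b + (j : ℕ) / n) r : ℝ)}
        ≤ ∑ j : Fin (T + 1), (n : ℝ) ^ (-D) :=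
          Finset.sum_le_sum fun j _ => hP _ _ hr1
      _ = (T + 1 : ℝ) * (n : ℝ) ^ (-D) := by
          rw [Finset.sum_const, Finset.card_univ, Fintype.card_fin, nsmul_eq_mul]
          push_cast
          ring
      _ ≤ (n : ℝ) ^ (2 : ℝ) * (n : ℝ) ^ (-D) := by
          gcongr
          rw [Real.rpow_ofNat]
          nlinarith
      _ = (n : ℝ) ^ (2 - D) := by
          rw [← Real.rpow_add hn0]
          congr 1
  · intro ω hω y hy
    rw [cI_evs _ (hA ω)]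
    have hy' := abs_le.1 hy
    set t : ℝ := (y - (E - 2 * b)) * n with ht
    have ht0 : 0 ≤ t := by
      rw [ht]
      apply mul_nonneg _ hn0.le
      linarith [hy'.1]
    have ht1 : t ≤ 4 * (b * n) := by
      rw [ht]
      have : y - (E - 2 * b) ≤ 4 * b := by linarith [hy'.2]
      calc (y - (E - 2 * b)) * n ≤ 4 * b * n := by gcongr
        _ = 4 * (b * n) := by ring
    have hf1 := Nat.floor_le ht0
    have hf2 := Nat.lt_floor_add_one t
    have hjT : ⌊t⌋₊ < T + 1 := by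
      apply Nat.lt_succ_of_le
      rw [hT]
      exact (Nat.floor_mono ht1).trans (Nat.floor_le_ceil _)
    have hω' : ¬ ((n : ℝ) ^ ν * (n * r) ≤
        (cntI (A ω) (E - 2 * b + ((⌊t⌋₊ : ℕ) : ℝ) / n) r : ℝ)) := by
      intro h
      exact hω (Set.mem_iUnion.2 ⟨⟨⌊t⌋₊, hjT⟩, h⟩)
    rw [not_le] at hω'
    have hm : cntI (A ω) y (R / n) ≤ cntI (A ω) (E - 2 * b + ((⌊t⌋₊ : ℕ) : ℝ) / n) r := by
      apply cntI_mono27
      intro l hl
      have h1 : ((⌊t⌋₊ : ℕ) : ℝ) / n ≤ y - (E - 2 * b) := by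
        rw [div_le_iff₀ hn0]; exact hf1
      have h2 : y - (E - 2 * b) < (((⌊t⌋₊ : ℕ) : ℝ) + 1) / n := by
        rw [lt_div_iff₀ hn0]; exact hf2
      have h3 : (((⌊t⌋₊ : ℕ) : ℝ) + 1) / n = ((⌊t⌋₊ : ℕ) : ℝ) / n + 1 / n := by ring
      have h4 : r = R / n + 1 / n := by rw [hr]; ring
      have hl' := abs_le.1 hl
      rw [abs_le, h4]
      constructor <;> linarith [hl'.1, hl'.2]
    calc (cntI (A ω) y (R / n) : ℝ) ≤ (cntI (A ω) (E - 2 * b + ((⌊t⌋₊ : ℕ) : ℝ) / n) r : ℝ) := by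
          exact_mod_cast hm
      _ ≤ (n : ℝ) ^ ν * (n * r) := hω'.le
      _ = (n : ℝ) ^ ν * (R + 1) := by rw [hnr]
      _ ≤ (n : ℝ) ^ ν * (n : ℝ) ^ ν := by gcongr
      _ = (n : ℝ) ^ (2 * ν) := by
          rw [← Real.rpow_add hn0]
          congr 1
          ring

end Pool.Agent.ZR

end

section

/-!
# ZR part E2 : loop equation for `Q W Q`, `W = Wv v X`, `Q` an orthogonal projection

`G = Gz Q (Q W Q) z`, `m = (1/N) tr G`.  For a bounded function `Φ` of `W` with bounded derivatives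
`D_ab Φ` in the directions `E^ab = e_a e_b^T + e_b e_a^T`:
`∑_ab E[W_ab G_ba Φ] = v ∑_ab E[ -(G_ba² + G_bb G_aa) Φ + G_ba D_ab Φ ]`,
that is `E[tr(Q W Q G) Φ] = - v E[(tr G² + (tr G)²) Φ] + v ∑_ab E[G_ba D_ab Φ]`,
and `tr (Q W Q G) = tr Q + z tr G`.
-/


open MeasureTheory ProbabilityTheory Matrix Filter Topology

namespace Pool.Agent.ZR.E

variable {N : ℕ} {Q : Matrix (Fin N) (Fin N) ℝ}

theorem pb_QWQ (hQs : Qᵀ = Q) (hQQ : Q * Q = Q) {W : Matrix (Fin N) (Fin N) ℝ} (hW : Wᵀ = W) :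
    PB Q (Q * W * Q) where
  qs := hQs
  qq := hQQ
  bs := by
    rw [Matrix.transpose_mul, Matrix.transpose_mul, hQs, hW, Matrix.mul_assoc]
  qb := by
    rw [← Matrix.mul_assoc, ← Matrix.mul_assoc, hQQ]
  bq := by
    rw [Matrix.mul_assoc, hQQ]

/-- the matrix `e_a e_b^T + e_b e_a^T` -/
def Eab {N : ℕ} (a b : Fin N) : Matrix (Fin N) (Fin N) ℝ :=
  Matrix.single a b (1 : ℝ) + Matrix.single b a 1

theorem Eab_symm (a b : Fin N) : (Eab a b)ᵀ = Eab a b := by
  rw [Eab, Matrix.transpose_add, Matrix.transpose_single, Matrix.transpose_single, add_comm]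

/-- `(A E^ab C)_ij = A_ia C_bj + A_ib C_aj` -/
theorem mul_Eab_mul (A C : Matrix (Fin N) (Fin N) ℂ) (a b i j : Fin N) :
    (A * toC (Eab a b) * C) i j = A i a * C b j + A i b * C a j := by
  have h1 : ∀ k l, (toC (Eab a b)) k l
      = (if a = k ∧ b = l then 1 else 0) + (if b = k ∧ a = l then (1 : ℂ) else 0) := by
    intro k l
    simp only [toC, Eab, Matrix.map_apply, Matrix.add_apply, Matrix.single_apply]
    push_cast
    split_ifs <;> simp
  have h2 : ∀ l, (A * toC (Eab a b)) i l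
      = A i a * (if b = l then 1 else 0) + A i b * (if a = l then 1 else 0) := by
    intro l
    rw [Matrix.mul_apply]
    simp only [h1, mul_add, Finset.sum_add_distrib]
    congr 1
    · rw [Finset.sum_eq_single a]
      · simp
      · intro k _ hk
        have : ¬ (a = k ∧ b = l) := fun h => hk h.1.symm
        simp [this]
      · simp
    · rw [Finset.sum_eq_single b]
      · simp
      · intro k _ hk
        have : ¬ (b = k ∧ a = l) := fun h => hk h.1.symm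
        simp [this]
      · simp
  rw [Matrix.mul_apply]
  simp only [h2, add_mul, Finset.sum_add_distrib]
  congr 1
  · rw [Finset.sum_eq_single b]
    · simp
    · intro k _ hk
      simp [hk.symm]
    · simp
  · rw [Finset.sum_eq_single a]
    · simp
    · intro k _ hk
      simp [hk.symm]
    · simp

theorem toC_mul (A B : Matrix (Fin N) (Fin N) ℝ) : toC (A * B) = toC A * toC B := by
  ext i j
  simp [toC, Matrix.mul_apply]

/-- derivative of the entries of `G(Q W Q)` in the direction `E^ab` -/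
theorem gQ_hasDerivAt (hQs : Qᵀ = Q) (hQQ : Q * Q = Q) {W : Matrix (Fin N) (Fin N) ℝ}
    (hW : Wᵀ = W) (z : ℂ) (hz : z.im ≠ 0) (a b i j : Fin N) :
    HasDerivAt (fun s : ℝ => Gz Q (Q * (W + s • Eab a b) * Q) z i j)
      (-(Gz Q (Q * W * Q) z i a * Gz Q (Q * W * Q) z b j
        + Gz Q (Q * W * Q) z i b * Gz Q (Q * W * Q) z a j)) 0 := by
  have hB := pb_QWQ hQs hQQ hW
  have hK := pb_QWQ hQs hQQ (Eab_symm a b)
  have h := gz_hasDerivAt hB hK z hz i j
  have h1 : ∀ s : ℝ, Q * (W + s • Eab a b) * Q = Q * W * Q + s • (Q * Eab a b * Q) := by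
    intro s
    rw [Matrix.mul_add, Matrix.add_mul, Matrix.mul_smul, Matrix.smul_mul]
  simp only [h1]
  convert h using 2
  rw [toC_mul, toC_mul]
  obtain ⟨e1, e2⟩ := gz_q hB z hz
  have h2 : Gz Q (Q * W * Q) z * (toC Q * toC (Eab a b) * toC Q) * Gz Q (Q * W * Q) z
      = (Gz Q (Q * W * Q) z * toC Q) * toC (Eab a b) * (toC Q * Gz Q (Q * W * Q) z) := by
    simp only [Matrix.mul_assoc]
  rw [h2, e1, e2, mul_Eab_mul]

/-- derivative of `m` in the direction `E^ab` -/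
theorem mQ_hasDerivAt (hQs : Qᵀ = Q) (hQQ : Q * Q = Q) {W : Matrix (Fin N) (Fin N) ℝ}
    (hW : Wᵀ = W) (z : ℂ) (hz : z.im ≠ 0) (a b : Fin N) :
    HasDerivAt (fun s : ℝ => mz Q (Q * (W + s • Eab a b) * Q) z)
      (-((2 / (N : ℂ)) * (Gz Q (Q * W * Q) z ^ 2) a b)) 0 := by
  have hB := pb_QWQ hQs hQQ hW
  have h1 : HasDerivAt (fun s : ℝ => ∑ i, Gz Q (Q * (W + s • Eab a b) * Q) z i i)
      (∑ i, -(Gz Q (Q * W * Q) z i a * Gz Q (Q * W * Q) z b i
        + Gz Q (Q * W * Q) z i b * Gz Q (Q * W * Q) z a i)) 0 :=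
    HasDerivAt.fun_sum (fun i _ => gQ_hasDerivAt hQs hQQ hW z hz a b i i)
  have h2 := h1.const_mul (1 / (N : ℂ))
  have hs : ∀ i j, Gz Q (Q * W * Q) z i j = Gz Q (Q * W * Q) z j i := by
    intro i j
    have := congrFun (congrFun (gz_symm hB z hz) j) i
    simpa using this
  have h3 : (1 / (N : ℂ)) * ∑ i, -(Gz Q (Q * W * Q) z i a * Gz Q (Q * W * Q) z b i
        + Gz Q (Q * W * Q) z i b * Gz Q (Q * W * Q) z a i)
      = -((2 / (N : ℂ)) * (Gz Q (Q * W * Q) z ^ 2) a b) := by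
    rw [pow_two, Matrix.mul_apply, Finset.sum_neg_distrib, Finset.sum_add_distrib]
    have e1 : ∑ i, Gz Q (Q * W * Q) z i a * Gz Q (Q * W * Q) z b i
        = ∑ i, Gz Q (Q * W * Q) z a i * Gz Q (Q * W * Q) z i b :=
      Finset.sum_congr rfl fun i _ => by rw [hs i a, hs b i]
    have e2 : ∑ i, Gz Q (Q * W * Q) z i b * Gz Q (Q * W * Q) z a i
        = ∑ i, Gz Q (Q * W * Q) z a i * Gz Q (Q * W * Q) z i b :=
      Finset.sum_congr rfl fun i _ => by rw [mul_comm]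
    rw [e1, e2]
    ring
  rw [h3] at h2
  exact h2

/-- Loop equation. -/
theorem loop_eq (hQs : Qᵀ = Q) (hQQ : Q * Q = Q) {v : ℝ} (hv : 0 ≤ v) (z : ℂ) (hz : z.im ≠ 0)
    {Φ : Matrix (Fin N) (Fin N) ℝ → ℂ} {D : Fin N → Fin N → (Fin N × Fin N → ℝ) → ℂ}
    (hΦ : ∀ X a b, HasDerivAt (fun s : ℝ => Φ (Wv v X + s • Eab a b)) (D a b X) 0)
    (hΦc : Continuous (fun X : Fin N × Fin N → ℝ => Φ (Wv v X)))
    (hDc : ∀ a b, Continuous (D a b)) {C : ℝ} (hΦb : ∀ X, ‖Φ (Wv v X)‖ ≤ C)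
    (hDb : ∀ X a b, ‖D a b X‖ ≤ C) :
    ∫ X, ((Q.trace : ℂ) + z * (Gz Q (Q * Wv v X * Q) z).trace) * Φ (Wv v X) ∂(gm N)
      = ∫ X, (-((v : ℂ) * ((Gz Q (Q * Wv v X * Q) z ^ 2).trace
            + (Gz Q (Q * Wv v X * Q) z).trace ^ 2) * Φ (Wv v X))
          + (v : ℂ) * ∑ a, ∑ b, Gz Q (Q * Wv v X * Q) z b a * D a b X) ∂(gm N) := by
  set G : (Fin N × Fin N → ℝ) → Matrix (Fin N) (Fin N) ℂ :=
    fun X => Gz Q (Q * Wv v X * Q) z with hG
  have hP : ∀ X, PB Q (Q * Wv v X * Q) := fun X => pb_QWQ hQs hQQ (wv_symm v X)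
  have hBc : Continuous (fun X : Fin N × Fin N → ℝ => Q * Wv v X * Q) :=
    (continuous_const.matrix_mul (wv_continuous v)).matrix_mul continuous_const
  have hGc : ∀ i j, Continuous (fun X => G X i j) := fun i j =>
    gz_entry_continuous hBc hP z hz i j
  have hGb : ∀ X i j, ‖G X i j‖ ≤ 1 / |z.im| := fun X i j => g_entry_le (hP X) z hz i j
  have hGs : ∀ X i j, G X i j = G X j i := by
    intro X i j
    have := congrFun (congrFun (gz_symm (hP X) z hz) j) i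
    simpa using this
  have hC0 : 0 ≤ C := (norm_nonneg _).trans (hΦb 0)
  have hz0 : 0 ≤ 1 / |z.im| := by positivity
  -- integrability of continuous bounded functions
  have hint : ∀ (F : (Fin N × Fin N → ℝ) → ℂ) (K : ℝ), Continuous F → (∀ X, ‖F X‖ ≤ K) →
      Integrable F (gm N) := by
    intro F K hF hK
    refine gm_integrable_of_le hF.aestronglyMeasurable K 0 fun X => ?_
    simpa using hK X
  -- the derivative of `G_ba Φ`
  have hder : ∀ a b X, HasDerivAt (fun s : ℝ =>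
      Gz Q (Q * (Wv v X + s • Eab a b) * Q) z b a * Φ (Wv v X + s • Eab a b))
      (-(G X b a * G X b a + G X b b * G X a a) * Φ (Wv v X) + G X b a * D a b X) 0 := by
    intro a b X
    have h1 := gQ_hasDerivAt hQs hQQ (wv_symm v X) z hz a b b a
    have h2 := hΦ X a b
    have h3 := HasDerivAt.fun_mul h1 h2
    refine h3.congr_deriv ?_
    simp only [hG, zero_smul, add_zero]
  have hibp : ∀ a b, ∫ X, ((Wv v X a b : ℝ) : ℂ) * (G X b a * Φ (Wv v X)) ∂(gm N)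
      = (v : ℂ) * ∫ X, (-(G X b a * G X b a + G X b b * G X a a) * Φ (Wv v X)
          + G X b a * D a b X) ∂(gm N) := by
    intro a b
    have hFc : Continuous (fun X => G X b a * Φ (Wv v X)) := (hGc b a).mul hΦc
    have hFb : ∀ X, ‖G X b a * Φ (Wv v X)‖ ≤ (1 / |z.im| * C) * (1 + ∑ p, |X p|) ^ 0 := by
      intro X
      rw [norm_mul, pow_zero, mul_one]
      exact mul_le_mul (hGb X b a) (hΦb X) (norm_nonneg _) hz0
    have h := gm_ibp_Wv (N := N) hv a b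
      (F := fun W => Gz Q (Q * W * Q) z b a * Φ W)
      (F' := fun X => -(G X b a * G X b a + G X b b * G X a a) * Φ (Wv v X) + G X b a * D a b X)
      (fun X => hder a b X)
      (gm_integrable_coord_smul hFc.aestronglyMeasurable _ 0 hFb (a, b))
      (gm_integrable_coord_smul hFc.aestronglyMeasurable _ 0 hFb (b, a))
      (by
        refine hint _ ((1 / |z.im| * (1 / |z.im|) + 1 / |z.im| * (1 / |z.im|)) * C
          + 1 / |z.im| * C) ?_ ?_
        · exact (((((hGc b a).mul (hGc b a)).add ((hGc b b).mul (hGc a a))).neg.mul hΦc)).add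
            ((hGc b a).mul (hDc a b))
        · intro X
          refine (norm_add_le _ _).trans ?_
          rw [norm_mul, norm_neg, norm_mul]
          refine add_le_add ?_ ?_
          · refine mul_le_mul ?_ (hΦb X) (norm_nonneg _) (by positivity)
            refine (norm_add_le _ _).trans ?_
            rw [norm_mul, norm_mul]
            have e1 := hGb X b a
            have e2 := hGb X b b
            have e3 := hGb X a a
            gcongr
          · exact mul_le_mul (hGb X b a) (hDb X a b) (norm_nonneg _) hz0)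
    simp only [Complex.real_smul] at h
    exact h
  -- the trace identity
  have htr : ∀ X, (Q.trace : ℂ) + z * (G X).trace
      = ∑ a, ∑ b, ((Wv v X a b : ℝ) : ℂ) * G X b a := by
    intro X
    have h1 := congrArg Matrix.trace (gz_eq (hP X) z hz)
    rw [Matrix.trace_add, Matrix.trace_smul, smul_eq_mul] at h1
    have h2 : (toC Q).trace = (Q.trace : ℂ) := by
      simp [toC, Matrix.trace]
    rw [h2] at h1
    have h3 : (toC (Q * Wv v X * Q) * G X).trace = (toC (Wv v X) * G X).trace := by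
      rw [toC_mul, toC_mul]
      obtain ⟨e1, e2⟩ := gz_q (hP X) z hz
      have e3 : toC Q * toC (Wv v X) * toC Q * G X = toC Q * (toC (Wv v X) * (toC Q * G X)) := by
        simp only [Matrix.mul_assoc]
      rw [e3, Matrix.trace_mul_comm, show toC Q * G X = G X from e2, Matrix.mul_assoc,
        show G X * toC Q = G X from e1]
    rw [show (Gz Q (Q * Wv v X * Q) z) = G X from rfl] at h1
    rw [← h1, h3]
    simp [Matrix.trace, Matrix.mul_apply, toC]
  have hWint : ∀ a b, Integrable (fun X => ((Wv v X a b : ℝ) : ℂ) * (G X b a * Φ (Wv v X)))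
      (gm N) := by
    intro a b
    refine gm_integrable_of_le ?_ (2 * Real.sqrt (v / 2) * (1 / |z.im| * C)) 1 fun X => ?_
    · have hWc : Continuous (fun X : Fin N × Fin N → ℝ => ((Wv v X a b : ℝ) : ℂ)) :=
        Complex.continuous_ofReal.comp ((wv_continuous v).matrix_elem a b)
      exact (hWc.mul ((hGc b a).mul hΦc)).aestronglyMeasurable
    · rw [norm_mul, norm_mul, Complex.norm_real, Real.norm_eq_abs, pow_one]
      have e1 := wv_abs_le v X a b
      have e2 : ‖G X b a‖ * ‖Φ (Wv v X)‖ ≤ 1 / |z.im| * C :=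
        mul_le_mul (hGb X b a) (hΦb X) (norm_nonneg _) hz0
      calc |Wv v X a b| * (‖G X b a‖ * ‖Φ (Wv v X)‖)
          ≤ (2 * Real.sqrt (v / 2) * (1 + ∑ p, |X p|)) * (1 / |z.im| * C) :=
            mul_le_mul e1 e2 (by positivity) ((abs_nonneg _).trans e1)
        _ = _ := by ring
  have hRint : ∀ a b, Integrable (fun X => -(G X b a * G X b a + G X b b * G X a a) *
      Φ (Wv v X) + G X b a * D a b X) (gm N) := by
    intro a b
    refine hint _ ((1 / |z.im| * (1 / |z.im|) + 1 / |z.im| * (1 / |z.im|)) * C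
      + 1 / |z.im| * C) ?_ ?_
    · exact (((((hGc b a).mul (hGc b a)).add ((hGc b b).mul (hGc a a))).neg.mul hΦc)).add
        ((hGc b a).mul (hDc a b))
    · intro X
      refine (norm_add_le _ _).trans ?_
      rw [norm_mul, norm_neg, norm_mul]
      refine add_le_add ?_ ?_
      · refine mul_le_mul ?_ (hΦb X) (norm_nonneg _) (by positivity)
        refine (norm_add_le _ _).trans ?_
        rw [norm_mul, norm_mul]
        have e1 := hGb X b a
        have e2 := hGb X b b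
        have e3 := hGb X a a
        gcongr
      · exact mul_le_mul (hGb X b a) (hDb X a b) (norm_nonneg _) hz0
  have hL : ∫ X, ((Q.trace : ℂ) + z * (G X).trace) * Φ (Wv v X) ∂(gm N)
      = ∑ a, ∑ b, ∫ X, ((Wv v X a b : ℝ) : ℂ) * (G X b a * Φ (Wv v X)) ∂(gm N) := by
    have e : ∀ X, ((Q.trace : ℂ) + z * (G X).trace) * Φ (Wv v X)
        = ∑ a, ∑ b, ((Wv v X a b : ℝ) : ℂ) * (G X b a * Φ (Wv v X)) := by
      intro X
      rw [htr X, Finset.sum_mul]
      refine Finset.sum_congr rfl fun a _ => ?_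
      rw [Finset.sum_mul]
      refine Finset.sum_congr rfl fun b _ => ?_
      ring
    simp only [e]
    rw [integral_finsetSum _ (fun a _ => integrable_finsetSum _ fun b _ => hWint a b)]
    refine Finset.sum_congr rfl fun a _ => ?_
    rw [integral_finsetSum _ (fun b _ => hWint a b)]
  have hR : ∫ X, (-((v : ℂ) * ((G X ^ 2).trace + (G X).trace ^ 2) * Φ (Wv v X))
          + (v : ℂ) * ∑ a, ∑ b, G X b a * D a b X) ∂(gm N)
      = ∑ a, ∑ b, (v : ℂ) * ∫ X, (-(G X b a * G X b a + G X b b * G X a a) * Φ (Wv v X)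
          + G X b a * D a b X) ∂(gm N) := by
    have e : ∀ X, (-((v : ℂ) * ((G X ^ 2).trace + (G X).trace ^ 2) * Φ (Wv v X))
          + (v : ℂ) * ∑ a, ∑ b, G X b a * D a b X)
        = (v : ℂ) * ∑ a, ∑ b, (-(G X b a * G X b a + G X b b * G X a a) * Φ (Wv v X)
          + G X b a * D a b X) := by
      intro X
      have e1 : (G X ^ 2).trace = ∑ a, ∑ b, G X b a * G X b a := by
        rw [pow_two, Matrix.trace]
        refine Finset.sum_congr rfl fun a _ => ?_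
        rw [Matrix.diag_apply, Matrix.mul_apply]
        refine Finset.sum_congr rfl fun b _ => ?_
        rw [hGs X a b]
      have e2 : (G X).trace ^ 2 = ∑ a, ∑ b, G X b b * G X a a := by
        rw [pow_two, Matrix.trace, Finset.sum_mul_sum]
        refine Finset.sum_congr rfl fun a _ => ?_
        refine Finset.sum_congr rfl fun b _ => ?_
        rw [Matrix.diag_apply, Matrix.diag_apply, mul_comm]
      have e3 : ∑ a, ∑ b, (-(G X b a * G X b a + G X b b * G X a a) * Φ (Wv v X)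
            + G X b a * D a b X)
          = -(∑ a, ∑ b, G X b a * G X b a + ∑ a, ∑ b, G X b b * G X a a) * Φ (Wv v X)
            + ∑ a, ∑ b, G X b a * D a b X := by
        simp only [Finset.sum_add_distrib, neg_add, add_mul, neg_mul, Finset.sum_neg_distrib,
          Finset.sum_mul]
      rw [e1, e2, e3]
      ring
    simp only [e]
    rw [integral_const_mul, integral_finsetSum _
      (fun a _ => integrable_finsetSum _ fun b _ => hRint a b), Finset.mul_sum]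
    refine Finset.sum_congr rfl fun a _ => ?_
    rw [integral_finsetSum _ (fun b _ => hRint a b), Finset.mul_sum]
  rw [hL, hR]
  exact Finset.sum_congr rfl fun a _ => Finset.sum_congr rfl fun b _ => hibp a b

end Pool.Agent.ZR.E

end

section

/-!
# ZR/PB5 : norm bound for the Gaussian matrix `W` (helper2)
-/


open MeasureTheory ProbabilityTheory Matrix

namespace Pool.Agent.ZR.PB

/-- moment generating function of a linear form -/
lemma lin_mgf {n : ℕ} (c : Fin n × Fin n → ℝ) (t : ℝ) :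
    Integrable (fun X : Fin n × Fin n → ℝ => Real.exp (t * ∑ p, c p * X p)) (gm n) ∧
      mgf (fun X : Fin n × Fin n → ℝ => ∑ p, c p * X p) (gm n) t
        = Real.exp (t ^ 2 * (∑ p, c p ^ 2) / 2) := by
  have e : ∀ X : Fin n × Fin n → ℝ, Real.exp (t * ∑ p, c p * X p)
      = ∏ p, Real.exp ((t * c p) * X p) := by
    intro X
    rw [Finset.mul_sum, Real.exp_sum]
    exact Finset.prod_congr rfl fun p _ => by rw [mul_assoc]
  constructor
  · have h := Integrable.fintype_prod (μ := fun _ : Fin n × Fin n => gaussianReal 0 1)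
      (f := fun (p : Fin n × Fin n) (x : ℝ) => Real.exp ((t * c p) * x))
      (fun p => integrable_exp_mul_gaussianReal (t * c p))
    refine h.congr (Filter.Eventually.of_forall fun X => ?_)
    exact (e X).symm
  · unfold mgf
    have h := integral_fintype_prod_eq_prod (𝕜 := ℝ) (μ := fun _ : Fin n × Fin n => gaussianReal 0 1)
      (fun (p : Fin n × Fin n) (x : ℝ) => Real.exp ((t * c p) * x))
    have h1 : ∫ X, Real.exp (t * ∑ p, c p * X p) ∂(gm n)
        = ∏ p : Fin n × Fin n, ∫ x, Real.exp ((t * c p) * x) ∂(gaussianReal 0 1) := by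
      rw [← h]
      exact integral_congr_ae (Filter.Eventually.of_forall fun X => e X)
    rw [h1]
    have h2 : ∀ p : Fin n × Fin n, ∫ x, Real.exp ((t * c p) * x) ∂(gaussianReal 0 1)
        = Real.exp ((t * c p) ^ 2 / 2) := by
      intro p
      have := congrFun (mgf_fun_id_gaussianReal (μ := 0) (v := 1)) (t * c p)
      simpa [mgf] using this
    simp only [h2]
    rw [← Real.exp_sum]
    congr 1
    rw [Finset.mul_sum, Finset.sum_div]
    exact Finset.sum_congr rfl fun p _ => by ring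

lemma lin_tail {n : ℕ} (c : Fin n × Fin n → ℝ) (hn : 0 < n) (hc : ∑ p, c p ^ 2 ≤ 2 / n) (s : ℝ)
    (hs : 0 ≤ s) :
    (gm n).real {X | s ≤ ∑ p, c p * X p} ≤ Real.exp (-(n * s ^ 2) / 4) := by
  have hn' : (0 : ℝ) < n := Nat.cast_pos.2 hn
  obtain ⟨h1, h2⟩ := lin_mgf c (n * s / 2)
  have h3 := measure_ge_le_exp_mul_mgf (μ := gm n)
    (X := fun X : Fin n × Fin n → ℝ => ∑ p, c p * X p) s (t := n * s / 2) (by positivity) h1
  refine h3.trans ?_
  rw [h2, ← Real.exp_add]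
  apply Real.exp_le_exp.2
  have h4 : (n * s / 2) ^ 2 * (∑ p, c p ^ 2) / 2 ≤ (n * s / 2) ^ 2 * (2 / n) / 2 := by
    gcongr
  have h5 : (n * s / 2) ^ 2 * (2 / n) / 2 = n * s ^ 2 / 4 := by
    field_simp
    ring
  rw [h5] at h4
  nlinarith

lemma lin_tail_abs {n : ℕ} (c : Fin n × Fin n → ℝ) (hn : 0 < n) (hc : ∑ p, c p ^ 2 ≤ 2 / n) (s : ℝ)
    (hs : 0 ≤ s) :
    (gm n).real {X | s ≤ |∑ p, c p * X p|} ≤ 2 * Real.exp (-(n * s ^ 2) / 4) := by
  have h1 := lin_tail c hn hc s hs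
  have h2 := lin_tail (fun p => -c p) hn (by simpa using hc) s hs
  have hsub : {X : Fin n × Fin n → ℝ | s ≤ |∑ p, c p * X p|}
      ⊆ {X | s ≤ ∑ p, c p * X p} ∪ {X | s ≤ ∑ p, (-c p) * X p} := by
    intro X hX
    rcases le_abs.1 (show s ≤ |∑ p, c p * X p| from hX) with h | h
    · exact Or.inl h
    · right
      show s ≤ ∑ p, (-c p) * X p
      simpa [Finset.sum_neg_distrib] using h
  calc (gm n).real {X | s ≤ |∑ p, c p * X p|}
      ≤ (gm n).real ({X | s ≤ ∑ p, c p * X p} ∪ {X | s ≤ ∑ p, (-c p) * X p}) :=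
        measureReal_mono hsub
    _ ≤ _ := measureReal_union_le _ _
    _ ≤ _ := by linarith

/-- the coefficients of the quadratic form -/
noncomputable def cf {n : ℕ} (v : Fin n → ℝ) : Fin n × Fin n → ℝ :=
  fun p => 2 * Real.sqrt (1 / (n : ℝ) / 2) * (v p.1 * v p.2)

lemma qf_Wv {n : ℕ} (v : Fin n → ℝ) (X : Fin n × Fin n → ℝ) :
    qf (Wv (1 / (n : ℝ)) X) v = ∑ p, cf v p * X p := by
  rw [Fintype.sum_prod_type]
  have e1 : qf (Wv (1 / (n : ℝ)) X) v
      = (∑ i, ∑ j, Real.sqrt (1 / (n : ℝ) / 2) * (v i * v j) * X (i, j))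
        + ∑ i, ∑ j, Real.sqrt (1 / (n : ℝ) / 2) * (v j * v i) * X (j, i) := by
    unfold qf Wv
    rw [← Finset.sum_add_distrib]
    refine Finset.sum_congr rfl fun i _ => ?_
    rw [← Finset.sum_add_distrib]
    refine Finset.sum_congr rfl fun j _ => ?_
    rw [Matrix.of_apply]
    ring
  have e2 : ∑ i, ∑ j, Real.sqrt (1 / (n : ℝ) / 2) * (v j * v i) * X (j, i)
      = ∑ i, ∑ j, Real.sqrt (1 / (n : ℝ) / 2) * (v i * v j) * X (i, j) := Finset.sum_comm
  rw [e1, e2, ← two_mul, Finset.mul_sum]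
  refine Finset.sum_congr rfl fun i _ => ?_
  rw [Finset.mul_sum]
  refine Finset.sum_congr rfl fun j _ => ?_
  unfold cf
  ring

lemma cf_sq {n : ℕ} (v : Fin n → ℝ) (hv : ∑ i, v i ^ 2 ≤ 1) : ∑ p, cf v p ^ 2 ≤ 2 / n := by
  have hv0 : 0 ≤ ∑ i, v i ^ 2 := Finset.sum_nonneg fun i _ => sq_nonneg _
  have e : ∑ p, cf v p ^ 2 = 2 / n * ((∑ i, v i ^ 2) * ∑ j, v j ^ 2) := by
    rw [Fintype.sum_prod_type, Finset.sum_mul_sum, Finset.mul_sum]
    refine Finset.sum_congr rfl fun i _ => ?_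
    rw [Finset.mul_sum]
    refine Finset.sum_congr rfl fun j _ => ?_
    unfold cf
    rw [mul_pow, mul_pow, Real.sq_sqrt (by positivity)]
    ring
  rw [e]
  have h : (∑ i, v i ^ 2) * ∑ j, v j ^ 2 ≤ 1 := by nlinarith
  have h2 : (0 : ℝ) ≤ 2 / n := by positivity
  nlinarith

lemma Wv_sq_sum {n : ℕ} (X : Fin n × Fin n → ℝ) :
    ∑ i, ∑ j, Wv (1 / (n : ℝ)) X i j ^ 2 ≤ 2 / n * ∑ p, X p ^ 2 := by
  rw [Fintype.sum_prod_type]
  have e2 : ∑ i, ∑ j, X (j, i) ^ 2 = ∑ i, ∑ j, X (i, j) ^ 2 := Finset.sum_comm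
  have h1 : ∀ i j, Wv (1 / (n : ℝ)) X i j ^ 2 ≤ 1 / n * (X (i, j) ^ 2 + X (j, i) ^ 2) := by
    intro i j
    unfold Wv
    rw [Matrix.of_apply, mul_pow, Real.sq_sqrt (by positivity)]
    have h0 : (0 : ℝ) ≤ 1 / n := by positivity
    have h2 : (X (i, j) + X (j, i)) ^ 2 ≤ 2 * (X (i, j) ^ 2 + X (j, i) ^ 2) := by
      nlinarith [sq_nonneg (X (i, j) - X (j, i))]
    nlinarith
  calc ∑ i, ∑ j, Wv (1 / (n : ℝ)) X i j ^ 2
      ≤ ∑ i, ∑ j, 1 / n * (X (i, j) ^ 2 + X (j, i) ^ 2) :=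
        Finset.sum_le_sum fun i _ => Finset.sum_le_sum fun j _ => h1 i j
    _ = 1 / n * (∑ i, ∑ j, X (i, j) ^ 2) + 1 / n * (∑ i, ∑ j, X (j, i) ^ 2) := by
        simp only [mul_add, Finset.sum_add_distrib, Finset.mul_sum]
    _ = 2 / n * ∑ i, ∑ j, X (i, j) ^ 2 := by
        rw [e2]; ring

/-- `∫ exp(x²/4) dγ = √2` -/
lemma chi_one : Integrable (fun x : ℝ => Real.exp (1 / 4 * x ^ 2)) (gaussianReal 0 1) ∧
    ∫ x, Real.exp (1 / 4 * x ^ 2) ∂(gaussianReal 0 1) = Real.sqrt 2 := by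
  have e : ∀ x : ℝ, gaussianPDFReal 0 1 x • Real.exp (1 / 4 * x ^ 2)
      = (Real.sqrt (2 * Real.pi))⁻¹ * Real.exp (-(1 / 4) * x ^ 2) := by
    intro x
    rw [gaussianPDFReal_def]
    simp only [smul_eq_mul, NNReal.coe_one, mul_one, sub_zero]
    rw [mul_assoc, ← Real.exp_add]
    congr 2
    ring
  constructor
  · rw [gaussianReal_of_var_ne_zero 0 one_ne_zero,
      integrable_withDensity_iff_integrable_smul' (measurable_gaussianPDF 0 1)
        (Filter.Eventually.of_forall fun x => gaussianPDF_lt_top)]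
    simp only [toReal_gaussianPDF, e]
    exact (integrable_exp_neg_mul_sq (by norm_num : (0 : ℝ) < 1 / 4)).const_mul _
  · rw [integral_gaussianReal_eq_integral_smul one_ne_zero]
    simp only [e]
    rw [integral_const_mul, integral_gaussian]
    rw [← Real.sqrt_inv, ← Real.sqrt_mul (by positivity)]
    congr 1
    have := Real.pi_ne_zero
    field_simp
    norm_num

lemma chi_tail (n : ℕ) :
    (gm n).real {X | 8 * (n : ℝ) ^ 2 ≤ ∑ p, X p ^ 2}
      ≤ Real.exp (-(8 / 5 * (n : ℝ) ^ 2)) := by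
  have e : ∀ X : Fin n × Fin n → ℝ, Real.exp (1 / 4 * ∑ p, X p ^ 2)
      = ∏ p, Real.exp (1 / 4 * X p ^ 2) := by
    intro X
    rw [Finset.mul_sum, Real.exp_sum]
  have h1 : Integrable (fun X : Fin n × Fin n → ℝ => Real.exp (1 / 4 * ∑ p, X p ^ 2)) (gm n) := by
    have h := Integrable.fintype_prod (μ := fun _ : Fin n × Fin n => gaussianReal 0 1)
      (f := fun (_ : Fin n × Fin n) (x : ℝ) => Real.exp (1 / 4 * x ^ 2)) (fun p => chi_one.1)
    refine h.congr (Filter.Eventually.of_forall fun X => ?_)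
    exact (e X).symm
  have h2 : mgf (fun X : Fin n × Fin n → ℝ => ∑ p, X p ^ 2) (gm n) (1 / 4)
      = (Real.sqrt 2) ^ (n * n) := by
    unfold mgf
    have h := integral_fintype_prod_eq_prod (𝕜 := ℝ) (μ := fun _ : Fin n × Fin n => gaussianReal 0 1)
      (fun (_ : Fin n × Fin n) (x : ℝ) => Real.exp (1 / 4 * x ^ 2))
    have h3 : ∫ X, Real.exp (1 / 4 * ∑ p, X p ^ 2) ∂(gm n)
        = ∏ p : Fin n × Fin n, ∫ x, Real.exp (1 / 4 * x ^ 2) ∂(gaussianReal 0 1) := by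
      rw [← h]
      exact integral_congr_ae (Filter.Eventually.of_forall fun X => e X)
    rw [h3]
    simp only [chi_one.2, Finset.prod_const, Finset.card_univ, Fintype.card_prod, Fintype.card_fin]
  have h3 := measure_ge_le_exp_mul_mgf (μ := gm n)
    (X := fun X : Fin n × Fin n → ℝ => ∑ p, X p ^ 2) (8 * (n : ℝ) ^ 2) (t := 1 / 4)
    (by norm_num) h1
  refine h3.trans ?_
  rw [h2]
  have h4 : (Real.sqrt 2) ^ (n * n) = Real.exp (((n * n : ℕ) : ℝ) * (Real.log 2 / 2)) := by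
    rw [← Real.log_sqrt (by norm_num), ← Real.log_pow, Real.exp_log (by positivity)]
  rw [h4, ← Real.exp_add]
  apply Real.exp_le_exp.2
  have h5 := Real.log_two_lt_d9
  push_cast
  nlinarith [sq_nonneg (n : ℝ)]

/-- the exceptional set for `W` -/
def badX (n : ℕ) : Set (Fin n × Fin n → ℝ) :=
  {X | ¬ ∀ v : Fin n → ℝ, |qf (Wv (1 / (n : ℝ)) X) v| ≤ 14 * Real.log n * ∑ i, v i ^ 2}

theorem badX_meas {n : ℕ} (hn : 3 ≤ n) :
    (gm n).real (badX n) ≤ Real.exp (-(2 * (n : ℝ))) := by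
  have hn0 : 0 < n := by omega
  have hn3 : (3 : ℝ) ≤ n := by exact_mod_cast hn
  have hn' : (0 : ℝ) < n := Nat.cast_pos.2 hn0
  have hL := log_ge_one hn
  set L := Real.log n with hLdef
  set N := (Finset.univ : Finset (Fin n → Fin (2 * n + 1))) with hN
  have hcov : badX n ⊆ {X | 8 * (n : ℝ) ^ 2 ≤ ∑ p, X p ^ 2} ∪
      ⋃ q ∈ N.filter (fun q => ∑ i, ny q i ^ 2 ≤ 1), {X | 6 * L ≤ |∑ p, cf (ny q) p * X p|} := by
    intro X hX
    by_contra hcon
    apply hX
    rw [Set.mem_union, not_or] at hcon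
    obtain ⟨hc1, hc2⟩ := hcon
    have h0 : ∑ p, X p ^ 2 < 8 * (n : ℝ) ^ 2 := not_le.1 hc1
    have hsq : ∑ i, ∑ j, Wv (1 / (n : ℝ)) X i j ^ 2 ≤ 16 * n := by
      refine (Wv_sq_sum X).trans ?_
      calc 2 / (n : ℝ) * ∑ p, X p ^ 2 ≤ 2 / n * (8 * (n : ℝ) ^ 2) := by gcongr
        _ = 16 * n := by field_simp; ring
    have h1 : ∀ q : Fin n → Fin (2 * n + 1), ∑ i, ny q i ^ 2 ≤ 1 →
        |qf (Wv (1 / (n : ℝ)) X) (ny q)| ≤ 6 * L := by
      intro q hq
      by_contra h2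
      rw [not_le] at h2
      apply hc2
      rw [Set.mem_iUnion₂]
      refine ⟨q, Finset.mem_filter.2 ⟨Finset.mem_univ _, hq⟩, ?_⟩
      show 6 * L ≤ |∑ p, cf (ny q) p * X p|
      rw [← qf_Wv]
      exact h2.le
    have h3 := qf_net hn0 (Wv (1 / (n : ℝ)) X) (6 * L) hsq h1
    intro v
    have h4 := qf_hom (Wv (1 / (n : ℝ)) X) (6 * L + 8) h3 v
    refine h4.trans ?_
    apply mul_le_mul_of_nonneg_right _ (Finset.sum_nonneg fun i _ => sq_nonneg _)
    linarith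
  have hb : (gm n).real (⋃ q ∈ N.filter (fun q => ∑ i, ny q i ^ 2 ≤ 1),
      {X | 6 * L ≤ |∑ p, cf (ny q) p * X p|}) ≤ Real.exp (-(3 * (n : ℝ))) := by
    refine (measureReal_biUnion_finset_le _ _).trans ?_
    calc ∑ q ∈ N.filter (fun q => ∑ i, ny q i ^ 2 ≤ 1),
          (gm n).real {X | 6 * L ≤ |∑ p, cf (ny q) p * X p|}
        ≤ ∑ q ∈ N.filter (fun q => ∑ i, ny q i ^ 2 ≤ 1),
          2 * Real.exp (-(n * (6 * L) ^ 2) / 4) := by
          refine Finset.sum_le_sum fun q hq => ?_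
          exact lin_tail_abs _ hn0 (cf_sq _ (Finset.mem_filter.1 hq).2) _ (by positivity)
      _ ≤ ∑ q ∈ N, 2 * Real.exp (-(n * (6 * L) ^ 2) / 4) :=
          Finset.sum_le_sum_of_subset_of_nonneg (Finset.filter_subset _ _)
            (fun q _ _ => by positivity)
      _ = (2 * (n : ℝ) + 1) ^ n * (2 * Real.exp (-(n * (6 * L) ^ 2) / 4)) := by
          rw [Finset.sum_const, hN, Finset.card_univ, Fintype.card_fun, Fintype.card_fin,
            Fintype.card_fin, nsmul_eq_mul]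
          push_cast
          ring
      _ ≤ Real.exp (-(3 * (n : ℝ))) := by
          have e1 : (2 * (n : ℝ) + 1) ^ n = Real.exp (n * Real.log (2 * n + 1)) := by
            rw [← Real.log_pow, Real.exp_log (by positivity)]
          have e3 : (2 : ℝ) = Real.exp (Real.log 2) := (Real.exp_log (by norm_num)).symm
          have e4 : (2 * (n : ℝ) + 1) ^ n * (2 * Real.exp (-(n * (6 * L) ^ 2) / 4))
              = Real.exp (n * Real.log (2 * n + 1) + (Real.log 2 + -(n * (6 * L) ^ 2) / 4)) := by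
            rw [Real.exp_add, Real.exp_add, ← e1, ← e3]
          rw [e4]
          apply Real.exp_le_exp.2
          have h2 : Real.log 2 ≤ 0.7 := by
            have := Real.log_two_lt_d9
            linarith
          have h3 : Real.log (2 * n + 1) ≤ 2 * L := log_two_n hn
          have hL2 : L ≤ L ^ 2 := by nlinarith
          have h7 : (n : ℝ) * Real.log (2 * n + 1) ≤ n * (2 * L ^ 2) :=
            mul_le_mul_of_nonneg_left (by linarith) hn'.le
          have h8 : (n : ℝ) ≤ n * L ^ 2 := by nlinarith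
          nlinarith
  have hx : (gm n).real {X | 8 * (n : ℝ) ^ 2 ≤ ∑ p, X p ^ 2} ≤ Real.exp (-(3 * (n : ℝ))) := by
    refine (chi_tail n).trans ?_
    apply Real.exp_le_exp.2
    nlinarith
  have hexp : 2 * Real.exp (-(3 * (n : ℝ))) ≤ Real.exp (-(2 * (n : ℝ))) := by
    have e1 : Real.exp (-(2 * (n : ℝ))) = Real.exp n * Real.exp (-(3 * (n : ℝ))) := by
      rw [← Real.exp_add]
      congr 1
      ring
    rw [e1]
    apply mul_le_mul_of_nonneg_right _ (Real.exp_pos _).le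
    have := Real.add_one_le_exp (n : ℝ)
    linarith
  calc (gm n).real (badX n) ≤ _ := measureReal_mono hcov
    _ ≤ _ := measureReal_union_le _ _
    _ ≤ Real.exp (-(3 * (n : ℝ))) + Real.exp (-(3 * (n : ℝ))) := add_le_add hx hb
    _ ≤ _ := by linarith

end Pool.Agent.ZR.PB

namespace Pool.Agent.ZR

theorem bWv : BWv := by
  refine ⟨14, by norm_num, 3, fun n hn => ?_⟩
  have hn0 : (0 : ℝ) ≤ n := Nat.cast_nonneg n
  refine le_trans ?_ ((PB.badX_meas hn).trans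
    (Real.exp_le_exp.2 (by linarith : -(2 * (n : ℝ)) ≤ -(n : ℝ))))
  have hL := PB.log_ge_one hn
  refine measureReal_mono ?_
  intro X hX h3
  apply hX
  refine PB.opLe_of_qf (Wv (1 / (n : ℝ)) X) (fun i j => ?_) _ (by positivity) h3
  have := congrFun (congrFun (wv_symm (1 / (n : ℝ)) X) j) i
  exact this

end Pool.Agent.ZR

end

section

/-!
# ZR/LFin : part L

PROOF of `lFinal`.  `G = Gst F` (LGst).  Constants: `κ, c1` from `rho_lb` (MJc): `rho ≥ κ` on `|x-E| ≤ c1`;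
`rho` is Lipschitz there: `|rho y - rho E| ≤ C1 |y - E|` (`√(4-y²)` is `C¹` near `E`; or
`|√a - √b| ≤ |a-b|/√b`).  `R0, M, L` from `supp_bd`, `f_bd`, `f_lip`.  `b = n^(-1+ε)`, `s = n rho E`,
`s0 = n κ`, `K = ⌈n^(2ν)⌉`, `J = JJ n E b`.  `|∑ ..|` in `LFinal` is `Psi`:
`card/(2 n^ε rho E) * ∑_m ∫ Lab = ∫ Psi G J K s b (evs A)` (`2 b s = 2 n^ε rho E`; finite sums and
integrals commute: `Lab` is bounded (`gst_bd`) and measurable (`measurable_evs`, Sp3); if `J = ∅` both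
sides are 0).
On the good event of `good_prob` with `R = 2 R0/κ`, `D = 4k+12` (so `cI (evs A) y (2R0/s0) ≤ n^(2ν) ≤ K` for
`|y-E| ≤ 2b`, and `R0/s0 ≤ 2R0/s0`, `2 R0/s ≤ 2 R0/s0`):
`|Ufull - Ufr| ≤ L (k+1) (n C1 b)(R0/(nκ)) K^(k+1) ≤ C b n^(2(k+1)ν)` (`freeze`), and by `frozen_lab`,
`bad_card` (`r = R0/s`, `n r = R0/rho E`): `|Ufr - Psi| ≤ C n^(-ε) n^(2kν) (∑_{4 points} |D(p)| + C)`, where
`D(p) = cnt A p - n Fsc p` and the four points satisfy `|p - E| ≤ 2b`.  The index condition `hJ`: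
`i ∈ J` gives `c n ≤ i ≤ (1-c) n` (`JJ_card`) and `K ≤ c n/2` (`2ν < 1`), `n` large.
Off the good event (probability `≤ n^(2-(4k+12))`): `|Ufull| ≤ M n^(k+1)`, `|Psi| ≤ C n (2K+1)^k ≤ C n^(k+1)`:
contribution `≤ C n^(k+1-4k-10)`.
Expectation: `≤ C (n^(2(k+1)ν - (1-ε)) + n^(2kν-ε)(4 n^ν + C) + n^(-9)) ≤ n^((2k+6)ν - min ε (1-ε))`
for large `n` (`2kν + ν < (2k+6) ν` etc.; `min ε (1-ε) ≤ 1`).
`Ufull` is measurable in `ω` (Fubini: the integrand is jointly measurable) and bounded.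
-/


open MeasureTheory ProbabilityTheory Matrix

namespace Pool.Agent.ZR

namespace LFinAux

theorem cI_mono' {n : ℕ} {x : ℕ → ℝ} {y r r' : ℝ} (h : r ≤ r') : cI n x y r ≤ cI n x y r' := by
  unfold cI
  refine Finset.card_le_card fun i hi => ?_
  rw [Finset.mem_filter] at hi ⊢
  exact ⟨hi.1, hi.2.trans h⟩

theorem rho_lip' {E y : ℝ} (h1 : -2 < E) (h2 : E < 2) (hy : |y| ≤ 2) :
    |rho y - rho E| ≤ 4 / (Real.sqrt (4 - E ^ 2) * (2 * Real.pi)) * |y - E| := by
  have hb : 0 < 4 - E ^ 2 := by nlinarith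
  have hsb := Real.sqrt_pos.2 hb
  have hy2 := abs_le.1 hy
  have ha : 0 ≤ 4 - y ^ 2 := by nlinarith
  have hsa := Real.sqrt_nonneg (4 - y ^ 2)
  have hpi : 0 < 2 * Real.pi := by positivity
  have e1 : (Real.sqrt (4 - y ^ 2) - Real.sqrt (4 - E ^ 2))
      * (Real.sqrt (4 - y ^ 2) + Real.sqrt (4 - E ^ 2)) = -((y - E) * (y + E)) := by
    have := Real.mul_self_sqrt ha
    have := Real.mul_self_sqrt hb.le
    ring_nf
    ring_nf at *
    linarith
  have e2 : |Real.sqrt (4 - y ^ 2) - Real.sqrt (4 - E ^ 2)| * Real.sqrt (4 - E ^ 2)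
      ≤ 4 * |y - E| := by
    have h3 : |Real.sqrt (4 - y ^ 2) - Real.sqrt (4 - E ^ 2)|
        * (Real.sqrt (4 - y ^ 2) + Real.sqrt (4 - E ^ 2)) = |y - E| * |y + E| := by
      rw [← abs_of_nonneg (add_nonneg hsa hsb.le), ← abs_mul, e1, abs_neg, abs_mul]
    have h4 : |y + E| ≤ 4 := by
      rw [abs_le]
      constructor <;> linarith
    have h5 : 0 ≤ |Real.sqrt (4 - y ^ 2) - Real.sqrt (4 - E ^ 2)| * Real.sqrt (4 - y ^ 2) :=
      mul_nonneg (abs_nonneg _) hsa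
    have h6 : |y - E| * |y + E| ≤ |y - E| * 4 := mul_le_mul_of_nonneg_left h4 (abs_nonneg _)
    nlinarith
  unfold rho
  rw [← sub_div, abs_div, abs_of_pos hpi, div_mul_eq_mul_div, div_le_div_iff₀ hpi (by positivity)]
  calc |Real.sqrt (4 - y ^ 2) - Real.sqrt (4 - E ^ 2)| * (Real.sqrt (4 - E ^ 2) * (2 * Real.pi))
      = (|Real.sqrt (4 - y ^ 2) - Real.sqrt (4 - E ^ 2)| * Real.sqrt (4 - E ^ 2))
        * (2 * Real.pi) := by ring
    _ ≤ 4 * |y - E| * (2 * Real.pi) := mul_le_mul_of_nonneg_right e2 hpi.le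

theorem ufull_cont (n : ℕ) {k : ℕ} {F : (Fin k → ℝ) → ℝ} (hF : Continuous F) (E b : ℝ) :
    Continuous (fun v : Fin n → ℝ => (1 / (2 * b)) * ∫ x in (E - b)..(E + b),
      ∑ f : Fin k → Fin n, F (fun q => (n : ℝ) * rho x * (v (f q) - x))) := by
  refine continuous_const.mul ?_
  refine intervalIntegral.continuous_parametric_intervalIntegral_of_continuous' ?_ _ _
  unfold Function.uncurry
  refine continuous_finset_sum _ fun f _ => hF.comp (continuous_pi fun q => ?_)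
  have h1 : Continuous (fun a : (Fin n → ℝ) × ℝ => rho a.2) := rho_cont.comp continuous_snd
  have h2 : Continuous (fun a : (Fin n → ℝ) × ℝ => a.1 (f q)) :=
    (continuous_apply (f q)).comp continuous_fst
  exact (continuous_const.mul h1).mul (h2.sub continuous_snd)

theorem ufull_meas {Ω : Type} [MeasurableSpace Ω] {n : ℕ} {k : ℕ} {F : (Fin k → ℝ) → ℝ}
    (hF : Continuous F) (E b : ℝ) (A : Ω → Matrix (Fin n) (Fin n) ℝ)
    (hAm : ∀ i j, Measurable (fun ω => A ω i j)) (hAs : ∀ ω, (A ω).IsSymm) :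
    Measurable (fun ω => Ufull n F E b (A ω)) := by
  have h1 : Measurable (fun ω => (fun i : Fin n => evs (A ω) i)) :=
    measurable_pi_lambda _ fun i => measurable_evs A hAm hAs i
  exact (ufull_cont n hF E b).measurable.comp h1

theorem ufull_bd {n : ℕ} {k : ℕ} {F : (Fin k → ℝ) → ℝ} {M : ℝ} (hM : ∀ v, |F v| ≤ M)
    {E b : ℝ} (hb : 0 < b) (A : Matrix (Fin n) (Fin n) ℝ) :
    |Ufull n F E b A| ≤ M * (n : ℝ) ^ k := by
  have h1 : ‖∫ x in (E - b)..(E + b), ∑ f : Fin k → Fin n,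
      F (fun q => (n : ℝ) * rho x * (evs A (f q) - x))‖
      ≤ (M * (n : ℝ) ^ k) * |(E + b) - (E - b)| := by
    refine intervalIntegral.norm_integral_le_of_norm_le_const fun x _ => ?_
    refine (norm_sum_le _ _).trans ?_
    have h2 : ∑ f : Fin k → Fin n, ‖F (fun q => (n : ℝ) * rho x * (evs A (f q) - x))‖
        ≤ ∑ _f : Fin k → Fin n, M := Finset.sum_le_sum fun f _ => hM _
    refine h2.trans (le_of_eq ?_)
    rw [Finset.sum_const, Finset.card_univ, Fintype.card_fun, Fintype.card_fin, Fintype.card_fin,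
      nsmul_eq_mul]
    push_cast
    ring
  have h3 : |(E + b) - (E - b)| = 2 * b := by
    rw [show (E + b) - (E - b) = 2 * b by ring, abs_of_pos (by linarith)]
  rw [h3, Real.norm_eq_abs] at h1
  unfold Ufull
  rw [abs_mul, abs_of_pos (by positivity : (0 : ℝ) < 1 / (2 * b)), one_div,
    inv_mul_le_iff₀ (by linarith)]
  linarith

theorem psi_meas {Ω : Type} [MeasurableSpace Ω] {k : ℕ} {G : (Fin k → ℝ) → ℝ} (hG : Continuous G)
    (J : Finset ℕ) (K : ℕ) (s b : ℝ) (x : Ω → ℕ → ℝ) (hx : ∀ i, Measurable (fun ω => x ω i)) :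
    Measurable (fun ω => Psi G J K s b (x ω)) := by
  unfold Psi
  refine Measurable.const_mul ?_ _
  refine Finset.measurable_sum _ fun i _ => Finset.measurable_sum _ fun m _ => ?_
  refine hG.measurable.comp (measurable_pi_lambda _ fun q => ?_)
  exact ((hx _).sub (hx _)).const_mul s

theorem card_box (k K : ℕ) : ((Fintype.piFinset (fun _ : Fin k =>
    Finset.Icc (-(K : ℤ)) (K : ℤ))).card : ℝ) = (2 * (K : ℝ) + 1) ^ k := by
  rw [Fintype.card_piFinset]
  simp only [Int.card_Icc, Finset.prod_const, Finset.card_univ, Fintype.card_fin]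
  have h : ((K : ℤ) + 1 - -(K : ℤ)).toNat = 2 * K + 1 := by omega
  rw [h]
  push_cast
  ring

theorem psi_bd {k : ℕ} {G : (Fin k → ℝ) → ℝ} {B : ℝ} (hB : ∀ v, |G v| ≤ B)
    (J : Finset ℕ) (K : ℕ) {s b : ℝ} (hs : 0 < s) (hb : 0 < b) (x : ℕ → ℝ) :
    |Psi G J K s b x| ≤ (1 / (2 * b * s)) * ((J.card : ℝ) * (2 * (K : ℝ) + 1) ^ k * B) := by
  unfold Psi
  rw [abs_mul, abs_of_pos (by positivity : (0 : ℝ) < 1 / (2 * b * s))]
  refine mul_le_mul_of_nonneg_left ?_ (by positivity)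
  refine (Finset.abs_sum_le_sum_abs _ _).trans ?_
  have h1 : ∀ i ∈ J, |∑ m ∈ Fintype.piFinset (fun _ : Fin k => Finset.Icc (-(K : ℤ)) (K : ℤ)),
      G (fun q => s * (x ((i : ℤ) + m q).toNat - x i))| ≤ (2 * (K : ℝ) + 1) ^ k * B := by
    intro i _
    refine (Finset.abs_sum_le_sum_abs _ _).trans ?_
    refine (Finset.sum_le_sum fun m _ => hB _).trans (le_of_eq ?_)
    rw [Finset.sum_const, nsmul_eq_mul, card_box]
  refine (Finset.sum_le_sum h1).trans (le_of_eq ?_)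
  rw [Finset.sum_const, nsmul_eq_mul]
  ring

/-- the labelled statistics add up to `Psi` -/
theorem lab_psi {Ω : Type} [MeasurableSpace Ω] (P' : Measure Ω) [IsProbabilityMeasure P']
    {n k : ℕ} {G : (Fin k → ℝ) → ℝ} (hG : Continuous G) {B : ℝ} (hB : ∀ v, |G v| ≤ B)
    (J : Finset ℕ) (hJ : J.Nonempty) (K : ℕ) {s b d : ℝ} (hd : 2 * b * s = d)
    (A : Ω → Matrix (Fin n) (Fin n) ℝ)
    (hAm : ∀ i j, Measurable (fun ω => A ω i j)) (hAs : ∀ ω, (A ω).IsSymm) :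
    (J.card : ℝ) / d * ∑ m ∈ Fintype.piFinset (fun _ : Fin k =>
      Finset.Icc (-(K : ℤ)) (K : ℤ)), ∫ ω, Lab J m s G (A ω) ∂P'
      = ∫ ω, Psi G J K s b (evs (A ω)) ∂P' := by
  have hc : (J.card : ℝ) ≠ 0 := by
    have := Finset.card_pos.2 hJ
    positivity
  have hgi : ∀ (i : ℕ) (m : Fin k → ℤ), Integrable
      (fun ω => G (fun q => s * (evs (A ω) ((i : ℤ) + m q).toNat - evs (A ω) i))) P' := by
    intro i m
    have hm : Measurable
        (fun ω => G (fun q => s * (evs (A ω) ((i : ℤ) + m q).toNat - evs (A ω) i))) := by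
      refine hG.measurable.comp (measurable_pi_lambda _ fun q => ?_)
      exact ((measurable_evs A hAm hAs _).sub (measurable_evs A hAm hAs _)).const_mul s
    exact Integrable.of_bound hm.aestronglyMeasurable B (Filter.Eventually.of_forall fun ω => hB _)
  have h1 : ∀ m : Fin k → ℤ, ∫ ω, Lab J m s G (A ω) ∂P' = (1 / (J.card : ℝ)) *
      ∑ i ∈ J, ∫ ω, G (fun q => s * (evs (A ω) ((i : ℤ) + m q).toNat - evs (A ω) i)) ∂P' := by
    intro m
    unfold Lab
    rw [integral_const_mul, integral_finset_sum _ fun i _ => hgi i m]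
  have h2 : ∫ ω, Psi G J K s b (evs (A ω)) ∂P' = (1 / (2 * b * s)) * ∑ i ∈ J,
      ∑ m ∈ Fintype.piFinset (fun _ : Fin k => Finset.Icc (-(K : ℤ)) (K : ℤ)),
        ∫ ω, G (fun q => s * (evs (A ω) ((i : ℤ) + m q).toNat - evs (A ω) i)) ∂P' := by
    unfold Psi
    rw [integral_const_mul, integral_finset_sum _ fun i _ => integrable_finset_sum _ fun m _ =>
      hgi i m]
    congr 1
    exact Finset.sum_congr rfl fun i _ => integral_finset_sum _ fun m _ => hgi i m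
  rw [h2, hd, Finset.sum_comm, Finset.sum_congr rfl fun m _ => h1 m, ← Finset.mul_sum, ← mul_assoc]
  congr 1
  field_simp

theorem core {k : ℕ} {F : (Fin (k + 1) → ℝ) → ℝ} (hF : ContDiff ℝ 1 F)
    (hs : HasCompactSupport F)
    {R0 M L : ℝ} (hR0 : 0 < R0) (hR : ∀ v, F v ≠ 0 → ∀ q, |v q| ≤ R0) (hM0 : 0 ≤ M)
    (hM : ∀ v, |F v| ≤ M) (hL0 : 0 ≤ L) (hL : ∀ v w, |F v - F w| ≤ L * ∑ q, |v q - w q|)
    {n : ℕ} (K : ℕ) {E b s s0 e w : ℝ} (hb : 0 < b) (hs0 : 0 < s0) (hss : s0 ≤ s) (he : 0 ≤ e)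
    (hsy : ∀ y, |y - E| ≤ b → s0 ≤ n * rho y ∧ |n * rho y - s| ≤ e)
    (hJ : ∀ i ∈ JJ n E b, ∀ j : ℤ, |j| ≤ K → 0 ≤ (i : ℤ) + j ∧ (i : ℤ) + j < n)
    {Ω : Type} [MeasurableSpace Ω] (P' : Measure Ω) [IsProbabilityMeasure P']
    (A : Ω → Matrix (Fin n) (Fin n) ℝ)
    (hAm : ∀ i j, Measurable (fun ω => A ω i j)) (hAs : ∀ ω, (A ω).IsSymm)
    (S : Set Ω)
    (hS : ∀ ω, ω ∉ S → ∀ y, |y - E| ≤ b → cI n (evs (A ω)) y (2 * (R0 / s0)) ≤ K)
    (hD1 : ∫ ω, |(cnt (A ω) (E - b + R0 / s) : ℝ) - n * Fsc (E - b + R0 / s)| ∂P' ≤ w)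
    (hD2 : ∫ ω, |(cnt (A ω) (E + b - R0 / s) : ℝ) - n * Fsc (E + b - R0 / s)| ∂P' ≤ w)
    (hD3 : ∫ ω, |(cnt (A ω) (E - b - 2 * (R0 / s)) : ℝ) - n * Fsc (E - b - 2 * (R0 / s))| ∂P' ≤ w)
    (hD4 : ∫ ω, |(cnt (A ω) (E + b + R0 / s) : ℝ) - n * Fsc (E + b + R0 / s)| ∂P' ≤ w) :
    |(∫ ω, Ufull n F E b (A ω) ∂P') - ∫ ω, Psi (Gst F) (JJ n E b) K s b (evs (A ω)) ∂P'|
      ≤ L * (k + 1) * e * (R0 / s0) * (K : ℝ) ^ (k + 1)
        + (1 / (2 * b * s)) * (4 * R0 * M) * (2 * (K : ℝ) + 1) ^ k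
          * (4 * w + (5 * (n * (R0 / s)) + 4))
        + (M * (n : ℝ) ^ (k + 1)
          + (1 / (2 * b * s)) * (((JJ n E b).card : ℝ) * (2 * (K : ℝ) + 1) ^ k * (2 * R0 * M)))
          * P'.real S := by
  have hspos : 0 < s := hs0.trans_le hss
  have hFc : Continuous F := hF.continuous
  have hGc : Continuous (Gst F) := (gst_cont_diff hF hs).continuous
  have hGb : ∀ g, |Gst F g| ≤ 2 * R0 * M := gst_bd hR0.le hR hM
  set J := JJ n E b with hJdef
  set a1 : ℝ := L * (k + 1) * e * (R0 / s0) * (K : ℝ) ^ (k + 1) with ha1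
  set a2 : ℝ := (1 / (2 * b * s)) * (4 * R0 * M) * (2 * (K : ℝ) + 1) ^ k with ha2
  set a3 : ℝ := 5 * (n * (R0 / s)) + 4 with ha3
  set B : ℝ := M * (n : ℝ) ^ (k + 1)
          + (1 / (2 * b * s)) * ((J.card : ℝ) * (2 * (K : ℝ) + 1) ^ k * (2 * R0 * M)) with hB
  have ha1n : 0 ≤ a1 := by rw [ha1]; positivity
  have ha2n : 0 ≤ a2 := by rw [ha2]; positivity
  have ha3n : 0 ≤ a3 := by rw [ha3]; positivity
  have hBn : 0 ≤ B := by rw [hB]; positivity
  set S' := toMeasurable P' S with hS'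
  have hSm : MeasurableSet S' := measurableSet_toMeasurable P' S
  have hSS : S ⊆ S' := subset_toMeasurable P' S
  have hSr : P'.real S' = P'.real S := by
    unfold Measure.real
    rw [hS', measure_toMeasurable]
  let D : ℝ → Ω → ℝ := fun x ω => |(cnt (A ω) x : ℝ) - n * Fsc x|
  have hDi : ∀ x, Integrable (D x) P' := by
    intro x
    have hm : Measurable (D x) := by
      have h := measurable_cnt A hAm hAs x
      have h' : Measurable (fun ω => (cnt (A ω) x : ℝ) - n * Fsc x) :=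
        (measurable_from_top.comp h).sub_const _
      exact measurable_norm.comp h'
    refine Integrable.of_bound hm.aestronglyMeasurable ((n : ℝ) + |n * Fsc x|)
      (Filter.Eventually.of_forall fun ω => ?_)
    have h3 := abs_sub (cnt (A ω) x : ℝ) (n * Fsc x)
    have h4 : |(cnt (A ω) x : ℝ)| ≤ n := by
      rw [abs_of_nonneg (Nat.cast_nonneg _)]
      exact_mod_cast cnt_le _ _
    simp only [D, Real.norm_eq_abs, abs_abs]
    linarith
  have hx : ∀ ω, ∀ i j, i ≤ j → j < n → evs (A ω) i ≤ evs (A ω) j := fun ω i j hij hj =>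
    evs_le_evs (A ω) (hAs ω) hij hj
  have hUi : Integrable (fun ω => Ufull n F E b (A ω)) P' :=
    Integrable.of_bound (ufull_meas hFc E b A hAm hAs).aestronglyMeasurable (M * (n : ℝ) ^ (k + 1))
      (Filter.Eventually.of_forall fun ω => ufull_bd hM hb (A ω))
  have hPi : Integrable (fun ω => Psi (Gst F) J K s b (evs (A ω))) P' :=
    Integrable.of_bound (psi_meas hGc J K s b (fun ω => evs (A ω))
      (fun i => measurable_evs A hAm hAs i)).aestronglyMeasurable _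
      (Filter.Eventually.of_forall fun ω => psi_bd hGb J K hspos hb (evs (A ω)))
  have hrr : R0 / s ≤ R0 / s0 := div_le_div_of_nonneg_left hR0.le hs0 hss
  have hr0 : 0 < R0 / s := div_pos hR0 hspos
  have hr00 : 0 < R0 / s0 := div_pos hR0 hs0
  have pt : ∀ ω, |Ufull n F E b (A ω) - Psi (Gst F) J K s b (evs (A ω))|
      ≤ (a1 + a2 * (D (E - b + R0 / s) ω + D (E + b - R0 / s) ω
        + D (E - b - 2 * (R0 / s)) ω + D (E + b + R0 / s) ω + a3))
        + S'.indicator (fun _ => B) ω := by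
    intro ω
    have hDn : ∀ x, 0 ≤ D x ω := fun x => abs_nonneg _
    have hq : 0 ≤ a1 + a2 * (D (E - b + R0 / s) ω + D (E + b - R0 / s) ω
        + D (E - b - 2 * (R0 / s)) ω + D (E + b + R0 / s) ω + a3) := by
      have h1 := hDn (E - b + R0 / s)
      have h2 := hDn (E + b - R0 / s)
      have h3 := hDn (E - b - 2 * (R0 / s))
      have h4 := hDn (E + b + R0 / s)
      exact add_nonneg ha1n (mul_nonneg ha2n (by linarith))
    by_cases hω : ω ∈ S
    · rw [Set.indicator_of_mem (hSS hω)]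
      have h1 := ufull_bd (E := E) hM hb (A ω)
      have h2 := psi_bd hGb J K hspos hb (evs (A ω))
      have h3 := abs_sub (Ufull n F E b (A ω)) (Psi (Gst F) J K s b (evs (A ω)))
      linarith
    · have hi : 0 ≤ S'.indicator (fun _ => B) ω := Set.indicator_nonneg (fun _ _ => hBn) ω
      have hK := hS ω hω
      have f1 := freeze hFc hR0 hR hL hL0 (A ω) K hb hs0 hss hsy
        (fun y hy => (cI_mono' (by linarith)).trans (hK y hy))
      have f2 := frozen_lab hFc hR0 hR hM (hx ω) J K hb hspos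
        (fun y hy => (cI_mono' (by linarith)).trans (hK y hy)) hJ
      have f3 := bad_card (hx ω) E b (R0 / s) hb hr0
      rw [cN_evs _ (hAs ω), cN_evs _ (hAs ω), cN_evs _ (hAs ω), cN_evs _ (hAs ω)] at f3
      have f4 : |Ufull n F E b (A ω) - Psi (Gst F) J K s b (evs (A ω))|
          ≤ |Ufull n F E b (A ω) - Ufr n F E b s (evs (A ω))|
            + |Ufr n F E b s (evs (A ω)) - Psi (Gst F) J K s b (evs (A ω))| := abs_sub_le _ _ _
      have f5 : a2 * ((badI n J E b (R0 / s) (evs (A ω))).card : ℝ)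
          ≤ a2 * (D (E - b + R0 / s) ω + D (E + b - R0 / s) ω
            + D (E - b - 2 * (R0 / s)) ω + D (E + b + R0 / s) ω + a3) := by
        refine mul_le_mul_of_nonneg_left ?_ ha2n
        refine f3.trans (le_of_eq ?_)
        simp only [D, ha3]
        ring
      linarith
  have hint : Integrable (fun ω => (a1 + a2 * (D (E - b + R0 / s) ω + D (E + b - R0 / s) ω
        + D (E - b - 2 * (R0 / s)) ω + D (E + b + R0 / s) ω + a3))
        + S'.indicator (fun _ => B) ω) P' := by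
    refine Integrable.add ?_ ((integrable_const B).indicator hSm)
    refine (integrable_const a1).add (Integrable.const_mul ?_ a2)
    exact ((((hDi _).add (hDi _)).add (hDi _)).add (hDi _)).add (integrable_const a3)
  have h1 : |(∫ ω, Ufull n F E b (A ω) ∂P') - ∫ ω, Psi (Gst F) J K s b (evs (A ω)) ∂P'|
      ≤ ∫ ω, |Ufull n F E b (A ω) - Psi (Gst F) J K s b (evs (A ω))| ∂P' := by
    rw [← integral_sub hUi hPi]
    exact abs_integral_le_integral_abs
  have h2 : ∫ ω, |Ufull n F E b (A ω) - Psi (Gst F) J K s b (evs (A ω))| ∂P'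
      ≤ ∫ ω, ((a1 + a2 * (D (E - b + R0 / s) ω + D (E + b - R0 / s) ω
        + D (E - b - 2 * (R0 / s)) ω + D (E + b + R0 / s) ω + a3))
        + S'.indicator (fun _ => B) ω) ∂P' :=
    integral_mono (hUi.sub hPi).abs hint pt
  have h3 : ∫ ω, ((a1 + a2 * (D (E - b + R0 / s) ω + D (E + b - R0 / s) ω
        + D (E - b - 2 * (R0 / s)) ω + D (E + b + R0 / s) ω + a3))
        + S'.indicator (fun _ => B) ω) ∂P'
      = (a1 + a2 * ((∫ ω, D (E - b + R0 / s) ω ∂P') + (∫ ω, D (E + b - R0 / s) ω ∂P')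
        + (∫ ω, D (E - b - 2 * (R0 / s)) ω ∂P') + (∫ ω, D (E + b + R0 / s) ω ∂P') + a3))
        + B * P'.real S := by
    have j12 : Integrable (fun ω => D (E - b + R0 / s) ω + D (E + b - R0 / s) ω) P' :=
      (hDi _).add (hDi _)
    have j123 : Integrable (fun ω => D (E - b + R0 / s) ω + D (E + b - R0 / s) ω
        + D (E - b - 2 * (R0 / s)) ω) P' := j12.add (hDi _)
    have j1234 : Integrable (fun ω => D (E - b + R0 / s) ω + D (E + b - R0 / s) ω
        + D (E - b - 2 * (R0 / s)) ω + D (E + b + R0 / s) ω) P' := j123.add (hDi _)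
    have jT : Integrable (fun ω => D (E - b + R0 / s) ω + D (E + b - R0 / s) ω
        + D (E - b - 2 * (R0 / s)) ω + D (E + b + R0 / s) ω + a3) P' :=
      j1234.add (integrable_const a3)
    have jM : Integrable (fun ω => a2 * (D (E - b + R0 / s) ω + D (E + b - R0 / s) ω
        + D (E - b - 2 * (R0 / s)) ω + D (E + b + R0 / s) ω + a3)) P' := jT.const_mul a2
    have jA : Integrable (fun ω => a1 + a2 * (D (E - b + R0 / s) ω + D (E + b - R0 / s) ω
        + D (E - b - 2 * (R0 / s)) ω + D (E + b + R0 / s) ω + a3)) P' :=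
      (integrable_const a1).add jM
    have jB : Integrable (fun ω => S'.indicator (fun _ => B) ω) P' :=
      (integrable_const B).indicator hSm
    have e0 := integral_add jA jB
    have e1 := integral_add (integrable_const (μ := P') a1) jM
    have e2 := integral_const_mul (μ := P') a2 (fun ω => D (E - b + R0 / s) ω
        + D (E + b - R0 / s) ω + D (E - b - 2 * (R0 / s)) ω + D (E + b + R0 / s) ω + a3)
    have e3 := integral_add j1234 (integrable_const (μ := P') a3)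
    have e4 := integral_add j123 (hDi (E + b + R0 / s))
    have e5 := integral_add j12 (hDi (E - b - 2 * (R0 / s)))
    have e6 := integral_add (hDi (E - b + R0 / s)) (hDi (E + b - R0 / s))
    have e7 : ∫ ω, S'.indicator (fun _ => B) ω ∂P' = P'.real S * B := by
      rw [integral_indicator_const _ hSm, hSr, smul_eq_mul]
    have e8 : ∀ c : ℝ, ∫ _ω : Ω, c ∂P' = c := fun c => by
      simp only [integral_const, smul_eq_mul, probReal_univ, one_mul]
    rw [e0, e1, e2, e3, e4, e5, e6, e7, e8, e8]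
    ring
  have h4 : (∫ ω, D (E - b + R0 / s) ω ∂P') + (∫ ω, D (E + b - R0 / s) ω ∂P')
        + (∫ ω, D (E - b - 2 * (R0 / s)) ω ∂P') + (∫ ω, D (E + b + R0 / s) ω ∂P') + a3
      ≤ 4 * w + a3 := by
    linarith
  have h5 := mul_le_mul_of_nonneg_left h4 ha2n
  rw [h3] at h2
  linarith

end LFinAux

namespace LFinAux

theorem numA {k : ℕ} {N ν ε κ C1 L R0 K e0 : ℝ} (hN : 1 ≤ N) (hν : 0 < ν) (hκ : 0 < κ)
    (hC1 : 0 ≤ C1) (hL : 0 ≤ L) (hR0 : 0 < R0) (hK0 : 0 ≤ K) (hK : K ≤ 2 * N ^ (2 * ν))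
    (he0 : e0 ≤ 1 - ε) :
    L * (k + 1) * (N * (C1 * N ^ (-1 + ε))) * (R0 / (N * κ)) * K ^ (k + 1)
      ≤ (L * (k + 1) * C1 * (R0 / κ) * 2 ^ (k + 1)) * N ^ ((2 * k + 2) * ν - e0) := by
  have hN0 : 0 < N := by linarith
  have h1 : L * (k + 1) * (N * (C1 * N ^ (-1 + ε))) * (R0 / (N * κ)) * K ^ (k + 1)
      = (L * (k + 1) * C1 * (R0 / κ)) * (N ^ (-1 + ε) * K ^ (k + 1)) := by
    field_simp
  have h2 : K ^ (k + 1) ≤ 2 ^ (k + 1) * N ^ (2 * ν * (k + 1)) := by
    refine (pow_le_pow_left₀ hK0 hK (k + 1)).trans (le_of_eq ?_)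
    rw [mul_pow, ← Real.rpow_natCast (N ^ (2 * ν)), ← Real.rpow_mul hN0.le]
    push_cast
    ring_nf
  have h3 : N ^ (-1 + ε) * K ^ (k + 1) ≤ 2 ^ (k + 1) * N ^ ((2 * k + 2) * ν - e0) := by
    have h4 : N ^ (-1 + ε) * (2 ^ (k + 1) * N ^ (2 * ν * (k + 1)))
        = 2 ^ (k + 1) * N ^ (-1 + ε + 2 * ν * (k + 1)) := by
      rw [Real.rpow_add hN0 (-1 + ε)]
      ring
    refine (mul_le_mul_of_nonneg_left h2 (Real.rpow_nonneg hN0.le _)).trans ?_
    rw [h4]
    refine mul_le_mul_of_nonneg_left ?_ (by positivity)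
    refine Real.rpow_le_rpow_of_exponent_le hN ?_
    nlinarith
  rw [h1, mul_assoc (L * (k + 1) * C1 * (R0 / κ)) (2 ^ (k + 1))]
  exact mul_le_mul_of_nonneg_left h3 (by positivity)

theorem numS {N ε ρ : ℝ} (hN : 1 ≤ N) (hρ : 0 < ρ) :
    1 / (2 * N ^ (-1 + ε) * (N * ρ)) = 1 / (2 * ρ) * N ^ (-ε) := by
  have hN0 : 0 < N := by linarith
  have h : N ^ (-1 + ε) * N = N ^ ε := by
    nth_rewrite 2 [← Real.rpow_one N]
    rw [← Real.rpow_add hN0]
    congr 1
    ring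
  rw [Real.rpow_neg hN0.le]
  have h2 : 2 * N ^ (-1 + ε) * (N * ρ) = 2 * ρ * N ^ ε := by
    rw [← h]; ring
  rw [h2, one_div, one_div, mul_inv]

theorem numK {k : ℕ} {N ν K : ℝ} (hN : 1 ≤ N) (hν : 0 < ν) (hK0 : 0 ≤ K)
    (hK : K ≤ 2 * N ^ (2 * ν)) : (2 * K + 1) ^ k ≤ 5 ^ k * N ^ (2 * ν * k) := by
  have hN0 : 0 < N := by linarith
  have h1 : (1 : ℝ) ≤ N ^ (2 * ν) := Real.one_le_rpow hN (by linarith)
  have h2 : 2 * K + 1 ≤ 5 * N ^ (2 * ν) := by linarith
  refine (pow_le_pow_left₀ (by linarith) h2 k).trans (le_of_eq ?_)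
  rw [mul_pow, ← Real.rpow_natCast (N ^ (2 * ν)), ← Real.rpow_mul hN0.le]

theorem numB {k : ℕ} {N ν ε ρ M R0 K e0 : ℝ} (hN : 1 ≤ N) (hν : 0 < ν) (hρ : 0 < ρ)
    (hM : 0 ≤ M) (hR0 : 0 < R0) (hK0 : 0 ≤ K) (hK : K ≤ 2 * N ^ (2 * ν))
    (he0 : e0 ≤ ε) :
    1 / (2 * N ^ (-1 + ε) * (N * ρ)) * (4 * R0 * M) * (2 * K + 1) ^ k
        * (4 * N ^ ν + (5 * (N * (R0 / (N * ρ))) + 4))
      ≤ (1 / (2 * ρ) * (4 * R0 * M) * 5 ^ k * (4 + (5 * (R0 / ρ) + 4)))
        * N ^ ((2 * k + 2) * ν - e0) := by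
  have hN0 : 0 < N := by linarith
  rw [numS hN hρ]
  have h0 : N * (R0 / (N * ρ)) = R0 / ρ := by field_simp
  rw [h0]
  have h1 : (1 : ℝ) ≤ N ^ ν := Real.one_le_rpow hN hν.le
  have hq : 0 ≤ 5 * (R0 / ρ) + 4 := by positivity
  have h2 : 4 * N ^ ν + (5 * (R0 / ρ) + 4) ≤ (4 + (5 * (R0 / ρ) + 4)) * N ^ ν := by
    nlinarith
  have h3 := numK (k := k) hN hν hK0 hK
  have h4 : (2 * K + 1) ^ k * (4 * N ^ ν + (5 * (R0 / ρ) + 4))
      ≤ (5 ^ k * N ^ (2 * ν * k)) * ((4 + (5 * (R0 / ρ) + 4)) * N ^ ν) :=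
    mul_le_mul h3 h2 (by positivity) (by positivity)
  have h5 : N ^ (-ε) * ((5 ^ k * N ^ (2 * ν * k)) * ((4 + (5 * (R0 / ρ) + 4)) * N ^ ν))
      = (5 ^ k * (4 + (5 * (R0 / ρ) + 4))) * N ^ (-ε + 2 * ν * k + ν) := by
    rw [Real.rpow_add hN0, Real.rpow_add hN0]
    ring
  have h6 : N ^ (-ε + 2 * ν * k + ν) ≤ N ^ ((2 * k + 2) * ν - e0) := by
    refine Real.rpow_le_rpow_of_exponent_le hN ?_
    nlinarith
  calc 1 / (2 * ρ) * N ^ (-ε) * (4 * R0 * M) * (2 * K + 1) ^ k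
        * (4 * N ^ ν + (5 * (R0 / ρ) + 4))
      = (1 / (2 * ρ) * (4 * R0 * M)) * (N ^ (-ε) * ((2 * K + 1) ^ k
        * (4 * N ^ ν + (5 * (R0 / ρ) + 4)))) := by ring
    _ ≤ (1 / (2 * ρ) * (4 * R0 * M)) * (N ^ (-ε) * ((5 ^ k * N ^ (2 * ν * k))
        * ((4 + (5 * (R0 / ρ) + 4)) * N ^ ν))) := by
        refine mul_le_mul_of_nonneg_left ?_ (by positivity)
        exact mul_le_mul_of_nonneg_left h4 (Real.rpow_nonneg hN0.le _)
    _ = (1 / (2 * ρ) * (4 * R0 * M)) * ((5 ^ k * (4 + (5 * (R0 / ρ) + 4)))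
        * N ^ (-ε + 2 * ν * k + ν)) := by rw [h5]
    _ ≤ (1 / (2 * ρ) * (4 * R0 * M)) * ((5 ^ k * (4 + (5 * (R0 / ρ) + 4)))
        * N ^ ((2 * k + 2) * ν - e0)) := by
        refine mul_le_mul_of_nonneg_left ?_ (by positivity)
        exact mul_le_mul_of_nonneg_left h6 (by positivity)
    _ = _ := by ring

theorem numC {k : ℕ} {N ν ε ρ M R0 K e0 cJ p : ℝ} (hN : 1 ≤ N) (hν : 0 < ν) (hν1 : 2 * ν ≤ 1)
    (hε : 0 < ε) (hρ : 0 < ρ)
    (hM : 0 ≤ M) (hR0 : 0 < R0) (hK0 : 0 ≤ K) (hK : K ≤ 2 * N ^ (2 * ν))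
    (he0 : e0 ≤ 1) (hcJ0 : 0 ≤ cJ) (hcJ : cJ ≤ N) (hp0 : 0 ≤ p)
    (hp : p ≤ N ^ (2 - ((4 * k + 12 : ℕ) : ℝ))) :
    (M * N ^ (k + 1) + 1 / (2 * N ^ (-1 + ε) * (N * ρ)) * (cJ * (2 * K + 1) ^ k * (2 * R0 * M))) * p
      ≤ (M + 1 / (2 * ρ) * 5 ^ k * (2 * R0 * M)) * N ^ ((2 * k + 2) * ν - e0) := by
  have hN0 : 0 < N := by linarith
  rw [numS hN hρ]
  have h1 : N ^ (-ε) ≤ 1 := Real.rpow_le_one_of_one_le_of_nonpos hN (by linarith)
  have h1' : 0 ≤ N ^ (-ε) := Real.rpow_nonneg hN0.le _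
  have h2 := numK (k := k) hN hν hK0 hK
  have h3 : N ^ (2 * ν * k) ≤ N ^ k := by
    rw [← Real.rpow_natCast N k]
    refine Real.rpow_le_rpow_of_exponent_le hN ?_
    have : (0 : ℝ) ≤ k := Nat.cast_nonneg k
    nlinarith
  have h4 : (2 * K + 1) ^ k ≤ 5 ^ k * N ^ k :=
    h2.trans (mul_le_mul_of_nonneg_left h3 (by positivity))
  have h5 : cJ * (2 * K + 1) ^ k ≤ N * (5 ^ k * N ^ k) :=
    mul_le_mul hcJ h4 (by positivity) hN0.le
  have h6 : 1 / (2 * ρ) * N ^ (-ε) * (cJ * (2 * K + 1) ^ k * (2 * R0 * M))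
      ≤ (1 / (2 * ρ) * 5 ^ k * (2 * R0 * M)) * N ^ (k + 1) := by
    calc 1 / (2 * ρ) * N ^ (-ε) * (cJ * (2 * K + 1) ^ k * (2 * R0 * M))
        = (1 / (2 * ρ) * (2 * R0 * M)) * (N ^ (-ε) * (cJ * (2 * K + 1) ^ k)) := by ring
      _ ≤ (1 / (2 * ρ) * (2 * R0 * M)) * (1 * (N * (5 ^ k * N ^ k))) := by
          refine mul_le_mul_of_nonneg_left ?_ (by positivity)
          exact mul_le_mul h1 h5 (by positivity) zero_le_one
      _ = _ := by ring
  have h7 : M * N ^ (k + 1) + 1 / (2 * ρ) * N ^ (-ε) * (cJ * (2 * K + 1) ^ k * (2 * R0 * M))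
      ≤ (M + 1 / (2 * ρ) * 5 ^ k * (2 * R0 * M)) * N ^ (k + 1) := by
    rw [add_mul]
    linarith
  have h8 : N ^ (k + 1) * p ≤ N ^ ((2 * k + 2) * ν - e0) := by
    calc N ^ (k + 1) * p ≤ N ^ (k + 1) * N ^ (2 - ((4 * k + 12 : ℕ) : ℝ)) :=
          mul_le_mul_of_nonneg_left hp (by positivity)
      _ = N ^ (((k + 1 : ℕ) : ℝ) + (2 - ((4 * k + 12 : ℕ) : ℝ))) := by
          rw [Real.rpow_add hN0, Real.rpow_natCast]
      _ ≤ N ^ ((2 * k + 2) * ν - e0) := by
          refine Real.rpow_le_rpow_of_exponent_le hN ?_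
          have h9 : (0 : ℝ) ≤ k := Nat.cast_nonneg k
          have h10 : 0 ≤ (2 * (k : ℝ) + 2) * ν := by positivity
          push_cast
          linarith
  calc (M * N ^ (k + 1) + 1 / (2 * ρ) * N ^ (-ε) * (cJ * (2 * K + 1) ^ k * (2 * R0 * M))) * p
      ≤ ((M + 1 / (2 * ρ) * 5 ^ k * (2 * R0 * M)) * N ^ (k + 1)) * p :=
        mul_le_mul_of_nonneg_right h7 hp0
    _ = (M + 1 / (2 * ρ) * 5 ^ k * (2 * R0 * M)) * (N ^ (k + 1) * p) := by ring
    _ ≤ _ := mul_le_mul_of_nonneg_left h8 (by positivity)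

end LFinAux

open LFinAux

theorem lFinal : LFinal := by
  intro k F E ε hF hs hE1 hE2 hε0 hε1
  refine ⟨Gst F, gst_cont_diff hF hs, gst_compact hs, ?_⟩
  intro ν hν hν1 hν2
  obtain ⟨R0, hR0, hR⟩ := supp_bd hs
  obtain ⟨M, hM0, hM⟩ := f_bd hF.continuous hs
  obtain ⟨L, hL0, hL⟩ := f_lip hF hs
  obtain ⟨κ, c1, hκ, hc1, hlb⟩ := rho_lb hE1 hE2
  obtain ⟨c, Cj, hc, hCj, nJ, hJJ⟩ := JJ_card hE1 hE2 hε0 hε1
  have hρE : κ ≤ rho E := hlb E (by simp [hc1.le])
  have hρ0 : 0 < rho E := hκ.trans_le hρE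
  have hEabs : |E| < 2 := abs_lt.2 ⟨hE1, hE2⟩
  have hk0 : (0 : ℝ) ≤ k := Nat.cast_nonneg k
  have hν3 : 2 * ν < 1 := by nlinarith
  obtain ⟨C1, hC1, hlip⟩ : ∃ C1 : ℝ, 0 ≤ C1 ∧ ∀ y, |y| ≤ 2 → |rho y - rho E| ≤ C1 * |y - E| :=
    ⟨4 / (Real.sqrt (4 - E ^ 2) * (2 * Real.pi)), by positivity, fun y hy => rho_lip' hE1 hE2 hy⟩
  obtain ⟨nG, hgood⟩ := good_prob E ε ν (2 * R0 / κ) ((4 * k + 12 : ℕ) : ℝ) hε0 hε1 hν
    (by positivity) (by positivity)
  set e0 : ℝ := min ε (1 - ε) with he0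
  have he0a : e0 ≤ ε := min_le_left _ _
  have he0b : e0 ≤ 1 - ε := min_le_right _ _
  set CT : ℝ := (L * (k + 1) * C1 * (R0 / κ) * 2 ^ (k + 1))
    + (1 / (2 * rho E) * (4 * R0 * M) * 5 ^ k * (4 + (5 * (R0 / rho E) + 4)))
    + (M + 1 / (2 * rho E) * 5 ^ k * (2 * R0 * M)) with hCT
  have tn := tendsto_natCast_atTop_atTop (R := ℝ)
  have ev1 : ∀ᶠ n : ℕ in Filter.atTop, (n : ℝ) ^ (-1 + ε) ≤ min c1 (2 - |E|) := by
    have h : Filter.Tendsto (fun x : ℝ => x ^ (-1 + ε)) Filter.atTop (nhds 0) := by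
      have := tendsto_rpow_neg_atTop (y := 1 - ε) (by linarith)
      simpa [neg_sub, sub_eq_neg_add, add_comm] using this
    exact (h.comp tn).eventually (eventually_le_nhds (lt_min hc1 (by linarith)))
  have ev2 : ∀ᶠ n : ℕ in Filter.atTop, 2 * (R0 / rho E) ≤ (n : ℝ) ^ ε :=
    ((tendsto_rpow_atTop hε0).comp tn).eventually_ge_atTop _
  have ev3 : ∀ᶠ n : ℕ in Filter.atTop, 2 / c ≤ (n : ℝ) ^ (1 - 2 * ν) :=
    ((tendsto_rpow_atTop (by linarith : 0 < 1 - 2 * ν)).comp tn).eventually_ge_atTop _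
  have ev4 : ∀ᶠ n : ℕ in Filter.atTop, CT ≤ (n : ℝ) ^ (4 * ν) :=
    ((tendsto_rpow_atTop (by linarith : 0 < 4 * ν)).comp tn).eventually_ge_atTop _
  obtain ⟨n0, hn0⟩ := Filter.eventually_atTop.1 (ev1.and (ev2.and (ev3.and (ev4.and
    ((Filter.eventually_ge_atTop nJ).and ((Filter.eventually_ge_atTop nG).and
    (Filter.eventually_ge_atTop 1)))))))
  refine ⟨n0, ?_⟩
  intro n hn Ω _ P' _ A hAm hAs hI hD
  obtain ⟨g1, g2, g3, g4, g5, g6, g7⟩ := hn0 n hn
  have hN : (1 : ℝ) ≤ n := by exact_mod_cast g7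
  have hN0 : (0 : ℝ) < n := by linarith
  set b : ℝ := (n : ℝ) ^ (-1 + ε) with hb
  have hb0 : 0 < b := Real.rpow_pos_of_pos hN0 _
  have hbc : b ≤ c1 := g1.trans (min_le_left _ _)
  have hbE : b ≤ 2 - |E| := g1.trans (min_le_right _ _)
  have hbn : b * n = (n : ℝ) ^ ε := by
    rw [hb]
    nth_rewrite 2 [← Real.rpow_one (n : ℝ)]
    rw [← Real.rpow_add hN0]
    congr 1
    ring
  set K : ℕ := ⌈(n : ℝ) ^ (2 * ν)⌉₊ with hK
  have hp1 : (1 : ℝ) ≤ (n : ℝ) ^ (2 * ν) := Real.one_le_rpow hN (by linarith)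
  have hK1 : (n : ℝ) ^ (2 * ν) ≤ K := Nat.le_ceil _
  have hK2 : (K : ℝ) < (n : ℝ) ^ (2 * ν) + 1 := Nat.ceil_lt_add_one (by linarith)
  have hK3 : (K : ℝ) ≤ 2 * (n : ℝ) ^ (2 * ν) := by linarith
  have hK4 : (K : ℝ) < c * n := by
    have h1 : (n : ℝ) ^ (1 - 2 * ν) * (n : ℝ) ^ (2 * ν) = n := by
      rw [← Real.rpow_add hN0]
      simp
    have h2 : 2 / c * (n : ℝ) ^ (2 * ν) ≤ n :=
      (mul_le_mul_of_nonneg_right g3 (by linarith)).trans (le_of_eq h1)
    have h3 : 2 * (n : ℝ) ^ (2 * ν) ≤ c * n := by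
      have h4 := mul_le_mul_of_nonneg_left h2 hc.le
      have h5 : c * (2 / c * (n : ℝ) ^ (2 * ν)) = 2 * (n : ℝ) ^ (2 * ν) := by
        field_simp
      linarith
    linarith
  obtain ⟨hJ1, hJ2, hJ3⟩ := hJJ n g5
  have hJne : (JJ n E b).Nonempty := by
    rw [← Finset.card_pos]
    have h1 : 0 < c * (n : ℝ) ^ ε := mul_pos hc (Real.rpow_pos_of_pos hN0 _)
    exact Nat.cast_pos.1 (h1.trans_le hJ1)
  have hJn : ((JJ n E b).card : ℝ) ≤ n := by
    have h1 : (JJ n E b).card ≤ n := by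
      unfold JJ
      refine (Finset.card_filter_le _ _).trans ?_
      rw [Finset.card_range]
    exact_mod_cast h1
  obtain ⟨S, hSp, hS⟩ := hgood n g6 Ω P' A hAs hI
  have hs0 : 0 < (n : ℝ) * κ := mul_pos hN0 hκ
  have hr0 : 0 < R0 / ((n : ℝ) * rho E) := div_pos hR0 (mul_pos hN0 hρ0)
  have hrb : 2 * (R0 / ((n : ℝ) * rho E)) ≤ b := by
    have h1 : 2 * (R0 / ((n : ℝ) * rho E)) = 2 * (R0 / rho E) / n := by field_simp
    rw [h1, div_le_iff₀ hN0, hbn]
    exact g2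
  have key := core hF hs hR0 hR hM0 hM hL0 hL K (E := E) (b := b) (s := (n : ℝ) * rho E)
    (s0 := (n : ℝ) * κ) (e := (n : ℝ) * (C1 * b)) (w := (n : ℝ) ^ ν) hb0 hs0
    (mul_le_mul_of_nonneg_left hρE hN0.le) (by positivity)
    (fun y hy => ?_) (fun i hi j hj => ?_) P' A hAm hAs S (fun ω hω y hy => ?_)
    (hD _ (by rw [abs_le]; constructor <;> linarith))
    (hD _ (by rw [abs_le]; constructor <;> linarith))
    (hD _ (by rw [abs_le]; constructor <;> linarith))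
    (hD _ (by rw [abs_le]; constructor <;> linarith))
  · rw [lab_psi P' (gst_cont_diff hF hs).continuous (gst_bd hR0.le hR hM) (JJ n E b) hJne K
      (b := b) (s := (n : ℝ) * rho E) (d := 2 * (n : ℝ) ^ ε * rho E)
      (by rw [← hbn]; ring) A hAm hAs]
    refine key.trans ?_
    have q1 := numA (k := k) (ε := ε) (e0 := e0) hN hν hκ hC1 hL0 hR0 (Nat.cast_nonneg K) hK3 he0b
    have q2 := numB (k := k) (ε := ε) (e0 := e0) hN hν hρ0 hM0 hR0 (Nat.cast_nonneg K) hK3 he0a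
    have q3 := numC (k := k) (ε := ε) (e0 := e0) hN hν hν3.le hε0 hρ0 hM0 hR0
      (Nat.cast_nonneg K) hK3 (by linarith) (Nat.cast_nonneg _) hJn measureReal_nonneg hSp
    rw [← hb] at q1 q2 q3
    have q4 : CT * (n : ℝ) ^ ((2 * k + 2) * ν - e0) ≤ (n : ℝ) ^ ((2 * k + 6) * ν - e0) := by
      have h1 : (n : ℝ) ^ ((2 * k + 6) * ν - e0)
          = (n : ℝ) ^ (4 * ν) * (n : ℝ) ^ ((2 * k + 2) * ν - e0) := by
        rw [← Real.rpow_add hN0]
        congr 1
        ring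
      rw [h1]
      exact mul_le_mul_of_nonneg_right g4 (Real.rpow_nonneg hN0.le _)
    refine le_trans ?_ q4
    rw [hCT, add_mul, add_mul]
    linarith
  · have hy1 : κ ≤ rho y := hlb y (hy.trans hbc)
    refine ⟨mul_le_mul_of_nonneg_left hy1 hN0.le, ?_⟩
    have hy2 : |y| ≤ 2 := by
      have := abs_add_le (y - E) E
      rw [sub_add_cancel] at this
      linarith
    rw [← mul_sub, abs_mul, abs_of_pos hN0]
    refine mul_le_mul_of_nonneg_left ((hlip y hy2).trans ?_) hN0.le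
    exact mul_le_mul_of_nonneg_left hy hC1
  · obtain ⟨i1, i2⟩ := hJ3 i hi
    have hj' : |(j : ℝ)| ≤ K := by exact_mod_cast hj
    obtain ⟨j1, j2⟩ := abs_le.1 hj'
    constructor
    · have : (0 : ℝ) ≤ (i : ℝ) + j := by linarith
      exact_mod_cast this
    · have : (i : ℝ) + j < n := by nlinarith
      exact_mod_cast this
  · have h1 := hS ω hω y (hy.trans (by linarith))
    have h2 : 2 * (R0 / ((n : ℝ) * κ)) = 2 * R0 / κ / n := by field_simp
    rw [h2]
    exact_mod_cast h1.trans hK1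

end Pool.Agent.ZR

end

section

/-!
# ZR/PB6 : norm bound for `B = α H_0 + β P W P` (helper2)
-/


open MeasureTheory ProbabilityTheory Matrix

namespace Pool.Agent.ZR.PB

lemma qf_eq {n : ℕ} (A : Matrix (Fin n) (Fin n) ℝ) (v : Fin n → ℝ) :
    qf A v = v ⬝ᵥ (A *ᵥ v) := by
  unfold qf
  simp only [dotProduct, Matrix.mulVec, Finset.mul_sum, mul_assoc]

lemma Pn_transpose (n : ℕ) : (Pn n)ᵀ = Pn n := by
  ext i j
  simp only [Pn, Matrix.transpose_apply, Matrix.sub_apply, Matrix.smul_apply, Matrix.of_apply,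
    Matrix.one_apply, eq_comm]

lemma Pn_mulVec {n : ℕ} (v : Fin n → ℝ) (i : Fin n) :
    (Pn n *ᵥ v) i = v i - 1 / (n : ℝ) * ∑ j, v j := by
  unfold Pn
  rw [Matrix.sub_mulVec, Pi.sub_apply, Matrix.one_mulVec, Matrix.smul_mulVec, Pi.smul_apply,
    smul_eq_mul]
  congr 2
  simp [Matrix.mulVec, dotProduct]

lemma Pn_sq_le {n : ℕ} (v : Fin n → ℝ) : ∑ i, (Pn n *ᵥ v) i ^ 2 ≤ ∑ i, v i ^ 2 := by
  rcases Nat.eq_zero_or_pos n with h0 | hn
  · subst h0
    simp
  have hn' : (0 : ℝ) < n := Nat.cast_pos.2 hn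
  simp only [Pn_mulVec]
  set S := ∑ j, v j with hS
  have e : ∑ i, (v i - 1 / (n : ℝ) * S) ^ 2 = (∑ i, v i ^ 2) - 1 / n * S ^ 2 := by
    have e1 : ∀ i, (v i - 1 / (n : ℝ) * S) ^ 2
        = v i ^ 2 - 2 / n * S * v i + 1 / (n : ℝ) ^ 2 * S ^ 2 := by
      intro i; ring
    simp only [e1, Finset.sum_add_distrib, Finset.sum_sub_distrib, ← Finset.mul_sum, ← hS,
      Finset.sum_const, Finset.card_univ, Fintype.card_fin, nsmul_eq_mul]
    field_simp
    ring
  rw [e]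
  have : 0 ≤ 1 / (n : ℝ) * S ^ 2 := by positivity
  linarith

lemma qf_PWP {n : ℕ} (W : Matrix (Fin n) (Fin n) ℝ) (v : Fin n → ℝ) :
    qf (Pn n * W * Pn n) v = qf W (Pn n *ᵥ v) := by
  rw [qf_eq, qf_eq, ← Matrix.mulVec_mulVec, ← Matrix.mulVec_mulVec, Matrix.dotProduct_mulVec,
    ← Matrix.mulVec_transpose, Pn_transpose]

lemma qf_Bm {n : ℕ} (α β : ℝ) (σ : Fin n → Fin n → Bool) (X : Fin n × Fin n → ℝ) (v : Fin n → ℝ) :
    qf (Bm α β σ X) v = α * qf (H0 σ) v + β * qf (Wv (1 / (n : ℝ)) X) (Pn n *ᵥ v) := by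
  rw [← qf_PWP]
  unfold Bm
  simp only [qf_eq, Matrix.add_mulVec, Matrix.smul_mulVec, dotProduct_add, dotProduct_smul,
    smul_eq_mul]

lemma Bm_symm {n : ℕ} (α β : ℝ) {σ : Fin n → Fin n → Bool} (hσ : σ ∈ Sn n)
    (X : Fin n × Fin n → ℝ) (i j : Fin n) : Bm α β σ X i j = Bm α β σ X j i := by
  have h1 : (Pn n * Wv (1 / (n : ℝ)) X * Pn n)ᵀ = Pn n * Wv (1 / (n : ℝ)) X * Pn n := by
    rw [Matrix.transpose_mul, Matrix.transpose_mul, Pn_transpose, wv_symm, Matrix.mul_assoc]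
  have h2 := congrFun (congrFun h1 j) i
  rw [Matrix.transpose_apply] at h2
  unfold Bm
  rw [Matrix.add_apply, Matrix.add_apply, Matrix.smul_apply, Matrix.smul_apply, Matrix.smul_apply,
    Matrix.smul_apply, H0_symm hσ, h2]

/-- deterministic norm bound off the exceptional sets -/
lemma Bm_opLe {n : ℕ} (hn : 3 ≤ n) {α β : ℝ} (hα : 0 ≤ α) (hβ : 0 ≤ β) (hab : α ^ 2 + β ^ 2 = 1)
    {σ : Fin n → Fin n → Bool} (hσ : σ ∈ Sn n) (hσ' : σ ∉ badS n) {X : Fin n × Fin n → ℝ}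
    (hX : X ∉ badX n) : OpLe (toC (Bm α β σ X)) (28 * Real.log n) := by
  have hL := log_ge_one hn
  have h1 : ∀ v : Fin n → ℝ, |qf (H0 σ) v| ≤ 14 * Real.log n * ∑ i, v i ^ 2 := by
    by_contra hcon
    exact hσ' (by classical exact Finset.mem_filter.2 ⟨hσ, hcon⟩)
  have h2 : ∀ v : Fin n → ℝ, |qf (Wv (1 / (n : ℝ)) X) v| ≤ 14 * Real.log n * ∑ i, v i ^ 2 := by
    by_contra hcon
    exact hX hcon
  have hα1 : α ≤ 1 := by nlinarith
  have hβ1 : β ≤ 1 := by nlinarith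
  refine opLe_of_qf _ (Bm_symm α β hσ X) _ (by positivity) (fun v => ?_)
  rw [qf_Bm]
  have hv0 : 0 ≤ ∑ i, v i ^ 2 := Finset.sum_nonneg fun i _ => sq_nonneg _
  have h3 := h1 v
  have h4 := h2 (Pn n *ᵥ v)
  have h5 : |qf (Wv (1 / (n : ℝ)) X) (Pn n *ᵥ v)| ≤ 14 * Real.log n * ∑ i, v i ^ 2 :=
    h4.trans (mul_le_mul_of_nonneg_left (Pn_sq_le v) (by positivity))
  have h6 : |α * qf (H0 σ) v| ≤ 14 * Real.log n * ∑ i, v i ^ 2 := by
    rw [abs_mul, abs_of_nonneg hα]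
    nlinarith [abs_nonneg (qf (H0 σ) v)]
  have h7 : |β * qf (Wv (1 / (n : ℝ)) X) (Pn n *ᵥ v)| ≤ 14 * Real.log n * ∑ i, v i ^ 2 := by
    rw [abs_mul, abs_of_nonneg hβ]
    nlinarith [abs_nonneg (qf (Wv (1 / (n : ℝ)) X) (Pn n *ᵥ v))]
  have h8 := abs_add_le (α * qf (H0 σ) v) (β * qf (Wv (1 / (n : ℝ)) X) (Pn n *ᵥ v))
  linarith

/-- general form: an event contained in the exceptional sets has small probability -/
theorem PJ_le_of_bad {n : ℕ} (hn : 3 ≤ n) (he : Even n)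
    (A : (Fin n → Fin n → Bool) → (Fin n × Fin n → ℝ) → Prop)
    (hA : ∀ σ ∈ Sn n, σ ∉ badS n → ∀ X, X ∉ badX n → ¬ A σ X) :
    PJ A ≤ Real.exp (-(n : ℝ)) := by
  classical
  unfold PJ EU
  rcases Nat.eq_zero_or_pos (Sn n).card with h0 | hpos
  · rw [h0]
    rw [Nat.cast_zero, _root_.inv_zero, zero_smul]
    exact (Real.exp_pos _).le
  have hS : (0 : ℝ) < (Sn n).card := Nat.cast_pos.2 hpos
  rw [smul_eq_mul, inv_mul_le_iff₀ hS]
  have h1 : ∀ σ ∈ Sn n, (gm n).real {X | A σ X}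
      ≤ (if σ ∈ badS n then 1 else 0) + Real.exp (-(2 * (n : ℝ))) := by
    intro σ hσ
    split_ifs with h
    · have := measureReal_le_one (μ := gm n) (s := {X | A σ X})
      have h2 := Real.exp_pos (-(2 * (n : ℝ)))
      linarith
    · rw [zero_add]
      refine le_trans (measureReal_mono ?_) (badX_meas hn)
      intro X hX
      by_contra hcon
      exact hA σ hσ h X hcon hX
  have h2 : ∑ σ ∈ Sn n, (if σ ∈ badS n then (1 : ℝ) else 0) = (badS n).card := by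
    rw [← Finset.sum_filter]
    have : (Sn n).filter (fun σ => σ ∈ badS n) = badS n := by
      ext σ
      simp only [Finset.mem_filter]
      constructor
      · exact fun h => h.2
      · exact fun h => ⟨(Finset.mem_filter.1 h).1, h⟩
    rw [this]
    simp
  have h3 := badS_card hn he
  have hexp : 2 * Real.exp (-(2 * (n : ℝ))) ≤ Real.exp (-(n : ℝ)) := by
    have e1 : Real.exp (-(n : ℝ)) = Real.exp n * Real.exp (-(2 * (n : ℝ))) := by
      rw [← Real.exp_add]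
      congr 1
      ring
    rw [e1]
    apply mul_le_mul_of_nonneg_right _ (Real.exp_pos _).le
    have := Real.add_one_le_exp (n : ℝ)
    have h3 : (3 : ℝ) ≤ n := by exact_mod_cast hn
    linarith
  calc ∑ σ ∈ Sn n, (gm n).real {X | A σ X}
      ≤ ∑ σ ∈ Sn n, ((if σ ∈ badS n then 1 else 0) + Real.exp (-(2 * (n : ℝ)))) :=
        Finset.sum_le_sum h1
    _ = (badS n).card + (Sn n).card * Real.exp (-(2 * (n : ℝ))) := by
        rw [Finset.sum_add_distrib, h2, Finset.sum_const, nsmul_eq_mul]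
    _ ≤ (Sn n).card * (2 * Real.exp (-(2 * (n : ℝ)))) := by linarith
    _ ≤ (Sn n).card * Real.exp (-(n : ℝ)) := mul_le_mul_of_nonneg_left hexp hS.le

end Pool.Agent.ZR.PB

namespace Pool.Agent.ZR

theorem bNorm : BNorm := by
  refine ⟨28, by norm_num, 3, fun n hn he α β hα hβ hab => ?_⟩
  exact PB.PJ_le_of_bad hn he _ (fun σ hσ hσ' X hX h =>
    h (PB.Bm_opLe hn hα hβ hab hσ hσ' hX))

end Pool.Agent.ZR

end

section

/-!
# ZR/PB7 : second moment of `T = (1/n) tr M` (helper2)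
-/


open MeasureTheory ProbabilityTheory Matrix

namespace Pool.Agent.ZR.PB

lemma EU_ofReal {n : ℕ} (h : (Fin n → Fin n → Bool) → ℝ) :
    EU (fun σ => ((h σ : ℝ) : ℂ)) = ((EU h : ℝ) : ℂ) := by
  unfold EU
  rw [Complex.real_smul, smul_eq_mul]
  push_cast
  rfl

lemma mnr_real {n : ℕ} {i j : Fin n} (h1 : i ≠ j) (g : (Fin n → Fin n → Bool) → ℝ) :
    EU (fun σ => (Mx σ i i - Mx σ i j + Mx σ j j - Mx σ i i * Mx σ i j * Mx σ j j) * g σ)
      = - 2 * EU (fun σ => if AltM i j σ then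
          Mx σ i i * (g (flipP (mnr i j) σ) - g σ) else 0) := by
  have h := mnr_identity h1 (fun σ => ((g σ : ℝ) : ℂ))
  apply Complex.ofReal_injective
  rw [Complex.ofReal_mul, ← EU_ofReal, ← EU_ofReal]
  refine Eq.trans ?_ (h.trans ?_)
  · apply EU_congr
    intro σ _
    push_cast
    rfl
  · congr 1
    · push_cast; rfl
    · apply EU_congr
      intro σ _
      split_ifs <;> push_cast <;> rfl

/-- the normalised trace -/
noncomputable def Tt {n : ℕ} (σ : Fin n → Fin n → Bool) : ℝ := (1 / (n : ℝ)) * (Mx σ).trace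

lemma trace_flip {n : ℕ} {i j : Fin n} (h1 : i ≠ j) (σ : Fin n → Fin n → Bool) :
    (Mx (flipP (mnr i j) σ)).trace = (Mx σ).trace - 2 * (Mx σ i i + Mx σ j j) := by
  unfold Matrix.trace
  simp only [Matrix.diag_apply, Mx_switchM]
  have e : ∀ x, (if (x = i ∨ x = j) ∧ (x = i ∨ x = j) then - Mx σ x x else Mx σ x x)
      = Mx σ x x - ((if x = i then 2 * Mx σ x x else 0) + (if x = j then 2 * Mx σ x x else 0)) := by
    intro x
    by_cases hi : x = i
    · have hj : x ≠ j := fun h => h1 (hi.symm.trans h)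
      simp [hi, h1]
      ring
    · by_cases hj : x = j
      · simp [hj, h1.symm]
        ring
      · simp [hi, hj]
  simp only [e, Finset.sum_sub_distrib, Finset.sum_add_distrib]
  simp only [Finset.sum_ite_eq', Finset.mem_univ, if_true]
  ring

lemma minor_le {n : ℕ} (hn : 0 < n) (i j : Fin n) :
    EU (fun σ => (Mx σ i i - Mx σ i j + Mx σ j j - Mx σ i i * Mx σ i j * Mx σ j j) * Tt σ)
      ≤ 8 / (n : ℝ) := by
  have hn' : (0 : ℝ) < n := Nat.cast_pos.2 hn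
  by_cases h1 : i = j
  · subst h1
    have : EU (fun σ => (Mx σ i i - Mx σ i i + Mx σ i i - Mx σ i i * Mx σ i i * Mx σ i i) * Tt σ)
        ≤ 0 := by
      apply EU_le_const le_rfl
      intro σ _
      have h2 := Mx_sq σ i i
      have h3 : Mx σ i i - Mx σ i i + Mx σ i i - Mx σ i i * Mx σ i i * Mx σ i i = 0 := by
        have : Mx σ i i * Mx σ i i * Mx σ i i = Mx σ i i := by
          rw [← sq, h2, one_mul]
        rw [this]
        ring
      rw [h3, zero_mul]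
    exact this.trans (by positivity)
  · rw [mnr_real h1]
    have e : EU (fun σ => if AltM i j σ then
          Mx σ i i * (Tt (flipP (mnr i j) σ) - Tt σ) else 0)
        = (-(4 / (n : ℝ))) * EU (fun σ => if AltM i j σ then (1 : ℝ) else 0) := by
      have := EU_smul (n := n) (-(4 / (n : ℝ))) (fun σ => if AltM i j σ then (1 : ℝ) else 0)
      rw [smul_eq_mul] at this
      rw [← this]
      apply EU_congr
      intro σ _
      by_cases h : AltM i j σ
      · rw [if_pos h, if_pos h]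
        unfold Tt
        rw [trace_flip h1]
        have h2 := Mx_sq σ i i
        have h3 : Mx σ j j = Mx σ i i := by
          obtain ⟨ha, hc⟩ := h
          rw [Mx_sign, Mx_sign]
          cases ha' : σ i i <;> cases hb : σ i j <;> cases hc' : σ j j <;>
            simp only [ha', hb, hc', ne_eq, not_true_eq_false] at ha hc ⊢
        rw [h3, smul_eq_mul, mul_one]
        have h4 : Mx σ i i * (1 / (n : ℝ) * ((Mx σ).trace - 2 * (Mx σ i i + Mx σ i i))
            - 1 / n * (Mx σ).trace) = -(4 / n) * Mx σ i i ^ 2 := by ring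
        rw [h4, h2, mul_one]
      · rw [if_neg h, if_neg h, smul_zero]
    rw [e]
    have h2 : EU (fun σ : Fin n → Fin n → Bool => if AltM i j σ then (1 : ℝ) else 0) ≤ 1 := by
      apply EU_le_const zero_le_one
      intro σ _
      split_ifs <;> norm_num
    have h3 : (0 : ℝ) ≤ 8 / n := by positivity
    have e2 : -2 * (-(4 / (n : ℝ)) * EU (fun σ : Fin n → Fin n → Bool =>
        if AltM i j σ then (1 : ℝ) else 0))
        = 8 / n * EU (fun σ : Fin n → Fin n → Bool => if AltM i j σ then (1 : ℝ) else 0) := by ring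
    rw [e2]
    nlinarith

lemma minor_sum {n : ℕ} {σ : Fin n → Fin n → Bool} (hσ : σ ∈ Sn n) :
    ∑ i, ∑ j, (Mx σ i i - Mx σ i j + Mx σ j j - Mx σ i i * Mx σ i j * Mx σ j j)
      = 2 * n * (Mx σ).trace - qf (Mx σ) (fun i => Mx σ i i) := by
  have hrow : ∀ i, ∑ j, Mx σ i j = 0 := by
    intro i
    have h := ((mem_Sn σ).1 hσ).2 i
    have h2 : ∑ j, Mx σ i j = ((∑ j, sg (σ i j) : ℤ) : ℝ) := by
      push_cast
      refine Finset.sum_congr rfl fun j _ => ?_
      rw [Mx_sign]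
      unfold sg
      split_ifs <;> norm_num
    rw [h2, h]
    norm_num
  have e1 : ∀ i, ∑ j, (Mx σ i i - Mx σ i j + Mx σ j j - Mx σ i i * Mx σ i j * Mx σ j j)
      = n * Mx σ i i + (Mx σ).trace - ∑ j, Mx σ i i * Mx σ i j * Mx σ j j := by
    intro i
    have ht : (Mx σ).trace = ∑ j, Mx σ j j := rfl
    rw [ht, Finset.sum_sub_distrib, Finset.sum_add_distrib, Finset.sum_sub_distrib, hrow i,
      Finset.sum_const, Finset.card_univ, Fintype.card_fin, nsmul_eq_mul, sub_zero]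
  simp only [e1]
  rw [Finset.sum_sub_distrib, Finset.sum_add_distrib, Finset.sum_const, Finset.card_univ,
    Fintype.card_fin, nsmul_eq_mul, ← Finset.mul_sum]
  have ht : (Mx σ).trace = ∑ j, Mx σ j j := rfl
  rw [ht]
  unfold qf
  ring

lemma diag_sq {n : ℕ} (σ : Fin n → Fin n → Bool) : ∑ i, (fun i => Mx σ i i) i ^ 2 = (n : ℝ) := by
  simp only [Mx_sq, Finset.sum_const, Finset.card_univ, Fintype.card_fin, nsmul_eq_mul, mul_one]

lemma Mx_abs {n : ℕ} (σ : Fin n → Fin n → Bool) (i j : Fin n) : |Mx σ i j| = 1 := by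
  rw [Mx_sign]
  split_ifs <;> simp

lemma Tt_abs {n : ℕ} (hn : 0 < n) (σ : Fin n → Fin n → Bool) : |Tt σ| ≤ 1 := by
  have hn' : (0 : ℝ) < n := Nat.cast_pos.2 hn
  unfold Tt
  rw [abs_mul, abs_of_nonneg (by positivity : (0 : ℝ) ≤ 1 / n)]
  have h : |(Mx σ).trace| ≤ n := by
    have ht : (Mx σ).trace = ∑ j, Mx σ j j := rfl
    rw [ht]
    refine (Finset.abs_sum_le_sum_abs _ _).trans ?_
    simp only [Mx_abs, Finset.sum_const, Finset.card_univ, Fintype.card_fin, nsmul_eq_mul, mul_one,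
      le_refl]
  calc 1 / (n : ℝ) * |(Mx σ).trace| ≤ 1 / n * n := mul_le_mul_of_nonneg_left h (by positivity)
    _ = 1 := by field_simp

lemma qf_diag_abs {n : ℕ} (σ : Fin n → Fin n → Bool) :
    |qf (Mx σ) (fun i => Mx σ i i)| ≤ (n : ℝ) ^ 2 := by
  unfold qf
  refine (Finset.abs_sum_le_sum_abs _ _).trans ?_
  calc ∑ i, |∑ j, Mx σ i i * Mx σ i j * Mx σ j j|
      ≤ ∑ i : Fin n, ∑ j : Fin n, |Mx σ i i * Mx σ i j * Mx σ j j| :=
        Finset.sum_le_sum fun i _ => Finset.abs_sum_le_sum_abs _ _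
    _ = (n : ℝ) ^ 2 := by
        simp only [abs_mul, Mx_abs, mul_one, Finset.sum_const, Finset.card_univ, Fintype.card_fin,
          nsmul_eq_mul]
        ring

open Classical in
lemma pointwise {n : ℕ} (hn : 3 ≤ n) {σ : Fin n → Fin n → Bool} (hσ : σ ∈ Sn n) :
    qf (Mx σ) (fun i => Mx σ i i) * Tt σ ≤ (n : ℝ) ^ 2 * Tt σ ^ 2
      + 49 * (Real.log n) ^ 2 * n + (n : ℝ) ^ 2 * (if σ ∈ badS n then 1 else 0) := by
  have hn0 : 0 < n := by omega
  have hn' : (0 : ℝ) < n := Nat.cast_pos.2 hn0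
  have hL := log_ge_one hn
  by_cases hb : σ ∈ badS n
  · rw [if_pos hb, mul_one]
    have h1 := qf_diag_abs σ
    have h2 := Tt_abs hn0 σ
    have h3 : qf (Mx σ) (fun i => Mx σ i i) * Tt σ ≤ (n : ℝ) ^ 2 := by
      calc qf (Mx σ) (fun i => Mx σ i i) * Tt σ
          ≤ |qf (Mx σ) (fun i => Mx σ i i) * Tt σ| := le_abs_self _
        _ = |qf (Mx σ) (fun i => Mx σ i i)| * |Tt σ| := abs_mul _ _
        _ ≤ (n : ℝ) ^ 2 * 1 := mul_le_mul h1 h2 (abs_nonneg _) (by positivity)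
        _ = (n : ℝ) ^ 2 := mul_one _
    have h4 : 0 ≤ (n : ℝ) ^ 2 * Tt σ ^ 2 := by positivity
    have h5 : 0 ≤ 49 * (Real.log n) ^ 2 * n := by positivity
    linarith
  · rw [if_neg hb, mul_zero, add_zero]
    have h1 : ∀ v : Fin n → ℝ, |qf (H0 σ) v| ≤ 14 * Real.log n * ∑ i, v i ^ 2 := by
      by_contra hcon
      exact hb (by exact Finset.mem_filter.2 ⟨hσ, hcon⟩)
    have h2 := h1 (fun i => Mx σ i i)
    rw [diag_sq, qf_H0, abs_mul, abs_of_nonneg (by positivity)] at h2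
    have hsq : 0 < Real.sqrt n := Real.sqrt_pos.2 hn'
    have hsq2 : Real.sqrt n ^ 2 = n := Real.sq_sqrt hn'.le
    set Q := qf (Mx σ) (fun i => Mx σ i i) with hQ
    have h3 : |Q| ≤ 14 * Real.log n * n * Real.sqrt n := by
      rw [one_div, inv_mul_le_iff₀ hsq] at h2
      linarith
    have h4 : Q ^ 2 ≤ 196 * (Real.log n) ^ 2 * (n : ℝ) ^ 3 := by
      have h5 : Q ^ 2 ≤ (14 * Real.log n * n * Real.sqrt n) ^ 2 := by
        rw [← sq_abs Q]
        exact pow_le_pow_left₀ (abs_nonneg _) h3 2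
      refine h5.trans (le_of_eq ?_)
      rw [mul_pow, hsq2]
      ring
    -- Q T ≤ n² T² + Q² / (4 n²)
    have h6 : Q * Tt σ ≤ (n : ℝ) ^ 2 * Tt σ ^ 2 + Q ^ 2 / (4 * (n : ℝ) ^ 2) := by
      have h7 : 0 ≤ ((n : ℝ) * Tt σ - Q / (2 * n)) ^ 2 := sq_nonneg _
      have h8 : ((n : ℝ) * Tt σ - Q / (2 * n)) ^ 2
          = (n : ℝ) ^ 2 * Tt σ ^ 2 + Q ^ 2 / (4 * (n : ℝ) ^ 2) - Q * Tt σ := by
        field_simp
        ring
      linarith
    have h9 : Q ^ 2 / (4 * (n : ℝ) ^ 2) ≤ 49 * (Real.log n) ^ 2 * n := by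
      rw [div_le_iff₀ (by positivity)]
      refine h4.trans (le_of_eq ?_)
      ring
    linarith

open Classical in
lemma EU_bad {n : ℕ} (hn : 3 ≤ n) (he : Even n) :
    EU (fun σ : Fin n → Fin n → Bool => if σ ∈ badS n then (1 : ℝ) else 0)
      ≤ Real.exp (-(2 * (n : ℝ))) := by
  unfold EU
  have hS : (0 : ℝ) < (Sn n).card := Nat.cast_pos.2 (Finset.card_pos.2 (Sn_nonempty he))
  rw [smul_eq_mul, inv_mul_le_iff₀ hS]
  have h2 : ∑ σ ∈ Sn n, (if σ ∈ badS n then (1 : ℝ) else 0) = (badS n).card := by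
    rw [← Finset.sum_filter]
    have : (Sn n).filter (fun σ => σ ∈ badS n) = badS n := by
      ext σ
      simp only [Finset.mem_filter]
      constructor
      · exact fun h => h.2
      · exact fun h => ⟨(Finset.mem_filter.1 h).1, h⟩
    rw [this]
    simp
  rw [h2, mul_comm]
  exact badS_card hn he

end Pool.Agent.ZR.PB

namespace Pool.Agent.ZR

theorem eT2 : ET2 := by
  classical
  refine ⟨58, by norm_num, 3, fun n hn he => ?_⟩
  have hn0 : 0 < n := by omega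
  have hn' : (0 : ℝ) < n := Nat.cast_pos.2 hn0
  have hL := PB.log_ge_one hn
  have h3n : (3 : ℝ) ≤ n := by exact_mod_cast hn
  -- the switching identity summed over all pairs
  have h1 : EU (n := n) (fun σ => (2 * n * (Mx σ).trace
      - PB.qf (Mx σ) (fun i => Mx σ i i)) * PB.Tt σ) ≤ 8 * n := by
    have e1 : EU (n := n) (fun σ => (2 * n * (Mx σ).trace
        - PB.qf (Mx σ) (fun i => Mx σ i i)) * PB.Tt σ)
        = ∑ i : Fin n, ∑ j : Fin n, EU (n := n) (fun σ => (Mx σ i i - Mx σ i j + Mx σ j j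
          - Mx σ i i * Mx σ i j * Mx σ j j) * PB.Tt σ) := by
      have e2 : EU (n := n) (fun σ => (2 * n * (Mx σ).trace
        - PB.qf (Mx σ) (fun i => Mx σ i i)) * PB.Tt σ)
        = EU (n := n) (fun σ => ∑ i : Fin n, ∑ j : Fin n, (Mx σ i i - Mx σ i j + Mx σ j j
          - Mx σ i i * Mx σ i j * Mx σ j j) * PB.Tt σ) := by
        apply EU_congr
        intro σ hσ
        rw [← PB.minor_sum hσ, Finset.sum_mul]
        exact Finset.sum_congr rfl fun i _ => Finset.sum_mul _ _ _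
      rw [e2, EU_sum]
      exact Finset.sum_congr rfl fun i _ => EU_sum _ _
    rw [e1]
    calc ∑ i : Fin n, ∑ j : Fin n, EU (fun σ => (Mx σ i i - Mx σ i j + Mx σ j j
          - Mx σ i i * Mx σ i j * Mx σ j j) * PB.Tt σ)
        ≤ ∑ _i : Fin n, ∑ _j : Fin n, 8 / (n : ℝ) :=
          Finset.sum_le_sum fun i _ => Finset.sum_le_sum fun j _ => PB.minor_le hn0 i j
      _ = 8 * n := by
          simp only [Finset.sum_const, Finset.card_univ, Fintype.card_fin, nsmul_eq_mul]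
          field_simp
  set E := EU (n := n) (fun σ => ((1 / (n : ℝ)) * (Mx σ).trace) ^ 2) with hE
  -- lower bound of the left side
  have h2 : EU (n := n) (fun σ => (2 * n * (Mx σ).trace) * PB.Tt σ) = 2 * (n : ℝ) ^ 2 * E := by
    have e1 := EU_smul (n := n) (2 * (n : ℝ) ^ 2)
      (fun σ => ((1 / (n : ℝ)) * (Mx σ).trace) ^ 2)
    simp only [smul_eq_mul] at e1
    rw [hE, ← e1]
    apply EU_congr
    intro σ _
    unfold PB.Tt
    field_simp
  have h3 : EU (n := n) (fun σ => PB.qf (Mx σ) (fun i => Mx σ i i) * PB.Tt σ)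
      ≤ (n : ℝ) ^ 2 * E + 49 * (Real.log n) ^ 2 * n + (n : ℝ) ^ 2 * Real.exp (-(2 * (n : ℝ))) := by
    have h4 : EU (n := n) (fun σ => PB.qf (Mx σ) (fun i => Mx σ i i) * PB.Tt σ)
        ≤ EU (n := n) (fun σ => (n : ℝ) ^ 2 * PB.Tt σ ^ 2
          + 49 * (Real.log n) ^ 2 * n + (n : ℝ) ^ 2 * (if σ ∈ PB.badS n then 1 else 0)) :=
      EU_mono fun σ hσ => PB.pointwise hn hσ
    have h5 : EU (n := n) (fun σ => (n : ℝ) ^ 2 * PB.Tt σ ^ 2
          + 49 * (Real.log n) ^ 2 * n + (n : ℝ) ^ 2 * (if σ ∈ PB.badS n then 1 else 0))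
        = (n : ℝ) ^ 2 * E + 49 * (Real.log n) ^ 2 * n
          + (n : ℝ) ^ 2 * EU (n := n) (fun σ => if σ ∈ PB.badS n then (1 : ℝ) else 0) := by
      rw [EU_add, EU_add, EU_const he]
      have e1 := EU_smul (n := n) ((n : ℝ) ^ 2) (fun σ => PB.Tt σ ^ 2)
      have e2 := EU_smul (n := n) ((n : ℝ) ^ 2) (fun σ => if σ ∈ PB.badS n then (1 : ℝ) else 0)
      simp only [smul_eq_mul] at e1 e2
      rw [e1, e2]
      rfl
    rw [h5] at h4
    refine h4.trans ?_
    have h6 := PB.EU_bad hn he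
    have h7 : (n : ℝ) ^ 2 * EU (n := n) (fun σ => if σ ∈ PB.badS n then (1 : ℝ) else 0)
        ≤ (n : ℝ) ^ 2 * Real.exp (-(2 * (n : ℝ))) :=
      mul_le_mul_of_nonneg_left h6 (by positivity)
    linarith
  have h4 : EU (n := n) (fun σ => (2 * n * (Mx σ).trace
      - PB.qf (Mx σ) (fun i => Mx σ i i)) * PB.Tt σ)
      = EU (n := n) (fun σ => (2 * n * (Mx σ).trace) * PB.Tt σ)
        - EU (n := n) (fun σ => PB.qf (Mx σ) (fun i => Mx σ i i) * PB.Tt σ) := by
    rw [← EU_sub]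
    exact EU_congr fun σ _ => by ring
  rw [h4, h2] at h1
  have h5 : Real.exp (-(2 * (n : ℝ))) * n ≤ 1 := by
    have h6 : (n : ℝ) ≤ Real.exp (2 * n) := by
      have := Real.add_one_le_exp (2 * (n : ℝ))
      linarith
    rw [Real.exp_neg, inv_mul_le_iff₀ (Real.exp_pos _), mul_one]
    exact h6
  have h6 : (n : ℝ) ^ 2 * E ≤ 8 * n + 49 * (Real.log n) ^ 2 * n
      + (n : ℝ) ^ 2 * Real.exp (-(2 * (n : ℝ))) := by linarith
  have h7 : (n : ℝ) ^ 2 * Real.exp (-(2 * (n : ℝ))) ≤ n := by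
    have : (n : ℝ) ^ 2 * Real.exp (-(2 * (n : ℝ))) = n * (Real.exp (-(2 * (n : ℝ))) * n) := by ring
    rw [this]
    nlinarith
  have h8 : 1 ≤ (Real.log n) ^ 2 := by nlinarith
  rw [le_div_iff₀ hn']
  have h9 : (n : ℝ) * (E * n) ≤ n * (58 * (Real.log n) ^ 2) := by nlinarith
  exact le_of_mul_le_mul_left h9 hn'

end Pool.Agent.ZR

end
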