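import Pool.Agent.ZRM.P06
import Pool.Agent.ZRM.P07
import Pool.Agent.ZRM.P08

/-!
# Merged form of the modules ZR.MTen, ZBL.G6, ZR.ITr, ZR.D3, ZR.D5, ZR.H1
-/

set_option autoImplicit false

section

/-!
# ZR/MTen : approximation of `F ∈ C_c(ℝ^k)` by sums of products of test functions

PROOF.  `F` has compact support: choose `R ≥ 1` such that `F v = 0` unless `|v j| ≤ R` for all `j`.
`χ` = a smooth bump (`ContDiffBump (0 : ℝ)` with `rIn = R + 1`, `rOut = R + 2`): `0 ≤ χ ≤ 1`, `χ = 1` on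
`[-R,R]`, `χ = 0` outside `(-(R+2), R+2)`.  Let `K = Icc (-(R+2)) (R+2) ⊂ (Fin k → ℝ)` (constant
functions as bounds), compact.  The subalgebra of `C(K, ℝ)` of the functions `v ↦ MvPolynomial.eval v p`
(range of `MvPolynomial.aeval` of the coordinate functions) separates points, so by Stone-Weierstrass
(`ContinuousMap.subalgebra_topologicalClosure_eq_top_of_separatesPoints`, then
`ContinuousMap.exists_mem_subalgebra_near_continuousMap_of_separatesPoints` or
`exists_mem_subalgebra_near_continuous_of_separatesPoints`) there is `p` with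
`|F v - eval v p| ≤ e` on `K`.  Then `|F v - eval v p * ∏ χ (v j)| ≤ e * ∏ χ (v j)` for every `v`:
if `v ∉ K` some `χ (v j) = 0`, all three terms vanish (`F v = 0`); if `v ∈ K`, `F v = F v * ∏ χ (v j)`
(either `F v = 0` or all `χ (v j) = 1`).  Finally
`eval v p * ∏ χ (v j) = ∑_{α ∈ p.support} p.coeff α * ∏_j ((v j)^(α j) * χ (v j))`
(`MvPolynomial.eval_eq'`), and `u ↦ u^m * χ u` is a test function; index the support by `Fin N`
(`Finset.equivFin`).
-/


namespace Pool.Agent.ZR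

theorem tensor_approx {k : ℕ} (F : (Fin k → ℝ) → ℝ) (hF : Continuous F)
    (hc : HasCompactSupport F) :
    ∃ χ : ℝ → ℝ, Tst χ ∧ (∀ u, 0 ≤ χ u) ∧
      ∀ e : ℝ, 0 < e → ∃ (N : ℕ) (coef : Fin N → ℝ) (φ : Fin N → Fin k → ℝ → ℝ),
        (∀ a j, Tst (φ a j)) ∧
        ∀ v, |F v - ∑ a, coef a * ∏ j, φ a j (v j)| ≤ e * ∏ j, χ (v j) := by
  classical
  obtain ⟨R0, hR0⟩ := (IsCompact.isBounded hc).subset_closedBall (0 : Fin k → ℝ)
  set R : ℝ := max R0 1 with hR
  have hR1 : 1 ≤ R := le_max_right _ _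
  have hFz : ∀ v, F v ≠ 0 → ∀ j, |v j| ≤ R := by
    intro v hv j
    have h1 : v ∈ tsupport F := subset_tsupport _ (by simpa [Function.mem_support] using hv)
    have h2 := hR0 h1
    rw [mem_closedBall_zero_iff] at h2
    calc |v j| = ‖v j‖ := (Real.norm_eq_abs _).symm
      _ ≤ ‖v‖ := norm_le_pi_norm v j
      _ ≤ R0 := h2
      _ ≤ R := le_max_left _ _
  let f : ContDiffBump (0 : ℝ) :=
    { rIn := R + 1, rOut := R + 2, rIn_pos := by linarith, rIn_lt_rOut := by linarith }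
  have hf1 : ∀ u : ℝ, |u| ≤ R → f u = 1 := by
    intro u hu
    apply f.one_of_mem_closedBall
    rw [mem_closedBall_zero_iff, Real.norm_eq_abs]
    show |u| ≤ R + 1
    linarith
  have hf0 : ∀ u : ℝ, R + 2 ≤ |u| → f u = 0 := by
    intro u hu
    apply f.zero_of_le_dist
    rw [dist_zero_right, Real.norm_eq_abs]
    exact hu
  refine ⟨fun u => f u, ⟨f.contDiff, f.hasCompactSupport⟩, fun u => f.nonneg, ?_⟩
  intro e he
  set K : Set (Fin k → ℝ) := Set.Icc (fun _ => -(R + 2)) (fun _ => R + 2) with hK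
  haveI : CompactSpace K := isCompact_iff_compactSpace.1 isCompact_Icc
  let co : Fin k → C(K, ℝ) := fun j => ⟨fun v => v.1 j, (continuous_apply j).comp continuous_subtype_val⟩
  let A : Subalgebra ℝ C(K, ℝ) := (MvPolynomial.aeval (R := ℝ) co).range
  have hsep : A.SeparatesPoints := by
    intro x y hxy
    have h1 : ∃ j, x.1 j ≠ y.1 j := by
      by_contra hcon
      push Not at hcon
      exact hxy (Subtype.ext (funext hcon))
    obtain ⟨j, hj⟩ := h1
    refine ⟨fun v => co j v, ⟨co j, ?_, rfl⟩, hj⟩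
    exact ⟨MvPolynomial.X j, by simp⟩
  have hev : ∀ (p : MvPolynomial (Fin k) ℝ) (x : K),
      (MvPolynomial.aeval (R := ℝ) co p) x = MvPolynomial.eval x.1 p := by
    intro p x
    induction p using MvPolynomial.induction_on with
    | C a => simp
    | add p q h1 h2 => simp only [map_add, ContinuousMap.add_apply, h1, h2]
    | mul_X p i h1 =>
      simp only [map_mul, ContinuousMap.mul_apply, h1, MvPolynomial.aeval_X, MvPolynomial.eval_X]
      rfl
  obtain ⟨g, hg⟩ := ContinuousMap.exists_mem_subalgebra_near_continuousMap_of_separatesPoints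
    A hsep ⟨fun v => F v.1, hF.comp continuous_subtype_val⟩ e he
  obtain ⟨p, hp⟩ := g.2
  have happ : ∀ x : K, |F x.1 - MvPolynomial.eval x.1 p| ≤ e := by
    intro x
    have h1 := ContinuousMap.norm_coe_le_norm ((g : C(K, ℝ)) - ⟨fun v => F v.1, hF.comp continuous_subtype_val⟩) x
    have h2 : ((g : C(K, ℝ)) - ⟨fun v => F v.1, hF.comp continuous_subtype_val⟩ : C(K, ℝ)) x =
        MvPolynomial.eval x.1 p - F x.1 := by
      rw [ContinuousMap.sub_apply, ← hev p x, ← hp]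
      rfl
    rw [h2, Real.norm_eq_abs, abs_sub_comm] at h1
    exact le_trans h1 hg.le
  let eq := p.support.equivFin.symm
  refine ⟨p.support.card, fun a => p.coeff (eq a).1,
    fun a j u => u ^ ((eq a).1 j) * f u, ?_, ?_⟩
  · intro a j
    exact ⟨(contDiff_id.pow _).mul f.contDiff, f.hasCompactSupport.mul_left⟩
  intro v
  have hsum : ∑ a, p.coeff (eq a).1 * ∏ j, (v j ^ ((eq a).1 j) * f (v j)) =
      MvPolynomial.eval v p * ∏ j, f (v j) := by
    rw [MvPolynomial.eval_eq', Finset.sum_mul]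
    rw [← Finset.sum_coe_sort p.support]
    rw [← Equiv.sum_comp eq]
    refine Finset.sum_congr rfl fun a _ => ?_
    rw [Finset.prod_mul_distrib]
    ring
  have hpos : 0 ≤ ∏ j, f (v j) := Finset.prod_nonneg fun j _ => f.nonneg
  show |F v - ∑ a, p.coeff (eq a).1 * ∏ j, (v j ^ ((eq a).1 j) * f (v j))| ≤ e * ∏ j, f (v j)
  rw [hsum]
  have hFv : F v = F v * ∏ j, f (v j) := by
    by_cases h : F v = 0
    · rw [h, zero_mul]
    · rw [Finset.prod_eq_one (fun j _ => hf1 _ (hFz v h j)), mul_one]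
  by_cases hvK : v ∈ K
  · have h1 := happ ⟨v, hvK⟩
    rw [hFv, ← sub_mul, abs_mul, abs_of_nonneg hpos]
    exact mul_le_mul_of_nonneg_right h1 hpos
  · have h1 : ∃ j, R + 2 < |v j| := by
      by_contra hcon
      push Not at hcon
      apply hvK
      rw [hK, Set.mem_Icc]
      constructor
      · intro j
        exact (abs_le.1 (hcon j)).1
      · intro j
        exact (abs_le.1 (hcon j)).2
    obtain ⟨j, hj⟩ := h1
    have h2 : ∏ j, f (v j) = 0 := Finset.prod_eq_zero (Finset.mem_univ j) (hf0 _ hj.le)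
    rw [h2, mul_zero] at hFv
    rw [h2, hFv]
    simp

end Pool.Agent.ZR

end

section

/-!
# ZBL/G6 : Gaussian smoothing, higher derivatives, closeness

Proof.
`pd_SM`: for `g` in `CB 1`, differentiate under the integral `SM ε g x = ∫ g (x + ε z) dγ(z)`
(`hasFDerivAt_integral_of_dominated_of_fderiv_le` with the CONSTANT bound `∑ C_i`, `gst` is a
probability measure): derivative `∫ ∑_i pd i g (x+εz) proj i = ∑_i SM ε (pd i g) x • proj i`
(`CB.hasFDerivAt` composed with the translation; apply the integral of CLMs to a vector with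
`ContinuousLinearMap.integral_apply`, or prove the limit directly in coordinates).
`SM_CB` by induction on `k`: `k = 0` is `SM_CB_one`; for `k+1`: `pd i (SM ε g) = SM ε (pd i g)` is
`CB (k+1)` by the induction hypothesis, use `CB.intro` with `D i = SM ε (pd i g)`.
(`SM 0 g = g` also is `CB k`, not needed.)
`SM_bdd`: `norm_integral_le_of_norm_le_const` and total mass one.
`SM_close`: `|SM ε f x - f x| ≤ ∫ |f (x+εz) - f x| ≤ ∫ K ε ‖z‖ dγ = c K ε`, `c = ∫ ‖z‖ dγ`
(`‖z‖ ≤ ∑ |z_i|` integrable by `gst_int_poly 1`).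
`SM_lip`: `|SM ε f x - SM ε f y| ≤ ∫ |f (x+εz) - f (y+εz)| ≤ K ‖x-y‖`.
-/


open MeasureTheory ProbabilityTheory Matrix

namespace Pool.Agent.ZR.BL

open K1

variable {ι : Type} [Fintype ι] [DecidableEq ι]

private theorem sm_bdd_aux (ε : ℝ) {g : (ι → ℝ) → ℝ} {M : ℝ} (hg : ∀ x, |g x| ≤ M)
    (x : ι → ℝ) : |SM ε g x| ≤ M := by
  unfold SM
  have h1 := norm_integral_le_of_norm_le_const (μ := gst ι) (f := fun z => g (x + ε • z))
    (C := M) (Filter.Eventually.of_forall fun z => by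
      rw [Real.norm_eq_abs]; exact hg _)
  rw [Real.norm_eq_abs] at h1
  simpa using h1

private theorem cont_shift (ε : ℝ) {g : (ι → ℝ) → ℝ} (hg : Continuous g) (x : ι → ℝ) :
    Continuous (fun z : ι → ℝ => g (x + ε • z)) :=
  hg.comp (continuous_const.add (continuous_const_smul ε))

private theorem int_shift (ε : ℝ) {g : (ι → ℝ) → ℝ} (hg : Continuous g)
    (hb : ∃ M : ℝ, ∀ x, |g x| ≤ M) (x : ι → ℝ) :
    Integrable (fun z : ι → ℝ => g (x + ε • z)) (gst ι) := by
  obtain ⟨M, hM⟩ := hb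
  exact Integrable.of_bound (cont_shift ε hg x).aestronglyMeasurable M
    (Filter.Eventually.of_forall fun z => by rw [Real.norm_eq_abs]; exact hM _)

private theorem pd_SM (ε : ℝ) {g : (ι → ℝ) → ℝ} (hg : CB 1 g) (x : ι → ℝ) :
    HasFDerivAt (SM ε g)
      (∑ i, SM ε (BL.pd i g) x • (ContinuousLinearMap.proj i : (ι → ℝ) →L[ℝ] ℝ)) x := by
  have hC : ∀ i, ∃ C : ℝ, ∀ y, |BL.pd i g y| ≤ C := fun i => (hg.pd i).bdd
  choose C hC using hC
  have hcont : ∀ i, Continuous (BL.pd i g) := fun i => (hg.pd i).cont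
  have h1 := hasFDerivAt_integral_of_dominated_of_fderiv_le (𝕜 := ℝ) (μ := gst ι)
    (F := fun (x z : ι → ℝ) => g (x + ε • z))
    (F' := fun (x z : ι → ℝ) => ∑ i, BL.pd i g (x + ε • z)
      • (ContinuousLinearMap.proj i : (ι → ℝ) →L[ℝ] ℝ))
    (x₀ := x) (s := Set.univ)
    (bound := fun _ => ∑ i, C i * ‖(ContinuousLinearMap.proj i : (ι → ℝ) →L[ℝ] ℝ)‖)
    Filter.univ_mem
    (Filter.Eventually.of_forall fun y => (cont_shift ε hg.cont y).aestronglyMeasurable)
    (int_shift ε hg.cont hg.bdd x)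
    (by
      refine Continuous.aestronglyMeasurable ?_
      refine continuous_finsetSum _ fun i _ => ?_
      exact (cont_shift ε (hcont i) x).smul continuous_const)
    (Filter.Eventually.of_forall fun z y _ => by
      refine (norm_sum_le _ _).trans (Finset.sum_le_sum fun i _ => ?_)
      rw [norm_smul, Real.norm_eq_abs]
      exact mul_le_mul_of_nonneg_right (hC i _) (norm_nonneg _))
    (integrable_const _)
    (Filter.Eventually.of_forall fun z y _ => by
      have h2 := hg.hasFDerivAt (y + ε • z)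
      have h3 : HasFDerivAt (fun y : ι → ℝ => y + ε • z)
          (ContinuousLinearMap.id ℝ (ι → ℝ)) y := (hasFDerivAt_id y).add_const _
      have h4 := h2.comp y h3
      rw [ContinuousLinearMap.comp_id] at h4
      exact h4)
  have h5 : ∫ z, (∑ i, BL.pd i g (x + ε • z)
      • (ContinuousLinearMap.proj i : (ι → ℝ) →L[ℝ] ℝ)) ∂(gst ι)
      = ∑ i, SM ε (BL.pd i g) x • (ContinuousLinearMap.proj i : (ι → ℝ) →L[ℝ] ℝ) := by
    rw [integral_finsetSum]
    · refine Finset.sum_congr rfl fun i _ => ?_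
      rw [integral_smul_const]
      rfl
    · intro i _
      exact (int_shift ε (hcont i) (hg.pd i).bdd x).smul_const _
  rw [h5] at h1
  exact h1

private theorem norm_le_sum (z : ι → ℝ) : ‖z‖ ≤ ∑ i, |z i| := by
  rw [pi_norm_le_iff_of_nonneg (Finset.sum_nonneg fun i _ => abs_nonneg _)]
  intro i
  rw [Real.norm_eq_abs]
  exact Finset.single_le_sum (f := fun i => |z i|) (fun j _ => abs_nonneg _) (Finset.mem_univ i)

theorem SM_CB {ε : ℝ} (hε : 0 < ε) (k : ℕ) {g : (ι → ℝ) → ℝ} (hg : CB k g) :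
    CB (k + 1) (SM ε g) := by
  induction k generalizing g with
  | zero => exact SM_CB_one hε hg
  | succ k ih =>
    have h1 : CB 1 g := by
      clear ih
      induction k with
      | zero => exact hg
      | succ k ihk => exact ihk hg.mono1
    obtain ⟨M, hM⟩ := hg.bdd
    exact (CB.intro (D := fun i => SM ε (BL.pd i g)) ⟨M, fun x => sm_bdd_aux ε hM x⟩
      (pd_SM ε h1) (fun i => ih (hg.pd i))).1

theorem SM_bdd (ε : ℝ) {g : (ι → ℝ) → ℝ} {M : ℝ} (hg : ∀ x, |g x| ≤ M) (x : ι → ℝ) :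
    |SM ε g x| ≤ M := by
  exact sm_bdd_aux ε hg x

theorem SM_lip (ε : ℝ) {K : NNReal} {f : (ι → ℝ) → ℝ} (hf : LipschitzWith K f)
    (hb : ∃ M : ℝ, ∀ x, |f x| ≤ M) : LipschitzWith K (SM ε f) := by
  refine LipschitzWith.of_dist_le_mul fun x y => ?_
  have hc : Continuous f := hf.continuous
  rw [Real.dist_eq]
  unfold SM
  rw [← integral_sub (int_shift ε hc hb x) (int_shift ε hc hb y)]
  have h1 := norm_integral_le_of_norm_le_const (μ := gst ι)
    (f := fun z => f (x + ε • z) - f (y + ε • z))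
    (C := K * dist x y) (Filter.Eventually.of_forall fun z => by
      have h2 := hf.dist_le_mul (x + ε • z) (y + ε • z)
      rw [dist_add_right, Real.dist_eq] at h2
      rw [Real.norm_eq_abs]
      exact h2)
  rw [Real.norm_eq_abs] at h1
  simpa using h1

theorem SM_close : ∃ c : ℝ, 0 ≤ c ∧ ∀ (f : (ι → ℝ) → ℝ) (K : NNReal), LipschitzWith K f →
    (∃ M : ℝ, ∀ x, |f x| ≤ M) → ∀ ε : ℝ, 0 ≤ ε → ∀ x, |SM ε f x - f x| ≤ c * K * ε := by
  have hint : Integrable (fun z : ι → ℝ => ‖z‖) (gst ι) := by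
    refine Integrable.mono (gst_int_poly (ι := ι) 1) continuous_norm.aestronglyMeasurable
      (Filter.Eventually.of_forall fun z => ?_)
    have h1 := norm_le_sum z
    have h2 : 0 ≤ ∑ i, |z i| := Finset.sum_nonneg fun i _ => abs_nonneg _
    rw [norm_norm, pow_one, Real.norm_eq_abs, abs_of_nonneg (by linarith)]
    linarith
  refine ⟨∫ z : ι → ℝ, ‖z‖ ∂(gst ι), integral_nonneg fun z => norm_nonneg _, ?_⟩
  intro f K hf hb ε hε x
  have hc : Continuous f := hf.continuous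
  have h0 : SM ε f x - f x = ∫ z, (f (x + ε • z) - f x) ∂(gst ι) := by
    rw [integral_sub (int_shift ε hc hb x) (integrable_const _)]
    simp [SM]
  rw [h0]
  have h1 : ‖∫ z, (f (x + ε • z) - f x) ∂(gst ι)‖ ≤ ∫ z : ι → ℝ, K * ε * ‖z‖ ∂(gst ι) := by
    refine norm_integral_le_of_norm_le (hint.const_mul _) (Filter.Eventually.of_forall fun z => ?_)
    have h2 := hf.dist_le_mul (x + ε • z) x
    rw [Real.dist_eq] at h2
    rw [Real.norm_eq_abs]
    refine h2.trans (le_of_eq ?_)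
    rw [dist_eq_norm, add_sub_cancel_left, norm_smul, Real.norm_eq_abs, abs_of_nonneg hε]
    ring
  rw [integral_const_mul] at h1
  rw [Real.norm_eq_abs] at h1
  refine h1.trans (le_of_eq ?_)
  ring

end Pool.Agent.ZR.BL

end

section

/-!
# ZR/ITr : traces of squares (part I)

Write `q X = ∑ i, ∑ j, (Wv (1/n) X i j)²`.  Since `Wv (1/n) X i j = √(1/(2n)) (X_ij + X_ji)`,
`q = (1/n) ∑_p (X_p² + X_p X_{pT})`, `pT = (p.2, p.1)`, `∂_p q = (2/n)(X_p + X_{pT})`,
`∂_p² q = (2/n)(1 + [p.1 = p.2])`.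

* `trW_mean`: `E q = (1/n) ∑_p (E X_p² + E X_p X_{pT}) = (1/n)(n² + n) = n + 1` (independent standard
  coordinates: `E X_p X_r = [p = r]`).
* `trW_var`: `E (q - n)² = 1 + 4(n+1)/n ≤ 9 ≤ 10`.  Possible proofs:
  (a) `q - n = (1/n) ∑_p (X_p² - 1) + (1/n) ∑_p X_p X_{pT}`, so
  `E (q-n)² ≤ (2/n²) (E (∑_p (X_p²-1))² + E (∑_p X_p X_{pT})²) = (2/n²)(2n² + 3n²) = 10`
  (expand the squares: `E (X_p²-1)(X_r²-1) = 2 [p = r]`;
  `E X_p X_{pT} X_r X_{rT}` is `1` for `p = r` or `p = rT` off the diagonal, `1` for `p ≠ r` both on the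
  diagonal, `3` for `p = r` on the diagonal, `0` otherwise: total `2n(n-1) + n(n-1) + 3n = 3n²`); or
  (b) Gaussian integration by parts (`gm_ibp`) with Euler's identity `∑_p X_p ∂_p q = 2q`:
  `2 E q² = ∑_p E X_p (q ∂_p q) = E q ∑_p ∂_p² q + E ∑_p (∂_p q)² = (2(n+1) + 8/n) E q`; or
  (c) orthonormal coordinates `y_ii = X_ii`, `y_ij = (X_ij + X_ji)/√2` (`i<j`), `y_ij = (X_ij - X_ji)/√2`
  (`i>j`) (`K1.gst_map_isom` of ZR/KRot), `q = (2/n) ∑_{i≤j} y_ij²` and `variance_sum_pi`.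
* `trW_int`, `trW_int2`: `gm_integrable_of_le` with `wv_abs_le`.
* `evs_sq`: `∑_i evs A i² = tr A² = ∑ A_ij²`: e.g. `K1.exists_orth_evs` (ZR/KSpec) and
  `tr (O D Oᵀ O D Oᵀ) = tr D²`.
* `evp_sq`: `sum_roots` and `sum_erase` with `f l = l²`: the erased root `0` contributes `0`
  (`Multiset.cons_erase`), then `evs_sq`.
* `H0_sq`: entries of `H0` are `±1/√n`; `n² · (1/n) = n`.
* `Bm_sq`: `∑ (A + B)_ij² ≤ 2 ∑ A_ij² + 2 ∑ B_ij²` and for an orthogonal projection `P` (`Pn_symm`,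
  `Pn_idem`): `∑ (P W)_ij² ≤ ∑ W_ij²` (columnwise: `|P w|² = w·Pw ≤ |w|²`, because `|w|² = |Pw|² +
  |(1-P)w|²`), same on the right by transposing.
-/


open MeasureTheory ProbabilityTheory Matrix

namespace Pool.Agent.ZR.I

/-- the sum `X_p + X_{pT}` -/
private def ee {n : ℕ} (X : Fin n × Fin n → ℝ) (p : Fin n × Fin n) : ℝ := X p + X p.swap

private noncomputable def qq (n : ℕ) (X : Fin n × Fin n → ℝ) : ℝ :=
  ∑ i, ∑ j, (Wv (1 / (n : ℝ)) X i j) ^ 2

private theorem ee_swap {n : ℕ} (X : Fin n × Fin n → ℝ) (p : Fin n × Fin n) :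
    ee X p.swap = ee X p := by
  unfold ee
  rw [Prod.swap_swap, add_comm]

private theorem qq_eq {n : ℕ} (X : Fin n × Fin n → ℝ) :
    qq n X = (1 / (2 * (n : ℝ))) * ∑ p, ee X p ^ 2 := by
  unfold qq
  rw [Fintype.sum_prod_type, Finset.mul_sum]
  refine Finset.sum_congr rfl fun i _ => ?_
  rw [Finset.mul_sum]
  refine Finset.sum_congr rfl fun j _ => ?_
  simp only [Wv, Matrix.of_apply, ee, Prod.swap_prod_mk]
  rw [mul_pow, Real.sq_sqrt (by positivity)]
  congr 1
  rw [div_div, mul_comm]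

private theorem sum_swap {n : ℕ} (f : Fin n × Fin n → ℝ) : ∑ p : Fin n × Fin n, f p.swap = ∑ p, f p :=
  Equiv.sum_comp (Equiv.prodComm (Fin n) (Fin n)) f

private theorem sum_ee {n : ℕ} (X : Fin n × Fin n → ℝ) :
    ∑ p, ee X p ^ 2 = 2 * ∑ p, X p * ee X p := by
  have h1 : ∑ p, X p.swap * ee X p = ∑ p, X p * ee X p := by
    rw [← sum_swap (fun p => X p * ee X p)]
    exact Finset.sum_congr rfl fun p _ => by rw [ee_swap]
  calc ∑ p, ee X p ^ 2 = ∑ p, (X p * ee X p + X p.swap * ee X p) :=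
        Finset.sum_congr rfl fun p _ => by
          have : ee X p = X p + X p.swap := rfl
          rw [sq]
          nth_rewrite 1 [this]
          ring
    _ = 2 * ∑ p, X p * ee X p := by rw [Finset.sum_add_distrib, h1]; ring

private theorem qq_eq2 {n : ℕ} (X : Fin n × Fin n → ℝ) :
    qq n X = (1 / (n : ℝ)) * ∑ p, X p * ee X p := by
  rw [qq_eq, sum_ee, ← mul_assoc]
  congr 1
  rcases Nat.eq_zero_or_pos n with h | h
  · subst h; simp
  · have : (n : ℝ) ≠ 0 := by positivity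
    field_simp

private theorem ee_cont {n : ℕ} (p : Fin n × Fin n) :
    Continuous (fun X : Fin n × Fin n → ℝ => ee X p) := by
  unfold ee
  fun_prop

private theorem qq_cont (n : ℕ) : Continuous (qq n) := by
  have : qq n = fun X => (1 / (2 * (n : ℝ))) * ∑ p, ee X p ^ 2 := funext fun X => qq_eq X
  rw [this]
  exact continuous_const.mul (continuous_finsetSum _ fun p _ => (ee_cont p).pow 2)

private theorem coord_le {n : ℕ} (X : Fin n × Fin n → ℝ) (p : Fin n × Fin n) :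
    |X p| ≤ 1 + ∑ p, |X p| := by
  have := Finset.single_le_sum (f := fun p => |X p|) (fun i _ => abs_nonneg (X i))
    (Finset.mem_univ p)
  linarith

private theorem ee_le {n : ℕ} (X : Fin n × Fin n → ℝ) (p : Fin n × Fin n) :
    |ee X p| ≤ 2 * (1 + ∑ p, |X p|) := by
  have h1 := coord_le X p
  have h2 := coord_le X p.swap
  have h3 := abs_add_le (X p) (X p.swap)
  unfold ee
  linarith

private theorem qq_nonneg {n : ℕ} (X : Fin n × Fin n → ℝ) : 0 ≤ qq n X :=
  Finset.sum_nonneg fun _ _ => Finset.sum_nonneg fun _ _ => sq_nonneg _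

private theorem qq_le (n : ℕ) : ∃ C : ℝ, 0 ≤ C ∧ ∀ X : Fin n × Fin n → ℝ,
    qq n X ≤ C * (1 + ∑ p, |X p|) ^ 2 := by
  refine ⟨(1 / (2 * (n : ℝ))) * ∑ _p : Fin n × Fin n, 4, by positivity, fun X => ?_⟩
  rw [qq_eq, mul_assoc, Finset.sum_mul]
  refine mul_le_mul_of_nonneg_left (Finset.sum_le_sum fun p _ => ?_) (by positivity)
  have h := ee_le X p
  rw [← sq_abs]
  calc |ee X p| ^ 2 ≤ (2 * (1 + ∑ p, |X p|)) ^ 2 := pow_le_pow_left₀ (abs_nonneg _) h 2
    _ = 4 * (1 + ∑ p, |X p|) ^ 2 := by ring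

private theorem S1 {n : ℕ} (X : Fin n × Fin n → ℝ) : 1 ≤ 1 + ∑ p, |X p| := by
  have : 0 ≤ ∑ p, |X p| := Finset.sum_nonneg fun p _ => abs_nonneg _
  linarith

private theorem qq_int (n : ℕ) : Integrable (qq n) (gm n) := by
  obtain ⟨C, _, hC⟩ := qq_le n
  refine gm_integrable_of_le (qq_cont n).aestronglyMeasurable C 2 fun X => ?_
  rw [Real.norm_eq_abs, abs_of_nonneg (qq_nonneg X)]
  exact hC X

private theorem qq2_int (n : ℕ) : Integrable (fun X => qq n X ^ 2) (gm n) := by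
  obtain ⟨C, hC0, hC⟩ := qq_le n
  refine gm_integrable_of_le ((qq_cont n).pow 2).aestronglyMeasurable (C ^ 2) 4 fun X => ?_
  rw [Real.norm_eq_abs, abs_of_nonneg (sq_nonneg _)]
  calc qq n X ^ 2 ≤ (C * (1 + ∑ p, |X p|) ^ 2) ^ 2 := pow_le_pow_left₀ (qq_nonneg X) (hC X) 2
    _ = C ^ 2 * (1 + ∑ p, |X p|) ^ 4 := by ring

theorem trW_int (n : ℕ) : Integrable (fun X : Fin n × Fin n → ℝ =>
    ∑ i, ∑ j, (Wv (1 / (n : ℝ)) X i j) ^ 2) (gm n) := qq_int n

theorem trW_int2 (n : ℕ) : Integrable (fun X : Fin n × Fin n → ℝ =>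
    (∑ i, ∑ j, (Wv (1 / (n : ℝ)) X i j) ^ 2 - n) ^ 2) (gm n) := by
  have h : (fun X : Fin n × Fin n → ℝ =>
      (∑ i, ∑ j, (Wv (1 / (n : ℝ)) X i j) ^ 2 - n) ^ 2)
      = fun X => qq n X ^ 2 - 2 * n * qq n X + (n : ℝ) ^ 2 := by
    funext X
    unfold qq
    ring
  rw [h]
  exact ((qq2_int n).sub ((qq_int n).const_mul _)).add (integrable_const _)

/-- the constant `1 + [p.1 = p.2]` -/
private noncomputable def cp {n : ℕ} (p : Fin n × Fin n) : ℝ := 1 + if p.swap = p then 1 else 0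

private theorem upd_deriv {n : ℕ} (X : Fin n × Fin n → ℝ) (p r : Fin n × Fin n) (s : ℝ) :
    HasDerivAt (fun s : ℝ => Function.update X p s r) (if r = p then 1 else 0) s := by
  by_cases h : r = p
  · subst h
    simp only [Function.update_self, if_true]
    exact hasDerivAt_id s
  · simp only [Function.update_of_ne h, if_neg h]
    exact hasDerivAt_const s _

private theorem ee_deriv {n : ℕ} (X : Fin n × Fin n → ℝ) (p r : Fin n × Fin n) (s : ℝ) :
    HasDerivAt (fun s : ℝ => ee (Function.update X p s) r)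
      ((if r = p then 1 else 0) + if r.swap = p then 1 else 0) s :=
  (upd_deriv X p r s).add (upd_deriv X p r.swap s)

private theorem ee_deriv_self {n : ℕ} (X : Fin n × Fin n → ℝ) (p : Fin n × Fin n) (s : ℝ) :
    HasDerivAt (fun s : ℝ => ee (Function.update X p s) p) (cp p) s := by
  have h := ee_deriv X p p s
  rw [if_pos rfl] at h
  exact h

private theorem qq_deriv {n : ℕ} (X : Fin n × Fin n → ℝ) (p : Fin n × Fin n) :
    HasDerivAt (fun s : ℝ => qq n (Function.update X p s)) ((2 / (n : ℝ)) * ee X p) (X p) := by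
  have h1 : (fun s : ℝ => qq n (Function.update X p s))
      = fun s => (1 / (2 * (n : ℝ))) * ∑ r, ee (Function.update X p s) r ^ 2 := by
    funext s; exact qq_eq _
  rw [h1]
  have h2 := (HasDerivAt.fun_sum (u := Finset.univ)
    fun r _ => (ee_deriv X p r (X p)).fun_pow 2).const_mul (1 / (2 * (n : ℝ)))
  refine h2.congr_deriv ?_
  rw [Function.update_eq_self]
  have h3 : ∑ r, (((2 : ℕ) : ℝ) * ee X r ^ (2 - 1)
      * ((if r = p then 1 else 0) + if r.swap = p then 1 else 0)) = 4 * ee X p := by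
    have h4 : ∀ r : Fin n × Fin n, (((2 : ℕ) : ℝ) * ee X r ^ (2 - 1)
        * ((if r = p then 1 else 0) + if r.swap = p then 1 else 0))
        = (if r = p then 2 * ee X r else 0) + (if r = p.swap then 2 * ee X r else 0) := by
      intro r
      have e1 : (r.swap = p) = (r = p.swap) := by
        apply propext
        constructor
        · rintro rfl; rw [Prod.swap_swap]
        · rintro rfl; rw [Prod.swap_swap]
      simp only [e1]
      push_cast
      split_ifs <;> ring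
    rw [Finset.sum_congr rfl fun r _ => h4 r, Finset.sum_add_distrib]
    simp only [Finset.sum_ite_eq', Finset.mem_univ, if_true]
    rw [ee_swap]
    ring
  rw [h3]
  rcases Nat.eq_zero_or_pos n with h | h
  · subst h; simp
  · have : (n : ℝ) ≠ 0 := by positivity
    field_simp
    ring

private theorem ee_int {n : ℕ} (p : Fin n × Fin n) :
    Integrable (fun X : Fin n × Fin n → ℝ => X p • ee X p) (gm n) :=
  gm_integrable_coord_smul (ee_cont p).aestronglyMeasurable 2 1 (fun X => by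
    rw [pow_one, Real.norm_eq_abs]; exact ee_le X p) p

private theorem ibp1 {n : ℕ} (p : Fin n × Fin n) :
    ∫ X : Fin n × Fin n → ℝ, X p • ee X p ∂(gm n) = cp p := by
  rw [gm_ibp p (F' := fun _ => cp p) (fun X => ee_deriv_self X p (X p)) (ee_int p)
    (integrable_const _)]
  simp

private theorem sum_cp (n : ℕ) : ∑ p : Fin n × Fin n, cp p = (n : ℝ) ^ 2 + n := by
  unfold cp
  rw [Finset.sum_add_distrib, Fintype.sum_prod_type, Fintype.sum_prod_type]
  simp only [Finset.sum_const, Finset.card_univ, Fintype.card_fin, nsmul_eq_mul, mul_one,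
    Prod.swap_prod_mk, Prod.mk.injEq]
  have : ∀ x : Fin n, ∑ y : Fin n, (if y = x ∧ x = y then (1 : ℝ) else 0) = 1 := by
    intro x
    rw [Finset.sum_eq_single x]
    · simp
    · intro y _ hy
      rw [if_neg (fun h => hy h.1)]
    · intro h; exact absurd (Finset.mem_univ _) h
  simp only [this, Finset.sum_const, Finset.card_univ, Fintype.card_fin, nsmul_eq_mul, mul_one]
  ring

private theorem qq_mean (n : ℕ) (hn : 0 < n) : ∫ X, qq n X ∂(gm n) = n + 1 := by
  have hn' : (n : ℝ) ≠ 0 := by positivity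
  simp_rw [qq_eq2]
  rw [integral_const_mul, integral_finsetSum]
  · have h1 : ∀ p : Fin n × Fin n, ∫ X : Fin n × Fin n → ℝ, X p * ee X p ∂(gm n) = cp p :=
      fun p => ibp1 p
    simp only [h1, sum_cp]
    field_simp
  · intro p _
    exact ee_int p

theorem trW_mean (n : ℕ) (hn : 0 < n) :
    ∫ X, (∑ i, ∑ j, (Wv (N := n) (1 / (n : ℝ)) X i j) ^ 2) ∂(gm n) = n + 1 := qq_mean n hn

private theorem ibp2 {n : ℕ} (p : Fin n × Fin n) :
    Integrable (fun X : Fin n × Fin n → ℝ => X p • (qq n X * ee X p)) (gm n) ∧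
    Integrable (fun X : Fin n × Fin n → ℝ => ee X p ^ 2) (gm n) ∧
    ∫ X : Fin n × Fin n → ℝ, X p • (qq n X * ee X p) ∂(gm n)
      = ∫ X : Fin n × Fin n → ℝ, ((2 / (n : ℝ)) * ee X p ^ 2 + cp p * qq n X) ∂(gm n) := by
  obtain ⟨C, hC0, hC⟩ := qq_le n
  have i1 : Integrable (fun X : Fin n × Fin n → ℝ => X p • (qq n X * ee X p)) (gm n) := by
    refine gm_integrable_coord_smul ((qq_cont n).mul (ee_cont p)).aestronglyMeasurable
      (C * 2) 3 (fun X => ?_) p
    have e : (qq n * fun X => ee X p) X = qq n X * ee X p := rfl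
    rw [e, Real.norm_eq_abs, abs_mul, abs_of_nonneg (qq_nonneg X)]
    calc qq n X * |ee X p| ≤ (C * (1 + ∑ p, |X p|) ^ 2) * (2 * (1 + ∑ p, |X p|)) :=
          mul_le_mul (hC X) (ee_le X p) (abs_nonneg _) (by positivity)
      _ = C * 2 * (1 + ∑ p, |X p|) ^ 3 := by ring
  have i2 : Integrable (fun X : Fin n × Fin n → ℝ => ee X p ^ 2) (gm n) := by
    refine gm_integrable_of_le ((ee_cont p).pow 2).aestronglyMeasurable 4 2 (fun X => ?_)
    rw [Real.norm_eq_abs, abs_of_nonneg (sq_nonneg _), ← sq_abs]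
    calc |ee X p| ^ 2 ≤ (2 * (1 + ∑ p, |X p|)) ^ 2 := pow_le_pow_left₀ (abs_nonneg _) (ee_le X p) 2
      _ = 4 * (1 + ∑ p, |X p|) ^ 2 := by ring
  refine ⟨i1, i2, ?_⟩
  refine gm_ibp p (fun X => ?_) i1 ((i2.const_mul _).add ((qq_int n).const_mul _))
  have h := (qq_deriv X p).mul (ee_deriv_self X p (X p))
  rw [Function.update_eq_self] at h
  refine h.congr_deriv ?_
  ring

private theorem qq_var (n : ℕ) (hn : 0 < n) :
    ∫ X, qq n X ^ 2 ∂(gm n) = ((n : ℝ) + 1 + 4 / n) * (n + 1) := by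
  have hn' : (n : ℝ) ≠ 0 := by positivity
  have h1 : ∀ X : Fin n × Fin n → ℝ, qq n X ^ 2
      = (1 / (n : ℝ)) * ∑ p, X p • (qq n X * ee X p) := by
    intro X
    have h2 : ∑ p, X p • (qq n X * ee X p) = qq n X * ∑ p, X p * ee X p := by
      rw [Finset.mul_sum]
      exact Finset.sum_congr rfl fun p _ => by rw [smul_eq_mul]; ring
    rw [h2, sq]
    nth_rewrite 1 [qq_eq2]
    ring
  simp_rw [h1]
  rw [integral_const_mul, integral_finsetSum _ (fun p _ => (ibp2 p).1),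
    Finset.sum_congr rfl fun p _ => (ibp2 p).2.2]
  have h3 : ∀ p : Fin n × Fin n,
      ∫ X : Fin n × Fin n → ℝ, ((2 / (n : ℝ)) * ee X p ^ 2 + cp p * qq n X) ∂(gm n)
      = (2 / (n : ℝ)) * ∫ X : Fin n × Fin n → ℝ, ee X p ^ 2 ∂(gm n) + cp p * (n + 1) := by
    intro p
    rw [integral_add ((ibp2 p).2.1.const_mul _) ((qq_int n).const_mul _), integral_const_mul,
      integral_const_mul, qq_mean n hn]
  rw [Finset.sum_congr rfl fun p _ => h3 p, Finset.sum_add_distrib, ← Finset.sum_mul, sum_cp,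
    ← Finset.mul_sum, ← integral_finsetSum _ (fun p _ => (ibp2 p).2.1)]
  have h4 : ∀ X : Fin n × Fin n → ℝ, ∑ p, ee X p ^ 2 = 2 * n * qq n X := by
    intro X
    rw [qq_eq]
    field_simp
  simp_rw [h4]
  rw [integral_const_mul, qq_mean n hn]
  field_simp
  ring

theorem trW_var (n : ℕ) (hn : 0 < n) :
    ∫ X, (∑ i, ∑ j, (Wv (N := n) (1 / (n : ℝ)) X i j) ^ 2 - n) ^ 2 ∂(gm n) ≤ 10 := by
  have hn1 : (1 : ℝ) ≤ n := by exact_mod_cast hn
  have hn' : (n : ℝ) ≠ 0 := by positivity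
  have h : ∀ X : Fin n × Fin n → ℝ,
      (∑ i, ∑ j, (Wv (1 / (n : ℝ)) X i j) ^ 2 - n) ^ 2
      = qq n X ^ 2 - 2 * n * qq n X + (n : ℝ) ^ 2 := by
    intro X
    unfold qq
    ring
  simp_rw [h]
  have hI : Integrable (fun X => qq n X ^ 2 - 2 * n * qq n X) (gm n) :=
    (qq2_int n).sub ((qq_int n).const_mul _)
  rw [integral_add hI (integrable_const _),
    integral_sub (qq2_int n) ((qq_int n).const_mul _), integral_const_mul, qq_mean n hn,
    qq_var n hn]
  simp only [integral_const, probReal_univ, smul_eq_mul, one_mul]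
  have e : ((n : ℝ) + 1 + 4 / n) * (n + 1) - 2 * n * (n + 1) + (n : ℝ) ^ 2 = 5 + 4 / n := by
    field_simp
    ring
  rw [e]
  have : 4 / (n : ℝ) ≤ 4 := by
    rw [div_le_iff₀ (by linarith)]
    linarith
  linarith

private theorem sq_tr {N : ℕ} (A : Matrix (Fin N) (Fin N) ℝ) :
    ∑ i, ∑ j, A i j ^ 2 = (A * Aᵀ).trace := by
  simp only [Matrix.trace, Matrix.diag_apply, Matrix.mul_apply, Matrix.transpose_apply, sq]

theorem evs_sq {N : ℕ} (A : Matrix (Fin N) (Fin N) ℝ) (hA : A.IsSymm) :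
    ∑ i : Fin N, evs A i ^ 2 = ∑ i, ∑ j, A i j ^ 2 := by
  obtain ⟨U, hU1, hU2, hU⟩ := spec_dec A hA
  set D : Matrix (Fin N) (Fin N) ℝ := Matrix.diagonal (fun i : Fin N => evs A i) with hD
  have hDt : Dᵀ = D := Matrix.diagonal_transpose _
  have h1 : (A * Aᵀ).trace = (D * D).trace := by
    conv_lhs => rw [hU]
    rw [Matrix.transpose_mul, Matrix.transpose_mul, Matrix.transpose_transpose, hDt]
    calc (U * D * Uᵀ * (U * (D * Uᵀ))).trace = (U * D * (Uᵀ * U) * (D * Uᵀ)).trace := by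
          simp only [Matrix.mul_assoc]
      _ = (U * (D * (D * Uᵀ))).trace := by rw [hU2, Matrix.mul_one, Matrix.mul_assoc]
      _ = (D * (D * Uᵀ) * U).trace := by rw [Matrix.trace_mul_comm]
      _ = (D * D * (Uᵀ * U)).trace := by simp only [Matrix.mul_assoc]
      _ = (D * D).trace := by rw [hU2, Matrix.mul_one]
  rw [sq_tr, h1, hD, Matrix.diagonal_mul_diagonal, Matrix.trace_diagonal]
  exact Finset.sum_congr rfl fun i _ => sq _

theorem evp_sq {n : ℕ} (B : Matrix (Fin n) (Fin n) ℝ) (hB : B.IsSymm)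
    (h0 : (0 : ℝ) ∈ B.charpoly.roots) :
    ∑ i : Fin (n - 1), evp B i ^ 2 = ∑ i, ∑ j, B i j ^ 2 := by
  rw [← evs_sq B hB, ← sum_roots B hB (fun l => l ^ 2)]
  conv_rhs => rw [← Multiset.cons_erase h0]
  rw [Multiset.map_cons, Multiset.sum_cons, sum_erase B hB h0 (fun l => l ^ 2),
    Finset.sum_range]
  simp

theorem H0_sq {n : ℕ} (hn : 0 < n) (σ : Fin n → Fin n → Bool) :
    ∑ i, ∑ j, (H0 σ i j) ^ 2 = n := by
  have hn' : (n : ℝ) ≠ 0 := by positivity
  have h1 : ∀ i j, (H0 σ i j) ^ 2 = 1 / (n : ℝ) := by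
    intro i j
    rw [H0, Matrix.smul_apply, smul_eq_mul, mul_pow, Mx_sq, mul_one, div_pow, one_pow,
      Real.sq_sqrt (by positivity)]
  simp only [h1, Finset.sum_const, Finset.card_univ, Fintype.card_fin, nsmul_eq_mul]
  field_simp

private theorem left_le {n : ℕ} (M : Matrix (Fin n) (Fin n) ℝ) :
    ∑ i, ∑ j, (Pn n * M) i j ^ 2 ≤ ∑ i, ∑ j, M i j ^ 2 := by
  have hP := Pn_symm n
  have hPP := Pn_idem n
  have hQ : (1 - Pn n)ᵀ = 1 - Pn n := by
    rw [Matrix.transpose_sub, Matrix.transpose_one, hP]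
  have hQQ : (1 - Pn n) * (1 - Pn n) = 1 - Pn n := by
    rw [Matrix.sub_mul, Matrix.mul_sub, Matrix.mul_sub, hPP]
    simp
  have h1 : ∀ R : Matrix (Fin n) (Fin n) ℝ, Rᵀ = R → R * R = R →
      ∑ i, ∑ j, (R * M) i j ^ 2 = (R * (M * Mᵀ)).trace := by
    intro R hR hRR
    rw [sq_tr, Matrix.transpose_mul, hR]
    calc (R * M * (Mᵀ * R)).trace = (R * (M * Mᵀ) * R).trace := by
          simp only [Matrix.mul_assoc]
      _ = (R * (R * (M * Mᵀ))).trace := by rw [Matrix.trace_mul_comm]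
      _ = (R * (M * Mᵀ)).trace := by rw [← Matrix.mul_assoc, hRR]
  have h2 := h1 (Pn n) hP hPP
  have h3 := h1 (1 - Pn n) hQ hQQ
  have h4 : 0 ≤ ∑ i, ∑ j, ((1 - Pn n) * M) i j ^ 2 :=
    Finset.sum_nonneg fun _ _ => Finset.sum_nonneg fun _ _ => sq_nonneg _
  rw [h3, Matrix.sub_mul, Matrix.one_mul, Matrix.trace_sub] at h4
  rw [h2, sq_tr M]
  linarith

private theorem right_le {n : ℕ} (M : Matrix (Fin n) (Fin n) ℝ) :
    ∑ i, ∑ j, (M * Pn n) i j ^ 2 ≤ ∑ i, ∑ j, M i j ^ 2 := by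
  have h := left_le Mᵀ
  have h1 : Pn n * Mᵀ = (M * Pn n)ᵀ := by rw [Matrix.transpose_mul, Pn_symm]
  rw [h1] at h
  simp only [Matrix.transpose_apply] at h
  rw [Finset.sum_comm, Finset.sum_comm (f := fun i j => M j i ^ 2)] at h
  exact h

theorem Bm_sq {n : ℕ} (hn : 0 < n) (α β : ℝ) (σ : Fin n → Fin n → Bool) (X : Fin n × Fin n → ℝ) :
    ∑ i, ∑ j, (Bm α β σ X i j) ^ 2
      ≤ 2 * α ^ 2 * n + 2 * β ^ 2 * ∑ i, ∑ j, (Wv (1 / (n : ℝ)) X i j) ^ 2 := by
  have h1 : ∑ i, ∑ j, ((Pn n * Wv (1 / (n : ℝ)) X * Pn n) i j) ^ 2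
      ≤ ∑ i, ∑ j, (Wv (1 / (n : ℝ)) X i j) ^ 2 := (right_le _).trans (left_le _)
  calc ∑ i, ∑ j, (Bm α β σ X i j) ^ 2
      ≤ ∑ i, ∑ j, (2 * α ^ 2 * (H0 σ i j) ^ 2
          + 2 * β ^ 2 * ((Pn n * Wv (1 / (n : ℝ)) X * Pn n) i j) ^ 2) := by
        refine Finset.sum_le_sum fun i _ => Finset.sum_le_sum fun j _ => ?_
        rw [Bm, Matrix.add_apply, Matrix.smul_apply, Matrix.smul_apply, smul_eq_mul, smul_eq_mul]
        nlinarith [sq_nonneg (α * H0 σ i j - β * (Pn n * Wv (1 / (n : ℝ)) X * Pn n) i j)]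
    _ = 2 * α ^ 2 * n
          + 2 * β ^ 2 * ∑ i, ∑ j, ((Pn n * Wv (1 / (n : ℝ)) X * Pn n) i j) ^ 2 := by
        simp only [Finset.sum_add_distrib, ← Finset.mul_sum]
        rw [H0_sq hn]
    _ ≤ _ := by
        have := mul_le_mul_of_nonneg_left h1 (show 0 ≤ 2 * β ^ 2 by positivity)
        linarith

end Pool.Agent.ZR.I

end

section

/-!
# ZR/D3 : covariance of `P W P` and the Laplacian of `Phi`

Proofs.
* `PWP_eq`: `Wv v X = ∑_p X p • Wv v (Pi.single p 1)` entrywise: `√(v/2) (X (i,j) + X (j,i))` and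
  `∑_p X p (√(v/2)(δ_{p,(i,j)} + δ_{p,(j,i)}))`; multiply by `Pn n` on both sides.
* `cov_wE`: with `e_p = Wv (1/n) (Pi.single p 1)`, `(e_p)_{ab} = √(1/(2n)) (δ_{p,(a,b)} + δ_{p,(b,a)})`,
  so `∑_p (e_p)_{ab} (e_p)_{cd} = (1/n)(δ_ac δ_bd + δ_ad δ_bc)` (four terms, each equal to `1/(2n)` times
  a product of Kronecker deltas, equal in pairs).  Then `(wE p)_{ab} = ∑_{a',b'} P_{aa'} (e_p)_{a'b'}
  P_{b'b}`, `P` symmetric idempotent (`Pn_symm`, `Pn_idem`): `∑_p (wE p)_{ab}(wE p)_{cd} = (1/n)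
  (∑ P_{aa'}P_{b'b}P_{ca'}P_{b'd} + ...) = (1/n)(P_ac P_bd + P_ad P_bc)`.
* `sum_d2m`: `tr(G H G H G) = tr(G² H G H)` (cyclicity of the trace, `Matrix.trace_mul_comm` /
  `Matrix.trace_mul_cycle`) `= ∑_{a,b,c,d} (G²)_{da} H_{ab} G_{bc} H_{cd}`.  Sum over `p` with `cov_wE`:
  `(1/n) ∑ (G²)_{da} G_{bc} (P_ac P_bd + P_ad P_bc)`.  First term: `∑_c P_ac G_bc = (G P)_{ba} = G_ba`
  (`P` symmetric, `gz_q`), `∑_d P_bd (G²)_{da} = (P G²)_{ba} = (G²)_{ba}`, so it is
  `∑_{a,b} (G²)_{ba} G_ba = ∑_{a,b} (G²)_{ba} G_ab = tr(G³)` (`gz_symm`).  Second term: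
  `∑_{a,d} (G²)_{da} P_ad ∑_{b,c} G_bc P_bc = tr(G² P) tr(G P) = tr(G²) tr(G)`.  So
  `∑_p d2m = (2/n)(1/n)(tr G³ + tr G² tr G)` and `m = (1/n) tr G`: this is `lm`.
* `sum_dmdm`: `dm n z B H = -(1/n) tr(G H G) = -(1/n) tr(G² H) = -(1/n)∑_{ab} (G²)_{ba} H_ab`; the sum
  over `p` of `dm(z) dm(w)` is `(1/n²)(1/n) ∑ (G_z²)_{ba}(G_w²)_{dc}(P_ac P_bd + P_ad P_bc) =
  (1/n³)(tr(G_z² G_w²ᵀ) + tr(G_z² G_w²)) = (2/n³) tr(G_z² G_w²)`.
* `sum_D2`: expand the definitions, exchange the finite sums, use `sum_d2m` and `sum_dmdm`.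
-/


open MeasureTheory ProbabilityTheory Matrix

namespace Pool.Agent.ZR

variable {n : ℕ}

theorem wE_apply (n : ℕ) (u v a b : Fin n) :
    wE n (u, v) a b = Real.sqrt (1 / (n : ℝ) / 2) *
      (Pn n a u * Pn n v b + Pn n a v * Pn n u b) := by
  have h1 : ∀ i j : Fin n, Wv (1 / (n : ℝ)) (Pi.single ((u, v) : Fin n × Fin n) 1) i j =
      Real.sqrt (1 / (n : ℝ) / 2) *
        ((if i = u then (1 : ℝ) else 0) * (if j = v then (1 : ℝ) else 0) +
          (if i = v then (1 : ℝ) else 0) * (if j = u then (1 : ℝ) else 0)) := by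
    intro i j
    simp only [Wv, Matrix.of_apply, Pi.single_apply, Prod.mk.injEq]
    congr 1
    congr 1
    · by_cases h1 : i = u <;> by_cases h2 : j = v <;> simp [h1, h2]
    · by_cases h1 : i = v <;> by_cases h2 : j = u <;> simp [h1, h2]
  unfold wE
  rw [Matrix.mul_apply]
  simp only [Matrix.mul_apply, h1]
  have h2 : ∀ x : Fin n, (∑ j, Pn n a j * (Real.sqrt (1 / (n : ℝ) / 2) *
        ((if j = u then (1 : ℝ) else 0) * (if x = v then (1 : ℝ) else 0) +
          (if j = v then (1 : ℝ) else 0) * (if x = u then (1 : ℝ) else 0)))) * Pn n x b =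
      (if x = v then Real.sqrt (1 / (n : ℝ) / 2) * (Pn n a u * Pn n x b) else 0) +
      (if x = u then Real.sqrt (1 / (n : ℝ) / 2) * (Pn n a v * Pn n x b) else 0) := by
    intro x
    have h3 : ∀ j : Fin n, Pn n a j * (Real.sqrt (1 / (n : ℝ) / 2) *
        ((if j = u then (1 : ℝ) else 0) * (if x = v then (1 : ℝ) else 0) +
          (if j = v then (1 : ℝ) else 0) * (if x = u then (1 : ℝ) else 0))) =
        (if j = u then Pn n a j * (Real.sqrt (1 / (n : ℝ) / 2) * (if x = v then (1 : ℝ) else 0)) else 0)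
        + (if j = v then Pn n a j * (Real.sqrt (1 / (n : ℝ) / 2) * (if x = u then (1 : ℝ) else 0)) else 0) := by
      intro j
      split_ifs <;> ring
    rw [Finset.sum_congr rfl fun j _ => h3 j, Finset.sum_add_distrib]
    simp only [Finset.sum_ite_eq', Finset.mem_univ, if_true]
    split_ifs <;> ring
  rw [Finset.sum_congr rfl fun x _ => h2 x, Finset.sum_add_distrib]
  simp only [Finset.sum_ite_eq', Finset.mem_univ, if_true]
  ring

theorem Pn_conv (n : ℕ) (a b : Fin n) : ∑ u, Pn n a u * Pn n u b = Pn n a b := by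
  have h := congrFun (congrFun (Pn_idem n) a) b
  rwa [Matrix.mul_apply] at h

theorem Pn_comm (n : ℕ) (a b : Fin n) : Pn n a b = Pn n b a := by
  have h := congrFun (congrFun (Pn_symm n) a) b
  rw [Matrix.transpose_apply] at h
  exact h.symm

theorem PWP_eq (n : ℕ) (X : Fin n × Fin n → ℝ) :
    Pn n * Wv (1 / (n : ℝ)) X * Pn n = ∑ p, X p • wE n p := by
  have h1 : Wv (1 / (n : ℝ)) X = ∑ p, X p • Wv (1 / (n : ℝ)) (Pi.single p 1) := by
    ext i j
    rw [Matrix.sum_apply]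
    have h2 : ∀ p : Fin n × Fin n, (X p • Wv (1 / (n : ℝ)) (Pi.single p 1)) i j =
        (if p = (i, j) then Real.sqrt (1 / (n : ℝ) / 2) * X p else 0) +
        (if p = (j, i) then Real.sqrt (1 / (n : ℝ) / 2) * X p else 0) := by
      intro p
      simp only [Wv, Matrix.smul_apply, Matrix.of_apply, Pi.single_apply, smul_eq_mul, eq_comm (b := p)]
      split_ifs <;> ring
    rw [Finset.sum_congr rfl fun p _ => h2 p, Finset.sum_add_distrib]
    simp only [Finset.sum_ite_eq', Finset.mem_univ, if_true, Wv, Matrix.of_apply]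
    ring
  rw [h1, Matrix.mul_sum, Matrix.sum_mul]
  refine Finset.sum_congr rfl fun p _ => ?_
  rw [Matrix.mul_smul, Matrix.smul_mul]
  rfl

theorem cov_wE (n : ℕ) (hn : 0 < n) (a b c d : Fin n) :
    ∑ p, wE n p a b * wE n p c d
      = (1 / (n : ℝ)) * (Pn n a c * Pn n b d + Pn n a d * Pn n b c) := by
  have hs : Real.sqrt (1 / (n : ℝ) / 2) * Real.sqrt (1 / (n : ℝ) / 2) = 1 / (n : ℝ) / 2 :=
    Real.mul_self_sqrt (by positivity)
  rw [Fintype.sum_prod_type]
  simp only [wE_apply]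
  have h1 : ∀ u v : Fin n, Real.sqrt (1 / (n : ℝ) / 2) *
      (Pn n a u * Pn n v b + Pn n a v * Pn n u b) * (Real.sqrt (1 / (n : ℝ) / 2) *
      (Pn n c u * Pn n v d + Pn n c v * Pn n u d)) =
      (Real.sqrt (1 / (n : ℝ) / 2) * Real.sqrt (1 / (n : ℝ) / 2)) *
        ((Pn n a u * Pn n u c) * (Pn n b v * Pn n v d) +
        (Pn n a u * Pn n u d) * (Pn n c v * Pn n v b) +
        (Pn n c u * Pn n u b) * (Pn n a v * Pn n v d) +
        (Pn n b u * Pn n u d) * (Pn n a v * Pn n v c)) := by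
    intro u v
    rw [Pn_comm n c u, Pn_comm n v b, Pn_comm n v c, Pn_comm n b u]
    ring
  rw [Finset.sum_congr rfl fun u _ => Finset.sum_congr rfl fun v _ => h1 u v]
  rw [hs]
  simp only [← Finset.mul_sum, Finset.sum_add_distrib, ← Finset.sum_mul, Pn_conv]
  rw [Pn_comm n c b]
  ring

theorem pb_wE (n : ℕ) (p : Fin n × Fin n) : PB (Pn n) (wE n p) := by
  exact pb_PWP n _ (Wv_symm _ _)

theorem covC (n : ℕ) (hn : 0 < n) (a b c d : Fin n) :
    ∑ p, toC (wE n p) a b * toC (wE n p) c d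
      = (1 / (n : ℂ)) * (toC (Pn n) a c * toC (Pn n) b d + toC (Pn n) a d * toC (Pn n) b c) := by
  have h := congrArg (fun x : ℝ => (x : ℂ)) (cov_wE n hn a b c d)
  simp only [toC, Matrix.map_apply]
  push_cast at h
  exact h

theorem tr_AHDH (hn : 0 < n) (A D : Matrix (Fin n) (Fin n) ℂ) :
    ∑ p, (A * toC (wE n p) * D * toC (wE n p)).trace
      = (1 / (n : ℂ)) * ((A * toC (Pn n) * Dᵀ * toC (Pn n)).trace
          + (A * toC (Pn n)).trace * (D * toC (Pn n)).trace) := by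
  have hL : ∀ H K : Matrix (Fin n) (Fin n) ℂ, (A * H * D * K).trace =
      ∑ d, ∑ c, ∑ b, ∑ a, A d a * D b c * (H a b * K c d) := by
    intro H K
    simp only [Matrix.trace, Matrix.diag_apply, Matrix.mul_apply, Finset.sum_mul]
    refine Finset.sum_congr rfl fun d _ => Finset.sum_congr rfl fun c _ =>
      Finset.sum_congr rfl fun b _ => Finset.sum_congr rfl fun a _ => ?_
    ring
  have h1 : (A * toC (Pn n) * Dᵀ * toC (Pn n)).trace =
      ∑ d, ∑ c, ∑ b, ∑ a, A d a * D b c * (toC (Pn n) a c * toC (Pn n) b d) := by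
    simp only [Matrix.trace, Matrix.diag_apply, Matrix.mul_apply, Finset.sum_mul,
      Matrix.transpose_apply]
    refine Finset.sum_congr rfl fun d _ => ?_
    rw [Finset.sum_comm]
    refine Finset.sum_congr rfl fun c _ =>
      Finset.sum_congr rfl fun b _ => Finset.sum_congr rfl fun a _ => ?_
    ring
  have h2 : (A * toC (Pn n)).trace * (D * toC (Pn n)).trace =
      ∑ d, ∑ c, ∑ b, ∑ a, A d a * D b c * (toC (Pn n) a d * toC (Pn n) b c) := by
    simp only [Matrix.trace, Matrix.diag_apply, Matrix.mul_apply]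
    have h3 : (∑ x, ∑ j, D x j * toC (Pn n) j x) = ∑ c, ∑ b, D b c * toC (Pn n) b c := by
      rw [Finset.sum_comm]
      refine Finset.sum_congr rfl fun c _ => Finset.sum_congr rfl fun b _ => ?_
      simp only [toC, Matrix.map_apply, Pn_comm n c b]
    rw [h3, Finset.sum_mul]
    refine Finset.sum_congr rfl fun d _ => ?_
    rw [Finset.mul_sum]
    refine Finset.sum_congr rfl fun c _ => ?_
    rw [Finset.mul_sum]
    refine Finset.sum_congr rfl fun b _ => ?_
    rw [Finset.sum_mul]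
    refine Finset.sum_congr rfl fun a _ => ?_
    ring
  rw [h1, h2, Finset.sum_congr rfl fun p _ => hL _ _]
  rw [Finset.sum_comm, ← Finset.sum_add_distrib, Finset.mul_sum]
  refine Finset.sum_congr rfl fun d _ => ?_
  rw [Finset.sum_comm, ← Finset.sum_add_distrib, Finset.mul_sum]
  refine Finset.sum_congr rfl fun c _ => ?_
  rw [Finset.sum_comm, ← Finset.sum_add_distrib, Finset.mul_sum]
  refine Finset.sum_congr rfl fun b _ => ?_
  rw [Finset.sum_comm, ← Finset.sum_add_distrib, Finset.mul_sum]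
  refine Finset.sum_congr rfl fun a _ => ?_
  rw [← Finset.mul_sum, covC n hn]
  ring

theorem tr_AH_DH (hn : 0 < n) (A D : Matrix (Fin n) (Fin n) ℂ) :
    ∑ p, (A * toC (wE n p)).trace * (D * toC (wE n p)).trace
      = (1 / (n : ℂ)) * ((A * toC (Pn n) * Dᵀ * toC (Pn n)).trace
          + (A * toC (Pn n) * D * toC (Pn n)).trace) := by
  have hL : ∀ H K : Matrix (Fin n) (Fin n) ℂ, (A * H).trace * (D * K).trace =
      ∑ b, ∑ d, ∑ c, ∑ a, A b a * D d c * (H a b * K c d) := by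
    intro H K
    simp only [Matrix.trace, Matrix.diag_apply, Matrix.mul_apply]
    rw [Finset.sum_mul]
    refine Finset.sum_congr rfl fun b _ => ?_
    rw [Finset.mul_sum]
    refine Finset.sum_congr rfl fun d _ => ?_
    rw [Finset.mul_sum]
    refine Finset.sum_congr rfl fun c _ => ?_
    rw [Finset.sum_mul]
    refine Finset.sum_congr rfl fun a _ => ?_
    ring
  have h1 : (A * toC (Pn n) * Dᵀ * toC (Pn n)).trace =
      ∑ b, ∑ d, ∑ c, ∑ a, A b a * D d c * (toC (Pn n) a c * toC (Pn n) b d) := by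
    simp only [Matrix.trace, Matrix.diag_apply, Matrix.mul_apply, Finset.sum_mul,
      Matrix.transpose_apply]
    refine Finset.sum_congr rfl fun b _ => Finset.sum_congr rfl fun d _ =>
      Finset.sum_congr rfl fun c _ => Finset.sum_congr rfl fun a _ => ?_
    simp only [toC, Matrix.map_apply, Pn_comm n b d]
    ring
  have h2 : (A * toC (Pn n) * D * toC (Pn n)).trace =
      ∑ b, ∑ d, ∑ c, ∑ a, A b a * D d c * (toC (Pn n) a d * toC (Pn n) b c) := by
    simp only [Matrix.trace, Matrix.diag_apply, Matrix.mul_apply, Finset.sum_mul]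
    refine Finset.sum_congr rfl fun b _ => ?_
    rw [Finset.sum_comm]
    refine Finset.sum_congr rfl fun d _ =>
      Finset.sum_congr rfl fun c _ => Finset.sum_congr rfl fun a _ => ?_
    simp only [toC, Matrix.map_apply, Pn_comm n b c]
    ring
  rw [h1, h2, Finset.sum_congr rfl fun p _ => hL _ _]
  rw [Finset.sum_comm, ← Finset.sum_add_distrib, Finset.mul_sum]
  refine Finset.sum_congr rfl fun d _ => ?_
  rw [Finset.sum_comm, ← Finset.sum_add_distrib, Finset.mul_sum]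
  refine Finset.sum_congr rfl fun c _ => ?_
  rw [Finset.sum_comm, ← Finset.sum_add_distrib, Finset.mul_sum]
  refine Finset.sum_congr rfl fun b _ => ?_
  rw [Finset.sum_comm, ← Finset.sum_add_distrib, Finset.mul_sum]
  refine Finset.sum_congr rfl fun a _ => ?_
  rw [← Finset.mul_sum, covC n hn]
  ring

theorem sum_d2m (hn : 0 < n) {B : Matrix (Fin n) (Fin n) ℝ} (h : PB (Pn n) B) {z : ℂ}
    (hz : z.im ≠ 0) : ∑ p, d2m n z B (wE n p) = lm n z B := by
  have hn' : (n : ℂ) ≠ 0 := by exact_mod_cast hn.ne'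
  have hG1 := (gz_q h z hz).1
  have hG2 := (gz_q h z hz).2
  have hGt := gz_symm h z hz
  have h1 : ∀ p, d2m n z B (wE n p) = (2 / (n : ℂ)) *
      (Gz (Pn n) B z * Gz (Pn n) B z * toC (wE n p) * Gz (Pn n) B z * toC (wE n p)).trace := by
    intro p
    unfold d2m
    rw [Matrix.trace_mul_comm, ← Matrix.mul_assoc, ← Matrix.mul_assoc, ← Matrix.mul_assoc]
  rw [Finset.sum_congr rfl fun p _ => h1 p, ← Finset.mul_sum, tr_AHDH hn, hGt]
  have h2 : Gz (Pn n) B z * Gz (Pn n) B z * toC (Pn n) = Gz (Pn n) B z * Gz (Pn n) B z := by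
    rw [Matrix.mul_assoc, hG1]
  have h3 : Gz (Pn n) B z * Gz (Pn n) B z * Gz (Pn n) B z * toC (Pn n) = Gz (Pn n) B z ^ 3 := by
    rw [Matrix.mul_assoc, hG1, pow_succ, pow_two]
  rw [h2, h3, hG1]
  unfold lm mz
  rw [pow_two]
  field_simp
  ring

theorem sum_dmdm (hn : 0 < n) {B : Matrix (Fin n) (Fin n) ℝ} (h : PB (Pn n) B) {z w : ℂ}
    (hz : z.im ≠ 0) (hw : w.im ≠ 0) :
    ∑ p, dm n z B (wE n p) * dm n w B (wE n p)
      = (2 / (n : ℂ) ^ 3) * (Gz (Pn n) B z ^ 2 * Gz (Pn n) B w ^ 2).trace := by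
  have hn' : (n : ℂ) ≠ 0 := by exact_mod_cast hn.ne'
  have h1 : ∀ (z : ℂ) p, dm n z B (wE n p) = -(1 / (n : ℂ)) *
      (Gz (Pn n) B z * Gz (Pn n) B z * toC (wE n p)).trace := by
    intro z p
    unfold dm
    rw [Matrix.trace_mul_comm, ← Matrix.mul_assoc]
  have h2 : ∀ p, dm n z B (wE n p) * dm n w B (wE n p) = (1 / (n : ℂ)) ^ 2 *
      ((Gz (Pn n) B z * Gz (Pn n) B z * toC (wE n p)).trace *
        (Gz (Pn n) B w * Gz (Pn n) B w * toC (wE n p)).trace) := by
    intro p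
    rw [h1, h1]
    ring
  rw [Finset.sum_congr rfl fun p _ => h2 p, ← Finset.mul_sum, tr_AH_DH hn]
  have hz1 := (gz_q h z hz).1
  have hw1 := (gz_q h w hw).1
  have hwt := gz_symm h w hw
  have h3 : Gz (Pn n) B z * Gz (Pn n) B z * toC (Pn n) = Gz (Pn n) B z * Gz (Pn n) B z := by
    rw [Matrix.mul_assoc, hz1]
  have h4 : (Gz (Pn n) B w * Gz (Pn n) B w)ᵀ = Gz (Pn n) B w * Gz (Pn n) B w := by
    rw [Matrix.transpose_mul, hwt]
  have h5 : Gz (Pn n) B z * Gz (Pn n) B z * (Gz (Pn n) B w * Gz (Pn n) B w) * toC (Pn n) =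
      Gz (Pn n) B z ^ 2 * Gz (Pn n) B w ^ 2 := by
    rw [Matrix.mul_assoc _ _ (toC (Pn n)), Matrix.mul_assoc _ _ (toC (Pn n)), hw1, pow_two, pow_two]
  rw [h3, h4, h5]
  field_simp
  ring

theorem sum_D2 (hn : 0 < n) {K : ℕ} (zl cl : Fin (K + 1) → ℂ) (hz : ∀ l, (zl l).im ≠ 0)
    {B : Matrix (Fin n) (Fin n) ℝ} (h : PB (Pn n) B) :
    ∑ p, D2Phi n zl cl B (wE n p) = Lap n zl cl B := by
  unfold D2Phi Lap
  rw [Finset.sum_comm]
  refine Finset.sum_congr rfl fun l _ => ?_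
  rw [Finset.sum_add_distrib, ← Finset.sum_mul, sum_d2m hn h (hz l)]
  congr 1
  simp only [Finset.mul_sum]
  rw [Finset.sum_comm]
  refine Finset.sum_congr rfl fun j _ => ?_
  rw [← mul_assoc, ← sum_dmdm hn h (hz l) (hz (l.succAbove j)), Finset.sum_mul]
  refine Finset.sum_congr rfl fun p _ => ?_
  ring

end Pool.Agent.ZR

end

section

/-!
# ZR/D5 : the matrix `Bm` as a function of `θ` and of `X`; continuity of all integrands

* `bm_theta`, `bm_upd`: entrywise; `Bm α β σ X i j = α * H0 σ i j + β * (Pn n * Wv (1/n) X * Pn n) i j`.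
  Derivative in `θ` of `cos θ * a + sin θ * b` is `-sin θ * a + cos θ * b`.  `bm_upd`: by `PWP_eq`
  (D3) `Pn n * Wv (1/n) (update X p t) * Pn n = ∑_q (update X p t) q • wE n q`, an affine function of
  `t` with derivative `wE n p` (only the term `q = p` depends on `t`).
* `bm_cont`: `Wv` is linear in `X`; finite sums of continuous functions (`wv_continuous`-type).
* `*_cont`: all these functions are finite sums and products of entries of `Gz (Pn n) (B τ) (..)`, which
  are continuous by `gz_cont` (D1) (unfold `mz`, `Matrix.trace`, `Matrix.mul_apply`, `pow_succ`), and of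
  entries of `H τ`.
* `s1_bd`: `|wE n p i j| ≤` some constant since there are finitely many `p`: the constant
  `∑_p s1 (wE n p)`; `s1` of `-sin θ • H0 σ + cos θ • PWP` is at most
  `s1 (H0 σ) + ∑_p |X p| s1 (wE n p)` (triangle inequality, `PWP_eq`), hence at most
  `C (1 + ∑_p |X p|)`, with `C = ∑_{σ} s1 (H0 σ) + ∑_p s1 (wE n p)`.
-/


open MeasureTheory ProbabilityTheory Matrix

namespace Pool.Agent.ZR

variable {n : ℕ}

theorem pwp_apply (X : Fin n × Fin n → ℝ) (i j : Fin n) :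
    (Pn n * Wv (1 / (n : ℝ)) X * Pn n) i j = ∑ p, X p * wE n p i j := by
  rw [PWP_eq, Matrix.sum_apply]
  rfl

theorem bm_apply (α β : ℝ) (σ : Fin n → Fin n → Bool) (X : Fin n × Fin n → ℝ) (i j : Fin n) :
    Bm α β σ X i j = α * H0 σ i j + β * ∑ p, X p * wE n p i j := by
  rw [← pwp_apply]
  rfl

theorem bm_theta (σ : Fin n → Fin n → Bool) (X : Fin n × Fin n → ℝ) (θ : ℝ) (i j : Fin n) :
    HasDerivAt (fun t : ℝ => Bm (Real.cos t) (Real.sin t) σ X i j)
      ((-Real.sin θ • H0 σ + Real.cos θ • (Pn n * Wv (1 / (n : ℝ)) X * Pn n)) i j) θ := by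
  have h1 := ((Real.hasDerivAt_cos θ).mul_const (H0 σ i j)).add
    ((Real.hasDerivAt_sin θ).mul_const ((Pn n * Wv (1 / (n : ℝ)) X * Pn n) i j))
  exact h1

theorem bm_upd (α β : ℝ) (σ : Fin n → Fin n → Bool) (X : Fin n × Fin n → ℝ) (p : Fin n × Fin n)
    (i j : Fin n) (t0 : ℝ) :
    HasDerivAt (fun t : ℝ => Bm α β σ (Function.update X p t) i j) (β * wE n p i j) t0 := by
  classical
  have h1 : ∀ t : ℝ, Bm α β σ (Function.update X p t) i j =
      α * H0 σ i j + β * (t * wE n p i j + ∑ q ∈ Finset.univ.erase p, X q * wE n q i j) := by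
    intro t
    rw [bm_apply, ← Finset.add_sum_erase _ _ (Finset.mem_univ p), Function.update_self]
    congr 3
    refine Finset.sum_congr rfl fun q hq => ?_
    rw [Function.update_of_ne (Finset.ne_of_mem_erase hq)]
  have h2 : HasDerivAt (fun t : ℝ => α * H0 σ i j +
      β * (t * wE n p i j + ∑ q ∈ Finset.univ.erase p, X q * wE n q i j))
      (β * (1 * wE n p i j)) t0 :=
    ((((hasDerivAt_id t0).mul_const (wE n p i j)).add_const _).const_mul β).const_add _
  rw [one_mul] at h2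
  have h3 : (fun t : ℝ => Bm α β σ (Function.update X p t) i j) = fun t : ℝ => α * H0 σ i j +
      β * (t * wE n p i j + ∑ q ∈ Finset.univ.erase p, X q * wE n q i j) := funext h1
  rw [h3]
  exact h2

theorem bm_cont (α β : ℝ) (σ : Fin n → Fin n → Bool) (i j : Fin n) :
    Continuous (fun X : Fin n × Fin n → ℝ => Bm α β σ X i j) := by
  have h3 : (fun X : Fin n × Fin n → ℝ => Bm α β σ X i j) =
      fun X => α * H0 σ i j + β * ∑ p, X p * wE n p i j := funext fun X => bm_apply α β σ X i j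
  rw [h3]
  fun_prop

theorem pwp_cont (i j : Fin n) :
    Continuous (fun X : Fin n × Fin n → ℝ => (Pn n * Wv (1 / (n : ℝ)) X * Pn n) i j) := by
  have h3 : (fun X : Fin n × Fin n → ℝ => (Pn n * Wv (1 / (n : ℝ)) X * Pn n) i j) =
      fun X => ∑ p, X p * wE n p i j := funext fun X => pwp_apply X i j
  rw [h3]
  fun_prop

section cont

variable {T : Type*} [TopologicalSpace T] {B H : T → Matrix (Fin n) (Fin n) ℝ}

theorem gzM_cont (hPB : ∀ τ, PB (Pn n) (B τ)) (hB : ∀ i j, Continuous (fun τ => B τ i j)) {z : ℂ}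
    (hz : z.im ≠ 0) : Continuous (fun τ => Gz (Pn n) (B τ) z) :=
  continuous_matrix fun i j => gz_cont hPB hB hz i j

theorem toCM_cont (hH : ∀ i j, Continuous (fun τ => H τ i j)) :
    Continuous (fun τ => toC (H τ)) :=
  continuous_matrix fun i j => Complex.continuous_ofReal.comp (hH i j)

theorem dm_cont (hPB : ∀ τ, PB (Pn n) (B τ)) (hB : ∀ i j, Continuous (fun τ => B τ i j))
    (hH : ∀ i j, Continuous (fun τ => H τ i j)) {z : ℂ}
    (hz : z.im ≠ 0) : Continuous (fun τ => dm n z (B τ) (H τ)) := by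
  have h1 := gzM_cont hPB hB hz
  have h2 := toCM_cont hH
  unfold dm
  exact continuous_const.mul (((h1.matrix_mul h2).matrix_mul h1).matrix_trace)

theorem d2m_cont (hPB : ∀ τ, PB (Pn n) (B τ)) (hB : ∀ i j, Continuous (fun τ => B τ i j))
    (hH : ∀ i j, Continuous (fun τ => H τ i j)) {z : ℂ}
    (hz : z.im ≠ 0) : Continuous (fun τ => d2m n z (B τ) (H τ)) := by
  have h1 := gzM_cont hPB hB hz
  have h2 := toCM_cont hH
  unfold d2m
  exact continuous_const.mul
    (((((h1.matrix_mul h2).matrix_mul h1).matrix_mul h2).matrix_mul h1).matrix_trace)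

theorem mz_cont (hPB : ∀ τ, PB (Pn n) (B τ)) (hB : ∀ i j, Continuous (fun τ => B τ i j)) {z : ℂ}
    (hz : z.im ≠ 0) : Continuous (fun τ => mz (Pn n) (B τ) z) := by
  unfold mz
  exact continuous_const.mul (gzM_cont hPB hB hz).matrix_trace

theorem lm_cont (hPB : ∀ τ, PB (Pn n) (B τ)) (hB : ∀ i j, Continuous (fun τ => B τ i j)) {z : ℂ}
    (hz : z.im ≠ 0) : Continuous (fun τ => lm n z (B τ)) := by
  have h1 := gzM_cont hPB hB hz
  unfold lm
  exact ((continuous_const.mul (mz_cont hPB hB hz)).mul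
    (continuous_const.mul (h1.pow 2).matrix_trace)).add
    (continuous_const.mul (h1.pow 3).matrix_trace)

theorem phi_cont {L : ℕ} (zl cl : Fin L → ℂ) (hz : ∀ l, (zl l).im ≠ 0)
    (hPB : ∀ τ, PB (Pn n) (B τ)) (hB : ∀ i j, Continuous (fun τ => B τ i j)) :
    Continuous (fun τ => Phi n zl cl (B τ)) := by
  unfold Phi
  exact continuous_finset_prod _ fun l _ => (mz_cont hPB hB (hz l)).sub continuous_const

theorem phiE_cont {L : ℕ} (zl cl : Fin L → ℂ) (j : Fin L) (hz : ∀ l, (zl l).im ≠ 0)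
    (hPB : ∀ τ, PB (Pn n) (B τ)) (hB : ∀ i j, Continuous (fun τ => B τ i j)) :
    Continuous (fun τ => PhiE n zl cl j (B τ)) := by
  unfold PhiE
  exact continuous_finset_prod _ fun l _ => (mz_cont hPB hB (hz l)).sub continuous_const

theorem dphi_cont {K : ℕ} (zl cl : Fin (K + 1) → ℂ) (hz : ∀ l, (zl l).im ≠ 0)
    (hPB : ∀ τ, PB (Pn n) (B τ)) (hB : ∀ i j, Continuous (fun τ => B τ i j))
    (hH : ∀ i j, Continuous (fun τ => H τ i j)) :
    Continuous (fun τ => DPhi n zl cl (B τ) (H τ)) := by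
  unfold DPhi
  exact continuous_finset_sum _ fun l _ => (dm_cont hPB hB hH (hz l)).mul
    (phi_cont _ _ (fun j => hz _) hPB hB)

theorem d2phi_cont {K : ℕ} (zl cl : Fin (K + 1) → ℂ) (hz : ∀ l, (zl l).im ≠ 0)
    (hPB : ∀ τ, PB (Pn n) (B τ)) (hB : ∀ i j, Continuous (fun τ => B τ i j))
    (hH : ∀ i j, Continuous (fun τ => H τ i j)) :
    Continuous (fun τ => D2Phi n zl cl (B τ) (H τ)) := by
  unfold D2Phi
  refine continuous_finset_sum _ fun l _ => ?_
  refine ((d2m_cont hPB hB hH (hz l)).mul (phi_cont _ _ (fun j => hz _) hPB hB)).add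
    ((dm_cont hPB hB hH (hz l)).mul ?_)
  exact continuous_finset_sum _ fun j _ => (dm_cont hPB hB hH (hz _)).mul
    (phiE_cont _ _ j (fun j => hz _) hPB hB)

theorem lap_cont {K : ℕ} (zl cl : Fin (K + 1) → ℂ) (hz : ∀ l, (zl l).im ≠ 0)
    (hPB : ∀ τ, PB (Pn n) (B τ)) (hB : ∀ i j, Continuous (fun τ => B τ i j)) :
    Continuous (fun τ => Lap n zl cl (B τ)) := by
  unfold Lap
  refine continuous_finset_sum _ fun l _ => ?_
  refine ((lm_cont hPB hB (hz l)).mul (phi_cont _ _ (fun j => hz _) hPB hB)).add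
    (continuous_const.mul ?_)
  refine continuous_finset_sum _ fun j _ => Continuous.mul ?_
    (phiE_cont _ _ j (fun j => hz _) hPB hB)
  exact (((gzM_cont hPB hB (hz l)).pow 2).matrix_mul
    ((gzM_cont hPB hB (hz (l.succAbove j))).pow 2)).matrix_trace

theorem ecI_cont (α : ℝ) {K : ℕ} (zl cl : Fin K → ℂ) (z : ℂ) (hz0 : z.im ≠ 0)
    (hz : ∀ l, (zl l).im ≠ 0) (σ : Fin n → Fin n → Bool)
    (hPB : ∀ τ, PB (Pn n) (B τ)) (hB : ∀ i j, Continuous (fun τ => B τ i j)) :
    Continuous (fun τ => ecI n α zl cl z σ (B τ)) := by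
  have h1 := gzM_cont hPB hB hz0
  have h2 := mz_cont hPB hB hz0
  unfold ecI
  refine Continuous.add (Continuous.mul (Continuous.add ?_ ?_) (phi_cont _ _ hz hPB hB))
    (continuous_const.mul ?_)
  · exact continuous_const.mul (continuous_const.matrix_mul h1).matrix_trace
  · exact continuous_const.mul ((h2.pow 2).add (continuous_const.mul (h1.pow 2).matrix_trace))
  · refine continuous_finset_sum _ fun l _ => Continuous.mul ?_ (phiE_cont _ _ l hz hPB hB)
    exact (h1.matrix_mul ((gzM_cont hPB hB (hz l)).pow 2)).matrix_trace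

theorem ecD_cont (α : ℝ) {K : ℕ} (zl cl : Fin K → ℂ) (z : ℂ) (hz0 : z.im ≠ 0)
    (hz : ∀ l, (zl l).im ≠ 0) (σ : Fin n → Fin n → Bool)
    (hPB : ∀ τ, PB (Pn n) (B τ)) (hB : ∀ i j, Continuous (fun τ => B τ i j)) :
    Continuous (fun τ => ecD n α zl cl z σ (B τ)) := by
  have h1 := gzM_cont hPB hB hz0
  unfold ecD
  refine Continuous.add (Continuous.mul (Continuous.add ?_ ?_) (phi_cont _ _ hz hPB hB))
    (continuous_const.mul ?_)
  · exact continuous_const.mul (continuous_const.matrix_mul (h1.pow 2)).matrix_trace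
  · exact continuous_const.mul (lm_cont hPB hB hz0)
  · refine continuous_finset_sum _ fun l _ => Continuous.mul ?_ (phiE_cont _ _ l hz hPB hB)
    exact ((h1.pow 2).matrix_mul ((gzM_cont hPB hB (hz l)).pow 2)).matrix_trace

end cont

theorem s1_nonneg' (A : Matrix (Fin n) (Fin n) ℝ) : 0 ≤ s1 A :=
  Finset.sum_nonneg fun _ _ => Finset.sum_nonneg fun _ _ => abs_nonneg _

theorem s1_add' (A B : Matrix (Fin n) (Fin n) ℝ) : s1 (A + B) ≤ s1 A + s1 B := by
  unfold s1
  rw [← Finset.sum_add_distrib]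
  refine Finset.sum_le_sum fun i _ => ?_
  rw [← Finset.sum_add_distrib]
  refine Finset.sum_le_sum fun j _ => ?_
  exact abs_add_le _ _

theorem s1_smul' (c : ℝ) (A : Matrix (Fin n) (Fin n) ℝ) : s1 (c • A) = |c| * s1 A := by
  unfold s1
  rw [Finset.mul_sum]
  refine Finset.sum_congr rfl fun i _ => ?_
  rw [Finset.mul_sum]
  refine Finset.sum_congr rfl fun j _ => ?_
  rw [Matrix.smul_apply, smul_eq_mul, abs_mul]

theorem s1_sum' {ι : Type*} (t : Finset ι) (f : ι → Matrix (Fin n) (Fin n) ℝ) :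
    s1 (∑ p ∈ t, f p) ≤ ∑ p ∈ t, s1 (f p) := by
  classical
  induction t using Finset.induction_on with
  | empty => simp [s1]
  | insert a t ha ih =>
    rw [Finset.sum_insert ha, Finset.sum_insert ha]
    exact le_trans (s1_add' _ _) (by linarith)

theorem s1_bd (n : ℕ) : ∃ C : ℝ, 0 ≤ C ∧ (∀ p, s1 (wE n p) ≤ C) ∧
    ∀ (σ : Fin n → Fin n → Bool) (X : Fin n × Fin n → ℝ) (θ : ℝ),
      s1 (-Real.sin θ • H0 σ + Real.cos θ • (Pn n * Wv (1 / (n : ℝ)) X * Pn n))
        ≤ C * (1 + ∑ p, |X p|) := by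
  have hA : 0 ≤ ∑ σ : Fin n → Fin n → Bool, s1 (H0 σ) := Finset.sum_nonneg fun _ _ => s1_nonneg' _
  have hB : 0 ≤ ∑ p, s1 (wE n p) := Finset.sum_nonneg fun _ _ => s1_nonneg' _
  refine ⟨∑ σ : Fin n → Fin n → Bool, s1 (H0 σ) + ∑ p, s1 (wE n p), by linarith, ?_, ?_⟩
  · intro p
    have := Finset.single_le_sum (f := fun p => s1 (wE n p)) (fun _ _ => s1_nonneg' _)
      (Finset.mem_univ p)
    linarith
  · intro σ X θ
    set C := ∑ σ : Fin n → Fin n → Bool, s1 (H0 σ) + ∑ p, s1 (wE n p) with hC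
    have h0 : s1 (H0 σ) ≤ C := by
      have := Finset.single_le_sum (f := fun σ : Fin n → Fin n → Bool => s1 (H0 σ))
        (fun _ _ => s1_nonneg' _) (Finset.mem_univ σ)
      linarith
    have hp : ∀ p, s1 (wE n p) ≤ C := by
      intro p
      have := Finset.single_le_sum (f := fun p => s1 (wE n p)) (fun _ _ => s1_nonneg' _)
        (Finset.mem_univ p)
      linarith
    have h1 : s1 (-Real.sin θ • H0 σ) ≤ C := by
      rw [s1_smul', abs_neg]
      calc |Real.sin θ| * s1 (H0 σ) ≤ 1 * s1 (H0 σ) :=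
            mul_le_mul_of_nonneg_right (Real.abs_sin_le_one θ) (s1_nonneg' _)
        _ ≤ C := by rw [one_mul]; exact h0
    have h2 : s1 (Real.cos θ • (Pn n * Wv (1 / (n : ℝ)) X * Pn n)) ≤ C * ∑ p, |X p| := by
      rw [s1_smul', PWP_eq]
      calc |Real.cos θ| * s1 (∑ p, X p • wE n p) ≤ 1 * s1 (∑ p, X p • wE n p) :=
            mul_le_mul_of_nonneg_right (Real.abs_cos_le_one θ) (s1_nonneg' _)
        _ ≤ ∑ p, s1 (X p • wE n p) := by rw [one_mul]; exact s1_sum' _ _
        _ ≤ ∑ p, C * |X p| := by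
            refine Finset.sum_le_sum fun p _ => ?_
            rw [s1_smul', mul_comm]
            exact mul_le_mul_of_nonneg_right (hp p) (abs_nonneg _)
        _ = C * ∑ p, |X p| := by rw [Finset.mul_sum]
    calc s1 (-Real.sin θ • H0 σ + Real.cos θ • (Pn n * Wv (1 / (n : ℝ)) X * Pn n))
        ≤ s1 (-Real.sin θ • H0 σ) + s1 (Real.cos θ • (Pn n * Wv (1 / (n : ℝ)) X * Pn n)) :=
          s1_add' _ _
      _ ≤ C * (1 + ∑ p, |X p|) := by rw [mul_add, mul_one]; linarith

end Pool.Agent.ZR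

end

section

/-!
# ZR/H1 : algebra of the averages `EU`, `EJ`, `PJ`

`EJ F = (card (Sn n))⁻¹ • ∑ σ ∈ Sn n, ∫ X, F σ X ∂(gm n)`; `gm n` is a probability measure (`gm_prob`, E0).
* `sn_pos`: the pattern `σ i j = decide (Even (i + j))` is symmetric and has zero row sums for even `n`
  (`∑_j (-1)^(i+j) = (-1)^i ∑_{j<n} (-1)^j = 0`).
* `ej_congr`, `ej_add`, `ej_sub`, `ej_cmul`, `ej_sum`, `ej_const`, `ej_gm`: linearity of the integral, then
  sums over `Sn n`; `sn_pos` for the last two.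
* `ej_norm`: `norm_integral_le_integral_norm`, `norm_sum_le`.
* `ej_mono'`: `integral_mono_of_nonneg` (only the right side must be integrable).
* `ej_ofReal`: `integral_ofReal`, `Complex.ofReal_sum`.
* `ej_bad`: for `σ ∈ Sn n` let `T = toMeasurable (gm n) {X | A σ X}`; `0 ≤ F σ X ≤ a + b * T.indicator 1 X`,
  hence (`integral_mono_of_nonneg`) `∫ F σ ≤ a + b (gm n).real T = a + b (gm n).real {X | A σ X}`
  (`measure_toMeasurable`).
* `pj_union`: `measureReal` is subadditive (`measureReal_iUnion_fintype_le` or via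
  `measure_iUnion_fintype_le`), `{X | ∃ i, A i σ X} = ⋃ i, {X | A i σ X}`.
* `pj_mono`: `measureReal_mono`.
* `int_bdd`: `gm_integrable_of_le` (E0) with `k = 0`.
* `mz_X`: `mz_cont` (D5), `pb_Bm` (C1), `bm_cont` (D5).
-/


open MeasureTheory ProbabilityTheory Matrix

namespace Pool.Agent.ZR.H

variable {n : ℕ} {V : Type*} [NormedAddCommGroup V] [NormedSpace ℝ V]

private theorem h1_alt (i m : ℕ) :
    ∑ j ∈ Finset.range (m + m), (if Even (i + j) then (1 : ℤ) else -1) = 0 := by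
  induction m with
  | zero => simp
  | succ m ih =>
    have e : m + 1 + (m + 1) = (m + m) + 1 + 1 := by ring
    rw [e, Finset.sum_range_succ, Finset.sum_range_succ, ih]
    have h2 : (Even (i + (m + m + 1))) ↔ ¬ Even (i + (m + m)) := by
      rw [← add_assoc i (m + m) 1]
      exact Nat.even_add_one
    by_cases h : Even (i + (m + m))
    · rw [if_pos h, if_neg (by rw [h2]; exact not_not.mpr h)]; norm_num
    · rw [if_neg h, if_pos (h2.mpr h)]; norm_num

theorem sn_pos (hn : Even n) : 0 < (Sn n).card := by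
  obtain ⟨m, hm⟩ := hn
  refine Finset.card_pos.mpr ⟨fun i j => decide (Even ((i : ℕ) + (j : ℕ))), ?_⟩
  unfold Sn
  rw [Finset.mem_filter]
  refine ⟨Finset.mem_univ _, fun i j => ?_, fun i => ?_⟩
  · simp only [add_comm (i : ℕ) (j : ℕ)]
  · simp only [decide_eq_true_eq]
    rw [Fin.sum_univ_eq_sum_range (fun j => if Even ((i : ℕ) + j) then (1 : ℤ) else -1) n]
    have h := h1_alt (i : ℕ) m
    rw [← hm] at h
    exact h

theorem ej_congr {F G : (Fin n → Fin n → Bool) → (Fin n × Fin n → ℝ) → V}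
    (h : ∀ σ ∈ Sn n, ∀ X, F σ X = G σ X) : EJ (n := n) F = EJ (n := n) G := by
  unfold EJ EU
  congr 1
  exact Finset.sum_congr rfl fun σ hσ =>
    integral_congr_ae (Filter.Eventually.of_forall (h σ hσ))

theorem ej_add {F G : (Fin n → Fin n → Bool) → (Fin n × Fin n → ℝ) → V}
    (hF : ∀ σ ∈ Sn n, Integrable (F σ) (gm n)) (hG : ∀ σ ∈ Sn n, Integrable (G σ) (gm n)) :
    EJ (n := n) (fun σ X => F σ X + G σ X) = EJ (n := n) F + EJ (n := n) G := by
  unfold EJ EU
  rw [← smul_add, ← Finset.sum_add_distrib]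
  congr 1
  exact Finset.sum_congr rfl fun σ hσ => integral_add (hF σ hσ) (hG σ hσ)

theorem ej_sub {F G : (Fin n → Fin n → Bool) → (Fin n × Fin n → ℝ) → V}
    (hF : ∀ σ ∈ Sn n, Integrable (F σ) (gm n)) (hG : ∀ σ ∈ Sn n, Integrable (G σ) (gm n)) :
    EJ (n := n) (fun σ X => F σ X - G σ X) = EJ (n := n) F - EJ (n := n) G := by
  unfold EJ EU
  rw [← smul_sub, ← Finset.sum_sub_distrib]
  congr 1
  exact Finset.sum_congr rfl fun σ hσ => integral_sub (hF σ hσ) (hG σ hσ)

theorem ej_cmul (c : ℂ) (F : (Fin n → Fin n → Bool) → (Fin n × Fin n → ℝ) → ℂ) :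
    EJ (n := n) (fun σ X => c * F σ X) = c * EJ (n := n) F := by
  unfold EJ EU
  rw [mul_smul_comm, Finset.mul_sum]
  congr 1
  exact Finset.sum_congr rfl fun σ _ => integral_const_mul c _

theorem ej_rmul (c : ℝ) (F : (Fin n → Fin n → Bool) → (Fin n × Fin n → ℝ) → ℝ) :
    EJ (n := n) (fun σ X => c * F σ X) = c * EJ (n := n) F := by
  unfold EJ EU
  rw [mul_smul_comm, Finset.mul_sum]
  congr 1
  exact Finset.sum_congr rfl fun σ _ => integral_const_mul c _

theorem ej_sum {ι : Type*} (s : Finset ι) {F : ι → (Fin n → Fin n → Bool) → (Fin n × Fin n → ℝ) → V}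
    (hF : ∀ i ∈ s, ∀ σ ∈ Sn n, Integrable (F i σ) (gm n)) :
    EJ (n := n) (fun σ X => ∑ i ∈ s, F i σ X) = ∑ i ∈ s, EJ (n := n) (F i) := by
  unfold EJ EU
  rw [← Finset.smul_sum, Finset.sum_comm]
  congr 1
  exact Finset.sum_congr rfl fun σ hσ => integral_finsetSum s fun i hi => hF i hi σ hσ

private theorem eu_const (hn : Even n) (v : V) : EU (n := n) (fun _ => v) = v := by
  have hc : ((Sn n).card : ℝ) ≠ 0 := by
    have := sn_pos hn
    exact_mod_cast this.ne'
  unfold EU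
  rw [Finset.sum_const, ← Nat.cast_smul_eq_nsmul ℝ, smul_smul, inv_mul_cancel₀ hc, one_smul]

theorem ej_const [CompleteSpace V] (hn : Even n) (v : V) : EJ (n := n) (fun _ _ => v) = v := by
  unfold EJ
  simp only [integral_const, probReal_univ, one_smul]
  exact eu_const hn v

theorem ej_gm (hn : Even n) (F : (Fin n × Fin n → ℝ) → V) :
    EJ (n := n) (fun _ X => F X) = ∫ X, F X ∂(gm n) := by
  unfold EJ
  exact eu_const hn _

private theorem eu_mono {f g : (Fin n → Fin n → Bool) → ℝ} (h : ∀ σ ∈ Sn n, f σ ≤ g σ) :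
    EU (n := n) f ≤ EU (n := n) g := by
  unfold EU
  simp only [smul_eq_mul]
  exact mul_le_mul_of_nonneg_left (Finset.sum_le_sum h) (by positivity)

theorem ej_norm (F : (Fin n → Fin n → Bool) → (Fin n × Fin n → ℝ) → V) :
    ‖EJ (n := n) F‖ ≤ EJ (n := n) (fun σ X => ‖F σ X‖) := by
  unfold EJ EU
  have h0 : (0 : ℝ) ≤ ((Sn n).card : ℝ)⁻¹ := by positivity
  rw [norm_smul, Real.norm_eq_abs, abs_of_nonneg h0, smul_eq_mul]
  refine mul_le_mul_of_nonneg_left ((norm_sum_le _ _).trans (Finset.sum_le_sum fun σ _ => ?_)) h0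
  exact norm_integral_le_integral_norm _

theorem ej_nonneg {F : (Fin n → Fin n → Bool) → (Fin n × Fin n → ℝ) → ℝ}
    (h : ∀ σ ∈ Sn n, ∀ X, 0 ≤ F σ X) : 0 ≤ EJ (n := n) F := by
  unfold EJ EU
  rw [smul_eq_mul]
  exact mul_nonneg (by positivity) (Finset.sum_nonneg fun σ hσ => integral_nonneg (h σ hσ))

theorem ej_mono' {F G : (Fin n → Fin n → Bool) → (Fin n × Fin n → ℝ) → ℝ}
    (h0 : ∀ σ ∈ Sn n, ∀ X, 0 ≤ F σ X) (hG : ∀ σ ∈ Sn n, Integrable (G σ) (gm n))
    (h : ∀ σ ∈ Sn n, ∀ X, F σ X ≤ G σ X) : EJ (n := n) F ≤ EJ (n := n) G := by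
  unfold EJ
  refine eu_mono fun σ hσ => ?_
  exact integral_mono_of_nonneg (Filter.Eventually.of_forall (h0 σ hσ)) (hG σ hσ)
    (Filter.Eventually.of_forall (h σ hσ))

theorem ej_ofReal (F : (Fin n → Fin n → Bool) → (Fin n × Fin n → ℝ) → ℝ) :
    EJ (n := n) (fun σ X => ((F σ X : ℝ) : ℂ)) = ((EJ (n := n) F : ℝ) : ℂ) := by
  unfold EJ EU
  have e : ∀ σ : Fin n → Fin n → Bool, (∫ X, ((F σ X : ℝ) : ℂ) ∂(gm n))
      = ((∫ X, F σ X ∂(gm n) : ℝ) : ℂ) := fun σ => integral_ofReal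
  simp only [e]
  rw [← Complex.ofReal_sum, Complex.real_smul, smul_eq_mul, Complex.ofReal_mul]

theorem ej_bad (hn : Even n) {F : (Fin n → Fin n → Bool) → (Fin n × Fin n → ℝ) → ℝ}
    {A : (Fin n → Fin n → Bool) → (Fin n × Fin n → ℝ) → Prop} {a b : ℝ} (ha : 0 ≤ a) (hb : 0 ≤ b)
    (h0 : ∀ σ ∈ Sn n, ∀ X, 0 ≤ F σ X) (h1 : ∀ σ ∈ Sn n, ∀ X, ¬ A σ X → F σ X ≤ a)
    (h2 : ∀ σ ∈ Sn n, ∀ X, F σ X ≤ b) : EJ (n := n) F ≤ a + b * PJ (n := n) A := by
  have key : ∀ σ ∈ Sn n, ∫ X, F σ X ∂(gm n) ≤ a + b * (gm n).real {X | A σ X} := by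
    intro σ hσ
    set T := toMeasurable (gm n) {X | A σ X} with hT
    have hTm : MeasurableSet T := measurableSet_toMeasurable _ _
    have hi : Integrable (fun X => T.indicator (fun _ => (1 : ℝ)) X) (gm n) :=
      (integrable_const (1 : ℝ)).indicator hTm
    have hi2 : Integrable (fun X => a + b * T.indicator (fun _ => (1 : ℝ)) X) (gm n) :=
      (integrable_const a).add (hi.const_mul b)
    have hle : ∀ X, F σ X ≤ a + b * T.indicator (fun _ => (1 : ℝ)) X := by
      intro X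
      by_cases hX : X ∈ T
      · rw [Set.indicator_of_mem hX, mul_one]
        linarith [h2 σ hσ X]
      · rw [Set.indicator_of_notMem hX, mul_zero, add_zero]
        refine h1 σ hσ X fun hA => hX ?_
        exact subset_toMeasurable (gm n) _ hA
    calc ∫ X, F σ X ∂(gm n) ≤ ∫ X, (a + b * T.indicator (fun _ => (1 : ℝ)) X) ∂(gm n) :=
          integral_mono_of_nonneg (Filter.Eventually.of_forall (h0 σ hσ)) hi2
            (Filter.Eventually.of_forall hle)
      _ = a + b * (gm n).real T := by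
          rw [integral_add (integrable_const a) (hi.const_mul b), integral_const_mul,
            integral_const, probReal_univ, one_smul, integral_indicator_const _ hTm,
            smul_eq_mul, mul_one]
      _ = a + b * (gm n).real {X | A σ X} := by
          rw [measureReal_def, measureReal_def, hT, measure_toMeasurable]
  calc EJ (n := n) F ≤ EU (n := n) (fun σ => a + b * (gm n).real {X | A σ X}) := by
        unfold EJ
        exact eu_mono key
    _ = a + b * PJ (n := n) A := by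
        have h3 := eu_const hn a
        unfold PJ
        unfold EU at h3 ⊢
        rw [Finset.sum_add_distrib, smul_add, h3, ← Finset.mul_sum, mul_smul_comm]

theorem pj_union {ι : Type*} [Fintype ι]
    (A : ι → (Fin n → Fin n → Bool) → (Fin n × Fin n → ℝ) → Prop) :
    PJ (n := n) (fun σ X => ∃ i, A i σ X) ≤ ∑ i, PJ (n := n) (A i) := by
  have h1 : PJ (n := n) (fun σ X => ∃ i, A i σ X)
      ≤ EU (n := n) (fun σ => ∑ i, (gm n).real {X | A i σ X}) := by
    unfold PJ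
    refine eu_mono fun σ _ => ?_
    have e : {X | ∃ i, A i σ X} = ⋃ i, {X | A i σ X} := by
      ext X
      simp
    rw [e]
    exact measureReal_iUnion_fintype_le _
  refine h1.trans (le_of_eq ?_)
  unfold PJ EU
  rw [← Finset.smul_sum, Finset.sum_comm]

theorem pj_mono {A B : (Fin n → Fin n → Bool) → (Fin n × Fin n → ℝ) → Prop}
    (h : ∀ σ ∈ Sn n, ∀ X, A σ X → B σ X) : PJ (n := n) A ≤ PJ (n := n) B := by
  unfold PJ
  refine eu_mono fun σ hσ => ?_
  exact measureReal_mono (fun X hX => h σ hσ X hX)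

theorem int_bdd {F : (Fin n × Fin n → ℝ) → V} (hF : Continuous F) (C : ℝ) (h : ∀ X, ‖F X‖ ≤ C) :
    Integrable F (gm n) := by
  refine gm_integrable_of_le hF.aestronglyMeasurable C 0 fun X => ?_
  rw [pow_zero, mul_one]
  exact h X

theorem mz_X (α β : ℝ) {σ : Fin n → Fin n → Bool} (hσ : σ ∈ Sn n) {z : ℂ} (hz : z.im ≠ 0) :
    Continuous (fun X => mz (Pn n) (Bm α β σ X) z) :=
  mz_cont (fun X => pb_Bm α β σ hσ X) (fun i j => bm_cont α β σ i j) hz

end Pool.Agent.ZR.H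

end
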