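import Pool.Agent.ZRM.P04
import Pool.Agent.ZRM.P06
import Pool.Agent.ZRM.P07
import Pool.Agent.ZRM.P08

/-!
# Merged form of the modules ZR.C6, ZBL.G4, ZBL.G9, ZBL.M4, ZBL.M5, ZR.F4, ZR.GJa, ZR.JGau, ZR.JLaw, ZR.MProd, ZR.MSp, ZBL.G8, ZR.D4, ZR.GPa, ZR.JWegP, ZR.KGlue, ZR.MEns
-/

set_option autoImplicit false

section

/-!
# ZR/C6 : perturbation of the resolvent by a sparse matrix

`sp1 Y = ∑ |Y_xy|`.  `sparse_entry`: `|(A Y C)_xy| = |∑_{ab} A_xa Y_ab C_by| ≤ a sp1(Y) c`.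
`sparse_boot`: let `x` be the maximum of `‖G(s)_ab‖` over the entries, `G(s) = Gz Q (B + sY) z`
(`N = 0` is trivial).  By `gz_pert`, `G(s) = G(0) - s G(0) Y G(s)` (use `gz_pert` for the pair
`(B, B + sY)`: `G(0) - G(s) = -(G(0) (B - (B + sY)) G(s)) = s G(0) Y G(s)`), so
`x ≤ Γ + |s| Γ sp1(Y) x ≤ Γ + x/2`, i.e. `x ≤ 2Γ`.
`jetE_bd`: iterate `sparse_entry`: `|((G Y)^r G)_xy| ≤ 2Γ (2Γ sp1 Y)^r`.
`sq_bd`: `|(G²)_ab| ≤ √(Im G_aa Im G_bb)/|Im z| ≤ 2Γ/|Im z|` (`g_pow_entry` of C3 is not imported;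
directly: `∑_c |G_ac|² = Im G_aa/Im z` from `spec_pb`, or Cauchy-Schwarz there; for `Im z < 0` use
`gz_conj`).
`jetM_bd`: for `r ≥ 1`, `tr((GY)^r G) = tr(G² Y (GY)^(r-1))` (cyclicity), so its modulus is at most
`(2Γ/|Im z|) sp1(Y) (2Γ sp1 Y)^(r-1) = (1/|Im z|)(2Γ sp1 Y)^r`.
`sp1_Xi`: `Xi` is a signed sum of four `Es`, each of `sp1 = 2`; `XiP`: `1 + 2 + 2 + 1`.
-/


open MeasureTheory ProbabilityTheory Matrix

namespace Pool.Agent.ZR

/-- sum of the absolute values of the entries -/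
noncomputable def sp1 {N : ℕ} (Y : Matrix (Fin N) (Fin N) ℝ) : ℝ := ∑ x, ∑ y, |Y x y|

theorem sp1_nonneg {N : ℕ} (Y : Matrix (Fin N) (Fin N) ℝ) : 0 ≤ sp1 Y := by
  unfold sp1
  exact Finset.sum_nonneg fun x _ => Finset.sum_nonneg fun y _ => abs_nonneg _

theorem sp1_smul {N : ℕ} (c : ℝ) (Y : Matrix (Fin N) (Fin N) ℝ) : sp1 (c • Y) = |c| * sp1 Y := by
  unfold sp1
  rw [Finset.mul_sum]
  refine Finset.sum_congr rfl fun x _ => ?_
  rw [Finset.mul_sum]
  refine Finset.sum_congr rfl fun y _ => ?_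
  rw [Matrix.smul_apply, smul_eq_mul, abs_mul]

private theorem sp1_add' {N : ℕ} (A B : Matrix (Fin N) (Fin N) ℝ) :
    sp1 (A + B) ≤ sp1 A + sp1 B := by
  unfold sp1
  rw [← Finset.sum_add_distrib]
  refine Finset.sum_le_sum fun x _ => ?_
  rw [← Finset.sum_add_distrib]
  refine Finset.sum_le_sum fun y _ => ?_
  rw [Matrix.add_apply]
  exact abs_add_le _ _

private theorem sp1_sub' {N : ℕ} (A B : Matrix (Fin N) (Fin N) ℝ) :
    sp1 (A - B) ≤ sp1 A + sp1 B := by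
  have h := sp1_add' A ((-1 : ℝ) • B)
  rw [sp1_smul] at h
  have h2 : A + (-1 : ℝ) • B = A - B := by
    rw [neg_smul, one_smul, sub_eq_add_neg]
  rw [h2] at h
  simpa using h

private theorem sum_one' {n : ℕ} (i j : Fin n) :
    ∑ x : Fin n, ∑ y : Fin n, (if x = i ∧ y = j then (1 : ℝ) else 0) = 1 := by
  have h1 : ∀ x y : Fin n, (if x = i ∧ y = j then (1 : ℝ) else 0)
      = if x = i then (if y = j then (1 : ℝ) else 0) else 0 := by
    intro x y
    by_cases hx : x = i <;> by_cases hy : y = j <;> simp [hx, hy]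
  simp only [h1]
  have h2 : ∀ x : Fin n, ∑ y : Fin n, (if x = i then (if y = j then (1 : ℝ) else 0) else 0)
      = if x = i then 1 else 0 := by
    intro x
    by_cases hx : x = i
    · simp [hx]
    · simp [hx]
  simp only [h2]
  simp

private theorem sp1_Es' {n : ℕ} (i j : Fin n) : sp1 (Es i j) ≤ 2 := by
  have h1 : sp1 (Es i j) ≤ ∑ x : Fin n, ∑ y : Fin n,
      ((if x = i ∧ y = j then (1 : ℝ) else 0) + (if x = j ∧ y = i then (1 : ℝ) else 0)) := by
    unfold sp1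
    refine Finset.sum_le_sum fun x _ => Finset.sum_le_sum fun y _ => ?_
    simp only [Es, Matrix.of_apply]
    rw [abs_of_nonneg]
    have a1 : (0 : ℝ) ≤ (if x = i ∧ y = j then (1 : ℝ) else 0) := by split_ifs <;> norm_num
    have a2 : (0 : ℝ) ≤ (if x = j ∧ y = i then (1 : ℝ) else 0) := by split_ifs <;> norm_num
    linarith
  have h2 : ∑ x : Fin n, ∑ y : Fin n,
      ((if x = i ∧ y = j then (1 : ℝ) else 0) + (if x = j ∧ y = i then (1 : ℝ) else 0)) = 2 := by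
    simp only [Finset.sum_add_distrib]
    rw [sum_one', sum_one']
    norm_num
  linarith

private theorem sp1_Ed' {n : ℕ} (i : Fin n) : sp1 (Ed i) ≤ 1 := by
  have h1 : sp1 (Ed i) ≤ ∑ x : Fin n, ∑ y : Fin n, (if x = i ∧ y = i then (1 : ℝ) else 0) := by
    unfold sp1
    refine Finset.sum_le_sum fun x _ => Finset.sum_le_sum fun y _ => ?_
    simp only [Ed, Matrix.of_apply]
    rw [abs_of_nonneg]
    split_ifs <;> norm_num
  rw [sum_one'] at h1
  exact h1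

theorem sp1_Xi {n : ℕ} (i j k l : Fin n) : sp1 (Xi i j k l) ≤ 8 := by
  unfold Xi
  have h1 := sp1_sub' (Es i j - Es j k + Es k l) (Es l i)
  have h2 := sp1_add' (Es i j - Es j k) (Es k l)
  have h3 := sp1_sub' (Es i j) (Es j k)
  have e1 := sp1_Es' i j
  have e2 := sp1_Es' j k
  have e3 := sp1_Es' k l
  have e4 := sp1_Es' l i
  linarith

theorem sp1_XiP {n : ℕ} (i j k : Fin n) : sp1 (XiP i j k) ≤ 6 := by
  unfold XiP
  have h1 := sp1_sub' (Ed i - Es i j + Es j k) (Ed k)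
  have h2 := sp1_add' (Ed i - Es i j) (Es j k)
  have h3 := sp1_sub' (Ed i) (Es i j)
  have e1 := sp1_Es' i j
  have e2 := sp1_Es' j k
  have e3 := sp1_Ed' i
  have e4 := sp1_Ed' k
  linarith

theorem sparse_entry {N : ℕ} {A C : Matrix (Fin N) (Fin N) ℂ} {a c : ℝ} (hA : EnLe A a)
    (hC : EnLe C c) (ha : 0 ≤ a) (hc : 0 ≤ c) (Y : Matrix (Fin N) (Fin N) ℝ) (x y : Fin N) :
    ‖(A * toC Y * C) x y‖ ≤ a * sp1 Y * c := by
  have h1 : (A * toC Y * C) x y = ∑ v, ∑ u, A x u * ((Y u v : ℝ) : ℂ) * C v y := by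
    rw [Matrix.mul_apply]
    refine Finset.sum_congr rfl fun v _ => ?_
    rw [Matrix.mul_apply, Finset.sum_mul]
    rfl
  rw [h1]
  have h2 : ‖∑ v, ∑ u, A x u * ((Y u v : ℝ) : ℂ) * C v y‖ ≤ ∑ v, ∑ u, a * |Y u v| * c := by
    refine (norm_sum_le _ _).trans (Finset.sum_le_sum fun v _ => ?_)
    refine (norm_sum_le _ _).trans (Finset.sum_le_sum fun u _ => ?_)
    rw [norm_mul, norm_mul, Complex.norm_real, Real.norm_eq_abs]
    exact mul_le_mul (mul_le_mul_of_nonneg_right (hA x u) (abs_nonneg _)) (hC v y)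
      (norm_nonneg _) (mul_nonneg ha (abs_nonneg _))
  refine h2.trans (le_of_eq ?_)
  unfold sp1
  rw [Finset.sum_comm]
  simp only [Finset.mul_sum, Finset.sum_mul]

variable {N : ℕ} {Q B Y : Matrix (Fin N) (Fin N) ℝ}

private theorem pb_line' (hB : PB Q B) (hY : PB Q Y) (s : ℝ) : PB Q (B + s • Y) := by
  have h := pb_add hB hY 1 s
  rwa [one_smul] at h

theorem sparse_boot (hB : PB Q B) (hY : PB Q Y) (z : ℂ) (hz : z.im ≠ 0) (Γ : ℝ) (hΓ : 0 ≤ Γ)
    (hG : EnLe (Gz Q B z) Γ) (hs : sp1 Y * Γ ≤ 1 / 2) (s : ℝ) (hs1 : |s| ≤ 1) :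
    EnLe (Gz Q (B + s • Y) z) (2 * Γ) := by
  intro i0 j0
  have hne : Nonempty (Fin N × Fin N) := ⟨(i0, j0)⟩
  obtain ⟨p, hp⟩ := Finite.exists_max (fun p : Fin N × Fin N => ‖Gz Q (B + s • Y) z p.1 p.2‖)
  have hx : EnLe (Gz Q (B + s • Y) z) ‖Gz Q (B + s • Y) z p.1 p.2‖ := fun i j => hp (i, j)
  have hpert := gz_pert hB (pb_line' hB hY s) z hz
  have hd : B - (B + s • Y) = (-s) • Y := by
    rw [neg_smul]; abel
  rw [hd] at hpert
  have he : Gz Q (B + s • Y) z = Gz Q B z + Gz Q B z * toC ((-s) • Y) * Gz Q (B + s • Y) z := by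
    calc Gz Q (B + s • Y) z = Gz Q B z - (Gz Q B z - Gz Q (B + s • Y) z) := by
          rw [sub_sub_cancel]
      _ = Gz Q B z - -(Gz Q B z * toC ((-s) • Y) * Gz Q (B + s • Y) z) := by rw [hpert]
      _ = Gz Q B z + Gz Q B z * toC ((-s) • Y) * Gz Q (B + s • Y) z := by rw [sub_neg_eq_add]
  have h1 : ‖Gz Q (B + s • Y) z p.1 p.2‖
      ≤ ‖Gz Q B z p.1 p.2‖ + ‖(Gz Q B z * toC ((-s) • Y) * Gz Q (B + s • Y) z) p.1 p.2‖ := by
    conv_lhs => rw [he]
    rw [Matrix.add_apply]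
    exact norm_add_le _ _
  have h2 := sparse_entry hG hx hΓ (norm_nonneg _) ((-s) • Y) p.1 p.2
  rw [sp1_smul, abs_neg] at h2
  have h3 := hG p.1 p.2
  have hX0 : 0 ≤ ‖Gz Q (B + s • Y) z p.1 p.2‖ := norm_nonneg _
  have h4 : Γ * (|s| * sp1 Y) * ‖Gz Q (B + s • Y) z p.1 p.2‖
      ≤ (1 / 2) * ‖Gz Q (B + s • Y) z p.1 p.2‖ := by
    apply mul_le_mul_of_nonneg_right _ hX0
    have a1 : |s| * (sp1 Y * Γ) ≤ 1 * (1 / 2) :=
      mul_le_mul hs1 hs (mul_nonneg (sp1_nonneg Y) hΓ) zero_le_one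
    calc Γ * (|s| * sp1 Y) = |s| * (sp1 Y * Γ) := by ring
      _ ≤ 1 * (1 / 2) := a1
      _ = 1 / 2 := one_mul _
  have h5 : ‖Gz Q (B + s • Y) z p.1 p.2‖ ≤ 2 * Γ := by linarith
  exact (hp (i0, j0)).trans h5

private theorem sum_sq' (hB : PB Q B) (z : ℂ) (hz : z.im ≠ 0) (Γ : ℝ)
    (hG : EnLe (Gz Q B z) Γ) (a : Fin N) :
    ∑ c, ‖Gz Q B z a c‖ ^ 2 ≤ Γ / |z.im| := by
  have hz' : (starRingEnd ℂ z).im ≠ 0 := by
    rw [Complex.conj_im]; exact neg_ne_zero.2 hz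
  have h1 := gz_res hB z (starRingEnd ℂ z) hz hz'
  have h2 := congrFun (congrFun h1 a) a
  rw [Matrix.sub_apply, Matrix.smul_apply, smul_eq_mul, Matrix.mul_apply, gz_conj hB z hz] at h2
  have hsym : ∀ c, Gz Q B z c a = Gz Q B z a c := by
    intro c
    have := congrFun (congrFun (gz_symm hB z hz) a) c
    rwa [Matrix.transpose_apply] at this
  have h3 : ∑ c, Gz Q B z a c * Gz Q B (starRingEnd ℂ z) c a
      = ((∑ c, ‖Gz Q B z a c‖ ^ 2 : ℝ) : ℂ) := by
    push_cast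
    refine Finset.sum_congr rfl fun c _ => ?_
    rw [gz_conj hB z hz, hsym c, Complex.mul_conj, Complex.normSq_eq_norm_sq]
    push_cast
    rfl
  rw [h3] at h2
  rw [Complex.sub_conj, Complex.sub_conj] at h2
  have h4 := congrArg Complex.im h2
  have h5 : 2 * (Gz Q B z a a).im = 2 * z.im * ∑ c, ‖Gz Q B z a c‖ ^ 2 := by
    simp only [Complex.mul_im, Complex.ofReal_re, Complex.ofReal_im, Complex.I_re, Complex.I_im,
      mul_zero, mul_one, zero_add, add_zero, zero_mul, Complex.mul_re, sub_zero] at h4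
    exact h4
  have h6 : (Gz Q B z a a).im = z.im * ∑ c, ‖Gz Q B z a c‖ ^ 2 := by linarith
  have hpos : 0 < |z.im| := abs_pos.2 hz
  have hS : 0 ≤ ∑ c, ‖Gz Q B z a c‖ ^ 2 := Finset.sum_nonneg fun c _ => by positivity
  have h7 : |z.im| * ∑ c, ‖Gz Q B z a c‖ ^ 2 = |(Gz Q B z a a).im| := by
    rw [h6, abs_mul, abs_of_nonneg hS]
  have h8 : |(Gz Q B z a a).im| ≤ Γ := (Complex.abs_im_le_norm _).trans (hG a a)
  rw [le_div_iff₀ hpos]
  linarith

theorem sq_bd (hB : PB Q B) (z : ℂ) (hz : z.im ≠ 0) (Γ : ℝ) (hΓ : 0 ≤ Γ)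
    (hG : EnLe (Gz Q B z) Γ) : EnLe (Gz Q B z ^ 2) (Γ / |z.im|) := by
  intro a b
  have hsym : ∀ c, Gz Q B z c b = Gz Q B z b c := by
    intro c
    have := congrFun (congrFun (gz_symm hB z hz) b) c
    rwa [Matrix.transpose_apply] at this
  rw [pow_two, Matrix.mul_apply]
  have h1 : ‖∑ c, Gz Q B z a c * Gz Q B z c b‖
      ≤ ∑ c, (‖Gz Q B z a c‖ ^ 2 + ‖Gz Q B z b c‖ ^ 2) / 2 := by
    refine (norm_sum_le _ _).trans (Finset.sum_le_sum fun c _ => ?_)
    rw [norm_mul, hsym c]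
    nlinarith [sq_nonneg (‖Gz Q B z a c‖ - ‖Gz Q B z b c‖)]
  have h2 : ∑ c, (‖Gz Q B z a c‖ ^ 2 + ‖Gz Q B z b c‖ ^ 2) / 2
      = (∑ c, ‖Gz Q B z a c‖ ^ 2 + ∑ c, ‖Gz Q B z b c‖ ^ 2) / 2 := by
    rw [← Finset.sum_div, Finset.sum_add_distrib]
  have h3 := sum_sq' hB z hz Γ hG a
  have h4 := sum_sq' hB z hz Γ hG b
  rw [h2] at h1
  linarith

/-- entries of `(G Y)^r C` -/
private theorem iter_bd' {G C : Matrix (Fin N) (Fin N) ℂ} {g c : ℝ} (hG : EnLe G g) (hC : EnLe C c)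
    (hg : 0 ≤ g) (hc : 0 ≤ c) (Y : Matrix (Fin N) (Fin N) ℝ) (r : ℕ) :
    EnLe ((G * toC Y) ^ r * C) (c * (g * sp1 Y) ^ r) := by
  induction r with
  | zero => simpa using hC
  | succ r ih =>
    intro x y
    have h1 : (G * toC Y) ^ (r + 1) * C = G * toC Y * ((G * toC Y) ^ r * C) := by
      rw [pow_succ', Matrix.mul_assoc]
    rw [h1]
    have h2 := sparse_entry hG ih hg (mul_nonneg hc (pow_nonneg (mul_nonneg hg (sp1_nonneg Y)) r))
      Y x y
    refine h2.trans (le_of_eq ?_)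
    rw [pow_succ]
    ring

theorem jetE_bd (hB : PB Q B) (hY : PB Q Y) (z : ℂ) (hz : z.im ≠ 0) (Γ : ℝ) (hΓ : 0 ≤ Γ)
    (hG : EnLe (Gz Q B z) Γ) (hs : sp1 Y * Γ ≤ 1 / 2) (s : ℝ) (hs1 : |s| ≤ 1) (x y : Fin N)
    (r : ℕ) : ‖jetE Q B Y z x y r s‖ ≤ 2 * Γ * r.factorial * (2 * Γ * sp1 Y) ^ r := by
  have hb := sparse_boot hB hY z hz Γ hΓ hG hs s hs1
  have h2 : 0 ≤ 2 * Γ := by linarith
  have h1 := iter_bd' hb hb h2 h2 Y r x y
  unfold jetE
  rw [norm_mul, norm_mul, norm_pow, norm_neg, norm_one, one_pow, one_mul, Complex.norm_natCast]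
  calc (r.factorial : ℝ) * ‖((Gz Q (B + s • Y) z * toC Y) ^ r * Gz Q (B + s • Y) z) x y‖
      ≤ (r.factorial : ℝ) * (2 * Γ * (2 * Γ * sp1 Y) ^ r) :=
        mul_le_mul_of_nonneg_left h1 (Nat.cast_nonneg _)
    _ = 2 * Γ * r.factorial * (2 * Γ * sp1 Y) ^ r := by ring

private theorem trace_bd' {A : Matrix (Fin N) (Fin N) ℂ} {a : ℝ} (hA : EnLe A a)
    (Y : Matrix (Fin N) (Fin N) ℝ) : ‖(A * toC Y).trace‖ ≤ a * sp1 Y := by
  have h1 : (A * toC Y).trace = ∑ x, ∑ u, A x u * ((Y u x : ℝ) : ℂ) := by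
    unfold Matrix.trace
    refine Finset.sum_congr rfl fun x _ => ?_
    rw [Matrix.diag_apply, Matrix.mul_apply]
    rfl
  rw [h1]
  have h2 : ‖∑ x, ∑ u, A x u * ((Y u x : ℝ) : ℂ)‖ ≤ ∑ x, ∑ u, a * |Y u x| := by
    refine (norm_sum_le _ _).trans (Finset.sum_le_sum fun v _ => ?_)
    refine (norm_sum_le _ _).trans (Finset.sum_le_sum fun u _ => ?_)
    rw [norm_mul, Complex.norm_real, Real.norm_eq_abs]
    exact mul_le_mul_of_nonneg_right (hA v u) (abs_nonneg _)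
  refine h2.trans (le_of_eq ?_)
  unfold sp1
  rw [Finset.sum_comm]
  simp only [Finset.mul_sum]

private theorem trace_jet' (hB : PB Q B) (hY : PB Q Y) (z : ℂ) (hz : z.im ≠ 0) (Γ : ℝ) (hΓ : 0 ≤ Γ)
    (hG : EnLe (Gz Q B z) Γ) (hs : sp1 Y * Γ ≤ 1 / 2) (s : ℝ) (hs1 : |s| ≤ 1)
    (r : ℕ) (hr : 1 ≤ r) :
    ‖((Gz Q (B + s • Y) z * toC Y) ^ r * Gz Q (B + s • Y) z).trace‖
      ≤ 1 / |z.im| * (2 * Γ * sp1 Y) ^ r := by
  have hb := sparse_boot hB hY z hz Γ hΓ hG hs s hs1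
  have h2 : 0 ≤ 2 * Γ := by linarith
  have hsq := sq_bd (pb_line' hB hY s) z hz (2 * Γ) h2 hb
  have hpos : 0 < |z.im| := abs_pos.2 hz
  have hq0 : 0 ≤ 2 * Γ / |z.im| := div_nonneg h2 hpos.le
  generalize Gz Q (B + s • Y) z = G at *
  obtain ⟨q, rfl⟩ : ∃ q, r = q + 1 := ⟨r - 1, by omega⟩
  -- trace = trace (G (G Y)^q G Y)
  have ht : ((G * toC Y) ^ (q + 1) * G).trace = (G * ((G * toC Y) ^ q * G) * toC Y).trace := by
    have e1 : (G * toC Y) ^ (q + 1) * G = ((G * toC Y) ^ q * G * toC Y) * G := by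
      rw [pow_succ]
      simp only [Matrix.mul_assoc]
    rw [e1, Matrix.trace_mul_comm]
    simp only [Matrix.mul_assoc]
  rw [ht]
  have hent : EnLe (G * ((G * toC Y) ^ q * G)) (2 * Γ / |z.im| * (2 * Γ * sp1 Y) ^ q) := by
    rcases Nat.eq_zero_or_pos q with hq | hq
    · subst hq
      simp only [pow_zero, Matrix.one_mul, mul_one]
      rw [← pow_two]
      exact hsq
    · obtain ⟨p, rfl⟩ : ∃ p, q = p + 1 := ⟨q - 1, by omega⟩
      have e2 : G * ((G * toC Y) ^ (p + 1) * G) = G ^ 2 * toC Y * ((G * toC Y) ^ p * G) := by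
        rw [pow_succ', pow_two]
        simp only [Matrix.mul_assoc]
      intro x y
      rw [e2]
      have h3 := iter_bd' hb hb h2 h2 Y p
      have h4 := sparse_entry hsq h3 hq0
        (mul_nonneg h2 (pow_nonneg (mul_nonneg h2 (sp1_nonneg Y)) p)) Y x y
      refine h4.trans (le_of_eq ?_)
      rw [pow_succ]
      ring
  have h5 := trace_bd' hent Y
  refine h5.trans (le_of_eq ?_)
  rw [pow_succ]
  ring

theorem jetM_bd (hB : PB Q B) (hY : PB Q Y) (z : ℂ) (hz : z.im ≠ 0) (Γ : ℝ) (hΓ : 0 ≤ Γ)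
    (hG : EnLe (Gz Q B z) Γ) (hs : sp1 Y * Γ ≤ 1 / 2) (s : ℝ) (hs1 : |s| ≤ 1)
    (r : ℕ) (hr : 1 ≤ r) :
    ‖jetM Q B Y z r s‖ ≤ 1 / (N * |z.im|) * r.factorial * (2 * Γ * sp1 Y) ^ r := by
  have h1 := trace_jet' hB hY z hz Γ hΓ hG hs s hs1 r hr
  unfold jetM
  rw [norm_mul, norm_mul, norm_pow, norm_neg, norm_one, one_pow, one_mul, Complex.norm_natCast,
    norm_mul, norm_div, norm_one, Complex.norm_natCast]
  have h2 : 0 ≤ (r.factorial : ℝ) * (1 / (N : ℝ)) := by positivity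
  calc (r.factorial : ℝ) * (1 / (N : ℝ) *
        ‖((Gz Q (B + s • Y) z * toC Y) ^ r * Gz Q (B + s • Y) z).trace‖)
      = ((r.factorial : ℝ) * (1 / (N : ℝ))) *
        ‖((Gz Q (B + s • Y) z * toC Y) ^ r * Gz Q (B + s • Y) z).trace‖ := by ring
    _ ≤ ((r.factorial : ℝ) * (1 / (N : ℝ))) * (1 / |z.im| * (2 * Γ * sp1 Y) ^ r) :=
        mul_le_mul_of_nonneg_left h1 h2
    _ = 1 / (N * |z.im|) * r.factorial * (2 * Γ * sp1 Y) ^ r := by
        rw [one_div, one_div, one_div, mul_inv]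
        ring

end Pool.Agent.ZR

end

section

/-!
# ZBL/G4 : Dirichlet form identity

Proof.  `dirichlet`: sum `ibp_lip` with `v = pd i u` (`CB 1` because `u` is `CB 2`) over `i`:
`∑_i ∫ pd i f * pd i u = ∑_i ∫ f * (x_i pd i u - pd i (pd i u)) = ∫ f * (-LO u)`.
`integral_finset_sum` needs integrability: `pd i f * pd i u` is measurable (`measurable_pd`,
continuity of `pd i u`) and bounded (`pd_le_of_lip`, `CB.bdd`); `f * (x_i pd i u - pd i pd i u)` is
measurable (`f` Lipschitz, hence continuous) and bounded by `M (C₁ |x_i| + C₂)`, integrable by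
`gst_int_poly 1`.
`gauss_ibp` is `ibp_lip` with `f = 1` (Lipschitz with constant 0, `pd i 1 = 0`).
-/


open MeasureTheory ProbabilityTheory Matrix

namespace Pool.Agent.ZR.BL

variable {ι : Type} [Fintype ι] [DecidableEq ι]

omit [DecidableEq ι] in
private theorem g4_int {h : (ι → ℝ) → ℝ} (hm : AEStronglyMeasurable h (gst ι)) (C : ℝ)
    (hb : ∀ x, |h x| ≤ C * (1 + ∑ i, |x i|)) : Integrable h (gst ι) := by
  have h1 := (gst_int_poly (ι := ι) 1).const_mul C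
  refine Integrable.mono' h1 hm (Filter.Eventually.of_forall fun x => ?_)
  simpa using hb x

private theorem g4_xv {v : (ι → ℝ) → ℝ} (hv : CB 0 v) (i : ι) :
    Integrable (fun x => x i * v x) (gst ι) := by
  obtain ⟨C, hC⟩ := hv.bdd
  refine g4_int ((continuous_apply i).mul hv.cont).aestronglyMeasurable C fun x => ?_
  have hC0 : 0 ≤ C := le_trans (abs_nonneg _) (hC x)
  have h1 : |x i| ≤ 1 + ∑ j, |x j| := by
    have := Finset.single_le_sum (f := fun j => |x j|) (fun j _ => abs_nonneg _)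
      (Finset.mem_univ i)

    linarith
  rw [abs_mul, mul_comm]
  exact mul_le_mul (hC x) h1 (abs_nonneg _) hC0

private theorem g4_v {v : (ι → ℝ) → ℝ} (hv : CB 0 v) :
    Integrable v (gst ι) := by
  obtain ⟨C, hC⟩ := hv.bdd
  refine g4_int hv.cont.aestronglyMeasurable C fun x => ?_
  have hC0 : 0 ≤ C := le_trans (abs_nonneg _) (hC x)
  have h2 : 0 ≤ ∑ i, |x i| := Finset.sum_nonneg fun i _ => abs_nonneg _
  nlinarith [hC x, mul_nonneg hC0 h2]

theorem gauss_ibp {v : (ι → ℝ) → ℝ} (hv : CB 1 v) (i : ι) :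
    ∫ x, x i * v x ∂(gst ι) = ∫ x, pd i v x ∂(gst ι) := by
  have h := ibp_lip (K := 0) (f := fun _ : ι → ℝ => (1 : ℝ)) (LipschitzWith.const 1)
    ⟨1, fun x => by simp⟩ hv i
  have h0 : ∀ x : ι → ℝ, pd i (fun _ : ι → ℝ => (1 : ℝ)) x = 0 := by
    intro x; simp [pd]
  simp only [h0, zero_mul, integral_zero, one_mul] at h
  rw [integral_sub (g4_xv hv.mono1 i) (g4_v (hv.pd i))] at h
  linarith

theorem dirichlet {K : NNReal} {f u : (ι → ℝ) → ℝ} (hf : LipschitzWith K f)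
    (hb : ∃ M : ℝ, ∀ x, |f x| ≤ M) (hu : CB 2 u) :
    ∫ x, f x * (- LO u x) ∂(gst ι) = ∫ x, ∑ i, pd i f x * pd i u x ∂(gst ι) := by
  obtain ⟨M, hM⟩ := hb
  have hM0 : 0 ≤ M := le_trans (abs_nonneg _) (hM 0)
  have hfm : AEStronglyMeasurable f (gst ι) := hf.continuous.aestronglyMeasurable
  have hL : ∀ x, f x * (- LO u x) = ∑ i, f x * (x i * pd i u x - pd i (pd i u) x) := by
    intro x
    rw [LO, ← Finset.sum_neg_distrib, Finset.mul_sum]
    refine Finset.sum_congr rfl fun i _ => ?_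
    ring
  simp only [hL]
  rw [integral_finsetSum, integral_finsetSum]
  · refine Finset.sum_congr rfl fun i _ => ?_
    exact (ibp_lip hf ⟨M, hM⟩ (hu.pd i) i).symm
  · intro i _
    obtain ⟨C, hC⟩ := (hu.pd i).bdd
    have hC0 : 0 ≤ C := le_trans (abs_nonneg _) (hC 0)
    refine g4_int (((measurable_pd f i).mul
      (hu.pd i).cont.measurable).aestronglyMeasurable) (K * C) fun x => ?_
    have h2 : 0 ≤ ∑ i, |x i| := Finset.sum_nonneg fun i _ => abs_nonneg _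
    have h3 : |pd i f x * pd i u x| ≤ K * C := by
      rw [abs_mul]
      exact mul_le_mul (pd_le_of_lip hf i x) (hC x) (abs_nonneg _) K.2
    have h4 : 0 ≤ (K : ℝ) * C := mul_nonneg K.2 hC0
    nlinarith [mul_nonneg h4 h2]
  · intro i _
    have h1 : Integrable (fun x => x i * pd i u x - pd i (pd i u) x) (gst ι) :=
      (g4_xv (hu.pd i).mono1 i).sub (g4_v ((hu.pd i).pd i))
    refine (h1.norm.const_mul M).mono' (hfm.mul h1.aestronglyMeasurable)
      (Filter.Eventually.of_forall fun x => ?_)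
    simp only [norm_mul]
    exact mul_le_mul_of_nonneg_right (hM x) (norm_nonneg _)

end Pool.Agent.ZR.BL

end

section

/-!
# ZBL/G9 : the operators `hop k θ₁`

Proof.  `0 ≤ θ₁ < π/2`, so on `[0, θ₁]` the weight `tan θ cos^k θ` is continuous and bounded
(by `tan θ₁`; `cos θ > 0` there).
`hop_zero`: `CB 0 g → CB 0 (hop k θ₁ g)`: continuity by `PT_cont` and
`intervalIntegral.continuous_parametric_intervalIntegral_of_continuous'`-type lemma or
`intervalIntegral.continuous_of_dominated_interval` (constant bound), boundedness by `PT_bdd`.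
`pd_hop`: for `g` in `CB 1` differentiate in `x` under `∫_0^{θ₁}`
(`intervalIntegral.hasFDerivAt_integral_of_dominated_of_fderiv_le`, constant bound):
derivative `∫ tan θ cos^k θ ∑_i cos θ PT θ (pd i g) x • proj i dθ = ∑_i hop (k+1) θ₁ (pd i g) x • proj i`
(`PT_hasFDerivAt`).
`hop_CB`: induction on `m` (for all `k`, `g`), `CB.intro` with `D i = hop (k+1) θ₁ (pd i g)`.
-/


open MeasureTheory ProbabilityTheory Matrix

namespace Pool.Agent.ZR.BL

variable {ι : Type} [Fintype ι] [DecidableEq ι]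

/-- the weight is bounded on `(0, θ₁]` -/
private theorem g9_weight {θ₁ : ℝ} (h0 : 0 ≤ θ₁) (h1 : θ₁ < Real.pi / 2) (k : ℕ) {θ : ℝ}
    (hθ : θ ∈ Set.uIoc 0 θ₁) : |Real.tan θ * Real.cos θ ^ k| ≤ 1 / Real.cos θ₁ := by
  rw [Set.uIoc_of_le h0] at hθ
  have hpi := Real.pi_pos
  have hc1 : 0 < Real.cos θ₁ := Real.cos_pos_of_mem_Ioo ⟨by linarith, h1⟩
  have hc : Real.cos θ₁ ≤ Real.cos θ :=
    Real.cos_le_cos_of_nonneg_of_le_pi hθ.1.le (by linarith) hθ.2
  have hcp : 0 < Real.cos θ := lt_of_lt_of_le hc1 hc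
  have ht : |Real.tan θ| ≤ 1 / Real.cos θ₁ := by
    rw [Real.tan_eq_sin_div_cos, abs_div, abs_of_pos hcp]
    exact div_le_div₀ zero_le_one (Real.abs_sin_le_one θ) hc1 hc
  have hk : |Real.cos θ ^ k| ≤ 1 := by
    rw [abs_pow]
    exact pow_le_one₀ (abs_nonneg _) (Real.abs_cos_le_one θ)
  rw [abs_mul]
  calc |Real.tan θ| * |Real.cos θ ^ k| ≤ (1 / Real.cos θ₁) * 1 :=
        mul_le_mul ht hk (abs_nonneg _) (by positivity)
    _ = 1 / Real.cos θ₁ := mul_one _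

private theorem g9_meas (k : ℕ) : Measurable (fun θ : ℝ => Real.tan θ * Real.cos θ ^ k) := by
  have : (fun θ : ℝ => Real.tan θ * Real.cos θ ^ k)
      = fun θ : ℝ => (Real.sin θ / Real.cos θ) * Real.cos θ ^ k := by
    ext θ; rw [Real.tan_eq_sin_div_cos]
  rw [this]
  exact (Real.measurable_sin.div Real.measurable_cos).mul (Real.measurable_cos.pow_const k)

private theorem g9_ptmeas {g : (ι → ℝ) → ℝ} (hg : CB 0 g) (x : ι → ℝ) :
    Measurable (fun θ : ℝ => PT θ g x) := by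
  have h := (PT_cont hg).comp (Continuous.prodMk continuous_id continuous_const :
    Continuous (fun θ : ℝ => ((θ, x) : ℝ × (ι → ℝ))))
  exact h.measurable

private theorem g9_ptcont {g : (ι → ℝ) → ℝ} (hg : CB 0 g) (θ : ℝ) :
    Continuous (fun x : ι → ℝ => PT θ g x) := by
  exact (PT_cont hg).comp (Continuous.prodMk continuous_const continuous_id :
    Continuous (fun x : ι → ℝ => ((θ, x) : ℝ × (ι → ℝ))))

private theorem g9_meas2 (k : ℕ) {g : (ι → ℝ) → ℝ} (hg : CB 0 g) (x : ι → ℝ) :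
    Measurable (fun θ : ℝ => Real.tan θ * Real.cos θ ^ k * PT θ g x) :=
  (g9_meas k).mul (g9_ptmeas hg x)

private theorem g9_bound {θ₁ : ℝ} (h0 : 0 ≤ θ₁) (h1 : θ₁ < Real.pi / 2) (k : ℕ)
    {g : (ι → ℝ) → ℝ} {C : ℝ} (hC : ∀ x, |g x| ≤ C) (x : ι → ℝ) {θ : ℝ}
    (hθ : θ ∈ Set.uIoc 0 θ₁) :
    |Real.tan θ * Real.cos θ ^ k * PT θ g x| ≤ 1 / Real.cos θ₁ * C := by
  have hpi := Real.pi_pos
  have hc1 : 0 < Real.cos θ₁ := Real.cos_pos_of_mem_Ioo ⟨by linarith, h1⟩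
  rw [abs_mul]
  exact mul_le_mul (g9_weight h0 h1 k hθ) (PT_bdd θ hC x) (abs_nonneg _) (by positivity)

private theorem g9_int {θ₁ : ℝ} (h0 : 0 ≤ θ₁) (h1 : θ₁ < Real.pi / 2) (k : ℕ)
    {g : (ι → ℝ) → ℝ} (hg : CB 0 g) (x : ι → ℝ) :
    IntervalIntegrable (fun θ : ℝ => Real.tan θ * Real.cos θ ^ k * PT θ g x) volume 0 θ₁ := by
  obtain ⟨C, hC⟩ := hg.bdd
  refine (intervalIntegrable_const (c := 1 / Real.cos θ₁ * C)).mono_fun'
    (g9_meas2 k hg x).aestronglyMeasurable ?_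
  filter_upwards [ae_restrict_mem measurableSet_uIoc] with θ hθ
  rw [Real.norm_eq_abs]
  exact g9_bound h0 h1 k hC x hθ

private theorem g9_zero {θ₁ : ℝ} (h0 : 0 ≤ θ₁) (h1 : θ₁ < Real.pi / 2) (k : ℕ)
    {g : (ι → ℝ) → ℝ} (hg : CB 0 g) : CB 0 (hop k θ₁ g) := by
  obtain ⟨C, hC⟩ := hg.bdd
  refine ⟨?_, 1 / Real.cos θ₁ * C * |θ₁ - 0|, fun x => ?_⟩
  · unfold hop
    refine intervalIntegral.continuous_of_dominated_interval
      (bound := fun _ => 1 / Real.cos θ₁ * C)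
      (fun x => (g9_meas2 k hg x).aestronglyMeasurable) (fun x => ?_)
      intervalIntegrable_const ?_
    · refine Filter.Eventually.of_forall (fun θ hθ => ?_)
      rw [Real.norm_eq_abs]
      exact g9_bound h0 h1 k hC x hθ
    · exact Filter.Eventually.of_forall (fun θ _ => continuous_const.mul (g9_ptcont hg θ))
  · unfold hop
    have := intervalIntegral.norm_integral_le_of_norm_le_const
      (a := (0 : ℝ)) (b := θ₁) (C := 1 / Real.cos θ₁ * C)
      (f := fun θ : ℝ => Real.tan θ * Real.cos θ ^ k * PT θ g x)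
      (fun θ hθ => by rw [Real.norm_eq_abs]; exact g9_bound h0 h1 k hC x hθ)
    rwa [Real.norm_eq_abs] at this

private theorem g9_fderiv {θ₁ : ℝ} (h0 : 0 ≤ θ₁) (h1 : θ₁ < Real.pi / 2) (k : ℕ)
    {g : (ι → ℝ) → ℝ} (hg : CB 1 g) (x : ι → ℝ) :
    HasFDerivAt (hop k θ₁ g)
      (∑ i, hop (k + 1) θ₁ (pd i g) x • (ContinuousLinearMap.proj i : (ι → ℝ) →L[ℝ] ℝ)) x := by
  have hpi := Real.pi_pos
  have hc1 : 0 < Real.cos θ₁ := Real.cos_pos_of_mem_Ioo ⟨by linarith, h1⟩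
  have hpd : ∀ i, CB 0 (pd i g) := fun i => hg.pd i
  choose C hC using fun i => (hpd i).bdd
  set F' : (ι → ℝ) → ℝ → ((ι → ℝ) →L[ℝ] ℝ) := fun x θ =>
    ∑ i, (Real.tan θ * Real.cos θ ^ (k + 1) * PT θ (pd i g) x)
      • (ContinuousLinearMap.proj i : (ι → ℝ) →L[ℝ] ℝ) with hF'
  have hproj : ∀ i, ‖(ContinuousLinearMap.proj i : (ι → ℝ) →L[ℝ] ℝ)‖ ≤ 1 := by
    intro i
    refine ContinuousLinearMap.opNorm_le_bound _ zero_le_one (fun w => ?_)
    rw [one_mul]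
    exact norm_le_pi_norm w i
  have key := intervalIntegral.hasFDerivAt_integral_of_dominated_of_fderiv_le
    (μ := volume) (a := (0 : ℝ)) (b := θ₁) (s := Set.univ) (x₀ := x)
    (F := fun (x : ι → ℝ) (θ : ℝ) => Real.tan θ * Real.cos θ ^ k * PT θ g x)
    (F' := F') (bound := fun _ => ∑ i, 1 / Real.cos θ₁ * C i)
    Filter.univ_mem
    (Filter.Eventually.of_forall fun y => (g9_meas2 k hg.zero y).aestronglyMeasurable)
    (g9_int h0 h1 k hg.zero x)
    (by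
      rw [hF']
      refine (Finset.stronglyMeasurable_fun_sum _ (fun i _ => ?_)).aestronglyMeasurable
      exact (g9_meas2 (k + 1) (hpd i) x).stronglyMeasurable.smul_const _)
    (Filter.Eventually.of_forall fun θ hθ y _ => by
      rw [hF']
      refine (norm_sum_le _ _).trans (Finset.sum_le_sum fun i _ => ?_)
      rw [norm_smul, Real.norm_eq_abs]
      have hb := g9_bound h0 h1 (k + 1) (hC i) y hθ
      calc |Real.tan θ * Real.cos θ ^ (k + 1) * PT θ (pd i g) y|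
            * ‖(ContinuousLinearMap.proj i : (ι → ℝ) →L[ℝ] ℝ)‖
          ≤ (1 / Real.cos θ₁ * C i) * 1 :=
            mul_le_mul hb (hproj i) (norm_nonneg _) ((abs_nonneg _).trans hb)
        _ = 1 / Real.cos θ₁ * C i := mul_one _)
    intervalIntegrable_const
    (Filter.Eventually.of_forall fun θ _ y _ => by
      have h := (PT_hasFDerivAt θ hg y).const_mul (Real.tan θ * Real.cos θ ^ k)
      have e : (Real.tan θ * Real.cos θ ^ k) •
          (∑ i, (Real.cos θ * PT θ (pd i g) y)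
            • (ContinuousLinearMap.proj i : (ι → ℝ) →L[ℝ] ℝ)) = F' y θ := by
        rw [hF', Finset.smul_sum]
        refine Finset.sum_congr rfl fun i _ => ?_
        rw [smul_smul]
        congr 1
        ring
      rw [← e]
      exact h)
  have e2 : (∫ θ in (0 : ℝ)..θ₁, F' x θ)
      = ∑ i, hop (k + 1) θ₁ (pd i g) x • (ContinuousLinearMap.proj i : (ι → ℝ) →L[ℝ] ℝ) := by
    rw [hF']
    simp only
    rw [intervalIntegral.integral_finsetSum]
    · refine Finset.sum_congr rfl fun i _ => ?_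
      rw [intervalIntegral.integral_smul_const]
      rfl
    · intro i _
      have hi := g9_int h0 h1 (k + 1) (hpd i) x
      exact ⟨hi.1.smul_const _, hi.2.smul_const _⟩
  rw [← e2]
  exact key

theorem hop_CB {θ₁ : ℝ} (h0 : 0 ≤ θ₁) (h1 : θ₁ < Real.pi / 2) (m k : ℕ) {g : (ι → ℝ) → ℝ}
    (hg : CB m g) : CB m (hop k θ₁ g) := by
  induction m generalizing k g with
  | zero => exact g9_zero h0 h1 k hg
  | succ m ih =>
    have hg1 : CB 1 g := by
      clear ih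
      induction m with
      | zero => exact hg
      | succ m ihm => exact ihm hg.mono1
    exact (CB.intro (g9_zero h0 h1 k hg.zero).2 (g9_fderiv h0 h1 k hg1)
      (fun i => ih (k + 1) (hg.pd i))).1

theorem pd_hop {θ₁ : ℝ} (h0 : 0 ≤ θ₁) (h1 : θ₁ < Real.pi / 2) (k : ℕ) {g : (ι → ℝ) → ℝ}
    (hg : CB 1 g) (i : ι) : pd i (hop k θ₁ g) = hop (k + 1) θ₁ (pd i g) :=
  (CB.intro (k := 0) (g9_zero h0 h1 k hg.zero).2 (g9_fderiv h0 h1 k hg)
    (fun i => g9_zero h0 h1 (k + 1) (hg.pd i))).2 i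

end Pool.Agent.ZR.BL

end

section

/-!
# ZBL/M4 : the Hilbert-Schmidt norm of the Hessian is conjugation invariant

Proof.  `u` is `CB 2` and `Inv`, `sya X' = O sya X Oᵀ`.
For every array `V`, `sya (X' + conjA O V) = O sya (X + V) Oᵀ`, so by `pd_conj`
  `pd (i,j) u (X' + conjA O V) = ∑_{k,l} O i k * O j l * pd (k,l) u (X + V)`   for all `V`.
Differentiate in `V` at `0` in the direction `conjA Oᵀ (single (a,b) 1)` (entries
`O a c * O b e` at `(c,e)`): with `H_{p q}(X) = pd p (pd q u) X`,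
  `H_{(a,b),(i,j)}(X') = ∑_{c,e,k,l} O a c O b e O i k O j l H_{(c,e),(k,l)}(X)`,
i.e. `H(X') = Q H(X) Qᵀ` with `Q_{(i,j),(k,l)} = O i k * O j l`, `Q Qᵀ = Qᵀ Q = 1`
(`∑_{k,l} O i k O j l O i' k O j' l = δ_ii' δ_jj'`).  Then
`∑ (Q H Qᵀ)_{pq}² = tr (Q H Qᵀ Q Hᵀ Qᵀ) = tr (H Hᵀ) = ∑ H_pq²`.
-/


open MeasureTheory ProbabilityTheory Matrix

namespace Pool.Agent.ZR.BL

variable {n : ℕ}

private lemma sumsq94 {ι : Type} [Fintype ι] [DecidableEq ι] (A : Matrix ι ι ℝ) :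
    ∑ p, ∑ q, A p q ^ 2 = (A * Aᵀ).trace := by
  simp only [Matrix.trace, Matrix.diag_apply, Matrix.mul_apply, Matrix.transpose_apply, sq]

theorem sum_sq_conj {ι : Type} [Fintype ι] [DecidableEq ι] (Q H : Matrix ι ι ℝ)
    (hQ : Qᵀ * Q = 1) : ∑ p, ∑ q, (Q * H * Qᵀ) p q ^ 2 = ∑ p, ∑ q, H p q ^ 2 := by
  rw [sumsq94, sumsq94]
  have e : Q * H * Qᵀ * (Q * H * Qᵀ)ᵀ = Q * (H * Hᵀ) * Qᵀ := by
    rw [Matrix.transpose_mul, Matrix.transpose_mul, Matrix.transpose_transpose]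
    calc Q * H * Qᵀ * (Q * (Hᵀ * Qᵀ)) = Q * H * (Qᵀ * Q) * Hᵀ * Qᵀ := by
          simp only [Matrix.mul_assoc]
      _ = Q * (H * Hᵀ) * Qᵀ := by
          rw [hQ]
          simp only [Matrix.mul_assoc, Matrix.mul_one]
  rw [e, Matrix.trace_mul_comm, ← Matrix.mul_assoc, hQ, Matrix.one_mul]

private lemma line94 {u : (Fin n × Fin n → ℝ) → ℝ} (hd : CB 2 u) (hu : Inv u)
    {O : Matrix (Fin n) (Fin n) ℝ} (h1 : Oᵀ * O = 1) (h2 : O * Oᵀ = 1)
    {X X' : Fin n × Fin n → ℝ} (h : sya X' = O * sya X * Oᵀ) (a b i j : Fin n) :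
    pd (a, b) (pd (i, j) u) X' = ∑ k, ∑ l, O i k * O j l *
      ∑ p, pd p (pd (k, l) u) X * (O a p.1 * O b p.2) := by
  have hd1 : Differentiable ℝ u := hd.2.1
  have hd2 : ∀ q, Differentiable ℝ (pd q u) := fun q => (hd.2.2 q).2.1
  have hW : K1.conjA O (fun p : Fin n × Fin n => O a p.1 * O b p.2) = Pi.single (a, b) 1 := by
    ext p
    change (O * Matrix.of (fun i j => O a i * O b j) * Oᵀ) p.1 p.2 = _
    rw [Matrix.mul_apply]
    have e1 : ∀ e : Fin n, (O * Matrix.of (fun i j => O a i * O b j)) p.1 e * Oᵀ e p.2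
        = (O * Oᵀ) p.1 a * (O b e * Oᵀ e p.2) := by
      intro e
      rw [Matrix.mul_apply, Matrix.mul_apply]
      simp only [Matrix.of_apply, Matrix.transpose_apply]
      rw [Finset.sum_mul, Finset.sum_mul]
      refine Finset.sum_congr rfl fun c _ => ?_
      ring
    simp only [e1]
    rw [← Finset.mul_sum, ← Matrix.mul_apply, h2]
    obtain ⟨p1, p2⟩ := p
    simp only [Matrix.one_apply, Pi.single_apply, Prod.mk.injEq]
    by_cases h3 : p1 = a
    · by_cases h4 : p2 = b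
      · simp [h3, h4]
      · simp [h3, h4, Ne.symm h4]
    · simp [h3]
  have hline : ∀ t : ℝ, pd (i, j) u (X' + t • Pi.single (a, b) 1)
      = ∑ k, ∑ l, O i k * O j l * pd (k, l) u
          (X + t • (fun p : Fin n × Fin n => O a p.1 * O b p.2)) := by
    intro t
    refine pd_conj hd1 hu h1 h2 ?_ i j
    rw [← hW, ← map_smul, sya_add, sya_conjA, h, sya_add, Matrix.mul_add, Matrix.add_mul]
  have hL : HasDerivAt (fun t : ℝ => pd (i, j) u (X' + t • Pi.single (a, b) 1))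
      (fderiv ℝ (pd (i, j) u) X' (Pi.single (a, b) 1)) 0 :=
    ((hd2 (i, j)) X').hasFDerivAt.hasLineDerivAt _
  have hR : HasDerivAt (fun t : ℝ => ∑ k, ∑ l, O i k * O j l * pd (k, l) u
          (X + t • (fun p : Fin n × Fin n => O a p.1 * O b p.2)))
      (∑ k, ∑ l, O i k * O j l * fderiv ℝ (pd (k, l) u) X
        (fun p : Fin n × Fin n => O a p.1 * O b p.2)) 0 := by
    refine HasDerivAt.fun_sum fun k _ => HasDerivAt.fun_sum fun l _ => ?_
    refine HasDerivAt.const_mul _ ?_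
    exact ((hd2 (k, l)) X).hasFDerivAt.hasLineDerivAt _
  have hfun : (fun t : ℝ => pd (i, j) u (X' + t • Pi.single (a, b) 1))
      = (fun t : ℝ => ∑ k, ∑ l, O i k * O j l * pd (k, l) u
          (X + t • (fun p : Fin n × Fin n => O a p.1 * O b p.2))) := funext hline
  rw [hfun] at hL
  have hu2 := hL.unique hR
  change fderiv ℝ (pd (i, j) u) X' (Pi.single (a, b) 1) = _
  rw [hu2]
  refine Finset.sum_congr rfl fun k _ => Finset.sum_congr rfl fun l _ => ?_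
  rw [fderiv_eq_sum]

theorem HH_conj {u : (Fin n × Fin n → ℝ) → ℝ} (hd : CB 2 u) (hu : Inv u)
    {O : Matrix (Fin n) (Fin n) ℝ} (h1 : Oᵀ * O = 1) (h2 : O * Oᵀ = 1)
    {X X' : Fin n × Fin n → ℝ} (h : sya X' = O * sya X * Oᵀ) :
    HH u X' = HH u X := by
  have hQ : (Matrix.of (fun p q : Fin n × Fin n => O p.1 q.1 * O p.2 q.2))ᵀ
      * Matrix.of (fun p q : Fin n × Fin n => O p.1 q.1 * O p.2 q.2) = 1 := by
    ext p q
    rw [Matrix.mul_apply]
    simp only [Matrix.transpose_apply, Matrix.of_apply]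
    rw [Fintype.sum_prod_type]
    have e1 : ∀ x : Fin n, ∑ y : Fin n, O x p.1 * O y p.2 * (O x q.1 * O y q.2)
        = O x p.1 * O x q.1 * (Oᵀ * O) p.2 q.2 := by
      intro x
      rw [Matrix.mul_apply, Finset.mul_sum]
      refine Finset.sum_congr rfl fun y _ => ?_
      rw [Matrix.transpose_apply]
      ring
    simp only [e1]
    rw [← Finset.sum_mul]
    have e2 : ∑ x : Fin n, O x p.1 * O x q.1 = (Oᵀ * O) p.1 q.1 := by
      rw [Matrix.mul_apply]
      rfl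
    rw [e2, h1]
    obtain ⟨p1, p2⟩ := p
    obtain ⟨q1, q2⟩ := q
    simp only [Matrix.one_apply, Prod.mk.injEq]
    by_cases h3 : p1 = q1
    · by_cases h4 : p2 = q2
      · simp [h3, h4]
      · simp [h3, h4]
    · simp [h3]
  have key : Matrix.of (fun p q : Fin n × Fin n => pd p (pd q u) X')
      = Matrix.of (fun p q : Fin n × Fin n => O p.1 q.1 * O p.2 q.2)
        * Matrix.of (fun p q : Fin n × Fin n => pd p (pd q u) X)
        * (Matrix.of (fun p q : Fin n × Fin n => O p.1 q.1 * O p.2 q.2))ᵀ := by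
    ext p q
    obtain ⟨a, b⟩ := p
    obtain ⟨i, j⟩ := q
    rw [Matrix.mul_apply]
    simp only [Matrix.of_apply, Matrix.transpose_apply, Matrix.mul_apply]
    rw [line94 hd hu h1 h2 h a b i j, Fintype.sum_prod_type]
    refine Finset.sum_congr rfl fun k _ => Finset.sum_congr rfl fun l _ => ?_
    rw [mul_comm]
    congr 1
    refine Finset.sum_congr rfl fun p _ => ?_
    ring
  have h5 := sum_sq_conj (Matrix.of (fun p q : Fin n × Fin n => O p.1 q.1 * O p.2 q.2))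
    (Matrix.of (fun p q : Fin n × Fin n => pd p (pd q u) X)) hQ
  rw [← key] at h5
  exact h5

end Pool.Agent.ZR.BL

end

section

/-!
# ZBL/M5 : directional derivative of a spectral function along the gradient of an invariant one

Notation: `c = √(v/2) > 0`, `x = evv v X`, `d = c⁻¹ x`, `sya X = O diag(d) Oᵀ` (`spec_sya`),
`k i = pd (i,i) u (dg d)`, `f Y = Φ (evv v Y)`.
Proof.  By `grad_array`, `g := (fun p => pd p u X) = conjA O (dg (2k))`.  For real `τ`: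
`sya (X + τ g) = O (diag(d) + τ diag(2k)) Oᵀ = O sya (dg (d + 2 τ k)) Oᵀ`
(`sya_add`, `sya_smul`, `sya_conjA`, `sya_dg`), so `evv v (X + τ g) = evv v (dg (d + 2τk))`
(`evv_conj`).  `d` is monotone (`evv_mono`) and `d i = d j` implies `k i = k j` (`grad_eq`), so for
`|τ|` small `d + 2τk` is monotone (finitely many pairs), and `evv v (X + τ g) = x + 2 c τ k` (`evv_dg`).
Hence `f (X + τ g) = Φ (x + τ (2 c k))` for `τ` near `0`; uniqueness of the derivative.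
-/


open MeasureTheory ProbabilityTheory Matrix

namespace Pool.Agent.ZR.BL

variable {n : ℕ}

theorem f_dir {v : ℝ} (hv : 0 < v) {Φ : (Fin n → ℝ) → ℝ} (hΦ : Differentiable ℝ Φ)
    {u : (Fin n × Fin n → ℝ) → ℝ} (hd : Differentiable ℝ u) (hu : Inv u)
    (X : Fin n × Fin n → ℝ) (hfX : DifferentiableAt ℝ (fun Y => Φ (evv v Y)) X) :
    fderiv ℝ (fun Y => Φ (evv v Y)) X (fun p => pd p u X)
      = fderiv ℝ Φ (evv v X) (fun i => 2 * Real.sqrt (v / 2) *
          pd (i, i) u (dg (fun i => (Real.sqrt (v / 2))⁻¹ * evv v X i))) := by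
  have hc : 0 < Real.sqrt (v / 2) := Real.sqrt_pos.mpr (by linarith)
  obtain ⟨O, h1, h2, h⟩ := spec_sya hv X
  set c := Real.sqrt (v / 2) with hcdef
  set d : Fin n → ℝ := fun i => c⁻¹ * evv v X i with hddef
  set k : Fin n → ℝ := fun i => pd (i, i) u (dg d) with hkdef
  have hg := grad_array hd hu h1 h2 h
  set g : Fin n × Fin n → ℝ := fun p => pd p u X with hgdef
  have hdm : Monotone d := fun i j hij =>
    mul_le_mul_of_nonneg_left (evv_mono v X hij) (inv_nonneg.mpr hc.le)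
  have hkk : ∀ i j, d i = d j → k i = k j := fun i j hij => grad_eq hd hu d hij
  -- the curve of arrays
  have hsya : ∀ τ : ℝ, sya (X + τ • g) = O * sya (dg (fun i => d i + 2 * τ * k i)) * Oᵀ := by
    intro τ
    have e : Matrix.diagonal (fun i => d i + 2 * τ * k i)
        = Matrix.diagonal d + τ • Matrix.diagonal (fun i => 2 * k i) := by
      ext i j
      by_cases hij : i = j
      · subst hij
        simp only [Matrix.diagonal_apply_eq, Matrix.add_apply, Matrix.smul_apply, smul_eq_mul]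
        ring
      · simp only [Matrix.diagonal_apply_ne _ hij, Matrix.add_apply, Matrix.smul_apply, smul_zero,
          add_zero]
    rw [sya_add, sya_smul, hg, sya_conjA, sya_dg, sya_dg, h, e, Matrix.mul_add, Matrix.add_mul,
      Matrix.mul_smul, Matrix.smul_mul]
  have hmono : ∀ᶠ τ : ℝ in nhds 0, Monotone (fun i => d i + 2 * τ * k i) := by
    have hall : ∀ᶠ τ : ℝ in nhds 0, ∀ i j : Fin n, i ≤ j →
        d i + 2 * τ * k i ≤ d j + 2 * τ * k j := by
      rw [Filter.eventually_all]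
      intro i
      rw [Filter.eventually_all]
      intro j
      by_cases hij : i ≤ j
      · rcases (hdm hij).eq_or_lt with he | hl
        · refine Filter.Eventually.of_forall fun τ _ => ?_
          rw [he, hkk i j he]
        · have hc1 : ContinuousAt (fun τ : ℝ => d i + 2 * τ * k i) 0 := by fun_prop
          have hc2 : ContinuousAt (fun τ : ℝ => d j + 2 * τ * k j) 0 := by fun_prop
          have := hc1.eventually_lt hc2 (by simpa using hl)
          exact this.mono fun τ hτ _ => hτ.le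
      · exact Filter.Eventually.of_forall fun τ hτ => absurd hτ hij
    exact hall.mono fun τ hτ i j hij => hτ i j hij
  have hev : (fun τ : ℝ => Φ (evv v (X + τ • g))) =ᶠ[nhds 0]
      fun τ : ℝ => Φ (evv v X + τ • (fun i => 2 * c * k i)) := by
    refine hmono.mono fun τ hτ => ?_
    simp only
    rw [evv_conj v h1 (hsya τ), evv_dg v hτ]
    congr 1
    funext i
    simp only [Pi.add_apply, Pi.smul_apply, smul_eq_mul, hddef]
    rw [← hcdef]
    field_simp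
  have hline : ∀ (E : Type) [NormedAddCommGroup E] [NormedSpace ℝ E] (a b : E),
      HasDerivAt (fun τ : ℝ => a + τ • b) b 0 := by
    intro E _ _ a b
    simpa using ((hasDerivAt_id (0 : ℝ)).smul_const b).const_add a
  have hL : HasDerivAt (fun τ : ℝ => Φ (evv v (X + τ • g)))
      (fderiv ℝ (fun Y => Φ (evv v Y)) X g) 0 := by
    have hf : HasFDerivAt (fun Y => Φ (evv v Y)) (fderiv ℝ (fun Y => Φ (evv v Y)) X)
        (X + (0 : ℝ) • g) := by
      rw [zero_smul, add_zero]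
      exact hfX.hasFDerivAt
    exact hf.comp_hasDerivAt (0 : ℝ) (hline _ X g)
  have hR : HasDerivAt (fun τ : ℝ => Φ (evv v X + τ • (fun i => 2 * c * k i)))
      (fderiv ℝ Φ (evv v X) (fun i => 2 * c * k i)) 0 := by
    have hf : HasFDerivAt Φ (fderiv ℝ Φ (evv v X))
        (evv v X + (0 : ℝ) • (fun i => 2 * c * k i)) := by
      rw [zero_smul, add_zero]
      exact (hΦ _).hasFDerivAt
    exact hf.comp_hasDerivAt (0 : ℝ) (hline _ (evv v X) (fun i => 2 * c * k i))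
  exact hL.unique (hR.congr_of_eventuallyEq hev)

end Pool.Agent.ZR.BL

end

section

/-!
# ZR/F4 : derivatives of `q = Q_xy + (z + m) G_xy` and the trapezoid remainder

`dGm, dmz, dqf` are the derivatives of `G, m, q` in the direction `Y`; `PsiF p q = q^(p-1) q̄^p`,
`dPsi p q d` its (real) differential in the direction `d`.

`rem_q`.  Let `B(s) = B + s Y`, `e = 2 Γ sp1(Y) ≤ 1`.  Jets (`jetE`, `jetM` of C5, bounds of C6) for
`s ∈ [0,1]`: `|G_ab^{(r)}(s)| ≤ 2Γ r! e^r`, `|m^{(r)}(s)| ≤ r! e^r` for `r ≥ 1` (`N|Im z| ≥ 1`),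
`|m(s)| ≤ 2Γ` (average of the diagonal entries).  With `q(s) = Q_xy + (z+m)G_xy`:
`|q'| ≤ e·2Γ + (‖z‖+2Γ)2Γe ≤ A e`, `|q''| ≤ 2e²·2Γ + 2e·2Γe + (‖z‖+2Γ)·2Γ·2e² ≤ A e²` with
`A = 8Γ(1+‖z‖+2Γ)`.  `f(s) = g(s) PsiF p (q(s))`, `g(s) = G_uy(s)`.  `p ≥ 2`.
`|f''| ≤ |g''||q|^{2p-1} + 2|g'|(2p-1)|q|^{2p-2}|q'| + |g|((2p-1)|q|^{2p-2}|q''| + (2p-1)(2p-2)|q|^{2p-3}|q'|²)`
`≤ 100 p² Γ A² e² ρ^{2p-3}(1+ρ)²` with `ρ = ‖q(0)‖ + A e ≥ |q(s)|` (`A ≥ 1`, `Γ ≥ 1`).
Apply `trap2` (C7); `f'(0) = df(B)[Y]` and `f'(1) = df(B+Y)[Y]`.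
Second derivative of `PsiF`: differentiate `q^(p-1) (conj q)^p` twice in `s` (product rule).

`bd_dq`: for a symmetric direction `Y` with `PB Q Y`: `|dqf| ≤ sp1(Y)(Γ/(N|Im z|)·Γ + (‖z‖+Γ)Γ²)
≤ sp1(Y) Γ³ (2 + ‖z‖)` for `Γ ≥ 1`, `N|Im z| ≥ 1` (`dmz = -(1/N) tr(G² Y)`, `sq_bd`).
-/


open MeasureTheory ProbabilityTheory Matrix

namespace Pool.Agent.ZR.F

variable {N : ℕ}

/-- derivative of `G` in the direction `Y` -/
noncomputable def dGm (Q B Y : Matrix (Fin N) (Fin N) ℝ) (z : ℂ) : Matrix (Fin N) (Fin N) ℂ :=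
  - (Gz Q B z * toC Y * Gz Q B z)

/-- derivative of `m` in the direction `Y` -/
noncomputable def dmz (Q B Y : Matrix (Fin N) (Fin N) ℝ) (z : ℂ) : ℂ :=
  (1 / (N : ℂ)) * (dGm Q B Y z).trace

/-- `q = Q_xy + (z + m) G_xy = (B G)_xy + m G_xy` -/
noncomputable def qf (Q B : Matrix (Fin N) (Fin N) ℝ) (z : ℂ) (x y : Fin N) : ℂ :=
  (Q x y : ℂ) + (z + mz Q B z) * Gz Q B z x y

/-- derivative of `q` in the direction `Y` -/
noncomputable def dqf (Q B Y : Matrix (Fin N) (Fin N) ℝ) (z : ℂ) (x y : Fin N) : ℂ :=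
  dmz Q B Y z * Gz Q B z x y + (z + mz Q B z) * dGm Q B Y z x y

/-- `q^(p-1) q̄^p` -/
noncomputable def PsiF (p : ℕ) (q : ℂ) : ℂ := q ^ (p - 1) * (starRingEnd ℂ q) ^ p

/-- differential of `PsiF` -/
noncomputable def dPsi (p : ℕ) (q d : ℂ) : ℂ :=
  ((p - 1 : ℕ) : ℂ) * q ^ (p - 2) * (starRingEnd ℂ q) ^ p * d
    + (p : ℂ) * q ^ (p - 1) * (starRingEnd ℂ q) ^ (p - 1) * starRingEnd ℂ d

variable {Q B Y : Matrix (Fin N) (Fin N) ℝ}

theorem q_psi (p : ℕ) (hp : 1 ≤ p) (q : ℂ) : q * PsiF p q = ((‖q‖ ^ (2 * p) : ℝ) : ℂ) := by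
  unfold PsiF
  obtain ⟨r, rfl⟩ : ∃ r, p = r + 1 := ⟨p - 1, by omega⟩
  rw [Nat.add_sub_cancel]
  have h1 : q * (q ^ r * (starRingEnd ℂ q) ^ (r + 1)) = (q * starRingEnd ℂ q) ^ (r + 1) := by
    rw [mul_pow, pow_succ' q r]; ring
  rw [h1, Complex.mul_conj, Complex.normSq_eq_norm_sq]
  push_cast
  rw [← pow_mul]

theorem norm_psi (p : ℕ) (hp : 1 ≤ p) (q : ℂ) : ‖PsiF p q‖ = ‖q‖ ^ (2 * p - 1) := by
  unfold PsiF
  rw [norm_mul, norm_pow, norm_pow, Complex.norm_conj, ← pow_add]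
  congr 1
  omega

theorem norm_dpsi (p : ℕ) (hp : 2 ≤ p) (q d : ℂ) : ‖dPsi p q d‖ ≤ 2 * p * ‖q‖ ^ (2 * p - 2) * ‖d‖ := by
  unfold dPsi
  refine (norm_add_le _ _).trans ?_
  rw [norm_mul, norm_mul, norm_mul, norm_mul, norm_mul, norm_mul, norm_pow, norm_pow, norm_pow,
    norm_pow, Complex.norm_conj, Complex.norm_conj, Complex.norm_natCast, Complex.norm_natCast]
  have e1 : ((p - 1 : ℕ) : ℝ) * ‖q‖ ^ (p - 2) * ‖q‖ ^ p * ‖d‖
      = ((p - 1 : ℕ) : ℝ) * ‖q‖ ^ (2 * p - 2) * ‖d‖ := by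
    rw [mul_assoc ((p - 1 : ℕ) : ℝ), ← pow_add]
    congr 3
    omega
  have e2 : (p : ℝ) * ‖q‖ ^ (p - 1) * ‖q‖ ^ (p - 1) * ‖d‖
      = (p : ℝ) * ‖q‖ ^ (2 * p - 2) * ‖d‖ := by
    rw [mul_assoc (p : ℝ), ← pow_add]
    congr 3
    omega
  rw [e1, e2]
  have h1 : ((p - 1 : ℕ) : ℝ) ≤ (p : ℝ) := by exact_mod_cast Nat.sub_le p 1
  have h2 : 0 ≤ ‖q‖ ^ (2 * p - 2) * ‖d‖ := by positivity
  nlinarith [mul_le_mul_of_nonneg_right h1 h2]

private theorem dGm_smul_mat (c : ℝ) (z : ℂ) :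
    dGm Q B (c • Y) z = (c : ℂ) • dGm Q B Y z := by
  unfold dGm
  have h : toC (c • Y) = (c : ℂ) • toC Y := by
    ext i j
    simp [toC]
  rw [h, Matrix.mul_smul, Matrix.smul_mul, smul_neg]

theorem dqf_smul (c : ℝ) (z : ℂ) (x y : Fin N) :
    dqf Q B (c • Y) z x y = (c : ℂ) * dqf Q B Y z x y := by
  unfold dqf dmz
  rw [dGm_smul_mat, Matrix.trace_smul, Matrix.smul_apply, smul_eq_mul, smul_eq_mul]
  ring

theorem dGm_smul (c : ℝ) (z : ℂ) (x y : Fin N) :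
    dGm Q B (c • Y) z x y = (c : ℂ) * dGm Q B Y z x y := by
  rw [dGm_smul_mat, Matrix.smul_apply, smul_eq_mul]

theorem dPsi_smul (p : ℕ) (q d : ℂ) (c : ℝ) : dPsi p q ((c : ℂ) * d) = (c : ℂ) * dPsi p q d := by
  unfold dPsi
  rw [map_mul, Complex.conj_ofReal]
  ring

/-- `q = (B G)_xy + m G_xy` -/
theorem qf_eq (hB : PB Q B) (z : ℂ) (hz : z.im ≠ 0) (x y : Fin N) :
    qf Q B z x y = (toC B * Gz Q B z) x y + mz Q B z * Gz Q B z x y := by
  rw [gz_eq hB z hz, Matrix.add_apply, Matrix.smul_apply, smul_eq_mul]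
  unfold qf
  have h : toC Q x y = (Q x y : ℂ) := rfl
  rw [h]
  ring

private theorem trace_bd4 {A : Matrix (Fin N) (Fin N) ℂ} {a : ℝ} (hA : EnLe A a)
    (Y : Matrix (Fin N) (Fin N) ℝ) : ‖(A * toC Y).trace‖ ≤ a * sp1 Y := by
  have h1 : (A * toC Y).trace = ∑ x, ∑ u, A x u * ((Y u x : ℝ) : ℂ) := by
    unfold Matrix.trace
    refine Finset.sum_congr rfl fun x _ => ?_
    rw [Matrix.diag_apply, Matrix.mul_apply]
    rfl
  rw [h1]
  have h2 : ‖∑ x, ∑ u, A x u * ((Y u x : ℝ) : ℂ)‖ ≤ ∑ x, ∑ u, a * |Y u x| := by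
    refine (norm_sum_le _ _).trans (Finset.sum_le_sum fun v _ => ?_)
    refine (norm_sum_le _ _).trans (Finset.sum_le_sum fun u _ => ?_)
    rw [norm_mul, Complex.norm_real, Real.norm_eq_abs]
    exact mul_le_mul_of_nonneg_right (hA v u) (abs_nonneg _)
  refine h2.trans (le_of_eq ?_)
  unfold sp1
  rw [Finset.sum_comm]
  simp only [Finset.mul_sum]

/-- average of the diagonal entries -/
private theorem mz_bd4 {G : ℝ} (z : ℂ) (hG0 : 0 ≤ G) (hG : EnLe (Gz Q B z) G) :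
    ‖mz Q B z‖ ≤ G := by
  unfold mz
  rw [norm_mul, norm_div, norm_one, Complex.norm_natCast]
  have h1 : ‖(Gz Q B z).trace‖ ≤ N * G := by
    unfold Matrix.trace
    refine (norm_sum_le _ _).trans ?_
    calc ∑ i : Fin N, ‖(Gz Q B z).diag i‖ ≤ ∑ _i : Fin N, G :=
          Finset.sum_le_sum fun i _ => hG i i
      _ = N * G := by simp
  rcases Nat.eq_zero_or_pos N with h0 | h0
  · subst h0
    simp [Matrix.trace, hG0]
  · have hN : (0 : ℝ) < N := by exact_mod_cast h0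
    calc 1 / (N : ℝ) * ‖(Gz Q B z).trace‖ ≤ 1 / (N : ℝ) * (N * G) :=
          mul_le_mul_of_nonneg_left h1 (by positivity)
      _ = G := by field_simp

theorem bd_dq (hB : PB Q B) (hY : PB Q Y) (z : ℂ) (hz : z.im ≠ 0) (Γ : ℝ) (hΓ : 1 ≤ Γ)
    (hG : EnLe (Gz Q B z) Γ) (hN : 1 ≤ N * |z.im|) (x y : Fin N) :
    ‖dqf Q B Y z x y‖ ≤ sp1 Y * Γ ^ 3 * (2 + ‖z‖) := by
  have hΓ0 : 0 ≤ Γ := by linarith
  have hS := sp1_nonneg Y
  have hm := mz_bd4 z hΓ0 hG
  have h1 : ‖dGm Q B Y z x y‖ ≤ Γ * sp1 Y * Γ := by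
    unfold dGm
    rw [Matrix.neg_apply, norm_neg]
    exact sparse_entry hG hG hΓ0 hΓ0 Y x y
  have h2 : ‖dmz Q B Y z‖ ≤ Γ * sp1 Y := by
    unfold dmz dGm
    have e1 : (Gz Q B z * toC Y * Gz Q B z).trace = (Gz Q B z ^ 2 * toC Y).trace := by
      rw [Matrix.trace_mul_comm, pow_two, Matrix.mul_assoc]
    rw [Matrix.trace_neg, e1, norm_mul, norm_neg, norm_div, norm_one, Complex.norm_natCast]
    have h3 := trace_bd4 (sq_bd hB z hz Γ hΓ0 hG) Y
    have hzp : 0 < |z.im| := abs_pos.2 hz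
    have hNp : (0 : ℝ) < N := by
      by_contra hcon
      have : (N : ℝ) * |z.im| ≤ 0 := mul_nonpos_of_nonpos_of_nonneg (not_lt.1 hcon) hzp.le
      linarith
    calc 1 / (N : ℝ) * ‖(Gz Q B z ^ 2 * toC Y).trace‖
        ≤ 1 / (N : ℝ) * (Γ / |z.im| * sp1 Y) := mul_le_mul_of_nonneg_left h3 (by positivity)
      _ = Γ * sp1 Y / (N * |z.im|) := by field_simp
      _ ≤ Γ * sp1 Y / 1 := div_le_div_of_nonneg_left (by positivity) one_pos hN
      _ = Γ * sp1 Y := div_one _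
  unfold dqf
  refine (norm_add_le _ _).trans ?_
  rw [norm_mul, norm_mul]
  have h4 : ‖z + mz Q B z‖ ≤ ‖z‖ + Γ := (norm_add_le _ _).trans (by linarith)
  have h5 : ‖dmz Q B Y z‖ * ‖Gz Q B z x y‖ ≤ Γ * sp1 Y * Γ :=
    mul_le_mul h2 (hG x y) (norm_nonneg _) (by positivity)
  have h6 : ‖z + mz Q B z‖ * ‖dGm Q B Y z x y‖ ≤ (‖z‖ + Γ) * (Γ * sp1 Y * Γ) :=
    mul_le_mul h4 h1 (norm_nonneg _) (by positivity)
  have h7 : 1 + ‖z‖ + Γ ≤ Γ * (2 + ‖z‖) := by
    nlinarith [norm_nonneg z, mul_le_mul_of_nonneg_right hΓ (norm_nonneg z)]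
  calc ‖dmz Q B Y z‖ * ‖Gz Q B z x y‖ + ‖z + mz Q B z‖ * ‖dGm Q B Y z x y‖
      ≤ Γ * sp1 Y * Γ + (‖z‖ + Γ) * (Γ * sp1 Y * Γ) := add_le_add h5 h6
    _ = sp1 Y * Γ ^ 2 * (1 + ‖z‖ + Γ) := by ring
    _ ≤ sp1 Y * Γ ^ 2 * (Γ * (2 + ‖z‖)) := mul_le_mul_of_nonneg_left h7 (by positivity)
    _ = sp1 Y * Γ ^ 3 * (2 + ‖z‖) := by ring

private theorem jetE_one4 (x y : Fin N) (z : ℂ) (s : ℝ) :
    jetE Q B Y z x y 1 s = dGm Q (B + s • Y) Y z x y := by
  simp [jetE, dGm]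

private theorem jetM_one4 (z : ℂ) (s : ℝ) : jetM Q B Y z 1 s = dmz Q (B + s • Y) Y z := by
  simp [jetM, dmz, dGm]

/-- chain rule: `q` and `PsiF p q` along `B + s Y` -/
theorem hasDeriv_q (hB : PB Q B) (hY : PB Q Y) (z : ℂ) (hz : z.im ≠ 0) (x y : Fin N) (s : ℝ) :
    HasDerivAt (fun s : ℝ => qf Q (B + s • Y) z x y) (dqf Q (B + s • Y) Y z x y) s := by
  have h1 := jet_entry hB hY z hz x y 0 s
  have h2 := jet_mz hB hY z hz 0 s
  have h3 := ((h2.const_add z).mul h1).const_add ((Q x y : ℝ) : ℂ)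
  rw [zero_add, jetE_one4, jetM_one4, jetE_zero, jetM_zero] at h3
  have e1 : (fun s : ℝ => qf Q (B + s • Y) z x y) = fun s : ℝ =>
      ((Q x y : ℝ) : ℂ) + ((fun s : ℝ => z + jetM Q B Y z 0 s) * jetE Q B Y z x y 0) s := by
    funext t
    rw [Pi.mul_apply, jetE_zero, jetM_zero]
    rfl
  rw [e1]
  exact h3

theorem hasDeriv_psi (p : ℕ) (q : ℝ → ℂ) (d : ℂ) (s : ℝ) (hq : HasDerivAt q d s) :
    HasDerivAt (fun s : ℝ => PsiF p (q s)) (dPsi p (q s) d) s := by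
  unfold PsiF dPsi
  have h1 : HasDerivAt (fun s : ℝ => starRingEnd ℂ (q s)) (starRingEnd ℂ d) s := hq.star
  have h2 := (hq.fun_pow (p - 1)).fun_mul (h1.fun_pow p)
  refine h2.congr_deriv ?_
  have e : p - 1 - 1 = p - 2 := by omega
  rw [e]
  ring

/-- second derivative of `PsiF` -/
private noncomputable def ddPsi (p : ℕ) (q d dd : ℂ) : ℂ :=
  ((p - 1 : ℕ) : ℂ) * ((((p - 2 : ℕ) : ℂ) * q ^ (p - 3) * d) * (starRingEnd ℂ q) ^ p
      + q ^ (p - 2) * ((p : ℂ) * (starRingEnd ℂ q) ^ (p - 1) * starRingEnd ℂ d)) * d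
    + ((p - 1 : ℕ) : ℂ) * q ^ (p - 2) * (starRingEnd ℂ q) ^ p * dd
    + ((p : ℂ) * ((((p - 1 : ℕ) : ℂ) * q ^ (p - 2) * d) * (starRingEnd ℂ q) ^ (p - 1)
      + q ^ (p - 1) * (((p - 1 : ℕ) : ℂ) * (starRingEnd ℂ q) ^ (p - 2) * starRingEnd ℂ d))
        * starRingEnd ℂ d
    + (p : ℂ) * q ^ (p - 1) * (starRingEnd ℂ q) ^ (p - 1) * starRingEnd ℂ dd)

private theorem hasDeriv_dpsi (p : ℕ) (q d : ℝ → ℂ) (dd : ℂ) (s : ℝ) (hq : HasDerivAt q (d s) s)
    (hd : HasDerivAt d dd s) :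
    HasDerivAt (fun s : ℝ => dPsi p (q s) (d s)) (ddPsi p (q s) (d s) dd) s := by
  unfold dPsi ddPsi
  have hqb : HasDerivAt (fun s : ℝ => starRingEnd ℂ (q s)) (starRingEnd ℂ (d s)) s := hq.star
  have hdb : HasDerivAt (fun s : ℝ => starRingEnd ℂ (d s)) (starRingEnd ℂ dd) s := hd.star
  have h1 := (((hq.fun_pow (p - 2)).const_mul ((p - 1 : ℕ) : ℂ)).fun_mul (hqb.fun_pow p)).fun_mul hd
  have h2 := (((hq.fun_pow (p - 1)).const_mul (p : ℂ)).fun_mul (hqb.fun_pow (p - 1))).fun_mul hdb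
  refine (h1.fun_add h2).congr_deriv ?_
  have e : p - 1 - 1 = p - 2 := by omega
  have e' : p - 2 - 1 = p - 3 := by omega
  rw [e, e']
  ring

private theorem pow_mul_le4 {a r : ℝ} (ha : 0 ≤ a) (har : a ≤ r) (i j k : ℕ) (h : i + j = k) :
    a ^ i * a ^ j ≤ r ^ k := by
  rw [← pow_add, h]
  exact pow_le_pow_left₀ ha har k

private theorem norm_ddpsi (p : ℕ) (hp : 2 ≤ p) (q d dd : ℂ) (r D E : ℝ) (hq : ‖q‖ ≤ r)
    (hd : ‖d‖ ≤ D) (hdd : ‖dd‖ ≤ E) :
    ‖ddPsi p q d dd‖ ≤ 4 * (p : ℝ) ^ 2 * r ^ (2 * p - 3) * D ^ 2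
      + 2 * p * r ^ (2 * p - 2) * E := by
  have hr : 0 ≤ r := (norm_nonneg _).trans hq
  have hD : 0 ≤ D := (norm_nonneg _).trans hd
  have hE : 0 ≤ E := (norm_nonneg _).trans hdd
  have hn1 : ((p - 1 : ℕ) : ℝ) ≤ p := by exact_mod_cast Nat.sub_le p 1
  have hn2 : ((p - 2 : ℕ) : ℝ) ≤ p := by exact_mod_cast Nat.sub_le p 2
  have hqn := norm_nonneg q
  have hdn := norm_nonneg d
  have hddn := norm_nonneg dd
  have hpp : (0 : ℝ) ≤ p := Nat.cast_nonneg p
  -- the two bounds with the `D ^ 2` terms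
  have t1 : ‖((p - 1 : ℕ) : ℂ) * ((((p - 2 : ℕ) : ℂ) * q ^ (p - 3) * d) * (starRingEnd ℂ q) ^ p
      + q ^ (p - 2) * ((p : ℂ) * (starRingEnd ℂ q) ^ (p - 1) * starRingEnd ℂ d)) * d‖
      ≤ 2 * (p : ℝ) ^ 2 * r ^ (2 * p - 3) * D ^ 2 := by
    rw [norm_mul, norm_mul, Complex.norm_natCast]
    have a1 : ‖(((p - 2 : ℕ) : ℂ) * q ^ (p - 3) * d) * (starRingEnd ℂ q) ^ p‖
        ≤ p * r ^ (2 * p - 3) * D := by
      rw [norm_mul, norm_mul, norm_mul, norm_pow, norm_pow, Complex.norm_conj,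
        Complex.norm_natCast]
      rcases Nat.lt_or_ge 2 p with h3 | h3
      · have b1 := pow_mul_le4 hqn hq (p - 3) p (2 * p - 3) (by omega)
        calc ((p - 2 : ℕ) : ℝ) * ‖q‖ ^ (p - 3) * ‖d‖ * ‖q‖ ^ p
            = ((p - 2 : ℕ) : ℝ) * (‖q‖ ^ (p - 3) * ‖q‖ ^ p) * ‖d‖ := by ring
          _ ≤ p * r ^ (2 * p - 3) * D := by gcongr
      · have h4 : p - 2 = 0 := by omega
        rw [h4]
        simp only [Nat.cast_zero, zero_mul]
        positivity
    have a2 : ‖q ^ (p - 2) * ((p : ℂ) * (starRingEnd ℂ q) ^ (p - 1) * starRingEnd ℂ d)‖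
        ≤ p * r ^ (2 * p - 3) * D := by
      rw [norm_mul, norm_mul, norm_mul, norm_pow, norm_pow, Complex.norm_conj, Complex.norm_conj,
        Complex.norm_natCast]
      have b1 := pow_mul_le4 hqn hq (p - 2) (p - 1) (2 * p - 3) (by omega)
      calc ‖q‖ ^ (p - 2) * (p * ‖q‖ ^ (p - 1) * ‖d‖)
          = p * (‖q‖ ^ (p - 2) * ‖q‖ ^ (p - 1)) * ‖d‖ := by ring
        _ ≤ p * r ^ (2 * p - 3) * D := by gcongr
    have a3 := (norm_add_le _ _).trans (add_le_add a1 a2)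
    calc ((p - 1 : ℕ) : ℝ) * ‖(((p - 2 : ℕ) : ℂ) * q ^ (p - 3) * d) * (starRingEnd ℂ q) ^ p
        + q ^ (p - 2) * ((p : ℂ) * (starRingEnd ℂ q) ^ (p - 1) * starRingEnd ℂ d)‖ * ‖d‖
        ≤ p * (p * r ^ (2 * p - 3) * D + p * r ^ (2 * p - 3) * D) * D := by gcongr
      _ = 2 * (p : ℝ) ^ 2 * r ^ (2 * p - 3) * D ^ 2 := by ring
  have t3 : ‖(p : ℂ) * ((((p - 1 : ℕ) : ℂ) * q ^ (p - 2) * d) * (starRingEnd ℂ q) ^ (p - 1)
      + q ^ (p - 1) * (((p - 1 : ℕ) : ℂ) * (starRingEnd ℂ q) ^ (p - 2) * starRingEnd ℂ d))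
        * starRingEnd ℂ d‖ ≤ 2 * (p : ℝ) ^ 2 * r ^ (2 * p - 3) * D ^ 2 := by
    rw [norm_mul, norm_mul, Complex.norm_natCast, Complex.norm_conj]
    have a1 : ‖(((p - 1 : ℕ) : ℂ) * q ^ (p - 2) * d) * (starRingEnd ℂ q) ^ (p - 1)‖
        ≤ p * r ^ (2 * p - 3) * D := by
      rw [norm_mul, norm_mul, norm_mul, norm_pow, norm_pow, Complex.norm_conj,
        Complex.norm_natCast]
      have b1 := pow_mul_le4 hqn hq (p - 2) (p - 1) (2 * p - 3) (by omega)
      calc ((p - 1 : ℕ) : ℝ) * ‖q‖ ^ (p - 2) * ‖d‖ * ‖q‖ ^ (p - 1)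
          = ((p - 1 : ℕ) : ℝ) * (‖q‖ ^ (p - 2) * ‖q‖ ^ (p - 1)) * ‖d‖ := by ring
        _ ≤ p * r ^ (2 * p - 3) * D := by gcongr
    have a2 : ‖q ^ (p - 1) * (((p - 1 : ℕ) : ℂ) * (starRingEnd ℂ q) ^ (p - 2) * starRingEnd ℂ d)‖
        ≤ p * r ^ (2 * p - 3) * D := by
      rw [norm_mul, norm_mul, norm_mul, norm_pow, norm_pow, Complex.norm_conj, Complex.norm_conj,
        Complex.norm_natCast]
      have b1 := pow_mul_le4 hqn hq (p - 1) (p - 2) (2 * p - 3) (by omega)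
      calc ‖q‖ ^ (p - 1) * (((p - 1 : ℕ) : ℝ) * ‖q‖ ^ (p - 2) * ‖d‖)
          = ((p - 1 : ℕ) : ℝ) * (‖q‖ ^ (p - 1) * ‖q‖ ^ (p - 2)) * ‖d‖ := by ring
        _ ≤ p * r ^ (2 * p - 3) * D := by gcongr
    have a3 := (norm_add_le _ _).trans (add_le_add a1 a2)
    calc (p : ℝ) * ‖(((p - 1 : ℕ) : ℂ) * q ^ (p - 2) * d) * (starRingEnd ℂ q) ^ (p - 1)
        + q ^ (p - 1) * (((p - 1 : ℕ) : ℂ) * (starRingEnd ℂ q) ^ (p - 2) * starRingEnd ℂ d)‖ * ‖d‖
        ≤ p * (p * r ^ (2 * p - 3) * D + p * r ^ (2 * p - 3) * D) * D := by gcongr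
      _ = 2 * (p : ℝ) ^ 2 * r ^ (2 * p - 3) * D ^ 2 := by ring
  have t2 : ‖((p - 1 : ℕ) : ℂ) * q ^ (p - 2) * (starRingEnd ℂ q) ^ p * dd‖
      ≤ p * r ^ (2 * p - 2) * E := by
    rw [norm_mul, norm_mul, norm_mul, norm_pow, norm_pow, Complex.norm_conj, Complex.norm_natCast]
    have b1 := pow_mul_le4 hqn hq (p - 2) p (2 * p - 2) (by omega)
    calc ((p - 1 : ℕ) : ℝ) * ‖q‖ ^ (p - 2) * ‖q‖ ^ p * ‖dd‖
        = ((p - 1 : ℕ) : ℝ) * (‖q‖ ^ (p - 2) * ‖q‖ ^ p) * ‖dd‖ := by ring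
      _ ≤ p * r ^ (2 * p - 2) * E := by gcongr
  have t4 : ‖(p : ℂ) * q ^ (p - 1) * (starRingEnd ℂ q) ^ (p - 1) * starRingEnd ℂ dd‖
      ≤ p * r ^ (2 * p - 2) * E := by
    rw [norm_mul, norm_mul, norm_mul, norm_pow, norm_pow, Complex.norm_conj, Complex.norm_conj,
      Complex.norm_natCast]
    have b1 := pow_mul_le4 hqn hq (p - 1) (p - 1) (2 * p - 2) (by omega)
    calc (p : ℝ) * ‖q‖ ^ (p - 1) * ‖q‖ ^ (p - 1) * ‖dd‖
        = (p : ℝ) * (‖q‖ ^ (p - 1) * ‖q‖ ^ (p - 1)) * ‖dd‖ := by ring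
      _ ≤ p * r ^ (2 * p - 2) * E := by gcongr
  unfold ddPsi
  refine (norm_add_le _ _).trans ?_
  refine (add_le_add ((norm_add_le _ _).trans (add_le_add t1 t2))
    ((norm_add_le _ _).trans (add_le_add t3 t4))).trans (le_of_eq ?_)
  ring

/-- the trapezoid bound with abstract jets -/
private theorem trap_abs (g0 g1 g2 q0 q1 q2 : ℝ → ℂ) (hg0 : ∀ s, HasDerivAt g0 (g1 s) s)
    (hg1 : ∀ s, HasDerivAt g1 (g2 s) s) (hq0 : ∀ s, HasDerivAt q0 (q1 s) s)
    (hq1 : ∀ s, HasDerivAt q1 (q2 s) s) (p : ℕ) (hp : 2 ≤ p) (G A e ρ : ℝ) (hG : 0 ≤ G)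
    (hA : 1 ≤ A) (he : 0 ≤ e)
    (bg0 : ∀ s ∈ Set.Icc (0 : ℝ) 1, ‖g0 s‖ ≤ 2 * G)
    (bg1 : ∀ s ∈ Set.Icc (0 : ℝ) 1, ‖g1 s‖ ≤ 2 * G * e)
    (bg2 : ∀ s ∈ Set.Icc (0 : ℝ) 1, ‖g2 s‖ ≤ 4 * G * e ^ 2)
    (bq0 : ∀ s ∈ Set.Icc (0 : ℝ) 1, ‖q0 s‖ ≤ ρ)
    (bq1 : ∀ s ∈ Set.Icc (0 : ℝ) 1, ‖q1 s‖ ≤ A * e)
    (bq2 : ∀ s ∈ Set.Icc (0 : ℝ) 1, ‖q2 s‖ ≤ A * e ^ 2) :
    ‖g0 1 * PsiF p (q0 1) - g0 0 * PsiF p (q0 0)
      - ((g1 0 * PsiF p (q0 0) + g0 0 * dPsi p (q0 0) (q1 0))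
          + (g1 1 * PsiF p (q0 1) + g0 1 * dPsi p (q0 1) (q1 1))) / 2‖
      ≤ 100 * (p : ℝ) ^ 2 * G * A ^ 2 * e ^ 2 * ρ ^ (2 * p - 3) * (1 + ρ) ^ 2 := by
  have key := trap2 (fun s => g0 s * PsiF p (q0 s))
    (fun s => g1 s * PsiF p (q0 s) + g0 s * dPsi p (q0 s) (q1 s))
    (fun s => (g2 s * PsiF p (q0 s) + g1 s * dPsi p (q0 s) (q1 s))
      + (g1 s * dPsi p (q0 s) (q1 s) + g0 s * ddPsi p (q0 s) (q1 s) (q2 s)))
    (fun s => (hg0 s).fun_mul (hasDeriv_psi p q0 (q1 s) s (hq0 s)))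
    (fun s => ((hg1 s).fun_mul (hasDeriv_psi p q0 (q1 s) s (hq0 s))).fun_add
      ((hg0 s).fun_mul (hasDeriv_dpsi p q0 q1 (q2 s) s (hq0 s) (hq1 s))))
    (100 * (p : ℝ) ^ 2 * G * A ^ 2 * e ^ 2 * ρ ^ (2 * p - 3) * (1 + ρ) ^ 2) ?_
  · exact key
  intro s hs
  have b0 := bq0 s hs
  have hρ : 0 ≤ ρ := (norm_nonneg _).trans b0
  have hA0 : 0 ≤ A := by linarith
  have hp1 : (2 : ℝ) ≤ p := by exact_mod_cast hp
  have hp0 : (0 : ℝ) ≤ p := by linarith
  -- powers of rho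
  have r1 : ρ ^ (2 * p - 1) = ρ ^ (2 * p - 3) * ρ ^ 2 := by
    rw [← pow_add]; congr 1; omega
  have r2 : ρ ^ (2 * p - 2) = ρ ^ (2 * p - 3) * ρ := by
    rw [← pow_succ]; congr 1; omega
  have c1 : ‖PsiF p (q0 s)‖ ≤ ρ ^ (2 * p - 3) * ρ ^ 2 := by
    rw [norm_psi p (by omega), ← r1]
    exact pow_le_pow_left₀ (norm_nonneg _) b0 _
  have c2 : ‖dPsi p (q0 s) (q1 s)‖ ≤ 2 * p * (ρ ^ (2 * p - 3) * ρ) * (A * e) := by
    refine (norm_dpsi p hp _ _).trans ?_
    have h1 : ‖q0 s‖ ^ (2 * p - 2) ≤ ρ ^ (2 * p - 3) * ρ := by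
      rw [← r2]
      exact pow_le_pow_left₀ (norm_nonneg _) b0 _
    have h2 := bq1 s hs
    gcongr
  have c3 := norm_ddpsi p hp (q0 s) (q1 s) (q2 s) ρ (A * e) (A * e ^ 2) b0 (bq1 s hs) (bq2 s hs)
  rw [r2] at c3
  have R := pow_nonneg hρ (2 * p - 3)
  set T := ρ ^ (2 * p - 3) with hT
  have d1 : ‖g2 s * PsiF p (q0 s)‖ ≤ 4 * G * e ^ 2 * (T * ρ ^ 2) := by
    rw [norm_mul]
    exact mul_le_mul (bg2 s hs) c1 (norm_nonneg _) (by positivity)
  have d2 : ‖g1 s * dPsi p (q0 s) (q1 s)‖ ≤ 2 * G * e * (2 * p * (T * ρ) * (A * e)) := by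
    rw [norm_mul]
    exact mul_le_mul (bg1 s hs) c2 (norm_nonneg _) (by positivity)
  have d3 : ‖g0 s * ddPsi p (q0 s) (q1 s) (q2 s)‖
      ≤ 2 * G * (4 * (p : ℝ) ^ 2 * T * (A * e) ^ 2 + 2 * p * (T * ρ) * (A * e ^ 2)) := by
    rw [norm_mul]
    exact mul_le_mul (bg0 s hs) c3 (norm_nonneg _) (by positivity)
  have d4 := (norm_add_le (g2 s * PsiF p (q0 s)) (g1 s * dPsi p (q0 s) (q1 s))).trans
    (add_le_add d1 d2)
  have d5 := (norm_add_le (g1 s * dPsi p (q0 s) (q1 s))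
    (g0 s * ddPsi p (q0 s) (q1 s) (q2 s))).trans (add_le_add d2 d3)
  refine (norm_add_le _ _).trans ((add_le_add d4 d5).trans ?_)
  have e1 : 4 * G * e ^ 2 * (T * ρ ^ 2) + 2 * G * e * (2 * p * (T * ρ) * (A * e))
      + (2 * G * e * (2 * p * (T * ρ) * (A * e))
        + 2 * G * (4 * (p : ℝ) ^ 2 * T * (A * e) ^ 2 + 2 * p * (T * ρ) * (A * e ^ 2)))
      = (G * e ^ 2 * T) * (4 * ρ ^ 2 + 12 * (p * A) * ρ + 8 * (p * A) ^ 2) := by ring
  have e2 : 100 * (p : ℝ) ^ 2 * G * A ^ 2 * e ^ 2 * T * (1 + ρ) ^ 2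
      = (G * e ^ 2 * T) * (100 * (p * A) ^ 2 * (1 + ρ) ^ 2) := by ring
  rw [e1, e2]
  refine mul_le_mul_of_nonneg_left ?_ (by positivity)
  have hk : 1 ≤ (p : ℝ) * A := by nlinarith
  generalize (p : ℝ) * A = k at hk ⊢
  have hk2 : k ≤ k ^ 2 := by nlinarith
  have hk3 : 1 ≤ k ^ 2 := by nlinarith
  have f1 : ρ ^ 2 ≤ k ^ 2 * ρ ^ 2 := by nlinarith [sq_nonneg ρ]
  have f2 : k * ρ ≤ k ^ 2 * ρ := by nlinarith
  have f3 : 0 ≤ k ^ 2 * ρ ^ 2 := by positivity
  have f4 : 0 ≤ k ^ 2 * ρ := by positivity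
  nlinarith

theorem rem_q (hB : PB Q B) (hY : PB Q Y) (z : ℂ) (hz : z.im ≠ 0) (Γ : ℝ) (hΓ : 1 ≤ Γ)
    (hG : EnLe (Gz Q B z) Γ) (hs : sp1 Y * Γ ≤ 1 / 2) (hN : 1 ≤ N * |z.im|) (p : ℕ) (hp : 2 ≤ p)
    (u x y : Fin N) :
    ‖Gz Q (B + Y) z u y * PsiF p (qf Q (B + Y) z x y) - Gz Q B z u y * PsiF p (qf Q B z x y)
      - ((dGm Q B Y z u y * PsiF p (qf Q B z x y)
            + Gz Q B z u y * dPsi p (qf Q B z x y) (dqf Q B Y z x y))
          + (dGm Q (B + Y) Y z u y * PsiF p (qf Q (B + Y) z x y)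
            + Gz Q (B + Y) z u y * dPsi p (qf Q (B + Y) z x y) (dqf Q (B + Y) Y z x y))) / 2‖
      ≤ 100 * (p : ℝ) ^ 2 * Γ * (8 * Γ * (1 + ‖z‖ + 2 * Γ)) ^ 2 * (2 * Γ * sp1 Y) ^ 2
        * (‖qf Q B z x y‖ + 8 * Γ * (1 + ‖z‖ + 2 * Γ) * (2 * Γ * sp1 Y)) ^ (2 * p - 3)
        * (1 + ‖qf Q B z x y‖ + 8 * Γ * (1 + ‖z‖ + 2 * Γ) * (2 * Γ * sp1 Y)) ^ 2 := by
  have hΓ0 : 0 ≤ Γ := by linarith
  have hS := sp1_nonneg Y
  have hzn := norm_nonneg z
  have hzp : 0 < |z.im| := abs_pos.2 hz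
  set e := 2 * Γ * sp1 Y with he
  set A := 8 * Γ * (1 + ‖z‖ + 2 * Γ) with hA
  have he0 : 0 ≤ e := by positivity
  have hA1 : 1 ≤ A := by nlinarith [mul_nonneg hΓ0 hzn]
  -- jets
  have hab : ∀ s ∈ Set.Icc (0 : ℝ) 1, |s| ≤ 1 := fun s h => by
    rw [abs_of_nonneg h.1]; exact h.2
  have jE : ∀ (a b : Fin N) (s : ℝ), s ∈ Set.Icc (0 : ℝ) 1 → ∀ r : ℕ,
      ‖jetE Q B Y z a b r s‖ ≤ 2 * Γ * r.factorial * e ^ r := fun a b s h r =>
    jetE_bd hB hY z hz Γ hΓ0 hG hs s (hab s h) a b r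
  have jM0 : ∀ s ∈ Set.Icc (0 : ℝ) 1, ‖jetM Q B Y z 0 s‖ ≤ 2 * Γ := by
    intro s h
    rw [jetM_zero]
    exact mz_bd4 z (by linarith) (sparse_boot hB hY z hz Γ hΓ0 hG hs s (hab s h))
  have jM : ∀ s ∈ Set.Icc (0 : ℝ) 1, ∀ r : ℕ, 1 ≤ r →
      ‖jetM Q B Y z r s‖ ≤ r.factorial * e ^ r := by
    intro s h r hr
    refine (jetM_bd hB hY z hz Γ hΓ0 hG hs s (hab s h) r hr).trans ?_
    have h1 : 1 / ((N : ℝ) * |z.im|) ≤ 1 := by
      rw [div_le_one (by linarith)]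
      exact hN
    have h2 : 0 ≤ (r.factorial : ℝ) * e ^ r := by positivity
    calc 1 / ((N : ℝ) * |z.im|) * r.factorial * e ^ r
        = 1 / ((N : ℝ) * |z.im|) * (r.factorial * e ^ r) := by ring
      _ ≤ 1 * (r.factorial * e ^ r) := mul_le_mul_of_nonneg_right h1 h2
      _ = r.factorial * e ^ r := one_mul _
  -- q and its derivatives
  have dq0 : ∀ s : ℝ, HasDerivAt
      (fun s : ℝ => ((Q x y : ℝ) : ℂ) + (z + jetM Q B Y z 0 s) * jetE Q B Y z x y 0 s)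
      (jetM Q B Y z 1 s * jetE Q B Y z x y 0 s
        + (z + jetM Q B Y z 0 s) * jetE Q B Y z x y 1 s) s := by
    intro s
    have h1 := jet_entry hB hY z hz x y 0 s
    have h2 := jet_mz hB hY z hz 0 s
    exact ((h2.const_add z).fun_mul h1).const_add ((Q x y : ℝ) : ℂ)
  have dq1 : ∀ s : ℝ, HasDerivAt
      (fun s : ℝ => jetM Q B Y z 1 s * jetE Q B Y z x y 0 s
        + (z + jetM Q B Y z 0 s) * jetE Q B Y z x y 1 s)
      (jetM Q B Y z 2 s * jetE Q B Y z x y 0 s + jetM Q B Y z 1 s * jetE Q B Y z x y 1 s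
        + (jetM Q B Y z 1 s * jetE Q B Y z x y 1 s
          + (z + jetM Q B Y z 0 s) * jetE Q B Y z x y 2 s)) s := by
    intro s
    have h1 := jet_entry hB hY z hz x y 0 s
    have h2 := jet_mz hB hY z hz 0 s
    have h3 := jet_entry hB hY z hz x y 1 s
    have h4 := jet_mz hB hY z hz 1 s
    exact (h4.fun_mul h1).fun_add ((h2.const_add z).fun_mul h3)
  have bq1 : ∀ s ∈ Set.Icc (0 : ℝ) 1, ‖jetM Q B Y z 1 s * jetE Q B Y z x y 0 s
        + (z + jetM Q B Y z 0 s) * jetE Q B Y z x y 1 s‖ ≤ A * e := by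
    intro s h
    have a0 := jE x y s h 0
    have a1 := jE x y s h 1
    have m0 := jM0 s h
    have m1 := jM s h 1 le_rfl
    simp only [Nat.factorial_zero, Nat.cast_one, pow_zero, mul_one] at a0
    simp only [Nat.factorial_one, Nat.cast_one, pow_one, mul_one, one_mul] at a1 m1
    have m2 : ‖z + jetM Q B Y z 0 s‖ ≤ ‖z‖ + 2 * Γ := (norm_add_le _ _).trans (by linarith)
    refine (norm_add_le _ _).trans ?_
    rw [norm_mul, norm_mul]
    calc ‖jetM Q B Y z 1 s‖ * ‖jetE Q B Y z x y 0 s‖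
          + ‖z + jetM Q B Y z 0 s‖ * ‖jetE Q B Y z x y 1 s‖
        ≤ e * (2 * Γ) + (‖z‖ + 2 * Γ) * (2 * Γ * e) := by gcongr
      _ = 2 * Γ * (1 + ‖z‖ + 2 * Γ) * e := by ring
      _ ≤ A * e := by
        refine mul_le_mul_of_nonneg_right ?_ he0
        rw [hA]
        nlinarith [mul_nonneg hΓ0 hzn]
  have bq2 : ∀ s ∈ Set.Icc (0 : ℝ) 1,
      ‖jetM Q B Y z 2 s * jetE Q B Y z x y 0 s + jetM Q B Y z 1 s * jetE Q B Y z x y 1 s
        + (jetM Q B Y z 1 s * jetE Q B Y z x y 1 s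
          + (z + jetM Q B Y z 0 s) * jetE Q B Y z x y 2 s)‖ ≤ A * e ^ 2 := by
    intro s h
    have a0 := jE x y s h 0
    have a1 := jE x y s h 1
    have a2 := jE x y s h 2
    have m0 := jM0 s h
    have m1 := jM s h 1 le_rfl
    have m2 := jM s h 2 (by norm_num)
    simp only [Nat.factorial_zero, Nat.cast_one, pow_zero, mul_one] at a0
    simp only [Nat.factorial_one, Nat.cast_one, pow_one, mul_one, one_mul] at a1 m1
    simp only [Nat.factorial_two, Nat.cast_ofNat] at a2 m2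
    have m3 : ‖z + jetM Q B Y z 0 s‖ ≤ ‖z‖ + 2 * Γ := (norm_add_le _ _).trans (by linarith)
    refine (norm_add_le _ _).trans ((add_le_add (norm_add_le _ _) (norm_add_le _ _)).trans ?_)
    rw [norm_mul, norm_mul, norm_mul]
    calc ‖jetM Q B Y z 2 s‖ * ‖jetE Q B Y z x y 0 s‖ + ‖jetM Q B Y z 1 s‖ * ‖jetE Q B Y z x y 1 s‖
          + (‖jetM Q B Y z 1 s‖ * ‖jetE Q B Y z x y 1 s‖
            + ‖z + jetM Q B Y z 0 s‖ * ‖jetE Q B Y z x y 2 s‖)
        ≤ 2 * e ^ 2 * (2 * Γ) + e * (2 * Γ * e) + (e * (2 * Γ * e)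
            + (‖z‖ + 2 * Γ) * (2 * Γ * 2 * e ^ 2)) := by gcongr
      _ = 4 * Γ * (2 + ‖z‖ + 2 * Γ) * e ^ 2 := by ring
      _ ≤ A * e ^ 2 := by
        refine mul_le_mul_of_nonneg_right ?_ (by positivity)
        rw [hA]
        nlinarith [mul_nonneg hΓ0 hzn]
  have q00 : ((Q x y : ℝ) : ℂ) + (z + jetM Q B Y z 0 0) * jetE Q B Y z x y 0 0 = qf Q B z x y := by
    rw [jetM_zero, jetE_zero, zero_smul, add_zero]
    rfl
  have bq0 : ∀ s ∈ Set.Icc (0 : ℝ) 1,
      ‖((Q x y : ℝ) : ℂ) + (z + jetM Q B Y z 0 s) * jetE Q B Y z x y 0 s‖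
        ≤ ‖qf Q B z x y‖ + A * e := by
    intro s h
    have key := norm_image_sub_le_of_norm_deriv_le_segment' (a := (0 : ℝ)) (b := 1)
      (f := fun s : ℝ => ((Q x y : ℝ) : ℂ) + (z + jetM Q B Y z 0 s) * jetE Q B Y z x y 0 s)
      (C := A * e)
      (fun t _ => (dq0 t).hasDerivWithinAt) (fun t ht => bq1 t ⟨ht.1, ht.2.le⟩) s h
    rw [q00] at key
    have h2 : A * e * (s - 0) ≤ A * e := by
      have : 0 ≤ A * e := by positivity
      nlinarith [h.2]
    have h3 := norm_sub_norm_le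
      (((Q x y : ℝ) : ℂ) + (z + jetM Q B Y z 0 s) * jetE Q B Y z x y 0 s) (qf Q B z x y)
    linarith
  have T := trap_abs (jetE Q B Y z u y 0) (jetE Q B Y z u y 1) (jetE Q B Y z u y 2)
    (fun s : ℝ => ((Q x y : ℝ) : ℂ) + (z + jetM Q B Y z 0 s) * jetE Q B Y z x y 0 s)
    (fun s : ℝ => jetM Q B Y z 1 s * jetE Q B Y z x y 0 s
        + (z + jetM Q B Y z 0 s) * jetE Q B Y z x y 1 s)
    (fun s : ℝ => jetM Q B Y z 2 s * jetE Q B Y z x y 0 s
        + jetM Q B Y z 1 s * jetE Q B Y z x y 1 s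
        + (jetM Q B Y z 1 s * jetE Q B Y z x y 1 s
          + (z + jetM Q B Y z 0 s) * jetE Q B Y z x y 2 s))
    (jet_entry hB hY z hz u y 0) (jet_entry hB hY z hz u y 1) dq0 dq1 p hp Γ A e
    (‖qf Q B z x y‖ + A * e) hΓ0 hA1 he0
    (fun s h => by simpa using jE u y s h 0)
    (fun s h => by simpa using jE u y s h 1)
    (fun s h => by
      have := jE u y s h 2
      simp only [Nat.factorial_two, Nat.cast_ofNat] at this
      linarith)
    bq0 bq1 bq2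
  have z0 : B + (0 : ℝ) • Y = B := by rw [zero_smul, add_zero]
  have z1 : B + (1 : ℝ) • Y = B + Y := by rw [one_smul]
  simp only [jetM_zero, jetE_zero, jetE_one4, jetM_one4, z0, z1] at T
  rw [add_assoc 1]
  exact T

end Pool.Agent.ZR.F

end

section

/-!
# ZR, part G: jets of `s ↦ G_xy(B + sY) ∏_l (m_l(B + sY) - c_l)`.
-/


open MeasureTheory ProbabilityTheory Matrix

namespace Pool.Agent.ZR.G

variable {N : ℕ} {Q B Y : Matrix (Fin N) (Fin N) ℝ}

theorem jt_entry (hB : PB Q B) (hY : PB Q Y) (z : ℂ) (hz : z.im ≠ 0) (Γ : ℝ) (hΓ : 0 ≤ Γ)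
    (hG : EnLe (Gz Q B z) Γ) (hs : sp1 Y * Γ ≤ 1 / 2) (x y : Fin N) :
    Jt (2 * Γ) (2 * Γ * sp1 Y) (jetE Q B Y z x y) := by
  refine ⟨fun r s => jet_entry hB hY z hz x y r s, fun r _ s hs1 => ?_⟩
  exact jetE_bd hB hY z hz Γ hΓ hG hs s (by rw [abs_of_nonneg hs1.1]; exact hs1.2) x y r

/-- jet of `m(B + sY) - c` -/
noncomputable def jetMc (Q B Y : Matrix (Fin N) (Fin N) ℝ) (z c : ℂ) (r : ℕ) (s : ℝ) : ℂ :=
  jetM Q B Y z r s - (if r = 0 then c else 0)

theorem jt_mc (hB : PB Q B) (hY : PB Q Y) (z c : ℂ) (η : ℝ) (hη : 0 < η) (hz : η ≤ |z.im|)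
    (hN : 0 < N) (Γ : ℝ)
    (hΓ : 0 ≤ Γ) (hG : EnLe (Gz Q B z) Γ) (hs : sp1 Y * Γ ≤ 1 / 2) :
    Jt (‖mz Q B z - c‖ + 1 / (N * η)) (2 * Γ * sp1 Y) (jetMc Q B Y z c) := by
  have hz0 : z.im ≠ 0 := fun h => by rw [h, abs_zero] at hz; linarith
  have hzp : 0 < |z.im| := abs_pos.mpr hz0
  have hNp : (0 : ℝ) < N := by exact_mod_cast hN
  have he0 : 0 ≤ 2 * Γ * sp1 Y := by have := sp1_nonneg Y; positivity
  have he1 : 2 * Γ * sp1 Y ≤ 1 := by nlinarith
  have hinv : 1 / (N * |z.im|) ≤ 1 / (N * η) := by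
    apply one_div_le_one_div_of_le (by positivity)
    exact mul_le_mul_of_nonneg_left hz hNp.le
  have hder : ∀ r s, HasDerivAt (jetMc Q B Y z c r) (jetMc Q B Y z c (r + 1) s) s := by
    intro r s
    have h1 := (jet_mz hB hY z hz0 r s).sub_const (if r = 0 then c else 0)
    have h2 : jetMc Q B Y z c (r + 1) s = jetM Q B Y z (r + 1) s := by
      simp [jetMc]
    rw [h2]
    exact h1
  have hbd : ∀ r, 1 ≤ r → ∀ s ∈ Set.Icc (0 : ℝ) 1,
      ‖jetMc Q B Y z c r s‖ ≤ 1 / (N * η) * r.factorial * (2 * Γ * sp1 Y) ^ r := by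
    intro r hr s hs1
    have h1 := jetM_bd hB hY z hz0 Γ hΓ hG hs s (by rw [abs_of_nonneg hs1.1]; exact hs1.2) r hr
    have h2 : jetMc Q B Y z c r s = jetM Q B Y z r s := by
      have : r ≠ 0 := by omega
      simp [jetMc, this]
    rw [h2]
    refine h1.trans ?_
    gcongr
  refine ⟨hder, fun r _ s hs1 => ?_⟩
  rcases Nat.eq_zero_or_pos r with h0 | h0
  · subst h0
    have hm0 : jetMc Q B Y z c 0 0 = mz Q B z - c := by
      simp [jetMc, jetM_zero]
    have hmv : ‖jetMc Q B Y z c 0 s - jetMc Q B Y z c 0 0‖ ≤ 1 / (N * η) * (s - 0) := by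
      have h3 := Convex.norm_image_sub_le_of_norm_hasDerivWithin_le (𝕜 := ℝ)
        (f := jetMc Q B Y z c 0) (f' := jetMc Q B Y z c 1) (s := Set.Icc (0 : ℝ) 1)
        (C := 1 / (N * η)) (x := 0) (y := s)
        (fun t _ => (hder 0 t).hasDerivWithinAt)
        (fun t ht => by
          refine (hbd 1 le_rfl t ht).trans ?_
          simp only [Nat.factorial_one, Nat.cast_one, mul_one, pow_one]
          exact mul_le_of_le_one_right (by positivity) he1)
        (convex_Icc 0 1) (by constructor <;> norm_num) hs1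
      rw [Real.norm_of_nonneg (by linarith [hs1.1])] at h3
      exact h3
    have h4 : ‖jetMc Q B Y z c 0 s‖ ≤ ‖mz Q B z - c‖ + 1 / (N * η) := by
      have h5 : jetMc Q B Y z c 0 s = (jetMc Q B Y z c 0 0)
          + (jetMc Q B Y z c 0 s - jetMc Q B Y z c 0 0) := by ring
      rw [h5, hm0]
      refine (norm_add_le _ _).trans (add_le_add le_rfl ?_)
      rw [hm0] at hmv
      refine hmv.trans ?_
      have : s - 0 ≤ 1 := by linarith [hs1.2]
      exact mul_le_of_le_one_right (by positivity) this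
    simpa using h4
  · refine (hbd r h0 s hs1).trans ?_
    gcongr
    have := norm_nonneg (mz Q B z - c)
    linarith

theorem jets_f {K : ℕ} (hB : PB Q B) (hY : PB Q Y) (z : ℂ) (zl cl : Fin K → ℂ) (η : ℝ)
    (hη : 0 < η) (hz : η ≤ |z.im|) (hzl : ∀ l, η ≤ |(zl l).im|) (hN : 0 < N) (Γ : ℝ)
    (hΓ : 0 ≤ Γ) (hG : EnLe (Gz Q B z) Γ) (hGl : ∀ l, EnLe (Gz Q B (zl l)) Γ)
    (hs : sp1 Y * Γ ≤ 1 / 2) (x y : Fin N) :
    ∃ H : ℕ → ℝ → ℂ,
      Jt (2 * Γ * ∏ l, (‖mz Q B (zl l) - cl l‖ + 1 / (N * η)))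
        (2 ^ (K + 1) * (2 * Γ * sp1 Y)) H ∧
      (∀ s, H 0 s = Gz Q (B + s • Y) z x y * ∏ l, (mz Q (B + s • Y) (zl l) - cl l)) ∧
      (∀ s, H 1 s = -(((Gz Q (B + s • Y) z * toC Y * Gz Q (B + s • Y) z) x y)
          * ∏ l, (mz Q (B + s • Y) (zl l) - cl l)
        + Gz Q (B + s • Y) z x y * ∑ l, (1 / (N : ℂ)) * (Gz Q (B + s • Y) (zl l) ^ 2 * toC Y).trace
          * ∏ l' ∈ Finset.univ.erase l, (mz Q (B + s • Y) (zl l') - cl l'))) := by
  have he0 : 0 ≤ 2 * Γ * sp1 Y := by have := sp1_nonneg Y; positivity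
  have hA : ∀ l, 0 ≤ ‖mz Q B (zl l) - cl l‖ + 1 / ((N : ℝ) * η) := fun l => by positivity
  obtain ⟨H, hH, h0, h1⟩ := jt_prod (fun l => ‖mz Q B (zl l) - cl l‖ + 1 / ((N : ℝ) * η))
    (e := 2 * Γ * sp1 Y)
    (fun l => jetMc Q B Y (zl l) (cl l)) hA he0
    (fun l => jt_mc hB hY (zl l) (cl l) η hη (hzl l) hN Γ hΓ (hGl l) hs)
  have hz0 : z.im ≠ 0 := fun h => by rw [h, abs_zero] at hz; linarith
  have h2K : 2 * Γ * sp1 Y ≤ 2 ^ K * (2 * Γ * sp1 Y) := by
    have : (1 : ℝ) ≤ 2 ^ K := one_le_pow₀ (by norm_num)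
    nlinarith
  have hE := jt_mono (by positivity) le_rfl he0 h2K (jt_entry hB hY z hz0 Γ hΓ hG hs x y)
  have hP : 0 ≤ ∏ l, (‖mz Q B (zl l) - cl l‖ + 1 / ((N : ℝ) * η)) :=
    Finset.prod_nonneg fun l _ => hA l
  have hM := jt_mul (by positivity) hP (by positivity) hE hH
  refine ⟨mulJ (jetE Q B Y z x y) H, ?_, ?_, ?_⟩
  · have h5 : (2 : ℝ) ^ (K + 1) * (2 * Γ * sp1 Y) = 2 * (2 ^ K * (2 * Γ * sp1 Y)) := by ring
    rw [h5]
    exact hM
  · intro s
    rw [mulJ_zero, h0 s, jetE_zero]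
    congr 1
    refine Finset.prod_congr rfl fun l _ => ?_
    simp [jetMc, jetM_zero]
  · intro s
    rw [mulJ_one, h0 s, h1 s, jetE_zero]
    have hp : ∀ l, jetMc Q B Y (zl l) (cl l) 0 s = mz Q (B + s • Y) (zl l) - cl l := by
      intro l; simp [jetMc, jetM_zero]
    have hd : ∀ l, jetMc Q B Y (zl l) (cl l) 1 s
        = -((1 / (N : ℂ)) * (Gz Q (B + s • Y) (zl l) ^ 2 * toC Y).trace) := by
      intro l
      have : jetMc Q B Y (zl l) (cl l) 1 s = jetM Q B Y (zl l) 1 s := by simp [jetMc]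
      rw [this]
      have h6 : (Gz Q (B + s • Y) (zl l) * toC Y * Gz Q (B + s • Y) (zl l)).trace
          = (Gz Q (B + s • Y) (zl l) ^ 2 * toC Y).trace := by
        rw [Matrix.trace_mul_comm, ← Matrix.mul_assoc, pow_two]
      simp only [jetM, pow_one, h6]
      simp
    have hE1 : jetE Q B Y z x y 1 s
        = -((Gz Q (B + s • Y) z * toC Y * Gz Q (B + s • Y) z) x y) := by
      simp [jetE]
    simp only [hp, hd, hE1]
    rw [Finset.mul_sum, Finset.mul_sum]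
    have : ∀ l, Gz Q (B + s • Y) z x y * (-((1 / (N : ℂ))
        * (Gz Q (B + s • Y) (zl l) ^ 2 * toC Y).trace)
        * ∏ l' ∈ Finset.univ.erase l, (mz Q (B + s • Y) (zl l') - cl l'))
        = - (Gz Q (B + s • Y) z x y * ((1 / (N : ℂ)) * (Gz Q (B + s • Y) (zl l) ^ 2 * toC Y).trace
          * ∏ l' ∈ Finset.univ.erase l, (mz Q (B + s • Y) (zl l') - cl l'))) := by
      intro l; ring
    simp only [this, Finset.sum_neg_distrib]
    ring

end Pool.Agent.ZR.G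

end

section

/-!
# ZR/JGau : `qf M g z` for a fixed symmetric matrix `M` and a standard Gaussian vector `g`

Let `U` be the orthogonal matrix of `qf_spec` (JQf), `c_k(g) = ∑_j U j k * g j`, i.e. `c = Uᵀ g`.  The
linear map `g ↦ c` is an isometry, so `c` is again standard Gaussian: `gst_map_isom` (KRot); all three
statements are proved for `c` instead of `g`.  `z = x + ir`:
`Im qf M g z = ∑_k c_k² r/((l_k - x)² + r²) ≥ (1/(2r)) ∑_{k∈K} c_k²`,
`K = {k | |l_k - x| ≤ r}`, `l_k = evs M k`, `|K| = cntI M x r` (`cntI_eq`, Sp4).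
* `qf_low`: `{Im qf < |K|/(4r)} ⊆ {∑_K c_k² < |K|/2}`, `chi_low`.
* `qf_inv`: `2 r Im qf ≥ ∑_K c_k²`, so `(ofReal (2 r Im qf))⁻¹ ≤ (ofReal ∑_K c_k²)⁻¹`, `chi_inv`.
* `qf_upper`: if all `|c_k| ≤ s` then `‖qf M g z‖ ≤ ∑ c_k²/|l_k - z| ≤ s² ∑ 1/|l_k - z|`; union bound
  over the `N` indices with `gst_tail`.
-/


open MeasureTheory ProbabilityTheory Matrix

namespace Pool.Agent.ZR

private lemma iso_gau {N : ℕ} (U : Matrix (Fin N) (Fin N) ℝ) (h1 : U * Uᵀ = 1)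
    (g : Fin N → ℝ) : ∑ k, (Uᵀ.mulVecLin g) k ^ 2 = ∑ k, g k ^ 2 := by
  have e1 : ∑ k, (Uᵀ.mulVecLin g) k ^ 2 = (Uᵀ *ᵥ g) ⬝ᵥ (Uᵀ *ᵥ g) := by
    unfold dotProduct
    refine Finset.sum_congr rfl fun k _ => ?_
    rw [Matrix.mulVecLin_apply, sq]
  have e2 : ∑ k, g k ^ 2 = g ⬝ᵥ g := by
    unfold dotProduct
    refine Finset.sum_congr rfl fun k _ => ?_
    rw [sq]
  rw [e1, e2, Matrix.dotProduct_mulVec, Matrix.vecMul_transpose, Matrix.mulVec_mulVec, h1,
    Matrix.one_mulVec]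

private lemma map_gau {N : ℕ} (U : Matrix (Fin N) (Fin N) ℝ) (h1 : U * Uᵀ = 1) :
    (gst (Fin N)).map Uᵀ.mulVecLin = gst (Fin N) :=
  K1.gst_map_isom _ (iso_gau U h1) rfl

private lemma meas_gau {N : ℕ} (U : Matrix (Fin N) (Fin N) ℝ) : Measurable Uᵀ.mulVecLin :=
  (Uᵀ.mulVecLin).continuous_of_finiteDimensional.measurable

private lemma coord_gau {N : ℕ} (U : Matrix (Fin N) (Fin N) ℝ) (g : Fin N → ℝ) (k : Fin N) :
    ∑ j, U j k * g j = (Uᵀ.mulVecLin g) k := by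
  rw [Matrix.mulVecLin_apply]
  rfl

private lemma real_gau {N : ℕ} (U : Matrix (Fin N) (Fin N) ℝ) (h1 : U * Uᵀ = 1)
    (S : Set (Fin N → ℝ)) (hS : MeasurableSet S) :
    (gst (Fin N)).real (Uᵀ.mulVecLin ⁻¹' S) = (gst (Fin N)).real S := by
  conv_rhs => rw [← map_gau U h1]
  rw [Measure.real, Measure.real, Measure.map_apply (meas_gau U) hS]

private lemma term_gau (l x r c : ℝ) (hr : 0 < r) :
    ((((c ^ 2 : ℝ) : ℂ)) / ((l : ℂ) - (⟨x, r⟩ : ℂ))).im = r * c ^ 2 / ((l - x) ^ 2 + r ^ 2) := by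
  have h : Complex.normSq ((l : ℂ) - (⟨x, r⟩ : ℂ)) = (l - x) ^ 2 + r ^ 2 := by
    rw [Complex.normSq_apply]
    simp
    ring
  obtain ⟨e, he⟩ : ∃ e : ℝ, e = c ^ 2 := ⟨_, rfl⟩
  rw [← he, div_eq_mul_inv, Complex.mul_im, Complex.inv_re, Complex.inv_im, h,
    Complex.ofReal_re, Complex.ofReal_im]
  simp
  ring

private lemma low_gau {N : ℕ} (M U : Matrix (Fin N) (Fin N) ℝ) (x r : ℝ) (hr : 0 < r)
    (h3 : ∀ (v : Fin N → ℝ) (z : ℂ), z.im ≠ 0 →
        qf M v z = ∑ k, (((∑ j, U j k * v j) ^ 2 : ℝ) : ℂ) / ((evs M k : ℂ) - z))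
    (g : Fin N → ℝ) :
    (∑ k ∈ Finset.univ.filter (fun i : Fin N => |evs M i - x| ≤ r), (Uᵀ.mulVecLin g) k ^ 2)
      ≤ 2 * r * (qf M g (⟨x, r⟩ : ℂ)).im := by
  rw [h3 g _ (by simpa using hr.ne'), Complex.im_sum, Finset.mul_sum]
  have hnn : ∀ k : Fin N, 0 ≤ 2 * r * ((((∑ j, U j k * g j) ^ 2 : ℝ) : ℂ) /
      ((evs M k : ℂ) - (⟨x, r⟩ : ℂ))).im := by
    intro k
    rw [term_gau _ _ _ _ hr]
    positivity
  refine le_trans ?_ (Finset.sum_le_sum_of_subset_of_nonneg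
    (Finset.filter_subset (fun i : Fin N => |evs M i - x| ≤ r) Finset.univ)
    (fun k _ _ => hnn k))
  refine Finset.sum_le_sum fun k hk => ?_
  rw [term_gau _ _ _ _ hr, coord_gau]
  have hk' : |evs M k - x| ≤ r := (Finset.mem_filter.1 hk).2
  have hsq : (evs M k - x) ^ 2 ≤ r ^ 2 := by
    rw [← sq_abs]
    exact pow_le_pow_left₀ (abs_nonneg _) hk' 2
  have hpos : 0 < (evs M k - x) ^ 2 + r ^ 2 := by positivity
  rw [← mul_div_assoc, le_div_iff₀ hpos]
  have h0 : 0 ≤ (Uᵀ.mulVecLin g) k ^ 2 := sq_nonneg _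
  nlinarith

theorem qf_low {N : ℕ} (M : Matrix (Fin N) (Fin N) ℝ) (hM : M.IsSymm) (x r : ℝ) (hr : 0 < r) :
    (gst (Fin N)).real {g | (qf M g (⟨x, r⟩ : ℂ)).im < (cntI M x r : ℝ) / (4 * r)}
      ≤ Real.exp (-(cntI M x r : ℝ) / 11) := by
  obtain ⟨U, h1, h2, h3, h4, h5⟩ := qf_spec M hM
  rw [cntI_eq M hM x r]
  set K := Finset.univ.filter (fun i : Fin N => |evs M i - x| ≤ r) with hK
  refine le_trans ?_ (chi_low K)
  have hS : MeasurableSet {g : Fin N → ℝ | ∑ k ∈ K, g k ^ 2 < (K.card : ℝ) / 2} :=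
    measurableSet_lt (by fun_prop) measurable_const
  rw [← real_gau U h1 _ hS]
  refine measureReal_mono ?_
  intro g hg
  have hg' : (qf M g (⟨x, r⟩ : ℂ)).im < (K.card : ℝ) / (4 * r) := hg
  show ∑ k ∈ K, (Uᵀ.mulVecLin g) k ^ 2 < (K.card : ℝ) / 2
  have h := low_gau M U x r hr h3 g
  rw [lt_div_iff₀ (by positivity)] at hg'
  have : 2 * r * (qf M g (⟨x, r⟩ : ℂ)).im < (K.card : ℝ) / 2 := by
    nlinarith
  exact lt_of_le_of_lt h this

theorem qf_inv (p : ℕ) : ∃ C : ℝ, 0 ≤ C ∧ ∀ (N : ℕ) (M : Matrix (Fin N) (Fin N) ℝ), M.IsSymm →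
    ∀ x r : ℝ, 0 < r → 2 * p + 1 ≤ cntI M x r →
    ∫⁻ g, ((ENNReal.ofReal (2 * r * (qf M g (⟨x, r⟩ : ℂ)).im))⁻¹) ^ p ∂(gst (Fin N))
      ≤ ENNReal.ofReal C := by
  obtain ⟨C, hC, h⟩ := chi_inv p
  refine ⟨C, hC, ?_⟩
  intro N M hM x r hr hp
  obtain ⟨U, h1, h2, h3, h4, h5⟩ := qf_spec M hM
  rw [cntI_eq M hM x r] at hp
  set K := Finset.univ.filter (fun i : Fin N => |evs M i - x| ≤ r) with hK
  have hm : Measurable (fun g : Fin N → ℝ =>
      ((ENNReal.ofReal (∑ k ∈ K, g k ^ 2))⁻¹) ^ p) := by fun_prop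
  have e1 : ∫⁻ g, ((ENNReal.ofReal (∑ k ∈ K, (Uᵀ.mulVecLin g) k ^ 2))⁻¹) ^ p ∂(gst (Fin N))
      = ∫⁻ g, ((ENNReal.ofReal (∑ k ∈ K, g k ^ 2))⁻¹) ^ p ∂(gst (Fin N)) := by
    conv_rhs => rw [← map_gau U h1]
    rw [lintegral_map hm (meas_gau U)]
  refine le_trans ?_ (e1.le.trans (h N K hp))
  refine lintegral_mono fun g => ?_
  refine pow_le_pow_left' (ENNReal.inv_le_inv.2 (ENNReal.ofReal_le_ofReal ?_)) p
  exact low_gau M U x r hr h3 g

theorem qf_upper {N : ℕ} (M : Matrix (Fin N) (Fin N) ℝ) (hM : M.IsSymm) (z : ℂ) (hz : 0 < z.im)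
    (s : ℝ) (hs : 0 ≤ s) :
    (gst (Fin N)).real {g | s ^ 2 * ∑ k : Fin N, 1 / ‖(evs M k : ℂ) - z‖ < ‖qf M g z‖}
      ≤ 2 * N * Real.exp (-s ^ 2 / 2) := by
  obtain ⟨U, h1, h2, h3, h4, h5⟩ := qf_spec M hM
  have hS : MeasurableSet (⋃ k : Fin N, {g : Fin N → ℝ | s < |g k|}) :=
    MeasurableSet.iUnion fun k => measurableSet_lt measurable_const (by fun_prop)
  have e1 : (gst (Fin N)).real (⋃ k : Fin N, {g : Fin N → ℝ | s < |g k|})
      ≤ 2 * N * Real.exp (-s ^ 2 / 2) := by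
    refine (measureReal_iUnion_fintype_le _).trans ?_
    refine (Finset.sum_le_sum fun k _ => gst_tail k s hs).trans ?_
    rw [Finset.sum_const, Finset.card_univ, Fintype.card_fin, nsmul_eq_mul]
    apply le_of_eq
    ring
  refine le_trans ?_ e1
  rw [← real_gau U h1 _ hS]
  refine measureReal_mono ?_
  intro g hg
  by_contra hcon
  have hall : ∀ k : Fin N, |(Uᵀ.mulVecLin g) k| ≤ s := by
    intro k
    by_contra hk
    apply hcon
    refine Set.mem_iUnion.2 ⟨k, ?_⟩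
    exact not_le.1 hk
  have hg' : s ^ 2 * ∑ k : Fin N, 1 / ‖(evs M k : ℂ) - z‖ < ‖qf M g z‖ := hg
  refine absurd hg' (not_lt.2 ?_)
  rw [h3 g z hz.ne', Finset.mul_sum]
  refine (norm_sum_le _ _).trans (Finset.sum_le_sum fun k _ => ?_)
  rw [norm_div, Complex.norm_real, Real.norm_of_nonneg (sq_nonneg _), coord_gau, mul_one_div]
  have h6 : (Uᵀ.mulVecLin g) k ^ 2 ≤ s ^ 2 := by
    rw [← sq_abs]
    exact pow_le_pow_left₀ (abs_nonneg _) (hall k) 2
  exact div_le_div_of_nonneg_right h6 (norm_nonneg _)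

end Pool.Agent.ZR

end

section

/-!
# ZR/JLaw : independence of the minor, the row and the diagonal entry

`gm (N+1) = gst (Fin (N+1) × Fin (N+1))` (by definition, `gst_eq_gm`).

`gm_split`: let `κ = (Fin N × Fin N) ⊕ (Fin N ⊕ (Fin N ⊕ Unit))` and `T X` the vector with components
`X (i.succAbove p.1, i.succAbove p.2)`, `(X (i, j') + X (j', i))/√2`, `(X (i, j') - X (j', i))/√2`,
`X (i, i)`, where `j' = i.succAbove j`.  `T` is linear and `∑ (T X)² = ∑ X²` (split the double sum by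
`Fin.sum_univ_succAbove _ i` twice; `((a+b)² + (a-b)²)/2 = a² + b²`); the cardinalities agree
(`(N+1)² = N² + 2N + 1`), so `(gm (N+1)).map T = gst κ` by `gst_map_isom` (KRot).  Then
`gst (α ⊕ β)` is the product `gst α × gst β` (`measurePreserving_sumPiEquivProdPi`), the third
component is dropped (a marginal of a product of probability measures), and
`gst Unit ≅ gaussianReal 0 1` (`measurePreserving_funUnique`).
The other statements follow: `gm_sub_map` (first marginal), `gm_split_lint` (integral over the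
product, `lintegral_map`, `lintegral_prod`), `gm_split_prob`:
`P ≤ ∫⁻ Y, γ {g | (Y, g) ∈ E} ≤ P(Bad) + ε` (the inner probability is at most `1` on `Bad`),
`gm_diag_tail` from the coordinate projection and `gauss_tail`.
-/


open MeasureTheory ProbabilityTheory Matrix

namespace Pool.Agent.ZR

private instance jlaw_gm_prob (N : ℕ) : IsProbabilityMeasure (gm N) := by
  unfold gm; infer_instance

/-- the linear isometry behind `gm_split` -/
private noncomputable def jlawT {N : ℕ} (i : Fin (N + 1)) :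
    (Fin (N + 1) × Fin (N + 1) → ℝ) →ₗ[ℝ]
      ((Fin N × Fin N) ⊕ (Fin N ⊕ (Fin N ⊕ Unit)) → ℝ) where
  toFun X := Sum.elim (subX i X) (Sum.elim (rowX i X)
    (Sum.elim (fun j => (X (i, i.succAbove j) - X (i.succAbove j, i)) / Real.sqrt 2)
      (fun _ => X (i, i))))
  map_add' X Y := by
    ext k
    rcases k with p | j | j | u
    · simp [subX]
    · simp only [rowX, Sum.elim_inr, Sum.elim_inl, Pi.add_apply]; ring
    · simp only [Sum.elim_inr, Sum.elim_inl, Pi.add_apply]; ring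
    · simp
  map_smul' c X := by
    ext k
    rcases k with p | j | j | u
    · simp [subX]
    · simp only [rowX, Sum.elim_inr, Sum.elim_inl, Pi.smul_apply, smul_eq_mul, RingHom.id_apply]
      ring
    · simp only [Sum.elim_inr, Sum.elim_inl, Pi.smul_apply, smul_eq_mul, RingHom.id_apply]
      ring
    · simp

private theorem jlawT_isom {N : ℕ} (i : Fin (N + 1)) (X : Fin (N + 1) × Fin (N + 1) → ℝ) :
    ∑ k, jlawT i X k ^ 2 = ∑ p, X p ^ 2 := by
  have hs : Real.sqrt 2 ^ 2 = 2 := Real.sq_sqrt (by norm_num)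
  have h1 : ∀ a b : ℝ, ((a + b) / Real.sqrt 2) ^ 2 + ((a - b) / Real.sqrt 2) ^ 2
      = a ^ 2 + b ^ 2 := by
    intro a b
    rw [div_pow, div_pow, hs]
    ring
  have hL : ∑ k, jlawT i X k ^ 2 = (∑ j, ∑ k, X (i.succAbove j, i.succAbove k) ^ 2)
      + (∑ j, (X (i, i.succAbove j) ^ 2 + X (i.succAbove j, i) ^ 2) + X (i, i) ^ 2) := by
    rw [Fintype.sum_sum_type, Fintype.sum_sum_type, Fintype.sum_sum_type, Fintype.sum_prod_type]
    simp only [jlawT, LinearMap.coe_mk, AddHom.coe_mk, Sum.elim_inl, Sum.elim_inr, subX, rowX,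
      Finset.univ_unique, Finset.sum_singleton]
    congr 1
    rw [← add_assoc, ← Finset.sum_add_distrib]
    congr 1
    exact Finset.sum_congr rfl fun j _ => h1 _ _
  have hR : ∑ p, X p ^ 2 = (∑ j, ∑ k, X (i.succAbove j, i.succAbove k) ^ 2)
      + (∑ j, (X (i, i.succAbove j) ^ 2 + X (i.succAbove j, i) ^ 2) + X (i, i) ^ 2) := by
    rw [Fintype.sum_prod_type, Fin.sum_univ_succAbove _ i, Fin.sum_univ_succAbove _ i]
    have h2 : ∀ j, ∑ k, X (i.succAbove j, k) ^ 2 = X (i.succAbove j, i) ^ 2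
        + ∑ k, X (i.succAbove j, i.succAbove k) ^ 2 := fun j =>
      Fin.sum_univ_succAbove (fun k => X (i.succAbove j, k) ^ 2) i
    simp only [h2]
    rw [Finset.sum_add_distrib, Finset.sum_add_distrib]
    ring
  rw [hL, hR]

private theorem jlawT_map {N : ℕ} (i : Fin (N + 1)) :
    (gm (N + 1)).map (jlawT i) = gst ((Fin N × Fin N) ⊕ (Fin N ⊕ (Fin N ⊕ Unit))) := by
  have h := K1.gst_map_isom (jlawT i) (jlawT_isom i) (by
    simp only [Fintype.card_sum, Fintype.card_prod, Fintype.card_fin, Fintype.card_unit]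
    ring)
  exact h

private theorem jlaw_mp {N : ℕ} (i : Fin (N + 1)) :
    MeasurePreserving (fun X => (subX i X, (rowX i X, X (i, i)))) (gm (N + 1))
      ((gm N).prod ((gst (Fin N)).prod (gaussianReal 0 1))) := by
  have hT : Measurable (jlawT (N := N) i) := by
    refine measurable_pi_lambda _ (fun k => ?_)
    rcases k with p | j | j | u
    · exact (measurable_pi_apply p).comp (measurable_subX i)
    · exact (measurable_pi_apply j).comp (measurable_rowX i)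
    · exact ((measurable_pi_apply (i, i.succAbove j)).sub
        (measurable_pi_apply (i.succAbove j, i))).div_const _
    · exact measurable_pi_apply (i, i)
  have h0 : MeasurePreserving (jlawT (N := N) i) (gm (N + 1))
      (gst ((Fin N × Fin N) ⊕ (Fin N ⊕ (Fin N ⊕ Unit)))) := ⟨hT, jlawT_map i⟩
  have h1 := measurePreserving_sumPiEquivProdPi
    (fun _ : (Fin N × Fin N) ⊕ (Fin N ⊕ (Fin N ⊕ Unit)) => gaussianReal 0 1)
  have h2 := measurePreserving_sumPiEquivProdPi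
    (fun _ : Fin N ⊕ (Fin N ⊕ Unit) => gaussianReal 0 1)
  have h3 := measurePreserving_sumPiEquivProdPi
    (fun _ : Fin N ⊕ Unit => gaussianReal 0 1)
  have h4 := measurePreserving_funUnique (gaussianReal 0 1) Unit
  have h5 : MeasurePreserving (fun f : Fin N ⊕ Unit → ℝ => f (Sum.inr ()))
      (Measure.pi fun _ : Fin N ⊕ Unit => gaussianReal 0 1) (gaussianReal 0 1) :=
    measurePreserving_eval (fun _ : Fin N ⊕ Unit => gaussianReal 0 1) (Sum.inr ())
  have h6 := (MeasurePreserving.id (Measure.pi fun _ : Fin N => gaussianReal 0 1)).prod h5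
  have h7 := h6.comp h2
  have h8 := (MeasurePreserving.id (Measure.pi fun _ : Fin N × Fin N => gaussianReal 0 1)).prod h7
  have h9 := (h8.comp h1).comp h0
  exact h9

theorem gm_split {N : ℕ} (i : Fin (N + 1)) :
    (gm (N + 1)).map (fun X => (subX i X, (rowX i X, X (i, i))))
      = (gm N).prod ((gst (Fin N)).prod (gaussianReal 0 1)) :=
  (jlaw_mp i).map_eq

private theorem jlaw_mp1 {N : ℕ} (i : Fin (N + 1)) :
    MeasurePreserving (subX (N := N) i) (gm (N + 1)) (gm N) := by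
  have h := (measurePreserving_fst (μ := gm N)
    (ν := (gst (Fin N)).prod (gaussianReal 0 1))).comp (jlaw_mp i)
  exact h

private theorem jlaw_mp2 {N : ℕ} (i : Fin (N + 1)) :
    MeasurePreserving (fun X => (subX i X, rowX i X)) (gm (N + 1))
      ((gm N).prod (gst (Fin N))) := by
  have h1 := (MeasurePreserving.id (gm N)).prod
    (measurePreserving_fst (μ := gst (Fin N)) (ν := gaussianReal 0 1))
  exact h1.comp (jlaw_mp i)

theorem gm_sub_map {N : ℕ} (i : Fin (N + 1)) : (gm (N + 1)).map (subX i) = gm N :=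
  (jlaw_mp1 i).map_eq

theorem gm_sub_integral {N : ℕ} (i : Fin (N + 1)) (f : (Fin N × Fin N → ℝ) → ℝ)
    (hf : Measurable f) : ∫ X, f (subX i X) ∂(gm (N + 1)) = ∫ Y, f Y ∂(gm N) := by
  rw [← gm_sub_map i, integral_map (measurable_subX i).aemeasurable
    hf.aestronglyMeasurable]

theorem gm_split_lint {N : ℕ} (i : Fin (N + 1))
    (f : (Fin N × Fin N → ℝ) × (Fin N → ℝ) → ENNReal) (hf : Measurable f) :
    ∫⁻ X, f (subX i X, rowX i X) ∂(gm (N + 1))
      = ∫⁻ Y, ∫⁻ g, f (Y, g) ∂(gst (Fin N)) ∂(gm N) := by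
  have h := (jlaw_mp2 i).lintegral_comp hf
  rw [h, lintegral_prod _ hf.aemeasurable]

theorem gm_split_prob {N : ℕ} (i : Fin (N + 1))
    (E : Set ((Fin N × Fin N → ℝ) × (Fin N → ℝ))) (hE : MeasurableSet E)
    (Bad : Set (Fin N × Fin N → ℝ)) (hB : MeasurableSet Bad) (ε : ℝ) (hε : 0 ≤ ε)
    (h : ∀ Y, Y ∉ Bad → (gst (Fin N)).real {g | (Y, g) ∈ E} ≤ ε) :
    (gm (N + 1)).real {X | (subX i X, rowX i X) ∈ E} ≤ (gm N).real Bad + ε := by
  have h1 : (gm (N + 1)) {X | (subX i X, rowX i X) ∈ E} = ((gm N).prod (gst (Fin N))) E :=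
    (jlaw_mp2 i).measure_preimage hE.nullMeasurableSet
  have h2 : ((gm N).prod (gst (Fin N))) E ≤ gm N Bad + ENNReal.ofReal ε := by
    rw [Measure.prod_apply hE]
    calc ∫⁻ Y, (gst (Fin N)) (Prod.mk Y ⁻¹' E) ∂(gm N)
        ≤ ∫⁻ Y, (Bad.indicator (fun _ => (1 : ENNReal)) Y + ENNReal.ofReal ε) ∂(gm N) := by
          refine lintegral_mono fun Y => ?_
          by_cases hY : Y ∈ Bad
          · rw [Set.indicator_of_mem hY]
            exact prob_le_one.trans le_self_add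
          · rw [Set.indicator_of_notMem hY, zero_add]
            have h3 := h Y hY
            rw [Measure.real] at h3
            exact (ENNReal.le_ofReal_iff_toReal_le (measure_ne_top _ _) hε).2 h3
      _ = gm N Bad + ENNReal.ofReal ε := by
          rw [lintegral_add_right _ measurable_const, lintegral_indicator_const hB, one_mul,
            lintegral_const, measure_univ, mul_one]
  rw [Measure.real, Measure.real, h1]
  have h4 : (gm N Bad + ENNReal.ofReal ε).toReal = (gm N Bad).toReal + ε := by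
    rw [ENNReal.toReal_add (measure_ne_top _ _) ENNReal.ofReal_ne_top, ENNReal.toReal_ofReal hε]
  rw [← h4]
  exact ENNReal.toReal_mono (ENNReal.add_ne_top.2 ⟨measure_ne_top _ _, ENNReal.ofReal_ne_top⟩) h2

theorem gm_diag_tail {N : ℕ} (i : Fin N) (s : ℝ) (hs : 0 ≤ s) :
    (gm N).real {X | s < |X (i, i)|} ≤ 2 * Real.exp (-s ^ 2 / 2) :=
  gst_tail (ι := Fin N × Fin N) (i, i) s hs

end Pool.Agent.ZR

end

section

/-!
# ZR/MProd : products of smoothed linear statistics = integrals of products of `imF`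

PROOF.
* `linF_smo`: `pk h (c(λ-y) - v) = (1/(π c)) * ((h/c)/((λ-(y+v/c))² + (h/c)²))`; exchange the finite
  sum and the integral (`integral_finsetSum`, each integrand is a continuous function with compact
  support), `∑_i = n * imF`.
* `prod_smo_eq`: `MeasureTheory.integral_fintype_prod_volume_eq_prod` (product of one dimensional
  integrals = integral over `Fin k → ℝ` of the product), and `∏ (K * I_j) = K^k ∏ I_j`.
* `prod_smo_sub`: `|∏ a_j - ∏ b_j| ≤ k C^(k-1) ... `: with `Y = ∑_i 1/(1+(c(x_i - y))²)` one has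
  `|a_j|, |b_j| ≤ C Y` and `|a_j - b_j| ≤ C h^(1/2) Y` (MPk), so by induction on the number of factors
  `|∏_{j<k} a_j - ∏_{j<k} b_j| ≤ k C^k h^(1/2) Y^k`.
* `sum_le_imF`: `1/(1+(c u)²) ≤ (1+1/κ²)/(1+(n u)²)` because `n² u² ≤ c²u²/κ²` when `κ n ≤ c`, and
  `imF n x y (1/n) = ∑_i 1/(1+(n(x_i-y))²)`.
* `imF_le`: `0 ≤ imF n x y η ≤ (N/n)/η`.  `imF_mono_scale`: for `0 < η ≤ η'`,
  `η/(u²+η²) ≤ (η'/η) η'/(u²+η'²)`, i.e. `η² (u²+η'²) ≤ η'² (u² + η²)`.
-/


open MeasureTheory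

namespace Pool.Agent.ZR

theorem imF_nonneg (n : ℕ) {N : ℕ} (x : Fin N → ℝ) (y : ℝ) {η : ℝ} (hη : 0 ≤ η) :
    0 ≤ imF n x y η := by
  unfold imF
  refine mul_nonneg (by positivity) (Finset.sum_nonneg fun i _ => ?_)
  exact div_nonneg hη (by positivity)

theorem imF_le (n : ℕ) {N : ℕ} (x : Fin N → ℝ) (y : ℝ) {η : ℝ} (hη : 0 < η) :
    imF n x y η ≤ (N : ℝ) / n / η := by
  unfold imF
  have h1 : ∑ i, η / ((x i - y) ^ 2 + η ^ 2) ≤ ∑ _i : Fin N, 1 / η := by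
    refine Finset.sum_le_sum fun i _ => ?_
    rw [div_le_div_iff₀ (by positivity) hη]
    nlinarith [sq_nonneg (x i - y)]
  have h2 : ∑ _i : Fin N, 1 / η = (N : ℝ) / η := by
    rw [Finset.sum_const, Finset.card_univ, Fintype.card_fin, nsmul_eq_mul]; ring
  calc (1 / (n : ℝ)) * ∑ i, η / ((x i - y) ^ 2 + η ^ 2)
      ≤ (1 / (n : ℝ)) * ((N : ℝ) / η) := by
        rw [← h2]; exact mul_le_mul_of_nonneg_left h1 (by positivity)
    _ = (N : ℝ) / n / η := by ring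

theorem imF_mono_scale (n : ℕ) {N : ℕ} (x : Fin N → ℝ) (y : ℝ) {η η' : ℝ} (hη : 0 < η)
    (h : η ≤ η') : imF n x y η ≤ (η' / η) * imF n x y η' := by
  unfold imF
  have hη' : 0 < η' := lt_of_lt_of_le hη h
  have h1 : ∑ i, η / ((x i - y) ^ 2 + η ^ 2)
      ≤ ∑ i, (η' / η) * (η' / ((x i - y) ^ 2 + η' ^ 2)) := by
    refine Finset.sum_le_sum fun i _ => ?_
    rw [div_mul_div_comm, div_le_div_iff₀ (by positivity) (by positivity)]
    have h3 : η ^ 2 ≤ η' ^ 2 := by nlinarith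
    have h4 : 0 ≤ (x i - y) ^ 2 := sq_nonneg _
    nlinarith [mul_nonneg h4 (sub_nonneg.mpr h3)]
  calc (1 / (n : ℝ)) * ∑ i, η / ((x i - y) ^ 2 + η ^ 2)
      ≤ (1 / (n : ℝ)) * ∑ i, (η' / η) * (η' / ((x i - y) ^ 2 + η' ^ 2)) :=
        mul_le_mul_of_nonneg_left h1 (by positivity)
    _ = (η' / η) * ((1 / (n : ℝ)) * ∑ i, η' / ((x i - y) ^ 2 + η' ^ 2)) := by
        rw [← Finset.mul_sum]; ring

theorem imF_cont (n : ℕ) {N : ℕ} {η : ℝ} (hη : 0 < η) :
    Continuous (fun p : (Fin N → ℝ) × ℝ => imF n p.1 p.2 η) := by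
  unfold imF
  refine continuous_const.mul (continuous_finsetSum _ fun i _ => ?_)
  refine continuous_const.div ?_ (fun p => by positivity)
  exact (((((continuous_apply i).comp continuous_fst)).sub continuous_snd).pow 2).add
    continuous_const

theorem linF_cont {N : ℕ} {φ : ℝ → ℝ} (hφ : Continuous φ) :
    Continuous (fun p : (Fin N → ℝ) × (ℝ × ℝ) => linF p.1 φ p.2.1 p.2.2) := by
  unfold linF
  refine continuous_finsetSum _ fun i _ => hφ.comp ?_
  exact (continuous_fst.comp continuous_snd).mul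
    (((continuous_apply i).comp continuous_fst).sub (continuous_snd.comp continuous_snd))

theorem linF_smo {n N : ℕ} (hn : 0 < n) (x : Fin N → ℝ) {φ : ℝ → ℝ} (hφ : Tst φ) {c : ℝ}
    (hc : 0 < c) (y : ℝ) {h : ℝ} (hh : 0 < h) :
    linF x (smo φ h) c y
      = ((n : ℝ) / (Real.pi * c)) * ∫ v, φ v * imF n x (y + v / c) (h / c) := by
  have hn' : (0 : ℝ) < n := by exact_mod_cast hn
  have hpi := Real.pi_pos
  have key : ∀ (v : ℝ), ((n : ℝ) / (Real.pi * c)) * (φ v * imF n x (y + v / c) (h / c))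
      = ∑ i, φ v * pk h (c * (x i - y) - v) := by
    intro v
    unfold imF pk
    rw [← Finset.mul_sum, Finset.mul_sum, Finset.mul_sum, Finset.mul_sum, Finset.mul_sum]
    refine Finset.sum_congr rfl fun i _ => ?_
    have e1 : (c * (x i - y) - v) ^ 2 + h ^ 2
        = c ^ 2 * ((x i - (y + v / c)) ^ 2 + (h / c) ^ 2) := by
      field_simp
      ring
    have hne : (x i - (y + v / c)) ^ 2 + (h / c) ^ 2 ≠ 0 := by
      have : 0 < (h / c) ^ 2 := by positivity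
      positivity
    rw [e1]
    field_simp
  have hint : ∀ i ∈ (Finset.univ : Finset (Fin N)),
      Integrable (fun v => φ v * pk h (c * (x i - y) - v)) := by
    intro i _
    have hc1 : Continuous (fun v => φ v * pk h (c * (x i - y) - v)) :=
      hφ.1.continuous.mul ((pk_cont hh).comp (continuous_const.sub continuous_id))
    exact hc1.integrable_of_hasCompactSupport (hφ.2.mul_right)
  rw [← integral_const_mul]
  simp_rw [key]
  rw [integral_finsetSum _ hint]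
  rfl

theorem prod_smo_eq {k n N : ℕ} (hn : 0 < n) (x : Fin N → ℝ) (φ : Fin k → ℝ → ℝ)
    (hφ : ∀ j, Tst (φ j)) {c : ℝ} (hc : 0 < c) (y : ℝ) {h : ℝ} (hh : 0 < h) :
    ∏ j, linF x (smo (φ j) h) c y
      = ((n : ℝ) / (Real.pi * c)) ^ k *
        ∫ v : Fin k → ℝ, (∏ j, φ j (v j)) * ∏ j, imF n x (y + v j / c) (h / c) := by
  have h1 : ∀ j, linF x (smo (φ j) h) c y
      = ((n : ℝ) / (Real.pi * c)) * ∫ v, φ j v * imF n x (y + v / c) (h / c) :=
    fun j => linF_smo hn x (hφ j) hc y hh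
  simp_rw [h1]
  rw [Finset.prod_mul_distrib, Finset.prod_const, Finset.card_univ, Fintype.card_fin]
  congr 1
  rw [← integral_fintype_prod_volume_eq_prod
    (fun j v => φ j v * imF n x (y + v / c) (h / c))]
  simp_rw [Finset.prod_mul_distrib]

private theorem prod_sub_aux {ι : Type*} (s : Finset ι) (a b : ι → ℝ) (M δ : ℝ)
    (ha : ∀ j, |a j| ≤ M) (hb : ∀ j, |b j| ≤ M) (hab : ∀ j, |a j - b j| ≤ δ * M) (hδ : 0 ≤ δ)
    (hM : 0 ≤ M) :
    |∏ j ∈ s, a j - ∏ j ∈ s, b j| ≤ (s.card : ℝ) * δ * M ^ s.card := by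
  classical
  induction s using Finset.induction_on with
  | empty => simp
  | insert i s hi ih =>
    rw [Finset.prod_insert hi, Finset.prod_insert hi, Finset.card_insert_of_notMem hi]
    have hQ : |∏ j ∈ s, b j| ≤ M ^ s.card := by
      rw [Finset.abs_prod]
      calc ∏ j ∈ s, |b j| ≤ ∏ _j ∈ s, M :=
            Finset.prod_le_prod (fun j _ => abs_nonneg _) (fun j _ => hb j)
        _ = M ^ s.card := by rw [Finset.prod_const]
    have e : a i * ∏ j ∈ s, a j - b i * ∏ j ∈ s, b j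
        = a i * (∏ j ∈ s, a j - ∏ j ∈ s, b j) + (a i - b i) * ∏ j ∈ s, b j := by ring
    rw [e]
    refine (abs_add_le _ _).trans ?_
    rw [abs_mul, abs_mul]
    have h1 : |a i| * |∏ j ∈ s, a j - ∏ j ∈ s, b j| ≤ M * ((s.card : ℝ) * δ * M ^ s.card) :=
      mul_le_mul (ha i) ih (abs_nonneg _) hM
    have h2 : |a i - b i| * |∏ j ∈ s, b j| ≤ (δ * M) * M ^ s.card :=
      mul_le_mul (hab i) hQ (abs_nonneg _) (by positivity)
    push_cast
    calc |a i| * |∏ j ∈ s, a j - ∏ j ∈ s, b j| + |a i - b i| * |∏ j ∈ s, b j|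
        ≤ M * ((s.card : ℝ) * δ * M ^ s.card) + (δ * M) * M ^ s.card := add_le_add h1 h2
      _ = ((s.card : ℝ) + 1) * δ * M ^ (s.card + 1) := by ring

theorem prod_smo_sub {k : ℕ} (φ : Fin k → ℝ → ℝ) (hφ : ∀ j, Tst (φ j)) :
    ∃ C : ℝ, 0 ≤ C ∧ ∀ {N : ℕ} (x : Fin N → ℝ) (c y h : ℝ), 0 < h → h ≤ 1 →
      |∏ j, linF x (smo (φ j) h) c y - ∏ j, linF x (φ j) c y|
        ≤ C * h ^ (1 / 2 : ℝ) * (∑ i, 1 / (1 + (c * (x i - y)) ^ 2)) ^ k := by
  choose C1 h10 h1 using fun j => tst_bd (hφ j)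
  choose C2 h20 h2 using fun j => smo_sub (hφ j)
  choose C3 h30 h3 using fun j => smo_bd (hφ j)
  set C : ℝ := (∑ j, C1 j) + (∑ j, C2 j) + (∑ j, C3 j) with hC
  have hs1 : 0 ≤ ∑ j, C1 j := Finset.sum_nonneg fun j _ => h10 j
  have hs2 : 0 ≤ ∑ j, C2 j := Finset.sum_nonneg fun j _ => h20 j
  have hs3 : 0 ≤ ∑ j, C3 j := Finset.sum_nonneg fun j _ => h30 j
  have hC0 : 0 ≤ C := by rw [hC]; positivity
  have b1 : ∀ j, C1 j ≤ C := fun j => by
    have := Finset.single_le_sum (f := C1) (fun j _ => h10 j) (Finset.mem_univ j)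
    rw [hC]; linarith
  have b2 : ∀ j, C2 j ≤ C := fun j => by
    have := Finset.single_le_sum (f := C2) (fun j _ => h20 j) (Finset.mem_univ j)
    rw [hC]; linarith
  have b3 : ∀ j, C3 j ≤ C := fun j => by
    have := Finset.single_le_sum (f := C3) (fun j _ => h30 j) (Finset.mem_univ j)
    rw [hC]; linarith
  refine ⟨(k : ℝ) * C ^ k, by positivity, ?_⟩
  intro N x c y h hh hh1
  set Y : ℝ := ∑ i, 1 / (1 + (c * (x i - y)) ^ 2) with hY
  have hY0 : 0 ≤ Y := Finset.sum_nonneg fun i _ => by positivity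
  have hsq : 0 ≤ h ^ (1 / 2 : ℝ) := Real.rpow_nonneg hh.le _
  have gen : ∀ (f : ℝ → ℝ) (K : ℝ), (∀ u, |f u| ≤ K / (1 + u ^ 2)) →
      |∑ i, f (c * (x i - y))| ≤ K * Y := by
    intro f K hf
    refine (Finset.abs_sum_le_sum_abs _ _).trans ?_
    rw [hY, Finset.mul_sum]
    refine Finset.sum_le_sum fun i _ => ?_
    refine (hf _).trans (le_of_eq ?_)
    ring
  have ha : ∀ j, |linF x (smo (φ j) h) c y| ≤ C * Y := by
    intro j
    refine (gen _ (C3 j) (fun u => h3 j h u hh hh1)).trans ?_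
    exact mul_le_mul_of_nonneg_right (b3 j) hY0
  have hb : ∀ j, |linF x (φ j) c y| ≤ C * Y := by
    intro j
    refine (gen _ (C1 j) (fun u => h1 j u)).trans ?_
    exact mul_le_mul_of_nonneg_right (b1 j) hY0
  have hab : ∀ j, |linF x (smo (φ j) h) c y - linF x (φ j) c y|
      ≤ h ^ (1 / 2 : ℝ) * (C * Y) := by
    intro j
    have e : linF x (smo (φ j) h) c y - linF x (φ j) c y
        = ∑ i, (fun u => smo (φ j) h u - φ j u) (c * (x i - y)) := by
      unfold linF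
      rw [← Finset.sum_sub_distrib]
    rw [e]
    refine (gen (fun u => smo (φ j) h u - φ j u) (C2 j * h ^ (1 / 2 : ℝ))
      (fun u => h2 j h u hh hh1)).trans ?_
    calc C2 j * h ^ (1 / 2 : ℝ) * Y ≤ C * h ^ (1 / 2 : ℝ) * Y := by
          refine mul_le_mul_of_nonneg_right (mul_le_mul_of_nonneg_right (b2 j) hsq) hY0
      _ = h ^ (1 / 2 : ℝ) * (C * Y) := by ring
  have := prod_sub_aux Finset.univ _ _ (C * Y) (h ^ (1 / 2 : ℝ)) ha hb hab hsq (by positivity)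
  rw [Finset.card_univ, Fintype.card_fin] at this
  refine this.trans (le_of_eq ?_)
  rw [mul_pow]; ring

theorem sum_le_imF {n N : ℕ} (hn : 0 < n) (x : Fin N → ℝ) (y : ℝ) {c κ : ℝ} (hκ : 0 < κ)
    (hc : κ * n ≤ c) :
    ∑ i, 1 / (1 + (c * (x i - y)) ^ 2) ≤ (1 + 1 / κ ^ 2) * imF n x y (1 / (n : ℝ)) := by
  have hn' : (0 : ℝ) < n := by exact_mod_cast hn
  unfold imF
  rw [Finset.mul_sum, Finset.mul_sum]
  refine Finset.sum_le_sum fun i _ => ?_
  set u := x i - y with hu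
  have e : (1 + 1 / κ ^ 2) * ((1 / (n : ℝ)) * (1 / (n : ℝ) / (u ^ 2 + (1 / (n : ℝ)) ^ 2)))
      = (1 + 1 / κ ^ 2) / (1 + (n * u) ^ 2) := by
    have hne : u ^ 2 + (1 / (n : ℝ)) ^ 2 ≠ 0 := by positivity
    have hne2 : (1 : ℝ) + (n * u) ^ 2 ≠ 0 := by positivity
    have hk2 : κ ^ 2 ≠ 0 := by positivity
    have e1 : 1 + (n * u) ^ 2 = (n : ℝ) ^ 2 * (u ^ 2 + (1 / (n : ℝ)) ^ 2) := by
      field_simp
      ring
    rw [e1]
    field_simp
  rw [e, div_le_div_iff₀ (by positivity) (by positivity)]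
  have hc0 : 0 ≤ c := le_trans (by positivity) hc
  have h1 : (κ * n) ^ 2 ≤ c ^ 2 := by
    have : 0 ≤ κ * n := by positivity
    nlinarith
  have h2 : (n : ℝ) ^ 2 * u ^ 2 ≤ (1 / κ ^ 2) * (c ^ 2 * u ^ 2) := by
    have h3 : (n : ℝ) ^ 2 ≤ (1 / κ ^ 2) * c ^ 2 := by
      rw [one_div, inv_mul_eq_div, le_div_iff₀ (by positivity)]
      nlinarith
    nlinarith [mul_le_mul_of_nonneg_right h3 (sq_nonneg u)]
  have h4 : 0 ≤ 1 / κ ^ 2 := by positivity
  have h5 : 0 ≤ c ^ 2 * u ^ 2 := by positivity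
  have e2 : (n * u) ^ 2 = (n : ℝ) ^ 2 * u ^ 2 := by ring
  have e3 : (c * u) ^ 2 = c ^ 2 * u ^ 2 := by ring
  rw [e2, e3]
  nlinarith

end Pool.Agent.ZR

end

section

/-!
# ZR/MSp : families versus multisets, measurability, the objects of part M

PROOF.
* `Wv_symm'`, `At_symm`, `H0_symm`: entrywise; `H0_symm` from `σ i j = σ j i` (`Sn`).  `Bm_symm` from
  `pb_Bm` (C1).  `zero_mem_Bm`: `zero_mem_roots` (Sp5) with `pb_mulVec_one (pb_Bm ..)` (C1).
  `Bm_one_zero`: `1 • H0 σ + 0 • _ = H0 σ`.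
* `linS_roots`: `sum_roots` (Sp4) or `roots_eq` (Sp1); `linS_erase`: `sum_erase` (Sp5), and
  `∑ i ∈ range (n-1), f (evp B i) = ∑ i : Fin (n-1), f (evp B i)` (`Finset.sum_range`).
* `im_mz_Pn`: `mz_Pn_roots` (C3): `Im 1/(l - z) = z.im/((l - z.re)² + z.im²)` for real `l`, then
  `sum_erase`.  `im_tr_one`: from `mz_one_roots` (C3): `(Gz 1 A z).trace = N * mz 1 A z
  = ∑ 1/(l - z)` when `0 < N`; for `N = 0` both sides are `0`.
* `j0_fam`: apply `J0` with `lam = vecP (H0 σ)` and `Φ s = Ψ (fun i => (s.sort (· ≤ ·)).getD i 0)`;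
  `Φ (roots.erase 0) = Ψ (vecP ..)` and `Φ roots = Ψ (vecS ..)` by `rfl` (definitions of `evp`, `evs`);
  `roots = 0 ::ₘ map lam`: `rootsP_eq` (Sp5) and `Multiset.cons_erase`; measurability: `measurable_evs`.
* measurability of `vecS`, `vecP`: `measurable_pi_lambda` and `measurable_evs`, `measurable_evp`.
-/


open MeasureTheory ProbabilityTheory Matrix

namespace Pool.Agent.ZR

private lemma im_one_div94 (l : ℝ) (z : ℂ) :
    (1 / ((l : ℂ) - z)).im = z.im / ((l - z.re) ^ 2 + z.im ^ 2) := by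
  rw [one_div, Complex.inv_im, Complex.normSq_apply]
  simp only [Complex.sub_im, Complex.ofReal_im, Complex.sub_re, Complex.ofReal_re]
  rw [zero_sub, neg_neg]
  congr 1
  ring

private lemma range_map94 {α : Type*} (m : ℕ) (g : ℕ → α) :
    (Finset.range m).val.map g = (Finset.univ : Finset (Fin m)).val.map (fun i : Fin m => g (i : ℕ)) := by
  rw [← Nat.Iio_eq_range, ← Fin.map_valEmbedding_univ, Finset.map_val, Multiset.map_map]
  rfl

theorem At_symm {N : ℕ} (v t : ℝ) (a : Fin N → ℝ) (X : Fin N × Fin N → ℝ) : (At v t a X).IsSymm := by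
  unfold At Matrix.IsSymm
  rw [Matrix.transpose_add, Matrix.transpose_smul, Matrix.transpose_smul, Matrix.diagonal_transpose,
    (Wv_symm v X).eq]

theorem H0_symm {n : ℕ} {σ : Pat n} (hσ : σ ∈ Sn n) : (H0 σ).IsSymm := (pb_H0 σ hσ).bs

theorem Bm_symm {n : ℕ} (α β : ℝ) {σ : Pat n} (hσ : σ ∈ Sn n) (X : Arr n) :
    (Bm α β σ X).IsSymm := (pb_Bm α β σ hσ X).bs

theorem Bm_one_zero {n : ℕ} (σ : Pat n) (X : Arr n) : Bm 1 0 σ X = H0 σ := by
  unfold Bm
  rw [one_smul, zero_smul, add_zero]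

theorem zero_mem_Bm {n : ℕ} (hn : 0 < n) (α β : ℝ) {σ : Pat n} (hσ : σ ∈ Sn n) (X : Arr n) :
    (0 : ℝ) ∈ (Bm α β σ X).charpoly.roots :=
  zero_mem_roots hn _ (pb_mulVec_one hn (pb_Bm α β σ hσ X))

theorem zero_mem_H0 {n : ℕ} (hn : 0 < n) {σ : Pat n} (hσ : σ ∈ Sn n) :
    (0 : ℝ) ∈ (H0 σ).charpoly.roots :=
  zero_mem_roots hn _ (pb_mulVec_one hn (pb_H0 σ hσ))

theorem linS_roots {N : ℕ} (A : Matrix (Fin N) (Fin N) ℝ) (hA : A.IsSymm) (φ : ℝ → ℝ) (c y : ℝ) :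
    linS A.charpoly.roots φ c y = linF (vecS A) φ c y := by
  unfold linS
  rw [sum_roots A hA]
  rfl

theorem linS_erase {N : ℕ} (B : Matrix (Fin N) (Fin N) ℝ) (hB : B.IsSymm)
    (h0 : (0 : ℝ) ∈ B.charpoly.roots) (φ : ℝ → ℝ) (c y : ℝ) :
    linS (B.charpoly.roots.erase 0) φ c y = linF (vecP B) φ c y := by
  unfold linS
  rw [sum_erase B hB h0, Finset.sum_range]
  rfl

theorem im_mz_Pn {n : ℕ} (hn : 0 < n) (B : Matrix (Fin n) (Fin n) ℝ) (h : PB (Pn n) B) (z : ℂ)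
    (hz : 0 < z.im) : (mz (Pn n) B z).im = imF n (vecP B) z.re z.im := by
  have hB : B.IsSymm := h.bs
  have h0 : (0 : ℝ) ∈ B.charpoly.roots := zero_mem_roots hn _ (pb_mulVec_one hn h)
  rw [mz_Pn_roots hn B h z hz.ne', sum_erase B hB h0, Finset.sum_range]
  have h1 : (1 / (n : ℂ)) = ((1 / (n : ℝ) : ℝ) : ℂ) := by push_cast; rfl
  rw [h1, Complex.im_ofReal_mul, Complex.im_sum]
  unfold imF
  congr 1
  refine Finset.sum_congr rfl fun i _ => ?_
  rw [im_one_div94]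
  rfl

theorem im_tr_one {N : ℕ} (n : ℕ) (A : Matrix (Fin N) (Fin N) ℝ) (hA : A.IsSymm) (z : ℂ)
    (hz : 0 < z.im) :
    (1 / (n : ℝ)) * (Gz 1 A z).trace.im = imF n (vecS A) z.re z.im := by
  rcases Nat.eq_zero_or_pos N with hN | hN
  · subst hN
    simp [Matrix.trace, imF]
  · have hN' : (1 / (N : ℂ)) ≠ 0 := by
      have : (N : ℂ) ≠ 0 := Nat.cast_ne_zero.mpr hN.ne'
      exact one_div_ne_zero this
    have h1 := mz_one_roots A hA z hz.ne'
    rw [mz, sum_roots A hA] at h1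
    have h2 := mul_left_cancel₀ hN' h1
    rw [h2, Complex.im_sum]
    unfold imF
    congr 1
    refine Finset.sum_congr rfl fun i _ => ?_
    rw [im_one_div94]
    rfl

theorem cnt_vecS {N : ℕ} (A : Matrix (Fin N) (Fin N) ℝ) (hA : A.IsSymm) (x : ℝ) :
    cnt A x = cntF (vecS A) x := by
  rw [cnt_eq A hA x]
  unfold cntF vecS
  congr!

theorem cntI_vecS {N : ℕ} (A : Matrix (Fin N) (Fin N) ℝ) (hA : A.IsSymm) (x r : ℝ) :
    cntI A x r = cntIF (vecS A) x r := by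
  rw [cntI_eq A hA x r]
  unfold cntIF vecS
  congr!

theorem arcS_vecS {N : ℕ} (A : Matrix (Fin N) (Fin N) ℝ) (hA : A.IsSymm) (x η : ℝ) :
    arcS A x η = arcF (vecS A) x η := by
  rw [arcS_eq A hA x η]
  rfl

theorem cntP_vecP {N : ℕ} (B : Matrix (Fin N) (Fin N) ℝ) (hB : B.IsSymm)
    (h0 : (0 : ℝ) ∈ B.charpoly.roots) (x : ℝ) : cntP B x = cntF (vecP B) x := by
  unfold cntP
  rw [rootsP_eq B hB h0, range_map94, Multiset.countP_map]
  unfold cntF vecP
  rw [← Finset.filter_val, Finset.card_val]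

/-- J0 for families -/
theorem j0_fam (h : J0) {n : ℕ} (hn : 1 < n) {σ : Pat n} (hσ : σ ∈ Sn n) (t : ℝ)
    (Ψ : (Fin (n - 1) → ℝ) → ℝ) (hΨ : Measurable Ψ) :
    ∫ X, Ψ (vecP (Bm (Real.exp (-t / 2)) (Real.sqrt (1 - Real.exp (-t))) σ X)) ∂(gm n)
      = ∫ X, Ψ (vecS (At (1 / (n : ℝ)) t (vecP (H0 σ)) X)) ∂(gm (n - 1)) := by
  have hn0 : 0 < n := by omega
  have h0 := zero_mem_H0 hn0 hσ
  have hs := H0_symm hσ
  have hroots : (H0 σ).charpoly.roots = 0 ::ₘ (Finset.univ.val.map (vecP (H0 σ))) := by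
    conv_lhs => rw [← Multiset.cons_erase h0, rootsP_eq (H0 σ) hs h0, range_map94]
    rfl
  have key := h n hn σ hσ (vecP (H0 σ)) hroots (Real.exp (-t / 2)) (Real.sqrt (1 - Real.exp (-t)))
    (fun s => Ψ (fun i : Fin (n - 1) => (s.sort (· ≤ ·)).getD i 0)) ?_
  · exact key
  · change Measurable (fun X : Fin (n - 1) × Fin (n - 1) → ℝ =>
      Ψ (vecS (At (1 / (n : ℝ)) t (vecP (H0 σ)) X)))
    refine hΨ.comp ?_
    refine measurable_pi_lambda _ fun i => ?_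
    refine measurable_evs _ (fun k l => ?_) (fun X => At_symm _ _ _ _) i
    unfold At Wv
    simp only [Matrix.add_apply, Matrix.smul_apply, Matrix.of_apply, smul_eq_mul]
    fun_prop

theorem vecS_meas {Ω : Type*} [MeasurableSpace Ω] {N : ℕ} (f : Ω → Matrix (Fin N) (Fin N) ℝ)
    (hf : ∀ k l, Measurable (fun ω => f ω k l)) (hs : ∀ ω, (f ω).IsSymm) :
    Measurable (fun ω => vecS (f ω)) :=
  measurable_pi_lambda _ fun i => measurable_evs f hf hs i

theorem At_entry_meas {N : ℕ} (v t : ℝ) (k l : Fin N) :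
    Measurable (fun p : (Fin N → ℝ) × (Fin N × Fin N → ℝ) => At v t p.1 p.2 k l) := by
  unfold At Wv
  simp only [Matrix.add_apply, Matrix.smul_apply, Matrix.of_apply, smul_eq_mul,
    Matrix.diagonal_apply]
  by_cases hkl : k = l
  · simp only [hkl, if_true]
    fun_prop
  · simp only [hkl, if_false]
    fun_prop

theorem vecS_At_meas {N : ℕ} (v t : ℝ) :
    Measurable (fun p : (Fin N → ℝ) × (Fin N × Fin N → ℝ) => vecS (At v t p.1 p.2)) :=
  vecS_meas _ (fun k l => At_entry_meas v t k l) (fun p => At_symm v t p.1 p.2)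

theorem vecS_Wv_meas {N : ℕ} (v : ℝ) :
    Measurable (fun X : Fin N × Fin N → ℝ => vecS (Wv v X)) := by
  refine vecS_meas _ (fun k l => ?_) (fun X => Wv_symm v X)
  unfold Wv
  simp only [Matrix.of_apply]
  fun_prop

theorem vecP_Bm_meas {n : ℕ} (hn : 0 < n) (α β : ℝ) {σ : Pat n} (hσ : σ ∈ Sn n) :
    Measurable (fun X : Arr n => vecP (Bm α β σ X)) := by
  refine measurable_pi_lambda _ fun i => ?_
  refine measurable_evp _ (fun k l => ?_) (fun X => Bm_symm α β hσ X)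
    (fun X => zero_mem_Bm hn α β hσ X) i
  unfold Bm Wv
  simp only [Matrix.add_apply, Matrix.smul_apply, smul_eq_mul, Matrix.mul_apply, Matrix.of_apply]
  fun_prop

end Pool.Agent.ZR

end

section

/-!
# ZBL/G8 : derivative of `cos^k θ P_θ g` in `θ`

Proof.  Let `g` be `CB 2`.  `θ ↦ g (cos θ x + sin θ z)` has derivative
  `∑_i pd i g (cos θ x + sin θ z) (- sin θ x_i + cos θ z_i)`,
bounded by `∑_i C_i (|x_i| + |z_i|)`, integrable in `z` (`gst_int_poly 1`).  By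
`hasDerivAt_integral_of_dominated_loc_of_deriv_le`
  `d/dθ PT θ g x = - sin θ ∑ x_i PT θ (pd i g) x + cos θ ∑_i ∫ z_i pd i g (cos θ x + sin θ z) dγ(z)`.
Gaussian ibp (`gauss_ibp` of `ZBL/G4` with `v z = pd i g (cos θ x + sin θ z)`, which is `CB 1` in `z`
with `pd i v z = sin θ * pd i (pd i g) (cos θ x + sin θ z)`; chain rule and `CB.intro`) gives
  `∫ z_i pd i g (cos θ x + sin θ z) = sin θ PT θ (pd i (pd i g)) x`.
Product rule with `cos^k θ` (derivative `- k cos^(k-1) θ sin θ`) and `tan θ = sin θ / cos θ`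
(`cos θ ≠ 0`; for `k = 0` the last term is 0).
-/


open MeasureTheory ProbabilityTheory Matrix

namespace Pool.Agent.ZR.BL

variable {ι : Type} [Fintype ι] [DecidableEq ι]

theorem G8_CB {h : (ι → ℝ) → ℝ} (hh : CB 1 h) (x : ι → ℝ) (θ : ℝ) :
    CB 1 (fun z => h (Real.cos θ • x + Real.sin θ • z)) ∧
      ∀ i, pd i (fun z => h (Real.cos θ • x + Real.sin θ • z)) =
        fun z => Real.sin θ * pd i h (Real.cos θ • x + Real.sin θ • z) := by
  have hp : Continuous (fun z : ι → ℝ => Real.cos θ • x + Real.sin θ • z) := by fun_prop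
  refine CB.intro (k := 0) (D := fun i z => Real.sin θ * pd i h (Real.cos θ • x + Real.sin θ • z))
    ?_ ?_ ?_
  · obtain ⟨C, hC⟩ := hh.bdd
    exact ⟨C, fun z => hC _⟩
  · intro z
    have h1 := hh.hasFDerivAt (Real.cos θ • x + Real.sin θ • z)
    have h2 : HasFDerivAt (fun z : ι → ℝ => Real.cos θ • x + Real.sin θ • z)
        (Real.sin θ • ContinuousLinearMap.id ℝ (ι → ℝ)) z := by
      have := ((hasFDerivAt_id (𝕜 := ℝ) z).const_smul (Real.sin θ)).const_add (Real.cos θ • x)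
      exact this
    have h3 := h1.comp z h2
    refine h3.congr_fderiv ?_
    ext w
    simp only [ContinuousLinearMap.comp_apply, _root_.smul_apply,
      ContinuousLinearMap.id_apply, _root_.sum_apply, ContinuousLinearMap.proj_apply,
      Pi.smul_apply, smul_eq_mul]
    exact Finset.sum_congr rfl fun i _ => by ring
  · intro i
    have h1 := hh.pd i
    obtain ⟨C, hC⟩ := h1.bdd
    refine ⟨(h1.cont.comp hp).const_mul (Real.sin θ) , |Real.sin θ| * C, fun z => ?_⟩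
    rw [abs_mul]
    exact mul_le_mul_of_nonneg_left (hC _) (abs_nonneg _)

theorem hasDerivAt_PT0 {g : (ι → ℝ) → ℝ} (hg : CB 2 g) (x : ι → ℝ) (θ : ℝ) :
    HasDerivAt (fun θ => PT θ g x)
      (Real.cos θ * Real.sin θ * ∑ i, PT θ (pd i (pd i g)) x
        - Real.sin θ * ∑ i, x i * PT θ (pd i g) x) θ := by
  have hg1 : CB 1 g := hg.mono1
  have hex : ∀ i, ∃ C : ℝ, ∀ y, |pd i g y| ≤ C := fun i => (hg.pd i).bdd
  choose C hC using hex
  have hC0 : ∀ i, 0 ≤ C i := fun i => (abs_nonneg _).trans (hC i x)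
  have hcont : ∀ (θ : ℝ), Continuous (fun z : ι → ℝ => Real.cos θ • x + Real.sin θ • z) := by
    intro θ
    fun_prop
  have hzi : ∀ i, Integrable (fun z : ι → ℝ => |z i|) (gst ι) := fun i =>
    (K1.gst_integrable_eval i).abs
  have hbound : Integrable (fun z : ι → ℝ => ∑ i, C i * (|x i| + |z i|)) (gst ι) :=
    integrable_finsetSum _ fun i _ => ((integrable_const _).add (hzi i)).const_mul _
  have hmeas : ∀ (h : (ι → ℝ) → ℝ), Continuous h → ∀ θ : ℝ,
      AEStronglyMeasurable (fun z : ι → ℝ => h (Real.cos θ • x + Real.sin θ • z)) (gst ι) :=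
    fun h hh θ => (hh.comp (hcont θ)).aestronglyMeasurable
  have hint : ∀ (h : (ι → ℝ) → ℝ), CB 0 h → ∀ θ : ℝ,
      Integrable (fun z : ι → ℝ => h (Real.cos θ • x + Real.sin θ • z)) (gst ι) := by
    intro h hh θ
    obtain ⟨M, hM⟩ := hh.bdd
    exact Integrable.of_bound (hmeas h hh.cont θ) M (Filter.Eventually.of_forall fun z => by
      rw [Real.norm_eq_abs]
      exact hM _)
  have key := hasDerivAt_integral_of_dominated_loc_of_deriv_le (μ := gst ι)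
    (F := fun θ z => g (Real.cos θ • x + Real.sin θ • z))
    (F' := fun θ z => ∑ i, pd i g (Real.cos θ • x + Real.sin θ • z) *
      (-Real.sin θ * x i + Real.cos θ * z i))
    (x₀ := θ) (s := Set.univ) (bound := fun z => ∑ i, C i * (|x i| + |z i|))
    Filter.univ_mem (Filter.Eventually.of_forall fun θ => hmeas g hg.cont θ)
    (hint g hg.zero θ)
    (by
      refine Finset.aestronglyMeasurable_fun_sum _ fun i _ => ?_
      exact (hmeas (pd i g) (hg.pd i).cont θ).mul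
        (Continuous.aestronglyMeasurable (by fun_prop)))
    (Filter.Eventually.of_forall fun z θ _ => by
      refine (norm_sum_le _ _).trans (Finset.sum_le_sum fun i _ => ?_)
      rw [norm_mul, Real.norm_eq_abs, Real.norm_eq_abs]
      refine mul_le_mul (hC i _) ?_ (abs_nonneg _) (hC0 i)
      refine (abs_add_le _ _).trans (add_le_add ?_ ?_)
      · rw [abs_mul, abs_neg]
        exact mul_le_of_le_one_left (abs_nonneg _) (Real.abs_sin_le_one θ)
      · rw [abs_mul]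
        exact mul_le_of_le_one_left (abs_nonneg _) (Real.abs_cos_le_one θ))
    hbound
    (Filter.Eventually.of_forall fun z θ _ => by
      have h1 := hg1.hasFDerivAt (Real.cos θ • x + Real.sin θ • z)
      have h2 : HasDerivAt (fun θ : ℝ => Real.cos θ • x + Real.sin θ • z)
          (-Real.sin θ • x + Real.cos θ • z) θ :=
        ((Real.hasDerivAt_cos θ).smul_const x).add ((Real.hasDerivAt_sin θ).smul_const z)
      have h3 := h1.comp_hasDerivAt θ h2
      refine h3.congr_deriv ?_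
      simp only [_root_.sum_apply, _root_.smul_apply,
        ContinuousLinearMap.proj_apply, Pi.add_apply, Pi.smul_apply, smul_eq_mul])
  refine key.2.congr_deriv ?_
  have hzint : ∀ i, Integrable (fun z : ι → ℝ => z i * pd i g (Real.cos θ • x + Real.sin θ • z))
      (gst ι) := by
    intro i
    refine Integrable.mono' ((hzi i).mul_const (C i))
      ((measurable_pi_apply i).aestronglyMeasurable.mul (hmeas (pd i g) (hg.pd i).cont θ))
      (Filter.Eventually.of_forall fun z => ?_)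
    rw [norm_mul, Real.norm_eq_abs, Real.norm_eq_abs]
    exact mul_le_mul_of_nonneg_left (hC i _) (abs_nonneg _)
  have hterm : ∀ i, ∫ z, pd i g (Real.cos θ • x + Real.sin θ • z) *
      (-Real.sin θ * x i + Real.cos θ * z i) ∂(gst ι) =
      Real.cos θ * (Real.sin θ * PT θ (pd i (pd i g)) x) - Real.sin θ * (x i * PT θ (pd i g) x) := by
    intro i
    have e1 : ∀ z : ι → ℝ, pd i g (Real.cos θ • x + Real.sin θ • z) *
        (-Real.sin θ * x i + Real.cos θ * z i) =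
        Real.cos θ * (z i * pd i g (Real.cos θ • x + Real.sin θ • z)) -
          (Real.sin θ * x i) * pd i g (Real.cos θ • x + Real.sin θ • z) := by
      intro z
      ring
    simp only [e1]
    rw [integral_sub ((hzint i).const_mul _) ((hint (pd i g) (hg.pd i).zero θ).const_mul _),
      integral_const_mul, integral_const_mul]
    obtain ⟨hv, hpv⟩ := G8_CB (hg.pd i) x θ
    rw [gauss_ibp hv i, hpv i, integral_const_mul]
    unfold PT
    ring
  rw [integral_finsetSum]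
  · simp only [hterm]
    rw [Finset.sum_sub_distrib, ← Finset.mul_sum, ← Finset.mul_sum, ← Finset.mul_sum]
    ring
  · intro i _
    have e1 : (fun z : ι → ℝ => pd i g (Real.cos θ • x + Real.sin θ • z) *
        (-Real.sin θ * x i + Real.cos θ * z i)) = fun z =>
        Real.cos θ * (z i * pd i g (Real.cos θ • x + Real.sin θ • z)) -
          (Real.sin θ * x i) * pd i g (Real.cos θ • x + Real.sin θ • z) := by
      funext z
      ring
    rw [e1]
    exact ((hzint i).const_mul _).sub ((hint (pd i g) (hg.pd i).zero θ).const_mul _)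

theorem hasDerivAt_PT {g : (ι → ℝ) → ℝ} (hg : CB 2 g) (k : ℕ) (x : ι → ℝ) (θ : ℝ)
    (hc : Real.cos θ ≠ 0) :
    HasDerivAt (fun θ => Real.cos θ ^ k * PT θ g x)
      (Real.tan θ * (Real.cos θ ^ (k + 2) * ∑ i, PT θ (pd i (pd i g)) x
        - Real.cos θ ^ (k + 1) * ∑ i, x i * PT θ (pd i g) x
        - (k : ℝ) * Real.cos θ ^ k * PT θ g x)) θ := by
  have h1 := ((Real.hasDerivAt_cos θ).pow k).mul (hasDerivAt_PT0 hg x θ)
  refine h1.congr_deriv ?_
  rw [Real.tan_eq_sin_div_cos]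
  rcases k with _ | k
  · field_simp
    simp
    ring
  · rw [Nat.add_sub_cancel, Pi.pow_apply]
    field_simp
    ring

end Pool.Agent.ZR.BL

end

section

/-!
# ZR/D4 : uniform bounds of `Phi`, `DPhi`, `D2Phi`, `Lap`, `ecI`, `ecD`

Everything follows from `g_entry_le` (C3), `|G_xy(z)| ≤ 1/|Im z|`, and `mz_norm_le`, `|m| ≤ 1/|Im z|`.
* `tr_ghg`: `|tr(G H G)| ≤ ∑_{x,a,b} |G_xa||H_ab||G_bx| ≤ n s1(H)/|Im z|²`.
* `dm_le`: `|dm| ≤ (1/n) n s1(H)/|Im z|²` (if `n = 0` everything is `0`).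
* `d2m_le`: `|tr(G H G H G)| ≤ ∑ |G_xa||H_ab||G_bc||H_cd||G_dx| ≤ n s1(H)²/|Im z|³`.
* `gpow_entry`: `|(G^j)_xy| ≤ n^j/|Im z|^j` (crude, induction on `j`; for `j = 0` the entry of `1`).
* the existence statements: take `η = min` of the `|Im|`'s; `|m - c| ≤ 1/|Im z| + |c|`; products and
  sums of finitely many bounded factors.  In `ecI_bd`, `ecD_bd` the bound must be uniform in `z` with
  `η ≤ |Im z|` (use `1/|Im z| ≤ 1/η`), in `σ` and in `B`; the entries of `H0 σ` are `±1/√n`, so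
  `|tr(H0 G^j)| ≤ n² (1/√n) n^j/η^j`; any constant is allowed.
-/


open MeasureTheory ProbabilityTheory Matrix

namespace Pool.Agent.ZR

variable {n : ℕ}

theorem s1_nonneg (H : Matrix (Fin n) (Fin n) ℝ) : 0 ≤ s1 H :=
  Finset.sum_nonneg fun _ _ => Finset.sum_nonneg fun _ _ => abs_nonneg _

private theorem d4_mul {A B : Matrix (Fin n) (Fin n) ℂ} {a b : ℝ} (hA : ∀ x y, ‖A x y‖ ≤ a)
    (hB : ∀ x y, ‖B x y‖ ≤ b) (ha : 0 ≤ a) (x y : Fin n) : ‖(A * B) x y‖ ≤ (n : ℝ) * (a * b) := by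
  rw [Matrix.mul_apply]
  calc ‖∑ k, A x k * B k y‖ ≤ ∑ k, ‖A x k * B k y‖ := norm_sum_le _ _
    _ ≤ ∑ _k : Fin n, a * b := by
        refine Finset.sum_le_sum fun k _ => ?_
        rw [norm_mul]
        exact mul_le_mul (hA x k) (hB k y) (norm_nonneg _) ha
    _ = (n : ℝ) * (a * b) := by simp

private theorem d4_trace {A : Matrix (Fin n) (Fin n) ℂ} {a : ℝ} (hA : ∀ x y, ‖A x y‖ ≤ a) :
    ‖A.trace‖ ≤ (n : ℝ) * a := by
  calc ‖A.trace‖ ≤ ∑ k, ‖A k k‖ := norm_sum_le _ _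
    _ ≤ ∑ _k : Fin n, a := Finset.sum_le_sum fun k _ => hA k k
    _ = (n : ℝ) * a := by simp

private theorem d4_sand {A C : Matrix (Fin n) (Fin n) ℂ} {a c : ℝ} (hA : ∀ x y, ‖A x y‖ ≤ a)
    (hC : ∀ x y, ‖C x y‖ ≤ c) (ha : 0 ≤ a) (H : Matrix (Fin n) (Fin n) ℝ) (x y : Fin n) :
    ‖(A * toC H * C) x y‖ ≤ a * c * s1 H := by
  rw [Matrix.mul_apply]
  calc ‖∑ k, (A * toC H) x k * C k y‖ ≤ ∑ k, ‖(A * toC H) x k * C k y‖ := norm_sum_le _ _
    _ ≤ ∑ k, (∑ i, a * |H i k|) * c := by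
        refine Finset.sum_le_sum fun k _ => ?_
        rw [norm_mul]
        refine mul_le_mul ?_ (hC k y) (norm_nonneg _)
          (Finset.sum_nonneg fun i _ => mul_nonneg ha (abs_nonneg _))
        rw [Matrix.mul_apply]
        refine (norm_sum_le _ _).trans (Finset.sum_le_sum fun i _ => ?_)
        rw [norm_mul]
        have h1 : ‖toC H i k‖ = |H i k| := by
          simp [toC]
        rw [h1]
        exact mul_le_mul_of_nonneg_right (hA x i) (abs_nonneg _)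
    _ = a * c * s1 H := by
        rw [s1, Finset.sum_comm, Finset.mul_sum]
        refine Finset.sum_congr rfl fun k _ => ?_
        rw [← Finset.mul_sum]
        ring

private theorem d4_cancel {t : ℝ} (ht : 0 ≤ t) : ‖(1 / (n : ℂ))‖ * ((n : ℝ) * t) ≤ t := by
  rcases Nat.eq_zero_or_pos n with h | h
  · subst h
    simpa using ht
  · have hn : (n : ℝ) ≠ 0 := by positivity
    rw [norm_div, norm_one, Complex.norm_natCast]
    apply le_of_eq
    field_simp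

theorem gpow_entry {B : Matrix (Fin n) (Fin n) ℝ} (h : PB (Pn n) B) {z : ℂ} (hz : z.im ≠ 0)
    (j : ℕ) (x y : Fin n) : ‖(Gz (Pn n) B z ^ j) x y‖ ≤ ((n : ℝ) / |z.im|) ^ j := by
  have him : 0 < |z.im| := abs_pos.mpr hz
  induction j generalizing x y with
  | zero =>
    rw [pow_zero, pow_zero, Matrix.one_apply]
    split_ifs <;> simp
  | succ j ih =>
    rw [pow_succ]
    refine (d4_mul ih (fun x y => g_entry_le h z hz x y) (by positivity) x y).trans ?_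
    apply le_of_eq
    rw [pow_succ]
    ring

theorem dm_le {B : Matrix (Fin n) (Fin n) ℝ} (h : PB (Pn n) B) {z : ℂ} (hz : z.im ≠ 0)
    (H : Matrix (Fin n) (Fin n) ℝ) : ‖dm n z B H‖ ≤ s1 H / |z.im| ^ 2 := by
  have him : 0 < |z.im| := abs_pos.mpr hz
  have h1 := d4_trace (d4_sand (fun x y => g_entry_le h z hz x y)
    (fun x y => g_entry_le h z hz x y) (by positivity) H)
  have h2 : (0 : ℝ) ≤ 1 / |z.im| * (1 / |z.im|) * s1 H := by
    have := s1_nonneg H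
    positivity
  rw [dm, norm_mul, norm_neg]
  refine (mul_le_mul_of_nonneg_left h1 (norm_nonneg _)).trans ((d4_cancel h2).trans ?_)
  apply le_of_eq
  field_simp

theorem d2m_le {B : Matrix (Fin n) (Fin n) ℝ} (h : PB (Pn n) B) {z : ℂ} (hz : z.im ≠ 0)
    (H : Matrix (Fin n) (Fin n) ℝ) : ‖d2m n z B H‖ ≤ 2 * s1 H ^ 2 / |z.im| ^ 3 := by
  have him : 0 < |z.im| := abs_pos.mpr hz
  have hs := s1_nonneg H
  have h1 := d4_sand (fun x y => g_entry_le h z hz x y)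
    (fun x y => g_entry_le h z hz x y) (by positivity) H
  have h2 := d4_trace (d4_sand h1 (fun x y => g_entry_le h z hz x y) (by positivity) H)
  have h3 : (0 : ℝ) ≤ 1 / |z.im| * (1 / |z.im|) * s1 H * (1 / |z.im|) * s1 H := by
    positivity
  rw [d2m, norm_mul]
  have h4 : ‖(2 / (n : ℂ))‖ = 2 * ‖(1 / (n : ℂ))‖ := by
    rw [norm_div, norm_div, norm_one]
    simp
    ring
  rw [h4, mul_assoc]
  refine (mul_le_mul_of_nonneg_left ((mul_le_mul_of_nonneg_left h2 (norm_nonneg _)).trans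
    (d4_cancel h3)) (by norm_num)).trans ?_
  apply le_of_eq
  field_simp

theorem phi_bd (n : ℕ) {L : ℕ} (zl cl : Fin L → ℂ) (hz : ∀ l, (zl l).im ≠ 0) :
    ∃ C : ℝ, 0 ≤ C ∧ ∀ B : Matrix (Fin n) (Fin n) ℝ, PB (Pn n) B →
      ‖Phi n zl cl B‖ ≤ C ∧ ∀ j, ‖PhiE n zl cl j B‖ ≤ C := by
  have hb : ∀ l, (0 : ℝ) ≤ 1 / |(zl l).im| + ‖cl l‖ := fun l => by positivity
  refine ⟨∏ l, (1 + (1 / |(zl l).im| + ‖cl l‖)), Finset.prod_nonneg fun l _ => by
    linarith [hb l], fun B hB => ?_⟩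
  have hf : ∀ l, ‖mz (Pn n) B (zl l) - cl l‖ ≤ 1 + (1 / |(zl l).im| + ‖cl l‖) := fun l =>
    (norm_sub_le _ _).trans (by linarith [mz_norm_le hB (zl l) (hz l)])
  refine ⟨?_, fun j => ?_⟩
  · rw [Phi, norm_prod]
    exact Finset.prod_le_prod (fun _ _ => norm_nonneg _) fun l _ => hf l
  · rw [PhiE, norm_prod]
    refine (Finset.prod_le_prod (fun _ _ => norm_nonneg _) fun l _ => hf l).trans ?_
    rw [← Finset.mul_prod_erase Finset.univ (fun l => (1 + (1 / |(zl l).im| + ‖cl l‖)))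
      (Finset.mem_univ j)]
    exact le_mul_of_one_le_left (Finset.prod_nonneg fun l _ => by linarith [hb l])
      (by linarith [hb j])

theorem dphi_bd (n : ℕ) {K : ℕ} (zl cl : Fin (K + 1) → ℂ) (hz : ∀ l, (zl l).im ≠ 0) :
    ∃ C : ℝ, 0 ≤ C ∧ ∀ B : Matrix (Fin n) (Fin n) ℝ, PB (Pn n) B →
      ∀ H : Matrix (Fin n) (Fin n) ℝ,
      ‖DPhi n zl cl B H‖ ≤ C * s1 H ∧ ‖D2Phi n zl cl B H‖ ≤ C * s1 H ^ 2 := by
  have hC : ∀ l : Fin (K + 1), ∃ C : ℝ, 0 ≤ C ∧ ∀ B : Matrix (Fin n) (Fin n) ℝ, PB (Pn n) B →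
      ‖Phi n (fun j : Fin K => zl (l.succAbove j)) (fun j : Fin K => cl (l.succAbove j)) B‖ ≤ C ∧
      ∀ j, ‖PhiE n (fun j : Fin K => zl (l.succAbove j))
        (fun j : Fin K => cl (l.succAbove j)) j B‖ ≤ C := fun l =>
    phi_bd n _ _ fun j => hz _
  choose C hC0 hC1 using hC
  set C1 : ℝ := ∑ l, 1 / |(zl l).im| ^ 2 * C l with hC1d
  set C2 : ℝ := ∑ l, (2 / |(zl l).im| ^ 3 * C l
    + 1 / |(zl l).im| ^ 2 * ∑ j : Fin K, 1 / |(zl (l.succAbove j)).im| ^ 2 * C l) with hC2d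
  have h1 : 0 ≤ C1 := Finset.sum_nonneg fun l _ => mul_nonneg (by positivity) (hC0 l)
  have h2 : 0 ≤ C2 := Finset.sum_nonneg fun l _ => add_nonneg
    (mul_nonneg (by positivity) (hC0 l))
    (mul_nonneg (by positivity) (Finset.sum_nonneg fun j _ =>
      mul_nonneg (by positivity) (hC0 l)))
  refine ⟨C1 + C2, by positivity, fun B hB H => ?_⟩
  have hs := s1_nonneg H
  constructor
  · have : ‖DPhi n zl cl B H‖ ≤ C1 * s1 H := by
      rw [DPhi, hC1d, Finset.sum_mul]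
      refine (norm_sum_le _ _).trans (Finset.sum_le_sum fun l _ => ?_)
      rw [norm_mul]
      refine (mul_le_mul (dm_le hB (hz l) H) (hC1 l B hB).1 (norm_nonneg _)
        (by positivity)).trans (le_of_eq ?_)
      ring
    exact this.trans (by nlinarith)
  · have : ‖D2Phi n zl cl B H‖ ≤ C2 * s1 H ^ 2 := by
      rw [D2Phi, hC2d, Finset.sum_mul]
      refine (norm_sum_le _ _).trans (Finset.sum_le_sum fun l _ => ?_)
      rw [add_mul]
      refine (norm_add_le _ _).trans (add_le_add ?_ ?_)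
      · rw [norm_mul]
        refine (mul_le_mul (d2m_le hB (hz l) H) (hC1 l B hB).1 (norm_nonneg _)
          (by positivity)).trans (le_of_eq ?_)
        ring
      · rw [norm_mul]
        have h3 : ‖∑ j : Fin K, dm n (zl (l.succAbove j)) B H
            * PhiE n (fun j : Fin K => zl (l.succAbove j)) (fun j : Fin K => cl (l.succAbove j))
              j B‖ ≤ ∑ j : Fin K, s1 H / |(zl (l.succAbove j)).im| ^ 2 * C l := by
          refine (norm_sum_le _ _).trans (Finset.sum_le_sum fun j _ => ?_)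
          rw [norm_mul]
          exact mul_le_mul (dm_le hB (hz _) H) ((hC1 l B hB).2 j) (norm_nonneg _)
            (by positivity)
        refine (mul_le_mul (dm_le hB (hz l) H) h3 (norm_nonneg _)
          (by positivity)).trans (le_of_eq ?_)
        rw [Finset.mul_sum, Finset.mul_sum, Finset.sum_mul]
        refine Finset.sum_congr rfl fun j _ => ?_
        ring
    exact this.trans (by nlinarith [sq_nonneg (s1 H)])

private theorem d4_lm (n : ℕ) (η : ℝ) (hη : 0 < η) :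
    ∃ C : ℝ, 0 ≤ C ∧ ∀ (z : ℂ) (B : Matrix (Fin n) (Fin n) ℝ), η ≤ |z.im| → PB (Pn n) B →
      ‖lm n z B‖ ≤ C := by
  refine ⟨2 * (1 / η) * (‖(1 / (n : ℂ))‖ * ((n : ℝ) * ((n : ℝ) / η) ^ 2))
    + ‖(2 / (n : ℂ) ^ 2)‖ * ((n : ℝ) * ((n : ℝ) / η) ^ 3), by positivity, fun z B hz hB => ?_⟩
  have him : 0 < |z.im| := hη.trans_le hz
  have him0 : z.im ≠ 0 := abs_pos.mp him
  have hp : ∀ j, ‖(Gz (Pn n) B z ^ j).trace‖ ≤ (n : ℝ) * ((n : ℝ) / η) ^ j := fun j =>
    (d4_trace (gpow_entry hB him0 j)).trans (by gcongr)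
  have hm : ‖mz (Pn n) B z‖ ≤ 1 / η := (mz_norm_le hB z him0).trans (by gcongr)
  rw [lm]
  refine (norm_add_le _ _).trans (add_le_add ?_ ?_)
  · rw [norm_mul, norm_mul, norm_mul]
    have : ‖(2 : ℂ)‖ = 2 := by simp
    rw [this]
    have := hp 2
    gcongr
  · rw [norm_mul]
    exact mul_le_mul_of_nonneg_left (hp 3) (norm_nonneg _)

private theorem d4_tt (n : ℕ) (i j : ℕ) (η η' : ℝ) (hη : 0 < η) (hη' : 0 < η') (z w : ℂ)
    (B : Matrix (Fin n) (Fin n) ℝ) (hz : η ≤ |z.im|) (hw : η' ≤ |w.im|) (hB : PB (Pn n) B) :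
    ‖(Gz (Pn n) B z ^ i * Gz (Pn n) B w ^ j).trace‖
      ≤ (n : ℝ) * ((n : ℝ) * (((n : ℝ) / η) ^ i * ((n : ℝ) / η') ^ j)) := by
  have him : 0 < |z.im| := hη.trans_le hz
  have him0 : z.im ≠ 0 := abs_pos.mp him
  have him' : 0 < |w.im| := hη'.trans_le hw
  have him0' : w.im ≠ 0 := abs_pos.mp him'
  refine d4_trace (d4_mul (fun x y => (gpow_entry hB him0 i x y).trans ?_)
    (fun x y => (gpow_entry hB him0' j x y).trans ?_) (by positivity))
  · gcongr
  · gcongr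

theorem lap_bd (n : ℕ) {K : ℕ} (zl cl : Fin (K + 1) → ℂ) (hz : ∀ l, (zl l).im ≠ 0) :
    ∃ C : ℝ, 0 ≤ C ∧ ∀ B : Matrix (Fin n) (Fin n) ℝ, PB (Pn n) B → ‖Lap n zl cl B‖ ≤ C := by
  have hC : ∀ l : Fin (K + 1), ∃ C : ℝ, 0 ≤ C ∧ ∀ B : Matrix (Fin n) (Fin n) ℝ, PB (Pn n) B →
      ‖Phi n (fun j : Fin K => zl (l.succAbove j)) (fun j : Fin K => cl (l.succAbove j)) B‖ ≤ C ∧
      ∀ j, ‖PhiE n (fun j : Fin K => zl (l.succAbove j))
        (fun j : Fin K => cl (l.succAbove j)) j B‖ ≤ C := fun l =>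
    phi_bd n _ _ fun j => hz _
  choose C hC0 hC1 using hC
  have hL : ∀ l : Fin (K + 1), ∃ D : ℝ, 0 ≤ D ∧ ∀ (z : ℂ) (B : Matrix (Fin n) (Fin n) ℝ),
      |(zl l).im| ≤ |z.im| → PB (Pn n) B → ‖lm n z B‖ ≤ D := fun l =>
    d4_lm n _ (abs_pos.mpr (hz l))
  choose D hD0 hD1 using hL
  have hpos : ∀ l, 0 < |(zl l).im| := fun l => abs_pos.mpr (hz l)
  refine ⟨∑ l, (D l * C l + ‖(2 / (n : ℂ) ^ 3)‖ * ∑ j : Fin K,
    (n : ℝ) * ((n : ℝ) * (((n : ℝ) / |(zl l).im|) ^ 2 * ((n : ℝ) /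
      |(zl (l.succAbove j)).im|) ^ 2)) * C l), ?_, fun B hB => ?_⟩
  · refine Finset.sum_nonneg fun l _ => add_nonneg (mul_nonneg (hD0 l) (hC0 l))
      (mul_nonneg (norm_nonneg _) (Finset.sum_nonneg fun j _ => mul_nonneg (by positivity)
        (hC0 l)))
  · rw [Lap]
    refine (norm_sum_le _ _).trans (Finset.sum_le_sum fun l _ => ?_)
    refine (norm_add_le _ _).trans (add_le_add ?_ ?_)
    · rw [norm_mul]
      exact mul_le_mul (hD1 l _ B le_rfl hB) (hC1 l B hB).1 (norm_nonneg _) (hD0 l)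
    · rw [norm_mul]
      refine mul_le_mul_of_nonneg_left ((norm_sum_le _ _).trans
        (Finset.sum_le_sum fun j _ => ?_)) (norm_nonneg _)
      rw [norm_mul]
      exact mul_le_mul (d4_tt n 2 2 _ _ (hpos l) (hpos _) _ _ B le_rfl le_rfl hB)
        ((hC1 l B hB).2 j) (norm_nonneg _) (by positivity)

theorem ec_bd (n : ℕ) (α : ℝ) {K : ℕ} (zl cl : Fin K → ℂ) (hz : ∀ l, (zl l).im ≠ 0) (η : ℝ)
    (hη : 0 < η) :
    ∃ C : ℝ, 0 ≤ C ∧ ∀ (z : ℂ) (σ : Fin n → Fin n → Bool) (B : Matrix (Fin n) (Fin n) ℝ),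
      η ≤ |z.im| → PB (Pn n) B →
      ‖ecI n α zl cl z σ B‖ ≤ C ∧ ‖ecD n α zl cl z σ B‖ ≤ C := by
  obtain ⟨C, hC0, hC1⟩ := phi_bd n zl cl hz
  obtain ⟨D, hD0, hD1⟩ := d4_lm n η hη
  have hpos : ∀ l, 0 < |(zl l).im| := fun l => abs_pos.mpr (hz l)
  -- entries of `H0`
  have hH : ∀ (σ : Fin n → Fin n → Bool) (x y : Fin n), ‖toC (H0 σ) x y‖ ≤ 1 / Real.sqrt n := by
    intro σ x y
    have : toC (H0 σ) x y = ((1 / Real.sqrt (n : ℝ) * (if σ x y then (1 : ℝ) else -1) : ℝ) : ℂ) := by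
      simp [toC, H0, Mx]
    rw [this, Complex.norm_real, Real.norm_eq_abs, abs_mul]
    have h1 : |(if σ x y then (1 : ℝ) else -1)| = 1 := by split_ifs <;> simp
    rw [h1, mul_one, abs_of_nonneg (by positivity)]
  set g : ℝ := (n : ℝ) / η with hg
  have hg0 : 0 ≤ g := by positivity
  set T : ℕ → ℝ := fun j => (n : ℝ) * ((n : ℝ) * (1 / Real.sqrt n * g ^ j)) with hT
  have hT0 : ∀ j, 0 ≤ T j := fun j => by positivity
  have hTr : ∀ (z : ℂ) (σ : Fin n → Fin n → Bool) (B : Matrix (Fin n) (Fin n) ℝ) (j : ℕ),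
      η ≤ |z.im| → PB (Pn n) B → ‖(toC (H0 σ) * Gz (Pn n) B z ^ j).trace‖ ≤ T j := by
    intro z σ B j hzi hB
    have him : 0 < |z.im| := hη.trans_le hzi
    have him0 : z.im ≠ 0 := abs_pos.mp him
    refine d4_trace (d4_mul (hH σ) (fun x y => (gpow_entry hB him0 j x y).trans ?_)
      (by positivity))
    rw [hg]
    gcongr
  set CI : ℝ := (‖(1 / (n : ℂ))‖ * T 1 + ‖(α : ℂ)‖ * ((1 / η) ^ 2
      + ‖(1 / (n : ℂ) ^ 2)‖ * ((n : ℝ) * g ^ 2))) * C
    + ‖(2 * (α : ℂ) / (n : ℂ) ^ 3)‖ * ∑ l,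
      (n : ℝ) * ((n : ℝ) * (g ^ 1 * ((n : ℝ) / |(zl l).im|) ^ 2)) * C with hCI
  set CD : ℝ := (‖(1 / (n : ℂ))‖ * T 2 + ‖(α : ℂ)‖ * D) * C
    + ‖(2 * (α : ℂ) / (n : ℂ) ^ 3)‖ * ∑ l,
      (n : ℝ) * ((n : ℝ) * (g ^ 2 * ((n : ℝ) / |(zl l).im|) ^ 2)) * C with hCD
  have hCI0 : 0 ≤ CI := by
    refine add_nonneg (mul_nonneg (by have := hT0 1; positivity) hC0)
      (mul_nonneg (norm_nonneg _) (Finset.sum_nonneg fun l _ => mul_nonneg (by positivity) hC0))
  have hCD0 : 0 ≤ CD := by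
    refine add_nonneg (mul_nonneg (by have := hT0 2; positivity) hC0)
      (mul_nonneg (norm_nonneg _) (Finset.sum_nonneg fun l _ => mul_nonneg (by positivity) hC0))
  refine ⟨CI + CD, by positivity, fun z σ B hzi hB => ?_⟩
  have him : 0 < |z.im| := hη.trans_le hzi
  have him0 : z.im ≠ 0 := abs_pos.mp him
  have hm : ‖mz (Pn n) B z‖ ≤ 1 / η := (mz_norm_le hB z him0).trans (by gcongr)
  have hp : ‖(Gz (Pn n) B z ^ 2).trace‖ ≤ (n : ℝ) * g ^ 2 :=
    (d4_trace (gpow_entry hB him0 2)).trans (by rw [hg]; gcongr)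
  obtain ⟨hP, hPE⟩ := hC1 B hB
  have hI : ‖ecI n α zl cl z σ B‖ ≤ CI := by
    rw [ecI, hCI]
    refine (norm_add_le _ _).trans (add_le_add ?_ ?_)
    · rw [norm_mul]
      refine mul_le_mul ?_ hP (norm_nonneg _) (by have := hT0 1; positivity)
      refine (norm_add_le _ _).trans (add_le_add ?_ ?_)
      · rw [norm_mul]
        have := hTr z σ B 1 hzi hB
        rw [pow_one] at this
        exact mul_le_mul_of_nonneg_left this (norm_nonneg _)
      · rw [norm_mul]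
        refine mul_le_mul_of_nonneg_left ((norm_add_le _ _).trans (add_le_add ?_ ?_))
          (norm_nonneg _)
        · rw [norm_pow]
          gcongr
        · rw [norm_mul]
          exact mul_le_mul_of_nonneg_left hp (norm_nonneg _)
    · rw [norm_mul]
      refine mul_le_mul_of_nonneg_left ((norm_sum_le _ _).trans
        (Finset.sum_le_sum fun l _ => ?_)) (norm_nonneg _)
      rw [norm_mul]
      refine mul_le_mul ?_ (hPE l) (norm_nonneg _) (by positivity)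
      have := d4_tt n 1 2 η _ hη (hpos l) z (zl l) B hzi le_rfl hB
      rw [pow_one (Gz (Pn n) B z)] at this
      exact this
  have hD : ‖ecD n α zl cl z σ B‖ ≤ CD := by
    rw [ecD, hCD]
    refine (norm_add_le _ _).trans (add_le_add ?_ ?_)
    · rw [norm_mul]
      refine mul_le_mul ?_ hP (norm_nonneg _) (by have := hT0 2; positivity)
      refine (norm_add_le _ _).trans (add_le_add ?_ ?_)
      · rw [norm_mul]
        exact mul_le_mul_of_nonneg_left (hTr z σ B 2 hzi hB) (norm_nonneg _)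
      · rw [norm_mul]
        exact mul_le_mul_of_nonneg_left (hD1 z B hzi hB) (norm_nonneg _)
    · rw [norm_mul]
      refine mul_le_mul_of_nonneg_left ((norm_sum_le _ _).trans
        (Finset.sum_le_sum fun l _ => ?_)) (norm_nonneg _)
      rw [norm_mul]
      exact mul_le_mul (d4_tt n 2 2 η _ hη (hpos l) z (zl l) B hzi le_rfl hB) (hPE l)
        (norm_nonneg _) (by positivity)
  exact ⟨hI.trans (by linarith), hD.trans (by linarith)⟩

end Pool.Agent.ZR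

end

section

/-!
# ZR, part G: the lists of terms on the good event, and the normalised main integrand.

`M` is a sign matrix with zero row sums, `L = √n p`, `1 ≤ p`, `1/η ≤ n p`.
With `Bd M G η p` take `γ = p`, `h = n p` (`hs2 G ≤ n p/η ≤ (n p)²`), `τ = n p`, `d = n p`
(`n² p ≤ (n p)²`), `hv = τv = dv = n p/η` (`n p/η³ ≤ (n p/η)²` because `1/η ≤ n p`;
`n² p/η² ≤ (n p/η)²`), `V = G_l²`; `√n * √n = n`, `1 ≤ √n ≤ n`.
* `g_l`: `llist`: `L³τ = n²√n p⁴` etc., sum of the constants `1+1+3+5+2+1+144 = 157`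
  (`L³τ, n L³ γ ≤ n²√n p⁴`; `3 n L τ, 5 L n h ≤ .. n²√n p²`; `2 d L √n = 2 n² p²`; `L² τ = n² p³`).
* `g_p`: `plist` with `g i = G i i`: `L² n γ + 24 n² γ ≤ 25 n² p³ ≤ 25 n²√n p⁴`.
* `g_r`: `rlist` (`G * G = G ^ 2`) and `sum4_adj_err` with `b = 64 p²` (`alt8_norm`; `xiG` consists of
  8 products of two entries): `18 + 2 + 256 = 276`.
* `g_v`: `vlist` and `sum4_adj_err` with `b = 64 p²/η` (`xiV ≤ 8 p/η` by `ev`): `16+4+256 = 276`.
* `g_t`: `|tr G| ≤ ∑ |G_ii| ≤ n p`.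
-/


open MeasureTheory ProbabilityTheory Matrix

namespace Pool.Agent.ZR.G

private theorem ln_facts {n : ℕ} (hn : 1 ≤ n) {p : ℝ} (hp : 1 ≤ p) :
    (1 : ℝ) ≤ n ∧ 1 ≤ Real.sqrt n ∧ Real.sqrt n * Real.sqrt n = n ∧
      p ≤ p ^ 4 ∧ p ^ 2 ≤ p ^ 4 ∧ p ^ 3 ≤ p ^ 4 := by
  have h1 : (1 : ℝ) ≤ n := by exact_mod_cast hn
  refine ⟨h1, ?_, Real.mul_self_sqrt (by linarith), ?_, ?_, ?_⟩
  · rw [show (1 : ℝ) = Real.sqrt 1 by simp]
    exact Real.sqrt_le_sqrt h1
  · have := pow_le_pow_right₀ hp (show 1 ≤ 4 by norm_num)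
    simpa using this
  · exact pow_le_pow_right₀ hp (by norm_num)
  · exact pow_le_pow_right₀ hp (by norm_num)

private theorem hs_fact {n : ℕ} {M G : Matrix (Fin n) (Fin n) ℂ} (η p : ℝ)
    (hη : 0 < η) (hp : 1 ≤ p) (hx : 1 / η ≤ n * p) (hG : Bd M G η p) :
    hs2 G ≤ (n * p) ^ 2 := by
  refine hG.hs.trans ?_
  have h0 : (0 : ℝ) ≤ n * p := mul_nonneg (Nat.cast_nonneg n) (by linarith)
  calc (n : ℝ) * p / η = (n * p) * (1 / η) := by ring
    _ ≤ (n * p) * (n * p) := mul_le_mul_of_nonneg_left hx h0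
    _ = _ := by ring

private theorem dd_fact {n : ℕ} {M G : Matrix (Fin n) (Fin n) ℂ} (η p : ℝ)
    (hp : 1 ≤ p) (hG : Bd M G η p) :
    ∑ j, ‖(M * G) j j‖ ^ 2 ≤ (n * p) ^ 2 := by
  refine hG.dd.trans ?_
  have h0 : (0 : ℝ) ≤ (n : ℝ) ^ 2 := by positivity
  have h1 : p ≤ p ^ 2 := by nlinarith
  calc (n : ℝ) ^ 2 * p ≤ (n : ℝ) ^ 2 * p ^ 2 := mul_le_mul_of_nonneg_left h1 h0
    _ = _ := by ring

theorem g_l {n : ℕ} (hn : 1 ≤ n) {M G : Matrix (Fin n) (Fin n) ℂ} (hM : IsSg M) (η p : ℝ)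
    (hη : 0 < η) (hp : 1 ≤ p) (hx : 1 / η ≤ n * p) (hL : OpLe M (Real.sqrt n * p))
    (hG : Bd M G η p) :
    ‖SL M G - ((n : ℂ) ^ 2 * (M * G).trace - (n : ℂ) ^ 2 * ∑ i, M i i * G i i)‖
      ≤ 157 * ((n : ℝ) ^ 2 * Real.sqrt n * p ^ 4) := by
  obtain ⟨h1, h2, h3, p1, p2, p3⟩ := ln_facts hn hp
  have hp0 : 0 ≤ p := by linarith
  have hnp : 0 ≤ (n : ℝ) * p := mul_nonneg (by linarith) hp0
  have h := llist hM hG.rs (Real.sqrt n * p) p (n * p) (n * p) (n * p) hL hG.en hp0 hnp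
    (hs_fact η p hη hp hx hG) hG.nu hnp (dd_fact η p hp hG)
  unfold SL
  refine h.trans ?_
  set s := Real.sqrt (n : ℝ) with hs
  set N : ℝ := (n : ℝ) with hN
  have hN2 : 0 ≤ N ^ 2 := by positivity
  have hN2s : 0 ≤ N ^ 2 * s := mul_nonneg hN2 (by linarith)
  have e1 : (s * p) ^ 3 * (N * p) = N ^ 2 * s * p ^ 4 := by
    calc (s * p) ^ 3 * (N * p) = (s * s) * s * N * p ^ 4 := by ring
      _ = _ := by rw [h3]; ring
  have e2 : N * (s * p) ^ 3 * p = N ^ 2 * s * p ^ 4 := by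
    calc N * (s * p) ^ 3 * p = (s * s) * s * N * p ^ 4 := by ring
      _ = _ := by rw [h3]; ring
  have e3 : N * (s * p) * (N * p) = N ^ 2 * s * p ^ 2 := by ring
  have e4 : s * p * N * (N * p) = N ^ 2 * s * p ^ 2 := by ring
  have e5 : N * p * (s * p * s) = N ^ 2 * p ^ 2 := by
    calc N * p * (s * p * s) = (s * s) * N * p ^ 2 := by ring
      _ = _ := by rw [h3]; ring
  have e6 : (s * p) ^ 2 * (N * p) = N ^ 2 * p ^ 3 := by
    calc (s * p) ^ 2 * (N * p) = (s * s) * N * p ^ 3 := by ring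
      _ = _ := by rw [h3]; ring
  have b2 : N ^ 2 * s * p ^ 2 ≤ N ^ 2 * s * p ^ 4 := mul_le_mul_of_nonneg_left p2 hN2s
  have hs4 : N ^ 2 * p ^ 4 ≤ N ^ 2 * s * p ^ 4 := by
    have : N ^ 2 * 1 ≤ N ^ 2 * s := mul_le_mul_of_nonneg_left h2 hN2
    rw [mul_one] at this
    exact mul_le_mul_of_nonneg_right this (by positivity)
  have b5 : N ^ 2 * p ^ 2 ≤ N ^ 2 * s * p ^ 4 :=
    (mul_le_mul_of_nonneg_left p2 hN2).trans hs4
  have b6 : N ^ 2 * p ^ 3 ≤ N ^ 2 * s * p ^ 4 :=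
    (mul_le_mul_of_nonneg_left p3 hN2).trans hs4
  have b7 : N ^ 2 * p ≤ N ^ 2 * s * p ^ 4 :=
    (mul_le_mul_of_nonneg_left p1 hN2).trans hs4
  rw [e1, e2, e3, e4, e5, e6]
  linarith

theorem g_p {n : ℕ} (hn : 1 ≤ n) {M G : Matrix (Fin n) (Fin n) ℂ} (hM : IsSg M) (η p : ℝ)
    (hη : 0 < η) (hp : 1 ≤ p) (hL : OpLe M (Real.sqrt n * p)) (hG : Bd M G η p) :
    ‖SP M G - ((n : ℂ) ^ 2 * (∑ i, M i i * G i i) - (n : ℂ) * M.trace * G.trace)‖
      ≤ 25 * ((n : ℝ) ^ 2 * Real.sqrt n * p ^ 4) := by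
  obtain ⟨h1, h2, h3, p1, p2, p3⟩ := ln_facts hn hp
  have hp0 : 0 ≤ p := by linarith
  have h := plist hM (fun i => G i i) (Real.sqrt n * p) p hL hp0 (fun i => hG.en i i)
  have e : SP M G - ((n : ℂ) ^ 2 * (∑ i, M i i * G i i) - (n : ℂ) * M.trace * G.trace)
      = (∑ i, ∑ j, ∑ k, if i ≠ j ∧ j ≠ k ∧ i ≠ k then s8p M i j k * (fun i => G i i) i else 0)
        - ((n : ℂ) ^ 2 * (∑ i, M i i * (fun i => G i i) i)
          - (n : ℂ) * M.trace * ∑ i, (fun i => G i i) i) := rfl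
  rw [e]
  refine h.trans ?_
  set s := Real.sqrt (n : ℝ) with hs
  set N : ℝ := (n : ℝ) with hN
  have hN2 : 0 ≤ N ^ 2 := by positivity
  have hs4 : N ^ 2 * p ^ 4 ≤ N ^ 2 * s * p ^ 4 := by
    have : N ^ 2 * 1 ≤ N ^ 2 * s := mul_le_mul_of_nonneg_left h2 hN2
    rw [mul_one] at this
    exact mul_le_mul_of_nonneg_right this (by positivity)
  have e6 : (s * p) ^ 2 * N * p = N ^ 2 * p ^ 3 := by
    calc (s * p) ^ 2 * N * p = (s * s) * N * p ^ 3 := by ring
      _ = _ := by rw [h3]; ring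
  have b6 : N ^ 2 * p ^ 3 ≤ N ^ 2 * s * p ^ 4 :=
    (mul_le_mul_of_nonneg_left p3 hN2).trans hs4
  have b7 : N ^ 2 * p ≤ N ^ 2 * s * p ^ 4 :=
    (mul_le_mul_of_nonneg_left p1 hN2).trans hs4
  rw [e6]
  linarith

private theorem gq_norm {n : ℕ} {G : Matrix (Fin n) (Fin n) ℂ} {p : ℝ} (hp : 0 ≤ p)
    (hG : EnLe G p) (j i a b : Fin n) : ‖gq G j i a b‖ ≤ 2 * p ^ 2 := by
  unfold gq
  refine (norm_add_le _ _).trans ?_
  rw [norm_mul, norm_mul]
  have h1 : ‖G j a‖ * ‖G b i‖ ≤ p * p :=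
    mul_le_mul (hG j a) (hG b i) (norm_nonneg _) hp
  have h2 : ‖G j b‖ * ‖G a i‖ ≤ p * p :=
    mul_le_mul (hG j b) (hG a i) (norm_nonneg _) hp
  nlinarith

private theorem n4 (a b c d : ℂ) : ‖a - b + c - d‖ ≤ ‖a‖ + ‖b‖ + ‖c‖ + ‖d‖ := by
  refine (norm_sub_le _ _).trans (add_le_add ?_ le_rfl)
  refine (norm_add_le _ _).trans (add_le_add ?_ le_rfl)
  exact norm_sub_le _ _

private theorem xiG_norm {n : ℕ} {G : Matrix (Fin n) (Fin n) ℂ} {p : ℝ} (hp : 0 ≤ p)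
    (hG : EnLe G p) (i j k l : Fin n) : ‖xiG G i j k l‖ ≤ 8 * p ^ 2 := by
  unfold xiG
  refine (n4 _ _ _ _).trans ?_
  have h1 := gq_norm hp hG j i i j
  have h2 := gq_norm hp hG j i j k
  have h3 := gq_norm hp hG j i k l
  have h4 := gq_norm hp hG j i l i
  linarith

private theorem xiV_norm {n : ℕ} {V : Matrix (Fin n) (Fin n) ℂ} {p : ℝ}
    (hV : EnLe V p) (i j k l : Fin n) : ‖xiV V i j k l‖ ≤ 8 * p := by
  unfold xiV
  rw [norm_mul]
  have h0 : ‖(2 : ℂ)‖ = 2 := by simp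
  have h := n4 (V i j) (V j k) (V k l) (V l i)
  have h1 := hV i j
  have h2 := hV j k
  have h3 := hV k l
  have h4 := hV l i
  rw [h0]
  linarith

theorem g_r {n : ℕ} (hn : 1 ≤ n) {M G : Matrix (Fin n) (Fin n) ℂ} (hM : IsSg M) (η p : ℝ)
    (hη : 0 < η) (hp : 1 ≤ p) (hx : 1 / η ≤ n * p) (hL : OpLe M (Real.sqrt n * p))
    (hG : Bd M G η p) :
    ‖SR M G - (n : ℂ) ^ 2 * ((G ^ 2).trace + G.trace ^ 2)‖ ≤ 276 * ((n : ℝ) ^ 3 * p ^ 4) := by
  obtain ⟨h1, h2, h3, p1, p2, p3⟩ := ln_facts hn hp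
  have hp0 : 0 ≤ p := by linarith
  have hnp : 0 ≤ (n : ℝ) * p := mul_nonneg (by linarith) hp0
  have h := rlist hM hG.rs (Real.sqrt n * p) p (n * p) (n * p) (n * p) hL hG.en hp0 hnp
    (hs_fact η p hη hp hx hG) hG.nu (dd_fact η p hp hG)
  have h' := sum4_adj_err (fun i j k l => alt8 M i j k l * xiG G i j k l) (64 * p ^ 2)
    (fun i j k l => by
      rw [norm_mul]
      have a1 := alt8_norm hM i j k l
      have a2 := xiG_norm hp0 hG.en i j k l
      have a3 := mul_le_mul a1 a2 (norm_nonneg _) (by norm_num)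
      refine a3.trans (le_of_eq ?_)
      ring)
  have e : SR M G - (n : ℂ) ^ 2 * ((G ^ 2).trace + G.trace ^ 2)
      = ((∑ i, ∑ j, ∑ k, ∑ l, if Adj4 i j k l then alt8 M i j k l * xiG G i j k l else 0)
          - ∑ i, ∑ j, ∑ k, ∑ l, alt8 M i j k l * xiG G i j k l)
        + ((∑ i, ∑ j, ∑ k, ∑ l, alt8 M i j k l * xiG G i j k l)
          - (n : ℂ) ^ 2 * ((G * G).trace + G.trace ^ 2)) := by
    unfold SR
    rw [sq G]
    ring
  rw [e]
  refine (norm_add_le _ _).trans ?_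
  refine (add_le_add h' h).trans ?_
  set s := Real.sqrt (n : ℝ) with hs
  set N : ℝ := (n : ℝ) with hN
  have hN3 : 0 ≤ N ^ 3 := by positivity
  have b2 : N ^ 3 * p ^ 2 ≤ N ^ 3 * p ^ 4 := mul_le_mul_of_nonneg_left p2 hN3
  have e1 : (s * p) ^ 2 * (p * N * (N * p) + p ^ 2 * N ^ 2 + 7 * (N * p * (N * p))
      + 8 * (N * p) ^ 2 + (N * p) ^ 2) + 2 * (N * (N * p) ^ 2)
      = 18 * (N ^ 3 * p ^ 4) + 2 * (N ^ 3 * p ^ 2) := by
    have : (s * p) ^ 2 = N * p ^ 2 := by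
      calc (s * p) ^ 2 = (s * s) * p ^ 2 := by ring
        _ = _ := by rw [h3]
    rw [this]
    ring
  rw [e1]
  nlinarith

theorem g_v {n : ℕ} (hn : 1 ≤ n) {M G G' : Matrix (Fin n) (Fin n) ℂ} (hM : IsSg M) (η p : ℝ)
    (hη : 0 < η) (hp : 1 ≤ p) (hx : 1 / η ≤ n * p) (hL : OpLe M (Real.sqrt n * p))
    (hG : Bd M G η p) (hG' : Bd M G' η p) :
    ‖SV M G (G' ^ 2) - 2 * (n : ℂ) ^ 2 * (G * G' ^ 2).trace‖
      ≤ 276 * ((n : ℝ) ^ 3 * p ^ 4 / η) := by
  obtain ⟨h1, h2, h3, p1, p2, p3⟩ := ln_facts hn hp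
  have hp0 : 0 ≤ p := by linarith
  have hnp : 0 ≤ (n : ℝ) * p := mul_nonneg (by linarith) hp0
  have hη2 : 0 ≤ (1 / η) ^ 2 := by positivity
  have hnv : 0 ≤ (n : ℝ) * p / η := div_nonneg hnp hη.le
  have hsv : hs2 (G' ^ 2) ≤ (n * p / η) ^ 2 := by
    refine hG'.hv.trans ?_
    calc (n : ℝ) * p / η ^ 3 = (n * p) * (1 / η) ^ 2 * (1 / η) := by field_simp
      _ ≤ (n * p) * (1 / η) ^ 2 * (n * p) :=
        mul_le_mul_of_nonneg_left hx (mul_nonneg hnp hη2)
      _ = _ := by field_simp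
  have hdv : ∑ j, ‖(M * G' ^ 2) j j‖ ^ 2 ≤ (n * p / η) ^ 2 := by
    refine hG'.dv.trans ?_
    have h4 : p ≤ p ^ 2 := by nlinarith
    calc (n : ℝ) ^ 2 * p / η ^ 2 = (n : ℝ) ^ 2 * (1 / η) ^ 2 * p := by field_simp
      _ ≤ (n : ℝ) ^ 2 * (1 / η) ^ 2 * p ^ 2 :=
        mul_le_mul_of_nonneg_left h4 (by positivity)
      _ = _ := by field_simp
  have h := vlist hM hG.rs hG'.rv (Real.sqrt n * p) p (n * p) (n * p / η) (n * p) (n * p / η)
    (n * p) (n * p / η) hL hG.en hp0 hnp (hs_fact η p hη hp hx hG) hnv hsv hG.nu hG'.nv hnp hnv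
    (dd_fact η p hp hG) hdv
  have h' := sum4_adj_err (fun i j k l => alt8 M i j k l * (G j i * xiV (G' ^ 2) i j k l))
    (64 * p ^ 2 / η)
    (fun i j k l => by
      rw [norm_mul, norm_mul]
      have a1 := alt8_norm hM i j k l
      have a2 := xiV_norm hG'.ev i j k l
      have a4 := mul_le_mul (hG.en j i) a2 (norm_nonneg _) hp0
      have a3 := mul_le_mul a1 a4 (mul_nonneg (norm_nonneg _) (norm_nonneg _)) (by norm_num)
      refine a3.trans (le_of_eq ?_)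
      ring)
  have e : SV M G (G' ^ 2) - 2 * (n : ℂ) ^ 2 * (G * G' ^ 2).trace
      = ((∑ i, ∑ j, ∑ k, ∑ l, if Adj4 i j k l then
            alt8 M i j k l * (G j i * xiV (G' ^ 2) i j k l) else 0)
          - ∑ i, ∑ j, ∑ k, ∑ l, alt8 M i j k l * (G j i * xiV (G' ^ 2) i j k l))
        + ((∑ i, ∑ j, ∑ k, ∑ l, alt8 M i j k l * (G j i * xiV (G' ^ 2) i j k l))
          - 2 * (n : ℂ) ^ 2 * (G * G' ^ 2).trace) := by
    unfold SV
    ring
  rw [e]
  refine (norm_add_le _ _).trans ?_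
  refine (add_le_add h' h).trans ?_
  set s := Real.sqrt (n : ℝ) with hs
  set N : ℝ := (n : ℝ) with hN
  have hN3 : 0 ≤ N ^ 3 / η := by positivity
  have b2 : N ^ 3 / η * p ^ 2 ≤ N ^ 3 / η * p ^ 4 := mul_le_mul_of_nonneg_left p2 hN3
  have e1 : 4 * N ^ 3 * (64 * p ^ 2 / η) + 2 * ((s * p) ^ 2 * (p * N * (N * p / η)
      + 6 * (N * p * (N * p / η)) + N * p * (N * p / η)) + 2 * (N * (N * p * (N * p / η))))
      = 256 * (N ^ 3 / η * p ^ 2) + 16 * (N ^ 3 / η * p ^ 4) + 4 * (N ^ 3 / η * p ^ 2) := by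
    have : (s * p) ^ 2 = N * p ^ 2 := by
      calc (s * p) ^ 2 = (s * s) * p ^ 2 := by ring
        _ = _ := by rw [h3]
    rw [this]
    ring
  rw [e1]
  have e2 : 276 * (N ^ 3 * p ^ 4 / η) = 276 * (N ^ 3 / η * p ^ 4) := by ring
  rw [e2]
  linarith

theorem g_t {n : ℕ} {M G : Matrix (Fin n) (Fin n) ℂ} (η p : ℝ) (hG : Bd M G η p) :
    ‖G.trace‖ ≤ n * p := by
  rw [Matrix.trace]
  refine (norm_sum_le _ _).trans ?_
  refine (Finset.sum_le_sum (g := fun _ => p) fun i _ => hG.en i i).trans ?_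
  simp

end Pool.Agent.ZR.G

end

section

/-!
# ZR/JWegP : Wegner estimate with overwhelming probability

`N = 0`: there are no eigenvalues (`cntI = 0 < T`), the event is empty.  Let the size be `N + 1`,
`A = Dw τ d X`, `m = cntI A x r`, `m_i = cntI (mino i A) x r`, `q_i = qf (mino i A) (rowv i A) z`,
`z = x + ir`; by `qf_Dw` `Im q_i = τ S_i`, `S_i = Im qf (M_i) (g_i) z`, where
`M_i = mino i A = Dw τ (d ∘ i.succAbove) (subX i X)` (`mino_Dw`) and `g_i = rowX i X`.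
Claim: `{T ≤ m} ⊆ ⋃_i {T - 1 ≤ m_i and S_i < m_i/(4r)}`.
-/


open MeasureTheory ProbabilityTheory Matrix

namespace Pool.Agent.ZR

theorem wegner_prob {N : ℕ} (τ : ℝ) (hτ : 0 < τ) (d : Fin N → ℝ) (x r : ℝ) (hr : 0 < r)
    (T : ℝ) (hT : 2 ≤ T) (h : 8 * N * r ^ 2 / τ < T * (T - 1)) :
    (gm N).real {X | T ≤ (cntI (Dw τ d X) x r : ℝ)} ≤ N * Real.exp (-(T - 1) / 11) := by
  cases N with
  | zero =>
    have h0 : {X : Fin 0 × Fin 0 → ℝ | T ≤ (cntI (Dw τ d X) x r : ℝ)} = ∅ := by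
      ext X
      simp only [Set.mem_setOf_eq, Set.mem_empty_iff_false, iff_false, not_le]
      rw [cntI_eq _ (Dw_symm τ d X)]
      simp
      linarith
    rw [h0]
    simp
  | succ N =>
    let M : Fin (N + 1) → (Fin N × Fin N → ℝ) → Matrix (Fin N) (Fin N) ℝ :=
      fun i Y => Dw τ (fun j => d (i.succAbove j)) Y
    let E : Fin (N + 1) → Set ((Fin N × Fin N → ℝ) × (Fin N → ℝ)) := fun i =>
      {p | T - 1 ≤ (cntI (M i p.1) x r : ℝ) ∧
        (qf (M i p.1) p.2 (⟨x, r⟩ : ℂ)).im < (cntI (M i p.1) x r : ℝ) / (4 * r)}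
    have hsub : {X : Fin (N + 1) × Fin (N + 1) → ℝ | T ≤ (cntI (Dw τ d X) x r : ℝ)}
        ⊆ ⋃ i, {X | (subX i X, rowX i X) ∈ E i} := by
      intro X hX
      simp only [Set.mem_setOf_eq] at hX
      by_contra hcon
      simp only [Set.mem_iUnion, not_exists] at hcon
      set m : ℝ := (cntI (Dw τ d X) x r : ℝ) with hm
      have hmi : ∀ i, m - 1 ≤ (cntI (M i (subX i X)) x r : ℝ) := by
        intro i
        have h1 := cntI_mino i (Dw τ d X) (Dw_symm τ d X) x r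
        rw [mino_Dw] at h1
        have h2 : m ≤ (cntI (M i (subX i X)) x r : ℝ) + 1 := by
          rw [hm]
          exact_mod_cast h1
        linarith
      have hS : ∀ i, (m - 1) / (4 * r) ≤ (qf (M i (subX i X)) (rowX i X) (⟨x, r⟩ : ℂ)).im := by
        intro i
        have h1 := hcon i
        simp only [E, Set.mem_setOf_eq, not_and, not_lt] at h1
        have h2 := h1 (by linarith [hmi i])
        refine le_trans ?_ h2
        apply div_le_div_of_nonneg_right (hmi i) (by positivity)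
      have hm1 : 0 < m - 1 := by linarith
      have hterm : ∀ i, 1 / (r + (qf (mino i (Dw τ d X)) (rowv i (Dw τ d X)) (⟨x, r⟩ : ℂ)).im)
          ≤ 4 * r / (τ * (m - 1)) := by
        intro i
        rw [qf_Dw i τ hτ.le, Complex.im_ofReal_mul]
        have h1 := hS i
        have h2 : τ * ((m - 1) / (4 * r)) ≤
            r + τ * (qf (M i (subX i X)) (rowX i X) (⟨x, r⟩ : ℂ)).im := by
          have := mul_le_mul_of_nonneg_left h1 hτ.le
          linarith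
        have h3 : 0 < τ * ((m - 1) / (4 * r)) := by positivity
        have h4 : 4 * r / (τ * (m - 1)) = 1 / (τ * ((m - 1) / (4 * r))) := by
          field_simp
        rw [h4]
        exact one_div_le_one_div_of_le h3 h2
      have hle := cntI_le_schur (Dw τ d X) (Dw_symm τ d X) x r hr
      have hsum : ∑ i, 1 / (r + (qf (mino i (Dw τ d X)) (rowv i (Dw τ d X)) (⟨x, r⟩ : ℂ)).im)
          ≤ ((N + 1 : ℕ) : ℝ) * (4 * r / (τ * (m - 1))) := by
        have := Finset.sum_le_sum (fun i (_ : i ∈ (Finset.univ : Finset (Fin (N + 1)))) => hterm i)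
        simpa using this
      have h5 : m ≤ 2 * r * (((N + 1 : ℕ) : ℝ) * (4 * r / (τ * (m - 1)))) :=
        hle.trans (mul_le_mul_of_nonneg_left hsum (by positivity))
      have h6 : 2 * r * (((N + 1 : ℕ) : ℝ) * (4 * r / (τ * (m - 1))))
          = (8 * ((N + 1 : ℕ) : ℝ) * r ^ 2 / τ) / (m - 1) := by
        field_simp
        ring
      rw [h6, le_div_iff₀ hm1] at h5
      nlinarith
    have hM : ∀ i k l, Measurable (fun p : (Fin N × Fin N → ℝ) × (Fin N → ℝ) => M i p.1 k l) := by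
      intro i k l
      exact (measurable_Dw τ _ k l).comp measurable_fst
    have hE : ∀ i, MeasurableSet (E i) := by
      intro i
      have hc : Measurable (fun p : (Fin N × Fin N → ℝ) × (Fin N → ℝ) =>
          (cntI (M i p.1) x r : ℝ)) :=
        (measurable_of_countable (fun n : ℕ => (n : ℝ))).comp
          (measurable_cntI (fun p : (Fin N × Fin N → ℝ) × (Fin N → ℝ) => M i p.1) (hM i)
            (fun p => Dw_symm τ _ p.1) x r)
      have hq : Measurable (fun p : (Fin N × Fin N → ℝ) × (Fin N → ℝ) =>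
          (qf (M i p.1) p.2 (⟨x, r⟩ : ℂ)).im) :=
        Complex.measurable_im.comp
          (measurable_qf (fun p : (Fin N × Fin N → ℝ) × (Fin N → ℝ) => M i p.1) (hM i)
            (fun p => p.2) (fun k => (measurable_pi_apply k).comp measurable_snd) (⟨x, r⟩ : ℂ))
      exact (measurableSet_le measurable_const hc).inter
        (measurableSet_lt hq (hc.div_const _))
    have hP : ∀ i, (gm (N + 1)).real {X | (subX i X, rowX i X) ∈ E i}
        ≤ Real.exp (-(T - 1) / 11) := by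
      intro i
      have key := gm_split_prob i (E i) (hE i) ∅ MeasurableSet.empty (Real.exp (-(T - 1) / 11))
        (Real.exp_pos _).le (fun Y _ => by
          by_cases hY : T - 1 ≤ (cntI (M i Y) x r : ℝ)
          · have hsub2 : {g : Fin N → ℝ | (Y, g) ∈ E i}
                ⊆ {g | (qf (M i Y) g (⟨x, r⟩ : ℂ)).im < (cntI (M i Y) x r : ℝ) / (4 * r)} := by
              intro g hg
              exact hg.2
            refine (measureReal_mono hsub2).trans ((qf_low (M i Y) (Dw_symm τ _ Y) x r hr).trans ?_)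
            apply Real.exp_le_exp.mpr
            linarith
          · have hempty : {g : Fin N → ℝ | (Y, g) ∈ E i} = ∅ := by
              ext g
              simp only [Set.mem_setOf_eq, Set.mem_empty_iff_false, iff_false]
              intro hg
              exact hY hg.1
            rw [hempty]
            simp only [measureReal_empty]
            exact (Real.exp_pos _).le)
      simpa using key
    calc (gm (N + 1)).real {X | T ≤ (cntI (Dw τ d X) x r : ℝ)}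
        ≤ (gm (N + 1)).real (⋃ i, {X | (subX i X, rowX i X) ∈ E i}) := by
          haveI : IsProbabilityMeasure (gm (N + 1)) := by unfold gm; infer_instance
          exact measureReal_mono hsub
      _ ≤ ∑ i, (gm (N + 1)).real {X | (subX i X, rowX i X) ∈ E i} :=
          measureReal_iUnion_fintype_le _
      _ ≤ ∑ _i : Fin (N + 1), Real.exp (-(T - 1) / 11) := Finset.sum_le_sum fun i _ => hP i
      _ = ((N + 1 : ℕ) : ℝ) * Real.exp (-(T - 1) / 11) := by simp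

end Pool.Agent.ZR

end

section

/-!
# ZR/KGlue : the Prop `KStat` of part M from `K1.kStat`

Let `μ₁` be the law of `vecS (At (1/n) t (vecS (Wv (1/n) Y)) X)` under `(gm n).prod (gm n)` (or as the
iterated integral) and `μ₂` the law of `vecS (Wv (1/n) X)` under `gm n`, both probability measures on
`Fin n → ℝ`.  For a measurable set `S` apply `K1.kStat` with `v = 1/n` to
`Φ s = if (fun i : Fin n => (s.sort (· ≤ ·)).getD i 0) ∈ S then 1 else 0`; note
`Φ A.charpoly.roots = S.indicator 1 (vecS A)` by definition of `vecS`, `evs`.  Measurability of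
`X ↦ Φ ((Wv v X).charpoly.roots)`: `vecS (Wv v X)` is measurable (`measurable_evs`, Sp3), bounded by `1`,
so integrable.  Hence `μ₁ S = μ₂ S` (convert the real integrals of indicators into measures:
`integral_indicator_one`, Fubini or `lintegral`/`toReal` for the inner probability; the map
`(Y, X) ↦ vecS (At ..)` is jointly measurable by `measurable_evs` on the product space, its entries are
measurable).  So `μ₁ = μ₂`, and `∫⁻ Φ dμ₁ = ∫⁻ Φ dμ₂` for every measurable `Φ`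
(`lintegral_map`, `lintegral_prod`).
-/


open MeasureTheory ProbabilityTheory Matrix
open scoped ENNReal

namespace Pool.Agent.ZR

theorem kStatM : KStat := by
  classical
  intro n t hn ht Φ hΦ
  have hv : (0 : ℝ) < 1 / (n : ℝ) := by
    have : (0 : ℝ) < n := by exact_mod_cast hn
    positivity
  have : IsProbabilityMeasure (gm n) := by unfold gm; infer_instance
  generalize (1 / (n : ℝ)) = v at hv ⊢
  have hW : Measurable (fun X : Fin n × Fin n → ℝ => vecS (Wv (N := n) v X)) := by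
    refine measurable_pi_lambda _ fun i => ?_
    refine measurable_evs (fun X : Fin n × Fin n → ℝ => Wv (N := n) v X) (fun k l => ?_)
      (fun X => K1.Wv_isSymm v X) i
    simp only [Wv, Matrix.of_apply]
    fun_prop
  have hA : Measurable (fun p : (Fin n × Fin n → ℝ) × (Fin n × Fin n → ℝ) =>
      vecS (At v t (vecS (Wv (N := n) v p.1)) p.2)) := by
    refine measurable_pi_lambda _ fun i => ?_
    refine measurable_evs (fun p : (Fin n × Fin n → ℝ) × (Fin n × Fin n → ℝ) =>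
      At v t (vecS (Wv (N := n) v p.1)) p.2) (fun k l => ?_) (fun p => ?_) i
    · have hd : Measurable (fun p : (Fin n × Fin n → ℝ) × (Fin n × Fin n → ℝ) =>
          Matrix.diagonal (vecS (Wv (N := n) v p.1)) k l) := by
        by_cases hkl : k = l
        · subst hkl
          simp only [Matrix.diagonal_apply_eq]
          exact (measurable_pi_apply k).comp (hW.comp measurable_fst)
        · simp only [Matrix.diagonal_apply_ne _ hkl]
          exact measurable_const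
      have hw : Measurable (fun p : (Fin n × Fin n → ℝ) × (Fin n × Fin n → ℝ) =>
          Wv (N := n) v p.2 k l) := by
        simp only [Wv, Matrix.of_apply]
        fun_prop
      simp only [At, Matrix.add_apply, Matrix.smul_apply, smul_eq_mul]
      exact (hd.const_mul _).add (hw.const_mul _)
    · unfold At
      unfold Matrix.IsSymm
      rw [Matrix.transpose_add, Matrix.transpose_smul, Matrix.transpose_smul,
        Matrix.diagonal_transpose, K1.Wv_isSymm v p.2]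
  -- equality of the two laws
  have hlaw : ((gm n).prod (gm n)).map (fun p : (Fin n × Fin n → ℝ) × (Fin n × Fin n → ℝ) =>
      vecS (At v t (vecS (Wv (N := n) v p.1)) p.2))
      = (gm n).map (fun X : Fin n × Fin n → ℝ => vecS (Wv (N := n) v X)) := by
    refine Measure.ext fun S hS => ?_
    rw [Measure.map_apply hA hS, Measure.map_apply hW hS]
    have hk := K1.kStat (N := n) hv ht
      (fun s : Multiset ℝ => S.indicator (1 : (Fin n → ℝ) → ℝ)
        (fun i : Fin n => (s.sort (· ≤ ·)).getD i 0))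
      ((measurable_one.indicator hS).comp hW)
      (Integrable.of_bound ((measurable_one.indicator hS).comp hW).aestronglyMeasurable 1
        (Filter.Eventually.of_forall fun X => by
          refine (norm_indicator_le_norm_self _ _).trans ?_
          simp))
    have e2 : ∫ X, S.indicator (1 : (Fin n → ℝ) → ℝ) (vecS (Wv (N := n) v X)) ∂(gm n)
        = (gm n).real ((fun X : Fin n × Fin n → ℝ => vecS (Wv (N := n) v X)) ⁻¹' S) := by
      rw [← integral_indicator_one (hW hS)]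
      rfl
    have e1 : ∫ Y, ∫ X, S.indicator (1 : (Fin n → ℝ) → ℝ)
          (vecS (At v t (vecS (Wv (N := n) v Y)) X)) ∂(gm n) ∂(gm n)
        = ((gm n).prod (gm n)).real ((fun p : (Fin n × Fin n → ℝ) × (Fin n × Fin n → ℝ) =>
            vecS (At v t (vecS (Wv (N := n) v p.1)) p.2)) ⁻¹' S) := by
      have hint : Integrable (fun p : (Fin n × Fin n → ℝ) × (Fin n × Fin n → ℝ) =>
          S.indicator (1 : (Fin n → ℝ) → ℝ) (vecS (At v t (vecS (Wv (N := n) v p.1)) p.2)))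
          ((gm n).prod (gm n)) :=
        Integrable.of_bound ((measurable_one.indicator hS).comp hA).aestronglyMeasurable 1
          (Filter.Eventually.of_forall fun p => by
            refine (norm_indicator_le_norm_self _ _).trans ?_
            simp)
      have := integral_prod _ hint
      rw [← this, ← integral_indicator_one (hA hS)]
      rfl
    have e3 : ((gm n).prod (gm n)).real ((fun p : (Fin n × Fin n → ℝ) × (Fin n × Fin n → ℝ) =>
            vecS (At v t (vecS (Wv (N := n) v p.1)) p.2)) ⁻¹' S)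
        = (gm n).real ((fun X : Fin n × Fin n → ℝ => vecS (Wv (N := n) v X)) ⁻¹' S) := by
      rw [← e1, ← e2]
      exact hk
    exact (ENNReal.toReal_eq_toReal_iff' (measure_ne_top _ _) (measure_ne_top _ _)).1 e3
  calc ∫⁻ Y, ∫⁻ X, Φ (vecS (At v t (vecS (Wv (N := n) v Y)) X)) ∂(gm n) ∂(gm n)
      = ∫⁻ p, Φ (vecS (At v t (vecS (Wv (N := n) v p.1)) p.2)) ∂((gm n).prod (gm n)) :=
        (lintegral_prod _ (hΦ.comp hA).aemeasurable).symm
    _ = ∫⁻ x, Φ x ∂(((gm n).prod (gm n)).map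
          (fun p : (Fin n × Fin n → ℝ) × (Fin n × Fin n → ℝ) =>
            vecS (At v t (vecS (Wv (N := n) v p.1)) p.2))) := (lintegral_map hΦ hA).symm
    _ = ∫⁻ X, Φ (vecS (Wv (N := n) v X)) ∂(gm n) := by rw [hlaw, lintegral_map hΦ hW]

end Pool.Agent.ZR

end

section

/-!
# ZR/MEns : the relocated ensemble: measurability and geometry of the good event

PROOF.
* Measurability: `Pat n` is finite and discrete, so by `meas_Pat` (MPr) it is enough to treat a fixed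
  `σ`; then `Y ↦ evs (Wv ..) i` and `Y ↦ cnt (Wv ..) x` are measurable (`measurable_evs`,
  `measurable_cnt`, Sp3, Sp4; `Wv_symm`, C1) and `goodE` is a finite intersection of sets defined by them
  (the parts on `evp (H0 σ)` are constants); `asharp` is an `ite` on a measurable set
  (`Measurable.ite`; `bulkI` does not depend on `ω`).
* `AA_entry_meas`: `At_entry_meas` (MSp) composed with `ω ↦ (asharp .. ω.1, ω.2)`.
* `reloc_geom`: let `a = snocV (vecP (H0 σ)) 2`, `a' = asharp ..`.  On `goodE`, `a' i = evp (H0 σ) i` if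
  `bulkI n κ i` (then `i < n-1` and `a i = evp (H0 σ) i`, equal), otherwise `a' i = evs W i`.
  If not `bulkI` there are three cases.
  (1) `i < κ n`: as `κ ≤ 1/2`, `1 ≤ κ n`, `i < n - 1` (`i < n/2 ≤ n - 1`), and
  `i < κ n < cntP (H0 σ) (E-c0)` gives `evp (H0 σ) i ≤ E - c0` (`evp_le_iff`, Sp5), and the same for
  `evs W i` (`evs_le_iff`, Sp4).
  (2) `(1-κ) n < i`, `i < n - 1`: `cntP (H0 σ) (E+c0) < (1-κ)n < i` so `not (evp (H0 σ) i ≤ E + c0)`,
  same for `evs W i`.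
  (3) `i = n - 1`: `a i = 2 ≥ E + c0`, and `cnt W (E+c0) < (1-κ) n ≤ n - 1 = i` (`1 ≤ κ n`).
  Sizes: `|evp (H0 σ) i| ≤ n^θ`, `|evs W i| ≤ |evp (H0 σ) i| + n^θ ≤ 2 n^θ` (or `≤ 2 + n^θ` for
  `i = n - 1`).
* `reloc_sum`: the difference vanishes on bulk indices; otherwise it is the corresponding term of the
  sum in `goodE` (`Fin n` sum = range (n-1) sum + last term, `Fin.sum_univ_castSucc` after writing
  `n = m + 1`, or `Finset.sum_range`).
* `asharp_sub`: `∑ i, (asharp i - evs W i)² ≤ ∑_{i ∈ bulk} (evp (H0 σ) i - evs W i)²` for every `σ`, `Y`.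
* `asharp_bad`: by definition.
-/


open MeasureTheory ProbabilityTheory Matrix

namespace Pool.Agent.ZR

theorem MEns_goodE_sec (n : ℕ) (E κ c0 θ : ℝ) (σ : Pat n) :
    MeasurableSet {Y : Arr n | goodE n E κ c0 θ σ Y} := by
  have hev : ∀ i, Measurable (fun Y : Arr n => evs (Wv (N := n) (1 / (n : ℝ)) Y) i) := by
    intro i
    refine measurable_evs _ (fun k l => ?_) (fun Y => Wv_symm _ Y) i
    show Measurable (fun Y : Arr n => Real.sqrt (1 / (n : ℝ) / 2) * (Y (k, l) + Y (l, k)))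
    fun_prop
  have hcn : ∀ x, Measurable (fun Y : Arr n => (cnt (Wv (N := n) (1 / (n : ℝ)) Y) x : ℝ)) := by
    intro x
    have h1 : Measurable (fun Y : Arr n => cnt (Wv (N := n) (1 / (n : ℝ)) Y) x) := by
      refine measurable_cnt _ (fun k l => ?_) (fun Y => Wv_symm _ Y) x
      show Measurable (fun Y : Arr n => Real.sqrt (1 / (n : ℝ) / 2) * (Y (k, l) + Y (l, k)))
      fun_prop
    exact measurable_from_nat.comp h1
  unfold goodE
  refine (MeasurableSet.const _).inter (MeasurableSet.inter ?_ ((MeasurableSet.const _).inter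
    (MeasurableSet.inter ?_ ((MeasurableSet.const _).inter ?_))))
  · have hA : Measurable (fun Y : Arr n =>
        |2 - evs (Wv (N := n) (1 / (n : ℝ)) Y) (n - 1)| +
        ∑ i ∈ Finset.range (n - 1), |evp (H0 σ) i - evs (Wv (N := n) (1 / (n : ℝ)) Y) i|) := by
      refine Measurable.add ?_ ?_
      · exact continuous_abs.measurable.comp (measurable_const.sub (hev _))
      · refine Finset.measurable_fun_sum _ fun i _ => ?_
        exact continuous_abs.measurable.comp (measurable_const.sub (hev _))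
    exact measurableSet_le hA measurable_const
  · exact measurableSet_lt measurable_const (hcn _)
  · exact measurableSet_lt (hcn _) measurable_const

theorem goodE_meas (n : ℕ) (E κ c0 θ : ℝ) :
    MeasurableSet {ω : Pat n × Arr n | goodE n E κ c0 θ ω.1 ω.2} := by
  classical
  have h1 : Measurable (fun ω : Pat n × Arr n =>
      if goodE n E κ c0 θ ω.1 ω.2 then (1 : ℝ) else 0) := by
    refine meas_Pat _ fun σ => ?_
    exact Measurable.ite (MEns_goodE_sec n E κ c0 θ σ) measurable_const measurable_const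
  have h2 : {ω : Pat n × Arr n | goodE n E κ c0 θ ω.1 ω.2}
      = (fun ω : Pat n × Arr n => if goodE n E κ c0 θ ω.1 ω.2 then (1 : ℝ) else 0) ⁻¹' {1} := by
    ext ω
    constructor
    · intro h
      show (if goodE n E κ c0 θ ω.1 ω.2 then (1 : ℝ) else 0) = 1
      exact if_pos h
    · intro h
      have h' : (if goodE n E κ c0 θ ω.1 ω.2 then (1 : ℝ) else 0) = 1 := h
      by_contra hc
      have hc' : ¬ goodE n E κ c0 θ ω.1 ω.2 := hc
      rw [if_neg hc'] at h'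
      norm_num at h'
  rw [h2]
  exact h1 (measurableSet_singleton 1)

theorem asharp_meas (n : ℕ) (E κ c0 θ : ℝ) :
    Measurable (fun ω : Pat n × Arr n => asharp n E κ c0 θ ω.1 ω.2) := by
  classical
  refine meas_Pat _ fun σ => ?_
  refine measurable_pi_lambda _ fun i => ?_
  show Measurable (fun Y : Arr n => if goodE n E κ c0 θ σ Y ∧ bulkI n κ i then evp (H0 σ) i
    else evs (Wv (N := n) (1 / (n : ℝ)) Y) i)
  refine Measurable.ite ?_ measurable_const ?_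
  · exact (MEns_goodE_sec n E κ c0 θ σ).inter (MeasurableSet.const _)
  · refine measurable_evs _ (fun k l => ?_) (fun Y => Wv_symm _ Y) _
    show Measurable (fun Y : Arr n => Real.sqrt (1 / (n : ℝ) / 2) * (Y (k, l) + Y (l, k)))
    fun_prop

theorem AA_symm (n : ℕ) (δ E κ c0 θ : ℝ) (ω : (Pat n × Arr n) × Arr n) :
    (AA n δ E κ c0 θ ω).IsSymm := At_symm _ _ _ _

theorem AA_entry_meas (n : ℕ) (δ E κ c0 θ : ℝ) (k l : Fin n) :
    Measurable (fun ω => AA n δ E κ c0 θ ω k l) := by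
  have h := At_entry_meas (N := n) (1 / (n : ℝ)) ((n : ℝ) ^ (-δ)) k l
  have h2 : Measurable (fun ω : (Pat n × Arr n) × Arr n =>
      ((asharp n E κ c0 θ ω.1.1 ω.1.2, ω.2) : (Fin n → ℝ) × (Fin n × Fin n → ℝ))) :=
    ((asharp_meas n E κ c0 θ).comp measurable_fst).prodMk measurable_snd
  exact h.comp h2

theorem vecS_AA_meas (n : ℕ) (δ E κ c0 θ : ℝ) :
    Measurable (fun ω => vecS (AA n δ E κ c0 θ ω)) :=
  vecS_meas _ (fun k l => AA_entry_meas n δ E κ c0 θ k l) (fun ω => AA_symm n δ E κ c0 θ ω)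

theorem asharp_bad {n : ℕ} {E κ c0 θ : ℝ} {σ : Pat n} {Y : Arr n}
    (h : ¬ goodE n E κ c0 θ σ Y) :
    asharp n E κ c0 θ σ Y = vecS (Wv (N := n) (1 / (n : ℝ)) Y) := by
  funext i
  unfold asharp vecS
  exact if_neg fun hc => h hc.1

theorem reloc_geom {n : ℕ} {E κ c0 θ : ℝ} (hκ : 1 ≤ κ * n) (hκ2 : κ ≤ 1 / 2) (hE : E + c0 ≤ 2)
    (hn2 : 2 ≤ (n : ℝ) ^ θ) {σ : Pat n} (hσ : σ ∈ Sn n) {Y : Arr n}
    (h : goodE n E κ c0 θ σ Y) (i : Fin n) :
    (snocV (vecP (H0 σ)) 2 i = asharp n E κ c0 θ σ Y i ∨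
      (E + c0 ≤ snocV (vecP (H0 σ)) 2 i ∧ E + c0 ≤ asharp n E κ c0 θ σ Y i) ∨
      (snocV (vecP (H0 σ)) 2 i ≤ E - c0 ∧ asharp n E κ c0 θ σ Y i ≤ E - c0)) ∧
    |snocV (vecP (H0 σ)) 2 i| ≤ 2 * (n : ℝ) ^ θ ∧ |asharp n E κ c0 θ σ Y i| ≤ 2 * (n : ℝ) ^ θ := by
  have hn0 : 0 < n := lt_of_le_of_lt (Nat.zero_le _) i.2
  have hnR : (0 : ℝ) < n := by exact_mod_cast hn0
  have hn2' : 2 ≤ n := by
    have : (2 : ℝ) ≤ n := by nlinarith
    exact_mod_cast this
  have hH := H0_symm hσ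
  have h0 := zero_mem_H0 hn0 hσ
  have hW := Wv_symm (N := n) (1 / (n : ℝ)) Y
  obtain ⟨g1, g2, g3, g4, g5, g6⟩ := h
  have hgood : goodE n E κ c0 θ σ Y := ⟨g1, g2, g3, g4, g5, g6⟩
  have hsnn : 0 ≤ ∑ i ∈ Finset.range (n - 1),
      |evp (H0 σ) i - evs (Wv (N := n) (1 / (n : ℝ)) Y) i| :=
    Finset.sum_nonneg fun _ _ => abs_nonneg _
  by_cases hi : (i : ℕ) < n - 1
  · have hs : snocV (vecP (H0 σ)) 2 i = evp (H0 σ) i := by
      unfold snocV
      rw [dif_pos hi]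
      rfl
    have hb1 : |evp (H0 σ) i| ≤ (n : ℝ) ^ θ := g1 i hi
    have hb2 : |evp (H0 σ) i - evs (Wv (N := n) (1 / (n : ℝ)) Y) i| ≤ (n : ℝ) ^ θ := by
      have h3 : |evp (H0 σ) i - evs (Wv (N := n) (1 / (n : ℝ)) Y) i| ≤
          ∑ i ∈ Finset.range (n - 1), |evp (H0 σ) i - evs (Wv (N := n) (1 / (n : ℝ)) Y) i| :=
        Finset.single_le_sum (f := fun i : ℕ =>
          |evp (H0 σ) i - evs (Wv (N := n) (1 / (n : ℝ)) Y) i|) (fun _ _ => abs_nonneg _)
          (Finset.mem_range.2 hi)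
      have h4 := abs_nonneg (2 - evs (Wv (N := n) (1 / (n : ℝ)) Y) (n - 1))
      linarith
    rw [hs]
    by_cases hb : bulkI n κ i
    · have ha : asharp n E κ c0 θ σ Y i = evp (H0 σ) i := by
        unfold asharp
        exact if_pos ⟨hgood, hb⟩
      rw [ha]
      refine ⟨Or.inl rfl, ?_, ?_⟩ <;> linarith
    · have ha : asharp n E κ c0 θ σ Y i = evs (Wv (N := n) (1 / (n : ℝ)) Y) i := by
        unfold asharp
        exact if_neg fun hc => hb hc.2
      rw [ha]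
      refine ⟨Or.inr ?_, by linarith, ?_⟩
      · have hcase : (i : ℝ) < κ * n ∨ (1 - κ) * n < (i : ℝ) := by
          by_contra hc
          push Not at hc
          exact hb ⟨hc.1, hc.2, hi⟩
        rcases hcase with hc | hc
        · right
          constructor
          · refine (evp_le_iff (H0 σ) hH h0 (E - c0) i (by omega)).2 ?_
            have : ((i : ℕ) : ℝ) < (cntP (H0 σ) (E - c0) : ℝ) := by linarith
            exact_mod_cast this
          · refine (evs_le_iff _ hW (E - c0) i i.2).2 ?_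
            have : ((i : ℕ) : ℝ) < (cnt (Wv (N := n) (1 / (n : ℝ)) Y) (E - c0) : ℝ) := by linarith
            exact_mod_cast this
        · left
          constructor
          · by_contra hcon
            push Not at hcon
            have h5 := (evp_le_iff (H0 σ) hH h0 (E + c0) i (by omega)).1 hcon.le
            have h6 : ((i : ℕ) : ℝ) < (cntP (H0 σ) (E + c0) : ℝ) := by exact_mod_cast h5
            linarith
          · by_contra hcon
            push Not at hcon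
            have h5 := (evs_le_iff _ hW (E + c0) i i.2).1 hcon.le
            have h6 : ((i : ℕ) : ℝ) < (cnt (Wv (N := n) (1 / (n : ℝ)) Y) (E + c0) : ℝ) := by
              exact_mod_cast h5
            linarith
      · have h7 : |evs (Wv (N := n) (1 / (n : ℝ)) Y) i| ≤ |evp (H0 σ) i| +
            |evp (H0 σ) i - evs (Wv (N := n) (1 / (n : ℝ)) Y) i| := by
          have h8 := abs_sub (evp (H0 σ) i) (evp (H0 σ) i - evs (Wv (N := n) (1 / (n : ℝ)) Y) i)
          rw [sub_sub_cancel] at h8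
          exact h8
        linarith
  · have hs : snocV (vecP (H0 σ)) 2 i = 2 := by
      unfold snocV
      rw [dif_neg hi]
    have hin : (i : ℕ) = n - 1 := by
      have := i.2
      omega
    have ha : asharp n E κ c0 θ σ Y i = evs (Wv (N := n) (1 / (n : ℝ)) Y) (n - 1) := by
      unfold asharp
      rw [← hin]
      exact if_neg fun hc => hi hc.2.2.2
    rw [hs, ha]
    have hb2 : |2 - evs (Wv (N := n) (1 / (n : ℝ)) Y) (n - 1)| ≤ (n : ℝ) ^ θ := by linarith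
    refine ⟨Or.inr (Or.inl ⟨hE, ?_⟩), ?_, ?_⟩
    · by_contra hcon
      push Not at hcon
      have h5 := (evs_le_iff _ hW (E + c0) (n - 1) (by omega)).1 hcon.le
      have h6 : (((n - 1 : ℕ)) : ℝ) < (cnt (Wv (N := n) (1 / (n : ℝ)) Y) (E + c0) : ℝ) := by
        exact_mod_cast h5
      rw [Nat.cast_sub hn0] at h6
      push_cast at h6
      nlinarith
    · rw [abs_of_pos (by norm_num : (0 : ℝ) < 2)]
      linarith
    · have h7 : |evs (Wv (N := n) (1 / (n : ℝ)) Y) (n - 1)| ≤ |(2 : ℝ)| +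
          |2 - evs (Wv (N := n) (1 / (n : ℝ)) Y) (n - 1)| := by
        have h8 := abs_sub (2 : ℝ) (2 - evs (Wv (N := n) (1 / (n : ℝ)) Y) (n - 1))
        rw [sub_sub_cancel] at h8
        exact h8
      rw [abs_of_pos (by norm_num : (0 : ℝ) < 2)] at h7
      linarith

theorem MEns_sum_fin {n : ℕ} (hn : 0 < n) (f : ℕ → ℝ) :
    ∑ i : Fin n, f i = ∑ i ∈ Finset.range (n - 1), f i + f (n - 1) := by
  rw [Fin.sum_univ_eq_sum_range f n]
  conv_lhs => rw [show n = (n - 1) + 1 by omega]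
  rw [Finset.sum_range_succ]

theorem reloc_sum {n : ℕ} (hn : 0 < n) {E κ c0 θ : ℝ} {σ : Pat n} {Y : Arr n}
    (h : goodE n E κ c0 θ σ Y) :
    ∑ i, |snocV (vecP (H0 σ)) 2 i - asharp n E κ c0 θ σ Y i| ≤ (n : ℝ) ^ θ := by
  classical
  obtain ⟨g1, g2, g3, g4, g5, g6⟩ := h
  refine le_trans ?_ g2
  set f : ℕ → ℝ := fun i => if i < n - 1 then
    |evp (H0 σ) i - evs (Wv (N := n) (1 / (n : ℝ)) Y) i|
    else |2 - evs (Wv (N := n) (1 / (n : ℝ)) Y) (n - 1)| with hf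
  have h1 : ∑ i : Fin n, |snocV (vecP (H0 σ)) 2 i - asharp n E κ c0 θ σ Y i| ≤
      ∑ i : Fin n, f i := by
    refine Finset.sum_le_sum fun i _ => ?_
    by_cases hi : (i : ℕ) < n - 1
    · have hs : snocV (vecP (H0 σ)) 2 i = evp (H0 σ) i := by
        unfold snocV
        rw [dif_pos hi]
        rfl
      have hfi : f i = |evp (H0 σ) i - evs (Wv (N := n) (1 / (n : ℝ)) Y) i| := if_pos hi
      rw [hs, hfi]
      unfold asharp
      split_ifs
      · rw [sub_self, abs_zero]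
        exact abs_nonneg _
      · exact le_rfl
    · have hs : snocV (vecP (H0 σ)) 2 i = 2 := by
        unfold snocV
        rw [dif_neg hi]
      have hin : (i : ℕ) = n - 1 := by
        have := i.2
        omega
      have hfi : f i = |2 - evs (Wv (N := n) (1 / (n : ℝ)) Y) (n - 1)| := if_neg hi
      have ha : asharp n E κ c0 θ σ Y i = evs (Wv (N := n) (1 / (n : ℝ)) Y) (n - 1) := by
        unfold asharp
        rw [← hin]
        exact if_neg fun hc => hi hc.2.2.2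
      rw [hs, hfi, ha]
  refine h1.trans (le_of_eq ?_)
  rw [MEns_sum_fin hn f, add_comm]
  congr 1
  · exact if_neg (lt_irrefl _)
  · refine Finset.sum_congr rfl fun i hi => ?_
    exact if_pos (Finset.mem_range.1 hi)

theorem asharp_sub {n : ℕ} {E κ c0 θ : ℝ} (σ : Pat n) (Y : Arr n) :
    ∑ i : Fin n, (asharp n E κ c0 θ σ Y i - evs (Wv (N := n) (1 / (n : ℝ)) Y) i) ^ 2
      ≤ ∑ i ∈ (Finset.range (n - 1)).filter
          (fun i : ℕ => κ * n ≤ i ∧ (i : ℝ) ≤ (1 - κ) * n),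
          (evp (H0 σ) i - evs (Wv (N := n) (1 / (n : ℝ)) Y) i) ^ 2 := by
  classical
  rcases Nat.eq_zero_or_pos n with hn | hn
  · subst hn
    simp
  set g : ℕ → ℝ := fun i => if bulkI n κ i then
    (evp (H0 σ) i - evs (Wv (N := n) (1 / (n : ℝ)) Y) i) ^ 2 else 0 with hg
  have h1 : ∑ i : Fin n, (asharp n E κ c0 θ σ Y i - evs (Wv (N := n) (1 / (n : ℝ)) Y) i) ^ 2 ≤
      ∑ i : Fin n, g i := by
    refine Finset.sum_le_sum fun i _ => ?_
    by_cases hb : bulkI n κ i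
    · have hgi : g i = (evp (H0 σ) i - evs (Wv (N := n) (1 / (n : ℝ)) Y) i) ^ 2 := if_pos hb
      rw [hgi]
      unfold asharp
      split_ifs
      · exact le_rfl
      · rw [sub_self, zero_pow two_ne_zero]
        exact sq_nonneg _
    · have hgi : g i = 0 := if_neg hb
      have ha : asharp n E κ c0 θ σ Y i = evs (Wv (N := n) (1 / (n : ℝ)) Y) i := by
        unfold asharp
        exact if_neg fun hc => hb hc.2
      rw [hgi, ha, sub_self]
      norm_num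
  refine h1.trans (le_of_eq ?_)
  rw [MEns_sum_fin hn g]
  have hlast : g (n - 1) = 0 := if_neg fun hc => lt_irrefl _ hc.2.2
  rw [hlast, add_zero, Finset.sum_filter]
  refine Finset.sum_congr rfl fun i hi => ?_
  by_cases hb : κ * n ≤ i ∧ (i : ℝ) ≤ (1 - κ) * n
  · rw [if_pos hb]
    exact if_pos ⟨hb.1, hb.2, Finset.mem_range.1 hi⟩
  · rw [if_neg hb]
    exact if_neg fun hc => hb ⟨hc.1, hc.2.1⟩

end Pool.Agent.ZR

end
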