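import Pool.Agent.ZRM.P09
import Pool.Agent.ZRM.P12

/-!
# Merged form of the modules ZR.ICt, ZR.F5, ZR.F6, ZR.MMom, ZR.MChain
-/

set_option autoImplicit false

section

/-!
# ZR, part I (helper58): second moment of the counting function from the `L²` local law
-/


open MeasureTheory ProbabilityTheory

namespace Pool.Agent.ZR.I

variable {Ω : Type*} [MeasurableSpace Ω]

lemma f1_meas {M : ℕ} {l : Ω → Fin M → ℝ} (hl : Measurable l) (x : ℝ) :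
    Measurable (fun p : ℝ × Ω => f1 (l p.2) x p.1) := by
  unfold f1
  refine Finset.measurable_sum _ fun i _ => ?_
  have h1 : Measurable (fun p : ℝ × Ω => l p.2 i) :=
    (measurable_pi_apply i).comp (hl.comp measurable_snd)
  exact (measurable_const.sub h1).div (((measurable_const.sub h1).pow_const 2).add (measurable_fst.pow_const 2))

lemma f2_meas {M : ℕ} {l : Ω → Fin M → ℝ} (hl : Measurable l) (x : ℝ) :
    Measurable (fun p : ℝ × Ω => f2 (l p.2) x p.1) := by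
  unfold f2
  refine Finset.measurable_sum _ fun i _ => ?_
  have h1 : Measurable (fun p : ℝ × Ω => l p.2 i) :=
    (measurable_pi_apply i).comp (hl.comp measurable_snd)
  exact measurable_const.div (((measurable_const.sub h1).pow_const 2).add (measurable_fst.pow_const 2))

lemma f1_bound {M : ℕ} (l : Fin M → ℝ) (x u : ℝ) (hu : 0 < u) : |f1 l x u| ≤ M / u := by
  unfold f1
  refine (Finset.abs_sum_le_sum_abs _ _).trans ?_
  have h1 : ∀ i : Fin M, |(x - l i) / ((x - l i) ^ 2 + u ^ 2)| ≤ 1 / u := by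
    intro i
    rw [abs_div, abs_of_pos (by positivity : (0 : ℝ) < (x - l i) ^ 2 + u ^ 2),
      div_le_div_iff₀ (by positivity) hu, one_mul]
    rw [← sq_abs (x - l i)]
    nlinarith [sq_nonneg (|x - l i| - u), abs_nonneg (x - l i), mul_nonneg (abs_nonneg (x - l i)) hu.le]
  refine (Finset.sum_le_sum fun i _ => h1 i).trans (le_of_eq ?_)
  simp [div_eq_mul_inv]

lemma f2_nonneg {M : ℕ} (l : Fin M → ℝ) (x u : ℝ) : 0 ≤ f2 l x u :=
  Finset.sum_nonneg fun i _ => by positivity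

lemma f2_bound {M : ℕ} (l : Fin M → ℝ) (x u : ℝ) (hu : 0 < u) : |f2 l x u| ≤ M / u ^ 2 := by
  rw [abs_of_nonneg (f2_nonneg l x u)]
  unfold f2
  have h1 : ∀ i : Fin M, 1 / ((x - l i) ^ 2 + u ^ 2) ≤ 1 / u ^ 2 := by
    intro i
    exact one_div_le_one_div_of_le (by positivity) (by nlinarith [sq_nonneg (x - l i)])
  refine (Finset.sum_le_sum fun i _ => h1 i).trans (le_of_eq ?_)
  simp [div_eq_mul_inv]

/-- complex form -/
lemma stieltjes_split {M : ℕ} (l : Fin M → ℝ) (x u : ℝ) (hu : 0 < u) :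
    ∑ i, (1 : ℂ) / ((l i : ℂ) - (⟨x, u⟩ : ℂ)) = ⟨-f1 l x u, u * f2 l x u⟩ := by
  have h1 : ∀ i, (1 : ℂ) / ((l i : ℂ) - (⟨x, u⟩ : ℂ))
      = ⟨-((x - l i) / ((x - l i) ^ 2 + u ^ 2)), u * (1 / ((x - l i) ^ 2 + u ^ 2))⟩ := by
    intro i
    rw [inv_sub (l i) x u hu]
    have e : (l i - x) ^ 2 = (x - l i) ^ 2 := by ring
    rw [e]
    apply Complex.ext
    · simp only
      ring
    · simp only
      ring
  simp_rw [h1]
  apply Complex.ext
  · rw [Complex.re_sum]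
    simp only [f1, Finset.sum_neg_distrib]
  · rw [Complex.im_sum]
    simp only [f2, Finset.mul_sum]

lemma moments_of_law {M n : ℕ} (hn : 0 < n) (l : Fin M → ℝ) (x u : ℝ) (hu : 0 < u) :
    (f1 l x u + n * (msc ⟨x, u⟩).re) ^ 2
      ≤ (n : ℝ) ^ 2 * ‖(1 / (n : ℂ)) * ∑ i, (1 : ℂ) / ((l i : ℂ) - (⟨x, u⟩ : ℂ)) - msc ⟨x, u⟩‖ ^ 2 ∧
    (u * f2 l x u) ^ 2 ≤ 2 * (n : ℝ) ^ 2 * ‖(1 / (n : ℂ)) * ∑ i, (1 : ℂ) / ((l i : ℂ) - (⟨x, u⟩ : ℂ))
      - msc ⟨x, u⟩‖ ^ 2 + 2 * (n : ℝ) ^ 2 := by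
  have hn' : (n : ℝ) ≠ 0 := by exact_mod_cast hn.ne'
  have hnc : (n : ℂ) ≠ 0 := by exact_mod_cast hn.ne'
  set m := msc ⟨x, u⟩ with hm
  have h1 : (n : ℝ) ^ 2 * ‖(1 / (n : ℂ)) * ∑ i, (1 : ℂ) / ((l i : ℂ) - (⟨x, u⟩ : ℂ)) - m‖ ^ 2
      = (f1 l x u + n * m.re) ^ 2 + (u * f2 l x u - n * m.im) ^ 2 := by
    have h2 : (n : ℝ) ^ 2 * ‖(1 / (n : ℂ)) * ∑ i, (1 : ℂ) / ((l i : ℂ) - (⟨x, u⟩ : ℂ)) - m‖ ^ 2
        = ‖∑ i, (1 : ℂ) / ((l i : ℂ) - (⟨x, u⟩ : ℂ)) - n * m‖ ^ 2 := by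
      have h3 : ∑ i, (1 : ℂ) / ((l i : ℂ) - (⟨x, u⟩ : ℂ)) - n * m
          = n * ((1 / (n : ℂ)) * ∑ i, (1 : ℂ) / ((l i : ℂ) - (⟨x, u⟩ : ℂ)) - m) := by
        rw [mul_sub, ← mul_assoc, mul_one_div_cancel hnc, one_mul]
      rw [h3, norm_mul, mul_pow, Complex.norm_natCast]
    rw [h2, stieltjes_split l x u hu, ← Complex.normSq_eq_norm_sq, Complex.normSq_apply]
    simp only [Complex.sub_re, Complex.sub_im, Complex.mul_re, Complex.mul_im, Complex.natCast_re,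
      Complex.natCast_im]
    ring
  have hmn : m.im ^ 2 ≤ 1 := by
    have h3 : ‖m‖ < 1 := msc_norm_lt _ (by simpa using hu.ne')
    have h4 : |m.im| ≤ ‖m‖ := Complex.abs_im_le_norm m
    rw [← sq_abs]
    have := abs_nonneg m.im
    nlinarith
  constructor
  · rw [h1]; nlinarith [sq_nonneg (u * f2 l x u - n * m.im)]
  · have h5 : 2 * (n : ℝ) ^ 2 * ‖(1 / (n : ℂ)) * ∑ i, (1 : ℂ) / ((l i : ℂ) - (⟨x, u⟩ : ℂ)) - m‖ ^ 2
        = 2 * ((f1 l x u + n * m.re) ^ 2 + (u * f2 l x u - n * m.im) ^ 2) := by rw [← h1]; ring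
    rw [h5]
    have h6 : (u * f2 l x u) ^ 2 ≤ 2 * (u * f2 l x u - n * m.im) ^ 2 + 2 * (n * m.im) ^ 2 := by
      nlinarith [sq_nonneg (u * f2 l x u - 2 * (n * m.im))]
    have h7 : (n * m.im) ^ 2 ≤ (n : ℝ) ^ 2 := by
      rw [mul_pow]; nlinarith [sq_nonneg (n : ℝ)]
    nlinarith [sq_nonneg (f1 l x u + n * m.re)]

end Pool.Agent.ZR.I

end

section

/-!
# ZR/F5 : the switching part of the moment estimate for `q`

`X` is fixed, `B = Bm α β σ X`, `G = Gz (Pn n) B z`, `m = mz (Pn n) B z`, `q = qf (Pn n) B z x y`,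
`Ψ = PsiF p q`, `Ψ'_jkl = (α/√n) dPsi p q (dqf (Pn n) B (Xi x j k l) z x y)`.

`Bm_flip`: `H0 σ' = H0 σ - (2a/√n) Xi` by `Mx_switch` (A2), `a = M_xj`.

`switchQ`.  Apply `switchF` (F3) with, for each `σ ∈ Sn n`: if `σ` is good (first alternative of
`hbd`) the parameters `Λ, Γ, τ` and
`r_jkl = 100p² Γ A² e² (‖q‖ + Ae)^{2p-3}(1 + ‖q‖ + Ae)²`, `A = 8Γ(4+2Γ) ≤ 48Γ²`, `e = 32Γ/√n`:
by `rem_q` with `Y = -(2aα/√n) Xi` (`sp1 Y ≤ 16/√n` by `sp1_Xi`, `sp1 Y · Γ ≤ 16Γ/√n ≤ 1/2`); note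
`df(B)[Y]/2 = -a (α/√n) df(B)[Xi]` (`dGm_smul`, `dqf_smul`, `dPsi_smul`), which is exactly the form
required in `switchF`.
Sizes for good `σ` (`κ = 10^9 Λ⁴ Γ⁷ (τ + 1/√n) ≤ 1`, `‖z‖ ≤ 3`): `Ae ≤ 1536 Γ³/√n ≤ κ`;
`(4/√n^5) n³ r ≤ 4√n · 100p² · Γ · (48Γ²)² · 1024Γ²/n · (..) ≤ p²κ(‖q‖+κ)^{2p-3}(2+‖q‖)²`
(`4·100·2304·1024 ≈ 9.44·10^8 ≤ 10^9`); the first term of `switchF` is
`≤ (Λ³τ+8Γ+40τ)/√n + 40τ²+16Γτ+49Λ⁴Γ²/n ≤ κ` times `‖q‖^{2p-1}`; the second: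
`‖Ψ'‖ ≤ (1/√n) 2p ‖q‖^{2p-2} · 8Γ³·5` (`norm_dpsi`, `bd_dq`), `∑_jkl ‖G_jy‖ ≤ n²·nτ` (`b1`), so it is
`≤ 8·n³τ/√n^6·2p·40Γ³ ‖q‖^{2p-2} = 640 p τ Γ³ ‖q‖^{2p-2} ≤ pκ ‖q‖^{2p-2}`.
Sum: `κ‖q‖^{2p-1} + pκ‖q‖^{2p-2} + 4p²κ(‖q‖+κ)^{2p-3}(1+‖q‖)² ≤ 6p²κ(‖q‖+κ)^{2p-3}(1+‖q‖)²`.
If `σ` is bad use the crude parameters `Λ = √n`, `Γ = n`, `τ = n` (`1/z.im ≤ n`;
`‖M‖ ≤ n`, rows: `∑_j‖G_jy‖² = Im G_yy/Im z ≤ n²`), and for `r` the sum of the norms of
the four terms, with `‖q‖ ≤ 1 + (3+n)n ≤ 5n²` (`n ≥ 3`), `‖dq[Xi]‖ ≤ 8·n³·5`; everything is at most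
`p (10n)^{4p+10}` (very crude).  Here also the values at the switched pattern `σ'` occur: they obey
the same crude bounds.  For good `σ` nothing is needed about `σ'`: `rem_q` bounds the whole
expression.  (`Γ σ, Λ σ, τ σ, r σ` are defined by `if`/classical choice.)
-/


open MeasureTheory ProbabilityTheory Matrix

namespace Pool.Agent.ZR.F

theorem Bm_flip {n : ℕ} (α β : ℝ) {x j k l : Fin n} (h : Dst x j k l)
    {σ : Fin n → Fin n → Bool} (hσ : σ ∈ Sn n) (ha : Alt4 x j k l σ) (X : Fin n × Fin n → ℝ) :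
    Bm α β (flipP (cyc x j k l) σ) X
      = Bm α β σ X + (-(2 * Mx σ x j * (α / Real.sqrt n))) • Xi x j k l := by
  obtain ⟨h1, h2, h3, h4, h5, h6⟩ := h
  unfold Bm H0
  rw [Mx_switch h1 h2 h3 h4 h5 h6 hσ ha]
  ext u v
  simp only [Matrix.add_apply, Matrix.smul_apply, Matrix.sub_apply, smul_eq_mul]
  ring

private theorem pbXi85 {n : ℕ} (x j k l : Fin n) (c : ℝ) : PB (Pn n) (c • Xi x j k l) := by
  refine ⟨Pn_symm n, Pn_idem n, ?_, ?_, ?_⟩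
  · rw [Matrix.transpose_smul, Xi_symm]
  · rw [Matrix.mul_smul, (Xi_Pn x j k l).1]
  · rw [Matrix.smul_mul, (Xi_Pn x j k l).2]

private theorem pbXi1_85 {n : ℕ} (x j k l : Fin n) : PB (Pn n) (Xi x j k l) := by
  have := pbXi85 x j k l 1
  rwa [one_smul] at this

/-- crude bounds valid for all patterns -/
theorem crude {n : ℕ} (hn : 3 ≤ n) (α β : ℝ) {σ : Fin n → Fin n → Bool} (hσ : σ ∈ Sn n)
    (X : Fin n × Fin n → ℝ) (z : ℂ) (hz : 0 < z.im) (hz1 : 1 ≤ n * z.im) (hz3 : ‖z‖ ≤ 3) :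
    HypM (Mx σ) (Real.sqrt n) ∧ HypG (Gz (Pn n) (Bm α β σ X) z) n n ∧
      (∀ x y, ‖qf (Pn n) (Bm α β σ X) z x y‖ ≤ 5 * (n : ℝ) ^ 2) ∧
      ∀ x y j k l, ‖dqf (Pn n) (Bm α β σ X) (Xi x j k l) z x y‖ ≤ 40 * (n : ℝ) ^ 3 := by
  have hn3 : (3 : ℝ) ≤ n := by exact_mod_cast hn
  have hn0 : (0 : ℝ) < n := by linarith
  have hB := pb_Bm α β σ hσ X
  have habs : |z.im| = z.im := abs_of_pos hz
  have hinv : 1 / |z.im| ≤ n := by
    rw [habs, div_le_iff₀ hz]; exact hz1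
  have hen : EnLe (Gz (Pn n) (Bm α β σ X) z) n := fun x y => (g_entry_le hB z hz.ne' x y).trans hinv
  have hN : 1 ≤ (n : ℝ) * |z.im| := by rw [habs]; exact hz1
  refine ⟨⟨?_, Mx_row hσ, fun i j => Mx_sq σ i j, ?_, ?_⟩, ⟨gz_symm hB z hz.ne', hen, ?_, by linarith,
    hn0.le⟩, ?_, ?_⟩
  · ext i j
    rw [Matrix.transpose_apply]
    exact Mx_symm hσ j i
  · rw [Real.mul_self_sqrt hn0.le]
    refine ⟨hn0.le, fun u => ?_⟩
    have h1 : ∀ i, ‖(toC (Mx σ) *ᵥ u) i‖ ^ 2 ≤ n * ∑ j, ‖u j‖ ^ 2 := by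
      intro i
      have h2 : ‖(toC (Mx σ) *ᵥ u) i‖ ≤ ∑ j, ‖u j‖ := by
        simp only [Matrix.mulVec, dotProduct]
        refine (norm_sum_le _ _).trans (Finset.sum_le_sum fun j _ => ?_)
        rw [norm_mul]
        have h3 : ‖toC (Mx σ) i j‖ = 1 := by
          change ‖((Mx σ i j : ℝ) : ℂ)‖ = 1
          rw [Complex.norm_real, Real.norm_eq_abs, ← Real.sqrt_sq_eq_abs, Mx_sq, Real.sqrt_one]
        rw [h3, one_mul]
      have h4 : (∑ j, ‖u j‖) ^ 2 ≤ n * ∑ j, ‖u j‖ ^ 2 := by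
        have := sq_sum_le_card_mul_sum_sq (s := (Finset.univ : Finset (Fin n)))
          (f := fun j => ‖u j‖)
        simpa using this
      exact (pow_le_pow_left₀ (norm_nonneg _) h2 2).trans h4
    calc ∑ i, ‖(toC (Mx σ) *ᵥ u) i‖ ^ 2 ≤ ∑ _i : Fin n, (n * ∑ j, ‖u j‖ ^ 2) :=
          Finset.sum_le_sum fun i _ => h1 i
      _ = (n : ℝ) ^ 2 * ∑ j, ‖u j‖ ^ 2 := by
          rw [Finset.sum_const, Finset.card_univ, Fintype.card_fin, nsmul_eq_mul]; ring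
  · rw [Real.one_le_sqrt]; linarith
  · intro y
    have h1 : ∀ j, Gz (Pn n) (Bm α β σ X) z j y = Gz (Pn n) (Bm α β σ X) z y j := fun j => by
      have := congrFun (congrFun (gz_symm hB z hz.ne') y) j
      rw [Matrix.transpose_apply] at this
      exact this
    simp_rw [h1]
    rw [ward hB z hz y]
    have h2 : (Gz (Pn n) (Bm α β σ X) z y y).im ≤ n :=
      (Complex.im_le_norm _).trans (hen y y)
    have h3 : (Gz (Pn n) (Bm α β σ X) z y y).im / z.im ≤ n * n := by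
      rw [div_le_iff₀ hz]
      nlinarith
    nlinarith [mul_pos hn0 hn0]
  · intro x y
    unfold qf
    have h1 : ‖((Pn n x y : ℝ) : ℂ)‖ ≤ 1 := by
      rw [Complex.norm_real, Real.norm_eq_abs, Pn_apply]
      have h2 : 0 < 1 / (n : ℝ) := by positivity
      have h3 : 1 / (n : ℝ) ≤ 1 := by rw [div_le_one hn0]; linarith
      split_ifs
      · rw [abs_le]; constructor <;> linarith
      · rw [abs_le]; constructor <;> linarith
    have h2 : ‖mz (Pn n) (Bm α β σ X) z‖ ≤ n := (mz_norm_le hB z hz.ne').trans hinv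
    have h3 := hen x y
    calc ‖((Pn n x y : ℝ) : ℂ) + (z + mz (Pn n) (Bm α β σ X) z) * Gz (Pn n) (Bm α β σ X) z x y‖
        ≤ 1 + (3 + n) * n := by
          refine (norm_add_le _ _).trans (add_le_add h1 ?_)
          rw [norm_mul]
          refine mul_le_mul ((norm_add_le _ _).trans (add_le_add hz3 h2)) h3 (norm_nonneg _)
            (by linarith)
      _ ≤ 5 * (n : ℝ) ^ 2 := by nlinarith
  · intro x y j k l
    have h1 := bd_dq hB (pbXi1_85 x j k l) z hz.ne' n (by linarith) hen hN x y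
    refine h1.trans ?_
    have h2 := sp1_Xi x j k l
    have h3 : sp1 (Xi x j k l) * (n : ℝ) ^ 3 * (2 + ‖z‖) ≤ 8 * (n : ℝ) ^ 3 * 5 := by
      apply mul_le_mul _ (by linarith) (by positivity) (by positivity)
      exact mul_le_mul_of_nonneg_right h2 (by positivity)
    linarith

/-- the derivative of `G_jy Ψ` in direction `c0 Xi` -/
private noncomputable def Dv85 {n : ℕ} (B : Matrix (Fin n) (Fin n) ℝ) (z : ℂ) (p : ℕ) (c0 : ℝ)
    (x y j k l : Fin n) : ℂ :=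
  -((c0 : ℝ) : ℂ) * (Gz (Pn n) B z * toC (Xi x j k l) * Gz (Pn n) B z) j y
      * PsiF p (qf (Pn n) B z x y)
    + Gz (Pn n) B z j y * ((c0 : ℂ) * dPsi p (qf (Pn n) B z x y)
        (dqf (Pn n) B (Xi x j k l) z x y))

private theorem Dv_eq85 {n : ℕ} (B : Matrix (Fin n) (Fin n) ℝ) (z : ℂ) (p : ℕ) (a c0 : ℝ)
    (x y j k l : Fin n) :
    dGm (Pn n) B ((-(2 * a * c0)) • Xi x j k l) z j y * PsiF p (qf (Pn n) B z x y)
        + Gz (Pn n) B z j y * dPsi p (qf (Pn n) B z x y)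
            (dqf (Pn n) B ((-(2 * a * c0)) • Xi x j k l) z x y)
      = -2 * (a : ℂ) * Dv85 B z p c0 x y j k l := by
  rw [dGm_smul, dqf_smul, dPsi_smul]
  unfold Dv85 dGm
  rw [Matrix.neg_apply]
  push_cast
  ring

private theorem good_r85 {n : ℕ} (hn : 3 ≤ n) (α β : ℝ) (hα0 : 0 ≤ α) (hα1 : α ≤ 1)
    (X : Fin n × Fin n → ℝ) (z : ℂ) (hz : 0 < z.im) (hz1 : 1 ≤ n * z.im)
    (p : ℕ) (hp : 2 ≤ p) (Γ : ℝ) (hΓ : 1 ≤ Γ)
    (h32 : 32 * Γ ≤ Real.sqrt n) (x y j k l : Fin n) (hD : Dst x j k l)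
    {σ : Fin n → Fin n → Bool} (hσ : σ ∈ Sn n) (ha : Alt4 x j k l σ)
    (hG : EnLe (Gz (Pn n) (Bm α β σ X) z) Γ) :
    ‖Gz (Pn n) (Bm α β (flipP (cyc x j k l) σ) X) z j y
          * PsiF p (qf (Pn n) (Bm α β (flipP (cyc x j k l) σ) X) z x y)
        - Gz (Pn n) (Bm α β σ X) z j y * PsiF p (qf (Pn n) (Bm α β σ X) z x y)
        + (Mx σ x j : ℂ) * (Dv85 (Bm α β σ X) z p (α / Real.sqrt n) x y j k l
          + Dv85 (Bm α β (flipP (cyc x j k l) σ) X) z p (α / Real.sqrt n) x y j k l)‖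
      ≤ 100 * (p : ℝ) ^ 2 * Γ * (8 * Γ * (1 + ‖z‖ + 2 * Γ)) ^ 2 * (2 * Γ * (16 / Real.sqrt n)) ^ 2
        * (‖qf (Pn n) (Bm α β σ X) z x y‖
            + 8 * Γ * (1 + ‖z‖ + 2 * Γ) * (2 * Γ * (16 / Real.sqrt n))) ^ (2 * p - 3)
        * (1 + ‖qf (Pn n) (Bm α β σ X) z x y‖
            + 8 * Γ * (1 + ‖z‖ + 2 * Γ) * (2 * Γ * (16 / Real.sqrt n))) ^ 2 := by
  have hn3 : (3 : ℝ) ≤ n := by exact_mod_cast hn
  have hn0 : (0 : ℝ) < n := by linarith
  have hs0 : 0 < Real.sqrt n := Real.sqrt_pos.2 hn0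
  rw [Bm_flip α β hD hσ ha X]
  set B := Bm α β σ X with hB
  set a : ℝ := Mx σ x j with had
  set c0 : ℝ := α / Real.sqrt n with hc0
  have hpB : PB (Pn n) B := pb_Bm α β σ hσ X
  have hpY := pbXi85 x j k l (-(2 * a * c0))
  have ha1 : |a| = 1 := by
    rw [had, ← Real.sqrt_sq_eq_abs, Mx_sq, Real.sqrt_one]
  have hsp : sp1 ((-(2 * a * c0)) • Xi x j k l) ≤ 16 / Real.sqrt n := by
    rw [sp1_smul, abs_neg, abs_mul, abs_mul, ha1, abs_of_pos (by norm_num : (0 : ℝ) < 2), mul_one,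
      hc0, abs_of_nonneg (by positivity)]
    have h2 := sp1_Xi x j k l
    have h3 : 2 * (α / Real.sqrt n) ≤ 2 / Real.sqrt n := by
      rw [mul_div_assoc']
      gcongr
      linarith
    calc 2 * (α / Real.sqrt n) * sp1 (Xi x j k l) ≤ 2 / Real.sqrt n * 8 :=
          mul_le_mul h3 h2 (sp1_nonneg _) (by positivity)
      _ = 16 / Real.sqrt n := by ring
  have hspG : sp1 ((-(2 * a * c0)) • Xi x j k l) * Γ ≤ 1 / 2 := by
    have h1 : 16 / Real.sqrt n * Γ ≤ 1 / 2 := by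
      rw [div_mul_eq_mul_div, div_le_iff₀ hs0]
      linarith
    exact (mul_le_mul_of_nonneg_right hsp (by linarith)).trans h1
  have hN : 1 ≤ (n : ℝ) * |z.im| := by rw [abs_of_pos hz]; exact hz1
  have h := rem_q hpB hpY z hz.ne' Γ hΓ hG hspG hN p hp j x y
  rw [Dv_eq85, Dv_eq85] at h
  have e : Gz (Pn n) (B + (-(2 * a * c0)) • Xi x j k l) z j y
          * PsiF p (qf (Pn n) (B + (-(2 * a * c0)) • Xi x j k l) z x y)
        - Gz (Pn n) B z j y * PsiF p (qf (Pn n) B z x y)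
        + (a : ℂ) * (Dv85 B z p c0 x y j k l
          + Dv85 (B + (-(2 * a * c0)) • Xi x j k l) z p c0 x y j k l)
      = Gz (Pn n) (B + (-(2 * a * c0)) • Xi x j k l) z j y
          * PsiF p (qf (Pn n) (B + (-(2 * a * c0)) • Xi x j k l) z x y)
        - Gz (Pn n) B z j y * PsiF p (qf (Pn n) B z x y)
        - (-2 * (a : ℂ) * Dv85 B z p c0 x y j k l
          + -2 * (a : ℂ) * Dv85 (B + (-(2 * a * c0)) • Xi x j k l) z p c0 x y j k l) / 2 := by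
    ring
  rw [e]
  refine h.trans ?_
  have hq := norm_nonneg (qf (Pn n) B z x y)
  have hsp0 := sp1_nonneg ((-(2 * a * c0)) • Xi x j k l)
  have hΓ0 : 0 ≤ Γ := by linarith
  have hz0 := norm_nonneg z
  gcongr

private theorem bad_r85 {n : ℕ} (hn : 3 ≤ n) (α β : ℝ) (hα0 : 0 ≤ α) (hα1 : α ≤ 1)
    (X : Fin n × Fin n → ℝ) (z : ℂ) (hz : 0 < z.im) (hz1 : 1 ≤ n * z.im) (hz3 : ‖z‖ ≤ 3)
    (p : ℕ) (hp : 2 ≤ p) (x y j k l : Fin n)
    {σ : Fin n → Fin n → Bool} (hσ : σ ∈ Sn n) :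
    ‖Gz (Pn n) (Bm α β σ X) z j y * PsiF p (qf (Pn n) (Bm α β σ X) z x y)‖
        ≤ n * (5 * (n : ℝ) ^ 2) ^ (2 * p - 1) ∧
      ‖Dv85 (Bm α β σ X) z p (α / Real.sqrt n) x y j k l‖
        ≤ 8 * (n : ℝ) ^ 2 * (5 * (n : ℝ) ^ 2) ^ (2 * p - 1)
          + n * (2 * p * (5 * (n : ℝ) ^ 2) ^ (2 * p - 2) * (40 * (n : ℝ) ^ 3)) := by
  have hn3 : (3 : ℝ) ≤ n := by exact_mod_cast hn
  have hn0 : (0 : ℝ) < n := by linarith
  have hs0 : 0 < Real.sqrt n := Real.sqrt_pos.2 hn0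
  have hs1 : 1 ≤ Real.sqrt n := by rw [Real.one_le_sqrt]; linarith
  obtain ⟨hM, hG, hq, hdq⟩ := crude hn α β hσ X z hz hz1 hz3
  have hc0 : 0 ≤ α / Real.sqrt n := by positivity
  have hc1 : α / Real.sqrt n ≤ 1 := by
    rw [div_le_one hs0]; linarith
  have hΨ : ‖PsiF p (qf (Pn n) (Bm α β σ X) z x y)‖ ≤ (5 * (n : ℝ) ^ 2) ^ (2 * p - 1) := by
    rw [norm_psi p (by omega)]
    exact pow_le_pow_left₀ (norm_nonneg _) (hq x y) _
  refine ⟨?_, ?_⟩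
  · rw [norm_mul]
    exact mul_le_mul (hG.en j y) hΨ (norm_nonneg _) hn0.le
  · unfold Dv85
    refine (norm_add_le _ _).trans (add_le_add ?_ ?_)
    · rw [norm_mul, norm_mul, norm_neg, Complex.norm_real, Real.norm_of_nonneg hc0]
      have h1 := sparse_entry hG.en hG.en hn0.le hn0.le (Xi x j k l) j y
      have h2 := sp1_Xi x j k l
      have h3 : α / Real.sqrt n * ‖(Gz (Pn n) (Bm α β σ X) z * toC (Xi x j k l)
          * Gz (Pn n) (Bm α β σ X) z) j y‖ ≤ 8 * (n : ℝ) ^ 2 := by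
        calc α / Real.sqrt n * ‖(Gz (Pn n) (Bm α β σ X) z * toC (Xi x j k l)
              * Gz (Pn n) (Bm α β σ X) z) j y‖ ≤ 1 * (n * sp1 (Xi x j k l) * n) :=
              mul_le_mul hc1 h1 (norm_nonneg _) (by norm_num)
          _ ≤ 1 * (n * 8 * n) := by gcongr
          _ = 8 * (n : ℝ) ^ 2 := by ring
      exact mul_le_mul h3 hΨ (norm_nonneg _) (by positivity)
    · rw [norm_mul, norm_mul, Complex.norm_real, Real.norm_of_nonneg hc0]
      have h1 := norm_dpsi p hp (qf (Pn n) (Bm α β σ X) z x y)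
        (dqf (Pn n) (Bm α β σ X) (Xi x j k l) z x y)
      have h2 : ‖dPsi p (qf (Pn n) (Bm α β σ X) z x y)
          (dqf (Pn n) (Bm α β σ X) (Xi x j k l) z x y)‖
          ≤ 2 * p * (5 * (n : ℝ) ^ 2) ^ (2 * p - 2) * (40 * (n : ℝ) ^ 3) := by
        refine h1.trans ?_
        have h3 := hq x y
        have h4 := hdq x y j k l
        gcongr
      calc ‖Gz (Pn n) (Bm α β σ X) z j y‖ * (α / Real.sqrt n
            * ‖dPsi p (qf (Pn n) (Bm α β σ X) z x y)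
              (dqf (Pn n) (Bm α β σ X) (Xi x j k l) z x y)‖)
          ≤ n * (1 * (2 * p * (5 * (n : ℝ) ^ 2) ^ (2 * p - 2) * (40 * (n : ℝ) ^ 3))) := by
            refine mul_le_mul (hG.en j y) ?_ (by positivity) hn0.le
            exact mul_le_mul hc1 h2 (norm_nonneg _) (by norm_num)
        _ = n * (2 * p * (5 * (n : ℝ) ^ 2) ^ (2 * p - 2) * (40 * (n : ℝ) ^ 3)) := by ring

/-- `1/√n (..) + (..) ≤ κ` -/
private theorem num1_85 {S N Λ Γ τ κ : ℝ} (hΛ : 1 ≤ Λ) (hΓ : 1 ≤ Γ) (hτ : 0 ≤ τ) (hτ1 : τ ≤ 1)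
    (hS : 1 ≤ S) (hN : N = S ^ 2) (hκ : 10 ^ 9 * Λ ^ 4 * Γ ^ 7 * (τ + 1 / S) ≤ κ) :
    1 / S * (Λ ^ 3 * τ + 8 * Γ + 40 * τ) + (40 * τ ^ 2 + 16 * Γ * τ + 49 * Λ ^ 4 * Γ ^ 2 / N)
      ≤ κ := by
  have hS0 : 0 < S := by linarith
  set s : ℝ := 1 / S with hs
  have hs0 : 0 < s := by positivity
  have hs1 : s ≤ 1 := by rw [hs, div_le_one hS0]; exact hS
  have hN' : 49 * Λ ^ 4 * Γ ^ 2 / N = 49 * (Λ ^ 4 * Γ ^ 2) * s * s := by
    rw [hN, hs]; field_simp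
  set P : ℝ := Λ ^ 4 * Γ ^ 7 with hP
  have hΛ4 : 1 ≤ Λ ^ 4 := one_le_pow₀ hΛ
  have hΓ7 : 1 ≤ Γ ^ 7 := one_le_pow₀ hΓ
  have hP1 : 1 ≤ P := by rw [hP]; nlinarith
  have e1 : Λ ^ 3 ≤ P := by
    calc Λ ^ 3 ≤ Λ ^ 4 * 1 := by rw [mul_one]; exact pow_le_pow_right₀ hΛ (by norm_num)
      _ ≤ P := mul_le_mul_of_nonneg_left hΓ7 (by positivity)
  have e2 : Γ ≤ P := by
    calc Γ = 1 * Γ ^ 1 := by ring
      _ ≤ Λ ^ 4 * Γ ^ 7 := mul_le_mul hΛ4 (pow_le_pow_right₀ hΓ (by norm_num)) (by positivity)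
          (by positivity)
  have e3 : Λ ^ 4 * Γ ^ 2 ≤ P :=
    mul_le_mul_of_nonneg_left (pow_le_pow_right₀ hΓ (by norm_num)) (by positivity)
  have e4 : 10 ^ 9 * Λ ^ 4 * Γ ^ 7 * (τ + s) = 10 ^ 9 * (P * (τ + s)) := by rw [hP]; ring
  rw [e4] at hκ
  rw [hN']
  have hPτ : 0 ≤ P * τ := by positivity
  have hPs : 0 ≤ P * s := by positivity
  have t1 : s * (Λ ^ 3 * τ) ≤ P * τ := by
    calc s * (Λ ^ 3 * τ) ≤ 1 * (P * τ) :=
          mul_le_mul hs1 (mul_le_mul_of_nonneg_right e1 hτ) (by positivity) (by norm_num)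
      _ = P * τ := one_mul _
  have t2 : s * Γ ≤ P * s := by
    calc s * Γ ≤ s * P := mul_le_mul_of_nonneg_left e2 hs0.le
      _ = P * s := mul_comm _ _
  have t3 : s * τ ≤ P * τ := mul_le_mul_of_nonneg_right (by linarith) hτ
  have t4 : τ ^ 2 ≤ P * τ := by
    rw [sq]; exact mul_le_mul_of_nonneg_right (by linarith) hτ
  have t5 : Γ * τ ≤ P * τ := mul_le_mul_of_nonneg_right e2 hτ
  have t6 : (Λ ^ 4 * Γ ^ 2) * s * s ≤ P * s := by
    have : (Λ ^ 4 * Γ ^ 2) * s ≤ P := by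
      calc (Λ ^ 4 * Γ ^ 2) * s ≤ P * 1 := mul_le_mul e3 hs1 hs0.le (by linarith)
        _ = P := mul_one _
    exact mul_le_mul_of_nonneg_right this hs0.le
  nlinarith

private theorem num3_85 {S Γ κ Q z : ℝ} {p : ℕ} (hΓ : 1 ≤ Γ) (hQ : 0 ≤ Q)
    (hz0 : 0 ≤ z) (hz : z ≤ 3) (hS : 1 ≤ S) (hκ : 10 ^ 9 * Γ ^ 7 * (1 / S) ≤ κ)
    (hκ1 : κ ≤ 1) :
    4 * S * (100 * (p : ℝ) ^ 2 * Γ * (8 * Γ * (1 + z + 2 * Γ)) ^ 2 * (2 * Γ * (16 / S)) ^ 2
        * (Q + 8 * Γ * (1 + z + 2 * Γ) * (2 * Γ * (16 / S))) ^ (2 * p - 3)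
        * (1 + Q + 8 * Γ * (1 + z + 2 * Γ) * (2 * Γ * (16 / S))) ^ 2)
      ≤ 4 * (p : ℝ) ^ 2 * κ * (Q + κ) ^ (2 * p - 3) * (1 + Q) ^ 2 := by
  have hS0 : 0 < S := by linarith
  set s : ℝ := 1 / S with hs
  have hs0 : 0 < s := by positivity
  have h16 : 2 * Γ * (16 / S) = 32 * Γ * s := by rw [hs]; ring
  rw [h16]
  have hA : 8 * Γ * (1 + z + 2 * Γ) ≤ 48 * Γ ^ 2 := by nlinarith
  have hA0 : 0 ≤ 8 * Γ * (1 + z + 2 * Γ) := by positivity
  have hAe : 8 * Γ * (1 + z + 2 * Γ) * (32 * Γ * s) ≤ κ := by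
    calc 8 * Γ * (1 + z + 2 * Γ) * (32 * Γ * s) ≤ 48 * Γ ^ 2 * (32 * Γ * s) := by gcongr
      _ = 1536 * Γ ^ 3 * s := by ring
      _ ≤ 10 ^ 9 * Γ ^ 7 * s := by
          have : Γ ^ 3 ≤ Γ ^ 7 := pow_le_pow_right₀ hΓ (by norm_num)
          gcongr
          norm_num
      _ ≤ κ := hκ
  have hκ0 : 0 ≤ κ := le_trans (by positivity) hκ
  have h1 : 4 * S * (100 * (p : ℝ) ^ 2 * Γ * (8 * Γ * (1 + z + 2 * Γ)) ^ 2 * (32 * Γ * s) ^ 2)
      ≤ (p : ℝ) ^ 2 * κ := by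
    calc 4 * S * (100 * (p : ℝ) ^ 2 * Γ * (8 * Γ * (1 + z + 2 * Γ)) ^ 2 * (32 * Γ * s) ^ 2)
        ≤ 4 * S * (100 * (p : ℝ) ^ 2 * Γ * (48 * Γ ^ 2) ^ 2 * (32 * Γ * s) ^ 2) := by gcongr
      _ = (p : ℝ) ^ 2 * (943718400 * Γ ^ 7 * s) * (S * s) := by ring
      _ = (p : ℝ) ^ 2 * (943718400 * Γ ^ 7 * s) := by
          rw [hs, mul_one_div_cancel hS0.ne', mul_one]
      _ ≤ (p : ℝ) ^ 2 * (10 ^ 9 * Γ ^ 7 * s) := by gcongr; norm_num
      _ ≤ (p : ℝ) ^ 2 * κ := by gcongr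
  have h2 : (Q + 8 * Γ * (1 + z + 2 * Γ) * (32 * Γ * s)) ^ (2 * p - 3) ≤ (Q + κ) ^ (2 * p - 3) := by
    gcongr
  have h3 : (1 + Q + 8 * Γ * (1 + z + 2 * Γ) * (32 * Γ * s)) ^ 2 ≤ 4 * (1 + Q) ^ 2 := by
    have h4 : 1 + Q + 8 * Γ * (1 + z + 2 * Γ) * (32 * Γ * s) ≤ 2 * (1 + Q) := by linarith
    have h5 : 0 ≤ 1 + Q + 8 * Γ * (1 + z + 2 * Γ) * (32 * Γ * s) := by positivity
    calc (1 + Q + 8 * Γ * (1 + z + 2 * Γ) * (32 * Γ * s)) ^ 2 ≤ (2 * (1 + Q)) ^ 2 :=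
          pow_le_pow_left₀ h5 h4 2
      _ = 4 * (1 + Q) ^ 2 := by ring
  calc 4 * S * (100 * (p : ℝ) ^ 2 * Γ * (8 * Γ * (1 + z + 2 * Γ)) ^ 2 * (32 * Γ * s) ^ 2
        * (Q + 8 * Γ * (1 + z + 2 * Γ) * (32 * Γ * s)) ^ (2 * p - 3)
        * (1 + Q + 8 * Γ * (1 + z + 2 * Γ) * (32 * Γ * s)) ^ 2)
      = (4 * S * (100 * (p : ℝ) ^ 2 * Γ * (8 * Γ * (1 + z + 2 * Γ)) ^ 2 * (32 * Γ * s) ^ 2))
        * (Q + 8 * Γ * (1 + z + 2 * Γ) * (32 * Γ * s)) ^ (2 * p - 3)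
        * (1 + Q + 8 * Γ * (1 + z + 2 * Γ) * (32 * Γ * s)) ^ 2 := by ring
    _ ≤ ((p : ℝ) ^ 2 * κ) * (Q + κ) ^ (2 * p - 3) * (4 * (1 + Q) ^ 2) := by
        gcongr
    _ = 4 * (p : ℝ) ^ 2 * κ * (Q + κ) ^ (2 * p - 3) * (1 + Q) ^ 2 := by ring

private theorem bad_num85 {S N : ℝ} {p : ℕ} (hp : 2 ≤ p) (hN : 3 ≤ N) (hS : 1 ≤ S)
    (hSN : N = S ^ 2) :
    (1 / S * (S ^ 3 * N + 8 * N + 40 * N) + (40 * N ^ 2 + 16 * N * N + 49 * S ^ 4 * N ^ 2 / N))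
        * (5 * N ^ 2) ^ (2 * p - 1)
      + 8 / S ^ 5 * (N ^ 3 * (N * (2 * p * (5 * N ^ 2) ^ (2 * p - 2) * (40 * N ^ 3))))
      + 4 / S ^ 5 * (N ^ 3 * (2 * (N * (5 * N ^ 2) ^ (2 * p - 1) + (8 * N ^ 2 * (5 * N ^ 2) ^ (2 * p - 1)
          + N * (2 * p * (5 * N ^ 2) ^ (2 * p - 2) * (40 * N ^ 3))))))
      ≤ (p : ℝ) * (10 * N) ^ (4 * p + 10) := by
  have hN0 : 0 < N := by linarith
  have hS0 : 0 < S := by linarith
  have hp' : (2 : ℝ) ≤ p := by exact_mod_cast hp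
  set U : ℝ := (5 * N ^ 2) ^ (2 * p - 2) with hU
  have hU0 : 0 < U := by positivity
  have eU : (5 * N ^ 2) ^ (2 * p - 1) = U * (5 * N ^ 2) := by
    rw [hU, ← pow_succ]; congr 1; omega
  rw [eU]
  have hS5 : 1 / S ^ 5 ≤ 1 := by
    rw [div_le_one (by positivity)]; exact one_le_pow₀ hS
  have h1S : 1 / S ≤ 1 := by rw [div_le_one hS0]; exact hS
  have hNsq : 3 * N ≤ N ^ 2 := by nlinarith
  have hN3 : 3 * N ^ 2 ≤ N ^ 3 := by nlinarith [sq_nonneg N]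
  have c1 : 1 / S * (S ^ 3 * N + 8 * N + 40 * N)
      + (40 * N ^ 2 + 16 * N * N + 49 * S ^ 4 * N ^ 2 / N) ≤ 75 * N ^ 3 := by
    have a1 : 1 / S * (S ^ 3 * N + 8 * N + 40 * N) ≤ N ^ 2 + 48 * N := by
      have : 1 / S * (S ^ 3 * N + 8 * N + 40 * N) = S ^ 2 * N + 1 / S * (48 * N) := by
        field_simp
        ring
      rw [this, ← hSN]
      have : 1 / S * (48 * N) ≤ 1 * (48 * N) := by gcongr
      nlinarith
    have a2 : 49 * S ^ 4 * N ^ 2 / N = 49 * N ^ 3 := by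
      have : S ^ 4 = N ^ 2 := by rw [hSN]; ring
      rw [this]; field_simp
    rw [a2]
    nlinarith
  have c2 : 8 / S ^ 5 * (N ^ 3 * (N * (2 * p * U * (40 * N ^ 3)))) ≤ 640 * p * N ^ 7 * U := by
    have e : 8 / S ^ 5 * (N ^ 3 * (N * (2 * p * U * (40 * N ^ 3))))
        = 1 / S ^ 5 * (640 * p * N ^ 7 * U) := by ring
    rw [e]
    exact mul_le_of_le_one_left (by positivity) hS5
  have c3 : 4 / S ^ 5 * (N ^ 3 * (2 * (N * (U * (5 * N ^ 2)) + (8 * N ^ 2 * (U * (5 * N ^ 2))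
          + N * (2 * p * U * (40 * N ^ 3)))))) ≤ 808 * p * N ^ 7 * U := by
    have e : 4 / S ^ 5 * (N ^ 3 * (2 * (N * (U * (5 * N ^ 2)) + (8 * N ^ 2 * (U * (5 * N ^ 2))
          + N * (2 * p * U * (40 * N ^ 3))))))
        = 1 / S ^ 5 * ((40 * N ^ 6 + (320 + 640 * p) * N ^ 7) * U) := by ring
    rw [e]
    have h67 : 3 * N ^ 6 ≤ N ^ 7 := by
      have : N ^ 7 = N * N ^ 6 := by ring
      rw [this]; gcongr
    have h70 : 0 < N ^ 7 := by positivity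
    have a : (40 * N ^ 6 + (320 + 640 * p) * N ^ 7) * U ≤ 808 * p * N ^ 7 * U := by
      gcongr
      nlinarith
    exact (mul_le_of_le_one_left (by positivity) hS5).trans a
  have c1' : (1 / S * (S ^ 3 * N + 8 * N + 40 * N)
      + (40 * N ^ 2 + 16 * N * N + 49 * S ^ 4 * N ^ 2 / N)) * (U * (5 * N ^ 2))
      ≤ 375 * p * N ^ 7 * U := by
    calc (1 / S * (S ^ 3 * N + 8 * N + 40 * N)
        + (40 * N ^ 2 + 16 * N * N + 49 * S ^ 4 * N ^ 2 / N)) * (U * (5 * N ^ 2))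
        ≤ 75 * N ^ 3 * (U * (5 * N ^ 2)) := by gcongr
      _ = 375 * N ^ 5 * U := by ring
      _ ≤ 375 * p * N ^ 7 * U := by
          have h57 : N ^ 5 ≤ p * N ^ 7 := by
            have h1 : N ^ 5 ≤ N ^ 7 := pow_le_pow_right₀ (by linarith) (by norm_num)
            have h2 : 0 < N ^ 7 := by positivity
            nlinarith
          nlinarith
  have hUV : U ≤ (10 * N) ^ (4 * p - 4) := by
    have : (10 * N) ^ (4 * p - 4) = ((10 * N) ^ 2) ^ (2 * p - 2) := by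
      rw [← pow_mul]; congr 1; omega
    rw [this, hU]
    gcongr
    nlinarith
  have hfin : 1823 * N ^ 7 ≤ (10 * N) ^ 14 := by
    have h1 : N ^ 7 ≤ N ^ 14 := pow_le_pow_right₀ (by linarith) (by norm_num)
    have h2 : (10 * N) ^ 14 = 10 ^ 14 * N ^ 14 := by ring
    have h3 : 0 < N ^ 14 := by positivity
    rw [h2]
    nlinarith
  calc (1 / S * (S ^ 3 * N + 8 * N + 40 * N)
          + (40 * N ^ 2 + 16 * N * N + 49 * S ^ 4 * N ^ 2 / N)) * (U * (5 * N ^ 2))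
        + 8 / S ^ 5 * (N ^ 3 * (N * (2 * p * U * (40 * N ^ 3))))
        + 4 / S ^ 5 * (N ^ 3 * (2 * (N * (U * (5 * N ^ 2)) + (8 * N ^ 2 * (U * (5 * N ^ 2))
          + N * (2 * p * U * (40 * N ^ 3))))))
      ≤ 375 * p * N ^ 7 * U + 640 * p * N ^ 7 * U + 808 * p * N ^ 7 * U :=
        add_le_add (add_le_add c1' c2) c3
    _ = p * (U * (1823 * N ^ 7)) := by ring
    _ ≤ p * ((10 * N) ^ (4 * p - 4) * (10 * N) ^ 14) := by gcongr
    _ = (p : ℝ) * (10 * N) ^ (4 * p + 10) := by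
        rw [← pow_add]; congr 2; omega

theorem switchQ {n : ℕ} (hn : 3 ≤ n) (α β : ℝ) (hα0 : 0 ≤ α) (hα1 : α ≤ 1)
    (X : Fin n × Fin n → ℝ) (z : ℂ) (hz : 0 < z.im) (hz1 : 1 ≤ n * z.im) (hz3 : ‖z‖ ≤ 3)
    (p : ℕ) (hp : 2 ≤ p) (Λ Γ τ κ : ℝ) (hΛ : 1 ≤ Λ) (hΓ : 1 ≤ Γ) (hτ : 0 ≤ τ) (hτ1 : τ ≤ 1)
    (h32 : 32 * Γ ≤ Real.sqrt n) (hκ : 10 ^ 9 * Λ ^ 4 * Γ ^ 7 * (τ + 1 / Real.sqrt n) ≤ κ)
    (hκ1 : κ ≤ 1) (x y : Fin n) (bd : (Fin n → Fin n → Bool) → ℝ)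
    (hbd : ∀ σ ∈ Sn n,
      (HypM (Mx σ) Λ ∧ HypG (Gz (Pn n) (Bm α β σ X) z) Γ τ ∧
        6 * (p : ℝ) ^ 2 * κ * (‖qf (Pn n) (Bm α β σ X) z x y‖ + κ) ^ (2 * p - 3)
          * (1 + ‖qf (Pn n) (Bm α β σ X) z x y‖) ^ 2 ≤ bd σ)
      ∨ (p : ℝ) * (10 * n) ^ (4 * p + 10) ≤ bd σ) :
    ‖EU (fun σ => (toC (H0 σ) * Gz (Pn n) (Bm α β σ X) z) x y
          * PsiF p (qf (Pn n) (Bm α β σ X) z x y))
      + (α : ℂ) * EU (fun σ => mz (Pn n) (Bm α β σ X) z * Gz (Pn n) (Bm α β σ X) z x y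
          * PsiF p (qf (Pn n) (Bm α β σ X) z x y))‖ ≤ EU bd := by
  classical
  have hn3 : (3 : ℝ) ≤ n := by exact_mod_cast hn
  have hn0 : (0 : ℝ) < n := by linarith
  set S : ℝ := Real.sqrt n with hS
  have hS0 : 0 < S := Real.sqrt_pos.2 hn0
  have hS1 : 1 ≤ S := by rw [hS, Real.one_le_sqrt]; linarith
  have hSN : (n : ℝ) = S ^ 2 := (Real.sq_sqrt hn0.le).symm
  have hp' : (2 : ℝ) ≤ p := by exact_mod_cast hp
  have hκ0 : 0 ≤ κ := le_trans (by positivity) hκ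
  have hκ7 : 10 ^ 9 * Γ ^ 7 * (1 / S) ≤ κ := by
    refine le_trans ?_ hκ
    have hΛ4 : 1 ≤ Λ ^ 4 := one_le_pow₀ hΛ
    calc 10 ^ 9 * Γ ^ 7 * (1 / S) = 10 ^ 9 * 1 * Γ ^ 7 * (0 + 1 / S) := by ring
      _ ≤ 10 ^ 9 * Λ ^ 4 * Γ ^ 7 * (τ + 1 / S) := by gcongr
  have hκτ : 10 ^ 9 * Γ ^ 7 * τ ≤ κ := by
    refine le_trans ?_ hκ
    have hΛ4 : 1 ≤ Λ ^ 4 := one_le_pow₀ hΛ
    calc 10 ^ 9 * Γ ^ 7 * τ = 10 ^ 9 * 1 * Γ ^ 7 * (τ + 0) := by ring
      _ ≤ 10 ^ 9 * Λ ^ 4 * Γ ^ 7 * (τ + 1 / S) := by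
          gcongr
          positivity
  set R : ℝ → ℝ := fun Q =>
    100 * (p : ℝ) ^ 2 * Γ * (8 * Γ * (1 + ‖z‖ + 2 * Γ)) ^ 2 * (2 * Γ * (16 / S)) ^ 2
        * (Q + 8 * Γ * (1 + ‖z‖ + 2 * Γ) * (2 * Γ * (16 / S))) ^ (2 * p - 3)
        * (1 + Q + 8 * Γ * (1 + ‖z‖ + 2 * Γ) * (2 * Γ * (16 / S))) ^ 2 with hR
  set Rb : ℝ := 2 * (n * (5 * (n : ℝ) ^ 2) ^ (2 * p - 1)
    + (8 * (n : ℝ) ^ 2 * (5 * (n : ℝ) ^ 2) ^ (2 * p - 1)
      + n * (2 * p * (5 * (n : ℝ) ^ 2) ^ (2 * p - 2) * (40 * (n : ℝ) ^ 3)))) with hRb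
  have hRb0 : 0 ≤ Rb := by positivity
  have hR0 : ∀ Q, 0 ≤ Q → 0 ≤ R Q := by
    intro Q hQ
    have := norm_nonneg z
    positivity
  set good : (Fin n → Fin n → Bool) → Prop := fun σ =>
    HypM (Mx σ) Λ ∧ HypG (Gz (Pn n) (Bm α β σ X) z) Γ τ ∧
        6 * (p : ℝ) ^ 2 * κ * (‖qf (Pn n) (Bm α β σ X) z x y‖ + κ) ^ (2 * p - 3)
          * (1 + ‖qf (Pn n) (Bm α β σ X) z x y‖) ^ 2 ≤ bd σ with hgood
  have hsw := switchF (n := n) (by omega) x y α hα0 hα1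
    (fun σ => Gz (Pn n) (Bm α β σ X) z)
    (fun σ => PsiF p (qf (Pn n) (Bm α β σ X) z x y))
    (fun σ j k l => ((α / S : ℝ) : ℂ) * dPsi p (qf (Pn n) (Bm α β σ X) z x y)
      (dqf (Pn n) (Bm α β σ X) (Xi x j k l) z x y))
    (fun σ _ _ _ => if good σ then R ‖qf (Pn n) (Bm α β σ X) z x y‖ else Rb)
    (fun σ => if good σ then Λ else S) (fun σ => if good σ then Γ else n)
    (fun σ => if good σ then τ else n)
    (fun σ hσ => by
      by_cases hg : good σ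
      · simp only [if_pos hg]; exact hg.1
      · simp only [if_neg hg]; exact (crude hn α β hσ X z hz hz1 hz3).1)
    (fun σ hσ => by
      by_cases hg : good σ
      · simp only [if_pos hg]; exact hg.2.1
      · simp only [if_neg hg]; exact (crude hn α β hσ X z hz hz1 hz3).2.1)
    (fun σ hσ j k l => by
      by_cases hg : good σ
      · simp only [if_pos hg]; exact hR0 _ (norm_nonneg _)
      · simp only [if_neg hg]; exact hRb0)
    (fun σ hσ j k l hD ha => by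
      by_cases hg : good σ
      · simp only [if_pos hg]
        exact good_r85 hn α β hα0 hα1 X z hz hz1 p hp Γ hΓ h32 x y j k l hD hσ ha hg.2.1.en
      · simp only [if_neg hg]
        have hσ' : flipP (cyc x j k l) σ ∈ Sn n := by
          obtain ⟨h1, h2, h3, h4, h5, h6⟩ := hD
          exact (flip_mem h1 h2 h3 h4 h5 h6 hσ ha).1
        obtain ⟨b1, b2⟩ := bad_r85 hn α β hα0 hα1 X z hz hz1 hz3 p hp x y j k l hσ
        obtain ⟨b3, b4⟩ := bad_r85 hn α β hα0 hα1 X z hz hz1 hz3 p hp x y j k l hσ'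
        have ha1 : ‖(Mx σ x j : ℂ)‖ = 1 := by
          rw [Complex.norm_real, Real.norm_eq_abs, ← Real.sqrt_sq_eq_abs, Mx_sq, Real.sqrt_one]
        have hadd := norm_add_le (Dv85 (Bm α β σ X) z p (α / S) x y j k l)
          (Dv85 (Bm α β (flipP (cyc x j k l) σ) X) z p (α / S) x y j k l)
        refine (norm_add_le _ _).trans ?_
        rw [norm_mul, ha1, one_mul]
        have h5 := norm_sub_le
          (Gz (Pn n) (Bm α β (flipP (cyc x j k l) σ) X) z j y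
            * PsiF p (qf (Pn n) (Bm α β (flipP (cyc x j k l) σ) X) z x y))
          (Gz (Pn n) (Bm α β σ X) z j y * PsiF p (qf (Pn n) (Bm α β σ X) z x y))
        refine (add_le_add h5 hadd).trans ?_
        rw [hRb]
        linarith)
  refine le_trans (le_of_eq rfl) (hsw.trans (EU_mono fun σ hσ => ?_))
  by_cases hg : good σ
  · simp only [if_pos hg]
    refine le_trans ?_ hg.2.2
    set Q : ℝ := ‖qf (Pn n) (Bm α β σ X) z x y‖ with hQ
    have hQ0 : 0 ≤ Q := norm_nonneg _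
    have hG := hg.2.1
    have hB := pb_Bm α β σ hσ X
    have e1 : Q ^ (2 * p - 1) = Q ^ (2 * p - 3) * Q ^ 2 := by
      rw [← pow_add]; congr 1; omega
    have e2 : Q ^ (2 * p - 2) = Q ^ (2 * p - 3) * Q := by
      rw [← pow_succ]; congr 1; omega
    have hmono : Q ^ (2 * p - 3) ≤ (Q + κ) ^ (2 * p - 3) := pow_le_pow_left₀ hQ0 (by linarith) _
    have hQk0 : 0 ≤ (Q + κ) ^ (2 * p - 3) := by positivity
    -- first term
    have T1 : (1 / S * (Λ ^ 3 * τ + 8 * Γ + 40 * τ)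
          + (40 * τ ^ 2 + 16 * Γ * τ + 49 * Λ ^ 4 * Γ ^ 2 / n))
        * ‖PsiF p (qf (Pn n) (Bm α β σ X) z x y)‖ ≤ κ * (Q + κ) ^ (2 * p - 3) * (1 + Q) ^ 2 := by
      rw [norm_psi p (by omega), ← hQ, e1]
      have h1 := num1_85 hΛ hΓ hτ hτ1 hS1 hSN hκ
      calc (1 / S * (Λ ^ 3 * τ + 8 * Γ + 40 * τ)
            + (40 * τ ^ 2 + 16 * Γ * τ + 49 * Λ ^ 4 * Γ ^ 2 / n)) * (Q ^ (2 * p - 3) * Q ^ 2)
          ≤ κ * ((Q + κ) ^ (2 * p - 3) * (1 + Q) ^ 2) := by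
            apply mul_le_mul h1 _ (by positivity) hκ0
            apply mul_le_mul hmono _ (by positivity) hQk0
            apply pow_le_pow_left₀ hQ0
            linarith
        _ = κ * (Q + κ) ^ (2 * p - 3) * (1 + Q) ^ 2 := by ring
    -- second term
    have hW : ∀ j k l, ‖((α / S : ℝ) : ℂ) * dPsi p (qf (Pn n) (Bm α β σ X) z x y)
        (dqf (Pn n) (Bm α β σ X) (Xi x j k l) z x y)‖
        ≤ 1 / S * (80 * p * Γ ^ 3 * Q ^ (2 * p - 2)) := by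
      intro j k l
      have hN : 1 ≤ (n : ℝ) * |z.im| := by rw [abs_of_pos hz]; exact hz1
      have h1 := bd_dq hB (pbXi1_85 x j k l) z hz.ne' Γ hΓ hG.en hN x y
      have h2 := norm_dpsi p hp (qf (Pn n) (Bm α β σ X) z x y)
        (dqf (Pn n) (Bm α β σ X) (Xi x j k l) z x y)
      have h3 := sp1_Xi x j k l
      have h4 : sp1 (Xi x j k l) * Γ ^ 3 * (2 + ‖z‖) ≤ 8 * Γ ^ 3 * 5 := by
        apply mul_le_mul _ (by linarith) (by positivity) (by positivity)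
        exact mul_le_mul_of_nonneg_right h3 (by positivity)
      rw [norm_mul, Complex.norm_real, Real.norm_of_nonneg (by positivity)]
      have h5 : α / S ≤ 1 / S := by gcongr
      refine mul_le_mul h5 (h2.trans ?_) (norm_nonneg _) (by positivity)
      calc 2 * (p : ℝ) * ‖qf (Pn n) (Bm α β σ X) z x y‖ ^ (2 * p - 2)
            * ‖dqf (Pn n) (Bm α β σ X) (Xi x j k l) z x y‖
          ≤ 2 * (p : ℝ) * Q ^ (2 * p - 2) * (8 * Γ ^ 3 * 5) := by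
            rw [← hQ]
            exact mul_le_mul_of_nonneg_left (h1.trans h4) (by positivity)
        _ = 80 * p * Γ ^ 3 * Q ^ (2 * p - 2) := by ring
    have hb1 := b1 hG y
    have T2 : 8 / S ^ 5 * ∑ j, ∑ k : Fin n, ∑ l : Fin n, ‖Gz (Pn n) (Bm α β σ X) z j y‖
        * ‖((α / S : ℝ) : ℂ) * dPsi p (qf (Pn n) (Bm α β σ X) z x y)
        (dqf (Pn n) (Bm α β σ X) (Xi x j k l) z x y)‖
        ≤ (p : ℝ) ^ 2 * κ * (Q + κ) ^ (2 * p - 3) * (1 + Q) ^ 2 := by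
      have h1 : ∑ j, ∑ k : Fin n, ∑ l : Fin n, ‖Gz (Pn n) (Bm α β σ X) z j y‖
          * ‖((α / S : ℝ) : ℂ) * dPsi p (qf (Pn n) (Bm α β σ X) z x y)
            (dqf (Pn n) (Bm α β σ X) (Xi x j k l) z x y)‖
          ≤ (n : ℝ) ^ 2 * (1 / S * (80 * p * Γ ^ 3 * Q ^ (2 * p - 2))) * (n * τ) := by
        calc ∑ j, ∑ k : Fin n, ∑ l : Fin n, ‖Gz (Pn n) (Bm α β σ X) z j y‖
            * ‖((α / S : ℝ) : ℂ) * dPsi p (qf (Pn n) (Bm α β σ X) z x y)
              (dqf (Pn n) (Bm α β σ X) (Xi x j k l) z x y)‖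
            ≤ ∑ j, ∑ _k : Fin n, ∑ _l : Fin n, ‖Gz (Pn n) (Bm α β σ X) z j y‖
              * (1 / S * (80 * p * Γ ^ 3 * Q ^ (2 * p - 2))) :=
              Finset.sum_le_sum fun j _ => Finset.sum_le_sum fun k _ =>
                Finset.sum_le_sum fun l _ => mul_le_mul_of_nonneg_left (hW j k l) (norm_nonneg _)
          _ = (n : ℝ) ^ 2 * (1 / S * (80 * p * Γ ^ 3 * Q ^ (2 * p - 2)))
              * ∑ j, ‖Gz (Pn n) (Bm α β σ X) z j y‖ := by
              simp only [Finset.sum_const, Finset.card_univ, Fintype.card_fin, nsmul_eq_mul]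
              rw [Finset.mul_sum]
              refine Finset.sum_congr rfl fun j _ => ?_
              ring
          _ ≤ _ := mul_le_mul_of_nonneg_left hb1 (by positivity)
      have h2 : 8 / S ^ 5 * ((n : ℝ) ^ 2 * (1 / S * (80 * p * Γ ^ 3 * Q ^ (2 * p - 2))) * (n * τ))
          = 640 * (Γ ^ 3 * τ) * (p * Q ^ (2 * p - 2)) := by
        rw [hSN]; field_simp; ring
      have h3 : 640 * (Γ ^ 3 * τ) ≤ κ := by
        have : Γ ^ 3 ≤ Γ ^ 7 := pow_le_pow_right₀ hΓ (by norm_num)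
        calc 640 * (Γ ^ 3 * τ) ≤ 10 ^ 9 * (Γ ^ 7 * τ) := by
              gcongr
              norm_num
          _ = 10 ^ 9 * Γ ^ 7 * τ := by ring
          _ ≤ κ := hκτ
      calc 8 / S ^ 5 * ∑ j, ∑ k : Fin n, ∑ l : Fin n, ‖Gz (Pn n) (Bm α β σ X) z j y‖
            * ‖((α / S : ℝ) : ℂ) * dPsi p (qf (Pn n) (Bm α β σ X) z x y)
            (dqf (Pn n) (Bm α β σ X) (Xi x j k l) z x y)‖
          ≤ 8 / S ^ 5 * ((n : ℝ) ^ 2 * (1 / S * (80 * p * Γ ^ 3 * Q ^ (2 * p - 2))) * (n * τ)) :=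
            mul_le_mul_of_nonneg_left h1 (by positivity)
        _ = 640 * (Γ ^ 3 * τ) * (p * Q ^ (2 * p - 2)) := h2
        _ ≤ κ * ((p : ℝ) ^ 2 * ((Q + κ) ^ (2 * p - 3) * (1 + Q) ^ 2)) := by
            rw [e2]
            apply mul_le_mul h3 _ (by positivity) hκ0
            apply mul_le_mul _ _ (by positivity) (by positivity)
            · nlinarith
            · apply mul_le_mul hmono _ hQ0 hQk0
              nlinarith
        _ = (p : ℝ) ^ 2 * κ * (Q + κ) ^ (2 * p - 3) * (1 + Q) ^ 2 := by ring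
    -- third term
    have T3 : 4 / S ^ 5 * ∑ _j : Fin n, ∑ _k : Fin n, ∑ _l : Fin n, R Q
        ≤ 4 * (p : ℝ) ^ 2 * κ * (Q + κ) ^ (2 * p - 3) * (1 + Q) ^ 2 := by
      have h1 := num3_85 (p := p) hΓ hQ0 (norm_nonneg z) hz3 hS1 hκ7 hκ1
      refine le_trans (le_of_eq ?_) h1
      simp only [Finset.sum_const, Finset.card_univ, Fintype.card_fin, nsmul_eq_mul]
      have e : 4 / S ^ 5 * ((n : ℝ) * (n * (n * R Q))) = 4 * S * R Q := by
        rw [hSN]; field_simp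
      rw [e]
    have hX0 : 0 ≤ κ * (Q + κ) ^ (2 * p - 3) * (1 + Q) ^ 2 := by positivity
    have hsum := add_le_add (add_le_add T1 T2) T3
    refine hsum.trans ?_
    have e : κ * (Q + κ) ^ (2 * p - 3) * (1 + Q) ^ 2
        + (p : ℝ) ^ 2 * κ * (Q + κ) ^ (2 * p - 3) * (1 + Q) ^ 2
        + 4 * (p : ℝ) ^ 2 * κ * (Q + κ) ^ (2 * p - 3) * (1 + Q) ^ 2
        = (1 + 5 * (p : ℝ) ^ 2) * (κ * (Q + κ) ^ (2 * p - 3) * (1 + Q) ^ 2) := by ring
    have e' : 6 * (p : ℝ) ^ 2 * κ * (Q + κ) ^ (2 * p - 3) * (1 + Q) ^ 2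
        = (6 * (p : ℝ) ^ 2) * (κ * (Q + κ) ^ (2 * p - 3) * (1 + Q) ^ 2) := by ring
    rw [e, e']
    apply mul_le_mul_of_nonneg_right _ hX0
    nlinarith
  · simp only [if_neg hg]
    have hbad : (p : ℝ) * (10 * n) ^ (4 * p + 10) ≤ bd σ := by
      rcases hbd σ hσ with h | h
      · exact absurd h hg
      · exact h
    refine le_trans ?_ hbad
    refine le_trans ?_ (bad_num85 hp hn3 hS1 hSN)
    obtain ⟨hM, hG, hq, hdq⟩ := crude hn α β hσ X z hz hz1 hz3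
    have hΨ : ‖PsiF p (qf (Pn n) (Bm α β σ X) z x y)‖ ≤ (5 * (n : ℝ) ^ 2) ^ (2 * p - 1) := by
      rw [norm_psi p (by omega)]
      exact pow_le_pow_left₀ (norm_nonneg _) (hq x y) _
    refine add_le_add (add_le_add ?_ ?_) ?_
    · exact mul_le_mul_of_nonneg_left hΨ (by positivity)
    · refine mul_le_mul_of_nonneg_left ?_ (by positivity)
      have h1 : ∀ j k l, ‖Gz (Pn n) (Bm α β σ X) z j y‖
            * ‖((α / S : ℝ) : ℂ) * dPsi p (qf (Pn n) (Bm α β σ X) z x y)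
              (dqf (Pn n) (Bm α β σ X) (Xi x j k l) z x y)‖
          ≤ n * (2 * p * (5 * (n : ℝ) ^ 2) ^ (2 * p - 2) * (40 * (n : ℝ) ^ 3)) := by
        intro j k l
        refine mul_le_mul (hG.en j y) ?_ (norm_nonneg _) hn0.le
        have h2 := norm_dpsi p hp (qf (Pn n) (Bm α β σ X) z x y)
          (dqf (Pn n) (Bm α β σ X) (Xi x j k l) z x y)
        have hc0 : 0 ≤ α / S := by positivity
        have hc1 : α / S ≤ 1 := by rw [div_le_one hS0]; linarith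
        rw [norm_mul, Complex.norm_real, Real.norm_of_nonneg hc0]
        have h3 := hq x y
        have h4 := hdq x y j k l
        calc α / S * ‖dPsi p (qf (Pn n) (Bm α β σ X) z x y)
              (dqf (Pn n) (Bm α β σ X) (Xi x j k l) z x y)‖
            ≤ 1 * ‖dPsi p (qf (Pn n) (Bm α β σ X) z x y)
              (dqf (Pn n) (Bm α β σ X) (Xi x j k l) z x y)‖ :=
              mul_le_mul_of_nonneg_right hc1 (norm_nonneg _)
          _ ≤ 2 * p * (5 * (n : ℝ) ^ 2) ^ (2 * p - 2) * (40 * (n : ℝ) ^ 3) := by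
              rw [one_mul]
              refine h2.trans ?_
              gcongr
      calc ∑ j, ∑ k : Fin n, ∑ l : Fin n, ‖Gz (Pn n) (Bm α β σ X) z j y‖
            * ‖((α / S : ℝ) : ℂ) * dPsi p (qf (Pn n) (Bm α β σ X) z x y)
              (dqf (Pn n) (Bm α β σ X) (Xi x j k l) z x y)‖
          ≤ ∑ _j : Fin n, ∑ _k : Fin n, ∑ _l : Fin n,
            (n * (2 * p * (5 * (n : ℝ) ^ 2) ^ (2 * p - 2) * (40 * (n : ℝ) ^ 3))) :=
            Finset.sum_le_sum fun j _ => Finset.sum_le_sum fun k _ =>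
              Finset.sum_le_sum fun l _ => h1 j k l
        _ = (n : ℝ) ^ 3 * (n * (2 * p * (5 * (n : ℝ) ^ 2) ^ (2 * p - 2) * (40 * (n : ℝ) ^ 3))) := by
            simp only [Finset.sum_const, Finset.card_univ, Fintype.card_fin, nsmul_eq_mul]
            ring
    · refine mul_le_mul_of_nonneg_left (le_of_eq ?_) (by positivity)
      simp only [Finset.sum_const, Finset.card_univ, Fintype.card_fin, nsmul_eq_mul]
      rw [hRb]
      ring

end Pool.Agent.ZR.F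

end

section

/-!
# ZR/F6 : the Gaussian part of the moment estimate for `q`

`σ` fixed, `W' = P W P`, `W = Wv (1/n) X`, `B = α H0 + β W'`, `P = Pn n`.  Since `P G = G`,
`(W'G)_xy = (P W G)_xy = ∑_{u,a} P_xu W_ua G_ay`.  Gaussian integration by parts
(`gm_ibp_Wv`, E0, `v = 1/n`) for `F(W) = G_ay Ψ`: the direction `single u a 1 + single a u 1 = Es u a`
in `W` changes `B` by `β P Es P`, and `G P = G`, so `dG = -β G Es(u,a) G`:
`∫ W_ua G_ay Ψ = (1/n) ∫ [-β (G_au G_ay + G_aa G_uy) Ψ + G_ay dPsi p q (dqf .. (β P Es(u,a) P))]`.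
Sum over `u, a` with `P_xu` (`∑_u P_xu G_ua.. = G_xa..`, `P G = G`):
`∫ (W'G)_xy Ψ = -β ∫ m G_xy Ψ - (β/n) ∫ (G²)_xy Ψ + (1/n) ∑_{u,a} P_xu ∫ G_ay dPsi p q (dqf ..)`.
Good `X` (`HypG G Γ τ`, `‖z‖ ≤ 3`): `(1/n)|(G²)_xy| ≤ τ²` (Cauchy-Schwarz with the row bounds),
`‖dqf[P Es P]‖ ≤ 10 Γ³`: (`|(G Es(u,a) G)_xy| = |G_xu G_ay + G_xa G_uy| ≤ 2Γ²`,
`|dmz| = (2/n)|(G²)_ua| ≤ 2τ² ≤ 2`, `|z + m| ≤ 3 + Γ`), `∑_u |P_xu| ≤ 2`, `∑_a‖G_ay‖ ≤ nτ`:
the last sum is `≤ (1/n)·2·nτ·2p‖q‖^{2p-2}·10Γ³ = 40pτΓ³‖q‖^{2p-2}`.  Total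
`≤ τ²‖q‖^{2p-1} + 40pτΓ³‖q‖^{2p-2} ≤ 2pκ(‖q‖+κ)^{2p-3}(1+‖q‖)²` as `κ ≥ 10^9Γ⁷τ`, `τ ≤ 1`.
Bad `X`: crude bounds `‖G‖ ≤ n`, `‖q‖ ≤ 5n²`.
Integrability: all functions of `X` are continuous (C5 `continuous_gz`, `Wv` continuous) and bounded
(or bounded times a linear function of `X`).
-/


open MeasureTheory ProbabilityTheory Matrix

namespace Pool.Agent.ZR.F


private theorem es_single {n : ℕ} (u a : Fin n) :
    Matrix.single u a (1 : ℝ) + Matrix.single a u 1 = Es u a := by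
  ext i j
  simp only [Es, Matrix.of_apply, Matrix.add_apply, Matrix.single_apply]
  have e1 : (u = i ∧ a = j) ↔ (i = u ∧ j = a) := by
    constructor <;> rintro ⟨h1, h2⟩ <;> exact ⟨h1.symm, h2.symm⟩
  have e2 : (a = i ∧ u = j) ↔ (i = a ∧ j = u) := by
    constructor <;> rintro ⟨h1, h2⟩ <;> exact ⟨h1.symm, h2.symm⟩
  simp only [e1, e2]

private theorem es_symm' {n : ℕ} (u a : Fin n) : (Es u a).IsSymm := by
  ext i j
  exact Es_symm u a j i |>.symm ▸ (Es_symm u a i j)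

/-- the matrix as a function of `W` -/
private noncomputable def BW {n : ℕ} (α β : ℝ) (σ : Fin n → Fin n → Bool)
    (W : Matrix (Fin n) (Fin n) ℝ) : Matrix (Fin n) (Fin n) ℝ :=
  α • H0 σ + β • (Pn n * W * Pn n)

private theorem BW_add {n : ℕ} (α β : ℝ) (σ : Fin n → Fin n → Bool)
    (W E : Matrix (Fin n) (Fin n) ℝ) (s : ℝ) :
    BW α β σ (W + s • E) = BW α β σ W + s • (β • (Pn n * E * Pn n)) := by
  unfold BW
  rw [Matrix.mul_add, Matrix.add_mul, Matrix.mul_smul, Matrix.smul_mul, smul_add, smul_comm β s,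
    add_assoc]

private theorem toC_smul' {N : ℕ} (c : ℝ) (A : Matrix (Fin N) (Fin N) ℝ) :
    toC (c • A) = (c : ℂ) • toC A := by
  ext i j
  simp [toC]

/-- sandwich of the direction -/
private theorem sand {n : ℕ} (P : Matrix (Fin n) (Fin n) ℝ) (G : Matrix (Fin n) (Fin n) ℂ)
    (h1 : G * toC P = G) (h2 : toC P * G = G) (β : ℝ) (u a v w : Fin n) :
    (G * toC (β • (P * Es u a * P)) * G) v w = (β : ℂ) * (G v u * G a w + G v a * G u w) := by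
  rw [toC_smul', C3_toC_mul, C3_toC_mul, Matrix.mul_smul, Matrix.smul_mul, Matrix.smul_apply,
    smul_eq_mul]
  congr 1
  have : G * (toC P * toC (Es u a) * toC P) * G = (G * toC P) * toC (Es u a) * (toC P * G) := by
    simp only [Matrix.mul_assoc]
  rw [this, h1, h2, es_entry]

/-- expansion of `(P W P G)_xy` -/
private theorem expand {n : ℕ} (P W : Matrix (Fin n) (Fin n) ℝ) (G : Matrix (Fin n) (Fin n) ℂ)
    (h2 : toC P * G = G) (x y : Fin n) :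
    (toC (P * W * P) * G) x y = ∑ u, ∑ a, (P x u : ℂ) * ((W u a : ℂ) * G a y) := by
  have : toC (P * W * P) * G = toC P * (toC W * G) := by
    rw [C3_toC_mul, C3_toC_mul]
    calc toC P * toC W * toC P * G = toC P * (toC W * (toC P * G)) := by
          simp only [Matrix.mul_assoc]
      _ = _ := by rw [h2]
  rw [this, Matrix.mul_apply]
  refine Finset.sum_congr rfl fun u _ => ?_
  rw [Matrix.mul_apply, Finset.mul_sum]
  rfl

/-- the main terms -/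
private theorem mainT {n : ℕ} (P : Matrix (Fin n) (Fin n) ℝ) (G : Matrix (Fin n) (Fin n) ℂ)
    (hs : Gᵀ = G) (h2 : toC P * G = G) (x y : Fin n) :
    ∑ u, ∑ a, (P x u : ℂ) * (G a u * G a y + G a a * G u y)
      = (∑ a, G x a * G a y) + G.trace * G x y := by
  have hsy : ∀ a b, G a b = G b a := fun a b => by
    conv_lhs => rw [← hs]
    rfl
  have hP : ∀ b, ∑ u, (P x u : ℂ) * G u b = G x b := by
    intro b
    have := congrFun (congrFun h2 x) b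
    rw [Matrix.mul_apply] at this
    exact this
  have e1 : ∑ u, ∑ a, (P x u : ℂ) * (G a u * G a y + G a a * G u y)
      = (∑ a, (∑ u, (P x u : ℂ) * G u a) * G a y) + ∑ a, G a a * ∑ u, (P x u : ℂ) * G u y := by
    rw [Finset.sum_comm, ← Finset.sum_add_distrib]
    refine Finset.sum_congr rfl fun a _ => ?_
    rw [Finset.sum_mul, Finset.mul_sum, ← Finset.sum_add_distrib]
    refine Finset.sum_congr rfl fun u _ => ?_
    rw [hsy a u]
    ring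
  rw [e1]
  simp only [hP]
  rw [← Finset.sum_mul]
  rfl

private theorem trace_sand {n : ℕ} (P : Matrix (Fin n) (Fin n) ℝ) (G : Matrix (Fin n) (Fin n) ℂ)
    (hs : Gᵀ = G) (h1 : G * toC P = G) (h2 : toC P * G = G) (β : ℝ) (u a : Fin n) :
    (G * toC (β • (P * Es u a * P)) * G).trace = 2 * (β : ℂ) * ∑ w, G u w * G w a := by
  have hsy : ∀ a b, G a b = G b a := fun a b => by
    conv_lhs => rw [← hs]
    rfl
  rw [Matrix.trace]
  simp only [Matrix.diag_apply]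
  rw [Finset.mul_sum]
  refine Finset.sum_congr rfl fun w _ => ?_
  rw [sand P G h1 h2, hsy w u, hsy a w]
  ring

private theorem Pn_row_abs {n : ℕ} (hn : 0 < n) (x : Fin n) : ∑ u, |Pn n x u| ≤ 2 := by
  have hn' : (0 : ℝ) < n := by exact_mod_cast hn
  calc ∑ u, |Pn n x u| ≤ ∑ u, ((if x = u then (1 : ℝ) else 0) + 1 / (n : ℝ)) := by
        refine Finset.sum_le_sum fun u _ => ?_
        rw [Pn_apply]
        refine (abs_sub _ _).trans ?_
        rw [abs_of_nonneg (show (0 : ℝ) ≤ 1 / n by positivity)]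
        gcongr
        split_ifs <;> simp
    _ = 2 := by
        rw [Finset.sum_add_distrib]
        simp
        field_simp
        norm_num

private theorem Pn_abs {n : ℕ} (hn : 0 < n) (x y : Fin n) : |Pn n x y| ≤ 1 := by
  have hn' : (1 : ℝ) ≤ n := by exact_mod_cast hn
  have h1 : 1 / (n : ℝ) ≤ 1 := by
    rw [div_le_one (by linarith)]; exact hn'
  have h0 : 0 ≤ 1 / (n : ℝ) := by positivity
  rw [Pn_apply, abs_le]
  split_ifs <;> constructor <;> linarith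

/-- general pointwise bound -/
private theorem ptw {n : ℕ} (hn : 0 < n) {B : Matrix (Fin n) (Fin n) ℝ} (hB : PB (Pn n) B)
    (β : ℝ) (hβ0 : 0 ≤ β) (hβ1 : β ≤ 1) (z : ℂ) (hz : z.im ≠ 0) (hz3 : ‖z‖ ≤ 3)
    (p : ℕ) (hp : 2 ≤ p) (g s t : ℝ) (hg0 : 0 ≤ g)
    (hg : ∀ a b, ‖Gz (Pn n) B z a b‖ ≤ g)
    (hs : ∀ a b, ‖∑ w, Gz (Pn n) B z a w * Gz (Pn n) B z w b‖ ≤ n * s)
    (ht : ∀ b, ∑ a, ‖Gz (Pn n) B z a b‖ ≤ n * t) (x y : Fin n) :
    (∀ u a, ‖dqf (Pn n) B (β • (Pn n * Es u a * Pn n)) z x y‖ ≤ 2 * s * g + (3 + g) * (2 * g ^ 2)) ∧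
    ‖(1 / (n : ℂ)) * (-(β : ℂ) * (∑ a, Gz (Pn n) B z x a * Gz (Pn n) B z a y)
          * PsiF p (qf (Pn n) B z x y)
        + ∑ u, ∑ a, (Pn n x u : ℂ) * (Gz (Pn n) B z a y * dPsi p (qf (Pn n) B z x y)
            (dqf (Pn n) B (β • (Pn n * Es u a * Pn n)) z x y)))‖
      ≤ s * ‖qf (Pn n) B z x y‖ ^ (2 * p - 1)
        + 4 * p * t * ‖qf (Pn n) B z x y‖ ^ (2 * p - 2) * (2 * s * g + (3 + g) * (2 * g ^ 2)) := by
  have hn' : (0 : ℝ) < n := by exact_mod_cast hn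
  have hnC : (n : ℂ) ≠ 0 := by exact_mod_cast hn.ne'
  set G := Gz (Pn n) B z with hG
  have hGs : Gᵀ = G := gz_symm hB z hz
  obtain ⟨h1, h2⟩ := gz_q hB z hz
  have hs0 : 0 ≤ s := by
    have := (norm_nonneg _).trans (hs x y)
    by_contra hc
    push Not at hc
    have : (n : ℝ) * s < 0 := mul_neg_of_pos_of_neg hn' hc
    linarith
  have ht0 : 0 ≤ t := by
    have := (Finset.sum_nonneg fun a _ => norm_nonneg (G a y)).trans (ht y)
    by_contra hc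
    push Not at hc
    have : (n : ℝ) * t < 0 := mul_neg_of_pos_of_neg hn' hc
    linarith
  have hm : ‖mz (Pn n) B z‖ ≤ g := by
    unfold mz
    rw [norm_mul, ← hG]
    have e1 : ‖G.trace‖ ≤ n * g := by
      rw [Matrix.trace]
      refine (norm_sum_le _ _).trans ?_
      refine (Finset.sum_le_sum fun i _ => hg i i).trans ?_
      simp
    have e2 : ‖(1 / (n : ℂ))‖ = 1 / (n : ℝ) := by simp
    rw [e2]
    calc 1 / (n : ℝ) * ‖G.trace‖ ≤ 1 / (n : ℝ) * (n * g) := by gcongr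
      _ = g := by field_simp
  have hq : ∀ u a, ‖dqf (Pn n) B (β • (Pn n * Es u a * Pn n)) z x y‖
      ≤ 2 * s * g + (3 + g) * (2 * g ^ 2) := by
    intro u a
    unfold dqf
    refine (norm_add_le _ _).trans ?_
    rw [norm_mul, norm_mul]
    have e1 : ‖dmz (Pn n) B (β • (Pn n * Es u a * Pn n)) z‖ ≤ 2 * s := by
      unfold dmz dGm
      rw [← hG, Matrix.trace_neg, trace_sand (Pn n) G hGs h1 h2, norm_mul, norm_neg, norm_mul,
        norm_mul]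
      have e2 : ‖(1 / (n : ℂ))‖ = 1 / (n : ℝ) := by simp
      have e3 : ‖(β : ℂ)‖ = β := by simp [abs_of_nonneg hβ0]
      rw [e2, e3]
      have e4 := hs u a
      have e5 : ‖(2 : ℂ)‖ = 2 := by simp
      rw [e5]
      calc 1 / (n : ℝ) * (2 * β * ‖∑ w, G u w * G w a‖) ≤ 1 / (n : ℝ) * (2 * 1 * (n * s)) := by
            gcongr
        _ = 2 * s := by field_simp
    have e6 : ‖dGm (Pn n) B (β • (Pn n * Es u a * Pn n)) z x y‖ ≤ 2 * g ^ 2 := by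
      unfold dGm
      rw [← hG, Matrix.neg_apply, norm_neg, sand (Pn n) G h1 h2, norm_mul]
      have e3 : ‖(β : ℂ)‖ = β := by simp [abs_of_nonneg hβ0]
      rw [e3]
      have e7 : ‖G x u * G a y + G x a * G u y‖ ≤ 2 * g ^ 2 := by
        refine (norm_add_le _ _).trans ?_
        rw [norm_mul, norm_mul]
        have := hg x u
        have := hg a y
        have := hg x a
        have := hg u y
        calc ‖G x u‖ * ‖G a y‖ + ‖G x a‖ * ‖G u y‖ ≤ g * g + g * g := by gcongr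
          _ = 2 * g ^ 2 := by ring
      calc β * ‖G x u * G a y + G x a * G u y‖ ≤ 1 * (2 * g ^ 2) := by gcongr
        _ = _ := by ring
    have e8 : ‖z + mz (Pn n) B z‖ ≤ 3 + g := (norm_add_le _ _).trans (add_le_add hz3 hm)
    have e9 := hg x y
    exact add_le_add (mul_le_mul e1 e9 (norm_nonneg _) (by positivity))
      (mul_le_mul e8 e6 (norm_nonneg _) (by positivity))
  refine ⟨hq, ?_⟩
  set q := qf (Pn n) B z x y with hqd
  set D : ℝ := 2 * s * g + (3 + g) * (2 * g ^ 2) with hD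
  have hD0 : 0 ≤ D := by positivity
  have hpa : ∀ u a, ‖dPsi p q (dqf (Pn n) B (β • (Pn n * Es u a * Pn n)) z x y)‖
      ≤ 2 * p * ‖q‖ ^ (2 * p - 2) * D := by
    intro u a
    refine (norm_dpsi p hp q _).trans ?_
    have := hq u a
    gcongr
  rw [norm_mul]
  have e2 : ‖(1 / (n : ℂ))‖ = 1 / (n : ℝ) := by simp
  rw [e2]
  have hA : ‖-(β : ℂ) * (∑ a, G x a * G a y) * PsiF p q‖ ≤ n * s * ‖q‖ ^ (2 * p - 1) := by
    rw [norm_mul, norm_mul, norm_neg, norm_psi p (by omega)]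
    have e3 : ‖(β : ℂ)‖ = β := by simp [abs_of_nonneg hβ0]
    rw [e3]
    have := hs x y
    calc β * ‖∑ a, G x a * G a y‖ * ‖q‖ ^ (2 * p - 1) ≤ 1 * (n * s) * ‖q‖ ^ (2 * p - 1) := by
          gcongr
      _ = _ := by ring
  have hBd : ‖∑ u, ∑ a, (Pn n x u : ℂ) * (G a y * dPsi p q
            (dqf (Pn n) B (β • (Pn n * Es u a * Pn n)) z x y))‖
      ≤ 2 * (n * t) * (2 * p * ‖q‖ ^ (2 * p - 2) * D) := by
    refine (norm_sum_le _ _).trans ?_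
    calc ∑ u, ‖∑ a, (Pn n x u : ℂ) * (G a y * dPsi p q
            (dqf (Pn n) B (β • (Pn n * Es u a * Pn n)) z x y))‖
        ≤ ∑ u, |Pn n x u| * ((n * t) * (2 * p * ‖q‖ ^ (2 * p - 2) * D)) := by
          refine Finset.sum_le_sum fun u _ => ?_
          refine (norm_sum_le _ _).trans ?_
          calc ∑ a, ‖(Pn n x u : ℂ) * (G a y * dPsi p q
                (dqf (Pn n) B (β • (Pn n * Es u a * Pn n)) z x y))‖
              ≤ ∑ a, |Pn n x u| * (‖G a y‖ * (2 * p * ‖q‖ ^ (2 * p - 2) * D)) := by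
                refine Finset.sum_le_sum fun a _ => ?_
                rw [norm_mul, norm_mul, Complex.norm_real, Real.norm_eq_abs]
                have := hpa u a
                gcongr
            _ = |Pn n x u| * ((∑ a, ‖G a y‖) * (2 * p * ‖q‖ ^ (2 * p - 2) * D)) := by
                rw [← Finset.mul_sum, Finset.sum_mul]
            _ ≤ _ := by
                have := ht y
                gcongr
      _ = (∑ u, |Pn n x u|) * ((n * t) * (2 * p * ‖q‖ ^ (2 * p - 2) * D)) := by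
          rw [Finset.sum_mul]
      _ ≤ 2 * ((n * t) * (2 * p * ‖q‖ ^ (2 * p - 2) * D)) := by
          have := Pn_row_abs hn x
          gcongr
      _ = _ := by ring
  calc 1 / (n : ℝ) * ‖-(β : ℂ) * (∑ a, G x a * G a y) * PsiF p q
        + ∑ u, ∑ a, (Pn n x u : ℂ) * (G a y * dPsi p q
            (dqf (Pn n) B (β • (Pn n * Es u a * Pn n)) z x y))‖
      ≤ 1 / (n : ℝ) * (n * s * ‖q‖ ^ (2 * p - 1)
        + 2 * (n * t) * (2 * p * ‖q‖ ^ (2 * p - 2) * D)) := by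
        gcongr
        exact (norm_add_le _ _).trans (add_le_add hA hBd)
    _ = _ := by
        field_simp
        ring

private theorem qf_crude {n : ℕ} (hn : 3 ≤ n) {B : Matrix (Fin n) (Fin n) ℝ}
    (z : ℂ) (hz3 : ‖z‖ ≤ 3) (hG : ∀ a b, ‖Gz (Pn n) B z a b‖ ≤ n) (x y : Fin n) :
    ‖qf (Pn n) B z x y‖ ≤ 5 * (n : ℝ) ^ 2 := by
  have hn0 : 0 < n := by omega
  have hn' : (3 : ℝ) ≤ n := by exact_mod_cast hn
  have hm : ‖mz (Pn n) B z‖ ≤ n := by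
    unfold mz
    rw [norm_mul]
    have e1 : ‖(Gz (Pn n) B z).trace‖ ≤ n * n := by
      rw [Matrix.trace]
      refine (norm_sum_le _ _).trans ?_
      refine (Finset.sum_le_sum fun i _ => hG i i).trans ?_
      simp
    have e2 : ‖(1 / (n : ℂ))‖ = 1 / (n : ℝ) := by simp
    rw [e2]
    calc 1 / (n : ℝ) * ‖(Gz (Pn n) B z).trace‖ ≤ 1 / (n : ℝ) * (n * n) := by gcongr
      _ = n := by field_simp
  unfold qf
  refine (norm_add_le _ _).trans ?_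
  rw [norm_mul, Complex.norm_real, Real.norm_eq_abs]
  have e1 := Pn_abs hn0 x y
  have e2 : ‖z + mz (Pn n) B z‖ ≤ 3 + n := (norm_add_le _ _).trans (add_le_add hz3 hm)
  have e3 := hG x y
  have e4 : ‖z + mz (Pn n) B z‖ * ‖Gz (Pn n) B z x y‖ ≤ (3 + n) * n :=
    mul_le_mul e2 e3 (norm_nonneg _) (by positivity)
  nlinarith

private theorem num_good (p : ℕ) (hp : 2 ≤ p) (Γ τ κ Q : ℝ) (hΓ : 1 ≤ Γ) (hτ : 0 ≤ τ)
    (hτ1 : τ ≤ 1) (hκ : 10 ^ 9 * Γ ^ 7 * τ ≤ κ) (hQ : 0 ≤ Q) :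
    τ ^ 2 * Q ^ (2 * p - 1) + 4 * p * τ * Q ^ (2 * p - 2) * (2 * τ ^ 2 * Γ + (3 + Γ) * (2 * Γ ^ 2))
      ≤ 2 * (p : ℝ) * κ * (Q + κ) ^ (2 * p - 3) * (1 + Q) ^ 2 := by
  have hp1 : (1 : ℝ) ≤ p := by exact_mod_cast (by omega : 1 ≤ p)
  have e1 : Q ^ (2 * p - 1) = Q ^ (2 * p - 3) * Q ^ 2 := by
    rw [← pow_add]; congr 1; omega
  have e2 : Q ^ (2 * p - 2) = Q ^ (2 * p - 3) * Q := by
    rw [← pow_succ]; congr 1; omega
  have hΓ2 : Γ ≤ Γ ^ 3 := by nlinarith [sq_nonneg (Γ - 1), mul_nonneg (by linarith : (0:ℝ) ≤ Γ) (by linarith : (0:ℝ) ≤ Γ - 1)]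
  have hΓ3 : Γ ^ 2 ≤ Γ ^ 3 := pow_le_pow_right₀ hΓ (by norm_num)
  have hΓ4 : Γ ^ 3 ≤ Γ ^ 7 := pow_le_pow_right₀ hΓ (by norm_num)
  have hΓ5 : (1 : ℝ) ≤ Γ ^ 7 := one_le_pow₀ hΓ
  have hτ2 : τ ^ 2 ≤ τ := by nlinarith
  have hτ3 : τ ^ 2 ≤ 1 := by nlinarith
  have hD : 2 * τ ^ 2 * Γ + (3 + Γ) * (2 * Γ ^ 2) ≤ 10 * Γ ^ 3 := by
    have : 2 * τ ^ 2 * Γ ≤ 2 * 1 * Γ := by gcongr
    nlinarith
  have hκ0 : 0 ≤ κ := le_trans (by positivity) hκ
  have hκ1 : τ ≤ κ := by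
    refine le_trans ?_ hκ
    have : (1 : ℝ) ≤ 10 ^ 9 * Γ ^ 7 := by nlinarith
    nlinarith
  have hκ2 : 40 * τ * Γ ^ 3 ≤ κ := by
    refine le_trans ?_ hκ
    have : 40 * Γ ^ 3 ≤ 10 ^ 9 * Γ ^ 7 := by nlinarith
    nlinarith
  set M : ℝ := (Q + κ) ^ (2 * p - 3) * (1 + Q) ^ 2 with hM
  have hM0 : 0 ≤ M := by positivity
  have hM1 : Q ^ (2 * p - 1) ≤ M := by
    rw [e1, hM]
    gcongr
    · linarith
    · linarith
  have hM2 : Q ^ (2 * p - 2) ≤ M := by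
    rw [e2, hM]
    have : Q ≤ (1 + Q) ^ 2 := by nlinarith
    gcongr
    linarith
  calc τ ^ 2 * Q ^ (2 * p - 1)
        + 4 * p * τ * Q ^ (2 * p - 2) * (2 * τ ^ 2 * Γ + (3 + Γ) * (2 * Γ ^ 2))
      ≤ τ * M + 4 * p * τ * M * (10 * Γ ^ 3) := by
        gcongr
    _ = τ * M + p * (40 * τ * Γ ^ 3) * M := by ring
    _ ≤ (p * κ) * M + p * κ * M := by
        gcongr
        nlinarith
    _ = _ := by rw [hM]; ring

private theorem num_bad (n p : ℕ) (hn : 3 ≤ n) (hp : 2 ≤ p) (Q : ℝ) (hQ : 0 ≤ Q)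
    (hQ1 : Q ≤ 5 * (n : ℝ) ^ 2) :
    (n : ℝ) ^ 2 * Q ^ (2 * p - 1)
        + 4 * p * n * Q ^ (2 * p - 2) * (2 * (n : ℝ) ^ 2 * n + (3 + n) * (2 * (n : ℝ) ^ 2))
      ≤ (p : ℝ) * (10 * n) ^ (4 * p + 10) := by
  have hp1 : (1 : ℝ) ≤ p := by exact_mod_cast (by omega : 1 ≤ p)
  have hn' : (3 : ℝ) ≤ n := by exact_mod_cast hn
  have e1 : Q ^ (2 * p - 1) = Q ^ (2 * p - 2) * Q := by
    rw [← pow_succ]; congr 1; omega
  have e2 : (10 * (n : ℝ)) ^ (4 * p + 10) = ((10 * (n : ℝ)) ^ 2) ^ (2 * p - 2) * (10 * n) ^ 14 := by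
    rw [← pow_mul, ← pow_add]; congr 1; omega
  have hD : 2 * (n : ℝ) ^ 2 * n + (3 + n) * (2 * (n : ℝ) ^ 2) ≤ 6 * (n : ℝ) ^ 3 := by
    have : (3 : ℝ) * n ^ 2 ≤ n ^ 3 := by
      have : (0 : ℝ) ≤ (n : ℝ) ^ 2 := by positivity
      nlinarith
    nlinarith
  have hR : Q ^ (2 * p - 2) ≤ ((10 * (n : ℝ)) ^ 2) ^ (2 * p - 2) := by
    gcongr
    nlinarith
  set R := ((10 * (n : ℝ)) ^ 2) ^ (2 * p - 2) with hRd
  have hR0 : 0 ≤ R := by positivity
  rw [e1, e2]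
  calc (n : ℝ) ^ 2 * (Q ^ (2 * p - 2) * Q)
        + 4 * p * n * Q ^ (2 * p - 2) * (2 * (n : ℝ) ^ 2 * n + (3 + n) * (2 * (n : ℝ) ^ 2))
      ≤ (n : ℝ) ^ 2 * (R * (5 * (n : ℝ) ^ 2)) + 4 * p * n * R * (6 * (n : ℝ) ^ 3) := by gcongr
    _ = R * (5 * (n : ℝ) ^ 4 + p * (24 * (n : ℝ) ^ 4)) := by ring
    _ ≤ R * (p * (5 * (n : ℝ) ^ 4) + p * (24 * (n : ℝ) ^ 4)) := by
        have h5 : (0 : ℝ) ≤ 5 * (n : ℝ) ^ 4 := by positivity
        have h6 : 5 * (n : ℝ) ^ 4 ≤ p * (5 * (n : ℝ) ^ 4) := le_mul_of_one_le_left h5 hp1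
        exact mul_le_mul_of_nonneg_left (add_le_add h6 le_rfl) hR0
    _ = p * (R * (29 * (n : ℝ) ^ 4)) := by ring
    _ ≤ p * (R * (10 * n) ^ 14) := by
        gcongr
        have h1 : (1 : ℝ) ≤ (n : ℝ) ^ 10 := one_le_pow₀ (by linarith)
        have h2 : (0 : ℝ) ≤ (n : ℝ) ^ 4 := by positivity
        calc 29 * (n : ℝ) ^ 4 ≤ 10 ^ 14 * ((n : ℝ) ^ 4 * 1) := by nlinarith
          _ ≤ 10 ^ 14 * ((n : ℝ) ^ 4 * (n : ℝ) ^ 10) := by gcongr
          _ = (10 * (n : ℝ)) ^ 14 := by ring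

theorem gaussQ {n : ℕ} (hn : 3 ≤ n) (α β : ℝ) (hβ0 : 0 ≤ β) (hβ1 : β ≤ 1)
    {σ : Fin n → Fin n → Bool} (hσ : σ ∈ Sn n) (z : ℂ) (hz : 0 < z.im) (hz1 : 1 ≤ n * z.im)
    (hz3 : ‖z‖ ≤ 3) (p : ℕ) (hp : 2 ≤ p) (Γ τ κ : ℝ) (hΓ : 1 ≤ Γ) (hτ : 0 ≤ τ)
    (hτ1 : τ ≤ 1) (hκ : 10 ^ 9 * Γ ^ 7 * τ ≤ κ) (hκ1 : κ ≤ 1) (x y : Fin n)
    (bd : (Fin n × Fin n → ℝ) → ℝ) (hint : Integrable bd (gm n))
    (hbd : ∀ X, (HypG (Gz (Pn n) (Bm α β σ X) z) Γ τ ∧
        2 * (p : ℝ) * κ * (‖qf (Pn n) (Bm α β σ X) z x y‖ + κ) ^ (2 * p - 3)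
          * (1 + ‖qf (Pn n) (Bm α β σ X) z x y‖) ^ 2 ≤ bd X)
      ∨ (p : ℝ) * (10 * n) ^ (4 * p + 10) ≤ bd X) :
    ‖(∫ X, (toC (Pn n * Wv (1 / (n : ℝ)) X * Pn n) * Gz (Pn n) (Bm α β σ X) z) x y
          * PsiF p (qf (Pn n) (Bm α β σ X) z x y) ∂(gm n))
      + (β : ℂ) * ∫ X, mz (Pn n) (Bm α β σ X) z * Gz (Pn n) (Bm α β σ X) z x y
          * PsiF p (qf (Pn n) (Bm α β σ X) z x y) ∂(gm n)‖ ≤ ∫ X, bd X ∂(gm n) := by
  classical
  have hn0 : 0 < n := by omega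
  have hz' : z.im ≠ 0 := hz.ne'
  have hnR : (3 : ℝ) ≤ n := by exact_mod_cast hn
  have hnR0 : (0 : ℝ) < n := by linarith
  have hnC : (n : ℂ) ≠ 0 := by exact_mod_cast hn0.ne'
  have hPB : ∀ X, PB (Pn n) (Bm α β σ X) := fun X => pb_Bm α β σ hσ X
  have hGn : ∀ X a b, ‖Gz (Pn n) (Bm α β σ X) z a b‖ ≤ n := by
    intro X a b
    refine (g_entry_le (hPB X) z hz' a b).trans ?_
    rw [abs_of_pos hz, div_le_iff₀ hz]
    exact hz1
  have hBc : ∀ k l, Continuous (fun X : Fin n × Fin n → ℝ => Bm α β σ X k l) := by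
    intro k l
    have : Continuous (fun X : Fin n × Fin n → ℝ => Bm α β σ X) := by
      unfold Bm
      exact continuous_const.add (((continuous_const.matrix_mul (wv_continuous _)).matrix_mul
        continuous_const).const_smul β)
    exact this.matrix_elem k l
  have hGc : ∀ a b, Continuous (fun X => Gz (Pn n) (Bm α β σ X) z a b) := fun a b =>
    continuous_gz _ hBc hPB z hz' a b
  have hmc : Continuous (fun X => mz (Pn n) (Bm α β σ X) z) := by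
    unfold mz
    simp only [Matrix.trace, Matrix.diag_apply]
    exact continuous_const.mul (continuous_finsetSum _ fun i _ => hGc i i)
  have hqc : Continuous (fun X => qf (Pn n) (Bm α β σ X) z x y) := by
    unfold qf
    exact continuous_const.add ((continuous_const.add hmc).mul (hGc x y))
  have hΨc : Continuous (fun X => PsiF p (qf (Pn n) (Bm α β σ X) z x y)) := by
    unfold PsiF
    exact (hqc.pow _).mul ((Complex.continuous_conj.comp hqc).pow _)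
  have hqn : ∀ X, ‖qf (Pn n) (Bm α β σ X) z x y‖ ≤ 5 * (n : ℝ) ^ 2 := fun X =>
    qf_crude hn z hz3 (hGn X) x y
  have hΨn : ∀ X, ‖PsiF p (qf (Pn n) (Bm α β σ X) z x y)‖ ≤ (5 * (n : ℝ) ^ 2) ^ (2 * p - 1) := by
    intro X
    rw [norm_psi p (by omega)]
    have := hqn X
    gcongr
  -- crude forms of the hypotheses of `ptw`
  have hs2 : ∀ X a b, ‖∑ w, Gz (Pn n) (Bm α β σ X) z a w * Gz (Pn n) (Bm α β σ X) z w b‖
      ≤ n * (n : ℝ) ^ 2 := by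
    intro X a b
    refine (norm_sum_le _ _).trans ?_
    calc ∑ w, ‖Gz (Pn n) (Bm α β σ X) z a w * Gz (Pn n) (Bm α β σ X) z w b‖
        ≤ ∑ _w : Fin n, (n : ℝ) ^ 2 := by
          refine Finset.sum_le_sum fun w _ => ?_
          rw [norm_mul]
          have h1 := hGn X a w
          have h2 := hGn X w b
          calc ‖Gz (Pn n) (Bm α β σ X) z a w‖ * ‖Gz (Pn n) (Bm α β σ X) z w b‖ ≤ n * n := by gcongr
            _ = _ := by ring
      _ = _ := by simp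
  have ht2 : ∀ X b, ∑ a, ‖Gz (Pn n) (Bm α β σ X) z a b‖ ≤ n * (n : ℝ) := by
    intro X b
    refine (Finset.sum_le_sum fun a _ => hGn X a b).trans ?_
    simp
  have hcr := fun X => ptw hn0 (hPB X) β hβ0 hβ1 z hz' hz3 p hp n ((n : ℝ) ^ 2) n
    (by positivity) (hGn X) (hs2 X) (ht2 X) x y
  -- the direction
  set Y : Fin n → Fin n → Matrix (Fin n) (Fin n) ℝ := fun u a => β • (Pn n * Es u a * Pn n) with hY
  have hYP : ∀ u a, PB (Pn n) (Y u a) := by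
    intro u a
    have := pb_add (pb_PWP n (Es u a) (es_symm' u a)) (pb_PWP n (Es u a) (es_symm' u a)) β 0
    simpa [hY] using this
  have hdG : ∀ X u a v w, dGm (Pn n) (Bm α β σ X) (Y u a) z v w
      = -((β : ℂ) * (Gz (Pn n) (Bm α β σ X) z v u * Gz (Pn n) (Bm α β σ X) z a w
        + Gz (Pn n) (Bm α β σ X) z v a * Gz (Pn n) (Bm α β σ X) z u w)) := by
    intro X u a v w
    unfold dGm
    rw [Matrix.neg_apply, sand (Pn n) _ (gz_q (hPB X) z hz').1 (gz_q (hPB X) z hz').2]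
  have hdm : ∀ X u a, dmz (Pn n) (Bm α β σ X) (Y u a) z
      = (1 / (n : ℂ)) * -(2 * (β : ℂ) * ∑ w, Gz (Pn n) (Bm α β σ X) z u w
          * Gz (Pn n) (Bm α β σ X) z w a) := by
    intro X u a
    unfold dmz dGm
    rw [Matrix.trace_neg, trace_sand (Pn n) _ (gz_symm (hPB X) z hz')
      (gz_q (hPB X) z hz').1 (gz_q (hPB X) z hz').2]
  set F' : Fin n → Fin n → (Fin n × Fin n → ℝ) → ℂ := fun u a X =>
    dGm (Pn n) (Bm α β σ X) (Y u a) z a y * PsiF p (qf (Pn n) (Bm α β σ X) z x y)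
      + Gz (Pn n) (Bm α β σ X) z a y * dPsi p (qf (Pn n) (Bm α β σ X) z x y)
        (dqf (Pn n) (Bm α β σ X) (Y u a) z x y) with hF'
  have hdGc : ∀ u a v w, Continuous (fun X => dGm (Pn n) (Bm α β σ X) (Y u a) z v w) := by
    intro u a v w
    simp only [hdG]
    exact (continuous_const.mul (((hGc v u).mul (hGc a w)).add ((hGc v a).mul (hGc u w)))).neg
  have hdmc : ∀ u a, Continuous (fun X => dmz (Pn n) (Bm α β σ X) (Y u a) z) := by
    intro u a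
    simp only [hdm]
    exact continuous_const.mul (continuous_const.mul
      (continuous_finsetSum _ fun w _ => (hGc u w).mul (hGc w a))).neg
  have hdqc : ∀ u a, Continuous (fun X => dqf (Pn n) (Bm α β σ X) (Y u a) z x y) := by
    intro u a
    unfold dqf
    exact ((hdmc u a).mul (hGc x y)).add ((continuous_const.add hmc).mul (hdGc u a x y))
  have hF'c : ∀ u a, Continuous (F' u a) := by
    intro u a
    have h1 : Continuous (fun X => dPsi p (qf (Pn n) (Bm α β σ X) z x y)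
        (dqf (Pn n) (Bm α β σ X) (Y u a) z x y)) := by
      unfold dPsi
      exact ((((continuous_const.mul (hqc.pow _)).mul
        ((Complex.continuous_conj.comp hqc).pow _)).mul (hdqc u a))).add
        (((continuous_const.mul (hqc.pow _)).mul
        ((Complex.continuous_conj.comp hqc).pow _)).mul (Complex.continuous_conj.comp (hdqc u a)))
    exact ((hdGc u a a y).mul hΨc).add ((hGc a y).mul h1)
  set CF : ℝ := 2 * (n : ℝ) ^ 2 * (5 * (n : ℝ) ^ 2) ^ (2 * p - 1)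
    + n * (2 * p * (5 * (n : ℝ) ^ 2) ^ (2 * p - 2)
      * (2 * (n : ℝ) ^ 2 * n + (3 + n) * (2 * (n : ℝ) ^ 2))) with hCF
  have hF'n : ∀ u a X, ‖F' u a X‖ ≤ CF := by
    intro u a X
    simp only [hF', hCF]
    refine (norm_add_le _ _).trans (add_le_add ?_ ?_)
    · rw [norm_mul]
      refine mul_le_mul ?_ (hΨn X) (norm_nonneg _) (by positivity)
      rw [hdG, norm_neg, norm_mul]
      have e3 : ‖(β : ℂ)‖ = β := by simp [abs_of_nonneg hβ0]
      rw [e3]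
      have e7 : ‖Gz (Pn n) (Bm α β σ X) z a u * Gz (Pn n) (Bm α β σ X) z a y
          + Gz (Pn n) (Bm α β σ X) z a a * Gz (Pn n) (Bm α β σ X) z u y‖ ≤ 2 * (n : ℝ) ^ 2 := by
        refine (norm_add_le _ _).trans ?_
        rw [norm_mul, norm_mul]
        have := hGn X a u
        have := hGn X a y
        have := hGn X a a
        have := hGn X u y
        calc ‖Gz (Pn n) (Bm α β σ X) z a u‖ * ‖Gz (Pn n) (Bm α β σ X) z a y‖
              + ‖Gz (Pn n) (Bm α β σ X) z a a‖ * ‖Gz (Pn n) (Bm α β σ X) z u y‖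
            ≤ n * n + n * n := by gcongr
          _ = 2 * (n : ℝ) ^ 2 := by ring
      calc β * ‖Gz (Pn n) (Bm α β σ X) z a u * Gz (Pn n) (Bm α β σ X) z a y
          + Gz (Pn n) (Bm α β σ X) z a a * Gz (Pn n) (Bm α β σ X) z u y‖
          ≤ 1 * (2 * (n : ℝ) ^ 2) := by gcongr
        _ = _ := by ring
    · rw [norm_mul]
      refine mul_le_mul (hGn X a y) ?_ (norm_nonneg _) (by positivity)
      refine (norm_dpsi p hp _ _).trans ?_
      have h1 := (hcr X).1 u a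
      have h2 := hqn X
      gcongr
  have hF'i : ∀ u a, Integrable (F' u a) (gm n) := fun u a =>
    gm_integrable_of_le (hF'c u a).aestronglyMeasurable CF 0 (fun X => by simpa using hF'n u a X)
  -- the function of `W`
  set F : Fin n → Matrix (Fin n) (Fin n) ℝ → ℂ := fun a W =>
    Gz (Pn n) (BW α β σ W) z a y * PsiF p (qf (Pn n) (BW α β σ W) z x y) with hF
  have hFX : ∀ a X, F a (Wv (1 / (n : ℝ)) X)
      = Gz (Pn n) (Bm α β σ X) z a y * PsiF p (qf (Pn n) (Bm α β σ X) z x y) := fun a X => rfl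
  have hFc : ∀ a, Continuous (fun X => F a (Wv (1 / (n : ℝ)) X)) := fun a => (hGc a y).mul hΨc
  have hFn : ∀ a X, ‖F a (Wv (1 / (n : ℝ)) X)‖ ≤ n * (5 * (n : ℝ) ^ 2) ^ (2 * p - 1) := by
    intro a X
    rw [hFX, norm_mul]
    exact mul_le_mul (hGn X a y) (hΨn X) (norm_nonneg _) (by positivity)
  have hFi : ∀ a (c : Fin n × Fin n), Integrable
      (fun X : Fin n × Fin n → ℝ => X c • F a (Wv (1 / (n : ℝ)) X)) (gm n) := fun a c =>
    gm_integrable_coord_smul (hFc a).aestronglyMeasurable _ 0 (fun X => by simpa using hFn a X) c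
  have hibp : ∀ u a, ∫ X, Wv (1 / (n : ℝ)) X u a • F a (Wv (1 / (n : ℝ)) X) ∂(gm n)
      = (1 / (n : ℝ)) • ∫ X, F' u a X ∂(gm n) := by
    intro u a
    refine gm_ibp_Wv (by positivity) u a ?_ (hFi a (u, a)) (hFi a (a, u)) (hF'i u a)
    intro X
    have h1 := hasDeriv_gz (hPB X) (hYP u a) z hz' a y 0
    have h2 := hasDeriv_psi p _ _ 0 (hasDeriv_q (hPB X) (hYP u a) z hz' x y 0)
    have h3 := h1.mul h2
    have e0 : Bm α β σ X + (0 : ℝ) • Y u a = Bm α β σ X := by simp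
    rw [e0] at h3
    have hfun : (fun s : ℝ => F a (Wv (1 / (n : ℝ)) X
        + s • (Matrix.single u a (1 : ℝ) + Matrix.single a u 1)))
        = fun s : ℝ => Gz (Pn n) (Bm α β σ X + s • Y u a) z a y
          * PsiF p (qf (Pn n) (Bm α β σ X + s • Y u a) z x y) := by
      funext s
      simp only [hF]
      rw [es_single, BW_add]
      rfl
    rw [hfun]
    exact h3
  have hWi : ∀ u a, Integrable
      (fun X => Wv (1 / (n : ℝ)) X u a • F a (Wv (1 / (n : ℝ)) X)) (gm n) := by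
    intro u a
    have h := ((hFi a (u, a)).add (hFi a (a, u))).const_mul ((Real.sqrt (1 / (n : ℝ) / 2) : ℝ) : ℂ)
    refine h.congr (Filter.Eventually.of_forall fun X => ?_)
    simp only [Pi.add_apply, Wv, Matrix.of_apply, Complex.real_smul]
    push_cast
    ring
  have hSI : ∀ u a, Integrable (fun X => (Pn n x u : ℂ) * ((1 / (n : ℝ)) • F' u a X)) (gm n) :=
    fun u a => ((hF'i u a).smul (1 / (n : ℝ))).const_mul _
  -- first step
  have I1 : ∫ X, (toC (Pn n * Wv (1 / (n : ℝ)) X * Pn n) * Gz (Pn n) (Bm α β σ X) z) x y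
          * PsiF p (qf (Pn n) (Bm α β σ X) z x y) ∂(gm n)
      = ∫ X, ∑ u, ∑ a, (Pn n x u : ℂ) * ((1 / (n : ℝ)) • F' u a X) ∂(gm n) := by
    have e1 : ∀ X, (toC (Pn n * Wv (1 / (n : ℝ)) X * Pn n) * Gz (Pn n) (Bm α β σ X) z) x y
          * PsiF p (qf (Pn n) (Bm α β σ X) z x y)
        = ∑ u, ∑ a, (Pn n x u : ℂ) * (Wv (1 / (n : ℝ)) X u a • F a (Wv (1 / (n : ℝ)) X)) := by
      intro X
      rw [expand _ _ _ (gz_q (hPB X) z hz').2, Finset.sum_mul]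
      refine Finset.sum_congr rfl fun u _ => ?_
      rw [Finset.sum_mul]
      refine Finset.sum_congr rfl fun a _ => ?_
      rw [hFX, Complex.real_smul]
      ring
    simp only [e1]
    rw [integral_finsetSum _ fun u _ => integrable_finsetSum _ fun a _ => (hWi u a).const_mul _,
      integral_finsetSum _ fun u _ => integrable_finsetSum _ fun a _ => hSI u a]
    refine Finset.sum_congr rfl fun u _ => ?_
    rw [integral_finsetSum _ fun a _ => (hWi u a).const_mul _,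
      integral_finsetSum _ fun a _ => hSI u a]
    refine Finset.sum_congr rfl fun a _ => ?_
    rw [integral_const_mul, integral_const_mul, hibp u a, integral_smul]
  have hSi : Integrable (fun X => ∑ u, ∑ a, (Pn n x u : ℂ) * ((1 / (n : ℝ)) • F' u a X)) (gm n) :=
    integrable_finsetSum _ fun u _ => integrable_finsetSum _ fun a _ => hSI u a
  have hMi : Integrable (fun X => mz (Pn n) (Bm α β σ X) z * Gz (Pn n) (Bm α β σ X) z x y
          * PsiF p (qf (Pn n) (Bm α β σ X) z x y)) (gm n) := by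
    refine gm_integrable_of_le ((hmc.mul (hGc x y)).mul hΨc).aestronglyMeasurable
      (n * n * (5 * (n : ℝ) ^ 2) ^ (2 * p - 1)) 0 (fun X => ?_)
    rw [pow_zero, mul_one, norm_mul, norm_mul]
    have h1 : ‖mz (Pn n) (Bm α β σ X) z‖ ≤ n := by
      refine (mz_norm_le (hPB X) z hz').trans ?_
      rw [abs_of_pos hz, div_le_iff₀ hz]
      exact hz1
    have h2 := hGn X x y
    have h3 := hΨn X
    gcongr
  rw [I1, ← integral_const_mul, ← integral_add hSi (hMi.const_mul _)]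
  refine norm_integral_le_of_norm_le hint (Filter.Eventually.of_forall fun X => ?_)
  have key : (∑ u, ∑ a, (Pn n x u : ℂ) * ((1 / (n : ℝ)) • F' u a X))
      + (β : ℂ) * (mz (Pn n) (Bm α β σ X) z * Gz (Pn n) (Bm α β σ X) z x y
          * PsiF p (qf (Pn n) (Bm α β σ X) z x y))
      = (1 / (n : ℂ)) * (-(β : ℂ) * (∑ a, Gz (Pn n) (Bm α β σ X) z x a
            * Gz (Pn n) (Bm α β σ X) z a y) * PsiF p (qf (Pn n) (Bm α β σ X) z x y)
        + ∑ u, ∑ a, (Pn n x u : ℂ) * (Gz (Pn n) (Bm α β σ X) z a y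
            * dPsi p (qf (Pn n) (Bm α β σ X) z x y)
            (dqf (Pn n) (Bm α β σ X) (Y u a) z x y))) := by
    have hm := mainT (Pn n) _ (gz_symm (hPB X) z hz') (gz_q (hPB X) z hz').2 x y
    have e1 : ∑ u, ∑ a, (Pn n x u : ℂ) * ((1 / (n : ℝ)) • F' u a X)
        = (1 / (n : ℂ)) * (-(β : ℂ) * PsiF p (qf (Pn n) (Bm α β σ X) z x y) *
            (∑ u, ∑ a, (Pn n x u : ℂ) * (Gz (Pn n) (Bm α β σ X) z a u
              * Gz (Pn n) (Bm α β σ X) z a y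
              + Gz (Pn n) (Bm α β σ X) z a a * Gz (Pn n) (Bm α β σ X) z u y))
          + ∑ u, ∑ a, (Pn n x u : ℂ) * (Gz (Pn n) (Bm α β σ X) z a y
            * dPsi p (qf (Pn n) (Bm α β σ X) z x y)
            (dqf (Pn n) (Bm α β σ X) (Y u a) z x y))) := by
      rw [Finset.mul_sum, ← Finset.sum_add_distrib, Finset.mul_sum]
      refine Finset.sum_congr rfl fun u _ => ?_
      rw [Finset.mul_sum, ← Finset.sum_add_distrib, Finset.mul_sum]
      refine Finset.sum_congr rfl fun a _ => ?_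
      simp only [hF', hdG, Complex.real_smul]
      push_cast
      ring
    rw [e1, hm]
    have e2 : mz (Pn n) (Bm α β σ X) z = (1 / (n : ℂ)) * (Gz (Pn n) (Bm α β σ X) z).trace := rfl
    rw [e2]
    ring
  rw [key]
  rcases hbd X with ⟨hH, hle⟩ | hle
  · have hsym : ∀ a b, Gz (Pn n) (Bm α β σ X) z a b = Gz (Pn n) (Bm α β σ X) z b a := by
      intro a b
      conv_lhs => rw [← hH.sym]
      rfl
    have hs3 : ∀ a b, ‖∑ w, Gz (Pn n) (Bm α β σ X) z a w * Gz (Pn n) (Bm α β σ X) z w b‖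
        ≤ n * τ ^ 2 := by
      intro a b
      refine (norm_sum_le _ _).trans ?_
      calc ∑ w, ‖Gz (Pn n) (Bm α β σ X) z a w * Gz (Pn n) (Bm α β σ X) z w b‖
          ≤ ∑ w, (‖Gz (Pn n) (Bm α β σ X) z w a‖ ^ 2 + ‖Gz (Pn n) (Bm α β σ X) z w b‖ ^ 2) / 2 := by
            refine Finset.sum_le_sum fun w _ => ?_
            rw [norm_mul, hsym a w]
            nlinarith [sq_nonneg (‖Gz (Pn n) (Bm α β σ X) z w a‖
              - ‖Gz (Pn n) (Bm α β σ X) z w b‖)]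
        _ = ((∑ w, ‖Gz (Pn n) (Bm α β σ X) z w a‖ ^ 2)
              + ∑ w, ‖Gz (Pn n) (Bm α β σ X) z w b‖ ^ 2) / 2 := by
            rw [← Finset.sum_div, Finset.sum_add_distrib]
        _ ≤ (n * τ ^ 2 + n * τ ^ 2) / 2 := by
            have h1 := hH.rw a
            have h2 := hH.rw b
            linarith
        _ = n * τ ^ 2 := by ring
    have h := (ptw hn0 (hPB X) β hβ0 hβ1 z hz' hz3 p hp Γ (τ ^ 2) τ (by linarith) hH.en hs3
      (b1 hH) x y).2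
    exact h.trans ((num_good p hp Γ τ κ _ hΓ hτ hτ1 hκ (norm_nonneg _)).trans hle)
  · exact ((hcr X).2).trans ((num_bad n p hn hp _ (norm_nonneg _) (hqn X)).trans hle)

end Pool.Agent.ZR.F

end

section

/-!
# ZR/MMom : moments of `imF` for `B = α H_0 + β P W P`, from part F

PROOF.  Let `ν' = min (ν/(4(p+1))) (1/2)`, `D = 2p(c+2)+...` large.  `FMain ν' D`: off an event of
`PJ`-probability `≤ n^(-D)`: `Im G_xx(y+iu) ≤ n^ν'` for all `u ≥ n^(-1+ν')` and all `x`; hence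
`imF n (vecP B) y u = Im m = (1/n) ∑_x Im G_xx ≤ n^ν'` (`im_mz_Pn`, MSp; `mz = (1/n) trace`).
For `η < u0 := n^(-1+ν')`: `imF_mono_scale` (MProd): `imF(η) ≤ (u0/η) imF(u0) ≤ n^(c+2ν')`
(`η ≥ n^(-1-c)`); for `η ≥ u0`: `≤ n^ν'`.  On the bad event `imF ≤ (n-1)/n/η ≤ n^(1+c)` (`imF_le`).
So `(imF)^p ≤ n^(p(c+2ν')) + n^(p(1+c)) 1_bad`.  The set `{X | imF > n^(c+2ν')}` is measurable
(`vecP_Bm_meas`) and contained in the bad event, so for each `σ ∈ Sn n`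
`∫ (imF)^p ≤ n^(p(c+2ν')) + n^(p(1+c)) (gm n).real {X | bad}`; average over `σ` (`EU_mono` etc.):
`EJ ≤ n^(p(c+2ν')) + n^(p(1+c)-D) ≤ n^(pc+ν)` for large `n`.
-/


open MeasureTheory ProbabilityTheory Matrix

namespace Pool.Agent.ZR

private theorem EU_affine {n : ℕ} (hn : Even n) (a b : ℝ) (g : Pat n → ℝ) :
    EU (fun σ => a + b * g σ) = a + b * EU g := by
  have h := EU_const hn a
  unfold EU at *
  simp only [smul_eq_mul] at *
  rw [Finset.sum_add_distrib, mul_add, h, ← Finset.mul_sum]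
  ring

/-- `Im m ≤ Γ` on the good event -/
private theorem imF_le_of_gam {n : ℕ} (hn : 0 < n) {B : Matrix (Fin n) (Fin n) ℝ}
    (hB : PB (Pn n) B) {y u0 Γ : ℝ} (hg : GamLe (Pn n) B y u0 Γ) {u : ℝ} (hu0 : 0 < u)
    (hu : u0 ≤ u) : imF n (vecP B) y u ≤ Γ := by
  have hn' : (0 : ℝ) < n := by exact_mod_cast hn
  have h1 := im_mz_Pn hn B hB (⟨y, u⟩ : ℂ) hu0
  simp only at h1
  rw [← h1]
  have e1 : mz (Pn n) B (⟨y, u⟩ : ℂ)
      = (((1 / (n : ℝ)) : ℝ) : ℂ) * (Gz (Pn n) B (⟨y, u⟩ : ℂ)).trace := by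
    unfold mz
    push_cast
    rfl
  rw [e1, Complex.im_ofReal_mul]
  have e2 : (Gz (Pn n) B (⟨y, u⟩ : ℂ)).trace.im = ∑ x, (Gz (Pn n) B (⟨y, u⟩ : ℂ) x x).im := by
    rw [Matrix.trace, Complex.im_sum]
    rfl
  rw [e2]
  have h2 : ∑ x, (Gz (Pn n) B (⟨y, u⟩ : ℂ) x x).im ≤ ∑ _x : Fin n, Γ :=
    Finset.sum_le_sum fun x _ => hg u hu x
  rw [Finset.sum_const, Finset.card_univ, Fintype.card_fin, nsmul_eq_mul] at h2
  calc (1 / (n : ℝ)) * ∑ x, (Gz (Pn n) B (⟨y, u⟩ : ℂ) x x).im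
      ≤ (1 / (n : ℝ)) * (n * Γ) := mul_le_mul_of_nonneg_left h2 (by positivity)
    _ = Γ := by field_simp

private theorem imF_y_meas (n N : ℕ) (y : ℝ) {η : ℝ} (hη : 0 < η) :
    Measurable (fun v : Fin N → ℝ => imF n v y η) := by
  have h0 : Continuous (fun v : Fin N → ℝ => imF n v y η) := by
    unfold imF
    refine continuous_const.mul (continuous_finsetSum _ fun i _ => ?_)
    refine continuous_const.div ?_ (fun p => by positivity)
    exact (((continuous_apply i).sub continuous_const).pow 2).add continuous_const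
  exact h0.measurable

private theorem imF_vecP_meas {n : ℕ} (hn : 0 < n) (α β : ℝ) {σ : Pat n} (hσ : σ ∈ Sn n) (y : ℝ)
    {η : ℝ} (hη : 0 < η) : Measurable (fun X : Arr n => imF n (vecP (Bm α β σ X)) y η) := by
  have h2 : Measurable (fun X : Arr n => vecP (Bm α β σ X)) := vecP_Bm_meas hn α β hσ
  have h1 : Measurable (fun v : Fin (n - 1) → ℝ => imF n v y η) := imF_y_meas n (n - 1) y hη
  have h3 := Measurable.comp h1 h2
  exact h3

private theorem imF_vecP_le {n : ℕ} (hn : 0 < n) (x : Fin (n - 1) → ℝ) (y : ℝ) {η : ℝ}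
    (hη : 0 < η) : imF n x y η ≤ 1 / η := by
  have hn' : (0 : ℝ) < n := by exact_mod_cast hn
  refine (imF_le n x y hη).trans ?_
  have h1 : ((n - 1 : ℕ) : ℝ) / n ≤ 1 := by
    rw [div_le_one hn']
    exact_mod_cast Nat.sub_le n 1
  exact div_le_div_of_nonneg_right h1 hη.le

theorem mom_B (hF : FMain) (p : ℕ) (c ν : ℝ) (hc : 0 ≤ c) (hν : 0 < ν) :
    ∃ n0 : ℕ, ∀ n : ℕ, n0 ≤ n → Even n → ∀ α β : ℝ, 0 ≤ α → 0 ≤ β → α ^ 2 + β ^ 2 = 1 →
      ∀ y η : ℝ, |y| ≤ 2 → (n : ℝ) ^ (-1 - c) ≤ η → η ≤ 1 →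
        EJ (n := n) (fun σ X => (imF n (vecP (Bm α β σ X)) y η) ^ p) ≤ (n : ℝ) ^ (p * c + ν) := by
  have hp1 : (0 : ℝ) < 4 * ((p : ℝ) + 1) := by positivity
  set ν' : ℝ := ν / (4 * ((p : ℝ) + 1)) with hν'
  have hν'0 : 0 < ν' := by positivity
  set D : ℝ := p * (1 + c) + 1 with hD
  have hD0 : 0 < D := by positivity
  obtain ⟨n1, hn1⟩ := hF ν' D hν'0 hD0
  refine ⟨max n1 (max 1 (⌈(2 : ℝ) ^ (2 / ν)⌉₊)), ?_⟩
  intro n hn he α β hα hβ hαβ y η hy hη hη1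
  have hnn1 : n1 ≤ n := le_trans (le_max_left _ _) hn
  have hn2 : 1 ≤ n := le_trans (le_trans (le_max_left _ _) (le_max_right _ _)) hn
  have hn3 : ⌈(2 : ℝ) ^ (2 / ν)⌉₊ ≤ n := le_trans (le_trans (le_max_right _ _) (le_max_right _ _)) hn
  have hnpos : 0 < n := hn2
  have hn' : (0 : ℝ) < n := by exact_mod_cast hnpos
  have hn1' : (1 : ℝ) ≤ n := by exact_mod_cast hn2
  have hn3' : (2 : ℝ) ^ (2 / ν) ≤ n := (Nat.le_ceil _).trans (by exact_mod_cast hn3)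
  have hbig : (2 : ℝ) ≤ (n : ℝ) ^ (ν / 2) := by
    have h1 : ((2 : ℝ) ^ (2 / ν)) ^ (ν / 2) ≤ (n : ℝ) ^ (ν / 2) :=
      Real.rpow_le_rpow (by positivity) hn3' (by positivity)
    rw [← Real.rpow_mul (by norm_num)] at h1
    have h2 : 2 / ν * (ν / 2) = 1 := by field_simp
    rw [h2, Real.rpow_one] at h1
    exact h1
  have hηpos : 0 < η := lt_of_lt_of_le (Real.rpow_pos_of_pos hn' _) hη
  have hbad := hn1 n hnn1 he α β hα hβ hαβ y hy
  -- the deterministic bound on the good event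
  set M : ℝ := (n : ℝ) ^ (c + 2 * ν') with hM
  have hM0 : 0 < M := Real.rpow_pos_of_pos hn' _
  have hgood : ∀ σ ∈ Sn n, ∀ X : Arr n,
      GamLe (Pn n) (Bm α β σ X) y ((n : ℝ) ^ (-1 + ν')) ((n : ℝ) ^ ν') →
      imF n (vecP (Bm α β σ X)) y η ≤ M := by
    intro σ hσ X hg
    have hPB := pb_Bm α β σ hσ X
    rcases le_total ((n : ℝ) ^ (-1 + ν')) η with hcase | hcase
    · refine (imF_le_of_gam hnpos hPB hg hηpos hcase).trans ?_
      rw [hM]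
      exact Real.rpow_le_rpow_of_exponent_le hn1' (by linarith)
    · have hu0 : 0 < (n : ℝ) ^ (-1 + ν') := Real.rpow_pos_of_pos hn' _
      have h1 := imF_mono_scale n (vecP (Bm α β σ X)) y hηpos hcase
      have h2 := imF_le_of_gam hnpos hPB hg hu0 le_rfl
      have h3 : (n : ℝ) ^ (-1 + ν') / η ≤ (n : ℝ) ^ (-1 + ν') / (n : ℝ) ^ (-1 - c) :=
        div_le_div_of_nonneg_left hu0.le (Real.rpow_pos_of_pos hn' _) hη
      have h4 : (n : ℝ) ^ (-1 + ν') / (n : ℝ) ^ (-1 - c) = (n : ℝ) ^ (c + ν') := by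
        rw [← Real.rpow_sub hn']
        congr 1; ring
      refine h1.trans ?_
      calc (n : ℝ) ^ (-1 + ν') / η * imF n (vecP (Bm α β σ X)) y ((n : ℝ) ^ (-1 + ν'))
          ≤ (n : ℝ) ^ (c + ν') * (n : ℝ) ^ ν' := by
            rw [h4] at h3
            exact mul_le_mul h3 h2 (imF_nonneg n _ _ hu0.le) (Real.rpow_nonneg hn'.le _)
        _ = M := by
            rw [hM, ← Real.rpow_add hn']
            congr 1; ring
  have hall : ∀ σ : Pat n, ∀ X : Arr n, imF n (vecP (Bm α β σ X)) y η ≤ (n : ℝ) ^ (1 + c) := by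
    intro σ X
    refine (imF_vecP_le hnpos _ y hηpos).trans ?_
    have h1 : 1 / η ≤ 1 / (n : ℝ) ^ (-1 - c) :=
      one_div_le_one_div_of_le (Real.rpow_pos_of_pos hn' _) hη
    refine h1.trans (le_of_eq ?_)
    rw [one_div, ← Real.rpow_neg hn'.le]
    congr 1; ring
  -- the estimate for a fixed pattern
  have hσb : ∀ σ ∈ Sn n, ∫ X, (imF n (vecP (Bm α β σ X)) y η) ^ p ∂(gm n)
      ≤ M ^ p + ((n : ℝ) ^ (1 + c)) ^ p * (gm n).real {X | ¬ GamLe (Pn n) (Bm α β σ X) y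
          ((n : ℝ) ^ (-1 + ν')) ((n : ℝ) ^ ν')} := by
    intro σ hσ
    set S : Set (Arr n) := {X | M < imF n (vecP (Bm α β σ X)) y η} with hS
    have hSm : MeasurableSet S := measurableSet_lt measurable_const (imF_vecP_meas hnpos α β hσ y hηpos)
    have hSsub : S ⊆ {X | ¬ GamLe (Pn n) (Bm α β σ X) y
          ((n : ℝ) ^ (-1 + ν')) ((n : ℝ) ^ ν')} := by
      intro X hX hg
      have := hgood σ hσ X hg
      have hX' : M < imF n (vecP (Bm α β σ X)) y η := hX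
      linarith
    have hb : ∀ X, (imF n (vecP (Bm α β σ X)) y η) ^ p
        ≤ M ^ p + ((n : ℝ) ^ (1 + c)) ^ p * S.indicator (fun _ => (1 : ℝ)) X := by
      intro X
      have hnn := imF_nonneg n (vecP (Bm α β σ X)) y hηpos.le
      by_cases hX : X ∈ S
      · rw [Set.indicator_of_mem hX, mul_one]
        have h1 := pow_le_pow_left₀ hnn (hall σ X) p
        have h2 : 0 ≤ M ^ p := by positivity
        linarith
      · rw [Set.indicator_of_notMem hX, mul_zero, add_zero]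
        have h0 : imF n (vecP (Bm α β σ X)) y η ≤ M := by
          by_contra hcon
          exact hX (not_le.mp hcon)
        exact pow_le_pow_left₀ hnn h0 p
    have hint : Integrable (fun X => M ^ p + ((n : ℝ) ^ (1 + c)) ^ p *
        S.indicator (fun _ => (1 : ℝ)) X) (gm n) := by
      refine (integrable_const _).add ?_
      exact ((integrable_const (1 : ℝ)).indicator hSm).const_mul _
    have h1 : ∫ X, (imF n (vecP (Bm α β σ X)) y η) ^ p ∂(gm n)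
        ≤ ∫ X, (M ^ p + ((n : ℝ) ^ (1 + c)) ^ p * S.indicator (fun _ => (1 : ℝ)) X) ∂(gm n) := by
      refine integral_mono_of_nonneg (Filter.Eventually.of_forall fun X => ?_) hint
        (Filter.Eventually.of_forall hb)
      exact pow_nonneg (imF_nonneg n _ y hηpos.le) p
    have h2 : ∫ X, (M ^ p + ((n : ℝ) ^ (1 + c)) ^ p * S.indicator (fun _ => (1 : ℝ)) X) ∂(gm n)
        = M ^ p + ((n : ℝ) ^ (1 + c)) ^ p * (gm n).real S := by
      rw [integral_add (integrable_const _)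
        (((integrable_const (1 : ℝ)).indicator hSm).const_mul _), integral_const_mul]
      rw [integral_indicator hSm, setIntegral_const, smul_eq_mul, mul_one, integral_const]
      simp
    refine h1.trans (h2.le.trans ?_)
    have h3 : (gm n).real S ≤ (gm n).real {X | ¬ GamLe (Pn n) (Bm α β σ X) y
          ((n : ℝ) ^ (-1 + ν')) ((n : ℝ) ^ ν')} := measureReal_mono hSsub
    have h4 : 0 ≤ ((n : ℝ) ^ (1 + c)) ^ p := by positivity
    nlinarith [mul_le_mul_of_nonneg_left h3 h4]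
  have hEJ : EJ (n := n) (fun σ X => (imF n (vecP (Bm α β σ X)) y η) ^ p)
      ≤ M ^ p + ((n : ℝ) ^ (1 + c)) ^ p * (n : ℝ) ^ (-D) := by
    unfold EJ
    refine (EU_mono hσb).trans ?_
    rw [EU_affine he]
    have h4 : 0 ≤ ((n : ℝ) ^ (1 + c)) ^ p := by positivity
    have h5 := mul_le_mul_of_nonneg_left hbad h4
    unfold PJ at h5
    linarith
  refine hEJ.trans ?_
  have e1 : M ^ p ≤ (n : ℝ) ^ (p * c + ν / 2) := by
    rw [hM, ← Real.rpow_natCast, ← Real.rpow_mul hn'.le]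
    refine Real.rpow_le_rpow_of_exponent_le hn1' ?_
    have h6 : 2 * (p : ℝ) * ν' ≤ ν / 2 := by
      rw [hν']
      rw [mul_div_assoc']
      rw [div_le_div_iff₀ (by positivity) (by norm_num)]
      nlinarith
    nlinarith
  have e2 : ((n : ℝ) ^ (1 + c)) ^ p * (n : ℝ) ^ (-D) ≤ (n : ℝ) ^ (p * c + ν / 2) := by
    rw [← Real.rpow_natCast, ← Real.rpow_mul hn'.le, ← Real.rpow_add hn']
    refine Real.rpow_le_rpow_of_exponent_le hn1' ?_
    rw [hD]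
    have : 0 ≤ (p : ℝ) * c := by positivity
    nlinarith
  have e3 : (n : ℝ) ^ (p * c + ν) = (n : ℝ) ^ (p * c + ν / 2) * (n : ℝ) ^ (ν / 2) := by
    rw [← Real.rpow_add hn']
    congr 1; ring
  rw [e3]
  have e4 : 0 ≤ (n : ℝ) ^ (p * c + ν / 2) := Real.rpow_nonneg hn'.le _
  nlinarith

/-- local counts of `B` -/
theorem loc_B (hF : FMain) (ν : ℝ) (hν : 0 < ν) :
    ∃ n0 : ℕ, ∀ n : ℕ, n0 ≤ n → Even n → ∀ α β : ℝ, 0 ≤ α → 0 ≤ β → α ^ 2 + β ^ 2 = 1 →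
      ∀ y r : ℝ, |y| ≤ 2 → 1 / (n : ℝ) ≤ r → r ≤ 1 →
        EJ (n := n) (fun σ X => (cntIF (vecP (Bm α β σ X)) y r : ℝ)) ≤ (n : ℝ) ^ ν * (n * r) := by
  classical
  obtain ⟨n1, hn1⟩ := mom_B hF 1 0 (ν / 2) le_rfl (by positivity)
  refine ⟨max n1 (max 1 (⌈(2 : ℝ) ^ (2 / ν)⌉₊)), ?_⟩
  intro n hn he α β hα hβ hαβ y r hy hr hr1
  have hnn1 : n1 ≤ n := le_trans (le_max_left _ _) hn
  have hn2 : 1 ≤ n := le_trans (le_trans (le_max_left _ _) (le_max_right _ _)) hn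
  have hn3 : ⌈(2 : ℝ) ^ (2 / ν)⌉₊ ≤ n := le_trans (le_trans (le_max_right _ _) (le_max_right _ _)) hn
  have hnpos : 0 < n := hn2
  have hn' : (0 : ℝ) < n := by exact_mod_cast hnpos
  have hn3' : (2 : ℝ) ^ (2 / ν) ≤ n := (Nat.le_ceil _).trans (by exact_mod_cast hn3)
  have hbig : (2 : ℝ) ≤ (n : ℝ) ^ (ν / 2) := by
    have h1 : ((2 : ℝ) ^ (2 / ν)) ^ (ν / 2) ≤ (n : ℝ) ^ (ν / 2) :=
      Real.rpow_le_rpow (by positivity) hn3' (by positivity)
    rw [← Real.rpow_mul (by norm_num)] at h1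
    have h2 : 2 / ν * (ν / 2) = 1 := by field_simp
    rw [h2, Real.rpow_one] at h1
    exact h1
  have hrpos : 0 < r := lt_of_lt_of_le (by positivity) hr
  have hη : (n : ℝ) ^ (-1 - (0 : ℝ)) ≤ r := by
    have : (n : ℝ) ^ (-1 - (0 : ℝ)) = 1 / (n : ℝ) := by
      rw [sub_zero, Real.rpow_neg_one, one_div]
    rw [this]; exact hr
  have hm := hn1 n hnn1 he α β hα hβ hαβ y r hy hη hr1
  -- counting is bounded by the smoothed density
  have hcnt : ∀ x : Fin (n - 1) → ℝ, (cntIF x y r : ℝ) ≤ 2 * (n * r) * imF n x y r := by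
    intro x
    unfold cntIF imF
    have h1 : ((Finset.univ.filter fun i => |x i - y| ≤ r).card : ℝ) * (1 / (2 * r))
        ≤ ∑ i, r / ((x i - y) ^ 2 + r ^ 2) := by
      rw [← nsmul_eq_mul, ← Finset.sum_const]
      refine (Finset.sum_le_sum fun i hi => ?_).trans
        (Finset.sum_le_sum_of_subset_of_nonneg (Finset.filter_subset _ _) fun i _ _ => ?_)
      · have hi' : |x i - y| ≤ r := (Finset.mem_filter.mp hi).2
        have h2 : (x i - y) ^ 2 ≤ r ^ 2 := by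
          rw [← sq_abs (x i - y)]
          exact pow_le_pow_left₀ (abs_nonneg _) hi' 2
        rw [div_le_div_iff₀ (by positivity) (by positivity)]
        nlinarith
      · positivity
    have h3 := mul_le_mul_of_nonneg_left h1 (show (0 : ℝ) ≤ 2 * r by positivity)
    have h4 : 2 * r * (((Finset.univ.filter fun i => |x i - y| ≤ r).card : ℝ) * (1 / (2 * r)))
        = ((Finset.univ.filter fun i => |x i - y| ≤ r).card : ℝ) := by
      field_simp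
    rw [h4] at h3
    refine h3.trans (le_of_eq ?_)
    field_simp
  have hE : EJ (n := n) (fun σ X => (cntIF (vecP (Bm α β σ X)) y r : ℝ))
      ≤ 2 * (n * r) * EJ (n := n) (fun σ X => (imF n (vecP (Bm α β σ X)) y r) ^ 1) := by
    have e : 2 * (n * r) * EJ (n := n) (fun σ X => (imF n (vecP (Bm α β σ X)) y r) ^ 1)
        = EU (fun σ : Pat n => 0 + 2 * (n * r) *
          ∫ X, (imF n (vecP (Bm α β σ X)) y r) ^ 1 ∂(gm n)) := by
      rw [EU_affine he, zero_add]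
      rfl
    rw [e]
    unfold EJ
    refine EU_mono fun σ hσ => ?_
    rw [zero_add, ← integral_const_mul]
    have hmeas := imF_vecP_meas hnpos α β hσ y hrpos
    refine integral_mono_of_nonneg (Filter.Eventually.of_forall fun X => Nat.cast_nonneg _) ?_
      (Filter.Eventually.of_forall fun X => ?_)
    · refine Integrable.const_mul ?_ _
      refine Integrable.of_bound (hmeas.pow_const 1).aestronglyMeasurable (1 / r)
        (Filter.Eventually.of_forall fun X => ?_)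
      rw [pow_one, Real.norm_of_nonneg (imF_nonneg n _ y hrpos.le)]
      exact imF_vecP_le hnpos _ y hrpos
    · simp only [pow_one]
      exact hcnt _
  refine hE.trans ?_
  have e0 : ((1 : ℕ) : ℝ) * 0 + ν / 2 = ν / 2 := by simp
  rw [e0] at hm
  have h5 : 0 ≤ 2 * ((n : ℝ) * r) := by positivity
  refine (mul_le_mul_of_nonneg_left hm h5).trans ?_
  have e3 : (n : ℝ) ^ ν = (n : ℝ) ^ (ν / 2) * (n : ℝ) ^ (ν / 2) := by
    rw [← Real.rpow_add hn']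
    congr 1; ring
  rw [e3]
  have h6 : 0 ≤ (n : ℝ) ^ (ν / 2) := Real.rpow_nonneg hn'.le _
  have h7 : 0 ≤ (n : ℝ) * r := by positivity
  nlinarith [mul_le_mul_of_nonneg_right hbig (mul_nonneg h6 h7)]

end Pool.Agent.ZR

end

section

/-!
# ZR/MChain : from `At_{n-1}(λ(H_0))` to `At_n(a#)` on the good event, for fixed `(σ, Y)`

PROOF.  Let `a = snocV (vecP (H0 σ)) 2`, `a' = asharp n E κ c0 θ σ Y`, `c1 = min (c0/2) (1/4)` (so that
`|2| ≤ 1/c1`, `|y_j| ≤ 2 ≤ 1/c1`).  `z_j = y_j + i η_j`.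
(1) `J2` with `(k, δ, c, ν', c1)` and `b = 2`: `|y_j - 2| ≥ 2 - |E| - c0/2 ≥ c0/2 ≥ c1`.  By `im_tr_one`
(MSp) its integrands are the `imF n (vecS (At ..)) (y_j) (η_j)` (`z_j.re = y_j`, `z_j.im = η_j`,
`n^(-1-c) ≤ η_j ≤ 1/n ≤ 1`).  With `e2 = n^(2c+ν'-δ/2) ≤ 1`: moments of `At(a)` at most
`(Mo+e2+1)^(2k) ≤ (Mo+2)^(2k)` and the difference of the products is
`≤ e2 (Mo+2)^k + n^(-5)`.
(2) `J3` with `Mo' = Mo + 2`: the hypotheses on the coordinates are `reloc_geom` (MEns):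
if `a i ≠ a' i` both are `≥ E + c0 ≥ y_j + c1` or both `≤ E - c0 ≤ y_j - c1` (`|y_j - E| ≤ c0/2`);
sizes `≤ 2 n^θ ≤ n^(δ/4)` since `θ < δ/4`, `n` large.  `e3 = n^(2c+ν'-δ/2) ∑|a_i - a'_i|
≤ n^(2c+ν'+θ-δ/2) ≤ 1` (`reloc_sum`).  Moments of `At(a')` at most `(Mo'+e3+1)^(2k) ≤ (Mo+4)^(2k)`,
difference `≤ e3 (Mo+4)^k + n^(-5)`.
Total: `≤ 2 n^(2c+ν'+θ-δ/2)(Mo+4)^k + 2 n^(-5) ≤ n^(2c+ν+θ-δ/2) (Mo+4)^k` with `ν' = ν/2`, `n` large.
(If `J2`/`J3` in `IfJ.lean` get an additional hypothesis such as `c < δ/2` it holds here.)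
-/


open MeasureTheory ProbabilityTheory Matrix

namespace Pool.Agent.ZR

theorem chain_sig (h2 : J2) (h3 : J3) (k : ℕ) (E δ c ν κ c0 θ : ℝ) (hδ : 0 < δ) (hδ1 : δ < 1)
    (hc : 0 ≤ c) (hν : 0 < ν) (hc0 : 0 < c0) (hE : |E| + c0 ≤ 2) (hκ : 0 < κ) (hκ2 : κ ≤ 1 / 2)
    (hθ : 0 < θ) (hθ4 : θ < δ / 4) (hexp : 2 * c + ν + θ < δ / 2) :
    ∃ n0 : ℕ, ∀ n : ℕ, n0 ≤ n → Even n → ∀ σ ∈ Sn n, ∀ Y : Arr n, goodE n E κ c0 θ σ Y →
      ∀ y η : Fin k → ℝ, (∀ j, |y j - E| ≤ c0 / 2) →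
        (∀ j, (n : ℝ) ^ (-1 - c) ≤ η j ∧ η j ≤ 1 / (n : ℝ)) →
        ∀ Mo : ℝ, 1 ≤ Mo →
          (∀ j, ∫ X, (imF n (vecS (At (1 / (n : ℝ)) ((n : ℝ) ^ (-δ)) (vecP (H0 σ)) X))
            (y j) (η j)) ^ (2 * k) ∂(gm (n - 1)) ≤ Mo ^ (2 * k)) →
          (∀ j, ∫ X, (imF n (vecS (At (1 / (n : ℝ)) ((n : ℝ) ^ (-δ))
            (asharp n E κ c0 θ σ Y) X)) (y j) (η j)) ^ (2 * k) ∂(gm n) ≤ (Mo + 4) ^ (2 * k)) ∧
          |(∫ X, ∏ j, imF n (vecS (At (1 / (n : ℝ)) ((n : ℝ) ^ (-δ))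
              (asharp n E κ c0 θ σ Y) X)) (y j) (η j) ∂(gm n))
            - ∫ X, ∏ j, imF n (vecS (At (1 / (n : ℝ)) ((n : ℝ) ^ (-δ)) (vecP (H0 σ)) X))
              (y j) (η j) ∂(gm (n - 1))|
            ≤ (n : ℝ) ^ (2 * c + ν + θ - δ / 2) * (Mo + 4) ^ k := by
  classical
  have hc1 : c < 1 := by linarith
  have hcδ : c < δ / 2 := by linarith
  set c1 : ℝ := min (c0 / 2) (1 / 4) with hc1d
  have hc1pos : 0 < c1 := lt_min (by linarith) (by norm_num)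
  have hc1a : c1 ≤ c0 / 2 := min_le_left _ _
  have hc1b : c1 ≤ 1 / 4 := min_le_right _ _
  have hinv : 4 ≤ 1 / c1 := by
    rw [le_div_iff₀ hc1pos]; linarith
  obtain ⟨N2, hN2⟩ := h2 k δ c (ν / 2) c1 hδ hδ1 hc hc1 (by linarith) hc1pos
  obtain ⟨N3, hN3⟩ := h3 k δ c (ν / 2) c1 hδ hδ1 hc hcδ (by linarith) hc1pos
  have hev : ∀ (a b : ℝ), 0 < a → ∀ᶠ n : ℕ in Filter.atTop, b ≤ (n : ℝ) ^ a := by
    intro a b ha
    exact ((tendsto_rpow_atTop ha).comp tendsto_natCast_atTop_atTop).eventually_ge_atTop b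
  have hevκ : ∀ᶠ n : ℕ in Filter.atTop, 1 ≤ κ * (n : ℝ) := by
    have : Filter.Tendsto (fun n : ℕ => κ * (n : ℝ)) Filter.atTop Filter.atTop :=
      tendsto_natCast_atTop_atTop.const_mul_atTop hκ
    exact this.eventually_ge_atTop 1
  obtain ⟨N4, hN4⟩ := Filter.eventually_atTop.1
    ((hev θ 2 hθ).and ((hev (δ / 4 - θ) 2 (by linarith)).and ((hev (ν / 2) 4 (by linarith)).and
      hevκ)))
  refine ⟨max 1 (max N2 (max N3 N4)), fun n hn _ σ hσ Y hgood y η hy hη Mo hMo hmom => ?_⟩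
  have hn1 : 1 ≤ n := (le_max_left _ _).trans hn
  have hnN2 : N2 ≤ n := (le_max_left _ _).trans ((le_max_right _ _).trans hn)
  have hnN3 : N3 ≤ n :=
    (le_max_left _ _).trans ((le_max_right _ _).trans ((le_max_right _ _).trans hn))
  have hnN4 : N4 ≤ n :=
    (le_max_right _ _).trans ((le_max_right _ _).trans ((le_max_right _ _).trans hn))
  obtain ⟨g1, g2, g3, g4⟩ := hN4 n hnN4
  have hn1' : (1 : ℝ) ≤ n := by exact_mod_cast hn1
  have hn0 : (0 : ℝ) < n := by linarith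
  set z : Fin k → ℂ := fun j => ⟨y j, η j⟩ with hz
  have hzre : ∀ j, (z j).re = y j := fun j => rfl
  have hzim : ∀ j, (z j).im = η j := fun j => rfl
  have hηpos : ∀ j, 0 < η j := fun j => lt_of_lt_of_le (Real.rpow_pos_of_pos hn0 _) (hη j).1
  have hη1 : ∀ j, η j ≤ 1 := fun j => (hη j).2.trans (by
    rw [div_le_one hn0]; exact hn1')
  have hyabs : ∀ j, |y j| ≤ 2 - c0 / 2 := by
    intro j
    have h := hy j
    have h' : |y j| ≤ |y j - E| + |E| := by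
      have := abs_add_le (y j - E) E
      rwa [sub_add_cancel] at this
    linarith
  have hre : ∀ j, |(z j).re| ≤ 1 / c1 := fun j => by
    rw [hzre]; have := hyabs j; linarith
  have htr : ∀ {N : ℕ} (a : Fin N → ℝ) (X : Fin N × Fin N → ℝ) (j : Fin k),
      (1 / (n : ℝ)) * ((Gz 1 (At (1 / (n : ℝ)) ((n : ℝ) ^ (-δ)) a X) (z j)).trace).im
        = imF n (vecS (At (1 / (n : ℝ)) ((n : ℝ) ^ (-δ)) a X)) (y j) (η j) := by
    intro N a X j
    exact im_tr_one n _ (At_symm _ _ _ _) (z j) (by rw [hzim]; exact hηpos j)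
  -- step 1: bordering
  obtain ⟨A1, A2⟩ := hN2 n hnN2 (vecP (H0 σ)) 2 z Mo hMo
    (by rw [abs_of_pos (by norm_num : (0 : ℝ) < 2)]; linarith)
    (fun j => ⟨(hη j).1, hη1 j, hre j, by
      rw [hzre]
      have h1 := hyabs j
      have h2 : y j ≤ |y j| := le_abs_self _
      rw [abs_sub_comm]
      have h3 : 2 - y j ≤ |2 - y j| := le_abs_self _
      linarith⟩)
    (fun j => by
      simp_rw [htr]
      exact hmom j)
  simp_rw [htr] at A1 A2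
  set e2 : ℝ := (n : ℝ) ^ (2 * c + ν / 2 - δ / 2) with he2
  have he2pos : 0 < e2 := Real.rpow_pos_of_pos hn0 _
  have he2le : e2 ≤ 1 := Real.rpow_le_one_of_one_le_of_nonpos hn1' (by linarith)
  -- step 2: relocation
  have hgeom := fun i => reloc_geom (n := n) g4 hκ2 (by
    have := le_abs_self E; linarith) g1 hσ hgood i
  have hsize : (2 : ℝ) * (n : ℝ) ^ θ ≤ (n : ℝ) ^ (δ / 4) := by
    have e : (n : ℝ) ^ (δ / 4) = (n : ℝ) ^ (δ / 4 - θ) * (n : ℝ) ^ θ := by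
      rw [← Real.rpow_add hn0]; congr 1; ring
    rw [e]
    exact mul_le_mul_of_nonneg_right g2 (Real.rpow_nonneg hn0.le _)
  obtain ⟨B1, B2⟩ := hN3 n hnN3 (snocV (vecP (H0 σ)) 2) (asharp n E κ c0 θ σ Y) z (Mo + 2)
    (by linarith)
    (fun i => ⟨(hgeom i).2.1.trans hsize, (hgeom i).2.2.trans hsize⟩)
    (fun j => ⟨(hη j).1, hη1 j, hre j, fun i => by
      rw [hzre]
      have h1 := abs_le.1 (hy j)
      rcases (hgeom i).1 with h | ⟨h, h'⟩ | ⟨h, h'⟩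
      · exact Or.inl h
      · exact Or.inr (Or.inl ⟨by linarith, by linarith⟩)
      · exact Or.inr (Or.inr ⟨by linarith, by linarith⟩)⟩)
    (fun j => by
      simp_rw [htr]
      refine (A1 j).trans ?_
      apply pow_le_pow_left₀ (by linarith)
      linarith)
  simp_rw [htr] at B1 B2
  set e3 : ℝ := (n : ℝ) ^ (2 * c + ν / 2 - δ / 2) *
    ∑ i, |snocV (vecP (H0 σ)) 2 i - asharp n E κ c0 θ σ Y i| with he3
  have he3nn : 0 ≤ e3 := mul_nonneg he2pos.le (Finset.sum_nonneg fun i _ => abs_nonneg _)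
  have he3le' : e3 ≤ (n : ℝ) ^ (2 * c + ν / 2 + θ - δ / 2) := by
    have e : (n : ℝ) ^ (2 * c + ν / 2 + θ - δ / 2)
        = (n : ℝ) ^ (2 * c + ν / 2 - δ / 2) * (n : ℝ) ^ θ := by
      rw [← Real.rpow_add hn0]; congr 1; ring
    rw [e]
    exact mul_le_mul_of_nonneg_left (reloc_sum (by omega) hgood) he2pos.le
  have he3le : e3 ≤ 1 := he3le'.trans
    (Real.rpow_le_one_of_one_le_of_nonpos hn1' (by linarith))
  have hMo0 : 0 ≤ Mo := by linarith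
  refine ⟨fun j => (B1 j).trans ?_, ?_⟩
  · apply pow_le_pow_left₀ (by linarith)
    linarith
  · have hP : (1 : ℝ) ≤ (Mo + 4) ^ k := one_le_pow₀ (by linarith)
    have hA2 : e2 * (Mo + e2 + 1) ^ k ≤ (n : ℝ) ^ (2 * c + ν / 2 + θ - δ / 2) * (Mo + 4) ^ k := by
      have h1 : e2 ≤ (n : ℝ) ^ (2 * c + ν / 2 + θ - δ / 2) :=
        Real.rpow_le_rpow_of_exponent_le hn1' (by linarith)
      have h2 : (Mo + e2 + 1) ^ k ≤ (Mo + 4) ^ k := by
        apply pow_le_pow_left₀ (by linarith)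
        linarith
      exact mul_le_mul h1 h2 (pow_nonneg (by linarith) _) (Real.rpow_nonneg hn0.le _)
    have hB2 : e3 * (Mo + 2 + e3 + 1) ^ k
        ≤ (n : ℝ) ^ (2 * c + ν / 2 + θ - δ / 2) * (Mo + 4) ^ k := by
      have h2 : (Mo + 2 + e3 + 1) ^ k ≤ (Mo + 4) ^ k := by
        apply pow_le_pow_left₀ (by linarith)
        linarith
      exact mul_le_mul he3le' h2 (pow_nonneg (by linarith) _) (Real.rpow_nonneg hn0.le _)
    have h5 : (n : ℝ) ^ (-(5 : ℝ)) ≤ (n : ℝ) ^ (2 * c + ν / 2 + θ - δ / 2) * (Mo + 4) ^ k := by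
      have h1 : (n : ℝ) ^ (-(5 : ℝ)) ≤ (n : ℝ) ^ (2 * c + ν / 2 + θ - δ / 2) :=
        Real.rpow_le_rpow_of_exponent_le hn1' (by linarith)
      calc (n : ℝ) ^ (-(5 : ℝ)) ≤ (n : ℝ) ^ (2 * c + ν / 2 + θ - δ / 2) * 1 := by
            rw [mul_one]; exact h1
        _ ≤ _ := mul_le_mul_of_nonneg_left hP (Real.rpow_nonneg hn0.le _)
    have hfin : 4 * ((n : ℝ) ^ (2 * c + ν / 2 + θ - δ / 2) * (Mo + 4) ^ k)
        ≤ (n : ℝ) ^ (2 * c + ν + θ - δ / 2) * (Mo + 4) ^ k := by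
      have e : (n : ℝ) ^ (2 * c + ν + θ - δ / 2)
          = (n : ℝ) ^ (ν / 2) * (n : ℝ) ^ (2 * c + ν / 2 + θ - δ / 2) := by
        rw [← Real.rpow_add hn0]; congr 1; ring
      rw [e, mul_assoc]
      exact mul_le_mul_of_nonneg_right g3
        (mul_nonneg (Real.rpow_nonneg hn0.le _) (by linarith))
    have htri := abs_sub_le
      (∫ X, ∏ j, imF n (vecS (At (1 / (n : ℝ)) ((n : ℝ) ^ (-δ))
        (asharp n E κ c0 θ σ Y) X)) (y j) (η j) ∂(gm n))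
      (∫ X, ∏ j, imF n (vecS (At (1 / (n : ℝ)) ((n : ℝ) ^ (-δ))
        (snocV (vecP (H0 σ)) 2) X)) (y j) (η j) ∂(gm n))
      (∫ X, ∏ j, imF n (vecS (At (1 / (n : ℝ)) ((n : ℝ) ^ (-δ)) (vecP (H0 σ)) X))
        (y j) (η j) ∂(gm (n - 1)))
    linarith

end Pool.Agent.ZR

end
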