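import Pool.Agent.ZRM.P10

/-!
# Merged form of the modules ZR.E3
-/

set_option autoImplicit false

section

/-!
# ZR part E3 : high moments of `P = 1 + z m + m²` (targets `EMain`, `EMainG`)

`loop_eq` with `Φ = P^q conj(P)^(q+1)`; then `∫ |P|^(2q+2) ≤ ∫ (c |P|^(2q+1) + |m| ε |P|^(2q+1)
+ 2(2q+1) ε² |z+2m||m| |P|^(2q))`, `ε = 1/(nη)`, `c = 1 - tr Q/n`, and
`|m|² ≤ 18 + 2|P|`, `|z+2m||m| ≤ 19 + 3|P|`.
-/


open MeasureTheory ProbabilityTheory Matrix Filter Topology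

namespace Pool.Agent.ZR.E

/-! ### scalar inequalities -/

theorem e3_m {z m P : ℂ} (hz : 0 < z.im) (hr : |z.re| ≤ 2 + z.im)
    (hP : P = 1 + z * m + m ^ 2) (hm : ‖m‖ ≤ 1 / z.im) : ‖m‖ ^ 2 ≤ 18 + 2 * ‖P‖ := by
  have hP0 := norm_nonneg P
  have hm0 := norm_nonneg m
  by_cases h1 : 1 ≤ z.im
  · have : 1 / z.im ≤ 1 := by
      rw [div_le_one hz]; exact h1
    nlinarith
  · push Not at h1
    have hzn : ‖z‖ ≤ 4 := by
      have := Complex.norm_le_abs_re_add_abs_im z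
      rw [abs_of_pos hz] at this
      linarith
    have h2 : m ^ 2 = P - 1 - z * m := by rw [hP]; ring
    have h3 : ‖m‖ ^ 2 ≤ ‖P‖ + 1 + 4 * ‖m‖ := by
      calc ‖m‖ ^ 2 = ‖m ^ 2‖ := (norm_pow _ _).symm
        _ = ‖P - 1 - z * m‖ := by rw [h2]
        _ ≤ ‖P - 1‖ + ‖z * m‖ := norm_sub_le _ _
        _ ≤ (‖P‖ + 1) + 4 * ‖m‖ := by
            refine add_le_add ?_ ?_
            · have := norm_sub_le P 1
              simpa using this
            · rw [norm_mul]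
              exact mul_le_mul_of_nonneg_right hzn hm0
        _ = _ := by ring
    nlinarith [sq_nonneg (‖m‖ - 4)]

theorem e3_zm {z m P : ℂ} (hz : 0 < z.im) (hr : |z.re| ≤ 2 + z.im)
    (hP : P = 1 + z * m + m ^ 2) (hm : ‖m‖ ≤ 1 / z.im) :
    ‖z + 2 * m‖ * ‖m‖ ≤ 19 + 3 * ‖P‖ := by
  have h1 := e3_m hz hr hP hm
  have h2 : (z + 2 * m) * m = (P - 1) + m ^ 2 := by rw [hP]; ring
  calc ‖z + 2 * m‖ * ‖m‖ = ‖(P - 1) + m ^ 2‖ := by rw [← norm_mul, h2]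
    _ ≤ ‖P - 1‖ + ‖m ^ 2‖ := norm_add_le _ _
    _ ≤ (‖P‖ + 1) + ‖m‖ ^ 2 := by
        refine add_le_add ?_ (norm_pow _ _).le
        have := norm_sub_le P 1
        simpa using this
    _ ≤ _ := by linarith

theorem e3_pt (q : ℕ) {c ε x a w : ℝ} (hc : 0 ≤ c) (hε : 0 ≤ ε) (hε1 : ε ≤ 1)
    (hx : 0 ≤ x) (ha : 0 ≤ a) (h1 : a ^ 2 ≤ 18 + 2 * x) (h2 : w ≤ 19 + 3 * x) :
    c * x ^ (2 * q + 1) + ε * a * x ^ (2 * q + 1)
        + 2 * (2 * (q : ℝ) + 1) * ε ^ 2 * w * x ^ (2 * q)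
      ≤ (1 / 2) * x ^ (2 * (q + 1))
        + 2 * (8 * (19 + 38 * (2 * (q : ℝ) + 1))) ^ (2 * (q + 1)) * (c + ε) ^ (2 * (q + 1)) := by
  set κ := c + ε with hκ
  set L : ℝ := 19 + 38 * (2 * (q : ℝ) + 1) with hL
  have hq : (0 : ℝ) ≤ q := Nat.cast_nonneg q
  have hL1 : 1 ≤ L := by rw [hL]; nlinarith
  have hκ0 : 0 ≤ κ := add_nonneg hc hε
  have h3 : ε * a ≤ 19 * ε + x / 8 := by
    by_cases ha1 : a ≤ 19
    · nlinarith
    · push Not at ha1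
      have h4 : ε * a ≤ a := by nlinarith
      have : a ≤ x / 8 := by nlinarith
      linarith
  have hxq : 0 ≤ x ^ (2 * q) := pow_nonneg hx _
  have hxq1 : 0 ≤ x ^ (2 * q + 1) := pow_nonneg hx _
  have e1 : x ^ (2 * (q + 1)) = x * x * x ^ (2 * q) := by ring
  have e2 : x ^ (2 * q + 1) = x * x ^ (2 * q) := by ring
  have hmain : c * x ^ (2 * q + 1) + ε * a * x ^ (2 * q + 1)
        + 2 * (2 * (q : ℝ) + 1) * ε ^ 2 * w * x ^ (2 * q)
      ≤ x ^ (2 * (q + 1)) / 8 + L * κ * x ^ (2 * q + 1) + L * κ ^ 2 * x ^ (2 * q) := by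
    have hε2 : ε ^ 2 ≤ ε := by nlinarith
    have hεκ : ε ≤ κ := by linarith
    have hε2κ : ε ^ 2 ≤ κ ^ 2 := by nlinarith
    have hcoef : c * x + ε * a * x + 2 * (2 * (q : ℝ) + 1) * ε ^ 2 * w
        ≤ x * x / 8 + L * κ * x + L * κ ^ 2 := by
      have t1 : ε * a * x ≤ (19 * ε + x / 8) * x := mul_le_mul_of_nonneg_right h3 hx
      have t2 : 2 * (2 * (q : ℝ) + 1) * ε ^ 2 * w
          ≤ 2 * (2 * (q : ℝ) + 1) * ε ^ 2 * (19 + 3 * x) :=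
        mul_le_mul_of_nonneg_left h2 (by positivity)
      have t3 : 2 * (2 * (q : ℝ) + 1) * ε ^ 2 * (19 + 3 * x)
          = 38 * (2 * (q : ℝ) + 1) * ε ^ 2 + 6 * (2 * (q : ℝ) + 1) * (ε ^ 2 * x) := by ring
      have t4 : ε ^ 2 * x ≤ κ * x := mul_le_mul_of_nonneg_right (hε2.trans hεκ) hx
      have t5 : 38 * (2 * (q : ℝ) + 1) * ε ^ 2 ≤ 38 * (2 * (q : ℝ) + 1) * κ ^ 2 :=
        mul_le_mul_of_nonneg_left hε2κ (by positivity)
      have t6 : 6 * (2 * (q : ℝ) + 1) * (ε ^ 2 * x) ≤ 6 * (2 * (q : ℝ) + 1) * (κ * x) :=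
        mul_le_mul_of_nonneg_left t4 (by positivity)
      have t7 : c * x + 19 * ε * x ≤ 19 * (κ * x) := by
        have : 0 ≤ c * x := mul_nonneg hc hx
        rw [hκ]; nlinarith
      have t8 : 0 ≤ κ * x := mul_nonneg hκ0 hx
      have t9 : 0 ≤ κ ^ 2 := sq_nonneg _
      have t10 : 0 ≤ (q : ℝ) * (κ * x) := mul_nonneg hq t8
      rw [hL]
      nlinarith
    calc c * x ^ (2 * q + 1) + ε * a * x ^ (2 * q + 1)
          + 2 * (2 * (q : ℝ) + 1) * ε ^ 2 * w * x ^ (2 * q)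
        = (c * x + ε * a * x + 2 * (2 * (q : ℝ) + 1) * ε ^ 2 * w) * x ^ (2 * q) := by
          rw [e2]; ring
      _ ≤ (x * x / 8 + L * κ * x + L * κ ^ 2) * x ^ (2 * q) :=
          mul_le_mul_of_nonneg_right hcoef hxq
      _ = _ := by rw [e1, e2]; ring
  refine hmain.trans ?_
  have hR : 0 ≤ (8 * L) ^ (2 * (q + 1)) * κ ^ (2 * (q + 1)) := by positivity
  by_cases hcase : 8 * L * κ ≤ x
  · have s1 : L * κ * x ^ (2 * q + 1) ≤ x ^ (2 * (q + 1)) / 8 := by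
      have : L * κ ≤ x / 8 := by linarith
      calc L * κ * x ^ (2 * q + 1) ≤ x / 8 * x ^ (2 * q + 1) :=
            mul_le_mul_of_nonneg_right this hxq1
        _ = _ := by rw [e1, e2]; ring
    have s2 : L * κ ^ 2 * x ^ (2 * q) ≤ x ^ (2 * (q + 1)) / 64 := by
      have u1 : L * κ ≤ x / 8 := by linarith
      have u2 : κ ≤ x / 8 := by nlinarith
      have u3 : L * κ * κ ≤ x / 8 * (x / 8) := mul_le_mul u1 u2 hκ0 (by positivity)
      calc L * κ ^ 2 * x ^ (2 * q) = L * κ * κ * x ^ (2 * q) := by ring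
        _ ≤ x / 8 * (x / 8) * x ^ (2 * q) := mul_le_mul_of_nonneg_right u3 hxq
        _ = _ := by rw [e1]; ring
    have s3 : 0 ≤ x ^ (2 * (q + 1)) := pow_nonneg hx _
    have s4 : 2 * (8 * L) ^ (2 * (q + 1)) * κ ^ (2 * (q + 1))
        = 2 * ((8 * L) ^ (2 * (q + 1)) * κ ^ (2 * (q + 1))) := by ring
    rw [s4]
    linarith
  · push Not at hcase
    set y := 8 * L * κ with hy
    have hy0 : 0 ≤ y := hx.trans hcase.le
    have s1 : L * κ * x ^ (2 * q + 1) ≤ y ^ (2 * (q + 1)) := by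
      have u1 : L * κ ≤ y := by
        have h0 : 0 ≤ L * κ := mul_nonneg (by linarith) hκ0
        rw [hy]; linarith
      calc L * κ * x ^ (2 * q + 1) ≤ y * y ^ (2 * q + 1) := by
            refine mul_le_mul u1 ?_ hxq1 hy0
            exact pow_le_pow_left₀ hx hcase.le _
        _ = _ := by ring
    have s2 : L * κ ^ 2 * x ^ (2 * q) ≤ y ^ (2 * (q + 1)) := by
      have u0 : 0 ≤ κ ^ 2 := sq_nonneg κ
      have u2 : L ≤ 64 * L ^ 2 := by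
        have : L * 1 ≤ L * L := mul_le_mul_of_nonneg_left hL1 (by linarith)
        have h0 : 0 ≤ L * L := mul_self_nonneg L
        rw [pow_two]
        linarith
      have u1 : L * κ ^ 2 ≤ y * y := by
        calc L * κ ^ 2 ≤ 64 * L ^ 2 * κ ^ 2 := mul_le_mul_of_nonneg_right u2 u0
          _ = y * y := by rw [hy]; ring
      calc L * κ ^ 2 * x ^ (2 * q) ≤ y * y * y ^ (2 * q) := by
            refine mul_le_mul u1 ?_ hxq (by positivity)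
            exact pow_le_pow_left₀ hx hcase.le _
        _ = _ := by ring
    have s3 : 2 * (8 * L) ^ (2 * (q + 1)) * κ ^ (2 * (q + 1)) = 2 * y ^ (2 * (q + 1)) := by
      rw [mul_assoc, ← mul_pow]
    have s4 : 0 ≤ x ^ (2 * (q + 1)) := pow_nonneg hx _
    rw [s3]
    linarith

/-! ### bounds on the resolvent -/

theorem e3_hs2_sq {N : ℕ} {Q B : Matrix (Fin N) (Fin N) ℝ} (h : PB Q B) (z : ℂ)
    (hz : 0 < z.im) :
    ∑ a, ∑ b, ‖(Gz Q B z ^ 2) a b‖ ^ 2 ≤ (1 / z.im) ^ 2 * hs2 (Gz Q B z) := by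
  have hop := (op_gz h z hz.ne').2
  rw [abs_of_pos hz] at hop
  rw [hs2, Finset.sum_comm, Finset.sum_comm (f := fun i j => ‖Gz Q B z i j‖ ^ 2), Finset.mul_sum]
  refine Finset.sum_le_sum fun b _ => ?_
  have := hop (fun i => Gz Q B z i b)
  refine le_trans (le_of_eq ?_) this
  refine Finset.sum_congr rfl fun a _ => ?_
  have : (Gz Q B z ^ 2) a b = (Gz Q B z *ᵥ fun i => Gz Q B z i b) a := by
    rw [pow_two, Matrix.mul_apply]
    rfl
  rw [this]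

theorem e3_S {N : ℕ} {Q B : Matrix (Fin N) (Fin N) ℝ} (h : PB Q B) (z : ℂ)
    (hz : 0 < z.im) :
    ∑ a, ∑ b, ‖Gz Q B z b a‖ * ‖(Gz Q B z ^ 2) a b‖ ≤ (Gz Q B z).trace.im / z.im ^ 2 := by
  have h1 := e3_hs2_sq h z hz
  have h2 := hs_gz h z hz
  have hh0 : 0 ≤ hs2 (Gz Q B z) := by
    unfold hs2; positivity
  have hcs : (∑ p : Fin N × Fin N, ‖Gz Q B z p.2 p.1‖ * ‖(Gz Q B z ^ 2) p.1 p.2‖) ^ 2
      ≤ (∑ p : Fin N × Fin N, ‖Gz Q B z p.2 p.1‖ ^ 2)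
        * (∑ p : Fin N × Fin N, ‖(Gz Q B z ^ 2) p.1 p.2‖ ^ 2) :=
    Finset.sum_mul_sq_le_sq_mul_sq _ _ _
  rw [Fintype.sum_prod_type, Fintype.sum_prod_type, Fintype.sum_prod_type] at hcs
  simp only at hcs
  have e1 : ∑ x : Fin N, ∑ y : Fin N, ‖Gz Q B z y x‖ ^ 2 = hs2 (Gz Q B z) := by
    rw [hs2, Finset.sum_comm]
  rw [e1] at hcs
  have h3 : (∑ a, ∑ b, ‖Gz Q B z b a‖ * ‖(Gz Q B z ^ 2) a b‖) ^ 2
      ≤ (hs2 (Gz Q B z) / z.im) ^ 2 := by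
    refine hcs.trans ?_
    calc hs2 (Gz Q B z) * ∑ a, ∑ b, ‖(Gz Q B z ^ 2) a b‖ ^ 2
        ≤ hs2 (Gz Q B z) * ((1 / z.im) ^ 2 * hs2 (Gz Q B z)) :=
          mul_le_mul_of_nonneg_left h1 hh0
      _ = _ := by field_simp
  have h4 := abs_le_of_sq_le_sq' h3 (by positivity)
  refine h4.2.trans (le_of_eq ?_)
  rw [h2]
  field_simp

end Pool.Agent.ZR.E

end
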