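import Pool.Agent.ZRM.P12

/-!
# Merged form of the modules ZR.FR1, ZR.MComp, ZR.MFub
-/

set_option autoImplicit false

section

/-!
# ZR/FR1 : the residual `r = (H G)_xy + α m G_xy` along `(H + s Y0, B + s α Y0)`

`H(s) = H + sY0`, `B(s) = B + sY`, `Y = αY0`, `0 ≤ α ≤ 1`, `e = 2Γ sp1(Y0) ≤ 1`.
`h` bounds `‖(HG)_xb‖` for every `b` such that row `b` of `Y0` is not zero.
Along the path, for such `b`: `G(s) = G(0) - s G(0) Y G(s)` (`gz_pert`), so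
`‖(H G(s))_xb‖ ≤ h + h sp1(Y) 2Γ ≤ 2h` (`sparse_boot`: `EnLe (G(s)) (2Γ)`), and
`‖(H(s)G(s))_xb‖ ≤ 2h + sp1(Y0) 2Γ ≤ 2h + 1`.
`r' = (Y0 G)_xy - (H(s) G Y G)_xy + α(m' G_xy + m G'_xy)`, `|r'| ≤ e + (2h+1)e + e 2Γ + 4Γ² e ≤ A e`;
`r'' = 2(Y0 G')_xy + (H(s) G'')_xy + α(m''G + 2m'G' + mG'')`, `G'' = 2GYGYG`,
`|r''| ≤ 2e² + 2(2h+1)e² + 4Γe² + 4Γe² + 8Γ²e² ≤ A e²`, with `A = 20Γ²(1+h)`
(jet bounds of C6: `|G^{(r)}| ≤ 2Γ r! e^r`, `|m^{(r)}| ≤ r! e^r` for `r ≥ 1` as `N|Im z| ≥ 1`).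
`f(s) = G_uy(s) PsiF p (r(s))`: `|f''| ≤ 4Γe²|r|^{2p-1} + 8pΓe²A|r|^{2p-2} + 4pΓAe²|r|^{2p-2} +
8p²ΓA²e²|r|^{2p-3} ≤ 100p²Γe²(|r(s)|+A)^{2p-1}` and `|r(s)| ≤ |r(0)| + A`.  Apply `trap2` (C7).
-/


open MeasureTheory ProbabilityTheory Matrix

namespace Pool.Agent.ZR.F

variable {N : ℕ}

/-- `r = (H G)_xy + α m G_xy` -/
noncomputable def rf (H Q B : Matrix (Fin N) (Fin N) ℝ) (α : ℝ) (z : ℂ) (x y : Fin N) : ℂ :=
  (toC H * Gz Q B z) x y + (α : ℂ) * mz Q B z * Gz Q B z x y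

/-- derivative of `r` in the direction `(Y0, Y)` of `(H, B)` -/
noncomputable def drf (H Q B : Matrix (Fin N) (Fin N) ℝ) (α : ℝ) (Y0 Y : Matrix (Fin N) (Fin N) ℝ)
    (z : ℂ) (x y : Fin N) : ℂ :=
  (toC Y0 * Gz Q B z) x y + (toC H * dGm Q B Y z) x y
    + (α : ℂ) * (dmz Q B Y z * Gz Q B z x y + mz Q B z * dGm Q B Y z x y)

variable {H Q B Y0 : Matrix (Fin N) (Fin N) ℝ}

private theorem FR1_toC_add (A C : Matrix (Fin N) (Fin N) ℝ) : toC (A + C) = toC A + toC C := by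
  ext i j; simp [toC]

private theorem FR1_toC_smul (c : ℝ) (A : Matrix (Fin N) (Fin N) ℝ) :
    toC (c • A) = (c : ℂ) • toC A := by
  ext i j; simp [toC]

private theorem FR1_dGm_smul (c : ℝ) (Y : Matrix (Fin N) (Fin N) ℝ) (z : ℂ) :
    dGm Q B (c • Y) z = (c : ℂ) • dGm Q B Y z := by
  unfold dGm
  rw [FR1_toC_smul, Matrix.mul_smul, Matrix.smul_mul, smul_neg]

private theorem FR1_dmz_smul (c : ℝ) (Y : Matrix (Fin N) (Fin N) ℝ) (z : ℂ) :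
    dmz Q B (c • Y) z = (c : ℂ) * dmz Q B Y z := by
  unfold dmz
  rw [FR1_dGm_smul, Matrix.trace_smul, smul_eq_mul]
  ring

theorem drf_smul (α c : ℝ) (Y : Matrix (Fin N) (Fin N) ℝ) (z : ℂ) (x y : Fin N) :
    drf H Q B α (c • Y0) (c • Y) z x y = (c : ℂ) * drf H Q B α Y0 Y z x y := by
  unfold drf
  rw [FR1_dmz_smul, FR1_dGm_smul, FR1_toC_smul, Matrix.mul_smul, Matrix.smul_mul]
  simp only [Matrix.smul_apply, smul_eq_mul]
  ring

private theorem FR1_row {A C : Matrix (Fin N) (Fin N) ℂ} {a c : ℝ}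
    (Y : Matrix (Fin N) (Fin N) ℝ) (x y : Fin N) (ha : 0 ≤ a) (hc : 0 ≤ c)
    (hA : ∀ b d, Y b d ≠ 0 → ‖A x b‖ ≤ a) (hC : ∀ d, ‖C d y‖ ≤ c) :
    ‖(A * toC Y * C) x y‖ ≤ a * sp1 Y * c := by
  have h1 : (A * toC Y * C) x y = ∑ d, ∑ b, A x b * (Y b d : ℂ) * C d y := by
    simp only [Matrix.mul_apply, toC, Matrix.map_apply]
    refine Finset.sum_congr rfl fun d _ => ?_
    rw [Finset.sum_mul]
  rw [h1]
  have h2 : ∀ d b, ‖A x b * (Y b d : ℂ) * C d y‖ ≤ a * c * |Y b d| := by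
    intro d b
    by_cases hY : Y b d = 0
    · simp [hY]
    · have h3 := hA b d hY
      have h4 := hC d
      rw [norm_mul, norm_mul, Complex.norm_real, Real.norm_eq_abs]
      have h5 : ‖A x b‖ * |Y b d| ≤ a * |Y b d| := mul_le_mul_of_nonneg_right h3 (abs_nonneg _)
      calc ‖A x b‖ * |Y b d| * ‖C d y‖ ≤ (a * |Y b d|) * c :=
            mul_le_mul h5 h4 (norm_nonneg _) (mul_nonneg ha (abs_nonneg _))
        _ = a * c * |Y b d| := by ring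
  calc ‖∑ d, ∑ b, A x b * (Y b d : ℂ) * C d y‖
      ≤ ∑ d, ‖∑ b, A x b * (Y b d : ℂ) * C d y‖ := norm_sum_le _ _
    _ ≤ ∑ d, ∑ b, ‖A x b * (Y b d : ℂ) * C d y‖ :=
        Finset.sum_le_sum fun d _ => norm_sum_le _ _
    _ ≤ ∑ d, ∑ b, a * c * |Y b d| :=
        Finset.sum_le_sum fun d _ => Finset.sum_le_sum fun b _ => h2 d b
    _ = a * sp1 Y * c := by
        unfold sp1
        rw [Finset.sum_comm]
        simp only [← Finset.mul_sum]
        ring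

/-- row bound without the matrix on the left -/
private theorem FR1_row0 {C : Matrix (Fin N) (Fin N) ℂ} {c : ℝ}
    (Y : Matrix (Fin N) (Fin N) ℝ) (x y : Fin N) (hc : 0 ≤ c) (hC : ∀ d, ‖C d y‖ ≤ c) :
    ‖(toC Y * C) x y‖ ≤ sp1 Y * c := by
  have h1 : (toC Y * C) x y = ((1 : Matrix (Fin N) (Fin N) ℂ) * toC Y * C) x y := by
    rw [Matrix.one_mul]
  rw [h1]
  have := FR1_row (A := (1 : Matrix (Fin N) (Fin N) ℂ)) (C := C) (a := 1) (c := c) Y x y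
    zero_le_one hc (fun b d _ => by
      rw [Matrix.one_apply]; split_ifs <;> simp) hC
  linarith

private theorem FR1_mz {Γ : ℝ} (hΓ : 0 ≤ Γ) {z : ℂ} (hG : EnLe (Gz Q B z) Γ) : ‖mz Q B z‖ ≤ Γ := by
  unfold mz
  rcases Nat.eq_zero_or_pos N with h0 | h0
  · subst h0
    simp [Matrix.trace, hΓ]
  · have hN : (0 : ℝ) < N := by exact_mod_cast h0
    rw [norm_mul]
    have h1 : ‖(Gz Q B z).trace‖ ≤ N * Γ := by
      calc ‖(Gz Q B z).trace‖ ≤ ∑ i : Fin N, ‖Gz Q B z i i‖ := norm_sum_le _ _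
        _ ≤ ∑ i : Fin N, Γ := Finset.sum_le_sum fun i _ => hG i i
        _ = N * Γ := by simp
    have h2 : ‖(1 / (N : ℂ))‖ = 1 / (N : ℝ) := by simp
    rw [h2]
    calc 1 / (N : ℝ) * ‖(Gz Q B z).trace‖ ≤ 1 / (N : ℝ) * (N * Γ) :=
          mul_le_mul_of_nonneg_left h1 (by positivity)
      _ = Γ := by field_simp

private theorem FR1_trace {A : Matrix (Fin N) (Fin N) ℂ} {a : ℝ} (hA : EnLe A a)
    (Y : Matrix (Fin N) (Fin N) ℝ) : ‖(A * toC Y).trace‖ ≤ a * sp1 Y := by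
  have h1 : (A * toC Y).trace = ∑ x, ∑ b, A x b * (Y b x : ℂ) := by
    simp only [Matrix.trace, Matrix.diag_apply, Matrix.mul_apply, toC, Matrix.map_apply]
  rw [h1]
  calc ‖∑ x, ∑ b, A x b * (Y b x : ℂ)‖ ≤ ∑ x, ‖∑ b, A x b * (Y b x : ℂ)‖ := norm_sum_le _ _
    _ ≤ ∑ x, ∑ b, ‖A x b * (Y b x : ℂ)‖ := Finset.sum_le_sum fun x _ => norm_sum_le _ _
    _ ≤ ∑ x, ∑ b, a * |Y b x| := by
        refine Finset.sum_le_sum fun x _ => Finset.sum_le_sum fun b _ => ?_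
        rw [norm_mul, Complex.norm_real, Real.norm_eq_abs]
        exact mul_le_mul_of_nonneg_right (hA x b) (abs_nonneg _)
    _ = a * sp1 Y := by
        unfold sp1
        rw [Finset.sum_comm]
        simp only [← Finset.mul_sum]

private theorem FR1_dmz (hB : PB Q B) {Y : Matrix (Fin N) (Fin N) ℝ} (z : ℂ)
    (hz : z.im ≠ 0) (Γ : ℝ) (hΓ : 1 ≤ Γ) (hG : EnLe (Gz Q B z) Γ) (hN : 1 ≤ N * |z.im|) :
    ‖dmz Q B Y z‖ ≤ Γ * sp1 Y := by
  have hzp : 0 < |z.im| := abs_pos.2 hz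
  have h0 : (0 : ℝ) < N := by
    by_contra h
    have : (N : ℝ) = 0 := le_antisymm (not_lt.1 h) (Nat.cast_nonneg _)
    rw [this, zero_mul] at hN
    linarith
  have h1 : (dGm Q B Y z).trace = -((Gz Q B z ^ 2 * toC Y).trace) := by
    unfold dGm
    rw [Matrix.trace_neg, Matrix.trace_mul_comm (Gz Q B z * toC Y) (Gz Q B z), ← Matrix.mul_assoc,
      pow_two]
  have h2 := FR1_trace (sq_bd hB z hz Γ (by linarith) hG) Y
  unfold dmz
  rw [h1, norm_mul, norm_neg]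
  have h3 : ‖(1 / (N : ℂ))‖ = 1 / (N : ℝ) := by simp
  rw [h3]
  have h4 : 1 / (N : ℝ) * (Γ / |z.im|) ≤ Γ := by
    rw [div_mul_div_comm, one_mul, div_le_iff₀ (by positivity)]
    nlinarith
  calc 1 / (N : ℝ) * ‖(Gz Q B z ^ 2 * toC Y).trace‖ ≤ 1 / (N : ℝ) * (Γ / |z.im| * sp1 Y) :=
        mul_le_mul_of_nonneg_left h2 (by positivity)
    _ = (1 / (N : ℝ) * (Γ / |z.im|)) * sp1 Y := by ring
    _ ≤ Γ * sp1 Y := mul_le_mul_of_nonneg_right h4 (sp1_nonneg _)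

theorem bd_dr (hB : PB Q B) (hY : PB Q Y0) (α : ℝ) (h0 : 0 ≤ α) (h1 : α ≤ 1) (z : ℂ)
    (hz : z.im ≠ 0) (Γ h : ℝ) (hΓ : 1 ≤ Γ) (hh : 0 ≤ h) (hG : EnLe (Gz Q B z) Γ)
    (hN : 1 ≤ N * |z.im|) (x y : Fin N)
    (hb : ∀ b c, Y0 b c ≠ 0 → ‖(toC H * Gz Q B z) x b‖ ≤ h) :
    ‖drf H Q B α Y0 (α • Y0) z x y‖ ≤ 4 * sp1 Y0 * Γ ^ 3 * (1 + h) := by
  have hs := sp1_nonneg Y0
  have hsα : sp1 (α • Y0) ≤ sp1 Y0 := by
    rw [sp1_smul, abs_of_nonneg h0]; nlinarith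
  have hsα0 : 0 ≤ sp1 (α • Y0) := sp1_nonneg _
  have e1 : ‖(toC Y0 * Gz Q B z) x y‖ ≤ sp1 Y0 * Γ :=
    FR1_row0 Y0 x y (by linarith) (fun d => hG d y)
  have e2 : ‖(toC H * dGm Q B (α • Y0) z) x y‖ ≤ h * sp1 Y0 * Γ := by
    have e3 : toC H * dGm Q B (α • Y0) z
        = -((toC H * Gz Q B z) * toC (α • Y0) * Gz Q B z) := by
      unfold dGm
      rw [Matrix.mul_neg, Matrix.mul_assoc, Matrix.mul_assoc, Matrix.mul_assoc]
    rw [e3, Matrix.neg_apply, norm_neg]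
    refine (FR1_row (α • Y0) x y hh (by linarith) ?_ (fun d => hG d y)).trans ?_
    · intro b d hbd
      refine hb b d ?_
      intro h3
      apply hbd
      rw [Matrix.smul_apply, h3, smul_zero]
    · exact mul_le_mul_of_nonneg_right (mul_le_mul_of_nonneg_left hsα hh) (by linarith)
  have e3 : ‖dmz Q B (α • Y0) z‖ ≤ Γ * sp1 Y0 :=
    (FR1_dmz hB z hz Γ hΓ hG hN).trans (mul_le_mul_of_nonneg_left hsα (by linarith))
  have e4 : ‖dGm Q B (α • Y0) z x y‖ ≤ Γ * sp1 Y0 * Γ := by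
    unfold dGm
    rw [Matrix.neg_apply, norm_neg]
    refine (sparse_entry hG hG (by linarith) (by linarith) (α • Y0) x y).trans ?_
    exact mul_le_mul_of_nonneg_right (mul_le_mul_of_nonneg_left hsα (by linarith)) (by linarith)
  have e5 : ‖mz Q B z‖ ≤ Γ := FR1_mz (by linarith) hG
  have e6 : ‖Gz Q B z x y‖ ≤ Γ := hG x y
  have hΓ0 : 0 ≤ Γ := by linarith
  have e7 : ‖(α : ℂ)‖ ≤ 1 := by
    rw [Complex.norm_real, Real.norm_eq_abs, abs_of_nonneg h0]; exact h1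
  have e8 : ‖(α : ℂ) * (dmz Q B (α • Y0) z * Gz Q B z x y + mz Q B z * dGm Q B (α • Y0) z x y)‖
      ≤ Γ * sp1 Y0 * Γ + Γ * (Γ * sp1 Y0 * Γ) := by
    rw [norm_mul]
    have e9 : ‖dmz Q B (α • Y0) z * Gz Q B z x y + mz Q B z * dGm Q B (α • Y0) z x y‖
        ≤ Γ * sp1 Y0 * Γ + Γ * (Γ * sp1 Y0 * Γ) := by
      refine (norm_add_le _ _).trans ?_
      rw [norm_mul, norm_mul]
      exact add_le_add (mul_le_mul e3 e6 (norm_nonneg _) (by positivity))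
        (mul_le_mul e5 e4 (norm_nonneg _) hΓ0)
    calc ‖(α : ℂ)‖ * _ ≤ 1 * (Γ * sp1 Y0 * Γ + Γ * (Γ * sp1 Y0 * Γ)) :=
          mul_le_mul e7 e9 (norm_nonneg _) zero_le_one
      _ = _ := one_mul _
  have e10 : ‖drf H Q B α Y0 (α • Y0) z x y‖
      ≤ sp1 Y0 * Γ + h * sp1 Y0 * Γ + (Γ * sp1 Y0 * Γ + Γ * (Γ * sp1 Y0 * Γ)) := by
    unfold drf
    exact (norm_add_le _ _).trans (add_le_add ((norm_add_le _ _).trans (add_le_add e1 e2)) e8)
  refine e10.trans ?_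
  have g2 : Γ ≤ Γ ^ 2 := by nlinarith
  have g3 : Γ ^ 2 ≤ Γ ^ 3 := by nlinarith [sq_nonneg Γ]
  have e11 : sp1 Y0 * Γ + h * sp1 Y0 * Γ + (Γ * sp1 Y0 * Γ + Γ * (Γ * sp1 Y0 * Γ))
      = sp1 Y0 * (Γ + h * Γ + Γ ^ 2 + Γ ^ 3) := by ring
  have e12 : 4 * sp1 Y0 * Γ ^ 3 * (1 + h) = sp1 Y0 * (4 * Γ ^ 3 * (1 + h)) := by ring
  rw [e11, e12]
  refine mul_le_mul_of_nonneg_left ?_ hs
  have g4 : h * Γ ≤ h * Γ ^ 3 := mul_le_mul_of_nonneg_left (g2.trans g3) hh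
  have g5 : 0 ≤ h * Γ ^ 3 := by positivity
  nlinarith

private theorem FR1_conj {q : ℝ → ℂ} {d : ℂ} {s : ℝ} (hq : HasDerivAt q d s) :
    HasDerivAt (fun s : ℝ => starRingEnd ℂ (q s)) (starRingEnd ℂ d) s := by
  have := hq.star
  simpa using this

/-- derivative of `dPsi p (q s) (d s)` -/
private noncomputable def FR1_dd (p : ℕ) (q d w : ℂ) : ℂ :=
  ((p - 1 : ℕ) : ℂ) * (((p - 2 : ℕ) : ℂ) * q ^ (p - 2 - 1) * d) * (starRingEnd ℂ q) ^ p * d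
  + ((p - 1 : ℕ) : ℂ) * q ^ (p - 2) * ((p : ℂ) * (starRingEnd ℂ q) ^ (p - 1) * starRingEnd ℂ d) * d
  + ((p - 1 : ℕ) : ℂ) * q ^ (p - 2) * (starRingEnd ℂ q) ^ p * w
  + (p : ℂ) * (((p - 1 : ℕ) : ℂ) * q ^ (p - 1 - 1) * d) * (starRingEnd ℂ q) ^ (p - 1)
      * starRingEnd ℂ d
  + (p : ℂ) * q ^ (p - 1) * (((p - 1 : ℕ) : ℂ) * (starRingEnd ℂ q) ^ (p - 1 - 1) * starRingEnd ℂ d)
      * starRingEnd ℂ d
  + (p : ℂ) * q ^ (p - 1) * (starRingEnd ℂ q) ^ (p - 1) * starRingEnd ℂ w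

private theorem FR1_dd_der (p : ℕ) (q d : ℝ → ℂ) (w : ℂ) (s : ℝ) (hq : HasDerivAt q (d s) s)
    (hd : HasDerivAt d w s) :
    HasDerivAt (fun s : ℝ => dPsi p (q s) (d s)) (FR1_dd p (q s) (d s) w) s := by
  have hq' := FR1_conj hq
  have hd' := FR1_conj hd
  have h1 := (((hq.pow (p - 2)).const_mul ((p - 1 : ℕ) : ℂ)).mul (hq'.pow p)).mul hd
  have h2 := (((hq.pow (p - 1)).const_mul (p : ℂ)).mul (hq'.pow (p - 1))).mul hd'
  have h3 := h1.add h2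
  refine (h3.congr_deriv ?_).congr_of_eventuallyEq ?_
  · unfold FR1_dd
    simp only [Pi.mul_apply, Pi.pow_apply]
    ring
  · refine Filter.Eventually.of_forall fun t => ?_
    simp only [dPsi, Pi.mul_apply, Pi.add_apply, Pi.pow_apply]

private theorem FR1_dd_bd (p : ℕ) (hp : 2 ≤ p) (q d w : ℂ) (ρ e : ℝ) (hρ : 0 ≤ ρ) (he : 0 ≤ e)
    (hq : ‖q‖ ≤ ρ) (hd : ‖d‖ ≤ ρ * e) (hw : ‖w‖ ≤ ρ * e ^ 2) :
    ‖FR1_dd p q d w‖ ≤ 6 * (p : ℝ) ^ 2 * (ρ ^ (2 * p - 1) * e ^ 2) := by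
  have hpr : (2 : ℝ) ≤ p := by exact_mod_cast hp
  have c1 : ((p - 1 : ℕ) : ℝ) ≤ p := by exact_mod_cast Nat.sub_le _ _
  have c2 : ((p - 2 : ℕ) : ℝ) ≤ p := by exact_mod_cast Nat.sub_le _ _
  have qp : ∀ k : ℕ, ‖q‖ ^ k ≤ ρ ^ k := fun k => pow_le_pow_left₀ (norm_nonneg _) hq k
  -- general estimate
  have key : ∀ (c c' : ℝ) (a b : ℕ) (u v : ℝ), 0 ≤ c → 0 ≤ c' → c ≤ p → c' ≤ p → 0 ≤ u → 0 ≤ v →
      a + b + 2 = 2 * p - 1 → u ≤ ρ * e → v ≤ ρ * e →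
      c * c' * (‖q‖ ^ a * ‖q‖ ^ b) * (u * v) ≤ (p : ℝ) ^ 2 * (ρ ^ (2 * p - 1) * e ^ 2) := by
    intro c c' a b u v hc hc' hcp hcp' hu hv hab huu hvv
    have k1 : c * c' ≤ (p : ℝ) ^ 2 := by
      rw [pow_two]; exact mul_le_mul hcp hcp' hc' (by linarith)
    have k2 : ‖q‖ ^ a * ‖q‖ ^ b ≤ ρ ^ a * ρ ^ b := mul_le_mul (qp a) (qp b) (by positivity)
      (by positivity)
    have k3 : u * v ≤ (ρ * e) * (ρ * e) := mul_le_mul huu hvv hv (by positivity)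
    have k4 : (p : ℝ) ^ 2 * (ρ ^ (2 * p - 1) * e ^ 2)
        = (p : ℝ) ^ 2 * (ρ ^ a * ρ ^ b) * ((ρ * e) * (ρ * e)) := by
      rw [← hab, pow_add, pow_add]; ring
    rw [k4]
    exact mul_le_mul (mul_le_mul k1 k2 (by positivity) (by positivity)) k3 (mul_nonneg hu hv)
      (by positivity)
  have key2 : ∀ (c : ℝ) (a b : ℕ) (u : ℝ), 0 ≤ c → c ≤ p → 0 ≤ u →
      a + b + 1 = 2 * p - 1 → u ≤ ρ * e ^ 2 →
      c * (‖q‖ ^ a * ‖q‖ ^ b) * u ≤ (p : ℝ) ^ 2 * (ρ ^ (2 * p - 1) * e ^ 2) := by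
    intro c a b u hc hcp hu hab huu
    have k1 : c ≤ (p : ℝ) ^ 2 := by nlinarith
    have k2 : ‖q‖ ^ a * ‖q‖ ^ b ≤ ρ ^ a * ρ ^ b := mul_le_mul (qp a) (qp b) (by positivity)
      (by positivity)
    have k4 : (p : ℝ) ^ 2 * (ρ ^ (2 * p - 1) * e ^ 2)
        = (p : ℝ) ^ 2 * (ρ ^ a * ρ ^ b) * (ρ * e ^ 2) := by
      rw [← hab, pow_add, pow_add]; ring
    rw [k4]
    exact mul_le_mul (mul_le_mul k1 k2 (by positivity) (by positivity)) huu hu (by positivity)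
  have hcq : ‖starRingEnd ℂ q‖ = ‖q‖ := RCLike.norm_conj q
  have hcd : ‖starRingEnd ℂ d‖ = ‖d‖ := RCLike.norm_conj d
  have hcw : ‖starRingEnd ℂ w‖ = ‖w‖ := RCLike.norm_conj w
  have n1 : ‖((p - 1 : ℕ) : ℂ)‖ = ((p - 1 : ℕ) : ℝ) := Complex.norm_natCast _
  have n2 : ‖((p - 2 : ℕ) : ℂ)‖ = ((p - 2 : ℕ) : ℝ) := Complex.norm_natCast _
  have n3 : ‖(p : ℂ)‖ = (p : ℝ) := Complex.norm_natCast _
  have t1 : ‖((p - 1 : ℕ) : ℂ) * (((p - 2 : ℕ) : ℂ) * q ^ (p - 2 - 1) * d) * (starRingEnd ℂ q) ^ p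
      * d‖ ≤ (p : ℝ) ^ 2 * (ρ ^ (2 * p - 1) * e ^ 2) := by
    rcases Nat.lt_or_ge 2 p with h3 | h3
    · have := key _ _ (p - 2 - 1) p ‖d‖ ‖d‖ (Nat.cast_nonneg (p - 1)) (Nat.cast_nonneg (p - 2)) c1
        c2 (norm_nonneg _) (norm_nonneg _) (by omega) hd hd
      refine le_trans (le_of_eq ?_) this
      simp only [norm_mul, norm_pow, hcq, n1, n2]
      ring
    · have h4 : p = 2 := le_antisymm h3 hp
      subst h4
      simp
      positivity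
  have t2 : ‖((p - 1 : ℕ) : ℂ) * q ^ (p - 2) * ((p : ℂ) * (starRingEnd ℂ q) ^ (p - 1)
      * starRingEnd ℂ d) * d‖ ≤ (p : ℝ) ^ 2 * (ρ ^ (2 * p - 1) * e ^ 2) := by
    have := key _ _ (p - 2) (p - 1) ‖d‖ ‖d‖ (Nat.cast_nonneg (p - 1)) (Nat.cast_nonneg p) c1
      le_rfl (norm_nonneg _) (norm_nonneg _) (by omega) hd hd
    refine le_trans (le_of_eq ?_) this
    simp only [norm_mul, norm_pow, hcq, hcd, n1, n3]
    ring
  have t3 : ‖((p - 1 : ℕ) : ℂ) * q ^ (p - 2) * (starRingEnd ℂ q) ^ p * w‖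
      ≤ (p : ℝ) ^ 2 * (ρ ^ (2 * p - 1) * e ^ 2) := by
    have := key2 _ (p - 2) p ‖w‖ (Nat.cast_nonneg (p - 1)) c1 (norm_nonneg _) (by omega) hw
    refine le_trans (le_of_eq ?_) this
    simp only [norm_mul, norm_pow, hcq, n1]
    ring
  have t4 : ‖(p : ℂ) * (((p - 1 : ℕ) : ℂ) * q ^ (p - 1 - 1) * d) * (starRingEnd ℂ q) ^ (p - 1)
      * starRingEnd ℂ d‖ ≤ (p : ℝ) ^ 2 * (ρ ^ (2 * p - 1) * e ^ 2) := by
    have := key _ _ (p - 1 - 1) (p - 1) ‖d‖ ‖d‖ (Nat.cast_nonneg (p - 1)) (Nat.cast_nonneg p) c1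
      le_rfl (norm_nonneg _) (norm_nonneg _) (by omega) hd hd
    refine le_trans (le_of_eq ?_) this
    simp only [norm_mul, norm_pow, hcq, hcd, n1, n3]
    ring
  have t5 : ‖(p : ℂ) * q ^ (p - 1) * (((p - 1 : ℕ) : ℂ) * (starRingEnd ℂ q) ^ (p - 1 - 1)
      * starRingEnd ℂ d) * starRingEnd ℂ d‖ ≤ (p : ℝ) ^ 2 * (ρ ^ (2 * p - 1) * e ^ 2) := by
    have := key _ _ (p - 1) (p - 1 - 1) ‖d‖ ‖d‖ (Nat.cast_nonneg (p - 1)) (Nat.cast_nonneg p) c1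
      le_rfl (norm_nonneg _) (norm_nonneg _) (by omega) hd hd
    refine le_trans (le_of_eq ?_) this
    simp only [norm_mul, norm_pow, hcq, hcd, n1, n3]
    ring
  have t6 : ‖(p : ℂ) * q ^ (p - 1) * (starRingEnd ℂ q) ^ (p - 1) * starRingEnd ℂ w‖
      ≤ (p : ℝ) ^ 2 * (ρ ^ (2 * p - 1) * e ^ 2) := by
    have := key2 _ (p - 1) (p - 1) ‖w‖ (Nat.cast_nonneg p) le_rfl (norm_nonneg _) (by omega) hw
    refine le_trans (le_of_eq ?_) this
    simp only [norm_mul, norm_pow, hcq, hcw, n3]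
    ring
  unfold FR1_dd
  have s := norm_add_le_of_le (norm_add_le_of_le (norm_add_le_of_le (norm_add_le_of_le
    (norm_add_le_of_le t1 t2) t3) t4) t5) t6
  refine s.trans (le_of_eq ?_)
  ring

/-- `∑_b Y0_xb jet_b` -/
private noncomputable def FR1_S (Q B Y0 Y : Matrix (Fin N) (Fin N) ℝ) (z : ℂ) (x y : Fin N) (r : ℕ)
    (s : ℝ) : ℂ := ∑ b, (Y0 x b : ℂ) * jetE Q B Y z b y r s

/-- `∑_b (H + s Y0)_xb jet_b` -/
private noncomputable def FR1_T (H Q B Y0 Y : Matrix (Fin N) (Fin N) ℝ) (z : ℂ) (x y : Fin N)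
    (r : ℕ) (s : ℝ) : ℂ := ∑ b, ((H x b : ℂ) + (s : ℂ) * (Y0 x b : ℂ)) * jetE Q B Y z b y r s

private theorem FR1_S_der {Y : Matrix (Fin N) (Fin N) ℝ} (hB : PB Q B) (hY : PB Q Y) (z : ℂ)
    (hz : z.im ≠ 0) (x y : Fin N) (r : ℕ) (s : ℝ) :
    HasDerivAt (FR1_S Q B Y0 Y z x y r) (FR1_S Q B Y0 Y z x y (r + 1) s) s := by
  unfold FR1_S
  exact HasDerivAt.fun_sum fun b _ => (jet_entry hB hY z hz b y r s).const_mul _

private theorem FR1_T_der {Y : Matrix (Fin N) (Fin N) ℝ} (hB : PB Q B) (hY : PB Q Y) (z : ℂ)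
    (hz : z.im ≠ 0) (x y : Fin N) (r : ℕ) (s : ℝ) :
    HasDerivAt (FR1_T H Q B Y0 Y z x y r)
      (FR1_S Q B Y0 Y z x y r s + FR1_T H Q B Y0 Y z x y (r + 1) s) s := by
  unfold FR1_S FR1_T
  rw [← Finset.sum_add_distrib]
  refine HasDerivAt.fun_sum fun b _ => ?_
  have h1 : HasDerivAt (fun s : ℝ => (H x b : ℂ) + (s : ℂ) * (Y0 x b : ℂ)) (Y0 x b : ℂ) s := by
    have := ((Complex.ofRealCLM.hasDerivAt (x := s)).mul_const (Y0 x b : ℂ)).const_add (H x b : ℂ)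
    simpa using this
  exact h1.mul (jet_entry hB hY z hz b y r s)

private theorem FR1_S_eq {Y : Matrix (Fin N) (Fin N) ℝ} (z : ℂ) (x y : Fin N) (r : ℕ) (s : ℝ) :
    FR1_S Q B Y0 Y z x y r s = (-1) ^ r * (r.factorial : ℂ) *
      (toC Y0 * ((Gz Q (B + s • Y) z * toC Y) ^ r * Gz Q (B + s • Y) z)) x y := by
  unfold FR1_S jetE
  rw [Matrix.mul_apply, Finset.mul_sum]
  refine Finset.sum_congr rfl fun b _ => ?_
  simp only [toC, Matrix.map_apply]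
  ring

private theorem FR1_T_eq {Y : Matrix (Fin N) (Fin N) ℝ} (z : ℂ) (x y : Fin N) (r : ℕ) (s : ℝ) :
    FR1_T H Q B Y0 Y z x y r s = (-1) ^ r * (r.factorial : ℂ) *
      (toC (H + s • Y0) * ((Gz Q (B + s • Y) z * toC Y) ^ r * Gz Q (B + s • Y) z)) x y := by
  unfold FR1_T jetE
  rw [Matrix.mul_apply, Finset.mul_sum]
  refine Finset.sum_congr rfl fun b _ => ?_
  simp only [toC, Matrix.map_apply, Matrix.add_apply, Matrix.smul_apply, smul_eq_mul,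
    Complex.ofReal_add, Complex.ofReal_mul]
  ring

private theorem FR1_E1 {Y : Matrix (Fin N) (Fin N) ℝ} (z : ℂ) (x y : Fin N) (s : ℝ) :
    jetE Q B Y z x y 1 s = dGm Q (B + s • Y) Y z x y := by
  unfold jetE dGm
  simp

private theorem FR1_M1 {Y : Matrix (Fin N) (Fin N) ℝ} (z : ℂ) (s : ℝ) :
    jetM Q B Y z 1 s = dmz Q (B + s • Y) Y z := by
  unfold jetM dmz dGm
  simp

private theorem FR1_R0 {Y : Matrix (Fin N) (Fin N) ℝ} (α : ℝ) (z : ℂ) (x y : Fin N) (s : ℝ) :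
    FR1_T H Q B Y0 Y z x y 0 s + (α : ℂ) * (jetM Q B Y z 0 s * jetE Q B Y z x y 0 s)
      = rf (H + s • Y0) Q (B + s • Y) α z x y := by
  rw [FR1_T_eq, jetE_zero, jetM_zero]
  unfold rf
  simp
  ring

private theorem FR1_R1 {Y : Matrix (Fin N) (Fin N) ℝ} (α : ℝ) (z : ℂ) (x y : Fin N) (s : ℝ) :
    (FR1_S Q B Y0 Y z x y 0 s + FR1_T H Q B Y0 Y z x y 1 s)
      + (α : ℂ) * (jetM Q B Y z 1 s * jetE Q B Y z x y 0 s
        + jetM Q B Y z 0 s * jetE Q B Y z x y 1 s)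
      = drf (H + s • Y0) Q (B + s • Y) α Y0 Y z x y := by
  rw [FR1_T_eq, FR1_S_eq, jetE_zero, jetM_zero, FR1_E1, FR1_M1]
  unfold drf
  have h1 : toC (H + s • Y0) * dGm Q (B + s • Y) Y z
      = -(toC (H + s • Y0) * ((Gz Q (B + s • Y) z * toC Y) ^ 1 * Gz Q (B + s • Y) z)) := by
    unfold dGm
    rw [pow_one, Matrix.mul_neg]
  rw [h1, Matrix.neg_apply]
  simp

theorem rem_r (hB : PB Q B) (hY : PB Q Y0) (α : ℝ) (h0 : 0 ≤ α) (h1 : α ≤ 1) (z : ℂ)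
    (hz : z.im ≠ 0) (Γ h : ℝ) (hΓ : 1 ≤ Γ) (hh : 0 ≤ h) (hG : EnLe (Gz Q B z) Γ)
    (hs : sp1 Y0 * Γ ≤ 1 / 2) (hN : 1 ≤ N * |z.im|) (p : ℕ) (hp : 2 ≤ p) (u x y : Fin N)
    (hb : ∀ b c, Y0 b c ≠ 0 → ‖(toC H * Gz Q B z) x b‖ ≤ h) :
    ‖Gz Q (B + α • Y0) z u y * PsiF p (rf (H + Y0) Q (B + α • Y0) α z x y)
        - Gz Q B z u y * PsiF p (rf H Q B α z x y)
      - ((dGm Q B (α • Y0) z u y * PsiF p (rf H Q B α z x y)
            + Gz Q B z u y * dPsi p (rf H Q B α z x y) (drf H Q B α Y0 (α • Y0) z x y))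
          + (dGm Q (B + α • Y0) (α • Y0) z u y * PsiF p (rf (H + Y0) Q (B + α • Y0) α z x y)
            + Gz Q (B + α • Y0) z u y * dPsi p (rf (H + Y0) Q (B + α • Y0) α z x y)
                (drf (H + Y0) Q (B + α • Y0) α Y0 (α • Y0) z x y))) / 2‖
      ≤ 100 * (p : ℝ) ^ 2 * Γ * (2 * Γ * sp1 Y0) ^ 2
        * (‖rf H Q B α z x y‖ + 40 * Γ ^ 2 * (1 + h)) ^ (2 * p - 1) := by
  have hYp : PB Q (α • Y0) := by
    have := pb_add hY hY α 0
    simpa using this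
  set Y := α • Y0 with hYdef
  have hs0 := sp1_nonneg Y0
  have hsα : sp1 Y ≤ sp1 Y0 := by
    rw [hYdef, sp1_smul, abs_of_nonneg h0]; nlinarith
  have hsα0 : 0 ≤ sp1 Y := sp1_nonneg _
  have hΓ0 : 0 ≤ Γ := by linarith
  have hsY : sp1 Y * Γ ≤ 1 / 2 := (mul_le_mul_of_nonneg_right hsα hΓ0).trans hs
  set e := 2 * Γ * sp1 Y0 with he
  have he0 : 0 ≤ e := by positivity
  have he1 : e ≤ 1 := by rw [he]; nlinarith
  have heY : 2 * Γ * sp1 Y ≤ e := by rw [he]; nlinarith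
  have heY0 : 0 ≤ 2 * Γ * sp1 Y := by positivity
  have hNz : 0 < (N : ℝ) * |z.im| := by linarith
  set A := 20 * Γ ^ 2 * (1 + h) with hA
  have g2 : Γ ≤ Γ ^ 2 := by nlinarith
  have g1 : 1 ≤ Γ ^ 2 := by nlinarith
  have hhΓ : h ≤ Γ ^ 2 * h := by nlinarith
  have hA0 : 0 ≤ A := by positivity
  set ρ := ‖rf H Q B α z x y‖ + 40 * Γ ^ 2 * (1 + h) with hρ
  have hAρ : A ≤ ρ := by
    rw [hρ, hA]; nlinarith [norm_nonneg (rf H Q B α z x y), mul_nonneg (sq_nonneg Γ) hh]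
  have hρ0 : 0 ≤ ρ := hA0.trans hAρ
  have hα : ‖(α : ℂ)‖ ≤ 1 := by
    rw [Complex.norm_real, Real.norm_eq_abs, abs_of_nonneg h0]; exact h1
  have hα' : ∀ w : ℂ, ‖(α : ℂ) * w‖ ≤ ‖w‖ := by
    intro w; rw [norm_mul]; nlinarith [norm_nonneg w]
  -- the functions
  let R0 : ℝ → ℂ := fun s => FR1_T H Q B Y0 Y z x y 0 s
    + (α : ℂ) * (jetM Q B Y z 0 s * jetE Q B Y z x y 0 s)
  let R1 : ℝ → ℂ := fun s => (FR1_S Q B Y0 Y z x y 0 s + FR1_T H Q B Y0 Y z x y 1 s)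
      + (α : ℂ) * (jetM Q B Y z 1 s * jetE Q B Y z x y 0 s
        + jetM Q B Y z 0 s * jetE Q B Y z x y 1 s)
  let R2 : ℝ → ℂ := fun s => (FR1_S Q B Y0 Y z x y 1 s
      + (FR1_S Q B Y0 Y z x y 1 s + FR1_T H Q B Y0 Y z x y 2 s))
      + (α : ℂ) * ((jetM Q B Y z 2 s * jetE Q B Y z x y 0 s
          + jetM Q B Y z 1 s * jetE Q B Y z x y 1 s)
        + (jetM Q B Y z 1 s * jetE Q B Y z x y 1 s + jetM Q B Y z 0 s * jetE Q B Y z x y 2 s))
  have dR0 : ∀ s, HasDerivAt R0 (R1 s) s := fun s =>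
    (FR1_T_der hB hYp z hz x y 0 s).add
      (((jet_mz hB hYp z hz 0 s).mul (jet_entry hB hYp z hz x y 0 s)).const_mul (α : ℂ))
  have dR1 : ∀ s, HasDerivAt R1 (R2 s) s := fun s =>
    ((FR1_S_der hB hYp z hz x y 0 s).add (FR1_T_der hB hYp z hz x y 1 s)).add
      ((((jet_mz hB hYp z hz 1 s).mul (jet_entry hB hYp z hz x y 0 s)).add
        ((jet_mz hB hYp z hz 0 s).mul (jet_entry hB hYp z hz x y 1 s))).const_mul (α : ℂ))
  -- bounds of the jets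
  have absle : ∀ s ∈ Set.Icc (0 : ℝ) 1, |s| ≤ 1 := by
    intro s hs'
    rw [abs_of_nonneg hs'.1]; exact hs'.2
  have bE0 : ∀ s ∈ Set.Icc (0 : ℝ) 1, ∀ a b, ‖jetE Q B Y z a b 0 s‖ ≤ 2 * Γ := by
    intro s hs' a b
    have := jetE_bd hB hYp z hz Γ hΓ0 hG hsY s (absle s hs') a b 0
    simpa using this
  have bE1 : ∀ s ∈ Set.Icc (0 : ℝ) 1, ∀ a b, ‖jetE Q B Y z a b 1 s‖ ≤ 2 * Γ * e := by
    intro s hs' a b
    have := jetE_bd hB hYp z hz Γ hΓ0 hG hsY s (absle s hs') a b 1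
    refine this.trans ?_
    simp only [Nat.factorial_one, Nat.cast_one, mul_one, pow_one]
    exact mul_le_mul_of_nonneg_left heY (by linarith)
  have eY2 : (2 * Γ * sp1 Y) ^ 2 ≤ e ^ 2 := pow_le_pow_left₀ heY0 heY 2
  have bE2 : ∀ s ∈ Set.Icc (0 : ℝ) 1, ∀ a b, ‖jetE Q B Y z a b 2 s‖ ≤ 4 * Γ * e ^ 2 := by
    intro s hs' a b
    have := jetE_bd hB hYp z hz Γ hΓ0 hG hsY s (absle s hs') a b 2
    refine this.trans ?_
    have : (2 * Γ * ((Nat.factorial 2 : ℕ) : ℝ)) = 4 * Γ := by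
      norm_num [Nat.factorial]; ring
    rw [this]
    exact mul_le_mul_of_nonneg_left eY2 (by linarith)
  have bM0 : ∀ s ∈ Set.Icc (0 : ℝ) 1, ‖jetM Q B Y z 0 s‖ ≤ 2 * Γ := by
    intro s hs'
    rw [jetM_zero]
    exact FR1_mz (by linarith) (sparse_boot hB hYp z hz Γ hΓ0 hG hsY s (absle s hs'))
  have hNz1 : 1 / ((N : ℝ) * |z.im|) ≤ 1 := by
    rw [div_le_one hNz]; exact hN
  have bM1 : ∀ s ∈ Set.Icc (0 : ℝ) 1, ‖jetM Q B Y z 1 s‖ ≤ e := by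
    intro s hs'
    have := jetM_bd hB hYp z hz Γ hΓ0 hG hsY s (absle s hs') 1 le_rfl
    refine this.trans ?_
    simp only [Nat.factorial_one, Nat.cast_one, mul_one, pow_one]
    calc 1 / ((N : ℝ) * |z.im|) * (2 * Γ * sp1 Y) ≤ 1 * e :=
          mul_le_mul hNz1 heY heY0 zero_le_one
      _ = e := one_mul _
  have bM2 : ∀ s ∈ Set.Icc (0 : ℝ) 1, ‖jetM Q B Y z 2 s‖ ≤ 2 * e ^ 2 := by
    intro s hs'
    have := jetM_bd hB hYp z hz Γ hΓ0 hG hsY s (absle s hs') 2 (by norm_num)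
    refine this.trans ?_
    have h2 : ((Nat.factorial 2 : ℕ) : ℝ) = 2 := by norm_num [Nat.factorial]
    rw [h2]
    have : 1 / ((N : ℝ) * |z.im|) * 2 ≤ 2 := by linarith
    exact mul_le_mul this eY2 (by positivity) (by norm_num)
  -- resolvent along the path
  have hGs : ∀ s ∈ Set.Icc (0 : ℝ) 1, EnLe (Gz Q (B + s • Y) z) (2 * Γ) := fun s hs' =>
    sparse_boot hB hYp z hz Γ hΓ0 hG hsY s (absle s hs')
  have hYne : ∀ b c, Y b c ≠ 0 → Y0 b c ≠ 0 := by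
    intro b c hbc h3
    apply hbc
    rw [hYdef, Matrix.smul_apply, h3, smul_zero]
  have hb1 : ∀ s ∈ Set.Icc (0 : ℝ) 1, ∀ b c, Y0 b c ≠ 0 →
      ‖(toC H * Gz Q (B + s • Y) z) x b‖ ≤ 2 * h := by
    intro s hs' b c hbc
    have hPs : PB Q (B + s • Y) := by
      have := pb_add hB hYp 1 s
      simpa using this
    have k1 := gz_pert hB hPs z hz
    have k2 : toC (B - (B + s • Y)) = -((s : ℂ) • toC Y) := by
      ext i j; simp [toC]
    have k3 : Gz Q (B + s • Y) z = Gz Q B z - (s : ℂ) • (Gz Q B z * toC Y * Gz Q (B + s • Y) z) := by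
      rw [k2, Matrix.mul_neg, Matrix.neg_mul, neg_neg, Matrix.mul_smul, Matrix.smul_mul] at k1
      rw [← k1]; abel
    have k4 : toC H * Gz Q (B + s • Y) z = toC H * Gz Q B z
        - (s : ℂ) • ((toC H * Gz Q B z) * toC Y * Gz Q (B + s • Y) z) := by
      conv_lhs => rw [k3]
      rw [Matrix.mul_sub, Matrix.mul_smul]
      simp only [Matrix.mul_assoc]
    rw [k4, Matrix.sub_apply, Matrix.smul_apply, smul_eq_mul]
    have k5 : ‖((toC H * Gz Q B z) * toC Y * Gz Q (B + s • Y) z) x b‖ ≤ h * sp1 Y * (2 * Γ) :=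
      FR1_row Y x b hh (by linarith) (fun b d hbd => hb b d (hYne b d hbd))
        (fun d => hGs s hs' d b)
    have k6 : ‖(s : ℂ) * ((toC H * Gz Q B z) * toC Y * Gz Q (B + s • Y) z) x b‖ ≤ h := by
      rw [norm_mul, Complex.norm_real, Real.norm_eq_abs]
      have k7 : h * sp1 Y * (2 * Γ) ≤ h := by
        have : sp1 Y * (2 * Γ) ≤ 1 := by nlinarith
        nlinarith
      calc |s| * _ ≤ 1 * h := mul_le_mul (absle s hs') (k5.trans k7) (norm_nonneg _) zero_le_one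
        _ = h := one_mul _
    calc _ ≤ ‖(toC H * Gz Q B z) x b‖
          + ‖(s : ℂ) * ((toC H * Gz Q B z) * toC Y * Gz Q (B + s • Y) z) x b‖ := norm_sub_le _ _
      _ ≤ h + h := add_le_add (hb b c hbc) k6
      _ = 2 * h := by ring
  have hb2 : ∀ s ∈ Set.Icc (0 : ℝ) 1, ∀ b c, Y b c ≠ 0 →
      ‖(toC (H + s • Y0) * Gz Q (B + s • Y) z) x b‖ ≤ 2 * h + 1 := by
    intro s hs' b c hbc
    rw [FR1_toC_add, FR1_toC_smul, Matrix.add_mul, Matrix.smul_mul, Matrix.add_apply,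
      Matrix.smul_apply, smul_eq_mul]
    have k1 : ‖(toC Y0 * Gz Q (B + s • Y) z) x b‖ ≤ sp1 Y0 * (2 * Γ) :=
      FR1_row0 Y0 x b (by linarith) (fun d => hGs s hs' d b)
    have k2 : ‖(s : ℂ) * (toC Y0 * Gz Q (B + s • Y) z) x b‖ ≤ 1 := by
      rw [norm_mul, Complex.norm_real, Real.norm_eq_abs]
      have k3 : sp1 Y0 * (2 * Γ) ≤ 1 := by nlinarith
      calc |s| * _ ≤ 1 * 1 := mul_le_mul (absle s hs') (k1.trans k3) (norm_nonneg _) zero_le_one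
        _ = 1 := one_mul _
    exact norm_add_le_of_le (hb1 s hs' b c (hYne b c hbc)) k2
  have bS0 : ∀ s ∈ Set.Icc (0 : ℝ) 1, ‖FR1_S Q B Y0 Y z x y 0 s‖ ≤ e := by
    intro s hs'
    rw [FR1_S_eq]
    simp only [pow_zero, Nat.factorial_zero, Nat.cast_one, one_mul]
    refine (FR1_row0 Y0 x y (by linarith) (fun d => hGs s hs' d y)).trans (le_of_eq ?_)
    rw [he]; ring
  have hGYG : ∀ s ∈ Set.Icc (0 : ℝ) 1, ∀ a b,
      ‖(Gz Q (B + s • Y) z * toC Y * Gz Q (B + s • Y) z) a b‖ ≤ 2 * Γ * e := by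
    intro s hs' a b
    refine (sparse_entry (hGs s hs') (hGs s hs') (by linarith) (by linarith) Y a b).trans ?_
    have : 2 * Γ * sp1 Y * (2 * Γ) = 2 * Γ * (2 * Γ * sp1 Y) := by ring
    rw [this]
    exact mul_le_mul_of_nonneg_left heY (by linarith)
  have bS1 : ∀ s ∈ Set.Icc (0 : ℝ) 1, ‖FR1_S Q B Y0 Y z x y 1 s‖ ≤ e ^ 2 := by
    intro s hs'
    rw [FR1_S_eq]
    simp only [pow_one, Nat.factorial_one, Nat.cast_one, mul_one, neg_mul, one_mul, norm_neg]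
    refine (FR1_row0 Y0 x y (c := 2 * Γ * e) (by positivity)
      (fun d => hGYG s hs' d y)).trans (le_of_eq ?_)
    rw [he]; ring
  have bT1 : ∀ s ∈ Set.Icc (0 : ℝ) 1, ‖FR1_T H Q B Y0 Y z x y 1 s‖ ≤ (2 * h + 1) * e := by
    intro s hs'
    rw [FR1_T_eq]
    simp only [pow_one, Nat.factorial_one, Nat.cast_one, mul_one, neg_mul, one_mul, norm_neg]
    rw [← Matrix.mul_assoc, ← Matrix.mul_assoc]
    refine (FR1_row Y x y (by linarith) (by linarith) (hb2 s hs')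
      (fun d => hGs s hs' d y)).trans ?_
    have : (2 * h + 1) * sp1 Y * (2 * Γ) = (2 * h + 1) * (2 * Γ * sp1 Y) := by ring
    rw [this]
    exact mul_le_mul_of_nonneg_left heY (by linarith)
  have bT2 : ∀ s ∈ Set.Icc (0 : ℝ) 1, ‖FR1_T H Q B Y0 Y z x y 2 s‖
      ≤ 2 * ((2 * h + 1) * e ^ 2) := by
    intro s hs'
    rw [FR1_T_eq]
    have k1 : toC (H + s • Y0) * ((Gz Q (B + s • Y) z * toC Y) ^ 2 * Gz Q (B + s • Y) z)
        = (toC (H + s • Y0) * Gz Q (B + s • Y) z) * toC Y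
          * (Gz Q (B + s • Y) z * toC Y * Gz Q (B + s • Y) z) := by
      rw [pow_two]
      simp only [Matrix.mul_assoc]
    rw [k1, norm_mul]
    have k2 : ‖((-1 : ℂ)) ^ 2 * ((Nat.factorial 2 : ℕ) : ℂ)‖ = 2 := by
      norm_num [Nat.factorial]
    rw [k2]
    refine mul_le_mul_of_nonneg_left ?_ (by norm_num)
    refine (FR1_row Y x y (c := 2 * Γ * e) (by linarith) (by positivity) (hb2 s hs')
      (fun d => hGYG s hs' d y)).trans ?_
    have : (2 * h + 1) * sp1 Y * (2 * Γ * e) = (2 * h + 1) * ((2 * Γ * sp1 Y) * e) := by ring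
    rw [this]
    refine mul_le_mul_of_nonneg_left ?_ (by linarith)
    nlinarith
  -- bounds of R1, R2
  have bR1 : ∀ s ∈ Set.Icc (0 : ℝ) 1, ‖R1 s‖ ≤ A * e := by
    intro s hs'
    have k1 : ‖R1 s‖ ≤ (e + (2 * h + 1) * e) + (e * (2 * Γ) + (2 * Γ) * (2 * Γ * e)) := by
      refine norm_add_le_of_le (norm_add_le_of_le (bS0 s hs') (bT1 s hs')) ((hα' _).trans ?_)
      refine norm_add_le_of_le ?_ ?_
      · rw [norm_mul]
        exact mul_le_mul (bM1 s hs') (bE0 s hs' x y) (norm_nonneg _) he0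
      · rw [norm_mul]
        exact mul_le_mul (bM0 s hs') (bE1 s hs' x y) (norm_nonneg _) (by linarith)
    refine k1.trans ?_
    have k2 : (e + (2 * h + 1) * e) + (e * (2 * Γ) + (2 * Γ) * (2 * Γ * e))
        = (2 + 2 * h + 2 * Γ + 4 * Γ ^ 2) * e := by ring
    rw [k2]
    refine mul_le_mul_of_nonneg_right ?_ he0
    rw [hA]
    nlinarith
  have bR2 : ∀ s ∈ Set.Icc (0 : ℝ) 1, ‖R2 s‖ ≤ A * e ^ 2 := by
    intro s hs'
    have k1 : ‖R2 s‖ ≤ (e ^ 2 + (e ^ 2 + 2 * ((2 * h + 1) * e ^ 2)))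
        + (((2 * e ^ 2) * (2 * Γ) + e * (2 * Γ * e)) + (e * (2 * Γ * e)
          + (2 * Γ) * (4 * Γ * e ^ 2))) := by
      refine norm_add_le_of_le (norm_add_le_of_le (bS1 s hs')
        (norm_add_le_of_le (bS1 s hs') (bT2 s hs'))) ((hα' _).trans ?_)
      refine norm_add_le_of_le (norm_add_le_of_le ?_ ?_) (norm_add_le_of_le ?_ ?_)
      · rw [norm_mul]
        exact mul_le_mul (bM2 s hs') (bE0 s hs' x y) (norm_nonneg _) (by positivity)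
      · rw [norm_mul]
        exact mul_le_mul (bM1 s hs') (bE1 s hs' x y) (norm_nonneg _) he0
      · rw [norm_mul]
        exact mul_le_mul (bM1 s hs') (bE1 s hs' x y) (norm_nonneg _) he0
      · rw [norm_mul]
        exact mul_le_mul (bM0 s hs') (bE2 s hs' x y) (norm_nonneg _) (by linarith)
    refine k1.trans ?_
    have k2 : (e ^ 2 + (e ^ 2 + 2 * ((2 * h + 1) * e ^ 2)))
        + (((2 * e ^ 2) * (2 * Γ) + e * (2 * Γ * e)) + (e * (2 * Γ * e)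
          + (2 * Γ) * (4 * Γ * e ^ 2))) = (4 + 4 * h + 8 * Γ + 8 * Γ ^ 2) * e ^ 2 := by ring
    rw [k2]
    refine mul_le_mul_of_nonneg_right ?_ (by positivity)
    rw [hA]
    nlinarith
  have R0z : R0 0 = rf H Q B α z x y := by
    have := FR1_R0 (H := H) (Q := Q) (B := B) (Y0 := Y0) (Y := Y) α z x y 0
    simpa using this
  have bR0 : ∀ s ∈ Set.Icc (0 : ℝ) 1, ‖R0 s‖ ≤ ρ := by
    intro s hs'
    have k1 := Convex.norm_image_sub_le_of_norm_hasDerivWithin_le (f := R0) (f' := R1)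
      (s := Set.Icc (0 : ℝ) 1) (C := A * e)
      (fun t _ => (dR0 t).hasDerivWithinAt) bR1 (convex_Icc 0 1) (Set.left_mem_Icc.2 zero_le_one) hs'
    have k2 : ‖s - 0‖ ≤ 1 := by
      rw [sub_zero, Real.norm_eq_abs]; exact absle s hs'
    have k3 : A * e * ‖s - 0‖ ≤ A := by
      have : A * e ≤ A := by nlinarith
      have h4 : 0 ≤ A * e := by positivity
      nlinarith [norm_nonneg (s - 0)]
    have k4 : ‖R0 s‖ ≤ ‖R0 0‖ + ‖R0 s - R0 0‖ := by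
      have : R0 s = R0 0 + (R0 s - R0 0) := by ring
      conv_lhs => rw [this]
      exact norm_add_le _ _
    rw [R0z] at k4 k1
    rw [hρ]
    have h5 : A ≤ 40 * Γ ^ 2 * (1 + h) := by
      rw [hA]; nlinarith [mul_nonneg (sq_nonneg Γ) hh]
    linarith
  -- trapezoid
  have tr := trap2 (fun s => jetE Q B Y z u y 0 s * PsiF p (R0 s))
    (fun s => jetE Q B Y z u y 1 s * PsiF p (R0 s) + jetE Q B Y z u y 0 s * dPsi p (R0 s) (R1 s))
    (fun s => (jetE Q B Y z u y 2 s * PsiF p (R0 s) + jetE Q B Y z u y 1 s * dPsi p (R0 s) (R1 s))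
      + (jetE Q B Y z u y 1 s * dPsi p (R0 s) (R1 s)
        + jetE Q B Y z u y 0 s * FR1_dd p (R0 s) (R1 s) (R2 s)))
    (fun s => (jet_entry hB hYp z hz u y 0 s).mul (hasDeriv_psi p R0 (R1 s) s (dR0 s)))
    (fun s => ((jet_entry hB hYp z hz u y 1 s).mul (hasDeriv_psi p R0 (R1 s) s (dR0 s))).add
      ((jet_entry hB hYp z hz u y 0 s).mul (FR1_dd_der p R0 R1 (R2 s) s (dR0 s) (dR1 s))))
    (100 * (p : ℝ) ^ 2 * Γ * e ^ 2 * ρ ^ (2 * p - 1)) (by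
      intro s hs'
      have c0 := bR0 s hs'
      have c1 : ‖R1 s‖ ≤ ρ * e := (bR1 s hs').trans (mul_le_mul_of_nonneg_right hAρ he0)
      have c2 : ‖R2 s‖ ≤ ρ * e ^ 2 :=
        (bR2 s hs').trans (mul_le_mul_of_nonneg_right hAρ (by positivity))
      have p1 : ‖PsiF p (R0 s)‖ ≤ ρ ^ (2 * p - 1) := by
        rw [norm_psi p (by omega)]
        exact pow_le_pow_left₀ (norm_nonneg _) c0 _
      have p2 : ‖dPsi p (R0 s) (R1 s)‖ ≤ 2 * p * ρ ^ (2 * p - 1) * e := by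
        refine (norm_dpsi p hp _ _).trans ?_
        have : ρ ^ (2 * p - 1) = ρ ^ (2 * p - 2) * ρ := by
          rw [← pow_succ]; congr 1; omega
        rw [this]
        calc 2 * (p : ℝ) * ‖R0 s‖ ^ (2 * p - 2) * ‖R1 s‖ ≤ 2 * (p : ℝ) * ρ ^ (2 * p - 2) * (ρ * e) :=
              mul_le_mul (mul_le_mul_of_nonneg_left (pow_le_pow_left₀ (norm_nonneg _) c0 _)
                (by positivity)) c1 (norm_nonneg _) (by positivity)
          _ = _ := by ring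
      have p3 := FR1_dd_bd p hp (R0 s) (R1 s) (R2 s) ρ e hρ0 he0 c0 c1 c2
      have k1 : ‖(jetE Q B Y z u y 2 s * PsiF p (R0 s)
            + jetE Q B Y z u y 1 s * dPsi p (R0 s) (R1 s))
          + (jetE Q B Y z u y 1 s * dPsi p (R0 s) (R1 s)
            + jetE Q B Y z u y 0 s * FR1_dd p (R0 s) (R1 s) (R2 s))‖
          ≤ ((4 * Γ * e ^ 2) * ρ ^ (2 * p - 1) + (2 * Γ * e) * (2 * p * ρ ^ (2 * p - 1) * e))
            + ((2 * Γ * e) * (2 * p * ρ ^ (2 * p - 1) * e)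
              + (2 * Γ) * (6 * (p : ℝ) ^ 2 * (ρ ^ (2 * p - 1) * e ^ 2))) := by
        refine norm_add_le_of_le (norm_add_le_of_le ?_ ?_) (norm_add_le_of_le ?_ ?_)
        · rw [norm_mul]
          exact mul_le_mul (bE2 s hs' u y) p1 (norm_nonneg _) (by positivity)
        · rw [norm_mul]
          exact mul_le_mul (bE1 s hs' u y) p2 (norm_nonneg _) (by positivity)
        · rw [norm_mul]
          exact mul_le_mul (bE1 s hs' u y) p2 (norm_nonneg _) (by positivity)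
        · rw [norm_mul]
          exact mul_le_mul (bE0 s hs' u y) p3 (norm_nonneg _) (by positivity)
      refine k1.trans ?_
      have hpr : (2 : ℝ) ≤ p := by exact_mod_cast hp
      have k2 : ((4 * Γ * e ^ 2) * ρ ^ (2 * p - 1) + (2 * Γ * e) * (2 * p * ρ ^ (2 * p - 1) * e))
            + ((2 * Γ * e) * (2 * p * ρ ^ (2 * p - 1) * e)
              + (2 * Γ) * (6 * (p : ℝ) ^ 2 * (ρ ^ (2 * p - 1) * e ^ 2)))
          = (4 + 8 * p + 12 * (p : ℝ) ^ 2) * (Γ * e ^ 2 * ρ ^ (2 * p - 1)) := by ring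
      have k3 : 100 * (p : ℝ) ^ 2 * Γ * e ^ 2 * ρ ^ (2 * p - 1)
          = (100 * (p : ℝ) ^ 2) * (Γ * e ^ 2 * ρ ^ (2 * p - 1)) := by ring
      rw [k2, k3]
      refine mul_le_mul_of_nonneg_right ?_ (by positivity)
      nlinarith)
  have a0 : R0 1 = rf (H + Y0) Q (B + Y) α z x y := by
    have := FR1_R0 (H := H) (Q := Q) (B := B) (Y0 := Y0) (Y := Y) α z x y 1
    simpa using this
  have a1 : R1 0 = drf H Q B α Y0 Y z x y := by
    have := FR1_R1 (H := H) (Q := Q) (B := B) (Y0 := Y0) (Y := Y) α z x y 0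
    rw [zero_smul, zero_smul, add_zero, add_zero] at this
    exact this
  have a2 : R1 1 = drf (H + Y0) Q (B + Y) α Y0 Y z x y := by
    have := FR1_R1 (H := H) (Q := Q) (B := B) (Y0 := Y0) (Y := Y) α z x y 1
    rw [one_smul, one_smul] at this
    exact this
  simp only [FR1_E1, jetE_zero, a0, a1, a2, R0z, one_smul, zero_smul, add_zero] at tr
  exact tr

end Pool.Agent.ZR.F

end

section

/-!
# ZR/MComp : comparison of products of linear statistics of two random families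

PROOF.  Let `R` bound the supports of the `φ j` (scaled by `1/κ`: `|v_j / (n ρ)| ≤ R0/(n κ)`, so
`R = R0/κ`), `c = n ρ`, `h = n ρ η ≤ 1`, so `h / c = η`.
`|E₁ ∏ linF(x₁) φ_j - E₂ ∏ linF(x₂) φ_j| ≤ ∑_{i=1,2} E_i |∏ linF(x_i) (smo φ_j h) - ∏ linF(x_i) φ_j|
 + |E₁ ∏ linF (smo) - E₂ ∏ linF (smo)|`.
First two terms: `prod_smo_sub`, `sum_le_imF`: `≤ C h^(1/2) (1+1/κ²)^k E_i (imF n x_i y (1/n))^k
 ≤ C' (nη)^(1/2) M` (`h ≤ n η` since `ρ ≤ 1`).
Last term: `prod_smo_eq` and Fubini (`integral_integral_swap`; the integrand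
`(ω,v) ↦ ∏ φ_j(v_j) ∏ imF n (x ω) (y+v_j/c) η` is bounded by `const * ∏|φ_j(v_j)|`, jointly measurable:
`imF_cont` composed with measurable maps): it equals `(1/(πρ))^k |∫ ∏φ_j(v_j) (E₁∏imF - E₂∏imF) dv|
 ≤ (1/(πκ))^k (∏ ∫|φ_j|) e` (the difference is only needed when all `φ_j(v_j) ≠ 0`, where
`|v_j / c| ≤ R/n`).
Everything is integrable: `linF` of a bounded continuous function of a measurable family, `imF_le`.
-/


open MeasureTheory

namespace Pool.Agent.ZR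

private theorem exists_supp {k : ℕ} (φ : Fin k → ℝ → ℝ) (hφ : ∀ j, Tst (φ j)) :
    ∃ R0 : ℝ, 0 < R0 ∧ ∀ j v, φ j v ≠ 0 → |v| ≤ R0 := by
  have h1 : ∀ j, ∃ r : ℝ, 0 ≤ r ∧ ∀ v, φ j v ≠ 0 → |v| ≤ r := by
    intro j
    obtain ⟨r, hr⟩ := (hφ j).2.isCompact.isBounded.subset_closedBall 0
    refine ⟨max r 0, le_max_right _ _, fun v hv => ?_⟩
    have h2 : v ∈ Metric.closedBall (0 : ℝ) r := hr (subset_tsupport _ hv)
    rw [Metric.mem_closedBall, Real.dist_eq, sub_zero] at h2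
    exact h2.trans (le_max_left _ _)
  choose r hr0 hr using h1
  refine ⟨1 + ∑ j, r j, ?_, fun j v hv => ?_⟩
  · have : 0 ≤ ∑ j, r j := Finset.sum_nonneg fun j _ => hr0 j
    linarith
  · have h3 : r j ≤ ∑ j, r j := Finset.single_le_sum (fun j _ => hr0 j) (Finset.mem_univ j)
    have := hr j v hv
    linarith

private theorem linF_bd {N : ℕ} (x : Fin N → ℝ) {φ : ℝ → ℝ} {C : ℝ}
    (hC : ∀ u, |φ u| ≤ C) (c y : ℝ) : |linF x φ c y| ≤ N * C := by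
  unfold linF
  refine (Finset.abs_sum_le_sum_abs _ _).trans ?_
  refine (Finset.sum_le_sum fun i _ => hC _).trans ?_
  simp

private theorem prod_linF_integrable {k N : ℕ} {Ω : Type} [MeasurableSpace Ω] (Q : Measure Ω)
    [IsProbabilityMeasure Q] {x : Ω → Fin N → ℝ} (hx : Measurable x) {ψ : Fin k → ℝ → ℝ}
    (hψ : ∀ j, Continuous (ψ j)) (hb : ∀ j, ∃ C, ∀ u, |ψ j u| ≤ C) (c y : ℝ) :
    Integrable (fun ω => ∏ j, linF (x ω) (ψ j) c y) Q := by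
  choose C hC using hb
  refine Integrable.mono' (integrable_const (∏ j, (N : ℝ) * C j)) ?_ ?_
  · refine Measurable.aestronglyMeasurable ?_
    refine Finset.measurable_fun_prod _ fun j _ => ?_
    have := (linF_cont (N := N) (hψ j)).measurable.comp
      (hx.prodMk (measurable_const (a := (c, y))))
    exact this
  · filter_upwards with ω
    rw [Real.norm_eq_abs, Finset.abs_prod]
    exact Finset.prod_le_prod (fun j _ => abs_nonneg _) fun j _ => linF_bd _ (hC j) c y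

private theorem tst_bounded {φ : ℝ → ℝ} (hφ : Tst φ) : ∃ C, ∀ u, |φ u| ≤ C := by
  obtain ⟨C, hC0, hC⟩ := tst_bd hφ
  refine ⟨C, fun u => (hC u).trans ?_⟩
  exact div_le_self hC0 (by nlinarith [sq_nonneg u])

private theorem smo_bounded {φ : ℝ → ℝ} (hφ : Tst φ) {h : ℝ} (hh : 0 < h) (h1 : h ≤ 1) :
    ∃ C, ∀ u, |smo φ h u| ≤ C := by
  obtain ⟨C, hC0, hC⟩ := smo_bd hφ
  refine ⟨C, fun u => (hC h u hh h1).trans ?_⟩
  exact div_le_self hC0 (by nlinarith [sq_nonneg u])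

private theorem imF_abs_le (n : ℕ) {N : ℕ} (x : Fin N → ℝ) (y : ℝ) {η : ℝ} (hη : 0 < η) :
    |imF n x y η| ≤ (N : ℝ) / n / η := by
  rw [abs_of_nonneg (imF_nonneg n x y hη.le)]
  exact imF_le n x y hη

private theorem imF_meas (n : ℕ) {N : ℕ} {Ω : Type*} [MeasurableSpace Ω]
    {x : Ω → Fin N → ℝ} (hx : Measurable x) {w : Ω → ℝ} (hw : Measurable w) {η : ℝ}
    (hη : 0 < η) : Measurable (fun ω => imF n (x ω) (w ω) η) := by
  have h1 : Measurable (fun p : (Fin N → ℝ) × ℝ => imF n p.1 p.2 η) :=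
    (imF_cont (N := N) n hη).measurable
  have h2 : Measurable (fun ω => (x ω, w ω)) := hx.prodMk hw
  have h3 := h1.comp h2
  rw [Function.comp_def] at h3
  exact h3

private theorem imF_pow_integrable (n : ℕ) {k N : ℕ} {Ω : Type} [MeasurableSpace Ω]
    (Q : Measure Ω) [IsProbabilityMeasure Q] {x : Ω → Fin N → ℝ} (hx : Measurable x) (y : ℝ)
    {η : ℝ} (hη : 0 < η) : Integrable (fun ω => (imF n (x ω) y η) ^ k) Q := by
  refine Integrable.mono' (integrable_const (((N : ℝ) / n / η) ^ k)) ?_ ?_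
  · exact ((imF_meas n hx measurable_const hη).pow_const k).aestronglyMeasurable
  · filter_upwards with ω
    rw [Real.norm_eq_abs, abs_pow]
    exact pow_le_pow_left₀ (abs_nonneg _) (imF_abs_le n _ y hη) k

private theorem tst_integrable31 {φ : ℝ → ℝ} (hφ : Tst φ) : Integrable φ :=
  hφ.1.continuous.integrable_of_hasCompactSupport hφ.2

private theorem prod_tst_integrable {k : ℕ} (φ : Fin k → ℝ → ℝ) (hφ : ∀ j, Tst (φ j)) :
    Integrable (fun v : Fin k → ℝ => ∏ j, φ j (v j)) :=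
  Integrable.fintype_prod fun j => tst_integrable31 (hφ j)

private theorem fub_integrable {k : ℕ} (n : ℕ) {N : ℕ} (φ : Fin k → ℝ → ℝ)
    (hφ : ∀ j, Tst (φ j)) {Ω : Type} [MeasurableSpace Ω] (Q : Measure Ω)
    [IsProbabilityMeasure Q] {x : Ω → Fin N → ℝ} (hx : Measurable x) (c y : ℝ) {η : ℝ}
    (hη : 0 < η) :
    Integrable (fun p : Ω × (Fin k → ℝ) =>
      (∏ j, φ j (p.2 j)) * ∏ j, imF n (x p.1) (y + p.2 j / c) η)
      (Q.prod (volume : Measure (Fin k → ℝ))) := by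
  have h1 : Integrable (fun p : Ω × (Fin k → ℝ) =>
      (((N : ℝ) / n / η) ^ k) * (∏ j, φ j (p.2 j)))
      (Q.prod (volume : Measure (Fin k → ℝ))) :=
    Integrable.mul_prod (f := fun _ : Ω => (((N : ℝ) / n / η) ^ k))
      (integrable_const _) (prod_tst_integrable φ hφ)
  refine Integrable.mono h1 ?_ ?_
  · refine Measurable.aestronglyMeasurable ?_
    refine Measurable.mul ?_ ?_
    · refine Finset.measurable_fun_prod _ fun j _ => ?_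
      exact (hφ j).1.continuous.measurable.comp ((measurable_pi_apply j).comp measurable_snd)
    · refine Finset.measurable_fun_prod _ fun j _ => ?_
      have m1 : Measurable (fun p : Ω × (Fin k → ℝ) => x p.1) := hx.comp measurable_fst
      have m2 : Measurable (fun p : Ω × (Fin k → ℝ) => p.2 j) :=
        (measurable_pi_apply j).comp measurable_snd
      have m3 : Measurable (fun p : Ω × (Fin k → ℝ) => y + p.2 j / c) :=
        (m2.div_const c).const_add y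
      exact imF_meas n m1 m3 hη
  · filter_upwards with p
    rw [norm_mul, norm_mul, mul_comm]
    refine mul_le_mul_of_nonneg_right ?_ (norm_nonneg _)
    rw [Real.norm_eq_abs, Real.norm_eq_abs, Finset.abs_prod]
    have h2 : ∏ j : Fin k, |imF n (x p.1) (y + p.2 j / c) η|
        ≤ ∏ _j : Fin k, ((N : ℝ) / n / η) :=
      Finset.prod_le_prod (fun j _ => abs_nonneg _) fun j _ => imF_abs_le n _ _ hη
    rw [Finset.prod_const, Finset.card_univ, Fintype.card_fin] at h2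
    exact h2.trans (le_abs_self _)

private theorem fub {k n N : ℕ} (hn : 0 < n) (φ : Fin k → ℝ → ℝ) (hφ : ∀ j, Tst (φ j))
    {Ω : Type} [MeasurableSpace Ω] (Q : Measure Ω) [IsProbabilityMeasure Q]
    {x : Ω → Fin N → ℝ} (hx : Measurable x) {c : ℝ} (hc : 0 < c) (y : ℝ) {h : ℝ}
    (hh : 0 < h) :
    ∫ ω, ∏ j, linF (x ω) (smo (φ j) h) c y ∂Q
      = ((n : ℝ) / (Real.pi * c)) ^ k * ∫ v : Fin k → ℝ,
        (∏ j, φ j (v j)) * ∫ ω, ∏ j, imF n (x ω) (y + v j / c) (h / c) ∂Q := by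
  have h1 : ∀ ω, ∏ j, linF (x ω) (smo (φ j) h) c y = ((n : ℝ) / (Real.pi * c)) ^ k *
        ∫ v : Fin k → ℝ, (∏ j, φ j (v j)) * ∏ j, imF n (x ω) (y + v j / c) (h / c) :=
    fun ω => prod_smo_eq hn (x ω) φ hφ hc y hh
  simp_rw [h1]
  rw [integral_const_mul]
  congr 1
  rw [integral_integral_swap (fub_integrable n φ hφ Q hx c y (div_pos hh hc))]
  simp_rw [integral_const_mul]

private theorem single {k : ℕ} (φ : Fin k → ℝ → ℝ) (hφ : ∀ j, Tst (φ j)) :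
    ∃ C0 : ℝ, 0 ≤ C0 ∧ ∀ (n N : ℕ), 0 < n → ∀ (Ω : Type) [MeasurableSpace Ω]
      (Q : Measure Ω) [IsProbabilityMeasure Q] (x : Ω → Fin N → ℝ), Measurable x →
      ∀ (κ y c h M : ℝ), 0 < κ → κ * n ≤ c → 0 < h → h ≤ 1 →
      (∫ ω, (imF n (x ω) y (1 / (n : ℝ))) ^ k ∂Q ≤ M) →
      |∫ ω, ∏ j, linF (x ω) (smo (φ j) h) c y ∂Q - ∫ ω, ∏ j, linF (x ω) (φ j) c y ∂Q|
        ≤ C0 * h ^ (1 / 2 : ℝ) * (1 + 1 / κ ^ 2) ^ k * M := by
  obtain ⟨C0, hC0, hC⟩ := prod_smo_sub φ hφ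
  refine ⟨C0, hC0, fun n N hn Ω _ Q _ x hx κ y c h M hκ hc hh h1 hM => ?_⟩
  have hn' : (0 : ℝ) < 1 / (n : ℝ) := by positivity
  have i1 : Integrable (fun ω => ∏ j, linF (x ω) (smo (φ j) h) c y) Q :=
    prod_linF_integrable Q hx (fun j => smo_cont (hφ j) hh)
      (fun j => smo_bounded (hφ j) hh h1) c y
  have i2 : Integrable (fun ω => ∏ j, linF (x ω) (φ j) c y) Q :=
    prod_linF_integrable Q hx (fun j => (hφ j).1.continuous)
      (fun j => tst_bounded (hφ j)) c y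
  have i3 : Integrable (fun ω => (imF n (x ω) y (1 / (n : ℝ))) ^ k) Q :=
    imF_pow_integrable n Q hx y hn'
  rw [← integral_sub i1 i2]
  refine (abs_integral_le_integral_abs).trans ?_
  have hp : 0 ≤ C0 * h ^ (1 / 2 : ℝ) * (1 + 1 / κ ^ 2) ^ k := by positivity
  have h2 : ∫ ω, |∏ j, linF (x ω) (smo (φ j) h) c y - ∏ j, linF (x ω) (φ j) c y| ∂Q
      ≤ ∫ ω, (C0 * h ^ (1 / 2 : ℝ) * (1 + 1 / κ ^ 2) ^ k) *
          (imF n (x ω) y (1 / (n : ℝ))) ^ k ∂Q := by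
    refine integral_mono (i1.sub i2).abs (i3.const_mul _) fun ω => ?_
    refine (hC (x ω) c y h hh h1).trans ?_
    have h3 := sum_le_imF hn (x ω) y hκ hc
    have h4 : 0 ≤ ∑ i, 1 / (1 + (c * (x ω i - y)) ^ 2) :=
      Finset.sum_nonneg fun i _ => by positivity
    have h5 := pow_le_pow_left₀ h4 h3 k
    rw [mul_pow] at h5
    calc C0 * h ^ (1 / 2 : ℝ) * (∑ i, 1 / (1 + (c * (x ω i - y)) ^ 2)) ^ k
        ≤ C0 * h ^ (1 / 2 : ℝ) * ((1 + 1 / κ ^ 2) ^ k * (imF n (x ω) y (1 / (n : ℝ))) ^ k) :=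
          mul_le_mul_of_nonneg_left h5 (by positivity)
      _ = (C0 * h ^ (1 / 2 : ℝ) * (1 + 1 / κ ^ 2) ^ k) *
          (imF n (x ω) y (1 / (n : ℝ))) ^ k := by ring
  refine h2.trans ?_
  rw [integral_const_mul]
  exact mul_le_mul_of_nonneg_left hM hp

theorem smooth_compare {k : ℕ} (φ : Fin k → ℝ → ℝ) (hφ : ∀ j, Tst (φ j)) (κ : ℝ) (hκ : 0 < κ) :
    ∃ C R : ℝ, 0 ≤ C ∧ 0 < R ∧ ∀ (n N1 N2 : ℕ), 0 < n →
      ∀ (Ω1 Ω2 : Type) [MeasurableSpace Ω1] [MeasurableSpace Ω2]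
        (Q1 : Measure Ω1) (Q2 : Measure Ω2) [IsProbabilityMeasure Q1] [IsProbabilityMeasure Q2]
        (x1 : Ω1 → Fin N1 → ℝ) (x2 : Ω2 → Fin N2 → ℝ), Measurable x1 → Measurable x2 →
      ∀ (y ρ η e M : ℝ), κ ≤ ρ → ρ ≤ 1 → 0 < η → (n : ℝ) * η ≤ 1 → 0 ≤ e →
        (∀ w : Fin k → ℝ, (∀ j, |w j - y| ≤ R / n) →
          |∫ ω, ∏ j, imF n (x1 ω) (w j) η ∂Q1 - ∫ ω, ∏ j, imF n (x2 ω) (w j) η ∂Q2| ≤ e) →
        (∫ ω, (imF n (x1 ω) y (1 / (n : ℝ))) ^ k ∂Q1 ≤ M) →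
        (∫ ω, (imF n (x2 ω) y (1 / (n : ℝ))) ^ k ∂Q2 ≤ M) →
        |∫ ω, ∏ j, linF (x1 ω) (φ j) ((n : ℝ) * ρ) y ∂Q1
          - ∫ ω, ∏ j, linF (x2 ω) (φ j) ((n : ℝ) * ρ) y ∂Q2|
          ≤ C * (e + ((n : ℝ) * η) ^ (1 / 2 : ℝ) * M) := by
  obtain ⟨C0, hC0, hC⟩ := single φ hφ
  obtain ⟨R0, hR0, hR⟩ := exists_supp φ hφ
  have hI0 : 0 ≤ ∏ j, ∫ v, |φ j v| :=
    Finset.prod_nonneg fun j _ => integral_nonneg fun v => abs_nonneg _
  have hK0 : 0 ≤ (1 / (Real.pi * κ)) ^ k := by positivity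
  refine ⟨2 * (C0 * (1 + 1 / κ ^ 2) ^ k) + (1 / (Real.pi * κ)) ^ k * ∏ j, ∫ v, |φ j v|,
    R0 / κ, by positivity, by positivity, ?_⟩
  intro n N1 N2 hn Ω1 Ω2 _ _ Q1 Q2 _ _ x1 x2 hx1 hx2 y ρ η e M hκρ hρ1 hη hnη he hE hM1 hM2
  have hn' : (0 : ℝ) < n := by exact_mod_cast hn
  have hρ : 0 < ρ := lt_of_lt_of_le hκ hκρ
  have hc : (0 : ℝ) < (n : ℝ) * ρ := by positivity
  have hcκ : κ * n ≤ (n : ℝ) * ρ := by
    rw [mul_comm]; exact mul_le_mul_of_nonneg_left hκρ hn'.le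
  have hh : 0 < (n : ℝ) * ρ * η := by positivity
  have hhn : (n : ℝ) * ρ * η ≤ n * η := by
    have : (n : ℝ) * ρ ≤ n := by nlinarith
    exact mul_le_mul_of_nonneg_right this hη.le
  have hh1 : (n : ℝ) * ρ * η ≤ 1 := hhn.trans hnη
  have hhc : (n : ℝ) * ρ * η / ((n : ℝ) * ρ) = η := by field_simp
  have hM0 : 0 ≤ M := by
    refine le_trans (integral_nonneg fun ω => ?_) hM1
    exact pow_nonneg (imF_nonneg n _ _ (by positivity)) k
  have hhp : ((n : ℝ) * ρ * η) ^ (1 / 2 : ℝ) ≤ ((n : ℝ) * η) ^ (1 / 2 : ℝ) :=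
    Real.rpow_le_rpow hh.le hhn (by norm_num)
  have hk0 : 0 ≤ (1 + 1 / κ ^ 2) ^ k := by positivity
  have s0 : ∀ {t : ℝ}, t ≤ C0 * ((n : ℝ) * ρ * η) ^ (1 / 2 : ℝ) * (1 + 1 / κ ^ 2) ^ k * M →
      t ≤ C0 * (1 + 1 / κ ^ 2) ^ k * (((n : ℝ) * η) ^ (1 / 2 : ℝ) * M) := by
    intro t ht
    refine ht.trans ?_
    have : C0 * (1 + 1 / κ ^ 2) ^ k * (((n : ℝ) * ρ * η) ^ (1 / 2 : ℝ) * M)
        ≤ C0 * (1 + 1 / κ ^ 2) ^ k * (((n : ℝ) * η) ^ (1 / 2 : ℝ) * M) :=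
      mul_le_mul_of_nonneg_left (mul_le_mul_of_nonneg_right hhp hM0) (by positivity)
    refine le_trans (le_of_eq ?_) this
    ring
  have s1 := s0 (hC n N1 hn Ω1 Q1 x1 hx1 κ y ((n : ℝ) * ρ) ((n : ℝ) * ρ * η) M hκ hcκ hh hh1 hM1)
  have s2 := s0 (hC n N2 hn Ω2 Q2 x2 hx2 κ y ((n : ℝ) * ρ) ((n : ℝ) * ρ * η) M hκ hcκ hh hh1 hM2)
  -- the smoothed comparison
  have s3 : |∫ ω, ∏ j, linF (x1 ω) (smo (φ j) ((n : ℝ) * ρ * η)) ((n : ℝ) * ρ) y ∂Q1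
      - ∫ ω, ∏ j, linF (x2 ω) (smo (φ j) ((n : ℝ) * ρ * η)) ((n : ℝ) * ρ) y ∂Q2|
      ≤ (1 / (Real.pi * κ)) ^ k * (∏ j, ∫ v, |φ j v|) * e := by
    rw [fub hn φ hφ Q1 hx1 hc y hh, fub hn φ hφ Q2 hx2 hc y hh, hhc, ← mul_sub]
    have j1 : Integrable (fun v : Fin k → ℝ => (∏ j, φ j (v j)) *
        ∫ ω, ∏ j, imF n (x1 ω) (y + v j / ((n : ℝ) * ρ)) η ∂Q1) := by
      have := (fub_integrable n φ hφ Q1 hx1 ((n : ℝ) * ρ) y hη).integral_prod_right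
      simpa only [integral_const_mul] using this
    have j2 : Integrable (fun v : Fin k → ℝ => (∏ j, φ j (v j)) *
        ∫ ω, ∏ j, imF n (x2 ω) (y + v j / ((n : ℝ) * ρ)) η ∂Q2) := by
      have := (fub_integrable n φ hφ Q2 hx2 ((n : ℝ) * ρ) y hη).integral_prod_right
      simpa only [integral_const_mul] using this
    rw [← integral_sub j1 j2, abs_mul, mul_assoc]
    have t1 : |((n : ℝ) / (Real.pi * ((n : ℝ) * ρ))) ^ k| ≤ (1 / (Real.pi * κ)) ^ k := by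
      have e1 : (n : ℝ) / (Real.pi * ((n : ℝ) * ρ)) = 1 / (Real.pi * ρ) := by
        field_simp
      rw [e1, abs_of_nonneg (by positivity)]
      refine pow_le_pow_left₀ (by positivity) ?_ k
      exact one_div_le_one_div_of_le (by positivity)
        (mul_le_mul_of_nonneg_left hκρ Real.pi_pos.le)
    have t2 : |∫ v : Fin k → ℝ, ((∏ j, φ j (v j)) *
          (∫ ω, ∏ j, imF n (x1 ω) (y + v j / ((n : ℝ) * ρ)) η ∂Q1)
          - (∏ j, φ j (v j)) *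
          (∫ ω, ∏ j, imF n (x2 ω) (y + v j / ((n : ℝ) * ρ)) η ∂Q2))|
        ≤ (∏ j, ∫ v, |φ j v|) * e := by
      refine (abs_integral_le_integral_abs).trans ?_
      have e2 : (∏ j, ∫ v, |φ j v|) * e = ∫ v : Fin k → ℝ, (∏ j, |φ j (v j)|) * e := by
        rw [integral_mul_const]
        congr 1
        exact (integral_fintype_prod_volume_eq_prod (fun j v => |φ j v|)).symm
      rw [e2]
      refine integral_mono (j1.sub j2).abs ?_ fun v => ?_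
      · refine Integrable.mul_const ?_ e
        have := (prod_tst_integrable φ hφ).abs
        simpa only [Finset.abs_prod] using this
      · show |(∏ j, φ j (v j)) * _ - (∏ j, φ j (v j)) * _| ≤ _
        rw [← mul_sub, abs_mul, Finset.abs_prod]
        by_cases hz : ∀ j, φ j (v j) ≠ 0
        · refine mul_le_mul_of_nonneg_left ?_ (Finset.prod_nonneg fun j _ => abs_nonneg _)
          refine hE (fun j => y + v j / ((n : ℝ) * ρ)) fun j => ?_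
          have h6 : y + v j / ((n : ℝ) * ρ) - y = v j / ((n : ℝ) * ρ) := by ring
          rw [h6, abs_div, abs_of_pos hc]
          have h7 := hR j (v j) (hz j)
          rw [div_div, div_le_div_iff₀ hc (by positivity)]
          have h8 : |v j| * (κ * n) ≤ R0 * (κ * n) :=
            mul_le_mul_of_nonneg_right h7 (by positivity)
          refine h8.trans ?_
          exact mul_le_mul_of_nonneg_left hcκ hR0.le
        · push Not at hz
          obtain ⟨j, hj⟩ := hz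
          have h9 : ∏ j, |φ j (v j)| = 0 :=
            Finset.prod_eq_zero (Finset.mem_univ j) (by rw [hj, abs_zero])
          rw [h9, zero_mul, zero_mul]
    exact mul_le_mul t1 t2 (abs_nonneg _) hK0
  set A1 := ∫ ω, ∏ j, linF (x1 ω) (φ j) ((n : ℝ) * ρ) y ∂Q1
  set A2 := ∫ ω, ∏ j, linF (x2 ω) (φ j) ((n : ℝ) * ρ) y ∂Q2
  set B1 := ∫ ω, ∏ j, linF (x1 ω) (smo (φ j) ((n : ℝ) * ρ * η)) ((n : ℝ) * ρ) y ∂Q1
  set B2 := ∫ ω, ∏ j, linF (x2 ω) (smo (φ j) ((n : ℝ) * ρ * η)) ((n : ℝ) * ρ) y ∂Q2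
  have hA : |A1 - A2| ≤ |B1 - A1| + |B2 - A2| + |B1 - B2| := by
    have h10 : A1 - A2 = -(B1 - A1) + (B2 - A2) + (B1 - B2) := by ring
    rw [h10]
    refine (abs_add_le _ _).trans ?_
    refine add_le_add ((abs_add_le _ _).trans ?_) le_rfl
    rw [abs_neg]
  have hx : 0 ≤ ((n : ℝ) * η) ^ (1 / 2 : ℝ) * M := by positivity
  have hC2 : 0 ≤ C0 * (1 + 1 / κ ^ 2) ^ k := by positivity
  have hC3 : 0 ≤ (1 / (Real.pi * κ)) ^ k * (∏ j, ∫ v, |φ j v|) := by positivity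
  refine hA.trans ?_
  nlinarith [mul_nonneg hC2 he, mul_nonneg hC3 hx]

end Pool.Agent.ZR

end

section

/-!
# ZR/MFub : Fubini for window averages

PROOF.
* `Ufull_prod`: `∏_j ∑_i φ_j(..) = ∑_{f : Fin k → Fin N} ∏_j φ_j(..)` (`Finset.prod_univ_sum`,
  `Fintype.piFinset_univ`).
* `Ufull_integral`: rewrite by `Ufull_prod`, then `∫_ω ∫_x = ∫_x ∫_ω` (`intervalIntegral.integral_of_le`,
  `integral_integral_swap`) : the integrand `(ω, x) ↦ ∏_j linF (vecS (A ω)) (φ j) (n rho x) x` is jointly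
  measurable (`linF_cont`, `vecS_meas`, `rho_cont`) and bounded by `∏_j N sup|φ_j|`.
* `window_meas`: the same measurability gives that `x ↦ ∫_ω ∏_j linF ..` is (strongly) measurable and bounded,
  hence interval integrable.
-/


open MeasureTheory ProbabilityTheory Matrix

namespace Pool.Agent.ZR

theorem Ufull_prod {k n N : ℕ} (φ : Fin k → ℝ → ℝ) (E b : ℝ) (A : Matrix (Fin N) (Fin N) ℝ) :
    Ufull n (fun v : Fin k → ℝ => ∏ j, φ j (v j)) E b A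
      = (1 / (2 * b)) * ∫ x in (E - b)..(E + b),
          ∏ j, linF (vecS A) (φ j) ((n : ℝ) * rho x) x := by
  unfold Ufull
  congr 1
  refine intervalIntegral.integral_congr fun x _ => ?_
  simp only [linF, vecS]
  rw [Finset.prod_univ_sum, Fintype.piFinset_univ]

private theorem fub_bd {k : ℕ} (φ : Fin k → ℝ → ℝ) (hφ : ∀ j, Tst (φ j)) (N : ℕ) :
    ∃ C : ℝ, 0 ≤ C ∧ ∀ (x : Fin N → ℝ) (c y : ℝ), ‖∏ j, linF x (φ j) c y‖ ≤ C := by
  have h : ∀ j, ∃ K : ℝ, ∀ u, ‖φ j u‖ ≤ K := fun j =>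
    (hφ j).1.continuous.bounded_above_of_compact_support (hφ j).2
  choose K hK using h
  have hK0 : ∀ j, 0 ≤ K j := fun j => (norm_nonneg _).trans (hK j 0)
  refine ⟨∏ j, ((N : ℝ) * K j), Finset.prod_nonneg fun j _ =>
    mul_nonneg (Nat.cast_nonneg _) (hK0 j), ?_⟩
  intro x c y
  rw [norm_prod]
  refine Finset.prod_le_prod (fun j _ => norm_nonneg _) fun j _ => ?_
  unfold linF
  refine (norm_sum_le _ _).trans ?_
  refine (Finset.sum_le_sum fun i _ => hK j _).trans ?_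
  rw [Finset.sum_const, Finset.card_univ, Fintype.card_fin, nsmul_eq_mul]

private theorem fub_meas {k n N : ℕ} (φ : Fin k → ℝ → ℝ) (hφ : ∀ j, Tst (φ j)) {Ω : Type}
    [MeasurableSpace Ω] (v : Ω → Fin N → ℝ) (hv : Measurable v) :
    Measurable (fun p : Ω × ℝ => ∏ j, linF (v p.1) (φ j) ((n : ℝ) * rho p.2) p.2) := by
  refine Finset.measurable_fun_prod _ fun j _ => ?_
  have h1 := (linF_cont (N := N) (hφ j).1.continuous).measurable
  have h2 : Measurable (fun p : Ω × ℝ => ((v p.1, ((n : ℝ) * rho p.2, p.2)) :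
      (Fin N → ℝ) × (ℝ × ℝ))) := by
    refine (hv.comp measurable_fst).prodMk (Measurable.prodMk ?_ measurable_snd)
    exact (rho_cont.measurable.comp measurable_snd).const_mul _
  exact h1.comp h2

theorem Ufull_integral {k n N : ℕ} (φ : Fin k → ℝ → ℝ) (hφ : ∀ j, Tst (φ j)) (E b : ℝ)
    (hb : 0 < b) {Ω : Type} [MeasurableSpace Ω] (Q : Measure Ω) [IsProbabilityMeasure Q]
    (A : Ω → Matrix (Fin N) (Fin N) ℝ) (hA : ∀ i j, Measurable (fun ω => A ω i j))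
    (hs : ∀ ω, (A ω).IsSymm) :
    ∫ ω, Ufull n (fun v : Fin k → ℝ => ∏ j, φ j (v j)) E b (A ω) ∂Q
      = (1 / (2 * b)) * ∫ x in (E - b)..(E + b),
          ∫ ω, ∏ j, linF (vecS (A ω)) (φ j) ((n : ℝ) * rho x) x ∂Q := by
  have hv : Measurable (fun ω => vecS (A ω)) := vecS_meas A hA hs
  simp_rw [Ufull_prod]
  rw [integral_const_mul]
  congr 1
  have hle : E - b ≤ E + b := by linarith
  simp_rw [intervalIntegral.integral_of_le hle]
  obtain ⟨C, hC0, hC⟩ := fub_bd φ hφ N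
  refine integral_integral_swap ?_
  have hm := fub_meas (n := n) φ hφ (fun ω => vecS (A ω)) hv
  have : IsFiniteMeasure (volume.restrict (Set.Ioc (E - b) (E + b))) := by
    constructor
    simp
  refine Integrable.mono' (integrable_const C) hm.aestronglyMeasurable ?_
  exact Filter.Eventually.of_forall fun p => hC _ _ _

theorem window_meas {k n N : ℕ} (φ : Fin k → ℝ → ℝ) (hφ : ∀ j, Tst (φ j)) {Ω : Type}
    [MeasurableSpace Ω] (Q : Measure Ω) [IsProbabilityMeasure Q] (v : Ω → Fin N → ℝ)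
    (hv : Measurable v) (a b : ℝ) :
    IntervalIntegrable (fun x => ∫ ω, ∏ j, linF (v ω) (φ j) ((n : ℝ) * rho x) x ∂Q)
      volume a b := by
  obtain ⟨C, hC0, hC⟩ := fub_bd φ hφ N
  have hm := fub_meas (n := n) φ hφ v hv
  have hm2 : StronglyMeasurable (fun x => ∫ ω, ∏ j, linF (v ω) (φ j) ((n : ℝ) * rho x) x ∂Q) :=
    hm.stronglyMeasurable.integral_prod_left'
  refine IntervalIntegrable.mono_fun' (g := fun _ => C) intervalIntegrable_const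
    hm2.aestronglyMeasurable ?_
  refine Filter.Eventually.of_forall fun x => ?_
  refine (norm_integral_le_of_norm_le (integrable_const C)
    (Filter.Eventually.of_forall fun ω => hC (v ω) _ _)).trans ?_
  rw [integral_const]
  simp

end Pool.Agent.ZR

end
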