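import Pool.Agent.ZRM.P09
import Pool.Agent.ZRM.P11
import Pool.Agent.ZRM.P12

/-!
# Merged form of the modules ZR.GEa, ZR.ITp, ZBL.M6, ZR.GJb, ZR.MGoe, ZBL.G10, ZR.GPb, ZR.JQwhp, ZR.MKap, ZR.D6, ZR.D7, ZR.H3
-/

set_option autoImplicit false

section

/-!
# ZR, part G: bounds for one resolvent from `GamLe` (upper half plane).

`res_shift`: if `η₁ ≤ w.im`, `GamLe E0 w.im q` holds by restriction of `u`; otherwise `gam_scale`
(with `η' = w.im < η₁`) gives `GamLe E0 w.im (η₁/w.im * q)` with `η₁/w.im ≤ q`; so in both cases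
`GamLe E0 w.im (q²)` (`q ≥ 1`); then `gam_shift` (`|w.re - E0| ≤ w.im`) and `3 q² ≤ q³`.
`res_en`: `entry_log`: `‖G‖ ≤ 1 + q³ max 0 (log (1/w.im)) ≤ 1 + q⁴ ≤ q⁵`.
`res_nu`: `nuc_gz`: `2 n (1 + q⁴) ≤ n q⁷`.
`res_hs`: `hs_gz`, `tr G = ∑ G_xx`, `Im G_xx ≤ q³` (`GamLe` at `u = w.im`; `w = ⟨w.re, w.im⟩`).
`res_hs_sq`: `hs2 (G²) ≤ ‖G‖² hs2 G` (`hs2_mul_le`, `op_gz`), `‖G‖ ≤ 1/w.im`.
`res_nu_sq`: `nu_of_hs` with `a = b = √(n q³/w.im)`.
`res_ev`: `sq_bd` with `Γ = q⁵`.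
`res_rs`, `res_rs_sq`: symmetry (`gz_symm`, `Matrix.transpose_pow`/`pow_two`) and zero row sums
(`gz_row`; `∑_y (G²)_xy = ∑_a G_xa ∑_y G_ay = 0`).
All statements for `Gz (Pn n) B w` with `PB (Pn n) B`.
-/


open MeasureTheory ProbabilityTheory Matrix

namespace Pool.Agent.ZR.G

private theorem gea_mono {N : ℕ} {Q B : Matrix (Fin N) (Fin N) ℝ} {E η Γ Γ' : ℝ}
    (hG : GamLe Q B E η Γ) (h : Γ ≤ Γ') : GamLe Q B E η Γ' :=
  fun u hu x => (hG u hu x).trans h

theorem res_shift {n : ℕ} {B : Matrix (Fin n) (Fin n) ℝ} (h : PB (Pn n) B) (w : ℂ) (E0 η₁ q : ℝ)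
    (hw : 0 < w.im) (hη₁ : 0 < η₁) (hq : 3 ≤ q) (hE : |w.re - E0| ≤ w.im) (hs : η₁ ≤ q * w.im)
    (hG : GamLe (Pn n) B E0 η₁ q) : GamLe (Pn n) B w.re w.im (q ^ 3) := by
  have h2 : GamLe (Pn n) B E0 w.im (q ^ 2) := by
    rcases le_or_gt η₁ w.im with hc | hc
    · intro u hu x
      refine (hG u (hc.trans hu) x).trans ?_
      nlinarith
    · refine gea_mono (gam_scale h E0 η₁ w.im q hw hc.le hG) ?_
      have h3 : η₁ / w.im ≤ q := by
        rw [div_le_iff₀ hw]; exact hs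
      rw [sq]
      exact mul_le_mul_of_nonneg_right h3 (by linarith)
  refine gea_mono (gam_shift h E0 w.re w.im (q ^ 2) hw hE h2) ?_
  have h4 : 0 ≤ q ^ 2 := sq_nonneg q
  calc 3 * q ^ 2 ≤ q * q ^ 2 := mul_le_mul_of_nonneg_right hq h4
    _ = q ^ 3 := by ring

private theorem gea_log {q L : ℝ} (hq : 3 ≤ q) (hL : L ≤ q) :
    1 + q ^ 3 * max 0 L ≤ q ^ 5 := by
  have h1 : max 0 L ≤ q := max_le (by linarith) hL
  have h2 : 0 ≤ q ^ 3 := by positivity
  have h3 : q ^ 3 * max 0 L ≤ q ^ 3 * q := mul_le_mul_of_nonneg_left h1 h2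
  have h4 : (1 : ℝ) ≤ q ^ 4 := one_le_pow₀ (by linarith)
  have h5 : 3 * q ^ 4 ≤ q * q ^ 4 := mul_le_mul_of_nonneg_right hq (by positivity)
  nlinarith

theorem res_en {n : ℕ} {B : Matrix (Fin n) (Fin n) ℝ} (h : PB (Pn n) B) (w : ℂ) (q : ℝ)
    (hw : 0 < w.im) (hq : 3 ≤ q) (hlog : Real.log (1 / w.im) ≤ q)
    (hG : GamLe (Pn n) B w.re w.im (q ^ 3)) : EnLe (Gz (Pn n) B w) (q ^ 5) := by
  intro x y
  have h1 := entry_log h w.re w.im (q ^ 3) hw hG (by positivity) x y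
  rw [Complex.eta] at h1
  exact h1.trans (gea_log hq hlog)

theorem res_nu {n : ℕ} {B : Matrix (Fin n) (Fin n) ℝ} (h : PB (Pn n) B) (w : ℂ) (q : ℝ)
    (hw : 0 < w.im) (hq : 3 ≤ q) (hlog : Real.log (1 / w.im) ≤ q)
    (hG : GamLe (Pn n) B w.re w.im (q ^ 3)) : NuLe (Gz (Pn n) B w) (n * q ^ 7) := by
  have h1 := nuc_gz h w.re w.im (q ^ 3) hw hG (by positivity)
  rw [Complex.eta] at h1
  refine nu_mono h1 ?_
  have h2 := gea_log hq hlog
  have hn : (0 : ℝ) ≤ n := Nat.cast_nonneg n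
  have h3 : 2 * (1 + q ^ 3 * max 0 (Real.log (1 / w.im))) ≤ q ^ 7 := by
    have h4 : (0 : ℝ) ≤ q ^ 5 := by positivity
    have h5 : 2 * q ^ 5 ≤ q ^ 2 * q ^ 5 := mul_le_mul_of_nonneg_right (by nlinarith) h4
    calc 2 * (1 + q ^ 3 * max 0 (Real.log (1 / w.im))) ≤ 2 * q ^ 5 := by linarith
      _ ≤ q ^ 2 * q ^ 5 := h5
      _ = q ^ 7 := by ring
  calc 2 * (n : ℝ) * (1 + q ^ 3 * max 0 (Real.log (1 / w.im)))
      = n * (2 * (1 + q ^ 3 * max 0 (Real.log (1 / w.im)))) := by ring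
    _ ≤ n * q ^ 7 := mul_le_mul_of_nonneg_left h3 hn

theorem res_hs {n : ℕ} {B : Matrix (Fin n) (Fin n) ℝ} (h : PB (Pn n) B) (w : ℂ) (q : ℝ)
    (hw : 0 < w.im) (hG : GamLe (Pn n) B w.re w.im (q ^ 3)) :
    hs2 (Gz (Pn n) B w) ≤ n * q ^ 3 / w.im := by
  rw [hs_gz h w hw]
  apply div_le_div_of_nonneg_right _ hw.le
  have h1 : (Gz (Pn n) B w).trace.im = ∑ x, (Gz (Pn n) B w x x).im := by
    rw [Matrix.trace, Complex.im_sum]
    rfl
  rw [h1]
  have h2 : ∀ x ∈ (Finset.univ : Finset (Fin n)), (Gz (Pn n) B w x x).im ≤ q ^ 3 := by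
    intro x _
    have h3 := hG w.im le_rfl x
    rw [Complex.eta] at h3
    exact h3
  refine (Finset.sum_le_sum h2).trans (le_of_eq ?_)
  simp

theorem res_hs_sq {n : ℕ} {B : Matrix (Fin n) (Fin n) ℝ} (h : PB (Pn n) B) (w : ℂ) (q : ℝ)
    (hw : 0 < w.im) (hG : GamLe (Pn n) B w.re w.im (q ^ 3)) :
    hs2 (Gz (Pn n) B w ^ 2) ≤ n * q ^ 3 / w.im ^ 3 := by
  rw [pow_two (Gz (Pn n) B w)]
  refine (hs2_mul_le _ _ _ (op_gz h w hw.ne')).trans ?_
  rw [abs_of_pos hw]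
  calc (1 / w.im) ^ 2 * hs2 (Gz (Pn n) B w) ≤ (1 / w.im) ^ 2 * (n * q ^ 3 / w.im) :=
        mul_le_mul_of_nonneg_left (res_hs h w q hw hG) (by positivity)
    _ = n * q ^ 3 / w.im ^ 3 := by
        field_simp

theorem res_nu_sq {n : ℕ} {B : Matrix (Fin n) (Fin n) ℝ} (h : PB (Pn n) B) (w : ℂ) (q : ℝ)
    (hw : 0 < w.im) (hq : 3 ≤ q) (hG : GamLe (Pn n) B w.re w.im (q ^ 3)) :
    NuLe (Gz (Pn n) B w ^ 2) (n * q ^ 3 / w.im) := by
  have h0 : 0 ≤ n * q ^ 3 / w.im := by positivity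
  have h1 : hs2 (Gz (Pn n) B w) ≤ Real.sqrt (n * q ^ 3 / w.im) ^ 2 := by
    rw [Real.sq_sqrt h0]; exact res_hs h w q hw hG
  have h2 := nu_of_hs (Gz (Pn n) B w) (Gz (Pn n) B w) _ _ (Real.sqrt_nonneg _)
    (Real.sqrt_nonneg _) h1 h1
  rw [Real.mul_self_sqrt h0, ← pow_two] at h2
  exact h2

theorem res_ev {n : ℕ} {B : Matrix (Fin n) (Fin n) ℝ} (h : PB (Pn n) B) (w : ℂ) (q : ℝ)
    (hw : 0 < w.im) (hq : 3 ≤ q) (hlog : Real.log (1 / w.im) ≤ q)
    (hG : GamLe (Pn n) B w.re w.im (q ^ 3)) : EnLe (Gz (Pn n) B w ^ 2) (q ^ 5 / w.im) := by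
  have h1 := sq_bd h w hw.ne' (q ^ 5) (by positivity) (res_en h w q hw hq hlog hG)
  rw [abs_of_pos hw] at h1
  exact h1

theorem res_rs {n : ℕ} {B : Matrix (Fin n) (Fin n) ℝ} (h : PB (Pn n) B) (w : ℂ)
    (hw : w.im ≠ 0) : IsRs (Gz (Pn n) B w) ∧ IsRs (Gz (Pn n) B w ^ 2) := by
  have hs := gz_symm h w hw
  have hr : ∀ i, ∑ j, Gz (Pn n) B w i j = 0 := fun i =>
    gz_row (Nat.pos_of_ne_zero (by rintro rfl; exact i.elim0)) h w hw i
  refine ⟨⟨fun i j => ?_, hr⟩, ⟨fun i j => ?_, fun i => ?_⟩⟩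
  · conv_lhs => rw [← hs]
    rfl
  · have h1 : (Gz (Pn n) B w ^ 2)ᵀ = Gz (Pn n) B w ^ 2 := by
      rw [Matrix.transpose_pow, hs]
    conv_lhs => rw [← h1]
    rfl
  · have h1 : ∀ j, (Gz (Pn n) B w ^ 2) i j = ∑ a, Gz (Pn n) B w i a * Gz (Pn n) B w a j := by
      intro j
      rw [pow_two, Matrix.mul_apply]
    rw [Finset.sum_congr rfl fun j _ => h1 j, Finset.sum_comm]
    refine Finset.sum_eq_zero fun a _ => ?_
    rw [← Finset.mul_sum, hr a, mul_zero]

/-- passage to the lower half plane -/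
theorem res_conj {n : ℕ} {B : Matrix (Fin n) (Fin n) ℝ} (h : PB (Pn n) B) (w : ℂ)
    (hw : w.im ≠ 0) : Gz (Pn n) B (starRingEnd ℂ w) = (Gz (Pn n) B w).map (starRingEnd ℂ) ∧
      Gz (Pn n) B (starRingEnd ℂ w) ^ 2 = (Gz (Pn n) B w ^ 2).map (starRingEnd ℂ) := by
  have h1 : Gz (Pn n) B (starRingEnd ℂ w) = (Gz (Pn n) B w).map (starRingEnd ℂ) := by
    ext x y
    rw [gz_conj h w hw x y, Matrix.map_apply]
  refine ⟨h1, ?_⟩
  rw [h1, pow_two, pow_two, Matrix.map_mul]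

end Pool.Agent.ZR.G

end

section

/-!
# ZR, part I (helper58): transport distance and outliers of finite families
-/


open MeasureTheory ProbabilityTheory

namespace Pool.Agent.ZR.I

/-- clipping to `[-2, 2]` -/
noncomputable def clip (s : ℝ) : ℝ := max (-2) (min s 2)

/-- outlier part -/
noncomputable def out (s : ℝ) : ℝ := max 0 (|s| - 2)

lemma out_nonneg (s : ℝ) : 0 ≤ out s := le_max_left _ _

lemma abs_sub_clip (s : ℝ) : |s - clip s| = out s := by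
  unfold clip out
  rcases le_total s (-2) with h | h
  · rw [min_eq_left (by linarith), max_eq_left h, abs_of_nonpos (by linarith), abs_of_nonpos (by linarith),
      max_eq_right (by linarith)]
    ring
  · rcases le_total s 2 with h2 | h2
    · rw [min_eq_left h2, max_eq_right h, sub_self, abs_zero]
      have : |s| ≤ 2 := abs_le.mpr ⟨h, h2⟩
      rw [max_eq_left (by linarith)]
    · rw [min_eq_right h2, max_eq_right (by norm_num : (-2 : ℝ) ≤ 2), abs_of_nonneg (by linarith : 0 ≤ s - 2),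
        abs_of_nonneg (by linarith : 0 ≤ s), max_eq_right (by linarith)]

lemma ind_meas (a : ℝ) : Measurable (fun t : ℝ => if a ≤ t then (1 : ℝ) else 0) :=
  Measurable.ite (measurableSet_le measurable_const measurable_id) measurable_const measurable_const

lemma ind_int (a c d : ℝ) : IntervalIntegrable (fun t : ℝ => if a ≤ t then (1 : ℝ) else 0) volume c d := by
  refine (continuous_const (y := (1 : ℝ))).intervalIntegrable c d |>.mono_fun (ind_meas a).aestronglyMeasurable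
    (Filter.Eventually.of_forall fun t => ?_)
  change ‖(if a ≤ t then (1 : ℝ) else 0)‖ ≤ ‖(1 : ℝ)‖
  split_ifs <;> simp

/-- weighted integral of a step function -/
lemma step_int (a : ℝ) (f : ℝ → ℝ) (hf : Continuous f) :
    ∫ t in (-2 : ℝ)..2, f t * (if a ≤ t then (1 : ℝ) else 0) = ∫ t in (clip a)..2, f t := by
  have hi : ∀ c d : ℝ, IntervalIntegrable (fun t => f t * (if a ≤ t then (1 : ℝ) else 0)) volume c d := by
    intro c d
    refine (hf.intervalIntegrable c d).mono_fun (hf.measurable.mul (ind_meas a)).aestronglyMeasurable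
      (Filter.Eventually.of_forall fun t => ?_)
    change ‖f t * (if a ≤ t then (1 : ℝ) else 0)‖ ≤ ‖f t‖
    rw [norm_mul]
    have : ‖(if a ≤ t then (1 : ℝ) else 0)‖ ≤ 1 := by split_ifs <;> simp
    exact mul_le_of_le_one_right (norm_nonneg _) this
  have hc1 : -2 ≤ clip a := le_max_left _ _
  have hc2 : clip a ≤ 2 := max_le (by norm_num) (min_le_right _ _)
  rw [← intervalIntegral.integral_add_adjacent_intervals (hi (-2) (clip a)) (hi (clip a) 2)]
  have h1 : ∫ t in (-2 : ℝ)..(clip a), f t * (if a ≤ t then (1 : ℝ) else 0) = 0 := by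
    rw [intervalIntegral.integral_of_le hc1, integral_Ioc_eq_integral_Ioo]
    refine (setIntegral_congr_fun measurableSet_Ioo (g := fun _ => (0 : ℝ)) fun t ht => ?_).trans (by simp)
    have h2 : ¬ a ≤ t := by
      intro h
      have h3 := ht.2
      unfold clip at h3
      rw [lt_max_iff, lt_min_iff] at h3
      rcases h3 with h3 | h3
      · have := ht.1; linarith
      · linarith [h3.1]
    change f t * (if a ≤ t then (1 : ℝ) else 0) = 0
    rw [if_neg h2, mul_zero]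
  have h2 : ∫ t in (clip a)..2, f t * (if a ≤ t then (1 : ℝ) else 0) = ∫ t in (clip a)..2, f t := by
    rw [intervalIntegral.integral_of_le hc2, intervalIntegral.integral_of_le hc2,
      integral_Ioc_eq_integral_Ioo, integral_Ioc_eq_integral_Ioo]
    refine setIntegral_congr_fun measurableSet_Ioo fun t ht => ?_
    have h2 : a ≤ t := by
      have h3 := ht.1
      have h4 := ht.2
      unfold clip at h3
      rw [max_lt_iff, min_lt_iff] at h3
      rcases h3.2 with h | h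
      · exact h.le
      · linarith
    change f t * (if a ≤ t then (1 : ℝ) else 0) = f t
    rw [if_pos h2, mul_one]
  rw [h1, h2, zero_add]

lemma clip_int (a : ℝ) : ∫ t in (-2 : ℝ)..2, (if a ≤ t then (1 : ℝ) else 0) = 2 - clip a := by
  have h := step_int a (fun _ => 1) continuous_const
  simp only [one_mul] at h
  rw [h]
  simp

lemma sq_int (a : ℝ) : ∫ t in (-2 : ℝ)..2, 2 * t * (if a ≤ t then (1 : ℝ) else 0) = 4 - clip a ^ 2 := by
  rw [step_int a (fun t => 2 * t) (by fun_prop), intervalIntegral.integral_const_mul, integral_id]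
  ring

/-- for sorted families the differences of indicators have a constant sign -/
lemma sorted_ind {M : ℕ} {x y : Fin M → ℝ} (hx : Monotone x) (hy : Monotone y) (t : ℝ) :
    ∑ i, |(if x i ≤ t then (1 : ℝ) else 0) - (if y i ≤ t then (1 : ℝ) else 0)| = |NN x t - NN y t| := by
  have hlx : IsLowerSet {i | x i ≤ t} := fun i j hji hi => (hx hji).trans hi
  have hly : IsLowerSet {i | y i ≤ t} := fun i j hji hi => (hy hji).trans hi
  have key : ∀ x y : Fin M → ℝ, (∀ i, x i ≤ t → y i ≤ t) →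
      ∑ i, |(if x i ≤ t then (1 : ℝ) else 0) - (if y i ≤ t then (1 : ℝ) else 0)| = |NN x t - NN y t| := by
    intro x y h
    have h1 : ∀ i, |(if x i ≤ t then (1 : ℝ) else 0) - (if y i ≤ t then (1 : ℝ) else 0)|
        = (if y i ≤ t then (1 : ℝ) else 0) - (if x i ≤ t then (1 : ℝ) else 0) := by
      intro i
      by_cases hxi : x i ≤ t
      · rw [if_pos hxi, if_pos (h i hxi)]; simp
      · rw [if_neg hxi]
        split_ifs <;> simp
    have h2 : NN x t ≤ NN y t := by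
      refine Finset.sum_le_sum fun i _ => ?_
      by_cases hxi : x i ≤ t
      · rw [if_pos hxi, if_pos (h i hxi)]
      · rw [if_neg hxi]; split_ifs <;> norm_num
    rw [abs_sub_comm, abs_of_nonneg (by linarith)]
    simp_rw [h1]
    rw [Finset.sum_sub_distrib]
    rfl
  rcases hlx.total hly with h | h
  · exact key x y fun i hi => h hi
  · have := key y x fun i hi => h hi
    rw [abs_sub_comm (NN x t)]
    rw [← this]
    exact Finset.sum_congr rfl fun i _ => abs_sub_comm _ _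

lemma NN_int {M : ℕ} (x : Fin M → ℝ) (c d : ℝ) : IntervalIntegrable (NN x) volume c d := by
  have : NN x = ∑ i, fun t => if x i ≤ t then (1 : ℝ) else 0 := by
    funext t; simp [NN]
  rw [this]
  exact IntervalIntegrable.sum _ fun i _ => ind_int (x i) c d

lemma transport {M : ℕ} {x y : Fin M → ℝ} (hx : Monotone x) (hy : Monotone y) :
    ∑ i, |clip (x i) - clip (y i)| ≤ ∫ t in (-2 : ℝ)..2, |NN x t - NN y t| := by
  have h1 : ∀ i, |clip (x i) - clip (y i)|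
      ≤ ∫ t in (-2 : ℝ)..2, |(if x i ≤ t then (1 : ℝ) else 0) - (if y i ≤ t then (1 : ℝ) else 0)| := by
    intro i
    have h2 : clip (x i) - clip (y i)
        = -∫ t in (-2 : ℝ)..2, ((if x i ≤ t then (1 : ℝ) else 0) - (if y i ≤ t then (1 : ℝ) else 0)) := by
      rw [intervalIntegral.integral_sub (ind_int _ _ _) (ind_int _ _ _), clip_int, clip_int]
      ring
    rw [h2, abs_neg]
    exact intervalIntegral.abs_integral_le_integral_abs (by norm_num)
  refine (Finset.sum_le_sum fun i _ => h1 i).trans (le_of_eq ?_)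
  rw [← intervalIntegral.integral_finsetSum]
  · exact intervalIntegral.integral_congr fun t _ => sorted_ind hx hy t
  · intro i _
    exact ((ind_int _ _ _).sub (ind_int _ _ _)).abs

lemma abs_le_clip (a b : ℝ) : |a - b| ≤ |clip a - clip b| + out a + out b := by
  have h1 : a - b = (a - clip a) + (clip a - clip b) + -(b - clip b) := by ring
  rw [h1]
  refine (abs_add_le _ _).trans ?_
  rw [abs_neg, abs_sub_clip b]
  have := abs_add_le (a - clip a) (clip a - clip b)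
  rw [abs_sub_clip a] at this
  linarith

lemma out_le (s : ℝ) : 4 * out s ≤ s ^ 2 - clip s ^ 2 := by
  unfold out clip
  rcases le_total s (-2) with h | h
  · rw [min_eq_left (by linarith), max_eq_left h, abs_of_nonpos (by linarith), max_eq_right (by linarith)]
    nlinarith
  · rcases le_total s 2 with h2 | h2
    · rw [min_eq_left h2, max_eq_right h]
      have : |s| ≤ 2 := abs_le.mpr ⟨h, h2⟩
      rw [max_eq_left (by linarith)]
      simp
    · rw [min_eq_right h2, max_eq_right (by norm_num : (-2 : ℝ) ≤ 2), abs_of_nonneg (by linarith : 0 ≤ s),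
        max_eq_right (by linarith)]
      nlinarith

/-! ### semicircle distribution function -/

lemma Fsc_hasDeriv {x : ℝ} (hx : x ∈ Set.Ioo (-2 : ℝ) 2) : HasDerivAt Fsc (rho x) x := by
  have h1 : HasDerivAt (fun x => ∫ y in (-2 : ℝ)..x, rho y) (rho x) x :=
    intervalIntegral.integral_hasDerivAt_right (rho_continuous.intervalIntegrable _ _)
      (rho_continuous.stronglyMeasurableAtFilter _ _) rho_continuous.continuousAt
  refine h1.congr_of_eventuallyEq ?_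
  filter_upwards [isOpen_Ioo.mem_nhds hx] with y hy
  exact Fsc_eq (abs_le.mpr ⟨hy.1.le, hy.2.le⟩)

lemma Fsc_continuous : Continuous Fsc := by
  have h1 : Continuous (fun x => ∫ y in (-2 : ℝ)..x, rho y) :=
    intervalIntegral.continuous_primitive (fun a b => rho_continuous.intervalIntegrable a b) _
  have h2 : Fsc = (fun x => ∫ y in (-2 : ℝ)..x, rho y) ∘ (fun x => max (-2) (min x 2)) := rfl
  rw [h2]
  exact h1.comp (by fun_prop)

lemma Fsc_neg_two : Fsc (-2) = 0 := by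
  rw [Fsc_eq (by norm_num)]; simp

lemma Fsc_two : Fsc 2 = 1 := by
  rw [Fsc_eq (by norm_num), rho_int]

lemma Fsc_sub {s t : ℝ} (hs : |s| ≤ 2) (ht : |t| ≤ 2) : Fsc t - Fsc s = ∫ y in s..t, rho y := by
  rw [Fsc_eq hs, Fsc_eq ht, intervalIntegral.integral_interval_sub_left
    (rho_continuous.intervalIntegrable _ _) (rho_continuous.intervalIntegrable _ _)]

lemma Fsc_mono {s t : ℝ} (hs : -2 ≤ s) (hst : s ≤ t) (ht : t ≤ 2) : Fsc s ≤ Fsc t := by
  have h1 := Fsc_sub (s := s) (t := t) (abs_le.mpr ⟨hs, by linarith⟩) (abs_le.mpr ⟨by linarith, ht⟩)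
  have h2 : 0 ≤ ∫ y in s..t, rho y := intervalIntegral.integral_nonneg hst fun y _ => rho_nonneg y
  linarith

lemma Fsc_int : ∫ t in (-2 : ℝ)..2, 2 * t * Fsc t = 3 := by
  have h1 := intervalIntegral.integral_mul_deriv_eq_deriv_mul_of_hasDeriv_right (a := (-2 : ℝ)) (b := 2)
    (u := Fsc) (v := fun t => t ^ 2) (u' := rho) (v' := fun t => 2 * t)
    Fsc_continuous.continuousOn (by fun_prop)
    (fun x hx => by
      rw [min_eq_left (by norm_num), max_eq_right (by norm_num)] at hx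
      exact (Fsc_hasDeriv hx).hasDerivWithinAt)
    (fun x _ => by simpa using (hasDerivAt_pow 2 x).hasDerivWithinAt)
    (rho_continuous.intervalIntegrable _ _) ((by fun_prop : Continuous fun t : ℝ => 2 * t).intervalIntegrable _ _)
  have h2 : ∫ t in (-2 : ℝ)..2, 2 * t * Fsc t = ∫ t in (-2 : ℝ)..2, Fsc t * (2 * t) :=
    intervalIntegral.integral_congr fun t _ => by ring
  have h3 : ∫ t in (-2 : ℝ)..2, rho t * t ^ 2 = 1 := by
    rw [← rho_int_sq]
    exact intervalIntegral.integral_congr fun t _ => by ring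
  rw [h2, h1, Fsc_two, Fsc_neg_two, h3]
  norm_num

/-- outliers are controlled by the trace and the counting function -/
lemma out_sum {M n : ℕ} (hM : M ≤ n) (hn : n ≤ M + 1) (l : Fin M → ℝ) :
    ∑ i, out (l i) ≤ |∑ i, l i ^ 2 - n| / 4 + 1 + ∫ t in (-2 : ℝ)..2, |NN l t - n * Fsc t| := by
  have hi1 : IntervalIntegrable (fun t => NN l t - n * Fsc t) volume (-2) 2 :=
    (NN_int l _ _).sub ((Fsc_continuous.const_mul _).intervalIntegrable _ _)
  have h1 : ∑ i, clip (l i) ^ 2 = 4 * M - ∫ t in (-2 : ℝ)..2, 2 * t * NN l t := by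
    have h2 : ∀ i, clip (l i) ^ 2 = 4 - ∫ t in (-2 : ℝ)..2, 2 * t * (if l i ≤ t then (1 : ℝ) else 0) := by
      intro i; rw [sq_int]; ring
    simp_rw [h2]
    rw [Finset.sum_sub_distrib]
    congr 1
    · simp; ring
    · rw [← intervalIntegral.integral_finsetSum]
      · refine intervalIntegral.integral_congr fun t _ => ?_
        simp only [NN, Finset.mul_sum]
      · intro i _
        exact (ind_int _ _ _).continuousOn_mul (by fun_prop)
  have h2 : ∑ i, clip (l i) ^ 2 - n = 4 * ((M : ℝ) - n) - ∫ t in (-2 : ℝ)..2, 2 * t * (NN l t - n * Fsc t) := by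
    have h3 : ∫ t in (-2 : ℝ)..2, 2 * t * (NN l t - n * Fsc t)
        = (∫ t in (-2 : ℝ)..2, 2 * t * NN l t) - n * ∫ t in (-2 : ℝ)..2, 2 * t * Fsc t := by
      rw [← intervalIntegral.integral_const_mul, ← intervalIntegral.integral_sub]
      · exact intervalIntegral.integral_congr fun t _ => by ring
      · exact (NN_int l _ _).continuousOn_mul (by fun_prop)
      · exact (((by fun_prop : Continuous fun t : ℝ => 2 * t).mul Fsc_continuous).const_mul _).intervalIntegrable _ _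
    rw [h3, Fsc_int, h1]
    ring
  have h4 : |∫ t in (-2 : ℝ)..2, 2 * t * (NN l t - n * Fsc t)| ≤ 4 * ∫ t in (-2 : ℝ)..2, |NN l t - n * Fsc t| := by
    refine (intervalIntegral.abs_integral_le_integral_abs (by norm_num)).trans ?_
    rw [← intervalIntegral.integral_const_mul]
    refine intervalIntegral.integral_mono_on (by norm_num) ?_ (hi1.abs.const_mul 4) fun t ht => ?_
    · exact (hi1.continuousOn_mul (by fun_prop)).abs
    · rw [abs_mul]
      refine mul_le_mul_of_nonneg_right ?_ (abs_nonneg _)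
      rw [abs_le]
      constructor <;> linarith [ht.1, ht.2]
  have hMn : |(M : ℝ) - n| ≤ 1 := by
    rw [abs_le]
    have h8 : (M : ℝ) ≤ n := by exact_mod_cast hM
    have h9 : (n : ℝ) ≤ M + 1 := by exact_mod_cast hn
    constructor <;> linarith
  have h5 : 4 * ∑ i, out (l i) ≤ ∑ i, l i ^ 2 - ∑ i, clip (l i) ^ 2 := by
    rw [Finset.mul_sum, ← Finset.sum_sub_distrib]
    exact Finset.sum_le_sum fun i _ => out_le (l i)
  have h6 : ∑ i, l i ^ 2 - ∑ i, clip (l i) ^ 2 ≤ |∑ i, l i ^ 2 - n| + (4 + 4 * ∫ t in (-2 : ℝ)..2, |NN l t - n * Fsc t|) := by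
    have h7 : -(∑ i, clip (l i) ^ 2 - (n : ℝ)) ≤ 4 + 4 * ∫ t in (-2 : ℝ)..2, |NN l t - n * Fsc t| := by
      rw [h2]
      have h8 := (abs_le.mp hMn).1
      have h9 := (abs_le.mp h4).2
      linarith
    have h8 := le_abs_self (∑ i, l i ^ 2 - (n : ℝ))
    linarith
  linarith

end Pool.Agent.ZR.I

end

section

/-!
# ZBL/M6 : the pointwise inequality

Proof.  `c = √(v/2) > 0`, `x = evv v X` (monotone), `d = c⁻¹ x`, `k i = pd (i,i) u (dg d)`.  By
`fderiv_eq_sum` the sum is `fderiv f X (grad u X)`, which is `fderiv Φ x (2 c k)` by `f_dir`.  If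
`x i = x j` then `d i = d j` and `k i = k j` (`grad_eq`), so `hE` applies:
`(fderiv Φ x (2 c k))² ≤ w x * QF x (2 c k)`, and `QF x (2 c k) = 4 QF d k` (`x = c d`, `c ≠ 0`, termwise
`(2c(k_i - k_j))/(c(d_i - d_j)) = 2 (k_i-k_j)/(d_i-d_j)`, also when `d_i = d_j`), and
`4 QF d k ≤ HH u (dg d)` (`hess_lower`) `= HH u X` (`HH_conj` with `sya X = O diag(d) Oᵀ = O sya (dg d) Oᵀ`,
`spec_sya`).
-/


open MeasureTheory ProbabilityTheory Matrix

namespace Pool.Agent.ZR.BL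

variable {n : ℕ}

theorem pointwise_ineq {v : ℝ} (hv : 0 < v) {Φ w : (Fin n → ℝ) → ℝ} (hΦ : Differentiable ℝ Φ)
    (hw : ∀ x, 0 ≤ w x)
    (hE : ∀ x : Fin n → ℝ, Monotone x → ∀ k : Fin n → ℝ, (∀ i j, x i = x j → k i = k j) →
      (fderiv ℝ Φ x k) ^ 2 ≤ w x * QF x k)
    {u : (Fin n × Fin n → ℝ) → ℝ} (hd : CB 2 u) (hu : Inv u)
    (X : Fin n × Fin n → ℝ) (hfX : DifferentiableAt ℝ (fun Y => Φ (evv v Y)) X) :
    (∑ p, pd p (fun Y => Φ (evv v Y)) X * pd p u X) ^ 2 ≤ w (evv v X) * HH u X := by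
  have hc : 0 < Real.sqrt (v / 2) := Real.sqrt_pos.mpr (by linarith)
  have hdu : Differentiable ℝ u := hd.2.1
  have h1 := fderiv_eq_sum (fun Y => Φ (evv v Y)) X (fun p => pd p u X)
  have h2 := f_dir hv hΦ hdu hu X hfX
  obtain ⟨O, hO1, hO2, hO⟩ := spec_sya hv X
  set c := Real.sqrt (v / 2) with hcdef
  set d : Fin n → ℝ := fun i => c⁻¹ * evv v X i with hddef
  set k : Fin n → ℝ := fun i => pd (i, i) u (dg d) with hkdef
  rw [← h1, h2]
  have hx : ∀ i j, evv v X i = evv v X j → 2 * c * k i = 2 * c * k j := by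
    intro i j hij
    have hdd : d i = d j := by simp only [hddef, hij]
    have : k i = k j := grad_eq hdu hu d hdd
    rw [this]
  refine (hE (evv v X) (evv_mono v X) (fun i => 2 * c * k i) hx).trans ?_
  refine mul_le_mul_of_nonneg_left ?_ (hw _)
  have hQ : QF (evv v X) (fun i => 2 * c * k i) = 4 * QF d k := by
    rw [QF, QF, Finset.mul_sum]
    refine Finset.sum_congr rfl fun p _ => ?_
    have e1 : d p.1 - d p.2 = c⁻¹ * (evv v X p.1 - evv v X p.2) := by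
      simp only [hddef]; ring
    rw [e1]
    have e2 : (k p.1 - k p.2) / (c⁻¹ * (evv v X p.1 - evv v X p.2))
        = c * ((k p.1 - k p.2) / (evv v X p.1 - evv v X p.2)) := by
      rw [div_mul_eq_div_div, div_inv_eq_mul]
      ring
    rw [e2]
    ring
  rw [hQ]
  have hX : HH u X = HH u (dg d) := HH_conj hd hu hO1 hO2 (by rw [sya_dg]; exact hO)
  rw [hX]
  exact hess_lower hd hu d

end Pool.Agent.ZR.BL

end

section

/-!
# ZR, part G: the four-cycle and the path along the resolvent; crude bounds.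
-/


open MeasureTheory ProbabilityTheory Matrix
open scoped Classical

namespace Pool.Agent.ZR.G

theorem toC_ap {n : ℕ} (A : Matrix (Fin n) (Fin n) ℝ) (i j : Fin n) : toC A i j = (A i j : ℂ) := rfl

theorem toC_sm {n : ℕ} (c : ℝ) (A : Matrix (Fin n) (Fin n) ℝ) : toC (c • A) = (c : ℂ) • toC A := by
  ext i j
  simp [toC_ap]

theorem toC_ad {n : ℕ} (A B : Matrix (Fin n) (Fin n) ℝ) : toC (A + B) = toC A + toC B := by
  ext i j
  simp [toC_ap]

theorem toC_sb {n : ℕ} (A B : Matrix (Fin n) (Fin n) ℝ) : toC (A - B) = toC A - toC B := by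
  ext i j
  simp [toC_ap]

theorem Es_en {n : ℕ} (p q k l : Fin n) : toC (Es p q) k l
    = (if k = p then (if l = q then (1 : ℂ) else 0) else 0)
      + (if k = q then (if l = p then (1 : ℂ) else 0) else 0) := by
  rw [toC_ap]
  simp only [Es, Matrix.of_apply, ite_and]
  push_cast
  congr 1
  · by_cases h1 : k = p <;> by_cases h2 : l = q <;> simp [h1, h2]
  · by_cases h1 : k = q <;> by_cases h2 : l = p <;> simp [h1, h2]

theorem mul_Es {n : ℕ} (G : Matrix (Fin n) (Fin n) ℂ) (p q x l : Fin n) :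
    (G * toC (Es p q)) x l = (if l = q then G x p else 0) + (if l = p then G x q else 0) := by
  rw [Matrix.mul_apply]
  simp only [Es_en, mul_add, mul_ite, mul_one, mul_zero, Finset.sum_add_distrib,
    Finset.sum_ite_eq', Finset.mem_univ, if_true]

theorem Es_gq {n : ℕ} (G : Matrix (Fin n) (Fin n) ℂ) (p q x y : Fin n) :
    (G * toC (Es p q) * G) x y = gq G x y p q := by
  rw [Matrix.mul_apply]
  simp only [mul_Es, add_mul, ite_mul, zero_mul, Finset.sum_add_distrib, Finset.sum_ite_eq',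
    Finset.mem_univ, if_true, gq]

theorem xiG_eq {n : ℕ} (G : Matrix (Fin n) (Fin n) ℂ) (i j k l : Fin n) :
    (G * toC (Xi i j k l) * G) j i = xiG G i j k l := by
  have h : G * toC (Xi i j k l) * G = G * toC (Es i j) * G - G * toC (Es j k) * G
      + G * toC (Es k l) * G - G * toC (Es l i) * G := by
    simp only [Xi, toC_sb, toC_ad, Matrix.mul_sub, Matrix.mul_add, Matrix.sub_mul, Matrix.add_mul]
  rw [h]
  simp only [Matrix.sub_apply, Matrix.add_apply, Es_gq, xiG]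

theorem Es_tr {n : ℕ} (V : Matrix (Fin n) (Fin n) ℂ) (hV : ∀ i j, V i j = V j i) (p q : Fin n) :
    (V * toC (Es p q)).trace = 2 * V p q := by
  rw [Matrix.trace]
  simp only [Matrix.diag_apply, mul_Es, Finset.sum_add_distrib, Finset.sum_ite_eq', Finset.mem_univ,
    if_true]
  rw [hV q p]
  ring

theorem xiV_eq {n : ℕ} (V : Matrix (Fin n) (Fin n) ℂ) (hV : ∀ i j, V i j = V j i)
    (i j k l : Fin n) : (V * toC (Xi i j k l)).trace = xiV V i j k l := by
  have h : V * toC (Xi i j k l) = V * toC (Es i j) - V * toC (Es j k)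
      + V * toC (Es k l) - V * toC (Es l i) := by
    simp only [Xi, toC_sb, toC_ad, Matrix.mul_sub, Matrix.mul_add]
  rw [h]
  simp only [Matrix.trace_sub, Matrix.trace_add, Es_tr V hV, xiV]
  ring

theorem pb_Xi {n : ℕ} (c : ℝ) (i j k l : Fin n) : PB (Pn n) (c • Xi i j k l) := by
  refine ⟨Pn_symm n, Pn_idem n, ?_, ?_, ?_⟩
  · rw [Matrix.transpose_smul, Xi_symm]
  · rw [Matrix.mul_smul, (Xi_Pn i j k l).1]
  · rw [Matrix.smul_mul, (Xi_Pn i j k l).2]

theorem pb_XiP {n : ℕ} (c : ℝ) (i j k : Fin n) : PB (Pn n) (c • XiP i j k) := by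
  refine ⟨Pn_symm n, Pn_idem n, ?_, ?_, ?_⟩
  · rw [Matrix.transpose_smul, XiP_symm]
  · rw [Matrix.mul_smul, (XiP_Pn i j k).1]
  · rw [Matrix.smul_mul, (XiP_Pn i j k).2]

theorem Bm_switch {n : ℕ} {i j k l : Fin n} (h1 : i ≠ j) (h2 : i ≠ k) (h3 : i ≠ l) (h4 : j ≠ k)
    (h5 : j ≠ l) (h6 : k ≠ l) (α β : ℝ) (X : Fin n × Fin n → ℝ) {σ : Fin n → Fin n → Bool}
    (hσ : σ ∈ Sn n) (ha : Alt4 i j k l σ) :
    Bm α β (flipP (cyc i j k l) σ) X
      = Bm α β σ X + (1 : ℝ) • ((-(2 * α * Mx σ i j / Real.sqrt n)) • Xi i j k l) := by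
  unfold Bm H0
  rw [Mx_switch h1 h2 h3 h4 h5 h6 hσ ha]
  ext x y
  simp only [Matrix.add_apply, Matrix.smul_apply, Matrix.sub_apply, smul_eq_mul]
  ring

theorem Bm_switchP {n : ℕ} {i j k : Fin n} (h1 : i ≠ j) (h2 : i ≠ k) (h4 : j ≠ k)
    (α β : ℝ) (X : Fin n × Fin n → ℝ) {σ : Fin n → Fin n → Bool}
    (hσ : σ ∈ Sn n) (ha : AltP i j k σ) :
    Bm α β (flipP (pth i j k) σ) X
      = Bm α β σ X + (1 : ℝ) • ((-(2 * α * Mx σ i i / Real.sqrt n)) • XiP i j k) := by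
  unfold Bm H0
  rw [Mx_switchP h1 h2 h4 hσ ha]
  ext x y
  simp only [Matrix.add_apply, Matrix.smul_apply, Matrix.sub_apply, smul_eq_mul]
  ring

theorem abs_Mx {n : ℕ} (σ : Fin n → Fin n → Bool) (i j : Fin n) : |Mx σ i j| = 1 := by
  rw [Mx_apply]
  split_ifs <;> norm_num

theorem sp1_Y {n : ℕ} (hn : 0 < n) {α a : ℝ} (h0 : 0 ≤ α) (h1 : α ≤ 1) (ha : |a| = 1)
    (Z : Matrix (Fin n) (Fin n) ℝ) (hZ : sp1 Z ≤ 8) :
    sp1 ((-(2 * α * a / Real.sqrt n)) • Z) ≤ 16 / Real.sqrt n := by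
  have hs : 0 < Real.sqrt n := Real.sqrt_pos.2 (by exact_mod_cast hn)
  have hZ0 := sp1_nonneg Z
  rw [sp1_smul, abs_neg, abs_div, abs_mul, abs_mul, ha, abs_of_nonneg h0, abs_of_pos hs]
  rw [abs_of_pos (by norm_num : (0 : ℝ) < 2), mul_one, div_mul_eq_mul_div]
  apply div_le_div_of_nonneg_right _ hs.le
  nlinarith

/-! ### crude bounds -/

section crude

variable {n K : ℕ} {α β η : ℝ} {zl cl : Fin K → ℂ} {z : ℂ}

theorem par_n (hp : Par n α β η zl cl z) : (2 : ℝ) ≤ n := by exact_mod_cast hp.n2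

theorem par_a1 (hp : Par n α β η zl cl z) : α ≤ 1 := by
  have h := hp.ab
  have h0 := hp.a0
  nlinarith [sq_nonneg β]

theorem inv_im_le (hp : Par n α β η zl cl z) {w : ℂ} (hw : η ≤ |w.im|) :
    1 / |w.im| ≤ (n : ℝ) ^ 2 :=
  (one_div_le_one_div_of_le hp.e0 hw).trans hp.e2

theorem im_ne (hp : Par n α β η zl cl z) {w : ℂ} (hw : η ≤ |w.im|) : w.im ≠ 0 := by
  intro h
  rw [h, abs_zero] at hw
  have := hp.e0
  linarith

theorem g_crude (hp : Par n α β η zl cl z) {B : Matrix (Fin n) (Fin n) ℝ} (hB : PB (Pn n) B)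
    {w : ℂ} (hw : η ≤ |w.im|) (x y : Fin n) : ‖Gz (Pn n) B w x y‖ ≤ (n : ℝ) ^ 2 :=
  (g_entry_le hB w (im_ne hp hw) x y).trans (inv_im_le hp hw)

theorem g2_crude (hp : Par n α β η zl cl z) {B : Matrix (Fin n) (Fin n) ℝ} (hB : PB (Pn n) B)
    {w : ℂ} (hw : η ≤ |w.im|) (x y : Fin n) : ‖(Gz (Pn n) B w ^ 2) x y‖ ≤ (n : ℝ) ^ 5 := by
  rw [pow_two, Matrix.mul_apply]
  refine (norm_sum_le _ _).trans ?_
  have h : ∀ k ∈ (Finset.univ : Finset (Fin n)),
      ‖Gz (Pn n) B w x k * Gz (Pn n) B w k y‖ ≤ (n : ℝ) ^ 4 := by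
    intro k _
    rw [norm_mul]
    have h1 := g_crude hp hB hw x k
    have h2 := g_crude hp hB hw k y
    calc _ ≤ (n : ℝ) ^ 2 * (n : ℝ) ^ 2 := mul_le_mul h1 h2 (norm_nonneg _) (by positivity)
      _ = (n : ℝ) ^ 4 := by ring
  refine (Finset.sum_le_card_nsmul _ _ _ h).trans ?_
  rw [Finset.card_univ, Fintype.card_fin, nsmul_eq_mul]
  exact le_of_eq (by ring)

theorem mc_crude (hp : Par n α β η zl cl z) {B : Matrix (Fin n) (Fin n) ℝ} (hB : PB (Pn n) B)
    (l : Fin K) : ‖mz (Pn n) B (zl l) - cl l‖ ≤ (n : ℝ) ^ 4 := by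
  have h1 := mz_norm_le hB (zl l) (im_ne hp (hp.al l).1)
  have h2 := inv_im_le hp (hp.al l).1
  have h3 := hp.cb l
  have hn := par_n hp
  refine (norm_sub_le _ _).trans ?_
  have h4 : ‖mz (Pn n) B (zl l)‖ + ‖cl l‖ ≤ (n : ℝ) ^ 2 + (n : ℝ) ^ 3 :=
    add_le_add (h1.trans h2) h3
  refine h4.trans ?_
  have h5 : (n : ℝ) ^ 4 - ((n : ℝ) ^ 2 + (n : ℝ) ^ 3) = (n : ℝ) ^ 2 * ((n : ℝ) * (n - 1) - 1) := by
    ring
  have h6 : 0 ≤ (n : ℝ) * (n - 1) - 1 := by nlinarith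
  have h7 : 0 ≤ (n : ℝ) ^ 2 * ((n : ℝ) * (n - 1) - 1) := by positivity
  linarith

theorem Th_crude (hp : Par n α β η zl cl z) {B : Matrix (Fin n) (Fin n) ℝ} (hB : PB (Pn n) B) :
    ‖Th (Pn n) B zl cl‖ ≤ (n : ℝ) ^ (4 * K) := by
  unfold Th
  rw [norm_prod]
  have h := Finset.prod_le_prod (s := (Finset.univ : Finset (Fin K)))
    (f := fun l => ‖mz (Pn n) B (zl l) - cl l‖) (g := fun _ => (n : ℝ) ^ 4)
    (fun l _ => norm_nonneg _) (fun l _ => mc_crude hp hB l)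
  rw [Finset.prod_const, Finset.card_univ, Fintype.card_fin, ← pow_mul] at h
  exact h

theorem ThE_crude (hp : Par n α β η zl cl z) {B : Matrix (Fin n) (Fin n) ℝ} (hB : PB (Pn n) B)
    (l : Fin K) : ‖ThE (Pn n) B zl cl l‖ ≤ (n : ℝ) ^ (4 * K) := by
  unfold ThE
  rw [norm_prod]
  have h := Finset.prod_le_prod (s := (Finset.univ : Finset (Fin K)).erase l)
    (f := fun l => ‖mz (Pn n) B (zl l) - cl l‖) (g := fun _ => (n : ℝ) ^ 4)
    (fun l _ => norm_nonneg _) (fun l _ => mc_crude hp hB l)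
  rw [Finset.prod_const] at h
  have hc : ((Finset.univ : Finset (Fin K)).erase l).card ≤ K := by
    refine (Finset.card_erase_le).trans ?_
    rw [Finset.card_univ, Fintype.card_fin]
  have hn := par_n hp
  refine h.trans ?_
  rw [← pow_mul]
  exact pow_le_pow_right₀ (by linarith) (by omega)

end crude

end Pool.Agent.ZR.G

end

section

/-!
# ZR/MGoe : local moments of the GOE at scales `≤ 1/n`, and local counts, from J1

PROOF.
* `goe_mom`: for `η ≤ 1/n`: `imF(η) ≤ (1/(nη)) imF(1/n) ≤ n^c imF(1/n)` (`imF_mono_scale`).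
  `imF n x y (1/n) = ∑_i 1/(1+n²(x_i-y)²) ≤ 1 + ∑_{|m| ≤ n} 2/(1+m²) * cntIF x (y+m/n) (1/n)`.
  Jensen, then integrate with `J1 p 1`.
* `loc_G`: let `L = ⌈n r⌉ ≤ 2 n r`; `[x-r,x+r]` is covered by the intervals `[y_i - 1/n, y_i + 1/n]`,
  `y_i = x - r + (2i+1)/n`, `i < L`; so `(cntI x r)^p ≤ L^(p-1) ∑_i cntI(y_i,1/n)^p`, expectation
  `≤ C_p L^p ≤ C_p (2nr)^p` and Markov: `P(n^ν n r ≤ cntI) ≤ C_p 2^p n^(-νp)`; take `p` with
  `ν p > D` and `n` large.
* `loc_G1`: `E cntI(x, r) ≤ C n r` for `r ≥ 1/n`: same with `p = 1`.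
-/


open MeasureTheory ProbabilityTheory Matrix

namespace Pool.Agent.ZR

private theorem cntIF_eq_sum {N : ℕ} (x : Fin N → ℝ) (y r : ℝ) :
    (cntIF x y r : ℝ) = ∑ j, if |x j - y| ≤ r then (1 : ℝ) else 0 := by
  classical
  unfold cntIF
  rw [Finset.card_filter]
  push_cast
  refine Finset.sum_congr rfl fun j _ => ?_
  by_cases h : |x j - y| ≤ r <;> simp [h]

private theorem cntIF_le {N : ℕ} (x : Fin N → ℝ) (y r : ℝ) : (cntIF x y r : ℝ) ≤ N := by
  rw [cntIF_eq_sum]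
  calc ∑ j, (if |x j - y| ≤ r then (1 : ℝ) else 0) ≤ ∑ _j : Fin N, (1 : ℝ) := by
        refine Finset.sum_le_sum fun j _ => ?_
        split_ifs <;> norm_num
    _ = N := by simp

private theorem cntIF_meas {N : ℕ} (y r : ℝ) :
    Measurable (fun x : Fin N → ℝ => (cntIF x y r : ℝ)) := by
  simp_rw [cntIF_eq_sum]
  refine Finset.measurable_sum _ fun j _ => ?_
  refine Measurable.ite ?_ measurable_const measurable_const
  have : Measurable fun x : Fin N → ℝ => |x j - y| := by fun_prop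
  exact this measurableSet_Iic

private theorem cntIF_cover {n N : ℕ} (hn : 0 < n) (x : Fin N → ℝ) (y r : ℝ)
    (hr : 1 / (n : ℝ) ≤ r) :
    (cntIF x y r : ℝ) ≤ ∑ i ∈ Finset.range ⌈(n : ℝ) * r⌉₊,
      (cntIF x (y - r + (2 * (i : ℝ) + 1) / n) (1 / (n : ℝ)) : ℝ) := by
  have hn' : (0 : ℝ) < n := by exact_mod_cast hn
  simp_rw [cntIF_eq_sum]
  rw [Finset.sum_comm]
  refine Finset.sum_le_sum fun j _ => ?_
  have hnn : ∀ i ∈ Finset.range ⌈(n : ℝ) * r⌉₊,
      (0 : ℝ) ≤ if |x j - (y - r + (2 * (i : ℝ) + 1) / n)| ≤ 1 / (n : ℝ) then (1 : ℝ) else 0 := by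
    intro i _
    split_ifs <;> norm_num
  by_cases hj : |x j - y| ≤ r
  · rw [if_pos hj]
    rw [abs_le] at hj
    set u : ℝ := n * (x j - (y - r)) / 2 with hu
    have hu0 : 0 ≤ u := by
      rw [hu]
      have : 0 ≤ x j - (y - r) := by linarith
      positivity
    have hu1 : u ≤ n * r := by
      rw [hu]
      have : x j - (y - r) ≤ 2 * r := by linarith
      nlinarith [mul_le_mul_of_nonneg_left this hn'.le]
    have hnr : 1 ≤ (n : ℝ) * r := by
      have := mul_le_mul_of_nonneg_left hr hn'.le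
      rwa [mul_one_div_cancel hn'.ne'] at this
    have hL : 1 ≤ ⌈(n : ℝ) * r⌉₊ := by
      have : 0 < ⌈(n : ℝ) * r⌉₊ := Nat.ceil_pos.2 (by linarith)
      omega
    set i : ℕ := ⌈u⌉₊ - 1 with hi
    have hiL : i < ⌈(n : ℝ) * r⌉₊ := by
      have := Nat.ceil_le_ceil hu1
      omega
    have hiu1 : (i : ℝ) ≤ u := by
      rcases Nat.eq_zero_or_pos ⌈u⌉₊ with h0 | h0
      · have : i = 0 := by omega
        rw [this]
        simpa using hu0
      · have h1 : i < ⌈u⌉₊ := by omega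
        exact (Nat.lt_ceil.1 h1).le
    have hiu2 : u ≤ (i : ℝ) + 1 := by
      have h1 : ⌈u⌉₊ ≤ i + 1 := by omega
      have h2 := Nat.ceil_le.1 h1
      push_cast at h2
      exact h2
    have hgood : |x j - (y - r + (2 * (i : ℝ) + 1) / n)| ≤ 1 / (n : ℝ) := by
      have hx : x j = y - r + 2 * u / n := by
        rw [hu]
        field_simp
        ring
      rw [hx]
      have e : y - r + 2 * u / n - (y - r + (2 * (i : ℝ) + 1) / n) = (2 * u - (2 * i + 1)) / n := by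
        ring
      rw [e, abs_div, abs_of_pos hn']
      apply div_le_div_of_nonneg_right _ hn'.le
      rw [abs_le]
      constructor <;> linarith
    calc (1 : ℝ) = if |x j - (y - r + (2 * (i : ℝ) + 1) / n)| ≤ 1 / (n : ℝ) then (1 : ℝ) else 0 := by
          rw [if_pos hgood]
      _ ≤ _ := Finset.single_le_sum
          (f := fun i : ℕ => if |x j - (y - r + (2 * (i : ℝ) + 1) / n)| ≤ 1 / (n : ℝ)
            then (1 : ℝ) else 0) hnn (Finset.mem_range.2 hiL)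
  · rw [if_neg hj]
    exact Finset.sum_nonneg hnn

private theorem one_term {n : ℕ} (hn : 0 < n) (t y : ℝ) :
    1 / (1 + ((n : ℝ) * (t - y)) ^ 2) ≤ 1 / (n : ℝ) +
      ∑ m ∈ Finset.Icc (-(n : ℤ)) n, (2 / (1 + (m : ℝ) ^ 2)) *
        (if |t - (y + (m : ℝ) / n)| ≤ 1 / (n : ℝ) then (1 : ℝ) else 0) := by
  have hn' : (0 : ℝ) < n := by exact_mod_cast hn
  have hn1 : (1 : ℝ) ≤ n := by exact_mod_cast hn
  set u : ℝ := n * (t - y) with hu
  have hnn : ∀ m ∈ Finset.Icc (-(n : ℤ)) n, (0 : ℝ) ≤ (2 / (1 + (m : ℝ) ^ 2)) *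
        (if |t - (y + (m : ℝ) / n)| ≤ 1 / (n : ℝ) then (1 : ℝ) else 0) := by
    intro m _
    refine mul_nonneg (by positivity) ?_
    split_ifs <;> norm_num
  by_cases hbig : |u| ≤ n
  · set m : ℤ := round u with hm
    have h1 : |u - m| ≤ 1 / 2 := abs_sub_round u
    rw [abs_le] at h1 hbig
    have hmem : m ∈ Finset.Icc (-(n : ℤ)) n := by
      rw [Finset.mem_Icc]
      constructor
      · by_contra hlt
        push Not at hlt
        have h2 : m + 1 ≤ -(n : ℤ) := by omega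
        have h3 : (m : ℝ) + 1 ≤ -(n : ℝ) := by exact_mod_cast h2
        linarith [h1.1, h1.2, hbig.1]
      · by_contra hlt
        push Not at hlt
        have h2 : (n : ℤ) + 1 ≤ m := by omega
        have h3 : (n : ℝ) + 1 ≤ (m : ℝ) := by exact_mod_cast h2
        linarith [h1.1, h1.2, hbig.2]
    have hgood : |t - (y + (m : ℝ) / n)| ≤ 1 / (n : ℝ) := by
      have ht : t = y + u / n := by
        rw [hu]
        field_simp
        ring
      rw [ht]
      have e : y + u / n - (y + (m : ℝ) / n) = (u - m) / n := by ring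
      rw [e, abs_div, abs_of_pos hn']
      apply div_le_div_of_nonneg_right _ hn'.le
      rw [abs_le]
      constructor <;> linarith
    have hval : 1 / (1 + u ^ 2) ≤ (2 / (1 + (m : ℝ) ^ 2)) *
        (if |t - (y + (m : ℝ) / n)| ≤ 1 / (n : ℝ) then (1 : ℝ) else 0) := by
      rw [if_pos hgood, mul_one, div_le_div_iff₀ (by positivity) (by positivity)]
      nlinarith [sq_nonneg (u + (u - m) * 2), sq_nonneg (u - (m : ℝ)), sq_nonneg (u + (u - m)),
        mul_self_nonneg (u + (u - (m : ℝ)))]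
    have h4 := Finset.single_le_sum
      (f := fun m : ℤ => (2 / (1 + (m : ℝ) ^ 2)) *
        (if |t - (y + (m : ℝ) / n)| ≤ 1 / (n : ℝ) then (1 : ℝ) else 0)) hnn hmem
    have h5 : (0 : ℝ) ≤ 1 / n := by positivity
    linarith
  · push Not at hbig
    have h2 : (n : ℝ) ^ 2 ≤ u ^ 2 := by
      rw [← sq_abs u]
      exact pow_le_pow_left₀ hn'.le hbig.le 2
    have h3 : 1 / (1 + u ^ 2) ≤ 1 / (n : ℝ) := by
      apply one_div_le_one_div_of_le hn'
      nlinarith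
    have h4 := Finset.sum_nonneg hnn
    linarith

private theorem imF_bound {n : ℕ} (hn : 0 < n) (x : Fin n → ℝ) (y : ℝ) :
    imF n x y (1 / (n : ℝ)) ≤ 1 + ∑ m ∈ Finset.Icc (-(n : ℤ)) n, (2 / (1 + (m : ℝ) ^ 2)) *
      (cntIF x (y + (m : ℝ) / n) (1 / (n : ℝ)) : ℝ) := by
  have hn' : (0 : ℝ) < n := by exact_mod_cast hn
  have e1 : imF n x y (1 / (n : ℝ)) = ∑ i, 1 / (1 + ((n : ℝ) * (x i - y)) ^ 2) := by
    unfold imF
    rw [Finset.mul_sum]
    refine Finset.sum_congr rfl fun i _ => ?_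
    have : (x i - y) ^ 2 + (1 / (n : ℝ)) ^ 2 = (1 + ((n : ℝ) * (x i - y)) ^ 2) / (n : ℝ) ^ 2 := by
      field_simp
      ring
    rw [this]
    have h2 : (1 + ((n : ℝ) * (x i - y)) ^ 2) ≠ 0 := by positivity
    field_simp
  rw [e1]
  calc ∑ i, 1 / (1 + ((n : ℝ) * (x i - y)) ^ 2)
      ≤ ∑ i, (1 / (n : ℝ) + ∑ m ∈ Finset.Icc (-(n : ℤ)) n, (2 / (1 + (m : ℝ) ^ 2)) *
        (if |x i - (y + (m : ℝ) / n)| ≤ 1 / (n : ℝ) then (1 : ℝ) else 0)) :=
        Finset.sum_le_sum fun i _ => one_term hn (x i) y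
    _ = 1 + ∑ m ∈ Finset.Icc (-(n : ℤ)) n, (2 / (1 + (m : ℝ) ^ 2)) *
      (cntIF x (y + (m : ℝ) / n) (1 / (n : ℝ)) : ℝ) := by
        rw [Finset.sum_add_distrib, Finset.sum_const, Finset.card_univ, Fintype.card_fin,
          nsmul_eq_mul, mul_one_div_cancel hn'.ne', Finset.sum_comm]
        congr 1
        refine Finset.sum_congr rfl fun m _ => ?_
        rw [cntIF_eq_sum, Finset.mul_sum]

private theorem sum_weights : ∃ W : ℝ, 1 ≤ W ∧ ∀ S : Finset ℤ,
    1 + ∑ m ∈ S, (2 / (1 + (m : ℝ) ^ 2)) ≤ W := by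
  have h1 : Summable (fun m : ℤ => 2 / (1 + (m : ℝ) ^ 2)) := by
    have h2 : Summable (fun m : ℤ => 2 * (1 / (m : ℝ) ^ 2)) :=
      (Real.summable_one_div_int_pow.2 (by norm_num : 1 < 2)).mul_left 2
    have h3 : Summable (fun m : ℤ => if m = 0 then (2 : ℝ) else 0) :=
      (hasSum_ite_eq (0 : ℤ) (2 : ℝ)).summable
    refine Summable.of_nonneg_of_le (fun m => by positivity) (fun m => ?_) (h2.add h3)
    by_cases hm : m = 0
    · subst hm; norm_num
    · rw [if_neg hm, add_zero]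
      have hm' : (0 : ℝ) < (m : ℝ) ^ 2 := by
        have : (m : ℝ) ≠ 0 := by exact_mod_cast hm
        positivity
      rw [mul_one_div]
      exact div_le_div_of_nonneg_left (by norm_num) hm' (by linarith)
  refine ⟨1 + ∑' m : ℤ, (2 / (1 + (m : ℝ) ^ 2)), ?_, fun S => ?_⟩
  · have : 0 ≤ ∑' m : ℤ, (2 / (1 + (m : ℝ) ^ 2)) := tsum_nonneg (fun m => by positivity)
    linarith
  · have := h1.sum_le_tsum S (fun m _ => by positivity)
    linarith

private theorem jensen {ι : Type*} (s : Finset ι) (w a : ι → ℝ) (W : ℝ) (hw : ∀ i ∈ s, 0 ≤ w i)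
    (ha : ∀ i ∈ s, 0 ≤ a i) (h1 : 1 ≤ ∑ i ∈ s, w i) (hW : ∑ i ∈ s, w i ≤ W) (p : ℕ) :
    (∑ i ∈ s, w i * a i) ^ p ≤ W ^ p * ∑ i ∈ s, w i * a i ^ p := by
  set V : ℝ := ∑ i ∈ s, w i with hV
  have hV0 : 0 < V := by linarith
  have h3 := Real.pow_arith_mean_le_arith_mean_pow s (fun i => w i / V) a
    (fun i hi => div_nonneg (hw i hi) hV0.le) (by rw [← Finset.sum_div, ← hV, div_self hV0.ne']) ha p
  have e1 : ∑ i ∈ s, w i / V * a i = (∑ i ∈ s, w i * a i) / V := by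
    rw [Finset.sum_div]
    exact Finset.sum_congr rfl fun i _ => by ring
  have e2 : ∑ i ∈ s, w i / V * a i ^ p = (∑ i ∈ s, w i * a i ^ p) / V := by
    rw [Finset.sum_div]
    exact Finset.sum_congr rfl fun i _ => by ring
  rw [e1, e2, div_pow] at h3
  have h4 : 0 ≤ ∑ i ∈ s, w i * a i ^ p :=
    Finset.sum_nonneg fun i hi => mul_nonneg (hw i hi) (pow_nonneg (ha i hi) p)
  have h5 : (∑ i ∈ s, w i * a i) ^ p ≤ V ^ p * ((∑ i ∈ s, w i * a i ^ p) / V) := by
    rw [div_le_iff₀ (pow_pos hV0 p)] at h3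
    linarith
  refine h5.trans ?_
  have h6 : (∑ i ∈ s, w i * a i ^ p) / V ≤ ∑ i ∈ s, w i * a i ^ p := div_le_self h4 h1
  exact mul_le_mul (pow_le_pow_left₀ hV0.le hW p) h6 (div_nonneg h4 hV0.le)
    (pow_nonneg (hV0.le.trans hW) p)

/-- the vector of GOE eigenvalues -/
private noncomputable abbrev gv (n : ℕ) (X : Fin n × Fin n → ℝ) : Fin n → ℝ :=
  vecS (Wv (N := n) (1 / (n : ℝ)) X)

private theorem gv_int (n : ℕ) (y r : ℝ) (p : ℕ) :
    Integrable (fun X => (cntIF (gv n X) y r : ℝ) ^ p) (gm n) := by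
  refine Integrable.of_bound (C := (n : ℝ) ^ p)
    (((cntIF_meas y r).comp (vecS_Wv_meas _)).pow_const p).aestronglyMeasurable ?_
  refine Filter.Eventually.of_forall fun X => ?_
  rw [Real.norm_eq_abs, abs_of_nonneg (by positivity)]
  exact pow_le_pow_left₀ (by positivity) (cntIF_le _ _ _) p

private theorem cntI_gv (n : ℕ) (X : Fin n × Fin n → ℝ) (x r : ℝ) :
    cntI (Wv (N := n) (1 / (n : ℝ)) X) x r = cntIF (gv n X) x r :=
  cntI_vecS _ (Wv_symm _ X) x r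

private theorem J1' (h1 : J1) (p : ℕ) : ∃ C : ℝ, 0 ≤ C ∧ ∀ n : ℕ, 0 < n → ∀ x : ℝ,
    ∫ X, (cntIF (gv n X) x (1 / (n : ℝ)) : ℝ) ^ p ∂(gm n) ≤ C := by
  obtain ⟨C, hC⟩ := h1 p 1 one_pos
  refine ⟨max C 0, le_max_right _ _, fun n hn x => ?_⟩
  have := hC n hn x
  simp_rw [cntI_gv] at this
  exact this.trans (le_max_left _ _)

theorem goe_mom (h1 : J1) (p : ℕ) :
    ∃ C : ℝ, 0 ≤ C ∧ ∀ n : ℕ, 0 < n → ∀ y c η : ℝ, 0 ≤ c → (n : ℝ) ^ (-1 - c) ≤ η →
      η ≤ 1 / (n : ℝ) →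
      Integrable (fun X => (imF n (vecS (Wv (N := n) (1 / (n : ℝ)) X)) y η) ^ p) (gm n) ∧
      ∫ X, (imF n (vecS (Wv (N := n) (1 / (n : ℝ)) X)) y η) ^ p ∂(gm n) ≤ C * (n : ℝ) ^ (p * c) := by
  obtain ⟨C, hC0, hC⟩ := J1' h1 p
  obtain ⟨W, hW1, hW⟩ := sum_weights
  refine ⟨W ^ p * (1 + W * C), by positivity, ?_⟩
  intro n hn y c η hc hη1 hη2
  have hn' : (0 : ℝ) < n := by exact_mod_cast hn
  have hη : 0 < η := lt_of_lt_of_le (Real.rpow_pos_of_pos hn' _) hη1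
  have hint : Integrable (fun X => (imF n (gv n X) y η) ^ p) (gm n) := by
    have hm : Measurable (fun X => imF n (gv n X) y η) := by
      have h2 : Measurable (fun x : Fin n → ℝ => imF n x y η) := by
        have := (imF_cont n (N := n) hη)
        exact (this.comp (continuous_id.prodMk continuous_const)).measurable
      exact h2.comp (vecS_Wv_meas _)
    refine Integrable.of_bound (C := ((n : ℝ) / n / η) ^ p) (hm.pow_const p).aestronglyMeasurable ?_
    refine Filter.Eventually.of_forall fun X => ?_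
    have h0 := imF_nonneg n (gv n X) y hη.le
    rw [Real.norm_eq_abs, abs_of_nonneg (pow_nonneg h0 p)]
    exact pow_le_pow_left₀ h0 (imF_le n (gv n X) y hη) p
  refine ⟨hint, ?_⟩
  -- pointwise bound
  set S : Finset ℤ := Finset.Icc (-(n : ℤ)) n with hS
  have hpt : ∀ X, (imF n (gv n X) y η) ^ p ≤ (n : ℝ) ^ (p * c) * (W ^ p *
      (1 + ∑ m ∈ S, (2 / (1 + (m : ℝ) ^ 2)) *
        (cntIF (gv n X) (y + (m : ℝ) / n) (1 / (n : ℝ)) : ℝ) ^ p)) := by
    intro X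
    have h0 := imF_nonneg n (gv n X) y hη.le
    have h2 := imF_mono_scale n (gv n X) y hη hη2
    have h3 : (1 / (n : ℝ)) / η ≤ (n : ℝ) ^ c := by
      rw [div_le_iff₀ hη]
      have : (n : ℝ) ^ c * (n : ℝ) ^ (-1 - c) = 1 / n := by
        rw [← Real.rpow_add hn']
        have : c + (-1 - c) = -1 := by ring
        rw [this, Real.rpow_neg_one, one_div]
      calc 1 / (n : ℝ) = (n : ℝ) ^ c * (n : ℝ) ^ (-1 - c) := this.symm
        _ ≤ (n : ℝ) ^ c * η := mul_le_mul_of_nonneg_left hη1 (Real.rpow_nonneg hn'.le _)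
    have h4 := imF_bound hn (gv n X) y
    have h4' := imF_nonneg n (gv n X) y (η := 1 / (n : ℝ)) (by positivity)
    have h5 : imF n (gv n X) y η ≤ (n : ℝ) ^ c * (1 + ∑ m ∈ S, (2 / (1 + (m : ℝ) ^ 2)) *
      (cntIF (gv n X) (y + (m : ℝ) / n) (1 / (n : ℝ)) : ℝ)) :=
      h2.trans (mul_le_mul h3 h4 h4' (Real.rpow_nonneg hn'.le _))
    have h6 := pow_le_pow_left₀ h0 h5 p
    have h7 : ((n : ℝ) ^ c) ^ p = (n : ℝ) ^ (p * c) := by
      rw [← Real.rpow_natCast ((n : ℝ) ^ c) p, ← Real.rpow_mul hn'.le, mul_comm]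
    rw [mul_pow, h7] at h6
    refine h6.trans (mul_le_mul_of_nonneg_left ?_ (Real.rpow_nonneg hn'.le _))
    -- Jensen with one more index
    have h8 := jensen (Finset.insertNone S)
      (fun o : Option ℤ => o.elim (1 : ℝ) (fun m => 2 / (1 + (m : ℝ) ^ 2)))
      (fun o : Option ℤ => o.elim (1 : ℝ)
        (fun m => (cntIF (gv n X) (y + (m : ℝ) / n) (1 / (n : ℝ)) : ℝ))) W
      (by
        intro o _
        cases o with
        | none => simp
        | some m => simp only [Option.elim]; positivity)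
      (by
        intro o _
        cases o with
        | none => simp
        | some m => simp only [Option.elim]; positivity)
      (by
        rw [Finset.sum_insertNone]
        simp only [Option.elim]
        have : 0 ≤ ∑ m ∈ S, (2 / (1 + (m : ℝ) ^ 2)) := Finset.sum_nonneg fun m _ => by positivity
        linarith)
      (by
        rw [Finset.sum_insertNone]
        simp only [Option.elim]
        exact hW S) p
    rw [Finset.sum_insertNone, Finset.sum_insertNone] at h8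
    simpa only [Option.elim, one_mul, one_pow] using h8
  have hR : Integrable (fun X => (n : ℝ) ^ (p * c) * (W ^ p *
      (1 + ∑ m ∈ S, (2 / (1 + (m : ℝ) ^ 2)) *
        (cntIF (gv n X) (y + (m : ℝ) / n) (1 / (n : ℝ)) : ℝ) ^ p))) (gm n) := by
    refine (((integrable_const (1 : ℝ)).add (integrable_finsetSum _ fun m _ => ?_)).const_mul
      _).const_mul _
    exact (gv_int n _ _ p).const_mul _
  have h9 := integral_mono hint hR hpt
  refine h9.trans ?_
  rw [integral_const_mul, integral_const_mul, integral_add (integrable_const _)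
    (integrable_finsetSum _ fun m _ => (gv_int n _ _ p).const_mul _), integral_const,
    integral_finsetSum _ (fun m _ => (gv_int n _ _ p).const_mul _)]
  simp only [probReal_univ, smul_eq_mul, mul_one]
  have h10 : ∑ m ∈ S, ∫ X, (2 / (1 + (m : ℝ) ^ 2)) *
      (cntIF (gv n X) (y + (m : ℝ) / n) (1 / (n : ℝ)) : ℝ) ^ p ∂(gm n) ≤ W * C := by
    calc ∑ m ∈ S, ∫ X, (2 / (1 + (m : ℝ) ^ 2)) *
          (cntIF (gv n X) (y + (m : ℝ) / n) (1 / (n : ℝ)) : ℝ) ^ p ∂(gm n)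
        ≤ ∑ m ∈ S, (2 / (1 + (m : ℝ) ^ 2)) * C := by
          refine Finset.sum_le_sum fun m _ => ?_
          rw [integral_const_mul]
          exact mul_le_mul_of_nonneg_left (hC n hn _) (by positivity)
      _ = (∑ m ∈ S, (2 / (1 + (m : ℝ) ^ 2))) * C := by rw [Finset.sum_mul]
      _ ≤ W * C := by
          refine mul_le_mul_of_nonneg_right ?_ hC0
          have := hW S
          linarith
  rw [mul_comm]
  refine mul_le_mul_of_nonneg_right ?_ (Real.rpow_nonneg hn'.le _)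
  refine mul_le_mul_of_nonneg_left ?_ (by positivity)
  linarith

private theorem ceil_le {n : ℕ} (hn : 0 < n) {r : ℝ} (hr : 1 / (n : ℝ) ≤ r) :
    (⌈(n : ℝ) * r⌉₊ : ℝ) ≤ 2 * (n * r) ∧ 1 ≤ (n : ℝ) * r := by
  have hn' : (0 : ℝ) < n := by exact_mod_cast hn
  have hnr : 1 ≤ (n : ℝ) * r := by
    have := mul_le_mul_of_nonneg_left hr hn'.le
    rwa [mul_one_div_cancel hn'.ne'] at this
  have := Nat.ceil_lt_add_one (by linarith : (0 : ℝ) ≤ n * r)
  exact ⟨by linarith, hnr⟩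

/-- moments of the counts at all scales `≥ 1/n` -/
private theorem mom_cnt (h1 : J1) (p : ℕ) : ∃ C : ℝ, 0 ≤ C ∧ ∀ n : ℕ, 0 < n → ∀ x r : ℝ,
    1 / (n : ℝ) ≤ r →
    ∫ X, (cntIF (gv n X) x r : ℝ) ^ (p + 1) ∂(gm n) ≤ C * (n * r) ^ (p + 1) := by
  obtain ⟨C, hC0, hC⟩ := J1' h1 (p + 1)
  refine ⟨C * 2 ^ (p + 1), by positivity, ?_⟩
  intro n hn x r hr
  have hn' : (0 : ℝ) < n := by exact_mod_cast hn
  obtain ⟨hL, hnr⟩ := ceil_le hn hr
  set L : ℕ := ⌈(n : ℝ) * r⌉₊ with hLdef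
  have hpt : ∀ X, (cntIF (gv n X) x r : ℝ) ^ (p + 1) ≤ (L : ℝ) ^ p * ∑ i ∈ Finset.range L,
      (cntIF (gv n X) (x - r + (2 * (i : ℝ) + 1) / n) (1 / (n : ℝ)) : ℝ) ^ (p + 1) := by
    intro X
    have h2 := cntIF_cover hn (gv n X) x r hr
    have h3 := pow_le_pow_left₀ (by positivity) h2 (p + 1)
    refine h3.trans ?_
    have h4 := pow_sum_le_card_mul_sum_pow (s := Finset.range L)
      (f := fun i : ℕ => (cntIF (gv n X) (x - r + (2 * (i : ℝ) + 1) / n) (1 / (n : ℝ)) : ℝ))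
      (fun i _ => by positivity) p
    rw [Finset.card_range] at h4
    exact h4
  have hR : Integrable (fun X => (L : ℝ) ^ p * ∑ i ∈ Finset.range L,
      (cntIF (gv n X) (x - r + (2 * (i : ℝ) + 1) / n) (1 / (n : ℝ)) : ℝ) ^ (p + 1)) (gm n) :=
    (integrable_finsetSum _ fun i _ => gv_int n _ _ (p + 1)).const_mul _
  have h9 := integral_mono (gv_int n x r (p + 1)) hR hpt
  refine h9.trans ?_
  rw [integral_const_mul, integral_finsetSum _ (fun i _ => gv_int n _ _ (p + 1))]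
  have h10 : ∑ i ∈ Finset.range L, ∫ X,
      (cntIF (gv n X) (x - r + (2 * (i : ℝ) + 1) / n) (1 / (n : ℝ)) : ℝ) ^ (p + 1) ∂(gm n)
      ≤ L * C := by
    calc _ ≤ ∑ _i ∈ Finset.range L, C := Finset.sum_le_sum fun i _ => hC n hn _
      _ = L * C := by rw [Finset.sum_const, Finset.card_range, nsmul_eq_mul]
  calc (L : ℝ) ^ p * ∑ i ∈ Finset.range L, ∫ X,
      (cntIF (gv n X) (x - r + (2 * (i : ℝ) + 1) / n) (1 / (n : ℝ)) : ℝ) ^ (p + 1) ∂(gm n)
      ≤ (L : ℝ) ^ p * (L * C) := mul_le_mul_of_nonneg_left h10 (by positivity)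
    _ = C * (L : ℝ) ^ (p + 1) := by ring
    _ ≤ C * (2 * (n * r)) ^ (p + 1) :=
        mul_le_mul_of_nonneg_left (pow_le_pow_left₀ (by positivity) hL _) hC0
    _ = C * 2 ^ (p + 1) * (n * r) ^ (p + 1) := by rw [mul_pow]; ring

theorem loc_G (h1 : J1) (ν D : ℝ) (hν : 0 < ν) (hD : 0 < D) :
    ∃ n0 : ℕ, ∀ n : ℕ, n0 ≤ n → ∀ x r : ℝ, 1 / (n : ℝ) ≤ r →
      (gm n).real {X | (n : ℝ) ^ ν * (n * r) ≤
        (cntI (Wv (N := n) (1 / (n : ℝ)) X) x r : ℝ)} ≤ (n : ℝ) ^ (-D) := by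
  obtain ⟨p, hp⟩ := exists_nat_ge ((D + 1) / ν)
  have hp' : D + 1 ≤ ν * (p + 1 : ℕ) := by
    rw [div_le_iff₀ hν] at hp
    push_cast
    nlinarith
  obtain ⟨C, hC0, hC⟩ := mom_cnt h1 p
  refine ⟨max 1 ⌈C⌉₊, fun n hn x r hr => ?_⟩
  have hn0 : 0 < n := lt_of_lt_of_le one_pos ((le_max_left _ _).trans hn)
  have hnC : C ≤ n := (Nat.le_ceil C).trans (by exact_mod_cast (le_max_right _ _).trans hn)
  have hn' : (0 : ℝ) < n := by exact_mod_cast hn0
  have hn1 : (1 : ℝ) ≤ n := by exact_mod_cast hn0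
  obtain ⟨hL, hnr⟩ := ceil_le hn0 hr
  simp_rw [cntI_gv]
  set T : ℝ := (n : ℝ) ^ ν * (n * r) with hT
  have hTpos : 0 < T := by
    have := Real.rpow_pos_of_pos hn' ν
    positivity
  have hsub : {X | T ≤ (cntIF (gv n X) x r : ℝ)} ⊆
      {X | T ^ (p + 1) ≤ (cntIF (gv n X) x r : ℝ) ^ (p + 1)} := by
    intro X hX
    exact pow_le_pow_left₀ hTpos.le hX _
  have h2 := mul_meas_ge_le_integral_of_nonneg (μ := gm n)
    (f := fun X => (cntIF (gv n X) x r : ℝ) ^ (p + 1))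
    (Filter.Eventually.of_forall fun X => by positivity) (gv_int n x r (p + 1)) (T ^ (p + 1))
  have h3 : T ^ (p + 1) * (gm n).real {X | T ≤ (cntIF (gv n X) x r : ℝ)}
      ≤ C * (n * r) ^ (p + 1) := by
    refine le_trans ?_ (h2.trans (hC n hn0 x r hr))
    exact mul_le_mul_of_nonneg_left (measureReal_mono hsub) (by positivity)
  have h4 : T ^ (p + 1) = (n : ℝ) ^ (ν * (p + 1 : ℕ)) * (n * r) ^ (p + 1) := by
    rw [hT, mul_pow, ← Real.rpow_natCast ((n : ℝ) ^ ν) (p + 1), ← Real.rpow_mul hn'.le]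
  have h5 : (0 : ℝ) < (n * r) ^ (p + 1) := by positivity
  rw [h4] at h3
  have h6 : (n : ℝ) ^ (ν * (p + 1 : ℕ)) * (gm n).real {X | T ≤ (cntIF (gv n X) x r : ℝ)} ≤ C := by
    by_contra hcon
    push Not at hcon
    have := mul_lt_mul_of_pos_right hcon h5
    nlinarith
  have h7 : (n : ℝ) ^ (D + 1) ≤ (n : ℝ) ^ (ν * (p + 1 : ℕ)) :=
    Real.rpow_le_rpow_of_exponent_le hn1 hp'
  have h8 : (n : ℝ) ^ (D + 1) * (gm n).real {X | T ≤ (cntIF (gv n X) x r : ℝ)} ≤ n :=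
    (mul_le_mul_of_nonneg_right h7 measureReal_nonneg).trans (h6.trans hnC)
  have h9 : (n : ℝ) ^ (D + 1) = (n : ℝ) ^ D * n := by
    rw [Real.rpow_add hn', Real.rpow_one]
  rw [h9] at h8
  have h10 : (n : ℝ) ^ D * (gm n).real {X | T ≤ (cntIF (gv n X) x r : ℝ)} ≤ 1 := by
    by_contra hcon
    push Not at hcon
    have := mul_lt_mul_of_pos_right hcon hn'
    nlinarith
  rw [Real.rpow_neg hn'.le, ← one_div, le_div_iff₀ (Real.rpow_pos_of_pos hn' D)]
  linarith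

theorem loc_G1 (h1 : J1) :
    ∃ C : ℝ, 0 ≤ C ∧ ∀ n : ℕ, 0 < n → ∀ x r : ℝ, 1 / (n : ℝ) ≤ r →
      ∫ X, (cntI (Wv (N := n) (1 / (n : ℝ)) X) x r : ℝ) ∂(gm n) ≤ C * (n * r) := by
  obtain ⟨C, hC0, hC⟩ := mom_cnt h1 0
  refine ⟨C, hC0, fun n hn x r hr => ?_⟩
  have := hC n hn x r hr
  simpa only [cntI_gv, zero_add, pow_one] using this

end Pool.Agent.ZR

end

section

/-!
# ZBL/G10 : `(L - k) hop k θ₁ g = cos^k θ₁ P_θ₁ g - g`

Proof.  By `pd_hop` twice, `pd i (hop k g) = hop (k+1) (pd i g)`,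
`pd i (pd i (hop k g)) = hop (k+2) (pd i (pd i g))`, so
  `LO (hop k θ₁ g) x - k hop k θ₁ g x = ∫_0^{θ₁} tan θ [cos^(k+2) θ ∑ PT θ (pd i (pd i g)) x`
      `- cos^(k+1) θ ∑ x_i PT θ (pd i g) x - k cos^k θ PT θ g x] dθ`
(`intervalIntegral.integral_finset_sum`, `integral_sub`, integrability from continuity in `θ` on
`[0, θ₁]`: `PT_cont`, `Real.continuousOn_tan`).  By `hasDerivAt_PT` the integrand is the derivative of
`cos^k θ PT θ g x`; FTC (`intervalIntegral.integral_eq_sub_of_hasDerivAt`) gives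
`cos^k θ₁ PT θ₁ g x - cos^k 0 PT 0 g x`, and `PT 0 g x = g x` (`cos 0 = 1`, `sin 0 = 0`).
-/


open MeasureTheory ProbabilityTheory Matrix

namespace Pool.Agent.ZR.BL

variable {ι : Type} [Fintype ι] [DecidableEq ι]

theorem LO_hop {θ₁ : ℝ} (h0 : 0 ≤ θ₁) (h1 : θ₁ < Real.pi / 2) (k : ℕ) {g : (ι → ℝ) → ℝ}
    (hg : CB 2 g) (x : ι → ℝ) :
    LO (hop k θ₁ g) x - (k : ℝ) * hop k θ₁ g x = Real.cos θ₁ ^ k * PT θ₁ g x - g x := by
  have hpi := Real.pi_pos
  have hcos : ∀ θ ∈ Set.uIcc 0 θ₁, Real.cos θ ≠ 0 := by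
    intro θ hθ
    rw [Set.uIcc_of_le h0] at hθ
    have : 0 < Real.cos θ := Real.cos_pos_of_mem_Ioo ⟨by linarith [hθ.1], by linarith [hθ.2]⟩
    exact this.ne'
  have hint : ∀ (m : ℕ) (h : (ι → ℝ) → ℝ), CB 0 h →
      IntervalIntegrable (fun θ => Real.tan θ * Real.cos θ ^ m * PT θ h x) volume 0 θ₁ := by
    intro m h hh
    apply ContinuousOn.intervalIntegrable
    apply ContinuousOn.mul
    · apply ContinuousOn.mul
      · exact Real.continuousOn_tan.mono (fun θ hθ => hcos θ hθ)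
      · exact (Real.continuous_cos.pow m).continuousOn
    · have h1 : Continuous (fun θ : ℝ => PT θ h x) :=
        (PT_cont hh).comp (continuous_id.prodMk continuous_const)
      exact h1.continuousOn
  have hg1 : CB 1 g := CB.mono1 hg
  have hg0 : CB 0 g := CB.mono1 hg1
  have hgi : ∀ i, CB 1 (pd i g) := fun i => CB.pd hg i
  have hgi0 : ∀ i, CB 0 (pd i g) := fun i => CB.mono1 (hgi i)
  have hgii : ∀ i, CB 0 (pd i (pd i g)) := fun i => CB.pd (hgi i) i
  -- derivatives of hop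
  have e1 : ∀ i, pd i (hop k θ₁ g) = hop (k + 1) θ₁ (pd i g) := fun i => pd_hop h0 h1 k hg1 i
  have e2 : ∀ i, pd i (pd i (hop k θ₁ g)) = hop (k + 2) θ₁ (pd i (pd i g)) := by
    intro i
    rw [e1 i]
    exact pd_hop h0 h1 (k + 1) (hgi i) i
  have hLO : LO (hop k θ₁ g) x = ∑ i, (hop (k + 2) θ₁ (pd i (pd i g)) x
      - x i * hop (k + 1) θ₁ (pd i g) x) := by
    unfold LO
    refine Finset.sum_congr rfl fun i _ => ?_
    rw [e2 i, e1 i]
  -- the derivative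
  set F : ℝ → ℝ := fun θ => Real.tan θ * (Real.cos θ ^ (k + 2) * ∑ i, PT θ (pd i (pd i g)) x
        - Real.cos θ ^ (k + 1) * ∑ i, x i * PT θ (pd i g) x
        - (k : ℝ) * Real.cos θ ^ k * PT θ g x) with hF
  have hFeq : F = fun θ => (∑ i, (Real.tan θ * Real.cos θ ^ (k + 2) * PT θ (pd i (pd i g)) x
      - x i * (Real.tan θ * Real.cos θ ^ (k + 1) * PT θ (pd i g) x)))
      - (k : ℝ) * (Real.tan θ * Real.cos θ ^ k * PT θ g x) := by
    funext θ
    simp only [hF]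
    rw [Finset.sum_sub_distrib]
    have a1 : ∑ i, Real.tan θ * Real.cos θ ^ (k + 2) * PT θ (pd i (pd i g)) x =
        Real.tan θ * Real.cos θ ^ (k + 2) * ∑ i, PT θ (pd i (pd i g)) x := by
      rw [Finset.mul_sum]
    have a2 : ∑ i, x i * (Real.tan θ * Real.cos θ ^ (k + 1) * PT θ (pd i g) x) =
        Real.tan θ * Real.cos θ ^ (k + 1) * ∑ i, x i * PT θ (pd i g) x := by
      rw [Finset.mul_sum]
      refine Finset.sum_congr rfl fun i _ => ?_
      ring
    rw [a1, a2]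
    ring
  have hterm : ∀ i ∈ (Finset.univ : Finset ι), IntervalIntegrable
      (fun θ => Real.tan θ * Real.cos θ ^ (k + 2) * PT θ (pd i (pd i g)) x
      - x i * (Real.tan θ * Real.cos θ ^ (k + 1) * PT θ (pd i g) x)) volume 0 θ₁ := by
    intro i _
    exact (hint (k + 2) _ (hgii i)).sub ((hint (k + 1) _ (hgi0 i)).const_mul (x i))
  have hsumint : IntervalIntegrable (fun θ => ∑ i, (Real.tan θ * Real.cos θ ^ (k + 2) *
      PT θ (pd i (pd i g)) x - x i * (Real.tan θ * Real.cos θ ^ (k + 1) * PT θ (pd i g) x)))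
      volume 0 θ₁ := by
    have := IntervalIntegrable.sum Finset.univ hterm
    refine this.congr ?_
    intro θ _
    simp only [Finset.sum_apply]
  have hk : IntervalIntegrable (fun θ => (k : ℝ) * (Real.tan θ * Real.cos θ ^ k * PT θ g x))
      volume 0 θ₁ := (hint k g hg0).const_mul _
  have hFint : IntervalIntegrable F volume 0 θ₁ := by
    rw [hFeq]
    exact hsumint.sub hk
  have hder : ∀ θ ∈ Set.uIcc 0 θ₁, HasDerivAt (fun θ => Real.cos θ ^ k * PT θ g x) (F θ) θ :=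
    fun θ hθ => hasDerivAt_PT hg k x θ (hcos θ hθ)
  have ftc := intervalIntegral.integral_eq_sub_of_hasDerivAt hder hFint
  have hPT0 : PT 0 g x = g x := by
    unfold PT
    simp
  have hlhs : ∫ θ in (0 : ℝ)..θ₁, F θ = LO (hop k θ₁ g) x - (k : ℝ) * hop k θ₁ g x := by
    rw [hFeq, hLO]
    rw [intervalIntegral.integral_sub hsumint hk, intervalIntegral.integral_const_mul,
      intervalIntegral.integral_finsetSum hterm]
    congr 1
    refine Finset.sum_congr rfl fun i _ => ?_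
    rw [intervalIntegral.integral_sub (hint (k + 2) _ (hgii i))
      ((hint (k + 1) _ (hgi0 i)).const_mul (x i)), intervalIntegral.integral_const_mul]
    rfl
  rw [← hlhs, ftc]
  rw [hPT0, Real.cos_zero, one_pow, one_mul]

end Pool.Agent.ZR.BL

end

section

/-!
# ZR, part G: error of the switching identities, on the good event.

`Fm` is the integrand of `Ecal`; `MainN = n³ √n * Fm` (`mainN_eq`): uses `toC (Mx σ) =
√n • toC (H0 σ)`, `√n * √n = n`, `m = (1/n) tr G`.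
`err_good`: `MainN - CycI - PthI = E1 Θ + E2 Θ + E3 Θ + (α/√n)(E4 Θ + (1/n) ∑_l E5_l Θ_l)` with
`E1 = n² tr(MG) - n² ∑ M_ii G_ii - SL`, `E2 = n² ∑ M_ii G_ii - n tr M tr G - SP`,
`E3 = n tr M tr G`, `E4 = n² (tr G² + (tr G)²) - SR`, `E5_l = 2 n² tr (G V_l) - SV`.
`|Θ| ≤ Ξ`, `|Θ_l| ≤ Ξ n η` (the missing factor of `Ξ` is at least `1/(nη)`), `0 ≤ α ≤ 1`.
`1/√n * n³ = n² √n`.  Constants `157 + 25 + 276 + 276 K`; `E3`: `n |tr M| n p`.
`sg_mx`: `toC (Mx σ)` is a sign matrix with zero row sums (`Mx_symm`, `Mx_row` of C1).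
-/


open MeasureTheory ProbabilityTheory Matrix

namespace Pool.Agent.ZR.G

theorem sg_mx {n : ℕ} {σ : Fin n → Fin n → Bool} (hσ : σ ∈ Sn n) : IsSg (toC (Mx σ)) := by
  refine ⟨fun i j => ?_, fun i j => ?_, fun i => ?_⟩
  · simp only [toC, Matrix.map_apply]
    rw [Mx_symm hσ i j]
  · simp only [toC, Matrix.map_apply, Mx, Matrix.of_apply]
    by_cases h : σ i j
    · left; simp [h]
    · right; simp [h]
  · simp only [toC, Matrix.map_apply]
    have h := congrArg (fun x : ℝ => (x : ℂ)) (Mx_row hσ i)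
    simpa using h

/-- the integrand of `Ecal` -/
noncomputable def Fm {n K : ℕ} (α β : ℝ) (zl cl : Fin K → ℂ) (z : ℂ)
    (σ : Fin n → Fin n → Bool) (X : Fin n × Fin n → ℝ) : ℂ :=
    ((1 / (n : ℂ)) * (toC (H0 σ) * Gz (Pn n) (Bm α β σ X) z).trace
      + (α : ℂ) * ((mz (Pn n) (Bm α β σ X) z) ^ 2
        + (1 / (n : ℂ) ^ 2) * (Gz (Pn n) (Bm α β σ X) z ^ 2).trace))
      * ∏ l, (mz (Pn n) (Bm α β σ X) (zl l) - cl l)
    + (2 * (α : ℂ) / (n : ℂ) ^ 3) * ∑ l,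
        (Gz (Pn n) (Bm α β σ X) z * Gz (Pn n) (Bm α β σ X) (zl l) ^ 2).trace
          * ∏ l' ∈ Finset.univ.erase l, (mz (Pn n) (Bm α β σ X) (zl l') - cl l')

theorem ecal_eq {n K : ℕ} (α β : ℝ) (zl cl : Fin K → ℂ) (z : ℂ) :
    Ecal n α β zl cl z = EJ (n := n) (fun σ X => Fm α β zl cl z σ X) := rfl

/-- `n³ √n` times the integrand -/
noncomputable def MainN {n K : ℕ} (α β : ℝ) (zl cl : Fin K → ℂ) (z : ℂ)
    (σ : Fin n → Fin n → Bool) (X : Fin n × Fin n → ℝ) : ℂ :=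
  (n : ℂ) ^ 2 * (toC (Mx σ) * Gz (Pn n) (Bm α β σ X) z).trace * Th (Pn n) (Bm α β σ X) zl cl
    + ((α / Real.sqrt n : ℝ) : ℂ) *
      ((n : ℂ) ^ 2 * ((Gz (Pn n) (Bm α β σ X) z ^ 2).trace
          + (Gz (Pn n) (Bm α β σ X) z).trace ^ 2) * Th (Pn n) (Bm α β σ X) zl cl
        + (1 / (n : ℂ)) * ∑ l, 2 * (n : ℂ) ^ 2 *
            (Gz (Pn n) (Bm α β σ X) z * Gz (Pn n) (Bm α β σ X) (zl l) ^ 2).trace
              * ThE (Pn n) (Bm α β σ X) zl cl l)

theorem mainN_eq {n K : ℕ} (hn : 0 < n) (α β : ℝ) (zl cl : Fin K → ℂ) (z : ℂ)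
    (σ : Fin n → Fin n → Bool) (X : Fin n × Fin n → ℝ) :
    MainN α β zl cl z σ X = (((n : ℝ) ^ 3 * Real.sqrt n : ℝ) : ℂ) * Fm α β zl cl z σ X := by
  have hsn : Real.sqrt n ≠ 0 := by
    have : (0 : ℝ) < n := by exact_mod_cast hn
    positivity
  have hs2 : Real.sqrt n ^ 2 = (n : ℝ) := Real.sq_sqrt (by positivity)
  have hH : (toC (H0 σ) * Gz (Pn n) (Bm α β σ X) z).trace
      = (1 / ((Real.sqrt n : ℝ) : ℂ)) * (toC (Mx σ) * Gz (Pn n) (Bm α β σ X) z).trace := by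
    have h1 : toC (H0 σ) = (1 / ((Real.sqrt n : ℝ) : ℂ)) • toC (Mx σ) := by
      ext i j
      simp only [toC, H0, Matrix.map_apply, Matrix.smul_apply, smul_eq_mul]
      push_cast
      rfl
    rw [h1, Matrix.smul_mul, Matrix.trace_smul, smul_eq_mul]
  have hsum : ∑ l, 2 * (n : ℂ) ^ 2 *
            (Gz (Pn n) (Bm α β σ X) z * Gz (Pn n) (Bm α β σ X) (zl l) ^ 2).trace
              * ThE (Pn n) (Bm α β σ X) zl cl l = 2 * (n : ℂ) ^ 2 * ∑ l,
            (Gz (Pn n) (Bm α β σ X) z * Gz (Pn n) (Bm α β σ X) (zl l) ^ 2).trace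
              * ThE (Pn n) (Bm α β σ X) zl cl l := by
    rw [Finset.mul_sum]
    refine Finset.sum_congr rfl fun l _ => ?_
    ring
  unfold MainN Fm
  rw [hsum, hH]
  unfold ThE Th mz
  have hnc : (n : ℂ) = ((Real.sqrt n : ℝ) : ℂ) ^ 2 := by
    have := congrArg (fun x : ℝ => (x : ℂ)) hs2
    push_cast at this
    exact this.symm
  have hs0 : ((Real.sqrt n : ℝ) : ℂ) ≠ 0 := by exact_mod_cast hsn
  push_cast
  generalize (∑ l, (Gz (Pn n) (Bm α β σ X) z * Gz (Pn n) (Bm α β σ X) (zl l) ^ 2).trace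
      * ∏ l' ∈ Finset.univ.erase l,
        ((1 / (n : ℂ)) * (Gz (Pn n) (Bm α β σ X) (zl l')).trace - cl l')) = S
  generalize (∏ l, ((1 / (n : ℂ)) * (Gz (Pn n) (Bm α β σ X) (zl l)).trace - cl l)) = Θ
  generalize (toC (Mx σ) * Gz (Pn n) (Bm α β σ X) z).trace = T
  generalize (Gz (Pn n) (Bm α β σ X) z ^ 2).trace = A
  generalize (Gz (Pn n) (Bm α β σ X) z).trace = B'
  generalize hsg : ((Real.sqrt n : ℝ) : ℂ) = s at hnc hs0 ⊢
  rw [hnc]
  field_simp
  ring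

theorem th_le {N K : ℕ} (Q B : Matrix (Fin N) (Fin N) ℝ) (zl cl : Fin K → ℂ) (ρ : ℝ)
    (hρ : 0 ≤ ρ) : ‖Th Q B zl cl‖ ≤ Xw Q B zl cl ρ := by
  unfold Th Xw
  rw [norm_prod]
  exact Finset.prod_le_prod (fun l _ => norm_nonneg _) (fun l _ => by linarith)

theorem thE_le {N K : ℕ} (Q B : Matrix (Fin N) (Fin N) ℝ) (zl cl : Fin K → ℂ) (ρ : ℝ)
    (hρ : 0 < ρ) (l : Fin K) : ‖ThE Q B zl cl l‖ * ρ ≤ Xw Q B zl cl ρ := by
  unfold ThE Xw
  rw [norm_prod, ← Finset.prod_erase_mul Finset.univ _ (Finset.mem_univ l)]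
  refine mul_le_mul ?_ ?_ hρ.le ?_
  · exact Finset.prod_le_prod (fun l _ => norm_nonneg _) (fun l _ => by linarith)
  · have := norm_nonneg (mz Q B (zl l) - cl l)
    linarith
  · exact Finset.prod_nonneg fun l _ => add_nonneg (norm_nonneg _) hρ.le

theorem err_good {n K : ℕ} {α β η : ℝ} {zl cl : Fin K → ℂ} {z : ℂ}
    (hP : Par n α β η zl cl z) (p : ℝ) (hp : 1 ≤ p) (hx : 1 / η ≤ n * p)
    {σ : Fin n → Fin n → Bool} (hσ : σ ∈ Sn n) (X : Fin n × Fin n → ℝ)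
    (hg : Gd α β η p zl z σ X) :
    ‖MainN α β zl cl z σ X - CycI α β zl cl z σ X - PthI α β zl cl z σ X‖
      ≤ ((458 + 276 * K) * ((n : ℝ) ^ 2 * Real.sqrt n * p ^ 4)
          + n ^ 2 * p * |(Mx σ).trace|) * Xw (Pn n) (Bm α β σ X) zl cl (1 / (n * η)) := by
  obtain ⟨hL, hB, hBl⟩ := hg
  have hn1 : 1 ≤ n := by have := hP.n2; omega
  have hn0 : (0 : ℝ) < n := by exact_mod_cast hn1
  have hη : 0 < η := hP.e0
  have hα1 : α ≤ 1 := by nlinarith [hP.ab, hP.a0, sq_nonneg β, sq_nonneg (α - 1)]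
  have hM := sg_mx hσ
  have hp0 : 0 < p := by linarith
  have hsq : 0 < Real.sqrt n := Real.sqrt_pos.2 hn0
  have hsq2 : Real.sqrt n * Real.sqrt n = n := Real.mul_self_sqrt hn0.le
  have hρ : 0 < 1 / ((n : ℝ) * η) := by positivity
  have htr : ‖(toC (Mx σ)).trace‖ = |(Mx σ).trace| := by
    have h1 : (toC (Mx σ)).trace = (((Mx σ).trace : ℝ) : ℂ) := by
      simp only [Matrix.trace, Matrix.diag_apply, toC, Matrix.map_apply]
      push_cast
      rfl
    rw [h1, Complex.norm_real, Real.norm_eq_abs]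
  have hΘ := th_le (Pn n) (Bm α β σ X) zl cl (1 / (n * η)) hρ.le
  have hΘl := fun l => thE_le (Pn n) (Bm α β σ X) zl cl (1 / (n * η)) hρ l
  have hX0 : 0 ≤ Xw (Pn n) (Bm α β σ X) zl cl (1 / (n * η)) := (norm_nonneg _).trans hΘ
  have e1 := g_l hn1 hM η p hη hp hx hL hB
  have e2 := g_p hn1 hM η p hη hp hL hB
  have e3 := g_r hn1 hM η p hη hp hx hL hB
  have e4 := fun l => g_v hn1 hM η p hη hp hx hL hB (hBl l)
  have e5 := g_t η p hB
  set M := toC (Mx σ) with hMdef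
  set G := Gz (Pn n) (Bm α β σ X) z with hGdef
  set Θ := Th (Pn n) (Bm α β σ X) zl cl with hΘdef
  set Y := Xw (Pn n) (Bm α β σ X) zl cl (1 / (n * η)) with hYdef
  have hid : MainN α β zl cl z σ X - CycI α β zl cl z σ X - PthI α β zl cl z σ X
      = ((n : ℂ) ^ 2 * (M * G).trace - SL M G - SP M G) * Θ
        + ((α / Real.sqrt n : ℝ) : ℂ) * (((n : ℂ) ^ 2 * ((G ^ 2).trace + G.trace ^ 2) - SR M G) * Θ
          + (1 / (n : ℂ)) * ∑ l, (2 * (n : ℂ) ^ 2 *
              (G * Gz (Pn n) (Bm α β σ X) (zl l) ^ 2).trace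
              - SV M G (Gz (Pn n) (Bm α β σ X) (zl l) ^ 2))
              * ThE (Pn n) (Bm α β σ X) zl cl l) := by
    unfold MainN CycI PthI
    simp only [sub_mul, Finset.sum_sub_distrib]
    ring
  have b1 : ‖(n : ℂ) ^ 2 * (M * G).trace - SL M G - SP M G‖
      ≤ 182 * ((n : ℝ) ^ 2 * Real.sqrt n * p ^ 4) + n ^ 2 * p * |(Mx σ).trace| := by
    have h1 : (n : ℂ) ^ 2 * (M * G).trace - SL M G - SP M G
        = -(SL M G - ((n : ℂ) ^ 2 * (M * G).trace - (n : ℂ) ^ 2 * ∑ i, M i i * G i i))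
          - (SP M G - ((n : ℂ) ^ 2 * (∑ i, M i i * G i i) - (n : ℂ) * M.trace * G.trace))
          + (n : ℂ) * M.trace * G.trace := by ring
    rw [h1]
    refine (norm_add_le _ _).trans ?_
    refine (add_le_add (norm_sub_le _ _) le_rfl).trans ?_
    rw [norm_neg]
    have h2 : ‖(n : ℂ) * M.trace * G.trace‖ ≤ n ^ 2 * p * |(Mx σ).trace| := by
      rw [norm_mul, norm_mul, Complex.norm_natCast, htr]
      calc (n : ℝ) * |(Mx σ).trace| * ‖G.trace‖ ≤ (n : ℝ) * |(Mx σ).trace| * (n * p) :=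
            mul_le_mul_of_nonneg_left e5 (by positivity)
        _ = n ^ 2 * p * |(Mx σ).trace| := by ring
    linarith
  have b2 : ‖(n : ℂ) ^ 2 * ((G ^ 2).trace + G.trace ^ 2) - SR M G‖
      ≤ 276 * ((n : ℝ) ^ 3 * p ^ 4) := by
    rw [norm_sub_rev]
    exact e3
  have b3 : ∀ l, ‖(2 * (n : ℂ) ^ 2 * (G * Gz (Pn n) (Bm α β σ X) (zl l) ^ 2).trace
      - SV M G (Gz (Pn n) (Bm α β σ X) (zl l) ^ 2)) * ThE (Pn n) (Bm α β σ X) zl cl l‖
      ≤ 276 * ((n : ℝ) ^ 4 * p ^ 4) * Y := by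
    intro l
    rw [norm_mul, norm_sub_rev]
    have h1 : ‖ThE (Pn n) (Bm α β σ X) zl cl l‖ ≤ n * η * Y := by
      have h2 := hΘl l
      have h3 : ‖ThE (Pn n) (Bm α β σ X) zl cl l‖
          = ‖ThE (Pn n) (Bm α β σ X) zl cl l‖ * (1 / (n * η)) * (n * η) := by
        field_simp
      rw [h3]
      calc ‖ThE (Pn n) (Bm α β σ X) zl cl l‖ * (1 / (n * η)) * (n * η)
          ≤ Y * (n * η) := mul_le_mul_of_nonneg_right h2 (by positivity)
        _ = n * η * Y := by ring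
    calc _ ≤ (276 * ((n : ℝ) ^ 3 * p ^ 4 / η)) * (n * η * Y) :=
          mul_le_mul (e4 l) h1 (norm_nonneg _) (by positivity)
      _ = 276 * ((n : ℝ) ^ 4 * p ^ 4) * Y := by
          field_simp
  have b4 : ‖(1 / (n : ℂ)) * ∑ l, (2 * (n : ℂ) ^ 2 *
              (G * Gz (Pn n) (Bm α β σ X) (zl l) ^ 2).trace
              - SV M G (Gz (Pn n) (Bm α β σ X) (zl l) ^ 2))
              * ThE (Pn n) (Bm α β σ X) zl cl l‖ ≤ K * (276 * ((n : ℝ) ^ 3 * p ^ 4) * Y) := by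
    rw [norm_mul, norm_div, norm_one, Complex.norm_natCast]
    have h1 : ‖∑ l, (2 * (n : ℂ) ^ 2 *
              (G * Gz (Pn n) (Bm α β σ X) (zl l) ^ 2).trace
              - SV M G (Gz (Pn n) (Bm α β σ X) (zl l) ^ 2))
              * ThE (Pn n) (Bm α β σ X) zl cl l‖ ≤ K * (276 * ((n : ℝ) ^ 4 * p ^ 4) * Y) := by
      refine (norm_sum_le_of_le _ (fun l _ => b3 l)).trans ?_
      rw [Finset.sum_const, Finset.card_univ, Fintype.card_fin, nsmul_eq_mul]
    calc _ ≤ 1 / (n : ℝ) * (K * (276 * ((n : ℝ) ^ 4 * p ^ 4) * Y)) :=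
          mul_le_mul_of_nonneg_left h1 (by positivity)
      _ = K * (276 * ((n : ℝ) ^ 3 * p ^ 4) * Y) := by
          field_simp
  have b5 : ‖((α / Real.sqrt n : ℝ) : ℂ)‖ ≤ 1 / Real.sqrt n := by
    rw [Complex.norm_real, Real.norm_eq_abs, abs_of_nonneg (div_nonneg hP.a0 hsq.le)]
    exact div_le_div_of_nonneg_right hα1 hsq.le
  rw [hid]
  refine (norm_add_le _ _).trans ?_
  rw [norm_mul, norm_mul]
  have c1 : ‖(n : ℂ) ^ 2 * (M * G).trace - SL M G - SP M G‖ * ‖Θ‖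
      ≤ (182 * ((n : ℝ) ^ 2 * Real.sqrt n * p ^ 4) + n ^ 2 * p * |(Mx σ).trace|) * Y :=
    mul_le_mul b1 hΘ (norm_nonneg _) (by positivity)
  have c2 : ‖((n : ℂ) ^ 2 * ((G ^ 2).trace + G.trace ^ 2) - SR M G) * Θ
          + (1 / (n : ℂ)) * ∑ l, (2 * (n : ℂ) ^ 2 *
              (G * Gz (Pn n) (Bm α β σ X) (zl l) ^ 2).trace
              - SV M G (Gz (Pn n) (Bm α β σ X) (zl l) ^ 2))
              * ThE (Pn n) (Bm α β σ X) zl cl l‖
      ≤ 276 * ((n : ℝ) ^ 3 * p ^ 4) * Y + K * (276 * ((n : ℝ) ^ 3 * p ^ 4) * Y) := by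
    refine (norm_add_le _ _).trans (add_le_add ?_ b4)
    rw [norm_mul]
    exact mul_le_mul b2 hΘ (norm_nonneg _) (by positivity)
  have c3 := mul_le_mul b5 c2 (norm_nonneg _) (by positivity)
  have c4 : 1 / Real.sqrt n * (276 * ((n : ℝ) ^ 3 * p ^ 4) * Y + K * (276 * ((n : ℝ) ^ 3 * p ^ 4) * Y))
      = (276 + 276 * K) * ((n : ℝ) ^ 2 * Real.sqrt n * p ^ 4) * Y := by
    have h1 : (n : ℝ) ^ 3 = (n : ℝ) ^ 2 * Real.sqrt n * Real.sqrt n := by
      rw [mul_assoc, hsq2]; ring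
    rw [h1]
    field_simp
  rw [c4] at c3
  calc _ ≤ (182 * ((n : ℝ) ^ 2 * Real.sqrt n * p ^ 4) + n ^ 2 * p * |(Mx σ).trace|) * Y
        + (276 + 276 * K) * ((n : ℝ) ^ 2 * Real.sqrt n * p ^ 4) * Y := add_le_add c1 c3
    _ = _ := by ring

end Pool.Agent.ZR.G

end

section

/-!
# ZR/JQwhp : the quadratic forms `q_i` are small with overwhelming probability

`n = N + 1`, `A = Dw τ d X`, `M = mino i A = Dw τ d' Y`, `Y = subX i X`, `d' = d ∘ i.succAbove`,
`g = rowX i X`; by `qf_Dw` `qf (mino i A) (rowv i A) z = τ qf M g z`.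
Put `K = n^(ν/4+δ/2)`, `r0 = 1/n`, `L` = the least natural number with `n ≤ 2^L` (`Nat.clog 2 n`),
`Bad = ⋃_{j ≤ L} {Y | K 2^j ≤ cntI (Dw τ d' Y) z.re (2^j/n)}`.
(1) `P(Bad) ≤ (L+1) N exp(-(K-1)/11)` by `wegner_prob` with `T = K 2^j`, `r = 2^j/n`, `n` large:
`8 N r²/τ ≤ 8n (4^j/n²)(2 n n^δ) = 16 4^j n^δ` (`tau_bounds`) and `T(T-1) ≥ T²/2 = 4^j n^(ν/2+δ)/2`,
which is larger as soon as `n^(ν/2) > 32` and `K ≥ 2`.
(2) For `Y ∉ Bad`: by `cntI_eq` and `sum_inv_le` (`η = z.im ≥ n^(-1-c)`, `2^L/n ≥ 1`, `N ≤ n`):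
`Σ := ∑_k 1/‖evs M k - z‖ ≤ K n^(1+c) + 2 L K n + n ≤ (2L+2) K n^(1+c)`.
(3) `qf_upper` with `s² = n^(ν/4)`: outside a set of `g` of probability `≤ 2 N exp(-n^(ν/4)/2)`,
`‖qf M g z‖ ≤ n^(ν/4) Σ`, hence
`‖τ qf M g z‖ ≤ (n^(-δ)/n) n^(ν/4) (2L+2) n^(ν/4+δ/2) n^(1+c) = (2L+2) n^(ν/2+c-δ/2)
≤ n^(c+ν-δ/2)` if `2L + 2 ≤ n^(ν/2)` (true for `n` large, `L ≤ 1 + log₂ n`).
(4) `gm_split_prob` with `E = {(Y, g) | n^(c+ν-δ/2) < ‖τ qf (Dw τ d' Y) g z‖}` and `Bad`:
the probability is at most `(L+1) N exp(-(K-1)/11) + 2 N exp(-n^(ν/4)/2) ≤ n^(-D)` for `n` large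
(stretched exponentials versus powers).
Note that `n0` must not depend on `i, d, z`.
-/


open MeasureTheory ProbabilityTheory Matrix

namespace Pool.Agent.ZR

private lemma stretch94 (a b s : ℝ) (ha : 0 < a) (hb : 0 < b) :
    Filter.Tendsto (fun x : ℝ => x ^ s * Real.exp (-b * x ^ a)) Filter.atTop (nhds 0) := by
  have h1 := (tendsto_rpow_mul_exp_neg_mul_atTop_nhds_zero (s / a) b hb).comp
    (tendsto_rpow_atTop ha)
  refine h1.congr' ?_
  filter_upwards [Filter.eventually_gt_atTop (0 : ℝ)] with x hx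
  simp only [Function.comp]
  rw [← Real.rpow_mul hx.le, mul_div_cancel₀ s ha.ne']

private lemma clog94 (n : ℕ) (hn : 2 ≤ n) :
    (Nat.clog 2 n : ℝ) ≤ 2 * Real.log n + 1 := by
  have h1 : 2 ^ (Nat.clog 2 n).pred < n := Nat.pow_pred_clog_lt_self (by norm_num) (by omega)
  have h2 : ((2 : ℝ) ^ (Nat.clog 2 n).pred) < n := by exact_mod_cast h1
  have h3 : ((Nat.clog 2 n).pred : ℝ) * Real.log 2 < Real.log n := by
    rw [← Real.log_pow]
    exact Real.log_lt_log (by positivity) h2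
  have h4 : (1 / 2 : ℝ) < Real.log 2 := by
    have := Real.log_two_gt_d9
    linarith
  have h5 : (Nat.clog 2 n : ℝ) ≤ ((Nat.clog 2 n).pred : ℝ) + 1 := by
    have : Nat.clog 2 n ≤ (Nat.clog 2 n).pred + 1 := by
      have := Nat.succ_pred_eq_of_pos (Nat.clog_pos (b := 2) (by norm_num) hn)
      omega
    exact_mod_cast this
  have h6 : (0 : ℝ) ≤ ((Nat.clog 2 n).pred : ℝ) := Nat.cast_nonneg _
  nlinarith

private lemma asym94 (δ ν D : ℝ) (hδ : 0 < δ) (hν : 0 < ν) :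
    ∃ n0 : ℕ, ∀ n : ℕ, n0 ≤ n → 2 ≤ n ∧ (32 : ℝ) < (n : ℝ) ^ (ν / 2) ∧
      (2 : ℝ) ≤ (n : ℝ) ^ (ν / 4 + δ / 2) ∧ 2 * (Nat.clog 2 n : ℝ) + 2 ≤ (n : ℝ) ^ (ν / 2) ∧
      (n : ℝ) ^ (1 + ν / 2) * Real.exp (-((n : ℝ) ^ (ν / 4 + δ / 2) - 1) / 11)
        ≤ (n : ℝ) ^ (-D) / 2 ∧
      2 * (n : ℝ) * Real.exp (-((n : ℝ) ^ (ν / 4)) / 2) ≤ (n : ℝ) ^ (-D) / 2 := by
  have hc : Filter.Tendsto (fun n : ℕ => (n : ℝ)) Filter.atTop Filter.atTop :=
    tendsto_natCast_atTop_atTop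
  have t1 : Filter.Tendsto (fun n : ℕ => (n : ℝ) ^ (ν / 2)) Filter.atTop Filter.atTop :=
    (tendsto_rpow_atTop (by linarith)).comp hc
  have t2 : Filter.Tendsto (fun n : ℕ => (n : ℝ) ^ (ν / 4 + δ / 2)) Filter.atTop Filter.atTop :=
    (tendsto_rpow_atTop (by linarith)).comp hc
  have t3 := (isLittleO_log_rpow_atTop (r := ν / 2) (by linarith)).bound
    (c := 1 / 8) (by norm_num)
  have t3' := hc.eventually t3
  have t4 := ((stretch94 (ν / 4 + δ / 2) (1 / 11) (D + (1 + ν / 2)) (by linarith)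
    (by norm_num)).comp hc).eventually
      (Iio_mem_nhds (show (0 : ℝ) < 1 / 2 / Real.exp (1 / 11) by positivity))
  have t5 := ((stretch94 (ν / 4) (1 / 2) (D + 1) (by linarith)
    (by norm_num)).comp hc).eventually
      (Iio_mem_nhds (show (0 : ℝ) < 1 / 4 by positivity))
  have hall := ((Filter.eventually_ge_atTop 2).and ((t1.eventually_gt_atTop 32).and
    ((t2.eventually_ge_atTop 2).and (t3'.and (t4.and t5)))))
  obtain ⟨n0, hn0⟩ := Filter.eventually_atTop.1 hall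
  refine ⟨n0, fun n hn => ?_⟩
  obtain ⟨h1, h2, h3, h4, h5, h6⟩ := hn0 n hn
  have hnpos : (0 : ℝ) < n := by
    have : 0 < n := by omega
    exact_mod_cast this
  refine ⟨h1, h2, h3, ?_, ?_, ?_⟩
  · have hcl := clog94 n h1
    have hlog : 0 ≤ Real.log n := Real.log_natCast_nonneg n
    rw [Real.norm_of_nonneg hlog, Real.norm_of_nonneg (by positivity)] at h4
    nlinarith
  · simp only [Function.comp, Set.mem_Iio] at h5
    rw [Real.rpow_add hnpos, lt_div_iff₀ (Real.exp_pos _)] at h5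
    have e1 : Real.exp (-((n : ℝ) ^ (ν / 4 + δ / 2) - 1) / 11)
        = Real.exp (-(1 / 11) * (n : ℝ) ^ (ν / 4 + δ / 2)) * Real.exp (1 / 11) := by
      rw [← Real.exp_add]
      congr 1
      ring
    rw [e1]
    have hD : (n : ℝ) ^ (-D) * (n : ℝ) ^ D = 1 := by
      rw [← Real.rpow_add hnpos, neg_add_cancel, Real.rpow_zero]
    have hDpos : 0 < (n : ℝ) ^ (-D) := Real.rpow_pos_of_pos hnpos _
    calc (n : ℝ) ^ (1 + ν / 2) *
          (Real.exp (-(1 / 11) * (n : ℝ) ^ (ν / 4 + δ / 2)) * Real.exp (1 / 11))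
        = (n : ℝ) ^ (-D) * ((n : ℝ) ^ D * (n : ℝ) ^ (1 + ν / 2) *
          Real.exp (-(1 / 11) * (n : ℝ) ^ (ν / 4 + δ / 2)) * Real.exp (1 / 11)) := by
          linear_combination (-(n : ℝ) ^ (1 + ν / 2) *
            Real.exp (-(1 / 11) * (n : ℝ) ^ (ν / 4 + δ / 2)) * Real.exp (1 / 11)) * hD
      _ ≤ (n : ℝ) ^ (-D) * (1 / 2) := mul_le_mul_of_nonneg_left h5.le hDpos.le
      _ = (n : ℝ) ^ (-D) / 2 := by ring
  · simp only [Function.comp, Set.mem_Iio] at h6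
    rw [Real.rpow_add hnpos, Real.rpow_one] at h6
    have e1 : Real.exp (-((n : ℝ) ^ (ν / 4)) / 2)
        = Real.exp (-(1 / 2) * (n : ℝ) ^ (ν / 4)) := by
      congr 1
      ring
    rw [e1]
    have hD : (n : ℝ) ^ (-D) * (n : ℝ) ^ D = 1 := by
      rw [← Real.rpow_add hnpos, neg_add_cancel, Real.rpow_zero]
    have hDpos : 0 < (n : ℝ) ^ (-D) := Real.rpow_pos_of_pos hnpos _
    calc 2 * (n : ℝ) * Real.exp (-(1 / 2) * (n : ℝ) ^ (ν / 4))
        = (n : ℝ) ^ (-D) * (2 * ((n : ℝ) ^ D * (n : ℝ) *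
          Real.exp (-(1 / 2) * (n : ℝ) ^ (ν / 4)))) := by
          linear_combination (-2 * (n : ℝ) *
            Real.exp (-(1 / 2) * (n : ℝ) ^ (ν / 4))) * hD
      _ ≤ (n : ℝ) ^ (-D) * (1 / 2) :=
          mul_le_mul_of_nonneg_left (by linarith) hDpos.le
      _ = (n : ℝ) ^ (-D) / 2 := by ring

/-- deterministic part: away from the bad set -/
private lemma det94 (N : ℕ) (δ c ν : ℝ) (hc : 0 ≤ c) (n τ K : ℝ) (L : ℕ)
    (hn : n = ((N + 1 : ℕ) : ℝ)) (hn1 : 1 ≤ n)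
    (hτ0 : 0 < τ) (hτ1 : τ ≤ n ^ (-δ) / n) (hKe : K = n ^ (ν / 4 + δ / 2)) (hK : 1 ≤ K)
    (hLn : n ≤ 2 ^ L) (hL : 2 * (L : ℝ) + 2 ≤ n ^ (ν / 2))
    (l : Fin N → ℝ) (z : ℂ) (hz : n ^ (-1 - c) ≤ z.im)
    (h : ∀ j : ℕ, j ≤ L → ((Finset.univ.filter (fun k => |l k - z.re| ≤ 2 ^ j * (1 / n))).card : ℝ)
      ≤ K * 2 ^ j) :
    τ * ((n ^ (ν / 8)) ^ 2 * ∑ k, 1 / ‖(l k : ℂ) - z‖) ≤ n ^ (c + ν - δ / 2) := by
  have hnpos : 0 < n := by linarith
  have hzpos : 0 < z.im := lt_of_lt_of_le (Real.rpow_pos_of_pos hnpos _) hz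
  have hs := sum_inv_le l z.re z.im hzpos (1 / n) K (by positivity) (by linarith) L h
  rw [Complex.eta z] at hs
  have hnc : 0 < n ^ (1 + c) := Real.rpow_pos_of_pos hnpos _
  have hn1c : n ≤ n ^ (1 + c) := by
    calc n = n ^ (1 : ℝ) := (Real.rpow_one n).symm
      _ ≤ n ^ (1 + c) := Real.rpow_le_rpow_of_exponent_le hn1 (by linarith)
  have b1 : K / z.im ≤ K * n ^ (1 + c) := by
    rw [div_eq_mul_inv]
    refine mul_le_mul_of_nonneg_left ?_ (by linarith)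
    rw [inv_le_comm₀ hzpos hnc, ← Real.rpow_neg hnpos.le]
    refine le_trans (le_of_eq ?_) hz
    congr 1
    ring
  have b2 : 2 * L * K / (1 / n) ≤ 2 * L * (K * n ^ (1 + c)) := by
    rw [div_div_eq_mul_div, div_one, mul_assoc (2 * (L : ℝ)) K n]
    refine mul_le_mul_of_nonneg_left (mul_le_mul_of_nonneg_left hn1c (by linarith)) (by positivity)
  have b3 : (N : ℝ) / (2 ^ L * (1 / n)) ≤ K * n ^ (1 + c) := by
    have e : (N : ℝ) / (2 ^ L * (1 / n)) = (N : ℝ) * (n / 2 ^ L) := by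
      field_simp
    rw [e]
    have h1 : n / 2 ^ L ≤ 1 := by
      rw [div_le_one (by positivity)]
      exact hLn
    have h2 : (N : ℝ) ≤ n := by
      rw [hn]; push_cast; linarith
    calc (N : ℝ) * (n / 2 ^ L) ≤ (N : ℝ) * 1 :=
          mul_le_mul_of_nonneg_left h1 (Nat.cast_nonneg _)
      _ ≤ n ^ (1 + c) := by linarith
      _ ≤ K * n ^ (1 + c) := by nlinarith
  have hS : ∑ k, 1 / ‖(l k : ℂ) - z‖ ≤ n ^ (ν / 2) * (K * n ^ (1 + c)) := by
    calc ∑ k, 1 / ‖(l k : ℂ) - z‖ ≤ (2 * (L : ℝ) + 2) * (K * n ^ (1 + c)) := by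
          linarith
      _ ≤ n ^ (ν / 2) * (K * n ^ (1 + c)) :=
          mul_le_mul_of_nonneg_right hL (by positivity)
  have hs2 : (n ^ (ν / 8)) ^ 2 = n ^ (ν / 4) := by
    rw [← Real.rpow_natCast, ← Real.rpow_mul hnpos.le]
    congr 1
    push_cast
    ring
  rw [hs2]
  have hSn : 0 ≤ ∑ k, 1 / ‖(l k : ℂ) - z‖ := Finset.sum_nonneg fun k _ => by positivity
  calc τ * (n ^ (ν / 4) * ∑ k, 1 / ‖(l k : ℂ) - z‖)
      ≤ (n ^ (-δ) / n) * (n ^ (ν / 4) * (n ^ (ν / 2) * (K * n ^ (1 + c)))) := by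
        refine mul_le_mul hτ1 (mul_le_mul_of_nonneg_left hS (by positivity)) (by positivity)
          (by positivity)
    _ = n ^ (c + ν - δ / 2) := by
        have e1 : n ^ (-δ) / n = n ^ (-δ - 1) := by
          rw [Real.rpow_sub_one hnpos.ne']
        rw [e1, hKe, ← Real.rpow_add hnpos, ← Real.rpow_add hnpos, ← Real.rpow_add hnpos,
          ← Real.rpow_add hnpos]
        congr 1
        ring

private lemma weg94 (N : ℕ) (δ ν : ℝ) (n τ K : ℝ)
    (hn : n = ((N + 1 : ℕ) : ℝ)) (hn1 : 1 ≤ n)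
    (hτ0 : 0 < τ) (hτ2 : n ^ (-δ) / (2 * n) ≤ τ) (hKe : K = n ^ (ν / 4 + δ / 2)) (hK : 2 ≤ K)
    (h32 : 32 < n ^ (ν / 2)) (d : Fin N → ℝ) (x : ℝ) (j : ℕ) :
    (gm N).real {Y | K * 2 ^ j ≤ (cntI (Dw τ d Y) x (2 ^ j / n) : ℝ)}
      ≤ N * Real.exp (-(K - 1) / 11) := by
  have hnpos : 0 < n := by linarith
  have h2j : (1 : ℝ) ≤ 2 ^ j := one_le_pow₀ (by norm_num)
  have hT : 2 ≤ K * 2 ^ j := by nlinarith
  have hcond : 8 * (N : ℝ) * (2 ^ j / n) ^ 2 / τ < K * 2 ^ j * (K * 2 ^ j - 1) := by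
    have hd : 0 < n ^ δ := Real.rpow_pos_of_pos hnpos _
    have hdd : n ^ (-δ) * n ^ δ = 1 := by
      rw [← Real.rpow_add hnpos, neg_add_cancel, Real.rpow_zero]
    have hinv : 1 / τ ≤ 2 * n * n ^ δ := by
      rw [div_le_iff₀ hτ0]
      calc (1 : ℝ) = 2 * n * n ^ δ * (n ^ (-δ) / (2 * n)) := by
            field_simp
            linarith
        _ ≤ 2 * n * n ^ δ * τ := mul_le_mul_of_nonneg_left hτ2 (by positivity)
    have hNn : (N : ℝ) ≤ n := by
      rw [hn]; push_cast; linarith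
    have e1 : 8 * (N : ℝ) * (2 ^ j / n) ^ 2 / τ ≤ 16 * (2 ^ j) ^ 2 * n ^ δ := by
      calc 8 * (N : ℝ) * (2 ^ j / n) ^ 2 / τ = 8 * (N : ℝ) * (2 ^ j / n) ^ 2 * (1 / τ) := by ring
        _ ≤ 8 * n * (2 ^ j / n) ^ 2 * (2 * n * n ^ δ) := by
            refine mul_le_mul ?_ hinv (by positivity) (by positivity)
            refine mul_le_mul_of_nonneg_right ?_ (by positivity)
            linarith
        _ = 16 * (2 ^ j) ^ 2 * n ^ δ := by
            field_simp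
            ring
    have hK2 : K ^ 2 = n ^ (ν / 2) * n ^ δ := by
      rw [hKe, ← Real.rpow_natCast, ← Real.rpow_mul hnpos.le, ← Real.rpow_add hnpos]
      congr 1
      push_cast
      ring
    have e2 : (K * 2 ^ j) ^ 2 / 2 ≤ K * 2 ^ j * (K * 2 ^ j - 1) := by nlinarith
    have e3 : 16 * (2 ^ j) ^ 2 * n ^ δ < (K * 2 ^ j) ^ 2 / 2 := by
      rw [mul_pow, hK2]
      have : 0 < ((2 : ℝ) ^ j) ^ 2 * n ^ δ := by positivity
      nlinarith
    linarith
  refine (wegner_prob τ hτ0 d x (2 ^ j / n) (by positivity) (K * 2 ^ j) hT hcond).trans ?_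
  refine mul_le_mul_of_nonneg_left ?_ (Nat.cast_nonneg _)
  rw [Real.exp_le_exp]
  have : K ≤ K * 2 ^ j := by nlinarith
  linarith

theorem qf_whp (δ c ν D : ℝ) (hδ : 0 < δ) (hδ1 : δ < 1) (hc : 0 ≤ c) (hν : 0 < ν) :
    ∃ n0 : ℕ, ∀ N : ℕ, n0 ≤ N + 1 → ∀ (i : Fin (N + 1)) (d : Fin (N + 1) → ℝ) (z : ℂ),
      ((N + 1 : ℕ) : ℝ) ^ (-1 - c) ≤ z.im →
      let n : ℝ := ((N + 1 : ℕ) : ℝ)
      let τ : ℝ := (1 - Real.exp (-(n ^ (-δ)))) * (1 / n)
      (gm (N + 1)).real {X | n ^ (c + ν - δ / 2)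
          < ‖qf (mino i (Dw τ d X)) (rowv i (Dw τ d X)) z‖} ≤ n ^ (-D) := by
  obtain ⟨n0, hn0⟩ := asym94 δ ν D hδ hν
  refine ⟨n0, ?_⟩
  intro N hN i d z hz n τ
  obtain ⟨h2, h32, hK2, hL, hE1, hE2⟩ := hn0 (N + 1) hN
  obtain ⟨hτ0, hτ1, hτ2⟩ := tau_bounds (N + 1) (by omega) δ hδ
  change (32 : ℝ) < n ^ (ν / 2) at h32
  change (2 : ℝ) ≤ n ^ (ν / 4 + δ / 2) at hK2
  change 2 * (Nat.clog 2 (N + 1) : ℝ) + 2 ≤ n ^ (ν / 2) at hL
  change n ^ (1 + ν / 2) * Real.exp (-(n ^ (ν / 4 + δ / 2) - 1) / 11) ≤ n ^ (-D) / 2 at hE1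
  change 2 * n * Real.exp (-(n ^ (ν / 4)) / 2) ≤ n ^ (-D) / 2 at hE2
  change n ^ (-1 - c) ≤ z.im at hz
  change 0 < τ at hτ0
  change τ ≤ n ^ (-δ) / n at hτ1
  change n ^ (-δ) / (2 * n) ≤ τ at hτ2
  have hn : n = ((N + 1 : ℕ) : ℝ) := rfl
  have hn2 : (2 : ℝ) ≤ n := by
    rw [hn]; exact_mod_cast h2
  clear_value n τ
  have hnpos : 0 < n := by linarith
  have hzpos : 0 < z.im := lt_of_lt_of_le (Real.rpow_pos_of_pos hnpos _) hz
  obtain ⟨K, hKe⟩ : ∃ K : ℝ, K = n ^ (ν / 4 + δ / 2) := ⟨_, rfl⟩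
  obtain ⟨L, hLe⟩ : ∃ L : ℕ, L = Nat.clog 2 (N + 1) := ⟨_, rfl⟩
  rw [← hKe] at hK2 hE1
  rw [← hLe] at hL
  have hLn : n ≤ 2 ^ L := by
    rw [hn, hLe]
    exact_mod_cast Nat.le_pow_clog (b := 2) (by norm_num) (N + 1)
  have hset : {X : Fin (N + 1) × Fin (N + 1) → ℝ | n ^ (c + ν - δ / 2)
        < ‖qf (mino i (Dw τ d X)) (rowv i (Dw τ d X)) z‖}
      = {X | (subX i X, rowX i X) ∈ {p : (Fin N × Fin N → ℝ) × (Fin N → ℝ) | n ^ (c + ν - δ / 2)
        < ‖(τ : ℂ) * qf (Dw τ (fun j => d (i.succAbove j)) p.1) p.2 z‖}} := by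
    ext X
    simp only [Set.mem_setOf_eq]
    rw [qf_Dw i τ hτ0.le]
  have hEm : MeasurableSet {p : (Fin N × Fin N → ℝ) × (Fin N → ℝ) | n ^ (c + ν - δ / 2)
        < ‖(τ : ℂ) * qf (Dw τ (fun j => d (i.succAbove j)) p.1) p.2 z‖} := by
    refine measurableSet_lt measurable_const (Measurable.norm (Measurable.mul measurable_const ?_))
    refine measurable_qf _ (fun k l => ?_) _ (fun k => ?_) z
    · exact (measurable_Dw τ _ k l).comp measurable_fst
    · exact (measurable_pi_apply k).comp measurable_snd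
  have hBm : MeasurableSet {Y : Fin N × Fin N → ℝ | ∃ j ∈ Finset.range (L + 1), K * 2 ^ j
        ≤ (cntI (Dw τ (fun j => d (i.succAbove j)) Y) z.re (2 ^ j / n) : ℝ)} := by
    have e : {Y : Fin N × Fin N → ℝ | ∃ j ∈ Finset.range (L + 1), K * 2 ^ j
        ≤ (cntI (Dw τ (fun j => d (i.succAbove j)) Y) z.re (2 ^ j / n) : ℝ)}
        = ⋃ j ∈ Finset.range (L + 1), {Y : Fin N × Fin N → ℝ | K * 2 ^ j
        ≤ (cntI (Dw τ (fun j => d (i.succAbove j)) Y) z.re (2 ^ j / n) : ℝ)} := by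
      ext Y
      simp
    rw [e]
    refine Finset.measurableSet_biUnion _ fun j _ => ?_
    refine measurableSet_le measurable_const ?_
    have := measurable_cntI (fun Y : Fin N × Fin N → ℝ => Dw τ (fun j => d (i.succAbove j)) Y)
      (fun k l => measurable_Dw τ _ k l) (fun Y => Dw_symm τ _ Y) z.re (2 ^ j / n)
    exact (measurable_from_top (f := fun m : ℕ => (m : ℝ))).comp this
  rw [hset]
  refine (gm_split_prob i _ hEm _ hBm (2 * N * Real.exp (-(n ^ (ν / 8)) ^ 2 / 2))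
    (by positivity) ?_).trans ?_
  · intro Y hY
    have hM := Dw_symm τ (fun j => d (i.succAbove j)) Y
    have hcard : ∀ j : ℕ, j ≤ L → ((Finset.univ.filter (fun k : Fin N =>
        |evs (Dw τ (fun j => d (i.succAbove j)) Y) k - z.re| ≤ 2 ^ j * (1 / n))).card : ℝ)
        ≤ K * 2 ^ j := by
      intro j hj
      by_contra hcon
      apply hY
      refine ⟨j, Finset.mem_range.2 (by omega), ?_⟩
      rw [cntI_eq _ hM, ← mul_one_div]
      exact (not_le.1 hcon).le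
    have hdet := det94 N δ c ν hc n τ K L hn (by linarith) hτ0 hτ1 hKe (by linarith) hLn hL
      (fun k : Fin N => evs (Dw τ (fun j => d (i.succAbove j)) Y) k) z hz hcard
    refine (measureReal_mono ?_ (measure_ne_top _ _)).trans
      (qf_upper (Dw τ (fun j => d (i.succAbove j)) Y) hM z hzpos (n ^ (ν / 8))
        (Real.rpow_nonneg hnpos.le _))
    intro g hg
    simp only [Set.mem_setOf_eq] at hg ⊢
    by_contra hcon
    rw [not_lt] at hcon
    rw [norm_mul, Complex.norm_real, Real.norm_of_nonneg hτ0.le] at hg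
    have := mul_le_mul_of_nonneg_left hcon hτ0.le
    linarith
  · have hbad : (gm N).real {Y : Fin N × Fin N → ℝ | ∃ j ∈ Finset.range (L + 1), K * 2 ^ j
        ≤ (cntI (Dw τ (fun j => d (i.succAbove j)) Y) z.re (2 ^ j / n) : ℝ)}
        ≤ (L + 1) * (N * Real.exp (-(K - 1) / 11)) := by
      have e : {Y : Fin N × Fin N → ℝ | ∃ j ∈ Finset.range (L + 1), K * 2 ^ j
          ≤ (cntI (Dw τ (fun j => d (i.succAbove j)) Y) z.re (2 ^ j / n) : ℝ)}
          = ⋃ j ∈ Finset.range (L + 1), {Y : Fin N × Fin N → ℝ | K * 2 ^ j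
          ≤ (cntI (Dw τ (fun j => d (i.succAbove j)) Y) z.re (2 ^ j / n) : ℝ)} := by
        ext Y
        simp
      rw [e]
      refine (measureReal_biUnion_finset_le _ _).trans ?_
      refine (Finset.sum_le_sum fun j _ => weg94 N δ ν n τ K hn (by linarith) hτ0 hτ2 hKe hK2 h32
        (fun j => d (i.succAbove j)) z.re j).trans ?_
      rw [Finset.sum_const, Finset.card_range, nsmul_eq_mul]
      push_cast
      exact le_refl _
    have hNn : (N : ℝ) ≤ n := by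
      rw [hn]; push_cast; linarith
    have hLn2 : (L : ℝ) + 1 ≤ n ^ (ν / 2) := by
      have : (0 : ℝ) ≤ L := Nat.cast_nonneg _
      linarith
    have h1 : ((L : ℝ) + 1) * (N * Real.exp (-(K - 1) / 11)) ≤ n ^ (-D) / 2 := by
      refine le_trans ?_ hE1
      rw [Real.rpow_add hnpos, Real.rpow_one]
      calc ((L : ℝ) + 1) * (N * Real.exp (-(K - 1) / 11))
          ≤ n ^ (ν / 2) * (n * Real.exp (-(K - 1) / 11)) :=
            mul_le_mul hLn2 (mul_le_mul_of_nonneg_right hNn (Real.exp_pos _).le) (by positivity)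
              (by positivity)
        _ = n * n ^ (ν / 2) * Real.exp (-(K - 1) / 11) := by ring
    have h3 : 2 * (N : ℝ) * Real.exp (-(n ^ (ν / 8)) ^ 2 / 2) ≤ n ^ (-D) / 2 := by
      refine le_trans ?_ hE2
      have hs2 : (n ^ (ν / 8)) ^ 2 = n ^ (ν / 4) := by
        rw [← Real.rpow_natCast, ← Real.rpow_mul hnpos.le]
        congr 1
        push_cast
        ring
      rw [hs2]
      refine mul_le_mul_of_nonneg_right ?_ (Real.exp_pos _).le
      linarith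
    linarith

end Pool.Agent.ZR

end

section

/-!
# ZR/MKap : part K applied to the relocated ensemble

PROOF.  `KFinal r G` gives `C`.  Take `Ω = Pat n × Arr n`, `P' = P2 n` (`P2_prob`), `a ω = asharp .. ω.1 ω.2`,
`Y ω = ω.2`, `t = n^(-δ)`: `P'.map Y = gm n` (second marginal of a product of probability measures,
`Measure.map_snd_prod`, `PU_prob`).  `∫ ω, Lab (AA ω) ∂P3 = ∫ ω ∈ P2, ∫ X, Lab (At ..)` (`integral_prod`,
`Lab` is bounded (`G` bounded) and measurable (`vecS_AA_meas`; `G` continuous)).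
`∑ (asharp - evs)²` is integrable: `asharp_sub` and `evs`, `evp` square integrable
(`|evs (Wv ..) i| ≤ (∑ |W_kl|²)^(1/2)` by `weyl_hs` with `B = 0`, Gaussian moments; `evp (H0 σ)` bounded
because `Pat n` is finite), and by `asharp_sub`, `integral_P2` and `IW2 κ ν`:
`∫ ∑ (asharp - evs)² ∂P2 ≤ n^(-1+ν)`.  Finally `n/(4(e^t-1)) ≤ n/(4t) = n^(1+δ)/4`.
-/


open MeasureTheory ProbabilityTheory Matrix

namespace Pool.Agent.ZR

private theorem mkap_evs_zero {n : ℕ} (i : ℕ) : evs (0 : Matrix (Fin n) (Fin n) ℝ) i = 0 := by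
  by_cases hi : i < n
  · have h := evs_diag (fun _ : Fin n => (0 : ℝ)) monotone_const ⟨i, hi⟩
    have h2 : Matrix.diagonal (fun _ : Fin n => (0 : ℝ)) = 0 := by
      ext a b; simp [Matrix.diagonal_apply]
    rw [h2] at h
    exact h
  · exact evs_of_ge _ i (by omega)

private theorem mkap_evs_le {n : ℕ} (v : ℝ) (Y : Arr n) (i : ℕ) :
    |evs (Wv v Y) i| ≤ (n : ℝ) * (2 * Real.sqrt (v / 2)) * (1 + ∑ p, |Y p|) := by
  have h := weyl_hs (Wv v Y) 0 (Wv_symm v Y) (by simp [Matrix.IsSymm]) i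
  rw [mkap_evs_zero, sub_zero] at h
  refine h.trans (Real.sqrt_le_iff.mpr ⟨by positivity, ?_⟩)
  set c : ℝ := 2 * Real.sqrt (v / 2) * (1 + ∑ p, |Y p|) with hc
  have h1 : ∀ k l, (Wv v Y k l - (0 : Matrix (Fin n) (Fin n) ℝ) k l) ^ 2 ≤ c ^ 2 := by
    intro k l
    rw [Matrix.zero_apply, sub_zero]
    exact sq_le_sq' (by have := (abs_le.mp (wv_abs_le v Y k l)).1; linarith)
      (abs_le.mp (wv_abs_le v Y k l)).2
  calc ∑ k, ∑ l, (Wv v Y k l - (0 : Matrix (Fin n) (Fin n) ℝ) k l) ^ 2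
      ≤ ∑ _k : Fin n, ∑ _l : Fin n, c ^ 2 :=
        Finset.sum_le_sum fun k _ => Finset.sum_le_sum fun l _ => h1 k l
    _ = ((n : ℝ) * (2 * Real.sqrt (v / 2)) * (1 + ∑ p, |Y p|)) ^ 2 := by
        simp only [Finset.sum_const, Finset.card_univ, Fintype.card_fin, nsmul_eq_mul, hc]
        ring

private theorem mkap_evs_meas {n : ℕ} (v : ℝ) (i : ℕ) :
    Measurable (fun Y : Arr n => evs (Wv v Y) i) := by
  refine measurable_evs _ (fun k l => ?_) (fun X => Wv_symm v X) i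
  unfold Wv
  simp only [Matrix.of_apply]
  fun_prop

/-- the majorant -/
private noncomputable def mkG (n : ℕ) (κ : ℝ) (σ : Pat n) (Y : Arr n) : ℝ :=
  ∑ i ∈ (Finset.range (n - 1)).filter
    (fun i : ℕ => κ * n ≤ i ∧ (i : ℝ) ≤ (1 - κ) * n),
    (evp (H0 σ) i - evs (Wv (N := n) (1 / (n : ℝ)) Y) i) ^ 2

private theorem mkG_int (n : ℕ) (κ : ℝ) (σ : Pat n) : Integrable (mkG n κ σ) (gm n) := by
  set K : ℝ := (n : ℝ) * (2 * Real.sqrt (1 / (n : ℝ) / 2)) with hK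
  have hK0 : 0 ≤ K := by positivity
  unfold mkG
  refine integrable_finsetSum _ fun i _ => ?_
  refine gm_integrable_of_le (Measurable.aestronglyMeasurable ?_)
    (2 * evp (H0 σ) i ^ 2 + 2 * K ^ 2) 2 fun Y => ?_
  · exact (measurable_const.sub (mkap_evs_meas _ i)).pow_const 2
  · set S : ℝ := 1 + ∑ p, |Y p| with hS
    have hS1 : 1 ≤ S := by
      have : 0 ≤ ∑ p, |Y p| := Finset.sum_nonneg fun p _ => abs_nonneg _
      linarith
    have h1 := mkap_evs_le (1 / (n : ℝ)) Y i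
    have h2 : evs (Wv (1 / (n : ℝ)) Y) i ^ 2 ≤ (K * S) ^ 2 := by
      rw [← sq_abs]
      exact pow_le_pow_left₀ (abs_nonneg _) h1 2
    rw [Real.norm_eq_abs, abs_of_nonneg (sq_nonneg _)]
    have h3 : evp (H0 σ) i ^ 2 ≤ evp (H0 σ) i ^ 2 * S ^ 2 :=
      le_mul_of_one_le_right (sq_nonneg _) (one_le_pow₀ hS1)
    nlinarith [sq_nonneg (evp (H0 σ) i + evs (Wv (1 / (n : ℝ)) Y) i)]

/-- the distance of the relocated vector to the spectrum of the GOE matrix -/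
private noncomputable def mkF (n : ℕ) (E κ c0 θ : ℝ) (σ : Pat n) (Y : Arr n) : ℝ :=
  ∑ i : Fin n, (asharp n E κ c0 θ σ Y i - evs (Wv (N := n) (1 / (n : ℝ)) Y) i) ^ 2

private theorem mkF_le (n : ℕ) (E κ c0 θ : ℝ) (σ : Pat n) (Y : Arr n) :
    mkF n E κ c0 θ σ Y ≤ mkG n κ σ Y := asharp_sub σ Y

private theorem mkF_nonneg (n : ℕ) (E κ c0 θ : ℝ) (σ : Pat n) (Y : Arr n) :
    0 ≤ mkF n E κ c0 θ σ Y := Finset.sum_nonneg fun _ _ => sq_nonneg _

private theorem mkF_int (n : ℕ) (E κ c0 θ : ℝ) (σ : Pat n) :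
    Integrable (mkF n E κ c0 θ σ) (gm n) := by
  refine (mkG_int n κ σ).mono' (Measurable.aestronglyMeasurable ?_)
    (Filter.Eventually.of_forall fun Y => ?_)
  · unfold mkF
    refine Finset.measurable_fun_sum _ fun i _ => ?_
    refine Measurable.pow_const (Measurable.sub ?_ (mkap_evs_meas _ _)) 2
    have h := (asharp_meas n E κ c0 θ).comp (measurable_prodMk_left (x := σ))
    exact (measurable_pi_apply i).comp h
  · rw [Real.norm_eq_abs, abs_of_nonneg (mkF_nonneg _ _ _ _ _ _ _)]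
    exact mkF_le _ _ _ _ _ _ _

theorem k_app (hK : KFinal) (hW : IW2) (r : ℕ) (G : (Fin r → ℝ) → ℝ) (hG : ContDiff ℝ 1 G)
    (hGc : HasCompactSupport G) :
    ∃ C : ℝ, 0 < C ∧ ∀ E δ ν κ c0 θ : ℝ, 0 < δ → 0 < ν → 0 < κ →
      ∃ n0 : ℕ, ∀ n : ℕ, n0 ≤ n → Even n → ∀ (J : Finset ℕ) (m : Fin r → ℤ) (s : ℝ),
        J.Nonempty → (∀ i ∈ J, i < n ∧ ∀ q, 0 ≤ (i : ℤ) + m q ∧ (i : ℤ) + m q < n) →
        |(∫ ω, Lab J m s G (AA n δ E κ c0 θ ω) ∂(P3 n))
          - ∫ X, Lab J m s G (Wv (N := n) (1 / (n : ℝ)) X) ∂(gm n)|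
          ≤ C / Real.sqrt (J.card : ℝ) * (1 + (n : ℝ) ^ (δ + ν)) := by
  obtain ⟨C, hC, hK⟩ := hK r G hG hGc
  refine ⟨C, hC, fun E δ ν κ c0 θ hδ hν hκ => ?_⟩
  obtain ⟨n0, hn0⟩ := hW κ ν hκ hν
  refine ⟨max n0 1, fun n hn hev J m s hJ hJm => ?_⟩
  have hn1 : 0 < n := lt_of_lt_of_le Nat.one_pos ((le_max_right _ _).trans hn)
  have hnr : (0 : ℝ) < n := by exact_mod_cast hn1
  have := P2_prob hev
  have := P3_prob hev
  have := PU_prob hev
  set t : ℝ := (n : ℝ) ^ (-δ) with ht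
  have ht0 : 0 < t := Real.rpow_pos_of_pos hnr _
  -- measurability
  have hYm : Measurable (fun ω : Pat n × Arr n => ω.2) := measurable_snd
  have hmap : (P2 n).map (fun ω : Pat n × Arr n => ω.2) = gm n := by
    have h := Measure.map_snd_prod (μ := PU n) (ν := gm n)
    rw [measure_univ, one_smul] at h
    exact h
  have hFi : Integrable (fun ω : Pat n × Arr n => mkF n E κ c0 θ ω.1 ω.2) (P2 n) :=
    integrable_P2 hev (mkF n E κ c0 θ) (fun σ _ => mkF_int n E κ c0 θ σ)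
  have hKn := hK n J m s t hn1 hJ ht0 hJm (Pat n × Arr n) (P2 n)
    (fun ω => asharp n E κ c0 θ ω.1 ω.2) (fun ω => ω.2) (asharp_meas n E κ c0 θ) hYm hmap hFi
  -- the integral over the product space
  obtain ⟨B, hB⟩ := hGc.exists_bound_of_continuous hG.continuous
  have hB0 : 0 ≤ B := (norm_nonneg _).trans (hB 0)
  have hLm : Measurable (fun ω : (Pat n × Arr n) × Arr n => Lab J m s G (AA n δ E κ c0 θ ω)) := by
    unfold Lab
    refine Measurable.const_mul (Finset.measurable_fun_sum _ fun i _ => ?_) _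
    refine hG.continuous.measurable.comp (measurable_pi_lambda _ fun q => ?_)
    refine Measurable.const_mul (Measurable.sub ?_ ?_) _
    · exact measurable_evs _ (fun k l => AA_entry_meas n δ E κ c0 θ k l)
        (fun ω => AA_symm n δ E κ c0 θ ω) _
    · exact measurable_evs _ (fun k l => AA_entry_meas n δ E κ c0 θ k l)
        (fun ω => AA_symm n δ E κ c0 θ ω) _
  have hLb : ∀ A : Matrix (Fin n) (Fin n) ℝ, ‖Lab J m s G A‖ ≤ B := by
    intro A
    unfold Lab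
    have hJc : (0 : ℝ) < J.card := by exact_mod_cast hJ.card_pos
    rw [norm_mul, Real.norm_eq_abs, abs_of_nonneg (by positivity)]
    calc 1 / (J.card : ℝ) * ‖∑ i ∈ J, G (fun q => s * (evs A ((i : ℤ) + m q).toNat - evs A i))‖
        ≤ 1 / (J.card : ℝ) * ∑ _i ∈ J, B := by
          refine mul_le_mul_of_nonneg_left ?_ (by positivity)
          exact (norm_sum_le _ _).trans (Finset.sum_le_sum fun i _ => hB _)
      _ = B := by
          rw [Finset.sum_const, nsmul_eq_mul]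
          field_simp
  have hLi : Integrable (fun ω : (Pat n × Arr n) × Arr n => Lab J m s G (AA n δ E κ c0 θ ω))
      ((P2 n).prod (gm n)) :=
    Integrable.of_bound hLm.aestronglyMeasurable B (Filter.Eventually.of_forall fun ω => hLb _)
  have hprod : ∫ ω, Lab J m s G (AA n δ E κ c0 θ ω) ∂(P3 n)
      = ∫ ω, ∫ X, Lab J m s G (At (1 / (n : ℝ)) t (asharp n E κ c0 θ ω.1 ω.2) X) ∂(gm n)
          ∂(P2 n) := by
    have h := integral_prod _ hLi
    exact h
  rw [hprod]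
  refine hKn.trans ?_
  -- the size
  have hI0 : 0 ≤ ∫ ω : Pat n × Arr n, mkF n E κ c0 θ ω.1 ω.2 ∂(P2 n) :=
    integral_nonneg fun ω => mkF_nonneg _ _ _ _ _ _ _
  have hI1 : ∫ ω : Pat n × Arr n, mkF n E κ c0 θ ω.1 ω.2 ∂(P2 n) ≤ (n : ℝ) ^ (-1 + ν) := by
    rw [integral_P2 hev (mkF n E κ c0 θ) (fun σ _ => mkF_int n E κ c0 θ σ)]
    refine le_trans ?_ (hn0 n ((le_max_left _ _).trans hn) hev)
    unfold EJ
    exact EU_mono fun σ _ => integral_mono (mkF_int n E κ c0 θ σ) (mkG_int n κ σ)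
      fun Y => mkF_le _ _ _ _ _ _ _
  have het : t ≤ Real.exp t - 1 := by have := Real.add_one_le_exp t; linarith
  have hq : (n : ℝ) / (4 * (Real.exp t - 1)) ≤ (n : ℝ) * (n : ℝ) ^ δ := by
    have h1 : (n : ℝ) / (4 * (Real.exp t - 1)) ≤ (n : ℝ) / t := by
      apply div_le_div_of_nonneg_left hnr.le ht0
      linarith
    have h2 : (n : ℝ) / t = (n : ℝ) * (n : ℝ) ^ δ := by
      rw [ht, Real.rpow_neg hnr.le, div_inv_eq_mul]
    rw [← h2]; exact h1
  have hfin : (n : ℝ) / (4 * (Real.exp t - 1)) *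
      ∫ ω : Pat n × Arr n, mkF n E κ c0 θ ω.1 ω.2 ∂(P2 n) ≤ (n : ℝ) ^ (δ + ν) := by
    calc _ ≤ ((n : ℝ) * (n : ℝ) ^ δ) * (n : ℝ) ^ (-1 + ν) :=
          mul_le_mul hq hI1 hI0 (by positivity)
      _ = (n : ℝ) ^ (δ + ν) := by
          conv_lhs => rw [← Real.rpow_one (n : ℝ)]
          rw [Real.rpow_one]
          rw [← Real.rpow_one_add' hnr.le (by linarith), ← Real.rpow_add hnr]
          congr 1
          ring
  refine mul_le_mul_of_nonneg_left ?_ (by positivity)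
  have := hfin
  unfold mkF at this
  linarith

end Pool.Agent.ZR

end

section

/-!
# ZR/D6 : Gaussian integration by parts for `DPhi` and the derivative in `θ` for a fixed pattern

Fix `σ ∈ Sn n` (so `pb_Bm` (C1) gives `PB (Pn n) (Bm α β σ X)` for all `α β X`).
* `dphi_ibp`: `DPhi` is linear in its last argument (`dm_add`, `dm_smul`, D2), so by `PWP_eq` (D3)
  `DPhi n zl cl B (PWP) = ∑_p X p • DPhi n zl cl B (wE n p)`.  For each `p` apply `gm_ibp` (E0) with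
  `F X = DPhi n zl cl (Bm α β σ X) (wE n p)` and `F' X = β * D2Phi n zl cl (Bm α β σ X) (wE n p)`:
  the derivative is `dphi_path` (D2) for the path `t ↦ Bm α β σ (update X p t)` with `bm_upd` (D5),
  evaluated at `t0 = X p` where `update X p (X p) = X` (`Function.update_eq_self`).  Integrability:
  `F` and `F'` are bounded (`dphi_bd`, D4, `s1 (wE n p)` is a constant) and continuous (`dphi_cont`,
  `d2phi_cont`, D5, with `H` constant), so `gm_integrable_of_le` with `k = 0` and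
  `gm_integrable_coord_smul`.  Sum over `p` (`integral_finset_sum`) and use `sum_D2` (D3).
* `theta_deriv`: `hasDerivAt_integral_of_dominated_loc_of_deriv_le` on the whole line
  (`s = Set.univ`) with `F θ X = Phi n zl cl (Bm (cos θ) (sin θ) σ X)`: derivative `phi_path` (D2) with
  `bm_theta` (D5); bound `C1 * (C2 (1 + ∑|X p|))` (`dphi_bd`, `s1_bd`), integrable by
  `gm_integrable_pow` (E0, `k = 1`); measurability from `phi_cont`, `dphi_cont`.
* `phi_int` etc.: bounded continuous functions are integrable for a probability measure.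
* `theta_deriv'`: linearity of `DPhi` in the last argument, `dphi_ibp` with `α = cos θ`, `β = sin θ`.
-/


open MeasureTheory ProbabilityTheory Matrix

namespace Pool.Agent.ZR

variable {n : ℕ}

private theorem d6_add {K : ℕ} (zl cl : Fin (K + 1) → ℂ) (B H H' : Matrix (Fin n) (Fin n) ℝ) :
    DPhi n zl cl B (H + H') = DPhi n zl cl B H + DPhi n zl cl B H' := by
  simp only [DPhi, dm_add, add_mul, Finset.sum_add_distrib]

private theorem d6_smul {K : ℕ} (zl cl : Fin (K + 1) → ℂ) (B H : Matrix (Fin n) (Fin n) ℝ)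
    (β : ℝ) : DPhi n zl cl B (β • H) = (β : ℂ) * DPhi n zl cl B H := by
  simp only [DPhi, dm_smul, mul_assoc, Finset.mul_sum]

private theorem d6_sum {K : ℕ} {ι : Type*} (s : Finset ι) (zl cl : Fin (K + 1) → ℂ)
    (B : Matrix (Fin n) (Fin n) ℝ) (f : ι → Matrix (Fin n) (Fin n) ℝ) :
    DPhi n zl cl B (∑ p ∈ s, f p) = ∑ p ∈ s, DPhi n zl cl B (f p) := by
  classical
  induction s using Finset.induction_on with
  | empty =>
    have h := d6_smul zl cl B (0 : Matrix (Fin n) (Fin n) ℝ) 0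
    simpa using h
  | insert a s ha ih => rw [Finset.sum_insert ha, Finset.sum_insert ha, d6_add, ih]

theorem phi_int {L : ℕ} (zl cl : Fin L → ℂ) (hz : ∀ l, (zl l).im ≠ 0)
    (σ : Fin n → Fin n → Bool) (hσ : σ ∈ Sn n) (α β : ℝ) :
    Integrable (fun X => Phi n zl cl (Bm α β σ X)) (gm n) := by
  obtain ⟨C, -, hC⟩ := phi_bd n zl cl hz
  refine gm_integrable_of_le (phi_cont zl cl hz (fun X => pb_Bm α β σ hσ X)
    (fun i j => bm_cont α β σ i j)).aestronglyMeasurable C 0 fun X => ?_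
  rw [pow_zero, mul_one]
  exact (hC _ (pb_Bm α β σ hσ X)).1

theorem dphi_int {K : ℕ} (zl cl : Fin (K + 1) → ℂ) (hz : ∀ l, (zl l).im ≠ 0)
    (σ : Fin n → Fin n → Bool) (hσ : σ ∈ Sn n) (α β : ℝ) (H : Matrix (Fin n) (Fin n) ℝ) :
    Integrable (fun X => DPhi n zl cl (Bm α β σ X) H) (gm n) := by
  obtain ⟨C, -, hC⟩ := dphi_bd n zl cl hz
  refine gm_integrable_of_le (dphi_cont zl cl hz (fun X => pb_Bm α β σ hσ X)
    (fun i j => bm_cont α β σ i j) (H := fun _ => H)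
    (fun i j => continuous_const)).aestronglyMeasurable (C * s1 H) 0 fun X => ?_
  rw [pow_zero, mul_one]
  exact (hC _ (pb_Bm α β σ hσ X) H).1

theorem dphiW_int {K : ℕ} (zl cl : Fin (K + 1) → ℂ) (hz : ∀ l, (zl l).im ≠ 0)
    (σ : Fin n → Fin n → Bool) (hσ : σ ∈ Sn n) (α β : ℝ) :
    Integrable (fun X => DPhi n zl cl (Bm α β σ X) (Pn n * Wv (1 / (n : ℝ)) X * Pn n))
      (gm n) := by
  obtain ⟨C, hC0, hC⟩ := dphi_bd n zl cl hz
  obtain ⟨D, -, -, hD⟩ := s1_bd n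
  refine gm_integrable_of_le (dphi_cont zl cl hz (fun X => pb_Bm α β σ hσ X)
    (fun i j => bm_cont α β σ i j) (H := fun X => Pn n * Wv (1 / (n : ℝ)) X * Pn n)
    (fun i j => pwp_cont i j)).aestronglyMeasurable (C * D) 1 fun X => ?_
  rw [pow_one]
  have h1 := (hC _ (pb_Bm α β σ hσ X) (Pn n * Wv (1 / (n : ℝ)) X * Pn n)).1
  have h2 := hD σ X 0
  rw [Real.sin_zero, Real.cos_zero, neg_zero, zero_smul, one_smul, zero_add] at h2
  calc _ ≤ _ := h1
    _ ≤ C * (D * (1 + ∑ p, |X p|)) := mul_le_mul_of_nonneg_left h2 hC0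
    _ = _ := by ring

theorem lap_int {K : ℕ} (zl cl : Fin (K + 1) → ℂ) (hz : ∀ l, (zl l).im ≠ 0)
    (σ : Fin n → Fin n → Bool) (hσ : σ ∈ Sn n) (α β : ℝ) :
    Integrable (fun X => Lap n zl cl (Bm α β σ X)) (gm n) := by
  obtain ⟨C, -, hC⟩ := lap_bd n zl cl hz
  refine gm_integrable_of_le (lap_cont zl cl hz (fun X => pb_Bm α β σ hσ X)
    (fun i j => bm_cont α β σ i j)).aestronglyMeasurable C 0 fun X => ?_
  rw [pow_zero, mul_one]
  exact hC _ (pb_Bm α β σ hσ X)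

theorem ecI_int {K : ℕ} (zl cl : Fin K → ℂ) (z : ℂ) (hz0 : z.im ≠ 0) (hz : ∀ l, (zl l).im ≠ 0)
    (σ : Fin n → Fin n → Bool) (hσ : σ ∈ Sn n) (α β : ℝ) :
    Integrable (fun X => ecI n α zl cl z σ (Bm α β σ X)) (gm n) := by
  obtain ⟨C, -, hC⟩ := ec_bd n α zl cl hz |z.im| (abs_pos.mpr hz0)
  refine gm_integrable_of_le (ecI_cont α zl cl z hz0 hz σ (fun X => pb_Bm α β σ hσ X)
    (fun i j => bm_cont α β σ i j)).aestronglyMeasurable C 0 fun X => ?_
  rw [pow_zero, mul_one]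
  exact (hC z σ _ le_rfl (pb_Bm α β σ hσ X)).1

theorem ecD_int {K : ℕ} (zl cl : Fin K → ℂ) (z : ℂ) (hz0 : z.im ≠ 0) (hz : ∀ l, (zl l).im ≠ 0)
    (σ : Fin n → Fin n → Bool) (hσ : σ ∈ Sn n) (α β : ℝ) :
    Integrable (fun X => ecD n α zl cl z σ (Bm α β σ X)) (gm n) := by
  obtain ⟨C, -, hC⟩ := ec_bd n α zl cl hz |z.im| (abs_pos.mpr hz0)
  refine gm_integrable_of_le (ecD_cont α zl cl z hz0 hz σ (fun X => pb_Bm α β σ hσ X)
    (fun i j => bm_cont α β σ i j)).aestronglyMeasurable C 0 fun X => ?_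
  rw [pow_zero, mul_one]
  exact (hC z σ _ le_rfl (pb_Bm α β σ hσ X)).2

theorem dphi_ibp (hn : 0 < n) {K : ℕ} (zl cl : Fin (K + 1) → ℂ) (hz : ∀ l, (zl l).im ≠ 0)
    (σ : Fin n → Fin n → Bool) (hσ : σ ∈ Sn n) (α β : ℝ) :
    ∫ X, DPhi n zl cl (Bm α β σ X) (Pn n * Wv (1 / (n : ℝ)) X * Pn n) ∂(gm n)
      = (β : ℂ) * ∫ X, Lap n zl cl (Bm α β σ X) ∂(gm n) := by
  set F : Fin n × Fin n → (Fin n × Fin n → ℝ) → ℂ := fun p X =>
    DPhi n zl cl (Bm α β σ X) (wE n p) with hF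
  set F' : Fin n × Fin n → (Fin n × Fin n → ℝ) → ℂ := fun p X =>
    (β : ℂ) * D2Phi n zl cl (Bm α β σ X) (wE n p) with hF'
  obtain ⟨C, hC0, hC⟩ := dphi_bd n zl cl hz
  have hFm : ∀ p, AEStronglyMeasurable (F p) (gm n) := fun p =>
    (dphi_cont zl cl hz (fun X => pb_Bm α β σ hσ X)
      (fun i j => bm_cont α β σ i j) (H := fun _ => wE n p)
      (fun i j => continuous_const)).aestronglyMeasurable
  have h1 : ∀ p, Integrable (fun X => X p • F p X) (gm n) := fun p => by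
    refine gm_integrable_coord_smul (hFm p) (C * s1 (wE n p)) 0 (fun X => ?_) p
    rw [pow_zero, mul_one]
    exact (hC _ (pb_Bm α β σ hσ X) (wE n p)).1
  have h2' : ∀ p, Integrable (fun X => D2Phi n zl cl (Bm α β σ X) (wE n p)) (gm n) := fun p => by
    refine gm_integrable_of_le (d2phi_cont zl cl hz (fun X => pb_Bm α β σ hσ X)
      (fun i j => bm_cont α β σ i j) (H := fun _ => wE n p)
      (fun i j => continuous_const)).aestronglyMeasurable (C * s1 (wE n p) ^ 2) 0 fun X => ?_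
    rw [pow_zero, mul_one]
    exact (hC _ (pb_Bm α β σ hσ X) (wE n p)).2
  have h2 : ∀ p, Integrable (F' p) (gm n) := fun p => (h2' p).const_mul _
  have hd : ∀ p X, HasDerivAt (fun s : ℝ => F p (Function.update X p s)) (F' p X) (X p) := by
    intro p X
    have := dphi_path zl cl hz (B := fun t : ℝ => Bm α β σ (Function.update X p t))
      (H := wE n p) (β := β) (t0 := X p) (fun t => pb_Bm α β σ hσ _)
      (fun i j => bm_upd α β σ X p i j (X p))
    rw [Function.update_eq_self] at this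
    exact this
  have hexp : ∀ X, DPhi n zl cl (Bm α β σ X) (Pn n * Wv (1 / (n : ℝ)) X * Pn n)
      = ∑ p, X p • F p X := by
    intro X
    rw [PWP_eq, d6_sum]
    refine Finset.sum_congr rfl fun p _ => ?_
    rw [d6_smul, Complex.real_smul]
  simp_rw [hexp]
  rw [integral_finsetSum _ (fun p _ => h1 p)]
  rw [Finset.sum_congr rfl fun p _ => gm_ibp p (hd p) (h1 p) (h2 p)]
  rw [← integral_finsetSum _ (fun p _ => h2 p), ← integral_const_mul]
  congr 1
  ext X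
  rw [← sum_D2 hn zl cl hz (pb_Bm α β σ hσ X), Finset.mul_sum]

theorem theta_deriv {K : ℕ} (zl cl : Fin (K + 1) → ℂ) (hz : ∀ l, (zl l).im ≠ 0)
    (σ : Fin n → Fin n → Bool) (hσ : σ ∈ Sn n) (θ : ℝ) :
    HasDerivAt (fun t : ℝ => ∫ X, Phi n zl cl (Bm (Real.cos t) (Real.sin t) σ X) ∂(gm n))
      (∫ X, DPhi n zl cl (Bm (Real.cos θ) (Real.sin θ) σ X)
        (-Real.sin θ • H0 σ + Real.cos θ • (Pn n * Wv (1 / (n : ℝ)) X * Pn n)) ∂(gm n)) θ := by
  obtain ⟨C, hC0, hC⟩ := dphi_bd n zl cl hz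
  obtain ⟨D, hD0, -, hD⟩ := s1_bd n
  refine (hasDerivAt_integral_of_dominated_loc_of_deriv_le (μ := gm n) (s := Set.univ)
    (F := fun (t : ℝ) X => Phi n zl cl (Bm (Real.cos t) (Real.sin t) σ X))
    (F' := fun (t : ℝ) X => DPhi n zl cl (Bm (Real.cos t) (Real.sin t) σ X)
        (-Real.sin t • H0 σ + Real.cos t • (Pn n * Wv (1 / (n : ℝ)) X * Pn n)))
    (bound := fun X => (C * D) * (1 + ∑ p, |X p|) ^ 1)
    Filter.univ_mem ?_ ?_ ?_ ?_ ?_ ?_).2
  · refine Filter.Eventually.of_forall fun t => ?_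
    exact (phi_cont zl cl hz (fun X => pb_Bm _ _ σ hσ X)
      (fun i j => bm_cont _ _ σ i j)).aestronglyMeasurable
  · exact phi_int zl cl hz σ hσ _ _
  · refine (dphi_cont zl cl hz (fun X => pb_Bm _ _ σ hσ X)
      (fun i j => bm_cont _ _ σ i j) (fun i j => ?_)).aestronglyMeasurable
    simp only [Matrix.add_apply, Matrix.smul_apply]
    have h := pwp_cont (n := n) i j
    simp only [smul_eq_mul]
    exact continuous_const.add (continuous_const.mul h)
  · refine Filter.Eventually.of_forall fun X t _ => ?_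
    rw [pow_one]
    calc _ ≤ _ := (hC _ (pb_Bm _ _ σ hσ X) _).1
      _ ≤ C * (D * (1 + ∑ p, |X p|)) := mul_le_mul_of_nonneg_left (hD σ X t) hC0
      _ = _ := by ring
  · exact (gm_integrable_pow 1).const_mul _
  · refine Filter.Eventually.of_forall fun X t _ => ?_
    exact phi_path zl cl hz (fun t => pb_Bm _ _ σ hσ X) (fun i j => bm_theta σ X t i j)

theorem theta_deriv' (hn : 0 < n) {K : ℕ} (zl cl : Fin (K + 1) → ℂ) (hz : ∀ l, (zl l).im ≠ 0)
    (σ : Fin n → Fin n → Bool) (hσ : σ ∈ Sn n) (θ : ℝ) :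
    HasDerivAt (fun t : ℝ => ∫ X, Phi n zl cl (Bm (Real.cos t) (Real.sin t) σ X) ∂(gm n))
      ((Real.sin θ : ℂ) * ∫ X, (-DPhi n zl cl (Bm (Real.cos θ) (Real.sin θ) σ X) (H0 σ)
        + (Real.cos θ : ℂ) * Lap n zl cl (Bm (Real.cos θ) (Real.sin θ) σ X)) ∂(gm n)) θ := by
  refine (theta_deriv zl cl hz σ hσ θ).congr_deriv ?_
  have h1 : ∀ X, DPhi n zl cl (Bm (Real.cos θ) (Real.sin θ) σ X)
        (-Real.sin θ • H0 σ + Real.cos θ • (Pn n * Wv (1 / (n : ℝ)) X * Pn n))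
      = -(Real.sin θ : ℂ) * DPhi n zl cl (Bm (Real.cos θ) (Real.sin θ) σ X) (H0 σ)
        + (Real.cos θ : ℂ) * DPhi n zl cl (Bm (Real.cos θ) (Real.sin θ) σ X)
          (Pn n * Wv (1 / (n : ℝ)) X * Pn n) := by
    intro X
    rw [d6_add, d6_smul, d6_smul]
    push_cast
    ring
  simp_rw [h1]
  have i1 := dphi_int zl cl hz σ hσ (Real.cos θ) (Real.sin θ) (H0 σ)
  have i2 := dphiW_int zl cl hz σ hσ (Real.cos θ) (Real.sin θ)
  have i3 := lap_int zl cl hz σ hσ (Real.cos θ) (Real.sin θ)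
  have h2 : ∫ X, (-DPhi n zl cl (Bm (Real.cos θ) (Real.sin θ) σ X) (H0 σ)
        + (Real.cos θ : ℂ) * Lap n zl cl (Bm (Real.cos θ) (Real.sin θ) σ X)) ∂(gm n)
      = -∫ X, DPhi n zl cl (Bm (Real.cos θ) (Real.sin θ) σ X) (H0 σ) ∂(gm n)
        + (Real.cos θ : ℂ) * ∫ X, Lap n zl cl (Bm (Real.cos θ) (Real.sin θ) σ X) ∂(gm n) := by
    rw [← integral_neg, ← integral_const_mul]
    exact integral_add i1.neg (i3.const_mul _)
  rw [h2, integral_add (i1.const_mul _) (i2.const_mul _), integral_const_mul, integral_const_mul,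
    dphi_ibp hn zl cl hz σ hσ]
  ring

end Pool.Agent.ZR

end

section

/-!
# ZR/D7 : `Ecal` is differentiable in `z`; the derivative of `EJ Phi` in `θ`

* `ecI_z`: for `PB (Pn n) B`: derivative in `z` of `ecI`.  `(toC (H0 σ) * G(z)).trace` by `tr_z`,
  `m(z)²` by `mz_z` (`2 m m'`), `tr G²` by `tr2_z` (`(1/n²) 2 tr G³`): together `lm`.
  `(G(z) * G_l²).trace` by `tr_z'` (D1).  `Phi`, `PhiE` do not depend on `z`.
* `ecal_hasDeriv`: `Ecal_eq` (DDefs); `EJ` is a finite average of integrals.  For each `σ ∈ Sn n`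
  `hasDerivAt_integral_of_dominated_loc_of_deriv_le` over `ℂ` on the ball of radius `|z.im|/2` around
  `z`, where `|w.im| ≥ |z.im|/2`; bound = the constant of `ec_bd` (D4) with `η = |z.im|/2`;
  measurability: `ecI_cont`, `ecD_cont` (D5) with `bm_cont` and `pb_Bm`.  Then `HasDerivAt.fun_sum` and
  `HasDerivAt.const_smul`.
* `ej_theta`: `EJ` of `Phi`: sum over `σ ∈ Sn n` of `theta_deriv'` (D6).
* `err_eq`: for `σ ∈ Sn n`, `PB (Pn n) B`: `∑_l ecD n α (zl ∘ l.succAbove) (cl ∘ l.succAbove) (zl l) σ B =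
  -DPhi n zl cl B (H0 σ) + α Lap n zl cl B`.  Indeed `dm n z B (H0 σ) = -(1/n) tr(G H0 G) =
  -(1/n) tr(H0 G²)` (cyclicity), so `-DPhi = ∑_l (1/n) tr(H0 G_l²) Phi(..)`; and `Lap` and the
  remaining terms of `ecD` agree term by term (`2α/n³ = α (2/n³)`).
* `dTheta`: combine `ej_theta` and `err_eq`; the sum over `l` is interchanged with `EJ`
  (`ecD_int` (D6), `integral_finset_sum`, `Finset.sum_comm`).
-/


open MeasureTheory ProbabilityTheory Matrix

namespace Pool.Agent.ZR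

variable {n : ℕ}

theorem ecI_z (α : ℝ) {K : ℕ} (zl cl : Fin K → ℂ) {z : ℂ} (hz : z.im ≠ 0)
    (σ : Fin n → Fin n → Bool) {B : Matrix (Fin n) (Fin n) ℝ} (h : PB (Pn n) B) :
    HasDerivAt (fun w => ecI n α zl cl w σ B) (ecD n α zl cl z σ B) z := by
  have h1 := (tr_z h (toC (H0 σ)) hz).const_mul (1 / (n : ℂ))
  have h2 := ((mz_z h hz).fun_pow 2).fun_add ((tr2_z h hz).const_mul (1 / (n : ℂ) ^ 2))
  have h3 := (h1.fun_add (h2.const_mul (α : ℂ))).mul_const (Phi n zl cl B)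
  have h5 := (HasDerivAt.fun_sum (u := Finset.univ)
    (fun l _ => (tr_z' h (Gz (Pn n) B (zl l) ^ 2) hz).mul_const (PhiE n zl cl l B))).const_mul
      (2 * (α : ℂ) / (n : ℂ) ^ 3)
  have h6 := h3.fun_add h5
  refine HasDerivAt.congr_deriv (f := fun w => ecI n α zl cl w σ B) h6 ?_
  unfold ecD lm
  simp only [Nat.cast_ofNat, Nat.add_one_sub_one, pow_one]
  ring

private theorem d7_ball {z w : ℂ} (hw : ‖w - z‖ ≤ |z.im| / 2) : |z.im| / 2 ≤ |w.im| := by
  have h1 : |w.im - z.im| ≤ ‖w - z‖ := by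
    have := Complex.abs_im_le_norm (w - z)
    simpa using this
  have h3 : |z.im| ≤ |w.im| + |w.im - z.im| := by
    have := abs_sub_abs_le_abs_sub z.im w.im
    rw [abs_sub_comm] at this
    linarith
  linarith

theorem ecal_hasDeriv (α β : ℝ) {K : ℕ} (zl cl : Fin K → ℂ) (hzl : ∀ l, (zl l).im ≠ 0) {z : ℂ}
    (hz : z.im ≠ 0) : HasDerivAt (Ecal n α β zl cl) (EcalD n α β zl cl z) z := by
  have hpos : 0 < |z.im| := abs_pos.2 hz
  obtain ⟨C, hC0, hC⟩ := ec_bd n α zl cl hzl (|z.im| / 2) (by positivity)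
  have hball : ∀ w ∈ Metric.ball z (|z.im| / 2), |z.im| / 2 ≤ |w.im| := by
    intro w hw
    have h2 : ‖w - z‖ < |z.im| / 2 := by simpa [dist_eq_norm] using hw
    exact d7_ball h2.le
  have hne : ∀ w ∈ Metric.ball z (|z.im| / 2), w.im ≠ 0 := by
    intro w hw h0
    have := hball w hw
    rw [h0, abs_zero] at this
    linarith
  have hint : ∀ σ ∈ Sn n, HasDerivAt (fun w => ∫ X, ecI n α zl cl w σ (Bm α β σ X) ∂(gm n))
      (∫ X, ecD n α zl cl z σ (Bm α β σ X) ∂(gm n)) z := by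
    intro σ hσ
    have hPB : ∀ X, PB (Pn n) (Bm α β σ X) := pb_Bm α β σ hσ
    have hc := bm_cont (n := n) α β σ
    have hprob : IsProbabilityMeasure (gm n) := by unfold gm; infer_instance
    refine (hasDerivAt_integral_of_dominated_loc_of_deriv_le (μ := gm n)
      (F := fun w X => ecI n α zl cl w σ (Bm α β σ X))
      (F' := fun w X => ecD n α zl cl w σ (Bm α β σ X))
      (bound := fun _ => C) (Metric.ball_mem_nhds z (by positivity : 0 < |z.im| / 2))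
      ?_ ?_ ?_ ?_ ?_ ?_).2
    · filter_upwards [Metric.ball_mem_nhds z (by positivity : 0 < |z.im| / 2)] with w hw
      exact (ecI_cont α zl cl w (hne w hw) hzl σ hPB hc).aestronglyMeasurable
    · exact ecI_int zl cl z hz hzl σ hσ α β
    · exact (ecD_cont α zl cl z hz hzl σ hPB hc).aestronglyMeasurable
    · refine Filter.Eventually.of_forall fun X w hw => ?_
      exact (hC w σ _ (hball w hw) (hPB X)).2
    · exact integrable_const _
    · refine Filter.Eventually.of_forall fun X w hw => ?_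
      exact ecI_z α zl cl (hne w hw) σ (hPB X)
  have h1 := (HasDerivAt.fun_sum (u := Sn n) (fun σ hσ => hint σ hσ)).fun_const_smul
    (((Sn n).card : ℝ)⁻¹)
  exact h1

theorem ej_theta (hn : 0 < n) {K : ℕ} (zl cl : Fin (K + 1) → ℂ) (hz : ∀ l, (zl l).im ≠ 0)
    (θ : ℝ) :
    HasDerivAt (fun t : ℝ => EJ (n := n) (fun σ X =>
        Phi n zl cl (Bm (Real.cos t) (Real.sin t) σ X)))
      ((Real.sin θ : ℂ) * EJ (n := n) (fun σ X =>
        (-DPhi n zl cl (Bm (Real.cos θ) (Real.sin θ) σ X) (H0 σ)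
        + (Real.cos θ : ℂ) * Lap n zl cl (Bm (Real.cos θ) (Real.sin θ) σ X)))) θ := by
  have h1 := (HasDerivAt.fun_sum (u := Sn n) (fun σ hσ =>
    theta_deriv' hn zl cl hz σ hσ θ)).fun_const_smul (((Sn n).card : ℝ)⁻¹)
  refine HasDerivAt.congr_deriv (f := fun t : ℝ => EJ (n := n) (fun σ X =>
        Phi n zl cl (Bm (Real.cos t) (Real.sin t) σ X))) h1 ?_
  unfold EJ EU
  rw [mul_smul_comm, Finset.mul_sum]

theorem err_eq (α : ℝ) {K : ℕ} (zl cl : Fin (K + 1) → ℂ) (σ : Fin n → Fin n → Bool)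
    (B : Matrix (Fin n) (Fin n) ℝ) :
    ∑ l, ecD n α (fun j : Fin K => zl (l.succAbove j)) (fun j : Fin K => cl (l.succAbove j))
        (zl l) σ B
      = -DPhi n zl cl B (H0 σ) + (α : ℂ) * Lap n zl cl B := by
  unfold DPhi Lap ecD dm
  rw [Finset.mul_sum, ← Finset.sum_neg_distrib, ← Finset.sum_add_distrib]
  refine Finset.sum_congr rfl fun l _ => ?_
  have h1 : (Gz (Pn n) B (zl l) * toC (H0 σ) * Gz (Pn n) B (zl l)).trace
      = (toC (H0 σ) * Gz (Pn n) B (zl l) ^ 2).trace := by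
    rw [Matrix.trace_mul_cycle, Matrix.trace_mul_comm, pow_two]
  rw [h1]
  ring

/-- PART D, final statement. -/
theorem dTheta (hn : 0 < n) {K : ℕ} (zl cl : Fin (K + 1) → ℂ) (hz : ∀ l, (zl l).im ≠ 0) (θ : ℝ) :
    HasDerivAt (fun t : ℝ => EJ (n := n) (fun σ X =>
        ∏ l, (mz (Pn n) (Bm (Real.cos t) (Real.sin t) σ X) (zl l) - cl l)))
      ((Real.sin θ : ℂ) * ∑ l, EcalD n (Real.cos θ) (Real.sin θ)
        (fun j : Fin K => zl (l.succAbove j)) (fun j : Fin K => cl (l.succAbove j)) (zl l)) θ := by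
  refine HasDerivAt.congr_deriv (f := fun t : ℝ => EJ (n := n) (fun σ X =>
        ∏ l, (mz (Pn n) (Bm (Real.cos t) (Real.sin t) σ X) (zl l) - cl l)))
    (ej_theta hn zl cl hz θ) ?_
  have h2 : ∀ σ ∈ Sn n, ∫ X, (-DPhi n zl cl (Bm (Real.cos θ) (Real.sin θ) σ X) (H0 σ)
        + (Real.cos θ : ℂ) * Lap n zl cl (Bm (Real.cos θ) (Real.sin θ) σ X)) ∂(gm n)
      = ∑ l, ∫ X, ecD n (Real.cos θ) (fun j : Fin K => zl (l.succAbove j))
          (fun j : Fin K => cl (l.succAbove j)) (zl l) σ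
          (Bm (Real.cos θ) (Real.sin θ) σ X) ∂(gm n) := by
    intro σ hσ
    rw [← integral_finsetSum]
    · refine integral_congr_ae (Filter.Eventually.of_forall fun X => ?_)
      exact (err_eq (Real.cos θ) zl cl σ (Bm (Real.cos θ) (Real.sin θ) σ X)).symm
    · intro l _
      exact ecD_int _ _ (zl l) (hz l) (fun j => hz _) σ hσ _ _
  unfold EcalD EJ EU
  rw [Finset.sum_congr rfl h2, ← Finset.smul_sum]
  congr 2
  rw [Finset.sum_comm]

/-- Cauchy estimate for the derivative of `Ecal`. -/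
theorem ecalD_le (α β : ℝ) {K : ℕ} (zl cl : Fin K → ℂ) (hzl : ∀ l, (zl l).im ≠ 0) {z : ℂ}
    (hz : z.im ≠ 0) (M : ℝ)
    (hM : ∀ w : ℂ, ‖w - z‖ = |z.im| / 2 → ‖Ecal n α β zl cl w‖ ≤ M) :
    ‖EcalD n α β zl cl z‖ ≤ M / (|z.im| / 2) := by
  have hpos : 0 < |z.im| := abs_pos.2 hz
  rw [← (ecal_hasDeriv α β zl cl hzl hz).deriv]
  refine Complex.norm_deriv_le_of_forall_mem_sphere_norm_le (by positivity) ?_ ?_
  · refine DifferentiableOn.diffContOnCl_ball (U := Metric.closedBall z (|z.im| / 2)) ?_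
      (subset_refl _)
    intro w hw
    have h2 : ‖w - z‖ ≤ |z.im| / 2 := by simpa [dist_eq_norm] using hw
    have h3 := d7_ball h2
    have hw0 : w.im ≠ 0 := by
      intro h0
      rw [h0, abs_zero] at h3
      linarith
    exact (ecal_hasDeriv α β zl cl hzl hw0).differentiableAt.differentiableWithinAt
  · intro w hw
    exact hM w (by simpa [dist_eq_norm] using hw)

end Pool.Agent.ZR

end

section

/-!
# ZR/H3 : admissible parameters, the derivative in `θ` from bounds of `Ecal` on circles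

* `adm_self`: immediate (`η ≤ n² ≤ n³`).
* `adm_circ`: `|w.im - z.im| ≤ η/2`, `|w.re - z.re| ≤ η/2` (`Complex.abs_im_le_norm`,
  `Complex.abs_re_le_norm`), so `η/2 ≤ |w.im| ≤ 3η/2 ≤ n³` (`n ≥ 2`), `|w.re| ≤ 2 + η/2 ≤ 2 + |w.im|`.
* `der_bd`: `dTheta`, `ecalD_le` (D7), triangle inequality; `|z.im| = η`.
* `avg_bd`: `mz = (1/n) ∑_x G_xx`.
* `prod_le`: bounded products: `‖mz‖ ≤ 1/η` (`mz_norm_le`, C3).
-/


open MeasureTheory ProbabilityTheory Matrix

namespace Pool.Agent.ZR.H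

variable {n : ℕ}

private lemma pow23 (hn : 2 ≤ n) : (n : ℝ) ^ 2 * 2 ≤ (n : ℝ) ^ 3 := by
  have h2 : (2 : ℝ) ≤ n := by exact_mod_cast hn
  nlinarith [sq_nonneg (n : ℝ), mul_le_mul_of_nonneg_left h2 (sq_nonneg (n : ℝ))]

theorem adm_self {z : ℂ} {η : ℝ} (hn : 2 ≤ n) (h0 : 0 < η) (hz : |z.im| = η)
    (h1 : η ≤ (n : ℝ) ^ 2) (h2 : |z.re| ≤ 2) : Adm n (η / 2) z := by
  have h3 := pow23 hn
  have h4 : (0 : ℝ) ≤ (n : ℝ) ^ 2 := by positivity
  refine ⟨?_, ?_, ?_⟩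
  · rw [hz]; linarith
  · rw [hz]; linarith
  · rw [hz]; linarith

theorem adm_circ {z w : ℂ} {η : ℝ} (hn : 2 ≤ n) (h0 : 0 < η) (hz : |z.im| = η)
    (h1 : η ≤ (n : ℝ) ^ 2) (h2 : |z.re| ≤ 2) (hw : ‖w - z‖ = η / 2) : Adm n (η / 2) w := by
  have h3 := pow23 hn
  have h4 : (0 : ℝ) ≤ (n : ℝ) ^ 2 := by positivity
  have h5 : |w.im - z.im| ≤ η / 2 := by
    rw [← hw]
    have := Complex.abs_im_le_norm (w - z)
    simpa using this
  have h6 : |w.re - z.re| ≤ η / 2 := by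
    rw [← hw]
    have := Complex.abs_re_le_norm (w - z)
    simpa using this
  have h7 : |z.im| ≤ |w.im| + |w.im - z.im| := by
    have := abs_sub_abs_le_abs_sub z.im w.im
    rw [abs_sub_comm] at this
    linarith
  have h8 : |w.im| ≤ |z.im| + |w.im - z.im| := by
    have := abs_sub_abs_le_abs_sub w.im z.im
    linarith
  have h9 : |w.re| ≤ |z.re| + |w.re - z.re| := by
    have := abs_sub_abs_le_abs_sub w.re z.re
    linarith
  refine ⟨?_, ?_, ?_⟩
  · rw [hz] at h7; linarith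
  · rw [hz] at h8; linarith
  · rw [hz] at h7; linarith

theorem der_bd (hn : 0 < n) {K : ℕ} (zl cl : Fin (K + 1) → ℂ) {η M : ℝ} (h0 : 0 < η)
    (hz : ∀ l, |(zl l).im| = η) (θ : ℝ) (hθ : 0 ≤ Real.sin θ)
    (hM : ∀ l, ∀ w : ℂ, ‖w - zl l‖ = η / 2 →
      ‖Ecal n (Real.cos θ) (Real.sin θ) (fun j : Fin K => zl (l.succAbove j))
        (fun j : Fin K => cl (l.succAbove j)) w‖ ≤ M) :
    ∃ d : ℂ, HasDerivAt (fun t : ℝ => EJ (n := n) (fun σ X =>
        ∏ l, (mz (Pn n) (Bm (Real.cos t) (Real.sin t) σ X) (zl l) - cl l))) d θ ∧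
      ‖d‖ ≤ Real.sin θ * (((K : ℝ) + 1) * (M / (η / 2))) := by
  have hne : ∀ l, (zl l).im ≠ 0 := fun l h => by
    have := hz l
    rw [h, abs_zero] at this
    linarith
  refine ⟨_, dTheta hn zl cl hne θ, ?_⟩
  rw [norm_mul, Complex.norm_real, Real.norm_of_nonneg hθ]
  refine mul_le_mul_of_nonneg_left ?_ hθ
  refine (norm_sum_le _ _).trans ?_
  have h1 : ∀ l : Fin (K + 1), ‖EcalD n (Real.cos θ) (Real.sin θ)
      (fun j : Fin K => zl (l.succAbove j)) (fun j : Fin K => cl (l.succAbove j)) (zl l)‖ ≤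
      M / (η / 2) := fun l => by
    have h2 := ecalD_le (n := n) (Real.cos θ) (Real.sin θ) (fun j : Fin K => zl (l.succAbove j))
      (fun j : Fin K => cl (l.succAbove j)) (fun j => hne _) (hne l) M (by
        intro w hw
        rw [hz l] at hw
        exact hM l w hw)
    rwa [hz l] at h2
  calc ∑ l : Fin (K + 1), ‖EcalD n (Real.cos θ) (Real.sin θ)
        (fun j : Fin K => zl (l.succAbove j)) (fun j : Fin K => cl (l.succAbove j)) (zl l)‖
      ≤ ∑ _l : Fin (K + 1), M / (η / 2) := Finset.sum_le_sum fun l _ => h1 l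
    _ = ((K : ℝ) + 1) * (M / (η / 2)) := by
        rw [Finset.sum_const, Finset.card_univ, Fintype.card_fin, nsmul_eq_mul]
        push_cast
        ring

theorem avg_bd {B : Matrix (Fin n) (Fin n) ℝ} {z : ℂ} {b : ℝ} (hb : 0 ≤ b)
    (h : ∀ x, ‖Gz (Pn n) B z x x‖ ≤ b) : ‖mz (Pn n) B z‖ ≤ b := by
  unfold mz Matrix.trace
  simp only [Matrix.diag_apply]
  rcases Nat.eq_zero_or_pos n with h0 | h0
  · subst h0
    simpa using hb
  have hn : (0 : ℝ) < n := by exact_mod_cast h0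
  have h1 : ‖∑ x, Gz (Pn n) B z x x‖ ≤ n * b := by
    refine (norm_sum_le _ _).trans ?_
    refine (Finset.sum_le_sum fun x _ => h x).trans (le_of_eq ?_)
    rw [Finset.sum_const, Finset.card_univ, Fintype.card_fin, nsmul_eq_mul]
  rw [norm_mul, norm_div, norm_one, Complex.norm_natCast]
  calc 1 / (n : ℝ) * ‖∑ x, Gz (Pn n) B z x x‖ ≤ 1 / (n : ℝ) * (n * b) :=
        mul_le_mul_of_nonneg_left h1 (by positivity)
    _ = b := by field_simp

end Pool.Agent.ZR.H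

end
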