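import Pool.Agent.ZRM.P13

/-!
# Merged form of the modules ZR.ICu
-/

set_option autoImplicit false

section

/-!
# ZR, part I (helper58): second moment of the counting function, fixed `n`
-/


open MeasureTheory ProbabilityTheory

namespace Pool.Agent.ZR.I

variable {Ω : Type*} [MeasurableSpace Ω]

lemma msc_cont_max (x η : ℝ) (hη : 0 < η) : Continuous (fun u : ℝ => msc ⟨x, max u η⟩) := by
  rw [continuous_iff_continuousAt]
  intro u
  have h0 : 0 < max u η := lt_of_lt_of_le hη (le_max_right _ _)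
  have h1 : ContinuousAt msc (⟨x, max u η⟩ : ℂ) :=
    (msc_differentiableAt _ (by simpa using h0.ne')).continuousAt
  have h2 : Continuous (fun u : ℝ => (⟨x, max u η⟩ : ℂ)) := by
    have : (fun u : ℝ => (⟨x, max u η⟩ : ℂ)) = fun u : ℝ => (x : ℂ) + ((max u η : ℝ) : ℂ) * Complex.I := by
      funext u; apply Complex.ext <;> simp
    rw [this]
    exact continuous_const.add ((Complex.continuous_ofReal.comp (by fun_prop)).mul continuous_const)
  exact ContinuousAt.comp (f := fun u : ℝ => (⟨x, max u η⟩ : ℂ)) h1 h2.continuousAt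

lemma int_inv {η R : ℝ} (hη : 0 < η) (hR : η ≤ R) :
    ∫ u in Set.Ioc η R, 1 / u = Real.log (R / η) := by
  rw [← intervalIntegral.integral_of_le hR, integral_one_div_of_pos hη (lt_of_lt_of_le hη hR)]

lemma int_inv3 {η R : ℝ} (hη : 0 < η) (hR : η ≤ R) :
    ∫ u in Set.Ioc η R, 1 / u ^ 3 ≤ 1 / (2 * η ^ 2) := by
  have hRpos : 0 < R := lt_of_lt_of_le hη hR
  rw [← intervalIntegral.integral_of_le hR]
  have h1 : ∀ u ∈ Set.uIcc η R, HasDerivAt (fun u : ℝ => -(1 / 2) * (u ^ 2)⁻¹) (1 / u ^ 3) u := by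
    intro u hu
    rw [Set.uIcc_of_le hR] at hu
    have hu0 : 0 < u := lt_of_lt_of_le hη hu.1
    have h2 := ((hasDerivAt_pow 2 u).inv (by positivity)).const_mul (-(1 / 2 : ℝ))
    refine h2.congr_deriv ?_
    field_simp
    norm_num
  have hcont : ContinuousOn (fun u : ℝ => 1 / u ^ 3) (Set.uIcc η R) := by
    refine ContinuousOn.div continuousOn_const (by fun_prop) fun u hu => ?_
    rw [Set.uIcc_of_le hR] at hu
    have hu0 : 0 < u := (lt_of_lt_of_le hη hu.1)
    positivity
  rw [intervalIntegral.integral_eq_sub_of_hasDerivAt h1 hcont.intervalIntegrable]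
  have h3 : 0 ≤ (R ^ 2)⁻¹ := by positivity
  have h4 : 1 / (2 * η ^ 2) = 1 / 2 * (η ^ 2)⁻¹ := by field_simp
  rw [h4]
  linarith

lemma F1_moment {M n : ℕ} {l : Ω → Fin M → ℝ} (hl : Measurable l) (P : Measure Ω)
    [IsProbabilityMeasure P] {x η R A : ℝ} (hη : 0 < η) (hR : η ≤ R) (hA : 0 ≤ A)
    (h1 : ∀ u, η ≤ u → u ≤ R → ∫ ω, (f1 (l ω) x u + n * (msc ⟨x, u⟩).re) ^ 2 ∂P ≤ A / u ^ 2) :
    ∫ ω, (∫ u in η..R, (f1 (l ω) x u + n * (msc ⟨x, u⟩).re)) ^ 2 ∂P ≤ Real.log (R / η) ^ 2 * A := by
  set g : ℝ → ℝ := fun u => (msc ⟨x, max u η⟩).re with hg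
  have hgc : Continuous g := Complex.continuous_re.comp (msc_cont_max x η hη)
  have hge : ∀ u, η ≤ u → g u = (msc ⟨x, u⟩).re := fun u hu => by simp only [hg, max_eq_left hu]
  have hgb : ∀ u, |g u| ≤ 1 := by
    intro u
    have h0 : 0 < max u η := lt_of_lt_of_le hη (le_max_right _ _)
    exact (Complex.abs_re_le_norm _).trans (msc_norm_lt _ (by simpa using h0.ne')).le
  have hfm : Measurable (Function.uncurry (fun (u : ℝ) (ω : Ω) => f1 (l ω) x u + n * g u)) := by
    have h2 := f1_meas hl x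
    exact h2.add ((hgc.measurable.comp measurable_fst).const_mul _)
  have hmem : ∀ᵐ u ∂(volume.restrict (Set.Ioc η R)), u ∈ Set.Ioc η R := ae_restrict_mem measurableSet_Ioc
  have key := L2w P (volume.restrict (Set.Ioc η R)) (fun u => u) measurable_id R
    (by filter_upwards [hmem] with u hu; exact ⟨lt_trans hη hu.1, hu.2⟩)
    (by
      have : IntegrableOn (fun u : ℝ => 1 / u) (Set.Icc η R) := by
        refine ContinuousOn.integrableOn_Icc (ContinuousOn.div continuousOn_const (by fun_prop) fun u hu => ?_)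
        exact (lt_of_lt_of_le hη hu.1).ne'
      exact this.mono_set Set.Ioc_subset_Icc_self)
    (fun u ω => f1 (l ω) x u + n * g u) hfm (M / η + n)
    (by
      filter_upwards [hmem] with u hu ω
      have hu0 : 0 < u := lt_trans hη hu.1
      refine (abs_add_le _ _).trans (add_le_add ((f1_bound (l ω) x u hu0).trans ?_) ?_)
      · exact div_le_div_of_nonneg_left (Nat.cast_nonneg M) hη hu.1.le
      · rw [abs_mul, Nat.abs_cast]
        have := hgb u
        have hn : (0 : ℝ) ≤ n := Nat.cast_nonneg n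
        nlinarith)
    (fun u => A / u ^ 2)
    (by
      filter_upwards [hmem] with u hu
      have := h1 u hu.1.le hu.2
      simp only [hge u hu.1.le]
      exact this)
    (by
      have : IntegrableOn (fun u : ℝ => u * (A / u ^ 2)) (Set.Icc η R) := by
        refine ContinuousOn.integrableOn_Icc (ContinuousOn.mul (by fun_prop)
          (ContinuousOn.div continuousOn_const (by fun_prop) fun u hu => ?_))
        have := lt_of_lt_of_le hη hu.1
        positivity
      exact this.mono_set Set.Ioc_subset_Icc_self)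
  have e1 : ∀ ω, ∫ u in η..R, (f1 (l ω) x u + n * (msc ⟨x, u⟩).re)
      = ∫ u in Set.Ioc η R, (f1 (l ω) x u + n * g u) := by
    intro ω
    rw [intervalIntegral.integral_of_le hR]
    refine setIntegral_congr_fun measurableSet_Ioc fun u hu => ?_
    rw [hge u hu.1.le]
  simp_rw [e1]
  refine key.trans (le_of_eq ?_)
  have e2 : ∫ u in Set.Ioc η R, u * (A / u ^ 2) = A * Real.log (R / η) := by
    rw [← int_inv hη hR, ← integral_const_mul]
    refine setIntegral_congr_fun measurableSet_Ioc fun u hu => ?_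
    have hu0 : 0 < u := lt_trans hη hu.1
    field_simp
  rw [e2, int_inv hη hR]
  ring

lemma F2_moment {M n : ℕ} {l : Ω → Fin M → ℝ} (hl : Measurable l) (P : Measure Ω)
    [IsProbabilityMeasure P] {x η R A : ℝ} (hη : 0 < η) (hR : η ≤ R) (hA : 0 ≤ A)
    (h2 : ∀ u, η ≤ u → u ≤ R → ∫ ω, (u * f2 (l ω) x u) ^ 2 ∂P ≤ 2 * (n : ℝ) ^ 2 + 2 * (A / u ^ 2)) :
    ∫ ω, (η * ∫ u in η..R, f2 (l ω) x u) ^ 2 ∂P
      ≤ 2 * (n * η) ^ 2 * Real.log (R / η) ^ 2 + Real.log (R / η) * A := by
  have hRpos : 0 < R := lt_of_lt_of_le hη hR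
  have hL0 : 0 ≤ Real.log (R / η) := Real.log_nonneg (by rw [le_div_iff₀ hη, one_mul]; exact hR)
  have hfm : Measurable (Function.uncurry (fun (u : ℝ) (ω : Ω) => f2 (l ω) x u)) := f2_meas hl x
  have hmem : ∀ᵐ u ∂(volume.restrict (Set.Ioc η R)), u ∈ Set.Ioc η R := ae_restrict_mem measurableSet_Ioc
  have hcontG : ContinuousOn (fun u : ℝ => u * ((2 * (n : ℝ) ^ 2 + 2 * (A / u ^ 2)) / u ^ 2)) (Set.Icc η R) := by
    refine ContinuousOn.mul (by fun_prop) (ContinuousOn.div (ContinuousOn.add continuousOn_const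
      (ContinuousOn.mul continuousOn_const (ContinuousOn.div continuousOn_const (by fun_prop) fun u hu => ?_)))
      (by fun_prop) fun u hu => ?_)
    · have := lt_of_lt_of_le hη hu.1
      positivity
    · have := lt_of_lt_of_le hη hu.1
      positivity
  have key := L2w P (volume.restrict (Set.Ioc η R)) (fun u => u) measurable_id R
    (by filter_upwards [hmem] with u hu; exact ⟨lt_trans hη hu.1, hu.2⟩)
    (by
      have : IntegrableOn (fun u : ℝ => 1 / u) (Set.Icc η R) := by
        refine ContinuousOn.integrableOn_Icc (ContinuousOn.div continuousOn_const (by fun_prop) fun u hu => ?_)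
        exact (lt_of_lt_of_le hη hu.1).ne'
      exact this.mono_set Set.Ioc_subset_Icc_self)
    (fun u ω => f2 (l ω) x u) hfm (M / η ^ 2)
    (by
      filter_upwards [hmem] with u hu ω
      have hu0 : 0 < u := lt_trans hη hu.1
      refine (f2_bound (l ω) x u hu0).trans ?_
      exact div_le_div_of_nonneg_left (Nat.cast_nonneg M) (by positivity)
        (pow_le_pow_left₀ hη.le hu.1.le 2))
    (fun u => (2 * (n : ℝ) ^ 2 + 2 * (A / u ^ 2)) / u ^ 2)
    (by
      filter_upwards [hmem] with u hu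
      have hu0 : 0 < u := lt_trans hη hu.1
      have := h2 u hu.1.le hu.2
      rw [le_div_iff₀ (by positivity)]
      have e : ∀ ω, (u * f2 (l ω) x u) ^ 2 = f2 (l ω) x u ^ 2 * u ^ 2 := fun ω => by ring
      simp_rw [e] at this
      rw [integral_mul_const] at this
      exact this)
    (hcontG.integrableOn_Icc.mono_set Set.Ioc_subset_Icc_self)
  have e1 : ∀ ω, (η * ∫ u in η..R, f2 (l ω) x u) ^ 2 = η ^ 2 * (∫ u in Set.Ioc η R, f2 (l ω) x u) ^ 2 := by
    intro ω
    rw [intervalIntegral.integral_of_le hR, mul_pow]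
  simp_rw [e1]
  rw [integral_const_mul]
  have i1 : IntegrableOn (fun u : ℝ => 1 / u) (Set.Ioc η R) := by
    have : IntegrableOn (fun u : ℝ => 1 / u) (Set.Icc η R) := by
      refine ContinuousOn.integrableOn_Icc (ContinuousOn.div continuousOn_const (by fun_prop) fun u hu => ?_)
      exact (lt_of_lt_of_le hη hu.1).ne'
    exact this.mono_set Set.Ioc_subset_Icc_self
  have i3 : IntegrableOn (fun u : ℝ => 1 / u ^ 3) (Set.Ioc η R) := by
    have : IntegrableOn (fun u : ℝ => 1 / u ^ 3) (Set.Icc η R) := by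
      refine ContinuousOn.integrableOn_Icc (ContinuousOn.div continuousOn_const (by fun_prop) fun u hu => ?_)
      have := lt_of_lt_of_le hη hu.1
      positivity
    exact this.mono_set Set.Ioc_subset_Icc_self
  have e2 : ∫ u in Set.Ioc η R, u * ((2 * (n : ℝ) ^ 2 + 2 * (A / u ^ 2)) / u ^ 2)
      = 2 * (n : ℝ) ^ 2 * Real.log (R / η) + 2 * A * ∫ u in Set.Ioc η R, 1 / u ^ 3 := by
    rw [← int_inv hη hR, ← integral_const_mul, ← integral_const_mul, ← integral_add (i1.const_mul _) (i3.const_mul _)]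
    refine setIntegral_congr_fun measurableSet_Ioc fun u hu => ?_
    have hu0 : 0 < u := lt_trans hη hu.1
    field_simp
  rw [e2, int_inv hη hR] at key
  have h3 := int_inv3 hη hR
  have h4 : 2 * A * (∫ u in Set.Ioc η R, 1 / u ^ 3) ≤ A / η ^ 2 := by
    calc 2 * A * (∫ u in Set.Ioc η R, 1 / u ^ 3) ≤ 2 * A * (1 / (2 * η ^ 2)) :=
          mul_le_mul_of_nonneg_left h3 (by positivity)
      _ = A / η ^ 2 := by field_simp
  calc η ^ 2 * ∫ ω, (∫ u in Set.Ioc η R, f2 (l ω) x u) ^ 2 ∂P
      ≤ η ^ 2 * (Real.log (R / η) * (2 * (n : ℝ) ^ 2 * Real.log (R / η) + A / η ^ 2)) := by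
        refine mul_le_mul_of_nonneg_left (key.trans (mul_le_mul_of_nonneg_left ?_ hL0)) (by positivity)
        linarith
    _ = 2 * (n * η) ^ 2 * Real.log (R / η) ^ 2 + Real.log (R / η) * A := by
        field_simp

end Pool.Agent.ZR.I

end
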