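import Pool.Agent.ZRM.P13
import Pool.Agent.ZRM.P15
import Pool.Agent.ZRM.P16

/-!
# Merged form of the modules ZR.GEb, ZR.JWegM, ZR.GEc, ZR.GJc, ZR.MCnt, ZR.MFin, ZR.GJd, ZR.GPc, ZR.JGood
-/

set_option autoImplicit false

section

/-!
# ZR, part G: the diagonal entries of `H_0 G` and `H_0 G²` (comparison with a reference point).

`H` symmetric with `OpLe H q`; `w = E + i u`, `u = w.im`, `κ = max u η₁ ≤ q u`, `w0 = E0 + 2 i κ`,
`|E - E0| ≤ u`.  Then `|w - w0|² ≤ u² + 4κ² ≤ 5κ²` and `|w - w0| ≥ |Im| = 2κ - u ≥ κ ≥ u`.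

`refd` (basic estimate): for any matrix `A`:
`(A * G(w0)) j j = ∑_x A_jx G(w0)_xj`, so `‖.‖² ≤ (∑_x ‖A_jx‖²)(∑_x ‖G(w0)_xj‖²)` and by `gz_symm`
and `ward`: `∑_x ‖G(w0)_xj‖² = Im G_jj(w0)/(2κ) ≤ q/(2κ)` (`hG0`).  Sum over `j`:
`≤ q/(2κ) · hs2 A`.
`dg_diff`: `G(w) - G(w0) = (w-w0) G(w) G(w0)` (`gz_res`); `A = H * G(w)`,
`hs2 A ≤ q² hs2 G(w) ≤ q² n q³/u`.  Total `5κ² · q/(2κ) · n q⁵/u = (5/2)(κ/u) n q⁶ ≤ (5/2) n q⁷
≤ n q⁸`.
`dg_one`: `‖x + y‖² ≤ 2‖x‖² + 2‖y‖²` with `x = (H G(w0))_jj` (`≤ q¹¹`): `2 n q²² + 2 n q⁸ ≤ n q²⁴`.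
`dg_two`: `G(w)² = (w-w0)⁻¹ (G(w) - G(w0)) + (w-w0) G(w)² G(w0)` (multiply `gz_res` by `G(w)` on
the left and use `gz_res` again; `w ≠ w0`).  First part: `≤ n q⁸/κ² ≤ n q⁸/u²`; second part: `refd`
with `A = H * G(w)²`, `hs2 A ≤ q² n q³/u³`: `5κ² · q/(2κ) · n q⁵/u³ ≤ n q⁸/u²`.  Total
`2(..)+2(..) = 4 n q⁸/u² ≤ n q¹⁰/u²`.
`dg_big`: for `w.im ≥ 1` by `op_gz`: `‖(H G)_jj‖ ≤ q/w.im ≤ q` (`opLe_mul`, `opLe_entry`) and
`‖(H G²)_jj‖ ≤ q/w.im² ≤ q/w.im`.
-/


open MeasureTheory ProbabilityTheory Matrix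

namespace Pool.Agent.ZR.G

theorem refd {n : ℕ} {B : Matrix (Fin n) (Fin n) ℝ} (h : PB (Pn n) B) (A : Matrix (Fin n) (Fin n) ℂ)
    (w0 : ℂ) (q : ℝ) (hw : 0 < w0.im) (hG0 : ∀ x, (Gz (Pn n) B w0 x x).im ≤ q) :
    ∑ j, ‖(A * Gz (Pn n) B w0) j j‖ ^ 2 ≤ q / w0.im * hs2 A := by
  have hsym := gz_symm h w0 hw.ne'
  have key : ∀ j, ‖(A * Gz (Pn n) B w0) j j‖ ^ 2 ≤ (q / w0.im) * ∑ x, ‖A j x‖ ^ 2 := by
    intro j
    rw [Matrix.mul_apply]
    have h1 : ‖∑ x, A j x * Gz (Pn n) B w0 x j‖ ≤ ∑ x, ‖A j x‖ * ‖Gz (Pn n) B w0 x j‖ := by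
      refine (norm_sum_le _ _).trans (le_of_eq ?_)
      simp only [norm_mul]
    have h2 : (∑ x, ‖A j x‖ * ‖Gz (Pn n) B w0 x j‖) ^ 2
        ≤ (∑ x, ‖A j x‖ ^ 2) * ∑ x, ‖Gz (Pn n) B w0 x j‖ ^ 2 :=
      Finset.sum_mul_sq_le_sq_mul_sq _ _ _
    have hs : ∀ x, ‖Gz (Pn n) B w0 x j‖ = ‖Gz (Pn n) B w0 j x‖ := by
      intro x
      have h8 := congrFun (congrFun hsym j) x
      rw [Matrix.transpose_apply] at h8
      rw [h8]
    have h3 : ∑ x, ‖Gz (Pn n) B w0 x j‖ ^ 2 ≤ q / w0.im := by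
      rw [Finset.sum_congr rfl fun x _ => by rw [hs x], ward h w0 hw j]
      exact div_le_div_of_nonneg_right (hG0 j) hw.le
    calc ‖∑ x, A j x * Gz (Pn n) B w0 x j‖ ^ 2
        ≤ (∑ x, ‖A j x‖ * ‖Gz (Pn n) B w0 x j‖) ^ 2 := pow_le_pow_left₀ (norm_nonneg _) h1 2
      _ ≤ (∑ x, ‖A j x‖ ^ 2) * ∑ x, ‖Gz (Pn n) B w0 x j‖ ^ 2 := h2
      _ ≤ (∑ x, ‖A j x‖ ^ 2) * (q / w0.im) :=
          mul_le_mul_of_nonneg_left h3 (Finset.sum_nonneg fun _ _ => sq_nonneg _)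
      _ = (q / w0.im) * ∑ x, ‖A j x‖ ^ 2 := mul_comm _ _
  calc ∑ j, ‖(A * Gz (Pn n) B w0) j j‖ ^ 2 ≤ ∑ j, (q / w0.im) * ∑ x, ‖A j x‖ ^ 2 :=
        Finset.sum_le_sum fun j _ => key j
    _ = q / w0.im * hs2 A := by
        rw [← Finset.mul_sum]
        rfl

private theorem geb_geom (w : ℂ) (E0 η₁ : ℝ) (hw : 0 < w.im) (hη₁ : 0 < η₁)
    (hE : |w.re - E0| ≤ w.im) :
    ‖w - (⟨E0, 2 * max w.im η₁⟩ : ℂ)‖ ^ 2 ≤ 5 * (max w.im η₁) ^ 2 ∧
      max w.im η₁ ≤ ‖w - (⟨E0, 2 * max w.im η₁⟩ : ℂ)‖ := by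
  set κ : ℝ := max w.im η₁ with hκ
  have h1 : w.im ≤ κ := le_max_left _ _
  have h2 : 0 < κ := lt_of_lt_of_le hw h1
  constructor
  · rw [← Complex.normSq_eq_norm_sq, Complex.normSq_apply]
    simp only [Complex.sub_re, Complex.sub_im]
    have h3 : (w.re - E0) ^ 2 ≤ w.im ^ 2 := sq_le_sq' (by linarith [(abs_le.1 hE).1])
      (by linarith [(abs_le.1 hE).2])
    nlinarith
  · have h3 := Complex.abs_im_le_norm (w - (⟨E0, 2 * κ⟩ : ℂ))
    simp only [Complex.sub_im] at h3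
    have h4 := neg_le_abs (w.im - 2 * κ)
    linarith

private theorem geb_core {n : ℕ} {B : Matrix (Fin n) (Fin n) ℝ} (h : PB (Pn n) B)
    (A : Matrix (Fin n) (Fin n) ℂ) (w : ℂ) (E0 η₁ q a : ℝ) (hw : 0 < w.im) (hη₁ : 0 < η₁)
    (hq : 3 ≤ q) (hE : |w.re - E0| ≤ w.im) (hs : η₁ ≤ q * w.im)
    (hG0 : ∀ x, (Gz (Pn n) B (⟨E0, 2 * max w.im η₁⟩ : ℂ) x x).im ≤ q)
    (hA : hs2 A ≤ a) :
    ‖w - (⟨E0, 2 * max w.im η₁⟩ : ℂ)‖ ^ 2
        * ∑ j, ‖(A * Gz (Pn n) B (⟨E0, 2 * max w.im η₁⟩ : ℂ)) j j‖ ^ 2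
      ≤ q ^ 3 * w.im * a := by
  have hgeo := (geb_geom w E0 η₁ hw hη₁ hE).1
  have hκ0 : 0 < max w.im η₁ := lt_of_lt_of_le hw (le_max_left _ _)
  have hκq : max w.im η₁ ≤ q * w.im := max_le (by nlinarith) hs
  have hr := refd h A (⟨E0, 2 * max w.im η₁⟩ : ℂ) q (by simpa using hκ0) hG0
  have ha : 0 ≤ a := (Finset.sum_nonneg fun _ _ => Finset.sum_nonneg fun _ _ => sq_nonneg _ :
    (0 : ℝ) ≤ hs2 A).trans hA
  set κ : ℝ := max w.im η₁ with hκ
  have hr2 : ∑ j, ‖(A * Gz (Pn n) B (⟨E0, 2 * κ⟩ : ℂ)) j j‖ ^ 2 ≤ q / (2 * κ) * a :=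
    hr.trans (mul_le_mul_of_nonneg_left hA (by positivity))
  calc ‖w - (⟨E0, 2 * κ⟩ : ℂ)‖ ^ 2 * ∑ j, ‖(A * Gz (Pn n) B (⟨E0, 2 * κ⟩ : ℂ)) j j‖ ^ 2
      ≤ (5 * κ ^ 2) * (q / (2 * κ) * a) :=
        mul_le_mul hgeo hr2 (Finset.sum_nonneg fun _ _ => sq_nonneg _) (by positivity)
    _ = 5 / 2 * (q * a) * κ := by
        field_simp
    _ ≤ 5 / 2 * (q * a) * (q * w.im) :=
        mul_le_mul_of_nonneg_left hκq (by positivity)
    _ = 5 / 2 * (q ^ 2 * (w.im * a)) := by ring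
    _ ≤ q * (q ^ 2 * (w.im * a)) :=
        mul_le_mul_of_nonneg_right (by linarith) (by positivity)
    _ = q ^ 3 * w.im * a := by ring

theorem dg_diff {n : ℕ} {B : Matrix (Fin n) (Fin n) ℝ} (h : PB (Pn n) B)
    (H : Matrix (Fin n) (Fin n) ℂ) (w : ℂ) (E0 η₁ q : ℝ) (hw : 0 < w.im) (hη₁ : 0 < η₁)
    (hq : 3 ≤ q) (hE : |w.re - E0| ≤ w.im) (hs : η₁ ≤ q * w.im) (hH : OpLe H q)
    (hG0 : ∀ x, (Gz (Pn n) B (⟨E0, 2 * max w.im η₁⟩ : ℂ) x x).im ≤ q)
    (hhs : hs2 (Gz (Pn n) B w) ≤ n * q ^ 3 / w.im) :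
    ∑ j, ‖(H * (Gz (Pn n) B w - Gz (Pn n) B (⟨E0, 2 * max w.im η₁⟩ : ℂ))) j j‖ ^ 2
      ≤ n * q ^ 8 := by
  have hκ0 : 0 < max w.im η₁ := lt_of_lt_of_le hw (le_max_left _ _)
  have hw0 : (⟨E0, 2 * max w.im η₁⟩ : ℂ).im ≠ 0 := by
    change 2 * max w.im η₁ ≠ 0
    positivity
  have hA : hs2 (H * Gz (Pn n) B w) ≤ q ^ 2 * (n * q ^ 3 / w.im) :=
    (hs2_mul_le H _ q hH).trans (mul_le_mul_of_nonneg_left hhs (sq_nonneg _))
  have hc := geb_core h (H * Gz (Pn n) B w) w E0 η₁ q _ hw hη₁ hq hE hs hG0 hA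
  have e1 : ∀ j, ‖(H * (Gz (Pn n) B w - Gz (Pn n) B (⟨E0, 2 * max w.im η₁⟩ : ℂ))) j j‖ ^ 2
      = ‖w - (⟨E0, 2 * max w.im η₁⟩ : ℂ)‖ ^ 2
        * ‖(H * Gz (Pn n) B w * Gz (Pn n) B (⟨E0, 2 * max w.im η₁⟩ : ℂ)) j j‖ ^ 2 := by
    intro j
    rw [gz_res h w _ hw.ne' hw0, Matrix.mul_smul, Matrix.smul_apply, norm_smul, mul_pow,
      Matrix.mul_assoc]
  rw [Finset.sum_congr rfl fun j _ => e1 j, ← Finset.mul_sum]
  refine hc.trans (le_of_eq ?_)
  field_simp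

private theorem geb_two (x y : ℂ) : ‖x + y‖ ^ 2 ≤ 2 * ‖x‖ ^ 2 + 2 * ‖y‖ ^ 2 := by
  have h1 := norm_add_le x y
  have h2 := norm_nonneg (x + y)
  have h3 : ‖x + y‖ ^ 2 ≤ (‖x‖ + ‖y‖) ^ 2 := pow_le_pow_left₀ h2 h1 2
  nlinarith [sq_nonneg (‖x‖ - ‖y‖)]

theorem dg_one {n : ℕ} {B : Matrix (Fin n) (Fin n) ℝ} (h : PB (Pn n) B)
    (H : Matrix (Fin n) (Fin n) ℂ) (w : ℂ) (E0 η₁ q : ℝ) (hw : 0 < w.im) (hη₁ : 0 < η₁)
    (hq : 3 ≤ q) (hE : |w.re - E0| ≤ w.im) (hs : η₁ ≤ q * w.im) (hH : OpLe H q)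
    (hG0 : ∀ x, (Gz (Pn n) B (⟨E0, 2 * max w.im η₁⟩ : ℂ) x x).im ≤ q)
    (hhs : hs2 (Gz (Pn n) B w) ≤ n * q ^ 3 / w.im)
    (href : ∀ x, ‖(H * Gz (Pn n) B (⟨E0, 2 * max w.im η₁⟩ : ℂ)) x x‖ ≤ q ^ 11) :
    ∑ j, ‖(H * Gz (Pn n) B w) j j‖ ^ 2 ≤ n * q ^ 24 := by
  have hd := dg_diff h H w E0 η₁ q hw hη₁ hq hE hs hH hG0 hhs
  set G0 := Gz (Pn n) B (⟨E0, 2 * max w.im η₁⟩ : ℂ) with hG0def
  have e1 : ∀ j, ‖(H * Gz (Pn n) B w) j j‖ ^ 2
      ≤ 2 * ‖(H * G0) j j‖ ^ 2 + 2 * ‖(H * (Gz (Pn n) B w - G0)) j j‖ ^ 2 := by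
    intro j
    have e2 : (H * Gz (Pn n) B w) j j = (H * G0) j j + (H * (Gz (Pn n) B w - G0)) j j := by
      rw [Matrix.mul_sub, Matrix.sub_apply]
      ring
    rw [e2]
    exact geb_two _ _
  have e3 : ∑ j, ‖(H * G0) j j‖ ^ 2 ≤ n * (q ^ 11) ^ 2 := by
    calc ∑ j, ‖(H * G0) j j‖ ^ 2 ≤ ∑ _j : Fin n, (q ^ 11) ^ 2 :=
          Finset.sum_le_sum fun j _ => pow_le_pow_left₀ (norm_nonneg _) (href j) 2
      _ = n * (q ^ 11) ^ 2 := by simp
  have hq1 : 1 ≤ q := by linarith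
  have e4 : q ^ 8 ≤ q ^ 22 := pow_le_pow_right₀ hq1 (by norm_num)
  have hn : (0 : ℝ) ≤ n := Nat.cast_nonneg n
  calc ∑ j, ‖(H * Gz (Pn n) B w) j j‖ ^ 2
      ≤ ∑ j, (2 * ‖(H * G0) j j‖ ^ 2 + 2 * ‖(H * (Gz (Pn n) B w - G0)) j j‖ ^ 2) :=
        Finset.sum_le_sum fun j _ => e1 j
    _ = 2 * ∑ j, ‖(H * G0) j j‖ ^ 2 + 2 * ∑ j, ‖(H * (Gz (Pn n) B w - G0)) j j‖ ^ 2 := by
        rw [Finset.sum_add_distrib, ← Finset.mul_sum, ← Finset.mul_sum]
    _ ≤ 2 * (n * (q ^ 11) ^ 2) + 2 * (n * q ^ 8) := by linarith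
    _ = n * (2 * q ^ 22 + 2 * q ^ 8) := by ring
    _ ≤ n * (q ^ 2 * q ^ 22) := by
        apply mul_le_mul_of_nonneg_left _ hn
        have e5 : 0 ≤ q ^ 22 := by positivity
        have e6 : 4 ≤ q ^ 2 := by nlinarith
        have e7 := mul_le_mul_of_nonneg_right e6 e5
        linarith
    _ = n * q ^ 24 := by ring

theorem dg_two {n : ℕ} {B : Matrix (Fin n) (Fin n) ℝ} (h : PB (Pn n) B)
    (H : Matrix (Fin n) (Fin n) ℂ) (w : ℂ) (E0 η₁ q : ℝ) (hw : 0 < w.im) (hη₁ : 0 < η₁)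
    (hq : 3 ≤ q) (hE : |w.re - E0| ≤ w.im) (hs : η₁ ≤ q * w.im) (hH : OpLe H q)
    (hG0 : ∀ x, (Gz (Pn n) B (⟨E0, 2 * max w.im η₁⟩ : ℂ) x x).im ≤ q)
    (hhs : hs2 (Gz (Pn n) B w) ≤ n * q ^ 3 / w.im)
    (hhs2 : hs2 (Gz (Pn n) B w ^ 2) ≤ n * q ^ 3 / w.im ^ 3) :
    ∑ j, ‖(H * Gz (Pn n) B w ^ 2) j j‖ ^ 2 ≤ n * q ^ 10 / w.im ^ 2 := by
  have hd := dg_diff h H w E0 η₁ q hw hη₁ hq hE hs hH hG0 hhs
  have hκ0 : 0 < max w.im η₁ := lt_of_lt_of_le hw (le_max_left _ _)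
  have hw0 : (⟨E0, 2 * max w.im η₁⟩ : ℂ).im ≠ 0 := by
    change 2 * max w.im η₁ ≠ 0
    positivity
  have hA : hs2 (H * Gz (Pn n) B w ^ 2) ≤ q ^ 2 * (n * q ^ 3 / w.im ^ 3) :=
    (hs2_mul_le H _ q hH).trans (mul_le_mul_of_nonneg_left hhs2 (sq_nonneg _))
  have hc := geb_core h (H * Gz (Pn n) B w ^ 2) w E0 η₁ q _ hw hη₁ hq hE hs hG0 hA
  have hres := gz_res h w (⟨E0, 2 * max w.im η₁⟩ : ℂ) hw.ne' hw0
  have hgeo := (geb_geom w E0 η₁ hw hη₁ hE).2
  have hκu : w.im ≤ ‖w - (⟨E0, 2 * max w.im η₁⟩ : ℂ)‖ := (le_max_left _ _).trans hgeo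
  set w0 : ℂ := (⟨E0, 2 * max w.im η₁⟩ : ℂ) with hw0def
  set G0 := Gz (Pn n) B w0 with hG0def
  set G := Gz (Pn n) B w with hGdef
  have hnorm : 0 < ‖w - w0‖ := lt_of_lt_of_le hw hκu
  have hne : w - w0 ≠ 0 := norm_pos_iff.1 hnorm
  have hid : G ^ 2 = (w - w0)⁻¹ • (G - G0) + (w - w0) • (G ^ 2 * G0) := by
    have i1 : G * G0 = (w - w0)⁻¹ • (G - G0) := by
      rw [hres, smul_smul, inv_mul_cancel₀ hne, one_smul]
    have i2 : G * (G - G0) = (w - w0) • (G * (G * G0)) := by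
      rw [hres, Matrix.mul_smul]
    rw [← i1, pow_two, Matrix.mul_assoc, ← i2, Matrix.mul_sub]
    abel
  have e1 : ∀ j, ‖(H * G ^ 2) j j‖ ^ 2
      ≤ 2 * (1 / w.im ^ 2 * ‖(H * (G - G0)) j j‖ ^ 2)
        + 2 * (‖w - w0‖ ^ 2 * ‖(H * G ^ 2 * G0) j j‖ ^ 2) := by
    intro j
    have e2 : (H * G ^ 2) j j
        = (w - w0)⁻¹ * (H * (G - G0)) j j + (w - w0) * (H * G ^ 2 * G0) j j := by
      conv_lhs => rw [hid]
      rw [Matrix.mul_add, Matrix.add_apply, Matrix.mul_smul, Matrix.mul_smul, Matrix.smul_apply,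
        Matrix.smul_apply, smul_eq_mul, smul_eq_mul, Matrix.mul_assoc H]
    rw [e2]
    refine (geb_two _ _).trans ?_
    rw [norm_mul, norm_mul, mul_pow, mul_pow, norm_inv, inv_pow]
    have e3 : (‖w - w0‖ ^ 2)⁻¹ ≤ 1 / w.im ^ 2 := by
      rw [one_div]
      exact inv_anti₀ (by positivity) (pow_le_pow_left₀ hw.le hκu 2)
    have e4 := mul_le_mul_of_nonneg_right e3 (sq_nonneg ‖(H * (G - G0)) j j‖)
    linarith
  have hn : (0 : ℝ) ≤ n := Nat.cast_nonneg n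
  have hq1 : 1 ≤ q := by linarith
  calc ∑ j, ‖(H * G ^ 2) j j‖ ^ 2
      ≤ ∑ j, (2 * (1 / w.im ^ 2 * ‖(H * (G - G0)) j j‖ ^ 2)
        + 2 * (‖w - w0‖ ^ 2 * ‖(H * G ^ 2 * G0) j j‖ ^ 2)) :=
        Finset.sum_le_sum fun j _ => e1 j
    _ = 2 * (1 / w.im ^ 2 * ∑ j, ‖(H * (G - G0)) j j‖ ^ 2)
        + 2 * (‖w - w0‖ ^ 2 * ∑ j, ‖(H * G ^ 2 * G0) j j‖ ^ 2) := by
        rw [Finset.sum_add_distrib, ← Finset.mul_sum, ← Finset.mul_sum, ← Finset.mul_sum,
          ← Finset.mul_sum]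
    _ ≤ 2 * (1 / w.im ^ 2 * (n * q ^ 8))
        + 2 * (q ^ 3 * w.im * (q ^ 2 * (n * q ^ 3 / w.im ^ 3))) := by
        have e5 := mul_le_mul_of_nonneg_left hd (by positivity : (0 : ℝ) ≤ 1 / w.im ^ 2)
        linarith
    _ = 4 * (n * q ^ 8 / w.im ^ 2) := by
        field_simp
        ring
    _ ≤ q ^ 2 * (n * q ^ 8 / w.im ^ 2) := by
        apply mul_le_mul_of_nonneg_right _ (by positivity)
        nlinarith
    _ = n * q ^ 10 / w.im ^ 2 := by ring

theorem dg_big {n : ℕ} {B : Matrix (Fin n) (Fin n) ℝ} (h : PB (Pn n) B)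
    (H : Matrix (Fin n) (Fin n) ℂ) (w : ℂ) (q : ℝ) (hw : 1 ≤ w.im) (hH : OpLe H q) :
    ∑ j, ‖(H * Gz (Pn n) B w) j j‖ ^ 2 ≤ n * q ^ 2 ∧
    ∑ j, ‖(H * Gz (Pn n) B w ^ 2) j j‖ ^ 2 ≤ n * q ^ 2 / w.im ^ 2 := by
  have hw0 : 0 < w.im := by linarith
  have hop := op_gz h w hw0.ne'
  rw [abs_of_pos hw0] at hop
  have hq0 : 0 ≤ q := hH.1
  have h1 := opLe_mul H (Gz (Pn n) B w) q (1 / w.im) hH hop
  have h2 := opLe_mul H (Gz (Pn n) B w * Gz (Pn n) B w) q _ hH (opLe_mul _ _ _ _ hop hop)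
  rw [← pow_two] at h2
  have hinv : 1 / w.im ≤ 1 := by
    rw [div_le_one hw0]
    exact hw
  have hinv0 : 0 < 1 / w.im := by positivity
  constructor
  · calc ∑ j, ‖(H * Gz (Pn n) B w) j j‖ ^ 2 ≤ ∑ _j : Fin n, q ^ 2 := by
          refine Finset.sum_le_sum fun j _ => pow_le_pow_left₀ (norm_nonneg _) ?_ 2
          refine (opLe_entry _ _ h1 j j).trans ?_
          calc q * (1 / w.im) ≤ q * 1 := mul_le_mul_of_nonneg_left hinv hq0
            _ = q := mul_one q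
      _ = n * q ^ 2 := by simp
  · calc ∑ j, ‖(H * Gz (Pn n) B w ^ 2) j j‖ ^ 2 ≤ ∑ _j : Fin n, (q / w.im) ^ 2 := by
          refine Finset.sum_le_sum fun j _ => pow_le_pow_left₀ (norm_nonneg _) ?_ 2
          refine (opLe_entry _ _ h2 j j).trans ?_
          calc q * (1 / w.im * (1 / w.im)) ≤ q * (1 / w.im * 1) := by
                apply mul_le_mul_of_nonneg_left _ hq0
                exact mul_le_mul_of_nonneg_left hinv hinv0.le
            _ = q / w.im := by ring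
      _ = n * q ^ 2 / w.im ^ 2 := by
          rw [Finset.sum_const, Finset.card_univ, Fintype.card_fin, nsmul_eq_mul, div_pow]
          ring

end Pool.Agent.ZR.G

end

section

/-!
# ZR/JWegM : Wegner estimate, moments

Take `C` from `qf_inv k` (JGau).  `k = 0`: the integral is `1`, fine.  `N = 0`: `cntI = 0`, fine.
Let `k ≥ 1`, size `N + 1`, notation of JWegP: `A = Dw τ d X`, `m = cntI A x r`,
`m_i = cntI (mino i A) x r ≥ m - 1` (`cntI_mino`), `Im q_i = τ S_i` (`qf_Dw`, `mino_Dw`), `z = x + ir`.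
Pointwise (in `ℝ≥0∞`):
`m^k ≤ (2k+2)^k + (2r)^k (N+1)^(k-1) ∑_i 1{m_i ≥ 2k+1} ((ofReal (τ S_i))⁻¹)^k`.
Indeed if `m ≤ 2k + 1` this is clear; if `m ≥ 2k + 2` then all `m_i ≥ 2k + 1` and by `cntI_le_schur`
`m ≤ 2r ∑_i 1/(r + τ S_i)`, `(∑_{i} a_i)^k ≤ (N+1)^(k-1) ∑ a_i^k` (power mean inequality,
`inner_le_nnorm_mul_nnorm`-free: `Finset.inner...`, e.g. `inv_..`; Mathlib:
`ENNReal.rpow_arith_mean_le_arith_mean_rpow` or `Real.pow_arith_mean_le_arith_mean_pow`), and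
`1/(r + τ S_i) ≤ 1/(τ S_i)`.
Integrate: by `gm_split_lint` and `qf_inv` (for fixed `Y` with `m_i(Y) ≥ 2k + 1`; for the others the
integrand vanishes): `E[1{m_i ≥ 2k+1} (ofReal(τ S_i))⁻¹^k] = (2r/τ)^k E[1{..}(ofReal(2 r S_i))⁻¹^k]
≤ (2r/τ)^k C`.  Total: `(2k+2)^k + (2r)^k (N+1)^(k-1) (N+1) (2r/τ)^k C`.
Finally `∫ m^k` is the (finite, `m ≤ N + 1`) Bochner integral; measurability `measurable_cntI` (Sp4),
`measurable_qf`.
-/


open MeasureTheory ProbabilityTheory Matrix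

namespace Pool.Agent.ZR

open scoped ENNReal

private lemma pow_sum6 {ι : Type*} (s : Finset ι) (W : ℝ≥0∞) (hW : W = s.card) (h0 : s.card ≠ 0)
    (a : ι → ℝ≥0∞) {k : ℕ} (hk : 1 ≤ k) :
    (∑ i ∈ s, a i) ^ k ≤ W ^ k * ∑ i ∈ s, W⁻¹ * a i ^ k := by
  have hW0 : W ≠ 0 := by rw [hW]; exact_mod_cast h0
  have hWt : W ≠ ⊤ := by rw [hW]; exact ENNReal.natCast_ne_top _
  have h1 : ∑ i ∈ s, W⁻¹ = 1 := by
    rw [Finset.sum_const, nsmul_eq_mul, ← hW, ENNReal.mul_inv_cancel hW0 hWt]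
  have h2 := ENNReal.rpow_arith_mean_le_arith_mean_rpow s (fun _ => W⁻¹) a h1
    (p := (k : ℝ)) (by exact_mod_cast hk)
  simp only [ENNReal.rpow_natCast] at h2
  calc (∑ i ∈ s, a i) ^ k = (W * ∑ i ∈ s, W⁻¹ * a i) ^ k := by
        rw [← Finset.mul_sum, ← mul_assoc, ENNReal.mul_inv_cancel hW0 hWt, one_mul]
    _ = W ^ k * (∑ i ∈ s, W⁻¹ * a i) ^ k := mul_pow _ _ _
    _ ≤ _ := mul_le_mul_right h2 _

private noncomputable def fwm (k : ℕ) {N : ℕ} (τ : ℝ) (d : Fin N → ℝ) (x r : ℝ)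
    (p : (Fin N × Fin N → ℝ) × (Fin N → ℝ)) : ℝ≥0∞ :=
  if 2 * k + 1 ≤ cntI (Dw τ d p.1) x r then
    ((ENNReal.ofReal (2 * r * (qf (Dw τ d p.1) p.2 (⟨x, r⟩ : ℂ)).im))⁻¹) ^ k else 0

private lemma meas_fwm (k : ℕ) {N : ℕ} (τ : ℝ) (d : Fin N → ℝ) (x r : ℝ) :
    Measurable (fwm k τ d x r) := by
  have h1 : Measurable fun p : (Fin N × Fin N → ℝ) × (Fin N → ℝ) =>
      cntI (Dw τ d p.1) x r :=
    measurable_cntI (fun p : (Fin N × Fin N → ℝ) × (Fin N → ℝ) => Dw τ d p.1)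
      (fun k l => (measurable_Dw τ d k l).comp measurable_fst) (fun p => Dw_symm τ d p.1) x r
  have h2 : Measurable fun p : (Fin N × Fin N → ℝ) × (Fin N → ℝ) =>
      qf (Dw τ d p.1) p.2 (⟨x, r⟩ : ℂ) :=
    measurable_qf (fun p : (Fin N × Fin N → ℝ) × (Fin N → ℝ) => Dw τ d p.1)
      (fun k l => (measurable_Dw τ d k l).comp measurable_fst) (fun p => p.2)
      (fun k => (measurable_pi_apply k).comp measurable_snd) _
  unfold fwm
  refine Measurable.ite (measurableSet_le measurable_const h1) ?_ measurable_const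
  exact ((measurable_const.mul (Complex.measurable_im.comp h2)).ennreal_ofReal.inv).pow_const k

private lemma lint_fwm (k : ℕ) {C : ℝ}
    (hC : ∀ (N : ℕ) (M : Matrix (Fin N) (Fin N) ℝ), M.IsSymm →
      ∀ x r : ℝ, 0 < r → 2 * k + 1 ≤ cntI M x r →
      ∫⁻ g, ((ENNReal.ofReal (2 * r * (qf M g (⟨x, r⟩ : ℂ)).im))⁻¹) ^ k ∂(gst (Fin N))
        ≤ ENNReal.ofReal C) {N : ℕ} (i : Fin (N + 1)) (τ : ℝ) (d : Fin N → ℝ) (x r : ℝ)
    (hr : 0 < r) :
    ∫⁻ X, fwm k τ d x r (subX i X, rowX i X) ∂(gm (N + 1)) ≤ ENNReal.ofReal C := by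
  rw [gm_split_lint i _ (meas_fwm k τ d x r)]
  have h1 : ∀ Y : Fin N × Fin N → ℝ,
      ∫⁻ g, fwm k τ d x r (Y, g) ∂(gst (Fin N)) ≤ ENNReal.ofReal C := by
    intro Y
    unfold fwm
    by_cases h : 2 * k + 1 ≤ cntI (Dw τ d Y) x r
    · simp only [h, if_true]
      exact hC N _ (Dw_symm τ d Y) x r hr h
    · simp only [h, if_false, lintegral_zero]
      exact zero_le
  calc ∫⁻ Y, ∫⁻ g, fwm k τ d x r (Y, g) ∂(gst (Fin N)) ∂(gm N)
      ≤ ∫⁻ _Y, ENNReal.ofReal C ∂(gm N) := lintegral_mono h1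
    _ = ENNReal.ofReal C := by
        have : IsProbabilityMeasure (gm N) := by unfold gm; infer_instance
        rw [lintegral_const, measure_univ, mul_one]

private lemma term6 {r τ S : ℝ} (hr : 0 < r) (hτ : 0 < τ) (hS : 0 ≤ S) :
    ENNReal.ofReal (2 * r * (1 / (r + τ * S))) ≤
      ENNReal.ofReal (4 * r ^ 2 / τ) * (ENNReal.ofReal (2 * r * S))⁻¹ := by
  rcases hS.eq_or_lt with h | h
  · have e : (2 * r * S : ℝ) = 0 := by rw [← h, mul_zero]
    rw [e, ENNReal.ofReal_zero, ENNReal.inv_zero, ENNReal.mul_top]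
    · exact le_top
    · exact (ENNReal.ofReal_pos.2 (by positivity)).ne'
  · rw [← ENNReal.ofReal_inv_of_pos (by positivity), ← ENNReal.ofReal_mul (by positivity)]
    apply ENNReal.ofReal_le_ofReal
    have e : 4 * r ^ 2 / τ * (2 * r * S)⁻¹ = 2 * r * (1 / (τ * S)) := by
      field_simp
      ring
    rw [e]
    refine mul_le_mul_of_nonneg_left ?_ (by positivity)
    exact one_div_le_one_div_of_le (by positivity) (by linarith)

private lemma pointwise6 (k : ℕ) (hk : 1 ≤ k) {N : ℕ} (τ : ℝ) (hτ : 0 < τ) (d : Fin (N + 1) → ℝ)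
    (x r : ℝ) (hr : 0 < r) (X : Fin (N + 1) × Fin (N + 1) → ℝ) :
    ((cntI (Dw τ d X) x r : ℕ) : ℝ≥0∞) ^ k ≤ (2 * k + 2 : ℝ≥0∞) ^ k +
      ((N + 1 : ℕ) : ℝ≥0∞) ^ k * ∑ i : Fin (N + 1), ((N + 1 : ℕ) : ℝ≥0∞)⁻¹ *
        (ENNReal.ofReal (4 * r ^ 2 / τ) ^ k *
          fwm k τ (fun j => d (i.succAbove j)) x r (subX i X, rowX i X)) := by
  by_cases hm : cntI (Dw τ d X) x r < 2 * k + 2
  · refine le_trans ?_ le_self_add
    refine pow_le_pow_left' ?_ k
    have : ((cntI (Dw τ d X) x r : ℕ) : ℝ≥0∞) ≤ ((2 * k + 2 : ℕ) : ℝ≥0∞) := by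
      exact_mod_cast hm.le
    refine this.trans (le_of_eq ?_)
    push_cast
    rfl
  · refine le_trans ?_ le_add_self
    have hmi : ∀ i : Fin (N + 1),
        2 * k + 1 ≤ cntI (Dw τ (fun j => d (i.succAbove j)) (subX i X)) x r := fun i => by
      have h1 := cntI_mino i (Dw τ d X) (Dw_symm τ d X) x r
      rw [mino_Dw] at h1
      omega
    have hS : ∀ i : Fin (N + 1), 0 ≤ (qf (Dw τ (fun j => d (i.succAbove j)) (subX i X))
        (rowX i X) (⟨x, r⟩ : ℂ)).im := fun i =>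
      qf_im_nonneg _ (Dw_symm _ _ _) _ _ hr
    have h2 : (cntI (Dw τ d X) x r : ℝ) ≤ ∑ i : Fin (N + 1), 2 * r * (1 / (r + τ *
        (qf (Dw τ (fun j => d (i.succAbove j)) (subX i X)) (rowX i X) (⟨x, r⟩ : ℂ)).im)) := by
      rw [← Finset.mul_sum]
      refine (cntI_le_schur (Dw τ d X) (Dw_symm τ d X) x r hr).trans (le_of_eq ?_)
      congr 1
      refine Finset.sum_congr rfl fun i _ => ?_
      rw [qf_Dw i τ hτ.le, Complex.im_ofReal_mul]
    have h3 : ((cntI (Dw τ d X) x r : ℕ) : ℝ≥0∞) ≤ ∑ i : Fin (N + 1),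
        ENNReal.ofReal (4 * r ^ 2 / τ) * (ENNReal.ofReal (2 * r *
          (qf (Dw τ (fun j => d (i.succAbove j)) (subX i X)) (rowX i X) (⟨x, r⟩ : ℂ)).im))⁻¹ := by
      rw [← ENNReal.ofReal_natCast]
      refine (ENNReal.ofReal_le_ofReal h2).trans ?_
      rw [ENNReal.ofReal_sum_of_nonneg]
      · exact Finset.sum_le_sum fun i _ => term6 hr hτ (hS i)
      · intro i _
        have := hS i
        positivity
    refine (pow_le_pow_left' h3 k).trans ?_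
    refine (pow_sum6 Finset.univ ((N + 1 : ℕ) : ℝ≥0∞) (by simp) (by simp) _ hk).trans ?_
    refine mul_le_mul_right (Finset.sum_le_sum fun i _ => ?_) _
    refine mul_le_mul_right (le_of_eq ?_) _
    rw [mul_pow]
    unfold fwm
    simp only [hmi i, if_true]

theorem wegner_moment (k : ℕ) : ∃ C : ℝ, 0 ≤ C ∧ ∀ (N : ℕ) (τ : ℝ) (d : Fin N → ℝ) (x r : ℝ),
    0 < τ → 0 < r → ∫ X, (cntI (Dw τ d X) x r : ℝ) ^ k ∂(gm N)
      ≤ (2 * k + 2 : ℝ) ^ k + C * (4 * N * r ^ 2 / τ) ^ k := by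
  obtain ⟨C, hC0, hC⟩ := qf_inv k
  refine ⟨C, hC0, fun N τ d x r hτ hr => ?_⟩
  have hprob : IsProbabilityMeasure (gm N) := by unfold gm; infer_instance
  rcases Nat.eq_zero_or_pos k with hk | hk
  · subst hk
    simp only [pow_zero, mul_one, integral_const, smul_eq_mul]
    have : (gm N).real Set.univ = 1 := by simp
    rw [this]
    linarith
  cases N with
  | zero =>
    have h0 : ∀ X : Fin 0 × Fin 0 → ℝ, cntI (Dw τ d X) x r = 0 := fun X => by
      rw [cntI_eq _ (Dw_symm τ d X)]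
      simp
    simp only [h0, Nat.cast_zero, zero_pow hk.ne', integral_zero]
    positivity
  | succ N =>
    have hm : Measurable fun X : Fin (N + 1) × Fin (N + 1) → ℝ =>
        ((cntI (Dw τ d X) x r : ℕ) : ℝ) ^ k := by
      have h1 := measurable_cntI (fun X : Fin (N + 1) × Fin (N + 1) → ℝ => Dw τ d X)
        (fun k l => measurable_Dw τ d k l) (fun X => Dw_symm τ d X) x r
      exact (measurable_from_top.comp h1 : Measurable fun X => ((cntI (Dw τ d X) x r : ℕ) : ℝ)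
        ).pow_const k
    rw [integral_eq_lintegral_of_nonneg_ae (Filter.Eventually.of_forall fun X => by positivity)
      hm.aestronglyMeasurable]
    have hR : (0 : ℝ) ≤ (2 * k + 2 : ℝ) ^ k +
        C * (4 * ((N + 1 : ℕ) : ℝ) * r ^ 2 / τ) ^ k := by positivity
    refine ENNReal.toReal_le_of_le_ofReal hR ?_
    set c : ℝ≥0∞ := ENNReal.ofReal (4 * r ^ 2 / τ) with hc
    set W : ℝ≥0∞ := ((N + 1 : ℕ) : ℝ≥0∞) with hW
    have hW0 : W ≠ 0 := by rw [hW]; exact_mod_cast Nat.succ_ne_zero N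
    have hWt : W ≠ ⊤ := ENNReal.natCast_ne_top _
    have hmi : ∀ i : Fin (N + 1), Measurable fun X : Fin (N + 1) × Fin (N + 1) → ℝ =>
        fwm k τ (fun j => d (i.succAbove j)) x r (subX i X, rowX i X) := fun i =>
      (meas_fwm k τ _ x r).comp ((measurable_subX i).prodMk (measurable_rowX i))
    calc ∫⁻ X, ENNReal.ofReal (((cntI (Dw τ d X) x r : ℕ) : ℝ) ^ k) ∂(gm (N + 1))
        = ∫⁻ X, ((cntI (Dw τ d X) x r : ℕ) : ℝ≥0∞) ^ k ∂(gm (N + 1)) := by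
          refine lintegral_congr fun X => ?_
          rw [ENNReal.ofReal_pow (by positivity), ENNReal.ofReal_natCast]
      _ ≤ ∫⁻ X, ((2 * k + 2 : ℝ≥0∞) ^ k + W ^ k * ∑ i : Fin (N + 1), W⁻¹ *
            (c ^ k * fwm k τ (fun j => d (i.succAbove j)) x r (subX i X, rowX i X)))
            ∂(gm (N + 1)) :=
          lintegral_mono fun X => pointwise6 k hk τ hτ d x r hr X
      _ = (2 * k + 2 : ℝ≥0∞) ^ k + W ^ k * ∑ i : Fin (N + 1), W⁻¹ * (c ^ k *
            ∫⁻ X, fwm k τ (fun j => d (i.succAbove j)) x r (subX i X, rowX i X)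
              ∂(gm (N + 1))) := by
          rw [lintegral_add_left measurable_const, lintegral_const, measure_univ, mul_one,
            lintegral_const_mul _ (Finset.measurable_fun_sum _ fun i _ =>
              ((hmi i).const_mul _).const_mul _), lintegral_finsetSum]
          · congr 2
            refine Finset.sum_congr rfl fun i _ => ?_
            rw [lintegral_const_mul _ ((hmi i).const_mul _), lintegral_const_mul _ (hmi i)]
          · intro i _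
            exact ((hmi i).const_mul _).const_mul _
      _ ≤ (2 * k + 2 : ℝ≥0∞) ^ k + W ^ k * ∑ _i : Fin (N + 1), W⁻¹ * (c ^ k *
            ENNReal.ofReal C) := by
          refine add_le_add_right (mul_le_mul_right (Finset.sum_le_sum fun i _ => ?_) _) _
          exact mul_le_mul_right (mul_le_mul_right (lint_fwm k hC i τ _ x r hr) _) _
      _ = (2 * k + 2 : ℝ≥0∞) ^ k + (W * c) ^ k * ENNReal.ofReal C := by
          congr 1
          rw [Finset.sum_const, Finset.card_univ, Fintype.card_fin, nsmul_eq_mul, ← hW,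
            ← mul_assoc W, ENNReal.mul_inv_cancel hW0 hWt, one_mul, mul_pow, mul_assoc]
      _ = ENNReal.ofReal ((2 * k + 2 : ℝ) ^ k +
            C * (4 * ((N + 1 : ℕ) : ℝ) * r ^ 2 / τ) ^ k) := by
          rw [ENNReal.ofReal_add (by positivity) (by positivity), ENNReal.ofReal_pow (by positivity),
            ENNReal.ofReal_mul hC0, ENNReal.ofReal_pow (by positivity), mul_comm (ENNReal.ofReal C)]
          have e1 : ENNReal.ofReal (2 * (k : ℝ) + 2) = 2 * k + 2 := by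
            rw [ENNReal.ofReal_add (by positivity) (by norm_num), ENNReal.ofReal_mul (by norm_num),
              ENNReal.ofReal_natCast]
            norm_num
          have e2 : ENNReal.ofReal (4 * ((N + 1 : ℕ) : ℝ) * r ^ 2 / τ) = W * c := by
            rw [hc, hW, ← ENNReal.ofReal_natCast, ← ENNReal.ofReal_mul (by positivity)]
            congr 1
            ring
          rw [e1, e2]

end Pool.Agent.ZR

end

section

/-!
# ZR, part G: the bundle `Bd` from the good event.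

`bd_conj`: `Bd M G η p → Bd M (G.map conj) η p` for a real matrix `M` (`M = toC A`):
`(M * G.map conj) j j = conj ((M * G) j j)`, `(G.map conj)^2 = (G^2).map conj`, norms of entries
are unchanged, `nu_conj`.

`bd_up` (`0 < w.im`): `E0 = max (-2) (min w.re 2)`; `|w.re - E0| ≤ w.im` because
`|w.re| ≤ 2 + w.im`; `η₁ ≤ q η ≤ q w.im`; `Real.log (1/w.im) ≤ Real.log (1/η) ≤ q`.
`res_shift` gives `GamLe w.re w.im (q³)`, so the fields `rs, en, hs, nu, rv, ev, hv, nv` follow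
from `res_*` with `1/w.im ≤ 1/η`, `q^a ≤ q^25`.
Fields `dd`, `dv`: `toC (Mx σ) = √n • toC (H0 σ)` (`n > 0`), so `‖(M G)_jj‖² = n ‖(H_0 G)_jj‖²`.
If `w.im ≥ 1`: `dg_big`.  If `w.im ≤ 1`: `dg_one`, `dg_two` with `H = toC (H0 σ)`; the hypothesis
`hG0` is `hG` at `u = 2 max w.im η₁ ≥ η₁`; `href`: with `w0 = ⟨E0, 2 max w.im η₁⟩`,
`EnLe (G w0) (q⁵)` by `res_en` (`GamLe E0 w0.im q`, `q ≤ q³`, `log (1/w0.im) ≤ q`),
`‖m(w0)‖ ≤ q⁵`, so `‖(H_0 G(w0))_xx‖ ≤ q + 1 · q⁵ · q⁵ ≤ q¹¹` by `hR`.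

`bd_good`: `w.im > 0`: `bd_up`; `w.im < 0`: apply it to `conj w` and use `res_conj`, `bd_conj`.
-/


open MeasureTheory ProbabilityTheory Matrix

namespace Pool.Agent.ZR.G

private theorem gec_map_sq {n : ℕ} (G : Matrix (Fin n) (Fin n) ℂ) :
    (G.map (starRingEnd ℂ)) ^ 2 = (G ^ 2).map (starRingEnd ℂ) := by
  have h := map_pow (RingHom.mapMatrix (m := Fin n) (starRingEnd ℂ)) G 2
  simpa [RingHom.mapMatrix_apply] using h.symm

private theorem gec_rs {n : ℕ} {G : Matrix (Fin n) (Fin n) ℂ} (h : IsRs G) :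
    IsRs (G.map (starRingEnd ℂ)) := by
  refine ⟨fun i j => ?_, fun i => ?_⟩
  · rw [Matrix.map_apply, Matrix.map_apply, h.sym i j]
  · simp only [Matrix.map_apply]
    rw [← map_sum, h.row i, map_zero]

private theorem gec_en {n : ℕ} {G : Matrix (Fin n) (Fin n) ℂ} {a : ℝ} (h : EnLe G a) :
    EnLe (G.map (starRingEnd ℂ)) a := by
  intro i j
  rw [Matrix.map_apply, RCLike.norm_conj]
  exact h i j

private theorem gec_hs {n : ℕ} (G : Matrix (Fin n) (Fin n) ℂ) :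
    hs2 (G.map (starRingEnd ℂ)) = hs2 G := by
  unfold hs2
  simp only [Matrix.map_apply, RCLike.norm_conj]

private theorem gec_diag {n : ℕ} (A : Matrix (Fin n) (Fin n) ℝ) (G : Matrix (Fin n) (Fin n) ℂ)
    (j : Fin n) : ‖(toC A * G.map (starRingEnd ℂ)) j j‖ = ‖(toC A * G) j j‖ := by
  have h : (toC A * G.map (starRingEnd ℂ)) j j = starRingEnd ℂ ((toC A * G) j j) := by
    rw [Matrix.mul_apply, Matrix.mul_apply, map_sum]
    refine Finset.sum_congr rfl fun x _ => ?_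
    rw [map_mul, Matrix.map_apply]
    congr 1
    exact (Complex.conj_ofReal _).symm
  rw [h, RCLike.norm_conj]

theorem bd_conj {n : ℕ} (A : Matrix (Fin n) (Fin n) ℝ) (G : Matrix (Fin n) (Fin n) ℂ) (η p : ℝ)
    (h : Bd (toC A) G η p) : Bd (toC A) (G.map (starRingEnd ℂ)) η p := by
  refine ⟨gec_rs h.rs, gec_en h.en, ?_, nu_conj _ _ h.nu, ?_, ?_, ?_, ?_, ?_, ?_⟩
  · rw [gec_hs]
    exact h.hs
  · rw [Finset.sum_congr rfl fun j _ => by rw [gec_diag A G j]]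
    exact h.dd
  · rw [gec_map_sq]
    exact gec_rs h.rv
  · rw [gec_map_sq]
    exact gec_en h.ev
  · rw [gec_map_sq, gec_hs]
    exact h.hv
  · rw [gec_map_sq]
    exact nu_conj _ _ h.nv
  · rw [gec_map_sq, Finset.sum_congr rfl fun j _ => by rw [gec_diag A (G ^ 2) j]]
    exact h.dv

private theorem gec_mx {n : ℕ} (hn : 0 < n) (σ : Fin n → Fin n → Bool) :
    toC (Mx σ) = (Real.sqrt (n : ℝ) : ℂ) • toC (H0 σ) := by
  have h1 : Real.sqrt (n : ℝ) ≠ 0 := (Real.sqrt_pos.2 (by exact_mod_cast hn)).ne'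
  ext i j
  simp only [toC, H0, Matrix.map_apply, Matrix.smul_apply, smul_eq_mul]
  rw [← Complex.ofReal_mul]
  congr 1
  field_simp

private theorem gec_mxd {n : ℕ} (hn : 0 < n) (σ : Fin n → Fin n → Bool)
    (G : Matrix (Fin n) (Fin n) ℂ) :
    ∑ j, ‖(toC (Mx σ) * G) j j‖ ^ 2 = n * ∑ j, ‖(toC (H0 σ) * G) j j‖ ^ 2 := by
  rw [Finset.mul_sum]
  refine Finset.sum_congr rfl fun j _ => ?_
  rw [gec_mx hn, Matrix.smul_mul, Matrix.smul_apply, norm_smul, mul_pow, Complex.norm_real,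
    Real.norm_of_nonneg (Real.sqrt_nonneg _), Real.sq_sqrt (Nat.cast_nonneg _)]

private theorem gec_clamp {r v : ℝ} (hv : 0 < v) (h : |r| ≤ 2 + v) :
    |r - max (-2) (min r 2)| ≤ v := by
  rw [abs_le] at h ⊢
  rcases le_total r 2 with h1 | h1
  · rw [min_eq_left h1]
    rcases le_total (-2) r with h2 | h2
    · rw [max_eq_right h2]
      constructor <;> linarith
    · rw [max_eq_left h2]
      constructor <;> linarith
  · rw [min_eq_right h1, max_eq_right (by norm_num)]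
    constructor <;> linarith

private theorem gec_log {η v q : ℝ} (hη : 0 < η) (hv : η ≤ v) (h : Real.log (1 / η) ≤ q) :
    Real.log (1 / v) ≤ q := by
  have hv0 : 0 < v := lt_of_lt_of_le hη hv
  refine le_trans (Real.log_le_log (by positivity) ?_) h
  exact one_div_le_one_div_of_le hη hv

theorem bd_up {n : ℕ} (hn : 0 < n) (α β : ℝ) (hα : 0 ≤ α) (hα1 : α ≤ 1)
    {σ : Fin n → Fin n → Bool} (hσ : σ ∈ Sn n) (X : Fin n × Fin n → ℝ) (w : ℂ) (η η₁ q : ℝ)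
    (hη : 0 < η) (hw0 : 0 < w.im) (hηw : η ≤ w.im) (hre : |w.re| ≤ 2 + w.im) (hη₁ : 0 < η₁)
    (hq : 3 ≤ q) (hs : η₁ ≤ q * η) (hlog : Real.log (1 / η) ≤ q) (hH : OpLe (toC (H0 σ)) q)
    (hG : GamLe (Pn n) (Bm α β σ X) (max (-2) (min w.re 2)) η₁ q)
    (hR : w.im ≤ 1 → ∀ x y, ‖(toC (H0 σ) * Gz (Pn n) (Bm α β σ X)
        (⟨max (-2) (min w.re 2), 2 * max w.im η₁⟩ : ℂ)) x y
      + (α : ℂ) * mz (Pn n) (Bm α β σ X) (⟨max (-2) (min w.re 2), 2 * max w.im η₁⟩ : ℂ)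
        * Gz (Pn n) (Bm α β σ X) (⟨max (-2) (min w.re 2), 2 * max w.im η₁⟩ : ℂ) x y‖ ≤ q) :
    Bd (toC (Mx σ)) (Gz (Pn n) (Bm α β σ X) w) η (q ^ 25) := by
  have hPB := pb_Bm α β σ hσ X
  set B := Bm α β σ X with hB
  set E0 : ℝ := max (-2) (min w.re 2) with hE0
  have hE : |w.re - E0| ≤ w.im := gec_clamp hw0 hre
  have hq0 : 0 < q := by linarith
  have hq1 : 1 ≤ q := by linarith
  have hs' : η₁ ≤ q * w.im := hs.trans (mul_le_mul_of_nonneg_left hηw hq0.le)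
  have hG3 := res_shift hPB w E0 η₁ q hw0 hη₁ hq hE hs' hG
  have hlw : Real.log (1 / w.im) ≤ q := gec_log hη hηw hlog
  have hn0 : (0 : ℝ) ≤ n := Nat.cast_nonneg n
  have hp : ∀ a : ℕ, a ≤ 25 → q ^ a ≤ q ^ 25 := fun a ha => pow_le_pow_right₀ hq1 ha
  have hhs := res_hs hPB w q hw0 hG3
  have hhs2 := res_hs_sq hPB w q hw0 hG3
  have hinv : 1 / w.im ≤ 1 / η := one_div_le_one_div_of_le hη hηw
  -- the two diagonal sums
  have hdd : ∑ j, ‖(toC (H0 σ) * Gz (Pn n) B w) j j‖ ^ 2 ≤ n * q ^ 25 ∧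
      ∑ j, ‖(toC (H0 σ) * Gz (Pn n) B w ^ 2) j j‖ ^ 2 ≤ n * q ^ 25 / η ^ 2 := by
    rcases le_total 1 w.im with h1 | h1
    · obtain ⟨a1, a2⟩ := dg_big hPB (toC (H0 σ)) w q h1 hH
      refine ⟨a1.trans (mul_le_mul_of_nonneg_left (hp 2 (by norm_num)) hn0), a2.trans ?_⟩
      refine div_le_div₀ (by positivity) (mul_le_mul_of_nonneg_left (hp 2 (by norm_num)) hn0)
        (by positivity) (pow_le_pow_left₀ hη.le hηw 2)
    · have hκ : 0 < max w.im η₁ := lt_of_lt_of_le hw0 (le_max_left _ _)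
      set w0 : ℂ := (⟨E0, 2 * max w.im η₁⟩ : ℂ) with hw0d
      have hw0im : w0.im = 2 * max w.im η₁ := rfl
      have hw0re : w0.re = E0 := rfl
      have hw0pos : 0 < w0.im := by rw [hw0im]; positivity
      have hge : η₁ ≤ 2 * max w.im η₁ := by
        have := le_max_right w.im η₁
        linarith
      have hge2 : w.im ≤ 2 * max w.im η₁ := by
        have := le_max_left w.im η₁
        linarith
      have hG0 : ∀ x, (Gz (Pn n) B w0 x x).im ≤ q := fun x => hG _ hge x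
      have hG03 : GamLe (Pn n) B w0.re w0.im (q ^ 3) := by
        intro u hu x
        rw [hw0im] at hu
        refine (hG u (hge.trans hu) x).trans ?_
        calc q = q ^ 1 := (pow_one q).symm
          _ ≤ q ^ 3 := pow_le_pow_right₀ hq1 (by norm_num)
      have hl0 : Real.log (1 / w0.im) ≤ q := gec_log hη (hηw.trans (by rw [hw0im]; exact hge2)) hlog
      have hen := res_en hPB w0 q hw0pos hq hl0 hG03
      have hm : ‖mz (Pn n) B w0‖ ≤ q ^ 5 := by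
        unfold mz
        rw [norm_mul]
        have e1 : ‖(Gz (Pn n) B w0).trace‖ ≤ n * q ^ 5 := by
          refine (norm_sum_le _ _).trans ?_
          calc ∑ i, ‖(Gz (Pn n) B w0).diag i‖ ≤ ∑ _i : Fin n, q ^ 5 :=
                Finset.sum_le_sum fun i _ => hen i i
            _ = n * q ^ 5 := by simp
        have e2 : ‖(1 / (n : ℂ))‖ = 1 / (n : ℝ) := by
          rw [norm_div, norm_one, Complex.norm_natCast]
        rw [e2]
        have hn' : (0 : ℝ) < n := by exact_mod_cast hn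
        rw [one_div, inv_mul_le_iff₀ hn']
        exact e1
      have href : ∀ x, ‖(toC (H0 σ) * Gz (Pn n) B w0) x x‖ ≤ q ^ 11 := by
        intro x
        have e1 := hR h1 x x
        have e2 : ‖(α : ℂ) * mz (Pn n) B w0 * Gz (Pn n) B w0 x x‖ ≤ q ^ 10 := by
          rw [norm_mul, norm_mul, Complex.norm_real, Real.norm_of_nonneg hα]
          calc α * ‖mz (Pn n) B w0‖ * ‖Gz (Pn n) B w0 x x‖ ≤ 1 * q ^ 5 * q ^ 5 := by
                refine mul_le_mul (mul_le_mul hα1 hm (norm_nonneg _) zero_le_one) (hen x x)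
                  (norm_nonneg _) (by positivity)
            _ = q ^ 10 := by ring
        have e3 : ‖(toC (H0 σ) * Gz (Pn n) B w0) x x‖ ≤ q + q ^ 10 := by
          have e4 : (toC (H0 σ) * Gz (Pn n) B w0) x x
              = ((toC (H0 σ) * Gz (Pn n) B w0) x x
                + (α : ℂ) * mz (Pn n) B w0 * Gz (Pn n) B w0 x x)
                - (α : ℂ) * mz (Pn n) B w0 * Gz (Pn n) B w0 x x := by ring
          rw [e4]
          exact (norm_sub_le _ _).trans (add_le_add e1 e2)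
        refine e3.trans ?_
        have e5 : q ≤ q ^ 10 := by
          calc q = q ^ 1 := (pow_one q).symm
            _ ≤ q ^ 10 := pow_le_pow_right₀ hq1 (by norm_num)
        have e6 : 0 < q ^ 10 := by positivity
        calc q + q ^ 10 ≤ q ^ 10 + q ^ 10 := by linarith
          _ = 2 * q ^ 10 := by ring
          _ ≤ q * q ^ 10 := mul_le_mul_of_nonneg_right (by linarith) e6.le
          _ = q ^ 11 := by ring
      have b1 := dg_one hPB (toC (H0 σ)) w E0 η₁ q hw0 hη₁ hq hE hs' hH hG0 hhs href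
      have b2 := dg_two hPB (toC (H0 σ)) w E0 η₁ q hw0 hη₁ hq hE hs' hH hG0 hhs hhs2
      refine ⟨b1.trans (mul_le_mul_of_nonneg_left (hp 24 (by norm_num)) hn0), b2.trans ?_⟩
      refine div_le_div₀ (by positivity) (mul_le_mul_of_nonneg_left (hp 10 (by norm_num)) hn0)
        (by positivity) (pow_le_pow_left₀ hη.le hηw 2)
  have hrs := res_rs hPB w hw0.ne'
  refine ⟨hrs.1, ?_, ?_, ?_, ?_, hrs.2, ?_, ?_, ?_, ?_⟩
  · intro i j
    exact (res_en hPB w q hw0 hq hlw hG3 i j).trans (hp 5 (by norm_num))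
  · refine hhs.trans ?_
    exact div_le_div₀ (by positivity) (mul_le_mul_of_nonneg_left (hp 3 (by norm_num)) hn0) hη hηw
  · exact nu_mono (res_nu hPB w q hw0 hq hlw hG3)
      (mul_le_mul_of_nonneg_left (hp 7 (by norm_num)) hn0)
  · rw [gec_mxd hn]
    calc (n : ℝ) * ∑ j, ‖(toC (H0 σ) * Gz (Pn n) B w) j j‖ ^ 2 ≤ n * (n * q ^ 25) :=
          mul_le_mul_of_nonneg_left hdd.1 hn0
      _ = (n : ℝ) ^ 2 * q ^ 25 := by ring
  · intro i j
    refine (res_ev hPB w q hw0 hq hlw hG3 i j).trans ?_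
    exact div_le_div₀ (by positivity) (hp 5 (by norm_num)) hη hηw
  · refine hhs2.trans ?_
    exact div_le_div₀ (by positivity) (mul_le_mul_of_nonneg_left (hp 3 (by norm_num)) hn0)
      (by positivity) (pow_le_pow_left₀ hη.le hηw 3)
  · refine nu_mono (res_nu_sq hPB w q hw0 hq hG3) ?_
    exact div_le_div₀ (by positivity) (mul_le_mul_of_nonneg_left (hp 3 (by norm_num)) hn0) hη hηw
  · rw [gec_mxd hn]
    calc (n : ℝ) * ∑ j, ‖(toC (H0 σ) * Gz (Pn n) B w ^ 2) j j‖ ^ 2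
        ≤ n * (n * q ^ 25 / η ^ 2) := mul_le_mul_of_nonneg_left hdd.2 hn0
      _ = (n : ℝ) ^ 2 * q ^ 25 / η ^ 2 := by ring

theorem bd_good {n : ℕ} (hn : 0 < n) (α β : ℝ) (hα : 0 ≤ α) (hα1 : α ≤ 1)
    {σ : Fin n → Fin n → Bool} (hσ : σ ∈ Sn n) (X : Fin n × Fin n → ℝ) (w : ℂ) (η η₁ q : ℝ)
    (hη : 0 < η) (hηw : η ≤ |w.im|) (hre : |w.re| ≤ 2 + |w.im|) (hη₁ : 0 < η₁)
    (hq : 3 ≤ q) (hs : η₁ ≤ q * η) (hlog : Real.log (1 / η) ≤ q) (hH : OpLe (toC (H0 σ)) q)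
    (hG : GamLe (Pn n) (Bm α β σ X) (max (-2) (min w.re 2)) η₁ q)
    (hR : |w.im| ≤ 1 → ∀ x y, ‖(toC (H0 σ) * Gz (Pn n) (Bm α β σ X)
        (⟨max (-2) (min w.re 2), 2 * max |w.im| η₁⟩ : ℂ)) x y
      + (α : ℂ) * mz (Pn n) (Bm α β σ X) (⟨max (-2) (min w.re 2), 2 * max |w.im| η₁⟩ : ℂ)
        * Gz (Pn n) (Bm α β σ X) (⟨max (-2) (min w.re 2), 2 * max |w.im| η₁⟩ : ℂ) x y‖ ≤ q) :
    Bd (toC (Mx σ)) (Gz (Pn n) (Bm α β σ X) w) η (q ^ 25) := by
  have hpos : 0 < |w.im| := lt_of_lt_of_le hη hηw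
  have hne : w.im ≠ 0 := abs_pos.1 hpos
  rcases lt_or_gt_of_ne hne with h1 | h1
  · have habs : |w.im| = -w.im := abs_of_neg h1
    have him : (starRingEnd ℂ w).im = |w.im| := by
      rw [habs, Complex.conj_im]
    have hree : (starRingEnd ℂ w).re = w.re := Complex.conj_re w
    have hb : Bd (toC (Mx σ)) (Gz (Pn n) (Bm α β σ X) (starRingEnd ℂ w)) η (q ^ 25) := by
      refine bd_up hn α β hα hα1 hσ X (starRingEnd ℂ w) η η₁ q hη ?_ ?_ ?_ hη₁ hq hs hlog hH ?_ ?_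
      · rw [him]; exact hpos
      · rw [him]; exact hηw
      · rw [him, hree]; exact hre
      · rw [hree]; exact hG
      · rw [him, hree]; exact hR
    have hc := bd_conj (Mx σ) _ _ _ hb
    have he : (Gz (Pn n) (Bm α β σ X) (starRingEnd ℂ w)).map (starRingEnd ℂ)
        = Gz (Pn n) (Bm α β σ X) w := by
      rw [(res_conj (pb_Bm α β σ hσ X) w hne).1]
      ext i j
      simp only [Matrix.map_apply, Complex.conj_conj]
    rw [he] at hc
    exact hc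
  · have habs : |w.im| = w.im := abs_of_pos h1
    rw [habs] at hηw hre hR
    exact bd_up hn α β hα hα1 hσ X w η η₁ q hη h1 hηw hre hη₁ hq hs hlog hH hG hR

end Pool.Agent.ZR.G

end

section

/-!
# ZR, part G: the switching identities for one tuple of indices, with remainder.
-/


open MeasureTheory ProbabilityTheory Matrix
open scoped Classical

namespace Pool.Agent.ZR.G

/-- `G_xy Θ` as a function of the pattern -/
noncomputable def fJ {n K : ℕ} (α β : ℝ) (zl cl : Fin K → ℂ) (z : ℂ) (X : Fin n × Fin n → ℝ)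
    (x y : Fin n) (σ : Fin n → Fin n → Bool) : ℂ :=
  Gz (Pn n) (Bm α β σ X) z x y * Th (Pn n) (Bm α β σ X) zl cl

/-- the bracket of the derivative for the matrix `B` -/
noncomputable def dB {n K : ℕ} (zl cl : Fin K → ℂ) (z : ℂ) (B : Matrix (Fin n) (Fin n) ℝ)
    (i j k l : Fin n) : ℂ :=
  xiG (Gz (Pn n) B z) i j k l * Th (Pn n) B zl cl
    + (1 / (n : ℂ)) * ∑ q, (Gz (Pn n) B z j i * xiV (Gz (Pn n) B (zl q) ^ 2) i j k l)
        * ThE (Pn n) B zl cl q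

noncomputable def DJ {n K : ℕ} (α β : ℝ) (zl cl : Fin K → ℂ) (z : ℂ) (X : Fin n × Fin n → ℝ)
    (i j k l : Fin n) (σ : Fin n → Fin n → Bool) : ℂ :=
  -(((α / Real.sqrt n : ℝ) : ℂ) * dB zl cl z (Bm α β σ X) i j k l)

variable {n K : ℕ} {α β η : ℝ} {zl cl : Fin K → ℂ} {z : ℂ}

theorem g2_symm {B : Matrix (Fin n) (Fin n) ℝ} (hB : PB (Pn n) B) {w : ℂ} (hw : w.im ≠ 0)
    (x y : Fin n) : (Gz (Pn n) B w ^ 2) x y = (Gz (Pn n) B w ^ 2) y x := by
  have h := gz_symm hB w hw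
  have h2 : (Gz (Pn n) B w ^ 2)ᵀ = Gz (Pn n) B w ^ 2 := by
    rw [Matrix.transpose_pow, h]
  have h3 := congrFun (congrFun h2 y) x
  rw [Matrix.transpose_apply] at h3
  exact h3

theorem fJ_crude (hp : Par n α β η zl cl z) (X : Fin n × Fin n → ℝ) (x y : Fin n)
    {σ : Fin n → Fin n → Bool} (hσ : σ ∈ Sn n) :
    ‖fJ α β zl cl z X x y σ‖ ≤ (n : ℝ) ^ (4 * K + 2) := by
  have hB := pb_Bm α β σ hσ X
  unfold fJ
  rw [norm_mul]
  calc _ ≤ (n : ℝ) ^ 2 * (n : ℝ) ^ (4 * K) :=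
        mul_le_mul (g_crude hp hB hp.az.1 x y) (Th_crude hp hB) (norm_nonneg _) (by positivity)
    _ = (n : ℝ) ^ (4 * K + 2) := by ring

theorem xiG_crude (hp : Par n α β η zl cl z) {B : Matrix (Fin n) (Fin n) ℝ} (hB : PB (Pn n) B)
    (i j k l : Fin n) : ‖xiG (Gz (Pn n) B z) i j k l‖ ≤ 8 * (n : ℝ) ^ 4 := by
  have hg := fun x y => g_crude hp hB hp.az.1 x y
  have hq : ∀ p q : Fin n, ‖gq (Gz (Pn n) B z) j i p q‖ ≤ 2 * (n : ℝ) ^ 4 := by
    intro p q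
    unfold gq
    refine (norm_add_le _ _).trans ?_
    rw [norm_mul, norm_mul]
    have h1 := mul_le_mul (hg j p) (hg q i) (norm_nonneg _) (by positivity)
    have h2 := mul_le_mul (hg j q) (hg p i) (norm_nonneg _) (by positivity)
    calc _ ≤ (n : ℝ) ^ 2 * (n : ℝ) ^ 2 + (n : ℝ) ^ 2 * (n : ℝ) ^ 2 := add_le_add h1 h2
      _ = 2 * (n : ℝ) ^ 4 := by ring
  unfold xiG
  refine (norm_sub_le _ _).trans ?_
  have h1 := (norm_add_le (gq (Gz (Pn n) B z) j i i j - gq (Gz (Pn n) B z) j i j k)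
    (gq (Gz (Pn n) B z) j i k l))
  have h2 := norm_sub_le (gq (Gz (Pn n) B z) j i i j) (gq (Gz (Pn n) B z) j i j k)
  have := hq i j
  have := hq j k
  have := hq k l
  have := hq l i
  linarith

theorem xiV_crude (hp : Par n α β η zl cl z) {B : Matrix (Fin n) (Fin n) ℝ} (hB : PB (Pn n) B)
    (q : Fin K) (i j k l : Fin n) :
    ‖xiV (Gz (Pn n) B (zl q) ^ 2) i j k l‖ ≤ 8 * (n : ℝ) ^ 5 := by
  have hg := fun x y => g2_crude hp hB (hp.al q).1 x y
  unfold xiV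
  rw [norm_mul]
  have h2 : ‖(2 : ℂ)‖ = 2 := by norm_num
  rw [h2]
  have h3 := norm_sub_le ((Gz (Pn n) B (zl q) ^ 2) i j - (Gz (Pn n) B (zl q) ^ 2) j k
    + (Gz (Pn n) B (zl q) ^ 2) k l) ((Gz (Pn n) B (zl q) ^ 2) l i)
  have h4 := norm_add_le ((Gz (Pn n) B (zl q) ^ 2) i j - (Gz (Pn n) B (zl q) ^ 2) j k)
    ((Gz (Pn n) B (zl q) ^ 2) k l)
  have h5 := norm_sub_le ((Gz (Pn n) B (zl q) ^ 2) i j) ((Gz (Pn n) B (zl q) ^ 2) j k)
  have := hg i j
  have := hg j k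
  have := hg k l
  have := hg l i
  linarith

theorem dB_crude (hp : Par n α β η zl cl z) {B : Matrix (Fin n) (Fin n) ℝ} (hB : PB (Pn n) B)
    (i j k l : Fin n) : ‖dB zl cl z B i j k l‖ ≤ 8 * (K + 1) * (n : ℝ) ^ (4 * K + 7) := by
  have hn := par_n hp
  have hn1 : (1 : ℝ) ≤ n := by linarith
  unfold dB
  refine (norm_add_le _ _).trans ?_
  have h1 : ‖xiG (Gz (Pn n) B z) i j k l * Th (Pn n) B zl cl‖ ≤ 8 * (n : ℝ) ^ (4 * K + 7) := by
    rw [norm_mul]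
    calc _ ≤ 8 * (n : ℝ) ^ 4 * (n : ℝ) ^ (4 * K) :=
          mul_le_mul (xiG_crude hp hB i j k l) (Th_crude hp hB) (norm_nonneg _) (by positivity)
      _ = 8 * (n : ℝ) ^ (4 * K + 4) := by ring
      _ ≤ 8 * (n : ℝ) ^ (4 * K + 7) :=
          mul_le_mul_of_nonneg_left (pow_le_pow_right₀ hn1 (by omega)) (by norm_num)
  have h2 : ‖(1 / (n : ℂ)) * ∑ q, (Gz (Pn n) B z j i * xiV (Gz (Pn n) B (zl q) ^ 2) i j k l)
        * ThE (Pn n) B zl cl q‖ ≤ K * (8 * (n : ℝ) ^ (4 * K + 7)) := by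
    rw [norm_mul]
    have h3 : ‖(1 / (n : ℂ))‖ ≤ 1 := by
      rw [norm_div, norm_one, Complex.norm_natCast]
      rw [div_le_one (by linarith)]
      exact hn1
    have h4 : ‖∑ q, (Gz (Pn n) B z j i * xiV (Gz (Pn n) B (zl q) ^ 2) i j k l)
        * ThE (Pn n) B zl cl q‖ ≤ K * (8 * (n : ℝ) ^ (4 * K + 7)) := by
      refine (norm_sum_le _ _).trans ?_
      have h5 : ∀ q ∈ (Finset.univ : Finset (Fin K)),
          ‖(Gz (Pn n) B z j i * xiV (Gz (Pn n) B (zl q) ^ 2) i j k l)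
            * ThE (Pn n) B zl cl q‖ ≤ 8 * (n : ℝ) ^ (4 * K + 7) := by
        intro q _
        rw [norm_mul, norm_mul]
        calc _ ≤ ((n : ℝ) ^ 2 * (8 * (n : ℝ) ^ 5)) * (n : ℝ) ^ (4 * K) :=
              mul_le_mul (mul_le_mul (g_crude hp hB hp.az.1 j i) (xiV_crude hp hB q i j k l)
                (norm_nonneg _) (by positivity)) (ThE_crude hp hB q) (norm_nonneg _)
                (by positivity)
          _ = 8 * (n : ℝ) ^ (4 * K + 7) := by ring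
      refine (Finset.sum_le_card_nsmul _ _ _ h5).trans ?_
      rw [Finset.card_univ, Fintype.card_fin, nsmul_eq_mul]
    calc _ ≤ 1 * (K * (8 * (n : ℝ) ^ (4 * K + 7))) :=
          mul_le_mul h3 h4 (norm_nonneg _) (by norm_num)
      _ = _ := one_mul _
  calc _ ≤ 8 * (n : ℝ) ^ (4 * K + 7) + K * (8 * (n : ℝ) ^ (4 * K + 7)) := add_le_add h1 h2
    _ = 8 * (K + 1) * (n : ℝ) ^ (4 * K + 7) := by ring

theorem al_sqrt (hp : Par n α β η zl cl z) :
    0 ≤ α / Real.sqrt n ∧ α / Real.sqrt n ≤ 1 := by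
  have hn := par_n hp
  have h1 : 1 ≤ Real.sqrt n := by
    rw [Real.one_le_sqrt]
    linarith
  refine ⟨div_nonneg hp.a0 (Real.sqrt_nonneg _), ?_⟩
  rw [div_le_one (by linarith)]
  linarith [par_a1 hp]

theorem DJ_crude (hp : Par n α β η zl cl z) (X : Fin n × Fin n → ℝ) (i j k l : Fin n)
    {σ : Fin n → Fin n → Bool} (hσ : σ ∈ Sn n) :
    ‖DJ α β zl cl z X i j k l σ‖ ≤ 8 * (K + 1) * (n : ℝ) ^ (4 * K + 7) := by
  have hB := pb_Bm α β σ hσ X
  obtain ⟨ha0, ha1⟩ := al_sqrt hp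
  unfold DJ
  rw [norm_neg, norm_mul, Complex.norm_real, Real.norm_of_nonneg ha0]
  calc _ ≤ 1 * (8 * (K + 1) * (n : ℝ) ^ (4 * K + 7)) :=
        mul_le_mul ha1 (dB_crude hp hB i j k l) (norm_nonneg _) (by norm_num)
    _ = _ := one_mul _

/-- the derivative formula along a multiple of `Xi` -/
theorem jet_form {B : Matrix (Fin n) (Fin n) ℝ} (hB : PB (Pn n) B)
    (hzl : ∀ q, (zl q).im ≠ 0) (c : ℝ) (i j k l : Fin n) :
    ((Gz (Pn n) B z * toC (c • Xi i j k l) * Gz (Pn n) B z) j i) * Th (Pn n) B zl cl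
      + Gz (Pn n) B z j i * ∑ q, (1 / (n : ℂ)) * (Gz (Pn n) B (zl q) ^ 2 * toC (c • Xi i j k l)).trace
          * ThE (Pn n) B zl cl q = (c : ℂ) * dB zl cl z B i j k l := by
  have h1 : (Gz (Pn n) B z * toC (c • Xi i j k l) * Gz (Pn n) B z) j i
      = (c : ℂ) * xiG (Gz (Pn n) B z) i j k l := by
    rw [toC_sm, Matrix.mul_smul, Matrix.smul_mul, Matrix.smul_apply, xiG_eq, smul_eq_mul]
  have h2 : ∀ q, (Gz (Pn n) B (zl q) ^ 2 * toC (c • Xi i j k l)).trace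
      = (c : ℂ) * xiV (Gz (Pn n) B (zl q) ^ 2) i j k l := by
    intro q
    rw [toC_sm, Matrix.mul_smul, Matrix.trace_smul,
      xiV_eq _ (fun x y => g2_symm hB (hzl q) x y), smul_eq_mul]
  simp only [h1, h2, dB]
  rw [mul_add, Finset.mul_sum, Finset.mul_sum, Finset.mul_sum]
  congr 1
  · ring
  · refine Finset.sum_congr rfl fun q _ => ?_
    ring

/-- remainder, good case -/
theorem rem_good (hp : Par n α β η zl cl z) {Γ : ℝ} (hΓ0 : 0 ≤ Γ) (hΓ : 32 * Γ ≤ Real.sqrt n)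
    (X : Fin n × Fin n → ℝ) {i j k l : Fin n} (h1 : i ≠ j) (h2 : i ≠ k) (h3 : i ≠ l) (h4 : j ≠ k)
    (h5 : j ≠ l) (h6 : k ≠ l) {σ : Fin n → Fin n → Bool} (hσ : σ ∈ Sn n)
    (ha : Alt4 i j k l σ) (hE : EnAll α β Γ zl z σ X) :
    ‖fJ α β zl cl z X j i (flipP (cyc i j k l) σ) - fJ α β zl cl z X j i σ
      + (Mx σ i j : ℂ) * (DJ α β zl cl z X i j k l σ
        + DJ α β zl cl z X i j k l (flipP (cyc i j k l) σ))‖
      ≤ 6 * (2 * Γ * Xw (Pn n) (Bm α β σ X) zl cl (1 / (n * η)))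
        * (2 ^ (K + 1) * (2 * Γ * (16 / Real.sqrt n))) ^ 3 := by
  have hn := par_n hp
  have hn0 : 0 < n := by have := hp.n2; omega
  have hsq : 0 < Real.sqrt n := Real.sqrt_pos.2 (by exact_mod_cast hn0)
  have hB := pb_Bm α β σ hσ X
  obtain ⟨hσ', -⟩ := flip_mem h1 h2 h3 h4 h5 h6 hσ ha
  have hB' := pb_Bm α β _ hσ' X
  have hsw := Bm_switch h1 h2 h3 h4 h5 h6 α β X hσ ha
  have hY := pb_Xi (-(2 * α * Mx σ i j / Real.sqrt n)) i j k l
  have hsp := sp1_Y hn0 hp.a0 (par_a1 hp) (abs_Mx σ i j) (Xi i j k l) (sp1_Xi i j k l)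
  have hsp0 := sp1_nonneg ((-(2 * α * Mx σ i j / Real.sqrt n)) • Xi i j k l)
  have hs : sp1 ((-(2 * α * Mx σ i j / Real.sqrt n)) • Xi i j k l) * Γ ≤ 1 / 2 := by
    calc _ ≤ 16 / Real.sqrt n * Γ := mul_le_mul_of_nonneg_right hsp hΓ0
      _ ≤ 1 / 2 := by
        rw [div_mul_eq_mul_div, div_le_div_iff₀ hsq (by norm_num)]
        linarith
  obtain ⟨H, hH, h0, hd⟩ := jets_f hB hY z zl cl η hp.e0 hp.az.1 (fun q => (hp.al q).1) hn0 Γ hΓ0
    hE.1 hE.2 hs j i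
  have hzl : ∀ q, (zl q).im ≠ 0 := fun q => im_ne hp (hp.al q).1
  set c : ℝ := -(2 * α * Mx σ i j / Real.sqrt n) with hc
  have e00 : H 0 0 = fJ α β zl cl z X j i σ := by
    rw [h0 0, zero_smul, add_zero]
    rfl
  have e01 : H 0 1 = fJ α β zl cl z X j i (flipP (cyc i j k l) σ) := by
    rw [h0 1, ← hsw]
    rfl
  have e10 : H 1 0 = -((c : ℂ) * dB zl cl z (Bm α β σ X) i j k l) := by
    rw [hd 0, zero_smul, add_zero, ← jet_form hB hzl c i j k l]
    rfl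
  have e11 : H 1 1 = -((c : ℂ) * dB zl cl z (Bm α β (flipP (cyc i j k l) σ) X) i j k l) := by
    rw [hd 1, ← hsw, ← jet_form hB' hzl c i j k l]
    rfl
  have hkey : fJ α β zl cl z X j i (flipP (cyc i j k l) σ) - fJ α β zl cl z X j i σ
      + (Mx σ i j : ℂ) * (DJ α β zl cl z X i j k l σ
        + DJ α β zl cl z X i j k l (flipP (cyc i j k l) σ))
      = H 0 1 - H 0 0 - (H 1 0 + H 1 1) / 2 := by
    rw [e00, e01, e10, e11]
    unfold DJ
    rw [hc]
    push_cast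
    ring
  rw [hkey]
  refine (jt_trap3 hH).trans ?_
  have hXw : 0 ≤ Xw (Pn n) (Bm α β σ X) zl cl (1 / (n * η)) := by
    unfold Xw
    refine Finset.prod_nonneg fun q _ => ?_
    have := hp.e0
    positivity
  have hXe : (∏ l, (‖mz (Pn n) (Bm α β σ X) (zl l) - cl l‖ + 1 / ((n : ℝ) * η)))
      = Xw (Pn n) (Bm α β σ X) zl cl (1 / (n * η)) := rfl
  rw [hXe]
  gcongr

/-- the remainder bound of a tuple -/
noncomputable def rJ {n K : ℕ} (α β η Γ : ℝ) (zl cl : Fin K → ℂ) (z : ℂ) (X : Fin n × Fin n → ℝ)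
    (σ : Fin n → Fin n → Bool) : ℝ :=
  if EnAll α β Γ zl z σ X then
    6 * (2 * Γ * Xw (Pn n) (Bm α β σ X) zl cl (1 / (n * η)))
        * (2 ^ (K + 1) * (2 * Γ * (16 / Real.sqrt n))) ^ 3
  else 18 * (K + 1) * (n : ℝ) ^ (4 * K + 7)

theorem Xw_nonneg (hp : Par n α β η zl cl z) (X : Fin n × Fin n → ℝ)
    (σ : Fin n → Fin n → Bool) : 0 ≤ Xw (Pn n) (Bm α β σ X) zl cl (1 / (n * η)) := by
  unfold Xw
  refine Finset.prod_nonneg fun q _ => ?_
  have := hp.e0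
  positivity

theorem rJ_nonneg (hp : Par n α β η zl cl z) {Γ : ℝ} (hΓ0 : 0 ≤ Γ) (X : Fin n × Fin n → ℝ)
    (σ : Fin n → Fin n → Bool) : 0 ≤ rJ α β η Γ zl cl z X σ := by
  unfold rJ
  have h := Xw_nonneg (cl := cl) hp X σ
  split_ifs
  · positivity
  · positivity

theorem s8_cast (σ : Fin n → Fin n → Bool) (i j k l : Fin n) :
    s8 (toC (Mx σ)) i j k l
      = ((Pool.Agent.ZR.s8 (Mx σ i j) (Mx σ j k) (Mx σ k l) (Mx σ l i) : ℝ) : ℂ) := by
  unfold s8 Pool.Agent.ZR.s8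
  simp only [toC_ap]
  push_cast
  ring

theorem alt8_cast (σ : Fin n → Fin n → Bool) (i j k l : Fin n) :
    alt8 (toC (Mx σ)) i j k l
      = ((Pool.Agent.ZR.alt8 (Mx σ i j) (Mx σ j k) (Mx σ k l) (Mx σ l i) : ℝ) : ℂ) := by
  unfold alt8 Pool.Agent.ZR.alt8
  simp only [toC_ap]
  push_cast
  ring

theorem s8p_cast (σ : Fin n → Fin n → Bool) (i j k : Fin n) :
    s8p (toC (Mx σ)) i j k
      = ((Pool.Agent.ZR.s8 (Mx σ i i) (Mx σ i j) (Mx σ j k) (Mx σ k k) : ℝ) : ℂ) := by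
  unfold s8p Pool.Agent.ZR.s8
  simp only [toC_ap]
  push_cast
  ring

/-- identity for a tuple of distinct indices -/
theorem cyc_tuple (hp : Par n α β η zl cl z) {Γ : ℝ} (hΓ0 : 0 ≤ Γ) (hΓ : 32 * Γ ≤ Real.sqrt n)
    (X : Fin n × Fin n → ℝ) {i j k l : Fin n} (h1 : i ≠ j) (h2 : i ≠ k) (h3 : i ≠ l) (h4 : j ≠ k)
    (h5 : j ≠ l) (h6 : k ≠ l) :
    ‖EU (fun σ => s8 (toC (Mx σ)) i j k l * fJ α β zl cl z X j i σ
        - alt8 (toC (Mx σ)) i j k l * DJ α β zl cl z X i j k l σ)‖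
      ≤ 4 * EU (fun σ => rJ α β η Γ zl cl z X σ) := by
  have h := cyc_identity h1 h2 h3 h4 h5 h6 (fJ α β zl cl z X j i) (DJ α β zl cl z X i j k l)
    (rJ α β η Γ zl cl z X) (fun σ _ => rJ_nonneg hp hΓ0 X σ) (fun σ hσ ha => by
      by_cases hE : EnAll α β Γ zl z σ X
      · rw [rJ, if_pos hE]
        exact rem_good hp hΓ0 hΓ X h1 h2 h3 h4 h5 h6 hσ ha hE
      · rw [rJ, if_neg hE]
        obtain ⟨hσ', -⟩ := flip_mem h1 h2 h3 h4 h5 h6 hσ ha
        have f1 := fJ_crude hp X j i hσ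
        have f2 := fJ_crude hp X j i hσ'
        have d1 := DJ_crude hp X i j k l hσ
        have d2 := DJ_crude hp X i j k l hσ'
        have hn := par_n hp
        have hn1 : (1 : ℝ) ≤ n := by linarith
        have hpw : (n : ℝ) ^ (4 * K + 2) ≤ (n : ℝ) ^ (4 * K + 7) :=
          pow_le_pow_right₀ hn1 (by omega)
        have hM : ‖(Mx σ i j : ℂ)‖ = 1 := by
          rw [Complex.norm_real, Real.norm_eq_abs, abs_Mx]
        have hpp : 0 ≤ (n : ℝ) ^ (4 * K + 7) := by positivity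
        refine (norm_add_le _ _).trans ?_
        rw [norm_mul, hM, one_mul]
        have g1 := norm_sub_le (fJ α β zl cl z X j i (flipP (cyc i j k l) σ))
          (fJ α β zl cl z X j i σ)
        have g2 := norm_add_le (DJ α β zl cl z X i j k l σ)
          (DJ α β zl cl z X i j k l (flipP (cyc i j k l) σ))
        have hK : (0 : ℝ) ≤ K := Nat.cast_nonneg K
        nlinarith [mul_nonneg hK hpp])
  have e : EU (fun σ => s8 (toC (Mx σ)) i j k l * fJ α β zl cl z X j i σ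
        - alt8 (toC (Mx σ)) i j k l * DJ α β zl cl z X i j k l σ)
      = EU (fun σ => ((Pool.Agent.ZR.s8 (Mx σ i j) (Mx σ j k) (Mx σ k l) (Mx σ l i) : ℝ) : ℂ)
          * fJ α β zl cl z X j i σ)
        - EU (fun σ => ((Pool.Agent.ZR.alt8 (Mx σ i j) (Mx σ j k) (Mx σ k l) (Mx σ l i) : ℝ) : ℂ)
          * DJ α β zl cl z X i j k l σ) := by
    rw [← EU_sub]
    refine EU_congr fun σ _ => ?_
    rw [s8_cast, alt8_cast]
  rw [e]
  exact h

end Pool.Agent.ZR.G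

end

section

/-!
# ZR/MCnt : counting function of the relocated ensemble

PROOF.  Always `η = 1/n`, `L = ` the least integer with `2^L ≥ n` (`L ≤ 2 log n + 1`), `κx = π (n Fsc x - n/2)`.
* `arc_B`: `arc_cnt` (MArc) with `N = n-1`: `|arcF - π(cntF - (n-1)/2)| ≤ 4∑_{l<L} 2^{-l} cntIF(x, 2^l/n) + 4`;
  `EJ` of the sum `≤ 4 L n^(ν/4)` by `loc_B` (`2^l/n ≤ 1`), and `EJ |cntP - n Fsc| ≤ (EJ (..)²)^(1/2)
  ≤ (n^ν'/κ)^(1/2)` by `ICnt` (`cntP_vecP`, MSp).
* `arc_G`: the same for the GOE (`ICntG`, `loc_G1`).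
* `cnt_A`: for `ω` put `a(ω) = |arcS (AA ω) x (1/n) - κx|`.  `|cnt - n Fsc| ≤ a/π + (1/π)(4∑ 2^{-l} cntI(x, 2^l/n) + 4)`.
  By `J5` (for every fixed `a#`, averaged over `P2`: `(P3).real {n^(ν'+δ/2) n r ≤ cntI (AA ω) x r} ≤ n^(-2)`)
  and `cntI ≤ n`: `E cntI(x,r) ≤ n^(ν'+δ/2) n r + n^(-1)`, so the sum is `≤ 8 L n^(ν'+δ/2)` in expectation.
  `∫ a ∂P3 = E_{(σ,Y)} ∫_X a`: on the good event, `J4` (relocation part, its hypotheses from `reloc_geom`,
  `reloc_sum`, then the bordering part with `b = 2`) gives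
  `∫_X a ≤ ∫_X |arcS(At_{n-1}(vecP (H0 σ)) X) - κx| + π + n^(ν'-δ/2) n^θ + n^(-5)` and by `j0_fam` the integral
  is `∫_X |arcF (vecP (Bm α β σ X)) x (1/n) - κx|`, whose `EU` is `≤ n^ν'` by `arc_B`.  On the bad event
  `a# = vecS (Wv Y)` and `E[1_bad ∫_X a] ≤ ∫_Y ∫_X |arcS(At(vecS (Wv Y)) X) - κx| = ∫_X |arcS(Wv X) - κx|`
  (`KStat`) `≤ n^ν'` (`arc_G`).
* `loc_A`: `J5` for fixed `a#`, then average over `P2 n` (`measure_prod_apply`/`integral` of the sections).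
-/


open MeasureTheory ProbabilityTheory Matrix

namespace Pool.Agent.ZR

private lemma meas_cntF_mc {N : ℕ} (y : ℝ) : Measurable (fun x : Fin N → ℝ => (cntF x y : ℝ)) := by
  classical
  have h : (fun x : Fin N → ℝ => (cntF x y : ℝ))
      = fun x => ∑ i, (if x i ≤ y then (1 : ℝ) else 0) := by
    funext x
    unfold cntF
    rw [Finset.card_filter]
    push_cast
    refine Finset.sum_congr rfl fun i _ => ?_
    congr 1
  rw [h]
  refine Finset.measurable_sum _ fun i _ => ?_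
  exact Measurable.ite (measurableSet_le (measurable_pi_apply i) measurable_const)
    measurable_const measurable_const

private lemma meas_cntIF_mc {N : ℕ} (y r : ℝ) :
    Measurable (fun x : Fin N → ℝ => (cntIF x y r : ℝ)) := by
  classical
  have h : (fun x : Fin N → ℝ => (cntIF x y r : ℝ))
      = fun x => ∑ i, (if |x i - y| ≤ r then (1 : ℝ) else 0) := by
    funext x
    unfold cntIF
    rw [Finset.card_filter]
    push_cast
    refine Finset.sum_congr rfl fun i _ => ?_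
    congr 1
  rw [h]
  refine Finset.measurable_sum _ fun i _ => ?_
  exact Measurable.ite (measurableSet_le (by fun_prop) measurable_const)
    measurable_const measurable_const

private lemma meas_arcF_mc {N : ℕ} (y η : ℝ) : Measurable (fun x : Fin N → ℝ => arcF x y η) := by
  unfold arcF
  refine Finset.measurable_sum _ fun i _ => ?_
  exact Real.measurable_arctan.comp (by fun_prop)

private lemma cntF_le_mc {N : ℕ} (x : Fin N → ℝ) (y : ℝ) : (cntF x y : ℝ) ≤ N := by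
  unfold cntF
  have := Finset.card_le_univ (Finset.univ.filter fun i => x i ≤ y)
  rw [Fintype.card_fin] at this
  exact_mod_cast this

private lemma cntIF_le_mc {N : ℕ} (x : Fin N → ℝ) (y r : ℝ) : (cntIF x y r : ℝ) ≤ N := by
  classical
  unfold cntIF
  have := Finset.card_le_univ (Finset.univ.filter fun i => |x i - y| ≤ r)
  rw [Fintype.card_fin] at this
  have h2 : (Finset.univ.filter fun i => |x i - y| ≤ r).card ≤ N := by convert this
  exact_mod_cast h2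

private lemma arcF_le_mc {N : ℕ} (x : Fin N → ℝ) (y η : ℝ) : |arcF x y η| ≤ 2 * N := by
  unfold arcF
  refine (Finset.abs_sum_le_sum_abs _ _).trans ?_
  have : ∀ i ∈ (Finset.univ : Finset (Fin N)), |Real.arctan ((y - x i) / η)| ≤ 2 := by
    intro i _
    rw [abs_le]
    have h1 := Real.neg_pi_div_two_lt_arctan ((y - x i) / η)
    have h2 := Real.arctan_lt_pi_div_two ((y - x i) / η)
    have h3 := Real.pi_lt_four
    constructor <;> linarith
  refine (Finset.sum_le_sum this).trans ?_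
  rw [Finset.sum_const, Finset.card_univ, Fintype.card_fin, nsmul_eq_mul]
  linarith

private lemma integ_bd_mc {Ω : Type*} [MeasurableSpace Ω] {P : Measure Ω} [IsProbabilityMeasure P]
    {f : Ω → ℝ} (hf : Measurable f) {C : ℝ} (hC : ∀ ω, |f ω| ≤ C) : Integrable f P :=
  Integrable.of_bound hf.aestronglyMeasurable C (Filter.Eventually.of_forall fun ω => by
    rw [Real.norm_eq_abs]; exact hC ω)

private lemma clog_lt_mc {n l : ℕ} (hn : 1 < n) (hl : l < Nat.clog 2 n) : 2 ^ l < n := by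
  have h1 : 2 ^ (Nat.clog 2 n).pred < n := Nat.pow_pred_clog_lt_self (by norm_num) hn
  have h2 : l ≤ (Nat.clog 2 n).pred := by
    have := Nat.pred_eq_sub_one (n := Nat.clog 2 n)
    omega
  exact lt_of_le_of_lt (Nat.pow_le_pow_right (by norm_num) h2) h1

private lemma le_clog_mc (n : ℕ) : (n : ℝ) ≤ 2 ^ (Nat.clog 2 n) := by
  have : n ≤ 2 ^ Nat.clog 2 n := Nat.le_pow_clog (by norm_num) n
  exact_mod_cast this

private lemma clog_le_mc {n : ℕ} (hn : 1 < n) : (Nat.clog 2 n : ℝ) ≤ 2 * Real.log n + 1 := by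
  have h1 : 2 ^ (Nat.clog 2 n).pred < n := Nat.pow_pred_clog_lt_self (by norm_num) hn
  have hpos : 0 < Nat.clog 2 n := Nat.clog_pos (by norm_num) hn
  have h2 : ((2 : ℝ) ^ (Nat.clog 2 n - 1)) ≤ n := by
    have : 2 ^ (Nat.clog 2 n - 1) ≤ n := h1.le
    exact_mod_cast this
  have h3 := Real.log_le_log (by positivity) h2
  rw [Real.log_pow] at h3
  have h4 : ((Nat.clog 2 n - 1 : ℕ) : ℝ) = (Nat.clog 2 n : ℝ) - 1 := by
    rw [Nat.cast_sub hpos, Nat.cast_one]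
  rw [h4] at h3
  have h5 : (1 / 2 : ℝ) ≤ Real.log 2 := by
    have := Real.log_two_gt_d9
    linarith
  have h6 : (0 : ℝ) ≤ (Nat.clog 2 n : ℝ) - 1 := by
    have : (1 : ℝ) ≤ (Nat.clog 2 n : ℝ) := by exact_mod_cast hpos
    linarith
  nlinarith

private lemma ev_log_mc (ν C : ℝ) (hν : 0 < ν) : ∃ n0 : ℕ, 2 ≤ n0 ∧ ∀ n : ℕ, n0 ≤ n →
    C * ((Nat.clog 2 n : ℝ) + 1) ≤ (n : ℝ) ^ ν := by
  have h1 := (isLittleO_log_rpow_atTop hν).bound (c := 1 / (4 * (|C| + 1))) (by positivity)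
  have h2 := (tendsto_rpow_atTop hν).eventually_ge_atTop (4 * (|C| + 1))
  have h3 := (tendsto_natCast_atTop_atTop (R := ℝ)).eventually (h1.and h2)
  obtain ⟨n0, h⟩ := Filter.eventually_atTop.1 h3
  refine ⟨max n0 2, le_max_right _ _, fun n hn => ?_⟩
  have hn0 : n0 ≤ n := (le_max_left _ _).trans hn
  have hn2 : 2 ≤ n := (le_max_right _ _).trans hn
  obtain ⟨ha, hb⟩ := h n hn0
  have hn1 : (1 : ℝ) < n := by exact_mod_cast hn2
  have hlog : 0 ≤ Real.log n := Real.log_nonneg hn1.le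
  rw [Real.norm_eq_abs, Real.norm_eq_abs, abs_of_nonneg hlog,
    abs_of_nonneg (Real.rpow_nonneg (by positivity) _)] at ha
  have hc := clog_le_mc hn2
  have hC : C ≤ |C| + 1 := by
    have := le_abs_self C
    linarith
  have hCp : 0 < |C| + 1 := by positivity
  have hcl : (0 : ℝ) ≤ (Nat.clog 2 n : ℝ) := Nat.cast_nonneg _
  have e1 : C * ((Nat.clog 2 n : ℝ) + 1) ≤ (|C| + 1) * (2 * Real.log n + 2) := by
    calc C * ((Nat.clog 2 n : ℝ) + 1) ≤ (|C| + 1) * ((Nat.clog 2 n : ℝ) + 1) :=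
          mul_le_mul_of_nonneg_right hC (by positivity)
      _ ≤ _ := mul_le_mul_of_nonneg_left (by linarith) hCp.le
  have e2 : (|C| + 1) * (2 * Real.log n) ≤ (1 / 2) * (n : ℝ) ^ ν := by
    have := mul_le_mul_of_nonneg_left ha (show 0 ≤ 2 * (|C| + 1) by positivity)
    have e3 : 2 * (|C| + 1) * (1 / (4 * (|C| + 1)) * (n : ℝ) ^ ν) = (1 / 2) * (n : ℝ) ^ ν := by
      field_simp
      ring
    linarith
  linarith

private lemma rpow_le_mc {n : ℕ} (hn : 1 ≤ n) {a b : ℝ} (h : a ≤ b) : (n : ℝ) ^ a ≤ (n : ℝ) ^ b :=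
  Real.rpow_le_rpow_of_exponent_le (by exact_mod_cast hn) h

/-- deterministic comparison used for both ensembles -/
private lemma det_mc {n N : ℕ} (hn : 1 < n) (hN : N ≤ n) (hN1 : n ≤ N + 1) (v : Fin N → ℝ)
    (x : ℝ) :
    |arcF v x (1 / (n : ℝ)) - Real.pi * (n * Fsc x - n / 2)|
      ≤ (4 * ∑ l ∈ Finset.range (Nat.clog 2 n),
          (1 / 2 : ℝ) ^ l * (cntIF v x (2 ^ l * (1 / (n : ℝ))) : ℝ) + 8)
        + 4 * (((cntF v x : ℝ) - n * Fsc x) ^ 2 + 1) := by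
  have hn0 : (0 : ℝ) < n := by
    have : 0 < n := by omega
    exact_mod_cast this
  have h := arc_cnt v x (η := 1 / (n : ℝ)) (by positivity) (Nat.clog 2 n)
  have hN' : (N : ℝ) ≤ n := by exact_mod_cast hN
  have hN1' : (n : ℝ) ≤ N + 1 := by exact_mod_cast hN1
  have hL : 4 * (N : ℝ) * (1 / 2 : ℝ) ^ (Nat.clog 2 n) ≤ 4 := by
    have h2 := le_clog_mc n
    have h3 : (1 / 2 : ℝ) ^ (Nat.clog 2 n) = 1 / (2 : ℝ) ^ (Nat.clog 2 n) := by
      rw [one_div, inv_pow, one_div]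
    rw [h3, mul_one_div, div_le_iff₀ (by positivity)]
    nlinarith
  have hpi := Real.pi_pos
  have hpi4 := Real.pi_lt_four
  have e1 : Real.pi * ((cntF v x : ℝ) - N / 2) - Real.pi * (n * Fsc x - n / 2)
      = Real.pi * ((cntF v x : ℝ) - n * Fsc x) + Real.pi * ((n - N : ℝ) / 2) := by ring
  have e2 : |Real.pi * ((cntF v x : ℝ) - N / 2) - Real.pi * (n * Fsc x - n / 2)|
      ≤ 4 * |(cntF v x : ℝ) - n * Fsc x| + 2 := by
    rw [e1]
    refine (abs_add_le _ _).trans ?_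
    rw [abs_mul, abs_mul, abs_of_pos hpi]
    have h5 : |(n - N : ℝ) / 2| ≤ 1 / 2 := by
      rw [abs_le]; constructor <;> linarith
    have h6 : Real.pi * |(cntF v x : ℝ) - n * Fsc x| ≤ 4 * |(cntF v x : ℝ) - n * Fsc x| :=
      mul_le_mul_of_nonneg_right hpi4.le (abs_nonneg _)
    have h7 : Real.pi * |(n - N : ℝ) / 2| ≤ 4 * (1 / 2) :=
      mul_le_mul hpi4.le h5 (abs_nonneg _) (by norm_num)
    linarith
  have e3 : |(cntF v x : ℝ) - n * Fsc x| ≤ ((cntF v x : ℝ) - n * Fsc x) ^ 2 + 1 := by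
    rw [← sq_abs ((cntF v x : ℝ) - n * Fsc x)]
    nlinarith [sq_nonneg (|(cntF v x : ℝ) - n * Fsc x| - 1), abs_nonneg ((cntF v x : ℝ) - n * Fsc x)]
  have e4 := abs_sub_le (arcF v x (1 / (n : ℝ))) (Real.pi * ((cntF v x : ℝ) - N / 2))
    (Real.pi * (n * Fsc x - n / 2))
  linarith

/-- integrated form -/
private lemma int_mc {Ω : Type*} [MeasurableSpace Ω] {P : Measure Ω} [IsProbabilityMeasure P]
    {n N : ℕ} (hn : 1 < n) (hN : N ≤ n) (hN1 : n ≤ N + 1) (V : Ω → Fin N → ℝ)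
    (hV : Measurable V) (x : ℝ) (A B : ℝ)
    (hloc : ∀ l < Nat.clog 2 n, ∫ ω, (cntIF (V ω) x (2 ^ l * (1 / (n : ℝ))) : ℝ) ∂P ≤ A * 2 ^ l)
    (hsq : ∫ ω, ((cntF (V ω) x : ℝ) - n * Fsc x) ^ 2 ∂P ≤ B) :
    Integrable (fun ω => |arcF (V ω) x (1 / (n : ℝ)) - Real.pi * (n * Fsc x - n / 2)|) P ∧
    ∫ ω, |arcF (V ω) x (1 / (n : ℝ)) - Real.pi * (n * Fsc x - n / 2)| ∂P
      ≤ 4 * (Nat.clog 2 n * A) + 8 + 4 * (B + 1) := by
  have i1 : Integrable (fun ω => |arcF (V ω) x (1 / (n : ℝ))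
      - Real.pi * (n * Fsc x - n / 2)|) P := by
    refine (Integrable.sub ?_ (integrable_const _)).abs
    exact integ_bd_mc ((meas_arcF_mc x _).comp hV) (fun ω => arcF_le_mc _ _ _)
  have i2 : ∀ l, Integrable (fun ω => (cntIF (V ω) x (2 ^ l * (1 / (n : ℝ))) : ℝ)) P := fun l =>
    integ_bd_mc ((meas_cntIF_mc x _).comp hV) (C := N) (fun ω => by
      rw [abs_of_nonneg (Nat.cast_nonneg _)]; exact cntIF_le_mc _ _ _)
  have i3 : Integrable (fun ω => ((cntF (V ω) x : ℝ) - n * Fsc x) ^ 2) P := by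
    refine integ_bd_mc (C := ((N : ℝ) + |n * Fsc x|) ^ 2)
      ((((meas_cntF_mc x).comp hV).sub measurable_const).pow_const 2) (fun ω => ?_)
    rw [abs_of_nonneg (sq_nonneg _), ← sq_abs]
    refine pow_le_pow_left₀ (abs_nonneg _) ?_ 2
    refine (abs_sub _ _).trans ?_
    rw [abs_of_nonneg (Nat.cast_nonneg _)]
    have := cntF_le_mc (V ω) x
    linarith
  have i4 : Integrable (fun ω => ∑ l ∈ Finset.range (Nat.clog 2 n),
      (1 / 2 : ℝ) ^ l * (cntIF (V ω) x (2 ^ l * (1 / (n : ℝ))) : ℝ)) P :=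
    integrable_finsetSum _ fun l _ => (i2 l).const_mul _
  have j1 : Integrable (fun ω => 4 * ∑ l ∈ Finset.range (Nat.clog 2 n),
      (1 / 2 : ℝ) ^ l * (cntIF (V ω) x (2 ^ l * (1 / (n : ℝ))) : ℝ) + 8) P :=
    (i4.const_mul 4).add (integrable_const 8)
  have j2 : Integrable (fun ω => 4 * (((cntF (V ω) x : ℝ) - n * Fsc x) ^ 2 + 1)) P :=
    (i3.add (integrable_const 1)).const_mul 4
  refine ⟨i1, ?_⟩
  calc ∫ ω, |arcF (V ω) x (1 / (n : ℝ)) - Real.pi * (n * Fsc x - n / 2)| ∂P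
      ≤ ∫ ω, ((4 * ∑ l ∈ Finset.range (Nat.clog 2 n),
          (1 / 2 : ℝ) ^ l * (cntIF (V ω) x (2 ^ l * (1 / (n : ℝ))) : ℝ) + 8)
        + 4 * (((cntF (V ω) x : ℝ) - n * Fsc x) ^ 2 + 1)) ∂P := by
        exact integral_mono i1 (j1.add j2) (fun ω => det_mc hn hN hN1 (V ω) x)
    _ = (4 * ∑ l ∈ Finset.range (Nat.clog 2 n),
          (1 / 2 : ℝ) ^ l * (∫ ω, (cntIF (V ω) x (2 ^ l * (1 / (n : ℝ))) : ℝ) ∂P) + 8)
        + 4 * ((∫ ω, ((cntF (V ω) x : ℝ) - n * Fsc x) ^ 2 ∂P) + 1) := by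
        rw [integral_add j1 j2, integral_add (i4.const_mul 4) (integrable_const 8),
          integral_const_mul, integral_const_mul, integral_add i3 (integrable_const 1),
          integral_finsetSum _ (fun l _ => (i2 l).const_mul _)]
        simp only [integral_const_mul, integral_const, probReal_univ, smul_eq_mul,
          one_mul]
    _ ≤ _ := by
        have h1 : ∑ l ∈ Finset.range (Nat.clog 2 n),
            (1 / 2 : ℝ) ^ l * (∫ ω, (cntIF (V ω) x (2 ^ l * (1 / (n : ℝ))) : ℝ) ∂P)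
            ≤ ∑ l ∈ Finset.range (Nat.clog 2 n), A := by
          refine Finset.sum_le_sum fun l hl => ?_
          refine (mul_le_mul_of_nonneg_left (hloc l (Finset.mem_range.1 hl))
            (by positivity)).trans ?_
          have : (1 / 2 : ℝ) ^ l * (A * 2 ^ l) = A * ((1 / 2) ^ l * 2 ^ l) := by ring
          rw [this, ← mul_pow]
          norm_num
        rw [Finset.sum_const, Finset.card_range, nsmul_eq_mul] at h1
        linarith

theorem arc_B (hF : FMain) (hC : ICnt) (κ ν : ℝ) (hκ : 0 < κ) (hν : 0 < ν) :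
    ∃ n0 : ℕ, ∀ n : ℕ, n0 ≤ n → Even n → ∀ α β : ℝ, 0 ≤ α → 0 ≤ β → α ^ 2 + β ^ 2 = 1 →
      ∀ x : ℝ, |x| ≤ 2 - κ →
        EJ (n := n) (fun σ X => |arcF (vecP (Bm α β σ X)) x (1 / (n : ℝ))
          - Real.pi * (n * Fsc x - n / 2)|) ≤ (n : ℝ) ^ ν := by
  obtain ⟨n1, h1⟩ := loc_B hF (ν / 2) (by positivity)
  obtain ⟨n2, h2⟩ := hC (ν / 2) (by positivity)
  obtain ⟨n3, hn3, h3⟩ := ev_log_mc (ν / 2) (12 + 4 / κ) (by positivity)
  refine ⟨max n1 (max n2 n3), fun n hn he α β hα hβ hαβ x hx => ?_⟩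
  have hn1 : n1 ≤ n := (le_max_left _ _).trans hn
  have hn2 : n2 ≤ n := (le_max_left _ _).trans ((le_max_right _ _).trans hn)
  have hn3' : n3 ≤ n := (le_max_right _ _).trans ((le_max_right _ _).trans hn)
  have hn' : 1 < n := by omega
  have hn0 : (0 : ℝ) < n := by
    have : 0 < n := by omega
    exact_mod_cast this
  have hx2 : |x| < 2 := by linarith
  set P : Measure (Pat n × Arr n) := P2 n with hP
  have hprob : IsProbabilityMeasure P := P2_prob he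
  -- a measurable version of the vector, defined for all patterns
  classical
  set V : Pat n × Arr n → Fin (n - 1) → ℝ := fun ω =>
    if ω.1 ∈ Sn n then vecP (Bm α β ω.1 ω.2) else 0 with hVdef
  have hV : Measurable V := by
    refine meas_Pat _ fun σ => ?_
    by_cases hσ : σ ∈ Sn n
    · simp only [hVdef, hσ, if_true]
      exact vecP_Bm_meas (by omega) α β hσ
    · simp only [hVdef, hσ, if_false]
      exact measurable_const
  have key : ∀ (f : (Fin (n - 1) → ℝ) → ℝ) (hf : Measurable f) (C : ℝ) (hfC : ∀ v, |f v| ≤ C),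
      ∫ ω, f (V ω) ∂P = EJ (n := n) (fun σ X => f (vecP (Bm α β σ X))) := by
    intro f hf C hfC
    have e1 : ∫ ω, f (V ω) ∂P
        = EJ (n := n) (fun σ X => f (V (σ, X))) := by
      refine integral_P2 he (fun σ X => f (V (σ, X))) (fun σ _ => ?_)
      exact integ_bd_mc (hf.comp (hV.comp measurable_prodMk_left)) (fun X => hfC _)
    rw [e1]
    unfold EJ EU
    congr 1
    refine Finset.sum_congr rfl fun σ hσ => ?_
    simp only [hVdef, hσ, if_true]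
  have hint := int_mc (P := P) hn' (N := n - 1) (by omega) (by omega) V hV x
    ((n : ℝ) ^ (ν / 2)) ((n : ℝ) ^ (ν / 2) / κ) ?_ ?_
  · rw [key (fun v => |arcF v x (1 / (n : ℝ)) - Real.pi * (n * Fsc x - n / 2)|)
      (((meas_arcF_mc x _).sub measurable_const).abs)
      (2 * ((n - 1 : ℕ) : ℝ) + |Real.pi * (n * Fsc x - n / 2)|) (fun v => by
        rw [abs_abs]
        exact (abs_sub _ _).trans (add_le_add (arcF_le_mc _ _ _) le_rfl))] at hint
    refine hint.2.trans ?_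
    have e1 : (1 : ℝ) ≤ (n : ℝ) ^ (ν / 2) :=
      Real.one_le_rpow (by exact_mod_cast hn'.le) (by positivity)
    have e2 := h3 n hn3'
    have e3 : (n : ℝ) ^ ν = (n : ℝ) ^ (ν / 2) * (n : ℝ) ^ (ν / 2) := by
      rw [← Real.rpow_add hn0]; congr 1; ring
    rw [e3]
    set L : ℝ := (Nat.clog 2 n : ℝ) with hL
    have hL0 : 0 ≤ L := Nat.cast_nonneg _
    set T : ℝ := (n : ℝ) ^ (ν / 2) with hT
    have hκ4 : 0 < 4 / κ := by positivity
    have e4 : 4 * (T / κ + 1) = (4 / κ) * T + 4 := by ring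
    calc 4 * (L * T) + 8 + 4 * (T / κ + 1) = T * (4 * L + 4 / κ) + 12 := by rw [e4]; ring
      _ ≤ T * (4 * L + 4 / κ) + T * 12 := by nlinarith
      _ = T * (4 * L + 4 / κ + 12) := by ring
      _ ≤ T * ((12 + 4 / κ) * (L + 1)) := by
          refine mul_le_mul_of_nonneg_left ?_ (by positivity)
          nlinarith [mul_nonneg hκ4.le hL0]
      _ ≤ T * T := mul_le_mul_of_nonneg_left e2 (by positivity)
  · intro l hl
    have hl2 := clog_lt_mc hn' hl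
    have hr1 : 1 / (n : ℝ) ≤ 2 ^ l * (1 / (n : ℝ)) := by
      have : (1 : ℝ) ≤ 2 ^ l := one_le_pow₀ (by norm_num)
      exact le_mul_of_one_le_left (by positivity) this
    have hr2 : 2 ^ l * (1 / (n : ℝ)) ≤ 1 := by
      rw [mul_one_div, div_le_one hn0]
      exact_mod_cast hl2.le
    rw [key (fun v => (cntIF v x (2 ^ l * (1 / (n : ℝ))) : ℝ)) (meas_cntIF_mc x _)
      ((n - 1 : ℕ) : ℝ) (fun v => by
        rw [abs_of_nonneg (Nat.cast_nonneg _)]; exact cntIF_le_mc _ _ _)]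
    refine (h1 n hn1 he α β hα hβ hαβ x _ hx2.le hr1 hr2).trans (le_of_eq ?_)
    field_simp
  · rw [key (fun v => ((cntF v x : ℝ) - n * Fsc x) ^ 2)
      (((meas_cntF_mc x).sub measurable_const).pow_const 2)
      ((((n - 1 : ℕ) : ℝ) + |n * Fsc x|) ^ 2) (fun v => by
        rw [abs_of_nonneg (sq_nonneg _), ← sq_abs]
        refine pow_le_pow_left₀ (abs_nonneg _) ?_ 2
        refine (abs_sub _ _).trans ?_
        rw [abs_of_nonneg (Nat.cast_nonneg _)]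
        have := cntF_le_mc v x
        linarith)]
    have e1 : EJ (n := n) (fun σ X => ((cntF (vecP (Bm α β σ X)) x : ℝ) - n * Fsc x) ^ 2)
        = EJ (n := n) (fun σ X => ((cntP (Bm α β σ X) x : ℝ) - n * Fsc x) ^ 2) := by
      unfold EJ EU
      congr 1
      refine Finset.sum_congr rfl fun σ hσ => ?_
      refine integral_congr_ae (Filter.Eventually.of_forall fun X => ?_)
      simp only [cntP_vecP _ (Bm_symm α β hσ X) (zero_mem_Bm (by omega) α β hσ X) x]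
    rw [e1]
    refine (h2 n hn2 he α β hα hβ hαβ x hx2).trans ?_
    exact div_le_div_of_nonneg_left (by positivity) hκ (by linarith)

theorem arc_G (h1 : J1) (hG : ICntG) (κ ν : ℝ) (hκ : 0 < κ) (hν : 0 < ν) :
    ∃ n0 : ℕ, ∀ n : ℕ, n0 ≤ n → ∀ x : ℝ, |x| ≤ 2 - κ →
      ∫ X, |arcF (vecS (Wv (N := n) (1 / (n : ℝ)) X)) x (1 / (n : ℝ))
          - Real.pi * (n * Fsc x - n / 2)| ∂(gm n) ≤ (n : ℝ) ^ ν := by
  obtain ⟨C, hC0, hC⟩ := loc_G1 h1
  obtain ⟨n2, h2⟩ := hG (ν / 2) (by positivity)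
  obtain ⟨n3, hn3, h3⟩ := ev_log_mc (ν / 2) (12 + 4 * C + 4 / κ) (by positivity)
  refine ⟨max n2 n3, fun n hn x hx => ?_⟩
  have hn2 : n2 ≤ n := (le_max_left _ _).trans hn
  have hn3' : n3 ≤ n := (le_max_right _ _).trans hn
  have hn' : 1 < n := by omega
  have hn0 : (0 : ℝ) < n := by
    have : 0 < n := by omega
    exact_mod_cast this
  have hx2 : |x| < 2 := by linarith
  have hint := int_mc (P := gm n) hn' (N := n) le_rfl (by omega)
    (fun X => vecS (Wv (N := n) (1 / (n : ℝ)) X)) (vecS_Wv_meas _) x C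
    ((n : ℝ) ^ (ν / 2) / κ) ?_ ?_
  · refine hint.2.trans ?_
    have e1 : (1 : ℝ) ≤ (n : ℝ) ^ (ν / 2) :=
      Real.one_le_rpow (by exact_mod_cast hn'.le) (by positivity)
    have e2 := h3 n hn3'
    have e3 : (n : ℝ) ^ ν = (n : ℝ) ^ (ν / 2) * (n : ℝ) ^ (ν / 2) := by
      rw [← Real.rpow_add hn0]; congr 1; ring
    rw [e3]
    set L : ℝ := (Nat.clog 2 n : ℝ) with hL
    have hL0 : 0 ≤ L := Nat.cast_nonneg _
    set T : ℝ := (n : ℝ) ^ (ν / 2) with hT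
    have hκ4 : 0 < 4 / κ := by positivity
    have e4 : 4 * (T / κ + 1) = (4 / κ) * T + 4 := by ring
    calc 4 * (L * C) + 8 + 4 * (T / κ + 1) = 1 * (4 * (L * C)) + 1 * 12 + T * (4 / κ) := by
          rw [e4]; ring
      _ ≤ T * (4 * (L * C)) + T * 12 + T * (4 / κ) := by
          have := mul_le_mul_of_nonneg_right e1 (show 0 ≤ 4 * (L * C) by positivity)
          linarith
      _ = T * (12 + 4 * (L * C) + 4 / κ) := by ring
      _ ≤ T * ((12 + 4 * C + 4 / κ) * (L + 1)) := by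
          refine mul_le_mul_of_nonneg_left ?_ (by positivity)
          nlinarith [mul_nonneg hκ4.le hL0]
      _ ≤ T * T := mul_le_mul_of_nonneg_left e2 (by positivity)
  · intro l hl
    have hr1 : 1 / (n : ℝ) ≤ 2 ^ l * (1 / (n : ℝ)) := by
      have : (1 : ℝ) ≤ 2 ^ l := one_le_pow₀ (by norm_num)
      exact le_mul_of_one_le_left (by positivity) this
    have := hC n (by omega) x _ hr1
    simp only [cntI_vecS _ (Wv_symm _ _)] at this
    refine this.trans (le_of_eq ?_)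
    field_simp
  · have := h2 n hn2 x hx2
    simp only [cnt_vecS _ (Wv_symm _ _)] at this
    refine this.trans ?_
    exact div_le_div_of_nonneg_left (by positivity) hκ (by linarith)

theorem loc_A (h5 : J5) (E δ ν D κ c0 θ : ℝ) (hδ : 0 < δ) (hδ1 : δ < 1) (hν : 0 < ν)
    (hD : 0 < D) :
    ∃ n0 : ℕ, ∀ n : ℕ, n0 ≤ n → Even n → ∀ x r : ℝ, 1 / (n : ℝ) ≤ r →
      (P3 n).real {ω | (n : ℝ) ^ (ν + δ / 2) * (n * r) ≤ (cntI (AA n δ E κ c0 θ ω) x r : ℝ)}
        ≤ (n : ℝ) ^ (-D) := by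
  obtain ⟨n0, h⟩ := h5 δ ν D hδ hδ1 hν hD
  refine ⟨n0, fun n hn he x r hr => ?_⟩
  have hp2 := P2_prob he
  set S : Set ((Pat n × Arr n) × Arr n) := {ω | (n : ℝ) ^ (ν + δ / 2) * (n * r)
    ≤ (cntI (AA n δ E κ c0 θ ω) x r : ℝ)} with hS
  have hSm : MeasurableSet S := by
    have e1 : S = {ω | (n : ℝ) ^ (ν + δ / 2) * (n * r)
        ≤ (cntIF (vecS (AA n δ E κ c0 θ ω)) x r : ℝ)} := by
      rw [hS]
      ext ω
      simp only [Set.mem_ofPred_eq, cntI_vecS _ (AA_symm n δ E κ c0 θ ω)]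
    rw [e1]
    exact measurableSet_le measurable_const
      ((meas_cntIF_mc x r).comp (vecS_AA_meas n δ E κ c0 θ))
  have hle : (P3 n) S ≤ ENNReal.ofReal ((n : ℝ) ^ (-D)) := by
    unfold P3
    rw [Measure.prod_apply hSm]
    calc ∫⁻ p, (gm n) (Prod.mk p ⁻¹' S) ∂(P2 n)
        ≤ ∫⁻ _p, ENNReal.ofReal ((n : ℝ) ^ (-D)) ∂(P2 n) := by
          refine lintegral_mono fun p => ?_
          have h1 := h n hn (asharp n E κ c0 θ p.1 p.2) x r hr
          rw [measureReal_def] at h1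
          have h2 : (gm n) (Prod.mk p ⁻¹' S) ≠ ⊤ := measure_ne_top _ _
          rw [← ENNReal.ofReal_toReal h2]
          exact ENNReal.ofReal_le_ofReal h1
      _ = ENNReal.ofReal ((n : ℝ) ^ (-D)) := by
          rw [lintegral_const, measure_univ, mul_one]
  rw [measureReal_def]
  calc ((P3 n) S).toReal ≤ (ENNReal.ofReal ((n : ℝ) ^ (-D))).toReal :=
        ENNReal.toReal_mono ENNReal.ofReal_ne_top hle
    _ = (n : ℝ) ^ (-D) := ENNReal.toReal_ofReal (Real.rpow_nonneg (Nat.cast_nonneg _) _)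

/-- the test function `|arcF v x (1/n) - κx|` -/
private noncomputable def Psi_mc (n N : ℕ) (x : ℝ) (v : Fin N → ℝ) : ℝ :=
  |arcF v x (1 / (n : ℝ)) - Real.pi * (n * Fsc x - n / 2)|

private lemma Psi_meas_mc (n N : ℕ) (x : ℝ) : Measurable (Psi_mc n N x) :=
  ((meas_arcF_mc x _).sub measurable_const).abs

private lemma Psi_nonneg_mc (n N : ℕ) (x : ℝ) (v : Fin N → ℝ) : 0 ≤ Psi_mc n N x v := abs_nonneg _

private lemma Psi_le_mc (n N : ℕ) (x : ℝ) (v : Fin N → ℝ) :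
    |Psi_mc n N x v| ≤ 2 * N + |Real.pi * (n * Fsc x - n / 2)| := by
  unfold Psi_mc
  rw [abs_abs]
  exact (abs_sub _ _).trans (add_le_add (arcF_le_mc _ _ _) le_rfl)

private lemma Psi_int_mc {Ω : Type*} [MeasurableSpace Ω] {P : Measure Ω} [IsProbabilityMeasure P]
    (n N : ℕ) (x : ℝ) {V : Ω → Fin N → ℝ} (hV : Measurable V) :
    Integrable (fun ω => Psi_mc n N x (V ω)) P :=
  integ_bd_mc ((Psi_meas_mc n N x).comp hV) (fun _ => Psi_le_mc n N x _)

private lemma hm1_mc {n : ℕ} : Measurable (fun p : Arr n × Arr n => vecS (Wv (N := n) (1 / (n : ℝ)) p.1)) := by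
  exact (vecS_Wv_meas (N := n) (1 / (n : ℝ))).comp measurable_fst

private lemma hm2_mc {n : ℕ} : Measurable (fun p : Arr n × Arr n =>
      ((vecS (Wv (N := n) (1 / (n : ℝ)) p.1), p.2) : (Fin n → ℝ) × Arr n)) := by
  exact (hm1_mc (n := n)).prodMk measurable_snd

private lemma hm3_mc {n : ℕ} (t : ℝ) : Measurable ((fun p : (Fin n → ℝ) × (Fin n × Fin n → ℝ) => vecS (At (1 / (n : ℝ)) t p.1 p.2)) ∘
      fun p : Arr n × Arr n => 
      ((vecS (Wv (N := n) (1 / (n : ℝ)) p.1), p.2) : (Fin n → ℝ) × Arr n)) := by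
  exact (vecS_At_meas (N := n) (1 / (n : ℝ)) t).comp hm2_mc

private lemma hm_mc {n : ℕ} (t : ℝ) : Measurable (fun p : Arr n × Arr n =>
      vecS (At (1 / (n : ℝ)) t (vecS (Wv (N := n) (1 / (n : ℝ)) p.1)) p.2)) := by
  have h := hm3_mc (n := n) t
  simp only [Function.comp_def] at h
  exact h

private lemma gen_mc {Ω1 Ω2 : Type*} [MeasurableSpace Ω1] [MeasurableSpace Ω2]
    {Q1 : Measure Ω1} {Q2 : Measure Ω2} [IsProbabilityMeasure Q1] [IsProbabilityMeasure Q2]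
    (G : Ω1 × Ω2 → ℝ) (hG : Measurable G) (hG0 : ∀ p, 0 ≤ G p) (C : ℝ) (hC : ∀ p, |G p| ≤ C) :
    (∀ Y, Integrable (fun X => G (Y, X)) Q2) ∧
    Integrable (fun Y => ∫ X, G (Y, X) ∂Q2) Q1 ∧
    ∫⁻ Y, ∫⁻ X, ENNReal.ofReal (G (Y, X)) ∂Q2 ∂Q1
      = ENNReal.ofReal (∫ Y, ∫ X, G (Y, X) ∂Q2 ∂Q1) := by
  have i1 : ∀ Y, Integrable (fun X => G (Y, X)) Q2 := fun Y =>
    integ_bd_mc (hG.comp measurable_prodMk_left) (fun X => hC (Y, X))
  have hg0 : ∀ Y, 0 ≤ ∫ X, G (Y, X) ∂Q2 := fun Y => integral_nonneg fun X => hG0 (Y, X)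
  have hgm : Measurable (fun Y => ∫ X, G (Y, X) ∂Q2) :=
    (StronglyMeasurable.integral_prod_right (f := fun Y X => G (Y, X))
      hG.stronglyMeasurable).measurable
  have i2 : Integrable (fun Y => ∫ X, G (Y, X) ∂Q2) Q1 := by
    refine integ_bd_mc hgm (C := C) (fun Y => ?_)
    rw [abs_of_nonneg (hg0 Y)]
    calc ∫ X, G (Y, X) ∂Q2 ≤ ∫ _X, C ∂Q2 :=
          integral_mono (i1 Y) (integrable_const _) (fun X => (le_abs_self _).trans (hC (Y, X)))
      _ = C := by rw [integral_const, probReal_univ, one_smul]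
  refine ⟨i1, i2, ?_⟩
  have e1 : ∀ Y, ∫⁻ X, ENNReal.ofReal (G (Y, X)) ∂Q2 = ENNReal.ofReal (∫ X, G (Y, X) ∂Q2) := by
    intro Y
    exact (ofReal_integral_eq_lintegral_ofReal (i1 Y)
      (Filter.Eventually.of_forall fun X => hG0 (Y, X))).symm
  simp only [e1]
  exact (ofReal_integral_eq_lintegral_ofReal i2 (Filter.Eventually.of_forall hg0)).symm

/-- the two-variable function of the stationarity statement -/
private noncomputable def GY_mc (n : ℕ) (t x : ℝ) (p : Arr n × Arr n) : ℝ :=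
  Psi_mc n n x (vecS (At (1 / (n : ℝ)) t (vecS (Wv (N := n) (1 / (n : ℝ)) p.1)) p.2))

private lemma GY_meas_mc (n : ℕ) (t x : ℝ) : Measurable (GY_mc n t x) := by
  have h := (Psi_meas_mc n n x).comp (hm_mc (n := n) t)
  simp only [Function.comp_def] at h
  exact h

private lemma GY_nonneg_mc (n : ℕ) (t x : ℝ) (p : Arr n × Arr n) : 0 ≤ GY_mc n t x p :=
  Psi_nonneg_mc _ _ _ _

private lemma GY_le_mc (n : ℕ) (t x : ℝ) (p : Arr n × Arr n) :
    |GY_mc n t x p| ≤ 2 * n + |Real.pi * (n * Fsc x - n / 2)| := Psi_le_mc _ _ _ _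

private lemma stat_mc (hS : KStat) {n : ℕ} (hn : 0 < n) {t : ℝ} (ht : 0 < t) (x : ℝ) :
    ∫ Y, ∫ X, GY_mc n t x (Y, X) ∂(gm n) ∂(gm n)
      = ∫ X, Psi_mc n n x (vecS (Wv (N := n) (1 / (n : ℝ)) X)) ∂(gm n) := by
  have h := hS n t hn ht (fun v => ENNReal.ofReal (Psi_mc n n x v))
    (Psi_meas_mc n n x).ennreal_ofReal
  have h2 : ∫⁻ Y, ∫⁻ X, ENNReal.ofReal (GY_mc n t x (Y, X)) ∂(gm n) ∂(gm n)
      = ∫⁻ X, ENNReal.ofReal (Psi_mc n n x (vecS (Wv (N := n) (1 / (n : ℝ)) X))) ∂(gm n) := h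
  have h3 := gen_mc (Q1 := gm n) (Q2 := gm n) (GY_mc n t x) (GY_meas_mc n t x)
    (GY_nonneg_mc n t x) _ (GY_le_mc n t x)
  rw [h3.2.2, ← ofReal_integral_eq_lintegral_ofReal
    (Psi_int_mc n n x (vecS_Wv_meas (N := n) (1 / (n : ℝ))))
    (Filter.Eventually.of_forall fun X => Psi_nonneg_mc _ _ _ _)] at h2
  exact (ENNReal.ofReal_eq_ofReal_iff
    (integral_nonneg fun Y => integral_nonneg fun X => GY_nonneg_mc _ _ _ _)
    (integral_nonneg fun X => Psi_nonneg_mc _ _ _ _)).1 h2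

/-- sections of the relocated ensemble -/
private lemma sec_mc (h0 : J0) {n : ℕ} (hn : 1 < n) {δ E κ c0 θ ν : ℝ} {x : ℝ} (c1 : ℝ)
    (hc1 : c1 ≤ c0 / 2) (hx : |x - E| ≤ c0 / 2)
    (hκ : 1 ≤ κ * n) (hκ2 : κ ≤ 1 / 2) (hE : E + c0 ≤ 2)
    (hn2 : 2 ≤ (n : ℝ) ^ θ) (hn3 : 2 * (n : ℝ) ^ θ ≤ (n : ℝ) ^ (δ / 4))
    (h4 : (∀ (a : Fin (n - 1) → ℝ) (b : ℝ),
        ∫ X, |arcS (At (1 / (n : ℝ)) ((n : ℝ) ^ (-δ)) (snocV a b) X) x (1 / (n : ℝ))
            - Real.pi * (n * Fsc x - n / 2)| ∂(gm n)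
          ≤ (∫ X, |arcS (At (1 / (n : ℝ)) ((n : ℝ) ^ (-δ)) a X) x (1 / (n : ℝ))
            - Real.pi * (n * Fsc x - n / 2)| ∂(gm (n - 1))) + Real.pi) ∧
      (∀ (a a' : Fin n → ℝ),
        (∀ i, |a i| ≤ (n : ℝ) ^ (δ / 4) ∧ |a' i| ≤ (n : ℝ) ^ (δ / 4)) →
        (∀ i, a i = a' i ∨ (x + c1 ≤ a i ∧ x + c1 ≤ a' i) ∨ (a i ≤ x - c1 ∧ a' i ≤ x - c1)) →
        ∫ X, |arcS (At (1 / (n : ℝ)) ((n : ℝ) ^ (-δ)) a' X) x (1 / (n : ℝ))
            - Real.pi * (n * Fsc x - n / 2)| ∂(gm n)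
          ≤ (∫ X, |arcS (At (1 / (n : ℝ)) ((n : ℝ) ^ (-δ)) a X) x (1 / (n : ℝ))
            - Real.pi * (n * Fsc x - n / 2)| ∂(gm n))
            + (n : ℝ) ^ (ν - δ / 2) * ∑ i, |a i - a' i| + (n : ℝ) ^ (-(5 : ℝ))))
    (σ : Pat n) (hσ : σ ∈ Sn n) (Y : Arr n) :
    ∫ X, Psi_mc n n x (vecS (AA n δ E κ c0 θ ((σ, Y), X))) ∂(gm n)
      ≤ (∫ X, Psi_mc n (n - 1) x (vecP (Bm (Real.exp (-((n : ℝ) ^ (-δ)) / 2))
          (Real.sqrt (1 - Real.exp (-((n : ℝ) ^ (-δ))))) σ X)) ∂(gm n)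
        + (Real.pi + (n : ℝ) ^ (ν - δ / 2) * (n : ℝ) ^ θ + (n : ℝ) ^ (-(5 : ℝ))))
        + ∫ X, GY_mc n ((n : ℝ) ^ (-δ)) x (Y, X) ∂(gm n) := by
  have hA0 : 0 ≤ ∫ X, Psi_mc n (n - 1) x (vecP (Bm (Real.exp (-((n : ℝ) ^ (-δ)) / 2))
          (Real.sqrt (1 - Real.exp (-((n : ℝ) ^ (-δ))))) σ X)) ∂(gm n) :=
    integral_nonneg fun X => Psi_nonneg_mc _ _ _ _
  have hg0 : 0 ≤ ∫ X, GY_mc n ((n : ℝ) ^ (-δ)) x (Y, X) ∂(gm n) :=
    integral_nonneg fun X => Psi_nonneg_mc _ _ _ _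
  have hn0 : (0 : ℝ) < n := by
    have : 0 < n := by omega
    exact_mod_cast this
  have hK0 : 0 ≤ Real.pi + (n : ℝ) ^ (ν - δ / 2) * (n : ℝ) ^ θ + (n : ℝ) ^ (-(5 : ℝ)) := by
    have := Real.pi_pos
    positivity
  by_cases hg : goodE n E κ c0 θ σ Y
  · have hgeo := fun i => reloc_geom hκ hκ2 hE hn2 hσ hg i
    have hsum := reloc_sum (by omega) hg
    have e1 := h4.2 (snocV (vecP (H0 σ)) 2) (asharp n E κ c0 θ σ Y)
      (fun i => ⟨(hgeo i).2.1.trans hn3, (hgeo i).2.2.trans hn3⟩) (fun i => by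
        rw [abs_le] at hx
        rcases (hgeo i).1 with h | h | h
        · exact Or.inl h
        · exact Or.inr (Or.inl ⟨by linarith [h.1], by linarith [h.2]⟩)
        · exact Or.inr (Or.inr ⟨by linarith [h.1], by linarith [h.2]⟩))
    have e2 := h4.1 (vecP (H0 σ)) 2
    have e3 := j0_fam h0 hn hσ ((n : ℝ) ^ (-δ)) (Psi_mc n (n - 1) x) (Psi_meas_mc n (n - 1) x)
    have e4 : ∫ X, Psi_mc n (n - 1) x (vecS (At (1 / (n : ℝ)) ((n : ℝ) ^ (-δ)) (vecP (H0 σ)) X))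
          ∂(gm (n - 1))
        = ∫ X, |arcS (At (1 / (n : ℝ)) ((n : ℝ) ^ (-δ)) (vecP (H0 σ)) X) x (1 / (n : ℝ))
            - Real.pi * (n * Fsc x - n / 2)| ∂(gm (n - 1)) := by
      refine integral_congr_ae (Filter.Eventually.of_forall fun X => ?_)
      simp only [Psi_mc, arcS_vecS _ (At_symm _ _ _ _)]
    have e5 : ∫ X, Psi_mc n n x (vecS (AA n δ E κ c0 θ ((σ, Y), X))) ∂(gm n)
        = ∫ X, |arcS (At (1 / (n : ℝ)) ((n : ℝ) ^ (-δ)) (asharp n E κ c0 θ σ Y) X) x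
            (1 / (n : ℝ)) - Real.pi * (n * Fsc x - n / 2)| ∂(gm n) := by
      refine integral_congr_ae (Filter.Eventually.of_forall fun X => ?_)
      simp only [Psi_mc, AA, arcS_vecS _ (At_symm _ _ _ _)]
    rw [e5, e3, e4]
    have e6 : (n : ℝ) ^ (ν - δ / 2) * ∑ i, |snocV (vecP (H0 σ)) 2 i - asharp n E κ c0 θ σ Y i|
        ≤ (n : ℝ) ^ (ν - δ / 2) * (n : ℝ) ^ θ :=
      mul_le_mul_of_nonneg_left hsum (Real.rpow_nonneg hn0.le _)
    linarith
  · have e1 : ∀ X, AA n δ E κ c0 θ ((σ, Y), X)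
        = At (1 / (n : ℝ)) ((n : ℝ) ^ (-δ)) (vecS (Wv (N := n) (1 / (n : ℝ)) Y)) X := by
      intro X
      unfold AA
      rw [asharp_bad hg]
    have e2 : ∀ X, Psi_mc n n x (vecS (AA n δ E κ c0 θ ((σ, Y), X)))
        = GY_mc n ((n : ℝ) ^ (-δ)) x (Y, X) := by
      intro X
      rw [e1]
      rfl
    simp only [e2]
    linarith

private lemma markov_mc {Ω : Type*} [MeasurableSpace Ω] {P : Measure Ω} [IsProbabilityMeasure P]
    {f : Ω → ℝ} (hf : Measurable f) {M N q : ℝ} (hM : 0 ≤ M) (hN : 0 ≤ N) (hf0 : ∀ ω, 0 ≤ f ω)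
    (hfN : ∀ ω, f ω ≤ N) (hq : P.real {ω | M ≤ f ω} ≤ q) : ∫ ω, f ω ∂P ≤ M + N * q := by
  have hS : MeasurableSet {ω | M ≤ f ω} := measurableSet_le measurable_const hf
  have i1 : Integrable f P := integ_bd_mc hf (fun ω => by
    rw [abs_of_nonneg (hf0 ω)]; exact hfN ω)
  have i2 : Integrable (fun ω => M + ({ω | M ≤ f ω} : Set Ω).indicator (fun _ => N) ω) P :=
    (integrable_const _).add ((integrable_const N).indicator hS)
  calc ∫ ω, f ω ∂P ≤ ∫ ω, (M + ({ω | M ≤ f ω} : Set Ω).indicator (fun _ => N) ω) ∂P := by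
        refine integral_mono i1 i2 (fun ω => ?_)
        by_cases h : M ≤ f ω
        · have : ({ω | M ≤ f ω} : Set Ω).indicator (fun _ => N) ω = N :=
            Set.indicator_of_mem (s := {ω | M ≤ f ω}) h _
          simp only [this]
          linarith [hfN ω]
        · have : ({ω | M ≤ f ω} : Set Ω).indicator (fun _ => N) ω = 0 :=
            Set.indicator_of_notMem (s := {ω | M ≤ f ω}) h _
          simp only [this]
          linarith [not_le.1 h]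
    _ = M + P.real {ω | M ≤ f ω} * N := by
        rw [integral_add (integrable_const _) ((integrable_const N).indicator hS),
          integral_const, probReal_univ, one_smul, integral_indicator_const _ hS, smul_eq_mul]
    _ ≤ M + N * q := by
        have := mul_le_mul_of_nonneg_right hq hN
        linarith

private lemma det2_mc {n : ℕ} (hn : 1 < n) (v : Fin n → ℝ) (x : ℝ) :
    |(cntF v x : ℝ) - n * Fsc x| ≤ Psi_mc n n x v + (4 * ∑ l ∈ Finset.range (Nat.clog 2 n),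
      (1 / 2 : ℝ) ^ l * (cntIF v x (2 ^ l * (1 / (n : ℝ))) : ℝ) + 4) := by
  have hn0 : (0 : ℝ) < n := by
    have : 0 < n := by omega
    exact_mod_cast this
  have h := arc_cnt v x (η := 1 / (n : ℝ)) (by positivity) (Nat.clog 2 n)
  have hL : 4 * (n : ℝ) * (1 / 2 : ℝ) ^ (Nat.clog 2 n) ≤ 4 := by
    have h2 := le_clog_mc n
    have h3 : (1 / 2 : ℝ) ^ (Nat.clog 2 n) = 1 / (2 : ℝ) ^ (Nat.clog 2 n) := by
      rw [one_div, inv_pow, one_div]
    rw [h3, mul_one_div, div_le_iff₀ (by positivity)]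
    nlinarith
  have hpi := Real.pi_gt_three
  have e1 : Real.pi * ((cntF v x : ℝ) - n / 2) - Real.pi * (n * Fsc x - n / 2)
      = Real.pi * ((cntF v x : ℝ) - n * Fsc x) := by ring
  have e2 : |(cntF v x : ℝ) - n * Fsc x|
      ≤ |Real.pi * ((cntF v x : ℝ) - n / 2) - Real.pi * (n * Fsc x - n / 2)| := by
    rw [e1, abs_mul, abs_of_pos Real.pi_pos]
    exact le_mul_of_one_le_left (abs_nonneg _) (by linarith)
  have e3 := abs_sub_le (Real.pi * ((cntF v x : ℝ) - n / 2)) (arcF v x (1 / (n : ℝ)))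
    (Real.pi * (n * Fsc x - n / 2))
  rw [abs_sub_comm (Real.pi * ((cntF v x : ℝ) - n / 2)) (arcF v x (1 / (n : ℝ)))] at e3
  unfold Psi_mc
  linarith

private lemma EU_add_const_mc {n : ℕ} (hn : Even n) (f : Pat n → ℝ) (c : ℝ) :
    EU (fun σ => f σ + c) = EU f + c := by
  have h : ((Sn n).card : ℝ) ≠ 0 := by
    exact_mod_cast (Finset.card_pos.2 (Sn_nonempty hn)).ne'
  unfold EU
  rw [Finset.sum_add_distrib, Finset.sum_const, nsmul_eq_mul, smul_add, smul_eq_mul,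
    smul_eq_mul, ← mul_assoc, inv_mul_cancel₀ h, one_mul]

theorem cnt_A (h0 : J0) (h1 : J1) (h4 : J4) (h5 : J5) (hS : KStat) (hF : FMain) (hC : ICnt)
    (hG : ICntG) (E δ ν κ c0 θ : ℝ) (hδ : 0 < δ) (hδ1 : δ < 1) (hν : 0 < ν) (hc0 : 0 < c0)
    (hE : |E| + c0 < 2) (hκ : 0 < κ) (hκ2 : κ ≤ 1 / 2) (hθ : 0 < θ) (hθ4 : θ < δ / 4) :
    ∃ n0 : ℕ, ∀ n : ℕ, n0 ≤ n → Even n → ∀ x : ℝ, |x - E| ≤ c0 / 2 →
      ∫ ω, |(cnt (AA n δ E κ c0 θ ω) x : ℝ) - n * Fsc x| ∂(P3 n) ≤ (n : ℝ) ^ (ν + δ / 2) := by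
  have hc1p : 0 < min (c0 / 2) (1 / 2) := lt_min (by positivity) (by norm_num)
  obtain ⟨nB, hB⟩ := arc_B hF hC (c0 / 2) (ν / 2) (by positivity) (by positivity)
  obtain ⟨nG, hGG⟩ := arc_G h1 hG (c0 / 2) (ν / 2) (by positivity) (by positivity)
  obtain ⟨n4, h4'⟩ := h4 δ (ν / 2) (min (c0 / 2) (1 / 2)) hδ hδ1 (by positivity) hc1p
  obtain ⟨n5, h5'⟩ := loc_A h5 E δ (ν / 2) 2 κ c0 θ hδ hδ1 (by positivity) (by norm_num)
  obtain ⟨n6, hn6, h6⟩ := ev_log_mc (ν / 2) 32 (by positivity)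
  have hev1 := (tendsto_rpow_atTop hθ).eventually_ge_atTop 2
  have hev2 := (tendsto_rpow_atTop (show 0 < δ / 4 - θ by linarith)).eventually_ge_atTop 2
  have hev3 := Filter.eventually_ge_atTop (1 / κ)
  obtain ⟨n7, h7⟩ := Filter.eventually_atTop.1
    ((tendsto_natCast_atTop_atTop (R := ℝ)).eventually (hev1.and (hev2.and hev3)))
  refine ⟨nB + nG + n4 + n5 + n6 + n7, fun n hn he x hx => ?_⟩
  have hn' : 1 < n := by omega
  have hn0 : (0 : ℝ) < n := by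
    have : 0 < n := by omega
    exact_mod_cast this
  have hn1 : (1 : ℝ) ≤ n := by exact_mod_cast hn'.le
  obtain ⟨h7a, h7b, h7c⟩ := h7 n (by omega)
  have hκn : 1 ≤ κ * n := by
    rw [div_le_iff₀ hκ] at h7c
    linarith
  have hn3 : 2 * (n : ℝ) ^ θ ≤ (n : ℝ) ^ (δ / 4) := by
    have : (n : ℝ) ^ (δ / 4) = (n : ℝ) ^ (δ / 4 - θ) * (n : ℝ) ^ θ := by
      rw [← Real.rpow_add hn0]; congr 1; ring
    rw [this]
    exact mul_le_mul_of_nonneg_right h7b (Real.rpow_nonneg hn0.le _)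
  have hE2 : E + c0 ≤ 2 := by linarith [le_abs_self E]
  have hxb : |x| ≤ 2 - c0 / 2 := by
    have : |x| ≤ |x - E| + |E| := by
      have := abs_add_le (x - E) E
      rwa [sub_add_cancel] at this
    linarith
  have hxc1 : |x| ≤ 1 / min (c0 / 2) (1 / 2) := by
    have h2 : min (c0 / 2) (1 / 2) ≤ 1 / 2 := min_le_right _ _
    have h3 : (2 : ℝ) ≤ 1 / min (c0 / 2) (1 / 2) := by
      rw [le_div_iff₀ hc1p]; linarith
    linarith
  have hη : 1 / (n : ℝ) ≤ (n : ℝ) ^ (-(δ / 2)) := by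
    have : 1 / (n : ℝ) = (n : ℝ) ^ (-(1 : ℝ)) := by
      rw [Real.rpow_neg hn0.le, Real.rpow_one, one_div]
    rw [this]
    exact rpow_le_mc hn'.le (by linarith)
  have h4'' := h4' n (by omega) x (1 / (n : ℝ)) (Real.pi * (n * Fsc x - n / 2)) hxc1 le_rfl hη
  set t : ℝ := (n : ℝ) ^ (-δ) with ht
  have ht0 : 0 < t := Real.rpow_pos_of_pos hn0 _
  have hprob2 := P2_prob he
  have hprob3 := P3_prob he
  set T : ℝ := (n : ℝ) ^ (ν / 2) with hT
  set T2 : ℝ := (n : ℝ) ^ (ν / 2 + δ / 2) with hT2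
  have hT1 : 1 ≤ T := Real.one_le_rpow hn1 (by positivity)
  have hTT2 : T ≤ T2 := rpow_le_mc hn'.le (by linarith)
  -- the alpha, beta of the Gaussian divisible matrix
  have hα : 0 ≤ Real.exp (-t / 2) := (Real.exp_pos _).le
  have hβ : 0 ≤ Real.sqrt (1 - Real.exp (-t)) := Real.sqrt_nonneg _
  have hαβ : Real.exp (-t / 2) ^ 2 + Real.sqrt (1 - Real.exp (-t)) ^ 2 = 1 := by
    have h2 : Real.exp (-t) ≤ 1 := Real.exp_le_one_iff.2 (by linarith)
    rw [Real.sq_sqrt (by linarith), ← Real.exp_nat_mul]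
    have : ((2 : ℕ) : ℝ) * (-t / 2) = -t := by push_cast; ring
    rw [this]
    ring
  have hBx := hB n (by omega) he _ _ hα hβ hαβ x hxb
  have hGx := hGG n (by omega) x hxb
  -- first part : the smoothed statistic
  have hstat := stat_mc hS (show 0 < n by omega) ht0 x
  have hgen := gen_mc (Q1 := gm n) (Q2 := gm n) (GY_mc n t x) (GY_meas_mc n t x)
    (GY_nonneg_mc n t x) _ (GY_le_mc n t x)
  have hVm := vecS_AA_meas n δ E κ c0 θ
  have hPsi : ∫ ω, Psi_mc n n x (vecS (AA n δ E κ c0 θ ω)) ∂(P3 n) ≤ 8 * T := by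
    have e1 : ∫ ω, Psi_mc n n x (vecS (AA n δ E κ c0 θ ω)) ∂(P3 n)
        = ∫ p, ∫ X, Psi_mc n n x (vecS (AA n δ E κ c0 θ (p, X))) ∂(gm n) ∂(P2 n) := by
      have hi := Psi_int_mc (P := P3 n) n n x hVm
      unfold P3 at hi ⊢
      exact integral_prod _ hi
    have i0 : Integrable (fun p => ∫ X, Psi_mc n n x (vecS (AA n δ E κ c0 θ (p, X))) ∂(gm n))
        (P2 n) := by
      have hi := Psi_int_mc (P := P3 n) n n x hVm
      unfold P3 at hi
      exact hi.integral_prod_left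
    set A : Pat n → ℝ := fun σ => ∫ X, Psi_mc n (n - 1) x (vecP (Bm (Real.exp (-t / 2))
      (Real.sqrt (1 - Real.exp (-t))) σ X)) ∂(gm n) with hA
    set g : Arr n → ℝ := fun Y => ∫ X, GY_mc n t x (Y, X) ∂(gm n) with hg
    set K : ℝ := Real.pi + (n : ℝ) ^ (ν / 2 - δ / 2) * (n : ℝ) ^ θ + (n : ℝ) ^ (-(5 : ℝ)) with hK
    have i1 : Integrable (fun p : Pat n × Arr n => (A p.1 + K) + g p.2) (P2 n) :=
      integrable_P2 he (fun σ Y => (A σ + K) + g Y)
        (fun σ _ => (integrable_const _).add hgen.2.1)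
    have e2 : ∫ p : Pat n × Arr n, ((A p.1 + K) + g p.2) ∂(P2 n) = EU A + K + ∫ Y, g Y ∂(gm n) := by
      rw [integral_P2 he (fun σ Y => (A σ + K) + g Y)
        (fun σ _ => (integrable_const _).add hgen.2.1)]
      have e3 : ∀ σ : Pat n, ∫ Y, ((A σ + K) + g Y) ∂(gm n)
          = A σ + (K + ∫ Y, g Y ∂(gm n)) := by
        intro σ
        rw [integral_add (integrable_const _) hgen.2.1, integral_const, probReal_univ, one_smul]
        ring
      unfold EJ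
      simp only [e3]
      rw [EU_add_const_mc he]
      ring
    have hEUA : EU A ≤ T := hBx
    have hgT : ∫ Y, g Y ∂(gm n) ≤ T := by
      rw [hstat]
      exact hGx
    have hKT : K ≤ 6 * T := by
      have k1 : (n : ℝ) ^ (ν / 2 - δ / 2) * (n : ℝ) ^ θ ≤ T := by
        rw [← Real.rpow_add hn0]
        exact rpow_le_mc hn'.le (by linarith)
      have k2 : (n : ℝ) ^ (-(5 : ℝ)) ≤ 1 :=
        Real.rpow_le_one_of_one_le_of_nonpos hn1 (by norm_num)
      have k3 := Real.pi_lt_four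
      linarith
    rw [e1]
    calc ∫ p, ∫ X, Psi_mc n n x (vecS (AA n δ E κ c0 θ (p, X))) ∂(gm n) ∂(P2 n)
        ≤ ∫ p : Pat n × Arr n, ((A p.1 + K) + g p.2) ∂(P2 n) := by
          refine integral_mono_ae i0 i1 ?_
          filter_upwards [P2_ae he] with p hp
          exact sec_mc h0 hn' (min (c0 / 2) (1 / 2)) (min_le_left _ _) hx hκn hκ2 hE2 h7a hn3
            h4'' p.1 hp p.2
      _ = EU A + K + ∫ Y, g Y ∂(gm n) := e2
      _ ≤ 8 * T := by linarith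
  -- second part : the local counts
  have hloc : ∀ l < Nat.clog 2 n, ∫ ω, (cntIF (vecS (AA n δ E κ c0 θ ω)) x
      (2 ^ l * (1 / (n : ℝ))) : ℝ) ∂(P3 n) ≤ (2 * T2) * 2 ^ l := by
    intro l _
    have hr1 : 1 / (n : ℝ) ≤ 2 ^ l * (1 / (n : ℝ)) := by
      have : (1 : ℝ) ≤ 2 ^ l := one_le_pow₀ (by norm_num)
      exact le_mul_of_one_le_left (by positivity) this
    have hM : (n : ℝ) ^ (ν / 2 + δ / 2) * (n * (2 ^ l * (1 / (n : ℝ)))) = T2 * 2 ^ l := by
      rw [hT2]; field_simp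
    have hq := h5' n (by omega) he x _ hr1
    simp only [cntI_vecS _ (AA_symm n δ E κ c0 θ _), hM] at hq
    have hm := markov_mc (P := P3 n) ((meas_cntIF_mc x (2 ^ l * (1 / (n : ℝ)))).comp hVm)
      (M := T2 * 2 ^ l) (N := n) (q := (n : ℝ) ^ (-(2 : ℝ))) (by positivity) hn0.le
      (fun ω => Nat.cast_nonneg _) (fun ω => cntIF_le_mc _ _ _) hq
    refine hm.trans ?_
    have k1 : (n : ℝ) * (n : ℝ) ^ (-(2 : ℝ)) ≤ 1 := by
      have : (n : ℝ) * (n : ℝ) ^ (-(2 : ℝ)) = (n : ℝ) ^ (-(1 : ℝ)) := by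
        nth_rewrite 1 [← Real.rpow_one (n : ℝ)]
        rw [← Real.rpow_add hn0]
        norm_num
      rw [this]
      exact Real.rpow_le_one_of_one_le_of_nonpos hn1 (by norm_num)
    have k2 : (1 : ℝ) ≤ 2 ^ l := one_le_pow₀ (by norm_num)
    have k3 : 1 ≤ T2 * 2 ^ l := by nlinarith
    linarith
  -- conclusion
  have i2 : ∀ l, Integrable (fun ω => (cntIF (vecS (AA n δ E κ c0 θ ω)) x
      (2 ^ l * (1 / (n : ℝ))) : ℝ)) (P3 n) := fun l =>
    integ_bd_mc ((meas_cntIF_mc x _).comp hVm) (C := n) (fun ω => by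
      rw [abs_of_nonneg (Nat.cast_nonneg _)]; exact cntIF_le_mc _ _ _)
  have i4 : Integrable (fun ω => ∑ l ∈ Finset.range (Nat.clog 2 n),
      (1 / 2 : ℝ) ^ l * (cntIF (vecS (AA n δ E κ c0 θ ω)) x (2 ^ l * (1 / (n : ℝ))) : ℝ))
      (P3 n) :=
    integrable_finsetSum _ fun l _ => (i2 l).const_mul _
  have i5 : Integrable (fun ω => 4 * ∑ l ∈ Finset.range (Nat.clog 2 n),
      (1 / 2 : ℝ) ^ l * (cntIF (vecS (AA n δ E κ c0 θ ω)) x (2 ^ l * (1 / (n : ℝ))) : ℝ) + 4)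
      (P3 n) := (i4.const_mul 4).add (integrable_const 4)
  have i6 := Psi_int_mc (P := P3 n) n n x hVm
  have hcnt : ∀ ω, (cnt (AA n δ E κ c0 θ ω) x : ℝ) = (cntF (vecS (AA n δ E κ c0 θ ω)) x : ℝ) := by
    intro ω
    rw [cnt_vecS _ (AA_symm n δ E κ c0 θ ω)]
  simp only [hcnt]
  have i7 : Integrable (fun ω => |(cntF (vecS (AA n δ E κ c0 θ ω)) x : ℝ) - n * Fsc x|)
      (P3 n) := by
    refine (Integrable.sub ?_ (integrable_const _)).abs
    exact integ_bd_mc ((meas_cntF_mc x).comp hVm) (C := n) (fun ω => by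
      rw [abs_of_nonneg (Nat.cast_nonneg _)]; exact cntF_le_mc _ _)
  calc ∫ ω, |(cntF (vecS (AA n δ E κ c0 θ ω)) x : ℝ) - n * Fsc x| ∂(P3 n)
      ≤ ∫ ω, (Psi_mc n n x (vecS (AA n δ E κ c0 θ ω))
        + (4 * ∑ l ∈ Finset.range (Nat.clog 2 n), (1 / 2 : ℝ) ^ l
          * (cntIF (vecS (AA n δ E κ c0 θ ω)) x (2 ^ l * (1 / (n : ℝ))) : ℝ) + 4)) ∂(P3 n) :=
        integral_mono i7 (i6.add i5) (fun ω => det2_mc hn' _ x)
    _ = (∫ ω, Psi_mc n n x (vecS (AA n δ E κ c0 θ ω)) ∂(P3 n))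
        + (4 * ∑ l ∈ Finset.range (Nat.clog 2 n), (1 / 2 : ℝ) ^ l
          * (∫ ω, (cntIF (vecS (AA n δ E κ c0 θ ω)) x (2 ^ l * (1 / (n : ℝ))) : ℝ) ∂(P3 n)) + 4) := by
        rw [integral_add i6 i5, integral_add (i4.const_mul 4) (integrable_const 4),
          integral_const_mul, integral_finsetSum _ (fun l _ => (i2 l).const_mul _)]
        simp only [integral_const_mul, integral_const, probReal_univ, smul_eq_mul, one_mul]
    _ ≤ 8 * T + (4 * ((Nat.clog 2 n : ℝ) * (2 * T2)) + 4) := by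
        have h1 : ∑ l ∈ Finset.range (Nat.clog 2 n), (1 / 2 : ℝ) ^ l
            * (∫ ω, (cntIF (vecS (AA n δ E κ c0 θ ω)) x (2 ^ l * (1 / (n : ℝ))) : ℝ) ∂(P3 n))
            ≤ ∑ l ∈ Finset.range (Nat.clog 2 n), (2 * T2) := by
          refine Finset.sum_le_sum fun l hl => ?_
          refine (mul_le_mul_of_nonneg_left (hloc l (Finset.mem_range.1 hl))
            (by positivity)).trans ?_
          have : (1 / 2 : ℝ) ^ l * ((2 * T2) * 2 ^ l) = (2 * T2) * ((1 / 2) ^ l * 2 ^ l) := by ring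
          rw [this, ← mul_pow]
          norm_num
        rw [Finset.sum_const, Finset.card_range, nsmul_eq_mul] at h1
        linarith
    _ ≤ (n : ℝ) ^ (ν + δ / 2) := by
        have e1 := h6 n (by omega)
        have e2 : (n : ℝ) ^ (ν + δ / 2) = T2 * T := by
          rw [hT2, hT, ← Real.rpow_add hn0]; congr 1; ring
        rw [e2]
        have hL0 : (0 : ℝ) ≤ (Nat.clog 2 n : ℝ) := Nat.cast_nonneg _
        have hT20 : 1 ≤ T2 := hT1.trans hTT2
        calc 8 * T + (4 * ((Nat.clog 2 n : ℝ) * (2 * T2)) + 4)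
            ≤ 8 * T2 + (4 * ((Nat.clog 2 n : ℝ) * (2 * T2)) + 4 * T2) := by linarith
          _ = T2 * (12 + 8 * (Nat.clog 2 n : ℝ)) := by ring
          _ ≤ T2 * (32 * ((Nat.clog 2 n : ℝ) + 1)) :=
              mul_le_mul_of_nonneg_left (by linarith) (by positivity)
          _ ≤ T2 * T := mul_le_mul_of_nonneg_left e1 (by positivity)

end Pool.Agent.ZR

end

section

/-!
# ZR/MFin : from `MainFull` to S19275

PROOF.
* `weg_G`: for a nonnegative test function `χ`, `distS (∏ χ) ≤ (linS χ)^k ≤ (sup χ)^k cntI(x, R/n)^k` with `R`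
  such that `χ (n rho x (λ - x)) ≠ 0` implies `|λ - x| ≤ R/n` (`rho ≥ κ` near `E`), and `J1`.
* `main_dist`: fix `k = k'+1`, `F`, `χ` from `tensor_approx` (MTen).  Put `A_n(F) = (1/(2b)) ∫_x EU distS F (n rho x) x
  ((H0 σ).charpoly.roots.erase 0)`, `B_n(F) = (1/(2b)) ∫_x ∫_X distS F (n rho x) x ((Wv ..).charpoly.roots)`.
  For products `F = ∏ φ_j` of test functions `A_n(F) - B_n(F) → 0`: `dist_expand` (MLin), `linS_erase`,
  `linS_roots` (MSp), linearity of the integrals (`window_meas`) and `MainFull`.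
  For general `F` and `e > 0`: `|A_n(F) - ∑_a coef_a A_n(∏ φ_{a,j})| ≤ e A_n(∏ χ)` (`distS_lin`, `distS_mono`),
  the same for `B_n`, and `A_n(∏χ) = B_n(∏χ) + o(1) ≤ C + o(1)`: so
  `limsup |A_n(F) - B_n(F)| ≤ 2 C e` for every `e > 0`.  (All `x`-functions are interval integrable: for
  `A_n` a finite sum of continuous functions of `x`; for `B_n` jointly measurable and bounded: express
  `distS F c y (roots A)` by `∑_{f : Fin k ↪ Fin n} F (fun t => c (evs A (f t) - y))` for symmetric `A`: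
  lemma `distS_vecS`, from `roots_eq` (Sp1) and an equivalence `Fin s.toList.length ≃ Fin n` matching
  the two enumerations of the same multiset.)
* `s19275`: unfold: with `ρ = rho`, `T n x s = distS F (n * rho x) x s`, `S n x = EU ..` (`Sn`, `H0` are the
  objects of the statement: `(if σ i j then 1 else -1)/√n = (H0 σ) i j`), `SG n x = ∫_X ..` with
  `(X (i,j) + X (j,i))/√(2n) = Wv (1/n) X i j`.
-/


open MeasureTheory ProbabilityTheory Matrix

namespace Pool.Agent.ZR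

private theorem sp4_roots' {N : ℕ} (A : Matrix (Fin N) (Fin N) ℝ) (hA : A.IsSymm) :
    A.charpoly.roots = (Finset.univ : Finset (Fin N)).val.map (fun i : Fin N => evs A (i : ℕ)) := by
  rw [roots_eq A hA]
  simp only [Multiset.bind_def, Multiset.pure_def, Multiset.bind_singleton, Multiset.map_map]
  rfl

/-- two finite families of reals with the same multiset of values differ by a bijection -/
private theorem fin_equiv {ι κ : Type} [Fintype ι] [Fintype κ] (f : ι → ℝ) (g : κ → ℝ)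
    (h : (Finset.univ : Finset ι).val.map f = (Finset.univ : Finset κ).val.map g) :
    ∃ e : ι ≃ κ, ∀ i, g (e i) = f i := by
  classical
  have hc : ∀ c : ℝ, Fintype.card {a // f a = c} = Fintype.card {b // g b = c} := by
    intro c
    have h1 := congrArg (Multiset.countP (fun x => x = c)) h
    rw [Multiset.countP_map, Multiset.countP_map] at h1
    rw [Fintype.card_subtype, Fintype.card_subtype]
    exact h1
  refine ⟨Equiv.ofFiberEquiv (f := f) (g := g) (fun c => Fintype.equivOfCardEq (hc c)), ?_⟩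
  intro i
  exact Equiv.ofFiberEquiv_map _ i

/-- `distS` of a family -/
theorem distS_vecS {k N : ℕ} (F : (Fin k → ℝ) → ℝ) (c y : ℝ) (A : Matrix (Fin N) (Fin N) ℝ)
    (hA : A.IsSymm) :
    distS F c y A.charpoly.roots = ∑ f : Fin k ↪ Fin N, F (fun t => c * (evs A (f t) - y)) := by
  have h0 : (Finset.univ : Finset (Fin A.charpoly.roots.toList.length)).val.map
      (fun i => A.charpoly.roots.toList.get i)
      = (Finset.univ : Finset (Fin N)).val.map (fun i : Fin N => evs A i) := by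
    rw [← sp4_roots' A hA]
    have h1 : ((List.ofFn fun i => A.charpoly.roots.toList.get i : List ℝ) : Multiset ℝ)
        = A.charpoly.roots := by
      rw [List.ofFn_get, Multiset.coe_toList]
    refine Eq.trans ?_ h1
    rw [List.ofFn_eq_map, ← Multiset.map_coe]
    rfl
  obtain ⟨e, he⟩ := fin_equiv _ _ h0
  unfold distS
  refine Fintype.sum_equiv (Equiv.embeddingCongr (Equiv.refl (Fin k)) e) _ _ ?_
  intro f
  congr 1
  funext t
  have h2 : (Equiv.embeddingCongr (Equiv.refl (Fin k)) e f) t = e (f t) := rfl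
  rw [h2, he]

/-- continuous bounded functions -/
private def Nice {k : ℕ} (G : (Fin k → ℝ) → ℝ) : Prop := Continuous G ∧ ∃ M : ℝ, ∀ v, |G v| ≤ M

private theorem nice_of_cs {k : ℕ} {F : (Fin k → ℝ) → ℝ} (hF : Continuous F)
    (hc : HasCompactSupport F) : Nice F := by
  refine ⟨hF, ?_⟩
  obtain ⟨M, hM⟩ := hc.exists_bound_of_continuous hF
  exact ⟨M, fun v => by simpa [Real.norm_eq_abs] using hM v⟩

private theorem nice_prod {k : ℕ} {φ : Fin k → ℝ → ℝ} (hφ : ∀ j, Tst (φ j)) :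
    Nice (fun v : Fin k → ℝ => ∏ j, φ j (v j)) := by
  refine ⟨?_, ?_⟩
  · exact continuous_finsetProd _ fun j _ => (hφ j).1.continuous.comp (continuous_apply j)
  · have h : ∀ j, ∃ M : ℝ, 0 ≤ M ∧ ∀ u, |φ j u| ≤ M := by
      intro j
      obtain ⟨M, R, L, hM, _, _, h1, _, _⟩ := tst_data (hφ j)
      exact ⟨M, hM, h1⟩
    choose M hM0 hM using h
    refine ⟨∏ j, M j, fun v => ?_⟩
    rw [Finset.abs_prod]
    exact Finset.prod_le_prod (fun j _ => abs_nonneg _) fun j _ => hM j _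

private theorem nice_lin {k N : ℕ} (coef : Fin N → ℝ) {G : Fin N → (Fin k → ℝ) → ℝ}
    (hG : ∀ a, Nice (G a)) : Nice (fun v => ∑ a, coef a * G a v) := by
  refine ⟨continuous_finsetSum _ fun a _ => continuous_const.mul (hG a).1, ?_⟩
  have h : ∀ a, ∃ M : ℝ, ∀ v, |G a v| ≤ M := fun a => (hG a).2
  choose M hM using h
  refine ⟨∑ a, |coef a| * M a, fun v => ?_⟩
  refine (Finset.abs_sum_le_sum_abs _ _).trans (Finset.sum_le_sum fun a _ => ?_)
  rw [abs_mul]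
  exact mul_le_mul_of_nonneg_left (hM a v) (abs_nonneg _)

/-- positive linear functionals -/
private structure PosLin {k : ℕ} (Λ : ((Fin k → ℝ) → ℝ) → ℝ) : Prop where
  mono : ∀ F G, Nice F → Nice G → (∀ v, F v ≤ G v) → Λ F ≤ Λ G
  lin : ∀ (N : ℕ) (coef : Fin N → ℝ) (G : Fin N → (Fin k → ℝ) → ℝ), (∀ a, Nice (G a)) →
    Λ (fun v => ∑ a, coef a * G a v) = ∑ a, coef a * Λ (G a)

private theorem PosLin.approx {k : ℕ} {Λ : ((Fin k → ℝ) → ℝ) → ℝ} (h : PosLin Λ)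
    {F H : (Fin k → ℝ) → ℝ} (hF : Nice F) (hH : Nice H) {N : ℕ} (coef : Fin N → ℝ)
    (G : Fin N → (Fin k → ℝ) → ℝ) (hG : ∀ a, Nice (G a)) (e : ℝ)
    (hb : ∀ v, |F v - ∑ a, coef a * G a v| ≤ e * H v) :
    |Λ F - ∑ a, coef a * Λ (G a)| ≤ e * Λ H := by
  have key : ∀ d : ℝ, Λ (fun v => ∑ a : Fin (N + 1), (Fin.cons d coef : Fin (N + 1) → ℝ) a *
      (Fin.cons H G : Fin (N + 1) → (Fin k → ℝ) → ℝ) a v)
      = d * Λ H + ∑ a, coef a * Λ (G a) := by
    intro d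
    rw [h.lin (N + 1) _ _ (fun a => by
      refine Fin.cases ?_ (fun i => ?_) a
      · exact hH
      · exact hG i), Fin.sum_univ_succ]
    simp
  have hn : ∀ d : ℝ, Nice (fun v => ∑ a : Fin (N + 1), (Fin.cons d coef : Fin (N + 1) → ℝ) a *
      (Fin.cons H G : Fin (N + 1) → (Fin k → ℝ) → ℝ) a v) := by
    intro d
    exact nice_lin _ (fun a => by
      refine Fin.cases ?_ (fun i => ?_) a
      · exact hH
      · exact hG i)
  have hv : ∀ (d : ℝ) v, (∑ a : Fin (N + 1), (Fin.cons d coef : Fin (N + 1) → ℝ) a *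
      (Fin.cons H G : Fin (N + 1) → (Fin k → ℝ) → ℝ) a v) = d * H v + ∑ a, coef a * G a v := by
    intro d v
    rw [Fin.sum_univ_succ]
    simp
  have h1 := h.mono F _ hF (hn e) (fun v => by
    rw [hv]
    have := (abs_le.1 (hb v)).2
    linarith)
  have h2 := h.mono _ F (hn (-e)) hF (fun v => by
    rw [hv]
    have := (abs_le.1 (hb v)).1
    linarith)
  rw [key] at h1 h2
  rw [abs_le]
  constructor
  · linarith
  · linarith

private theorem distS_cont {k : ℕ} {G : (Fin k → ℝ) → ℝ} (hG : Continuous G) (n : ℕ)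
    (s : Multiset ℝ) : Continuous (fun x : ℝ => distS G ((n : ℝ) * rho x) x s) := by
  unfold distS
  refine continuous_finsetSum _ fun f _ => hG.comp ?_
  refine continuous_pi fun t => ?_
  exact (continuous_const.mul rho_cont).mul (continuous_const.sub continuous_id)

private theorem EU_cont {n : ℕ} (f : Pat n → ℝ → ℝ) (hf : ∀ σ, Continuous (f σ)) :
    Continuous (fun x => EU (fun σ : Pat n => f σ x)) := by
  unfold EU
  simp only [smul_eq_mul]
  exact continuous_const.mul (continuous_finsetSum _ fun σ _ => hf σ)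

private theorem EU_lin {n N : ℕ} (coef : Fin N → ℝ) (f : Fin N → Pat n → ℝ) :
    EU (fun σ : Pat n => ∑ a, coef a * f a σ) = ∑ a, coef a * EU (f a) := by
  unfold EU
  simp only [smul_eq_mul]
  rw [Finset.sum_comm, Finset.mul_sum]
  refine Finset.sum_congr rfl fun a _ => ?_
  rw [← Finset.mul_sum]
  ring

/-- functional of the sign matrices -/
private noncomputable def LA {k : ℕ} (n : ℕ) (E b : ℝ) (G : (Fin k → ℝ) → ℝ) : ℝ :=
  (1 / (2 * b)) * ∫ x in (E - b)..(E + b),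
    EU (fun σ : Pat n => distS G ((n : ℝ) * rho x) x ((H0 σ).charpoly.roots.erase 0))

private theorem posLin_A {k : ℕ} (n : ℕ) (E b : ℝ) (hb : 0 ≤ b) :
    PosLin (LA (k := k) n E b) := by
  have hc : ∀ G : (Fin k → ℝ) → ℝ, Nice G → Continuous (fun x : ℝ =>
      EU (fun σ : Pat n => distS G ((n : ℝ) * rho x) x ((H0 σ).charpoly.roots.erase 0))) :=
    fun G hG => EU_cont (fun σ x => distS G ((n : ℝ) * rho x) x
      ((H0 σ).charpoly.roots.erase 0)) fun σ => distS_cont hG.1 n _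
  constructor
  · intro F G hF hG h
    unfold LA
    refine mul_le_mul_of_nonneg_left ?_ (by positivity)
    refine intervalIntegral.integral_mono_on (by linarith)
      ((hc F hF).intervalIntegrable _ _) ((hc G hG).intervalIntegrable _ _) fun x _ => ?_
    exact EU_mono fun σ _ => distS_mono h _ _ _
  · intro N coef G hG
    unfold LA
    have h1 : ∀ x : ℝ, EU (fun σ : Pat n => distS (fun v => ∑ a, coef a * G a v)
        ((n : ℝ) * rho x) x ((H0 σ).charpoly.roots.erase 0))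
        = ∑ a, coef a * EU (fun σ : Pat n => distS (G a)
        ((n : ℝ) * rho x) x ((H0 σ).charpoly.roots.erase 0)) := by
      intro x
      rw [← EU_lin]
      congr 1
      funext σ
      exact distS_lin coef G _ _ _
    simp only [h1]
    rw [intervalIntegral.integral_finsetSum (fun a _ =>
      ((hc (G a) (hG a)).const_mul _).intervalIntegrable _ _), Finset.mul_sum]
    refine Finset.sum_congr rfl fun a _ => ?_
    rw [intervalIntegral.integral_const_mul]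
    ring

private theorem Wv_ent {n : ℕ} (v : ℝ) (k l : Fin n) :
    Measurable (fun X : Arr n => Wv v X k l) := by
  unfold Wv
  simp only [Matrix.of_apply]
  fun_prop

private theorem distW_meas {k : ℕ} {G : (Fin k → ℝ) → ℝ} (hG : Nice G) (n : ℕ) (c y : ℝ) :
    Measurable (fun X : Arr n => distS G c y (Wv (N := n) (1 / (n : ℝ)) X).charpoly.roots) := by
  simp only [fun X : Arr n => distS_vecS G c y (Wv (N := n) (1 / (n : ℝ)) X) (Wv_symm _ X)]
  refine Finset.measurable_sum _ fun f _ => hG.1.measurable.comp ?_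
  refine measurable_pi_lambda _ fun t => ?_
  refine Measurable.const_mul (Measurable.sub_const ?_ _) _
  exact measurable_evs _ (fun k l => Wv_ent _ k l) (fun X => Wv_symm _ X) _

private theorem distW_bd {k : ℕ} {G : (Fin k → ℝ) → ℝ} (hG : Nice G) (n : ℕ) :
    ∃ M : ℝ, ∀ (c y : ℝ) (X : Arr n),
      ‖distS G c y (Wv (N := n) (1 / (n : ℝ)) X).charpoly.roots‖ ≤ M := by
  obtain ⟨M, hM⟩ := hG.2
  refine ⟨∑ _f : Fin k ↪ Fin n, M, fun c y X => ?_⟩
  rw [distS_vecS G c y (Wv (N := n) (1 / (n : ℝ)) X) (Wv_symm _ X)]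
  refine (norm_sum_le _ _).trans (Finset.sum_le_sum fun f _ => ?_)
  rw [Real.norm_eq_abs]
  exact hM _

private theorem distW_int {k : ℕ} {G : (Fin k → ℝ) → ℝ} (hG : Nice G) (n : ℕ) (c y : ℝ) :
    Integrable (fun X : Arr n => distS G c y (Wv (N := n) (1 / (n : ℝ)) X).charpoly.roots)
      (gm n) := by
  obtain ⟨M, hM⟩ := distW_bd hG n
  have : IsProbabilityMeasure (gm n) := by unfold gm; infer_instance
  exact Integrable.of_bound (distW_meas hG n c y).aestronglyMeasurable M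
    (Filter.Eventually.of_forall fun X => hM c y X)

private theorem distW_cont {k : ℕ} {G : (Fin k → ℝ) → ℝ} (hG : Nice G) (n : ℕ) :
    Continuous (fun x : ℝ => ∫ X, distS G ((n : ℝ) * rho x) x
      (Wv (N := n) (1 / (n : ℝ)) X).charpoly.roots ∂(gm n)) := by
  obtain ⟨M, hM⟩ := distW_bd hG n
  have : IsProbabilityMeasure (gm n) := by unfold gm; infer_instance
  refine MeasureTheory.continuous_of_dominated (bound := fun _ => M)
    (fun x => (distW_meas hG n _ _).aestronglyMeasurable)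
    (fun x => Filter.Eventually.of_forall fun X => hM _ _ X) (integrable_const _)
    (Filter.Eventually.of_forall fun X => distS_cont hG.1 n _)

/-- functional of the GOE -/
private noncomputable def LB {k : ℕ} (n : ℕ) (E b : ℝ) (G : (Fin k → ℝ) → ℝ) : ℝ :=
  (1 / (2 * b)) * ∫ x in (E - b)..(E + b),
    ∫ X, distS G ((n : ℝ) * rho x) x (Wv (N := n) (1 / (n : ℝ)) X).charpoly.roots ∂(gm n)

private theorem posLin_B {k : ℕ} (n : ℕ) (E b : ℝ) (hb : 0 ≤ b) :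
    PosLin (LB (k := k) n E b) := by
  constructor
  · intro F G hF hG h
    unfold LB
    refine mul_le_mul_of_nonneg_left ?_ (by positivity)
    refine intervalIntegral.integral_mono_on (by linarith)
      ((distW_cont hF n).intervalIntegrable _ _) ((distW_cont hG n).intervalIntegrable _ _)
      fun x _ => ?_
    exact integral_mono (distW_int hF n _ _) (distW_int hG n _ _) fun X => distS_mono h _ _ _
  · intro N coef G hG
    unfold LB
    have h1 : ∀ x : ℝ, ∫ X, distS (fun v => ∑ a, coef a * G a v)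
        ((n : ℝ) * rho x) x (Wv (N := n) (1 / (n : ℝ)) X).charpoly.roots ∂(gm n)
        = ∑ a, coef a * ∫ X, distS (G a)
        ((n : ℝ) * rho x) x (Wv (N := n) (1 / (n : ℝ)) X).charpoly.roots ∂(gm n) := by
      intro x
      simp only [distS_lin coef G]
      rw [integral_finsetSum _ (fun a _ => (distW_int (hG a) n _ _).const_mul _)]
      exact Finset.sum_congr rfl fun a _ => integral_const_mul _ _
    simp only [h1]
    rw [intervalIntegral.integral_finsetSum (fun a _ =>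
      ((distW_cont (hG a) n).const_mul _).intervalIntegrable _ _), Finset.mul_sum]
    refine Finset.sum_congr rfl fun a _ => ?_
    rw [intervalIntegral.integral_const_mul]
    ring

/-- convergence for products of test functions -/
private theorem conv_prod (hM : MainFull) (k : ℕ) (φ : Fin (k + 1) → ℝ → ℝ)
    (hφ : ∀ j, Tst (φ j)) (E ε : ℝ) (hE1 : -2 < E) (hE2 : E < 2) (hε : 0 < ε) (hε1 : ε < 1) :
    Filter.Tendsto (fun m : ℕ =>
      LA (2 * m) E (((2 * m : ℕ) : ℝ) ^ (-1 + ε)) (fun v : Fin (k + 1) → ℝ => ∏ t, φ t (v t))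
      - LB (2 * m) E (((2 * m : ℕ) : ℝ) ^ (-1 + ε)) (fun v : Fin (k + 1) → ℝ => ∏ t, φ t (v t)))
      Filter.atTop (nhds 0) := by
  obtain ⟨N, coef, r, ψ, hψ, hex⟩ := dist_expand φ hφ
  have hA : ∀ (n : ℕ) (b : ℝ), 0 < n →
      LA n E b (fun v : Fin (k + 1) → ℝ => ∏ t, φ t (v t))
        = ∑ a, coef a * QH n (ψ a) E b := by
    intro n b hn
    unfold LA QH
    have h1 : ∀ x : ℝ, EU (fun σ : Pat n => distS (fun v : Fin (k + 1) → ℝ => ∏ t, φ t (v t))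
        ((n : ℝ) * rho x) x ((H0 σ).charpoly.roots.erase 0))
        = ∑ a, coef a * EU (fun σ : Pat n =>
          ∏ j, linF (vecP (H0 σ)) (ψ a j) ((n : ℝ) * rho x) x) := by
      intro x
      rw [← EU_lin]
      unfold EU
      congr 1
      refine Finset.sum_congr rfl fun σ hσ => ?_
      beta_reduce
      rw [hex]
      refine Finset.sum_congr rfl fun a _ => ?_
      congr 1
      refine Finset.prod_congr rfl fun j _ => ?_
      exact linS_erase _ (H0_symm hσ) (zero_mem_H0 hn hσ) _ _ _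
    simp only [h1]
    have hc : ∀ a, Continuous (fun x : ℝ => EU (fun σ : Pat n =>
          ∏ j, linF (vecP (H0 σ)) (ψ a j) ((n : ℝ) * rho x) x)) := by
      intro a
      refine EU_cont (fun σ x => ∏ j, linF (vecP (H0 σ)) (ψ a j) ((n : ℝ) * rho x) x)
        fun σ => continuous_finsetProd _ fun j _ => ?_
      unfold linF
      refine continuous_finsetSum _ fun i _ => (hψ a j).1.continuous.comp ?_
      exact (continuous_const.mul rho_cont).mul (continuous_const.sub continuous_id)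
    rw [intervalIntegral.integral_finsetSum (fun a _ =>
      ((hc a).const_mul _).intervalIntegrable _ _), Finset.mul_sum]
    refine Finset.sum_congr rfl fun a _ => ?_
    rw [intervalIntegral.integral_const_mul]
    ring
  have hB : ∀ (n : ℕ) (b : ℝ),
      LB n E b (fun v : Fin (k + 1) → ℝ => ∏ t, φ t (v t))
        = ∑ a, coef a * QG n (ψ a) E b := by
    intro n b
    have : IsProbabilityMeasure (gm n) := by unfold gm; infer_instance
    unfold LB QG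
    have hm : ∀ a (c y : ℝ), Measurable (fun X : Arr n =>
        ∏ j, linF (vecS (Wv (N := n) (1 / (n : ℝ)) X)) (ψ a j) c y) := by
      intro a c y
      refine Finset.measurable_prod _ fun j _ => ?_
      unfold linF
      refine Finset.measurable_sum _ fun i _ => (hψ a j).1.continuous.measurable.comp ?_
      refine Measurable.const_mul (Measurable.sub_const ?_ _) _
      exact (measurable_pi_apply i).comp (vecS_Wv_meas (N := n) (1 / (n : ℝ)))
    have hbd : ∀ a, ∃ M : ℝ, ∀ (c y : ℝ) (X : Arr n),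
        ‖∏ j, linF (vecS (Wv (N := n) (1 / (n : ℝ)) X)) (ψ a j) c y‖ ≤ M := by
      intro a
      have h : ∀ j, ∃ M : ℝ, 0 ≤ M ∧ ∀ u, |ψ a j u| ≤ M := by
        intro j
        obtain ⟨M, R, L, hM, _, _, h1, _, _⟩ := tst_data (hψ a j)
        exact ⟨M, hM, h1⟩
      choose M hM0 hM using h
      refine ⟨∏ j, ∑ _i : Fin n, M j, fun c y X => ?_⟩
      rw [norm_prod]
      refine Finset.prod_le_prod (fun j _ => norm_nonneg _) fun j _ => ?_
      unfold linF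
      refine (norm_sum_le _ _).trans (Finset.sum_le_sum fun i _ => ?_)
      rw [Real.norm_eq_abs]
      exact hM j _
    have hi : ∀ a (c y : ℝ), Integrable (fun X : Arr n =>
        ∏ j, linF (vecS (Wv (N := n) (1 / (n : ℝ)) X)) (ψ a j) c y) (gm n) := by
      intro a c y
      obtain ⟨M, hM⟩ := hbd a
      exact Integrable.of_bound (hm a c y).aestronglyMeasurable M
        (Filter.Eventually.of_forall fun X => hM c y X)
    have hc : ∀ a, Continuous (fun x : ℝ => ∫ X : Arr n,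
        ∏ j, linF (vecS (Wv (N := n) (1 / (n : ℝ)) X)) (ψ a j) ((n : ℝ) * rho x) x ∂(gm n)) := by
      intro a
      obtain ⟨M, hM⟩ := hbd a
      refine MeasureTheory.continuous_of_dominated (bound := fun _ => M)
        (fun x => (hm a _ _).aestronglyMeasurable)
        (fun x => Filter.Eventually.of_forall fun X => hM _ _ X) (integrable_const _)
        (Filter.Eventually.of_forall fun X => ?_)
      refine continuous_finsetProd _ fun j _ => ?_
      unfold linF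
      refine continuous_finsetSum _ fun i _ => (hψ a j).1.continuous.comp ?_
      exact (continuous_const.mul rho_cont).mul (continuous_const.sub continuous_id)
    have h1 : ∀ x : ℝ, ∫ X, distS (fun v : Fin (k + 1) → ℝ => ∏ t, φ t (v t))
        ((n : ℝ) * rho x) x (Wv (N := n) (1 / (n : ℝ)) X).charpoly.roots ∂(gm n)
        = ∑ a, coef a * ∫ X, ∏ j, linF (vecS (Wv (N := n) (1 / (n : ℝ)) X)) (ψ a j)
            ((n : ℝ) * rho x) x ∂(gm n) := by
      intro x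
      simp only [hex]
      have h2 : ∀ X : Arr n, ∑ a, coef a * ∏ j, linS (Wv (N := n) (1 / (n : ℝ)) X).charpoly.roots
          (ψ a j) ((n : ℝ) * rho x) x
          = ∑ a, coef a * ∏ j, linF (vecS (Wv (N := n) (1 / (n : ℝ)) X)) (ψ a j)
            ((n : ℝ) * rho x) x := by
        intro X
        refine Finset.sum_congr rfl fun a _ => ?_
        congr 1
        refine Finset.prod_congr rfl fun j _ => ?_
        exact linS_roots _ (Wv_symm _ X) _ _ _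
      simp only [h2]
      rw [integral_finsetSum _ (fun a _ => (hi a _ _).const_mul _)]
      exact Finset.sum_congr rfl fun a _ => integral_const_mul _ _
    simp only [h1]
    rw [intervalIntegral.integral_finsetSum (fun a _ =>
      ((hc a).const_mul _).intervalIntegrable _ _), Finset.mul_sum]
    refine Finset.sum_congr rfl fun a _ => ?_
    rw [intervalIntegral.integral_const_mul]
    ring
  have h3 : Filter.Tendsto (fun m : ℕ => ∑ a, coef a *
      (QH (2 * m) (ψ a) E (((2 * m : ℕ) : ℝ) ^ (-1 + ε))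
      - QG (2 * m) (ψ a) E (((2 * m : ℕ) : ℝ) ^ (-1 + ε)))) Filter.atTop (nhds 0) := by
    have h4 : Filter.Tendsto (fun m : ℕ => ∑ a, coef a *
      (QH (2 * m) (ψ a) E (((2 * m : ℕ) : ℝ) ^ (-1 + ε))
      - QG (2 * m) (ψ a) E (((2 * m : ℕ) : ℝ) ^ (-1 + ε)))) Filter.atTop
        (nhds (∑ a, coef a * 0)) :=
      tendsto_finsetSum _ fun a _ =>
        (hM (r a) (ψ a) (hψ a) E ε hE1 hE2 hε hε1).const_mul (coef a)
    simpa using h4
  refine h3.congr' ?_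
  filter_upwards [Filter.eventually_gt_atTop 0] with m hm
  rw [hA (2 * m) _ (by omega), hB (2 * m) _, ← Finset.sum_sub_distrib]
  exact Finset.sum_congr rfl fun a _ => by ring

/-- Wegner bound for the window average of the GOE -/
theorem weg_G (h1 : J1) (k : ℕ) (χ : ℝ → ℝ) (hχ : Tst χ) (h0 : ∀ u, 0 ≤ χ u) (E ε : ℝ)
    (hE1 : -2 < E) (hE2 : E < 2) (hε : 0 < ε) (hε1 : ε < 1) :
    ∃ C : ℝ, ∃ n0 : ℕ, ∀ n : ℕ, n0 ≤ n →
      (1 / (2 * (n : ℝ) ^ (-1 + ε))) *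
        ∫ x in (E - (n : ℝ) ^ (-1 + ε))..(E + (n : ℝ) ^ (-1 + ε)),
          ∫ X, distS (fun v : Fin k → ℝ => ∏ t, χ (v t)) ((n : ℝ) * rho x) x
            (Wv (N := n) (1 / (n : ℝ)) X).charpoly.roots ∂(gm n) ≤ C := by
  obtain ⟨M, R, L, hM, hR, hL, hχM, hχR, _⟩ := tst_data hχ
  obtain ⟨κ, c1, hκ, hc1, hrho⟩ := rho_lb hE1 hE2
  obtain ⟨C, hC⟩ := h1 k (R / κ) (by positivity)
  have hlim : Filter.Tendsto (fun n : ℕ => (n : ℝ) ^ (-1 + ε)) Filter.atTop (nhds 0) := by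
    have h2 : (fun n : ℕ => (n : ℝ) ^ (-1 + ε)) = fun n : ℕ => (n : ℝ) ^ (-(1 - ε)) := by
      funext n; congr 1; ring
    rw [h2]
    exact (tendsto_rpow_neg_atTop (by linarith)).comp tendsto_natCast_atTop_atTop
  have hev := (hlim.eventually (gt_mem_nhds hc1)).and (Filter.eventually_gt_atTop 0)
  obtain ⟨n0, hn0⟩ := Filter.eventually_atTop.1 hev
  refine ⟨M ^ k * C, n0, fun n hn => ?_⟩
  obtain ⟨hb1, hn1⟩ := hn0 n hn
  have hn1' : (0 : ℝ) < n := by exact_mod_cast hn1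
  set b : ℝ := (n : ℝ) ^ (-1 + ε) with hb
  have hb0 : 0 < b := Real.rpow_pos_of_pos hn1' _
  have hprob : IsProbabilityMeasure (gm n) := by unfold gm; infer_instance
  have hnice : Nice (fun v : Fin k → ℝ => ∏ t, χ (v t)) := nice_prod (fun _ => hχ)
  have hpt : ∀ x ∈ Set.Icc (E - b) (E + b), ∫ X, distS (fun v : Fin k → ℝ => ∏ t, χ (v t))
      ((n : ℝ) * rho x) x (Wv (N := n) (1 / (n : ℝ)) X).charpoly.roots ∂(gm n)
      ≤ M ^ k * C := by
    intro x hx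
    have hx1 : |x - E| ≤ c1 := by
      rw [abs_le]; constructor <;> linarith [hx.1, hx.2]
    have hκx := hrho x hx1
    have hlin : ∀ X : Arr n, distS (fun v : Fin k → ℝ => ∏ t, χ (v t))
        ((n : ℝ) * rho x) x (Wv (N := n) (1 / (n : ℝ)) X).charpoly.roots
        ≤ M ^ k * (cntI (Wv (N := n) (1 / (n : ℝ)) X) x ((R / κ) / n) : ℝ) ^ k := by
      intro X
      refine (distS_le_prod χ h0 _ _ _).trans ?_
      rw [← mul_pow]
      have h5 : linS (Wv (N := n) (1 / (n : ℝ)) X).charpoly.roots χ ((n : ℝ) * rho x) x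
          = ∑ i : Fin n, χ ((n : ℝ) * rho x * (evs (Wv (N := n) (1 / (n : ℝ)) X) i - x)) := by
        rw [linS_roots _ (Wv_symm _ X)]
        rfl
      refine pow_le_pow_left₀ ?_ ?_ k
      · rw [h5]
        exact Finset.sum_nonneg fun i _ => h0 _
      · rw [h5, cntI_eq _ (Wv_symm _ X)]
        classical
        have h6 : ∑ i : Fin n, χ ((n : ℝ) * rho x * (evs (Wv (N := n) (1 / (n : ℝ)) X) i - x))
            ≤ ∑ i : Fin n, if |evs (Wv (N := n) (1 / (n : ℝ)) X) i - x| ≤ (R / κ) / n then M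
              else 0 := by
          refine Finset.sum_le_sum fun i _ => ?_
          split_ifs with h7
          · exact (le_abs_self _).trans (hχM _)
          · rw [hχR]
            rw [abs_mul, abs_of_nonneg (by have := rho_nonneg x; positivity)]
            push Not at h7
            rw [div_div, div_lt_iff₀ (by positivity)] at h7
            have h8 : |evs (Wv (N := n) (1 / (n : ℝ)) X) i - x| * (κ * n)
                ≤ |evs (Wv (N := n) (1 / (n : ℝ)) X) i - x| * (rho x * n) :=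
              mul_le_mul_of_nonneg_left (mul_le_mul_of_nonneg_right hκx hn1'.le) (abs_nonneg _)
            linarith
        refine h6.trans (le_of_eq ?_)
        rw [← Finset.sum_filter, Finset.sum_const, nsmul_eq_mul, mul_comm]
    have hci : Integrable (fun X : Arr n => M ^ k *
        (cntI (Wv (N := n) (1 / (n : ℝ)) X) x ((R / κ) / n) : ℝ) ^ k) (gm n) := by
      refine Integrable.const_mul ?_ _
      refine Integrable.of_bound (C := (n : ℝ) ^ k) ?_ (Filter.Eventually.of_forall fun X => ?_)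
      · refine Measurable.aestronglyMeasurable ?_
        refine Measurable.pow_const ?_ _
        exact measurable_from_nat.comp (measurable_cntI _ (fun k l => Wv_ent _ k l)
          (fun X => Wv_symm _ X) _ _)
      · rw [norm_pow, Real.norm_eq_abs, Nat.abs_cast]
        refine pow_le_pow_left₀ (Nat.cast_nonneg _) ?_ k
        rw [cntI_eq _ (Wv_symm _ X)]
        have h9 := Finset.card_filter_le (Finset.univ : Finset (Fin n))
          (fun i : Fin n => |evs (Wv (N := n) (1 / (n : ℝ)) X) i - x| ≤ (R / κ) / n)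
        rw [Finset.card_univ, Fintype.card_fin] at h9
        exact_mod_cast h9
    calc ∫ X, distS (fun v : Fin k → ℝ => ∏ t, χ (v t))
            ((n : ℝ) * rho x) x (Wv (N := n) (1 / (n : ℝ)) X).charpoly.roots ∂(gm n)
        ≤ ∫ X, M ^ k * (cntI (Wv (N := n) (1 / (n : ℝ)) X) x ((R / κ) / n) : ℝ) ^ k ∂(gm n) :=
          integral_mono (distW_int hnice n _ _) hci hlin
      _ = M ^ k * ∫ X, (cntI (Wv (N := n) (1 / (n : ℝ)) X) x ((R / κ) / n) : ℝ) ^ k ∂(gm n) :=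
          integral_const_mul _ _
      _ ≤ M ^ k * C := mul_le_mul_of_nonneg_left (hC n hn1 x) (by positivity)
  have hint : ∫ x in (E - b)..(E + b), ∫ X, distS (fun v : Fin k → ℝ => ∏ t, χ (v t))
      ((n : ℝ) * rho x) x (Wv (N := n) (1 / (n : ℝ)) X).charpoly.roots ∂(gm n)
      ≤ ∫ _x in (E - b)..(E + b), M ^ k * C := by
    refine intervalIntegral.integral_mono_on (by linarith)
      ((distW_cont hnice n).intervalIntegrable _ _) intervalIntegrable_const hpt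
  rw [intervalIntegral.integral_const, smul_eq_mul] at hint
  calc (1 / (2 * b)) * ∫ x in (E - b)..(E + b), ∫ X, distS (fun v : Fin k → ℝ => ∏ t, χ (v t))
          ((n : ℝ) * rho x) x (Wv (N := n) (1 / (n : ℝ)) X).charpoly.roots ∂(gm n)
      ≤ (1 / (2 * b)) * ((E + b - (E - b)) * (M ^ k * C)) :=
        mul_le_mul_of_nonneg_left hint (by positivity)
    _ = M ^ k * C := by
        have : E + b - (E - b) = 2 * b := by ring
        rw [this]
        field_simp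

theorem main_dist (h1 : J1) (hM : MainFull) (k : ℕ) (F : (Fin (k + 1) → ℝ) → ℝ)
    (hF : Continuous F) (hc : HasCompactSupport F) (E ε : ℝ) (hE1 : -2 < E) (hE2 : E < 2)
    (hε : 0 < ε) (hε1 : ε < 1) :
    Filter.Tendsto (fun m : ℕ =>
      (1 / (2 * ((2 * m : ℕ) : ℝ) ^ (-1 + ε))) *
        (∫ x in (E - ((2 * m : ℕ) : ℝ) ^ (-1 + ε))..(E + ((2 * m : ℕ) : ℝ) ^ (-1 + ε)),
          EU (fun σ : Pat (2 * m) => distS F (((2 * m : ℕ) : ℝ) * rho x) x
            ((H0 σ).charpoly.roots.erase 0)))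
      - (1 / (2 * ((2 * m : ℕ) : ℝ) ^ (-1 + ε))) *
        (∫ x in (E - ((2 * m : ℕ) : ℝ) ^ (-1 + ε))..(E + ((2 * m : ℕ) : ℝ) ^ (-1 + ε)),
          ∫ X, distS F (((2 * m : ℕ) : ℝ) * rho x) x
            (Wv (N := 2 * m) (1 / ((2 * m : ℕ) : ℝ)) X).charpoly.roots ∂(gm (2 * m))))
      Filter.atTop (nhds 0) := by
  obtain ⟨χ, hχ, hχ0, happ⟩ := tensor_approx F hF hc
  obtain ⟨C, n0, hC⟩ := weg_G h1 (k + 1) χ hχ hχ0 E ε hE1 hE2 hε hε1
  have hFn : Nice F := nice_of_cs hF hc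
  set b : ℕ → ℝ := fun m => ((2 * m : ℕ) : ℝ) ^ (-1 + ε) with hb
  have hb0 : ∀ m, 0 ≤ b m := fun m => Real.rpow_nonneg (Nat.cast_nonneg _) _
  have hgoal : Filter.Tendsto (fun m : ℕ => LA (2 * m) E (b m) F - LB (2 * m) E (b m) F)
      Filter.atTop (nhds 0) := by
    rw [Metric.tendsto_atTop]
    intro ε' hε'
    have hC0 : 0 < |C| + 1 := by positivity
    set e : ℝ := ε' / (4 * (|C| + 1)) with he
    have he0 : 0 < e := by positivity
    obtain ⟨N, coef, φ, hφ, hap⟩ := happ e he0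
    set H : (Fin (k + 1) → ℝ) → ℝ := fun v => ∏ j, χ (v j) with hH
    have hHn : Nice H := nice_prod (fun _ => hχ)
    set G : Fin N → (Fin (k + 1) → ℝ) → ℝ := fun a v => ∏ j, φ a j (v j) with hG
    have hGn : ∀ a, Nice (G a) := fun a => nice_prod (hφ a)
    have hcH := conv_prod hM k (fun _ => χ) (fun _ => hχ) E ε hE1 hE2 hε hε1
    have hcG : Filter.Tendsto (fun m : ℕ => ∑ a, coef a *
        (LA (2 * m) E (b m) (G a) - LB (2 * m) E (b m) (G a))) Filter.atTop (nhds 0) := by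
      have h4 : Filter.Tendsto (fun m : ℕ => ∑ a, coef a *
        (LA (2 * m) E (b m) (G a) - LB (2 * m) E (b m) (G a))) Filter.atTop
          (nhds (∑ a, coef a * 0)) :=
        tendsto_finsetSum _ fun a _ =>
          (conv_prod hM k (φ a) (hφ a) E ε hE1 hE2 hε hε1).const_mul (coef a)
      simpa using h4
    obtain ⟨m1, hm1⟩ := (Metric.tendsto_atTop.1 hcH) 1 one_pos
    obtain ⟨m2, hm2⟩ := (Metric.tendsto_atTop.1 hcG) (ε' / 4) (by positivity)
    refine ⟨max (max m1 m2) n0, fun m hm => ?_⟩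
    have hma : m1 ≤ m := le_trans (le_trans (le_max_left _ _) (le_max_left _ _)) hm
    have hmb : m2 ≤ m := le_trans (le_trans (le_max_right _ _) (le_max_left _ _)) hm
    have hmc : n0 ≤ 2 * m := by
      have : n0 ≤ m := le_trans (le_max_right _ _) hm
      omega
    have h5 : LB (2 * m) E (b m) H ≤ C := hC (2 * m) hmc
    have h6 := hm1 m hma
    rw [Real.dist_eq, sub_zero] at h6
    have h6' : |LA (2 * m) E (b m) H - LB (2 * m) E (b m) H| < 1 := h6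
    have h7 := hm2 m hmb
    rw [Real.dist_eq, sub_zero] at h7
    have h8 := (posLin_A (k := k + 1) (2 * m) E (b m) (hb0 m)).approx hFn hHn coef G hGn e hap
    have h9 := (posLin_B (k := k + 1) (2 * m) E (b m) (hb0 m)).approx hFn hHn coef G hGn e hap
    rw [Real.dist_eq, sub_zero]
    have h10 : ∑ a, coef a * (LA (2 * m) E (b m) (G a) - LB (2 * m) E (b m) (G a))
        = ∑ a, coef a * LA (2 * m) E (b m) (G a) - ∑ a, coef a * LB (2 * m) E (b m) (G a) := by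
      rw [← Finset.sum_sub_distrib]
      exact Finset.sum_congr rfl fun a _ => by ring
    rw [h10] at h7
    have h11 : LA (2 * m) E (b m) H ≤ |C| + 1 := by
      have := (abs_lt.1 h6').2
      have := le_abs_self C
      linarith
    have h12 : LB (2 * m) E (b m) H ≤ |C| + 1 := by
      have := le_abs_self C
      linarith
    have h13 : e * LA (2 * m) E (b m) H ≤ ε' / 4 := by
      calc e * LA (2 * m) E (b m) H ≤ e * (|C| + 1) := mul_le_mul_of_nonneg_left h11 he0.le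
        _ = ε' / 4 := by rw [he]; field_simp
    have h14 : e * LB (2 * m) E (b m) H ≤ ε' / 4 := by
      calc e * LB (2 * m) E (b m) H ≤ e * (|C| + 1) := mul_le_mul_of_nonneg_left h12 he0.le
        _ = ε' / 4 := by rw [he]; field_simp
    rw [abs_lt] at h7 ⊢
    rw [abs_le] at h8 h9
    constructor
    · linarith [h7.1, h8.1, h9.2]
    · linarith [h7.2, h8.2, h9.1]
  exact hgoal

/-- the conclusion of S19275 -/
theorem s19275 (h1 : J1) (hM : MainFull) :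
  ∀ ε : ℝ, 0 < ε → ε < 1 →
  ∀ k : ℕ, 1 ≤ k →
  ∀ E : ℝ, -2 < E → E < 2 →
  ∀ F : (Fin k → ℝ) → ℝ, Continuous F → HasCompactSupport F →
  ∀ ρ : ℝ → ℝ, (∀ x : ℝ, ρ x = Real.sqrt (4 - x ^ 2) / (2 * Real.pi)) →
  ∀ T : ℕ → ℝ → Multiset ℝ → ℝ,
    (∀ (n : ℕ) (x : ℝ) (s : Multiset ℝ),
      T n x s = ∑ f : Fin k ↪ Fin s.toList.length,
        F (fun t => (n : ℝ) * ρ x * (s.toList.get (f t) - x))) →
  ∀ S : ℕ → ℝ → ℝ,
    (∀ (n : ℕ) (x : ℝ),
      S n x =
        (∑ σ ∈ Finset.univ.filter (fun σ : Fin n → Fin n → Bool =>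
              (∀ i j, σ i j = σ j i) ∧ ∀ i, ∑ j, (if σ i j then (1 : ℤ) else -1) = 0),
            T n x ((Matrix.of (fun i j : Fin n =>
              (if σ i j then (1 : ℝ) else -1) / Real.sqrt (n : ℝ))).charpoly.roots.erase 0))
        / ((Finset.univ.filter (fun σ : Fin n → Fin n → Bool =>
              (∀ i j, σ i j = σ j i) ∧ ∀ i, ∑ j, (if σ i j then (1 : ℤ) else -1) = 0)).card : ℝ)) →
  ∀ SG : ℕ → ℝ → ℝ,
    (∀ (n : ℕ) (x : ℝ),
      SG n x =
        MeasureTheory.integral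
          (MeasureTheory.Measure.pi (fun _ : Fin n × Fin n => ProbabilityTheory.gaussianReal 0 1))
          (fun X : Fin n × Fin n → ℝ =>
            T n x ((Matrix.of (fun i j : Fin n =>
              (X (i, j) + X (j, i)) / Real.sqrt (2 * (n : ℝ)))).charpoly.roots))) →
  Filter.Tendsto
    (fun m : ℕ =>
      intervalIntegral (fun x => S (2 * m) x)
          (E - ((2 * m : ℕ) : ℝ) ^ (-1 + ε)) (E + ((2 * m : ℕ) : ℝ) ^ (-1 + ε))
          MeasureTheory.volume / (2 * ((2 * m : ℕ) : ℝ) ^ (-1 + ε))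
      - intervalIntegral (fun x => SG (2 * m) x)
          (E - ((2 * m : ℕ) : ℝ) ^ (-1 + ε)) (E + ((2 * m : ℕ) : ℝ) ^ (-1 + ε))
          MeasureTheory.volume / (2 * ((2 * m : ℕ) : ℝ) ^ (-1 + ε)))
    Filter.atTop (nhds 0) := by
  intro ε hε hε1 k hk E hE1 hE2 F hF hc ρ hρ T hT S hS SG hSG
  obtain ⟨k, rfl⟩ : ∃ k', k = k' + 1 := ⟨k - 1, by omega⟩
  have hρ' : ρ = rho := by
    funext x
    rw [hρ]
    rfl
  subst hρ'
  have hT' : ∀ (n : ℕ) (x : ℝ) (s : Multiset ℝ), T n x s = distS F ((n : ℝ) * rho x) x s := by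
    intro n x s
    rw [hT]
    rfl
  have key := main_dist h1 hM k F hF hc E ε hE1 hE2 hε hε1
  refine key.congr fun m => ?_
  have hS' : ∀ (n : ℕ) (x : ℝ), S n x = EU (fun σ : Pat n => distS F ((n : ℝ) * rho x) x
      ((H0 σ).charpoly.roots.erase 0)) := by
    intro n x
    rw [hS]
    unfold EU
    rw [smul_eq_mul, div_eq_inv_mul]
    congr 1
    refine Finset.sum_congr rfl fun σ _ => ?_
    rw [hT']
    congr 4
    ext i j
    simp only [H0, Mx, Matrix.of_apply, Matrix.smul_apply, smul_eq_mul]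
    ring
  have hSG' : ∀ (n : ℕ) (x : ℝ), SG n x = ∫ X, distS F ((n : ℝ) * rho x) x
      (Wv (N := n) (1 / (n : ℝ)) X).charpoly.roots ∂(gm n) := by
    intro n x
    rw [hSG]
    unfold gm
    refine integral_congr_ae (Filter.Eventually.of_forall fun X => ?_)
    simp only
    rw [hT']
    congr 3
    ext i j
    simp only [Wv, Matrix.of_apply]
    have h5 : Real.sqrt (1 / (n : ℝ) / 2) = 1 / Real.sqrt (2 * (n : ℝ)) := by
      rw [div_div, Real.sqrt_div zero_le_one, Real.sqrt_one, mul_comm (n : ℝ) 2]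
    rw [h5]
    ring
  simp only [hS', hSG']
  ring

end Pool.Agent.ZR

end

section

/-!
# ZR, part G: summation of the four-cycle identities, the path identity.
-/


open MeasureTheory ProbabilityTheory Matrix
open scoped Classical

namespace Pool.Agent.ZR.G

/-- sum over `Adj4` tuples -/
noncomputable def S4 {n : ℕ} (F : Fin n → Fin n → Fin n → Fin n → ℂ) : ℂ :=
  ∑ i, ∑ j, ∑ k, ∑ l, if Adj4 i j k l then F i j k l else 0

theorem S4_add {n : ℕ} (F G : Fin n → Fin n → Fin n → Fin n → ℂ) :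
    S4 (fun i j k l => F i j k l + G i j k l) = S4 F + S4 G := by
  unfold S4
  simp only [← Finset.sum_add_distrib]
  refine Finset.sum_congr rfl fun i _ => Finset.sum_congr rfl fun j _ =>
    Finset.sum_congr rfl fun k _ => Finset.sum_congr rfl fun l _ => ?_
  split_ifs <;> simp

theorem S4_mul {n : ℕ} (c : ℂ) (F : Fin n → Fin n → Fin n → Fin n → ℂ) :
    S4 (fun i j k l => c * F i j k l) = c * S4 F := by
  unfold S4
  simp only [Finset.mul_sum]
  refine Finset.sum_congr rfl fun i _ => Finset.sum_congr rfl fun j _ =>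
    Finset.sum_congr rfl fun k _ => Finset.sum_congr rfl fun l _ => ?_
  split_ifs <;> simp

theorem S4_sum {n K : ℕ} (F : Fin K → Fin n → Fin n → Fin n → Fin n → ℂ) :
    S4 (fun i j k l => ∑ q, F q i j k l) = ∑ q, S4 (F q) := by
  have h : ∀ s : Finset (Fin K), S4 (fun i j k l => ∑ q ∈ s, F q i j k l) = ∑ q ∈ s, S4 (F q) := by
    intro s
    induction s using Finset.induction_on with
    | empty =>
      simp [S4]
    | insert a s ha ih =>
      simp only [Finset.sum_insert ha]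
      rw [S4_add, ih]
  exact h Finset.univ

variable {n K : ℕ} {α β η : ℝ} {zl cl : Fin K → ℂ} {z : ℂ}

theorem CycI_eq (X : Fin n × Fin n → ℝ) (σ : Fin n → Fin n → Bool) :
    CycI α β zl cl z σ X = S4 (fun i j k l =>
      s8 (toC (Mx σ)) i j k l * fJ α β zl cl z X j i σ
        - alt8 (toC (Mx σ)) i j k l * DJ α β zl cl z X i j k l σ) := by
  have e : (fun i j k l : Fin n => s8 (toC (Mx σ)) i j k l * fJ α β zl cl z X j i σ
        - alt8 (toC (Mx σ)) i j k l * DJ α β zl cl z X i j k l σ)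
      = fun i j k l => (Th (Pn n) (Bm α β σ X) zl cl
            * (s8 (toC (Mx σ)) i j k l * Gz (Pn n) (Bm α β σ X) z j i))
          + (((α / Real.sqrt n : ℝ) : ℂ) * ((Th (Pn n) (Bm α β σ X) zl cl
            * (alt8 (toC (Mx σ)) i j k l * xiG (Gz (Pn n) (Bm α β σ X) z) i j k l))
          + (1 / (n : ℂ)) * ∑ q, ThE (Pn n) (Bm α β σ X) zl cl q
            * (alt8 (toC (Mx σ)) i j k l * (Gz (Pn n) (Bm α β σ X) z j i
              * xiV (Gz (Pn n) (Bm α β σ X) (zl q) ^ 2) i j k l)))) := by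
    funext i j k l
    unfold fJ DJ dB
    have h : ∑ q, (Gz (Pn n) (Bm α β σ X) z j i * xiV (Gz (Pn n) (Bm α β σ X) (zl q) ^ 2) i j k l)
        * ThE (Pn n) (Bm α β σ X) zl cl q * alt8 (toC (Mx σ)) i j k l
        = ∑ q, ThE (Pn n) (Bm α β σ X) zl cl q
            * (alt8 (toC (Mx σ)) i j k l * (Gz (Pn n) (Bm α β σ X) z j i
              * xiV (Gz (Pn n) (Bm α β σ X) (zl q) ^ 2) i j k l)) := by
      refine Finset.sum_congr rfl fun q _ => ?_
      ring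
    rw [← h, ← Finset.sum_mul]
    ring
  rw [e, S4_add, S4_mul, S4_mul, S4_add, S4_mul, S4_mul, S4_sum]
  simp only [S4_mul]
  have hq : (∑ q, ThE (Pn n) (Bm α β σ X) zl cl q * S4 (fun i j k l =>
      alt8 (toC (Mx σ)) i j k l * (Gz (Pn n) (Bm α β σ X) z j i
        * xiV (Gz (Pn n) (Bm α β σ X) (zl q) ^ 2) i j k l)))
      = ∑ q, SV (toC (Mx σ)) (Gz (Pn n) (Bm α β σ X) z)
            (Gz (Pn n) (Bm α β σ X) (zl q) ^ 2) * ThE (Pn n) (Bm α β σ X) zl cl q := by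
    refine Finset.sum_congr rfl fun q _ => ?_
    rw [mul_comm]
    rfl
  rw [hq]
  have h1 : S4 (fun i j k l => s8 (toC (Mx σ)) i j k l * Gz (Pn n) (Bm α β σ X) z j i)
      = SL (toC (Mx σ)) (Gz (Pn n) (Bm α β σ X) z) := rfl
  have h2 : S4 (fun i j k l => alt8 (toC (Mx σ)) i j k l * xiG (Gz (Pn n) (Bm α β σ X) z) i j k l)
      = SR (toC (Mx σ)) (Gz (Pn n) (Bm α β σ X) z) := rfl
  rw [h1, h2]
  unfold CycI
  ring

theorem EU_S4 (F : Fin n → Fin n → Fin n → Fin n → (Fin n → Fin n → Bool) → ℂ) :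
    EU (fun σ => S4 (fun i j k l => F i j k l σ))
      = ∑ i, ∑ j, ∑ k, ∑ l, if Adj4 i j k l then EU (F i j k l) else 0 := by
  unfold S4
  rw [EU_sum]
  refine Finset.sum_congr rfl fun i _ => ?_
  rw [EU_sum]
  refine Finset.sum_congr rfl fun j _ => ?_
  rw [EU_sum]
  refine Finset.sum_congr rfl fun k _ => ?_
  rw [EU_sum]
  refine Finset.sum_congr rfl fun l _ => ?_
  split_ifs
  · rfl
  · unfold EU
    simp

theorem isSg_Mx {σ : Fin n → Fin n → Bool} (hσ : σ ∈ Sn n) : IsSg (toC (Mx σ)) := by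
  refine ⟨fun i j => ?_, fun i j => ?_, fun i => ?_⟩
  · rw [toC_ap, toC_ap, Mx_symm hσ i j]
  · rw [toC_ap, Mx_apply]
    split_ifs
    · left; norm_num
    · right; norm_num
  · have := Mx_row hσ i
    simp only [toC_ap]
    exact_mod_cast this

theorem cyc_sum (hp : Par n α β η zl cl z) {Γ : ℝ} (hΓ0 : 0 ≤ Γ) (hΓ : 32 * Γ ≤ Real.sqrt n)
    (X : Fin n × Fin n → ℝ) :
    ‖EU (fun σ => CycI α β zl cl z σ X)‖
      ≤ (n : ℝ) ^ 4 * (4 * EU (fun σ => rJ α β η Γ zl cl z X σ)) := by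
  have hr : 0 ≤ 4 * EU (fun σ => rJ α β η Γ zl cl z X σ) :=
    mul_nonneg (by norm_num) (EU_nonneg fun σ _ => rJ_nonneg hp hΓ0 X σ)
  have e : EU (fun σ => CycI α β zl cl z σ X) = EU (fun σ => S4 (fun i j k l =>
      s8 (toC (Mx σ)) i j k l * fJ α β zl cl z X j i σ
        - alt8 (toC (Mx σ)) i j k l * DJ α β zl cl z X i j k l σ)) :=
    EU_congr fun σ _ => CycI_eq X σ
  rw [e, EU_S4 (fun i j k l σ => s8 (toC (Mx σ)) i j k l * fJ α β zl cl z X j i σ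
        - alt8 (toC (Mx σ)) i j k l * DJ α β zl cl z X i j k l σ)]
  have hb : ∀ i j k l : Fin n, ‖(if Adj4 i j k l then EU (fun σ =>
      s8 (toC (Mx σ)) i j k l * fJ α β zl cl z X j i σ
        - alt8 (toC (Mx σ)) i j k l * DJ α β zl cl z X i j k l σ) else 0)‖
      ≤ 4 * EU (fun σ => rJ α β η Γ zl cl z X σ) := by
    intro i j k l
    by_cases hA : Adj4 i j k l
    · rw [if_pos hA]
      obtain ⟨a1, a2, a3, a4⟩ := hA
      by_cases h2 : i = k
      · subst h2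
        have : EU (fun σ => s8 (toC (Mx σ)) i j i l * fJ α β zl cl z X j i σ
            - alt8 (toC (Mx σ)) i j i l * DJ α β zl cl z X i j i l σ) = 0 := by
          have h0 : EU (n := n) (fun _ => (0 : ℂ)) = 0 := by unfold EU; simp
          rw [← h0]
          refine EU_congr fun σ hσ => ?_
          rw [s8_ki (isSg_Mx hσ), alt8_ki (isSg_Mx hσ)]
          ring
        rw [this, norm_zero]
        exact hr
      · by_cases h5 : j = l
        · subst h5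
          have : EU (fun σ => s8 (toC (Mx σ)) i j k j * fJ α β zl cl z X j i σ
              - alt8 (toC (Mx σ)) i j k j * DJ α β zl cl z X i j k j σ) = 0 := by
            have h0 : EU (n := n) (fun _ => (0 : ℂ)) = 0 := by unfold EU; simp
            rw [← h0]
            refine EU_congr fun σ hσ => ?_
            rw [s8_lj (isSg_Mx hσ), alt8_lj (isSg_Mx hσ)]
            ring
          rw [this, norm_zero]
          exact hr
        · exact cyc_tuple hp hΓ0 hΓ X a1 h2 (fun h => a4 h.symm) a2 h5 a3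
    · rw [if_neg hA, norm_zero]
      exact hr
  have hcard : ∀ c : ℝ, ∑ _i : Fin n, c = n * c := by
    intro c
    rw [Finset.sum_const, Finset.card_univ, Fintype.card_fin, nsmul_eq_mul]
  calc _ ≤ ∑ i : Fin n, ∑ j : Fin n, ∑ k : Fin n, ∑ l : Fin n,
        (4 * EU (fun σ => rJ α β η Γ zl cl z X σ)) := by
        refine (norm_sum_le _ _).trans (Finset.sum_le_sum fun i _ => ?_)
        refine (norm_sum_le _ _).trans (Finset.sum_le_sum fun j _ => ?_)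
        refine (norm_sum_le _ _).trans (Finset.sum_le_sum fun k _ => ?_)
        refine (norm_sum_le _ _).trans (Finset.sum_le_sum fun l _ => ?_)
        exact hb i j k l
    _ = (n : ℝ) ^ 4 * (4 * EU (fun σ => rJ α β η Γ zl cl z X σ)) := by
        simp only [hcard]
        ring

/-! ### the path -/

noncomputable def rP {n K : ℕ} (α β η Γ : ℝ) (zl cl : Fin K → ℂ) (z : ℂ) (X : Fin n × Fin n → ℝ)
    (σ : Fin n → Fin n → Bool) : ℝ :=
  if EnAll α β Γ zl z σ X then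
    2 * Γ * Xw (Pn n) (Bm α β σ X) zl cl (1 / (n * η))
        * (2 ^ (K + 1) * (2 * Γ * (16 / Real.sqrt n)))
  else 2 * (n : ℝ) ^ (4 * K + 2)

theorem rP_nonneg (hp : Par n α β η zl cl z) {Γ : ℝ} (hΓ0 : 0 ≤ Γ) (X : Fin n × Fin n → ℝ)
    (σ : Fin n → Fin n → Bool) : 0 ≤ rP α β η Γ zl cl z X σ := by
  unfold rP
  have h := Xw_nonneg (cl := cl) hp X σ
  split_ifs
  · positivity
  · positivity

theorem pth_good (hp : Par n α β η zl cl z) {Γ : ℝ} (hΓ0 : 0 ≤ Γ) (hΓ : 32 * Γ ≤ Real.sqrt n)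
    (X : Fin n × Fin n → ℝ) {i j k : Fin n} (h1 : i ≠ j) (h2 : i ≠ k) (h4 : j ≠ k)
    {σ : Fin n → Fin n → Bool} (hσ : σ ∈ Sn n)
    (ha : AltP i j k σ) (hE : EnAll α β Γ zl z σ X) :
    ‖fJ α β zl cl z X i i (flipP (pth i j k) σ) - fJ α β zl cl z X i i σ‖
      ≤ 2 * Γ * Xw (Pn n) (Bm α β σ X) zl cl (1 / (n * η))
        * (2 ^ (K + 1) * (2 * Γ * (16 / Real.sqrt n))) := by
  have hn := par_n hp
  have hn0 : 0 < n := by have := hp.n2; omega
  have hsq : 0 < Real.sqrt n := Real.sqrt_pos.2 (by exact_mod_cast hn0)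
  have hB := pb_Bm α β σ hσ X
  have hsw := Bm_switchP h1 h2 h4 α β X hσ ha
  have hY := pb_XiP (-(2 * α * Mx σ i i / Real.sqrt n)) i j k
  have hsp := sp1_Y hn0 hp.a0 (par_a1 hp) (abs_Mx σ i i) (XiP i j k)
    ((sp1_XiP i j k).trans (by norm_num))
  have hsp0 := sp1_nonneg ((-(2 * α * Mx σ i i / Real.sqrt n)) • XiP i j k)
  have hs : sp1 ((-(2 * α * Mx σ i i / Real.sqrt n)) • XiP i j k) * Γ ≤ 1 / 2 := by
    calc _ ≤ 16 / Real.sqrt n * Γ := mul_le_mul_of_nonneg_right hsp hΓ0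
      _ ≤ 1 / 2 := by
        rw [div_mul_eq_mul_div, div_le_div_iff₀ hsq (by norm_num)]
        linarith
  obtain ⟨H, hH, h0, -⟩ := jets_f hB hY z zl cl η hp.e0 hp.az.1 (fun q => (hp.al q).1) hn0 Γ hΓ0
    hE.1 hE.2 hs i i
  set c : ℝ := -(2 * α * Mx σ i i / Real.sqrt n) with hc
  have e00 : H 0 0 = fJ α β zl cl z X i i σ := by
    rw [h0 0, zero_smul, add_zero]
    rfl
  have e01 : H 0 1 = fJ α β zl cl z X i i (flipP (pth i j k) σ) := by
    rw [h0 1, ← hsw]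
    rfl
  have hXw : 0 ≤ Xw (Pn n) (Bm α β σ X) zl cl (1 / (n * η)) := Xw_nonneg hp X σ
  have hXe : (∏ l, (‖mz (Pn n) (Bm α β σ X) (zl l) - cl l‖ + 1 / ((n : ℝ) * η)))
      = Xw (Pn n) (Bm α β σ X) zl cl (1 / (n * η)) := rfl
  rw [hXe] at hH
  rw [← e00, ← e01]
  have h3 := Convex.norm_image_sub_le_of_norm_hasDerivWithin_le (𝕜 := ℝ)
    (f := H 0) (f' := H 1) (s := Set.Icc (0 : ℝ) 1)
    (C := 2 * Γ * Xw (Pn n) (Bm α β σ X) zl cl (1 / (n * η))
        * (2 ^ (K + 1) * (2 * Γ * (16 / Real.sqrt n)))) (x := 0) (y := 1)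
    (fun t _ => (hH.der 0 t).hasDerivWithinAt)
    (fun t ht => by
      refine (hH.bd 1 (by norm_num) t ht).trans ?_
      simp only [Nat.factorial_one, Nat.cast_one, mul_one, pow_one]
      gcongr)
    (convex_Icc 0 1) (by constructor <;> norm_num) (by constructor <;> norm_num)
  simpa using h3

theorem pth_tuple (hp : Par n α β η zl cl z) {Γ : ℝ} (hΓ0 : 0 ≤ Γ) (hΓ : 32 * Γ ≤ Real.sqrt n)
    (X : Fin n × Fin n → ℝ) {i j k : Fin n} (h1 : i ≠ j) (h2 : i ≠ k) (h4 : j ≠ k) :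
    ‖EU (fun σ => s8p (toC (Mx σ)) i j k * fJ α β zl cl z X i i σ)‖
      ≤ 4 * EU (fun σ => rP α β η Γ zl cl z X σ) := by
  have h := pth_identity h1 h2 h4 (fJ α β zl cl z X i i) (fun _ => 0)
    (rP α β η Γ zl cl z X) (fun σ _ => rP_nonneg hp hΓ0 X σ) (fun σ hσ ha => by
      simp only [add_zero, mul_zero]
      by_cases hE : EnAll α β Γ zl z σ X
      · rw [rP, if_pos hE]
        exact pth_good hp hΓ0 hΓ X h1 h2 h4 hσ ha hE
      · rw [rP, if_neg hE]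
        obtain ⟨hσ', -⟩ := flipP_mem_pth h1 h2 h4 hσ ha
        have f1 := fJ_crude hp X i i hσ
        have f2 := fJ_crude hp X i i hσ'
        have g1 := norm_sub_le (fJ α β zl cl z X i i (flipP (pth i j k) σ))
          (fJ α β zl cl z X i i σ)
        linarith)
  have e : EU (fun σ => s8p (toC (Mx σ)) i j k * fJ α β zl cl z X i i σ)
      = EU (fun σ => ((Pool.Agent.ZR.s8 (Mx σ i i) (Mx σ i j) (Mx σ j k) (Mx σ k k) : ℝ) : ℂ)
          * fJ α β zl cl z X i i σ)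
        - EU (fun σ => ((Pool.Agent.ZR.alt8 (Mx σ i i) (Mx σ i j) (Mx σ j k) (Mx σ k k) : ℝ) : ℂ)
          * 0) := by
    rw [← EU_sub]
    refine EU_congr fun σ _ => ?_
    rw [s8p_cast]
    ring
  rw [e]
  exact h

theorem PthI_eq (X : Fin n × Fin n → ℝ) (σ : Fin n → Fin n → Bool) :
    PthI α β zl cl z σ X = ∑ i, ∑ j, ∑ k, if i ≠ j ∧ j ≠ k ∧ i ≠ k then
      s8p (toC (Mx σ)) i j k * fJ α β zl cl z X i i σ else 0 := by
  unfold PthI SP
  simp only [Finset.sum_mul]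
  refine Finset.sum_congr rfl fun i _ => Finset.sum_congr rfl fun j _ =>
    Finset.sum_congr rfl fun k _ => ?_
  unfold fJ
  split_ifs
  · ring
  · ring

theorem pth_sum (hp : Par n α β η zl cl z) {Γ : ℝ} (hΓ0 : 0 ≤ Γ) (hΓ : 32 * Γ ≤ Real.sqrt n)
    (X : Fin n × Fin n → ℝ) :
    ‖EU (fun σ => PthI α β zl cl z σ X)‖
      ≤ (n : ℝ) ^ 3 * (4 * EU (fun σ => rP α β η Γ zl cl z X σ)) := by
  have hr : 0 ≤ 4 * EU (fun σ => rP α β η Γ zl cl z X σ) :=
    mul_nonneg (by norm_num) (EU_nonneg fun σ _ => rP_nonneg hp hΓ0 X σ)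
  have e : EU (fun σ => PthI α β zl cl z σ X) = ∑ i : Fin n, ∑ j : Fin n, ∑ k : Fin n,
      if i ≠ j ∧ j ≠ k ∧ i ≠ k then
        EU (fun σ => s8p (toC (Mx σ)) i j k * fJ α β zl cl z X i i σ) else 0 := by
    rw [EU_congr fun σ _ => PthI_eq X σ]
    rw [EU_sum]
    refine Finset.sum_congr rfl fun i _ => ?_
    rw [EU_sum]
    refine Finset.sum_congr rfl fun j _ => ?_
    rw [EU_sum]
    refine Finset.sum_congr rfl fun k _ => ?_
    split_ifs
    · rfl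
    · unfold EU
      simp
  rw [e]
  have hb : ∀ i j k : Fin n, ‖(if i ≠ j ∧ j ≠ k ∧ i ≠ k then
        EU (fun σ => s8p (toC (Mx σ)) i j k * fJ α β zl cl z X i i σ) else 0)‖
      ≤ 4 * EU (fun σ => rP α β η Γ zl cl z X σ) := by
    intro i j k
    by_cases hA : i ≠ j ∧ j ≠ k ∧ i ≠ k
    · rw [if_pos hA]
      exact pth_tuple hp hΓ0 hΓ X hA.1 hA.2.2 hA.2.1
    · rw [if_neg hA, norm_zero]
      exact hr
  have hcard : ∀ c : ℝ, ∑ _i : Fin n, c = n * c := by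
    intro c
    rw [Finset.sum_const, Finset.card_univ, Fintype.card_fin, nsmul_eq_mul]
  calc _ ≤ ∑ i : Fin n, ∑ j : Fin n, ∑ k : Fin n,
        (4 * EU (fun σ => rP α β η Γ zl cl z X σ)) := by
        refine (norm_sum_le _ _).trans (Finset.sum_le_sum fun i _ => ?_)
        refine (norm_sum_le _ _).trans (Finset.sum_le_sum fun j _ => ?_)
        refine (norm_sum_le _ _).trans (Finset.sum_le_sum fun k _ => ?_)
        exact hb i j k
    _ = (n : ℝ) ^ 3 * (4 * EU (fun σ => rP α β η Γ zl cl z X σ)) := by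
        simp only [hcard]
        ring

end Pool.Agent.ZR.G

end

section

/-!
# ZR, part G: crude bounds (bad event), continuity and integrability in the Gaussian array.

For `σ ∈ Sn n`, `Par`, `η ≤ |w.im|`: `‖G_xy‖ ≤ 1/η ≤ n²` (`g_entry_le`), `‖(G²)_xy‖ ≤ n⁵`,
`‖m‖ ≤ n²` (`mz_norm_le`), `‖m_l - c_l‖ ≤ n² + n³ ≤ n⁴` (`n ≥ 2`), so `‖Θ‖, ‖Θ_l‖ ≤ n^(4K)`,
`Ξ ≤ (n⁴ + n)^K ≤ n^(5K)` for `ρ = 1/(nη)` (`≤ n`), `|M_ij| = 1`, `|alt8|, |s8| ≤ 8`
(`alt8_norm`, .. with `sg_mx`), `‖xiG‖ ≤ 8 n⁴`, `‖xiV‖ ≤ 8 n⁵`, traces `≤ n³ ·..`.  All the sums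
have at most `n⁴` terms and there are at most `K` values of `l`: everything is at most
`(K + 1) · 1000 · n^(4K+20) ≤ n^C` with `C = C(K)` because `n ≥ 2` (`(K+1) · 1000 ≤ 2^(K+10)`).
`crude_e`: `‖MainN‖ + ‖CycI‖ + ‖PthI‖ ≤ n^C`; `crude_x`: `Ξ ≤ n^C`.

Continuity: `continuous_gz` (C5) with `T = (Fin n × Fin n → ℝ)`, `f X = Bm α β σ X` (entries are
polynomials of degree 1 in `X`; `pb_Bm`), `mz` is a finite sum of entries; `Fm`, `Xw` are
polynomial expressions (norms) in these: continuous and bounded, hence integrable for the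
probability measure `gm n` (`Integrable.of_bound`, `Continuous.aestronglyMeasurable`).
-/


open MeasureTheory ProbabilityTheory Matrix

namespace Pool.Agent.ZR.G

private theorem gpc_n1 {n K : ℕ} {α β η : ℝ} {zl cl : Fin K → ℂ} {z : ℂ}
    (hP : Par n α β η zl cl z) : (2 : ℝ) ≤ n := by exact_mod_cast hP.n2

private theorem gpc_a1 {n K : ℕ} {α β η : ℝ} {zl cl : Fin K → ℂ} {z : ℂ}
    (hP : Par n α β η zl cl z) : α ≤ 1 := by
  have := hP.ab
  nlinarith [sq_nonneg β, hP.a0]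

private theorem gpc_im {n K : ℕ} {α β η : ℝ} {zl cl : Fin K → ℂ} {z : ℂ}
    (hP : Par n α β η zl cl z) {w : ℂ} (hw : Adm n η w) : w.im ≠ 0 ∧ 1 / |w.im| ≤ (n : ℝ) ^ 2 := by
  have h1 : 0 < |w.im| := lt_of_lt_of_le hP.e0 hw.1
  refine ⟨abs_pos.mp h1, ?_⟩
  exact (one_div_le_one_div_of_le hP.e0 hw.1).trans hP.e2

private theorem gpc_G {n K : ℕ} {α β η : ℝ} {zl cl : Fin K → ℂ} {z : ℂ}
    (hP : Par n α β η zl cl z) {σ : Fin n → Fin n → Bool} (hσ : σ ∈ Sn n)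
    (X : Fin n × Fin n → ℝ) {w : ℂ} (hw : Adm n η w) (x y : Fin n) :
    ‖Gz (Pn n) (Bm α β σ X) w x y‖ ≤ (n : ℝ) ^ 2 :=
  (g_entry_le (pb_Bm α β σ hσ X) w (gpc_im hP hw).1 x y).trans (gpc_im hP hw).2

private theorem gpc_m {n K : ℕ} {α β η : ℝ} {zl cl : Fin K → ℂ} {z : ℂ}
    (hP : Par n α β η zl cl z) {σ : Fin n → Fin n → Bool} (hσ : σ ∈ Sn n)
    (X : Fin n × Fin n → ℝ) {w : ℂ} (hw : Adm n η w) :
    ‖mz (Pn n) (Bm α β σ X) w‖ ≤ (n : ℝ) ^ 2 :=
  (mz_norm_le (pb_Bm α β σ hσ X) w (gpc_im hP hw).1).trans (gpc_im hP hw).2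

/-- entries of a product -/
private theorem gpc_mul {n : ℕ} (A B : Matrix (Fin n) (Fin n) ℂ) (a b : ℝ) (ha : 0 ≤ a)
    (hA : ∀ x y, ‖A x y‖ ≤ a) (hB : ∀ x y, ‖B x y‖ ≤ b) (x y : Fin n) :
    ‖(A * B) x y‖ ≤ n * (a * b) := by
  rw [Matrix.mul_apply]
  refine (norm_sum_le _ _).trans ?_
  calc ∑ k, ‖A x k * B k y‖ ≤ ∑ _k : Fin n, a * b := by
        refine Finset.sum_le_sum fun k _ => ?_
        rw [norm_mul]
        exact mul_le_mul (hA x k) (hB k y) (norm_nonneg _) ha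
    _ = n * (a * b) := by simp

private theorem gpc_tr {n : ℕ} (A : Matrix (Fin n) (Fin n) ℂ) (a : ℝ)
    (hA : ∀ x y, ‖A x y‖ ≤ a) : ‖A.trace‖ ≤ n * a := by
  rw [Matrix.trace]
  refine (norm_sum_le _ _).trans ?_
  calc ∑ k, ‖A.diag k‖ ≤ ∑ _k : Fin n, a := Finset.sum_le_sum fun k _ => hA k k
    _ = n * a := by simp

private theorem gpc_G2 {n K : ℕ} {α β η : ℝ} {zl cl : Fin K → ℂ} {z : ℂ}
    (hP : Par n α β η zl cl z) {σ : Fin n → Fin n → Bool} (hσ : σ ∈ Sn n)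
    (X : Fin n × Fin n → ℝ) {w : ℂ} (hw : Adm n η w) (x y : Fin n) :
    ‖(Gz (Pn n) (Bm α β σ X) w ^ 2) x y‖ ≤ (n : ℝ) ^ 5 := by
  rw [sq]
  refine (gpc_mul _ _ ((n : ℝ) ^ 2) ((n : ℝ) ^ 2) (by positivity) (gpc_G hP hσ X hw)
    (gpc_G hP hσ X hw) x y).trans (le_of_eq ?_)
  ring

private theorem gpc_fac {n K : ℕ} {α β η : ℝ} {zl cl : Fin K → ℂ} {z : ℂ}
    (hP : Par n α β η zl cl z) {σ : Fin n → Fin n → Bool} (hσ : σ ∈ Sn n)
    (X : Fin n × Fin n → ℝ) (l : Fin K) :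
    ‖mz (Pn n) (Bm α β σ X) (zl l) - cl l‖ ≤ (n : ℝ) ^ 4 := by
  have h1 := gpc_m hP hσ X (hP.al l)
  have h2 := hP.cb l
  have h3 := norm_sub_le (mz (Pn n) (Bm α β σ X) (zl l)) (cl l)
  have hn := gpc_n1 hP
  have h4 : (n : ℝ) ^ 2 + (n : ℝ) ^ 3 ≤ (n : ℝ) ^ 4 := by
    have : 0 ≤ (n : ℝ) ^ 2 * ((n : ℝ) ^ 2 - 1 - n) := mul_nonneg (by positivity) (by nlinarith)
    nlinarith
  linarith

private theorem gpc_pow1 {n K : ℕ} {α β η : ℝ} {zl cl : Fin K → ℂ} {z : ℂ}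
    (hP : Par n α β η zl cl z) (k : ℕ) : (1 : ℝ) ≤ (n : ℝ) ^ k :=
  one_le_pow₀ (by linarith [gpc_n1 hP])

private theorem gpc_th {n K : ℕ} {α β η : ℝ} {zl cl : Fin K → ℂ} {z : ℂ}
    (hP : Par n α β η zl cl z) {σ : Fin n → Fin n → Bool} (hσ : σ ∈ Sn n)
    (X : Fin n × Fin n → ℝ) : ‖Th (Pn n) (Bm α β σ X) zl cl‖ ≤ (n : ℝ) ^ (4 * K) := by
  rw [Th, norm_prod]
  calc ∏ l, ‖mz (Pn n) (Bm α β σ X) (zl l) - cl l‖ ≤ ∏ _l : Fin K, (n : ℝ) ^ 4 :=
        Finset.prod_le_prod (fun l _ => norm_nonneg _) fun l _ => gpc_fac hP hσ X l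
    _ = (n : ℝ) ^ (4 * K) := by
        rw [Finset.prod_const, Finset.card_univ, Fintype.card_fin, ← pow_mul]

private theorem gpc_thE {n K : ℕ} {α β η : ℝ} {zl cl : Fin K → ℂ} {z : ℂ}
    (hP : Par n α β η zl cl z) {σ : Fin n → Fin n → Bool} (hσ : σ ∈ Sn n)
    (X : Fin n × Fin n → ℝ) (l : Fin K) :
    ‖ThE (Pn n) (Bm α β σ X) zl cl l‖ ≤ (n : ℝ) ^ (4 * K) := by
  rw [ThE, norm_prod]
  calc ∏ l' ∈ Finset.univ.erase l, ‖mz (Pn n) (Bm α β σ X) (zl l') - cl l'‖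
      ≤ ∏ _l' ∈ Finset.univ.erase l, (n : ℝ) ^ 4 :=
        Finset.prod_le_prod (fun l _ => norm_nonneg _) fun l _ => gpc_fac hP hσ X l
    _ = (n : ℝ) ^ (4 * (K - 1)) := by
        rw [Finset.prod_const, Finset.card_erase_of_mem (Finset.mem_univ l), Finset.card_univ,
          Fintype.card_fin, ← pow_mul]
    _ ≤ (n : ℝ) ^ (4 * K) := by
        apply pow_le_pow_right₀ (by linarith [gpc_n1 hP])
        omega

private theorem gpc_H0 {n : ℕ} (hn : (2 : ℝ) ≤ n) (σ : Fin n → Fin n → Bool) (x y : Fin n) :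
    ‖toC (H0 σ) x y‖ ≤ 1 := by
  have h1 : (1 : ℝ) ≤ Real.sqrt n := by
    rw [Real.one_le_sqrt]; linarith
  have h2 : |Mx σ x y| = 1 := by
    have h : |Mx σ x y| ^ 2 = 1 := by rw [sq_abs]; exact Mx_sq σ x y
    exact (pow_eq_one_iff_of_nonneg (abs_nonneg _) two_ne_zero).mp h
  have h3 : toC (H0 σ) x y = ((1 / Real.sqrt n * Mx σ x y : ℝ) : ℂ) := rfl
  rw [h3, Complex.norm_real, Real.norm_eq_abs, abs_mul, h2, mul_one, abs_of_nonneg (by positivity)]
  rw [div_le_one (by linarith)]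
  exact h1

/-- the three parts of the bound of the integrand -/
private theorem gpc_main {n K : ℕ} {α β η : ℝ} {zl cl : Fin K → ℂ} {z : ℂ}
    (hP : Par n α β η zl cl z) {σ : Fin n → Fin n → Bool} (hσ : σ ∈ Sn n)
    (X : Fin n × Fin n → ℝ) :
    ‖(1 / (n : ℂ)) * (toC (H0 σ) * Gz (Pn n) (Bm α β σ X) z).trace
      + (α : ℂ) * ((mz (Pn n) (Bm α β σ X) z) ^ 2
        + (1 / (n : ℂ) ^ 2) * (Gz (Pn n) (Bm α β σ X) z ^ 2).trace)‖ ≤ 3 * (n : ℝ) ^ 4 := by
  have hn := gpc_n1 hP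
  have hn0 : (0 : ℝ) < n := by linarith
  have h1 : ‖(toC (H0 σ) * Gz (Pn n) (Bm α β σ X) z).trace‖ ≤ n * (n * (1 * (n : ℝ) ^ 2)) :=
    gpc_tr _ _ (gpc_mul _ _ 1 ((n : ℝ) ^ 2) zero_le_one (gpc_H0 hn σ) (gpc_G hP hσ X hP.az))
  have h2 := gpc_m hP hσ X hP.az
  have h3 : ‖(Gz (Pn n) (Bm α β σ X) z ^ 2).trace‖ ≤ n * (n : ℝ) ^ 5 :=
    gpc_tr _ _ (gpc_G2 hP hσ X hP.az)
  have ha := gpc_a1 hP
  have ha0 := hP.a0
  have e1 : ‖(1 / (n : ℂ)) * (toC (H0 σ) * Gz (Pn n) (Bm α β σ X) z).trace‖ ≤ (n : ℝ) ^ 3 := by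
    rw [norm_mul, norm_div, norm_one, Complex.norm_natCast]
    calc 1 / (n : ℝ) * ‖(toC (H0 σ) * Gz (Pn n) (Bm α β σ X) z).trace‖
        ≤ 1 / (n : ℝ) * (n * (n * (1 * (n : ℝ) ^ 2))) :=
          mul_le_mul_of_nonneg_left h1 (by positivity)
      _ = (n : ℝ) ^ 3 := by field_simp
  have e2 : ‖(mz (Pn n) (Bm α β σ X) z) ^ 2‖ ≤ (n : ℝ) ^ 4 := by
    rw [norm_pow]
    calc ‖mz (Pn n) (Bm α β σ X) z‖ ^ 2 ≤ ((n : ℝ) ^ 2) ^ 2 := pow_le_pow_left₀ (norm_nonneg _) h2 2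
      _ = (n : ℝ) ^ 4 := by ring
  have e3 : ‖(1 / (n : ℂ) ^ 2) * (Gz (Pn n) (Bm α β σ X) z ^ 2).trace‖ ≤ (n : ℝ) ^ 4 := by
    rw [norm_mul, norm_div, norm_one, norm_pow, Complex.norm_natCast]
    calc 1 / (n : ℝ) ^ 2 * ‖(Gz (Pn n) (Bm α β σ X) z ^ 2).trace‖
        ≤ 1 / (n : ℝ) ^ 2 * (n * (n : ℝ) ^ 5) :=
          mul_le_mul_of_nonneg_left h3 (by positivity)
      _ = (n : ℝ) ^ 4 := by field_simp
  refine (norm_add_le _ _).trans ?_
  have e4 : ‖(α : ℂ) * ((mz (Pn n) (Bm α β σ X) z) ^ 2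
        + (1 / (n : ℂ) ^ 2) * (Gz (Pn n) (Bm α β σ X) z ^ 2).trace)‖ ≤ 2 * (n : ℝ) ^ 4 := by
    rw [norm_mul, Complex.norm_real, Real.norm_eq_abs, abs_of_nonneg ha0]
    have := norm_add_le ((mz (Pn n) (Bm α β σ X) z) ^ 2)
      ((1 / (n : ℂ) ^ 2) * (Gz (Pn n) (Bm α β σ X) z ^ 2).trace)
    calc α * ‖(mz (Pn n) (Bm α β σ X) z) ^ 2
        + (1 / (n : ℂ) ^ 2) * (Gz (Pn n) (Bm α β σ X) z ^ 2).trace‖
        ≤ 1 * (2 * (n : ℝ) ^ 4) :=
          mul_le_mul ha (by linarith) (norm_nonneg _) zero_le_one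
      _ = 2 * (n : ℝ) ^ 4 := one_mul _
  have e5 : (n : ℝ) ^ 3 ≤ (n : ℝ) ^ 4 := pow_le_pow_right₀ (by linarith) (by norm_num)
  linarith

private theorem gpc_sum {n K : ℕ} {α β η : ℝ} {zl cl : Fin K → ℂ} {z : ℂ}
    (hP : Par n α β η zl cl z) {σ : Fin n → Fin n → Bool} (hσ : σ ∈ Sn n)
    (X : Fin n × Fin n → ℝ) (T : ℝ)
    (hT : ∀ l, ‖ThE (Pn n) (Bm α β σ X) zl cl l‖ ≤ T) :
    ‖(2 * (α : ℂ) / (n : ℂ) ^ 3) * ∑ l,
        (Gz (Pn n) (Bm α β σ X) z * Gz (Pn n) (Bm α β σ X) (zl l) ^ 2).trace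
          * ThE (Pn n) (Bm α β σ X) zl cl l‖ ≤ 2 * K * (n : ℝ) ^ 6 * T := by
  have hn := gpc_n1 hP
  have hn0 : (0 : ℝ) < n := by linarith
  have ha := gpc_a1 hP
  have ha0 := hP.a0
  have h1 : ∀ l, ‖(Gz (Pn n) (Bm α β σ X) z * Gz (Pn n) (Bm α β σ X) (zl l) ^ 2).trace‖
      ≤ (n : ℝ) ^ 9 := fun l => by
    refine (gpc_tr _ _ (gpc_mul _ _ ((n : ℝ) ^ 2) ((n : ℝ) ^ 5) (by positivity)
      (gpc_G hP hσ X hP.az) (gpc_G2 hP hσ X (hP.al l)))).trans (le_of_eq ?_)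
    ring
  have h2 : ‖∑ l, (Gz (Pn n) (Bm α β σ X) z * Gz (Pn n) (Bm α β σ X) (zl l) ^ 2).trace
          * ThE (Pn n) (Bm α β σ X) zl cl l‖ ≤ K * ((n : ℝ) ^ 9 * T) := by
    refine (norm_sum_le _ _).trans ?_
    calc ∑ l, ‖(Gz (Pn n) (Bm α β σ X) z * Gz (Pn n) (Bm α β σ X) (zl l) ^ 2).trace
          * ThE (Pn n) (Bm α β σ X) zl cl l‖ ≤ ∑ _l : Fin K, (n : ℝ) ^ 9 * T := by
          refine Finset.sum_le_sum fun l _ => ?_
          rw [norm_mul]
          exact mul_le_mul (h1 l) (hT l) (norm_nonneg _) (by positivity)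
      _ = K * ((n : ℝ) ^ 9 * T) := by simp
  have hsn : (0 : ℝ) ≤ K * ((n : ℝ) ^ 9 * T) := (norm_nonneg _).trans h2
  have h3 : ‖(2 * (α : ℂ) / (n : ℂ) ^ 3)‖ ≤ 2 / (n : ℝ) ^ 3 := by
    rw [norm_div, norm_mul, norm_pow, Complex.norm_natCast, Complex.norm_real, Complex.norm_ofNat,
      Real.norm_eq_abs, abs_of_nonneg ha0]
    gcongr
    linarith
  rw [norm_mul]
  calc ‖(2 * (α : ℂ) / (n : ℂ) ^ 3)‖ * ‖∑ l, (Gz (Pn n) (Bm α β σ X) z *
          Gz (Pn n) (Bm α β σ X) (zl l) ^ 2).trace * ThE (Pn n) (Bm α β σ X) zl cl l‖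
      ≤ (2 / (n : ℝ) ^ 3) * (K * ((n : ℝ) ^ 9 * T)) :=
        mul_le_mul h3 h2 (norm_nonneg _) (by positivity)
    _ = 2 * K * (n : ℝ) ^ 6 * T := by field_simp

private theorem gpc_F {n K : ℕ} {α β η : ℝ} {zl cl : Fin K → ℂ} {z : ℂ}
    (hP : Par n α β η zl cl z) {σ : Fin n → Fin n → Bool} (hσ : σ ∈ Sn n)
    (X : Fin n × Fin n → ℝ) :
    ‖Fm α β zl cl z σ X‖ ≤ (2 * K + 3) * (n : ℝ) ^ 6 * (n : ℝ) ^ (4 * K) := by
  have h1 := gpc_main hP hσ X
  have h2 := gpc_sum hP hσ X _ (gpc_thE hP hσ X)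
  have h3 := gpc_th hP hσ X
  have hn := gpc_n1 hP
  have e5 : (n : ℝ) ^ 4 ≤ (n : ℝ) ^ 6 := pow_le_pow_right₀ (by linarith) (by norm_num)
  have hp : (0 : ℝ) ≤ (n : ℝ) ^ (4 * K) := by positivity
  unfold Fm
  refine (norm_add_le _ _).trans ?_
  rw [norm_mul]
  have h4 := mul_le_mul h1 h3 (norm_nonneg _) (by positivity : (0 : ℝ) ≤ 3 * (n : ℝ) ^ 4)
  have h5 : 3 * (n : ℝ) ^ 4 * (n : ℝ) ^ (4 * K) ≤ 3 * (n : ℝ) ^ 6 * (n : ℝ) ^ (4 * K) := by
    gcongr
  have h6 := (add_le_add h4 h2).trans (add_le_add_left h5 _)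
  refine h6.trans (le_of_eq ?_)
  ring

theorem crude_e (K : ℕ) : ∃ C : ℝ, 0 < C ∧ ∀ (n : ℕ) (α β η : ℝ) (zl cl : Fin K → ℂ) (z : ℂ),
    Par n α β η zl cl z → ∀ σ ∈ Sn n, ∀ X : Fin n × Fin n → ℝ,
      ‖MainN α β zl cl z σ X‖ + ‖CycI α β zl cl z σ X‖ + ‖PthI α β zl cl z σ X‖
        ≤ (n : ℝ) ^ C := by
  refine ⟨((5 * K + 18 : ℕ) : ℝ), by positivity, ?_⟩
  intro n α β η zl cl z hP σ hσ X
  rw [Real.rpow_natCast]
  have hn := gpc_n1 hP
  have hn0 : (0 : ℝ) < n := by linarith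
  have ha := gpc_a1 hP
  have ha0 := hP.a0
  set T : ℝ := (n : ℝ) ^ (4 * K) with hT
  have hT0 : 0 ≤ T := by positivity
  have hsg := sg_mx hσ
  have hTh := gpc_th hP hσ X
  have hThE := gpc_thE hP hσ X
  have hG := gpc_G hP hσ X hP.az
  have hV := fun l => gpc_G2 hP hσ X (hP.al l)
  set M := toC (Mx σ) with hM
  set G := Gz (Pn n) (Bm α β σ X) z with hGdef
  have hsq : Real.sqrt n ≤ n := by
    rw [Real.sqrt_le_left hn0.le]
    nlinarith
  have hsq1 : (1 : ℝ) ≤ Real.sqrt n := by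
    rw [Real.one_le_sqrt]; linarith
  -- MainN
  have b1 : ‖MainN α β zl cl z σ X‖ ≤ (2 * K + 3) * (n : ℝ) ^ 10 * T := by
    rw [mainN_eq (lt_of_lt_of_le two_pos hP.n2) α β zl cl z σ X, norm_mul, Complex.norm_real, Real.norm_eq_abs,
      abs_of_nonneg (by positivity)]
    have h1 := gpc_F hP hσ X
    have h2 : (n : ℝ) ^ 3 * Real.sqrt n ≤ (n : ℝ) ^ 4 := by
      calc (n : ℝ) ^ 3 * Real.sqrt n ≤ (n : ℝ) ^ 3 * n := by gcongr
        _ = (n : ℝ) ^ 4 := by ring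
    refine (mul_le_mul h2 h1 (norm_nonneg _) (by positivity)).trans (le_of_eq ?_)
    ring
  -- sums over four indices
  have s4 : ∀ (f : Fin n → Fin n → Fin n → Fin n → ℂ) (B : ℝ), 0 ≤ B →
      (∀ i j k l, ‖f i j k l‖ ≤ B) →
      ‖∑ i, ∑ j, ∑ k, ∑ l, if Adj4 i j k l then f i j k l else 0‖ ≤ (n : ℝ) ^ 4 * B := by
    intro f B hB hf
    calc ‖∑ i, ∑ j, ∑ k, ∑ l, if Adj4 i j k l then f i j k l else 0‖
        ≤ ∑ _i : Fin n, ∑ _j : Fin n, ∑ _k : Fin n, ∑ _l : Fin n, B := by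
          refine (norm_sum_le _ _).trans (Finset.sum_le_sum fun i _ => ?_)
          refine (norm_sum_le _ _).trans (Finset.sum_le_sum fun j _ => ?_)
          refine (norm_sum_le _ _).trans (Finset.sum_le_sum fun k _ => ?_)
          refine (norm_sum_le _ _).trans (Finset.sum_le_sum fun l _ => ?_)
          split_ifs
          · exact hf i j k l
          · simpa using hB
      _ = (n : ℝ) ^ 4 * B := by
          simp only [Finset.sum_const, Finset.card_univ, Fintype.card_fin, nsmul_eq_mul]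
          ring
  have hxiG : ∀ i j k l, ‖xiG G i j k l‖ ≤ 8 * (n : ℝ) ^ 4 := by
    have hgq : ∀ j i p q, ‖gq G j i p q‖ ≤ 2 * (n : ℝ) ^ 4 := by
      intro j i p q
      unfold gq
      refine (norm_add_le _ _).trans ?_
      rw [norm_mul, norm_mul]
      have h1 := mul_le_mul (hG j p) (hG q i) (norm_nonneg _) (by positivity : (0:ℝ) ≤ (n : ℝ) ^ 2)
      have h2 := mul_le_mul (hG j q) (hG p i) (norm_nonneg _) (by positivity : (0:ℝ) ≤ (n : ℝ) ^ 2)
      refine (add_le_add h1 h2).trans (le_of_eq ?_)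
      ring
    intro i j k l
    unfold xiG
    have h1 := hgq j i i j
    have h2 := hgq j i j k
    have h3 := hgq j i k l
    have h4 := hgq j i l i
    have t1 := norm_sub_le (gq G j i i j - gq G j i j k + gq G j i k l) (gq G j i l i)
    have t2 := norm_add_le (gq G j i i j - gq G j i j k) (gq G j i k l)
    have t3 := norm_sub_le (gq G j i i j) (gq G j i j k)
    linarith
  have hxiV : ∀ l', ∀ i j k l, ‖xiV (Gz (Pn n) (Bm α β σ X) (zl l') ^ 2) i j k l‖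
      ≤ 8 * (n : ℝ) ^ 5 := by
    intro l' i j k l
    unfold xiV
    rw [norm_mul, Complex.norm_ofNat]
    set V := Gz (Pn n) (Bm α β σ X) (zl l') ^ 2 with hVd
    have h1 := hV l' i j
    have h2 := hV l' j k
    have h3 := hV l' k l
    have h4 := hV l' l i
    rw [← hVd] at h1 h2 h3 h4
    have t1 := norm_sub_le (V i j - V j k + V k l) (V l i)
    have t2 := norm_add_le (V i j - V j k) (V k l)
    have t3 := norm_sub_le (V i j) (V j k)
    linarith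
  have bSL : ‖SL M G‖ ≤ (n : ℝ) ^ 4 * (8 * (n : ℝ) ^ 2) := by
    refine s4 (fun i j k l => s8 M i j k l * G j i) _ (by positivity) fun i j k l => ?_
    rw [norm_mul]
    exact mul_le_mul (s8_norm hsg i j k l) (hG j i) (norm_nonneg _) (by norm_num)
  have bSR : ‖SR M G‖ ≤ (n : ℝ) ^ 4 * (8 * (8 * (n : ℝ) ^ 4)) := by
    refine s4 (fun i j k l => alt8 M i j k l * xiG G i j k l) _ (by positivity) fun i j k l => ?_
    rw [norm_mul]
    exact mul_le_mul (alt8_norm hsg i j k l) (hxiG i j k l) (norm_nonneg _) (by norm_num)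
  have bSV : ∀ l', ‖SV M G (Gz (Pn n) (Bm α β σ X) (zl l') ^ 2)‖
      ≤ (n : ℝ) ^ 4 * (8 * ((n : ℝ) ^ 2 * (8 * (n : ℝ) ^ 5))) := by
    intro l'
    refine s4 (fun i j k l => alt8 M i j k l * (G j i *
      xiV (Gz (Pn n) (Bm α β σ X) (zl l') ^ 2) i j k l)) _ (by positivity) fun i j k l => ?_
    rw [norm_mul, norm_mul]
    exact mul_le_mul (alt8_norm hsg i j k l)
      (mul_le_mul (hG j i) (hxiV l' i j k l) (norm_nonneg _) (by positivity))
      (by positivity) (by norm_num)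
  have bSP : ‖SP M G‖ ≤ (n : ℝ) ^ 3 * (8 * (n : ℝ) ^ 2) := by
    unfold SP
    calc ‖∑ i, ∑ j, ∑ k, if i ≠ j ∧ j ≠ k ∧ i ≠ k then s8p M i j k * G i i else 0‖
        ≤ ∑ _i : Fin n, ∑ _j : Fin n, ∑ _k : Fin n, 8 * (n : ℝ) ^ 2 := by
          refine (norm_sum_le _ _).trans (Finset.sum_le_sum fun i _ => ?_)
          refine (norm_sum_le _ _).trans (Finset.sum_le_sum fun j _ => ?_)
          refine (norm_sum_le _ _).trans (Finset.sum_le_sum fun k _ => ?_)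
          split_ifs
          · rw [norm_mul]
            exact mul_le_mul (s8p_norm hsg i j k) (hG i i) (norm_nonneg _) (by norm_num)
          · rw [norm_zero]
            positivity
      _ = (n : ℝ) ^ 3 * (8 * (n : ℝ) ^ 2) := by
          simp only [Finset.sum_const, Finset.card_univ, Fintype.card_fin, nsmul_eq_mul]
          ring
  -- PthI
  have b3 : ‖PthI α β zl cl z σ X‖ ≤ 8 * (n : ℝ) ^ 5 * T := by
    unfold PthI
    rw [← hM, ← hGdef, norm_mul]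
    refine (mul_le_mul bSP hTh (norm_nonneg _) (by positivity)).trans (le_of_eq ?_)
    ring
  -- CycI
  have b2 : ‖CycI α β zl cl z σ X‖ ≤ (72 + 64 * K) * (n : ℝ) ^ 11 * T := by
    unfold CycI
    rw [← hM, ← hGdef]
    have c1 : ‖SL M G * Th (Pn n) (Bm α β σ X) zl cl‖ ≤ 8 * (n : ℝ) ^ 11 * T := by
      rw [norm_mul]
      refine (mul_le_mul bSL hTh (norm_nonneg _) (by positivity)).trans ?_
      have : (n : ℝ) ^ 6 ≤ (n : ℝ) ^ 11 := pow_le_pow_right₀ (by linarith) (by norm_num)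
      calc (n : ℝ) ^ 4 * (8 * (n : ℝ) ^ 2) * T = 8 * (n : ℝ) ^ 6 * T := by ring
        _ ≤ 8 * (n : ℝ) ^ 11 * T := by gcongr
    have c2 : ‖SR M G * Th (Pn n) (Bm α β σ X) zl cl‖ ≤ 64 * (n : ℝ) ^ 11 * T := by
      rw [norm_mul]
      refine (mul_le_mul bSR hTh (norm_nonneg _) (by positivity)).trans ?_
      have : (n : ℝ) ^ 8 ≤ (n : ℝ) ^ 11 := pow_le_pow_right₀ (by linarith) (by norm_num)
      calc (n : ℝ) ^ 4 * (8 * (8 * (n : ℝ) ^ 4)) * T = 64 * (n : ℝ) ^ 8 * T := by ring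
        _ ≤ 64 * (n : ℝ) ^ 11 * T := by gcongr
    have c3 : ‖(1 / (n : ℂ)) * ∑ l, SV M G (Gz (Pn n) (Bm α β σ X) (zl l) ^ 2) *
        ThE (Pn n) (Bm α β σ X) zl cl l‖ ≤ 64 * K * (n : ℝ) ^ 11 * T := by
      rw [norm_mul, norm_div, norm_one, Complex.norm_natCast]
      have d1 : ‖∑ l, SV M G (Gz (Pn n) (Bm α β σ X) (zl l) ^ 2) *
          ThE (Pn n) (Bm α β σ X) zl cl l‖ ≤ K * (64 * (n : ℝ) ^ 11 * T) := by
        refine (norm_sum_le _ _).trans ?_
        calc ∑ l, ‖SV M G (Gz (Pn n) (Bm α β σ X) (zl l) ^ 2) *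
              ThE (Pn n) (Bm α β σ X) zl cl l‖ ≤ ∑ _l : Fin K, 64 * (n : ℝ) ^ 11 * T := by
              refine Finset.sum_le_sum fun l _ => ?_
              rw [norm_mul]
              refine (mul_le_mul (bSV l) (hThE l) (norm_nonneg _) (by positivity)).trans
                (le_of_eq ?_)
              ring
          _ = K * (64 * (n : ℝ) ^ 11 * T) := by simp
      have d2 : 1 / (n : ℝ) ≤ 1 := by
        rw [div_le_one hn0]; linarith
      calc 1 / (n : ℝ) * ‖∑ l, SV M G (Gz (Pn n) (Bm α β σ X) (zl l) ^ 2) *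
          ThE (Pn n) (Bm α β σ X) zl cl l‖ ≤ 1 * (K * (64 * (n : ℝ) ^ 11 * T)) :=
            mul_le_mul d2 d1 (norm_nonneg _) zero_le_one
        _ = 64 * K * (n : ℝ) ^ 11 * T := by ring
    have c4 : ‖((α / Real.sqrt n : ℝ) : ℂ)‖ ≤ 1 := by
      rw [Complex.norm_real, Real.norm_eq_abs, abs_of_nonneg (by positivity)]
      rw [div_le_one (by linarith)]
      linarith
    refine (norm_add_le _ _).trans ?_
    rw [norm_mul ((α / Real.sqrt n : ℝ) : ℂ)]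
    have c5 := norm_add_le (SR M G * Th (Pn n) (Bm α β σ X) zl cl)
      ((1 / (n : ℂ)) * ∑ l, SV M G (Gz (Pn n) (Bm α β σ X) (zl l) ^ 2) *
        ThE (Pn n) (Bm α β σ X) zl cl l)
    have c6 := mul_le_mul c4 (c5.trans (add_le_add c2 c3)) (norm_nonneg _) zero_le_one
    refine (add_le_add c1 c6).trans (le_of_eq ?_)
    ring
  have f1 : (n : ℝ) ^ 10 ≤ (n : ℝ) ^ 11 := pow_le_pow_right₀ (by linarith) (by norm_num)
  have f2 : (n : ℝ) ^ 5 ≤ (n : ℝ) ^ 11 := pow_le_pow_right₀ (by linarith) (by norm_num)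
  have b1' : ‖MainN α β zl cl z σ X‖ ≤ (2 * K + 3) * (n : ℝ) ^ 11 * T := b1.trans (by gcongr)
  have b3' : ‖PthI α β zl cl z σ X‖ ≤ 8 * (n : ℝ) ^ 11 * T := b3.trans (by gcongr)
  have f3 : ((83 : ℝ) + 66 * K) ≤ (n : ℝ) ^ (K + 7) := by
    have g1 : (K : ℝ) + 1 ≤ 2 ^ K := by
      have : K + 1 ≤ 2 ^ K := Nat.lt_two_pow_self
      exact_mod_cast this
    calc ((83 : ℝ) + 66 * K) ≤ 128 * (K + 1) := by
          have : (0 : ℝ) ≤ K := Nat.cast_nonneg K
          linarith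
      _ ≤ 2 ^ 7 * 2 ^ K := by
          have : (2 : ℝ) ^ 7 = 128 := by norm_num
          rw [this]
          gcongr
      _ = 2 ^ (K + 7) := by rw [← pow_add, add_comm]
      _ ≤ (n : ℝ) ^ (K + 7) := pow_le_pow_left₀ (by norm_num) hn _
  calc ‖MainN α β zl cl z σ X‖ + ‖CycI α β zl cl z σ X‖ + ‖PthI α β zl cl z σ X‖
      ≤ (2 * K + 3) * (n : ℝ) ^ 11 * T + (72 + 64 * K) * (n : ℝ) ^ 11 * T
          + 8 * (n : ℝ) ^ 11 * T := add_le_add (add_le_add b1' b2) b3'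
    _ = (83 + 66 * K) * ((n : ℝ) ^ 11 * T) := by ring
    _ ≤ (n : ℝ) ^ (K + 7) * ((n : ℝ) ^ 11 * T) := by gcongr
    _ = (n : ℝ) ^ (5 * K + 18) := by
        rw [hT, ← pow_add, ← pow_add]
        congr 1
        ring

private theorem gpc_contG {n : ℕ} (α β : ℝ) {σ : Fin n → Fin n → Bool} (hσ : σ ∈ Sn n)
    {w : ℂ} (hw : w.im ≠ 0) :
    Continuous (fun X : Fin n × Fin n → ℝ => Gz (Pn n) (Bm α β σ X) w) := by
  refine continuous_matrix fun x y => ?_
  refine continuous_gz (fun X : Fin n × Fin n → ℝ => Bm α β σ X) (fun k l => ?_)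
    (fun X => pb_Bm α β σ hσ X) w hw x y
  have hW : Continuous (fun X : Fin n × Fin n → ℝ => Wv (1 / (n : ℝ)) X) := by
    refine continuous_matrix fun i j => ?_
    simp only [Wv, Matrix.of_apply]
    fun_prop
  have hB : Continuous (fun X : Fin n × Fin n → ℝ => Bm α β σ X) := by
    unfold Bm
    exact continuous_const.add (((continuous_const.matrix_mul hW).matrix_mul
      continuous_const).const_smul β)
  exact hB.matrix_elem k l

private theorem gpc_contm {n : ℕ} (α β : ℝ) {σ : Fin n → Fin n → Bool} (hσ : σ ∈ Sn n)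
    {w : ℂ} (hw : w.im ≠ 0) :
    Continuous (fun X : Fin n × Fin n → ℝ => mz (Pn n) (Bm α β σ X) w) := by
  unfold mz
  exact continuous_const.mul (gpc_contG α β hσ hw).matrix_trace

theorem int_F {n K : ℕ} {α β η : ℝ} {zl cl : Fin K → ℂ} {z : ℂ}
    (hP : Par n α β η zl cl z) : ∀ σ ∈ Sn n,
    Integrable (fun X => Fm α β zl cl z σ X) (gm n) := by
  intro σ hσ
  have : IsProbabilityMeasure (gm n) := by unfold gm; infer_instance
  refine Integrable.of_bound (Continuous.aestronglyMeasurable ?_)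
    ((2 * K + 3) * (n : ℝ) ^ 6 * (n : ℝ) ^ (4 * K)) (Filter.Eventually.of_forall fun X =>
      gpc_F hP hσ X)
  have hz := gpc_contG (n := n) α β hσ (gpc_im hP hP.az).1
  have hl := fun l => gpc_contG (n := n) α β hσ (gpc_im hP (hP.al l)).1
  have hmz := gpc_contm (n := n) α β hσ (gpc_im hP hP.az).1
  have hml := fun l => gpc_contm (n := n) α β hσ (gpc_im hP (hP.al l)).1
  unfold Fm
  refine Continuous.add (Continuous.mul ?_ ?_) (Continuous.mul continuous_const ?_)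
  · refine Continuous.add ?_ (Continuous.mul continuous_const (Continuous.add ?_ ?_))
    · exact continuous_const.mul ((continuous_const.matrix_mul hz).matrix_trace)
    · exact hmz.pow 2
    · refine continuous_const.mul ?_
      simp only [sq]
      exact (hz.matrix_mul hz).matrix_trace
  · exact continuous_finsetProd _ fun l _ => (hml l).sub continuous_const
  · refine continuous_finsetSum _ fun l _ => ?_
    refine Continuous.mul ?_ ?_
    · simp only [sq]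
      exact (hz.matrix_mul ((hl l).matrix_mul (hl l))).matrix_trace
    · exact continuous_finsetProd _ fun l _ => (hml l).sub continuous_const

theorem int_X {n K : ℕ} {α β η : ℝ} {zl cl : Fin K → ℂ} {z : ℂ}
    (hP : Par n α β η zl cl z) (ρ : ℝ) (hρ : 0 ≤ ρ) : ∀ σ ∈ Sn n,
    Integrable (fun X => Xw (Pn n) (Bm α β σ X) zl cl ρ) (gm n) ∧
    Integrable (fun X => Xw (Pn n) (Bm α β σ X) zl cl ρ ^ 2) (gm n) := by
  intro σ hσ
  have : IsProbabilityMeasure (gm n) := by unfold gm; infer_instance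
  have hml := fun l => gpc_contm (n := n) α β hσ (gpc_im hP (hP.al l)).1
  have hc : Continuous (fun X : Fin n × Fin n → ℝ => Xw (Pn n) (Bm α β σ X) zl cl ρ) := by
    unfold Xw
    exact continuous_finsetProd _ fun l _ => ((hml l).sub continuous_const).norm.add
      continuous_const
  have h0 : ∀ X : Fin n × Fin n → ℝ, 0 ≤ Xw (Pn n) (Bm α β σ X) zl cl ρ := fun X =>
    Finset.prod_nonneg fun l _ => add_nonneg (norm_nonneg _) hρ
  have hb : ∀ X : Fin n × Fin n → ℝ, Xw (Pn n) (Bm α β σ X) zl cl ρ ≤ ((n : ℝ) ^ 4 + ρ) ^ K := by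
    intro X
    unfold Xw
    calc ∏ l, (‖mz (Pn n) (Bm α β σ X) (zl l) - cl l‖ + ρ) ≤ ∏ _l : Fin K, ((n : ℝ) ^ 4 + ρ) :=
          Finset.prod_le_prod (fun l _ => add_nonneg (norm_nonneg _) hρ) fun l _ =>
            add_le_add (gpc_fac hP hσ X l) le_rfl
      _ = ((n : ℝ) ^ 4 + ρ) ^ K := by
          rw [Finset.prod_const, Finset.card_univ, Fintype.card_fin]
  constructor
  · refine Integrable.of_bound hc.aestronglyMeasurable (((n : ℝ) ^ 4 + ρ) ^ K)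
      (Filter.Eventually.of_forall fun X => ?_)
    rw [Real.norm_eq_abs, abs_of_nonneg (h0 X)]
    exact hb X
  · refine Integrable.of_bound (hc.pow 2).aestronglyMeasurable ((((n : ℝ) ^ 4 + ρ) ^ K) ^ 2)
      (Filter.Eventually.of_forall fun X => ?_)
    rw [Real.norm_eq_abs, abs_of_nonneg (by positivity)]
    exact pow_le_pow_left₀ (h0 X) (hb X) 2

/-- pointwise bound used for large `ν + c`: `1/η ≤ n²`, `η ≤ n³`, `ρ ≥ 1/(nη)`:
`|(1/n) tr(H_0 G)| ≤ n³`, `|m²|, |n⁻² tr G²| ≤ n⁴`, `|tr(G V_l)| ≤ n⁹`, `|Θ_l| ≤ n η Ξ ≤ n⁴ Ξ`: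
`|F| ≤ (n³ + 2 n⁴ + 2 K n^10) Ξ ≤ n^12 Ξ` for `n ≥ 2K + 3` -/
theorem crude_f {n K : ℕ} {α β η : ℝ} {zl cl : Fin K → ℂ} {z : ℂ}
    (hP : Par n α β η zl cl z) (hn : 2 * K + 3 ≤ n) (ρ : ℝ) (hρ : 1 / (n * η) ≤ ρ) :
    ∀ σ ∈ Sn n, ∀ X : Fin n × Fin n → ℝ,
      ‖Fm α β zl cl z σ X‖ ≤ (n : ℝ) ^ 12 * Xw (Pn n) (Bm α β σ X) zl cl ρ := by
  intro σ hσ X
  have hn2 := gpc_n1 hP
  have hn0 : (0 : ℝ) < n := by linarith
  have hnη : 0 < (n : ℝ) * η := mul_pos hn0 hP.e0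
  have hρ0 : 0 < ρ := lt_of_lt_of_le (by positivity) hρ
  set Ξ := Xw (Pn n) (Bm α β σ X) zl cl ρ with hΞ
  have hΞ0 : 0 ≤ Ξ := Finset.prod_nonneg fun l _ => add_nonneg (norm_nonneg _) hρ0.le
  have h1 := gpc_main hP hσ X
  have h3 : ‖Th (Pn n) (Bm α β σ X) zl cl‖ ≤ Ξ := th_le (Pn n) (Bm α β σ X) zl cl ρ hρ0.le
  have h4 : ∀ l, ‖ThE (Pn n) (Bm α β σ X) zl cl l‖ ≤ (n : ℝ) ^ 4 * Ξ := by
    intro l
    have h5 := thE_le (Pn n) (Bm α β σ X) zl cl ρ hρ0 l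
    have h6 : ‖ThE (Pn n) (Bm α β σ X) zl cl l‖ * (1 / (n * η)) ≤ Ξ :=
      (mul_le_mul_of_nonneg_left hρ (norm_nonneg _)).trans h5
    have h7 : ‖ThE (Pn n) (Bm α β σ X) zl cl l‖ ≤ n * η * Ξ := by
      rw [mul_one_div, div_le_iff₀ hnη] at h6
      linarith
    refine h7.trans ?_
    have h8 : (n : ℝ) * η ≤ (n : ℝ) ^ 4 := by
      have := mul_le_mul_of_nonneg_left hP.e3 hn0.le
      calc (n : ℝ) * η ≤ n * (n : ℝ) ^ 3 := this
        _ = (n : ℝ) ^ 4 := by ring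
    exact mul_le_mul_of_nonneg_right h8 hΞ0
  have h2 := gpc_sum hP hσ X _ h4
  unfold Fm
  refine (norm_add_le _ _).trans ?_
  rw [norm_mul]
  have h5 := mul_le_mul h1 h3 (norm_nonneg _) (by positivity : (0 : ℝ) ≤ 3 * (n : ℝ) ^ 4)
  have e5 : (n : ℝ) ^ 4 ≤ (n : ℝ) ^ 10 := pow_le_pow_right₀ (by linarith) (by norm_num)
  have h6 : 3 * (n : ℝ) ^ 4 * Ξ ≤ 3 * (n : ℝ) ^ 10 * Ξ := by gcongr
  have hK : (2 * (K : ℝ) + 3) ≤ n := by exact_mod_cast hn
  have e6 : (n : ℝ) ^ 11 ≤ (n : ℝ) ^ 12 := pow_le_pow_right₀ (by linarith) (by norm_num)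
  calc _ ≤ 3 * (n : ℝ) ^ 4 * Ξ + 2 * K * (n : ℝ) ^ 6 * ((n : ℝ) ^ 4 * Ξ) := add_le_add h5 h2
    _ ≤ 3 * (n : ℝ) ^ 10 * Ξ + 2 * K * (n : ℝ) ^ 6 * ((n : ℝ) ^ 4 * Ξ) := add_le_add h6 le_rfl
    _ = (2 * K + 3) * ((n : ℝ) ^ 10 * Ξ) := by ring
    _ ≤ n * ((n : ℝ) ^ 10 * Ξ) := by gcongr
    _ = (n : ℝ) ^ 11 * Ξ := by ring
    _ ≤ (n : ℝ) ^ 12 * Ξ := by gcongr

end Pool.Agent.ZR.G

end

section

/-!
# ZR/JGood : probability of the good event along the path, and of the diagonal entries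

`diag_whp`: `τ ≤ n^(-δ)/n ≤ 1/n` (`tau_bounds`), so `√(2τ)|X_ii| > κ` implies `|X_ii| > κ √(n/2)`; by
`gm_diag_tail` and the union bound over the `n` indices the probability is at most
`2 n exp(-κ² n/4) ≤ n^(-D)` for `n` large (depending on `κ, D`).
`good_whp`: the complement of the good event is contained in the union of the `n` events
`{n^(c+ν-δ/2) < ‖q_i‖}` for the vectors `mixV d d' i` (`qf_whp` with `D + 2` instead of `D`) and of the
event of `diag_whp` (with `D + 1`): total `≤ n n^(-D-2) + n^(-D-1) ≤ 2 n^(-D-1) ≤ n^(-D)` for `n ≥ 2`.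
-/


open MeasureTheory ProbabilityTheory Matrix

namespace Pool.Agent.ZR

theorem diag_whp (δ κ D : ℝ) (hδ : 0 < δ) (hκ : 0 < κ) :
    ∃ n0 : ℕ, ∀ n : ℕ, n0 ≤ n →
      let τ : ℝ := (1 - Real.exp (-((n : ℝ) ^ (-δ)))) * (1 / (n : ℝ))
      (gm n).real {X | ¬ ∀ i, Real.sqrt (2 * τ) * |X (i, i)| ≤ κ} ≤ (n : ℝ) ^ (-D) := by
  have hc : Filter.Tendsto (fun n : ℕ => (n : ℝ)) Filter.atTop Filter.atTop :=
    tendsto_natCast_atTop_atTop
  have t1 := ((tendsto_rpow_mul_exp_neg_mul_atTop_nhds_zero (D + 1) (κ ^ 2 / 4)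
    (by positivity)).comp hc).eventually (Iio_mem_nhds (show (0 : ℝ) < 1 / 2 by norm_num))
  obtain ⟨n0, hn0⟩ := Filter.eventually_atTop.1 ((Filter.eventually_ge_atTop 1).and t1)
  refine ⟨n0, fun n hn => ?_⟩
  obtain ⟨hn1, h1⟩ := hn0 n hn
  intro τ
  obtain ⟨hτ0, hτ1, -⟩ := tau_bounds n hn1 δ hδ
  change 0 < τ at hτ0
  change τ ≤ (n : ℝ) ^ (-δ) / n at hτ1
  clear_value τ
  have hnpos : (0 : ℝ) < n := by exact_mod_cast hn1
  have hn1' : (1 : ℝ) ≤ n := by exact_mod_cast hn1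
  have hτ2 : τ ≤ 1 / n := by
    refine hτ1.trans ?_
    have : (n : ℝ) ^ (-δ) ≤ 1 := Real.rpow_le_one_of_one_le_of_nonpos hn1' (by linarith)
    exact div_le_div_of_nonneg_right this hnpos.le
  have hsub : {X : Fin n × Fin n → ℝ | ¬ ∀ i, Real.sqrt (2 * τ) * |X (i, i)| ≤ κ}
      ⊆ ⋃ i ∈ (Finset.univ : Finset (Fin n)), {X | κ * Real.sqrt (n / 2) < |X (i, i)|} := by
    intro X hX
    simp only [Set.mem_setOf_eq, not_forall, not_le] at hX
    obtain ⟨i, hi⟩ := hX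
    simp only [Set.mem_iUnion]
    refine ⟨i, Finset.mem_univ i, ?_⟩
    simp only [Set.mem_setOf_eq]
    have h2 : Real.sqrt (2 * τ) ≤ Real.sqrt (2 / n) := by
      apply Real.sqrt_le_sqrt
      rw [div_eq_mul_one_div]
      linarith
    have h3 : κ < Real.sqrt (2 / n) * |X (i, i)| :=
      lt_of_lt_of_le hi (mul_le_mul_of_nonneg_right h2 (abs_nonneg _))
    have h4 : Real.sqrt (2 / n) * Real.sqrt (n / 2) = 1 := by
      rw [← Real.sqrt_mul (by positivity)]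
      have : (2 : ℝ) / n * (n / 2) = 1 := by field_simp
      rw [this, Real.sqrt_one]
    have h5 : 0 < Real.sqrt (n / 2) := Real.sqrt_pos.2 (by positivity)
    calc κ * Real.sqrt (n / 2) < (Real.sqrt (2 / n) * |X (i, i)|) * Real.sqrt (n / 2) :=
          mul_lt_mul_of_pos_right h3 h5
      _ = (Real.sqrt (2 / n) * Real.sqrt (n / 2)) * |X (i, i)| := by ring
      _ = |X (i, i)| := by rw [h4, one_mul]
  have hs0 : 0 ≤ κ * Real.sqrt (n / 2) := mul_nonneg hκ.le (Real.sqrt_nonneg _)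
  have hsq : (κ * Real.sqrt (n / 2)) ^ 2 = κ ^ 2 * (n / 2) := by
    rw [mul_pow, Real.sq_sqrt (by positivity)]
  have h6 : (gm n).real {X : Fin n × Fin n → ℝ | ¬ ∀ i, Real.sqrt (2 * τ) * |X (i, i)| ≤ κ}
      ≤ n * (2 * Real.exp (-(κ ^ 2 / 4) * n)) := by
    refine (measureReal_mono hsub (measure_ne_top _ _)).trans ?_
    refine (measureReal_biUnion_finset_le _ _).trans ?_
    refine (Finset.sum_le_sum fun i _ => gm_diag_tail i _ hs0).trans ?_
    rw [Finset.sum_const, Finset.card_univ, Fintype.card_fin, nsmul_eq_mul, hsq]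
    refine le_of_eq ?_
    congr 3
    ring
  refine h6.trans ?_
  simp only [Function.comp, Set.mem_Iio] at h1
  rw [Real.rpow_add hnpos, Real.rpow_one] at h1
  have hD : (n : ℝ) ^ (-D) * (n : ℝ) ^ D = 1 := by
    rw [← Real.rpow_add hnpos, neg_add_cancel, Real.rpow_zero]
  have hDpos : 0 < (n : ℝ) ^ (-D) := Real.rpow_pos_of_pos hnpos _
  calc (n : ℝ) * (2 * Real.exp (-(κ ^ 2 / 4) * n))
      = (n : ℝ) ^ (-D) * (2 * ((n : ℝ) ^ D * (n : ℝ) * Real.exp (-(κ ^ 2 / 4) * n))) := by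
        linear_combination (-2 * (n : ℝ) * Real.exp (-(κ ^ 2 / 4) * n)) * hD
    _ ≤ (n : ℝ) ^ (-D) * 1 := mul_le_mul_of_nonneg_left (by linarith) hDpos.le
    _ = (n : ℝ) ^ (-D) := mul_one _

theorem good_whp (δ c ν D κ : ℝ) (hδ : 0 < δ) (hδ1 : δ < 1) (hc : 0 ≤ c) (hν : 0 < ν)
    (hκ : 0 < κ) :
    ∃ n0 : ℕ, ∀ N : ℕ, n0 ≤ N + 1 → ∀ (d d' : Fin (N + 1) → ℝ) (z : ℂ),
      ((N + 1 : ℕ) : ℝ) ^ (-1 - c) ≤ z.im →
      let n : ℝ := ((N + 1 : ℕ) : ℝ)
      let τ : ℝ := (1 - Real.exp (-(n ^ (-δ)))) * (1 / n)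
      (gm (N + 1)).real {X | ¬ ((∀ i : Fin (N + 1),
          ‖qf (mino i (Dw τ (mixV d d' i) X)) (rowv i (Dw τ (mixV d d' i) X)) z‖
            ≤ n ^ (c + ν - δ / 2)) ∧ ∀ i, Real.sqrt (2 * τ) * |X (i, i)| ≤ κ)} ≤ n ^ (-D) := by
  obtain ⟨n1, hn1⟩ := qf_whp δ c ν (D + 2) hδ hδ1 hc hν
  obtain ⟨n2, hn2⟩ := diag_whp δ κ (D + 1) hδ hκ
  refine ⟨n1 + n2 + 2, fun N hN d d' z hz => ?_⟩
  intro n τ
  have h1 := fun i : Fin (N + 1) => hn1 N (by omega) i (mixV d d' i) z hz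
  have h2 := hn2 (N + 1) (by omega)
  change ∀ i : Fin (N + 1), (gm (N + 1)).real {X | n ^ (c + ν - δ / 2)
    < ‖qf (mino i (Dw τ (mixV d d' i) X)) (rowv i (Dw τ (mixV d d' i) X)) z‖}
      ≤ n ^ (-(D + 2)) at h1
  change (gm (N + 1)).real {X | ¬ ∀ i, Real.sqrt (2 * τ) * |X (i, i)| ≤ κ} ≤ n ^ (-(D + 1)) at h2
  have hn : n = ((N + 1 : ℕ) : ℝ) := rfl
  have hn2' : (2 : ℝ) ≤ n := by
    rw [hn]
    have : 2 ≤ N + 1 := by omega
    exact_mod_cast this
  clear_value n τ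
  have hnpos : 0 < n := by linarith
  have hsub : {X : Fin (N + 1) × Fin (N + 1) → ℝ | ¬ ((∀ i : Fin (N + 1),
          ‖qf (mino i (Dw τ (mixV d d' i) X)) (rowv i (Dw τ (mixV d d' i) X)) z‖
            ≤ n ^ (c + ν - δ / 2)) ∧ ∀ i, Real.sqrt (2 * τ) * |X (i, i)| ≤ κ)}
      ⊆ (⋃ i ∈ (Finset.univ : Finset (Fin (N + 1))), {X | n ^ (c + ν - δ / 2)
          < ‖qf (mino i (Dw τ (mixV d d' i) X)) (rowv i (Dw τ (mixV d d' i) X)) z‖})
        ∪ {X | ¬ ∀ i, Real.sqrt (2 * τ) * |X (i, i)| ≤ κ} := by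
    intro X hX
    by_cases hB : ∀ i, Real.sqrt (2 * τ) * |X (i, i)| ≤ κ
    · left
      by_contra hcon
      apply hX
      refine ⟨fun i => ?_, hB⟩
      by_contra h3
      apply hcon
      simp only [Set.mem_iUnion]
      exact ⟨i, Finset.mem_univ i, not_le.1 h3⟩
    · right
      exact hB
  refine (measureReal_mono hsub (measure_ne_top _ _)).trans ?_
  refine (measureReal_union_le _ _).trans ?_
  have h3 : (gm (N + 1)).real (⋃ i ∈ (Finset.univ : Finset (Fin (N + 1))),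
      {X | n ^ (c + ν - δ / 2)
          < ‖qf (mino i (Dw τ (mixV d d' i) X)) (rowv i (Dw τ (mixV d d' i) X)) z‖})
      ≤ n * n ^ (-(D + 2)) := by
    refine (measureReal_biUnion_finset_le _ _).trans ?_
    refine (Finset.sum_le_sum fun i _ => h1 i).trans ?_
    rw [Finset.sum_const, Finset.card_univ, Fintype.card_fin, nsmul_eq_mul, ← hn]
  have e1 : n * n ^ (-(D + 2)) = n ^ (-(D + 1)) := by
    have : n ^ (-(D + 1)) = n ^ ((1 : ℝ) + -(D + 2)) := by congr 1; ring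
    rw [this, Real.rpow_add hnpos, Real.rpow_one]
  have e2 : n * n ^ (-(D + 1)) = n ^ (-D) := by
    have : n ^ (-D) = n ^ ((1 : ℝ) + -(D + 1)) := by congr 1; ring
    rw [this, Real.rpow_add hnpos, Real.rpow_one]
  have hp : 0 < n ^ (-(D + 1)) := Real.rpow_pos_of_pos hnpos _
  rw [e1] at h3
  rw [← e2]
  nlinarith

end Pool.Agent.ZR

end
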