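import Pool.Agent.ZRM.P13
import Pool.Agent.ZRM.P15
import Pool.Agent.ZRM.P16

/-!
# Merged form of the modules ZR.FR2, ZR.MBad, ZBL.G11, ZR.MAvg, ZBL.B2, ZR.H4
-/

set_option autoImplicit false

section

/-!
# ZR/FR2 : switching estimate for the residual

`X` fixed, `B = Bm α β σ X`, `H = H0 σ`, `r_ab = rf (H0 σ) (Pn n) B α z a b`, `Ψ = PsiF p r_xy`,
`Ψ'_jkl = (1/√n) dPsi p r_xy (drf (H0 σ) (Pn n) B α Xi (α • Xi) z x y)`, `Xi = Xi x j k l`.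
By `Mx_switch`, `H0 σ' = H0 σ + Y0`, `Bm .. σ' = Bm .. σ + αY0`, `Y0 = -(2a/√n) Xi`, `a = M_xj`,
`sp1 Y0 ≤ 16/√n`.  Apply `switchF` (F3) with, for good `σ`, the parameters `Λ, Γ, τ` and
`r_jkl = 100p²Γ(32Γ/√n)²(‖r_xy‖ + 40Γ²(1+h_jkl))^{2p-1}`, `h_jkl = 4Γ² + ∑_{b ∈ {x,j,k,l}} ‖r_xb‖`
(`‖(H0 G)_xb‖ ≤ ‖r_xb‖ + ‖m‖‖G_xb‖ ≤ ‖r_xb‖ + Γ²`; rows `b ∉ {x,j,k,l}` of `Xi` vanish); `rem_r`,
linearity `drf_smul`, `dGm_smul`, `dPsi_smul`.
With `Z = 1 + ‖r_xy‖^{2p} + ‖r_xx‖^{2p} + (1/n)∑_b ‖r_xb‖^{2p}` every term of `switchF` is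
`≤ C_p Λ⁴Γ^{8p+8}(τ + 1/√n) Z`:
* `κ₁‖r_xy‖^{2p-1} ≤ 200Λ⁴Γ²(τ+1/√n)(1+‖r_xy‖^{2p})`;
* `n^{-3}∑_jkl (‖r_xy‖ + 40Γ²(1+h_jkl))^{2p-1} ≤ 1 + n^{-3}∑_jkl (..)^{2p} ≤ C_pΓ^{8p}Z` (power mean;
  the average over `j, k, l` of `‖r_xj‖^{2p}` is `(1/n)∑_b‖r_xb‖^{2p}`), times
  `(4/√n^5)n³·100p²Γ·1024Γ²/n = C p²Γ³/√n`;
* `‖Ψ'_jkl‖ ≤ (1/√n) 2p‖r_xy‖^{2p-2}·32Γ³(1+h_jkl)` (`bd_dr`), and
  `n^{-3}∑_jkl ‖G_jy‖(1+h_jkl) ≤ τ(1 + 4Γ² + ‖r_xx‖ + 2(1/n)∑_b‖r_xb‖ + ((1/n)∑_b‖r_xb‖²)^{1/2})`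
  (Cauchy-Schwarz for the index `j`); products are bounded by `1 + ` sums of `2p`-th powers.
Bad `σ`: crude bounds (`‖G_ab‖ ≤ n`, `‖(H0 G)_ab‖ ≤ √n·n`, `‖r_ab‖ ≤ 2n²`, `‖drf‖ ≤ C n^{10}`).
-/


open MeasureTheory ProbabilityTheory Matrix

namespace Pool.Agent.ZR.F

private theorem FR2_pbXi {n : ℕ} (x j k l : Fin n) (c : ℝ) : PB (Pn n) (c • Xi x j k l) := by
  refine ⟨Pn_symm n, Pn_idem n, ?_, ?_, ?_⟩
  · rw [Matrix.transpose_smul, Xi_symm]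
  · rw [Matrix.mul_smul, (Xi_Pn x j k l).1]
  · rw [Matrix.smul_mul, (Xi_Pn x j k l).2]

private theorem FR2_pbXi1 {n : ℕ} (x j k l : Fin n) : PB (Pn n) (Xi x j k l) := by
  have := FR2_pbXi x j k l 1
  rwa [one_smul] at this

private theorem FR2_H0_flip {n : ℕ} {x j k l : Fin n} (h : Dst x j k l)
    {σ : Fin n → Fin n → Bool} (hσ : σ ∈ Sn n) (ha : Alt4 x j k l σ) :
    H0 (flipP (cyc x j k l) σ)
      = H0 σ + (-(2 * Mx σ x j * (1 / Real.sqrt n))) • Xi x j k l := by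
  obtain ⟨h1, h2, h3, h4, h5, h6⟩ := h
  unfold H0
  rw [Mx_switch h1 h2 h3 h4 h5 h6 hσ ha]
  ext u v
  simp only [Matrix.add_apply, Matrix.smul_apply, Matrix.sub_apply, smul_eq_mul]
  ring

/-- rows of `Xi` outside `{x, j, k, l}` vanish -/
private theorem FR2_Xi_row {n : ℕ} {x j k l b c : Fin n} (h : Xi x j k l b c ≠ 0) :
    b = x ∨ b = j ∨ b = k ∨ b = l := by
  by_contra hcon
  push Not at hcon
  obtain ⟨h1, h2, h3, h4⟩ := hcon
  apply h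
  simp [Xi, Es, h1, h2, h3, h4]

private theorem FR2_mz {N : ℕ} {Q B : Matrix (Fin N) (Fin N) ℝ} {Γ : ℝ} (hΓ : 0 ≤ Γ) {z : ℂ}
    (hG : EnLe (Gz Q B z) Γ) : ‖mz Q B z‖ ≤ Γ := by
  unfold mz
  rcases Nat.eq_zero_or_pos N with h0 | h0
  · subst h0
    simp [Matrix.trace, hΓ]
  · have hN : (0 : ℝ) < N := by exact_mod_cast h0
    rw [norm_mul]
    have h1 : ‖(Gz Q B z).trace‖ ≤ N * Γ := by
      calc ‖(Gz Q B z).trace‖ ≤ ∑ i : Fin N, ‖Gz Q B z i i‖ := norm_sum_le _ _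
        _ ≤ ∑ i : Fin N, Γ := Finset.sum_le_sum fun i _ => hG i i
        _ = N * Γ := by simp
    have h2 : ‖(1 / (N : ℂ))‖ = 1 / (N : ℝ) := by simp
    rw [h2]
    calc 1 / (N : ℝ) * ‖(Gz Q B z).trace‖ ≤ 1 / (N : ℝ) * (N * Γ) :=
          mul_le_mul_of_nonneg_left h1 (by positivity)
      _ = Γ := by field_simp

/-- `‖(H G)_ab‖ ≤ ‖r_ab‖ + Γ²` -/
private theorem FR2_HG {N : ℕ} {H Q B : Matrix (Fin N) (Fin N) ℝ} {Γ α : ℝ} (hΓ : 0 ≤ Γ)
    (h0 : 0 ≤ α) (h1 : α ≤ 1) {z : ℂ} (hG : EnLe (Gz Q B z) Γ) (a b : Fin N) :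
    ‖(toC H * Gz Q B z) a b‖ ≤ ‖rf H Q B α z a b‖ + Γ ^ 2 := by
  have e : (toC H * Gz Q B z) a b = rf H Q B α z a b - (α : ℂ) * mz Q B z * Gz Q B z a b := by
    unfold rf; ring
  rw [e]
  refine (norm_sub_le _ _).trans (add_le_add le_rfl ?_)
  rw [norm_mul, norm_mul, Complex.norm_real, Real.norm_eq_abs, abs_of_nonneg h0]
  have h2 := FR2_mz hΓ hG
  have h3 := hG a b
  calc α * ‖mz Q B z‖ * ‖Gz Q B z a b‖ ≤ 1 * Γ * Γ := by gcongr
    _ = Γ ^ 2 := by ring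

/-- crude bounds valid for all patterns -/
private theorem FR2_crude {n : ℕ} (hn : 3 ≤ n) (α β : ℝ) (hα0 : 0 ≤ α) (hα1 : α ≤ 1)
    {σ : Fin n → Fin n → Bool} (hσ : σ ∈ Sn n)
    (X : Fin n × Fin n → ℝ) (z : ℂ) (hz : 0 < z.im) (hz1 : 1 ≤ n * z.im) :
    HypM (Mx σ) (Real.sqrt n) ∧ HypG (Gz (Pn n) (Bm α β σ X) z) n n ∧
      (∀ a b, ‖(toC (H0 σ) * Gz (Pn n) (Bm α β σ X) z) a b‖ ≤ (n : ℝ) ^ 2) ∧
      (∀ a b, ‖rf (H0 σ) (Pn n) (Bm α β σ X) α z a b‖ ≤ 2 * (n : ℝ) ^ 2) := by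
  have hn3 : (3 : ℝ) ≤ n := by exact_mod_cast hn
  have hn0 : (0 : ℝ) < n := by linarith
  have hB := pb_Bm α β σ hσ X
  have habs : |z.im| = z.im := abs_of_pos hz
  have hinv : 1 / |z.im| ≤ n := by
    rw [habs, div_le_iff₀ hz]; exact hz1
  have hen : EnLe (Gz (Pn n) (Bm α β σ X) z) n := fun x y => (g_entry_le hB z hz.ne' x y).trans hinv
  have hcr := crude hn α β hσ X Complex.I (by simp) (by simp; linarith) (by simp)
  have hHG : ∀ a b, ‖(toC (H0 σ) * Gz (Pn n) (Bm α β σ X) z) a b‖ ≤ (n : ℝ) ^ 2 := by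
    intro a b
    rw [Matrix.mul_apply]
    have h1 : ∀ c, ‖toC (H0 σ) a c * Gz (Pn n) (Bm α β σ X) z c b‖ ≤ n := by
      intro c
      rw [norm_mul]
      have h2 : ‖toC (H0 σ) a c‖ ≤ 1 := by
        have h3 : toC (H0 σ) a c = ((1 / Real.sqrt n * Mx σ a c : ℝ) : ℂ) := by
          simp [toC, H0]
        rw [h3, Complex.norm_real, Real.norm_eq_abs, abs_mul]
        have h4 : |Mx σ a c| = 1 := by
          rw [← Real.sqrt_sq_eq_abs, Mx_sq, Real.sqrt_one]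
        have h5 : 1 ≤ Real.sqrt n := by rw [Real.one_le_sqrt]; linarith
        rw [h4, mul_one, abs_of_nonneg (by positivity), div_le_one (by linarith)]
        exact h5
      calc ‖toC (H0 σ) a c‖ * ‖Gz (Pn n) (Bm α β σ X) z c b‖ ≤ 1 * n :=
            mul_le_mul h2 (hen c b) (norm_nonneg _) zero_le_one
        _ = n := one_mul _
    calc ‖∑ c, toC (H0 σ) a c * Gz (Pn n) (Bm α β σ X) z c b‖
        ≤ ∑ c, ‖toC (H0 σ) a c * Gz (Pn n) (Bm α β σ X) z c b‖ := norm_sum_le _ _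
      _ ≤ ∑ _c : Fin n, (n : ℝ) := Finset.sum_le_sum fun c _ => h1 c
      _ = (n : ℝ) ^ 2 := by simp; ring
  refine ⟨hcr.1, ⟨gz_symm hB z hz.ne', hen, ?_, by linarith, hn0.le⟩, hHG, ?_⟩
  · intro y
    have h1 : ∀ j, Gz (Pn n) (Bm α β σ X) z j y = Gz (Pn n) (Bm α β σ X) z y j := fun j => by
      have := congrFun (congrFun (gz_symm hB z hz.ne') y) j
      rw [Matrix.transpose_apply] at this
      exact this
    simp_rw [h1]
    rw [ward hB z hz y]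
    have h2 : (Gz (Pn n) (Bm α β σ X) z y y).im ≤ n :=
      (Complex.im_le_norm _).trans (hen y y)
    have h3 : (Gz (Pn n) (Bm α β σ X) z y y).im / z.im ≤ n * n := by
      rw [div_le_iff₀ hz]
      nlinarith
    nlinarith [mul_pos hn0 hn0]
  · intro a b
    unfold rf
    refine (norm_add_le _ _).trans ?_
    have h2 : ‖mz (Pn n) (Bm α β σ X) z‖ ≤ n := FR2_mz hn0.le hen
    have h3 := hen a b
    have h4 : ‖(α : ℂ) * mz (Pn n) (Bm α β σ X) z * Gz (Pn n) (Bm α β σ X) z a b‖ ≤ (n : ℝ) ^ 2 := by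
      rw [norm_mul, norm_mul, Complex.norm_real, Real.norm_eq_abs, abs_of_nonneg hα0]
      calc α * ‖mz (Pn n) (Bm α β σ X) z‖ * ‖Gz (Pn n) (Bm α β σ X) z a b‖ ≤ 1 * n * n := by gcongr
        _ = (n : ℝ) ^ 2 := by ring
    linarith [hHG a b]

/-- the derivative of `G_jy Ψ` in direction `(1/√n) (Xi, α Xi)` -/
private noncomputable def FR2_Dv {n : ℕ} (H B : Matrix (Fin n) (Fin n) ℝ) (α : ℝ) (z : ℂ) (p : ℕ)
    (c1 c0 : ℝ) (x y j k l : Fin n) : ℂ :=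
  -((c1 : ℝ) : ℂ) * (Gz (Pn n) B z * toC (Xi x j k l) * Gz (Pn n) B z) j y
      * PsiF p (rf H (Pn n) B α z x y)
    + Gz (Pn n) B z j y * ((c0 : ℂ) * dPsi p (rf H (Pn n) B α z x y)
        (drf H (Pn n) B α (Xi x j k l) (α • Xi x j k l) z x y))

private theorem FR2_Dv_eq {n : ℕ} (H B : Matrix (Fin n) (Fin n) ℝ) (α : ℝ) (z : ℂ) (p : ℕ)
    (a c1 c0 : ℝ) (hc : c1 = α * c0) (x y j k l : Fin n) :
    dGm (Pn n) B (α • ((-(2 * a * c0)) • Xi x j k l)) z j y * PsiF p (rf H (Pn n) B α z x y)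
        + Gz (Pn n) B z j y * dPsi p (rf H (Pn n) B α z x y)
            (drf H (Pn n) B α ((-(2 * a * c0)) • Xi x j k l)
              (α • ((-(2 * a * c0)) • Xi x j k l)) z x y)
      = -2 * (a : ℂ) * FR2_Dv H B α z p c1 c0 x y j k l := by
  subst hc
  have e : α • ((-(2 * a * c0)) • Xi x j k l) = (-(2 * a * c0)) • (α • Xi x j k l) := smul_comm _ _ _
  rw [e, drf_smul, dPsi_smul, dGm_smul, dGm_smul]
  unfold FR2_Dv dGm
  rw [Matrix.neg_apply]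
  push_cast
  ring

/-- size of the rows -/
private noncomputable def FR2_h {n : ℕ} (H B : Matrix (Fin n) (Fin n) ℝ) (α Γ : ℝ) (z : ℂ)
    (x j k l : Fin n) : ℝ :=
  Γ ^ 2 + (‖rf H (Pn n) B α z x x‖ + ‖rf H (Pn n) B α z x j‖ + ‖rf H (Pn n) B α z x k‖
    + ‖rf H (Pn n) B α z x l‖)

private theorem FR2_h0 {n : ℕ} (H B : Matrix (Fin n) (Fin n) ℝ) (α Γ : ℝ) (z : ℂ)
    (x j k l : Fin n) : 0 ≤ FR2_h H B α Γ z x j k l := by
  unfold FR2_h; positivity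

private theorem FR2_rows {n : ℕ} {H B : Matrix (Fin n) (Fin n) ℝ} {α Γ : ℝ} (hΓ : 0 ≤ Γ)
    (h0 : 0 ≤ α) (h1 : α ≤ 1) {z : ℂ} (hG : EnLe (Gz (Pn n) B z) Γ) {x j k l b c : Fin n}
    (h : Xi x j k l b c ≠ 0) :
    ‖(toC H * Gz (Pn n) B z) x b‖ ≤ FR2_h H B α Γ z x j k l := by
  refine (FR2_HG hΓ h0 h1 hG x b).trans ?_
  unfold FR2_h
  have n1 := norm_nonneg (rf H (Pn n) B α z x x)
  have n2 := norm_nonneg (rf H (Pn n) B α z x j)
  have n3 := norm_nonneg (rf H (Pn n) B α z x k)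
  have n4 := norm_nonneg (rf H (Pn n) B α z x l)
  rcases FR2_Xi_row h with rfl | rfl | rfl | rfl <;> linarith

private theorem FR2_good {n : ℕ} (hn : 3 ≤ n) (α β : ℝ) (hα0 : 0 ≤ α) (hα1 : α ≤ 1)
    (X : Fin n × Fin n → ℝ) (z : ℂ) (hz : 0 < z.im) (hz1 : 1 ≤ n * z.im)
    (p : ℕ) (hp : 2 ≤ p) (Γ : ℝ) (hΓ : 1 ≤ Γ)
    (h32 : 32 * Γ ≤ Real.sqrt n) (x y j k l : Fin n) (hD : Dst x j k l)
    {σ : Fin n → Fin n → Bool} (hσ : σ ∈ Sn n) (ha : Alt4 x j k l σ)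
    (hG : EnLe (Gz (Pn n) (Bm α β σ X) z) Γ) :
    ‖Gz (Pn n) (Bm α β (flipP (cyc x j k l) σ) X) z j y
          * PsiF p (rf (H0 (flipP (cyc x j k l) σ)) (Pn n)
              (Bm α β (flipP (cyc x j k l) σ) X) α z x y)
        - Gz (Pn n) (Bm α β σ X) z j y * PsiF p (rf (H0 σ) (Pn n) (Bm α β σ X) α z x y)
        + (Mx σ x j : ℂ) * (FR2_Dv (H0 σ) (Bm α β σ X) α z p (α / Real.sqrt n)
            (1 / Real.sqrt n) x y j k l
          + FR2_Dv (H0 (flipP (cyc x j k l) σ)) (Bm α β (flipP (cyc x j k l) σ) X) α z p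
              (α / Real.sqrt n) (1 / Real.sqrt n) x y j k l)‖
      ≤ 100 * (p : ℝ) ^ 2 * Γ * (2 * Γ * (16 / Real.sqrt n)) ^ 2
        * (‖rf (H0 σ) (Pn n) (Bm α β σ X) α z x y‖
            + 40 * Γ ^ 2 * (1 + FR2_h (H0 σ) (Bm α β σ X) α Γ z x j k l)) ^ (2 * p - 1) := by
  have hn3 : (3 : ℝ) ≤ n := by exact_mod_cast hn
  have hn0 : (0 : ℝ) < n := by linarith
  have hs0 : 0 < Real.sqrt n := Real.sqrt_pos.2 hn0
  have hΓ0 : 0 ≤ Γ := by linarith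
  have hBf : Bm α β (flipP (cyc x j k l) σ) X
      = Bm α β σ X + α • ((-(2 * Mx σ x j * (1 / Real.sqrt n))) • Xi x j k l) := by
    rw [Bm_flip α β hD hσ ha X, smul_smul]
    congr 2
    ring
  rw [hBf, FR2_H0_flip hD hσ ha]
  set B := Bm α β σ X with hB
  set H := H0 σ with hH
  set a : ℝ := Mx σ x j with had
  set c0 : ℝ := 1 / Real.sqrt n with hc0
  have hpB : PB (Pn n) B := pb_Bm α β σ hσ X
  have hpY := FR2_pbXi x j k l (-(2 * a * c0))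
  have ha1 : |a| = 1 := by
    rw [had, ← Real.sqrt_sq_eq_abs, Mx_sq, Real.sqrt_one]
  have hsp : sp1 ((-(2 * a * c0)) • Xi x j k l) ≤ 16 / Real.sqrt n := by
    rw [sp1_smul, abs_neg, abs_mul, abs_mul, ha1, abs_of_pos (by norm_num : (0 : ℝ) < 2), mul_one,
      hc0, abs_of_nonneg (by positivity)]
    have h2 := sp1_Xi x j k l
    calc 2 * (1 / Real.sqrt n) * sp1 (Xi x j k l) ≤ 2 * (1 / Real.sqrt n) * 8 :=
          mul_le_mul_of_nonneg_left h2 (by positivity)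
      _ = 16 / Real.sqrt n := by ring
  have hspG : sp1 ((-(2 * a * c0)) • Xi x j k l) * Γ ≤ 1 / 2 := by
    have h1 : 16 / Real.sqrt n * Γ ≤ 1 / 2 := by
      rw [div_mul_eq_mul_div, div_le_iff₀ hs0]
      linarith
    exact (mul_le_mul_of_nonneg_right hsp (by linarith)).trans h1
  have hN : 1 ≤ (n : ℝ) * |z.im| := by rw [abs_of_pos hz]; exact hz1
  have hrow : ∀ b c, ((-(2 * a * c0)) • Xi x j k l) b c ≠ 0 →
      ‖(toC H * Gz (Pn n) B z) x b‖ ≤ FR2_h H B α Γ z x j k l := by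
    intro b c hbc
    refine FR2_rows (c := c) hΓ0 hα0 hα1 hG ?_
    intro h3
    apply hbc
    rw [Matrix.smul_apply, h3, smul_zero]
  have h := rem_r hpB hpY α hα0 hα1 z hz.ne' Γ (FR2_h H B α Γ z x j k l) hΓ
    (FR2_h0 _ _ _ _ _ _ _ _ _) hG hspG hN p hp j x y hrow
  have hcc : α / Real.sqrt n = α * c0 := by rw [hc0]; ring
  rw [FR2_Dv_eq _ _ _ _ _ _ _ _ hcc, FR2_Dv_eq _ _ _ _ _ _ _ _ hcc] at h
  refine le_trans (le_of_eq ?_) (h.trans ?_)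
  · congr 1
    ring
  · have hq := norm_nonneg (rf H (Pn n) B α z x y)
    have hsp0 := sp1_nonneg ((-(2 * a * c0)) • Xi x j k l)
    have hh0 := FR2_h0 H B α Γ z x j k l
    gcongr

private theorem FR2_pow1 {p m : ℕ} (hm : m ≤ 2 * p) {a : ℝ} (ha : 0 ≤ a) :
    a ^ m ≤ 1 + a ^ (2 * p) := by
  rcases le_total a 1 with h | h
  · have h1 : a ^ m ≤ 1 := pow_le_one₀ ha h
    have h2 : 0 ≤ a ^ (2 * p) := by positivity
    linarith
  · have h1 : a ^ m ≤ a ^ (2 * p) := pow_le_pow_right₀ h hm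
    linarith

private theorem FR2_pow2 {p : ℕ} (hp : 2 ≤ p) {a b : ℝ} (ha : 0 ≤ a) (hb : 0 ≤ b) :
    a ^ (2 * p - 2) * b ≤ 1 + a ^ (2 * p) + b ^ (2 * p) := by
  have e : ∀ c : ℝ, c ^ (2 * p - 2) * c = c ^ (2 * p - 1) := by
    intro c; rw [← pow_succ]; congr 1; omega
  rcases le_total a b with h | h
  · have h1 : a ^ (2 * p - 2) * b ≤ b ^ (2 * p - 2) * b :=
      mul_le_mul_of_nonneg_right (pow_le_pow_left₀ ha h _) hb
    rw [e] at h1
    have h2 := FR2_pow1 (p := p) (m := 2 * p - 1) (by omega) hb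
    have h3 : 0 ≤ a ^ (2 * p) := by positivity
    linarith
  · have h1 : a ^ (2 * p - 2) * b ≤ a ^ (2 * p - 2) * a :=
      mul_le_mul_of_nonneg_left h (by positivity)
    rw [e] at h1
    have h2 := FR2_pow1 (p := p) (m := 2 * p - 1) (by omega) ha
    have h3 : 0 ≤ b ^ (2 * p) := by positivity
    linarith

/-- six term power bound -/
private theorem FR2_six (m : ℕ) {b1 b2 b3 b4 b5 b6 : ℝ} (h1 : 0 ≤ b1) (h2 : 0 ≤ b2) (h3 : 0 ≤ b3)
    (h4 : 0 ≤ b4) (h5 : 0 ≤ b5) (h6 : 0 ≤ b6) :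
    (b1 + b2 + b3 + b4 + b5 + b6) ^ m
      ≤ 6 ^ m * (b1 ^ m + b2 ^ m + b3 ^ m + b4 ^ m + b5 ^ m + b6 ^ m) := by
  set μ := max b1 (max b2 (max b3 (max b4 (max b5 b6)))) with hμ
  have k1 : b1 ≤ μ := le_max_left _ _
  have r1 : max b2 (max b3 (max b4 (max b5 b6))) ≤ μ := le_max_right _ _
  have k2 : b2 ≤ μ := (le_max_left _ _).trans r1
  have r2 : max b3 (max b4 (max b5 b6)) ≤ μ := (le_max_right _ _).trans r1
  have k3 : b3 ≤ μ := (le_max_left _ _).trans r2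
  have r3 : max b4 (max b5 b6) ≤ μ := (le_max_right _ _).trans r2
  have k4 : b4 ≤ μ := (le_max_left _ _).trans r3
  have r4 : max b5 b6 ≤ μ := (le_max_right _ _).trans r3
  have k5 : b5 ≤ μ := (le_max_left _ _).trans r4
  have k6 : b6 ≤ μ := (le_max_right _ _).trans r4
  have hμ0 : 0 ≤ μ := h1.trans k1
  have p1 : 0 ≤ b1 ^ m := by positivity
  have p2 : 0 ≤ b2 ^ m := by positivity
  have p3 : 0 ≤ b3 ^ m := by positivity
  have p4 : 0 ≤ b4 ^ m := by positivity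
  have p5 : 0 ≤ b5 ^ m := by positivity
  have p6 : 0 ≤ b6 ^ m := by positivity
  have hμm : μ ^ m ≤ b1 ^ m + b2 ^ m + b3 ^ m + b4 ^ m + b5 ^ m + b6 ^ m := by
    rcases max_choice b1 (max b2 (max b3 (max b4 (max b5 b6)))) with h | h
    · rw [hμ, h]; linarith
    rcases max_choice b2 (max b3 (max b4 (max b5 b6))) with g | g
    · rw [hμ, h, g]; linarith
    rcases max_choice b3 (max b4 (max b5 b6)) with f | f
    · rw [hμ, h, g, f]; linarith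
    rcases max_choice b4 (max b5 b6) with e | e
    · rw [hμ, h, g, f, e]; linarith
    rcases max_choice b5 b6 with d | d
    · rw [hμ, h, g, f, e, d]; linarith
    · rw [hμ, h, g, f, e, d]; linarith
  calc (b1 + b2 + b3 + b4 + b5 + b6) ^ m ≤ (6 * μ) ^ m :=
        pow_le_pow_left₀ (by positivity) (by linarith) _
    _ = 6 ^ m * μ ^ m := mul_pow _ _ _
    _ ≤ _ := mul_le_mul_of_nonneg_left hμm (by positivity)

/-- sums over triples -/
private theorem FR2_sum3 {n : ℕ} (g c : Fin n → ℝ) (u : ℝ) :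
    ∑ j, ∑ k : Fin n, ∑ l : Fin n, g j * (u + c j + c k + c l)
      = (n : ℝ) ^ 2 * u * ∑ j, g j + (n : ℝ) ^ 2 * ∑ j, g j * c j
        + 2 * n * ((∑ j, g j) * ∑ b, c b) := by
  have h1 : ∀ j k : Fin n, ∑ l : Fin n, g j * (u + c j + c k + c l)
      = (n : ℝ) * (g j * (u + c j + c k)) + g j * ∑ b, c b := by
    intro j k
    simp only [mul_add, Finset.sum_add_distrib, Finset.sum_const, Finset.card_univ,
      Fintype.card_fin, nsmul_eq_mul, Finset.mul_sum]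
  have h2 : ∀ j : Fin n, ∑ k : Fin n, ∑ l : Fin n, g j * (u + c j + c k + c l)
      = (n : ℝ) ^ 2 * (g j * (u + c j)) + 2 * n * (g j * ∑ b, c b) := by
    intro j
    rw [Finset.sum_congr rfl fun k _ => h1 j k]
    simp only [mul_add, Finset.sum_add_distrib, Finset.sum_const, Finset.card_univ,
      Fintype.card_fin, nsmul_eq_mul, Finset.mul_sum]
    simp only [← Finset.mul_sum]
    ring
  rw [Finset.sum_congr rfl fun j _ => h2 j]
  simp only [Finset.sum_add_distrib, ← Finset.mul_sum, mul_add, ← Finset.sum_mul]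
  ring

private theorem FR2_sum3' {n : ℕ} (c : Fin n → ℝ) (u : ℝ) :
    ∑ j, ∑ k : Fin n, ∑ l : Fin n, (u + c j + c k + c l)
      = (n : ℝ) ^ 3 * u + 3 * (n : ℝ) ^ 2 * ∑ b, c b := by
  have := FR2_sum3 (fun _ : Fin n => (1 : ℝ)) c u
  simp only [one_mul, Finset.sum_const, Finset.card_univ, Fintype.card_fin, nsmul_eq_mul,
    mul_one] at this
  rw [this]
  ring

/-- power means -/
private theorem FR2_mean {n : ℕ} (hn : 0 < n) (c : Fin n → ℝ) (hc : ∀ b, 0 ≤ c b) (m : ℕ) :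
    ((1 / (n : ℝ)) * ∑ b, c b) ^ m ≤ (1 / (n : ℝ)) * ∑ b, c b ^ m := by
  have hn0 : (0 : ℝ) < n := by exact_mod_cast hn
  have := Real.pow_arith_mean_le_arith_mean_pow Finset.univ (fun _ : Fin n => 1 / (n : ℝ)) c
    (fun _ _ => by positivity) (by simp [hn0.ne']) (fun b _ => hc b) m
  simpa only [← Finset.mul_sum] using this

/-- second term for good patterns -/
private theorem FR2_T2 {n : ℕ} (hn : 0 < n) {p : ℕ} (hp : 2 ≤ p) (g c : Fin n → ℝ)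
    (hg : ∀ j, 0 ≤ g j) (hc : ∀ b, 0 ≤ c b) {R rx τ Z : ℝ} (hR : 0 ≤ R) (hrx : 0 ≤ rx) (hτ : 0 ≤ τ)
    (hg1 : ∑ j, g j ≤ n * τ) (hg2 : ∑ j, g j ^ 2 ≤ n * τ ^ 2)
    (hZ : Z = 1 + R ^ (2 * p) + rx ^ (2 * p) + (1 / (n : ℝ)) * ∑ b, c b ^ (2 * p)) :
    R ^ (2 * p - 2) * ∑ j, ∑ k : Fin n, ∑ l : Fin n, g j * ((1 + rx) + c j + c k + c l)
      ≤ (n : ℝ) ^ 3 * (5 * τ * Z) := by
  have hn0 : (0 : ℝ) < n := by exact_mod_cast hn
  rw [FR2_sum3]
  set M := (1 / (n : ℝ)) * ∑ b, c b ^ (2 * p) with hM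
  have hM0 : 0 ≤ M := by
    rw [hM]; exact mul_nonneg (by positivity) (Finset.sum_nonneg fun b _ => pow_nonneg (hc b) _)
  set A := (1 / (n : ℝ)) * ∑ b, c b with hA
  have hA0 : 0 ≤ A := mul_nonneg (by positivity) (Finset.sum_nonneg fun b _ => hc b)
  have hAM : A ^ (2 * p) ≤ M := FR2_mean hn c hc (2 * p)
  set q := Real.sqrt ((1 / (n : ℝ)) * ∑ b, c b ^ 2) with hq
  have hS2 : 0 ≤ (1 / (n : ℝ)) * ∑ b, c b ^ 2 :=
    mul_nonneg (by positivity) (Finset.sum_nonneg fun b _ => by positivity)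
  have hq0 : 0 ≤ q := Real.sqrt_nonneg _
  have hq2 : q ^ 2 = (1 / (n : ℝ)) * ∑ b, c b ^ 2 := Real.sq_sqrt hS2
  have hqM : q ^ (2 * p) ≤ M := by
    rw [pow_mul, hq2]
    have := FR2_mean hn (fun b => c b ^ 2) (fun b => by positivity) p
    refine this.trans (le_of_eq ?_)
    rw [hM]
    congr 1
    refine Finset.sum_congr rfl fun b _ => ?_
    rw [← pow_mul]
  have hgc : ∑ j, g j * c j ≤ n * (τ * q) := by
    have h1 := Real.sum_mul_le_sqrt_mul_sqrt Finset.univ g c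
    refine h1.trans ?_
    have h2 : Real.sqrt (∑ j, g j ^ 2) ≤ Real.sqrt n * τ := by
      rw [← Real.sqrt_sq hτ, ← Real.sqrt_mul hn0.le]
      exact Real.sqrt_le_sqrt hg2
    have h3 : Real.sqrt (∑ j, c j ^ 2) = Real.sqrt n * q := by
      rw [hq, ← Real.sqrt_mul hn0.le]
      congr 1
      field_simp
    rw [h3]
    calc Real.sqrt (∑ j, g j ^ 2) * (Real.sqrt n * q) ≤ (Real.sqrt n * τ) * (Real.sqrt n * q) :=
          mul_le_mul_of_nonneg_right h2 (by positivity)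
      _ = (Real.sqrt n * Real.sqrt n) * (τ * q) := by ring
      _ = n * (τ * q) := by rw [Real.mul_self_sqrt hn0.le]
  have hR0 : 0 ≤ R ^ (2 * p - 2) := by positivity
  have hcs : ∑ b, c b = n * A := by rw [hA]; field_simp
  have z1 : R ^ (2 * p - 2) ≤ Z := by
    have := FR2_pow1 (p := p) (m := 2 * p - 2) (by omega) hR
    have h3 : 0 ≤ rx ^ (2 * p) := by positivity
    rw [hZ]; linarith
  have z2 : R ^ (2 * p - 2) * rx ≤ Z := by
    have := FR2_pow2 hp hR hrx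
    rw [hZ]; linarith
  have z3 : R ^ (2 * p - 2) * q ≤ Z := by
    have := FR2_pow2 hp hR hq0
    have h3 : 0 ≤ rx ^ (2 * p) := by positivity
    rw [hZ]; linarith
  have z4 : R ^ (2 * p - 2) * A ≤ Z := by
    have := FR2_pow2 hp hR hA0
    have h3 : 0 ≤ rx ^ (2 * p) := by positivity
    rw [hZ]; linarith
  have hgs0 : 0 ≤ ∑ j, g j := Finset.sum_nonneg fun j _ => hg j
  calc R ^ (2 * p - 2) * ((n : ℝ) ^ 2 * (1 + rx) * ∑ j, g j + (n : ℝ) ^ 2 * ∑ j, g j * c j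
        + 2 * n * ((∑ j, g j) * ∑ b, c b))
      ≤ R ^ (2 * p - 2) * ((n : ℝ) ^ 2 * (1 + rx) * (n * τ) + (n : ℝ) ^ 2 * (n * (τ * q))
        + 2 * n * ((n * τ) * (n * A))) := by
        rw [hcs]
        gcongr
    _ = (n : ℝ) ^ 3 * (τ * (R ^ (2 * p - 2) + R ^ (2 * p - 2) * rx + R ^ (2 * p - 2) * q
        + 2 * (R ^ (2 * p - 2) * A))) := by ring
    _ ≤ (n : ℝ) ^ 3 * (τ * (Z + Z + Z + 2 * Z)) := by gcongr
    _ = (n : ℝ) ^ 3 * (5 * τ * Z) := by ring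

/-- third term for good patterns -/
private theorem FR2_T3 {n : ℕ} (hn : 0 < n) {p : ℕ} (c : Fin n → ℝ)
    (hc : ∀ b, 0 ≤ c b) {R rx Z Γ : ℝ} (hΓ : 1 ≤ Γ) (hR : 0 ≤ R) (hrx : 0 ≤ rx)
    (hZ : Z = 1 + R ^ (2 * p) + rx ^ (2 * p) + (1 / (n : ℝ)) * ∑ b, c b ^ (2 * p)) :
    ∑ j, ∑ k : Fin n, ∑ l : Fin n,
      (R + 40 * Γ ^ 2 * (1 + (Γ ^ 2 + (rx + c j + c k + c l)))) ^ (2 * p - 1)
      ≤ (n : ℝ) ^ 3 * (3 * (480 ^ (2 * p) * Γ ^ (8 * p)) * Z) := by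
  have hn0 : (0 : ℝ) < n := by exact_mod_cast hn
  have g1 : 1 ≤ Γ ^ 2 := one_le_pow₀ hΓ
  have g2 : 1 ≤ Γ ^ 4 := one_le_pow₀ hΓ
  have key : ∀ j k l : Fin n,
      (R + 40 * Γ ^ 2 * (1 + (Γ ^ 2 + (rx + c j + c k + c l)))) ^ (2 * p - 1)
      ≤ (480 ^ (2 * p) * Γ ^ (8 * p)) * ((1 + R ^ (2 * p) + rx ^ (2 * p)) + c j ^ (2 * p)
        + c k ^ (2 * p) + c l ^ (2 * p)) := by
    intro j k l
    have hj := hc j
    have hk := hc k
    have hl := hc l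
    set t := 1 + R + rx + c j + c k + c l with ht
    have ht1 : 1 ≤ t := by rw [ht]; linarith
    have h1 : R + 40 * Γ ^ 2 * (1 + (Γ ^ 2 + (rx + c j + c k + c l))) ≤ 80 * Γ ^ 4 * t := by
      have h2 : 1 + (Γ ^ 2 + (rx + c j + c k + c l)) ≤ 2 * Γ ^ 2 * (1 + rx + c j + c k + c l) := by
        have h3 : 0 ≤ rx + c j + c k + c l := by positivity
        nlinarith [mul_nonneg (sub_nonneg.2 g1) h3]
      have h3 : 40 * Γ ^ 2 * (1 + (Γ ^ 2 + (rx + c j + c k + c l)))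
          ≤ 40 * Γ ^ 2 * (2 * Γ ^ 2 * (1 + rx + c j + c k + c l)) :=
        mul_le_mul_of_nonneg_left h2 (by positivity)
      have h4 : R ≤ 80 * Γ ^ 4 * R := by nlinarith
      have h5 : 80 * Γ ^ 4 * t = 80 * Γ ^ 4 * R
          + 40 * Γ ^ 2 * (2 * Γ ^ 2 * (1 + rx + c j + c k + c l)) := by rw [ht]; ring
      rw [h5]
      linarith
    have h0 : 0 ≤ R + 40 * Γ ^ 2 * (1 + (Γ ^ 2 + (rx + c j + c k + c l))) := by positivity
    have h80 : 1 ≤ 80 * Γ ^ 4 * t := by nlinarith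
    calc (R + 40 * Γ ^ 2 * (1 + (Γ ^ 2 + (rx + c j + c k + c l)))) ^ (2 * p - 1)
        ≤ (80 * Γ ^ 4 * t) ^ (2 * p - 1) := pow_le_pow_left₀ h0 h1 _
      _ ≤ (80 * Γ ^ 4 * t) ^ (2 * p) := pow_le_pow_right₀ h80 (by omega)
      _ = (80 ^ (2 * p) * Γ ^ (8 * p)) * t ^ (2 * p) := by
          rw [mul_pow, mul_pow, ← pow_mul]
          congr 3
          ring
      _ ≤ (80 ^ (2 * p) * Γ ^ (8 * p)) * (6 ^ (2 * p) * (1 ^ (2 * p) + R ^ (2 * p) + rx ^ (2 * p)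
          + c j ^ (2 * p) + c k ^ (2 * p) + c l ^ (2 * p))) :=
          mul_le_mul_of_nonneg_left (FR2_six (2 * p) zero_le_one hR hrx hj hk hl) (by positivity)
      _ = (480 ^ (2 * p) * Γ ^ (8 * p)) * ((1 + R ^ (2 * p) + rx ^ (2 * p)) + c j ^ (2 * p)
          + c k ^ (2 * p) + c l ^ (2 * p)) := by
          have : (480 : ℝ) ^ (2 * p) = 80 ^ (2 * p) * 6 ^ (2 * p) := by
            rw [← mul_pow]; norm_num
          rw [this, one_pow]
          ring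
  calc ∑ j, ∑ k : Fin n, ∑ l : Fin n,
      (R + 40 * Γ ^ 2 * (1 + (Γ ^ 2 + (rx + c j + c k + c l)))) ^ (2 * p - 1)
      ≤ ∑ j, ∑ k : Fin n, ∑ l : Fin n, (480 ^ (2 * p) * Γ ^ (8 * p)) *
        ((1 + R ^ (2 * p) + rx ^ (2 * p)) + c j ^ (2 * p) + c k ^ (2 * p) + c l ^ (2 * p)) :=
        Finset.sum_le_sum fun j _ => Finset.sum_le_sum fun k _ =>
          Finset.sum_le_sum fun l _ => key j k l
    _ = (480 ^ (2 * p) * Γ ^ (8 * p)) * ((n : ℝ) ^ 3 * (1 + R ^ (2 * p) + rx ^ (2 * p))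
        + 3 * (n : ℝ) ^ 2 * ∑ b, c b ^ (2 * p)) := by
        rw [← FR2_sum3' (fun b => c b ^ (2 * p)) (1 + R ^ (2 * p) + rx ^ (2 * p))]
        simp only [Finset.mul_sum]
    _ ≤ (480 ^ (2 * p) * Γ ^ (8 * p)) * ((n : ℝ) ^ 3 * (3 * Z)) := by
        refine mul_le_mul_of_nonneg_left ?_ (by positivity)
        have e : (n : ℝ) ^ 2 * ∑ b, c b ^ (2 * p)
            = (n : ℝ) ^ 3 * ((1 / (n : ℝ)) * ∑ b, c b ^ (2 * p)) := by field_simp
        have h5 : 0 ≤ (n : ℝ) ^ 3 * (1 + R ^ (2 * p) + rx ^ (2 * p)) := by positivity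
        rw [hZ]
        calc (n : ℝ) ^ 3 * (1 + R ^ (2 * p) + rx ^ (2 * p)) + 3 * (n : ℝ) ^ 2 * ∑ b, c b ^ (2 * p)
            = (n : ℝ) ^ 3 * (1 + R ^ (2 * p) + rx ^ (2 * p))
              + 3 * ((n : ℝ) ^ 3 * ((1 / (n : ℝ)) * ∑ b, c b ^ (2 * p))) := by rw [← e]; ring
          _ ≤ _ := by nlinarith
    _ = _ := by ring

/-- crude bounds of the summands -/
private theorem FR2_bad {n : ℕ} (hn : 3 ≤ n) (α β : ℝ) (hα0 : 0 ≤ α) (hα1 : α ≤ 1)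
    (X : Fin n × Fin n → ℝ) (z : ℂ) (hz : 0 < z.im) (hz1 : 1 ≤ n * z.im)
    (p : ℕ) (hp : 2 ≤ p) (x y j k l : Fin n)
    {σ : Fin n → Fin n → Bool} (hσ : σ ∈ Sn n) :
    ‖Gz (Pn n) (Bm α β σ X) z j y * PsiF p (rf (H0 σ) (Pn n) (Bm α β σ X) α z x y)‖
        ≤ n * (2 * (n : ℝ) ^ 2) ^ (2 * p - 1) ∧
      ‖((1 / Real.sqrt n : ℝ) : ℂ) * dPsi p (rf (H0 σ) (Pn n) (Bm α β σ X) α z x y)
          (drf (H0 σ) (Pn n) (Bm α β σ X) α (Xi x j k l) (α • Xi x j k l) z x y)‖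
        ≤ 2 * p * (2 * (n : ℝ) ^ 2) ^ (2 * p - 2) * (64 * (n : ℝ) ^ 5) ∧
      ‖FR2_Dv (H0 σ) (Bm α β σ X) α z p (α / Real.sqrt n) (1 / Real.sqrt n) x y j k l‖
        ≤ 8 * (n : ℝ) ^ 2 * (2 * (n : ℝ) ^ 2) ^ (2 * p - 1)
          + n * (2 * p * (2 * (n : ℝ) ^ 2) ^ (2 * p - 2) * (64 * (n : ℝ) ^ 5)) := by
  have hn3 : (3 : ℝ) ≤ n := by exact_mod_cast hn
  have hn0 : (0 : ℝ) < n := by linarith
  have hs0 : 0 < Real.sqrt n := Real.sqrt_pos.2 hn0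
  have hs1 : 1 ≤ Real.sqrt n := by rw [Real.one_le_sqrt]; linarith
  obtain ⟨hM, hG, hHG, hr⟩ := FR2_crude hn α β hα0 hα1 hσ X z hz hz1
  have hN : 1 ≤ (n : ℝ) * |z.im| := by rw [abs_of_pos hz]; exact hz1
  have hc0 : 0 ≤ 1 / Real.sqrt n := by positivity
  have hc1 : 1 / Real.sqrt n ≤ 1 := by
    rw [div_le_one hs0]; exact hs1
  have hcα0 : 0 ≤ α / Real.sqrt n := by positivity
  have hcα1 : α / Real.sqrt n ≤ 1 := by
    rw [div_le_one hs0]; linarith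
  have hΨ : ‖PsiF p (rf (H0 σ) (Pn n) (Bm α β σ X) α z x y)‖
      ≤ (2 * (n : ℝ) ^ 2) ^ (2 * p - 1) := by
    rw [norm_psi p (by omega)]
    exact pow_le_pow_left₀ (norm_nonneg _) (hr x y) _
  have hd : ‖drf (H0 σ) (Pn n) (Bm α β σ X) α (Xi x j k l) (α • Xi x j k l) z x y‖
      ≤ 64 * (n : ℝ) ^ 5 := by
    have h1 := bd_dr (H := H0 σ) (pb_Bm α β σ hσ X) (FR2_pbXi1 x j k l) α hα0 hα1 z hz.ne' n
      ((n : ℝ) ^ 2) (by linarith) (by positivity) hG.en hN x y (fun b c _ => hHG x b)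
    refine h1.trans ?_
    have h2 := sp1_Xi x j k l
    have h3 : 1 + (n : ℝ) ^ 2 ≤ 2 * (n : ℝ) ^ 2 := by nlinarith
    calc 4 * sp1 (Xi x j k l) * (n : ℝ) ^ 3 * (1 + (n : ℝ) ^ 2)
        ≤ 4 * 8 * (n : ℝ) ^ 3 * (2 * (n : ℝ) ^ 2) := by gcongr
      _ = 64 * (n : ℝ) ^ 5 := by ring
  have hdP : ‖((1 / Real.sqrt n : ℝ) : ℂ) * dPsi p (rf (H0 σ) (Pn n) (Bm α β σ X) α z x y)
          (drf (H0 σ) (Pn n) (Bm α β σ X) α (Xi x j k l) (α • Xi x j k l) z x y)‖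
        ≤ 2 * p * (2 * (n : ℝ) ^ 2) ^ (2 * p - 2) * (64 * (n : ℝ) ^ 5) := by
    rw [norm_mul, Complex.norm_real, Real.norm_of_nonneg hc0]
    have h1 := norm_dpsi p hp (rf (H0 σ) (Pn n) (Bm α β σ X) α z x y)
      (drf (H0 σ) (Pn n) (Bm α β σ X) α (Xi x j k l) (α • Xi x j k l) z x y)
    have h3 := hr x y
    have h4 : 2 * (p : ℝ) * ‖rf (H0 σ) (Pn n) (Bm α β σ X) α z x y‖ ^ (2 * p - 2)
          * ‖drf (H0 σ) (Pn n) (Bm α β σ X) α (Xi x j k l) (α • Xi x j k l) z x y‖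
        ≤ 2 * p * (2 * (n : ℝ) ^ 2) ^ (2 * p - 2) * (64 * (n : ℝ) ^ 5) := by
      gcongr
    have h5 := mul_le_mul hc1 (h1.trans h4) (norm_nonneg _) zero_le_one
    rw [one_mul] at h5
    exact h5
  refine ⟨?_, hdP, ?_⟩
  · rw [norm_mul]
    exact mul_le_mul (hG.en j y) hΨ (norm_nonneg _) hn0.le
  · unfold FR2_Dv
    refine (norm_add_le _ _).trans (add_le_add ?_ ?_)
    · rw [norm_mul, norm_mul, norm_neg, Complex.norm_real, Real.norm_of_nonneg hcα0]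
      have h1 := sparse_entry hG.en hG.en hn0.le hn0.le (Xi x j k l) j y
      have h2 := sp1_Xi x j k l
      have h3 : α / Real.sqrt n * ‖(Gz (Pn n) (Bm α β σ X) z * toC (Xi x j k l)
          * Gz (Pn n) (Bm α β σ X) z) j y‖ ≤ 8 * (n : ℝ) ^ 2 := by
        have k1 := mul_le_mul hcα1 h1 (norm_nonneg _) zero_le_one
        have k2 : (n : ℝ) * sp1 (Xi x j k l) * n ≤ n * 8 * n := by gcongr
        linarith
      exact mul_le_mul h3 hΨ (norm_nonneg _) (by positivity)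
    · rw [norm_mul]
      exact mul_le_mul (hG.en j y) hdP (norm_nonneg _) hn0.le

private noncomputable def FR2_R (p : ℕ) (Γ S q h : ℝ) : ℝ :=
  100 * (p : ℝ) ^ 2 * Γ * (2 * Γ * (16 / S)) ^ 2 * (q + 40 * Γ ^ 2 * (1 + h)) ^ (2 * p - 1)

private noncomputable def FR2_Rb (p : ℕ) (N : ℝ) : ℝ :=
  2 * (N * (2 * N ^ 2) ^ (2 * p - 1)
    + (8 * N ^ 2 * (2 * N ^ 2) ^ (2 * p - 1)
      + N * (2 * p * (2 * N ^ 2) ^ (2 * p - 2) * (64 * N ^ 5))))

private theorem FR2_derG {n : ℕ} (hn : 3 ≤ n) (α β : ℝ) (hα0 : 0 ≤ α) (hα1 : α ≤ 1)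
    (X : Fin n × Fin n → ℝ) (z : ℂ) (hz : 0 < z.im) (hz1 : 1 ≤ n * z.im)
    (p : ℕ) (hp : 2 ≤ p) (Γ : ℝ) (hΓ : 1 ≤ Γ)
    (h32 : 32 * Γ ≤ Real.sqrt n) (x y j k l : Fin n) (hD : Dst x j k l)
    {σ : Fin n → Fin n → Bool} (hσ : σ ∈ Sn n) (ha : Alt4 x j k l σ)
    (hG : EnLe (Gz (Pn n) (Bm α β σ X) z) Γ) :
    ‖Gz (Pn n) (Bm α β (flipP (cyc x j k l) σ) X) z j y
          * PsiF p (rf (H0 (flipP (cyc x j k l) σ)) (Pn n)
              (Bm α β (flipP (cyc x j k l) σ) X) α z x y)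
        - Gz (Pn n) (Bm α β σ X) z j y * PsiF p (rf (H0 σ) (Pn n) (Bm α β σ X) α z x y)
        + (Mx σ x j : ℂ) *
          ((-((α / Real.sqrt n : ℝ) : ℂ) * (Gz (Pn n) (Bm α β σ X) z * toC (Xi x j k l)
                * Gz (Pn n) (Bm α β σ X) z) j y
                * PsiF p (rf (H0 σ) (Pn n) (Bm α β σ X) α z x y)
              + Gz (Pn n) (Bm α β σ X) z j y * (((1 / Real.sqrt n : ℝ) : ℂ)
                * dPsi p (rf (H0 σ) (Pn n) (Bm α β σ X) α z x y)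
                    (drf (H0 σ) (Pn n) (Bm α β σ X) α (Xi x j k l) (α • Xi x j k l) z x y)))
            + (-((α / Real.sqrt n : ℝ) : ℂ)
                * (Gz (Pn n) (Bm α β (flipP (cyc x j k l) σ) X) z * toC (Xi x j k l)
                  * Gz (Pn n) (Bm α β (flipP (cyc x j k l) σ) X) z) j y
                * PsiF p (rf (H0 (flipP (cyc x j k l) σ)) (Pn n)
                    (Bm α β (flipP (cyc x j k l) σ) X) α z x y)
              + Gz (Pn n) (Bm α β (flipP (cyc x j k l) σ) X) z j y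
                * (((1 / Real.sqrt n : ℝ) : ℂ)
                * dPsi p (rf (H0 (flipP (cyc x j k l) σ)) (Pn n)
                    (Bm α β (flipP (cyc x j k l) σ) X) α z x y)
                    (drf (H0 (flipP (cyc x j k l) σ)) (Pn n)
                      (Bm α β (flipP (cyc x j k l) σ) X) α (Xi x j k l)
                      (α • Xi x j k l) z x y))))‖
      ≤ FR2_R p Γ (Real.sqrt n) ‖rf (H0 σ) (Pn n) (Bm α β σ X) α z x y‖
          (FR2_h (H0 σ) (Bm α β σ X) α Γ z x j k l) := by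
  have h := FR2_good hn α β hα0 hα1 X z hz hz1 p hp Γ hΓ h32 x y j k l hD hσ ha hG
  unfold FR2_Dv at h
  unfold FR2_R
  exact h

private theorem FR2_derB {n : ℕ} (hn : 3 ≤ n) (α β : ℝ) (hα0 : 0 ≤ α) (hα1 : α ≤ 1)
    (X : Fin n × Fin n → ℝ) (z : ℂ) (hz : 0 < z.im) (hz1 : 1 ≤ n * z.im)
    (p : ℕ) (hp : 2 ≤ p) (x y j k l : Fin n) (hD : Dst x j k l)
    {σ : Fin n → Fin n → Bool} (hσ : σ ∈ Sn n) (ha : Alt4 x j k l σ) :
    ‖Gz (Pn n) (Bm α β (flipP (cyc x j k l) σ) X) z j y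
          * PsiF p (rf (H0 (flipP (cyc x j k l) σ)) (Pn n)
              (Bm α β (flipP (cyc x j k l) σ) X) α z x y)
        - Gz (Pn n) (Bm α β σ X) z j y * PsiF p (rf (H0 σ) (Pn n) (Bm α β σ X) α z x y)
        + (Mx σ x j : ℂ) *
          ((-((α / Real.sqrt n : ℝ) : ℂ) * (Gz (Pn n) (Bm α β σ X) z * toC (Xi x j k l)
                * Gz (Pn n) (Bm α β σ X) z) j y
                * PsiF p (rf (H0 σ) (Pn n) (Bm α β σ X) α z x y)
              + Gz (Pn n) (Bm α β σ X) z j y * (((1 / Real.sqrt n : ℝ) : ℂ)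
                * dPsi p (rf (H0 σ) (Pn n) (Bm α β σ X) α z x y)
                    (drf (H0 σ) (Pn n) (Bm α β σ X) α (Xi x j k l) (α • Xi x j k l) z x y)))
            + (-((α / Real.sqrt n : ℝ) : ℂ)
                * (Gz (Pn n) (Bm α β (flipP (cyc x j k l) σ) X) z * toC (Xi x j k l)
                  * Gz (Pn n) (Bm α β (flipP (cyc x j k l) σ) X) z) j y
                * PsiF p (rf (H0 (flipP (cyc x j k l) σ)) (Pn n)
                    (Bm α β (flipP (cyc x j k l) σ) X) α z x y)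
              + Gz (Pn n) (Bm α β (flipP (cyc x j k l) σ) X) z j y
                * (((1 / Real.sqrt n : ℝ) : ℂ)
                * dPsi p (rf (H0 (flipP (cyc x j k l) σ)) (Pn n)
                    (Bm α β (flipP (cyc x j k l) σ) X) α z x y)
                    (drf (H0 (flipP (cyc x j k l) σ)) (Pn n)
                      (Bm α β (flipP (cyc x j k l) σ) X) α (Xi x j k l)
                      (α • Xi x j k l) z x y))))‖
      ≤ FR2_Rb p n := by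
  have hσ' : flipP (cyc x j k l) σ ∈ Sn n := by
    obtain ⟨h1, h2, h3, h4, h5, h6⟩ := hD
    exact (flip_mem h1 h2 h3 h4 h5 h6 hσ ha).1
  obtain ⟨b1, -, b2⟩ := FR2_bad hn α β hα0 hα1 X z hz hz1 p hp x y j k l hσ
  obtain ⟨b3, -, b4⟩ := FR2_bad hn α β hα0 hα1 X z hz hz1 p hp x y j k l hσ'
  have ha1 : ‖(Mx σ x j : ℂ)‖ = 1 := by
    rw [Complex.norm_real, Real.norm_eq_abs, ← Real.sqrt_sq_eq_abs, Mx_sq, Real.sqrt_one]
  unfold FR2_Dv at b2 b4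
  have gen : ∀ (f' f a d d' : ℂ) (u v : ℝ), ‖f'‖ ≤ u → ‖f‖ ≤ u → ‖a‖ = 1 → ‖d‖ ≤ v → ‖d'‖ ≤ v →
      ‖f' - f + a * (d + d')‖ ≤ 2 * (u + v) := by
    intro f' f a d d' u v h1 h2 h3 h4 h5
    have k1 := norm_add_le (f' - f) (a * (d + d'))
    have k2 := norm_sub_le f' f
    have k3 := norm_add_le d d'
    rw [norm_mul, h3, one_mul] at k1
    linarith
  unfold FR2_Rb
  exact gen _ _ _ _ _ _ _ b3 b1 ha1 b2 b4

private theorem FR2_badnum {p : ℕ} (hp : 2 ≤ p) {N S : ℝ} (hN : 3 ≤ N) (hS : 1 ≤ S)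
    (hNS : N = S ^ 2) :
    (1 / S * (S ^ 3 * N + 8 * N + 40 * N)
        + (40 * N ^ 2 + 16 * N * N + 49 * S ^ 4 * N ^ 2 / N)) * (2 * N ^ 2) ^ (2 * p - 1)
      + 8 / S ^ 5 * (N ^ 3 * (N * (2 * p * (2 * N ^ 2) ^ (2 * p - 2) * (64 * N ^ 5))))
      + 4 / S ^ 5 * (N ^ 3 * (2 * (N * (2 * N ^ 2) ^ (2 * p - 1)
          + (8 * N ^ 2 * (2 * N ^ 2) ^ (2 * p - 1)
            + N * (2 * p * (2 * N ^ 2) ^ (2 * p - 2) * (64 * N ^ 5))))))
      ≤ 2500 * p * (10 * N) ^ (20 * p + 20) := by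
  have hS0 : 0 < S := by linarith
  have hN0 : 0 < N := by linarith
  have hpr : (2 : ℝ) ≤ p := by exact_mod_cast hp
  set U := (2 * N ^ 2) ^ (2 * p - 2) with hU
  have hU0 : 0 ≤ U := by positivity
  have e1 : (2 * N ^ 2) ^ (2 * p - 1) = U * (2 * N ^ 2) := by
    rw [hU, ← pow_succ]; congr 1; omega
  rw [e1]
  have hS5 : 1 / S ^ 5 ≤ 1 := by
    rw [div_le_one (by positivity)]; exact one_le_pow₀ hS
  have d8 : 8 / S ^ 5 ≤ 8 := by
    have : 8 / S ^ 5 = 8 * (1 / S ^ 5) := by ring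
    rw [this]; linarith
  have d4 : 4 / S ^ 5 ≤ 4 := by
    have : 4 / S ^ 5 = 4 * (1 / S ^ 5) := by ring
    rw [this]; linarith
  have pw : ∀ a b : ℕ, a ≤ b → N ^ a ≤ N ^ b := fun a b hab =>
    pow_le_pow_right₀ (by linarith) hab
  have c1 : 1 / S * (S ^ 3 * N + 8 * N + 40 * N)
        + (40 * N ^ 2 + 16 * N * N + 49 * S ^ 4 * N ^ 2 / N) ≤ 75 * N ^ 3 := by
    have k1 : 1 / S * (S ^ 3 * N + 8 * N + 40 * N) ≤ N ^ 2 + 48 * N := by
      have : 1 / S * (S ^ 3 * N + 8 * N + 40 * N) = S ^ 2 * N + 1 / S * (48 * N) := by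
        field_simp; ring
      rw [this, ← hNS]
      have h1 : 1 / S ≤ 1 := by rw [div_le_one hS0]; exact hS
      nlinarith
    have k2 : 49 * S ^ 4 * N ^ 2 / N = 49 * N ^ 3 := by
      have : S ^ 4 = N ^ 2 := by rw [hNS]; ring
      rw [this]; field_simp
    rw [k2]
    nlinarith [mul_pos hN0 hN0, mul_nonneg (sub_nonneg.2 hN) (mul_pos hN0 hN0).le,
      mul_nonneg (sub_nonneg.2 hN) hN0.le]
  have t1 : (1 / S * (S ^ 3 * N + 8 * N + 40 * N)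
        + (40 * N ^ 2 + 16 * N * N + 49 * S ^ 4 * N ^ 2 / N)) * (U * (2 * N ^ 2))
      ≤ 150 * (p * (N ^ 9 * U)) := by
    calc _ ≤ 75 * N ^ 3 * (U * (2 * N ^ 2)) := mul_le_mul_of_nonneg_right c1 (by positivity)
      _ = 150 * (1 * (N ^ 5 * U)) := by ring
      _ ≤ 150 * (p * (N ^ 9 * U)) := by
          have := pw 5 9 (by norm_num)
          gcongr
          linarith
  have t2 : 8 / S ^ 5 * (N ^ 3 * (N * (2 * p * U * (64 * N ^ 5)))) ≤ 1024 * (p * (N ^ 9 * U)) := by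
    calc 8 / S ^ 5 * (N ^ 3 * (N * (2 * p * U * (64 * N ^ 5))))
        ≤ 8 * (N ^ 3 * (N * (2 * p * U * (64 * N ^ 5)))) :=
          mul_le_mul_of_nonneg_right d8 (by positivity)
      _ = 1024 * (p * (N ^ 9 * U)) := by ring
  have t3 : 4 / S ^ 5 * (N ^ 3 * (2 * (N * (U * (2 * N ^ 2)) + (8 * N ^ 2 * (U * (2 * N ^ 2))
            + N * (2 * p * U * (64 * N ^ 5)))))) ≤ 1168 * (p * (N ^ 9 * U)) := by
    have k1 : N * (U * (2 * N ^ 2)) ≤ 2 * (p * (N ^ 6 * U)) := by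
      calc N * (U * (2 * N ^ 2)) = 2 * (1 * (N ^ 3 * U)) := by ring
        _ ≤ 2 * (p * (N ^ 6 * U)) := by
            have := pw 3 6 (by norm_num)
            gcongr
            linarith
    have k2 : 8 * N ^ 2 * (U * (2 * N ^ 2)) ≤ 16 * (p * (N ^ 6 * U)) := by
      calc 8 * N ^ 2 * (U * (2 * N ^ 2)) = 16 * (1 * (N ^ 4 * U)) := by ring
        _ ≤ 16 * (p * (N ^ 6 * U)) := by
            have := pw 4 6 (by norm_num)
            gcongr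
            linarith
    have k3 : N * (2 * p * U * (64 * N ^ 5)) = 128 * (p * (N ^ 6 * U)) := by ring
    calc 4 / S ^ 5 * (N ^ 3 * (2 * (N * (U * (2 * N ^ 2)) + (8 * N ^ 2 * (U * (2 * N ^ 2))
            + N * (2 * p * U * (64 * N ^ 5))))))
        ≤ 4 * (N ^ 3 * (2 * (N * (U * (2 * N ^ 2)) + (8 * N ^ 2 * (U * (2 * N ^ 2))
            + N * (2 * p * U * (64 * N ^ 5)))))) :=
          mul_le_mul_of_nonneg_right d4 (by positivity)
      _ ≤ 4 * (N ^ 3 * (2 * (2 * (p * (N ^ 6 * U)) + (16 * (p * (N ^ 6 * U))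
            + 128 * (p * (N ^ 6 * U)))))) := by
          rw [k3]
          gcongr
      _ = 1168 * (p * (N ^ 9 * U)) := by ring
  have hUV : N ^ 9 * U ≤ (10 * N) ^ (20 * p + 20) := by
    have h1 : U ≤ (10 * N) ^ (4 * p - 4) := by
      have : (10 * N) ^ (4 * p - 4) = ((10 * N) ^ 2) ^ (2 * p - 2) := by
        rw [← pow_mul]; congr 1; omega
      rw [this, hU]
      refine pow_le_pow_left₀ (by positivity) ?_ _
      nlinarith
    have h2 : N ^ 9 ≤ (10 * N) ^ 9 := pow_le_pow_left₀ hN0.le (by linarith) _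
    calc N ^ 9 * U ≤ (10 * N) ^ 9 * (10 * N) ^ (4 * p - 4) :=
          mul_le_mul h2 h1 hU0 (by positivity)
      _ = (10 * N) ^ (9 + (4 * p - 4)) := by rw [pow_add]
      _ ≤ (10 * N) ^ (20 * p + 20) := pow_le_pow_right₀ (by linarith) (by omega)
  have hpU : 0 ≤ p * (N ^ 9 * U) := by positivity
  calc _ ≤ 150 * (p * (N ^ 9 * U)) + 1024 * (p * (N ^ 9 * U)) + 1168 * (p * (N ^ 9 * U)) :=
        add_le_add (add_le_add t1 t2) t3
    _ ≤ 2500 * p * (N ^ 9 * U) := by nlinarith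
    _ ≤ 2500 * p * (10 * N) ^ (20 * p + 20) := mul_le_mul_of_nonneg_left hUV (by positivity)

private theorem FR2_num1 {S N Λ Γ τ : ℝ} (hΛ : 1 ≤ Λ) (hΓ : 1 ≤ Γ) (hτ : 0 ≤ τ) (hτ1 : τ ≤ 1)
    (hS : 1 ≤ S) (hN : N = S ^ 2) :
    1 / S * (Λ ^ 3 * τ + 8 * Γ + 40 * τ) + (40 * τ ^ 2 + 16 * Γ * τ + 49 * Λ ^ 4 * Γ ^ 2 / N)
      ≤ 98 * (Λ ^ 4 * Γ ^ 2 * (τ + 1 / S)) := by
  have hS0 : 0 < S := by linarith
  set s : ℝ := 1 / S with hs
  have hs0 : 0 < s := by positivity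
  have hs1 : s ≤ 1 := by rw [hs, div_le_one hS0]; exact hS
  have hN' : 49 * Λ ^ 4 * Γ ^ 2 / N = 49 * (Λ ^ 4 * Γ ^ 2) * s * s := by
    rw [hN, hs]; field_simp
  set P : ℝ := Λ ^ 4 * Γ ^ 2 with hP
  have hΛ4 : 1 ≤ Λ ^ 4 := one_le_pow₀ hΛ
  have hΓ2 : 1 ≤ Γ ^ 2 := one_le_pow₀ hΓ
  have hP1 : 1 ≤ P := by rw [hP]; nlinarith
  have e1 : Λ ^ 3 ≤ P := by
    calc Λ ^ 3 ≤ Λ ^ 4 * 1 := by rw [mul_one]; exact pow_le_pow_right₀ hΛ (by norm_num)
      _ ≤ P := mul_le_mul_of_nonneg_left hΓ2 (by positivity)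
  have e2 : Γ ≤ P := by
    calc Γ = 1 * Γ ^ 1 := by ring
      _ ≤ Λ ^ 4 * Γ ^ 2 := mul_le_mul hΛ4 (pow_le_pow_right₀ hΓ (by norm_num)) (by positivity)
          (by positivity)
  rw [hN']
  have hPτ : 0 ≤ P * τ := by positivity
  have hPs : 0 ≤ P * s := by positivity
  have t1 : s * (Λ ^ 3 * τ) ≤ P * τ := by
    calc s * (Λ ^ 3 * τ) ≤ 1 * (P * τ) :=
          mul_le_mul hs1 (mul_le_mul_of_nonneg_right e1 hτ) (by positivity) (by norm_num)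
      _ = P * τ := one_mul _
  have t2 : s * Γ ≤ P * s := by
    calc s * Γ ≤ s * P := mul_le_mul_of_nonneg_left e2 hs0.le
      _ = P * s := mul_comm _ _
  have t3 : s * τ ≤ P * s := by
    calc s * τ ≤ s * P := mul_le_mul_of_nonneg_left (by linarith) hs0.le
      _ = P * s := mul_comm _ _
  have t4 : τ ^ 2 ≤ P * τ := by
    rw [sq]; exact mul_le_mul_of_nonneg_right (by linarith) hτ
  have t5 : Γ * τ ≤ P * τ := mul_le_mul_of_nonneg_right e2 hτ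
  have t6 : P * s * s ≤ P * s := by
    have : P * s ≤ P := by nlinarith
    calc P * s * s ≤ P * s * 1 := mul_le_mul_of_nonneg_left hs1 hPs
      _ = P * s := mul_one _
  nlinarith

private theorem FR2_n2 (p : ℕ) {S N Γ τ Z : ℝ} (hS0 : 0 < S) (hSN : N = S ^ 2) :
    8 / S ^ 5 * (1 / S * (128 * p * Γ ^ 5) * (N ^ 3 * (5 * τ * Z)))
      = 5120 * p * (Γ ^ 5 * τ * Z) := by
  rw [hSN]; field_simp; ring

private theorem FR2_n3 (p : ℕ) {S N Γ Z : ℝ} (hS0 : 0 < S) (hSN : N = S ^ 2) :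
    4 / S ^ 5 * (100 * (p : ℝ) ^ 2 * Γ * (2 * Γ * (16 / S)) ^ 2
            * (N ^ 3 * (3 * (480 ^ (2 * p) * Γ ^ (8 * p)) * Z)))
          = 1228800 * (p : ℝ) ^ 2 * 480 ^ (2 * p) * (Γ ^ 3 * Γ ^ (8 * p) * (1 / S) * Z) := by
  rw [hSN]; field_simp; ring

/-- abstract good bound -/
private theorem FR2_absG {n : ℕ} (hn0' : 0 < n) {p : ℕ} (hp : 2 ≤ p) {S Λ Γ τ Rn rx Z psi C : ℝ}
    (hS1 : 1 ≤ S) (hSN : (n : ℝ) = S ^ 2)
    (hΛ : 1 ≤ Λ) (hΓ : 1 ≤ Γ) (hτ : 0 ≤ τ) (hτ1 : τ ≤ 1)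
    (hRn0 : 0 ≤ Rn) (hrx0 : 0 ≤ rx) (c g : Fin n → ℝ) (hc0 : ∀ b, 0 ≤ c b) (hg0 : ∀ b, 0 ≤ g b)
    (hg1 : ∑ j, g j ≤ n * τ) (hg2 : ∑ j, g j ^ 2 ≤ n * τ ^ 2)
    (hZσ : Z = 1 + Rn ^ (2 * p) + rx ^ (2 * p) + (1 / (n : ℝ)) * ∑ b, c b ^ (2 * p))
    (hpsi0 : 0 ≤ psi) (hpsi : psi ≤ Rn ^ (2 * p - 1))
    (w r : Fin n → Fin n → Fin n → ℝ)
    (hw : ∀ j k l, w j k l
      ≤ 1 / S * (128 * p * Γ ^ 5) * (Rn ^ (2 * p - 2) * ((1 + rx) + c j + c k + c l)))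
    (hr : ∀ j k l, r j k l = 100 * (p : ℝ) ^ 2 * Γ * (2 * Γ * (16 / S)) ^ 2
      * (Rn + 40 * Γ ^ 2 * (1 + (Γ ^ 2 + (rx + c j + c k + c l)))) ^ (2 * p - 1))
    (hC : C = 98 + 5120 * p + 1228800 * (p : ℝ) ^ 2 * 480 ^ (2 * p) + 2500 * p) :
    (1 / S * (Λ ^ 3 * τ + 8 * Γ + 40 * τ)
          + (40 * τ ^ 2 + 16 * Γ * τ + 49 * Λ ^ 4 * Γ ^ 2 / n)) * psi
      + 8 / S ^ 5 * ∑ j, ∑ k : Fin n, ∑ l : Fin n, g j * w j k l
      + 4 / S ^ 5 * ∑ j : Fin n, ∑ k : Fin n, ∑ l : Fin n, r j k l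
    ≤ C * Λ ^ 4 * Γ ^ (8 * p + 8) * (τ + 1 / S) * Z := by
  have hS0 : 0 < S := by linarith
  have hn0 : (0 : ℝ) < n := by exact_mod_cast hn0'
  have hΓ0 : 0 ≤ Γ := by linarith
  have hM0 : 0 ≤ (1 / (n : ℝ)) * ∑ b, c b ^ (2 * p) :=
    mul_nonneg (by positivity) (Finset.sum_nonneg fun b _ => pow_nonneg (hc0 b) _)
  have hZ1 : 1 ≤ Z := by
    rw [hZσ]
    have h1 : 0 ≤ Rn ^ (2 * p) := by positivity
    have h2 : 0 ≤ rx ^ (2 * p) := by positivity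
    linarith
  have hZ0 : 0 ≤ Z := by linarith
  obtain ⟨W, hW⟩ : ∃ W : ℝ, W = Λ ^ 4 * Γ ^ (8 * p + 8) * (τ + 1 / S) * Z := ⟨_, rfl⟩
  have hτS : 0 ≤ τ + 1 / S := by positivity
  have hΛ4 : 1 ≤ Λ ^ 4 := one_le_pow₀ hΛ
  have hW0 : 0 ≤ W := by rw [hW]; positivity
  -- first term
  have T1 : (1 / S * (Λ ^ 3 * τ + 8 * Γ + 40 * τ)
        + (40 * τ ^ 2 + 16 * Γ * τ + 49 * Λ ^ 4 * Γ ^ 2 / n)) * psi ≤ 98 * W := by
    have h1 := FR2_num1 hΛ hΓ hτ hτ1 hS1 hSN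
    have h2 : psi ≤ Z := by
      have h3 := FR2_pow1 (p := p) (m := 2 * p - 1) (by omega) hRn0
      have h4 : 0 ≤ rx ^ (2 * p) := by positivity
      rw [hZσ]; linarith
    have h5 : Γ ^ 2 ≤ Γ ^ (8 * p + 8) := pow_le_pow_right₀ hΓ (by omega)
    have h6 : 0 ≤ 98 * (Λ ^ 4 * Γ ^ 2 * (τ + 1 / S)) := by positivity
    have h7 := mul_le_mul h1 h2 hpsi0 h6
    have h8 : Λ ^ 4 * Γ ^ 2 * (τ + 1 / S) ≤ Λ ^ 4 * Γ ^ (8 * p + 8) * (τ + 1 / S) :=
      mul_le_mul_of_nonneg_right (mul_le_mul_of_nonneg_left h5 (by positivity)) hτS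
    have h9 := mul_le_mul_of_nonneg_right h8 hZ0
    rw [hW]
    linarith
  -- second term
  have T2 : 8 / S ^ 5 * ∑ j, ∑ k : Fin n, ∑ l : Fin n, g j * w j k l ≤ 5120 * p * W := by
    have h1 : ∑ j, ∑ k : Fin n, ∑ l : Fin n, g j * w j k l
        ≤ 1 / S * (128 * p * Γ ^ 5) * ((n : ℝ) ^ 3 * (5 * τ * Z)) := by
      have h2 := FR2_T2 hn0' hp g c hg0 hc0 hRn0 hrx0 hτ hg1 hg2 hZσ
      refine le_trans ?_ (mul_le_mul_of_nonneg_left h2 (by positivity))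
      simp only [Finset.mul_sum]
      refine Finset.sum_le_sum fun j _ => Finset.sum_le_sum fun k _ =>
        Finset.sum_le_sum fun l _ => ?_
      refine (mul_le_mul_of_nonneg_left (hw j k l) (hg0 j)).trans (le_of_eq ?_)
      ring
    have h3 : Γ ^ 5 * τ * Z ≤ W := by
      have h5 : Γ ^ 5 ≤ Γ ^ (8 * p + 8) := pow_le_pow_right₀ hΓ (by omega)
      have h6 : τ ≤ τ + 1 / S := by linarith [show (0 : ℝ) < 1 / S by positivity]
      have h7 : Γ ^ 5 ≤ Λ ^ 4 * Γ ^ (8 * p + 8) := by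
        calc Γ ^ 5 = 1 * Γ ^ 5 := (one_mul _).symm
          _ ≤ Λ ^ 4 * Γ ^ (8 * p + 8) := mul_le_mul hΛ4 h5 (by positivity) (by positivity)
      rw [hW]
      exact mul_le_mul_of_nonneg_right (mul_le_mul h7 h6 hτ (by positivity)) hZ0
    have h8 := mul_le_mul_of_nonneg_left h1 (show (0 : ℝ) ≤ 8 / S ^ 5 by positivity)
    rw [FR2_n2 p hS0 hSN] at h8
    exact h8.trans (mul_le_mul_of_nonneg_left h3 (by positivity))
  -- third term
  have T3 : 4 / S ^ 5 * ∑ j : Fin n, ∑ k : Fin n, ∑ l : Fin n, r j k l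
      ≤ 1228800 * (p : ℝ) ^ 2 * 480 ^ (2 * p) * W := by
    have h1 := FR2_T3 hn0' (p := p) c hc0 hΓ hRn0 hrx0 hZσ
    have h2 : ∑ j : Fin n, ∑ k : Fin n, ∑ l : Fin n, r j k l
        ≤ 100 * (p : ℝ) ^ 2 * Γ * (2 * Γ * (16 / S)) ^ 2
          * ((n : ℝ) ^ 3 * (3 * (480 ^ (2 * p) * Γ ^ (8 * p)) * Z)) := by
      refine le_trans (le_of_eq ?_) (mul_le_mul_of_nonneg_left h1 (by positivity))
      simp only [hr, Finset.mul_sum]
    have h4 : Γ ^ 3 * Γ ^ (8 * p) * (1 / S) * Z ≤ W := by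
      have h5 : Γ ^ 3 * Γ ^ (8 * p) ≤ Γ ^ (8 * p + 8) := by
        rw [← pow_add]; exact pow_le_pow_right₀ hΓ (by omega)
      have h7 : Γ ^ 3 * Γ ^ (8 * p) ≤ Λ ^ 4 * Γ ^ (8 * p + 8) := by
        calc Γ ^ 3 * Γ ^ (8 * p) = 1 * (Γ ^ 3 * Γ ^ (8 * p)) := (one_mul _).symm
          _ ≤ Λ ^ 4 * Γ ^ (8 * p + 8) := mul_le_mul hΛ4 h5 (by positivity) (by positivity)
      have h6 : 1 / S ≤ τ + 1 / S := by linarith
      rw [hW]
      exact mul_le_mul_of_nonneg_right (mul_le_mul h7 h6 (by positivity) (by positivity)) hZ0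
    have h8 := mul_le_mul_of_nonneg_left h2 (show (0 : ℝ) ≤ 4 / S ^ 5 by positivity)
    rw [FR2_n3 p hS0 hSN] at h8
    exact h8.trans (mul_le_mul_of_nonneg_left h4 (by positivity))
  refine (add_le_add (add_le_add T1 T2) T3).trans ?_
  have e : C * Λ ^ 4 * Γ ^ (8 * p + 8) * (τ + 1 / S) * Z = C * W := by rw [hW]; ring
  rw [e, hC]
  have h7 : 0 ≤ 2500 * (p : ℝ) * W := by positivity
  linarith

/-- abstract bad bound -/
private theorem FR2_absB {n : ℕ} {p : ℕ} (hp : 2 ≤ p) {S psi C : ℝ}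
    (hn : 3 ≤ n) (hS1 : 1 ≤ S) (hSN : (n : ℝ) = S ^ 2)
    (g : Fin n → ℝ)
    (hpsi : psi ≤ (2 * (n : ℝ) ^ 2) ^ (2 * p - 1))
    (w r : Fin n → Fin n → Fin n → ℝ)
    (hg0 : ∀ j, g j ≤ n) (hw0 : ∀ j k l, 0 ≤ w j k l)
    (hw : ∀ j k l, w j k l ≤ 2 * p * (2 * (n : ℝ) ^ 2) ^ (2 * p - 2) * (64 * (n : ℝ) ^ 5))
    (hr : ∀ j k l, r j k l = FR2_Rb p n)
    (hC : C = 98 + 5120 * p + 1228800 * (p : ℝ) ^ 2 * 480 ^ (2 * p) + 2500 * p) :
    (1 / S * (S ^ 3 * n + 8 * n + 40 * n)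
          + (40 * (n : ℝ) ^ 2 + 16 * n * n + 49 * S ^ 4 * (n : ℝ) ^ 2 / n)) * psi
      + 8 / S ^ 5 * ∑ j, ∑ k : Fin n, ∑ l : Fin n, g j * w j k l
      + 4 / S ^ 5 * ∑ j : Fin n, ∑ k : Fin n, ∑ l : Fin n, r j k l
    ≤ C * (10 * n) ^ (20 * p + 20) := by
  have hn3 : (3 : ℝ) ≤ n := by exact_mod_cast hn
  have hn0 : (0 : ℝ) < n := by linarith
  have hS0 : 0 < S := by linarith
  have hCb : 2500 * (p : ℝ) * (10 * n) ^ (20 * p + 20) ≤ C * (10 * n) ^ (20 * p + 20) := by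
    refine mul_le_mul_of_nonneg_right ?_ (by positivity)
    rw [hC]
    have h1 : 0 ≤ 1228800 * (p : ℝ) ^ 2 * 480 ^ (2 * p) := by positivity
    have h2 : 0 ≤ 5120 * (p : ℝ) := by positivity
    linarith
  refine le_trans ?_ hCb
  refine le_trans ?_ (FR2_badnum hp hn3 hS1 hSN)
  refine add_le_add (add_le_add ?_ ?_) ?_
  · exact mul_le_mul_of_nonneg_left hpsi (by positivity)
  · refine mul_le_mul_of_nonneg_left ?_ (by positivity)
    have h1 : ∀ j k l, g j * w j k l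
        ≤ n * (2 * p * (2 * (n : ℝ) ^ 2) ^ (2 * p - 2) * (64 * (n : ℝ) ^ 5)) := by
      intro j k l
      exact mul_le_mul (hg0 j) (hw j k l) (hw0 j k l) hn0.le
    calc ∑ j, ∑ k : Fin n, ∑ l : Fin n, g j * w j k l
        ≤ ∑ _j : Fin n, ∑ _k : Fin n, ∑ _l : Fin n,
          (n * (2 * p * (2 * (n : ℝ) ^ 2) ^ (2 * p - 2) * (64 * (n : ℝ) ^ 5))) :=
          Finset.sum_le_sum fun j _ => Finset.sum_le_sum fun k _ =>
            Finset.sum_le_sum fun l _ => h1 j k l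
      _ = (n : ℝ) ^ 3 * (n * (2 * p * (2 * (n : ℝ) ^ 2) ^ (2 * p - 2) * (64 * (n : ℝ) ^ 5))) := by
          simp only [Finset.sum_const, Finset.card_univ, Fintype.card_fin, nsmul_eq_mul]
          ring
  · refine mul_le_mul_of_nonneg_left (le_of_eq ?_) (by positivity)
    simp only [hr, Finset.sum_const, Finset.card_univ, Fintype.card_fin, nsmul_eq_mul]
    unfold FR2_Rb
    ring

/-- second term, pointwise -/
private theorem FR2_wd {n : ℕ} (α β : ℝ) (hα0 : 0 ≤ α) (hα1 : α ≤ 1)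
    (X : Fin n × Fin n → ℝ) (z : ℂ) (hz : 0 < z.im) (hz1 : 1 ≤ n * z.im)
    (p : ℕ) (hp : 2 ≤ p) (Γ : ℝ) (hΓ : 1 ≤ Γ) (x y j k l : Fin n)
    {σ : Fin n → Fin n → Bool} (hσ : σ ∈ Sn n) (hG : EnLe (Gz (Pn n) (Bm α β σ X) z) Γ) :
    ‖((1 / Real.sqrt n : ℝ) : ℂ) * dPsi p (rf (H0 σ) (Pn n) (Bm α β σ X) α z x y)
        (drf (H0 σ) (Pn n) (Bm α β σ X) α (Xi x j k l) (α • Xi x j k l) z x y)‖
      ≤ 1 / Real.sqrt n * (128 * p * Γ ^ 5)
        * (‖rf (H0 σ) (Pn n) (Bm α β σ X) α z x y‖ ^ (2 * p - 2)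
          * ((1 + ‖rf (H0 σ) (Pn n) (Bm α β σ X) α z x x‖)
            + ‖rf (H0 σ) (Pn n) (Bm α β σ X) α z x j‖
            + ‖rf (H0 σ) (Pn n) (Bm α β σ X) α z x k‖
            + ‖rf (H0 σ) (Pn n) (Bm α β σ X) α z x l‖)) := by
  have hΓ0 : 0 ≤ Γ := by linarith
  have hB := pb_Bm α β σ hσ X
  have g1 : 1 ≤ Γ ^ 2 := one_le_pow₀ hΓ
  have hN : 1 ≤ (n : ℝ) * |z.im| := by rw [abs_of_pos hz]; exact hz1
  have h1 := bd_dr (H := H0 σ) hB (FR2_pbXi1 x j k l) α hα0 hα1 z hz.ne' Γ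
    (FR2_h (H0 σ) (Bm α β σ X) α Γ z x j k l) hΓ (FR2_h0 _ _ _ _ _ _ _ _ _) hG hN x y
    (fun b d hbd' => FR2_rows (c := d) hΓ0 hα0 hα1 hG hbd')
  have h2 := norm_dpsi p hp (rf (H0 σ) (Pn n) (Bm α β σ X) α z x y)
    (drf (H0 σ) (Pn n) (Bm α β σ X) α (Xi x j k l) (α • Xi x j k l) z x y)
  have h3 := sp1_Xi x j k l
  have h3' := sp1_nonneg (Xi x j k l)
  have hc0 : 0 ≤ 1 / Real.sqrt (n : ℝ) := by positivity
  have n1 := norm_nonneg (rf (H0 σ) (Pn n) (Bm α β σ X) α z x x)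
  have n2 := norm_nonneg (rf (H0 σ) (Pn n) (Bm α β σ X) α z x j)
  have n3 := norm_nonneg (rf (H0 σ) (Pn n) (Bm α β σ X) α z x k)
  have n4 := norm_nonneg (rf (H0 σ) (Pn n) (Bm α β σ X) α z x l)
  have n0 := norm_nonneg (rf (H0 σ) (Pn n) (Bm α β σ X) α z x y)
  rw [norm_mul, Complex.norm_real, Real.norm_of_nonneg hc0]
  unfold FR2_h at h1
  generalize ‖rf (H0 σ) (Pn n) (Bm α β σ X) α z x x‖ = a1 at *
  generalize ‖rf (H0 σ) (Pn n) (Bm α β σ X) α z x j‖ = a2 at *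
  generalize ‖rf (H0 σ) (Pn n) (Bm α β σ X) α z x k‖ = a3 at *
  generalize ‖rf (H0 σ) (Pn n) (Bm α β σ X) α z x l‖ = a4 at *
  generalize ‖rf (H0 σ) (Pn n) (Bm α β σ X) α z x y‖ = a0 at *
  generalize ‖drf (H0 σ) (Pn n) (Bm α β σ X) α (Xi x j k l) (α • Xi x j k l) z x y‖ = dd at *
  generalize ‖dPsi p (rf (H0 σ) (Pn n) (Bm α β σ X) α z x y)
    (drf (H0 σ) (Pn n) (Bm α β σ X) α (Xi x j k l) (α • Xi x j k l) z x y)‖ = dp at *
  generalize 1 / Real.sqrt (n : ℝ) = s at *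
  generalize sp1 (Xi x j k l) = ss at *
  have h4 : 1 + (Γ ^ 2 + (a1 + a2 + a3 + a4)) ≤ 2 * Γ ^ 2 * ((1 + a1) + a2 + a3 + a4) := by
    have h5 : 0 ≤ a1 + a2 + a3 + a4 := by positivity
    nlinarith [mul_nonneg (sub_nonneg.2 g1) h5]
  have h5 : dd ≤ 4 * 8 * Γ ^ 3 * (2 * Γ ^ 2 * ((1 + a1) + a2 + a3 + a4)) := by
    refine h1.trans ?_
    have h6 : 0 ≤ 1 + (Γ ^ 2 + (a1 + a2 + a3 + a4)) := by positivity
    gcongr
  have h6 : dp ≤ 2 * (p : ℝ) * a0 ^ (2 * p - 2)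
      * (4 * 8 * Γ ^ 3 * (2 * Γ ^ 2 * ((1 + a1) + a2 + a3 + a4))) :=
    h2.trans (mul_le_mul_of_nonneg_left h5 (by positivity))
  calc s * dp ≤ s * (2 * (p : ℝ) * a0 ^ (2 * p - 2)
      * (4 * 8 * Γ ^ 3 * (2 * Γ ^ 2 * ((1 + a1) + a2 + a3 + a4)))) :=
        mul_le_mul_of_nonneg_left h6 hc0
    _ = s * (128 * p * Γ ^ 5) * (a0 ^ (2 * p - 2) * ((1 + a1) + a2 + a3 + a4)) := by ring

theorem switchR (p : ℕ) (hp : 2 ≤ p) : ∃ C : ℝ, 0 < C ∧ ∀ n : ℕ, 3 ≤ n →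
    ∀ α β : ℝ, 0 ≤ α → α ≤ 1 → ∀ (X : Fin n × Fin n → ℝ) (z : ℂ), 0 < z.im → 1 ≤ n * z.im →
    ∀ Λ Γ τ : ℝ, 1 ≤ Λ → 1 ≤ Γ → 0 ≤ τ → τ ≤ 1 → 32 * Γ ≤ Real.sqrt n →
    ∀ (x y : Fin n) (bd : (Fin n → Fin n → Bool) → ℝ),
    (∀ σ ∈ Sn n,
      (HypM (Mx σ) Λ ∧ HypG (Gz (Pn n) (Bm α β σ X) z) Γ τ ∧
        C * Λ ^ 4 * Γ ^ (8 * p + 8) * (τ + 1 / Real.sqrt n) *
          (1 + ‖rf (H0 σ) (Pn n) (Bm α β σ X) α z x y‖ ^ (2 * p)
            + ‖rf (H0 σ) (Pn n) (Bm α β σ X) α z x x‖ ^ (2 * p)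
            + (1 / (n : ℝ)) * ∑ b, ‖rf (H0 σ) (Pn n) (Bm α β σ X) α z x b‖ ^ (2 * p)) ≤ bd σ)
      ∨ C * (10 * n) ^ (20 * p + 20) ≤ bd σ) →
    ‖EU (fun σ => (toC (H0 σ) * Gz (Pn n) (Bm α β σ X) z) x y
          * PsiF p (rf (H0 σ) (Pn n) (Bm α β σ X) α z x y))
      + (α : ℂ) * EU (fun σ => mz (Pn n) (Bm α β σ X) z * Gz (Pn n) (Bm α β σ X) z x y
          * PsiF p (rf (H0 σ) (Pn n) (Bm α β σ X) α z x y))‖ ≤ EU bd := by
  classical
  obtain ⟨C, hC⟩ : ∃ C : ℝ,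
      C = 98 + 5120 * p + 1228800 * (p : ℝ) ^ 2 * 480 ^ (2 * p) + 2500 * p := ⟨_, rfl⟩
  have hC0 : 0 < C := by rw [hC]; positivity
  refine ⟨C, hC0, ?_⟩
  intro n hn α β hα0 hα1 X z hz hz1 Λ Γ τ hΛ hΓ hτ hτ1 h32 x y bd hbd
  have hn3 : (3 : ℝ) ≤ n := by exact_mod_cast hn
  have hn0 : (0 : ℝ) < n := by linarith
  have hn0' : 0 < n := by omega
  have hS0 : 0 < Real.sqrt n := Real.sqrt_pos.2 hn0
  have hS1 : 1 ≤ Real.sqrt n := by rw [Real.one_le_sqrt]; linarith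
  have hSN : (n : ℝ) = Real.sqrt n ^ 2 := (Real.sq_sqrt hn0.le).symm
  have hΓ0 : 0 ≤ Γ := by linarith
  obtain ⟨good, hg1, hg2⟩ : ∃ good : (Fin n → Fin n → Bool) → Prop,
      (∀ σ, good σ → HypM (Mx σ) Λ ∧ HypG (Gz (Pn n) (Bm α β σ X) z) Γ τ ∧
        C * Λ ^ 4 * Γ ^ (8 * p + 8) * (τ + 1 / Real.sqrt n) *
          (1 + ‖rf (H0 σ) (Pn n) (Bm α β σ X) α z x y‖ ^ (2 * p)
            + ‖rf (H0 σ) (Pn n) (Bm α β σ X) α z x x‖ ^ (2 * p)
            + (1 / (n : ℝ)) * ∑ b, ‖rf (H0 σ) (Pn n) (Bm α β σ X) α z x b‖ ^ (2 * p)) ≤ bd σ) ∧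
      (∀ σ ∈ Sn n, ¬ good σ → C * (10 * n) ^ (20 * p + 20) ≤ bd σ) := by
    refine ⟨fun σ => HypM (Mx σ) Λ ∧ HypG (Gz (Pn n) (Bm α β σ X) z) Γ τ ∧
        C * Λ ^ 4 * Γ ^ (8 * p + 8) * (τ + 1 / Real.sqrt n) *
          (1 + ‖rf (H0 σ) (Pn n) (Bm α β σ X) α z x y‖ ^ (2 * p)
            + ‖rf (H0 σ) (Pn n) (Bm α β σ X) α z x x‖ ^ (2 * p)
            + (1 / (n : ℝ)) * ∑ b, ‖rf (H0 σ) (Pn n) (Bm α β σ X) α z x b‖ ^ (2 * p)) ≤ bd σ,
      fun σ h => h, fun σ hσ h => ?_⟩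
    rcases hbd σ hσ with h' | h'
    · exact absurd h' h
    · exact h'
  obtain ⟨rp, hr1, hr2⟩ : ∃ rp : (Fin n → Fin n → Bool) → Fin n → Fin n → Fin n → ℝ,
      (∀ σ, good σ → ∀ j k l, rp σ j k l = FR2_R p Γ (Real.sqrt n)
        ‖rf (H0 σ) (Pn n) (Bm α β σ X) α z x y‖ (FR2_h (H0 σ) (Bm α β σ X) α Γ z x j k l)) ∧
      (∀ σ, ¬ good σ → ∀ j k l, rp σ j k l = FR2_Rb p n) :=
    ⟨fun σ j k l => if good σ then FR2_R p Γ (Real.sqrt n)
        ‖rf (H0 σ) (Pn n) (Bm α β σ X) α z x y‖ (FR2_h (H0 σ) (Bm α β σ X) α Γ z x j k l)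
        else FR2_Rb p n,
      fun σ h j k l => if_pos h, fun σ h j k l => if_neg h⟩
  obtain ⟨pL, hL1, hL2⟩ : ∃ pL : (Fin n → Fin n → Bool) → ℝ,
      (∀ σ, good σ → pL σ = Λ) ∧ (∀ σ, ¬ good σ → pL σ = Real.sqrt n) :=
    ⟨fun σ => if good σ then Λ else Real.sqrt n, fun σ h => if_pos h, fun σ h => if_neg h⟩
  obtain ⟨pG, hG1, hG2⟩ : ∃ pG : (Fin n → Fin n → Bool) → ℝ,
      (∀ σ, good σ → pG σ = Γ) ∧ (∀ σ, ¬ good σ → pG σ = n) :=
    ⟨fun σ => if good σ then Γ else n, fun σ h => if_pos h, fun σ h => if_neg h⟩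
  obtain ⟨pT, hT1, hT2⟩ : ∃ pT : (Fin n → Fin n → Bool) → ℝ,
      (∀ σ, good σ → pT σ = τ) ∧ (∀ σ, ¬ good σ → pT σ = n) :=
    ⟨fun σ => if good σ then τ else n, fun σ h => if_pos h, fun σ h => if_neg h⟩
  have hRb0 : 0 ≤ FR2_Rb p n := by unfold FR2_Rb; positivity
  have hR0 : ∀ σ ∈ Sn n, ∀ j k l, 0 ≤ rp σ j k l := by
    intro σ _ j k l
    by_cases hg : good σ
    · rw [hr1 σ hg]
      unfold FR2_R
      have := FR2_h0 (H0 σ) (Bm α β σ X) α Γ z x j k l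
      positivity
    · rw [hr2 σ hg]; exact hRb0
  have hM : ∀ σ ∈ Sn n, HypM (Mx σ) (pL σ) := by
    intro σ hσ
    by_cases hg : good σ
    · rw [hL1 σ hg]; exact (hg1 σ hg).1
    · rw [hL2 σ hg]; exact (FR2_crude hn α β hα0 hα1 hσ X z hz hz1).1
  have hGG : ∀ σ ∈ Sn n, HypG (Gz (Pn n) (Bm α β σ X) z) (pG σ) (pT σ) := by
    intro σ hσ
    by_cases hg : good σ
    · rw [hG1 σ hg, hT1 σ hg]; exact (hg1 σ hg).2.1
    · rw [hG2 σ hg, hT2 σ hg]; exact (FR2_crude hn α β hα0 hα1 hσ X z hz hz1).2.1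
  have hsw := switchF (n := n) hn0' x y α hα0 hα1
    (fun σ => Gz (Pn n) (Bm α β σ X) z)
    (fun σ => PsiF p (rf (H0 σ) (Pn n) (Bm α β σ X) α z x y))
    (fun σ j k l => ((1 / Real.sqrt n : ℝ) : ℂ) * dPsi p (rf (H0 σ) (Pn n) (Bm α β σ X) α z x y)
      (drf (H0 σ) (Pn n) (Bm α β σ X) α (Xi x j k l) (α • Xi x j k l) z x y))
    rp pL pG pT hM hGG hR0
    (fun σ hσ j k l hD ha => by
      by_cases hg : good σ
      · rw [hr1 σ hg]
        exact FR2_derG hn α β hα0 hα1 X z hz hz1 p hp Γ hΓ h32 x y j k l hD hσ ha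
          (hg1 σ hg).2.1.en
      · rw [hr2 σ hg]
        exact FR2_derB hn α β hα0 hα1 X z hz hz1 p hp x y j k l hD hσ ha)
  refine le_trans (le_of_eq rfl) (hsw.trans (EU_mono fun σ hσ => ?_))
  by_cases hg : good σ
  · obtain ⟨-, hG, hbdσ⟩ := hg1 σ hg
    refine le_trans ?_ hbdσ
    rw [hL1 σ hg, hG1 σ hg, hT1 σ hg]
    refine FR2_absG hn0' hp hS1 hSN hΛ hΓ hτ hτ1 (norm_nonneg _) (norm_nonneg _)
      (fun b => ‖rf (H0 σ) (Pn n) (Bm α β σ X) α z x b‖)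
      (fun j => ‖Gz (Pn n) (Bm α β σ X) z j y‖) (fun b => norm_nonneg _) (fun b => norm_nonneg _)
      (b1 hG y) (hG.rw y) rfl (norm_nonneg _) (le_of_eq (norm_psi p (by omega) _))
      (fun j k l => ‖((1 / Real.sqrt n : ℝ) : ℂ)
        * dPsi p (rf (H0 σ) (Pn n) (Bm α β σ X) α z x y)
            (drf (H0 σ) (Pn n) (Bm α β σ X) α (Xi x j k l) (α • Xi x j k l) z x y)‖)
      (rp σ)
      (fun j k l => FR2_wd α β hα0 hα1 X z hz hz1 p hp Γ hΓ x y j k l hσ hG.en)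
      (fun j k l => ?_) hC
    rw [hr1 σ hg]
    rfl
  · refine le_trans ?_ (hg2 σ hσ hg)
    rw [hL2 σ hg, hG2 σ hg, hT2 σ hg]
    obtain ⟨hM', hG', hHG, hr⟩ := FR2_crude hn α β hα0 hα1 hσ X z hz hz1
    have hΨ : ‖PsiF p (rf (H0 σ) (Pn n) (Bm α β σ X) α z x y)‖
        ≤ (2 * (n : ℝ) ^ 2) ^ (2 * p - 1) := by
      rw [norm_psi p (by omega)]
      exact pow_le_pow_left₀ (norm_nonneg _) (hr x y) _
    exact FR2_absB hp hn hS1 hSN (fun j => ‖Gz (Pn n) (Bm α β σ X) z j y‖) hΨ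
      (fun j k l => ‖((1 / Real.sqrt n : ℝ) : ℂ)
        * dPsi p (rf (H0 σ) (Pn n) (Bm α β σ X) α z x y)
            (drf (H0 σ) (Pn n) (Bm α β σ X) α (Xi x j k l) (α • Xi x j k l) z x y)‖)
      (rp σ) (fun j => hG'.en j y) (fun j k l => norm_nonneg _)
      (fun j k l => (FR2_bad hn α β hα0 hα1 X z hz hz1 p hp x y j k l hσ).2.1)
      (fun j k l => hr2 σ hg j k l) hC

end Pool.Agent.ZR.F

end

section

/-!
# ZR/MBad : the good event has large probability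

PROOF.  `¬ goodE` is contained in the union of
(1) `{∃ i < n-1, |evp (H0 σ) i| > n^θ}`: `BNorm` with `(α, β) = (1, 0)` (`Bm 1 0 σ X = H0 σ`):
  `OpLe (toC (H0 σ)) (K log n)` gives `|evp (H0 σ) i| ≤ K log n ≤ n^θ` (an eigenvalue of a symmetric
  matrix is at most its norm: `evp (H0 σ) i` is a root of the characteristic polynomial, hence there is
  a nonzero real vector `u` with `H0 σ u = λ u`; apply `OpLe` to `u`), probability `≤ exp(-n)`;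
(2) `{sum > n^θ}`: Markov for the square and `IW1`: `≤ n^(ν'-2θ)`;
(3) `{cntP (H0 σ) (E - c0) ≤ κ n}`: there `|cntP - n Fsc(E-c0)| ≥ n (Fsc (E-c0) - κ)`, Chebyshev and
  `ICnt` (`α = 1, β = 0`, `|E - c0| < 2`): `≤ n^(ν'-2)/((2-|E-c0|)(Fsc(E-c0)-κ)²)`; (5) the same at
  `E + c0`; (4), (6) the same for the GOE by `ICntG`.
Sum `≤ n^(-2θ+ν)` for large `n` (`θ ≤ 1/2`).  All the functions involved are measurable; use
`integral_P2` (MPr) to pass from `EJ` to integrals over `P2 n` and Markov's inequality there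
(`meas_ge_le_integral_div`/`mul_meas_ge_le_integral_of_nonneg`).  The integrability of the squares:
`cntP, cnt ≤ n` are bounded; the sum of distances: `|evs (Wv ..) i| ≤ ∑_{kl} |W_kl|` (`weyl_hs`, Sp3,
with `B = 0`), square integrable for the Gaussian measure.
-/


open MeasureTheory ProbabilityTheory Matrix

namespace Pool.Agent.ZR

namespace MBadAux

/-- a real root of the characteristic polynomial is bounded by any operator norm bound -/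
theorem root_le {N : ℕ} {A : Matrix (Fin N) (Fin N) ℝ} {L : ℝ} (hL : OpLe (toC A) L) {l : ℝ}
    (hl : l ∈ A.charpoly.roots) : |l| ≤ L := by
  have h1 : A.charpoly.IsRoot l := (Polynomial.mem_roots'.1 hl).2
  have h2 : (Matrix.scalar (Fin N) l - A).det = 0 := by
    rw [← Matrix.eval_charpoly]; exact h1
  obtain ⟨v, hv0, hv⟩ := Matrix.exists_mulVec_eq_zero_iff.2 h2
  have h3 : ∀ i, (A *ᵥ v) i = l * v i := by
    intro i
    have h := congrFun hv i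
    rw [Matrix.sub_mulVec, Pi.sub_apply, Pi.zero_apply] at h
    have h' : ((Matrix.scalar (Fin N)) l *ᵥ v) i = l * v i := by
      rw [Matrix.scalar_apply, Matrix.mulVec_diagonal]
    linarith
  have h4 := hL.2 (fun i => (v i : ℂ))
  have h5 : ∀ i, (toC A *ᵥ (fun i => (v i : ℂ))) i = ((l * v i : ℝ) : ℂ) := by
    intro i
    rw [← h3 i]
    simp only [toC, Matrix.mulVec, dotProduct, Matrix.map_apply]
    push_cast
    rfl
  have h6 : ∑ i, ‖(toC A *ᵥ (fun i => (v i : ℂ))) i‖ ^ 2 = l ^ 2 * ∑ i, v i ^ 2 := by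
    rw [Finset.mul_sum]
    refine Finset.sum_congr rfl fun i _ => ?_
    rw [h5, Complex.norm_real, Real.norm_eq_abs, sq_abs]
    ring
  have h7 : ∑ i, ‖((v i : ℝ) : ℂ)‖ ^ 2 = ∑ i, v i ^ 2 := by
    refine Finset.sum_congr rfl fun i _ => ?_
    rw [Complex.norm_real, Real.norm_eq_abs, sq_abs]
  rw [h6, h7] at h4
  have h8 : 0 < ∑ i, v i ^ 2 := by
    obtain ⟨i, hi⟩ := Function.ne_iff.1 hv0
    refine Finset.sum_pos' (fun i _ => sq_nonneg _) ⟨i, Finset.mem_univ i, ?_⟩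
    have : v i ≠ 0 := hi
    positivity
  have h9 : l ^ 2 ≤ L ^ 2 := le_of_mul_le_mul_right h4 h8
  exact abs_le_of_sq_le_sq h9 hL.1

theorem evp_mem {N : ℕ} {B : Matrix (Fin N) (Fin N) ℝ} (hB : B.IsSymm)
    (h0 : (0 : ℝ) ∈ B.charpoly.roots) {i : ℕ} (hi : i < N - 1) : evp B i ∈ B.charpoly.roots := by
  have h : evp B i ∈ B.charpoly.roots.erase 0 := by
    rw [rootsP_eq B hB h0]
    exact Multiset.mem_map_of_mem _ (by simpa using hi)
  exact Multiset.mem_of_mem_erase h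

theorem sqrt_le_sum {ι : Type*} (s : Finset ι) (w : ι → ℝ) :
    Real.sqrt (∑ k ∈ s, w k ^ 2) ≤ ∑ k ∈ s, |w k| := by
  have h0 : 0 ≤ ∑ k ∈ s, |w k| := Finset.sum_nonneg fun k _ => abs_nonneg _
  refine Real.sqrt_le_iff.2 ⟨h0, ?_⟩
  calc ∑ k ∈ s, w k ^ 2 = ∑ k ∈ s, |w k| * |w k| := by
        refine Finset.sum_congr rfl fun k _ => ?_
        rw [← sq, sq_abs]
    _ ≤ ∑ k ∈ s, |w k| * ∑ k ∈ s, |w k| := by
        refine Finset.sum_le_sum fun k hk => ?_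
        exact mul_le_mul_of_nonneg_left
          (Finset.single_le_sum (f := fun k => |w k|) (fun k _ => abs_nonneg _) hk) (abs_nonneg _)
    _ = (∑ k ∈ s, |w k|) ^ 2 := by rw [← Finset.sum_mul, sq]

theorem evs_growth (N : ℕ) (v : ℝ) (i : ℕ) :
    ∃ C : ℝ, 0 ≤ C ∧ ∀ X : Fin N × Fin N → ℝ, |evs (Wv v X) i| ≤ C * (1 + ∑ p, |X p|) := by
  refine ⟨|evs (0 : Matrix (Fin N) (Fin N) ℝ) i| + ∑ _k : Fin N, ∑ _l : Fin N,
    Real.sqrt (v / 2) * 2, by positivity, fun X => ?_⟩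
  have hS : 0 ≤ ∑ p, |X p| := Finset.sum_nonneg fun k _ => abs_nonneg _
  have h1 := weyl_hs (Wv v X) 0 (Wv_symm v X) Matrix.isSymm_zero i
  have h2 : Real.sqrt (∑ k, ∑ l, (Wv v X k l - (0 : Matrix (Fin N) (Fin N) ℝ) k l) ^ 2)
      ≤ ∑ k : Fin N, ∑ l : Fin N, |Wv v X k l| := by
    have h := sqrt_le_sum (Finset.univ : Finset (Fin N × Fin N)) (fun p => Wv v X p.1 p.2)
    rw [Fintype.sum_prod_type, Fintype.sum_prod_type] at h
    simpa using h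
  have h3 : ∑ k : Fin N, ∑ l : Fin N, |Wv v X k l|
      ≤ (∑ _k : Fin N, ∑ _l : Fin N, Real.sqrt (v / 2) * 2) * ∑ p, |X p| := by
    rw [Finset.sum_mul]
    refine Finset.sum_le_sum fun k _ => ?_
    rw [Finset.sum_mul]
    refine Finset.sum_le_sum fun l _ => ?_
    have h4 : |X (k, l)| ≤ ∑ p, |X p| :=
      Finset.single_le_sum (f := fun p => |X p|) (fun p _ => abs_nonneg _) (Finset.mem_univ (k, l))
    have h5 : |X (l, k)| ≤ ∑ p, |X p| :=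
      Finset.single_le_sum (f := fun p => |X p|) (fun p _ => abs_nonneg _) (Finset.mem_univ (l, k))
    have h6 : |Wv v X k l| = Real.sqrt (v / 2) * |X (k, l) + X (l, k)| := by
      unfold Wv
      rw [Matrix.of_apply, abs_mul, abs_of_nonneg (Real.sqrt_nonneg _)]
    rw [h6, mul_assoc]
    refine mul_le_mul_of_nonneg_left ?_ (Real.sqrt_nonneg _)
    have h7 := abs_add_le (X (k, l)) (X (l, k))
    linarith
  have h8 : |evs (Wv v X) i| ≤ |evs (Wv v X) i - evs (0 : Matrix (Fin N) (Fin N) ℝ) i|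
      + |evs (0 : Matrix (Fin N) (Fin N) ℝ) i| := by
    have := abs_add_le (evs (Wv v X) i - evs (0 : Matrix (Fin N) (Fin N) ℝ) i)
      (evs (0 : Matrix (Fin N) (Fin N) ℝ) i)
    simpa using this
  have h9 : 0 ≤ |evs (0 : Matrix (Fin N) (Fin N) ℝ) i| := abs_nonneg _
  have h10 : 0 ≤ ∑ _k : Fin N, ∑ _l : Fin N, Real.sqrt (v / 2) * 2 := by positivity
  nlinarith [mul_nonneg h9 hS]

theorem wv_entry_meas (N : ℕ) (v : ℝ) (k l : Fin N) :
    Measurable (fun X : Fin N × Fin N → ℝ => Wv v X k l) := by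
  unfold Wv
  simp only [Matrix.of_apply]
  fun_prop

/-- the sum of distances in `goodE` -/
noncomputable def Fd {n : ℕ} (σ : Pat n) (Y : Arr n) : ℝ :=
  |2 - evs (Wv (N := n) (1 / (n : ℝ)) Y) (n - 1)| +
    ∑ i ∈ Finset.range (n - 1), |evp (H0 σ) i - evs (Wv (N := n) (1 / (n : ℝ)) Y) i|

theorem Fd_nonneg {n : ℕ} (σ : Pat n) (Y : Arr n) : 0 ≤ Fd σ Y := by
  unfold Fd
  exact add_nonneg (abs_nonneg _) (Finset.sum_nonneg fun i _ => abs_nonneg _)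

theorem Fd_meas {n : ℕ} (σ : Pat n) : Measurable (Fd σ) := by
  have h : ∀ i, Measurable (fun X : Arr n => evs (Wv (N := n) (1 / (n : ℝ)) X) i) := fun i =>
    measurable_evs _ (fun k l => wv_entry_meas n _ k l) (fun X => Wv_symm _ X) i
  unfold Fd
  refine Measurable.add ?_ ?_
  · have h1 : Measurable (fun X : Arr n => 2 - evs (Wv (N := n) (1 / (n : ℝ)) X) (n - 1)) :=
      measurable_const.sub (h _)
    exact measurable_norm.comp h1
  · refine Finset.measurable_sum _ fun i _ => ?_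
    have h1 : Measurable (fun X : Arr n => evp (H0 σ) i - evs (Wv (N := n) (1 / (n : ℝ)) X) i) :=
      measurable_const.sub (h _)
    exact measurable_norm.comp h1

theorem Fd_int {n : ℕ} (σ : Pat n) : Integrable (fun X => Fd σ X ^ 2) (gm n) := by
  choose C hC0 hC using fun i => evs_growth n (1 / (n : ℝ)) i
  set D : ℝ := 2 + C (n - 1) + ∑ i ∈ Finset.range (n - 1), (|evp (H0 σ) i| + C i) with hD
  have hD0 : 0 ≤ D := by
    have h1 := hC0 (n - 1)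
    have h2 : 0 ≤ ∑ i ∈ Finset.range (n - 1), (|evp (H0 σ) i| + C i) :=
      Finset.sum_nonneg fun i _ => add_nonneg (abs_nonneg _) (hC0 i)
    linarith
  refine gm_integrable_of_le (((Fd_meas σ).pow_const 2).aestronglyMeasurable) (D ^ 2) 2
    (fun X => ?_)
  have hS : 0 ≤ ∑ p, |X p| := Finset.sum_nonneg fun k _ => abs_nonneg _
  set S : ℝ := 1 + ∑ p, |X p| with hSdef
  have hS1 : 1 ≤ S := by linarith
  have h1 : Fd σ X ≤ D * S := by
    have h2 : |2 - evs (Wv (N := n) (1 / (n : ℝ)) X) (n - 1)| ≤ (2 + C (n - 1)) * S := by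
      have h3 := abs_sub (2 : ℝ) (evs (Wv (N := n) (1 / (n : ℝ)) X) (n - 1))
      have h4 := hC (n - 1) X
      rw [abs_of_pos (by norm_num : (0 : ℝ) < 2)] at h3
      nlinarith
    have h5 : ∑ i ∈ Finset.range (n - 1), |evp (H0 σ) i - evs (Wv (N := n) (1 / (n : ℝ)) X) i|
        ≤ (∑ i ∈ Finset.range (n - 1), (|evp (H0 σ) i| + C i)) * S := by
      rw [Finset.sum_mul]
      refine Finset.sum_le_sum fun i _ => ?_
      have h3 := abs_sub (evp (H0 σ) i) (evs (Wv (N := n) (1 / (n : ℝ)) X) i)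
      have h4 := hC i X
      have h6 : |evp (H0 σ) i| ≤ |evp (H0 σ) i| * S :=
        le_mul_of_one_le_right (abs_nonneg _) hS1
      rw [add_mul]
      linarith
    unfold Fd
    rw [hD, add_mul]
    linarith
  rw [Real.norm_eq_abs, abs_of_nonneg (sq_nonneg _), ← mul_pow]
  exact pow_le_pow_left₀ (Fd_nonneg σ X) h1 2

theorem cheb {n : ℕ} (hn : Even n) (g : Pat n → Arr n → ℝ)
    (hg : ∀ σ ∈ Sn n, Integrable (fun X => g σ X ^ 2) (gm n)) {B a : ℝ}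
    (hB : EJ (fun σ X => g σ X ^ 2) ≤ B) (ha : 0 < a) :
    (P2 n).real {ω | a ≤ |g ω.1 ω.2|} ≤ B / a ^ 2 := by
  haveI := P2_prob hn
  have h1 := integral_P2 hn (fun σ X => g σ X ^ 2) hg
  have h2 := mul_meas_ge_le_integral_of_nonneg (μ := P2 n)
    (f := fun ω : Pat n × Arr n => g ω.1 ω.2 ^ 2)
    (Filter.Eventually.of_forall fun ω => sq_nonneg _) (integrable_P2 hn _ hg) (a ^ 2)
  have h3 : {ω : Pat n × Arr n | a ≤ |g ω.1 ω.2|} = {ω | a ^ 2 ≤ g ω.1 ω.2 ^ 2} := by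
    ext ω
    simp only [Set.mem_setOf_eq]
    rw [← sq_abs (g ω.1 ω.2)]
    exact (pow_le_pow_iff_left₀ ha.le (abs_nonneg _) two_ne_zero).symm
  rw [h3, le_div_iff₀ (by positivity), mul_comm]
  rw [h1] at h2
  exact h2.trans hB

end MBadAux

open MBadAux

theorem bad_prob (hB : BNorm) (hW : IW1) (hC : ICnt) (hG : ICntG) (E κ c0 θ ν : ℝ)
    (hc0 : 0 < c0) (hE : |E| + c0 < 2) (hκ : 0 < κ) (h1 : κ < Fsc (E - c0))
    (h2 : Fsc (E + c0) < 1 - κ) (hθ : 0 < θ) (hθ2 : θ ≤ 1 / 2) (hν : 0 < ν) :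
    ∃ n0 : ℕ, ∀ n : ℕ, n0 ≤ n → Even n →
      (P2 n).real {ω | ¬ goodE n E κ c0 θ ω.1 ω.2} ≤ (n : ℝ) ^ (-2 * θ + ν) := by
  obtain ⟨K, hK, nB, hB⟩ := hB
  obtain ⟨nW, hW⟩ := hW (ν / 2) (by linarith)
  obtain ⟨nC, hC⟩ := hC (ν / 2) (by linarith)
  obtain ⟨nG, hG⟩ := hG (ν / 2) (by linarith)
  set γ : ℝ := min (Fsc (E - c0) - κ) (1 - κ - Fsc (E + c0)) with hγ
  have hγ0 : 0 < γ := lt_min (by linarith) (by linarith)
  set d : ℝ := 2 - |E| - c0 with hd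
  have hd0 : 0 < d := by linarith
  have ev1 : ∀ᶠ n : ℕ in Filter.atTop, K * Real.log n ≤ (n : ℝ) ^ θ := by
    have h := (isLittleO_log_rpow_atTop hθ).bound (c := 1 / K) (by positivity)
    have h' := tendsto_natCast_atTop_atTop (R := ℝ) |>.eventually h
    filter_upwards [h'] with n hn
    rw [Real.norm_eq_abs, Real.norm_eq_abs,
      abs_of_nonneg (Real.rpow_nonneg (Nat.cast_nonneg n) θ)] at hn
    have h3 : Real.log n ≤ 1 / K * (n : ℝ) ^ θ := (le_abs_self _).trans hn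
    calc K * Real.log n ≤ K * (1 / K * (n : ℝ) ^ θ) := mul_le_mul_of_nonneg_left h3 hK.le
      _ = (n : ℝ) ^ θ := by field_simp
  have ev2 : ∀ᶠ n : ℕ in Filter.atTop, 2 + 4 / (d * γ ^ 2) ≤ (n : ℝ) ^ (ν / 2) :=
    ((tendsto_rpow_atTop (by linarith : 0 < ν / 2)).comp
      tendsto_natCast_atTop_atTop).eventually_ge_atTop _
  obtain ⟨n0, hn0⟩ := Filter.eventually_atTop.1 (ev1.and (ev2.and
    ((Filter.eventually_ge_atTop nB).and ((Filter.eventually_ge_atTop nW).and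
    ((Filter.eventually_ge_atTop nC).and ((Filter.eventually_ge_atTop nG).and
    (Filter.eventually_ge_atTop 1)))))))
  refine ⟨n0, fun n hn hev => ?_⟩
  obtain ⟨e1, e2, gB, gW, gC, gG, g1⟩ := hn0 n hn
  haveI := P2_prob hev
  haveI := instProbGmM n
  have hN1 : (1 : ℝ) ≤ n := by exact_mod_cast g1
  have hN0 : (0 : ℝ) < n := by linarith
  have hnpos : 0 < n := g1
  -- the six sets
  set S1 : Set (Pat n × Arr n) := {ω | ¬ ∀ i < n - 1, |evp (H0 ω.1) i| ≤ (n : ℝ) ^ θ} with hS1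
  set S2 : Set (Pat n × Arr n) := {ω | (n : ℝ) ^ θ ≤ |Fd ω.1 ω.2|} with hS2
  set S3 : Set (Pat n × Arr n) :=
    {ω | (n : ℝ) * γ ≤ |(cntP (H0 ω.1) (E - c0) : ℝ) - n * Fsc (E - c0)|} with hS3
  set S4 : Set (Pat n × Arr n) :=
    {ω | (n : ℝ) * γ ≤ |(cnt (Wv (N := n) (1 / (n : ℝ)) ω.2) (E - c0) : ℝ)
      - n * Fsc (E - c0)|} with hS4
  set S5 : Set (Pat n × Arr n) :=
    {ω | (n : ℝ) * γ ≤ |(cntP (H0 ω.1) (E + c0) : ℝ) - n * Fsc (E + c0)|} with hS5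
  set S6 : Set (Pat n × Arr n) :=
    {ω | (n : ℝ) * γ ≤ |(cnt (Wv (N := n) (1 / (n : ℝ)) ω.2) (E + c0) : ℝ)
      - n * Fsc (E + c0)|} with hS6
  have hsub : {ω : Pat n × Arr n | ¬ goodE n E κ c0 θ ω.1 ω.2}
      ⊆ S1 ∪ (S2 ∪ (S3 ∪ (S4 ∪ (S5 ∪ S6)))) := by
    intro ω hω
    by_contra hc
    simp only [Set.mem_union, not_or] at hc
    obtain ⟨q1, q2, q3, q4, q5, q6⟩ := hc
    apply hω
    simp only [hS1, hS2, hS3, hS4, hS5, hS6, Set.mem_setOf_eq, not_not, not_le] at q1 q2 q3 q4 q5 q6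
    have k1 : (n : ℝ) * γ ≤ n * (Fsc (E - c0) - κ) :=
      mul_le_mul_of_nonneg_left (min_le_left _ _) hN0.le
    have k2 : (n : ℝ) * γ ≤ n * (1 - κ - Fsc (E + c0)) :=
      mul_le_mul_of_nonneg_left (min_le_right _ _) hN0.le
    refine ⟨q1, ?_, ?_, ?_, ?_, ?_⟩
    · exact ((le_abs_self _).trans_lt q2).le
    · have := (abs_lt.1 q3).1
      linarith
    · have := (abs_lt.1 q4).1
      linarith
    · have := (abs_lt.1 q5).2
      linarith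
    · have := (abs_lt.1 q6).2
      linarith
  -- S1
  have b1 : (P2 n).real S1 ≤ Real.exp (-(n : ℝ)) := by
    have hm : MeasurableSet S1 := by
      rw [hS1]
      refine measurableSet_setOf.2 ?_
      refine meas_Pat (fun ω : Pat n × Arr n => ¬ ∀ i < n - 1, |evp (H0 ω.1) i| ≤ (n : ℝ) ^ θ)
        (fun σ => ?_)
      change Measurable (fun _ : Arr n => ¬ ∀ i < n - 1, |evp (H0 σ) i| ≤ (n : ℝ) ^ θ)
      exact measurable_const
    refine (real_P2_le hev (fun σ X => ¬ OpLe (toC (Bm 1 0 σ X)) (K * Real.log n)) S1 hm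
      (fun ω hω hσ => ?_)).trans (hB n gB hev 1 0 zero_le_one le_rfl (by norm_num))
    intro hop
    rw [Bm_one_zero] at hop
    apply hω
    intro i hi
    exact (root_le hop (evp_mem (H0_symm hσ) (zero_mem_H0 hnpos hσ) hi)).trans e1
  -- S2
  have b2 : (P2 n).real S2 ≤ (n : ℝ) ^ (ν / 2) / ((n : ℝ) ^ θ) ^ 2 := by
    refine cheb hev (fun σ X => Fd σ X) (fun σ _ => Fd_int σ) ?_ (Real.rpow_pos_of_pos hN0 _)
    exact hW n gW hev
  have hx1 : |E - c0| < 2 := by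
    have := abs_sub E c0
    rw [abs_of_pos hc0] at this
    linarith
  have hx2 : |E + c0| < 2 := by
    have := abs_add_le E c0
    rw [abs_of_pos hc0] at this
    linarith
  have hx1' : d ≤ 2 - |E - c0| := by
    have := abs_sub E c0
    rw [abs_of_pos hc0] at this
    linarith
  have hx2' : d ≤ 2 - |E + c0| := by
    have := abs_add_le E c0
    rw [abs_of_pos hc0] at this
    linarith
  have hpow0 : 0 ≤ (n : ℝ) ^ (ν / 2) := Real.rpow_nonneg hN0.le _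
  have hnγ : 0 < (n : ℝ) * γ := mul_pos hN0 hγ0
  have cP : ∀ x : ℝ, |x| < 2 → d ≤ 2 - |x| →
      (P2 n).real {ω : Pat n × Arr n | (n : ℝ) * γ ≤ |(cntP (H0 ω.1) x : ℝ) - n * Fsc x|}
        ≤ (n : ℝ) ^ (ν / 2) / d / ((n : ℝ) * γ) ^ 2 := by
    intro x hx hx'
    refine cheb hev (fun σ _ => (cntP (H0 σ) x : ℝ) - n * Fsc x)
      (fun σ _ => integrable_const _) ?_ hnγ
    have h := hC n gC hev 1 0 zero_le_one le_rfl (by norm_num) x hx
    simp only [Bm_one_zero] at h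
    refine h.trans ?_
    exact div_le_div_of_nonneg_left hpow0 hd0 hx'
  have cG : ∀ x : ℝ, |x| < 2 → d ≤ 2 - |x| →
      (P2 n).real {ω : Pat n × Arr n | (n : ℝ) * γ
        ≤ |(cnt (Wv (N := n) (1 / (n : ℝ)) ω.2) x : ℝ) - n * Fsc x|}
        ≤ (n : ℝ) ^ (ν / 2) / d / ((n : ℝ) * γ) ^ 2 := by
    intro x hx hx'
    refine cheb hev (fun _ X => (cnt (Wv (N := n) (1 / (n : ℝ)) X) x : ℝ) - n * Fsc x)
      (fun σ _ => ?_) ?_ hnγ
    · have hm : Measurable (fun X : Arr n =>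
          ((cnt (Wv (N := n) (1 / (n : ℝ)) X) x : ℝ) - n * Fsc x) ^ 2) := by
        have h := measurable_cnt (fun X : Arr n => Wv (N := n) (1 / (n : ℝ)) X)
          (fun k l => wv_entry_meas n _ k l) (fun X => Wv_symm _ X) x
        exact ((measurable_from_top.comp h).sub_const _).pow_const 2
      refine Integrable.of_bound hm.aestronglyMeasurable (((n : ℝ) + |n * Fsc x|) ^ 2)
        (Filter.Eventually.of_forall fun X => ?_)
      rw [Real.norm_eq_abs, abs_of_nonneg (sq_nonneg _), ← sq_abs]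
      refine pow_le_pow_left₀ (abs_nonneg _) ?_ 2
      have h3 := abs_sub (cnt (Wv (N := n) (1 / (n : ℝ)) X) x : ℝ) (n * Fsc x)
      have h4 : |(cnt (Wv (N := n) (1 / (n : ℝ)) X) x : ℝ)| ≤ n := by
        rw [abs_of_nonneg (Nat.cast_nonneg _)]
        exact_mod_cast cnt_le _ _
      linarith
    · have h := hG n gG x hx
      have h5 : EJ (fun (_ : Pat n) (X : Arr n) =>
          ((cnt (Wv (N := n) (1 / (n : ℝ)) X) x : ℝ) - n * Fsc x) ^ 2)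
          = ∫ X, ((cnt (Wv (N := n) (1 / (n : ℝ)) X) x : ℝ) - n * Fsc x) ^ 2 ∂(gm n) :=
        EU_const hev _
      rw [h5]
      refine h.trans ?_
      exact div_le_div_of_nonneg_left hpow0 hd0 hx'
  have b3 : (P2 n).real S3 ≤ (n : ℝ) ^ (ν / 2) / d / ((n : ℝ) * γ) ^ 2 := cP _ hx1 hx1'
  have b4 : (P2 n).real S4 ≤ (n : ℝ) ^ (ν / 2) / d / ((n : ℝ) * γ) ^ 2 := cG _ hx1 hx1'
  have b5 : (P2 n).real S5 ≤ (n : ℝ) ^ (ν / 2) / d / ((n : ℝ) * γ) ^ 2 := cP _ hx2 hx2'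
  have b6 : (P2 n).real S6 ≤ (n : ℝ) ^ (ν / 2) / d / ((n : ℝ) * γ) ^ 2 := cG _ hx2 hx2'
  have u1 := measureReal_mono (μ := P2 n) hsub
  have u2 := measureReal_union_le (μ := P2 n) S1 (S2 ∪ (S3 ∪ (S4 ∪ (S5 ∪ S6))))
  have u3 := measureReal_union_le (μ := P2 n) S2 (S3 ∪ (S4 ∪ (S5 ∪ S6)))
  have u4 := measureReal_union_le (μ := P2 n) S3 (S4 ∪ (S5 ∪ S6))
  have u5 := measureReal_union_le (μ := P2 n) S4 (S5 ∪ S6)
  have u6 := measureReal_union_le (μ := P2 n) S5 S6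
  -- numerics
  have p0 : 0 < (n : ℝ) ^ (-2 * θ) := Real.rpow_pos_of_pos hN0 _
  have p1 : (1 : ℝ) ≤ (n : ℝ) ^ (ν / 2) := Real.one_le_rpow hN1 (by linarith)
  have p2 : (n : ℝ) ^ (-1 : ℝ) ≤ (n : ℝ) ^ (-2 * θ) :=
    Real.rpow_le_rpow_of_exponent_le hN1 (by linarith)
  have p3 : Real.exp (-(n : ℝ)) ≤ (n : ℝ) ^ (-1 : ℝ) := by
    rw [Real.exp_neg, Real.rpow_neg_one]
    refine inv_anti₀ hN0 ?_
    have := Real.add_one_le_exp (n : ℝ)
    linarith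
  have p4 : ((n : ℝ) ^ θ) ^ 2 = ((n : ℝ) ^ (-2 * θ))⁻¹ := by
    rw [← Real.rpow_natCast, ← Real.rpow_mul hN0.le, ← Real.rpow_neg hN0.le]
    congr 1
    push_cast
    ring
  have p5 : (n : ℝ) ^ (ν / 2) / ((n : ℝ) ^ θ) ^ 2 = (n : ℝ) ^ (-2 * θ) * (n : ℝ) ^ (ν / 2) := by
    rw [p4, div_inv_eq_mul, mul_comm]
  have p6 : ((n : ℝ) ^ 2)⁻¹ ≤ (n : ℝ) ^ (-2 * θ) := by
    have h : ((n : ℝ) ^ 2)⁻¹ = (n : ℝ) ^ (-2 : ℝ) := by
      rw [Real.rpow_neg hN0.le]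
      norm_num
    rw [h]
    exact Real.rpow_le_rpow_of_exponent_le hN1 (by linarith)
  have p7 : (n : ℝ) ^ (ν / 2) / d / ((n : ℝ) * γ) ^ 2
      = (n : ℝ) ^ (ν / 2) * ((n : ℝ) ^ 2)⁻¹ * (1 / (d * γ ^ 2)) := by
    field_simp
  have p8 : (n : ℝ) ^ (ν / 2) / d / ((n : ℝ) * γ) ^ 2
      ≤ (n : ℝ) ^ (-2 * θ) * (n : ℝ) ^ (ν / 2) * (1 / (d * γ ^ 2)) := by
    rw [p7]
    refine mul_le_mul_of_nonneg_right ?_ (by positivity)
    rw [mul_comm]
    exact mul_le_mul_of_nonneg_right p6 hpow0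
  have p9 : (n : ℝ) ^ (-2 * θ + ν)
      = (n : ℝ) ^ (-2 * θ) * (n : ℝ) ^ (ν / 2) * (n : ℝ) ^ (ν / 2) := by
    rw [← Real.rpow_add hN0, ← Real.rpow_add hN0]
    congr 1
    ring
  have p10 : (n : ℝ) ^ (-2 * θ) * (n : ℝ) ^ (ν / 2) * (2 + 4 / (d * γ ^ 2))
      ≤ (n : ℝ) ^ (-2 * θ + ν) := by
    rw [p9]
    exact mul_le_mul_of_nonneg_left e2 (by positivity)
  have p11 : Real.exp (-(n : ℝ)) ≤ (n : ℝ) ^ (-2 * θ) * (n : ℝ) ^ (ν / 2) :=
    (p3.trans p2).trans (le_mul_of_one_le_right p0.le p1)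
  have p12 : (n : ℝ) ^ (-2 * θ) * (n : ℝ) ^ (ν / 2) * (2 + 4 / (d * γ ^ 2))
      = (n : ℝ) ^ (-2 * θ) * (n : ℝ) ^ (ν / 2) + (n : ℝ) ^ (-2 * θ) * (n : ℝ) ^ (ν / 2)
        + 4 * ((n : ℝ) ^ (-2 * θ) * (n : ℝ) ^ (ν / 2) * (1 / (d * γ ^ 2))) := by
    ring
  rw [p5] at b2
  linarith

end Pool.Agent.ZR

end

section

/-!
# ZBL/G11 : Bochner inequality, and the duality identity

Notation: `h = hop 0 θ₁ g`, `q = g - PT θ₁ g`, `g` in `CB 3`.  By `LO_hop` with `k = 0`, `- LO h = q`.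
`duality`: `dirichlet` with `u = h` (`CB 2`, since `CB 3 → CB 2` by `hop_CB` and `CB.mono1`).
`bochner`: `q` is `CB 1` (`PT_CB`, `CB.sub`), so Lipschitz and bounded, with
`pd j q = pd j g - cos θ₁ PT θ₁ (pd j g)` (`pd_sub`, `pd_PT`).  `dirichlet` with `f = q`, `u = h`:
  `∫ q² = ∫ q (-LO h) = ∫ ∑_j pd j q * pd j h = ∑_j ∫ pd j q * h_j`,  `h_j = pd j h = hop 1 θ₁ (pd j g)`.
By `LO_hop` with `k = 1` for `pd j g` (`CB 2`): `LO h_j - h_j = cos θ₁ PT θ₁ (pd j g) - pd j g = - pd j q`,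
i.e. `pd j q = h_j - LO h_j`.  Hence
  `∫ pd j q * h_j = ∫ h_j² + ∫ h_j (-LO h_j) = ∫ h_j² + ∫ ∑_i (pd i h_j)²`
(`dirichlet` with `f = u = h_j`, which is `CB 2`).  Sum over `j` and drop `∫ h_j² ≥ 0`:
  `∫ q² ≥ ∑_j ∑_i ∫ (pd i (pd j h))² = ∫ HH h`.
Integrability: all functions are continuous and bounded, times at most `|x_i|` (in `LO`):
`gst_int_poly 1`.
-/


open MeasureTheory ProbabilityTheory Matrix

namespace Pool.Agent.ZR.BL

variable {ι : Type} [Fintype ι] [DecidableEq ι]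

private lemma G11_int {u : (ι → ℝ) → ℝ} (hu : CB 0 u) : Integrable u (gst ι) := by
  obtain ⟨C, hC⟩ := hu.2
  refine Integrable.of_bound hu.1.aestronglyMeasurable C (Filter.Eventually.of_forall ?_)
  intro x
  rw [Real.norm_eq_abs]
  exact hC x

omit [Fintype ι] in
private lemma G11_mul {u v : (ι → ℝ) → ℝ} (hu : CB 0 u) (hv : CB 0 v) :
    CB 0 (fun x => u x * v x) := by
  obtain ⟨C, hC⟩ := hu.2
  obtain ⟨D, hD⟩ := hv.2
  have h1 := hu.1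
  have h2 := hv.1
  refine ⟨by fun_prop, C * D, ?_⟩
  intro x
  rw [abs_mul]
  exact mul_le_mul (hC x) (hD x) (abs_nonneg _) ((abs_nonneg _).trans (hC x))

theorem duality {θ₁ : ℝ} (h0 : 0 ≤ θ₁) (h1 : θ₁ < Real.pi / 2) {K : NNReal}
    {f g : (ι → ℝ) → ℝ} (hf : LipschitzWith K f) (hb : ∃ M : ℝ, ∀ x, |f x| ≤ M) (hg : CB 3 g) :
    ∫ x, f x * (g x - PT θ₁ g x) ∂(gst ι)
      = ∫ x, ∑ i, pd i f x * pd i (hop 0 θ₁ g) x ∂(gst ι) := by
  have e1 : ∀ x, f x * (g x - PT θ₁ g x) = f x * (- LO (hop 0 θ₁ g) x) := by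
    intro x
    have h2 := LO_hop h0 h1 0 hg.mono1 x
    simp only [Nat.cast_zero, zero_mul, sub_zero, pow_zero, one_mul] at h2
    rw [h2]; ring
  simp_rw [e1]
  exact dirichlet hf hb (hop_CB h0 h1 2 0 hg.mono1)

theorem bochner {θ₁ : ℝ} (h0 : 0 ≤ θ₁) (h1 : θ₁ < Real.pi / 2) {g : (ι → ℝ) → ℝ}
    (hg : CB 3 g) :
    ∫ x, HH (hop 0 θ₁ g) x ∂(gst ι) ≤ ∫ x, (g x - PT θ₁ g x) ^ 2 ∂(gst ι) := by
  have hg2 : CB 2 g := hg.mono1
  have hg1 : CB 1 g := hg2.mono1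
  have hq : CB 3 (fun x => g x - PT θ₁ g x) := CB.sub hg (PT_CB θ₁ 3 hg)
  obtain ⟨K, hK⟩ := (hq.mono1.mono1).lip
  have hdu := duality h0 h1 hK hq.bdd hg
  have hpdh : ∀ j : ι, pd j (hop 0 θ₁ g) = hop 1 θ₁ (pd j g) := fun j => pd_hop h0 h1 0 hg1 j
  have hCB : ∀ j : ι, CB 2 (hop 1 θ₁ (pd j g)) := fun j => hop_CB h0 h1 2 1 (CB.pd hg j)
  have hpdq : ∀ (j : ι) (x : ι → ℝ), pd j (fun x => g x - PT θ₁ g x) x
      = hop 1 θ₁ (pd j g) x - LO (hop 1 θ₁ (pd j g)) x := by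
    intro j x
    have h2 := LO_hop h0 h1 1 (CB.pd hg j) x
    rw [pd_sub hg1 (PT_CB θ₁ 1 hg1) j, pd_PT θ₁ hg1 j]
    simp only [Nat.cast_one, one_mul, pow_one] at h2
    show pd j g x - Real.cos θ₁ * PT θ₁ (pd j g) x = _
    linarith
  have hterm : ∀ j : ι, ∫ x, ∑ i, (pd i (hop 1 θ₁ (pd j g)) x) ^ 2 ∂(gst ι)
      ≤ ∫ x, pd j (fun x => g x - PT θ₁ g x) x * pd j (hop 0 θ₁ g) x ∂(gst ι) := by
    intro j
    obtain ⟨K', hK'⟩ := ((hCB j).mono1).lip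
    have hd := dirichlet hK' (hCB j).bdd (hCB j)
    have i1 : Integrable (fun x => hop 1 θ₁ (pd j g) x * hop 1 θ₁ (pd j g) x) (gst ι) :=
      G11_int (G11_mul (hCB j).zero (hCB j).zero)
    have i2 : Integrable (fun x => pd j (fun x => g x - PT θ₁ g x) x
        * hop 1 θ₁ (pd j g) x) (gst ι) :=
      G11_int (G11_mul (CB.pd hq j).zero (hCB j).zero)
    have e2 : ∀ x, hop 1 θ₁ (pd j g) x * (- LO (hop 1 θ₁ (pd j g)) x)
        = pd j (fun x => g x - PT θ₁ g x) x * hop 1 θ₁ (pd j g) x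
          - hop 1 θ₁ (pd j g) x * hop 1 θ₁ (pd j g) x := by
      intro x
      rw [hpdq j x]; ring
    simp_rw [e2] at hd
    rw [integral_sub i2 i1] at hd
    rw [hpdh j]
    have h3 : 0 ≤ ∫ x, hop 1 θ₁ (pd j g) x * hop 1 θ₁ (pd j g) x ∂(gst ι) :=
      integral_nonneg fun x => mul_self_nonneg _
    have h4 : ∫ x, ∑ i, (pd i (hop 1 θ₁ (pd j g)) x) ^ 2 ∂(gst ι)
        = ∫ x, ∑ i, pd i (hop 1 θ₁ (pd j g)) x * pd i (hop 1 θ₁ (pd j g)) x ∂(gst ι) := by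
      congr 1
      funext x
      refine Finset.sum_congr rfl fun i _ => ?_
      ring
    rw [h4, ← hd]
    linarith
  have e3 : ∫ x, (g x - PT θ₁ g x) ^ 2 ∂(gst ι)
      = ∑ j, ∫ x, pd j (fun x => g x - PT θ₁ g x) x * pd j (hop 0 θ₁ g) x ∂(gst ι) := by
    rw [← integral_finsetSum _ (fun j _ => ?_)]
    · rw [← hdu]
      congr 1
      funext x
      ring
    · rw [hpdh j]
      exact G11_int (G11_mul (CB.pd hq j).zero (hCB j).zero)
  have e4 : ∫ x, HH (hop 0 θ₁ g) x ∂(gst ι)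
      = ∑ j, ∫ x, ∑ i, (pd i (hop 1 θ₁ (pd j g)) x) ^ 2 ∂(gst ι) := by
    rw [← integral_finsetSum _ (fun j _ => ?_)]
    · congr 1
      funext x
      unfold HH
      rw [Finset.sum_comm]
      refine Finset.sum_congr rfl fun j _ => ?_
      refine Finset.sum_congr rfl fun i _ => ?_
      rw [hpdh j]
    · refine integrable_finsetSum _ fun i _ => ?_
      have h5 := G11_int (G11_mul (CB.pd (hCB j) i).zero (CB.pd (hCB j) i).zero)
      refine h5.congr (Filter.Eventually.of_forall fun x => ?_)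
      show _ * _ = _ ^ 2
      ring
  rw [e3, e4]
  exact Finset.sum_le_sum fun j _ => hterm j

end Pool.Agent.ZR.BL

end

section

/-!
# ZR/MAvg : averaged comparison of `B_{e^{-t/2}}` and the relocated ensemble

PROOF of `chain_avg`.  `α = e^{-t/2}`, `β = √(1-e^{-t})`, `t = n^(-δ)`; `f(X) = ∏_j imF(vecS(At(a#) X))`,
`g(X) = ∏_j imF(vecS(At_{n-1}(vecP (H0 σ)) X))`.  By `j0_fam` (MSp) `∫ g ∂gm(n-1) = ∫ ∏_j imF(vecP (Bm α β σ X))
∂gm n` for `σ ∈ Sn n`, so with `EJ = EU ∫` the quantity to bound is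
`|E_{(σ,Y)} (∫ f - ∫ g)| ≤ E[1_good |∫f - ∫g|] + E[1_bad ∫ f] + E[1_bad ∫ g]`
(`integral_prod` for `P3 = P2 × gm`, `∫ over P2` of a function of `σ` only = `EU`).
For `σ ∈ Sn n` put `m_j(σ) = ∫ imF(vecS(At_{n-1}))^(2k)`, `Mo(σ) = 1 + ∑_j m_j(σ)^(1/(2k))` (`k ≥ 1`; the case
`k = 0` is trivial: both sides are 1).  `chain_sig` with `ν' < ν`: on the good event the first term is
`≤ n^(2c+ν'+θ-δ/2) EU (Mo(σ)+4)^k`, and `(Mo+4)^k ≤ (6(k+1))^k (1 + ∑_j m_j^(1/2))`-type bound,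
`EU m_j^(1/2) ≤ (EU m_j)^(1/2) ≤ n^(kc+ν'/2)` by `mom_B` with `p = 2k` (again `j0_fam`).
Bad event: `E[1_bad ∫ g] ≤ P(bad)^(1/2) (EU (∫ g)²)^(1/2)`, `(∫g)² ≤ ∫g² ≤ (1/k)∑_j m_j`(AM-GM:
`∏ a_j² ≤ (1/k) ∑ a_j^(2k)`), `≤ n^(-θ+ν'/2) n^(kc+ν'/2)` by `bad_prob`.
`E[1_bad ∫ f]`: on the bad event `a# = vecS (Wv (1/n) Y)` (`asharp_bad`), so it is
`≤ P(bad)^(1/2) (∫_Y ∫_X ∏_j imF(vecS(At(vecS (Wv Y)) X))²)^(1/2)` and by `KStat` the double integral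
equals `∫_X ∏_j imF(vecS (Wv X))² ≤ (1/k) ∑_j ∫ imF^(2k) ≤ C n^(2kc)` (`goe_mom`).
`mom_A`: `chain_avg` with `c = 0`, all `y_j = y`, `η_j = 1/n` (`∏_j = (·)^k`), `mom_B` with `c = 0`.
All functions are bounded (`imF ≤ 1/η ≤ n^(1+c)`) and measurable (`vecS_AA_meas`, `vecS_At_meas`,
`imF_cont`).
-/


open MeasureTheory ProbabilityTheory Matrix

namespace Pool.Agent.ZR

namespace MAvgAux

theorem prod_sq_le {k : ℕ} (a : Fin k → ℝ) (ha : ∀ j, 0 ≤ a j) :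
    (∏ j, a j) ^ 2 ≤ 1 + ∑ j, a j ^ (2 * k) := by
  rcases Nat.eq_zero_or_pos k with rfl | hk
  · simp
  · obtain ⟨i, -, hi⟩ := Finset.exists_max_image (Finset.univ : Finset (Fin k)) a
      ⟨⟨0, hk⟩, Finset.mem_univ _⟩
    have h1 : ∏ j, a j ≤ a i ^ k := by
      calc ∏ j, a j ≤ ∏ _j : Fin k, a i :=
            Finset.prod_le_prod (fun j _ => ha j) fun j hj => hi j hj
        _ = a i ^ k := by simp
    have h2 : (∏ j, a j) ^ 2 ≤ (a i ^ k) ^ 2 :=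
      pow_le_pow_left₀ (Finset.prod_nonneg fun j _ => ha j) h1 2
    have h3 : a i ^ (2 * k) ≤ ∑ j, a j ^ (2 * k) :=
      Finset.single_le_sum (f := fun j => a j ^ (2 * k)) (fun j _ => pow_nonneg (ha j) _)
        (Finset.mem_univ i)
    have h4 : (a i ^ k) ^ 2 = a i ^ (2 * k) := by rw [← pow_mul, mul_comm]
    linarith

theorem jensen2 {Ω : Type*} [MeasurableSpace Ω] (Q : Measure Ω) [IsProbabilityMeasure Q]
    {u : Ω → ℝ} (hu : Integrable u Q) (hu2 : Integrable (fun ω => u ω ^ 2) Q) :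
    (∫ ω, u ω ∂Q) ^ 2 ≤ ∫ ω, u ω ^ 2 ∂Q := by
  set m := ∫ ω, u ω ∂Q with hm
  have h0 : 0 ≤ ∫ ω, (u ω - m) ^ 2 ∂Q := integral_nonneg fun ω => sq_nonneg _
  have j1 : Integrable (fun ω => 2 * m * u ω) Q := hu.const_mul _
  have j2 : Integrable (fun ω => u ω ^ 2 - 2 * m * u ω) Q := hu2.sub j1
  have h1 : ∫ ω, (u ω - m) ^ 2 ∂Q = ∫ ω, u ω ^ 2 ∂Q - 2 * m * m + m ^ 2 := by
    have e : ∀ ω, (u ω - m) ^ 2 = (u ω ^ 2 - 2 * m * u ω) + m ^ 2 := fun ω => by ring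
    simp_rw [e]
    rw [integral_add j2 (integrable_const _), integral_sub hu2 j1, integral_const_mul, ← hm]
    simp
  nlinarith

theorem imF_comp_meas (n : ℕ) {N : ℕ} {Ω : Type*} [MeasurableSpace Ω]
    {x : Ω → Fin N → ℝ} (hx : Measurable x) (y : ℝ) {η : ℝ}
    (hη : 0 < η) : Measurable (fun ω => imF n (x ω) y η) := by
  have h1 : Measurable (fun p : (Fin N → ℝ) × ℝ => imF n p.1 p.2 η) :=
    (imF_cont (N := N) n hη).measurable
  have h2 : Measurable (fun ω => (x ω, y)) := hx.prodMk measurable_const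
  have h3 := h1.comp h2
  rw [Function.comp_def] at h3
  exact h3

theorem imF_abs (n : ℕ) {N : ℕ} (x : Fin N → ℝ) (y : ℝ) {η : ℝ} (hη : 0 < η) :
    |imF n x y η| ≤ (N : ℝ) / n / η := by
  rw [abs_of_nonneg (imF_nonneg n x y hη.le)]
  exact imF_le n x y hη

theorem imF_int (n p : ℕ) {N : ℕ} {Ω : Type*} [MeasurableSpace Ω] (Q : Measure Ω)
    [IsProbabilityMeasure Q] {x : Ω → Fin N → ℝ} (hx : Measurable x) (y : ℝ) {η : ℝ}
    (hη : 0 < η) : Integrable (fun ω => (imF n (x ω) y η) ^ p) Q := by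
  refine Integrable.of_bound ((imF_comp_meas n hx y hη).pow_const p).aestronglyMeasurable
    (((N : ℝ) / n / η) ^ p) (Filter.Eventually.of_forall fun ω => ?_)
  rw [Real.norm_eq_abs, abs_pow]
  exact pow_le_pow_left₀ (abs_nonneg _) (imF_abs n _ y hη) p

theorem prod_meas (n : ℕ) {k N : ℕ} {Ω : Type*} [MeasurableSpace Ω]
    {x : Ω → Fin N → ℝ} (hx : Measurable x) (y η : Fin k → ℝ) (hη : ∀ j, 0 < η j) :
    Measurable (fun ω => ∏ j, imF n (x ω) (y j) (η j)) :=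
  Finset.measurable_fun_prod _ fun j _ => imF_comp_meas n hx (y j) (hη j)

theorem prod_int (n : ℕ) {k N : ℕ} {Ω : Type*} [MeasurableSpace Ω] (Q : Measure Ω)
    [IsProbabilityMeasure Q] {x : Ω → Fin N → ℝ} (hx : Measurable x) (y η : Fin k → ℝ)
    (hη : ∀ j, 0 < η j) : Integrable (fun ω => ∏ j, imF n (x ω) (y j) (η j)) Q := by
  refine Integrable.of_bound (prod_meas n hx y η hη).aestronglyMeasurable
    (∏ j, ((N : ℝ) / n / η j)) (Filter.Eventually.of_forall fun ω => ?_)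
  rw [Real.norm_eq_abs, Finset.abs_prod]
  exact Finset.prod_le_prod (fun j _ => abs_nonneg _) fun j _ => imF_abs n _ _ (hη j)

theorem prod_nonneg' (n : ℕ) {k N : ℕ} (x : Fin N → ℝ) (y η : Fin k → ℝ)
    (hη : ∀ j, 0 < η j) : 0 ≤ ∏ j, imF n x (y j) (η j) :=
  Finset.prod_nonneg fun j _ => imF_nonneg n x (y j) (hη j).le

/-- square of the mean of a product -/
theorem sq_mean (n : ℕ) {k N : ℕ} {Ω : Type*} [MeasurableSpace Ω] (Q : Measure Ω)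
    [IsProbabilityMeasure Q] {x : Ω → Fin N → ℝ} (hx : Measurable x) (y η : Fin k → ℝ)
    (hη : ∀ j, 0 < η j) :
    (∫ ω, ∏ j, imF n (x ω) (y j) (η j) ∂Q) ^ 2
      ≤ 1 + ∑ j, ∫ ω, (imF n (x ω) (y j) (η j)) ^ (2 * k) ∂Q := by
  have i1 := prod_int n Q hx y η hη
  have i2 : Integrable (fun ω => (∏ j, imF n (x ω) (y j) (η j)) ^ 2) Q := by
    refine Integrable.of_bound ((prod_meas n hx y η hη).pow_const 2).aestronglyMeasurable
      ((∏ j, ((N : ℝ) / n / η j)) ^ 2) (Filter.Eventually.of_forall fun ω => ?_)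
    rw [Real.norm_eq_abs, abs_pow, Finset.abs_prod]
    refine pow_le_pow_left₀ (Finset.prod_nonneg fun j _ => abs_nonneg _) ?_ 2
    exact Finset.prod_le_prod (fun j _ => abs_nonneg _) fun j _ => imF_abs n _ _ (hη j)
  have i3 : ∀ j, Integrable (fun ω => (imF n (x ω) (y j) (η j)) ^ (2 * k)) Q :=
    fun j => imF_int n (2 * k) Q hx (y j) (hη j)
  refine (jensen2 Q i1 i2).trans ?_
  have h1 : ∫ ω, (∏ j, imF n (x ω) (y j) (η j)) ^ 2 ∂Q
      ≤ ∫ ω, (1 + ∑ j, (imF n (x ω) (y j) (η j)) ^ (2 * k)) ∂Q := by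
    refine integral_mono i2 ((integrable_const _).add (integrable_finsetSum _ fun j _ => i3 j))
      fun ω => ?_
    exact prod_sq_le _ fun j => imF_nonneg n (x ω) (y j) (hη j).le
  refine h1.trans (le_of_eq ?_)
  rw [integral_add (integrable_const _) (integrable_finsetSum _ fun j _ => i3 j),
    integral_finsetSum _ fun j _ => i3 j]
  simp

theorem EU_congr {n : ℕ} {f g : Pat n → ℝ} (h : ∀ σ ∈ Sn n, f σ = g σ) : EU f = EU g :=
  le_antisymm (EU_mono fun σ hσ => (h σ hσ).le) (EU_mono fun σ hσ => (h σ hσ).ge)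

theorem meas_At {N : ℕ} (v t : ℝ) (a : Fin N → ℝ) :
    Measurable (fun X : Fin N × Fin N → ℝ => vecS (At v t a X)) := by
  have h1 := vecS_At_meas (N := N) v t
  have h2 : Measurable (fun X : Fin N × Fin N → ℝ => (a, X)) :=
    measurable_const.prodMk measurable_id
  have h3 := h1.comp h2
  rw [Function.comp_def] at h3
  exact h3

theorem meas_pair (n : ℕ) (v t : ℝ) :
    Measurable (fun q : Arr n × Arr n => vecS (At v t (vecS (Wv (N := n) v q.1)) q.2)) := by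
  have h1 := vecS_At_meas (N := n) v t
  have h0 := vecS_Wv_meas (N := n) v
  have h4 : Measurable (fun q : Arr n × Arr n => vecS (Wv (N := n) v q.1)) := by
    have h6 : Measurable (fun q : Arr n × Arr n => q.1) := measurable_fst
    have h5 := h0.comp h6
    rw [Function.comp_def] at h5
    exact h5
  have h2 : Measurable (fun q : Arr n × Arr n => (vecS (Wv (N := n) v q.1), q.2)) :=
    h4.prodMk measurable_snd
  have h3 := h1.comp h2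
  rw [Function.comp_def] at h3
  exact h3

/-- GOE stationarity for moments of `imF` -/
theorem kstat_int (hS : KStat) {n : ℕ} (p : ℕ) (hn : 0 < n) {t : ℝ} (ht : 0 < t) (y : ℝ)
    {η : ℝ} (hη : 0 < η) :
    ∫ Y, ∫ X, (imF n (vecS (At (1 / (n : ℝ)) t (vecS (Wv (N := n) (1 / (n : ℝ)) Y)) X)) y η) ^ p
        ∂(gm n) ∂(gm n)
      = ∫ X, (imF n (vecS (Wv (N := n) (1 / (n : ℝ)) X)) y η) ^ p ∂(gm n) := by
  have hΦ : Measurable (fun x : Fin n → ℝ => ENNReal.ofReal ((imF n x y η) ^ p)) :=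
    ((imF_comp_meas n measurable_id y hη).pow_const p).ennreal_ofReal
  have h1 := hS n t hn ht _ hΦ
  have hm : Measurable (fun q : Arr n × Arr n =>
      vecS (At (1 / (n : ℝ)) t (vecS (Wv (N := n) (1 / (n : ℝ)) q.1)) q.2)) :=
    meas_pair n (1 / (n : ℝ)) t
  have hI : Integrable (fun q : Arr n × Arr n =>
      (imF n (vecS (At (1 / (n : ℝ)) t (vecS (Wv (N := n) (1 / (n : ℝ)) q.1)) q.2)) y η) ^ p)
      ((gm n).prod (gm n)) := imF_int n p _ hm y hη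
  have e1 := integral_prod _ hI
  have e2 : ∫ q : Arr n × Arr n,
      (imF n (vecS (At (1 / (n : ℝ)) t (vecS (Wv (N := n) (1 / (n : ℝ)) q.1)) q.2)) y η) ^ p
        ∂((gm n).prod (gm n))
      = (∫⁻ q : Arr n × Arr n, ENNReal.ofReal
        ((imF n (vecS (At (1 / (n : ℝ)) t (vecS (Wv (N := n) (1 / (n : ℝ)) q.1)) q.2)) y η) ^ p)
        ∂((gm n).prod (gm n))).toReal :=
    integral_eq_lintegral_of_nonneg_ae
      (Filter.Eventually.of_forall fun q => pow_nonneg (imF_nonneg n _ y hη.le) p)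
      hI.aestronglyMeasurable
  have e3 : ∫⁻ q : Arr n × Arr n, ENNReal.ofReal
        ((imF n (vecS (At (1 / (n : ℝ)) t (vecS (Wv (N := n) (1 / (n : ℝ)) q.1)) q.2)) y η) ^ p)
        ∂((gm n).prod (gm n))
      = ∫⁻ Y, ∫⁻ X, ENNReal.ofReal
        ((imF n (vecS (At (1 / (n : ℝ)) t (vecS (Wv (N := n) (1 / (n : ℝ)) Y)) X)) y η) ^ p)
        ∂(gm n) ∂(gm n) :=
    lintegral_prod _ ((((imF_comp_meas n hm y hη).pow_const p).ennreal_ofReal).aemeasurable)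
  have e4 : ∫ X, (imF n (vecS (Wv (N := n) (1 / (n : ℝ)) X)) y η) ^ p ∂(gm n)
      = (∫⁻ X, ENNReal.ofReal ((imF n (vecS (Wv (N := n) (1 / (n : ℝ)) X)) y η) ^ p)
        ∂(gm n)).toReal :=
    integral_eq_lintegral_of_nonneg_ae
      (Filter.Eventually.of_forall fun q => pow_nonneg (imF_nonneg n _ y hη.le) p)
      (imF_int n p _ (vecS_Wv_meas (N := n) (1 / (n : ℝ))) y hη).aestronglyMeasurable
  rw [← e1, e2, e3, h1, e4]

theorem root_exists {k : ℕ} (hk : 0 < k) {u : ℝ} (hu : 1 ≤ u) :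
    ∃ M : ℝ, 1 ≤ M ∧ M ^ (2 * k) = u := by
  refine ⟨u ^ (1 / ((2 * k : ℕ) : ℝ)), Real.one_le_rpow hu (by positivity), ?_⟩
  rw [← Real.rpow_natCast, ← Real.rpow_mul (by linarith), one_div, inv_mul_cancel₀, Real.rpow_one]
  have : 0 < 2 * k := by omega
  exact_mod_cast this.ne'

/-- the pointwise bound -/
theorem amgm {f l : ℝ} (hl : 0 < l) : f ≤ (l + f ^ 2 / l) / 2 := by
  have h1 : 0 ≤ (f - l) ^ 2 / l := by positivity
  have h2 : (f - l) ^ 2 / l = f ^ 2 / l - 2 * f + l := by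
    field_simp
    ring
  linarith

theorem pow_bound {k : ℕ} {M u μ : ℝ} (hM : 1 ≤ M) (hMu : M ^ (2 * k) = u) (hμ : 0 < μ) :
    (M + 4) ^ k ≤ 5 ^ k * (μ + u / μ) := by
  have h1 : (M + 4) ^ k ≤ (5 * M) ^ k := pow_le_pow_left₀ (by linarith) (by linarith) k
  rw [mul_pow] at h1
  refine h1.trans (mul_le_mul_of_nonneg_left ?_ (by positivity))
  have h2 := amgm (f := M ^ k) hμ
  have h3 : (M ^ k) ^ 2 = u := by rw [← pow_mul, mul_comm, hMu]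
  rw [h3] at h2
  have hu : 0 ≤ u := by rw [← hMu]; positivity
  have h4 : 0 ≤ u / μ := by positivity
  linarith

theorem numerics {N : ℝ} (hN : 1 ≤ N) {k : ℕ} {C c θ δ ν Sm Sw pb : ℝ} (hν : 0 < ν)
    (hC0 : 0 ≤ C) (hc : 0 ≤ c) (h5 : 5 ^ k * ((k : ℝ) + 2) ≤ N ^ (ν / 2))
    (h3 : 3 + k * C + k ≤ N ^ (ν / 2)) (hSm : Sm ≤ k * N ^ ((2 * k : ℕ) * c + ν / 4))
    (hSw : Sw ≤ k * (C * N ^ ((2 * k : ℕ) * c))) (hpb : pb ≤ N ^ (-2 * θ + ν / 4)) :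
    N ^ (2 * c + ν / 4 + θ - δ / 2) * (5 ^ k * (N ^ (k * c) + (1 + Sm) / N ^ (k * c)))
      + N ^ (k * c + θ) * pb + (2 + Sw + Sm) / N ^ (k * c + θ)
      ≤ N ^ (2 * c + θ - δ / 2 + k * c + ν) + N ^ (-θ + k * c + ν) := by
  have hN0 : 0 < N := by linarith
  set X := N ^ ((k : ℝ) * c) with hX
  set Z := N ^ (ν / 4) with hZ
  set T := N ^ θ with hT
  set D := N ^ (2 * c - δ / 2) with hD
  have hX1 : 1 ≤ X := Real.one_le_rpow hN (by positivity)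
  have hZ1 : 1 ≤ Z := Real.one_le_rpow hN (by positivity)
  have hT0 : 0 < T := Real.rpow_pos_of_pos hN0 _
  have hD0 : 0 < D := Real.rpow_pos_of_pos hN0 _
  have e1 : N ^ (((2 * k : ℕ) : ℝ) * c) = X ^ 2 := by
    rw [hX, sq, ← Real.rpow_add hN0]
    congr 1
    push_cast
    ring
  have e2 : N ^ (((2 * k : ℕ) : ℝ) * c + ν / 4) = X ^ 2 * Z := by
    rw [Real.rpow_add hN0, e1]
  have e3 : N ^ (2 * c + ν / 4 + θ - δ / 2) = D * T * Z := by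
    rw [hD, hT, hZ, ← Real.rpow_add hN0, ← Real.rpow_add hN0]
    congr 1
    ring
  have e4 : N ^ ((k : ℝ) * c + θ) = X * T := Real.rpow_add hN0 _ _
  have e5 : N ^ (-2 * θ + ν / 4) = Z / T ^ 2 := by
    rw [eq_div_iff (by positivity), sq, hT, ← Real.rpow_add hN0, ← Real.rpow_add hN0, hZ]
    congr 1
    ring
  have e6 : N ^ (ν / 2) = Z ^ 2 := by
    rw [hZ, sq, ← Real.rpow_add hN0]
    congr 1
    ring
  have e7 : N ^ ν = Z ^ 4 := by
    have : Z ^ 4 = Z ^ 2 * Z ^ 2 := by ring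
    rw [this, ← e6, ← Real.rpow_add hN0]
    congr 1
    ring
  have e8 : N ^ (2 * c + θ - δ / 2 + k * c + ν) = D * T * X * Z ^ 4 := by
    rw [hD, hT, hX, ← e7, ← Real.rpow_add hN0, ← Real.rpow_add hN0, ← Real.rpow_add hN0]
    congr 1
    ring
  have e9 : N ^ (-θ + k * c + ν) = X * Z ^ 4 / T := by
    rw [eq_div_iff hT0.ne', hT, hX, ← e7, ← Real.rpow_add hN0, ← Real.rpow_add hN0]
    congr 1
    ring
  rw [e2] at hSm
  rw [e1] at hSw
  rw [e5] at hpb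
  rw [e6] at h5 h3
  rw [e3, e4, e8, e9]
  have hX0 : 0 < X := by linarith
  have hZ0 : 0 < Z := by linarith
  have hX2 : 1 ≤ X ^ 2 * Z := by nlinarith [one_le_pow₀ hX1 (n := 2)]
  have hk0 : (0 : ℝ) ≤ k := Nat.cast_nonneg k
  have f1 : (1 + Sm) / X ≤ (1 + k) * (X * Z) := by
    rw [div_le_iff₀ hX0]
    nlinarith
  have f2 : X + (1 + Sm) / X ≤ (k + 2) * (X * Z) := by
    have : X ≤ X * Z := by nlinarith
    linarith
  have f3 : D * T * Z * (5 ^ k * (X + (1 + Sm) / X)) ≤ D * T * X * Z ^ 4 := by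
    calc D * T * Z * (5 ^ k * (X + (1 + Sm) / X))
        ≤ D * T * Z * (5 ^ k * ((k + 2) * (X * Z))) := by
          refine mul_le_mul_of_nonneg_left (mul_le_mul_of_nonneg_left f2 (by positivity))
            (by positivity)
      _ = (D * T * X * Z ^ 2) * (5 ^ k * (k + 2)) := by ring
      _ ≤ (D * T * X * Z ^ 2) * Z ^ 2 := mul_le_mul_of_nonneg_left h5 (by positivity)
      _ = D * T * X * Z ^ 4 := by ring
  have f4 : X * T * pb ≤ X * Z / T := by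
    calc X * T * pb ≤ X * T * (Z / T ^ 2) := mul_le_mul_of_nonneg_left hpb (by positivity)
      _ = X * Z / T := by field_simp
  have f5 : (2 + Sw + Sm) / (X * T) ≤ (2 + k * C + k) * (X * Z / T) := by
    rw [div_le_iff₀ (by positivity)]
    have g1 : (2 + k * C + k) * (X * Z / T) * (X * T) = (2 + k * C + k) * (X ^ 2 * Z) := by
      field_simp
    rw [g1]
    have g2 : X ^ 2 ≤ X ^ 2 * Z := le_mul_of_one_le_right (by positivity) hZ1
    have g3 : (k : ℝ) * (C * X ^ 2) ≤ k * (C * (X ^ 2 * Z)) :=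
      mul_le_mul_of_nonneg_left (mul_le_mul_of_nonneg_left g2 hC0) hk0
    nlinarith
  have f6 : (3 + k * C + k) * (X * Z / T) ≤ X * Z ^ 4 / T := by
    calc (3 + k * C + k) * (X * Z / T) ≤ Z ^ 2 * (X * Z / T) :=
          mul_le_mul_of_nonneg_right h3 (by positivity)
      _ = X * Z ^ 3 / T := by ring
      _ ≤ X * Z ^ 4 / T := by
          refine div_le_div_of_nonneg_right ?_ hT0.le
          refine mul_le_mul_of_nonneg_left ?_ hX0.le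
          exact pow_le_pow_right₀ hZ1 (by norm_num)
  linarith

end MAvgAux

open MAvgAux

theorem chain_avg (h0 : J0) (h1 : J1) (h2 : J2) (h3 : J3) (hS : KStat) (hF : FMain) (hB : BNorm)
    (hW : IW1) (hC : ICnt) (hG : ICntG) (k : ℕ) (E δ c ν κ c0 θ : ℝ) (hδ : 0 < δ) (hδ1 : δ < 1)
    (hc : 0 ≤ c) (hν : 0 < ν) (hc0 : 0 < c0) (hE : |E| + c0 < 2) (hκ : 0 < κ) (hκ2 : κ ≤ 1 / 2)
    (hk1 : κ < Fsc (E - c0)) (hk2 : Fsc (E + c0) < 1 - κ)
    (hθ : 0 < θ) (hθ4 : θ < δ / 4) (hexp : 2 * c + ν + θ < δ / 2) :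
    ∃ n0 : ℕ, ∀ n : ℕ, n0 ≤ n → Even n →
      ∀ y η : Fin k → ℝ, (∀ j, |y j - E| ≤ c0 / 2) →
        (∀ j, (n : ℝ) ^ (-1 - c) ≤ η j ∧ η j ≤ 1 / (n : ℝ)) →
        |(∫ ω, ∏ j, imF n (vecS (AA n δ E κ c0 θ ω)) (y j) (η j) ∂(P3 n))
          - EJ (n := n) (fun σ X => ∏ j, imF n (vecP (Bm (Real.exp (-((n : ℝ) ^ (-δ)) / 2))
              (Real.sqrt (1 - Real.exp (-((n : ℝ) ^ (-δ))))) σ X)) (y j) (η j))|
          ≤ (n : ℝ) ^ (2 * c + θ - δ / 2 + k * c + ν) + (n : ℝ) ^ (-θ + k * c + ν) := by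
  rcases Nat.eq_zero_or_pos k with hk | hk
  · subst hk
    refine ⟨0, fun n _ hev y η _ _ => ?_⟩
    haveI := P3_prob hev
    have e1 : EJ (n := n) (fun (σ : Pat n) (X : Arr n) => (1 : ℝ)) = 1 := by
      unfold EJ
      have h8 : (∫ _X : Arr n, (1 : ℝ) ∂(gm n)) = 1 := by simp
      rw [EU_const hev, h8]
    simp only [Finset.univ_eq_empty, Finset.prod_empty]
    rw [e1]
    simp only [integral_const, probReal_univ, smul_eq_mul, mul_one, sub_self, abs_zero]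
    positivity
  obtain ⟨n1, hn1⟩ := chain_sig h2 h3 k E δ c (ν / 4) κ c0 θ hδ hδ1 hc (by linarith) hc0 hE.le
    hκ hκ2 hθ hθ4 (by linarith)
  obtain ⟨n2, hn2⟩ := mom_B hF (2 * k) c (ν / 4) hc (by linarith)
  obtain ⟨C, hC0, hCm⟩ := goe_mom h1 (2 * k)
  obtain ⟨n3, hn3⟩ := bad_prob hB hW hC hG E κ c0 θ (ν / 4) hc0 hE hκ hk1 hk2 hθ (by linarith)
    (by linarith)
  have hev : ∀ (a b : ℝ), 0 < a → ∀ᶠ n : ℕ in Filter.atTop, b ≤ (n : ℝ) ^ a := by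
    intro a b ha
    exact ((tendsto_rpow_atTop ha).comp tendsto_natCast_atTop_atTop).eventually_ge_atTop b
  obtain ⟨n4, hn4⟩ := Filter.eventually_atTop.1
    ((hev (ν / 2) (5 ^ k * ((k : ℝ) + 2)) (by linarith)).and
      (hev (ν / 2) (3 + k * C + k) (by linarith)))
  refine ⟨max 2 (max n1 (max n2 (max n3 n4))), fun n hn hevn y η hy hη => ?_⟩
  simp only [max_le_iff] at hn
  obtain ⟨g0, g1, g2, g3, g4⟩ := hn
  obtain ⟨q1, q2⟩ := hn4 n g4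
  haveI := P3_prob hevn
  haveI := P2_prob hevn
  have hn0 : 0 < n := by omega
  have hN1 : (1 : ℝ) ≤ n := by exact_mod_cast (by omega : 1 ≤ n)
  have hN0 : (0 : ℝ) < n := by linarith
  have ht : 0 < (n : ℝ) ^ (-δ) := Real.rpow_pos_of_pos hN0 _
  have hηpos : ∀ j, 0 < η j := fun j => lt_of_lt_of_le (Real.rpow_pos_of_pos hN0 _) (hη j).1
  have hη1 : ∀ j, η j ≤ 1 := fun j => (hη j).2.trans (by rw [div_le_one hN0]; exact hN1)
  have hy2 : ∀ j, |y j| ≤ 2 := by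
    intro j
    have h := hy j
    have h' : |y j| ≤ |y j - E| + |E| := by
      have := abs_add_le (y j - E) E
      rwa [sub_add_cancel] at this
    linarith
  set α : ℝ := Real.exp (-((n : ℝ) ^ (-δ)) / 2) with hα
  set β : ℝ := Real.sqrt (1 - Real.exp (-((n : ℝ) ^ (-δ)))) with hβ
  have hα0 : 0 ≤ α := (Real.exp_pos _).le
  have hβ0 : 0 ≤ β := Real.sqrt_nonneg _
  have hαβ : α ^ 2 + β ^ 2 = 1 := by
    have h4 : 0 ≤ 1 - Real.exp (-((n : ℝ) ^ (-δ))) := by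
      have : Real.exp (-((n : ℝ) ^ (-δ))) ≤ 1 := Real.exp_le_one_iff.2 (by linarith)
      linarith
    rw [hβ, Real.sq_sqrt h4, hα, ← Real.exp_nat_mul]
    have : ((2 : ℕ) : ℝ) * (-((n : ℝ) ^ (-δ)) / 2) = -((n : ℝ) ^ (-δ)) := by
      push_cast
      ring
    rw [this]
    ring
  -- measurable families
  have mAt : ∀ {N : ℕ} (a : Fin N → ℝ), Measurable (fun X : Fin N × Fin N → ℝ =>
      vecS (At (1 / (n : ℝ)) ((n : ℝ) ^ (-δ)) a X)) := fun {N} a =>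
    meas_At (1 / (n : ℝ)) ((n : ℝ) ^ (-δ)) a
  -- the functions
  let m : Fin k → Pat n → ℝ := fun j σ =>
    ∫ X, (imF n (vecS (At (1 / (n : ℝ)) ((n : ℝ) ^ (-δ)) (vecP (H0 σ)) X)) (y j) (η j)) ^ (2 * k)
      ∂(gm (n - 1))
  let w : Fin k → Arr n → ℝ := fun j Y =>
    ∫ X, (imF n (vecS (At (1 / (n : ℝ)) ((n : ℝ) ^ (-δ))
      (vecS (Wv (N := n) (1 / (n : ℝ)) Y)) X)) (y j) (η j)) ^ (2 * k) ∂(gm n)
  let f : Pat n × Arr n → ℝ := fun ω =>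
    ∫ X, ∏ j, imF n (vecS (At (1 / (n : ℝ)) ((n : ℝ) ^ (-δ))
      (asharp n E κ c0 θ ω.1 ω.2) X)) (y j) (η j) ∂(gm n)
  let g : Pat n → ℝ := fun σ =>
    ∫ X, ∏ j, imF n (vecS (At (1 / (n : ℝ)) ((n : ℝ) ^ (-δ)) (vecP (H0 σ)) X)) (y j) (η j)
      ∂(gm (n - 1))
  have hm0 : ∀ j σ, 0 ≤ m j σ := fun j σ =>
    integral_nonneg fun X => pow_nonneg (imF_nonneg n _ _ (hηpos j).le) _
  have hw0 : ∀ j Y, 0 ≤ w j Y := fun j Y =>
    integral_nonneg fun X => pow_nonneg (imF_nonneg n _ _ (hηpos j).le) _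
  have hf0 : ∀ ω, 0 ≤ f ω := fun ω =>
    integral_nonneg fun X => prod_nonneg' n _ y η hηpos
  have hg0 : ∀ σ, 0 ≤ g σ := fun σ =>
    integral_nonneg fun X => prod_nonneg' n _ y η hηpos
  -- first integral
  have hI3 : Integrable (fun ω : (Pat n × Arr n) × Arr n =>
      ∏ j, imF n (vecS (AA n δ E κ c0 θ ω)) (y j) (η j)) ((P2 n).prod (gm n)) := by
    have : IsProbabilityMeasure ((P2 n).prod (gm n)) := inferInstance
    exact prod_int n _ (vecS_AA_meas n δ E κ c0 θ) y η hηpos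
  have e1 : ∫ ω, ∏ j, imF n (vecS (AA n δ E κ c0 θ ω)) (y j) (η j) ∂(P3 n)
      = ∫ ω, f ω ∂(P2 n) := integral_prod _ hI3
  have hfi : Integrable f (P2 n) := hI3.integral_prod_left
  -- second integral
  have e2 : EJ (n := n) (fun σ X => ∏ j, imF n (vecP (Bm α β σ X)) (y j) (η j)) = EU g := by
    unfold EJ
    refine EU_congr fun σ hσ => ?_
    exact j0_fam h0 (by omega) hσ ((n : ℝ) ^ (-δ)) (fun x => ∏ j, imF n x (y j) (η j))
      (prod_meas n measurable_id y η hηpos)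
  have cI : ∀ q : Pat n → ℝ, Integrable (fun ω : Pat n × Arr n => q ω.1) (P2 n) := fun q =>
    integrable_P2 hevn (fun σ _ => q σ) fun σ _ => integrable_const _
  have cE : ∀ q : Pat n → ℝ, ∫ ω : Pat n × Arr n, q ω.1 ∂(P2 n) = EU q := by
    intro q
    rw [integral_P2 hevn (fun σ _ => q σ) fun σ _ => integrable_const _]
    unfold EJ
    refine EU_congr fun σ _ => ?_
    simp
  have dI : ∀ q : Arr n → ℝ, Integrable q (gm n) →
      Integrable (fun ω : Pat n × Arr n => q ω.2) (P2 n) := fun q hq =>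
    integrable_P2 hevn (fun _ X => q X) fun σ _ => hq
  have dE : ∀ q : Arr n → ℝ, Integrable q (gm n) →
      ∫ ω : Pat n × Arr n, q ω.2 ∂(P2 n) = ∫ X, q X ∂(gm n) := by
    intro q hq
    rw [integral_P2 hevn (fun _ X => q X) fun σ _ => hq]
    unfold EJ
    exact EU_const hevn _
  -- moments
  have hmE : ∀ j, EU (m j) ≤ (n : ℝ) ^ ((2 * k : ℕ) * c + ν / 4) := by
    intro j
    have h4 := hn2 n g2 hevn α β hα0 hβ0 hαβ (y j) (η j) (hy2 j) (hη j).1 (hη1 j)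
    refine le_trans (le_of_eq ?_) h4
    unfold EJ
    refine EU_congr fun σ hσ => ?_
    exact (j0_fam h0 (by omega) hσ ((n : ℝ) ^ (-δ)) (fun x => (imF n x (y j) (η j)) ^ (2 * k))
      ((imF_comp_meas n measurable_id (y j) (hηpos j)).pow_const _)).symm
  have mpair : Measurable (fun q : Arr n × Arr n =>
      vecS (At (1 / (n : ℝ)) ((n : ℝ) ^ (-δ)) (vecS (Wv (N := n) (1 / (n : ℝ)) q.1)) q.2)) :=
    meas_pair n (1 / (n : ℝ)) ((n : ℝ) ^ (-δ))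
  have hwI : ∀ j, Integrable (w j) (gm n) := by
    intro j
    have hI : Integrable (fun q : Arr n × Arr n =>
        (imF n (vecS (At (1 / (n : ℝ)) ((n : ℝ) ^ (-δ))
          (vecS (Wv (N := n) (1 / (n : ℝ)) q.1)) q.2)) (y j) (η j)) ^ (2 * k))
        ((gm n).prod (gm n)) := imF_int n (2 * k) _ mpair (y j) (hηpos j)
    exact hI.integral_prod_left
  have hwE : ∀ j, ∫ Y, w j Y ∂(gm n) ≤ C * (n : ℝ) ^ ((2 * k : ℕ) * c) := by
    intro j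
    have h4 := (hCm n hn0 (y j) c (η j) hc (hη j).1 (hη j).2).2
    have h5 := kstat_int hS (2 * k) hn0 ht (y j) (hηpos j)
    refine le_trans (le_of_eq ?_) h4
    exact h5
  -- bad set
  set S : Set (Pat n × Arr n) := {ω | ¬ goodE n E κ c0 θ ω.1 ω.2} with hSdef
  have hSm : MeasurableSet S := by
    have h4 := (goodE_meas n E κ c0 θ).compl
    exact h4
  have hSp : (P2 n).real S ≤ (n : ℝ) ^ (-2 * θ + ν / 4) := hn3 n g3 hevn
  set lam : ℝ := (n : ℝ) ^ (k * c + θ) with hlam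
  set mu : ℝ := (n : ℝ) ^ (k * c) with hmu
  set ee : ℝ := (n : ℝ) ^ (2 * c + ν / 4 + θ - δ / 2) with hee
  have hlam0 : 0 < lam := Real.rpow_pos_of_pos hN0 _
  have hmu0 : 0 < mu := Real.rpow_pos_of_pos hN0 _
  have hee0 : 0 < ee := Real.rpow_pos_of_pos hN0 _
  -- the pointwise bound
  have hpt : ∀ ω : Pat n × Arr n, ω.1 ∈ Sn n →
      |f ω - g ω.1| ≤ ee * (5 ^ k * (mu + (1 + ∑ j, m j ω.1) / mu))
        + lam * S.indicator (fun _ => (1 : ℝ)) ω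
        + (2 + ∑ j, w j ω.2 + ∑ j, m j ω.1) / lam := by
    rintro ⟨σ, Y⟩ hσ
    have hM0 : 0 ≤ ∑ j, m j σ := Finset.sum_nonneg fun j _ => hm0 j σ
    have hW0 : 0 ≤ ∑ j, w j Y := Finset.sum_nonneg fun j _ => hw0 j Y
    have hg2 : g σ ^ 2 ≤ 1 + ∑ j, m j σ :=
      sq_mean n (gm (n - 1)) (mAt (vecP (H0 σ))) y η hηpos
    by_cases hgood : goodE n E κ c0 θ σ Y
    · have hnS : (σ, Y) ∉ S := fun h => h hgood
      rw [Set.indicator_of_notMem hnS]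
      obtain ⟨M, hM1, hM2⟩ := root_exists hk (u := 1 + ∑ j, m j σ) (by linarith)
      have h4 := (hn1 n g1 hevn σ hσ Y hgood y η hy hη M hM1 (fun j => by
        rw [hM2]
        have : m j σ ≤ ∑ j, m j σ :=
          Finset.single_le_sum (f := fun j => m j σ) (fun i _ => hm0 i σ) (Finset.mem_univ j)
        have h5 : m j σ ≤ 1 + ∑ j, m j σ := by linarith
        exact h5)).2
      have h5 : |f (σ, Y) - g σ| ≤ ee * (M + 4) ^ k := h4
      have h6 := pow_bound hM1 hM2 hmu0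
      have h7 : 0 ≤ (2 + ∑ j, w j Y + ∑ j, m j σ) / lam := by positivity
      have h8 := mul_le_mul_of_nonneg_left h6 hee0.le
      simp only
      linarith
    · have hinS : (σ, Y) ∈ S := hgood
      rw [Set.indicator_of_mem hinS]
      have hf2 : f (σ, Y) ^ 2 ≤ 1 + ∑ j, w j Y := by
        have h4 : f (σ, Y) = ∫ X, ∏ j, imF n (vecS (At (1 / (n : ℝ)) ((n : ℝ) ^ (-δ))
            (vecS (Wv (N := n) (1 / (n : ℝ)) Y)) X)) (y j) (η j) ∂(gm n) := by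
          show (∫ X, ∏ j, imF n (vecS (At (1 / (n : ℝ)) ((n : ℝ) ^ (-δ))
            (asharp n E κ c0 θ σ Y) X)) (y j) (η j) ∂(gm n)) = _
          rw [asharp_bad hgood]
        rw [h4]
        exact sq_mean n (gm n) (mAt (vecS (Wv (N := n) (1 / (n : ℝ)) Y))) y η hηpos
      have a1 := amgm (f := f (σ, Y)) hlam0
      have a2 := amgm (f := g σ) hlam0
      have a3 : f (σ, Y) ^ 2 / lam ≤ (1 + ∑ j, w j Y) / lam :=
        div_le_div_of_nonneg_right hf2 hlam0.le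
      have a4 : g σ ^ 2 / lam ≤ (1 + ∑ j, m j σ) / lam :=
        div_le_div_of_nonneg_right hg2 hlam0.le
      have a5 : (2 + ∑ j, w j Y + ∑ j, m j σ) / lam
          = (1 + ∑ j, w j Y) / lam + (1 + ∑ j, m j σ) / lam := by
        rw [← add_div]
        congr 1
        ring
      have a6 : |f (σ, Y) - g σ| ≤ f (σ, Y) + g σ := by
        have b1 := hf0 (σ, Y)
        have b2 := hg0 σ
        rw [abs_le]
        constructor <;> linarith
      have a7 : 0 ≤ ee * (5 ^ k * (mu + (1 + ∑ j, m j σ) / mu)) := by positivity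
      have a8 : 0 ≤ (1 + ∑ j, w j Y) / lam := by positivity
      have a9 : 0 ≤ (1 + ∑ j, m j σ) / lam := by positivity
      simp only
      rw [a5]
      linarith
  -- integration
  have hMI : Integrable (fun ω : Pat n × Arr n => ∑ j, m j ω.1) (P2 n) :=
    integrable_finsetSum _ fun j _ => cI (m j)
  have hWI : Integrable (fun ω : Pat n × Arr n => ∑ j, w j ω.2) (P2 n) :=
    integrable_finsetSum _ fun j _ => dI (w j) (hwI j)
  have hSI : Integrable (S.indicator fun _ => (1 : ℝ)) (P2 n) :=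
    (integrable_const _).indicator hSm
  have hM1 : Integrable (fun ω : Pat n × Arr n => 1 + ∑ j, m j ω.1) (P2 n) :=
    (integrable_const (1 : ℝ)).add hMI
  have hM2 : Integrable (fun ω : Pat n × Arr n => (1 + ∑ j, m j ω.1) / mu) (P2 n) :=
    hM1.div_const mu
  have hM3 : Integrable (fun ω : Pat n × Arr n => mu + (1 + ∑ j, m j ω.1) / mu) (P2 n) :=
    (integrable_const mu).add hM2
  have r1 : Integrable (fun ω : Pat n × Arr n =>
      ee * (5 ^ k * (mu + (1 + ∑ j, m j ω.1) / mu))) (P2 n) :=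
    (hM3.const_mul _).const_mul _
  have r2 : Integrable (fun ω : Pat n × Arr n =>
      lam * S.indicator (fun _ => (1 : ℝ)) ω) (P2 n) := hSI.const_mul _
  have hW1 : Integrable (fun ω : Pat n × Arr n => 2 + ∑ j, w j ω.2) (P2 n) :=
    (integrable_const (2 : ℝ)).add hWI
  have hW2 : Integrable (fun ω : Pat n × Arr n => 2 + ∑ j, w j ω.2 + ∑ j, m j ω.1) (P2 n) :=
    hW1.add hMI
  have r3 : Integrable (fun ω : Pat n × Arr n =>
      (2 + ∑ j, w j ω.2 + ∑ j, m j ω.1) / lam) (P2 n) := hW2.div_const lam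
  have v1 : ∫ ω : Pat n × Arr n, ee * (5 ^ k * (mu + (1 + ∑ j, m j ω.1) / mu)) ∂(P2 n)
      = ee * (5 ^ k * (mu + (1 + ∑ j, EU (m j)) / mu)) := by
    rw [integral_const_mul, integral_const_mul, integral_add (integrable_const _) hM2,
      integral_div, integral_add (integrable_const _) hMI,
      integral_finsetSum _ fun j _ => cI (m j)]
    simp only [integral_const, probReal_univ, smul_eq_mul, one_mul, cE]
  have v2 : ∫ ω : Pat n × Arr n, lam * S.indicator (fun _ => (1 : ℝ)) ω ∂(P2 n)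
      = lam * (P2 n).real S := by
    rw [integral_const_mul, integral_indicator_const _ hSm]
    simp
  have v3 : ∫ ω : Pat n × Arr n, (2 + ∑ j, w j ω.2 + ∑ j, m j ω.1) / lam ∂(P2 n)
      = (2 + ∑ j, (∫ Y, w j Y ∂(gm n)) + ∑ j, EU (m j)) / lam := by
    rw [integral_div, integral_add hW1 hMI, integral_add (integrable_const _) hWI,
      integral_finsetSum _ fun j _ => cI (m j),
      integral_finsetSum _ fun j _ => dI (w j) (hwI j)]
    simp only [integral_const, probReal_univ, smul_eq_mul, one_mul, cE]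
    congr 3
    exact Finset.sum_congr rfl fun j _ => dE (w j) (hwI j)
  have hSmj : ∑ j, EU (m j) ≤ k * (n : ℝ) ^ ((2 * k : ℕ) * c + ν / 4) := by
    refine (Finset.sum_le_sum fun j _ => hmE j).trans (le_of_eq ?_)
    simp
  have hSwj : ∑ j, (∫ Y, w j Y ∂(gm n)) ≤ k * (C * (n : ℝ) ^ ((2 * k : ℕ) * c)) := by
    refine (Finset.sum_le_sum fun j _ => hwE j).trans (le_of_eq ?_)
    simp
  rw [e1, e2, ← cE g, ← integral_sub hfi (cI g)]
  refine (abs_integral_le_integral_abs).trans ?_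
  have hfin : ∫ ω, |f ω - g ω.1| ∂(P2 n)
      ≤ ∫ ω : Pat n × Arr n, (ee * (5 ^ k * (mu + (1 + ∑ j, m j ω.1) / mu))
        + lam * S.indicator (fun _ => (1 : ℝ)) ω
        + (2 + ∑ j, w j ω.2 + ∑ j, m j ω.1) / lam) ∂(P2 n) := by
    refine integral_mono_ae (hfi.sub (cI g)).abs ((r1.add r2).add r3) ?_
    filter_upwards [P2_ae hevn] with ω hω
    exact hpt ω hω
  refine hfin.trans ?_
  have v4 : ∫ ω : Pat n × Arr n, (ee * (5 ^ k * (mu + (1 + ∑ j, m j ω.1) / mu))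
        + lam * S.indicator (fun _ => (1 : ℝ)) ω
        + (2 + ∑ j, w j ω.2 + ∑ j, m j ω.1) / lam) ∂(P2 n)
      = ee * (5 ^ k * (mu + (1 + ∑ j, EU (m j)) / mu)) + lam * (P2 n).real S
        + (2 + ∑ j, (∫ Y, w j Y ∂(gm n)) + ∑ j, EU (m j)) / lam := by
    rw [← v1, ← v2, ← v3, ← integral_add r1 r2]
    exact integral_add (r1.add r2) r3
  rw [v4]
  exact numerics hN1 hν hC0 hc q1 q2 hSmj hSwj hSp

theorem mom_A (h0 : J0) (h1 : J1) (h2 : J2) (h3 : J3) (hS : KStat) (hF : FMain) (hB : BNorm)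
    (hW : IW1) (hC : ICnt) (hG : ICntG) (k : ℕ) (E δ ν κ c0 θ : ℝ) (hδ : 0 < δ) (hδ1 : δ < 1)
    (hν : 0 < ν) (hc0 : 0 < c0) (hE : |E| + c0 < 2) (hκ : 0 < κ) (hκ2 : κ ≤ 1 / 2)
    (hk1 : κ < Fsc (E - c0)) (hk2 : Fsc (E + c0) < 1 - κ)
    (hθ : 0 < θ) (hθ4 : θ < δ / 4) :
    ∃ n0 : ℕ, ∀ n : ℕ, n0 ≤ n → Even n → ∀ y : ℝ, |y - E| ≤ c0 / 2 →
      ∫ ω, (imF n (vecS (AA n δ E κ c0 θ ω)) y (1 / (n : ℝ))) ^ k ∂(P3 n) ≤ (n : ℝ) ^ ν := by
  set ν' : ℝ := min (ν / 2) (δ / 8) with hν'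
  have hν'0 : 0 < ν' := lt_min (by linarith) (by linarith)
  have hν'1 : ν' ≤ ν / 2 := min_le_left _ _
  have hν'2 : ν' ≤ δ / 8 := min_le_right _ _
  obtain ⟨n1, hn1⟩ := chain_avg h0 h1 h2 h3 hS hF hB hW hC hG k E δ 0 ν' κ c0 θ hδ hδ1 le_rfl
    hν'0 hc0 hE hκ hκ2 hk1 hk2 hθ hθ4 (by linarith)
  obtain ⟨n2, hn2⟩ := mom_B hF k 0 ν' le_rfl hν'0
  have hev : ∀ᶠ n : ℕ in Filter.atTop, (3 : ℝ) ≤ (n : ℝ) ^ (ν / 2) :=
    ((tendsto_rpow_atTop (by linarith : 0 < ν / 2)).comp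
      tendsto_natCast_atTop_atTop).eventually_ge_atTop _
  obtain ⟨n3, hn3⟩ := Filter.eventually_atTop.1 hev
  refine ⟨max 1 (max n1 (max n2 n3)), fun n hn hevn y hy => ?_⟩
  simp only [max_le_iff] at hn
  obtain ⟨g0, g1, g2, g3⟩ := hn
  have hN1 : (1 : ℝ) ≤ n := by exact_mod_cast g0
  have hN0 : (0 : ℝ) < n := by linarith
  have hη : (n : ℝ) ^ (-1 - (0 : ℝ)) ≤ 1 / (n : ℝ) := by
    rw [sub_zero, Real.rpow_neg_one, one_div]
  have hη1 : 1 / (n : ℝ) ≤ 1 := by rw [div_le_one hN0]; exact hN1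
  have a1 := hn1 n g1 hevn (fun _ => y) (fun _ => 1 / (n : ℝ)) (fun _ => hy)
    (fun _ => ⟨hη, le_rfl⟩)
  simp only [Finset.prod_const, Finset.card_univ, Fintype.card_fin] at a1
  have hy2 : |y| ≤ 2 := by
    have h' : |y| ≤ |y - E| + |E| := by
      have := abs_add_le (y - E) E
      rwa [sub_add_cancel] at this
    linarith
  have hαβ : (Real.exp (-((n : ℝ) ^ (-δ)) / 2)) ^ 2
      + (Real.sqrt (1 - Real.exp (-((n : ℝ) ^ (-δ))))) ^ 2 = 1 := by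
    have ht : 0 < (n : ℝ) ^ (-δ) := Real.rpow_pos_of_pos hN0 _
    have h4 : 0 ≤ 1 - Real.exp (-((n : ℝ) ^ (-δ))) := by
      have : Real.exp (-((n : ℝ) ^ (-δ))) ≤ 1 := Real.exp_le_one_iff.2 (by linarith)
      linarith
    rw [Real.sq_sqrt h4, ← Real.exp_nat_mul]
    have : ((2 : ℕ) : ℝ) * (-((n : ℝ) ^ (-δ)) / 2) = -((n : ℝ) ^ (-δ)) := by
      push_cast
      ring
    rw [this]
    ring
  have a2 := hn2 n g2 hevn (Real.exp (-((n : ℝ) ^ (-δ)) / 2))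
    (Real.sqrt (1 - Real.exp (-((n : ℝ) ^ (-δ))))) (Real.exp_pos _).le (Real.sqrt_nonneg _) hαβ
    y (1 / (n : ℝ)) hy2 hη hη1
  have b1 : (n : ℝ) ^ ((k : ℝ) * 0 + ν') ≤ (n : ℝ) ^ (ν / 2) :=
    Real.rpow_le_rpow_of_exponent_le hN1 (by linarith)
  have b2 : (n : ℝ) ^ (2 * 0 + θ - δ / 2 + k * 0 + ν') ≤ (n : ℝ) ^ (ν / 2) :=
    Real.rpow_le_rpow_of_exponent_le hN1 (by linarith)
  have b3 : (n : ℝ) ^ (-θ + k * 0 + ν') ≤ (n : ℝ) ^ (ν / 2) :=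
    Real.rpow_le_rpow_of_exponent_le hN1 (by linarith)
  have b4 : (n : ℝ) ^ ν = (n : ℝ) ^ (ν / 2) * (n : ℝ) ^ (ν / 2) := by
    rw [← Real.rpow_add hN0]
    congr 1
    ring
  have b5 : 0 < (n : ℝ) ^ (ν / 2) := Real.rpow_pos_of_pos hN0 _
  have b6 := mul_le_mul_of_nonneg_right (hn3 n g3) b5.le
  have a3 := (abs_le.1 a1).2
  rw [b4]
  linarith

end Pool.Agent.ZR

end

section

/-!
# ZBL/B2 : the matrix Brascamp-Lieb inequality

Proof.  `f X = Φ (evv v X)` is Lipschitz (`evv_lip`), bounded by `M`, `Inv` (`evv_conj`).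
Let `ε_m = 1/(m+1)`, `θ_m = π/2 - 1/(m+1)` (so `0 ≤ θ_m < π/2`, `θ_m → π/2`),
`g_m = SM ε_m (SM ε_m (SM ε_m f))`, which is `CB 3` (`SM_CB` three times, `f` is `CB 0`), `Inv`
(`Inv.SM`, all functions continuous), `|g_m| ≤ M` (`SM_bdd`) and `|g_m - f| ≤ 3 c K ε_m` (`SM_close`,
`SM_lip`, triangle inequality).  Put `q_m = g_m - PT θ_m g_m`, `h_m = hop 0 θ_m g_m` (`CB 3`, `Inv` by
`Inv.hop`).
(1) `∫ f q_m = ∫ ∑_p pd p f * pd p h_m` (`duality`).  For a.e. `X` (`ae_diff`) the integrand is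
`≤ √(w (evv v X)) √(HH h_m X)` in absolute value (`pointwise_ineq`), so by Cauchy-Schwarz
(`integral_mul_le_Lp_mul_Lq_of_nonneg` / `inner_mul_le_norm_mul_norm`, or: for all `t > 0`,
`|∫ fq| ≤ (t/2) ∫ w + (1/(2t)) ∫ HH`, which avoids square roots completely) and `bochner`:
  `(∫ f q_m)² ≤ (∫ w (evv v X)) (∫ HH h_m) ≤ (∫ w (evv v X)) (∫ q_m²)`.
(2) `q_m(x) → f(x) - ∫ f` for every `x`: `|g_m(x) - f(x)| → 0`,
`|PT θ_m g_m x - PT θ_m f x| ≤ sup|g_m - f| → 0` (`PT_close`), `PT θ_m f x → ∫ f` (`PT_tendsto`); all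
bounded by `2M`.  Dominated convergence: `∫ f q_m → V := ∫ f² - (∫ f)²` and
`∫ q_m² → ∫ (f - ∫ f)² = V`.
(3) `V² ≤ (∫ w) V`; if `V > 0` divide, if `V ≤ 0` use `∫ w ≥ 0`.
-/


open MeasureTheory ProbabilityTheory Matrix

namespace Pool.Agent.ZR.BL

variable {n : ℕ}

section brb

variable {ι : Type} [Fintype ι]

private lemma b_int {u : (ι → ℝ) → ℝ} {C : ℝ} (hm : Measurable u) (hC : ∀ x, |u x| ≤ C) :
    Integrable u (gst ι) :=
  Integrable.of_bound hm.aestronglyMeasurable C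
    (Filter.Eventually.of_forall fun x => by rw [Real.norm_eq_abs]; exact hC x)

private lemma b_quad {t a b s : ℝ} (ha : 0 ≤ a) (hb : 0 ≤ b) (h : s ^ 2 ≤ a * b) :
    0 ≤ a * (t * t) + 2 * s * t + b := by
  rcases ha.eq_or_lt with h0 | h0
  · rw [← h0, zero_mul] at h
    have hs : s = 0 := by nlinarith [sq_nonneg s]
    rw [← h0, hs]; linarith
  · have h1 : 0 ≤ a * (a * (t * t) + 2 * s * t + b) := by nlinarith [sq_nonneg (a * t + s)]
    exact nonneg_of_mul_nonneg_right h1 h0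

/-- Cauchy-Schwarz in the form used -/
private lemma b_cs {W S H : (ι → ℝ) → ℝ} (hW : Integrable W (gst ι)) (hS : Integrable S (gst ι))
    (hH : Integrable H (gst ι)) (hW0 : ∀ x, 0 ≤ W x) (hH0 : ∀ x, 0 ≤ H x)
    (h : ∀ᵐ x ∂(gst ι), S x ^ 2 ≤ W x * H x) :
    (∫ x, S x ∂(gst ι)) ^ 2 ≤ (∫ x, W x ∂(gst ι)) * ∫ x, H x ∂(gst ι) := by
  have key : ∀ t : ℝ, 0 ≤ (∫ x, W x ∂(gst ι)) * (t * t) + (2 * ∫ x, S x ∂(gst ι)) * t
      + ∫ x, H x ∂(gst ι) := by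
    intro t
    have h1 : 0 ≤ ∫ x, (W x * (t * t) + 2 * S x * t + H x) ∂(gst ι) := by
      apply integral_nonneg_of_ae
      filter_upwards [h] with x hx
      exact b_quad (hW0 x) (hH0 x) hx
    have i1 : Integrable (fun x => W x * (t * t)) (gst ι) := hW.mul_const _
    have i2 : Integrable (fun x => 2 * S x * t) (gst ι) := (hS.const_mul 2).mul_const _
    have i12 : Integrable (fun x => W x * (t * t) + 2 * S x * t) (gst ι) := i1.add i2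
    rw [integral_add i12 hH, integral_add i1 i2, integral_mul_const,
      integral_mul_const, integral_const_mul] at h1
    exact h1
  have hd := discrim_le_zero key
  unfold discrim at hd
  nlinarith [hd]

end brb

private lemma b_step {v : ℝ} (hv : 0 < v) {Φ w : (Fin n → ℝ) → ℝ} (hΦ : Differentiable ℝ Φ)
    (hw : ∀ x, 0 ≤ w x) (hwm : Measurable w) (hwb : ∃ C : ℝ, ∀ x, w x ≤ C)
    (hE : ∀ x : Fin n → ℝ, Monotone x → ∀ k : Fin n → ℝ, (∀ i j, x i = x j → k i = k j) →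
      (fderiv ℝ Φ x k) ^ 2 ≤ w x * QF x k)
    {K : NNReal} (hf : LipschitzWith K (fun X : Fin n × Fin n → ℝ => Φ (evv v X)))
    (hb : ∃ M : ℝ, ∀ X : Fin n × Fin n → ℝ, |Φ (evv v X)| ≤ M)
    {θ : ℝ} (h0 : 0 ≤ θ) (h1 : θ < Real.pi / 2) {g : (Fin n × Fin n → ℝ) → ℝ}
    (hg : CB 3 g) (hgi : Inv g) :
    (∫ X, Φ (evv v X) * (g X - PT θ g X) ∂(gst (Fin n × Fin n))) ^ 2
      ≤ (∫ X, w (evv v X) ∂(gst (Fin n × Fin n)))
        * ∫ X, (g X - PT θ g X) ^ 2 ∂(gst (Fin n × Fin n)) := by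
  have hh : CB 3 (hop 0 θ g) := hop_CB h0 h1 3 0 hg
  have hhi : Inv (hop 0 θ g) := Inv.hop hg.cont hgi 0 θ
  rw [duality h0 h1 hf hb hg]
  obtain ⟨C, hC⟩ := hwb
  obtain ⟨K', hK'⟩ := evv_lip (n := n) v
  have hevm : Measurable (evv v : (Fin n × Fin n → ℝ) → (Fin n → ℝ)) :=
    hK'.continuous.measurable
  have hWi : Integrable (fun X : Fin n × Fin n → ℝ => w (evv v X)) (gst (Fin n × Fin n)) :=
    b_int (hwm.comp hevm) (fun X => by rw [abs_of_nonneg (hw _)]; exact hC _)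
  have hpdh : ∀ p, CB 2 (pd p (hop 0 θ g)) := fun p => hh.pd p
  choose D hD using fun p => (hpdh p).bdd
  have hSi : Integrable (fun X : Fin n × Fin n → ℝ =>
      ∑ p, pd p (fun Y => Φ (evv v Y)) X * pd p (hop 0 θ g) X) (gst (Fin n × Fin n)) := by
    refine integrable_finsetSum _ fun p _ => ?_
    refine b_int (C := K * D p) ((measurable_pd _ p).mul (hpdh p).cont.measurable) fun X => ?_
    rw [abs_mul]
    exact mul_le_mul (pd_le_of_lip hf p X) (hD p X) (abs_nonneg _) K.2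
  have hHi : Integrable (fun X : Fin n × Fin n → ℝ => HH (hop 0 θ g) X)
      (gst (Fin n × Fin n)) := by
    unfold HH
    refine integrable_finsetSum _ fun i _ => integrable_finsetSum _ fun j _ => ?_
    obtain ⟨E, hE⟩ := ((hpdh j).pd i).bdd
    refine b_int (C := E * E) (((hpdh j).pd i).cont.pow 2).measurable fun X => ?_
    rw [sq, abs_mul]
    exact mul_le_mul (hE X) (hE X) (abs_nonneg _) ((abs_nonneg _).trans (hE X))
  have hcs := b_cs hWi hSi hHi (fun X => hw _)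
    (fun X => by
      unfold HH
      exact Finset.sum_nonneg fun i _ => Finset.sum_nonneg fun j _ => sq_nonneg _)
    (by
      filter_upwards [ae_diff hf] with X hX
      exact pointwise_ineq hv hΦ hw hE (hh.mono1) hhi X hX)
  refine hcs.trans ?_
  exact mul_le_mul_of_nonneg_left (bochner h0 h1 hg) (integral_nonneg fun X => hw _)

theorem brascamp {v : ℝ} (hv : 0 < v) {Φ w : (Fin n → ℝ) → ℝ} (hΦ : Differentiable ℝ Φ)
    {K : NNReal} (hL : LipschitzWith K Φ) (hb : ∃ M : ℝ, ∀ x, |Φ x| ≤ M)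
    (hw : ∀ x, 0 ≤ w x) (hwm : Measurable w) (hwb : ∃ C : ℝ, ∀ x, w x ≤ C)
    (hE : ∀ x : Fin n → ℝ, Monotone x → ∀ k : Fin n → ℝ, (∀ i j, x i = x j → k i = k j) →
      (fderiv ℝ Φ x k) ^ 2 ≤ w x * QF x k) :
    ∫ X, Φ (evv v X) ^ 2 ∂(gm n) - (∫ X, Φ (evv v X) ∂(gm n)) ^ 2
      ≤ ∫ X, w (evv v X) ∂(gm n) := by
  rw [gm_eq_gst]
  obtain ⟨K', hK'⟩ := evv_lip (n := n) v
  obtain ⟨M, hM⟩ := hb
  set f : (Fin n × Fin n → ℝ) → ℝ := fun X => Φ (evv v X) with hfdef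
  have hf : LipschitzWith (K * K') f := hL.comp hK'
  have hfM : ∀ X, |f X| ≤ M := fun X => hM _
  have hM0 : 0 ≤ M := (abs_nonneg _).trans (hfM 0)
  have hf0 : CB 0 f := ⟨hf.continuous, M, hfM⟩
  have hfi : Inv f := by
    intro O h1 h2 X X' h
    show Φ (evv v X') = Φ (evv v X)
    rw [evv_conj v h1 h]
  have hfint : Integrable f (gst (Fin n × Fin n)) := b_int hf.continuous.measurable hfM
  obtain ⟨c, hc0, hc⟩ := SM_close (ι := Fin n × Fin n)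
  -- the approximations
  set g : ℕ → (Fin n × Fin n → ℝ) → ℝ := fun m =>
    SM (stp m) (SM (stp m) (SM (stp m) f)) with hgdef
  set θ : ℕ → ℝ := fun m => Real.pi / 2 - stp m with hθdef
  have hθ0 : ∀ m, 0 ≤ θ m := by
    intro m
    have h1 := Real.pi_gt_three
    have h2 := stp_le m
    show 0 ≤ Real.pi / 2 - stp m
    linarith
  have hθ1 : ∀ m, θ m < Real.pi / 2 := by
    intro m
    have h2 := stp_pos m
    show Real.pi / 2 - stp m < Real.pi / 2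
    linarith
  have hst : Filter.Tendsto stp Filter.atTop (nhds 0) :=
    tendsto_nhds_of_tendsto_nhdsWithin stp_tendsto
  have hθt : Filter.Tendsto θ Filter.atTop (nhds (Real.pi / 2)) := by
    have := hst.const_sub (Real.pi / 2)
    rw [sub_zero] at this
    exact this
  have hg1 : ∀ m, CB 1 (SM (stp m) f) := fun m => SM_CB (stp_pos m) 0 hf0
  have hg2 : ∀ m, CB 2 (SM (stp m) (SM (stp m) f)) := fun m => SM_CB (stp_pos m) 1 (hg1 m)
  have hg3 : ∀ m, CB 3 (g m) := fun m => SM_CB (stp_pos m) 2 (hg2 m)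
  have hgi : ∀ m, Inv (g m) := fun m =>
    Inv.SM (hg2 m).cont (Inv.SM (hg1 m).cont (Inv.SM hf.continuous hfi _) _) _
  have hb1 : ∀ m x, |SM (stp m) f x| ≤ M := fun m x => SM_bdd _ hfM x
  have hb2 : ∀ m x, |SM (stp m) (SM (stp m) f) x| ≤ M := fun m x => SM_bdd _ (hb1 m) x
  have hb3 : ∀ m x, |g m x| ≤ M := fun m x => SM_bdd _ (hb2 m) x
  have hl1 : ∀ m, LipschitzWith (K * K') (SM (stp m) f) := fun m => SM_lip _ hf ⟨M, hfM⟩
  have hl2 : ∀ m, LipschitzWith (K * K') (SM (stp m) (SM (stp m) f)) := fun m =>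
    SM_lip _ (hl1 m) ⟨M, hb1 m⟩
  set C : ℝ := c * ((K * K' : NNReal) : ℝ) with hCdef
  have hgf : ∀ m x, |g m x - f x| ≤ 3 * C * stp m := by
    intro m x
    have e1 := hc f (K * K') hf ⟨M, hfM⟩ (stp m) (stp_pos m).le x
    have e2 := hc _ (K * K') (hl1 m) ⟨M, hb1 m⟩ (stp m) (stp_pos m).le x
    have e3 := hc _ (K * K') (hl2 m) ⟨M, hb2 m⟩ (stp m) (stp_pos m).le x
    have e4 : g m x - f x = (SM (stp m) (SM (stp m) (SM (stp m) f)) x
        - SM (stp m) (SM (stp m) f) x)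
        + (SM (stp m) (SM (stp m) f) x - SM (stp m) f x) + (SM (stp m) f x - f x) := by
      rw [hgdef]; ring
    rw [e4]
    refine (abs_add_three _ _ _).trans ?_
    rw [hCdef]
    linarith
  -- pointwise limit
  set q : ℕ → (Fin n × Fin n → ℝ) → ℝ := fun m X => g m X - PT (θ m) (g m) X with hqdef
  set A : ℝ := ∫ X, f X ∂(gst (Fin n × Fin n)) with hA
  have hlim : ∀ X, Filter.Tendsto (fun m => q m X) Filter.atTop (nhds (f X - A)) := by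
    intro X
    have t0 : Filter.Tendsto (fun m => 3 * C * stp m) Filter.atTop (nhds 0) := by
      have := hst.const_mul (3 * C)
      rw [mul_zero] at this
      exact this
    have t1 : Filter.Tendsto (fun m => g m X - f X) Filter.atTop (nhds 0) :=
      squeeze_zero_norm (fun m => by rw [Real.norm_eq_abs]; exact hgf m X) t0
    have t2 : Filter.Tendsto (fun m => PT (θ m) (g m) X - PT (θ m) f X) Filter.atTop (nhds 0) :=
      squeeze_zero_norm (fun m => by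
        rw [Real.norm_eq_abs]
        exact PT_close (θ m) (hg3 m).zero hf0 (hgf m) X) t0
    have t3 : Filter.Tendsto (fun m => PT (θ m) f X) Filter.atTop (nhds A) :=
      (PT_tendsto hf0 X).comp hθt
    have t4 := ((t1.sub t2).sub t3).add_const (f X)
    have e : (0 - 0 - A + f X) = f X - A := by ring
    rw [e] at t4
    refine t4.congr fun m => ?_
    rw [hqdef]; ring
  have hqM : ∀ m X, |q m X| ≤ 2 * M := by
    intro m X
    have h1 := hb3 m X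
    have h2 := PT_bdd (θ m) (hb3 m) X
    calc |q m X| ≤ |g m X| + |PT (θ m) (g m) X| := abs_sub _ _
      _ ≤ 2 * M := by linarith
  have hqc : ∀ m, Continuous (q m) := fun m => (CB.sub (hg3 m) (PT_CB (θ m) 3 (hg3 m))).cont
  have hDl : Filter.Tendsto (fun m => ∫ X, f X * q m X ∂(gst (Fin n × Fin n))) Filter.atTop
      (nhds (∫ X, f X * (f X - A) ∂(gst (Fin n × Fin n)))) := by
    refine tendsto_integral_of_dominated_convergence (fun _ => M * (2 * M)) ?_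
      (integrable_const _) ?_ ?_
    · intro m
      exact (hf.continuous.mul (hqc m)).aestronglyMeasurable
    · intro m
      refine Filter.Eventually.of_forall fun X => ?_
      rw [Real.norm_eq_abs, abs_mul]
      exact mul_le_mul (hfM X) (hqM m X) (abs_nonneg _) hM0
    · exact Filter.Eventually.of_forall fun X => (hlim X).const_mul (f X)
  have hQl : Filter.Tendsto (fun m => ∫ X, q m X ^ 2 ∂(gst (Fin n × Fin n))) Filter.atTop
      (nhds (∫ X, (f X - A) ^ 2 ∂(gst (Fin n × Fin n)))) := by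
    refine tendsto_integral_of_dominated_convergence (fun _ => (2 * M) * (2 * M)) ?_
      (integrable_const _) ?_ ?_
    · intro m
      exact ((hqc m).pow 2).aestronglyMeasurable
    · intro m
      refine Filter.Eventually.of_forall fun X => ?_
      rw [Real.norm_eq_abs, sq, abs_mul]
      exact mul_le_mul (hqM m X) (hqM m X) (abs_nonneg _) (by linarith)
    · exact Filter.Eventually.of_forall fun X => (hlim X).pow 2
  have hff : Integrable (fun X => f X ^ 2) (gst (Fin n × Fin n)) :=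
    b_int (C := M * M) (hf.continuous.pow 2).measurable (fun X => by
      rw [sq, abs_mul]
      exact mul_le_mul (hfM X) (hfM X) (abs_nonneg _) hM0)
  have hV1 : ∫ X, f X * (f X - A) ∂(gst (Fin n × Fin n))
      = ∫ X, f X ^ 2 ∂(gst (Fin n × Fin n)) - A ^ 2 := by
    have e : ∀ X, f X * (f X - A) = f X ^ 2 - f X * A := fun X => by ring
    simp_rw [e]
    rw [integral_sub hff (hfint.mul_const A), integral_mul_const, ← hA]
    ring
  have hV2 : ∫ X, (f X - A) ^ 2 ∂(gst (Fin n × Fin n))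
      = ∫ X, f X ^ 2 ∂(gst (Fin n × Fin n)) - A ^ 2 := by
    have e : ∀ X, (f X - A) ^ 2 = f X * (f X - A) - A * (f X - A) := fun X => by ring
    simp_rw [e]
    have i1 : Integrable (fun X => f X * (f X - A)) (gst (Fin n × Fin n)) := by
      refine (hff.sub (hfint.mul_const A)).congr (Filter.Eventually.of_forall fun X => ?_)
      show f X ^ 2 - f X * A = _
      ring
    have i2 : Integrable (fun X => f X - A) (gst (Fin n × Fin n)) :=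
      hfint.sub (integrable_const A)
    rw [integral_sub i1 (i2.const_mul A), hV1, integral_const_mul,
      integral_sub hfint (integrable_const A), integral_const, ← hA]
    simp
  set V : ℝ := ∫ X, f X ^ 2 ∂(gst (Fin n × Fin n)) - A ^ 2 with hVdef
  rw [hV1] at hDl
  rw [hV2] at hQl
  have hineq : V ^ 2 ≤ (∫ X, w (evv v X) ∂(gst (Fin n × Fin n))) * V := by
    refine le_of_tendsto_of_tendsto' (hDl.pow 2) (hQl.const_mul _) fun m => ?_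
    exact b_step hv hΦ hw hwm hwb hE hf ⟨M, hfM⟩ (hθ0 m) (hθ1 m) (hg3 m) (hgi m)
  have hW0 : 0 ≤ ∫ X, w (evv v X) ∂(gst (Fin n × Fin n)) := integral_nonneg fun X => hw _
  rcases le_or_gt V 0 with hV | hV
  · exact hV.trans hW0
  · rw [sq] at hineq
    exact le_of_mul_le_mul_right hineq hV

end Pool.Agent.ZR.BL

end

section

/-!
# ZR/H4 : the function `φ(θ) = E |m(z) - msc(z)|²` (part H1)

Write `c = msc z`, `η = z.im > 0`, `zl = ![z, conj z]`, `cl = ![msc z, msc (conj z)]`.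
* `phi1_eq`: for `σ ∈ Sn n`: `m(conj z) = conj m(z)` (`mz_conj`, C2, with `pb_Bm`), `msc (conj z) = conj (msc z)`
  (`msc_conj`, SC2), `w * conj w = ‖w‖²`; then `ej_congr`, `ej_ofReal` (H1).
* `phi1_sq`: `(a + b)² ≤ 2a² + 2b²`, `ej_mono'`, linearity, `ej_const`; integrability by `int_bdd`, `mz_X`,
  `mz_norm_le` (C3).
* `phi1_der`: `GMain` with `K = 1` gives `C`.  For `ν > 0` take `c = 0`, `D = 4` in `GMain`.
  Let `η = z.im`; apply `der_bd` (H3) with `zl, cl` as above, `K = 1`, and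
  `M = n^(-1+Cν) √(2 φ + 2 b²) + n^(-4)`, `b = n^ν/(n (η/2)) = 2 n^ν/(n η)`:
  for `w` on the circle, `Adm n (η/2) w` (`adm_circ`), `Adm n (η/2) (zl _)` (`adm_self`),
  `n^(-1-0) ≤ η/2` for large `n` as `η ≥ n^(-1+ν)`, `‖cl _‖ < 1 ≤ n³` (`msc_norm_lt`); in the bound of `GMain` the
  product over `Fin 1` is the single factor `‖m(zl (l.succAbove 0)) - cl (l.succAbove 0)‖ + b`, and
  `‖m(conj z) - msc (conj z)‖ = ‖m(z) - msc z‖`, so `phi1_sq` applies.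
  The derivative `d` of the complex function `phi1_eq` has `φ' = d.re` as derivative of the real part
  (`HasDerivAt.re`-type: compose with `Complex.reCLM`), `|d.re| ≤ ‖d‖ ≤ sin θ * (2 * (M/(η/2))) ≤ 4M/η`.
  Finally `√(2φ + 2b²) ≤ 2(√φ + b)` and `4 n^(-4)/η ≤ (8 n^(Cν)/(nη)) b` because `b ≥ 2 n^(-3)`
  (`η ≤ n²`), hence `4M/η ≤ (8 n^(Cν)/(nη)) (√φ + 2b)`, `2b = 4 n^ν/(nη)`.
* `phi1_init`: `cos(π/2) = 0`, `sin(π/2) = 1`, `Bm 0 1 σ X = P W P`; `ej_gm`.  `stab` (SC2) with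
  `m = mz (Pn n) (P W P) z`, `0 ≤ m.im` (`mz_im_nonneg`, `pb_PWP`): `‖m - c‖² ≤ ‖1 + z m + m²‖²/(η + c.im)²`.
  `EMain` with `p = 1` gives `∫ ≤ C (1/n + 1/(nη))²/(η + c.im)²`, and
  `(1/n + 1/(nη))² = (1+η)²/(nη)² ≤ 2(1 + η²)/(nη)²`, `(1 + η²)/(η + c.im)² ≤ 1 + 1/(η + c.im)²`
  (`c.im > 0`, `msc_im_pos`).
-/


open MeasureTheory ProbabilityTheory Matrix

namespace Pool.Agent.ZR.H

variable {n : ℕ}

noncomputable def phi1 (n : ℕ) (z : ℂ) (θ : ℝ) : ℝ :=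
  EJ (n := n) (fun σ X => ‖mz (Pn n) (Bm (Real.cos θ) (Real.sin θ) σ X) z - msc z‖ ^ 2)

theorem phi1_nonneg (z : ℂ) (θ : ℝ) : 0 ≤ phi1 n z θ :=
  ej_nonneg fun _ _ _ => sq_nonneg _

private theorem conj_im_ne85 {z : ℂ} (hz : z.im ≠ 0) : (starRingEnd ℂ z).im ≠ 0 := by
  rw [Complex.conj_im]; exact neg_ne_zero.2 hz

private theorem pair85 {z : ℂ} (hz : z.im ≠ 0) (α β : ℝ) {σ : Fin n → Fin n → Bool}
    (hσ : σ ∈ Sn n) (X : Fin n × Fin n → ℝ) :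
    mz (Pn n) (Bm α β σ X) (starRingEnd ℂ z) - msc (starRingEnd ℂ z)
      = starRingEnd ℂ (mz (Pn n) (Bm α β σ X) z - msc z) := by
  rw [mz_conj (pb_Bm α β σ hσ X) z hz, msc_conj z hz, map_sub]

theorem phi1_eq {z : ℂ} (hz : z.im ≠ 0) (θ : ℝ) :
    EJ (n := n) (fun σ X => ∏ l : Fin 2, (mz (Pn n) (Bm (Real.cos θ) (Real.sin θ) σ X)
        ((![z, starRingEnd ℂ z] : Fin 2 → ℂ) l)
        - (![msc z, msc (starRingEnd ℂ z)] : Fin 2 → ℂ) l))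
      = ((phi1 n z θ : ℝ) : ℂ) := by
  unfold phi1
  rw [← ej_ofReal]
  refine ej_congr fun σ hσ X => ?_
  rw [Fin.prod_univ_two]
  simp only [Matrix.cons_val_zero, Matrix.cons_val_one]
  rw [pair85 hz _ _ hσ X, Complex.mul_conj']
  push_cast
  rfl

private theorem int85 {z : ℂ} (hz : z.im ≠ 0) (α β : ℝ) {σ : Fin n → Fin n → Bool}
    (hσ : σ ∈ Sn n) :
    Integrable (fun X => ‖mz (Pn n) (Bm α β σ X) z - msc z‖ ^ 2) (gm n) := by
  have hc : Continuous (fun X => mz (Pn n) (Bm α β σ X) z) := mz_X α β hσ hz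
  refine int_bdd ((hc.sub continuous_const).norm.pow 2) ((1 / |z.im| + ‖msc z‖) ^ 2) fun X => ?_
  rw [Real.norm_of_nonneg (sq_nonneg _)]
  apply pow_le_pow_left₀ (norm_nonneg _)
  exact (norm_sub_le _ _).trans (add_le_add (mz_norm_le (pb_Bm α β σ hσ X) z hz) le_rfl)

theorem phi1_sq (hn : Even n) {z : ℂ} (hz : z.im ≠ 0) (b : ℝ) (hb : 0 ≤ b) (θ : ℝ) :
    EJ (n := n) (fun σ X =>
        (‖mz (Pn n) (Bm (Real.cos θ) (Real.sin θ) σ X) z - msc z‖ + b) ^ 2)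
      ≤ 2 * phi1 n z θ + 2 * b ^ 2 := by
  have h1 : EJ (n := n) (fun σ X =>
        (‖mz (Pn n) (Bm (Real.cos θ) (Real.sin θ) σ X) z - msc z‖ + b) ^ 2)
      ≤ EJ (n := n) (fun σ X =>
        2 * ‖mz (Pn n) (Bm (Real.cos θ) (Real.sin θ) σ X) z - msc z‖ ^ 2 + 2 * b ^ 2) := by
    refine ej_mono' (fun _ _ _ => sq_nonneg _) (fun σ hσ => ?_) (fun σ hσ X => ?_)
    · exact ((int85 hz _ _ hσ).const_mul 2).add (integrable_const _)
    · nlinarith [sq_nonneg (‖mz (Pn n) (Bm (Real.cos θ) (Real.sin θ) σ X) z - msc z‖ - b)]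
  refine h1.trans (le_of_eq ?_)
  have h2 := ej_add (n := n) (V := ℝ)
    (F := fun σ X => 2 * ‖mz (Pn n) (Bm (Real.cos θ) (Real.sin θ) σ X) z - msc z‖ ^ 2)
    (G := fun _ _ => 2 * b ^ 2)
    (fun σ hσ => (int85 hz _ _ hσ).const_mul 2) (fun σ hσ => integrable_const _)
  rw [h2, ej_rmul, ej_const hn]
  rfl

theorem phi1_der (hG : GMain) : ∃ C : ℝ, 0 < C ∧ ∀ ν : ℝ, 0 < ν → ∃ n0 : ℕ, ∀ n : ℕ, n0 ≤ n →
    Even n → ∀ z : ℂ, (n : ℝ) ^ (-1 + ν) ≤ z.im → z.im ≤ (n : ℝ) ^ 2 → |z.re| ≤ 2 →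
    ∃ φ' : ℝ → ℝ, ∀ θ ∈ Set.Icc (0 : ℝ) (Real.pi / 2), HasDerivAt (phi1 n z) (φ' θ) θ ∧
      |φ' θ| ≤ (8 * (n : ℝ) ^ (C * ν) / (n * z.im)) *
        (Real.sqrt (phi1 n z θ) + 4 * (n : ℝ) ^ ν / (n * z.im)) := by
  obtain ⟨C, hC, hG1⟩ := hG 1
  refine ⟨C, hC, fun ν hν => ?_⟩
  obtain ⟨n1, h1⟩ := hG1 0 ν 4 le_rfl one_pos hν (by norm_num)
  have hev : ∀ᶠ n : ℕ in Filter.atTop, (2 : ℝ) ≤ (n : ℝ) ^ ν :=
    ((tendsto_rpow_atTop hν).comp tendsto_natCast_atTop_atTop).eventually_ge_atTop 2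
  obtain ⟨n2, h2⟩ := Filter.eventually_atTop.1 hev
  refine ⟨max 2 (max n1 n2), fun n hn hne z hz1 hz2 hz3 => ?_⟩
  have hn2 : 2 ≤ n := (le_max_left _ _).trans hn
  have hnn1 : n1 ≤ n := (le_max_left _ _).trans ((le_max_right _ _).trans hn)
  have hnn2 : n2 ≤ n := (le_max_right _ _).trans ((le_max_right _ _).trans hn)
  have g2 := h2 n hnn2
  have hn2' : (2 : ℝ) ≤ n := by exact_mod_cast hn2
  have hn0 : (0 : ℝ) < n := by linarith
  have hn1' : (1 : ℝ) ≤ n := by linarith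
  set η : ℝ := z.im with hη
  have hη0 : 0 < η := lt_of_lt_of_le (Real.rpow_pos_of_pos hn0 _) hz1
  have hzne : z.im ≠ 0 := hη0.ne'
  have hηn : (n : ℝ) ^ (-1 - (0 : ℝ)) ≤ η / 2 := by
    have e : (n : ℝ) ^ (-1 + ν) = (n : ℝ) ^ (-1 - (0 : ℝ)) * (n : ℝ) ^ ν := by
      rw [← Real.rpow_add hn0]; congr 1; ring
    have hp : 0 < (n : ℝ) ^ (-1 - (0 : ℝ)) := Real.rpow_pos_of_pos hn0 _
    rw [e] at hz1
    have h := mul_le_mul_of_nonneg_left g2 hp.le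
    calc (n : ℝ) ^ (-1 - (0 : ℝ)) = ((n : ℝ) ^ (-1 - (0 : ℝ)) * 2) / 2 := by ring
      _ ≤ ((n : ℝ) ^ (-1 - (0 : ℝ)) * (n : ℝ) ^ ν) / 2 := div_le_div_of_nonneg_right h (by norm_num)
      _ ≤ η / 2 := div_le_div_of_nonneg_right hz1 (by norm_num)
  set zl : Fin 2 → ℂ := ![z, starRingEnd ℂ z] with hzl
  set cl : Fin 2 → ℂ := ![msc z, msc (starRingEnd ℂ z)] with hcl
  have hzlim : ∀ l, |(zl l).im| = η := by
    intro l
    fin_cases l
    · simp [hzl, abs_of_pos hη0, ← hη]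
    · simp [hzl, abs_of_pos hη0, ← hη]
  have hzlre : ∀ l, |(zl l).re| ≤ 2 := by
    intro l
    fin_cases l
    · simpa [hzl] using hz3
    · simpa [hzl] using hz3
  have hclb : ∀ l, ‖cl l‖ ≤ (n : ℝ) ^ 3 := by
    have h3 : (1 : ℝ) ≤ (n : ℝ) ^ 3 := one_le_pow₀ hn1'
    intro l
    fin_cases l
    · exact (msc_norm_lt z hzne).le.trans h3
    · exact (msc_norm_lt _ (conj_im_ne85 hzne)).le.trans h3
  set b : ℝ := (n : ℝ) ^ ν / (n * (η / 2)) with hb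
  have hb0 : 0 < b := by positivity
  -- the bound of `Ecal` on circles
  have hE : ∀ θ ∈ Set.Icc (0 : ℝ) (Real.pi / 2), ∀ l : Fin 2, ∀ w : ℂ, ‖w - zl l‖ = η / 2 →
      ‖Ecal n (Real.cos θ) (Real.sin θ) (fun j : Fin 1 => zl (l.succAbove j))
        (fun j : Fin 1 => cl (l.succAbove j)) w‖
        ≤ (n : ℝ) ^ (-1 + C * (ν + 0)) * Real.sqrt (2 * phi1 n z θ + 2 * b ^ 2)
          + (n : ℝ) ^ (-(4 : ℝ)) := by
    intro θ hθ l w hw
    have hcos : 0 ≤ Real.cos θ := Real.cos_nonneg_of_mem_Icc ⟨by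
      have := hθ.1; have := Real.pi_pos; linarith, hθ.2⟩
    have hsin : 0 ≤ Real.sin θ := Real.sin_nonneg_of_nonneg_of_le_pi hθ.1 (by
      have := hθ.2; have := Real.pi_pos; linarith)
    have h3 := h1 n hnn1 hne (Real.cos θ) (Real.sin θ) hcos hsin (Real.cos_sq_add_sin_sq θ)
      (η / 2) w (fun j : Fin 1 => zl (l.succAbove j)) (fun j : Fin 1 => cl (l.succAbove j)) hηn
      (adm_circ hn2 hη0 (hzlim l) hz2 (hzlre l) hw)
      (fun j => adm_self hn2 hη0 (hzlim _) hz2 (hzlre _)) (fun j => hclb _)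
    refine h3.trans (add_le_add (mul_le_mul_of_nonneg_left (Real.sqrt_le_sqrt ?_)
      (Real.rpow_nonneg hn0.le _)) le_rfl)
    refine le_trans (le_of_eq ?_) (phi1_sq hne hzne b hb0.le θ)
    refine ej_congr fun σ hσ X => ?_
    rw [Fin.prod_univ_one]
    congr 2
    have hp := pair85 hzne (Real.cos θ) (Real.sin θ) hσ X
    fin_cases l
    · change ‖mz (Pn n) (Bm (Real.cos θ) (Real.sin θ) σ X) (starRingEnd ℂ z)
        - msc (starRingEnd ℂ z)‖ = _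
      rw [hp, RCLike.norm_conj]
    · rfl
  have hder : ∀ θ ∈ Set.Icc (0 : ℝ) (Real.pi / 2), ∃ d : ℂ,
      HasDerivAt (fun t : ℝ => ((phi1 n z t : ℝ) : ℂ)) d θ ∧
      ‖d‖ ≤ Real.sin θ * (((1 : ℕ) : ℝ) + 1) * (((n : ℝ) ^ (-1 + C * (ν + 0))
        * Real.sqrt (2 * phi1 n z θ + 2 * b ^ 2) + (n : ℝ) ^ (-(4 : ℝ))) / (η / 2)) := by
    intro θ hθ
    have hsin : 0 ≤ Real.sin θ := Real.sin_nonneg_of_nonneg_of_le_pi hθ.1 (by
      have := hθ.2; have := Real.pi_pos; linarith)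
    obtain ⟨d, hd1, hd2⟩ := der_bd (n := n) (by omega) (K := 1) zl cl hη0 hzlim θ hsin (hE θ hθ)
    refine ⟨d, ?_, ?_⟩
    · have e : (fun t : ℝ => ((phi1 n z t : ℝ) : ℂ)) = fun t : ℝ => EJ (n := n) (fun σ X =>
          ∏ l : Fin 2, (mz (Pn n) (Bm (Real.cos t) (Real.sin t) σ X) (zl l) - cl l)) := by
        funext t
        exact (phi1_eq hzne t).symm
      rw [e]
      exact hd1
    · rw [mul_assoc]
      exact hd2
  refine ⟨deriv (phi1 n z), fun θ hθ => ?_⟩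
  obtain ⟨d, hd1, hd2⟩ := hder θ hθ
  have hd3 : HasDerivAt (phi1 n z) d.re θ := by
    have := (Complex.reCLM.hasFDerivAt (x := ((phi1 n z θ : ℝ) : ℂ))).comp_hasDerivAt θ hd1
    simpa [Function.comp_def] using this
  rw [hd3.deriv]
  refine ⟨hd3, ?_⟩
  have hφ := phi1_nonneg (n := n) z θ
  set φ : ℝ := phi1 n z θ with hφd
  have hs1 : Real.sin θ ≤ 1 := Real.sin_le_one θ
  have hsq : Real.sqrt (2 * φ + 2 * b ^ 2) ≤ 2 * (Real.sqrt φ + b) := by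
    rw [Real.sqrt_le_left (by positivity)]
    have h5 : Real.sqrt φ ^ 2 = φ := Real.sq_sqrt hφ
    have h6 := Real.sqrt_nonneg φ
    nlinarith [mul_nonneg h6 hb0.le]
  set P : ℝ := (n : ℝ) ^ (C * ν) with hP
  have hP1 : 1 ≤ P := Real.one_le_rpow hn1' (by positivity)
  have eP : (n : ℝ) ^ (-1 + C * (ν + 0)) = P / n := by
    rw [add_zero, Real.rpow_add hn0, Real.rpow_neg_one, hP]
    ring
  have e4 : (n : ℝ) ^ (-(4 : ℝ)) = 1 / (n : ℝ) ^ 4 := by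
    rw [Real.rpow_neg hn0.le, one_div]
    norm_cast
  have hb3 : 2 / (n : ℝ) ^ 3 ≤ b := by
    rw [hb, div_le_div_iff₀ (by positivity) (by positivity)]
    have h7 : (1 : ℝ) ≤ (n : ℝ) ^ ν := by linarith
    have h8 : 2 * (n * (η / 2)) ≤ (n : ℝ) ^ 3 := by
      nlinarith [mul_le_mul_of_nonneg_left hz2 hn0.le]
    nlinarith [pow_pos hn0 3]
  have hM : (n : ℝ) ^ (-1 + C * (ν + 0)) * Real.sqrt (2 * φ + 2 * b ^ 2) + (n : ℝ) ^ (-(4 : ℝ))
      ≤ 2 * P / n * (Real.sqrt φ + 2 * b) := by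
    rw [eP, e4]
    have h9 : P / n * Real.sqrt (2 * φ + 2 * b ^ 2) ≤ P / n * (2 * (Real.sqrt φ + b)) :=
      mul_le_mul_of_nonneg_left hsq (by positivity)
    have h10 : 1 / (n : ℝ) ^ 4 ≤ 2 * P / n * b := by
      calc 1 / (n : ℝ) ^ 4 ≤ 4 / (n : ℝ) ^ 4 := by gcongr; norm_num
        _ = 2 / n * (2 / (n : ℝ) ^ 3) := by field_simp; norm_num
        _ ≤ 2 * P / n * b := by
          apply mul_le_mul _ hb3 (by positivity) (by positivity)
          gcongr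
          linarith
    calc P / n * Real.sqrt (2 * φ + 2 * b ^ 2) + 1 / (n : ℝ) ^ 4
        ≤ P / n * (2 * (Real.sqrt φ + b)) + 2 * P / n * b := add_le_add h9 h10
      _ = 2 * P / n * (Real.sqrt φ + 2 * b) := by ring
  have hM0 : 0 ≤ (n : ℝ) ^ (-1 + C * (ν + 0)) * Real.sqrt (2 * φ + 2 * b ^ 2)
      + (n : ℝ) ^ (-(4 : ℝ)) := by positivity
  calc |d.re| ≤ ‖d‖ := Complex.abs_re_le_norm d
    _ ≤ Real.sin θ * (((1 : ℕ) : ℝ) + 1) * (((n : ℝ) ^ (-1 + C * (ν + 0))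
        * Real.sqrt (2 * φ + 2 * b ^ 2) + (n : ℝ) ^ (-(4 : ℝ))) / (η / 2)) := hd2
    _ ≤ 1 * (((1 : ℕ) : ℝ) + 1) * ((2 * P / n * (Real.sqrt φ + 2 * b)) / (η / 2)) := by
        gcongr
    _ = (8 * P / (n * η)) * (Real.sqrt φ + 4 * (n : ℝ) ^ ν / (n * η)) := by
        rw [hb]
        push_cast
        field_simp
        ring

theorem phi1_init (hE : EMain) : ∃ C : ℝ, 0 < C ∧ ∀ n : ℕ, 0 < n → Even n → ∀ z : ℂ, 0 < z.im →
    |z.re| ≤ 2 → 1 ≤ n * z.im →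
    phi1 n z (Real.pi / 2) ≤ C / (n * z.im) ^ 2 * (1 + 1 / (z.im + (msc z).im) ^ 2) := by
  obtain ⟨C, hC, hE1⟩ := hE 1
  refine ⟨2 * C, by positivity, fun n hn hne z hz hre h1 => ?_⟩
  have h2 := hE1 n hn z hz (by linarith) h1
  rw [mul_one] at h2
  have hn0 : (0 : ℝ) < n := by exact_mod_cast hn
  set s : ℝ := z.im + (msc z).im with hs
  have hs0 : 0 < s := by have := msc_im_pos z hz; linarith
  have hsη : z.im ≤ s := by have := msc_im_pos z hz; linarith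
  set A : (Fin n × Fin n → ℝ) → Matrix (Fin n) (Fin n) ℝ :=
    fun X => Pn n * Wv (1 / (n : ℝ)) X * Pn n with hA
  have hpb : ∀ X, PB (Pn n) (A X) := fun X => pb_PWP n _ (Wv_symm _ X)
  have e1 : phi1 n z (Real.pi / 2) = ∫ X, ‖mz (Pn n) (A X) z - msc z‖ ^ 2 ∂(gm n) := by
    unfold phi1
    rw [← ej_gm hne]
    refine ej_congr fun σ hσ X => ?_
    rw [Real.cos_pi_div_two, Real.sin_pi_div_two]
    unfold Bm
    rw [zero_smul, zero_add, one_smul]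
  have hcont : Continuous (fun X => mz (Pn n) (A X) z) :=
    mz_cont hpb (fun i j => pwp_cont i j) hz.ne'
  have hint : Integrable (fun X => ‖1 + z * mz (Pn n) (A X) z + mz (Pn n) (A X) z ^ 2‖ ^ 2)
      (gm n) := by
    refine int_bdd (by fun_prop) ((1 + ‖z‖ * (1 / |z.im|) + (1 / |z.im|) ^ 2) ^ 2) fun X => ?_
    rw [Real.norm_of_nonneg (sq_nonneg _)]
    apply pow_le_pow_left₀ (norm_nonneg _)
    have h3 := mz_norm_le (hpb X) z hz.ne'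
    calc ‖1 + z * mz (Pn n) (A X) z + mz (Pn n) (A X) z ^ 2‖
        ≤ ‖(1 : ℂ)‖ + ‖z * mz (Pn n) (A X) z‖ + ‖mz (Pn n) (A X) z ^ 2‖ := norm_add₃_le
      _ ≤ 1 + ‖z‖ * (1 / |z.im|) + (1 / |z.im|) ^ 2 := by
          rw [norm_one, norm_mul, norm_pow]
          gcongr
  have h4 : ∫ X, ‖mz (Pn n) (A X) z - msc z‖ ^ 2 ∂(gm n)
      ≤ ∫ X, ‖1 + z * mz (Pn n) (A X) z + mz (Pn n) (A X) z ^ 2‖ ^ 2 * (1 / s ^ 2) ∂(gm n) := by
    refine integral_mono_of_nonneg (Filter.Eventually.of_forall fun X => sq_nonneg _)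
      (hint.mul_const _) (Filter.Eventually.of_forall fun X => ?_)
    have h5 := stab z (mz (Pn n) (A X) z) hz (mz_im_nonneg (hpb X) z hz)
    calc ‖mz (Pn n) (A X) z - msc z‖ ^ 2
        ≤ (‖1 + z * mz (Pn n) (A X) z + mz (Pn n) (A X) z ^ 2‖ / s) ^ 2 :=
          pow_le_pow_left₀ (norm_nonneg _) h5 2
      _ = ‖1 + z * mz (Pn n) (A X) z + mz (Pn n) (A X) z ^ 2‖ ^ 2 * (1 / s ^ 2) := by
          rw [div_pow]; ring
  rw [e1]
  refine h4.trans ?_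
  rw [integral_mul_const]
  have h6 : (1 / (n : ℝ) + 1 / (n * z.im)) ^ 2 * (1 / s ^ 2)
      ≤ 2 / (n * z.im) ^ 2 * (1 + 1 / s ^ 2) := by
    have e : (1 / (n : ℝ) + 1 / (n * z.im)) ^ 2 * (1 / s ^ 2)
        = (z.im + 1) ^ 2 / s ^ 2 / (n * z.im) ^ 2 := by
      field_simp
    have e' : 2 / (n * z.im) ^ 2 * (1 + 1 / s ^ 2)
        = (2 * (s ^ 2 + 1)) / s ^ 2 / (n * z.im) ^ 2 := by
      field_simp
    rw [e, e']
    gcongr
    nlinarith [sq_nonneg (z.im - 1), mul_self_le_mul_self hz.le hsη]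
  calc (∫ X, ‖1 + z * mz (Pn n) (A X) z + mz (Pn n) (A X) z ^ 2‖ ^ 2 ∂(gm n)) * (1 / s ^ 2)
      ≤ (C * (1 / (n : ℝ) + 1 / (n * z.im)) ^ 2) * (1 / s ^ 2) :=
        mul_le_mul_of_nonneg_right h2 (by positivity)
    _ = C * ((1 / (n : ℝ) + 1 / (n * z.im)) ^ 2 * (1 / s ^ 2)) := by ring
    _ ≤ C * (2 / (n * z.im) ^ 2 * (1 + 1 / s ^ 2)) := mul_le_mul_of_nonneg_left h6 hC.le
    _ = 2 * C / (n * z.im) ^ 2 * (1 + 1 / s ^ 2) := by ring

end Pool.Agent.ZR.H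

end
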