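import Pool.Agent.ZRM.P12

/-!
# Merged form of the modules ZR.JFive
-/

set_option autoImplicit false

section

/-!
# ZR/JFive : J5 (Wegner bound for Gaussian divisible matrices)

`At (1/n) t a X = Dw τ (e^{-t/2} a) X`, `τ = (1 - e^{-t})(1/n)`, `t = n^{-δ}` (`At_eq_Dw`; note that the
statement J5 writes `At (1/n) (n^(-δ)) a X`).  By `tau_bounds` `1/τ ≤ 2n n^δ`.
Let `T = n^(ν+δ/2) (n r) ≥ n^(ν+δ/2) ≥ n^ν` (since `n r ≥ 1`).  For `n^ν ≥ 8`: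
`8 n r²/τ ≤ 16 (n r)² n^δ < T²/2 ≤ T(T-1)`, because `T² = n^(2ν) n^δ (n r)²` and `n^(2ν) ≥ 64`,
`T ≥ 2`.  `wegner_prob`: the probability is at most `n exp(-(T-1)/11) ≤ n exp(-(n^ν - 1)/11)
≤ n^(-D)` for `n` large (exponential versus power: e.g. `tendsto_pow_mul_exp_neg_atTop_nhds_zero`
or `isLittleO_rpow_exp_atTop` composed with `n ↦ n^ν`).
-/


open MeasureTheory ProbabilityTheory Matrix

namespace Pool.Agent.ZR

theorem j5 : J5 := by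
  intro δ ν D hδ hδ1 hν hD
  have hE1 : ∀ᶠ y : ℝ in Filter.atTop,
      y ^ ((D + 1) / ν) * Real.exp (-(1 / 11) * y) ≤ Real.exp (-(1 / 11)) := by
    have h1 := tendsto_rpow_mul_exp_neg_mul_atTop_nhds_zero ((D + 1) / ν) (1 / 11) (by norm_num)
    exact (h1.eventually (eventually_le_nhds (Real.exp_pos _)))
  have hE2 : ∀ᶠ n : ℕ in Filter.atTop,
      ((n : ℝ) ^ ν) ^ ((D + 1) / ν) * Real.exp (-(1 / 11) * (n : ℝ) ^ ν) ≤ Real.exp (-(1 / 11)) :=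
    ((tendsto_rpow_atTop hν).comp tendsto_natCast_atTop_atTop).eventually hE1
  have hE3 : ∀ᶠ n : ℕ in Filter.atTop, (8 : ℝ) ≤ (n : ℝ) ^ ν :=
    ((tendsto_rpow_atTop hν).comp tendsto_natCast_atTop_atTop).eventually
      (Filter.eventually_ge_atTop 8)
  obtain ⟨n0, hn0⟩ := Filter.eventually_atTop.1
    (hE2.and (hE3.and (Filter.eventually_ge_atTop (1 : ℕ))))
  refine ⟨n0, fun n hn a x r hr => ?_⟩
  obtain ⟨h2, h8, hn1⟩ := hn0 n hn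
  have hnp : (0 : ℝ) < n := by exact_mod_cast hn1
  have hn1' : (1 : ℝ) ≤ n := by exact_mod_cast hn1
  have hrp : 0 < r := lt_of_lt_of_le (by positivity) hr
  have hnr : 1 ≤ (n : ℝ) * r := by
    rw [div_le_iff₀ hnp] at hr
    linarith
  have ht : 0 ≤ (n : ℝ) ^ (-δ) := Real.rpow_nonneg hnp.le _
  have htp : 0 < (n : ℝ) ^ (-δ) := Real.rpow_pos_of_pos hnp _
  have hδp : 0 < (n : ℝ) ^ δ := Real.rpow_pos_of_pos hnp _
  obtain ⟨hτ0, hτ1, hτ2⟩ := tau_bounds n hn1 δ hδ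
  set τ : ℝ := (1 - Real.exp (-((n : ℝ) ^ (-δ)))) * (1 / (n : ℝ)) with hτ
  set T : ℝ := (n : ℝ) ^ (ν + δ / 2) * (n * r) with hT
  have hT1 : (n : ℝ) ^ ν ≤ T := by
    have e1 : (n : ℝ) ^ ν ≤ (n : ℝ) ^ (ν + δ / 2) :=
      Real.rpow_le_rpow_of_exponent_le hn1' (by linarith)
    have e2 : (n : ℝ) ^ (ν + δ / 2) * 1 ≤ T :=
      mul_le_mul_of_nonneg_left hnr (Real.rpow_nonneg hnp.le _)
    linarith
  have hT2 : T ^ 2 = ((n : ℝ) ^ ν) ^ 2 * ((n : ℝ) ^ δ * (n * r) ^ 2) := by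
    have e1 : ((n : ℝ) ^ (ν + δ / 2)) ^ 2 = ((n : ℝ) ^ ν) ^ 2 * (n : ℝ) ^ δ := by
      rw [← Real.rpow_natCast, ← Real.rpow_mul hnp.le, ← Real.rpow_natCast,
        ← Real.rpow_mul hnp.le, ← Real.rpow_add hnp]
      congr 1
      push_cast
      ring
    rw [hT, mul_pow, e1]
    ring
  have hX : 0 < (n : ℝ) ^ δ * (n * r) ^ 2 := by positivity
  have hmain : 8 * (n : ℝ) * r ^ 2 / τ < T * (T - 1) := by
    have h3 : 8 * (n : ℝ) * r ^ 2 / τ ≤ 16 * ((n : ℝ) ^ δ * (n * r) ^ 2) := by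
      rw [div_le_iff₀ hτ0]
      have h4 : 16 * ((n : ℝ) ^ δ * (n * r) ^ 2) * ((n : ℝ) ^ (-δ) / (2 * n))
          ≤ 16 * ((n : ℝ) ^ δ * (n * r) ^ 2) * τ :=
        mul_le_mul_of_nonneg_left hτ2 (by positivity)
      refine le_trans (le_of_eq ?_) h4
      have h5 : (n : ℝ) ^ δ * (n : ℝ) ^ (-δ) = 1 := by
        rw [← Real.rpow_add hnp, add_neg_cancel, Real.rpow_zero]
      calc 8 * (n : ℝ) * r ^ 2 = 8 * n * r ^ 2 * ((n : ℝ) ^ δ * (n : ℝ) ^ (-δ)) := by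
            rw [h5, mul_one]
        _ = 16 * ((n : ℝ) ^ δ * (n * r) ^ 2) * ((n : ℝ) ^ (-δ) / (2 * n)) := by
            field_simp
            ring
    have h6 : 64 * ((n : ℝ) ^ δ * (n * r) ^ 2) ≤ T ^ 2 := by
      rw [hT2]
      refine mul_le_mul_of_nonneg_right ?_ hX.le
      nlinarith
    nlinarith
  have hw := wegner_prob (N := n) τ hτ0 (fun i => Real.exp (-((n : ℝ) ^ (-δ)) / 2) * a i) x r hrp T
    (by linarith) hmain
  have hset : {X : Fin n × Fin n → ℝ | T ≤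
        (cntI (At (1 / (n : ℝ)) ((n : ℝ) ^ (-δ)) a X) x r : ℝ)}
      = {X | T ≤ (cntI (Dw τ (fun i => Real.exp (-((n : ℝ) ^ (-δ)) / 2) * a i) X) x r : ℝ)} := by
    ext X
    simp only [Set.mem_ofPred_eq]
    rw [At_eq_Dw _ _ ht]
  rw [hset]
  refine hw.trans ?_
  have h7 : Real.exp (-(T - 1) / 11) ≤ Real.exp (1 / 11) * Real.exp (-(1 / 11) * (n : ℝ) ^ ν) := by
    rw [← Real.exp_add]
    apply Real.exp_le_exp.2
    linarith
  have h8' : ((n : ℝ) ^ ν) ^ ((D + 1) / ν) = (n : ℝ) ^ D * n := by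
    rw [← Real.rpow_mul hnp.le, mul_div_cancel₀ _ hν.ne', Real.rpow_add hnp, Real.rpow_one]
  rw [h8'] at h2
  have hDp : 0 < (n : ℝ) ^ D := Real.rpow_pos_of_pos hnp _
  have h9 : (n : ℝ) ^ D * (n * Real.exp (-(T - 1) / 11)) ≤ 1 := by
    calc (n : ℝ) ^ D * (n * Real.exp (-(T - 1) / 11))
        ≤ (n : ℝ) ^ D * (n * (Real.exp (1 / 11) * Real.exp (-(1 / 11) * (n : ℝ) ^ ν))) := by
          gcongr
      _ = Real.exp (1 / 11) * ((n : ℝ) ^ D * n * Real.exp (-(1 / 11) * (n : ℝ) ^ ν)) := by ring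
      _ ≤ Real.exp (1 / 11) * Real.exp (-(1 / 11)) := by gcongr
      _ = 1 := by rw [← Real.exp_add]; norm_num
  rw [Real.rpow_neg hnp.le, ← one_div, le_div_iff₀ hDp]
  linarith

end Pool.Agent.ZR

end
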