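import Pool.Agent.ZRM.P17

/-!
# Merged form of the modules ZR.ICf
-/

set_option autoImplicit false

section

/-!
# ZR, part I (helper58): abstract counting theorem
-/


open MeasureTheory ProbabilityTheory

namespace Pool.Agent.ZR.I

variable {Ω : Type*} [MeasurableSpace Ω]

lemma NN_meas {M : ℕ} {l : Ω → Fin M → ℝ} (hl : Measurable l) (x : ℝ) :
    Measurable (fun ω => NN (l ω) x) := by
  unfold NN
  refine Finset.measurable_sum _ fun i _ => ?_
  refine Measurable.ite ?_ measurable_const measurable_const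
  exact measurableSet_le ((measurable_pi_apply i).comp hl) measurable_const

lemma F3_bound (x : ℝ) {η R : ℝ} (hη : 0 < η) (hR : η ≤ R) :
    0 ≤ (∫ u in η..R, (msc ⟨x, u⟩).im / u) ∧ (∫ u in η..R, (msc ⟨x, u⟩).im / u) ≤ Real.log (R / η) := by
  have hcont : ContinuousOn (fun u : ℝ => (msc ⟨x, u⟩).im / u) (Set.Icc η R) := by
    refine ContinuousOn.div (Complex.continuous_im.comp_continuousOn (msc_contOn x η R hη)) (by fun_prop)
      fun u hu => ?_
    exact (lt_of_lt_of_le hη hu.1).ne'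
  constructor
  · refine intervalIntegral.integral_nonneg hR fun u hu => ?_
    have hu0 := lt_of_lt_of_le hη hu.1
    have := msc_im_pos (⟨x, u⟩ : ℂ) hu0
    positivity
  · rw [← int_inv hη hR, ← intervalIntegral.integral_of_le hR]
    refine intervalIntegral.integral_mono_on hR ?_ ?_ fun u hu => ?_
    · refine ContinuousOn.intervalIntegrable ?_
      rw [Set.uIcc_of_le hR]; exact hcont
    · refine ContinuousOn.intervalIntegrable ?_
      rw [Set.uIcc_of_le hR]
      exact ContinuousOn.div continuousOn_const (by fun_prop) fun u hu => (lt_of_lt_of_le hη hu.1).ne'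
    · have hu0 := lt_of_lt_of_le hη hu.1
      refine div_le_div_of_nonneg_right ?_ hu0.le
      exact ((le_abs_self _).trans (Complex.abs_im_le_norm _)).trans (msc_norm_lt _ (by simpa using hu0.ne')).le

lemma four_sq (a b c d X : ℝ) (h : |X| ≤ |a| + b + c + d) :
    X ^ 2 ≤ 4 * (a ^ 2 + b ^ 2 + c ^ 2 + d ^ 2) := by
  have h1 : X ^ 2 ≤ (|a| + b + c + d) ^ 2 := by
    rw [← sq_abs X]; exact pow_le_pow_left₀ (abs_nonneg _) h 2
  have h2 : |a| ^ 2 = a ^ 2 := sq_abs a
  nlinarith [sq_nonneg (|a| - b), sq_nonneg (|a| - c), sq_nonneg (|a| - d), sq_nonneg (b - c),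
    sq_nonneg (b - d), sq_nonneg (c - d)]

theorem count_fixed {M n : ℕ} (hM : M ≤ n) (hn1 : n ≤ M + 1) {l : Ω → Fin M → ℝ} (hl : Measurable l)
    (P : Measure Ω) [IsProbabilityMeasure P] {x η R A : ℝ} (hx : |x| ≤ 2) (hη : 0 < η) (hR : η ≤ R)
    (hA : 0 ≤ A)
    (h1 : ∀ u, η ≤ u → u ≤ R → ∫ ω, (f1 (l ω) x u + n * (msc ⟨x, u⟩).re) ^ 2 ∂P ≤ A / u ^ 2)
    (h2 : ∀ u, η ≤ u → u ≤ R → ∫ ω, (u * f2 (l ω) x u) ^ 2 ∂P ≤ 2 * (n : ℝ) ^ 2 + 2 * (A / u ^ 2))
    (hS : Integrable (fun ω => (∑ i, |x - l ω i|) ^ 2) P) :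
    ∫ ω, (NN (l ω) x - n * Fsc x) ^ 2 ∂P ≤
      4 * (Real.log (R / η) ^ 2 * A + (2 * (n * η) ^ 2 * Real.log (R / η) ^ 2 + Real.log (R / η) * A)
        + (n * η * Real.log (R / η)) ^ 2
        + (2 * ((M + n) * η / R + 4 * n / R + 1 / 2) ^ 2 + 2 * (∫ ω, (∑ i, |x - l ω i|) ^ 2 ∂P) / R ^ 2)) := by
  have hRpos : 0 < R := lt_of_lt_of_le hη hR
  have hn0 : (0 : ℝ) ≤ n := Nat.cast_nonneg n
  set F1 : Ω → ℝ := fun ω => ∫ u in η..R, (f1 (l ω) x u + n * (msc ⟨x, u⟩).re) with hF1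
  set F2 : Ω → ℝ := fun ω => η * ∫ u in η..R, f2 (l ω) x u with hF2
  set F3 : ℝ := n * η * ∫ u in η..R, (msc ⟨x, u⟩).im / u with hF3
  set c : Ω → ℝ := fun ω => (M + n) * η / R + (∑ i, |x - l ω i|) / R + 4 * n / R + 1 / 2 with hc
  have hF3b := F3_bound x hη hR
  have hpt : ∀ ω, (NN (l ω) x - n * Fsc x) ^ 2 ≤ 4 * (F1 ω ^ 2 + F2 ω ^ 2 + F3 ^ 2 + c ω ^ 2) := fun ω =>
    four_sq _ _ _ _ _ (det_bound hM hn1 (l ω) hx hη hR)
  have hc2 : ∀ ω, c ω ^ 2 ≤ 2 * ((M + n) * η / R + 4 * n / R + 1 / 2) ^ 2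
      + 2 * ((∑ i, |x - l ω i|) ^ 2 / R ^ 2) := by
    intro ω
    have e : c ω = ((M + n) * η / R + 4 * n / R + 1 / 2) + (∑ i, |x - l ω i|) / R := by
      simp only [hc]; ring
    rw [e, ← div_pow]
    nlinarith [sq_nonneg (((M + n) * η / R + 4 * n / R + 1 / 2) - (∑ i, |x - l ω i|) / R)]
  -- measurability and boundedness of F1, F2
  have hF1m : Measurable F1 := by
    set g : ℝ → ℝ := fun u => (msc ⟨x, max u η⟩).re with hg
    have hgc : Continuous g := Complex.continuous_re.comp (msc_cont_max x η hη)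
    have hge : ∀ u, η ≤ u → g u = (msc ⟨x, u⟩).re := fun u hu => by simp only [hg, max_eq_left hu]
    have e1 : F1 = fun ω => ∫ u in Set.Ioc η R, (f1 (l ω) x u + n * g u) := by
      funext ω
      simp only [hF1]
      rw [intervalIntegral.integral_of_le hR]
      refine setIntegral_congr_fun measurableSet_Ioc fun u hu => ?_
      rw [hge u hu.1.le]
    rw [e1]
    have hfm : StronglyMeasurable (fun p : Ω × ℝ => f1 (l p.1) x p.2 + n * g p.2) := by
      have h2 := (f1_meas hl x).comp (measurable_snd.prodMk measurable_fst : Measurable (fun p : Ω × ℝ => (p.2, p.1)))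
      exact (h2.add ((hgc.measurable.comp measurable_snd).const_mul _)).stronglyMeasurable
    exact (hfm.integral_prod_right (ν := volume.restrict (Set.Ioc η R))).measurable
  have hF2m : Measurable F2 := by
    have e1 : F2 = fun ω => η * ∫ u in Set.Ioc η R, f2 (l ω) x u := by
      funext ω
      simp only [hF2]
      rw [intervalIntegral.integral_of_le hR]
    rw [e1]
    have hfm : StronglyMeasurable (fun p : Ω × ℝ => f2 (l p.1) x p.2) := by
      have h2 := (f2_meas hl x).comp (measurable_snd.prodMk measurable_fst : Measurable (fun p : Ω × ℝ => (p.2, p.1)))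
      exact h2.stronglyMeasurable
    exact ((hfm.integral_prod_right (ν := volume.restrict (Set.Ioc η R))).measurable).const_mul η
  have hF1b : ∀ ω, |F1 ω| ≤ (M / η + n) * (R - η) := by
    intro ω
    have h3 := intervalIntegral.norm_integral_le_of_norm_le_const (a := η) (b := R)
      (f := fun u => f1 (l ω) x u + n * (msc ⟨x, u⟩).re) (C := M / η + n) (by
        intro u hu
        rw [Set.uIoc_of_le hR] at hu
        have hu0 : 0 < u := lt_trans hη hu.1
        rw [Real.norm_eq_abs]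
        refine (abs_add_le _ _).trans (add_le_add ((f1_bound (l ω) x u hu0).trans ?_) ?_)
        · exact div_le_div_of_nonneg_left (Nat.cast_nonneg M) hη hu.1.le
        · rw [abs_mul, Nat.abs_cast]
          have := (Complex.abs_re_le_norm _).trans (msc_norm_lt (⟨x, u⟩ : ℂ) (by simpa using hu0.ne')).le
          nlinarith)
    rw [abs_of_nonneg (by linarith : 0 ≤ R - η)] at h3
    exact h3
  have hF2b : ∀ ω, |F2 ω| ≤ η * ((M / η ^ 2) * (R - η)) := by
    intro ω
    have h3 := intervalIntegral.norm_integral_le_of_norm_le_const (a := η) (b := R)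
      (f := fun u => f2 (l ω) x u) (C := M / η ^ 2) (by
        intro u hu
        rw [Set.uIoc_of_le hR] at hu
        have hu0 : 0 < u := lt_trans hη hu.1
        rw [Real.norm_eq_abs]
        refine (f2_bound (l ω) x u hu0).trans ?_
        exact div_le_div_of_nonneg_left (Nat.cast_nonneg M) (by positivity)
          (pow_le_pow_left₀ hη.le hu.1.le 2))
    rw [abs_of_nonneg (by linarith : 0 ≤ R - η)] at h3
    simp only [hF2]
    rw [abs_mul, abs_of_pos hη]
    exact mul_le_mul_of_nonneg_left h3 hη.le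
  have hF1i : Integrable (fun ω => F1 ω ^ 2) P :=
    Integrable.of_bound (hF1m.pow_const 2).aestronglyMeasurable (((M / η + n) * (R - η)) ^ 2)
      (Filter.Eventually.of_forall fun ω => by
        rw [Real.norm_eq_abs, abs_pow]; exact pow_le_pow_left₀ (abs_nonneg _) (hF1b ω) 2)
  have hF2i : Integrable (fun ω => F2 ω ^ 2) P :=
    Integrable.of_bound (hF2m.pow_const 2).aestronglyMeasurable ((η * ((M / η ^ 2) * (R - η))) ^ 2)
      (Filter.Eventually.of_forall fun ω => by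
        rw [Real.norm_eq_abs, abs_pow]; exact pow_le_pow_left₀ (abs_nonneg _) (hF2b ω) 2)
  set C0 : ℝ := 2 * ((M + n) * η / R + 4 * n / R + 1 / 2) ^ 2 with hC0
  have hGi : Integrable (fun ω => 4 * (F1 ω ^ 2 + F2 ω ^ 2 + F3 ^ 2
      + (C0 + 2 * ((∑ i, |x - l ω i|) ^ 2 / R ^ 2)))) P :=
    (((hF1i.add hF2i).add (integrable_const _)).add ((integrable_const _).add
      ((hS.div_const _).const_mul 2))).const_mul 4
  have hstep : ∫ ω, (NN (l ω) x - n * Fsc x) ^ 2 ∂P ≤ ∫ ω, 4 * (F1 ω ^ 2 + F2 ω ^ 2 + F3 ^ 2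
      + (C0 + 2 * ((∑ i, |x - l ω i|) ^ 2 / R ^ 2))) ∂P := by
    refine integral_mono_of_nonneg (Filter.Eventually.of_forall fun ω => sq_nonneg _) hGi
      (Filter.Eventually.of_forall fun ω => ?_)
    refine (hpt ω).trans ?_
    have := hc2 ω
    simp only
    linarith
  have hval : ∫ ω, 4 * (F1 ω ^ 2 + F2 ω ^ 2 + F3 ^ 2
      + (C0 + 2 * ((∑ i, |x - l ω i|) ^ 2 / R ^ 2))) ∂P
      = 4 * (∫ ω, F1 ω ^ 2 ∂P + ∫ ω, F2 ω ^ 2 ∂P + F3 ^ 2
        + (C0 + 2 * ((∫ ω, (∑ i, |x - l ω i|) ^ 2 ∂P) / R ^ 2))) := by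
    have i1 : Integrable (fun ω => F1 ω ^ 2 + F2 ω ^ 2) P := hF1i.add hF2i
    have i2 : Integrable (fun ω => F1 ω ^ 2 + F2 ω ^ 2 + F3 ^ 2) P := i1.add (integrable_const _)
    have i4 : Integrable (fun ω => 2 * ((∑ i, |x - l ω i|) ^ 2 / R ^ 2)) P := (hS.div_const _).const_mul 2
    have i3 : Integrable (fun ω => C0 + 2 * ((∑ i, |x - l ω i|) ^ 2 / R ^ 2)) P :=
      (integrable_const _).add i4
    have e4 : ∫ ω, 2 * ((∑ i, |x - l ω i|) ^ 2 / R ^ 2) ∂P = 2 * ((∫ ω, (∑ i, |x - l ω i|) ^ 2 ∂P) / R ^ 2) := by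
      rw [integral_const_mul, integral_div]
    rw [integral_const_mul, integral_add i2 i3, integral_add i1 (integrable_const _),
      integral_add hF1i hF2i, integral_add (integrable_const _) i4, e4]
    simp
  rw [hval] at hstep
  refine hstep.trans ?_
  have k1 := F1_moment (n := n) hl P hη hR hA h1
  have k2 := F2_moment (n := n) hl P hη hR hA h2
  have k3 : F3 ^ 2 ≤ (n * η * Real.log (R / η)) ^ 2 := by
    refine pow_le_pow_left₀ (mul_nonneg (by positivity) hF3b.1) ?_ 2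
    exact mul_le_mul_of_nonneg_left hF3b.2 (by positivity)
  have k4 : 2 * ((∫ ω, (∑ i, |x - l ω i|) ^ 2 ∂P) / R ^ 2) = 2 * (∫ ω, (∑ i, |x - l ω i|) ^ 2 ∂P) / R ^ 2 := by
    ring
  rw [k4]
  have k5 : ∫ ω, F1 ω ^ 2 ∂P ≤ Real.log (R / η) ^ 2 * A := k1
  have k6 : ∫ ω, F2 ω ^ 2 ∂P ≤ 2 * (n * η) ^ 2 * Real.log (R / η) ^ 2 + Real.log (R / η) * A := k2
  linarith

end Pool.Agent.ZR.I

end
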