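import Pool.Agent.ZRM.P19

/-!
# Merged form of the modules ZR.F7, ZR.H5
-/

set_option autoImplicit false

section

/-!
# ZR/F7 : the moment bound for `q`

`young_q` (elementary): for `0 ≤ u`, `0 ≤ κ ≤ δ³`, `0 < δ ≤ 1`, `p ≥ 2`:
`8p² κ (u+κ)^{2p-3}(1+u)² ≤ ½u^{2p} + C δ^{2p}`.  Since `κ ≤ δ³ ≤ δ`: if `u ≤ δ` the left side is
`≤ 8p² δ³ (2δ)^{2p-3}·4 = C δ^{2p}`.  If `u > δ`: `≤ 8p² δ³ (2u)^{2p-3}·2(1+u²) =
C_1 δ³ u^{2p-3} + C_1 δ³ u^{2p-1}`, and by Young's inequality `C_1 δ³ u^{2p-3} ≤ ¼u^{2p} + C_2 δ^{2p}`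
(exponents `2p/3`, `2p/(2p-3)`), `C_1 δ³ u^{2p-1} ≤ ¼u^{2p} + C_3 δ^{6p}` and `δ^{6p} ≤ δ^{2p}`.

`momQ`: `q = (BG)_xy + mG_xy = α(H0 G)_xy + β(W'G)_xy + mG_xy` (`qf_eq`), `qΨ = ‖q‖^{2p}` (`q_psi`),
`α² + β² = 1`, so
`EJ‖q‖^{2p} = α(EJ[(H0 G)_xy Ψ] + αEJ[mG_xyΨ]) + β(EJ[(W'G)_xyΨ] + βEJ[mG_xyΨ])`.
Let `bad σ X` be the failure of `HypM (Mx σ) Λ ∧ HypG G Γ τ` and
`bd = 6p²κ(‖q‖+κ)^{2p-3}(1+‖q‖)² + 1_bad p(10n)^{4p+10}`; it is measurable and bounded in `X`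
(the conditions in `HypG` are closed conditions on continuous functions of `X`).  By `switchQ` for each
`X` (integrate over `X`; `EU` is a finite sum so it commutes with the integral) and `gaussQ` for
each `σ`: `EJ‖q‖^{2p} ≤ (α+β)·EJ[bd'] ≤ EJ[8p²κ(..)..] + 2p(10n)^{4p+10} PJ(bad)`; hence by
`young_q` (with constant adapted: `α + β ≤ 2`, so use `16p²`; the statement `young_q` has `16p²`)
`EJ‖q‖^{2p} ≤ ½EJ‖q‖^{2p} + Cδ^{2p} + 4p(10n)^{4p+10}PJ(bad)`, and `EJ‖q‖^{2p} < ∞`.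
-/


open MeasureTheory ProbabilityTheory Matrix

namespace Pool.Agent.ZR.F

theorem young_q (p : ℕ) (hp : 2 ≤ p) : ∃ C : ℝ, 0 < C ∧ ∀ u κ δ : ℝ, 0 ≤ u → 0 ≤ κ → 0 < δ →
    δ ≤ 1 → κ ≤ δ ^ 3 →
    16 * (p : ℝ) ^ 2 * κ * (u + κ) ^ (2 * p - 3) * (1 + u) ^ 2 ≤ u ^ (2 * p) / 2 + C * δ ^ (2 * p) := by
  obtain ⟨r, rfl⟩ : ∃ r, p = r + 2 := ⟨p - 2, by omega⟩
  have e1 : 2 * (r + 2) - 3 = 2 * r + 1 := by omega
  have e2 : 2 * (r + 2) = 2 * r + 4 := by ring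
  rw [e1, e2]
  set P : ℝ := 16 * (((r + 2 : ℕ) : ℝ)) ^ 2 with hP
  have hP1 : 1 ≤ P := by
    have h1 : (2 : ℝ) ≤ ((r + 2 : ℕ) : ℝ) := by exact_mod_cast hp
    nlinarith
  set K : ℝ := 2 * P * 2 ^ (2 * r + 1) with hK
  have h2p : (1 : ℝ) ≤ 2 ^ (2 * r + 1) := one_le_pow₀ (by norm_num)
  have hK1 : 1 ≤ K := by
    have : (1 : ℝ) ≤ P * 2 ^ (2 * r + 1) := one_le_mul_of_one_le_of_one_le hP1 h2p
    nlinarith
  set L : ℝ := 4 * K with hL
  have hL1 : 1 ≤ L := by rw [hL]; linarith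
  refine ⟨P * (L + 1) ^ (2 * r + 3), by positivity, ?_⟩
  intro u κ δ hu hκ hδ hδ1 hκδ
  have hd3 : δ ^ 3 ≤ δ := by
    have : δ ^ 2 ≤ 1 := pow_le_one₀ hδ.le hδ1
    nlinarith
  have hκd : κ ≤ δ := hκδ.trans hd3
  rcases lt_or_ge u (L * δ) with h | h
  · have h1 : (u + κ) ^ (2 * r + 1) ≤ ((L + 1) * δ) ^ (2 * r + 1) :=
      pow_le_pow_left₀ (by positivity) (by nlinarith) _
    have h2 : (1 + u) ^ 2 ≤ (L + 1) ^ 2 := pow_le_pow_left₀ (by positivity) (by nlinarith) _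
    have h3 : P * κ * (u + κ) ^ (2 * r + 1) * (1 + u) ^ 2
        ≤ P * δ ^ 3 * ((L + 1) * δ) ^ (2 * r + 1) * (L + 1) ^ 2 := by
      gcongr
    have h4 : P * δ ^ 3 * ((L + 1) * δ) ^ (2 * r + 1) * (L + 1) ^ 2
        = P * (L + 1) ^ (2 * r + 3) * δ ^ (2 * r + 4) := by
      rw [mul_pow]; ring
    have h5 : 0 ≤ u ^ (2 * r + 4) / 2 := by positivity
    linarith
  · have hud : δ ≤ u := by nlinarith
    have hu0 : 0 < u := lt_of_lt_of_le hδ hud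
    have h1 : (u + κ) ^ (2 * r + 1) ≤ (2 * u) ^ (2 * r + 1) :=
      pow_le_pow_left₀ (by positivity) (by linarith) _
    have h2 : (1 + u) ^ 2 ≤ 2 * (1 + u ^ 2) := by nlinarith [sq_nonneg (1 - u)]
    have h3 : P * κ * (u + κ) ^ (2 * r + 1) * (1 + u) ^ 2
        ≤ P * δ ^ 3 * (2 * u) ^ (2 * r + 1) * (2 * (1 + u ^ 2)) := by
      gcongr
    have h4 : P * δ ^ 3 * (2 * u) ^ (2 * r + 1) * (2 * (1 + u ^ 2))
        = K * δ ^ 3 * u ^ (2 * r + 1) + K * δ ^ 3 * u ^ 2 * u ^ (2 * r + 1) := by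
      rw [mul_pow, hK]; ring
    have h5 : K * δ ^ 3 ≤ u ^ 3 / 4 := by
      have : (L * δ) ^ 3 ≤ u ^ 3 := pow_le_pow_left₀ (by positivity) h 3
      have h6 : L ≤ L ^ 3 := by
        have : 1 ≤ L ^ 2 := one_le_pow₀ hL1
        nlinarith
      have h7 : L * δ ^ 3 ≤ L ^ 3 * δ ^ 3 := mul_le_mul_of_nonneg_right h6 (by positivity)
      rw [mul_pow] at this
      rw [hL] at h7 this
      nlinarith
    have h6 : K * δ ^ 3 ≤ u / 4 := by
      have h8 : K * δ ^ 3 ≤ K * δ := mul_le_mul_of_nonneg_left hd3 (by linarith)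
      rw [hL] at h
      nlinarith
    have h7 : K * δ ^ 3 * u ^ (2 * r + 1) ≤ u ^ (2 * r + 4) / 4 := by
      calc K * δ ^ 3 * u ^ (2 * r + 1) ≤ u ^ 3 / 4 * u ^ (2 * r + 1) :=
            mul_le_mul_of_nonneg_right h5 (by positivity)
        _ = u ^ (2 * r + 4) / 4 := by ring
    have h8 : K * δ ^ 3 * u ^ 2 * u ^ (2 * r + 1) ≤ u ^ (2 * r + 4) / 4 := by
      calc K * δ ^ 3 * u ^ 2 * u ^ (2 * r + 1) ≤ u / 4 * u ^ 2 * u ^ (2 * r + 1) := by gcongr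
        _ = u ^ (2 * r + 4) / 4 := by ring
    have h9 : 0 ≤ P * (L + 1) ^ (2 * r + 3) * δ ^ (2 * r + 4) := by positivity
    linarith

/-- the good event of part F -/
def GoodF {n : ℕ} (α β : ℝ) (z : ℂ) (Λ Γ τ : ℝ) (σ : Fin n → Fin n → Bool)
    (X : Fin n × Fin n → ℝ) : Prop :=
  HypM (Mx σ) Λ ∧ HypG (Gz (Pn n) (Bm α β σ X) z) Γ τ

private theorem bm_cont {n : ℕ} (α β : ℝ) (σ : Fin n → Fin n → Bool) (k l : Fin n) :
    Continuous fun X : Fin n × Fin n → ℝ => Bm α β σ X k l := by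
  have h1 : Continuous fun X : Fin n × Fin n → ℝ => Pn n * Wv (1 / (n : ℝ)) X * Pn n :=
    (continuous_const.matrix_mul (wv_continuous _)).matrix_mul continuous_const
  have h2 : Continuous fun X : Fin n × Fin n → ℝ =>
      α • H0 σ + β • (Pn n * Wv (1 / (n : ℝ)) X * Pn n) :=
    continuous_const.add (h1.const_smul β)
  exact h2.matrix_elem k l

private theorem g_cont {n : ℕ} (α β : ℝ) {σ : Fin n → Fin n → Bool} (hσ : σ ∈ Sn n) (z : ℂ)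
    (hz : z.im ≠ 0) (k l : Fin n) :
    Continuous fun X : Fin n × Fin n → ℝ => Gz (Pn n) (Bm α β σ X) z k l :=
  continuous_gz (fun X => Bm α β σ X) (bm_cont α β σ) (fun X => pb_Bm α β σ hσ X) z hz k l

private theorem m_cont {n : ℕ} (α β : ℝ) {σ : Fin n → Fin n → Bool} (hσ : σ ∈ Sn n) (z : ℂ)
    (hz : z.im ≠ 0) :
    Continuous fun X : Fin n × Fin n → ℝ => mz (Pn n) (Bm α β σ X) z := by
  unfold mz Matrix.trace
  refine continuous_const.mul (continuous_finset_sum _ fun k _ => ?_)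
  exact g_cont α β hσ z hz k k

private theorem q_cont {n : ℕ} (α β : ℝ) {σ : Fin n → Fin n → Bool} (hσ : σ ∈ Sn n) (z : ℂ)
    (hz : z.im ≠ 0) (x y : Fin n) :
    Continuous fun X : Fin n × Fin n → ℝ => qf (Pn n) (Bm α β σ X) z x y := by
  unfold qf
  exact continuous_const.add ((continuous_const.add (m_cont α β hσ z hz)).mul
    (g_cont α β hσ z hz x y))

private theorem psi_cont {n : ℕ} (α β : ℝ) {σ : Fin n → Fin n → Bool} (hσ : σ ∈ Sn n) (z : ℂ)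
    (hz : z.im ≠ 0) (p : ℕ) (x y : Fin n) :
    Continuous fun X : Fin n × Fin n → ℝ => PsiF p (qf (Pn n) (Bm α β σ X) z x y) := by
  unfold PsiF
  exact ((q_cont α β hσ z hz x y).pow _).mul
    ((Complex.continuous_conj.comp (q_cont α β hσ z hz x y)).pow _)

theorem meas_GoodF {n : ℕ} (α β : ℝ) (z : ℂ) (hz : z.im ≠ 0) (Λ Γ τ : ℝ)
    {σ : Fin n → Fin n → Bool} (hσ : σ ∈ Sn n) :
    MeasurableSet {X : Fin n × Fin n → ℝ | GoodF α β z Λ Γ τ σ X} := by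
  by_cases hc : HypM (Mx σ) Λ ∧ 1 ≤ Γ ∧ 0 ≤ τ
  · have e : {X : Fin n × Fin n → ℝ | GoodF α β z Λ Γ τ σ X}
        = (⋂ i : Fin n, ⋂ j : Fin n,
            {X : Fin n × Fin n → ℝ | ‖Gz (Pn n) (Bm α β σ X) z i j‖ ≤ Γ})
          ∩ ⋂ y : Fin n, {X : Fin n × Fin n → ℝ |
            ∑ j, ‖Gz (Pn n) (Bm α β σ X) z j y‖ ^ 2 ≤ n * τ ^ 2} := by
      ext X
      simp only [Set.mem_setOf_eq, Set.mem_inter_iff, Set.mem_iInter]
      constructor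
      · intro h
        exact ⟨fun i j => h.2.en i j, fun y => h.2.rw y⟩
      · intro h
        exact ⟨hc.1, ⟨gz_symm (pb_Bm α β σ hσ X) z hz, h.1, h.2, hc.2.1, hc.2.2⟩⟩
    rw [e]
    refine MeasurableSet.inter ?_ ?_
    · refine MeasurableSet.iInter fun i => MeasurableSet.iInter fun j => ?_
      exact (isClosed_le (g_cont α β hσ z hz i j).norm continuous_const).measurableSet
    · refine MeasurableSet.iInter fun y => ?_
      exact (isClosed_le (continuous_finset_sum _ fun j _ =>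
        (g_cont α β hσ z hz j y).norm.pow 2) continuous_const).measurableSet
  · have e : {X : Fin n × Fin n → ℝ | GoodF α β z Λ Γ τ σ X} = ∅ := by
      ext X
      simp only [Set.mem_setOf_eq, Set.mem_empty_iff_false, iff_false]
      intro h
      exact hc ⟨h.1, h.2.gam, h.2.tau⟩
    rw [e]
    exact MeasurableSet.empty

private theorem EU_integrable {n : ℕ} {V : Type*} [NormedAddCommGroup V] [NormedSpace ℝ V]
    (f : (Fin n → Fin n → Bool) → (Fin n × Fin n → ℝ) → V)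
    (hf : ∀ σ ∈ Sn n, Integrable (f σ) (gm n)) :
    Integrable (fun X => EU fun σ => f σ X) (gm n) := by
  unfold EU
  exact (integrable_finset_sum _ hf).smul _

private theorem EU_integral {n : ℕ} {V : Type*} [NormedAddCommGroup V] [NormedSpace ℝ V]
    (f : (Fin n → Fin n → Bool) → (Fin n × Fin n → ℝ) → V)
    (hf : ∀ σ ∈ Sn n, Integrable (f σ) (gm n)) :
    ∫ X, EU (fun σ => f σ X) ∂(gm n) = EU (fun σ => ∫ X, f σ X ∂(gm n)) := by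
  unfold EU
  rw [integral_smul, integral_finset_sum _ hf]

private theorem bdd_int {n : ℕ} {V : Type*} [NormedAddCommGroup V]
    {f : (Fin n × Fin n → ℝ) → V} (hc : Continuous f) (C : ℝ) (h : ∀ X, ‖f X‖ ≤ C) :
    Integrable f (gm n) :=
  Integrable.of_bound hc.aestronglyMeasurable C (Filter.Eventually.of_forall h)

theorem momQ (p : ℕ) (hp : 2 ≤ p) : ∃ C : ℝ, 0 < C ∧ ∀ n : ℕ, 3 ≤ n → Even n →
    ∀ α β : ℝ, 0 ≤ α → 0 ≤ β → α ^ 2 + β ^ 2 = 1 →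
    ∀ z : ℂ, 0 < z.im → 1 ≤ n * z.im → ‖z‖ ≤ 3 →
    ∀ Λ Γ τ δ : ℝ, 1 ≤ Λ → 1 ≤ Γ → 0 ≤ τ → τ ≤ 1 → 32 * Γ ≤ Real.sqrt n → 0 < δ → δ ≤ 1 →
      10 ^ 9 * Λ ^ 4 * Γ ^ 7 * (τ + 1 / Real.sqrt n) ≤ δ ^ 3 → ∀ x y : Fin n,
      EJ (n := n) (fun σ X => ‖qf (Pn n) (Bm α β σ X) z x y‖ ^ (2 * p))
        ≤ C * δ ^ (2 * p) + C * (10 * n) ^ (4 * p + 10)
            * PJ (n := n) (fun σ X => ¬ GoodF α β z Λ Γ τ σ X) := by
  obtain ⟨C0, hC0, hyoung⟩ := young_q p hp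
  have hp1 : 1 ≤ p := by omega
  have hpR : (2 : ℝ) ≤ (p : ℝ) := by exact_mod_cast hp
  refine ⟨2 * C0 + 4 * p, by positivity, ?_⟩
  intro n hn hev α β hα hβ hab z hz hz1 hz3 Λ Γ τ δ hΛ hΓ hτ hτ1 h32 hδ hδ1 hκδ x y
  have hzn : z.im ≠ 0 := hz.ne'
  have hα1 : α ≤ 1 := by nlinarith
  have hβ1 : β ≤ 1 := by nlinarith
  have hn0 : (0 : ℝ) < n := by exact_mod_cast (show 0 < n by omega)
  set κ : ℝ := 10 ^ 9 * Λ ^ 4 * Γ ^ 7 * (τ + 1 / Real.sqrt n) with hκ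
  have hκ0 : 0 ≤ κ := by positivity
  have hκ1 : κ ≤ 1 := hκδ.trans (pow_le_one₀ hδ.le hδ1)
  have hκ2 : 10 ^ 9 * Γ ^ 7 * τ ≤ κ := by
    rw [hκ]
    have h1 : (1 : ℝ) ≤ Λ ^ 4 := one_le_pow₀ hΛ
    have h2 : τ ≤ τ + 1 / Real.sqrt n := by
      have : 0 ≤ 1 / Real.sqrt (n : ℝ) := by positivity
      linarith
    calc 10 ^ 9 * Γ ^ 7 * τ = 10 ^ 9 * 1 * Γ ^ 7 * τ := by ring
      _ ≤ 10 ^ 9 * Λ ^ 4 * Γ ^ 7 * (τ + 1 / Real.sqrt n) := by gcongr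
  -- abbreviations
  let q : (Fin n → Fin n → Bool) → (Fin n × Fin n → ℝ) → ℂ :=
    fun σ X => qf (Pn n) (Bm α β σ X) z x y
  let Ψ : (Fin n → Fin n → Bool) → (Fin n × Fin n → ℝ) → ℂ := fun σ X => PsiF p (q σ X)
  let fH : (Fin n → Fin n → Bool) → (Fin n × Fin n → ℝ) → ℂ :=
    fun σ X => (toC (H0 σ) * Gz (Pn n) (Bm α β σ X) z) x y * Ψ σ X
  let fW : (Fin n → Fin n → Bool) → (Fin n × Fin n → ℝ) → ℂ :=
    fun σ X => (toC (Pn n * Wv (1 / (n : ℝ)) X * Pn n) * Gz (Pn n) (Bm α β σ X) z) x y * Ψ σ X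
  let fm : (Fin n → Fin n → Bool) → (Fin n × Fin n → ℝ) → ℂ :=
    fun σ X => mz (Pn n) (Bm α β σ X) z * Gz (Pn n) (Bm α β σ X) z x y * Ψ σ X
  let big : ℝ := (p : ℝ) * (10 * n) ^ (4 * p + 10)
  have hbig : 0 ≤ big := by positivity
  let mn : (Fin n → Fin n → Bool) → (Fin n × Fin n → ℝ) → ℝ :=
    fun σ X => 6 * (p : ℝ) ^ 2 * κ * (‖q σ X‖ + κ) ^ (2 * p - 3) * (1 + ‖q σ X‖) ^ 2
  have hmn0 : ∀ σ X, 0 ≤ mn σ X := fun σ X => by positivity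
  let bad : (Fin n → Fin n → Bool) → Set (Fin n × Fin n → ℝ) :=
    fun σ => {X | ¬ GoodF α β z Λ Γ τ σ X}
  let bd : (Fin n → Fin n → Bool) → (Fin n × Fin n → ℝ) → ℝ :=
    fun σ X => mn σ X + (bad σ).indicator (fun _ => big) X
  have hind0 : ∀ σ X, 0 ≤ (bad σ).indicator (fun _ => big) X := fun σ X =>
    Set.indicator_nonneg (fun _ _ => hbig) X
  have hbd0 : ∀ σ X, 0 ≤ bd σ X := fun σ X => add_nonneg (hmn0 σ X) (hind0 σ X)
  -- crude bounds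
  have hcr : ∀ σ ∈ Sn n, ∀ X, (∀ k l, ‖Gz (Pn n) (Bm α β σ X) z k l‖ ≤ n) ∧
      ‖mz (Pn n) (Bm α β σ X) z‖ ≤ n ∧ ‖q σ X‖ ≤ 5 * (n : ℝ) ^ 2 := by
    intro σ hσ X
    have hc := crude hn α β hσ X z hz hz1 hz3
    refine ⟨fun k l => hc.2.1.en k l, ?_, hc.2.2.1 x y⟩
    have h1 := mz_norm_le (pb_Bm α β σ hσ X) z hzn
    refine h1.trans ?_
    rw [abs_of_pos hz, div_le_iff₀ hz]
    exact hz1
  have hPsi : ∀ σ ∈ Sn n, ∀ X, ‖Ψ σ X‖ ≤ (5 * (n : ℝ) ^ 2) ^ (2 * p - 1) := by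
    intro σ hσ X
    change ‖PsiF p (q σ X)‖ ≤ _
    rw [norm_psi p hp1]
    exact pow_le_pow_left₀ (norm_nonneg _) (hcr σ hσ X).2.2 _
  -- integrability
  have hqc : ∀ σ ∈ Sn n, Continuous (q σ) := fun σ hσ => q_cont α β hσ z hzn x y
  have hΨc : ∀ σ ∈ Sn n, Continuous (Ψ σ) := fun σ hσ => psi_cont α β hσ z hzn p x y
  have iH : ∀ σ ∈ Sn n, Integrable (fH σ) (gm n) := by
    intro σ hσ
    refine bdd_int ?_ ((∑ a, ‖toC (H0 σ) x a‖ * n) * (5 * (n : ℝ) ^ 2) ^ (2 * p - 1)) ?_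
    · refine Continuous.mul ?_ (hΨc σ hσ)
      simp only [Matrix.mul_apply]
      exact continuous_finset_sum _ fun a _ => continuous_const.mul (g_cont α β hσ z hzn a y)
    · intro X
      change ‖(toC (H0 σ) * Gz (Pn n) (Bm α β σ X) z) x y * Ψ σ X‖ ≤ _
      rw [norm_mul]
      refine mul_le_mul ?_ (hPsi σ hσ X) (norm_nonneg _) (by positivity)
      rw [Matrix.mul_apply]
      refine (norm_sum_le _ _).trans (Finset.sum_le_sum fun a _ => ?_)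
      rw [norm_mul]
      exact mul_le_mul_of_nonneg_left ((hcr σ hσ X).1 a y) (norm_nonneg _)
  have im : ∀ σ ∈ Sn n, Integrable (fm σ) (gm n) := by
    intro σ hσ
    refine bdd_int ?_ ((n : ℝ) * n * (5 * (n : ℝ) ^ 2) ^ (2 * p - 1)) ?_
    · exact ((m_cont α β hσ z hzn).mul (g_cont α β hσ z hzn x y)).mul (hΨc σ hσ)
    · intro X
      change ‖mz (Pn n) (Bm α β σ X) z * Gz (Pn n) (Bm α β σ X) z x y * Ψ σ X‖ ≤ _
      rw [norm_mul, norm_mul]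
      refine mul_le_mul (mul_le_mul (hcr σ hσ X).2.1 ((hcr σ hσ X).1 x y) (norm_nonneg _)
        (by positivity)) (hPsi σ hσ X) (norm_nonneg _) (by positivity)
  have iq : ∀ σ ∈ Sn n, Integrable (fun X => ‖q σ X‖ ^ (2 * p)) (gm n) := by
    intro σ hσ
    refine bdd_int ((hqc σ hσ).norm.pow _) ((5 * (n : ℝ) ^ 2) ^ (2 * p)) ?_
    intro X
    rw [Real.norm_eq_abs, abs_of_nonneg (by positivity)]
    exact pow_le_pow_left₀ (norm_nonneg _) (hcr σ hσ X).2.2 _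
  have imn : ∀ σ ∈ Sn n, Integrable (mn σ) (gm n) := by
    intro σ hσ
    refine bdd_int ?_ (6 * (p : ℝ) ^ 2 * κ * (5 * (n : ℝ) ^ 2 + κ) ^ (2 * p - 3)
      * (1 + 5 * (n : ℝ) ^ 2) ^ 2) ?_
    · exact (continuous_const.mul (((hqc σ hσ).norm.add continuous_const).pow _)).mul
        ((continuous_const.add (hqc σ hσ).norm).pow _)
    · intro X
      rw [Real.norm_eq_abs, abs_of_nonneg (hmn0 σ X)]
      have h5 := (hcr σ hσ X).2.2
      change 6 * (p : ℝ) ^ 2 * κ * (‖q σ X‖ + κ) ^ (2 * p - 3) * (1 + ‖q σ X‖) ^ 2 ≤ _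
      gcongr
  have hmeas : ∀ σ ∈ Sn n, MeasurableSet (bad σ) := fun σ hσ =>
    (meas_GoodF α β z hzn Λ Γ τ hσ).compl
  have iind : ∀ σ ∈ Sn n, Integrable ((bad σ).indicator (fun _ => big)) (gm n) := fun σ hσ =>
    (integrable_const big).indicator (hmeas σ hσ)
  have ibd : ∀ σ ∈ Sn n, Integrable (bd σ) (gm n) := fun σ hσ => (imn σ hσ).add (iind σ hσ)
  -- pointwise identity
  have hpt : ∀ σ ∈ Sn n, ∀ X, ((‖q σ X‖ ^ (2 * p) : ℝ) : ℂ)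
      = (α : ℂ) * fH σ X + (β : ℂ) * fW σ X + fm σ X := by
    intro σ hσ X
    have h1 := qf_eq (pb_Bm α β σ hσ X) z hzn x y
    have h2 : toC (Bm α β σ X) = (α : ℂ) • toC (H0 σ)
        + (β : ℂ) • toC (Pn n * Wv (1 / (n : ℝ)) X * Pn n) := by
      ext i j
      simp only [toC, Bm, Matrix.map_apply, Matrix.add_apply, Matrix.smul_apply, smul_eq_mul]
      push_cast
      rfl
    rw [h2, Matrix.add_mul, Matrix.smul_mul, Matrix.smul_mul, Matrix.add_apply, Matrix.smul_apply,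
      Matrix.smul_apply, smul_eq_mul, smul_eq_mul] at h1
    rw [← q_psi p hp1 (q σ X)]
    change q σ X * Ψ σ X = (α : ℂ) * ((toC (H0 σ) * Gz (Pn n) (Bm α β σ X) z) x y * Ψ σ X)
      + (β : ℂ) * ((toC (Pn n * Wv (1 / (n : ℝ)) X * Pn n) * Gz (Pn n) (Bm α β σ X) z) x y
        * Ψ σ X)
      + mz (Pn n) (Bm α β σ X) z * Gz (Pn n) (Bm α β σ X) z x y * Ψ σ X
    have h3 : q σ X = (α : ℂ) * (toC (H0 σ) * Gz (Pn n) (Bm α β σ X) z) x y
        + (β : ℂ) * (toC (Pn n * Wv (1 / (n : ℝ)) X * Pn n) * Gz (Pn n) (Bm α β σ X) z) x y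
        + mz (Pn n) (Bm α β σ X) z * Gz (Pn n) (Bm α β σ X) z x y := h1
    rw [h3]
    ring
  -- integrated identity
  have hint : ∀ σ ∈ Sn n, ((∫ X, ‖q σ X‖ ^ (2 * p) ∂(gm n) : ℝ) : ℂ)
      = (α : ℂ) * (∫ X, fH σ X ∂(gm n) + (α : ℂ) * ∫ X, fm σ X ∂(gm n))
        + (β : ℂ) * (∫ X, fW σ X ∂(gm n) + (β : ℂ) * ∫ X, fm σ X ∂(gm n)) := by
    intro σ hσ
    have h1 : ((∫ X, ‖q σ X‖ ^ (2 * p) ∂(gm n) : ℝ) : ℂ)
        = ∫ X, ((‖q σ X‖ ^ (2 * p) : ℝ) : ℂ) ∂(gm n) := (integral_ofReal).symm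
    have h2 : Integrable (fun X => ((‖q σ X‖ ^ (2 * p) : ℝ) : ℂ)) (gm n) := (iq σ hσ).ofReal
    have h3 : Integrable (fun X => (β : ℂ) * fW σ X) (gm n) := by
      have h4 : (fun X => (β : ℂ) * fW σ X)
          = fun X => ((‖q σ X‖ ^ (2 * p) : ℝ) : ℂ) - ((α : ℂ) * fH σ X + fm σ X) := by
        funext X
        rw [hpt σ hσ X]
        ring
      rw [h4]
      exact h2.sub (((iH σ hσ).const_mul _).add (im σ hσ))
    rw [h1]
    have h5 : (fun X => ((‖q σ X‖ ^ (2 * p) : ℝ) : ℂ))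
        = fun X => ((α : ℂ) * fH σ X + (β : ℂ) * fW σ X) + fm σ X := by
      funext X
      exact hpt σ hσ X
    have h7 : Integrable (fun X => (α : ℂ) * fH σ X) (gm n) := (iH σ hσ).const_mul _
    have h8 : Integrable (fun X => (α : ℂ) * fH σ X + (β : ℂ) * fW σ X) (gm n) := h7.add h3
    rw [h5, integral_add h8 (im σ hσ), integral_add h7 h3, integral_const_mul,
      integral_const_mul]
    have h6 : (α : ℂ) ^ 2 + (β : ℂ) ^ 2 = 1 := by exact_mod_cast hab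
    linear_combination (-∫ X, fm σ X ∂(gm n)) * h6
  -- the two estimates
  have hsw : ‖EU (fun σ => ∫ X, fH σ X ∂(gm n) + (α : ℂ) * ∫ X, fm σ X ∂(gm n))‖
      ≤ EU (fun σ => ∫ X, bd σ X ∂(gm n)) := by
    have h1 : EU (fun σ => ∫ X, fH σ X ∂(gm n) + (α : ℂ) * ∫ X, fm σ X ∂(gm n))
        = ∫ X, (EU (fun σ => fH σ X) + (α : ℂ) * EU (fun σ => fm σ X)) ∂(gm n) := by
      rw [EU_add, EU_mul_left, integral_add (EU_integrable fH iH)
        ((EU_integrable fm im).const_mul _), integral_const_mul, EU_integral fH iH,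
        EU_integral fm im]
    rw [h1, ← EU_integral bd ibd]
    refine norm_integral_le_of_norm_le (EU_integrable bd ibd) (Filter.Eventually.of_forall ?_)
    intro X
    refine switchQ hn α β hα hα1 X z hz hz1 hz3 p hp Λ Γ τ κ hΛ hΓ hτ hτ1 h32 le_rfl hκ1 x y
      (fun σ => bd σ X) ?_
    intro σ hσ
    by_cases hg : GoodF α β z Λ Γ τ σ X
    · left
      refine ⟨hg.1, hg.2, ?_⟩
      exact le_add_of_nonneg_right (hind0 σ X)
    · right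
      have h2 : (bad σ).indicator (fun _ => big) X = big := Set.indicator_of_mem hg _
      change big ≤ mn σ X + (bad σ).indicator (fun _ => big) X
      rw [h2]
      exact le_add_of_nonneg_left (hmn0 σ X)
  have hga : ‖EU (fun σ => ∫ X, fW σ X ∂(gm n) + (β : ℂ) * ∫ X, fm σ X ∂(gm n))‖
      ≤ EU (fun σ => ∫ X, bd σ X ∂(gm n)) := by
    refine (EU_norm_le _).trans (EU_mono fun σ hσ => ?_)
    refine gaussQ hn α β hβ hβ1 hσ z hz hz1 hz3 p hp Γ τ κ hΓ hτ hτ1 hκ2 hκ1 x y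
      (bd σ) (ibd σ hσ) ?_
    intro X
    by_cases hg : GoodF α β z Λ Γ τ σ X
    · left
      refine ⟨hg.2, ?_⟩
      refine le_trans ?_ (le_add_of_nonneg_right (hind0 σ X) : mn σ X ≤ bd σ X)
      change 2 * (p : ℝ) * κ * (‖q σ X‖ + κ) ^ (2 * p - 3) * (1 + ‖q σ X‖) ^ 2
        ≤ 6 * (p : ℝ) ^ 2 * κ * (‖q σ X‖ + κ) ^ (2 * p - 3) * (1 + ‖q σ X‖) ^ 2
      have h2 : 2 * (p : ℝ) ≤ 6 * (p : ℝ) ^ 2 := by nlinarith
      gcongr
    · right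
      have h2 : (bad σ).indicator (fun _ => big) X = big := Set.indicator_of_mem hg _
      change big ≤ mn σ X + (bad σ).indicator (fun _ => big) X
      rw [h2]
      exact le_add_of_nonneg_left (hmn0 σ X)
  -- conclusion
  set E : ℝ := EJ (n := n) (fun σ X => ‖qf (Pn n) (Bm α β σ X) z x y‖ ^ (2 * p)) with hE
  set D : ℝ := EU (fun σ => ∫ X, bd σ X ∂(gm n)) with hD
  have hD0 : 0 ≤ D := EU_nonneg fun σ _ => integral_nonneg (hbd0 σ)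
  have hEc : (E : ℂ) = (α : ℂ) * EU (fun σ => ∫ X, fH σ X ∂(gm n) + (α : ℂ) * ∫ X, fm σ X ∂(gm n))
      + (β : ℂ) * EU (fun σ => ∫ X, fW σ X ∂(gm n) + (β : ℂ) * ∫ X, fm σ X ∂(gm n)) := by
    have h1 : (E : ℂ) = EU (fun σ => ((∫ X, ‖q σ X‖ ^ (2 * p) ∂(gm n) : ℝ) : ℂ)) := by
      rw [hE]
      simp only [EJ, EU]
      rw [smul_eq_mul, Complex.real_smul]
      push_cast
      rfl
    rw [h1, ← EU_mul_left, ← EU_mul_left, ← EU_add]
    exact EU_congr fun σ hσ => hint σ hσ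
  have hE0 : 0 ≤ E := by
    rw [hE]
    exact EU_nonneg fun σ _ => integral_nonneg fun X => by positivity
  have hED : E ≤ 2 * D := by
    have h1 : ‖(E : ℂ)‖ = E := by rw [Complex.norm_real, Real.norm_eq_abs, abs_of_nonneg hE0]
    rw [← h1, hEc]
    refine (norm_add_le _ _).trans ?_
    rw [norm_mul, norm_mul, Complex.norm_real, Complex.norm_real, Real.norm_eq_abs,
      Real.norm_eq_abs, abs_of_nonneg hα, abs_of_nonneg hβ]
    have h2 : α * ‖EU (fun σ => ∫ X, fH σ X ∂(gm n) + (α : ℂ) * ∫ X, fm σ X ∂(gm n))‖ ≤ 1 * D :=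
      mul_le_mul hα1 hsw (norm_nonneg _) zero_le_one
    have h3 : β * ‖EU (fun σ => ∫ X, fW σ X ∂(gm n) + (β : ℂ) * ∫ X, fm σ X ∂(gm n))‖ ≤ 1 * D :=
      mul_le_mul hβ1 hga (norm_nonneg _) zero_le_one
    linarith
  set PB : ℝ := PJ (n := n) (fun σ X => ¬ GoodF α β z Λ Γ τ σ X) with hPB
  have hPB0 : 0 ≤ PB := EU_nonneg fun σ _ => measureReal_nonneg
  have hDE : 2 * D ≤ E / 2 + C0 * δ ^ (2 * p) + 2 * big * PB := by
    have h1 : 2 * D = EU (fun σ => 2 * ∫ X, bd σ X ∂(gm n)) := by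
      have := EU_smul (n := n) (2 : ℝ) (fun σ => ∫ X, bd σ X ∂(gm n))
      simpa only [smul_eq_mul] using this.symm
    have h2 : E / 2 + C0 * δ ^ (2 * p) + 2 * big * PB
        = EU (fun σ => (1 / 2 : ℝ) • (∫ X, ‖q σ X‖ ^ (2 * p) ∂(gm n)) + C0 * δ ^ (2 * p)
          + (2 * big) • (gm n).real (bad σ)) := by
      rw [EU_add, EU_add, EU_smul, EU_smul, EU_const hev, smul_eq_mul, smul_eq_mul]
      have h3 : EU (fun σ => ∫ X, ‖q σ X‖ ^ (2 * p) ∂(gm n)) = E := rfl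
      have h4 : EU (fun σ => (gm n).real (bad σ)) = PB := rfl
      rw [h3, h4]
      ring
    rw [h1, h2]
    refine EU_mono fun σ hσ => ?_
    have h3 : ∫ X, bd σ X ∂(gm n) = ∫ X, mn σ X ∂(gm n) + (gm n).real (bad σ) * big := by
      change ∫ X, (mn σ X + (bad σ).indicator (fun _ => big) X) ∂(gm n) = _
      rw [integral_add (imn σ hσ) (iind σ hσ), integral_indicator_const _ (hmeas σ hσ),
        smul_eq_mul]
    have h4 : 2 * ∫ X, mn σ X ∂(gm n)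
        ≤ (1 / 2 : ℝ) * (∫ X, ‖q σ X‖ ^ (2 * p) ∂(gm n)) + C0 * δ ^ (2 * p) := by
      have h5 : (1 / 2 : ℝ) * (∫ X, ‖q σ X‖ ^ (2 * p) ∂(gm n)) + C0 * δ ^ (2 * p)
          = ∫ X, ((1 / 2 : ℝ) * ‖q σ X‖ ^ (2 * p) + C0 * δ ^ (2 * p)) ∂(gm n) := by
        rw [integral_add ((iq σ hσ).const_mul _) (integrable_const _), integral_const_mul,
          integral_const]
        simp
      rw [h5, ← integral_const_mul]
      refine integral_mono ((imn σ hσ).const_mul _)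
        (((iq σ hσ).const_mul _).add (integrable_const _)) fun X => ?_
      have h6 := hyoung ‖q σ X‖ κ δ (norm_nonneg _) hκ0 hδ hδ1 hκδ
      change 2 * (6 * (p : ℝ) ^ 2 * κ * (‖q σ X‖ + κ) ^ (2 * p - 3) * (1 + ‖q σ X‖) ^ 2)
        ≤ (1 / 2 : ℝ) * ‖q σ X‖ ^ (2 * p) + C0 * δ ^ (2 * p)
      have h7 : 2 * (6 * (p : ℝ) ^ 2 * κ * (‖q σ X‖ + κ) ^ (2 * p - 3) * (1 + ‖q σ X‖) ^ 2)
          ≤ 16 * (p : ℝ) ^ 2 * κ * (‖q σ X‖ + κ) ^ (2 * p - 3) * (1 + ‖q σ X‖) ^ 2 := by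
        have h8 : 0 ≤ (p : ℝ) ^ 2 * κ * (‖q σ X‖ + κ) ^ (2 * p - 3) * (1 + ‖q σ X‖) ^ 2 := by
          positivity
        nlinarith
      linarith
    rw [h3, smul_eq_mul, smul_eq_mul]
    linarith
  have hfin : E ≤ 2 * C0 * δ ^ (2 * p) + 4 * big * PB := by linarith
  refine hfin.trans ?_
  have h1 : 0 ≤ (4 * (p : ℝ)) * δ ^ (2 * p) := by positivity
  have h2 : 0 ≤ 2 * C0 * (10 * (n : ℝ)) ^ (4 * p + 10) * PB := by positivity
  have h3 : 4 * big * PB = 4 * (p : ℝ) * (10 * (n : ℝ)) ^ (4 * p + 10) * PB := by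
    change 4 * ((p : ℝ) * (10 * n) ^ (4 * p + 10)) * PB = _
    ring
  rw [h3]
  nlinarith

end Pool.Agent.ZR.F

end

section

/-!
# ZR/H5 : the `L²` local law `HH1`
-/


open MeasureTheory ProbabilityTheory Matrix

namespace Pool.Agent.ZR

theorem H.large_rpow (a M : ℝ) (ha : 0 < a) : ∃ n0 : ℕ, ∀ n : ℕ, n0 ≤ n → M ≤ (n : ℝ) ^ a := by
  have h : Filter.Tendsto (fun n : ℕ => (n : ℝ) ^ a) Filter.atTop Filter.atTop :=
    (tendsto_rpow_atTop ha).comp tendsto_natCast_atTop_atTop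
  obtain ⟨n0, hn0⟩ := Filter.eventually_atTop.1 (h.eventually (Filter.eventually_ge_atTop M))
  exact ⟨n0, fun n hn => hn0 n hn⟩

theorem hh1 (hG : GMain) (hE : EMain) : HH1 := by
  obtain ⟨C1, hC1, hder⟩ := H.phi1_der hG
  obtain ⟨C2, hC2, hini⟩ := H.phi1_init hE
  intro ν hν
  obtain ⟨n1, h1⟩ := hder (ν / (4 * (C1 + 1))) (by positivity)
  obtain ⟨n2, h2⟩ := H.large_rpow (ν / 2) (2 * C2 + 352) (by positivity)
  refine ⟨max (max n1 n2) 2, fun n hn hev α β hα hβ hab z hz1 hz2 hz3 => ?_⟩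
  have hnn1 : n1 ≤ n := le_trans (le_trans (le_max_left _ _) (le_max_left _ _)) hn
  have hnn2 : n2 ≤ n := le_trans (le_trans (le_max_right _ _) (le_max_left _ _)) hn
  have hnn3 : 2 ≤ n := le_trans (le_max_right _ _) hn
  have hn1 : (1 : ℝ) ≤ n := by exact_mod_cast (by omega : 1 ≤ n)
  have hn0 : (0 : ℝ) < n := by linarith
  have hη : 0 < z.im := lt_of_lt_of_le (Real.rpow_pos_of_pos hn0 _) hz1
  have hνle : ν / (4 * (C1 + 1)) ≤ ν := by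
    rw [div_le_iff₀ (by positivity)]
    nlinarith
  have hz1' : (n : ℝ) ^ (-1 + ν / (4 * (C1 + 1))) ≤ z.im :=
    (Real.rpow_le_rpow_of_exponent_le hn1 (by linarith)).trans hz1
  have hnη : 1 ≤ n * z.im := by
    have h3 : (n : ℝ) ^ (-1 : ℝ) ≤ (n : ℝ) ^ (-1 + ν) :=
      Real.rpow_le_rpow_of_exponent_le hn1 (by linarith)
    rw [Real.rpow_neg_one] at h3
    calc (1 : ℝ) = n * (n : ℝ)⁻¹ := (mul_inv_cancel₀ hn0.ne').symm
      _ ≤ n * z.im := by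
        gcongr
        exact h3.trans hz1
  obtain ⟨θ, hθ, rfl, rfl⟩ := H.theta_of α β hα hβ hab
  obtain ⟨φ', hφ'⟩ := h1 n hnn1 hev z hz1' hz2 hz3
  have hgr := H.gron (H.phi1 n z) φ' (8 * (n : ℝ) ^ (C1 * (ν / (4 * (C1 + 1)))) / (n * z.im))
    (4 * (n : ℝ) ^ (ν / (4 * (C1 + 1))) / (n * z.im)) (by positivity) (by positivity)
    (fun θ _ => H.phi1_nonneg z θ) (fun θ h => (hφ' θ h).1) (fun θ h => (hφ' θ h).2) θ hθ
  have hi := hini n (by omega) hev z hη hz3 hnη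
  change H.phi1 n z θ ≤ _
  refine hgr.trans ?_
  set R : ℝ := 1 + 1 / (z.im + (msc z).im) ^ 2 with hR
  have hR1 : 1 ≤ R := by
    rw [hR]
    have : 0 ≤ 1 / (z.im + (msc z).im) ^ 2 := by positivity
    linarith
  have hx : ((n : ℝ) ^ (C1 * (ν / (4 * (C1 + 1))))) ^ 2 ≤ (n : ℝ) ^ (ν / 2) := by
    rw [← Real.rpow_natCast, ← Real.rpow_mul hn0.le]
    refine Real.rpow_le_rpow_of_exponent_le hn1 ?_
    push_cast
    have : C1 * (ν / (4 * (C1 + 1))) * 2 = ν / 2 * (C1 / (C1 + 1)) := by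
      field_simp
      ring
    rw [this]
    have h4 : C1 / (C1 + 1) ≤ 1 := by
      rw [div_le_one (by positivity)]
      linarith
    nlinarith
  have hy : ((n : ℝ) ^ (ν / (4 * (C1 + 1)))) ^ 2 ≤ (n : ℝ) ^ (ν / 2) := by
    rw [← Real.rpow_natCast, ← Real.rpow_mul hn0.le]
    refine Real.rpow_le_rpow_of_exponent_le hn1 ?_
    push_cast
    rw [div_mul_eq_mul_div, div_le_div_iff₀ (by positivity) (by norm_num)]
    nlinarith
  have h1' : (1 : ℝ) ≤ (n : ℝ) ^ (ν / 2) := Real.one_le_rpow hn1 (by positivity)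
  set y : ℝ := (n : ℝ) ^ (ν / 2) with hyd
  have hyy : (n : ℝ) ^ ν = y * y := by
    rw [hyd, ← Real.rpow_add hn0]
    congr 1
    ring
  have hb := h2 n hnn2
  set T : ℝ := 1 / (n * z.im) ^ 2 with hT
  have hT0 : 0 < T := by positivity
  have e1 : 5 * (8 * (n : ℝ) ^ (C1 * (ν / (4 * (C1 + 1)))) / (n * z.im)) ^ 2
      = 320 * ((n : ℝ) ^ (C1 * (ν / (4 * (C1 + 1))))) ^ 2 * T := by
    rw [hT]
    field_simp
    ring
  have e2 : 2 * (4 * (n : ℝ) ^ (ν / (4 * (C1 + 1))) / (n * z.im)) ^ 2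
      = 32 * ((n : ℝ) ^ (ν / (4 * (C1 + 1)))) ^ 2 * T := by
    rw [hT]
    field_simp
    ring
  have e3 : C2 / (n * z.im) ^ 2 * R = C2 * T * R := by
    rw [hT]
    field_simp
  have e4 : (n : ℝ) ^ ν / (n * z.im) ^ 2 * R = y * y * T * R := by
    rw [hT, hyy]
    field_simp
  rw [e1, e2, e4]
  rw [e3] at hi
  have g1 : 320 * ((n : ℝ) ^ (C1 * (ν / (4 * (C1 + 1))))) ^ 2 * T ≤ 320 * y * T * R := by
    have : 320 * ((n : ℝ) ^ (C1 * (ν / (4 * (C1 + 1))))) ^ 2 * T ≤ 320 * y * T := by gcongr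
    have h5 : 0 ≤ 320 * y * T := by positivity
    nlinarith
  have g2 : 32 * ((n : ℝ) ^ (ν / (4 * (C1 + 1)))) ^ 2 * T ≤ 32 * y * T * R := by
    have : 32 * ((n : ℝ) ^ (ν / (4 * (C1 + 1)))) ^ 2 * T ≤ 32 * y * T := by gcongr
    have h5 : 0 ≤ 32 * y * T := by positivity
    nlinarith
  have g3 : 2 * (C2 * T * R) ≤ 2 * C2 * y * T * R := by
    have h5 : 0 ≤ 2 * (C2 * T * R) := by positivity
    nlinarith
  have g4 : (2 * C2 + 352) * y * T * R ≤ y * y * T * R := by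
    have h5 : 0 ≤ y * T * R := by positivity
    nlinarith [mul_le_mul_of_nonneg_right hb h5]
  linarith

end Pool.Agent.ZR

end
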