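import Pool.Agent.ZRM.P18
import Pool.Agent.ZRM.P19

/-!
# Merged form of the modules ZR.JOne, ZR.GFb, ZR.GJt, ZR.MH, ZBL.E4
-/

set_option autoImplicit false

section

/-!
# ZR/JOne : J1 (Wegner bound for the GOE)

`Wv (1/n) X = Dw (1/n) 0 X` (`diagonal 0 = 0`).  Apply `wegner_moment k` with `τ = 1/n`, `r = R/n`:
`4 n (R/n)²/(1/n) = 4R²`, so the constant is `(2k+2)^k + C (4R²)^k`.
-/


open MeasureTheory ProbabilityTheory Matrix

namespace Pool.Agent.ZR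

theorem j1 : J1 := by
  intro k R hR
  obtain ⟨C, hC0, hC⟩ := wegner_moment k
  refine ⟨(2 * k + 2 : ℝ) ^ k + C * (4 * R ^ 2) ^ k, fun n hn x => ?_⟩
  have hn' : (0 : ℝ) < n := by exact_mod_cast hn
  have h := hC n (1 / (n : ℝ)) (fun _ => 0) x (R / n) (by positivity) (by positivity)
  have e1 : (4 * (n : ℝ) * (R / n) ^ 2 / (1 / (n : ℝ))) = 4 * R ^ 2 := by
    field_simp
  have e2 : ∀ X : Fin n × Fin n → ℝ,
      Dw (1 / (n : ℝ)) (fun _ => 0) X = Wv (N := n) (1 / (n : ℝ)) X := by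
    intro X
    unfold Dw
    have h0 : Matrix.diagonal (fun _ : Fin n => (0 : ℝ)) = 0 := by
      ext i j
      by_cases hij : i = j
      · subst hij; simp
      · simp [Matrix.diagonal_apply_ne _ hij]
    rw [h0, zero_add]
  rw [e1] at h
  simp only [e2] at h
  exact h

end Pool.Agent.ZR

end

section

/-!
# ZR, part G: the good event has overwhelming probability.

`q = n^(ν+c)`, `η₁ = n^(-1+ν)`.  Choose `n0` such that for `n ≥ n0`: the thresholds of `hB`, of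
`hF ν (D+1)` and of `hR ν (D+1)` are passed, `3 ≤ n^ν`, `K_B log n ≤ n^ν`, `2 log n ≤ n^ν`
(`isLittleO_log_rpow_atTop` or `Real.add_pow_le_pow_mul_pow_of_add_eq_one`-free elementary bounds),
`2K + 3 ≤ n`, `exp (-n) ≤ n^(-(D+1))`, `1 ≤ n`.
`n^ν ≤ q`; `η₁ = n^(-1+ν) = q n^(-1-c) ≤ q η`; `log (1/η) ≤ (1+c) log n ≤ 2 log n ≤ q`
(`1/η ≤ n^(1+c)`).
For `σ ∈ Sn n`: if `OpLe (toC (H0 σ)) (K_B log n)` and for every `w ∈ {z, z_l}` the `GamLe` event
(at `E0(w) = max (-2) (min w.re 2)`) and, if `|w.im| ≤ 1`, the event of `FRes` at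
`u = 2 max |w.im| η₁` hold, then `bd_good` gives `Gd` (`OpLe`, `GamLe` are monotone in the bound;
`toC (Mx σ) = √n • toC (H0 σ)` and `q ≤ q^25`).
So `¬ Gd` is contained in the union of `1 + 2 (K+1)` events; `Bm 1 0 σ X = H0 σ` for the first one
(probability `≤ exp (-n)`), each other one has probability `≤ n^(-(D+1))`
(`u = 2 max |w.im| η₁` satisfies `η₁ ≤ u ≤ 2 ≤ n³`); if `|w.im| > 1` the corresponding event is
empty: use the event `|w.im| ≤ 1 ∧ ∃ x y, ..`, with `pj_mono` and case distinction).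
Sum: `(2K + 3) n^(-(D+1)) ≤ n^(-D)`.
-/


open MeasureTheory ProbabilityTheory Matrix

namespace Pool.Agent.ZR.G

private theorem opLe_mono87 {N : ℕ} {A : Matrix (Fin N) (Fin N) ℂ} {L L' : ℝ} (h : OpLe A L)
    (hL : L ≤ L') : OpLe A L' := by
  obtain ⟨h0, h1⟩ := h
  refine ⟨h0.trans hL, fun u => (h1 u).trans ?_⟩
  refine mul_le_mul_of_nonneg_right ?_ (Finset.sum_nonneg fun i _ => by positivity)
  exact pow_le_pow_left₀ h0 hL 2

private theorem opLe_Mx87 {n : ℕ} (hn : 0 < n) {σ : Fin n → Fin n → Bool} {L : ℝ}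
    (h : OpLe (toC (H0 σ)) L) : OpLe (toC (Mx σ)) (Real.sqrt n * L) := by
  obtain ⟨h0, h1⟩ := h
  have hs : (0 : ℝ) < Real.sqrt n := Real.sqrt_pos.2 (by exact_mod_cast hn)
  refine ⟨by positivity, fun u => ?_⟩
  have e : ∀ i, (toC (Mx σ) *ᵥ u) i = ((Real.sqrt n : ℝ) : ℂ) * (toC (H0 σ) *ᵥ u) i := by
    intro i
    simp only [Matrix.mulVec, dotProduct, toC, H0, Matrix.map_apply, Matrix.smul_apply,
      smul_eq_mul]
    rw [Finset.mul_sum]
    refine Finset.sum_congr rfl fun j _ => ?_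
    have hc : ((Real.sqrt n : ℝ) : ℂ) ≠ 0 := by exact_mod_cast hs.ne'
    push_cast
    field_simp
  calc ∑ i, ‖(toC (Mx σ) *ᵥ u) i‖ ^ 2
      = (Real.sqrt n) ^ 2 * ∑ i, ‖(toC (H0 σ) *ᵥ u) i‖ ^ 2 := by
        rw [Finset.mul_sum]
        refine Finset.sum_congr rfl fun i _ => ?_
        rw [e i, norm_mul, mul_pow, Complex.norm_real, Real.norm_of_nonneg hs.le]
    _ ≤ (Real.sqrt n) ^ 2 * (L ^ 2 * ∑ i, ‖u i‖ ^ 2) :=
        mul_le_mul_of_nonneg_left (h1 u) (by positivity)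
    _ = (Real.sqrt n * L) ^ 2 * ∑ i, ‖u i‖ ^ 2 := by ring

private theorem bm10_87 {n : ℕ} (σ : Fin n → Fin n → Bool) (X : Fin n × Fin n → ℝ) :
    Bm 1 0 σ X = H0 σ := by
  unfold Bm
  rw [one_smul, zero_smul, add_zero]

private theorem ev87 (K : ℕ) (KB ν D : ℝ) (hν : 0 < ν) :
    ∃ n1 : ℕ, ∀ n : ℕ, n1 ≤ n → 3 ≤ (n : ℝ) ^ ν ∧ KB * Real.log n ≤ (n : ℝ) ^ ν ∧
      2 * Real.log n ≤ (n : ℝ) ^ ν ∧ (2 * (K : ℝ) + 3 ≤ n) ∧
      Real.exp (-(n : ℝ)) ≤ (n : ℝ) ^ (-(D + 1)) ∧ 1 ≤ n := by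
  have h0 : Filter.Tendsto (fun x : ℝ => x ^ ν) Filter.atTop Filter.atTop :=
    tendsto_rpow_atTop hν
  have h1 : ∀ᶠ x : ℝ in Filter.atTop, 3 ≤ x ^ ν := h0.eventually_ge_atTop 3
  have hlog : ∀ A : ℝ, ∀ᶠ x : ℝ in Filter.atTop, A * Real.log x ≤ x ^ ν := by
    intro A
    have hl := isLittleO_log_rpow_atTop hν
    have h2 := hl.bound (c := 1 / (|A| + 1)) (by positivity)
    filter_upwards [h2, Filter.eventually_ge_atTop (1 : ℝ)] with x hx hx1
    have hlx : 0 ≤ Real.log x := Real.log_nonneg hx1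
    have hxp : 0 ≤ x ^ ν := Real.rpow_nonneg (by linarith) _
    rw [Real.norm_of_nonneg hlx, Real.norm_of_nonneg hxp] at hx
    have hA : A ≤ |A| + 1 := by linarith [le_abs_self A]
    have hA0 : 0 < |A| + 1 := by positivity
    calc A * Real.log x ≤ (|A| + 1) * Real.log x := mul_le_mul_of_nonneg_right hA hlx
      _ ≤ (|A| + 1) * (1 / (|A| + 1) * x ^ ν) := mul_le_mul_of_nonneg_left hx hA0.le
      _ = x ^ ν := by field_simp
  have h5 : ∀ᶠ x : ℝ in Filter.atTop, Real.exp (-x) ≤ x ^ (-(D + 1)) := by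
    have hl : ∀ᶠ x : ℝ in Filter.atTop, (D + 1) * Real.log x ≤ x := by
      have hl := isLittleO_log_rpow_atTop (r := 1) one_pos
      have h2 := hl.bound (c := 1 / (|D + 1| + 1)) (by positivity)
      filter_upwards [h2, Filter.eventually_ge_atTop (1 : ℝ)] with x hx hx1
      have hlx : 0 ≤ Real.log x := Real.log_nonneg hx1
      rw [Real.rpow_one, Real.norm_of_nonneg hlx, Real.norm_of_nonneg (by linarith)] at hx
      have hA : D + 1 ≤ |D + 1| + 1 := by linarith [le_abs_self (D + 1)]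
      have hA0 : 0 < |D + 1| + 1 := by positivity
      calc (D + 1) * Real.log x ≤ (|D + 1| + 1) * Real.log x :=
            mul_le_mul_of_nonneg_right hA hlx
        _ ≤ (|D + 1| + 1) * (1 / (|D + 1| + 1) * x) := mul_le_mul_of_nonneg_left hx hA0.le
        _ = x := by field_simp
    filter_upwards [hl, Filter.eventually_gt_atTop (0 : ℝ)] with x hx hx0
    rw [Real.rpow_def_of_pos hx0]
    refine Real.exp_le_exp.2 ?_
    linarith
  have hall : ∀ᶠ x : ℝ in Filter.atTop, 3 ≤ x ^ ν ∧ KB * Real.log x ≤ x ^ ν ∧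
      2 * Real.log x ≤ x ^ ν ∧ (2 * (K : ℝ) + 3 ≤ x) ∧
      Real.exp (-x) ≤ x ^ (-(D + 1)) := by
    filter_upwards [h1, hlog KB, hlog 2, Filter.eventually_ge_atTop (2 * (K : ℝ) + 3), h5]
      with x a b c d e
    exact ⟨a, b, c, d, e⟩
  have hn := (tendsto_natCast_atTop_atTop (R := ℝ)).eventually hall
  obtain ⟨n1, hn1⟩ := Filter.eventually_atTop.1 hn
  refine ⟨max n1 1, fun n hn' => ?_⟩
  obtain ⟨a, b, c, d, e⟩ := hn1 n (le_trans (le_max_left _ _) hn')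
  exact ⟨a, b, c, d, e, le_trans (le_max_right _ _) hn'⟩

theorem pj_bad (hB : BNorm) (hF : FMain) (hR : FRes) : ∀ (K : ℕ) (c ν D : ℝ), 0 ≤ c →
    0 < ν → ν + c ≤ 1 / 100 → 0 < D → ∃ n0 : ℕ, ∀ n : ℕ, n0 ≤ n → Even n → ∀ (α β η : ℝ) (zl cl : Fin K → ℂ)
      (z : ℂ), Par n α β η zl cl z → (n : ℝ) ^ (-1 - c) ≤ η →
      PJ (n := n) (fun σ X => ¬ Gd α β η (((n : ℝ) ^ (ν + c)) ^ 25) zl z σ X)
        ≤ (n : ℝ) ^ (-D) := by
  intro K c ν D hc hν hνc hD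
  obtain ⟨KB, hKB, nB, hB1⟩ := hB
  obtain ⟨nF, hF1⟩ := hF ν (D + 1) hν (by linarith)
  obtain ⟨nR, hR1⟩ := hR ν (D + 1) hν (by linarith)
  obtain ⟨n1, hn1⟩ := ev87 K KB ν D hν
  refine ⟨max (max nB nF) (max nR n1), ?_⟩
  intro n hn hev α β η zl cl z hP hηn
  have hnB : nB ≤ n := le_trans (le_trans (le_max_left _ _) (le_max_left _ _)) hn
  have hnF : nF ≤ n := le_trans (le_trans (le_max_right _ _) (le_max_left _ _)) hn
  have hnR : nR ≤ n := le_trans (le_trans (le_max_left _ _) (le_max_right _ _)) hn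
  have hnn : n1 ≤ n := le_trans (le_trans (le_max_right _ _) (le_max_right _ _)) hn
  obtain ⟨g3, gKB, g2, gK, gexp, gn⟩ := hn1 n hnn
  have hn0 : (0 : ℝ) < n := by exact_mod_cast (lt_of_lt_of_le one_pos gn)
  have hn1' : (1 : ℝ) ≤ n := by exact_mod_cast gn
  have hn3 : (3 : ℝ) ≤ n := by
    have : (0 : ℝ) ≤ K := Nat.cast_nonneg K
    linarith
  set q : ℝ := (n : ℝ) ^ (ν + c) with hq
  set η₁ : ℝ := (n : ℝ) ^ (-1 + ν) with hη₁
  have hqν : (n : ℝ) ^ ν ≤ q := by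
    rw [hq]
    exact Real.rpow_le_rpow_of_exponent_le hn1' (by linarith)
  have hq3 : 3 ≤ q := g3.trans hqν
  have hη₁0 : 0 < η₁ := Real.rpow_pos_of_pos hn0 _
  have hη₁1 : η₁ ≤ 1 := by
    rw [hη₁]
    exact Real.rpow_le_one_of_one_le_of_nonpos hn1' (by linarith)
  have hs : η₁ ≤ q * η := by
    have : η₁ = q * (n : ℝ) ^ (-1 - c) := by
      rw [hη₁, hq, ← Real.rpow_add hn0]
      congr 1
      ring
    rw [this]
    exact mul_le_mul_of_nonneg_left hηn (by linarith)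
  have hη0 := hP.e0
  have hlog : Real.log (1 / η) ≤ q := by
    have h1 : (0 : ℝ) < (n : ℝ) ^ (-1 - c) := Real.rpow_pos_of_pos hn0 _
    have h2 : Real.log ((n : ℝ) ^ (-1 - c)) ≤ Real.log η := Real.log_le_log h1 hηn
    rw [Real.log_rpow hn0] at h2
    rw [one_div, Real.log_inv]
    have hl0 : 0 ≤ Real.log n := Real.log_nonneg hn1'
    have h3 : (1 + c) * Real.log n ≤ 2 * Real.log n :=
      mul_le_mul_of_nonneg_right (by linarith) hl0
    linarith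
  have hα1 : α ≤ 1 := by
    have := hP.ab
    nlinarith [sq_nonneg β, hP.a0]
  have hq25 : q ≤ q ^ 25 := by
    have h1 : (1 : ℝ) ≤ q := by linarith
    calc q = q ^ 1 := (pow_one q).symm
      _ ≤ q ^ 25 := pow_le_pow_right₀ h1 (by norm_num)
  have hnpos : 0 < n := lt_of_lt_of_le one_pos gn
  -- the events
  let AF : ℂ → (Fin n → Fin n → Bool) → (Fin n × Fin n → ℝ) → Prop := fun w σ X =>
    ¬ GamLe (Pn n) (Bm α β σ X) (max (-2) (min w.re 2)) ((n : ℝ) ^ (-1 + ν)) ((n : ℝ) ^ ν)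
  let AR : ℂ → (Fin n → Fin n → Bool) → (Fin n × Fin n → ℝ) → Prop := fun w σ X =>
    |w.im| ≤ 1 ∧ ∃ x y : Fin n, (n : ℝ) ^ ν < ‖(toC (H0 σ) * Gz (Pn n) (Bm α β σ X)
        (⟨max (-2) (min w.re 2), 2 * max |w.im| η₁⟩ : ℂ)) x y
      + (α : ℂ) * mz (Pn n) (Bm α β σ X) (⟨max (-2) (min w.re 2), 2 * max |w.im| η₁⟩ : ℂ)
        * Gz (Pn n) (Bm α β σ X) (⟨max (-2) (min w.re 2), 2 * max |w.im| η₁⟩ : ℂ) x y‖
  let A0 : (Fin n → Fin n → Bool) → (Fin n × Fin n → ℝ) → Prop := fun σ X =>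
    ¬ OpLe (toC (Bm 1 0 σ X)) (KB * Real.log n)
  have hE0 : ∀ w : ℂ, |max (-2) (min w.re 2)| ≤ 2 := by
    intro w
    rw [abs_le]
    exact ⟨le_max_left _ _, max_le (by norm_num) (min_le_right _ _)⟩
  have pF : ∀ w, PJ (AF w) ≤ (n : ℝ) ^ (-(D + 1)) := fun w =>
    hF1 n hnF hev α β hP.a0 hP.b0 hP.ab _ (hE0 w)
  have pR : ∀ w, PJ (AR w) ≤ (n : ℝ) ^ (-(D + 1)) := by
    intro w
    by_cases hw : |w.im| ≤ 1
    · have hu1 : (n : ℝ) ^ (-1 + ν) ≤ 2 * max |w.im| η₁ := by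
        have : η₁ ≤ max |w.im| η₁ := le_max_right _ _
        have h0 : 0 ≤ max |w.im| η₁ := le_trans hη₁0.le this
        rw [← hη₁]
        linarith
      have hu2 : 2 * max |w.im| η₁ ≤ (n : ℝ) ^ 3 := by
        have h1 : max |w.im| η₁ ≤ 1 := max_le hw hη₁1
        have h2 : (3 : ℝ) ^ 3 ≤ (n : ℝ) ^ 3 := pow_le_pow_left₀ (by norm_num) hn3 3
        norm_num at h2
        linarith
      refine (pj_mono ?_).trans
        (hR1 n hnR hev α β hP.a0 hP.b0 hP.ab _ (2 * max |w.im| η₁) (hE0 w) hu1 hu2)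
      intro σ _ X hA
      exact hA.2
    · refine (pj_mono ?_).trans (pF w)
      intro σ _ X hA
      exact absurd hA.1 hw
  have p0 : PJ A0 ≤ (n : ℝ) ^ (-(D + 1)) :=
    (hB1 n hnB hev 1 0 (by norm_num) le_rfl (by norm_num)).trans gexp
  have hbd : ∀ (w : ℂ), Adm n η w → ∀ σ ∈ Sn n, ∀ X : Fin n × Fin n → ℝ,
      OpLe (toC (H0 σ)) q → ¬ AF w σ X → ¬ AR w σ X →
      Bd (toC (Mx σ)) (Gz (Pn n) (Bm α β σ X) w) η (q ^ 25) := by
    intro w hw σ hσ X hH hAF hAR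
    have hAF' : GamLe (Pn n) (Bm α β σ X) (max (-2) (min w.re 2)) ((n : ℝ) ^ (-1 + ν))
        ((n : ℝ) ^ ν) := not_not.1 hAF
    refine bd_good hnpos α β hP.a0 hα1 hσ X w η η₁ q hη0 hw.1 hw.2.2 hη₁0 hq3 hs hlog hH ?_ ?_
    · intro u hu x
      exact (hAF' u hu x).trans hqν
    · intro hw1 x y
      by_contra hcon
      rw [not_le] at hcon
      exact hAR ⟨hw1, x, y, lt_of_le_of_lt hqν hcon⟩
  have hsub : PJ (n := n) (fun σ X => ¬ Gd α β η (q ^ 25) zl z σ X)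
      ≤ PJ (fun σ X => A0 σ X ∨ ((AF z σ X ∨ AR z σ X) ∨
          ∃ l, (AF (zl l) σ X ∨ AR (zl l) σ X))) := by
    refine pj_mono fun σ hσ X hG => ?_
    by_contra hcon
    rw [not_or, not_or, not_or] at hcon
    obtain ⟨h0, ⟨h1, h2⟩, h3⟩ := hcon
    have h0' : OpLe (toC (Bm 1 0 σ X)) (KB * Real.log n) := not_not.1 h0
    rw [bm10_87] at h0'
    have hH : OpLe (toC (H0 σ)) q := opLe_mono87 h0' (gKB.trans hqν)
    refine hG ⟨opLe_mono87 (opLe_Mx87 hnpos hH) ?_, hbd z hP.az σ hσ X hH h1 h2, fun l => ?_⟩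
    · exact mul_le_mul_of_nonneg_left hq25 (Real.sqrt_nonneg _)
    · have h4 : ¬ (AF (zl l) σ X ∨ AR (zl l) σ X) := fun h => h3 ⟨l, h⟩
      rw [not_or] at h4
      exact hbd (zl l) (hP.al l) σ hσ X hH h4.1 h4.2
  refine hsub.trans ?_
  refine (pj_or _ _).trans ?_
  have e1 : PJ (fun σ X => (AF z σ X ∨ AR z σ X) ∨ ∃ l, (AF (zl l) σ X ∨ AR (zl l) σ X))
      ≤ (2 + 2 * (K : ℝ)) * (n : ℝ) ^ (-(D + 1)) := by
    refine (pj_or _ _).trans ?_
    have e2 : PJ (fun σ X => AF z σ X ∨ AR z σ X) ≤ 2 * (n : ℝ) ^ (-(D + 1)) := by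
      refine (pj_or _ _).trans ?_
      linarith [pF z, pR z]
    have e3 : PJ (fun σ X => ∃ l, (AF (zl l) σ X ∨ AR (zl l) σ X))
        ≤ 2 * (K : ℝ) * (n : ℝ) ^ (-(D + 1)) := by
      refine (pj_exists (fun l σ X => AF (zl l) σ X ∨ AR (zl l) σ X)).trans ?_
      have e4 : ∀ l ∈ (Finset.univ : Finset (Fin K)),
          PJ (fun σ X => AF (zl l) σ X ∨ AR (zl l) σ X) ≤ 2 * (n : ℝ) ^ (-(D + 1)) := by
        intro l _
        refine (pj_or _ _).trans ?_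
        linarith [pF (zl l), pR (zl l)]
      refine (Finset.sum_le_sum e4).trans ?_
      rw [Finset.sum_const, Finset.card_univ, Fintype.card_fin, nsmul_eq_mul]
      linarith
    linarith
  have e5 : (2 * (K : ℝ) + 3) * (n : ℝ) ^ (-(D + 1)) ≤ (n : ℝ) ^ (-D) := by
    have h1 : (n : ℝ) * (n : ℝ) ^ (-(D + 1)) = (n : ℝ) ^ (-D) := by
      conv_lhs => rw [← Real.rpow_one (n : ℝ)]
      rw [Real.rpow_one, ← Real.rpow_one_add' hn0.le (by linarith : (1 : ℝ) + -(D + 1) ≠ 0)]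
      congr 1
      ring
    calc (2 * (K : ℝ) + 3) * (n : ℝ) ^ (-(D + 1)) ≤ (n : ℝ) * (n : ℝ) ^ (-(D + 1)) :=
          mul_le_mul_of_nonneg_right gK (Real.rpow_nonneg hn0.le _)
      _ = (n : ℝ) ^ (-D) := h1
  linarith [p0, e1, e5]

end Pool.Agent.ZR.G

end

section

/-!
# ZR, part G: the summed switching identities for a fixed Gaussian array (owner helper69).

`CycI = ∑_Adj4 [ s8 G_ji Θ + (α/√n) alt8 (xiG Θ + (1/n) G_ji ∑_l xiV_l Θ_l) ]`.
For distinct `i,j,k,l`: `cyc_identity` with `f σ = G_ji Θ`,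
`D σ = -(α/√n) (xiG Θ + (1/n) G_ji ∑_l xiV_l Θ_l)`; remainder by `jt_trap3`
(`B(s) = B + s Y`, `Y = -(2 α a/√n) Xi`, `sp1 Y ≤ 16/√n`).  For `Adj4` tuples with `k = i` or
`l = j` both `s8` and `alt8` vanish (`s8_ki`, `s8_lj`, `alt8_ki`, `alt8_lj`).
-/


open MeasureTheory ProbabilityTheory Matrix
open scoped Classical

namespace Pool.Agent.ZR.G

theorem crude_num (K : ℕ) : (72 : ℝ) * (K + 1) ≤ 2 ^ (7 + K) := by
  have h : (K : ℝ) + 1 ≤ 2 ^ K := by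
    have := (Nat.lt_two_pow_self (n := K))
    have h2 : K + 1 ≤ 2 ^ K := this
    exact_mod_cast h2
  rw [pow_add]
  nlinarith

theorem pow_to_rpow {n : ℕ} (hn : 2 ≤ n) (m : ℕ) {C : ℝ} (hC : (m : ℝ) ≤ C) :
    (n : ℝ) ^ m ≤ (n : ℝ) ^ C := by
  rw [← Real.rpow_natCast]
  apply Real.rpow_le_rpow_of_exponent_le _ hC
  have : (2 : ℝ) ≤ n := by exact_mod_cast hn
  linarith

theorem sq_pow4 {n : ℕ} (hn : 0 < n) :
    (n : ℝ) ^ 4 * (1 / Real.sqrt n) ^ 3 = (n : ℝ) ^ 2 * Real.sqrt n := by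
  have hs : 0 < Real.sqrt n := Real.sqrt_pos.2 (by exact_mod_cast hn)
  have h : Real.sqrt n ^ 2 = n := Real.sq_sqrt (Nat.cast_nonneg n)
  rw [one_div, inv_pow, ← div_eq_mul_inv, div_eq_iff (by positivity)]
  calc (n : ℝ) ^ 4 = n ^ 2 * (n * n) := by ring
    _ = n ^ 2 * (Real.sqrt n ^ 2 * Real.sqrt n ^ 2) := by rw [h]
    _ = _ := by ring

theorem sq_pow3 {n : ℕ} (hn : 0 < n) :
    (n : ℝ) ^ 3 * (1 / Real.sqrt n) = (n : ℝ) ^ 2 * Real.sqrt n := by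
  have hs : 0 < Real.sqrt n := Real.sqrt_pos.2 (by exact_mod_cast hn)
  have h : Real.sqrt n * Real.sqrt n = n := Real.mul_self_sqrt (Nat.cast_nonneg n)
  rw [mul_one_div, div_eq_iff hs.ne']
  calc (n : ℝ) ^ 3 = n ^ 2 * n := by ring
    _ = n ^ 2 * (Real.sqrt n * Real.sqrt n) := by rw [h]
    _ = _ := by ring

theorem sw_cyc (K : ℕ) : ∃ C : ℝ, 0 < C ∧ ∀ (n : ℕ) (α β η : ℝ) (zl cl : Fin K → ℂ) (z : ℂ),
    Par n α β η zl cl z → ∀ Γ : ℝ, 0 ≤ Γ → 32 * Γ ≤ Real.sqrt n → ∀ X : Fin n × Fin n → ℝ,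
      ‖EU (fun σ => CycI α β zl cl z σ X)‖ ≤ EU (fun σ => if EnAll α β Γ zl z σ X then
        C * Γ ^ 4 * ((n : ℝ) ^ 2 * Real.sqrt n) * Xw (Pn n) (Bm α β σ X) zl cl (1 / (n * η))
        else (n : ℝ) ^ C) := by
  refine ⟨48 * 32768 * 8 ^ (K + 1) + (5 * K + 18), by positivity, ?_⟩
  intro n α β η zl cl z hp Γ hΓ0 hΓ X
  have hn := par_n hp
  have hn1 : (1 : ℝ) ≤ n := by linarith
  have hn0 : 0 < n := by have := hp.n2; omega
  have hs : 0 < Real.sqrt n := Real.sqrt_pos.2 (by exact_mod_cast hn0)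
  refine (cyc_sum hp hΓ0 hΓ X).trans ?_
  have e : (n : ℝ) ^ 4 * (4 * EU (fun σ => rJ α β η Γ zl cl z X σ))
      = EU (fun σ => (n : ℝ) ^ 4 * 4 * rJ α β η Γ zl cl z X σ) := by
    have := EU_smul ((n : ℝ) ^ 4 * 4) (fun σ => rJ α β η Γ zl cl z X σ)
    simp only [smul_eq_mul] at this
    rw [this]
    ring
  rw [e]
  refine EU_mono fun σ _ => ?_
  by_cases hE : EnAll α β Γ zl z σ X
  · rw [rJ, if_pos hE, if_pos hE]
    have hX := Xw_nonneg (cl := cl) hp X σ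
    have h1 : (n : ℝ) ^ 4 * 4 * (6 * (2 * Γ * Xw (Pn n) (Bm α β σ X) zl cl (1 / (n * η)))
        * (2 ^ (K + 1) * (2 * Γ * (16 / Real.sqrt n))) ^ 3)
        = (48 * 32768 * 8 ^ (K + 1)) * Γ ^ 4 * ((n : ℝ) ^ 4 * (1 / Real.sqrt n) ^ 3)
          * Xw (Pn n) (Bm α β σ X) zl cl (1 / (n * η)) := by
      have h8 : (8 : ℝ) ^ (K + 1) = (2 ^ (K + 1)) ^ 3 := by
        rw [← pow_mul, mul_comm, pow_mul]
        norm_num
      rw [h8]
      ring
    rw [h1, sq_pow4 hn0]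
    have hK : (0 : ℝ) ≤ 5 * K + 18 := by positivity
    gcongr
    linarith
  · rw [rJ, if_neg hE, if_neg hE]
    have h1 : (n : ℝ) ^ 4 * 4 * (18 * (K + 1) * (n : ℝ) ^ (4 * K + 7))
        = (72 * (K + 1)) * (n : ℝ) ^ (4 * K + 11) := by ring
    rw [h1]
    have h2 : (72 : ℝ) * (K + 1) ≤ (n : ℝ) ^ (7 + K) :=
      (crude_num K).trans (pow_le_pow_left₀ (by norm_num) hn _)
    have h3 : (72 * (K + 1)) * (n : ℝ) ^ (4 * K + 11) ≤ (n : ℝ) ^ (5 * K + 18) := by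
      calc _ ≤ (n : ℝ) ^ (7 + K) * (n : ℝ) ^ (4 * K + 11) := by gcongr
        _ = (n : ℝ) ^ (5 * K + 18) := by
          rw [← pow_add]
          congr 1
          ring
    refine h3.trans (pow_to_rpow hp.n2 _ ?_)
    push_cast
    have : (0 : ℝ) ≤ 48 * 32768 * 8 ^ (K + 1) := by positivity
    linarith

theorem sw_pth (K : ℕ) : ∃ C : ℝ, 0 < C ∧ ∀ (n : ℕ) (α β η : ℝ) (zl cl : Fin K → ℂ) (z : ℂ),
    Par n α β η zl cl z → ∀ Γ : ℝ, 0 ≤ Γ → 32 * Γ ≤ Real.sqrt n → ∀ X : Fin n × Fin n → ℝ,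
      ‖EU (fun σ => PthI α β zl cl z σ X)‖ ≤ EU (fun σ => if EnAll α β Γ zl z σ X then
        C * Γ ^ 2 * ((n : ℝ) ^ 2 * Real.sqrt n) * Xw (Pn n) (Bm α β σ X) zl cl (1 / (n * η))
        else (n : ℝ) ^ C) := by
  refine ⟨256 * 2 ^ (K + 1) + (5 * K + 18), by positivity, ?_⟩
  intro n α β η zl cl z hp Γ hΓ0 hΓ X
  have hn := par_n hp
  have hn1 : (1 : ℝ) ≤ n := by linarith
  have hn0 : 0 < n := by have := hp.n2; omega
  have hs : 0 < Real.sqrt n := Real.sqrt_pos.2 (by exact_mod_cast hn0)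
  refine (pth_sum hp hΓ0 hΓ X).trans ?_
  have e : (n : ℝ) ^ 3 * (4 * EU (fun σ => rP α β η Γ zl cl z X σ))
      = EU (fun σ => (n : ℝ) ^ 3 * 4 * rP α β η Γ zl cl z X σ) := by
    have := EU_smul ((n : ℝ) ^ 3 * 4) (fun σ => rP α β η Γ zl cl z X σ)
    simp only [smul_eq_mul] at this
    rw [this]
    ring
  rw [e]
  refine EU_mono fun σ _ => ?_
  by_cases hE : EnAll α β Γ zl z σ X
  · rw [rP, if_pos hE, if_pos hE]
    have hX := Xw_nonneg (cl := cl) hp X σ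
    have h1 : (n : ℝ) ^ 3 * 4 * (2 * Γ * Xw (Pn n) (Bm α β σ X) zl cl (1 / (n * η))
        * (2 ^ (K + 1) * (2 * Γ * (16 / Real.sqrt n))))
        = (256 * 2 ^ (K + 1)) * Γ ^ 2 * ((n : ℝ) ^ 3 * (1 / Real.sqrt n))
          * Xw (Pn n) (Bm α β σ X) zl cl (1 / (n * η)) := by
      ring
    rw [h1, sq_pow3 hn0]
    have hK : (0 : ℝ) ≤ 5 * K + 18 := by positivity
    gcongr
    linarith
  · rw [rP, if_neg hE, if_neg hE]
    have h1 : (n : ℝ) ^ 3 * 4 * (2 * (n : ℝ) ^ (4 * K + 2)) = 8 * (n : ℝ) ^ (4 * K + 5) := by ring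
    rw [h1]
    have h2 : (8 : ℝ) ≤ (n : ℝ) ^ 3 := by
      calc (8 : ℝ) = 2 ^ 3 := by norm_num
        _ ≤ (n : ℝ) ^ 3 := pow_le_pow_left₀ (by norm_num) hn _
    have h3 : 8 * (n : ℝ) ^ (4 * K + 5) ≤ (n : ℝ) ^ (5 * K + 18) := by
      calc _ ≤ (n : ℝ) ^ 3 * (n : ℝ) ^ (4 * K + 5) := by gcongr
        _ = (n : ℝ) ^ (4 * K + 8) := by ring
        _ ≤ (n : ℝ) ^ (5 * K + 18) := pow_le_pow_right₀ hn1 (by omega)
    refine h3.trans (pow_to_rpow hp.n2 _ ?_)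
    push_cast
    have : (0 : ℝ) ≤ 256 * 2 ^ (K + 1) := by positivity
    linarith

end Pool.Agent.ZR.G

end

section

/-!
# ZR/MH : comparison of `H_0` with the relocated ensemble at scale `n^(-1-c)`

PROOF of `chain_H`.  Let `C` be the constant of `HH2 k`; choose
`c = δ/(40 (C + k + 5))` (so `c < 1`, `4C c ≤ δ/10`, `(2k+5) c ≤ δ/8`), `θ = (k+2) c < δ/8`,
`ν = c/2`.  `Bm 1 0 σ X = H0 σ` and `im_mz_Pn`: `HH2` (with `κ0 = (2 - |E| - c0)/2`, `ν' = c`) gives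
`|EU ∏ imF(vecP (H0 σ)) - EJ ∏ imF(vecP (Bm α β σ X))| ≤ n^(-δ + 2Cc) ≤ n^(-δ/2)`
(`EJ` of a function of `σ` only is `EU`; `|y_j| ≤ |E| + c0/2 ≤ 2 - κ0`).
`chain_avg` with these parameters: exponents `2c + θ - δ/2 + kc + ν ≤ -δ/4` and
`-θ + kc + ν = -2c + c/2 ≤ -c`.  Take `e0 = c/2`.
-/


open MeasureTheory ProbabilityTheory Matrix

namespace Pool.Agent.ZR

private theorem mh_EU_congr {n : ℕ} {f g : Pat n → ℝ} (h : ∀ σ ∈ Sn n, f σ = g σ) :
    EU f = EU g := by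
  unfold EU
  rw [Finset.sum_congr rfl h]

private theorem mh_prob (n : ℕ) : IsProbabilityMeasure (gm n) := by
  unfold gm
  infer_instance

theorem chain_H (h0 : J0) (h1 : J1) (h2 : J2) (h3 : J3) (hS : KStat) (hF : FMain) (hB : BNorm)
    (hW : IW1) (hC : ICnt) (hG : ICntG) (hH : HH2) (k : ℕ) (E δ κ c0 : ℝ) (hδ : 0 < δ)
    (hδ1 : δ < 1) (hc0 : 0 < c0) (hE : |E| + c0 < 2) (hκ : 0 < κ) (hκ2 : κ ≤ 1 / 2)
    (hk1 : κ < Fsc (E - c0)) (hk2 : Fsc (E + c0) < 1 - κ) :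
    ∃ c θ e0 : ℝ, 0 < c ∧ 0 < θ ∧ θ < δ / 8 ∧ 0 < e0 ∧
      ∃ n0 : ℕ, ∀ n : ℕ, n0 ≤ n → Even n → ∀ y : Fin k → ℝ, (∀ j, |y j - E| ≤ c0 / 2) →
        |(EU (fun σ : Pat n => ∏ j, imF n (vecP (H0 σ)) (y j) ((n : ℝ) ^ (-1 - c))))
          - ∫ ω, ∏ j, imF n (vecS (AA n δ E κ c0 θ ω)) (y j) ((n : ℝ) ^ (-1 - c)) ∂(P3 n)|
          ≤ (n : ℝ) ^ (-e0) := by
  obtain ⟨C, hCpos, hHk⟩ := hH k
  have hk0 : (0 : ℝ) ≤ k := Nat.cast_nonneg k
  have hden : 0 < 40 * (C + k + 5) := by positivity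
  obtain ⟨c, hc⟩ : ∃ c : ℝ, c = δ / (40 * (C + k + 5)) := ⟨_, rfl⟩
  have hcpos : 0 < c := by rw [hc]; positivity
  have hcmul : 40 * (C + k + 5) * c = δ := by rw [hc]; field_simp
  have hCc : 0 ≤ C * c := by positivity
  have hkc : 0 ≤ (k : ℝ) * c := by positivity
  have hexpand : 40 * (C * c) + 40 * (k * c) + 200 * c = δ := by rw [← hcmul]; ring
  have hc1 : c < 1 := by linarith
  have hθpos : 0 < (k + 2 : ℝ) * c := by positivity
  have hθexp : (k + 2 : ℝ) * c = k * c + 2 * c := by ring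
  have hE0 : 0 ≤ |E| := abs_nonneg E
  -- the two inputs
  obtain ⟨n1, hn1⟩ := hHk ((2 - |E| - c0) / 2) δ c c (by linarith) hδ hδ1 hcpos hc1 hcpos
  obtain ⟨n2, hn2⟩ := chain_avg h0 h1 h2 h3 hS hF hB hW hC hG k E δ c (c / 2) κ c0
    ((k + 2 : ℝ) * c) hδ hδ1 hcpos.le (by linarith) hc0 hE hκ hκ2 hk1 hk2 hθpos (by linarith)
    (by linarith)
  -- eventually `3 ≤ n ^ c`
  have hlim : Filter.Tendsto (fun n : ℕ => (n : ℝ) ^ c) Filter.atTop Filter.atTop :=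
    (tendsto_rpow_atTop hcpos).comp tendsto_natCast_atTop_atTop
  obtain ⟨n3, hn3⟩ := Filter.eventually_atTop.mp (hlim.eventually_ge_atTop 3)
  refine ⟨c, (k + 2 : ℝ) * c, c / 2, hcpos, hθpos, by linarith, by linarith,
    max (max n1 n2) (max n3 1), fun n hn hev y hy => ?_⟩
  have hnn1 : n1 ≤ n := le_trans (le_trans (le_max_left _ _) (le_max_left _ _)) hn
  have hnn2 : n2 ≤ n := le_trans (le_trans (le_max_right _ _) (le_max_left _ _)) hn
  have hnn3 : n3 ≤ n := le_trans (le_trans (le_max_left _ _) (le_max_right _ _)) hn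
  have hnpos : 0 < n := le_trans (le_trans (le_max_right _ _) (le_max_right _ _)) hn
  have hnR : (1 : ℝ) ≤ n := by exact_mod_cast hnpos
  have hnR0 : (0 : ℝ) < n := by linarith
  have hη : 0 < (n : ℝ) ^ (-1 - c) := Real.rpow_pos_of_pos hnR0 _
  -- first comparison
  have A1 := hn1 n hnn1 hev (fun j => (⟨y j, (n : ℝ) ^ (-1 - c)⟩ : ℂ)) (by
    intro j
    refine ⟨rfl, ?_⟩
    have hyj := hy j
    have h4 : |y j| ≤ |E| + c0 / 2 := by
      have := abs_sub_abs_le_abs_sub (y j) E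
      linarith
    show |y j| ≤ _
    linarith)
  have A2 := hn2 n hnn2 hev y (fun _ => (n : ℝ) ^ (-1 - c)) hy (by
    intro j
    refine ⟨le_rfl, ?_⟩
    have h5 : (n : ℝ) ^ (-1 - c) ≤ (n : ℝ) ^ (-1 : ℝ) :=
      Real.rpow_le_rpow_of_exponent_le hnR (by linarith)
    have h6 : (n : ℝ) ^ (-1 : ℝ) = 1 / (n : ℝ) := by
      rw [Real.rpow_neg_one, one_div]
    rw [← h6]
    exact h5)
  -- rewriting of the two joint expectations
  have R1 : EJ (n := n) (fun σ X => ∏ j : Fin k, (mz (Pn n) (Bm 1 0 σ X)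
        (⟨y j, (n : ℝ) ^ (-1 - c)⟩ : ℂ)).im)
      = EU (fun σ : Pat n => ∏ j, imF n (vecP (H0 σ)) (y j) ((n : ℝ) ^ (-1 - c))) := by
    unfold EJ
    apply mh_EU_congr
    intro σ hσ
    have hprob := mh_prob n
    have h7 : ∀ X : Arr n, (∏ j : Fin k, (mz (Pn n) (Bm 1 0 σ X)
        (⟨y j, (n : ℝ) ^ (-1 - c)⟩ : ℂ)).im)
        = ∏ j, imF n (vecP (H0 σ)) (y j) ((n : ℝ) ^ (-1 - c)) := by
      intro X
      refine Finset.prod_congr rfl fun j _ => ?_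
      rw [Bm_one_zero, im_mz_Pn hnpos _ (pb_H0 σ hσ) _ hη]
    simp only [h7]
    simp
  have R2 : EJ (n := n) (fun σ X => ∏ j : Fin k, (mz (Pn n)
        (Bm (Real.exp (-((n : ℝ) ^ (-δ)) / 2)) (Real.sqrt (1 - Real.exp (-((n : ℝ) ^ (-δ)))))
          σ X) (⟨y j, (n : ℝ) ^ (-1 - c)⟩ : ℂ)).im)
      = EJ (n := n) (fun σ X => ∏ j, imF n (vecP (Bm (Real.exp (-((n : ℝ) ^ (-δ)) / 2))
              (Real.sqrt (1 - Real.exp (-((n : ℝ) ^ (-δ))))) σ X)) (y j)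
                ((n : ℝ) ^ (-1 - c))) := by
    unfold EJ
    apply mh_EU_congr
    intro σ hσ
    congr 1
    funext X
    refine Finset.prod_congr rfl fun j _ => ?_
    rw [im_mz_Pn hnpos _ (pb_Bm _ _ σ hσ X) _ hη]
  rw [R1, R2] at A1
  -- exponents
  have hmono : ∀ a : ℝ, a ≤ -(3 / 2 * c) → (n : ℝ) ^ a ≤ (n : ℝ) ^ (-(3 / 2 * c)) :=
    fun a ha => Real.rpow_le_rpow_of_exponent_le hnR ha
  have B1 := hmono (-δ + C * (c + c)) (by
    have : C * (c + c) = 2 * (C * c) := by ring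
    rw [this]; linarith)
  have B2 := hmono (2 * c + (k + 2 : ℝ) * c - δ / 2 + k * c + c / 2) (by
    rw [hθexp]; linarith)
  have B3 := hmono (-((k + 2 : ℝ) * c) + k * c + c / 2) (by
    rw [hθexp]; linarith)
  have hsplit : (n : ℝ) ^ (-(c / 2)) = (n : ℝ) ^ (-(3 / 2 * c)) * (n : ℝ) ^ c := by
    rw [← Real.rpow_add hnR0]
    congr 1
    ring
  have h3n := hn3 n hnn3
  have hpos : 0 < (n : ℝ) ^ (-(3 / 2 * c)) := Real.rpow_pos_of_pos hnR0 _
  have hfin : 3 * (n : ℝ) ^ (-(3 / 2 * c)) ≤ (n : ℝ) ^ (-(c / 2)) := by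
    rw [hsplit]
    nlinarith
  have A2' := A2
  rw [abs_sub_comm] at A2'
  refine le_trans (abs_sub_le _ (EJ (n := n) (fun σ X => ∏ j, imF n
      (vecP (Bm (Real.exp (-((n : ℝ) ^ (-δ)) / 2))
              (Real.sqrt (1 - Real.exp (-((n : ℝ) ^ (-δ))))) σ X)) (y j)
                ((n : ℝ) ^ (-1 - c)))) _) ?_
  linarith

end Pool.Agent.ZR

end

section

/-!
# ZBL/E4 : exponential moments of the labelled statistics, `K1.KExp`, and `KFinal`

Proof.  Let `C0` be as in `LabF_energy`, `κ = C0/|J|`, `F = LabF J m s G`, bounded by `M`,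
`f X = F (evv v X) = Lab J m s G (Wv v X)` (`LabF_eq`), measurable (`evv_lip`, `LabF_lip`: continuous).
For `t : ℝ` apply `brascamp` to `Φ x = exp (t/2 * F x)` and `w x = (t²/4) κ exp (t * F x)`:
`Φ` is differentiable with `fderiv Φ x k = (t/2) Φ x * fderiv F x k`, so
`(fderiv Φ x k)² = (t²/4) exp(t F x) (fderiv F x k)² ≤ w x * QF x k`; `Φ` is bounded by
`exp(|t| M/2)` and Lipschitz (composition of the Lipschitz `F`, with values in `[-M, M]`, and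
`y ↦ exp(t y/2)`, which is Lipschitz on `[-M, M]`: `|e^a - e^b| ≤ e^{max} |a - b|`); `w ≥ 0` is
continuous and bounded.  The conclusion is
  `∫ exp(t f) - (∫ exp(t/2 f))² ≤ (t²/4) κ ∫ exp(t f)`     (all `t`),
the hypothesis of `K1.herbst` (`ZR/KHerbst.lean`), which gives
`log ∫ exp(θ (f - ∫ f)) ≤ θ² κ` whenever `θ² κ ≤ 1`, i.e. `K1.KExp`.
`kFinal` is `K1.kFinal_of_exp kExp`.
-/


open MeasureTheory ProbabilityTheory Matrix

namespace Pool.Agent.ZR.BL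

lemma abs_exp_sub_exp_le' {a b c : ℝ} (ha : a ≤ c) (hb : b ≤ c) :
    |Real.exp a - Real.exp b| ≤ Real.exp c * |a - b| := by
  wlog h : b ≤ a generalizing a b
  · have := this hb ha (le_of_not_ge h)
    rwa [abs_sub_comm, abs_sub_comm a b]
  rw [abs_of_nonneg (sub_nonneg.mpr (Real.exp_le_exp.mpr h)), abs_of_nonneg (sub_nonneg.mpr h)]
  have h1 : Real.exp b = Real.exp a * Real.exp (b - a) := by
    rw [← Real.exp_add]; congr 1; ring
  have h2 := Real.add_one_le_exp (b - a)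
  have h3 : Real.exp a - Real.exp b ≤ Real.exp a * (a - b) := by
    rw [h1]
    nlinarith [Real.exp_pos a]
  refine h3.trans (mul_le_mul_of_nonneg_right (Real.exp_le_exp.mpr ha) (sub_nonneg.mpr h))

theorem kExp : K1.KExp := by
  intro r G hG hGc
  obtain ⟨C0, hC0, hen⟩ := LabF_energy G hG hGc
  refine ⟨C0, hC0, ?_⟩
  intro n J m s v θ hn hJ hv hJm hθ
  obtain ⟨M, hM⟩ : ∃ M, ∀ x, |G x| ≤ M := by
    obtain ⟨M, hM⟩ := hGc.exists_bound_of_continuous hG.continuous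
    exact ⟨M, fun x => by simpa using hM x⟩
  have hM0 : 0 ≤ M := le_trans (abs_nonneg _) (hM 0)
  have hJc : (0 : ℝ) < J.card := by exact_mod_cast hJ.card_pos
  set κ : ℝ := C0 / (J.card : ℝ) with hκ
  have hκ0 : 0 ≤ κ := by positivity
  set F : (Fin n → ℝ) → ℝ := LabF (n := n) J m s G with hF
  have hFb : ∀ x, |F x| ≤ M := fun x => LabF_bdd J m s hM x
  have hFd : Differentiable ℝ F := LabF_diff J m s hG
  obtain ⟨KF, hKF⟩ := LabF_lip (n := n) J m s hG hGc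
  obtain ⟨Ke, hKe⟩ := evv_lip (n := n) v
  have hLab : ∀ X : Fin n × Fin n → ℝ, Lab J m s G (Wv v X) = F (evv v X) :=
    fun X => LabF_eq J m s v G hJm X
  have hFc : Continuous F := hKF.continuous
  have hcont : Continuous (fun X : Fin n × Fin n → ℝ => F (evv v X)) := hFc.comp hKe.continuous
  have hV : ∀ t : ℝ, ∫ X, Real.exp (t * F (evv v X)) ∂(gm n)
      - (∫ X, Real.exp (t / 2 * F (evv v X)) ∂(gm n)) ^ 2
      ≤ t ^ 2 / 4 * κ * ∫ X, Real.exp (t * F (evv v X)) ∂(gm n) := by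
    intro t
    set c : ℝ := |t| / 2 * M with hc
    have hle : ∀ x, t / 2 * F x ≤ c := by
      intro x
      have h1 : t / 2 * F x ≤ |t / 2 * F x| := le_abs_self _
      rw [abs_mul, abs_div, abs_of_pos (by norm_num : (0 : ℝ) < 2)] at h1
      exact h1.trans (mul_le_mul_of_nonneg_left (hFb x) (by positivity))
    have hsq : ∀ x, Real.exp (t / 2 * F x) ^ 2 = Real.exp (t * F x) := by
      intro x
      rw [← Real.exp_nat_mul]; congr 1; push_cast; ring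
    have hΦL : LipschitzWith (Real.toNNReal (Real.exp c * (|t| / 2) * KF))
        (fun x => Real.exp (t / 2 * F x)) := by
      refine LipschitzWith.of_dist_le_mul fun x y => ?_
      rw [Real.coe_toNNReal _ (by positivity), Real.dist_eq]
      have h1 := abs_exp_sub_exp_le' (hle x) (hle y)
      have h2 : |t / 2 * F x - t / 2 * F y| = |t| / 2 * |F x - F y| := by
        rw [← mul_sub, abs_mul, abs_div, abs_of_pos (by norm_num : (0 : ℝ) < 2)]
      have h3 : |F x - F y| ≤ KF * dist x y := by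
        have := hKF.dist_le_mul x y
        rwa [Real.dist_eq] at this
      calc |Real.exp (t / 2 * F x) - Real.exp (t / 2 * F y)|
          ≤ Real.exp c * |t / 2 * F x - t / 2 * F y| := h1
        _ = Real.exp c * (|t| / 2) * |F x - F y| := by rw [h2]; ring
        _ ≤ Real.exp c * (|t| / 2) * (KF * dist x y) :=
            mul_le_mul_of_nonneg_left h3 (by positivity)
        _ = Real.exp c * (|t| / 2) * KF * dist x y := by ring
    have hΦd : Differentiable ℝ (fun x => Real.exp (t / 2 * F x)) :=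
      (hFd.const_mul (t / 2)).exp
    have hfd : ∀ x k : Fin n → ℝ, fderiv ℝ (fun x => Real.exp (t / 2 * F x)) x k
        = Real.exp (t / 2 * F x) * (t / 2 * fderiv ℝ F x k) := by
      intro x k
      have h1 : HasFDerivAt (fun x => Real.exp (t / 2 * F x))
          (Real.exp (t / 2 * F x) • ((t / 2) • fderiv ℝ F x)) x :=
        (((hFd x).hasFDerivAt).const_mul (t / 2)).exp
      rw [h1.fderiv]
      simp [smul_eq_mul]
    have key := brascamp hv (Φ := fun x => Real.exp (t / 2 * F x))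
      (w := fun x => t ^ 2 / 4 * κ * Real.exp (t * F x)) hΦd hΦL
      ⟨Real.exp c, fun x => by
        rw [abs_of_pos (Real.exp_pos _)]; exact Real.exp_le_exp.mpr (hle x)⟩
      (fun x => by positivity)
      ((Real.measurable_exp.comp (hFc.measurable.const_mul t)).const_mul _)
      ⟨t ^ 2 / 4 * κ * Real.exp c ^ 2, fun x => by
        rw [← hsq x]
        refine mul_le_mul_of_nonneg_left ?_ (by positivity)
        exact pow_le_pow_left₀ (Real.exp_pos _).le (Real.exp_le_exp.mpr (hle x)) 2⟩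
      (fun x _ k hk => by
        rw [hfd x k]
        have h1 := hen n J m s hJ hJm x k hk
        have h2 : (Real.exp (t / 2 * F x) * (t / 2 * fderiv ℝ F x k)) ^ 2
            = t ^ 2 / 4 * Real.exp (t * F x) * (fderiv ℝ F x k) ^ 2 := by
          rw [← hsq x]; ring
        rw [h2]
        calc t ^ 2 / 4 * Real.exp (t * F x) * (fderiv ℝ F x k) ^ 2
            ≤ t ^ 2 / 4 * Real.exp (t * F x) * (κ * QF x k) :=
              mul_le_mul_of_nonneg_left h1 (by positivity)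
          _ = _ := by ring)
    simp only [hsq, integral_const_mul] at key
    exact key
  simp only [hLab]
  exact K1.herbst (gm n) (fun X => F (evv v X)) hcont.measurable M hM0 (fun X => hFb _) κ hκ0 hV θ hθ

theorem kFinal : KFinal := K1.kFinal_of_exp kExp

end Pool.Agent.ZR.BL

end
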