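import Pool.Agent.ZRM.P24

/-!
# Merged form of the modules ZR.GPd, ZR.JFour, ZR.H7
-/

set_option autoImplicit false

section

/-!
# ZR, part G: the main estimate for a fixed Gaussian array.

`EU MainN = EU CycI + EU PthI + EU (MainN - CycI - PthI)` (`EU_add`).  The first two by `sw_cyc`,
`sw_pth` with `Γ = p` (`Gd → EnAll p`), the third by `EU_norm_le`, `err_good` on `Gd` and `crude_e`
off `Gd`.  Off `Gd` the three bounds are at most: if `EnAll` holds but not `Gd`: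
`C p⁴ n²√n Ξ ≤ n^C'` (`p ≤ √n ≤ n`, `Ξ ≤ n^(5K)`: `‖m_l - c_l‖ ≤ n⁴` as in `GPc`), otherwise
`n^C`.  With `1 ≤ p`, `Γ² ≤ Γ⁴`.
-/


open MeasureTheory ProbabilityTheory Matrix
open scoped Classical

namespace Pool.Agent.ZR.G

theorem pt_main (K : ℕ) : ∃ C : ℝ, 0 < C ∧ ∀ (n : ℕ) (α β η : ℝ) (zl cl : Fin K → ℂ) (z : ℂ),
    Par n α β η zl cl z → ∀ p : ℝ, 1 ≤ p → 32 * p ≤ Real.sqrt n → 1 / η ≤ n * p →
    ∀ X : Fin n × Fin n → ℝ,
      ‖EU (fun σ => MainN α β zl cl z σ X)‖ ≤ EU (fun σ => if Gd α β η p zl z σ X then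
        (C * ((n : ℝ) ^ 2 * Real.sqrt n * p ^ 4) + n ^ 2 * p * |(Mx σ).trace|)
            * Xw (Pn n) (Bm α β σ X) zl cl (1 / (n * η))
        else (n : ℝ) ^ C) := by
  obtain ⟨C1, hC1, h1⟩ := sw_cyc K
  obtain ⟨C2, hC2, h2⟩ := sw_pth K
  obtain ⟨C3, hC3, h3⟩ := crude_e K
  obtain ⟨m, hm⟩ := pow_unbounded_of_one_lt (C1 + C2 + 1) (one_lt_two : (1 : ℝ) < 2)
  refine ⟨m + 7 + 5 * K + C1 + C2 + C3 + 2 + 458 + 276 * K, by positivity, ?_⟩
  set C : ℝ := m + 7 + 5 * K + C1 + C2 + C3 + 2 + 458 + 276 * K with hC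
  intro n α β η zl cl z hP p hp1 hp hx X
  have hn2 : (2 : ℝ) ≤ n := by exact_mod_cast hP.n2
  have hn1 : (1 : ℝ) ≤ n := by linarith
  have hn0 : (0 : ℝ) < n := by linarith
  have hp0 : 0 ≤ p := by linarith
  have hη := hP.e0
  have hsq : Real.sqrt n * Real.sqrt n = n := Real.mul_self_sqrt hn0.le
  have hs1 : 1 ≤ Real.sqrt n := by
    rw [← Real.sqrt_one]
    exact Real.sqrt_le_sqrt hn1
  have hsn : Real.sqrt n ≤ n := by nlinarith
  have hpn : p ≤ n := by linarith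
  have e1 := h1 n α β η zl cl z hP p hp0 hp X
  have e2 := h2 n α β η zl cl z hP p hp0 hp X
  have hsplit : EU (fun σ => MainN α β zl cl z σ X) = EU (fun σ => CycI α β zl cl z σ X)
      + EU (fun σ => PthI α β zl cl z σ X)
      + EU (fun σ => MainN α β zl cl z σ X - CycI α β zl cl z σ X - PthI α β zl cl z σ X) := by
    rw [← EU_add, ← EU_add]
    refine EU_congr fun σ _ => ?_
    ring
  rw [hsplit]
  refine (norm_add_le _ _).trans ?_
  refine (add_le_add ((norm_add_le _ _).trans (add_le_add e1 e2)) (EU_norm_le _)).trans ?_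
  rw [← EU_add, ← EU_add]
  refine EU_mono fun σ hσ => ?_
  have hXw0 : 0 ≤ Xw (Pn n) (Bm α β σ X) zl cl (1 / (n * η)) := by
    unfold Xw
    exact Finset.prod_nonneg fun l _ => by positivity
  by_cases hg : Gd α β η p zl z σ X
  · have hen : EnAll α β p zl z σ X := ⟨hg.2.1.en, fun l => (hg.2.2 l).en⟩
    rw [if_pos hen, if_pos hen, if_pos hg]
    have e3 := err_good hP p hp1 hx hσ X hg
    have hp24 : p ^ 2 ≤ p ^ 4 := pow_le_pow_right₀ hp1 (by norm_num)
    have hA : 0 ≤ (n : ℝ) ^ 2 * Real.sqrt n := by positivity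
    set Y := Xw (Pn n) (Bm α β σ X) zl cl (1 / (n * η)) with hY
    set A := (n : ℝ) ^ 2 * Real.sqrt n with hAdef
    calc C1 * p ^ 4 * A * Y + C2 * p ^ 2 * A * Y
          + ‖MainN α β zl cl z σ X - CycI α β zl cl z σ X - PthI α β zl cl z σ X‖
        ≤ C1 * p ^ 4 * A * Y + C2 * p ^ 4 * A * Y
          + ((458 + 276 * K) * (A * p ^ 4) + n ^ 2 * p * |(Mx σ).trace|) * Y := by
          gcongr
      _ = ((C1 + C2 + 458 + 276 * K) * (A * p ^ 4) + n ^ 2 * p * |(Mx σ).trace|) * Y := by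
          ring
      _ ≤ (C * (A * p ^ 4) + n ^ 2 * p * |(Mx σ).trace|) * Y := by
          have hCle : C1 + C2 + 458 + 276 * K ≤ C := by
            rw [hC]
            have : (0 : ℝ) ≤ m := Nat.cast_nonneg m
            have hK0 : (0 : ℝ) ≤ K := Nat.cast_nonneg K
            linarith
          gcongr
  · rw [if_neg hg]
    have e3 := h3 n α β η zl cl z hP σ hσ X
    have hR : ‖MainN α β zl cl z σ X - CycI α β zl cl z σ X - PthI α β zl cl z σ X‖
        ≤ (n : ℝ) ^ C3 := by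
      refine le_trans ?_ e3
      exact (norm_sub_le _ _).trans (add_le_add (norm_sub_le _ _) le_rfl)
    have hm0 : (0 : ℝ) ≤ m := Nat.cast_nonneg m
    have hK0 : (0 : ℝ) ≤ K := Nat.cast_nonneg K
    by_cases hen : EnAll α β p zl z σ X
    · rw [if_pos hen, if_pos hen]
      have hfac : ∀ l, ‖mz (Pn n) (Bm α β σ X) (zl l) - cl l‖ + 1 / (n * η) ≤ (n : ℝ) ^ 5 := by
        intro l
        have ha := hP.al l
        have him : 0 < |(zl l).im| := lt_of_lt_of_le hη ha.1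
        have hz : (zl l).im ≠ 0 := abs_pos.1 him
        have b1 : ‖mz (Pn n) (Bm α β σ X) (zl l)‖ ≤ (n : ℝ) ^ 2 := by
          refine (mz_norm_le (pb_Bm α β σ hσ X) (zl l) hz).trans ?_
          refine le_trans ?_ hP.e2
          exact one_div_le_one_div_of_le hη ha.1
        have b2 := hP.cb l
        have b3 : 1 / (n * η) ≤ (n : ℝ) := by
          have : 1 / (n * η) = (1 / η) / n := by field_simp
          rw [this, div_le_iff₀ hn0]
          refine hP.e2.trans (le_of_eq ?_)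
          ring
        have b4 : ‖mz (Pn n) (Bm α β σ X) (zl l) - cl l‖ ≤ (n : ℝ) ^ 2 + (n : ℝ) ^ 3 :=
          (norm_sub_le _ _).trans (add_le_add b1 b2)
        have b5 : (n : ℝ) ^ 2 + (n : ℝ) ^ 3 + n ≤ (n : ℝ) ^ 5 := by
          have c1 : (n : ℝ) ^ 2 ≤ (n : ℝ) ^ 3 := pow_le_pow_right₀ hn1 (by norm_num)
          have c2 : (n : ℝ) ≤ (n : ℝ) ^ 3 := by
            calc (n : ℝ) = (n : ℝ) ^ 1 := (pow_one _).symm
              _ ≤ (n : ℝ) ^ 3 := pow_le_pow_right₀ hn1 (by norm_num)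
          have c3 : 4 * (n : ℝ) ^ 3 ≤ (n : ℝ) ^ 5 := by
            have : (n : ℝ) ^ 5 = (n : ℝ) ^ 2 * (n : ℝ) ^ 3 := by ring
            rw [this]
            have : (4 : ℝ) ≤ (n : ℝ) ^ 2 := by nlinarith
            exact mul_le_mul_of_nonneg_right this (by positivity)
          have c4 : 0 ≤ (n : ℝ) ^ 3 := by positivity
          linarith
        linarith
      have hXw : Xw (Pn n) (Bm α β σ X) zl cl (1 / (n * η)) ≤ (n : ℝ) ^ (5 * K : ℕ) := by
        unfold Xw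
        calc ∏ l, (‖mz (Pn n) (Bm α β σ X) (zl l) - cl l‖ + 1 / (n * η))
            ≤ ∏ _l : Fin K, (n : ℝ) ^ 5 :=
              Finset.prod_le_prod (fun l _ => by positivity) fun l _ => hfac l
          _ = (n : ℝ) ^ (5 * K : ℕ) := by
              rw [Finset.prod_const, Finset.card_univ, Fintype.card_fin, ← pow_mul]
      have hp4 : p ^ 4 ≤ (n : ℝ) ^ 4 := by gcongr
      have hp2 : p ^ 2 ≤ (n : ℝ) ^ 4 :=
        (pow_le_pow_right₀ hp1 (by norm_num)).trans hp4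
      have hA : (n : ℝ) ^ 2 * Real.sqrt n ≤ (n : ℝ) ^ 3 := by
        calc (n : ℝ) ^ 2 * Real.sqrt n ≤ (n : ℝ) ^ 2 * n := by gcongr
          _ = (n : ℝ) ^ 3 := by ring
      set N1 : ℝ := (n : ℝ) ^ (7 + 5 * K : ℝ) with hN1
      have hN1e : N1 = (n : ℝ) ^ 4 * (n : ℝ) ^ 3 * (n : ℝ) ^ (5 * K : ℕ) := by
        rw [hN1, ← pow_add, ← pow_add, ← Real.rpow_natCast]
        congr 1
        push_cast
        ring
      have t1 : C1 * p ^ 4 * ((n : ℝ) ^ 2 * Real.sqrt n)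
          * Xw (Pn n) (Bm α β σ X) zl cl (1 / (n * η)) ≤ C1 * N1 := by
        calc C1 * p ^ 4 * ((n : ℝ) ^ 2 * Real.sqrt n)
              * Xw (Pn n) (Bm α β σ X) zl cl (1 / (n * η))
            ≤ C1 * (n : ℝ) ^ 4 * (n : ℝ) ^ 3 * (n : ℝ) ^ (5 * K : ℕ) := by gcongr
          _ = C1 * N1 := by rw [hN1e]; ring
      have t2 : C2 * p ^ 2 * ((n : ℝ) ^ 2 * Real.sqrt n)
          * Xw (Pn n) (Bm α β σ X) zl cl (1 / (n * η)) ≤ C2 * N1 := by
        calc C2 * p ^ 2 * ((n : ℝ) ^ 2 * Real.sqrt n)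
              * Xw (Pn n) (Bm α β σ X) zl cl (1 / (n * η))
            ≤ C2 * (n : ℝ) ^ 4 * (n : ℝ) ^ 3 * (n : ℝ) ^ (5 * K : ℕ) := by gcongr
          _ = C2 * N1 := by rw [hN1e]; ring
      set N2 : ℝ := (n : ℝ) ^ (7 + 5 * K + C3 : ℝ) with hN2
      have hN12 : N1 ≤ N2 := Real.rpow_le_rpow_of_exponent_le hn1 (by linarith)
      have hN32 : (n : ℝ) ^ C3 ≤ N2 := Real.rpow_le_rpow_of_exponent_le hn1 (by linarith)
      have hN20 : 0 ≤ N2 := Real.rpow_nonneg hn0.le _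
      calc _ ≤ C1 * N1 + C2 * N1 + (n : ℝ) ^ C3 := add_le_add (add_le_add t1 t2) hR
        _ ≤ C1 * N2 + C2 * N2 + N2 := by gcongr
        _ = (C1 + C2 + 1) * N2 := by ring
        _ ≤ 2 ^ m * N2 := by gcongr
        _ ≤ (n : ℝ) ^ m * N2 := by gcongr
        _ = (n : ℝ) ^ (m + (7 + 5 * K + C3) : ℝ) := by
            rw [Real.rpow_add hn0, Real.rpow_natCast]
        _ ≤ (n : ℝ) ^ C := by
            refine Real.rpow_le_rpow_of_exponent_le hn1 ?_
            rw [hC]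
            linarith
    · rw [if_neg hen, if_neg hen]
      set N2 : ℝ := (n : ℝ) ^ (C1 + C2 + C3 : ℝ) with hN2
      have u1 : (n : ℝ) ^ C1 ≤ N2 := Real.rpow_le_rpow_of_exponent_le hn1 (by linarith)
      have u2 : (n : ℝ) ^ C2 ≤ N2 := Real.rpow_le_rpow_of_exponent_le hn1 (by linarith)
      have u3 : (n : ℝ) ^ C3 ≤ N2 := Real.rpow_le_rpow_of_exponent_le hn1 (by linarith)
      have hN20 : 0 ≤ N2 := Real.rpow_nonneg hn0.le _
      calc _ ≤ (n : ℝ) ^ C1 + (n : ℝ) ^ C2 + (n : ℝ) ^ C3 := by gcongr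
        _ ≤ N2 + N2 + N2 := by gcongr
        _ ≤ 2 ^ 2 * N2 := by linarith
        _ ≤ (n : ℝ) ^ 2 * N2 := by gcongr
        _ = (n : ℝ) ^ (2 + (C1 + C2 + C3) : ℝ) := by
            rw [Real.rpow_add hn0, ← hN2, Real.rpow_two]
        _ ≤ (n : ℝ) ^ C := by
            refine Real.rpow_le_rpow_of_exponent_le hn1 ?_
            rw [hC]
            linarith

end Pool.Agent.ZR.G

end

section

/-!
# ZR/JFour : J4 (smoothed counting function under bordering and relocation)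

First part (bordering): write `n = N + 1`, `i = Fin.last N`, `A = At (1/n) t (snocV a b) X`, symmetric;
`mino i A = At (1/n) t a (subX i X)` (`mino_At_snoc`).  By `arcS_mino` (JInter2)
`|arcS A x η - arcS (mino i A) x η| < π/2`, so
`|arcS A x η - κ| ≤ |arcS (mino i A) x η - κ| + π`; integrate (everything is bounded, `|arcS| ≤
(N+1) π/2` by `arcS_eq`, and measurable, `measurable_arcS` (Sp4)) and use `gm_sub_integral`.

Second part (relocation): `t = n^(-δ)`, `s = e^{-t/2}`, `τ = (1-e^{-t})(1/n)`, `d = s a`, `d' = s a'`,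
`∑|d'_i - d_i| ≤ θ = ∑|a_i - a'_i|`, `p = c0/4`, `ν' = min (ν/2) (δ/4)`, `Q = n^(ν'-δ/2) ≤ p` for `n`
large, `z = x + iη`, `z.im = η ≥ 1/n = n^(-1-0)` (`c = 0` in `good_whp`).  The coordinates with
`a_i ≠ a'_i` satisfy `x + 3p ≤ d_i, d'_i` or `d_i, d'_i ≤ x - 3p` for `n` large, as in JThree
(`(1-s)|a_i| ≤ n^(-3δ/4)/2`).
* always `|arcS' - arcS| ≤ θ/η ≤ θ n =: B2` (`path_arc_triv`);
* on the good event of `good_whp` (exponent `ν'`, `κ = p`): `|arcS' - arcS| ≤ θ (η + Q)/p²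
  ≤ θ (32/c0²) n^(ν'-δ/2) =: B1` (`path_arc`, and `η ≤ n^(-δ/2) ≤ n^(ν'-δ/2)`).
`mean_split` with `P(Gᶜ) ≤ n^(-2)`: `∫ |arcS' - arcS| ≤ B1 + θ n^(-1) ≤ n^(ν-δ/2) θ` for `n` large
(`ν' ≤ ν/2`, and `n^(-1) ≤ n^(-δ/2) ≤ n^(ν'-δ/2)`).  Finally
`∫|arcS' - κ| ≤ ∫|arcS - κ| + ∫|arcS' - arcS|`.
-/


open MeasureTheory ProbabilityTheory Matrix

namespace Pool.Agent.ZR

theorem JFour_prob (N : ℕ) : IsProbabilityMeasure (gm N) := by
  unfold gm
  infer_instance

theorem JFour_At_meas {N : ℕ} (v t : ℝ) (ht : 0 ≤ t) (a : Fin N → ℝ) (k l : Fin N) :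
    Measurable (fun X : Fin N × Fin N → ℝ => At v t a X k l) := by
  have e : (fun X : Fin N × Fin N → ℝ => At v t a X k l)
      = fun X => Dw ((1 - Real.exp (-t)) * v) (fun i => Real.exp (-t / 2) * a i) X k l := by
    funext X
    rw [At_eq_Dw v t ht a X]
  rw [e]
  exact measurable_Dw _ _ k l

theorem JFour_At_symm {N : ℕ} (v t : ℝ) (ht : 0 ≤ t) (a : Fin N → ℝ)
    (X : Fin N × Fin N → ℝ) : (At v t a X).IsSymm := by
  rw [At_eq_Dw v t ht a X]
  exact Dw_symm _ _ _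

theorem JFour_arc_meas {N : ℕ} (v t : ℝ) (ht : 0 ≤ t) (a : Fin N → ℝ) (x η : ℝ) :
    Measurable (fun X : Fin N × Fin N → ℝ => arcS (At v t a X) x η) :=
  measurable_arcS _ (JFour_At_meas v t ht a) (JFour_At_symm v t ht a) x η

theorem JFour_arc_bd {N : ℕ} (A : Matrix (Fin N) (Fin N) ℝ) (hA : A.IsSymm) (x η : ℝ) :
    |arcS A x η| ≤ N * (Real.pi / 2) := by
  rw [arcS_eq A hA]
  refine (Finset.abs_sum_le_sum_abs _ _).trans ?_
  calc ∑ i : Fin N, |Real.arctan ((x - evs A i) / η)| ≤ ∑ _i : Fin N, Real.pi / 2 := by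
        refine Finset.sum_le_sum fun i _ => ?_
        rw [abs_le]
        exact ⟨(Real.neg_pi_div_two_lt_arctan _).le, (Real.arctan_lt_pi_div_two _).le⟩
    _ = N * (Real.pi / 2) := by simp

theorem JFour_int {N : ℕ} (v t : ℝ) (ht : 0 ≤ t) (a : Fin N → ℝ) (x η κ : ℝ) :
    Integrable (fun X : Fin N × Fin N → ℝ => |arcS (At v t a X) x η - κ|) (gm N) := by
  haveI := JFour_prob N
  have hm : Measurable (fun X : Fin N × Fin N → ℝ => |arcS (At v t a X) x η - κ|) :=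
    continuous_abs.measurable.comp ((JFour_arc_meas v t ht a x η).sub_const κ)
  refine Integrable.of_bound hm.aestronglyMeasurable (N * (Real.pi / 2) + |κ|)
    (Filter.Eventually.of_forall fun X => ?_)
  rw [Real.norm_eq_abs, abs_abs]
  refine (abs_sub _ _).trans ?_
  exact add_le_add (JFour_arc_bd _ (JFour_At_symm v t ht a X) x η) le_rfl

theorem JFour_bord {N : ℕ} (v t : ℝ) (ht : 0 ≤ t) (a : Fin N → ℝ) (b x η κ : ℝ) (hη : 0 < η) :
    ∫ X, |arcS (At v t (snocV (n := N + 1) a b) X) x η - κ| ∂(gm (N + 1))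
      ≤ (∫ X, |arcS (At v t a X) x η - κ| ∂(gm N)) + Real.pi := by
  haveI := JFour_prob (N + 1)
  haveI := JFour_prob N
  have hm : Measurable (fun X : Fin N × Fin N → ℝ => |arcS (At v t a X) x η - κ|) :=
    continuous_abs.measurable.comp ((JFour_arc_meas v t ht a x η).sub_const κ)
  have h1 := gm_sub_integral (Fin.last N) (fun Y => |arcS (At v t a Y) x η - κ|) hm
  rw [← h1]
  have hint : Integrable (fun X : Fin (N + 1) × Fin (N + 1) → ℝ =>
      |arcS (At v t a (subX (Fin.last N) X)) x η - κ|) (gm (N + 1)) := by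
    refine Integrable.of_bound (hm.comp (measurable_subX _)).aestronglyMeasurable
      (N * (Real.pi / 2) + |κ|) (Filter.Eventually.of_forall fun X => ?_)
    rw [Real.norm_eq_abs, abs_abs]
    refine (abs_sub _ _).trans ?_
    exact add_le_add (JFour_arc_bd _ (JFour_At_symm v t ht a _) x η) le_rfl
  have h2 : (∫ X, |arcS (At v t a (subX (Fin.last N) X)) x η - κ| ∂(gm (N + 1))) + Real.pi
      = ∫ X, (|arcS (At v t a (subX (Fin.last N) X)) x η - κ| + Real.pi) ∂(gm (N + 1)) := by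
    rw [integral_add hint (integrable_const _), integral_const]
    simp
  rw [h2]
  refine integral_mono (JFour_int v t ht _ x η κ) (hint.add (integrable_const _)) fun X => ?_
  have h3 := arcS_mino (Fin.last N) (At v t (snocV (n := N + 1) a b) X)
    (JFour_At_symm v t ht _ X) x η hη
  rw [mino_At_snoc] at h3
  have h4 : |arcS (At v t (snocV (n := N + 1) a b) X) x η - κ|
      ≤ |arcS (At v t (snocV (n := N + 1) a b) X) x η
          - arcS (At v t a (subX (Fin.last N) X)) x η|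
        + |arcS (At v t a (subX (Fin.last N) X)) x η - κ| := abs_sub_le _ _ _
  have h5 := Real.pi_pos
  show |arcS (At v t (snocV (n := N + 1) a b) X) x η - κ|
    ≤ |arcS (At v t a (subX (Fin.last N) X)) x η - κ| + Real.pi
  linarith

theorem JFour_reloc (δ ν c0 : ℝ) (hδ : 0 < δ) (hδ1 : δ < 1) (hν : 0 < ν) (hc0 : 0 < c0) :
    ∃ n0 : ℕ, ∀ N : ℕ, n0 ≤ N + 1 → ∀ (x η κ : ℝ), 1 / ((N + 1 : ℕ) : ℝ) ≤ η →
      η ≤ ((N + 1 : ℕ) : ℝ) ^ (-(δ / 2)) →
      (∀ (a a' : Fin (N + 1) → ℝ),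
        (∀ i, |a i| ≤ ((N + 1 : ℕ) : ℝ) ^ (δ / 4) ∧ |a' i| ≤ ((N + 1 : ℕ) : ℝ) ^ (δ / 4)) →
        (∀ i, a i = a' i ∨ (x + c0 ≤ a i ∧ x + c0 ≤ a' i) ∨ (a i ≤ x - c0 ∧ a' i ≤ x - c0)) →
        ∫ X, |arcS (At (1 / ((N + 1 : ℕ) : ℝ)) (((N + 1 : ℕ) : ℝ) ^ (-δ)) a' X) x η - κ|
            ∂(gm (N + 1))
          ≤ (∫ X, |arcS (At (1 / ((N + 1 : ℕ) : ℝ)) (((N + 1 : ℕ) : ℝ) ^ (-δ)) a X) x η - κ|
              ∂(gm (N + 1)))
            + ((N + 1 : ℕ) : ℝ) ^ (ν - δ / 2) * ∑ i, |a i - a' i|) := by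
  set p : ℝ := c0 / 4 with hp
  have hp0 : 0 < p := by positivity
  set ν' : ℝ := min (ν / 2) (δ / 4) with hν'
  have hν'0 : 0 < ν' := by
    rw [hν']
    exact lt_min (by linarith) (by linarith)
  have hν'1 : ν' ≤ ν / 2 := min_le_left _ _
  have hν'2 : ν' ≤ δ / 4 := min_le_right _ _
  obtain ⟨n1, hn1⟩ := good_whp δ 0 ν' 2 p hδ hδ1 le_rfl hν'0 hp0
  have ev1 : ∀ᶠ n : ℕ in Filter.atTop, ((n : ℕ) : ℝ) ^ (-(δ / 4)) ≤ p := by
    have h1 : Filter.Tendsto (fun n : ℕ => ((n : ℕ) : ℝ) ^ (-(δ / 4))) Filter.atTop (nhds 0) :=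
      (tendsto_rpow_neg_atTop (by linarith)).comp tendsto_natCast_atTop_atTop
    exact h1.eventually_le_const hp0
  have ev2 : ∀ᶠ n : ℕ in Filter.atTop, 32 / c0 ^ 2 + 1 ≤ ((n : ℕ) : ℝ) ^ (ν / 2) := by
    have h1 : Filter.Tendsto (fun n : ℕ => ((n : ℕ) : ℝ) ^ (ν / 2)) Filter.atTop Filter.atTop :=
      (tendsto_rpow_atTop (by linarith)).comp tendsto_natCast_atTop_atTop
    exact h1.eventually_ge_atTop _
  obtain ⟨n2, hn2⟩ := Filter.eventually_atTop.1 (ev1.and ev2)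
  refine ⟨max n1 n2, fun N hN x η κ hη1 hη2 a a' hab hd => ?_⟩
  have hNn1 : n1 ≤ N + 1 := le_trans (le_max_left _ _) hN
  obtain ⟨hA, hB⟩ := hn2 (N + 1) (le_trans (le_max_right _ _) hN)
  have hgood := hn1 N hNn1
  set n : ℝ := ((N + 1 : ℕ) : ℝ) with hn
  have hn1' : 1 ≤ n := by
    rw [hn]
    push_cast
    have : (0 : ℝ) ≤ N := Nat.cast_nonneg N
    linarith
  have hn0 : 0 < n := by linarith
  have hη0 : 0 < η := lt_of_lt_of_le (by positivity) hη1
  set t : ℝ := n ^ (-δ) with ht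
  have ht0 : 0 ≤ t := by positivity
  set τ : ℝ := (1 - Real.exp (-t)) * (1 / n) with hτ
  have hτ0 : 0 < τ := (tau_bounds (N + 1) (by omega) δ hδ).1
  set s : ℝ := Real.exp (-t / 2) with hs
  have hs0 : 0 < s := Real.exp_pos _
  have hs1 : s ≤ 1 := by
    rw [hs]
    exact Real.exp_le_one_iff.2 (by linarith)
  have hs2 : 1 - s ≤ t / 2 := by
    have := Real.add_one_le_exp (-t / 2)
    rw [hs]
    linarith
  set d : Fin (N + 1) → ℝ := fun i => s * a i with hdd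
  set d' : Fin (N + 1) → ℝ := fun i => s * a' i with hdd'
  have hAt : ∀ X, At (1 / n) t a X = Dw τ d X := fun X => At_eq_Dw (1 / n) t ht0 a X
  have hAt' : ∀ X, At (1 / n) t a' X = Dw τ d' X := fun X => At_eq_Dw (1 / n) t ht0 a' X
  set Q : ℝ := n ^ (0 + ν' - δ / 2) with hQ
  have hQ0 : 0 < Q := by positivity
  have hQp : Q ≤ p := by
    refine le_trans ?_ hA
    rw [hQ]
    exact Real.rpow_le_rpow_of_exponent_le hn1' (by linarith)
  have hηQ : η ≤ Q := by
    refine hη2.trans ?_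
    rw [hQ]
    exact Real.rpow_le_rpow_of_exponent_le hn1' (by linarith)
  have hsmall : ∀ y : ℝ, |y| ≤ n ^ (δ / 4) → |s * y - y| ≤ p := by
    intro y hy
    have e1 : s * y - y = -((1 - s) * y) := by ring
    rw [e1, abs_neg, abs_mul, abs_of_nonneg (by linarith : 0 ≤ 1 - s)]
    calc (1 - s) * |y| ≤ t / 2 * n ^ (δ / 4) :=
          mul_le_mul hs2 hy (abs_nonneg _) (by positivity)
      _ = n ^ (-δ + δ / 4) / 2 := by
          rw [ht, Real.rpow_add hn0]
          ring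
      _ ≤ n ^ (-(δ / 4)) / 1 := by
          refine div_le_div₀ (by positivity) ?_ (by norm_num) (by norm_num)
          exact Real.rpow_le_rpow_of_exponent_le hn1' (by linarith)
      _ ≤ p := by
          rw [div_one]
          exact hA
  have hdist : ∀ i, d i = d' i ∨ (x + 3 * p ≤ d i ∧ x + 3 * p ≤ d' i) ∨
      (d i ≤ x - 3 * p ∧ d' i ≤ x - 3 * p) := by
    intro i
    have h1 := abs_le.1 (hsmall (a i) (hab i).1)
    have h2 := abs_le.1 (hsmall (a' i) (hab i).2)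
    rcases hd i with h3 | ⟨h3, h4⟩ | ⟨h3, h4⟩
    · left
      show s * a i = s * a' i
      rw [h3]
    · right
      left
      show x + 3 * p ≤ s * a i ∧ x + 3 * p ≤ s * a' i
      constructor <;> linarith
    · right
      right
      show s * a i ≤ x - 3 * p ∧ s * a' i ≤ x - 3 * p
      constructor <;> linarith
  set θ : ℝ := ∑ i, |a i - a' i| with hθ
  have hθ0 : 0 ≤ θ := Finset.sum_nonneg fun _ _ => abs_nonneg _
  have hθd : ∑ i, |d' i - d i| ≤ θ := by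
    rw [hθ]
    refine Finset.sum_le_sum fun i _ => ?_
    have e1 : d' i - d i = s * (a' i - a i) := by
      show s * a' i - s * a i = _
      ring
    rw [e1, abs_mul, abs_of_pos hs0, abs_sub_comm]
    exact mul_le_of_le_one_left (abs_nonneg _) hs1
  -- the difference
  haveI := JFour_prob (N + 1)
  set Δ : (Fin (N + 1) × Fin (N + 1) → ℝ) → ℝ :=
    fun X => arcS (Dw τ d' X) x η - arcS (Dw τ d X) x η with hΔ
  have hΔm : Measurable Δ := by
    refine Measurable.sub ?_ ?_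
    · exact measurable_arcS _ (measurable_Dw τ d') (Dw_symm τ d') x η
    · exact measurable_arcS _ (measurable_Dw τ d) (Dw_symm τ d) x η
  set G : Set (Fin (N + 1) × Fin (N + 1) → ℝ) := {X | (∀ i : Fin (N + 1),
          ‖qf (mino i (Dw τ (mixV d d' i) X)) (rowv i (Dw τ (mixV d d' i) X)) (⟨x, η⟩ : ℂ)‖
            ≤ Q) ∧ ∀ i, Real.sqrt (2 * τ) * |X (i, i)| ≤ p} with hG
  have hGc : (gm (N + 1)).real Gᶜ ≤ n ^ (-(2 : ℝ)) := by
    have h1 := hgood d d' (⟨x, η⟩ : ℂ) (by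
      show n ^ (-1 - (0 : ℝ)) ≤ η
      have e1 : (-1 - (0 : ℝ)) = -1 := by ring
      rw [e1, Real.rpow_neg_one, ← one_div]
      exact hη1)
    exact h1
  have hB1 : ∀ X ∈ G, |Δ X| ≤ θ * (η + Q) / p ^ 2 := by
    intro X hX
    have h1 := path_arc τ hτ0 d d' X x η hη0 p Q hp0 hQp hX.1 hX.2 hdist
    refine h1.trans ?_
    refine div_le_div_of_nonneg_right ?_ (by positivity)
    exact mul_le_mul_of_nonneg_right hθd (by positivity)
  have hB2 : ∀ X, |Δ X| ≤ θ * n := by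
    intro X
    have h1 := path_arc_triv τ hτ0 d d' X x η hη0
    refine h1.trans ?_
    rw [div_le_iff₀ hη0]
    have h2 : 1 ≤ n * η := by
      have := mul_le_mul_of_nonneg_left hη1 hn0.le
      rwa [mul_one_div_cancel hn0.ne'] at this
    calc ∑ i, |d' i - d i| ≤ θ := hθd
      _ = θ * 1 := (mul_one _).symm
      _ ≤ θ * (n * η) := mul_le_mul_of_nonneg_left h2 hθ0
      _ = θ * n * η := by ring
  have hmean := mean_split (gm (N + 1)) Δ hΔm G (θ * (η + Q) / p ^ 2) (θ * n) (n ^ (-(2 : ℝ)))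
    (by positivity) (by positivity) hB1 hB2 hGc
  have hfin : θ * (η + Q) / p ^ 2 + θ * n * n ^ (-(2 : ℝ)) ≤ n ^ (ν - δ / 2) * θ := by
    have e1 : n * n ^ (-(2 : ℝ)) = n ^ (-(1 : ℝ)) := by
      nth_rewrite 1 [← Real.rpow_one n]
      rw [← Real.rpow_add hn0]
      norm_num
    have e2 : n ^ (-(1 : ℝ)) ≤ n ^ (ν / 2 - δ / 2) :=
      Real.rpow_le_rpow_of_exponent_le hn1' (by linarith)
    have e3 : Q ≤ n ^ (ν / 2 - δ / 2) := by
      rw [hQ]
      exact Real.rpow_le_rpow_of_exponent_le hn1' (by linarith)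
    have e4 : n ^ (ν - δ / 2) = n ^ (ν / 2) * n ^ (ν / 2 - δ / 2) := by
      rw [← Real.rpow_add hn0]
      congr 1
      ring
    set W : ℝ := n ^ (ν / 2 - δ / 2) with hW
    have hW0 : 0 < W := by positivity
    have e5 : θ * (η + Q) / p ^ 2 ≤ θ * (32 / c0 ^ 2 * W) := by
      have e6 : θ * (η + Q) / p ^ 2 = θ * (16 / c0 ^ 2 * (η + Q)) := by
        rw [hp]
        field_simp
        ring
      rw [e6]
      refine mul_le_mul_of_nonneg_left ?_ hθ0
      have e7 : 32 / c0 ^ 2 * W = 16 / c0 ^ 2 * (W + W) := by ring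
      rw [e7]
      exact mul_le_mul_of_nonneg_left (add_le_add (hηQ.trans e3) e3) (by positivity)
    have e8 : θ * n * n ^ (-(2 : ℝ)) ≤ θ * W := by
      rw [mul_assoc, e1]
      exact mul_le_mul_of_nonneg_left e2 hθ0
    calc θ * (η + Q) / p ^ 2 + θ * n * n ^ (-(2 : ℝ)) ≤ θ * (32 / c0 ^ 2 * W) + θ * W :=
          add_le_add e5 e8
      _ = (32 / c0 ^ 2 + 1) * (W * θ) := by ring
      _ ≤ n ^ (ν / 2) * (W * θ) := mul_le_mul_of_nonneg_right hB (by positivity)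
      _ = n ^ (ν - δ / 2) * θ := by rw [e4]; ring
  have hint := JFour_int (1 / n) t ht0 a x η κ
  have hint' := JFour_int (1 / n) t ht0 a' x η κ
  have hΔint : Integrable (fun X => |Δ X|) (gm (N + 1)) := by
    refine Integrable.of_bound (continuous_abs.measurable.comp hΔm).aestronglyMeasurable
      (θ * n) (Filter.Eventually.of_forall fun X => ?_)
    rw [Real.norm_eq_abs]
    show |(|Δ X|)| ≤ θ * n
    rw [abs_abs]
    exact hB2 X
  calc ∫ X, |arcS (At (1 / n) t a' X) x η - κ| ∂(gm (N + 1))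
      ≤ ∫ X, (|arcS (At (1 / n) t a X) x η - κ| + |Δ X|) ∂(gm (N + 1)) := by
        refine integral_mono hint' (hint.add hΔint) fun X => ?_
        show |arcS (At (1 / n) t a' X) x η - κ|
          ≤ |arcS (At (1 / n) t a X) x η - κ| + |Δ X|
        rw [hAt X, hAt' X]
        have h4 := abs_sub_le (arcS (Dw τ d' X) x η) (arcS (Dw τ d X) x η) κ
        show |arcS (Dw τ d' X) x η - κ| ≤ |arcS (Dw τ d X) x η - κ|
          + |arcS (Dw τ d' X) x η - arcS (Dw τ d X) x η|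
        linarith
    _ = (∫ X, |arcS (At (1 / n) t a X) x η - κ| ∂(gm (N + 1))) + ∫ X, |Δ X| ∂(gm (N + 1)) :=
        integral_add hint hΔint
    _ ≤ (∫ X, |arcS (At (1 / n) t a X) x η - κ| ∂(gm (N + 1))) + n ^ (ν - δ / 2) * θ := by
        linarith

theorem j4 : J4 := by
  intro δ ν c0 hδ hδ1 hν hc0
  obtain ⟨n0, hn0⟩ := JFour_reloc δ ν c0 hδ hδ1 hν hc0
  refine ⟨max n0 1, fun n hn x η κ hx hη1 hη2 => ?_⟩
  obtain ⟨N, rfl⟩ : ∃ N, n = N + 1 := ⟨n - 1, by
    have := le_trans (le_max_right n0 1) hn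
    omega⟩
  have hN0 : n0 ≤ N + 1 := le_trans (le_max_left _ _) hn
  have hη0 : 0 < η := lt_of_lt_of_le (by positivity) hη1
  constructor
  · intro a b
    exact JFour_bord (1 / ((N + 1 : ℕ) : ℝ)) (((N + 1 : ℕ) : ℝ) ^ (-δ)) (by positivity) a b x η κ
      hη0
  · intro a a' h1 h2
    have h3 := hn0 N hN0 x η κ hη1 hη2 a a' h1 h2
    have h4 : (0 : ℝ) ≤ ((N + 1 : ℕ) : ℝ) ^ (-(5 : ℝ)) := by positivity
    linarith

end Pool.Agent.ZR

end

section

/-!
# ZR/H7 : expansion of a product of imaginary parts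

* `im_prod`: `Im w = (w - conj w)/(2i)`; `Finset.prod_add` for `∏ (m_j + (-conj m_j))`.
* `prod_diff`: for `σ ∈ Sn n` and `Im z ≠ 0`, `conj (m(z)) = m(conj z)` (`mz_conj`, C2, `pb_Bm`).  By
  `im_prod`, `ej_ofReal`, `ej_cmul`, `ej_sum`, `ej_congr` (H1) the difference of the two real expectations
  is `(1/(2i))^k ∑_S ± (E_S(α,β) - E_S(α',β'))`, norm at most `2^(-k) 2^k M`.  Integrability: `int_bdd`,
  `mz_X` (H1), `mz_norm_le` (C3), finite products of bounded continuous functions.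
-/


open MeasureTheory ProbabilityTheory Matrix

namespace Pool.Agent.ZR.H

variable {n : ℕ}

private theorem im_one (w : ℂ) :
    ((w.im : ℝ) : ℂ) = 1 / (2 * Complex.I) * (w + -(starRingEnd ℂ w)) := by
  have h := Complex.im_eq_sub_conj w
  rw [h]
  ring

theorem im_prod {k : ℕ} (m : Fin k → ℂ) :
    ((∏ j, (m j).im : ℝ) : ℂ) = (1 / (2 * Complex.I)) ^ k *
      ∑ S ∈ (Finset.univ : Finset (Fin k)).powerset, (-1 : ℂ) ^ (Finset.univ \ S).card *
        ∏ j, (if j ∈ S then m j else starRingEnd ℂ (m j)) := by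
  rw [Complex.ofReal_prod]
  rw [Finset.prod_congr rfl fun j _ => im_one (m j), Finset.prod_mul_distrib, Finset.prod_const,
    Finset.card_univ, Fintype.card_fin, Finset.prod_add]
  congr 1
  refine Finset.sum_congr rfl fun S _ => ?_
  rw [Finset.prod_neg]
  have e : ∏ j, (if j ∈ S then m j else starRingEnd ℂ (m j))
      = (∏ j ∈ S, m j) * ∏ j ∈ Finset.univ \ S, starRingEnd ℂ (m j) := by
    rw [← Finset.compl_eq_univ_sdiff, ← Finset.prod_mul_prod_compl S]
    congr 1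
    · exact Finset.prod_congr rfl fun j hj => by rw [if_pos hj]
    · exact Finset.prod_congr rfl fun j hj => by rw [if_neg (Finset.mem_compl.1 hj)]
  rw [e]
  ring

private theorem ej_expand {k : ℕ} {z : Fin k → ℂ} (hz : ∀ j, (z j).im ≠ 0) (α β : ℝ) :
    ((EJ (n := n) (fun σ X => ∏ j, (mz (Pn n) (Bm α β σ X) (z j)).im) : ℝ) : ℂ)
      = (1 / (2 * Complex.I)) ^ k *
      ∑ S ∈ (Finset.univ : Finset (Fin k)).powerset, (-1 : ℂ) ^ (Finset.univ \ S).card *
        EJ (n := n) (fun σ X => ∏ j, (mz (Pn n) (Bm α β σ X)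
          (if j ∈ S then z j else starRingEnd ℂ (z j)) - 0)) := by
  rw [← ej_ofReal]
  have h1 : EJ (n := n) (fun σ X => ((∏ j, (mz (Pn n) (Bm α β σ X) (z j)).im : ℝ) : ℂ))
      = EJ (n := n) (fun σ X => (1 / (2 * Complex.I)) ^ k *
      ∑ S ∈ (Finset.univ : Finset (Fin k)).powerset, (-1 : ℂ) ^ (Finset.univ \ S).card *
        ∏ j, (mz (Pn n) (Bm α β σ X)
          (if j ∈ S then z j else starRingEnd ℂ (z j)) - 0)) := by
    refine ej_congr fun σ hσ X => ?_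
    rw [im_prod (fun j => mz (Pn n) (Bm α β σ X) (z j))]
    congr 1
    refine Finset.sum_congr rfl fun S _ => ?_
    congr 1
    refine Finset.prod_congr rfl fun j _ => ?_
    rw [sub_zero]
    split_ifs
    · rfl
    · rw [mz_conj (pb_Bm α β σ hσ X) (z j) (hz j)]
  rw [h1, ej_cmul]
  congr 1
  rw [ej_sum]
  · refine Finset.sum_congr rfl fun S _ => ?_
    rw [ej_cmul]
  · intro S _ σ hσ
    have hz' : ∀ j, (if j ∈ S then z j else starRingEnd ℂ (z j)).im ≠ 0 := by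
      intro j
      split_ifs
      · exact hz j
      · simpa using hz j
    refine int_bdd (continuous_const.mul (continuous_finsetProd _ fun j _ =>
      (mz_X α β hσ (hz' j)).sub continuous_const))
      (∏ j : Fin k, (1 / |(if j ∈ S then z j else starRingEnd ℂ (z j)).im|)) fun X => ?_
    rw [norm_mul, norm_pow, norm_neg, norm_one, one_pow, one_mul, norm_prod]
    refine Finset.prod_le_prod (fun j _ => norm_nonneg _) fun j _ => ?_
    rw [sub_zero]
    exact mz_norm_le (pb_Bm α β σ hσ X) _ (hz' j)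

theorem prod_diff {k : ℕ} {z : Fin k → ℂ} (hz : ∀ j, (z j).im ≠ 0) (α β α' β' M : ℝ)
    (hM : ∀ S : Finset (Fin k),
      ‖EJ (n := n) (fun σ X => ∏ j, (mz (Pn n) (Bm α β σ X)
          (if j ∈ S then z j else starRingEnd ℂ (z j)) - 0))
        - EJ (n := n) (fun σ X => ∏ j, (mz (Pn n) (Bm α' β' σ X)
          (if j ∈ S then z j else starRingEnd ℂ (z j)) - 0))‖ ≤ M) :
    |EJ (n := n) (fun σ X => ∏ j, (mz (Pn n) (Bm α β σ X) (z j)).im)
      - EJ (n := n) (fun σ X => ∏ j, (mz (Pn n) (Bm α' β' σ X) (z j)).im)| ≤ M := by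
  rw [← Real.norm_eq_abs, ← Complex.norm_real, Complex.ofReal_sub, ej_expand hz α β,
    ej_expand hz α' β', ← mul_sub, ← Finset.sum_sub_distrib, norm_mul]
  have h1 : ‖((1 : ℂ) / (2 * Complex.I)) ^ k‖ = (1 / 2) ^ k := by
    rw [norm_pow]
    congr 1
    simp
  rw [h1]
  have h2 : ‖∑ S ∈ (Finset.univ : Finset (Fin k)).powerset,
      ((-1 : ℂ) ^ (Finset.univ \ S).card *
        EJ (n := n) (fun σ X => ∏ j, (mz (Pn n) (Bm α β σ X)
          (if j ∈ S then z j else starRingEnd ℂ (z j)) - 0))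
      - (-1 : ℂ) ^ (Finset.univ \ S).card *
        EJ (n := n) (fun σ X => ∏ j, (mz (Pn n) (Bm α' β' σ X)
          (if j ∈ S then z j else starRingEnd ℂ (z j)) - 0)))‖ ≤ 2 ^ k * M := by
    refine (norm_sum_le _ _).trans ?_
    refine (Finset.sum_le_sum (g := fun _ => M) fun S _ => ?_).trans ?_
    · rw [← mul_sub, norm_mul, norm_pow, norm_neg, norm_one, one_pow, one_mul]
      exact hM S
    · rw [Finset.sum_const, Finset.card_powerset, Finset.card_univ, Fintype.card_fin,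
        nsmul_eq_mul]
      push_cast
      exact le_rfl
  refine (mul_le_mul_of_nonneg_left h2 (by positivity)).trans (le_of_eq ?_)
  rw [← mul_assoc, ← mul_pow]
  norm_num

end Pool.Agent.ZR.H

end
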